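import Pool.Agent.H43.PJ.M02

/-! The parts of this file: H91.PK.Om, H91.EHA.SwG, H91.PK.DiA, H92.EH.Exp, H92.EH.Farey, H92.EH.Ramanujan, H92.EH.Dual, H92.EH.Totient. -/

section

/-!
PK Om: the weight `om t = t(1-t)^2` and its Fourier representation.

* `0 ≤ om ≤ 4/27`, `om` is 1-Lipschitz on ℝ (on [0,1] the derivative (1-t)(1-3t) is in [-1/3, 1]; om(0)=om(1)=0).
* For β ≥ 0 let g(v) = e^{-βv} om(e^{-v}) = e^{-(β+1)v} (1-e^{-v})² for v ≥ 0 and 0 for v < 0.  g is continuous,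
  integrable and ∫ g(v) e^{-itv} dv = ∑ of three exponentials = 1/(s+1) - 2/(s+2) + 1/(s+3)
  = 2/((s+1)(s+2)(s+3)), s = β + it, i.e. = KK β t, which is integrable in t.  Fourier inversion
  (Mathlib: `MeasureTheory.Integrable.fourierInv_fourier_eq`, with the change of variable w = t/(2π)) gives
     g(v) = (1/2π) ∫ KK β t e^{itv} dt   for every real v.
* |KK β t| ≤ |KK 0 t| = 2/√((1+t²)(4+t²)(9+t²)) ≤ 0.4386/(1+t²)  since (4+u)(9+u) ≥ 20.797 (1+u) for u ≥ 0
  ((4+u)(9+u) - 20.797(1+u) = u² - 7.797u + 15.203 has negative discriminant 60.79-60.81) and 4/20.797 ≤ 0.4386².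
  Also |KK β t| ≤ 2/|t|³.
-/

set_option autoImplicit false

namespace Pool.Agent.H91.PK

open Finset MeasureTheory

private theorem om_lip01 {s t : ℝ} (hs0 : 0 ≤ s) (hs1 : s ≤ 1) (ht0 : 0 ≤ t) (ht1 : t ≤ 1) :
    |s * (1 - s) ^ 2 - t * (1 - t) ^ 2| ≤ |s - t| := by
  have e : s * (1 - s) ^ 2 - t * (1 - t) ^ 2 =
      (s - t) * ((1 - (s + t)) ^ 2 - s * t) := by ring
  rw [e, abs_mul]
  have h : |(1 - (s + t)) ^ 2 - s * t| ≤ 1 := by
    rw [abs_le]
    have hst : 0 ≤ s * t := mul_nonneg hs0 ht0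
    constructor
    · nlinarith [sq_nonneg (s - t), sq_nonneg (3 * (s + t) - 4)]
    · nlinarith [mul_nonneg (sub_nonneg.2 hs1) (sub_nonneg.2 ht1)]
  calc |s - t| * |(1 - (s + t)) ^ 2 - s * t| ≤ |s - t| * 1 := by gcongr
    _ = |s - t| := mul_one _

theorem om_lip (s t : ℝ) : |om s - om t| ≤ |s - t| := by
  have key : ∀ s : ℝ, om s = (max 0 (min s 1)) * (1 - max 0 (min s 1)) ^ 2 := by
    intro s
    unfold om
    split_ifs with h
    · rw [min_eq_left h.2, max_eq_right h.1]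
    · rcases lt_or_ge s 0 with h1 | h1
      · rw [min_eq_left (by linarith), max_eq_left h1.le]; ring
      · have h2 : 1 < s := by
          by_contra h3
          exact h ⟨h1, not_lt.1 h3⟩
        rw [min_eq_right h2.le, max_eq_right zero_le_one]; ring
  rw [key s, key t]
  have hb : ∀ s : ℝ, 0 ≤ max 0 (min s 1) ∧ max 0 (min s 1) ≤ 1 := fun s =>
    ⟨le_max_left _ _, max_le zero_le_one (min_le_right _ _)⟩
  refine (om_lip01 (hb s).1 (hb s).2 (hb t).1 (hb t).2).trans ?_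
  calc |max 0 (min s 1) - max 0 (min t 1)| ≤ max |(0 : ℝ) - 0| |min s 1 - min t 1| :=
        abs_max_sub_max_le_max _ _ _ _
    _ ≤ |s - t| := by
        refine max_le (by simp) ?_
        refine (abs_min_sub_min_le_max _ _ _ _).trans (max_le le_rfl (by simp))

theorem om_eq_zero {t : ℝ} (h : 1 ≤ t) : om t = 0 := by
  unfold om
  split_ifs with h1
  · have : t = 1 := le_antisymm h1.2 h
    rw [this]; norm_num
  · rfl

private theorem normSq_add (b t : ℝ) : ‖(b : ℂ) + t * Complex.I‖ ^ 2 = b ^ 2 + t ^ 2 := by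
  rw [← Complex.normSq_eq_norm_sq, Complex.normSq_add_mul_I]

private theorem KK_eq (β t : ℝ) : KK β t = 2 / ((((β + 1 : ℝ) : ℂ) + t * Complex.I) *
    (((β + 2 : ℝ) : ℂ) + t * Complex.I) * (((β + 3 : ℝ) : ℂ) + t * Complex.I)) := by
  unfold KK; push_cast; rfl

private theorem norm_KK (β t : ℝ) : ‖KK β t‖ = 2 / (‖((β + 1 : ℝ) : ℂ) + t * Complex.I‖ *
    ‖((β + 2 : ℝ) : ℂ) + t * Complex.I‖ * ‖((β + 3 : ℝ) : ℂ) + t * Complex.I‖) := by
  rw [KK_eq, norm_div, norm_mul, norm_mul, RCLike.norm_ofNat]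

theorem norm_KK_le (β t : ℝ) (hβ : 0 ≤ β) : ‖KK β t‖ ≤ 0.4386 / (1 + t ^ 2) := by
  rw [norm_KK]
  set a := ‖((β + 1 : ℝ) : ℂ) + t * Complex.I‖ with ha
  set b := ‖((β + 2 : ℝ) : ℂ) + t * Complex.I‖ with hb
  set c := ‖((β + 3 : ℝ) : ℂ) + t * Complex.I‖ with hc
  have ha2 : 1 + t ^ 2 ≤ a ^ 2 := by rw [ha, normSq_add]; nlinarith
  have hb2 : 4 + t ^ 2 ≤ b ^ 2 := by rw [hb, normSq_add]; nlinarith
  have hc2 : 9 + t ^ 2 ≤ c ^ 2 := by rw [hc, normSq_add]; nlinarith
  have ha0 : 0 ≤ a := norm_nonneg _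
  have hb0 : 0 ≤ b := norm_nonneg _
  have hc0 : 0 ≤ c := norm_nonneg _
  have ht : 0 < 1 + t ^ 2 := by positivity
  have h1 : (2 / 0.4386 * (1 + t ^ 2)) ^ 2 ≤ (a * b * c) ^ 2 := by
    have h2 : (1 + t ^ 2) * (4 + t ^ 2) * (9 + t ^ 2) ≤ a ^ 2 * b ^ 2 * c ^ 2 := by
      gcongr
    have h3 : (2 / 0.4386 : ℝ) ^ 2 * (1 + t ^ 2) ≤ (4 + t ^ 2) * (9 + t ^ 2) := by
      have h4 : (2 / 0.4386 : ℝ) ^ 2 ≤ 20.7935 := by norm_num
      have h5 : 20.7935 * (1 + t ^ 2) ≤ (4 + t ^ 2) * (9 + t ^ 2) := by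
        nlinarith [sq_nonneg (t ^ 2 - 3.89675)]
      calc (2 / 0.4386 : ℝ) ^ 2 * (1 + t ^ 2) ≤ 20.7935 * (1 + t ^ 2) := by gcongr
        _ ≤ _ := h5
    calc (2 / 0.4386 * (1 + t ^ 2)) ^ 2 = (1 + t ^ 2) * ((2 / 0.4386 : ℝ) ^ 2 * (1 + t ^ 2)) := by
          ring
      _ ≤ (1 + t ^ 2) * ((4 + t ^ 2) * (9 + t ^ 2)) := by gcongr
      _ = (1 + t ^ 2) * (4 + t ^ 2) * (9 + t ^ 2) := by ring
      _ ≤ a ^ 2 * b ^ 2 * c ^ 2 := h2
      _ = (a * b * c) ^ 2 := by ring
  have h6 : 2 / 0.4386 * (1 + t ^ 2) ≤ a * b * c :=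
    le_of_sq_le_sq h1 (by positivity)
  have h7 : 0 < a * b * c := lt_of_lt_of_le (by positivity) h6
  rw [div_le_div_iff₀ h7 ht]
  have : (0.4386 : ℝ) * (2 / 0.4386 * (1 + t ^ 2)) = 2 * (1 + t ^ 2) := by ring
  nlinarith

theorem norm_KK_le' (β t : ℝ) (hβ : 0 ≤ β) (ht : t ≠ 0) : ‖KK β t‖ ≤ 2 / |t| ^ 3 := by
  rw [norm_KK]
  have key : ∀ b : ℝ, |t| ≤ ‖(b : ℂ) + t * Complex.I‖ := by
    intro b
    refine le_of_sq_le_sq ?_ (norm_nonneg _)
    rw [normSq_add, sq_abs]
    nlinarith [sq_nonneg b]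
  have ht0 : 0 < |t| := abs_pos.2 ht
  have h1 := key (β + 1)
  have h2 := key (β + 2)
  have h3 := key (β + 3)
  have : |t| ^ 3 ≤ ‖((β + 1 : ℝ) : ℂ) + t * Complex.I‖ * ‖((β + 2 : ℝ) : ℂ) + t * Complex.I‖ *
      ‖((β + 3 : ℝ) : ℂ) + t * Complex.I‖ := by
    calc |t| ^ 3 = |t| * |t| * |t| := by ring
      _ ≤ _ := by gcongr
  gcongr

private theorem ne_zero_of_pos {b : ℝ} (hb : 0 < b) (t : ℝ) : (b : ℂ) + t * Complex.I ≠ 0 := by
  intro h
  have := congrArg Complex.re h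
  simp at this
  exact hb.ne' this

theorem KK_continuous (β : ℝ) (hβ : 0 ≤ β) : Continuous (fun t : ℝ => KK β t) := by
  have e : (fun t : ℝ => KK β t) = fun t : ℝ => 2 / ((((β + 1 : ℝ) : ℂ) + t * Complex.I) *
    (((β + 2 : ℝ) : ℂ) + t * Complex.I) * (((β + 3 : ℝ) : ℂ) + t * Complex.I)) := by
    funext t; exact KK_eq β t
  rw [e]
  refine Continuous.div continuous_const (by fun_prop) fun t => ?_
  exact mul_ne_zero (mul_ne_zero (ne_zero_of_pos (by linarith) t) (ne_zero_of_pos (by linarith) t))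
    (ne_zero_of_pos (by linarith) t)

theorem KK_integrable (β : ℝ) (hβ : 0 ≤ β) : Integrable (fun t : ℝ => KK β t) := by
  refine Integrable.mono' (integrable_inv_one_add_sq.const_mul 0.4386)
    (KK_continuous β hβ).aestronglyMeasurable (Filter.Eventually.of_forall fun t => ?_)
  simpa [div_eq_mul_inv] using norm_KK_le β t hβ

private theorem om_continuous : Continuous om := by
  rw [Metric.continuous_iff]
  intro t ε hε
  refine ⟨ε, hε, fun s hs => ?_⟩
  rw [Real.dist_eq] at hs ⊢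
  exact (om_lip s t).trans_lt hs

private noncomputable def gg (β v : ℝ) : ℂ := ((Real.exp (-β * v) * om (Real.exp (-v)) : ℝ) : ℂ)

private theorem gg_continuous (β : ℝ) : Continuous (gg β) := by
  unfold gg
  refine Complex.continuous_ofReal.comp ?_
  exact (by fun_prop : Continuous fun v : ℝ => Real.exp (-β * v)).mul
    (om_continuous.comp (by fun_prop))

private theorem gg_of_nonpos (β : ℝ) {v : ℝ} (hv : v ≤ 0) : gg β v = 0 := by
  unfold gg
  rw [om_eq_zero (Real.one_le_exp (by linarith)), mul_zero, Complex.ofReal_zero]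

/-- the exponent -/
private noncomputable def aa (β w : ℝ) (j : ℝ) : ℂ := -(((β + j : ℝ) : ℂ) + (2 * Real.pi * w : ℝ) * Complex.I)

private theorem aa_re (β w j : ℝ) : (aa β w j).re = -(β + j) := by
  unfold aa; simp

private theorem gg_of_pos (β w : ℝ) {v : ℝ} (hv : 0 < v) :
    Complex.exp ((-2 * Real.pi * v * w : ℝ) * Complex.I) • gg β v =
      Complex.exp (aa β w 1 * v) - 2 * Complex.exp (aa β w 2 * v) + Complex.exp (aa β w 3 * v) := by
  have h1 : om (Real.exp (-v)) = Real.exp (-v) * (1 - Real.exp (-v)) ^ 2 := by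
    unfold om
    rw [if_pos ⟨(Real.exp_pos _).le, Real.exp_le_one_iff.2 (by linarith)⟩]
  unfold gg
  rw [h1, smul_eq_mul]
  have e : ∀ j : ℕ, Complex.exp (aa β w j * v) =
      Complex.exp ((-2 * Real.pi * v * w : ℝ) * Complex.I) *
        ((Real.exp (-β * v) * Real.exp (-v) ^ j : ℝ) : ℂ) := by
    intro j
    rw [← Real.exp_nat_mul, ← Real.exp_add, Complex.ofReal_exp, ← Complex.exp_add]
    congr 1
    unfold aa
    push_cast
    ring
  have e1 := e 1
  have e2 := e 2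
  have e3 := e 3
  push_cast at e1 e2 e3
  rw [e1, e2, e3]
  push_cast
  ring

private theorem intOn_aa (β w j : ℝ) (h : 0 < β + j) :
    IntegrableOn (fun v : ℝ => Complex.exp (aa β w j * v)) (Set.Ioi 0) :=
  integrableOn_exp_mul_complex_Ioi (by rw [aa_re]; linarith) 0

private theorem int_aa (β w j : ℝ) (h : 0 < β + j) :
    ∫ v : ℝ in Set.Ioi 0, Complex.exp (aa β w j * v) =
      1 / (((β + j : ℝ) : ℂ) + (2 * Real.pi * w : ℝ) * Complex.I) := by
  rw [integral_exp_mul_complex_Ioi (by rw [aa_re]; linarith) 0]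
  unfold aa
  rw [Complex.ofReal_zero, mul_zero, Complex.exp_zero, neg_div_neg_eq]

private theorem gg_integrable (β : ℝ) (hβ : 0 ≤ β) : Integrable (gg β) := by
  have h1 : gg β = (Set.Ioi (0 : ℝ)).indicator (gg β) := by
    funext v
    by_cases hv : v ∈ Set.Ioi (0 : ℝ)
    · rw [Set.indicator_of_mem hv]
    · rw [Set.indicator_of_notMem hv, gg_of_nonpos β (not_lt.1 hv)]
  rw [h1, integrable_indicator_iff measurableSet_Ioi]
  have h2 : IntegrableOn (fun v : ℝ => Complex.exp (aa β 0 1 * v) - 2 * Complex.exp (aa β 0 2 * v)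
      + Complex.exp (aa β 0 3 * v)) (Set.Ioi 0) :=
    ((intOn_aa β 0 1 (by linarith)).sub ((intOn_aa β 0 2 (by linarith)).const_mul 2)).add
      (intOn_aa β 0 3 (by linarith))
  refine h2.congr_fun (fun v hv => ?_) measurableSet_Ioi
  have := gg_of_pos β 0 hv
  simp only [mul_zero, Complex.ofReal_zero, zero_mul, Complex.exp_zero, one_smul] at this
  exact this.symm

private theorem gg_fourier (β : ℝ) (hβ : 0 ≤ β) (w : ℝ) :
    FourierTransform.fourier (gg β) w = KK β (2 * Real.pi * w) := by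
  rw [Real.fourier_real_eq_integral_exp_smul]
  have h1 : ∫ v : ℝ, Complex.exp ((-2 * Real.pi * v * w : ℝ) * Complex.I) • gg β v =
      ∫ v : ℝ in Set.Ioi 0, (Complex.exp (aa β w 1 * v) - 2 * Complex.exp (aa β w 2 * v) +
        Complex.exp (aa β w 3 * v)) := by
    rw [← setIntegral_eq_integral_of_forall_compl_eq_zero (s := Set.Ioi (0 : ℝ))
      (fun v hv => by rw [gg_of_nonpos β (not_lt.1 hv), smul_zero])]
    exact setIntegral_congr_fun measurableSet_Ioi fun v hv => gg_of_pos β w hv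
  rw [h1, integral_add, integral_sub, integral_const_mul, int_aa β w 1 (by linarith),
    int_aa β w 2 (by linarith), int_aa β w 3 (by linarith)]
  · rw [KK_eq]
    have n1 := ne_zero_of_pos (show 0 < β + 1 by linarith) (2 * Real.pi * w)
    have n2 := ne_zero_of_pos (show 0 < β + 2 by linarith) (2 * Real.pi * w)
    have n3 := ne_zero_of_pos (show 0 < β + 3 by linarith) (2 * Real.pi * w)
    push_cast at n1 n2 n3 ⊢
    field_simp
    ring
  · exact intOn_aa β w 1 (by linarith)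
  · exact (intOn_aa β w 2 (by linarith)).const_mul 2
  · exact (intOn_aa β w 1 (by linarith)).sub ((intOn_aa β w 2 (by linarith)).const_mul 2)
  · exact intOn_aa β w 3 (by linarith)

/-- The Fourier representation. -/
theorem om_fourier (β v : ℝ) (hβ : 0 ≤ β) :
    ((Real.exp (-β * v) * om (Real.exp (-v)) : ℝ) : ℂ)
      = (1 / (2 * Real.pi)) * ∫ t : ℝ, KK β t * Complex.exp (t * v * Complex.I) := by
  have hF : FourierTransform.fourier (gg β) = fun w => KK β (2 * Real.pi * w) := by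
    funext w; exact gg_fourier β hβ w
  have hint : Integrable (FourierTransform.fourier (gg β)) := by
    rw [hF]
    exact (KK_integrable β hβ).comp_mul_left' (by positivity)
  have hinv := congrFun ((gg_continuous β).fourierInv_fourier_eq (gg_integrable β hβ) hint) v
  rw [hF, Real.fourierInv_eq'] at hinv
  show gg β v = _
  rw [← hinv]
  have h1 := Measure.integral_comp_mul_left
    (fun t : ℝ => KK β t * Complex.exp (t * v * Complex.I)) (2 * Real.pi)
  have h2 : ∫ w : ℝ, Complex.exp ((2 * Real.pi * inner ℝ w v : ℝ) * Complex.I) •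
      KK β (2 * Real.pi * w) = ∫ w : ℝ, KK β (2 * Real.pi * w) *
        Complex.exp (((2 * Real.pi * w : ℝ) : ℂ) * v * Complex.I) := by
    refine integral_congr_ae (Filter.Eventually.of_forall fun w => ?_)
    simp only [smul_eq_mul]
    rw [mul_comm]
    congr 2
    simp only [RCLike.inner_apply, conj_trivial]
    push_cast
    ring
  rw [h2, h1, abs_of_pos (by positivity)]
  rw [Complex.real_smul]
  push_cast
  ring

/-- In terms of `N / n`. -/
theorem om_fourier' (β : ℝ) (hβ : 0 ≤ β) {N n : ℕ} (hN : 1 ≤ N) (hn : 1 ≤ n) :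
    ((om ((n : ℝ) / N) : ℝ) : ℂ)
      = (((N : ℝ) / n) ^ β : ℝ) * ((1 / (2 * Real.pi)) *
        ∫ t : ℝ, KK β t * ((N : ℂ) ^ (t * Complex.I) * (n : ℂ) ^ (-(t * Complex.I)))) := by
  have hN0 : (0 : ℝ) < N := by exact_mod_cast hN
  have hn0 : (0 : ℝ) < n := by exact_mod_cast hn
  set v : ℝ := Real.log (N / n) with hv
  have hexp : Real.exp (-v) = n / N := by
    rw [Real.exp_neg, hv, Real.exp_log (by positivity), inv_div]
  have hβv : Real.exp (-β * v) = (((N : ℝ) / n) ^ β)⁻¹ := by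
    rw [Real.rpow_def_of_pos (by positivity), ← Real.exp_neg]
    congr 1
    rw [← hv]; ring
  have h := om_fourier β v hβ
  rw [hexp, hβv] at h
  have hint : ∫ t : ℝ, KK β t * ((N : ℂ) ^ (t * Complex.I) * (n : ℂ) ^ (-(t * Complex.I))) =
      ∫ t : ℝ, KK β t * Complex.exp (t * v * Complex.I) := by
    refine integral_congr_ae (Filter.Eventually.of_forall fun t => ?_)
    simp only
    congr 1
    have hNc : (N : ℂ) ≠ 0 := by exact_mod_cast hN0.ne'
    have hnc : (n : ℂ) ≠ 0 := by exact_mod_cast hn0.ne'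
    rw [Complex.cpow_def_of_ne_zero hNc, Complex.cpow_def_of_ne_zero hnc, ← Complex.exp_add]
    congr 1
    rw [hv, Real.log_div hN0.ne' hn0.ne', Complex.natCast_log.symm, Complex.natCast_log.symm]
    push_cast
    ring
  rw [hint, ← h]
  have hpos : (0 : ℝ) < ((N : ℝ) / n) ^ β := by positivity
  rw [← Complex.ofReal_mul]
  congr 1
  field_simp

end Pool.Agent.H91.PK

end

section

/-!
# Smooth sums from Dirichlet series bounds

`om(n/N) = (1/2π) ∫ KK β t (N/n)^{β+it} dt` (`om_fourier'` in `PK/Om.lean`; holds for all `n ≥ 1`, both sides are `0`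
for `n > N`).  Take `β = 1 + 1/log N` for `N ≥ 3`, `β = 2` for `N = 2`; interchange sum and integral
(absolutely convergent): `∑ a_n om(n/N) = (1/2π) ∫ KK β t N^{β+it} LSeries a (β+it) dt`;
`N^β ≤ 4 N`, `‖KK β t‖ ≤ 2/(1+t²)^{3/2}`-type decay against `log(|t|+3)^K`.
-/

set_option autoImplicit false

namespace Pool.Agent.H91.EHA

open Finset
open Pool.Agent.H91.PK
open MeasureTheory

/-- decay of the kernel against a power of the logarithm -/
private theorem swG_kernel (K : ℕ) (β t : ℝ) (hβ : 0 ≤ β) :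
    ‖KK β t‖ * Real.log (|t| + 3) ^ K ≤
      1.7544 / (1 / (2 * ((K : ℝ) + 1))) ^ K * (1 + ‖t‖) ^ (-(3 / 2 : ℝ)) := by
  set ε : ℝ := 1 / (2 * ((K : ℝ) + 1)) with hε
  have hK : (0 : ℝ) ≤ K := Nat.cast_nonneg K
  have hε0 : 0 < ε := by positivity
  have hεK : ε * K ≤ 1 / 2 := by
    rw [hε, div_mul_eq_mul_div, one_mul, div_le_div_iff₀ (by positivity) (by norm_num)]
    nlinarith
  have ht : 0 ≤ |t| := abs_nonneg t
  rw [Real.norm_eq_abs]
  have hx1 : (0 : ℝ) < 1 + |t| := by positivity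
  have h1 : ‖KK β t‖ ≤ 0.8772 / (1 + |t|) ^ 2 := by
    refine (norm_KK_le β t hβ).trans ?_
    rw [div_le_div_iff₀ (by positivity) (by positivity)]
    have : t ^ 2 = |t| ^ 2 := (sq_abs t).symm
    rw [this]
    nlinarith [sq_nonneg (1 - |t|)]
  have h2 : Real.log (|t| + 3) ^ K ≤ 2 / ε ^ K * (1 + |t|) ^ (1 / 2 : ℝ) := by
    have h3 : Real.log (|t| + 3) ≤ (|t| + 3) ^ ε / ε :=
      Real.log_le_rpow_div (by positivity) hε0
    have h4 : 0 ≤ Real.log (|t| + 3) := Real.log_nonneg (by linarith)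
    have h5 : Real.log (|t| + 3) ^ K ≤ ((|t| + 3) ^ ε / ε) ^ K := pow_le_pow_left₀ h4 h3 K
    have h6 : ((|t| + 3) ^ ε / ε) ^ K = (|t| + 3) ^ (ε * K) / ε ^ K := by
      rw [div_pow, ← Real.rpow_natCast ((|t| + 3) ^ ε) K, ← Real.rpow_mul (by positivity)]
    have h7 : (|t| + 3) ^ (ε * K) ≤ (|t| + 3) ^ (1 / 2 : ℝ) :=
      Real.rpow_le_rpow_of_exponent_le (by linarith) hεK
    have h8 : (|t| + 3) ^ (1 / 2 : ℝ) ≤ 2 * (1 + |t|) ^ (1 / 2 : ℝ) := by
      have h9 : (2 : ℝ) * (1 + |t|) ^ (1 / 2 : ℝ) = (4 * (1 + |t|)) ^ (1 / 2 : ℝ) := by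
        rw [Real.mul_rpow (by norm_num) (by positivity)]
        congr 1
        rw [← Real.sqrt_eq_rpow, show (4 : ℝ) = 2 ^ 2 by norm_num, Real.sqrt_sq (by norm_num)]
      rw [h9]
      exact Real.rpow_le_rpow (by positivity) (by linarith) (by norm_num)
    calc Real.log (|t| + 3) ^ K ≤ (|t| + 3) ^ (ε * K) / ε ^ K := by rw [← h6]; exact h5
      _ ≤ (2 * (1 + |t|) ^ (1 / 2 : ℝ)) / ε ^ K := by
          gcongr
          exact h7.trans h8
      _ = 2 / ε ^ K * (1 + |t|) ^ (1 / 2 : ℝ) := by ring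
  have h10 : (1 + |t|) ^ (-(3 / 2 : ℝ)) = (1 + |t|) ^ (1 / 2 : ℝ) / (1 + |t|) ^ 2 := by
    rw [← Real.rpow_natCast (1 + |t|) 2, ← Real.rpow_sub hx1]
    norm_num
  calc ‖KK β t‖ * Real.log (|t| + 3) ^ K
      ≤ (0.8772 / (1 + |t|) ^ 2) * (2 / ε ^ K * (1 + |t|) ^ (1 / 2 : ℝ)) := by
        apply mul_le_mul h1 h2 _ (by positivity)
        exact pow_nonneg (Real.log_nonneg (by linarith)) K
    _ = 1.7544 / ε ^ K * (1 + |t|) ^ (-(3 / 2 : ℝ)) := by
        rw [h10]; ring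

/-- the summand -/
private noncomputable def swG_F (a : ℕ → ℂ) (β : ℝ) (N n : ℕ) (t : ℝ) : ℂ :=
  KK β t * ((N : ℂ) ^ (t * Complex.I) * LSeries.term a ((β : ℂ) + t * Complex.I) n)

private theorem swG_F_eq (a : ℕ → ℂ) (β : ℝ) (N n : ℕ) (hn : 1 ≤ n) (t : ℝ) :
    swG_F a β N n t = (a n / (n : ℂ) ^ (β : ℂ)) *
      (KK β t * ((N : ℂ) ^ (t * Complex.I) * (n : ℂ) ^ (-(t * Complex.I)))) := by
  unfold swG_F
  have hn0 : (n : ℂ) ≠ 0 := by exact_mod_cast (by omega : n ≠ 0)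
  rw [LSeries.term_of_ne_zero (by omega), Complex.cpow_add _ _ hn0, Complex.cpow_neg]
  have h1 : (n : ℂ) ^ (β : ℂ) ≠ 0 := by
    rw [Complex.cpow_def_of_ne_zero hn0]; exact Complex.exp_ne_zero _
  have h2 : (n : ℂ) ^ ((t : ℂ) * Complex.I) ≠ 0 := by
    rw [Complex.cpow_def_of_ne_zero hn0]; exact Complex.exp_ne_zero _
  field_simp

private theorem swG_norm_F (a : ℕ → ℂ) (β : ℝ) (N n : ℕ) (hN : 1 ≤ N) (t : ℝ) :
    ‖swG_F a β N n t‖ = ‖LSeries.term a (β : ℂ) n‖ * ‖KK β t‖ := by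
  unfold swG_F
  rw [norm_mul, norm_mul, Complex.norm_natCast_cpow_of_pos (by omega)]
  have h1 : ((t : ℂ) * Complex.I).re = 0 := by simp
  have h2 : ‖LSeries.term a ((β : ℂ) + t * Complex.I) n‖ = ‖LSeries.term a (β : ℂ) n‖ := by
    rw [LSeries.norm_term_eq, LSeries.norm_term_eq]
    simp
  rw [h1, Real.rpow_zero, one_mul, h2, mul_comm]

private theorem swG_F_cont (a : ℕ → ℂ) (β : ℝ) (hβ : 0 ≤ β) (N n : ℕ) (hN : 1 ≤ N) :
    Continuous (swG_F a β N n) := by
  rcases Nat.eq_zero_or_pos n with rfl | hn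
  · have : swG_F a β N 0 = fun _ => 0 := by
      funext t; unfold swG_F; rw [LSeries.term_zero, mul_zero, mul_zero]
    rw [this]; exact continuous_const
  · have : swG_F a β N n = fun t : ℝ => (a n / (n : ℂ) ^ (β : ℂ)) *
      (KK β t * ((N : ℂ) ^ (t * Complex.I) * (n : ℂ) ^ (-(t * Complex.I)))) := by
      funext t; exact swG_F_eq a β N n hn t
    rw [this]
    have hn0 : (n : ℂ) ≠ 0 := by exact_mod_cast (by omega : n ≠ 0)
    have hN0 : (N : ℂ) ≠ 0 := by exact_mod_cast (by omega : N ≠ 0)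
    refine continuous_const.mul ((KK_continuous β hβ).mul (Continuous.mul ?_ ?_))
    · exact Continuous.const_cpow (by fun_prop) (Or.inl hN0)
    · exact Continuous.const_cpow (by fun_prop) (Or.inl hn0)

private theorem swG_F_int (a : ℕ → ℂ) (β : ℝ) (hβ : 0 ≤ β) (N n : ℕ) (hN : 1 ≤ N) :
    Integrable (swG_F a β N n) := by
  refine Integrable.mono' ((KK_integrable β hβ).norm.const_mul ‖LSeries.term a (β : ℂ) n‖)
    (swG_F_cont a β hβ N n hN).aestronglyMeasurable (Filter.Eventually.of_forall fun t => ?_)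
  rw [swG_norm_F a β N n hN t]

private theorem swG_identity (a : ℕ → ℂ) (β : ℝ) (hβ : 0 ≤ β) (N : ℕ) (hN : 1 ≤ N)
    (hs : LSeriesSummable a (β : ℂ)) :
    ∑ n ∈ Icc 1 N, a n * ((om ((n : ℝ) / N) : ℝ) : ℂ) =
      (((N : ℝ) ^ β : ℝ) : ℂ) * (1 / (2 * Real.pi)) *
        ∫ t : ℝ, KK β t * ((N : ℂ) ^ (t * Complex.I) * LSeries a ((β : ℂ) + t * Complex.I)) := by
  have hN0 : (0 : ℝ) < N := by exact_mod_cast hN
  have h1 : HasSum (fun n => ∫ t, swG_F a β N n t) (∫ t, ∑' n, swG_F a β N n t) := by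
    apply hasSum_integral_of_summable_integral_norm (swG_F_int a β hβ N · hN)
    have h2 : (fun n => ∫ t, ‖swG_F a β N n t‖) =
        fun n => ‖LSeries.term a (β : ℂ) n‖ * ∫ t, ‖KK β t‖ := by
      funext n
      simp only [swG_norm_F a β N n hN]
      rw [integral_const_mul]
    rw [h2]
    exact (Summable.norm hs).mul_right _
  have h3 : ∀ t : ℝ, ∑' n, swG_F a β N n t =
      KK β t * ((N : ℂ) ^ (t * Complex.I) * LSeries a ((β : ℂ) + t * Complex.I)) := by
    intro t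
    unfold swG_F LSeries
    rw [tsum_mul_left, tsum_mul_left]
  simp only [h3] at h1
  have h4 := h1.mul_left ((((N : ℝ) ^ β : ℝ) : ℂ) * (1 / (2 * Real.pi)))
  have hval : ∀ n : ℕ, 1 ≤ n → (((N : ℝ) ^ β : ℝ) : ℂ) * (1 / (2 * Real.pi)) *
      (∫ t, swG_F a β N n t) = a n * ((om ((n : ℝ) / N) : ℝ) : ℂ) := by
    intro n hn
    have hn0 : (0 : ℝ) < n := by exact_mod_cast hn
    have e1 : ∫ t, swG_F a β N n t = (a n / (n : ℂ) ^ (β : ℂ)) *
        ∫ t : ℝ, KK β t * ((N : ℂ) ^ (t * Complex.I) * (n : ℂ) ^ (-(t * Complex.I))) := by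
      simp only [swG_F_eq a β N n hn]
      rw [integral_const_mul]
    rw [e1, om_fourier' β hβ hN hn, Real.div_rpow hN0.le hn0.le]
    have e2 : (n : ℂ) ^ (β : ℂ) = (((n : ℝ) ^ β : ℝ) : ℂ) := by
      rw [Complex.ofReal_cpow hn0.le]; simp
    rw [e2]
    push_cast
    ring
  have h5 : HasSum (fun n => (((N : ℝ) ^ β : ℝ) : ℂ) * (1 / (2 * Real.pi)) *
      (∫ t, swG_F a β N n t)) (∑ n ∈ Icc 1 N, (((N : ℝ) ^ β : ℝ) : ℂ) * (1 / (2 * Real.pi)) *
      (∫ t, swG_F a β N n t)) := by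
    apply hasSum_sum_of_ne_finset_zero
    intro n hn
    rcases Nat.eq_zero_or_pos n with rfl | hn1
    · have : ∀ t, swG_F a β N 0 t = 0 := by
        intro t; unfold swG_F; rw [LSeries.term_zero, mul_zero, mul_zero]
      simp only [this, integral_zero, mul_zero]
    · rw [hval n hn1]
      have hnN : N < n := by
        by_contra h
        exact hn (Finset.mem_Icc.2 ⟨hn1, not_lt.1 h⟩)
      rw [om_eq_zero, Complex.ofReal_zero, mul_zero]
      rw [le_div_iff₀ hN0, one_mul]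
      exact_mod_cast hnN.le
  rw [← h5.unique h4]
  apply Finset.sum_congr rfl
  intro n hn
  rw [hval n (Finset.mem_Icc.1 hn).1]

theorem smooth_gen (K : ℕ) : ∃ C : ℝ, 0 < C ∧ ∀ (a : ℕ → ℂ) (B : ℝ), 0 ≤ B →
    (∀ s : ℂ, 1 < s.re → s.re ≤ 2 → LSeriesSummable a s ∧
      ‖LSeries a s‖ ≤ B * Real.log (|s.im| + 3) ^ K) →
    ∀ N : ℕ, 2 ≤ N → ‖∑ n ∈ Icc 1 N, a n * ((om ((n : ℝ) / N) : ℝ) : ℂ)‖ ≤ C * B * N := by
  set C0 : ℝ := 1.7544 / (1 / (2 * ((K : ℝ) + 1))) ^ K with hC0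
  have hC0pos : 0 < C0 := by positivity
  set I0 : ℝ := ∫ t : ℝ, (1 + ‖t‖) ^ (-(3 / 2 : ℝ)) with hI0
  have hI0nn : 0 ≤ I0 := integral_nonneg (fun t => by positivity)
  have hint : Integrable (fun t : ℝ => (1 + ‖t‖) ^ (-(3 / 2 : ℝ))) :=
    integrable_one_add_norm (by simp; norm_num)
  refine ⟨C0 * I0 + 1, by positivity, ?_⟩
  intro a B hB h N hN
  have hN0 : (0 : ℝ) < N := by exact_mod_cast (by omega : 0 < N)
  have hlog : 0 < Real.log N := Real.log_pos (by exact_mod_cast (by omega : 1 < N))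
  set β : ℝ := 1 + 1 / (1 + Real.log N) with hβ
  have hβ1 : 1 < β := by rw [hβ]; have : 0 < 1 / (1 + Real.log N) := by positivity
                         linarith
  have hβ2 : β ≤ 2 := by
    have : 1 / (1 + Real.log N) ≤ 1 := by
      rw [div_le_one (by positivity)]; linarith
    linarith
  have hs : LSeriesSummable a (β : ℂ) := (h (β : ℂ) (by simpa using hβ1) (by simpa using hβ2)).1
  rw [swG_identity a β (by linarith) N (by omega) hs]
  have hpow : (N : ℝ) ^ β ≤ Real.exp 1 * N := by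
    rw [hβ, Real.rpow_add hN0, Real.rpow_one, mul_comm]
    gcongr
    rw [Real.rpow_def_of_pos hN0, Real.exp_le_exp, mul_one_div, div_le_one (by positivity)]
    linarith
  have hbound : ‖∫ t : ℝ, KK β t * ((N : ℂ) ^ (t * Complex.I) *
      LSeries a ((β : ℂ) + t * Complex.I))‖ ≤ ∫ t : ℝ, B * (C0 * (1 + ‖t‖) ^ (-(3 / 2 : ℝ))) := by
    apply norm_integral_le_of_norm_le ((hint.const_mul C0).const_mul B)
    refine Filter.Eventually.of_forall fun t => ?_
    rw [norm_mul, norm_mul, Complex.norm_natCast_cpow_of_pos (by omega)]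
    have h1 : ((t : ℂ) * Complex.I).re = 0 := by simp
    have h2 := (h ((β : ℂ) + t * Complex.I) (by simpa using hβ1) (by simpa using hβ2)).2
    have h3 : ((β : ℂ) + t * Complex.I).im = t := by simp
    rw [h3] at h2
    rw [h1, Real.rpow_zero, one_mul]
    have h4 := swG_kernel K β t (by linarith)
    calc ‖KK β t‖ * ‖LSeries a ((β : ℂ) + t * Complex.I)‖
        ≤ ‖KK β t‖ * (B * Real.log (|t| + 3) ^ K) := by gcongr
      _ = B * (‖KK β t‖ * Real.log (|t| + 3) ^ K) := by ring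
      _ ≤ B * (C0 * (1 + ‖t‖) ^ (-(3 / 2 : ℝ))) := by
          apply mul_le_mul_of_nonneg_left h4 hB
  rw [integral_const_mul, integral_const_mul, ← hI0] at hbound
  have hpi : Real.exp 1 * (1 / (2 * Real.pi)) ≤ 1 := by
    have h1 := Real.exp_one_lt_d9
    have h2 := Real.pi_gt_three
    rw [mul_one_div, div_le_one (by positivity)]
    linarith
  rw [norm_mul, norm_mul]
  have e1 : ‖(((N : ℝ) ^ β : ℝ) : ℂ)‖ = (N : ℝ) ^ β := by
    rw [Complex.norm_real, Real.norm_of_nonneg (by positivity)]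
  have e2 : ‖(1 / (2 * Real.pi) : ℂ)‖ = 1 / (2 * Real.pi) := by
    have : (1 / (2 * Real.pi) : ℂ) = ((1 / (2 * Real.pi) : ℝ) : ℂ) := by push_cast; rfl
    rw [this, Complex.norm_real, Real.norm_of_nonneg (by positivity)]
  rw [e1, e2]
  have hpi0 : 0 < 1 / (2 * Real.pi) := by positivity
  calc (N : ℝ) ^ β * (1 / (2 * Real.pi)) * ‖∫ t : ℝ, KK β t * ((N : ℂ) ^ (t * Complex.I) *
        LSeries a ((β : ℂ) + t * Complex.I))‖
      ≤ (Real.exp 1 * N) * (1 / (2 * Real.pi)) * (B * (C0 * I0)) := by gcongr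
    _ = (Real.exp 1 * (1 / (2 * Real.pi))) * (C0 * I0 * B * N) := by ring
    _ ≤ 1 * (C0 * I0 * B * N) := by
        apply mul_le_mul_of_nonneg_right hpi (by positivity)
    _ ≤ (C0 * I0 + 1) * B * N := by
        have : 0 ≤ B * N := by positivity
        nlinarith

end Pool.Agent.H91.EHA

end

section

/-!
PK DiA: Λ in one residue class through primitive characters.

Let L = log N, N ≥ 3, 1 ≤ d ≤ N, (N,d) = 1,
  A(d) = ∑_{n ≤ N, d | N - n} Λ(n) W(n),   MW = ∑_{n ≤ N} Λ(n) W(n).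
Then |A(d) - MW/φ(d)| ≤ L² + (1/φ(d)) ∑_{χ mod d, χ ≠ 1} |TT N k χ*|, χ* = the primitive character inducing χ.

Proof.  d | N-n with (N,d)=1 forces (n,d)=1 and n ≡ N; by `DirichletCharacter.sum_char_inv_mul_char_eq`
  A(d) = (1/φ(d)) ∑_χ χ(N)⁻¹ TT N k χ  (|χ(N)⁻¹| ≤ 1).  For χ = 1: TT N k 1 = MW - ∑_{(n,d)>1} Λ(n)W(n).
For every χ: TT N k χ = TT N k χ* - ∑_{(n,d)>1} Λ(n) χ*(n) W(n) (χ(n) = χ*(n) for (n,d)=1:
`DirichletCharacter.primitiveCharacter_apply_of_isCoprime`, and χ(n) = 0 otherwise).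
Error: ∑_{n ≤ N, (n,d)>1} Λ(n) W(n) ≤ (4/27) ∑_{q | d} ∑_{j : q^j ≤ N} log q ≤ (4/27) ω(d) L ≤ (4/27)(1.45) L²  ≤ 0.22 L²
 (0 ≤ W ≤ 4/27 as log n/log N ≤ 1; 2^ω(d) ≤ d ≤ N).  Two such errors.
-/

set_option autoImplicit false

namespace Pool.Agent.H91.PK

open Finset

theorem DiA_omega_le {d : ℕ} (hd : 1 ≤ d) : (d.primeFactors.card : ℝ) * Real.log 2 ≤ Real.log d := by
  have h1 : 2 ^ d.primeFactors.card ≤ d := by
    calc 2 ^ d.primeFactors.card ≤ ∏ p ∈ d.primeFactors, p :=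
          Finset.pow_card_le_prod _ _ _ (fun p hp => (Nat.prime_of_mem_primeFactors hp).two_le)
      _ ≤ d := Nat.le_of_dvd hd (Nat.prod_primeFactors_dvd d)
  have h2 : ((2 : ℝ) ^ d.primeFactors.card) ≤ d := by exact_mod_cast h1
  have h3 := Real.log_le_log (by positivity) h2
  rwa [Real.log_pow] at h3

theorem DiA_psi_noncoprime {N d : ℕ} (hN : 1 ≤ N) (hd : 1 ≤ d) :
    ∑ n ∈ (Icc 1 N).filter (fun n => ¬ Nat.Coprime n d), ArithmeticFunction.vonMangoldt n
      ≤ (d.primeFactors.card : ℝ) * Real.log N := by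
  classical
  have key : ∀ n ∈ (Icc 1 N).filter (fun n => ¬ Nat.Coprime n d),
      ArithmeticFunction.vonMangoldt n ≤ ∑ q ∈ d.primeFactors,
        (if n ∈ (Icc 1 (Nat.log q N)).image (fun j => q ^ j) then
          ArithmeticFunction.vonMangoldt n else 0) := by
    intro n hn
    rw [mem_filter, mem_Icc] at hn
    have hnn : ∀ q ∈ d.primeFactors,
        0 ≤ (if n ∈ (Icc 1 (Nat.log q N)).image (fun j => q ^ j) then
          ArithmeticFunction.vonMangoldt n else 0) := by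
      intro q _
      split_ifs
      · exact ArithmeticFunction.vonMangoldt_nonneg
      · exact le_rfl
    by_cases hp : IsPrimePow n
    · obtain ⟨p, j, hp1, hj, rfl⟩ := hp
      have hpp : p.Prime := Nat.prime_iff.mpr hp1
      have hpd : p ∣ d := by
        by_contra hcon
        exact hn.2 (Nat.Coprime.pow_left _ ((Nat.Prime.coprime_iff_not_dvd hpp).mpr hcon))
      have hmem : p ∈ d.primeFactors := Nat.mem_primeFactors.mpr ⟨hpp, hpd, by omega⟩
      refine le_trans ?_ (single_le_sum hnn hmem)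
      rw [if_pos]
      refine mem_image.mpr ⟨j, ?_, rfl⟩
      rw [mem_Icc]
      exact ⟨hj, (Nat.le_log_iff_pow_le hpp.one_lt (by omega)).mpr hn.1.2⟩
    · rw [ArithmeticFunction.vonMangoldt_eq_zero_iff.mpr hp]
      simp
  calc ∑ n ∈ (Icc 1 N).filter (fun n => ¬ Nat.Coprime n d), ArithmeticFunction.vonMangoldt n
      ≤ ∑ n ∈ (Icc 1 N).filter (fun n => ¬ Nat.Coprime n d), ∑ q ∈ d.primeFactors,
        (if n ∈ (Icc 1 (Nat.log q N)).image (fun j => q ^ j) then
          ArithmeticFunction.vonMangoldt n else 0) := sum_le_sum key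
    _ = ∑ q ∈ d.primeFactors, ∑ n ∈ (Icc 1 N).filter (fun n => ¬ Nat.Coprime n d),
        (if n ∈ (Icc 1 (Nat.log q N)).image (fun j => q ^ j) then
          ArithmeticFunction.vonMangoldt n else 0) := sum_comm
    _ ≤ ∑ q ∈ d.primeFactors, Real.log N := by
        refine sum_le_sum fun q hq => ?_
        have hqp := Nat.prime_of_mem_primeFactors hq
        rw [← sum_filter]
        calc ∑ n ∈ ((Icc 1 N).filter (fun n => ¬ Nat.Coprime n d)).filter
              (fun n => n ∈ (Icc 1 (Nat.log q N)).image (fun j => q ^ j)),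
              ArithmeticFunction.vonMangoldt n
            ≤ ∑ n ∈ (Icc 1 (Nat.log q N)).image (fun j => q ^ j),
              ArithmeticFunction.vonMangoldt n := by
              refine sum_le_sum_of_subset_of_nonneg ?_
                (fun _ _ _ => ArithmeticFunction.vonMangoldt_nonneg)
              intro n hn
              exact (mem_filter.mp hn).2
          _ = ∑ j ∈ Icc 1 (Nat.log q N), ArithmeticFunction.vonMangoldt (q ^ j) := by
              refine sum_image ?_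
              intro a _ b _ hab
              exact Nat.pow_right_injective hqp.two_le hab
          _ = ∑ j ∈ Icc 1 (Nat.log q N), Real.log q := by
              refine sum_congr rfl fun j hj => ?_
              rw [mem_Icc] at hj
              rw [ArithmeticFunction.vonMangoldt_apply_pow (by omega),
                ArithmeticFunction.vonMangoldt_apply_prime hqp]
          _ = (Nat.log q N : ℝ) * Real.log q := by
              rw [sum_const, Nat.card_Icc, nsmul_eq_mul]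
              norm_num
          _ ≤ Real.log N := by
              rw [← Real.log_pow]
              refine Real.log_le_log ?_ ?_
              · have : (0 : ℝ) < q := by exact_mod_cast hqp.pos
                positivity
              · exact_mod_cast Nat.pow_log_le_self q (by omega)
    _ = (d.primeFactors.card : ℝ) * Real.log N := by
        rw [sum_const, nsmul_eq_mul]

theorem DiA_norm_char_le {m : ℕ} (χ : DirichletCharacter ℂ m) (a : ZMod m) : ‖χ a‖ ≤ 1 :=
  χ.norm_le_one a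

/-- values of the primitive character -/
theorem DiA_prim_eq {d n : ℕ} (χ : DirichletCharacter ℂ d) (h : Nat.Coprime n d) :
    χ.primitiveCharacter (n : ZMod χ.conductor) = χ (n : ZMod d) := by
  have h1 : IsCoprime (n : ℤ) (d : ℤ) := Nat.isCoprime_iff_coprime.mpr h
  have h2 := DirichletCharacter.primitiveCharacter_apply_of_isCoprime χ h1
  simpa using h2

theorem DiA_char_zero {d n : ℕ} (χ : DirichletCharacter ℂ d) (h : ¬ Nat.Coprime n d) :
    χ (n : ZMod d) = 0 := by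
  refine χ.map_nonunit ?_
  intro hu
  exact h ((ZMod.isUnit_iff_coprime n d).mp hu)

end Pool.Agent.H91.PK

end

section

/-!
The additive character `e t = exp (2 π i t)` and elementary estimates.
-/

set_option autoImplicit false

namespace Pool.Agent.H92.EH

open Finset

/-- `e t = exp (2 π i t)`. -/
noncomputable def e (t : ℝ) : ℂ := Complex.exp (Complex.I * ((2 * Real.pi * t : ℝ) : ℂ))

theorem e_zero : e 0 = 1 := by simp [e]

theorem e_add (s t : ℝ) : e (s + t) = e s * e t := by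
  unfold e
  rw [← Complex.exp_add]
  congr 1
  push_cast
  ring

theorem norm_e (t : ℝ) : ‖e t‖ = 1 := Complex.norm_exp_I_mul_ofReal _

theorem e_int (n : ℤ) : e n = 1 := by
  unfold e
  rw [Complex.exp_eq_one_iff]
  exact ⟨n, by push_cast; ring⟩

theorem e_nat (n : ℕ) : e n = 1 := by
  have := e_int n
  simpa using this

theorem e_add_int (t : ℝ) (n : ℤ) : e (t + n) = e t := by
  rw [e_add, e_int, mul_one]

theorem e_sub_int (t : ℝ) (n : ℤ) : e (t - n) = e t := by
  have := e_add_int t (-n)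
  push_cast at this
  rw [← sub_eq_add_neg] at this
  exact this

theorem e_neg (t : ℝ) : e (-t) = (starRingEnd ℂ) (e t) := by
  unfold e
  rw [← Complex.exp_conj, map_mul, Complex.conj_I, Complex.conj_ofReal]
  congr 1
  push_cast
  ring

theorem e_mul_conj (s t : ℝ) : e s * (starRingEnd ℂ) (e t) = e (s - t) := by
  rw [← e_neg, ← e_add, sub_eq_add_neg]

theorem e_nat_mul (n : ℕ) (t : ℝ) : e (n * t) = e t ^ n := by
  unfold e
  rw [← Complex.exp_nat_mul]
  congr 1
  push_cast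
  ring

/-- Lower bound for `|e t - 1|` when `|t| ≤ 1/2`. -/
theorem le_norm_e_sub_one_of_abs_le {t : ℝ} (ht : |t| ≤ 1 / 2) : 4 * |t| ≤ ‖e t - 1‖ := by
  unfold e
  rw [Complex.norm_exp_I_mul_ofReal_sub_one]
  have h1 : 2 * Real.pi * t / 2 = Real.pi * t := by ring
  rw [h1]
  have h2 : 2 / Real.pi * |Real.pi * t| ≤ |Real.sin (Real.pi * t)| := by
    apply Real.mul_abs_le_abs_sin
    rw [abs_mul, abs_of_pos Real.pi_pos]
    have := Real.pi_pos
    nlinarith
  rw [abs_mul, abs_of_pos Real.pi_pos] at h2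
  have h3 : 2 / Real.pi * (Real.pi * |t|) = 2 * |t| := by
    field_simp
  rw [h3] at h2
  simp only [norm_mul, Real.norm_eq_abs]
  rw [abs_of_pos (by norm_num : (0:ℝ) < 2)]
  linarith

/-- If `|t - m| ≥ δ` for all integers `m` then `|e t - 1| ≥ 4 δ`. -/
theorem le_norm_e_sub_one {t δ : ℝ} (h : ∀ m : ℤ, δ ≤ |t - m|) : 4 * δ ≤ ‖e t - 1‖ := by
  have h1 := h (round t)
  have h2 : |t - round t| ≤ 1 / 2 := abs_sub_round t
  have h3 := le_norm_e_sub_one_of_abs_le h2
  rw [e_sub_int] at h3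
  linarith

end Pool.Agent.H92.EH

end

section

/-!
Farey fractions are well spaced, and the resulting mean value estimate for exponential sums
over primes.
-/

set_option autoImplicit false

namespace Pool.Agent.H92.EH

open Finset

/-- Reduced residues modulo `r`, as natural numbers less than `r`. -/
def red (r : ℕ) : Finset ℕ := (range r).filter (fun b => Nat.Coprime b r)

theorem mem_red {r b : ℕ} : b ∈ red r ↔ b < r ∧ Nat.Coprime b r := by
  simp [red]

theorem card_red (r : ℕ) : (red r).card = Nat.totient r := by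
  unfold red
  rw [Nat.totient_eq_card_coprime]
  congr 1
  ext b
  simp [Nat.coprime_comm]

theorem farey_spacing {r r' b b' : ℕ} (hr : 0 < r) (hr' : 0 < r') (hb : b ∈ red r)
    (hb' : b' ∈ red r') (hne : ¬ (r = r' ∧ b = b')) (m : ℤ) :
    (1 : ℝ) / (r * r') ≤ |(b : ℝ) / r - (b' : ℝ) / r' - m| := by
  have hr0 : (0 : ℝ) < r := by exact_mod_cast hr
  have hr0' : (0 : ℝ) < r' := by exact_mod_cast hr'
  rw [mem_red] at hb hb'
  set N : ℤ := (b : ℤ) * r' - b' * r - m * (r * r') with hN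
  have h1 : (b : ℝ) / r - (b' : ℝ) / r' - m = (N : ℝ) / (r * r') := by
    rw [hN]
    push_cast
    field_simp
  have hN0 : N ≠ 0 := by
    intro h0
    apply hne
    have h2 : (b : ℤ) * r' = r * (b' + m * r') := by rw [hN] at h0; linarith
    have h3 : (b' : ℤ) * r = r' * (b - m * r) := by rw [hN] at h0; linarith
    have d1 : (r : ℤ) ∣ b * r' := ⟨_, h2⟩
    have d2 : (r' : ℤ) ∣ b' * r := ⟨_, h3⟩
    have d1' : r ∣ b * r' := by exact_mod_cast d1
    have d2' : r' ∣ b' * r := by exact_mod_cast d2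
    have e1 : r ∣ r' := (Nat.Coprime.dvd_of_dvd_mul_left (Nat.coprime_comm.mp hb.2) d1')
    have e2 : r' ∣ r := (Nat.Coprime.dvd_of_dvd_mul_left (Nat.coprime_comm.mp hb'.2) d2')
    have e3 : r = r' := Nat.dvd_antisymm e1 e2
    refine ⟨e3, ?_⟩
    subst e3
    have h4 : (r : ℤ) * b = r * (b' + m * r) := by linarith
    have hrz : (r : ℤ) ≠ 0 := by exact_mod_cast hr.ne'
    have h5 : (b : ℤ) = b' + m * r := mul_left_cancel₀ hrz h4
    have h6 : (b : ℤ) < r := by exact_mod_cast hb.1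
    have h7 : (b' : ℤ) < r := by exact_mod_cast hb'.1
    have h8 : (0 : ℤ) ≤ b := by positivity
    have h9 : (0 : ℤ) ≤ b' := by positivity
    have h10 : m = 0 := by
      by_contra hm
      rcases lt_or_gt_of_ne hm with hm | hm
      · have : m * r ≤ -1 * r := mul_le_mul_of_nonneg_right (by omega) (by positivity)
        linarith
      · have : 1 * (r : ℤ) ≤ m * r := mul_le_mul_of_nonneg_right (by omega) (by positivity)
        linarith
    rw [h10] at h5
    simp at h5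
    exact h5
  rw [h1, abs_div, abs_of_pos (by positivity : (0 : ℝ) < r * r')]
  apply div_le_div_of_nonneg_right _ (by positivity)
  have : (1 : ℤ) ≤ |N| := Int.one_le_abs hN0
  exact_mod_cast this

end Pool.Agent.H92.EH

end

section

/-!
Complete exponential sums and Ramanujan sums.
-/

set_option autoImplicit false

namespace Pool.Agent.H92.EH

open Finset

/-- Complete sums of additive characters. -/
theorem sum_complete (n : ℕ) (hn : 0 < n) (m : ℤ) :
    ∑ b ∈ range n, e (m * ((b : ℝ) / n)) = if (n : ℤ) ∣ m then (n : ℂ) else 0 := by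
  have hn0 : (n : ℝ) ≠ 0 := by exact_mod_cast hn.ne'
  have h1 : ∀ b : ℕ, e (m * ((b : ℝ) / n)) = e ((m : ℝ) / n) ^ b := by
    intro b
    rw [← e_nat_mul]
    congr 1
    ring
  simp_rw [h1]
  split_ifs with h
  · obtain ⟨k, rfl⟩ := h
    have : ((n : ℤ) * k : ℤ) / (n : ℝ) = (k : ℝ) := by
      push_cast
      field_simp
    rw [this, e_int]
    simp
  · have hne : e ((m : ℝ) / n) ≠ 1 := by
      intro he
      apply h
      unfold e at he
      rw [Complex.exp_eq_one_iff] at he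
      obtain ⟨k, hk⟩ := he
      refine ⟨k, ?_⟩
      have hpi : (Real.pi : ℂ) ≠ 0 := by exact_mod_cast Real.pi_ne_zero
      have hI := Complex.I_ne_zero
      have hn0' : (n : ℂ) ≠ 0 := by exact_mod_cast hn.ne'
      push_cast at hk
      have h2 : (2 * Real.pi * Complex.I : ℂ) * (m / n) = (2 * Real.pi * Complex.I) * k := by
        linear_combination hk
      have h3 : ((m : ℂ) / n) = k := by
        apply mul_left_cancel₀ _ h2
        simp [hpi, hI]
      rw [div_eq_iff hn0'] at h3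
      have h4 : (m : ℂ) = ((n : ℤ) * k : ℤ) := by
        rw [h3]
        push_cast
        ring
      exact_mod_cast h4
    have h5 : (∑ b ∈ range n, e ((m : ℝ) / n) ^ b) * (e ((m : ℝ) / n) - 1) = 0 := by
      rw [geom_sum_mul, ← e_nat_mul]
      have : (n : ℝ) * ((m : ℝ) / n) = m := by field_simp
      rw [this, e_int, sub_self]
    rcases mul_eq_zero.mp h5 with h6 | h6
    · exact h6
    · exact absurd (sub_eq_zero.mp h6) hne

/-- The Ramanujan sum `c_r(m)`. -/
noncomputable def ram (r : ℕ) (m : ℤ) : ℂ := ∑ b ∈ red r, e (m * ((b : ℝ) / r))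

theorem sum_ram_divisors (n : ℕ) (hn : 0 < n) (m : ℤ) :
    ∑ d ∈ n.divisors, ram d m = if (n : ℤ) ∣ m then (n : ℂ) else 0 := by
  rw [← sum_complete n hn m]
  -- partition `range n` according to the gcd with `n`
  have h1 : ∑ b ∈ range n, e (m * ((b : ℝ) / n))
      = ∑ d ∈ n.divisors, ∑ b ∈ (range n).filter (fun b => n / Nat.gcd b n = d),
          e (m * ((b : ℝ) / n)) := by
    rw [sum_fiberwise_of_maps_to]
    intro b _
    rw [Nat.mem_divisors]
    exact ⟨Nat.div_dvd_of_dvd (Nat.gcd_dvd_right b n), hn.ne'⟩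
  rw [h1]
  refine sum_congr rfl fun d hd => ?_
  rw [Nat.mem_divisors] at hd
  obtain ⟨k, hk⟩ := hd.1
  have hdpos : 0 < d := Nat.pos_of_ne_zero (by rintro rfl; omega)
  have hkpos : 0 < k := Nat.pos_of_ne_zero (by rintro rfl; omega)
  unfold ram
  refine sum_bij (fun b _ => b * k) ?_ ?_ ?_ ?_
  · intro b hb
    rw [mem_red] at hb
    rw [mem_filter, mem_range]
    have hg : Nat.gcd (b * k) n = k := by
      rw [hk, Nat.gcd_mul_right]
      have : Nat.gcd b d = 1 := hb.2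
      rw [this, one_mul]
    refine ⟨?_, ?_⟩
    · rw [hk]
      exact Nat.mul_lt_mul_of_pos_right hb.1 hkpos
    · rw [hg, hk]
      exact Nat.mul_div_cancel _ hkpos
  · intro b _ b' _ h
    exact Nat.eq_of_mul_eq_mul_right hkpos h
  · intro c hc
    rw [mem_filter, mem_range] at hc
    obtain ⟨hc1, hc2⟩ := hc
    have hgpos : 0 < Nat.gcd c n := Nat.gcd_pos_of_pos_right _ hn
    have hgk : Nat.gcd c n = k := by
      have h2 : Nat.gcd c n ∣ n := Nat.gcd_dvd_right c n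
      have h3 : n / Nat.gcd c n * Nat.gcd c n = n := Nat.div_mul_cancel h2
      rw [hc2] at h3
      exact Nat.eq_of_mul_eq_mul_left hdpos (h3.trans hk)
    have hkc : k ∣ c := by rw [← hgk]; exact Nat.gcd_dvd_left c n
    obtain ⟨b, hb⟩ := hkc
    refine ⟨b, ?_, by rw [hb]; ring⟩
    rw [mem_red]
    constructor
    · have : k * b < k * d := by rw [← hb, mul_comm k d, ← hk]; exact hc1
      exact lt_of_mul_lt_mul_left this (Nat.zero_le _)
    · have h2 : Nat.gcd (k * b) (k * d) = k := by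
        rw [← hb, mul_comm k d, ← hk]
        exact hgk
      rw [Nat.gcd_mul_left] at h2
      have h3 : k * Nat.gcd b d = k * 1 := by rw [h2, mul_one]
      exact Nat.eq_of_mul_eq_mul_left hkpos h3
  · intro b _
    congr 2
    have hd0 : (d : ℝ) ≠ 0 := by exact_mod_cast hdpos.ne'
    have hk0 : (k : ℝ) ≠ 0 := by exact_mod_cast hkpos.ne'
    rw [hk]
    push_cast
    field_simp

/-- Formula for the Ramanujan sum. -/
theorem ram_eq (r : ℕ) (hr : 0 < r) (m : ℤ) :
    ram r m = ∑ x ∈ r.divisorsAntidiagonal,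
      ((ArithmeticFunction.moebius x.1 : ℤ) : ℂ) * (if ((x.2 : ℕ) : ℤ) ∣ m then (x.2 : ℂ) else 0) := by
  have h := (ArithmeticFunction.sum_eq_iff_sum_mul_moebius_eq
    (f := fun n => ram n m) (g := fun n : ℕ => if (n : ℤ) ∣ m then (n : ℂ) else 0)).mp
    (fun n hn => sum_ram_divisors n hn m) r hr
  exact h.symm

end Pool.Agent.H92.EH

end

section

/-!
The dual form of the additive large sieve inequality for well spaced points.
-/

set_option autoImplicit false

namespace Pool.Agent.H92.EH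

open Finset

/-- The Dirichlet kernel. -/
noncomputable def D (M : ℕ) (t : ℝ) : ℂ := ∑ m ∈ range M, e (m * t)

theorem norm_D_le_nat (M : ℕ) (t : ℝ) : ‖D M t‖ ≤ M := by
  unfold D
  refine (norm_sum_le _ _).trans ?_
  simp [norm_e]

theorem norm_D_neg (M : ℕ) (t : ℝ) : ‖D M (-t)‖ = ‖D M t‖ := by
  have : D M (-t) = (starRingEnd ℂ) (D M t) := by
    unfold D
    rw [map_sum]
    refine sum_congr rfl fun m _ => ?_
    rw [← e_neg]
    congr 1
    ring
  rw [this]
  simp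

theorem norm_D_le (M : ℕ) {t δ : ℝ} (hδ : 0 < δ) (h : ∀ m : ℤ, δ ≤ |t - m|) :
    ‖D M t‖ ≤ 1 / (2 * δ) := by
  have h1 : D M t * (e t - 1) = e t ^ M - 1 := by
    unfold D
    rw [← geom_sum_mul]
    congr 1
    refine sum_congr rfl fun m _ => ?_
    rw [e_nat_mul]
  have h2 : ‖e t ^ M - 1‖ ≤ 2 := by
    refine (norm_sub_le _ _).trans ?_
    rw [norm_pow, norm_e, one_pow, norm_one]
    norm_num
  have h3 := le_norm_e_sub_one h
  have h4 : ‖D M t‖ * ‖e t - 1‖ ≤ 2 := by rw [← norm_mul, h1]; exact h2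
  rw [le_div_iff₀ (by positivity)]
  have h5 : ‖D M t‖ * (4 * δ) ≤ 2 := (mul_le_mul_of_nonneg_left h3 (norm_nonneg _)).trans h4
  linarith

/-- Sum of inverse squares over distinct positive integers. -/
theorem sum_inv_sq_le {ι : Type*} (S : Finset ι) (m : ι → ℕ) (hm : ∀ j ∈ S, 1 ≤ m j)
    (hinj : Set.InjOn m S) : ∑ j ∈ S, ((m j : ℝ) ^ 2)⁻¹ ≤ 2 := by
  classical
  rw [← sum_image (f := fun k : ℕ => ((k : ℝ) ^ 2)⁻¹) (g := m) hinj]
  have hsub : S.image m ⊆ Ioo 0 ((S.image m).sup id + 1) := by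
    intro k hk
    rw [mem_Ioo]
    refine ⟨?_, Nat.lt_succ_of_le (le_sup (f := id) hk)⟩
    obtain ⟨j, hj, rfl⟩ := mem_image.mp hk
    exact hm j hj
  refine (sum_le_sum_of_subset_of_nonneg hsub ?_).trans ?_
  · intro i _ _
    positivity
  · have := sum_Ioo_inv_sq_le (α := ℝ) 0 ((S.image m).sup id + 1)
    simpa using this

/-- One sided estimate used for the row sums. -/
theorem row_aux {ι : Type*} (S : Finset ι) (β : ι → ℝ) (M : ℕ) (hM : 0 < M)
    (h0 : ∀ j ∈ S, ∀ m : ℤ, (1 : ℝ) / M ≤ |β j - m|)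
    (hsp : ∀ i ∈ S, ∀ j ∈ S, i ≠ j → ∀ m : ℤ, (1 : ℝ) / M ≤ |β i - β j - m|)
    (hhalf : ∀ j ∈ S, Int.fract (β j) ≤ 1 / 2) (K : ℕ) :
    ∑ j ∈ S, ‖D K (β j)‖ ^ 2 ≤ (M : ℝ) ^ 2 / 2 := by
  have hM' : (0 : ℝ) < M := by exact_mod_cast hM
  set m : ι → ℕ := fun j => ⌊(M : ℝ) * Int.fract (β j)⌋₊ with hmdef
  have hfr : ∀ j ∈ S, (1 : ℝ) / M ≤ Int.fract (β j) := by
    intro j hj
    have := h0 j hj ⌊β j⌋
    rwa [show β j - (⌊β j⌋ : ℤ) = Int.fract (β j) from rfl, abs_of_nonneg (Int.fract_nonneg _)]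
      at this
  have hm1 : ∀ j ∈ S, 1 ≤ m j := by
    intro j hj
    rw [hmdef]
    apply Nat.le_floor
    have := hfr j hj
    rw [div_le_iff₀ hM'] at this
    push_cast
    linarith
  have hmle : ∀ j ∈ S, (m j : ℝ) ≤ M * Int.fract (β j) := by
    intro j _
    exact Nat.floor_le (by have := Int.fract_nonneg (β j); positivity)
  have hmlt : ∀ j ∈ S, (M : ℝ) * Int.fract (β j) < m j + 1 := by
    intro j _
    exact Nat.lt_floor_add_one _
  have hinj : Set.InjOn m S := by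
    intro i hi j hj hij
    by_contra hne
    have h1 := hmle i hi
    have h2 := hmlt i hi
    have h3 := hmle j hj
    have h4 := hmlt j hj
    have h5 : (m i : ℝ) = m j := by exact_mod_cast hij
    have h6 := hsp i hi j hj hne (⌊β i⌋ - ⌊β j⌋)
    have h7 : β i - β j - ((⌊β i⌋ - ⌊β j⌋ : ℤ) : ℝ) = Int.fract (β i) - Int.fract (β j) := by
      simp only [Int.fract]
      push_cast
      ring
    rw [h7, div_le_iff₀ hM'] at h6
    have h8 : |Int.fract (β i) - Int.fract (β j)| * M < 1 := by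
      rw [← abs_of_pos hM', ← abs_mul, abs_lt]
      constructor <;> nlinarith
    linarith
  have hbound : ∀ j ∈ S, ‖D K (β j)‖ ^ 2 ≤ (M : ℝ) ^ 2 / 4 * ((m j : ℝ) ^ 2)⁻¹ := by
    intro j hj
    have hmpos : (0 : ℝ) < m j := by exact_mod_cast hm1 j hj
    have hdist : ∀ k : ℤ, (m j : ℝ) / M ≤ |β j - k| := by
      intro k
      have h1 : Int.fract (β j) ≤ |β j - k| := by
        have hf := hhalf j hj
        have hf0 := Int.fract_nonneg (β j)
        have hβ : β j = ⌊β j⌋ + Int.fract (β j) := (Int.floor_add_fract _).symm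
        rcases le_or_gt k ⌊β j⌋ with hk | hk
        · have hk' : (k : ℝ) ≤ ⌊β j⌋ := by exact_mod_cast hk
          rw [le_abs]
          left
          linarith
        · have hk' : (⌊β j⌋ : ℝ) + 1 ≤ k := by exact_mod_cast hk
          rw [le_abs]
          right
          linarith
      refine le_trans ?_ h1
      rw [div_le_iff₀ hM']
      have := hmle j hj
      linarith
    have h1 := norm_D_le K (t := β j) (δ := (m j : ℝ) / M) (by positivity) hdist
    have h2 : (1 : ℝ) / (2 * ((m j : ℝ) / M)) = M / (2 * m j) := by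
      field_simp
    rw [h2] at h1
    calc ‖D K (β j)‖ ^ 2 ≤ (M / (2 * m j)) ^ 2 := pow_le_pow_left₀ (norm_nonneg _) h1 2
      _ = (M : ℝ) ^ 2 / 4 * ((m j : ℝ) ^ 2)⁻¹ := by
        field_simp
        ring
  calc ∑ j ∈ S, ‖D K (β j)‖ ^ 2 ≤ ∑ j ∈ S, (M : ℝ) ^ 2 / 4 * ((m j : ℝ) ^ 2)⁻¹ :=
        sum_le_sum hbound
    _ = (M : ℝ) ^ 2 / 4 * ∑ j ∈ S, ((m j : ℝ) ^ 2)⁻¹ := by rw [mul_sum]
    _ ≤ (M : ℝ) ^ 2 / 4 * 2 := by
        apply mul_le_mul_of_nonneg_left (sum_inv_sq_le S m hm1 hinj)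
        positivity
    _ = (M : ℝ) ^ 2 / 2 := by ring

/-- Row sums of the kernel. -/
theorem row_sum_le {ι : Type*} [DecidableEq ι] (J : Finset ι) (α : ι → ℝ) (M : ℕ) (hM : 0 < M)
    (hsp : ∀ i ∈ J, ∀ j ∈ J, i ≠ j → ∀ m : ℤ, (1 : ℝ) / M ≤ |α i - α j - m|)
    (i : ι) (hi : i ∈ J) :
    ∑ j ∈ J, ‖D (2 * M) (α i - α j)‖ ^ 2 ≤ 5 * (M : ℝ) ^ 2 := by
  have hM' : (0 : ℝ) < M := by exact_mod_cast hM
  rw [← add_sum_erase J _ hi]
  have h1 : ‖D (2 * M) (α i - α i)‖ ^ 2 ≤ 4 * (M : ℝ) ^ 2 := by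
    have := norm_D_le_nat (2 * M) (α i - α i)
    push_cast at this
    calc ‖D (2 * M) (α i - α i)‖ ^ 2 ≤ (2 * (M : ℝ)) ^ 2 :=
          pow_le_pow_left₀ (norm_nonneg _) this 2
      _ = 4 * (M : ℝ) ^ 2 := by ring
  set S := J.erase i with hS
  have hSJ : ∀ j ∈ S, j ∈ J ∧ j ≠ i := by
    intro j hj
    rw [hS, mem_erase] at hj
    exact ⟨hj.2, hj.1⟩
  set S1 := S.filter (fun j => Int.fract (α i - α j) ≤ 1 / 2) with hS1
  set S2 := S.filter (fun j => ¬ Int.fract (α i - α j) ≤ 1 / 2) with hS2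
  have hsplit : ∑ j ∈ S, ‖D (2 * M) (α i - α j)‖ ^ 2
      = ∑ j ∈ S1, ‖D (2 * M) (α i - α j)‖ ^ 2 + ∑ j ∈ S2, ‖D (2 * M) (α i - α j)‖ ^ 2 :=
    (sum_filter_add_sum_filter_not S _ _).symm
  have hA : ∑ j ∈ S1, ‖D (2 * M) (α i - α j)‖ ^ 2 ≤ (M : ℝ) ^ 2 / 2 := by
    apply row_aux S1 (fun j => α i - α j) M hM
    · intro j hj m
      rw [hS1, mem_filter] at hj
      obtain ⟨hjJ, hne⟩ := hSJ j hj.1
      exact hsp i hi j hjJ (Ne.symm hne) m
    · intro j hj k hk hne m
      rw [hS1, mem_filter] at hj hk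
      have := hsp k (hSJ k hk.1).1 j (hSJ j hj.1).1 (Ne.symm hne) m
      have heq : α i - α j - (α i - α k) - (m : ℝ) = α k - α j - m := by ring
      show (1 : ℝ) / M ≤ |α i - α j - (α i - α k) - (m : ℝ)|
      rw [heq]
      exact this
    · intro j hj
      rw [hS1, mem_filter] at hj
      exact hj.2
  have hB : ∑ j ∈ S2, ‖D (2 * M) (α i - α j)‖ ^ 2 ≤ (M : ℝ) ^ 2 / 2 := by
    have : ∑ j ∈ S2, ‖D (2 * M) (α i - α j)‖ ^ 2 = ∑ j ∈ S2, ‖D (2 * M) (α j - α i)‖ ^ 2 := by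
      refine sum_congr rfl fun j _ => ?_
      rw [← norm_D_neg, neg_sub]
    rw [this]
    apply row_aux S2 (fun j => α j - α i) M hM
    · intro j hj m
      rw [hS2, mem_filter] at hj
      obtain ⟨hjJ, hne⟩ := hSJ j hj.1
      exact hsp j hjJ i hi hne m
    · intro j hj k hk hne m
      rw [hS2, mem_filter] at hj hk
      have := hsp j (hSJ j hj.1).1 k (hSJ k hk.1).1 hne m
      have heq : α j - α i - (α k - α i) - (m : ℝ) = α j - α k - m := by ring
      show (1 : ℝ) / M ≤ |α j - α i - (α k - α i) - (m : ℝ)|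
      rw [heq]
      exact this
    · intro j hj
      rw [hS2, mem_filter] at hj
      have h2 := hj.2
      push Not at h2
      have h3 : Int.fract (α j - α i) = 1 - Int.fract (α i - α j) := by
        rw [← neg_sub (α i) (α j)]
        apply Int.fract_neg
        intro h
        rw [h] at h2
        norm_num at h2
      show Int.fract (α j - α i) ≤ 1 / 2
      rw [h3]
      linarith
  rw [hsplit]
  linarith

/-- Dual form of the large sieve inequality. -/
theorem dual_large_sieve {ι : Type*} [DecidableEq ι] (J : Finset ι) (α : ι → ℝ) (c : ι → ℂ)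
    (M N : ℕ) (hN : N ≤ M) (hM : 0 < M)
    (hsp : ∀ i ∈ J, ∀ j ∈ J, i ≠ j → ∀ m : ℤ, (1 : ℝ) / M ≤ |α i - α j - m|) :
    ∑ n ∈ Icc 1 N, ‖∑ j ∈ J, c j * e (n * α j)‖ ^ 2 ≤ 5 * M * ∑ j ∈ J, ‖c j‖ ^ 2 := by
  have hM' : (0 : ℝ) < M := by exact_mod_cast hM
  set f : ℤ → ℂ := fun n => ∑ j ∈ J, c j * e (n * α j) with hf
  -- expansion of the double sum
  have hexp : ∑ m ∈ range (2 * M), ∑ m' ∈ range (2 * M), ‖f ((m : ℤ) - m')‖ ^ 2
      ≤ ∑ i ∈ J, ∑ j ∈ J, ‖c i‖ * ‖c j‖ * ‖D (2 * M) (α i - α j)‖ ^ 2 := by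
    have h1 : ∀ m m' : ℕ, ((‖f ((m : ℤ) - m')‖ ^ 2 : ℝ) : ℂ)
        = ∑ i ∈ J, ∑ j ∈ J, c i * (starRingEnd ℂ) (c j) *
          (e (m * (α i - α j)) * (starRingEnd ℂ) (e (m' * (α i - α j)))) := by
      intro m m'
      push_cast
      rw [← Complex.mul_conj', hf]
      simp only
      rw [map_sum, sum_mul_sum]
      refine sum_congr rfl fun i _ => sum_congr rfl fun j _ => ?_
      rw [map_mul]
      have : e (((m : ℤ) - (m' : ℤ) : ℤ) * α i) * (starRingEnd ℂ) (e (((m : ℤ) - (m' : ℤ) : ℤ) * α j))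
          = e (m * (α i - α j)) * (starRingEnd ℂ) (e (m' * (α i - α j))) := by
        rw [e_mul_conj, e_mul_conj]
        congr 1
        push_cast
        ring
      rw [← this]
      ring
    have h2 : ((∑ m ∈ range (2 * M), ∑ m' ∈ range (2 * M), ‖f ((m : ℤ) - m')‖ ^ 2 : ℝ) : ℂ)
        = ∑ i ∈ J, ∑ j ∈ J, c i * (starRingEnd ℂ) (c j) *
          ((‖D (2 * M) (α i - α j)‖ ^ 2 : ℝ) : ℂ) := by
      rw [Complex.ofReal_sum]
      simp_rw [Complex.ofReal_sum, h1]
      have h3 : ∀ i j : ι, ((‖D (2 * M) (α i - α j)‖ ^ 2 : ℝ) : ℂ)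
          = ∑ m ∈ range (2 * M), ∑ m' ∈ range (2 * M),
            (e (m * (α i - α j)) * (starRingEnd ℂ) (e (m' * (α i - α j)))) := by
        intro i j
        push_cast
        rw [← Complex.mul_conj']
        unfold D
        rw [map_sum, sum_mul_sum]
      simp_rw [h3, mul_sum]
      -- reorder sums
      have e1 : ∀ m : ℕ, ∑ m' ∈ range (2 * M), ∑ i ∈ J, ∑ j ∈ J,
            c i * (starRingEnd ℂ) (c j) *
              (e (m * (α i - α j)) * (starRingEnd ℂ) (e (m' * (α i - α j))))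
          = ∑ i ∈ J, ∑ j ∈ J, ∑ m' ∈ range (2 * M),
            c i * (starRingEnd ℂ) (c j) *
              (e (m * (α i - α j)) * (starRingEnd ℂ) (e (m' * (α i - α j)))) := by
        intro m
        rw [sum_comm]
        refine sum_congr rfl fun i _ => ?_
        rw [sum_comm]
      simp_rw [e1]
      rw [sum_comm]
      refine sum_congr rfl fun i _ => ?_
      rw [sum_comm]
    have h4 : (∑ m ∈ range (2 * M), ∑ m' ∈ range (2 * M), ‖f ((m : ℤ) - m')‖ ^ 2 : ℝ)
        = ‖((∑ m ∈ range (2 * M), ∑ m' ∈ range (2 * M), ‖f ((m : ℤ) - m')‖ ^ 2 : ℝ) : ℂ)‖ := by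
      rw [Complex.norm_real, Real.norm_of_nonneg]
      exact sum_nonneg fun _ _ => sum_nonneg fun _ _ => by positivity
    rw [h4, h2]
    refine (norm_sum_le _ _).trans (sum_le_sum fun i _ => ?_)
    refine (norm_sum_le _ _).trans (sum_le_sum fun j _ => ?_)
    rw [norm_mul, norm_mul, RCLike.norm_conj, Complex.norm_real, Real.norm_of_nonneg (by positivity)]
  -- lower bound of the double sum
  have hlow : (M : ℝ) * ∑ n ∈ Icc 1 N, ‖∑ j ∈ J, c j * e (n * α j)‖ ^ 2
      ≤ ∑ m ∈ range (2 * M), ∑ m' ∈ range (2 * M), ‖f ((m : ℤ) - m')‖ ^ 2 := by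
    have h1 : (M : ℝ) * ∑ n ∈ Icc 1 N, ‖∑ j ∈ J, c j * e (n * α j)‖ ^ 2
        = ∑ p ∈ (Icc 1 N) ×ˢ (range M), ‖f (p.1 : ℤ)‖ ^ 2 := by
      rw [sum_product, mul_sum]
      refine sum_congr rfl fun n _ => ?_
      have h0 : ∑ y ∈ range M, ‖f (((n, y) : ℕ × ℕ).1 : ℤ)‖ ^ 2
          = ∑ _y ∈ range M, ‖f (n : ℤ)‖ ^ 2 := rfl
      rw [h0, sum_const, card_range, nsmul_eq_mul, hf]
      simp
    rw [h1, ← sum_product']
    have h2 : ∑ p ∈ (Icc 1 N) ×ˢ (range M), ‖f (p.1 : ℤ)‖ ^ 2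
        = ∑ p ∈ ((Icc 1 N) ×ˢ (range M)).image (fun p : ℕ × ℕ => (p.1 + p.2, p.2)),
          ‖f ((p.1 : ℤ) - p.2)‖ ^ 2 := by
      rw [sum_image]
      · refine sum_congr rfl fun p _ => ?_
        congr 3
        push_cast
        ring
      · rintro ⟨a, b⟩ _ ⟨a', b'⟩ _ h
        simp only [Prod.mk.injEq] at h ⊢
        omega
    rw [h2]
    apply sum_le_sum_of_subset_of_nonneg
    · intro p hp
      obtain ⟨⟨a, b⟩, hq, rfl⟩ := mem_image.mp hp
      rw [mem_product, mem_Icc, mem_range] at hq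
      rw [mem_product, mem_range, mem_range]
      simp only at hq ⊢
      omega
    · intro _ _ _
      positivity
  -- Schur test
  have hschur : ∑ i ∈ J, ∑ j ∈ J, ‖c i‖ * ‖c j‖ * ‖D (2 * M) (α i - α j)‖ ^ 2
      ≤ 5 * (M : ℝ) ^ 2 * ∑ j ∈ J, ‖c j‖ ^ 2 := by
    have h1 : ∑ i ∈ J, ∑ j ∈ J, ‖c i‖ * ‖c j‖ * ‖D (2 * M) (α i - α j)‖ ^ 2
        ≤ ∑ i ∈ J, ∑ j ∈ J, (‖c i‖ ^ 2 / 2 * ‖D (2 * M) (α i - α j)‖ ^ 2
          + ‖c j‖ ^ 2 / 2 * ‖D (2 * M) (α i - α j)‖ ^ 2) := by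
      refine sum_le_sum fun i _ => sum_le_sum fun j _ => ?_
      rw [← add_mul]
      apply mul_le_mul_of_nonneg_right _ (by positivity)
      nlinarith [sq_nonneg (‖c i‖ - ‖c j‖)]
    refine h1.trans ?_
    simp_rw [sum_add_distrib]
    have h2 : ∑ i ∈ J, ∑ j ∈ J, ‖c i‖ ^ 2 / 2 * ‖D (2 * M) (α i - α j)‖ ^ 2
        ≤ 5 * (M : ℝ) ^ 2 / 2 * ∑ j ∈ J, ‖c j‖ ^ 2 := by
      rw [mul_sum]
      refine sum_le_sum fun i hi => ?_
      rw [← mul_sum]
      have := row_sum_le J α M hM hsp i hi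
      nlinarith [sq_nonneg ‖c i‖]
    have h3 : ∑ i ∈ J, ∑ j ∈ J, ‖c j‖ ^ 2 / 2 * ‖D (2 * M) (α i - α j)‖ ^ 2
        = ∑ i ∈ J, ∑ j ∈ J, ‖c i‖ ^ 2 / 2 * ‖D (2 * M) (α i - α j)‖ ^ 2 := by
      rw [sum_comm]
      refine sum_congr rfl fun i _ => sum_congr rfl fun j _ => ?_
      rw [← norm_D_neg, neg_sub]
    rw [h3]
    linarith
  have hfinal := hlow.trans (hexp.trans hschur)
  have : (M : ℝ) * ∑ n ∈ Icc 1 N, ‖∑ j ∈ J, c j * e (n * α j)‖ ^ 2
      ≤ M * (5 * M * ∑ j ∈ J, ‖c j‖ ^ 2) := by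
    refine hfinal.trans (le_of_eq ?_)
    ring
  exact le_of_mul_le_mul_left this hM'

end Pool.Agent.H92.EH

end

section

/-!
A lower bound for Euler's function in terms of the number of prime factors, and a bound for
that number.
-/

set_option autoImplicit false

namespace Pool.Agent.H92.EH

open Finset

theorem prod_one_sub_inv_ge (S : Finset ℕ) (hS : ∀ p ∈ S, 2 ≤ p) :
    (1 : ℝ) / (S.card + 1) ≤ ∏ p ∈ S, (1 - (p : ℝ)⁻¹) := by
  induction S using Finset.induction_on_max with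
  | empty => simp
  | insert a s hmax ih =>
    have ha : a ∉ s := fun h => lt_irrefl _ (hmax a h)
    rw [prod_insert ha, card_insert_of_notMem ha]
    have h1 := ih (fun p hp => hS p (mem_insert_of_mem hp))
    -- `a ≥ card s + 2`
    have h2 : s.card + 2 ≤ a := by
      have hsub : s ⊆ Ico 2 a := by
        intro p hp
        rw [mem_Ico]
        exact ⟨hS p (mem_insert_of_mem hp), hmax p hp⟩
      have h3 := card_le_card hsub
      rw [Nat.card_Ico] at h3
      have h4 := hS a (mem_insert_self _ _)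
      omega
    have h2' : ((s.card : ℝ) + 2) ≤ a := by exact_mod_cast h2
    have hc : (0 : ℝ) ≤ s.card := by positivity
    have h5 : (1 : ℝ) - ((s.card : ℝ) + 2)⁻¹ ≤ 1 - (a : ℝ)⁻¹ := by
      have : (a : ℝ)⁻¹ ≤ ((s.card : ℝ) + 2)⁻¹ := inv_anti₀ (by positivity) h2'
      linarith
    have h6 : (1 : ℝ) - ((s.card : ℝ) + 2)⁻¹ = ((s.card : ℝ) + 1) / (s.card + 2) := by
      field_simp
      ring
    have h7 : (0 : ℝ) ≤ ((s.card : ℝ) + 1) / (s.card + 2) := by positivity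
    push_cast
    calc (1 : ℝ) / ((s.card : ℝ) + 1 + 1)
        = (((s.card : ℝ) + 1) / (s.card + 2)) * (1 / (s.card + 1)) := by
          field_simp
          ring
      _ ≤ (1 - (a : ℝ)⁻¹) * ∏ p ∈ s, (1 - (p : ℝ)⁻¹) := by
          rw [← h6] at h7
          apply mul_le_mul (by rw [← h6]; exact h5) h1 (by positivity) (h7.trans h5)

theorem le_totient_mul (q : ℕ) :
    (q : ℝ) ≤ Nat.totient q * (q.primeFactors.card + 1) := by
  have h1 : (Nat.totient q : ℝ) = q * ∏ p ∈ q.primeFactors, (1 - (p : ℝ)⁻¹) := by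
    have := Nat.totient_eq_mul_prod_factors q
    have h2 : ((Nat.totient q : ℚ) : ℝ) = ((q * ∏ p ∈ q.primeFactors, (1 - (p : ℚ)⁻¹) : ℚ) : ℝ) := by
      rw [this]
    push_cast at h2
    exact h2
  have h3 := prod_one_sub_inv_ge q.primeFactors (fun p hp => (Nat.prime_of_mem_primeFactors hp).two_le)
  rw [h1]
  have hc : (0 : ℝ) < (q.primeFactors.card : ℝ) + 1 := by positivity
  rw [div_le_iff₀ hc] at h3
  have hq : (0 : ℝ) ≤ q := by positivity
  nlinarith

theorem card_primeFactors_le (q : ℕ) : q.primeFactors.card ≤ Nat.log 2 q := by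
  rcases Nat.eq_zero_or_pos q with rfl | hq
  · simp
  · apply Nat.le_log_of_pow_le (by norm_num)
    calc 2 ^ q.primeFactors.card ≤ ∏ p ∈ q.primeFactors, p := by
          rw [← prod_const]
          exact prod_le_prod' fun p hp => (Nat.prime_of_mem_primeFactors hp).two_le
      _ ≤ q := Nat.le_of_dvd hq (Nat.prod_primeFactors_dvd q)

end Pool.Agent.H92.EH

end
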