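import Pool.Agent.H43.PJ.M05
import Pool.Agent.H43.PJ.M06

/-! The parts of this file: H91.EHA.SwK2, H53.MID.FpL1, H76.GB.Defs, H53.MID.Lfu. -/

section

/-!
# Ramanujan sums

`ramS_eq`: `c_c(n) = ∑_{b mod c, (b,c)=1} e(nb/c) = ∑_{d | (c,n)} d μ(c/d)` (see also
`Pool/Agent/H92/EH/Ramanujan.lean`, `ram_eq`).
`lamR_exp`: for `c ≤ R`, `(b,c)=1`, `∑_{n≤y} lamR R n e(nb/c) = (μ(c)/φ(c)) y + O(R^4)`:
write `lamR R n = ∑_{d≤R} μ(d)/φ(d) ∑_{b'} e(n b'/d)`; the pair `(d,b')` with `b'/d + b/c ∈ ℤ` is only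
`d = c`, `b' ≡ -b`; for the others `‖b'/d + b/c‖ ≥ 1/(cd) ≥ 1/R²`, the geometric sum is `≤ R²`, and
`∑_{d≤R} (1/φ(d)) φ(d) R² ≤ R³`.
-/

set_option autoImplicit false

namespace Pool.Agent.H91.EHA

open Finset
open Pool.Agent.H91.PK

private theorem swk2_ee (t : ℝ) : ee t = Pool.Agent.H92.EH.e t := by
  unfold ee Pool.Agent.H92.EH.e
  congr 1
  push_cast
  ring

private theorem swk2_red (c : ℕ) (hc : 1 ≤ c) (f : ℕ → ℂ) (hf : f c = f 0) :
    ∑ b ∈ (Icc 1 c).filter (fun b => Nat.Coprime b c), f b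
      = ∑ b ∈ Pool.Agent.H92.EH.red c, f b := by
  rcases Nat.eq_or_lt_of_le hc with h1 | h1
  · subst h1
    have e1 : (Icc 1 1).filter (fun b => Nat.Coprime b 1) = {1} := by decide
    have e2 : Pool.Agent.H92.EH.red 1 = {0} := by decide
    rw [e1, e2, sum_singleton, sum_singleton, hf]
  · apply sum_congr _ (fun _ _ => rfl)
    ext b
    rw [mem_filter, mem_Icc, Pool.Agent.H92.EH.mem_red]
    constructor
    · rintro ⟨⟨h2, h3⟩, h4⟩
      refine ⟨lt_of_le_of_ne h3 ?_, h4⟩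
      rintro rfl
      rw [Nat.coprime_self] at h4
      omega
    · rintro ⟨h2, h4⟩
      refine ⟨⟨Nat.one_le_iff_ne_zero.mpr ?_, h2.le⟩, h4⟩
      rintro rfl
      rw [Nat.coprime_zero_left] at h4
      omega

private theorem swk2_ram (c n : ℕ) (hc : 1 ≤ c) :
    ((ramS c n : ℝ) : ℂ) = Pool.Agent.H92.EH.ram c (n : ℤ) := by
  rw [Pool.Agent.H92.EH.ram_eq c hc]
  rw [Nat.sum_divisorsAntidiagonal' (f := fun a b : ℕ =>
    ((ArithmeticFunction.moebius a : ℤ) : ℂ) * (if ((b : ℕ) : ℤ) ∣ (n : ℤ) then (b : ℂ) else 0))]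
  unfold ramS
  have hg : (Nat.gcd c n).divisors = c.divisors.filter (fun d => d ∣ n) := by
    ext d
    rw [Nat.mem_divisors, mem_filter, Nat.mem_divisors]
    constructor
    · rintro ⟨h1, h2⟩
      exact ⟨⟨h1.trans (Nat.gcd_dvd_left c n), by omega⟩, h1.trans (Nat.gcd_dvd_right c n)⟩
    · rintro ⟨⟨h1, h2⟩, h3⟩
      refine ⟨Nat.dvd_gcd h1 h3, ?_⟩
      intro h4
      rw [Nat.gcd_eq_zero_iff] at h4
      omega
  rw [hg, sum_filter]
  push_cast
  apply sum_congr rfl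
  intro d _
  by_cases h : d ∣ n
  · have h' : (d : ℤ) ∣ (n : ℤ) := by exact_mod_cast h
    rw [if_pos h, if_pos h']
    push_cast
    ring
  · have h' : ¬ (d : ℤ) ∣ (n : ℤ) := by
      intro h2
      exact h (by exact_mod_cast h2)
    rw [if_neg h, if_neg h']
    simp

theorem ramS_eq (c n : ℕ) (hc : 1 ≤ c) :
    ((ramS c n : ℝ) : ℂ) = ∑ b ∈ (Icc 1 c).filter (fun b => Nat.Coprime b c),
      ee ((n : ℝ) * b / c) := by
  have hc0 : (c : ℝ) ≠ 0 := by exact_mod_cast (by omega : c ≠ 0)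
  rw [swk2_red c hc (fun b => ee ((n : ℝ) * b / c)), swk2_ram c n hc]
  · unfold Pool.Agent.H92.EH.ram
    apply sum_congr rfl
    intro b _
    rw [swk2_ee]
    congr 1
    push_cast
    ring
  · rw [swk2_ee, swk2_ee]
    have h1 : (n : ℝ) * (c : ℝ) / c = (n : ℝ) := by field_simp
    have h2 : (n : ℝ) * ((0 : ℕ) : ℝ) / c = ((0 : ℕ) : ℝ) := by simp
    rw [h1, h2, Pool.Agent.H92.EH.e_nat, Pool.Agent.H92.EH.e_nat]

private theorem swk2_geom (y : ℕ) (t δ : ℝ) (hδ : 0 < δ) (h : ∀ m : ℤ, δ ≤ |t - m|) :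
    ‖∑ n ∈ Icc 1 y, Pool.Agent.H92.EH.e (n * t)‖ ≤ 1 / (2 * δ) := by
  have h3 := Pool.Agent.H92.EH.le_norm_e_sub_one h
  have h1 : ∑ n ∈ Icc 1 y, Pool.Agent.H92.EH.e (n * t)
      = Pool.Agent.H92.EH.e t * ∑ n ∈ range y, Pool.Agent.H92.EH.e t ^ n := by
    clear h3
    induction y with
    | zero => simp
    | succ y ih =>
      rw [Finset.sum_Icc_succ_top (by omega), ih, sum_range_succ, mul_add]
      congr 1
      rw [Pool.Agent.H92.EH.e_nat_mul, pow_succ]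
      ring
  have h2 : (∑ n ∈ range y, Pool.Agent.H92.EH.e t ^ n) * (Pool.Agent.H92.EH.e t - 1)
      = Pool.Agent.H92.EH.e t ^ y - 1 := geom_sum_mul _ _
  have h4 : ‖(∑ n ∈ range y, Pool.Agent.H92.EH.e t ^ n)‖ * ‖Pool.Agent.H92.EH.e t - 1‖ ≤ 2 := by
    rw [← norm_mul, h2]
    refine (norm_sub_le _ _).trans ?_
    rw [norm_pow, Pool.Agent.H92.EH.norm_e, one_pow, norm_one]
    norm_num
  rw [h1, norm_mul, Pool.Agent.H92.EH.norm_e, one_mul, le_div_iff₀ (by positivity)]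
  have h5 : ‖(∑ n ∈ range y, Pool.Agent.H92.EH.e t ^ n)‖ * (4 * δ) ≤ 2 :=
    (mul_le_mul_of_nonneg_left h3 (norm_nonneg _)).trans h4
  linarith

private theorem swk2_lamR (R n : ℕ) :
    ((lamR R n : ℝ) : ℂ) = ∑ d ∈ Icc 1 R,
      (((ArithmeticFunction.moebius d : ℝ) / (d.totient : ℝ) : ℝ) : ℂ)
        * ∑ b' ∈ Pool.Agent.H92.EH.red d, Pool.Agent.H92.EH.e (n * ((b' : ℝ) / d)) := by
  unfold lamR
  push_cast
  apply sum_congr rfl
  intro d hd
  rw [mem_Icc] at hd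
  have h := swk2_ram d n hd.1
  unfold Pool.Agent.H92.EH.ram at h
  rw [show ((ramS d n : ℝ) : ℂ) = _ from h]
  push_cast
  rfl

theorem lamR_exp (R y c b : ℕ) (hc : 1 ≤ c) (hcR : c ≤ R) (hb : Nat.Coprime b c) :
    ‖(∑ n ∈ Icc 1 y, ((lamR R n : ℝ) : ℂ) * ee ((n : ℝ) * b / c))
      - (((ArithmeticFunction.moebius c : ℝ) / (c.totient : ℝ) * y : ℝ) : ℂ)‖ ≤ (R : ℝ) ^ 4 := by
  have hc0 : (c : ℝ) ≠ 0 := by exact_mod_cast (by omega : c ≠ 0)
  have hcpos : (0 : ℝ) < c := by exact_mod_cast (by omega : 0 < c)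
  -- the residue `bs ≡ -b`
  obtain ⟨bs, hbs, k, hk⟩ : ∃ bs ∈ Pool.Agent.H92.EH.red c, ∃ k : ℤ,
      (b : ℤ) = k * c - bs := by
    refine ⟨(c - b % c) % c, ?_, ?_⟩
    · rw [Pool.Agent.H92.EH.mem_red]
      refine ⟨Nat.mod_lt _ (by omega), ?_⟩
      have h1 : Nat.Coprime (b % c) c := by
        rw [Nat.Coprime, ← Nat.gcd_rec]
        rwa [Nat.coprime_comm] at hb
      have h2 : Nat.Coprime (c - b % c) c := by
        have h3 : b % c ≤ c := (Nat.mod_lt _ (by omega)).le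
        rw [Nat.coprime_self_sub_left h3]
        exact h1
      rw [Nat.Coprime, ← Nat.gcd_rec]
      rwa [Nat.coprime_comm] at h2
    · have h3 : b % c ≤ c := (Nat.mod_lt _ (by omega)).le
      have h4 : ((c : ℤ)) ∣ (b : ℤ) + (((c - b % c) % c : ℕ) : ℤ) := by
        have h5 : (b + (c - b % c) % c) % c = 0 := by
          rw [Nat.add_mod, Nat.mod_mod, ← Nat.add_mod]
          have h6 : b + (c - b % c) = c * (b / c + 1) := by
            have := Nat.div_add_mod b c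
            rw [mul_add, mul_one]
            omega
          rw [h6, Nat.mul_mod_right]
        have h7 : c ∣ b + (c - b % c) % c := Nat.dvd_of_mod_eq_zero h5
        exact_mod_cast h7
      obtain ⟨k, hk⟩ := h4
      refine ⟨k, ?_⟩
      rw [mul_comm] at hk
      linarith
  have hbR : (b : ℝ) = k * c - bs := by exact_mod_cast hk
  have hee : ∀ n : ℕ, ee ((n : ℝ) * b / c) = Pool.Agent.H92.EH.e (n * (-((bs : ℝ) / c))) := by
    intro n
    rw [swk2_ee]
    have h1 : (n : ℝ) * b / c = n * (-((bs : ℝ) / c)) + ((n * k : ℤ) : ℝ) := by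
      rw [hbR]
      push_cast
      field_simp
      ring
    rw [h1, Pool.Agent.H92.EH.e_add_int]
  -- expand
  set m : ℕ → ℂ := fun d => (((ArithmeticFunction.moebius d : ℝ) / (d.totient : ℝ) : ℝ) : ℂ)
    with hm
  have hexp : (∑ n ∈ Icc 1 y, ((lamR R n : ℝ) : ℂ) * ee ((n : ℝ) * b / c))
      = ∑ d ∈ Icc 1 R, m d * ∑ b' ∈ Pool.Agent.H92.EH.red d,
          ∑ n ∈ Icc 1 y, Pool.Agent.H92.EH.e (n * ((b' : ℝ) / d - (bs : ℝ) / c)) := by
    calc (∑ n ∈ Icc 1 y, ((lamR R n : ℝ) : ℂ) * ee ((n : ℝ) * b / c))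
        = ∑ n ∈ Icc 1 y, ∑ d ∈ Icc 1 R, m d * ∑ b' ∈ Pool.Agent.H92.EH.red d,
            Pool.Agent.H92.EH.e (n * ((b' : ℝ) / d - (bs : ℝ) / c)) := by
          apply sum_congr rfl
          intro n _
          rw [swk2_lamR, hee, sum_mul]
          apply sum_congr rfl
          intro d _
          rw [mul_assoc, sum_mul]
          congr 1
          apply sum_congr rfl
          intro b' _
          rw [← Pool.Agent.H92.EH.e_add]
          congr 1
          ring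
      _ = ∑ d ∈ Icc 1 R, m d * ∑ n ∈ Icc 1 y, ∑ b' ∈ Pool.Agent.H92.EH.red d,
            Pool.Agent.H92.EH.e (n * ((b' : ℝ) / d - (bs : ℝ) / c)) := by
          rw [sum_comm]
          apply sum_congr rfl
          intro d _
          rw [mul_sum]
      _ = _ := by
          apply sum_congr rfl
          intro d _
          rw [sum_comm]
  have hR1 : (1 : ℝ) ≤ R := by exact_mod_cast hc.trans hcR
  have hcR' : (c : ℝ) ≤ R := by exact_mod_cast hcR
  -- difference as a sum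
  have hdiff : (∑ n ∈ Icc 1 y, ((lamR R n : ℝ) : ℂ) * ee ((n : ℝ) * b / c))
      - (((ArithmeticFunction.moebius c : ℝ) / (c.totient : ℝ) * y : ℝ) : ℂ)
      = ∑ d ∈ Icc 1 R, m d * ∑ b' ∈ Pool.Agent.H92.EH.red d,
          (if d = c ∧ b' = bs then 0 else
            ∑ n ∈ Icc 1 y, Pool.Agent.H92.EH.e (n * ((b' : ℝ) / d - (bs : ℝ) / c))) := by
    rw [hexp, sub_eq_iff_eq_add]
    have hmain : (((ArithmeticFunction.moebius c : ℝ) / (c.totient : ℝ) * y : ℝ) : ℂ)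
        = ∑ d ∈ Icc 1 R, m d * ∑ b' ∈ Pool.Agent.H92.EH.red d,
          (if d = c ∧ b' = bs then (y : ℂ) else 0) := by
      rw [sum_eq_single_of_mem c (mem_Icc.mpr ⟨hc, hcR⟩)]
      · rw [sum_eq_single_of_mem bs hbs]
        · rw [if_pos ⟨rfl, rfl⟩, hm]
          push_cast
          ring
        · intro b' _ hne
          rw [if_neg]
          rintro ⟨_, h⟩
          exact hne h
      · intro d _ hne
        rw [sum_eq_zero, mul_zero]
        intro b' _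
        rw [if_neg]
        rintro ⟨h, _⟩
        exact hne h
    rw [hmain, ← sum_add_distrib]
    apply sum_congr rfl
    intro d _
    rw [← mul_add, ← sum_add_distrib]
    congr 1
    apply sum_congr rfl
    intro b' _
    by_cases h : d = c ∧ b' = bs
    · rw [if_pos h, if_pos h, h.1, h.2, zero_add]
      simp [Pool.Agent.H92.EH.e_zero]
    · rw [if_neg h, if_neg h, add_zero]
  rw [hdiff]
  have hterm : ∀ d ∈ Icc 1 R, ‖m d * ∑ b' ∈ Pool.Agent.H92.EH.red d,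
          (if d = c ∧ b' = bs then 0 else
            ∑ n ∈ Icc 1 y, Pool.Agent.H92.EH.e (n * ((b' : ℝ) / d - (bs : ℝ) / c)))‖
      ≤ (R : ℝ) ^ 2 := by
    intro d hd
    rw [mem_Icc] at hd
    have hdpos : (0 : ℝ) < d := by exact_mod_cast hd.1
    have hdR : (d : ℝ) ≤ R := by exact_mod_cast hd.2
    have htot : (0 : ℝ) < (d.totient : ℝ) := by
      exact_mod_cast Nat.totient_pos.mpr hd.1
    have hmd : ‖m d‖ ≤ 1 / (d.totient : ℝ) := by
      rw [hm]
      simp only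
      rw [Complex.norm_real, Real.norm_eq_abs, abs_div, abs_of_pos htot]
      apply div_le_div_of_nonneg_right _ htot.le
      exact_mod_cast ArithmeticFunction.abs_moebius_le_one
    have hin : ‖∑ b' ∈ Pool.Agent.H92.EH.red d,
          (if d = c ∧ b' = bs then (0 : ℂ) else
            ∑ n ∈ Icc 1 y, Pool.Agent.H92.EH.e (n * ((b' : ℝ) / d - (bs : ℝ) / c)))‖
        ≤ (d.totient : ℝ) * (R : ℝ) ^ 2 := by
      refine (norm_sum_le _ _).trans ?_
      have : ∀ b' ∈ Pool.Agent.H92.EH.red d, ‖(if d = c ∧ b' = bs then (0 : ℂ) else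
            ∑ n ∈ Icc 1 y, Pool.Agent.H92.EH.e (n * ((b' : ℝ) / d - (bs : ℝ) / c)))‖
            ≤ (R : ℝ) ^ 2 := by
        intro b' hb'
        split_ifs with h
        · rw [norm_zero]; positivity
        · have hsp := Pool.Agent.H92.EH.farey_spacing (by omega : 0 < d) (by omega : 0 < c)
            hb' hbs h
          have hg := swk2_geom y ((b' : ℝ) / d - (bs : ℝ) / c) (1 / ((d : ℝ) * c))
            (by positivity) hsp
          refine hg.trans ?_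
          have : 1 / (2 * (1 / ((d : ℝ) * c))) = (d : ℝ) * c / 2 := by
            field_simp
          rw [this]
          nlinarith
      refine (sum_le_sum this).trans ?_
      rw [sum_const, nsmul_eq_mul, Pool.Agent.H92.EH.card_red]
    rw [norm_mul]
    calc ‖m d‖ * _ ≤ (1 / (d.totient : ℝ)) * ((d.totient : ℝ) * (R : ℝ) ^ 2) :=
          mul_le_mul hmd hin (norm_nonneg _) (by positivity)
      _ = (R : ℝ) ^ 2 := by field_simp
  refine (norm_sum_le _ _).trans ((sum_le_sum hterm).trans ?_)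
  rw [sum_const, nsmul_eq_mul, Nat.card_Icc, Nat.add_sub_cancel]
  nlinarith [pow_le_pow_right₀ hR1 (show 3 ≤ 4 by norm_num)]

end Pool.Agent.H91.EHA

end

section

/-!
# MID FpL1: `L¹` bound for `Fp f P` on intervals

Proof.  `∑_{m ∈ [u,u+v)} |Fp f P m| ≤ ∑_{p ∈ pb P} ∑_{k : u ≤ p k < u+v} |f k|`; the `k` are in an interval `[a, a + ℓ)` with `a = ⌈u/p⌉`,
`ℓ = v/P + 1 + w0` (natural division; `≥ ` the number of the `k`, `≥ w0`; `a + ℓ ≤ u + v + w0 + 2 ≤ X`), so Cauchy-Schwarz and `SqB` give `≤ ℓ L^2` for every `p`; `|pb P| ≤ P`.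
-/

set_option autoImplicit false

namespace Pool.Agent.H53.MID

open Finset
open Pool.Agent.H35.W (pb)

private theorem FpL1_card (P : ℕ) : (pb P).card ≤ P := by
  have h1 : (pb P).card ≤ (Ioc P (2 * P)).card := card_filter_le _ _
  rw [Nat.card_Ioc] at h1
  omega

private theorem FpL1_one (f : ℕ → ℝ) (P w0 X u v p : ℕ) (L : ℝ) (hP : 1 ≤ P)
    (hp : P < p) (hf : SqB f w0 X L) (hX : u + v + w0 + 2 ≤ X) :
    ∑ m ∈ (Ico u (u + v)).filter (fun m => p ∣ m), |f (m / p)| ≤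
      ((v : ℝ) / P + 1 + w0) * L ^ 2 := by
  have hp0 : 0 < p := by omega
  obtain ⟨a, ha⟩ : ∃ a, a = (u + p - 1) / p := ⟨_, rfl⟩
  obtain ⟨l, hl⟩ : ∃ l, l = v / P + 1 + w0 := ⟨_, rfl⟩
  have ha1 : u ≤ a * p := by
    rw [ha]
    have := Nat.lt_div_mul_add (a := u + p - 1) hp0
    omega
  have ha2 : a ≤ u := by
    rw [ha]
    rcases Nat.eq_zero_or_pos u with hu | hu
    · subst hu
      rw [Nat.div_eq_of_lt (by omega)]
    · rw [Nat.div_le_iff_le_mul_add_pred hp0]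
      have : u ≤ p * u := Nat.le_mul_of_pos_left _ hp0
      omega
  obtain ⟨q, hq⟩ : ∃ q, q = v / P := ⟨_, rfl⟩
  have hlv : q ≤ v := by
    rw [hq]
    exact Nat.div_le_self _ _
  rw [← hq] at hl
  have hsq := hf a l (by omega) (by omega)
  have hinj : Set.InjOn (fun m => m / p) ((Ico u (u + v)).filter (fun m => p ∣ m)) := by
    intro m hm m' hm' h
    rw [mem_coe, mem_filter] at hm hm'
    have h1 : m / p = m' / p := h
    rw [← Nat.div_mul_cancel hm.2, ← Nat.div_mul_cancel hm'.2, h1]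
  have e1 : ∑ m ∈ (Ico u (u + v)).filter (fun m => p ∣ m), |f (m / p)| =
      ∑ k ∈ ((Ico u (u + v)).filter (fun m => p ∣ m)).image (fun m => m / p), |f k| :=
    (sum_image (f := fun k => |f k|) hinj).symm
  have e2 : ∑ k ∈ ((Ico u (u + v)).filter (fun m => p ∣ m)).image (fun m => m / p), |f k| ≤
      ∑ k ∈ Ico a (a + l), |f k| := by
    refine sum_le_sum_of_subset_of_nonneg ?_ fun k _ _ => abs_nonneg _
    intro k hk
    rw [mem_image] at hk
    obtain ⟨m, hm, rfl⟩ := hk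
    rw [mem_filter, mem_Ico] at hm
    obtain ⟨⟨hm1, hm2⟩, k, rfl⟩ := hm
    rw [Nat.mul_div_cancel_left _ hp0, mem_Ico]
    have hak : a ≤ k := by
      rw [ha, Nat.div_le_iff_le_mul_add_pred hp0]
      have : p * k = k * p := mul_comm _ _
      omega
    refine ⟨hak, ?_⟩
    obtain ⟨t, rfl⟩ := Nat.exists_eq_add_of_le hak
    have h3 : p * t < v := by
      have : p * (a + t) = a * p + p * t := by ring
      omega
    have h4 : t ≤ q := by
      rw [hq, Nat.le_div_iff_mul_le (by omega)]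
      have : t * P ≤ p * t := by
        rw [mul_comm]
        exact Nat.mul_le_mul_right _ hp.le
      omega
    omega
  have hcs : (∑ k ∈ Ico a (a + l), |f k|) ^ 2 ≤ (l * L ^ 2) ^ 2 := by
    have h1 := sq_sum_le_card_mul_sum_sq (s := Ico a (a + l)) (f := fun k => |f k|)
    have h2 : ((Ico a (a + l)).card : ℝ) = l := by
      rw [Nat.card_Ico]
      simp
    have h3 : ∑ k ∈ Ico a (a + l), |f k| ^ 2 = ∑ k ∈ Ico a (a + l), f k ^ 2 :=
      sum_congr rfl fun k _ => sq_abs _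
    rw [h2, h3] at h1
    calc (∑ k ∈ Ico a (a + l), |f k|) ^ 2 ≤ l * ∑ k ∈ Ico a (a + l), f k ^ 2 := h1
      _ ≤ l * (l * L ^ 4) := mul_le_mul_of_nonneg_left hsq (Nat.cast_nonneg _)
      _ = (l * L ^ 2) ^ 2 := by ring
  have hc2 : ∑ k ∈ Ico a (a + l), |f k| ≤ l * L ^ 2 :=
    le_of_sq_le_sq hcs (by positivity)
  have hlr : (l : ℝ) ≤ (v : ℝ) / P + 1 + w0 := by
    rw [hl, hq]
    push_cast
    have : ((v / P : ℕ) : ℝ) ≤ (v : ℝ) / P := Nat.cast_div_le
    linarith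
  rw [e1]
  exact e2.trans (hc2.trans (mul_le_mul_of_nonneg_right hlr (by positivity)))

theorem fp_l1 (f : ℕ → ℝ) (P w0 X u v : ℕ) (L : ℝ) (hL : 0 ≤ L) (hP : 1 ≤ P) (hf : SqB f w0 X L)
    (hX : u + v + w0 + 2 ≤ X) :
    ∑ m ∈ Ico u (u + v), |Fp f P m| ≤ P * ((v : ℝ) / P + 1 + w0) * L ^ 2 := by
  have h1 : ∑ m ∈ Ico u (u + v), |Fp f P m| ≤
      ∑ m ∈ Ico u (u + v), ∑ p ∈ pb P, if p ∣ m then |f (m / p)| else 0 := by
    refine sum_le_sum fun m _ => ?_
    unfold Fp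
    refine (abs_sum_le_sum_abs _ _).trans (le_of_eq ?_)
    rw [sum_filter]
  rw [sum_comm] at h1
  refine h1.trans ?_
  have h2 : ∀ p ∈ pb P, (∑ m ∈ Ico u (u + v), if p ∣ m then |f (m / p)| else 0) ≤
      ((v : ℝ) / P + 1 + w0) * L ^ 2 := by
    intro p hp
    rw [← sum_filter]
    unfold Pool.Agent.H35.W.pb at hp
    rw [mem_filter, mem_Ioc] at hp
    exact FpL1_one f P w0 X u v p L hP hp.1.1 hf hX
  refine (sum_le_sum h2).trans ?_
  rw [sum_const, nsmul_eq_mul]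
  have h3 : ((pb P).card : ℝ) ≤ P := by exact_mod_cast FpL1_card P
  have h4 : 0 ≤ ((v : ℝ) / P + 1 + w0) * L ^ 2 := by positivity
  calc ((pb P).card : ℝ) * (((v : ℝ) / P + 1 + w0) * L ^ 2)
      ≤ P * (((v : ℝ) / P + 1 + w0) * L ^ 2) := mul_le_mul_of_nonneg_right h3 h4
    _ = P * ((v : ℝ) / P + 1 + w0) * L ^ 2 := by ring

end Pool.Agent.H53.MID

end

section

/-!
# PROJECT GB (MP_967f73_nt): common definitions

Goldbach up to a polylogarithmic prime factor for almost all even integers in very short intervals.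
`L = log x`, `ee(t) = exp(2 π i t)` (`Pool.Agent.H91.PK.ee`; `LSa_ee_add`, `LSa_norm_ee`, `LSa_conj_ee` in
`H91/PK/LSa.lean`).  Numbers `n' = x - k` are counted from the top `x`.

* `GG x α t z1 z2 k = ee((x-k) α + t log(x-k))` for `z1 ≤ k < z2`, `0` otherwise;
* `gG x B n' = hR ⌊L^B⌋ (x - n')` for `x/4 < n' ≤ x - 1`, `0` otherwise;
* `SR R E = ∑_{r ≤ R} μ(r)^2 c_r(E) / φ(r)^2`, the truncated singular series.
-/

set_option autoImplicit false

namespace Pool.Agent.H76.GB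

open Finset
open Pool.Agent.H91.EHA

/-- the truncated singular series -/
noncomputable def SR (R E : ℕ) : ℝ :=
  ∑ r ∈ Icc 1 R, (ArithmeticFunction.moebius r : ℝ) ^ 2 * ramS r E / (r.totient : ℝ) ^ 2

/-- logarithms are smaller than powers -/
theorem log_pow_le (s C : ℝ) (hs : 0 < s) (hC : 0 < C) (c : ℕ) :
    ∃ x0 : ℕ, ∀ x : ℕ, x0 ≤ x → C * Real.log x ^ c ≤ (x : ℝ) ^ s := by
  have h1 := (isLittleO_log_rpow_rpow_atTop (c : ℝ) hs).bound (c := 1 / C) (by positivity)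
  have h2 := h1.and (Filter.eventually_ge_atTop (1 : ℝ))
  have h3 := tendsto_natCast_atTop_atTop (R := ℝ) |>.eventually h2
  obtain ⟨x0, hx0⟩ := Filter.eventually_atTop.1 h3
  refine ⟨x0, fun x hx => ?_⟩
  obtain ⟨h4, h5⟩ := hx0 x hx
  have hl : 0 ≤ Real.log x := Real.log_nonneg h5
  have hp : (0 : ℝ) ≤ (x : ℝ) ^ s := Real.rpow_nonneg (by positivity) _
  rw [Real.rpow_natCast, Real.norm_eq_abs, Real.norm_eq_abs, abs_of_nonneg (by positivity),
    abs_of_nonneg hp] at h4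
  rw [div_mul_eq_mul_div, one_mul, le_div_iff₀ hC] at h4
  linarith

/-- logarithms are large -/
theorem log_ge (C : ℝ) : ∃ x0 : ℕ, ∀ x : ℕ, x0 ≤ x → C ≤ Real.log x := by
  have h := (Real.tendsto_log_atTop.comp (tendsto_natCast_atTop_atTop (R := ℝ))).eventually
    (Filter.eventually_ge_atTop C)
  exact Filter.eventually_atTop.1 h

end Pool.Agent.H76.GB

end

section

/-!
# MID Lfu: local Fourier uniformity of `F# = Fp (hR R) P`

`badB`: the blocks `i ∈ [N/(2H), 4N/H]` with `sup_α ‖∑_{m ∈ I_i} Fp f P m ee(-m α)‖ > H/L^A`.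
Proof.  `L = log N`, `n = N/H` (natural division), `C = 10`: `n/10 ≤ N/(2H) ≤ i ≤ 4N/H ≤ 10 n` for the `i` in the range.  `Jm = ⌈1/e1⌉` (`n ≤ N ≤ P^Jm`).
Constants in this order: `A, e1` are given; `comb (3C) Jm` gives `D, e`; `C0 = 5(A+1)+14`; `C2` = any number with `2 D L^(A+7+C0 e) ≤ L^C2` for large `L`, for example `C2 = A + 8 + C0 e`; `C1 = C0 e + 1`;
`A' = 2(A+1) + 2C1 + 3`; `ms A' C2 e1` gives `C4`; `B0 = C2`.  Let `B ≥ B0`, `R = ⌊L^B⌋`, `N` large, and let `F0` be the set of the bad `i`; suppose `|F0| > (N/H)/L^A ≥ n/L^(A+1)`.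
`K1 = N/(20 P)`... choose `K1, K2` with `K1 < N/(8P)`, `K2 ≥ 5N/P + 1`, `K2 P ≤ 16 N`, for example `K1 = N/(16 P)`, `K2 = 12 N/P` (natural division), `f = cut K1 K2 (hR R)`: for `m ∈ [N/4, 5N]` (all blocks) and
`p ∈ pb P`, `p ∣ m`: `K1 < m/p ≤ K2`, so `Fp f P m = Fp (hR R) P m`.  `α i` with `H/L^(A+1) ≤ H/L^A < ‖Bs (Fp f P) H i (α i)‖`.
`SqB f (R^4+2) (N^4) L` by `hsq B`; `w0 = R^4 + 2`: `2 w0 P L^(A+6) ≤ H` since `P^5 ≤ H`, `P ≥ N^e1`.  `base` (with `A+1`) gives `Rel 30 n P (η P)`, `η = 2 L^(A+6)/H`, `|R0| ≥ n P/L^C0`; `comb` with `δ = L^(-C0)`: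
`D η P^3 ≤ δ^e`, `D ≤ δ^e P`: clear for large `N`.  So `d ≤ D L^(C0 e) ≤ L^C2`, `T := T' H`, `|T| ≤ D η L^(C0 e) n^2 H ≤ L^C2 n^2`, `nz (α i - b/d - T/(iH)) ≤ D η L^(C0 e) ≤ L^C2/H`, `|F1| ≥ n/(D L^(C0 e)) ≥ n/L^C1`.
`contra` (`X = 60 N`, `Xf = N^4`, `a = b/d`) and `ms` (`θ = 1/(n L^(A+1+C2+3))`: `θ N ≥ H/L^(..) ≥ P L^C4` as `P^5 ≤ H`; `|T| ≤ L^C2 n^2 ≤ N^2`; `K2 ≥ N/P ≥ N^e1` since `P^5 ≤ H ≤ √N`) contradict each other:
`θ^2 (nH)^2/L^(2(A+1)+2C1+1) ≤ θ^2 N^2/L^A'`, but `n H ≥ N/2` and `L^2 > 4`.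
-/

set_option autoImplicit false

namespace Pool.Agent.H53.MID

open Finset MeasureTheory
open Pool.Agent.H91.PK (ee)
open Pool.Agent.H91.EHA (Lam hR lamR ramS)
open Pool.Agent.H35.W (pb)

open Classical in
/-- the bad blocks -/
noncomputable def badB (g : ℕ → ℝ) (N H : ℕ) (M : ℝ) : Finset ℕ :=
  (Icc (N / (2 * H)) (4 * N / H)).filter (fun i => ∃ α : ℝ, M < ‖Bs g H i α‖)

end Pool.Agent.H53.MID

end
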