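import Mathlib

/-! The parts of this file: H91.PK.Defs, H91.PK.LSa. -/

section

/-!
PROJECT PK (MP_967f73_nt): every even N >= 4 is a prime plus a number with at most 17 prime factors.
Common definitions.
-/

set_option autoImplicit false

namespace Pool.Agent.H91.PK

open Finset

/-- The weight `t (1-t)^2` on `[0,1]`. -/
noncomputable def om (t : ℝ) : ℝ := if 0 ≤ t ∧ t ≤ 1 then t * (1 - t) ^ 2 else 0

/-- The primitive characters modulo `r`. -/
noncomputable def Pch (r : ℕ) : Finset (DirichletCharacter ℂ r) :=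
  open Classical in univ.filter (fun χ => χ.IsPrimitive)

/-- The non-principal characters modulo `d`. -/
noncomputable def Nch (d : ℕ) : Finset (DirichletCharacter ℂ d) :=
  open Classical in univ.filter (fun χ => χ ≠ 1)

theorem mem_Nch {d : ℕ} {χ : DirichletCharacter ℂ d} : χ ∈ Nch d ↔ χ ≠ 1 := by
  unfold Nch; simp

/-- `e(t) = exp(2 π i t)` -/
noncomputable def ee (t : ℝ) : ℂ := Complex.exp (2 * Real.pi * t * Complex.I)

/-- Vaughan coefficient of type I. -/
noncomputable def nuV (U V a : ℕ) : ℝ :=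
  ∑ d ∈ a.divisors.filter (fun d => d ≤ V ∧ a / d ≤ U),
    (ArithmeticFunction.moebius d : ℝ) * ArithmeticFunction.vonMangoldt (a / d)

/-- Vaughan coefficient of type II. -/
noncomputable def cV (V n : ℕ) : ℝ :=
  ∑ d ∈ n.divisors.filter (fun d => V < d), (ArithmeticFunction.moebius d : ℝ)

/-- Fourier kernel of the weight. -/
noncomputable def KK (β t : ℝ) : ℂ :=
  2 / (((β : ℂ) + 1 + t * Complex.I) * ((β : ℂ) + 2 + t * Complex.I) * ((β : ℂ) + 3 + t * Complex.I))

end Pool.Agent.H91.PK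

end

section

/-!
PK LSa: the additive large sieve for Farey fractions (Gallagher's constant).

`∑_{r ≤ R} ∑_{b mod r, (b,r)=1} |∑_{K0 < n ≤ K0+K} a_n e(n b / r)|² ≤ (R² + π K) ∑ |a_n|²`.

Proof. If K = 0 both sides are 0 (resp. 0 ≤ ...).  Let c = K0 + (K+1)/2 (real) and
  S(α) = ∑_{K0<n≤K0+K} a_n e(n α),  S₁(α) = ∑ a_n e((n - c) α);  |S₁| = |S|.
Sobolev-Gallagher: for a C¹ function F : ℝ → ℂ, α real and δ > 0,
  |F(α)|² ≤ (1/δ) ∫_{α-δ/2}^{α+δ/2} |F|² + ∫_{α-δ/2}^{α+δ/2} |F| |F'|.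
  [g = |F|² (or normSq F) is C¹ with |g'| ≤ 2 |F||F'|; for t in the interval g(α) ≤ g(t) + ∫ |g'| over the
   part between t and α; averaging over t gives g(α) ≤ (1/δ)∫ g + (1/2)∫|g'| (the factor 1/2: for u in the right half
   the set of t beyond u has measure ≤ δ/2) .]
Apply it with F = S₁, δ = 1/R².  The points b/r (1 ≤ b ≤ r ≤ R, (b,r) = 1) lie in [1/R, 1], distinct ones differ by
 at least 1/(r r') ≥ 1/R² = δ, so the open intervals (b/r - δ/2, b/r + δ/2) are disjoint and contained in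
 [δ/2, 1 + δ/2] (1/R ≥ δ).  Summing: ∑ |S(b/r)|² ≤ R² ∫_{δ/2}^{1+δ/2} |S₁|² + ∫_{δ/2}^{1+δ/2} |S₁||S₁'|
  ≤ R² ‖S‖² + ‖S₁‖ ‖S₁'‖ (Cauchy-Schwarz for integrals) where over any interval of length one
  ∫|S₁|² = ∑|a_n|² and ∫|S₁'|² = ∑ |2π(n-c)|² |a_n|² ≤ (π K)² ∑|a_n|²  (|n - c| ≤ (K-1)/2).
  (Orthogonality: ∫ over an interval of length 1 of e((n-m) t) is 1 if n = m and 0 otherwise; the phases e(-c α)
   cancel in |S₁|² and one can write S₁' = e(-cα) ∑ 2πi(n-c) a_n e(nα).)
-/

set_option autoImplicit false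

namespace Pool.Agent.H91.PK

open Finset MeasureTheory intervalIntegral

/-- Sobolev-Gallagher inequality, real version. -/
theorem LSa_sobolev (g g' : ℝ → ℝ) (hg : ∀ t, HasDerivAt g (g' t) t) (hc : Continuous g')
    (α h : ℝ) (hh : 0 < h) :
    2 * h * g α ≤ ∫ t in (α - h)..(α + h), (g t + h * |g' t|) := by
  have hgc : Continuous g := continuous_iff_continuousAt.2 fun t => (hg t).continuousAt
  have i1 : ∀ a b : ℝ, IntervalIntegrable g volume a b := fun a b => hgc.intervalIntegrable a b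
  have i2 : ∀ a b : ℝ, IntervalIntegrable g' volume a b := fun a b => hc.intervalIntegrable a b
  have e1 : ∫ t in (α - h)..α, (t - (α - h)) * g' t
      = h * g α - ∫ t in (α - h)..α, g t := by
    have := integral_mul_deriv_eq_deriv_mul (a := α - h) (b := α) (u := fun t => t - (α - h))
      (u' := fun _ => 1) (v := g) (v' := g') (fun t _ => by simpa using (hasDerivAt_id t).sub_const (α - h))
      (fun t _ => hg t) (continuous_const.intervalIntegrable _ _) (i2 _ _)
    rw [this]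
    simp
  have e2 : ∫ t in α..(α + h), (t - (α + h)) * g' t
      = h * g α - ∫ t in α..(α + h), g t := by
    have := integral_mul_deriv_eq_deriv_mul (a := α) (b := α + h) (u := fun t => t - (α + h))
      (u' := fun _ => 1) (v := g) (v' := g') (fun t _ => by simpa using (hasDerivAt_id t).sub_const (α + h))
      (fun t _ => hg t) (continuous_const.intervalIntegrable _ _) (i2 _ _)
    rw [this]
    simp
  have b1 : ∫ t in (α - h)..α, (t - (α - h)) * g' t ≤ ∫ t in (α - h)..α, h * |g' t| := by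
    apply integral_mono_on (by linarith)
    · exact ((continuous_id.sub continuous_const).mul hc).intervalIntegrable _ _
    · exact (continuous_const.mul hc.abs).intervalIntegrable _ _
    · intro t ht
      have h1 : 0 ≤ t - (α - h) := by linarith [ht.1]
      have h2 : t - (α - h) ≤ h := by linarith [ht.2]
      calc (t - (α - h)) * g' t ≤ (t - (α - h)) * |g' t| :=
            mul_le_mul_of_nonneg_left (le_abs_self _) h1
        _ ≤ h * |g' t| := mul_le_mul_of_nonneg_right h2 (abs_nonneg _)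
  have b2 : ∫ t in α..(α + h), (t - (α + h)) * g' t ≤ ∫ t in α..(α + h), h * |g' t| := by
    apply integral_mono_on (by linarith)
    · exact ((continuous_id.sub continuous_const).mul hc).intervalIntegrable _ _
    · exact (continuous_const.mul hc.abs).intervalIntegrable _ _
    · intro t ht
      have h1 : 0 ≤ (α + h) - t := by linarith [ht.2]
      have h2 : (α + h) - t ≤ h := by linarith [ht.1]
      calc (t - (α + h)) * g' t = ((α + h) - t) * (- g' t) := by ring
        _ ≤ ((α + h) - t) * |g' t| := mul_le_mul_of_nonneg_left (neg_le_abs _) h1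
        _ ≤ h * |g' t| := mul_le_mul_of_nonneg_right h2 (abs_nonneg _)
  have s1 : ∫ t in (α - h)..(α + h), (g t + h * |g' t|)
      = (∫ t in (α - h)..α, g t) + (∫ t in α..(α + h), g t)
        + ((∫ t in (α - h)..α, h * |g' t|) + ∫ t in α..(α + h), h * |g' t|) := by
    have j : ∀ a b : ℝ, IntervalIntegrable (fun t => h * |g' t|) volume a b :=
      fun a b => (continuous_const.mul hc.abs).intervalIntegrable a b
    rw [integral_add (i1 _ _) (j _ _), ← integral_add_adjacent_intervals (i1 _ α) (i1 α _),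
      ← integral_add_adjacent_intervals (j _ α) (j α _)]
  rw [s1]
  linarith

/-- Sum over well spaced points. -/
theorem LSa_sum {ι : Type*} (J : Finset ι) (α : ι → ℝ) (δ x0 x1 : ℝ) (hδ : 0 < δ)
    (g g' : ℝ → ℝ) (hg : ∀ t, HasDerivAt g (g' t) t) (hc : Continuous g') (hg0 : ∀ t, 0 ≤ g t)
    (h0 : ∀ j ∈ J, x0 ≤ α j - δ / 2) (h1 : ∀ j ∈ J, α j + δ / 2 ≤ x1) (hx : x0 ≤ x1)
    (hsep : ∀ i ∈ J, ∀ j ∈ J, i ≠ j → δ ≤ |α i - α j|) :
    δ * ∑ j ∈ J, g (α j) ≤ ∫ t in x0..x1, (g t + δ / 2 * |g' t|) := by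
  have hgc : Continuous g := continuous_iff_continuousAt.2 fun t => (hg t).continuousAt
  set F : ℝ → ℝ := fun t => g t + δ / 2 * |g' t| with hF
  have hFc : Continuous F := hgc.add (continuous_const.mul hc.abs)
  have hF0 : ∀ t, 0 ≤ F t := fun t => add_nonneg (hg0 t) (mul_nonneg (by linarith) (abs_nonneg _))
  have hFi : ∀ a b : ℝ, IntegrableOn F (Set.Ioc a b) volume := fun a b =>
    (hFc.integrableOn_Icc (a := a) (b := b)).mono_set Set.Ioc_subset_Icc_self
  have key : ∀ j ∈ J, δ * g (α j) ≤ ∫ t in Set.Ioc (α j - δ / 2) (α j + δ / 2), F t := by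
    intro j _
    have := LSa_sobolev g g' hg hc (α j) (δ / 2) (by linarith)
    rw [intervalIntegral.integral_of_le (by linarith)] at this
    calc δ * g (α j) = 2 * (δ / 2) * g (α j) := by ring
      _ ≤ _ := this
  rw [Finset.mul_sum]
  refine (sum_le_sum key).trans ?_
  rw [← integral_biUnion_finset J (fun i _ => measurableSet_Ioc) ?_ (fun i _ => hFi _ _),
    intervalIntegral.integral_of_le hx]
  · apply setIntegral_mono_set (hFi _ _) (Filter.Eventually.of_forall hF0)
    apply HasSubset.Subset.eventuallyLE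
    intro t ht
    simp only [Set.mem_iUnion, Set.mem_Ioc, exists_prop] at ht
    obtain ⟨j, hj, h2, h3⟩ := ht
    exact ⟨lt_of_le_of_lt (h0 j hj) h2, h3.trans (h1 j hj)⟩
  · intro i hi j hj hij
    rw [Function.onFun, Set.disjoint_left]
    intro t ht ht'
    have hs := hsep i hi j hj hij
    rw [Set.mem_Ioc] at ht ht'
    rcases abs_cases (α i - α j) with ⟨h, _⟩ | ⟨h, _⟩ <;> rw [h] at hs <;> linarith

theorem LSa_ee_add (s t : ℝ) : ee (s + t) = ee s * ee t := by
  unfold ee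
  rw [← Complex.exp_add]
  congr 1
  push_cast
  ring

theorem LSa_norm_ee (t : ℝ) : ‖ee t‖ = 1 := by
  unfold ee
  have : (2 * Real.pi * t * Complex.I : ℂ) = ((2 * Real.pi * t : ℝ) : ℂ) * Complex.I := by
    push_cast; ring
  rw [this]
  exact Complex.norm_exp_ofReal_mul_I _

theorem LSa_conj_ee (t : ℝ) : (starRingEnd ℂ) (ee t) = ee (-t) := by
  unfold ee
  rw [← Complex.exp_conj]
  congr 1
  have h : (2 * Real.pi * t * Complex.I : ℂ) = ((2 * Real.pi * t : ℝ) : ℂ) * Complex.I := by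
    push_cast; ring
  rw [h, map_mul, Complex.conj_ofReal, Complex.conj_I]
  push_cast
  ring

theorem LSa_int_ee (x : ℝ) (k : ℤ) (hk : k ≠ 0) :
    ∫ t in x..(x + 1), ee (k * t) = 0 := by
  have hc : (2 * Real.pi * k * Complex.I : ℂ) ≠ 0 := by
    have h1 : (Real.pi : ℂ) ≠ 0 := by exact_mod_cast Real.pi_ne_zero
    have h2 : (k : ℂ) ≠ 0 := by exact_mod_cast hk
    simp [h1, h2]
  have h := integral_exp_mul_complex (a := x) (b := x + 1) hc
  have h3 : ∀ t : ℝ, ee (k * t) = Complex.exp ((2 * Real.pi * k * Complex.I) * t) := by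
    intro t
    unfold ee
    congr 1
    push_cast
    ring
  simp_rw [h3]
  rw [h, div_eq_zero_iff]
  left
  have h4 : (2 * Real.pi * k * Complex.I : ℂ) * ((x + 1 : ℝ) : ℂ)
      = (2 * Real.pi * k * Complex.I) * x + k * (2 * Real.pi * Complex.I) := by
    push_cast; ring
  rw [h4, Complex.exp_add, Complex.exp_int_mul_two_pi_mul_I, mul_one, sub_self]

/-- Parseval over an interval of length one. -/
theorem LSa_parseval (s : Finset ℕ) (b : ℕ → ℂ) (c x : ℝ) :
    ∫ t in x..(x + 1), ‖∑ n ∈ s, b n * ee (((n : ℝ) - c) * t)‖ ^ 2 = ∑ n ∈ s, ‖b n‖ ^ 2 := by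
  have hc : ∀ y : ℝ, Continuous fun t : ℝ => ee (y * t) := by
    intro y
    unfold ee
    fun_prop
  have h1 : ∀ t : ℝ, ((‖∑ n ∈ s, b n * ee (((n : ℝ) - c) * t)‖ ^ 2 : ℝ) : ℂ)
      = ∑ n ∈ s, ∑ m ∈ s, (b n * (starRingEnd ℂ) (b m)) * ee ((((n : ℤ) - (m : ℤ) : ℤ) : ℝ) * t) := by
    intro t
    push_cast
    rw [← Complex.mul_conj', map_sum, Finset.sum_mul_sum]
    refine sum_congr rfl fun n _ => sum_congr rfl fun m _ => ?_
    rw [map_mul, LSa_conj_ee]
    have : ee (((n : ℝ) - (m : ℝ)) * t)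
        = ee (((n : ℝ) - c) * t) * ee (-(((m : ℝ) - c) * t)) := by
      rw [← LSa_ee_add]; congr 1; ring
    rw [this]
    ring
  have h2 : ((∫ t in x..(x + 1), ‖∑ n ∈ s, b n * ee (((n : ℝ) - c) * t)‖ ^ 2 : ℝ) : ℂ)
      = ((∑ n ∈ s, ‖b n‖ ^ 2 : ℝ) : ℂ) := by
    rw [← intervalIntegral.integral_ofReal]
    simp_rw [h1]
    rw [intervalIntegral.integral_finsetSum]
    · rw [Complex.ofReal_sum]
      refine sum_congr rfl fun n hn => ?_
      rw [intervalIntegral.integral_finsetSum]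
      · rw [Finset.sum_eq_single n]
        · rw [intervalIntegral.integral_const_mul]
          have : ∀ t : ℝ, ee ((((n : ℤ) - (n : ℤ) : ℤ) : ℝ) * t) = 1 := by
            intro t; simp [ee]
          simp_rw [this]
          rw [Complex.mul_conj']
          simp
        · intro m _ hmn
          rw [intervalIntegral.integral_const_mul, LSa_int_ee _ _ (by omega), mul_zero]
        · intro h; exact absurd hn h
      · intro m _
        exact (continuous_const.mul (hc _)).intervalIntegrable _ _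
    · intro n _
      refine (continuous_finsetSum _ fun m _ => continuous_const.mul (hc _)).intervalIntegrable _ _
  exact_mod_cast h2

theorem LSa_hasDeriv (y t : ℝ) :
    HasDerivAt (fun t : ℝ => ee (y * t)) ((2 * Real.pi * y * Complex.I) * ee (y * t)) t := by
  have h1 : HasDerivAt (fun t : ℝ => (2 * Real.pi * y * Complex.I : ℂ) * ((t : ℝ) : ℂ))
      ((2 * Real.pi * y * Complex.I : ℂ) * 1) t :=
    (Complex.ofRealCLM.hasDerivAt (x := t)).const_mul _
  have h2 := h1.cexp
  have h3 : ∀ t : ℝ, ee (y * t) = Complex.exp ((2 * Real.pi * y * Complex.I : ℂ) * ((t : ℝ) : ℂ)) := by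
    intro t
    unfold ee
    congr 1
    push_cast
    ring
  have h4 : (fun t : ℝ => ee (y * t))
      = fun t : ℝ => Complex.exp ((2 * Real.pi * y * Complex.I : ℂ) * ((t : ℝ) : ℂ)) := funext h3
  rw [h4, h3 t]
  convert h2 using 1
  ring

theorem additive_ls (R : ℕ) (K0 K : ℕ) (a : ℕ → ℂ) :
    ∑ r ∈ Icc 1 R, ∑ b ∈ (Icc 1 r).filter (fun b => Nat.Coprime b r),
      ‖∑ n ∈ Ioc K0 (K0 + K), a n * ee ((n : ℝ) * b / r)‖ ^ 2
      ≤ ((R : ℝ) ^ 2 + Real.pi * K) * ∑ n ∈ Ioc K0 (K0 + K), ‖a n‖ ^ 2 := by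
  rcases Nat.eq_zero_or_pos K with rfl | hK
  · simp
  rcases Nat.eq_zero_or_pos R with rfl | hR
  · simp only [Nat.lt_one_iff, pos_of_gt, Icc_eq_empty_of_lt, sum_empty]
    have : 0 ≤ ∑ n ∈ Ioc K0 (K0 + K), ‖a n‖ ^ 2 := sum_nonneg fun _ _ => by positivity
    have hp := Real.pi_pos
    positivity
  have hKr : (1 : ℝ) ≤ K := by exact_mod_cast hK
  have hRr : (1 : ℝ) ≤ R := by exact_mod_cast hR
  have hpi := Real.pi_pos
  set c : ℝ := K0 + ((K : ℝ) + 1) / 2 with hcdef
  set s : Finset ℕ := Ioc K0 (K0 + K) with hs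
  set A : ℝ := ∑ n ∈ s, ‖a n‖ ^ 2 with hA
  have hA0 : 0 ≤ A := sum_nonneg fun _ _ => by positivity
  set S : ℝ → ℂ := fun t => ∑ n ∈ s, a n * ee (((n : ℝ) - c) * t) with hS
  set b' : ℕ → ℂ := fun n => a n * (2 * Real.pi * ((((n : ℝ) - c : ℝ)) : ℂ) * Complex.I) with hb'
  set S' : ℝ → ℂ := fun t => ∑ n ∈ s, b' n * ee (((n : ℝ) - c) * t) with hS'
  have hSd : ∀ t, HasDerivAt S (S' t) t := by
    intro t
    have := HasDerivAt.fun_sum (u := s) (A := fun n t => a n * ee (((n : ℝ) - c) * t))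
      (A' := fun n => b' n * ee (((n : ℝ) - c) * t)) (x := t) (fun n _ => by
        have h := (LSa_hasDeriv ((n : ℝ) - c) t).const_mul (a n)
        have e : b' n * ee (((n : ℝ) - c) * t)
            = a n * ((2 * Real.pi * ((((n : ℝ) - c : ℝ)) : ℂ) * Complex.I) * ee (((n : ℝ) - c) * t)) := by
          rw [hb']; ring
        rw [e]
        exact h)
    exact this
  have hcont : ∀ y : ℝ, Continuous fun t : ℝ => ee (y * t) := by
    intro y
    unfold ee
    fun_prop
  have hSc : Continuous S := continuous_finsetSum _ fun n _ => continuous_const.mul (hcont _)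
  have hSc' : Continuous S' := continuous_finsetSum _ fun n _ => continuous_const.mul (hcont _)
  set g : ℝ → ℝ := fun t => ‖S t‖ ^ 2 with hg
  set g' : ℝ → ℝ := fun t => 2 * @inner ℝ ℂ _ (S t) (S' t) with hg'
  have hgd : ∀ t, HasDerivAt g (g' t) t := fun t => (hSd t).norm_sq
  have hgc' : Continuous g' := continuous_const.mul (hSc.inner hSc')
  set δ : ℝ := 1 / (R : ℝ) ^ 2 with hδ
  have hδ0 : 0 < δ := by positivity
  -- the points
  set J : Finset (Σ _ : ℕ, ℕ) :=
    (Icc 1 R).sigma (fun r => (Icc 1 r).filter (fun b => Nat.Coprime b r)) with hJ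
  have hmem : ∀ j ∈ J, 1 ≤ j.1 ∧ j.1 ≤ R ∧ 1 ≤ j.2 ∧ j.2 ≤ j.1 ∧ Nat.Coprime j.2 j.1 := by
    intro j hj
    rw [hJ, mem_sigma, mem_Icc, mem_filter, mem_Icc] at hj
    exact ⟨hj.1.1, hj.1.2, hj.2.1.1, hj.2.1.2, hj.2.2⟩
  have hsep : ∀ i ∈ J, ∀ j ∈ J, i ≠ j → δ ≤ |(i.2 : ℝ) / i.1 - (j.2 : ℝ) / j.1| := by
    rintro ⟨r, b⟩ hi ⟨q, d⟩ hj hne
    obtain ⟨r1, r2, b1, b2, b3⟩ := hmem _ hi
    obtain ⟨q1, q2, d1, d2, d3⟩ := hmem _ hj
    simp only at r1 r2 b1 b2 b3 q1 q2 d1 d2 d3 ⊢
    have hr0 : (0 : ℝ) < r := by exact_mod_cast r1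
    have hq0 : (0 : ℝ) < q := by exact_mod_cast q1
    have hne' : (b : ℤ) * q - d * r ≠ 0 := by
      intro h0
      have h1 : b * q = d * r := by
        have : (b : ℤ) * q = d * r := by linarith
        exact_mod_cast this
      have h2 : r ∣ q := by
        have : r ∣ b * q := ⟨d, by rw [h1]; ring⟩
        exact (Nat.Coprime.dvd_mul_left b3.symm).1 this
      have h3 : q ∣ r := by
        have : q ∣ d * r := ⟨b, by rw [← h1]; ring⟩
        exact (Nat.Coprime.dvd_mul_left d3.symm).1 this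
      have h4 : r = q := Nat.dvd_antisymm h2 h3
      subst h4
      have h5 : b = d := Nat.eq_of_mul_eq_mul_right r1 h1
      subst h5
      exact hne rfl
    have h6 : (1 : ℝ) ≤ |(b : ℝ) * q - d * r| := by
      have : (1 : ℤ) ≤ |(b : ℤ) * q - d * r| := Int.one_le_abs hne'
      exact_mod_cast this
    have h7 : (b : ℝ) / r - (d : ℝ) / q = ((b : ℝ) * q - d * r) / (r * q) := by
      field_simp
    rw [h7, abs_div, abs_of_pos (mul_pos hr0 hq0), hδ]
    have h8 : (r : ℝ) * q ≤ (R : ℝ) ^ 2 := by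
      have h9 : (r : ℝ) ≤ R := by exact_mod_cast r2
      have h10 : (q : ℝ) ≤ R := by exact_mod_cast q2
      nlinarith
    apply div_le_div₀ (by positivity) h6 (mul_pos hr0 hq0) h8
  have hδ1 : δ ≤ 1 / R := by
    rw [hδ]
    apply one_div_le_one_div_of_le (by positivity)
    nlinarith
  have main := LSa_sum J (fun j => (j.2 : ℝ) / j.1) δ (δ / 2) (δ / 2 + 1) hδ0 g g' hgd hgc'
    (fun t => by positivity)
    (fun j hj => by
      obtain ⟨r1, r2, b1, b2, b3⟩ := hmem j hj
      have hr0 : (0 : ℝ) < j.1 := by exact_mod_cast r1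
      have h1 : 1 / (R : ℝ) ≤ (j.2 : ℝ) / j.1 := by
        apply div_le_div₀ (by positivity) (by exact_mod_cast b1) hr0 (by exact_mod_cast r2)
      show δ / 2 ≤ (j.2 : ℝ) / j.1 - δ / 2
      linarith)
    (fun j hj => by
      obtain ⟨r1, r2, b1, b2, b3⟩ := hmem j hj
      have hr0 : (0 : ℝ) < j.1 := by exact_mod_cast r1
      have h1 : (j.2 : ℝ) / j.1 ≤ 1 := by
        rw [div_le_one hr0]; exact_mod_cast b2
      show (j.2 : ℝ) / j.1 + δ / 2 ≤ δ / 2 + 1
      linarith) (by linarith) hsep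
  -- bound of the integral
  have hint : ∫ t in (δ / 2)..(δ / 2 + 1), (g t + δ / 2 * |g' t|) ≤ A + δ * (Real.pi * K * A) := by
    have hP1 := LSa_parseval s a c (δ / 2)
    have hP2 := LSa_parseval s b' c (δ / 2)
    have hB : ∑ n ∈ s, ‖b' n‖ ^ 2 ≤ (Real.pi * K) ^ 2 * A := by
      rw [hA, Finset.mul_sum]
      apply sum_le_sum
      intro n hn
      rw [hs, mem_Ioc] at hn
      have h1 : |(n : ℝ) - c| ≤ K / 2 := by
        have h2 : (K0 : ℝ) + 1 ≤ n := by exact_mod_cast hn.1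
        have h3 : (n : ℝ) ≤ K0 + K := by exact_mod_cast hn.2
        rw [hcdef, abs_le]
        constructor <;> linarith
      rw [hb']
      simp only
      have h4 : ‖(2 * Real.pi * ((((n : ℝ) - c : ℝ)) : ℂ) * Complex.I : ℂ)‖ = 2 * Real.pi * |(n : ℝ) - c| := by
        rw [norm_mul, norm_mul, norm_mul, Complex.norm_I, Complex.norm_real, Complex.norm_real,
          Real.norm_of_nonneg hpi.le, Real.norm_eq_abs]
        simp
      rw [norm_mul, h4, mul_pow, mul_comm]
      apply mul_le_mul_of_nonneg_right _ (by positivity)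
      apply pow_le_pow_left₀ (by positivity)
      nlinarith
    have hpt : ∀ t, g t + δ / 2 * |g' t|
        ≤ (1 + δ * (Real.pi * K) / 2) * ‖S t‖ ^ 2 + (δ / (2 * (Real.pi * K))) * ‖S' t‖ ^ 2 := by
      intro t
      have h1 : |g' t| ≤ 2 * (‖S t‖ * ‖S' t‖) := by
        rw [hg']
        simp only
        rw [abs_mul, abs_two]
        exact mul_le_mul_of_nonneg_left (abs_real_inner_le_norm _ _) (by norm_num)
      have hp : 0 < Real.pi * K := by positivity
      have h2 : ‖S t‖ * ‖S' t‖ ≤ (Real.pi * K) / 2 * ‖S t‖ ^ 2 + 1 / (2 * (Real.pi * K)) * ‖S' t‖ ^ 2 := by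
        have h3 : 0 ≤ (Real.pi * K * ‖S t‖ - ‖S' t‖) ^ 2 / (2 * (Real.pi * K)) := by positivity
        have h4 : (Real.pi * K * ‖S t‖ - ‖S' t‖) ^ 2 / (2 * (Real.pi * K))
            = (Real.pi * K) / 2 * ‖S t‖ ^ 2 + 1 / (2 * (Real.pi * K)) * ‖S' t‖ ^ 2 - ‖S t‖ * ‖S' t‖ := by
          field_simp
          ring
        linarith
      have h5 : δ / 2 * |g' t| ≤ δ * (‖S t‖ * ‖S' t‖) := by
        calc δ / 2 * |g' t| ≤ δ / 2 * (2 * (‖S t‖ * ‖S' t‖)) :=
              mul_le_mul_of_nonneg_left h1 (by positivity)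
          _ = _ := by ring
      have h6 := mul_le_mul_of_nonneg_left h2 hδ0.le
      have h7 : g t = ‖S t‖ ^ 2 := rfl
      rw [h7]
      calc ‖S t‖ ^ 2 + δ / 2 * |g' t| ≤ ‖S t‖ ^ 2
            + δ * ((Real.pi * K) / 2 * ‖S t‖ ^ 2 + 1 / (2 * (Real.pi * K)) * ‖S' t‖ ^ 2) := by linarith
        _ = _ := by
          field_simp
          ring
    have hgc : Continuous g := (hSc.norm).pow 2
    have hgc2 : Continuous fun t => ‖S' t‖ ^ 2 := (hSc'.norm).pow 2
    calc ∫ t in (δ / 2)..(δ / 2 + 1), (g t + δ / 2 * |g' t|)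
        ≤ ∫ t in (δ / 2)..(δ / 2 + 1), ((1 + δ * (Real.pi * K) / 2) * ‖S t‖ ^ 2
            + (δ / (2 * (Real.pi * K))) * ‖S' t‖ ^ 2) := by
          apply integral_mono_on (by linarith)
          · exact (hgc.add (continuous_const.mul hgc'.abs)).intervalIntegrable _ _
          · exact ((continuous_const.mul hgc).add (continuous_const.mul hgc2)).intervalIntegrable _ _
          · intro t _; exact hpt t
      _ = (1 + δ * (Real.pi * K) / 2) * A + (δ / (2 * (Real.pi * K))) * ∑ n ∈ s, ‖b' n‖ ^ 2 := by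
          rw [intervalIntegral.integral_add
            (f := fun t => (1 + δ * (Real.pi * K) / 2) * ‖S t‖ ^ 2)
            (g := fun t => (δ / (2 * (Real.pi * K))) * ‖S' t‖ ^ 2)
            ((continuous_const.mul hgc).intervalIntegrable _ _)
            ((continuous_const.mul hgc2).intervalIntegrable _ _),
            intervalIntegral.integral_const_mul, intervalIntegral.integral_const_mul]
          rw [← hP2, hA, ← hP1]
      _ ≤ (1 + δ * (Real.pi * K) / 2) * A
            + (δ / (2 * (Real.pi * K))) * ((Real.pi * K) ^ 2 * A) := by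
          have : 0 ≤ δ / (2 * (Real.pi * K)) := by positivity
          have := mul_le_mul_of_nonneg_left hB this
          linarith
      _ = A + δ * (Real.pi * K * A) := by
          field_simp
          ring
  have hsum : ∑ j ∈ J, g ((j.2 : ℝ) / j.1)
      = ∑ r ∈ Icc 1 R, ∑ b ∈ (Icc 1 r).filter (fun b => Nat.Coprime b r),
      ‖∑ n ∈ s, a n * ee ((n : ℝ) * b / r)‖ ^ 2 := by
    rw [hJ, sum_sigma]
    refine sum_congr rfl fun r _ => sum_congr rfl fun b _ => ?_
    show ‖∑ n ∈ s, a n * ee (((n : ℝ) - c) * ((b : ℝ) / r))‖ ^ 2 = _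
    have h1 : ∑ n ∈ s, a n * ee (((n : ℝ) - c) * ((b : ℝ) / r))
        = (∑ n ∈ s, a n * ee ((n : ℝ) * b / r)) * ee (-(c * ((b : ℝ) / r))) := by
      rw [Finset.sum_mul]
      refine sum_congr rfl fun n _ => ?_
      rw [mul_assoc, ← LSa_ee_add]
      congr 2
      ring
    rw [h1, norm_mul, LSa_norm_ee, mul_one]
  rw [← hsum]
  have h1 : δ * ∑ j ∈ J, g ((j.2 : ℝ) / j.1) ≤ δ * (((R : ℝ) ^ 2 + Real.pi * K) * A) := by
    calc δ * ∑ j ∈ J, g ((j.2 : ℝ) / j.1) ≤ A + δ * (Real.pi * K * A) := main.trans hint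
      _ = δ * (((R : ℝ) ^ 2 + Real.pi * K) * A) := by
        rw [hδ]
        field_simp
  exact le_of_mul_le_mul_left h1 hδ0

end Pool.Agent.H91.PK

end
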