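import Pool.Agent.H43.PJ.M01
import Pool.Agent.H43.PJ.M02

/-! The parts of this file: H88.PSI.Defs, H88.PSI.Dpm, H88.PSI.Mvt. -/

section

/-!
# PROJECT PSI (MP_967f73_nt): primes in almost all short intervals, in residue classes

THEOREM (`Hux.lean` / `Blk.lean`): for `X^(1/6+e) ≤ H ≤ X^(1/3)`, `d ≤ (log X)^B`, `(u, d) = 1`,
`∑_{X ≤ x < 2X} |∑_{x < n ≤ x+H, n ≡ u (d)} Λ(n) - H/φ(d)|^2 ≤ X H^2/(log X)^A`.

`L = log X`; `ee t = exp(2 π i t)` (`Pool.Agent.H91.PK.ee`).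

* `W f H x` = sum of `f` over the window `(x, x+H]`, `D f H H1 x` = average over the short window minus
  average over the long window;
* `DP f N t = ∑_{n ≤ N} f(n) n^{2 π i t}`;
* `kf k` for `k = 0, 1, 2` is `1`, `log`, `μ`; `seg k a b` = `kf k` on `[a, b)`, `hi k Y` = `kf k` on `[Y, ∞)`,
  `pc k j = seg k (2^j) (2^(j+1))`, `lot k y w` = `kf k` on `[1, 2^y)` (`k = 0, 1`) or `[1, 2^w)` (`k = 2`);
* `Tp κ y w = ∏ i, lot (κ i) y w` (Dirichlet convolution);
* `tw χ f n = f(n) χ(n)`, `cl d u f n = f(n)` if `n ≡ u (d)`, `0` otherwise.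
-/

set_option autoImplicit false

namespace Pool.Agent.H88.PSI

open Finset MeasureTheory
open Pool.Agent.H91.PK (ee)

/-- the sum of `f` over the window `(x, x + H]` -/
noncomputable def W (f : ℕ → ℂ) (H x : ℕ) : ℂ := ∑ n ∈ Ioc x (x + H), f n

/-- the average over the short window minus the average over the long window -/
noncomputable def D (f : ℕ → ℂ) (H H1 x : ℕ) : ℂ := W f H x / H - W f H1 x / H1

/-- the Dirichlet polynomial `∑_{n ≤ N} f(n) n^{2 π i t}` -/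
noncomputable def DP (f : ℕ → ℂ) (N : ℕ) (t : ℝ) : ℂ :=
  ∑ n ∈ Icc 1 N, f n * ee (t * Real.log n)

/-- the second moment `∑_{n ≤ N} |f(n)|^2` -/
noncomputable def SS (f : ℕ → ℂ) (N : ℕ) : ℝ := ∑ n ∈ Icc 1 N, ‖f n‖ ^ 2

/-- the number of divisors -/
noncomputable def tau (n : ℕ) : ℝ := (n.divisors.card : ℝ)

/-- `1`, `log`, `μ` -/
noncomputable def kf (k : Fin 3) (n : ℕ) : ℝ :=
  if k = 0 then 1 else if k = 1 then Real.log n else ((ArithmeticFunction.moebius n : ℤ) : ℝ)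

/-- `kf k` on `[a, b)` -/
noncomputable def seg (k : Fin 3) (a b : ℕ) : ArithmeticFunction ℝ :=
  ⟨fun n => if n ≠ 0 ∧ a ≤ n ∧ n < b then kf k n else 0, by simp⟩

/-- `kf k` on `[Y, ∞)` -/
noncomputable def hi (k : Fin 3) (Y : ℕ) : ArithmeticFunction ℝ :=
  ⟨fun n => if n ≠ 0 ∧ Y ≤ n then kf k n else 0, by simp⟩

/-- a dyadic piece of `kf k` -/
noncomputable def pc (k : Fin 3) (j : ℕ) : ArithmeticFunction ℝ := seg k (2 ^ j) (2 ^ (j + 1))

/-- the exponent of the upper end of the range of a variable of kind `k` -/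
def top (k : Fin 3) (y w : ℕ) : ℕ := if k = 2 then w else y

/-- the truncated function of kind `k` -/
noncomputable def lot (k : Fin 3) (y w : ℕ) : ArithmeticFunction ℝ := seg k 1 (2 ^ top k y w)

/-- a product of truncated functions -/
noncomputable def Tp {r : ℕ} (κ : Fin r → Fin 3) (y w : ℕ) : ArithmeticFunction ℝ :=
  ∏ i, lot (κ i) y w

/-- a product of dyadic pieces -/
noncomputable def Pp {r : ℕ} (κ : Fin r → Fin 3) (j : Fin r → ℕ) : ArithmeticFunction ℝ :=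
  ∏ i, pc (κ i) (j i)

/-- the kinds of the variables in the second term of the Heath-Brown identity -/
def k4 : Fin 4 → Fin 3 := ![1, 0, 2, 2]

/-- the kinds of the variables in the third term of the Heath-Brown identity -/
def k6 : Fin 6 → Fin 3 := ![1, 0, 0, 2, 2, 2]

/-- the coefficients of type I with a logarithm in the smooth variable -/
noncomputable def cA (w : ℕ) : ArithmeticFunction ℝ :=
  (3 : ℝ) • seg 2 1 (2 ^ w) - (3 : ℝ) • (hi 0 1 * seg 2 1 (2 ^ w) ^ 2)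
    + hi 0 1 ^ 2 * seg 2 1 (2 ^ w) ^ 3

/-- the coefficients of type I without a logarithm in the smooth variable -/
noncomputable def cB (y w : ℕ) : ArithmeticFunction ℝ :=
  seg 1 1 (2 ^ y) * (hi 0 1 + seg 0 1 (2 ^ y)) * seg 2 1 (2 ^ w) ^ 3
    - (3 : ℝ) • (seg 1 1 (2 ^ y) * seg 2 1 (2 ^ w) ^ 2)

/-- the von Mangoldt function -/
noncomputable def La : ArithmeticFunction ℝ := ArithmeticFunction.vonMangoldt

/-- twist by a character -/
noncomputable def tw {d : ℕ} (χ : DirichletCharacter ℂ d) (f : ArithmeticFunction ℝ) :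
    ArithmeticFunction ℂ :=
  ⟨fun n => ((f n : ℝ) : ℂ) * χ (n : ZMod d), by simp⟩

/-- restriction to a residue class -/
noncomputable def cl (d u : ℕ) (f : ArithmeticFunction ℝ) (n : ℕ) : ℂ :=
  if n % d = u % d then ((f n : ℝ) : ℂ) else 0

/-- the number of multiples of `m` in the window in the class `u` modulo `d` -/
noncomputable def cnt (d u H m x : ℕ) : ℝ :=
  (((Ioc x (x + H)).filter (fun n => m ∣ n ∧ n % d = u % d)).card : ℝ)

/-- the error term of `cnt` for `(m, d) = 1` -/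
noncomputable def em (d u H m x : ℕ) : ℝ := cnt d u H m x - H / (m * d)

/-- the kernel `∑_{j ≤ H} ee(j θ)` -/
noncomputable def dk (H : ℕ) (θ : ℝ) : ℂ := ∑ j ∈ Icc 1 H, ee (j * θ)

/-- the main term of type I for the cut `k` -/
noncomputable def Bk (a : ℕ → ℝ) (d k x : ℕ) : ℝ :=
  1 / (d : ℝ) * ∑ m ∈ (Icc 1 (x / k)).filter (fun m => Nat.Coprime m d), a m / m

/-- the difference of the two window averages in the logarithmic variable -/
noncomputable def Gw (f : ℕ → ℂ) (N : ℕ) (hs hl H H1 u : ℝ) : ℂ :=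
  ∑ n ∈ Icc 1 N, f n *
    (((if u < Real.log n ∧ Real.log n ≤ u + hs then 1 / H else 0)
      - (if u < Real.log n ∧ Real.log n ≤ u + hl then 1 / H1 else 0) : ℝ) : ℂ)

end Pool.Agent.H88.PSI

end

section

/-!
# PSI Dpm: multiplicativity of the Dirichlet polynomials and of the twist

`ee (t log (m n)) = ee (t log m) ee (t log n)`, `(f * g)(n) = ∑_{ab = n} f(a) g(b)`; a pair `(a, b)` with
`f a ≠ 0`, `g b ≠ 0` has `1 ≤ a ≤ N`, `1 ≤ b ≤ M`.
-/

set_option autoImplicit false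

namespace Pool.Agent.H88.PSI

open Finset

private theorem Dpm_ee_add (x y : ℝ) : Pool.Agent.H91.PK.ee (x + y) = Pool.Agent.H91.PK.ee x * Pool.Agent.H91.PK.ee y := by
  unfold Pool.Agent.H91.PK.ee
  rw [← Complex.exp_add]
  congr 1
  push_cast
  ring

private theorem Dpm_norm_ee (x : ℝ) : ‖Pool.Agent.H91.PK.ee x‖ = 1 := by
  unfold Pool.Agent.H91.PK.ee
  have h1 : 2 * (Real.pi : ℂ) * (x : ℂ) * Complex.I = ((2 * Real.pi * x : ℝ) : ℂ) * Complex.I := by
    push_cast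
    ring
  rw [h1, Complex.norm_exp_ofReal_mul_I]

private theorem Dpm_supp {f g : ArithmeticFunction ℂ} {N M : ℕ} (hf : ∀ n, f n ≠ 0 → n ≤ N)
    (hg : ∀ n, g n ≠ 0 → n ≤ M) (n : ℕ) (h : (f * g) n ≠ 0) : n ≤ N * M := by
  rw [ArithmeticFunction.mul_apply] at h
  obtain ⟨p, hp, hne⟩ := Finset.exists_ne_zero_of_sum_ne_zero h
  rw [Nat.mem_divisorsAntidiagonal] at hp
  rw [← hp.1]
  exact Nat.mul_le_mul (hf _ (left_ne_zero_of_mul hne)) (hg _ (right_ne_zero_of_mul hne))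

theorem dp_mul (f g : ArithmeticFunction ℂ) (N M : ℕ) (hf : ∀ n, f n ≠ 0 → n ≤ N)
    (hg : ∀ n, g n ≠ 0 → n ≤ M) (t : ℝ) :
    DP (⇑(f * g)) (N * M) t = DP f N t * DP g M t := by
  classical
  unfold DP
  rw [Finset.sum_mul_sum, ← Finset.sum_product']
  rw [← Finset.sum_fiberwise_of_maps_to (s := Icc 1 N ×ˢ Icc 1 M) (t := Icc 1 (N * M))
    (g := fun p => p.1 * p.2)]
  · refine Finset.sum_congr rfl fun n hn => ?_
    rw [Finset.mem_Icc] at hn
    rw [ArithmeticFunction.mul_apply, Finset.sum_mul]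
    symm
    refine (Finset.sum_subset (fun p hp => ?_) fun p hp hp' => ?_).trans
      (Finset.sum_congr rfl fun p hp => ?_)
    · rw [Finset.mem_filter, Finset.mem_product, Finset.mem_Icc, Finset.mem_Icc] at hp
      rw [Nat.mem_divisorsAntidiagonal]
      exact ⟨hp.2, by omega⟩
    · rw [Nat.mem_divisorsAntidiagonal] at hp
      rw [Finset.mem_filter, Finset.mem_product, Finset.mem_Icc, Finset.mem_Icc] at hp'
      have h1 : 1 ≤ p.1 := by
        rcases Nat.eq_zero_or_pos p.1 with h | h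
        · rw [h, zero_mul] at hp
          omega
        · exact h
      have h2 : 1 ≤ p.2 := by
        rcases Nat.eq_zero_or_pos p.2 with h | h
        · rw [h, mul_zero] at hp
          omega
        · exact h
      by_cases h3 : f p.1 = 0
      · rw [h3]
        ring
      · by_cases h4 : g p.2 = 0
        · rw [h4]
          ring
        · exact absurd ⟨⟨⟨h1, hf _ h3⟩, ⟨h2, hg _ h4⟩⟩, hp.1⟩ hp'
    · rw [Nat.mem_divisorsAntidiagonal] at hp
      have h1 : p.1 ≠ 0 := by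
        intro h
        rw [h, zero_mul] at hp
        omega
      have h2 : p.2 ≠ 0 := by
        intro h
        rw [h, mul_zero] at hp
        omega
      rw [← hp.1, Nat.cast_mul, Real.log_mul (by exact_mod_cast h1) (by exact_mod_cast h2),
        mul_add, Dpm_ee_add]
      ring
  · intro p hp
    rw [Finset.mem_product, Finset.mem_Icc, Finset.mem_Icc] at hp
    rw [Finset.mem_Icc]
    exact ⟨Nat.mul_pos hp.1.1 hp.2.1, Nat.mul_le_mul hp.1.2 hp.2.2⟩

private theorem Dpm_one (t : ℝ) : DP (⇑(1 : ArithmeticFunction ℂ)) 1 t = 1 := by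
  unfold DP
  have h1 : Pool.Agent.H91.PK.ee 0 = 1 := by
    unfold Pool.Agent.H91.PK.ee
    simp
  simp [h1]

private theorem Dpm_pow_supp (f : ArithmeticFunction ℂ) (N k : ℕ) (hf : ∀ n, f n ≠ 0 → n ≤ N) :
    ∀ n, (f ^ k) n ≠ 0 → n ≤ N ^ k := by
  induction k with
  | zero =>
    intro n hn
    rw [pow_zero] at hn ⊢
    by_contra hcon
    exact hn (ArithmeticFunction.one_apply_ne (by omega))
  | succ k ih =>
    intro n hn
    rw [pow_succ] at hn ⊢
    exact Dpm_supp ih hf n hn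

theorem dp_pow (f : ArithmeticFunction ℂ) (N k : ℕ) (hf : ∀ n, f n ≠ 0 → n ≤ N) (t : ℝ) :
    DP (⇑(f ^ k)) (N ^ k) t = DP f N t ^ k := by
  induction k with
  | zero => simpa using Dpm_one t
  | succ k ih =>
    rw [pow_succ, pow_succ, dp_mul _ _ _ _ (Dpm_pow_supp f N k hf) hf, ih, pow_succ]

private theorem Dpm_prod_supp {ι : Type*} [DecidableEq ι] (s : Finset ι)
    (f : ι → ArithmeticFunction ℂ) (N : ι → ℕ) (hf : ∀ i ∈ s, ∀ n, f i n ≠ 0 → n ≤ N i) :
    ∀ n, (∏ i ∈ s, f i) n ≠ 0 → n ≤ ∏ i ∈ s, N i := by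
  induction s using Finset.induction_on with
  | empty =>
    intro n hn
    rw [Finset.prod_empty] at hn ⊢
    by_contra hcon
    exact hn (ArithmeticFunction.one_apply_ne (by omega))
  | insert a s ha ih =>
    intro n hn
    rw [Finset.prod_insert ha] at hn ⊢
    exact Dpm_supp (hf a (Finset.mem_insert_self a s))
      (ih fun i hi => hf i (Finset.mem_insert_of_mem hi)) n hn

theorem dp_prod {ι : Type*} [DecidableEq ι] (s : Finset ι) (f : ι → ArithmeticFunction ℂ) (N : ι → ℕ)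
    (hf : ∀ i ∈ s, ∀ n, f i n ≠ 0 → n ≤ N i) (t : ℝ) :
    DP (⇑(∏ i ∈ s, f i)) (∏ i ∈ s, N i) t = ∏ i ∈ s, DP (f i) (N i) t := by
  induction s using Finset.induction_on with
  | empty => simpa using Dpm_one t
  | insert a s ha ih =>
    have h1 : ∀ i ∈ s, ∀ n, f i n ≠ 0 → n ≤ N i := fun i hi => hf i (Finset.mem_insert_of_mem hi)
    rw [Finset.prod_insert ha, Finset.prod_insert ha, Finset.prod_insert ha,
      dp_mul _ _ _ _ (hf a (Finset.mem_insert_self a s)) (Dpm_prod_supp s f N h1), ih h1]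

theorem dp_cont (f : ℕ → ℂ) (N : ℕ) : Continuous (DP f N) := by
  have h1 : DP f N = fun t => ∑ n ∈ Icc 1 N, f n * Pool.Agent.H91.PK.ee (t * Real.log n) := rfl
  rw [h1]
  refine continuous_finsetSum _ fun n _ => continuous_const.mul ?_
  unfold Pool.Agent.H91.PK.ee
  fun_prop

theorem dp_norm_le (f : ℕ → ℂ) (N : ℕ) (t : ℝ) : ‖DP f N t‖ ≤ ∑ n ∈ Icc 1 N, ‖f n‖ := by
  unfold DP
  refine (norm_sum_le _ _).trans (Finset.sum_le_sum fun n _ => ?_)
  rw [norm_mul, Dpm_norm_ee, mul_one]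

theorem tw_mul {d : ℕ} (χ : DirichletCharacter ℂ d) (f g : ArithmeticFunction ℝ) :
    tw χ (f * g) = tw χ f * tw χ g := by
  ext n
  rw [ArithmeticFunction.mul_apply]
  have h1 : tw χ (f * g) n = (((f * g) n : ℝ) : ℂ) * χ (n : ZMod d) := rfl
  rw [h1, ArithmeticFunction.mul_apply]
  push_cast
  rw [Finset.sum_mul]
  refine Finset.sum_congr rfl fun p hp => ?_
  rw [Nat.mem_divisorsAntidiagonal] at hp
  have h2 : tw χ f p.1 = ((f p.1 : ℝ) : ℂ) * χ (p.1 : ZMod d) := rfl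
  have h3 : tw χ g p.2 = ((g p.2 : ℝ) : ℂ) * χ (p.2 : ZMod d) := rfl
  rw [h2, h3, ← hp.1, Nat.cast_mul, map_mul]
  ring

theorem tw_prod {d : ℕ} (χ : DirichletCharacter ℂ d) {ι : Type*} [DecidableEq ι] (s : Finset ι)
    (f : ι → ArithmeticFunction ℝ) (hd : d ≠ 0) : tw χ (∏ i ∈ s, f i) = ∏ i ∈ s, tw χ (f i) := by
  induction s using Finset.induction_on with
  | empty =>
    rw [Finset.prod_empty, Finset.prod_empty]
    ext n
    have h1 : tw χ 1 n = ((((1 : ArithmeticFunction ℝ) n : ℝ)) : ℂ) * χ (n : ZMod d) := rfl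
    rw [h1]
    by_cases h2 : n = 1
    · subst h2
      simp
    · rw [ArithmeticFunction.one_apply_ne h2, ArithmeticFunction.one_apply_ne h2]
      simp
  | insert a s ha ih => rw [Finset.prod_insert ha, Finset.prod_insert ha, tw_mul, ih]

end Pool.Agent.H88.PSI

end

section

/-!
# PSI Mvt: mean value theorem

From `Pool.Agent.H35.W.mean_v` (`Pool/Agent/H35/W/MeanV.lean`) with `a m = √m b m` and the substitution `t ↦ 2 π t`.
`tail_int`: dyadic pieces `2^j T ≤ |t| ≤ 2^(j+1) T` (or monotone convergence): `∑_j (2^j T)^(-2) (2^(j+2) T + 4 M (1+log M)) S`.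
-/

set_option autoImplicit false

namespace Pool.Agent.H88.PSI

open Finset MeasureTheory

private theorem Mvt_pt (b : ℕ → ℂ) (M : ℕ) (t : ℝ) :
    ∑ m ∈ Icc 1 M, (((Real.sqrt m : ℝ) : ℂ) * b m) *
      (m : ℂ) ^ (-(1 / 2 : ℂ) + ((2 * Real.pi * t : ℝ) : ℂ) * Complex.I) = DP b M t := by
  unfold DP
  refine Finset.sum_congr rfl fun m hm => ?_
  have hm' := Finset.mem_Icc.1 hm
  have hm0 : (m : ℂ) ≠ 0 := by exact_mod_cast (show m ≠ 0 by omega)
  have hmr : (0 : ℝ) < m := by exact_mod_cast (show 0 < m by omega)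
  rw [Complex.cpow_add _ _ hm0]
  have e1 : (m : ℂ) ^ (-(1 / 2 : ℂ)) = (((m : ℝ) ^ (-(1 / 2) : ℝ) : ℝ) : ℂ) := by
    rw [Complex.ofReal_cpow hmr.le]
    push_cast
    rfl
  have e2 : ((Real.sqrt m : ℝ) : ℂ) * (m : ℂ) ^ (-(1 / 2 : ℂ)) = 1 := by
    rw [e1, ← Complex.ofReal_mul, Real.sqrt_eq_rpow, ← Real.rpow_add hmr]
    norm_num
  have e3 : (m : ℂ) ^ (((2 * Real.pi * t : ℝ) : ℂ) * Complex.I) =
      Pool.Agent.H91.PK.ee (t * Real.log m) := by
    unfold Pool.Agent.H91.PK.ee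
    rw [Complex.cpow_def_of_ne_zero hm0, ← Complex.natCast_log]
    congr 1
    push_cast
    ring
  rw [e3]
  calc ((Real.sqrt m : ℝ) : ℂ) * b m * ((m : ℂ) ^ (-(1 / 2 : ℂ)) *
        Pool.Agent.H91.PK.ee (t * Real.log m)) =
        (((Real.sqrt m : ℝ) : ℂ) * (m : ℂ) ^ (-(1 / 2 : ℂ))) *
          (b m * Pool.Agent.H91.PK.ee (t * Real.log m)) := by ring
    _ = _ := by rw [e2, one_mul]

private theorem Mvt_SS_nonneg (b : ℕ → ℂ) (M : ℕ) : 0 ≤ SS b M :=
  Finset.sum_nonneg fun _ _ => sq_nonneg _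

private theorem Mvt_log (M : ℕ) : 0 ≤ 1 + Real.log M := by
  have := Real.log_natCast_nonneg M
  linarith

theorem mvt (b : ℕ → ℂ) (M : ℕ) (T : ℝ) (hM : 1 ≤ M) (hT : 0 ≤ T) :
    ∫ t in Set.Icc (-T) T, ‖DP b M t‖ ^ 2 ≤ (2 * T + 4 * M * (1 + Real.log M)) * SS b M := by
  have hpi := Real.pi_pos
  have h := Pool.Agent.H35.W.mean_v (fun m => ((Real.sqrt m : ℝ) : ℂ) * b m) M
    (2 * Real.pi * T) hM (by positivity)
  have e1 : ∑ m ∈ Icc 1 M, ‖(fun m : ℕ => ((Real.sqrt m : ℝ) : ℂ) * b m) m‖ ^ 2 / m = SS b M := by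
    unfold SS
    refine Finset.sum_congr rfl fun m hm => ?_
    have hm' := Finset.mem_Icc.1 hm
    have hmr : (0 : ℝ) < m := by exact_mod_cast (show 0 < m by omega)
    show ‖((Real.sqrt m : ℝ) : ℂ) * b m‖ ^ 2 / m = _
    rw [norm_mul, Complex.norm_real, Real.norm_of_nonneg (Real.sqrt_nonneg _), mul_pow,
      Real.sq_sqrt hmr.le]
    field_simp
  rw [e1] at h
  rw [integral_Icc_eq_integral_Ioc, ← intervalIntegral.integral_of_le (by linarith : -T ≤ T)]
  have e2 : ∫ t in (-T)..T, ‖DP b M t‖ ^ 2 = (2 * Real.pi)⁻¹ • ∫ u in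
      (2 * Real.pi * -T)..(2 * Real.pi * T), ‖∑ m ∈ Icc 1 M, (((Real.sqrt m : ℝ) : ℂ) * b m) *
      (m : ℂ) ^ (-(1 / 2 : ℂ) + (u : ℂ) * Complex.I)‖ ^ 2 := by
    rw [← intervalIntegral.integral_comp_mul_left (fun u : ℝ => ‖∑ m ∈ Icc 1 M,
      (((Real.sqrt m : ℝ) : ℂ) * b m) * (m : ℂ) ^ (-(1 / 2 : ℂ) + (u : ℂ) * Complex.I)‖ ^ 2)
      (by positivity : 2 * Real.pi ≠ 0)]
    refine intervalIntegral.integral_congr fun t _ => ?_
    show ‖DP b M t‖ ^ 2 = _
    rw [← Mvt_pt b M t]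
  rw [e2, smul_eq_mul, show 2 * Real.pi * -T = -(2 * Real.pi * T) by ring]
  have h2 := mul_le_mul_of_nonneg_left h (by positivity : 0 ≤ (2 * Real.pi)⁻¹)
  refine h2.trans ?_
  rw [← mul_assoc]
  refine mul_le_mul_of_nonneg_right ?_ (Mvt_SS_nonneg b M)
  have h3 : (2 * Real.pi)⁻¹ * (2 * (2 * Real.pi * T) + 4 * M * (1 + Real.log M)) =
      2 * T + (2 * Real.pi)⁻¹ * (4 * M * (1 + Real.log M)) := by
    field_simp
  rw [h3]
  have h4 : (2 * Real.pi)⁻¹ ≤ 1 := by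
    have := Real.pi_gt_three
    exact inv_le_one_of_one_le₀ (by linarith)
  have h5 : 0 ≤ 4 * M * (1 + Real.log M) := mul_nonneg (by positivity) (Mvt_log M)
  have h6 := mul_le_mul_of_nonneg_right h4 h5
  linarith

/-- the dyadic pieces -/
private def Mvt_S (T : ℝ) (j : ℕ) : Set ℝ := {t | T < |t| ∧ 2 ^ j * T ≤ |t| ∧ |t| < 2 ^ (j + 1) * T}

private theorem Mvt_meas (T : ℝ) (j : ℕ) : MeasurableSet (Mvt_S T j) := by
  unfold Mvt_S
  have h : Measurable fun t : ℝ => |t| := continuous_abs.measurable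
  exact (measurableSet_lt measurable_const h).inter
    ((measurableSet_le measurable_const h).inter (measurableSet_lt h measurable_const))

private theorem Mvt_union {T : ℝ} (hT : 1 ≤ T) : ⋃ j, Mvt_S T j = {t : ℝ | T < |t|} := by
  have hT0 : 0 < T := by linarith
  ext t
  rw [Set.mem_iUnion]
  constructor
  · rintro ⟨j, h, -, -⟩
    exact h
  · intro h
    have h' : T < |t| := h
    obtain ⟨j, h1, h2⟩ := exists_nat_pow_near (x := |t| / T) (y := (2 : ℝ))
      (by rw [le_div_iff₀ hT0]; linarith) (by norm_num)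
    rw [le_div_iff₀ hT0] at h1
    rw [div_lt_iff₀ hT0] at h2
    exact ⟨j, h', h1, h2⟩

private theorem Mvt_disj {T : ℝ} (hT : 1 ≤ T) : Pairwise (Function.onFun Disjoint (Mvt_S T)) := by
  have key : ∀ i j : ℕ, i < j → Disjoint (Mvt_S T i) (Mvt_S T j) := by
    intro i j hij
    rw [Set.disjoint_left]
    rintro t ⟨-, -, h1⟩ ⟨-, h2, -⟩
    have h3 : (2 : ℝ) ^ (i + 1) ≤ 2 ^ j := pow_le_pow_right₀ (by norm_num) hij
    have h4 := mul_le_mul_of_nonneg_right h3 (by linarith : 0 ≤ T)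
    linarith
  intro i j hij
  rcases lt_or_gt_of_ne hij with h | h
  · exact key i j h
  · exact (key j i h).symm

private theorem Mvt_sub {T : ℝ} (j : ℕ) :
    Mvt_S T j ⊆ Set.Icc (-(2 ^ (j + 1) * T)) (2 ^ (j + 1) * T) := by
  rintro t ⟨-, -, h⟩
  exact ⟨(abs_lt.1 h).1.le, (abs_lt.1 h).2.le⟩

private theorem Mvt_int (b : ℕ → ℂ) (M : ℕ) {T : ℝ} (hT : 1 ≤ T) (j : ℕ) :
    IntegrableOn (fun t => ‖DP b M t‖ ^ 2 / t ^ 2) (Mvt_S T j) := by
  have hms : Measurable (fun t => ‖DP b M t‖ ^ 2 / t ^ 2) :=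
    (((dp_cont b M).norm.pow 2).measurable).div (measurable_id.pow_const 2)
  refine Measure.integrableOn_of_bounded (M := (∑ n ∈ Icc 1 M, ‖b n‖) ^ 2) ?_
    hms.aestronglyMeasurable ?_
  · refine ((measure_mono (Mvt_sub j)).trans_lt ?_).ne
    rw [Real.volume_Icc]
    exact ENNReal.ofReal_lt_top
  · refine (ae_restrict_iff' (Mvt_meas T j)).2 (Filter.Eventually.of_forall fun t ht => ?_)
    have h1 : 1 ≤ |t| := hT.trans ht.1.le
    have h2 : 1 ≤ t ^ 2 := by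
      rw [← sq_abs]
      nlinarith
    rw [Real.norm_of_nonneg (by positivity)]
    refine (div_le_self (sq_nonneg _) h2).trans ?_
    exact pow_le_pow_left₀ (norm_nonneg _) (dp_norm_le b M t) 2

private theorem Mvt_piece (b : ℕ → ℂ) (M : ℕ) {T : ℝ} (hM : 1 ≤ M) (hT : 1 ≤ T) (j : ℕ) :
    ∫ t in Mvt_S T j, ‖DP b M t‖ ^ 2 / t ^ 2 ≤
      (4 / T * (1 / 2) ^ j + 4 * M * (1 + Real.log M) / T ^ 2 * (1 / 4) ^ j) * SS b M := by
  have hT0 : 0 < T := by linarith
  have hj : (0 : ℝ) < 2 ^ j := by positivity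
  have hcont : Continuous fun t => ‖DP b M t‖ ^ 2 := (dp_cont b M).norm.pow 2
  have hI : IntegrableOn (fun t => ‖DP b M t‖ ^ 2)
      (Set.Icc (-(2 ^ (j + 1) * T)) (2 ^ (j + 1) * T)) := hcont.integrableOn_Icc
  have h1 : ∫ t in Mvt_S T j, ‖DP b M t‖ ^ 2 / t ^ 2 ≤
      ∫ t in Mvt_S T j, ‖DP b M t‖ ^ 2 * (1 / (2 ^ j * T) ^ 2) := by
    refine setIntegral_mono_on (Mvt_int b M hT j) ((hI.mono_set (Mvt_sub j)).mul_const _)
      (Mvt_meas T j) fun t ht => ?_
    rw [div_eq_mul_one_div]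
    refine mul_le_mul_of_nonneg_left ?_ (sq_nonneg _)
    refine one_div_le_one_div_of_le (by positivity) ?_
    rw [← sq_abs t]
    exact pow_le_pow_left₀ (by positivity) ht.2.1 2
  have h2 : ∫ t in Mvt_S T j, ‖DP b M t‖ ^ 2 * (1 / (2 ^ j * T) ^ 2) =
      (∫ t in Mvt_S T j, ‖DP b M t‖ ^ 2) * (1 / (2 ^ j * T) ^ 2) := integral_mul_const _ _
  have h3 : ∫ t in Mvt_S T j, ‖DP b M t‖ ^ 2 ≤
      ∫ t in Set.Icc (-(2 ^ (j + 1) * T)) (2 ^ (j + 1) * T), ‖DP b M t‖ ^ 2 :=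
    setIntegral_mono_set hI (Filter.Eventually.of_forall fun _ => sq_nonneg _)
      (Mvt_sub j).eventuallyLE
  have h4 := mvt b M (2 ^ (j + 1) * T) hM (by positivity)
  rw [h2] at h1
  refine h1.trans ((mul_le_mul_of_nonneg_right (h3.trans h4) (by positivity)).trans (le_of_eq ?_))
  have e1 : (1 / 2 : ℝ) ^ j = 1 / 2 ^ j := by rw [one_div_pow]
  have e2 : (1 / 4 : ℝ) ^ j = 1 / (2 ^ j * 2 ^ j) := by
    rw [one_div_pow, ← mul_pow]
    norm_num
  rw [e1, e2, pow_succ]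
  field_simp
  ring

theorem tail_int (b : ℕ → ℂ) (M : ℕ) (T : ℝ) (hM : 1 ≤ M) (hT : 1 ≤ T) :
    IntegrableOn (fun t => ‖DP b M t‖ ^ 2 / t ^ 2) {t : ℝ | T < |t|} ∧
      ∫ t in {t : ℝ | T < |t|}, ‖DP b M t‖ ^ 2 / t ^ 2
        ≤ 100 * (1 / T + M * (1 + Real.log M) / T ^ 2) * SS b M := by
  have hT0 : 0 < T := by linarith
  have hK : 0 ≤ 4 * (M : ℝ) * (1 + Real.log M) := mul_nonneg (by positivity) (Mvt_log M)
  have hS := Mvt_SS_nonneg b M
  have hg2 : HasSum (fun j : ℕ => (1 / 2 : ℝ) ^ j) 2 := hasSum_geometric_two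
  have hg4 : HasSum (fun j : ℕ => (1 / 4 : ℝ) ^ j) (4 / 3) := by
    have h := hasSum_geometric_of_lt_one (r := (1 / 4 : ℝ)) (by norm_num) (by norm_num)
    have e : (1 - (1 / 4 : ℝ))⁻¹ = 4 / 3 := by norm_num
    rwa [e] at h
  have hsum := ((hg2.mul_left (4 / T)).add
    (hg4.mul_left (4 * M * (1 + Real.log M) / T ^ 2))).mul_right (SS b M)
  have hnn : ∀ j, 0 ≤ ∫ t in Mvt_S T j, ‖DP b M t‖ ^ 2 / t ^ 2 := fun j =>
    setIntegral_nonneg (Mvt_meas T j) fun t _ => by positivity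
  have hint : IntegrableOn (fun t => ‖DP b M t‖ ^ 2 / t ^ 2) (⋃ j, Mvt_S T j) := by
    refine integrableOn_iUnion_of_summable_integral_norm (Mvt_int b M hT) ?_
    have e : (fun j => ∫ t in Mvt_S T j, ‖‖DP b M t‖ ^ 2 / t ^ 2‖) =
        fun j => ∫ t in Mvt_S T j, ‖DP b M t‖ ^ 2 / t ^ 2 := by
      funext j
      refine setIntegral_congr_fun (Mvt_meas T j) fun t _ => ?_
      exact Real.norm_of_nonneg (by positivity)
    rw [e]
    exact Summable.of_nonneg_of_le hnn (Mvt_piece b M hM hT) hsum.summable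
  have h1 := hasSum_integral_iUnion (Mvt_meas T) (Mvt_disj hT) hint
  rw [Mvt_union hT] at hint h1
  refine ⟨hint, ?_⟩
  refine (hasSum_le (Mvt_piece b M hM hT) h1 hsum).trans ?_
  refine mul_le_mul_of_nonneg_right ?_ hS
  have h2 : 0 ≤ (M : ℝ) * (1 + Real.log M) / T ^ 2 :=
    div_nonneg (mul_nonneg (by positivity) (Mvt_log M)) (by positivity)
  have h3 : 0 ≤ 1 / T := by positivity
  have h4 : 4 / T * 2 = 8 * (1 / T) := by ring
  have h5 : 4 * (M : ℝ) * (1 + Real.log M) / T ^ 2 * (4 / 3) =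
      16 / 3 * (M * (1 + Real.log M) / T ^ 2) := by ring
  rw [h4, h5]
  linarith

end Pool.Agent.H88.PSI

end
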