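import Pool.Agent.H43.PJ.M05
import Pool.Agent.H43.PJ.M41

/-! The parts of this file: H76.TP.Defs, H31.EQ.Defs, H43.MP.Defs, H43.TP.Defs, H43.MP.Conv, H43.MP.Blk, H31.EQ.Vol, H88.PSI.Chi. -/

section

/-!
# PROJECT TP (MP_967f73_nt): two primes in windows `n^θ`, `θ > 0.2805`: definitions

`L = log N`, `y = yN e1 N = ⌊N^e1⌋` (`e1` small), `z = zz y J = 2^J y ≤ N^ζ`, `P_j = 2^j y`, `pb P` = primes of `(P, 2P]`.

* `rg y k = 1` if all prime factors of `k` are `> y`, else `0` (`rg y 0 = 0`, `rg y 1 = 1`);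
* `nu y J k` = number of the primes `p ∣ k` with `y < p ≤ z`;
* `bf y J k = rg y k/(1 + nu y J k)` (Ramaré weights);
* `AA y J m = rg y m - ∑_{j<J} Fp (bf y J) (2^j y) m`: it is `≥ 0`, `= 1` on `z`-rough numbers and `≤ 1[z-rough] + 1[p² ∣ m, y < p ≤ z]`
  (`RamId.lean`);
* the upper bound sieve `SS w y r ρ m = (∑_{T ⊆ primes ≤ w dividing m, |T| ≤ 2r} (-1)^|T|) (∑_{A ⊆ primes of (w, y] dividing m} ρ A)²`,
  `≥ rg y m`; `Ap = SS - ∑_j Fp bf P_j ≥ AA ≥ 1_P`;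
* the local density `kap y J x` of `bf` at `x`; `kapA` the local density of `Ap`.
-/

set_option autoImplicit false

namespace Pool.Agent.H76.TP

open Finset
open Pool.Agent.H91.PK (ee)
open Pool.Agent.H91.EHA (Lam hR lamR ramS)
open Pool.Agent.H35.W (pb)
open Pool.Agent.H53.MID (Fp Bs)

/-- the lower end of the sieving range -/
noncomputable def yN (e1 : ℝ) (N : ℕ) : ℕ := ⌊(N : ℝ) ^ e1⌋₊

/-- the upper end `z = 2^J y` -/
def zz (y J : ℕ) : ℕ := 2 ^ J * y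

open Classical in
/-- the indicator of the `y`-rough numbers -/
noncomputable def rg (y k : ℕ) : ℝ := if ∀ p : ℕ, p.Prime → p ∣ k → y < p then 1 else 0

/-- the number of the primes of `(y, z]` dividing `k` -/
def nu (y J k : ℕ) : ℕ := (k.primeFactors.filter (fun p => y < p ∧ p ≤ zz y J)).card

/-- the cofactor weights (Ramaré) -/
noncomputable def bf (y J k : ℕ) : ℝ := rg y k / (1 + nu y J k)

/-- rough numbers minus the type II sums -/
noncomputable def AA (y J m : ℕ) : ℝ := rg y m - ∑ j ∈ range J, Fp (bf y J) (2 ^ j * y) m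

/-- the local density of `bf` at `x` -/
noncomputable def kap (y J x : ℕ) : ℝ :=
  (∑ k ∈ Icc 1 (x / y), rg y k / ((1 + nu y J k + if x < k * zz y J then 1 else 0) * k)) / Real.log x

/-- `∑_{p ∈ pb P} kap(x/p)/p` -/
noncomputable def WK (y J P x : ℕ) : ℝ := ∑ p ∈ pb P, kap y J (x / p) / p

/-- the sieve minus the type II sums: the majorant of the primes -/
noncomputable def Ap (S : ℕ → ℝ) (y J m : ℕ) : ℝ := S m - ∑ j ∈ range J, Fp (bf y J) (2 ^ j * y) m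

/-- the local density of `Ap` -/
noncomputable def kapA (kS : ℝ) (y J x : ℕ) : ℝ := kS - ∑ j ∈ range J, WK y J (2 ^ j * y) x

/-- primes `≤ w` -/
def PW (w : ℕ) : Finset ℕ := (Icc 1 w).filter Nat.Prime

/-- primes in `(w, y]` -/
def PY (w y : ℕ) : Finset ℕ := (Ioc w y).filter Nat.Prime

/-- Bonferroni sum of level `2r` over the primes `≤ w` -/
noncomputable def bon (w r m : ℕ) : ℝ :=
  ∑ T ∈ ((PW w).filter (fun p => p ∣ m)).powerset.filter (fun T => T.card ≤ 2 * r), (-1 : ℝ) ^ T.card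

/-- Selberg's square over the primes of `(w, y]` -/
noncomputable def sel (w y : ℕ) (ρ : Finset ℕ → ℝ) (m : ℕ) : ℝ :=
  (∑ A ∈ ((PY w y).filter (fun p => p ∣ m)).powerset, ρ A) ^ 2

/-- the upper bound sieve -/
noncomputable def SS (w y r : ℕ) (ρ : Finset ℕ → ℝ) (m : ℕ) : ℝ := bon w r m * sel w y ρ m

/-- admissible coefficients of type I: `g` supported on squarefree numbers, `|g n| ≤ 3^ω(n)`, `S m = ∑_{n ≤ Q, n ∣ m} g n` -/
def Adm (Q : ℕ) (g S : ℕ → ℝ) : Prop :=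
  (∀ n, ¬ Squarefree n → g n = 0) ∧ (∀ n, |g n| ≤ 3 ^ n.primeFactors.card) ∧
    ∀ m, 1 ≤ m → S m = ∑ n ∈ (Icc 1 Q).filter (fun n => n ∣ m), g n

/-- `∏_{p ∈ T} (1 - 1/p)` -/
noncomputable def VV (T : Finset ℕ) : ℝ := ∏ p ∈ T, (1 - 1 / (p : ℝ))

/-- the number of prime factors `> N^ζ` main terms: `E_2` -/
noncomputable def Z2 (ζ : ℝ) : ℝ := Real.log ((1 - ζ) / ζ)

/-- `E_3` -/
noncomputable def Z3 (ζ : ℝ) : ℝ := ∫ u in ζ..(1 / 3 : ℝ), Real.log ((1 - 2 * u) / u) / (u * (1 - u))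

end Pool.Agent.H76.TP

end

section

/-!
# PROJECT EQ (MP_967f73_nt): products `p k` in almost all short windows, in residue classes

`G(m) = ∑_{p ∈ pb P, p ∣ m} b(m/p)`, `b` arbitrary, `|b| ≤ 1` (`Pool.Agent.H53.MID.Fp b P m`).  THEOREM (`Fin.lean`): if `N^(1/5+e) ≤ H`, `N^(1/5+e) ≤ P`,
`P² H ≤ N`, `b` supported on integers without small prime factors: for almost all windows `∑_{x < n ≤ x+H, n ≡ c (d)} G(n) = [(c,d)=1] H η(x)/φ(d) + O(H/L^A)`
(in mean square), `d ≤ L^B`, with the long average `η` of `G`.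

* `tf b P α n = Fp b P n ee(-n α)`; `cf b P d c n = Fp b P n` for `n ≡ c (d)`, `0` otherwise;
* `Gs b y J0 J1 = ∑_{J0 ≤ j < J1} Fp (b j) (2^j y)`;
* `gam G H1 x` = the average of `G` over `(x, x + H1]`; `ew G H H1 d c x` = the error of the window `(x, x + H]` in the class `c` modulo `d`.
-/

set_option autoImplicit false

namespace Pool.Agent.H31.EQ

open Finset MeasureTheory
open Pool.Agent.H91.PK (ee)
open Pool.Agent.H35.W (pb)
open Pool.Agent.H53.MID (Fp)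

/-- `Fp b P n ee(-n α)` -/
noncomputable def tf (b : ℕ → ℝ) (P : ℕ) (α : ℝ) (n : ℕ) : ℂ := ((Fp b P n : ℝ) : ℂ) * ee (-((n : ℝ) * α))

/-- `Fp b P` on the class `c` modulo `d` -/
noncomputable def cf (b : ℕ → ℝ) (P d c n : ℕ) : ℂ := if n % d = c % d then ((Fp b P n : ℝ) : ℂ) else 0

/-- the sum of the boxes `p ∼ 2^j y` -/
noncomputable def Gs (b : ℕ → ℕ → ℝ) (y J0 J1 m : ℕ) : ℝ := ∑ j ∈ Ico J0 J1, Fp (b j) (2 ^ j * y) m

/-- the long average -/
noncomputable def gam (G : ℕ → ℝ) (H1 x : ℕ) : ℝ := (∑ n ∈ Ioc x (x + H1), G n) / H1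

/-- the error of the window `(x, x + H]` in the class `c` modulo `d` -/
noncomputable def ew (G : ℕ → ℝ) (H H1 d c x : ℕ) : ℝ :=
  (∑ n ∈ (Ioc x (x + H)).filter (fun n => n % d = c % d), G n)
    - (if Nat.Coprime c d then (H : ℝ) * gam G H1 x / d.totient else 0)

/-- distribution of `Y` in almost all windows and all classes to small moduli, with the density `η` -/
def WDx (N H A B : ℕ) (Y η : ℕ → ℝ) : Prop := ∀ d c : ℕ, 1 ≤ d → (d : ℝ) ≤ Real.log N ^ B →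
  ∑ x ∈ Icc (N / 8) (8 * N), ((∑ n ∈ (Ioc x (x + H)).filter (fun n => n % d = c % d), Y n)
    - (if Nat.Coprime c d then (H : ℝ) * η x / d.totient else 0)) ^ 2 ≤ N * (H : ℝ) ^ 2 / Real.log N ^ A

end Pool.Agent.H31.EQ

end

section

/-!
# PROJECT MIDP (MP_967f73_nt): definitions

Prime + `E_2` with `|x| ≤ n^(1/6+ε)` for almost all `n`.  `L = log N`, blocks `blk H i = [iH, (i+1)H)`,
`H = Hn θ N = ⌊N^θ⌋`, `P = Pn θ N = ⌊N^(θ/20)⌋`, `R = Rn B N = ⌊L^B⌋`, `pb P` = the primes of `(P, 2P]`.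

* `FF P m = ∑_{p ∈ pb P, p | m} Λ(m/p)`, `Fs P R m = ∑_{p ∈ pb P, p | m} hR R (m/p)` (`hR = Λ - Λ_R`),
  `omP P m = #{p ∈ pb P : p | m}`;
* `badL`: the blocks where the local Fourier uniformity of `Fs` fails (project MID, helper53);
* `badP`: the blocks where the primes are not equidistributed modulo some `r ≤ L^B` (project PSI, helper88).
-/

set_option autoImplicit false

namespace Pool.Agent.H43.MP

open Finset
open Pool.Agent.H91.PK (ee)
open Pool.Agent.H91.EHA (Lam hR lamR ramS)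
open Pool.Agent.H35.W (pb)

/-- the block `[iH, (i+1)H)` -/
def blk (H i : ℕ) : Finset ℕ := Ico (i * H) ((i + 1) * H)

/-- the length of the blocks -/
noncomputable def Hn (θ : ℝ) (N : ℕ) : ℕ := ⌊(N : ℝ) ^ θ⌋₊

/-- the size of the small prime factor -/
noncomputable def Pn (θ : ℝ) (N : ℕ) : ℕ := ⌊(N : ℝ) ^ (θ / 20)⌋₊

/-- the truncation -/
noncomputable def Rn (B N : ℕ) : ℕ := ⌊Real.log N ^ B⌋₊

/-- the indices of the blocks between `N/2` and `3N` -/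
def idx (N H : ℕ) : Finset ℕ := Icc (N / (2 * H)) (3 * N / H)

/-- the weight of the numbers with a prime factor in `(P, 2P]` and a prime cofactor -/
noncomputable def FF (P m : ℕ) : ℝ := ∑ p ∈ (pb P).filter (fun p => p ∣ m), Lam (m / p)

/-- the error part of `FF` -/
noncomputable def Fs (P R m : ℕ) : ℝ := ∑ p ∈ (pb P).filter (fun p => p ∣ m), hR R (m / p)

/-- the number of prime factors in `(P, 2P]` -/
def omP (P m : ℕ) : ℕ := ((pb P).filter (fun p => p ∣ m)).card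

open Classical in
/-- the blocks where the local Fourier uniformity fails -/
noncomputable def badL (N H P R A : ℕ) : Finset ℕ :=
  (idx N H).filter (fun i => ∃ α : ℝ,
    (H : ℝ) / Real.log N ^ A < ‖∑ m ∈ blk H i, ((Fs P R m : ℝ) : ℂ) * ee (-(α * m))‖)

open Classical in
/-- the blocks where the primes are not equidistributed -/
noncomputable def badP (N H A B : ℕ) : Finset ℕ :=
  (idx N H).filter (fun i => ∃ r a : ℕ, 1 ≤ r ∧ (r : ℝ) ≤ Real.log N ^ B ∧ Nat.Coprime a r ∧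
    (H : ℝ) / Real.log N ^ A < ‖∑ m ∈ blk H i, ((Lam m : ℝ) : ℂ) * ee (-((a : ℝ) * m / r))
      - (((ArithmeticFunction.moebius r : ℝ) / (r.totient : ℝ) * H : ℝ) : ℂ)‖)

/-- the sum of `a` over the elements of the block in the class `b` mod `p` -/
noncomputable def Zc (a : ℕ → ℂ) (H i p b : ℕ) : ℂ :=
  ∑ m ∈ (blk H i).filter (fun m => m ≡ b [MOD p]), a m

/-- `W = ∑_{p ∈ pb P} 1/p` -/
noncomputable def WP (P : ℕ) : ℝ := ∑ p ∈ pb P, 1 / (p : ℝ)

/-- `r(n) = ∑_{m ∈ blk} Λ(m) FF(2n - m)` for `n` in the block `i` -/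
noncomputable def rr (P H i n : ℕ) : ℝ := ∑ m ∈ blk H i, Lam m * FF P (2 * n - m)

/-- the solutions: `x` with `|x| ≤ H`, `n - x` prime (in the form `φ(n-x) + 1 = n - x`), `n + x = p q`. -/
def sols (P H n : ℕ) : Set ℤ :=
  {x : ℤ | |x| ≤ H ∧ 0 < (n : ℤ) - x ∧ 0 < (n : ℤ) + x ∧
    ((Nat.totient ((n : ℤ) - x).toNat : ℤ) + 1 = (n : ℤ) - x) ∧
    ∃ p q : ℕ, p.Prime ∧ q.Prime ∧ P < p ∧ p ≤ 2 * P ∧ (n : ℤ) + x = p * q}

end Pool.Agent.H43.MP

end

section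

/-!
# PROJECT TP, Part 5 (MP_967f73_nt): two primes with `|x| ≤ n^θ`, `2/7 < θ < 1/3`: definitions and interface

Blocks `blk H i = [iH, (i+1)H)`, `H = Hn θ N = ⌊N^θ⌋`, `R = Rn B N = ⌊L^B⌋`, `L = log N`.

* `TPIN θ c`: the black box (LFU of the majorant `F` of the primes and its density `κ ≤ (2-c)/L`);
* `badN`: the `n` where the primes of `2n - blk` are not equidistributed modulo some `r ≤ L^B`;
* `r1, r2, r3`: the three sums of the inequality `1_P 1_P' ≥ 1_P F' + F 1_P' - F F'`.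
-/

set_option autoImplicit false

namespace Pool.Agent.H43.TP

open Finset
open Pool.Agent.H91.PK (ee)
open Pool.Agent.H91.EHA (Lam lamR)
open Pool.Agent.H43.MP (blk Hn idx Rn)

open Classical in
/-- the blocks where the local Fourier uniformity of `F - κ Λ_R` fails -/
noncomputable def badF (N H R A : ℕ) (F κ : ℕ → ℝ) : Finset ℕ :=
  (idx N H).filter (fun i => ∃ α : ℝ,
    (H : ℝ) / Real.log N ^ A < ‖∑ m ∈ blk H i, ((F m - κ i * lamR R m : ℝ) : ℂ) * ee (-(α * m))‖)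

open Classical in
/-- the `n` such that the primes of `2n - blk H (n/H)` are not equidistributed -/
noncomputable def badN (N H A B : ℕ) : Finset ℕ :=
  (Ioc N (2 * N)).filter (fun n => ∃ r a : ℕ, 1 ≤ r ∧ (r : ℝ) ≤ Real.log N ^ B ∧ Nat.Coprime a r ∧
    (H : ℝ) / Real.log N ^ A <
      ‖∑ u ∈ blk H (n / H), ((Lam (2 * n - u) : ℝ) : ℂ) * ee (-((a : ℝ) * ((2 * n - u : ℕ) : ℝ) / r))
      - (((ArithmeticFunction.moebius r : ℝ) / (r.totient : ℝ) * H : ℝ) : ℂ)‖)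

open Classical in
/-- the `n` with a proper prime power at distance `≤ 2H` -/
noncomputable def ppX (N H : ℕ) : Finset ℕ :=
  (Ioc N (2 * N)).filter (fun n => ∃ m : ℕ, n ≤ m + 2 * H ∧ m ≤ n + 2 * H ∧ IsPrimePow m ∧ ¬ m.Prime)

/-- `∑_{u ∈ blk} f(u) g(2n - u)` -/
noncomputable def rf (H i : ℕ) (f g : ℕ → ℝ) (n : ℕ) : ℝ := ∑ u ∈ blk H i, f u * g (2 * n - u)

/-- `F# = F - k Λ_R` -/
noncomputable def Fh (R : ℕ) (k : ℝ) (F : ℕ → ℝ) (m : ℕ) : ℝ := F m - k * lamR R m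

/-- the solutions: `x` with `|x| ≤ H`, `n - x` and `n + x` primes -/
def sol2 (H n : ℕ) : Set ℤ :=
  {x : ℤ | |x| ≤ H ∧ ∃ p q : ℕ, p.Prime ∧ q.Prime ∧ (n : ℤ) - x = p ∧ (n : ℤ) + x = q}

end Pool.Agent.H43.TP

end

section

/-!
# MIDP Conv: the error term of the additive convolution on a block

`conv_l2`.  Put `U(α) = ∑_{m ∈ I} u(m) ee(-α m)`, `V(α) = ∑_{m ∈ Y} v(m) ee(-α m)`.  Then `U V = ∑_{k ∈ K'} c(k) ee(-α k)`,
`c(k) = ∑_{m ∈ I, m ≤ k, k - m ∈ Y} u(m) v(k-m)`, `K'` = image of `I ×ˢ Y` under `+` (`c(k) = 0` for `k ∉ K'`).  Parseval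
(`Pool.Agent.H91.PK.LSa_parseval` with `c = 0`, on `[0,1]`, after the substitution `α → -α` or conjugation):
`∑_{k ∈ K'} c(k)^2 = ∫_0^1 |U V|^2 ≤ S^2 ∫_0^1 |U|^2 = S^2 ∑_{m ∈ I} u(m)^2`.

`rs_l2`.  For `n, m ∈ blk H i`, `i ≥ 1`: `(i-1) H ≤ 2n - m < (i+2) H`, so `2n - m` is in one of the blocks `i-1, i, i+1`, whose union is
`Y = Ico ((i-1) H) ((i+2) H)`; `S = 3 H / L^A` by the hypothesis for the three blocks.  Apply `conv_l2` with `u = Lam`, `v = Fs P R`, `I = blk H i`,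
`K = (blk H i).image (2 * ·)` (injective).
-/

set_option autoImplicit false

namespace Pool.Agent.H43.MP

open Finset
open Pool.Agent.H91.PK (ee)

private theorem Conv_ee_add (x y : ℝ) : ee (x + y) = ee x * ee y := by
  unfold ee
  rw [← Complex.exp_add]
  congr 1
  push_cast
  ring

/-- the coefficients of the product -/
private def Conv_c (u v : ℕ → ℝ) (I Y : Finset ℕ) (k : ℕ) : ℝ :=
  ∑ m ∈ I.filter (fun m => m ≤ k ∧ k - m ∈ Y), u m * v (k - m)

private theorem Conv_mul (u v : ℕ → ℝ) (I Y : Finset ℕ) (t : ℝ) :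
    (∑ m ∈ I, ((u m : ℝ) : ℂ) * ee (((m : ℝ) - 0) * t)) *
      (∑ m ∈ Y, ((v m : ℝ) : ℂ) * ee (((m : ℝ) - 0) * t)) =
    ∑ k ∈ (I ×ˢ Y).image (fun x => x.1 + x.2),
      ((Conv_c u v I Y k : ℝ) : ℂ) * ee (((k : ℝ) - 0) * t) := by
  rw [Finset.sum_mul_sum, ← Finset.sum_product']
  rw [← Finset.sum_fiberwise_of_maps_to (s := I ×ˢ Y) (t := (I ×ˢ Y).image (fun x => x.1 + x.2))
    (g := fun x => x.1 + x.2) (fun x hx => Finset.mem_image_of_mem _ hx)]
  refine Finset.sum_congr rfl fun k _ => ?_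
  unfold Conv_c
  push_cast
  rw [Finset.sum_mul]
  refine Finset.sum_bij' (fun x _ => x.1) (fun m _ => (m, k - m)) ?_ ?_ ?_ ?_ ?_
  · rintro ⟨a, b⟩ hx
    simp only [Finset.mem_filter, Finset.mem_product] at hx ⊢
    obtain ⟨⟨ha, hb⟩, hk⟩ := hx
    have : k - a = b := by omega
    rw [this]
    exact ⟨ha, by omega, hb⟩
  · intro m hm
    simp only [Finset.mem_filter, Finset.mem_product] at hm ⊢
    exact ⟨⟨hm.1, hm.2.2⟩, by omega⟩
  · rintro ⟨a, b⟩ hx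
    simp only [Finset.mem_filter, Finset.mem_product] at hx
    have : k - a = b := by omega
    rw [this]
  · intro m _
    rfl
  · rintro ⟨a, b⟩ hx
    simp only [Finset.mem_filter, Finset.mem_product] at hx
    obtain ⟨_, hk⟩ := hx
    subst hk
    have h1 : a + b - a = b := by omega
    have h2 : (((a + b : ℕ) : ℝ) - 0) * t = ((a : ℝ) - 0) * t + ((b : ℝ) - 0) * t := by
      push_cast
      ring
    simp only [h1]
    rw [h2, Conv_ee_add]
    ring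

private theorem Conv_cont (w : ℕ → ℝ) (s : Finset ℕ) :
    Continuous fun t : ℝ => ‖∑ m ∈ s, ((w m : ℝ) : ℂ) * ee (((m : ℝ) - 0) * t)‖ ^ 2 := by
  unfold ee
  fun_prop

theorem conv_l2 (u v : ℕ → ℝ) (I Y K : Finset ℕ) (S : ℝ)
    (hS : ∀ α : ℝ, ‖∑ m ∈ Y, ((v m : ℝ) : ℂ) * ee (-(α * m))‖ ≤ S) :
    ∑ k ∈ K, (∑ m ∈ I.filter (fun m => m ≤ k ∧ k - m ∈ Y), u m * v (k - m)) ^ 2
      ≤ S ^ 2 * ∑ m ∈ I, u m ^ 2 := by
  set K' := (I ×ˢ Y).image (fun x => x.1 + x.2) with hK'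
  have hS0 : 0 ≤ S := (norm_nonneg _).trans (hS 0)
  -- the sum over `K`
  have hz : ∀ k ∉ K', Conv_c u v I Y k = 0 := by
    intro k hk
    unfold Conv_c
    have h1 : I.filter (fun m => m ≤ k ∧ k - m ∈ Y) = ∅ := by
      rw [Finset.filter_eq_empty_iff]
      rintro m hm ⟨h2, h3⟩
      exact hk (Finset.mem_image.2 ⟨(m, k - m), Finset.mem_product.2 ⟨hm, h3⟩, by simp only; omega⟩)
    rw [h1, Finset.sum_empty]
  have h1 : ∑ k ∈ K, (Conv_c u v I Y k) ^ 2 ≤ ∑ k ∈ K', (Conv_c u v I Y k) ^ 2 := by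
    have h2 : ∑ k ∈ K', (Conv_c u v I Y k) ^ 2 = ∑ k ∈ K ∪ K', (Conv_c u v I Y k) ^ 2 := by
      refine Finset.sum_subset Finset.subset_union_right fun k _ hk => ?_
      rw [hz k hk]
      norm_num
    rw [h2]
    exact Finset.sum_le_sum_of_subset_of_nonneg Finset.subset_union_left
      fun k _ _ => sq_nonneg _
  refine h1.trans ?_
  -- Parseval
  have p1 := Pool.Agent.H91.PK.LSa_parseval K' (fun k => ((Conv_c u v I Y k : ℝ) : ℂ)) 0 0
  have p2 := Pool.Agent.H91.PK.LSa_parseval I (fun k => ((u k : ℝ) : ℂ)) 0 0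
  simp only [Complex.norm_real, Real.norm_eq_abs, sq_abs] at p1 p2
  rw [← p1, ← p2, ← intervalIntegral.integral_const_mul]
  refine intervalIntegral.integral_mono (by norm_num) ?_ ?_ fun t => ?_
  · exact (Conv_cont _ _).intervalIntegrable _ _
  · exact (continuous_const.mul (Conv_cont _ _)).intervalIntegrable _ _
  · simp only
    rw [← Conv_mul, norm_mul, mul_pow, mul_comm]
    refine mul_le_mul_of_nonneg_right ?_ (by positivity)
    refine pow_le_pow_left₀ (norm_nonneg _) ?_ 2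
    have h3 := hS (-t)
    have h4 : ∀ m : ℕ, ee (-(-t * (m : ℝ))) = ee (((m : ℝ) - 0) * t) := by
      intro m
      congr 1
      ring
    simp only [h4] at h3
    exact h3

end Pool.Agent.H43.MP

end

section

/-!
# MIDP Blk: from the average over all intervals (`HUX`, project PSI, helper88) to the blocks and the twists

Step 1 (`cls_blk`).  Fix `d ≤ L^B`, `c`, and call the block `i` bad if `|∑_{m ∈ blk H i, m ≡ c (d)} Λ(m) - M| > H/L^A'`, `M = H/φ(d)` or `0`.  For `x = iH - 1 + j`,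
`0 ≤ j ≤ δ`, `δ = H/(8 L^{A'+1})`, the sum over `(x, x+H]` differs from the one over the block by at most `2 δ log(4N) ≤ H/(2L^A')`
(`Λ(m) ≤ log m`, `log(4N) ≤ 2L`), so its deviation is `> H/(2L^A')`.  The intervals of `x` are disjoint for different `i` (`δ < H`), all `x` are in
`[N/2 - 2H, 3N + H]`, which is contained in `(N1, 2N1] ∪ (N, 2N] ∪ (2N, 4N]`, `N1 = ⌊N/4⌋`, together with `(2N1, 4N1]`: apply `HUX θ'` at the four
values `N/4, N/2, N, 2N` with a large exponent: `#bad · δ · (H/(2L^A'))^2 ≤ 4 · 2N H^2/(log (N/4))^{A''}`.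
Step 2.  `∑_{m ∈ blk} Λ(m) ee(-(a m/r)) = ∑_{c < r} ee(-(a c/r)) ∑_{m ≡ c (r)} Λ(m)`, and `∑_{c < r, (c,r)=1} ee(-(a c/r)) = μ(r)` for `(a, r) = 1`
(`Pool.Agent.H91.EHA.ramS_eq`, `ramS r a = μ(r)`); so if no `(r, c)`, `r ≤ L^B`, `c < r`, is bad with `A' = A + B` the deviation is `≤ r H/L^{A'} ≤ H/L^A`.  Union over the
at most `L^{2B} + ..` pairs `(r, c)`.
-/

set_option autoImplicit false

namespace Pool.Agent.H43.MP

open Finset
open Pool.Agent.H91.EHA (Lam hR lamR ramS)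

/-- primes in almost all intervals of length `N^θ` in classes (in the mean square) -/
def HUX (θ : ℝ) : Prop :=
  ∀ A B : ℕ, ∃ N0 : ℕ, ∀ N : ℕ, N0 ≤ N → ∀ H : ℕ, (N : ℝ) ^ θ ≤ H → (H : ℝ) ≤ (N : ℝ) ^ (1 / 3 : ℝ) →
    ∀ d c : ℕ, 1 ≤ d → (d : ℝ) ≤ Real.log N ^ B →
      ∑ x ∈ Ioc N (2 * N), ((∑ n ∈ (Ioc x (x + H)).filter (fun n => n % d = c % d), Lam n)
        - (if Nat.Coprime c d then (H : ℝ) / d.totient else 0)) ^ 2 ≤ N * (H : ℝ) ^ 2 / Real.log N ^ A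

end Pool.Agent.H43.MP

end

section

/-!
# EQ Vol: the large values of the prime polynomial, by the mean value theorem for its square

`Pl P d l t = ∑_{p ∈ pb P, p ≡ l (d)} ee(-t log p)`; `Pl^2 = ∑_{m ≤ 4P²} c(m) ee(-t log m)`, `c(m) = #{(p, q) : p q = m} ≤ 2`,
`∑ c(m)² ≤ 2 ∑ c(m) ≤ 2 P²`.  `Pool.Agent.H53.MID.mvt` (`τ = 0`, `X = 4 P²`): `∫_{|t| ≤ T} |Pl|^4 ≤ (2T + 8P²(1 + log(4P²))) 2P²`; Chebyshev:
`V^4 vol(B) ≤ ∫_B |Pl|^4`.
-/

set_option autoImplicit false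

namespace Pool.Agent.H31.EQ

open Finset MeasureTheory
open Pool.Agent.H91.PK (ee)
open Pool.Agent.H35.W (pb)
open Pool.Agent.H53.MID (Fp Pl Kl)

private theorem Vol_ee_add (a b : ℝ) : ee (a + b) = ee a * ee b := by
  unfold ee
  rw [← Complex.exp_add]
  congr 1
  push_cast
  ring

private theorem Vol_ee_cont : Continuous ee := by
  unfold ee
  fun_prop

private noncomputable def Vol_S (P d l : ℕ) : Finset ℕ := (pb P).filter (fun p => p % d = l % d)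

private noncomputable def Vol_c (P d l m : ℕ) : ℂ :=
  ((((Vol_S P d l) ×ˢ (Vol_S P d l)).filter (fun x => x.1 * x.2 = m)).card : ℂ)

private theorem Vol_mem (P d l p : ℕ) (hp : p ∈ Vol_S P d l) : p.Prime ∧ P < p ∧ p ≤ 2 * P := by
  simp only [Vol_S, pb, mem_filter, mem_Ioc] at hp
  exact ⟨hp.1.2, hp.1.1.1, hp.1.1.2⟩

private theorem Vol_maps (P d l : ℕ) : ∀ x ∈ (Vol_S P d l) ×ˢ (Vol_S P d l), x.1 * x.2 ∈ Icc 1 (4 * P ^ 2) := by
  intro x hx
  rw [mem_product] at hx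
  have h1 := Vol_mem P d l x.1 hx.1
  have h2 := Vol_mem P d l x.2 hx.2
  rw [mem_Icc]
  constructor
  · exact Nat.mul_pos h1.1.pos h2.1.pos
  · have h3 : x.1 * x.2 ≤ (2 * P) * (2 * P) := Nat.mul_le_mul h1.2.2 h2.2.2
    have h4 : (2 * P) * (2 * P) = 4 * P ^ 2 := by ring
    omega

private theorem Vol_sq (P d l : ℕ) (t : ℝ) :
    Pl P d l t ^ 2 = ∑ m ∈ Icc 1 (4 * P ^ 2), Vol_c P d l m * ee (-((0 + t) * Real.log m)) := by
  have h1 : Pl P d l t ^ 2 = ∑ x ∈ (Vol_S P d l) ×ˢ (Vol_S P d l), ee (-(t * Real.log (x.1 * x.2 : ℕ))) := by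
    rw [sq]
    unfold Pl
    rw [Finset.sum_mul_sum, ← Finset.sum_product']
    refine Finset.sum_congr rfl (fun x hx => ?_)
    have hx' : x ∈ (Vol_S P d l) ×ˢ (Vol_S P d l) := hx
    rw [mem_product] at hx'
    have h1 := (Vol_mem P d l x.1 hx'.1).1.pos
    have h2 := (Vol_mem P d l x.2 hx'.2).1.pos
    rw [← Vol_ee_add, Nat.cast_mul, Real.log_mul (by exact_mod_cast h1.ne') (by exact_mod_cast h2.ne')]
    congr 1
    ring
  rw [h1, ← Finset.sum_fiberwise_of_maps_to (Vol_maps P d l)]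
  refine Finset.sum_congr rfl (fun m _ => ?_)
  rw [Vol_c]
  have h2 : ∀ x ∈ ((Vol_S P d l) ×ˢ (Vol_S P d l)).filter (fun x => x.1 * x.2 = m),
      ee (-(t * Real.log (x.1 * x.2 : ℕ))) = ee (-((0 + t) * Real.log m)) := by
    intro x hx
    rw [mem_filter] at hx
    rw [hx.2, zero_add]
  rw [Finset.sum_congr rfl h2, Finset.sum_const, nsmul_eq_mul]

private theorem Vol_c_le (P d l m : ℕ) :
    (((Vol_S P d l) ×ˢ (Vol_S P d l)).filter (fun x => x.1 * x.2 = m)).card ≤ 2 := by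
  by_cases hne : (((Vol_S P d l) ×ˢ (Vol_S P d l)).filter (fun x => x.1 * x.2 = m)).Nonempty
  · obtain ⟨y, hy⟩ := hne
    rw [mem_filter, mem_product] at hy
    have h1 := (Vol_mem P d l y.1 hy.1.1).1
    have h2 := (Vol_mem P d l y.2 hy.1.2).1
    have hsub : ((Vol_S P d l) ×ˢ (Vol_S P d l)).filter (fun x => x.1 * x.2 = m) ⊆
        {(y.1, y.2), (y.2, y.1)} := by
      intro x hx
      rw [mem_filter, mem_product] at hx
      have h3 := (Vol_mem P d l x.1 hx.1.1).1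
      have h4 := (Vol_mem P d l x.2 hx.1.2).1
      have h5 : x.1 * x.2 = y.1 * y.2 := hx.2.trans hy.2.symm
      have h6 : x.1 ∣ y.1 * y.2 := Dvd.intro _ h5
      rw [mem_insert, mem_singleton]
      rcases (Nat.Prime.dvd_mul h3).mp h6 with h7 | h7
      · have h8 : x.1 = y.1 := (Nat.prime_dvd_prime_iff_eq h3 h1).mp h7
        left
        have h9 : x.2 = y.2 := by
          rw [h8] at h5
          exact Nat.eq_of_mul_eq_mul_left h1.pos h5
        exact Prod.ext h8 h9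
      · have h8 : x.1 = y.2 := (Nat.prime_dvd_prime_iff_eq h3 h2).mp h7
        right
        have h9 : x.2 = y.1 := by
          rw [h8, mul_comm y.1 y.2] at h5
          exact Nat.eq_of_mul_eq_mul_left h2.pos h5
        exact Prod.ext h8 h9
    exact (Finset.card_le_card hsub).trans Finset.card_le_two
  · rw [Finset.not_nonempty_iff_eq_empty] at hne
    rw [hne, Finset.card_empty]
    norm_num

private theorem Vol_csum (P d l : ℕ) : ∑ m ∈ Icc 1 (4 * P ^ 2), ‖Vol_c P d l m‖ ^ 2 ≤ 2 * (P : ℝ) ^ 2 := by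
  have h1 : ∀ m ∈ Icc 1 (4 * P ^ 2), ‖Vol_c P d l m‖ ^ 2 ≤
      2 * ((((Vol_S P d l) ×ˢ (Vol_S P d l)).filter (fun x => x.1 * x.2 = m)).card : ℝ) := by
    intro m _
    rw [Vol_c, Complex.norm_natCast, sq]
    have h2 : ((((Vol_S P d l) ×ˢ (Vol_S P d l)).filter (fun x => x.1 * x.2 = m)).card : ℝ) ≤ 2 := by
      exact_mod_cast Vol_c_le P d l m
    exact mul_le_mul_of_nonneg_right h2 (Nat.cast_nonneg _)
  refine (Finset.sum_le_sum h1).trans ?_
  rw [← Finset.mul_sum]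
  have h2 : ∑ m ∈ Icc 1 (4 * P ^ 2),
      ((((Vol_S P d l) ×ˢ (Vol_S P d l)).filter (fun x => x.1 * x.2 = m)).card : ℝ) =
      ((((Vol_S P d l) ×ˢ (Vol_S P d l))).card : ℝ) := by
    rw [Finset.card_eq_sum_card_fiberwise (Vol_maps P d l)]
    push_cast
    rfl
  rw [h2, Finset.card_product]
  have h3 : (Vol_S P d l).card ≤ P := by
    have h4 : Vol_S P d l ⊆ Ioc P (2 * P) := by
      intro p hp
      have h5 := Vol_mem P d l p hp
      rw [mem_Ioc]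
      exact h5.2
    refine (Finset.card_le_card h4).trans ?_
    rw [Nat.card_Ioc]
    omega
  have h5 : (((Vol_S P d l).card * (Vol_S P d l).card : ℕ) : ℝ) ≤ (P : ℝ) ^ 2 := by
    have h6 : (Vol_S P d l).card * (Vol_S P d l).card ≤ P * P := Nat.mul_le_mul h3 h3
    rw [sq]
    exact_mod_cast h6
  linarith

private theorem Vol_cont (P d l : ℕ) : Continuous (fun t => ‖Pl P d l t‖ ^ 4) := by
  have h1 : Continuous (fun t => Pl P d l t) := by
    unfold Pl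
    refine continuous_finsetSum _ (fun p _ => ?_)
    exact Vol_ee_cont.comp (by fun_prop)
  exact h1.norm.pow 4

theorem vol_le (P d l : ℕ) (V T : ℝ) (hP : 1 ≤ P) (hV : 0 < V) (hT : 0 ≤ T) (B : Set ℝ) (hB : MeasurableSet B)
    (hBT : B ⊆ Set.Icc (-T) T) (hBV : ∀ t ∈ B, V ≤ ‖Pl P d l t‖) :
    volume.real B ≤ (2 * T + 8 * (P : ℝ) ^ 2 * (1 + Real.log (4 * (P : ℝ) ^ 2))) * (2 * (P : ℝ) ^ 2) / V ^ 4 := by
  have hX : 1 ≤ 4 * P ^ 2 := by
    have : 1 ≤ P ^ 2 := Nat.one_le_pow _ _ hP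
    omega
  have hmv := Pool.Agent.H53.MID.mvt (Vol_c P d l) (4 * P ^ 2) T 0 hX hT
  have hI : ∫ t in Set.Icc (-T) T, ‖Pl P d l t‖ ^ 4 =
      ∫ t in Set.Icc (-T) T, ‖∑ m ∈ Icc 1 (4 * P ^ 2), Vol_c P d l m * ee (-((0 + t) * Real.log m))‖ ^ 2 := by
    refine integral_congr_ae (Filter.Eventually.of_forall (fun t => ?_))
    show ‖Pl P d l t‖ ^ 4 = ‖∑ m ∈ Icc 1 (4 * P ^ 2), Vol_c P d l m * ee (-((0 + t) * Real.log m))‖ ^ 2
    rw [← Vol_sq P d l t, norm_pow]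
    ring
  have hint : IntegrableOn (fun t => ‖Pl P d l t‖ ^ 4) (Set.Icc (-T) T) :=
    (Vol_cont P d l).integrableOn_Icc
  have hBfin : volume B ≠ ⊤ := by
    refine ne_top_of_le_ne_top ?_ (measure_mono hBT)
    exact (isCompact_Icc.measure_lt_top).ne
  have h1 : volume.real B * V ^ 4 ≤ ∫ t in B, ‖Pl P d l t‖ ^ 4 := by
    have h2 : ∫ _t in B, V ^ 4 = volume.real B * V ^ 4 := by
      rw [setIntegral_const, smul_eq_mul]
    rw [← h2]
    refine setIntegral_mono_on ?_ (hint.mono_set hBT) hB (fun t ht => ?_)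
    · exact integrableOn_const hBfin
    · exact pow_le_pow_left₀ hV.le (hBV t ht) 4
  have h3 : ∫ t in B, ‖Pl P d l t‖ ^ 4 ≤ ∫ t in Set.Icc (-T) T, ‖Pl P d l t‖ ^ 4 := by
    refine setIntegral_mono_set hint ?_ (Filter.Eventually.of_forall hBT)
    exact Filter.Eventually.of_forall (fun t => by positivity)
  have hlog : 0 ≤ Real.log (4 * (P : ℝ) ^ 2) := by
    apply Real.log_nonneg
    have : (1 : ℝ) ≤ P := by exact_mod_cast hP
    nlinarith
  have h4 : (2 * T + 2 * ((4 * P ^ 2 : ℕ) : ℝ) * (1 + Real.log ((4 * P ^ 2 : ℕ) : ℝ))) *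
      ∑ m ∈ Icc 1 (4 * P ^ 2), ‖Vol_c P d l m‖ ^ 2 ≤
      (2 * T + 8 * (P : ℝ) ^ 2 * (1 + Real.log (4 * (P : ℝ) ^ 2))) * (2 * (P : ℝ) ^ 2) := by
    have h5 : (2 * T + 2 * ((4 * P ^ 2 : ℕ) : ℝ) * (1 + Real.log ((4 * P ^ 2 : ℕ) : ℝ))) =
        (2 * T + 8 * (P : ℝ) ^ 2 * (1 + Real.log (4 * (P : ℝ) ^ 2))) := by
      push_cast
      ring
    rw [h5]
    exact mul_le_mul_of_nonneg_left (Vol_csum P d l) (by positivity)
  rw [le_div_iff₀ (by positivity)]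
  rw [← hI] at hmv
  linarith

end Pool.Agent.H31.EQ

end

section

/-!
# PSI Chi: from characters to a residue class

`φ(d) cl d u f n = ∑_χ χ(u⁻¹) tw χ f n` for `(u, d) = 1` (orthogonality, cf. `VkClass_orth` in `Pool/Agent/H97/VK/VkClass.lean` or `swk1_orth`), `D` is
linear, Cauchy-Schwarz: `|D(cl)|^2 ≤ (1/φ(d)) ∑_χ |D(tw χ f)|^2`.
-/

set_option autoImplicit false

namespace Pool.Agent.H88.PSI

open Finset

private theorem Chi_sum {ι : Type*} (s : Finset ι) (f : ι → ℕ → ℂ) (H H1 x : ℕ) :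
    D (fun n => ∑ i ∈ s, f i n) H H1 x = ∑ i ∈ s, D (f i) H H1 x := by
  unfold D W
  rw [sum_sub_distrib, sum_comm, sum_div, sum_comm (s := Ioc x (x + H1)), sum_div]

private theorem Chi_smul (c : ℂ) (f : ℕ → ℂ) (H H1 x : ℕ) :
    D (fun n => c * f n) H H1 x = c * D f H H1 x := by
  unfold D W
  rw [← mul_sum, ← mul_sum]
  ring

private theorem Chi_orth (f : ArithmeticFunction ℝ) {d u : ℕ} (hd : 1 ≤ d) (hu : Nat.Coprime u d)
    (n : ℕ) : (d.totient : ℂ) * cl d u f n =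
      ∑ χ : DirichletCharacter ℂ d, χ ((u : ZMod d)⁻¹) * tw χ f n := by
  have : NeZero d := ⟨by omega⟩
  have hun : IsUnit (u : ZMod d) := (ZMod.isUnit_iff_coprime u d).mpr hu
  have h1 : ∀ χ : DirichletCharacter ℂ d,
      χ ((u : ZMod d)⁻¹) * tw χ f n = (χ ((u : ZMod d)⁻¹) * χ (n : ZMod d)) * ((f n : ℝ) : ℂ) := by
    intro χ
    show χ ((u : ZMod d)⁻¹) * (((f n : ℝ) : ℂ) * χ (n : ZMod d)) = _
    ring
  simp only [h1]
  rw [← sum_mul, DirichletCharacter.sum_char_inv_mul_char_eq ℂ hun]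
  have hiff : ((u : ZMod d) = (n : ZMod d)) ↔ n % d = u % d := by
    rw [eq_comm]
    exact ZMod.natCast_eq_natCast_iff' n u d
  unfold cl
  by_cases h : n % d = u % d
  · rw [if_pos h, if_pos (hiff.mpr h)]
  · rw [if_neg h, if_neg (fun h' => h (hiff.mp h')), mul_zero, zero_mul]

private theorem Chi_norm {d : ℕ} (χ : DirichletCharacter ℂ d) (a : ZMod d) : ‖χ a‖ ≤ 1 :=
  DirichletCharacter.norm_le_one χ a

private theorem Chi_pt (f : ArithmeticFunction ℝ) {d u : ℕ} (H H1 x : ℕ) (hd : 1 ≤ d)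
    (hu : Nat.Coprime u d) :
    (d.totient : ℝ) * ‖D (cl d u f) H H1 x‖ ^ 2 ≤
      ∑ χ : DirichletCharacter ℂ d, ‖D (tw χ f) H H1 x‖ ^ 2 := by
  have hne : NeZero d := ⟨by omega⟩
  have hφ : (0 : ℝ) < d.totient := by exact_mod_cast Nat.totient_pos.2 hd
  have h1 : (d.totient : ℂ) * D (cl d u f) H H1 x =
      ∑ χ : DirichletCharacter ℂ d, χ ((u : ZMod d)⁻¹) * D (tw χ f) H H1 x := by
    rw [← Chi_smul]
    have e : (fun n => (d.totient : ℂ) * cl d u f n) =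
        fun n => ∑ χ : DirichletCharacter ℂ d, χ ((u : ZMod d)⁻¹) * tw χ f n :=
      funext (Chi_orth f hd hu)
    rw [e, Chi_sum]
    refine sum_congr rfl fun χ _ => ?_
    exact Chi_smul _ _ _ _ _
  have h2 : (d.totient : ℝ) * ‖D (cl d u f) H H1 x‖ ≤
      ∑ χ : DirichletCharacter ℂ d, ‖D (tw χ f) H H1 x‖ := by
    have e : (d.totient : ℝ) * ‖D (cl d u f) H H1 x‖ =
        ‖(d.totient : ℂ) * D (cl d u f) H H1 x‖ := by
      rw [norm_mul, Complex.norm_natCast]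
    rw [e, h1]
    refine (norm_sum_le _ _).trans (sum_le_sum fun χ _ => ?_)
    rw [norm_mul]
    exact mul_le_of_le_one_left (norm_nonneg _) (Chi_norm χ _)
  have hcard : ((univ : Finset (DirichletCharacter ℂ d)).card : ℝ) = d.totient := by
    rw [card_univ, ← Nat.card_eq_fintype_card,
      DirichletCharacter.card_eq_totient_of_hasEnoughRootsOfUnity ℂ d]
  have h3 : (∑ χ : DirichletCharacter ℂ d, ‖D (tw χ f) H H1 x‖) ^ 2 ≤
      (d.totient : ℝ) * ∑ χ : DirichletCharacter ℂ d, ‖D (tw χ f) H H1 x‖ ^ 2 := by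
    rw [← hcard]
    exact sq_sum_le_card_mul_sum_sq
  have h4 : ((d.totient : ℝ) * ‖D (cl d u f) H H1 x‖) ^ 2 ≤
      (∑ χ : DirichletCharacter ℂ d, ‖D (tw χ f) H H1 x‖) ^ 2 :=
    pow_le_pow_left₀ (by positivity) h2 2
  have h5 : (d.totient : ℝ) * ((d.totient : ℝ) * ‖D (cl d u f) H H1 x‖ ^ 2) ≤
      (d.totient : ℝ) * ∑ χ : DirichletCharacter ℂ d, ‖D (tw χ f) H H1 x‖ ^ 2 := by
    refine le_trans (le_of_eq ?_) (h4.trans h3)
    ring
  exact le_of_mul_le_mul_left h5 hφ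

theorem chi_cl (f : ArithmeticFunction ℝ) (d u H H1 : ℕ) (S : Finset ℕ) (E : ℝ) (hd : 1 ≤ d)
    (hu : Nat.Coprime u d)
    (h : ∀ χ : DirichletCharacter ℂ d, ∑ x ∈ S, ‖D (tw χ f) H H1 x‖ ^ 2 ≤ E) :
    ∑ x ∈ S, ‖D (cl d u f) H H1 x‖ ^ 2 ≤ E := by
  have hne : NeZero d := ⟨by omega⟩
  have hφ : (0 : ℝ) < d.totient := by exact_mod_cast Nat.totient_pos.2 hd
  have hcard : ((univ : Finset (DirichletCharacter ℂ d)).card : ℝ) = d.totient := by
    rw [card_univ, ← Nat.card_eq_fintype_card,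
      DirichletCharacter.card_eq_totient_of_hasEnoughRootsOfUnity ℂ d]
  have h1 : (d.totient : ℝ) * ∑ x ∈ S, ‖D (cl d u f) H H1 x‖ ^ 2 ≤ (d.totient : ℝ) * E := by
    rw [mul_sum]
    calc ∑ x ∈ S, (d.totient : ℝ) * ‖D (cl d u f) H H1 x‖ ^ 2
        ≤ ∑ x ∈ S, ∑ χ : DirichletCharacter ℂ d, ‖D (tw χ f) H H1 x‖ ^ 2 :=
          sum_le_sum fun x _ => Chi_pt f H H1 x hd hu
      _ = ∑ χ : DirichletCharacter ℂ d, ∑ x ∈ S, ‖D (tw χ f) H H1 x‖ ^ 2 := sum_comm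
      _ ≤ ∑ χ : DirichletCharacter ℂ d, E := sum_le_sum fun χ _ => h χ
      _ = (d.totient : ℝ) * E := by rw [sum_const, nsmul_eq_mul, hcard]
  exact le_of_mul_le_mul_left h1 hφ

/-- `D` is additive -/
theorem d_sum {ι : Type*} (s : Finset ι) (f : ι → ℕ → ℂ) (H H1 x : ℕ) :
    D (fun n => ∑ i ∈ s, f i n) H H1 x = ∑ i ∈ s, D (f i) H H1 x :=
  Chi_sum s f H H1 x

theorem d_smul (c : ℂ) (f : ℕ → ℂ) (H H1 x : ℕ) :
    D (fun n => c * f n) H H1 x = c * D f H H1 x :=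
  Chi_smul c f H H1 x

end Pool.Agent.H88.PSI

end
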