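import Pool.Agent.H43.PJ.H91.GoldMertens
import Pool.Agent.H43.PJ.M07
import Pool.Agent.H43.PJ.M43

/-! The parts of this file: H43.TP.Alg, H43.TP.Err, H43.TP.Sup, H43.TS.Defs, H43.TS.Wd, H76.TP.TyI, Lead.ZN.Mertens, H76.TP.Gup. -/

section

/-!
# TP Alg: the inequality `1_P 1_P' ≥ 1_P F' + F 1_P' - F F'`, the splitting `F = k Λ_R + F#`, the solutions
-/

set_option autoImplicit false

namespace Pool.Agent.H43.TP

open Finset
open Pool.Agent.H91.PK (ee)
open Pool.Agent.H91.EHA (Lam lamR)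
open Pool.Agent.H43.MP (blk Hn idx Rn)

/-- the indicator of the primes -/
noncomputable def pr (m : ℕ) : ℝ := if m.Prime then 1 else 0

/-- the number of `u ∈ blk` with `u` and `2n - u` prime -/
noncomputable def cn (H i n : ℕ) : ℝ := ∑ u ∈ blk H i, pr u * pr (2 * n - u)

theorem rf_add_right (H i : ℕ) (f g g' : ℕ → ℝ) (k : ℝ) (n : ℕ) :
    rf H i f (fun m => k * g m + g' m) n = k * rf H i f g n + rf H i f g' n := by
  unfold rf
  rw [Finset.mul_sum, ← Finset.sum_add_distrib]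
  refine Finset.sum_congr rfl fun u _ => ?_
  ring

theorem rf_add_left (H i : ℕ) (f g g' : ℕ → ℝ) (k : ℝ) (n : ℕ) :
    rf H i (fun m => k * g m + g' m) f n = k * rf H i g f n + rf H i g' f n := by
  unfold rf
  rw [Finset.mul_sum, ← Finset.sum_add_distrib]
  refine Finset.sum_congr rfl fun u _ => ?_
  ring

theorem F_split (R : ℕ) (k : ℝ) (F : ℕ → ℝ) : F = fun m => k * lamR R m + Fh R k F m := by
  funext m
  unfold Fh
  ring

/-- the solutions -/
theorem cn_le (H i n : ℕ) (hi : 1 ≤ i) (hn : n ∈ blk H i) : cn H i n ≤ ((sol2 H n).ncard : ℝ) := by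
  classical
  unfold blk at hn
  rw [mem_Ico] at hn
  have e1 : (i + 1) * H = i * H + H := by ring
  have e2 : H ≤ i * H := Nat.le_mul_of_pos_left H hi
  set S := (blk H i).filter (fun u => u.Prime ∧ (2 * n - u).Prime) with hS
  have h1 : cn H i n = (S.card : ℝ) := by
    unfold cn
    rw [hS, Finset.card_filter]
    push_cast
    refine Finset.sum_congr rfl fun u _ => ?_
    unfold pr
    by_cases a : u.Prime <;> by_cases b : (2 * n - u).Prime <;> simp [a, b]
  rw [h1]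
  have hfin : (sol2 H n).Finite := by
    refine Set.Finite.subset (Set.finite_Icc (-(H : ℤ)) H) ?_
    rintro x ⟨hx, -⟩
    rw [Set.mem_Icc]
    exact abs_le.1 hx
  have h2 : ((S.image (fun u : ℕ => (n : ℤ) - u) : Finset ℤ) : Set ℤ) ⊆ sol2 H n := by
    intro x hx
    rw [Finset.mem_coe, Finset.mem_image] at hx
    obtain ⟨u, hu, rfl⟩ := hx
    rw [hS, Finset.mem_filter] at hu
    obtain ⟨hu1, hu2, hu3⟩ := hu
    unfold blk at hu1
    rw [mem_Ico] at hu1
    refine ⟨?_, u, 2 * n - u, hu2, hu3, ?_, ?_⟩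
    · rw [abs_le]
      constructor <;> omega
    · omega
    · omega
  have h3 := Set.ncard_le_ncard h2 hfin
  rw [Set.ncard_coe_finset, Finset.card_image_of_injective] at h3
  · exact_mod_cast h3
  · intro a b hab
    simp only at hab
    omega

end Pool.Agent.H43.TP

end

section

/-!
# TP Err: mean squares of the error sums (Parseval)
-/

set_option autoImplicit false

namespace Pool.Agent.H43.TP

open Finset
open Pool.Agent.H91.PK (ee)
open Pool.Agent.H43.MP (blk Hn idx Rn)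

/-- `∑_n (∑_{u ∈ blk} f(u) g(2n-u))^2`, `g` uniform on the three blocks -/
theorem err1 (f g : ℕ → ℝ) (H i : ℕ) (hi : 1 ≤ i) (S : ℝ)
    (h0 : ∀ α : ℝ, ‖∑ m ∈ blk H (i - 1), ((g m : ℝ) : ℂ) * ee (-(α * m))‖ ≤ S)
    (h1 : ∀ α : ℝ, ‖∑ m ∈ blk H i, ((g m : ℝ) : ℂ) * ee (-(α * m))‖ ≤ S)
    (h2 : ∀ α : ℝ, ‖∑ m ∈ blk H (i + 1), ((g m : ℝ) : ℂ) * ee (-(α * m))‖ ≤ S) :
    ∑ n ∈ blk H i, rf H i f g n ^ 2 ≤ 9 * S ^ 2 * ∑ m ∈ blk H i, f m ^ 2 := by
  obtain ⟨j, rfl⟩ : ∃ j, i = j + 1 := ⟨i - 1, by omega⟩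
  rw [Nat.add_sub_cancel] at h0
  set Y : Finset ℕ := Ico (j * H) ((j + 3) * H) with hY
  have e1 : (j + 1) * H = j * H + H := by ring
  have e2 : (j + 1 + 1) * H = j * H + 2 * H := by ring
  have e3 : (j + 3) * H = j * H + 3 * H := by ring
  have e4 : (j + 1 + 1 + 1) * H = j * H + 3 * H := by ring
  have hYs : ∀ α : ℝ, ‖∑ m ∈ Y, ((g m : ℝ) : ℂ) * ee (-(α * m))‖ ≤ 3 * S := by
    intro α
    have h3 : ∑ m ∈ Y, ((g m : ℝ) : ℂ) * ee (-(α * m)) =
        ∑ m ∈ blk H j, ((g m : ℝ) : ℂ) * ee (-(α * m)) +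
        ∑ m ∈ blk H (j + 1), ((g m : ℝ) : ℂ) * ee (-(α * m)) +
        ∑ m ∈ blk H (j + 1 + 1), ((g m : ℝ) : ℂ) * ee (-(α * m)) := by
      unfold blk
      rw [Finset.sum_Ico_consecutive _ (by rw [e1]; omega) (by rw [e1, e2]; omega),
        Finset.sum_Ico_consecutive _ (by rw [e2]; omega) (by rw [e2, e4]; omega)]
    rw [h3]
    calc _ ≤ S + S + S := (norm_add_le _ _).trans (add_le_add ((norm_add_le _ _).trans
            (add_le_add (h0 α) (h1 α))) (h2 α))
      _ = 3 * S := by ring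
  have key := Pool.Agent.H43.MP.conv_l2 f g (blk H (j + 1)) Y ((blk H (j + 1)).image (fun n => 2 * n))
    (3 * S) hYs
  rw [Finset.sum_image (fun a _ b _ hab => by omega)] at key
  have h4 : ∑ n ∈ blk H (j + 1), rf H (j + 1) f g n ^ 2 =
      ∑ n ∈ blk H (j + 1), (∑ m ∈ (blk H (j + 1)).filter (fun m => m ≤ 2 * n ∧ 2 * n - m ∈ Y),
        f m * g (2 * n - m)) ^ 2 := by
    refine Finset.sum_congr rfl fun n hn => ?_
    unfold rf
    congr 1
    rw [Finset.filter_true_of_mem]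
    intro m hm
    unfold blk at hm hn
    rw [Finset.mem_Ico, e1, e2] at hm hn
    rw [hY, Finset.mem_Ico, e3]
    omega
  rw [h4]
  refine key.trans (le_of_eq ?_)
  ring

/-- `∑_n (∑_{u ∈ blk} g(u) f(2n-u))^2`, `g` uniform on the block -/
theorem err2 (f g : ℕ → ℝ) (H i : ℕ) (hi : 1 ≤ i) (S : ℝ)
    (h1 : ∀ α : ℝ, ‖∑ m ∈ blk H i, ((g m : ℝ) : ℂ) * ee (-(α * m))‖ ≤ S) :
    ∑ n ∈ blk H i, rf H i g f n ^ 2 ≤ S ^ 2 * (∑ m ∈ blk H (i - 1), f m ^ 2 + ∑ m ∈ blk H i, f m ^ 2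
      + ∑ m ∈ blk H (i + 1), f m ^ 2) := by
  obtain ⟨j, rfl⟩ : ∃ j, i = j + 1 := ⟨i - 1, by omega⟩
  rw [Nat.add_sub_cancel]
  set Y : Finset ℕ := Ico (j * H) ((j + 3) * H) with hY
  have e1 : (j + 1) * H = j * H + H := by ring
  have e2 : (j + 1 + 1) * H = j * H + 2 * H := by ring
  have e3 : (j + 3) * H = j * H + 3 * H := by ring
  have e4 : (j + 1 + 1 + 1) * H = j * H + 3 * H := by ring
  have h3 : ∑ m ∈ Y, f m ^ 2 = ∑ m ∈ blk H j, f m ^ 2 + ∑ m ∈ blk H (j + 1), f m ^ 2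
      + ∑ m ∈ blk H (j + 1 + 1), f m ^ 2 := by
    unfold blk
    rw [Finset.sum_Ico_consecutive _ (by rw [e1]; omega) (by rw [e1, e2]; omega),
      Finset.sum_Ico_consecutive _ (by rw [e2]; omega) (by rw [e2, e4]; omega)]
  have key := Pool.Agent.H43.MP.conv_l2 f g Y (blk H (j + 1)) ((blk H (j + 1)).image (fun n => 2 * n))
    S h1
  rw [Finset.sum_image (fun a _ b _ hab => by omega), h3] at key
  refine le_trans (le_of_eq ?_) key
  refine Finset.sum_congr rfl fun n hn => ?_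
  unfold rf
  congr 1
  refine Finset.sum_nbij' (fun u => 2 * n - u) (fun u => 2 * n - u) ?_ ?_ ?_ ?_ ?_
  · intro u hu
    unfold blk at hu hn
    rw [Finset.mem_Ico, e1, e2] at hu hn
    unfold blk
    rw [Finset.mem_filter, hY, Finset.mem_Ico, Finset.mem_Ico, e1, e2, e3]
    omega
  · intro u hu
    rw [Finset.mem_filter] at hu
    exact hu.2.2
  · intro u hu
    unfold blk at hu hn
    rw [Finset.mem_Ico, e1, e2] at hu hn
    omega
  · intro u hu
    rw [Finset.mem_filter] at hu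
    omega
  · intro u hu
    unfold blk at hu hn
    rw [Finset.mem_Ico, e1, e2] at hu hn
    have : 2 * n - (2 * n - u) = u := by omega
    rw [this, mul_comm]

end Pool.Agent.H43.TP

end

section

/-!
# TP Sup: the uniformity of `F#` in the neighbouring blocks, the lower bound of `κ`, the exceptional `n` of a block
-/

set_option autoImplicit false

namespace Pool.Agent.H43.TP

open Finset
open Pool.Agent.H91.PK (ee)
open Pool.Agent.H91.EHA (Lam lamR)
open Pool.Agent.H43.MP (blk Hn idx Rn)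

private theorem Sup_ee (t : ℝ) : ‖ee t‖ = 1 := Pool.Agent.H91.PK.LSa_norm_ee t

theorem blk_card (H i : ℕ) : (blk H i).card = H := by
  unfold blk
  rw [Nat.card_Ico]
  have : (i + 1) * H = i * H + H := by ring
  omega

private theorem Sup_l1 (g : ℕ → ℝ) (H j : ℕ) (L : ℝ) (hL : 0 ≤ L) (h : ∑ m ∈ blk H j, g m ^ 2 ≤ H * L ^ 2) :
    ∑ m ∈ blk H j, |g m| ≤ H * L := by
  have h1 : (∑ m ∈ blk H j, |g m|) ^ 2 ≤ (H * L) ^ 2 := by
    have h2 := sq_sum_le_card_mul_sum_sq (s := blk H j) (f := fun m => |g m|)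
    rw [blk_card] at h2
    simp only [sq_abs] at h2
    calc (∑ m ∈ blk H j, |g m|) ^ 2 ≤ (H : ℝ) * ∑ m ∈ blk H j, g m ^ 2 := h2
      _ ≤ H * (H * L ^ 2) := mul_le_mul_of_nonneg_left h (Nat.cast_nonneg _)
      _ = (H * L) ^ 2 := by ring
  exact le_of_sq_le_sq h1 (by positivity)

theorem sup_nb (H j R : ℕ) (k k' δ s L : ℝ) (F : ℕ → ℝ) (hL : 0 ≤ L)
    (h1 : ∀ α : ℝ, ‖∑ m ∈ blk H j, ((F m - k' * lamR R m : ℝ) : ℂ) * ee (-(α * m))‖ ≤ s)
    (h2 : |k - k'| ≤ δ) (h3 : ∑ m ∈ blk H j, lamR R m ^ 2 ≤ H * L ^ 2) (α : ℝ) :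
    ‖∑ m ∈ blk H j, ((Fh R k F m : ℝ) : ℂ) * ee (-(α * m))‖ ≤ s + δ * (H * L) := by
  have e : ∑ m ∈ blk H j, ((Fh R k F m : ℝ) : ℂ) * ee (-(α * m)) =
      ∑ m ∈ blk H j, ((F m - k' * lamR R m : ℝ) : ℂ) * ee (-(α * m)) +
      ∑ m ∈ blk H j, (((k' - k) * lamR R m : ℝ) : ℂ) * ee (-(α * m)) := by
    rw [← Finset.sum_add_distrib]
    refine Finset.sum_congr rfl fun m _ => ?_
    rw [← add_mul, ← Complex.ofReal_add]
    congr 2
    unfold Fh
    ring
  rw [e]
  refine (norm_add_le _ _).trans (add_le_add (h1 α) ?_)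
  calc ‖∑ m ∈ blk H j, (((k' - k) * lamR R m : ℝ) : ℂ) * ee (-(α * m))‖
      ≤ ∑ m ∈ blk H j, |k - k'| * |lamR R m| := by
        refine norm_sum_le_of_le _ fun m _ => ?_
        rw [norm_mul, Sup_ee, mul_one, Complex.norm_real, Real.norm_eq_abs, abs_mul, abs_sub_comm]
    _ = |k - k'| * ∑ m ∈ blk H j, |lamR R m| := by rw [Finset.mul_sum]
    _ ≤ δ * (H * L) := mul_le_mul h2 (Sup_l1 _ H j L hL h3) (Finset.sum_nonneg fun _ _ => abs_nonneg _)
        ((abs_nonneg _).trans h2)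

end Pool.Agent.H43.TP

end

section

/-!
# TS: abstract final part for certificates `1_P(u) 1_P(v) ≥ ∑_j (X_j(u) Y_j(v) + Y_j(u) X_j(v))` (MP_967f73_nt): definitions

Blocks `blk H i = [iH, (i+1)H)`, `H = Hn θ N`, `R = Rn B N`, `L = log N`, `rf H i f g n = ∑_{u ∈ blk H i} f(u) g(2n-u)`.
* `X_j` is locally Fourier uniform: `badF N H R A X k` has few elements (`k i` = density of `X` in the block `i`);
* `Y_j` has the right main term: `badM N H R D Y l` has few elements (`l i` = density of `Y` in the block `i`).  It follows from LFU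
  (`MpL`), from the equidistribution in almost all blocks and reflected blocks (`badQ`, `badQN`, `MpW`), and holds for `pr` (`Pr`).
* `badE`: the `n` where `∑ Y(u) (X - k lamR)(2n - u)` is large.
-/

set_option autoImplicit false

namespace Pool.Agent.H43.TS

open Finset
open Pool.Agent.H91.PK (ee)
open Pool.Agent.H91.EHA (Lam lamR)
open Pool.Agent.H43.MP (blk Hn idx Rn)
open Pool.Agent.H43.TP (rf Fh badF pr)
open Pool.Agent.H76.GB (SR)

open Classical in
/-- the blocks where `G` is not equidistributed with the density `g` -/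
noncomputable def badQ (N H A B : ℕ) (G g : ℕ → ℝ) : Finset ℕ :=
  (idx N H).filter (fun i => ∃ r a : ℕ, 1 ≤ r ∧ (r : ℝ) ≤ Real.log N ^ B ∧ Nat.Coprime a r ∧
    (H : ℝ) / Real.log N ^ A < ‖∑ m ∈ blk H i, ((G m : ℝ) : ℂ) * ee (-((a : ℝ) * m / r))
      - (((ArithmeticFunction.moebius r : ℝ) / (r.totient : ℝ) * (H * g i) : ℝ) : ℂ)‖)

open Classical in
/-- the `n` where `G` is not equidistributed in the reflected block -/
noncomputable def badQN (N H A B : ℕ) (G g : ℕ → ℝ) : Finset ℕ :=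
  (Ioc N (2 * N)).filter (fun n => ∃ r a : ℕ, 1 ≤ r ∧ (r : ℝ) ≤ Real.log N ^ B ∧ Nat.Coprime a r ∧
    (H : ℝ) / Real.log N ^ A <
      ‖∑ u ∈ blk H (n / H), ((G (2 * n - u) : ℝ) : ℂ) * ee (-((a : ℝ) * ((2 * n - u : ℕ) : ℝ) / r))
      - (((ArithmeticFunction.moebius r : ℝ) / (r.totient : ℝ) * (H * g (n / H)) : ℝ) : ℂ)‖)

open Classical in
/-- the `n` where the correlation of `G` with `Λ_R` is wrong -/
noncomputable def badM (N H R D : ℕ) (G g : ℕ → ℝ) : Finset ℕ :=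
  (Ioc N (2 * N)).filter (fun n =>
    (H : ℝ) / Real.log N ^ D < |rf H (n / H) (lamR R) G n - g (n / H) * (H * SR R (2 * n))| ∨
    (H : ℝ) / Real.log N ^ D < |rf H (n / H) G (lamR R) n - g (n / H) * (H * SR R (2 * n))|)

open Classical in
/-- the `n` where the correlation of `Y` with `X - k Λ_R` is not small -/
noncomputable def badE (N H R D : ℕ) (X k Y : ℕ → ℝ) : Finset ℕ :=
  (Ioc N (2 * N)).filter (fun n =>
    (H : ℝ) / Real.log N ^ D < |rf H (n / H) Y (Fh R (k (n / H)) X) n| ∨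
    (H : ℝ) / Real.log N ^ D < |rf H (n / H) (Fh R (k (n / H)) X) Y n|)

/-- the certificate: the black box of the final part -/
def CERT (θ c : ℝ) (s : ℕ) : Prop := ∃ C : ℕ, ∀ A : ℕ, ∃ B N0 : ℕ, ∀ N : ℕ, N0 ≤ N →
  ∃ X Y k l : Fin s → ℕ → ℝ,
    (∀ u v : ℕ, N ≤ 4 * u → u ≤ 4 * N → N ≤ 4 * v → v ≤ 4 * N →
      ∑ j, (X j u * Y j v + Y j u * X j v) ≤ pr u * pr v) ∧
    (∀ j, ∀ i ∈ idx N (Hn θ N), |k j i| ≤ 1) ∧
    (∀ j, ∀ i ∈ idx N (Hn θ N), ∑ m ∈ blk (Hn θ N) i, Y j m ^ 2 ≤ Hn θ N * Real.log N ^ C) ∧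
    (∀ j, ∀ i ∈ idx N (Hn θ N), i + 1 ∈ idx N (Hn θ N) → |k j i - k j (i + 1)| ≤ 1 / Real.log N ^ A) ∧
    (∀ j, ((badF N (Hn θ N) (Rn B N) A (X j) (k j)).card : ℝ) ≤ (N : ℝ) / (Hn θ N) / Real.log N ^ A) ∧
    (∀ j, ((badM N (Hn θ N) (Rn B N) 3 (Y j) (l j)).card : ℝ) ≤ (N : ℝ) / Real.log N ^ A) ∧
    (∀ i ∈ idx N (Hn θ N), c / Real.log N ^ 2 ≤ 2 * ∑ j, k j i * l j i)

end Pool.Agent.H43.TS

end

section

/-!
# TS Wd: equidistribution in the blocks and the reflected blocks from the mean square over all windows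

`WDx` (project EQ, helper31): `∑_{N/8 ≤ x ≤ 8N} (∑_{n ∈ (x, x+H], n = c (d)} Y n - [(c,d)=1] H η(x)/φ(d))^2 ≤ N H^2/L^A1` for all `d ≤ L^B`, `c`.
* Blocks: if the class sum over `blk H i` deviates by `> H/L^A'`, so do the windows of `x = iH - 1 + j`, `0 ≤ j ≤ δ = H/(16 M L^A')`, by `> H/(2 L^A')`.
* Reflected blocks: `{2n - u : u ∈ blk H (n/H)} = (x, x+H]`, `x = 2n - (n/H + 1) H`, every `x` is taken at most twice.
* Twists: `∑_{c mod r} ee(-ac/r)` of the class sums; `∑_{(c,r)=1} ee(-ac/r) = μ(r)`.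
-/

set_option autoImplicit false

namespace Pool.Agent.H43.TS

open Finset
open Pool.Agent.H91.PK (ee)
open Pool.Agent.H91.EHA (Lam lamR ramS)
open Pool.Agent.H43.MP (blk Hn idx Rn)

/-- shifting the window by `j` -/
private theorem Wd_shift (f : ℕ → ℝ) {K : ℝ} (a j H X : ℕ) (ha : 1 ≤ a)
    (hX : a + H + j ≤ X) (hK : ∀ n, 1 ≤ n → n ≤ X → |f n| ≤ K) :
    |∑ n ∈ Ioc (a - 1 + j) (a - 1 + j + H), f n - ∑ n ∈ Ico a (a + H), f n| ≤ 2 * (j * K) := by
  have e1 : Ioc (a - 1 + j) (a - 1 + j + H) = Ico (a + j) (a + j + H) := by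
    ext n
    simp only [mem_Ioc, mem_Ico]
    omega
  have s1 : ∑ n ∈ Ico a (a + H), f n + ∑ n ∈ Ico (a + H) (a + H + j), f n =
      ∑ n ∈ Ico a (a + H + j), f n := Finset.sum_Ico_consecutive f (by omega) (by omega)
  have s2 : ∑ n ∈ Ico a (a + j), f n + ∑ n ∈ Ico (a + j) (a + j + H), f n =
      ∑ n ∈ Ico a (a + j + H), f n := Finset.sum_Ico_consecutive f (by omega) (by omega)
  have e2 : a + j + H = a + H + j := by omega
  rw [e2] at s2
  rw [e1, e2]
  have b1 : |∑ n ∈ Ico (a + H) (a + H + j), f n| ≤ j * K := by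
    calc |∑ n ∈ Ico (a + H) (a + H + j), f n| ≤ ∑ n ∈ Ico (a + H) (a + H + j), |f n| :=
          Finset.abs_sum_le_sum_abs _ _
      _ ≤ ∑ _n ∈ Ico (a + H) (a + H + j), K := by
          refine Finset.sum_le_sum fun n hn => ?_
          rw [mem_Ico] at hn
          exact hK n (by omega) (by omega)
      _ = j * K := by
          rw [Finset.sum_const, Nat.card_Ico, nsmul_eq_mul]
          congr 2
          omega
  have b2 : |∑ n ∈ Ico a (a + j), f n| ≤ j * K := by
    calc |∑ n ∈ Ico a (a + j), f n| ≤ ∑ n ∈ Ico a (a + j), |f n| :=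
          Finset.abs_sum_le_sum_abs _ _
      _ ≤ ∑ _n ∈ Ico a (a + j), K := by
          refine Finset.sum_le_sum fun n hn => ?_
          rw [mem_Ico] at hn
          exact hK n (by omega) (by omega)
      _ = j * K := by
          rw [Finset.sum_const, Nat.card_Ico, nsmul_eq_mul]
          congr 2
          omega
  rw [abs_le] at b1 b2 ⊢
  constructor <;> linarith

/-- the number of bad blocks from the mean square over the windows -/
private theorem Wd_count (G : ℕ → ℝ) (hG : ∀ x, 0 ≤ G x) (bad : Finset ℕ) (H δ K1 K2 : ℕ) {g : ℝ}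
    (hδ : δ < H) (hi : ∀ i ∈ bad, 1 ≤ i * H ∧ K1 ≤ i * H - 1 ∧ i * H - 1 + δ ≤ K2)
    (hb : ∀ i ∈ bad, ∀ j ≤ δ, g ≤ G (i * H - 1 + j)) :
    bad.card * ((δ + 1 : ℕ) * g) ≤ ∑ x ∈ Icc K1 K2, G x := by
  classical
  have hinj : Set.InjOn (fun t : ℕ × ℕ => t.1 * H - 1 + t.2)
      ((bad ×ˢ range (δ + 1) : Finset (ℕ × ℕ)) : Set (ℕ × ℕ)) := by
    intro s hs t ht hst
    rw [Finset.mem_coe, Finset.mem_product, Finset.mem_range] at hs ht
    have hst' : s.1 * H - 1 + s.2 = t.1 * H - 1 + t.2 := hst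
    have h1 := (hi s.1 hs.1).1
    have h2 := (hi t.1 ht.1).1
    have h3 : s.1 * H + s.2 = t.1 * H + t.2 := by omega
    have h4 : s.2 < H := by omega
    have h5 : t.2 < H := by omega
    have h6 : s.1 = t.1 := by
      have e1 : (s.1 * H + s.2) / H = s.1 := by
        rw [mul_comm, Nat.mul_add_div (by omega), Nat.div_eq_of_lt h4, add_zero]
      have e2 : (t.1 * H + t.2) / H = t.1 := by
        rw [mul_comm, Nat.mul_add_div (by omega), Nat.div_eq_of_lt h5, add_zero]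
      rw [← e1, h3, e2]
    have h7 : s.2 = t.2 := by
      rw [h6] at h3
      omega
    exact Prod.ext h6 h7
  have hsub : (bad ×ˢ range (δ + 1)).image (fun t : ℕ × ℕ => t.1 * H - 1 + t.2) ⊆
      Icc K1 K2 := by
    intro x hx
    rw [Finset.mem_image] at hx
    obtain ⟨t, ht, rfl⟩ := hx
    rw [Finset.mem_product, Finset.mem_range] at ht
    obtain ⟨_, h2, h3⟩ := hi t.1 ht.1
    rw [mem_Icc]
    omega
  calc (bad.card : ℝ) * ((δ + 1 : ℕ) * g) = ∑ _t ∈ bad ×ˢ range (δ + 1), g := by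
        rw [Finset.sum_const, Finset.card_product, Finset.card_range, nsmul_eq_mul]
        push_cast
        ring
    _ ≤ ∑ t ∈ bad ×ˢ range (δ + 1), G (t.1 * H - 1 + t.2) := by
        refine Finset.sum_le_sum fun t ht => ?_
        rw [Finset.mem_product, Finset.mem_range] at ht
        exact hb t.1 ht.1 t.2 (by omega)
    _ = ∑ x ∈ (bad ×ˢ range (δ + 1)).image (fun t : ℕ × ℕ => t.1 * H - 1 + t.2), G x := by
        rw [Finset.sum_image hinj]
    _ ≤ ∑ x ∈ Icc K1 K2, G x :=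
        Finset.sum_le_sum_of_subset_of_nonneg hsub fun x _ _ => hG x

/-- the representative of `m` in `[1, r]` -/
private def Wd_kap (r m : ℕ) : ℕ := if m % r = 0 then r else m % r

private theorem Wd_kap_mem {r : ℕ} (hr : 1 ≤ r) (m : ℕ) : Wd_kap r m ∈ Icc 1 r := by
  unfold Wd_kap
  have := Nat.mod_lt m (by omega : 0 < r)
  rw [mem_Icc]
  split_ifs <;> omega

private theorem Wd_kap_eq {r : ℕ} {m c : ℕ} (hc : c ∈ Icc 1 r) :
    Wd_kap r m = c ↔ m % r = c % r := by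
  rw [mem_Icc] at hc
  unfold Wd_kap
  rcases Nat.lt_or_ge c r with h | h
  · rw [Nat.mod_eq_of_lt h]
    split_ifs with h1
    · omega
    · rfl
  · have h2 : c = r := by omega
    rw [h2, Nat.mod_self]
    have := Nat.mod_lt m (by omega : 0 < r)
    split_ifs with h1
    · simp [h1]
    · constructor
      · intro h3
        omega
      · intro h3
        exact absurd h3 h1

private theorem Wd_ee_int (t : ℝ) (k : ℤ) : ee (t + k) = ee t := by
  unfold Pool.Agent.H91.PK.ee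
  have e : 2 * Real.pi * ((t + k : ℝ) : ℂ) * Complex.I =
      2 * Real.pi * (t : ℂ) * Complex.I + k * (2 * Real.pi * Complex.I) := by
    push_cast
    ring
  rw [e, Complex.exp_add, Complex.exp_int_mul_two_pi_mul_I, mul_one]

private theorem Wd_ee_norm (t : ℝ) : ‖ee t‖ = 1 := by
  unfold Pool.Agent.H91.PK.ee
  have e : 2 * Real.pi * (t : ℂ) * Complex.I = ((2 * Real.pi * t : ℝ) : ℂ) * Complex.I := by
    push_cast
    ring
  rw [e, Complex.norm_exp_ofReal_mul_I]

private theorem Wd_ee_neg (t : ℝ) : ee (-t) = (starRingEnd ℂ) (ee t) := by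
  unfold Pool.Agent.H91.PK.ee
  rw [← Complex.exp_conj]
  congr 1
  simp only [map_mul, Complex.conj_ofReal, Complex.conj_I, map_ofNat]
  push_cast
  ring

private theorem Wd_ee_mod {r m c : ℕ} (a : ℕ) (hr : 1 ≤ r) (h : m % r = c % r) :
    ee (-((a : ℝ) * m / r)) = ee (-((a : ℝ) * c / r)) := by
  have hr0 : (r : ℝ) ≠ 0 := by exact_mod_cast (by omega : r ≠ 0)
  have h1 : (r : ℤ) ∣ (m : ℤ) - c := by
    have : c ≡ m [MOD r] := h.symm
    exact (Nat.modEq_iff_dvd.mp this)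
  obtain ⟨k, hk⟩ := h1
  have h2 : (m : ℝ) = c + r * k := by
    have : ((m : ℤ) : ℝ) = ((c + r * k : ℤ) : ℝ) := by
      congr 1
      linarith
    push_cast at this
    exact this
  have h3 : -((a : ℝ) * m / r) = -((a : ℝ) * c / r) + ((-(a * k) : ℤ) : ℝ) := by
    rw [h2]
    push_cast
    field_simp
    ring
  rw [h3, Wd_ee_int]

/-- the Ramanujan sum -/
private theorem Wd_ram {a r : ℕ} (hr : 1 ≤ r) (har : Nat.Coprime a r) :
    ∑ c ∈ (Icc 1 r).filter (fun c => Nat.Coprime c r), ee (-((a : ℝ) * c / r)) =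
      ((ArithmeticFunction.moebius r : ℝ) : ℂ) := by
  have h1 := Pool.Agent.H91.EHA.ramS_eq r a hr
  have h2 : ramS r a = (ArithmeticFunction.moebius r : ℝ) := by
    unfold Pool.Agent.H91.EHA.ramS
    rw [Nat.Coprime.gcd_eq_one har.symm]
    simp
  rw [h2] at h1
  have h3 := congrArg (starRingEnd ℂ) h1
  rw [Complex.conj_ofReal, map_sum] at h3
  rw [h3]
  refine Finset.sum_congr rfl fun c _ => ?_
  rw [Wd_ee_neg]

/-- the twist of a finite set, from the classes -/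
private theorem Wd_twist {S : Finset ℕ} {Y : ℕ → ℝ} {h : ℝ} {a r : ℕ} {ε : ℝ} (hr : 1 ≤ r) (har : Nat.Coprime a r)
    (hh : ∀ c ∈ Icc 1 r, |(∑ n ∈ S.filter (fun n => n % r = c % r), Y n)
          - (if Nat.Coprime c r then h / r.totient else 0)| ≤ ε) :
    ‖∑ m ∈ S, ((Y m : ℝ) : ℂ) * ee (-((a : ℝ) * m / r))
      - (((ArithmeticFunction.moebius r : ℝ) / (r.totient : ℝ) * h : ℝ) : ℂ)‖ ≤ r * ε := by
  have h1 : ∑ m ∈ S, ((Y m : ℝ) : ℂ) * ee (-((a : ℝ) * m / r)) =
      ∑ c ∈ Icc 1 r, ee (-((a : ℝ) * c / r)) *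
        ((∑ n ∈ S.filter (fun n => n % r = c % r), Y n : ℝ) : ℂ) := by
    rw [← Finset.sum_fiberwise_of_maps_to (s := S) (t := Icc 1 r) (g := Wd_kap r)
      (fun m _ => Wd_kap_mem hr m)]
    refine Finset.sum_congr rfl fun c hc => ?_
    have e1 : S.filter (fun m => Wd_kap r m = c) =
        S.filter (fun n => n % r = c % r) := by
      ext m
      simp only [Finset.mem_filter, Wd_kap_eq hc]
    rw [e1]
    push_cast
    rw [Finset.mul_sum]
    refine Finset.sum_congr rfl fun m hm => ?_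
    rw [Wd_ee_mod a hr (Finset.mem_filter.mp hm).2]
    ring
  have h2 : (((ArithmeticFunction.moebius r : ℝ) / (r.totient : ℝ) * h : ℝ) : ℂ) =
      ∑ c ∈ Icc 1 r, ee (-((a : ℝ) * c / r)) *
        ((if Nat.Coprime c r then h / r.totient else 0 : ℝ) : ℂ) := by
    have e1 : ∑ c ∈ Icc 1 r, ee (-((a : ℝ) * c / r)) *
        ((if Nat.Coprime c r then h / r.totient else 0 : ℝ) : ℂ) =
        ∑ c ∈ (Icc 1 r).filter (fun c => Nat.Coprime c r), ee (-((a : ℝ) * c / r)) *
          ((h / r.totient : ℝ) : ℂ) := by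
      rw [Finset.sum_filter]
      refine Finset.sum_congr rfl fun c _ => ?_
      split_ifs <;> simp
    rw [e1, ← Finset.sum_mul, Wd_ram hr har]
    push_cast
    ring
  rw [h1, h2, ← Finset.sum_sub_distrib]
  calc ‖∑ c ∈ Icc 1 r, (ee (-((a : ℝ) * c / r)) *
        ((∑ n ∈ S.filter (fun n => n % r = c % r), Y n : ℝ) : ℂ) -
        ee (-((a : ℝ) * c / r)) *
        ((if Nat.Coprime c r then h / r.totient else 0 : ℝ) : ℂ))‖
      ≤ ∑ _c ∈ Icc 1 r, ε := by
        refine norm_sum_le_of_le _ fun c hc => ?_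
        rw [← mul_sub, norm_mul, Wd_ee_norm, one_mul, ← Complex.ofReal_sub, Complex.norm_real,
          Real.norm_eq_abs]
        exact hh c hc
    _ = r * ε := by
        rw [Finset.sum_const, Nat.card_Icc, nsmul_eq_mul]
        congr 2

/-- the left end of the reflected block -/
private def Wd_x (H n : ℕ) : ℕ := 2 * n - (n / H + 1) * H

private theorem Wd_x_bounds {H n : ℕ} (hH : 1 ≤ H) (hn : H ≤ n) :
    n < Wd_x H n + H + 1 ∧ Wd_x H n < n ∧ Wd_x H n + (n / H + 1) * H = 2 * n := by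
  unfold Wd_x
  have h1 : n / H * H ≤ n := Nat.div_mul_le_self n H
  have h2 : n < n / H * H + H := Nat.lt_div_mul_add (by omega)
  have h3 : (n / H + 1) * H = n / H * H + H := by ring
  omega

/-- reflection of the block -/
private theorem Wd_reindex {H n : ℕ} (hH : 1 ≤ H) (hn : H ≤ n) (f : ℕ → ℂ) :
    ∑ u ∈ blk H (n / H), f (2 * n - u) = ∑ v ∈ Ioc (Wd_x H n) (Wd_x H n + H), f v := by
  obtain ⟨_, _, h3⟩ := Wd_x_bounds hH hn
  have h4 : (n / H + 1) * H = n / H * H + H := by ring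
  have h1 : n / H * H ≤ n := Nat.div_mul_le_self n H
  refine Finset.sum_nbij' (fun u => 2 * n - u) (fun v => 2 * n - v) ?_ ?_ ?_ ?_ ?_
  · intro u hu
    unfold Pool.Agent.H43.MP.blk at hu
    rw [mem_Ico] at hu
    rw [mem_Ioc]
    omega
  · intro v hv
    rw [mem_Ioc] at hv
    unfold Pool.Agent.H43.MP.blk
    rw [mem_Ico]
    omega
  · intro u hu
    unfold Pool.Agent.H43.MP.blk at hu
    rw [mem_Ico] at hu
    show 2 * n - (2 * n - u) = u
    omega
  · intro v hv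
    rw [mem_Ioc] at hv
    show 2 * n - (2 * n - v) = v
    omega
  · intro u _
    rfl

/-- every left end is taken at most twice -/
private theorem Wd_fiber {H : ℕ} (hH : 1 ≤ H) (s : Finset ℕ) (hs : ∀ n ∈ s, H ≤ n) (x : ℕ) :
    (s.filter (fun n => Wd_x H n = x)).card ≤ 2 := by
  have hsub : s.filter (fun n => Wd_x H n = x) ⊆
      {(x + (x / H + 1) * H) / 2, (x + (x / H + 2) * H) / 2} := by
    intro n hn
    rw [Finset.mem_filter] at hn
    obtain ⟨hn1, hn2⟩ := hn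
    have hHn := hs n hn1
    obtain ⟨_, _, h3⟩ := Wd_x_bounds hH hHn
    rw [hn2] at h3
    have h1 : n / H * H ≤ n := Nat.div_mul_le_self n H
    have h2 : n < n / H * H + H := Nat.lt_div_mul_add (by omega)
    have h4 : (n / H + 1) * H = n / H * H + H := by ring
    have h5 : 1 ≤ n / H := (Nat.one_le_div_iff (by omega)).mpr hHn
    have h6 : n / H - 1 ≤ x / H := by
      rw [Nat.le_div_iff_mul_le (by omega), Nat.sub_mul]
      omega
    have h7 : x / H < n / H + 1 := by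
      rw [Nat.div_lt_iff_lt_mul (by omega)]
      omega
    have h8 : x / H + 1 = n / H + 1 ∨ x / H + 2 = n / H + 1 := by omega
    rw [Finset.mem_insert, Finset.mem_singleton]
    rcases h8 with h8 | h8
    · left
      rw [h8]
      omega
    · right
      rw [h8]
      omega
  exact (Finset.card_le_card hsub).trans Finset.card_le_two

/-- the number of the `n` with a bad reflected block, from the mean square -/
private theorem Wd_rcount (G : ℕ → ℝ) (hG : ∀ x, 0 ≤ G x) (bad : Finset ℕ) (H K1 K2 : ℕ) {g : ℝ}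
    (hH : 1 ≤ H) (hg : 0 ≤ g) (hi : ∀ n ∈ bad, H ≤ n ∧ K1 ≤ Wd_x H n ∧ Wd_x H n ≤ K2)
    (hb : ∀ n ∈ bad, g ≤ G (Wd_x H n)) :
    bad.card * g ≤ 2 * ∑ x ∈ Icc K1 K2, G x := by
  classical
  have h1 : bad.card ≤ 2 * (bad.image (Wd_x H)).card :=
    Finset.card_le_mul_card_image bad 2 fun x _ => Wd_fiber hH bad (fun n hn => (hi n hn).1) x
  have h2 : ((bad.image (Wd_x H)).card : ℝ) * g ≤ ∑ x ∈ Icc K1 K2, G x := by
    calc ((bad.image (Wd_x H)).card : ℝ) * g = ∑ _x ∈ bad.image (Wd_x H), g := by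
          rw [Finset.sum_const, nsmul_eq_mul]
      _ ≤ ∑ x ∈ bad.image (Wd_x H), G x := by
          refine Finset.sum_le_sum fun x hx => ?_
          obtain ⟨n, hn, rfl⟩ := Finset.mem_image.mp hx
          exact hb n hn
      _ ≤ ∑ x ∈ Icc K1 K2, G x := by
          refine Finset.sum_le_sum_of_subset_of_nonneg ?_ fun x _ _ => hG x
          intro x hx
          obtain ⟨n, hn, rfl⟩ := Finset.mem_image.mp hx
          obtain ⟨_, h3, h4⟩ := hi n hn
          rw [mem_Icc]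
          omega
  have h3 : (bad.card : ℝ) ≤ 2 * ((bad.image (Wd_x H)).card : ℝ) := by exact_mod_cast h1
  calc (bad.card : ℝ) * g ≤ 2 * ((bad.image (Wd_x H)).card : ℝ) * g :=
        mul_le_mul_of_nonneg_right h3 hg
    _ = 2 * (((bad.image (Wd_x H)).card : ℝ) * g) := by ring
    _ ≤ _ := by linarith

/-- the blocks with a bad class -/
private theorem Wd_cls {N H A A' A1 B C d c : ℕ} {Y η : ℕ → ℝ} (hL : 400 ≤ Real.log N) (hH : 1 ≤ H)
    (hHN : 16 * (H + 20) ≤ N) (hY : ∀ n : ℕ, 1 ≤ n → n ≤ 16 * N → |Y n| ≤ Real.log N ^ C)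
    (hlip : ∀ x x' : ℕ, x ≤ x' + 2 * H → x' ≤ x + 2 * H → N ≤ 8 * x → x ≤ 8 * N → N ≤ 8 * x' → x' ≤ 8 * N →
      |η x - η x'| ≤ 1 / (8 * Real.log N ^ A'))
    (hA1 : A + 3 * A' + C + 1 ≤ A1) (hd1 : 1 ≤ d)
    (hW : ∑ x ∈ Icc (N / 8) (8 * N), ((∑ n ∈ (Ioc x (x + H)).filter (fun n => n % d = c % d), Y n)
        - (if Nat.Coprime c d then H * η x / d.totient else 0)) ^ 2 ≤ N * (H : ℝ) ^ 2 / Real.log N ^ A1) :
    (((idx N H).filter (fun i => (H : ℝ) / Real.log N ^ A' <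
        |(∑ n ∈ (blk H i).filter (fun n => n % d = c % d), Y n)
          - (if Nat.Coprime c d then H * η (i * H) / d.totient else 0)|)).card : ℝ)
      ≤ (N : ℝ) / H / Real.log N ^ A := by
  set L := Real.log N with hLdef
  have hL0 : 0 < L := by linarith
  have hL1 : 1 ≤ L := by linarith
  have hNpos : 0 < N := by omega
  have hNR : (0 : ℝ) < N := by exact_mod_cast hNpos
  have hHR : (0 : ℝ) < H := by exact_mod_cast hH
  have hphi : (1 : ℝ) ≤ d.totient := by exact_mod_cast Nat.totient_pos.2 hd1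
  set G : ℕ → ℝ := fun x => ((∑ n ∈ (Ioc x (x + H)).filter (fun n => n % d = c % d), Y n)
        - (if Nat.Coprime c d then H * η x / d.totient else 0)) ^ 2 with hG
  set δ : ℕ := ⌊(H : ℝ) / (16 * L ^ (A' + C))⌋₊ with hδ
  have hδ1 : (δ : ℝ) ≤ (H : ℝ) / (16 * L ^ (A' + C)) := Nat.floor_le (by positivity)
  have hδ2 : (H : ℝ) / (16 * L ^ (A' + C)) ≤ ((δ + 1 : ℕ) : ℝ) := by
    push_cast
    exact (Nat.lt_floor_add_one _).le
  have hδH : δ < H := by
    have h3 : (H : ℝ) / (16 * L ^ (A' + C)) < H := by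
      rw [div_lt_iff₀ (by positivity)]
      have : 1 ≤ L ^ (A' + C) := one_le_pow₀ hL1
      nlinarith
    have h4 : (δ : ℝ) < H := lt_of_le_of_lt hδ1 h3
    exact_mod_cast h4
  set bad : Finset ℕ := (idx N H).filter (fun i => (H : ℝ) / L ^ A' <
        |(∑ n ∈ (blk H i).filter (fun n => n % d = c % d), Y n)
          - (if Nat.Coprime c d then H * η (i * H) / d.totient else 0)|) with hbad
  have hrange : ∀ i ∈ idx N H, 1 ≤ i * H ∧ N / 8 ≤ i * H - 1 ∧ i * H - 1 + δ ≤ 8 * N ∧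
      i * H + H + δ ≤ 16 * N ∧ N ≤ 8 * (i * H - 1) ∧ i * H ≤ 8 * N := by
    intro i hi
    unfold Pool.Agent.H43.MP.idx at hi
    rw [mem_Icc] at hi
    have h3 : i * H ≤ 3 * N := by
      have := Nat.mul_le_mul_right H hi.2
      exact this.trans (Nat.div_mul_le_self _ _)
    have h4 : N < 2 * (i * H) + 2 * H := by
      have h5 : N / (2 * H) * (2 * H) ≤ i * (2 * H) := Nat.mul_le_mul_right _ hi.1
      have h6 : N < N / (2 * H) * (2 * H) + 2 * H := by
        have := Nat.lt_div_mul_add (a := N) (b := 2 * H) (by omega)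
        exact this
      have h7 : i * (2 * H) = 2 * (i * H) := by ring
      omega
    refine ⟨?_, ?_, ?_, ?_, ?_, ?_⟩ <;> omega
  have hcount := Wd_count G (fun x => sq_nonneg _) bad H δ (N / 8) (8 * N)
    (g := ((H : ℝ) / (2 * L ^ A')) ^ 2) hδH
    (fun i hi => by
      have := hrange i (Finset.mem_filter.mp hi).1
      exact ⟨this.1, this.2.1, this.2.2.1⟩)
    (fun i hi j hj => by
      obtain ⟨hi1, hi2⟩ := Finset.mem_filter.mp hi
      obtain ⟨r1, r2, r3, r4, r5, r6⟩ := hrange i hi1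
      have hs := Wd_shift (fun n => if n % d = c % d then Y n else 0)
        (K := L ^ C) (i * H) j H (16 * N) r1 (by omega)
        (fun n hn0 hn => by
          split_ifs
          · exact hY n hn0 hn
          · rw [abs_zero]; positivity)
      rw [← Finset.sum_filter, ← Finset.sum_filter] at hs
      have hblk : blk H i = Ico (i * H) (i * H + H) := by
        unfold Pool.Agent.H43.MP.blk
        congr 1
        ring
      rw [hblk] at hi2
      set T := ∑ n ∈ (Ioc (i * H - 1 + j) (i * H - 1 + j + H)).filter (fun n => n % d = c % d),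
        Y n with hT
      set S := ∑ n ∈ (Ico (i * H) (i * H + H)).filter (fun n => n % d = c % d), Y n
      set M1 : ℝ := (if Nat.Coprime c d then H * η (i * H) / d.totient else 0) with hM1
      set M2 : ℝ := (if Nat.Coprime c d then H * η (i * H - 1 + j) / d.totient else 0) with hM2
      have hj' : (j : ℝ) ≤ (H : ℝ) / (16 * L ^ (A' + C)) :=
        le_trans (by exact_mod_cast hj) hδ1
      have h3 : |T - S| ≤ (H : ℝ) / (8 * L ^ A') := by
        refine hs.trans ?_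
        calc 2 * ((j : ℝ) * L ^ C) ≤
            2 * (((H : ℝ) / (16 * L ^ (A' + C))) * L ^ C) := by
              have := mul_le_mul_of_nonneg_right hj' (show 0 ≤ L ^ C by positivity)
              linarith
          _ = (H : ℝ) / (8 * L ^ A') := by
              rw [pow_add]
              field_simp
              norm_num
      have h3' : |M1 - M2| ≤ (H : ℝ) / (8 * L ^ A') := by
        rw [hM1, hM2]
        split_ifs
        · have e1 : (H : ℝ) * η (i * H) / d.totient - H * η (i * H - 1 + j) / d.totient =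
              (H / d.totient) * (η (i * H) - η (i * H - 1 + j)) := by ring
          rw [e1, abs_mul, abs_of_nonneg (by positivity)]
          have h5 := hlip (i * H) (i * H - 1 + j) (by omega) (by omega) (by omega) (by omega) (by omega) (by omega)
          calc (H : ℝ) / d.totient * |η (i * H) - η (i * H - 1 + j)| ≤ H * (1 / (8 * L ^ A')) :=
                mul_le_mul (div_le_self hHR.le hphi) h5 (abs_nonneg _) hHR.le
            _ = (H : ℝ) / (8 * L ^ A') := by ring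
        · rw [sub_self, abs_zero]
          positivity
      have h4 : |S - M1| ≤ |T - M2| + |T - S| + |M1 - M2| := by
        have e : S - M1 = (T - M2) - (T - S) - (M1 - M2) := by ring
        rw [e]
        exact (abs_sub _ _).trans (add_le_add_left (abs_sub _ _) _)
      have h5 : (H : ℝ) / (2 * L ^ A') ≤ |T - M2| := by
        have e1 : (H : ℝ) / (8 * L ^ A') = (H : ℝ) / L ^ A' / 8 := by
          rw [mul_comm 8, ← div_div]
        have e2 : (H : ℝ) / (2 * L ^ A') = (H : ℝ) / L ^ A' / 2 := by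
          rw [mul_comm 2, ← div_div]
        rw [e1] at h3 h3'
        rw [e2]
        have h6 : 0 < (H : ℝ) / L ^ A' := by positivity
        linarith
      have h6 := pow_le_pow_left₀ (by positivity) h5 2
      rw [sq_abs] at h6
      exact h6)
  have hc2 := hcount.trans hW
  -- arithmetic
  set E : ℝ := (bad.card : ℝ) with hE
  have hE0 : 0 ≤ E := Nat.cast_nonneg _
  have h1 : E * (H / (16 * L ^ (A' + C)) * (H / (2 * L ^ A')) ^ 2) ≤ N * (H : ℝ) ^ 2 / L ^ A1 := by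
    refine le_trans (mul_le_mul_of_nonneg_left ?_ hE0) hc2
    exact mul_le_mul_of_nonneg_right hδ2 (by positivity)
  have h2 : (N : ℝ) * (H : ℝ) ^ 2 / L ^ A1 ≤ N * (H : ℝ) ^ 2 / L ^ (A + 3 * A' + C + 1) :=
    div_le_div_of_nonneg_left (by positivity) (by positivity) (pow_le_pow_right₀ hL1 hA1)
  have e1 : E * (H / (16 * L ^ (A' + C)) * (H / (2 * L ^ A')) ^ 2) =
      (E * H) * (H ^ 2 / (64 * L ^ (3 * A' + C))) := by
    have : L ^ (3 * A' + C) = L ^ (A' + C) * (L ^ A') ^ 2 := by ring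
    rw [this]
    field_simp
    ring
  have e2 : (N : ℝ) * (H : ℝ) ^ 2 / L ^ (A + 3 * A' + C + 1) =
      (N / L ^ A * (64 / L)) * (H ^ 2 / (64 * L ^ (3 * A' + C))) := by
    have : L ^ (A + 3 * A' + C + 1) = L ^ A * L * L ^ (3 * A' + C) := by ring
    rw [this]
    field_simp
  rw [e1] at h1
  rw [e2] at h2
  have h3 : E * H ≤ N / L ^ A * (64 / L) := le_of_mul_le_mul_right (h1.trans h2) (by positivity)
  have h4 : 64 / L ≤ 1 := by
    rw [div_le_one hL0]
    linarith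
  have h5 : E * H ≤ N / L ^ A := h3.trans (mul_le_of_le_one_right (by positivity) h4)
  rw [div_div, mul_comm (H : ℝ), ← div_div, le_div_iff₀ hHR]
  exact h5

/-- the reflected blocks with a bad class -/
private theorem Wd_rcls {N H A A' A1 d c : ℕ} {Y η : ℕ → ℝ} (hL : 400 ≤ Real.log N) (hH : 1 ≤ H)
    (hHN : 16 * (H + 20) ≤ N)
    (hlip : ∀ x x' : ℕ, x ≤ x' + 2 * H → x' ≤ x + 2 * H → N ≤ 8 * x → x ≤ 8 * N → N ≤ 8 * x' → x' ≤ 8 * N →
      |η x - η x'| ≤ 1 / (8 * Real.log N ^ A'))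
    (hA1 : A + 2 * A' + 1 ≤ A1) (hd1 : 1 ≤ d)
    (hW : ∑ x ∈ Icc (N / 8) (8 * N), ((∑ n ∈ (Ioc x (x + H)).filter (fun n => n % d = c % d), Y n)
        - (if Nat.Coprime c d then H * η x / d.totient else 0)) ^ 2 ≤ N * (H : ℝ) ^ 2 / Real.log N ^ A1) :
    (((Ioc N (2 * N)).filter (fun n => (H : ℝ) / Real.log N ^ A' <
        |(∑ v ∈ (Ioc (Wd_x H n) (Wd_x H n + H)).filter (fun v => v % d = c % d), Y v)
          - (if Nat.Coprime c d then H * η (n / H * H) / d.totient else 0)|)).card : ℝ)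
      ≤ (N : ℝ) / Real.log N ^ A := by
  set L := Real.log N with hLdef
  have hL0 : 0 < L := by linarith
  have hL1 : 1 ≤ L := by linarith
  have hNpos : 0 < N := by omega
  have hNR : (0 : ℝ) < N := by exact_mod_cast hNpos
  have hHR : (0 : ℝ) < H := by exact_mod_cast hH
  have hphi : (1 : ℝ) ≤ d.totient := by exact_mod_cast Nat.totient_pos.2 hd1
  set G : ℕ → ℝ := fun x => ((∑ n ∈ (Ioc x (x + H)).filter (fun n => n % d = c % d), Y n)
        - (if Nat.Coprime c d then H * η x / d.totient else 0)) ^ 2 with hG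
  set bad : Finset ℕ := (Ioc N (2 * N)).filter (fun n => (H : ℝ) / L ^ A' <
        |(∑ v ∈ (Ioc (Wd_x H n) (Wd_x H n + H)).filter (fun v => v % d = c % d), Y v)
          - (if Nat.Coprime c d then H * η (n / H * H) / d.totient else 0)|) with hbad
  have hcount := Wd_rcount G (fun x => sq_nonneg _) bad H (N / 8) (8 * N)
    (g := ((H : ℝ) / (2 * L ^ A')) ^ 2) hH (by positivity)
    (fun n hn => by
      have hn1 := (Finset.mem_filter.mp hn).1
      rw [mem_Ioc] at hn1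
      have hHn : H ≤ n := by omega
      obtain ⟨b1, b2, _⟩ := Wd_x_bounds hH hHn
      refine ⟨hHn, ?_, ?_⟩ <;> omega)
    (fun n hn => by
      obtain ⟨hn1, hn2⟩ := Finset.mem_filter.mp hn
      rw [mem_Ioc] at hn1
      have hHn : H ≤ n := by omega
      obtain ⟨b1, b2, b3⟩ := Wd_x_bounds hH hHn
      have b4 : n / H * H ≤ n := Nat.div_mul_le_self n H
      have b5 : n < n / H * H + H := Nat.lt_div_mul_add (by omega)
      set T := ∑ v ∈ (Ioc (Wd_x H n) (Wd_x H n + H)).filter (fun v => v % d = c % d), Y v with hT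
      set M1 : ℝ := (if Nat.Coprime c d then H * η (n / H * H) / d.totient else 0) with hM1
      set M2 : ℝ := (if Nat.Coprime c d then H * η (Wd_x H n) / d.totient else 0) with hM2
      have h3' : |M1 - M2| ≤ (H : ℝ) / (8 * L ^ A') := by
        rw [hM1, hM2]
        split_ifs
        · have e1 : (H : ℝ) * η (n / H * H) / d.totient - H * η (Wd_x H n) / d.totient =
              (H / d.totient) * (η (n / H * H) - η (Wd_x H n)) := by ring
          rw [e1, abs_mul, abs_of_nonneg (by positivity)]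
          have h5 := hlip (n / H * H) (Wd_x H n) (by omega) (by omega) (by omega) (by omega) (by omega) (by omega)
          calc (H : ℝ) / d.totient * |η (n / H * H) - η (Wd_x H n)| ≤ H * (1 / (8 * L ^ A')) :=
                mul_le_mul (div_le_self hHR.le hphi) h5 (abs_nonneg _) hHR.le
            _ = (H : ℝ) / (8 * L ^ A') := by ring
        · rw [sub_self, abs_zero]
          positivity
      have h4 : |T - M1| ≤ |T - M2| + |M1 - M2| := by
        have e : T - M1 = (T - M2) - (M1 - M2) := by ring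
        rw [e]
        exact abs_sub _ _
      have h5 : (H : ℝ) / (2 * L ^ A') ≤ |T - M2| := by
        have e1 : (H : ℝ) / (8 * L ^ A') = (H : ℝ) / L ^ A' / 8 := by
          rw [mul_comm 8, ← div_div]
        have e2 : (H : ℝ) / (2 * L ^ A') = (H : ℝ) / L ^ A' / 2 := by
          rw [mul_comm 2, ← div_div]
        rw [e1] at h3'
        rw [e2]
        have h6 : 0 < (H : ℝ) / L ^ A' := by positivity
        linarith
      have h6 := pow_le_pow_left₀ (by positivity) h5 2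
      rw [sq_abs] at h6
      exact h6)
  have hc2 : (bad.card : ℝ) * (H / (2 * L ^ A')) ^ 2 ≤ 2 * (N * (H : ℝ) ^ 2 / L ^ A1) := by linarith
  set E : ℝ := (bad.card : ℝ) with hE
  have hE0 : 0 ≤ E := Nat.cast_nonneg _
  have h2 : (N : ℝ) * (H : ℝ) ^ 2 / L ^ A1 ≤ N * (H : ℝ) ^ 2 / L ^ (A + 2 * A' + 1) :=
    div_le_div_of_nonneg_left (by positivity) (by positivity) (pow_le_pow_right₀ hL1 hA1)
  have e2 : 2 * ((N : ℝ) * (H : ℝ) ^ 2 / L ^ (A + 2 * A' + 1)) =
      (N / L ^ A * (8 / L)) * (H / (2 * L ^ A')) ^ 2 := by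
    have : L ^ (A + 2 * A' + 1) = L ^ A * L * (L ^ A') ^ 2 := by ring
    rw [this]
    field_simp
    norm_num
  have h3 : E * (H / (2 * L ^ A')) ^ 2 ≤ (N / L ^ A * (8 / L)) * (H / (2 * L ^ A')) ^ 2 := by
    rw [← e2]
    linarith
  have h4 : E ≤ N / L ^ A * (8 / L) := le_of_mul_le_mul_right h3 (by positivity)
  have h5 : 8 / L ≤ 1 := by
    rw [div_le_one hL0]
    linarith
  exact h4.trans (mul_le_of_le_one_right (by positivity) h5)

private theorem Wd_union {B : ℕ} {L X : ℝ} (hL0 : 0 < L) (s : Finset ℕ)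
    (bad : ℕ → ℕ → Finset ℕ) (A : ℕ) (hX : 0 ≤ X)
    (hsub : s ⊆ (Icc 1 ⌊L ^ B⌋₊ ×ˢ Icc 1 ⌊L ^ B⌋₊).biUnion (fun t => bad t.1 t.2))
    (hc1 : ∀ t ∈ Icc 1 ⌊L ^ B⌋₊ ×ˢ Icc 1 ⌊L ^ B⌋₊, ((bad t.1 t.2).card : ℝ) ≤ X / L ^ (A + 2 * B)) :
    (s.card : ℝ) ≤ X / L ^ A := by
  set R : ℕ := ⌊L ^ B⌋₊ with hR
  have hRle : (R : ℝ) ≤ L ^ B := Nat.floor_le (by positivity)
  calc (s.card : ℝ) ≤
      (((Icc 1 R ×ˢ Icc 1 R).biUnion (fun t => bad t.1 t.2)).card : ℝ) := by
        exact_mod_cast Finset.card_le_card hsub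
    _ ≤ ∑ t ∈ Icc 1 R ×ˢ Icc 1 R, ((bad t.1 t.2).card : ℝ) := by
        exact_mod_cast Finset.card_biUnion_le
    _ ≤ ∑ _t ∈ Icc 1 R ×ˢ Icc 1 R, X / L ^ (A + 2 * B) :=
        Finset.sum_le_sum hc1
    _ = (R : ℝ) * R * (X / L ^ (A + 2 * B)) := by
        rw [Finset.sum_const, Finset.card_product, Nat.card_Icc, nsmul_eq_mul]
        push_cast
        simp
    _ ≤ L ^ B * L ^ B * (X / L ^ (A + 2 * B)) := by
        refine mul_le_mul_of_nonneg_right ?_ (by positivity)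
        exact mul_le_mul hRle hRle (Nat.cast_nonneg _) (by positivity)
    _ = X / L ^ A := by
        rw [pow_add, two_mul, pow_add]
        field_simp

/-- blocks -/
theorem badQ_wd {N H A A1 B C : ℕ} {Y η : ℕ → ℝ} (hL : 400 ≤ Real.log N) (hH : 1 ≤ H)
    (hHN : 16 * (H + 20) ≤ N) (hY : ∀ n : ℕ, 1 ≤ n → n ≤ 16 * N → |Y n| ≤ Real.log N ^ C)
    (hlip : ∀ x x' : ℕ, x ≤ x' + 2 * H → x' ≤ x + 2 * H → N ≤ 8 * x → x ≤ 8 * N → N ≤ 8 * x' → x' ≤ 8 * N →
      |η x - η x'| ≤ 1 / (8 * Real.log N ^ (A + B)))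
    (hA1 : 4 * A + 5 * B + C + 1 ≤ A1)
    (hW : ∀ d c : ℕ, 1 ≤ d → (d : ℝ) ≤ Real.log N ^ B →
      ∑ x ∈ Icc (N / 8) (8 * N), ((∑ n ∈ (Ioc x (x + H)).filter (fun n => n % d = c % d), Y n)
        - (if Nat.Coprime c d then H * η x / d.totient else 0)) ^ 2 ≤ N * (H : ℝ) ^ 2 / Real.log N ^ A1) :
    ((badQ N H A B Y (fun i => η (i * H))).card : ℝ) ≤ (N : ℝ) / H / Real.log N ^ A := by
  classical
  have hL0 : 0 < Real.log N := by linarith
  have hHR : (0 : ℝ) < H := by exact_mod_cast hH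
  refine Wd_union (B := B) hL0 _ (fun d c => (idx N H).filter (fun i =>
    (H : ℝ) / Real.log N ^ (A + B) <
        |(∑ n ∈ (blk H i).filter (fun n => n % d = c % d), Y n)
          - (if Nat.Coprime c d then H * η (i * H) / d.totient else 0)|)) A (by positivity) ?_ ?_
  · intro i hi
    unfold badQ at hi
    rw [Finset.mem_filter] at hi
    obtain ⟨hi1, r, a, hr1, hrB, har, hlt⟩ := hi
    have hrR : r ≤ ⌊Real.log N ^ B⌋₊ := Nat.le_floor hrB
    by_contra hcon
    apply absurd hlt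
    rw [not_lt]
    have h3 := Wd_twist (S := blk H i) (Y := Y) (h := H * η (i * H)) (ε := (H : ℝ) / Real.log N ^ (A + B)) hr1 har
      (fun c hc => by
        by_contra hc2
        rw [not_le] at hc2
        apply hcon
        rw [Finset.mem_biUnion]
        rw [mem_Icc] at hc
        refine ⟨(r, c), ?_, ?_⟩
        · rw [Finset.mem_product, mem_Icc, mem_Icc]
          exact ⟨⟨hr1, hrR⟩, hc.1, hc.2.trans hrR⟩
        · exact Finset.mem_filter.mpr ⟨hi1, hc2⟩)
    refine h3.trans ?_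
    calc (r : ℝ) * ((H : ℝ) / Real.log N ^ (A + B)) ≤
        Real.log N ^ B * ((H : ℝ) / Real.log N ^ (A + B)) :=
          mul_le_mul_of_nonneg_right hrB (by positivity)
      _ = (H : ℝ) / Real.log N ^ A := by
          rw [pow_add]
          field_simp
  · intro t ht
    rw [Finset.mem_product, mem_Icc, mem_Icc] at ht
    have hRle : ((⌊Real.log N ^ B⌋₊ : ℕ) : ℝ) ≤ Real.log N ^ B := Nat.floor_le (by positivity)
    have h3 : (t.1 : ℝ) ≤ Real.log N ^ B := le_trans (by exact_mod_cast ht.1.2) hRle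
    have h4 := Wd_cls (A := A + 2 * B) (A' := A + B) (B := B) (C := C) (c := t.2) hL hH hHN hY hlip (by omega) ht.1.1
      (hW t.1 t.2 ht.1.1 h3)
    refine le_trans (le_of_eq ?_) h4
    congr 2

/-- reflected blocks -/
theorem badQN_wd {N H A A1 B : ℕ} {Y η : ℕ → ℝ} (hL : 400 ≤ Real.log N) (hH : 1 ≤ H)
    (hHN : 16 * (H + 20) ≤ N)
    (hlip : ∀ x x' : ℕ, x ≤ x' + 2 * H → x' ≤ x + 2 * H → N ≤ 8 * x → x ≤ 8 * N → N ≤ 8 * x' → x' ≤ 8 * N →
      |η x - η x'| ≤ 1 / (8 * Real.log N ^ (A + B)))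
    (hA1 : 4 * A + 5 * B + 1 ≤ A1)
    (hW : ∀ d c : ℕ, 1 ≤ d → (d : ℝ) ≤ Real.log N ^ B →
      ∑ x ∈ Icc (N / 8) (8 * N), ((∑ n ∈ (Ioc x (x + H)).filter (fun n => n % d = c % d), Y n)
        - (if Nat.Coprime c d then H * η x / d.totient else 0)) ^ 2 ≤ N * (H : ℝ) ^ 2 / Real.log N ^ A1) :
    ((badQN N H A B Y (fun i => η (i * H))).card : ℝ) ≤ (N : ℝ) / Real.log N ^ A := by
  classical
  have hL0 : 0 < Real.log N := by linarith
  have hHR : (0 : ℝ) < H := by exact_mod_cast hH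
  refine Wd_union (B := B) hL0 _ (fun d c => (Ioc N (2 * N)).filter (fun n =>
    (H : ℝ) / Real.log N ^ (A + B) <
        |(∑ v ∈ (Ioc (Wd_x H n) (Wd_x H n + H)).filter (fun v => v % d = c % d), Y v)
          - (if Nat.Coprime c d then H * η (n / H * H) / d.totient else 0)|)) A (by positivity) ?_ ?_
  · intro n hn
    unfold badQN at hn
    rw [Finset.mem_filter] at hn
    obtain ⟨hn1, r, a, hr1, hrB, har, hlt⟩ := hn
    have hrR : r ≤ ⌊Real.log N ^ B⌋₊ := Nat.le_floor hrB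
    have hHn : H ≤ n := by
      rw [mem_Ioc] at hn1
      omega
    by_contra hcon
    apply absurd hlt
    rw [not_lt]
    have h3 := Wd_twist (S := Ioc (Wd_x H n) (Wd_x H n + H)) (Y := Y) (h := H * η (n / H * H))
      (ε := (H : ℝ) / Real.log N ^ (A + B)) hr1 har
      (fun c hc => by
        by_contra hc2
        rw [not_le] at hc2
        apply hcon
        rw [Finset.mem_biUnion]
        rw [mem_Icc] at hc
        refine ⟨(r, c), ?_, ?_⟩
        · rw [Finset.mem_product, mem_Icc, mem_Icc]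
          exact ⟨⟨hr1, hrR⟩, hc.1, hc.2.trans hrR⟩
        · exact Finset.mem_filter.mpr ⟨hn1, hc2⟩)
    have h4 := Wd_reindex hH hHn (fun v => ((Y v : ℝ) : ℂ) * ee (-((a : ℝ) * (v : ℝ) / r)))
    rw [← h4] at h3
    refine h3.trans ?_
    calc (r : ℝ) * ((H : ℝ) / Real.log N ^ (A + B)) ≤
        Real.log N ^ B * ((H : ℝ) / Real.log N ^ (A + B)) :=
          mul_le_mul_of_nonneg_right hrB (by positivity)
      _ = (H : ℝ) / Real.log N ^ A := by
          rw [pow_add]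
          field_simp
  · intro t ht
    rw [Finset.mem_product, mem_Icc, mem_Icc] at ht
    have hRle : ((⌊Real.log N ^ B⌋₊ : ℕ) : ℝ) ≤ Real.log N ^ B := Nat.floor_le (by positivity)
    have h3 : (t.1 : ℝ) ≤ Real.log N ^ B := le_trans (by exact_mod_cast ht.1.2) hRle
    have h4 := Wd_rcls (A := A + 2 * B) (A' := A + B) (c := t.2) hL hH hHN hlip (by omega) ht.1.1
      (hW t.1 t.2 ht.1.1 h3)
    refine le_trans (le_of_eq ?_) h4
    congr 2

end Pool.Agent.H43.TS

end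

section

/-!
# TP TyI: functions of type I of small level

`g : ℕ → ℝ`, `g n = 0` unless `n` is squarefree, `|g n| ≤ 3^ω(n)`, `S m = ∑_{n ≤ Q, n ∣ m} g n` for `m ≥ 1`, `Q^6 ≤ H`.
* `1[n ∣ m] = (1/n) ∑_{q ∣ n} c_q(m)` (`c_q(m) = ramS q m = ∑_{a mod q}^* ee(am/q)`, `m ≥ 1`), so `S m = ∑_{q ≤ Q} a_q ramS q m`, `a_q = ∑_{n ≤ Q, q ∣ n} g n/n`.
* `|a_q| ≤ 3^ω(q)/q ∑_{n' ≤ Q} 3^ω(n')/n' ≤ 3^ω(q)/q (1 + log Q)^3` (`3^ω(n) = τ_3(n)` for squarefree `n`), and `3^ω(q) ≤ 6 √q` for squarefree `q`.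
* hypothesis (`q ≤ R`): `|a_q - κ μ(q)/φ(q)| ≤ δ`.  Therefore `S m - κ lamR R m = ∑_{q ≤ Q} b_q ramS q m`, `|b_q| ≤ δ` for `q ≤ R` and `|b_q| ≤ 6 (1 + log Q)^3/√q` for `R < q ≤ Q`
* for real `α`, `I = [iH, (i+1)H)`, `i ≥ 1`: `|∑_{m ∈ I} ee(m(a/q - α))| ≤ min(H, 1/(2 nz(a/q - α)))`; two different fractions `a/q, a'/q'` with `q, q' ≤ Q` have distance `≥ 1/Q²`, so all but one have
  `nz ≥ 1/(2Q²)`, contribution `≤ Q²` each, at most `Q²` of them: `‖Bs (S - κ lamR R) H i α‖ ≤ H max |b_q| + Q^4 · 6 (1 + log Q)^3`.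
-/

set_option autoImplicit false

namespace Pool.Agent.H76.TP

open Finset
open Pool.Agent.H91.PK (ee)
open Pool.Agent.H91.EHA (Lam hR lamR ramS)
open Pool.Agent.H53.MID (Fp Bs)

/-! ### Ramanujan sums and geometric sums -/

private theorem TyI_ee (t : ℝ) : ee t = Pool.Agent.H92.EH.e t := by
  unfold ee Pool.Agent.H92.EH.e
  congr 1
  push_cast
  ring

private theorem TyI_red (c : ℕ) (hc : 1 ≤ c) (f : ℕ → ℂ) (hf : f c = f 0) :
    ∑ b ∈ (Icc 1 c).filter (fun b => Nat.Coprime b c), f b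
      = ∑ b ∈ Pool.Agent.H92.EH.red c, f b := by
  rcases Nat.eq_or_lt_of_le hc with h1 | h1
  · subst h1
    have e1 : (Icc 1 1).filter (fun b => Nat.Coprime b 1) = {1} := by decide
    have e2 : Pool.Agent.H92.EH.red 1 = {0} := by decide
    rw [e1, e2, sum_singleton, sum_singleton, hf]
  · apply sum_congr _ (fun _ _ => rfl)
    ext b
    rw [mem_filter, mem_Icc, Pool.Agent.H92.EH.mem_red]
    constructor
    · rintro ⟨⟨h2, h3⟩, h4⟩
      refine ⟨lt_of_le_of_ne h3 ?_, h4⟩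
      rintro rfl
      rw [Nat.coprime_self] at h4
      omega
    · rintro ⟨h2, h4⟩
      refine ⟨⟨Nat.one_le_iff_ne_zero.mpr ?_, h2.le⟩, h4⟩
      rintro rfl
      rw [Nat.coprime_zero_left] at h4
      omega

private theorem TyI_ram (c n : ℕ) (hc : 1 ≤ c) :
    ((ramS c n : ℝ) : ℂ) = ∑ b ∈ Pool.Agent.H92.EH.red c,
      Pool.Agent.H92.EH.e (n * ((b : ℝ) / c)) := by
  have hc0 : (c : ℝ) ≠ 0 := by exact_mod_cast (by omega : c ≠ 0)
  rw [Pool.Agent.H91.EHA.ramS_eq c n hc, TyI_red c hc (fun b => ee ((n : ℝ) * b / c))]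
  · apply sum_congr rfl
    intro b _
    rw [TyI_ee]
    congr 1
    ring
  · rw [TyI_ee, TyI_ee]
    have h1 : (n : ℝ) * (c : ℝ) / c = (n : ℝ) := by field_simp
    have h2 : (n : ℝ) * ((0 : ℕ) : ℝ) / c = ((0 : ℕ) : ℝ) := by simp
    rw [h1, h2, Pool.Agent.H92.EH.e_nat, Pool.Agent.H92.EH.e_nat]

private theorem TyI_geom (H i : ℕ) (t δ : ℝ) (hδ : 0 < δ) (h : ∀ m : ℤ, δ ≤ |t - m|) :
    ‖∑ n ∈ Ico (i * H) ((i + 1) * H), Pool.Agent.H92.EH.e (n * t)‖ ≤ 1 / (2 * δ) := by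
  have h3 := Pool.Agent.H92.EH.le_norm_e_sub_one h
  have h1 : ∑ n ∈ Ico (i * H) ((i + 1) * H), Pool.Agent.H92.EH.e (n * t)
      = Pool.Agent.H92.EH.e ((i * H : ℕ) * t) *
        ∑ n ∈ range ((i + 1) * H - i * H), Pool.Agent.H92.EH.e t ^ n := by
    rw [sum_Ico_eq_sum_range, mul_sum]
    apply sum_congr rfl
    intro n _
    rw [← Pool.Agent.H92.EH.e_nat_mul, ← Pool.Agent.H92.EH.e_add]
    congr 1
    push_cast
    ring
  have h2 : (∑ n ∈ range ((i + 1) * H - i * H), Pool.Agent.H92.EH.e t ^ n) *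
      (Pool.Agent.H92.EH.e t - 1) = Pool.Agent.H92.EH.e t ^ ((i + 1) * H - i * H) - 1 :=
    geom_sum_mul _ _
  have h4 : ‖(∑ n ∈ range ((i + 1) * H - i * H), Pool.Agent.H92.EH.e t ^ n)‖ *
      ‖Pool.Agent.H92.EH.e t - 1‖ ≤ 2 := by
    rw [← norm_mul, h2]
    refine (norm_sub_le _ _).trans ?_
    rw [norm_pow, Pool.Agent.H92.EH.norm_e, one_pow, norm_one]
    norm_num
  rw [h1, norm_mul, Pool.Agent.H92.EH.norm_e, one_mul, le_div_iff₀ (by positivity)]
  have h5 : ‖(∑ n ∈ range ((i + 1) * H - i * H), Pool.Agent.H92.EH.e t ^ n)‖ * (4 * δ) ≤ 2 :=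
    (mul_le_mul_of_nonneg_left h3 (norm_nonneg _)).trans h4
  linarith

private theorem TyI_card (H i : ℕ) : (Ico (i * H) ((i + 1) * H)).card = H := by
  rw [Nat.card_Ico]
  have : (i + 1) * H = i * H + H := by ring
  omega

/-! ### The Ramanujan expansion of the divisibility indicator -/

private theorem TyI_div (m : ℕ) (hm : 1 ≤ m) (n : ℕ) (hn : 0 < n) :
    ∑ q ∈ n.divisors, ramS q m = if n ∣ m then (n : ℝ) else 0 := by
  refine (ArithmeticFunction.sum_eq_iff_sum_mul_moebius_eq (f := fun q => ramS q m)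
    (g := fun n => if n ∣ m then (n : ℝ) else 0)).2 ?_ n hn
  intro c hc
  unfold ramS
  have h1 : (Nat.gcd c m).divisors = c.divisors.filter (fun d => d ∣ m) := by
    ext d
    rw [Nat.mem_divisors, mem_filter, Nat.mem_divisors]
    constructor
    · rintro ⟨h1, h2⟩
      exact ⟨⟨h1.trans (Nat.gcd_dvd_left c m), by omega⟩, h1.trans (Nat.gcd_dvd_right c m)⟩
    · rintro ⟨⟨h1, h2⟩, h3⟩
      refine ⟨Nat.dvd_gcd h1 h3, ?_⟩
      intro h4
      rw [Nat.gcd_eq_zero_iff] at h4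
      omega
  rw [h1, sum_filter, Nat.sum_divisorsAntidiagonal' (f := fun a b : ℕ =>
    ((ArithmeticFunction.moebius a : ℤ) : ℝ) * (if b ∣ m then (b : ℝ) else 0))]
  apply sum_congr rfl
  intro d _
  by_cases h2 : d ∣ m
  · rw [if_pos h2, if_pos h2]
    ring
  · rw [if_neg h2, if_neg h2, mul_zero]

private theorem TyI_expand (Q : ℕ) (g : ℕ → ℝ) (m : ℕ) (hm : 1 ≤ m) :
    ∑ n ∈ (Icc 1 Q).filter (fun n => n ∣ m), g n =
      ∑ q ∈ Icc 1 Q, (∑ n ∈ (Icc 1 Q).filter (fun n => q ∣ n), g n / n) * ramS q m := by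
  have h1 : ∀ n ∈ Icc 1 Q, (if n ∣ m then g n else 0) =
      ∑ q ∈ Icc 1 Q, (if q ∣ n then g n / n * ramS q m else 0) := by
    intro n hn
    rw [mem_Icc] at hn
    have hn0 : (n : ℝ) ≠ 0 := by exact_mod_cast (by omega : n ≠ 0)
    have h2 : ∑ q ∈ Icc 1 Q, (if q ∣ n then g n / n * ramS q m else 0) =
        g n / n * ∑ q ∈ n.divisors, ramS q m := by
      rw [← sum_filter, mul_sum]
      apply sum_congr _ (fun _ _ => rfl)
      ext q
      rw [mem_filter, mem_Icc, Nat.mem_divisors]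
      constructor
      · rintro ⟨h3, h4⟩
        exact ⟨h4, by omega⟩
      · rintro ⟨h3, h4⟩
        have h5 := Nat.le_of_dvd (by omega) h3
        have h6 := Nat.pos_of_dvd_of_pos h3 (by omega)
        exact ⟨⟨h6, by omega⟩, h3⟩
    rw [h2, TyI_div m hm n (by omega)]
    by_cases h3 : n ∣ m
    · rw [if_pos h3, if_pos h3]
      field_simp
    · rw [if_neg h3, if_neg h3, mul_zero]
  rw [sum_filter, sum_congr rfl h1, sum_comm]
  apply sum_congr rfl
  intro q _
  rw [sum_filter, sum_mul]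
  apply sum_congr rfl
  intro n _
  by_cases h2 : q ∣ n
  · rw [if_pos h2, if_pos h2]
  · rw [if_neg h2, if_neg h2, zero_mul]

/-! ### The coefficients -/

private noncomputable def TyI_z : ArithmeticFunction ℝ := ⟨fun n => 1 / (n : ℝ), by simp⟩

private theorem TyI_z_apply (n : ℕ) : TyI_z n = 1 / (n : ℝ) := rfl

private theorem TyI_z_mult : TyI_z.IsMultiplicative := by
  refine ⟨by rw [TyI_z_apply]; simp, ?_⟩
  intro m n _
  rw [TyI_z_apply, TyI_z_apply, TyI_z_apply]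
  push_cast
  rw [one_div_mul_one_div]

private theorem TyI_mul_prime (f h : ArithmeticFunction ℝ) {p : ℕ} (hp : p.Prime) :
    (f * h) p = f p * h 1 + f 1 * h p := by
  rw [ArithmeticFunction.mul_apply, Nat.sum_divisorsAntidiagonal (f := fun a b => f a * h b),
    Nat.Prime.sum_divisors hp, Nat.div_self hp.pos, Nat.div_one]

private theorem TyI_w_prime {p : ℕ} (hp : p.Prime) : (TyI_z * (TyI_z * TyI_z)) p = 3 / (p : ℝ) := by
  have h1 : (TyI_z * TyI_z) 1 = 1 := (TyI_z_mult.mul TyI_z_mult).map_one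
  rw [TyI_mul_prime _ _ hp, TyI_mul_prime _ _ hp, h1, TyI_z_mult.map_one, TyI_z_apply]
  ring

private theorem TyI_w_sqf {n : ℕ} (hn : Squarefree n) :
    (3 : ℝ) ^ n.primeFactors.card / n = (TyI_z * (TyI_z * TyI_z)) n := by
  have h1 := (TyI_z_mult.mul (TyI_z_mult.mul TyI_z_mult)).prod_primeFactors hn
  rw [← h1, prod_congr rfl fun p hp => TyI_w_prime (Nat.prime_of_mem_primeFactors hp),
    prod_div_distrib, prod_const]
  congr 1
  rw [← Nat.cast_prod, Nat.prod_primeFactors_of_squarefree hn]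

private theorem TyI_conv (f h : ArithmeticFunction ℝ) (hf : ∀ n, 0 ≤ f n) (hh : ∀ n, 0 ≤ h n)
    (Q : ℕ) : ∑ n ∈ Ioc 0 Q, (f * h) n ≤ (∑ n ∈ Ioc 0 Q, f n) * ∑ n ∈ Ioc 0 Q, h n := by
  rw [ArithmeticFunction.sum_Ioc_mul_eq_sum_sum, sum_mul]
  refine sum_le_sum fun n _ => mul_le_mul_of_nonneg_left ?_ (hf n)
  refine sum_le_sum_of_subset_of_nonneg ?_ fun m _ _ => hh m
  intro m hm
  rw [mem_Ioc] at hm ⊢
  exact ⟨hm.1, hm.2.trans (Nat.div_le_self Q n)⟩

private theorem TyI_harm (Q : ℕ) : ∑ n ∈ Ioc 0 Q, TyI_z n ≤ 1 + Real.log Q := by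
  have h1 := harmonic_le_one_add_log Q
  rw [harmonic_eq_sum_Icc] at h1
  push_cast at h1
  have h2 : ∑ n ∈ Ioc 0 Q, TyI_z n = ∑ n ∈ Icc 1 Q, ((n : ℝ))⁻¹ := by
    have h3 : Ioc 0 Q = Icc 1 Q := by
      ext n
      rw [mem_Ioc, mem_Icc]
      omega
    rw [h3]
    apply sum_congr rfl
    intro n _
    rw [TyI_z_apply, one_div]
  rw [h2]
  exact h1

private theorem TyI_z_nonneg (n : ℕ) : 0 ≤ TyI_z n := by
  rw [TyI_z_apply]
  positivity

private theorem TyI_mul_nonneg (f h : ArithmeticFunction ℝ) (hf : ∀ n, 0 ≤ f n)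
    (hh : ∀ n, 0 ≤ h n) (n : ℕ) : 0 ≤ (f * h) n := by
  rw [ArithmeticFunction.mul_apply]
  exact sum_nonneg fun x _ => mul_nonneg (hf _) (hh _)

private theorem TyI_sum3 (Q : ℕ) :
    ∑ n ∈ (Icc 1 Q).filter (fun n => Squarefree n), (3 : ℝ) ^ n.primeFactors.card / n ≤
      (1 + Real.log Q) ^ 3 := by
  classical
  have hl : 0 ≤ 1 + Real.log Q := by
    have := Real.log_natCast_nonneg Q
    linarith
  have h0 : ∀ n, 0 ≤ (TyI_z * TyI_z) n := TyI_mul_nonneg _ _ TyI_z_nonneg TyI_z_nonneg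
  have h1 : ∑ n ∈ (Icc 1 Q).filter (fun n => Squarefree n), (3 : ℝ) ^ n.primeFactors.card / n ≤
      ∑ n ∈ Ioc 0 Q, (TyI_z * (TyI_z * TyI_z)) n := by
    rw [sum_congr rfl fun n hn => TyI_w_sqf (mem_filter.1 hn).2]
    refine sum_le_sum_of_subset_of_nonneg ?_ fun m _ _ => TyI_mul_nonneg _ _ TyI_z_nonneg h0 m
    intro n hn
    rw [mem_filter, mem_Icc] at hn
    rw [mem_Ioc]
    omega
  have h2 := TyI_conv _ _ TyI_z_nonneg h0 Q
  have h3 := TyI_conv _ _ TyI_z_nonneg TyI_z_nonneg Q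
  have h4 := TyI_harm Q
  have h5 : 0 ≤ ∑ n ∈ Ioc 0 Q, TyI_z n := sum_nonneg fun n _ => TyI_z_nonneg n
  have h6 : 0 ≤ ∑ n ∈ Ioc 0 Q, (TyI_z * TyI_z) n := sum_nonneg fun n _ => h0 n
  calc ∑ n ∈ (Icc 1 Q).filter (fun n => Squarefree n), (3 : ℝ) ^ n.primeFactors.card / n
      ≤ (∑ n ∈ Ioc 0 Q, TyI_z n) * ∑ n ∈ Ioc 0 Q, (TyI_z * TyI_z) n := h1.trans h2
    _ ≤ (1 + Real.log Q) * ((1 + Real.log Q) * (1 + Real.log Q)) := by
        refine mul_le_mul h4 (h3.trans ?_) h6 hl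
        exact mul_le_mul h4 h4 h5 hl
    _ = (1 + Real.log Q) ^ 3 := by ring

private theorem TyI_nine : ∀ A ∈ ({2, 3, 5, 7} : Finset ℕ).powerset,
    9 ^ A.card ≤ 36 * ∏ p ∈ A, p := by decide

private theorem TyI_omega (q : ℕ) (hq : Squarefree q) :
    (3 : ℝ) ^ q.primeFactors.card ≤ 6 * Real.sqrt q := by
  classical
  have h1 : 9 ^ q.primeFactors.card ≤ 36 * q := by
    have h2 := card_filter_add_card_filter_not (s := q.primeFactors)
      (fun p => p ∈ ({2, 3, 5, 7} : Finset ℕ))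
    have h3 := prod_filter_mul_prod_filter_not q.primeFactors
      (fun p => p ∈ ({2, 3, 5, 7} : Finset ℕ)) (fun p => p)
    rw [Nat.prod_primeFactors_of_squarefree hq] at h3
    have h4 := TyI_nine (q.primeFactors.filter (fun p => p ∈ ({2, 3, 5, 7} : Finset ℕ)))
      (by
        rw [mem_powerset]
        intro p hp
        exact (mem_filter.1 hp).2)
    have h5 : 9 ^ (q.primeFactors.filter (fun p => p ∉ ({2, 3, 5, 7} : Finset ℕ))).card ≤
        ∏ p ∈ q.primeFactors.filter (fun p => p ∉ ({2, 3, 5, 7} : Finset ℕ)), p := by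
      apply pow_card_le_prod
      intro p hp
      rw [mem_filter] at hp
      have hpp := Nat.prime_of_mem_primeFactors hp.1
      by_contra hlt
      rw [not_le] at hlt
      have h6 := hp.2
      have h7 := hpp.two_le
      interval_cases p <;> first
        | exact h6 (by decide)
        | exact absurd hpp (by norm_num)
    rw [← h2, pow_add]
    calc 9 ^ (q.primeFactors.filter (fun p => p ∈ ({2, 3, 5, 7} : Finset ℕ))).card *
          9 ^ (q.primeFactors.filter (fun p => p ∉ ({2, 3, 5, 7} : Finset ℕ))).card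
        ≤ (36 * ∏ p ∈ q.primeFactors.filter (fun p => p ∈ ({2, 3, 5, 7} : Finset ℕ)), p) *
          ∏ p ∈ q.primeFactors.filter (fun p => p ∉ ({2, 3, 5, 7} : Finset ℕ)), p :=
          Nat.mul_le_mul h4 h5
      _ = 36 * ((∏ p ∈ q.primeFactors.filter (fun p => p ∈ ({2, 3, 5, 7} : Finset ℕ)), p) *
          ∏ p ∈ q.primeFactors.filter (fun p => p ∉ ({2, 3, 5, 7} : Finset ℕ)), p) := by ring
      _ = 36 * q := by rw [h3]
  have h2 : ((3 : ℝ) ^ q.primeFactors.card) ^ 2 ≤ 36 * q := by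
    rw [← pow_mul, mul_comm, pow_mul]
    norm_num
    exact_mod_cast h1
  have h3 : (6 * Real.sqrt q) ^ 2 = 36 * q := by
    rw [mul_pow, Real.sq_sqrt (Nat.cast_nonneg q)]
    norm_num
  refine le_of_sq_le_sq ?_ (by positivity)
  rw [h3]
  exact h2

private theorem TyI_coef (Q q : ℕ) (g S : ℕ → ℝ) (hg : Adm Q g S) (hq : 1 ≤ q) :
    |∑ n ∈ (Icc 1 Q).filter (fun n => q ∣ n), g n / n| ≤
      6 * (1 + Real.log Q) ^ 3 / Real.sqrt q := by
  classical
  have hl : 0 ≤ 1 + Real.log Q := by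
    have := Real.log_natCast_nonneg Q
    linarith
  have hq0 : (0 : ℝ) < q := by exact_mod_cast hq
  have hsq : 0 < Real.sqrt q := Real.sqrt_pos.2 hq0
  have h1 : |∑ n ∈ (Icc 1 Q).filter (fun n => q ∣ n), g n / n| ≤
      ∑ n ∈ (Icc 1 Q).filter (fun n => q ∣ n ∧ Squarefree n),
        (3 : ℝ) ^ n.primeFactors.card / n := by
    have h2 : ∑ n ∈ (Icc 1 Q).filter (fun n => q ∣ n), g n / n =
        ∑ n ∈ (Icc 1 Q).filter (fun n => q ∣ n ∧ Squarefree n), g n / n := by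
      symm
      apply sum_subset
      · intro n hn
        rw [mem_filter] at hn ⊢
        exact ⟨hn.1, hn.2.1⟩
      · intro n hn hn'
        rw [mem_filter] at hn hn'
        have h3 : ¬ Squarefree n := fun h => hn' ⟨hn.1, hn.2, h⟩
        rw [hg.1 n h3, zero_div]
    rw [h2]
    refine (abs_sum_le_sum_abs _ _).trans (sum_le_sum fun n _ => ?_)
    rw [abs_div, Nat.abs_cast]
    exact div_le_div_of_nonneg_right (hg.2.1 n) (Nat.cast_nonneg n)
  refine h1.trans ?_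
  by_cases hsf : Squarefree q
  · have h2 : ∑ n ∈ (Icc 1 Q).filter (fun n => q ∣ n ∧ Squarefree n),
        (3 : ℝ) ^ n.primeFactors.card / n ≤
        ∑ n ∈ ((Icc 1 Q).filter (fun n => Squarefree n)).image (fun k => q * k),
        (3 : ℝ) ^ n.primeFactors.card / n := by
      refine sum_le_sum_of_subset_of_nonneg ?_ fun m _ _ => by positivity
      intro n hn
      rw [mem_filter, mem_Icc] at hn
      obtain ⟨k, rfl⟩ := hn.2.1
      rw [mem_image]
      refine ⟨k, ?_, rfl⟩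
      rw [mem_filter, mem_Icc]
      have h3 : k ≤ q * k := Nat.le_mul_of_pos_left k hq
      have h4 : 1 ≤ k := by
        rcases Nat.eq_zero_or_pos k with h5 | h5
        · rw [h5, mul_zero] at hn
          omega
        · exact h5
      exact ⟨⟨h4, by omega⟩, hn.2.2.squarefree_of_dvd (Dvd.intro_left q rfl)⟩
    have h3 : ∑ n ∈ ((Icc 1 Q).filter (fun n => Squarefree n)).image (fun k => q * k),
        (3 : ℝ) ^ n.primeFactors.card / n =
        ∑ k ∈ (Icc 1 Q).filter (fun n => Squarefree n),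
        (3 : ℝ) ^ (q * k).primeFactors.card / ((q * k : ℕ) : ℝ) := by
      rw [sum_image]
      intro a _ b _ hab
      exact Nat.eq_of_mul_eq_mul_left hq hab
    have h4 : ∀ k ∈ (Icc 1 Q).filter (fun n => Squarefree n),
        (3 : ℝ) ^ (q * k).primeFactors.card / ((q * k : ℕ) : ℝ) ≤
        (3 : ℝ) ^ q.primeFactors.card / q * ((3 : ℝ) ^ k.primeFactors.card / k) := by
      intro k hk
      rw [mem_filter, mem_Icc] at hk
      have h5 : (q * k).primeFactors.card ≤ q.primeFactors.card + k.primeFactors.card := by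
        rw [Nat.primeFactors_mul (by omega) (by omega)]
        exact card_union_le _ _
      have h6 : (3 : ℝ) ^ (q * k).primeFactors.card ≤
          (3 : ℝ) ^ q.primeFactors.card * (3 : ℝ) ^ k.primeFactors.card := by
        rw [← pow_add]
        exact pow_le_pow_right₀ (by norm_num) h5
      rw [div_mul_div_comm]
      push_cast
      exact div_le_div_of_nonneg_right h6 (by positivity)
    refine h2.trans ?_
    rw [h3]
    refine (sum_le_sum h4).trans ?_
    rw [← mul_sum]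
    have h5 : (3 : ℝ) ^ q.primeFactors.card / q ≤ 6 / Real.sqrt q := by
      rw [div_le_div_iff₀ hq0 hsq]
      have h6 := mul_le_mul_of_nonneg_right (TyI_omega q hsf) hsq.le
      have h7 : 6 * Real.sqrt q * Real.sqrt q = 6 * q := by
        rw [mul_assoc, Real.mul_self_sqrt (Nat.cast_nonneg q)]
      linarith
    calc (3 : ℝ) ^ q.primeFactors.card / q *
          ∑ k ∈ (Icc 1 Q).filter (fun n => Squarefree n), (3 : ℝ) ^ k.primeFactors.card / k
        ≤ 6 / Real.sqrt q * (1 + Real.log Q) ^ 3 :=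
          mul_le_mul h5 (TyI_sum3 Q) (sum_nonneg fun k _ => by positivity) (by positivity)
      _ = 6 * (1 + Real.log Q) ^ 3 / Real.sqrt q := by ring
  · have h2 : (Icc 1 Q).filter (fun n => q ∣ n ∧ Squarefree n) = ∅ := by
      rw [filter_eq_empty_iff]
      rintro n _ ⟨h3, h4⟩
      exact hsf (h4.squarefree_of_dvd h3)
    rw [h2, sum_empty]
    positivity

/-! ### The sum over the fractions -/

/-- the index set -/
private def TyI_T (Q : ℕ) : Finset (Σ _ : ℕ, ℕ) := (Icc 1 Q).sigma fun d => Pool.Agent.H92.EH.red d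

private theorem TyI_memT {Q : ℕ} {x : Σ _ : ℕ, ℕ} (hx : x ∈ TyI_T Q) :
    (1 ≤ x.1 ∧ x.1 ≤ Q) ∧ x.2 ∈ Pool.Agent.H92.EH.red x.1 := by
  unfold TyI_T at hx
  rw [mem_sigma, mem_Icc] at hx
  exact hx

private theorem TyI_cardT (Q : ℕ) : (TyI_T Q).card ≤ Q ^ 2 := by
  unfold TyI_T
  rw [card_sigma]
  calc ∑ d ∈ Icc 1 Q, (Pool.Agent.H92.EH.red d).card ≤ ∑ _d ∈ Icc 1 Q, Q := by
        refine sum_le_sum fun d hd => ?_
        rw [Pool.Agent.H92.EH.card_red]
        exact (Nat.totient_le d).trans (mem_Icc.1 hd).2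
    _ = Q ^ 2 := by
        rw [sum_const, Nat.card_Icc, Nat.add_sub_cancel, smul_eq_mul]
        ring

private theorem TyI_frac (Q H i : ℕ) (hQ : 1 ≤ Q) (α : ℝ) :
    ∑ x ∈ TyI_T Q, ‖∑ m ∈ Ico (i * H) ((i + 1) * H),
      Pool.Agent.H92.EH.e (m * ((x.2 : ℝ) / x.1 - α))‖ ≤ H + (Q : ℝ) ^ 4 := by
  classical
  have hQ0 : (0 : ℝ) < Q := by exact_mod_cast hQ
  have hQ2 : (0 : ℝ) < 1 / (2 * (Q : ℝ) ^ 2) := by positivity
  have hH0 : (0 : ℝ) ≤ H := Nat.cast_nonneg H
  have hgood : ∀ x ∈ TyI_T Q, (∀ m : ℤ, 1 / (2 * (Q : ℝ) ^ 2) ≤ |(x.2 : ℝ) / x.1 - α - m|) →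
      ‖∑ m ∈ Ico (i * H) ((i + 1) * H),
        Pool.Agent.H92.EH.e (m * ((x.2 : ℝ) / x.1 - α))‖ ≤ (Q : ℝ) ^ 2 := by
    intro x _ hx
    refine (TyI_geom H i _ _ hQ2 hx).trans (le_of_eq ?_)
    field_simp
  have htriv : ∀ x : Σ _ : ℕ, ℕ, ‖∑ m ∈ Ico (i * H) ((i + 1) * H),
        Pool.Agent.H92.EH.e (m * ((x.2 : ℝ) / x.1 - α))‖ ≤ H := by
    intro x
    refine (norm_sum_le _ _).trans ?_
    rw [sum_congr rfl fun m _ => Pool.Agent.H92.EH.norm_e _, sum_const, TyI_card, nsmul_eq_mul,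
      mul_one]
  have hcard : ((TyI_T Q).card : ℝ) ≤ (Q : ℝ) ^ 2 := by exact_mod_cast TyI_cardT Q
  by_cases hall : ∀ x ∈ TyI_T Q, ∀ m : ℤ, 1 / (2 * (Q : ℝ) ^ 2) ≤ |(x.2 : ℝ) / x.1 - α - m|
  · calc ∑ x ∈ TyI_T Q, ‖∑ m ∈ Ico (i * H) ((i + 1) * H),
          Pool.Agent.H92.EH.e (m * ((x.2 : ℝ) / x.1 - α))‖
        ≤ ∑ _x ∈ TyI_T Q, (Q : ℝ) ^ 2 := sum_le_sum fun x hx => hgood x hx (hall x hx)
      _ = (TyI_T Q).card * (Q : ℝ) ^ 2 := by rw [sum_const, nsmul_eq_mul]
      _ ≤ (Q : ℝ) ^ 2 * (Q : ℝ) ^ 2 := mul_le_mul_of_nonneg_right hcard (by positivity)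
      _ ≤ H + (Q : ℝ) ^ 4 := by nlinarith
  · push Not at hall
    obtain ⟨x₀, hx₀, m₀, hm₀⟩ := hall
    have hoth : ∀ x ∈ (TyI_T Q).erase x₀, ∀ m : ℤ,
        1 / (2 * (Q : ℝ) ^ 2) ≤ |(x.2 : ℝ) / x.1 - α - m| := by
      intro x hx m
      rw [mem_erase] at hx
      by_contra hcon
      rw [not_le] at hcon
      obtain ⟨⟨a1, a2⟩, a3⟩ := TyI_memT hx.2
      obtain ⟨⟨b1, b2⟩, b3⟩ := TyI_memT hx₀
      have hne : ¬ (x.1 = x₀.1 ∧ x.2 = x₀.2) := by
        rintro ⟨h1, h2⟩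
        exact hx.1 (Sigma.ext h1 (heq_of_eq h2))
      have h1 := Pool.Agent.H92.EH.farey_spacing a1 b1 a3 b3 hne (m - m₀)
      have hx1 : (0 : ℝ) < x.1 := by exact_mod_cast a1
      have hx2 : (0 : ℝ) < x₀.1 := by exact_mod_cast b1
      have hx3 : (x.1 : ℝ) ≤ Q := by exact_mod_cast a2
      have hx4 : (x₀.1 : ℝ) ≤ Q := by exact_mod_cast b2
      have h2 : 1 / (Q : ℝ) ^ 2 ≤ 1 / ((x.1 : ℝ) * x₀.1) := by
        apply one_div_le_one_div_of_le (by positivity)
        nlinarith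
      have h3 : |(x.2 : ℝ) / x.1 - (x₀.2 : ℝ) / x₀.1 - ((m - m₀ : ℤ) : ℝ)| ≤
          |(x.2 : ℝ) / x.1 - α - m| + |(x₀.2 : ℝ) / x₀.1 - α - m₀| := by
        have h4 : (x.2 : ℝ) / x.1 - (x₀.2 : ℝ) / x₀.1 - ((m - m₀ : ℤ) : ℝ) =
            ((x.2 : ℝ) / x.1 - α - m) - ((x₀.2 : ℝ) / x₀.1 - α - m₀) := by
          push_cast
          ring
        rw [h4]
        exact abs_sub _ _
      have h5 : 1 / (2 * (Q : ℝ) ^ 2) + 1 / (2 * (Q : ℝ) ^ 2) = 1 / (Q : ℝ) ^ 2 := by
        field_simp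
        norm_num
      linarith
    rw [← add_sum_erase _ _ hx₀]
    have hc2 : (((TyI_T Q).erase x₀).card : ℝ) ≤ (Q : ℝ) ^ 2 := by
      refine le_trans ?_ hcard
      exact_mod_cast card_le_card (erase_subset _ _)
    refine add_le_add (htriv x₀) ?_
    calc ∑ x ∈ (TyI_T Q).erase x₀, ‖∑ m ∈ Ico (i * H) ((i + 1) * H),
          Pool.Agent.H92.EH.e (m * ((x.2 : ℝ) / x.1 - α))‖
        ≤ ∑ _x ∈ (TyI_T Q).erase x₀, (Q : ℝ) ^ 2 :=
          sum_le_sum fun x hx => hgood x (mem_of_mem_erase hx) (hoth x hx)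
      _ = ((TyI_T Q).erase x₀).card * (Q : ℝ) ^ 2 := by rw [sum_const, nsmul_eq_mul]
      _ ≤ (Q : ℝ) ^ 2 * (Q : ℝ) ^ 2 := mul_le_mul_of_nonneg_right hc2 (by positivity)
      _ = (Q : ℝ) ^ 4 := by ring

theorem tyI_bs (Q R : ℕ) (g S : ℕ → ℝ) (κ δ : ℝ) (hg : Adm Q g S) (hR : 1 ≤ R) (hRQ : R ≤ Q) (hδ : 0 ≤ δ)
    (hs : ∀ q, 1 ≤ q → q ≤ R → |∑ n ∈ (Icc 1 Q).filter (fun n => q ∣ n), g n / n
      - κ * (ArithmeticFunction.moebius q : ℝ) / (q.totient : ℝ)| ≤ δ) (H i : ℕ) (hi : 1 ≤ i) (hH : 1 ≤ H) (α : ℝ) :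
    ‖Bs (fun m => S m - κ * lamR R m) H i α‖ ≤
      H * (δ + 6 * (1 + Real.log Q) ^ 3 / Real.sqrt R) + (Q : ℝ) ^ 4 * (δ + 6 * (1 + Real.log Q) ^ 3) := by
  classical
  obtain ⟨M, hM⟩ : ∃ M : ℝ, M = δ + 6 * (1 + Real.log Q) ^ 3 / Real.sqrt R := ⟨_, rfl⟩
  have hl : 0 ≤ 1 + Real.log Q := by
    have := Real.log_natCast_nonneg Q
    linarith
  have hR0 : (0 : ℝ) < R := by exact_mod_cast hR
  have hsR : 1 ≤ Real.sqrt R := by
    rw [Real.one_le_sqrt]
    exact_mod_cast hR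
  have hL0 : 0 ≤ 6 * (1 + Real.log Q) ^ 3 := by positivity
  have hM0 : 0 ≤ M := by
    rw [hM]
    positivity
  -- the coefficients
  obtain ⟨b, hb⟩ : ∃ b : ℕ → ℝ, b = fun q => (∑ n ∈ (Icc 1 Q).filter (fun n => q ∣ n), g n / n)
      - (if q ≤ R then κ * (ArithmeticFunction.moebius q : ℝ) / (q.totient : ℝ) else 0) :=
    ⟨_, rfl⟩
  have hbM : ∀ q, 1 ≤ q → |b q| ≤ M := by
    intro q hq
    rw [hb, hM]
    simp only
    by_cases hqR : q ≤ R
    · rw [if_pos hqR]
      have h1 := hs q hq hqR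
      have h2 : 0 ≤ 6 * (1 + Real.log Q) ^ 3 / Real.sqrt R := by positivity
      linarith
    · rw [if_neg hqR, sub_zero]
      refine (TyI_coef Q q g S hg hq).trans ?_
      have h1 : Real.sqrt R ≤ Real.sqrt q := Real.sqrt_le_sqrt (by exact_mod_cast (by omega : R ≤ q))
      have h2 : 6 * (1 + Real.log Q) ^ 3 / Real.sqrt q ≤ 6 * (1 + Real.log Q) ^ 3 / Real.sqrt R :=
        div_le_div_of_nonneg_left hL0 (by linarith) h1
      linarith
  have hexp : ∀ m, 1 ≤ m → S m - κ * lamR R m = ∑ q ∈ Icc 1 Q, b q * ramS q m := by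
    intro m hm
    have h1 : κ * lamR R m = ∑ q ∈ Icc 1 Q, (if q ≤ R then
        κ * (ArithmeticFunction.moebius q : ℝ) / (q.totient : ℝ) else 0) * ramS q m := by
      unfold lamR
      rw [mul_sum]
      have h2 : ∑ q ∈ Icc 1 Q, (if q ≤ R then
          κ * (ArithmeticFunction.moebius q : ℝ) / (q.totient : ℝ) else 0) * ramS q m =
          ∑ q ∈ Icc 1 R, (if q ≤ R then
          κ * (ArithmeticFunction.moebius q : ℝ) / (q.totient : ℝ) else 0) * ramS q m := by
        symm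
        apply sum_subset
        · exact Icc_subset_Icc_right hRQ
        · intro q hq hq'
          rw [mem_Icc] at hq hq'
          rw [if_neg (by omega), zero_mul]
      rw [h2]
      apply sum_congr rfl
      intro q hq
      rw [if_pos (mem_Icc.1 hq).2]
      ring
    rw [hg.2.2 m hm, TyI_expand Q g m hm, h1, ← sum_sub_distrib]
    apply sum_congr rfl
    intro q _
    rw [hb]
    ring
  have hBs : Bs (fun m => S m - κ * lamR R m) H i α = ∑ x ∈ TyI_T Q, ((b x.1 : ℝ) : ℂ) *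
      ∑ m ∈ Ico (i * H) ((i + 1) * H), Pool.Agent.H92.EH.e (m * ((x.2 : ℝ) / x.1 - α)) := by
    unfold Bs
    have h1 : ∀ m ∈ Ico (i * H) ((i + 1) * H),
        ((S m - κ * lamR R m : ℝ) : ℂ) * ee (-(m * α)) =
        ∑ x ∈ TyI_T Q, ((b x.1 : ℝ) : ℂ) *
          Pool.Agent.H92.EH.e (m * ((x.2 : ℝ) / x.1 - α)) := by
      intro m hm
      rw [mem_Ico] at hm
      have hm1 : 1 ≤ m := by
        have : 1 * 1 ≤ i * H := Nat.mul_le_mul hi hH
        omega
      rw [hexp m hm1, Complex.ofReal_sum, sum_mul]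
      unfold TyI_T
      rw [sum_sigma]
      apply sum_congr rfl
      intro q hq
      rw [mem_Icc] at hq
      rw [Complex.ofReal_mul, TyI_ram q m hq.1, mul_assoc, sum_mul, mul_sum]
      apply sum_congr rfl
      intro a _
      rw [TyI_ee, ← Pool.Agent.H92.EH.e_add]
      congr 2
      ring
    rw [sum_congr rfl h1, sum_comm]
    apply sum_congr rfl
    intro x _
    rw [mul_sum]
  have hQ1 : 1 ≤ Q := hR.trans hRQ
  rw [hBs]
  have h1 : ‖∑ x ∈ TyI_T Q, ((b x.1 : ℝ) : ℂ) *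
      ∑ m ∈ Ico (i * H) ((i + 1) * H), Pool.Agent.H92.EH.e (m * ((x.2 : ℝ) / x.1 - α))‖ ≤
      ∑ x ∈ TyI_T Q, M * ‖∑ m ∈ Ico (i * H) ((i + 1) * H),
        Pool.Agent.H92.EH.e (m * ((x.2 : ℝ) / x.1 - α))‖ := by
    refine norm_sum_le_of_le _ fun x hx => ?_
    rw [norm_mul, Complex.norm_real, Real.norm_eq_abs]
    exact mul_le_mul_of_nonneg_right (hbM x.1 (TyI_memT hx).1.1) (norm_nonneg _)
  refine h1.trans ?_
  rw [← mul_sum]
  refine (mul_le_mul_of_nonneg_left (TyI_frac Q H i hQ1 α) hM0).trans ?_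
  have h2 : M ≤ δ + 6 * (1 + Real.log Q) ^ 3 := by
    rw [hM]
    have h3 : 6 * (1 + Real.log Q) ^ 3 / Real.sqrt R ≤ 6 * (1 + Real.log Q) ^ 3 :=
      div_le_self hL0 hsR
    linarith
  have h3 : (Q : ℝ) ^ 4 * M ≤ (Q : ℝ) ^ 4 * (δ + 6 * (1 + Real.log Q) ^ 3) :=
    mul_le_mul_of_nonneg_left h2 (by positivity)
  calc M * (H + (Q : ℝ) ^ 4) = H * M + (Q : ℝ) ^ 4 * M := by ring
    _ ≤ H * M + (Q : ℝ) ^ 4 * (δ + 6 * (1 + Real.log Q) ^ 3) := by linarith
    _ = _ := by rw [hM]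

end Pool.Agent.H76.TP

end

section

namespace Pool.Agent.Lead.ZN

open Finset

/-- The primes `p` with `u < log p ≤ v`. -/
noncomputable def PL (u v : ℝ) : Finset ℕ :=
  (range (⌊Real.exp v⌋₊ + 1)).filter fun p => p.Prime ∧ u < Real.log p ∧ Real.log p ≤ v

private lemma log_le_iff {p : ℕ} (hp : 0 < p) (v : ℝ) : Real.log p ≤ v ↔ p ≤ ⌊Real.exp v⌋₊ := by
  have hp' : (0 : ℝ) < p := by exact_mod_cast hp
  rw [Real.log_le_iff_le_exp hp', Nat.le_floor_iff (Real.exp_pos v).le]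

theorem mem_PL {u v : ℝ} {p : ℕ} :
    p ∈ PL u v ↔ p.Prime ∧ u < Real.log p ∧ Real.log p ≤ v := by
  unfold PL
  rw [mem_filter, mem_range]
  constructor
  · exact fun h => h.2
  · intro h
    refine ⟨?_, h⟩
    have := (log_le_iff h.1.pos v).1 h.2.2
    omega

/-- sum of `log p / p` over the primes up to `n` -/
private noncomputable def Ap (n : ℕ) : ℝ := ∑ p ∈ Nat.primesLE n, Real.log p / p

private lemma PL_eq {u v : ℝ} : PL u v = Nat.primesLE ⌊Real.exp v⌋₊ \ Nat.primesLE ⌊Real.exp u⌋₊ := by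
  ext p
  rw [mem_PL, mem_sdiff, Nat.mem_primesLE, Nat.mem_primesLE]
  constructor
  · rintro ⟨h1, h2, h3⟩
    refine ⟨⟨(log_le_iff h1.pos v).1 h3, h1⟩, ?_⟩
    rintro ⟨h4, -⟩
    exact absurd ((log_le_iff h1.pos u).2 h4) (not_le.2 h2)
  · rintro ⟨⟨h1, h2⟩, h3⟩
    refine ⟨h2, ?_, (log_le_iff h2.pos v).2 h1⟩
    by_contra hcon
    exact h3 ⟨(log_le_iff h2.pos u).1 (not_lt.1 hcon), h2⟩

private lemma primesLE_mono {a b : ℕ} (h : a ≤ b) : Nat.primesLE a ⊆ Nat.primesLE b := by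
  intro p hp
  rw [Nat.mem_primesLE] at hp ⊢
  exact ⟨hp.1.trans h, hp.2⟩

private lemma floor_exp_mono {u v : ℝ} (h : u ≤ v) : ⌊Real.exp u⌋₊ ≤ ⌊Real.exp v⌋₊ :=
  Nat.floor_le_floor (Real.exp_le_exp.2 h)

private lemma sum_PL {u v : ℝ} (h : u ≤ v) :
    ∑ p ∈ PL u v, Real.log p / p = Ap ⌊Real.exp v⌋₊ - Ap ⌊Real.exp u⌋₊ := by
  rw [PL_eq, Ap, Ap, ← Finset.sum_sdiff (primesLE_mono (floor_exp_mono h))]
  ring

private lemma exists_T : ∃ T : ℝ, 0 ≤ T ∧ ∀ n : ℕ,
    Ap n ≤ Pool.Agent.H91.Gold.Mt n ∧ Pool.Agent.H91.Gold.Mt n ≤ Ap n + T := by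
  have hsum := ArithmeticFunction.vonMangoldt.summable_residueClass_non_primes_div (q := 1) (0 : ZMod 1)
  have hres : ∀ n : ℕ, ArithmeticFunction.vonMangoldt.residueClass (0 : ZMod 1) n = ArithmeticFunction.vonMangoldt n := by
    intro n
    unfold ArithmeticFunction.vonMangoldt.residueClass
    rw [Set.indicator_of_mem]
    exact Subsingleton.elim _ _
  simp only [hres] at hsum
  set F : ℕ → ℝ := fun n => (if n.Prime then 0 else ArithmeticFunction.vonMangoldt n) / n with hF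
  have hF0 : ∀ n, 0 ≤ F n := by
    intro n
    simp only [hF]
    split_ifs
    · simp
    · exact div_nonneg ArithmeticFunction.vonMangoldt_nonneg (Nat.cast_nonneg _)
  refine ⟨∑' n, F n, tsum_nonneg hF0, fun n => ?_⟩
  have hMt : Pool.Agent.H91.Gold.Mt n = Ap n + ∑ k ∈ Ioc 0 n, F k := by
    unfold Pool.Agent.H91.Gold.Mt Ap
    have h1 : Nat.primesLE n = (Ioc 0 n).filter Nat.Prime := by
      ext p
      rw [Nat.mem_primesLE, mem_filter, mem_Ioc]
      constructor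
      · rintro ⟨h1, h2⟩; exact ⟨⟨h2.pos, h1⟩, h2⟩
      · rintro ⟨⟨-, h1⟩, h2⟩; exact ⟨h1, h2⟩
    rw [h1, Finset.sum_filter, ← Finset.sum_add_distrib]
    apply Finset.sum_congr rfl
    intro k _
    simp only [hF]
    split_ifs with hk
    · rw [ArithmeticFunction.vonMangoldt_apply_prime hk]; simp
    · simp
  have h2 : 0 ≤ ∑ k ∈ Ioc 0 n, F k := Finset.sum_nonneg (fun k _ => hF0 k)
  have h3 : ∑ k ∈ Ioc 0 n, F k ≤ ∑' n, F n := hsum.sum_le_tsum _ (fun k _ => hF0 k)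
  constructor <;> linarith

private lemma Mt_mono {a b : ℕ} (h : a ≤ b) :
    Pool.Agent.H91.Gold.Mt a ≤ Pool.Agent.H91.Gold.Mt b := by
  unfold Pool.Agent.H91.Gold.Mt
  apply Finset.sum_le_sum_of_subset_of_nonneg
  · intro k hk
    rw [mem_Ioc] at hk ⊢
    omega
  · intro k _ _
    exact div_nonneg ArithmeticFunction.vonMangoldt_nonneg (Nat.cast_nonneg _)

private lemma Ap_bounds : ∃ K : ℝ, 1 ≤ K ∧ ∀ n : ℕ, 1 ≤ n →
    Ap n ≤ Real.log n + K ∧ Real.log n ≤ Ap n + K := by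
  obtain ⟨T, hT0, hT⟩ := exists_T
  refine ⟨max (Real.log 1024 + 1) (1 + T), le_max_of_le_right (by linarith), fun n hn => ?_⟩
  have hn0 : 0 ≤ Real.log n := Real.log_nonneg (by exact_mod_cast hn)
  have h1 := hT n
  have h2 := Pool.Agent.H91.Gold.Mt_ge n hn
  have h1024 : 0 ≤ Real.log 1024 := Real.log_nonneg (by norm_num)
  constructor
  · have h3 : Pool.Agent.H91.Gold.Mt n ≤ Real.log n + (Real.log 1024 + 1) := by
      rcases Nat.lt_or_ge n 1024 with h | h
      · have h4 := Mt_mono h.le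
        have h5 := Pool.Agent.H91.Gold.Mt_le 1024 le_rfl
        push_cast at h5
        linarith
      · have h5 := Pool.Agent.H91.Gold.Mt_le n h
        linarith
    have := le_max_left (Real.log 1024 + 1) (1 + T)
    linarith
  · have := le_max_right (Real.log 1024 + 1) (1 + T)
    linarith

private lemma floor_exp_pos {v : ℝ} (hv : 0 ≤ v) : 1 ≤ ⌊Real.exp v⌋₊ := by
  rw [Nat.one_le_floor_iff]
  exact Real.one_le_exp hv

private lemma log_floor_le (v : ℝ) (hv : 0 ≤ v) : Real.log (⌊Real.exp v⌋₊ : ℝ) ≤ v := by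
  have h1 := floor_exp_pos hv
  have h2 : (0 : ℝ) < (⌊Real.exp v⌋₊ : ℝ) := by exact_mod_cast h1
  rw [Real.log_le_iff_le_exp h2]
  exact Nat.floor_le (Real.exp_pos v).le

private lemma le_log_floor (v : ℝ) (hv : 0 ≤ v) :
    v - Real.log 2 ≤ Real.log (⌊Real.exp v⌋₊ : ℝ) := by
  have h1 := floor_exp_pos hv
  have h2 : (1 : ℝ) ≤ (⌊Real.exp v⌋₊ : ℝ) := by exact_mod_cast h1
  have h3 : Real.exp v ≤ 2 * (⌊Real.exp v⌋₊ : ℝ) := by
    have := Nat.lt_floor_add_one (Real.exp v)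
    linarith
  have h4 : v ≤ Real.log (2 * (⌊Real.exp v⌋₊ : ℝ)) := by
    rw [Real.le_log_iff_exp_le (by positivity)]
    exact h3
  rw [Real.log_mul (by norm_num) (by positivity)] at h4
  linarith

private lemma log_step {k : ℕ} (hk : 2 ≤ k) : (1 : ℝ) / k ≤ Real.log k - Real.log (k - 1 : ℕ) := by
  have hk0 : (0 : ℝ) < k := by exact_mod_cast (by omega : 0 < k)
  have hk1 : (0 : ℝ) < ((k - 1 : ℕ) : ℝ) := by exact_mod_cast (by omega : 0 < k - 1)
  have hc : ((k - 1 : ℕ) : ℝ) = k - 1 := by push_cast [Nat.cast_sub (by omega : 1 ≤ k)]; ring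
  have h := Real.log_le_sub_one_of_pos (show (0 : ℝ) < ((k - 1 : ℕ) : ℝ) / k by positivity)
  rw [Real.log_div hk1.ne' hk0.ne'] at h
  have h2 : ((k - 1 : ℕ) : ℝ) / k - 1 = - (1 / k) := by rw [hc]; field_simp; ring
  rw [h2] at h
  linarith

private lemma loglog_step {k : ℕ} (hk : 3 ≤ k) :
    (1 : ℝ) / k * (1 / Real.log k) ≤ Real.log (Real.log k) - Real.log (Real.log (k - 1 : ℕ)) := by
  have hk0 : (0 : ℝ) < k := by exact_mod_cast (by omega : 0 < k)
  have hk1 : (1 : ℝ) < ((k - 1 : ℕ) : ℝ) := by exact_mod_cast (by omega : 1 < k - 1)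
  have hk2 : (1 : ℝ) < k := by exact_mod_cast (by omega : 1 < k)
  have hl1 : 0 < Real.log (k - 1 : ℕ) := Real.log_pos hk1
  have hl2 : 0 < Real.log k := Real.log_pos hk2
  have h := Real.log_le_sub_one_of_pos (show (0 : ℝ) < Real.log (k - 1 : ℕ) / Real.log k by positivity)
  rw [Real.log_div hl1.ne' hl2.ne'] at h
  have h3 := log_step (show 2 ≤ k by omega)
  have h4 : (1 : ℝ) / k * (1 / Real.log k) ≤ (Real.log k - Real.log (k - 1 : ℕ)) * (1 / Real.log k) :=
    mul_le_mul_of_nonneg_right h3 (by positivity)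
  have h5 : (Real.log k - Real.log (k - 1 : ℕ)) * (1 / Real.log k) = 1 - Real.log (k - 1 : ℕ) / Real.log k := by
    field_simp
  rw [h5] at h4
  linarith

private lemma sum_loglog {w z : ℕ} (hw : 2 ≤ w) (h : w ≤ z) :
    ∑ k ∈ Ioc w z, (1 : ℝ) / k * (1 / Real.log k) ≤ Real.log (Real.log z) - Real.log (Real.log w) := by
  induction z, h using Nat.le_induction with
  | base => simp
  | succ z hz ih =>
    rw [Finset.sum_Ioc_succ_top (by omega)]
    have := loglog_step (k := z + 1) (by omega)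
    simp only [Nat.add_sub_cancel] at this
    linarith

private lemma sum_inv_ge {w m : ℕ} (hw : 1 ≤ w) (h : w ≤ m) :
    Real.log m - Real.log w - 1 ≤ ∑ k ∈ Ioc w m, (1 : ℝ) / k := by
  have key : Real.log (m + 1) - Real.log (w + 1) ≤ ∑ k ∈ Ioc w m, (1 : ℝ) / k := by
    induction m, h using Nat.le_induction with
    | base => simp
    | succ m hm ih =>
      rw [Finset.sum_Ioc_succ_top (by omega)]
      have hm0 : (0 : ℝ) < (m : ℝ) + 1 := by positivity
      have h1 := Real.log_le_sub_one_of_pos (show (0 : ℝ) < ((m : ℝ) + 2) / (m + 1) by positivity)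
      rw [Real.log_div (by positivity) (by positivity)] at h1
      have h2 : ((m : ℝ) + 2) / (m + 1) - 1 = 1 / (m + 1) := by field_simp; ring
      rw [h2] at h1
      push_cast
      rw [show (m : ℝ) + 1 + 1 = m + 2 by ring]
      linarith
  have hw0 : (0 : ℝ) < w := by exact_mod_cast hw
  have hm0 : (0 : ℝ) < m := by exact_mod_cast (by omega : 0 < m)
  have h1 : Real.log m ≤ Real.log (m + 1) := Real.log_le_log hm0 (by linarith)
  have h2 := Real.log_le_sub_one_of_pos (show (0 : ℝ) < ((w : ℝ) + 1) / w by positivity)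
  rw [Real.log_div (by positivity) (by positivity)] at h2
  have h3 : ((w : ℝ) + 1) / w - 1 = 1 / w := by field_simp; ring
  have h4 : (1 : ℝ) / w ≤ 1 := by
    rw [div_le_one hw0]; exact_mod_cast hw
  rw [h3] at h2
  linarith

/-- Mertens' estimates (one constant for all of them). -/
theorem mertens : ∃ C : ℝ, 1 ≤ C ∧
    (∀ u v : ℝ, 0 ≤ u → u ≤ v → ∑ p ∈ PL u v, Real.log p / p ≤ (v - u) + C) ∧
    (∀ u v : ℝ, 0 ≤ u → u ≤ v → (v - u) - C ≤ ∑ p ∈ PL u v, Real.log p / p) ∧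
    (∀ u v : ℝ, 1 ≤ u → u ≤ v → ∑ p ∈ PL u v, (1 : ℝ) / p ≤ Real.log (v / u) + C) ∧
    (∀ v : ℝ, 0 ≤ v → ∑ p ∈ PL 0 v, Real.log p ≤ C * Real.exp v) := by
  obtain ⟨K, hK1, hK⟩ := Ap_bounds
  have hlog2 : Real.log 2 ≤ 1 := by have := Real.log_two_lt_d9; linarith
  have hlog2' : 0 < Real.log 2 := Real.log_pos (by norm_num)
  have hlog2'' : Real.log 2 < 0.7 := by have := Real.log_two_lt_d9; linarith
  have hlog2l : 0.69 < Real.log 2 := by have := Real.log_two_gt_d9; linarith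
  refine ⟨4 * K + 10, by linarith, ?_, ?_, ?_, ?_⟩
  · intro u v hu huv
    rw [sum_PL huv]
    have h1 := (hK _ (floor_exp_pos (hu.trans huv))).1
    have h2 := (hK _ (floor_exp_pos hu)).2
    have h3 := log_floor_le v (hu.trans huv)
    have h4 := le_log_floor u hu
    linarith
  · intro u v hu huv
    rw [sum_PL huv]
    have h1 := (hK _ (floor_exp_pos (hu.trans huv))).2
    have h2 := (hK _ (floor_exp_pos hu)).1
    have h3 := le_log_floor v (hu.trans huv)
    have h4 := log_floor_le u hu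
    linarith
  · intro u v hu huv
    set w := ⌊Real.exp u⌋₊ with hw
    set z := ⌊Real.exp v⌋₊ with hz
    have hwz : w ≤ z := floor_exp_mono huv
    have hw2 : 2 ≤ w := by
      rw [hw, Nat.le_floor_iff (Real.exp_pos u).le]
      have h1 : Real.exp 1 ≤ Real.exp u := Real.exp_le_exp.2 hu
      have h2 := Real.exp_one_gt_d9
      push_cast
      linarith
    have hw0 : (0 : ℝ) < w := by exact_mod_cast (by omega : 0 < w)
    have hab := Pool.Agent.H91.Gold.abel_le hwz (c := 2 * K + 1) (by linarith)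
      (a := fun k => if k.Prime then Real.log k / k else 0)
      (b := fun k => (1 : ℝ) / k) (f := fun k => 1 / Real.log k)
      (fun k hk _ => by
        have : (1 : ℝ) ≤ k := by exact_mod_cast (by omega : 1 ≤ k)
        exact div_nonneg one_pos.le (Real.log_nonneg this))
      (by
        have : (1 : ℝ) ≤ ((w + 1 : ℕ) : ℝ) := by exact_mod_cast (by omega : 1 ≤ w + 1)
        exact div_nonneg one_pos.le (Real.log_nonneg this))
      (fun k hk _ => by
        have h1 : (1 : ℝ) < k := by exact_mod_cast (by omega : 1 < k)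
        apply one_div_le_one_div_of_le (Real.log_pos h1)
        apply Real.log_le_log (by linarith)
        push_cast; linarith)
      (fun m hwm hmz => by
        have e1 : ∑ k ∈ Ioc w m, (if k.Prime then Real.log k / k else 0) = Ap m - Ap w := by
          rw [← Finset.sum_filter, Ap, Ap, ← Finset.sum_sdiff (primesLE_mono hwm), add_sub_cancel_right]
          apply Finset.sum_congr _ (fun _ _ => rfl)
          ext p
          rw [mem_filter, mem_Ioc, mem_sdiff, Nat.mem_primesLE, Nat.mem_primesLE]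
          constructor
          · rintro ⟨⟨h1, h2⟩, h3⟩
            exact ⟨⟨h2, h3⟩, fun h => by omega⟩
          · rintro ⟨⟨h1, h2⟩, h3⟩
            refine ⟨⟨?_, h1⟩, h2⟩
            by_contra hcon
            exact h3 ⟨by omega, h2⟩
        rw [e1]
        have h1 := (hK m (by omega)).1
        have h2 := (hK w (by omega)).2
        have h3 := sum_inv_ge (show 1 ≤ w by omega) hwm
        linarith)
    have e2 : ∑ p ∈ PL u v, (1 : ℝ) / p = ∑ k ∈ Ioc w z, (if k.Prime then Real.log k / k else 0) * (1 / Real.log k) := by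
      have e3 : PL u v = (Ioc w z).filter Nat.Prime := by
        rw [PL_eq]
        ext p
        rw [mem_filter, mem_Ioc, mem_sdiff, Nat.mem_primesLE, Nat.mem_primesLE]
        constructor
        · rintro ⟨⟨h1, h2⟩, h3⟩
          refine ⟨⟨?_, h1⟩, h2⟩
          by_contra hcon
          exact h3 ⟨by omega, h2⟩
        · rintro ⟨⟨h1, h2⟩, h3⟩
          exact ⟨⟨h2, h3⟩, fun h => by omega⟩
      rw [e3, Finset.sum_filter]
      apply Finset.sum_congr rfl
      intro k hk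
      split_ifs with hkp
      · have : 0 < Real.log k := Real.log_pos (by exact_mod_cast hkp.one_lt)
        field_simp
      · simp
    rw [e2]
    refine hab.trans ?_
    have h5 := sum_loglog hw2 hwz
    -- bounds on the loglog terms
    have hz2 : 2 ≤ z := hw2.trans hwz
    have hz0 : (0 : ℝ) < z := by exact_mod_cast (by omega : 0 < z)
    have hu0 : 0 < u := by linarith
    have hv0 : 0 < v := by linarith
    have h6 : Real.log (Real.log z) ≤ Real.log v := by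
      apply Real.log_le_log (Real.log_pos (by exact_mod_cast (by omega : 1 < z)))
      exact log_floor_le v hv0.le
    have h7 : Real.log u - 2 ≤ Real.log (Real.log w) := by
      have h8 := le_log_floor u hu0.le
      -- log w >= u - log 2 >= 0.3 u
      have h9 : 0.3 * u ≤ Real.log w := by
        have : Real.log w ≥ u - Real.log 2 := h8
        nlinarith
      have h10 : Real.log (0.3 * u) ≤ Real.log (Real.log w) := Real.log_le_log (by positivity) h9
      rw [Real.log_mul (by norm_num) hu0.ne'] at h10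
      have h11 : -2 ≤ Real.log 0.3 := by
        rw [Real.le_log_iff_exp_le (by norm_num)]
        have h12 : Real.exp (-2) ≤ 0.25 := by
          rw [show (-2 : ℝ) = -(1 + 1) by norm_num, Real.exp_neg, Real.exp_add]
          have := Real.exp_one_gt_d9
          rw [inv_le_comm₀ (by positivity) (by norm_num)]
          nlinarith
        linarith
      linarith
    have h8 : (2 * K + 1) * (1 / Real.log ((w + 1 : ℕ) : ℝ)) ≤ 2 * K + 1 := by
      have h9 : 1 ≤ Real.log ((w + 1 : ℕ) : ℝ) := by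
        rw [Real.le_log_iff_exp_le (by positivity)]
        have : Real.exp 1 < 3 := by have := Real.exp_one_lt_d9; linarith
        have h3 : (3 : ℝ) ≤ ((w + 1 : ℕ) : ℝ) := by exact_mod_cast (by omega : 3 ≤ w + 1)
        linarith
      have h10 : 1 / Real.log ((w + 1 : ℕ) : ℝ) ≤ 1 := by
        rw [div_le_one (by linarith)]; exact h9
      nlinarith
    rw [Real.log_div hv0.ne' hu0.ne']
    linarith
  · intro v hv
    have h1 := Chebyshev.theta_le_log4_mul_x (Real.exp_pos v).le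
    have h2 : ∑ p ∈ PL 0 v, Real.log p ≤ Chebyshev.theta (Real.exp v) := by
      rw [Chebyshev.theta_eq_sum_primesLE]
      apply Finset.sum_le_sum_of_subset_of_nonneg
      · rw [PL_eq]; exact Finset.sdiff_subset
      · intro p hp _
        exact Real.log_natCast_nonneg p
    have h3 : Real.log 4 ≤ 2 := by
      rw [show (4 : ℝ) = 2 * 2 by norm_num, Real.log_mul (by norm_num) (by norm_num)]
      linarith
    have h4 : Real.log 4 * Real.exp v ≤ (4 * K + 10) * Real.exp v :=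
      mul_le_mul_of_nonneg_right (by linarith) (Real.exp_pos v).le
    linarith

end Pool.Agent.Lead.ZN

end

section

/-!
# TP Gup: Selberg's `G` is almost the Euler product

`GD w y D = ∑_{A ⊆ PY w y, ∏A ≤ D} ∏_{p ∈ A} 1/(p-1)`.  `VV(PY w y) ∑_{all A} ∏ 1/(p-1) = ∏ (1 - 1/p)(1 + 1/(p-1)) = 1`.
The `A` with `∏A > D`: Rankin with `η = 1/log y`: `≤ D^(-η) VV ∏ (1 + p^η/(p-1)) = D^(-η) ∏ (1 + (p^η - 1)/p) ≤ D^(-η) exp(∑_{p ≤ y} (p^η - 1)/p)`, and `p^η - 1 ≤ 2 log p/log y` (`e^t - 1 ≤ 2t` for `0 ≤ t ≤ 1`),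
`∑_{p ≤ y} log p/p ≤ log y + C'` (Mertens, e.g. `Pool.Agent.Lead.ZN.mertens`, see the proof of `Pool.Agent.H37.PPC.rankin` in `H37/PPC/Rk.lean`, which is almost this statement).
-/

set_option autoImplicit false

namespace Pool.Agent.H76.TP

open Finset

/-- Selberg's denominator -/
noncomputable def GD (w y D : ℕ) : ℝ :=
  ∑ A ∈ (PY w y).powerset.filter (fun A => ∏ p ∈ A, p ≤ D), ∏ p ∈ A, (1 / ((p : ℝ) - 1))

private theorem Gup_factor {l : ℕ} (hl : l.Prime) {h t : ℝ} (h0 : 0 ≤ h) (hk : h * l ≤ 1 + h)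
    (ht0 : 0 ≤ t) (ht1 : t ≤ 1) :
    1 + h * Real.exp t ≤ (1 + h) * Real.exp (1 / l * (2 * t)) := by
  have hl0 : (0 : ℝ) < l := by exact_mod_cast hl.pos
  have h1 : Real.exp t - 1 ≤ 2 * t := by
    have := Real.abs_exp_sub_one_le (x := t) (by rw [abs_of_nonneg ht0]; exact ht1)
    rw [abs_of_nonneg ht0] at this
    exact (le_abs_self _).trans this
  have h2 : h ≤ 1 / l * (1 + h) := by
    rw [div_mul_eq_mul_div, one_mul, le_div_iff₀ hl0]
    exact hk
  have h4 : 1 + 1 / l * (2 * t) ≤ Real.exp (1 / l * (2 * t)) := by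
    have := Real.add_one_le_exp ((1 : ℝ) / l * (2 * t))
    linarith
  calc 1 + h * Real.exp t = (1 + h) + h * (Real.exp t - 1) := by ring
    _ ≤ (1 + h) + h * (2 * t) := by
        have := mul_le_mul_of_nonneg_left h1 h0
        linarith
    _ ≤ (1 + h) + 1 / l * (1 + h) * (2 * t) := by
        have := mul_le_mul_of_nonneg_right h2 (by linarith : (0 : ℝ) ≤ 2 * t)
        linarith
    _ = (1 + h) * (1 + 1 / l * (2 * t)) := by ring
    _ ≤ (1 + h) * Real.exp (1 / l * (2 * t)) :=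
        mul_le_mul_of_nonneg_left h4 (by linarith)

private theorem Gup_mem {w y l : ℕ} (hl : l ∈ PY w y) : l.Prime ∧ l ≤ y := by
  unfold PY at hl
  rw [mem_filter, mem_Ioc] at hl
  exact ⟨hl.2, hl.1.2⟩

theorem gup : ∃ C : ℝ, 0 < C ∧ ∀ w y D : ℕ, 2 ≤ w → w ≤ y → 1 ≤ D →
    1 - C * Real.exp (-(Real.log D / Real.log y)) ≤ VV (PY w y) * GD w y D := by
  obtain ⟨C, hC1, hC, -⟩ := Pool.Agent.Lead.ZN.mertens
  have hlog2 : 0 < Real.log 2 := Real.log_pos (by norm_num)
  refine ⟨Real.exp (2 * (1 + C / Real.log 2)), Real.exp_pos _, ?_⟩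
  intro w y D hw hwy hD
  have hy2 : 2 ≤ y := hw.trans hwy
  have hD0 : (0 : ℝ) < D := by exact_mod_cast hD
  set L : ℝ := Real.log y with hL
  have hL2 : Real.log 2 ≤ L := Real.log_le_log (by norm_num) (by exact_mod_cast hy2)
  have hL0 : 0 < L := hlog2.trans_le hL2
  set P : Finset ℕ := PY w y with hP
  have hPp : ∀ l ∈ P, l.Prime ∧ l ≤ y := fun l hl => Gup_mem hl
  set h : ℕ → ℝ := fun p => 1 / ((p : ℝ) - 1) with hh
  have hone : ∀ l ∈ P, (1 : ℝ) < l := fun l hl => by exact_mod_cast (hPp l hl).1.one_lt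
  have hh0 : ∀ l ∈ P, 0 ≤ h l := fun l hl => by
    have := hone l hl
    rw [hh]
    exact div_nonneg zero_le_one (by linarith)
  have hhk : ∀ l ∈ P, h l * l ≤ 1 + h l := fun l hl => by
    have h1 := hone l hl
    have h2 : (l : ℝ) - 1 ≠ 0 := by linarith
    rw [hh]
    apply le_of_eq
    field_simp
    ring
  have hV : VV P * ∏ l ∈ P, (1 + h l) = 1 := by
    unfold VV
    rw [← Finset.prod_mul_distrib]
    refine Finset.prod_eq_one fun l hl => ?_
    have h1 := hone l hl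
    have h2 : (l : ℝ) - 1 ≠ 0 := by linarith
    have h3 : (l : ℝ) ≠ 0 := by linarith
    rw [hh]
    field_simp
    ring
  have hV0 : 0 ≤ VV P := by
    unfold VV
    refine Finset.prod_nonneg fun l hl => ?_
    have h1 := hone l hl
    have h2 : 1 / (l : ℝ) ≤ 1 := by
      rw [div_le_one (by linarith)]
      exact h1.le
    linarith
  have ht : ∀ l ∈ P, 0 ≤ Real.log l / L ∧ Real.log l / L ≤ 1 := by
    intro l hl
    have h3 := hone l hl
    refine ⟨div_nonneg (Real.log_nonneg h3.le) hL0.le, ?_⟩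
    rw [div_le_one hL0]
    exact Real.log_le_log (by linarith) (by exact_mod_cast (hPp l hl).2)
  have hsum : ∑ l ∈ P, Real.log l / l ≤ L + C := by
    have h1 := hC 0 L le_rfl hL0.le
    rw [sub_zero] at h1
    refine le_trans (Finset.sum_le_sum_of_subset_of_nonneg ?_ ?_) h1
    · intro l hl
      obtain ⟨h1, h2⟩ := hPp l hl
      rw [Pool.Agent.Lead.ZN.mem_PL]
      refine ⟨h1, Real.log_pos (by exact_mod_cast h1.one_lt), ?_⟩
      exact Real.log_le_log (by exact_mod_cast h1.pos) (by exact_mod_cast h2)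
    · intro l hl _
      have h2 := (Pool.Agent.Lead.ZN.mem_PL.1 hl).1
      exact div_nonneg (Real.log_nonneg (by exact_mod_cast h2.one_lt.le)) (Nat.cast_nonneg _)
  have hprodpos : 0 ≤ ∏ l ∈ P, (1 + h l) :=
    Finset.prod_nonneg fun l hl => by
      have := hh0 l hl
      linarith
  have htw : ∏ l ∈ P, (1 + h l * Real.exp (Real.log l / L)) ≤
      (∏ l ∈ P, (1 + h l)) * Real.exp (2 * (1 + C / Real.log 2)) := by
    have h1 : ∏ l ∈ P, (1 + h l * Real.exp (Real.log l / L)) ≤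
        ∏ l ∈ P, ((1 + h l) * Real.exp (1 / l * (2 * (Real.log l / L)))) := by
      refine Finset.prod_le_prod ?_ ?_
      · intro l hl
        have := hh0 l hl
        positivity
      · intro l hl
        exact Gup_factor (hPp l hl).1 (hh0 l hl) (hhk l hl) (ht l hl).1 (ht l hl).2
    refine h1.trans ?_
    rw [Finset.prod_mul_distrib, ← Real.exp_sum]
    refine mul_le_mul_of_nonneg_left ?_ hprodpos
    rw [Real.exp_le_exp]
    have h4 : ∑ l ∈ P, ((1 : ℝ) / l * (2 * (Real.log l / L))) =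
        2 / L * ∑ l ∈ P, Real.log l / l := by
      rw [Finset.mul_sum]
      refine Finset.sum_congr rfl fun l _ => ?_
      ring
    rw [h4]
    have h5 : 2 / L * ∑ l ∈ P, Real.log l / l ≤ 2 / L * (L + C) :=
      mul_le_mul_of_nonneg_left hsum (by positivity)
    refine h5.trans ?_
    have h6 : 2 / L * (L + C) = 2 * (1 + C / L) := by
      field_simp
    rw [h6]
    refine mul_le_mul_of_nonneg_left ?_ (by norm_num)
    have : C / L ≤ C / Real.log 2 := div_le_div_of_nonneg_left (by linarith) hlog2 hL2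
    linarith
  have hexp : ∏ l ∈ P, (1 + h l) = ∑ T ∈ P.powerset, ∏ l ∈ T, h l := Finset.prod_one_add P
  have hexp2 : ∏ l ∈ P, (1 + h l * Real.exp (Real.log l / L)) =
      ∑ T ∈ P.powerset, ∏ l ∈ T, (h l * Real.exp (Real.log l / L)) := Finset.prod_one_add P
  have hTs : ∀ T ∈ P.powerset, ∀ l ∈ T, l ∈ P := fun T hT l hl => Finset.mem_powerset.1 hT hl
  -- the bad subsets
  have hbad : ∑ T ∈ P.powerset.filter (fun T => ¬ ∏ l ∈ T, l ≤ D), ∏ l ∈ T, h l ≤
      Real.exp (-(Real.log D / L)) * ∏ l ∈ P, (1 + h l * Real.exp (Real.log l / L)) := by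
    rw [hexp2, Finset.mul_sum]
    refine le_trans (Finset.sum_le_sum fun T hT => ?_)
      (Finset.sum_le_sum_of_subset_of_nonneg (Finset.filter_subset _ _) ?_)
    · obtain ⟨hT1, hT2⟩ := Finset.mem_filter.1 hT
      have hTs' := hTs T hT1
      rw [Finset.prod_mul_distrib, ← Real.exp_sum, mul_left_comm]
      refine le_mul_of_one_le_right
        (Finset.prod_nonneg fun l hl => hh0 l (hTs' l hl)) ?_
      rw [← Real.exp_add]
      refine Real.one_le_exp ?_
      have h1 : ∑ l ∈ T, Real.log (l : ℝ) = Real.log ((∏ l ∈ T, l : ℕ) : ℝ) := by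
        push_cast
        rw [Real.log_prod]
        intro l hl
        exact_mod_cast (hPp l (hTs' l hl)).1.ne_zero
      have h2 : Real.log D ≤ ∑ l ∈ T, Real.log (l : ℝ) := by
        rw [h1]
        refine Real.log_le_log hD0 ?_
        exact_mod_cast (not_le.1 hT2).le
      rw [← Finset.sum_div]
      have h3 : Real.log D / L ≤ (∑ l ∈ T, Real.log (l : ℝ)) / L :=
        div_le_div_of_nonneg_right h2 hL0.le
      linarith
    · intro T hT _
      refine mul_nonneg (Real.exp_pos _).le (Finset.prod_nonneg fun l hl => ?_)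
      have := hh0 l (hTs T hT l hl)
      positivity
  have hsplit := Finset.sum_filter_add_sum_filter_not P.powerset (fun T => ∏ l ∈ T, l ≤ D)
    (fun T => ∏ l ∈ T, h l)
  have hG : GD w y D = ∑ T ∈ P.powerset.filter (fun T => ∏ l ∈ T, l ≤ D), ∏ l ∈ T, h l := rfl
  rw [← hexp, ← hG] at hsplit
  have hb2 : ∑ T ∈ P.powerset.filter (fun T => ¬ ∏ l ∈ T, l ≤ D), ∏ l ∈ T, h l ≤
      Real.exp (-(Real.log D / L)) *
        ((∏ l ∈ P, (1 + h l)) * Real.exp (2 * (1 + C / Real.log 2))) :=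
    hbad.trans (mul_le_mul_of_nonneg_left htw (Real.exp_pos _).le)
  have hfin : VV P * (∑ T ∈ P.powerset.filter (fun T => ¬ ∏ l ∈ T, l ≤ D), ∏ l ∈ T, h l) ≤
      Real.exp (2 * (1 + C / Real.log 2)) * Real.exp (-(Real.log D / L)) := by
    refine (mul_le_mul_of_nonneg_left hb2 hV0).trans (le_of_eq ?_)
    calc VV P * (Real.exp (-(Real.log D / L)) *
        ((∏ l ∈ P, (1 + h l)) * Real.exp (2 * (1 + C / Real.log 2))))
        = (VV P * ∏ l ∈ P, (1 + h l)) *
          (Real.exp (2 * (1 + C / Real.log 2)) * Real.exp (-(Real.log D / L))) := by ring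
      _ = _ := by rw [hV, one_mul]
  have hmain : VV P * GD w y D = 1 -
      VV P * (∑ T ∈ P.powerset.filter (fun T => ¬ ∏ l ∈ T, l ≤ D), ∏ l ∈ T, h l) := by
    have h1 : GD w y D = (∏ l ∈ P, (1 + h l)) -
        ∑ T ∈ P.powerset.filter (fun T => ¬ ∏ l ∈ T, l ≤ D), ∏ l ∈ T, h l := by linarith
    rw [h1, mul_sub, hV]
  rw [hmain]
  linarith

end Pool.Agent.H76.TP

end
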