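import Pool.Agent.H43.PJ.H91.GoldMertens

/-! The parts of this file: H31.EQ.Lev, H35.V1.NT, H3.LC.Mertens, H76.TP.MertR, H9.TM.LinM, H87T.SelW, H36.IS.MtB, H36.IS.MtC. -/

section

/-!
# EQ Lev: decomposition into level sets

`V_j = V0/2^j`, `B_j = {t ∈ R : V_(j+1) < p t ≤ V_j}` (`j < J`), rest `{p t ≤ V_J}`: `∫_{B_j} p² q ≤ V_j² (Q1 + W Q0/V_(j+1)^4) = V_j² Q1 + 16 W Q0/V_j²`;
`∑_j V_j² ≤ 2 V0²`, `∑_{j<J} 1/V_j² = ∑ 4^j/V0² ≤ 4^J/(3 V0²)`.  (Induction on `J` from the top level is also possible: the statement for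
`R' = {t ∈ R : p t ≤ V0/2}`, `V0/2`, `J - 1`.)
-/

set_option autoImplicit false

namespace Pool.Agent.H31.EQ

open MeasureTheory

private theorem Lev_int {f : ℝ → ℝ} (hf : Continuous f) {T : ℝ} {R : Set ℝ} (hRT : R ⊆ Set.Icc (-T) T) :
    IntegrableOn f R :=
  (hf.continuousOn.integrableOn_compact isCompact_Icc).mono_set hRT

/-- the sharp form, by induction on `J` -/
private theorem Lev_ind (p q : ℝ → ℝ) (hp : Continuous p) (hq : Continuous q) (hp0 : ∀ t, 0 ≤ p t)
    (hq0 : ∀ t, 0 ≤ q t) (T Q0 Q1 W S : ℝ) (hQ1 : 0 ≤ Q1) (hW : 0 ≤ W) :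
    ∀ (J : ℕ) (V0 : ℝ) (R : Set ℝ), MeasurableSet R → R ⊆ Set.Icc (-T) T → 0 < V0 → (∀ t ∈ R, p t ≤ V0) →
    (∀ (B : Set ℝ) (V : ℝ), MeasurableSet B → B ⊆ R → 0 < V → (∀ t ∈ B, V ≤ p t) → volume.real B ≤ Q0 / V ^ 4) →
    (∀ B : Set ℝ, MeasurableSet B → B ⊆ R → ∫ t in B, q t ≤ Q1 + W * volume.real B) →
    (∫ t in R, q t ≤ S) →
    ∫ t in R, p t ^ 2 * q t ≤
      2 * V0 ^ 2 * Q1 + 16 / 3 * (W * Q0) * (4 ^ J - 1) / V0 ^ 2 + V0 ^ 2 / 4 ^ J * S := by
  have hpq : Continuous fun t => p t ^ 2 * q t := (hp.pow 2).mul hq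
  -- the bound by the maximum
  have hmax : ∀ (V : ℝ) (B : Set ℝ), MeasurableSet B → B ⊆ Set.Icc (-T) T → 0 < V → (∀ t ∈ B, p t ≤ V) →
      ∫ t in B, p t ^ 2 * q t ≤ V ^ 2 * ∫ t in B, q t := by
    intro V B hB hBT hV hpV
    rw [← integral_const_mul]
    refine setIntegral_mono_on (Lev_int hpq hBT) (Lev_int (hq.const_mul _) hBT) hB fun t ht => ?_
    exact mul_le_mul_of_nonneg_right (pow_le_pow_left₀ (hp0 t) (hpV t ht) 2) (hq0 t)
  intro J
  induction J with
  | zero =>
    intro V0 R hR hRT hV0 hV hvol hdual htot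
    have h1 := hmax V0 R hR hRT hV0 hV
    have h2 : V0 ^ 2 * ∫ t in R, q t ≤ V0 ^ 2 * S := mul_le_mul_of_nonneg_left htot (by positivity)
    have h3 : 0 ≤ 2 * V0 ^ 2 * Q1 := by positivity
    rw [pow_zero, sub_self, mul_zero, zero_div, div_one]
    linarith
  | succ J ih =>
    intro V0 R hR hRT hV0 hV hvol hdual htot
    obtain ⟨R', hR'⟩ : ∃ R' : Set ℝ, R' = R ∩ {t | p t ≤ V0 / 2} := ⟨_, rfl⟩
    obtain ⟨B, hBd⟩ : ∃ B : Set ℝ, B = R ∩ {t | V0 / 2 < p t} := ⟨_, rfl⟩
    have hR'm : MeasurableSet R' := by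
      rw [hR']
      exact hR.inter (measurableSet_le hp.measurable measurable_const)
    have hBm : MeasurableSet B := by
      rw [hBd]
      exact hR.inter (measurableSet_lt measurable_const hp.measurable)
    have hR's : R' ⊆ R := by
      rw [hR']
      exact Set.inter_subset_left
    have hBs : B ⊆ R := by
      rw [hBd]
      exact Set.inter_subset_left
    have hdis : Disjoint R' B := by
      rw [Set.disjoint_left]
      intro t h1 h2
      rw [hR'] at h1
      rw [hBd] at h2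
      have h3 : p t ≤ V0 / 2 := h1.2
      have h4 : V0 / 2 < p t := h2.2
      linarith
    have hun : R' ∪ B = R := by
      rw [hR', hBd, ← Set.inter_union_distrib_left]
      have : {t | p t ≤ V0 / 2} ∪ {t | V0 / 2 < p t} = Set.univ := by
        ext t
        simp only [Set.mem_union, Set.mem_ofPred_eq, Set.mem_univ, iff_true]
        exact le_or_gt _ _
      rw [this, Set.inter_univ]
    have hsplit : ∫ t in R, p t ^ 2 * q t = (∫ t in R', p t ^ 2 * q t) + ∫ t in B, p t ^ 2 * q t := by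
      rw [← hun]
      exact setIntegral_union hdis hBm (Lev_int hpq (hR's.trans hRT)) (Lev_int hpq (hBs.trans hRT))
    have h1 := ih (V0 / 2) R' hR'm (hR's.trans hRT) (by positivity)
      (fun t ht => by rw [hR'] at ht; exact ht.2)
      (fun C V hC hCs hVp hVC => hvol C V hC (hCs.trans hR's) hVp hVC)
      (fun C hC hCs => hdual C hC (hCs.trans hR's))
      (le_trans (setIntegral_mono_set (Lev_int hq hRT) (Filter.Eventually.of_forall hq0)
        (Filter.Eventually.of_forall hR's)) htot)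
    have h2 : volume.real B ≤ Q0 / (V0 / 2) ^ 4 :=
      hvol B (V0 / 2) hBm hBs (by positivity) fun t ht => by
        rw [hBd] at ht
        exact (show V0 / 2 < p t from ht.2).le
    have h3 := hdual B hBm hBs
    have h4 := hmax V0 B hBm (hBs.trans hRT) hV0 fun t ht => hV t (hBs ht)
    have h5 : W * volume.real B ≤ W * (Q0 / (V0 / 2) ^ 4) := mul_le_mul_of_nonneg_left h2 hW
    have h6 : ∫ t in B, p t ^ 2 * q t ≤ V0 ^ 2 * (Q1 + W * (Q0 / (V0 / 2) ^ 4)) :=
      h4.trans (mul_le_mul_of_nonneg_left (by linarith) (by positivity))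
    have e1 : V0 ^ 2 * (Q1 + W * (Q0 / (V0 / 2) ^ 4)) = V0 ^ 2 * Q1 + 16 * (W * Q0) / V0 ^ 2 := by
      field_simp
      ring
    have e2 : 2 * (V0 / 2) ^ 2 * Q1 + 16 / 3 * (W * Q0) * (4 ^ J - 1) / (V0 / 2) ^ 2 +
        (V0 / 2) ^ 2 / 4 ^ J * S = V0 ^ 2 * Q1 / 2 + 16 / 3 * (W * Q0) * (4 ^ (J + 1) - 4) / V0 ^ 2 +
        V0 ^ 2 / 4 ^ (J + 1) * S := by
      rw [pow_succ]
      field_simp
      ring
    rw [hsplit]
    rw [e1] at h6
    rw [e2] at h1
    have e3 : 16 / 3 * (W * Q0) * (4 ^ (J + 1) - 1) / V0 ^ 2 =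
        16 / 3 * (W * Q0) * (4 ^ (J + 1) - 4) / V0 ^ 2 + 16 * (W * Q0) / V0 ^ 2 := by
      rw [← add_div]
      congr 1
      ring
    rw [e3]
    have h7 : 0 ≤ V0 ^ 2 * Q1 := by positivity
    linarith

theorem lev (p q : ℝ → ℝ) (hp : Continuous p) (hq : Continuous q) (hp0 : ∀ t, 0 ≤ p t) (hq0 : ∀ t, 0 ≤ q t)
    (T V0 Q0 Q1 W S : ℝ) (J : ℕ) (R : Set ℝ) (hR : MeasurableSet R) (hRT : R ⊆ Set.Icc (-T) T) (hV0 : 0 < V0)
    (hQ0 : 0 ≤ Q0) (hQ1 : 0 ≤ Q1) (hW : 0 ≤ W) (hS : 0 ≤ S) (hV : ∀ t ∈ R, p t ≤ V0)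
    (hvol : ∀ (B : Set ℝ) (V : ℝ), MeasurableSet B → B ⊆ R → 0 < V → (∀ t ∈ B, V ≤ p t) → volume.real B ≤ Q0 / V ^ 4)
    (hdual : ∀ B : Set ℝ, MeasurableSet B → B ⊆ R → ∫ t in B, q t ≤ Q1 + W * volume.real B)
    (htot : ∫ t in R, q t ≤ S) :
    ∫ t in R, p t ^ 2 * q t ≤ 2 * V0 ^ 2 * Q1 + 6 * (W * Q0) * 4 ^ J / V0 ^ 2 + V0 ^ 2 / 4 ^ J * S := by
  have h := Lev_ind p q hp hq hp0 hq0 T Q0 Q1 W S hQ1 hW J V0 R hR hRT hV0 hV hvol hdual htot
  have h1 : 16 / 3 * (W * Q0) * (4 ^ J - 1) / V0 ^ 2 ≤ 6 * (W * Q0) * 4 ^ J / V0 ^ 2 := by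
    refine div_le_div_of_nonneg_right ?_ (by positivity)
    have h2 : 0 ≤ W * Q0 := mul_nonneg hW hQ0
    have h3 : 0 ≤ W * Q0 * 4 ^ J := by positivity
    nlinarith
  linarith

end Pool.Agent.H31.EQ

end

section

/-!
Mertens type estimates used for the order of vanishing at one.
-/

namespace Pool.Agent.H35.V1

open Finset Real
open scoped ArithmeticFunction.vonMangoldt

noncomputable section

/-- Primes in `(w, z]`. -/
def PPr (w z : ℕ) : Finset ℕ := (Ioc w z).filter Nat.Prime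

theorem mem_PPr {w z p : ℕ} : p ∈ PPr w z ↔ (w < p ∧ p ≤ z) ∧ p.Prime := by
  simp [PPr]

theorem sum_recip_le {w z : ℕ} (hw : 2 ≤ w) (hwz : w ≤ z) {c : ℝ} (hc : 0 ≤ c)
    (h : ∀ m, w ≤ m → m ≤ z → ∑ d ∈ Ioc w m, ArithmeticFunction.vonMangoldt d / d
      ≤ Real.log m - Real.log w + c) :
    ∑ p ∈ PPr w z, (1 : ℝ) / p ≤ Real.log (Real.log z / Real.log w) + c / Real.log w := by
  have hlw : 0 < Real.log w := Real.log_pos (by exact_mod_cast (by omega : 1 < w))
  have hlog : ∀ k : ℕ, w ≤ k → 0 < Real.log k := by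
    intro k hk
    apply Real.log_pos
    exact_mod_cast (by omega : 1 < k)
  have h1 : ∑ p ∈ PPr w z, (1 : ℝ) / p
      = ∑ k ∈ Ioc w z, (if k.Prime then Real.log k / k else 0) * (1 / Real.log k) := by
    unfold PPr
    rw [sum_filter]
    apply sum_congr rfl
    intro k hk
    rw [mem_Ioc] at hk
    split_ifs with hp
    · have := (hlog k hk.1.le).ne'
      field_simp
    · simp
  have h2 : ∑ k ∈ Ioc w z, (if k.Prime then Real.log k / k else 0) * (1 / Real.log k)
      ≤ ∑ k ∈ Ioc w z, (Real.log k - Real.log (k - 1 : ℕ)) * (1 / Real.log k)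
        + c * (1 / Real.log ((w + 1 : ℕ) : ℝ)) := by
    apply Pool.Agent.H91.Gold.abel_le hwz hc
    · intro k hk1 _
      have := hlog k hk1.le
      positivity
    · have := hlog (w + 1) (by omega)
      positivity
    · intro k hk1 _
      have := hlog k hk1.le
      apply one_div_le_one_div_of_le this
      apply Real.log_le_log
      · exact_mod_cast (by omega : 0 < k)
      · push_cast; linarith
    · intro m hm1 hm2
      have e1 : ∑ k ∈ Ioc w m, (Real.log k - Real.log (k - 1 : ℕ)) = Real.log m - Real.log w := by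
        clear hm2
        induction m, hm1 using Nat.le_induction with
        | base => simp
        | succ m hm ih =>
          rw [sum_Ioc_succ_top (by omega), ih]
          simp
      have e2 : ∑ k ∈ Ioc w m, (if k.Prime then Real.log k / k else 0)
          ≤ ∑ k ∈ Ioc w m, Λ k / k := by
        apply sum_le_sum
        intro k _
        split_ifs with hp
        · rw [ArithmeticFunction.vonMangoldt_apply_prime hp]
        · have := ArithmeticFunction.vonMangoldt_nonneg (n := k)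
          positivity
      rw [e1]
      exact e2.trans (h m hm1 hm2)
  have h3 : ∀ m, w ≤ m → ∑ k ∈ Ioc w m, (Real.log k - Real.log (k - 1 : ℕ)) * (1 / Real.log k)
      ≤ Real.log (Real.log m) - Real.log (Real.log w) := by
    intro m hm
    induction m, hm using Nat.le_induction with
    | base => simp
    | succ m hm ih =>
      rw [sum_Ioc_succ_top (by omega)]
      have a1 := hlog m hm
      have a2 := hlog (m + 1) (by omega)
      have a3 : (Real.log ((m + 1 : ℕ) : ℝ) - Real.log (m + 1 - 1 : ℕ)) * (1 / Real.log ((m + 1 : ℕ) : ℝ))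
          ≤ Real.log (Real.log ((m + 1 : ℕ) : ℝ)) - Real.log (Real.log m) := by
        have b1 := Real.log_le_sub_one_of_pos (x := Real.log m / Real.log ((m + 1 : ℕ) : ℝ)) (by positivity)
        rw [Real.log_div a1.ne' a2.ne'] at b1
        rw [Nat.add_sub_cancel]
        have b2 : (Real.log ((m + 1 : ℕ) : ℝ) - Real.log m) * (1 / Real.log ((m + 1 : ℕ) : ℝ))
            = 1 - Real.log m / Real.log ((m + 1 : ℕ) : ℝ) := by
          field_simp
        rw [b2]
        linarith
      linarith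
  have h4 := h3 z hwz
  have h5 : c * (1 / Real.log ((w + 1 : ℕ) : ℝ)) ≤ c / Real.log w := by
    rw [mul_one_div]
    apply div_le_div_of_nonneg_left hc hlw
    apply Real.log_le_log
    · exact_mod_cast (by omega : 0 < w)
    · push_cast; linarith
  rw [h1, Real.log_div (hlog z hwz).ne' hlw.ne']
  linarith

end

end Pool.Agent.H35.V1

end

section

/-!
# LC Mertens: Chebyshev and Mertens estimates

* `cheb_theta`: `Chebyshev.theta_le_log4_mul_x` (`θ x ≤ log 4 * x`, `log 4 < 2`).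
* `cheb_pi`: in Mathlib (file NumberTheory/Chebyshev.lean, look for `primeCounting`), or: the primes in `(√n, n]` number at
  most `θ(n) / log √n`, plus `√n`.
* `mertens`: `∑_{d ≤ n} Λ(d)/d = log n + O(1)` follows from `log n! = ∑_{d ≤ n} Λ(d) ⌊n/d⌋`, `log n! = n log n + O(n)`, `ψ(n) = O(n)`;
  the non-prime prime powers contribute a convergent sum
  (`ArithmeticFunction.vonMangoldt.summable_residueClass_non_primes_div` with modulus 1, or `∑ log p / (p (p-1))`).
  The file Pool/Agent/H91/GoldMertens.lean (in the graded repository) contains `Mt_ge`, `Mt_le` for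
  `Mt n = ∑_{d ≤ n} Λ d / d`; you may import it.
-/

set_option autoImplicit false

open Finset

namespace Pool.Agent.H3.LC

open scoped ArithmeticFunction.vonMangoldt in
theorem mertens_log_fact_eq (n : ℕ) :
    ∑ k ∈ Ioc 0 n, Real.log k = ∑ d ∈ Ioc 0 n, Λ d * ((n / d : ℕ) : ℝ) := by
  rw [← ArithmeticFunction.sum_Ioc_mul_zeta_eq_sum, ArithmeticFunction.vonMangoldt_mul_zeta]
  rfl

theorem mertens_log_fact_ge (n : ℕ) (hn : 1 ≤ n) :
    n * Real.log n - n ≤ ∑ k ∈ Ioc 0 n, Real.log k := by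
  induction n, hn using Nat.le_induction with
  | base => simp
  | succ n hn ih =>
    rw [sum_Ioc_succ_top (by omega)]
    have hn0 : (0 : ℝ) < n := by exact_mod_cast hn
    have h1 : Real.log ((n + 1 : ℕ) : ℝ) - Real.log n ≤ 1 / n := by
      rw [← Real.log_div (by positivity) hn0.ne']
      have := Real.log_le_sub_one_of_pos (x := ((n + 1 : ℕ) : ℝ) / n) (by positivity)
      have e : ((n + 1 : ℕ) : ℝ) / n - 1 = 1 / n := by push_cast; field_simp; ring
      linarith
    have h2 : (n : ℝ) * (Real.log ((n + 1 : ℕ) : ℝ) - Real.log n) ≤ 1 := by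
      calc (n : ℝ) * (Real.log ((n + 1 : ℕ) : ℝ) - Real.log n) ≤ n * (1 / n) :=
            mul_le_mul_of_nonneg_left h1 hn0.le
        _ = 1 := by field_simp
    push_cast at *
    nlinarith

open scoped ArithmeticFunction.vonMangoldt in
/-- the sum of `Λ d / d`, `d ≤ n` -/
noncomputable def mertensM (n : ℕ) : ℝ := ∑ d ∈ Ioc 0 n, Λ d / d

open scoped ArithmeticFunction.vonMangoldt in
theorem mertensM_ge (n : ℕ) (hn : 1 ≤ n) : Real.log n - 1 ≤ mertensM n := by
  have hn0 : (0 : ℝ) < n := by exact_mod_cast hn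
  have h1 := mertens_log_fact_ge n hn
  rw [mertens_log_fact_eq] at h1
  have h2 : ∑ d ∈ Ioc 0 n, Λ d * ((n / d : ℕ) : ℝ) ≤ n * mertensM n := by
    unfold mertensM
    rw [mul_sum]
    apply sum_le_sum
    intro d _
    have := @Nat.cast_div_le ℝ _ _ _ n d
    calc Λ d * ((n / d : ℕ) : ℝ) ≤ Λ d * ((n : ℝ) / d) :=
          mul_le_mul_of_nonneg_left this ArithmeticFunction.vonMangoldt_nonneg
      _ = n * (Λ d / d) := by ring
  have h3 : (n : ℝ) * (Real.log n - 1) ≤ n * mertensM n := by linarith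
  exact le_of_mul_le_mul_left h3 hn0

open scoped ArithmeticFunction.vonMangoldt in
theorem mertensM_le (n : ℕ) (hn : 1 ≤ n) : mertensM n ≤ Real.log n + (Real.log 4 + 4) := by
  have hn0 : (0 : ℝ) < n := by exact_mod_cast hn
  have hn1 : (1 : ℝ) ≤ n := by exact_mod_cast hn
  have h1 : ∑ k ∈ Ioc 0 n, Real.log k ≤ n * Real.log n := by
    calc ∑ k ∈ Ioc 0 n, Real.log k ≤ ∑ _k ∈ Ioc 0 n, Real.log n := by
          refine sum_le_sum fun k hk => ?_
          rw [mem_Ioc] at hk
          exact Real.log_le_log (by exact_mod_cast hk.1) (by exact_mod_cast hk.2)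
      _ = n * Real.log n := by rw [sum_const, Nat.card_Ioc, nsmul_eq_mul]; simp
  rw [mertens_log_fact_eq] at h1
  have h2 : n * mertensM n ≤ ∑ d ∈ Ioc 0 n, Λ d * ((n / d : ℕ) : ℝ) + ∑ d ∈ Ioc 0 n, Λ d := by
    unfold mertensM
    rw [mul_sum, ← sum_add_distrib]
    refine sum_le_sum fun d hd => ?_
    rw [mem_Ioc] at hd
    have hd0 : (0 : ℝ) < d := by exact_mod_cast hd.1
    have h3 : (n : ℝ) / d ≤ ((n / d : ℕ) : ℝ) + 1 := by
      rw [div_le_iff₀ hd0]
      have h4 : n < (n / d + 1) * d := by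
        have := Nat.div_add_mod n d
        have := Nat.mod_lt n hd.1
        nlinarith
      exact_mod_cast h4.le
    calc n * (Λ d / d) = Λ d * (n / d) := by ring
      _ ≤ Λ d * (((n / d : ℕ) : ℝ) + 1) :=
          mul_le_mul_of_nonneg_left h3 ArithmeticFunction.vonMangoldt_nonneg
      _ = _ := by ring
  have h3 : ∑ d ∈ Ioc 0 n, Λ d ≤ (Real.log 4 + 4) * n := by
    have := Chebyshev.psi_le_const_mul_self (x := (n : ℝ)) hn0.le
    rw [Chebyshev.psi, Nat.floor_natCast] at this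
    exact this
  have h4 : n * mertensM n ≤ n * (Real.log n + (Real.log 4 + 4)) := by linarith
  exact le_of_mul_le_mul_left h4 hn0

open scoped ArithmeticFunction.vonMangoldt in
theorem mertens : ∃ C : ℝ, 0 < C ∧ ∀ n : ℕ, 1 ≤ n →
    |∑ p ∈ (Icc 1 n).filter Nat.Prime, Real.log p / p - Real.log n| ≤ C := by
  have hs := ArithmeticFunction.vonMangoldt.summable_residueClass_non_primes_div (q := 1) 0
  have hr : ∀ n : ℕ, ArithmeticFunction.vonMangoldt.residueClass (0 : ZMod 1) n = Λ n := by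
    intro n
    unfold ArithmeticFunction.vonMangoldt.residueClass
    rw [Set.indicator_of_mem]
    exact Subsingleton.elim _ _
  simp only [hr] at hs
  have hnn : ∀ n : ℕ, 0 ≤ (if n.Prime then 0 else Λ n) / (n : ℝ) := by
    intro n
    split_ifs
    · simp
    · exact div_nonneg ArithmeticFunction.vonMangoldt_nonneg (Nat.cast_nonneg n)
  set D : ℝ := ∑' n : ℕ, (if n.Prime then 0 else Λ n) / (n : ℝ) with hD
  have hD0 : 0 ≤ D := tsum_nonneg hnn
  have hlog4 : 0 ≤ Real.log 4 := Real.log_nonneg (by norm_num)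
  refine ⟨D + Real.log 4 + 4, by linarith, fun n hn => ?_⟩
  have h1 := mertensM_ge n hn
  have h2 := mertensM_le n hn
  have e : Ioc 0 n = Icc 1 n := by
    ext k; simp only [mem_Ioc, mem_Icc]; omega
  have h3 : mertensM n = ∑ p ∈ (Icc 1 n).filter Nat.Prime, Real.log p / p +
      ∑ d ∈ Icc 1 n, (if d.Prime then 0 else Λ d) / (d : ℝ) := by
    unfold mertensM
    rw [e, sum_filter, ← sum_add_distrib]
    refine sum_congr rfl fun d _ => ?_
    split_ifs with h
    · rw [ArithmeticFunction.vonMangoldt_apply_prime h]; simp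
    · simp
  have h4 : ∑ d ∈ Icc 1 n, (if d.Prime then 0 else Λ d) / (d : ℝ) ≤ D :=
    hs.sum_le_tsum _ fun d _ => hnn d
  have h5 : 0 ≤ ∑ d ∈ Icc 1 n, (if d.Prime then 0 else Λ d) / (d : ℝ) :=
    sum_nonneg fun d _ => hnn d
  rw [abs_le]
  constructor <;> linarith

end Pool.Agent.H3.LC

end

section

/-!
# TP MertR: Riemann sums over primes

`∑_{N^a < p ≤ N^b} f(log p/L)/p ≤ ∫_a^b f(u)/u du + ε`, uniformly in `a0 ≤ a ≤ b ≤ 1` and `f` bounded by `M` and `M`-Lipschitz.
Proof.  Cut `[a, b]` into `n` pieces `[u_i, u_{i+1}]` of length `h = (b-a)/n ≤ 1/n`.  Mertens: `∑_{N^{u_i} < p ≤ N^{u_{i+1}}} 1/p ≤ log(u_{i+1}/u_i) + C/(a0 L)` (`∑_{s<p≤t} 1/p = log(log t/log s) + O(1/log s)`; `Pool.Agent.H87S` `mertens_diff` in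
`H87S/PrimeSums.lean`, or `H37/PPC/Mt.lean` `mertens_two`, `H70/EHC/Mer.lean`).  `f(log p/L) ≤ f(u) + M h` for all `u` in the piece and `log(u_{i+1}/u_i) = ∫ du/u`: the piece contributes
`≤ ∫_{u_i}^{u_{i+1}} (f(u) + M h)/u du + M C/(a0 L)`; total `≤ ∫ f/u + M/(n a0) + n M C/(a0 L)`.  Choose `n`, then `N`.
-/

set_option autoImplicit false

namespace Pool.Agent.H76.TP

open Finset MeasureTheory

private theorem MertR_nat : ∃ c : ℝ, 0 < c ∧ ∀ w z : ℕ, 2 ≤ w → w ≤ z →
    ∑ p ∈ Pool.Agent.H35.V1.PPr w z, (1 : ℝ) / p ≤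
      Real.log (Real.log z / Real.log w) + c / Real.log w := by
  have hlog4 : 0 ≤ Real.log 4 := Real.log_nonneg (by norm_num)
  refine ⟨Real.log 4 + 5, by linarith, fun w z hw hwz => ?_⟩
  refine Pool.Agent.H35.V1.sum_recip_le hw hwz (by linarith) fun m hm _ => ?_
  have h1 := Pool.Agent.H3.LC.mertensM_ge w (by omega)
  have h2 := Pool.Agent.H3.LC.mertensM_le m (by omega)
  unfold Pool.Agent.H3.LC.mertensM at h1 h2
  have e : ∑ d ∈ Ioc 0 m, ArithmeticFunction.vonMangoldt d / (d : ℝ) =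
      ∑ d ∈ Ioc 0 w, ArithmeticFunction.vonMangoldt d / (d : ℝ) +
        ∑ d ∈ Ioc w m, ArithmeticFunction.vonMangoldt d / (d : ℝ) := by
    rw [← sum_union]
    · congr 1
      ext x
      simp only [mem_union, mem_Ioc]
      omega
    · rw [disjoint_left]
      intro x h3 h4
      rw [mem_Ioc] at h3 h4
      omega
  linarith

/-- the primes of a window -/
private noncomputable def MertR_P (N : ℕ) (s t : ℝ) : Finset ℕ :=
  (Icc 1 N).filter (fun p : ℕ => p.Prime ∧ (N : ℝ) ^ s < p ∧ (p : ℝ) ≤ (N : ℝ) ^ t)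

private theorem MertR_win : ∃ C : ℝ, 0 < C ∧ ∀ (N : ℕ) (s t : ℝ), 0 < s → s ≤ t → 2 ≤ N →
    2 ≤ s * Real.log N →
    ∑ p ∈ MertR_P N s t, (1 : ℝ) / p ≤ Real.log (t / s) + C / (s * Real.log N) := by
  obtain ⟨c, hc, h⟩ := MertR_nat
  refine ⟨2 + 2 * c, by linarith, fun N s t hs hst hN hsL => ?_⟩
  have hN0 : (0 : ℝ) < N := by exact_mod_cast (by omega : 0 < N)
  have hN1 : (1 : ℝ) < N := by exact_mod_cast (by omega : 1 < N)
  have hL : 0 < Real.log N := Real.log_pos hN1
  set L := Real.log N with hLd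
  have ht : 0 < t := by linarith
  have hsLp : 0 < s * L := by positivity
  have hes : (N : ℝ) ^ s = Real.exp (s * L) := by
    rw [Real.rpow_def_of_pos hN0, mul_comm]
  have het : (N : ℝ) ^ t = Real.exp (t * L) := by
    rw [Real.rpow_def_of_pos hN0, mul_comm]
  have hexp : 3 ≤ Real.exp (s * L) := by
    have := Real.add_one_le_exp (s * L)
    linarith
  have hst' : Real.exp (s * L) ≤ Real.exp (t * L) :=
    Real.exp_le_exp.2 (mul_le_mul_of_nonneg_right hst hL.le)
  set w := ⌊(N : ℝ) ^ s⌋₊ with hw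
  set z := ⌊(N : ℝ) ^ t⌋₊ with hz
  have hw3 : 3 ≤ w := by
    rw [hw, hes]
    exact Nat.le_floor (by exact_mod_cast hexp)
  have hwz : w ≤ z := by
    rw [hw, hz, hes, het]
    exact Nat.floor_le_floor hst'
  have hsub : MertR_P N s t ⊆ Pool.Agent.H35.V1.PPr w z := by
    intro p hp
    unfold MertR_P at hp
    rw [mem_filter] at hp
    obtain ⟨_, hpp, h1, h2⟩ := hp
    rw [Pool.Agent.H35.V1.mem_PPr]
    refine ⟨⟨?_, ?_⟩, hpp⟩
    · exact (Nat.floor_lt (by positivity)).2 h1
    · exact Nat.le_floor h2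
  have h1 : ∑ p ∈ MertR_P N s t, (1 : ℝ) / p ≤ ∑ p ∈ Pool.Agent.H35.V1.PPr w z, (1 : ℝ) / p :=
    sum_le_sum_of_subset_of_nonneg hsub fun _ _ _ => by positivity
  refine h1.trans ((h w z (by omega) hwz).trans ?_)
  have hwp : (0 : ℝ) < w := by exact_mod_cast (by omega : 0 < w)
  have hzp : (0 : ℝ) < z := by exact_mod_cast (by omega : 0 < z)
  -- lower bound for log w
  have hlw : s * L - Real.log 2 ≤ Real.log w := by
    have h2 : Real.exp (s * L) / 2 ≤ w := by
      have h3 := Nat.sub_one_lt_floor ((N : ℝ) ^ s)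
      rw [← hw, hes] at h3
      linarith
    have h3 : s * L - Real.log 2 = Real.log (Real.exp (s * L) / 2) := by
      rw [Real.log_div (Real.exp_ne_zero _) (by norm_num), Real.log_exp]
    rw [h3]
    exact Real.log_le_log (by positivity) h2
  have hl2 : Real.log 2 ≤ 1 := by linarith [Real.log_two_lt_d9]
  have hl20 : 0 < Real.log 2 := Real.log_pos (by norm_num)
  have hhalf : s * L / 2 ≤ s * L - Real.log 2 := by linarith
  have hlwp : 0 < Real.log w := by linarith
  have hlz : Real.log z ≤ t * L := by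
    have h3 : (z : ℝ) ≤ Real.exp (t * L) := by
      have := Nat.floor_le (show 0 ≤ (N : ℝ) ^ t by positivity)
      rw [← hz, het] at this
      exact this
    have h4 := Real.log_le_log hzp h3
    rwa [Real.log_exp] at h4
  have hlzp : 0 < Real.log z := by
    have h4 : Real.log w ≤ Real.log z := Real.log_le_log hwp (by exact_mod_cast hwz)
    linarith
  -- the main term
  have hden : 0 < s * L - Real.log 2 := by linarith
  have h5 : Real.log (Real.log z / Real.log w) ≤ Real.log (t * L / (s * L - Real.log 2)) := by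
    apply Real.log_le_log (by positivity)
    exact div_le_div₀ (by positivity) hlz hden hlw
  have h6 : Real.log (t * L / (s * L - Real.log 2)) =
      Real.log (t / s) + Real.log (s * L / (s * L - Real.log 2)) := by
    rw [← Real.log_mul (by positivity) (by positivity)]
    congr 1
    field_simp
  have h7 : Real.log (s * L / (s * L - Real.log 2)) ≤ 2 / (s * L) := by
    have h8 := Real.log_le_sub_one_of_pos (show 0 < s * L / (s * L - Real.log 2) by positivity)
    have h9 : s * L / (s * L - Real.log 2) - 1 = Real.log 2 / (s * L - Real.log 2) := by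
      field_simp
      ring
    rw [h9] at h8
    refine h8.trans ?_
    rw [div_le_div_iff₀ hden hsLp]
    nlinarith
  have h10 : c / Real.log w ≤ 2 * c / (s * L) := by
    rw [div_le_div_iff₀ hlwp hsLp]
    nlinarith
  have h11 : (2 + 2 * c) / (s * L) = 2 / (s * L) + 2 * c / (s * L) := by ring
  rw [h11]
  linarith

private theorem MertR_piece {C : ℝ} (N : ℕ) (s t M : ℝ) (f : ℝ → ℝ) (hM : 0 < M) (hs : 0 < s)
    (hst : s ≤ t) (hts : t - s ≤ 1) (hN : 2 ≤ N)
    (hC : ∑ p ∈ MertR_P N s t, (1 : ℝ) / p ≤ Real.log (t / s) + C / (s * Real.log N))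
    (hC0 : 0 < C)
    (hf : ∀ u ∈ Set.Icc s t, 0 ≤ f u ∧ f u ≤ M)
    (hfL : ∀ u ∈ Set.Icc s t, ∀ v ∈ Set.Icc s t, |f u - f v| ≤ M * |u - v|) :
    ∑ p ∈ MertR_P N s t, f (Real.log p / Real.log N) / p ≤ (∫ u in s..t, f u / u) +
      (2 * M * (t - s) ^ 2 / s + 2 * M * (C / (s * Real.log N))) := by
  have hN0 : (0 : ℝ) < N := by exact_mod_cast (by omega : 0 < N)
  have hN1 : (1 : ℝ) < N := by exact_mod_cast (by omega : 1 < N)
  have hL : 0 < Real.log N := Real.log_pos hN1
  have hts0 : 0 ≤ t - s := by linarith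
  have hsm : s ∈ Set.Icc s t := ⟨le_rfl, hst⟩
  have hfs := hf s hsm
  have ht : 0 < t := by linarith
  -- the sum
  have h1 : ∑ p ∈ MertR_P N s t, f (Real.log p / Real.log N) / p ≤
      (f s + M * (t - s)) * ∑ p ∈ MertR_P N s t, (1 : ℝ) / p := by
    rw [mul_sum]
    refine sum_le_sum fun p hp => ?_
    unfold MertR_P at hp
    rw [mem_filter] at hp
    obtain ⟨_, hpp, h2, h3⟩ := hp
    have hp0 : (0 : ℝ) < p := by exact_mod_cast hpp.pos
    have hu : Real.log p / Real.log N ∈ Set.Icc s t := by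
      constructor
      · rw [le_div_iff₀ hL, ← Real.log_rpow hN0]
        exact Real.log_le_log (by positivity) h2.le
      · rw [div_le_iff₀ hL, ← Real.log_rpow hN0]
        exact Real.log_le_log hp0 h3
    have h4 := hfL _ hu s hsm
    have h5 : f (Real.log p / Real.log N) ≤ f s + M * (t - s) := by
      have h6 := le_abs_self (f (Real.log p / Real.log N) - f s)
      have h7 : |Real.log p / Real.log N - s| ≤ t - s := by
        rw [abs_of_nonneg (by linarith [hu.1])]
        linarith [hu.2]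
      have h8 := mul_le_mul_of_nonneg_left h7 hM.le
      linarith
    rw [mul_one_div]
    exact div_le_div_of_nonneg_right h5 hp0.le
  have hlog : Real.log (t / s) ≤ (t - s) / s := by
    have h2 := Real.log_le_sub_one_of_pos (show 0 < t / s by positivity)
    have h3 : t / s - 1 = (t - s) / s := by field_simp
    linarith
  have hlog0 : 0 ≤ Real.log (t / s) := Real.log_nonneg ((one_le_div hs).2 hst)
  -- the integral
  have hcont : ContinuousOn f (Set.Icc s t) := by
    have hlip : LipschitzOnWith ⟨M, hM.le⟩ f (Set.Icc s t) := by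
      apply LipschitzOnWith.of_dist_le_mul
      intro x hx y hy
      rw [Real.dist_eq, Real.dist_eq]
      exact hfL x hx y hy
    exact hlip.continuousOn
  have hint : IntervalIntegrable (fun u => f u / u) volume s t := by
    apply ContinuousOn.intervalIntegrable
    rw [Set.uIcc_of_le hst]
    exact hcont.div continuousOn_id fun u hu => (lt_of_lt_of_le hs hu.1).ne'
  have hint2 : IntervalIntegrable (fun u : ℝ => (f s - M * (t - s)) * (1 / u)) volume s t := by
    apply ContinuousOn.intervalIntegrable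
    rw [Set.uIcc_of_le hst]
    exact continuousOn_const.mul (continuousOn_const.div continuousOn_id fun u hu =>
      (lt_of_lt_of_le hs hu.1).ne')
  have h2 : (f s - M * (t - s)) * Real.log (t / s) ≤ ∫ u in s..t, f u / u := by
    have h3 : ∫ u in s..t, (f s - M * (t - s)) * (1 / u) =
        (f s - M * (t - s)) * Real.log (t / s) := by
      rw [intervalIntegral.integral_const_mul, integral_one_div_of_pos hs ht]
    rw [← h3]
    refine intervalIntegral.integral_mono_on hst hint2 hint fun u hu => ?_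
    have hu0 : 0 < u := by linarith [hu.1]
    rw [mul_one_div]
    refine div_le_div_of_nonneg_right ?_ hu0.le
    have h4 := hfL s hsm u hu
    have h6 := le_abs_self (f s - f u)
    have h7 : |s - u| ≤ t - s := by
      rw [abs_sub_comm, abs_of_nonneg (by linarith [hu.1])]
      linarith [hu.2]
    have h8 := mul_le_mul_of_nonneg_left h7 hM.le
    linarith
  have hE0 : 0 ≤ C / (s * Real.log N) := by positivity
  have hA : 0 ≤ f s + M * (t - s) := by
    have := mul_nonneg hM.le hts0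
    linarith [hfs.1]
  have hA2 : f s + M * (t - s) ≤ 2 * M := by
    have : M * (t - s) ≤ M * 1 := mul_le_mul_of_nonneg_left hts hM.le
    linarith [hfs.2]
  have h3 := mul_le_mul_of_nonneg_left hC hA
  have h4 : (f s + M * (t - s)) * (C / (s * Real.log N)) ≤ 2 * M * (C / (s * Real.log N)) :=
    mul_le_mul_of_nonneg_right hA2 hE0
  have h5 : 2 * M * (t - s) * Real.log (t / s) ≤ 2 * M * (t - s) ^ 2 / s := by
    have h6 : 2 * M * (t - s) ^ 2 / s = 2 * M * (t - s) * ((t - s) / s) := by ring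
    rw [h6]
    exact mul_le_mul_of_nonneg_left hlog (by positivity)
  have h6 : (f s + M * (t - s)) * (Real.log (t / s) + C / (s * Real.log N)) =
      (f s - M * (t - s)) * Real.log (t / s) + 2 * M * (t - s) * Real.log (t / s) +
        (f s + M * (t - s)) * (C / (s * Real.log N)) := by ring
  rw [h6] at h3
  linarith

theorem mert_r (a0 M ε : ℝ) (ha0 : 0 < a0) (hM : 0 < M) (hε : 0 < ε) : ∃ N0 : ℕ, ∀ N : ℕ, N0 ≤ N →
    ∀ (a b : ℝ) (f : ℝ → ℝ), a0 ≤ a → a ≤ b → b ≤ 1 → (∀ u ∈ Set.Icc a b, 0 ≤ f u ∧ f u ≤ M) →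
      (∀ u ∈ Set.Icc a b, ∀ v ∈ Set.Icc a b, |f u - f v| ≤ M * |u - v|) →
      ∑ p ∈ (Icc 1 N).filter (fun p : ℕ => p.Prime ∧ (N : ℝ) ^ a < p ∧ (p : ℝ) ≤ (N : ℝ) ^ b),
        f (Real.log p / Real.log N) / p ≤ (∫ u in a..b, f u / u) + ε := by
  obtain ⟨C, hC0, hC⟩ := MertR_win
  obtain ⟨n, hn⟩ := exists_nat_gt (4 * M / (a0 * ε))
  have hn0 : (0 : ℝ) < n := lt_trans (by positivity) hn
  have hnpos : 0 < n := by exact_mod_cast hn0
  obtain ⟨N1, hN1⟩ := exists_nat_gt (Real.exp (2 / a0 + 4 * M * n * C / (a0 * ε)))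
  refine ⟨max N1 2, fun N hN a b f ha hab hb hf hfL => ?_⟩
  have hN2 : 2 ≤ N := le_trans (le_max_right _ _) hN
  have hNN1 : (N1 : ℝ) ≤ N := by exact_mod_cast le_trans (le_max_left _ _) hN
  have hNp : (0 : ℝ) < N := by exact_mod_cast (by omega : 0 < N)
  set L := Real.log N with hL
  have hLbig : 2 / a0 + 4 * M * n * C / (a0 * ε) ≤ L := by
    rw [hL, Real.le_log_iff_exp_le hNp]
    linarith
  have hq1 : 0 < 2 / a0 := by positivity
  have hq2 : 0 < 4 * M * n * C / (a0 * ε) := by positivity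
  have hLp : 0 < L := by linarith
  have hL1 : 2 ≤ a0 * L := by
    have h1 : 2 / a0 ≤ L := by linarith
    rw [div_le_iff₀ ha0] at h1
    linarith
  have hL2 : n * (2 * M * (C / (a0 * L))) ≤ ε / 2 := by
    have h1 : 4 * M * n * C / (a0 * ε) ≤ L := by linarith
    rw [div_le_iff₀ (by positivity)] at h1
    have h2 : n * (2 * M * (C / (a0 * L))) = (2 * M * n * C) / (a0 * L) := by ring
    rw [h2, div_le_iff₀ (by positivity)]
    linarith
  set h : ℝ := (b - a) / n with hh
  have hba0 : 0 ≤ b - a := by linarith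
  have hba1 : b - a ≤ 1 := by linarith
  have hh0 : 0 ≤ h := by positivity
  have hnh : n * h = b - a := by
    rw [hh]
    field_simp
  have hhn : h ≤ 1 / n := div_le_div_of_nonneg_right hba1 hn0.le
  have hh1 : h ≤ 1 := by
    refine hhn.trans ?_
    rw [div_le_one hn0]
    exact_mod_cast hnpos
  set E : ℝ := 2 * M * h ^ 2 / a0 + 2 * M * (C / (a0 * L)) with hE
  have hfi : ∀ s t : ℝ, a ≤ s → s ≤ t → t ≤ b → IntervalIntegrable (fun u => f u / u) volume s t := by
    intro s t has hst htb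
    apply ContinuousOn.intervalIntegrable
    rw [Set.uIcc_of_le hst]
    have hlip : LipschitzOnWith ⟨M, hM.le⟩ f (Set.Icc a b) := by
      apply LipschitzOnWith.of_dist_le_mul
      intro x hx y hy
      rw [Real.dist_eq, Real.dist_eq]
      exact hfL x hx y hy
    exact (hlip.continuousOn.mono (Set.Icc_subset_Icc has htb)).div continuousOn_id fun u hu =>
      (lt_of_lt_of_le (by linarith : 0 < s) hu.1).ne'
  have key : ∀ k : ℕ, k ≤ n →
      ∑ p ∈ MertR_P N a (a + k * h), f (Real.log p / L) / p ≤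
        (∫ u in a..(a + k * h), f u / u) + k * E := by
    intro k
    induction k with
    | zero =>
      intro _
      have h1 : MertR_P N a (a + ((0 : ℕ) : ℝ) * h) = ∅ := by
        apply filter_false_of_mem
        rintro p _ ⟨_, h2, h3⟩
        rw [Nat.cast_zero, zero_mul, add_zero] at h3
        linarith
      rw [h1, sum_empty, Nat.cast_zero, zero_mul, zero_mul, add_zero, add_zero,
        intervalIntegral.integral_same]
    | succ k ih =>
      intro hk
      have hk1 := ih (by omega)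
      set s : ℝ := a + k * h with hs
      set t : ℝ := a + ((k + 1 : ℕ) : ℝ) * h with ht
      have hts : t - s = h := by
        rw [ht, hs]
        push_cast
        ring
      have hkh : 0 ≤ (k : ℝ) * h := by positivity
      have hs0 : a ≤ s := by
        rw [hs]
        linarith
      have hst : s ≤ t := by linarith
      have htb : t ≤ b := by
        have h1 : ((k + 1 : ℕ) : ℝ) * h ≤ n * h :=
          mul_le_mul_of_nonneg_right (by exact_mod_cast hk) hh0
        rw [ht]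
        linarith
      have hsp : 0 < s := by linarith
      have hsL : a0 * L ≤ s * L := mul_le_mul_of_nonneg_right (by linarith) hLp.le
      have hwin := hC N s t hsp hst hN2 (by rw [← hL]; linarith)
      have hpc := MertR_piece N s t M f hM hsp hst (by linarith) hN2 hwin hC0
        (fun u hu => hf u ⟨hs0.trans hu.1, hu.2.trans htb⟩)
        (fun u hu v hv => hfL u ⟨hs0.trans hu.1, hu.2.trans htb⟩ v ⟨hs0.trans hv.1, hv.2.trans htb⟩)
      rw [← hL, hts] at hpc
      have hE1 : 2 * M * h ^ 2 / s + 2 * M * (C / (s * L)) ≤ E := by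
        have h1 : 2 * M * h ^ 2 / s ≤ 2 * M * h ^ 2 / a0 :=
          div_le_div_of_nonneg_left (by positivity) ha0 (by linarith)
        have h2 : C / (s * L) ≤ C / (a0 * L) :=
          div_le_div_of_nonneg_left hC0.le (by positivity) hsL
        have h3 : 2 * M * (C / (s * L)) ≤ 2 * M * (C / (a0 * L)) :=
          mul_le_mul_of_nonneg_left h2 (by positivity)
        linarith
      have hunion : ∑ p ∈ MertR_P N a t, f (Real.log p / L) / p ≤
          ∑ p ∈ MertR_P N a s, f (Real.log p / L) / p + ∑ p ∈ MertR_P N s t, f (Real.log p / L) / p := by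
        have hdisj : Disjoint (MertR_P N a s) (MertR_P N s t) := by
          rw [disjoint_left]
          intro p h1 h2
          unfold MertR_P at h1 h2
          rw [mem_filter] at h1 h2
          linarith [h1.2.2.2, h2.2.2.1]
        rw [← sum_union hdisj]
        have hsub : MertR_P N a t ⊆ MertR_P N a s ∪ MertR_P N s t := by
          intro p hp
          unfold MertR_P at hp ⊢
          rw [mem_union, mem_filter, mem_filter]
          rw [mem_filter] at hp
          by_cases h1 : (p : ℝ) ≤ (N : ℝ) ^ s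
          · left
            exact ⟨hp.1, hp.2.1, hp.2.2.1, h1⟩
          · right
            exact ⟨hp.1, hp.2.1, not_le.1 h1, hp.2.2.2⟩
        refine sum_le_sum_of_subset_of_nonneg hsub fun p hp _ => ?_
        have hp2 : p.Prime ∧ (N : ℝ) ^ a < p ∧ (p : ℝ) ≤ (N : ℝ) ^ b := by
          have hN1' : (1 : ℝ) ≤ N := by exact_mod_cast (by omega : 1 ≤ N)
          unfold MertR_P at hp
          rw [mem_union, mem_filter, mem_filter] at hp
          rcases hp with h1 | h1
          · exact ⟨h1.2.1, h1.2.2.1, h1.2.2.2.trans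
              (Real.rpow_le_rpow_of_exponent_le hN1' (hst.trans htb))⟩
          · exact ⟨h1.2.1, lt_of_le_of_lt (Real.rpow_le_rpow_of_exponent_le hN1' hs0) h1.2.2.1,
              h1.2.2.2.trans (Real.rpow_le_rpow_of_exponent_le hN1' htb)⟩
        have hp0 : (0 : ℝ) < p := by exact_mod_cast hp2.1.pos
        have hu : Real.log p / L ∈ Set.Icc a b := by
          constructor
          · rw [le_div_iff₀ hLp, hL, ← Real.log_rpow hNp]
            exact Real.log_le_log (by positivity) hp2.2.1.le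
          · rw [div_le_iff₀ hLp, hL, ← Real.log_rpow hNp]
            exact Real.log_le_log hp0 hp2.2.2
        exact div_nonneg (hf _ hu).1 hp0.le
      have hadd : (∫ u in a..s, f u / u) + (∫ u in s..t, f u / u) = ∫ u in a..t, f u / u :=
        intervalIntegral.integral_add_adjacent_intervals (hfi a s le_rfl hs0 (hst.trans htb))
          (hfi s t hs0 hst htb)
      rw [← hadd]
      push_cast
      linarith
  have hfin := key n le_rfl
  have hb' : a + (n : ℝ) * h = b := by
    rw [hnh]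
    ring
  rw [hb'] at hfin
  have hE2 : n * E ≤ ε := by
    have h1 : n * (2 * M * h ^ 2 / a0) ≤ ε / 2 := by
      have h2 : n * h ^ 2 ≤ 1 / n := by
        calc n * h ^ 2 = (n * h) * h := by ring
          _ ≤ 1 * h := mul_le_mul_of_nonneg_right (by linarith) hh0
          _ ≤ 1 / n := by linarith
      have h3 : n * (2 * M * h ^ 2 / a0) = 2 * M / a0 * (n * h ^ 2) := by ring
      have h4 : 2 * M / a0 * (n * h ^ 2) ≤ 2 * M / a0 * (1 / n) :=
        mul_le_mul_of_nonneg_left h2 (by positivity)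
      have h5 : 2 * M / a0 * (1 / n) ≤ ε / 2 := by
        have h6 : 4 * M < n * (a0 * ε) := by
          rw [div_lt_iff₀ (by positivity)] at hn
          exact hn
        rw [div_mul_div_comm, div_le_iff₀ (by positivity)]
        linarith
      rw [h3]
      linarith
    have h2 : n * E = n * (2 * M * h ^ 2 / a0) + n * (2 * M * (C / (a0 * L))) := by
      rw [hE]
      ring
    rw [h2]
    linarith
  have hgoal : (Icc 1 N).filter (fun p : ℕ => p.Prime ∧ (N : ℝ) ^ a < p ∧ (p : ℝ) ≤ (N : ℝ) ^ b) =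
      MertR_P N a b := rfl
  rw [hgoal]
  linarith

end Pool.Agent.H76.TP

end

section

/-!
# TM LinM: sums over primes with linear weights

From `mert_r` (`H76/TP/MertR.lean`) with `f u = α + β u`: `∫_a^b (α + β u)/u du = α log(b/a) + β (b - a)`; `0 ≤ f ≤ 2M`, `f` is `M`-Lipschitz.
-/

set_option autoImplicit false

namespace Pool.Agent.H9.TM

open Finset MeasureTheory
open Pool.Agent.H76.TP

/-- the primes of `(N^s, N^t]` -/
noncomputable def PE (N : ℕ) (s t : ℝ) : Finset ℕ :=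
  (Icc 1 N).filter (fun p : ℕ => p.Prime ∧ (N : ℝ) ^ s < p ∧ (p : ℝ) ≤ (N : ℝ) ^ t)

theorem lin_m (a0 M ε : ℝ) (ha0 : 0 < a0) (hM : 0 < M) (hε : 0 < ε) : ∃ N0 : ℕ, ∀ N : ℕ, N0 ≤ N →
    ∀ a b α β : ℝ, a0 ≤ a → a ≤ b → b ≤ 1 → |α| ≤ M → |β| ≤ M → (∀ u ∈ Set.Icc a b, 0 ≤ α + β * u) →
      ∑ p ∈ PE N a b, (α + β * (Real.log p / Real.log N)) / p ≤ α * Real.log (b / a) + β * (b - a) + ε := by
  obtain ⟨N0, hN0⟩ := mert_r a0 (2 * M) ε ha0 (by linarith) hε
  refine ⟨N0, fun N hN a b α β ha hab hb hα hβ hpos => ?_⟩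
  have ha1 : 0 < a := lt_of_lt_of_le ha0 ha
  have h := hN0 N hN a b (fun u => α + β * u) ha hab hb (fun u hu => ⟨hpos u hu, ?_⟩) (fun u hu v hv => ?_)
  · refine h.trans (le_of_eq ?_)
    have h1 : ∫ u in a..b, (α + β * u) / u = ∫ u in a..b, (α * (1 / u) + β) := by
      refine intervalIntegral.integral_congr fun u hu => ?_
      rw [Set.uIcc_of_le hab] at hu
      have hu0 : u ≠ 0 := by
        have := hu.1
        intro h0
        linarith
      show (α + β * u) / u = α * (1 / u) + β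
      field_simp
    rw [h1]
    have h0 : ∀ u ∈ Set.uIcc a b, u ≠ 0 := by
      intro u hu
      rw [Set.uIcc_of_le hab] at hu
      have := hu.1
      intro h0
      linarith
    have hint : IntervalIntegrable (fun u : ℝ => α * (1 / u)) volume a b :=
      (intervalIntegral.intervalIntegrable_one_div h0 continuousOn_id).const_mul α
    rw [intervalIntegral.integral_add hint (by simp), intervalIntegral.integral_const_mul, intervalIntegral.integral_const,
      integral_one_div_of_pos ha1 (by linarith), smul_eq_mul]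
    ring
  · have h1 := abs_le.1 hα
    have h2 := abs_le.1 hβ
    have hu0 : 0 ≤ u := by linarith [hu.1]
    have hu1 : u ≤ 1 := by linarith [hu.2]
    have : β * u ≤ M * 1 := mul_le_mul h2.2 hu1 hu0 hM.le
    show α + β * u ≤ 2 * M
    linarith
  · show |(α + β * u) - (α + β * v)| ≤ 2 * M * |u - v|
    have : (α + β * u) - (α + β * v) = β * (u - v) := by ring
    rw [this, abs_mul]
    exact mul_le_mul_of_nonneg_right (by linarith) (abs_nonneg _)

end Pool.Agent.H9.TM

end

section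

/-!
Selberg's weights, indexed by finite sets.

PROOF PLAN.  `h p = g p/(1 - g p)`, `G = ∑_{B ∈ F} h(B)`, `F = {B ⊆ P : ∏_B p <= R}` (closed under subsets, `∅ ∈ F`,
`G >= 1`), `h(B) = ∏_{p ∈ B} h p`.  `ρ A = (-1)^|A|/(g(A) G) ∑_{B ∈ F, A ⊆ B} h(B)`.
(1) `ρ ∅ = 1`; `ρ A = 0` if `∏_A p > R`.
(2) `|ρ A| <= 1`: `B = A ∪ B'` with `B'` disjoint from `A`, `h(A)/g(A) = ∏_A 1/(1 - g p) = ∏_A (1 + h p)
= ∑_{C ⊆ A} h(C)`, and `C ∪ B' ∈ F`, the map `(C, B') ↦ C ∪ B'` is injective: so
`(h(A)/g(A)) ∑_{B'} h(B') <= G`.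
(3) `g(A ∪ B) = g(A) g(B)/g(A ∩ B)` and `1/g(D) = ∏_D (1 + 1/h p) = ∑_{E ⊆ D} 1/h(E)`; so the quadratic
form is `∑_E (1/h(E)) (∑_{A ⊇ E} g(A) ρ A)^2`, and `∑_{A ⊇ E} g(A) ρ A = (1/G) ∑_{B ∈ F, B ⊇ E} h(B)
∑_{E ⊆ A ⊆ B} (-1)^|A| = (-1)^|E| h(E)/G` for `E ∈ F` and `0` otherwise.  So it is
`∑_{E ∈ F} h(E)/G^2 = 1/G`.  (Compare `Pool.Agent.H91.PT.Sel` for the case `g p = 1/p`.)
-/

namespace Pool.Agent.H87T

open Finset

private theorem SelW_interval {E B : Finset ℕ} :
    ∑ A ∈ B.powerset, (if E ⊆ A then (-1 : ℝ) ^ A.card else 0) =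
      if B = E then (-1 : ℝ) ^ E.card else 0 := by
  classical
  rw [← sum_filter]
  by_cases hEB : E ⊆ B
  · have h1 : B.powerset.filter (fun A => E ⊆ A) = (B \ E).powerset.image (fun C => E ∪ C) := by
      ext A
      rw [mem_filter, mem_powerset, mem_image]
      constructor
      · rintro ⟨h1, h2⟩
        refine ⟨A \ E, ?_, ?_⟩
        · rw [mem_powerset]
          exact sdiff_subset_sdiff h1 le_rfl
        · exact union_sdiff_of_subset h2
      · rintro ⟨C, hC, rfl⟩
        rw [mem_powerset] at hC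
        exact ⟨union_subset hEB (hC.trans sdiff_subset), subset_union_left⟩
    rw [h1, sum_image]
    · have h2 : ∀ C ∈ (B \ E).powerset, (-1 : ℝ) ^ (E ∪ C).card = (-1) ^ E.card * (-1) ^ C.card := by
        intro C hC
        rw [mem_powerset] at hC
        rw [card_union_of_disjoint, pow_add]
        exact (disjoint_sdiff).mono_right hC
      rw [sum_congr rfl h2, ← mul_sum]
      have h3 : ∑ C ∈ (B \ E).powerset, (-1 : ℝ) ^ C.card = if B \ E = ∅ then 1 else 0 := by
        have h4 := sum_powerset_neg_one_pow_card (x := B \ E)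
        have h5 := congrArg (fun z : ℤ => (z : ℝ)) h4
        push_cast at h5
        exact h5
      rw [h3]
      by_cases hBE : B = E
      · rw [if_pos hBE, if_pos (by rw [hBE, Finset.sdiff_self]), mul_one]
      · rw [if_neg hBE, if_neg, mul_zero]
        intro h4
        exact hBE (le_antisymm (sdiff_eq_empty_iff_subset.mp h4) hEB)
    · intro C hC D hD hCD
      rw [mem_coe, mem_powerset] at hC hD
      have hC' : Disjoint E C := disjoint_sdiff.mono_right hC
      have hD' : Disjoint E D := disjoint_sdiff.mono_right hD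
      have h2 := congrArg (fun z => z \ E) hCD
      simp only [union_sdiff_left] at h2
      rwa [sdiff_eq_self_of_disjoint hC'.symm, sdiff_eq_self_of_disjoint hD'.symm] at h2
  · rw [if_neg (fun h => hEB (by rw [h]))]
    refine sum_eq_zero fun A hA => ?_
    rw [mem_filter, mem_powerset] at hA
    exact absurd (hA.2.trans hA.1) hEB

theorem sel_weights (P : Finset ℕ) (hP : ∀ p ∈ P, 1 ≤ p) (g : ℕ → ℝ)
    (hg : ∀ p ∈ P, 0 < g p ∧ g p < 1) (R : ℕ) (hR : 1 ≤ R) :
    ∃ ρ : Finset ℕ → ℝ, ρ ∅ = 1 ∧ (∀ A ⊆ P, |ρ A| ≤ 1) ∧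
      (∀ A ⊆ P, R < ∏ p ∈ A, p → ρ A = 0) ∧
      (∑ A ∈ P.powerset, ∑ B ∈ P.powerset, ρ A * ρ B * ∏ p ∈ A ∪ B, g p) *
        (∑ A ∈ P.powerset.filter (fun A => ∏ p ∈ A, p ≤ R), ∏ p ∈ A, (g p / (1 - g p))) = 1 := by
  classical
  set h : ℕ → ℝ := fun p => g p / (1 - g p) with hh
  have hpos : ∀ p ∈ P, 0 < h p := fun p hp => div_pos (hg p hp).1 (by linarith [(hg p hp).2])
  set H : Finset ℕ → ℝ := fun B => ∏ p ∈ B, h p with hH
  have Hpos : ∀ B ⊆ P, 0 < H B := fun B hB => prod_pos fun p hp => hpos p (hB hp)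
  set q : Finset ℕ → ℝ := fun B => ∏ p ∈ B, g p with hq
  have qpos : ∀ B ⊆ P, 0 < q B := fun B hB => prod_pos fun p hp => (hg p (hB hp)).1
  set F : Finset (Finset ℕ) := P.powerset.filter (fun A => ∏ p ∈ A, p ≤ R) with hF
  have hFP : ∀ B ∈ F, B ⊆ P := fun B hB => mem_powerset.mp (mem_filter.mp hB).1
  have hmono : ∀ A B : Finset ℕ, A ⊆ B → B ⊆ P → ∏ p ∈ A, p ≤ ∏ p ∈ B, p := by
    intro A B hAB hBP
    refine prod_le_prod_of_subset_of_one_le' hAB fun p hp _ => hP p (hBP hp)
  have hdown : ∀ A B : Finset ℕ, A ⊆ B → B ∈ F → A ∈ F := by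
    intro A B hAB hB
    have hBP := hFP B hB
    rw [hF, mem_filter, mem_powerset] at hB ⊢
    exact ⟨hAB.trans hBP, (hmono A B hAB hBP).trans hB.2⟩
  have hemp : ∅ ∈ F := by
    rw [hF, mem_filter, mem_powerset]
    exact ⟨empty_subset _, by simpa using hR⟩
  set G : ℝ := ∑ B ∈ F, H B with hG
  have hG1 : 1 ≤ G := by
    calc (1 : ℝ) = H ∅ := by rw [hH]; simp
      _ ≤ G := single_le_sum (f := H) (fun B hB => (Hpos B (hFP B hB)).le) hemp
  have hG0 : 0 < G := by linarith
  set T : Finset ℕ → ℝ := fun A => ∑ B ∈ F, if A ⊆ B then H B else 0 with hT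
  have hT0 : ∀ A, 0 ≤ T A := by
    intro A
    refine sum_nonneg fun B hB => ?_
    split_ifs
    · exact (Hpos B (hFP B hB)).le
    · exact le_rfl
  -- expansions
  have e1 : ∀ D ⊆ P, (q D)⁻¹ = ∑ E ∈ D.powerset, (H E)⁻¹ := by
    intro D hD
    have h1 : (q D)⁻¹ = ∏ p ∈ D, (1 + (h p)⁻¹) := by
      rw [hq]
      simp only
      rw [← prod_inv_distrib]
      refine prod_congr rfl fun p hp => ?_
      obtain ⟨h2, h3⟩ := hg p (hD hp)
      rw [hh]
      simp only
      have h4 : 1 - g p ≠ 0 := by linarith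
      field_simp
      ring
    rw [h1, prod_one_add]
    refine sum_congr rfl fun E _ => ?_
    rw [prod_inv_distrib]
  have e2 : ∀ A ⊆ P, H A / q A = ∑ C ∈ A.powerset, H C := by
    intro A hA
    have h1 : H A / q A = ∏ p ∈ A, (1 + h p) := by
      rw [hH, hq]
      simp only
      rw [← prod_div_distrib]
      refine prod_congr rfl fun p hp => ?_
      obtain ⟨h2, h3⟩ := hg p (hA hp)
      rw [hh]
      simp only
      have h4 : 1 - g p ≠ 0 := by linarith
      field_simp
      ring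
    rw [h1, prod_one_add]
  set ρ : Finset ℕ → ℝ := fun A => (-1) ^ A.card / (q A * G) * T A with hρ
  refine ⟨ρ, ?_, ?_, ?_, ?_⟩
  · -- `ρ ∅ = 1`
    have h1 : T ∅ = G := by
      rw [hT, hG]
      exact sum_congr rfl fun B _ => if_pos (empty_subset B)
    have h2 : q ∅ = 1 := by rw [hq]; simp
    show (-1 : ℝ) ^ (∅ : Finset ℕ).card / (q ∅ * G) * T ∅ = 1
    rw [h1, h2, card_empty, pow_zero, one_mul]
    field_simp
  · -- `|ρ A| ≤ 1`
    intro A hA
    have hqA := qpos A hA
    have key : T A / q A ≤ G := by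
      -- pairs `(B, C)` with `A ⊆ B ∈ F`, `C ⊆ A`
      have h1 : T A / q A = ∑ x ∈ (F.filter (fun B => A ⊆ B)) ×ˢ A.powerset, H (x.2 ∪ (x.1 \ A)) := by
        rw [sum_product, hT]
        simp only
        rw [← sum_filter, sum_div]
        refine sum_congr rfl fun B hB => ?_
        rw [mem_filter] at hB
        have h2 : H B = H A * H (B \ A) := by
          rw [hH]
          simp only
          rw [mul_comm]
          exact (prod_sdiff hB.2).symm
        rw [h2, mul_div_right_comm, e2 A hA, sum_mul]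
        refine sum_congr rfl fun C hC => ?_
        rw [mem_powerset] at hC
        rw [hH]
        simp only
        rw [prod_union]
        exact disjoint_sdiff.mono_left hC
      rw [h1, hG]
      have hinj : Set.InjOn (fun x : Finset ℕ × Finset ℕ => x.2 ∪ (x.1 \ A))
          ((F.filter (fun B => A ⊆ B)) ×ˢ A.powerset : Finset _) := by
        rintro ⟨B, C⟩ hx ⟨B', C'⟩ hx' heq
        rw [mem_coe, mem_product, mem_filter, mem_powerset] at hx hx'
        simp only at hx hx' heq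
        have h9 : ∀ a, (a ∈ C ∨ a ∈ B ∧ a ∉ A) ↔ (a ∈ C' ∨ a ∈ B' ∧ a ∉ A) := by
          intro a
          have := Finset.ext_iff.mp heq a
          rwa [mem_union, mem_union, mem_sdiff, mem_sdiff] at this
        have t1 : C = C' := by
          ext a
          constructor
          · intro ha
            rcases (h9 a).mp (Or.inl ha) with h | h
            · exact h
            · exact absurd (hx.2 ha) h.2
          · intro ha
            rcases (h9 a).mpr (Or.inl ha) with h | h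
            · exact h
            · exact absurd (hx'.2 ha) h.2
        have t3 : B = B' := by
          ext a
          by_cases haA : a ∈ A
          · exact ⟨fun _ => hx'.1.2 haA, fun _ => hx.1.2 haA⟩
          · constructor
            · intro ha
              rcases (h9 a).mp (Or.inr ⟨ha, haA⟩) with h | h
              · exact absurd (hx'.2 h) haA
              · exact h.1
            · intro ha
              rcases (h9 a).mpr (Or.inr ⟨ha, haA⟩) with h | h
              · exact absurd (hx.2 h) haA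
              · exact h.1
        rw [t1, t3]
      rw [← sum_image (f := H) hinj]
      refine sum_le_sum_of_subset_of_nonneg ?_ fun B hB _ => (Hpos B (hFP B hB)).le
      intro D hD
      rw [mem_image] at hD
      obtain ⟨⟨B, C⟩, hx, rfl⟩ := hD
      rw [mem_product, mem_filter, mem_powerset] at hx
      exact hdown _ B (union_subset (hx.2.trans hx.1.2) sdiff_subset) hx.1.1
    have h5 : |ρ A| = T A / q A / G := by
      rw [hρ]
      simp only
      rw [abs_mul, abs_div, abs_pow, abs_neg, abs_one, one_pow, abs_of_pos (mul_pos hqA hG0),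
        abs_of_nonneg (hT0 A)]
      field_simp
    rw [h5, div_le_one hG0]
    exact key
  · -- support
    intro A hA hR'
    have h1 : T A = 0 := by
      rw [hT]
      refine sum_eq_zero fun B hB => ?_
      rw [if_neg]
      intro hAB
      have h2 := hmono A B hAB (hFP B hB)
      have h3 := (mem_filter.mp hB).2
      omega
    rw [hρ]
    simp only
    rw [h1, mul_zero]
  · -- the quadratic form
    set u : Finset ℕ → Finset ℕ → ℝ := fun A E => if E ⊆ A then ρ A * q A else 0 with hu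
    have h1 : ∀ A ∈ P.powerset, ∀ B ∈ P.powerset, ρ A * ρ B * ∏ p ∈ A ∪ B, g p =
        ∑ E ∈ P.powerset, u A E * u B E * (H E)⁻¹ := by
      intro A hA B hB
      rw [mem_powerset] at hA hB
      have hAB : A ∩ B ⊆ P := inter_subset_left.trans hA
      have h2 : (∏ p ∈ A ∪ B, g p) = q A * q B * (q (A ∩ B))⁻¹ := by
        have h3 : (∏ p ∈ A ∪ B, g p) * q (A ∩ B) = q A * q B := prod_union_inter
        have h4 := (qpos _ hAB).ne'
        rw [← h3, mul_assoc, mul_inv_cancel₀ h4, mul_one]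
      rw [h2, e1 _ hAB]
      have h5 : ∑ E ∈ (A ∩ B).powerset, (H E)⁻¹ =
          ∑ E ∈ P.powerset, if E ⊆ A ∧ E ⊆ B then (H E)⁻¹ else 0 := by
        rw [← sum_filter]
        refine sum_congr ?_ fun _ _ => rfl
        ext E
        rw [mem_powerset, mem_filter, mem_powerset, subset_inter_iff]
        exact ⟨fun h => ⟨h.1.trans hA, h⟩, fun h => h.2⟩
      rw [h5, mul_sum, mul_sum]
      refine sum_congr rfl fun E _ => ?_
      rw [hu]
      simp only
      by_cases hEA : E ⊆ A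
      · by_cases hEB : E ⊆ B
        · rw [if_pos ⟨hEA, hEB⟩, if_pos hEA, if_pos hEB]
          ring
        · rw [if_neg (fun h => hEB h.2), if_neg hEB]
          ring
      · rw [if_neg (fun h => hEA h.1), if_neg hEA]
        ring
    have h2 : ∑ A ∈ P.powerset, ∑ B ∈ P.powerset, ρ A * ρ B * ∏ p ∈ A ∪ B, g p =
        ∑ E ∈ P.powerset, (∑ A ∈ P.powerset, u A E) ^ 2 * (H E)⁻¹ := by
      rw [sum_congr rfl fun A hA => sum_congr rfl fun B hB => h1 A hA B hB]
      rw [sum_congr rfl fun A _ => sum_comm (s := P.powerset) (t := P.powerset)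
        (f := fun B E => u A E * u B E * (H E)⁻¹)]
      rw [sum_comm]
      refine sum_congr rfl fun E _ => ?_
      rw [sq, sum_mul_sum, sum_mul]
      refine sum_congr rfl fun A _ => ?_
      rw [sum_mul]
    have h3 : ∀ E ∈ P.powerset, ∑ A ∈ P.powerset, u A E =
        if E ∈ F then (-1) ^ E.card * H E / G else 0 := by
      intro E hE
      have h4 : ∀ A ∈ P.powerset, u A E =
          ∑ B ∈ F, H B / G * (if A ⊆ B then (if E ⊆ A then (-1 : ℝ) ^ A.card else 0) else 0) := by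
        intro A hA
        rw [mem_powerset] at hA
        have hqA := (qpos A hA).ne'
        rw [hu]
        simp only
        by_cases hEA : E ⊆ A
        · rw [if_pos hEA, hρ]
          simp only
          have h5 : (-1 : ℝ) ^ A.card / (q A * G) * T A * q A = (-1) ^ A.card / G * T A := by
            field_simp
          rw [h5, hT]
          simp only
          rw [mul_sum]
          refine sum_congr rfl fun B _ => ?_
          rw [if_pos hEA]
          by_cases hAB : A ⊆ B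
          · rw [if_pos hAB, if_pos hAB]
            ring
          · rw [if_neg hAB, if_neg hAB, mul_zero, mul_zero]
        · rw [if_neg hEA]
          refine (sum_eq_zero fun B _ => ?_).symm
          rw [if_neg hEA, ite_self, mul_zero]
      rw [sum_congr rfl h4, sum_comm]
      have h6 : ∀ B ∈ F, ∑ A ∈ P.powerset,
          H B / G * (if A ⊆ B then (if E ⊆ A then (-1 : ℝ) ^ A.card else 0) else 0) =
          if B = E then (-1) ^ E.card * H E / G else 0 := by
        intro B hB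
        rw [← mul_sum, ← sum_filter]
        have h7 : P.powerset.filter (fun A => A ⊆ B) = B.powerset := by
          ext A
          rw [mem_filter, mem_powerset, mem_powerset]
          exact ⟨fun h => h.2, fun h => ⟨h.trans (hFP B hB), h⟩⟩
        rw [h7, SelW_interval]
        by_cases hBE : B = E
        · rw [if_pos hBE, if_pos hBE, hBE]
          ring
        · rw [if_neg hBE, if_neg hBE, mul_zero]
      rw [sum_congr rfl h6, sum_ite_eq']
    have h4 : ∑ E ∈ P.powerset, (∑ A ∈ P.powerset, u A E) ^ 2 * (H E)⁻¹ = 1 / G := by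
      have h5 : ∀ E ∈ P.powerset, (∑ A ∈ P.powerset, u A E) ^ 2 * (H E)⁻¹ =
          if E ∈ F then H E / G ^ 2 else 0 := by
        intro E hE
        rw [h3 E hE]
        have hE' := (Hpos E (mem_powerset.mp hE)).ne'
        by_cases hEF : E ∈ F
        · rw [if_pos hEF, if_pos hEF, div_pow, mul_pow, ← pow_mul, mul_comm E.card 2, pow_mul]
          norm_num
          field_simp
        · rw [if_neg hEF, if_neg hEF]
          ring
      rw [sum_congr rfl h5, ← sum_filter]
      have h6 : P.powerset.filter (fun E => E ∈ F) = F := by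
        ext E
        rw [mem_filter, mem_powerset]
        exact ⟨fun h => h.2, fun h => ⟨hFP E h, h⟩⟩
      rw [h6, ← sum_div, ← hG]
      field_simp
    rw [h2, h4]
    show 1 / G * G = 1
    field_simp

end Pool.Agent.H87T

end

section

/-!
# IS MtB: an Abelian theorem with kernel exp(-v)

Let a : ℕ → ℝ, a n ≥ 0, a 0 = a 1 = 0, S n = ∑_{k ≤ n} a k, S n - loglog n → c.  Then for σ → 0+:
 ∑_n a n n^{-σ} is summable and  ∑_n a n n^{-σ} + log σ → c - γ.
Proof: n^{-σ} = ∫_n^∞ σ t^{-σ-1} dt, so ∑ a n n^{-σ} = ∫_1^∞ S(⌊t⌋) σ t^{-σ-1} dt = ∫_0^∞ S(⌊e^{v/σ}⌋) e^{-v} dv (t = e^{v/σ}).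
 S(⌊e^{v/σ}⌋) + log σ = log v + c + o(1) for fixed v > 0 (log⌊e^{v/σ}⌋ = v/σ + o(1), log(v/σ) = log v - log σ).
 Domination on v ∈ (0,∞): for ⌊t⌋ ≥ 2, 0 ≤ S ≤ K + |loglog|..., more precisely |S(⌊t⌋) - log(max(log t, 1))| ≤ K for all t ≥ 1 (S = 0 for t < 2),
 and |log(max(v/σ,1)) + log σ| = |log max(v, σ)| ≤ |log v| + log(1+v) for 0 < σ < 1; (K + |log v| + log(1+v)) e^{-v} is integrable.
 Dominated convergence: limit = ∫_0^∞ (log v + c) e^{-v} dv = c - γ, since ∫_0^∞ log v e^{-v} dv = Γ'(1) = -γ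
 (Mathlib: `Real.eulerMascheroniConstant_eq_neg_deriv`, `Complex.hasDerivAt_GammaIntegral`).
-/

set_option autoImplicit false

namespace Pool.Agent.H36.IS

open Finset Filter

theorem int_log_exp : ∫ v in Set.Ioi (0 : ℝ), Real.log v * Real.exp (-v) = -Real.eulerMascheroniConstant := by
  have h1 : HasDerivAt Complex.GammaIntegral
      (∫ t : ℝ in Set.Ioi 0, (t : ℂ) ^ ((1 : ℂ) - 1) * (Real.log t * Real.exp (-t))) 1 :=
    Complex.hasDerivAt_GammaIntegral (by simp)
  have h2 : HasDerivAt Complex.GammaIntegral (-(Real.eulerMascheroniConstant : ℂ)) 1 := by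
    refine Complex.hasDerivAt_Gamma_one.congr_of_eventuallyEq ?_
    have hop : {s : ℂ | 0 < s.re} ∈ nhds (1 : ℂ) :=
      (isOpen_lt continuous_const Complex.continuous_re).mem_nhds (by simp)
    filter_upwards [hop] with s hs
    exact (Complex.Gamma_eq_integral hs).symm
  have h3 := h1.unique h2
  have h4 : (∫ t : ℝ in Set.Ioi 0, (t : ℂ) ^ ((1 : ℂ) - 1) * (Real.log t * Real.exp (-t)))
      = ((∫ v in Set.Ioi (0 : ℝ), Real.log v * Real.exp (-v) : ℝ) : ℂ) := by
    rw [← integral_complex_ofReal]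
    refine MeasureTheory.integral_congr_ae (Filter.Eventually.of_forall fun t => ?_)
    simp
  rw [h4] at h3
  exact_mod_cast h3

/-- the counting function in the logarithmic variable -/
private noncomputable def MtB_A (a : ℕ → ℝ) (x : ℝ) : ℝ :=
  ∑ k ∈ range (⌊Real.exp x⌋₊ + 1), a k

private theorem MtB_A_meas (a : ℕ → ℝ) : Measurable (MtB_A a) :=
  (measurable_from_nat (f := fun n => ∑ k ∈ range (n + 1), a k)).comp
    (Nat.measurable_floor.comp Real.measurable_exp)

private theorem MtB_A_nonneg {a : ℕ → ℝ} (ha : ∀ n, 0 ≤ a n) (x : ℝ) : 0 ≤ MtB_A a x :=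
  Finset.sum_nonneg fun k _ => ha k

/-- comparison of the logarithm of the floor -/
private theorem MtB_floor {x : ℝ} (hx : 1 ≤ x) :
    3 / 10 * x ≤ Real.log ⌊Real.exp x⌋₊ ∧ Real.log ⌊Real.exp x⌋₊ ≤ x := by
  have he : 2 ≤ Real.exp x := by
    have := Real.add_one_le_exp x
    linarith
  have h1 : Real.exp x - 1 < ⌊Real.exp x⌋₊ := by
    have := Nat.lt_floor_add_one (Real.exp x)
    linarith
  have h2 : (⌊Real.exp x⌋₊ : ℝ) ≤ Real.exp x := Nat.floor_le (Real.exp_pos x).le
  have h3 : Real.exp x / 2 ≤ ⌊Real.exp x⌋₊ := by linarith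
  have h0 : (0 : ℝ) < ⌊Real.exp x⌋₊ := by linarith
  constructor
  · have h4 : Real.log (Real.exp x / 2) ≤ Real.log ⌊Real.exp x⌋₊ :=
      Real.log_le_log (by positivity) h3
    rw [Real.log_div (Real.exp_pos x).ne' (by norm_num), Real.log_exp] at h4
    have h5 := Real.log_two_lt_d9
    linarith
  · have := Real.log_le_log h0 h2
    rwa [Real.log_exp] at this

private theorem MtB_bdd {a : ℕ → ℝ} (ha : ∀ n, 0 ≤ a n) {c : ℝ}
    (hS : Tendsto (fun n : ℕ => ∑ k ∈ range (n + 1), a k - Real.log (Real.log n)) atTop (nhds c)) :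
    ∃ K, 0 ≤ K ∧ ∀ x, 0 < x → |MtB_A a x - Real.log (max x 1)| ≤ K := by
  obtain ⟨K0, hK0⟩ : ∃ K0, ∀ n : ℕ,
      |∑ k ∈ range (n + 1), a k - Real.log (Real.log n)| ≤ K0 := by
    obtain ⟨C, hC⟩ := (Metric.isBounded_range_of_tendsto _ hS).exists_norm_le
    exact ⟨C, fun n => hC _ ⟨n, rfl⟩⟩
  have hK00 : 0 ≤ K0 := (abs_nonneg _).trans (hK0 0)
  have hS2 : 0 ≤ ∑ k ∈ range 3, a k := Finset.sum_nonneg fun k _ => ha k
  refine ⟨K0 + 2 + ∑ k ∈ range 3, a k, by positivity, fun x hx => ?_⟩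
  rcases le_total 1 x with h | h
  · rw [max_eq_left h]
    obtain ⟨h1, h2⟩ := MtB_floor h
    have h3 : Real.log (Real.log ⌊Real.exp x⌋₊) ≤ Real.log x :=
      Real.log_le_log (by linarith) h2
    have h4 : Real.log (3 / 10 * x) ≤ Real.log (Real.log ⌊Real.exp x⌋₊) :=
      Real.log_le_log (by linarith) h1
    rw [Real.log_mul (by norm_num) (by linarith)] at h4
    have h5 : -2 ≤ Real.log (3 / 10) := by
      have h6 : Real.log (10 / 3 : ℝ) ≤ 10 / 3 - 1 := Real.log_le_sub_one_of_pos (by norm_num)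
      have h7 : Real.log (3 / 10 : ℝ) = -Real.log (10 / 3) := by
        rw [← Real.log_inv]; norm_num
      have h8 : Real.log (10 / 3 : ℝ) ≤ 2 := by
        have h9 : (10 / 3 : ℝ) ≤ 2 * 2 := by norm_num
        have h10 := Real.log_le_log (by norm_num : (0 : ℝ) < 10 / 3) h9
        rw [Real.log_mul (by norm_num) (by norm_num)] at h10
        have := Real.log_two_lt_d9
        linarith
      linarith
    have h6 := abs_le.1 (hK0 ⌊Real.exp x⌋₊)
    have h7 : MtB_A a x = ∑ k ∈ range (⌊Real.exp x⌋₊ + 1), a k := rfl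
    rw [abs_le]
    constructor
    · rw [h7]; linarith [h6.1]
    · rw [h7]; linarith [h6.2]
  · rw [max_eq_right h, Real.log_one, sub_zero, abs_of_nonneg (MtB_A_nonneg ha x)]
    have h1 : ⌊Real.exp x⌋₊ ≤ 2 := by
      have h2 : Real.exp x ≤ Real.exp 1 := Real.exp_le_exp.2 h
      have h3 := Real.exp_one_lt_d9
      have h4 : ⌊Real.exp x⌋₊ < 3 := (Nat.floor_lt (Real.exp_pos x).le).2 (by
        push_cast; linarith)
      omega
    have h2 : MtB_A a x ≤ ∑ k ∈ range 3, a k := by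
      unfold MtB_A
      refine Finset.sum_le_sum_of_subset_of_nonneg (fun k hk => ?_) fun k _ _ => ha k
      rw [Finset.mem_range] at hk ⊢
      omega
    linarith

/-- the limit for a fixed variable -/
private theorem MtB_lim {a : ℕ → ℝ} {c : ℝ}
    (hS : Tendsto (fun n : ℕ => ∑ k ∈ range (n + 1), a k - Real.log (Real.log n)) atTop (nhds c)) :
    Tendsto (fun x : ℝ => MtB_A a x - Real.log x) atTop (nhds c) := by
  have hfl : Tendsto (fun x : ℝ => ⌊Real.exp x⌋₊) atTop atTop :=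
    tendsto_nat_floor_atTop.comp Real.tendsto_exp_atTop
  have h1 := hS.comp hfl
  -- `log n - x → 0`
  have h2 : Tendsto (fun x : ℝ => (⌊Real.exp x⌋₊ : ℝ) / Real.exp x) atTop (nhds 1) :=
    tendsto_nat_floor_div_atTop.comp Real.tendsto_exp_atTop
  have h3 : Tendsto (fun x : ℝ => Real.log ((⌊Real.exp x⌋₊ : ℝ) / Real.exp x)) atTop (nhds 0) := by
    have := (Real.continuousAt_log (one_ne_zero)).tendsto.comp h2
    rwa [Real.log_one] at this
  have h4 : Tendsto (fun x : ℝ => 1 + Real.log ((⌊Real.exp x⌋₊ : ℝ) / Real.exp x) / x) atTop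
      (nhds 1) := by
    have h5 : Tendsto (fun x : ℝ => Real.log ((⌊Real.exp x⌋₊ : ℝ) / Real.exp x) * x⁻¹) atTop
        (nhds (0 * 0)) := h3.mul tendsto_inv_atTop_zero
    have h6 := h5.const_add 1
    simpa [div_eq_mul_inv] using h6
  have h5 : Tendsto (fun x : ℝ => Real.log (1 + Real.log ((⌊Real.exp x⌋₊ : ℝ) / Real.exp x) / x))
      atTop (nhds 0) := by
    have := (Real.continuousAt_log (one_ne_zero)).tendsto.comp h4
    rwa [Real.log_one] at this
  have h6 := h1.add h5
  rw [add_zero] at h6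
  refine h6.congr' ?_
  filter_upwards [eventually_ge_atTop 1] with x hx
  obtain ⟨g1, g2⟩ := MtB_floor hx
  have hx0 : 0 < x := by linarith
  have hn0 : (0 : ℝ) < ⌊Real.exp x⌋₊ := by
    rcases Nat.eq_zero_or_pos ⌊Real.exp x⌋₊ with h0 | h0
    · rw [h0] at g1
      simp at g1
      linarith
    · exact_mod_cast h0
  have h7 : Real.log ((⌊Real.exp x⌋₊ : ℝ) / Real.exp x) = Real.log ⌊Real.exp x⌋₊ - x := by
    rw [Real.log_div hn0.ne' (Real.exp_pos x).ne', Real.log_exp]
  have h8 : 1 + Real.log ((⌊Real.exp x⌋₊ : ℝ) / Real.exp x) / x = Real.log ⌊Real.exp x⌋₊ / x := by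
    rw [h7]; field_simp; ring
  have h9 : Real.log (Real.log ⌊Real.exp x⌋₊ / x)
      = Real.log (Real.log ⌊Real.exp x⌋₊) - Real.log x :=
    Real.log_div (by linarith) hx0.ne'
  rw [h8, h9]
  simp only [Function.comp]
  unfold MtB_A
  ring

/-- integrability of the bound -/
private theorem MtB_int_abs_log :
    MeasureTheory.IntegrableOn (fun v : ℝ => |Real.log v| * Real.exp (-v)) (Set.Ioi 0) := by
  have h1 := Real.GammaIntegral_convergent (s := 1 / 2) (by norm_num)
  have h2 := Real.GammaIntegral_convergent (s := 2) (by norm_num)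
  have h3 : MeasureTheory.IntegrableOn (fun v : ℝ => 2 * (Real.exp (-v) * v ^ ((1 / 2 : ℝ) - 1))
      + Real.exp (-v) * v ^ ((2 : ℝ) - 1)) (Set.Ioi 0) := (h1.const_mul 2).add h2
  refine MeasureTheory.Integrable.mono' h3 ?_ ?_
  · exact ((Real.measurable_log.abs).mul (Real.measurable_exp.comp measurable_neg)).aestronglyMeasurable
  · filter_upwards [MeasureTheory.ae_restrict_mem measurableSet_Ioi] with v hv
    have hv0 : (0 : ℝ) < v := hv
    rw [Real.norm_eq_abs, abs_mul, abs_abs, abs_of_pos (Real.exp_pos _)]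
    have hexp := Real.exp_pos (-v)
    have e1 : v ^ ((2 : ℝ) - 1) = v := by
      rw [show (2 : ℝ) - 1 = 1 by norm_num, Real.rpow_one]
    rw [e1]
    have hp : 0 < v ^ ((1 / 2 : ℝ) - 1) := Real.rpow_pos_of_pos hv0 _
    have key : |Real.log v| ≤ 2 * v ^ ((1 / 2 : ℝ) - 1) + v := by
      rw [abs_le]
      constructor
      · have h4 : Real.log (v ^ ((1 / 2 : ℝ) - 1)) ≤ v ^ ((1 / 2 : ℝ) - 1) - 1 :=
          Real.log_le_sub_one_of_pos hp
        rw [Real.log_rpow hv0] at h4
        linarith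
      · have h5 := Real.log_le_sub_one_of_pos hv0
        linarith
    have := mul_le_mul_of_nonneg_right key hexp.le
    linarith

private theorem MtB_int_log :
    MeasureTheory.IntegrableOn (fun v : ℝ => Real.log v * Real.exp (-v)) (Set.Ioi 0) := by
  refine MeasureTheory.Integrable.mono' MtB_int_abs_log ?_ ?_
  · exact (Real.measurable_log.mul (Real.measurable_exp.comp measurable_neg)).aestronglyMeasurable
  · refine Filter.Eventually.of_forall fun v => ?_
    rw [Real.norm_eq_abs, abs_mul, abs_of_pos (Real.exp_pos _)]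

private theorem MtB_int_exp :
    MeasureTheory.IntegrableOn (fun v : ℝ => Real.exp (-v)) (Set.Ioi 0) := by
  have := Real.GammaIntegral_convergent (s := 1) (by norm_num)
  simpa using this

private theorem MtB_abs_log_max {v σ : ℝ} (hv : 0 < v) (hσ : 0 < σ) (hσ1 : σ < 1) :
    |Real.log (max (v / σ) 1) + Real.log σ| ≤ |Real.log v| := by
  rcases le_total 1 (v / σ) with h | h
  · rw [max_eq_left h, Real.log_div hv.ne' hσ.ne']
    rw [sub_add_cancel]
  · rw [max_eq_right h, Real.log_one, zero_add]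
    have h1 : v ≤ σ := by rwa [div_le_one hσ] at h
    have h2 : Real.log v ≤ Real.log σ := Real.log_le_log hv h1
    have h3 : Real.log σ < 0 := Real.log_neg hσ hσ1
    rw [abs_of_neg h3, abs_of_neg (by linarith)]
    linarith

/-- integrability of the integrand -/
private theorem MtB_intA {a : ℕ → ℝ} {K : ℝ} (hK : ∀ x, 0 < x →
    |MtB_A a x - Real.log (max x 1)| ≤ K) {σ : ℝ} (hσ : 0 < σ) :
    MeasureTheory.IntegrableOn (fun v : ℝ => MtB_A a (v / σ) * Real.exp (-v)) (Set.Ioi 0) := by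
  have h1 : MeasureTheory.IntegrableOn (fun v : ℝ => (K + |Real.log σ|) * Real.exp (-v)
      + |Real.log v| * Real.exp (-v)) (Set.Ioi 0) :=
    (MtB_int_exp.const_mul _).add MtB_int_abs_log
  refine MeasureTheory.Integrable.mono' h1 ?_ ?_
  · exact (((MtB_A_meas a).comp (measurable_id.div_const σ)).mul
      (Real.measurable_exp.comp measurable_neg)).aestronglyMeasurable
  · filter_upwards [MeasureTheory.ae_restrict_mem measurableSet_Ioi] with v hv
    have hv0 : (0 : ℝ) < v := hv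
    rw [Real.norm_eq_abs, abs_mul, abs_of_pos (Real.exp_pos _), ← add_mul]
    refine mul_le_mul_of_nonneg_right ?_ (Real.exp_pos _).le
    have h2 := hK (v / σ) (by positivity)
    have h3 : |Real.log (max (v / σ) 1)| ≤ |Real.log σ| + |Real.log v| := by
      rcases le_total 1 (v / σ) with h | h
      · rw [max_eq_left h, Real.log_div hv0.ne' hσ.ne']
        have := abs_sub (Real.log v) (Real.log σ)
        linarith
      · rw [max_eq_right h, Real.log_one, abs_zero]
        positivity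
    have h4 : |MtB_A a (v / σ)| ≤ |MtB_A a (v / σ) - Real.log (max (v / σ) 1)|
        + |Real.log (max (v / σ) 1)| := by
      have := abs_add_le (MtB_A a (v / σ) - Real.log (max (v / σ) 1)) (Real.log (max (v / σ) 1))
      rwa [sub_add_cancel] at this
    linarith

/-- the summands as functions of `v` -/
private noncomputable def MtB_F (a : ℕ → ℝ) (σ : ℝ) (n : ℕ) (v : ℝ) : ℝ :=
  a n * (Set.Ici (σ * Real.log n)).indicator (fun v => Real.exp (-v)) v

private theorem MtB_F_int {a : ℕ → ℝ} (σ : ℝ) (n : ℕ) :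
    MeasureTheory.IntegrableOn (MtB_F a σ n) (Set.Ioi 0) :=
  (MtB_int_exp.indicator measurableSet_Ici).const_mul _

private theorem MtB_F_integral {a : ℕ → ℝ} (h0 : a 0 = 0) (h1 : a 1 = 0) {σ : ℝ} (hσ : 0 < σ)
    (n : ℕ) : ∫ v in Set.Ioi (0 : ℝ), MtB_F a σ n v = a n * (n : ℝ) ^ (-σ) := by
  unfold MtB_F
  rw [MeasureTheory.integral_const_mul]
  rcases Nat.lt_or_ge n 2 with h | h
  · interval_cases n
    · rw [h0]; simp
    · rw [h1]; simp
  · congr 1
    have hn : (1 : ℝ) < n := by exact_mod_cast (by omega : 1 < n)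
    have hl : 0 < Real.log n := Real.log_pos hn
    have hs : 0 < σ * Real.log n := mul_pos hσ hl
    rw [MeasureTheory.setIntegral_indicator measurableSet_Ici]
    have hset : Set.Ioi (0 : ℝ) ∩ Set.Ici (σ * Real.log n) = Set.Ici (σ * Real.log n) :=
      Set.inter_eq_right.2 fun v hv => lt_of_lt_of_le hs hv
    rw [hset, MeasureTheory.integral_Ici_eq_integral_Ioi, integral_exp_neg_Ioi,
      Real.rpow_def_of_pos (by linarith)]
    congr 1
    ring

private theorem MtB_F_sum {a : ℕ → ℝ} (h0 : a 0 = 0) {σ : ℝ} (hσ : 0 < σ) (v : ℝ) :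
    HasSum (fun n => MtB_F a σ n v) (MtB_A a (v / σ) * Real.exp (-v)) := by
  have hE : 0 < Real.exp (v / σ) := Real.exp_pos _
  have h1 : ∀ n ∉ range (⌊Real.exp (v / σ)⌋₊ + 1), MtB_F a σ n v = 0 := by
    intro n hn
    rw [Finset.mem_range, not_lt] at hn
    have h2 : Real.exp (v / σ) < n := (Nat.floor_lt hE.le).1 (by omega)
    have h3 : v / σ < Real.log n := by
      rw [Real.lt_log_iff_exp_lt (hE.trans h2)]; exact h2
    have h4 : v < σ * Real.log n := by
      rw [div_lt_iff₀ hσ] at h3; linarith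
    unfold MtB_F
    rw [Set.indicator_of_notMem (by rw [Set.mem_Ici, not_le]; exact h4), mul_zero]
  have h2 : HasSum (fun n => MtB_F a σ n v)
      (∑ n ∈ range (⌊Real.exp (v / σ)⌋₊ + 1), MtB_F a σ n v) := hasSum_sum_of_ne_finset_zero h1
  convert h2 using 1
  unfold MtB_A
  rw [Finset.sum_mul]
  refine Finset.sum_congr rfl fun n hn => ?_
  unfold MtB_F
  rcases Nat.eq_zero_or_pos n with h3 | h3
  · rw [h3, h0]; simp
  · have h4 : n ≤ ⌊Real.exp (v / σ)⌋₊ := by
      rw [Finset.mem_range] at hn; omega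
    have h5 : (n : ℝ) ≤ Real.exp (v / σ) := (Nat.le_floor_iff hE.le).1 h4
    have h6 : Real.log n ≤ v / σ := by
      rw [Real.log_le_iff_le_exp (by exact_mod_cast h3)]; exact h5
    have h7 : σ * Real.log n ≤ v := by
      rw [le_div_iff₀ hσ] at h6; linarith
    rw [Set.indicator_of_mem (show v ∈ Set.Ici (σ * Real.log n) from h7)]

private theorem MtB_F_nonneg {a : ℕ → ℝ} (ha : ∀ n, 0 ≤ a n) (σ : ℝ) (n : ℕ) (v : ℝ) :
    0 ≤ MtB_F a σ n v :=
  mul_nonneg (ha n) (Set.indicator_nonneg (fun _ _ => (Real.exp_pos _).le) _)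

private theorem MtB_hasSum {a : ℕ → ℝ} (ha : ∀ n, 0 ≤ a n) (h0 : a 0 = 0) (h1 : a 1 = 0) {K : ℝ}
    (hK : ∀ x, 0 < x → |MtB_A a x - Real.log (max x 1)| ≤ K) {σ : ℝ} (hσ : 0 < σ) :
    HasSum (fun n : ℕ => a n * (n : ℝ) ^ (-σ))
      (∫ v in Set.Ioi (0 : ℝ), MtB_A a (v / σ) * Real.exp (-v)) := by
  have hint := MtB_intA hK hσ
  have hsum : Summable fun n : ℕ => a n * (n : ℝ) ^ (-σ) := by
    refine summable_of_sum_range_le (c := ∫ v in Set.Ioi (0 : ℝ), MtB_A a (v / σ) * Real.exp (-v))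
      (fun n => mul_nonneg (ha n) (Real.rpow_nonneg (Nat.cast_nonneg _) _)) fun N => ?_
    have e1 : ∑ i ∈ range N, a i * (i : ℝ) ^ (-σ)
        = ∫ v in Set.Ioi (0 : ℝ), ∑ i ∈ range N, MtB_F a σ i v := by
      rw [MeasureTheory.integral_finsetSum _ fun i _ => MtB_F_int σ i]
      exact Finset.sum_congr rfl fun i _ => (MtB_F_integral h0 h1 hσ i).symm
    rw [e1]
    refine MeasureTheory.setIntegral_mono_on
      (MeasureTheory.integrable_finsetSum _ fun i _ => MtB_F_int σ i) hint measurableSet_Ioi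
      fun v hv => ?_
    exact sum_le_hasSum _ (fun i _ => MtB_F_nonneg ha σ i v) (MtB_F_sum h0 hσ v)
  have h2 := MeasureTheory.hasSum_integral_of_summable_integral_norm
    (μ := MeasureTheory.volume.restrict (Set.Ioi (0 : ℝ))) (F := MtB_F a σ)
    (fun i => MtB_F_int σ i) (by
      refine hsum.congr fun n => ?_
      rw [← MtB_F_integral h0 h1 hσ n]
      refine MeasureTheory.integral_congr_ae (Filter.Eventually.of_forall fun v => ?_)
      exact (Real.norm_of_nonneg (MtB_F_nonneg ha σ n v)).symm)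
  have h3 : ∫ v in Set.Ioi (0 : ℝ), ∑' n, MtB_F a σ n v
      = ∫ v in Set.Ioi (0 : ℝ), MtB_A a (v / σ) * Real.exp (-v) :=
    MeasureTheory.setIntegral_congr_fun measurableSet_Ioi fun v _ =>
      (MtB_F_sum h0 hσ v).tsum_eq
  rw [h3] at h2
  refine h2.congr_fun ?_
  intro n
  exact (MtB_F_integral h0 h1 hσ n).symm

theorem abel_exp (a : ℕ → ℝ) (ha : ∀ n, 0 ≤ a n) (h0 : a 0 = 0) (h1 : a 1 = 0) (c : ℝ)
    (hS : Tendsto (fun n : ℕ => ∑ k ∈ range (n + 1), a k - Real.log (Real.log n)) atTop (nhds c)) :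
    (∀ σ : ℝ, 0 < σ → Summable (fun n : ℕ => a n * (n : ℝ) ^ (-σ))) ∧
    Tendsto (fun σ : ℝ => ∑' n : ℕ, a n * (n : ℝ) ^ (-σ) + Real.log σ) (nhdsWithin 0 (Set.Ioi 0))
      (nhds (c - Real.eulerMascheroniConstant)) := by
  obtain ⟨K, hK0, hK⟩ := MtB_bdd ha hS
  refine ⟨fun σ hσ => (MtB_hasSum ha h0 h1 hK hσ).summable, ?_⟩
  have hlim : ∫ v in Set.Ioi (0 : ℝ), (Real.log v + c) * Real.exp (-v)
      = c - Real.eulerMascheroniConstant := by
    have e1 : ∀ v : ℝ, (Real.log v + c) * Real.exp (-v)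
        = Real.log v * Real.exp (-v) + c * Real.exp (-v) := fun v => by ring
    simp_rw [e1]
    rw [MeasureTheory.integral_add MtB_int_log (MtB_int_exp.const_mul c),
      MeasureTheory.integral_const_mul, int_log_exp, integral_exp_neg_Ioi_zero]
    ring
  rw [← hlim]
  have hkey : Tendsto (fun σ : ℝ => ∫ v in Set.Ioi (0 : ℝ),
      (MtB_A a (v / σ) + Real.log σ) * Real.exp (-v)) (nhdsWithin 0 (Set.Ioi 0))
      (nhds (∫ v in Set.Ioi (0 : ℝ), (Real.log v + c) * Real.exp (-v))) := by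
    refine MeasureTheory.tendsto_integral_filter_of_dominated_convergence
      (fun v : ℝ => K * Real.exp (-v) + |Real.log v| * Real.exp (-v)) ?_ ?_
      ((MtB_int_exp.const_mul K).add MtB_int_abs_log) ?_
    · refine Filter.Eventually.of_forall fun σ => ?_
      exact ((((MtB_A_meas a).comp (measurable_id.div_const σ)).add_const _).mul
        (Real.measurable_exp.comp measurable_neg)).aestronglyMeasurable
    · have h2 : Set.Ioo (0 : ℝ) 1 ∈ nhdsWithin (0 : ℝ) (Set.Ioi 0) :=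
        Ioo_mem_nhdsGT one_pos
      filter_upwards [h2] with σ hσ
      filter_upwards [MeasureTheory.ae_restrict_mem measurableSet_Ioi] with v hv
      have hv0 : (0 : ℝ) < v := hv
      rw [Real.norm_eq_abs, abs_mul, abs_of_pos (Real.exp_pos _), ← add_mul]
      refine mul_le_mul_of_nonneg_right ?_ (Real.exp_pos _).le
      have h3 := hK (v / σ) (div_pos hv0 hσ.1)
      have h4 := MtB_abs_log_max hv0 hσ.1 hσ.2
      have h5 := abs_add_le (MtB_A a (v / σ) - Real.log (max (v / σ) 1))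
        (Real.log (max (v / σ) 1) + Real.log σ)
      have h6 : MtB_A a (v / σ) - Real.log (max (v / σ) 1)
        + (Real.log (max (v / σ) 1) + Real.log σ) = MtB_A a (v / σ) + Real.log σ := by ring
      rw [h6] at h5
      linarith
    · filter_upwards [MeasureTheory.ae_restrict_mem measurableSet_Ioi] with v hv
      have hv0 : (0 : ℝ) < v := hv
      refine Tendsto.mul_const _ ?_
      have h2 : Tendsto (fun σ : ℝ => v / σ) (nhdsWithin 0 (Set.Ioi 0)) atTop := by
        have := (tendsto_inv_nhdsGT_zero (𝕜 := ℝ)).const_mul_atTop hv0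
        simpa [div_eq_mul_inv] using this
      have h3 := ((MtB_lim hS).comp h2).const_add (Real.log v)
      refine h3.congr' ?_
      filter_upwards [self_mem_nhdsWithin] with σ hσ
      have hσ0 : (0 : ℝ) < σ := hσ
      simp only [Function.comp]
      rw [Real.log_div hv0.ne' hσ0.ne']
      ring
  refine hkey.congr' ?_
  filter_upwards [self_mem_nhdsWithin] with σ hσ
  have hσ0 : (0 : ℝ) < σ := hσ
  rw [(MtB_hasSum ha h0 h1 hK hσ0).tsum_eq]
  have e1 : ∀ v : ℝ, (MtB_A a (v / σ) + Real.log σ) * Real.exp (-v)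
      = MtB_A a (v / σ) * Real.exp (-v) + Real.log σ * Real.exp (-v) := fun v => by ring
  simp_rw [e1]
  rw [MeasureTheory.integral_add (MtB_intA hK hσ0) (MtB_int_exp.const_mul _),
    MeasureTheory.integral_const_mul, integral_exp_neg_Ioi_zero, mul_one]

end Pool.Agent.H36.IS

end

section

/-!
# IS MtC: the Euler product near 1

For σ > 0: ∑_p -log(1 - p^{-1-σ}) = log ζ(1+σ) (real zeta; Euler product of Mathlib: `riemannZeta_eulerProduct_exp_log`,
`riemannZeta_eulerProduct_tprod`, or for real s > 1 through the complex statement), and log ζ(1+σ) + log σ → 0 as σ → 0+ (σ ζ(1+σ) → 1: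
`riemannZeta_residue_one`, `tendsto_riemannZeta_sub_one_div`).
Then ∑_p (-log(1-1/p)) p^{-σ} - ∑_p -log(1 - p^{-1-σ}) = ∑_p ∑_{k≥2} (p^{-k-σ} - p^{-k(1+σ)})/k → 0 by dominated convergence
(0 ≤ terms ≤ ∑_{k≥2} p^{-k} ≤ 2/p²; each term tends to 0; `tendsto_tsum_of_dominated_convergence`).
-/

set_option autoImplicit false

namespace Pool.Agent.H36.IS

open Finset Filter

private theorem MtC_log_bd {x : ℝ} (h0 : 0 ≤ x) (h1 : x ≤ 1 / 2) :
    |x + Real.log (1 - x)| ≤ 2 * x ^ 2 := by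
  have h := Real.abs_log_sub_add_sum_range_le (x := x) (by rw [abs_of_nonneg h0]; linarith) 1
  simp only [Finset.sum_range_one, Nat.cast_zero, zero_add, pow_one, div_one, abs_of_nonneg h0]
    at h
  refine le_trans h ?_
  rw [div_le_iff₀ (by linarith)]
  have h2 : 0 ≤ x ^ 2 * (1 - 2 * x) := mul_nonneg (sq_nonneg x) (by linarith)
  have h3 : x ^ (1 + 1) = x ^ 2 := by norm_num
  rw [h3]
  nlinarith

private theorem MtC_log_nonneg {x : ℝ} (h0 : 0 ≤ x) (h1 : x ≤ 1 / 2) :
    0 ≤ -Real.log (1 - x) := by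
  have := Real.log_nonpos (x := 1 - x) (by linarith) (by linarith)
  linarith

private theorem MtC_log_le {x : ℝ} (h0 : 0 ≤ x) (h1 : x ≤ 1 / 2) :
    -Real.log (1 - x) ≤ 2 * x := by
  have := (abs_le.mp (MtC_log_bd h0 h1)).1
  nlinarith

private theorem MtC_inv_le (p : Nat.Primes) : 1 / ((p : ℕ) : ℝ) ≤ 1 / 2 := by
  have : (2 : ℝ) ≤ ((p : ℕ) : ℝ) := by exact_mod_cast p.2.two_le
  exact one_div_le_one_div_of_le (by norm_num) this

private theorem MtC_y (p : Nat.Primes) (σ : ℝ) :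
    ((p : ℕ) : ℝ) ^ (-(1 + σ)) = 1 / ((p : ℕ) : ℝ) * ((p : ℕ) : ℝ) ^ (-σ) := by
  have hp : (0 : ℝ) < ((p : ℕ) : ℝ) := by exact_mod_cast p.2.pos
  rw [neg_add, Real.rpow_add hp, Real.rpow_neg_one, one_div]

private theorem MtC_pow_le (p : Nat.Primes) {σ : ℝ} (hσ : 0 ≤ σ) :
    ((p : ℕ) : ℝ) ^ (-σ) ≤ 1 := by
  have h1 : (1 : ℝ) ≤ ((p : ℕ) : ℝ) := by exact_mod_cast p.2.one_le
  exact Real.rpow_le_one_of_one_le_of_nonpos h1 (by linarith)

private theorem MtC_pow_pos (p : Nat.Primes) (σ : ℝ) : 0 < ((p : ℕ) : ℝ) ^ (-σ) := by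
  have hp : (0 : ℝ) < ((p : ℕ) : ℝ) := by exact_mod_cast p.2.pos
  exact Real.rpow_pos_of_pos hp _

private theorem MtC_y_bd (p : Nat.Primes) {σ : ℝ} (hσ : 0 ≤ σ) :
    0 ≤ ((p : ℕ) : ℝ) ^ (-(1 + σ)) ∧ ((p : ℕ) : ℝ) ^ (-(1 + σ)) ≤ 1 / ((p : ℕ) : ℝ) := by
  have hp : (0 : ℝ) < ((p : ℕ) : ℝ) := by exact_mod_cast p.2.pos
  rw [MtC_y]
  constructor
  · exact mul_nonneg (by positivity) (MtC_pow_pos p σ).le
  · calc 1 / ((p : ℕ) : ℝ) * ((p : ℕ) : ℝ) ^ (-σ) ≤ 1 / ((p : ℕ) : ℝ) * 1 :=
        mul_le_mul_of_nonneg_left (MtC_pow_le p hσ) (by positivity)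
      _ = 1 / ((p : ℕ) : ℝ) := mul_one _

/-- the logarithm of the Euler product -/
private noncomputable def MtC_L (σ : ℝ) : ℝ :=
  ∑' p : Nat.Primes, -Real.log (1 - ((p : ℕ) : ℝ) ^ (-(1 + σ)))

private theorem MtC_zeta {σ : ℝ} (hσ : 0 < σ) :
    riemannZeta ((1 + σ : ℝ) : ℂ) = ((Real.exp (MtC_L σ) : ℝ) : ℂ) := by
  have h := riemannZeta_eulerProduct_exp_log (s := ((1 + σ : ℝ) : ℂ))
    (by rw [Complex.ofReal_re]; linarith)
  rw [← h, Complex.ofReal_exp]
  congr 1
  rw [MtC_L, Complex.ofReal_tsum]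
  refine tsum_congr (fun p => ?_)
  have hp : (0 : ℝ) ≤ ((p : ℕ) : ℝ) := Nat.cast_nonneg _
  have hy := MtC_y_bd p hσ.le
  have hx := MtC_inv_le p
  have e1 : (((p : ℕ) : ℂ)) ^ (-((1 + σ : ℝ) : ℂ)) = ((((p : ℕ) : ℝ) ^ (-(1 + σ)) : ℝ) : ℂ) := by
    rw [Complex.ofReal_cpow hp]
    push_cast
    rfl
  rw [e1, Complex.ofReal_neg, Complex.ofReal_log (by linarith [hy.2])]
  push_cast
  rfl

private theorem MtC_lim_L : Tendsto (fun σ : ℝ => MtC_L σ + Real.log σ)
    (nhdsWithin 0 (Set.Ioi 0)) (nhds 0) := by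
  have h1 : Tendsto (fun σ : ℝ => ((1 + σ : ℝ) : ℂ)) (nhdsWithin 0 (Set.Ioi 0))
      (nhdsWithin 1 {(1 : ℂ)}ᶜ) := by
    rw [tendsto_nhdsWithin_iff]
    constructor
    · have hc : Continuous (fun σ : ℝ => ((1 + σ : ℝ) : ℂ)) := by fun_prop
      have := (hc.tendsto 0).mono_left (nhdsWithin_le_nhds (s := Set.Ioi (0 : ℝ)))
      simpa using this
    · filter_upwards [self_mem_nhdsWithin] with σ hσ
      simp only [Set.mem_compl_iff, Set.mem_singleton_iff]
      intro h
      have h2 : (1 + σ : ℝ) = 1 := by exact_mod_cast h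
      have : (0 : ℝ) < σ := hσ
      linarith
  have h2 := riemannZeta_residue_one.comp h1
  have h3 : Tendsto (fun σ : ℝ => σ * Real.exp (MtC_L σ)) (nhdsWithin 0 (Set.Ioi 0)) (nhds 1) := by
    have h4 := (Complex.continuous_re.tendsto 1).comp h2
    rw [Complex.one_re] at h4
    refine h4.congr' ?_
    filter_upwards [self_mem_nhdsWithin] with σ hσ
    have hσ' : (0 : ℝ) < σ := hσ
    simp only [Function.comp]
    rw [MtC_zeta hσ']
    have : (((1 + σ : ℝ) : ℂ) - 1) * ((Real.exp (MtC_L σ) : ℝ) : ℂ) =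
        ((σ * Real.exp (MtC_L σ) : ℝ) : ℂ) := by
      push_cast; ring
    rw [this, Complex.ofReal_re]
  have h5 := (Real.continuousAt_log (x := 1) one_ne_zero).tendsto.comp h3
  rw [Real.log_one] at h5
  refine h5.congr' ?_
  filter_upwards [self_mem_nhdsWithin] with σ hσ
  have hσ' : (0 : ℝ) < σ := hσ
  simp only [Function.comp]
  rw [Real.log_mul hσ'.ne' (Real.exp_pos _).ne', Real.log_exp]
  ring

private theorem MtC_sumL {σ : ℝ} (hσ : 0 < σ) :
    Summable (fun p : Nat.Primes => -Real.log (1 - ((p : ℕ) : ℝ) ^ (-(1 + σ)))) := by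
  have hs : Summable (fun p : Nat.Primes => 2 * ((p : ℕ) : ℝ) ^ (-(1 + σ))) :=
    (Nat.Primes.summable_rpow.mpr (by linarith)).mul_left 2
  refine Summable.of_nonneg_of_le (fun p => ?_) (fun p => ?_) hs
  · have hy := MtC_y_bd p hσ.le
    exact MtC_log_nonneg hy.1 (le_trans hy.2 (MtC_inv_le p))
  · have hy := MtC_y_bd p hσ.le
    exact MtC_log_le hy.1 (le_trans hy.2 (MtC_inv_le p))

private theorem MtC_sumF {σ : ℝ} (hσ : 0 < σ) :
    Summable (fun p : Nat.Primes => -Real.log (1 - 1 / ((p : ℕ) : ℝ)) * ((p : ℕ) : ℝ) ^ (-σ)) := by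
  have hs : Summable (fun p : Nat.Primes => 2 * ((p : ℕ) : ℝ) ^ (-(1 + σ))) :=
    (Nat.Primes.summable_rpow.mpr (by linarith)).mul_left 2
  refine Summable.of_nonneg_of_le (fun p => ?_) (fun p => ?_) hs
  · exact mul_nonneg (MtC_log_nonneg (by positivity) (MtC_inv_le p)) (MtC_pow_pos p σ).le
  · rw [MtC_y, ← mul_assoc]
    exact mul_le_mul_of_nonneg_right (MtC_log_le (by positivity) (MtC_inv_le p))
      (MtC_pow_pos p σ).le

private theorem MtC_diff : Tendsto (fun σ : ℝ => ∑' p : Nat.Primes,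
    (-Real.log (1 - 1 / ((p : ℕ) : ℝ)) * ((p : ℕ) : ℝ) ^ (-σ) -
      -Real.log (1 - ((p : ℕ) : ℝ) ^ (-(1 + σ))))) (nhdsWithin 0 (Set.Ioi 0)) (nhds 0) := by
  have hs : Summable (fun p : Nat.Primes => 4 * ((p : ℕ) : ℝ) ^ (-2 : ℝ)) :=
    (Nat.Primes.summable_rpow.mpr (by norm_num)).mul_left 4
  have h := tendsto_tsum_of_dominated_convergence (𝓕 := nhdsWithin (0 : ℝ) (Set.Ioi 0))
    (f := fun (σ : ℝ) (p : Nat.Primes) =>
      (-Real.log (1 - 1 / ((p : ℕ) : ℝ)) * ((p : ℕ) : ℝ) ^ (-σ) -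
      -Real.log (1 - ((p : ℕ) : ℝ) ^ (-(1 + σ))))) (g := fun _ => (0 : ℝ)) hs ?_ ?_
  · simpa using h
  · intro p
    have hp : (0 : ℝ) < ((p : ℕ) : ℝ) := by exact_mod_cast p.2.pos
    have hx := MtC_inv_le p
    have hc : ContinuousAt (fun σ : ℝ => (-Real.log (1 - 1 / ((p : ℕ) : ℝ)) *
        ((p : ℕ) : ℝ) ^ (-σ) - -Real.log (1 - ((p : ℕ) : ℝ) ^ (-(1 + σ))))) 0 := by
      have c1 : ContinuousAt (fun σ : ℝ => ((p : ℕ) : ℝ) ^ (-σ)) 0 :=
        ((Real.continuous_const_rpow hp.ne').comp continuous_neg).continuousAt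
      have c2 : ContinuousAt (fun σ : ℝ => ((p : ℕ) : ℝ) ^ (-(1 + σ))) 0 :=
        ((Real.continuous_const_rpow hp.ne').comp (by fun_prop)).continuousAt
      have c3 : ContinuousAt (fun σ : ℝ => Real.log (1 - ((p : ℕ) : ℝ) ^ (-(1 + σ)))) 0 := by
        refine ContinuousAt.log (continuousAt_const.sub c2) ?_
        have hy : ((p : ℕ) : ℝ) ^ (-(1 + (0 : ℝ))) ≤ 1 / 2 :=
          le_trans (MtC_y_bd p (σ := 0) le_rfl).2 hx
        have : (0 : ℝ) < 1 - ((p : ℕ) : ℝ) ^ (-(1 + (0 : ℝ))) :=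
          sub_pos.mpr (lt_of_le_of_lt hy (by norm_num))
        exact this.ne'
      exact (continuousAt_const.mul c1).sub c3.neg
    have h2 := hc.tendsto.mono_left (nhdsWithin_le_nhds (s := Set.Ioi (0 : ℝ)))
    have e : (-Real.log (1 - 1 / ((p : ℕ) : ℝ)) * ((p : ℕ) : ℝ) ^ (-(0 : ℝ)) -
        -Real.log (1 - ((p : ℕ) : ℝ) ^ (-(1 + (0 : ℝ))))) = 0 := by
      rw [MtC_y, neg_zero, Real.rpow_zero, mul_one, mul_one, sub_self]
    rw [e] at h2
    exact h2
  · filter_upwards [self_mem_nhdsWithin] with σ hσ p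
    have hσ' : (0 : ℝ) < σ := hσ
    have hp : (0 : ℝ) < ((p : ℕ) : ℝ) := by exact_mod_cast p.2.pos
    have hx := MtC_inv_le p
    have hy := MtC_y_bd p hσ'.le
    have hw := MtC_pow_pos p σ
    have hw1 := MtC_pow_le p hσ'.le
    have b1 := MtC_log_bd (x := 1 / ((p : ℕ) : ℝ)) (by positivity) hx
    have b2 := MtC_log_bd hy.1 (le_trans hy.2 hx)
    have e : (-Real.log (1 - 1 / ((p : ℕ) : ℝ)) * ((p : ℕ) : ℝ) ^ (-σ) -
        -Real.log (1 - ((p : ℕ) : ℝ) ^ (-(1 + σ)))) =
        (((p : ℕ) : ℝ) ^ (-(1 + σ)) + Real.log (1 - ((p : ℕ) : ℝ) ^ (-(1 + σ)))) -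
        (1 / ((p : ℕ) : ℝ) + Real.log (1 - 1 / ((p : ℕ) : ℝ))) * ((p : ℕ) : ℝ) ^ (-σ) := by
      rw [MtC_y]; ring
    rw [Real.norm_eq_abs, e]
    have b3 : |(1 / ((p : ℕ) : ℝ) + Real.log (1 - 1 / ((p : ℕ) : ℝ))) * ((p : ℕ) : ℝ) ^ (-σ)| ≤
        2 * (1 / ((p : ℕ) : ℝ)) ^ 2 := by
      rw [abs_mul, abs_of_pos hw]
      calc _ ≤ |1 / ((p : ℕ) : ℝ) + Real.log (1 - 1 / ((p : ℕ) : ℝ))| * 1 :=
            mul_le_mul_of_nonneg_left hw1 (abs_nonneg _)
        _ ≤ _ := by rw [mul_one]; exact b1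
    have b4 : 2 * (((p : ℕ) : ℝ) ^ (-(1 + σ))) ^ 2 ≤ 2 * (1 / ((p : ℕ) : ℝ)) ^ 2 := by
      have := pow_le_pow_left₀ hy.1 hy.2 2
      linarith
    have e2 : ((p : ℕ) : ℝ) ^ (-2 : ℝ) = (1 / ((p : ℕ) : ℝ)) ^ 2 := by
      rw [Real.rpow_neg hp.le, one_div, inv_pow]
      norm_num
    rw [e2]
    calc _ ≤ |((p : ℕ) : ℝ) ^ (-(1 + σ)) + Real.log (1 - ((p : ℕ) : ℝ) ^ (-(1 + σ)))| +
        |(1 / ((p : ℕ) : ℝ) + Real.log (1 - 1 / ((p : ℕ) : ℝ))) * ((p : ℕ) : ℝ) ^ (-σ)| :=
          abs_sub _ _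
      _ ≤ 4 * (1 / ((p : ℕ) : ℝ)) ^ 2 := by linarith

theorem euler_near_one : Tendsto (fun σ : ℝ =>
    ∑' n : ℕ, (if n.Prime then -Real.log (1 - 1 / (n : ℝ)) else 0) * (n : ℝ) ^ (-σ) + Real.log σ)
      (nhdsWithin 0 (Set.Ioi 0)) (nhds 0) := by
  have h := MtC_diff.add MtC_lim_L
  rw [add_zero] at h
  refine h.congr' ?_
  filter_upwards [self_mem_nhdsWithin] with σ hσ
  have hσ' : (0 : ℝ) < σ := hσ
  have e1 : ∑' n : ℕ, (if n.Prime then -Real.log (1 - 1 / (n : ℝ)) else 0) * (n : ℝ) ^ (-σ) =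
      ∑' p : Nat.Primes, -Real.log (1 - 1 / ((p : ℕ) : ℝ)) * ((p : ℕ) : ℝ) ^ (-σ) := by
    have := tsum_subtype {n : ℕ | n.Prime}
      (fun n : ℕ => -Real.log (1 - 1 / (n : ℝ)) * (n : ℝ) ^ (-σ))
    refine Eq.trans ?_ this.symm
    refine tsum_congr (fun n => ?_)
    by_cases hn : n.Prime
    · rw [if_pos hn, Set.indicator_of_mem (by exact hn)]
    · rw [if_neg hn, Set.indicator_of_notMem (by exact hn), zero_mul]
  rw [e1, (MtC_sumF hσ').tsum_sub (MtC_sumL hσ'), MtC_L]
  ring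

end Pool.Agent.H36.IS

end
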