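import Pool.Agent.H43.PJ.M43
import Pool.Agent.H43.PJ.M48

/-! The parts of this file: H9.TM.Cls, H76.TP.ZSum2, H76.TP.ZSum3. -/

section

/-!
# TM Cls: classification of the composite rough numbers of `(N/8, 16N]` by the number of their small primes

`a = 111/500`, `b = 1527/5000`, `b' = 3053/10000`; `z, z1` natural numbers, `N^a ≤ z`, `N^b' ≤ z1 ≤ N^b`; `rou z m`: all prime factors `> z`; `omz z z1 m` = number of the prime factors in `(z, z1]`.
`split4` (compare `ZCntQ_split` in `H91/TQ/ZCntQ.lean`): a number `1 < m ≤ 16N` with all prime factors `> y`, `y^5 > 16N`, is a product of one, two, three or four primes in increasing order (iterate `minFac`).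
`cls_one`, `om = 1`: `m = p q`: `p ≤ z1` (else `om = 0`): first alternative.  `m = p q r`: `p ≤ z1`; if `q > z1`: second alternative; if `q ≤ z1`: `q = p` (else `om ≥ 2`), so `p² ∣ m`.  `m = p q r s`: `p ≤ z1`; `q ≤ z1`: `p² ∣ m`; `q > z1`:
  `m > N^(a + 3b') > 16N`, a contradiction.
`cls_two`, `om = 2`: `m = p q`: both `≤ z1`, `m ≤ N^(2b) < N/8`.  `m = p q r`: `p, q ≤ z1`; `p = q`: `p² ∣ m`; `r ≤ z1`: `m ≤ N^(3b) < N/8`; else the alternative.  `m = p q r s`: `p, q ≤ z1`, `p ≠ q` or `p² ∣ m`; `r ≤ z1`: `r = q`, `q² ∣ m`;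
  `r > z1`: `m > N^(2a + 2b') > 16N`.
`cls_three`, `om ≥ 3`: `m = p q` impossible; `m = p q r`: all `≤ z1`, `m ≤ N^(3b) < N/8`; `m = p q r s`: `p q r² ≤ m ≤ 16N`, `r² ≤ 16N/N^(2a)`, `r ≤ 4 N^(0.278) ≤ N^(3/10)`.
`om_le4`: five primes `> z` have a product `> 16N`.
-/

set_option autoImplicit false

namespace Pool.Agent.H9.TM

open Finset

/-- all prime factors are `> z` -/
def rou (z m : ℕ) : Prop := ∀ p : ℕ, p.Prime → p ∣ m → z < p

/-- the number of the prime factors in `(z, z1]` -/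
def omz (z z1 m : ℕ) : ℕ := (m.primeFactors.filter (fun p => z < p ∧ p ≤ z1)).card

/-- `p² ∣ m` for a prime `p > z` -/
def sqz (z m : ℕ) : Prop := ∃ p : ℕ, p.Prime ∧ z < p ∧ p ^ 2 ∣ m

private theorem Cls_mf {m : ℕ} (hm : 1 < m) :
    ∃ p m' : ℕ, p.Prime ∧ m = p * m' ∧ 1 ≤ m' ∧ ∀ q : ℕ, q.Prime → q ∣ m' → p ≤ q := by
  have h1 : m ≠ 1 := by omega
  refine ⟨m.minFac, m / m.minFac, Nat.minFac_prime h1, ?_, ?_, ?_⟩
  · exact (Nat.mul_div_cancel' (Nat.minFac_dvd m)).symm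
  · exact Nat.div_pos (Nat.minFac_le (by omega)) (Nat.minFac_pos m)
  · intro q hq hqm
    exact Nat.minFac_le_of_dvd hq.two_le (hqm.trans (Nat.div_dvd_of_dvd (Nat.minFac_dvd m)))

theorem split4 {M m : ℕ} {y : ℝ} (hy : 0 ≤ y) (h5 : (M : ℝ) < y ^ 5) (hm1 : 1 < m) (hm2 : m ≤ M)
    (hr : ∀ p : ℕ, p.Prime → p ∣ m → y < p) :
    m.Prime ∨
      (∃ p q : ℕ, p.Prime ∧ q.Prime ∧ p ≤ q ∧ m = p * q) ∨
      (∃ p q r : ℕ, p.Prime ∧ q.Prime ∧ r.Prime ∧ p ≤ q ∧ q ≤ r ∧ m = p * q * r) ∨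
      (∃ p q r s : ℕ, p.Prime ∧ q.Prime ∧ r.Prime ∧ s.Prime ∧ p ≤ q ∧ q ≤ r ∧ r ≤ s ∧ m = p * q * r * s) := by
  obtain ⟨p, m1, hp, e1, hm1', l1⟩ := Cls_mf hm1
  rcases Nat.lt_or_ge 1 m1 with g1 | g1
  swap
  · have : m1 = 1 := by omega
    subst this
    left
    rw [e1, mul_one]
    exact hp
  obtain ⟨q, m2, hq, e2, hm2', l2⟩ := Cls_mf g1
  have hpq : p ≤ q := l1 q hq (e2 ▸ Dvd.intro _ rfl)
  rcases Nat.lt_or_ge 1 m2 with g2 | g2
  swap
  · have : m2 = 1 := by omega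
    subst this
    right; left
    exact ⟨p, q, hp, hq, hpq, by rw [e1, e2, mul_one]⟩
  obtain ⟨r, m3, hr', e3, hm3', l3⟩ := Cls_mf g2
  have hqr : q ≤ r := l2 r hr' (e3 ▸ Dvd.intro _ rfl)
  rcases Nat.lt_or_ge 1 m3 with g3 | g3
  swap
  · have : m3 = 1 := by omega
    subst this
    right; right; left
    exact ⟨p, q, r, hp, hq, hr', hpq, hqr, by rw [e1, e2, e3, mul_one, mul_assoc]⟩
  obtain ⟨s, m4, hs, e4, hm4', l4⟩ := Cls_mf g3
  have hrs : r ≤ s := l3 s hs (e4 ▸ Dvd.intro _ rfl)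
  rcases Nat.lt_or_ge 1 m4 with g4 | g4
  swap
  · have : m4 = 1 := by omega
    subst this
    right; right; right
    exact ⟨p, q, r, s, hp, hq, hr', hs, hpq, hqr, hrs, by rw [e1, e2, e3, e4, mul_one]; ring⟩
  exfalso
  obtain ⟨t, m5, ht, e5, hm5', -⟩ := Cls_mf g4
  have em : m = p * q * r * s * t * m5 := by rw [e1, e2, e3, e4, e5]; ring
  have yp : y < p := hr p hp ⟨q * r * s * t * m5, by rw [em]; ring⟩
  have yq : y < q := hr q hq ⟨p * r * s * t * m5, by rw [em]; ring⟩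
  have yr : y < r := hr r hr' ⟨p * q * s * t * m5, by rw [em]; ring⟩
  have ys : y < s := hr s hs ⟨p * q * r * t * m5, by rw [em]; ring⟩
  have yt : y < t := hr t ht ⟨p * q * r * s * m5, by rw [em]; ring⟩
  have hle : p * q * r * s * t ≤ m := by
    rw [em]
    exact Nat.le_mul_of_pos_right _ (by omega)
  have hle' : (p : ℝ) * q * r * s * t ≤ M := by exact_mod_cast hle.trans hm2
  have k2 : y * y ≤ (p : ℝ) * q := mul_le_mul yp.le yq.le hy (by positivity)
  have k3 : y * y * y ≤ (p : ℝ) * q * r := mul_le_mul k2 yr.le hy (by positivity)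
  have k4 : y * y * y * y ≤ (p : ℝ) * q * r * s := mul_le_mul k3 ys.le hy (by positivity)
  have k5 : y * y * y * y * y ≤ (p : ℝ) * q * r * s * t := mul_le_mul k4 yt.le hy (by positivity)
  have k6 : y ^ 5 = y * y * y * y * y := by ring
  linarith

private theorem Cls_ev : ∃ N0 : ℕ, ∀ N : ℕ, N0 ≤ N → 16 ≤ N ∧ (17 : ℝ) ≤ (N : ℝ) ^ (11 / 250 : ℝ) := by
  have h3 : ∀ᶠ N : ℕ in Filter.atTop, (17 : ℝ) ≤ (N : ℝ) ^ (11 / 250 : ℝ) :=
    ((tendsto_rpow_atTop (by norm_num : (0 : ℝ) < 11 / 250)).comp tendsto_natCast_atTop_atTop).eventually_ge_atTop _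
  obtain ⟨N0, hN0⟩ := Filter.eventually_atTop.1 ((Filter.eventually_ge_atTop 16).and h3)
  exact ⟨N0, hN0⟩

private theorem Cls_pw {N : ℕ} (hN : 16 ≤ N) (h17 : (17 : ℝ) ≤ (N : ℝ) ^ (11 / 250 : ℝ)) (e : ℝ) (he : 1 + 11 / 250 ≤ e) :
    16 * (N : ℝ) < (N : ℝ) ^ e := by
  have hNr : (16 : ℝ) ≤ N := by exact_mod_cast hN
  have hN0 : (0 : ℝ) < N := by linarith
  calc 16 * (N : ℝ) < N * 17 := by linarith
    _ ≤ N * (N : ℝ) ^ (11 / 250 : ℝ) := mul_le_mul_of_nonneg_left h17 hN0.le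
    _ = (N : ℝ) ^ (1 + 11 / 250 : ℝ) := by rw [Real.rpow_add hN0, Real.rpow_one]
    _ ≤ (N : ℝ) ^ e := Real.rpow_le_rpow_of_exponent_le (by linarith) he

private theorem Cls_pw2 {N : ℕ} (hN : 16 ≤ N) (h17 : (17 : ℝ) ≤ (N : ℝ) ^ (11 / 250 : ℝ)) (e : ℝ) (he : e + 11 / 250 ≤ 1) :
    8 * (N : ℝ) ^ e < N := by
  have hNr : (16 : ℝ) ≤ N := by exact_mod_cast hN
  have hN0 : (0 : ℝ) < N := by linarith
  have hp : 0 < (N : ℝ) ^ e := Real.rpow_pos_of_pos hN0 e
  calc 8 * (N : ℝ) ^ e < (N : ℝ) ^ e * 17 := by linarith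
    _ ≤ (N : ℝ) ^ e * (N : ℝ) ^ (11 / 250 : ℝ) := mul_le_mul_of_nonneg_left h17 hp.le
    _ = (N : ℝ) ^ (e + 11 / 250 : ℝ) := by rw [Real.rpow_add hN0]
    _ ≤ (N : ℝ) ^ (1 : ℝ) := Real.rpow_le_rpow_of_exponent_le (by linarith) he
    _ = N := Real.rpow_one _

private theorem Cls_five {N : ℕ} (hN : 16 ≤ N) (h17 : (17 : ℝ) ≤ (N : ℝ) ^ (11 / 250 : ℝ)) :
    16 * (N : ℝ) < ((N : ℝ) ^ (111 / 500 : ℝ)) ^ 5 := by
  rw [← Real.rpow_natCast, ← Real.rpow_mul (Nat.cast_nonneg N)]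
  exact Cls_pw hN h17 _ (by norm_num)

theorem om_le4 : ∃ N0 : ℕ, ∀ N : ℕ, N0 ≤ N → ∀ z z1 m : ℕ, (N : ℝ) ^ (111 / 500 : ℝ) ≤ z → 1 ≤ m → m ≤ 16 * N → omz z z1 m ≤ 4 := by
  obtain ⟨N0, hN0⟩ := Cls_ev
  refine ⟨N0, fun N hN z z1 m hz hm1 hm2 => ?_⟩
  obtain ⟨h16, h17⟩ := hN0 N hN
  have hF := Cls_five h16 h17
  by_contra hcon
  push Not at hcon
  unfold omz at hcon
  obtain ⟨T, hTS, hT5⟩ := exists_subset_card_eq (show 5 ≤ (m.primeFactors.filter (fun p => z < p ∧ p ≤ z1)).card by omega)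
  have hT : ∀ p ∈ T, p.Prime ∧ p ∣ m ∧ z < p := by
    intro p hp
    have h1 := hTS hp
    rw [mem_filter] at h1
    exact ⟨Nat.prime_of_mem_primeFactors h1.1, Nat.dvd_of_mem_primeFactors h1.1, h1.2.1⟩
  have hdvd : ∏ p ∈ T, p ∣ m :=
    Finset.prod_primes_dvd m (fun p hp => (hT p hp).1.prime) (fun p hp => (hT p hp).2.1)
  have hle : ∏ p ∈ T, p ≤ 16 * N := (Nat.le_of_dvd (by omega) hdvd).trans hm2
  have hle' : ∏ p ∈ T, (p : ℝ) ≤ 16 * N := by
    have h0 : ((∏ p ∈ T, p : ℕ) : ℝ) ≤ ((16 * N : ℕ) : ℝ) := Nat.cast_le.2 hle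
    rw [Nat.cast_prod, Nat.cast_mul] at h0
    simpa using h0
  have hNr : (0 : ℝ) < N := by exact_mod_cast (by omega : 0 < N)
  have hbase : 0 < (N : ℝ) ^ (111 / 500 : ℝ) := Real.rpow_pos_of_pos hNr _
  have hlt : ∏ _p ∈ T, (N : ℝ) ^ (111 / 500 : ℝ) ≤ ∏ p ∈ T, (p : ℝ) := by
    refine prod_le_prod (fun _ _ => hbase.le) (fun p hp => hz.trans ?_)
    exact_mod_cast (hT p hp).2.2.le
  rw [prod_const, hT5] at hlt
  linarith

/-- the common setup -/
private theorem Cls_set : ∃ N0 : ℕ, ∀ N : ℕ, N0 ≤ N → ∀ z z1 m : ℕ, (N : ℝ) ^ (111 / 500 : ℝ) ≤ z → (N : ℝ) ^ (3053 / 10000 : ℝ) ≤ z1 →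
    (z1 : ℝ) ≤ (N : ℝ) ^ (1527 / 5000 : ℝ) → N ≤ 8 * m → m ≤ 16 * N → rou z m →
    (m.Prime ∨
      (∃ p q : ℕ, p.Prime ∧ q.Prime ∧ p ≤ q ∧ m = p * q) ∨
      (∃ p q r : ℕ, p.Prime ∧ q.Prime ∧ r.Prime ∧ p ≤ q ∧ q ≤ r ∧ m = p * q * r) ∨
      (∃ p q r s : ℕ, p.Prime ∧ q.Prime ∧ r.Prime ∧ s.Prime ∧ p ≤ q ∧ q ≤ r ∧ r ≤ s ∧ m = p * q * r * s)) ∧
    (∀ p : ℕ, p.Prime → z < p → p ≤ z1 → p ∈ PE N (111 / 500) (1527 / 5000)) ∧
    (∀ p q r s : ℕ, z < p → z1 < q → z1 < r → z1 < s → 16 * N < p * q * r * s) ∧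
    (∀ p q r s : ℕ, z < p → z < q → z1 < r → z1 < s → 16 * N < p * q * r * s) ∧
    (∀ p q r : ℕ, p ≤ z1 → q ≤ z1 → r ≤ z1 → 8 * (p * q * r) < N) ∧
    (∀ p q r s : ℕ, p.Prime → q.Prime → r.Prime → s.Prime → z < p → p ≤ q → q ≤ r → r ≤ s → m = p * q * r * s →
      p ∈ PE N (111 / 500) (3 / 10) ∧ q ∈ PE N (111 / 500) (3 / 10) ∧ r ∈ PE N (111 / 500) (3 / 10) ∧ p * q * r ^ 2 ≤ 16 * N) ∧
    1 ≤ z1 := by
  obtain ⟨N0, hN0⟩ := Cls_ev
  refine ⟨N0, fun N hN z z1 m hz hz1 hz1' hm1 hm2 hrou => ?_⟩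
  obtain ⟨h16, h17⟩ := hN0 N hN
  have hF := Cls_five h16 h17
  have hNr : (16 : ℝ) ≤ N := by exact_mod_cast h16
  have hN0' : (0 : ℝ) < N := by linarith
  obtain ⟨A, hA⟩ : ∃ A, A = (N : ℝ) ^ (111 / 500 : ℝ) := ⟨_, rfl⟩
  obtain ⟨B', hB'⟩ : ∃ B', B' = (N : ℝ) ^ (3053 / 10000 : ℝ) := ⟨_, rfl⟩
  obtain ⟨B, hB⟩ : ∃ B, B = (N : ℝ) ^ (1527 / 5000 : ℝ) := ⟨_, rfl⟩
  obtain ⟨C, hC⟩ : ∃ C, C = (N : ℝ) ^ (3 / 10 : ℝ) := ⟨_, rfl⟩
  have hA0 : 0 < A := by rw [hA]; exact Real.rpow_pos_of_pos hN0' _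
  have hB'0 : 0 < B' := by rw [hB']; exact Real.rpow_pos_of_pos hN0' _
  have hB0 : 0 < B := by rw [hB]; exact Real.rpow_pos_of_pos hN0' _
  have hC0 : 0 < C := by rw [hC]; exact Real.rpow_pos_of_pos hN0' _
  have hB'1 : 1 ≤ B' := by rw [hB']; exact Real.one_le_rpow (by linarith) (by norm_num)
  have hBN : B ≤ N := by
    rw [hB]
    calc (N : ℝ) ^ (1527 / 5000 : ℝ) ≤ (N : ℝ) ^ (1 : ℝ) := Real.rpow_le_rpow_of_exponent_le (by linarith) (by norm_num)
      _ = N := Real.rpow_one _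
  have hCN : C ≤ N := by
    rw [hC]
    calc (N : ℝ) ^ (3 / 10 : ℝ) ≤ (N : ℝ) ^ (1 : ℝ) := Real.rpow_le_rpow_of_exponent_le (by linarith) (by norm_num)
      _ = N := Real.rpow_one _
  have f2 : 16 * (N : ℝ) < A * B' * B' * B' := by
    rw [hA, hB', ← Real.rpow_add hN0', ← Real.rpow_add hN0', ← Real.rpow_add hN0']
    exact Cls_pw h16 h17 _ (by norm_num)
  have f3 : 16 * (N : ℝ) < A * A * B' * B' := by
    rw [hA, hB', ← Real.rpow_add hN0', ← Real.rpow_add hN0', ← Real.rpow_add hN0']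
    exact Cls_pw h16 h17 _ (by norm_num)
  have f4 : 8 * (B * B * B) < N := by
    rw [hB, ← Real.rpow_add hN0', ← Real.rpow_add hN0']
    exact Cls_pw2 h16 h17 _ (by norm_num)
  have f5 : 16 * (N : ℝ) < A * A * (C * C) := by
    rw [hA, hC, ← Real.rpow_add hN0', ← Real.rpow_add hN0', ← Real.rpow_add hN0']
    exact Cls_pw h16 h17 _ (by norm_num)
  rw [← hA] at hz hF
  rw [← hB'] at hz1
  rw [← hB] at hz1'
  refine ⟨?_, ?_, ?_, ?_, ?_, ?_, ?_⟩
  · refine split4 (M := 16 * N) (y := (z : ℝ)) (Nat.cast_nonneg z) ?_ (by omega) hm2 (fun p hp hpm => ?_)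
    · push_cast
      exact lt_of_lt_of_le hF (pow_le_pow_left₀ hA0.le hz 5)
    · exact_mod_cast hrou p hp hpm
  · intro p hp hzp hpz
    have h1 : (z : ℝ) < p := by exact_mod_cast hzp
    have h2 : (p : ℝ) ≤ z1 := by exact_mod_cast hpz
    have h3 : (p : ℝ) ≤ N := by linarith
    unfold PE
    rw [mem_filter, mem_Icc, ← hA, ← hB]
    exact ⟨⟨hp.one_lt.le, by exact_mod_cast h3⟩, hp, by linarith, by linarith⟩
  · intro p q r s hp hq hr hs
    have h1 : (z : ℝ) < p := by exact_mod_cast hp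
    have h2 : (z1 : ℝ) < q := by exact_mod_cast hq
    have h3 : (z1 : ℝ) < r := by exact_mod_cast hr
    have h4 : (z1 : ℝ) < s := by exact_mod_cast hs
    have k2 : A * B' ≤ (p : ℝ) * q := mul_le_mul (by linarith) (by linarith) hB'0.le (by positivity)
    have k3 : A * B' * B' ≤ (p : ℝ) * q * r := mul_le_mul k2 (by linarith) hB'0.le (by positivity)
    have k4 : A * B' * B' * B' ≤ (p : ℝ) * q * r * s := mul_le_mul k3 (by linarith) hB'0.le (by positivity)
    have k5 : 16 * (N : ℝ) < (p : ℝ) * q * r * s := by linarith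
    exact_mod_cast k5
  · intro p q r s hp hq hr hs
    have h1 : (z : ℝ) < p := by exact_mod_cast hp
    have h2 : (z : ℝ) < q := by exact_mod_cast hq
    have h3 : (z1 : ℝ) < r := by exact_mod_cast hr
    have h4 : (z1 : ℝ) < s := by exact_mod_cast hs
    have k2 : A * A ≤ (p : ℝ) * q := mul_le_mul (by linarith) (by linarith) hA0.le (by positivity)
    have k3 : A * A * B' ≤ (p : ℝ) * q * r := mul_le_mul k2 (by linarith) hB'0.le (by positivity)
    have k4 : A * A * B' * B' ≤ (p : ℝ) * q * r * s := mul_le_mul k3 (by linarith) hB'0.le (by positivity)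
    have k5 : 16 * (N : ℝ) < (p : ℝ) * q * r * s := by linarith
    exact_mod_cast k5
  · intro p q r hp hq hr
    have h1 : (p : ℝ) ≤ z1 := by exact_mod_cast hp
    have h2 : (q : ℝ) ≤ z1 := by exact_mod_cast hq
    have h3 : (r : ℝ) ≤ z1 := by exact_mod_cast hr
    have k2 : (p : ℝ) * q ≤ B * B := mul_le_mul (by linarith) (by linarith) (by positivity) hB0.le
    have k3 : (p : ℝ) * q * r ≤ B * B * B := mul_le_mul k2 (by linarith) (by positivity) (by positivity)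
    have k5 : 8 * ((p : ℝ) * q * r) < N := by linarith
    exact_mod_cast k5
  · intro p q r s hp hq hr hs hzp hpq hqr hrs em
    have h1 : (z : ℝ) < p := by exact_mod_cast hzp
    have h2 : (p : ℝ) ≤ q := by exact_mod_cast hpq
    have h3 : (q : ℝ) ≤ r := by exact_mod_cast hqr
    have h4 : (r : ℝ) ≤ s := by exact_mod_cast hrs
    have hle : p * q * r ^ 2 ≤ 16 * N := by
      refine le_trans ?_ hm2
      rw [em, pow_two, ← mul_assoc]
      exact Nat.mul_le_mul_left _ hrs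
    have hle' : (p : ℝ) * q * (r * r) ≤ 16 * N := by
      have h0 : ((p * q * r ^ 2 : ℕ) : ℝ) ≤ ((16 * N : ℕ) : ℝ) := Nat.cast_le.2 hle
      push_cast at h0
      linarith [h0, (by ring : (p : ℝ) * q * r ^ 2 = (p : ℝ) * q * (r * r))]
    have hrC : (r : ℝ) ≤ C := by
      by_contra hcon
      push Not at hcon
      have k2 : A * A ≤ (p : ℝ) * q := mul_le_mul (by linarith) (by linarith) hA0.le (by positivity)
      have k3 : C * C ≤ (r : ℝ) * r := mul_le_mul hcon.le hcon.le hC0.le (by positivity)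
      have k4 : A * A * (C * C) ≤ (p : ℝ) * q * (r * r) := mul_le_mul k2 k3 (by positivity) (by positivity)
      linarith
    have hmem : ∀ t : ℕ, t.Prime → A < t → (t : ℝ) ≤ C → t ∈ PE N (111 / 500) (3 / 10) := by
      intro t ht h5 h6
      have h7 : (t : ℝ) ≤ N := by linarith
      unfold PE
      rw [mem_filter, mem_Icc, ← hA, ← hC]
      exact ⟨⟨ht.one_lt.le, by exact_mod_cast h7⟩, ht, h5, h6⟩
    exact ⟨hmem p hp (by linarith) (by linarith), hmem q hq (by linarith) (by linarith), hmem r hr (by linarith) hrC, hle⟩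
  · have h1 : (1 : ℝ) ≤ z1 := by linarith
    exact_mod_cast h1

private theorem Cls_mem {z z1 m p : ℕ} (hm : m ≠ 0) (hp : p.Prime) (hpm : p ∣ m) (h1 : z < p) (h2 : p ≤ z1) :
    p ∈ m.primeFactors.filter (fun p => z < p ∧ p ≤ z1) := by
  rw [mem_filter, Nat.mem_primeFactors]
  exact ⟨⟨hp, hpm, hm⟩, h1, h2⟩

private theorem Cls_two {z z1 m p q : ℕ} (hm : m ≠ 0) (hp : p.Prime) (hq : q.Prime) (hpm : p ∣ m) (hqm : q ∣ m) (hpq : p ≠ q)
    (hp1 : z < p) (hp2 : p ≤ z1) (hq1 : z < q) (hq2 : q ≤ z1) : 2 ≤ omz z z1 m :=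
  one_lt_card.2 ⟨p, Cls_mem hm hp hpm hp1 hp2, q, Cls_mem hm hq hqm hq1 hq2, hpq⟩

private theorem Cls_three {z z1 m p q r : ℕ} (hm : m ≠ 0) (hp : p.Prime) (hq : q.Prime) (hr : r.Prime) (hpm : p ∣ m) (hqm : q ∣ m)
    (hrm : r ∣ m) (hpq : p ≠ q) (hpr : p ≠ r) (hqr : q ≠ r) (hp1 : z < p) (hp2 : p ≤ z1) (hq1 : z < q) (hq2 : q ≤ z1)
    (hr1 : z < r) (hr2 : r ≤ z1) : 3 ≤ omz z z1 m :=
  two_lt_card.2 ⟨p, Cls_mem hm hp hpm hp1 hp2, q, Cls_mem hm hq hqm hq1 hq2, r, Cls_mem hm hr hrm hr1 hr2, hpq, hpr, hqr⟩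

/-- if all prime factors in the range lie in a set, `omz` is at most its size -/
private theorem Cls_le {z z1 m : ℕ} (S : Finset ℕ) (h : ∀ x : ℕ, x.Prime → x ∣ m → x ≤ z1 → x ∈ S) : omz z z1 m ≤ S.card := by
  refine card_le_card fun x hx => ?_
  rw [mem_filter, Nat.mem_primeFactors] at hx
  exact h x hx.1.1 hx.1.2.1 hx.2.2

private theorem Cls_dvd2 {x p q : ℕ} (hx : x.Prime) (hp : p.Prime) (hq : q.Prime) (h : x ∣ p * q) : x = p ∨ x = q := by
  rcases (Nat.Prime.dvd_mul hx).1 h with h | h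
  · exact Or.inl ((Nat.prime_dvd_prime_iff_eq hx hp).1 h)
  · exact Or.inr ((Nat.prime_dvd_prime_iff_eq hx hq).1 h)

private theorem Cls_dvd3 {x p q r : ℕ} (hx : x.Prime) (hp : p.Prime) (hq : q.Prime) (hr : r.Prime) (h : x ∣ p * q * r) :
    x = p ∨ x = q ∨ x = r := by
  rcases (Nat.Prime.dvd_mul hx).1 h with h | h
  · rcases Cls_dvd2 hx hp hq h with h | h
    · exact Or.inl h
    · exact Or.inr (Or.inl h)
  · exact Or.inr (Or.inr ((Nat.prime_dvd_prime_iff_eq hx hr).1 h))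

private theorem Cls_dvd4 {x p q r s : ℕ} (hx : x.Prime) (hp : p.Prime) (hq : q.Prime) (hr : r.Prime) (hs : s.Prime)
    (h : x ∣ p * q * r * s) : x = p ∨ x = q ∨ x = r ∨ x = s := by
  rcases (Nat.Prime.dvd_mul hx).1 h with h | h
  · rcases Cls_dvd3 hx hp hq hr h with h | h | h
    · exact Or.inl h
    · exact Or.inr (Or.inl h)
    · exact Or.inr (Or.inr (Or.inl h))
  · exact Or.inr (Or.inr (Or.inr ((Nat.prime_dvd_prime_iff_eq hx hs).1 h)))

theorem cls_one : ∃ N0 : ℕ, ∀ N : ℕ, N0 ≤ N → ∀ z z1 m : ℕ, (N : ℝ) ^ (111 / 500 : ℝ) ≤ z → (N : ℝ) ^ (3053 / 10000 : ℝ) ≤ z1 →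
    (z1 : ℝ) ≤ (N : ℝ) ^ (1527 / 5000 : ℝ) → N ≤ 8 * m → m ≤ 16 * N → rou z m → ¬ m.Prime → omz z z1 m = 1 → ¬ sqz z m →
    (∃ p ∈ PE N (111 / 500) (1527 / 5000), ∃ q : ℕ, q.Prime ∧ m = p * q) ∨
    (∃ p ∈ PE N (111 / 500) (1527 / 5000),
      ∃ q ∈ (Icc 1 (16 * N)).filter (fun q : ℕ => q.Prime ∧ (N : ℝ) ^ (3053 / 10000 : ℝ) < q ∧ p * q ^ 2 ≤ 16 * N),
        ∃ r : ℕ, r.Prime ∧ m = p * q * r) := by
  obtain ⟨N0, hN0⟩ := Cls_set
  refine ⟨max N0 16, fun N hN z z1 m hz hz1 hz1' hm1 hm2 hrou hnp hom hsq => ?_⟩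
  have h16 : 16 ≤ N := (le_max_right _ _).trans hN
  obtain ⟨hsplit, hPE, hbig1, -, -, -, -⟩ := hN0 N ((le_max_left _ _).trans hN) z z1 m hz hz1 hz1' hm1 hm2 hrou
  have hm0 : m ≠ 0 := by omega
  -- some prime factor is at most `z1`
  have hlow : ∃ x : ℕ, x.Prime ∧ x ∣ m ∧ x ≤ z1 := by
    by_contra hcon
    push Not at hcon
    have h1 := Cls_le (z := z) (z1 := z1) (m := m) ∅ (fun x hx hxm hxz => absurd hxz (not_le.2 (hcon x hx hxm)))
    rw [hom] at h1
    simp at h1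
  obtain ⟨x, hx, hxm, hxz⟩ := hlow
  rcases hsplit with h | ⟨p, q, hp, hq, hpq, em⟩ | ⟨p, q, r, hp, hq, hr, hpq, hqr, em⟩ | ⟨p, q, r, s, hp, hq, hr, hs, hpq, hqr, hrs, em⟩
  · exact absurd h hnp
  · left
    have hpm : p ∣ m := ⟨q, em⟩
    have hpz : p ≤ z1 := by
      rcases Cls_dvd2 hx hp hq (em ▸ hxm) with h | h <;> omega
    exact ⟨p, hPE p hp (hrou p hp hpm) hpz, q, hq, em⟩
  · have hpm : p ∣ m := ⟨q * r, by rw [em]; ring⟩
    have hqm : q ∣ m := ⟨p * r, by rw [em]; ring⟩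
    have hpz : p ≤ z1 := by
      rcases Cls_dvd3 hx hp hq hr (em ▸ hxm) with h | h | h <;> omega
    rcases le_or_gt q z1 with hqz | hqz
    · exfalso
      by_cases hne : p = q
      · exact hsq ⟨p, hp, hrou p hp hpm, ⟨r, by rw [em, ← hne]; ring⟩⟩
      · have := Cls_two hm0 hp hq hpm hqm hne (hrou p hp hpm) hpz (hrou q hq hqm) hqz
        omega
    · right
      have hle : p * q ^ 2 ≤ 16 * N := by
        refine le_trans ?_ hm2
        rw [em, pow_two, ← mul_assoc]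
        exact Nat.mul_le_mul_left _ hqr
      refine ⟨p, hPE p hp (hrou p hp hpm) hpz, q, ?_, r, hr, em⟩
      rw [mem_filter, mem_Icc]
      refine ⟨⟨hq.one_lt.le, ?_⟩, hq, ?_, hle⟩
      · refine le_trans ?_ hle
        calc q ≤ q * q := Nat.le_mul_of_pos_left q hq.pos
          _ = q ^ 2 := (pow_two q).symm
          _ ≤ p * q ^ 2 := Nat.le_mul_of_pos_left _ hp.pos
      · refine lt_of_le_of_lt hz1 ?_
        exact_mod_cast hqz
  · exfalso
    have hpm : p ∣ m := ⟨q * r * s, by rw [em]; ring⟩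
    have hqm : q ∣ m := ⟨p * r * s, by rw [em]; ring⟩
    have hpz : p ≤ z1 := by
      rcases Cls_dvd4 hx hp hq hr hs (em ▸ hxm) with h | h | h | h <;> omega
    rcases le_or_gt q z1 with hqz | hqz
    · by_cases hne : p = q
      · exact hsq ⟨p, hp, hrou p hp hpm, ⟨r * s, by rw [em, ← hne]; ring⟩⟩
      · have := Cls_two hm0 hp hq hpm hqm hne (hrou p hp hpm) hpz (hrou q hq hqm) hqz
        omega
    · have := hbig1 p q r s (hrou p hp hpm) hqz (by omega) (by omega)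
      omega

theorem cls_two : ∃ N0 : ℕ, ∀ N : ℕ, N0 ≤ N → ∀ z z1 m : ℕ, (N : ℝ) ^ (111 / 500 : ℝ) ≤ z → (N : ℝ) ^ (3053 / 10000 : ℝ) ≤ z1 →
    (z1 : ℝ) ≤ (N : ℝ) ^ (1527 / 5000 : ℝ) → N ≤ 8 * m → m ≤ 16 * N → rou z m → ¬ m.Prime → omz z z1 m = 2 → ¬ sqz z m →
    ∃ p ∈ PE N (111 / 500) (1527 / 5000), ∃ q ∈ (PE N (111 / 500) (1527 / 5000)).filter (fun q => p < q),
      ∃ r : ℕ, r.Prime ∧ m = p * q * r := by
  obtain ⟨N0, hN0⟩ := Cls_set
  refine ⟨max N0 16, fun N hN z z1 m hz hz1 hz1' hm1 hm2 hrou hnp hom hsq => ?_⟩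
  have h16 : 16 ≤ N := (le_max_right _ _).trans hN
  obtain ⟨hsplit, hPE, -, hbig2, hsmall, -, hz1p⟩ := hN0 N ((le_max_left _ _).trans hN) z z1 m hz hz1 hz1' hm1 hm2 hrou
  have hm0 : m ≠ 0 := by omega
  rcases hsplit with h | ⟨p, q, hp, hq, hpq, em⟩ | ⟨p, q, r, hp, hq, hr, hpq, hqr, em⟩ | ⟨p, q, r, s, hp, hq, hr, hs, hpq, hqr, hrs, em⟩
  · exact absurd h hnp
  · exfalso
    have hqz : q ≤ z1 := by
      by_contra hcon
      have h1 := Cls_le (z := z) (z1 := z1) (m := m) {p} (fun x hx hxm hxz => by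
        rcases Cls_dvd2 hx hp hq (em ▸ hxm) with h | h
        · rw [h]; exact mem_singleton_self p
        · omega)
      rw [hom, card_singleton] at h1
      omega
    have h1 := hsmall p q 1 (by omega) hqz hz1p
    rw [mul_one, ← em] at h1
    omega
  · have hpm : p ∣ m := ⟨q * r, by rw [em]; ring⟩
    have hqm : q ∣ m := ⟨p * r, by rw [em]; ring⟩
    have hqz : q ≤ z1 := by
      by_contra hcon
      have h1 := Cls_le (z := z) (z1 := z1) (m := m) {p} (fun x hx hxm hxz => by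
        rcases Cls_dvd3 hx hp hq hr (em ▸ hxm) with h | h | h
        · rw [h]; exact mem_singleton_self p
        · omega
        · omega)
      rw [hom, card_singleton] at h1
      omega
    have hne : p ≠ q := by
      intro hne
      exact hsq ⟨p, hp, hrou p hp hpm, ⟨r, by rw [em, ← hne]; ring⟩⟩
    refine ⟨p, hPE p hp (hrou p hp hpm) (by omega), q, ?_, r, hr, em⟩
    rw [mem_filter]
    exact ⟨hPE q hq (hrou q hq hqm) hqz, by omega⟩
  · exfalso
    have hpm : p ∣ m := ⟨q * r * s, by rw [em]; ring⟩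
    have hqm : q ∣ m := ⟨p * r * s, by rw [em]; ring⟩
    have hrm : r ∣ m := ⟨p * q * s, by rw [em]; ring⟩
    have hqz : q ≤ z1 := by
      by_contra hcon
      have h1 := Cls_le (z := z) (z1 := z1) (m := m) {p} (fun x hx hxm hxz => by
        rcases Cls_dvd4 hx hp hq hr hs (em ▸ hxm) with h | h | h | h
        · rw [h]; exact mem_singleton_self p
        · omega
        · omega
        · omega)
      rw [hom, card_singleton] at h1
      omega
    have hne : p ≠ q := by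
      intro hne
      exact hsq ⟨p, hp, hrou p hp hpm, ⟨r * s, by rw [em, ← hne]; ring⟩⟩
    rcases le_or_gt r z1 with hrz | hrz
    · by_cases hne2 : q = r
      · exact hsq ⟨q, hq, hrou q hq hqm, ⟨p * s, by rw [em, ← hne2]; ring⟩⟩
      · have := Cls_three hm0 hp hq hr hpm hqm hrm hne (by omega) hne2 (hrou p hp hpm) (by omega) (hrou q hq hqm) hqz
          (hrou r hr hrm) hrz
        omega
    · have := hbig2 p q r s (hrou p hp hpm) (hrou q hq hqm) hrz (by omega)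
      omega

theorem cls_three : ∃ N0 : ℕ, ∀ N : ℕ, N0 ≤ N → ∀ z z1 m : ℕ, (N : ℝ) ^ (111 / 500 : ℝ) ≤ z → (N : ℝ) ^ (3053 / 10000 : ℝ) ≤ z1 →
    (z1 : ℝ) ≤ (N : ℝ) ^ (1527 / 5000 : ℝ) → N ≤ 8 * m → m ≤ 16 * N → rou z m → 3 ≤ omz z z1 m →
    ∃ p ∈ PE N (111 / 500) (3 / 10), ∃ q ∈ (PE N (111 / 500) (3 / 10)).filter (fun q => p ≤ q),
      ∃ r ∈ (PE N (111 / 500) (3 / 10)).filter (fun r => q ≤ r ∧ p * q * r ^ 2 ≤ 16 * N),
        ∃ s : ℕ, s.Prime ∧ m = p * q * r * s := by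
  obtain ⟨N0, hN0⟩ := Cls_set
  refine ⟨max N0 16, fun N hN z z1 m hz hz1 hz1' hm1 hm2 hrou hom => ?_⟩
  have h16 : 16 ≤ N := (le_max_right _ _).trans hN
  obtain ⟨hsplit, -, -, -, hsmall, hfour, -⟩ := hN0 N ((le_max_left _ _).trans hN) z z1 m hz hz1 hz1' hm1 hm2 hrou
  have hm0 : m ≠ 0 := by omega
  rcases hsplit with h | ⟨p, q, hp, hq, hpq, em⟩ | ⟨p, q, r, hp, hq, hr, hpq, hqr, em⟩ | ⟨p, q, r, s, hp, hq, hr, hs, hpq, hqr, hrs, em⟩
  · exfalso
    have h1 := Cls_le (z := z) (z1 := z1) (m := m) {m} (fun x hx hxm _ => by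
      rw [(Nat.prime_dvd_prime_iff_eq hx h).1 hxm]
      exact mem_singleton_self m)
    rw [card_singleton] at h1
    omega
  · exfalso
    have h1 := Cls_le (z := z) (z1 := z1) (m := m) {p, q} (fun x hx hxm _ => by
      rw [mem_insert, mem_singleton]
      exact Cls_dvd2 hx hp hq (em ▸ hxm))
    have h2 := card_le_two (a := p) (b := q)
    omega
  · exfalso
    have hrz : r ≤ z1 := by
      by_contra hcon
      have h1 := Cls_le (z := z) (z1 := z1) (m := m) {p, q} (fun x hx hxm hxz => by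
        rw [mem_insert, mem_singleton]
        rcases Cls_dvd3 hx hp hq hr (em ▸ hxm) with h | h | h
        · exact Or.inl h
        · exact Or.inr h
        · omega)
      have h2 := card_le_two (a := p) (b := q)
      omega
    have h1 := hsmall p q r (by omega) (by omega) hrz
    rw [← em] at h1
    omega
  · have hpm : p ∣ m := ⟨q * r * s, by rw [em]; ring⟩
    obtain ⟨h1, h2, h3, h4⟩ := hfour p q r s hp hq hr hs (hrou p hp hpm) hpq hqr hrs em
    refine ⟨p, h1, q, ?_, r, ?_, s, hs, em⟩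
    · rw [mem_filter]
      exact ⟨h2, hpq⟩
    · rw [mem_filter]
      exact ⟨h3, hqr, h4⟩

end Pool.Agent.H9.TM

end

section

/-!
# TP ZSum2: the main term of `E_2`

`N/8 ≤ x ≤ 8N`, `p` prime, `N^ζ < p`, `p² ≤ 16N`.  With `u = log p/L ∈ (ζ, 1/2 + log 16/(2L)] ⊆ (ζ, 1/2 + η]`: `log(x/p) ≥ L(1 - u) - log 8 ≥ (1-η) L (1-u)`.  `mert_r` with `a = ζ`, `b = 1/2 + η`, `f u = 1/(1-u)` (`M = 10`):
the sum is `≤ (1-η)^(-1) (1/L) (∫_ζ^{1/2+η} du/(u(1-u)) + η)`, and `∫_ζ^b du/(u(1-u)) = log(b/(1-b)) + log((1-ζ)/ζ)`, `b/(1-b) → 1` as `η → 0`.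
-/

set_option autoImplicit false

namespace Pool.Agent.H76.TP

open Finset MeasureTheory

/-- the integral -/
private theorem ZSum2_int (a b : ℝ) (ha : 0 < a) (hab : a ≤ b) (hb : b < 1) :
    ∫ u in a..b, (1 / (1 - u)) / u = (Real.log b - Real.log (1 - b)) - (Real.log a - Real.log (1 - a)) := by
  have hI : ∀ u ∈ Set.uIcc a b, 0 < u ∧ 0 < 1 - u := by
    intro u hu
    rw [Set.uIcc_of_le hab] at hu
    exact ⟨lt_of_lt_of_le ha hu.1, by linarith [hu.2]⟩
  refine intervalIntegral.integral_eq_sub_of_hasDerivAt (f := fun u => Real.log u - Real.log (1 - u))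
    (fun u hu => ?_) ?_
  · obtain ⟨h1, h2⟩ := hI u hu
    have h3 : HasDerivAt (fun u : ℝ => Real.log u) u⁻¹ u := Real.hasDerivAt_log h1.ne'
    have h4 : HasDerivAt (fun u : ℝ => 1 - u) (-1) u := by
      simpa using (hasDerivAt_id u).const_sub 1
    have h5 : HasDerivAt (fun u : ℝ => Real.log (1 - u)) ((-1) / (1 - u)) u := h4.log h2.ne'
    have h6 := h3.sub h5
    refine h6.congr_deriv ?_
    field_simp
    ring
  · refine ContinuousOn.intervalIntegrable ?_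
    refine ContinuousOn.div (ContinuousOn.div continuousOn_const
      (continuousOn_const.sub continuousOn_id) fun u hu => (hI u hu).2.ne') continuousOn_id
      fun u hu => (hI u hu).1.ne'

/-- the final numerical estimate -/
private theorem ZSum2_num (ζ ε η : ℝ) (hζ : 1 / 4 < ζ) (hζ2 : ζ < 1 / 3) (hη : 0 < η)
    (hη1 : η ≤ 1 / 8) (hη2 : η * (11 + ε) ≤ ε) :
    1 / (1 - η) * ((∫ u in ζ..(1 / 2 + η), (1 / (1 - u)) / u) + η) ≤ Z2 ζ + ε := by
  rw [ZSum2_int ζ (1 / 2 + η) (by linarith only [hζ, hη, hη1]) (by linarith only [hζ2, hη, hη1]) (by linarith only [hη, hη1])]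
  have hZ : Z2 ζ = Real.log (1 - ζ) - Real.log ζ := by
    unfold Z2
    rw [Real.log_div (by linarith only [hζ2, hη, hη1]) (by linarith only [hζ, hη, hη1])]
  have h1 : Real.log (1 / 2 + η) - Real.log (1 - (1 / 2 + η)) ≤ 8 * η := by
    rw [← Real.log_div (by linarith only [hη, hη1]) (by linarith)]
    have h2 : (0 : ℝ) < (1 / 2 + η) / (1 - (1 / 2 + η)) := div_pos (by linarith only [hη, hη1]) (by linarith)
    refine (Real.log_le_sub_one_of_pos h2).trans ?_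
    rw [sub_le_iff_le_add, div_le_iff₀ (by linarith only [hη, hη1])]
    nlinarith only [hη, hζ, hζ2, hη1]
  have h3 : Z2 ζ ≤ 2 := by
    unfold Z2
    have h4 : (0 : ℝ) < (1 - ζ) / ζ := div_pos (by linarith only [hζ2, hη, hη1]) (by linarith)
    refine (Real.log_le_sub_one_of_pos h4).trans ?_
    rw [sub_le_iff_le_add, div_le_iff₀ (by linarith only [hζ, hη, hη1])]
    linarith
  rw [one_div, inv_mul_le_iff₀ (by linarith)]
  nlinarith only [hη2, hZ, h1, hζ, hζ2, hη, h3]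

theorem e2sum (ζ ε : ℝ) (hζ : 1 / 4 < ζ) (hζ2 : ζ < 1 / 3) (hε : 0 < ε) : ∃ N0 : ℕ, ∀ N : ℕ, N0 ≤ N → ∀ x : ℕ,
    N ≤ 8 * x → x ≤ 8 * N →
      ∑ p ∈ (Icc 1 (16 * N)).filter (fun p : ℕ => p.Prime ∧ (N : ℝ) ^ ζ < p ∧ p ^ 2 ≤ 16 * N),
        1 / (p * Real.log ((x : ℝ) / p)) ≤ (Z2 ζ + ε) / Real.log N := by
  set η : ℝ := min (1 / 8) (ε / (11 + ε)) with hηdef
  have hη : 0 < η := lt_min (by norm_num) (by positivity)
  have hη1 : η ≤ 1 / 8 := min_le_left _ _
  have hη2 : η * (11 + ε) ≤ ε := by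
    have h1 : η ≤ ε / (11 + ε) := min_le_right _ _
    rwa [le_div_iff₀ (by positivity)] at h1
  obtain ⟨N1, hN1⟩ := mert_r (1 / 4) 16 η (by norm_num) (by norm_num) hη
  refine ⟨max N1 (⌈Real.exp (8 / η)⌉₊ + 1), fun N hN x hx1 hx2 => ?_⟩
  have hNN1 : N1 ≤ N := le_trans (le_max_left _ _) hN
  have hNe : Real.exp (8 / η) ≤ N := by
    have h1 : ⌈Real.exp (8 / η)⌉₊ + 1 ≤ N := le_trans (le_max_right _ _) hN
    have h2 : (⌈Real.exp (8 / η)⌉₊ : ℝ) ≤ N := by exact_mod_cast (by omega : ⌈Real.exp (8 / η)⌉₊ ≤ N)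
    exact (Nat.le_ceil _).trans h2
  have hN0 : (0 : ℝ) < N := lt_of_lt_of_le (Real.exp_pos _) hNe
  set L : ℝ := Real.log N with hL
  have hL8 : 8 / η ≤ L := by
    rw [hL, Real.le_log_iff_exp_le hN0]
    exact hNe
  have hηL : 8 ≤ η * L := by
    rw [div_le_iff₀ hη] at hL8
    linarith only [hL8]
  have hLpos : 0 < L := lt_of_lt_of_le (by positivity) hL8
  set b : ℝ := 1 / 2 + η with hb
  have hN1' : (1 : ℝ) ≤ N := by
    have h1 : 1 ≤ N := by
      have : 0 < N := by exact_mod_cast hN0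
      omega
    exact_mod_cast h1
  -- the function
  have hf1 : ∀ u ∈ Set.Icc ζ b, 0 ≤ 1 / (1 - u) ∧ 1 / (1 - u) ≤ 16 := by
    intro u hu
    have h1 : 3 / 8 ≤ 1 - u := by linarith only [hη1, hb, hu, hu.2]
    refine ⟨by positivity, ?_⟩
    rw [div_le_iff₀ (by linarith only [hη, hη1, h1])]
    linarith only [hη, hη1, h1]
  have hf2 : ∀ u ∈ Set.Icc ζ b, ∀ v ∈ Set.Icc ζ b, |1 / (1 - u) - 1 / (1 - v)| ≤ 16 * |u - v| := by
    intro u hu v hv
    have h1 : 3 / 8 ≤ 1 - u := by linarith only [hη1, hb, hu, hu.2]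
    have h2 : 3 / 8 ≤ 1 - v := by linarith only [hη1, hb, hv, hv.2]
    have h3 : 1 / (1 - u) - 1 / (1 - v) = (u - v) / ((1 - u) * (1 - v)) := by
      rw [div_sub_div _ _ (by linarith only [hη, hη1, h1]) (by linarith only [hη, hη1, h2])]
      congr 1
      ring
    have h4 : 9 / 64 ≤ (1 - u) * (1 - v) := by nlinarith only [h1, h2, hη, hη1]
    rw [h3, abs_div, abs_of_pos (by linarith only [hη, hη1, h4] : (0 : ℝ) < (1 - u) * (1 - v)), div_le_iff₀ (by linarith only [hη, hη1, h4])]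
    nlinarith only [hη, hη1, h4, abs_nonneg (u - v)]
  have hmain := hN1 N hNN1 ζ b (fun u => 1 / (1 - u)) hζ.le (by linarith only [hζ2, hη, hη1, hb]) (by linarith only [hη, hη1, hb]) hf1 hf2
  have hnum := ZSum2_num ζ ε η hζ hζ2 hη hη1 hη2
  -- the range of the primes
  have hrange : ∀ p : ℕ, p.Prime → (N : ℝ) ^ ζ < p → (p : ℝ) ≤ (N : ℝ) ^ b →
      Real.log p / L ∈ Set.Icc ζ b := by
    intro p hp h1 h2
    have hp0 : (0 : ℝ) < p := by exact_mod_cast hp.pos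
    have h3 := Real.log_le_log (Real.rpow_pos_of_pos hN0 ζ) h1.le
    rw [Real.log_rpow hN0] at h3
    have h4 := Real.log_le_log hp0 h2
    rw [Real.log_rpow hN0] at h4
    exact ⟨by rw [le_div_iff₀ hLpos]; exact h3, by rw [div_le_iff₀ hLpos]; exact h4⟩
  have hsub : ∀ p : ℕ, p ^ 2 ≤ 16 * N → (p : ℝ) ≤ (N : ℝ) ^ b := by
    intro p hp
    have h1 : (p : ℝ) ^ 2 ≤ 16 * N := by exact_mod_cast hp
    have h2 : (p : ℝ) ≤ 4 * (N : ℝ) ^ (1 / 2 : ℝ) := by
      rw [← Real.sqrt_eq_rpow]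
      have h4 : Real.sqrt (16 * N) = 4 * Real.sqrt N := by
        rw [Real.sqrt_mul (by norm_num)]
        rw [show (16 : ℝ) = 4 ^ 2 by norm_num, Real.sqrt_sq (by norm_num)]
      rw [← h4]
      exact Real.le_sqrt_of_sq_le h1
    have h3 : (4 : ℝ) ≤ (N : ℝ) ^ η := by
      rw [← Real.log_le_log_iff (by norm_num) (Real.rpow_pos_of_pos hN0 η), Real.log_rpow hN0]
      have h4 : Real.log 4 ≤ 4 - 1 := Real.log_le_sub_one_of_pos (by norm_num)
      linarith only [hη, hη1, hηL, h4]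
    rw [hb, Real.rpow_add hN0]
    calc (p : ℝ) ≤ 4 * (N : ℝ) ^ (1 / 2 : ℝ) := h2
      _ ≤ (N : ℝ) ^ η * (N : ℝ) ^ (1 / 2 : ℝ) :=
        mul_le_mul_of_nonneg_right h3 (Real.rpow_nonneg hN0.le _)
      _ = (N : ℝ) ^ (1 / 2 : ℝ) * (N : ℝ) ^ η := mul_comm _ _
  have hterm : ∀ p ∈ (Icc 1 (16 * N)).filter (fun p : ℕ => p.Prime ∧ (N : ℝ) ^ ζ < p ∧ p ^ 2 ≤ 16 * N),
      1 / (p * Real.log ((x : ℝ) / p)) ≤
        1 / (1 - η) / L * ((fun u : ℝ => 1 / (1 - u)) (Real.log p / L) / p) := by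
    intro p hp
    obtain ⟨-, hpp, h1, h2⟩ := Finset.mem_filter.1 hp
    have hp0 : (0 : ℝ) < p := by exact_mod_cast hpp.pos
    obtain ⟨h3, h4⟩ := hrange p hpp h1 (hsub p h2)
    have hu : 3 / 8 ≤ 1 - Real.log p / L := by linarith only [hη1, hb, h4]
    have hx8 : (N : ℝ) ≤ 8 * x := by exact_mod_cast hx1
    have h5 : (N : ℝ) / (8 * p) ≤ x / p := by
      rw [div_le_div_iff₀ (by positivity) hp0]
      nlinarith only [hx8]
    have h6 : L - Real.log 8 - Real.log p ≤ Real.log ((x : ℝ) / p) := by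
      have h7 := Real.log_le_log (by positivity) h5
      rw [Real.log_div hN0.ne' (by positivity), Real.log_mul (by norm_num) hp0.ne'] at h7
      linarith only [h7]
    have h8 : Real.log 8 ≤ 3 := by
      have h9 : Real.log 8 = 3 * Real.log 2 := by
        rw [show (8 : ℝ) = 2 ^ (3 : ℕ) by norm_num, Real.log_pow]
        norm_num
      have h10 : Real.log 2 ≤ 2 - 1 := Real.log_le_sub_one_of_pos (by norm_num)
      linarith only [h9, h10]
    have h9 : (1 - η) * (L * (1 - Real.log p / L)) ≤ Real.log ((x : ℝ) / p) := by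
      have h10 : L * (1 - Real.log p / L) = L - Real.log p := by
        field_simp
      have h11 : 3 ≤ η * (L * (1 - Real.log p / L)) := by nlinarith only [hη1, hηL, hb, h4, hη]
      nlinarith only [h6, h8, h10, h11]
    have h12 : 0 < (1 - η) * (L * (1 - Real.log p / L)) := by
      have h13 : (0 : ℝ) < 1 - η := by linarith only [hη, hη1]
      have h14 : 0 < 1 - Real.log p / L := by linarith only [hη, hη1, hb, h4]
      positivity
    calc 1 / (p * Real.log ((x : ℝ) / p)) ≤ 1 / (p * ((1 - η) * (L * (1 - Real.log p / L)))) :=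
          one_div_le_one_div_of_le (by positivity) (mul_le_mul_of_nonneg_left h9 hp0.le)
      _ = 1 / (1 - η) / L * ((fun u : ℝ => 1 / (1 - u)) (Real.log p / L) / p) := by
        have h13 : (1 - η : ℝ) ≠ 0 := by linarith only [hη, hη1]
        have h14 : 1 - Real.log p / L ≠ 0 := by linarith only [hη, hη1, hb, h4]
        simp only [mul_inv, div_eq_mul_inv]
        ring
  calc ∑ p ∈ (Icc 1 (16 * N)).filter (fun p : ℕ => p.Prime ∧ (N : ℝ) ^ ζ < p ∧ p ^ 2 ≤ 16 * N),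
        1 / (p * Real.log ((x : ℝ) / p))
      ≤ ∑ p ∈ (Icc 1 (16 * N)).filter (fun p : ℕ => p.Prime ∧ (N : ℝ) ^ ζ < p ∧ p ^ 2 ≤ 16 * N),
        1 / (1 - η) / L * ((fun u : ℝ => 1 / (1 - u)) (Real.log p / L) / p) :=
        Finset.sum_le_sum hterm
    _ ≤ ∑ p ∈ (Icc 1 N).filter (fun p : ℕ => p.Prime ∧ (N : ℝ) ^ ζ < p ∧ (p : ℝ) ≤ (N : ℝ) ^ b),
        1 / (1 - η) / L * ((fun u : ℝ => 1 / (1 - u)) (Real.log p / L) / p) := by
        refine Finset.sum_le_sum_of_subset_of_nonneg ?_ ?_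
        · intro p hp
          obtain ⟨h1, hpp, h2, h3⟩ := Finset.mem_filter.1 hp
          have h4 := hsub p h3
          have h5 : (p : ℝ) ≤ N := by
            refine h4.trans ?_
            have h6 := Real.rpow_le_rpow_of_exponent_le hN1' (by linarith only [hη, hη1, hb] : b ≤ 1)
            rwa [Real.rpow_one] at h6
          exact Finset.mem_filter.2 ⟨Finset.mem_Icc.2 ⟨hpp.one_lt.le, by exact_mod_cast h5⟩,
            hpp, h2, h4⟩
        · intro p hp _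
          obtain ⟨h1, hpp, h2, h3⟩ := Finset.mem_filter.1 hp
          have h4 := (hf1 _ (hrange p hpp h2 h3)).1
          have h5 : (0 : ℝ) < 1 - η := by linarith only [hη, hη1]
          have hp0 : (0 : ℝ) < p := by exact_mod_cast hpp.pos
          exact mul_nonneg (by positivity) (div_nonneg h4 hp0.le)
    _ = 1 / (1 - η) / L * ∑ p ∈ (Icc 1 N).filter (fun p : ℕ => p.Prime ∧ (N : ℝ) ^ ζ < p ∧ (p : ℝ) ≤ (N : ℝ) ^ b),
        (fun u : ℝ => 1 / (1 - u)) (Real.log p / L) / p := by rw [Finset.mul_sum]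
    _ ≤ 1 / (1 - η) / L * ((∫ u in ζ..b, (1 / (1 - u)) / u) + η) := by
        refine mul_le_mul_of_nonneg_left hmain ?_
        have h5 : (0 : ℝ) < 1 - η := by linarith only [hη, hη1]
        positivity
    _ = (1 / (1 - η) * ((∫ u in ζ..b, (1 / (1 - u)) / u) + η)) / L := by ring
    _ ≤ (Z2 ζ + ε) / L := div_le_div_of_nonneg_right hnum hLpos.le

end Pool.Agent.H76.TP

end

section

/-!
# TP ZSum3: the main term of `E_3`

`N/8 ≤ x ≤ 8N`; `p ≤ q` primes, `N^ζ < p`, `p³ ≤ 16N`, `p q² ≤ 16N`; `u = log p/L`, `v = log q/L`, `η` small: `u ≤ v ≤ (1-u)/2 + η`, `u ≤ 1/3 + η`, `log(x/(pq)) ≥ L(1-u-v) - log 8 ≥ (1-η) L (1-u-v)`.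
Inner sum over `q`: `mert_r` with `a = u - η`, `b = (1-u)/2 + η`, `f v = 1/(1-u-v)` (`M = 20`): `≤ I(u) + η`, `I(u) = ∫_a^b dv/(v(1-u-v)) = (1/(1-u)) [log(v/(1-u-v))]_a^b ≤ (1/(1-u)) log((1-2u)/u) + C η` for `u ≤ 1/3`,
and `≤ C η` for `1/3 < u ≤ 1/3 + η` (`[.. ] ` is `log(((1-u)/2+η)/((1-u)/2-η)) + log((1-2u+η)/(u-η))`).
Outer sum: `mert_r` with `a = ζ`, `b = 1/3`, `f u = (1/(1-u)) log((1-2u)/u)` (nonnegative, Lipschitz with constant 30 on `[1/4, 1/3]`), plus `C η ∑_{N^ζ < p ≤ N^(1/3+η)} 1/p ≤ C' η` (`mert_r` with `f = 1`):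
total `≤ (1-η)^(-1)(1/L)(Z3 ζ + C'' η)`.
-/

set_option autoImplicit false

namespace Pool.Agent.H76.TP

open Finset MeasureTheory

private theorem ZSum3_log_lip {a b c : ℝ} (hc : 0 < c) (ha : c ≤ a) (hb : c ≤ b) :
    |Real.log a - Real.log b| ≤ |a - b| / c := by
  have key : ∀ s t : ℝ, c ≤ s → c ≤ t → Real.log s - Real.log t ≤ |s - t| / c := by
    intro s t hs ht
    have hs0 : 0 < s := hc.trans_le hs
    have ht0 : 0 < t := hc.trans_le ht
    rw [← Real.log_div hs0.ne' ht0.ne']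
    have h1 : Real.log (s / t) ≤ s / t - 1 := Real.log_le_sub_one_of_pos (div_pos hs0 ht0)
    have h2 : s / t - 1 = (s - t) / t := by
      field_simp
    have h3 : (s - t) / t ≤ |s - t| / t := div_le_div_of_nonneg_right (le_abs_self _) ht0.le
    have h4 : |s - t| / t ≤ |s - t| / c := div_le_div_of_nonneg_left (abs_nonneg _) hc ht
    linarith only [h1, h2, h3, h4]
  rw [abs_le]
  constructor
  · have := key b a hb ha
    rw [abs_sub_comm] at this
    linarith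
  · exact key a b ha hb

/-- `max (log ((1-2u)/u)) 0 / (1-u)` -/
private noncomputable def ZSum3_h (u : ℝ) : ℝ := max (Real.log ((1 - 2 * u) / u)) 0 / (1 - u)

private theorem ZSum3_max_bd {u : ℝ} (hu : 1 / 4 ≤ u) (hu2 : u ≤ 7 / 20) :
    0 ≤ max (Real.log ((1 - 2 * u) / u)) 0 ∧ max (Real.log ((1 - 2 * u) / u)) 0 ≤ 1 := by
  refine ⟨le_max_right _ _, max_le ?_ zero_le_one⟩
  have hu0 : 0 < u := by linarith only [hu]
  have h1 : (1 - 2 * u) / u ≤ 2 := by
    rw [div_le_iff₀ hu0]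
    linarith only [hu]
  have h0 : 0 < (1 - 2 * u) / u := div_pos (by linarith only [hu2, hu0]) hu0
  have h2 : Real.log ((1 - 2 * u) / u) ≤ (1 - 2 * u) / u - 1 := Real.log_le_sub_one_of_pos h0
  linarith only [h1, h2]

private theorem ZSum3_h_bd {u : ℝ} (hu : 1 / 4 ≤ u) (hu2 : u ≤ 7 / 20) :
    0 ≤ ZSum3_h u ∧ ZSum3_h u ≤ 2 := by
  obtain ⟨h1, h2⟩ := ZSum3_max_bd hu hu2
  have h3 : 0 < 1 - u := by linarith only [hu2]
  unfold ZSum3_h
  refine ⟨div_nonneg h1 h3.le, ?_⟩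
  rw [div_le_iff₀ h3]
  nlinarith only [hu2, h2, h3]

private theorem ZSum3_h_lip {u v : ℝ} (hu : 1 / 4 ≤ u) (hu2 : u ≤ 7 / 20) (hv : 1 / 4 ≤ v)
    (hv2 : v ≤ 7 / 20) : |ZSum3_h u - ZSum3_h v| ≤ 26 * |u - v| := by
  have hu0 : 0 < u := by linarith only [hu]
  have hv0 : 0 < v := by linarith only [hv]
  have hu1 : (0 : ℝ) < 1 - u := by linarith only [hu2, hu0]
  have hv1 : (0 : ℝ) < 1 - v := by linarith only [hu2, hv2, hu0]
  have hlu : Real.log ((1 - 2 * u) / u) = Real.log (1 - 2 * u) - Real.log u :=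
    Real.log_div (by linarith only [hu2, hu0]) hu0.ne'
  have hlv : Real.log ((1 - 2 * v) / v) = Real.log (1 - 2 * v) - Real.log v :=
    Real.log_div (by linarith only [hu2, hv2, hu0]) hv0.ne'
  have h1 : |Real.log (1 - 2 * u) - Real.log (1 - 2 * v)| ≤ |(1 - 2 * u) - (1 - 2 * v)| / (3 / 10) :=
    ZSum3_log_lip (by norm_num) (by linarith only [hu2]) (by linarith only [hv2])
  have h1' : |(1 - 2 * u) - (1 - 2 * v)| = 2 * |u - v| := by
    rw [show (1 - 2 * u) - (1 - 2 * v) = -(2 * (u - v)) by ring, abs_neg, abs_mul]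
    norm_num
  have h2 : |Real.log u - Real.log v| ≤ |u - v| / (1 / 4) :=
    ZSum3_log_lip (by norm_num) hu hv
  have h3 : |Real.log ((1 - 2 * u) / u) - Real.log ((1 - 2 * v) / v)| ≤ 11 * |u - v| := by
    rw [hlu, hlv]
    have h4 : Real.log (1 - 2 * u) - Real.log u - (Real.log (1 - 2 * v) - Real.log v) =
        (Real.log (1 - 2 * u) - Real.log (1 - 2 * v)) - (Real.log u - Real.log v) := by ring
    rw [h4]
    have h5 := abs_sub (Real.log (1 - 2 * u) - Real.log (1 - 2 * v)) (Real.log u - Real.log v)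
    have h6 : 0 ≤ |u - v| := abs_nonneg _
    rw [h1'] at h1
    linarith only [h1, h2, h5, h6]
  have h7 : |max (Real.log ((1 - 2 * u) / u)) 0 - max (Real.log ((1 - 2 * v) / v)) 0| ≤
      11 * |u - v| := by
    refine (abs_max_sub_max_le_abs _ _ _).trans h3
  obtain ⟨hm1, hm2⟩ := ZSum3_max_bd hv hv2
  unfold ZSum3_h
  have h8 : max (Real.log ((1 - 2 * u) / u)) 0 / (1 - u) - max (Real.log ((1 - 2 * v) / v)) 0 / (1 - v)
      = (max (Real.log ((1 - 2 * u) / u)) 0 - max (Real.log ((1 - 2 * v) / v)) 0) / (1 - u)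
        + max (Real.log ((1 - 2 * v) / v)) 0 * ((u - v) / ((1 - u) * (1 - v))) := by
    field_simp
    ring
  rw [h8]
  have h9 : |(max (Real.log ((1 - 2 * u) / u)) 0 - max (Real.log ((1 - 2 * v) / v)) 0) / (1 - u)| ≤
      22 * |u - v| := by
    rw [abs_div, abs_of_pos hu1, div_le_iff₀ hu1]
    have : 0 ≤ |u - v| := abs_nonneg _
    nlinarith only [h7, this, hu2]
  have h10 : |max (Real.log ((1 - 2 * v) / v)) 0 * ((u - v) / ((1 - u) * (1 - v)))| ≤ 4 * |u - v| := by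
    rw [abs_mul, abs_of_nonneg hm1, abs_div, abs_of_pos (mul_pos hu1 hv1)]
    have h11 : |u - v| / ((1 - u) * (1 - v)) ≤ 4 * |u - v| := by
      rw [div_le_iff₀ (mul_pos hu1 hv1)]
      have h12 : (1 : ℝ) ≤ 4 * ((1 - u) * (1 - v)) := by nlinarith only [hu2, hv2, hu0, hu, hv]
      have : 0 ≤ |u - v| := abs_nonneg _
      nlinarith only [h12, this]
    have h13 : 0 ≤ |u - v| / ((1 - u) * (1 - v)) := div_nonneg (abs_nonneg _) (mul_pos hu1 hv1).le
    calc max (Real.log ((1 - 2 * v) / v)) 0 * (|u - v| / ((1 - u) * (1 - v)))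
        ≤ 1 * (|u - v| / ((1 - u) * (1 - v))) := mul_le_mul_of_nonneg_right hm2 h13
      _ ≤ 4 * |u - v| := by rw [one_mul]; exact h11
  have h14 := abs_add_le ((max (Real.log ((1 - 2 * u) / u)) 0 -
    max (Real.log ((1 - 2 * v) / v)) 0) / (1 - u))
    (max (Real.log ((1 - 2 * v) / v)) 0 * ((u - v) / ((1 - u) * (1 - v))))
  linarith only [h9, h10, h14]

/-- the inner integral -/
private theorem ZSum3_int {u η : ℝ} (hu : 1 / 4 < u) (hu2 : u ≤ 1 / 3 + η) (hη : 0 < η)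
    (hη2 : η ≤ 1 / 100) :
    (∫ v in (u - η)..((1 - u) / 2 + η), (1 / (1 - u - v)) / v) ≤ ZSum3_h u + 34 * η := by
  have hu1 : (0 : ℝ) < 1 - u := by linarith only [hu2, hη, hη2]
  have hab : u - η ≤ (1 - u) / 2 + η := by linarith only [hu2, hη]
  have hI : ∀ v ∈ Set.uIcc (u - η) ((1 - u) / 2 + η), 0 < v ∧ 0 < 1 - u - v := by
    intro v hv
    rw [Set.uIcc_of_le hab] at hv
    constructor
    · linarith only [hu, hη, hη2, hv, hv.1]
    · linarith only [hu2, hη, hη2, hv, hv.2]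
  have hderiv : ∀ v ∈ Set.uIcc (u - η) ((1 - u) / 2 + η),
      HasDerivAt (fun v => (Real.log v - Real.log (1 - u - v)) / (1 - u))
        ((1 / (1 - u - v)) / v) v := by
    intro v hv
    obtain ⟨h1, h2⟩ := hI v hv
    have h3 : HasDerivAt (fun v => Real.log v) v⁻¹ v := Real.hasDerivAt_log h1.ne'
    have h4 : HasDerivAt (fun v => 1 - u - v) (-1) v := by
      simpa using (hasDerivAt_id v).const_sub (1 - u)
    have h5 : HasDerivAt (fun v => Real.log (1 - u - v)) (-1 / (1 - u - v)) v := h4.log h2.ne'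
    have h6 := (h3.sub h5).div_const (1 - u)
    have h7 : (v⁻¹ - -1 / (1 - u - v)) / (1 - u) = (1 / (1 - u - v)) / v := by
      field_simp
      ring
    rw [h7] at h6
    exact h6
  have hcont : ContinuousOn (fun v => (1 / (1 - u - v)) / v)
      (Set.uIcc (u - η) ((1 - u) / 2 + η)) := by
    refine ContinuousOn.div (ContinuousOn.div continuousOn_const
      (continuousOn_const.sub continuousOn_id) ?_) continuousOn_id ?_
    · intro v hv
      exact (hI v hv).2.ne'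
    · intro v hv
      exact (hI v hv).1.ne'
  rw [intervalIntegral.integral_eq_sub_of_hasDerivAt hderiv hcont.intervalIntegrable]
  have e1 : 1 - u - ((1 - u) / 2 + η) = (1 - u) / 2 - η := by ring
  have e2 : 1 - u - (u - η) = 1 - 2 * u + η := by ring
  rw [e1, e2]
  have h1 : |Real.log ((1 - u) / 2 + η) - Real.log ((1 - u) / 2 - η)| ≤
      |((1 - u) / 2 + η) - ((1 - u) / 2 - η)| / (1 / 4) :=
    ZSum3_log_lip (by norm_num) (by linarith only [hu2, hη, hη2]) (by linarith only [hu2, hη, hη2])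
  have h1' : |((1 - u) / 2 + η) - ((1 - u) / 2 - η)| = 2 * η := by
    rw [show ((1 - u) / 2 + η) - ((1 - u) / 2 - η) = 2 * η by ring, abs_of_pos (by linarith only [hη])]
  have h2 : |Real.log (1 - 2 * u + η) - Real.log (1 - 2 * u)| ≤
      |(1 - 2 * u + η) - (1 - 2 * u)| / (1 / 4) :=
    ZSum3_log_lip (by norm_num) (by linarith only [hu2, hη, hη2]) (by linarith only [hu2, hη, hη2])
  have h2' : |(1 - 2 * u + η) - (1 - 2 * u)| = η := by
    rw [show (1 - 2 * u + η) - (1 - 2 * u) = η by ring, abs_of_pos hη]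
  have h3 : |Real.log u - Real.log (u - η)| ≤ |u - (u - η)| / (1 / 5) :=
    ZSum3_log_lip (by norm_num) (by linarith only [hu, hη, hη2]) (by linarith only [hu, hη, hη2])
  have h3' : |u - (u - η)| = η := by
    rw [show u - (u - η) = η by ring, abs_of_pos hη]
  rw [h1'] at h1
  rw [h2'] at h2
  rw [h3'] at h3
  have h4 := (abs_le.1 h1).2
  have h5 := (abs_le.1 h2).2
  have h6 := (abs_le.1 h3).2
  have h7 : Real.log ((1 - 2 * u) / u) = Real.log (1 - 2 * u) - Real.log u :=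
    Real.log_div (by linarith only [hu2, hη, hη2]) (by linarith only [hu, hη, hη2])
  have h8 : Real.log ((1 - 2 * u) / u) ≤ max (Real.log ((1 - 2 * u) / u)) 0 := le_max_left _ _
  unfold ZSum3_h
  rw [← sub_div, div_add' _ _ _ hu1.ne', div_le_div_iff_of_pos_right hu1]
  nlinarith only [h4, h5, h6, h7, h8, hu2, hη, hη2]

/-- the outer integral -/
private theorem ZSum3_outer {ζ η : ℝ} (hζ : 1 / 4 < ζ) (hζ2 : ζ < 1 / 3) (hη : 0 < η)
    (hη2 : η ≤ 1 / 100) :
    (∫ u in ζ..(1 / 3 + η), (ZSum3_h u + 35 * η) / u) ≤ Z3 ζ + 70 * η := by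
  have hmem : ∀ u ∈ Set.Icc ζ (1 / 3 + η), 1 / 4 < u ∧ u ≤ 7 / 20 := by
    intro u hu
    exact ⟨by linarith only [hζ, hu, hu.1], by linarith only [hη, hη2, hu, hu.2]⟩
  have hu0' : ∀ u ∈ Set.Icc ζ (1 / 3 + η), u ≠ 0 := fun u hu => by
    have := (hmem u hu).1
    exact (by linarith only [hη, hη2, this] : (0 : ℝ) < u).ne'
  have hu1' : ∀ u ∈ Set.Icc ζ (1 / 3 + η), 1 - u ≠ 0 := fun u hu => by
    have := (hmem u hu).2
    exact (by linarith only [hη, hη2, this] : (0 : ℝ) < 1 - u).ne'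
  have hu2' : ∀ u ∈ Set.Icc ζ (1 / 3 + η), (1 - 2 * u) / u ≠ 0 := fun u hu => by
    have h1 := (hmem u hu).1
    have h2 := (hmem u hu).2
    exact (div_pos (by linarith only [hη, hη2, h2]) (by linarith only [hη, hη2, h1]) : (0 : ℝ) < (1 - 2 * u) / u).ne'
  have hcid : ContinuousOn (fun u : ℝ => u) (Set.Icc ζ (1 / 3 + η)) := continuousOn_id
  have hc1 : ContinuousOn (fun u : ℝ => (1 - 2 * u) / u) (Set.Icc ζ (1 / 3 + η)) :=
    (continuousOn_const.sub (continuousOn_const.mul hcid)).div hcid hu0'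
  have hc2 : ContinuousOn (fun u : ℝ => Real.log ((1 - 2 * u) / u)) (Set.Icc ζ (1 / 3 + η)) :=
    hc1.log hu2'
  have hc3 : ContinuousOn (fun u : ℝ => max (Real.log ((1 - 2 * u) / u)) 0)
      (Set.Icc ζ (1 / 3 + η)) :=
    (continuous_id.max continuous_const).comp_continuousOn hc2
  have hch : ContinuousOn (fun u => ZSum3_h u / u) (Set.Icc ζ (1 / 3 + η)) := by
    unfold ZSum3_h
    exact (hc3.div (continuousOn_const.sub hcid) hu1').div hcid hu0'
  have hce : ContinuousOn (fun u => 35 * η / u) (Set.Icc ζ (1 / 3 + η)) := by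
    exact continuousOn_const.div hcid hu0'
  have hle : ζ ≤ 1 / 3 + η := by linarith only [hζ2, hη]
  have hi1 : IntervalIntegrable (fun u => ZSum3_h u / u) volume ζ (1 / 3 + η) := by
    apply ContinuousOn.intervalIntegrable
    rw [Set.uIcc_of_le hle]
    exact hch
  have hi2 : IntervalIntegrable (fun u => 35 * η / u) volume ζ (1 / 3 + η) := by
    apply ContinuousOn.intervalIntegrable
    rw [Set.uIcc_of_le hle]
    exact hce
  have hsplit : (∫ u in ζ..(1 / 3 + η), (ZSum3_h u + 35 * η) / u) =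
      (∫ u in ζ..(1 / 3 + η), ZSum3_h u / u) + ∫ u in ζ..(1 / 3 + η), 35 * η / u := by
    rw [← intervalIntegral.integral_add hi1 hi2]
    refine intervalIntegral.integral_congr fun u _ => ?_
    exact add_div _ _ _
  have hA : IntervalIntegrable (fun u => ZSum3_h u / u) volume ζ (1 / 3) := by
    apply ContinuousOn.intervalIntegrable
    rw [Set.uIcc_of_le hζ2.le]
    exact hch.mono (Set.Icc_subset_Icc_right (by linarith only [hη]))
  have hB : IntervalIntegrable (fun u => ZSum3_h u / u) volume (1 / 3) (1 / 3 + η) := by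
    apply ContinuousOn.intervalIntegrable
    rw [Set.uIcc_of_le (by linarith only [hη] : (1 : ℝ) / 3 ≤ 1 / 3 + η)]
    exact hch.mono (Set.Icc_subset_Icc_left hζ2.le)
  have h1 : (∫ u in ζ..(1 / 3 + η), ZSum3_h u / u) = Z3 ζ := by
    rw [← intervalIntegral.integral_add_adjacent_intervals hA hB]
    have h2 : (∫ u in (1 / 3 : ℝ)..(1 / 3 + η), ZSum3_h u / u) = 0 := by
      rw [intervalIntegral.integral_congr (g := fun _ => (0 : ℝ))]
      · simp
      · intro u hu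
        rw [Set.uIcc_of_le (by linarith only [hη] : (1 : ℝ) / 3 ≤ 1 / 3 + η)] at hu
        have hu0 : (0 : ℝ) < u := by linarith only [hη, hη2, hu, hu.1]
        have h3 : Real.log ((1 - 2 * u) / u) ≤ 0 := by
          apply Real.log_nonpos
          · exact div_nonneg (by linarith only [hη, hη2, hu, hu.2]) hu0.le
          · rw [div_le_one hu0]
            linarith only [hu, hu.1]
        simp only [ZSum3_h]
        rw [max_eq_right h3, zero_div, zero_div]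
    rw [h2, add_zero]
    unfold Z3
    refine intervalIntegral.integral_congr fun u hu => ?_
    rw [Set.uIcc_of_le hζ2.le] at hu
    have hu0 : (0 : ℝ) < u := by linarith only [hζ, hη, hη2, hu, hu.1]
    have h3 : 0 ≤ Real.log ((1 - 2 * u) / u) := by
      apply Real.log_nonneg
      rw [le_div_iff₀ hu0]
      linarith only [hu, hu.2]
    simp only [ZSum3_h]
    rw [max_eq_left h3, div_div, mul_comm (1 - u) u]
  have h4 : (∫ u in ζ..(1 / 3 + η), 35 * η / u) ≤ 70 * η := by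
    have h5 : (∫ u in ζ..(1 / 3 + η), 35 * η / u) ≤ ∫ _u in ζ..(1 / 3 + η), 140 * η := by
      refine intervalIntegral.integral_mono_on hle hi2 intervalIntegrable_const ?_
      intro u hu
      have hu0 : (0 : ℝ) < u := by linarith only [hζ, hη, hη2, hu, hu.1]
      rw [div_le_iff₀ hu0]
      nlinarith only [hζ, hη, hζ2, hu, hu.1]
    rw [intervalIntegral.integral_const, smul_eq_mul] at h5
    nlinarith only [hη, h5, hζ, hζ2, hη2]
  rw [hsplit, h1]
  linarith only [h4]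

private theorem ZSum3_rpow_lt {N q : ℕ} {a : ℝ} (hN : (0 : ℝ) < N) (hq : (0 : ℝ) < q) :
    (N : ℝ) ^ a < q ↔ a * Real.log N < Real.log q := by
  rw [Real.rpow_def_of_pos hN, ← Real.lt_log_iff_exp_lt hq, mul_comm]

private theorem ZSum3_le_rpow {N q : ℕ} {a : ℝ} (hN : (0 : ℝ) < N) (hq : (0 : ℝ) < q) :
    (q : ℝ) ≤ (N : ℝ) ^ a ↔ Real.log q ≤ a * Real.log N := by
  rw [Real.rpow_def_of_pos hN, ← Real.log_le_iff_le_exp hq, mul_comm]

private theorem ZSum3_log16 : Real.log 16 ≤ 3 := by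
  have h1 : Real.log 16 = 4 * Real.log 2 := by
    rw [show (16 : ℝ) = 2 ^ (4 : ℕ) by norm_num, Real.log_pow]
    norm_num
  have h2 := Real.log_two_lt_d9
  rw [h1]
  linarith only [h2]

private theorem ZSum3_log8 : Real.log 8 ≤ 3 := by
  have h1 : Real.log 8 = 3 * Real.log 2 := by
    rw [show (8 : ℝ) = 2 ^ (3 : ℕ) by norm_num, Real.log_pow]
    norm_num
  have h2 := Real.log_two_lt_d9
  rw [h1]
  linarith only [h2]

theorem e3sum (ζ ε : ℝ) (hζ : 1 / 4 < ζ) (hζ2 : ζ < 1 / 3) (hε : 0 < ε) : ∃ N0 : ℕ, ∀ N : ℕ, N0 ≤ N → ∀ x : ℕ,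
    N ≤ 8 * x → x ≤ 8 * N →
      ∑ p ∈ (Icc 1 (16 * N)).filter (fun p : ℕ => p.Prime ∧ (N : ℝ) ^ ζ < p ∧ p ^ 3 ≤ 16 * N),
        ∑ q ∈ (Icc p (16 * N)).filter (fun q : ℕ => q.Prime ∧ p * q ^ 2 ≤ 16 * N),
          1 / (p * q * Real.log ((x : ℝ) / (p * q))) ≤ (Z3 ζ + ε) / Real.log N := by
  -- parameters
  obtain ⟨η, hη, hη2, hηε⟩ : ∃ η : ℝ, 0 < η ∧ η ≤ 1 / 100 ∧ η * (71 + |Z3 ζ| + ε) ≤ ε := by
    refine ⟨min (1 / 100) (ε / (71 + |Z3 ζ| + ε)), ?_, min_le_left _ _, ?_⟩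
    · have : 0 < 71 + |Z3 ζ| + ε := by positivity
      exact lt_min (by norm_num) (div_pos hε this)
    · have h0 : 0 < 71 + |Z3 ζ| + ε := by positivity
      calc min (1 / 100) (ε / (71 + |Z3 ζ| + ε)) * (71 + |Z3 ζ| + ε)
          ≤ ε / (71 + |Z3 ζ| + ε) * (71 + |Z3 ζ| + ε) :=
            mul_le_mul_of_nonneg_right (min_le_right _ _) h0.le
        _ = ε := div_mul_cancel₀ _ h0.ne'
  obtain ⟨N1, hN1⟩ := mert_r (1 / 5) 20 η (by norm_num) (by norm_num) hη
  obtain ⟨N2, hN2⟩ := mert_r (1 / 4) 30 η (by norm_num) (by norm_num) hη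
  refine ⟨max (max N1 N2) (max 1 ⌈Real.exp (12 / η)⌉₊), fun N hN x hx1 _ => ?_⟩
  have hNN1 : N1 ≤ N := (le_max_left _ _).trans ((le_max_left _ _).trans hN)
  have hNN2 : N2 ≤ N := (le_max_right _ _).trans ((le_max_left _ _).trans hN)
  have hNpos : 1 ≤ N := (le_max_left _ _).trans ((le_max_right _ _).trans hN)
  have hNexp : Real.exp (12 / η) ≤ N :=
    (Nat.le_ceil _).trans (by exact_mod_cast (le_max_right _ _).trans ((le_max_right _ _).trans hN))
  have hN0 : (0 : ℝ) < N := by exact_mod_cast hNpos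
  have hL : 12 / η ≤ Real.log N := by
    rw [Real.le_log_iff_exp_le hN0]
    exact hNexp
  obtain ⟨L, hLdef⟩ : ∃ L, L = Real.log N := ⟨_, rfl⟩
  rw [← hLdef] at hL
  have hηL : 12 ≤ η * L := by
    rw [div_le_iff₀ hη] at hL
    linarith only [hL]
  have hL0 : 0 < L := by
    by_contra hcon
    have : η * L ≤ 0 := mul_nonpos_of_nonneg_of_nonpos hη.le (not_lt.1 hcon)
    linarith only [hη, hη2, hηL, this]
  have hlog16 := ZSum3_log16
  have hlog8 := ZSum3_log8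
  have h1η : 0 < 1 - η := by linarith only [hη, hη2]
  -- facts about `p`
  have hp : ∀ p ∈ (Icc 1 (16 * N)).filter (fun p : ℕ => p.Prime ∧ (N : ℝ) ^ ζ < p ∧
      p ^ 3 ≤ 16 * N), (0 : ℝ) < p ∧ p.Prime ∧ ζ * L < Real.log p ∧
      Real.log p ≤ (1 / 3 + η) * L := by
    intro p hp
    rw [Finset.mem_filter, Finset.mem_Icc] at hp
    obtain ⟨⟨h1, -⟩, h2, h3, h4⟩ := hp
    have hp0 : (0 : ℝ) < p := by exact_mod_cast h1
    refine ⟨hp0, h2, ?_, ?_⟩
    · rw [hLdef]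
      exact (ZSum3_rpow_lt hN0 hp0).1 h3
    · have h5 : ((p : ℝ)) ^ 3 ≤ 16 * N := by exact_mod_cast h4
      have h6 : Real.log ((p : ℝ) ^ 3) ≤ Real.log (16 * N) :=
        Real.log_le_log (by positivity) h5
      rw [Real.log_pow, Real.log_mul (by norm_num) hN0.ne', ← hLdef] at h6
      push_cast at h6
      linarith only [hη, hη2, hηL, hlog16, h6]
  -- facts about `q`
  have hq : ∀ p ∈ (Icc 1 (16 * N)).filter (fun p : ℕ => p.Prime ∧ (N : ℝ) ^ ζ < p ∧
      p ^ 3 ≤ 16 * N), ∀ q ∈ (Icc p (16 * N)).filter (fun q : ℕ => q.Prime ∧ p * q ^ 2 ≤ 16 * N),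
      (0 : ℝ) < q ∧ q.Prime ∧ Real.log p ≤ Real.log q ∧
      Real.log q ≤ ((1 - Real.log p / L) / 2 + η) * L := by
    intro p hpm q hqm
    obtain ⟨hp0, hpp, -, -⟩ := hp p hpm
    rw [Finset.mem_filter, Finset.mem_Icc] at hqm
    obtain ⟨⟨h1, -⟩, h2, h3⟩ := hqm
    have hpq : (p : ℝ) ≤ q := by exact_mod_cast h1
    have hq0 : (0 : ℝ) < q := hp0.trans_le hpq
    refine ⟨hq0, h2, Real.log_le_log hp0 hpq, ?_⟩
    have h5 : (p : ℝ) * (q : ℝ) ^ 2 ≤ 16 * N := by exact_mod_cast h3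
    have h6 : Real.log ((p : ℝ) * (q : ℝ) ^ 2) ≤ Real.log (16 * N) :=
      Real.log_le_log (by positivity) h5
    rw [Real.log_mul hp0.ne' (by positivity), Real.log_pow, Real.log_mul (by norm_num) hN0.ne',
      ← hLdef] at h6
    push_cast at h6
    have h7 : ((1 - Real.log p / L) / 2 + η) * L = (L - Real.log p) / 2 + η * L := by
      field_simp
    rw [h7]
    linarith only [hη, hη2, hηL, hlog16, h6]
  -- the inner sum
  have hinner : ∀ p ∈ (Icc 1 (16 * N)).filter (fun p : ℕ => p.Prime ∧ (N : ℝ) ^ ζ < p ∧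
      p ^ 3 ≤ 16 * N), ∑ q ∈ (Icc p (16 * N)).filter (fun q : ℕ => q.Prime ∧ p * q ^ 2 ≤ 16 * N),
        1 / (p * q * Real.log ((x : ℝ) / (p * q))) ≤
      1 / ((1 - η) * L) * ((ZSum3_h (Real.log p / L) + 35 * η) / p) := by
    intro p hpm
    obtain ⟨hp0, hpp, hpl, hpu⟩ := hp p hpm
    obtain ⟨u, hu⟩ : ∃ u, u = Real.log p / L := ⟨_, rfl⟩
    have hpu' : Real.log p = u * L := by rw [hu, div_mul_cancel₀ _ hL0.ne']
    have hu1 : ζ < u := by
      rw [hpu'] at hpl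
      exact lt_of_mul_lt_mul_right hpl hL0.le
    have hu2 : u ≤ 1 / 3 + η := by
      rw [hpu'] at hpu
      exact le_of_mul_le_mul_right hpu hL0
    have hu0 : 1 / 4 < u := hζ.trans hu1
    -- Mertens
    have hM := hN1 N hNN1 (u - η) ((1 - u) / 2 + η) (fun v => 1 / (1 - u - v)) (by linarith only [hζ, hη, hη2, hu1])
      (by linarith only [hη, hu2]) (by linarith only [hζ, hη, hη2, hu1]) (by
        intro v hv
        have h1 : 1 / 4 ≤ 1 - u - v := by linarith only [hη, hη2, hu2, hv, hv.2]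
        have h2 : 0 < 1 - u - v := by linarith only [hη, hη2, h1]
        refine ⟨(one_div_pos.2 h2).le, ?_⟩
        show 1 / (1 - u - v) ≤ 20
        rw [div_le_iff₀ h2]
        linarith only [hη, hη2, h1]) (by
        intro v hv w hw
        have h1 : 1 / 4 ≤ 1 - u - v := by linarith only [hη, hη2, hu2, hv, hv.2]
        have h2 : 1 / 4 ≤ 1 - u - w := by linarith only [hη, hη2, hu2, hw, hw.2]
        have h3 : 0 < 1 - u - v := by linarith only [hη, hη2, h1]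
        have h4 : 0 < 1 - u - w := by linarith only [hη, hη2, h2]
        show |1 / (1 - u - v) - 1 / (1 - u - w)| ≤ 20 * |v - w|
        have h5 : 1 / (1 - u - v) - 1 / (1 - u - w) = (v - w) / ((1 - u - v) * (1 - u - w)) := by
          field_simp
          ring
        rw [h5, abs_div, abs_of_pos (mul_pos h3 h4), div_le_iff₀ (mul_pos h3 h4)]
        have h6 : 1 / 16 ≤ (1 - u - v) * (1 - u - w) := by nlinarith only [h1, h2, hη, hη2]
        have h7 : 0 ≤ |v - w| := abs_nonneg _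
        nlinarith only [h7, hη, hη2, h6])
    have hInt := ZSum3_int hu0 hu2 hη hη2
    rw [← hLdef] at hM
    -- termwise bound
    have hterm : ∀ q ∈ (Icc p (16 * N)).filter (fun q : ℕ => q.Prime ∧ p * q ^ 2 ≤ 16 * N),
        1 / (p * q * Real.log ((x : ℝ) / (p * q))) ≤
        1 / ((1 - η) * L) / p * ((1 / (1 - u - Real.log q / L)) / q) := by
      intro q hqm
      obtain ⟨hq0, hqp, hq1, hq2⟩ := hq p hpm q hqm
      rw [← hu] at hq2
      obtain ⟨v, hv⟩ : ∃ v, v = Real.log q / L := ⟨_, rfl⟩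
      have hqv : Real.log q = v * L := by rw [hv, div_mul_cancel₀ _ hL0.ne']
      have hv2 : v ≤ (1 - u) / 2 + η := by
        rw [hqv] at hq2
        exact le_of_mul_le_mul_right hq2 hL0
      rw [← hv]
      have hD : 1 / 4 ≤ 1 - u - v := by linarith only [hη, hη2, hu2, hv2]
      have hD0 : 0 < 1 - u - v := by linarith only [hη, hη2, hu2, hv2]
      have hx0 : (0 : ℝ) < x := by
        have : 0 < x := by omega
        exact_mod_cast this
      have hlx : L - Real.log 8 ≤ Real.log x := by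
        have h1 : (N : ℝ) ≤ 8 * x := by exact_mod_cast hx1
        have h2 := Real.log_le_log hN0 h1
        rw [Real.log_mul (by norm_num) hx0.ne', ← hLdef] at h2
        linarith only [h2]
      have hlog : (1 - η) * L * (1 - u - v) ≤ Real.log ((x : ℝ) / (p * q)) := by
        rw [Real.log_div hx0.ne' (mul_pos hp0 hq0).ne', Real.log_mul hp0.ne' hq0.ne', hpu', hqv]
        have h1 : 3 ≤ η * L * (1 - u - v) := by nlinarith only [hη2, hηL, hζ, hζ2, hη, hpu', hq1, hq2, hqv]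
        have h2 : (1 - η) * L * (1 - u - v) = L * (1 - u - v) - η * L * (1 - u - v) := by ring
        rw [h2]
        linarith only [hlog8, hlx, h1]
      have hpos : 0 < (1 - η) * L * (1 - u - v) := by positivity
      have e : 1 / ((1 - η) * L) / p * ((1 / (1 - u - v)) / q) =
          1 / (p * q * ((1 - η) * L * (1 - u - v))) := by
        field_simp
      rw [e]
      apply one_div_le_one_div_of_le (by positivity)
      exact mul_le_mul_of_nonneg_left hlog (mul_pos hp0 hq0).le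
    calc ∑ q ∈ (Icc p (16 * N)).filter (fun q : ℕ => q.Prime ∧ p * q ^ 2 ≤ 16 * N),
          1 / (p * q * Real.log ((x : ℝ) / (p * q)))
        ≤ ∑ q ∈ (Icc p (16 * N)).filter (fun q : ℕ => q.Prime ∧ p * q ^ 2 ≤ 16 * N),
          1 / ((1 - η) * L) / p * ((1 / (1 - u - Real.log q / L)) / q) := Finset.sum_le_sum hterm
      _ = 1 / ((1 - η) * L) / p *
          ∑ q ∈ (Icc p (16 * N)).filter (fun q : ℕ => q.Prime ∧ p * q ^ 2 ≤ 16 * N),
            (1 / (1 - u - Real.log q / L)) / q := by rw [Finset.mul_sum]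
      _ ≤ 1 / ((1 - η) * L) / p * (ZSum3_h u + 35 * η) := by
          refine mul_le_mul_of_nonneg_left ?_ (by positivity)
          have hsub : (Icc p (16 * N)).filter (fun q : ℕ => q.Prime ∧ p * q ^ 2 ≤ 16 * N) ⊆
              (Icc 1 N).filter (fun q : ℕ => q.Prime ∧ (N : ℝ) ^ (u - η) < q ∧
                (q : ℝ) ≤ (N : ℝ) ^ ((1 - u) / 2 + η)) := by
            intro q hqm
            obtain ⟨hq0, hqp, hq1, hq2⟩ := hq p hpm q hqm
            rw [← hu] at hq2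
            rw [Finset.mem_filter, Finset.mem_Icc]
            have h1 : (q : ℝ) ≤ (N : ℝ) ^ ((1 - u) / 2 + η) := by
              rw [ZSum3_le_rpow hN0 hq0, ← hLdef]
              exact hq2
            refine ⟨⟨hqp.one_lt.le, ?_⟩, hqp, ?_, h1⟩
            · have h2 : (N : ℝ) ^ ((1 - u) / 2 + η) ≤ (N : ℝ) ^ (1 : ℝ) :=
                Real.rpow_le_rpow_of_exponent_le (by exact_mod_cast hNpos) (by linarith only [hζ, hη, hη2, hu1])
              rw [Real.rpow_one] at h2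
              exact_mod_cast h1.trans h2
            · rw [ZSum3_rpow_lt hN0 hq0, ← hLdef]
              have h3 : 0 < η * L := mul_pos hη hL0
              rw [hpu'] at hq1
              nlinarith only [hη, hη2, hηL, hq1]
          have h1 : ∑ q ∈ (Icc p (16 * N)).filter (fun q : ℕ => q.Prime ∧ p * q ^ 2 ≤ 16 * N),
              (1 / (1 - u - Real.log q / L)) / (q : ℝ) ≤
              ∑ q ∈ (Icc 1 N).filter (fun q : ℕ => q.Prime ∧ (N : ℝ) ^ (u - η) < q ∧
                (q : ℝ) ≤ (N : ℝ) ^ ((1 - u) / 2 + η)),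
              (1 / (1 - u - Real.log q / L)) / (q : ℝ) := by
            refine Finset.sum_le_sum_of_subset_of_nonneg hsub ?_
            intro q hqm _
            rw [Finset.mem_filter, Finset.mem_Icc] at hqm
            obtain ⟨⟨h2, -⟩, -, -, h3⟩ := hqm
            have hq0 : (0 : ℝ) < q := by exact_mod_cast h2
            rw [ZSum3_le_rpow hN0 hq0, ← hLdef] at h3
            have h4 : Real.log q / L ≤ (1 - u) / 2 + η := by
              rw [div_le_iff₀ hL0]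
              exact h3
            have h5 : 0 < 1 - u - Real.log q / L := by linarith only [hη, hη2, hu2, h4]
            positivity
          have h2 := h1.trans hM
          linarith only [hM, hInt, h1]
      _ = 1 / ((1 - η) * L) * ((ZSum3_h (Real.log p / L) + 35 * η) / p) := by
          rw [← hu]
          ring
  -- the outer sum
  have hO := hN2 N hNN2 ζ (1 / 3 + η) (fun u => ZSum3_h u + 35 * η) hζ.le (by linarith only [hζ2, hη])
    (by linarith only [hη, hη2]) (by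
      intro u hu
      obtain ⟨h1, h2⟩ := ZSum3_h_bd (u := u) (by linarith only [hζ, hu, hu.1]) (by linarith only [hη, hη2, hu, hu.2])
      exact ⟨by linarith only [hη, h1], by linarith only [hη, hη2, h2]⟩) (by
      intro u hu v hv
      show |ZSum3_h u + 35 * η - (ZSum3_h v + 35 * η)| ≤ 30 * |u - v|
      rw [add_sub_add_right_eq_sub]
      have h1 := ZSum3_h_lip (u := u) (v := v) (by linarith only [hζ, hu, hu.1]) (by linarith only [hη, hη2, hu, hu.2])
        (by linarith only [hζ, hv, hv.1]) (by linarith only [hη, hη2, hv, hv.2])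
      have h2 : 0 ≤ |u - v| := abs_nonneg _
      linarith only [h1, h2])
  rw [← hLdef] at hO
  have hOI := ZSum3_outer hζ hζ2 hη hη2
  rw [← hLdef]
  calc ∑ p ∈ (Icc 1 (16 * N)).filter (fun p : ℕ => p.Prime ∧ (N : ℝ) ^ ζ < p ∧ p ^ 3 ≤ 16 * N),
        ∑ q ∈ (Icc p (16 * N)).filter (fun q : ℕ => q.Prime ∧ p * q ^ 2 ≤ 16 * N),
          1 / (p * q * Real.log ((x : ℝ) / (p * q)))
      ≤ ∑ p ∈ (Icc 1 (16 * N)).filter (fun p : ℕ => p.Prime ∧ (N : ℝ) ^ ζ < p ∧ p ^ 3 ≤ 16 * N),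
        1 / ((1 - η) * L) * ((ZSum3_h (Real.log p / L) + 35 * η) / p) :=
        Finset.sum_le_sum hinner
    _ = 1 / ((1 - η) * L) *
        ∑ p ∈ (Icc 1 (16 * N)).filter (fun p : ℕ => p.Prime ∧ (N : ℝ) ^ ζ < p ∧ p ^ 3 ≤ 16 * N),
          (ZSum3_h (Real.log p / L) + 35 * η) / p := by rw [Finset.mul_sum]
    _ ≤ 1 / ((1 - η) * L) * (Z3 ζ + 71 * η) := by
        refine mul_le_mul_of_nonneg_left ?_ (by positivity)
        have hsub : (Icc 1 (16 * N)).filter (fun p : ℕ => p.Prime ∧ (N : ℝ) ^ ζ < p ∧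
            p ^ 3 ≤ 16 * N) ⊆ (Icc 1 N).filter (fun p : ℕ => p.Prime ∧ (N : ℝ) ^ ζ < p ∧
              (p : ℝ) ≤ (N : ℝ) ^ (1 / 3 + η)) := by
          intro p hpm
          obtain ⟨hp0, hpp, hpl, hpu⟩ := hp p hpm
          rw [Finset.mem_filter, Finset.mem_Icc]
          have h1 : (p : ℝ) ≤ (N : ℝ) ^ (1 / 3 + η) := by
            rw [ZSum3_le_rpow hN0 hp0, ← hLdef]
            exact hpu
          refine ⟨⟨hpp.one_lt.le, ?_⟩, hpp, (Finset.mem_filter.1 hpm).2.2.1, h1⟩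
          have h2 : (N : ℝ) ^ (1 / 3 + η) ≤ (N : ℝ) ^ (1 : ℝ) :=
            Real.rpow_le_rpow_of_exponent_le (by exact_mod_cast hNpos) (by linarith only [hη, hη2])
          rw [Real.rpow_one] at h2
          exact_mod_cast h1.trans h2
        have h1 : ∑ p ∈ (Icc 1 (16 * N)).filter (fun p : ℕ => p.Prime ∧ (N : ℝ) ^ ζ < p ∧
            p ^ 3 ≤ 16 * N), (ZSum3_h (Real.log p / L) + 35 * η) / (p : ℝ) ≤
            ∑ p ∈ (Icc 1 N).filter (fun p : ℕ => p.Prime ∧ (N : ℝ) ^ ζ < p ∧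
              (p : ℝ) ≤ (N : ℝ) ^ (1 / 3 + η)), (ZSum3_h (Real.log p / L) + 35 * η) / (p : ℝ) := by
          refine Finset.sum_le_sum_of_subset_of_nonneg hsub ?_
          intro p hpm _
          rw [Finset.mem_filter, Finset.mem_Icc] at hpm
          obtain ⟨⟨h2, -⟩, -, h3, h4⟩ := hpm
          have hp0 : (0 : ℝ) < p := by exact_mod_cast h2
          rw [ZSum3_rpow_lt hN0 hp0, ← hLdef] at h3
          rw [ZSum3_le_rpow hN0 hp0, ← hLdef] at h4
          have h5 : ζ < Real.log p / L := by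
            rw [lt_div_iff₀ hL0]
            exact h3
          have h6 : Real.log p / L ≤ 1 / 3 + η := by
            rw [div_le_iff₀ hL0]
            exact h4
          have h7 := (ZSum3_h_bd (u := Real.log p / L) (by linarith only [hζ, h5]) (by linarith only [hη, hη2, h6])).1
          positivity
        have h2 := h1.trans hO
        linarith only [hO, hOI, h1]
    _ ≤ (Z3 ζ + ε) / L := by
        rw [div_mul_eq_mul_div, one_mul, div_le_div_iff₀ (by positivity) hL0]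
        have h1 : Z3 ζ ≤ |Z3 ζ| := le_abs_self _
        have h2 : η * Z3 ζ ≤ η * |Z3 ζ| := mul_le_mul_of_nonneg_left h1 hη.le
        have h3 : Z3 ζ + 71 * η ≤ (Z3 ζ + ε) * (1 - η) := by nlinarith only [hηε, h2]
        calc (Z3 ζ + 71 * η) * L ≤ ((Z3 ζ + ε) * (1 - η)) * L :=
              mul_le_mul_of_nonneg_right h3 hL0.le
          _ = (Z3 ζ + ε) * ((1 - η) * L) := by ring

end Pool.Agent.H76.TP

end
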