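import Pool.Agent.H43.PJ.M07
import Pool.Agent.H43.PJ.M43
import Pool.Agent.H43.PJ.M48

/-! The parts of this file: H9.TM.SumC, H9.TM.SumA, H9.TM.SumB, H76.TP.SvEv. -/

section

/-!
# TM SumC: the sum of `E_4`

`a = 111/500`; `p ≤ q ≤ r`, `p q r² ≤ 16 N`, so `(p q r)^4 ≤ (16 N)^3`, `log(x/(pqr)) ≥ (1/4 - η) L`.  `t_i = log(.)/L`, `E = 1 + η` (`16 N ≤ N^E`), `t1 + t2 + 2 t3 ≤ E`.
* `r`: `1 ≤ t3/a`, so `∑_r 1/r ≤ (1/a) ∑_r t3/r ≤ (1/a) ((E - t1 - t2)/2 - t2 + η) + ε` (`lin_m` with `α = 0`, `β = 1` on `[t2 - η, (E - t1 - t2)/2]`, if `t1 + 3 t2 ≤ E`; otherwise the sum is empty).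
* `q`: `1 ≤ t2/a` and `mert_r` with `f(t) = t (E - t1 - 3t)_+` on `[t1 - η, 3/10]`: `∑_q (1/q) (E - t1 - 3 t2)_+ ≤ (1/a) (∫_{t1-η}^{3/10} (E - t1 - 3t)_+ dt + ε) ≤ (1/a) ((E - 4 t1 + 3η)²/6 + ε)` (`t1 ≤ E/4`).
* `p`: the same with `f(t) = t (E + 3η - 4t)²_+`: `(1/a) ((E + 3η - 4a)³/12 + ε)`.
Sum `≤ (1/L) · (4 + ..) · a^(-3) · (1/2)(1/6)(1/12) (0.112 + ..)³ = (4/144) (0.112/0.222)³ = 0.003567`, allowed `0.004`.
-/

set_option autoImplicit false

namespace Pool.Agent.H9.TM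

open Finset MeasureTheory
open Pool.Agent.H76.TP

/-- sums over primes of `g(log p/log N)/p` with the weight `1 ≤ t/a0` -/
private theorem SumC_A (a0 M ε : ℝ) (ha0 : 0 < a0) (hM : 0 < M) (hε : 0 < ε) :
    ∃ N0 : ℕ, ∀ N : ℕ, N0 ≤ N →
      ∀ (s b : ℝ) (g : ℝ → ℝ), a0 ≤ s → s ≤ b → b ≤ 1 → (∀ u ∈ Set.Icc s b, 0 ≤ g u ∧ g u ≤ M) →
        (∀ u ∈ Set.Icc s b, ∀ v ∈ Set.Icc s b, |g u - g v| ≤ M * |u - v|) →
        a0 * ∑ p ∈ PE N s b, g (Real.log p / Real.log N) / p ≤ (∫ u in s..b, g u) + ε := by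
  obtain ⟨N0, hN0⟩ := mert_r a0 (2 * M) ε ha0 (by linarith) hε
  refine ⟨max N0 2, fun N hN s b g hs hsb hb hg hgL => ?_⟩
  have hNN : N0 ≤ N := (le_max_left _ _).trans hN
  have hN2 : 2 ≤ N := (le_max_right _ _).trans hN
  have hN1 : (1 : ℝ) < N := by exact_mod_cast (by omega : 1 < N)
  have hNp : (0 : ℝ) < N := by linarith
  have hL : 0 < Real.log N := Real.log_pos hN1
  have h := hN0 N hNN s b (fun u => u * g u) hs hsb hb (by
      intro u hu
      have h1 := hg u hu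
      have hu0 : 0 ≤ u := by linarith [hu.1]
      have hu1 : u ≤ 1 := by linarith [hu.2]
      refine ⟨mul_nonneg hu0 h1.1, ?_⟩
      have h2 : u * g u ≤ 1 * M := mul_le_mul hu1 h1.2 h1.1 zero_le_one
      show u * g u ≤ 2 * M
      linarith) (by
      intro u hu v hv
      have h1 := hgL u hu v hv
      have h2 := hg v hv
      have hu0 : 0 ≤ u := by linarith [hu.1]
      have hu1 : u ≤ 1 := by linarith [hu.2]
      have e : u * g u - v * g v = u * (g u - g v) + (u - v) * g v := by ring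
      show |u * g u - v * g v| ≤ 2 * M * |u - v|
      rw [e]
      have h3 := abs_add_le (u * (g u - g v)) ((u - v) * g v)
      rw [abs_mul, abs_mul, abs_of_nonneg hu0, abs_of_nonneg h2.1] at h3
      have h4 : u * |g u - g v| ≤ 1 * (M * |u - v|) :=
        mul_le_mul hu1 h1 (abs_nonneg _) zero_le_one
      have h5 : |u - v| * g v ≤ |u - v| * M := mul_le_mul_of_nonneg_left h2.2 (abs_nonneg _)
      linarith)
  have hint : (∫ u in s..b, (fun u => u * g u) u / u) = ∫ u in s..b, g u := by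
    refine intervalIntegral.integral_congr fun u hu => ?_
    rw [Set.uIcc_of_le hsb] at hu
    have hu0 : u ≠ 0 := by
      have := hu.1
      intro h0
      linarith
    show u * g u / u = g u
    field_simp
  rw [hint] at h
  refine le_trans ?_ h
  unfold PE
  rw [mul_sum]
  refine sum_le_sum fun p hp => ?_
  rw [mem_filter] at hp
  obtain ⟨_, hpp, h1, h2⟩ := hp
  have hp0 : (0 : ℝ) < p := by exact_mod_cast hpp.pos
  have hu : Real.log p / Real.log N ∈ Set.Icc s b := by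
    constructor
    · rw [le_div_iff₀ hL, ← Real.log_rpow hNp]
      exact Real.log_le_log (by positivity) h1.le
    · rw [div_le_iff₀ hL, ← Real.log_rpow hNp]
      exact Real.log_le_log hp0 h2
  have h3 := (hg _ hu).1
  show a0 * (g (Real.log p / Real.log N) / p) ≤ Real.log p / Real.log N * g (Real.log p / Real.log N) / p
  rw [← mul_div_assoc]
  refine div_le_div_of_nonneg_right (mul_le_mul_of_nonneg_right ?_ h3) hp0.le
  linarith [hu.1]

private theorem SumC_int1 (s c : ℝ) : (∫ u in s..(c / 3), (c - 3 * u)) = (c - 3 * s) ^ 2 / 6 := by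
  have hd : ∀ u ∈ Set.uIcc s (c / 3), HasDerivAt (fun u : ℝ => -(c - 3 * u) ^ 2 / 6) (c - 3 * u) u := by
    intro u _
    have h1 : HasDerivAt (fun u : ℝ => c - 3 * u) (-(3 * 1)) u :=
      ((hasDerivAt_id u).const_mul 3).const_sub c
    have h2 := ((h1.pow 2).neg).div_const 6
    have e : -(((2 : ℕ) : ℝ) * (c - 3 * u) ^ (2 - 1) * -(3 * 1)) / 6 = c - 3 * u := by
      norm_num
      ring
    rw [e] at h2
    exact h2
  rw [intervalIntegral.integral_eq_sub_of_hasDerivAt hd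
    ((continuous_const.sub (continuous_const.mul continuous_id)).intervalIntegrable _ _)]
  ring

private theorem SumC_int2 (s c d : ℝ) : (∫ u in s..(c / 4), ((c - 4 * u) ^ 2 + d)) =
    (c - 4 * s) ^ 3 / 12 + d * (c / 4 - s) := by
  have hd : ∀ u ∈ Set.uIcc s (c / 4),
      HasDerivAt (fun u : ℝ => -(c - 4 * u) ^ 3 / 12 + d * u) ((c - 4 * u) ^ 2 + d) u := by
    intro u _
    have h1 : HasDerivAt (fun u : ℝ => c - 4 * u) (-(4 * 1)) u :=
      ((hasDerivAt_id u).const_mul 4).const_sub c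
    have h2 := (((h1.pow 3).neg).div_const 12).add ((hasDerivAt_id u).const_mul d)
    have e : -(((3 : ℕ) : ℝ) * (c - 4 * u) ^ (3 - 1) * -(4 * 1)) / 12 + d * 1 = (c - 4 * u) ^ 2 + d := by
      norm_num
      ring
    rw [e] at h2
    exact h2
  rw [intervalIntegral.integral_eq_sub_of_hasDerivAt hd (Continuous.intervalIntegrable (by fun_prop) _ _)]
  ring

private theorem SumC_rpow_lt {N q : ℕ} {a : ℝ} (hN : (0 : ℝ) < N) (hq : (0 : ℝ) < q) :
    (N : ℝ) ^ a < q ↔ a * Real.log N < Real.log q := by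
  rw [Real.rpow_def_of_pos hN, ← Real.lt_log_iff_exp_lt hq, mul_comm]

private theorem SumC_le_rpow {N q : ℕ} {a : ℝ} (hN : (0 : ℝ) < N) (hq : (0 : ℝ) < q) :
    (q : ℝ) ≤ (N : ℝ) ^ a ↔ Real.log q ≤ a * Real.log N := by
  rw [Real.rpow_def_of_pos hN, ← Real.log_le_iff_le_exp hq, mul_comm]

private theorem SumC_log16 : Real.log 16 ≤ 3 := by
  have h1 : Real.log 16 = 4 * Real.log 2 := by
    rw [show (16 : ℝ) = 2 ^ (4 : ℕ) by norm_num, Real.log_pow]
    norm_num
  have h2 := Real.log_two_lt_d9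
  rw [h1]
  linarith

private theorem SumC_log8 : Real.log 8 ≤ 3 := by
  have h1 : Real.log 8 = 3 * Real.log 2 := by
    rw [show (8 : ℝ) = 2 ^ (3 : ℕ) by norm_num, Real.log_pow]
    norm_num
  have h2 := Real.log_two_lt_d9
  rw [h1]
  linarith

/-- the data of a number `N` for which everything holds -/
private structure SumC_ok (N : ℕ) : Prop where
  pos : (0 : ℝ) < N
  big : 30000 ≤ Real.log N
  sum : ∀ (s b : ℝ) (g : ℝ → ℝ), 2219 / 10000 ≤ s → s ≤ b → b ≤ 1 →
    (∀ u ∈ Set.Icc s b, 0 ≤ g u ∧ g u ≤ 10) →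
    (∀ u ∈ Set.Icc s b, ∀ v ∈ Set.Icc s b, |g u - g v| ≤ 10 * |u - v|) →
    2219 / 10000 * ∑ p ∈ PE N s b, g (Real.log p / Real.log N) / p ≤ (∫ u in s..b, g u) + 1 / 1000000

private theorem SumC_ok_ex : ∃ N0 : ℕ, ∀ N : ℕ, N0 ≤ N → SumC_ok N := by
  obtain ⟨N1, hN1⟩ := SumC_A (2219 / 10000) 10 (1 / 1000000) (by norm_num) (by norm_num) (by norm_num)
  refine ⟨max N1 (max 1 ⌈Real.exp 30000⌉₊), fun N hN => ?_⟩
  have h1 : N1 ≤ N := (le_max_left _ _).trans hN
  have h2 : 1 ≤ N := (le_max_left _ _).trans ((le_max_right _ _).trans hN)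
  have h3 : Real.exp 30000 ≤ N :=
    (Nat.le_ceil _).trans (by exact_mod_cast (le_max_right _ _).trans ((le_max_right _ _).trans hN))
  have hN0 : (0 : ℝ) < N := by exact_mod_cast h2
  exact ⟨hN0, (Real.le_log_iff_exp_le hN0).2 h3, hN1 N h1⟩

/-- elements of `PE N s b` in terms of logarithms -/
private theorem SumC_mem {N p : ℕ} {s b : ℝ} (h : SumC_ok N) (hp : p ∈ PE N s b) :
    p.Prime ∧ (0 : ℝ) < p ∧ s < Real.log p / Real.log N ∧ Real.log p / Real.log N ≤ b := by
  have hL : 0 < Real.log N := by linarith [h.big]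
  unfold PE at hp
  rw [mem_filter] at hp
  obtain ⟨_, hpp, h1, h2⟩ := hp
  have hp0 : (0 : ℝ) < p := by exact_mod_cast hpp.pos
  refine ⟨hpp, hp0, ?_, ?_⟩
  · rw [lt_div_iff₀ hL]
    exact (SumC_rpow_lt h.pos hp0).1 h1
  · rw [div_le_iff₀ hL]
    exact (SumC_le_rpow h.pos hp0).1 h2

private theorem SumC_mem' {N p : ℕ} {s b : ℝ} (h : SumC_ok N) (hpp : p.Prime) (hb : b ≤ 1)
    (h1 : s < Real.log p / Real.log N) (h2 : Real.log p / Real.log N ≤ b) : p ∈ PE N s b := by
  have hL : 0 < Real.log N := by linarith [h.big]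
  have hp0 : (0 : ℝ) < p := by exact_mod_cast hpp.pos
  have h3 : (p : ℝ) ≤ (N : ℝ) ^ b := by
    rw [SumC_le_rpow h.pos hp0]
    rwa [div_le_iff₀ hL] at h2
  have h4 : (N : ℝ) ^ s < p := by
    rw [SumC_rpow_lt h.pos hp0]
    rwa [lt_div_iff₀ hL] at h1
  have h5 : p ≤ N := by
    have hN1 : (1 : ℝ) ≤ N := by
      by_contra hcon
      have := Real.log_nonpos h.pos.le (not_le.1 hcon).le
      linarith
    have h6 : (N : ℝ) ^ b ≤ (N : ℝ) ^ (1 : ℝ) := Real.rpow_le_rpow_of_exponent_le hN1 hb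
    rw [Real.rpow_one] at h6
    exact_mod_cast h3.trans h6
  unfold PE
  rw [mem_filter, mem_Icc]
  exact ⟨⟨hpp.one_lt.le, h5⟩, hpp, h4, h3⟩

/-- the innermost sum -/
private noncomputable def SumC_R (N p q : ℕ) : ℝ :=
  ∑ r ∈ (PE N (111 / 500) (3 / 10)).filter (fun r => q ≤ r ∧ p * q * r ^ 2 ≤ 16 * N), (1 : ℝ) / r

/-- facts about `p, q, r` -/
private theorem SumC_pqr {N p q r : ℕ} (h : SumC_ok N) (hp : (0 : ℝ) < p) (hq : (0 : ℝ) < q)
    (hr : r ∈ (PE N (111 / 500) (3 / 10)).filter (fun r => q ≤ r ∧ p * q * r ^ 2 ≤ 16 * N)) :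
    r.Prime ∧ (0 : ℝ) < r ∧ Real.log q / Real.log N ≤ Real.log r / Real.log N ∧
      Real.log p / Real.log N + Real.log q / Real.log N + 2 * (Real.log r / Real.log N) ≤
        10001 / 10000 := by
  have hL : 0 < Real.log N := by linarith [h.big]
  rw [mem_filter] at hr
  obtain ⟨hr1, hr2, hr3⟩ := hr
  obtain ⟨hrp, hr0, -, -⟩ := SumC_mem h hr1
  have hqr : (q : ℝ) ≤ r := by exact_mod_cast hr2
  refine ⟨hrp, hr0, div_le_div_of_nonneg_right (Real.log_le_log hq hqr) hL.le, ?_⟩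
  have h5 : (p : ℝ) * q * (r : ℝ) ^ 2 ≤ 16 * N := by exact_mod_cast hr3
  have h6 : Real.log ((p : ℝ) * q * (r : ℝ) ^ 2) ≤ Real.log (16 * N) :=
    Real.log_le_log (by positivity) h5
  rw [Real.log_mul (by positivity) (by positivity), Real.log_mul hp.ne' hq.ne', Real.log_pow,
    Real.log_mul (by norm_num) h.pos.ne'] at h6
  push_cast at h6
  have h7 : Real.log p / Real.log N + Real.log q / Real.log N + 2 * (Real.log r / Real.log N) =
      (Real.log p + Real.log q + 2 * Real.log r) / Real.log N := by ring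
  rw [h7, div_le_iff₀ hL]
  have := SumC_log16
  linarith [h.big]

private theorem SumC_R_le {N p q : ℕ} (h : SumC_ok N) (hp : p ∈ PE N (111 / 500) (3 / 10))
    (hq : q ∈ PE N (111 / 500) (3 / 10)) :
    (Real.log p / Real.log N + 3 * (Real.log q / Real.log N) ≤ 10001 / 10000 →
      2219 / 10000 * SumC_R N p q ≤
        (1000302 / 1000000 - Real.log p / Real.log N - 3 * (Real.log q / Real.log N)) / 2) ∧
    (10001 / 10000 < Real.log p / Real.log N + 3 * (Real.log q / Real.log N) →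
      SumC_R N p q = 0) := by
  obtain ⟨hpp, hp0, hp1, hp2⟩ := SumC_mem h hp
  obtain ⟨hqp, hq0, hq1, hq2⟩ := SumC_mem h hq
  obtain ⟨t1, ht1⟩ : ∃ t, t = Real.log p / Real.log N := ⟨_, rfl⟩
  obtain ⟨t2, ht2⟩ : ∃ t, t = Real.log q / Real.log N := ⟨_, rfl⟩
  rw [← ht1] at hp1 hp2
  rw [← ht2] at hq1 hq2
  rw [← ht1, ← ht2]
  constructor
  · intro hle
    have hS := h.sum (t2 - 1 / 10000) ((10001 / 10000 - t1 - t2) / 2) (fun _ => 1) (by linarith)
      (by linarith) (by linarith) (fun u _ => ⟨zero_le_one, by norm_num⟩)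
      (fun u _ v _ => by
        show |(1 : ℝ) - 1| ≤ _
        rw [sub_self, abs_zero]
        positivity)
    have hI : (∫ _u in (t2 - 1 / 10000)..((10001 / 10000 - t1 - t2) / 2), (1 : ℝ)) =
        (10001 / 10000 - t1 - t2) / 2 - (t2 - 1 / 10000) := by
      rw [intervalIntegral.integral_const, smul_eq_mul, mul_one]
    rw [hI] at hS
    have hsub : SumC_R N p q ≤ ∑ r ∈ PE N (t2 - 1 / 10000) ((10001 / 10000 - t1 - t2) / 2),
        (fun _ : ℝ => (1 : ℝ)) (Real.log r / Real.log N) / r := by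
      unfold SumC_R
      refine sum_le_sum_of_subset_of_nonneg ?_ fun r _ _ => by positivity
      intro r hr
      obtain ⟨hrp, hr0, h1, h2⟩ := SumC_pqr h hp0 hq0 hr
      rw [← ht2] at h1 h2
      rw [← ht1] at h2
      exact SumC_mem' h hrp (by linarith) (by linarith) (by linarith)
    linarith
  · intro hlt
    unfold SumC_R
    refine sum_eq_zero fun r hr => ?_
    exfalso
    obtain ⟨hrp, hr0, h1, h2⟩ := SumC_pqr h hp0 hq0 hr
    rw [← ht2] at h1 h2
    rw [← ht1] at h2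
    linarith

/-- the middle sum -/
private noncomputable def SumC_Q (N p : ℕ) : ℝ :=
  ∑ q ∈ (PE N (111 / 500) (3 / 10)).filter (fun q => p ≤ q), (1 : ℝ) / q * SumC_R N p q

private theorem SumC_Q_le {N p : ℕ} (h : SumC_ok N) (hp : p ∈ PE N (111 / 500) (3 / 10)) :
    (4 * (Real.log p / Real.log N) ≤ 10001 / 10000 →
      2219 / 10000 * (2219 / 10000 * SumC_Q N p) ≤
        ((1000602 / 1000000 - 4 * (Real.log p / Real.log N)) ^ 2 / 6 + 1 / 1000000) / 2) ∧
    (10001 / 10000 < 4 * (Real.log p / Real.log N) → SumC_Q N p = 0) := by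
  obtain ⟨hpp, hp0, hp1, hp2⟩ := SumC_mem h hp
  have hL : 0 < Real.log N := by linarith [h.big]
  obtain ⟨t1, ht1⟩ : ∃ t, t = Real.log p / Real.log N := ⟨_, rfl⟩
  rw [← ht1] at hp1 hp2
  rw [← ht1]
  have hq : ∀ q ∈ (PE N (111 / 500) (3 / 10)).filter (fun q => p ≤ q),
      q ∈ PE N (111 / 500) (3 / 10) ∧ q.Prime ∧ (0 : ℝ) < q ∧ t1 ≤ Real.log q / Real.log N := by
    intro q hq
    rw [mem_filter] at hq
    obtain ⟨hqp, hq0, -, -⟩ := SumC_mem h hq.1
    refine ⟨hq.1, hqp, hq0, ?_⟩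
    rw [ht1]
    exact div_le_div_of_nonneg_right (Real.log_le_log hp0 (by exact_mod_cast hq.2)) hL.le
  constructor
  · intro hle
    have hS := h.sum (t1 - 1 / 10000) ((1000302 / 1000000 - t1) / 3)
      (fun u => 1000302 / 1000000 - t1 - 3 * u) (by linarith)
      (by linarith) (by linarith) (fun u hu => ⟨by linarith [hu.2], by linarith [hu.1]⟩)
      (fun u _ v _ => by
        show |(1000302 / 1000000 - t1 - 3 * u) - (1000302 / 1000000 - t1 - 3 * v)| ≤ 10 * |u - v|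
        rw [show (1000302 / 1000000 - t1 - 3 * u) - (1000302 / 1000000 - t1 - 3 * v) =
          -(3 * (u - v)) by ring, abs_neg, abs_mul, abs_of_pos (by norm_num : (0 : ℝ) < 3)]
        have := abs_nonneg (u - v)
        linarith)
    rw [SumC_int1] at hS
    have hle2 : 2219 / 10000 * SumC_Q N p ≤
        (∑ q ∈ PE N (t1 - 1 / 10000) ((1000302 / 1000000 - t1) / 3),
          (fun u : ℝ => 1000302 / 1000000 - t1 - 3 * u) (Real.log q / Real.log N) / q) / 2 := by
      unfold SumC_Q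
      rw [mul_sum, sum_div]
      have h1 : ∑ q ∈ (PE N (111 / 500) (3 / 10)).filter (fun q => p ≤ q),
          2219 / 10000 * ((1 : ℝ) / q * SumC_R N p q) ≤
          ∑ q ∈ ((PE N (111 / 500) (3 / 10)).filter (fun q => p ≤ q)).filter
            (fun q : ℕ => t1 + 3 * (Real.log q / Real.log N) ≤ 10001 / 10000),
            (fun u : ℝ => 1000302 / 1000000 - t1 - 3 * u) (Real.log q / Real.log N) / (q : ℝ) / 2 := by
        conv_rhs => rw [sum_filter]
        refine sum_le_sum fun q hqm => ?_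
        obtain ⟨hq1, hqp, hq0, hq2⟩ := hq q hqm
        have hR := SumC_R_le h hp hq1
        rw [← ht1] at hR
        split_ifs with hc
        · have h2 := hR.1 hc
          have h3 := div_le_div_of_nonneg_right h2 hq0.le
          calc 2219 / 10000 * ((1 : ℝ) / q * SumC_R N p q)
              = 2219 / 10000 * SumC_R N p q / q := by ring
            _ ≤ _ := h3
            _ = _ := by ring
        · rw [hR.2 (not_le.1 hc), mul_zero, mul_zero]
      refine h1.trans (sum_le_sum_of_subset_of_nonneg ?_ ?_)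
      · intro q hqm
        rw [mem_filter] at hqm
        obtain ⟨hq1, hqp, hq0, hq2⟩ := hq q hqm.1
        exact SumC_mem' h hqp (by linarith) (by linarith) (by linarith [hqm.2])
      · intro q hqm _
        obtain ⟨hqp, hq0, hq1, hq2⟩ := SumC_mem h hqm
        refine div_nonneg (div_nonneg ?_ hq0.le) (by norm_num)
        show 0 ≤ 1000302 / 1000000 - t1 - 3 * (Real.log q / Real.log N)
        linarith
    have h3 := mul_le_mul_of_nonneg_left hle2 (by norm_num : (0 : ℝ) ≤ 2219 / 10000)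
    refine h3.trans ?_
    rw [← mul_div_assoc]
    refine div_le_div_of_nonneg_right (hS.trans (le_of_eq ?_)) (by norm_num)
    ring
  · intro hlt
    unfold SumC_Q
    refine sum_eq_zero fun q hqm => ?_
    obtain ⟨hq1, hqp, hq0, hq2⟩ := hq q hqm
    have hR := SumC_R_le h hp hq1
    rw [← ht1] at hR
    rw [hR.2 (by linarith), mul_zero]

private theorem SumC_P_le {N : ℕ} (h : SumC_ok N) :
    ∑ p ∈ PE N (111 / 500) (3 / 10), (1 : ℝ) / p * SumC_Q N p ≤ 95 / 100000 := by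
  have hL : 0 < Real.log N := by linarith [h.big]
  have hS := h.sum (111 / 500) ((1000602 / 1000000) / 4)
    (fun u => (1000602 / 1000000 - 4 * u) ^ 2 + 6 / 1000000) (by norm_num)
    (by norm_num) (by norm_num) (fun u hu => ⟨by positivity, by
      have h1 : 0 ≤ 1000602 / 1000000 - 4 * u := by linarith [hu.2]
      have h2 : 1000602 / 1000000 - 4 * u ≤ 1 := by linarith [hu.1]
      show (1000602 / 1000000 - 4 * u) ^ 2 + 6 / 1000000 ≤ 10
      nlinarith⟩)
    (fun u hu v hv => by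
      show |((1000602 / 1000000 - 4 * u) ^ 2 + 6 / 1000000) -
        ((1000602 / 1000000 - 4 * v) ^ 2 + 6 / 1000000)| ≤ 10 * |u - v|
      rw [show ((1000602 / 1000000 - 4 * u) ^ 2 + 6 / 1000000) -
        ((1000602 / 1000000 - 4 * v) ^ 2 + 6 / 1000000) =
          -(4 * ((1000602 / 1000000 - 4 * u) + (1000602 / 1000000 - 4 * v)) * (u - v)) by ring,
        abs_neg, abs_mul]
      refine mul_le_mul_of_nonneg_right ?_ (abs_nonneg _)
      have h1 : 0 ≤ 1000602 / 1000000 - 4 * u := by linarith [hu.2]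
      have h2 : 1000602 / 1000000 - 4 * u ≤ 1 / 2 := by linarith [hu.1]
      have h3 : 0 ≤ 1000602 / 1000000 - 4 * v := by linarith [hv.2]
      have h4 : 1000602 / 1000000 - 4 * v ≤ 1 / 2 := by linarith [hv.1]
      rw [abs_of_nonneg (by linarith)]
      linarith)
  rw [SumC_int2] at hS
  have hle : (2219 / 10000) * ((2219 / 10000) *
      ∑ p ∈ PE N (111 / 500) (3 / 10), (1 : ℝ) / p * SumC_Q N p) ≤
      (∑ p ∈ PE N (111 / 500) ((1000602 / 1000000) / 4),
        (fun u : ℝ => (1000602 / 1000000 - 4 * u) ^ 2 + 6 / 1000000)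
          (Real.log p / Real.log N) / (p : ℝ)) / 12 := by
    rw [mul_sum, mul_sum, sum_div]
    have h1 : ∑ p ∈ PE N (111 / 500) (3 / 10),
        2219 / 10000 * (2219 / 10000 * ((1 : ℝ) / p * SumC_Q N p)) ≤
        ∑ p ∈ (PE N (111 / 500) (3 / 10)).filter
          (fun p : ℕ => 4 * (Real.log p / Real.log N) ≤ 10001 / 10000),
          (fun u : ℝ => (1000602 / 1000000 - 4 * u) ^ 2 + 6 / 1000000)
            (Real.log p / Real.log N) / (p : ℝ) / 12 := by
      rw [sum_filter]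
      refine sum_le_sum fun p hp => ?_
      obtain ⟨hpp, hp0, hp1, hp2⟩ := SumC_mem h hp
      have hR := SumC_Q_le h hp
      split_ifs with hc
      · have h2 := hR.1 hc
        have h3 := div_le_div_of_nonneg_right h2 hp0.le
        calc 2219 / 10000 * (2219 / 10000 * ((1 : ℝ) / p * SumC_Q N p))
            = 2219 / 10000 * (2219 / 10000 * SumC_Q N p) / p := by ring
          _ ≤ _ := h3
          _ = _ := by ring
      · rw [hR.2 (not_le.1 hc), mul_zero, mul_zero, mul_zero]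
    refine h1.trans (sum_le_sum_of_subset_of_nonneg ?_ ?_)
    · intro p hpm
      rw [mem_filter] at hpm
      obtain ⟨hpp, hp0, hp1, hp2⟩ := SumC_mem h hpm.1
      exact SumC_mem' h hpp (by norm_num) hp1 (by linarith [hpm.2])
    · intro p hpm _
      obtain ⟨hpp, hp0, hp1, hp2⟩ := SumC_mem h hpm
      refine div_nonneg (div_nonneg ?_ hp0.le) (by norm_num)
      show 0 ≤ (1000602 / 1000000 - 4 * (Real.log p / Real.log N)) ^ 2 + 6 / 1000000
      positivity
  have hnum : ((1000602 / 1000000 : ℝ) - 4 * (111 / 500)) ^ 3 / 12 +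
      6 / 1000000 * ((1000602 / 1000000) / 4 - 111 / 500) + 1 / 1000000 ≤
      12 * (2219 / 10000) ^ 3 * (95 / 100000) := by norm_num
  nlinarith

theorem s4_le : ∃ N0 : ℕ, ∀ N : ℕ, N0 ≤ N → ∀ x : ℕ, N ≤ 8 * x → x ≤ 8 * N →
    ∑ p ∈ PE N (111 / 500) (3 / 10), ∑ q ∈ (PE N (111 / 500) (3 / 10)).filter (fun q => p ≤ q),
      ∑ r ∈ (PE N (111 / 500) (3 / 10)).filter (fun r => q ≤ r ∧ p * q * r ^ 2 ≤ 16 * N),
        1 / (p * q * r * Real.log ((x : ℝ) / (p * q * r))) ≤ (40 / 10000) / Real.log N := by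
  obtain ⟨N0, hN0⟩ := SumC_ok_ex
  refine ⟨N0, fun N hN x hx1 _ => ?_⟩
  have h := hN0 N hN
  have hL : 0 < Real.log N := by linarith [h.big]
  have hNp := h.pos
  have hx1' : (N : ℝ) ≤ 8 * x := by exact_mod_cast hx1
  have hx0 : (0 : ℝ) < x := by linarith
  have key : ∑ p ∈ PE N (111 / 500) (3 / 10), ∑ q ∈ (PE N (111 / 500) (3 / 10)).filter (fun q => p ≤ q),
      ∑ r ∈ (PE N (111 / 500) (3 / 10)).filter (fun r => q ≤ r ∧ p * q * r ^ 2 ≤ 16 * N),
        1 / (p * q * r * Real.log ((x : ℝ) / (p * q * r))) ≤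
      (401 / 100) / Real.log N *
        ∑ p ∈ PE N (111 / 500) (3 / 10), (1 : ℝ) / p * SumC_Q N p := by
    rw [mul_sum]
    refine sum_le_sum fun p hp => ?_
    obtain ⟨hpp, hp0, hp1, hp2⟩ := SumC_mem h hp
    unfold SumC_Q
    rw [mul_sum, mul_sum]
    refine sum_le_sum fun q hq => ?_
    rw [mem_filter] at hq
    obtain ⟨hqp, hq0, hq1, hq2⟩ := SumC_mem h hq.1
    unfold SumC_R
    rw [mul_sum, mul_sum, mul_sum]
    refine sum_le_sum fun r hr => ?_
    obtain ⟨hrp, hr0, hr1, hr2⟩ := SumC_pqr h hp0 hq0 hr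
    have hpq : Real.log p / Real.log N ≤ Real.log q / Real.log N :=
      div_le_div_of_nonneg_right (Real.log_le_log hp0 (by exact_mod_cast hq.2)) hL.le
    have hsum : Real.log p / Real.log N + Real.log q / Real.log N + Real.log r / Real.log N ≤
        30003 / 40000 := by linarith
    have hsum' : Real.log p + Real.log q + Real.log r ≤ 30003 / 40000 * Real.log N := by
      rw [← add_div, ← add_div, div_le_iff₀ hL] at hsum
      exact hsum
    have hlogx : Real.log N - Real.log 8 ≤ Real.log x := by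
      have h1 : Real.log N ≤ Real.log (8 * x) := Real.log_le_log hNp hx1'
      rw [Real.log_mul (by norm_num) hx0.ne'] at h1
      linarith
    have hlog : Real.log ((x : ℝ) / (p * q * r)) =
        Real.log x - (Real.log p + Real.log q + Real.log r) := by
      rw [Real.log_div hx0.ne' (by positivity), Real.log_mul (by positivity) hr0.ne',
        Real.log_mul hp0.ne' hq0.ne']
    have h8 := SumC_log8
    have hbig := h.big
    have hlow : 100 / 401 * Real.log N ≤ Real.log ((x : ℝ) / (p * q * r)) := by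
      rw [hlog]
      linarith
    have hpos : 0 < 100 / 401 * Real.log N := by positivity
    have hpos2 : 0 < Real.log ((x : ℝ) / (p * q * r)) := lt_of_lt_of_le hpos hlow
    have h3 : 1 / Real.log ((x : ℝ) / (p * q * r)) ≤ 1 / (100 / 401 * Real.log N) :=
      one_div_le_one_div_of_le hpos hlow
    have h4 : (1 : ℝ) / (100 / 401 * Real.log N) = (401 / 100) / Real.log N := by
      field_simp
    rw [h4] at h3
    have h5 : (0 : ℝ) ≤ 1 / p * (1 / q * (1 / r)) := by positivity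
    calc 1 / (p * q * r * Real.log ((x : ℝ) / (p * q * r)))
        = 1 / Real.log ((x : ℝ) / (p * q * r)) * (1 / p * (1 / q * (1 / r))) := by
          field_simp
      _ ≤ (401 / 100) / Real.log N * (1 / p * (1 / q * (1 / r))) :=
          mul_le_mul_of_nonneg_right h3 h5
  refine key.trans ?_
  have h1 := SumC_P_le h
  have h2 : (401 / 100) / Real.log N *
        ∑ p ∈ PE N (111 / 500) (3 / 10), (1 : ℝ) / p * SumC_Q N p ≤
        (401 / 100) / Real.log N * (95 / 100000) :=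
    mul_le_mul_of_nonneg_left h1 (by positivity)
  refine h2.trans ?_
  rw [div_mul_eq_mul_div]
  exact div_le_div_of_nonneg_right (by norm_num) hL.le

end Pool.Agent.H9.TM

end

section

/-!
# TM SumA: the sums of `E_2` and `E_3` with one small prime

`a = 111/500`, `b = 1527/5000`, `b' = 3053/10000`; `u = log p/L ∈ (a, b]`, `v = log q/L`.  `log(b/a) ≤ 0.31895` (`b/a = 1527/1110`), `b - a = 0.0834`.  `η` = a small number (for example `10^(-5)`), `N` large.
* `s1_le`: `log(x/p) ≥ L (1 - u) - log 8 ≥ L (1 - η - u)`; `1/(1-u) ≤ 1.285348 + 1.850481 (u - a)` on `[a, b]` (chord, `(1 - u)(chord) ≥ 1` is a quadratic inequality), take the coefficients slightly larger for `η`; `lin_m`: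
  `≤ (1.285348 - 1.850481 a) log(b/a) + 1.850481 (b - a) + small ≤ 0.43327`.
* `s2_le`: `q ≤ N^((1-u)/2 + η)` (`p q² ≤ 16 N`), `1 - u - v ≥ (1-u)/2 - η > 0.34`, `log(x/(pq)) ≥ L (1 - η - u - v)`.  For `b' ≤ v`, `v ≤ 1 - u - v + 2η`: `v (1 - u - v) ≥ b' (1 - u - b')` (concave in `v`, the value at `v` is at least the value at `b'`
  as `b' ≤ v ≤ (1-u)/2`; up to `O(η)`), so `1/(1-u-v) ≤ v κ`, `κ = 1/(b' (1 - u - b'))` (up to `O(η)`) and `lin_m` (`α = 0`, `β = κ`, range `(b', (1-u)/2 + η]`): inner sum `≤ (1/L) (κ ((1-u)/2 - b') + O(η))`.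
  `κ ((1-u)/2 - b') = (1/(2b')) (1 - b'/(1 - u - b')) ≤ 1.187425 - 2.691632 u` (tangent of the convex function `1/(1-u-b')` at `u = 0.2637`: `≥ 2.320185 + 5.383262 (u - 0.2637)`; `t ≥ 0`: `1/t ≥ 2/t0 - t/t0²`).
  Outer sum with `lin_m`: `≤ 1.187425 log(b/a) - 2.691632 (b - a) + small ≤ 0.1543` (`≥ 0` on `[a, b]`: `1.187425 - 2.691632 · 0.3054 = 0.365`).
(Inner sums are over `PE N b' B` with `B = (1-u)/2 + η ≤ 1`; `q ≤ N`.)
-/

set_option autoImplicit false

namespace Pool.Agent.H9.TM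

open Finset MeasureTheory
open Pool.Agent.H76.TP

private theorem SumA_log : Real.log ((1527 / 5000) / (111 / 500)) ≤ 31895 / 100000 := by
  rw [Real.log_le_iff_le_exp (by norm_num)]
  have h := Real.sum_le_exp_of_nonneg (x := 31895 / 100000) (by norm_num) 6
  refine le_trans ?_ h
  simp only [Finset.sum_range_succ, Finset.sum_range_zero, Nat.factorial]
  norm_num

private theorem SumA_log16 : Real.log 16 ≤ 3 := by
  have h1 : Real.log 16 = 4 * Real.log 2 := by
    rw [show (16 : ℝ) = 2 ^ (4 : ℕ) by norm_num, Real.log_pow]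
    norm_num
  have h2 := Real.log_two_lt_d9
  rw [h1]
  linarith

private theorem SumA_log8 : Real.log 8 ≤ 3 :=
  (Real.log_le_log (by norm_num) (by norm_num)).trans SumA_log16

private theorem SumA_big : ∃ N0 : ℕ, ∀ N : ℕ, N0 ≤ N → (1 : ℝ) < N ∧ 3 ≤ (1 / 100000) * Real.log N := by
  refine ⟨⌈Real.exp 300000⌉₊, fun N hN => ?_⟩
  have h1 : Real.exp 300000 ≤ N := (Nat.le_ceil _).trans (by exact_mod_cast hN)
  have h2 : (1 : ℝ) < Real.exp 300000 := by
    have := Real.add_one_le_exp (300000 : ℝ)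
    linarith
  have h3 : (0 : ℝ) < N := by linarith
  refine ⟨by linarith, ?_⟩
  have h4 := (Real.le_log_iff_exp_le h3).2 h1
  linarith

private theorem SumA_mem {N : ℕ} {s t : ℝ} (hN : (1 : ℝ) < N) {p : ℕ} (hp : p ∈ PE N s t) :
    (0 : ℝ) < p ∧ s < Real.log p / Real.log N ∧ Real.log p / Real.log N ≤ t := by
  unfold PE at hp
  rw [Finset.mem_filter, Finset.mem_Icc] at hp
  obtain ⟨⟨h1, -⟩, -, h3, h4⟩ := hp
  have hp0 : (0 : ℝ) < p := by exact_mod_cast h1
  have hN0 : (0 : ℝ) < N := by linarith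
  have hL : 0 < Real.log N := Real.log_pos hN
  refine ⟨hp0, ?_, ?_⟩
  · rw [lt_div_iff₀ hL]
    rw [Real.rpow_def_of_pos hN0, ← Real.lt_log_iff_exp_lt hp0] at h3
    linarith
  · rw [div_le_iff₀ hL]
    rw [Real.rpow_def_of_pos hN0, ← Real.log_le_iff_le_exp hp0] at h4
    linarith

private theorem SumA_x {N x : ℕ} (hN : (1 : ℝ) < N) (hx : N ≤ 8 * x) :
    (0 : ℝ) < x ∧ Real.log N - 3 ≤ Real.log x := by
  have h1 : (N : ℝ) ≤ 8 * x := by exact_mod_cast hx
  have hx0 : (0 : ℝ) < x := by linarith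
  have h2 := Real.log_le_log (by linarith) h1
  rw [Real.log_mul (by norm_num) hx0.ne'] at h2
  have := SumA_log8
  exact ⟨hx0, by linarith⟩

theorem s1_le : ∃ N0 : ℕ, ∀ N : ℕ, N0 ≤ N → ∀ x : ℕ, N ≤ 8 * x → x ≤ 8 * N →
    ∑ p ∈ PE N (111 / 500) (1527 / 5000), 1 / (p * Real.log ((x : ℝ) / p)) ≤ (4335 / 10000) / Real.log N := by
  obtain ⟨N1, hN1⟩ := SumA_big
  obtain ⟨N2, hN2⟩ := lin_m (1 / 5) 10 (1 / 10000) (by norm_num) (by norm_num) (by norm_num)
  refine ⟨max N1 N2, fun N hN x hx1 _ => ?_⟩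
  obtain ⟨hNr, hηL⟩ := hN1 N (le_trans (le_max_left _ _) hN)
  have hL : 0 < Real.log N := Real.log_pos hNr
  obtain ⟨hx0, hlx⟩ := SumA_x hNr hx1
  have hM := hN2 N (le_trans (le_max_right _ _) hN) (111 / 500) (1527 / 5000) (8746 / 10000) (18506 / 10000)
    (by norm_num) (by norm_num) (by norm_num) (by rw [abs_of_pos (by norm_num)]; norm_num)
    (by rw [abs_of_pos (by norm_num)]; norm_num) (fun u hu => by
      have := hu.1
      linarith)
  have hterm : ∀ p ∈ PE N (111 / 500) (1527 / 5000), 1 / (p * Real.log ((x : ℝ) / p)) ≤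
      1 / Real.log N * ((8746 / 10000 + 18506 / 10000 * (Real.log p / Real.log N)) / p) := by
    intro p hp
    obtain ⟨hp0, hu1, hu2⟩ := SumA_mem hNr hp
    obtain ⟨u, hu⟩ : ∃ u, u = Real.log p / Real.log N := ⟨_, rfl⟩
    have hpu : Real.log p = u * Real.log N := by rw [hu, div_mul_cancel₀ _ hL.ne']
    rw [← hu] at hu1 hu2 ⊢
    have h1 : Real.log N * (1 - 1 / 100000 - u) ≤ Real.log ((x : ℝ) / p) := by
      rw [Real.log_div hx0.ne' hp0.ne', hpu]
      have : Real.log N * (1 - 1 / 100000 - u) = Real.log N - 1 / 100000 * Real.log N - u * Real.log N := by ring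
      rw [this]
      linarith
    have h2 : 0 < 1 - 1 / 100000 - u := by linarith
    have h3 : 1 ≤ (1 - 1 / 100000 - u) * (8746 / 10000 + 18506 / 10000 * u) := by
      nlinarith [mul_nonneg (sub_nonneg.2 hu1.le) (sub_nonneg.2 hu2)]
    have h4 : 1 / (p * Real.log ((x : ℝ) / p)) ≤ 1 / (p * (Real.log N * (1 - 1 / 100000 - u))) :=
      one_div_le_one_div_of_le (by positivity) (mul_le_mul_of_nonneg_left h1 hp0.le)
    refine h4.trans ?_
    rw [div_le_iff₀ (by positivity)]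
    have h5 : 1 / Real.log N * ((8746 / 10000 + 18506 / 10000 * u) / p) *
        (p * (Real.log N * (1 - 1 / 100000 - u))) =
        (1 - 1 / 100000 - u) * (8746 / 10000 + 18506 / 10000 * u) := by
      field_simp
    rw [h5]
    exact h3
  have hl := SumA_log
  calc ∑ p ∈ PE N (111 / 500) (1527 / 5000), 1 / (p * Real.log ((x : ℝ) / p))
      ≤ ∑ p ∈ PE N (111 / 500) (1527 / 5000),
        1 / Real.log N * ((8746 / 10000 + 18506 / 10000 * (Real.log p / Real.log N)) / p) :=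
        Finset.sum_le_sum hterm
    _ = 1 / Real.log N * ∑ p ∈ PE N (111 / 500) (1527 / 5000),
        (8746 / 10000 + 18506 / 10000 * (Real.log p / Real.log N)) / p := by rw [Finset.mul_sum]
    _ ≤ 1 / Real.log N * (4335 / 10000) := by
        refine mul_le_mul_of_nonneg_left (hM.trans ?_) (one_div_pos.2 hL).le
        linarith
    _ = (4335 / 10000) / Real.log N := by ring

theorem s2_le : ∃ N0 : ℕ, ∀ N : ℕ, N0 ≤ N → ∀ x : ℕ, N ≤ 8 * x → x ≤ 8 * N →
    ∑ p ∈ PE N (111 / 500) (1527 / 5000),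
      ∑ q ∈ (Icc 1 (16 * N)).filter (fun q : ℕ => q.Prime ∧ (N : ℝ) ^ (3053 / 10000 : ℝ) < q ∧ p * q ^ 2 ≤ 16 * N),
        1 / (p * q * Real.log ((x : ℝ) / (p * q))) ≤ (1548 / 10000) / Real.log N := by
  obtain ⟨N1, hN1⟩ := SumA_big
  obtain ⟨N2, hN2⟩ := lin_m (1 / 5) 10 (1 / 100000) (by norm_num) (by norm_num) (by norm_num)
  refine ⟨max N1 N2, fun N hN x hx1 _ => ?_⟩
  obtain ⟨hNr, hηL⟩ := hN1 N (le_trans (le_max_left _ _) hN)
  have hM0 := hN2 N (le_trans (le_max_right _ _) hN)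
  have hL : 0 < Real.log N := Real.log_pos hNr
  have hN0 : (0 : ℝ) < N := by linarith
  obtain ⟨hx0, hlx⟩ := SumA_x hNr hx1
  have hM := hM0 (111 / 500) (1527 / 5000) (11877 / 10000) (-(26916 / 10000))
    (by norm_num) (by norm_num) (by norm_num) (by rw [abs_of_pos (by norm_num)]; norm_num)
    (by rw [abs_neg, abs_of_pos (by norm_num)]; norm_num) (fun u hu => by
      have := hu.2
      linarith)
  have hinner : ∀ p ∈ PE N (111 / 500) (1527 / 5000),
      ∑ q ∈ (Icc 1 (16 * N)).filter (fun q : ℕ => q.Prime ∧ (N : ℝ) ^ (3053 / 10000 : ℝ) < q ∧ p * q ^ 2 ≤ 16 * N),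
        1 / (p * q * Real.log ((x : ℝ) / (p * q))) ≤
      1 / Real.log N * ((11877 / 10000 + -(26916 / 10000) * (Real.log p / Real.log N)) / p) := by
    intro p hp
    obtain ⟨hp0, hu1, hu2⟩ := SumA_mem hNr hp
    obtain ⟨u, hu⟩ : ∃ u, u = Real.log p / Real.log N := ⟨_, rfl⟩
    have hpu : Real.log p = u * Real.log N := by rw [hu, div_mul_cancel₀ _ hL.ne']
    rw [← hu] at hu1 hu2 ⊢
    have hc : 0 < 3053 / 10000 * (1 - u - 3053 / 10000) - 1 / 100000 := by linarith
    obtain ⟨κ, hκ⟩ : ∃ κ : ℝ, κ = 1 / (3053 / 10000 * (1 - u - 3053 / 10000) - 1 / 100000) := ⟨_, rfl⟩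
    have hκ0 : 0 < κ := by rw [hκ]; positivity
    have hκ10 : κ ≤ 10 := by
      rw [hκ, div_le_iff₀ hc]
      linarith
    have hκc : κ * (3053 / 10000 * (1 - u - 3053 / 10000) - 1 / 100000) = 1 := by
      rw [hκ]
      exact div_mul_cancel₀ _ hc.ne'
    have hin := hM0 (3053 / 10000) ((1 - u) / 2 + 1 / 100000) 0 κ (by norm_num) (by linarith) (by linarith)
      (by rw [abs_zero]; norm_num) (by rw [abs_of_pos hκ0]; exact hκ10) (fun v hv => by
        have h1 : 0 ≤ v := by linarith [hv.1]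
        have h2 : 0 ≤ κ * v := mul_nonneg hκ0.le h1
        linarith)
    have hqf : ∀ q ∈ (Icc 1 (16 * N)).filter
        (fun q : ℕ => q.Prime ∧ (N : ℝ) ^ (3053 / 10000 : ℝ) < q ∧ p * q ^ 2 ≤ 16 * N),
        (0 : ℝ) < q ∧ 3053 / 10000 < Real.log q / Real.log N ∧
          Real.log q / Real.log N ≤ (1 - u) / 2 + 1 / 100000 ∧ q ∈ PE N (3053 / 10000) ((1 - u) / 2 + 1 / 100000) := by
      intro q hqm
      rw [Finset.mem_filter, Finset.mem_Icc] at hqm
      obtain ⟨⟨h1, -⟩, h2, h8, h3⟩ := hqm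
      have hq0 : (0 : ℝ) < q := by exact_mod_cast h1
      have h5 : (p : ℝ) * (q : ℝ) ^ 2 ≤ 16 * N := by exact_mod_cast h3
      have h6 : Real.log ((p : ℝ) * (q : ℝ) ^ 2) ≤ Real.log (16 * N) :=
        Real.log_le_log (by positivity) h5
      rw [Real.log_mul hp0.ne' (by positivity), Real.log_pow, Real.log_mul (by norm_num) hN0.ne', hpu] at h6
      push_cast at h6
      have h16 := SumA_log16
      have h7 : Real.log q ≤ ((1 - u) / 2 + 1 / 100000) * Real.log N := by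
        have : ((1 - u) / 2 + 1 / 100000) * Real.log N =
          (Real.log N - u * Real.log N) / 2 + 1 / 100000 * Real.log N := by ring
        rw [this]
        linarith
      have h9 : Real.log q / Real.log N ≤ (1 - u) / 2 + 1 / 100000 := by
        rw [div_le_iff₀ hL]
        exact h7
      have h10 : 3053 / 10000 < Real.log q / Real.log N := by
        rw [lt_div_iff₀ hL]
        rw [Real.rpow_def_of_pos hN0, ← Real.lt_log_iff_exp_lt hq0] at h8
        linarith
      have h11 : (q : ℝ) ≤ (N : ℝ) ^ ((1 - u) / 2 + 1 / 100000) := by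
        rw [Real.rpow_def_of_pos hN0, ← Real.log_le_iff_le_exp hq0]
        linarith
      refine ⟨hq0, h10, h9, ?_⟩
      unfold PE
      rw [Finset.mem_filter, Finset.mem_Icc]
      refine ⟨⟨h1, ?_⟩, h2, h8, h11⟩
      have h12 : (N : ℝ) ^ ((1 - u) / 2 + 1 / 100000) ≤ (N : ℝ) ^ (1 : ℝ) :=
        Real.rpow_le_rpow_of_exponent_le hNr.le (by linarith)
      rw [Real.rpow_one] at h12
      exact_mod_cast h11.trans h12
    have hterm : ∀ q ∈ (Icc 1 (16 * N)).filter
        (fun q : ℕ => q.Prime ∧ (N : ℝ) ^ (3053 / 10000 : ℝ) < q ∧ p * q ^ 2 ≤ 16 * N),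
        1 / (p * q * Real.log ((x : ℝ) / (p * q))) ≤
        1 / Real.log N / p * ((0 + κ * (Real.log q / Real.log N)) / q) := by
      intro q hqm
      obtain ⟨hq0, hv1, hv2, -⟩ := hqf q hqm
      obtain ⟨v, hv⟩ : ∃ v, v = Real.log q / Real.log N := ⟨_, rfl⟩
      have hqv : Real.log q = v * Real.log N := by rw [hv, div_mul_cancel₀ _ hL.ne']
      rw [← hv] at hv1 hv2 ⊢
      have hD : 0 < 1 - 1 / 100000 - u - v := by linarith
      have h1 : Real.log N * (1 - 1 / 100000 - u - v) ≤ Real.log ((x : ℝ) / (p * q)) := by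
        rw [Real.log_div hx0.ne' (mul_pos hp0 hq0).ne', Real.log_mul hp0.ne' hq0.ne', hpu, hqv]
        have : Real.log N * (1 - 1 / 100000 - u - v) =
          Real.log N - 1 / 100000 * Real.log N - u * Real.log N - v * Real.log N := by ring
        rw [this]
        linarith
      have h2 : 3053 / 10000 * (1 - u - 3053 / 10000) - 1 / 100000 ≤ v * (1 - 1 / 100000 - u - v) := by
        have h3 : v * (1 - 1 / 100000 - u - v) -
          (3053 / 10000 * (1 - u - 3053 / 10000) - 1 / 100000) =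
          (v - 3053 / 10000) * (1 - u - v - 3053 / 10000) + (1 - v) / 100000 := by ring
        have h4 : 0 ≤ (v - 3053 / 10000) * (1 - u - v - 3053 / 10000) :=
          mul_nonneg (by linarith) (by linarith)
        have h5 : 0 ≤ (1 - v) / 100000 := by linarith
        linarith
      have h3 : 1 ≤ κ * v * (1 - 1 / 100000 - u - v) := by
        have := mul_le_mul_of_nonneg_left h2 hκ0.le
        rw [hκc] at this
        calc (1 : ℝ) ≤ κ * (v * (1 - 1 / 100000 - u - v)) := this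
          _ = κ * v * (1 - 1 / 100000 - u - v) := by ring
      have h4 : 1 / (p * q * Real.log ((x : ℝ) / (p * q))) ≤
          1 / (p * q * (Real.log N * (1 - 1 / 100000 - u - v))) :=
        one_div_le_one_div_of_le (by positivity) (mul_le_mul_of_nonneg_left h1 (by positivity))
      refine h4.trans ?_
      rw [div_le_iff₀ (by positivity)]
      have h5 : 1 / Real.log N / p * ((0 + κ * v) / q) *
          (p * q * (Real.log N * (1 - 1 / 100000 - u - v))) = κ * v * (1 - 1 / 100000 - u - v) := by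
        rw [zero_add]
        field_simp
      rw [h5]
      exact h3
    have hfin : κ * ((1 - u) / 2 + 1 / 100000 - 3053 / 10000) + 1 / 100000 ≤
        11877 / 10000 + -(26916 / 10000) * u := by
      have h1 : (1 - u) / 2 + 1 / 100000 - 3053 / 10000 ≤
          (11876 / 10000 - 26916 / 10000 * u) * (3053 / 10000 * (1 - u - 3053 / 10000) - 1 / 100000) := by
        nlinarith [sq_nonneg (u - 2637 / 10000)]
      have h2 : κ * ((1 - u) / 2 + 1 / 100000 - 3053 / 10000) ≤ 11876 / 10000 - 26916 / 10000 * u := by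
        have h3 := mul_le_mul_of_nonneg_left h1 hκ0.le
        calc κ * ((1 - u) / 2 + 1 / 100000 - 3053 / 10000) ≤ _ := h3
          _ = (11876 / 10000 - 26916 / 10000 * u) *
            (κ * (3053 / 10000 * (1 - u - 3053 / 10000) - 1 / 100000)) := by ring
          _ = 11876 / 10000 - 26916 / 10000 * u := by rw [hκc, mul_one]
      linarith
    calc ∑ q ∈ (Icc 1 (16 * N)).filter
          (fun q : ℕ => q.Prime ∧ (N : ℝ) ^ (3053 / 10000 : ℝ) < q ∧ p * q ^ 2 ≤ 16 * N),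
          1 / (p * q * Real.log ((x : ℝ) / (p * q)))
        ≤ ∑ q ∈ (Icc 1 (16 * N)).filter
            (fun q : ℕ => q.Prime ∧ (N : ℝ) ^ (3053 / 10000 : ℝ) < q ∧ p * q ^ 2 ≤ 16 * N),
          1 / Real.log N / p * ((0 + κ * (Real.log q / Real.log N)) / q) := Finset.sum_le_sum hterm
      _ ≤ ∑ q ∈ PE N (3053 / 10000) ((1 - u) / 2 + 1 / 100000),
          1 / Real.log N / p * ((0 + κ * (Real.log q / Real.log N)) / q) := by
          refine Finset.sum_le_sum_of_subset_of_nonneg (fun q hq => (hqf q hq).2.2.2) ?_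
          intro q hq _
          obtain ⟨hq0, hv1, -⟩ := SumA_mem hNr hq
          have h1 : 0 < Real.log q / Real.log N := by linarith
          positivity
      _ = 1 / Real.log N / p * ∑ q ∈ PE N (3053 / 10000) ((1 - u) / 2 + 1 / 100000),
            (0 + κ * (Real.log q / Real.log N)) / q := by rw [Finset.mul_sum]
      _ ≤ 1 / Real.log N / p * (11877 / 10000 + -(26916 / 10000) * u) := by
          refine mul_le_mul_of_nonneg_left (hin.trans ?_) (by positivity)
          rw [zero_mul, zero_add]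
          exact hfin
      _ = 1 / Real.log N * ((11877 / 10000 + -(26916 / 10000) * u) / p) := by ring
  have hl := SumA_log
  calc ∑ p ∈ PE N (111 / 500) (1527 / 5000),
      ∑ q ∈ (Icc 1 (16 * N)).filter (fun q : ℕ => q.Prime ∧ (N : ℝ) ^ (3053 / 10000 : ℝ) < q ∧ p * q ^ 2 ≤ 16 * N),
        1 / (p * q * Real.log ((x : ℝ) / (p * q)))
      ≤ ∑ p ∈ PE N (111 / 500) (1527 / 5000),
        1 / Real.log N * ((11877 / 10000 + -(26916 / 10000) * (Real.log p / Real.log N)) / p) :=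
        Finset.sum_le_sum hinner
    _ = 1 / Real.log N * ∑ p ∈ PE N (111 / 500) (1527 / 5000),
        (11877 / 10000 + -(26916 / 10000) * (Real.log p / Real.log N)) / p := by rw [Finset.mul_sum]
    _ ≤ 1 / Real.log N * (1548 / 10000) := by
        refine mul_le_mul_of_nonneg_left (hM.trans ?_) (one_div_pos.2 hL).le
        linarith
    _ = (1548 / 10000) / Real.log N := by ring

end Pool.Agent.H9.TM

end

section

/-!
# TM SumB: the sum of `E_3` with two small primes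

`a = 111/500`, `b = 1527/5000`, `u = log p/L`, `v = log q/L ∈ (a, b]`, `log(x/(pq)) ≥ L (1 - u - v) - log 8 ≥ L (1 - η - u - v)`.  With `U = u - a`, `V = v - a ∈ [0, 0.0834]`: `1/(0.556 - U - V) ≤ 1.798562 + 4.621176 (U + V)`
(chord on `[0, 0.1668]`; `(0.556 - s)(chord) ≥ 1` is a quadratic inequality; slightly larger coefficients for `η`).  `S0 = ∑ 1/p ≤ log(b/a) + ε ≤ 0.31896` (`α = 1`, `β = 0`), `S1 = ∑ U/p ≤ (b - a) - a log(b/a) + ε`
(`α = -a`, `β = 1`; `log(b/a) ≥ 0.3189`: `≤ 0.012605`), both `lin_m`.  All ordered pairs: `≤ (1/L) (1.798562 S0² + 2 · 4.621176 S0 S1) ≤ 0.2202/L`; the pairs `p < q` are half of it (symmetry, `sum_comm`).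
-/

set_option autoImplicit false

namespace Pool.Agent.H9.TM

open Finset MeasureTheory
open Pool.Agent.H76.TP

private theorem SumB_log_up : Real.log (1527 / 5000 / (111 / 500)) ≤ 31896 / 100000 := by
  have h2 := Real.log_two_lt_d9
  have e1 : (1527 / 5000 / (111 / 500) : ℝ) = 1527 / 1110 := by norm_num
  rw [e1]
  have h3 : Real.log ((1527 / 1110 : ℝ) ^ 13 / 2 ^ 6) ≤ (1527 / 1110 : ℝ) ^ 13 / 2 ^ 6 - 1 :=
    Real.log_le_sub_one_of_pos (by positivity)
  rw [Real.log_div (by positivity) (by positivity), Real.log_pow, Real.log_pow] at h3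
  have h4 : (1527 / 1110 : ℝ) ^ 13 / 2 ^ 6 - 1 ≤ -125 / 10000 := by norm_num
  push_cast at h3
  linarith

private theorem SumB_log_lo : 3189 / 10000 ≤ Real.log (1527 / 5000 / (111 / 500)) := by
  have h2 := Real.log_two_gt_d9
  have e1 : (1527 / 5000 / (111 / 500) : ℝ) = 1527 / 1110 := by norm_num
  rw [e1]
  have h3 : Real.log (2 ^ 6 / (1527 / 1110 : ℝ) ^ 13) ≤ 2 ^ 6 / (1527 / 1110 : ℝ) ^ 13 - 1 :=
    Real.log_le_sub_one_of_pos (by positivity)
  rw [Real.log_div (by positivity) (by positivity), Real.log_pow, Real.log_pow] at h3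
  have h4 : 2 ^ 6 / (1527 / 1110 : ℝ) ^ 13 - 1 ≤ 127 / 10000 := by norm_num
  push_cast at h3
  linarith

/-- the chord -/
private theorem SumB_chord (η s t : ℝ) (hη : η ≤ 1 / 100000) (hs : 0 ≤ s)
    (hs2 : s ≤ 1668 / 10000) (ht : 556 / 1000 - η - s ≤ t) :
    0 < t ∧ 1 / t ≤ 17987 / 10000 + 46212 / 10000 * s := by
  have ht0 : 0 < t := by linarith
  refine ⟨ht0, ?_⟩
  rw [div_le_iff₀ ht0]
  have h1 : (17987 / 10000 + 46212 / 10000 * s) * (556 / 1000 - 1 / 100000 - s) ≤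
      (17987 / 10000 + 46212 / 10000 * s) * t :=
    mul_le_mul_of_nonneg_left (by linarith) (by positivity)
  refine le_trans ?_ h1
  nlinarith [mul_nonneg hs (sub_nonneg.2 hs2)]

private theorem SumB_half (P : Finset ℕ) (G : ℕ → ℕ → ℝ) (h0 : ∀ p ∈ P, ∀ q ∈ P, 0 ≤ G p q)
    (hs : ∀ p q, G p q = G q p) :
    2 * ∑ p ∈ P, ∑ q ∈ P.filter (fun q => p < q), G p q ≤ ∑ p ∈ P, ∑ q ∈ P, G p q := by
  have h1 : ∑ p ∈ P, ∑ q ∈ P.filter (fun q => p < q), G p q =
      ∑ p ∈ P, ∑ q ∈ P.filter (fun q => q < p), G p q := by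
    rw [sum_comm' (t' := P) (s' := fun q => P.filter (fun p => p < q))]
    · exact sum_congr rfl fun p _ => sum_congr rfl fun q _ => hs q p
    · intro p q
      simp only [mem_filter]
      tauto
  calc 2 * ∑ p ∈ P, ∑ q ∈ P.filter (fun q => p < q), G p q
      = ∑ p ∈ P, ∑ q ∈ P.filter (fun q => p < q), G p q +
        ∑ p ∈ P, ∑ q ∈ P.filter (fun q => q < p), G p q := by
        rw [← h1]
        ring
    _ = ∑ p ∈ P, (∑ q ∈ P.filter (fun q => p < q), G p q +
        ∑ q ∈ P.filter (fun q => q < p), G p q) := by rw [sum_add_distrib]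
    _ ≤ ∑ p ∈ P, ∑ q ∈ P, G p q := by
        refine sum_le_sum fun p hp => ?_
        rw [← sum_union]
        · refine sum_le_sum_of_subset_of_nonneg ?_ fun q hq _ => h0 p hp q hq
          intro q hq
          rw [mem_union, mem_filter, mem_filter] at hq
          rcases hq with hq | hq
          · exact hq.1
          · exact hq.1
        · rw [disjoint_left]
          intro q h2 h3
          rw [mem_filter] at h2 h3
          omega

private theorem SumB_full (P : Finset ℕ) (f : ℕ → ℝ) (c d : ℝ) :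
    ∑ p ∈ P, ∑ q ∈ P, (c + d * (f p + f q)) / ((p : ℝ) * q) =
      c * (∑ p ∈ P, 1 / (p : ℝ)) ^ 2 + 2 * d * ((∑ p ∈ P, 1 / (p : ℝ)) * ∑ p ∈ P, f p / (p : ℝ)) := by
  have h1 : ∀ p q : ℕ, (c + d * (f p + f q)) / ((p : ℝ) * q) =
      c * (1 / (p : ℝ) * (1 / (q : ℝ))) + d * (f p / (p : ℝ) * (1 / (q : ℝ))) +
        d * (1 / (p : ℝ) * (f q / (q : ℝ))) := by
    intro p q
    rw [div_eq_mul_inv, mul_inv]
    ring
  simp only [h1, sum_add_distrib, ← mul_sum, ← sum_mul]
  ring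

theorem s3_le : ∃ N0 : ℕ, ∀ N : ℕ, N0 ≤ N → ∀ x : ℕ, N ≤ 8 * x → x ≤ 8 * N →
    ∑ p ∈ PE N (111 / 500) (1527 / 5000), ∑ q ∈ (PE N (111 / 500) (1527 / 5000)).filter (fun q => p < q),
        1 / (p * q * Real.log ((x : ℝ) / (p * q))) ≤ (1102 / 10000) / Real.log N := by
  obtain ⟨N1, hN1⟩ := lin_m (111 / 500) 1 (1 / 1000000) (by norm_num) (by norm_num) (by norm_num)
  obtain ⟨N2, hN2⟩ := exists_nat_ge (Real.exp (100000 * Real.log 8))
  refine ⟨max N1 (max N2 3), fun N hN x hx1 hx2 => ?_⟩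
  have hNN1 : N1 ≤ N := le_trans (le_max_left _ _) hN
  have hNN2 : N2 ≤ N := le_trans (le_trans (le_max_left _ _) (le_max_right _ _)) hN
  have hN3 : 3 ≤ N := le_trans (le_trans (le_max_right _ _) (le_max_right _ _)) hN
  have hNp : (0 : ℝ) < N := by exact_mod_cast (by omega : 0 < N)
  have hL1 : 100000 * Real.log 8 ≤ Real.log N := by
    have h1 : Real.exp (100000 * Real.log 8) ≤ N := hN2.trans (by exact_mod_cast hNN2)
    exact (Real.le_log_iff_exp_le hNp).2 h1
  have h8 : 0 < Real.log 8 := Real.log_pos (by norm_num)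
  have hL : 0 < Real.log N := by linarith
  set L := Real.log N with hLd
  set P := PE N (111 / 500) (1527 / 5000) with hPd
  -- elements of P
  have hP : ∀ p ∈ P, (0 : ℝ) < p ∧ 0 ≤ Real.log p / L - 111 / 500 ∧
      Real.log p / L - 111 / 500 ≤ 834 / 10000 := by
    intro p hp
    rw [hPd, PE, mem_filter] at hp
    obtain ⟨hp1, hpp, h1, h2⟩ := hp
    have hp0 : (0 : ℝ) < p := by exact_mod_cast hpp.pos
    refine ⟨hp0, ?_, ?_⟩
    · have h3 : (111 / 500 : ℝ) * L ≤ Real.log p := by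
        rw [hLd, ← Real.log_rpow hNp]
        exact Real.log_le_log (Real.rpow_pos_of_pos hNp _) h1.le
      have h4 : (111 / 500 : ℝ) ≤ Real.log p / L := by
        rw [le_div_iff₀ hL]
        exact h3
      linarith
    · have h3 : Real.log p ≤ (1527 / 5000 : ℝ) * L := by
        rw [hLd, ← Real.log_rpow hNp]
        exact Real.log_le_log hp0 h2
      have h4 : Real.log p / L ≤ (1527 / 5000 : ℝ) := by
        rw [div_le_iff₀ hL]
        exact h3
      linarith
  set f : ℕ → ℝ := fun p => Real.log p / L - 111 / 500 with hfd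
  have hS0 : ∑ p ∈ P, 1 / (p : ℝ) ≤ 31897 / 100000 := by
    have h1 := hN1 N hNN1 (111 / 500) (1527 / 5000) 1 0 le_rfl (by norm_num) (by norm_num)
      (by norm_num) (by norm_num) (fun u _ => by norm_num)
    have h2 := SumB_log_up
    have h3 : ∑ p ∈ P, 1 / (p : ℝ) = ∑ p ∈ PE N (111 / 500) (1527 / 5000),
        (1 + 0 * (Real.log p / Real.log N)) / (p : ℝ) :=
      sum_congr rfl fun p _ => by rw [zero_mul, add_zero]
    rw [h3]
    linarith
  have hS1 : ∑ p ∈ P, f p / (p : ℝ) ≤ 12607 / 1000000 := by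
    have h1 := hN1 N hNN1 (111 / 500) (1527 / 5000) (-(111 / 500)) 1 le_rfl (by norm_num) (by norm_num)
      (by rw [abs_neg, abs_of_pos (by norm_num)]; norm_num) (by norm_num) (fun u hu => by linarith [hu.1])
    have h2 := SumB_log_lo
    have h3 : ∑ p ∈ P, f p / (p : ℝ) = ∑ p ∈ PE N (111 / 500) (1527 / 5000),
        (-(111 / 500) + 1 * (Real.log p / Real.log N)) / (p : ℝ) :=
      sum_congr rfl fun p _ => by
        rw [hfd]
        show (Real.log p / L - 111 / 500) / (p : ℝ) = _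
        congr 1
        ring
    rw [h3]
    linarith
  have hS00 : 0 ≤ ∑ p ∈ P, 1 / (p : ℝ) := sum_nonneg fun p _ => by positivity
  have hS10 : 0 ≤ ∑ p ∈ P, f p / (p : ℝ) := sum_nonneg fun p hp => div_nonneg (hP p hp).2.1 (hP p hp).1.le
  -- one term
  have hterm : ∀ p ∈ P, ∀ q ∈ P, 1 / (p * q * Real.log ((x : ℝ) / (p * q))) ≤
      1 / L * ((17987 / 10000 + 46212 / 10000 * (f p + f q)) / ((p : ℝ) * q)) := by
    intro p hp q hq
    obtain ⟨hp0, hpa, hpb⟩ := hP p hp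
    obtain ⟨hq0, hqa, hqb⟩ := hP q hq
    have hx0 : (0 : ℝ) < x := by
      have : 0 < x := by omega
      exact_mod_cast this
    have hxN : Real.log N - Real.log 8 ≤ Real.log x := by
      rw [← Real.log_div hNp.ne' (by norm_num)]
      refine Real.log_le_log (by positivity) ?_
      rw [div_le_iff₀ (by norm_num)]
      have : (N : ℝ) ≤ 8 * x := by exact_mod_cast hx1
      linarith
    have hlog : Real.log ((x : ℝ) / (p * q)) = Real.log x - (Real.log p + Real.log q) := by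
      rw [Real.log_div hx0.ne' (by positivity), Real.log_mul hp0.ne' hq0.ne']
    set η := Real.log 8 / L with hη
    have hη1 : η ≤ 1 / 100000 := by
      rw [hη, div_le_iff₀ hL]
      linarith
    have hge : 556 / 1000 - η - (f p + f q) ≤ Real.log ((x : ℝ) / (p * q)) / L := by
      rw [hlog, le_div_iff₀ hL]
      have e1 : Real.log p / L * L = Real.log p := div_mul_cancel₀ _ hL.ne'
      have e2 : Real.log q / L * L = Real.log q := div_mul_cancel₀ _ hL.ne'
      have e3 : η * L = Real.log 8 := div_mul_cancel₀ _ hL.ne'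
      have e4 : (556 / 1000 - η - (f p + f q)) * L = 556 / 1000 * L - η * L -
          (Real.log p / L * L - 111 / 500 * L + (Real.log q / L * L - 111 / 500 * L)) := by
        rw [hfd]
        ring
      rw [e4, e1, e2, e3]
      linarith
    obtain ⟨ht0, ht⟩ := SumB_chord η (f p + f q) _ hη1 (add_nonneg hpa hqa) (by
      have h5 : f p ≤ 834 / 10000 := hpb
      have h6 : f q ≤ 834 / 10000 := hqb
      linarith) hge
    have hpq : (0 : ℝ) < p * q := mul_pos hp0 hq0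
    have e5 : 1 / ((p : ℝ) * q * Real.log ((x : ℝ) / (p * q))) =
        1 / L * (1 / (Real.log ((x : ℝ) / (p * q)) / L) / ((p : ℝ) * q)) := by
      have hlg : Real.log ((x : ℝ) / (p * q)) ≠ 0 := by
        intro h0
        rw [h0, zero_div] at ht0
        exact lt_irrefl _ ht0
      field_simp
    rw [e5]
    refine mul_le_mul_of_nonneg_left ?_ (by positivity)
    exact div_le_div_of_nonneg_right ht hpq.le
  set G : ℕ → ℕ → ℝ := fun p q => (17987 / 10000 + 46212 / 10000 * (f p + f q)) / ((p : ℝ) * q) with hGd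
  have hG0 : ∀ p ∈ P, ∀ q ∈ P, 0 ≤ G p q := by
    intro p hp q hq
    have h5 : 0 ≤ f p := (hP p hp).2.1
    have h6 : 0 ≤ f q := (hP q hq).2.1
    have h7 := (hP p hp).1
    have h8 := (hP q hq).1
    rw [hGd]
    positivity
  have hGs : ∀ p q, G p q = G q p := by
    intro p q
    rw [hGd]
    show (17987 / 10000 + 46212 / 10000 * (f p + f q)) / ((p : ℝ) * q) =
      (17987 / 10000 + 46212 / 10000 * (f q + f p)) / ((q : ℝ) * p)
    rw [add_comm (f p) (f q), mul_comm (p : ℝ) q]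
  have hhalf := SumB_half P G hG0 hGs
  have hfull : ∑ p ∈ P, ∑ q ∈ P, G p q = _ := SumB_full P f (17987 / 10000) (46212 / 10000)
  have hb : ∑ p ∈ P, ∑ q ∈ P.filter (fun q => p < q), G p q ≤ 1102 / 10000 := by
    have h1 : (∑ p ∈ P, 1 / (p : ℝ)) ^ 2 ≤ (31897 / 100000) ^ 2 := pow_le_pow_left₀ hS00 hS0 2
    have h2 : (∑ p ∈ P, 1 / (p : ℝ)) * ∑ p ∈ P, f p / (p : ℝ) ≤ 31897 / 100000 * (12607 / 1000000) :=
      mul_le_mul hS0 hS1 hS10 (by norm_num)
    rw [hfull] at hhalf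
    linarith
  calc ∑ p ∈ P, ∑ q ∈ P.filter (fun q => p < q), 1 / (p * q * Real.log ((x : ℝ) / (p * q)))
      ≤ ∑ p ∈ P, ∑ q ∈ P.filter (fun q => p < q), 1 / L * G p q :=
        sum_le_sum fun p hp => sum_le_sum fun q hq => hterm p hp q (mem_filter.1 hq).1
    _ = 1 / L * ∑ p ∈ P, ∑ q ∈ P.filter (fun q => p < q), G p q := by
        rw [mul_sum]
        exact sum_congr rfl fun p _ => by rw [mul_sum]
    _ ≤ 1 / L * (1102 / 10000) := mul_le_mul_of_nonneg_left hb (by positivity)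
    _ = (1102 / 10000) / L := by ring

end Pool.Agent.H9.TM

end

section

/-!
# TP SvEv: facts for large `N` used in SvBB
-/

set_option autoImplicit false

namespace Pool.Agent.H76.TP

open Finset

/-- `a log L + b ≤ √L` -/
theorem sv_core (a b : ℝ) : ∃ N0 : ℕ, ∀ N : ℕ, N0 ≤ N →
    a * Real.log (Real.log N) + b ≤ Real.sqrt (Real.log N) := by
  have h1 := (isLittleO_log_rpow_atTop (show (0 : ℝ) < 1 / 2 by norm_num)).bound
    (c := 1 / (2 * (|a| + 1))) (by positivity)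
  have h2 : ∀ᶠ t : ℝ in Filter.atTop, 2 * |b| ≤ t ^ (1 / 2 : ℝ) :=
    (tendsto_rpow_atTop (by norm_num : (0 : ℝ) < 1 / 2)).eventually_ge_atTop _
  have h3 := (h1.and h2).and (Filter.eventually_ge_atTop (1 : ℝ))
  have h4 := (Real.tendsto_log_atTop.comp tendsto_natCast_atTop_atTop).eventually h3
  obtain ⟨N0, h5⟩ := Filter.eventually_atTop.1 h4
  refine ⟨N0, fun N hN => ?_⟩
  obtain ⟨⟨k1, k2⟩, k3⟩ := h5 N hN
  simp only [Function.comp_apply] at k1 k2 k3
  set t := Real.log (N : ℝ) with ht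
  rw [Real.norm_eq_abs, Real.norm_eq_abs, abs_of_nonneg (by positivity : (0 : ℝ) ≤ t ^ (1 / 2 : ℝ))] at k1
  rw [Real.sqrt_eq_rpow]
  set s := t ^ (1 / 2 : ℝ) with hs
  have hs0 : 0 ≤ s := by positivity
  have e1 : a * Real.log t ≤ s / 2 := by
    calc a * Real.log t ≤ |a * Real.log t| := le_abs_self _
      _ = |a| * |Real.log t| := abs_mul _ _
      _ ≤ |a| * (1 / (2 * (|a| + 1)) * s) := mul_le_mul_of_nonneg_left k1 (abs_nonneg _)
      _ = (|a| / (|a| + 1)) * (s / 2) := by field_simp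
      _ ≤ 1 * (s / 2) := by
          refine mul_le_mul_of_nonneg_right ?_ (by positivity)
          rw [div_le_one (by positivity)]
          linarith [abs_nonneg a]
      _ = s / 2 := one_mul _
  have e2 : b ≤ s / 2 := (le_abs_self b).trans (by linarith)
  linarith

/-- `exp(K √L log L) ≤ N^σ` -/
theorem sv_pow (K σ : ℝ) (hσ : 0 < σ) : ∃ N0 : ℕ, ∀ N : ℕ, N0 ≤ N →
    Real.exp (K * Real.sqrt (Real.log N) * Real.log (Real.log N)) ≤ (N : ℝ) ^ σ := by
  obtain ⟨N1, h1⟩ := sv_core (K / σ) 0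
  obtain ⟨N2, h2⟩ := Pool.Agent.H76.GB.log_ge 1
  refine ⟨max (max N1 N2) 1, fun N hN => ?_⟩
  have g1 := h1 N (((le_max_left _ _).trans (le_max_left _ _)).trans hN)
  have g2 := h2 N (((le_max_right _ _).trans (le_max_left _ _)).trans hN)
  have g3 : 1 ≤ N := (le_max_right _ _).trans hN
  have hN0 : (0 : ℝ) < N := by exact_mod_cast g3
  rw [Real.rpow_def_of_pos hN0]
  apply Real.exp_le_exp.2
  set L := Real.log (N : ℝ) with hL
  rw [add_zero] at g1
  have hs : 0 ≤ Real.sqrt L := Real.sqrt_nonneg _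
  have e1 : K * Real.sqrt L * Real.log L = σ * Real.sqrt L * (K / σ * Real.log L) := by
    field_simp
  rw [e1]
  calc σ * Real.sqrt L * (K / σ * Real.log L) ≤ σ * Real.sqrt L * Real.sqrt L :=
        mul_le_mul_of_nonneg_left g1 (by positivity)
    _ = L * σ := by rw [mul_assoc, Real.mul_self_sqrt (by linarith)]; ring

/-- `K L^M ≤ 2^⌊√L⌋` -/
theorem sv_two (K : ℝ) (M : ℕ) : ∃ N0 : ℕ, ∀ N : ℕ, N0 ≤ N →
    K * Real.log N ^ M ≤ 2 ^ ⌊Real.sqrt (Real.log N)⌋₊ := by
  obtain ⟨N1, h1⟩ := sv_core (2 * M) (2 * Real.log (|K| + 1) + 1)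
  obtain ⟨N2, h2⟩ := Pool.Agent.H76.GB.log_ge 1
  refine ⟨max N1 N2, fun N hN => ?_⟩
  have g1 := h1 N ((le_max_left _ _).trans hN)
  have g2 := h2 N ((le_max_right _ _).trans hN)
  set L := Real.log (N : ℝ) with hL
  have hL0 : 0 < L := by linarith
  have hf : Real.sqrt L - 1 ≤ (⌊Real.sqrt L⌋₊ : ℝ) := by
    have := Nat.lt_floor_add_one (Real.sqrt L)
    linarith
  have hl2 : (1 : ℝ) / 2 ≤ Real.log 2 := by
    have := Real.log_two_gt_d9
    linarith
  have hf0 : (0 : ℝ) ≤ (⌊Real.sqrt L⌋₊ : ℝ) := Nat.cast_nonneg _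
  calc K * L ^ M ≤ (|K| + 1) * L ^ M := by
        refine mul_le_mul_of_nonneg_right ?_ (by positivity)
        linarith [le_abs_self K]
    _ = Real.exp (Real.log (|K| + 1) + M * Real.log L) := by
        rw [Real.exp_add, Real.exp_log (by positivity), mul_comm (M : ℝ), ← Real.rpow_def_of_pos hL0,
          Real.rpow_natCast]
    _ ≤ Real.exp ((⌊Real.sqrt L⌋₊ : ℝ) * Real.log 2) := by
        apply Real.exp_le_exp.2
        nlinarith
    _ = 2 ^ ⌊Real.sqrt L⌋₊ := by
        rw [mul_comm, ← Real.rpow_def_of_pos (by norm_num), Real.rpow_natCast]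

/-- all the facts -/
theorem sv_ev (e4 e1 ε : ℝ) (he4 : 0 < e4) (he1 : 0 < e1) (he : e1 ≤ e4 / 80) (hε : 0 < ε) (A B : ℕ)
    (hB : 1 ≤ B) :
    ∃ N0 : ℕ, ∀ N : ℕ, N0 ≤ N → ∀ w r D Q : ℕ, w = ⌊Real.log N ^ B⌋₊ → r = ⌊Real.sqrt (Real.log N)⌋₊ →
      D = ⌊(N : ℝ) ^ (e4 / 40)⌋₊ → Q = w ^ (2 * r) * D ^ 2 →
      8 ≤ Real.log N ∧ 2 ≤ w ∧ w ≤ yN e1 N ∧ Real.log N ^ B / 2 ≤ w ∧ 6 * (1 + Real.log w) ≤ r + 1 ∧
      yN e1 N ≤ D ∧ 1 ≤ D ∧ (yN e1 N : ℝ) ≤ (N : ℝ) ^ e1 ∧ e1 / 2 * Real.log N ≤ Real.log (yN e1 N) ∧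
      (Q : ℝ) ≤ (N : ℝ) ^ (e4 / 12) ∧ 6 * (1 + Real.log Q) ^ 3 ≤ Real.log N ^ 4 ∧
      100 * (1 + 2 * Real.log Q) ^ 15 ≤ Real.log N ^ 16 ∧
      8 * Real.log N ^ A ≤ 2 ^ r ∧ 16 * (2 + Real.log (yN e1 N)) * Real.log N ≤ ε * 2 ^ r ∧
      80 * yN e1 N * (Q : ℝ) ^ 2 * Real.log N ≤ ε * (N : ℝ) ^ e4 ∧
      8 * ((w : ℝ) + 1) ^ (2 * r + 1) * Real.log N ≤ ε * (N : ℝ) ^ e4 ∧
      8 * (Q : ℝ) ^ 4 * Real.log N ^ (A + 4) ≤ (N : ℝ) ^ e4 ∧
      e4 / (50 * e1) ≤ Real.log D / Real.log (yN e1 N) ∧ w ≤ Q ∧ (Q : ℝ) ^ 4 ≤ (N : ℝ) ^ e4 := by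
  obtain ⟨M1, hM1⟩ := Pool.Agent.H76.GB.log_ge (max (max 8 (100 * (1 + e4) ^ 15)) (max (200 / e4) (6 * (1 + e4) ^ 3)))
  obtain ⟨M2, hM2⟩ := Pool.Agent.H76.GB.log_pow_le e1 1 he1 (by norm_num) B
  obtain ⟨M3, hM3⟩ := sv_core (6 * B) 6
  obtain ⟨M4, hM4⟩ := Pool.Agent.H76.GB.log_pow_le (e1 / 2) 2 (by positivity) (by norm_num) 0
  obtain ⟨M5, hM5⟩ := sv_pow (2 * B) (e4 / 60) (by positivity)
  obtain ⟨M6, hM6⟩ := sv_two 8 A
  obtain ⟨M7, hM7⟩ := sv_two (16 * (2 + e1) / ε) 2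
  obtain ⟨M8, hM8⟩ := Pool.Agent.H76.GB.log_pow_le (e4 / 4) (80 / ε) (by positivity) (by positivity) 1
  obtain ⟨M9, hM9⟩ := sv_pow (3 * (B + 1)) (e4 / 4) (by positivity)
  obtain ⟨M10, hM10⟩ := Pool.Agent.H76.GB.log_pow_le (e4 / 4) 8 (by positivity) (by norm_num) (A + 4)
  obtain ⟨M11, hM11⟩ := Pool.Agent.H76.GB.log_pow_le (e4 / 40) 2 (by positivity) (by norm_num) 0
  refine ⟨M1 + M2 + M3 + M4 + M5 + M6 + M7 + M8 + M9 + M10 + M11, fun N hN w r D Q hw hr hD hQ => ?_⟩
  have g1 := hM1 N (by omega)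
  have g2 := hM2 N (by omega)
  have g3 := hM3 N (by omega)
  have g4 := hM4 N (by omega)
  have g5 := hM5 N (by omega)
  have g6 := hM6 N (by omega)
  have g7 := hM7 N (by omega)
  have g8 := hM8 N (by omega)
  have g9 := hM9 N (by omega)
  have g10 := hM10 N (by omega)
  have g11 := hM11 N (by omega)
  rw [pow_zero, mul_one] at g4 g11
  rw [pow_one] at g8
  rw [one_mul] at g2
  set L := Real.log (N : ℝ) with hL
  simp only [max_le_iff] at g1
  obtain ⟨⟨a1, a2⟩, a3, a4⟩ := g1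
  have hL0 : 0 < L := by linarith
  have hL1 : 1 ≤ L := by linarith
  have hN0 : N ≠ 0 := by
    rintro rfl
    rw [hL] at a1
    norm_num at a1
  have hN1 : (1 : ℝ) ≤ N := by exact_mod_cast Nat.one_le_iff_ne_zero.2 hN0
  have hNpos : (0 : ℝ) < N := by linarith
  have hLB : 8 ≤ L ^ B := by
    calc (8 : ℝ) ≤ L ^ 1 := by linarith
      _ ≤ L ^ B := pow_le_pow_right₀ hL1 hB
  have w1 : (w : ℝ) ≤ L ^ B := by rw [hw]; exact Nat.floor_le (by positivity)
  have w2 : L ^ B < w + 1 := by rw [hw]; exact Nat.lt_floor_add_one _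
  have w3 : L ^ B / 2 ≤ w := by linarith
  have w4 : (2 : ℝ) ≤ w := by linarith
  have w5 : 2 ≤ w := by exact_mod_cast w4
  have s0 : 0 ≤ Real.sqrt L := Real.sqrt_nonneg _
  have s1 : 1 ≤ Real.sqrt L := by
    rw [Real.one_le_sqrt]
    exact hL1
  have r1 : (r : ℝ) ≤ Real.sqrt L := by rw [hr]; exact Nat.floor_le s0
  have r2 : Real.sqrt L < r + 1 := by rw [hr]; exact Nat.lt_floor_add_one _
  have r3 : 1 ≤ r := by rw [hr]; exact Nat.floor_pos.2 s1
  have hll : 0 ≤ Real.log L := Real.log_nonneg hL1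
  have y1 : (yN e1 N : ℝ) ≤ (N : ℝ) ^ e1 := Nat.floor_le (by positivity)
  have y2 : (N : ℝ) ^ e1 < yN e1 N + 1 := Nat.lt_floor_add_one _
  have y3 : (N : ℝ) ^ (e1 / 2) ≤ yN e1 N := by
    have t1 : (N : ℝ) ^ e1 = (N : ℝ) ^ (e1 / 2) * (N : ℝ) ^ (e1 / 2) := by
      rw [← Real.rpow_add hNpos]; congr 1; ring
    have t2 := mul_le_mul_of_nonneg_right g4 (show (0 : ℝ) ≤ (N : ℝ) ^ (e1 / 2) by positivity)
    linarith
  have y4 : (2 : ℝ) ≤ yN e1 N := g4.trans y3
  have y5 : e1 / 2 * L ≤ Real.log (yN e1 N) := by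
    have := Real.log_le_log (by positivity) y3
    rw [Real.log_rpow hNpos] at this
    exact this
  have y6 : Real.log (yN e1 N) ≤ e1 * L := by
    have := Real.log_le_log (by linarith) y1
    rw [Real.log_rpow hNpos] at this
    exact this
  have y7 : 0 < Real.log (yN e1 N) := lt_of_lt_of_le (by positivity) y5
  have d1 : (D : ℝ) ≤ (N : ℝ) ^ (e4 / 40) := by rw [hD]; exact Nat.floor_le (by positivity)
  have d2 : (N : ℝ) ^ (e4 / 40) < D + 1 := by rw [hD]; exact Nat.lt_floor_add_one _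
  have d3 : (N : ℝ) ^ (e4 / 40) / 2 ≤ D := by linarith
  have d4 : 1 ≤ D := by
    rw [hD]; exact Nat.floor_pos.2 (Real.one_le_rpow hN1 (by positivity))
  have yD : yN e1 N ≤ D := by
    rw [hD]
    unfold yN
    exact Nat.floor_le_floor (Real.rpow_le_rpow_of_exponent_le hN1 (by linarith))
  have wy : w ≤ yN e1 N := by
    rw [hw]
    unfold yN
    exact Nat.floor_le_floor g2
  -- `w^(2r)`
  have p1 : (w : ℝ) ^ (2 * r) ≤ (N : ℝ) ^ (e4 / 60) := by
    refine le_trans ?_ g5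
    calc (w : ℝ) ^ (2 * r) ≤ (L ^ B) ^ (2 * r) := pow_le_pow_left₀ (Nat.cast_nonneg _) w1 _
      _ = Real.exp (((B * (2 * r) : ℕ) : ℝ) * Real.log L) := by
          rw [← pow_mul, mul_comm _ (Real.log L), ← Real.rpow_def_of_pos hL0, Real.rpow_natCast]
      _ ≤ Real.exp (2 * B * Real.sqrt L * Real.log L) := by
          apply Real.exp_le_exp.2
          refine mul_le_mul_of_nonneg_right ?_ hll
          push_cast
          have : (B : ℝ) * (2 * r) = 2 * B * r := by ring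
          rw [this]
          exact mul_le_mul_of_nonneg_left r1 (by positivity)
  have p2 : ((w : ℝ) + 1) ^ (2 * r + 1) ≤ (N : ℝ) ^ (e4 / 4) := by
    refine le_trans ?_ g9
    have t1 : (w : ℝ) + 1 ≤ L ^ (B + 1) := by
      rw [pow_succ]
      have t2 : L ^ B * 2 ≤ L ^ B * L := mul_le_mul_of_nonneg_left (by linarith) (by positivity)
      linarith
    calc ((w : ℝ) + 1) ^ (2 * r + 1) ≤ (L ^ (B + 1)) ^ (2 * r + 1) := pow_le_pow_left₀ (by positivity) t1 _
      _ = Real.exp ((((B + 1) * (2 * r + 1) : ℕ) : ℝ) * Real.log L) := by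
          rw [← pow_mul, mul_comm _ (Real.log L), ← Real.rpow_def_of_pos hL0, Real.rpow_natCast]
      _ ≤ Real.exp (3 * (B + 1) * Real.sqrt L * Real.log L) := by
          apply Real.exp_le_exp.2
          refine mul_le_mul_of_nonneg_right ?_ hll
          push_cast
          have t2 : (2 : ℝ) * r + 1 ≤ 3 * Real.sqrt L := by
            have : (1 : ℝ) ≤ r := by exact_mod_cast r3
            linarith
          have t3 : ((B : ℝ) + 1) * (2 * r + 1) ≤ (B + 1) * (3 * Real.sqrt L) :=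
            mul_le_mul_of_nonneg_left t2 (by positivity)
          linarith
  have q1 : (Q : ℝ) ≤ (N : ℝ) ^ (e4 / 12) := by
    rw [hQ]
    push_cast
    calc (w : ℝ) ^ (2 * r) * (D : ℝ) ^ 2 ≤ (N : ℝ) ^ (e4 / 60) * ((N : ℝ) ^ (e4 / 40)) ^ 2 :=
          mul_le_mul p1 (pow_le_pow_left₀ (Nat.cast_nonneg _) d1 2) (by positivity) (by positivity)
      _ = (N : ℝ) ^ (e4 / 60 + e4 / 40 * 2) := by
          rw [Real.rpow_add hNpos, Real.rpow_mul hNpos.le (e4 / 40) 2]
          norm_num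
      _ ≤ (N : ℝ) ^ (e4 / 12) := Real.rpow_le_rpow_of_exponent_le hN1 (by linarith)
  have q0 : 1 ≤ Q := by
    rw [hQ]
    exact Nat.mul_pos (by positivity) (by positivity)
  have q0r : (1 : ℝ) ≤ Q := by exact_mod_cast q0
  have q2 : Real.log Q ≤ e4 / 12 * L := by
    have := Real.log_le_log (by linarith) q1
    rw [Real.log_rpow hNpos] at this
    exact this
  have q3 : 0 ≤ Real.log Q := Real.log_nonneg q0r
  have q4 : (Q : ℝ) ^ 4 ≤ (N : ℝ) ^ (e4 / 3) := by
    calc (Q : ℝ) ^ 4 ≤ ((N : ℝ) ^ (e4 / 12)) ^ 4 := pow_le_pow_left₀ (Nat.cast_nonneg _) q1 4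
      _ = (N : ℝ) ^ (e4 / 3) := by
          rw [← Real.rpow_natCast, ← Real.rpow_mul hNpos.le]
          congr 1
          push_cast
          ring
  have q5 : (Q : ℝ) ^ 2 ≤ (N : ℝ) ^ (e4 / 6) := by
    calc (Q : ℝ) ^ 2 ≤ ((N : ℝ) ^ (e4 / 12)) ^ 2 := pow_le_pow_left₀ (Nat.cast_nonneg _) q1 2
      _ = (N : ℝ) ^ (e4 / 6) := by
          rw [← Real.rpow_natCast, ← Real.rpow_mul hNpos.le]
          congr 1
          push_cast
          ring
  refine ⟨a1, w5, wy, w3, ?_, yD, d4, y1, y5, q1, ?_, ?_, ?_, ?_, ?_, ?_, ?_, ?_, ?_, ?_⟩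
  · -- 6 (1 + log w) ≤ r + 1
    have t1 : Real.log w ≤ B * Real.log L := by
      have := Real.log_le_log (by linarith) w1
      rw [Real.log_pow] at this
      exact this
    linarith
  · have t1 : 1 + Real.log Q ≤ (1 + e4) * L := by
      have t2 : 0 ≤ e4 * L := by positivity
      linarith
    calc 6 * (1 + Real.log Q) ^ 3 ≤ 6 * ((1 + e4) * L) ^ 3 :=
          mul_le_mul_of_nonneg_left (pow_le_pow_left₀ (by linarith) t1 3) (by norm_num)
      _ = (6 * (1 + e4) ^ 3) * L ^ 3 := by ring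
      _ ≤ L * L ^ 3 := mul_le_mul_of_nonneg_right a4 (by positivity)
      _ = L ^ 4 := by ring
  · have t1 : 1 + 2 * Real.log Q ≤ (1 + e4) * L := by
      have t2 : 0 ≤ e4 * L := by positivity
      linarith
    calc 100 * (1 + 2 * Real.log Q) ^ 15 ≤ 100 * ((1 + e4) * L) ^ 15 :=
          mul_le_mul_of_nonneg_left (pow_le_pow_left₀ (by linarith) t1 15) (by norm_num)
      _ = (100 * (1 + e4) ^ 15) * L ^ 15 := by ring
      _ ≤ L * L ^ 15 := mul_le_mul_of_nonneg_right a2 (by positivity)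
      _ = L ^ 16 := by ring
  · rw [hr]; exact g6
  · rw [hr]
    rw [div_mul_eq_mul_div, div_le_iff₀ hε] at g7
    have t1 : 16 * (2 + Real.log (yN e1 N)) * L ≤ 16 * (2 + e1) * L ^ 2 := by
      have t2 : 2 + Real.log (yN e1 N) ≤ (2 + e1) * L := by linarith
      calc 16 * (2 + Real.log (yN e1 N)) * L ≤ 16 * ((2 + e1) * L) * L :=
            mul_le_mul_of_nonneg_right (by linarith) hL0.le
        _ = 16 * (2 + e1) * L ^ 2 := by ring
    linarith
  · -- 80 y Q² L
    rw [div_mul_eq_mul_div, div_le_iff₀ hε] at g8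
    calc 80 * yN e1 N * (Q : ℝ) ^ 2 * L = (yN e1 N : ℝ) * (Q : ℝ) ^ 2 * (80 * L) := by ring
      _ ≤ (N : ℝ) ^ e1 * (N : ℝ) ^ (e4 / 6) * ((N : ℝ) ^ (e4 / 4) * ε) :=
          mul_le_mul (mul_le_mul y1 q5 (by positivity) (by positivity)) g8 (by positivity) (by positivity)
      _ = ε * (N : ℝ) ^ (e1 + e4 / 6 + e4 / 4) := by
          rw [Real.rpow_add hNpos, Real.rpow_add hNpos]
          ring
      _ ≤ ε * (N : ℝ) ^ e4 :=
          mul_le_mul_of_nonneg_left (Real.rpow_le_rpow_of_exponent_le hN1 (by linarith)) hε.le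
  · rw [div_mul_eq_mul_div, div_le_iff₀ hε] at g8
    calc 8 * ((w : ℝ) + 1) ^ (2 * r + 1) * L = ((w : ℝ) + 1) ^ (2 * r + 1) * (8 * L) := by ring
      _ ≤ (N : ℝ) ^ (e4 / 4) * ((N : ℝ) ^ (e4 / 4) * ε) :=
          mul_le_mul p2 (by linarith) (by positivity) (by positivity)
      _ = ε * (N : ℝ) ^ (e4 / 4 + e4 / 4) := by
          rw [Real.rpow_add hNpos]
          ring
      _ ≤ ε * (N : ℝ) ^ e4 :=
          mul_le_mul_of_nonneg_left (Real.rpow_le_rpow_of_exponent_le hN1 (by linarith)) hε.le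
  · calc 8 * (Q : ℝ) ^ 4 * L ^ (A + 4) = (Q : ℝ) ^ 4 * (8 * L ^ (A + 4)) := by ring
      _ ≤ (N : ℝ) ^ (e4 / 3) * (N : ℝ) ^ (e4 / 4) := mul_le_mul q4 g10 (by positivity) (by positivity)
      _ = (N : ℝ) ^ (e4 / 3 + e4 / 4) := by rw [Real.rpow_add hNpos]
      _ ≤ (N : ℝ) ^ e4 := Real.rpow_le_rpow_of_exponent_le hN1 (by linarith)
  · rw [div_le_div_iff₀ (by positivity) y7]
    have t1 : e4 / 40 * L - 1 ≤ Real.log D := by
      have := Real.log_le_log (by positivity) d3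
      rw [Real.log_div (by positivity) (by norm_num), Real.log_rpow hNpos] at this
      have h2 := Real.log_two_lt_d9
      linarith
    have t2 : 200 ≤ e4 * L := by
      rw [div_le_iff₀ he4] at a3
      linarith
    calc e4 * Real.log (yN e1 N) ≤ e4 * (e1 * L) := mul_le_mul_of_nonneg_left y6 he4.le
      _ = (e4 / 50 * L) * (50 * e1) := by ring
      _ ≤ (e4 / 40 * L - 1) * (50 * e1) := by
          refine mul_le_mul_of_nonneg_right ?_ (by positivity)
          linarith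
      _ ≤ Real.log D * (50 * e1) := mul_le_mul_of_nonneg_right t1 (by positivity)
  · rw [hQ]
    calc w ≤ w ^ (2 * r) := Nat.le_self_pow (by omega) w
      _ ≤ w ^ (2 * r) * D ^ 2 := Nat.le_mul_of_pos_right _ (by positivity)
  · exact q4.trans (Real.rpow_le_rpow_of_exponent_le hN1 (by linarith))

end Pool.Agent.H76.TP

end
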