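import Pool.Agent.H43.PJ.M45

/-! The parts of this file: H46.TPQ.Defs, H91.TQ.SLowA, H91.TQ.SLowB. -/

section

/-!
# PROJECT TPQ (MP_967f73_nt): two primes `n - x`, `n + x` with `|x| ≤ n^θ` for almost all `n`, `2/9 ≤ θ < 1/3`: definitions and interface

`L = log N`, `H = Hn θ N = ⌊N^θ⌋`, `R = Rn B N = ⌊L^B⌋`, `y = yN e1 N = ⌊N^e1⌋`, `z = zz y J = 2^J y`, `z1 = zz y J1`, `LevQ`: `N^(111/500) ≤ z ≤ N^(2221/10000)`, `N^(3053/10000) ≤ z1 ≤ N^(1527/5000)`
(`2221/10000 < 2/9 ≤ θ`, `1527/5000 < 11/36 ≤ (1+θ)/4`, `5 · 111/500 > 1`).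

Exact functions, `0` unless `m` is `z`-rough: `ρ = rg z`, `om ρ` (`om = om y J J1 m = #{p ∣ m : z < p ≤ z1} ≤ 4`), `ee0 = (om - 1)_+ ρ`, `gg0 = (om² - 1)/(2 om) ρ` (`0` for `om = 0`), `F = (1 - om) ρ`.
Certificate (`Star.lean`), for all `u, v`:  `1_P 1_P' ≥ 1_P F' + F 1_P' - F F' - e ρ' - ρ e' + g (om ρ)' + (om ρ) g'`.
LFU functions: `R0 = Ap S y J`, `R1 = om T - ∑_j Fp (om bf)`, `DD = S - T + sqp y J1 ≥ 0`: `0 ≤ R0 - ρ ≤ DD`, `|R1 - om ρ| ≤ 4 DD` (`Cert.lean`), so the certificate holds for them with the loss `30 (R0 D' + D R0' + D D')`, that is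
`∑_{j<3} (X_j(u) Y_j(v) + Y_j(u) X_j(v)) ≤ 1_P 1_P'`, `X = (R0, R1, DD)`, `Y1 = pr - R0/2 - ee0 + R1 - 30 DD`, `Y2 = -pr - R1/2 + gg0`, `Y3 = -15 DD`.

* `LIN`: the LFU black box (helper91); densities `k0 = kapA`, `k1 = 2 (kapA - kapF)`, `kD = kS - kT`;
* WD functions `pr, ee0, gg0` (`H43/TS/Pr.lean`, `H31/EQ`), densities `gp = 1/log x`, `gE = gam ee0 H1 x`, `gG = gam gg0 H1 x`, `H1 = ⌊N/L^A1⌋`;
* `MM` = the main term, `mass7` (helper9): `MM ≥ (1/100)/L²`;
* `CertFin.lean`: `CERT θ (1/100) 3`; then `cert_res` (`H43/TS/Fin.lean`).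
-/

set_option autoImplicit false

namespace Pool.Agent.H46.TPQ

open Finset
open Pool.Agent.H91.PK (ee)
open Pool.Agent.H91.EHA (Lam lamR)
open Pool.Agent.H43.MP (blk Hn idx Rn)
open Pool.Agent.H43.TP (badF)
open Pool.Agent.H35.W (pb)
open Pool.Agent.H53.MID (Fp)
open Pool.Agent.H76.TP (yN zz rg bf kap kapA Ap Z2 Z3 PY)
open Pool.Agent.H91.TQ (om bq kapF Fq sqp Lev)
open Pool.Agent.H31.EQ (gam)

/-- the levels -/
def LevQ (N y J J1 : ℕ) : Prop := Lev (111 / 500) (2221 / 10000) (3053 / 10000) (1527 / 5000) N y J J1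

/-- `R1 = om T - ∑_{j<J} Fp (om bf) (2^j y)`, the approximation of `om ρ` -/
noncomputable def R1 (S T : ℕ → ℝ) (y J J1 m : ℕ) : ℝ := 2 * (Ap S y J m - Fq S T y J J1 m + sqp y J m)

/-- the density of `R1` -/
noncomputable def k1 (kS kT : ℝ) (y J J1 x : ℕ) : ℝ := 2 * (kapA kS y J x - kapF kS kT y J J1 x)

/-- the error function -/
noncomputable def DD (S T : ℕ → ℝ) (y J1 m : ℕ) : ℝ := S m - T m + sqp y J1 m

/-- `(k - 1)_+` -/
noncomputable def e0 (k : ℕ) : ℝ := if k = 0 then 0 else (k : ℝ) - 1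

/-- `(k² - 1)/(2k)`, `0` for `k = 0` -/
noncomputable def g0 (k : ℕ) : ℝ := if k = 0 then 0 else ((k : ℝ) ^ 2 - 1) / (2 * k)

/-- `e` -/
noncomputable def ee0 (y J J1 m : ℕ) : ℝ := rg (zz y J) m * e0 (om y J J1 m)

/-- `g` -/
noncomputable def gg0 (y J J1 m : ℕ) : ℝ := rg (zz y J) m * g0 (om y J J1 m)

/-- the sieve pair: lower bound `T ≤ rg y ≤ S`, densities `kT, kS` with a relative error `ε/L` -/
def SvI (N y : ℕ) (ε : ℝ) (S T : ℕ → ℝ) (kS kT : ℝ) : Prop :=
  (∀ m, 1 ≤ m → T m ≤ rg y m ∧ rg y m ≤ S m) ∧ |kS| ≤ 1 ∧ |kT| ≤ 1 ∧ kT ≤ kS ∧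
  ∀ x l : ℕ, 1 ≤ x → x ≤ 16 * N → (N : ℝ) ^ (1 / 4 : ℝ) ≤ l →
    |kS * l - ∑ m ∈ Ioc x (x + l), rg y m| ≤ ε * l / Real.log N ∧
    |kT * l - ∑ m ∈ Ioc x (x + l), rg y m| ≤ ε * l / Real.log N

/-- the LFU black box (helper91) -/
def LIN (θ : ℝ) : Prop := ∀ ε : ℝ, 0 < ε → ∃ e1 : ℝ, 0 < e1 ∧ e1 ≤ 1 / 100 ∧ ∃ C : ℕ, ∀ A : ℕ, ∃ B N0 : ℕ, ∀ N : ℕ, N0 ≤ N →
  ∃ (J J1 : ℕ) (S T : ℕ → ℝ) (kS kT : ℝ), LevQ N (yN e1 N) J J1 ∧ SvI N (yN e1 N) ε S T kS kT ∧
    (∀ i ∈ idx N (Hn θ N),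
      ∑ m ∈ blk (Hn θ N) i, Ap S (yN e1 N) J m ^ 2 ≤ Hn θ N * Real.log N ^ C ∧
      ∑ m ∈ blk (Hn θ N) i, R1 S T (yN e1 N) J J1 m ^ 2 ≤ Hn θ N * Real.log N ^ C ∧
      ∑ m ∈ blk (Hn θ N) i, DD S T (yN e1 N) J1 m ^ 2 ≤ Hn θ N * Real.log N ^ C) ∧
    (∀ i ∈ idx N (Hn θ N), i + 1 ∈ idx N (Hn θ N) →
      |kapA kS (yN e1 N) J (i * Hn θ N) - kapA kS (yN e1 N) J ((i + 1) * Hn θ N)| ≤ 1 / Real.log N ^ A ∧
      |k1 kS kT (yN e1 N) J J1 (i * Hn θ N) - k1 kS kT (yN e1 N) J J1 ((i + 1) * Hn θ N)| ≤ 1 / Real.log N ^ A) ∧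
    ((badF N (Hn θ N) (Rn B N) A (Ap S (yN e1 N) J) (fun i => kapA kS (yN e1 N) J (i * Hn θ N))).card : ℝ) ≤
      (N : ℝ) / (Hn θ N) / Real.log N ^ A ∧
    ((badF N (Hn θ N) (Rn B N) A (R1 S T (yN e1 N) J J1) (fun i => k1 kS kT (yN e1 N) J J1 (i * Hn θ N))).card : ℝ) ≤
      (N : ℝ) / (Hn θ N) / Real.log N ^ A ∧
    ((badF N (Hn θ N) (Rn B N) A (DD S T (yN e1 N) J1) (fun _ => kS - kT)).card : ℝ) ≤
      (N : ℝ) / (Hn θ N) / Real.log N ^ A

/-- the main term of the certificate -/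
noncomputable def MM (gp gE gG k0 k1 kD : ℝ) : ℝ :=
  2 * gp * (k0 - k1) - (k0 - k1) ^ 2 - 2 * gE * k0 + 2 * gG * k1 - 60 * k0 * kD - 30 * kD ^ 2

/-- the mass condition (helper9) -/
def MASS7 : Prop := ∀ (e1 : ℝ) (A1 : ℕ), 0 < e1 → e1 ≤ 1 / 100 → 10 ≤ A1 → ∃ N0 : ℕ, ∀ N : ℕ, N0 ≤ N →
  ∀ (J J1 : ℕ) (S T : ℕ → ℝ) (kS kT : ℝ), LevQ N (yN e1 N) J J1 → SvI N (yN e1 N) (1 / 10 ^ 7) S T kS kT →
    ∀ x : ℕ, N ≤ 4 * x → x ≤ 4 * N →
      |kapA kS (yN e1 N) J x| ≤ 1 ∧ |k1 kS kT (yN e1 N) J J1 x| ≤ 1 ∧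
      1 / 100 / Real.log N ^ 2 ≤ MM (1 / Real.log x)
        (gam (ee0 (yN e1 N) J J1) ⌊(N : ℝ) / Real.log N ^ A1⌋₊ x) (gam (gg0 (yN e1 N) J J1) ⌊(N : ℝ) / Real.log N ^ A1⌋₊ x)
        (kapA kS (yN e1 N) J x) (k1 kS kT (yN e1 N) J J1 x) (kS - kT)

end Pool.Agent.H46.TPQ

end

section

/-!
# TQ SLowA: the lower bound sieve and its divisor expansion

`TSv w y r ρ m = ∑_{T ⊆ PW w, T ∣ m, |T| ≤ 2r+1} (-1)^|T| - ∑_{p ∈ PY w y, p ∣ m} SS w (p-1) r (ρ p) (m/p)`, `ρ p` admissible weights (`Rho w (p-1) D`).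
* `ts_le`: Bonferroni (`∑_{|T| ≤ 2r+1} (-1)^|T| ≤ 1[w-rough] = rg w m`, compare `buc_bonf` in `H76/TP/Buc.lean`), `rg w m ≤ rg y m + ∑_{p ∈ PY w y, p ∣ m} rg (p-1) (m/p)` (`buc_step`, private in `Buc.lean`: copy it),
  `rg (p-1) (m/p) ≤ SS w (p-1) r (ρ p) (m/p)` (`ss_ge`, `m/p ≥ 1`).
* `ts_adm`: coefficients `gT n = [n squarefree, all prime factors ≤ w, ω(n) ≤ 2r+1] (-1)^ω(n) - ∑_{p ∈ PY w y, p ∣ n} [n squarefree] gS w (p-1) r (ρ p) (n/p)`.
  For squarefree `n`, `gS w (p-1) r (ρ p) (n/p) ≠ 0` only if all prime factors of `n/p` are `≤ p - 1` (definition of `gS`), so `p` is the largest prime factor of `n`: at most one `p` contributes, `|gT n| ≤ 3^ω(n)`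
  (`gs_abs`; if it contributes, the first term is `0` because `p > w`).  Expansion: the `T ⊆ PW w`, `∏T ∣ m` are the squarefree `w`-smooth `n ∣ m` (`n ≤ w^(2r+1)` if `|T| ≤ 2r+1`; compare `SvA_pair`, `ss_exp`); and
  `SS w (p-1) r (ρ p) (m/p) = ∑_{n' ≤ Q', n' ∣ m/p} gS n'` (`ss_exp`), `n = p n'` (`n' ∣ m/p ↔ p n' ∣ m` for `p ∣ m`; `gS n' ≠ 0` implies `n'` squarefree and `p ∤ n'`, so `p n'` is squarefree; `gs_zero` for the range).
-/

set_option autoImplicit false

namespace Pool.Agent.H91.TQ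

open Finset
open Pool.Agent.H76.TP

/-- the odd Bonferroni sum -/
noncomputable def bonL (w r m : ℕ) : ℝ :=
  ∑ T ∈ ((PW w).filter (fun p => p ∣ m)).powerset.filter (fun T => T.card ≤ 2 * r + 1), (-1 : ℝ) ^ T.card

/-- the lower bound sieve -/
noncomputable def TSv (w y r : ℕ) (ρ : ℕ → Finset ℕ → ℝ) (m : ℕ) : ℝ :=
  bonL w r m - ∑ p ∈ (PY w y).filter (fun p => p ∣ m), SS w (p - 1) r (ρ p) (m / p)

open Classical in
/-- its coefficients -/
noncomputable def gT (w y r : ℕ) (ρ : ℕ → Finset ℕ → ℝ) (n : ℕ) : ℝ :=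
  if Squarefree n then
    (if (∀ p ∈ n.primeFactors, p ≤ w) ∧ n.primeFactors.card ≤ 2 * r + 1 then (-1 : ℝ) ^ n.primeFactors.card else 0)
      - ∑ p ∈ (PY w y).filter (fun p => p ∣ n), gS w (p - 1) r (ρ p) (n / p)
  else 0

private theorem SLowA_rg_nonneg (y k : ℕ) : 0 ≤ rg y k := by
  unfold rg; split_ifs <;> norm_num

private theorem SLowA_step (w y m : ℕ) (hm : 1 ≤ m) :
    rg w m ≤ rg y m + ∑ p ∈ PY w y, if p ∣ m then rg (p - 1) (m / p) else 0 := by
  have hs : ∀ p ∈ PY w y, 0 ≤ (if p ∣ m then rg (p - 1) (m / p) else 0) := by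
    intro p _
    split_ifs
    · exact SLowA_rg_nonneg _ _
    · exact le_rfl
  have hs0 := sum_nonneg hs
  by_cases h : ∀ p : ℕ, p.Prime → p ∣ m → w < p
  · have h1 : rg w m = 1 := by unfold rg; rw [if_pos h]
    by_cases h2 : ∀ p : ℕ, p.Prime → p ∣ m → y < p
    · have h3 : rg y m = 1 := by unfold rg; rw [if_pos h2]
      rw [h1, h3]
      linarith
    · push Not at h2
      obtain ⟨p0, hp0, hpm, hpy⟩ := h2
      have hm1 : m ≠ 1 := by
        rintro rfl
        exact hp0.one_lt.ne' (Nat.dvd_one.1 hpm)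
      have hp : (m.minFac).Prime := Nat.minFac_prime hm1
      have hpd : m.minFac ∣ m := Nat.minFac_dvd m
      have hle : m.minFac ≤ p0 := Nat.minFac_le_of_dvd hp0.two_le hpm
      have hw := h _ hp hpd
      have hmem : m.minFac ∈ PY w y := by
        unfold PY
        rw [mem_filter, mem_Ioc]
        exact ⟨⟨hw, hle.trans hpy⟩, hp⟩
      have h4 := single_le_sum hs hmem
      simp only [if_pos hpd] at h4
      have h5 : rg (m.minFac - 1) (m / m.minFac) = 1 := by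
        unfold rg
        rw [if_pos]
        intro q hq hqd
        have h6 : q ∣ m := hqd.trans (Nat.div_dvd_of_dvd hpd)
        have h7 := Nat.minFac_le_of_dvd hq.two_le h6
        have h8 := hp.two_le
        omega
      rw [h5] at h4
      have h9 := SLowA_rg_nonneg y m
      rw [h1]
      linarith
  · have h1 : rg w m = 0 := by unfold rg; rw [if_neg h]
    rw [h1]
    have h9 := SLowA_rg_nonneg y m
    linarith

private theorem SLowA_card_sum (V : Finset ℕ) (k : ℕ) (F : ℕ → ℝ) :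
    ∑ T ∈ V.powerset.filter (fun T => T.card ≤ k), F T.card =
      ∑ j ∈ range (k + 1), (V.card.choose j : ℝ) * F j := by
  rw [← Finset.sum_fiberwise_of_maps_to (s := V.powerset.filter (fun T => T.card ≤ k)) (t := range (k + 1))
    (g := fun T => T.card) (f := fun T => F T.card)]
  · refine sum_congr rfl fun j hj => ?_
    have h1 : ((V.powerset.filter (fun T => T.card ≤ k)).filter (fun T => T.card = j)) = powersetCard j V := by
      ext T
      rw [mem_range] at hj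
      simp only [mem_filter, mem_powerset, mem_powersetCard]
      constructor
      · rintro ⟨⟨h1, _⟩, h3⟩
        exact ⟨h1, h3⟩
      · rintro ⟨h1, h3⟩
        exact ⟨⟨h1, by omega⟩, h3⟩
    rw [h1, sum_congr rfl (g := fun _ => F j)
      (fun T hT => by rw [(mem_powersetCard.1 hT).2]), sum_const, card_powersetCard, nsmul_eq_mul]
  · intro T hT
    rw [mem_filter] at hT
    rw [mem_range]
    omega

private theorem SLowA_bonf (V : Finset ℕ) (r : ℕ) :
    ∑ T ∈ V.powerset.filter (fun T => T.card ≤ 2 * r + 1), (-1 : ℝ) ^ T.card ≤ if V = ∅ then 1 else 0 := by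
  rw [SLowA_card_sum V (2 * r + 1) (fun j => (-1 : ℝ) ^ j)]
  split_ifs with h
  · subst h
    rw [card_empty, sum_range_succ']
    simp
  · obtain ⟨n, hn⟩ : ∃ n, V.card = n + 1 := ⟨V.card - 1, by
      have := card_pos.2 (nonempty_iff_ne_empty.2 h); omega⟩
    rw [hn]
    have h1 := @Int.alternating_sum_range_choose_eq_choose n (2 * r + 1)
    have h2 : ((∑ k ∈ range (2 * r + 1 + 1), ((-1) ^ k * (n + 1).choose k : ℤ) : ℤ) : ℝ) =
        (((-1) ^ (2 * r + 1) * n.choose (2 * r + 1) : ℤ) : ℝ) := by rw [h1]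
    push_cast at h2
    have h3 : ∑ j ∈ range (2 * r + 1 + 1), ((n + 1).choose j : ℝ) * (-1 : ℝ) ^ j =
        (-1) ^ (2 * r + 1) * (n.choose (2 * r + 1) : ℝ) := by
      rw [← h2]
      exact sum_congr rfl fun j _ => mul_comm _ _
    rw [h3]
    have h4 : ((-1 : ℝ)) ^ (2 * r + 1) = -1 := Odd.neg_one_pow ⟨r, rfl⟩
    rw [h4]
    have : (0 : ℝ) ≤ (n.choose (2 * r + 1) : ℝ) := by positivity
    linarith

private theorem SLowA_bonL_le (w r m : ℕ) : bonL w r m ≤ rg w m := by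
  have h2 := SLowA_bonf ((PW w).filter (fun p => p ∣ m)) r
  have h3 : rg w m = if ((PW w).filter (fun p => p ∣ m)) = ∅ then 1 else 0 := by
    unfold rg
    by_cases h : ∀ p : ℕ, p.Prime → p ∣ m → w < p
    · rw [if_pos h, if_pos]
      rw [filter_eq_empty_iff]
      intro p hp hpm
      unfold PW at hp
      rw [mem_filter, mem_Icc] at hp
      have := h p hp.2 hpm
      omega
    · rw [if_neg h, if_neg]
      intro h4
      apply h
      intro p hp hpm
      by_contra h5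
      rw [not_lt] at h5
      have h6 : p ∈ ((PW w).filter (fun p => p ∣ m)) := by
        unfold PW
        rw [mem_filter, mem_filter, mem_Icc]
        exact ⟨⟨⟨hp.one_le, h5⟩, hp⟩, hpm⟩
      rw [h4] at h6
      exact notMem_empty p h6
  rw [h3]
  exact h2

private theorem SLowA_mem {w y p : ℕ} (hp : p ∈ PY w y) : w < p ∧ p ≤ y ∧ p.Prime := by
  unfold PY at hp
  rw [mem_filter, mem_Ioc] at hp
  exact ⟨hp.1.1, hp.1.2, hp.2⟩

private theorem SLowA_gs_ne {w y r n : ℕ} {ρ : Finset ℕ → ℝ} (h : gS w y r ρ n ≠ 0) :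
    Squarefree n ∧ ∀ q ∈ n.primeFactors, q ≤ y := by
  unfold gS at h
  split_ifs at h with h1
  · exact ⟨h1.1, h1.2.1⟩
  · exact absurd rfl h

/-- a nonzero term forces `p` to be the largest prime factor -/
private theorem SLowA_big {w r n p : ℕ} {ρ : Finset ℕ → ℝ} (hp : p.Prime) (hpn : p ∣ n) (hn : n ≠ 0)
    (h : gS w (p - 1) r ρ (n / p) ≠ 0) {q : ℕ} (hq : q.Prime) (hqn : q ∣ n) (hqp : q ≠ p) : q < p := by
  have h1 : q ∣ n / p := by
    obtain ⟨k, rfl⟩ := hpn
    rw [Nat.mul_div_cancel_left _ hp.pos]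
    rcases (Nat.Prime.dvd_mul hq).1 hqn with h2 | h2
    · exact absurd ((Nat.prime_dvd_prime_iff_eq hq hp).1 h2) hqp
    · exact h2
  have h2 : n / p ≠ 0 := by
    have := Nat.div_pos (Nat.le_of_dvd (Nat.pos_of_ne_zero hn) hpn) hp.pos
    omega
  have h3 := (SLowA_gs_ne h).2 q (Nat.mem_primeFactors.2 ⟨hq, h1, h2⟩)
  have h4 := hp.two_le
  omega

/-- a nonzero term forces `n` to be squarefree -/
private theorem SLowA_sqf {w r n p : ℕ} {ρ : Finset ℕ → ℝ} (hp : p.Prime) (hpn : p ∣ n) (hn : n ≠ 0)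
    (h : gS w (p - 1) r ρ (n / p) ≠ 0) : Squarefree n := by
  obtain ⟨k, rfl⟩ := hpn
  rw [Nat.mul_div_cancel_left _ hp.pos] at h
  obtain ⟨h1, h2⟩ := SLowA_gs_ne h
  have hk : k ≠ 0 := fun hk => hn (by rw [hk, mul_zero])
  have h3 : Nat.Coprime p k := by
    rw [Nat.Prime.coprime_iff_not_dvd hp]
    intro h4
    have h5 := h2 p (Nat.mem_primeFactors.2 ⟨hp, h4, hk⟩)
    have h6 := hp.two_le
    omega
  rw [Nat.squarefree_mul h3]
  exact ⟨hp.squarefree, h1⟩

open Classical in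
private theorem SLowA_bon (w r m : ℕ) (hm : 1 ≤ m) : bonL w r m = ∑ n ∈ m.divisors,
    (if Squarefree n ∧ (∀ p ∈ n.primeFactors, p ≤ w) ∧ n.primeFactors.card ≤ 2 * r + 1 then
      (-1 : ℝ) ^ n.primeFactors.card else 0) := by
  rw [← sum_filter]
  unfold bonL
  have hT0 : ∀ T ∈ ((PW w).filter (fun p => p ∣ m)).powerset.filter (fun T => T.card ≤ 2 * r + 1),
      T.card ≤ 2 * r + 1 ∧ ∀ p ∈ T, p.Prime ∧ p ≤ w ∧ p ∣ m := by
    intro T hT
    rw [mem_filter, mem_powerset] at hT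
    refine ⟨hT.2, fun p hp => ?_⟩
    have h1 := hT.1 hp
    unfold PW at h1
    rw [mem_filter, mem_filter, mem_Icc] at h1
    exact ⟨h1.1.2, h1.1.1.2, h1.2⟩
  apply Finset.sum_nbij' (fun T : Finset ℕ => ∏ p ∈ T, p) (fun n : ℕ => n.primeFactors)
  · intro T hT
    obtain ⟨h1, h2⟩ := hT0 T hT
    rw [mem_filter, Nat.mem_divisors, Nat.primeFactors_prod (fun p hp => (h2 p hp).1)]
    refine ⟨⟨Finset.prod_primes_dvd m (fun p h => (h2 p h).1.prime) (fun p h => (h2 p h).2.2), by omega⟩, ?_,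
      fun p hp => (h2 p hp).2.1, h1⟩
    apply Finset.squarefree_prod_of_pairwise_isCoprime
    · intro p hp q hq hpq
      rw [Function.onFun, ← Nat.coprime_iff_isRelPrime]
      exact (Nat.coprime_primes (h2 p hp).1 (h2 q hq).1).mpr hpq
    · intro p hp
      exact (h2 p hp).1.prime.squarefree
  · intro n hn
    rw [mem_filter, Nat.mem_divisors] at hn
    obtain ⟨⟨hnm, -⟩, hsq, hy, hc⟩ := hn
    rw [mem_filter, mem_powerset]
    refine ⟨?_, hc⟩
    intro p hp
    unfold PW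
    rw [mem_filter, mem_filter, mem_Icc]
    have h1 := Nat.prime_of_mem_primeFactors hp
    exact ⟨⟨⟨h1.one_lt.le, hy p hp⟩, h1⟩, (Nat.dvd_of_mem_primeFactors hp).trans hnm⟩
  · intro T hT
    obtain ⟨h1, h2⟩ := hT0 T hT
    exact Nat.primeFactors_prod (fun p hp => (h2 p hp).1)
  · intro n hn
    rw [mem_filter] at hn
    exact Nat.prod_primeFactors_of_squarefree hn.2.1
  · intro T hT
    obtain ⟨h1, h2⟩ := hT0 T hT
    rw [Nat.primeFactors_prod (fun p hp => (h2 p hp).1)]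

private theorem SLowA_ss (w r D p : ℕ) (ρ : Finset ℕ → ℝ) (hw : 1 ≤ w) (hwp : w ≤ p - 1) (hp : p.Prime)
    (hρ : Rho w (p - 1) D ρ) (m : ℕ) (hm : 1 ≤ m) (hpm : p ∣ m) :
    SS w (p - 1) r ρ (m / p) = ∑ n ∈ m.divisors, if p ∣ n then gS w (p - 1) r ρ (n / p) else 0 := by
  have hmp : 1 ≤ m / p := Nat.div_pos (Nat.le_of_dvd hm hpm) hp.pos
  rw [ss_exp w (p - 1) r D ρ hw hwp hρ (m / p) hmp]
  have h1 : ∑ n ∈ (Icc 1 (w ^ (2 * r) * D ^ 2)).filter (fun n => n ∣ m / p), gS w (p - 1) r ρ n =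
      ∑ n ∈ (m / p).divisors, gS w (p - 1) r ρ n := by
    apply sum_subset
    · intro n hn
      rw [mem_filter] at hn
      exact Nat.mem_divisors.2 ⟨hn.2, by omega⟩
    · intro n hn hn2
      apply gs_zero w (p - 1) r D ρ hw hρ
      by_contra hcon
      push Not at hcon
      apply hn2
      rw [mem_filter, mem_Icc]
      exact ⟨⟨Nat.pos_of_mem_divisors hn, hcon⟩, Nat.dvd_of_mem_divisors hn⟩
  rw [h1, ← sum_filter]
  refine sum_nbij' (fun n => p * n) (fun n => n / p) ?_ ?_ ?_ ?_ ?_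
  · intro n hn
    rw [Nat.mem_divisors] at hn
    rw [mem_filter, Nat.mem_divisors]
    refine ⟨⟨?_, by omega⟩, Dvd.intro n rfl⟩
    have h2 := Nat.mul_dvd_mul_left p hn.1
    rwa [Nat.mul_div_cancel' hpm] at h2
  · intro n hn
    rw [mem_filter, Nat.mem_divisors] at hn
    rw [Nat.mem_divisors]
    exact ⟨Nat.div_dvd_div hn.2 hn.1.1, by omega⟩
  · intro n _
    exact Nat.mul_div_cancel_left _ hp.pos
  · intro n hn
    rw [mem_filter] at hn
    exact Nat.mul_div_cancel' hn.2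
  · intro n _
    rw [Nat.mul_div_cancel_left _ hp.pos]

theorem ts_le (w y r D : ℕ) (ρ : ℕ → Finset ℕ → ℝ) (hw : 1 ≤ w) (hwy : w ≤ y)
    (hρ : ∀ p ∈ PY w y, Rho w (p - 1) D (ρ p)) (m : ℕ) (hm : 1 ≤ m) : TSv w y r ρ m ≤ rg y m := by
  unfold TSv
  have h1 := SLowA_bonL_le w r m
  have h2 := SLowA_step w y m hm
  have h3 : ∑ p ∈ PY w y, (if p ∣ m then rg (p - 1) (m / p) else 0) ≤
      ∑ p ∈ (PY w y).filter (fun p => p ∣ m), SS w (p - 1) r (ρ p) (m / p) := by
    rw [← sum_filter]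
    refine sum_le_sum fun p hp => ?_
    rw [mem_filter] at hp
    obtain ⟨hp1, hpm⟩ := hp
    obtain ⟨hwp, hpy, hpp⟩ := SLowA_mem hp1
    exact ss_ge w (p - 1) r D (ρ p) (by omega) (hρ p hp1) (m / p)
      (Nat.div_pos (Nat.le_of_dvd hm hpm) hpp.pos)
  linarith

theorem gt_abs (w y r D : ℕ) (ρ : ℕ → Finset ℕ → ℝ) (hw : 1 ≤ w) (hwy : w ≤ y)
    (hρ : ∀ p ∈ PY w y, Rho w (p - 1) D (ρ p)) (n : ℕ) : |gT w y r ρ n| ≤ 3 ^ n.primeFactors.card := by
  classical
  have h3 : (1 : ℝ) ≤ 3 ^ n.primeFactors.card := one_le_pow₀ (by norm_num)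
  unfold gT
  by_cases hsq : Squarefree n
  · rw [if_pos hsq]
    have hn0 : n ≠ 0 := hsq.ne_zero
    by_cases hall : ∀ p ∈ n.primeFactors, p ≤ w
    · have hE : (PY w y).filter (fun p => p ∣ n) = ∅ := by
        rw [filter_eq_empty_iff]
        intro p hp hpn
        obtain ⟨hwp, hpy, hpp⟩ := SLowA_mem hp
        have := hall p (Nat.mem_primeFactors.2 ⟨hpp, hpn, hn0⟩)
        omega
      rw [hE, sum_empty, sub_zero]
      split_ifs
      · rw [abs_pow, abs_neg, abs_one, one_pow]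
        exact h3
      · rw [abs_zero]
        linarith
    · rw [if_neg (fun h => hall h.1), zero_sub, abs_neg]
      by_cases h0 : ∃ p ∈ (PY w y).filter (fun p => p ∣ n), gS w (p - 1) r (ρ p) (n / p) ≠ 0
      · obtain ⟨p, hp, hg⟩ := h0
        have hp' := hp
        rw [mem_filter] at hp'
        obtain ⟨hwp, hpy, hpp⟩ := SLowA_mem hp'.1
        rw [Finset.sum_eq_single p]
        · refine (gs_abs w (p - 1) r D (ρ p) (hρ p hp'.1) (n / p)).trans ?_
          apply pow_le_pow_right₀ (by norm_num)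
          exact card_le_card (Nat.primeFactors_mono (Nat.div_dvd_of_dvd hp'.2) hn0)
        · intro q hq hqp
          rw [mem_filter] at hq
          obtain ⟨-, -, hqq⟩ := SLowA_mem hq.1
          by_contra hcon
          have h4 := SLowA_big hpp hp'.2 hn0 hg hqq hq.2 hqp
          have h5 := SLowA_big hqq hq.2 hn0 hcon hpp hp'.2 (Ne.symm hqp)
          omega
        · intro h
          exact absurd hp h
      · push Not at h0
        rw [sum_eq_zero h0, abs_zero]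
        linarith
  · rw [if_neg hsq, abs_zero]
    linarith

theorem ts_adm (w y r D : ℕ) (ρ : ℕ → Finset ℕ → ℝ) (hw : 1 ≤ w) (hwy : w ≤ y) (hD : 1 ≤ D)
    (hρ : ∀ p ∈ PY w y, Rho w (p - 1) D (ρ p)) :
    Adm (y * (w ^ (2 * r + 1) * D ^ 2)) (gT w y r ρ) (TSv w y r ρ) := by
  classical
  refine ⟨fun n hn => by unfold gT; rw [if_neg hn], fun n => gt_abs w y r D ρ hw hwy hρ n, fun m hm => ?_⟩
  -- the expansion over all divisors
  have hdiv : TSv w y r ρ m = ∑ n ∈ m.divisors, gT w y r ρ n := by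
    unfold TSv
    rw [SLowA_bon w r m hm]
    have h1 : ∑ p ∈ (PY w y).filter (fun p => p ∣ m), SS w (p - 1) r (ρ p) (m / p) =
        ∑ n ∈ m.divisors, ∑ p ∈ (PY w y).filter (fun p => p ∣ n), gS w (p - 1) r (ρ p) (n / p) := by
      have h2 : ∀ p ∈ (PY w y).filter (fun p => p ∣ m), SS w (p - 1) r (ρ p) (m / p) =
          ∑ n ∈ m.divisors, if p ∣ n then gS w (p - 1) r (ρ p) (n / p) else 0 := by
        intro p hp
        rw [mem_filter] at hp
        obtain ⟨hwp, hpy, hpp⟩ := SLowA_mem hp.1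
        exact SLowA_ss w r D p (ρ p) hw (by omega) hpp (hρ p hp.1) m hm hp.2
      rw [sum_congr rfl h2, sum_comm]
      refine sum_congr rfl fun n hn => ?_
      rw [Nat.mem_divisors] at hn
      rw [← sum_filter, filter_filter]
      refine sum_congr ?_ fun _ _ => rfl
      ext p
      rw [mem_filter, mem_filter]
      constructor
      · rintro ⟨h3, -, h4⟩
        exact ⟨h3, h4⟩
      · rintro ⟨h3, h4⟩
        exact ⟨h3, h4.trans hn.1, h4⟩
    rw [h1, ← sum_sub_distrib]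
    refine sum_congr rfl fun n hn => ?_
    have hn0 : n ≠ 0 := (Nat.pos_of_mem_divisors hn).ne'
    unfold gT
    by_cases hsq : Squarefree n
    · rw [if_pos hsq]
      by_cases hc : (∀ p ∈ n.primeFactors, p ≤ w) ∧ n.primeFactors.card ≤ 2 * r + 1
      · rw [if_pos ⟨hsq, hc⟩, if_pos hc]
      · rw [if_neg (fun h => hc h.2), if_neg hc]
    · rw [if_neg hsq, if_neg (fun h => hsq h.1), zero_sub, neg_eq_zero]
      refine sum_eq_zero fun p hp => ?_
      rw [mem_filter] at hp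
      obtain ⟨hwp, hpy, hpp⟩ := SLowA_mem hp.1
      by_contra hcon
      exact hsq (SLowA_sqf hpp hp.2 hn0 hcon)
  rw [hdiv]
  symm
  apply sum_subset
  · intro n hn
    rw [mem_filter] at hn
    exact Nat.mem_divisors.2 ⟨hn.2, by omega⟩
  · intro n hn hn2
    have hnp := Nat.pos_of_mem_divisors hn
    have hbig : y * (w ^ (2 * r + 1) * D ^ 2) < n := by
      by_contra hcon
      push Not at hcon
      apply hn2
      rw [mem_filter, mem_Icc]
      exact ⟨⟨hnp, hcon⟩, Nat.dvd_of_mem_divisors hn⟩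
    have hD2 : 1 ≤ D ^ 2 := Nat.one_le_pow _ _ hD
    have hy1 : 1 ≤ y := hw.trans hwy
    have hww : w ^ (2 * r) ≤ w ^ (2 * r + 1) := Nat.pow_le_pow_right hw (by omega)
    unfold gT
    by_cases hsq : Squarefree n
    · rw [if_pos hsq, if_neg, zero_sub, neg_eq_zero]
      · refine sum_eq_zero fun p hp => ?_
        rw [mem_filter] at hp
        obtain ⟨hwp, hpy, hpp⟩ := SLowA_mem hp.1
        apply gs_zero w (p - 1) r D (ρ p) hw (hρ p hp.1)
        obtain ⟨k, rfl⟩ := hp.2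
        rw [Nat.mul_div_cancel_left _ hpp.pos]
        by_contra hcon
        push Not at hcon
        have h1 : p * k ≤ y * (w ^ (2 * r + 1) * D ^ 2) :=
          Nat.mul_le_mul hpy (hcon.trans (Nat.mul_le_mul_right _ hww))
        omega
      · rintro ⟨h1, h2⟩
        have h3 : n ≤ w ^ (2 * r + 1) := by
          rw [← Nat.prod_primeFactors_of_squarefree hsq]
          exact (Finset.prod_le_pow_card _ (fun p : ℕ => p) w h1).trans (Nat.pow_le_pow_right hw h2)
        have h4 : w ^ (2 * r + 1) ≤ y * (w ^ (2 * r + 1) * D ^ 2) := by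
          calc w ^ (2 * r + 1) = 1 * (w ^ (2 * r + 1) * 1) := by ring
            _ ≤ y * (w ^ (2 * r + 1) * D ^ 2) := Nat.mul_le_mul hy1 (Nat.mul_le_mul_left _ hD2)
        omega
    · rw [if_neg hsq]

end Pool.Agent.H91.TQ

end

section

/-!
# TQ SLowB: the singular coefficients of the lower bound sieve

`Q = y w^(2r+1) D²`, `q ≤ w`.  `∑_{n ≤ Q, q ∣ n} gT n/n = ∑_{T ⊆ PW w, pf q ⊆ T, |T| ≤ 2r+1} (-1)^|T|/∏T - ∑_{p ∈ PY w y} (1/p) ∑_{n' ≤ Q', q ∣ n'} gS w (p-1) r (ρ p) n'/n'` (`q ∣ p n' ↔ q ∣ n'`, as `p > w ≥ q` is prime to `q`;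
the `n = p n'` with `gS n' ≠ 0` are squarefree; `q` not squarefree: all is `0`).
* First part: `= μ(q)/φ(q) VV(PW w) + O(2^(-r))`: the proof of `svb_first` in `H76/TP/SvB.lean` (private; copy it together with `svb_tail`) with `2r` replaced by `2r + 1` (the tail is even smaller), or: the difference of the
  two truncations is the layer `|T| = 2r+1`, `≤ ∑_{|T'| = 2r+1-ω(q)} 1/∏T' ≤ 2^(-r)` (for the constant: `svb_tail` bounds the whole tail by a smaller power; any bound `2/2^r` is enough here, see the right side).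
* Second part: `gs_sing` for `w, p-1` (`w ≤ p - 1`): `VV(PW w) SF w (p-1) (ρ p) μ(q)/φ(q) + O(2^(-r))`, `∑_{p ≤ y} 1/p ≤ 1 + log y`.
Total error `≤ (2 + 1 + log y)/2^r`.
-/

set_option autoImplicit false

namespace Pool.Agent.H91.TQ

open Finset
open Pool.Agent.H76.TP

/-- the density of the lower bound sieve -/
noncomputable def kTv (w y : ℕ) (ρ : ℕ → Finset ℕ → ℝ) : ℝ :=
  VV (PW w) - ∑ p ∈ PY w y, VV (PW w) * SF w (p - 1) (ρ p) / p

private noncomputable def slb_s (T : Finset ℕ) : ℝ := ∏ p ∈ T, (1 / (p : ℝ))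

private theorem slb_s_nonneg (T : Finset ℕ) : 0 ≤ slb_s T :=
  Finset.prod_nonneg fun p _ => by positivity

private theorem slb_inv (S : Finset ℕ) : (1 : ℝ) / ((∏ p ∈ S, p : ℕ) : ℝ) = slb_s S := by
  unfold slb_s
  rw [Nat.cast_prod, Finset.prod_div_distrib, Finset.prod_const_one]

private theorem slb_sf {S : Finset ℕ} (hS : ∀ p ∈ S, p.Prime) : Squarefree (∏ p ∈ S, p) := by
  refine Finset.squarefree_prod_of_pairwise_isCoprime (fun a ha b hb hab => ?_)
    fun a ha => (hS a ha).squarefree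
  simp only [Function.onFun, ← Nat.coprime_iff_isRelPrime]
  exact (Nat.coprime_primes (hS a ha) (hS b hb)).mpr hab

/-- the sum of the reciprocals of the primes -/
private theorem slb_X (w : ℕ) : ∑ p ∈ PW w, 1 / (p : ℝ) ≤ 1 + Real.log w := by
  have h1 := harmonic_le_one_add_log w
  rw [harmonic_eq_sum_Icc] at h1
  push_cast at h1
  refine le_trans ?_ h1
  unfold PW
  have h2 : ∀ k ∈ Icc 1 w, k ∉ (Icc 1 w).filter Nat.Prime → 0 ≤ ((k : ℝ))⁻¹ := by
    intro k _ _
    positivity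
  simp only [one_div]
  exact Finset.sum_le_sum_of_subset_of_nonneg (Finset.filter_subset _ _) h2

/-- the tail -/
private theorem slb_tail (w r k M : ℕ) (S : Finset ℕ) (hS : S ⊆ PW w)
    (hr : 6 * (1 + Real.log w) ≤ r + 1) (hk : k ≤ r) (hM : 2 * r ≤ M) :
    |∑ T ∈ S.powerset.filter (fun T => ¬ T.card + k ≤ M), (-1 : ℝ) ^ T.card * slb_s T| ≤
      1 / 2 ^ r := by
  have h1 : |∑ T ∈ S.powerset.filter (fun T => ¬ T.card + k ≤ M), (-1 : ℝ) ^ T.card * slb_s T| ≤
      ∑ T ∈ S.powerset.filter (fun T => ¬ T.card + k ≤ M), slb_s T * 6 ^ T.card / 6 ^ (r + 1) := by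
    refine (Finset.abs_sum_le_sum_abs _ _).trans (Finset.sum_le_sum ?_)
    intro T hT
    rw [mem_filter] at hT
    rw [abs_mul, abs_pow, abs_neg, abs_one, one_pow, one_mul, abs_of_nonneg (slb_s_nonneg T),
      le_div_iff₀ (by positivity)]
    apply mul_le_mul_of_nonneg_left _ (slb_s_nonneg T)
    apply pow_le_pow_right₀ (by norm_num)
    omega
  have h2 : ∑ T ∈ S.powerset.filter (fun T => ¬ T.card + k ≤ M),
      slb_s T * 6 ^ T.card / 6 ^ (r + 1) ≤ ∑ T ∈ S.powerset, slb_s T * 6 ^ T.card / 6 ^ (r + 1) := by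
    apply Finset.sum_le_sum_of_subset_of_nonneg (Finset.filter_subset _ _)
    intro T _ _
    have := slb_s_nonneg T
    positivity
  have h3 : ∑ T ∈ S.powerset, slb_s T * 6 ^ T.card / 6 ^ (r + 1) =
      (∏ p ∈ S, (1 + 6 * (1 / (p : ℝ)))) / 6 ^ (r + 1) := by
    rw [Finset.prod_one_add, ← Finset.sum_div]
    congr 1
    apply Finset.sum_congr rfl
    intro T _
    rw [Finset.prod_mul_distrib, Finset.prod_const, mul_comm]
    rfl
  have h4 : ∏ p ∈ S, (1 + 6 * (1 / (p : ℝ))) ≤ Real.exp (r + 1) := by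
    refine (Real.prod_one_add_le_exp_sum S (f := fun p : ℕ => 6 * (1 / (p : ℝ)))
      (fun p => by positivity)).trans ?_
    apply Real.exp_le_exp.2
    rw [← Finset.mul_sum]
    refine le_trans ?_ hr
    apply mul_le_mul_of_nonneg_left _ (by norm_num)
    refine le_trans ?_ (slb_X w)
    apply Finset.sum_le_sum_of_subset_of_nonneg hS
    intro p _ _
    positivity
  have h5 : Real.exp (r + 1) / 6 ^ (r + 1) ≤ 1 / 2 ^ r := by
    have h6 : Real.exp ((r : ℝ) + 1) ≤ 3 ^ (r + 1) := by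
      have h7 : Real.exp ((r : ℝ) + 1) = Real.exp 1 ^ (r + 1) := by
        rw [← Real.exp_nat_mul]
        congr 1
        push_cast
        ring
      rw [h7]
      apply pow_le_pow_left₀ (Real.exp_pos 1).le
      have := Real.exp_one_lt_d9
      linarith
    rw [div_le_div_iff₀ (by positivity) (by positivity), one_mul]
    calc Real.exp ((r : ℝ) + 1) * 2 ^ r ≤ 3 ^ (r + 1) * 2 ^ r := by
          apply mul_le_mul_of_nonneg_right h6 (by positivity)
      _ ≤ 3 ^ (r + 1) * 2 ^ (r + 1) := by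
          apply mul_le_mul_of_nonneg_left _ (by positivity)
          exact pow_le_pow_right₀ (by norm_num) (Nat.le_succ r)
      _ = 6 ^ (r + 1) := by
          rw [← mul_pow]
          norm_num
  calc _ ≤ _ := h1
    _ ≤ _ := h2
    _ = _ := h3
    _ ≤ Real.exp (r + 1) / 6 ^ (r + 1) := div_le_div_of_nonneg_right h4 (by positivity)
    _ ≤ _ := h5

private theorem slb_neg (T : Finset ℕ) :
    ∏ p ∈ T, (-(1 / (p : ℝ))) = (-1 : ℝ) ^ T.card * slb_s T := by
  unfold slb_s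
  rw [← Finset.prod_const, ← Finset.prod_mul_distrib]
  apply Finset.prod_congr rfl
  intro p _
  ring

/-- the complete sum -/
private theorem slb_full (S : Finset ℕ) :
    ∑ T ∈ S.powerset, (-1 : ℝ) ^ T.card * slb_s T = VV S := by
  unfold VV
  have h : ∀ p ∈ S, (1 : ℝ) - 1 / p = 1 + (-(1 / (p : ℝ))) := fun p _ => sub_eq_add_neg _ _
  rw [Finset.prod_congr rfl h, Finset.prod_one_add]
  apply Finset.sum_congr rfl
  intro T _
  rw [slb_neg]

private theorem slb_first (w M q : ℕ) (hsub : q.primeFactors ⊆ PW w) :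
    ∑ T ∈ (PW w).powerset.filter (fun T => q.primeFactors ⊆ T ∧ T.card ≤ M),
        (-1 : ℝ) ^ T.card * slb_s T =
      (-1 : ℝ) ^ q.primeFactors.card * slb_s q.primeFactors *
        ∑ T ∈ (PW w \ q.primeFactors).powerset.filter
          (fun T => T.card + q.primeFactors.card ≤ M), (-1 : ℝ) ^ T.card * slb_s T := by
  rw [Finset.mul_sum]
  refine Finset.sum_nbij' (fun T => T \ q.primeFactors) (fun T => T ∪ q.primeFactors) ?_ ?_ ?_ ?_ ?_
  · intro T hT
    rw [mem_filter, mem_powerset] at hT ⊢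
    refine ⟨sdiff_subset_sdiff hT.1 (le_refl _), ?_⟩
    have := card_sdiff_add_card_eq_card hT.2.1
    omega
  · intro T hT
    rw [mem_filter, mem_powerset] at hT ⊢
    refine ⟨union_subset (hT.1.trans sdiff_subset) hsub, subset_union_right, ?_⟩
    exact (card_union_le _ _).trans hT.2
  · intro T hT
    rw [mem_filter, mem_powerset] at hT
    exact sdiff_union_of_subset hT.2.1
  · intro T hT
    rw [mem_filter, mem_powerset] at hT
    rw [union_sdiff_right]
    apply sdiff_eq_self_of_disjoint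
    exact disjoint_of_subset_left hT.1 sdiff_disjoint
  · intro T hT
    rw [mem_filter, mem_powerset] at hT
    have h1 := card_sdiff_add_card_eq_card hT.2.1
    have h2 : slb_s T = slb_s (T \ q.primeFactors) * slb_s q.primeFactors := by
      unfold slb_s
      exact (Finset.prod_sdiff hT.2.1).symm
    rw [h2, ← h1, pow_add]
    ring

private theorem slb_phi (w q : ℕ) (hq : 1 ≤ q) (hsq : Squarefree q) (hsub : q.primeFactors ⊆ PW w) :
    (-1 : ℝ) ^ q.primeFactors.card * slb_s q.primeFactors * VV (PW w \ q.primeFactors) =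
      VV (PW w) * (ArithmeticFunction.moebius q : ℝ) / (q.totient : ℝ) := by
  have h1 : (ArithmeticFunction.moebius q : ℝ) = (-1 : ℝ) ^ q.primeFactors.card := by
    rw [ArithmeticFunction.moebius_apply_of_squarefree hsq,
      ← (ArithmeticFunction.cardDistinctFactors_eq_cardFactors_iff_squarefree hsq.ne_zero).2 hsq,
      ArithmeticFunction.cardDistinctFactors_apply]
    push_cast
    congr 1
  have h2 : (q.totient : ℝ) = q * VV q.primeFactors := by
    have h3 := Nat.totient_eq_mul_prod_factors q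
    have h4 : ((q.totient : ℚ) : ℝ) = ((q * ∏ p ∈ q.primeFactors, (1 - (p : ℚ)⁻¹) : ℚ) : ℝ) := by
      rw [h3]
    push_cast at h4
    rw [h4]
    unfold VV
    congr 1
    apply Finset.prod_congr rfl
    intro p _
    rw [one_div]
  have h5 : VV (PW w) = VV (PW w \ q.primeFactors) * VV q.primeFactors := by
    unfold VV
    exact (Finset.prod_sdiff hsub).symm
  have h6 : slb_s q.primeFactors = 1 / (q : ℝ) := by
    rw [← slb_inv, Nat.prod_primeFactors_of_squarefree hsq]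
  have h7 : 0 < VV q.primeFactors := by
    unfold VV
    apply Finset.prod_pos
    intro p hp
    have := (Nat.prime_of_mem_primeFactors hp).one_lt
    rw [sub_pos, div_lt_one (by positivity)]
    exact_mod_cast this
  have h8 : (0 : ℝ) < q := by exact_mod_cast hq
  rw [h1, h2, h5, h6]
  field_simp

/-- the first part of the coefficients -/
private noncomputable def slb_a (w M n : ℕ) : ℝ :=
  if Squarefree n ∧ (∀ p ∈ n.primeFactors, p ≤ w) ∧ n.primeFactors.card ≤ M then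
    (-1 : ℝ) ^ n.primeFactors.card else 0

/-- the sum of the first part over `n` as a sum over the sets of primes -/
private theorem slb_sum (w M Q q : ℕ) (hw : 1 ≤ w) (hQ : w ^ M ≤ Q) (hq : 1 ≤ q) (hqw : q ≤ w)
    (hsq : Squarefree q) :
    ∑ n ∈ (Icc 1 Q).filter (fun n => q ∣ n), slb_a w M n / n =
      ∑ T ∈ (PW w).powerset.filter (fun T => q.primeFactors ⊆ T ∧ T.card ≤ M),
        (-1 : ℝ) ^ T.card * slb_s T := by
  have han : ∀ n, slb_a w M n ≠ 0 → Squarefree n ∧ (∀ p ∈ n.primeFactors, p ≤ w) ∧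
      n.primeFactors.card ≤ M := by
    intro n h
    by_contra h2
    apply h
    unfold slb_a
    rw [if_neg h2]
  have hval : ∀ T ⊆ PW w, T.card ≤ M → slb_a w M (∏ p ∈ T, p) / ((∏ p ∈ T, p : ℕ) : ℝ) =
      (-1 : ℝ) ^ T.card * slb_s T := by
    intro T hT hc
    have hp : ∀ p ∈ T, p.Prime := fun p h => (mem_filter.1 (hT h)).2
    have hpf : (∏ p ∈ T, p).primeFactors = T := Nat.primeFactors_prod hp
    rw [div_eq_mul_one_div, slb_inv]
    unfold slb_a
    rw [hpf, if_pos]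
    refine ⟨slb_sf hp, ?_, hc⟩
    intro p h
    exact (mem_Icc.1 (mem_filter.1 (hT h)).1).2
  apply Finset.sum_bij_ne_zero (fun n _ _ => n.primeFactors)
  · intro n hn hne
    have h1 : slb_a w M n ≠ 0 := by
      intro h
      apply hne
      rw [h, zero_div]
    obtain ⟨h2, h3, h4⟩ := han n h1
    rw [mem_filter, mem_powerset]
    refine ⟨?_, Nat.primeFactors_mono (mem_filter.1 hn).2 h2.ne_zero, h4⟩
    intro p hp
    have h5 := Nat.prime_of_mem_primeFactors hp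
    exact mem_filter.2 ⟨mem_Icc.2 ⟨h5.one_lt.le, h3 p hp⟩, h5⟩
  · intro n hn hne m hm hme h
    have h1 : slb_a w M n ≠ 0 := by
      intro h
      apply hne
      rw [h, zero_div]
    have h1' : slb_a w M m ≠ 0 := by
      intro h
      apply hme
      rw [h, zero_div]
    rw [← Nat.prod_primeFactors_of_squarefree (han n h1).1,
      ← Nat.prod_primeFactors_of_squarefree (han m h1').1, h]
  · intro T hT hne
    rw [mem_filter, mem_powerset] at hT
    obtain ⟨hT, hqT, hc⟩ := hT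
    have hp : ∀ p ∈ T, p.Prime := fun p h => (mem_filter.1 (hT h)).2
    have hv := hval T hT hc
    have hne2 : slb_a w M (∏ p ∈ T, p) / ((∏ p ∈ T, p : ℕ) : ℝ) ≠ 0 := by
      rw [hv]
      exact hne
    refine ⟨∏ p ∈ T, p, ?_, hne2, Nat.primeFactors_prod hp⟩
    rw [mem_filter, mem_Icc]
    refine ⟨⟨Nat.one_le_iff_ne_zero.2 (slb_sf hp).ne_zero, ?_⟩, ?_⟩
    · refine le_trans ?_ hQ
      refine (Finset.prod_le_pow_card T (fun p : ℕ => p) w ?_).trans (Nat.pow_le_pow_right hw hc)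
      intro p h
      exact (mem_Icc.1 (mem_filter.1 (hT h)).1).2
    · rw [← Nat.prod_primeFactors_of_squarefree hsq]
      exact Finset.prod_dvd_prod_of_subset _ _ _ hqT
  · intro n hn hne
    have h1 : slb_a w M n ≠ 0 := by
      intro h
      apply hne
      rw [h, zero_div]
    obtain ⟨h2, h3, h4⟩ := han n h1
    have h5 : n.primeFactors ⊆ PW w := by
      intro p hp
      have h5 := Nat.prime_of_mem_primeFactors hp
      exact mem_filter.2 ⟨mem_Icc.2 ⟨h5.one_lt.le, h3 p hp⟩, h5⟩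
    have h6 := hval _ h5 h4
    rw [Nat.prod_primeFactors_of_squarefree h2] at h6
    exact h6

/-- the sum of the first part -/
private theorem slb_S1 (w r M Q q : ℕ) (hw : 1 ≤ w) (hM : 2 * r ≤ M) (hQ : w ^ M ≤ Q)
    (hr : 6 * (1 + Real.log w) ≤ r + 1) (hq : 1 ≤ q) (hqw : q ≤ w) :
    |∑ n ∈ (Icc 1 Q).filter (fun n => q ∣ n), slb_a w M n / n
      - VV (PW w) * (ArithmeticFunction.moebius q : ℝ) / (q.totient : ℝ)| ≤ 1 / 2 ^ r := by
  by_cases hsq : Squarefree q
  · have hsub : q.primeFactors ⊆ PW w := by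
      intro p hp
      have := Nat.prime_of_mem_primeFactors hp
      exact mem_filter.2 ⟨mem_Icc.2 ⟨this.one_lt.le, (Nat.le_of_mem_primeFactors hp).trans hqw⟩,
        this⟩
    have hk : q.primeFactors.card ≤ r := by
      have h1 : 2 ^ q.primeFactors.card ≤ q := by
        calc 2 ^ q.primeFactors.card ≤ ∏ p ∈ q.primeFactors, p :=
              Finset.pow_card_le_prod _ _ _ fun p hp => (Nat.prime_of_mem_primeFactors hp).two_le
          _ = q := Nat.prod_primeFactors_of_squarefree hsq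
      have h2 : (q.primeFactors.card : ℝ) * Real.log 2 ≤ Real.log w := by
        rw [← Real.log_pow]
        apply Real.log_le_log (by positivity)
        exact_mod_cast h1.trans hqw
      have h3 := Real.log_two_gt_d9
      have h4 : (0 : ℝ) ≤ q.primeFactors.card := Nat.cast_nonneg _
      have h5 : (q.primeFactors.card : ℝ) ≤ r := by nlinarith
      exact_mod_cast h5
    have htail := slb_tail w r q.primeFactors.card M (PW w \ q.primeFactors) sdiff_subset hr hk hM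
    have hsplit := Finset.sum_filter_add_sum_filter_not (PW w \ q.primeFactors).powerset
      (fun T => T.card + q.primeFactors.card ≤ M) (fun T => (-1 : ℝ) ^ T.card * slb_s T)
    rw [slb_full] at hsplit
    rw [slb_sum w M Q q hw hQ hq hqw hsq, slb_first w M q hsub]
    have hphi := slb_phi w q hq hsq hsub
    set A := ∑ T ∈ (PW w \ q.primeFactors).powerset.filter
      (fun T => T.card + q.primeFactors.card ≤ M), (-1 : ℝ) ^ T.card * slb_s T with hA
    set E := ∑ T ∈ (PW w \ q.primeFactors).powerset.filter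
      (fun T => ¬ T.card + q.primeFactors.card ≤ M), (-1 : ℝ) ^ T.card * slb_s T with hE
    have hk1 : (-1 : ℝ) ^ q.primeFactors.card * slb_s q.primeFactors * A -
        VV (PW w) * (ArithmeticFunction.moebius q : ℝ) / (q.totient : ℝ) =
        -((-1 : ℝ) ^ q.primeFactors.card * slb_s q.primeFactors * E) := by
      rw [← hphi, ← hsplit]
      ring
    rw [hk1, abs_neg, abs_mul, abs_mul, abs_pow, abs_neg, abs_one, one_pow, one_mul,
      abs_of_nonneg (slb_s_nonneg _)]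
    have h3 : slb_s q.primeFactors ≤ 1 := by
      rw [← slb_inv, Nat.prod_primeFactors_of_squarefree hsq]
      have : (1 : ℝ) ≤ q := by exact_mod_cast hq
      rw [div_le_one (by linarith)]
      exact this
    calc slb_s q.primeFactors * |E| ≤ 1 * |E| :=
          mul_le_mul_of_nonneg_right h3 (abs_nonneg _)
      _ = |E| := one_mul _
      _ ≤ _ := htail
  · have h2 : ∀ n ∈ (Icc 1 Q).filter (fun n => q ∣ n), slb_a w M n / n = 0 := by
      intro n hn
      have h3 : ¬ Squarefree n := fun h => hsq (h.squarefree_of_dvd (mem_filter.1 hn).2)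
      unfold slb_a
      rw [if_neg (fun h => h3 h.1), zero_div]
    rw [Finset.sum_eq_zero h2, ArithmeticFunction.moebius_eq_zero_of_not_squarefree hsq]
    simp

/-- the second part for one prime -/
private theorem slb_S2 (w y r D q p Q : ℕ) (ρ : Finset ℕ → ℝ) (hw : 1 ≤ w) (hD : 1 ≤ D)
    (hp : p ∈ PY w y) (hρ : Rho w (p - 1) D ρ) (hq : 1 ≤ q) (hqw : q ≤ w)
    (hQ : y * (w ^ (2 * r) * D ^ 2) ≤ Q) :
    ∑ n ∈ ((Icc 1 Q).filter (fun n => q ∣ n)).filter (fun n => p ∣ n ∧ Squarefree n),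
        gS w (p - 1) r ρ (n / p) / n =
      1 / (p : ℝ) * ∑ n ∈ (Icc 1 (w ^ (2 * r) * D ^ 2)).filter (fun n => q ∣ n),
        gS w (p - 1) r ρ n / n := by
  have hpp : p.Prime := (mem_filter.1 hp).2
  have hwp : w < p := (mem_Ioc.1 (mem_filter.1 hp).1).1
  have hpy : p ≤ y := (mem_Ioc.1 (mem_filter.1 hp).1).2
  have hpos : 0 < p := hpp.pos
  have hcop : Nat.Coprime q p := by
    rw [Nat.coprime_comm, Nat.Prime.coprime_iff_not_dvd hpp]
    intro h
    have := Nat.le_of_dvd (by omega) h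
    omega
  have hgn : ∀ n, gS w (p - 1) r ρ n ≠ 0 → Squarefree n ∧ ∀ l ∈ n.primeFactors, l ≤ p - 1 := by
    intro n h
    by_contra h2
    apply h
    unfold gS
    rw [if_neg]
    rintro ⟨h3, h4, _⟩
    exact h2 ⟨h3, h4⟩
  rw [Finset.mul_sum]
  apply Finset.sum_bij_ne_zero (fun n _ _ => n / p)
  · intro n hn hne
    rw [mem_filter, mem_filter, mem_Icc] at hn
    obtain ⟨⟨⟨hn1, hn2⟩, hn3⟩, ⟨k, hk⟩, hn5⟩ := hn
    subst hk
    rw [Nat.mul_div_cancel_left k hpos] at hne ⊢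
    have hg : gS w (p - 1) r ρ k ≠ 0 := by
      intro h
      apply hne
      rw [h, zero_div]
    rw [mem_filter, mem_Icc]
    refine ⟨⟨?_, ?_⟩, ?_⟩
    · exact Nat.pos_of_mul_pos_left hn1
    · by_contra h
      exact hg (gs_zero w (p - 1) r D ρ hw hρ _ (not_le.1 h))
    · exact hcop.dvd_of_dvd_mul_left hn3
  · intro n hn hne m hm hme h
    rw [mem_filter] at hn hm
    obtain ⟨_, hn4, _⟩ := hn
    obtain ⟨_, hm4, _⟩ := hm
    exact (Nat.div_left_inj hn4 hm4).1 h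
  · intro k hk hne
    rw [mem_filter, mem_Icc] at hk
    obtain ⟨⟨hk1, hk2⟩, hk3⟩ := hk
    have hg : gS w (p - 1) r ρ k ≠ 0 := by
      intro h
      apply hne
      rw [h, zero_div, mul_zero]
    obtain ⟨hs1, hs2⟩ := hgn k hg
    have hpk : ¬ p ∣ k := by
      intro h
      have h3 : p ∈ k.primeFactors := Nat.mem_primeFactors.2 ⟨hpp, h, by omega⟩
      have := hs2 p h3
      omega
    have hsqf : Squarefree (p * k) := by
      rw [Nat.squarefree_mul_iff]
      exact ⟨(Nat.Prime.coprime_iff_not_dvd hpp).2 hpk, hpp.prime.squarefree, hs1⟩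
    refine ⟨p * k, ?_, ?_, ?_⟩
    · rw [mem_filter, mem_filter, mem_Icc]
      refine ⟨⟨⟨Nat.mul_pos hpos hk1, ?_⟩, hk3.mul_left p⟩, dvd_mul_right p k, hsqf⟩
      exact (Nat.mul_le_mul hpy hk2).trans hQ
    · rw [Nat.mul_div_cancel_left k hpos]
      apply div_ne_zero hg
      exact_mod_cast (Nat.mul_pos hpos hk1).ne'
    · exact Nat.mul_div_cancel_left k hpos
  · intro n hn hne
    rw [mem_filter] at hn
    obtain ⟨_, ⟨k, hk⟩, _⟩ := hn
    subst hk
    rw [Nat.mul_div_cancel_left k hpos]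
    push_cast
    rw [one_div, div_eq_mul_inv, div_eq_mul_inv, mul_inv]
    ring

theorem gt_sing (w y r D q : ℕ) (ρ : ℕ → Finset ℕ → ℝ) (hw : 2 ≤ w) (hwy : w ≤ y) (hD : 1 ≤ D)
    (hr : 6 * (1 + Real.log w) ≤ r + 1)
    (hρ : ∀ p ∈ PY w y, Rho w (p - 1) D (ρ p) ∧ 0 ≤ SF w (p - 1) (ρ p) ∧ SF w (p - 1) (ρ p) ≤ 1)
    (hq : 1 ≤ q) (hqw : q ≤ w) :
    |∑ n ∈ (Icc 1 (y * (w ^ (2 * r + 1) * D ^ 2))).filter (fun n => q ∣ n), gT w y r ρ n / n
      - kTv w y ρ * (ArithmeticFunction.moebius q : ℝ) / (q.totient : ℝ)| ≤ (3 + Real.log y) / 2 ^ r := by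
  have hw1 : 1 ≤ w := by omega
  set F := (Icc 1 (y * (w ^ (2 * r + 1) * D ^ 2))).filter (fun n => q ∣ n) with hF
  set mu := (ArithmeticFunction.moebius q : ℝ) with hmu
  have hQ1 : w ^ (2 * r + 1) ≤ y * (w ^ (2 * r + 1) * D ^ 2) := by
    calc w ^ (2 * r + 1) = 1 * (w ^ (2 * r + 1) * 1) := by ring
      _ ≤ y * (w ^ (2 * r + 1) * D ^ 2) := by
        apply Nat.mul_le_mul (by omega)
        apply Nat.mul_le_mul_left
        exact Nat.one_le_pow _ _ hD
  have hQ2 : y * (w ^ (2 * r) * D ^ 2) ≤ y * (w ^ (2 * r + 1) * D ^ 2) := by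
    apply Nat.mul_le_mul_left
    apply Nat.mul_le_mul_right
    exact Nat.pow_le_pow_right hw1 (by omega)
  have hS1 := slb_S1 w r (2 * r + 1) (y * (w ^ (2 * r + 1) * D ^ 2)) q hw1 (by omega) hQ1 hr hq hqw
  rw [← hF] at hS1
  -- splitting of the coefficients
  have hsplit : ∑ n ∈ F, gT w y r ρ n / n = ∑ n ∈ F, slb_a w (2 * r + 1) n / n -
      ∑ p ∈ PY w y, ∑ n ∈ F.filter (fun n => p ∣ n ∧ Squarefree n),
        gS w (p - 1) r (ρ p) (n / p) / n := by
    have h1 : ∑ p ∈ PY w y, ∑ n ∈ F.filter (fun n => p ∣ n ∧ Squarefree n),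
        gS w (p - 1) r (ρ p) (n / p) / n = ∑ n ∈ F, ∑ p ∈ PY w y,
          if p ∣ n ∧ Squarefree n then gS w (p - 1) r (ρ p) (n / p) / n else 0 := by
      rw [Finset.sum_comm]
      apply Finset.sum_congr rfl
      intro p _
      rw [Finset.sum_filter]
    rw [h1, ← Finset.sum_sub_distrib]
    apply Finset.sum_congr rfl
    intro n _
    unfold gT slb_a
    by_cases hsq : Squarefree n
    · rw [if_pos hsq, sub_div, Finset.sum_filter, Finset.sum_div]
      congr 1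
      · by_cases h2 : (∀ p ∈ n.primeFactors, p ≤ w) ∧ n.primeFactors.card ≤ 2 * r + 1
        · rw [if_pos h2, if_pos ⟨hsq, h2⟩]
        · rw [if_neg h2, if_neg (fun h => h2 h.2)]
      · apply Finset.sum_congr rfl
        intro p _
        by_cases h2 : p ∣ n
        · rw [if_pos h2, if_pos ⟨h2, hsq⟩]
        · rw [if_neg h2, if_neg (fun h => h2 h.1), zero_div]
    · rw [if_neg hsq, if_neg (fun h => hsq h.1), zero_div, Finset.sum_eq_zero, sub_zero]
      intro p _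
      rw [if_neg (fun h => hsq h.2)]
  -- the second part
  have hS2 : ∀ p ∈ PY w y, |∑ n ∈ F.filter (fun n => p ∣ n ∧ Squarefree n),
        gS w (p - 1) r (ρ p) (n / p) / n -
      VV (PW w) * SF w (p - 1) (ρ p) / p * mu / (q.totient : ℝ)| ≤ 1 / (p : ℝ) * (1 / 2 ^ r) := by
    intro p hp
    obtain ⟨h1, h2, h3⟩ := hρ p hp
    have hwp : w < p := (mem_Ioc.1 (mem_filter.1 hp).1).1
    have h4 := gs_sing w (p - 1) r D q (ρ p) hw (by omega) h1 hr h2 h3 hq hqw
    rw [← hmu] at h4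
    rw [hF, slb_S2 w y r D q p _ (ρ p) hw1 hD hp h1 hq hqw hQ2]
    have hp0 : (0 : ℝ) < p := by
      have : 0 < p := by omega
      exact_mod_cast this
    have h5 : 1 / (p : ℝ) * ∑ n ∈ (Icc 1 (w ^ (2 * r) * D ^ 2)).filter (fun n => q ∣ n),
        gS w (p - 1) r (ρ p) n / n -
        VV (PW w) * SF w (p - 1) (ρ p) / p * mu / (q.totient : ℝ) =
        1 / (p : ℝ) * (∑ n ∈ (Icc 1 (w ^ (2 * r) * D ^ 2)).filter (fun n => q ∣ n),
          gS w (p - 1) r (ρ p) n / n -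
          VV (PW w) * SF w (p - 1) (ρ p) * mu / (q.totient : ℝ)) := by ring
    rw [h5, abs_mul, abs_of_nonneg (by positivity : (0 : ℝ) ≤ 1 / p)]
    exact mul_le_mul_of_nonneg_left h4 (by positivity)
  have hlog : ∑ p ∈ PY w y, 1 / (p : ℝ) ≤ 1 + Real.log y := by
    refine le_trans ?_ (slb_X y)
    apply Finset.sum_le_sum_of_subset_of_nonneg
    · intro p hp
      have h1 := (mem_Ioc.1 (mem_filter.1 hp).1)
      have h2 := (mem_filter.1 hp).2
      exact mem_filter.2 ⟨mem_Icc.2 ⟨h2.one_lt.le, h1.2⟩, h2⟩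
    · intro p _ _
      positivity
  have hS2' : |∑ p ∈ PY w y, (∑ n ∈ F.filter (fun n => p ∣ n ∧ Squarefree n),
        gS w (p - 1) r (ρ p) (n / p) / n -
      VV (PW w) * SF w (p - 1) (ρ p) / p * mu / (q.totient : ℝ))| ≤ (1 + Real.log y) / 2 ^ r := by
    refine (Finset.abs_sum_le_sum_abs _ _).trans ((Finset.sum_le_sum hS2).trans ?_)
    rw [← Finset.sum_mul, mul_one_div]
    exact div_le_div_of_nonneg_right hlog (by positivity)
  have hfin : ∑ n ∈ F, gT w y r ρ n / n - kTv w y ρ * mu / (q.totient : ℝ) =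
      (∑ n ∈ F, slb_a w (2 * r + 1) n / n - VV (PW w) * mu / (q.totient : ℝ)) -
      ∑ p ∈ PY w y, (∑ n ∈ F.filter (fun n => p ∣ n ∧ Squarefree n),
        gS w (p - 1) r (ρ p) (n / p) / n -
      VV (PW w) * SF w (p - 1) (ρ p) / p * mu / (q.totient : ℝ)) := by
    rw [hsplit, Finset.sum_sub_distrib, ← Finset.sum_div, ← Finset.sum_mul]
    unfold kTv
    ring
  rw [hfin]
  refine (abs_sub _ _).trans ?_
  calc _ ≤ 1 / 2 ^ r + (1 + Real.log y) / 2 ^ r := add_le_add hS1 hS2'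
    _ ≤ (3 + Real.log y) / 2 ^ r := by
      rw [← add_div]
      apply div_le_div_of_nonneg_right _ (by positivity)
      linarith

end Pool.Agent.H91.TQ

end
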