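import Pool.Agent.H43.PJ.H76.TP.PntI
import Pool.Agent.H43.PJ.M47
import Pool.Agent.H43.PJ.M49
import Pool.Agent.H43.PJ.M50
import Pool.Agent.H43.PJ.M51

/-! The parts of this file: H46.TPQ.Star, H46.TPQ.Cert, H43.TS.Pair, H46.TPQ.BadLin, H9.TM.Cnt. -/

section

/-!
# TPQ Star: the certificate, exact and robust form (real numbers)
-/

set_option autoImplicit false

namespace Pool.Agent.H46.TPQ

/-- the types of the numbers: `P` the indicator of the primes, `s` of the rough numbers, `k` the number of prime factors in `(z, z1]` -/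
def Typ (P s : ℝ) (k : ℕ) : Prop := (P = 0 ∧ s = 0) ∨ (P = 0 ∧ s = 1) ∨ (P = 1 ∧ s = 1 ∧ k = 0)

theorem e0_zero : e0 0 = 0 := by
  unfold e0
  simp

theorem g0_zero : g0 0 = 0 := by
  unfold g0
  simp

theorem e0_pos {k : ℕ} (hk : 1 ≤ k) : e0 k = (k : ℝ) - 1 := by
  unfold e0
  rw [if_neg (by omega)]

theorem g0_pos {k : ℕ} (hk : 1 ≤ k) : g0 k = ((k : ℝ) ^ 2 - 1) / (2 * k) := by
  unfold g0
  rw [if_neg (by omega)]

theorem e0_nonneg (k : ℕ) : 0 ≤ e0 k := by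
  rcases Nat.eq_zero_or_pos k with h | h
  · rw [h, e0_zero]
  · rw [e0_pos h]
    have : (1 : ℝ) ≤ k := by exact_mod_cast h
    linarith only [this]

theorem g0_nonneg (k : ℕ) : 0 ≤ g0 k := by
  rcases Nat.eq_zero_or_pos k with h | h
  · rw [h, g0_zero]
  · rw [g0_pos h]
    have : (1 : ℝ) ≤ k := by exact_mod_cast h
    have h2 : 0 ≤ (k : ℝ) ^ 2 - 1 := by nlinarith only [this]
    positivity

theorem e0_le {k : ℕ} (hk : k ≤ 4) : e0 k ≤ 3 := by
  rcases Nat.eq_zero_or_pos k with h | h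
  · rw [h, e0_zero]
    norm_num
  · rw [e0_pos h]
    have : (k : ℝ) ≤ 4 := by exact_mod_cast hk
    linarith only [this]

theorem g0_le {k : ℕ} (hk : k ≤ 4) : g0 k ≤ 2 := by
  rcases Nat.eq_zero_or_pos k with h | h
  · rw [h, g0_zero]
    norm_num
  · rw [g0_pos h]
    have h1 : (1 : ℝ) ≤ k := by exact_mod_cast h
    have : (k : ℝ) ≤ 4 := by exact_mod_cast hk
    rw [div_le_iff₀ (by positivity)]
    nlinarith only [this]

/-- the certificate for two rough composite numbers with `k, l ≥ 1` -/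
theorem star_comp {k l : ℕ} (hk : 1 ≤ k) (hl : 1 ≤ l) :
    -((1 - (k : ℝ)) * (1 - l)) - e0 k - e0 l + g0 k * l + k * g0 l ≤ 0 := by
  rw [e0_pos hk, e0_pos hl, g0_pos hk, g0_pos hl]
  have h1 : (0 : ℝ) < k := by exact_mod_cast hk
  have h2 : (0 : ℝ) < l := by exact_mod_cast hl
  have h3 : -((1 - (k : ℝ)) * (1 - l)) - (k - 1) - (l - 1) + ((k : ℝ) ^ 2 - 1) / (2 * k) * l
      + k * (((l : ℝ) ^ 2 - 1) / (2 * l)) = -(((k : ℝ) - l) ^ 2 / (2 * k * l)) := by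
    field_simp
    ring
  rw [h3]
  have : 0 ≤ ((k : ℝ) - l) ^ 2 / (2 * k * l) := by positivity
  linarith only [this]

/-- the exact certificate -/
theorem star (P s P' s' : ℝ) (k k' : ℕ) (h : Typ P s k) (h' : Typ P' s' k') :
    P * (s' * (1 - k')) + (s * (1 - k)) * P' - (s * (1 - k)) * (s' * (1 - k')) - (s * e0 k) * s' - s * (s' * e0 k')
      + (s * g0 k) * (s' * k') + (s * k) * (s' * g0 k') ≤ P * P' := by
  have ek := e0_nonneg k
  have ek' := e0_nonneg k'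
  rcases h with ⟨rfl, rfl⟩ | ⟨rfl, rfl⟩ | ⟨rfl, rfl, rfl⟩ <;>
    rcases h' with ⟨rfl, rfl⟩ | ⟨rfl, rfl⟩ | ⟨rfl, rfl, rfl⟩
  · norm_num
  · norm_num
  · norm_num
  · norm_num
  · rcases Nat.eq_zero_or_pos k with h1 | h1 <;> rcases Nat.eq_zero_or_pos k' with h2 | h2
    · rw [h1, h2, e0_zero, g0_zero]
      norm_num
    · rw [h1, e0_zero, g0_zero, e0_pos h2]
      push_cast
      nlinarith only
    · rw [h2, e0_zero, g0_zero, e0_pos h1]
      push_cast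
      nlinarith only
    · have := star_comp h1 h2
      linarith
  · rw [e0_zero, g0_zero]
    push_cast
    nlinarith
  · norm_num
  · rw [e0_zero, g0_zero]
    push_cast
    nlinarith only [ek']
  · rw [e0_zero, g0_zero]
    norm_num

/-- the robust certificate -/
theorem star_rob (P s P' s' : ℝ) (k k' : ℕ) (h : Typ P s k) (h' : Typ P' s' k') (hk : k ≤ 4) (hk' : k' ≤ 4)
    (a o D a' o' D' : ℝ) (ha1 : s ≤ a) (ha2 : a ≤ s + D) (ho : |o - k * s| ≤ 4 * D)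
    (ha1' : s' ≤ a') (ha2' : a' ≤ s' + D') (ho' : |o' - k' * s'| ≤ 4 * D') :
    P * (a' - o') + (a - o) * P' - (a - o) * (a' - o') - (s * e0 k) * a' - a * (s' * e0 k')
      + (s * g0 k) * o' + o * (s' * g0 k') - 30 * (a * D' + D * a' + D * D') ≤ P * P' := by
  have h0 := star P s P' s' k k' h h'
  have hD : 0 ≤ D := by linarith only [ha1, ha2]
  have hD' : 0 ≤ D' := by linarith only [ha1', ha2']
  have hs : 0 ≤ s ∧ s ≤ 1 ∧ 0 ≤ P ∧ P ≤ s := by
    rcases h with ⟨rfl, rfl⟩ | ⟨rfl, rfl⟩ | ⟨rfl, rfl, rfl⟩ <;> norm_num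
  have hs' : 0 ≤ s' ∧ s' ≤ 1 ∧ 0 ≤ P' ∧ P' ≤ s' := by
    rcases h' with ⟨rfl, rfl⟩ | ⟨rfl, rfl⟩ | ⟨rfl, rfl, rfl⟩ <;> norm_num
  obtain ⟨s0, s1, p0, p1⟩ := hs
  obtain ⟨s0', s1', p0', p1'⟩ := hs'
  have kr : (0 : ℝ) ≤ k := Nat.cast_nonneg k
  have kr' : (0 : ℝ) ≤ k' := Nat.cast_nonneg k'
  have k4 : (k : ℝ) ≤ 4 := by exact_mod_cast hk
  have k4' : (k' : ℝ) ≤ 4 := by exact_mod_cast hk'
  have a0 : 0 ≤ a := by linarith only [ha1, s0]
  have a0' : 0 ≤ a' := by linarith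
  obtain ⟨φ, hφ⟩ : ∃ φ, φ = (a - s) - (o - k * s) := ⟨_, rfl⟩
  obtain ⟨φ', hφ'⟩ : ∃ φ', φ' = (a' - s') - (o' - k' * s') := ⟨_, rfl⟩
  obtain ⟨η, hη⟩ : ∃ η, η = o - k * s := ⟨_, rfl⟩
  obtain ⟨η', hη'⟩ : ∃ η', η' = o' - k' * s' := ⟨_, rfl⟩
  have ho2 := abs_le.1 ho
  have ho2' := abs_le.1 ho'
  have φ1 : |φ| ≤ 5 * D := by
    rw [abs_le]
    constructor <;> linarith only [ha1, ha2, hφ, ho2, ho2.1, ho2.2]
  have φ1' : |φ'| ≤ 5 * D' := by
    rw [abs_le]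
    constructor <;> linarith only [ha1', ha2', hφ', ho2', ho2'.1, ho2'.2]
  have eF : a - o = s * (1 - k) + φ := by rw [hφ]; ring
  have eF' : a' - o' = s' * (1 - k') + φ' := by rw [hφ']; ring
  have eo : o = s * k + η := by rw [hη]; ring
  have eo' : o' = s' * k' + η' := by rw [hη']; ring
  -- the bound of `s (1 - k)`
  have f1 : |s * (1 - k)| ≤ 3 * a := by
    rw [abs_le]
    constructor
    · nlinarith only [ha1, s0, k4]
    · nlinarith only [ha1, s0]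
  have f1' : |s' * (1 - (k' : ℝ))| ≤ 3 * a' := by
    rw [abs_le]
    constructor
    · nlinarith only [ha1', s0', k4']
    · nlinarith only [ha1', s0']
  -- the errors
  have t1 : P * φ' ≤ 5 * (a * D') := by
    have u1 : P * φ' ≤ P * (5 * D') := mul_le_mul_of_nonneg_left ((le_abs_self _).trans φ1') p0
    have u2 : P * (5 * D') ≤ a * (5 * D') := mul_le_mul_of_nonneg_right (by linarith) (by linarith)
    linarith
  have t1' : φ * P' ≤ 5 * (D * a') := by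
    have u1 : φ * P' ≤ (5 * D) * P' := mul_le_mul_of_nonneg_right ((le_abs_self _).trans φ1) p0'
    have u2 : (5 * D) * P' ≤ (5 * D) * a' := mul_le_mul_of_nonneg_left (by linarith) (by linarith)
    linarith
  have t2 : -(s * (1 - k) * φ') ≤ 15 * (a * D') := by
    have u1 : |s * (1 - k) * φ'| ≤ (3 * a) * (5 * D') := by
      rw [abs_mul]
      exact mul_le_mul f1 φ1' (abs_nonneg _) (by linarith only [ha1, s0])
    have u2 := neg_abs_le (s * (1 - k) * φ')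
    linarith
  have t2' : -(φ * (s' * (1 - k'))) ≤ 15 * (D * a') := by
    have u1 : |φ * (s' * (1 - k'))| ≤ (5 * D) * (3 * a') := by
      rw [abs_mul]
      exact mul_le_mul φ1 f1' (abs_nonneg _) (by linarith)
    have u2 := neg_abs_le (φ * (s' * (1 - k')))
    linarith
  have t3 : -(φ * φ') ≤ 25 * (D * D') := by
    have u1 : |φ * φ'| ≤ (5 * D) * (5 * D') := by
      rw [abs_mul]
      exact mul_le_mul φ1 φ1' (abs_nonneg _) (by linarith)
    have u2 := neg_abs_le (φ * φ')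
    linarith
  have ek := e0_nonneg k
  have ek' := e0_nonneg k'
  have gk := g0_nonneg k
  have gk' := g0_nonneg k'
  have gl := g0_le hk
  have gl' := g0_le hk'
  have t4 : -((s * e0 k) * a') ≤ -((s * e0 k) * s') := by
    have := mul_le_mul_of_nonneg_left ha1' (mul_nonneg s0 ek)
    linarith
  have t4' : -(a * (s' * e0 k')) ≤ -(s * (s' * e0 k')) := by
    have := mul_le_mul_of_nonneg_right ha1 (mul_nonneg s0' ek')
    linarith
  have g1 : s * g0 k ≤ 2 * a := by nlinarith only [ha1, s0, gl]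
  have g1' : s' * g0 k' ≤ 2 * a' := by nlinarith only [ha1', s0', gl']
  have t5 : (s * g0 k) * η' ≤ 8 * (a * D') := by
    have u1 : (s * g0 k) * η' ≤ (s * g0 k) * (4 * D') :=
      mul_le_mul_of_nonneg_left (by rw [hη']; exact ho2'.2) (mul_nonneg s0 gk)
    have u2 : (s * g0 k) * (4 * D') ≤ (2 * a) * (4 * D') := mul_le_mul_of_nonneg_right g1 (by linarith only [ha1', ha2'])
    linarith only [u1, u2]
  have t5' : η * (s' * g0 k') ≤ 8 * (D * a') := by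
    have u1 : η * (s' * g0 k') ≤ (4 * D) * (s' * g0 k') :=
      mul_le_mul_of_nonneg_right (by rw [hη]; exact ho2.2) (mul_nonneg s0' gk')
    have u2 : (4 * D) * (s' * g0 k') ≤ (4 * D) * (2 * a') := mul_le_mul_of_nonneg_left g1' (by linarith only [ha1, ha2])
    linarith only [u1, u2]
  have z1 : 0 ≤ a * D' := mul_nonneg a0 hD'
  have z2 : 0 ≤ D * a' := mul_nonneg hD a0'
  have z3 : 0 ≤ D * D' := mul_nonneg hD hD'
  -- the identity
  have e1 : P * (a' - o') = P * (s' * (1 - k')) + P * φ' := by rw [eF']; ring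
  have e2 : (a - o) * P' = (s * (1 - k)) * P' + φ * P' := by rw [eF]; ring
  have e3 : (a - o) * (a' - o') = (s * (1 - k)) * (s' * (1 - k')) + s * (1 - k) * φ' + φ * (s' * (1 - k')) + φ * φ' := by
    rw [eF, eF']; ring
  have e4 : (s * g0 k) * o' = (s * g0 k) * (s' * k') + (s * g0 k) * η' := by rw [eo']; ring
  have e5 : o * (s' * g0 k') = (s * k) * (s' * g0 k') + η * (s' * g0 k') := by rw [eo]; ring
  rw [e1, e2, e3, e4, e5]
  linarith only [h0, t1, t1', t2, t2', t3, t4, t4', t5, t5', z1, z2, z3]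

end Pool.Agent.H46.TPQ

end

section

/-!
# TPQ Cert: the certificate for the functions `R0 = Ap S`, `R1`, `DD`, `ee0`, `gg0`, `pr`
-/

set_option autoImplicit false

namespace Pool.Agent.H46.TPQ

open Finset
open Pool.Agent.H43.TP (pr)
open Pool.Agent.H76.TP (yN zz rg bf kap kapA Ap AA Z2 Z3 PY aa_nonneg aa_one aa_le)
open Pool.Agent.H91.TQ (om bq kapF Fq sqp Lev fq_eq)

/-- more than `t` primes above `z` need `m ≥ z^(t+1)` -/
theorem om_pow (y J J1 m : ℕ) (hm : 1 ≤ m) : zz y J ^ om y J J1 m ≤ m := by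
  have h1 : ∏ p ∈ m.primeFactors.filter (fun p => zz y J < p ∧ p ≤ zz y J1), p ∣ m :=
    (Finset.prod_dvd_prod_of_subset _ _ _ (filter_subset _ _)).trans (Nat.prod_primeFactors_dvd m)
  refine le_trans ?_ (Nat.le_of_dvd hm h1)
  unfold om
  rw [← Finset.prod_const]
  exact Finset.prod_le_prod' fun p hp => (mem_filter.1 hp).2.1.le

/-- large `N` -/
theorem cert_large : ∃ N0 : ℕ, ∀ N : ℕ, N0 ≤ N → 1 ≤ N ∧ (17 : ℝ) * N ≤ ((N : ℝ) ^ (111 / 500 : ℝ)) ^ 5 ∧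
    17 * (N : ℝ) ^ (1527 / 5000 : ℝ) ≤ N := by
  have e1 : ∀ᶠ N : ℕ in Filter.atTop, (17 : ℝ) ≤ (N : ℝ) ^ (11 / 100 : ℝ) :=
    ((tendsto_rpow_atTop (by norm_num)).comp (tendsto_natCast_atTop_atTop (R := ℝ))).eventually_ge_atTop _
  have e2 : ∀ᶠ N : ℕ in Filter.atTop, (17 : ℝ) ≤ (N : ℝ) ^ (3473 / 5000 : ℝ) :=
    ((tendsto_rpow_atTop (by norm_num)).comp (tendsto_natCast_atTop_atTop (R := ℝ))).eventually_ge_atTop _
  obtain ⟨N0, hN0⟩ := Filter.eventually_atTop.1 ((e1.and e2).and (Filter.eventually_ge_atTop 1))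
  refine ⟨N0, fun N hN => ?_⟩
  obtain ⟨⟨g1, g2⟩, g3⟩ := hN0 N hN
  have hN : (0 : ℝ) < N := by exact_mod_cast g3
  refine ⟨g3, ?_, ?_⟩
  · have h2 : ((N : ℝ) ^ (111 / 500 : ℝ)) ^ 5 = (N : ℝ) ^ (11 / 100 : ℝ) * N := by
      rw [← Real.rpow_natCast, ← Real.rpow_mul hN.le]
      conv_rhs => rw [← Real.rpow_one (N : ℝ)]
      rw [← Real.rpow_mul hN.le, ← Real.rpow_add hN]
      congr 1
      norm_num
    rw [h2]
    exact mul_le_mul_of_nonneg_right g1 hN.le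
  · have h2 : (N : ℝ) ^ (3473 / 5000 : ℝ) * (N : ℝ) ^ (1527 / 5000 : ℝ) = N := by
      rw [← Real.rpow_add hN]
      norm_num
    calc 17 * (N : ℝ) ^ (1527 / 5000 : ℝ) ≤ (N : ℝ) ^ (3473 / 5000 : ℝ) * (N : ℝ) ^ (1527 / 5000 : ℝ) :=
          mul_le_mul_of_nonneg_right g2 (by positivity)
      _ = N := h2

/-- `om ≤ 4` -/
theorem om_le4 {N y J J1 m : ℕ} (hN : 1 ≤ N) (hN5 : (17 : ℝ) * N ≤ ((N : ℝ) ^ (111 / 500 : ℝ)) ^ 5)
    (hL : LevQ N y J J1) (hm : 1 ≤ m) (hm2 : m ≤ 16 * N) : om y J J1 m ≤ 4 := by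
  by_contra hcon
  have h1 := om_pow y J J1 m hm
  have hNr : (0 : ℝ) < N := by exact_mod_cast hN
  have hp : (0 : ℝ) < (N : ℝ) ^ (111 / 500 : ℝ) := by positivity
  have hz := hL.2.1
  have hz0 : (0 : ℝ) < zz y J := lt_of_lt_of_le hp hz
  have hz1 : 1 ≤ zz y J := by exact_mod_cast hz0
  have h2 : zz y J ^ 5 ≤ m := (Nat.pow_le_pow_right hz1 (by omega)).trans h1
  have h3 : (zz y J : ℝ) ^ 5 ≤ m := by exact_mod_cast h2
  have h4 : ((N : ℝ) ^ (111 / 500 : ℝ)) ^ 5 ≤ (zz y J : ℝ) ^ 5 := pow_le_pow_left₀ hp.le hz 5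
  have h5 : (m : ℝ) ≤ 16 * N := by exact_mod_cast hm2
  linarith

theorem rg_zero_or_one (y m : ℕ) : rg y m = 0 ∨ rg y m = 1 := by
  unfold rg
  split_ifs
  · right; rfl
  · left; rfl

/-- the type of a number of the range -/
theorem typ_of {N y J J1 m : ℕ} (hN : 1 ≤ N) (hN1 : 17 * (N : ℝ) ^ (1527 / 5000 : ℝ) ≤ N)
    (hL : LevQ N y J J1) (hm : N ≤ 16 * m) : Typ (pr m) (rg (zz y J) m) (om y J J1 m) := by
  unfold pr
  split_ifs with hp
  · right
    right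
    have hNr : (0 : ℝ) < N := by exact_mod_cast hN
    have hz1 : zz y J1 < m := by
      have h1 : (zz y J1 : ℝ) ≤ (N : ℝ) ^ (1527 / 5000 : ℝ) := hL.2.2.2.2
      have h2 : (N : ℝ) ≤ 16 * m := by exact_mod_cast hm
      have h3 : (0 : ℝ) < (N : ℝ) ^ (1527 / 5000 : ℝ) := by positivity
      have h4 : (zz y J1 : ℝ) < m := by linarith
      exact_mod_cast h4
    have hzz : zz y J ≤ zz y J1 := by
      unfold zz
      exact Nat.mul_le_mul_right _ (Nat.pow_le_pow_right (by norm_num) hL.1)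
    refine ⟨rfl, ?_, ?_⟩
    · unfold rg
      rw [if_pos]
      intro q hq hqm
      rw [(Nat.prime_dvd_prime_iff_eq hq hp).1 hqm]
      omega
    · unfold om
      rw [Finset.card_eq_zero, Finset.filter_eq_empty_iff]
      intro q hq
      rw [Nat.Prime.primeFactors hp, mem_singleton] at hq
      omega
  · rcases rg_zero_or_one (zz y J) m with h | h
    · left
      exact ⟨rfl, h⟩
    · right
      left
      exact ⟨rfl, h⟩

theorem sqp_mono {y J J1 m : ℕ} (h : J ≤ J1) : sqp y J m ≤ sqp y J1 m := by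
  unfold sqp
  have hzz : zz y J ≤ zz y J1 := by
    unfold zz
    exact Nat.mul_le_mul_right _ (Nat.pow_le_pow_right (by norm_num) h)
  have : (PY y (zz y J)).filter (fun p => p ^ 2 ∣ m) ⊆ (PY y (zz y J1)).filter (fun p => p ^ 2 ∣ m) := by
    intro p hp
    rw [mem_filter] at hp ⊢
    unfold PY at hp ⊢
    rw [mem_filter, mem_Ioc] at hp ⊢
    exact ⟨⟨⟨hp.1.1.1, hp.1.1.2.trans hzz⟩, hp.1.2⟩, hp.2⟩
  exact_mod_cast card_le_card this

/-- `R1 = om (AA - (rg - T))` -/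
theorem r1_eq (S T : ℕ → ℝ) (y J J1 m : ℕ) (hm : 1 ≤ m) :
    R1 S T y J J1 m = om y J J1 m * (AA y J m - (rg y m - T m)) := by
  unfold R1
  rw [fq_eq S T y J J1 m hm]
  have h1 : Ap S y J m = (S m - rg y m) + AA y J m := by
    unfold Ap AA
    ring
  rw [h1]
  ring

/-- the bounds of the LFU functions -/
theorem appr {S T : ℕ → ℝ} {y J J1 m : ℕ} (hJ : J ≤ J1) (hm : 1 ≤ m) (h4 : om y J J1 m ≤ 4)
    (hT : T m ≤ rg y m) (hS : rg y m ≤ S m) :
    rg (zz y J) m ≤ Ap S y J m ∧ Ap S y J m ≤ rg (zz y J) m + DD S T y J1 m ∧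
      |R1 S T y J J1 m - om y J J1 m * rg (zz y J) m| ≤ 4 * DD S T y J1 m := by
  have h1 : Ap S y J m = (S m - rg y m) + AA y J m := by
    unfold Ap AA
    ring
  have hq := sqp_mono (y := y) (m := m) hJ
  have a1 : rg (zz y J) m ≤ AA y J m := by
    by_cases h : ∀ p : ℕ, p.Prime → p ∣ m → zz y J < p
    · rw [aa_one y J m hm h]
      rcases rg_zero_or_one (zz y J) m with h | h <;> rw [h]
      norm_num
    · have : rg (zz y J) m = 0 := by
        unfold rg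
        rw [if_neg h]
      rw [this]
      exact aa_nonneg y J m hm
  have a2 : AA y J m ≤ rg (zz y J) m + sqp y J m := aa_le y J m hm
  have a3 : 0 ≤ DD S T y J1 m - (S m - T m) := by
    unfold DD
    have : (0 : ℝ) ≤ sqp y J1 m := by
      unfold sqp
      positivity
    linarith
  have a4 : DD S T y J1 m = S m - T m + sqp y J1 m := rfl
  refine ⟨by rw [h1]; linarith, by rw [h1]; linarith, ?_⟩
  rw [r1_eq S T y J J1 m hm]
  have e1 : (om y J J1 m : ℝ) * (AA y J m - (rg y m - T m)) - om y J J1 m * rg (zz y J) m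
      = om y J J1 m * ((AA y J m - rg (zz y J) m) - (rg y m - T m)) := by ring
  rw [e1, abs_mul, Nat.abs_cast]
  refine mul_le_mul (by exact_mod_cast h4) ?_ (abs_nonneg _) (by norm_num)
  rw [abs_le]
  constructor <;> linarith

/-- the certificate -/
theorem cert_pt : ∃ N0 : ℕ, ∀ N : ℕ, N0 ≤ N → ∀ (y J J1 : ℕ) (S T : ℕ → ℝ), LevQ N y J J1 →
    (∀ m, 1 ≤ m → T m ≤ rg y m ∧ rg y m ≤ S m) →
    ∀ u v : ℕ, N ≤ 4 * u → u ≤ 4 * N → N ≤ 4 * v → v ≤ 4 * N →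
      pr u * (Ap S y J v - R1 S T y J J1 v) + (Ap S y J u - R1 S T y J J1 u) * pr v
        - (Ap S y J u - R1 S T y J J1 u) * (Ap S y J v - R1 S T y J J1 v)
        - ee0 y J J1 u * Ap S y J v - Ap S y J u * ee0 y J J1 v
        + gg0 y J J1 u * R1 S T y J J1 v + R1 S T y J J1 u * gg0 y J J1 v
        - 30 * (Ap S y J u * DD S T y J1 v + DD S T y J1 u * Ap S y J v + DD S T y J1 u * DD S T y J1 v)
        ≤ pr u * pr v := by
  obtain ⟨N0, hN0⟩ := cert_large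
  refine ⟨N0, fun N hN y J J1 S T hL hST u v hu1 hu2 hv1 hv2 => ?_⟩
  obtain ⟨g1, g2, g3⟩ := hN0 N hN
  have hu : 1 ≤ u := by omega
  have hv : 1 ≤ v := by omega
  have ou := om_le4 g1 g2 hL hu (by omega)
  have ov := om_le4 g1 g2 hL hv (by omega)
  obtain ⟨a1, a2, a3⟩ := appr (S := S) (T := T) hL.1 hu ou (hST u hu).1 (hST u hu).2
  obtain ⟨b1, b2, b3⟩ := appr (S := S) (T := T) hL.1 hv ov (hST v hv).1 (hST v hv).2
  exact star_rob (pr u) (rg (zz y J) u) (pr v) (rg (zz y J) v) (om y J J1 u) (om y J J1 v)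
    (typ_of g1 g3 hL (by omega)) (typ_of g1 g3 hL (by omega)) ou ov _ _ _ _ _ _ a1 a2 a3 b1 b2 b3

end Pool.Agent.H46.TPQ

end

section

/-!
# TS Pair: the correlations of `Y` with `X - k Λ_R` are small for almost all `n` (Parseval), `X` locally Fourier uniform
-/

set_option autoImplicit false

namespace Pool.Agent.H43.TS

open Finset
open Pool.Agent.H91.PK (ee)
open Pool.Agent.H91.EHA (Lam lamR)
open Pool.Agent.H43.MP (blk Hn idx Rn)
open Pool.Agent.H43.TP (rf Fh badF pr err1 err2 sup_nb blk_card)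

private theorem Pair_cheb (S : Finset ℕ) (f : ℕ → ℝ) (T X : ℝ) (hT : 0 < T)
    (h : ∑ n ∈ S, f n ^ 2 ≤ X) : ((S.filter (fun n => T < |f n|)).card : ℝ) ≤ X / T ^ 2 := by
  rw [le_div_iff₀ (by positivity)]
  refine le_trans ?_ h
  calc ((S.filter (fun n => T < |f n|)).card : ℝ) * T ^ 2
      = ∑ n ∈ S.filter (fun n => T < |f n|), T ^ 2 := by rw [sum_const, nsmul_eq_mul]
    _ ≤ ∑ n ∈ S.filter (fun n => T < |f n|), f n ^ 2 := by
        refine sum_le_sum fun n hn => ?_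
        rw [mem_filter] at hn
        rw [← sq_abs (f n)]
        exact pow_le_pow_left₀ hT.le hn.2.le 2
    _ ≤ ∑ n ∈ S, f n ^ 2 := sum_le_sum_of_subset_of_nonneg (filter_subset _ _)
        fun n _ _ => sq_nonneg _

open Classical in
/-- the exceptional `n` of a good block -/
theorem pair_blk (H i R : ℕ) (k S M T : ℝ) (X Y : ℕ → ℝ) (hi : 1 ≤ i) (hT : 0 < T)
    (s0 : ∀ α : ℝ, ‖∑ m ∈ blk H (i - 1), ((Fh R k X m : ℝ) : ℂ) * ee (-(α * m))‖ ≤ S)
    (s1 : ∀ α : ℝ, ‖∑ m ∈ blk H i, ((Fh R k X m : ℝ) : ℂ) * ee (-(α * m))‖ ≤ S)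
    (s2 : ∀ α : ℝ, ‖∑ m ∈ blk H (i + 1), ((Fh R k X m : ℝ) : ℂ) * ee (-(α * m))‖ ≤ S)
    (q0 : ∑ m ∈ blk H (i - 1), Y m ^ 2 ≤ M)
    (q1 : ∑ m ∈ blk H i, Y m ^ 2 ≤ M)
    (q2 : ∑ m ∈ blk H (i + 1), Y m ^ 2 ≤ M) :
    (((blk H i).filter (fun n => T < |rf H i Y (Fh R k X) n| ∨ T < |rf H i (Fh R k X) Y n|)).card : ℝ) ≤
      12 * S ^ 2 * M / T ^ 2 := by
  have b1 := Pair_cheb (blk H i) (rf H i Y (Fh R k X)) T _ hT
    ((err1 Y (Fh R k X) H i hi S s0 s1 s2).trans (mul_le_mul_of_nonneg_left q1 (by positivity)))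
  have b2 := Pair_cheb (blk H i) (rf H i (Fh R k X) Y) T _ hT
    ((err2 Y (Fh R k X) H i hi S s1).trans (mul_le_mul_of_nonneg_left
      (add_le_add (add_le_add q0 q1) q2) (by positivity)))
  have hc : (((blk H i).filter (fun n => T < |rf H i Y (Fh R k X) n| ∨
      T < |rf H i (Fh R k X) Y n|)).card : ℝ) ≤
      (((blk H i).filter (fun n => T < |rf H i Y (Fh R k X) n|)).card : ℝ) +
      ((blk H i).filter (fun n => T < |rf H i (Fh R k X) Y n|)).card := by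
    rw [filter_or]
    exact_mod_cast card_union_le _ _
  refine hc.trans ((add_le_add b1 b2).trans (le_of_eq ?_))
  ring

theorem mem_blk_div (H n : ℕ) (hH : 1 ≤ H) : n ∈ blk H (n / H) := by
  unfold blk
  rw [mem_Ico]
  refine ⟨Nat.div_mul_le_self n H, ?_⟩
  have := Nat.lt_mul_div_succ n (show 0 < H by omega)
  rw [mul_comm]
  exact this

/-- the number of `n` in given blocks -/
theorem cnt_blk (N H : ℕ) (hH : 1 ≤ H) (S : Finset ℕ) :
    ((Ioc N (2 * N)).filter (fun n => n / H ∈ S)).card ≤ S.card * H := by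
  have h1 : (Ioc N (2 * N)).filter (fun n => n / H ∈ S) ⊆ S.biUnion (blk H) := by
    intro n hn
    rw [mem_filter] at hn
    rw [mem_biUnion]
    exact ⟨n / H, hn.2, mem_blk_div H n hH⟩
  refine (card_le_card h1).trans (card_biUnion_le.trans ?_)
  rw [sum_congr rfl fun i _ => blk_card H i, sum_const, smul_eq_mul]

/-- the indices of the `n ∈ (N, 2N]` and their neighbours -/
theorem idx_nb (N H : ℕ) (hH : 1 ≤ H) (hHN : 8 * H ≤ N) : ∀ i ∈ Icc (N / H) (2 * N / H),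
    1 ≤ i - 1 ∧ i - 1 ∈ idx N H ∧ i ∈ idx N H ∧ i + 1 ∈ idx N H := by
  intro i hi
  have hq4 : 8 ≤ N / H := by
    rw [Nat.le_div_iff_mul_le (by omega)]
    omega
  rw [mem_Icc] at hi
  unfold idx
  simp only [mem_Icc]
  have t1 : N / (2 * H) = N / H / 2 := by rw [mul_comm, Nat.div_div_eq_div_mul]
  have t2 : 2 * N / H + 1 ≤ 3 * N / H := by
    rw [← Nat.add_div_right _ (by omega)]
    exact Nat.div_le_div_right (by omega)
  omega

theorem idx_lo (N H : ℕ) (hH : 1 ≤ H) (hHN : 8 * H ≤ N) : ∀ i ∈ idx N H, N ≤ 4 * (i * H) := by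
  intro i hi
  unfold idx at hi
  rw [mem_Icc] at hi
  have t1 : N / (2 * H) * H ≤ i * H := Nat.mul_le_mul_right _ hi.1
  have t2 := Nat.lt_mul_div_succ N (show 0 < 2 * H by omega)
  have t3 : 2 * H * (N / (2 * H) + 1) = 2 * (N / (2 * H) * H) + 2 * H := by ring
  omega

theorem div_mem (N H n : ℕ) (hn : n ∈ Ioc N (2 * N)) : n / H ∈ Icc (N / H) (2 * N / H) := by
  rw [mem_Ioc] at hn
  rw [mem_Icc]
  exact ⟨Nat.div_le_div_right (by omega), Nat.div_le_div_right (by omega)⟩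

private theorem Pair_num (H L : ℝ) (A C D : ℕ) (hH : 0 < H) (hL : 400 ≤ L) :
    12 * (2 * (H / L ^ (A + C + 2 * D + 6)) * L) ^ 2 * (H * L ^ C) / (H / L ^ D) ^ 2 ≤ H / L ^ (A + 2) := by
  have hL0 : 0 < L := by linarith
  have hL1 : 1 ≤ L := by linarith
  have e0 : L ^ (A + C + 2 * D + 6) = L ^ A * L ^ C * (L ^ D) ^ 2 * L ^ 6 := by
    rw [pow_add, pow_add, pow_add, pow_mul' L 2 D]
  have e1 : 12 * (2 * (H / L ^ (A + C + 2 * D + 6)) * L) ^ 2 * (H * L ^ C) / (H / L ^ D) ^ 2 =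
      48 * H / (L ^ A * L ^ A * L ^ C * (L ^ D) ^ 2 * L ^ 10) := by
    rw [e0]
    field_simp
    ring
  rw [e1, div_le_div_iff₀ (by positivity) (by positivity)]
  have e2 : (48 : ℝ) ≤ L ^ A * L ^ C * (L ^ D) ^ 2 * L ^ 8 := by
    have a1 : 1 ≤ L ^ A := one_le_pow₀ hL1
    have a2 : 1 ≤ L ^ C := one_le_pow₀ hL1
    have a3 : 1 ≤ (L ^ D) ^ 2 := one_le_pow₀ (one_le_pow₀ hL1)
    have a4 : L ≤ L ^ 8 := by
      calc L = L ^ 1 := (pow_one L).symm
        _ ≤ L ^ 8 := pow_le_pow_right₀ hL1 (by norm_num)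
    have a5 : 1 ≤ L ^ A * L ^ C * (L ^ D) ^ 2 :=
      one_le_mul_of_one_le_of_one_le (one_le_mul_of_one_le_of_one_le a1 a2) a3
    calc (48 : ℝ) ≤ L ^ 8 := by linarith
      _ = 1 * L ^ 8 := (one_mul _).symm
      _ ≤ L ^ A * L ^ C * (L ^ D) ^ 2 * L ^ 8 := mul_le_mul_of_nonneg_right a5 (by positivity)
  calc 48 * H * L ^ (A + 2) = H * (L ^ A * L ^ 2) * 48 := by rw [pow_add]; ring
    _ ≤ H * (L ^ A * L ^ 2) * (L ^ A * L ^ C * (L ^ D) ^ 2 * L ^ 8) :=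
        mul_le_mul_of_nonneg_left e2 (by positivity)
    _ = H * (L ^ A * L ^ A * L ^ C * (L ^ D) ^ 2 * L ^ 10) := by ring

theorem badE_card {N H R A C D A' : ℕ} {X k Y : ℕ → ℝ} (hL : 400 ≤ Real.log N) (hH : 1 ≤ H) (hHN : 8 * H ≤ N)
    (hA : A + C + 2 * D + 6 ≤ A')
    (hlam : ∀ i ∈ idx N H, ∑ m ∈ blk H i, lamR R m ^ 2 ≤ H * Real.log N ^ 2)
    (hY : ∀ i ∈ idx N H, ∑ m ∈ blk H i, Y m ^ 2 ≤ H * Real.log N ^ C)
    (hk : ∀ i ∈ idx N H, i + 1 ∈ idx N H → |k i - k (i + 1)| ≤ 1 / Real.log N ^ A')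
    (hb : ((badF N H R A' X k).card : ℝ) ≤ (N : ℝ) / H / Real.log N ^ A') :
    ((badE N H R D X k Y).card : ℝ) ≤ (N : ℝ) / Real.log N ^ (A + 1) := by
  classical
  set L := Real.log N with hLdef
  have hL0 : 0 < L := by linarith
  have hL1 : 1 ≤ L := by linarith
  have hN0 : N ≠ 0 := by
    rintro rfl
    omega
  have hNpos : (0 : ℝ) < N := by exact_mod_cast Nat.pos_of_ne_zero hN0
  have hH0 : (0 : ℝ) < H := by exact_mod_cast hH
  set A1 := A + C + 2 * D + 6 with hA1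
  have hpow : L ^ A1 ≤ L ^ A' := pow_le_pow_right₀ hL1 hA
  have hb' : ((badF N H R A' X k).card : ℝ) ≤ (N : ℝ) / H / L ^ A1 :=
    hb.trans (div_le_div_of_nonneg_left (by positivity) (by positivity) hpow)
  set BF := badF N H R A' X k with hBF
  set idx1 := Icc (N / H) (2 * N / H) with hidx1
  have hidxs := idx_nb N H hH hHN
  rw [← hidx1] at hidxs
  set BI := idx1.filter (fun i => i - 1 ∈ BF ∨ i ∈ BF ∨ i + 1 ∈ BF) with hBI
  set GI := idx1.filter (fun i => ¬ (i - 1 ∈ BF ∨ i ∈ BF ∨ i + 1 ∈ BF)) with hGI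
  have hBIc : (BI.card : ℝ) ≤ 3 * (N / H / L ^ A1) := by
    have t1 : BI ⊆ (BF.image (fun i => i + 1) ∪ BF) ∪ BF.image (fun i => i - 1) := by
      intro i hi
      rw [hBI, mem_filter] at hi
      have := hidxs i hi.1
      simp only [mem_union, mem_image]
      rcases hi.2 with h | h | h
      · left; left; exact ⟨i - 1, h, by omega⟩
      · left; right; exact h
      · right; exact ⟨i + 1, h, by omega⟩
    have t2 : BI.card ≤ 3 * BF.card := by
      refine (card_le_card t1).trans ((card_union_le _ _).trans ?_)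
      have a2 := card_union_le (BF.image (fun i => i + 1)) BF
      have a3 : (BF.image (fun i => i + 1)).card ≤ BF.card := card_image_le
      have a4 : (BF.image (fun i => i - 1)).card ≤ BF.card := card_image_le
      omega
    have t3 : (BI.card : ℝ) ≤ 3 * BF.card := by exact_mod_cast t2
    linarith
  have hq4 : 8 ≤ N / H := by
    rw [Nat.le_div_iff_mul_le (by omega)]
    omega
  have hGIc : (GI.card : ℝ) ≤ 2 * (N / H) := by
    have t1 : GI.card ≤ 2 * N / H - N / H + 1 := by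
      refine (card_le_card (filter_subset _ _)).trans ?_
      rw [hidx1, Nat.card_Icc]
      have : N / H ≤ 2 * N / H := Nat.div_le_div_right (by omega)
      omega
    have t2 : ((2 * N / H : ℕ) : ℝ) ≤ 2 * (N / H) := by
      refine (Nat.cast_div_le).trans (le_of_eq ?_)
      push_cast
      ring
    have t3 : (1 : ℝ) ≤ ((N / H : ℕ) : ℝ) := by exact_mod_cast (by omega : 1 ≤ N / H)
    have t4 : (GI.card : ℝ) + ((N / H : ℕ) : ℝ) ≤ ((2 * N / H : ℕ) : ℝ) + 1 := by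
      have : N / H ≤ 2 * N / H := Nat.div_le_div_right (by omega)
      exact_mod_cast (by omega : GI.card + N / H ≤ 2 * N / H + 1)
    linarith
  -- uniformity
  set S : ℝ := 2 * (H / L ^ A1) * L with hS
  have hfun : ∀ j ∈ idx N H, j ∉ BF → ∀ α : ℝ,
      ‖∑ m ∈ blk H j, ((X m - k j * lamR R m : ℝ) : ℂ) * ee (-(α * m))‖ ≤ H / L ^ A1 := by
    intro j hj hj2 α
    by_contra hcon
    push Not at hcon
    apply hj2
    rw [hBF]
    unfold badF
    simp only [mem_filter]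
    refine ⟨hj, α, lt_of_le_of_lt ?_ hcon⟩
    exact div_le_div_of_nonneg_left hH0.le (by positivity) hpow
  have hS1 : (H : ℝ) / L ^ A1 + 1 / L ^ A1 * (H * L) ≤ S := by
    rw [hS]
    have t1 : (0 : ℝ) < H / L ^ A1 := by positivity
    have t2 : 1 / L ^ A1 * (H * L) = H / L ^ A1 * L := by ring
    rw [t2]
    nlinarith
  have hk' : ∀ i ∈ idx N H, i + 1 ∈ idx N H → |k i - k (i + 1)| ≤ 1 / L ^ A1 := fun i h1 h2 =>
    (hk i h1 h2).trans (div_le_div_of_nonneg_left zero_le_one (by positivity) hpow)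
  have hsup : ∀ i ∈ GI, ∀ j : ℕ, (j = i - 1 ∨ j = i ∨ j = i + 1) → ∀ α : ℝ,
      ‖∑ m ∈ blk H j, ((Fh R (k i) X m : ℝ) : ℂ) * ee (-(α * m))‖ ≤ S := by
    intro i hi j hj α
    rw [hGI, mem_filter] at hi
    obtain ⟨hi1, hi2⟩ := hi
    push Not at hi2
    obtain ⟨k1, k2, k3⟩ := hi2
    obtain ⟨j1, j2, j3, j4⟩ := hidxs i hi1
    refine (sup_nb H j R (k i) (k j) (1 / L ^ A1) (H / L ^ A1) L X hL0.le ?_ ?_ ?_ α).trans hS1
    · rcases hj with rfl | rfl | rfl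
      · exact hfun _ j2 k1
      · exact hfun _ j3 k2
      · exact hfun _ j4 k3
    · rcases hj with rfl | rfl | rfl
      · have := hk' (i - 1) j2 (by rw [show i - 1 + 1 = i by omega]; exact j3)
        rw [show i - 1 + 1 = i by omega, abs_sub_comm] at this
        exact this
      · rw [sub_self, abs_zero]
        positivity
      · exact hk' i j3 j4
    · rcases hj with rfl | rfl | rfl
      · exact hlam _ j2
      · exact hlam _ j3
      · exact hlam _ j4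
  set T : ℝ := H / L ^ D with hT
  have hT0 : 0 < T := by positivity
  set bad : ℕ → Finset ℕ := fun i => (blk H i).filter (fun n => T < |rf H i Y (Fh R (k i) X) n| ∨
      T < |rf H i (Fh R (k i) X) Y n|) with hbad
  have hbadc : ∀ i ∈ GI, ((bad i).card : ℝ) ≤ H / L ^ (A + 2) := by
    intro i hi
    have hi0 := hi
    rw [hGI, mem_filter] at hi
    obtain ⟨j1, j2, j3, j4⟩ := hidxs i hi.1
    refine (pair_blk H i R (k i) S (H * L ^ C) T X Y (by omega) hT0 (hsup i hi0 _ (Or.inl rfl))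
      (hsup i hi0 _ (Or.inr (Or.inl rfl))) (hsup i hi0 _ (Or.inr (Or.inr rfl)))
      (hY _ j2) (hY _ j3) (hY _ j4)).trans ?_
    rw [hS, hT, hA1]
    exact Pair_num H L A C D hH0 hL
  -- the exceptional set
  set X2 := (Ioc N (2 * N)).filter (fun n => n / H ∈ BI) with hX2
  set X4 := GI.biUnion bad with hX4
  have hsub : badE N H R D X k Y ⊆ X2 ∪ X4 := by
    intro n hn
    unfold badE at hn
    rw [mem_filter] at hn
    obtain ⟨hn1, hn2⟩ := hn
    have hidx := div_mem N H n hn1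
    rw [← hidx1] at hidx
    rw [mem_union]
    by_cases hb2 : n / H ∈ BI
    · left
      rw [hX2, mem_filter]
      exact ⟨hn1, hb2⟩
    · right
      have hG : n / H ∈ GI := by
        rw [hGI, mem_filter]
        refine ⟨hidx, fun h => hb2 ?_⟩
        rw [hBI, mem_filter]
        exact ⟨hidx, h⟩
      rw [hX4, mem_biUnion]
      refine ⟨n / H, hG, ?_⟩
      rw [hbad]
      simp only [mem_filter]
      exact ⟨mem_blk_div H n hH, hn2⟩
  have hX2c : (X2.card : ℝ) ≤ 3 * (N / L ^ A1) := by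
    have t1 : (X2.card : ℝ) ≤ BI.card * H := by exact_mod_cast cnt_blk N H hH BI
    refine t1.trans ((mul_le_mul_of_nonneg_right hBIc hH0.le).trans (le_of_eq ?_))
    field_simp
  have hX4c : (X4.card : ℝ) ≤ 2 * (N / L ^ (A + 2)) := by
    have t1 : (X4.card : ℝ) ≤ ∑ i ∈ GI, (H : ℝ) / L ^ (A + 2) := by
      have t2 : (X4.card : ℝ) ≤ ∑ i ∈ GI, ((bad i).card : ℝ) := by
        exact_mod_cast card_biUnion_le
      exact t2.trans (sum_le_sum fun i hi => hbadc i hi)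
    rw [sum_const, nsmul_eq_mul] at t1
    refine t1.trans ((mul_le_mul_of_nonneg_right hGIc (by positivity)).trans (le_of_eq ?_))
    field_simp
  have hcard : ((badE N H R D X k Y).card : ℝ) ≤ X2.card + X4.card := by
    exact_mod_cast (card_le_card hsub).trans (card_union_le _ _)
  refine hcard.trans ?_
  set M : ℝ := N / L ^ (A + 1) with hM
  have hM0 : 0 < M := by positivity
  have mm : ∀ e : ℕ, 1 ≤ e → (N : ℝ) / L ^ (A + 1 + e) ≤ M / 400 := by
    intro e he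
    rw [hM, pow_add L (A + 1) e, div_div]
    refine div_le_div_of_nonneg_left hNpos.le (by positivity) ?_
    refine mul_le_mul_of_nonneg_left ?_ (by positivity)
    calc (400 : ℝ) ≤ L ^ 1 := by linarith
      _ ≤ L ^ e := pow_le_pow_right₀ hL1 he
  have n1 := mm 1 le_rfl
  have n2 := mm (C + 2 * D + 5) (by omega)
  rw [show A + 1 + (C + 2 * D + 5) = A1 by omega] at n2
  rw [show A + 1 + 1 = A + 2 by ring] at n1
  linarith

end Pool.Agent.H43.TS

end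

section

/-!
# TPQ BadLin: `badM` of linear combinations, monotonicity of `badF`
-/

set_option autoImplicit false

namespace Pool.Agent.H46.TPQ

open Finset
open Pool.Agent.H91.PK (ee)
open Pool.Agent.H91.EHA (Lam lamR)
open Pool.Agent.H43.MP (blk Hn idx Rn)
open Pool.Agent.H43.TP (rf badF pr)
open Pool.Agent.H43.TS (badM)
open Pool.Agent.H76.GB (SR)

theorem rf_sum_right {ι : Type} (s : Finset ι) (H i n : ℕ) (f : ℕ → ℝ) (c : ι → ℝ) (G : ι → ℕ → ℝ) :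
    rf H i f (fun m => ∑ j ∈ s, c j * G j m) n = ∑ j ∈ s, c j * rf H i f (G j) n := by
  unfold rf
  simp_rw [mul_sum]
  rw [sum_comm]
  refine sum_congr rfl fun j _ => sum_congr rfl fun u _ => ?_
  ring

theorem rf_sum_left {ι : Type} (s : Finset ι) (H i n : ℕ) (f : ℕ → ℝ) (c : ι → ℝ) (G : ι → ℕ → ℝ) :
    rf H i (fun m => ∑ j ∈ s, c j * G j m) f n = ∑ j ∈ s, c j * rf H i (G j) f n := by
  unfold rf
  simp_rw [sum_mul, mul_sum]
  rw [sum_comm]
  refine sum_congr rfl fun j _ => sum_congr rfl fun u _ => ?_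
  ring

private theorem BadLin_sum {ι : Type} (s : Finset ι) (c a g : ι → ℝ) (M T L : ℝ) (hL : 0 < L)
    (hc : ∑ j ∈ s, |c j| ≤ L) (h : ∀ j ∈ s, |a j - g j * M| ≤ T / L) (hT : 0 ≤ T) :
    |∑ j ∈ s, c j * a j - (∑ j ∈ s, c j * g j) * M| ≤ T := by
  have e1 : ∑ j ∈ s, c j * a j - (∑ j ∈ s, c j * g j) * M = ∑ j ∈ s, c j * (a j - g j * M) := by
    rw [sum_mul, ← sum_sub_distrib]
    refine sum_congr rfl fun j _ => ?_
    ring
  rw [e1]
  calc |∑ j ∈ s, c j * (a j - g j * M)| ≤ ∑ j ∈ s, |c j * (a j - g j * M)| := abs_sum_le_sum_abs _ _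
    _ ≤ ∑ j ∈ s, |c j| * (T / L) := sum_le_sum fun j hj => by
        rw [abs_mul]
        exact mul_le_mul_of_nonneg_left (h j hj) (abs_nonneg _)
    _ = (∑ j ∈ s, |c j|) * (T / L) := by rw [sum_mul]
    _ ≤ L * (T / L) := mul_le_mul_of_nonneg_right hc (by positivity)
    _ = T := by field_simp

/-- a linear combination is bad only where one of the functions is bad -/
theorem badM_sum {ι : Type} [DecidableEq ι] (s : Finset ι) (N H R D : ℕ) (c : ι → ℝ) (G g : ι → ℕ → ℝ)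
    (hL : 0 < Real.log N) (hc : ∑ j ∈ s, |c j| ≤ Real.log N) :
    badM N H R D (fun m => ∑ j ∈ s, c j * G j m) (fun i => ∑ j ∈ s, c j * g j i) ⊆
      s.biUnion (fun j => badM N H R (D + 1) (G j) (g j)) := by
  classical
  intro n hn
  by_contra hcon
  rw [mem_biUnion] at hcon
  push Not at hcon
  unfold badM at hn hcon
  simp only [mem_filter] at hn
  obtain ⟨hn1, hn2⟩ := hn
  have h1 : ∀ j ∈ s, |rf H (n / H) (lamR R) (G j) n - g j (n / H) * (H * SR R (2 * n))| ≤ (H / Real.log N ^ D) / Real.log N ∧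
      |rf H (n / H) (G j) (lamR R) n - g j (n / H) * (H * SR R (2 * n))| ≤ (H / Real.log N ^ D) / Real.log N := by
    intro j hj
    have h2 := hcon j hj
    simp only [mem_filter, not_and, not_or, not_lt] at h2
    have h3 := h2 hn1
    rw [div_div, ← pow_succ]
    exact h3
  have hT : 0 ≤ (H : ℝ) / Real.log N ^ D := by positivity
  have a1 := BadLin_sum s c _ (fun j => g j (n / H)) (H * SR R (2 * n)) _ _ hL hc (fun j hj => (h1 j hj).1) hT
  have a2 := BadLin_sum s c _ (fun j => g j (n / H)) (H * SR R (2 * n)) _ _ hL hc (fun j hj => (h1 j hj).2) hT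
  rw [← rf_sum_right] at a1
  rw [← rf_sum_left] at a2
  rcases hn2 with h | h
  · exact absurd a1 (not_le.2 h)
  · exact absurd a2 (not_le.2 h)

/-- `badF` grows with the exponent -/
theorem badF_mono {N H R A A' : ℕ} {X k : ℕ → ℝ} (hL : 1 ≤ Real.log N) (h : A ≤ A') :
    badF N H R A X k ⊆ badF N H R A' X k := by
  intro i hi
  unfold badF at hi ⊢
  simp only [mem_filter] at hi ⊢
  obtain ⟨hi1, α, hα⟩ := hi
  refine ⟨hi1, α, lt_of_le_of_lt ?_ hα⟩
  exact div_le_div_of_nonneg_left (Nat.cast_nonneg _) (by positivity) (pow_le_pow_right₀ hL h)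

end Pool.Agent.H46.TPQ

end

section

/-!
# TM Cnt: upper bounds for the numbers with one, two, three or four small primes

`cov`: if every `m ∈ A ⊆ (x, x+l]` is `d_i r` with `i ∈ ι`, `r` prime, then `#A ≤ (1+ε) l ∑_i 1/(d_i log(x/d_i))` (union bound over `i` and `pnt_int`; `r ∈ (x/d_i, (x+l)/d_i]`).  Use it with `ι` = a sigma finset (`Finset.sum_sigma`).
`rare`: the `m ∈ (x, x+l]` with `p² ∣ m`, `p > z`: `≤ l/z + 4 √(16 N)..` (`ZCntQ_sq` in `H91/TQ/ZCntQ.lean`, private: copy) `≤ 10^(-5) l/L`.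
`cnt_one = s1 + s2 + rare`: `0.4335 + 0.1548 = 0.5883`, `cnt_two = s3 + rare`, `cnt_three = s4` (with `1 + ε`, `ε = 10^(-5)`).  Conditions of `pnt_int`: `d ≤ x/N^e0`: `d = p ≤ N^0.31`; `d = p q ≤ 16 N/q`, `q > N^0.3`; `d = p q ≤ N^0.62`;
`d = p q r ≤ N^0.9`; `e0 = 1/20`.
-/

set_option autoImplicit false

namespace Pool.Agent.H9.TM

open Finset MeasureTheory
open Pool.Agent.H76.TP

/-- multiples of `d` in a short interval -/
private theorem Cnt_mult (x l d : ℕ) (hd : 0 < d) :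
    (((Ioc x (x + l)).filter (fun m => d ∣ m)).card : ℝ) ≤ l / d + 1 := by
  have hsub : (Ioc x (x + l)).filter (fun m => d ∣ m) ⊆
      (Ioc (x / d) ((x + l) / d)).image (fun k => d * k) := by
    intro m hm
    rw [mem_filter, mem_Ioc] at hm
    obtain ⟨⟨h1, h2⟩, k, hk⟩ := hm
    rw [mem_image]
    refine ⟨k, ?_, hk.symm⟩
    rw [mem_Ioc]
    refine ⟨?_, ?_⟩
    · rw [Nat.div_lt_iff_lt_mul hd, mul_comm, ← hk]
      exact h1
    · rw [Nat.le_div_iff_mul_le hd, mul_comm, ← hk]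
      exact h2
  have h1 : ((Ioc x (x + l)).filter (fun m => d ∣ m)).card ≤ (x + l) / d - x / d :=
    (card_le_card hsub).trans (card_image_le.trans (by rw [Nat.card_Ioc]))
  have h2 : x / d ≤ (x + l) / d := Nat.div_le_div_right (Nat.le_add_right _ _)
  have h3 : (((Ioc x (x + l)).filter (fun m => d ∣ m)).card : ℝ) ≤
      (((x + l) / d : ℕ) : ℝ) - ((x / d : ℕ) : ℝ) := by
    rw [← Nat.cast_sub h2]
    exact_mod_cast h1
  have h4 : (((x + l) / d : ℕ) : ℝ) ≤ ((x + l : ℕ) : ℝ) / d := Nat.cast_div_le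
  have hdR : (0 : ℝ) < d := by exact_mod_cast hd
  have h5 : (x : ℝ) / d < ((x / d : ℕ) : ℝ) + 1 := by
    rw [div_lt_iff₀ hdR]
    have : x < (x / d + 1) * d := by
      have := Nat.lt_div_mul_add hd (a := x)
      linarith [this, add_mul (x / d) 1 d, one_mul d]
    exact_mod_cast this
  have h6 : ((x + l : ℕ) : ℝ) / d = (x : ℝ) / d + l / d := by
    push_cast
    rw [add_div]
  linarith

/-- multiples of large squares in a short interval -/
private theorem Cnt_sq (x l M R : ℕ) (hM : 1 ≤ M) :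
    (((Ioc M R).biUnion (fun p => (Ioc x (x + l)).filter (fun m => p ^ 2 ∣ m))).card : ℝ) ≤
      l / M + R := by
  have h1 : (((Ioc M R).biUnion
      (fun p => (Ioc x (x + l)).filter (fun m => p ^ 2 ∣ m))).card : ℝ) ≤
      ∑ p ∈ Ioc M R, (((Ioc x (x + l)).filter (fun m => p ^ 2 ∣ m)).card : ℝ) := by
    have := card_biUnion_le (s := Ioc M R)
      (t := fun p => (Ioc x (x + l)).filter (fun m => p ^ 2 ∣ m))
    exact_mod_cast this
  have h2 : ∑ p ∈ Ioc M R, (((Ioc x (x + l)).filter (fun m => p ^ 2 ∣ m)).card : ℝ) ≤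
      ∑ p ∈ Ioc M R, ((l : ℝ) * ((p : ℝ) ^ 2)⁻¹ + 1) := by
    refine sum_le_sum fun p hp => ?_
    rw [mem_Ioc] at hp
    have h3 := Cnt_mult x l (p ^ 2) (by have : 0 < p := by omega
                                        positivity)
    rw [Nat.cast_pow, div_eq_mul_inv] at h3
    exact h3
  have hM0 : (0 : ℝ) < M := by exact_mod_cast hM
  have h3 : ∑ p ∈ Ioc M R, ((p : ℝ) ^ 2)⁻¹ ≤ (M : ℝ)⁻¹ := by
    rcases le_or_gt M R with h | h
    · have h4 := sum_Ioc_inv_sq_le_sub (α := ℝ) (k := M) (n := R) (by omega) h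
      have h5 : (0 : ℝ) ≤ (R : ℝ)⁻¹ := by positivity
      linarith
    · rw [Ioc_eq_empty (by omega), sum_empty]
      positivity
  have h4 : ((Ioc M R).card : ℝ) ≤ R := by
    rw [Nat.card_Ioc]
    exact_mod_cast Nat.sub_le _ _
  have hl0 : (0 : ℝ) ≤ l := Nat.cast_nonneg l
  calc _ ≤ ∑ p ∈ Ioc M R, ((l : ℝ) * ((p : ℝ) ^ 2)⁻¹ + 1) := h1.trans h2
    _ = (l : ℝ) * ∑ p ∈ Ioc M R, ((p : ℝ) ^ 2)⁻¹ + (Ioc M R).card := by
        rw [sum_add_distrib, ← mul_sum, sum_const, nsmul_eq_mul, mul_one]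
    _ ≤ (l : ℝ) * (M : ℝ)⁻¹ + R := add_le_add (mul_le_mul_of_nonneg_left h3 hl0) h4
    _ = l / M + R := by rw [div_eq_mul_inv]

/-- powers beat constants -/
private theorem Cnt_pow (c : ℝ) (hc : 0 < c) (C : ℝ) : ∃ N0 : ℕ, ∀ N : ℕ, N0 ≤ N → C ≤ (N : ℝ) ^ c := by
  have h := ((tendsto_rpow_atTop hc).comp (tendsto_natCast_atTop_atTop (R := ℝ))).eventually
    (Filter.eventually_ge_atTop C)
  rw [Filter.eventually_atTop] at h
  obtain ⟨N0, hN0⟩ := h
  exact ⟨N0, fun N hN => hN0 N hN⟩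

/-- powers of `N` beat powers of `log N` -/
private theorem Cnt_log (K : ℕ) (c C : ℝ) (hc : 0 < c) (hC : 0 < C) : ∃ N0 : ℕ, ∀ N : ℕ, N0 ≤ N →
    1 ≤ Real.log N ∧ C * Real.log N ^ K ≤ (N : ℝ) ^ c := by
  have hN : Filter.Tendsto (fun N : ℕ => (N : ℝ)) Filter.atTop Filter.atTop := tendsto_natCast_atTop_atTop
  have h1 := (Real.tendsto_log_atTop.comp hN).eventually (Filter.eventually_ge_atTop (1 : ℝ))
  have h4 := hN.eventually ((isLittleO_log_rpow_rpow_atTop (K : ℝ) hc).def (inv_pos.2 hC))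
  obtain ⟨N0, hN0⟩ := Filter.eventually_atTop.mp (h1.and h4)
  refine ⟨N0, fun N hNN => ?_⟩
  obtain ⟨g1, g4⟩ := hN0 N hNN
  have g1' : (1 : ℝ) ≤ Real.log N := g1
  refine ⟨g1', ?_⟩
  rw [Real.norm_of_nonneg (Real.rpow_nonneg (by linarith) _),
    Real.norm_of_nonneg (Real.rpow_nonneg (Nat.cast_nonneg N) _), Real.rpow_natCast] at g4
  rw [inv_mul_eq_div, le_div_iff₀ hC] at g4
  linarith

/-- `N^e0 d ≤ x` if `d ≤ c N^t`, `e0 + t < 1` -/
private theorem Cnt_size (t c : ℝ) (ht : t < 19 / 20) (_hc : 0 < c) : ∃ N0 : ℕ, ∀ N : ℕ, N0 ≤ N → ∀ x : ℕ, N ≤ 8 * x →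
    ∀ d : ℕ, (d : ℝ) ≤ c * (N : ℝ) ^ t → (N : ℝ) ^ (1 / 20 : ℝ) * d ≤ x := by
  obtain ⟨N0, hN0⟩ := Cnt_pow (19 / 20 - t) (by linarith) (8 * c)
  refine ⟨max 1 N0, fun N hN x hx d hd => ?_⟩
  have hN1 : 1 ≤ N := le_trans (le_max_left _ _) hN
  have hNpos : (0 : ℝ) < N := by exact_mod_cast hN1
  have h1 := hN0 N (le_trans (le_max_right _ _) hN)
  have hx' : (N : ℝ) ≤ 8 * x := by exact_mod_cast hx
  have h2 : (N : ℝ) = (N : ℝ) ^ (19 / 20 - t) * ((N : ℝ) ^ (1 / 20 : ℝ) * (N : ℝ) ^ t) := by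
    rw [← Real.rpow_add hNpos, ← Real.rpow_add hNpos]
    have : (19 / 20 - t + (1 / 20 + t) : ℝ) = 1 := by ring
    rw [this, Real.rpow_one]
  have h3 : 0 < (N : ℝ) ^ (1 / 20 : ℝ) := by positivity
  have h4 : 0 < (N : ℝ) ^ t := by positivity
  have h5 : (N : ℝ) ^ (1 / 20 : ℝ) * d ≤ (N : ℝ) ^ (1 / 20 : ℝ) * (c * (N : ℝ) ^ t) :=
    mul_le_mul_of_nonneg_left hd h3.le
  have h6 : 8 * c * ((N : ℝ) ^ (1 / 20 : ℝ) * (N : ℝ) ^ t) ≤ N := by
    calc 8 * c * ((N : ℝ) ^ (1 / 20 : ℝ) * (N : ℝ) ^ t)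
        ≤ (N : ℝ) ^ (19 / 20 - t) * ((N : ℝ) ^ (1 / 20 : ℝ) * (N : ℝ) ^ t) :=
          mul_le_mul_of_nonneg_right h1 (by positivity)
      _ = N := h2.symm
  nlinarith

/-- members of `PE` -/
private theorem Cnt_PE {N : ℕ} {s t : ℝ} {p : ℕ} (hp : p ∈ PE N s t) :
    p.Prime ∧ (N : ℝ) ^ s < p ∧ (p : ℝ) ≤ (N : ℝ) ^ t := by
  unfold PE at hp
  rw [mem_filter] at hp
  exact hp.2

theorem cov (K : ℕ) (ε e0 : ℝ) (hε : 0 < ε) (he0 : 0 < e0) : ∃ N0 : ℕ, ∀ N : ℕ, N0 ≤ N → ∀ x l : ℕ, N ≤ 8 * x → x ≤ 8 * N →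
    (x : ℝ) / Real.log N ^ K ≤ l → l ≤ x → ∀ (τ : Type) (ι : Finset τ) (d : τ → ℕ) (A : Finset ℕ), A ⊆ Ioc x (x + l) →
      (∀ m ∈ A, ∃ i ∈ ι, ∃ r : ℕ, r.Prime ∧ m = d i * r) → (∀ i ∈ ι, 1 ≤ d i ∧ (N : ℝ) ^ e0 * d i ≤ x) →
      (A.card : ℝ) ≤ (1 + ε) * l * ∑ i ∈ ι, 1 / (d i * Real.log ((x : ℝ) / d i)) := by
  obtain ⟨N0, hN0⟩ := pnt_int K ε e0 hε he0
  refine ⟨max 8 N0, fun N hN x l hx1 hx2 hl hlx τ ι d A hA hAd hd => ?_⟩
  have hN8 : 8 ≤ N := le_trans (le_max_left _ _) hN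
  have hNN : N0 ≤ N := le_trans (le_max_right _ _) hN
  have hx3 : x ≤ N ^ 2 := by
    calc x ≤ 8 * N := hx2
      _ ≤ N * N := Nat.mul_le_mul_right _ hN8
      _ = N ^ 2 := (sq N).symm
  have hsub : A ⊆ ι.biUnion (fun i => ((Ioc (x / d i) ((x + l) / d i)).filter Nat.Prime).image (fun r => d i * r)) := by
    intro m hm
    obtain ⟨i, hi, r, hr, hmr⟩ := hAd m hm
    have hmI := hA hm
    rw [mem_Ioc] at hmI
    have hdi : 0 < d i := (hd i hi).1
    rw [mem_biUnion]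
    refine ⟨i, hi, ?_⟩
    rw [mem_image]
    refine ⟨r, ?_, hmr.symm⟩
    rw [mem_filter, mem_Ioc]
    refine ⟨⟨?_, ?_⟩, hr⟩
    · rw [Nat.div_lt_iff_lt_mul hdi, mul_comm, ← hmr]
      exact hmI.1
    · rw [Nat.le_div_iff_mul_le hdi, mul_comm, ← hmr]
      exact hmI.2
  have h1 : A.card ≤ ∑ i ∈ ι, ((Ioc (x / d i) ((x + l) / d i)).filter Nat.Prime).card :=
    (card_le_card hsub).trans (card_biUnion_le.trans (sum_le_sum fun i _ => card_image_le))
  have h2 : (A.card : ℝ) ≤ ∑ i ∈ ι, (((Ioc (x / d i) ((x + l) / d i)).filter Nat.Prime).card : ℝ) := by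
    have h3 : (A.card : ℝ) ≤ ((∑ i ∈ ι, ((Ioc (x / d i) ((x + l) / d i)).filter Nat.Prime).card : ℕ) : ℝ) :=
      Nat.cast_le.2 h1
    push_cast at h3
    exact h3
  refine h2.trans ?_
  rw [mul_sum]
  refine sum_le_sum fun i hi => ?_
  have h4 := hN0 N hNN x l (d i) (hd i hi).1 (hd i hi).2 hx3 hl hlx
  rw [mul_one_div]
  exact h4

open Classical in
theorem rare (K : ℕ) (ε : ℝ) (hε : 0 < ε) : ∃ N0 : ℕ, ∀ N : ℕ, N0 ≤ N → ∀ z x l : ℕ, (N : ℝ) ^ (111 / 500 : ℝ) ≤ z →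
    N ≤ 8 * x → x ≤ 8 * N → (x : ℝ) / Real.log N ^ K ≤ l → l ≤ x →
      (((Ioc x (x + l)).filter (fun m => sqz z m)).card : ℝ) ≤ ε * l / Real.log N := by
  obtain ⟨N1, hN1⟩ := Cnt_log 1 (111 / 500) (2 / ε) (by norm_num) (by positivity)
  obtain ⟨N2, hN2⟩ := Cnt_log (K + 1) (1 / 2) (64 / ε) (by norm_num) (by positivity)
  refine ⟨max 1 (max N1 N2), fun N hN z x l hz hx1 hx2 hl hlx => ?_⟩
  have hNone : 1 ≤ N := le_trans (le_max_left _ _) hN
  obtain ⟨hL1, h1⟩ := hN1 N (le_trans (le_trans (le_max_left _ _) (le_max_right _ _)) hN)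
  obtain ⟨-, h2⟩ := hN2 N (le_trans (le_trans (le_max_right _ _) (le_max_right _ _)) hN)
  have hNpos : (0 : ℝ) < N := by exact_mod_cast hNone
  have hL : (0 : ℝ) < Real.log N := by linarith
  rw [pow_one] at h1
  have hzpos : (0 : ℝ) < z := lt_of_lt_of_le (by positivity) hz
  have hz1 : 1 ≤ z := by
    have : 0 < z := by exact_mod_cast hzpos
    exact this
  have hsub : (Ioc x (x + l)).filter (fun m => sqz z m) ⊆
      (Ioc z (Nat.sqrt (16 * N))).biUnion (fun p => (Ioc x (x + l)).filter (fun m => p ^ 2 ∣ m)) := by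
    intro m hm
    rw [mem_filter] at hm
    obtain ⟨hmI, p, hp, hzp, hpm⟩ := hm
    rw [mem_biUnion]
    have hmI' := hmI
    rw [mem_Ioc] at hmI'
    refine ⟨p, ?_, ?_⟩
    · rw [mem_Ioc]
      refine ⟨hzp, ?_⟩
      rw [Nat.le_sqrt]
      have h3 : p ^ 2 ≤ m := Nat.le_of_dvd (by omega) hpm
      have h4 : p * p = p ^ 2 := (sq p).symm
      omega
    · rw [mem_filter]
      exact ⟨hmI, hpm⟩
  have h3 : (((Ioc x (x + l)).filter (fun m => sqz z m)).card : ℝ) ≤ l / z + (Nat.sqrt (16 * N) : ℕ) :=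
    le_trans (by exact_mod_cast card_le_card hsub) (Cnt_sq x l z (Nat.sqrt (16 * N)) hz1)
  have hl0 : (0 : ℝ) ≤ l := Nat.cast_nonneg l
  have h4 : (l : ℝ) / z ≤ ε / 2 * l / Real.log N := by
    rw [div_le_div_iff₀ hzpos hL]
    have h5 : Real.log N ≤ ε / 2 * z := by
      have h6 : 2 / ε * Real.log N ≤ z := h1.trans hz
      have h7 : Real.log N = ε / 2 * (2 / ε * Real.log N) := by
        field_simp
      rw [h7]
      exact mul_le_mul_of_nonneg_left h6 (by positivity)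
    calc (l : ℝ) * Real.log N ≤ l * (ε / 2 * z) := mul_le_mul_of_nonneg_left h5 hl0
      _ = ε / 2 * l * z := by ring
  have h5 : ((Nat.sqrt (16 * N) : ℕ) : ℝ) ≤ ε / 2 * l / Real.log N := by
    have h6 : ((Nat.sqrt (16 * N) : ℕ) : ℝ) ≤ 4 * (N : ℝ) ^ (1 / 2 : ℝ) := by
      have h7 : ((Nat.sqrt (16 * N) : ℕ) : ℝ) ^ 2 ≤ (4 * (N : ℝ) ^ (1 / 2 : ℝ)) ^ 2 := by
        have h8 : (Nat.sqrt (16 * N)) ^ 2 ≤ 16 * N := Nat.sqrt_le' _
        have h9 : ((Nat.sqrt (16 * N) : ℕ) : ℝ) ^ 2 ≤ 16 * N := by exact_mod_cast h8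
        have h10 : (4 * (N : ℝ) ^ (1 / 2 : ℝ)) ^ 2 = 16 * N := by
          rw [mul_pow, ← Real.rpow_natCast, ← Real.rpow_natCast, ← Real.rpow_mul hNpos.le]
          norm_num
        rw [h10]
        exact h9
      exact le_of_sq_le_sq h7 (by positivity)
    refine h6.trans ?_
    rw [le_div_iff₀ hL]
    have hLK : (0 : ℝ) < Real.log N ^ K := by positivity
    have hxl : (x : ℝ) ≤ l * Real.log N ^ K := by
      rw [div_le_iff₀ hLK] at hl
      exact hl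
    have hx' : (N : ℝ) ≤ 8 * x := by exact_mod_cast hx1
    have h7 : (N : ℝ) ≤ 8 * l * Real.log N ^ K := by linarith
    have h8 : (N : ℝ) = (N : ℝ) ^ (1 / 2 : ℝ) * (N : ℝ) ^ (1 / 2 : ℝ) := by
      rw [← Real.rpow_add hNpos]
      norm_num
    have hs : (0 : ℝ) < (N : ℝ) ^ (1 / 2 : ℝ) := by positivity
    -- `4 s L · (64/ε) L^(K+1) ≤ 4 s L s = 4 L N ≤ 32 L l L^K`
    have h9 : 4 * (N : ℝ) ^ (1 / 2 : ℝ) * Real.log N * (64 / ε * Real.log N ^ (K + 1)) ≤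
        ε / 2 * l * (64 / ε * Real.log N ^ (K + 1)) := by
      calc 4 * (N : ℝ) ^ (1 / 2 : ℝ) * Real.log N * (64 / ε * Real.log N ^ (K + 1))
          ≤ 4 * (N : ℝ) ^ (1 / 2 : ℝ) * Real.log N * (N : ℝ) ^ (1 / 2 : ℝ) :=
            mul_le_mul_of_nonneg_left h2 (by positivity)
        _ = 4 * Real.log N * N := by
            rw [mul_assoc, mul_comm (Real.log N), ← mul_assoc, mul_assoc 4, ← h8]
            ring
        _ ≤ 4 * Real.log N * (8 * l * Real.log N ^ K) := mul_le_mul_of_nonneg_left h7 (by positivity)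
        _ = ε / 2 * l * (64 / ε * Real.log N ^ (K + 1)) := by
            rw [pow_succ]
            field_simp
            ring
    exact le_of_mul_le_mul_right h9 (by positivity)
  calc _ ≤ (l : ℝ) / z + (Nat.sqrt (16 * N) : ℕ) := h3
    _ ≤ ε / 2 * l / Real.log N + ε / 2 * l / Real.log N := add_le_add h4 h5
    _ = ε * l / Real.log N := by ring

open Classical in
theorem cnt_one (K : ℕ) : ∃ N0 : ℕ, ∀ N : ℕ, N0 ≤ N → ∀ z z1 x l : ℕ, (N : ℝ) ^ (111 / 500 : ℝ) ≤ z →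
    (N : ℝ) ^ (3053 / 10000 : ℝ) ≤ z1 → (z1 : ℝ) ≤ (N : ℝ) ^ (1527 / 5000 : ℝ) → N ≤ 8 * x → x ≤ 8 * N →
    (x : ℝ) / Real.log N ^ K ≤ l → l ≤ x →
      (((Ioc x (x + l)).filter (fun m => ¬ m.Prime ∧ rou z m ∧ omz z z1 m = 1)).card : ℝ) ≤ (5885 / 10000) * l / Real.log N := by
  obtain ⟨N1, hN1⟩ := cov K (1 / 20000) (1 / 20) (by norm_num) (by norm_num)
  obtain ⟨N2, hN2⟩ := rare K (1 / 20000) (by norm_num)
  obtain ⟨N3, hN3⟩ := cls_one
  obtain ⟨N4, hN4⟩ := s1_le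
  obtain ⟨N5, hN5⟩ := s2_le
  obtain ⟨N6, hN6⟩ := Cnt_size (1527 / 5000) 1 (by norm_num) (by norm_num)
  obtain ⟨N7, hN7⟩ := Cnt_size (6947 / 10000) 16 (by norm_num) (by norm_num)
  obtain ⟨N8, hN8⟩ := Cnt_log 1 1 1 (by norm_num) (by norm_num)
  refine ⟨1 + N1 + N2 + N3 + N4 + N5 + N6 + N7 + N8, fun N hN z z1 x l hz hz1 hz1' hx1 hx2 hl hlx => ?_⟩
  have hc1 := hN1 N (by omega) x l hx1 hx2 hl hlx
  have hr := hN2 N (by omega) z x l hz hx1 hx2 hl hlx
  have hcls := hN3 N (by omega) z z1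
  have hs1 := hN4 N (by omega) x hx1 hx2
  have hs2 := hN5 N (by omega) x hx1 hx2
  have hsz1 := hN6 N (by omega) x hx1
  have hsz2 := hN7 N (by omega) x hx1
  obtain ⟨hL1, -⟩ := hN8 N (by omega)
  have hL : (0 : ℝ) < Real.log N := by linarith
  have hNpos : (0 : ℝ) < N := by
    have : 0 < N := by omega
    exact_mod_cast this
  have hl0 : (0 : ℝ) ≤ l := Nat.cast_nonneg l
  obtain ⟨P, hP⟩ : ∃ P, P = PE N (111 / 500) (1527 / 5000) := ⟨_, rfl⟩
  obtain ⟨Q, hQ⟩ : ∃ Q : ℕ → Finset ℕ, Q = fun p =>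
    (Icc 1 (16 * N)).filter (fun q : ℕ => q.Prime ∧ (N : ℝ) ^ (3053 / 10000 : ℝ) < q ∧ p * q ^ 2 ≤ 16 * N) := ⟨_, rfl⟩
  obtain ⟨A1, hA1⟩ : ∃ A1 : Finset ℕ, A1 = (Ioc x (x + l)).filter (fun m => ∃ p ∈ P, ∃ q : ℕ, q.Prime ∧ m = p * q) := ⟨_, rfl⟩
  obtain ⟨A2, hA2⟩ : ∃ A2 : Finset ℕ, A2 = (Ioc x (x + l)).filter
    (fun m => ∃ p ∈ P, ∃ q ∈ Q p, ∃ r : ℕ, r.Prime ∧ m = p * q * r) := ⟨_, rfl⟩
  have hsub : (Ioc x (x + l)).filter (fun m => ¬ m.Prime ∧ rou z m ∧ omz z z1 m = 1) ⊆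
      (A1 ∪ A2) ∪ (Ioc x (x + l)).filter (fun m => sqz z m) := by
    intro m hm
    rw [mem_filter] at hm
    obtain ⟨hmI, hmp, hmr, hmo⟩ := hm
    have hmI' := hmI
    rw [mem_Ioc] at hmI'
    by_cases hsq : sqz z m
    · exact mem_union_right _ (mem_filter.2 ⟨hmI, hsq⟩)
    · refine mem_union_left _ ?_
      rcases hcls m hz hz1 hz1' (by omega) (by omega) hmr hmp hmo hsq with h | h
      · refine mem_union_left _ ?_
        rw [hA1, mem_filter, hP]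
        exact ⟨hmI, h⟩
      · refine mem_union_right _ ?_
        rw [hA2, mem_filter, hP, hQ]
        exact ⟨hmI, h⟩
  have hcard : (((Ioc x (x + l)).filter (fun m => ¬ m.Prime ∧ rou z m ∧ omz z z1 m = 1)).card : ℝ) ≤
      (A1.card : ℝ) + A2.card + ((Ioc x (x + l)).filter (fun m => sqz z m)).card := by
    have h1 := card_le_card hsub
    have h2 := card_union_le (A1 ∪ A2) ((Ioc x (x + l)).filter (fun m => sqz z m))
    have h3 := card_union_le A1 A2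
    have h4 : ((Ioc x (x + l)).filter (fun m => ¬ m.Prime ∧ rou z m ∧ omz z z1 m = 1)).card ≤
      A1.card + A2.card + ((Ioc x (x + l)).filter (fun m => sqz z m)).card := by omega
    exact_mod_cast h4
  have hb1 : (A1.card : ℝ) ≤ (1 + 1 / 20000) * l * ∑ p ∈ P, 1 / ((p : ℝ) * Real.log ((x : ℝ) / p)) := by
    refine hc1 ℕ P (fun p => p) A1 (by rw [hA1]; exact filter_subset _ _) ?_ ?_
    · intro m hm
      rw [hA1, mem_filter] at hm
      exact hm.2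
    · intro p hp
      rw [hP] at hp
      obtain ⟨h1, h2, h3⟩ := Cnt_PE hp
      refine ⟨h1.one_lt.le, hsz1 p ?_⟩
      rw [one_mul]
      exact h3
  have hb2 : (A2.card : ℝ) ≤ (1 + 1 / 20000) * l *
      ∑ p ∈ P, ∑ q ∈ Q p, 1 / ((p : ℝ) * q * Real.log ((x : ℝ) / (p * q))) := by
    have h := hc1 ((_ : ℕ) × ℕ) (P.sigma Q) (fun i => i.1 * i.2) A2 (by rw [hA2]; exact filter_subset _ _) ?_ ?_
    · refine h.trans (le_of_eq ?_)
      rw [sum_sigma]
      push_cast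
      rfl
    · intro m hm
      rw [hA2, mem_filter] at hm
      obtain ⟨-, p, hp, q, hq, r, hr1, hr2⟩ := hm
      exact ⟨⟨p, q⟩, mem_sigma.2 ⟨hp, hq⟩, r, hr1, hr2⟩
    · rintro ⟨p, q⟩ hi
      rw [mem_sigma] at hi
      obtain ⟨hp, hq⟩ := hi
      simp only at hp hq
      rw [hP] at hp
      rw [hQ, mem_filter] at hq
      obtain ⟨h1, h2, h3⟩ := Cnt_PE hp
      obtain ⟨-, hqp, hq1, hq2⟩ := hq
      refine ⟨Nat.mul_pos h1.pos hqp.pos, hsz2 (p * q) ?_⟩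
      have hq0 : (0 : ℝ) < (N : ℝ) ^ (3053 / 10000 : ℝ) := by positivity
      have h4 : (p : ℝ) * q ^ 2 ≤ 16 * N := by exact_mod_cast hq2
      have h5 : ((p * q : ℕ) : ℝ) * (N : ℝ) ^ (3053 / 10000 : ℝ) ≤ 16 * N := by
        push_cast
        calc (p : ℝ) * q * (N : ℝ) ^ (3053 / 10000 : ℝ) ≤ (p : ℝ) * q * q :=
              mul_le_mul_of_nonneg_left hq1.le (by positivity)
          _ = (p : ℝ) * q ^ 2 := by ring
          _ ≤ 16 * N := h4
      have h6 : (N : ℝ) = (N : ℝ) ^ (6947 / 10000 : ℝ) * (N : ℝ) ^ (3053 / 10000 : ℝ) := by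
        rw [← Real.rpow_add hNpos]
        norm_num
      have h7 : ((p * q : ℕ) : ℝ) * (N : ℝ) ^ (3053 / 10000 : ℝ) ≤
          16 * (N : ℝ) ^ (6947 / 10000 : ℝ) * (N : ℝ) ^ (3053 / 10000 : ℝ) := by
        rw [mul_assoc 16, ← h6]
        exact h5
      exact le_of_mul_le_mul_right h7 hq0
  rw [← hP] at hs1 hs2
  have hs2' : ∑ p ∈ P, ∑ q ∈ Q p, 1 / ((p : ℝ) * q * Real.log ((x : ℝ) / (p * q))) ≤ (1548 / 10000) / Real.log N := by
    rw [hQ]
    exact hs2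
  have hb1' : (A1.card : ℝ) ≤ (1 + 1 / 20000) * l * ((4335 / 10000) / Real.log N) :=
    hb1.trans (mul_le_mul_of_nonneg_left hs1 (by positivity))
  have hb2' : (A2.card : ℝ) ≤ (1 + 1 / 20000) * l * ((1548 / 10000) / Real.log N) :=
    hb2.trans (mul_le_mul_of_nonneg_left hs2' (by positivity))
  have hlL : (0 : ℝ) ≤ l / Real.log N := by positivity
  calc _ ≤ (A1.card : ℝ) + A2.card + ((Ioc x (x + l)).filter (fun m => sqz z m)).card := hcard
    _ ≤ (1 + 1 / 20000) * l * ((4335 / 10000) / Real.log N) + (1 + 1 / 20000) * l * ((1548 / 10000) / Real.log N)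
        + 1 / 20000 * l / Real.log N := add_le_add (add_le_add hb1' hb2') hr
    _ = ((1 + 1 / 20000) * (5883 / 10000) + 1 / 20000) * (l / Real.log N) := by ring
    _ ≤ (5885 / 10000) * (l / Real.log N) := mul_le_mul_of_nonneg_right (by norm_num) hlL
    _ = (5885 / 10000) * l / Real.log N := by ring

open Classical in
theorem cnt_two (K : ℕ) : ∃ N0 : ℕ, ∀ N : ℕ, N0 ≤ N → ∀ z z1 x l : ℕ, (N : ℝ) ^ (111 / 500 : ℝ) ≤ z →
    (N : ℝ) ^ (3053 / 10000 : ℝ) ≤ z1 → (z1 : ℝ) ≤ (N : ℝ) ^ (1527 / 5000 : ℝ) → N ≤ 8 * x → x ≤ 8 * N →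
    (x : ℝ) / Real.log N ^ K ≤ l → l ≤ x →
      (((Ioc x (x + l)).filter (fun m => ¬ m.Prime ∧ rou z m ∧ omz z z1 m = 2)).card : ℝ) ≤ (1103 / 10000) * l / Real.log N := by
  obtain ⟨N1, hN1⟩ := cov K (1 / 20000) (1 / 20) (by norm_num) (by norm_num)
  obtain ⟨N2, hN2⟩ := rare K (1 / 20000) (by norm_num)
  obtain ⟨N3, hN3⟩ := cls_two
  obtain ⟨N4, hN4⟩ := s3_le
  obtain ⟨N6, hN6⟩ := Cnt_size (1527 / 2500) 1 (by norm_num) (by norm_num)
  obtain ⟨N8, hN8⟩ := Cnt_log 1 1 1 (by norm_num) (by norm_num)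
  refine ⟨1 + N1 + N2 + N3 + N4 + N6 + N8, fun N hN z z1 x l hz hz1 hz1' hx1 hx2 hl hlx => ?_⟩
  have hc1 := hN1 N (by omega) x l hx1 hx2 hl hlx
  have hr := hN2 N (by omega) z x l hz hx1 hx2 hl hlx
  have hcls := hN3 N (by omega) z z1
  have hs1 := hN4 N (by omega) x hx1 hx2
  have hsz1 := hN6 N (by omega) x hx1
  obtain ⟨hL1, -⟩ := hN8 N (by omega)
  have hL : (0 : ℝ) < Real.log N := by linarith
  have hNpos : (0 : ℝ) < N := by
    have : 0 < N := by omega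
    exact_mod_cast this
  have hl0 : (0 : ℝ) ≤ l := Nat.cast_nonneg l
  obtain ⟨P, hP⟩ : ∃ P, P = PE N (111 / 500) (1527 / 5000) := ⟨_, rfl⟩
  obtain ⟨A1, hA1⟩ : ∃ A1 : Finset ℕ, A1 = (Ioc x (x + l)).filter
    (fun m => ∃ p ∈ P, ∃ q ∈ P.filter (fun q => p < q), ∃ r : ℕ, r.Prime ∧ m = p * q * r) := ⟨_, rfl⟩
  have hsub : (Ioc x (x + l)).filter (fun m => ¬ m.Prime ∧ rou z m ∧ omz z z1 m = 2) ⊆
      A1 ∪ (Ioc x (x + l)).filter (fun m => sqz z m) := by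
    intro m hm
    rw [mem_filter] at hm
    obtain ⟨hmI, hmp, hmr, hmo⟩ := hm
    have hmI' := hmI
    rw [mem_Ioc] at hmI'
    by_cases hsq : sqz z m
    · exact mem_union_right _ (mem_filter.2 ⟨hmI, hsq⟩)
    · refine mem_union_left _ ?_
      rw [hA1, mem_filter, hP]
      exact ⟨hmI, hcls m hz hz1 hz1' (by omega) (by omega) hmr hmp hmo hsq⟩
  have hcard : (((Ioc x (x + l)).filter (fun m => ¬ m.Prime ∧ rou z m ∧ omz z z1 m = 2)).card : ℝ) ≤
      (A1.card : ℝ) + ((Ioc x (x + l)).filter (fun m => sqz z m)).card := by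
    have h1 := card_le_card hsub
    have h2 := card_union_le A1 ((Ioc x (x + l)).filter (fun m => sqz z m))
    have h4 : ((Ioc x (x + l)).filter (fun m => ¬ m.Prime ∧ rou z m ∧ omz z z1 m = 2)).card ≤
      A1.card + ((Ioc x (x + l)).filter (fun m => sqz z m)).card := by omega
    exact_mod_cast h4
  have hb1 : (A1.card : ℝ) ≤ (1 + 1 / 20000) * l *
      ∑ p ∈ P, ∑ q ∈ P.filter (fun q => p < q), 1 / ((p : ℝ) * q * Real.log ((x : ℝ) / (p * q))) := by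
    have h := hc1 ((_ : ℕ) × ℕ) (P.sigma (fun p => P.filter (fun q => p < q))) (fun i => i.1 * i.2) A1
      (by rw [hA1]; exact filter_subset _ _) ?_ ?_
    · refine h.trans (le_of_eq ?_)
      rw [sum_sigma]
      push_cast
      rfl
    · intro m hm
      rw [hA1, mem_filter] at hm
      obtain ⟨-, p, hp, q, hq, r, hr1, hr2⟩ := hm
      exact ⟨⟨p, q⟩, mem_sigma.2 ⟨hp, hq⟩, r, hr1, hr2⟩
    · rintro ⟨p, q⟩ hi
      rw [mem_sigma] at hi
      obtain ⟨hp, hq⟩ := hi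
      simp only at hp hq
      rw [mem_filter] at hq
      have hq' := hq.1
      rw [hP] at hp hq'
      obtain ⟨h1, h2, h3⟩ := Cnt_PE hp
      obtain ⟨g1, g2, g3⟩ := Cnt_PE hq'
      refine ⟨Nat.mul_pos h1.pos g1.pos, hsz1 (p * q) ?_⟩
      rw [one_mul]
      push_cast
      calc (p : ℝ) * q ≤ (N : ℝ) ^ (1527 / 5000 : ℝ) * (N : ℝ) ^ (1527 / 5000 : ℝ) :=
            mul_le_mul h3 g3 (by positivity) (by positivity)
        _ = (N : ℝ) ^ (1527 / 2500 : ℝ) := by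
            rw [← Real.rpow_add hNpos]
            norm_num
  rw [← hP] at hs1
  have hb1' : (A1.card : ℝ) ≤ (1 + 1 / 20000) * l * ((1102 / 10000) / Real.log N) :=
    hb1.trans (mul_le_mul_of_nonneg_left hs1 (by positivity))
  have hlL : (0 : ℝ) ≤ l / Real.log N := by positivity
  calc _ ≤ (A1.card : ℝ) + ((Ioc x (x + l)).filter (fun m => sqz z m)).card := hcard
    _ ≤ (1 + 1 / 20000) * l * ((1102 / 10000) / Real.log N)
        + 1 / 20000 * l / Real.log N := add_le_add hb1' hr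
    _ = ((1 + 1 / 20000) * (1102 / 10000) + 1 / 20000) * (l / Real.log N) := by ring
    _ ≤ (1103 / 10000) * (l / Real.log N) := mul_le_mul_of_nonneg_right (by norm_num) hlL
    _ = (1103 / 10000) * l / Real.log N := by ring

open Classical in
theorem cnt_three (K : ℕ) : ∃ N0 : ℕ, ∀ N : ℕ, N0 ≤ N → ∀ z z1 x l : ℕ, (N : ℝ) ^ (111 / 500 : ℝ) ≤ z →
    (N : ℝ) ^ (3053 / 10000 : ℝ) ≤ z1 → (z1 : ℝ) ≤ (N : ℝ) ^ (1527 / 5000 : ℝ) → N ≤ 8 * x → x ≤ 8 * N →
    (x : ℝ) / Real.log N ^ K ≤ l → l ≤ x →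
      (((Ioc x (x + l)).filter (fun m => ¬ m.Prime ∧ rou z m ∧ 3 ≤ omz z z1 m)).card : ℝ) ≤ (41 / 10000) * l / Real.log N := by
  obtain ⟨N1, hN1⟩ := cov K (1 / 20000) (1 / 20) (by norm_num) (by norm_num)
  obtain ⟨N3, hN3⟩ := cls_three
  obtain ⟨N4, hN4⟩ := s4_le
  obtain ⟨N6, hN6⟩ := Cnt_size (9 / 10) 1 (by norm_num) (by norm_num)
  obtain ⟨N8, hN8⟩ := Cnt_log 1 1 1 (by norm_num) (by norm_num)
  refine ⟨1 + N1 + N3 + N4 + N6 + N8, fun N hN z z1 x l hz hz1 hz1' hx1 hx2 hl hlx => ?_⟩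
  have hc1 := hN1 N (by omega) x l hx1 hx2 hl hlx
  have hcls := hN3 N (by omega) z z1
  have hs1 := hN4 N (by omega) x hx1 hx2
  have hsz1 := hN6 N (by omega) x hx1
  obtain ⟨hL1, -⟩ := hN8 N (by omega)
  have hL : (0 : ℝ) < Real.log N := by linarith
  have hNpos : (0 : ℝ) < N := by
    have : 0 < N := by omega
    exact_mod_cast this
  have hl0 : (0 : ℝ) ≤ l := Nat.cast_nonneg l
  obtain ⟨P, hP⟩ : ∃ P, P = PE N (111 / 500) (3 / 10) := ⟨_, rfl⟩
  obtain ⟨A1, hA1⟩ : ∃ A1 : Finset ℕ, A1 = (Ioc x (x + l)).filter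
    (fun m => ¬ m.Prime ∧ rou z m ∧ 3 ≤ omz z z1 m) := ⟨_, rfl⟩
  rw [← hA1]
  have hb1 : (A1.card : ℝ) ≤ (1 + 1 / 20000) * l *
      ∑ p ∈ P, ∑ q ∈ P.filter (fun q => p ≤ q), ∑ r ∈ P.filter (fun r => q ≤ r ∧ p * q * r ^ 2 ≤ 16 * N),
        1 / ((p : ℝ) * q * r * Real.log ((x : ℝ) / (p * q * r))) := by
    have h := hc1 ((_ : ℕ) × (_ : ℕ) × ℕ)
      (P.sigma (fun p => (P.filter (fun q => p ≤ q)).sigma
        (fun q => P.filter (fun r => q ≤ r ∧ p * q * r ^ 2 ≤ 16 * N))))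
      (fun i => i.1 * i.2.1 * i.2.2) A1
      (by rw [hA1]; exact filter_subset _ _) ?_ ?_
    · refine h.trans (le_of_eq ?_)
      rw [sum_sigma]
      congr 1
      refine sum_congr rfl fun p _ => ?_
      rw [sum_sigma]
      push_cast
      rfl
    · intro m hm
      rw [hA1, mem_filter, mem_Ioc] at hm
      obtain ⟨hmI, hmp, hmr, hmo⟩ := hm
      obtain ⟨p, hp, q, hq, r, hr, s, hs, hms⟩ := hcls m hz hz1 hz1' (by omega) (by omega) hmr hmo
      rw [← hP] at hp hq hr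
      exact ⟨⟨p, q, r⟩, mem_sigma.2 ⟨hp, mem_sigma.2 ⟨hq, hr⟩⟩, s, hs, hms⟩
    · rintro ⟨p, q, r⟩ hi
      rw [mem_sigma, mem_sigma] at hi
      obtain ⟨hp, hq, hr⟩ := hi
      simp only at hp hq hr
      rw [mem_filter] at hq hr
      have hq' := hq.1
      have hr' := hr.1
      rw [hP] at hp hq' hr'
      obtain ⟨h1, h2, h3⟩ := Cnt_PE hp
      obtain ⟨g1, g2, g3⟩ := Cnt_PE hq'
      obtain ⟨f1, f2, f3⟩ := Cnt_PE hr'
      refine ⟨Nat.mul_pos (Nat.mul_pos h1.pos g1.pos) f1.pos, hsz1 (p * q * r) ?_⟩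
      rw [one_mul]
      push_cast
      calc (p : ℝ) * q * r ≤ (N : ℝ) ^ (3 / 10 : ℝ) * (N : ℝ) ^ (3 / 10 : ℝ) * (N : ℝ) ^ (3 / 10 : ℝ) :=
            mul_le_mul (mul_le_mul h3 g3 (by positivity) (by positivity)) f3 (by positivity) (by positivity)
        _ = (N : ℝ) ^ (9 / 10 : ℝ) := by
            rw [← Real.rpow_add hNpos, ← Real.rpow_add hNpos]
            norm_num
  rw [← hP] at hs1
  have hb1' : (A1.card : ℝ) ≤ (1 + 1 / 20000) * l * ((40 / 10000) / Real.log N) :=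
    hb1.trans (mul_le_mul_of_nonneg_left hs1 (by positivity))
  have hlL : (0 : ℝ) ≤ l / Real.log N := by positivity
  calc _ ≤ (1 + 1 / 20000) * l * ((40 / 10000) / Real.log N) := hb1'
    _ = ((1 + 1 / 20000) * (40 / 10000)) * (l / Real.log N) := by ring
    _ ≤ (41 / 10000) * (l / Real.log N) := mul_le_mul_of_nonneg_right (by norm_num) hlL
    _ = (41 / 10000) * l / Real.log N := by ring

end Pool.Agent.H9.TM

end
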