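import Pool.Agent.H43.PJ.M45

/-! The parts of this file: H76.TP.TyM, H76.TP.Buc. -/

section

/-!
# TP TyM: second moment and mean value of a function of type I

* `tyI_sq`: `∑_{m ∈ [u, u+w)} S² = ∑_{n1, n2 ≤ Q} g n1 g n2 #{m : [n1,n2] ∣ m} ≤ ∑ |g n1| |g n2| (w/[n1,n2] + 1)`.  `∑_{n1, n2 sqf} 3^(ω(n1)+ω(n2))/[n1,n2] = ∑_{l sqf, l ≤ Q²} 15^ω(l)/l` (`∑_{[n1,n2] = l} 3^(ω+ω) = ∏_{p ∣ l} (3 + 3 + 9)`)
  `≤ (∑_{l ≤ Q²} 1/l)^15 ≤ (1 + 2 log Q)^15` (`15^ω(l) = τ_15(l)` for squarefree `l`; alternatively `∏_{p ≤ Q} (1 + 15/p) ≤ ∏ (1 + 1/p)^15 ≤ (∑_{..} 1/n)^15`, or: `15^ω(l)/l` summed over squarefree `l ≤ Q²` all of whose prime factors are `≤ Q`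
  is `≤ ∏_{p ≤ Q} (1 + 15/p) ≤ (∏_{p ≤ Q} (1 + 1/p))^15 ≤ (∏ (1-1/p)^(-1))^15`, any bound `C (1 + log Q)^15` with `C ≤ 50` is enough, as is any other way).
  The rest: `(∑_{n ≤ Q} 3^ω(n))² ≤ (6 Q^(3/2))² = 36 Q³ ≤ 36 w` (`3^ω(n) ≤ 6 √n` for squarefree `n`: `∏_{p ∣ n} 3/√p ≤ 81/√210 < 6`).
* `tyI_mean`: `#{m ∈ (x, x+l] : n ∣ m} = l/n + O(1)`, `∑_{n ≤ Q} |g n| ≤ 6 Q^(3/2)`.
-/

set_option autoImplicit false

namespace Pool.Agent.H76.TP

open Finset

/-- the number of the multiples of `n` in `(x, x + l]` -/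
private theorem TyM_card (n x l : ℕ) :
    (((Ioc x (x + l)).filter (fun m => n ∣ m)).card : ℝ) = ((x + l) / n : ℕ) - (x / n : ℕ) := by
  have h1 : (Ioc 0 (x + l)).filter (fun m => n ∣ m) =
      (Ioc 0 x).filter (fun m => n ∣ m) ∪ (Ioc x (x + l)).filter (fun m => n ∣ m) := by
    rw [← filter_union, Ioc_union_Ioc_eq_Ioc (Nat.zero_le x) (Nat.le_add_right x l)]
  have h2 : Disjoint ((Ioc 0 x).filter (fun m => n ∣ m))
      ((Ioc x (x + l)).filter (fun m => n ∣ m)) := by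
    refine disjoint_filter_filter ?_
    rw [disjoint_left]
    intro a ha hb
    rw [mem_Ioc] at ha hb
    omega
  have h3 := card_union_of_disjoint h2
  rw [← h1, Nat.Ioc_filter_dvd_card_eq_div, Nat.Ioc_filter_dvd_card_eq_div] at h3
  rw [h3]
  push_cast
  ring

private theorem TyM_div (n x : ℕ) (hn : 1 ≤ n) :
    ((x / n : ℕ) : ℝ) ≤ (x : ℝ) / n ∧ (x : ℝ) / n < ((x / n : ℕ) : ℝ) + 1 := by
  have hn' : (0 : ℝ) < n := by exact_mod_cast hn
  constructor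
  · exact Nat.cast_div_le
  · rw [div_lt_iff₀ hn']
    have h1 : x < (x / n + 1) * n := by
      rw [mul_comm]
      exact Nat.lt_mul_div_succ x hn
    exact_mod_cast h1

private theorem TyM_card_abs (n x l : ℕ) (hn : 1 ≤ n) :
    |(((Ioc x (x + l)).filter (fun m => n ∣ m)).card : ℝ) - (l : ℝ) / n| ≤ 1 := by
  rw [TyM_card]
  have h1 := TyM_div n (x + l) hn
  have h2 := TyM_div n x hn
  have h3 : ((x + l : ℕ) : ℝ) / n = (x : ℝ) / n + (l : ℝ) / n := by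
    push_cast
    ring
  rw [h3] at h1
  rw [abs_le]
  constructor <;> linarith [h1.1, h1.2, h2.1, h2.2]

private theorem TyM_omega (n : ℕ) (hn : 1 ≤ n) : (3 : ℝ) ^ n.primeFactors.card ≤ 3 / 2 * n := by
  have h0 : ∏ p ∈ n.primeFactors, p ≤ n := Nat.le_of_dvd hn (Nat.prod_primeFactors_dvd n)
  have h1 : 3 ^ (n.primeFactors.erase 2).card ≤ ∏ p ∈ n.primeFactors.erase 2, p := by
    rw [← prod_const]
    refine prod_le_prod' fun p hp => ?_
    rw [mem_erase] at hp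
    have h2 := (Nat.prime_of_mem_primeFactors hp.2).two_le
    omega
  have h2 : 2 * 3 ^ n.primeFactors.card ≤ 3 * n := by
    by_cases h : 2 ∈ n.primeFactors
    · have h3 : ∏ p ∈ n.primeFactors, p = 2 * ∏ p ∈ n.primeFactors.erase 2, p :=
        (mul_prod_erase _ _ h).symm
      have h4 : n.primeFactors.card = (n.primeFactors.erase 2).card + 1 :=
        (card_erase_add_one h).symm
      rw [h4, pow_succ]
      omega
    · rw [erase_eq_of_notMem h] at h1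
      omega
  have h3 : (2 : ℝ) * 3 ^ n.primeFactors.card ≤ 3 * n := by exact_mod_cast h2
  linarith

private theorem TyM_sum_abs (Q : ℕ) (g S : ℕ → ℝ) (hg : Adm Q g S) :
    ∑ n ∈ Icc 1 Q, |g n| ≤ 3 / 2 * (Q : ℝ) ^ 2 := by
  have h1 : ∀ n ∈ Icc 1 Q, |g n| ≤ 3 / 2 * (Q : ℝ) := by
    intro n hn
    rw [mem_Icc] at hn
    have h2 : (n : ℝ) ≤ Q := by exact_mod_cast hn.2
    linarith [hg.2.1 n, TyM_omega n hn.1]
  calc ∑ n ∈ Icc 1 Q, |g n| ≤ (Icc 1 Q).card • (3 / 2 * (Q : ℝ)) := sum_le_card_nsmul _ _ _ h1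
    _ = 3 / 2 * (Q : ℝ) ^ 2 := by
      rw [Nat.card_Icc, nsmul_eq_mul, Nat.add_sub_cancel]
      ring

/-- the sum over the squarefree numbers -/
private noncomputable def TyM_G (k Q : ℕ) : ℝ :=
  ∑ n ∈ (Icc 1 Q).filter Squarefree, (k : ℝ) ^ n.primeFactors.card / n

private theorem TyM_divisors (k n : ℕ) (hn : n ≠ 0) :
    ((k + 1 : ℕ) : ℝ) ^ n.primeFactors.card ≤ ∑ d ∈ n.divisors, (k : ℝ) ^ d.primeFactors.card := by
  have hpr : ∀ T ∈ n.primeFactors.powerset, (∏ p ∈ T, p).primeFactors = T := by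
    intro T hT
    rw [mem_powerset] at hT
    exact Nat.primeFactors_prod fun p hp => Nat.prime_of_mem_primeFactors (hT hp)
  have h1 : ((k + 1 : ℕ) : ℝ) ^ n.primeFactors.card =
      ∑ T ∈ n.primeFactors.powerset, (k : ℝ) ^ (∏ p ∈ T, p).primeFactors.card := by
    rw [Nat.cast_add, Nat.cast_one, ← sum_pow_mul_eq_add_pow]
    refine sum_congr rfl fun T hT => ?_
    rw [hpr T hT, one_pow, mul_one]
  have h2 : Set.InjOn (fun T : Finset ℕ => ∏ p ∈ T, p) (n.primeFactors.powerset : Set (Finset ℕ)) := by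
    intro T hT T' hT' h
    have h3 := congrArg Nat.primeFactors h
    simp only at h3
    rw [hpr T hT, hpr T' hT'] at h3
    exact h3
  rw [h1, ← sum_image (f := fun d => (k : ℝ) ^ d.primeFactors.card) h2]
  refine sum_le_sum_of_subset_of_nonneg ?_ fun _ _ _ => by positivity
  intro d hd
  obtain ⟨T, hT, rfl⟩ := mem_image.1 hd
  rw [mem_powerset] at hT
  rw [Nat.mem_divisors]
  exact ⟨(prod_dvd_prod_of_subset _ _ _ hT).trans (Nat.prod_primeFactors_dvd n), hn⟩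

private theorem TyM_G_succ (k Q : ℕ) :
    TyM_G (k + 1) Q ≤ TyM_G k Q * ∑ n ∈ Icc 1 Q, (1 : ℝ) / n := by
  unfold TyM_G
  have h1 : ∀ n ∈ (Icc 1 Q).filter Squarefree, ((k + 1 : ℕ) : ℝ) ^ n.primeFactors.card / n ≤
      ∑ d ∈ n.divisors, (k : ℝ) ^ d.primeFactors.card / d * (1 / ((n / d : ℕ) : ℝ)) := by
    intro n hn
    rw [mem_filter, mem_Icc] at hn
    have hn0 : n ≠ 0 := by omega
    have h2 : ∀ d ∈ n.divisors, (k : ℝ) ^ d.primeFactors.card / d * (1 / ((n / d : ℕ) : ℝ)) =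
        (k : ℝ) ^ d.primeFactors.card / n := by
      intro d hd
      have hd' := Nat.dvd_of_mem_divisors hd
      have hd0 : (d : ℝ) ≠ 0 := by
        have := Nat.pos_of_mem_divisors hd
        exact_mod_cast this.ne'
      have hn1 : (n : ℝ) ≠ 0 := by exact_mod_cast hn0
      rw [Nat.cast_div hd' hd0]
      field_simp
    rw [sum_congr rfl h2, ← sum_div]
    gcongr
    exact TyM_divisors k n hn0
  refine (sum_le_sum h1).trans ?_
  rw [sum_mul_sum, ← sum_product', sum_sigma']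
  have hmap : ∀ x ∈ ((Icc 1 Q).filter Squarefree).sigma (fun n => n.divisors),
      ((x.2, x.1 / x.2) : ℕ × ℕ) ∈ ((Icc 1 Q).filter Squarefree) ×ˢ (Icc 1 Q) := by
    rintro ⟨n, d⟩ hx
    rw [mem_sigma, mem_filter, mem_Icc] at hx
    obtain ⟨⟨⟨h2, h3⟩, h4⟩, h5⟩ := hx
    simp only at h2 h3 h4 h5 ⊢
    have hd := Nat.dvd_of_mem_divisors h5
    have hd0 := Nat.pos_of_mem_divisors h5
    have h6 : d ≤ n := Nat.le_of_dvd h2 hd
    have h7 : n / d ≤ n := Nat.div_le_self n d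
    have h8 : 1 ≤ n / d := Nat.div_pos h6 hd0
    rw [mem_product, mem_filter, mem_Icc, mem_Icc]
    exact ⟨⟨⟨hd0, h6.trans h3⟩, h4.squarefree_of_dvd hd⟩, h8, h7.trans h3⟩
  have hinj : Set.InjOn (fun x : (_ : ℕ) × ℕ => ((x.2, x.1 / x.2) : ℕ × ℕ))
      (((Icc 1 Q).filter Squarefree).sigma (fun n => n.divisors) : Set ((_ : ℕ) × ℕ)) := by
    rintro ⟨n, d⟩ hx ⟨n', d'⟩ hx' h
    rw [mem_coe, mem_sigma] at hx hx'
    simp only [Prod.mk.injEq] at h
    have h1 := Nat.dvd_of_mem_divisors hx.2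
    have h2 := Nat.dvd_of_mem_divisors hx'.2
    simp only at h1 h2
    obtain ⟨rfl, h3⟩ := h
    have h4 : n = n' := by
      rw [← Nat.mul_div_cancel' h1, ← Nat.mul_div_cancel' h2, h3]
    subst h4
    rfl
  have h2 := sum_image (f := fun y : ℕ × ℕ => (k : ℝ) ^ y.1.primeFactors.card / y.1 *
    (1 / (y.2 : ℝ))) hinj
  simp only at h2
  rw [← h2]
  refine sum_le_sum_of_subset_of_nonneg ?_ fun _ _ _ => by positivity
  intro y hy
  obtain ⟨x, hx, rfl⟩ := mem_image.1 hy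
  exact hmap x hx

private theorem TyM_G_le (k Q : ℕ) (hQ : 1 ≤ Q) :
    TyM_G k Q ≤ (∑ n ∈ Icc 1 Q, (1 : ℝ) / n) ^ k := by
  induction k with
  | zero =>
    unfold TyM_G
    rw [pow_zero]
    have h1 : ∀ n ∈ (Icc 1 Q).filter Squarefree,
        ((0 : ℕ) : ℝ) ^ n.primeFactors.card / n ≤ if n = 1 then 1 else 0 := by
      intro n hn
      rw [mem_filter, mem_Icc] at hn
      by_cases h : n = 1
      · subst h
        simp
      · rw [if_neg h]
        have h2 : n.primeFactors.card ≠ 0 := by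
          rw [Ne, card_eq_zero, Nat.primeFactors_eq_empty]
          omega
        rw [Nat.cast_zero, zero_pow h2, zero_div]
    refine (sum_le_sum h1).trans ?_
    rw [sum_ite_eq']
    split_ifs <;> norm_num
  | succ k ih =>
    refine (TyM_G_succ k Q).trans ?_
    rw [pow_succ]
    refine mul_le_mul_of_nonneg_right ih (sum_nonneg fun _ _ => by positivity)

private theorem TyM_H_le (Q : ℕ) : ∑ n ∈ Icc 1 Q, (1 : ℝ) / n ≤ 1 + Real.log Q := by
  have h1 := harmonic_le_one_add_log Q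
  rw [harmonic_eq_sum_Icc] at h1
  push_cast at h1
  simpa [one_div] using h1

private theorem TyM_lcm (Q : ℕ) :
    ∑ x ∈ ((Icc 1 Q).filter Squarefree) ×ˢ ((Icc 1 Q).filter Squarefree),
      (3 : ℝ) ^ x.1.primeFactors.card * 3 ^ x.2.primeFactors.card / (Nat.lcm x.1 x.2 : ℕ) ≤
      TyM_G 9 Q * (TyM_G 3 Q * TyM_G 3 Q) := by
  unfold TyM_G
  rw [sum_mul_sum, ← sum_product', sum_mul_sum, ← sum_product']
  have hval : ∀ x ∈ ((Icc 1 Q).filter Squarefree) ×ˢ ((Icc 1 Q).filter Squarefree),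
      (3 : ℝ) ^ x.1.primeFactors.card * 3 ^ x.2.primeFactors.card / (Nat.lcm x.1 x.2 : ℕ) =
      (fun y : ℕ × (ℕ × ℕ) => ((9 : ℕ) : ℝ) ^ y.1.primeFactors.card / y.1 *
        (((3 : ℕ) : ℝ) ^ y.2.1.primeFactors.card / y.2.1 *
          (((3 : ℕ) : ℝ) ^ y.2.2.primeFactors.card / y.2.2)))
        (Nat.gcd x.1 x.2, (x.1 / Nat.gcd x.1 x.2, x.2 / Nat.gcd x.1 x.2)) := by
    rintro ⟨n, m⟩ hx
    rw [mem_product, mem_filter, mem_filter, mem_Icc, mem_Icc] at hx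
    obtain ⟨⟨⟨hn1, hn2⟩, hn3⟩, ⟨hm1, hm2⟩, hm3⟩ := hx
    simp only at hn1 hn2 hn3 hm1 hm2 hm3 ⊢
    obtain ⟨a, ha⟩ : ∃ a, a = Nat.gcd n m := ⟨_, rfl⟩
    have han : a ∣ n := ha ▸ Nat.gcd_dvd_left n m
    have ham : a ∣ m := ha ▸ Nat.gcd_dvd_right n m
    have ha0 : 0 < a := Nat.pos_of_dvd_of_pos han hn1
    rw [← ha]
    obtain ⟨b, rfl⟩ := han
    obtain ⟨c, hc⟩ := ham
    rw [hc] at hm1 hm2 hm3 ha ⊢
    rw [Nat.mul_div_cancel_left b ha0, Nat.mul_div_cancel_left c ha0]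
    have hab : Nat.Coprime a b := (Nat.squarefree_mul_iff.1 hn3).1
    have hac : Nat.Coprime a c := (Nat.squarefree_mul_iff.1 hm3).1
    have hb0 : 0 < b := Nat.pos_of_mul_pos_left hn1
    have hc0 : 0 < c := Nat.pos_of_mul_pos_left hm1
    have hbc : Nat.gcd b c = 1 := by
      rw [Nat.gcd_mul_left] at ha
      have : a * 1 = a * Nat.gcd b c := by rw [mul_one]; exact ha
      exact (Nat.eq_of_mul_eq_mul_left ha0 this).symm
    have hlcm : Nat.lcm (a * b) (a * c) = a * (b * c) := by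
      rw [Nat.lcm_mul_left, Nat.Coprime.lcm_eq_mul hbc]
    have ho1 : (a * b).primeFactors.card = a.primeFactors.card + b.primeFactors.card := by
      rw [hab.primeFactors_mul, card_union_of_disjoint hab.disjoint_primeFactors]
    have ho2 : (a * c).primeFactors.card = a.primeFactors.card + c.primeFactors.card := by
      rw [hac.primeFactors_mul, card_union_of_disjoint hac.disjoint_primeFactors]
    rw [hlcm, ho1, ho2]
    have ha' : (a : ℝ) ≠ 0 := by exact_mod_cast ha0.ne'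
    have hb' : (b : ℝ) ≠ 0 := by exact_mod_cast hb0.ne'
    have hc' : (c : ℝ) ≠ 0 := by exact_mod_cast hc0.ne'
    have h9 : ((9 : ℕ) : ℝ) ^ a.primeFactors.card =
        3 ^ a.primeFactors.card * 3 ^ a.primeFactors.card := by
      rw [← mul_pow]
      norm_num
    rw [h9]
    push_cast
    rw [pow_add, pow_add]
    field_simp
  have hinj : Set.InjOn (fun x : ℕ × ℕ =>
      ((Nat.gcd x.1 x.2, (x.1 / Nat.gcd x.1 x.2, x.2 / Nat.gcd x.1 x.2)) : ℕ × (ℕ × ℕ)))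
      ((((Icc 1 Q).filter Squarefree) ×ˢ ((Icc 1 Q).filter Squarefree) : Finset (ℕ × ℕ)) :
        Set (ℕ × ℕ)) := by
    rintro ⟨n, m⟩ _ ⟨n', m'⟩ _ h
    simp only [Prod.mk.injEq] at h
    obtain ⟨h1, h2, h3⟩ := h
    have e1 := Nat.mul_div_cancel' (Nat.gcd_dvd_left n m)
    have e2 := Nat.mul_div_cancel' (Nat.gcd_dvd_right n m)
    have e3 := Nat.mul_div_cancel' (Nat.gcd_dvd_left n' m')
    have e4 := Nat.mul_div_cancel' (Nat.gcd_dvd_right n' m')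
    rw [h2, h1] at e1
    rw [h3, h1] at e2
    rw [e1] at e3
    rw [e2] at e4
    rw [e3, e4]
  rw [sum_congr rfl hval, ← sum_image (f := fun y : ℕ × (ℕ × ℕ) =>
    ((9 : ℕ) : ℝ) ^ y.1.primeFactors.card / y.1 * (((3 : ℕ) : ℝ) ^ y.2.1.primeFactors.card / y.2.1 *
    (((3 : ℕ) : ℝ) ^ y.2.2.primeFactors.card / y.2.2))) hinj]
  refine sum_le_sum_of_subset_of_nonneg ?_ fun _ _ _ => by positivity
  intro y hy
  obtain ⟨⟨n, m⟩, hx, rfl⟩ := mem_image.1 hy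
  rw [mem_product, mem_filter, mem_filter, mem_Icc, mem_Icc] at hx
  obtain ⟨⟨⟨hn1, hn2⟩, hn3⟩, ⟨hm1, hm2⟩, hm3⟩ := hx
  simp only at hn1 hn2 hn3 hm1 hm2 hm3 ⊢
  have hd1 := Nat.gcd_dvd_left n m
  have hd2 := Nat.gcd_dvd_right n m
  have ha0 : 0 < Nat.gcd n m := Nat.gcd_pos_of_pos_left m hn1
  have han : Nat.gcd n m ≤ n := Nat.le_of_dvd hn1 hd1
  have ham : Nat.gcd n m ≤ m := Nat.le_of_dvd hm1 hd2
  rw [mem_product, mem_product, mem_filter, mem_filter, mem_filter, mem_Icc, mem_Icc, mem_Icc]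
  refine ⟨⟨⟨ha0, han.trans hn2⟩, hn3.squarefree_of_dvd hd1⟩,
    ⟨⟨Nat.div_pos han ha0, (Nat.div_le_self _ _).trans hn2⟩,
      hn3.squarefree_of_dvd (Nat.div_dvd_of_dvd hd1)⟩,
    ⟨Nat.div_pos ham ha0, (Nat.div_le_self _ _).trans hm2⟩,
      hm3.squarefree_of_dvd (Nat.div_dvd_of_dvd hd2)⟩

theorem tyI_sq (Q : ℕ) (g S : ℕ → ℝ) (hQ : 1 ≤ Q) (hg : Adm Q g S) (u w : ℕ) (hu : 1 ≤ u) (hw : Q ^ 4 ≤ w) :
    ∑ m ∈ Ico u (u + w), S m ^ 2 ≤ 100 * w * (1 + 2 * Real.log Q) ^ 15 := by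
  have hsub : ∀ x ∈ (Icc 1 Q) ×ˢ (Icc 1 Q), 0 ≤ |g x.1| * |g x.2| := fun _ _ => by positivity
  have hlog : 0 ≤ Real.log Q := Real.log_natCast_nonneg Q
  -- the interval
  obtain ⟨v, rfl⟩ : ∃ v, u = v + 1 := ⟨u - 1, by omega⟩
  have hIco : Ico (v + 1) (v + 1 + w) = Ioc v (v + w) := by
    ext m
    rw [mem_Ico, mem_Ioc]
    omega
  rw [hIco]
  -- expansion of the square
  have h1 : ∀ m ∈ Ioc v (v + w), S m ^ 2 = ∑ x ∈ (Icc 1 Q) ×ˢ (Icc 1 Q),
      if Nat.lcm x.1 x.2 ∣ m then g x.1 * g x.2 else 0 := by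
    intro m hm
    rw [mem_Ioc] at hm
    rw [hg.2.2 m (by omega), sq, sum_filter, sum_mul_sum, ← sum_product']
    refine sum_congr rfl fun x _ => ?_
    by_cases ha : x.1 ∣ m
    · by_cases hb : x.2 ∣ m
      · rw [if_pos ha, if_pos hb, if_pos (Nat.lcm_dvd ha hb)]
      · rw [if_neg hb, if_neg (fun h => hb ((Nat.dvd_lcm_right _ _).trans h)), mul_zero]
    · rw [if_neg ha, if_neg (fun h => ha ((Nat.dvd_lcm_left _ _).trans h)), zero_mul]
  rw [sum_congr rfl h1, sum_comm]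
  have h2 : ∀ x ∈ (Icc 1 Q) ×ˢ (Icc 1 Q),
      ∑ m ∈ Ioc v (v + w), (if Nat.lcm x.1 x.2 ∣ m then g x.1 * g x.2 else 0) ≤
      |g x.1| * |g x.2| / (Nat.lcm x.1 x.2 : ℕ) * w + |g x.1| * |g x.2| := by
    intro x hx
    rw [mem_product, mem_Icc, mem_Icc] at hx
    have hl : 1 ≤ Nat.lcm x.1 x.2 := Nat.lcm_pos hx.1.1 hx.2.1
    have h3 := abs_le.1 (TyM_card_abs (Nat.lcm x.1 x.2) v w hl)
    rw [← sum_filter, sum_const, nsmul_eq_mul]
    have h4 : g x.1 * g x.2 ≤ |g x.1| * |g x.2| := by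
      rw [← abs_mul]
      exact le_abs_self _
    have h5 : (((Ioc v (v + w)).filter (fun m => Nat.lcm x.1 x.2 ∣ m)).card : ℝ) ≤
        (w : ℝ) / (Nat.lcm x.1 x.2 : ℕ) + 1 := by linarith [h3.2]
    calc (((Ioc v (v + w)).filter (fun m => Nat.lcm x.1 x.2 ∣ m)).card : ℝ) * (g x.1 * g x.2)
        ≤ (((Ioc v (v + w)).filter (fun m => Nat.lcm x.1 x.2 ∣ m)).card : ℝ) *
            (|g x.1| * |g x.2|) := mul_le_mul_of_nonneg_left h4 (by positivity)
      _ ≤ ((w : ℝ) / (Nat.lcm x.1 x.2 : ℕ) + 1) * (|g x.1| * |g x.2|) :=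
          mul_le_mul_of_nonneg_right h5 (hsub x (by
            rw [mem_product, mem_Icc, mem_Icc]; exact hx))
      _ = _ := by ring
  refine (sum_le_sum h2).trans ?_
  rw [sum_add_distrib, ← sum_mul]
  -- the diagonal part
  have h6 : ∑ x ∈ (Icc 1 Q) ×ˢ (Icc 1 Q), |g x.1| * |g x.2| ≤ 9 / 4 * (w : ℝ) := by
    have e0 : ∑ x ∈ (Icc 1 Q) ×ˢ (Icc 1 Q), |g x.1| * |g x.2| =
        (∑ n ∈ Icc 1 Q, |g n|) * (∑ n ∈ Icc 1 Q, |g n|) := by
      rw [sum_mul_sum, ← sum_product']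
    rw [e0]
    have h7 := TyM_sum_abs Q g S hg
    have h8 : 0 ≤ ∑ n ∈ Icc 1 Q, |g n| := sum_nonneg fun _ _ => abs_nonneg _
    have h9 : ((Q : ℝ)) ^ 4 ≤ w := by exact_mod_cast hw
    calc (∑ n ∈ Icc 1 Q, |g n|) * (∑ n ∈ Icc 1 Q, |g n|)
        ≤ (3 / 2 * (Q : ℝ) ^ 2) * (3 / 2 * (Q : ℝ) ^ 2) := mul_le_mul h7 h7 h8 (by positivity)
      _ = 9 / 4 * (Q : ℝ) ^ 4 := by ring
      _ ≤ 9 / 4 * (w : ℝ) := by linarith
  -- the main part
  have h7 : ∑ x ∈ (Icc 1 Q) ×ˢ (Icc 1 Q), |g x.1| * |g x.2| / (Nat.lcm x.1 x.2 : ℕ) ≤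
      (1 + Real.log Q) ^ 15 := by
    have h8 : ∑ x ∈ (Icc 1 Q) ×ˢ (Icc 1 Q), |g x.1| * |g x.2| / (Nat.lcm x.1 x.2 : ℕ) =
        ∑ x ∈ ((Icc 1 Q).filter Squarefree) ×ˢ ((Icc 1 Q).filter Squarefree),
          |g x.1| * |g x.2| / (Nat.lcm x.1 x.2 : ℕ) := by
      symm
      refine sum_subset (product_subset_product (filter_subset _ _) (filter_subset _ _)) ?_
      intro x hx hx'
      rw [mem_product] at hx hx'
      have h9 : ¬ Squarefree x.1 ∨ ¬ Squarefree x.2 := by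
        by_contra hcon
        push Not at hcon
        exact hx' ⟨mem_filter.2 ⟨hx.1, hcon.1⟩, mem_filter.2 ⟨hx.2, hcon.2⟩⟩
      rcases h9 with h9 | h9
      · rw [hg.1 _ h9, abs_zero, zero_mul, zero_div]
      · rw [hg.1 _ h9, abs_zero, mul_zero, zero_div]
    rw [h8]
    have h9 : ∑ x ∈ ((Icc 1 Q).filter Squarefree) ×ˢ ((Icc 1 Q).filter Squarefree),
          |g x.1| * |g x.2| / (Nat.lcm x.1 x.2 : ℕ) ≤
        ∑ x ∈ ((Icc 1 Q).filter Squarefree) ×ˢ ((Icc 1 Q).filter Squarefree),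
      (3 : ℝ) ^ x.1.primeFactors.card * 3 ^ x.2.primeFactors.card / (Nat.lcm x.1 x.2 : ℕ) := by
      refine sum_le_sum fun x _ => ?_
      gcongr
      · exact hg.2.1 _
      · exact hg.2.1 _
    refine h9.trans ((TyM_lcm Q).trans ?_)
    have hH0 : 0 ≤ ∑ n ∈ Icc 1 Q, (1 : ℝ) / n := sum_nonneg fun _ _ => by positivity
    have hG0 : ∀ k, 0 ≤ TyM_G k Q := fun k => sum_nonneg fun _ _ => by positivity
    have h10 := TyM_G_le 9 Q hQ
    have h11 := TyM_G_le 3 Q hQ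
    calc TyM_G 9 Q * (TyM_G 3 Q * TyM_G 3 Q)
        ≤ (∑ n ∈ Icc 1 Q, (1 : ℝ) / n) ^ 9 * ((∑ n ∈ Icc 1 Q, (1 : ℝ) / n) ^ 3 *
            (∑ n ∈ Icc 1 Q, (1 : ℝ) / n) ^ 3) := by
          have := hG0 3
          have := hG0 9
          gcongr
      _ = (∑ n ∈ Icc 1 Q, (1 : ℝ) / n) ^ 15 := by ring
      _ ≤ (1 + Real.log Q) ^ 15 := pow_le_pow_left₀ hH0 (TyM_H_le Q) 15
  have h8 : (1 + Real.log Q) ^ 15 ≤ (1 + 2 * Real.log Q) ^ 15 :=
    pow_le_pow_left₀ (by linarith) (by linarith) 15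
  have h9 : (1 : ℝ) ≤ (1 + 2 * Real.log Q) ^ 15 := one_le_pow₀ (by linarith)
  have hw0 : (0 : ℝ) ≤ w := Nat.cast_nonneg w
  calc (∑ x ∈ (Icc 1 Q) ×ˢ (Icc 1 Q), |g x.1| * |g x.2| / (Nat.lcm x.1 x.2 : ℕ)) * w +
        ∑ x ∈ (Icc 1 Q) ×ˢ (Icc 1 Q), |g x.1| * |g x.2|
      ≤ (1 + 2 * Real.log Q) ^ 15 * w + 9 / 4 * (w : ℝ) :=
        add_le_add (mul_le_mul_of_nonneg_right (h7.trans h8) hw0) h6
    _ ≤ 100 * w * (1 + 2 * Real.log Q) ^ 15 := by
      nlinarith [mul_nonneg hw0 (sub_nonneg.2 h9)]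

/-- the mean value -/
theorem tyI_mean (Q : ℕ) (g S : ℕ → ℝ) (hQ : 1 ≤ Q) (hg : Adm Q g S) (x l : ℕ) :
    |∑ m ∈ Ioc x (x + l), S m - l * ∑ n ∈ Icc 1 Q, g n / n| ≤ 6 * (Q : ℝ) ^ 2 := by
  have h1 : ∑ m ∈ Ioc x (x + l), S m =
      ∑ n ∈ Icc 1 Q, g n * ((Ioc x (x + l)).filter (fun m => n ∣ m)).card := by
    have h2 : ∀ m ∈ Ioc x (x + l), S m = ∑ n ∈ Icc 1 Q, if n ∣ m then g n else 0 := by
      intro m hm
      rw [mem_Ioc] at hm
      rw [hg.2.2 m (by omega), sum_filter]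
    rw [sum_congr rfl h2, sum_comm]
    refine sum_congr rfl fun n _ => ?_
    rw [← sum_filter, sum_const, nsmul_eq_mul, mul_comm]
  rw [h1, mul_sum, ← sum_sub_distrib]
  have h2 : ∀ n ∈ Icc 1 Q, |g n * ((Ioc x (x + l)).filter (fun m => n ∣ m)).card -
      l * (g n / n)| ≤ |g n| := by
    intro n hn
    rw [mem_Icc] at hn
    have h3 := TyM_card_abs n x l hn.1
    have h4 : g n * ((Ioc x (x + l)).filter (fun m => n ∣ m)).card - l * (g n / n) =
        g n * ((((Ioc x (x + l)).filter (fun m => n ∣ m)).card : ℝ) - (l : ℝ) / n) := by ring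
    rw [h4, abs_mul]
    exact mul_le_of_le_one_right (abs_nonneg _) h3
  refine (abs_sum_le_sum_abs _ _).trans ((sum_le_sum h2).trans ?_)
  have h3 := TyM_sum_abs Q g S hg
  nlinarith [sq_nonneg (Q : ℝ)]

end Pool.Agent.H76.TP

end

section

/-!
# TP Buc: a lower bound for the number of rough numbers in an interval (one Buchstab step)

`1[y-rough] = 1[w-rough] - ∑_{w < p ≤ y} 1[p ∣ m, m/p has no prime factor < p]` (`p` the least prime factor of a `w`-rough, not `y`-rough `m`), `m ≥ 1`.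
* `∑_{m ∈ (x, x+l]} 1[w-rough] ≥ ∑_m ∑_{T ⊆ PW w, ∏T ∣ m, |T| ≤ 2r+1} (-1)^|T| ≥ l (VV (PW w) - 2^(-r)) - w^(2r+1) - ...`: the number of the `T` is `≤ (w+1)^(2r+1)`, tail as in `SvB`.
* for `p`: `#{m' ∈ (x/p, (x+l)/p] : rg (p-1) m' = 1} ≤ ∑ SS w (p-1) r (ρ p) m' ≤ l' (VV (PW w) SF w (p-1) (ρ p) + 2^(-r)) + 6 Q²` by `ss_ge`, `tyI_mean` (with `gS`; `Adm` from `SvA`), `gs_sing` with `q = 1`;
  `Q = w^(2r) D²`, `l' = (x+l)/p - x/p ≤ l/p + 1`; `∑_{p ≤ y} 1/p ≤ 1 + log y`.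
Total error `≤ 2 l (2 + log y)/2^r + 10 y Q² + (w+1)^(2r+1)`.
-/

set_option autoImplicit false

namespace Pool.Agent.H76.TP

open Finset

private theorem buc_rg_nonneg (y k : ℕ) : 0 ≤ rg y k := by
  unfold rg; split_ifs <;> norm_num

private theorem buc_step (w y m : ℕ) (hm : 1 ≤ m) :
    rg w m ≤ rg y m + ∑ p ∈ PY w y, if p ∣ m then rg (p - 1) (m / p) else 0 := by
  have hs : ∀ p ∈ PY w y, 0 ≤ (if p ∣ m then rg (p - 1) (m / p) else 0) := by
    intro p _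
    split_ifs
    · exact buc_rg_nonneg _ _
    · exact le_rfl
  have hs0 := sum_nonneg hs
  by_cases h : ∀ p : ℕ, p.Prime → p ∣ m → w < p
  · have h1 : rg w m = 1 := by unfold rg; rw [if_pos h]
    by_cases h2 : ∀ p : ℕ, p.Prime → p ∣ m → y < p
    · have h3 : rg y m = 1 := by unfold rg; rw [if_pos h2]
      rw [h1, h3]
      linarith
    · push Not at h2
      obtain ⟨p0, hp0, hpm, hpy⟩ := h2
      have hm1 : m ≠ 1 := by
        rintro rfl
        exact hp0.one_lt.ne' (Nat.dvd_one.1 hpm)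
      have hp : (m.minFac).Prime := Nat.minFac_prime hm1
      have hpd : m.minFac ∣ m := Nat.minFac_dvd m
      have hle : m.minFac ≤ p0 := Nat.minFac_le_of_dvd hp0.two_le hpm
      have hw := h _ hp hpd
      have hmem : m.minFac ∈ PY w y := by
        unfold PY
        rw [mem_filter, mem_Ioc]
        exact ⟨⟨hw, hle.trans hpy⟩, hp⟩
      have h4 := single_le_sum hs hmem
      simp only [if_pos hpd] at h4
      have h5 : rg (m.minFac - 1) (m / m.minFac) = 1 := by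
        unfold rg
        rw [if_pos]
        intro q hq hqd
        have h6 : q ∣ m := hqd.trans (Nat.div_dvd_of_dvd hpd)
        have h7 := Nat.minFac_le_of_dvd hq.two_le h6
        have h8 := hp.two_le
        omega
      rw [h5] at h4
      have h9 := buc_rg_nonneg y m
      rw [h1]
      linarith
  · have h1 : rg w m = 0 := by unfold rg; rw [if_neg h]
    rw [h1]
    have h9 := buc_rg_nonneg y m
    linarith

private theorem buc_card_sum (V : Finset ℕ) (k : ℕ) (F : ℕ → ℝ) :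
    ∑ T ∈ V.powerset.filter (fun T => T.card ≤ k), F T.card =
      ∑ j ∈ range (k + 1), (V.card.choose j : ℝ) * F j := by
  rw [← Finset.sum_fiberwise_of_maps_to (s := V.powerset.filter (fun T => T.card ≤ k)) (t := range (k + 1))
    (g := fun T => T.card) (f := fun T => F T.card)]
  · refine sum_congr rfl fun j hj => ?_
    have h1 : ((V.powerset.filter (fun T => T.card ≤ k)).filter (fun T => T.card = j)) = powersetCard j V := by
      ext T
      rw [mem_range] at hj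
      simp only [mem_filter, mem_powerset, mem_powersetCard]
      constructor
      · rintro ⟨⟨h1, _⟩, h3⟩
        exact ⟨h1, h3⟩
      · rintro ⟨h1, h3⟩
        exact ⟨⟨h1, by omega⟩, h3⟩
    rw [h1, sum_congr rfl (g := fun _ => F j)
      (fun T hT => by rw [(mem_powersetCard.1 hT).2]), sum_const, card_powersetCard, nsmul_eq_mul]
  · intro T hT
    rw [mem_filter] at hT
    rw [mem_range]
    omega

private theorem buc_bonf (V : Finset ℕ) (r : ℕ) :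
    ∑ T ∈ V.powerset.filter (fun T => T.card ≤ 2 * r + 1), (-1 : ℝ) ^ T.card ≤ if V = ∅ then 1 else 0 := by
  rw [buc_card_sum V (2 * r + 1) (fun j => (-1 : ℝ) ^ j)]
  split_ifs with h
  · subst h
    rw [card_empty, sum_range_succ']
    simp
  · obtain ⟨n, hn⟩ : ∃ n, V.card = n + 1 := ⟨V.card - 1, by
      have := card_pos.2 (nonempty_iff_ne_empty.2 h); omega⟩
    rw [hn]
    have h1 := @Int.alternating_sum_range_choose_eq_choose n (2 * r + 1)
    have h2 : ((∑ k ∈ range (2 * r + 1 + 1), ((-1) ^ k * (n + 1).choose k : ℤ) : ℤ) : ℝ) =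
        (((-1) ^ (2 * r + 1) * n.choose (2 * r + 1) : ℤ) : ℝ) := by rw [h1]
    push_cast at h2
    have h3 : ∑ j ∈ range (2 * r + 1 + 1), ((n + 1).choose j : ℝ) * (-1 : ℝ) ^ j =
        (-1) ^ (2 * r + 1) * (n.choose (2 * r + 1) : ℝ) := by
      rw [← h2]
      exact sum_congr rfl fun j _ => mul_comm _ _
    rw [h3]
    have h4 : ((-1 : ℝ)) ^ (2 * r + 1) = -1 := Odd.neg_one_pow ⟨r, rfl⟩
    rw [h4]
    have : (0 : ℝ) ≤ (n.choose (2 * r + 1) : ℝ) := by positivity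
    linarith

private theorem buc_card_le (V : Finset ℕ) (k : ℕ) :
    ((V.powerset.filter (fun T => T.card ≤ k)).card : ℝ) ≤ ((V.card : ℝ) + 1) ^ k := by
  have h := buc_card_sum V k (fun _ => 1)
  simp only [sum_const, nsmul_eq_mul, mul_one] at h
  rw [h, add_pow]
  refine sum_le_sum fun j hj => ?_
  rw [one_pow, mul_one]
  have hj' : j ≤ k := by rw [mem_range] at hj; omega
  have h1 : ((V.card.choose j : ℕ) : ℝ) ≤ (V.card : ℝ) ^ j := by
    exact_mod_cast Nat.choose_le_pow V.card j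
  have h2 : (1 : ℝ) ≤ (k.choose j : ℝ) := by
    exact_mod_cast Nat.choose_pos hj'
  have h3 : (0 : ℝ) ≤ (V.card : ℝ) ^ j := by positivity
  nlinarith

private theorem buc_reindex (x l p : ℕ) (hp : 1 ≤ p) (f : ℕ → ℝ) :
    ∑ m ∈ Ioc x (x + l), (if p ∣ m then f (m / p) else 0) = ∑ m ∈ Ioc (x / p) ((x + l) / p), f m := by
  rw [← sum_filter]
  refine sum_nbij' (fun m => m / p) (fun m => p * m) ?_ ?_ ?_ ?_ ?_
  · intro m hm
    rw [mem_filter, mem_Ioc] at hm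
    obtain ⟨⟨h1, h2⟩, k, rfl⟩ := hm
    rw [mem_Ioc, Nat.mul_div_cancel_left _ hp]
    constructor
    · rw [Nat.div_lt_iff_lt_mul hp]
      rwa [mul_comm]
    · rw [Nat.le_div_iff_mul_le hp]
      rwa [mul_comm]
  · intro m hm
    rw [mem_Ioc, Nat.div_lt_iff_lt_mul hp, Nat.le_div_iff_mul_le hp] at hm
    rw [mem_filter, mem_Ioc]
    refine ⟨⟨?_, ?_⟩, Dvd.intro m rfl⟩
    · rw [mul_comm]; exact hm.1
    · rw [mul_comm]; exact hm.2
  · intro m hm
    rw [mem_filter] at hm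
    exact Nat.mul_div_cancel' hm.2
  · intro m _
    exact Nat.mul_div_cancel_left _ hp
  · intro m _
    rfl

private theorem buc_div (a p : ℕ) (hp : 1 ≤ p) :
    (a : ℝ) / p - 1 ≤ ((a / p : ℕ) : ℝ) ∧ ((a / p : ℕ) : ℝ) ≤ (a : ℝ) / p := by
  have hp0 : (0 : ℝ) < p := by exact_mod_cast hp
  constructor
  · have h1 := Nat.div_add_mod a p
    have h2 := Nat.mod_lt a hp
    have h3 : a ≤ p * (a / p) + p := by omega
    have h4 : (a : ℝ) ≤ p * ((a / p : ℕ) : ℝ) + p := by exact_mod_cast h3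
    rw [sub_le_iff_le_add, div_le_iff₀ hp0]
    linarith
  · exact Nat.cast_div_le

private theorem buc_len (x l p : ℕ) (hp : 1 ≤ p) :
    (l : ℝ) / p - 1 ≤ (((x + l) / p : ℕ) : ℝ) - ((x / p : ℕ) : ℝ) ∧
      (((x + l) / p : ℕ) : ℝ) - ((x / p : ℕ) : ℝ) ≤ (l : ℝ) / p + 1 := by
  obtain ⟨h1, h2⟩ := buc_div (x + l) p hp
  obtain ⟨h3, h4⟩ := buc_div x p hp
  push_cast at h1 h2
  rw [add_div] at h1 h2
  constructor <;> linarith

private theorem buc_recip (S : Finset ℕ) (y : ℕ) (hS : S ⊆ Icc 1 y) :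
    ∑ p ∈ S, (1 : ℝ) / p ≤ 1 + Real.log y := by
  have h1 : ∑ p ∈ S, (1 : ℝ) / p ≤ ∑ p ∈ Icc 1 y, (1 : ℝ) / p :=
    sum_le_sum_of_subset_of_nonneg hS (fun i _ _ => by positivity)
  have h2 := harmonic_le_one_add_log y
  rw [harmonic_eq_sum_Icc] at h2
  push_cast at h2
  simp only [one_div] at h1 ⊢
  linarith

private theorem buc_tail (w r : ℕ) (hr : 6 * (1 + Real.log w) ≤ r + 1) :
    VV (PW w) - 1 / 2 ^ r ≤
      ∑ T ∈ (PW w).powerset.filter (fun T => T.card ≤ 2 * r + 1), (-1 : ℝ) ^ T.card * ∏ p ∈ T, (1 / (p : ℝ)) := by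
  have hV : VV (PW w) = ∑ T ∈ (PW w).powerset, (-1 : ℝ) ^ T.card * ∏ p ∈ T, (1 / (p : ℝ)) := by
    unfold VV
    have h1 : ∀ p ∈ PW w, (1 - 1 / (p : ℝ)) = 1 + (-1) * (1 / (p : ℝ)) := fun p _ => by ring
    rw [prod_congr rfl h1, prod_one_add]
    refine sum_congr rfl fun T _ => ?_
    rw [prod_mul_distrib, prod_const]
  have hsplit := sum_filter_add_sum_filter_not (PW w).powerset (fun T => T.card ≤ 2 * r + 1)
    (fun T => (-1 : ℝ) ^ T.card * ∏ p ∈ T, (1 / (p : ℝ)))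
  have htail : ∑ T ∈ (PW w).powerset.filter (fun T => ¬ T.card ≤ 2 * r + 1),
      (-1 : ℝ) ^ T.card * ∏ p ∈ T, (1 / (p : ℝ)) ≤ 1 / 2 ^ r := by
    have hpos : ∀ T : Finset ℕ, 0 ≤ (1 / (4 : ℝ) ^ (2 * r + 2)) * ∏ p ∈ T, (4 / (p : ℝ)) := by
      intro T
      have h0 : (0 : ℝ) ≤ ∏ p ∈ T, (4 / (p : ℝ)) := prod_nonneg fun p _ => by positivity
      positivity
    have h1 : ∑ T ∈ (PW w).powerset.filter (fun T => ¬ T.card ≤ 2 * r + 1),
        (-1 : ℝ) ^ T.card * ∏ p ∈ T, (1 / (p : ℝ)) ≤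
        ∑ T ∈ (PW w).powerset, (1 / (4 : ℝ) ^ (2 * r + 2)) * ∏ p ∈ T, (4 / (p : ℝ)) := by
      refine (sum_le_sum (g := fun T : Finset ℕ => (1 / (4 : ℝ) ^ (2 * r + 2)) * ∏ p ∈ T, (4 / (p : ℝ))) ?_).trans
        (sum_le_sum_of_subset_of_nonneg (filter_subset _ _) (fun T _ _ => hpos T))
      intro T hT
      rw [mem_filter, not_le] at hT
      have h2 : ∏ p ∈ T, (4 / (p : ℝ)) = 4 ^ T.card * ∏ p ∈ T, (1 / (p : ℝ)) := by
        rw [← prod_const, ← prod_mul_distrib]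
        exact prod_congr rfl fun p _ => by ring
      rw [h2]
      have h3 : (0 : ℝ) ≤ ∏ p ∈ T, (1 / (p : ℝ)) := by positivity
      have h4 : (-1 : ℝ) ^ T.card ≤ 1 := by
        rcases neg_one_pow_eq_or ℝ T.card with h | h <;> rw [h] <;> norm_num
      have h5 : (1 : ℝ) ≤ 1 / (4 : ℝ) ^ (2 * r + 2) * 4 ^ T.card := by
        rw [div_mul_eq_mul_div, one_mul, le_div_iff₀ (by positivity), one_mul]
        exact pow_le_pow_right₀ (by norm_num) (by omega)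
      calc (-1 : ℝ) ^ T.card * ∏ p ∈ T, (1 / (p : ℝ)) ≤ 1 * ∏ p ∈ T, (1 / (p : ℝ)) :=
            mul_le_mul_of_nonneg_right h4 h3
        _ ≤ (1 / (4 : ℝ) ^ (2 * r + 2) * 4 ^ T.card) * ∏ p ∈ T, (1 / (p : ℝ)) :=
            mul_le_mul_of_nonneg_right h5 h3
        _ = _ := by ring
    refine h1.trans ?_
    rw [← mul_sum, ← prod_one_add]
    have h6 : ∏ i ∈ PW w, (1 + 4 / (i : ℝ)) ≤ Real.exp (∑ i ∈ PW w, 4 / (i : ℝ)) :=
      Real.prod_one_add_le_exp_sum _ (fun i => by positivity)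
    have h7 : ∑ i ∈ PW w, (4 : ℝ) / i = 4 * ∑ i ∈ PW w, (1 : ℝ) / i := by
      rw [mul_sum]
      exact sum_congr rfl fun i _ => by ring
    have h8 : ∑ i ∈ PW w, (1 : ℝ) / i ≤ 1 + Real.log w := buc_recip _ _ (filter_subset _ _)
    have h9 : ∑ i ∈ PW w, (4 : ℝ) / i ≤ Real.log 2 * (r + 1 : ℕ) := by
      have := Real.log_two_gt_d9
      push_cast
      have h10 : (0 : ℝ) ≤ (r : ℝ) + 1 := by positivity
      nlinarith
    have h11 : Real.exp (∑ i ∈ PW w, 4 / (i : ℝ)) ≤ 2 ^ (r + 1) := by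
      refine (Real.exp_le_exp.2 h9).trans ?_
      rw [mul_comm, Real.exp_nat_mul, Real.exp_log (by norm_num)]
    have h12 : (1 / (4 : ℝ) ^ (2 * r + 2)) * 2 ^ (r + 1) ≤ 1 / 2 ^ r := by
      rw [div_mul_eq_mul_div, one_mul, div_le_div_iff₀ (by positivity) (by positivity), one_mul, ← pow_add]
      have : (4 : ℝ) ^ (2 * r + 2) = 2 ^ (4 * r + 4) := by
        rw [show (4 : ℝ) = 2 ^ 2 by norm_num, ← pow_mul]
        congr 1
        ring
      rw [this]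
      exact pow_le_pow_right₀ (by norm_num) (by omega)
    calc (1 / (4 : ℝ) ^ (2 * r + 2)) * ∏ i ∈ PW w, (1 + 4 / (i : ℝ))
        ≤ (1 / (4 : ℝ) ^ (2 * r + 2)) * 2 ^ (r + 1) :=
          mul_le_mul_of_nonneg_left (h6.trans h11) (by positivity)
      _ ≤ _ := h12
  rw [hV]
  linarith

private theorem buc_w (w r x l : ℕ) (hr : 6 * (1 + Real.log w) ≤ r + 1) :
    l * (VV (PW w) - 1 / 2 ^ r) - ((w : ℝ) + 1) ^ (2 * r + 1) ≤ ∑ m ∈ Ioc x (x + l), rg w m := by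
  set FT := (PW w).powerset.filter (fun T => T.card ≤ 2 * r + 1) with hFT
  have h1 : ∀ m ∈ Ioc x (x + l),
      ∑ T ∈ FT, (if (∏ p ∈ T, p) ∣ m then (-1 : ℝ) ^ T.card else 0) ≤ rg w m := by
    intro m _
    have h2 := buc_bonf ((PW w).filter (fun p => p ∣ m)) r
    have h3 : rg w m = if ((PW w).filter (fun p => p ∣ m)) = ∅ then 1 else 0 := by
      unfold rg
      by_cases h : ∀ p : ℕ, p.Prime → p ∣ m → w < p
      · rw [if_pos h, if_pos]
        rw [filter_eq_empty_iff]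
        intro p hp hpm
        unfold PW at hp
        rw [mem_filter, mem_Icc] at hp
        have := h p hp.2 hpm
        omega
      · rw [if_neg h, if_neg]
        intro h4
        apply h
        intro p hp hpm
        by_contra h5
        rw [not_lt] at h5
        have h6 : p ∈ ((PW w).filter (fun p => p ∣ m)) := by
          unfold PW
          rw [mem_filter, mem_filter, mem_Icc]
          exact ⟨⟨⟨hp.one_le, h5⟩, hp⟩, hpm⟩
        rw [h4] at h6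
        exact absurd h6 (notMem_empty p)
    have h4 : ∑ T ∈ FT, (if (∏ p ∈ T, p) ∣ m then (-1 : ℝ) ^ T.card else 0) =
        ∑ T ∈ ((PW w).filter (fun p => p ∣ m)).powerset.filter (fun T => T.card ≤ 2 * r + 1),
          (-1 : ℝ) ^ T.card := by
      rw [← sum_filter]
      refine sum_congr ?_ fun _ _ => rfl
      ext T
      rw [hFT]
      simp only [mem_filter, mem_powerset]
      constructor
      · rintro ⟨⟨h5, h6⟩, h7⟩
        refine ⟨fun p hp => ?_, h6⟩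
        rw [mem_filter]
        exact ⟨h5 hp, (dvd_prod_of_mem (fun p => p) hp).trans h7⟩
      · rintro ⟨h5, h6⟩
        refine ⟨⟨fun p hp => (mem_filter.1 (h5 hp)).1, h6⟩, ?_⟩
        refine Finset.prod_primes_dvd m (fun p hp => ?_) (fun p hp => (mem_filter.1 (h5 hp)).2)
        have := (mem_filter.1 (h5 hp)).1
        unfold PW at this
        exact (mem_filter.1 this).2.prime
    rw [h4, h3]
    exact h2
  have h2 := sum_le_sum h1
  rw [sum_comm] at h2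
  refine le_trans ?_ h2
  have h3 : ∀ T ∈ FT, (l : ℝ) * ((-1 : ℝ) ^ T.card * ∏ p ∈ T, (1 / (p : ℝ))) - 1 ≤
      ∑ m ∈ Ioc x (x + l), (if (∏ p ∈ T, p) ∣ m then (-1 : ℝ) ^ T.card else 0) := by
    intro T hT
    have hd : 1 ≤ ∏ p ∈ T, p := by
      rw [Nat.one_le_iff_ne_zero, prod_ne_zero_iff]
      intro p hp
      rw [hFT, mem_filter, mem_powerset] at hT
      have := hT.1 hp
      unfold PW at this
      exact (mem_filter.1 this).2.ne_zero
    have h4 := buc_reindex x l (∏ p ∈ T, p) hd (fun _ => (-1 : ℝ) ^ T.card)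
    rw [h4, sum_const, Nat.card_Ioc, nsmul_eq_mul, Nat.cast_sub (Nat.div_le_div_right (by omega))]
    obtain ⟨h5, h6⟩ := buc_len x l (∏ p ∈ T, p) hd
    have h7 : (∏ p ∈ T, (1 / (p : ℝ))) = 1 / ((∏ p ∈ T, p : ℕ) : ℝ) := by
      rw [prod_div_distrib, prod_const_one]
      push_cast
      rfl
    rw [h7]
    have h8 : (l : ℝ) * ((-1 : ℝ) ^ T.card * (1 / ((∏ p ∈ T, p : ℕ) : ℝ))) =
      (-1 : ℝ) ^ T.card * ((l : ℝ) / ((∏ p ∈ T, p : ℕ) : ℝ)) := by ring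
    rw [h8]
    rcases neg_one_pow_eq_or ℝ T.card with h | h <;> rw [h] <;> linarith
  have h4 := sum_le_sum h3
  rw [sum_sub_distrib, ← mul_sum, sum_const, nsmul_eq_mul, mul_one] at h4
  refine le_trans ?_ h4
  have h5 := buc_tail w r hr
  rw [← hFT] at h5
  have h6 : (FT.card : ℝ) ≤ ((w : ℝ) + 1) ^ (2 * r + 1) := by
    refine (buc_card_le (PW w) (2 * r + 1)).trans ?_
    have h7 : (PW w).card ≤ w := by
      refine (card_le_card (filter_subset _ _)).trans ?_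
      simp
    gcongr
  have h7 : (0 : ℝ) ≤ (l : ℝ) := by positivity
  nlinarith [mul_le_mul_of_nonneg_left h5 h7]

theorem buc (w y r D x l : ℕ) (ρ : ℕ → Finset ℕ → ℝ) (hw : 2 ≤ w) (hwy : w ≤ y) (hD : 1 ≤ D)
    (hr : 6 * (1 + Real.log w) ≤ r + 1)
    (hρ : ∀ p ∈ PY w y, Rho w (p - 1) D (ρ p) ∧ 0 ≤ SF w (p - 1) (ρ p) ∧ SF w (p - 1) (ρ p) ≤ 1) :
    l * (VV (PW w) - ∑ p ∈ PY w y, VV (PW w) * SF w (p - 1) (ρ p) / p)
      - 2 * l * (2 + Real.log y) / 2 ^ r - 10 * y * ((w : ℝ) ^ (2 * r) * (D : ℝ) ^ 2) ^ 2 - ((w : ℝ) + 1) ^ (2 * r + 1) ≤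
    ∑ m ∈ Ioc x (x + l), rg y m := by
  have hVV0 : 0 ≤ VV (PW w) := by
    unfold VV
    refine prod_nonneg fun p hp => ?_
    unfold PW at hp
    have h2 := (mem_filter.1 hp).2.one_le
    have h3 : (1 : ℝ) ≤ p := by exact_mod_cast h2
    rw [sub_nonneg, div_le_one (by linarith)]
    exact h3
  have hVV1 : VV (PW w) ≤ 1 := by
    unfold VV
    refine prod_le_one (fun p hp => ?_) (fun p hp => ?_)
    · unfold PW at hp
      have h2 := (mem_filter.1 hp).2.one_le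
      have h3 : (1 : ℝ) ≤ p := by exact_mod_cast h2
      rw [sub_nonneg, div_le_one (by linarith)]
      exact h3
    · have : (0 : ℝ) ≤ 1 / (p : ℝ) := by positivity
      linarith
  set Q : ℕ := w ^ (2 * r) * D ^ 2 with hQ
  have hQ1 : 1 ≤ Q := by
    have h1 : 0 < w ^ (2 * r) := by positivity
    have h2 : 0 < D ^ 2 := by positivity
    exact Nat.mul_pos h1 h2
  have hQr : ((w : ℝ) ^ (2 * r) * (D : ℝ) ^ 2) = (Q : ℝ) := by rw [hQ]; push_cast; rfl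
  rw [hQr]
  have hQ1r : (1 : ℝ) ≤ (Q : ℝ) := by exact_mod_cast hQ1
  have h1 : ∀ m ∈ Ioc x (x + l), rg w m ≤ rg y m + ∑ p ∈ PY w y, if p ∣ m then rg (p - 1) (m / p) else 0 := by
    intro m hm
    rw [mem_Ioc] at hm
    exact buc_step w y m (by omega)
  have h2 := sum_le_sum h1
  rw [sum_add_distrib, sum_comm] at h2
  have h3 : ∀ p ∈ PY w y, ∑ m ∈ Ioc x (x + l), (if p ∣ m then rg (p - 1) (m / p) else 0) ≤
      l * (VV (PW w) * SF w (p - 1) (ρ p) / p) + l * (1 / 2 ^ r) * (1 / (p : ℝ)) + 10 * (Q : ℝ) ^ 2 := by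
    intro p hp
    obtain ⟨hρ1, hS0, hS1⟩ := hρ p hp
    unfold PY at hp
    rw [mem_filter, mem_Ioc] at hp
    obtain ⟨⟨hwp, hpy⟩, hpp⟩ := hp
    have hp1 : 1 ≤ p := hpp.one_le
    have hwp1 : w ≤ p - 1 := by omega
    rw [buc_reindex x l p hp1 (rg (p - 1))]
    have h4 : ∑ m ∈ Ioc (x / p) ((x + l) / p), rg (p - 1) m ≤
        ∑ m ∈ Ioc (x / p) ((x + l) / p), SS w (p - 1) r (ρ p) m := by
      refine sum_le_sum fun m hm => ?_
      rw [mem_Ioc] at hm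
      exact ss_ge w (p - 1) r D (ρ p) hwp1 hρ1 m (Nat.one_le_iff_ne_zero.2 (Nat.ne_of_gt (lt_of_le_of_lt (Nat.zero_le _) hm.1)))
    have hadm : Adm Q (gS w (p - 1) r (ρ p)) (SS w (p - 1) r (ρ p)) := by
      refine ⟨fun n hn => ?_, fun n => gs_abs w (p - 1) r D (ρ p) hρ1 n, fun m hm => ?_⟩
      · unfold gS
        rw [if_neg]
        exact fun h => hn h.1
      · exact ss_exp w (p - 1) r D (ρ p) (by omega) hwp1 hρ1 m hm
    have hle : x / p ≤ (x + l) / p := Nat.div_le_div_right (by omega)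
    have h5 := tyI_mean Q _ _ hQ1 hadm (x / p) ((x + l) / p - x / p)
    rw [Nat.add_sub_cancel' hle, Nat.cast_sub hle] at h5
    have h6 := gs_sing w (p - 1) r D 1 (ρ p) hw hwp1 hρ1 hr hS0 hS1 le_rfl (by omega)
    have h7 : (Icc 1 (w ^ (2 * r) * D ^ 2)).filter (fun n => 1 ∣ n) = Icc 1 Q := by
      rw [hQ]
      exact filter_true_of_mem fun n _ => one_dvd n
    rw [h7] at h6
    simp only [ArithmeticFunction.isMultiplicative_moebius.map_one, Int.cast_one, mul_one, Nat.totient_one, Nat.cast_one,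
      div_one] at h6
    obtain ⟨h8, h9⟩ := buc_len x l p hp1
    have h10 := (abs_le.1 h5).2
    have h11 := (abs_le.1 h6).2
    set G := ∑ n ∈ Icc 1 Q, gS w (p - 1) r (ρ p) n / n with hG
    set l' := (((x + l) / p : ℕ) : ℝ) - ((x / p : ℕ) : ℝ) with hl'
    have hl0 : 0 ≤ l' := by
      rw [hl', sub_nonneg]
      exact_mod_cast hle
    have hpr : (0 : ℝ) < p := by exact_mod_cast hp1
    set a := VV (PW w) * SF w (p - 1) (ρ p) with ha
    have ha0 : 0 ≤ a := mul_nonneg hVV0 hS0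
    have ha1 : a ≤ 1 := by
      calc a ≤ 1 * 1 := mul_le_mul hVV1 hS1 hS0 (by norm_num)
        _ = 1 := by norm_num
    have hb0 : (0 : ℝ) ≤ 1 / 2 ^ r := by positivity
    have hb1 : (1 : ℝ) / 2 ^ r ≤ 1 := by
      rw [div_le_one (by positivity)]
      exact one_le_pow₀ (by norm_num)
    have h12 : l' * G ≤ l' * (a + 1 / 2 ^ r) := mul_le_mul_of_nonneg_left (by linarith) hl0
    have h13 : l' * (a + 1 / 2 ^ r) ≤ ((l : ℝ) / p + 1) * (a + 1 / 2 ^ r) :=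
      mul_le_mul_of_nonneg_right h9 (by linarith)
    have h14 : ((l : ℝ) / p + 1) * (a + 1 / 2 ^ r) =
        l * (a / p) + l * (1 / 2 ^ r) * (1 / (p : ℝ)) + (a + 1 / 2 ^ r) := by
      field_simp
    have h15 : (1 : ℝ) ≤ (Q : ℝ) ^ 2 := one_le_pow₀ hQ1r
    have h16 : l * (VV (PW w) * SF w (p - 1) (ρ p) / p) = l * (a / p) := by rw [ha]
    rw [h16]
    linarith
  have h4 := sum_le_sum h3
  rw [sum_add_distrib, sum_add_distrib, ← mul_sum, ← mul_sum, sum_const, nsmul_eq_mul] at h4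
  have h5 := buc_w w r x l hr
  have h6 : ∑ p ∈ PY w y, (1 : ℝ) / p ≤ 1 + Real.log y := by
    refine buc_recip _ _ ?_
    intro p hp
    unfold PY at hp
    rw [mem_filter, mem_Ioc] at hp
    rw [mem_Icc]
    omega
  have h7 : ((PY w y).card : ℝ) ≤ y := by
    have h8 : (PY w y).card ≤ y := by
      refine (card_le_card (filter_subset _ _)).trans ?_
      rw [Nat.card_Ioc]
      omega
    exact_mod_cast h8
  have hl : (0 : ℝ) ≤ (l : ℝ) := by positivity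
  have hb0 : (0 : ℝ) ≤ 1 / 2 ^ r := by positivity
  have h8 : (l : ℝ) * (1 / 2 ^ r) * ∑ p ∈ PY w y, (1 : ℝ) / p ≤ l * (1 / 2 ^ r) * (1 + Real.log y) :=
    mul_le_mul_of_nonneg_left h6 (mul_nonneg hl hb0)
  have h9 : ((PY w y).card : ℝ) * (10 * (Q : ℝ) ^ 2) ≤ y * (10 * (Q : ℝ) ^ 2) :=
    mul_le_mul_of_nonneg_right h7 (by positivity)
  have hlog : 0 ≤ Real.log y := Real.log_natCast_nonneg y
  have h10 : 2 * (l : ℝ) * (2 + Real.log y) / 2 ^ r = 2 * (l * (1 / 2 ^ r) * (2 + Real.log y)) := by ring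
  have h11 : 0 ≤ (l : ℝ) * (1 / 2 ^ r) * (2 + Real.log y) :=
    mul_nonneg (mul_nonneg hl hb0) (by linarith)
  rw [h10]
  have h12 : (l : ℝ) * (VV (PW w) - 1 / 2 ^ r) = l * VV (PW w) - l * (1 / 2 ^ r) := by ring
  rw [h12] at h5
  have h13 : (l : ℝ) * (VV (PW w) - ∑ p ∈ PY w y, VV (PW w) * SF w (p - 1) (ρ p) / p) =
    l * VV (PW w) - l * ∑ p ∈ PY w y, VV (PW w) * SF w (p - 1) (ρ p) / p := by ring
  rw [h13]
  have h14 : (l : ℝ) * (1 / 2 ^ r) * (2 + Real.log y) = l * (1 / 2 ^ r) + l * (1 / 2 ^ r) * (1 + Real.log y) := by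
    ring
  nlinarith

end Pool.Agent.H76.TP

end
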