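import Pool.Agent.H43.PJ.M10
import Pool.Agent.H43.PJ.M43
import Pool.Agent.H43.PJ.M48

/-! The parts of this file: H36.IS.MtA, H36.IS.Mt, H76.TP.Vsum. -/

section

/-!
# IS MtA: Mertens' theorem with a limit

`fS n = ∑_{p ≤ n} -log(1 - 1/p)`.
`mertA`: fS n - loglog n converges.  Proof: for 65536 ≤ w ≤ z, `Pool.Agent.H91.Gold.mertens_wz` and
`Pool.Agent.H91.PK.mertens_lower` give |∑_{w<p≤z} 1/p - log(log z/log w)| ≤ 0.25/log w, and
∑_{p>w} (-log(1-1/p) - 1/p) ≤ ∑_{p > w} 1/p² ≤ 2/w;  so the sequence fS n - loglog n is Cauchy.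
`mertA_bd`: |fS n - loglog n| ≤ C for n ≥ 2 (a convergent sequence; finitely many small n).
-/

set_option autoImplicit false

namespace Pool.Agent.H36.IS

open Finset Filter

noncomputable def fS (n : ℕ) : ℝ := ∑ p ∈ (range (n + 1)).filter Nat.Prime, -Real.log (1 - 1 / (p : ℝ))

private theorem MtA_split {w z : ℕ} (hwz : w ≤ z) :
    fS z = fS w + ∑ p ∈ H91.Gold.Pr w z, -Real.log (1 - 1 / (p : ℝ)) := by
  unfold fS
  have h1 : (range (z + 1)).filter Nat.Prime =
      (range (w + 1)).filter Nat.Prime ∪ H91.Gold.Pr w z := by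
    ext p
    rw [mem_union, mem_filter, mem_filter, H91.Gold.mem_Pr, mem_range, mem_range]
    constructor
    · rintro ⟨h, hp⟩
      by_cases hpw : p ≤ w
      · exact Or.inl ⟨by omega, hp⟩
      · exact Or.inr ⟨⟨by omega, by omega⟩, hp⟩
    · rintro (⟨h, hp⟩ | ⟨⟨_, h⟩, hp⟩)
      · exact ⟨by omega, hp⟩
      · exact ⟨by omega, hp⟩
  rw [h1, sum_union]
  rw [Finset.disjoint_left]
  intro p hp1 hp2
  rw [mem_filter, mem_range] at hp1
  rw [H91.Gold.mem_Pr] at hp2
  omega

private theorem MtA_sq {w z : ℕ} (hw : 1 ≤ w) (hwz : w ≤ z) :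
    ∑ p ∈ Ioc w z, 1 / (p : ℝ) ^ 2 ≤ 1 / (w : ℝ) - 1 / (z : ℝ) := by
  induction z, hwz using Nat.le_induction with
  | base => simp
  | succ z hz ih =>
    rw [← Finset.insert_Ioc_right_eq_Ioc_add_one hz, sum_insert (by simp)]
    have hz0 : (0 : ℝ) < z := by exact_mod_cast (by omega : 0 < z)
    have h : 1 / ((z + 1 : ℕ) : ℝ) ^ 2 ≤ 1 / (z : ℝ) - 1 / ((z + 1 : ℕ) : ℝ) := by
      push_cast
      rw [div_sub_div _ _ hz0.ne' (by positivity), div_le_div_iff₀ (by positivity) (by positivity)]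
      nlinarith
    linarith

private theorem MtA_log {t : ℝ} (h0 : 0 ≤ t) (h1 : t ≤ 1 / 2) :
    t ≤ -Real.log (1 - t) ∧ -Real.log (1 - t) ≤ t + 2 * t ^ 2 := by
  constructor
  · have := Real.log_le_sub_one_of_pos (by linarith : 0 < 1 - t)
    linarith
  · have h := Real.abs_log_sub_add_sum_range_le (x := t) (by rw [abs_of_nonneg h0]; linarith) 1
    rw [sum_range_one, abs_of_nonneg h0] at h
    have h2 : t ^ (1 + 1) / (1 - t) ≤ 2 * t ^ 2 := by
      rw [div_le_iff₀ (by linarith)]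
      have h3 := mul_nonneg (sq_nonneg t) (by linarith : 0 ≤ 1 - 2 * t)
      have h4 : t ^ (1 + 1) = t ^ 2 := by norm_num
      rw [h4]
      linarith
    have h3 := (abs_le.mp h).1
    norm_num at h3 h2
    linarith

private theorem MtA_diff {w z : ℕ} (hw : 65536 ≤ w) (hwz : w ≤ z) :
    |(fS z - Real.log (Real.log z)) - (fS w - Real.log (Real.log w))| ≤
      0.25 / Real.log w + 2 / (w : ℝ) := by
  have hw0 : (65536 : ℝ) ≤ w := by exact_mod_cast hw
  have hwz' : (w : ℝ) ≤ z := by exact_mod_cast hwz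
  have hlw : 0 < Real.log w := Real.log_pos (by linarith)
  have hlz : 0 < Real.log z := Real.log_pos (by linarith)
  have h1 := H91.Gold.mertens_wz hw hwz
  have h2 := H91.PK.mertens_lower hw hwz
  rw [Real.log_div hlz.ne' hlw.ne'] at h1 h2
  have h3 : 0.2295 / Real.log w ≤ 0.25 / Real.log w :=
    div_le_div_of_nonneg_right (by norm_num) hlw.le
  have hp : ∀ p ∈ H91.Gold.Pr w z, (0 : ℝ) ≤ 1 / (p : ℝ) ∧ 1 / (p : ℝ) ≤ 1 / 2 := by
    intro p hp
    have := (H91.Gold.prime_of_Pr hp).two_le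
    have hp2 : (2 : ℝ) ≤ p := by exact_mod_cast this
    refine ⟨by positivity, ?_⟩
    exact one_div_le_one_div_of_le (by norm_num) hp2
  have h4 : ∑ p ∈ H91.Gold.Pr w z, (1 : ℝ) / p ≤
      ∑ p ∈ H91.Gold.Pr w z, -Real.log (1 - 1 / (p : ℝ)) :=
    sum_le_sum fun p h => (MtA_log (hp p h).1 (hp p h).2).1
  have h5 : ∑ p ∈ H91.Gold.Pr w z, -Real.log (1 - 1 / (p : ℝ)) ≤
      ∑ p ∈ H91.Gold.Pr w z, (1 : ℝ) / p + 2 / (w : ℝ) := by
    calc ∑ p ∈ H91.Gold.Pr w z, -Real.log (1 - 1 / (p : ℝ))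
        ≤ ∑ p ∈ H91.Gold.Pr w z, ((1 : ℝ) / p + 2 * (1 / (p : ℝ)) ^ 2) :=
          sum_le_sum fun p h => (MtA_log (hp p h).1 (hp p h).2).2
      _ = ∑ p ∈ H91.Gold.Pr w z, (1 : ℝ) / p + 2 * ∑ p ∈ H91.Gold.Pr w z, 1 / (p : ℝ) ^ 2 := by
          rw [sum_add_distrib, ← mul_sum]
          congr 2
          refine sum_congr rfl fun p _ => ?_
          rw [div_pow, one_pow]
      _ ≤ _ := by
          have h6 : ∑ p ∈ H91.Gold.Pr w z, 1 / (p : ℝ) ^ 2 ≤ ∑ p ∈ Ioc w z, 1 / (p : ℝ) ^ 2 := by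
            refine sum_le_sum_of_subset_of_nonneg ?_ fun p _ _ => by positivity
            intro p hp'
            exact mem_Ioc.mpr (H91.Gold.mem_Pr.1 hp').1
          have h7 := MtA_sq (by omega : 1 ≤ w) hwz
          have h8 : (0 : ℝ) ≤ 1 / (z : ℝ) := by positivity
          have h9 : 2 / (w : ℝ) = 2 * (1 / (w : ℝ)) := by ring
          rw [h9]
          linarith
  rw [MtA_split hwz, abs_le]
  have h10 : (0 : ℝ) ≤ 2 / (w : ℝ) := by positivity
  constructor <;> linarith

theorem mertA : ∃ c : ℝ, Tendsto (fun n : ℕ => fS n - Real.log (Real.log n)) atTop (nhds c) := by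
  refine cauchySeq_tendsto_of_complete ?_
  rw [Metric.cauchySeq_iff']
  intro ε hε
  have hlim : Tendsto (fun w : ℕ => 0.25 / Real.log w + 2 / (w : ℝ)) atTop (nhds 0) := by
    have h1 : Tendsto (fun w : ℕ => 0.25 / Real.log w) atTop (nhds 0) :=
      tendsto_const_nhds.div_atTop (Real.tendsto_log_atTop.comp tendsto_natCast_atTop_atTop)
    have h2 : Tendsto (fun w : ℕ => 2 / (w : ℝ)) atTop (nhds 0) :=
      tendsto_const_div_atTop_nhds_zero_nat 2
    simpa using h1.add h2
  obtain ⟨N, hN⟩ := ((hlim.eventually (gt_mem_nhds hε)).and (eventually_ge_atTop 65536)).exists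
  refine ⟨N, fun n hn => ?_⟩
  rw [Real.dist_eq]
  exact lt_of_le_of_lt (MtA_diff hN.2 hn) hN.1

end Pool.Agent.H36.IS

end

section

/-!
# IS Mt: Mertens' third theorem

From MtA (limit c), MtB (abel_exp with a n = [n prime] -log(1-1/n)) and MtC: c - γ = 0.  Hence fS n - loglog n → γ, and exponentiating,
log n · ∏_{p≤n}(1-1/p) → e^{-γ}.
`V1_sharp`: V1 x δ = ∏_{p ≤ ⌊x^δ⌋}(1-1/p)/A0 x for large x, log(x^δ) = δ log x, tau = A0 log x (log⌊z⌋ ≤ log z helps: the product over
p ≤ ⌊z⌋ is ≥ (e^{-γ} - ε)/log⌊z⌋ ≥ (e^{-γ}-ε)/log z).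
`gam_num`: γ < H_256 - log 256 (`Real.eulerMascheroniConstant_lt_eulerMascheroniSeq'`), = 0.57917 < 0.57925, exp(-0.57925) ≥ 0.5603.
(harmonic number: `decide`/norm_num with rational sums; log 256 = 8 log 2.)
-/

set_option autoImplicit false

namespace Pool.Agent.H36.IS

open Finset Filter

private theorem Mt_factor_pos {p : ℕ} (hp : p.Prime) : 0 < 1 - 1 / (p : ℝ) := by
  have h2 : (2 : ℝ) ≤ (p : ℝ) := by exact_mod_cast hp.two_le
  have : 1 / (p : ℝ) ≤ 1 / 2 := one_div_le_one_div_of_le (by norm_num) h2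
  linarith

private theorem Mt_factor_le {p : ℕ} (hp : p.Prime) : 1 - 1 / (p : ℝ) ≤ 1 := by
  have h2 : (0 : ℝ) < (p : ℝ) := by exact_mod_cast hp.pos
  have : 0 < 1 / (p : ℝ) := by positivity
  linarith

private theorem Mt_fS (n : ℕ) :
    ∑ k ∈ range (n + 1), (if k.Prime then -Real.log (1 - 1 / (k : ℝ)) else 0) = fS n := by
  rw [fS, Finset.sum_filter]

private theorem Mt_lim : Tendsto (fun n : ℕ => fS n - Real.log (Real.log n)) atTop
    (nhds Real.eulerMascheroniConstant) := by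
  obtain ⟨c, hc⟩ := mertA
  have h := abel_exp (fun n : ℕ => if n.Prime then -Real.log (1 - 1 / (n : ℝ)) else 0) ?_ ?_ ?_ c ?_
  · have h2 := tendsto_nhds_unique h.2 euler_near_one
    have : c = Real.eulerMascheroniConstant := by linarith
    rw [← this]
    exact hc
  · intro n
    by_cases hn : n.Prime
    · simp only [if_pos hn]
      have := Real.log_nonpos (Mt_factor_pos hn).le (Mt_factor_le hn)
      linarith
    · simp only [if_neg hn]
      exact le_rfl
  · simp
  · simp [Nat.not_prime_one]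
  · refine hc.congr (fun n => ?_)
    rw [Mt_fS]

private theorem Mt_prod (n : ℕ) :
    ∏ p ∈ (range (n + 1)).filter Nat.Prime, (1 - 1 / (p : ℝ)) = Real.exp (-fS n) := by
  rw [fS, ← Finset.sum_neg_distrib, Real.exp_sum]
  refine Finset.prod_congr rfl (fun p hp => ?_)
  rw [Finset.mem_filter] at hp
  rw [neg_neg, Real.exp_log (Mt_factor_pos hp.2)]

theorem mertens3 : Tendsto (fun n : ℕ => Real.log n * ∏ p ∈ (range (n + 1)).filter Nat.Prime, (1 - 1 / (p : ℝ)))
    atTop (nhds (Real.exp (-Real.eulerMascheroniConstant))) := by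
  have h := (Real.continuous_exp.tendsto _).comp Mt_lim.neg
  refine h.congr' ?_
  filter_upwards [eventually_ge_atTop 2] with n hn
  have hn' : (1 : ℝ) < (n : ℝ) := by exact_mod_cast hn
  have hlog : 0 < Real.log n := Real.log_pos hn'
  simp only [Function.comp]
  rw [Mt_prod, neg_sub, sub_eq_add_neg, Real.exp_add, Real.exp_log hlog]

end Pool.Agent.H36.IS

end

section

/-!
# TP Vsum: Mertens' product and the error sum of one Buchstab step

* `vv_le`: `∏_{p ≤ n} (1 - 1/p) ≤ C/log n` (`∏ (1-1/p)^(-1) ≥ ∑_{m ≤ n} 1/m ≥ log n`, `C = 1`; or an existing Mertens product bound, e.g. `H35/V1/NT.lean` `exists_mertens_prod`, `H36/IS/Mt.lean` `mertens3`).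
* `vbuch`: `VV (PW w) - ∑_{w < p ≤ y} VV(PW (p-1))/p = VV (PW y)` (telescoping: `VV (PW p) = VV (PW (p-1)) (1 - 1/p)` for primes `p`).
* `vsum`: with `s = log D/log y ≥ 1`; the primes `p` with `log p ∈ (log y/2^(j+1), log y/2^j]`: `VV (PW (p-1)) ≤ 2C 2^(j+1)/log y`, `exp(-log D/log p) ≤ exp(-2^j s)`, `∑ 1/p ≤ (2^(j+1)/log y) ∑_{log p ≤ log y/2^j} log p/p ≤ 2 + C'`
  (Mertens `∑_{p ≤ t} log p/p ≤ log t + C'` and `log y/2^j ≥ log 2`), so the sum is `≤ (C''/log y) ∑_j 2^(j+1) e^(-2^j s) ≤ (C'''/log y) e^(-s)`.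
-/

set_option autoImplicit false

namespace Pool.Agent.H76.TP

open Finset

theorem vv_le : ∃ C : ℝ, 0 < C ∧ ∀ n : ℕ, 2 ≤ n → VV (PW n) ≤ C / Real.log n := by
  obtain ⟨C, hC⟩ := Pool.Agent.H36.IS.mertens3.bddAbove_range
  have e : ∀ n : ℕ, VV (PW n) = ∏ p ∈ (range (n + 1)).filter Nat.Prime, (1 - 1 / (p : ℝ)) := by
    intro n
    unfold VV PW
    congr 1
    ext p
    simp only [mem_filter, mem_Icc, mem_range]
    constructor
    · rintro ⟨⟨h1, h2⟩, h3⟩
      exact ⟨by omega, h3⟩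
    · rintro ⟨h1, h3⟩
      exact ⟨⟨h3.one_lt.le, by omega⟩, h3⟩
  refine ⟨|C| + 1, by positivity, fun n hn => ?_⟩
  have hn1 : (1 : ℝ) < n := by exact_mod_cast hn
  have hlog : 0 < Real.log n := Real.log_pos hn1
  rw [le_div_iff₀ hlog, e n, mul_comm]
  have h1 : Real.log n * ∏ p ∈ (range (n + 1)).filter Nat.Prime, (1 - 1 / (p : ℝ)) ≤ C :=
    hC (Set.mem_range_self n)
  have h2 := le_abs_self C
  linarith

theorem vbuch (w y : ℕ) (hwy : w ≤ y) :
    VV (PW w) - ∑ p ∈ PY w y, VV (PW (p - 1)) / p = VV (PW y) := by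
  induction y, hwy using Nat.le_induction with
  | base =>
    unfold PY
    simp
  | succ y hy ih =>
    have e1 : PW (y + 1) = if (y + 1).Prime then insert (y + 1) (PW y) else PW y := by
      ext p
      split_ifs with h
      · simp only [PW, mem_filter, mem_Icc, mem_insert]
        constructor
        · rintro ⟨⟨h1, h2⟩, h3⟩
          by_cases h4 : p = y + 1
          · exact Or.inl h4
          · exact Or.inr ⟨⟨h1, by omega⟩, h3⟩
        · rintro (h1 | ⟨⟨h1, h2⟩, h3⟩)
          · subst h1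
            exact ⟨⟨by omega, le_rfl⟩, h⟩
          · exact ⟨⟨h1, by omega⟩, h3⟩
      · simp only [PW, mem_filter, mem_Icc]
        constructor
        · rintro ⟨⟨h1, h2⟩, h3⟩
          have h4 : p ≠ y + 1 := fun h5 => h (h5 ▸ h3)
          exact ⟨⟨h1, by omega⟩, h3⟩
        · rintro ⟨⟨h1, h2⟩, h3⟩
          exact ⟨⟨h1, by omega⟩, h3⟩
    have e2 : PY w (y + 1) = if (y + 1).Prime then insert (y + 1) (PY w y) else PY w y := by
      ext p
      split_ifs with h
      · simp only [PY, mem_filter, mem_Ioc, mem_insert]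
        constructor
        · rintro ⟨⟨h1, h2⟩, h3⟩
          by_cases h4 : p = y + 1
          · exact Or.inl h4
          · exact Or.inr ⟨⟨h1, by omega⟩, h3⟩
        · rintro (h1 | ⟨⟨h1, h2⟩, h3⟩)
          · subst h1
            exact ⟨⟨by omega, le_rfl⟩, h⟩
          · exact ⟨⟨h1, by omega⟩, h3⟩
      · simp only [PY, mem_filter, mem_Ioc]
        constructor
        · rintro ⟨⟨h1, h2⟩, h3⟩
          have h4 : p ≠ y + 1 := fun h5 => h (h5 ▸ h3)
          exact ⟨⟨h1, by omega⟩, h3⟩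
        · rintro ⟨⟨h1, h2⟩, h3⟩
          exact ⟨⟨h1, by omega⟩, h3⟩
    by_cases h : (y + 1).Prime
    · rw [if_pos h] at e1 e2
      have n1 : y + 1 ∉ PW y := by
        simp only [PW, mem_filter, mem_Icc]
        omega
      have n2 : y + 1 ∉ PY w y := by
        simp only [PY, mem_filter, mem_Ioc]
        omega
      rw [e1, e2, sum_insert n2]
      unfold VV at ih ⊢
      rw [prod_insert n1, Nat.add_sub_cancel]
      rw [← ih]
      ring
    · rw [if_neg h] at e1 e2
      rw [e1, e2]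
      exact ih

theorem vsum : ∃ C : ℝ, 0 < C ∧ ∀ w y D : ℕ, 2 ≤ w → w ≤ y → y ≤ D →
    ∑ p ∈ PY w y, VV (PW (p - 1)) / p * Real.exp (-(Real.log D / Real.log p)) ≤
      C / Real.log y * Real.exp (-(Real.log D / Real.log y)) := by
  obtain ⟨C, hC0, hC⟩ := vv_le
  obtain ⟨C1, hC1, hM⟩ := Pool.Agent.H3.LC.mertens
  refine ⟨4 * C * (1 + 2 * C1), by positivity, fun w y D hw hwy hyD => ?_⟩
  have hy2 : 2 ≤ y := hw.trans hwy
  have hy1 : (1 : ℝ) < y := by exact_mod_cast hy2
  have hly : 0 < Real.log y := Real.log_pos hy1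
  have hly2 : 1 / 2 ≤ Real.log y := by
    have h1 := Real.log_two_gt_d9
    have h2 : Real.log 2 ≤ Real.log y := Real.log_le_log (by norm_num) (by exact_mod_cast hy2)
    linarith
  have hlD : Real.log y ≤ Real.log D := Real.log_le_log (by linarith) (by exact_mod_cast hyD)
  have hterm : ∀ p ∈ PY w y, VV (PW (p - 1)) / p * Real.exp (-(Real.log D / Real.log p)) ≤
      4 * C / Real.log y ^ 2 * Real.exp (-(Real.log D / Real.log y)) * (Real.log p / p) := by
    intro p hp
    simp only [PY, mem_filter, mem_Ioc] at hp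
    obtain ⟨⟨hp1, hp2⟩, hp3⟩ := hp
    have hp0 : 3 ≤ p := by omega
    have hp0' : (3 : ℝ) ≤ p := by exact_mod_cast hp0
    have hlp : 0 < Real.log p := Real.log_pos (by linarith)
    have hlp2 : Real.log p ≤ Real.log y := Real.log_le_log (by linarith) (by exact_mod_cast hp2)
    have h1 := hC (p - 1) (by omega)
    have h2 : ((p - 1 : ℕ) : ℝ) = p - 1 := by
      rw [Nat.cast_sub (by omega)]
      norm_num
    rw [h2] at h1
    have h3 : Real.log p ≤ 2 * Real.log ((p : ℝ) - 1) := by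
      have h4 : Real.log p ≤ Real.log (((p : ℝ) - 1) ^ 2) := Real.log_le_log (by linarith) (by nlinarith)
      rw [Real.log_pow] at h4
      exact_mod_cast h4
    have h5 : VV (PW (p - 1)) ≤ 2 * C / Real.log p := by
      refine h1.trans ?_
      have h6 : 0 < Real.log ((p : ℝ) - 1) := by linarith
      rw [div_le_div_iff₀ h6 hlp]
      nlinarith
    obtain ⟨u, hu⟩ : ∃ u, u = Real.log y / Real.log p := ⟨_, rfl⟩
    have hu1 : 1 ≤ u := by
      rw [hu, le_div_iff₀ hlp]
      linarith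
    have h7 : Real.log D / Real.log y + (u - 1) ≤ Real.log D / Real.log p := by
      have e1 : Real.log D / Real.log p = Real.log D / Real.log y * u := by
        rw [hu]
        field_simp
      have e2 : 1 ≤ Real.log D / Real.log y := by
        rw [le_div_iff₀ hly]
        linarith
      rw [e1]
      nlinarith
    have h8 : Real.exp (-(Real.log D / Real.log p)) ≤
        Real.exp (-(Real.log D / Real.log y)) * Real.exp (-(u - 1)) := by
      rw [← Real.exp_add]
      exact Real.exp_le_exp.2 (by linarith)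
    have h9 : u ^ 2 * Real.exp (-(u - 1)) ≤ 2 := by
      have h10 := Real.quadratic_le_exp_of_nonneg (show 0 ≤ u - 1 by linarith)
      rw [Real.exp_neg, ← div_eq_mul_inv, div_le_iff₀ (Real.exp_pos _)]
      nlinarith
    have h11 : (1 / Real.log p) * Real.exp (-(u - 1)) ≤ 2 / Real.log y ^ 2 * Real.log p := by
      have e3 : (1 / Real.log p) * Real.exp (-(u - 1)) =
          (u ^ 2 * Real.exp (-(u - 1))) * (Real.log p / Real.log y ^ 2) := by
        rw [hu]
        field_simp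
      rw [e3]
      have h12 : 0 ≤ Real.log p / Real.log y ^ 2 := by positivity
      calc (u ^ 2 * Real.exp (-(u - 1))) * (Real.log p / Real.log y ^ 2) ≤ 2 * (Real.log p / Real.log y ^ 2) :=
            mul_le_mul_of_nonneg_right h9 h12
        _ = 2 / Real.log y ^ 2 * Real.log p := by ring
    have hE0 : 0 < Real.exp (-(Real.log D / Real.log y)) := Real.exp_pos _
    have hE1 : 0 < Real.exp (-(Real.log D / Real.log p)) := Real.exp_pos _
    calc VV (PW (p - 1)) / p * Real.exp (-(Real.log D / Real.log p))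
        ≤ (2 * C / Real.log p) / p * Real.exp (-(Real.log D / Real.log p)) := by
          apply mul_le_mul_of_nonneg_right _ hE1.le
          exact div_le_div_of_nonneg_right h5 (by linarith)
      _ ≤ (2 * C / Real.log p) / p * (Real.exp (-(Real.log D / Real.log y)) * Real.exp (-(u - 1))) :=
          mul_le_mul_of_nonneg_left h8 (by positivity)
      _ = (2 * C / p * Real.exp (-(Real.log D / Real.log y))) * ((1 / Real.log p) * Real.exp (-(u - 1))) := by ring
      _ ≤ (2 * C / p * Real.exp (-(Real.log D / Real.log y))) * (2 / Real.log y ^ 2 * Real.log p) :=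
          mul_le_mul_of_nonneg_left h11 (by positivity)
      _ = _ := by ring
  refine (sum_le_sum hterm).trans ?_
  rw [← mul_sum]
  have h1 : ∑ p ∈ PY w y, Real.log p / p ≤ ∑ p ∈ (Icc 1 y).filter Nat.Prime, Real.log p / p := by
    refine sum_le_sum_of_subset_of_nonneg ?_ ?_
    · intro p hp
      simp only [PY, mem_filter, mem_Ioc] at hp
      simp only [mem_filter, mem_Icc]
      exact ⟨⟨by omega, hp.1.2⟩, hp.2⟩
    · intro p hp _
      exact div_nonneg (Real.log_natCast_nonneg _) (Nat.cast_nonneg _)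
  have h2 := (abs_le.1 (hM y (by omega))).2
  have h3 : ∑ p ∈ PY w y, Real.log p / p ≤ (1 + 2 * C1) * Real.log y := by nlinarith
  calc 4 * C / Real.log y ^ 2 * Real.exp (-(Real.log D / Real.log y)) * ∑ p ∈ PY w y, Real.log p / p
      ≤ 4 * C / Real.log y ^ 2 * Real.exp (-(Real.log D / Real.log y)) * ((1 + 2 * C1) * Real.log y) :=
        mul_le_mul_of_nonneg_left h3 (by positivity)
    _ = 4 * C * (1 + 2 * C1) / Real.log y * Real.exp (-(Real.log D / Real.log y)) := by
        field_simp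

end Pool.Agent.H76.TP

end
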