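import Pool.Agent.H43.PJ.M04
import Pool.Agent.H43.PJ.M06

/-! The parts of this file: H76.VKT.SDef, H91.PK.CA, H97.VK.TailA, H76.EHB.HRe, H76.EHB.HRm, H97.VK.SDef. -/

section

/-!
# PROJECT VKT (H97/VK of helper97 with the parameter `T0.t` in place of `9/10`), Part I.b: sieved Dirichlet characters

Notation: `L = log x`, `L9 x = L^{9/10}`, `LL x = log L`, `y = Yx x = ⌊exp(L^{9/10})⌋`.  A character `χ` mod `d` is replaced by the character
`ch x χ` modulo `qm x d = d · y#` induced by it: `ch x χ n = χ(n)` if `n` has no prime factor `≤ y`, otherwise `0`.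
The tools `Lk`, `Fk` (`∑ χ(n) (log n)^k n^{-s}`, `∑ Λ(n) χ(n) (log n)^k n^{-s}`) of EHA are applied to `ch x χ`.
-/

set_option autoImplicit false

namespace Pool.Agent.H76.VKT

open Finset

/-- the parameter `t ∈ (2/3, 1)`; it replaces `9/10` in `Pool.Agent.H97.VK` -/
class T0 where
  /-- the exponent -/
  t : ℝ
  lo : 2 / 3 < t
  hi : t < 1

variable [T0]

/-- `(log x)^t` -/
noncomputable def L9 (x : ℕ) : ℝ := Real.log x ^ T0.t

/-- `log log x` -/
noncomputable def LL (x : ℕ) : ℝ := Real.log (Real.log x)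

/-- the sieving level -/
noncomputable def Yx (x : ℕ) : ℕ := ⌊Real.exp (L9 x)⌋₊

/-- the modulus `d · y#` -/
noncomputable def qm (x d : ℕ) : ℕ := d * primorial (Yx x)

/-- the character modulo `qm x d` induced by `χ` -/
noncomputable def ch (x : ℕ) {d : ℕ} (χ : DirichletCharacter ℂ d) : DirichletCharacter ℂ (qm x d) :=
  DirichletCharacter.changeLevel (Dvd.intro _ rfl) χ

theorem qm_pos (x d : ℕ) (hd : 1 ≤ d) : 1 ≤ qm x d :=
  Nat.mul_pos hd (primorial_pos _)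

theorem ch_sq (x : ℕ) {d : ℕ} (χ : DirichletCharacter ℂ d) : ch x χ ^ 2 = ch x (χ ^ 2) := by
  unfold ch
  rw [map_pow]
  rfl

theorem ch_apply (x : ℕ) {d : ℕ} (hd : 1 ≤ d) (χ : DirichletCharacter ℂ d) (n : ℕ) :
    ch x χ (n : ZMod (qm x d)) =
      if n.Coprime (primorial (Yx x)) then χ (n : ZMod d) else 0 := by
  have hq0 : qm x d ≠ 0 := by have := qm_pos x d hd; omega
  by_cases h1 : n.Coprime (qm x d)
  · have h2 : n.Coprime (primorial (Yx x)) := by
      unfold qm at h1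
      exact (Nat.coprime_mul_iff_right.1 h1).2
    rw [if_pos h2]
    unfold ch
    have h3 : IsCoprime (n : ℤ) (qm x d : ℤ) := Nat.isCoprime_iff_coprime.2 h1
    have h4 := DirichletCharacter.changeLevel_eq_cast_of_dvd' χ
      (Dvd.intro (primorial (Yx x)) rfl : d ∣ qm x d) h3
    rw [Int.cast_natCast, Int.cast_natCast] at h4
    exact h4
  · have h2 : ¬ IsUnit (n : ZMod (qm x d)) := by
      rw [ZMod.isUnit_iff_coprime]; exact h1
    rw [MulChar.map_nonunit _ h2]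
    split_ifs with h3
    · have h4 : ¬ n.Coprime d := by
        intro h5
        apply h1
        unfold qm
        exact Nat.coprime_mul_iff_right.2 ⟨h5, h3⟩
      have h5 : ¬ IsUnit (n : ZMod d) := by
        rw [ZMod.isUnit_iff_coprime]; exact h4
      rw [MulChar.map_nonunit _ h5]
    · rfl

theorem ch_norm_le (x : ℕ) {d : ℕ} (χ : DirichletCharacter ℂ d) (n : ZMod (qm x d)) : ‖ch x χ n‖ ≤ 1 :=
  DirichletCharacter.norm_le_one _ _

omit [T0] in
theorem cop_gt (y n : ℕ) (hy : 2 ≤ y) (hn : n.Coprime (primorial y)) : n = 1 ∨ y < n := by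
  by_contra hcon
  push Not at hcon
  obtain ⟨h1, h2⟩ := hcon
  have h3 : n.minFac.Prime := Nat.minFac_prime h1
  rcases Nat.eq_zero_or_pos n with h0 | h0
  · subst h0
    have h4 : 2 ∣ primorial y := Nat.prime_two.dvd_primorial_iff.2 hy
    rw [Nat.coprime_zero_left] at hn
    rw [hn] at h4
    omega
  · have h4 : n.minFac ≤ y := (Nat.minFac_le h0).trans h2
    have h5 : n.minFac ∣ primorial y := h3.dvd_primorial_iff.2 h4
    exact Nat.not_coprime_of_dvd_of_dvd h3.one_lt (Nat.minFac_dvd n) h5 hn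

theorem yx_ev : ∃ x0 : ℕ, ∀ x : ℕ, x0 ≤ x → 3 ≤ Yx x ∧ Real.log (Yx x) ≤ L9 x ∧ L9 x / 2 ≤ Real.log (Yx x) ∧
    1 ≤ LL x ∧ 1 ≤ L9 x ∧ 1 ≤ Real.log x ∧ (Yx x : ℝ) + 1 ≤ x := by
  have hlo := T0.lo
  have hhi := T0.hi
  have hev : ∀ᶠ L : ℝ in Filter.atTop, 1024 ≤ L ∧ 512 ≤ L ^ T0.t ∧ 2 ≤ L ^ (1 - T0.t) := by
    filter_upwards [Filter.eventually_ge_atTop (1024 : ℝ),
      (tendsto_rpow_atTop (show 0 < T0.t by linarith)).eventually_ge_atTop 512,
      (tendsto_rpow_atTop (show 0 < 1 - T0.t by linarith)).eventually_ge_atTop 2] with L h1 h2 h3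
    exact ⟨h1, h2, h3⟩
  obtain ⟨x1, hx1'⟩ := Filter.eventually_atTop.1
    ((Real.tendsto_log_atTop.comp tendsto_natCast_atTop_atTop).eventually hev)
  refine ⟨max x1 1, fun x hx => ?_⟩
  obtain ⟨hL1, h512', hpow2⟩ := hx1' x ((le_max_left _ _).trans hx)
  simp only [Function.comp_apply] at hL1 h512' hpow2
  have hx0 : (0:ℝ) < x := by
    have : 1 ≤ x := (le_max_right _ _).trans hx
    exact_mod_cast this
  obtain ⟨L, hL⟩ : ∃ L, L = Real.log x := ⟨_, rfl⟩
  rw [← hL] at hL1 h512' hpow2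
  have hL0 : 0 < L := by linarith
  obtain ⟨M, hM⟩ : ∃ M, M = L9 x := ⟨_, rfl⟩
  have hM1 : M = L ^ T0.t := by rw [hM, hL]; rfl
  have h512 : (512:ℝ) ≤ M := by rw [hM1]; exact h512'
  have hML : M ≤ L / 2 := by
    have h2 : M * L ^ (1 - T0.t) = L := by
      rw [hM1, ← Real.rpow_add hL0]
      rw [show T0.t + (1 - T0.t) = 1 by ring, Real.rpow_one]
    have h3 : 0 ≤ M := by linarith
    nlinarith
  have hexpM : 512 ≤ Real.exp (M / 2) := by
    have := Real.add_one_le_exp (M / 2)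
    have h4 : Real.exp (M / 4) ^ 2 = Real.exp (M / 2) := by
      rw [← Real.exp_nat_mul]; congr 1; push_cast; ring
    have h5 := Real.add_one_le_exp (M / 4)
    nlinarith
  have hsq : Real.exp M = Real.exp (M / 2) * Real.exp (M / 2) := by
    rw [← Real.exp_add]; congr 1; ring
  have hY1 : (Yx x : ℝ) ≤ Real.exp M := by
    unfold Yx; rw [← hM]; exact Nat.floor_le (Real.exp_pos _).le
  have hY2 : Real.exp (M / 2) + 3 ≤ (Yx x : ℝ) := by
    have h1 : Real.exp M < (Yx x : ℝ) + 1 := by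
      unfold Yx; rw [← hM]; exact Nat.lt_floor_add_one _
    nlinarith
  have hY0 : (0:ℝ) < Yx x := by linarith
  refine ⟨?_, ?_, ?_, ?_, ?_, ?_, ?_⟩
  · have h1 : (3:ℝ) ≤ (Yx x : ℝ) := by linarith
    exact_mod_cast h1
  · rw [← hM, Real.log_le_iff_le_exp hY0]; exact hY1
  · rw [← hM, Real.le_log_iff_exp_le hY0]; linarith
  · unfold LL
    rw [← hL, Real.le_log_iff_exp_le hL0]
    have := Real.exp_one_lt_d9
    linarith
  · rw [← hM]; linarith
  · rw [← hL]; linarith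
  · have h1 : Real.exp L = x := by rw [hL, Real.exp_log hx0]
    have h2 : Real.exp M ≤ Real.exp (L / 2) := Real.exp_le_exp.2 hML
    have h3 : Real.exp L = Real.exp (L / 2) * Real.exp (L / 2) := by
      rw [← Real.exp_add]; congr 1; ring
    have h4 : 512 ≤ Real.exp (L / 2) := by
      have := Real.add_one_le_exp (L / 2)
      linarith
    rw [← h1]
    nlinarith

end Pool.Agent.H76.VKT

end

section

/-!
PK CA: Taylor coefficients of L-functions to the right of 1 and their trivial bounds.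

aL f j s = ∑_n f(n) (log n)^j/j! n^{-s},  fL f j s = ∑_n f(n) Λ(n) (log n)^j/j! n^{-s}.

`aL_bound`: let |f| ≤ 1, all partial sums over [1,B] bounded by r (r ≥ 1 real), 1 < σ ≤ 2, y = r(|t|+2),
  A = log y + 5.  Then |aL f j (σ+it)| ≤ A^(j+1).
Proof. n ≤ y: ∑_{n≤y} (log n)^j/n ≤ (log y)^j (log y + 1).
 n > y: partial sums of f over (⌊y⌋, u] are ≤ 2r; Abel summation against h(u) = (log u)^j u^{-s}:
   |∑_{n>y}| ≤ 2r (sup_{u≥y} |h| + ∫_y^∞ |h'|) (or directly with h(n)-h(n+1) = -∫_n^{n+1} h'), |h'(u)| ≤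
   (j (log u)^{j-1} + |s| (log u)^j)/u².   I_j := ∫_y^∞ (log u)^j u^{-2} du = (1/y) ∑_{i≤j} (j!/i!) (log y)^i
   ≤ (j!/y)(1+log y)^j, and sup_{u≥y} (log u)^j/u ≤ I_j.  Total ≤ 2r (j!/y)(1+log y)^j (2+|s|) ≤ 4 j! (1+log y)^j as
   |s| ≤ 2+|t|.
 Sum: j! |aL| ≤ (log y)^j(log y+1) + 4 j!(1+log y)^j ≤ j! (1+log y)^j (log y + 5).
 (An alternative to integrals: the sequence h(n) for n > y and induction; free choice.)
`aL_bound_principal`: if instead |∑_{n≤B} f(n) - κ B| ≤ r with 0 ≤ κ ≤ 1, then |aL f 0 s| ≤ log y + 8 + 1/|s-1|.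
 (tail: ∑_{n>Y} n^{-s} = Y^{1-s}/(s-1) + O((|s|+1)/Y) with Y = ⌊y⌋ or ⌈y⌉, plus the part with f - κ bounded as before.)
`char_principal`: for the principal character mod r: |∑_{n≤B} 1_{(n,r)=1} - (φ(r)/r) B| ≤ r.
-/

set_option autoImplicit false

namespace Pool.Agent.H91.PK

open Finset

/-! ### auxiliary functions -/

/-- zeta at 1+x -/
theorem zeta_bound {x : ℝ} (hx : 0 < x) : ∑' n : ℕ, 1 / ((n : ℝ) + 1) ^ (1 + x) ≤ 1 + 1 / x := by
  have key : ∀ a : ℝ, 1 ≤ a → 1 / (a + 1) ^ (1 + x) ≤ 1 / x * (a ^ (-x) - (a + 1) ^ (-x)) := by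
    intro a ha
    have ha0 : 0 < a := by linarith
    have h1 : 1 + x / (a + 1) ≤ ((a + 1) / a) ^ x := by
      rw [Real.rpow_def_of_pos (by positivity)]
      have h2 := Real.add_one_le_exp (Real.log ((a + 1) / a) * x)
      have h3 := Real.one_sub_inv_le_log_of_pos (show 0 < (a + 1) / a by positivity)
      have h4 : 1 - ((a + 1) / a)⁻¹ = 1 / (a + 1) := by
        field_simp; ring
      rw [h4] at h3
      have h5 : x / (a + 1) ≤ Real.log ((a + 1) / a) * x := by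
        calc x / (a + 1) = 1 / (a + 1) * x := by ring
          _ ≤ _ := mul_le_mul_of_nonneg_right h3 hx.le
      linarith
    have h2 : ((a + 1) / a) ^ x = (a + 1) ^ x * a ^ (-x) := by
      rw [Real.div_rpow (by positivity) ha0.le, Real.rpow_neg ha0.le]; rfl
    have h3 : (a + 1) ^ (-x) * ((a + 1) ^ x * a ^ (-x)) = a ^ (-x) := by
      rw [← mul_assoc, ← Real.rpow_add (by positivity)]; simp
    have h4 : 0 < (a + 1) ^ (-x) := Real.rpow_pos_of_pos (by positivity) _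
    have h5 := mul_le_mul_of_nonneg_left h1 h4.le
    rw [h2, h3] at h5
    have h6 : 1 / (a + 1) ^ (1 + x) = (a + 1) ^ (-x) / (a + 1) := by
      rw [Real.rpow_add (by positivity), Real.rpow_one, Real.rpow_neg (by positivity)]
      field_simp
    rw [h6]
    have h7 : (a + 1) ^ (-x) / (a + 1) = 1 / x * ((a + 1) ^ (-x) * (1 + x / (a + 1)) - (a + 1) ^ (-x)) := by
      field_simp
      ring
    rw [h7]
    apply mul_le_mul_of_nonneg_left _ (by positivity)
    linarith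
  have part : ∀ M : ℕ, ∑ n ∈ range (M + 1), 1 / ((n : ℝ) + 1) ^ (1 + x)
      ≤ 1 + 1 / x * (1 - ((M : ℝ) + 1) ^ (-x)) := by
    intro M
    induction M with
    | zero => simp
    | succ M ih =>
      rw [Finset.sum_range_succ]
      have h := key ((M : ℝ) + 1) (by linarith [Nat.cast_nonneg (α := ℝ) M])
      push_cast
      have : 1 + 1 / x * (1 - ((M : ℝ) + 1 + 1) ^ (-x)) = 1 + 1 / x * (1 - ((M : ℝ) + 1) ^ (-x))
        + 1 / x * (((M : ℝ) + 1) ^ (-x) - ((M : ℝ) + 1 + 1) ^ (-x)) := by ring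
      rw [this]
      exact add_le_add ih h
  apply Real.tsum_le_of_sum_range_le
  · intro n; positivity
  · intro n
    cases n with
    | zero => simp; positivity
    | succ M =>
      refine (part M).trans ?_
      have h1 : 0 < ((M : ℝ) + 1) ^ (-x) := by positivity
      have h2 : 1 / x * (1 - ((M : ℝ) + 1) ^ (-x)) ≤ 1 / x * 1 :=
        mul_le_mul_of_nonneg_left (by linarith) (by positivity)
      linarith

end Pool.Agent.H91.PK

end

section

/-!
# VK TailA: tails of Dirichlet series by Abel summation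

Proof.  `g(u) = (log u)^k u^{-σ}`, `S(u) = ∑_{n ≤ u} f n`.
`∑_{N<n≤M} f(n) g(n) = S(M) g(M) - S(N) g(N+1) + ∑_{N<n<M} S(n) (g(n) - g(n+1))` (for `M > N`), and `|g(n) - g(n+1)| ≤ sup |g'|` on `[n,n+1]`,
`|g'(u)| ≤ (k (log u)^{k-1} + σ (log u)^k) u^{-σ-1} ≤ (k+2) (1 + log(n+1))^k n^{-σ-1}`.  So everything is at most
`3 (k+2) δ (sup_n n g(n) + ∑_n (1 + log(n+1))^k n^{-σ})`.  With `a = (σ-1)/2 ≤ 1/2`: `w^k ≤ k! a^{-k} e^{a w}` for `w = 1 + log(n+1)`, so
`(1+log(n+1))^k ≤ 4 k! (2/(σ-1))^k n^{(σ-1)/2}` and `∑_n n^{-1-(σ-1)/2} ≤ 1 + 2/(σ-1) ≤ 3/(σ-1)`.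
-/

set_option autoImplicit false

namespace Pool.Agent.H97.VK

open Finset

/-- the weight -/
private noncomputable def tailA_g (k : ℕ) (σ : ℝ) (n : ℕ) : ℝ := Real.log n ^ k * (n : ℝ) ^ (-σ)

private lemma tailA_diff (k : ℕ) (σ : ℝ) (h1 : 1 < σ) (h2 : σ ≤ 2) (n : ℕ) (hn : 1 ≤ n) :
    |tailA_g k σ n - tailA_g k σ (n + 1)| ≤
      (k + 2) * ((1 + Real.log (n + 1)) ^ k * (n : ℝ) ^ (-σ - 1)) := by
  have hn0 : (0 : ℝ) < n := by exact_mod_cast (show 0 < n by omega)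
  have hn1 : (1 : ℝ) ≤ n := by exact_mod_cast hn
  have hder : ∀ u ∈ Set.Icc (n : ℝ) (n + 1), HasDerivWithinAt
      (fun u : ℝ => Real.log u ^ k * u ^ (-σ))
      ((k : ℝ) * Real.log u ^ (k - 1) * u⁻¹ * u ^ (-σ) + Real.log u ^ k * (-σ * u ^ (-σ - 1)))
      (Set.Icc (n : ℝ) (n + 1)) u := by
    intro u hu
    have hu0 : u ≠ 0 := by
      have := hu.1
      linarith
    exact (((Real.hasDerivAt_log hu0).pow k).mul
      (Real.hasDerivAt_rpow_const (Or.inl hu0))).hasDerivWithinAt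
  have hbd : ∀ u ∈ Set.Icc (n : ℝ) (n + 1),
      ‖(k : ℝ) * Real.log u ^ (k - 1) * u⁻¹ * u ^ (-σ) +
        Real.log u ^ k * (-σ * u ^ (-σ - 1))‖ ≤
      (k + 2) * ((1 + Real.log (n + 1)) ^ k * (n : ℝ) ^ (-σ - 1)) := by
    intro u hu
    have hu0 : 0 < u := lt_of_lt_of_le hn0 hu.1
    have hu1 : 1 ≤ u := hn1.trans hu.1
    have hlu : 0 ≤ Real.log u := Real.log_nonneg hu1
    have hlw : Real.log u ≤ 1 + Real.log (n + 1) := by
      have := Real.log_le_log hu0 hu.2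
      linarith
    have hw1 : 1 ≤ 1 + Real.log ((n : ℝ) + 1) := by
      have : 0 ≤ Real.log ((n : ℝ) + 1) := Real.log_nonneg (by linarith)
      linarith
    have hinv : u⁻¹ * u ^ (-σ) = u ^ (-σ - 1) := by
      rw [← Real.rpow_neg_one u, ← Real.rpow_add hu0]
      congr 1
      ring
    have hun : u ^ (-σ - 1) ≤ (n : ℝ) ^ (-σ - 1) :=
      Real.rpow_le_rpow_of_nonpos hn0 hu.1 (by linarith)
    have hun0 : 0 ≤ u ^ (-σ - 1) := by positivity
    have hp1 : Real.log u ^ (k - 1) ≤ (1 + Real.log ((n : ℝ) + 1)) ^ k :=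
      (pow_le_pow_left₀ hlu hlw _).trans (pow_le_pow_right₀ hw1 (Nat.sub_le k 1))
    have hp2 : Real.log u ^ k ≤ (1 + Real.log ((n : ℝ) + 1)) ^ k := pow_le_pow_left₀ hlu hlw _
    have hlp1 : 0 ≤ Real.log u ^ (k - 1) := pow_nonneg hlu _
    have hlp2 : 0 ≤ Real.log u ^ k := pow_nonneg hlu _
    have hk : (0 : ℝ) ≤ k := Nat.cast_nonneg k
    have hm1 : Real.log u ^ (k - 1) * u ^ (-σ - 1) ≤
        (1 + Real.log ((n : ℝ) + 1)) ^ k * (n : ℝ) ^ (-σ - 1) :=
      mul_le_mul hp1 hun hun0 (by positivity)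
    have hm2 : Real.log u ^ k * u ^ (-σ - 1) ≤
        (1 + Real.log ((n : ℝ) + 1)) ^ k * (n : ℝ) ^ (-σ - 1) :=
      mul_le_mul hp2 hun hun0 (by positivity)
    have e1 : (k : ℝ) * Real.log u ^ (k - 1) * u⁻¹ * u ^ (-σ) +
        Real.log u ^ k * (-σ * u ^ (-σ - 1)) =
        k * (Real.log u ^ (k - 1) * u ^ (-σ - 1)) - σ * (Real.log u ^ k * u ^ (-σ - 1)) := by
      rw [← hinv]
      ring
    rw [e1, Real.norm_eq_abs, abs_le]
    have hA := mul_le_mul_of_nonneg_left hm1 hk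
    have hB : σ * (Real.log u ^ k * u ^ (-σ - 1)) ≤
        2 * ((1 + Real.log ((n : ℝ) + 1)) ^ k * (n : ℝ) ^ (-σ - 1)) :=
      mul_le_mul h2 hm2 (by positivity) (by norm_num)
    have hA0 : 0 ≤ (k : ℝ) * (Real.log u ^ (k - 1) * u ^ (-σ - 1)) := by positivity
    have hB0 : 0 ≤ σ * (Real.log u ^ k * u ^ (-σ - 1)) := by positivity
    have hX : 0 ≤ (1 + Real.log ((n : ℝ) + 1)) ^ k * (n : ℝ) ^ (-σ - 1) := by positivity
    have hkX : 0 ≤ (k : ℝ) * ((1 + Real.log ((n : ℝ) + 1)) ^ k * (n : ℝ) ^ (-σ - 1)) := by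
      positivity
    constructor
    · linarith
    · linarith
  have h := Convex.norm_image_sub_le_of_norm_hasDerivWithin_le hder hbd (convex_Icc _ _)
    (Set.right_mem_Icc.2 (by linarith)) (Set.left_mem_Icc.2 (by linarith))
  have e2 : ‖(n : ℝ) - ((n : ℝ) + 1)‖ = 1 := by
    rw [show (n : ℝ) - ((n : ℝ) + 1) = -1 by ring]
    simp
  rw [e2, mul_one, Real.norm_eq_abs] at h
  unfold tailA_g
  push_cast
  exact h

private lemma tailA_sum (a : ℝ) (ha : 0 < a) (ha1 : a ≤ 1) (M : ℕ) :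
    ∑ n ∈ Icc 1 M, (n : ℝ) ^ (-1 - a) ≤ 1 + 1 / a := by
  have key : ∀ n : ℕ, 1 ≤ n →
      a * ((n + 1 : ℕ) : ℝ) ^ (-1 - a) ≤ (n : ℝ) ^ (-a) - ((n + 1 : ℕ) : ℝ) ^ (-a) := by
    intro n hn
    have hn0 : (0 : ℝ) < n := by exact_mod_cast (show 0 < n by omega)
    have hm0 : (0 : ℝ) < (n : ℝ) + 1 := by linarith
    push_cast
    set m : ℝ := (n : ℝ) + 1 with hm
    have h1 : (n / m) ^ a ≤ 1 - a / m := by
      have h := rpow_one_add_le_one_add_mul_self (s := -(1 / m)) (by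
        rw [neg_le_neg_iff, div_le_one hm0]
        linarith) ha.le ha1
      have e1 : 1 + -(1 / m) = n / m := by
        field_simp
        rw [hm]
        ring
      rw [e1] at h
      refine h.trans (le_of_eq ?_)
      ring
    have hnm : 0 < (n : ℝ) / m := by positivity
    have hx0 : 0 < ((n : ℝ) / m) ^ a := Real.rpow_pos_of_pos hnm a
    have ham : 0 ≤ a / m := by positivity
    have h2 : 1 + a / m ≤ (n / m) ^ (-a) := by
      rw [Real.rpow_neg hnm.le, ← one_div, le_div_iff₀ hx0]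
      nlinarith
    have h3 : (n : ℝ) ^ (-a) = (n / m) ^ (-a) * m ^ (-a) := by
      rw [← Real.mul_rpow hnm.le hm0.le]
      congr 1
      field_simp
    have h4 : m ^ (-1 - a) = m ^ (-a) / m := by
      rw [show (-1 - a) = -a - 1 by ring, Real.rpow_sub hm0, Real.rpow_one]
    have h5 : 0 ≤ m ^ (-a) := by positivity
    rw [h3, h4]
    have h6 := mul_le_mul_of_nonneg_right h2 h5
    have e3 : a * (m ^ (-a) / m) = a / m * m ^ (-a) := by ring
    rw [e3]
    linarith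
  have hind : ∀ M : ℕ, 1 ≤ M → a * ∑ n ∈ Icc 1 M, (n : ℝ) ^ (-1 - a) ≤
      a + 1 - (M : ℝ) ^ (-a) := by
    intro M hM
    induction M, hM using Nat.le_induction with
    | base => simp
    | succ M hM ih =>
      rw [sum_Icc_succ_top (by omega)]
      have := key M hM
      rw [mul_add]
      linarith
  rcases Nat.eq_zero_or_pos M with rfl | hM
  · simp
    positivity
  · have h := hind M hM
    have h0 : 0 ≤ (M : ℝ) ^ (-a) := by positivity
    have e : 1 + 1 / a = (a + 1) / a := by field_simp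
    rw [e, le_div_iff₀ ha, mul_comm]
    linarith

private lemma tailA_pow (k : ℕ) (a w : ℝ) (ha : 0 < a) (hw : 0 ≤ w) :
    w ^ k ≤ (k.factorial : ℝ) * (1 / a) ^ k * Real.exp (a * w) := by
  have h := Real.pow_div_factorial_le_exp (a * w) (by positivity) k
  have hf : (0 : ℝ) < k.factorial := by exact_mod_cast Nat.factorial_pos k
  rw [div_le_iff₀ hf, mul_pow] at h
  have e : w ^ k = (1 / a) ^ k * (a ^ k * w ^ k) := by
    rw [← mul_assoc, ← mul_pow, one_div, inv_mul_cancel₀ ha.ne', one_pow, one_mul]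
  rw [e]
  calc (1 / a) ^ k * (a ^ k * w ^ k) ≤ (1 / a) ^ k * (Real.exp (a * w) * k.factorial) :=
        mul_le_mul_of_nonneg_left h (by positivity)
    _ = _ := by ring

private lemma tailA_abel (f : ℕ → ℂ) (g : ℕ → ℝ) (N M : ℕ) (hM : N ≤ M) :
    ∑ n ∈ Ioc N M, f n * (g n : ℂ) = (∑ n ∈ Ioc N M, f n) * (g M : ℂ) +
      ∑ n ∈ Ico N M, (∑ j ∈ Ioc N n, f j) * ((g n - g (n + 1) : ℝ) : ℂ) := by
  induction M, hM using Nat.le_induction with
  | base => simp
  | succ M hM ih =>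
    rw [sum_Ioc_succ_top (by omega), sum_Ico_succ_top (by omega), sum_Ioc_succ_top (by omega), ih]
    push_cast
    ring

theorem tail_abel (k : ℕ) : ∃ C : ℝ, 1 ≤ C ∧ ∀ (f : ℕ → ℂ) (δ σ : ℝ) (N : ℕ), 0 ≤ δ → 1 < σ → σ ≤ 2 → 1 ≤ N →
    (∀ u : ℕ, N ≤ u → ‖∑ n ∈ Icc 1 u, f n‖ ≤ δ * u) → ∀ M : ℕ, N ≤ M →
    ‖∑ n ∈ Ioc N M, f n * ((Real.log n ^ k * (n : ℝ) ^ (-σ) : ℝ) : ℂ)‖ ≤ C * δ * (1 / (σ - 1)) ^ (k + 1) := by
  have hf1 : (1 : ℝ) ≤ k.factorial := by exact_mod_cast Nat.factorial_pos k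
  have hk0 : (0 : ℝ) ≤ k := Nat.cast_nonneg k
  have h2k : (1 : ℝ) ≤ 2 ^ k := one_le_pow₀ (by norm_num)
  refine ⟨(k.factorial : ℝ) * 2 ^ k * (2 + 24 * (k + 2)), ?_, ?_⟩
  · have h1 : (1 : ℝ) ≤ k.factorial * 2 ^ k := one_le_mul_of_one_le_of_one_le hf1 h2k
    nlinarith
  intro f δ σ N hδ h1 h2 hN hS M hM
  set a : ℝ := (σ - 1) / 2 with ha
  have ha0 : 0 < a := by rw [ha]; linarith
  have ha1 : a ≤ 1 / 2 := by rw [ha]; linarith
  set X : ℝ := 1 / (σ - 1) with hX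
  have hX1 : 1 ≤ X := by
    rw [hX, le_div_iff₀ (by linarith)]
    linarith
  have hinva : 1 / a = 2 * X := by
    rw [ha, hX]
    field_simp
  have hinvak : (1 / a) ^ k = 2 ^ k * X ^ k := by rw [hinva, mul_pow]
  have hfg : ∀ n : ℕ, ((Real.log n ^ k * (n : ℝ) ^ (-σ) : ℝ) : ℂ) = (tailA_g k σ n : ℂ) :=
    fun n => rfl
  simp only [hfg]
  rw [tailA_abel f (tailA_g k σ) N M hM]
  have hT : ∀ n : ℕ, N ≤ n → ‖∑ j ∈ Ioc N n, f j‖ ≤ 2 * δ * n := by
    intro n hn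
    have e : ∑ j ∈ Ioc N n, f j = ∑ j ∈ Icc 1 n, f j - ∑ j ∈ Icc 1 N, f j := by
      have h3 : Icc 1 n = Icc 1 N ∪ Ioc N n := by
        ext j
        simp only [mem_Icc, mem_union, mem_Ioc]
        omega
      have h4 : Disjoint (Icc 1 N) (Ioc N n) := by
        rw [disjoint_left]
        intro j hj hj'
        rw [mem_Icc] at hj
        rw [mem_Ioc] at hj'
        omega
      rw [h3, sum_union h4]
      ring
    rw [e]
    have h5 := norm_sub_le (∑ j ∈ Icc 1 n, f j) (∑ j ∈ Icc 1 N, f j)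
    have h6 := hS n hn
    have h7 := hS N le_rfl
    have h8 : δ * N ≤ δ * n := mul_le_mul_of_nonneg_left (by exact_mod_cast hn) hδ
    linarith
  have hgM : (M : ℝ) * |tailA_g k σ M| ≤ k.factorial * (2 ^ k * X ^ k) := by
    have hM1 : 1 ≤ M := hN.trans hM
    have hM0 : (0 : ℝ) < M := by exact_mod_cast (show 0 < M by omega)
    have hM1' : (1 : ℝ) ≤ M := by exact_mod_cast hM1
    have hlM : 0 ≤ Real.log M := Real.log_nonneg hM1'
    have h3 := tailA_pow k a (Real.log M) ha0 hlM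
    have e1 : Real.exp (a * Real.log M) = (M : ℝ) ^ a := by
      rw [Real.rpow_def_of_pos hM0, mul_comm]
    rw [e1, hinvak] at h3
    unfold tailA_g
    rw [abs_of_nonneg (by positivity)]
    have h4 : (M : ℝ) ^ a * (M : ℝ) ^ (-σ) * M ≤ 1 := by
      have : (M : ℝ) ^ a * (M : ℝ) ^ (-σ) * M = (M : ℝ) ^ (-a) := by
        rw [← Real.rpow_add hM0]
        nth_rewrite 2 [← Real.rpow_one (M : ℝ)]
        rw [← Real.rpow_add hM0]
        congr 1
        rw [ha]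
        ring
      rw [this]
      exact Real.rpow_le_one_of_one_le_of_nonpos hM1' (by linarith)
    have h5 : 0 ≤ (M : ℝ) ^ (-σ) * M := by positivity
    calc (M : ℝ) * (Real.log M ^ k * (M : ℝ) ^ (-σ)) = Real.log M ^ k * ((M : ℝ) ^ (-σ) * M) := by
          ring
      _ ≤ (k.factorial * (2 ^ k * X ^ k) * (M : ℝ) ^ a) * ((M : ℝ) ^ (-σ) * M) :=
          mul_le_mul_of_nonneg_right h3 h5
      _ = (k.factorial * (2 ^ k * X ^ k)) * ((M : ℝ) ^ a * (M : ℝ) ^ (-σ) * M) := by ring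
      _ ≤ (k.factorial * (2 ^ k * X ^ k)) * 1 := mul_le_mul_of_nonneg_left h4 (by positivity)
      _ = _ := mul_one _
  have hterm : ∀ n ∈ Ico N M, ‖(∑ j ∈ Ioc N n, f j) * ((tailA_g k σ n - tailA_g k σ (n + 1) : ℝ) : ℂ)‖ ≤
      8 * δ * (k + 2) * (k.factorial * (2 ^ k * X ^ k)) * (n : ℝ) ^ (-1 - a) := by
    intro n hn
    rw [mem_Ico] at hn
    have hn1 : 1 ≤ n := hN.trans hn.1
    have hn0 : (0 : ℝ) < n := by exact_mod_cast (show 0 < n by omega)
    have hn1' : (1 : ℝ) ≤ n := by exact_mod_cast hn1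
    have hd := tailA_diff k σ h1 h2 n hn1
    have hw : 0 ≤ 1 + Real.log ((n : ℝ) + 1) := by
      have : 0 ≤ Real.log ((n : ℝ) + 1) := Real.log_nonneg (by linarith)
      linarith
    have h3 := tailA_pow k a (1 + Real.log ((n : ℝ) + 1)) ha0 hw
    rw [hinvak] at h3
    have h4 : Real.exp (a * (1 + Real.log ((n : ℝ) + 1))) ≤ 4 * (n : ℝ) ^ a := by
      have e1 : a * (1 + Real.log ((n : ℝ) + 1)) = a + a * Real.log ((n : ℝ) + 1) := by ring
      have e2 : Real.exp (a * Real.log ((n : ℝ) + 1)) = ((n : ℝ) + 1) ^ a := by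
        rw [Real.rpow_def_of_pos (by linarith), mul_comm]
      rw [e1, Real.exp_add, e2]
      have h5 : Real.exp a ≤ 2 := by
        have h6 : Real.exp a ≤ Real.exp (1 / 2) := Real.exp_le_exp.2 ha1
        have h7 : Real.exp (1 / 2) ^ 2 = Real.exp 1 := by
          rw [← Real.exp_nat_mul]
          norm_num
        have h8 := Real.exp_one_lt_d9
        have h9 : 0 < Real.exp (1 / 2) := Real.exp_pos _
        nlinarith
      have h6 : ((n : ℝ) + 1) ^ a ≤ 2 * (n : ℝ) ^ a := by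
        calc ((n : ℝ) + 1) ^ a ≤ (2 * (n : ℝ)) ^ a :=
              Real.rpow_le_rpow (by linarith) (by linarith) ha0.le
          _ = 2 ^ a * (n : ℝ) ^ a := Real.mul_rpow (by norm_num) hn0.le
          _ ≤ 2 * (n : ℝ) ^ a := by
              refine mul_le_mul_of_nonneg_right ?_ (by positivity)
              calc (2 : ℝ) ^ a ≤ (2 : ℝ) ^ (1 : ℝ) :=
                    Real.rpow_le_rpow_of_exponent_le (by norm_num) (by linarith)
                _ = 2 := Real.rpow_one 2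
      calc Real.exp a * ((n : ℝ) + 1) ^ a ≤ 2 * (2 * (n : ℝ) ^ a) :=
            mul_le_mul h5 h6 (by positivity) (by norm_num)
        _ = 4 * (n : ℝ) ^ a := by ring
    have h5 : (1 + Real.log ((n : ℝ) + 1)) ^ k ≤
        k.factorial * (2 ^ k * X ^ k) * (4 * (n : ℝ) ^ a) :=
      h3.trans (mul_le_mul_of_nonneg_left h4 (by positivity))
    have h6 : (n : ℝ) ^ a * (n : ℝ) ^ (-σ - 1) * n = (n : ℝ) ^ (-1 - a) := by
      rw [← Real.rpow_add hn0]
      nth_rewrite 2 [← Real.rpow_one (n : ℝ)]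
      rw [← Real.rpow_add hn0]
      congr 1
      rw [ha]
      ring
    rw [norm_mul, Complex.norm_real, Real.norm_eq_abs]
    have hp : 0 ≤ (n : ℝ) ^ (-σ - 1) := by positivity
    calc ‖∑ j ∈ Ioc N n, f j‖ * |tailA_g k σ n - tailA_g k σ (n + 1)|
        ≤ (2 * δ * n) * ((k + 2) * ((1 + Real.log (n + 1)) ^ k * (n : ℝ) ^ (-σ - 1))) :=
          mul_le_mul (hT n hn.1) hd (abs_nonneg _) (by positivity)
      _ ≤ (2 * δ * n) * ((k + 2) * ((k.factorial * (2 ^ k * X ^ k) * (4 * (n : ℝ) ^ a)) *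
            (n : ℝ) ^ (-σ - 1))) := by
          refine mul_le_mul_of_nonneg_left ?_ (by positivity)
          refine mul_le_mul_of_nonneg_left ?_ (by positivity)
          exact mul_le_mul_of_nonneg_right h5 hp
      _ = 8 * δ * (k + 2) * (k.factorial * (2 ^ k * X ^ k)) *
            ((n : ℝ) ^ a * (n : ℝ) ^ (-σ - 1) * n) := by ring
      _ = _ := by rw [h6]
  have hsum : ‖∑ n ∈ Ico N M, (∑ j ∈ Ioc N n, f j) *
      ((tailA_g k σ n - tailA_g k σ (n + 1) : ℝ) : ℂ)‖ ≤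
      8 * δ * (k + 2) * (k.factorial * (2 ^ k * X ^ k)) * (3 * X) := by
    refine (norm_sum_le _ _).trans ((sum_le_sum hterm).trans ?_)
    rw [← mul_sum]
    refine mul_le_mul_of_nonneg_left ?_ (by positivity)
    have h3 : ∑ n ∈ Ico N M, (n : ℝ) ^ (-1 - a) ≤ ∑ n ∈ Icc 1 M, (n : ℝ) ^ (-1 - a) := by
      refine sum_le_sum_of_subset_of_nonneg ?_ fun _ _ _ => by positivity
      intro n hn
      rw [mem_Ico] at hn
      rw [mem_Icc]
      omega
    refine h3.trans ((tailA_sum a ha0 (by linarith) M).trans ?_)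
    rw [hinva]
    linarith
  have hfirst : ‖(∑ n ∈ Ioc N M, f n) * (tailA_g k σ M : ℂ)‖ ≤
      2 * δ * (k.factorial * (2 ^ k * X ^ k)) := by
    rw [norm_mul, Complex.norm_real, Real.norm_eq_abs]
    calc ‖∑ n ∈ Ioc N M, f n‖ * |tailA_g k σ M| ≤ (2 * δ * M) * |tailA_g k σ M| :=
          mul_le_mul_of_nonneg_right (hT M hM) (abs_nonneg _)
      _ = 2 * δ * (M * |tailA_g k σ M|) := by ring
      _ ≤ _ := mul_le_mul_of_nonneg_left hgM (by positivity)
  refine (norm_add_le _ _).trans ((add_le_add hfirst hsum).trans ?_)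
  have hD : 0 ≤ δ * (k.factorial * (2 ^ k * X ^ k)) := by positivity
  have e1 : (k.factorial : ℝ) * 2 ^ k * (2 + 24 * (k + 2)) * δ * X ^ (k + 1) =
      δ * (k.factorial * (2 ^ k * X ^ k)) * (2 * X + 24 * (k + 2) * X) := by
    rw [pow_succ]
    ring
  have e2 : 2 * δ * (k.factorial * (2 ^ k * X ^ k)) +
      8 * δ * (k + 2) * (k.factorial * (2 ^ k * X ^ k)) * (3 * X) =
      δ * (k.factorial * (2 ^ k * X ^ k)) * (2 + 24 * (k + 2) * X) := by
    ring
  rw [e1, e2]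
  refine mul_le_mul_of_nonneg_left ?_ hD
  linarith

end Pool.Agent.H97.VK

end

section

/-!
# EHB HRe: `lamR` as an exponential sum

`lamR_eq`: `ramS c n = ∑_{b ∈ red c} e(n b/c)` (`Pool.Agent.H92.EH.ram`, `ram_eq`; `EH.e t = ee t`), for `c ≥ 1`.
`hR_abs`: `|Lam n| ≤ log n` (`ArithmeticFunction.vonMangoldt_le_log`), `|lamR R n| ≤ ∑_{c ≤ R} φ(c)/φ(c) ≤ R`.
-/

set_option autoImplicit false

namespace Pool.Agent.H76.EHB

open Finset
open Pool.Agent.H91.PK (ee)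
open Pool.Agent.H92.EH (red)
open Pool.Agent.H91.EHA (Lam lamR hR ramS)

private theorem hre_ram (c n : ℕ) (hc : 1 ≤ c) (hn : 1 ≤ n) :
    ((ramS c n : ℝ) : ℂ) = ∑ b ∈ red c, ee (n * ((b : ℝ) / c)) := by
  have h1 : ∑ b ∈ red c, ee (n * ((b : ℝ) / c)) = Pool.Agent.H92.EH.ram c (n : ℤ) := by
    unfold Pool.Agent.H92.EH.ram
    refine sum_congr rfl fun b _ => ?_
    unfold Pool.Agent.H91.PK.ee Pool.Agent.H92.EH.e
    congr 1
    push_cast
    ring
  rw [h1, Pool.Agent.H92.EH.ram_eq c hc (n : ℤ),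
    Nat.sum_divisorsAntidiagonal' (f := fun a b : ℕ =>
      ((ArithmeticFunction.moebius a : ℤ) : ℂ) * (if ((b : ℕ) : ℤ) ∣ (n : ℤ) then (b : ℂ) else 0))]
  have h2 : (Nat.gcd c n).divisors = c.divisors.filter (fun d => d ∣ n) := by
    ext d
    simp only [Nat.mem_divisors, mem_filter, Nat.dvd_gcd_iff]
    constructor
    · rintro ⟨⟨a, b⟩, _⟩
      exact ⟨⟨a, by omega⟩, b⟩
    · rintro ⟨⟨a, _⟩, b⟩
      exact ⟨⟨a, b⟩, (Nat.gcd_pos_of_pos_left n hc).ne'⟩
  unfold ramS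
  rw [h2, sum_filter]
  push_cast
  refine sum_congr rfl fun d _ => ?_
  by_cases hd : d ∣ n
  · rw [if_pos hd, if_pos (by exact_mod_cast hd)]
    push_cast
    ring
  · rw [if_neg hd, if_neg (by exact_mod_cast hd)]
    simp

theorem lamR_eq (R n : ℕ) (hn : 1 ≤ n) :
    ((lamR R n : ℝ) : ℂ) = ∑ c ∈ Icc 1 R, ((((ArithmeticFunction.moebius c : ℤ) : ℝ) / (c.totient : ℝ) : ℝ) : ℂ)
      * ∑ b ∈ red c, ee (n * ((b : ℝ) / c)) := by
  unfold lamR
  rw [Complex.ofReal_sum]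
  refine sum_congr rfl fun c hc => ?_
  rw [mem_Icc] at hc
  rw [Complex.ofReal_mul, hre_ram c n hc.1 hn]

end Pool.Agent.H76.EHB

end

section

/-!
# EHB HRm: mean square of `hR`

`lamR_sq`: dual large sieve: put `lam(c,b) = μ(c)/φ(c)`, `g(n) = lamR R n`.  `∑_n |g|^2 = ∑_{c,b} lam(c,b) ∑_n g(n) e(n b/c)`
`≤ (∑ |lam|^2)^{1/2} (∑_{c,b} |∑_n g(n) e(nb/c)|^2)^{1/2} ≤ (∑_{c ≤ R} 1/φ(c))^{1/2} (5 M ∑ g^2)^{1/2}` (`Pool.Agent.H92.EH2.farey_ls`, `M = max N (R^2)`), so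
`∑ g^2 ≤ 5 M ∑_{c≤R} 1/φ(c)`.
`hR_sq`: `hR^2 ≤ 2 Lam^2 + 2 lamR^2`, `∑ Lam^2 ≤ log x * ψ(x) ≤ 6 x log x` (`Chebyshev.psi_le_const_mul_self`),
`1/φ(c) ≤ (Nat.log 2 c + 1)/c` (`le_totient_mul`, `card_primeFactors_le` in `H92/EH/Totient.lean`), `∑_{c ≤ R} 1/φ(c) ≤ (2 log R + 2)(1 + log R) ≤ C log^2 x`.
-/

set_option autoImplicit false

namespace Pool.Agent.H76.EHB

open Finset
open Pool.Agent.H91.PK (ee)
open Pool.Agent.H92.EH (red)
open Pool.Agent.H91.EHA (Lam lamR hR ramS)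

theorem HRm_e (t : ℝ) : Pool.Agent.H92.EH.e t = ee t := by
  unfold Pool.Agent.H92.EH.e ee
  congr 1
  push_cast
  ring

theorem lamR_sq (R N M : ℕ) (hM : 0 < M) (hR : R ^ 2 ≤ M) (hN : N ≤ M) :
    ∑ n ∈ Icc 1 N, lamR R n ^ 2 ≤ 5 * M * ∑ c ∈ Icc 1 R, 1 / (c.totient : ℝ) := by
  classical
  set J : Finset (Σ _ : ℕ, ℕ) := (Icc 1 R).sigma (fun r => red r) with hJ
  have hsp : ∀ i ∈ J, ∀ j ∈ J, i ≠ j → ∀ k : ℤ,
      (1 : ℝ) / M ≤ |(i.2 : ℝ) / i.1 - (j.2 : ℝ) / j.1 - k| := by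
    rintro ⟨r, b⟩ hi ⟨r', b'⟩ hj hne k
    rw [hJ, mem_sigma, mem_Icc] at hi hj
    simp only at hi hj
    refine le_trans ?_ (Pool.Agent.H92.EH.farey_spacing (by omega) (by omega) hi.2 hj.2 ?_ k)
    · apply one_div_le_one_div_of_le
      · have h1 : (0 : ℝ) < r := by exact_mod_cast hi.1.1
        have h2 : (0 : ℝ) < r' := by exact_mod_cast hj.1.1
        positivity
      · have : r * r' ≤ M := by
          calc r * r' ≤ R * R := Nat.mul_le_mul hi.1.2 hj.1.2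
            _ = R ^ 2 := by ring
            _ ≤ M := hR
        exact_mod_cast this
    · rintro ⟨rfl, rfl⟩
      exact hne rfl
  set m : ℕ → ℝ := fun c => ((ArithmeticFunction.moebius c : ℤ) : ℝ) / (c.totient : ℝ) with hm
  have h := Pool.Agent.H92.EH.dual_large_sieve J (fun j => (j.2 : ℝ) / j.1)
    (fun j => ((m j.1 : ℝ) : ℂ)) M N hN hM hsp
  have h1 : ∀ n ∈ Icc 1 N, lamR R n ^ 2 =
      ‖∑ j ∈ J, ((m j.1 : ℝ) : ℂ) * Pool.Agent.H92.EH.e (n * ((j.2 : ℝ) / j.1))‖ ^ 2 := by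
    intro n hn
    have h2 := lamR_eq R n (mem_Icc.mp hn).1
    have h3 : ∑ j ∈ J, ((m j.1 : ℝ) : ℂ) * Pool.Agent.H92.EH.e (n * ((j.2 : ℝ) / j.1)) =
        ((lamR R n : ℝ) : ℂ) := by
      rw [h2, hJ, sum_sigma]
      refine sum_congr rfl fun c _ => ?_
      rw [mul_sum]
      refine sum_congr rfl fun b _ => ?_
      rw [HRm_e]
    rw [h3, Complex.norm_real, Real.norm_eq_abs, sq_abs]
  rw [sum_congr rfl h1]
  refine h.trans (mul_le_mul_of_nonneg_left ?_ (by positivity))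
  rw [hJ, sum_sigma]
  refine sum_le_sum fun c hc => ?_
  simp only
  rw [sum_const, Pool.Agent.H92.EH.card_red, nsmul_eq_mul, Complex.norm_real, Real.norm_eq_abs,
    sq_abs]
  have hc1 : 0 < c := (mem_Icc.mp hc).1
  have ht : (0 : ℝ) < c.totient := by exact_mod_cast Nat.totient_pos.mpr hc1
  have hmu : (((ArithmeticFunction.moebius c : ℤ) : ℝ)) ^ 2 ≤ 1 := by
    have h5 := ArithmeticFunction.abs_moebius_le_one (n := c)
    have h6 : |((ArithmeticFunction.moebius c : ℤ) : ℝ)| ≤ 1 := by exact_mod_cast h5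
    rw [← sq_abs]
    exact pow_le_one₀ (abs_nonneg _) h6
  rw [hm]
  simp only
  rw [div_pow, mul_div_assoc', div_le_div_iff₀ (by positivity) ht]
  nlinarith [mul_pos ht ht]

/-- `∑_{n ≤ N} Λ(n)^2 ≤ 6 x log x` -/
theorem HRm_Lam (x N : ℕ) (hx : 1 ≤ x) (hN : N ≤ x) :
    ∑ n ∈ Icc 1 N, Lam n ^ 2 ≤ 6 * x * Real.log x := by
  have hL : 0 ≤ Real.log x := Real.log_natCast_nonneg x
  have h1 : ∀ n ∈ Icc 1 N, Lam n ^ 2 ≤ Real.log x * Lam n := by
    intro n hn
    rw [mem_Icc] at hn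
    have h2 : (0 : ℝ) ≤ Lam n := ArithmeticFunction.vonMangoldt_nonneg
    have h3 : Lam n ≤ Real.log n := ArithmeticFunction.vonMangoldt_le_log
    have h4 : Real.log n ≤ Real.log x :=
      Real.log_le_log (by exact_mod_cast hn.1) (by exact_mod_cast hn.2.trans hN)
    rw [sq]
    exact mul_le_mul_of_nonneg_right (h3.trans h4) h2
  refine (sum_le_sum h1).trans ?_
  rw [← mul_sum]
  have h5 : ∑ n ∈ Icc 1 N, Lam n ≤ Chebyshev.psi x := by
    rw [Chebyshev.psi, Nat.floor_natCast]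
    refine sum_le_sum_of_subset_of_nonneg ?_ fun n _ _ => ArithmeticFunction.vonMangoldt_nonneg
    intro n hn
    rw [mem_Icc] at hn
    rw [mem_Ioc]
    omega
  have h6 : Chebyshev.psi x ≤ (Real.log 4 + 4) * x :=
    Chebyshev.psi_le_const_mul_self (by positivity)
  have h7 : Real.log 4 ≤ 2 := by
    have : Real.log 4 = 2 * Real.log 2 := by
      rw [show (4 : ℝ) = 2 ^ 2 by norm_num, Real.log_pow]
      norm_num
    rw [this]
    have := Real.log_two_lt_d9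
    linarith
  have h8 : (Real.log 4 + 4) * (x : ℝ) ≤ 6 * x :=
    mul_le_mul_of_nonneg_right (by linarith) (by positivity)
  calc Real.log x * ∑ n ∈ Icc 1 N, Lam n ≤ Real.log x * (6 * x) :=
        mul_le_mul_of_nonneg_left (h5.trans (h6.trans h8)) hL
    _ = 6 * x * Real.log x := by ring

/-- `∑_{c ≤ R} 1/φ(c)` -/
theorem HRm_tot (x R : ℕ) (hR : 1 ≤ R) (hRx : R ^ 2 ≤ x) :
    ∑ c ∈ Icc 1 R, 1 / (c.totient : ℝ) ≤ (Real.log x + 1) * (1 + Real.log x) := by
  have hR' : (1 : ℝ) ≤ R := by exact_mod_cast hR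
  have hRlog : 2 * Real.log R ≤ Real.log x := by
    have h1 : Real.log ((R : ℝ) ^ 2) ≤ Real.log x :=
      Real.log_le_log (by positivity) (by exact_mod_cast hRx)
    rw [Real.log_pow] at h1
    push_cast at h1
    exact h1
  have hR0 : 0 ≤ Real.log R := Real.log_natCast_nonneg R
  have hlog2 : (Nat.log 2 R : ℝ) ≤ Real.log x := by
    have h1 : (2 : ℝ) ^ Nat.log 2 R ≤ R := by
      exact_mod_cast Nat.pow_log_le_self 2 (by omega)
    have h2 : (Nat.log 2 R : ℝ) * Real.log 2 ≤ Real.log R := by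
      rw [← Real.log_pow]
      exact Real.log_le_log (by positivity) h1
    have h3 := Real.log_two_gt_d9
    have h4 : (Nat.log 2 R : ℝ) * (1 / 2) ≤ (Nat.log 2 R : ℝ) * Real.log 2 :=
      mul_le_mul_of_nonneg_left (by linarith) (by positivity)
    linarith
  have h1 : ∀ c ∈ Icc 1 R, 1 / (c.totient : ℝ) ≤ (Real.log x + 1) * ((c : ℝ)⁻¹) := by
    intro c hc
    rw [mem_Icc] at hc
    have hc0 : (0 : ℝ) < c := by exact_mod_cast hc.1
    have ht : (0 : ℝ) < c.totient := by exact_mod_cast Nat.totient_pos.mpr hc.1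
    have h2 := Pool.Agent.H92.EH.le_totient_mul c
    have h3 : (c.primeFactors.card : ℝ) ≤ Real.log x := by
      refine le_trans ?_ hlog2
      exact_mod_cast (Pool.Agent.H92.EH.card_primeFactors_le c).trans (Nat.log_mono_right hc.2)
    rw [← div_eq_mul_inv, div_le_div_iff₀ ht hc0, one_mul]
    calc (c : ℝ) ≤ c.totient * (c.primeFactors.card + 1) := h2
      _ ≤ c.totient * (Real.log x + 1) := mul_le_mul_of_nonneg_left (by linarith) ht.le
      _ = (Real.log x + 1) * c.totient := by ring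
  refine (sum_le_sum h1).trans ?_
  rw [← mul_sum]
  refine mul_le_mul_of_nonneg_left ?_ (by linarith [Real.log_natCast_nonneg x])
  have h5 := harmonic_le_one_add_log R
  have h6 : ((harmonic R : ℚ) : ℝ) = ∑ c ∈ Icc 1 R, (c : ℝ)⁻¹ := by
    rw [harmonic_eq_sum_Icc]
    push_cast
    rfl
  rw [← h6]
  linarith

end Pool.Agent.H76.EHB

end

section

/-!
# PROJECT VK, Part I.b: sieved Dirichlet characters

Notation: `L = log x`, `L9 x = L^{9/10}`, `LL x = log L`, `y = Yx x = ⌊exp(L^{9/10})⌋`.  A character `χ` mod `d` is replaced by the character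
`ch x χ` modulo `qm x d = d · y#` induced by it: `ch x χ n = χ(n)` if `n` has no prime factor `≤ y`, otherwise `0`.
The tools `Lk`, `Fk` (`∑ χ(n) (log n)^k n^{-s}`, `∑ Λ(n) χ(n) (log n)^k n^{-s}`) of EHA are applied to `ch x χ`.
-/

set_option autoImplicit false

namespace Pool.Agent.H97.VK

open Finset

/-- `(log x)^{9/10}` -/
noncomputable def L9 (x : ℕ) : ℝ := Real.log x ^ (9 / 10 : ℝ)

/-- `log log x` -/
noncomputable def LL (x : ℕ) : ℝ := Real.log (Real.log x)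

/-- the sieving level -/
noncomputable def Yx (x : ℕ) : ℕ := ⌊Real.exp (L9 x)⌋₊

/-- the modulus `d · y#` -/
noncomputable def qm (x d : ℕ) : ℕ := d * primorial (Yx x)

/-- the character modulo `qm x d` induced by `χ` -/
noncomputable def ch (x : ℕ) {d : ℕ} (χ : DirichletCharacter ℂ d) : DirichletCharacter ℂ (qm x d) :=
  DirichletCharacter.changeLevel (Dvd.intro _ rfl) χ

end Pool.Agent.H97.VK

end
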