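import Pool.Agent.H43.PJ.M07

/-! The parts of this file: H76.GB.PbCard, H76.GB.Sing, H76.SP.LamD. -/

section

/-!
# GB PbCard: a lower bound for the number of primes in `(P, 2P]` (elementary, central binomial coefficient)
-/

set_option autoImplicit false

namespace Pool.Agent.H76.GB

open Finset
open Pool.Agent.H35.W

private theorem pbcard_binom (n : ℕ) (hn : 2 < n) :
    n.centralBinom ≤ (2 * n) ^ (Nat.sqrt (2 * n) + (pb n).card) * 4 ^ (2 * n / 3) := by
  have h0 : 0 < 2 * n := by omega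
  have h1 : n.centralBinom =
      ∏ p ∈ (range (2 * n + 1)).filter Nat.Prime, p ^ n.centralBinom.factorization p := by
    conv_lhs => rw [← Nat.prod_pow_factorization_centralBinom n]
    symm
    refine Finset.prod_filter_of_ne fun p _ h => ?_
    contrapose h
    rw [Nat.factorization_eq_zero_of_not_prime n.centralBinom h, pow_zero]
  have h2 : ∀ p ∈ (range (2 * n + 1)).filter Nat.Prime, p ^ n.centralBinom.factorization p ≤
      (if p ≤ Nat.sqrt (2 * n) ∨ n < p then 2 * n else 1) * (if p ≤ 2 * n / 3 then p else 1) := by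
    intro p hp
    rw [mem_filter, mem_range] at hp
    have hp1 : 1 ≤ p := hp.2.one_lt.le
    have hb : 1 ≤ (if p ≤ 2 * n / 3 then p else 1) := by split_ifs <;> omega
    have hf : p ^ n.centralBinom.factorization p ≤ 2 * n := Nat.pow_factorization_choose_le h0
    by_cases ha : p ≤ Nat.sqrt (2 * n) ∨ n < p
    · rw [if_pos ha]
      nlinarith
    · rw [if_neg ha, one_mul]
      push Not at ha
      have h3 : n.centralBinom.factorization p ≤ 1 :=
        Nat.factorization_choose_le_one (Nat.sqrt_lt'.mp ha.1)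
      by_cases hc : p ≤ 2 * n / 3
      · rw [if_pos hc]
        exact (Nat.pow_le_pow_right hp1 h3).trans (pow_one p).le
      · rw [if_neg hc]
        have h4 : n.centralBinom.factorization p = 0 :=
          Nat.factorization_centralBinom_of_two_mul_self_lt_three_mul hn ha.2 (by omega)
        rw [h4, pow_zero]
  rw [h1]
  refine (Finset.prod_le_prod' h2).trans ?_
  rw [Finset.prod_mul_distrib]
  refine Nat.mul_le_mul ?_ ?_
  · rw [← Finset.prod_filter, Finset.prod_const]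
    refine Nat.pow_le_pow_right h0 ?_
    have h5 : ((range (2 * n + 1)).filter Nat.Prime).filter (fun p => p ≤ Nat.sqrt (2 * n) ∨ n < p) ⊆
        Icc 1 (Nat.sqrt (2 * n)) ∪ pb n := by
      intro p hp
      simp only [mem_filter, mem_range] at hp
      unfold pb
      simp only [mem_union, mem_Icc, mem_filter, mem_Ioc]
      have := hp.1.2.one_lt
      rcases hp.2 with h | h
      · left
        omega
      · right
        exact ⟨by omega, hp.1.2⟩
    refine (card_le_card h5).trans ((card_union_le _ _).trans ?_)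
    rw [Nat.card_Icc]
    omega
  · rw [← Finset.prod_filter]
    refine le_trans ?_ (primorial_le_four_pow (2 * n / 3))
    unfold primorial
    refine Finset.prod_le_prod_of_subset_of_one_le' ?_ ?_
    · intro p hp
      simp only [mem_filter, mem_range] at hp ⊢
      exact ⟨by omega, hp.1.2⟩
    · intro p hp _
      exact (mem_filter.1 hp).2.one_lt.le

theorem pb_card : ∃ P0 : ℕ, ∀ P : ℕ, P0 ≤ P → (P : ℝ) / (8 * Real.log P) ≤ ((pb P).card : ℝ) := by
  have h1 := (isLittleO_log_rpow_atTop (r := 1 / 4) (by norm_num)).bound (c := 1)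
    (by norm_num)
  obtain ⟨x1, hx1⟩ := Filter.eventually_atTop.1 (tendsto_natCast_atTop_atTop (R := ℝ) |>.eventually h1)
  refine ⟨max x1 (10 ^ 12), fun P hP => ?_⟩
  have hPx : x1 ≤ P := (le_max_left _ _).trans hP
  have hP1 : 10 ^ 12 ≤ P := (le_max_right _ _).trans hP
  have hPR : (10 : ℝ) ^ 12 ≤ P := by exact_mod_cast hP1
  have hP0 : (0 : ℝ) < P := by linarith [pow_pos (show (0:ℝ) < 10 by norm_num) 12]
  obtain ⟨k, hk⟩ : ∃ k, k = (pb P).card := ⟨_, rfl⟩
  have hlogP : Real.log P ≤ (P : ℝ) ^ (1 / 4 : ℝ) := by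
    have h := hx1 P hPx
    rw [Real.norm_eq_abs, Real.norm_eq_abs, one_mul] at h
    exact (le_abs_self _).trans (h.trans (le_of_eq (abs_of_nonneg (by positivity))))
  have hL1 : 1 ≤ Real.log P := by
    rw [Real.le_log_iff_exp_le hP0]
    linarith [Real.exp_one_lt_d9, show (2.7182818286 : ℝ) < 10 ^ 12 by norm_num]
  have b1 : (4 : ℝ) ^ P < P * ((2 * P : ℕ) : ℝ) ^ (Nat.sqrt (2 * P) + k) * 4 ^ (2 * P / 3) := by
    have h2 := Nat.four_pow_lt_mul_centralBinom P (by omega)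
    have h3 := pbcard_binom P (by omega)
    rw [← hk] at h3
    have h4 : 4 ^ P < P * ((2 * P) ^ (Nat.sqrt (2 * P) + k) * 4 ^ (2 * P / 3)) :=
      h2.trans_le (Nat.mul_le_mul_left _ h3)
    rw [← mul_assoc] at h4
    exact_mod_cast h4
  have b2 := Real.log_lt_log (by positivity) b1
  rw [Real.log_mul (by positivity) (by positivity), Real.log_mul (by positivity) (by positivity),
    Real.log_pow, Real.log_pow, Real.log_pow] at b2
  have l4 : Real.log 4 = 2 * Real.log 2 := by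
    rw [show (4 : ℝ) = 2 ^ 2 by norm_num, Real.log_pow]
    norm_num
  have l2a := Real.log_two_gt_d9
  have l2b := Real.log_two_lt_d9
  have b3 : ((2 * P / 3 : ℕ) : ℝ) ≤ 2 * P / 3 := by
    have := @Nat.cast_div_le ℝ _ _ _ (2 * P) 3
    push_cast at this
    exact this
  have b4 : Real.log ((2 * P : ℕ) : ℝ) ≤ 2 * Real.log P := by
    push_cast
    rw [Real.log_mul (by norm_num) hP0.ne']
    linarith
  have b5 : ((Nat.sqrt (2 * P) : ℕ) : ℝ) ≤ 2 * (P : ℝ) ^ (1 / 2 : ℝ) := by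
    have h5 : Nat.sqrt (2 * P) * Nat.sqrt (2 * P) ≤ 2 * P := Nat.sqrt_le _
    have h6 : ((Nat.sqrt (2 * P) : ℕ) : ℝ) * ((Nat.sqrt (2 * P) : ℕ) : ℝ) ≤ 2 * P := by exact_mod_cast h5
    have h7 : (P : ℝ) ^ (1 / 2 : ℝ) * (P : ℝ) ^ (1 / 2 : ℝ) = P := by
      rw [← Real.rpow_add hP0]
      norm_num
    have h8 : 0 ≤ (P : ℝ) ^ (1 / 2 : ℝ) := by positivity
    by_contra hc
    push Not at hc
    nlinarith [mul_pos_of_neg_of_neg (sub_neg.2 hc) (sub_neg.2 hc)]
  have hq : (P : ℝ) ^ (1 / 4 : ℝ) * (P : ℝ) ^ (1 / 4 : ℝ) = (P : ℝ) ^ (1 / 2 : ℝ) := by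
    rw [← Real.rpow_add hP0]
    norm_num
  have hq2 : (P : ℝ) ^ (1 / 2 : ℝ) * (P : ℝ) ^ (1 / 4 : ℝ) * (P : ℝ) ^ (1 / 4 : ℝ) = P := by
    rw [mul_assoc, hq, ← Real.rpow_add hP0]
    norm_num
  have hq3 : (1000 : ℝ) ≤ (P : ℝ) ^ (1 / 4 : ℝ) := by
    have h9 := Real.rpow_le_rpow (by positivity) hPR (show (0 : ℝ) ≤ 1 / 4 by norm_num)
    refine le_trans (le_of_eq ?_) h9
    rw [← Real.rpow_natCast, ← Real.rpow_mul (by norm_num)]
    norm_num
  set r : ℝ := (P : ℝ) ^ (1 / 2 : ℝ) with hr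
  set t : ℝ := (P : ℝ) ^ (1 / 4 : ℝ) with ht
  have hr0 : 0 ≤ r := by positivity
  -- the main inequality
  have b6 : ((Nat.sqrt (2 * P) : ℕ) : ℝ) * Real.log ((2 * P : ℕ) : ℝ) ≤ 4 * (r * t) := by
    have hs0 : (0 : ℝ) ≤ ((Nat.sqrt (2 * P) : ℕ) : ℝ) := Nat.cast_nonneg _
    calc ((Nat.sqrt (2 * P) : ℕ) : ℝ) * Real.log ((2 * P : ℕ) : ℝ) ≤ (2 * r) * (2 * t) :=
          mul_le_mul b5 (b4.trans (by linarith)) (Real.log_nonneg (by exact_mod_cast (by omega : 1 ≤ 2 * P)))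
            (by positivity)
      _ = 4 * (r * t) := by ring
  have b7 : r * t * 1000 ≤ P := by
    rw [← hq2]
    exact mul_le_mul_of_nonneg_left hq3 (by positivity)
  have b8 : Real.log P ≤ r * t := by
    have : (1 : ℝ) ≤ r := by
      rw [← hq]
      nlinarith
    nlinarith
  have b9 : (k : ℝ) * Real.log ((2 * P : ℕ) : ℝ) ≤ k * (2 * Real.log P) :=
    mul_le_mul_of_nonneg_left b4 (Nat.cast_nonneg _)
  push_cast at b2 b6 b9
  rw [l4] at b2
  have b10 : (2 * P / 3 : ℝ) * (2 * Real.log 2) = (P : ℝ) * (4 / 3 * Real.log 2) := by ring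
  have b11 : ((2 * P / 3 : ℕ) : ℝ) * (2 * Real.log 2) ≤ (P : ℝ) * (4 / 3 * Real.log 2) := by
    rw [← b10]
    exact mul_le_mul_of_nonneg_right b3 (by linarith)
  rw [← hk, div_le_iff₀ (by positivity)]
  nlinarith

end Pool.Agent.H76.GB

end

section

/-!
# GB Sing: the truncated singular series is at least 1

Proof.  For squarefree `r` and `d = gcd(r, E)`, `e = r/d`: `ramS r E = μ(e) φ(d)` (`∑_{g | d} g μ(r/g) = μ(e) ∑_{g | d} g μ(d/g)`, as
`r/g = e (d/g)` with coprime factors), so the term is `μ(e)/(φ(d) φ(e)^2)`; `d | E`, `(e, E) = 1` (as `r` is squarefree), in particular `e` is odd.  So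
`SR R E = ∑_{d | E, d ≤ R, d squarefree} (1/φ(d)) ∑_{e ≤ R/d, (e,E) = 1, squarefree} μ(e)/φ(e)^2`
(the map `(d, e) ↦ d e` is a bijection onto the squarefree `r ≤ R`).  Inner sum `≥ 1 - ∑_{1 < e ≤ R, e odd, squarefree} 1/φ(e)^2 ≥ 1/2`, because
`∑_{e ≤ Y odd squarefree} 1/φ(e)^2 ≤ ∏_{3 ≤ p ≤ Y prime} (1 + 1/(p-1)^2) ≤ exp(∑_{3 ≤ p ≤ Y} 1/(p-1)^2) ≤ exp(0.3959) ≤ 3/2`:
`∑ ≤ 1/4 + 1/16 + 1/36 + ∑_{n odd ≥ 11} 1/(n-1)^2`, the last sum is `(1/4) ∑_{j ≥ 5} 1/j^2 ≤ (1/4)(1/4.5)` (`1/j^2 ≤ 1/(j-1/2) - 1/(j+1/2)`).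
The terms `d = 1` and `d = 2` give `≥ 1/2 + 1/2`, the others are `≥ 0`.
-/

set_option autoImplicit false

namespace Pool.Agent.H76.GB

open Finset
open Pool.Agent.H91.EHA

private noncomputable def Sing_f (j : ℕ) : ℝ := 1 + 1 / (2 * (j : ℝ)) ^ 2

private lemma Sing_f_ge (j : ℕ) : 1 ≤ Sing_f j := by
  have : (0 : ℝ) ≤ 1 / (2 * (j : ℝ)) ^ 2 := by positivity
  unfold Sing_f
  linarith

private lemma Sing_prod (J : ℕ) :
    ∏ j ∈ Icc 1 (J + 2), Sing_f j ≤ 3 / 2 * (4 * ((J : ℝ) + 2) / (4 * ((J : ℝ) + 2) + 1)) := by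
  induction J with
  | zero =>
    have : Icc 1 (0 + 2) = ({1, 2} : Finset ℕ) := by decide
    rw [this, prod_pair (by norm_num)]
    unfold Sing_f
    norm_num
  | succ J ih =>
    rw [prod_Icc_succ_top (by omega)]
    have hJ : (0 : ℝ) ≤ J := Nat.cast_nonneg J
    refine (mul_le_mul_of_nonneg_right ih (zero_le_one.trans (Sing_f_ge _))).trans ?_
    unfold Sing_f
    push_cast
    rw [mul_assoc]
    refine mul_le_mul_of_nonneg_left ?_ (by norm_num)
    rw [div_mul_eq_mul_div, div_le_div_iff₀ (by positivity) (by positivity)]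
    have h1 : (2 * ((J : ℝ) + 2 + 1)) ^ 2 ≠ 0 := by positivity
    have h2 : 1 + 1 / (2 * ((J : ℝ) + 2 + 1)) ^ 2 =
        ((2 * ((J : ℝ) + 2 + 1)) ^ 2 + 1) / (2 * ((J : ℝ) + 2 + 1)) ^ 2 := by
      field_simp
    rw [h2, mul_div_assoc', div_mul_eq_mul_div, div_le_iff₀ (by positivity)]
    nlinarith [mul_nonneg hJ hJ, mul_nonneg (mul_nonneg hJ hJ) hJ]

private lemma Sing_prod' (Y : ℕ) : ∏ j ∈ Icc 1 Y, Sing_f j ≤ 3 / 2 := by
  have h1 : ∏ j ∈ Icc 1 Y, Sing_f j ≤ ∏ j ∈ Icc 1 (Y + 2), Sing_f j :=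
    prod_le_prod_of_subset_of_one_le (Icc_subset_Icc le_rfl (by omega))
      (fun i _ => zero_le_one.trans (Sing_f_ge i)) fun i _ _ => Sing_f_ge i
  refine h1.trans ((Sing_prod Y).trans ?_)
  have h2 : (4 * ((Y : ℝ) + 2) / (4 * ((Y : ℝ) + 2) + 1)) ≤ 1 := by
    rw [div_le_one (by positivity)]
    linarith
  linarith

private lemma Sing_tot {e : ℕ} (he : Squarefree e) :
    1 / (e.totient : ℝ) ^ 2 = ∏ p ∈ e.primeFactors, (1 / ((p : ℝ) - 1) ^ 2) := by
  have h1 : e.totient = ∏ p ∈ e.primeFactors, (p - 1) := by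
    have h := Nat.totient_mul_prod_primeFactors e
    rw [Nat.prod_primeFactors_of_squarefree he] at h
    have he0 : 0 < e := Nat.pos_of_ne_zero he.ne_zero
    rw [mul_comm] at h
    exact Nat.eq_of_mul_eq_mul_left he0 h
  rw [h1]
  push_cast
  rw [← prod_pow, one_div, ← prod_inv_distrib]
  refine prod_congr rfl fun p hp => ?_
  have h2 : 1 ≤ p := (Nat.prime_of_mem_primeFactors hp).one_lt.le
  rw [Nat.cast_sub h2, Nat.cast_one, one_div]

theorem odd_sum_le (Y : ℕ) :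
    ∑ e ∈ (Icc 1 Y).filter (fun e => Squarefree e ∧ ¬ 2 ∣ e), 1 / (e.totient : ℝ) ^ 2 ≤ 3 / 2 := by
  set S := (Icc 1 Y).filter (fun p => p.Prime ∧ ¬ 2 ∣ p) with hS
  have h1 : ∑ e ∈ (Icc 1 Y).filter (fun e => Squarefree e ∧ ¬ 2 ∣ e), 1 / (e.totient : ℝ) ^ 2 ≤
      ∑ T ∈ S.powerset, ∏ p ∈ T, (1 / ((p : ℝ) - 1) ^ 2) := by
    have h2 : ∑ e ∈ (Icc 1 Y).filter (fun e => Squarefree e ∧ ¬ 2 ∣ e), 1 / (e.totient : ℝ) ^ 2 =
        ∑ T ∈ ((Icc 1 Y).filter (fun e => Squarefree e ∧ ¬ 2 ∣ e)).image Nat.primeFactors,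
          ∏ p ∈ T, (1 / ((p : ℝ) - 1) ^ 2) := by
      rw [sum_image]
      · refine sum_congr rfl fun e he => ?_
        rw [mem_filter] at he
        exact Sing_tot he.2.1
      · intro a ha b hb hab
        rw [mem_coe, mem_filter] at ha hb
        rw [← Nat.prod_primeFactors_of_squarefree ha.2.1,
          ← Nat.prod_primeFactors_of_squarefree hb.2.1, hab]
    rw [h2]
    refine sum_le_sum_of_subset_of_nonneg ?_ fun T _ _ => prod_nonneg fun p _ => by positivity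
    intro T hT
    rw [mem_image] at hT
    obtain ⟨e, he, rfl⟩ := hT
    rw [mem_filter, mem_Icc] at he
    rw [mem_powerset]
    intro p hp
    rw [hS, mem_filter, mem_Icc]
    have hpp := Nat.prime_of_mem_primeFactors hp
    have hpe := Nat.dvd_of_mem_primeFactors hp
    refine ⟨⟨hpp.one_lt.le, (Nat.le_of_dvd (by omega) hpe).trans he.1.2⟩, hpp, fun h => ?_⟩
    exact he.2.2 (h.trans hpe)
  refine h1.trans ?_
  rw [← prod_one_add]
  have h3 : ∏ p ∈ S, (1 + 1 / ((p : ℝ) - 1) ^ 2) =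
      ∏ j ∈ S.image (fun p : ℕ => (p - 1) / 2), Sing_f j := by
    rw [prod_image]
    · refine prod_congr rfl fun p hp => ?_
      unfold Sing_f
      rw [hS, mem_filter, mem_Icc] at hp
      have h4 : 2 * ((p - 1) / 2) + 1 = p := by omega
      have h5 : (p : ℝ) - 1 = 2 * (((p - 1) / 2 : ℕ) : ℝ) := by
        have : ((2 * ((p - 1) / 2) + 1 : ℕ) : ℝ) = p := by rw [h4]
        push_cast at this
        linarith
      rw [h5]
    · intro a ha b hb hab
      rw [mem_coe, hS, mem_filter, mem_Icc] at ha hb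
      change (a - 1) / 2 = (b - 1) / 2 at hab
      omega
  rw [h3]
  refine le_trans (prod_le_prod_of_subset_of_one_le ?_ (fun i _ => zero_le_one.trans (Sing_f_ge i))
    fun i _ _ => Sing_f_ge i) (Sing_prod' Y)
  intro j hj
  rw [mem_image] at hj
  obtain ⟨p, hp, rfl⟩ := hj
  rw [hS, mem_filter, mem_Icc] at hp
  have := hp.2.1.two_le
  rw [mem_Icc]
  omega

/-- the Ramanujan sum of a squarefree number -/
private lemma Sing_ram {r E : ℕ} (hr : Squarefree r) :
    ramS r E = (ArithmeticFunction.moebius (r / Nat.gcd r E) : ℝ) * ((Nat.gcd r E).totient : ℝ) := by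
  set d := Nat.gcd r E with hd
  have hdr : d ∣ r := Nat.gcd_dvd_left r E
  obtain ⟨e, he⟩ := hdr
  have hr0 : r ≠ 0 := hr.ne_zero
  have hd0 : 0 < d := Nat.pos_of_ne_zero fun h => hr0 (by rw [he, h, zero_mul])
  have hcop : Nat.Coprime d e := Nat.coprime_of_squarefree_mul (he ▸ hr)
  have hre : r / d = e := by rw [he, Nat.mul_div_cancel_left _ hd0]
  rw [hre]
  unfold ramS
  rw [← hd]
  have hphi : ∑ g ∈ d.divisors, (g : ℝ) * (ArithmeticFunction.moebius (d / g) : ℝ) = (d.totient : ℝ) := by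
    have h1 := (ArithmeticFunction.sum_eq_iff_sum_mul_moebius_eq (R := ℝ)
      (f := fun n => (n.totient : ℝ)) (g := fun n => (n : ℝ))).1
      (fun n _ => by
        have := Nat.sum_totient n
        exact_mod_cast this) d hd0
    rw [← h1, Nat.sum_divisorsAntidiagonal' (f := fun a b => (ArithmeticFunction.moebius a : ℝ) * (b : ℝ))]
    exact sum_congr rfl fun g _ => mul_comm _ _
  rw [← hphi, mul_sum]
  refine sum_congr rfl fun g hg => ?_
  have hgd : g ∣ d := Nat.dvd_of_mem_divisors hg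
  obtain ⟨h, hh⟩ := hgd
  have hg0 : 0 < g := Nat.pos_of_mem_divisors hg
  have h1 : r / g = h * e := by
    rw [he, hh, mul_assoc, Nat.mul_div_cancel_left _ hg0]
  have h2 : d / g = h := by rw [hh, Nat.mul_div_cancel_left _ hg0]
  have h3 : Nat.Coprime h e := Nat.Coprime.coprime_dvd_left ⟨g, by rw [hh, mul_comm]⟩ hcop
  rw [h1, h2, ArithmeticFunction.isMultiplicative_moebius.map_mul_of_coprime h3]
  push_cast
  ring

private lemma Sing_mu_le (c : ℕ) : |(ArithmeticFunction.moebius c : ℝ)| ≤ 1 := by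
  have := ArithmeticFunction.abs_moebius_le_one (n := c)
  exact_mod_cast this

private noncomputable def Sing_t (E r : ℕ) : ℝ :=
  (ArithmeticFunction.moebius r : ℝ) ^ 2 * ramS r E / (r.totient : ℝ) ^ 2

private lemma Sing_t_eq {E r : ℕ} (hr : Squarefree r) :
    Sing_t E r = (ArithmeticFunction.moebius (r / Nat.gcd r E) : ℝ) /
      (((Nat.gcd r E).totient : ℝ) * ((r / Nat.gcd r E).totient : ℝ) ^ 2) := by
  unfold Sing_t
  rw [Sing_ram hr]
  set d := Nat.gcd r E with hd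
  have hdr : d ∣ r := Nat.gcd_dvd_left r E
  obtain ⟨e, he⟩ := hdr
  have hr0 : r ≠ 0 := hr.ne_zero
  have hd0 : 0 < d := Nat.pos_of_ne_zero fun h => hr0 (by rw [he, h, zero_mul])
  have he0 : 0 < e := Nat.pos_of_ne_zero fun h => hr0 (by rw [he, h, mul_zero])
  have hcop : Nat.Coprime d e := Nat.coprime_of_squarefree_mul (he ▸ hr)
  have hre : r / d = e := by rw [he, Nat.mul_div_cancel_left _ hd0]
  rw [hre]
  have h1 : (ArithmeticFunction.moebius r : ℝ) ^ 2 = 1 := by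
    have := ArithmeticFunction.moebius_sq_eq_one_of_squarefree hr
    exact_mod_cast this
  have h2 : (r.totient : ℝ) = (d.totient : ℝ) * (e.totient : ℝ) := by
    rw [he, Nat.totient_mul hcop]
    push_cast
    ring
  have h3 : (0 : ℝ) < d.totient := by exact_mod_cast Nat.totient_pos.2 hd0
  have h4 : (0 : ℝ) < e.totient := by exact_mod_cast Nat.totient_pos.2 he0
  rw [h1, h2]
  field_simp

private lemma Sing_inner {R E d : ℕ} (h2 : 2 ∣ E) (hdE : d ∣ E) (hds : Squarefree d) (hdR : d ≤ R) :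
    1 / (2 * (d.totient : ℝ)) ≤ ∑ r ∈ (Icc 1 R).filter (fun r => Nat.gcd r E = d), Sing_t E r := by
  have hd0 : 0 < d := Nat.pos_of_ne_zero hds.ne_zero
  have hphi : (0 : ℝ) < d.totient := by exact_mod_cast Nat.totient_pos.2 hd0
  -- restrict to the squarefree numbers
  have e1 : ∑ r ∈ (Icc 1 R).filter (fun r => Nat.gcd r E = d), Sing_t E r =
      ∑ r ∈ ((Icc 1 R).filter (fun r => Nat.gcd r E = d)).filter (fun r => Squarefree r), Sing_t E r := by
    symm
    refine sum_filter_of_ne fun r _ hne => ?_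
    by_contra hns
    refine hne ?_
    unfold Sing_t
    rw [ArithmeticFunction.moebius_eq_zero_of_not_squarefree hns]
    simp
  rw [e1]
  set S := ((Icc 1 R).filter (fun r => Nat.gcd r E = d)).filter (fun r => Squarefree r) with hS
  have hmem : ∀ r ∈ S, 1 ≤ r ∧ r ≤ R ∧ Nat.gcd r E = d ∧ Squarefree r := by
    intro r hr
    rw [hS, mem_filter, mem_filter, mem_Icc] at hr
    exact ⟨hr.1.1.1, hr.1.1.2, hr.1.2, hr.2⟩
  have hdS : d ∈ S := by
    rw [hS, mem_filter, mem_filter, mem_Icc]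
    exact ⟨⟨⟨hd0, hdR⟩, Nat.gcd_eq_left hdE⟩, hds⟩
  rw [← add_sum_erase _ _ hdS]
  have t1 : Sing_t E d = 1 / (d.totient : ℝ) := by
    rw [Sing_t_eq hds, Nat.gcd_eq_left hdE, Nat.div_self hd0]
    simp
  have t2 : ∀ r ∈ S.erase d, -(1 / (d.totient : ℝ) * (1 / ((r / d).totient : ℝ) ^ 2)) ≤ Sing_t E r := by
    intro r hr
    obtain ⟨hr1, hrR, hg, hsq⟩ := hmem r (mem_of_mem_erase hr)
    rw [Sing_t_eq hsq, hg]
    have hdr : d ∣ r := hg ▸ Nat.gcd_dvd_left r E
    have he0 : 0 < r / d := Nat.div_pos (Nat.le_of_dvd (by omega) hdr) hd0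
    have h4 : (0 : ℝ) < (r / d).totient := by exact_mod_cast Nat.totient_pos.2 he0
    have h5 := (abs_le.1 (Sing_mu_le (r / d))).1
    calc -(1 / (d.totient : ℝ) * (1 / ((r / d).totient : ℝ) ^ 2)) =
          (-1) / ((d.totient : ℝ) * ((r / d).totient : ℝ) ^ 2) := by
            field_simp
      _ ≤ _ := by gcongr
  have t3 : ∑ r ∈ S.erase d, 1 / ((r / d).totient : ℝ) ^ 2 ≤ 1 / 2 := by
    have h1 := odd_sum_le R
    have hmem1 : 1 ∈ (Icc 1 R).filter (fun e => Squarefree e ∧ ¬ 2 ∣ e) := by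
      rw [mem_filter, mem_Icc]
      exact ⟨⟨le_rfl, by omega⟩, squarefree_one, by norm_num⟩
    rw [← add_sum_erase _ _ hmem1] at h1
    have h2' : (1 : ℝ) / ((1 : ℕ).totient : ℝ) ^ 2 = 1 := by simp
    rw [h2'] at h1
    have h3 : ∑ r ∈ S.erase d, 1 / ((r / d).totient : ℝ) ^ 2 ≤
        ∑ e ∈ ((Icc 1 R).filter (fun e => Squarefree e ∧ ¬ 2 ∣ e)).erase 1,
          1 / (e.totient : ℝ) ^ 2 := by
      have h4 : ∑ r ∈ S.erase d, 1 / ((r / d).totient : ℝ) ^ 2 =
          ∑ e ∈ (S.erase d).image (fun r => r / d), 1 / (e.totient : ℝ) ^ 2 := by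
        rw [sum_image]
        intro a ha b hb hab
        rw [mem_coe, mem_erase] at ha hb
        obtain ⟨_, _, hga, _⟩ := hmem a ha.2
        obtain ⟨_, _, hgb, _⟩ := hmem b hb.2
        have hda : d ∣ a := hga ▸ Nat.gcd_dvd_left a E
        have hdb : d ∣ b := hgb ▸ Nat.gcd_dvd_left b E
        change a / d = b / d at hab
        rw [← Nat.div_mul_cancel hda, ← Nat.div_mul_cancel hdb, hab]
      rw [h4]
      refine sum_le_sum_of_subset_of_nonneg ?_ fun e _ _ => by positivity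
      intro e he
      rw [mem_image] at he
      obtain ⟨r, hr, rfl⟩ := he
      rw [mem_erase] at hr
      obtain ⟨hr1, hrR, hg, hsq⟩ := hmem r hr.2
      have hdr : d ∣ r := hg ▸ Nat.gcd_dvd_left r E
      obtain ⟨e, he⟩ := hdr
      have hre : r / d = e := by rw [he, Nat.mul_div_cancel_left _ hd0]
      have he0 : 0 < e := Nat.pos_of_ne_zero fun h => by rw [h, mul_zero] at he; omega
      have hcop : Nat.Coprime d e := Nat.coprime_of_squarefree_mul (he ▸ hsq)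
      rw [hre, mem_erase, mem_filter, mem_Icc]
      refine ⟨fun h => hr.1 (by rw [he, h, mul_one]), ⟨he0, ?_⟩, ?_, fun h => ?_⟩
      · calc e ≤ d * e := Nat.le_mul_of_pos_left e hd0
          _ = r := he.symm
          _ ≤ R := hrR
      · exact hsq.squarefree_of_dvd ⟨d, by rw [he, mul_comm]⟩
      · have h5 : 2 ∣ d := by
          rw [← hg]
          exact Nat.dvd_gcd (h.trans ⟨d, by rw [he, mul_comm]⟩) h2
        have h6 := Nat.dvd_gcd h5 h
        rw [hcop] at h6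
        omega
    linarith
  have t4 : -(1 / (d.totient : ℝ) * (1 / 2)) ≤ ∑ r ∈ S.erase d, Sing_t E r := by
    calc -(1 / (d.totient : ℝ) * (1 / 2)) ≤
          -(1 / (d.totient : ℝ) * ∑ r ∈ S.erase d, 1 / ((r / d).totient : ℝ) ^ 2) := by
            gcongr
      _ = ∑ r ∈ S.erase d, -(1 / (d.totient : ℝ) * (1 / ((r / d).totient : ℝ) ^ 2)) := by
            rw [mul_sum, sum_neg_distrib]
      _ ≤ _ := sum_le_sum t2
  rw [t1]
  have t5 : 1 / (2 * (d.totient : ℝ)) = 1 / (d.totient : ℝ) - 1 / (d.totient : ℝ) * (1 / 2) := by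
    field_simp
    norm_num
  linarith

private lemma Sing_nonneg {R E d : ℕ} (h2 : 2 ∣ E) :
    0 ≤ ∑ r ∈ (Icc 1 R).filter (fun r => Nat.gcd r E = d), Sing_t E r := by
  by_cases h : ∃ r ∈ (Icc 1 R).filter (fun r => Nat.gcd r E = d), Squarefree r
  · obtain ⟨r, hr, hsq⟩ := h
    rw [mem_filter, mem_Icc] at hr
    have hdr : d ∣ r := hr.2 ▸ Nat.gcd_dvd_left r E
    refine le_trans (by positivity) (Sing_inner h2 (hr.2 ▸ Nat.gcd_dvd_right r E)
      (hsq.squarefree_of_dvd hdr) ((Nat.le_of_dvd (by omega) hdr).trans hr.1.2))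
  · push Not at h
    rw [sum_eq_zero]
    intro r hr
    unfold Sing_t
    rw [ArithmeticFunction.moebius_eq_zero_of_not_squarefree (h r hr)]
    simp

theorem sr_ge (R E : ℕ) (hR : 2 ≤ R) (hE : 1 ≤ E) (h2 : 2 ∣ E) : 1 ≤ SR R E := by
  have h1 : SR R E = ∑ r ∈ Icc 1 R, Sing_t E r := rfl
  rw [h1]
  have hmap : ∀ r ∈ Icc 1 R, Nat.gcd r E ∈ Icc 1 R := by
    intro r hr
    rw [mem_Icc] at hr ⊢
    exact ⟨Nat.gcd_pos_of_pos_left E hr.1, (Nat.gcd_le_left E hr.1).trans hr.2⟩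
  rw [← sum_fiberwise_of_maps_to hmap]
  have hsub : ({1, 2} : Finset ℕ) ⊆ Icc 1 R := by
    intro d hd
    rw [mem_insert, mem_singleton] at hd
    rw [mem_Icc]
    omega
  refine le_trans ?_ (sum_le_sum_of_subset_of_nonneg hsub fun d _ _ => Sing_nonneg h2)
  rw [sum_pair (by norm_num)]
  have a1 := Sing_inner (R := R) h2 (one_dvd E) squarefree_one (by omega)
  have a2 := Sing_inner (R := R) h2 h2 Nat.prime_two.squarefree hR
  have b1 : (1 : ℝ) / (2 * ((1 : ℕ).totient : ℝ)) = 1 / 2 := by simp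
  have b2 : (1 : ℝ) / (2 * ((2 : ℕ).totient : ℝ)) = 1 / 2 := by
    rw [Nat.totient_two]
    norm_num
  rw [b1] at a1
  rw [b2] at a2
  linarith

end Pool.Agent.H76.GB

end

section

/-!
# SP LamD: `lamR` as a divisor sum

`lam_div`: expand `ramS q n = ∑_{d | gcd(q,n)} d μ(q/d)` and exchange (compare `Pool/Agent/H87/WL/Sel1.lean`, `ps_eq`).
`ramS_mul`: `gcd(q, k n) = gcd(q, n)` if `(k, q) = 1`.  `lamR_mul`: all `q ≤ R < k` are prime to the prime `k`.
`lam1_le`: if `d` is not squarefree all `μ(q) = 0` (`d | q`); otherwise for `q = d e` with `μ(q) ≠ 0` we have `(d, e) = 1`, `φ(q) = φ(d) φ(e)`: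
`|lam1 R d| ≤ (d/φ(d)) ∑_{e ≤ R} 1/φ(e)` and `d/φ(d) = ∑_{l | d} 1/φ(l) (l squarefree) ≤ ∑_{l ≤ R} 1/φ(l)`
(e.g. `φ(d) ∑_{l | d} μ(l)^2/φ(l) = d`; for squarefree `d` this is `∑_{l | d} φ(d)/φ(l) = ∑_{l | d} φ(d/l) = d`, `Nat.sum_totient`).
`lam1_SR`: `∑_{d ≤ R, (d,N)=1} lam1 R d/φ(d) = ∑_{q ≤ R} (μ(q)/φ(q)) ∑_{d | q, (d,N)=1} d μ(q/d)/φ(d)`; for squarefree `q`, `g = gcd(q, N)`, `q = g e`
(`(g,e) = 1`): `d | q, (d,N) = 1 ↔ d | e` (`q` squarefree), so the inner sum is `μ(g) ∑_{d | e} μ(e/d) d/φ(d) = μ(g)/φ(e)`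
(Möbius inversion of `d/φ(d) = ∑_{l | d} 1/φ(l)` for the squarefree `e`), while the term of `SR` is
`μ(q)^2 ramS q N/φ(q)^2` with `ramS q N = μ(e) φ(g)` (private lemma `Sing_ram` of `H76/GB/Sing.lean`, copy it):
`(μ(q)/φ(q)) μ(g)/φ(e) = μ(e)/(φ(g) φ(e)^2) = ramS q N/φ(q)^2`.
-/

set_option autoImplicit false

namespace Pool.Agent.H76.SP

open Finset
open Pool.Agent.H91.EHA (Lam hR lamR ramS)

theorem ramS_mul (q k n : ℕ) (hk : Nat.Coprime k q) : ramS q (k * n) = ramS q n := by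
  unfold ramS
  rw [Nat.Coprime.gcd_mul_left_cancel_right n hk]

theorem lamR_mul (R k n : ℕ) (hk : k.Prime) (hR : R < k) : lamR R (k * n) = lamR R n := by
  unfold lamR
  refine sum_congr rfl fun c hc => ?_
  rw [mem_Icc] at hc
  rw [ramS_mul c k n ((Nat.Prime.coprime_iff_not_dvd hk).2 fun h => ?_)]
  have := Nat.le_of_dvd (by omega) h
  omega

end Pool.Agent.H76.SP

end
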