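import Pool.Agent.H43.PJ.M05
import Pool.Agent.H43.PJ.M41

/-! The parts of this file: H88.PSI.Kap, H53.MID.VkPr, H88.PSI.Conv. -/

section

/-!
# PSI Kap: the kernel of the logarithmic windows

`kp h t = ∫_{-h}^{0} ee(-t v) dv`; `|kp| ≤ h`, `|kp| ≤ 1/(π|t|)`, `|kp - h| ≤ π |t| h^2`.  The Fourier transform of
`u ↦ [u < c ≤ u + h]` is `ee(-t c) kp h t`... (`u = c + v`, `-h ≤ v < 0`).
-/

set_option autoImplicit false

namespace Pool.Agent.H88.PSI

open Finset MeasureTheory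
open Pool.Agent.H91.PK (ee)

private theorem kap_cont (t : ℝ) : Continuous fun v : ℝ => ee (-(v * t)) := by
  unfold ee
  fun_prop

/-- `∫_{-h}^{0} ee(-(v t)) dv` -/
noncomputable def kp (h t : ℝ) : ℂ := ∫ v in (-h)..0, ee (-(v * t))

theorem kp_le (h t : ℝ) (hh : 0 ≤ h) : ‖kp h t‖ ≤ h := by
  unfold kp
  have h1 : ‖∫ v in (-h)..0, ee (-(v * t))‖ ≤ 1 * |0 - (-h)| :=
    intervalIntegral.norm_integral_le_of_norm_le_const fun x _ =>
      (Pool.Agent.H91.PK.LSa_norm_ee _).le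
  rwa [one_mul, zero_sub, neg_neg, abs_of_nonneg hh] at h1

theorem kp_inv (h t : ℝ) (ht : t ≠ 0) : ‖kp h t‖ ≤ 1 / (2 * |t|) := by
  have hc : (-(2 * Real.pi * t * Complex.I) : ℂ) ≠ 0 := by
    refine neg_ne_zero.2 (mul_ne_zero (mul_ne_zero (mul_ne_zero two_ne_zero ?_) ?_)
      Complex.I_ne_zero)
    · exact_mod_cast Real.pi_ne_zero
    · exact_mod_cast ht
  have hd : ∀ v : ℝ, HasDerivAt (fun v : ℝ => ee (-(v * t)) / (-(2 * Real.pi * t * Complex.I)))
      (ee (-(v * t))) v := by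
    intro v
    have h1 : HasDerivAt (fun v : ℝ => (-(2 * Real.pi * t * Complex.I) : ℂ) * ((v : ℝ) : ℂ))
        (-(2 * Real.pi * t * Complex.I)) v := by
      have h2 := (Complex.ofRealCLM.hasDerivAt (x := v)).const_mul
        (-(2 * Real.pi * t * Complex.I) : ℂ)
      simpa using h2
    have h3 := h1.cexp.div_const (-(2 * Real.pi * t * Complex.I))
    have h4 : (fun v : ℝ => ee (-(v * t)) / (-(2 * Real.pi * t * Complex.I))) =
        fun v : ℝ => Complex.exp (-(2 * Real.pi * t * Complex.I) * (v : ℂ)) /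
          (-(2 * Real.pi * t * Complex.I)) := by
      funext v
      unfold ee
      congr 2
      push_cast
      ring
    rw [h4]
    have h5 : ee (-(v * t)) = Complex.exp (-(2 * Real.pi * t * Complex.I) * (v : ℂ)) *
        (-(2 * Real.pi * t * Complex.I)) / (-(2 * Real.pi * t * Complex.I)) := by
      rw [mul_div_cancel_right₀ _ hc]
      unfold ee
      congr 1
      push_cast
      ring
    rw [h5]
    exact h3
  have h6 : kp h t = ee (-(0 * t)) / (-(2 * Real.pi * t * Complex.I)) -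
      ee (-(-h * t)) / (-(2 * Real.pi * t * Complex.I)) := by
    unfold kp
    exact intervalIntegral.integral_eq_sub_of_hasDerivAt (fun v _ => hd v)
      ((kap_cont t).intervalIntegrable _ _)
  rw [h6, ← sub_div, norm_div]
  have h7 : ‖(-(2 * Real.pi * t * Complex.I) : ℂ)‖ = 2 * Real.pi * |t| := by
    rw [norm_neg, norm_mul, norm_mul, norm_mul, Complex.norm_I, Complex.norm_real,
      Complex.norm_real, Real.norm_eq_abs, Real.norm_eq_abs, abs_of_pos Real.pi_pos]
    simp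
  have h8 : ‖ee (-(0 * t)) - ee (-(-h * t))‖ ≤ 2 := by
    refine (norm_sub_le _ _).trans ?_
    rw [Pool.Agent.H91.PK.LSa_norm_ee, Pool.Agent.H91.PK.LSa_norm_ee]
    norm_num
  have ht' : 0 < |t| := abs_pos.2 ht
  rw [h7]
  refine (div_le_div_of_nonneg_right h8 (by positivity)).trans ?_
  rw [div_le_div_iff₀ (by positivity) (by positivity)]
  nlinarith [Real.pi_gt_three]

private theorem kap_sub_one (s : ℝ) : ‖ee s - 1‖ ≤ 2 * Real.pi * |s| := by
  have h1 := Real.norm_exp_I_mul_ofReal_sub_one_le (x := 2 * Real.pi * s)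
  have h2 : ee s = Complex.exp (Complex.I * ((2 * Real.pi * s : ℝ) : ℂ)) := by
    unfold ee
    congr 1
    push_cast
    ring
  rw [h2]
  refine h1.trans ?_
  rw [Real.norm_eq_abs, abs_mul, abs_of_pos (by positivity : (0 : ℝ) < 2 * Real.pi)]

theorem kp_sub (h t : ℝ) (hh : 0 ≤ h) : ‖kp h t - h‖ ≤ 4 * |t| * h ^ 2 := by
  have h1 : kp h t - h = ∫ v in (-h)..0, (ee (-(v * t)) - 1) := by
    rw [intervalIntegral.integral_sub ((kap_cont t).intervalIntegrable _ _)
      (continuous_const.intervalIntegrable _ _), intervalIntegral.integral_const]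
    unfold kp
    simp
  rw [h1]
  have h2 : ‖∫ v in (-h)..0, (ee (-(v * t)) - 1)‖ ≤
      ∫ v in (-h)..0, (2 * Real.pi * |t|) * (-v) := by
    refine intervalIntegral.norm_integral_le_of_norm_le (by linarith) ?_ ?_
    · filter_upwards with v hv
      refine (kap_sub_one _).trans (le_of_eq ?_)
      rw [abs_neg, abs_mul, abs_of_nonpos hv.2]
      ring
    · exact (continuous_const.mul continuous_neg).intervalIntegrable _ _
  refine h2.trans ?_
  rw [intervalIntegral.integral_const_mul, intervalIntegral.integral_neg, integral_id]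
  have h3 : 0 ≤ |t| * h ^ 2 := by positivity
  nlinarith [Real.pi_lt_four]

private theorem kap_ind (c h u : ℝ) (a : ℂ) :
    (if u < c ∧ c ≤ u + h then a else 0) = (Set.Ico (c - h) c).indicator (fun _ => a) u := by
  by_cases h1 : u < c ∧ c ≤ u + h
  · rw [if_pos h1, Set.indicator_of_mem]
    exact ⟨by linarith [h1.2], h1.1⟩
  · rw [if_neg h1, Set.indicator_of_notMem]
    intro h2
    exact h1 ⟨h2.2, by linarith [h2.1]⟩

private theorem kap_gw (f : ℕ → ℂ) (N : ℕ) (hs hl H H1 u : ℝ) :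
    Gw f N hs hl H H1 u = ∑ n ∈ Icc 1 N,
      ((Set.Ico (Real.log n - hs) (Real.log n)).indicator (fun _ => f n * (1 / H : ℝ)) u -
        (Set.Ico (Real.log n - hl) (Real.log n)).indicator (fun _ => f n * (1 / H1 : ℝ)) u) := by
  unfold Gw
  refine sum_congr rfl fun n _ => ?_
  rw [← kap_ind, ← kap_ind]
  push_cast
  split_ifs <;> simp [mul_sub]

private theorem kap_mem (f : ℕ → ℂ) (N : ℕ) (hs hl H H1 : ℝ) (p : ENNReal) :
    MemLp (Gw f N hs hl H H1) p := by
  have h1 : Gw f N hs hl H H1 = fun u => ∑ n ∈ Icc 1 N,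
      ((Set.Ico (Real.log n - hs) (Real.log n)).indicator (fun _ => f n * (1 / H : ℝ)) u -
        (Set.Ico (Real.log n - hl) (Real.log n)).indicator (fun _ => f n * (1 / H1 : ℝ)) u) :=
    funext fun u => kap_gw f N hs hl H H1 u
  rw [h1]
  refine memLp_finsetSum _ fun n _ => ?_
  refine MemLp.sub ?_ ?_
  · exact memLp_indicator_const p measurableSet_Ico _ (Or.inr (by simp))
  · exact memLp_indicator_const p measurableSet_Ico _ (Or.inr (by simp))

/-- `Gw` is bounded with compact support -/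
theorem gw_L1 (f : ℕ → ℂ) (N : ℕ) (hs hl H H1 : ℝ) (h1 : 0 ≤ hs) (h2 : 0 ≤ hl) :
    Integrable (Gw f N hs hl H H1) ∧ MemLp (Gw f N hs hl H H1) 2 := by
  have _ := h1
  have _ := h2
  exact ⟨memLp_one_iff_integrable.1 (kap_mem f N hs hl H H1 1), kap_mem f N hs hl H H1 2⟩

private theorem kap_int (c h t : ℝ) (a : ℂ) (hh : 0 ≤ h) :
    ∫ u, (Set.Ico (c - h) c).indicator (fun _ => a) u * ee (-(u * t)) =
      a * (ee (-(c * t)) * kp h t) := by
  have h1 : (fun u => (Set.Ico (c - h) c).indicator (fun _ => a) u * ee (-(u * t))) =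
      (Set.Ico (c - h) c).indicator fun u => a * ee (-(u * t)) := by
    funext u
    by_cases hu : u ∈ Set.Ico (c - h) c
    · rw [Set.indicator_of_mem hu, Set.indicator_of_mem hu]
    · rw [Set.indicator_of_notMem hu, Set.indicator_of_notMem hu, zero_mul]
  rw [h1, integral_indicator measurableSet_Ico, integral_Ico_eq_integral_Ioo,
    ← integral_Ioc_eq_integral_Ioo, ← intervalIntegral.integral_of_le (by linarith),
    intervalIntegral.integral_const_mul]
  congr 1
  unfold kp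
  have h2 : ∫ u in (c - h)..c, ee (-(u * t)) = ∫ v in (-h)..0, ee (-((v + c) * t)) := by
    rw [intervalIntegral.integral_comp_add_right (fun x => ee (-(x * t))) c]
    congr 1 <;> ring
  rw [h2, ← intervalIntegral.integral_const_mul]
  refine intervalIntegral.integral_congr fun v _ => ?_
  show ee (-((v + c) * t)) = ee (-(c * t)) * ee (-(v * t))
  rw [← Pool.Agent.H91.PK.LSa_ee_add]
  congr 1
  ring

private theorem kap_integrable (c h t : ℝ) (a : ℂ) :
    Integrable fun u => (Set.Ico (c - h) c).indicator (fun _ => a) u * ee (-(u * t)) := by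
  have h1 : Integrable fun u => (Set.Ico (c - h) c).indicator (fun _ => a) u :=
    memLp_one_iff_integrable.1 (memLp_indicator_const 1 measurableSet_Ico _ (Or.inr (by simp)))
  refine h1.mul_bdd (c := 1) (kap_cont t).aestronglyMeasurable ?_
  filter_upwards with u
  exact (Pool.Agent.H91.PK.LSa_norm_ee _).le

/-- the Fourier transform of `Gw` -/
theorem gw_four (f : ℕ → ℂ) (N : ℕ) (hs hl H H1 t : ℝ) (h1 : 0 ≤ hs) (h2 : 0 ≤ hl) :
    ∫ u, Gw f N hs hl H H1 u * ee (-(u * t)) = DP f N (-t) * (kp hs t / H - kp hl t / H1) := by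
  have h3 : (fun u => Gw f N hs hl H H1 u * ee (-(u * t))) = fun u => ∑ n ∈ Icc 1 N,
      ((Set.Ico (Real.log n - hs) (Real.log n)).indicator (fun _ => f n * (1 / H : ℝ)) u *
          ee (-(u * t)) -
        (Set.Ico (Real.log n - hl) (Real.log n)).indicator (fun _ => f n * (1 / H1 : ℝ)) u *
          ee (-(u * t))) := by
    funext u
    rw [kap_gw, sum_mul]
    exact sum_congr rfl fun n _ => sub_mul _ _ _
  rw [h3]
  have h5 : ∀ n ∈ Icc 1 N, Integrable fun u : ℝ =>
      ((Set.Ico (Real.log n - hs) (Real.log n)).indicator (fun _ => f n * (1 / H : ℝ)) u *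
          ee (-(u * t)) -
        (Set.Ico (Real.log n - hl) (Real.log n)).indicator (fun _ => f n * (1 / H1 : ℝ)) u *
          ee (-(u * t))) := fun n _ => (kap_integrable _ _ _ _).sub (kap_integrable _ _ _ _)
  rw [integral_finsetSum _ h5]
  unfold DP
  rw [sum_mul]
  refine sum_congr rfl fun n _ => ?_
  rw [integral_sub (kap_integrable _ _ _ _) (kap_integrable _ _ _ _), kap_int _ _ _ _ h1,
    kap_int _ _ _ _ h2]
  have h4 : -(Real.log n * t) = -t * Real.log n := by ring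
  rw [h4]
  push_cast
  ring

end Pool.Agent.H88.PSI

end

section

/-!
# MID VkPr: prime sums in classes (from the hypothesis `VKp`)

Proof.  `VKp` with `K + 3`, `B = C' + 1`, `e0 = e1/2` at `x = N^2` (`log x = 2L`, `x^e0 = N^e1`, `|t| ≤ N^3 ≤ x^2`, `log N ^K' ≤ |t|` must imply
`log x ^ K1 ≤ |t|`: take `K' = 2 K1` or `K1 + 1`... for `N` large: `(2L)^K1 ≤ L^(K1+1)`).  Let `S(z) = ∑_{n ≤ z, n ≡ l (d)} Λ(n) ee(∓t log n)`: `‖S(z)‖ ≤ 2P/(2L)^(K+3)` for `P ≤ z ≤ 2P`.
Abel summation with the monotone weight `1/log n` on `(P, 2P]`: `‖∑_{P < n ≤ 2P, n ≡ l} Λ(n)/log n ee(..)‖ ≤ 3 max ‖S‖/log P`.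
The prime powers `n = q^j`, `j ≥ 2` in `(P, 2P]`: at most `√(2P) log(2P)/log 2`-many (`q ≤ √(2P)`), weight `Λ/log ≤ 1`: `≤ P/(2 L^K)` since `P ≥ N^e1`.
For primes `Λ(p)/log p = 1`.
-/

set_option autoImplicit false

namespace Pool.Agent.H53.MID

open Finset
open Pool.Agent.H91.PK (ee)
open Pool.Agent.H91.EHA (Lam)
open Pool.Agent.H35.W (pb)

private theorem VkPr_norm_ee (t : ℝ) : ‖ee t‖ = 1 := by
  unfold ee
  have : (2 * Real.pi * t * Complex.I : ℂ) = ((2 * Real.pi * t : ℝ) : ℂ) * Complex.I := by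
    push_cast
    ring
  rw [this, Complex.norm_exp_ofReal_mul_I]

/-- Abel summation with a decreasing weight -/
private theorem VkPr_abel (a : ℕ → ℂ) (w : ℕ → ℝ) (P Q : ℕ) (hPQ : P + 1 ≤ Q) {M : ℝ}
    (hw : ∀ n, P + 1 ≤ n → n < Q → w (n + 1) ≤ w n) (hw0 : 0 ≤ w Q)
    (hS : ∀ z, P ≤ z → z ≤ Q → ‖∑ n ∈ Icc 1 z, a n‖ ≤ M) :
    ‖∑ n ∈ Ioc P Q, (w n : ℂ) * a n‖ ≤ 2 * M * w (P + 1) := by
  have hT : ∀ z, P ≤ z → z ≤ Q → ‖∑ n ∈ Ioc P z, a n‖ ≤ 2 * M := by
    intro z hz hz'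
    have h1 : ∑ n ∈ Icc 1 z, a n = ∑ n ∈ Icc 1 P, a n + ∑ n ∈ Ioc P z, a n := by
      have e1 : ∀ k : ℕ, Icc 1 k = Ioc 0 k := fun k => by
        ext x
        simp only [mem_Icc, mem_Ioc]
        omega
      rw [e1, e1, Finset.sum_Ioc_consecutive _ (Nat.zero_le _) hz]
    have h2 : ∑ n ∈ Ioc P z, a n = ∑ n ∈ Icc 1 z, a n - ∑ n ∈ Icc 1 P, a n := by
      rw [h1]
      ring
    rw [h2]
    have h3 := hS z hz hz'
    have h4 := hS P le_rfl (by omega)
    exact (norm_sub_le _ _).trans (by linarith)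
  have hM : 0 ≤ 2 * M := (norm_nonneg _).trans (hT P le_rfl (by omega))
  have key : ∀ q, P + 1 ≤ q → q ≤ Q →
      ‖∑ n ∈ Ioc P q, (w n : ℂ) * a n - (w q : ℂ) * ∑ n ∈ Ioc P q, a n‖ ≤
        2 * M * (w (P + 1) - w q) := by
    intro q hq
    induction q, hq using Nat.le_induction with
    | base =>
      intro _
      rw [Nat.Ioc_succ_singleton, Finset.sum_singleton, Finset.sum_singleton, sub_self, norm_zero,
        sub_self, mul_zero]
    | succ q hq ih =>
      intro hqQ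
      have h1 := ih (by omega)
      have e1 : Ioc P (q + 1) = insert (q + 1) (Ioc P q) := by
        ext x
        simp only [mem_Ioc, mem_insert]
        omega
      have e2 : q + 1 ∉ Ioc P q := by simp
      have h2 : ∑ n ∈ Ioc P (q + 1), (w n : ℂ) * a n - (w (q + 1) : ℂ) * ∑ n ∈ Ioc P (q + 1), a n =
          (∑ n ∈ Ioc P q, (w n : ℂ) * a n - (w q : ℂ) * ∑ n ∈ Ioc P q, a n) +
          ((w q - w (q + 1) : ℝ) : ℂ) * ∑ n ∈ Ioc P q, a n := by
        rw [e1, Finset.sum_insert e2, Finset.sum_insert e2]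
        push_cast
        ring
      rw [h2]
      have h3 : 0 ≤ w q - w (q + 1) := sub_nonneg.mpr (hw q hq (by omega))
      have h4 : ‖((w q - w (q + 1) : ℝ) : ℂ) * ∑ n ∈ Ioc P q, a n‖ ≤
          (w q - w (q + 1)) * (2 * M) := by
        rw [norm_mul, Complex.norm_real, Real.norm_eq_abs, abs_of_nonneg h3]
        exact mul_le_mul_of_nonneg_left (hT q (by omega) (by omega)) h3
      exact (norm_add_le _ _).trans (by linarith)
  have h1 := key Q hPQ le_rfl
  have h2 := hT Q (by omega) le_rfl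
  have h3 : ‖(w Q : ℂ) * ∑ n ∈ Ioc P Q, a n‖ ≤ w Q * (2 * M) := by
    rw [norm_mul, Complex.norm_real, Real.norm_eq_abs, abs_of_nonneg hw0]
    exact mul_le_mul_of_nonneg_left h2 hw0
  have h4 : ‖∑ n ∈ Ioc P Q, (w n : ℂ) * a n‖ ≤
      ‖∑ n ∈ Ioc P Q, (w n : ℂ) * a n - (w Q : ℂ) * ∑ n ∈ Ioc P Q, a n‖ +
      ‖(w Q : ℂ) * ∑ n ∈ Ioc P Q, a n‖ := by
    have h5 := norm_add_le (∑ n ∈ Ioc P Q, (w n : ℂ) * a n - (w Q : ℂ) * ∑ n ∈ Ioc P Q, a n)
      ((w Q : ℂ) * ∑ n ∈ Ioc P Q, a n)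
    rwa [sub_add_cancel] at h5
  linarith

/-- from von Mangoldt sums to prime sums -/
private theorem VkPr_primes (P d l : ℕ) (hP : 3 ≤ P) (t M : ℝ)
    (hS : ∀ z, P ≤ z → z ≤ 2 * P → ‖∑ n ∈ (Icc 1 z).filter (fun n => n % d = l % d),
      ((Lam n : ℝ) : ℂ) * ee (-(t * Real.log n))‖ ≤ M) :
    ‖∑ p ∈ (pb P).filter (fun p => p % d = l % d), ee (-(t * Real.log p))‖ ≤
      2 * M + 2 * Real.sqrt (2 * P) * Real.log (2 * P) := by
  classical
  set a : ℕ → ℂ := fun n => if n % d = l % d then ((Lam n : ℝ) : ℂ) * ee (-(t * Real.log n)) else 0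
    with ha
  set w : ℕ → ℝ := fun n => 1 / Real.log n with hw
  have hlog1 : ∀ n : ℕ, P + 1 ≤ n → 1 ≤ Real.log n := by
    intro n hn
    have h1 : Real.exp 1 ≤ (n : ℝ) := by
      have h2 : (3 : ℝ) ≤ n := by exact_mod_cast (by omega : 3 ≤ n)
      linarith [Real.exp_one_lt_d9]
    have h3 := Real.log_le_log (Real.exp_pos 1) h1
    rwa [Real.log_exp] at h3
  have hM : 0 ≤ M := (norm_nonneg _).trans (hS P le_rfl (by omega))
  have hA := VkPr_abel a w P (2 * P) (by omega) (M := M)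
    (fun n hn _ => by
      simp only [hw]
      apply one_div_le_one_div_of_le
      · linarith [hlog1 n hn]
      · apply Real.log_le_log
        · exact_mod_cast (by omega : 0 < n)
        · exact_mod_cast Nat.le_succ n)
    (by
      simp only [hw]
      have := hlog1 (2 * P) (by omega)
      positivity)
    (fun z hz hz' => by
      have h1 := hS z hz hz'
      rw [Finset.sum_filter] at h1
      exact h1)
  have hwP : w (P + 1) ≤ 1 := by
    simp only [hw]
    rw [div_le_one (by linarith [hlog1 (P + 1) le_rfl])]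
    exact hlog1 (P + 1) le_rfl
  have hA2 : ‖∑ n ∈ Ioc P (2 * P), (w n : ℂ) * a n‖ ≤ 2 * M := by
    refine hA.trans ?_
    have := mul_le_mul_of_nonneg_left hwP (show 0 ≤ 2 * M by linarith)
    linarith
  -- split into primes and non-primes
  have hsplit : ∑ n ∈ Ioc P (2 * P), (w n : ℂ) * a n =
      ∑ p ∈ (pb P).filter (fun p => p % d = l % d), ee (-(t * Real.log p)) +
      ∑ n ∈ (Ioc P (2 * P)).filter (fun n => ¬ n.Prime), (w n : ℂ) * a n := by
    rw [← Finset.sum_filter_add_sum_filter_not (Ioc P (2 * P)) Nat.Prime]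
    congr 1
    rw [Finset.sum_filter (s := pb P)]
    apply Finset.sum_congr rfl
    intro p hp
    rw [Finset.mem_filter, mem_Ioc] at hp
    simp only [ha, hw]
    by_cases h1 : p % d = l % d
    · rw [if_pos h1, if_pos h1]
      have h2 : Lam p = Real.log p := by
        unfold Lam
        exact ArithmeticFunction.vonMangoldt_apply_prime hp.2
      have h3 := hlog1 p (by omega)
      have h4 : Real.log p ≠ 0 := by linarith
      rw [h2, ← mul_assoc, ← Complex.ofReal_mul, one_div, inv_mul_cancel₀ h4, Complex.ofReal_one,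
        one_mul]
    · rw [if_neg h1, if_neg h1, mul_zero]
  have hnp : ‖∑ n ∈ (Ioc P (2 * P)).filter (fun n => ¬ n.Prime), (w n : ℂ) * a n‖ ≤
      2 * Real.sqrt (2 * P) * Real.log (2 * P) := by
    have h0 : ∀ n : ℕ, 0 ≤ Lam n := fun n => by
      unfold Lam
      exact ArithmeticFunction.vonMangoldt_nonneg
    have h1 : ‖∑ n ∈ (Ioc P (2 * P)).filter (fun n => ¬ n.Prime), (w n : ℂ) * a n‖ ≤
        ∑ n ∈ (Ioc P (2 * P)).filter (fun n => ¬ n.Prime), Lam n := by
      apply norm_sum_le_of_le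
      intro n hn
      rw [Finset.mem_filter, mem_Ioc] at hn
      have h2 := hlog1 n (by omega)
      simp only [ha, hw]
      by_cases h3 : n % d = l % d
      · rw [if_pos h3, norm_mul, norm_mul, VkPr_norm_ee, mul_one, Complex.norm_real,
          Complex.norm_real, Real.norm_eq_abs, Real.norm_eq_abs, abs_of_nonneg (h0 n),
          abs_of_nonneg (by positivity)]
        have h4 : 1 / Real.log n ≤ 1 := by
          rw [div_le_one (by linarith)]
          exact h2
        have := mul_le_mul_of_nonneg_right h4 (h0 n)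
        linarith
      · rw [if_neg h3, mul_zero, norm_zero]
        exact h0 n
    have h2 : ∑ n ∈ (Ioc P (2 * P)).filter (fun n => ¬ n.Prime), Lam n ≤
        Chebyshev.psi ((2 * P : ℕ) : ℝ) - Chebyshev.theta ((2 * P : ℕ) : ℝ) := by
      rw [Chebyshev.psi_sub_theta_eq_sum_not_prime, Nat.floor_natCast]
      apply Finset.sum_le_sum_of_subset_of_nonneg
      · apply Finset.filter_subset_filter
        intro x hx
        rw [mem_Ioc] at hx ⊢
        omega
      · intro n _ _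
        exact h0 n
    have h3 := Chebyshev.psi_sub_theta_le (x := ((2 * P : ℕ) : ℝ)) (by exact_mod_cast (by omega : 1 ≤ 2 * P))
    push_cast at h2 h3
    linarith
  have hfin : ∑ p ∈ (pb P).filter (fun p => p % d = l % d), ee (-(t * Real.log p)) =
      ∑ n ∈ Ioc P (2 * P), (w n : ℂ) * a n -
      ∑ n ∈ (Ioc P (2 * P)).filter (fun n => ¬ n.Prime), (w n : ℂ) * a n := by
    rw [hsplit]
    ring
  rw [hfin]
  exact (norm_sub_le _ _).trans (by linarith)

theorem vk_pr (hVK : VKp) (K C' : ℕ) (e1 : ℝ) (he1 : 0 < e1) : ∃ K' N0 : ℕ, ∀ N : ℕ, N0 ≤ N →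
    ∀ (P d l : ℕ) (t : ℝ), (N : ℝ) ^ e1 ≤ P → P ≤ N → 1 ≤ d → (d : ℝ) ≤ Real.log N ^ C' →
    Real.log N ^ K' ≤ |t| → |t| ≤ (N : ℝ) ^ 3 →
    ‖∑ p ∈ (pb P).filter (fun p => p % d = l % d), ee (-(t * Real.log p))‖ ≤ P / Real.log N ^ K := by
  obtain ⟨K1, x0, hV⟩ := hVK (K + 1) C' (e1 / 2) (by linarith)
  have hlog : Filter.Tendsto (fun N : ℕ => Real.log N) Filter.atTop Filter.atTop :=
    Real.tendsto_log_atTop.comp tendsto_natCast_atTop_atTop
  have hsmall : ∀ᶠ N : ℕ in Filter.atTop, 12 * Real.log N ^ (K + 1) ≤ (N : ℝ) ^ (e1 / 2) := by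
    have h1 := isLittleO_log_rpow_rpow_atTop (s := e1 / 2) ((K + 1 : ℕ) : ℝ) (by linarith)
    have h2 := (h1.comp_tendsto tendsto_natCast_atTop_atTop).def (c := 1 / 12) (by norm_num)
    filter_upwards [h2, hlog.eventually_ge_atTop 1] with N hN hN1
    simp only [Function.comp_apply] at hN
    rw [Real.rpow_natCast, Real.norm_eq_abs, Real.norm_eq_abs, abs_of_nonneg (by positivity),
      abs_of_nonneg (by positivity)] at hN
    linarith
  have hbig : ∀ᶠ N : ℕ in Filter.atTop, (3 : ℝ) ≤ (N : ℝ) ^ e1 :=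
    ((tendsto_rpow_atTop he1).comp tendsto_natCast_atTop_atTop).eventually_ge_atTop 3
  obtain ⟨N0, hN0⟩ := Filter.eventually_atTop.mp (hsmall.and (hbig.and
    ((hlog.eventually_ge_atTop 4).and ((hlog.eventually_ge_atTop (2 ^ K1)).and
    (Filter.eventually_ge_atTop (max x0 2))))))
  refine ⟨K1 + 1, N0, ?_⟩
  intro N hN P d l t hP1 hP2 hd1 hd2 ht1 ht2
  obtain ⟨h12, h3, hL4, hLK, hNx⟩ := hN0 N hN
  have hN2 : 2 ≤ N := le_trans (le_max_right _ _) hNx
  have hNx0 : x0 ≤ N := le_trans (le_max_left _ _) hNx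
  set L : ℝ := Real.log N with hL
  have hNr : (2 : ℝ) ≤ N := by exact_mod_cast hN2
  have hN0' : (0 : ℝ) < N := by linarith
  have hPr3 : (3 : ℝ) ≤ P := h3.trans hP1
  have hP3 : 3 ≤ P := by exact_mod_cast hPr3
  have hPr0 : (0 : ℝ) < P := by linarith
  have hx : x0 ≤ N ^ 2 := hNx0.trans (Nat.le_self_pow (by norm_num) N)
  have hlogx : Real.log ((N ^ 2 : ℕ) : ℝ) = 2 * L := by
    rw [Nat.cast_pow, Real.log_pow]
    push_cast
    rfl
  have hxe : ((N ^ 2 : ℕ) : ℝ) ^ (e1 / 2) = (N : ℝ) ^ e1 := by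
    rw [Nat.cast_pow, ← Real.rpow_natCast, ← Real.rpow_mul hN0'.le]
    congr 1
    push_cast
    ring
  have hV2 := hV (N ^ 2) hx
  rw [hlogx, hxe] at hV2
  have hpow1 : L ^ C' ≤ (2 * L) ^ C' := pow_le_pow_left₀ (by linarith) (by linarith) C'
  have hpow2 : (2 * L) ^ K1 ≤ |t| := by
    calc (2 * L) ^ K1 = 2 ^ K1 * L ^ K1 := by rw [mul_pow]
      _ ≤ L * L ^ K1 := mul_le_mul_of_nonneg_right hLK (by positivity)
      _ = L ^ (K1 + 1) := by ring
      _ ≤ |t| := ht1
  have hpow3 : |t| ≤ (((N ^ 2 : ℕ) : ℝ)) ^ (2 : ℕ) := by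
    refine ht2.trans ?_
    rw [Nat.cast_pow, ← pow_mul]
    exact pow_le_pow_right₀ (by linarith) (by norm_num)
  have hS : ∀ z, P ≤ z → z ≤ 2 * P → ‖∑ n ∈ (Icc 1 z).filter (fun n => n % d = l % d),
      ((Lam n : ℝ) : ℂ) * ee (-(t * Real.log n))‖ ≤ 2 * P / (2 * L) ^ (K + 1) := by
    intro z hz hz'
    have hzr : (P : ℝ) ≤ z := by exact_mod_cast hz
    have hzr' : (z : ℝ) ≤ 2 * P := by exact_mod_cast hz'
    have hzx : z ≤ (N ^ 2) ^ 2 := by
      have h1 : z ≤ N ^ 2 := by nlinarith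
      exact h1.trans (Nat.le_self_pow (by norm_num) _)
    have h1 := hV2 d l z (-t) hd1 (hd2.trans hpow1) (hP1.trans hzr) hzx (by rwa [abs_neg])
      (by rwa [abs_neg])
    simp only [neg_mul] at h1
    refine h1.trans ?_
    exact div_le_div_of_nonneg_right hzr' (by positivity)
  have hmain := VkPr_primes P d l hP3 t _ hS
  refine hmain.trans ?_
  have hL0 : 0 < L := by linarith
  have hLK0 : 0 < L ^ K := by positivity
  have e1' : 2 * (2 * P / (2 * L) ^ (K + 1)) ≤ P / L ^ K / 2 := by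
    have h1 : (2 * L) ^ (K + 1) = 2 ^ K * (2 * L) * L ^ K := by
      rw [mul_pow]
      ring
    have h2 : 8 * L ^ K ≤ (2 * L) ^ (K + 1) := by
      rw [h1]
      have h3 : (1 : ℝ) ≤ 2 ^ K := one_le_pow₀ (by norm_num)
      have h4 : 8 ≤ 2 ^ K * (2 * L) := by nlinarith
      exact mul_le_mul_of_nonneg_right h4 hLK0.le
    have h5 : 2 * (2 * P / (2 * L) ^ (K + 1)) ≤ 4 * P / (8 * L ^ K) := by
      rw [← mul_div_assoc]
      have h6 : 2 * (2 * (P : ℝ)) = 4 * P := by ring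
      rw [h6]
      exact div_le_div_of_nonneg_left (by positivity) (by positivity) h2
    refine h5.trans (le_of_eq ?_)
    field_simp
    ring
  have e2' : 2 * Real.sqrt (2 * P) * Real.log (2 * P) ≤ P / L ^ K / 2 := by
    have hlog2P : Real.log (2 * P) ≤ 2 * L := by
      have h1 : (2 : ℝ) * P ≤ (N : ℝ) ^ 2 := by
        have : (P : ℝ) ≤ N := by exact_mod_cast hP2
        nlinarith
      have h2 := Real.log_le_log (by positivity) h1
      rw [Real.log_pow] at h2
      push_cast at h2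
      exact h2
    have hsq : Real.sqrt (2 * P) ≤ 3 / 2 * Real.sqrt P := by
      rw [Real.sqrt_le_left (by positivity), mul_pow, Real.sq_sqrt hPr0.le]
      linarith
    have hsP : (N : ℝ) ^ (e1 / 2) ≤ Real.sqrt P := by
      apply Real.le_sqrt_of_sq_le
      rw [← Real.rpow_natCast, ← Real.rpow_mul hN0'.le]
      have : e1 / 2 * ((2 : ℕ) : ℝ) = e1 := by push_cast; ring
      rw [this]
      exact hP1
    have hsP0 : 0 ≤ Real.sqrt P := Real.sqrt_nonneg _
    have hlog0 : 0 ≤ Real.log (2 * P) := Real.log_nonneg (by linarith)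
    have h1 : 2 * Real.sqrt (2 * P) * Real.log (2 * P) ≤ 2 * (3 / 2 * Real.sqrt P) * (2 * L) := by
      apply mul_le_mul (by linarith) hlog2P hlog0 (by positivity)
    have h2 : 12 * L ^ (K + 1) ≤ Real.sqrt P := h12.trans hsP
    rw [div_div, le_div_iff₀ (by positivity)]
    calc 2 * Real.sqrt (2 * P) * Real.log (2 * P) * (L ^ K * 2)
        ≤ 2 * (3 / 2 * Real.sqrt P) * (2 * L) * (L ^ K * 2) :=
          mul_le_mul_of_nonneg_right h1 (by positivity)
      _ = (12 * L ^ (K + 1)) * Real.sqrt P := by ring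
      _ ≤ Real.sqrt P * Real.sqrt P := mul_le_mul_of_nonneg_right h2 hsP0
      _ = P := Real.mul_self_sqrt hPr0.le
  linarith

end Pool.Agent.H53.MID

end

section

/-!
# PSI Conv: from windows of fixed length to logarithmic windows

`∑_{x ∈ [X, 2X)} |D(x)|^2 = ∫_X^{2X} |D(⌊x⌋)|^2 dx`; for real `x` and natural `H`: `n ∈ (⌊x⌋, ⌊x⌋ + H]` iff `x < n ≤ x + H`.  For
`X_i = X (1 + i/K) ≤ x < X_{i+1}` the window `(x, x + H]` is compared with `(x, x + H x/X_i] = (x, x e^{h_i}]`, `h_i = log(1 + H/X_i)` (`x < n ≤ x e^h` iff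
`log x < log n ≤ log x + h`): the difference is a sum over `(x + H, x + H x/X_i]`, of length `≤ H/K`, with `≤ H/K + 1 ≤ 2 H/K` integers; by
Cauchy-Schwarz and Fubini its mean square is `≤ (2H/K)(H/K) SS f N` (every `n` lies in the windows for `x` in a set of measure
`≤ 2 H/K`).  The same for `H1`.  Main part: substitution `u = log x`, `dx = e^u du ≤ 2 X du`.
-/

set_option autoImplicit false

namespace Pool.Agent.H88.PSI

open Finset MeasureTheory

/-- the sum over a real window -/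
private noncomputable def convW (f : ℕ → ℂ) (N : ℕ) (s e : ℝ) : ℂ :=
  ∑ n ∈ Icc 1 N, if s < (n : ℝ) ∧ (n : ℝ) ≤ e then f n else 0

private noncomputable def convP (f : ℕ → ℂ) (N : ℕ) (a b y : ℝ) : ℝ :=
  ∑ n ∈ Icc 1 N, (Set.Ico ((n : ℝ) - a - b) ((n : ℝ) - a)).indicator (fun _ => ‖f n‖ ^ 2) y

private theorem convP_nonneg (f : ℕ → ℂ) (N : ℕ) (a b y : ℝ) : 0 ≤ convP f N a b y :=
  sum_nonneg fun n _ => Set.indicator_nonneg (fun _ _ => by positivity) _

private theorem conv_card (N : ℕ) (a b : ℝ) (ha : 0 ≤ a) (hab : a ≤ b) :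
    (((Icc 1 N).filter fun n : ℕ => a < (n : ℝ) ∧ (n : ℝ) ≤ b).card : ℝ) ≤ b - a + 1 := by
  have h1 : ((Icc 1 N).filter fun n : ℕ => a < (n : ℝ) ∧ (n : ℝ) ≤ b) ⊆ Ioc ⌊a⌋₊ ⌊b⌋₊ := by
    intro n hn
    rw [mem_filter] at hn
    rw [mem_Ioc]
    exact ⟨(Nat.floor_lt ha).2 hn.2.1, Nat.le_floor hn.2.2⟩
  have h2 := card_le_card h1
  rw [Nat.card_Ioc] at h2
  have h3 : ⌊a⌋₊ ≤ ⌊b⌋₊ := Nat.floor_le_floor hab
  have h4 : ((⌊b⌋₊ - ⌊a⌋₊ : ℕ) : ℝ) = (⌊b⌋₊ : ℝ) - ⌊a⌋₊ := Nat.cast_sub h3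
  have h5 : (⌊b⌋₊ : ℝ) ≤ b := Nat.floor_le (ha.trans hab)
  have h6 : a < ⌊a⌋₊ + 1 := Nat.lt_floor_add_one a
  have h7 : (((Icc 1 N).filter fun n : ℕ => a < (n : ℝ) ∧ (n : ℝ) ≤ b).card : ℝ) ≤
      ((⌊b⌋₊ - ⌊a⌋₊ : ℕ) : ℝ) := by exact_mod_cast h2
  linarith

private theorem conv_diff (f : ℕ → ℂ) (N : ℕ) (K H c y : ℝ) (hK : 1 ≤ K) (hH : 0 ≤ H) (hc : 0 < c)
    (hy : c ≤ y) (hy2 : y ≤ c * (1 + 1 / K)) :
    ‖convW f N y (y + H * y / c) - convW f N y (y + H)‖ ^ 2 ≤
      (H / K + 1) * convP f N H (H / K) y := by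
  have hy0 : 0 < y := by linarith
  have hK0 : 0 < K := by linarith
  have hle : y + H ≤ y + H * y / c := by
    have : H ≤ H * y / c := by
      rw [le_div_iff₀ hc]
      exact mul_le_mul_of_nonneg_left hy hH
    linarith
  have hle2 : H * y / c ≤ H + H / K := by
    rw [div_le_iff₀ hc]
    have h1 : H * y ≤ H * (c * (1 + 1 / K)) := mul_le_mul_of_nonneg_left hy2 hH
    have h2 : H * (c * (1 + 1 / K)) = (H + H / K) * c := by ring
    linarith
  set S := (Icc 1 N).filter fun n : ℕ => y + H < (n : ℝ) ∧ (n : ℝ) ≤ y + H * y / c with hS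
  have h1 : convW f N y (y + H * y / c) - convW f N y (y + H) = ∑ n ∈ S, f n := by
    unfold convW
    rw [← sum_sub_distrib, hS, sum_filter]
    refine sum_congr rfl fun n _ => ?_
    by_cases a1 : (n : ℝ) ≤ y
    · rw [if_neg (fun h => absurd h.1 (not_lt.2 a1)), if_neg (fun h => absurd h.1 (not_lt.2 a1)),
        if_neg (fun h => absurd h.1 (not_lt.2 (by linarith))), sub_zero]
    · have a2 : y < (n : ℝ) := not_le.1 a1
      by_cases a3 : (n : ℝ) ≤ y + H
      · rw [if_pos ⟨a2, a3.trans hle⟩, if_pos ⟨a2, a3⟩, if_neg (fun h => absurd h.1 (not_lt.2 a3)),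
          sub_self]
      · by_cases a4 : (n : ℝ) ≤ y + H * y / c
        · rw [if_pos ⟨a2, a4⟩, if_neg (fun h => a3 h.2), if_pos ⟨not_le.1 a3, a4⟩, sub_zero]
        · rw [if_neg (fun h => a4 h.2), if_neg (fun h => a3 h.2), if_neg (fun h => a4 h.2),
            sub_zero]
  have h2 : ‖∑ n ∈ S, f n‖ ^ 2 ≤ (S.card : ℝ) * ∑ n ∈ S, ‖f n‖ ^ 2 :=
    (pow_le_pow_left₀ (norm_nonneg _) (norm_sum_le _ _) 2).trans sq_sum_le_card_mul_sum_sq
  have h3 : (S.card : ℝ) ≤ H / K + 1 := by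
    refine (conv_card N (y + H) (y + H * y / c) (by linarith) hle).trans ?_
    linarith
  have h4 : ∑ n ∈ S, ‖f n‖ ^ 2 ≤ convP f N H (H / K) y := by
    unfold convP
    rw [hS, sum_filter]
    refine sum_le_sum fun n _ => ?_
    split_ifs with a1
    · rw [Set.indicator_of_mem]
      exact ⟨by linarith [a1.2], by linarith [a1.1]⟩
    · exact Set.indicator_nonneg (fun _ _ => by positivity) _
  rw [h1]
  refine h2.trans (mul_le_mul h3 h4 (sum_nonneg fun _ _ => by positivity) ?_)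
  positivity

private theorem conv_W (f : ℕ → ℂ) (N H x : ℕ) (y : ℝ) (hy : (x : ℝ) ≤ y) (hy2 : y < x + 1)
    (hN : x + H ≤ N) : W f H x = convW f N y (y + H) := by
  unfold W convW
  rw [← sum_filter]
  refine sum_congr ?_ fun _ _ => rfl
  ext n
  rw [mem_Ioc, mem_filter, mem_Icc]
  constructor
  · rintro ⟨h1, h2⟩
    have h1' : (x : ℝ) + 1 ≤ n := by exact_mod_cast h1
    have h2' : (n : ℝ) ≤ x + H := by exact_mod_cast h2
    exact ⟨⟨by omega, by omega⟩, by linarith, by linarith⟩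
  · rintro ⟨⟨h1, h2⟩, h3, h4⟩
    constructor
    · by_contra h5
      have h6 : (n : ℝ) ≤ x := by exact_mod_cast not_lt.1 h5
      linarith
    · by_contra h5
      have h6 : (x : ℝ) + H + 1 ≤ n := by exact_mod_cast not_le.1 h5
      linarith

private theorem conv_G (f : ℕ → ℂ) (N : ℕ) (H H1 c y : ℝ) (hH : 0 ≤ H) (hH1 : 0 ≤ H1) (hc : 0 < c)
    (hy : 0 < y) : Gw f N (Real.log (1 + H / c)) (Real.log (1 + H1 / c)) H H1 (Real.log y) =
      convW f N y (y + H * y / c) / H - convW f N y (y + H1 * y / c) / H1 := by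
  have key : ∀ (h : ℝ), 0 ≤ h → ∀ n ∈ Icc 1 N, (Real.log y < Real.log (n : ℝ) ∧
      Real.log (n : ℝ) ≤ Real.log y + Real.log (1 + h / c)) ↔
      (y < (n : ℝ) ∧ (n : ℝ) ≤ y + h * y / c) := by
    intro h hh n hn
    have hn0 : (0 : ℝ) < n := by
      rw [mem_Icc] at hn
      exact_mod_cast hn.1
    have hp : 0 < 1 + h / c := by positivity
    rw [Real.log_lt_log_iff hy hn0, ← Real.log_mul hy.ne' hp.ne',
      Real.log_le_log_iff hn0 (by positivity)]
    have e : y * (1 + h / c) = y + h * y / c := by ring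
    rw [e]
  unfold Gw convW
  rw [sum_div, sum_div, ← sum_sub_distrib]
  refine sum_congr rfl fun n hn => ?_
  have k1 := key H hH n hn
  have k2 := key H1 hH1 n hn
  by_cases a1 : y < (n : ℝ) ∧ (n : ℝ) ≤ y + H * y / c
  · by_cases a2 : y < (n : ℝ) ∧ (n : ℝ) ≤ y + H1 * y / c
    · rw [if_pos (k1.2 a1), if_pos (k2.2 a2), if_pos a1, if_pos a2]
      push_cast
      ring
    · rw [if_pos (k1.2 a1), if_neg (fun h => a2 (k2.1 h)), if_pos a1, if_neg a2]
      push_cast
      ring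
  · by_cases a2 : y < (n : ℝ) ∧ (n : ℝ) ≤ y + H1 * y / c
    · rw [if_neg (fun h => a1 (k1.1 h)), if_pos (k2.2 a2), if_neg a1, if_pos a2]
      push_cast
      ring
    · rw [if_neg (fun h => a1 (k1.1 h)), if_neg (fun h => a2 (k2.1 h)), if_neg a1, if_neg a2]
      push_cast
      ring

private theorem conv_sq (a b : ℂ) : ‖a + b‖ ^ 2 ≤ 2 * ‖a‖ ^ 2 + 2 * ‖b‖ ^ 2 := by
  have h1 := pow_le_pow_left₀ (norm_nonneg _) (norm_add_le a b) 2
  nlinarith [sq_nonneg (‖a‖ - ‖b‖)]

private theorem conv_scale {K H : ℝ} {d : ℂ} {P : ℝ} (hK : 1 ≤ K) (hH : K ≤ H) (hP : 0 ≤ P)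
    (h : ‖d‖ ^ 2 ≤ (H / K + 1) * P) : ‖d / (H : ℂ)‖ ^ 2 ≤ 2 / (H * K) * P := by
  have pK : 0 < K := by linarith
  have pH : 0 < H := by linarith
  rw [norm_div, Complex.norm_real, Real.norm_eq_abs, abs_of_pos pH, div_pow,
    div_le_iff₀ (by positivity)]
  have h1 : 1 ≤ H / K := by rwa [le_div_iff₀ pK, one_mul]
  have h2 : (H / K + 1) * P ≤ (2 * (H / K)) * P := mul_le_mul_of_nonneg_right (by linarith) hP
  have h3 : 2 / (H * K) * P * H ^ 2 = 2 * (H / K) * P := by field_simp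
  rw [h3]
  exact h.trans h2

private theorem conv_point (f : ℕ → ℂ) (N X H H1 x : ℕ) (K c y : ℝ) (hK : 1 ≤ K) (hH : K ≤ H)
    (hH1 : H ≤ H1) (hH2 : H1 ≤ X) (hN : 4 * X ≤ N) (hx : x < 2 * X) (h1 : (x : ℝ) ≤ y)
    (h2 : y < x + 1) (hc : 0 < c) (hy : c ≤ y) (hy2 : y ≤ c * (1 + 1 / K)) :
    ‖D f H H1 x‖ ^ 2 ≤
      2 * ‖Gw f N (Real.log (1 + H / c)) (Real.log (1 + H1 / c)) H H1 (Real.log y)‖ ^ 2 +
        (8 / (H * K) * convP f N H (H / K) y + 8 / (H1 * K) * convP f N H1 (H1 / K) y) := by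
  have pH : (0 : ℝ) ≤ H := Nat.cast_nonneg H
  have pH1 : (0 : ℝ) ≤ H1 := Nat.cast_nonneg H1
  have hHH : (H : ℝ) ≤ H1 := by exact_mod_cast hH1
  have hy0 : 0 < y := by linarith
  have e1 := conv_G f N H H1 c y pH pH1 hc hy0
  have e2 := conv_W f N H x y h1 h2 (by omega)
  have e3 := conv_W f N H1 x y h1 h2 (by omega)
  have d1 := conv_scale hK hH (convP_nonneg _ _ _ _ _) (conv_diff f N K H c y hK pH hc hy hy2)
  have d2 := conv_scale hK (hH.trans hHH) (convP_nonneg _ _ _ _ _)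
    (conv_diff f N K H1 c y hK pH1 hc hy hy2)
  have e4 : D f H H1 x = Gw f N (Real.log (1 + H / c)) (Real.log (1 + H1 / c)) H H1 (Real.log y) +
      (-((convW f N y (y + H * y / c) - convW f N y (y + H)) / ((H : ℝ) : ℂ)) +
        (convW f N y (y + H1 * y / c) - convW f N y (y + H1)) / ((H1 : ℝ) : ℂ)) := by
    rw [e1]
    unfold D
    rw [e2, e3]
    push_cast
    ring
  rw [e4]
  refine (conv_sq _ _).trans ?_
  have s1 := conv_sq (-((convW f N y (y + H * y / c) - convW f N y (y + H)) / ((H : ℝ) : ℂ)))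
    ((convW f N y (y + H1 * y / c) - convW f N y (y + H1)) / ((H1 : ℝ) : ℂ))
  rw [norm_neg] at s1
  have s2 : 8 / ((H : ℝ) * K) * convP f N H (H / K) y = 4 * (2 / (H * K) * convP f N H (H / K) y) :=
    by ring
  have s3 : 8 / ((H1 : ℝ) * K) * convP f N H1 (H1 / K) y =
    4 * (2 / (H1 * K) * convP f N H1 (H1 / K) y) := by ring
  rw [s2, s3]
  linarith

private theorem convP_int (f : ℕ → ℂ) (N : ℕ) (a b : ℝ) (hb : 0 ≤ b) :
    Integrable (convP f N a b) ∧ ∫ y, convP f N a b y = b * SS f N := by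
  have h1 : ∀ n ∈ Icc 1 N, Integrable fun y : ℝ =>
      (Set.Ico ((n : ℝ) - a - b) ((n : ℝ) - a)).indicator (fun _ => ‖f n‖ ^ 2) y := fun n _ =>
    memLp_one_iff_integrable.1 (memLp_indicator_const 1 measurableSet_Ico _ (Or.inr (by simp)))
  refine ⟨integrable_finsetSum _ h1, ?_⟩
  unfold convP SS
  rw [integral_finsetSum _ h1, mul_sum]
  refine sum_congr rfl fun n _ => ?_
  rw [integral_indicator_const _ measurableSet_Ico, smul_eq_mul]
  congr 1
  rw [Real.volume_real_Ico_of_le (by linarith)]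
  ring

/-- the substitution -/
private theorem conv_subst (g : ℝ → ℝ) (hg : Integrable g) (hg0 : ∀ u, 0 ≤ g u) (a b : ℝ)
    (ha : 0 < a) (hab : a ≤ b) :
    IntegrableOn (fun y => g (Real.log y)) (Set.Ico a b) ∧
      ∫ y in Set.Ico a b, g (Real.log y) ≤ b * ∫ u, g u := by
  have hb : 0 < b := by linarith
  have him : Real.exp '' Set.Ico (Real.log a) (Real.log b) = Set.Ico a b := by
    ext y
    constructor
    · rintro ⟨u, ⟨h1, h2⟩, rfl⟩
      exact ⟨(Real.log_le_iff_le_exp ha).1 h1, (Real.lt_log_iff_exp_lt hb).1 h2⟩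
    · rintro ⟨h1, h2⟩
      have hy : 0 < y := by linarith
      exact ⟨Real.log y, ⟨Real.log_le_log ha h1, Real.log_lt_log hy h2⟩, Real.exp_log hy⟩
  have hd : ∀ x ∈ Set.Ico (Real.log a) (Real.log b),
      HasDerivWithinAt Real.exp (Real.exp x) (Set.Ico (Real.log a) (Real.log b)) x :=
    fun x _ => (Real.hasDerivAt_exp x).hasDerivWithinAt
  have hinj : Set.InjOn Real.exp (Set.Ico (Real.log a) (Real.log b)) :=
    Real.exp_injective.injOn
  have hi : IntegrableOn (fun u => |Real.exp u| • g (Real.log (Real.exp u)))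
      (Set.Ico (Real.log a) (Real.log b)) := by
    have h1 : Integrable (fun u => g u) (volume.restrict (Set.Ico (Real.log a) (Real.log b))) :=
      hg.integrableOn
    have h2 := h1.bdd_mul (c := b) (f := fun u => |Real.exp u|)
      (Real.continuous_exp.abs.aestronglyMeasurable) (by
        filter_upwards [ae_restrict_mem measurableSet_Ico] with u hu
        rw [Real.norm_eq_abs, abs_abs, abs_of_pos (Real.exp_pos u)]
        exact ((Real.lt_log_iff_exp_lt hb).1 hu.2).le)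
    refine h2.congr ?_
    filter_upwards with u
    rw [Real.log_exp, smul_eq_mul]
  constructor
  · rw [← him, integrableOn_image_iff_integrableOn_abs_deriv_smul measurableSet_Ico hd hinj]
    exact hi
  · rw [← him, integral_image_eq_integral_abs_deriv_smul measurableSet_Ico hd hinj,
      ← integral_const_mul]
    refine (setIntegral_mono_on hi (hg.const_mul b).integrableOn measurableSet_Ico
      fun u hu => ?_).trans ?_
    · rw [Real.log_exp, smul_eq_mul, abs_of_pos (Real.exp_pos u)]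
      exact mul_le_mul_of_nonneg_right ((Real.lt_log_iff_exp_lt hb).1 hu.2).le (hg0 u)
    · refine setIntegral_le_integral (hg.const_mul b) ?_
      filter_upwards with u
      exact mul_nonneg hb.le (hg0 u)

theorem conv (f : ℕ → ℂ) (N X H H1 K : ℕ) (hX : 1 ≤ X) (hK : 1 ≤ K) (hH : K ≤ H) (hH1 : H ≤ H1)
    (hH2 : H1 ≤ X) (hN : 4 * X ≤ N) :
    ∑ x ∈ Ico X (2 * X), ‖D f H H1 x‖ ^ 2
      ≤ 100 * SS f N / (K : ℝ) ^ 2 + 8 * X * ∑ i ∈ range K,
        ∫ u, ‖Gw f N (Real.log (1 + H / (X * (1 + (i : ℝ) / K))))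
          (Real.log (1 + H1 / (X * (1 + (i : ℝ) / K)))) H H1 u‖ ^ 2 := by
  have pX : (0 : ℝ) < X := by exact_mod_cast hX
  have pK : (0 : ℝ) < K := by exact_mod_cast hK
  have hK1 : (1 : ℝ) ≤ K := by exact_mod_cast hK
  have hKH : (K : ℝ) ≤ H := by exact_mod_cast hH
  have hHH : (H : ℝ) ≤ H1 := by exact_mod_cast hH1
  have pH : (0 : ℝ) < H := by linarith
  have pH1 : (0 : ℝ) < H1 := by linarith
  set c : ℕ → ℝ := fun i => X * (1 + (i : ℝ) / K) with hcdef
  have cX : ∀ i, (X : ℝ) ≤ c i := by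
    intro i
    have : (0 : ℝ) ≤ (i : ℝ) / K := by positivity
    show (X : ℝ) ≤ X * (1 + (i : ℝ) / K)
    nlinarith
  have cpos : ∀ i, 0 < c i := fun i => lt_of_lt_of_le pX (cX i)
  have cstep : ∀ i, c (i + 1) = c i + X / K := by
    intro i
    simp only [hcdef]
    push_cast
    ring
  have cle : ∀ i ∈ range K, c (i + 1) ≤ 2 * X := by
    intro i hi
    rw [mem_range] at hi
    have h1 : ((i + 1 : ℕ) : ℝ) ≤ K := by exact_mod_cast hi
    have h2 : ((i + 1 : ℕ) : ℝ) / K ≤ 1 := by rwa [div_le_one pK]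
    show (X : ℝ) * (1 + ((i + 1 : ℕ) : ℝ) / K) ≤ 2 * X
    nlinarith
  set g : ℕ → ℝ → ℝ := fun i u => ‖Gw f N (Real.log (1 + H / c i))
          (Real.log (1 + H1 / c i)) H H1 u‖ ^ 2 with hgdef
  have hlog : ∀ (h : ℝ) (i : ℕ), 0 ≤ h → 0 ≤ Real.log (1 + h / c i) := by
    intro h i hh
    refine Real.log_nonneg ?_
    have : 0 ≤ h / c i := div_nonneg hh (cpos i).le
    linarith
  have hgi : ∀ i, Integrable (g i) := by
    intro i
    have h1 := (gw_L1 f N (Real.log (1 + H / c i)) (Real.log (1 + H1 / c i)) H H1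
      (hlog _ _ pH.le) (hlog _ _ pH1.le)).2
    exact (memLp_two_iff_integrable_sq_norm h1.1).1 h1
  have hg0 : ∀ i u, 0 ≤ g i u := fun i u => by
    simp only [hgdef]
    positivity
  set Q : ℝ → ℝ := fun y => (∑ i ∈ range K,
      (Set.Ico (c i) (c (i + 1))).indicator (fun y => 2 * g i (Real.log y)) y) +
      (8 / ((H : ℝ) * K) * convP f N H (H / K) y + 8 / ((H1 : ℝ) * K) * convP f N H1 (H1 / K) y)
    with hQ
  have hs : ∀ i, IntegrableOn (fun y => g i (Real.log y)) (Set.Ico (c i) (c (i + 1))) ∧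
      ∫ y in Set.Ico (c i) (c (i + 1)), g i (Real.log y) ≤ c (i + 1) * ∫ u, g i u := fun i =>
    conv_subst (g i) (hgi i) (hg0 i) _ _ (cpos i) (by
      rw [cstep]
      have : (0 : ℝ) ≤ X / K := by positivity
      linarith)
  have hi1 : ∀ i ∈ range K, Integrable fun y =>
      (Set.Ico (c i) (c (i + 1))).indicator (fun y => 2 * g i (Real.log y)) y := by
    intro i _
    rw [integrable_indicator_iff measurableSet_Ico]
    exact (hs i).1.const_mul 2
  have hP1 := convP_int f N H ((H : ℝ) / K) (by positivity)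
  have hP2 := convP_int f N H1 ((H1 : ℝ) / K) (by positivity)
  have hi2 : Integrable fun y => 8 / ((H : ℝ) * K) * convP f N H (H / K) y := hP1.1.const_mul _
  have hi3 : Integrable fun y => 8 / ((H1 : ℝ) * K) * convP f N H1 (H1 / K) y := hP2.1.const_mul _
  have hQi : Integrable Q := (integrable_finsetSum _ hi1).add (hi2.add hi3)
  have hQ0 : ∀ y, 0 ≤ Q y := by
    intro y
    simp only [hQ]
    have := convP_nonneg f N H ((H : ℝ) / K) y
    have := convP_nonneg f N H1 ((H1 : ℝ) / K) y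
    have : 0 ≤ ∑ i ∈ range K,
      (Set.Ico (c i) (c (i + 1))).indicator (fun y => 2 * g i (Real.log y)) y :=
      sum_nonneg fun i _ => Set.indicator_nonneg (fun y _ => mul_nonneg zero_le_two (hg0 i _)) _
    positivity
  -- the pointwise bound
  have hpt : ∀ x ∈ Ico X (2 * X), ∀ y ∈ Set.Ico (x : ℝ) (x + 1), ‖D f H H1 x‖ ^ 2 ≤ Q y := by
    intro x hx y hy
    rw [mem_Ico] at hx
    have hXx : (X : ℝ) ≤ x := by exact_mod_cast hx.1
    have hx2 : (x : ℝ) + 1 ≤ 2 * X := by exact_mod_cast hx.2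
    have hz0 : 0 ≤ (y / X - 1) * K := by
      refine mul_nonneg ?_ pK.le
      have : 1 ≤ y / X := by
        rw [le_div_iff₀ pX]
        linarith [hy.1]
      linarith
    set i := ⌊(y / X - 1) * K⌋₊ with hi
    have hi1 : (i : ℝ) ≤ (y / X - 1) * K := Nat.floor_le hz0
    have hi2 : (y / X - 1) * K < i + 1 := Nat.lt_floor_add_one _
    have hci : c i ≤ y := by
      have h1 : (i : ℝ) / K ≤ y / X - 1 := by rwa [div_le_iff₀ pK]
      have h2 : (X : ℝ) * (1 + (i : ℝ) / K) ≤ X * (y / X) :=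
        mul_le_mul_of_nonneg_left (by linarith) pX.le
      rwa [mul_div_cancel₀ _ pX.ne'] at h2
    have hci2 : y < c (i + 1) := by
      have h1 : y / X - 1 < ((i + 1 : ℕ) : ℝ) / K := by
        rw [lt_div_iff₀ pK]
        push_cast
        exact hi2
      have h2 : (X : ℝ) * (y / X) < X * (1 + ((i + 1 : ℕ) : ℝ) / K) :=
        mul_lt_mul_of_pos_left (by linarith) pX
      rwa [mul_div_cancel₀ _ pX.ne'] at h2
    have hiK : i < K := by
      have h1 : (y / X - 1) * K < K := by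
        have : y / X < 2 := by
          rw [div_lt_iff₀ pX]
          linarith [hy.2]
        nlinarith
      have h2 : (i : ℝ) < K := lt_of_le_of_lt hi1 h1
      exact_mod_cast h2
    have hy2 : y ≤ c i * (1 + 1 / (K : ℝ)) := by
      have h1 : y < c i + X / K := by rw [← cstep]; exact hci2
      have h2 : (X : ℝ) / K ≤ c i / K := div_le_div_of_nonneg_right (cX i) pK.le
      have h3 : c i * (1 + 1 / (K : ℝ)) = c i + c i / K := by ring
      rw [h3]
      linarith
    have h5 := conv_point f N X H H1 x (K : ℝ) (c i) y hK1 hKH hH1 hH2 hN hx.2 hy.1 hy.2 (cpos i)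
      hci hy2
    refine h5.trans ?_
    simp only [hQ]
    refine add_le_add ?_ le_rfl
    have h6 : 2 * ‖Gw f N (Real.log (1 + H / c i)) (Real.log (1 + H1 / c i)) H H1
        (Real.log y)‖ ^ 2 = (Set.Ico (c i) (c (i + 1))).indicator
          (fun y => 2 * g i (Real.log y)) y := by
      rw [Set.indicator_of_mem (show y ∈ Set.Ico (c i) (c (i + 1)) from ⟨hci, hci2⟩)]
    rw [h6]
    exact single_le_sum (f := fun i => (Set.Ico (c i) (c (i + 1))).indicator
      (fun y => 2 * g i (Real.log y)) y) (fun j _ => Set.indicator_nonneg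
        (fun y _ => mul_nonneg zero_le_two (hg0 j _)) _) (mem_range.2 hiK)
  -- integration
  have hx1 : ∀ x ∈ Ico X (2 * X), ‖D f H H1 x‖ ^ 2 ≤ ∫ y in Set.Ico (x : ℝ) (x + 1), Q y := by
    intro x hx
    have h1 : ∫ y in Set.Ico (x : ℝ) (x + 1), ‖D f H H1 x‖ ^ 2 = ‖D f H H1 x‖ ^ 2 := by
      rw [setIntegral_const, smul_eq_mul, Real.volume_real_Ico_of_le (by linarith)]
      ring
    rw [← h1]
    refine setIntegral_mono_on (integrableOn_const (by simp)) hQi.integrableOn measurableSet_Ico ?_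
    exact hpt x hx
  have hsum : ∑ x ∈ Ico X (2 * X), ‖D f H H1 x‖ ^ 2 ≤ ∫ y, Q y := by
    refine (sum_le_sum hx1).trans ?_
    rw [← integral_biUnion_finset _ (fun _ _ => measurableSet_Ico) ?_
      (fun _ _ => hQi.integrableOn)]
    · refine setIntegral_le_integral hQi ?_
      filter_upwards with y
      exact hQ0 y
    · intro a _ b _ hab
      rw [Function.onFun, Set.disjoint_left]
      intro y h1 h2
      rcases lt_or_gt_of_ne hab with h | h
      · have h3 : (a : ℝ) + 1 ≤ b := by exact_mod_cast h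
        linarith [h1.2, h2.1]
      · have h3 : (b : ℝ) + 1 ≤ a := by exact_mod_cast h
        linarith [h1.1, h2.2]
  refine hsum.trans ?_
  have hQint : ∫ y, Q y = (∑ i ∈ range K,
      ∫ y in Set.Ico (c i) (c (i + 1)), 2 * g i (Real.log y)) +
      (8 / ((H : ℝ) * K) * ((H : ℝ) / K * SS f N) +
        8 / ((H1 : ℝ) * K) * ((H1 : ℝ) / K * SS f N)) := by
    have e0 : ∫ y, Q y = (∫ y, ∑ i ∈ range K,
        (Set.Ico (c i) (c (i + 1))).indicator (fun y => 2 * g i (Real.log y)) y) +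
        ∫ y, (8 / ((H : ℝ) * K) * convP f N H (H / K) y +
          8 / ((H1 : ℝ) * K) * convP f N H1 (H1 / K) y) :=
      integral_add (integrable_finsetSum _ hi1) (hi2.add hi3)
    rw [e0, integral_finsetSum _ hi1, integral_add hi2 hi3, integral_const_mul, integral_const_mul,
      hP1.2, hP2.2]
    congr 1
    exact sum_congr rfl fun i _ => integral_indicator measurableSet_Ico
  rw [hQint]
  have hS : 0 ≤ SS f N := sum_nonneg fun _ _ => by positivity
  have h7 : ∑ i ∈ range K, ∫ y in Set.Ico (c i) (c (i + 1)), 2 * g i (Real.log y) ≤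
      8 * X * ∑ i ∈ range K, ∫ u, g i u := by
    rw [mul_sum]
    refine sum_le_sum fun i hi => ?_
    rw [integral_const_mul]
    have h8 := (hs i).2
    have h9 : 0 ≤ ∫ u, g i u := integral_nonneg (hg0 i)
    have h10 := mul_le_mul_of_nonneg_right (cle i hi) h9
    nlinarith [mul_nonneg pX.le h9]
  have h8 : 8 / ((H : ℝ) * K) * ((H : ℝ) / K * SS f N) +
        8 / ((H1 : ℝ) * K) * ((H1 : ℝ) / K * SS f N) = 16 * (SS f N / (K : ℝ) ^ 2) := by
    field_simp
    ring
  have h9 : 0 ≤ SS f N / (K : ℝ) ^ 2 := by positivity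
  have h10 : 100 * SS f N / (K : ℝ) ^ 2 = 100 * (SS f N / (K : ℝ) ^ 2) := by ring
  rw [h8, h10]
  have h11 : ∑ i ∈ range K, ∫ u, g i u = ∑ i ∈ range K,
        ∫ u, ‖Gw f N (Real.log (1 + H / (X * (1 + (i : ℝ) / K))))
          (Real.log (1 + H1 / (X * (1 + (i : ℝ) / K)))) H H1 u‖ ^ 2 := rfl
  rw [← h11]
  linarith

end Pool.Agent.H88.PSI

end
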