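import Pool.Agent.H43.PJ.M07
import Pool.Agent.H43.PJ.M42
import Pool.Agent.H43.PJ.M43

/-! The parts of this file: H76.TP.RamId, H91.TQ.Defs, H91.TQ.Ram, H88.PSI.Pars, H76.TP.SvA, H76.TP.SvB. -/

section

/-!
# TP RamId: Ramaré's identity

`∑_{j<J} Fp (bf y J) (2^j y) m = ∑_{p ∈ PY y z, p ∣ m} bf y J (m/p)` (`z = zz y J`; the sets `pb (2^j y)` partition the primes of `(y, z]`).
Let `m ≥ 1`.  If `rg y m = 0`: a prime `q ≤ y` divides `m`, so `q ∣ m/p` for every prime `p > y`, `p ∣ m`: all terms are `0`.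
If `rg y m = 1` then `rg y (m/p) = 1`, and with `ν = nu y J m`: for `p ∥ m` (`p ∤ m/p`): `nu (m/p) = ν - 1`, the term is `1/ν`; for `p² ∣ m`: `nu (m/p) = ν`, the term is
`1/(1+ν)`.  So the sum is `0` if `ν = 0`, and otherwise between `1 - #{p : p² ∣ m}·(1/ν - 1/(ν+1))` and `1`.
-/

set_option autoImplicit false

namespace Pool.Agent.H76.TP

open Finset
open Pool.Agent.H35.W (pb)
open Pool.Agent.H53.MID (Fp Bs)

private theorem RamId_rg_one {y k : ℕ} (h : ∀ p : ℕ, p.Prime → p ∣ k → y < p) : rg y k = 1 := by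
  unfold rg
  exact if_pos h

private theorem RamId_rg_zero {y k : ℕ} (h : ¬ ∀ p : ℕ, p.Prime → p ∣ k → y < p) : rg y k = 0 := by
  unfold rg
  exact if_neg h

private theorem RamId_rg_nonneg (y k : ℕ) : 0 ≤ rg y k := by
  by_cases h : ∀ p : ℕ, p.Prime → p ∣ k → y < p
  · rw [RamId_rg_one h]
    exact zero_le_one
  · rw [RamId_rg_zero h]

private theorem RamId_le_zz (y J : ℕ) : y ≤ zz y J := by
  unfold zz
  exact Nat.le_mul_of_pos_left _ (by positivity)

/-- the primes of `(y, z]` are partitioned -/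
private theorem RamId_sum (f : ℕ → ℝ) (y J m : ℕ) :
    ∑ j ∈ range J, Fp f (2 ^ j * y) m = ∑ p ∈ (PY y (zz y J)).filter (fun p => p ∣ m), f (m / p) := by
  induction J with
  | zero =>
    have h : PY y (zz y 0) = ∅ := by
      unfold PY zz
      rw [pow_zero, one_mul, Finset.Ioc_self, Finset.filter_empty]
    rw [h, Finset.range_zero, Finset.sum_empty, Finset.filter_empty, Finset.sum_empty]
  | succ J ih =>
    rw [Finset.sum_range_succ, ih]
    have h2 : zz y (J + 1) = 2 * zz y J := by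
      unfold zz
      ring
    have hle := RamId_le_zz y J
    have h3 : PY y (zz y (J + 1)) = PY y (zz y J) ∪ pb (2 ^ J * y) := by
      ext p
      unfold PY pb
      simp only [Finset.mem_union, Finset.mem_filter, Finset.mem_Ioc]
      rw [h2]
      have h4 : zz y J = 2 ^ J * y := rfl
      rw [← h4]
      constructor
      · rintro ⟨⟨h5, h6⟩, h7⟩
        by_cases h8 : p ≤ zz y J
        · exact Or.inl ⟨⟨h5, h8⟩, h7⟩
        · exact Or.inr ⟨⟨by omega, h6⟩, h7⟩
      · rintro (⟨⟨h5, h6⟩, h7⟩ | ⟨⟨h5, h6⟩, h7⟩)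
        · exact ⟨⟨h5, by omega⟩, h7⟩
        · exact ⟨⟨by omega, h6⟩, h7⟩
    have h4 : Disjoint ((PY y (zz y J)).filter (fun p => p ∣ m)) ((pb (2 ^ J * y)).filter (fun p => p ∣ m)) := by
      rw [Finset.disjoint_left]
      intro p hp hq
      unfold PY at hp
      unfold pb at hq
      rw [Finset.mem_filter, Finset.mem_filter, Finset.mem_Ioc] at hp hq
      have h5 : zz y J = 2 ^ J * y := rfl
      omega
    rw [h3, Finset.filter_union, Finset.sum_union h4]
    rfl

private theorem RamId_card {y J m : ℕ} (hm : 1 ≤ m) :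
    nu y J m = ((PY y (zz y J)).filter (fun p => p ∣ m)).card := by
  unfold nu
  congr 1
  ext p
  unfold PY
  simp only [Finset.mem_filter, Finset.mem_Ioc, Nat.mem_primeFactors]
  constructor
  · rintro ⟨⟨h1, h2, _⟩, h3, h4⟩
    exact ⟨⟨⟨h3, h4⟩, h1⟩, h2⟩
  · rintro ⟨⟨⟨h3, h4⟩, h1⟩, h2⟩
    exact ⟨⟨h1, h2, by omega⟩, h3, h4⟩

/-- the facts about one term -/
private theorem RamId_term {y J m p : ℕ} (hm : 1 ≤ m) (hr : ∀ q : ℕ, q.Prime → q ∣ m → y < q)
    (hp : p ∈ (PY y (zz y J)).filter (fun p => p ∣ m)) :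
    bf y J (m / p) ≤ 1 / (nu y J m : ℝ) ∧ 1 / (1 + (nu y J m : ℝ)) ≤ bf y J (m / p) ∧
      (¬ p ^ 2 ∣ m → bf y J (m / p) = 1 / (nu y J m : ℝ)) := by
  have hp' := hp
  unfold PY at hp'
  rw [Finset.mem_filter, Finset.mem_filter, Finset.mem_Ioc] at hp'
  obtain ⟨⟨⟨hp1, hp2⟩, hpp⟩, k, rfl⟩ := hp'
  have hk : p * k / p = k := Nat.mul_div_cancel_left _ hpp.pos
  rw [hk]
  have hk1 : 1 ≤ k := by
    rcases Nat.eq_zero_or_pos k with h | h
    · rw [h, mul_zero] at hm
      omega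
    · exact h
  have hrk : rg y k = 1 := RamId_rg_one fun q hq hqk => hr q hq (Dvd.dvd.mul_left hqk p)
  have hν1 : 1 ≤ nu y J (p * k) := by
    rw [RamId_card hm]
    exact Finset.card_pos.2 ⟨p, hp⟩
  have hle : nu y J k ≤ nu y J (p * k) := by
    rw [RamId_card hm, RamId_card hk1]
    apply Finset.card_le_card
    intro q hq
    rw [Finset.mem_filter] at hq ⊢
    exact ⟨hq.1, Dvd.dvd.mul_left hq.2 p⟩
  have hge : nu y J (p * k) ≤ nu y J k + 1 := by
    rw [RamId_card hm, RamId_card hk1]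
    have hsub : (PY y (zz y J)).filter (fun q => q ∣ p * k) ⊆
        insert p ((PY y (zz y J)).filter (fun q => q ∣ k)) := by
      intro q hq
      rw [Finset.mem_filter] at hq
      have hqp : q.Prime := by
        have h := hq.1
        unfold PY at h
        exact (Finset.mem_filter.1 h).2
      rcases (Nat.Prime.dvd_mul hqp).1 hq.2 with h | h
      · rw [(Nat.prime_dvd_prime_iff_eq hqp hpp).1 h]
        exact Finset.mem_insert_self _ _
      · exact Finset.mem_insert_of_mem (Finset.mem_filter.2 ⟨hq.1, h⟩)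
    exact (Finset.card_le_card hsub).trans (Finset.card_insert_le _ _)
  have hν0 : (0 : ℝ) < nu y J (p * k) := by exact_mod_cast hν1
  have hle' : (nu y J k : ℝ) ≤ nu y J (p * k) := by exact_mod_cast hle
  have hge' : (nu y J (p * k) : ℝ) ≤ 1 + nu y J k := by
    have h : ((nu y J (p * k) : ℕ) : ℝ) ≤ ((nu y J k + 1 : ℕ) : ℝ) := by exact_mod_cast hge
    push_cast at h
    linarith
  unfold bf
  rw [hrk]
  refine ⟨?_, ?_, ?_⟩
  · exact one_div_le_one_div_of_le hν0 hge'
  · exact one_div_le_one_div_of_le (by positivity) (by linarith)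
  · intro hsq
    have hpk : ¬ p ∣ k := by
      rintro ⟨l, rfl⟩
      exact hsq ⟨l, by ring⟩
    have hlt : nu y J k + 1 ≤ nu y J (p * k) := by
      rw [RamId_card hm, RamId_card hk1]
      apply Nat.succ_le_of_lt
      apply Finset.card_lt_card
      rw [Finset.ssubset_iff_of_subset]
      · refine ⟨p, hp, ?_⟩
        rw [Finset.mem_filter]
        exact fun h => hpk h.2
      · intro q hq
        rw [Finset.mem_filter] at hq ⊢
        exact ⟨hq.1, Dvd.dvd.mul_left hq.2 p⟩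
    have heq : nu y J (p * k) = nu y J k + 1 := le_antisymm hge hlt
    rw [heq]
    push_cast
    rw [add_comm]

/-- if `m` is not rough all terms vanish -/
private theorem RamId_zero {y J m : ℕ} (hr : ¬ ∀ q : ℕ, q.Prime → q ∣ m → y < q) : AA y J m = 0 := by
  have h := hr
  push Not at h
  obtain ⟨q, hq, hqm, hqy⟩ := h
  unfold AA
  rw [RamId_sum, RamId_rg_zero hr, zero_sub, neg_eq_zero]
  apply Finset.sum_eq_zero
  intro p hp
  unfold PY at hp
  rw [Finset.mem_filter, Finset.mem_filter, Finset.mem_Ioc] at hp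
  obtain ⟨⟨⟨hp1, _⟩, hpp⟩, k, rfl⟩ := hp
  rw [Nat.mul_div_cancel_left _ hpp.pos]
  have hqk : q ∣ k := by
    rcases (Nat.Prime.dvd_mul hq).1 hqm with h | h
    · have h2 := (Nat.prime_dvd_prime_iff_eq hq hpp).1 h
      omega
    · exact h
  unfold bf
  rw [RamId_rg_zero fun h => absurd (h q hq hqk) (by omega), zero_div]

private theorem RamId_eq {y J m : ℕ} (hr : ∀ q : ℕ, q.Prime → q ∣ m → y < q) :
    AA y J m = 1 - ∑ p ∈ (PY y (zz y J)).filter (fun p => p ∣ m), bf y J (m / p) := by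
  unfold AA
  rw [RamId_sum, RamId_rg_one hr]

theorem aa_nonneg (y J m : ℕ) (hm : 1 ≤ m) : 0 ≤ AA y J m := by
  by_cases hr : ∀ q : ℕ, q.Prime → q ∣ m → y < q
  · rw [RamId_eq hr, sub_nonneg]
    refine (Finset.sum_le_sum fun p hp => (RamId_term hm hr hp).1).trans ?_
    rw [Finset.sum_const, nsmul_eq_mul, ← RamId_card hm]
    rcases Nat.eq_zero_or_pos (nu y J m) with h | h
    · rw [h]
      simp
    · have h' : (nu y J m : ℝ) ≠ 0 := by
        have : 0 < (nu y J m : ℝ) := by exact_mod_cast h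
        exact this.ne'
      rw [mul_one_div, div_self h']
  · rw [RamId_zero hr]

theorem aa_one (y J m : ℕ) (hm : 1 ≤ m) (h : ∀ p : ℕ, p.Prime → p ∣ m → zz y J < p) :
    AA y J m = 1 := by
  have hle := RamId_le_zz y J
  have hr : ∀ q : ℕ, q.Prime → q ∣ m → y < q := fun q hq hqm => lt_of_le_of_lt hle (h q hq hqm)
  rw [RamId_eq hr, sub_eq_self]
  have hempty : (PY y (zz y J)).filter (fun p => p ∣ m) = ∅ := by
    rw [Finset.eq_empty_iff_forall_notMem]
    intro p hp
    unfold PY at hp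
    rw [Finset.mem_filter, Finset.mem_filter, Finset.mem_Ioc] at hp
    have h2 := h p hp.1.2 hp.2
    omega
  rw [hempty, Finset.sum_empty]

theorem aa_le (y J m : ℕ) (hm : 1 ≤ m) :
    AA y J m ≤ rg (zz y J) m + ((PY y (zz y J)).filter (fun p => p ^ 2 ∣ m)).card := by
  have hrz := RamId_rg_nonneg (zz y J) m
  by_cases hr : ∀ q : ℕ, q.Prime → q ∣ m → y < q
  · rcases Nat.eq_zero_or_pos (nu y J m) with h | h
    · have hempty : (PY y (zz y J)).filter (fun p => p ∣ m) = ∅ := by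
        rw [← Finset.card_eq_zero, ← RamId_card hm, h]
      have hz : rg (zz y J) m = 1 := by
        refine RamId_rg_one fun q hq hqm => ?_
        by_contra hcon
        have hmem : q ∈ (PY y (zz y J)).filter (fun p => p ∣ m) := by
          unfold PY
          rw [Finset.mem_filter, Finset.mem_filter, Finset.mem_Ioc]
          exact ⟨⟨⟨hr q hq hqm, by omega⟩, hq⟩, hqm⟩
        rw [hempty] at hmem
        exact absurd hmem (Finset.notMem_empty _)
      rw [RamId_eq hr, hempty, Finset.sum_empty, hz, sub_zero]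
      exact le_add_of_nonneg_right (Nat.cast_nonneg _)
    · have hν : (0 : ℝ) < nu y J m := by exact_mod_cast h
      have hν1 : (1 : ℝ) ≤ nu y J m := by exact_mod_cast h
      have h1 : (1 : ℝ) = ∑ _p ∈ (PY y (zz y J)).filter (fun p => p ∣ m), 1 / (nu y J m : ℝ) := by
        rw [Finset.sum_const, nsmul_eq_mul, ← RamId_card hm, mul_one_div, div_self hν.ne']
      have h2 : AA y J m = ∑ p ∈ (PY y (zz y J)).filter (fun p => p ∣ m),
          (1 / (nu y J m : ℝ) - bf y J (m / p)) := by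
        rw [RamId_eq hr, Finset.sum_sub_distrib, ← h1]
      rw [h2]
      have h3 : ∀ p ∈ (PY y (zz y J)).filter (fun p => p ∣ m),
          1 / (nu y J m : ℝ) - bf y J (m / p) ≤ if p ^ 2 ∣ m then 1 else 0 := by
        intro p hp
        obtain ⟨_, hb, hc⟩ := RamId_term hm hr hp
        split_ifs with hsq
        · have h4 : 1 / (nu y J m : ℝ) ≤ 1 := by
            rw [div_le_one hν]
            exact hν1
          have h5 : 0 ≤ 1 / (1 + (nu y J m : ℝ)) := by positivity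
          linarith
        · rw [hc hsq, sub_self]
      refine (Finset.sum_le_sum h3).trans ?_
      rw [← Finset.sum_filter, Finset.sum_const, nsmul_eq_mul, mul_one]
      have h6 : (((PY y (zz y J)).filter (fun p => p ∣ m)).filter (fun p => p ^ 2 ∣ m)).card ≤
          ((PY y (zz y J)).filter (fun p => p ^ 2 ∣ m)).card := by
        apply Finset.card_le_card
        intro p hp
        rw [Finset.mem_filter, Finset.mem_filter] at hp
        exact Finset.mem_filter.2 ⟨hp.1.1, hp.2⟩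
      have h7 : ((((PY y (zz y J)).filter (fun p => p ∣ m)).filter (fun p => p ^ 2 ∣ m)).card : ℝ) ≤
          ((PY y (zz y J)).filter (fun p => p ^ 2 ∣ m)).card := by exact_mod_cast h6
      linarith
  · rw [RamId_zero hr]
    positivity

theorem bf_nonneg (y J k : ℕ) : 0 ≤ bf y J k := by
  unfold bf
  exact div_nonneg (RamId_rg_nonneg _ _) (by positivity)

theorem bf_le (y J k : ℕ) : bf y J k ≤ rg y k := by
  unfold bf
  refine div_le_self (RamId_rg_nonneg _ _) ?_
  have h : (0 : ℝ) ≤ nu y J k := Nat.cast_nonneg _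
  linarith

end Pool.Agent.H76.TP

end

section

/-!
# PROJECT TQ (MP_967f73_nt): two primes in windows `n^θ` for every `θ > 1/4` (extension of project TP of helper76)

Notation of `Pool/Agent/H76/TP/Defs.lean`: `L = log N`, `y = yN e1 N`, `z = zz y J = 2^J y`; new: `z1 = zz y J1`, `J ≤ J1`, `N^ζ' ≤ z ≤ N^ζ`, `N^κ' ≤ z1 ≤ N^κ`, `1/4 < ζ' < ζ < κ' < κ < 1/3`, `κ < (1+θ)/4`.

* `om y J J1 k` = the number of the primes of `(z, z1]` dividing `k`;
* `bq = bf (1 - om/2)`; because `bf(p k) = bf(k)` for primes `p > z`, `om(k) bf(k) = ∑_{p ∈ (z,z1], p ∣ k} bf(k/p)` exactly, so the local density of `bq` at `x` is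
  `kq x = kap x - (1/2) ∑_{p ∈ (z,z1]} kap(x/p)/p`;
* the new majorant of the primes: `Fq S T = S - (om/2) T - ∑_{j<J} Fp bq (2^j y) + sqp`, `S ≥ rg` the upper, `T ≤ rg` the lower bound sieve, `sqp m = #{p ∈ (y,z] : p² ∣ m}`;
  `Fq = (S - rg) + (om/2)(rg - T) + (1 - om/2) AA + sqp ≥ 0` for `N/4 ≤ m ≤ 4N`, since a `z`-rough `m` has `om ≤ 2`;
* its local density `kapF = kS - kT W1/2 - ∑_j WQ`.
* `MQ` = the mass of `Fq`; `MQ(1/4+, 1/4+, 0.312) = 1.99497 < 2`.
* `TIP θ κ e4`: type I sums beyond the length of the window (helper56, note 2358), used as a hypothesis.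
-/

set_option autoImplicit false

namespace Pool.Agent.H91.TQ

open Finset
open Pool.Agent.H91.PK (ee)
open Pool.Agent.H91.EHA (Lam hR lamR ramS)
open Pool.Agent.H35.W (pb)
open Pool.Agent.H53.MID (Fp Bs badB)
open Pool.Agent.H76.TP

/-- the number of the primes of `(z, z1]` dividing `k` -/
def om (y J J1 k : ℕ) : ℕ := (k.primeFactors.filter (fun p => zz y J < p ∧ p ≤ zz y J1)).card

/-- the cofactor weights -/
noncomputable def bq (y J J1 k : ℕ) : ℝ := bf y J k * (1 - (om y J J1 k : ℝ) / 2)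

/-- the local density of `bq` at `x` -/
noncomputable def kq (y J J1 x : ℕ) : ℝ :=
  kap y J x - (∑ p ∈ PY (zz y J) (zz y J1), kap y J (x / p) / p) / 2

/-- `∑_{p ∈ pb P} kq(x/p)/p` -/
noncomputable def WQ (y J J1 P x : ℕ) : ℝ := ∑ p ∈ pb P, kq y J J1 (x / p) / p

/-- the number of the primes of `(y, z]` whose square divides `m` -/
noncomputable def sqp (y J m : ℕ) : ℝ := (((PY y (zz y J)).filter (fun p => p ^ 2 ∣ m)).card : ℝ)

/-- `∑_{z < p ≤ z1} 1/p` -/
noncomputable def W1 (y J J1 : ℕ) : ℝ := ∑ p ∈ PY (zz y J) (zz y J1), 1 / (p : ℝ)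

/-- the majorant -/
noncomputable def Fq (S T : ℕ → ℝ) (y J J1 m : ℕ) : ℝ :=
  S m - (om y J J1 m : ℝ) / 2 * T m - ∑ j ∈ range J, Fp (bq y J J1) (2 ^ j * y) m + sqp y J m

/-- its local density -/
noncomputable def kapF (kS kT : ℝ) (y J J1 x : ℕ) : ℝ :=
  kS - kT * W1 y J J1 / 2 - ∑ j ∈ range J, WQ y J J1 (2 ^ j * y) x

/-- the balanced divisor function of the primes of `(P, 2P]` -/
noncomputable def Ph (P m : ℕ) : ℝ := (((pb P).filter (fun p => p ∣ m)).card : ℝ) - ∑ p ∈ pb P, 1 / (p : ℝ)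

/-- standing assumptions on the parameters -/
def Par (e1 ζ' ζ κ' κ : ℝ) : Prop :=
  0 < e1 ∧ e1 ≤ 1 / 100 ∧ 1 / 5 < ζ' ∧ ζ' < ζ ∧ ζ < 27 / 100 ∧ 3 / 10 < κ' ∧ κ' < κ ∧ ζ + κ < 59 / 100

/-- the levels `z = zz y J` and `z1 = zz y J1` -/
def Lev (ζ' ζ κ' κ : ℝ) (N y J J1 : ℕ) : Prop :=
  J ≤ J1 ∧ (N : ℝ) ^ ζ' ≤ zz y J ∧ (zz y J : ℝ) ≤ (N : ℝ) ^ ζ ∧ (N : ℝ) ^ κ' ≤ zz y J1 ∧ (zz y J1 : ℝ) ≤ (N : ℝ) ^ κ

/-- type I sums beyond the length of the window -/
def TIP (θ κ e4 : ℝ) : Prop := ∀ A : ℕ, ∃ N0 : ℕ, ∀ N : ℕ, N0 ≤ N → ∀ (P Q : ℕ) (g T : ℕ → ℝ),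
  (N : ℝ) ^ (1 / 5 : ℝ) ≤ P → (P : ℝ) ≤ (N : ℝ) ^ κ → (Q : ℝ) ≤ (N : ℝ) ^ e4 → Adm Q g T →
    ((badB (fun m => T m * Ph P m) N ⌊(N : ℝ) ^ θ⌋₊ (⌊(N : ℝ) ^ θ⌋₊ / Real.log N ^ A)).card : ℝ) ≤
      (N / ⌊(N : ℝ) ^ θ⌋₊ : ℝ) / Real.log N ^ A

end Pool.Agent.H91.TQ

end

section

/-!
# TQ Ram: the majorant `Fq` is nonnegative and `≥ 1` at the primes

* `om_div`: for a prime `p ∣ m`, `p ≤ z`: the prime factors `> z` of `m/p` are those of `m`, so `om(m/p) = om(m)`.
* `fq_eq`: every `p ∈ pb (2^j y)`, `j < J`, is `≤ 2^(j+1) y ≤ z`, so `∑_j Fp bq (2^j y) m = (1 - om(m)/2) ∑_j Fp bf (2^j y) m = (1 - om(m)/2)(rg y m - AA y J m)`.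
* `fq_nonneg`: `m` `z`-rough: `om ≤ 2`, all four terms are `≥ 0` (`aa_nonneg`).  Otherwise `rg (zz y J) m = 0`, so `0 ≤ AA y J m ≤ sqp y J m` (`aa_nonneg`, `aa_le`), and `1 - om/2 ≥ -1/2`.
* `fq_prime`: `om = 0`, `AA = 1` (`aa_one`).
* `om_small`: four primes `≥ N^ζ'`, `ζ' > 1/4`, have product `> 4N`.  If `m` is `z`-rough and three primes `p, q, r ∈ (z, z1]` divide `m`: `m/(pqr) < z` (as `m ≤ 4N < z^4`), so `m = pqr ≤ z1^3 ≤ N^(3κ) < N/4 ≤ m`, a contradiction.
* `bq_abs`: `0 ≤ bf ≤ 1`; `om k ≤ 4` gives `|1 - om/2| ≤ 1`; in general `om k ≤ log k/log 2`.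
-/

set_option autoImplicit false

namespace Pool.Agent.H91.TQ

open Finset
open Pool.Agent.H35.W (pb)
open Pool.Agent.H53.MID (Fp Bs)
open Pool.Agent.H76.TP

private theorem Ram_rg_one {y k : ℕ} (h : ∀ p : ℕ, p.Prime → p ∣ k → y < p) : rg y k = 1 := by
  unfold rg
  exact if_pos h

private theorem Ram_rg_zero {y k : ℕ} (h : ¬ ∀ p : ℕ, p.Prime → p ∣ k → y < p) : rg y k = 0 := by
  unfold rg
  exact if_neg h

private theorem Ram_le_zz (y J : ℕ) : y ≤ zz y J := by
  unfold zz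
  exact Nat.le_mul_of_pos_left _ (by positivity)

theorem om_div (y J J1 m p : ℕ) (hm : 1 ≤ m) (hp : p.Prime) (hpm : p ∣ m) (hpz : p ≤ zz y J) :
    om y J J1 (m / p) = om y J J1 m := by
  unfold om
  congr 1
  have hmp : m / p ≠ 0 := (Nat.div_pos (Nat.le_of_dvd hm hpm) hp.pos).ne'
  ext q
  simp only [mem_filter, Nat.mem_primeFactors]
  constructor
  · rintro ⟨⟨h1, h2, _⟩, h4⟩
    exact ⟨⟨h1, h2.trans (Nat.div_dvd_of_dvd hpm), by omega⟩, h4⟩
  · rintro ⟨⟨h1, h2, _⟩, h4⟩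
    refine ⟨⟨h1, ?_, hmp⟩, h4⟩
    have h5 : q ∣ p * (m / p) := by rwa [Nat.mul_div_cancel' hpm]
    rcases (Nat.Prime.dvd_mul h1).mp h5 with h6 | h6
    · have h7 := (Nat.prime_dvd_prime_iff_eq h1 hp).mp h6
      omega
    · exact h6

/-- for primes `p > z`: `bf(p k) = bf(k)` -/
theorem bf_mul (y J k p : ℕ) (hk : 1 ≤ k) (hp : p.Prime) (hpz : zz y J < p) :
    bf y J (p * k) = bf y J k := by
  have hyz := Ram_le_zz y J
  have h1 : rg y (p * k) = rg y k := by
    by_cases h : ∀ q : ℕ, q.Prime → q ∣ k → y < q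
    · rw [Ram_rg_one h, Ram_rg_one]
      intro q hq hqk
      rcases (Nat.Prime.dvd_mul hq).mp hqk with h2 | h2
      · have h3 := (Nat.prime_dvd_prime_iff_eq hq hp).mp h2
        omega
      · exact h q hq h2
    · rw [Ram_rg_zero h, Ram_rg_zero]
      intro h2
      exact h fun q hq hqk => h2 q hq (hqk.mul_left p)
  have h2 : nu y J (p * k) = nu y J k := by
    unfold nu
    congr 1
    ext q
    simp only [mem_filter, Nat.mem_primeFactors]
    constructor
    · rintro ⟨⟨h3, h4, _⟩, h5⟩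
      refine ⟨⟨h3, ?_, by omega⟩, h5⟩
      rcases (Nat.Prime.dvd_mul h3).mp h4 with h6 | h6
      · have h7 := (Nat.prime_dvd_prime_iff_eq h3 hp).mp h6
        omega
      · exact h6
    · rintro ⟨⟨h3, h4, _⟩, h5⟩
      exact ⟨⟨h3, h4.mul_left p, (Nat.mul_pos hp.pos hk).ne'⟩, h5⟩
  unfold bf
  rw [h1, h2]

private theorem Ram_Fp (y J J1 m j : ℕ) (hm : 1 ≤ m) (hj : j < J) :
    Fp (bq y J J1) (2 ^ j * y) m =
      (1 - (om y J J1 m : ℝ) / 2) * Fp (bf y J) (2 ^ j * y) m := by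
  unfold Fp
  rw [mul_sum]
  refine sum_congr rfl fun p hp => ?_
  rw [mem_filter] at hp
  obtain ⟨h1, h2⟩ := hp
  unfold pb at h1
  rw [mem_filter, mem_Ioc] at h1
  have h3 : p ≤ zz y J := by
    refine h1.1.2.trans ?_
    unfold zz
    calc 2 * (2 ^ j * y) = 2 ^ (j + 1) * y := by ring
      _ ≤ 2 ^ J * y := Nat.mul_le_mul_right y (Nat.pow_le_pow_right (by norm_num) hj)
  unfold bq
  rw [om_div y J J1 m p hm h1.2 h2 h3]
  ring

theorem fq_eq (S T : ℕ → ℝ) (y J J1 m : ℕ) (hm : 1 ≤ m) :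
    Fq S T y J J1 m = (S m - rg y m) + (om y J J1 m : ℝ) / 2 * (rg y m - T m)
      + (1 - (om y J J1 m : ℝ) / 2) * AA y J m + sqp y J m := by
  have h1 : ∑ j ∈ range J, Fp (bq y J J1) (2 ^ j * y) m =
      (1 - (om y J J1 m : ℝ) / 2) * ∑ j ∈ range J, Fp (bf y J) (2 ^ j * y) m := by
    rw [mul_sum]
    exact sum_congr rfl fun j hj => Ram_Fp y J J1 m j hm (mem_range.mp hj)
  unfold Fq AA
  rw [h1]
  ring

/-- a set of prime factors greater than `z` -/
private theorem Ram_prod {m z : ℕ} (_ : 1 ≤ m) {S : Finset ℕ} (hS : S ⊆ m.primeFactors)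
    (hz : ∀ p ∈ S, z ≤ p) : z ^ S.card ≤ ∏ p ∈ S, p ∧ (∏ p ∈ S, p) ∣ m := by
  constructor
  · exact Finset.pow_card_le_prod S (fun p => p) z hz
  · exact (Finset.prod_dvd_prod_of_subset S m.primeFactors (fun p => p) hS).trans
      (Nat.prod_primeFactors_dvd m)

private theorem Ram_bf (y J k : ℕ) : 0 ≤ bf y J k ∧ bf y J k ≤ 1 := by
  refine ⟨bf_nonneg y J k, (bf_le y J k).trans ?_⟩
  unfold rg
  split_ifs <;> norm_num

theorem bq_abs (y J J1 k : ℕ) (h : om y J J1 k ≤ 4) : |bq y J J1 k| ≤ 1 := by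
  have h1 := Ram_bf y J k
  have h2 : (om y J J1 k : ℝ) ≤ 4 := by exact_mod_cast h
  have h3 : (0 : ℝ) ≤ om y J J1 k := Nat.cast_nonneg _
  unfold bq
  rw [abs_mul, abs_of_nonneg h1.1]
  have h4 : |1 - (om y J J1 k : ℝ) / 2| ≤ 1 := by
    rw [abs_le]
    constructor <;> linarith
  calc bf y J k * |1 - (om y J J1 k : ℝ) / 2| ≤ 1 * 1 :=
        mul_le_mul h1.2 h4 (abs_nonneg _) zero_le_one
    _ = 1 := one_mul 1

theorem bq_abs_log (y J J1 k : ℕ) (hk : 1 ≤ k) : |bq y J J1 k| ≤ 1 + Real.log k := by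
  have h1 := Ram_bf y J k
  have h3 : (0 : ℝ) ≤ om y J J1 k := Nat.cast_nonneg _
  have h2 : (om y J J1 k : ℝ) * Real.log 2 ≤ Real.log k := by
    obtain ⟨h4, h5⟩ := Ram_prod hk (filter_subset (fun p => zz y J < p ∧ p ≤ zz y J1) k.primeFactors)
      (z := 2) (fun p hp => (Nat.prime_of_mem_primeFactors (mem_filter.mp hp).1).two_le)
    have h6 : 2 ^ om y J J1 k ≤ k := h4.trans (Nat.le_of_dvd hk h5)
    have h7 : (2 : ℝ) ^ om y J J1 k ≤ k := by exact_mod_cast h6
    have h8 := Real.log_le_log (by positivity) h7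
    rw [Real.log_pow] at h8
    exact h8
  have h5 : (om y J J1 k : ℝ) / 2 ≤ Real.log k := by
    have h6 := Real.log_two_gt_d9
    have h7 : (om y J J1 k : ℝ) * (1 / 2) ≤ (om y J J1 k : ℝ) * Real.log 2 :=
      mul_le_mul_of_nonneg_left (by linarith) h3
    linarith
  have h6 : 0 ≤ Real.log k := Real.log_natCast_nonneg k
  unfold bq
  rw [abs_mul, abs_of_nonneg h1.1]
  have h4 : |1 - (om y J J1 k : ℝ) / 2| ≤ 1 + Real.log k := by
    rw [abs_le]
    constructor <;> linarith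
  calc bf y J k * |1 - (om y J J1 k : ℝ) / 2| ≤ 1 * (1 + Real.log k) :=
        mul_le_mul h1.2 h4 (abs_nonneg _) zero_le_one
    _ = 1 + Real.log k := one_mul _

end Pool.Agent.H91.TQ

end

section

/-!
# PSI Pars: Plancherel for the logarithmic windows

`Pool.Agent.H76.EHB.planch` (`Pool/Agent/H76/EHB/Planch.lean`) with `gw_four`, `gw_L1`; `t ↦ -t`.  The weight `w(t) = |kp hs t/H - kp hl t/H1|^2` is
* `≤ ((1 + 8|t|) H1/X^2)^2` (`kp_sub`, `hd`, `hs^2/H ≤ H/X^2`, `hl^2/H1 ≤ H1/X^2`) for `|t| ≤ T0`, where also `|DP|^2 ≤ N SS`;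
* `≤ (2/X)^2` always (`kp_le`);
* `≤ (1/(|t| H))^2` for `t ≠ 0` (`kp_inv`, `H ≤ H1`), used with `tail_int` for `|t| > T`.
-/

set_option autoImplicit false

namespace Pool.Agent.H88.PSI

open Finset MeasureTheory
open Pool.Agent.H91.PK (ee)

private theorem pars_dp (f : ℕ → ℂ) (N : ℕ) (t : ℝ) : ‖DP f N t‖ ^ 2 ≤ N * SS f N := by
  have h1 := dp_norm_le f N t
  have h2 : (∑ n ∈ Icc 1 N, ‖f n‖) ^ 2 ≤ ((Icc 1 N).card : ℝ) * ∑ n ∈ Icc 1 N, ‖f n‖ ^ 2 :=
    sq_sum_le_card_mul_sum_sq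
  rw [Nat.card_Icc, Nat.add_sub_cancel] at h2
  exact (pow_le_pow_left₀ (norm_nonneg _) h1 2).trans h2

private theorem pars_SS (f : ℕ → ℂ) (N : ℕ) : 0 ≤ SS f N :=
  sum_nonneg fun _ _ => by positivity

/-- the weight near zero -/
private theorem pars_w0 {X H H1 hs hl t : ℝ} (hX : 1 ≤ X) (hH : 1 ≤ H)
    (hH1 : H ≤ H1) (h1 : 0 ≤ hs) (h2 : hs ≤ H / X) (h3 : 0 ≤ hl) (h4 : hl ≤ H1 / X)
    (hd : |hs / H - hl / H1| ≤ H1 / X ^ 2) :
    ‖kp hs t / (H : ℂ) - kp hl t / (H1 : ℂ)‖ ≤ (1 + 8 * |t|) * (H1 / X ^ 2) := by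
  have pH : 0 < H := by linarith
  have pH1 : 0 < H1 := by linarith
  have pX : 0 < X := by linarith
  have e1 : kp hs t / (H : ℂ) - kp hl t / (H1 : ℂ) =
      (kp hs t - hs) / (H : ℂ) - (kp hl t - hl) / (H1 : ℂ) + ((hs / H - hl / H1 : ℝ) : ℂ) := by
    push_cast
    ring
  have n1 : ‖(kp hs t - hs) / (H : ℂ)‖ ≤ 4 * |t| * (H / X ^ 2) := by
    rw [norm_div, Complex.norm_real, Real.norm_eq_abs, abs_of_pos pH, div_le_iff₀ pH]
    refine (kp_sub hs t h1).trans ?_
    have e2 : hs ^ 2 ≤ (H / X) ^ 2 := pow_le_pow_left₀ h1 h2 2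
    have e3 : 4 * |t| * (H / X ^ 2) * H = 4 * |t| * (H / X) ^ 2 := by
      field_simp
    rw [e3]
    exact mul_le_mul_of_nonneg_left e2 (by positivity)
  have n2 : ‖(kp hl t - hl) / (H1 : ℂ)‖ ≤ 4 * |t| * (H1 / X ^ 2) := by
    rw [norm_div, Complex.norm_real, Real.norm_eq_abs, abs_of_pos pH1, div_le_iff₀ pH1]
    refine (kp_sub hl t h3).trans ?_
    have e2 : hl ^ 2 ≤ (H1 / X) ^ 2 := pow_le_pow_left₀ h3 h4 2
    have e3 : 4 * |t| * (H1 / X ^ 2) * H1 = 4 * |t| * (H1 / X) ^ 2 := by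
      field_simp
    rw [e3]
    exact mul_le_mul_of_nonneg_left e2 (by positivity)
  have n3 : ‖((hs / H - hl / H1 : ℝ) : ℂ)‖ ≤ H1 / X ^ 2 := by
    rw [Complex.norm_real, Real.norm_eq_abs]
    exact hd
  have n4 : 4 * |t| * (H / X ^ 2) ≤ 4 * |t| * (H1 / X ^ 2) := by
    refine mul_le_mul_of_nonneg_left ?_ (by positivity)
    exact div_le_div_of_nonneg_right hH1 (by positivity)
  rw [e1]
  refine (norm_add_le _ _).trans ?_
  have n5 := norm_sub_le ((kp hs t - hs) / (H : ℂ)) ((kp hl t - hl) / (H1 : ℂ))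
  nlinarith

/-- the weight everywhere -/
private theorem pars_w1 {X H H1 hs hl t : ℝ} (hX : 1 ≤ X) (hH : 1 ≤ H)
    (hH1 : H ≤ H1) (h1 : 0 ≤ hs) (h2 : hs ≤ H / X) (h3 : 0 ≤ hl) (h4 : hl ≤ H1 / X) :
    ‖kp hs t / (H : ℂ) - kp hl t / (H1 : ℂ)‖ ≤ 2 / X := by
  have pH : 0 < H := by linarith
  have pH1 : 0 < H1 := by linarith
  have pX : 0 < X := by linarith
  have n1 : ‖kp hs t / (H : ℂ)‖ ≤ 1 / X := by
    rw [norm_div, Complex.norm_real, Real.norm_eq_abs, abs_of_pos pH, div_le_iff₀ pH]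
    refine (kp_le hs t h1).trans (h2.trans (le_of_eq ?_))
    ring
  have n2 : ‖kp hl t / (H1 : ℂ)‖ ≤ 1 / X := by
    rw [norm_div, Complex.norm_real, Real.norm_eq_abs, abs_of_pos pH1, div_le_iff₀ pH1]
    refine (kp_le hl t h3).trans (h4.trans (le_of_eq ?_))
    ring
  refine (norm_sub_le _ _).trans ?_
  have e : 2 / X = 1 / X + 1 / X := by ring
  rw [e]
  exact add_le_add n1 n2

/-- the weight far from zero -/
private theorem pars_w2 {H H1 hs hl t : ℝ} (hH : 1 ≤ H) (hH1 : H ≤ H1) (ht : t ≠ 0) :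
    ‖kp hs t / (H : ℂ) - kp hl t / (H1 : ℂ)‖ ≤ 1 / (|t| * H) := by
  have pH : 0 < H := by linarith
  have pH1 : 0 < H1 := by linarith
  have pt : 0 < |t| := abs_pos.2 ht
  have n1 : ‖kp hs t / (H : ℂ)‖ ≤ 1 / (2 * |t| * H) := by
    rw [norm_div, Complex.norm_real, Real.norm_eq_abs, abs_of_pos pH, div_le_iff₀ pH]
    refine (kp_inv hs t ht).trans (le_of_eq ?_)
    field_simp
  have n2 : ‖kp hl t / (H1 : ℂ)‖ ≤ 1 / (2 * |t| * H) := by
    rw [norm_div, Complex.norm_real, Real.norm_eq_abs, abs_of_pos pH1]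
    have e1 := kp_inv hl t ht
    refine (div_le_div_of_nonneg_right e1 pH1.le).trans ?_
    rw [div_div]
    refine one_div_le_one_div_of_le (by positivity) ?_
    exact mul_le_mul_of_nonneg_left hH1 (by positivity)
  refine (norm_sub_le _ _).trans ?_
  have e : 1 / (|t| * H) = 1 / (2 * |t| * H) + 1 / (2 * |t| * H) := by
    field_simp
    norm_num
  rw [e]
  exact add_le_add n1 n2

theorem pars (f : ℕ → ℂ) (N : ℕ) (X H H1 hs hl T0 T : ℝ) (hN : 1 ≤ N) (hX : 1 ≤ X) (hH : 1 ≤ H)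
    (hH1 : H ≤ H1) (hH2 : H1 ≤ X) (h1 : 0 ≤ hs) (h2 : hs ≤ H / X) (h3 : 0 ≤ hl) (h4 : hl ≤ H1 / X)
    (hd : |hs / H - hl / H1| ≤ H1 / X ^ 2) (hT0 : 1 ≤ T0) (hT : T0 ≤ T) :
    ∫ u, ‖Gw f N hs hl H H1 u‖ ^ 2
      ≤ 1000 * (T0 ^ 3 * H1 ^ 2 * N / X ^ 4
          + 1 / H ^ 2 * (1 / T + N * (1 + Real.log N) / T ^ 2)) * SS f N
        + 4 / X ^ 2 * ∫ t in {t : ℝ | T0 ≤ |t| ∧ |t| ≤ T}, ‖DP f N t‖ ^ 2 := by
  have _ := hH2
  have pX : 0 < X := by linarith
  have pH : 0 < H := by linarith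
  have pH1 : 0 < H1 := by linarith
  have pT : 1 ≤ T := by linarith
  obtain ⟨i1, i2⟩ := gw_L1 f N hs hl H H1 h1 h3
  obtain ⟨p1, p2⟩ := Pool.Agent.H76.EHB.planch (Gw f N hs hl H H1) i1 i2
  set Φ : ℝ → ℝ := fun t => ‖DP f N t * (kp hs (-t) / (H : ℂ) - kp hl (-t) / (H1 : ℂ))‖ ^ 2
    with hΦ
  have e1 : (fun ξ : ℝ => ‖∫ u, Gw f N hs hl H H1 u * ee (-(u * ξ))‖ ^ 2) =
      fun ξ => Φ (-ξ) := by
    funext ξ
    rw [gw_four f N hs hl H H1 ξ h1 h3, hΦ]
    simp only [neg_neg]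
  rw [e1] at p1
  have e1' : ∫ ξ : ℝ, ‖∫ u, Gw f N hs hl H H1 u * ee (-(u * ξ))‖ ^ 2 = ∫ ξ, Φ (-ξ) := by
    rw [e1]
  rw [e1', integral_neg_eq_self Φ volume] at p2
  have p3 : Integrable Φ := by
    have := p1.comp_neg
    simpa using this
  rw [← p2]
  -- the three sets
  set A : Set ℝ := {t | |t| < T0} with hA
  set B : Set ℝ := {t | T0 ≤ |t| ∧ |t| ≤ T} with hB
  set C : Set ℝ := {t | T < |t|} with hC
  have mA : MeasurableSet A := measurableSet_lt continuous_abs.measurable measurable_const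
  have mC : MeasurableSet C := measurableSet_lt measurable_const continuous_abs.measurable
  have mB : MeasurableSet B :=
    (measurableSet_le measurable_const continuous_abs.measurable).inter
      (measurableSet_le continuous_abs.measurable measurable_const)
  have hU : A ∪ (B ∪ C) = Set.univ := by
    ext t
    simp only [hA, hB, hC, Set.mem_union, Set.mem_ofPred_eq, Set.mem_univ, iff_true]
    rcases lt_or_ge |t| T0 with h | h
    · exact Or.inl h
    · rcases le_or_gt |t| T with h' | h'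
      · exact Or.inr (Or.inl ⟨h, h'⟩)
      · exact Or.inr (Or.inr h')
  have dBC : Disjoint B C := by
    rw [Set.disjoint_left]
    intro t ht ht'
    exact absurd ht.2 (not_le.2 ht')
  have dA : Disjoint A (B ∪ C) := by
    rw [Set.disjoint_left]
    rintro t ht (ht' | ht')
    · exact absurd ht'.1 (not_le.2 ht)
    · have a1 : |t| < T0 := ht
      have a2 : T < |t| := ht'
      linarith
  have hsplit : ∫ t, Φ t = (∫ t in A, Φ t) + ((∫ t in B, Φ t) + ∫ t in C, Φ t) := by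
    rw [← setIntegral_univ, ← hU, setIntegral_union dA (mB.union mC) p3.integrableOn
      p3.integrableOn, setIntegral_union dBC mC p3.integrableOn p3.integrableOn]
  rw [hsplit]
  have hS := pars_SS f N
  have hNN : (0 : ℝ) ≤ N := Nat.cast_nonneg N
  have hlog : 0 ≤ Real.log N := Real.log_natCast_nonneg N
  -- near zero
  have bA : ∫ t in A, Φ t ≤ 1000 * (T0 ^ 3 * H1 ^ 2 * N / X ^ 4) * SS f N := by
    have hsub : A ⊆ Set.Icc (-T0) T0 := by
      intro t ht
      have a1 : |t| < T0 := ht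
      exact abs_le.1 a1.le
    have hvol : volume (Set.Icc (-T0) T0) = ENNReal.ofReal (2 * T0) := by
      rw [Real.volume_Icc]
      congr 1
      ring
    have hfin : volume A ≤ ENNReal.ofReal (2 * T0) := hvol ▸ measure_mono hsub
    have hc : ∀ t ∈ A, Φ t ≤ N * SS f N * ((9 * T0) * (H1 / X ^ 2)) ^ 2 := by
      intro t ht
      have a1 : |t| < T0 := ht
      have a2 := pars_w0 (t := -t) hX hH hH1 h1 h2 h3 h4 hd
      rw [abs_neg] at a2
      have a3 : (1 + 8 * |t|) * (H1 / X ^ 2) ≤ (9 * T0) * (H1 / X ^ 2) := by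
        refine mul_le_mul_of_nonneg_right ?_ (by positivity)
        linarith
      rw [hΦ]
      simp only [norm_mul, mul_pow (‖DP f N t‖)]
      refine mul_le_mul (pars_dp f N t) (pow_le_pow_left₀ (norm_nonneg _) (a2.trans a3) 2)
        (by positivity) (by positivity)
    have hlt : volume A < ⊤ := lt_of_le_of_lt hfin ENNReal.ofReal_lt_top
    refine (setIntegral_mono_on p3.integrableOn (integrableOn_const hlt.ne) mA hc).trans ?_
    rw [setIntegral_const, smul_eq_mul]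
    have hreal : volume.real A ≤ 2 * T0 := by
      unfold Measure.real
      refine ENNReal.toReal_le_of_le_ofReal (by positivity) hfin
    refine (mul_le_mul_of_nonneg_right hreal (by positivity)).trans ?_
    have e2 : 2 * T0 * (N * SS f N * ((9 * T0) * (H1 / X ^ 2)) ^ 2) =
        162 * ((T0 ^ 3 * H1 ^ 2 * N / X ^ 4) * SS f N) := by
      field_simp
      ring
    rw [e2, mul_assoc (1000 : ℝ)]
    refine mul_le_mul_of_nonneg_right (by norm_num) (by positivity)
  -- the middle part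
  have hcont : Continuous fun t => ‖DP f N t‖ ^ 2 := (dp_cont f N).norm.pow 2
  have iB : IntegrableOn (fun t => ‖DP f N t‖ ^ 2) B := by
    refine (hcont.continuousOn.integrableOn_compact (isCompact_Icc (a := -T) (b := T))).mono_set ?_
    intro t ht
    exact abs_le.1 ht.2
  have bB : ∫ t in B, Φ t ≤ 4 / X ^ 2 * ∫ t in B, ‖DP f N t‖ ^ 2 := by
    rw [← integral_const_mul]
    refine setIntegral_mono_on p3.integrableOn (iB.const_mul _) mB fun t _ => ?_
    have a2 := pars_w1 (t := -t) hX hH hH1 h1 h2 h3 h4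
    rw [hΦ]
    simp only [norm_mul, mul_pow (‖DP f N t‖)]
    rw [mul_comm]
    refine mul_le_mul_of_nonneg_right ?_ (by positivity)
    refine (pow_le_pow_left₀ (norm_nonneg _) a2 2).trans (le_of_eq ?_)
    ring
  -- the tail
  obtain ⟨iC, bC0⟩ := tail_int f N T hN pT
  have bC : ∫ t in C, Φ t ≤ 1000 * (1 / H ^ 2 * (1 / T + N * (1 + Real.log N) / T ^ 2)) *
      SS f N := by
    have hc : ∀ t ∈ C, Φ t ≤ 1 / H ^ 2 * (‖DP f N t‖ ^ 2 / t ^ 2) := by
      intro t ht
      have a1 : T < |t| := ht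
      have a0 : t ≠ 0 := by
        rintro rfl
        rw [abs_zero] at a1
        linarith
      have a2 := pars_w2 (t := -t) (hs := hs) (hl := hl) hH hH1 (neg_ne_zero.2 a0)
      rw [abs_neg] at a2
      rw [hΦ]
      simp only [norm_mul, mul_pow (‖DP f N t‖)]
      have a3 : (1 / (|t| * H)) ^ 2 = 1 / H ^ 2 * (1 / t ^ 2) := by
        rw [div_pow, mul_pow, sq_abs]
        field_simp
      have a4 := pow_le_pow_left₀ (norm_nonneg _) a2 2
      rw [a3] at a4
      refine (mul_le_mul_of_nonneg_left a4 (by positivity)).trans (le_of_eq ?_)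
      ring
    refine (setIntegral_mono_on p3.integrableOn (iC.const_mul _) mC hc).trans ?_
    rw [integral_const_mul]
    refine (mul_le_mul_of_nonneg_left bC0 (by positivity)).trans ?_
    have e2 : 1 / H ^ 2 * (100 * (1 / T + N * (1 + Real.log N) / T ^ 2) * SS f N) =
        100 * ((1 / H ^ 2 * (1 / T + N * (1 + Real.log N) / T ^ 2)) * SS f N) := by ring
    rw [e2, mul_assoc (1000 : ℝ)]
    refine mul_le_mul_of_nonneg_right (by norm_num) (by positivity)
  have e3 : 1000 * (T0 ^ 3 * H1 ^ 2 * N / X ^ 4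
          + 1 / H ^ 2 * (1 / T + N * (1 + Real.log N) / T ^ 2)) * SS f N =
      1000 * (T0 ^ 3 * H1 ^ 2 * N / X ^ 4) * SS f N +
        1000 * (1 / H ^ 2 * (1 / T + N * (1 + Real.log N) / T ^ 2)) * SS f N := by ring
  rw [e3]
  linarith

end Pool.Agent.H88.PSI

end

section

/-!
# TP SvA: the upper bound sieve is `≥` the indicator of the rough numbers, and its divisor expansion

* `bon_nonneg`, `bon_one`: with `V = {p ≤ w prime, p ∣ m}`, `ν = |V|`: `∑_{T ⊆ V, |T| ≤ 2r} (-1)^|T| = ∑_{j ≤ 2r} (-1)^j C(ν, j) = C(ν-1, 2r) ≥ 0` for `ν ≥ 1`, `= 1` for `ν = 0`.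
  (Compare `Pool.Agent.H35.U`: `bonf_upper`, `bonf_mu`, `sb`.)
* `ss_ge`: if `rg y m = 1` then both prime sets are empty and `SS = 1 · (ρ ∅)² = 1`.
* `gS w y r ρ n`: for `n` squarefree with all its prime factors `≤ y`: with `T` the prime factors `≤ w`, `U` those in `(w, y]`,
  `gS n = (-1)^|T| [|T| ≤ 2r] ∑_{A, B ⊆ U, A ∪ B = U} ρ A ρ B`; `0` for the other `n`.
* `ss_exp`: for `m ≥ 1`: `SS m = ∑_{n ∣ m, n ≤ Q} gS n` (`Q ≥ w^(2r) D²` where `ρ A = 0` if `∏_A p > D`, so `gS n = 0` for `n > Q`): the squarefree `n ∣ m` with prime factors `≤ y` correspond to the pairs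
  `(T, U)`, `T ⊆ {p ≤ w, p ∣ m}`, `U ⊆ {w < p ≤ y, p ∣ m}`; and `(∑_A ρ A)² = ∑_U ∑_{A ∪ B = U} ρ A ρ B`.
* `gs_abs`: `|gS n| ≤ 3^ω(n)`: the number of the pairs `A ∪ B = U` is `3^|U|`.
-/

set_option autoImplicit false

namespace Pool.Agent.H76.TP

open Finset

/-- the coefficients of the sieve -/
noncomputable def gS (w y r : ℕ) (ρ : Finset ℕ → ℝ) (n : ℕ) : ℝ :=
  if Squarefree n ∧ (∀ p ∈ n.primeFactors, p ≤ y) ∧ (n.primeFactors.filter (fun p => p ≤ w)).card ≤ 2 * r then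
    (-1 : ℝ) ^ (n.primeFactors.filter (fun p => p ≤ w)).card *
      ∑ A ∈ (n.primeFactors.filter (fun p => w < p)).powerset,
        ∑ B ∈ (n.primeFactors.filter (fun p => w < p)).powerset,
          if A ∪ B = n.primeFactors.filter (fun p => w < p) then ρ A * ρ B else 0
  else 0

/-- admissible weights: `ρ ∅ = 1`, `|ρ A| ≤ 1`, `ρ A = 0` for `∏_{p ∈ A} p > D` (`A ⊆ PY w y`) -/
def Rho (w y D : ℕ) (ρ : Finset ℕ → ℝ) : Prop :=
  ρ ∅ = 1 ∧ (∀ A ⊆ PY w y, |ρ A| ≤ 1) ∧ ∀ A ⊆ PY w y, D < ∏ p ∈ A, p → ρ A = 0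

private theorem SvA_alt (s : Finset ℕ) (k : ℕ) (hs : s.Nonempty) :
    0 ≤ ∑ T ∈ s.powerset.filter (fun T => T.card ≤ 2 * k), (-1 : ℝ) ^ T.card := by
  obtain ⟨a, ha⟩ := hs
  rw [Finset.sum_filter]
  obtain ⟨s', hs'⟩ : ∃ s', s' = s.erase a := ⟨_, rfl⟩
  have has' : a ∉ s' := by
    rw [hs']
    exact Finset.notMem_erase a s
  have hsi : s = insert a s' := by
    rw [hs', Finset.insert_erase ha]
  rw [hsi, Finset.sum_powerset_insert has', ← Finset.sum_add_distrib]
  apply Finset.sum_nonneg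
  intro T hT
  have haT : a ∉ T := fun h => has' (Finset.mem_powerset.mp hT h)
  rw [Finset.card_insert_of_notMem haT]
  by_cases h1 : T.card + 1 ≤ 2 * k
  · rw [if_pos h1, if_pos (by omega), pow_succ]
    linarith
  · rw [if_neg h1]
    by_cases h2 : T.card ≤ 2 * k
    · have h3 : T.card = 2 * k := by omega
      rw [if_pos h2, h3, pow_mul]
      norm_num
    · rw [if_neg h2]
      norm_num

private theorem SvA_empty (k : ℕ) :
    ∑ T ∈ (∅ : Finset ℕ).powerset.filter (fun T => T.card ≤ 2 * k), (-1 : ℝ) ^ T.card = 1 := by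
  rw [Finset.sum_filter, Finset.powerset_empty, Finset.sum_singleton, Finset.card_empty]
  simp

theorem bon_nonneg (w r m : ℕ) : 0 ≤ bon w r m := by
  unfold bon
  rcases ((PW w).filter (fun p => p ∣ m)).eq_empty_or_nonempty with h | h
  · rw [h, SvA_empty]
    norm_num
  · exact SvA_alt _ r h

theorem bon_one (w r m : ℕ) (h : ∀ p : ℕ, p.Prime → p ∣ m → w < p) : bon w r m = 1 := by
  unfold bon
  have h1 : (PW w).filter (fun p => p ∣ m) = ∅ := by
    rw [Finset.filter_eq_empty_iff]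
    intro p hp hpm
    unfold PW at hp
    rw [Finset.mem_filter, mem_Icc] at hp
    have := h p hp.2 hpm
    omega
  rw [h1, SvA_empty]

theorem ss_nonneg (w y r : ℕ) (ρ : Finset ℕ → ℝ) (m : ℕ) : 0 ≤ SS w y r ρ m := by
  unfold SS sel
  exact mul_nonneg (bon_nonneg w r m) (sq_nonneg _)

theorem ss_ge (w y r D : ℕ) (ρ : Finset ℕ → ℝ) (hwy : w ≤ y) (hρ : Rho w y D ρ) (m : ℕ) (hm : 1 ≤ m) :
    rg y m ≤ SS w y r ρ m := by
  unfold rg
  split_ifs with h
  · have h1 : bon w r m = 1 := bon_one w r m (fun p hp hpm => lt_of_le_of_lt hwy (h p hp hpm))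
    have h2 : (PY w y).filter (fun p => p ∣ m) = ∅ := by
      rw [Finset.filter_eq_empty_iff]
      intro p hp hpm
      unfold PY at hp
      rw [Finset.mem_filter, mem_Ioc] at hp
      have := h p hp.2 hpm
      omega
    unfold SS sel
    rw [h1, h2, Finset.powerset_empty, Finset.sum_singleton, hρ.1]
    norm_num
  · exact ss_nonneg w y r ρ m

private theorem SvA_sub {w y n : ℕ} (h : ∀ p ∈ n.primeFactors, p ≤ y) {A : Finset ℕ}
    (hA : A ⊆ n.primeFactors.filter (fun p => w < p)) : A ⊆ PY w y := by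
  intro p hp
  have h1 := hA hp
  rw [Finset.mem_filter] at h1
  unfold PY
  rw [Finset.mem_filter, mem_Ioc]
  exact ⟨⟨h1.2, h p h1.1⟩, Nat.prime_of_mem_primeFactors h1.1⟩

private theorem SvA_cnt (A U : Finset ℕ) :
    (U.powerset.filter (fun B => A ∪ B = U)).card ≤ 2 ^ A.card := by
  rw [← Finset.card_powerset]
  apply Finset.card_le_card_of_injOn (fun B => B ∩ A)
  · intro B _
    exact Finset.mem_coe.mpr (Finset.mem_powerset.mpr Finset.inter_subset_right)
  · intro B hB C hC hBC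
    simp only at hBC
    rw [Finset.mem_coe, Finset.mem_filter] at hB hC
    ext x
    by_cases hx : x ∈ A
    · have h1 := Finset.ext_iff.mp hBC x
      rw [Finset.mem_inter, Finset.mem_inter] at h1
      tauto
    · have h1 := Finset.ext_iff.mp hB.2 x
      have h2 := Finset.ext_iff.mp hC.2 x
      rw [Finset.mem_union] at h1 h2
      tauto

theorem gs_abs (w y r D : ℕ) (ρ : Finset ℕ → ℝ) (hρ : Rho w y D ρ) (n : ℕ) :
    |gS w y r ρ n| ≤ 3 ^ n.primeFactors.card := by
  unfold gS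
  split_ifs with h
  · obtain ⟨-, hy, -⟩ := h
    obtain ⟨U, hU⟩ : ∃ U, U = n.primeFactors.filter (fun p => w < p) := ⟨_, rfl⟩
    rw [← hU, abs_mul, abs_pow, abs_neg, abs_one, one_pow, one_mul]
    have h1 : ∀ A ∈ U.powerset, |∑ B ∈ U.powerset, if A ∪ B = U then ρ A * ρ B else 0| ≤ (2 : ℝ) ^ A.card := by
      intro A hA
      rw [Finset.mem_powerset] at hA
      refine (Finset.abs_sum_le_sum_abs _ _).trans ?_
      have h2 : ∀ B ∈ U.powerset, |if A ∪ B = U then ρ A * ρ B else 0| ≤ if A ∪ B = U then (1 : ℝ) else 0 := by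
        intro B hB
        rw [Finset.mem_powerset] at hB
        split_ifs with hAB
        · rw [abs_mul]
          exact mul_le_one₀ (hρ.2.1 A (SvA_sub hy (hU ▸ hA))) (abs_nonneg _) (hρ.2.1 B (SvA_sub hy (hU ▸ hB)))
        · rw [abs_zero]
      refine (Finset.sum_le_sum h2).trans ?_
      rw [Finset.sum_boole]
      exact_mod_cast SvA_cnt A U
    refine (Finset.abs_sum_le_sum_abs _ _).trans ((Finset.sum_le_sum h1).trans ?_)
    have h3 := Finset.sum_pow_mul_eq_add_pow (2 : ℝ) 1 U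
    have h4 : ∑ A ∈ U.powerset, (2 : ℝ) ^ A.card = 3 ^ U.card := by
      norm_num at h3
      exact h3
    rw [h4]
    apply pow_le_pow_right₀ (by norm_num)
    rw [hU]
    exact Finset.card_le_card (Finset.filter_subset _ _)
  · rw [abs_zero]
    positivity

private theorem SvA_prod (w : ℕ) {n : ℕ} (hsq : Squarefree n) :
    (∏ p ∈ n.primeFactors.filter (fun p => p ≤ w), p) * ∏ p ∈ n.primeFactors.filter (fun p => w < p), p = n := by
  have h1 := Finset.prod_filter_mul_prod_filter_not n.primeFactors (fun p => p ≤ w) (fun p => p)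
  simp only [not_le] at h1
  rw [Nat.prod_primeFactors_of_squarefree hsq] at h1
  exact h1

theorem gs_zero (w y r D : ℕ) (ρ : Finset ℕ → ℝ) (hw : 1 ≤ w) (hρ : Rho w y D ρ) (n : ℕ)
    (hn : w ^ (2 * r) * D ^ 2 < n) : gS w y r ρ n = 0 := by
  unfold gS
  split_ifs with h
  · obtain ⟨hsq, hy, hcard⟩ := h
    obtain ⟨U, hU⟩ : ∃ U, U = n.primeFactors.filter (fun p => w < p) := ⟨_, rfl⟩
    rw [← hU]
    have hprod : (∏ p ∈ n.primeFactors.filter (fun p => p ≤ w), p) * ∏ p ∈ U, p = n := by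
      rw [hU]
      exact SvA_prod w hsq
    have hT : ∏ p ∈ n.primeFactors.filter (fun p => p ≤ w), p ≤ w ^ (2 * r) := by
      refine (Finset.prod_le_pow_card _ (fun p : ℕ => p) w ?_).trans (Nat.pow_le_pow_right hw hcard)
      intro p hp
      exact (Finset.mem_filter.mp hp).2
    have hUD : D ^ 2 < ∏ p ∈ U, p := by
      by_contra hcon
      push Not at hcon
      have := Nat.mul_le_mul hT hcon
      rw [hprod] at this
      omega
    have hzero : ∀ A ∈ U.powerset, (∑ B ∈ U.powerset, if A ∪ B = U then ρ A * ρ B else 0) = 0 := by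
      intro A hA
      apply Finset.sum_eq_zero
      intro B hB
      rw [Finset.mem_powerset] at hA hB
      split_ifs with hAB
      · have hA' := SvA_sub hy (hU ▸ hA)
        have hB' := SvA_sub hy (hU ▸ hB)
        by_cases hAD : D < ∏ p ∈ A, p
        · rw [hρ.2.2 A hA' hAD, zero_mul]
        · by_cases hBD : D < ∏ p ∈ B, p
          · rw [hρ.2.2 B hB' hBD, mul_zero]
          · exfalso
            push Not at hAD hBD
            have h1 : ∏ p ∈ U, p ≤ (∏ p ∈ A, p) * ∏ p ∈ B, p := by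
              rw [← hAB, ← Finset.prod_union_inter]
              apply Nat.le_mul_of_pos_right
              apply Finset.prod_pos
              intro p hp
              have := hA' (Finset.mem_inter.mp hp).1
              unfold PY at this
              exact (Finset.mem_filter.mp this).2.pos
            have h2 := Nat.mul_le_mul hAD hBD
            have h3 : D * D = D ^ 2 := by ring
            omega
      · rfl
    rw [Finset.sum_eq_zero hzero, mul_zero]
  · rfl

/-- expansion of the square -/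
private theorem SvA_sq (ρ : Finset ℕ → ℝ) (V : Finset ℕ) : (∑ A ∈ V.powerset, ρ A) ^ 2 =
    ∑ U ∈ V.powerset, ∑ A ∈ U.powerset, ∑ B ∈ U.powerset, if A ∪ B = U then ρ A * ρ B else 0 := by
  have h1 : ∀ U ∈ V.powerset, (∑ A ∈ U.powerset, ∑ B ∈ U.powerset, if A ∪ B = U then ρ A * ρ B else 0) =
      ∑ A ∈ V.powerset, ∑ B ∈ V.powerset, if A ∪ B = U then ρ A * ρ B else 0 := by
    intro U hU
    rw [Finset.mem_powerset] at hU
    have h2 : ∀ A ∈ U.powerset, (∑ B ∈ U.powerset, if A ∪ B = U then ρ A * ρ B else 0) =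
        ∑ B ∈ V.powerset, if A ∪ B = U then ρ A * ρ B else 0 := by
      intro A _
      apply Finset.sum_subset (Finset.powerset_mono.mpr hU)
      intro B _ hB
      rw [if_neg]
      intro h
      apply hB
      rw [Finset.mem_powerset, ← h]
      exact Finset.subset_union_right
    rw [Finset.sum_congr rfl h2]
    apply Finset.sum_subset (Finset.powerset_mono.mpr hU)
    intro A _ hA
    apply Finset.sum_eq_zero
    intro B _
    rw [if_neg]
    intro h
    apply hA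
    rw [Finset.mem_powerset, ← h]
    exact Finset.subset_union_left
  rw [Finset.sum_congr rfl h1, Finset.sum_comm, pow_two, Finset.sum_mul_sum]
  apply Finset.sum_congr rfl
  intro A hA
  rw [Finset.sum_comm]
  apply Finset.sum_congr rfl
  intro B hB
  rw [Finset.mem_powerset] at hA hB
  rw [Finset.sum_ite_eq, if_pos (Finset.mem_powerset.mpr (Finset.union_subset hA hB))]

private theorem SvA_sqf {W : Finset ℕ} (hW : ∀ p ∈ W, p.Prime) : Squarefree (∏ p ∈ W, p) := by
  apply Finset.squarefree_prod_of_pairwise_isCoprime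
  · intro p hp q hq hpq
    rw [Function.onFun, ← Nat.coprime_iff_isRelPrime]
    exact (Nat.coprime_primes (hW p hp) (hW q hq)).mpr hpq
  · intro p hp
    exact (hW p hp).prime.squarefree

private theorem SvA_pair {w y r m : ℕ} (hwy : w ≤ y) {T U : Finset ℕ}
    (hx : (T, U) ∈ (((PW w).filter (fun p => p ∣ m)).powerset.filter (fun T => T.card ≤ 2 * r)) ×ˢ
      ((PY w y).filter (fun p => p ∣ m)).powerset) :
    T ⊆ (PW w).filter (fun p => p ∣ m) ∧ T.card ≤ 2 * r ∧ U ⊆ (PY w y).filter (fun p => p ∣ m) ∧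
      (∀ p ∈ T ∪ U, p.Prime ∧ p ≤ y ∧ p ∣ m) ∧ Disjoint T U ∧ (∏ p ∈ T ∪ U, p).primeFactors = T ∪ U ∧
      (T ∪ U).filter (fun p => p ≤ w) = T ∧ (T ∪ U).filter (fun p => w < p) = U := by
  rw [Finset.mem_product, Finset.mem_filter, Finset.mem_powerset, Finset.mem_powerset] at hx
  obtain ⟨⟨hT, hTc⟩, hU⟩ := hx
  simp only at hT hTc hU
  have hT2 : ∀ p ∈ T, p.Prime ∧ p ≤ w ∧ p ∣ m := by
    intro p hp
    have h1 := hT hp
    unfold PW at h1
    rw [Finset.mem_filter, Finset.mem_filter, mem_Icc] at h1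
    exact ⟨h1.1.2, h1.1.1.2, h1.2⟩
  have hU2 : ∀ p ∈ U, p.Prime ∧ w < p ∧ p ≤ y ∧ p ∣ m := by
    intro p hp
    have h1 := hU hp
    unfold PY at h1
    rw [Finset.mem_filter, Finset.mem_filter, mem_Ioc] at h1
    exact ⟨h1.1.2, h1.1.1.1, h1.1.1.2, h1.2⟩
  have hp : ∀ p ∈ T ∪ U, p.Prime ∧ p ≤ y ∧ p ∣ m := by
    intro p hp
    rcases Finset.mem_union.mp hp with h | h
    · obtain ⟨h1, h2, h3⟩ := hT2 p h
      exact ⟨h1, h2.trans hwy, h3⟩
    · obtain ⟨h1, h2, h3, h4⟩ := hU2 p h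
      exact ⟨h1, h3, h4⟩
  refine ⟨hT, hTc, hU, hp, ?_, Nat.primeFactors_prod (fun p h => (hp p h).1), ?_, ?_⟩
  · rw [Finset.disjoint_left]
    intro p h1 h2
    have h3 := (hT2 p h1).2.1
    have h4 := (hU2 p h2).2.1
    omega
  · ext p
    rw [Finset.mem_filter, Finset.mem_union]
    constructor
    · rintro ⟨h1 | h1, h2⟩
      · exact h1
      · have := (hU2 p h1).2.1
        omega
    · intro h1
      exact ⟨Or.inl h1, (hT2 p h1).2.1⟩
  · ext p
    rw [Finset.mem_filter, Finset.mem_union]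
    constructor
    · rintro ⟨h1 | h1, h2⟩
      · have := (hT2 p h1).2.1
        omega
      · exact h1
    · intro h1
      exact ⟨Or.inr h1, (hU2 p h1).2.1⟩

/-- the sum over all squarefree divisors -/
private theorem SvA_div (w y r : ℕ) (ρ : Finset ℕ → ℝ) (hwy : w ≤ y) (m : ℕ) (hm : 1 ≤ m) :
    SS w y r ρ m = ∑ n ∈ m.divisors, gS w y r ρ n := by
  unfold SS bon sel
  rw [SvA_sq, Finset.sum_mul_sum, ← Finset.sum_product']
  have hR : ∑ n ∈ m.divisors, gS w y r ρ n = ∑ n ∈ m.divisors.filter (fun n => Squarefree n ∧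
      (∀ p ∈ n.primeFactors, p ≤ y) ∧ (n.primeFactors.filter (fun p => p ≤ w)).card ≤ 2 * r),
      (-1 : ℝ) ^ (n.primeFactors.filter (fun p => p ≤ w)).card *
      ∑ A ∈ (n.primeFactors.filter (fun p => w < p)).powerset,
        ∑ B ∈ (n.primeFactors.filter (fun p => w < p)).powerset,
          if A ∪ B = n.primeFactors.filter (fun p => w < p) then ρ A * ρ B else 0 := by
    rw [Finset.sum_filter]
    rfl
  rw [hR]
  apply Finset.sum_nbij' (fun x : Finset ℕ × Finset ℕ => ∏ p ∈ x.1 ∪ x.2, p)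
    (fun n : ℕ => (n.primeFactors.filter (fun p => p ≤ w), n.primeFactors.filter (fun p => w < p)))
  · rintro ⟨T, U⟩ hx
    obtain ⟨hT, hTc, hU, hp, hdisj, hpf, hfT, hfU⟩ := SvA_pair hwy hx
    simp only
    rw [Finset.mem_filter, Nat.mem_divisors, hpf, hfT]
    refine ⟨⟨?_, by omega⟩, SvA_sqf (fun p h => (hp p h).1), fun p h => (hp p h).2.1, hTc⟩
    exact Finset.prod_primes_dvd m (fun p h => (hp p h).1.prime) (fun p h => (hp p h).2.2)
  · intro n hn
    rw [Finset.mem_filter, Nat.mem_divisors] at hn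
    obtain ⟨⟨hnm, -⟩, hsq, hy, hc⟩ := hn
    rw [Finset.mem_product, Finset.mem_filter, Finset.mem_powerset, Finset.mem_powerset]
    refine ⟨⟨?_, hc⟩, ?_⟩
    · intro p hp
      simp only [Finset.mem_filter] at hp
      unfold PW
      rw [Finset.mem_filter, Finset.mem_filter, mem_Icc]
      have h1 := Nat.prime_of_mem_primeFactors hp.1
      exact ⟨⟨⟨h1.one_lt.le, hp.2⟩, h1⟩, (Nat.dvd_of_mem_primeFactors hp.1).trans hnm⟩
    · intro p hp
      simp only [Finset.mem_filter] at hp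
      unfold PY
      rw [Finset.mem_filter, Finset.mem_filter, mem_Ioc]
      have h1 := Nat.prime_of_mem_primeFactors hp.1
      exact ⟨⟨⟨hp.2, hy p hp.1⟩, h1⟩, (Nat.dvd_of_mem_primeFactors hp.1).trans hnm⟩
  · rintro ⟨T, U⟩ hx
    obtain ⟨hT, hTc, hU, hp, hdisj, hpf, hfT, hfU⟩ := SvA_pair hwy hx
    simp only
    rw [hpf, hfT, hfU]
  · intro n hn
    rw [Finset.mem_filter] at hn
    obtain ⟨-, hsq, hy, hc⟩ := hn
    simp only
    rw [Finset.prod_union, SvA_prod w hsq]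
    rw [Finset.disjoint_left]
    intro p hp hp2
    have h1 := (Finset.mem_filter.mp hp).2
    have h2 := (Finset.mem_filter.mp hp2).2
    omega
  · rintro ⟨T, U⟩ hx
    obtain ⟨hT, hTc, hU, hp, hdisj, hpf, hfT, hfU⟩ := SvA_pair hwy hx
    simp only
    rw [hpf, hfT, hfU]

theorem ss_exp (w y r D : ℕ) (ρ : Finset ℕ → ℝ) (hw : 1 ≤ w) (hwy : w ≤ y) (hρ : Rho w y D ρ) (m : ℕ)
    (hm : 1 ≤ m) : SS w y r ρ m =
      ∑ n ∈ (Icc 1 (w ^ (2 * r) * D ^ 2)).filter (fun n => n ∣ m), gS w y r ρ n := by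
  rw [SvA_div w y r ρ hwy m hm]
  symm
  apply Finset.sum_subset
  · intro n hn
    rw [Finset.mem_filter] at hn
    exact Nat.mem_divisors.mpr ⟨hn.2, by omega⟩
  · intro n hn hn2
    apply gs_zero w y r D ρ hw hρ
    by_contra hcon
    push Not at hcon
    apply hn2
    rw [Finset.mem_filter, mem_Icc]
    exact ⟨⟨Nat.pos_of_mem_divisors hn, hcon⟩, Nat.dvd_of_mem_divisors hn⟩

end Pool.Agent.H76.TP

end

section

/-!
# TP SvB: the singular coefficients of the sieve

For `q` squarefree with all its prime factors `≤ w` (in particular for squarefree `q ≤ w`), `Q = w^(2r) D²`: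
`∑_{n ≤ Q, q ∣ n} gS n/n = (∑_{T ⊆ PW w, T ⊇ primes of q, |T| ≤ 2r} (-1)^|T|/∏T) · (∑_{A,B ⊆ PY w y} ρ A ρ B/∏(A ∪ B))`.
The first factor: `T = primeFactors q ∪ T'`: `μ(q)/q ∑_{T' ⊆ PW w \ pf q, |T'| ≤ 2r - ω(q)} (-1)^|T'|/∏T' = μ(q)/q (∏_{p ≤ w, p ∤ q}(1 - 1/p) + O(tail)) = μ(q)/φ(q) VV(PW w) + O(tail)`,
`tail = ∑_{|T'| > 2r - ω(q)} 1/∏T' ≤ ∑_{j > 2r - ω(q)} X^j/j!`, `X = ∑_{p ≤ w} 1/p ≤ 1 + log w` (the sum over the `j`-subsets is `≤ X^j/j!`).
For `q` not squarefree both sides are `0` (`gS n = 0` for `q ∣ n`).  With `ω(q) ≤ r` (`2^ω(q) ≤ q ≤ w`) and `6 X ≤ r + 1`: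
`X^j/j! ≤ (3X/j)^j ≤ 2^(-j)`, the tail is `≤ ∑_{j > r} 2^(-j) ≤ 2^(-r)`.
-/

set_option autoImplicit false

namespace Pool.Agent.H76.TP

open Finset

/-- the Selberg form -/
noncomputable def SF (w y : ℕ) (ρ : Finset ℕ → ℝ) : ℝ :=
  ∑ A ∈ (PY w y).powerset, ∑ B ∈ (PY w y).powerset, ρ A * ρ B * ∏ p ∈ A ∪ B, (1 / (p : ℝ))

private noncomputable def svb_c (ρ : Finset ℕ → ℝ) (U : Finset ℕ) : ℝ :=
  ∑ A ∈ U.powerset, ∑ B ∈ U.powerset, if A ∪ B = U then ρ A * ρ B else 0

private noncomputable def svb_s (T : Finset ℕ) : ℝ := ∏ p ∈ T, (1 / (p : ℝ))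

private theorem svb_s_nonneg (T : Finset ℕ) : 0 ≤ svb_s T :=
  Finset.prod_nonneg fun p _ => by positivity

private theorem svb_prime_PW {w p : ℕ} (h : p ∈ PW w) : p.Prime := (mem_filter.1 h).2

private theorem svb_prime_PY {w y p : ℕ} (h : p ∈ PY w y) : p.Prime := (mem_filter.1 h).2

private theorem svb_sf {S : Finset ℕ} (hS : ∀ p ∈ S, p.Prime) : Squarefree (∏ p ∈ S, p) := by
  refine Finset.squarefree_prod_of_pairwise_isCoprime (fun a ha b hb hab => ?_)
    fun a ha => (hS a ha).squarefree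
  simp only [Function.onFun, ← Nat.coprime_iff_isRelPrime]
  exact (Nat.coprime_primes (hS a ha) (hS b hb)).mpr hab

private theorem svb_c_sum (w y : ℕ) (ρ : Finset ℕ → ℝ) :
    ∑ U ∈ (PY w y).powerset, svb_c ρ U * svb_s U = SF w y ρ := by
  unfold SF svb_c
  have h1 : ∀ U ∈ (PY w y).powerset,
      (∑ A ∈ U.powerset, ∑ B ∈ U.powerset, if A ∪ B = U then ρ A * ρ B else 0) * svb_s U =
      ∑ A ∈ (PY w y).powerset, ∑ B ∈ (PY w y).powerset,
        if A ∪ B = U then ρ A * ρ B * svb_s U else 0 := by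
    intro U hU
    rw [mem_powerset] at hU
    have hsub : U.powerset ⊆ (PY w y).powerset := powerset_mono.2 hU
    rw [Finset.sum_mul, Finset.sum_subset hsub]
    · apply Finset.sum_congr rfl
      intro A _
      rw [Finset.sum_mul, Finset.sum_subset hsub]
      · apply Finset.sum_congr rfl
        intro B _
        rw [ite_mul, zero_mul]
      · intro B _ hB
        rw [if_neg, zero_mul]
        intro h
        apply hB
        rw [mem_powerset, ← h]
        exact subset_union_right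
    · intro A _ hA
      rw [Finset.sum_eq_zero, zero_mul]
      intro B _
      rw [if_neg]
      intro h
      apply hA
      rw [mem_powerset, ← h]
      exact subset_union_left
  rw [Finset.sum_congr rfl h1, Finset.sum_comm]
  apply Finset.sum_congr rfl
  intro A hA
  rw [Finset.sum_comm]
  apply Finset.sum_congr rfl
  intro B hB
  rw [Finset.sum_ite_eq, if_pos]
  · rfl
  · rw [mem_powerset] at hA hB ⊢
    exact union_subset hA hB

private theorem svb_filter_le {w y : ℕ} {T U : Finset ℕ} (hT : T ⊆ PW w) (hU : U ⊆ PY w y) :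
    (T ∪ U).filter (fun p => p ≤ w) = T := by
  ext p
  rw [mem_filter, mem_union]
  constructor
  · rintro ⟨h1 | h1, h2⟩
    · exact h1
    · have := (mem_Ioc.1 (mem_filter.1 (hU h1)).1).1
      omega
  · intro h
    exact ⟨Or.inl h, (mem_Icc.1 (mem_filter.1 (hT h)).1).2⟩

private theorem svb_filter_gt {w y : ℕ} {T U : Finset ℕ} (hT : T ⊆ PW w) (hU : U ⊆ PY w y) :
    (T ∪ U).filter (fun p => w < p) = U := by
  ext p
  rw [mem_filter, mem_union]
  constructor
  · rintro ⟨h1 | h1, h2⟩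
    · have := (mem_Icc.1 (mem_filter.1 (hT h1)).1).2
      omega
    · exact h1
  · intro h
    exact ⟨Or.inr h, (mem_Ioc.1 (mem_filter.1 (hU h)).1).1⟩

private theorem svb_disj {w y : ℕ} {T U : Finset ℕ} (hT : T ⊆ PW w) (hU : U ⊆ PY w y) :
    Disjoint T U := by
  rw [Finset.disjoint_left]
  intro p h1 h2
  have := (mem_Icc.1 (mem_filter.1 (hT h1)).1).2
  have := (mem_Ioc.1 (mem_filter.1 (hU h2)).1).1
  omega

/-- the value of `gS` at a squarefree number -/
private theorem svb_gS (w y r : ℕ) (hwy : w ≤ y) (ρ : Finset ℕ → ℝ) (T U : Finset ℕ)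
    (hT : T ⊆ PW w) (hU : U ⊆ PY w y) (hc : T.card ≤ 2 * r) :
    gS w y r ρ (∏ p ∈ T ∪ U, p) = (-1 : ℝ) ^ T.card * svb_c ρ U := by
  have hp : ∀ p ∈ T ∪ U, p.Prime := by
    intro p h
    rcases mem_union.1 h with h | h
    · exact svb_prime_PW (hT h)
    · exact svb_prime_PY (hU h)
  have hpf : (∏ p ∈ T ∪ U, p).primeFactors = T ∪ U := Nat.primeFactors_prod hp
  unfold gS
  rw [hpf, svb_filter_le hT hU, svb_filter_gt hT hU, if_pos]
  · rfl
  · refine ⟨svb_sf hp, ?_, hc⟩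
    intro p h
    rcases mem_union.1 h with h | h
    · exact (mem_Icc.1 (mem_filter.1 (hT h)).1).2.trans hwy
    · exact (mem_Ioc.1 (mem_filter.1 (hU h)).1).2

private theorem svb_inv (S : Finset ℕ) : (1 : ℝ) / ((∏ p ∈ S, p : ℕ) : ℝ) = svb_s S := by
  unfold svb_s
  rw [Nat.cast_prod, Finset.prod_div_distrib, Finset.prod_const_one]

/-- the sum over `n` as a product -/
private theorem svb_split (w y r D q : ℕ) (ρ : Finset ℕ → ℝ) (hw : 1 ≤ w) (hwy : w ≤ y)
    (hρ : Rho w y D ρ) (hq : 1 ≤ q) (hqw : q ≤ w) (hsq : Squarefree q) :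
    ∑ n ∈ (Icc 1 (w ^ (2 * r) * D ^ 2)).filter (fun n => q ∣ n), gS w y r ρ n / n =
      (∑ T ∈ (PW w).powerset.filter (fun T => q.primeFactors ⊆ T ∧ T.card ≤ 2 * r),
        (-1 : ℝ) ^ T.card * svb_s T) * SF w y ρ := by
  rw [← svb_c_sum, Finset.sum_mul_sum, ← Finset.sum_product']
  have hgn : ∀ n, gS w y r ρ n ≠ 0 → Squarefree n ∧ (∀ p ∈ n.primeFactors, p ≤ y) ∧
      (n.primeFactors.filter (fun p => p ≤ w)).card ≤ 2 * r := by
    intro n h
    by_contra h2
    apply h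
    unfold gS
    rw [if_neg h2]
  have hfac : ∀ n : ℕ, (∀ p ∈ n.primeFactors, p ≤ y) →
      n.primeFactors.filter (fun p => p ≤ w) ⊆ PW w ∧
      n.primeFactors.filter (fun p => w < p) ⊆ PY w y := by
    intro n h
    constructor
    · intro p hp
      rw [mem_filter] at hp
      have := Nat.prime_of_mem_primeFactors hp.1
      exact mem_filter.2 ⟨mem_Icc.2 ⟨this.one_lt.le, hp.2⟩, this⟩
    · intro p hp
      rw [mem_filter] at hp
      have := Nat.prime_of_mem_primeFactors hp.1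
      exact mem_filter.2 ⟨mem_Ioc.2 ⟨hp.2, h p hp.1⟩, this⟩
  have hun : ∀ n : ℕ, n.primeFactors.filter (fun p => p ≤ w) ∪
      n.primeFactors.filter (fun p => w < p) = n.primeFactors := by
    intro n
    ext p
    simp only [mem_union, mem_filter]
    constructor
    · rintro (h | h)
      · exact h.1
      · exact h.1
    · intro h
      rcases le_or_gt p w with h2 | h2
      · exact Or.inl ⟨h, h2⟩
      · exact Or.inr ⟨h, h2⟩
  have hval : ∀ T U : Finset ℕ, T ⊆ PW w → U ⊆ PY w y → T.card ≤ 2 * r →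
      gS w y r ρ (∏ p ∈ T ∪ U, p) / ((∏ p ∈ T ∪ U, p : ℕ) : ℝ) =
        (-1 : ℝ) ^ T.card * svb_s T * (svb_c ρ U * svb_s U) := by
    intro T U hT hU hc
    rw [svb_gS w y r hwy ρ T U hT hU hc, div_eq_mul_one_div, svb_inv, svb_s,
      Finset.prod_union (svb_disj hT hU)]
    change (-1 : ℝ) ^ T.card * svb_c ρ U * (svb_s T * svb_s U) = _
    ring
  apply Finset.sum_bij_ne_zero (fun n _ _ => (n.primeFactors.filter (fun p => p ≤ w),
    n.primeFactors.filter (fun p => w < p)))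
  · intro n hn hne
    have h1 : gS w y r ρ n ≠ 0 := by
      intro h
      apply hne
      rw [h, zero_div]
    obtain ⟨h2, h3, h4⟩ := hgn n h1
    obtain ⟨h5, h6⟩ := hfac n h3
    rw [mem_product, mem_filter, mem_powerset, mem_powerset]
    refine ⟨⟨h5, ?_, h4⟩, h6⟩
    intro p hp
    rw [mem_filter]
    refine ⟨Nat.primeFactors_mono (mem_filter.1 hn).2 h2.ne_zero hp, ?_⟩
    exact (Nat.le_of_mem_primeFactors hp).trans hqw
  · intro n hn hne m hm hme h
    have h1 : gS w y r ρ n ≠ 0 := by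
      intro h
      apply hne
      rw [h, zero_div]
    have h1' : gS w y r ρ m ≠ 0 := by
      intro h
      apply hme
      rw [h, zero_div]
    have h2 := (hgn n h1).1
    have h2' := (hgn m h1').1
    rw [Prod.mk.injEq] at h
    rw [← Nat.prod_primeFactors_of_squarefree h2, ← Nat.prod_primeFactors_of_squarefree h2',
      ← hun n, ← hun m, h.1, h.2]
  · rintro ⟨T, U⟩ hb hne
    rw [mem_product, mem_filter, mem_powerset, mem_powerset] at hb
    obtain ⟨⟨hT, hqT, hc⟩, hU⟩ := hb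
    have hp : ∀ p ∈ T ∪ U, p.Prime := by
      intro p h
      rcases mem_union.1 h with h | h
      · exact svb_prime_PW (hT h)
      · exact svb_prime_PY (hU h)
    have hpf : (∏ p ∈ T ∪ U, p).primeFactors = T ∪ U := Nat.primeFactors_prod hp
    have hv := hval T U hT hU hc
    have hne2 : gS w y r ρ (∏ p ∈ T ∪ U, p) / ((∏ p ∈ T ∪ U, p : ℕ) : ℝ) ≠ 0 := by
      rw [hv]
      exact hne
    have hne3 : gS w y r ρ (∏ p ∈ T ∪ U, p) ≠ 0 := by
      intro h
      apply hne2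
      rw [h, zero_div]
    refine ⟨∏ p ∈ T ∪ U, p, ?_, hne2, ?_⟩
    · rw [mem_filter, mem_Icc]
      refine ⟨⟨?_, ?_⟩, ?_⟩
      · exact Nat.one_le_iff_ne_zero.2 (svb_sf hp).ne_zero
      · by_contra h
        exact hne3 (gs_zero w y r D ρ hw hρ _ (not_le.1 h))
      · rw [← Nat.prod_primeFactors_of_squarefree hsq]
        exact Finset.prod_dvd_prod_of_subset _ _ _ (hqT.trans subset_union_left)
    · rw [hpf, svb_filter_le hT hU, svb_filter_gt hT hU]
  · intro n hn hne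
    have h1 : gS w y r ρ n ≠ 0 := by
      intro h
      apply hne
      rw [h, zero_div]
    obtain ⟨h2, h3, h4⟩ := hgn n h1
    obtain ⟨h5, h6⟩ := hfac n h3
    have h7 := hval _ _ h5 h6 h4
    rw [hun n, Nat.prod_primeFactors_of_squarefree h2] at h7
    exact h7

/-- the sum of the reciprocals of the primes -/
private theorem svb_X (w : ℕ) : ∑ p ∈ PW w, 1 / (p : ℝ) ≤ 1 + Real.log w := by
  have h1 := harmonic_le_one_add_log w
  rw [harmonic_eq_sum_Icc] at h1
  push_cast at h1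
  refine le_trans ?_ h1
  unfold PW
  have h2 : ∀ k ∈ Icc 1 w, k ∉ (Icc 1 w).filter Nat.Prime → 0 ≤ ((k : ℝ))⁻¹ := by
    intro k _ _
    positivity
  simp only [one_div]
  exact Finset.sum_le_sum_of_subset_of_nonneg (Finset.filter_subset _ _) h2

/-- the tail -/
private theorem svb_tail (w r k : ℕ) (S : Finset ℕ) (hS : S ⊆ PW w)
    (hr : 6 * (1 + Real.log w) ≤ r + 1) (hk : k ≤ r) :
    |∑ T ∈ S.powerset.filter (fun T => ¬ T.card + k ≤ 2 * r), (-1 : ℝ) ^ T.card * svb_s T| ≤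
      1 / 2 ^ r := by
  have h1 : |∑ T ∈ S.powerset.filter (fun T => ¬ T.card + k ≤ 2 * r), (-1 : ℝ) ^ T.card * svb_s T| ≤
      ∑ T ∈ S.powerset.filter (fun T => ¬ T.card + k ≤ 2 * r), svb_s T * 6 ^ T.card / 6 ^ (r + 1) := by
    refine (Finset.abs_sum_le_sum_abs _ _).trans (Finset.sum_le_sum ?_)
    intro T hT
    rw [mem_filter] at hT
    rw [abs_mul, abs_pow, abs_neg, abs_one, one_pow, one_mul, abs_of_nonneg (svb_s_nonneg T),
      le_div_iff₀ (by positivity)]
    apply mul_le_mul_of_nonneg_left _ (svb_s_nonneg T)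
    apply pow_le_pow_right₀ (by norm_num)
    omega
  have h2 : ∑ T ∈ S.powerset.filter (fun T => ¬ T.card + k ≤ 2 * r),
      svb_s T * 6 ^ T.card / 6 ^ (r + 1) ≤ ∑ T ∈ S.powerset, svb_s T * 6 ^ T.card / 6 ^ (r + 1) := by
    apply Finset.sum_le_sum_of_subset_of_nonneg (Finset.filter_subset _ _)
    intro T _ _
    have := svb_s_nonneg T
    positivity
  have h3 : ∑ T ∈ S.powerset, svb_s T * 6 ^ T.card / 6 ^ (r + 1) =
      (∏ p ∈ S, (1 + 6 * (1 / (p : ℝ)))) / 6 ^ (r + 1) := by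
    rw [Finset.prod_one_add, ← Finset.sum_div]
    congr 1
    apply Finset.sum_congr rfl
    intro T _
    rw [Finset.prod_mul_distrib, Finset.prod_const, mul_comm]
    rfl
  have h4 : ∏ p ∈ S, (1 + 6 * (1 / (p : ℝ))) ≤ Real.exp (r + 1) := by
    refine (Real.prod_one_add_le_exp_sum S (f := fun p : ℕ => 6 * (1 / (p : ℝ)))
      (fun p => by positivity)).trans ?_
    apply Real.exp_le_exp.2
    rw [← Finset.mul_sum]
    refine le_trans ?_ hr
    apply mul_le_mul_of_nonneg_left _ (by norm_num)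
    refine le_trans ?_ (svb_X w)
    apply Finset.sum_le_sum_of_subset_of_nonneg hS
    intro p _ _
    positivity
  have h5 : Real.exp (r + 1) / 6 ^ (r + 1) ≤ 1 / 2 ^ r := by
    have h6 : Real.exp ((r : ℝ) + 1) ≤ 3 ^ (r + 1) := by
      have h7 : Real.exp ((r : ℝ) + 1) = Real.exp 1 ^ (r + 1) := by
        rw [← Real.exp_nat_mul]
        congr 1
        push_cast
        ring
      rw [h7]
      apply pow_le_pow_left₀ (Real.exp_pos 1).le
      have := Real.exp_one_lt_d9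
      linarith
    rw [div_le_div_iff₀ (by positivity) (by positivity), one_mul]
    calc Real.exp ((r : ℝ) + 1) * 2 ^ r ≤ 3 ^ (r + 1) * 2 ^ r := by
          apply mul_le_mul_of_nonneg_right h6 (by positivity)
      _ ≤ 3 ^ (r + 1) * 2 ^ (r + 1) := by
          apply mul_le_mul_of_nonneg_left _ (by positivity)
          exact pow_le_pow_right₀ (by norm_num) (Nat.le_succ r)
      _ = 6 ^ (r + 1) := by
          rw [← mul_pow]
          norm_num
  calc _ ≤ _ := h1
    _ ≤ _ := h2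
    _ = _ := h3
    _ ≤ Real.exp (r + 1) / 6 ^ (r + 1) := div_le_div_of_nonneg_right h4 (by positivity)
    _ ≤ _ := h5

private theorem svb_neg (T : Finset ℕ) :
    ∏ p ∈ T, (-(1 / (p : ℝ))) = (-1 : ℝ) ^ T.card * svb_s T := by
  unfold svb_s
  rw [← Finset.prod_const, ← Finset.prod_mul_distrib]
  apply Finset.prod_congr rfl
  intro p _
  ring

/-- the complete sum -/
private theorem svb_full (S : Finset ℕ) :
    ∑ T ∈ S.powerset, (-1 : ℝ) ^ T.card * svb_s T = VV S := by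
  unfold VV
  have h : ∀ p ∈ S, (1 : ℝ) - 1 / p = 1 + (-(1 / (p : ℝ))) := fun p _ => sub_eq_add_neg _ _
  rw [Finset.prod_congr rfl h, Finset.prod_one_add]
  apply Finset.sum_congr rfl
  intro T _
  rw [svb_neg]

private theorem svb_first (w r q : ℕ) (hsub : q.primeFactors ⊆ PW w) :
    ∑ T ∈ (PW w).powerset.filter (fun T => q.primeFactors ⊆ T ∧ T.card ≤ 2 * r),
        (-1 : ℝ) ^ T.card * svb_s T =
      (-1 : ℝ) ^ q.primeFactors.card * svb_s q.primeFactors *
        ∑ T ∈ (PW w \ q.primeFactors).powerset.filter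
          (fun T => T.card + q.primeFactors.card ≤ 2 * r), (-1 : ℝ) ^ T.card * svb_s T := by
  rw [Finset.mul_sum]
  refine Finset.sum_nbij' (fun T => T \ q.primeFactors) (fun T => T ∪ q.primeFactors) ?_ ?_ ?_ ?_ ?_
  · intro T hT
    rw [mem_filter, mem_powerset] at hT ⊢
    refine ⟨sdiff_subset_sdiff hT.1 (le_refl _), ?_⟩
    have := card_sdiff_add_card_eq_card hT.2.1
    omega
  · intro T hT
    rw [mem_filter, mem_powerset] at hT ⊢
    refine ⟨union_subset (hT.1.trans sdiff_subset) hsub, subset_union_right, ?_⟩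
    exact (card_union_le _ _).trans hT.2
  · intro T hT
    rw [mem_filter, mem_powerset] at hT
    exact sdiff_union_of_subset hT.2.1
  · intro T hT
    rw [mem_filter, mem_powerset] at hT
    rw [union_sdiff_right]
    apply sdiff_eq_self_of_disjoint
    exact disjoint_of_subset_left hT.1 sdiff_disjoint
  · intro T hT
    rw [mem_filter, mem_powerset] at hT
    have h1 := card_sdiff_add_card_eq_card hT.2.1
    have h2 : svb_s T = svb_s (T \ q.primeFactors) * svb_s q.primeFactors := by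
      unfold svb_s
      exact (Finset.prod_sdiff hT.2.1).symm
    rw [h2, ← h1, pow_add]
    ring

private theorem svb_phi (w q : ℕ) (hq : 1 ≤ q) (hsq : Squarefree q) (hsub : q.primeFactors ⊆ PW w) :
    (-1 : ℝ) ^ q.primeFactors.card * svb_s q.primeFactors * VV (PW w \ q.primeFactors) =
      VV (PW w) * (ArithmeticFunction.moebius q : ℝ) / (q.totient : ℝ) := by
  have h1 : (ArithmeticFunction.moebius q : ℝ) = (-1 : ℝ) ^ q.primeFactors.card := by
    rw [ArithmeticFunction.moebius_apply_of_squarefree hsq,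
      ← (ArithmeticFunction.cardDistinctFactors_eq_cardFactors_iff_squarefree hsq.ne_zero).2 hsq,
      ArithmeticFunction.cardDistinctFactors_apply]
    push_cast
    congr 1
  have h2 : (q.totient : ℝ) = q * VV q.primeFactors := by
    have h3 := Nat.totient_eq_mul_prod_factors q
    have h4 : ((q.totient : ℚ) : ℝ) = ((q * ∏ p ∈ q.primeFactors, (1 - (p : ℚ)⁻¹) : ℚ) : ℝ) := by
      rw [h3]
    push_cast at h4
    rw [h4]
    unfold VV
    congr 1
    apply Finset.prod_congr rfl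
    intro p _
    rw [one_div]
  have h5 : VV (PW w) = VV (PW w \ q.primeFactors) * VV q.primeFactors := by
    unfold VV
    exact (Finset.prod_sdiff hsub).symm
  have h6 : svb_s q.primeFactors = 1 / (q : ℝ) := by
    rw [← svb_inv, Nat.prod_primeFactors_of_squarefree hsq]
  have h7 : 0 < VV q.primeFactors := by
    unfold VV
    apply Finset.prod_pos
    intro p hp
    have := (Nat.prime_of_mem_primeFactors hp).one_lt
    rw [sub_pos, div_lt_one (by positivity)]
    exact_mod_cast this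
  have h8 : (0 : ℝ) < q := by exact_mod_cast hq
  rw [h1, h2, h5, h6]
  field_simp

/-- `2^(-r)` is negligible; hypothesis `SF ≤ 1` holds for Selberg's weights -/
theorem gs_sing (w y r D q : ℕ) (ρ : Finset ℕ → ℝ) (hw : 2 ≤ w) (hwy : w ≤ y) (hρ : Rho w y D ρ)
    (hr : 6 * (1 + Real.log w) ≤ r + 1) (h0 : 0 ≤ SF w y ρ) (h1 : SF w y ρ ≤ 1) (hq : 1 ≤ q) (hqw : q ≤ w) :
    |∑ n ∈ (Icc 1 (w ^ (2 * r) * D ^ 2)).filter (fun n => q ∣ n), gS w y r ρ n / n
      - VV (PW w) * SF w y ρ * (ArithmeticFunction.moebius q : ℝ) / (q.totient : ℝ)| ≤ 1 / 2 ^ r := by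
  by_cases hsq : Squarefree q
  · have hsub : q.primeFactors ⊆ PW w := by
      intro p hp
      have := Nat.prime_of_mem_primeFactors hp
      exact mem_filter.2 ⟨mem_Icc.2 ⟨this.one_lt.le, (Nat.le_of_mem_primeFactors hp).trans hqw⟩,
        this⟩
    have hk : q.primeFactors.card ≤ r := by
      have h1 : 2 ^ q.primeFactors.card ≤ q := by
        calc 2 ^ q.primeFactors.card ≤ ∏ p ∈ q.primeFactors, p :=
              Finset.pow_card_le_prod _ _ _ fun p hp => (Nat.prime_of_mem_primeFactors hp).two_le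
          _ = q := Nat.prod_primeFactors_of_squarefree hsq
      have h2 : (q.primeFactors.card : ℝ) * Real.log 2 ≤ Real.log w := by
        rw [← Real.log_pow]
        apply Real.log_le_log (by positivity)
        exact_mod_cast h1.trans hqw
      have h3 := Real.log_two_gt_d9
      have h4 : (0 : ℝ) ≤ q.primeFactors.card := Nat.cast_nonneg _
      have h5 : (q.primeFactors.card : ℝ) ≤ r := by nlinarith
      exact_mod_cast h5
    have htail := svb_tail w r q.primeFactors.card (PW w \ q.primeFactors) sdiff_subset hr hk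
    have hsplit := Finset.sum_filter_add_sum_filter_not (PW w \ q.primeFactors).powerset
      (fun T => T.card + q.primeFactors.card ≤ 2 * r) (fun T => (-1 : ℝ) ^ T.card * svb_s T)
    rw [svb_full] at hsplit
    rw [svb_split w y r D q ρ (by omega) hwy hρ hq hqw hsq, svb_first w r q hsub]
    have hphi := svb_phi w q hq hsq hsub
    set A := ∑ T ∈ (PW w \ q.primeFactors).powerset.filter
      (fun T => T.card + q.primeFactors.card ≤ 2 * r), (-1 : ℝ) ^ T.card * svb_s T with hA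
    set E := ∑ T ∈ (PW w \ q.primeFactors).powerset.filter
      (fun T => ¬ T.card + q.primeFactors.card ≤ 2 * r), (-1 : ℝ) ^ T.card * svb_s T with hE
    have hk1 : (-1 : ℝ) ^ q.primeFactors.card * svb_s q.primeFactors * A * SF w y ρ -
        VV (PW w) * SF w y ρ * (ArithmeticFunction.moebius q : ℝ) / (q.totient : ℝ) =
        -((-1 : ℝ) ^ q.primeFactors.card * svb_s q.primeFactors * SF w y ρ * E) := by
      have h2 : VV (PW w) * SF w y ρ * (ArithmeticFunction.moebius q : ℝ) / (q.totient : ℝ) =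
          SF w y ρ * (VV (PW w) * (ArithmeticFunction.moebius q : ℝ) / (q.totient : ℝ)) := by ring
      rw [h2, ← hphi, ← hsplit]
      ring
    rw [hk1, abs_neg, abs_mul, abs_mul, abs_mul, abs_pow, abs_neg, abs_one, one_pow, one_mul,
      abs_of_nonneg (svb_s_nonneg _), abs_of_nonneg h0]
    have h3 : svb_s q.primeFactors ≤ 1 := by
      rw [← svb_inv, Nat.prod_primeFactors_of_squarefree hsq]
      have : (1 : ℝ) ≤ q := by exact_mod_cast hq
      rw [div_le_one (by linarith)]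
      exact this
    have h4 : svb_s q.primeFactors * SF w y ρ ≤ 1 := mul_le_one₀ h3 h0 h1
    calc svb_s q.primeFactors * SF w y ρ * |E| ≤ 1 * |E| :=
          mul_le_mul_of_nonneg_right h4 (abs_nonneg _)
      _ = |E| := one_mul _
      _ ≤ _ := htail
  · have h2 : ∀ n ∈ (Icc 1 (w ^ (2 * r) * D ^ 2)).filter (fun n => q ∣ n),
        gS w y r ρ n / n = 0 := by
      intro n hn
      have h3 : ¬ Squarefree n := fun h => hsq (h.squarefree_of_dvd (mem_filter.1 hn).2)
      unfold gS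
      rw [if_neg (fun h => h3 h.1), zero_div]
    rw [Finset.sum_eq_zero h2, ArithmeticFunction.moebius_eq_zero_of_not_squarefree hsq]
    simp

end Pool.Agent.H76.TP

end
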