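import Pool.Agent.H43.PJ.H76.EHB.Basic
import Pool.Agent.H43.PJ.M08
import Pool.Agent.H43.PJ.M18
import Pool.Agent.H43.PJ.M45
import Pool.Agent.H43.PJ.M48

/-! The parts of this file: H91.TQ.SqpB, H9.TN.SumA, H9.TN.SumB, H9.TN.SumC, H91.TQ.OmG. -/

section

/-!
# TQ SqpB: squares of primes `> y` are rare in almost all blocks

`∑_{1 ≤ m ≤ 6N} sqp m ≤ ∑_{y < p ≤ z} 6N/p² ≤ 6N/y ≤ 12 N^(1-e1)` (`∑_{n > y} 1/n² ≤ 1/y`; `yN e1 N ≥ N^e1/2`).  The blocks `[iH, (i+1)H)`, `i ∈ Icc (N/(2H)) (4N/H)`, are disjoint subsets of `[1, 6N]`: at most `12 N^(1-e1) L^A/H ≤ (N/H)/L^A` of them have `∑ sqp > H/L^A`.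
`sqp_int`: `∑_{(x, x+l]} sqp ≤ ∑_{y < p ≤ z} (l/p² + 1) ≤ l/y + z ≤ l/L^A` for `l ≥ N^(1/2)`, `z ≤ N^(27/100)`.
-/

set_option autoImplicit false

namespace Pool.Agent.H91.TQ

open Finset
open Pool.Agent.H76.TP

private theorem SqpB_ev (e : ℝ) (he : 0 < e) (A : ℕ) (C : ℝ) :
    ∃ N0 : ℕ, ∀ N : ℕ, N0 ≤ N → C * Real.log N ^ A ≤ (N : ℝ) ^ e := by
  have h1 : (fun x : ℝ => Real.log x ^ (A : ℝ)) =o[Filter.atTop] fun x => x ^ e :=
    isLittleO_log_rpow_rpow_atTop (A : ℝ) he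
  have h2 : ∀ᶠ x : ℝ in Filter.atTop, ‖Real.log x ^ (A : ℝ)‖ ≤ (|C| + 1)⁻¹ * ‖x ^ e‖ :=
    h1.def (by positivity)
  have h3 := tendsto_natCast_atTop_atTop (R := ℝ) |>.eventually (h2.and (Filter.eventually_ge_atTop 1))
  obtain ⟨N0, hN0⟩ := Filter.eventually_atTop.1 h3
  refine ⟨N0, fun N hN => ?_⟩
  obtain ⟨h4, h5⟩ := hN0 N hN
  have h6 : 0 ≤ Real.log N := Real.log_nonneg h5
  have h7 : 0 ≤ (N : ℝ) ^ e := Real.rpow_nonneg (by positivity) _
  rw [Real.rpow_natCast, Real.norm_of_nonneg (pow_nonneg h6 A), Real.norm_of_nonneg h7] at h4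
  have h8 : (|C| + 1) * Real.log N ^ A ≤ (N : ℝ) ^ e := by
    have h9 := mul_le_mul_of_nonneg_left h4 (by positivity : 0 ≤ |C| + 1)
    rwa [← mul_assoc, mul_inv_cancel₀ (by positivity), one_mul] at h9
  refine le_trans ?_ h8
  exact mul_le_mul_of_nonneg_right (by linarith [le_abs_self C]) (pow_nonneg h6 A)

/-- `y` is large. -/
private theorem SqpB_y (e1 : ℝ) (he1 : 0 < e1) (A : ℕ) (C : ℝ) :
    ∃ N0 : ℕ, ∀ N : ℕ, N0 ≤ N → C * Real.log N ^ A ≤ yN e1 N ∧ 1 ≤ yN e1 N := by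
  obtain ⟨N1, hN1⟩ := SqpB_ev e1 he1 A (2 * C)
  obtain ⟨N2, hN2⟩ := SqpB_ev e1 he1 0 2
  refine ⟨max N1 N2, fun N hN => ?_⟩
  have h1 := hN1 N (le_trans (le_max_left _ _) hN)
  have h2 := hN2 N (le_trans (le_max_right _ _) hN)
  rw [pow_zero, mul_one] at h2
  have h3 : (N : ℝ) ^ e1 < yN e1 N + 1 := Nat.lt_floor_add_one _
  constructor
  · linarith
  · have h4 : (1 : ℝ) < yN e1 N + 1 := by linarith
    have h5 : (0 : ℝ) < yN e1 N := by linarith
    exact_mod_cast h5

private theorem SqpB_nonneg (y J m : ℕ) : 0 ≤ sqp y J m := by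
  unfold sqp
  positivity

/-- The number of the multiples of `d` in `(x, x + l]`. -/
private theorem SqpB_mult (x l d : ℕ) (hd : 0 < d) :
    ((((Ioc x (x + l)).filter (fun m => d ∣ m)).card : ℕ) : ℝ) ≤ l / d + 1 := by
  have h1 : ((Ioc 0 (x + l)).filter (fun m => d ∣ m)).card =
      ((Ioc 0 x).filter (fun m => d ∣ m)).card + ((Ioc x (x + l)).filter (fun m => d ∣ m)).card := by
    rw [← Finset.card_union_of_disjoint, ← Finset.filter_union, Finset.Ioc_union_Ioc_eq_Ioc (Nat.zero_le x)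
      (Nat.le_add_right x l)]
    exact Finset.disjoint_filter_filter (Finset.Ioc_disjoint_Ioc_of_le le_rfl)
  rw [Nat.Ioc_filter_dvd_card_eq_div, Nat.Ioc_filter_dvd_card_eq_div] at h1
  have hd' : (0 : ℝ) < d := by exact_mod_cast hd
  have h2 : (((x + l) / d : ℕ) : ℝ) ≤ ((x + l : ℕ) : ℝ) / d := Nat.cast_div_le
  have h3 : (x : ℝ) / d < ((x / d : ℕ) : ℝ) + 1 := by
    rw [div_lt_iff₀ hd']
    have h4 : x < (x / d + 1) * d := by
      have h5 := Nat.div_add_mod x d
      have h6 := Nat.mod_lt x hd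
      nlinarith
    exact_mod_cast h4
  have h7 : (((x + l) / d : ℕ) : ℝ) = ((x / d : ℕ) : ℝ) +
      ((((Ioc x (x + l)).filter (fun m => d ∣ m)).card : ℕ) : ℝ) := by
    exact_mod_cast h1
  push_cast at h2
  have h8 : ((x : ℝ) + l) / d = x / d + l / d := add_div _ _ _
  linarith

private theorem SqpB_swap (S : Finset ℕ) (y J : ℕ) :
    ∑ m ∈ S, sqp y J m = ∑ p ∈ PY y (zz y J), (((S.filter (fun m => p ^ 2 ∣ m)).card : ℕ) : ℝ) := by
  unfold sqp
  simp only [Finset.card_filter, Nat.cast_sum]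
  rw [Finset.sum_comm]

private theorem SqpB_inv (y z : ℕ) (hy : 1 ≤ y) : ∑ p ∈ PY y z, ((p : ℝ) ^ 2)⁻¹ ≤ (y : ℝ)⁻¹ := by
  have h1 : ∑ p ∈ PY y z, ((p : ℝ) ^ 2)⁻¹ ≤ ∑ p ∈ Ioc y z, ((p : ℝ) ^ 2)⁻¹ :=
    Finset.sum_le_sum_of_subset_of_nonneg (Finset.filter_subset _ _) fun i _ _ => by positivity
  by_cases hyz : y ≤ z
  · have h2 := sum_Ioc_inv_sq_le_sub (α := ℝ) (by omega : y ≠ 0) hyz
    have h3 : (0 : ℝ) ≤ (z : ℝ)⁻¹ := by positivity
    linarith
  · rw [Finset.Ioc_eq_empty_of_le (by omega), Finset.sum_empty] at h1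
    refine h1.trans ?_
    positivity

private theorem SqpB_total (y J M : ℕ) (hy : 1 ≤ y) : ∑ m ∈ Ioc 0 M, sqp y J m ≤ M / y := by
  rw [SqpB_swap]
  have h1 : ∀ p ∈ PY y (zz y J), ((((Ioc 0 M).filter (fun m => p ^ 2 ∣ m)).card : ℕ) : ℝ) ≤
      M * ((p : ℝ) ^ 2)⁻¹ := by
    intro p _
    rw [Nat.Ioc_filter_dvd_card_eq_div, ← div_eq_mul_inv]
    refine Nat.cast_div_le.trans_eq ?_
    push_cast
    rfl
  refine (Finset.sum_le_sum h1).trans ?_
  rw [← Finset.mul_sum, div_eq_mul_inv]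
  exact mul_le_mul_of_nonneg_left (SqpB_inv _ _ hy) (by positivity)

open Classical in
theorem sqp_blk (e1 θ : ℝ) (he1 : 0 < e1) (hθ : 0 < θ) (hθ2 : θ < 1 / 2) (A : ℕ) : ∃ N0 : ℕ, ∀ N : ℕ, N0 ≤ N → ∀ J : ℕ,
    (((Icc (N / (2 * ⌊(N : ℝ) ^ θ⌋₊)) (4 * N / ⌊(N : ℝ) ^ θ⌋₊)).filter (fun i =>
      (⌊(N : ℝ) ^ θ⌋₊ : ℝ) / Real.log N ^ A <
        ∑ m ∈ Ico (i * ⌊(N : ℝ) ^ θ⌋₊) ((i + 1) * ⌊(N : ℝ) ^ θ⌋₊), sqp (yN e1 N) J m)).card : ℝ) ≤
      (N : ℝ) / ⌊(N : ℝ) ^ θ⌋₊ / Real.log N ^ A := by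
  obtain ⟨N1, hN1⟩ := SqpB_y e1 he1 (2 * A) 5
  refine ⟨max N1 4, fun N hN J => ?_⟩
  obtain ⟨hy1, hy2⟩ := hN1 N (le_trans (le_max_left _ _) hN)
  have hN4 : 4 ≤ N := le_trans (le_max_right _ _) hN
  have hN4' : (4 : ℝ) ≤ N := by exact_mod_cast hN4
  set H : ℕ := ⌊(N : ℝ) ^ θ⌋₊ with hH
  set y : ℕ := yN e1 N with hy
  have hH1 : 1 ≤ H := by
    rw [hH, Nat.one_le_floor_iff]
    exact Real.one_le_rpow (by linarith) hθ.le
  have hHN : 2 * H ≤ N := by
    have h1 : (H : ℝ) ≤ (N : ℝ) ^ θ := Nat.floor_le (by positivity)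
    have h2 : (N : ℝ) ^ θ ≤ (N : ℝ) ^ (1 / 2 : ℝ) :=
      Real.rpow_le_rpow_of_exponent_le (by linarith) hθ2.le
    have h3 : (N : ℝ) ^ (1 / 2 : ℝ) * (N : ℝ) ^ (1 / 2 : ℝ) = N := by
      rw [← Real.rpow_add (by linarith)]
      norm_num
    have h4 : (2 : ℝ) ≤ (N : ℝ) ^ (1 / 2 : ℝ) := by
      by_contra hcon
      push Not at hcon
      have h5 : (0 : ℝ) ≤ (N : ℝ) ^ (1 / 2 : ℝ) := by positivity
      nlinarith
    have h6 : (2 * H : ℝ) ≤ N := by nlinarith
    exact_mod_cast h6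
  have hlog : 1 ≤ Real.log N := by
    have h1 : Real.exp 1 ≤ N := by
      have := Real.exp_one_lt_d9
      linarith
    rw [Real.le_log_iff_exp_le (by linarith)]
    exact h1
  have hLA : 0 < Real.log N ^ A := by positivity
  have hHpos : (0 : ℝ) < H := by exact_mod_cast hH1
  have hypos : (0 : ℝ) < y := by exact_mod_cast hy2
  set K := (Icc (N / (2 * H)) (4 * N / H)).filter (fun i =>
      (H : ℝ) / Real.log N ^ A < ∑ m ∈ Ico (i * H) ((i + 1) * H), sqp y J m) with hK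
  -- sum over the blocks
  have h1 : (K.card : ℝ) * (H / Real.log N ^ A) ≤
      ∑ i ∈ K, ∑ m ∈ Ico (i * H) ((i + 1) * H), sqp y J m := by
    rw [← nsmul_eq_mul]
    refine Finset.card_nsmul_le_sum _ _ _ fun i hi => ?_
    exact (Finset.mem_filter.1 hi).2.le
  have hdisj : (↑K : Set ℕ).PairwiseDisjoint fun i => Ico (i * H) ((i + 1) * H) := by
    intro i _ j _ hij
    rw [Function.onFun, Finset.disjoint_left]
    intro m hm hm'
    rw [Finset.mem_Ico] at hm hm'
    apply hij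
    have h2 : m / H = i := Nat.div_eq_of_lt_le hm.1 (by simpa using hm.2)
    have h3 : m / H = j := Nat.div_eq_of_lt_le hm'.1 (by simpa using hm'.2)
    rw [← h2, ← h3]
  have hsub : K.biUnion (fun i => Ico (i * H) ((i + 1) * H)) ⊆ Ioc 0 (5 * N) := by
    intro m hm
    rw [Finset.mem_biUnion] at hm
    obtain ⟨i, hi, hm⟩ := hm
    rw [Finset.mem_Ico] at hm
    have hi' := Finset.mem_Icc.1 (Finset.mem_filter.1 hi).1
    have h2 : 1 ≤ N / (2 * H) := (Nat.one_le_div_iff (by omega)).2 hHN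
    have h3 : 1 ≤ i := h2.trans hi'.1
    have h4 : i * H ≤ 4 * N := (Nat.mul_le_mul_right H hi'.2).trans (Nat.div_mul_le_self _ _)
    rw [Finset.mem_Ioc]
    constructor
    · have h5 : 1 * 1 ≤ i * H := Nat.mul_le_mul h3 hH1
      omega
    · have h6 : (i + 1) * H = i * H + H := by ring
      omega
  have h2 : ∑ i ∈ K, ∑ m ∈ Ico (i * H) ((i + 1) * H), sqp y J m ≤ ((5 * N : ℕ) : ℝ) / y := by
    rw [← Finset.sum_biUnion hdisj]
    refine (Finset.sum_le_sum_of_subset_of_nonneg hsub fun m _ _ => SqpB_nonneg y J m).trans ?_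
    exact SqpB_total y J (5 * N) hy2
  have h3 : (K.card : ℝ) * (H / Real.log N ^ A) ≤ (N : ℝ) / Real.log N ^ A / Real.log N ^ A := by
    refine (h1.trans h2).trans ?_
    rw [div_div, ← pow_add, ← two_mul, div_le_div_iff₀ hypos (by positivity)]
    push_cast
    nlinarith [mul_le_mul_of_nonneg_left hy1 (by positivity : (0 : ℝ) ≤ N)]
  have h4 : (K.card : ℝ) = (K.card : ℝ) * (H / Real.log N ^ A) * (Real.log N ^ A / H) := by
    field_simp
  rw [h4]
  calc (K.card : ℝ) * (H / Real.log N ^ A) * (Real.log N ^ A / H)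
      ≤ ((N : ℝ) / Real.log N ^ A / Real.log N ^ A) * (Real.log N ^ A / H) :=
        mul_le_mul_of_nonneg_right h3 (by positivity)
    _ = (N : ℝ) / H / Real.log N ^ A := by field_simp

theorem sqp_int (e1 : ℝ) (he1 : 0 < e1) (A : ℕ) : ∃ N0 : ℕ, ∀ N : ℕ, N0 ≤ N → ∀ J x l : ℕ,
    (zz (yN e1 N) J : ℝ) ≤ (N : ℝ) ^ (27 / 100 : ℝ) → (N : ℝ) ^ (1 / 2 : ℝ) ≤ l →
      ∑ m ∈ Ioc x (x + l), sqp (yN e1 N) J m ≤ l / Real.log N ^ A := by
  obtain ⟨N1, hN1⟩ := SqpB_y e1 he1 A 2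
  obtain ⟨N2, hN2⟩ := SqpB_ev (23 / 100) (by norm_num) A 2
  refine ⟨max (max N1 N2) 4, fun N hN J x l hz hl => ?_⟩
  obtain ⟨hy1, hy2⟩ := hN1 N (le_trans (le_trans (le_max_left _ _) (le_max_left _ _)) hN)
  have h23 := hN2 N (le_trans (le_trans (le_max_right _ _) (le_max_left _ _)) hN)
  have hN4 : 4 ≤ N := le_trans (le_max_right _ _) hN
  have hN4' : (4 : ℝ) ≤ N := by exact_mod_cast hN4
  have hlog : 1 ≤ Real.log N := by
    have h1 : Real.exp 1 ≤ N := by
      have := Real.exp_one_lt_d9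
      linarith
    rw [Real.le_log_iff_exp_le (by linarith)]
    exact h1
  have hLA : 0 < Real.log N ^ A := by positivity
  set y : ℕ := yN e1 N with hy
  have hypos : (0 : ℝ) < y := by exact_mod_cast hy2
  rw [SqpB_swap]
  have h1 : ∀ p ∈ PY y (zz y J), ((((Ioc x (x + l)).filter (fun m => p ^ 2 ∣ m)).card : ℕ) : ℝ) ≤
      l * ((p : ℝ) ^ 2)⁻¹ + 1 := by
    intro p hp
    have hp' : 0 < p := by
      have := (Finset.mem_Ioc.1 (Finset.mem_filter.1 hp).1).1
      omega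
    refine (SqpB_mult x l (p ^ 2) (by positivity)).trans_eq ?_
    push_cast
    rw [div_eq_mul_inv]
  refine (Finset.sum_le_sum h1).trans ?_
  rw [Finset.sum_add_distrib, ← Finset.mul_sum, Finset.sum_const, nsmul_eq_mul, mul_one]
  have h2 : ((PY y (zz y J)).card : ℝ) ≤ zz y J := by
    have h3 : (PY y (zz y J)).card ≤ zz y J := by
      refine (Finset.card_filter_le _ _).trans ?_
      rw [Nat.card_Ioc]
      exact Nat.sub_le _ _
    exact_mod_cast h3
  have h4 : (l : ℝ) * ∑ p ∈ PY y (zz y J), ((p : ℝ) ^ 2)⁻¹ ≤ l * (y : ℝ)⁻¹ :=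
    mul_le_mul_of_nonneg_left (SqpB_inv _ _ hy2) (by positivity)
  have h5 : (l : ℝ) * (y : ℝ)⁻¹ ≤ l / Real.log N ^ A / 2 := by
    rw [← div_eq_mul_inv, div_div, div_le_div_iff₀ hypos (by positivity)]
    have := mul_le_mul_of_nonneg_left hy1 (by positivity : (0 : ℝ) ≤ l)
    linarith
  have h6 : (N : ℝ) ^ (27 / 100 : ℝ) ≤ l / Real.log N ^ A / 2 := by
    have h7 : (N : ℝ) ^ (27 / 100 : ℝ) * (N : ℝ) ^ (23 / 100 : ℝ) = (N : ℝ) ^ (1 / 2 : ℝ) := by
      rw [← Real.rpow_add (by linarith)]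
      norm_num
    rw [div_div, le_div_iff₀ (by positivity)]
    calc (N : ℝ) ^ (27 / 100 : ℝ) * (Real.log N ^ A * 2)
        = (N : ℝ) ^ (27 / 100 : ℝ) * (2 * Real.log N ^ A) := by ring
      _ ≤ (N : ℝ) ^ (27 / 100 : ℝ) * (N : ℝ) ^ (23 / 100 : ℝ) :=
        mul_le_mul_of_nonneg_left h23 (by positivity)
      _ ≤ l := by rw [h7]; exact hl
  linarith

end Pool.Agent.H91.TQ

end

section

/-!
# TN SumA: the sums of `E_2` and the sum of `E_3` with one small prime (parameters of the `5/24` version; compare `H9/TM/SumA.lean` and `H91/TQ/ZSumA.lean`)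

`a = 2082/10000`, `b' = 3540/10000`, `b = 3541/10000`; `u = log p/L`, `v = log q/L`, `η` small, `N` large.
* `e2g`: `log(x/p) ≥ L (1 - u) - log 8 ≥ (1 - η) L (1 - u)`, `mert_r` with `f u = 1/(1-u)` on `[s, t]` (as in `e2r`, `H91/TQ/ZSumA.lean`, where `s > 1/4`, `t < 1/3`): `∫_s^t du/(u(1-u)) = log(t/(1-t)) - log(s/(1-s))`.
* `s0_le`: `p² ≤ 16 N` gives `p ≤ N^(1/2 + η)`, `p ∈ PE N b' (1/2 + η)`: `log((1/2+η)/(1/2-η)) + log((1-b')/b') ≤ 0.6015 + 5η` (`log(6460/3540) = 0.60148`), allowed `0.6028`.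
* `s1_le`: `log((1-a)/a) - log((1-b)/b) = log(7918 · 3541/(2082 · 6459)) = 0.73474`, allowed `0.7355`.
* `s2_le`: as `s2_le` of `TM/SumA`: `p q² ≤ 16 N`, `q > N^b'` give `u ≤ 1 - 2b' + η = 0.292 + η` and `v ≤ (1-u)/2 + η`; `v (1 - u - v) ≥ b' (1 - u - b')` for `b' ≤ v ≤ 1 - u - b'`, inner sum `≤ (1/L) (κ ((1-u)/2 - b') + O(η))`, `κ = 1/(b' (1 - u - b'))`,
  `κ ((1-u)/2 - b') = (1/(2b')) (1 - b'/(1 - u - b')) ≤ 0.946916 - 3.188450 u` (tangent of `1/(1-u-b')` at `u = 0.25`: `≥ 2.525252 + 6.376900 (u - 0.25)`), positive up to `u = 0.2969`; outer sum over `PE N a (293/1000)` with `lin_m`: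
  `≤ 0.946916 log(0.293/0.2082) - 3.188450 (0.293 - 0.2082) + small = 0.3236 - 0.2704 = 0.0532`, allowed `0.0540`.
Logarithms of rational numbers: `Real.log_le_iff_le_exp` and `Real.sum_le_exp_of_nonneg` (see `SumA_log` in `TM/SumA.lean`).
-/

set_option autoImplicit false

namespace Pool.Agent.H9.TN

open Finset MeasureTheory
open Pool.Agent.H76.TP
open Pool.Agent.H9.TM (PE)

private theorem SumA_logA : Real.log ((29202 / 100000) / (2082 / 10000)) ≤ 3384 / 10000 := by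
  rw [Real.log_le_iff_le_exp (by norm_num)]
  have h := Real.sum_le_exp_of_nonneg (x := 3384 / 10000) (by norm_num) 6
  refine le_trans ?_ h
  simp only [Finset.sum_range_succ, Finset.sum_range_zero, Nat.factorial]
  norm_num

private theorem SumA_logB : Real.log ((32306460 : ℝ) / 17696460) ≤ 6021 / 10000 := by
  rw [Real.log_le_iff_le_exp (by norm_num)]
  have h := Real.sum_le_exp_of_nonneg (x := 6021 / 10000) (by norm_num) 8
  refine le_trans ?_ h
  simp only [Finset.sum_range_succ, Finset.sum_range_zero, Nat.factorial]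
  norm_num

private theorem SumA_logC : Real.log ((28037638 : ℝ) / 13447638) ≤ 7350 / 10000 := by
  rw [Real.log_le_iff_le_exp (by norm_num)]
  have h := Real.sum_le_exp_of_nonneg (x := 7350 / 10000) (by norm_num) 8
  refine le_trans ?_ h
  simp only [Finset.sum_range_succ, Finset.sum_range_zero, Nat.factorial]
  norm_num

private theorem SumA_log16 : Real.log 16 ≤ 3 := by
  have h1 : Real.log 16 = 4 * Real.log 2 := by
    rw [show (16 : ℝ) = 2 ^ (4 : ℕ) by norm_num, Real.log_pow]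
    norm_num
  have h2 := Real.log_two_lt_d9
  rw [h1]
  linarith only [h2]

private theorem SumA_log8 : Real.log 8 ≤ 3 :=
  (Real.log_le_log (by norm_num) (by norm_num)).trans SumA_log16

private theorem SumA_bigG (δ : ℝ) (hδ : 0 < δ) : ∃ N0 : ℕ, ∀ N : ℕ, N0 ≤ N → (1 : ℝ) < N ∧ 3 ≤ δ * Real.log N := by
  refine ⟨⌈Real.exp (3 / δ)⌉₊, fun N hN => ?_⟩
  have h1 : Real.exp (3 / δ) ≤ N := (Nat.le_ceil _).trans (by exact_mod_cast hN)
  have h0 : 0 < 3 / δ := by positivity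
  have h2 : (1 : ℝ) < Real.exp (3 / δ) := by
    have := Real.add_one_le_exp (3 / δ)
    linarith only [h0, this]
  have h3 : (0 : ℝ) < N := by linarith only [h1, h2]
  refine ⟨by linarith, ?_⟩
  have h4 := (Real.le_log_iff_exp_le h3).2 h1
  rw [div_le_iff₀ hδ] at h4
  linarith

private theorem SumA_mem {N : ℕ} {s t : ℝ} (hN : (1 : ℝ) < N) {p : ℕ} (hp : p ∈ PE N s t) :
    (0 : ℝ) < p ∧ s < Real.log p / Real.log N ∧ Real.log p / Real.log N ≤ t := by
  unfold PE at hp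
  rw [Finset.mem_filter, Finset.mem_Icc] at hp
  obtain ⟨⟨h1, -⟩, -, h3, h4⟩ := hp
  have hp0 : (0 : ℝ) < p := by exact_mod_cast h1
  have hN0 : (0 : ℝ) < N := by linarith only [hN]
  have hL : 0 < Real.log N := Real.log_pos hN
  refine ⟨hp0, ?_, ?_⟩
  · rw [lt_div_iff₀ hL]
    rw [Real.rpow_def_of_pos hN0, ← Real.lt_log_iff_exp_lt hp0] at h3
    linarith
  · rw [div_le_iff₀ hL]
    rw [Real.rpow_def_of_pos hN0, ← Real.log_le_iff_le_exp hp0] at h4
    linarith

private theorem SumA_x {N x : ℕ} (hN : (1 : ℝ) < N) (hx : N ≤ 8 * x) :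
    (0 : ℝ) < x ∧ Real.log N - 3 ≤ Real.log x := by
  have h1 : (N : ℝ) ≤ 8 * x := by exact_mod_cast hx
  have hx0 : (0 : ℝ) < x := by linarith
  have h2 := Real.log_le_log (by linarith) h1
  rw [Real.log_mul (by norm_num) hx0.ne'] at h2
  have := SumA_log8
  exact ⟨hx0, by linarith⟩

private theorem SumA_int (s t : ℝ) (hs : 0 < s) (hst : s < t) (ht : t ≤ 3 / 5) :
    ∫ u in s..t, 1 / (1 - u) / u = Real.log (t / (1 - t)) - Real.log (s / (1 - s)) := by
  have hd : ∀ u ∈ Set.uIcc s t, HasDerivAt (fun u : ℝ => Real.log (u / (1 - u))) (1 / (1 - u) / u) u := by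
    intro u hu
    rw [Set.uIcc_of_le hst.le] at hu
    have hu0 : 0 < u := by linarith [hu.1]
    have hu1 : 0 < 1 - u := by linarith only [hs, hst, ht, hu, hu.2]
    have h1 : HasDerivAt (fun u : ℝ => 1 - u) (-1) u := by
      simpa using (hasDerivAt_id u).const_sub 1
    have h2 : HasDerivAt (fun u : ℝ => u / (1 - u)) ((1 * (1 - u) - u * (-1)) / (1 - u) ^ 2) u :=
      (hasDerivAt_id u).div h1 hu1.ne'
    have h3 := h2.log (div_pos hu0 hu1).ne'
    convert h3 using 1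
    field_simp
    ring
  refine intervalIntegral.integral_eq_sub_of_hasDerivAt hd ?_
  apply ContinuousOn.intervalIntegrable
  rw [Set.uIcc_of_le hst.le]
  refine (continuousOn_const.div (continuousOn_const.sub continuousOn_id) fun u hu => ?_).div continuousOn_id fun u hu => ?_
  · have : 0 < 1 - u := by linarith only [hs, hst, ht, hu, hu.2]
    exact this.ne'
  · exact (lt_of_lt_of_le hs hu.1).ne'

theorem e2g (s t ε : ℝ) (hs : 0 < s) (hst : s < t) (ht : t ≤ 3 / 5) (hε : 0 < ε) : ∃ N0 : ℕ, ∀ N : ℕ, N0 ≤ N → ∀ x : ℕ,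
    N ≤ 8 * x → x ≤ 8 * N →
      ∑ p ∈ PE N s t, 1 / (p * Real.log ((x : ℝ) / p)) ≤ (Real.log (t / (1 - t)) - Real.log (s / (1 - s)) + ε) / Real.log N := by
  obtain ⟨I, hI⟩ : ∃ I : ℝ, I = Real.log (t / (1 - t)) - Real.log (s / (1 - s)) := ⟨_, rfl⟩
  have h1t : 0 < 1 - t := by linarith only [hs, hst, ht]
  have h1s : 0 < 1 - s := by linarith only [hs, hst, ht]
  have ht0 : 0 < t := by linarith
  have hI0 : 0 ≤ I := by
    have h : Real.log (s / (1 - s)) ≤ Real.log (t / (1 - t)) := by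
      refine Real.log_le_log (div_pos hs h1s) ?_
      exact div_le_div₀ ht0.le hst.le h1t (by linarith)
    linarith
  obtain ⟨δ, hδ⟩ : ∃ δ : ℝ, δ = ε / (2 * (I + ε)) := ⟨_, rfl⟩
  have hIε : 0 < I + ε := by linarith
  have hδ0 : 0 < δ := by rw [hδ]; positivity
  have hδI : δ * (I + ε) = ε / 2 := by
    rw [hδ]
    field_simp
  have hδ1 : δ ≤ 1 / 2 := by
    have h : δ * ε ≤ 1 / 2 * ε := by
      have := mul_nonneg hδ0.le hI0
      nlinarith only [hδI, this]
    exact le_of_mul_le_mul_right h hε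
  obtain ⟨N1, hN1⟩ := SumA_bigG (δ * (2 / 5)) (by positivity)
  obtain ⟨N2, hN2⟩ := mert_r s (25 / 4) (ε / 2) hs (by norm_num) (by positivity)
  refine ⟨max N1 N2, fun N hN x hx1 _ => ?_⟩
  obtain ⟨hNr, hηL⟩ := hN1 N (le_trans (le_max_left _ _) hN)
  have hL : 0 < Real.log N := Real.log_pos hNr
  obtain ⟨hx0, hlx⟩ := SumA_x hNr hx1
  have hM := hN2 N (le_trans (le_max_right _ _) hN) s t (fun u => 1 / (1 - u)) le_rfl hst.le (by linarith only [hs, hst, ht])
    (fun u hu => by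
      have hu1 : 2 / 5 ≤ 1 - u := by linarith only [ht, hu, hu.2]
      refine ⟨by positivity, ?_⟩
      show 1 / (1 - u) ≤ 25 / 4
      rw [div_le_iff₀ (by linarith only [hs, hst, ht, hu1])]
      linarith only [hs, hst, ht, hu1])
    (fun u hu v hv => by
      have hu1 : 2 / 5 ≤ 1 - u := by linarith only [ht, hu, hu.2]
      have hv1 : 2 / 5 ≤ 1 - v := by linarith only [ht, hv, hv.2]
      have hu0 : 0 < 1 - u := by linarith only [hs, hst, ht, hu1]
      have hv0 : 0 < 1 - v := by linarith only [hs, hst, ht, hv1]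
      show |1 / (1 - u) - 1 / (1 - v)| ≤ 25 / 4 * |u - v|
      have h1 : 1 / (1 - u) - 1 / (1 - v) = (u - v) / ((1 - u) * (1 - v)) := by
        field_simp
        ring
      have h2 : 4 / 25 ≤ (1 - u) * (1 - v) := by
        have := mul_le_mul hu1 hv1 (by norm_num) hu0.le
        linarith only [this]
      rw [h1, abs_div, abs_of_pos (mul_pos hu0 hv0), div_le_iff₀ (mul_pos hu0 hv0)]
      have h3 := mul_le_mul_of_nonneg_left h2 (abs_nonneg (u - v))
      nlinarith only [h3, abs_nonneg (u - v)])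
  have hM2 : ∑ p ∈ PE N s t, 1 / (1 - Real.log p / Real.log N) / p ≤ I + ε / 2 := by
    rw [hI, ← SumA_int s t hs hst ht]
    exact hM
  have hterm : ∀ p ∈ PE N s t, 1 / (p * Real.log ((x : ℝ) / p)) ≤
      1 / Real.log N / (1 - δ) * (1 / (1 - Real.log p / Real.log N) / p) := by
    intro p hp
    obtain ⟨hp0, hu1, hu2⟩ := SumA_mem hNr hp
    obtain ⟨u, hu⟩ : ∃ u, u = Real.log p / Real.log N := ⟨_, rfl⟩
    have hpu : Real.log p = u * Real.log N := by rw [hu, div_mul_cancel₀ _ hL.ne']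
    rw [← hu] at hu1 hu2 ⊢
    have hu3 : 2 / 5 ≤ 1 - u := by linarith only [ht, hu2]
    have hu4 : 0 < 1 - u := by linarith only [hs, hst, ht, hu2]
    have hd1 : 0 < 1 - δ := by linarith only [hs, hst, ht, hδ1]
    have h1 : (1 - δ) * (Real.log N * (1 - u)) ≤ Real.log ((x : ℝ) / p) := by
      rw [Real.log_div hx0.ne' hp0.ne', hpu]
      have h2 : δ * Real.log N * (2 / 5) ≤ δ * Real.log N * (1 - u) :=
        mul_le_mul_of_nonneg_left hu3 (by positivity)
      have h3 : (1 - δ) * (Real.log N * (1 - u)) = Real.log N - u * Real.log N - δ * Real.log N * (1 - u) := by ring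
      rw [h3]
      linarith only [hηL, hlx, h2]
    have h4 : 1 / (p * Real.log ((x : ℝ) / p)) ≤ 1 / (p * ((1 - δ) * (Real.log N * (1 - u)))) :=
      one_div_le_one_div_of_le (by positivity) (mul_le_mul_of_nonneg_left h1 hp0.le)
    refine h4.trans (le_of_eq ?_)
    field_simp
  have hd1 : 0 < 1 - δ := by linarith only [hs, hst, ht, hδ1]
  rw [← hI]
  calc ∑ p ∈ PE N s t, 1 / (p * Real.log ((x : ℝ) / p))
      ≤ ∑ p ∈ PE N s t, 1 / Real.log N / (1 - δ) * (1 / (1 - Real.log p / Real.log N) / p) :=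
        Finset.sum_le_sum hterm
    _ = 1 / Real.log N / (1 - δ) * ∑ p ∈ PE N s t, 1 / (1 - Real.log p / Real.log N) / p := by
        rw [Finset.mul_sum]
    _ ≤ 1 / Real.log N / (1 - δ) * (I + ε / 2) :=
        mul_le_mul_of_nonneg_left hM2 (by positivity)
    _ = (I + ε) / Real.log N := by
        have h1 : I + ε / 2 = (1 - δ) * (I + ε) := by linarith only [hδI]
        rw [h1]
        field_simp

theorem s0_le : ∃ N0 : ℕ, ∀ N : ℕ, N0 ≤ N → ∀ x : ℕ, N ≤ 8 * x → x ≤ 8 * N →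
    ∑ p ∈ (Icc 1 (16 * N)).filter (fun p : ℕ => p.Prime ∧ (N : ℝ) ^ (3540 / 10000 : ℝ) < p ∧ p ^ 2 ≤ 16 * N),
      1 / (p * Real.log ((x : ℝ) / p)) ≤ (6028 / 10000) / Real.log N := by
  obtain ⟨N1, hN1⟩ := SumA_bigG (1 / 10000) (by norm_num)
  obtain ⟨N2, hN2⟩ := e2g (3540 / 10000) (5001 / 10000) (1 / 10000) (by norm_num) (by norm_num) (by norm_num) (by norm_num)
  refine ⟨max N1 N2, fun N hN x hx1 hx2 => ?_⟩
  obtain ⟨hNr, hηL⟩ := hN1 N (le_trans (le_max_left _ _) hN)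
  have hL : 0 < Real.log N := Real.log_pos hNr
  have hN0 : (0 : ℝ) < N := by linarith only [hNr]
  obtain ⟨hx0, hlx⟩ := SumA_x hNr hx1
  have hM := hN2 N (le_trans (le_max_right _ _) hN) x hx1 hx2
  have hsub : (Icc 1 (16 * N)).filter (fun p : ℕ => p.Prime ∧ (N : ℝ) ^ (3540 / 10000 : ℝ) < p ∧ p ^ 2 ≤ 16 * N) ⊆
      PE N (3540 / 10000) (5001 / 10000) := by
    intro p hp
    rw [Finset.mem_filter, Finset.mem_Icc] at hp
    obtain ⟨⟨h1, -⟩, h2, h3, h4⟩ := hp
    have hp0 : (0 : ℝ) < p := by exact_mod_cast h1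
    have h5 : (p : ℝ) ^ 2 ≤ 16 * N := by exact_mod_cast h4
    have h6 : Real.log ((p : ℝ) ^ 2) ≤ Real.log (16 * N) := Real.log_le_log (by positivity) h5
    rw [Real.log_pow, Real.log_mul (by norm_num) hN0.ne'] at h6
    push_cast at h6
    have h16 := SumA_log16
    have h7 : (p : ℝ) ≤ (N : ℝ) ^ (5001 / 10000 : ℝ) := by
      rw [Real.rpow_def_of_pos hN0, ← Real.log_le_iff_le_exp hp0]
      linarith only [hηL, h6, h16]
    unfold PE
    rw [Finset.mem_filter, Finset.mem_Icc]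
    refine ⟨⟨h1, ?_⟩, h2, h3, h7⟩
    have h12 : (N : ℝ) ^ (5001 / 10000 : ℝ) ≤ (N : ℝ) ^ (1 : ℝ) :=
      Real.rpow_le_rpow_of_exponent_le hNr.le (by norm_num)
    rw [Real.rpow_one] at h12
    exact_mod_cast h7.trans h12
  have hnn : ∀ p ∈ PE N (3540 / 10000) (5001 / 10000), 0 ≤ 1 / (p * Real.log ((x : ℝ) / p)) := by
    intro p hp
    obtain ⟨hp0, -, hu2⟩ := SumA_mem hNr hp
    rw [div_le_iff₀ hL] at hu2
    have h1 : 0 ≤ Real.log ((x : ℝ) / p) := by
      rw [Real.log_div hx0.ne' hp0.ne']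
      linarith only [hηL, hlx, hu2]
    exact one_div_nonneg.2 (mul_nonneg hp0.le h1)
  refine (Finset.sum_le_sum_of_subset_of_nonneg hsub fun p hp _ => hnn p hp).trans (hM.trans ?_)
  refine div_le_div_of_nonneg_right ?_ hL.le
  have h1 : Real.log (5001 / 10000 / (1 - 5001 / 10000)) - Real.log (3540 / 10000 / (1 - 3540 / 10000)) =
      Real.log ((32306460 : ℝ) / 17696460) := by
    rw [← Real.log_div (by norm_num) (by norm_num)]
    norm_num
  rw [h1]
  have := SumA_logB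
  linarith only [this]

theorem s1_le : ∃ N0 : ℕ, ∀ N : ℕ, N0 ≤ N → ∀ x : ℕ, N ≤ 8 * x → x ≤ 8 * N →
    ∑ p ∈ PE N (2082 / 10000) (3541 / 10000), 1 / (p * Real.log ((x : ℝ) / p)) ≤ (7355 / 10000) / Real.log N := by
  obtain ⟨N1, hN1⟩ := SumA_bigG (1 / 10000) (by norm_num)
  obtain ⟨N2, hN2⟩ := e2g (2082 / 10000) (3541 / 10000) (1 / 10000) (by norm_num) (by norm_num) (by norm_num) (by norm_num)
  refine ⟨max N1 N2, fun N hN x hx1 hx2 => ?_⟩
  obtain ⟨hNr, -⟩ := hN1 N (le_trans (le_max_left _ _) hN)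
  have hL : 0 < Real.log N := Real.log_pos hNr
  refine (hN2 N (le_trans (le_max_right _ _) hN) x hx1 hx2).trans ?_
  refine div_le_div_of_nonneg_right ?_ hL.le
  have h1 : Real.log (3541 / 10000 / (1 - 3541 / 10000)) - Real.log (2082 / 10000 / (1 - 2082 / 10000)) =
      Real.log ((28037638 : ℝ) / 13447638) := by
    rw [← Real.log_div (by norm_num) (by norm_num)]
    norm_num
  rw [h1]
  have := SumA_logC
  linarith only [this]

theorem s2_le : ∃ N0 : ℕ, ∀ N : ℕ, N0 ≤ N → ∀ x : ℕ, N ≤ 8 * x → x ≤ 8 * N →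
    ∑ p ∈ PE N (2082 / 10000) (3541 / 10000),
      ∑ q ∈ (Icc 1 (16 * N)).filter (fun q : ℕ => q.Prime ∧ (N : ℝ) ^ (3540 / 10000 : ℝ) < q ∧ p * q ^ 2 ≤ 16 * N),
        1 / (p * q * Real.log ((x : ℝ) / (p * q))) ≤ (540 / 10000) / Real.log N := by
  obtain ⟨N1, hN1⟩ := SumA_bigG (1 / 100000) (by norm_num)
  obtain ⟨N2, hN2⟩ := Pool.Agent.H9.TM.lin_m (1 / 5) 10 (1 / 100000) (by norm_num) (by norm_num) (by norm_num)
  refine ⟨max N1 N2, fun N hN x hx1 _ => ?_⟩
  obtain ⟨hNr, hηL⟩ := hN1 N (le_trans (le_max_left _ _) hN)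
  have hM0 := hN2 N (le_trans (le_max_right _ _) hN)
  have hL : 0 < Real.log N := Real.log_pos hNr
  have hN0 : (0 : ℝ) < N := by linarith only [hNr]
  obtain ⟨hx0, hlx⟩ := SumA_x hNr hx1
  have hM := hM0 (2082 / 10000) (29202 / 100000) (9472 / 10000) (-(31884 / 10000))
    (by norm_num) (by norm_num) (by norm_num) (by rw [abs_of_pos (by norm_num)]; norm_num)
    (by rw [abs_neg, abs_of_pos (by norm_num)]; norm_num) (fun u hu => by
      have := hu.2
      linarith only [this])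
  have hqf0 : ∀ (p : ℕ), (0 : ℝ) < p → ∀ q ∈ (Icc 1 (16 * N)).filter
        (fun q : ℕ => q.Prime ∧ (N : ℝ) ^ (3540 / 10000 : ℝ) < q ∧ p * q ^ 2 ≤ 16 * N),
        (1 ≤ q ∧ q.Prime ∧ (N : ℝ) ^ (3540 / 10000 : ℝ) < q) ∧
        (0 : ℝ) < q ∧ 3540 / 10000 < Real.log q / Real.log N ∧
          Real.log q / Real.log N ≤ (1 - Real.log p / Real.log N) / 2 + 1 / 100000 := by
    intro p hp0 q hqm
    rw [Finset.mem_filter, Finset.mem_Icc] at hqm
    obtain ⟨⟨h1, -⟩, h2, h8, h3⟩ := hqm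
    have hq0 : (0 : ℝ) < q := by exact_mod_cast h1
    obtain ⟨u, hu⟩ : ∃ u, u = Real.log p / Real.log N := ⟨_, rfl⟩
    have hpu : Real.log p = u * Real.log N := by rw [hu, div_mul_cancel₀ _ hL.ne']
    rw [← hu]
    have h5 : (p : ℝ) * (q : ℝ) ^ 2 ≤ 16 * N := by exact_mod_cast h3
    have h6 : Real.log ((p : ℝ) * (q : ℝ) ^ 2) ≤ Real.log (16 * N) :=
      Real.log_le_log (by positivity) h5
    rw [Real.log_mul hp0.ne' (by positivity), Real.log_pow, Real.log_mul (by norm_num) hN0.ne', hpu] at h6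
    push_cast at h6
    have h16 := SumA_log16
    have h7 : Real.log q ≤ ((1 - u) / 2 + 1 / 100000) * Real.log N := by
      have : ((1 - u) / 2 + 1 / 100000) * Real.log N =
        (Real.log N - u * Real.log N) / 2 + 1 / 100000 * Real.log N := by ring
      rw [this]
      linarith only [hηL, h6, h16]
    have h9 : Real.log q / Real.log N ≤ (1 - u) / 2 + 1 / 100000 := by
      rw [div_le_iff₀ hL]
      exact h7
    have h10 : 3540 / 10000 < Real.log q / Real.log N := by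
      have h8' := h8
      rw [lt_div_iff₀ hL]
      rw [Real.rpow_def_of_pos hN0, ← Real.lt_log_iff_exp_lt hq0] at h8'
      linarith only [h8']
    exact ⟨⟨h1, h2, h8⟩, hq0, h10, h9⟩
  have hinner : ∀ p ∈ PE N (2082 / 10000) (29202 / 100000),
      ∑ q ∈ (Icc 1 (16 * N)).filter (fun q : ℕ => q.Prime ∧ (N : ℝ) ^ (3540 / 10000 : ℝ) < q ∧ p * q ^ 2 ≤ 16 * N),
        1 / (p * q * Real.log ((x : ℝ) / (p * q))) ≤
      1 / Real.log N * ((9472 / 10000 + -(31884 / 10000) * (Real.log p / Real.log N)) / p) := by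
    intro p hp
    obtain ⟨hp0, hu1, hu2⟩ := SumA_mem hNr hp
    have hqf1 := hqf0 p hp0
    obtain ⟨u, hu⟩ : ∃ u, u = Real.log p / Real.log N := ⟨_, rfl⟩
    have hpu : Real.log p = u * Real.log N := by rw [hu, div_mul_cancel₀ _ hL.ne']
    rw [← hu] at hu1 hu2 hqf1 ⊢
    have hc : 0 < 3540 / 10000 * (1 - u - 3540 / 10000) - 1 / 100000 := by linarith only [hu2]
    obtain ⟨κ, hκ⟩ : ∃ κ : ℝ, κ = 1 / (3540 / 10000 * (1 - u - 3540 / 10000) - 1 / 100000) := ⟨_, rfl⟩
    have hκ0 : 0 < κ := by rw [hκ]; positivity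
    have hκ10 : κ ≤ 10 := by
      rw [hκ, div_le_iff₀ hc]
      linarith only [hu2]
    have hκc : κ * (3540 / 10000 * (1 - u - 3540 / 10000) - 1 / 100000) = 1 := by
      rw [hκ]
      exact div_mul_cancel₀ _ hc.ne'
    have hin := hM0 (3540 / 10000) ((1 - u) / 2 + 1 / 100000) 0 κ (by norm_num) (by linarith only [hu2]) (by linarith only [hu1])
      (by rw [abs_zero]; norm_num) (by rw [abs_of_pos hκ0]; exact hκ10) (fun v hv => by
        have h1 : 0 ≤ v := by linarith only [hv, hv.1]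
        have h2 : 0 ≤ κ * v := mul_nonneg hκ0.le h1
        linarith only [h2])
    have hqf : ∀ q ∈ (Icc 1 (16 * N)).filter
        (fun q : ℕ => q.Prime ∧ (N : ℝ) ^ (3540 / 10000 : ℝ) < q ∧ p * q ^ 2 ≤ 16 * N),
        (0 : ℝ) < q ∧ 3540 / 10000 < Real.log q / Real.log N ∧
          Real.log q / Real.log N ≤ (1 - u) / 2 + 1 / 100000 ∧ q ∈ PE N (3540 / 10000) ((1 - u) / 2 + 1 / 100000) := by
      intro q hqm
      obtain ⟨⟨h1, h2, h8⟩, hq0, h10, h9⟩ := hqf1 q hqm
      have h7 : Real.log q ≤ ((1 - u) / 2 + 1 / 100000) * Real.log N := by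
        rw [← div_le_iff₀ hL]
        exact h9
      have h11 : (q : ℝ) ≤ (N : ℝ) ^ ((1 - u) / 2 + 1 / 100000) := by
        rw [Real.rpow_def_of_pos hN0, ← Real.log_le_iff_le_exp hq0]
        linarith only [h7]
      refine ⟨hq0, h10, h9, ?_⟩
      unfold PE
      rw [Finset.mem_filter, Finset.mem_Icc]
      refine ⟨⟨h1, ?_⟩, h2, h8, h11⟩
      have h12 : (N : ℝ) ^ ((1 - u) / 2 + 1 / 100000) ≤ (N : ℝ) ^ (1 : ℝ) :=
        Real.rpow_le_rpow_of_exponent_le hNr.le (by linarith only [hu1])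
      rw [Real.rpow_one] at h12
      exact_mod_cast h11.trans h12
    have hterm : ∀ q ∈ (Icc 1 (16 * N)).filter
        (fun q : ℕ => q.Prime ∧ (N : ℝ) ^ (3540 / 10000 : ℝ) < q ∧ p * q ^ 2 ≤ 16 * N),
        1 / (p * q * Real.log ((x : ℝ) / (p * q))) ≤
        1 / Real.log N / p * ((0 + κ * (Real.log q / Real.log N)) / q) := by
      intro q hqm
      obtain ⟨hq0, hv1, hv2, -⟩ := hqf q hqm
      obtain ⟨v, hv⟩ : ∃ v, v = Real.log q / Real.log N := ⟨_, rfl⟩
      have hqv : Real.log q = v * Real.log N := by rw [hv, div_mul_cancel₀ _ hL.ne']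
      rw [← hv] at hv1 hv2 ⊢
      have hD : 0 < 1 - 1 / 100000 - u - v := by linarith only [hv2, hv1]
      have h1 : Real.log N * (1 - 1 / 100000 - u - v) ≤ Real.log ((x : ℝ) / (p * q)) := by
        rw [Real.log_div hx0.ne' (mul_pos hp0 hq0).ne', Real.log_mul hp0.ne' hq0.ne', hpu, hqv]
        have : Real.log N * (1 - 1 / 100000 - u - v) =
          Real.log N - 1 / 100000 * Real.log N - u * Real.log N - v * Real.log N := by ring
        rw [this]
        linarith only [hηL, hlx]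
      have h2 : 3540 / 10000 * (1 - u - 3540 / 10000) - 1 / 100000 ≤ v * (1 - 1 / 100000 - u - v) := by
        have h3 : v * (1 - 1 / 100000 - u - v) -
          (3540 / 10000 * (1 - u - 3540 / 10000) - 1 / 100000) =
          (v - 3540 / 10000) * (1 - u - v - 3540 / 10000 + 2 / 100000) +
            ((1 - v) / 100000 - (v - 3540 / 10000) * (2 / 100000)) := by ring
        have h4 : 0 ≤ (v - 3540 / 10000) * (1 - u - v - 3540 / 10000 + 2 / 100000) :=
          mul_nonneg (by linarith only [hv1]) (by linarith only [hv2, hv1])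
        have h5 : 0 ≤ (1 - v) / 100000 - (v - 3540 / 10000) * (2 / 100000) := by linarith only [hu1, hv2]
        linarith only [hu1, hv2, h4]
      have h3 : 1 ≤ κ * v * (1 - 1 / 100000 - u - v) := by
        have := mul_le_mul_of_nonneg_left h2 hκ0.le
        rw [hκc] at this
        calc (1 : ℝ) ≤ κ * (v * (1 - 1 / 100000 - u - v)) := this
          _ = κ * v * (1 - 1 / 100000 - u - v) := by ring
      have h4 : 1 / (p * q * Real.log ((x : ℝ) / (p * q))) ≤
          1 / (p * q * (Real.log N * (1 - 1 / 100000 - u - v))) :=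
        one_div_le_one_div_of_le (by positivity) (mul_le_mul_of_nonneg_left h1 (by positivity))
      refine h4.trans ?_
      rw [div_le_iff₀ (by positivity)]
      have h5 : 1 / Real.log N / p * ((0 + κ * v) / q) *
          (p * q * (Real.log N * (1 - 1 / 100000 - u - v))) = κ * v * (1 - 1 / 100000 - u - v) := by
        rw [zero_add]
        field_simp
      rw [h5]
      exact h3
    have hfin : κ * ((1 - u) / 2 + 1 / 100000 - 3540 / 10000) + 1 / 100000 ≤
        9472 / 10000 + -(31884 / 10000) * u := by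
      have h1 : (1 - u) / 2 + 1 / 100000 - 3540 / 10000 ≤
          (9471 / 10000 - 31884 / 10000 * u) * (3540 / 10000 * (1 - u - 3540 / 10000) - 1 / 100000) := by
        nlinarith only [hu2, sq_nonneg (u - 1 / 4)]
      have h2 : κ * ((1 - u) / 2 + 1 / 100000 - 3540 / 10000) ≤ 9471 / 10000 - 31884 / 10000 * u := by
        have h3 := mul_le_mul_of_nonneg_left h1 hκ0.le
        calc κ * ((1 - u) / 2 + 1 / 100000 - 3540 / 10000) ≤ _ := h3
          _ = (9471 / 10000 - 31884 / 10000 * u) *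
            (κ * (3540 / 10000 * (1 - u - 3540 / 10000) - 1 / 100000)) := by ring
          _ = 9471 / 10000 - 31884 / 10000 * u := by rw [hκc, mul_one]
      linarith only [h2]
    calc ∑ q ∈ (Icc 1 (16 * N)).filter
          (fun q : ℕ => q.Prime ∧ (N : ℝ) ^ (3540 / 10000 : ℝ) < q ∧ p * q ^ 2 ≤ 16 * N),
          1 / (p * q * Real.log ((x : ℝ) / (p * q)))
        ≤ ∑ q ∈ (Icc 1 (16 * N)).filter
            (fun q : ℕ => q.Prime ∧ (N : ℝ) ^ (3540 / 10000 : ℝ) < q ∧ p * q ^ 2 ≤ 16 * N),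
          1 / Real.log N / p * ((0 + κ * (Real.log q / Real.log N)) / q) := Finset.sum_le_sum hterm
      _ ≤ ∑ q ∈ PE N (3540 / 10000) ((1 - u) / 2 + 1 / 100000),
          1 / Real.log N / p * ((0 + κ * (Real.log q / Real.log N)) / q) := by
          refine Finset.sum_le_sum_of_subset_of_nonneg (fun q hq => (hqf q hq).2.2.2) ?_
          intro q hq _
          obtain ⟨hq0, hv1, -⟩ := SumA_mem hNr hq
          have h1 : 0 < Real.log q / Real.log N := by linarith only [hv1]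
          positivity
      _ = 1 / Real.log N / p * ∑ q ∈ PE N (3540 / 10000) ((1 - u) / 2 + 1 / 100000),
            (0 + κ * (Real.log q / Real.log N)) / q := by rw [Finset.mul_sum]
      _ ≤ 1 / Real.log N / p * (9472 / 10000 + -(31884 / 10000) * u) := by
          refine mul_le_mul_of_nonneg_left (hin.trans ?_) (by positivity)
          rw [zero_mul, zero_add]
          exact hfin
      _ = 1 / Real.log N * ((9472 / 10000 + -(31884 / 10000) * u) / p) := by ring
  have hred : ∑ p ∈ PE N (2082 / 10000) (3541 / 10000),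
      ∑ q ∈ (Icc 1 (16 * N)).filter (fun q : ℕ => q.Prime ∧ (N : ℝ) ^ (3540 / 10000 : ℝ) < q ∧ p * q ^ 2 ≤ 16 * N),
        1 / (p * q * Real.log ((x : ℝ) / (p * q))) =
      ∑ p ∈ PE N (2082 / 10000) (29202 / 100000),
      ∑ q ∈ (Icc 1 (16 * N)).filter (fun q : ℕ => q.Prime ∧ (N : ℝ) ^ (3540 / 10000 : ℝ) < q ∧ p * q ^ 2 ≤ 16 * N),
        1 / (p * q * Real.log ((x : ℝ) / (p * q))) := by
    symm
    apply Finset.sum_subset
    · intro p hp
      unfold PE at hp ⊢
      rw [Finset.mem_filter] at hp ⊢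
      exact ⟨hp.1, hp.2.1, hp.2.2.1, hp.2.2.2.trans
        (Real.rpow_le_rpow_of_exponent_le hNr.le (by norm_num))⟩
    · intro p hp hp2
      obtain ⟨hp0, hu1, hu2⟩ := SumA_mem hNr hp
      have hbig : 29202 / 100000 < Real.log p / Real.log N := by
        by_contra hle
        rw [not_lt, div_le_iff₀ hL] at hle
        apply hp2
        unfold PE at hp ⊢
        rw [Finset.mem_filter] at hp ⊢
        refine ⟨hp.1, hp.2.1, hp.2.2.1, ?_⟩
        rw [Real.rpow_def_of_pos hN0, ← Real.log_le_iff_le_exp hp0]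
        linarith only [hle]
      apply Finset.sum_eq_zero
      intro q hq
      exfalso
      obtain ⟨-, -, h1, h2⟩ := hqf0 p hp0 q hq
      linarith only [hbig, h1, h2]
  rw [hred]
  have hl := SumA_logA
  calc ∑ p ∈ PE N (2082 / 10000) (29202 / 100000),
      ∑ q ∈ (Icc 1 (16 * N)).filter (fun q : ℕ => q.Prime ∧ (N : ℝ) ^ (3540 / 10000 : ℝ) < q ∧ p * q ^ 2 ≤ 16 * N),
        1 / (p * q * Real.log ((x : ℝ) / (p * q)))
      ≤ ∑ p ∈ PE N (2082 / 10000) (29202 / 100000),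
        1 / Real.log N * ((9472 / 10000 + -(31884 / 10000) * (Real.log p / Real.log N)) / p) :=
        Finset.sum_le_sum hinner
    _ = 1 / Real.log N * ∑ p ∈ PE N (2082 / 10000) (29202 / 100000),
        (9472 / 10000 + -(31884 / 10000) * (Real.log p / Real.log N)) / p := by rw [Finset.mul_sum]
    _ ≤ 1 / Real.log N * (540 / 10000) := by
        refine mul_le_mul_of_nonneg_left (hM.trans ?_) (one_div_pos.2 hL).le
        linarith only [hl]
    _ = (540 / 10000) / Real.log N := by ring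

end Pool.Agent.H9.TN

end

section

/-!
# TN SumB: the sum over the pairs of small primes (parameters of the `5/24` version; compare `H9/TM/SumB.lean`)

`a = 2082/10000`, `b = 3541/10000`, `u = log p/L`, `v = log q/L ∈ (a, b]`, `log(x/(pq)) ≥ L (1 - u - v) - log 8 ≥ L (1 - η - u - v)`.  `U = u - a`, `V = v - a ∈ [0, 0.1459]`, `t = U + V ≤ 0.2918`, `c = 1 - 2a = 0.5836`:
`1/(c - t) = 1/c + t/c² + t²/(c² (c - t)) ≤ 1.713503 + 2.936091 t + 10.0621 t²` (`c - t ≥ 0.2918`; slightly larger coefficients for `η`).  `S0 = ∑ 1/p ≤ log(b/a) + ε ≤ 0.53112`, `S1 = ∑ U/p ≤ (b - a) - a log(b/a) + ε ≤ 0.03534`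
(`lin_m`, `α = -a`, `β = 1`; `log(b/a) ≥ 0.53105`), `S2 = ∑ U²/p ≤ ∫_a^b (u-a)²/u du + ε = (b-a)²/2 - a (b-a) + a² log(b/a) + ε ≤ 0.00330` (`mert_r` with `f u = (u - a)²`; or from `(u-a)² ≤ u (u-a)²/a`:
`∫ (u-a)² du/a = (b-a)³/(3a) = 0.00498` is NOT enough).  All ordered pairs: `≤ (1/L) (1.713503 S0² + 2 · 2.936091 S0 S1 + 10.0621 (2 S0 S2 + 2 S1²)) ≤ 0.6548/L`; half of it for `p < q` (symmetry, `SumB_half` in `TM/SumB.lean`): `0.3274`, allowed `0.3285`.
-/

set_option autoImplicit false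

namespace Pool.Agent.H9.TN

open Finset MeasureTheory
open Pool.Agent.H76.TP
open Pool.Agent.H9.TM (PE lin_m)

private theorem SumB_log_up : Real.log (3541 / 10000 / (2082 / 10000)) ≤ 53109 / 100000 := by
  have h2 := Real.log_two_lt_d9
  have e1 : (3541 / 10000 / (2082 / 10000) : ℝ) = 3541 / 2082 := by norm_num
  rw [e1]
  have h3 : Real.log ((3541 / 2082 : ℝ) ^ 17 / 2 ^ 13) ≤ (3541 / 2082 : ℝ) ^ 17 / 2 ^ 13 - 1 :=
    Real.log_le_sub_one_of_pos (by positivity)
  rw [Real.log_div (by positivity) (by positivity), Real.log_pow, Real.log_pow] at h3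
  have h4 : (3541 / 2082 : ℝ) ^ 17 / 2 ^ 13 - 1 ≤ 17604 / 1000000 := by norm_num
  push_cast at h3
  linarith

private theorem SumB_log_lo : 53107 / 100000 ≤ Real.log (3541 / 10000 / (2082 / 10000)) := by
  have h2 := Real.log_two_gt_d9
  have e1 : (3541 / 10000 / (2082 / 10000) : ℝ) = 3541 / 2082 := by norm_num
  rw [e1]
  have h3 : Real.log (2 ^ 13 / (3541 / 2082 : ℝ) ^ 17) ≤ 2 ^ 13 / (3541 / 2082 : ℝ) ^ 17 - 1 :=
    Real.log_le_sub_one_of_pos (by positivity)
  rw [Real.log_div (by positivity) (by positivity), Real.log_pow, Real.log_pow] at h3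
  have h4 : 2 ^ 13 / (3541 / 2082 : ℝ) ^ 17 - 1 ≤ -17298 / 1000000 := by norm_num
  push_cast at h3
  linarith

/-- the quadratic majorant -/
private theorem SumB_quad (η s t : ℝ) (hη : η ≤ 1 / 100000) (hs : 0 ≤ s)
    (hs2 : s ≤ 2918 / 10000) (ht : 5836 / 10000 - η - s ≤ t) :
    0 < t ∧ 1 / t ≤ 171354 / 100000 + 293622 / 100000 * s + 10063 / 1000 * s ^ 2 := by
  have ht0 : 0 < t := by linarith
  refine ⟨ht0, ?_⟩
  rw [div_le_iff₀ ht0]
  have h1 : (171354 / 100000 + 293622 / 100000 * s + 10063 / 1000 * s ^ 2) *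
      (5836 / 10000 - 1 / 100000 - s) ≤
      (171354 / 100000 + 293622 / 100000 * s + 10063 / 1000 * s ^ 2) * t :=
    mul_le_mul_of_nonneg_left (by linarith) (by positivity)
  refine le_trans ?_ h1
  have h2 : 0 ≤ s ^ 2 * (2918 / 10000 - s) := mul_nonneg (by positivity) (by linarith)
  have h3 : 0 ≤ s ^ 2 := by positivity
  have e : (171354 / 100000 + 293622 / 100000 * s + 10063 / 1000 * s ^ 2) *
      (5836 / 10000 - 1 / 100000 - s) =
      171354 / 100000 * (5836 / 10000 - 1 / 100000) +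
      (293622 / 100000 * (5836 / 10000 - 1 / 100000) - 171354 / 100000) * s +
      (10063 / 1000 * (5836 / 10000 - 1 / 100000 - 2918 / 10000) - 293622 / 100000) * s ^ 2 +
      10063 / 1000 * (s ^ 2 * (2918 / 10000 - s)) := by ring
  rw [e]
  have h4 : (1 : ℝ) ≤ 171354 / 100000 * (5836 / 10000 - 1 / 100000) := by norm_num
  have h5 : 0 ≤ (293622 / 100000 * (5836 / 10000 - 1 / 100000) - 171354 / 100000) * s :=
    mul_nonneg (by norm_num) hs
  have h6 : 0 ≤ (10063 / 1000 * (5836 / 10000 - 1 / 100000 - 2918 / 10000) - 293622 / 100000) * s ^ 2 :=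
    mul_nonneg (by norm_num) h3
  linarith

private theorem SumB_half (P : Finset ℕ) (G : ℕ → ℕ → ℝ) (h0 : ∀ p ∈ P, ∀ q ∈ P, 0 ≤ G p q)
    (hs : ∀ p q, G p q = G q p) :
    2 * ∑ p ∈ P, ∑ q ∈ P.filter (fun q => p < q), G p q ≤ ∑ p ∈ P, ∑ q ∈ P, G p q := by
  have h1 : ∑ p ∈ P, ∑ q ∈ P.filter (fun q => p < q), G p q =
      ∑ p ∈ P, ∑ q ∈ P.filter (fun q => q < p), G p q := by
    rw [sum_comm' (t' := P) (s' := fun q => P.filter (fun p => p < q))]
    · exact sum_congr rfl fun p _ => sum_congr rfl fun q _ => hs q p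
    · intro p q
      simp only [mem_filter]
      tauto
  calc 2 * ∑ p ∈ P, ∑ q ∈ P.filter (fun q => p < q), G p q
      = ∑ p ∈ P, ∑ q ∈ P.filter (fun q => p < q), G p q +
        ∑ p ∈ P, ∑ q ∈ P.filter (fun q => q < p), G p q := by
        rw [← h1]
        ring
    _ = ∑ p ∈ P, (∑ q ∈ P.filter (fun q => p < q), G p q +
        ∑ q ∈ P.filter (fun q => q < p), G p q) := by rw [sum_add_distrib]
    _ ≤ ∑ p ∈ P, ∑ q ∈ P, G p q := by
        refine sum_le_sum fun p hp => ?_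
        rw [← sum_union]
        · refine sum_le_sum_of_subset_of_nonneg ?_ fun q hq _ => h0 p hp q hq
          intro q hq
          rw [mem_union, mem_filter, mem_filter] at hq
          rcases hq with hq | hq
          · exact hq.1
          · exact hq.1
        · rw [disjoint_left]
          intro q h2 h3
          rw [mem_filter] at h2 h3
          omega

private theorem SumB_full (P : Finset ℕ) (f : ℕ → ℝ) (c d e : ℝ) :
    ∑ p ∈ P, ∑ q ∈ P, (c + d * (f p + f q) + e * (f p + f q) ^ 2) / ((p : ℝ) * q) =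
      c * (∑ p ∈ P, 1 / (p : ℝ)) ^ 2 + 2 * d * ((∑ p ∈ P, 1 / (p : ℝ)) * ∑ p ∈ P, f p / (p : ℝ)) +
      2 * e * ((∑ p ∈ P, 1 / (p : ℝ)) * ∑ p ∈ P, f p ^ 2 / (p : ℝ) + (∑ p ∈ P, f p / (p : ℝ)) ^ 2) := by
  have h1 : ∀ p q : ℕ, (c + d * (f p + f q) + e * (f p + f q) ^ 2) / ((p : ℝ) * q) =
      c * (1 / (p : ℝ) * (1 / (q : ℝ))) + d * (f p / (p : ℝ) * (1 / (q : ℝ))) +
        d * (1 / (p : ℝ) * (f q / (q : ℝ))) + e * (f p ^ 2 / (p : ℝ) * (1 / (q : ℝ))) +
        e * (1 / (p : ℝ) * (f q ^ 2 / (q : ℝ))) + 2 * e * (f p / (p : ℝ) * (f q / (q : ℝ))) := by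
    intro p q
    rw [div_eq_mul_inv, mul_inv]
    ring
  simp only [h1, sum_add_distrib, ← mul_sum, ← sum_mul]
  ring

/-- the quadratic sum -/
private theorem SumB_sq (ε : ℝ) (hε : 0 < ε) : ∃ N0 : ℕ, ∀ N : ℕ, N0 ≤ N →
    ∑ p ∈ PE N (2082 / 10000) (3541 / 10000),
      (Real.log p / Real.log N - 2082 / 10000) ^ 2 / (p : ℝ) ≤
      ((3541 / 10000) ^ 2 - (2082 / 10000) ^ 2) / 2 -
        2 * (2082 / 10000) * (3541 / 10000 - 2082 / 10000) +
        (2082 / 10000) ^ 2 * Real.log (3541 / 10000 / (2082 / 10000)) + ε := by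
  obtain ⟨N0, hN0⟩ := mert_r (2082 / 10000) 2 ε (by norm_num) (by norm_num) hε
  refine ⟨N0, fun N hN => ?_⟩
  have h := hN0 N hN (2082 / 10000) (3541 / 10000) (fun u => (u - 2082 / 10000) ^ 2) le_rfl
    (by norm_num) (by norm_num) (fun u hu => ⟨by positivity, ?_⟩) (fun u hu v hv => ?_)
  · refine h.trans (le_of_eq ?_)
    have h1 : ∫ u in (2082 / 10000 : ℝ)..(3541 / 10000), (u - 2082 / 10000) ^ 2 / u =
        ∫ u in (2082 / 10000 : ℝ)..(3541 / 10000),
          ((u - 2 * (2082 / 10000)) + (2082 / 10000) ^ 2 * (1 / u)) := by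
      refine intervalIntegral.integral_congr fun u hu => ?_
      rw [Set.uIcc_of_le (by norm_num)] at hu
      have hu0 : u ≠ 0 := by
        have := hu.1
        intro h0
        rw [h0] at this
        norm_num at this
      show (u - 2082 / 10000) ^ 2 / u = (u - 2 * (2082 / 10000)) + (2082 / 10000) ^ 2 * (1 / u)
      field_simp
      ring
    rw [h1]
    have h0 : ∀ u ∈ Set.uIcc (2082 / 10000 : ℝ) (3541 / 10000), u ≠ 0 := by
      intro u hu
      rw [Set.uIcc_of_le (by norm_num)] at hu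
      have := hu.1
      intro h0
      rw [h0] at this
      norm_num at this
    have hint : IntervalIntegrable (fun u : ℝ => (2082 / 10000 : ℝ) ^ 2 * (1 / u)) volume
        (2082 / 10000) (3541 / 10000) :=
      (intervalIntegral.intervalIntegrable_one_div h0 continuousOn_id).const_mul _
    have hint2 : IntervalIntegrable (fun u : ℝ => u - 2 * (2082 / 10000)) volume
        (2082 / 10000) (3541 / 10000) :=
      (continuous_id.sub continuous_const).intervalIntegrable _ _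
    rw [intervalIntegral.integral_add hint2 hint, intervalIntegral.integral_const_mul,
      integral_one_div_of_pos (by norm_num) (by norm_num),
      intervalIntegral.integral_sub intervalIntegral.intervalIntegrable_id
        intervalIntegrable_const, integral_id, intervalIntegral.integral_const, smul_eq_mul]
    ring
  · have h1 : 0 ≤ u - 2082 / 10000 := by linarith [hu.1]
    have h2 : u - 2082 / 10000 ≤ 1 := by linarith [hu.2]
    show (u - 2082 / 10000) ^ 2 ≤ 2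
    have h3 : (u - 2082 / 10000) ^ 2 ≤ 1 ^ 2 := pow_le_pow_left₀ h1 h2 2
    linarith
  · show |(u - 2082 / 10000) ^ 2 - (v - 2082 / 10000) ^ 2| ≤ 2 * |u - v|
    have e : (u - 2082 / 10000) ^ 2 - (v - 2082 / 10000) ^ 2 =
        ((u - 2082 / 10000) + (v - 2082 / 10000)) * (u - v) := by ring
    rw [e, abs_mul]
    refine mul_le_mul_of_nonneg_right ?_ (abs_nonneg _)
    rw [abs_le]
    constructor
    · linarith [hu.1, hv.1]
    · linarith [hu.2, hv.2]

theorem s3_le : ∃ N0 : ℕ, ∀ N : ℕ, N0 ≤ N → ∀ x : ℕ, N ≤ 8 * x → x ≤ 8 * N →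
    ∑ p ∈ PE N (2082 / 10000) (3541 / 10000), ∑ q ∈ (PE N (2082 / 10000) (3541 / 10000)).filter (fun q => p < q),
        1 / (p * q * Real.log ((x : ℝ) / (p * q))) ≤ (3285 / 10000) / Real.log N := by
  obtain ⟨N1, hN1⟩ := lin_m (2082 / 10000) 1 (1 / 1000000) (by norm_num) (by norm_num) (by norm_num)
  obtain ⟨N4, hN4⟩ := SumB_sq (1 / 1000000) (by norm_num)
  obtain ⟨N2, hN2⟩ := exists_nat_ge (Real.exp (100000 * Real.log 8))
  refine ⟨max N4 (max N1 (max N2 3)), fun N hN x hx1 hx2 => ?_⟩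
  have hNN4 : N4 ≤ N := le_trans (le_max_left _ _) hN
  have hN' : max N1 (max N2 3) ≤ N := le_trans (le_max_right _ _) hN
  have hNN1 : N1 ≤ N := le_trans (le_max_left _ _) hN'
  have hNN2 : N2 ≤ N := le_trans (le_trans (le_max_left _ _) (le_max_right _ _)) hN'
  have hN3 : 3 ≤ N := le_trans (le_trans (le_max_right _ _) (le_max_right _ _)) hN'
  have hNp : (0 : ℝ) < N := by exact_mod_cast (by omega : 0 < N)
  have hL1 : 100000 * Real.log 8 ≤ Real.log N := by
    have h1 : Real.exp (100000 * Real.log 8) ≤ N := hN2.trans (by exact_mod_cast hNN2)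
    exact (Real.le_log_iff_exp_le hNp).2 h1
  have h8 : 0 < Real.log 8 := Real.log_pos (by norm_num)
  have hL : 0 < Real.log N := by linarith
  have hS2' := hN4 N hNN4
  set L := Real.log N with hLd
  set P := PE N (2082 / 10000) (3541 / 10000) with hPd
  -- elements of P
  have hP : ∀ p ∈ P, (0 : ℝ) < p ∧ 0 ≤ Real.log p / L - 2082 / 10000 ∧
      Real.log p / L - 2082 / 10000 ≤ 1459 / 10000 := by
    intro p hp
    rw [hPd, PE, mem_filter] at hp
    obtain ⟨hp1, hpp, h1, h2⟩ := hp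
    have hp0 : (0 : ℝ) < p := by exact_mod_cast hpp.pos
    refine ⟨hp0, ?_, ?_⟩
    · have h3 : (2082 / 10000 : ℝ) * L ≤ Real.log p := by
        rw [hLd, ← Real.log_rpow hNp]
        exact Real.log_le_log (Real.rpow_pos_of_pos hNp _) h1.le
      have h4 : (2082 / 10000 : ℝ) ≤ Real.log p / L := by
        rw [le_div_iff₀ hL]
        exact h3
      linarith
    · have h3 : Real.log p ≤ (3541 / 10000 : ℝ) * L := by
        rw [hLd, ← Real.log_rpow hNp]
        exact Real.log_le_log hp0 h2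
      have h4 : Real.log p / L ≤ (3541 / 10000 : ℝ) := by
        rw [div_le_iff₀ hL]
        exact h3
      linarith
  set f : ℕ → ℝ := fun p => Real.log p / L - 2082 / 10000 with hfd
  have hS0 : ∑ p ∈ P, 1 / (p : ℝ) ≤ 53110 / 100000 := by
    have h1 := hN1 N hNN1 (2082 / 10000) (3541 / 10000) 1 0 le_rfl (by norm_num) (by norm_num)
      (by norm_num) (by norm_num) (fun u _ => by norm_num)
    have h2 := SumB_log_up
    have h3 : ∑ p ∈ P, 1 / (p : ℝ) = ∑ p ∈ PE N (2082 / 10000) (3541 / 10000),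
        (1 + 0 * (Real.log p / Real.log N)) / (p : ℝ) :=
      sum_congr rfl fun p _ => by rw [zero_mul, add_zero]
    rw [h3]
    linarith
  have hS1 : ∑ p ∈ P, f p / (p : ℝ) ≤ 3534 / 100000 := by
    have h1 := hN1 N hNN1 (2082 / 10000) (3541 / 10000) (-(2082 / 10000)) 1 le_rfl (by norm_num) (by norm_num)
      (by rw [abs_neg, abs_of_pos (by norm_num)]; norm_num) (by norm_num) (fun u hu => by linarith [hu.1])
    have h2 := SumB_log_lo
    have h3 : ∑ p ∈ P, f p / (p : ℝ) = ∑ p ∈ PE N (2082 / 10000) (3541 / 10000),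
        (-(2082 / 10000) + 1 * (Real.log p / Real.log N)) / (p : ℝ) :=
      sum_congr rfl fun p _ => by
        rw [hfd]
        show (Real.log p / L - 2082 / 10000) / (p : ℝ) = _
        congr 1
        ring
    rw [h3]
    linarith
  have hS2 : ∑ p ∈ P, f p ^ 2 / (p : ℝ) ≤ 33 / 10000 := by
    have h2 := SumB_log_up
    refine hS2'.trans ?_
    linarith
  have hS00 : 0 ≤ ∑ p ∈ P, 1 / (p : ℝ) := sum_nonneg fun p _ => by positivity
  have hS10 : 0 ≤ ∑ p ∈ P, f p / (p : ℝ) := sum_nonneg fun p hp => div_nonneg (hP p hp).2.1 (hP p hp).1.le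
  have hS20 : 0 ≤ ∑ p ∈ P, f p ^ 2 / (p : ℝ) := sum_nonneg fun p _ => by positivity
  -- one term
  have hterm : ∀ p ∈ P, ∀ q ∈ P, 1 / (p * q * Real.log ((x : ℝ) / (p * q))) ≤
      1 / L * ((171354 / 100000 + 293622 / 100000 * (f p + f q) + 10063 / 1000 * (f p + f q) ^ 2) /
        ((p : ℝ) * q)) := by
    intro p hp q hq
    obtain ⟨hp0, hpa, hpb⟩ := hP p hp
    obtain ⟨hq0, hqa, hqb⟩ := hP q hq
    have hx0 : (0 : ℝ) < x := by
      have : 0 < x := by omega
      exact_mod_cast this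
    have hxN : Real.log N - Real.log 8 ≤ Real.log x := by
      rw [← Real.log_div hNp.ne' (by norm_num)]
      refine Real.log_le_log (by positivity) ?_
      rw [div_le_iff₀ (by norm_num)]
      have : (N : ℝ) ≤ 8 * x := by exact_mod_cast hx1
      linarith
    have hlog : Real.log ((x : ℝ) / (p * q)) = Real.log x - (Real.log p + Real.log q) := by
      rw [Real.log_div hx0.ne' (by positivity), Real.log_mul hp0.ne' hq0.ne']
    set η := Real.log 8 / L with hη
    have hη1 : η ≤ 1 / 100000 := by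
      rw [hη, div_le_iff₀ hL]
      linarith
    have hge : 5836 / 10000 - η - (f p + f q) ≤ Real.log ((x : ℝ) / (p * q)) / L := by
      rw [hlog, le_div_iff₀ hL]
      have e1 : Real.log p / L * L = Real.log p := div_mul_cancel₀ _ hL.ne'
      have e2 : Real.log q / L * L = Real.log q := div_mul_cancel₀ _ hL.ne'
      have e3 : η * L = Real.log 8 := div_mul_cancel₀ _ hL.ne'
      have e4 : (5836 / 10000 - η - (f p + f q)) * L = 5836 / 10000 * L - η * L -
          (Real.log p / L * L - 2082 / 10000 * L + (Real.log q / L * L - 2082 / 10000 * L)) := by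
        rw [hfd]
        ring
      rw [e4, e1, e2, e3]
      linarith
    obtain ⟨ht0, ht⟩ := SumB_quad η (f p + f q) _ hη1 (add_nonneg hpa hqa) (by
      have h5 : f p ≤ 1459 / 10000 := hpb
      have h6 : f q ≤ 1459 / 10000 := hqb
      linarith) hge
    have hpq : (0 : ℝ) < p * q := mul_pos hp0 hq0
    have e5 : 1 / ((p : ℝ) * q * Real.log ((x : ℝ) / (p * q))) =
        1 / L * (1 / (Real.log ((x : ℝ) / (p * q)) / L) / ((p : ℝ) * q)) := by
      have hlg : Real.log ((x : ℝ) / (p * q)) ≠ 0 := by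
        intro h0
        rw [h0, zero_div] at ht0
        exact lt_irrefl _ ht0
      field_simp
    rw [e5]
    refine mul_le_mul_of_nonneg_left ?_ (by positivity)
    exact div_le_div_of_nonneg_right ht hpq.le
  set G : ℕ → ℕ → ℝ := fun p q => (171354 / 100000 + 293622 / 100000 * (f p + f q) +
    10063 / 1000 * (f p + f q) ^ 2) / ((p : ℝ) * q) with hGd
  have hG0 : ∀ p ∈ P, ∀ q ∈ P, 0 ≤ G p q := by
    intro p hp q hq
    have h5 : 0 ≤ f p := (hP p hp).2.1
    have h6 : 0 ≤ f q := (hP q hq).2.1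
    have h7 := (hP p hp).1
    have h8 := (hP q hq).1
    rw [hGd]
    positivity
  have hGs : ∀ p q, G p q = G q p := by
    intro p q
    rw [hGd]
    show (171354 / 100000 + 293622 / 100000 * (f p + f q) + 10063 / 1000 * (f p + f q) ^ 2) / ((p : ℝ) * q) =
      (171354 / 100000 + 293622 / 100000 * (f q + f p) + 10063 / 1000 * (f q + f p) ^ 2) / ((q : ℝ) * p)
    rw [add_comm (f p) (f q), mul_comm (p : ℝ) q]
  have hhalf := SumB_half P G hG0 hGs
  have hfull : ∑ p ∈ P, ∑ q ∈ P, G p q = _ :=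
    SumB_full P f (171354 / 100000) (293622 / 100000) (10063 / 1000)
  have hb : ∑ p ∈ P, ∑ q ∈ P.filter (fun q => p < q), G p q ≤ 3285 / 10000 := by
    have h1 : (∑ p ∈ P, 1 / (p : ℝ)) ^ 2 ≤ (53110 / 100000) ^ 2 := pow_le_pow_left₀ hS00 hS0 2
    have h2 : (∑ p ∈ P, 1 / (p : ℝ)) * ∑ p ∈ P, f p / (p : ℝ) ≤ 53110 / 100000 * (3534 / 100000) :=
      mul_le_mul hS0 hS1 hS10 (by norm_num)
    have h3 : (∑ p ∈ P, 1 / (p : ℝ)) * ∑ p ∈ P, f p ^ 2 / (p : ℝ) ≤ 53110 / 100000 * (33 / 10000) :=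
      mul_le_mul hS0 hS2 hS20 (by norm_num)
    have h4 : (∑ p ∈ P, f p / (p : ℝ)) ^ 2 ≤ (3534 / 100000) ^ 2 := pow_le_pow_left₀ hS10 hS1 2
    rw [hfull] at hhalf
    linarith
  calc ∑ p ∈ P, ∑ q ∈ P.filter (fun q => p < q), 1 / (p * q * Real.log ((x : ℝ) / (p * q)))
      ≤ ∑ p ∈ P, ∑ q ∈ P.filter (fun q => p < q), 1 / L * G p q :=
        sum_le_sum fun p hp => sum_le_sum fun q hq => hterm p hp q (mem_filter.1 hq).1
    _ = 1 / L * ∑ p ∈ P, ∑ q ∈ P.filter (fun q => p < q), G p q := by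
        rw [mul_sum]
        exact sum_congr rfl fun p _ => by rw [mul_sum]
    _ ≤ 1 / L * (3285 / 10000) := mul_le_mul_of_nonneg_left hb (by positivity)
    _ = (3285 / 10000) / L := by ring

end Pool.Agent.H9.TN

end

section

/-!
# TN SumC: the sum of `E_4` (parameters of the `5/24` version; compare `H9/TM/SumC.lean`, where `1 ≤ t/a` is used instead of (*))

`a = 2082/10000`; `p ≤ q ≤ r`, `p q r² ≤ 16 N`; `t1, t2, t3 = log(.)/L ≥ a`, `E = 1 + η` (`16 N ≤ N^E`), `t1 + t2 + 2 t3 ≤ E`; `log(x/(pqr)) ≥ L t4`, `t4 = 1 - η - t1 - t2 - t3 ≥ t3 - 2η ≥ a - 2η`.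
(*) `t1 t2 t3 t4 ≥ (1 - O(η)) a³ (1 - 3a)` (`t_i = a + s_i`, `s_i ≥ 0` up to `O(η)`: `∏ (a + s_i) ≥ a⁴ + a³ ∑ s_i`), so `1/(p q r log(x/(pqr))) ≤ (1/L) (295.2 + O(η)) (t1/p) (t2/q) (t3/r)`, `1/(a³ (1-3a)) = 295.17`.
Sums of `t/p` are Riemann sums of `∫ dt`: `∑_r t3/r ≤ (E - t1 - t2)/2 - t2 + η + ε` (`lin_m`, `α = 0`, `β = 1`; empty if `t1 + 3 t2 > E + η`), `∑_q (t2/q) (E - t1 - 3t2 + 2η)_+ ≤ (E + 2η - 4 t1 + 3η)²/6 + ε` (`mert_r` with `f t = t (..)_+`),
`∑_p (t1/p) (E + 5η - 4 t1)²_+ ≤ (E + 5η - 4a)³/12 + ε`.  Total `≤ (1/L) 295.2 (1/2)(1/6)(1/12) (0.1672 + ..)³ = 295.2 · 0.0000324592 = 0.009582`, allowed `0.0098`.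
-/

set_option autoImplicit false

namespace Pool.Agent.H9.TN

open Finset MeasureTheory
open Pool.Agent.H76.TP
open Pool.Agent.H9.TM (PE)

private theorem sumC_prod {t1 t2 t3 w : ℝ} (h1 : 2082 / 10000 ≤ t1) (h2 : 2082 / 10000 ≤ t2)
    (h3 : 2082 / 10000 ≤ t3) (h1' : t1 ≤ 3 / 10) (h2' : t2 ≤ 3 / 10) (h3' : t3 ≤ 3 / 10)
    (hw : 2082 / 10000 - 2 / 1000000 ≤ w) (hs : t1 + t2 + t3 + w = 1 - 1 / 1000000) :
    1 ≤ 2952 / 10 * (t1 * (t2 * t3)) * w := by
  obtain ⟨s1, rfl⟩ : ∃ s, t1 = 2082 / 10000 + s := ⟨t1 - 2082 / 10000, by ring⟩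
  obtain ⟨s2, rfl⟩ : ∃ s, t2 = 2082 / 10000 + s := ⟨t2 - 2082 / 10000, by ring⟩
  obtain ⟨s3, rfl⟩ : ∃ s, t3 = 2082 / 10000 + s := ⟨t3 - 2082 / 10000, by ring⟩
  obtain ⟨s4, rfl⟩ : ∃ s, w = 2082 / 10000 + s - 2 / 1000000 :=
    ⟨w - 2082 / 10000 + 2 / 1000000, by ring⟩
  have g1 : 0 ≤ s1 := by linarith only [h1]
  have g2 : 0 ≤ s2 := by linarith only [h2]
  have g3 : 0 ≤ s3 := by linarith only [h3]
  have g4 : 0 ≤ s4 := by linarith only [hw]
  have hsum : s1 + s2 + s3 + s4 = 1 + 1 / 1000000 - 4 * (2082 / 10000) := by linarith only [hs]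
  have k1 : (2082 / 10000 : ℝ) ^ 4 + (2082 / 10000) ^ 3 * (s1 + s2 + s3 + s4) ≤
      (2082 / 10000 + s1) * ((2082 / 10000 + s2) * (2082 / 10000 + s3)) * (2082 / 10000 + s4) := by
    have : 0 ≤ (2082 / 10000 : ℝ) ^ 2 * (s1 * s2 + s1 * s3 + s1 * s4 + s2 * s3 + s2 * s4 + s3 * s4) +
        2082 / 10000 * (s1 * s2 * s3 + s1 * s2 * s4 + s1 * s3 * s4 + s2 * s3 * s4) +
        s1 * s2 * s3 * s4 := by positivity
    nlinarith only [this]
  have k2 : (2082 / 10000 + s1) * ((2082 / 10000 + s2) * (2082 / 10000 + s3)) ≤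
      3 / 10 * (3 / 10 * (3 / 10)) :=
    mul_le_mul h1' (mul_le_mul h2' h3' (by positivity) (by norm_num)) (by positivity) (by norm_num)
  rw [hsum] at k1
  have k3 : (2082 / 10000 + s1) * ((2082 / 10000 + s2) * (2082 / 10000 + s3)) *
      (2082 / 10000 + s4 - 2 / 1000000) =
      (2082 / 10000 + s1) * ((2082 / 10000 + s2) * (2082 / 10000 + s3)) * (2082 / 10000 + s4) -
      2 / 1000000 * ((2082 / 10000 + s1) * ((2082 / 10000 + s2) * (2082 / 10000 + s3))) := by ring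
  rw [mul_assoc, k3]
  norm_num at k1 k2 ⊢
  linarith only [k1, k2]

private theorem sumC_mem {N : ℕ} {s t : ℝ} (hN : 1 < (N : ℝ)) {p : ℕ} (hp : p ∈ PE N s t) :
    (0 : ℝ) < p ∧ s ≤ Real.log p / Real.log N ∧ Real.log p / Real.log N ≤ t := by
  rw [PE, mem_filter] at hp
  obtain ⟨hp1, hpp, h1, h2⟩ := hp
  have hp0 : (0 : ℝ) < p := by exact_mod_cast hpp.pos
  have hN0 : (0 : ℝ) < N := by linarith
  have hL : 0 < Real.log N := Real.log_pos hN
  refine ⟨hp0, ?_, ?_⟩
  · rw [le_div_iff₀ hL]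
    have h3 := Real.log_le_log (Real.rpow_pos_of_pos hN0 s) h1.le
    rwa [Real.log_rpow hN0] at h3
  · rw [div_le_iff₀ hL]
    have h3 := Real.log_le_log hp0 h2
    rwa [Real.log_rpow hN0] at h3

private theorem sumC_low {N p q : ℕ} {η : ℝ} (hN : 1 < (N : ℝ)) (hη : 0 < η) (hp : (0 : ℝ) < p)
    (hpq : p ≤ q) : (N : ℝ) ^ (Real.log p / Real.log N - η) < q := by
  have hN0 : (0 : ℝ) < N := by linarith
  have hL : 0 < Real.log N := Real.log_pos hN
  have h1 : (N : ℝ) ^ (Real.log p / Real.log N) = p := by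
    rw [Real.rpow_def_of_pos hN0, mul_div_cancel₀ _ hL.ne', Real.exp_log hp]
  have h2 : (N : ℝ) ^ (Real.log p / Real.log N - η) < (N : ℝ) ^ (Real.log p / Real.log N) :=
    Real.rpow_lt_rpow_of_exponent_lt hN (by linarith only [hη])
  have h3 : (p : ℝ) ≤ q := by exact_mod_cast hpq
  linarith only [h1, h2, h3]

private theorem sumC_mono {N : ℕ} (hN : 1 < (N : ℝ)) {Q : Finset ℕ} {s t u v : ℝ}
    (hQ : ∀ q ∈ Q, q ∈ PE N s t ∧ (N : ℝ) ^ u < q) {F : ℕ → ℝ} {f : ℝ → ℝ}
    (hf : ∀ z ∈ Set.Icc u v, 0 ≤ f z)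
    (hF : ∀ q ∈ Q, Real.log q / Real.log N ≤ v → F q ≤ f (Real.log q / Real.log N) / q)
    (hF' : ∀ q ∈ Q, ¬ Real.log q / Real.log N ≤ v → F q ≤ 0) :
    ∑ q ∈ Q, F q ≤ ∑ q ∈ PE N u v, f (Real.log q / Real.log N) / q := by
  have hN0 : (0 : ℝ) < N := by linarith
  have hL : 0 < Real.log N := Real.log_pos hN
  calc ∑ q ∈ Q, F q ≤ ∑ q ∈ Q, if Real.log q / Real.log N ≤ v then
        f (Real.log q / Real.log N) / q else 0 := by
        refine sum_le_sum fun q hq => ?_
        split_ifs with h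
        · exact hF q hq h
        · exact hF' q hq h
    _ = ∑ q ∈ Q.filter (fun q : ℕ => Real.log q / Real.log N ≤ v), f (Real.log q / Real.log N) / q := by
        rw [sum_filter]
    _ ≤ ∑ q ∈ PE N u v, f (Real.log q / Real.log N) / q := by
        refine sum_le_sum_of_subset_of_nonneg ?_ fun q hq _ => ?_
        · intro q hq
          rw [mem_filter] at hq
          obtain ⟨h1, h2⟩ := hQ q hq.1
          have h3 := (sumC_mem hN h1).1
          rw [PE, mem_filter] at h1 ⊢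
          refine ⟨h1.1, h1.2.1, h2, ?_⟩
          have h4 := hq.2
          rw [div_le_iff₀ hL] at h4
          rw [← Real.log_le_log_iff h3 (Real.rpow_pos_of_pos hN0 v), Real.log_rpow hN0]
          exact h4
        · obtain ⟨h1, h2, h3⟩ := sumC_mem hN hq
          exact div_nonneg (hf _ ⟨h2, h3⟩) h1.le

private theorem sumC_term {N x p q r : ℕ} (hN : 1 < (N : ℝ))
    (h16 : Real.log 16 ≤ 1 / 1000000 * Real.log N) (hx : N ≤ 8 * x)
    (hp : p ∈ PE N (2082 / 10000) (3 / 10)) (hq : q ∈ PE N (2082 / 10000) (3 / 10))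
    (hr : r ∈ PE N (2082 / 10000) (3 / 10))
    (hpqr : Real.log p / Real.log N + Real.log q / Real.log N + 2 * (Real.log r / Real.log N) ≤
      1 + 1 / 1000000) :
    1 / (p * q * r * Real.log ((x : ℝ) / (p * q * r))) ≤
      2952 / 10 / Real.log N * (Real.log p / Real.log N / p * (Real.log q / Real.log N / q *
        (Real.log r / Real.log N / r))) := by
  obtain ⟨hp0, hp1, hp2⟩ := sumC_mem hN hp
  obtain ⟨hq0, hq1, hq2⟩ := sumC_mem hN hq
  obtain ⟨hr0, hr1, hr2⟩ := sumC_mem hN hr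
  have hN0 : (0 : ℝ) < N := by linarith only [hN]
  have hL : 0 < Real.log N := Real.log_pos hN
  have hx0 : (0 : ℝ) < x := by
    have : (N : ℝ) ≤ 8 * x := by exact_mod_cast hx
    linarith only [hN, this]
  have h8 : Real.log 8 ≤ Real.log 16 := Real.log_le_log (by norm_num) (by norm_num)
  have hlx : Real.log N ≤ Real.log 8 + Real.log x := by
    rw [← Real.log_mul (by norm_num) hx0.ne']
    exact Real.log_le_log hN0 (by exact_mod_cast hx)
  have hlog : Real.log ((x : ℝ) / (p * q * r)) = Real.log x - (Real.log p + Real.log q + Real.log r) := by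
    rw [Real.log_div hx0.ne' (by positivity), Real.log_mul (by positivity) hr0.ne',
      Real.log_mul hp0.ne' hq0.ne']
  set L := Real.log N with hLd
  obtain ⟨t1, ht1⟩ : ∃ t, t = Real.log p / L := ⟨_, rfl⟩
  obtain ⟨t2, ht2⟩ : ∃ t, t = Real.log q / L := ⟨_, rfl⟩
  obtain ⟨t3, ht3⟩ : ∃ t, t = Real.log r / L := ⟨_, rfl⟩
  rw [← ht1] at hp1 hp2 hpqr ⊢
  rw [← ht2] at hq1 hq2 hpqr ⊢
  rw [← ht3] at hr1 hr2 hpqr ⊢
  have e1 : Real.log p = t1 * L := by rw [ht1, div_mul_cancel₀ _ hL.ne']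
  have e2 : Real.log q = t2 * L := by rw [ht2, div_mul_cancel₀ _ hL.ne']
  have e3 : Real.log r = t3 * L := by rw [ht3, div_mul_cancel₀ _ hL.ne']
  rw [e1, e2, e3] at hlog
  have hw := sumC_prod (w := 1 - 1 / 1000000 - t1 - t2 - t3) hp1 hq1 hr1 hp2 hq2 hr2 (by linarith only [hpqr, hr1])
    (by ring)
  have hw0 : 0 < 1 - 1 / 1000000 - t1 - t2 - t3 := by linarith only [hpqr, hr1]
  have hlow : L * (1 - 1 / 1000000 - t1 - t2 - t3) ≤ Real.log ((x : ℝ) / (p * q * r)) := by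
    rw [hlog]
    have : L * (1 - 1 / 1000000 - t1 - t2 - t3) =
        L - 1 / 1000000 * L - (t1 * L + t2 * L + t3 * L) := by ring
    rw [this]
    linarith only [h8, h16, hlx]
  have hpos : 0 < L * (1 - 1 / 1000000 - t1 - t2 - t3) := mul_pos hL hw0
  have hd : 0 < (p : ℝ) * q * r := by positivity
  calc 1 / (p * q * r * Real.log ((x : ℝ) / (p * q * r)))
      ≤ 1 / (p * q * r * (L * (1 - 1 / 1000000 - t1 - t2 - t3))) :=
        one_div_le_one_div_of_le (mul_pos hd hpos) (mul_le_mul_of_nonneg_left hlow hd.le)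
    _ ≤ 2952 / 10 * (t1 * (t2 * t3)) * (1 - 1 / 1000000 - t1 - t2 - t3) /
        (p * q * r * (L * (1 - 1 / 1000000 - t1 - t2 - t3))) :=
        div_le_div_of_nonneg_right hw (mul_pos hd hpos).le
    _ = 2952 / 10 / L * (t1 / p * (t2 / q * (t3 / r))) := by
        have hw0' := hw0.ne'
        have hL' := hL.ne'
        have hp' := hp0.ne'
        have hq' := hq0.ne'
        have hr' := hr0.ne'
        generalize 1 - 1 / 1000000 - t1 - t2 - t3 = w at *
        field_simp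

/-- the sum over `r` -/
private theorem sumC_r {N N1 : ℕ} (hN1 : ∀ N : ℕ, N1 ≤ N →
    ∀ a b α β : ℝ, 1 / 5 ≤ a → a ≤ b → b ≤ 1 → |α| ≤ 1 → |β| ≤ 1 →
      (∀ u ∈ Set.Icc a b, 0 ≤ α + β * u) →
      ∑ p ∈ PE N a b, (α + β * (Real.log p / Real.log N)) / p ≤
        α * Real.log (b / a) + β * (b - a) + 1 / 100000000)
    (hNN : N1 ≤ N) (hN : 1 < (N : ℝ)) {p q : ℕ}
    (hp : p ∈ PE N (2082 / 10000) (3 / 10)) (hq : q ∈ PE N (2082 / 10000) (3 / 10))
    {Q : Finset ℕ} (hQ : ∀ r ∈ Q, r ∈ PE N (2082 / 10000) (3 / 10) ∧ q ≤ r ∧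
      Real.log p / Real.log N + Real.log q / Real.log N + 2 * (Real.log r / Real.log N) ≤
      1 + 1 / 1000000)
    (hpq : Real.log p / Real.log N + 3 * (Real.log q / Real.log N) ≤ 1 + 1 / 1000000) :
    ∑ r ∈ Q, Real.log r / Real.log N / r ≤
      (1 + 1 / 1000000 - Real.log p / Real.log N - 3 * (Real.log q / Real.log N)) / 2 +
        1 / 1000000 + 1 / 100000000 := by
  obtain ⟨hp0, hp1, hp2⟩ := sumC_mem hN hp
  obtain ⟨hq0, hq1, hq2⟩ := sumC_mem hN hq
  have h1 := hN1 N hNN (Real.log q / Real.log N - 1 / 1000000)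
    ((1 + 1 / 1000000 - Real.log p / Real.log N - Real.log q / Real.log N) / 2) 0 1
    (by linarith only [hq1]) (by linarith only [hpq]) (by linarith only [hp1, hq1]) (by simp) (by simp) (fun u hu => by
      have := hu.1
      linarith only [hq1, this])
  have h2 : ∑ r ∈ Q, Real.log r / Real.log N / r ≤
      ∑ r ∈ PE N (Real.log q / Real.log N - 1 / 1000000)
        ((1 + 1 / 1000000 - Real.log p / Real.log N - Real.log q / Real.log N) / 2),
        (0 + 1 * (Real.log r / Real.log N)) / r := by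
    refine sumC_mono (s := 2082 / 10000) (t := 3 / 10) (f := fun z => 0 + 1 * z) hN
      (fun r hr => ⟨(hQ r hr).1, sumC_low hN (by norm_num) hq0 (hQ r hr).2.1⟩) (fun z hz => ?_)
      (fun r hr _ => ?_) (fun r hr h => ?_)
    · have := hz.1
      simp only [zero_add, one_mul]
      linarith only [hq1, this]
    · simp only [zero_add, one_mul]
      exact le_rfl
    · exfalso
      refine h ?_
      have := (hQ r hr).2.2
      linarith only [h, this]
  linarith only [h1, h2]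

/-- the sum over `q` -/
private theorem sumC_q {N N2 : ℕ} (hN2 : ∀ N : ℕ, N2 ≤ N →
    ∀ (a b : ℝ) (f : ℝ → ℝ), 1 / 5 ≤ a → a ≤ b → b ≤ 1 → (∀ u ∈ Set.Icc a b, 0 ≤ f u ∧ f u ≤ 2) →
      (∀ u ∈ Set.Icc a b, ∀ v ∈ Set.Icc a b, |f u - f v| ≤ 2 * |u - v|) →
      ∑ p ∈ (Icc 1 N).filter (fun p : ℕ => p.Prime ∧ (N : ℝ) ^ a < p ∧ (p : ℝ) ≤ (N : ℝ) ^ b),
        f (Real.log p / Real.log N) / p ≤ (∫ u in a..b, f u / u) + 1 / 100000000)
    (hNN : N2 ≤ N) (hN : 1 < (N : ℝ)) {p : ℕ} (hp : p ∈ PE N (2082 / 10000) (3 / 10))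
    (h4 : 4 * (Real.log p / Real.log N) ≤ 1 + 1 / 1000000) {Q : Finset ℕ}
    (hQ : ∀ q ∈ Q, q ∈ PE N (2082 / 10000) (3 / 10) ∧ p ≤ q) {R : ℕ → ℝ}
    (hR : ∀ q ∈ Q, Real.log p / Real.log N + 3 * (Real.log q / Real.log N) ≤ 1 + 1 / 1000000 →
      R q ≤ (1 + 1 / 1000000 - Real.log p / Real.log N - 3 * (Real.log q / Real.log N)) / 2 +
        1 / 1000000 + 1 / 100000000)
    (hR' : ∀ q ∈ Q, ¬ Real.log p / Real.log N + 3 * (Real.log q / Real.log N) ≤ 1 + 1 / 1000000 →
      R q = 0) :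
    ∑ q ∈ Q, Real.log q / Real.log N / q * R q ≤
      (1 + 4 / 1000000 - 4 * (Real.log p / Real.log N)) ^ 2 / 12 + 12 / 100000000 := by
  obtain ⟨hp0, hp1, hp2⟩ := sumC_mem hN hp
  set t := Real.log p / Real.log N with ht
  set c : ℝ := 1 + 1 / 1000000 - t with hc
  set u : ℝ := t - 1 / 1000000 with hu
  set v : ℝ := c / 3 with hv
  set f : ℝ → ℝ := fun z => z * ((c - 3 * z) / 2 + 1 / 1000000 + 1 / 100000000) with hf
  have huv : u ≤ v := by
    rw [hu, hv, hc]
    linarith only [h4]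
  have hu5 : 1 / 5 ≤ u := by
    rw [hu]
    linarith only [hp1]
  have hv3 : v ≤ 1 := by
    rw [hv, hc]
    linarith only [hp1]
  have hf0 : ∀ z ∈ Set.Icc u v, 0 ≤ f z := by
    intro z hz
    have h1 : 0 ≤ z := by linarith only [hp1, hc, hz, hz.1]
    have h2 : 0 ≤ c - 3 * z := by
      have := hz.2
      rw [hv] at this
      linarith only [this]
    simp only [hf]
    positivity
  have hc1 : c ≤ 1 := by
    rw [hc]
    linarith only [hp1]
  have hc0 : 0 ≤ c := by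
    rw [hc]
    linarith only [h4]
  have h1 := hN2 N hNN u v f hu5 huv hv3 (fun z hz => ⟨hf0 z hz, by
      have h1 : 0 ≤ z := by linarith only [hp1, hc, hz, hz.1]
      have h2 : z ≤ 1 := by linarith only [hp1, hc, hv, hz, hz.2]
      have h3 : (c - 3 * z) / 2 + 1 / 1000000 + 1 / 100000000 ≤ 1 := by linarith only [hp1, hc, h1]
      simp only [hf]
      nlinarith only [hp1, h2, h4, hc, h1]⟩) (fun z hz w hw => by
      have h1 : 0 ≤ z := by linarith only [hp1, hc, hz, hz.1]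
      have h2 : z ≤ 1 / 2 := by
        have := hz.2
        rw [hv] at this
        linarith only [hp1, hc, this]
      have h3 : 0 ≤ w := by linarith only [hp1, hc, hw, hw.1]
      have h4 : w ≤ 1 / 2 := by
        have := hw.2
        rw [hv] at this
        linarith only [hp1, hc, this]
      have e : f z - f w = (c / 2 + 1 / 1000000 + 1 / 100000000 - 3 / 2 * (z + w)) * (z - w) := by
        simp only [hf]
        ring
      rw [e, abs_mul]
      refine mul_le_mul_of_nonneg_right ?_ (abs_nonneg _)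
      rw [abs_le]
      constructor <;> linarith)
  have h2 : (∫ z in u..v, f z / z) = (c - 3 * u) ^ 2 / 12 +
      (1 / 1000000 + 1 / 100000000) * (v - u) := by
    have e1 : (∫ z in u..v, f z / z) =
        ∫ z in u..v, ((c / 2 + 1 / 1000000 + 1 / 100000000) - 3 / 2 * z) := by
      refine intervalIntegral.integral_congr fun z hz => ?_
      rw [Set.uIcc_of_le huv] at hz
      have hz0 : z ≠ 0 := by
        have := hz.1
        intro h0
        linarith only [hp1, hc, this, h0]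
      simp only [hf]
      field_simp
      ring
    rw [e1, intervalIntegral.integral_sub (by simp) (by
      exact (continuous_const.mul continuous_id).intervalIntegrable _ _),
      intervalIntegral.integral_const, intervalIntegral.integral_const_mul, integral_id,
      smul_eq_mul, hv]
    ring
  have h3 : ∑ q ∈ Q, Real.log q / Real.log N / q * R q ≤
      ∑ q ∈ PE N u v, f (Real.log q / Real.log N) / q := by
    refine sumC_mono (s := 2082 / 10000) (t := 3 / 10) hN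
      (fun q hq => ⟨(hQ q hq).1, sumC_low hN (by norm_num) hp0 (hQ q hq).2⟩) hf0
      (fun q hq hqv => ?_) (fun q hq hqv => ?_)
    · obtain ⟨hq0, hq1, hq2⟩ := sumC_mem hN (hQ q hq).1
      have h5 := hR q hq (by
        rw [hv, hc] at hqv
        linarith only [hqv])
      have h6 : 0 ≤ Real.log q / Real.log N / q := div_nonneg (by linarith only [hq1]) hq0.le
      calc Real.log q / Real.log N / q * R q ≤ Real.log q / Real.log N / q *
            ((c - 3 * (Real.log q / Real.log N)) / 2 + 1 / 1000000 + 1 / 100000000) :=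
            mul_le_mul_of_nonneg_left h5 h6
        _ = f (Real.log q / Real.log N) / q := by
            simp only [hf]
            ring
    · rw [hR' q hq (fun h => hqv (by
        rw [hv, hc]
        linarith only [hc, hv, hqv, h])), mul_zero]
  have h5 : v - u ≤ 1 / 10 := by
    rw [hv, hu, hc]
    linarith only [hp1]
  have h6 : c - 3 * u = 1 + 4 / 1000000 - 4 * t := by
    rw [hc, hu]
    ring
  rw [← h6]
  have h7 : ∑ q ∈ PE N u v, f (Real.log q / Real.log N) / q ≤ (∫ z in u..v, f z / z) + 1 / 100000000 := h1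
  rw [h2] at h7
  linarith only [hp1, hc, hv, h3, h7]

/-- the sum over `p` -/
private theorem sumC_p {N N2 : ℕ} (hN2 : ∀ N : ℕ, N2 ≤ N →
    ∀ (a b : ℝ) (f : ℝ → ℝ), 1 / 5 ≤ a → a ≤ b → b ≤ 1 → (∀ u ∈ Set.Icc a b, 0 ≤ f u ∧ f u ≤ 2) →
      (∀ u ∈ Set.Icc a b, ∀ v ∈ Set.Icc a b, |f u - f v| ≤ 2 * |u - v|) →
      ∑ p ∈ (Icc 1 N).filter (fun p : ℕ => p.Prime ∧ (N : ℝ) ^ a < p ∧ (p : ℝ) ≤ (N : ℝ) ^ b),
        f (Real.log p / Real.log N) / p ≤ (∫ u in a..b, f u / u) + 1 / 100000000)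
    (hNN : N2 ≤ N) (hN : 1 < (N : ℝ)) {S : ℕ → ℝ}
    (hS : ∀ p ∈ PE N (2082 / 10000) (3 / 10), 4 * (Real.log p / Real.log N) ≤ 1 + 1 / 1000000 →
      S p ≤ (1 + 4 / 1000000 - 4 * (Real.log p / Real.log N)) ^ 2 / 12 + 12 / 100000000)
    (hS' : ∀ p ∈ PE N (2082 / 10000) (3 / 10), ¬ 4 * (Real.log p / Real.log N) ≤ 1 + 1 / 1000000 →
      S p = 0) :
    ∑ p ∈ PE N (2082 / 10000) (3 / 10), Real.log p / Real.log N / p * S p ≤ 325 / 10000000 := by
  set v : ℝ := (1 + 1 / 1000000) / 4 with hv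
  set f : ℝ → ℝ := fun z => z * ((1 + 4 / 1000000 - 4 * z) ^ 2 / 12 + 12 / 100000000) with hf
  have hf0 : ∀ z ∈ Set.Icc (2082 / 10000) v, 0 ≤ f z := by
    intro z hz
    have h1 : 0 ≤ z := by linarith only [hz, hz.1]
    simp only [hf]
    positivity
  have h1 := hN2 N hNN (2082 / 10000) v f (by norm_num) (by rw [hv]; norm_num)
    (by rw [hv]; norm_num) (fun z hz => ⟨hf0 z hz, by
      have h1 : 0 ≤ z := by linarith only [hz, hz.1]
      have h2 : z ≤ 1 := by
        have := hz.2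
        rw [hv] at this
        linarith only [this]
      have h3 : (1 + 4 / 1000000 - 4 * z) ^ 2 / 12 + 12 / 100000000 ≤ 1 := by
        have h4 : -1 ≤ 1 + 4 / 1000000 - 4 * z := by
          have := hz.2
          rw [hv] at this
          linarith only [this]
        have h5 : 1 + 4 / 1000000 - 4 * z ≤ 1 := by linarith only [hz, hz.1]
        nlinarith only [h2, h1]
      simp only [hf]
      nlinarith only [h2, h3]⟩) (fun z hz w hw => by
      have h1 : 1 / 5 ≤ z := by linarith only [hz, hz.1]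
      have h2 : z ≤ 3 / 10 := by
        have := hz.2
        rw [hv] at this
        linarith only [this]
      have h3 : 1 / 5 ≤ w := by linarith only [hw, hw.1]
      have h4 : w ≤ 3 / 10 := by
        have := hw.2
        rw [hv] at this
        linarith only [this]
      have e : f z - f w = (((1 + 4 / 1000000) ^ 2 - 8 * (1 + 4 / 1000000) * (z + w) +
          16 * (z ^ 2 + z * w + w ^ 2)) / 12 + 12 / 100000000) * (z - w) := by
        simp only [hf]
        ring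
      rw [e, abs_mul]
      refine mul_le_mul_of_nonneg_right ?_ (abs_nonneg _)
      have k1 : 0 ≤ z ^ 2 + z * w + w ^ 2 := by positivity
      have k2 : z ^ 2 + z * w + w ^ 2 ≤ 1 := by nlinarith only [h2, h4, h1, h3]
      rw [abs_le]
      constructor <;> linarith only [h2, h4, k1, h1, h3, k2])
  have h2 : (∫ z in (2082 / 10000)..v, f z / z) ≤ 3247 / 100000000 := by
    have e1 : (∫ z in (2082 / 10000)..v, f z / z) =
        ∫ z in (2082 / 10000)..v, (((1 + 4 / 1000000) ^ 2 / 12 + 12 / 100000000) -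
          2 / 3 * (1 + 4 / 1000000) * z + 4 / 3 * z ^ 2) := by
      refine intervalIntegral.integral_congr fun z hz => ?_
      rw [Set.uIcc_of_le (by rw [hv]; norm_num)] at hz
      have hz0 : z ≠ 0 := by
        have := hz.1
        intro h0
        linarith only [this, h0]
      simp only [hf]
      field_simp
      ring
    rw [e1, intervalIntegral.integral_add (by
        exact (continuous_const.sub (continuous_const.mul continuous_id)).intervalIntegrable _ _) (by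
        exact (continuous_const.mul (continuous_id.pow 2)).intervalIntegrable _ _),
      intervalIntegral.integral_sub (by simp) (by
        exact (continuous_const.mul continuous_id).intervalIntegrable _ _),
      intervalIntegral.integral_const, intervalIntegral.integral_const_mul,
      intervalIntegral.integral_const_mul, integral_id, integral_pow, smul_eq_mul, hv]
    norm_num
  have h3 : ∑ p ∈ PE N (2082 / 10000) (3 / 10), Real.log p / Real.log N / p * S p ≤
      ∑ p ∈ PE N (2082 / 10000) v, f (Real.log p / Real.log N) / p := by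
    refine sumC_mono (s := 2082 / 10000) (t := 3 / 10) hN (fun p hp => ⟨hp, ?_⟩) hf0
      (fun p hp hpv => ?_) (fun p hp hpv => ?_)
    · rw [PE, mem_filter] at hp
      exact hp.2.2.1
    · obtain ⟨hp0, hp1, hp2⟩ := sumC_mem hN hp
      have h5 := hS p hp (by
        rw [hv] at hpv
        linarith only [hpv])
      have h6 : 0 ≤ Real.log p / Real.log N / p := div_nonneg (by linarith only [hp1]) hp0.le
      calc Real.log p / Real.log N / p * S p ≤ Real.log p / Real.log N / p *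
            ((1 + 4 / 1000000 - 4 * (Real.log p / Real.log N)) ^ 2 / 12 + 12 / 100000000) :=
            mul_le_mul_of_nonneg_left h5 h6
        _ = f (Real.log p / Real.log N) / p := by
            simp only [hf]
            ring
    · rw [hS' p hp (fun h => hpv (by
        rw [hv]
        linarith only [hpv, h])), mul_zero]
  have h7 : ∑ p ∈ PE N (2082 / 10000) v, f (Real.log p / Real.log N) / p ≤
    (∫ z in (2082 / 10000)..v, f z / z) + 1 / 100000000 := h1
  linarith only [h2, h3, h7]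

theorem s4_le : ∃ N0 : ℕ, ∀ N : ℕ, N0 ≤ N → ∀ x : ℕ, N ≤ 8 * x → x ≤ 8 * N →
    ∑ p ∈ PE N (2082 / 10000) (3 / 10), ∑ q ∈ (PE N (2082 / 10000) (3 / 10)).filter (fun q => p ≤ q),
      ∑ r ∈ (PE N (2082 / 10000) (3 / 10)).filter (fun r => q ≤ r ∧ p * q * r ^ 2 ≤ 16 * N),
        1 / (p * q * r * Real.log ((x : ℝ) / (p * q * r))) ≤ (98 / 10000) / Real.log N := by
  obtain ⟨N1, hN1⟩ := Pool.Agent.H9.TM.lin_m (1 / 5) 1 (1 / 100000000) (by norm_num) (by norm_num) (by norm_num)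
  obtain ⟨N2, hN2⟩ := mert_r (1 / 5) 2 (1 / 100000000) (by norm_num) (by norm_num) (by norm_num)
  obtain ⟨N3, hN3⟩ := exists_nat_ge (Real.exp (1000000 * Real.log 16))
  refine ⟨max N1 (max N2 (max N3 3)), fun N hN x hx1 hx2 => ?_⟩
  have hNN1 : N1 ≤ N := le_trans (le_max_left _ _) hN
  have hNN2 : N2 ≤ N := le_trans (le_trans (le_max_left _ _) (le_max_right _ _)) hN
  have hNN3 : N3 ≤ N := by omega
  have hN3' : 3 ≤ N := by omega
  have hNp : (0 : ℝ) < N := by exact_mod_cast (by omega : 0 < N)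
  have hNo : (1 : ℝ) < N := by exact_mod_cast (by omega : 1 < N)
  have hL1 : 1000000 * Real.log 16 ≤ Real.log N := by
    have h1 : Real.exp (1000000 * Real.log 16) ≤ N := hN3.trans (by exact_mod_cast hNN3)
    exact (Real.le_log_iff_exp_le hNp).2 h1
  have h16 : Real.log 16 ≤ 1 / 1000000 * Real.log N := by linarith only [hL1]
  have hL : 0 < Real.log N := Real.log_pos hNo
  have hmono : ∀ p q : ℕ, (0 : ℝ) < p → p ≤ q → Real.log p / Real.log N ≤ Real.log q / Real.log N := by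
    intro p q hp hpq
    exact div_le_div_of_nonneg_right (Real.log_le_log hp (by exact_mod_cast hpq)) hL.le
  have hcond : ∀ p q r : ℕ, (0 : ℝ) < p → (0 : ℝ) < q → (0 : ℝ) < r → p * q * r ^ 2 ≤ 16 * N →
      Real.log p / Real.log N + Real.log q / Real.log N + 2 * (Real.log r / Real.log N) ≤
      1 + 1 / 1000000 := by
    intro p q r hp hq hr h
    have h1 : (p : ℝ) * q * r ^ 2 ≤ 16 * N := by exact_mod_cast h
    have h2 := Real.log_le_log (by positivity) h1
    rw [Real.log_mul (by positivity) (by positivity), Real.log_mul hp.ne' hq.ne', Real.log_pow,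
      Real.log_mul (by norm_num) hNp.ne'] at h2
    push_cast at h2
    have h3 : Real.log p / Real.log N + Real.log q / Real.log N + 2 * (Real.log r / Real.log N) =
        (Real.log p + Real.log q + 2 * Real.log r) / Real.log N := by ring
    rw [h3, div_le_iff₀ hL]
    linarith only [hL1, h2]
  set P := PE N (2082 / 10000) (3 / 10) with hP
  have key : ∑ p ∈ P, ∑ q ∈ P.filter (fun q => p ≤ q),
      ∑ r ∈ P.filter (fun r => q ≤ r ∧ p * q * r ^ 2 ≤ 16 * N),
        1 / (p * q * r * Real.log ((x : ℝ) / (p * q * r))) ≤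
      2952 / 10 / Real.log N * ∑ p ∈ P, Real.log p / Real.log N / p *
        ∑ q ∈ P.filter (fun q => p ≤ q), Real.log q / Real.log N / q *
          ∑ r ∈ P.filter (fun r => q ≤ r ∧ p * q * r ^ 2 ≤ 16 * N), Real.log r / Real.log N / r := by
    simp only [mul_sum]
    refine sum_le_sum fun p hp => sum_le_sum fun q hq => sum_le_sum fun r hr => ?_
    rw [mem_filter] at hq hr
    exact sumC_term hNo h16 hx1 hp hq.1 hr.1 (hcond p q r (sumC_mem hNo hp).1
      (sumC_mem hNo hq.1).1 (sumC_mem hNo hr.1).1 hr.2.2)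
  refine key.trans ?_
  have main : ∑ p ∈ P, Real.log p / Real.log N / p *
        ∑ q ∈ P.filter (fun q => p ≤ q), Real.log q / Real.log N / q *
          ∑ r ∈ P.filter (fun r => q ≤ r ∧ p * q * r ^ 2 ≤ 16 * N), Real.log r / Real.log N / r ≤
      325 / 10000000 := by
    have hemp : ∀ p ∈ P, ∀ q ∈ P, p ≤ q →
        ¬ Real.log p / Real.log N + 3 * (Real.log q / Real.log N) ≤ 1 + 1 / 1000000 →
        ∑ r ∈ P.filter (fun r => q ≤ r ∧ p * q * r ^ 2 ≤ 16 * N), Real.log r / Real.log N / r = 0 := by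
      intro p hp q hq hpq h
      refine sum_eq_zero fun r hr => ?_
      exfalso
      rw [mem_filter] at hr
      obtain ⟨hr1, hr2, hr3⟩ := hr
      refine h ?_
      have h1 := hcond p q r (sumC_mem hNo hp).1 (sumC_mem hNo hq).1 (sumC_mem hNo hr1).1 hr3
      have h2 := hmono q r (sumC_mem hNo hq).1 hr2
      linarith only [h, h1, h2]
    refine sumC_p hN2 hNN2 hNo (fun p hp h4 => ?_) (fun p hp h4 => ?_)
    · refine sumC_q hN2 hNN2 hNo hp h4 (fun q hq => ?_) (fun q hq h => ?_) (fun q hq h => ?_)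
      · exact mem_filter.1 hq
      · rw [mem_filter] at hq
        refine sumC_r hN1 hNN1 hNo hp hq.1 (fun r hr => ?_) h
        rw [mem_filter] at hr
        exact ⟨hr.1, hr.2.1, hcond p q r (sumC_mem hNo hp).1 (sumC_mem hNo hq.1).1
          (sumC_mem hNo hr.1).1 hr.2.2⟩
      · rw [mem_filter] at hq
        exact hemp p hp q hq.1 hq.2 h
    · refine sum_eq_zero fun q hq => ?_
      rw [mem_filter] at hq
      rw [hemp p hp q hq.1 hq.2 (fun h => h4 (by
        have := hmono p q (sumC_mem hNo hp).1 hq.2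
        linarith only [h4, h, this])), mul_zero]
  calc 2952 / 10 / Real.log N * _ ≤ 2952 / 10 / Real.log N * (325 / 10000000) :=
        mul_le_mul_of_nonneg_left main (by positivity)
    _ ≤ 98 / 10000 / Real.log N := by
        rw [div_mul_eq_mul_div]
        exact div_le_div_of_nonneg_right (by norm_num) hL.le

end Pool.Agent.H9.TN

end

section

/-!
# TQ OmG: the twisted main term of type II for a general density `D` (compare `H76/TP/Om2.lean`, the same proof)

Fix the block `I = [iH, (i+1)H)`, `i ≥ N/(2H)`, `P ≥ N^e1/2`, `P N^e ≤ H`, `H³ ≤ N`.  For `m ∈ I`, `p ∣ m`, `p ∈ pb P`: `|m/p - iH/p| ≤ H/p + 1` (natural division), both `≥ N/(8P) ≥ N^(1/2)`, so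
`|D(m/p) - D(iH/p)| ≤ L² (H/P + 1 + N^b0)/(N/(8P)) ≤ 8 L² (H + P + P N^b0)/N ≤ N^(-c)` (`P ≤ N^(1/3)`, `b0 < 2/3`); total error `≤ N^(-c) ∑_{m ∈ I} |lamR R m| #{p ∣ m} ≤ H/(2 L^A)` (`|lamR R m| ≤ R^2`, `#{p ∈ pb P : p ∣ m} ≤ 2 log m`).
For `p ∣ m`, `p > R`: `lamR R (m/p) = lamR R m`.  The rest: `∑_{p ∈ pb P} D(iH/p) ∑_{m ∈ I} (1[p ∣ m] - 1/p) lamR R m ee(-m α)`.  As in `H53/MID/OmW.lean`: `1[p ∣ m] - 1/p = (1/p) ∑_{c=1}^{p-1} ee(mc/p)`,
`lamR R m = ∑_{q ≤ R} μ(q)/φ(q) ∑*_b ee(mb/q)`, so with `|D| ≤ L²` it is `≤ L² R max_β (1/P) ∑_p ∑_{c=1}^{p-1} min(H, 1/(2 nz(β + c/p))) ≤ L² R (1/P) (2H + 16 P² (1 + log(8P²)))` (points with mutual distance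
`≥ 1/(4P²)`, see `OmW.lean`) `≤ H/(2 L^A)`: here `P N^e ≤ H` is enough.
-/

set_option autoImplicit false

namespace Pool.Agent.H91.TQ

open Finset
open Pool.Agent.H91.PK (ee)
open Pool.Agent.H91.EHA (Lam hR lamR ramS)
open Pool.Agent.H35.W (pb)
open Pool.Agent.H53.MID (Fp Bs)

section OmGaux

open Pool.Agent.H92.EH (red D)

private theorem OmG_e (t : ℝ) : Pool.Agent.H92.EH.e t = ee t := by
  unfold Pool.Agent.H91.PK.ee Pool.Agent.H92.EH.e
  congr 1
  push_cast
  ring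

/-- the distance to the integers -/
private theorem OmG_near (t : ℝ) (m : ℤ) : Int.fract t ≤ |t - m| ∨ 1 - Int.fract t ≤ |t - m| := by
  have h0 : t = ⌊t⌋ + Int.fract t := (Int.floor_add_fract t).symm
  rcases le_or_gt m ⌊t⌋ with h | h
  · left
    have h1 : (m : ℝ) ≤ ⌊t⌋ := by exact_mod_cast h
    refine le_trans ?_ (le_abs_self _)
    linarith only [h0, h1]
  · right
    have h1 : (⌊t⌋ : ℝ) + 1 ≤ m := by exact_mod_cast h
    refine le_trans ?_ (neg_le_abs _)
    linarith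

/-- the exponential sum over well spaced points -/
private theorem OmG_pts {ι : Type*} [DecidableEq ι] (S : Finset ι) (β : ι → ℝ) (M H : ℕ) (hM : 0 < M)
    (hsp : ∀ i ∈ S, ∀ j ∈ S, i ≠ j → ∀ m : ℤ, (1 : ℝ) / M ≤ |β i - β j - m|) :
    ∑ j ∈ S, ‖D H (β j)‖ ≤ 2 * H + M * (1 + Real.log M) := by
  classical
  have hM0 : (0 : ℝ) < M := by exact_mod_cast hM
  let k : ι → ℕ := fun j => ⌊(M : ℝ) * Int.fract (β j)⌋₊
  let g : ℕ → ℝ := fun n => if n = 0 then (H : ℝ) else (M : ℝ) / (2 * n)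
  have hg0 : ∀ n, 0 ≤ g n := by
    intro n
    simp only [g]
    split_ifs
    · positivity
    · positivity
  have hk1 : ∀ j, (k j : ℝ) ≤ M * Int.fract (β j) := fun j =>
    Nat.floor_le (mul_nonneg hM0.le (Int.fract_nonneg _))
  have hk2 : ∀ j, (M : ℝ) * Int.fract (β j) < k j + 1 := fun j => Nat.lt_floor_add_one _
  have hkM : ∀ j, k j < M := by
    intro j
    have h1 : (k j : ℝ) < M := by
      refine lt_of_le_of_lt (hk1 j) ?_
      have := Int.fract_lt_one (β j)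
      nlinarith only [hM0, this]
    exact_mod_cast h1
  have hinj : Set.InjOn k S := by
    intro i hi j hj hij
    by_contra hne
    have h1 := hsp i hi j hj hne (⌊β i⌋ - ⌊β j⌋)
    have h2 : β i - β j - ((⌊β i⌋ - ⌊β j⌋ : ℤ) : ℝ) = Int.fract (β i) - Int.fract (β j) := by
      unfold Int.fract
      push_cast
      ring
    rw [h2, div_le_iff₀ hM0] at h1
    have h3 : |Int.fract (β i) - Int.fract (β j)| * M < 1 := by
      have e1 := hk1 i
      have e2 := hk2 i
      have e3 := hk1 j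
      have e4 := hk2 j
      have e5 : (k i : ℝ) = k j := by exact_mod_cast hij
      have e6 : |Int.fract (β i) - Int.fract (β j)| * M = |M * Int.fract (β i) - M * Int.fract (β j)| := by
        rw [← mul_sub, abs_mul, abs_of_pos hM0, mul_comm]
      rw [e6, abs_lt]
      constructor <;> linarith only [e1, e4, e5, e2, e3]
    linarith only [h1, h3]
  have hb : ∀ j ∈ S, ‖D H (β j)‖ ≤ g (k j) + g (M - 1 - k j) := by
    intro j _
    rcases le_or_gt (Int.fract (β j)) (1 / 2) with hf | hf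
    · refine le_trans ?_ (le_add_of_nonneg_right (hg0 _))
      by_cases h0 : k j = 0
      · have : g (k j) = H := by simp only [g]; rw [if_pos h0]
        rw [this]
        exact Pool.Agent.H92.EH.norm_D_le_nat H (β j)
      · have h1 : g (k j) = (M : ℝ) / (2 * k j) := by simp only [g]; rw [if_neg h0]
        have hk0 : (0 : ℝ) < k j := by
          have : 0 < k j := Nat.pos_of_ne_zero h0
          exact_mod_cast this
        have h2 := Pool.Agent.H92.EH.norm_D_le H (t := β j) (δ := (k j : ℝ) / M) (by positivity)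
          (fun m => by
            have e1 : (k j : ℝ) / M ≤ Int.fract (β j) := by
              rw [div_le_iff₀ hM0, mul_comm]; exact hk1 j
            rcases OmG_near (β j) m with e2 | e2
            · exact e1.trans e2
            · linarith only [hf, e1, e2])
        rw [h1]
        refine h2.trans (le_of_eq ?_)
        field_simp
    · refine le_trans ?_ (le_add_of_nonneg_left (hg0 _))
      by_cases h0 : M - 1 - k j = 0
      · have : g (M - 1 - k j) = H := by simp only [g]; rw [if_pos h0]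
        rw [this]
        exact Pool.Agent.H92.EH.norm_D_le_nat H (β j)
      · have h1 : g (M - 1 - k j) = (M : ℝ) / (2 * ((M - 1 - k j : ℕ) : ℝ)) := by
          simp only [g]; rw [if_neg h0]
        have hk0 : (0 : ℝ) < ((M - 1 - k j : ℕ) : ℝ) := by
          have : 0 < M - 1 - k j := Nat.pos_of_ne_zero h0
          exact_mod_cast this
        have hk3 : ((M - 1 - k j : ℕ) : ℝ) = M - 1 - k j := by
          have e1 := hkM j
          rw [Nat.cast_sub (by omega), Nat.cast_sub (by omega)]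
          norm_num
        have h2 := Pool.Agent.H92.EH.norm_D_le H (t := β j) (δ := ((M - 1 - k j : ℕ) : ℝ) / M)
          (by positivity)
          (fun m => by
            have e1 : ((M - 1 - k j : ℕ) : ℝ) / M ≤ 1 - Int.fract (β j) := by
              rw [div_le_iff₀ hM0, hk3]
              have := hk2 j
              linarith only [this]
            rcases OmG_near (β j) m with e2 | e2
            · linarith only [hf, e1, e2]
            · exact e1.trans e2)
        rw [h1]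
        refine h2.trans (le_of_eq ?_)
        field_simp
  have hsum : ∑ n ∈ range M, g n ≤ H + M / 2 * (1 + Real.log M) := by
    obtain ⟨M', rfl⟩ : ∃ M', M = M' + 1 := ⟨M - 1, by omega⟩
    rw [Finset.sum_range_succ']
    have e1 : g 0 = H := by simp only [g, if_true]
    have e2 : ∀ n ∈ range M', g (n + 1) = ((M' + 1 : ℕ) : ℝ) / 2 * (((n : ℝ) + 1)⁻¹) := by
      intro n _
      simp only [g]
      rw [if_neg (Nat.succ_ne_zero n)]
      push_cast
      field_simp
    rw [e1, Finset.sum_congr rfl e2, ← Finset.mul_sum]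
    have e3 : ∑ n ∈ range M', ((n : ℝ) + 1)⁻¹ ≤ 1 + Real.log ((M' + 1 : ℕ) : ℝ) := by
      have e4 := harmonic_le_one_add_log M'
      have e5 : ((harmonic M' : ℚ) : ℝ) = ∑ n ∈ range M', ((n : ℝ) + 1)⁻¹ := by
        unfold harmonic
        push_cast
        rfl
      rw [e5] at e4
      refine e4.trans ?_
      rcases Nat.eq_zero_or_pos M' with h0 | h0
      · subst h0
        simp
      · have : Real.log M' ≤ Real.log ((M' + 1 : ℕ) : ℝ) :=
          Real.log_le_log (by exact_mod_cast h0) (by push_cast; linarith only)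
        linarith only [this]
    have e6 : ((M' + 1 : ℕ) : ℝ) / 2 * ∑ n ∈ range M', ((n : ℝ) + 1)⁻¹ ≤
        ((M' + 1 : ℕ) : ℝ) / 2 * (1 + Real.log ((M' + 1 : ℕ) : ℝ)) :=
      mul_le_mul_of_nonneg_left e3 (by positivity)
    linarith only [e6]
  have hs1 : ∑ j ∈ S, g (k j) ≤ ∑ n ∈ range M, g n := by
    rw [← Finset.sum_image (f := g) (g := k) hinj]
    refine Finset.sum_le_sum_of_subset_of_nonneg ?_ fun n _ _ => hg0 n
    intro n hn
    rw [Finset.mem_image] at hn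
    obtain ⟨j, _, rfl⟩ := hn
    exact Finset.mem_range.2 (hkM j)
  have hs2 : ∑ j ∈ S, g (M - 1 - k j) ≤ ∑ n ∈ range M, g n := by
    have hinj2 : Set.InjOn (fun j => M - 1 - k j) S := by
      intro i hi j hj hij
      apply hinj hi hj
      have e1 := hkM i
      have e2 := hkM j
      have hij' : M - 1 - k i = M - 1 - k j := hij
      omega
    rw [← Finset.sum_image (f := g) (g := fun j => M - 1 - k j) hinj2]
    refine Finset.sum_le_sum_of_subset_of_nonneg ?_ fun n _ _ => hg0 n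
    intro n hn
    rw [Finset.mem_image] at hn
    obtain ⟨j, _, rfl⟩ := hn
    rw [Finset.mem_range]
    omega
  calc ∑ j ∈ S, ‖D H (β j)‖ ≤ ∑ j ∈ S, (g (k j) + g (M - 1 - k j)) := Finset.sum_le_sum hb
    _ = ∑ j ∈ S, g (k j) + ∑ j ∈ S, g (M - 1 - k j) := Finset.sum_add_distrib
    _ ≤ 2 * H + M * (1 + Real.log M) := by linarith only [hsum, hs1, hs2]

/-- detection of the multiples of `p` -/
private theorem OmG_det (p m : ℕ) (hp : 1 ≤ p) :
    ((((if p ∣ m then (1 : ℝ) else 0) - 1 / p : ℝ)) : ℂ) = (1 / p : ℂ) * ∑ k ∈ Ico 1 p, ee (m * ((k : ℝ) / p)) := by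
  have hp0 : (p : ℂ) ≠ 0 := by
    have : p ≠ 0 := by omega
    exact_mod_cast this
  have hpr : (0 : ℝ) < p := by exact_mod_cast hp
  have h1 : ∑ k ∈ range p, ee (m * ((k : ℝ) / p)) = if p ∣ m then (p : ℂ) else 0 := by
    by_cases h : p ∣ m
    · rw [if_pos h]
      obtain ⟨q, rfl⟩ := h
      have h2 : ∀ k ∈ range p, ee (((p * q : ℕ) : ℝ) * ((k : ℝ) / p)) = 1 := by
        intro k _
        have h3 : ((p * q : ℕ) : ℝ) * ((k : ℝ) / p) = (((q * k : ℕ) : ℤ) : ℝ) := by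
          push_cast
          field_simp
        rw [h3, Pool.Agent.H76.EHB.ee_int]
      rw [Finset.sum_congr rfl h2]
      simp
    · rw [if_neg h]
      have h2 : ∑ k ∈ range p, ee (m * ((k : ℝ) / p)) = D p ((m : ℝ) / p) := by
        unfold Pool.Agent.H92.EH.D
        refine Finset.sum_congr rfl fun k _ => ?_
        rw [OmG_e]
        congr 1
        ring
      rw [h2]
      have h3 : D p ((m : ℝ) / p) * (Pool.Agent.H92.EH.e ((m : ℝ) / p) - 1) =
          Pool.Agent.H92.EH.e ((m : ℝ) / p) ^ p - 1 := by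
        unfold Pool.Agent.H92.EH.D
        rw [← geom_sum_mul]
        congr 1
        refine sum_congr rfl fun m _ => ?_
        rw [Pool.Agent.H92.EH.e_nat_mul]
      have h4 : Pool.Agent.H92.EH.e ((m : ℝ) / p) ^ p = 1 := by
        rw [← Pool.Agent.H92.EH.e_nat_mul]
        have : (p : ℝ) * ((m : ℝ) / p) = m := by field_simp
        rw [this, Pool.Agent.H92.EH.e_nat]
      rw [h4, sub_self] at h3
      rcases mul_eq_zero.1 h3 with h5 | h5
      · exact h5
      · exfalso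
        have h6 : ∀ j : ℤ, 1 / (p : ℝ) ≤ |(m : ℝ) / p - j| := by
          intro j
          have h7 : (m : ℝ) / p - j = (((m : ℤ) - p * j : ℤ) : ℝ) / p := by
            push_cast
            field_simp
          rw [h7, abs_div, abs_of_pos hpr]
          apply div_le_div_of_nonneg_right _ hpr.le
          have h8 : (m : ℤ) - p * j ≠ 0 := by
            intro h9
            apply h
            have h10 : (p : ℤ) ∣ m := ⟨j, by linarith only [h9]⟩
            exact_mod_cast h10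
          have h9 := Int.one_le_abs h8
          exact_mod_cast h9
        have h7 := Pool.Agent.H92.EH.le_norm_e_sub_one h6
        rw [h5, norm_zero] at h7
        have : (0 : ℝ) < 1 / p := by positivity
        linarith only [h7, this]
  have h2 : ∑ k ∈ range p, ee (m * ((k : ℝ) / p)) = 1 + ∑ k ∈ Ico 1 p, ee (m * ((k : ℝ) / p)) := by
    rw [Finset.range_eq_Ico, Finset.sum_eq_sum_Ico_succ_bot (by omega : 0 < p)]
    congr 1
    simp [Pool.Agent.H91.PK.ee]
  rw [h1] at h2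
  have h3 : ∑ k ∈ Ico 1 p, ee (m * ((k : ℝ) / p)) = (if p ∣ m then (p : ℂ) else 0) - 1 := by
    rw [h2]
    ring
  rw [h3]
  by_cases h : p ∣ m
  · rw [if_pos h, if_pos h]
    push_cast
    field_simp
  · rw [if_neg h, if_neg h]
    push_cast
    ring

private theorem OmG_shift (a H : ℕ) (γ : ℝ) : ‖∑ m ∈ Ico a (a + H), ee (m * γ)‖ = ‖D H γ‖ := by
  have h : ∑ m ∈ Ico a (a + H), ee (m * γ) = ee (a * γ) * D H γ := by
    rw [Finset.sum_Ico_eq_sum_range]
    have h1 : a + H - a = H := by omega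
    rw [h1]
    unfold Pool.Agent.H92.EH.D
    rw [Finset.mul_sum]
    refine Finset.sum_congr rfl fun i _ => ?_
    rw [OmG_e, ← Pool.Agent.H91.PK.LSa_ee_add]
    congr 1
    push_cast
    ring
  rw [h, norm_mul, Pool.Agent.H91.PK.LSa_norm_ee, one_mul]

private theorem OmG_T (P H a : ℕ) (hP : 1 ≤ P) (β : ℝ) :
    ∑ p ∈ pb P, ‖∑ m ∈ Ico a (a + H), ((((if p ∣ m then (1 : ℝ) else 0) - 1 / p : ℝ)) : ℂ) * ee (m * β)‖
      ≤ (2 * H + ((4 * P ^ 2 : ℕ) : ℝ) * (1 + Real.log ((4 * P ^ 2 : ℕ) : ℝ))) / P := by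
  have hP0 : (0 : ℝ) < P := by
    have : 0 < P := by omega
    exact_mod_cast this
  have hpb : ∀ p ∈ pb P, p.Prime ∧ P < p ∧ p ≤ 2 * P := by
    intro p hp
    unfold pb at hp
    rw [Finset.mem_filter, Finset.mem_Ioc] at hp
    exact ⟨hp.2, hp.1⟩
  have h1 : ∀ p ∈ pb P, ‖∑ m ∈ Ico a (a + H), ((((if p ∣ m then (1 : ℝ) else 0) - 1 / p : ℝ)) : ℂ) * ee (m * β)‖ ≤
      1 / P * ∑ k ∈ Ico 1 p, ‖D H (β + (k : ℝ) / p)‖ := by
    intro p hp
    obtain ⟨hp1, hp2, hp3⟩ := hpb p hp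
    have hp0 : (0 : ℝ) < p := by
      have : 0 < p := hp1.pos
      exact_mod_cast this
    have e1 : ∑ m ∈ Ico a (a + H), ((((if p ∣ m then (1 : ℝ) else 0) - 1 / p : ℝ)) : ℂ) * ee (m * β) =
        (1 / p : ℂ) * ∑ k ∈ Ico 1 p, ∑ m ∈ Ico a (a + H), ee (m * (β + (k : ℝ) / p)) := by
      rw [Finset.sum_comm, Finset.mul_sum]
      refine Finset.sum_congr rfl fun m _ => ?_
      rw [OmG_det p m hp1.one_le, mul_assoc, Finset.sum_mul]
      congr 1
      refine Finset.sum_congr rfl fun k _ => ?_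
      rw [← Pool.Agent.H91.PK.LSa_ee_add]
      congr 1
      ring
    rw [e1, norm_mul]
    have e2 : ‖(1 / p : ℂ)‖ = 1 / p := by
      rw [norm_div, norm_one, Complex.norm_natCast]
    rw [e2]
    refine mul_le_mul (one_div_le_one_div_of_le hP0 (by exact_mod_cast hp2.le)) ?_ (norm_nonneg _) (by positivity)
    refine (norm_sum_le _ _).trans (Finset.sum_le_sum fun k _ => ?_)
    rw [OmG_shift]
  refine (Finset.sum_le_sum h1).trans ?_
  rw [← Finset.mul_sum, ← Finset.sum_sigma (pb P) (fun p => Ico 1 p) (fun j => ‖D H (β + (j.2 : ℝ) / j.1)‖)]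
  have h2 := OmG_pts ((pb P).sigma (fun p => Ico 1 p)) (fun j => β + (j.2 : ℝ) / j.1) (4 * P ^ 2) H
    (by positivity) ?_
  · rw [one_div_mul_eq_div]
    exact div_le_div_of_nonneg_right h2 hP0.le
  · rintro ⟨p, k⟩ hi ⟨p', k'⟩ hj hne m
    rw [Finset.mem_sigma, Finset.mem_Ico] at hi hj
    obtain ⟨hp, hk⟩ := hi
    obtain ⟨hp', hk'⟩ := hj
    simp only at hp hk hp' hk' ⊢
    obtain ⟨q1, q2, q3⟩ := hpb p hp
    obtain ⟨q1', q2', q3'⟩ := hpb p' hp'
    have hc : k ∈ red p := by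
      rw [Pool.Agent.H92.EH.mem_red]
      refine ⟨hk.2, Nat.Coprime.symm ((Nat.Prime.coprime_iff_not_dvd q1).2 fun hd => ?_)⟩
      exact absurd (Nat.le_of_dvd (by omega) hd) (by omega)
    have hc' : k' ∈ red p' := by
      rw [Pool.Agent.H92.EH.mem_red]
      refine ⟨hk'.2, Nat.Coprime.symm ((Nat.Prime.coprime_iff_not_dvd q1').2 fun hd => ?_)⟩
      exact absurd (Nat.le_of_dvd (by omega) hd) (by omega)
    have hne' : ¬ (p = p' ∧ k = k') := by
      rintro ⟨rfl, rfl⟩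
      exact hne rfl
    have h3 := Pool.Agent.H92.EH.farey_spacing q1.pos q1'.pos hc hc' hne' m
    have h4 : β + (k : ℝ) / p - (β + (k' : ℝ) / p') - m = (k : ℝ) / p - (k' : ℝ) / p' - m := by ring
    rw [h4]
    refine le_trans ?_ h3
    have q4 : (0 : ℝ) < p := by exact_mod_cast q1.pos
    have q5 : (0 : ℝ) < p' := by exact_mod_cast q1'.pos
    have q6 : (p : ℝ) ≤ 2 * P := by exact_mod_cast q3
    have q7 : (p' : ℝ) ≤ 2 * P := by exact_mod_cast q3'
    apply one_div_le_one_div_of_le (by positivity)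
    push_cast
    calc (p : ℝ) * p' ≤ (2 * P) * (2 * P) := mul_le_mul q6 q7 q5.le (by positivity)
      _ = 4 * (P : ℝ) ^ 2 := by ring

private theorem OmG_lam (R n : ℕ) (hn : 1 ≤ n) : |lamR R n| ≤ R := by
  have h3 : |lamR R n| = ‖((lamR R n : ℝ) : ℂ)‖ := by
    rw [Complex.norm_real]; rfl
  rw [h3, Pool.Agent.H76.EHB.lamR_eq R n hn]
  refine (norm_sum_le _ _).trans ?_
  calc ∑ c ∈ Icc 1 R, ‖((((ArithmeticFunction.moebius c : ℤ) : ℝ) / (c.totient : ℝ) : ℝ) : ℂ)
          * ∑ b ∈ red c, ee (n * ((b : ℝ) / c))‖ ≤ ∑ _c ∈ Icc 1 R, (1 : ℝ) := by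
        refine Finset.sum_le_sum fun c hc => ?_
        rw [Finset.mem_Icc] at hc
        have hφ : (0 : ℝ) < (c.totient : ℝ) := by
          have := Nat.totient_pos.2 (show 0 < c by omega)
          exact_mod_cast this
        have hμ : |((ArithmeticFunction.moebius c : ℤ) : ℝ)| ≤ 1 := by
          have := ArithmeticFunction.abs_moebius_le_one (n := c)
          exact_mod_cast this
        rw [norm_mul, Complex.norm_real, Real.norm_eq_abs, abs_div, abs_of_pos hφ]
        have h4 : ‖∑ b ∈ red c, ee (n * ((b : ℝ) / c))‖ ≤ (c.totient : ℝ) := by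
          refine (norm_sum_le _ _).trans ?_
          calc ∑ b ∈ red c, ‖ee (n * ((b : ℝ) / c))‖ = ∑ _b ∈ red c, (1 : ℝ) :=
                Finset.sum_congr rfl fun b _ => Pool.Agent.H91.PK.LSa_norm_ee _
            _ ≤ (c.totient : ℝ) := by
                rw [Finset.sum_const, nsmul_eq_mul, mul_one, Pool.Agent.H92.EH.card_red]
        calc |((ArithmeticFunction.moebius c : ℤ) : ℝ)| / (c.totient : ℝ) * _
            ≤ 1 / (c.totient : ℝ) * (c.totient : ℝ) :=
              mul_le_mul (div_le_div_of_nonneg_right hμ hφ.le) h4 (norm_nonneg _) (by positivity)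
          _ = 1 := by field_simp
    _ = R := by rw [Finset.sum_const, nsmul_eq_mul, mul_one, Nat.card_Icc, Nat.add_sub_cancel]

private theorem OmG_pb {P p : ℕ} (hp : p ∈ pb P) : p.Prime ∧ P < p ∧ p ≤ 2 * P := by
  unfold pb at hp
  rw [Finset.mem_filter, Finset.mem_Ioc] at hp
  exact ⟨hp.2, hp.1⟩

/-- the second part -/
private theorem OmG_two (P R H i : ℕ) (α : ℝ) (K : ℝ) (d : ℕ → ℝ) (hP : 1 ≤ P) (hi : 1 ≤ i)
    (hH : 1 ≤ H) (hK : 0 ≤ K) (hd : ∀ p ∈ pb P, |d p| ≤ K) :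
    ‖Bs (fun m => lamR R m * ∑ p ∈ pb P, d p * ((if p ∣ m then (1 : ℝ) else 0) - 1 / p)) H i α‖ ≤
      R * (K * ((2 * H + ((4 * P ^ 2 : ℕ) : ℝ) * (1 + Real.log ((4 * P ^ 2 : ℕ) : ℝ))) / P)) := by
  have hP0 : (0 : ℝ) < P := by exact_mod_cast hP
  set Y : ℝ := (2 * H + ((4 * P ^ 2 : ℕ) : ℝ) * (1 + Real.log ((4 * P ^ 2 : ℕ) : ℝ))) / P with hY
  have h2 : Bs (fun m => lamR R m * ∑ p ∈ pb P, d p * ((if p ∣ m then (1 : ℝ) else 0) - 1 / p)) H i α =
      ∑ c ∈ Icc 1 R, ((((ArithmeticFunction.moebius c : ℤ) : ℝ) / (c.totient : ℝ) : ℝ) : ℂ) * ∑ b ∈ red c,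
        ∑ p ∈ pb P, (d p : ℂ) * ∑ m ∈ Ico (i * H) (i * H + H),
          ((((if p ∣ m then (1 : ℝ) else 0) - 1 / p : ℝ)) : ℂ) * ee (m * ((b : ℝ) / c - α)) := by
    unfold Bs
    have e1 : (i + 1) * H = i * H + H := by ring
    rw [e1]
    have e2 : ∀ m ∈ Ico (i * H) (i * H + H),
        ((lamR R m * ∑ p ∈ pb P, d p * ((if p ∣ m then (1 : ℝ) else 0) - 1 / p) : ℝ) : ℂ) * ee (-(m * α)) =
        ∑ c ∈ Icc 1 R, ((((ArithmeticFunction.moebius c : ℤ) : ℝ) / (c.totient : ℝ) : ℝ) : ℂ) * ∑ b ∈ red c,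
          ∑ p ∈ pb P, (d p : ℂ) * (((((if p ∣ m then (1 : ℝ) else 0) - 1 / p : ℝ)) : ℂ) *
            ee (m * ((b : ℝ) / c - α))) := by
      intro m hm
      rw [Finset.mem_Ico] at hm
      have hm1 : 1 ≤ m := le_trans (Nat.mul_le_mul hi hH) hm.1
      rw [Complex.ofReal_mul, Pool.Agent.H76.EHB.lamR_eq R m hm1, Complex.ofReal_sum, Finset.sum_mul,
        Finset.sum_mul]
      refine Finset.sum_congr rfl fun c _ => ?_
      rw [mul_assoc, mul_assoc]
      congr 1
      rw [Finset.sum_mul]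
      refine Finset.sum_congr rfl fun b _ => ?_
      rw [Finset.sum_mul, Finset.mul_sum]
      refine Finset.sum_congr rfl fun p _ => ?_
      have e3 : ee (m * ((b : ℝ) / c - α)) = ee (m * ((b : ℝ) / c)) * ee (-(m * α)) := by
        rw [← Pool.Agent.H91.PK.LSa_ee_add]
        congr 1
        ring
      rw [e3, Complex.ofReal_mul]
      ring
    rw [Finset.sum_congr rfl e2, Finset.sum_comm]
    refine Finset.sum_congr rfl fun c _ => ?_
    rw [← Finset.mul_sum, Finset.sum_comm]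
    congr 1
    refine Finset.sum_congr rfl fun b _ => ?_
    rw [Finset.sum_comm]
    refine Finset.sum_congr rfl fun p _ => ?_
    rw [Finset.mul_sum]
  rw [h2]
  have h3 : ∀ c ∈ Icc 1 R, ‖((((ArithmeticFunction.moebius c : ℤ) : ℝ) / (c.totient : ℝ) : ℝ) : ℂ) * ∑ b ∈ red c,
        ∑ p ∈ pb P, (d p : ℂ) * ∑ m ∈ Ico (i * H) (i * H + H),
          ((((if p ∣ m then (1 : ℝ) else 0) - 1 / p : ℝ)) : ℂ) * ee (m * ((b : ℝ) / c - α))‖ ≤ K * Y := by
    intro c hc
    rw [Finset.mem_Icc] at hc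
    have hφ : (0 : ℝ) < (c.totient : ℝ) := by
      have := Nat.totient_pos.2 (show 0 < c by omega)
      exact_mod_cast this
    rw [norm_mul, Complex.norm_real, Real.norm_eq_abs, abs_div, abs_of_pos hφ]
    have hμ : |((ArithmeticFunction.moebius c : ℤ) : ℝ)| ≤ 1 := by
      have := ArithmeticFunction.abs_moebius_le_one (n := c)
      exact_mod_cast this
    have h5 : ∀ b : ℕ, ‖∑ p ∈ pb P, (d p : ℂ) * ∑ m ∈ Ico (i * H) (i * H + H),
          ((((if p ∣ m then (1 : ℝ) else 0) - 1 / p : ℝ)) : ℂ) * ee (m * ((b : ℝ) / c - α))‖ ≤ K * Y := by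
      intro b
      have hT := OmG_T P H (i * H) hP ((b : ℝ) / c - α)
      refine (norm_sum_le _ _).trans ?_
      refine le_trans (Finset.sum_le_sum fun p hp => ?_) (le_trans (le_of_eq (Finset.mul_sum _ _ K).symm)
        (mul_le_mul_of_nonneg_left hT hK))
      rw [norm_mul, Complex.norm_real, Real.norm_eq_abs]
      exact mul_le_mul_of_nonneg_right (hd p hp) (norm_nonneg _)
    have h4 : ‖∑ b ∈ red c, ∑ p ∈ pb P, (d p : ℂ) * ∑ m ∈ Ico (i * H) (i * H + H),
          ((((if p ∣ m then (1 : ℝ) else 0) - 1 / p : ℝ)) : ℂ) * ee (m * ((b : ℝ) / c - α))‖ ≤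
        (c.totient : ℝ) * (K * Y) := by
      refine (norm_sum_le _ _).trans ?_
      calc ∑ b ∈ red c, ‖∑ p ∈ pb P, (d p : ℂ) * ∑ m ∈ Ico (i * H) (i * H + H),
            ((((if p ∣ m then (1 : ℝ) else 0) - 1 / p : ℝ)) : ℂ) * ee (m * ((b : ℝ) / c - α))‖
          ≤ ∑ _b ∈ red c, (K * Y) := Finset.sum_le_sum fun b _ => h5 b
        _ = (c.totient : ℝ) * (K * Y) := by
            rw [Finset.sum_const, nsmul_eq_mul, Pool.Agent.H92.EH.card_red]
    calc |((ArithmeticFunction.moebius c : ℤ) : ℝ)| / (c.totient : ℝ) * _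
        ≤ 1 / (c.totient : ℝ) * ((c.totient : ℝ) * (K * Y)) := by
          refine mul_le_mul ?_ h4 (norm_nonneg _) (by positivity)
          exact div_le_div_of_nonneg_right hμ hφ.le
      _ = K * Y := by
          field_simp
  calc ‖_‖ ≤ ∑ _c ∈ Icc 1 R, (K * Y) := (norm_sum_le _ _).trans (Finset.sum_le_sum h3)
    _ = R * (K * Y) := by
        rw [Finset.sum_const, nsmul_eq_mul, Nat.card_Icc, Nat.add_sub_cancel]

end OmGaux

private theorem OmG_asym (ε : ℝ) (hε : 0 < ε) (C : ℝ) (k : ℕ) :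
    ∃ N0 : ℕ, ∀ N : ℕ, N0 ≤ N → C * Real.log N ^ k ≤ (N : ℝ) ^ ε := by
  have h1 := (isLittleO_log_rpow_rpow_atTop (k : ℝ) hε).const_mul_left C
  have h2 := h1.bound (show (0 : ℝ) < 1 by norm_num)
  have h3 := tendsto_natCast_atTop_atTop (R := ℝ) |>.eventually h2
  obtain ⟨N0, hN0⟩ := Filter.eventually_atTop.1 h3
  refine ⟨N0, fun N hN => ?_⟩
  have h4 := hN0 N hN
  rw [one_mul, Real.rpow_natCast, Real.norm_eq_abs, Real.norm_eq_abs,
    abs_of_nonneg (Real.rpow_nonneg (Nat.cast_nonneg N) ε)] at h4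
  exact (le_abs_self _).trans h4

/-- counting multiples -/
private theorem OmG_cnt (P H a : ℕ) (hP : 1 ≤ P) (hPH : P ≤ H) :
    ∑ m ∈ Ico a (a + H), ((((pb P).filter (fun p => p ∣ m)).card : ℕ) : ℝ) ≤ 3 * H := by
  have hP0 : (0 : ℝ) < P := by exact_mod_cast hP
  have h1 : ∑ m ∈ Ico a (a + H), ((pb P).filter (fun p => p ∣ m)).card =
      ∑ p ∈ pb P, ((Ico a (a + H)).filter (fun m => p ∣ m)).card := by
    simp only [Finset.card_filter]
    exact Finset.sum_comm
  have h2 : ∀ p ∈ pb P, (((Ico a (a + H)).filter (fun m => p ∣ m)).card : ℝ) ≤ 3 * H / P := by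
    intro p hp
    obtain ⟨hp1, hp2, hp3⟩ := OmG_pb hp
    have hp0 : 0 < p := hp1.pos
    have e1 : ((Ico a (a + H)).filter (fun m => p ∣ m)).card ≤ (Icc (a / p) ((a + H) / p)).card := by
      refine Finset.card_le_card_of_injOn (fun m => m / p) ?_ ?_
      · intro m hm
        have hm' := Finset.mem_coe.1 hm
        rw [Finset.mem_filter, Finset.mem_Ico] at hm'
        refine Finset.mem_coe.2 (Finset.mem_Icc.2 ⟨?_, ?_⟩)
        · exact Nat.div_le_div_right hm'.1.1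
        · exact Nat.div_le_div_right hm'.1.2.le
      · intro m hm m' hm' hmm
        have q1 := Finset.mem_coe.1 hm
        have q2 := Finset.mem_coe.1 hm'
        rw [Finset.mem_filter] at q1 q2
        have hmm' : m / p = m' / p := hmm
        rw [← Nat.div_mul_cancel q1.2, ← Nat.div_mul_cancel q2.2, hmm']
    rw [Nat.card_Icc] at e1
    have e2 : (a + H) / p + 1 - a / p ≤ H / p + 2 := by
      have e3 : (a + H) / p ≤ a / p + H / p + 1 := by
        have q1 := Nat.lt_div_mul_add (a := a) hp0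
        have q2 := Nat.lt_div_mul_add (a := H) hp0
        have q3 : (a / p + H / p + 2) * p = (a / p * p + p) + (H / p * p + p) := by ring
        have q4 : a + H < (a / p + H / p + 2) * p := by
          rw [q3]
          omega
        have q5 := (Nat.div_lt_iff_lt_mul hp0).2 q4
        generalize (a + H) / p = x1 at q5 ⊢
        generalize a / p = x2 at q5 ⊢
        generalize H / p = x3 at q5 ⊢
        omega
      generalize (a + H) / p = x1 at e3 ⊢
      generalize a / p = x2 at e3 ⊢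
      generalize H / p = x3 at e3 ⊢
      omega
    have e4 : (((Ico a (a + H)).filter (fun m => p ∣ m)).card : ℝ) ≤ ((H / p : ℕ) : ℝ) + 2 := by
      exact_mod_cast e1.trans e2
    have e5 : ((H / p : ℕ) : ℝ) ≤ H / P := by
      refine (Nat.cast_div_le).trans ?_
      exact div_le_div_of_nonneg_left (by positivity) hP0 (by exact_mod_cast hp2.le)
    have e6 : (1 : ℝ) ≤ H / P := by
      rw [le_div_iff₀ hP0, one_mul]
      exact_mod_cast hPH
    have e7 : 3 * (H : ℝ) / P = 3 * (H / P) := by ring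
    rw [e7]
    linarith only [e4, e5, e6]
  have h3 : ((pb P).card : ℝ) ≤ P := by
    have : (pb P).card ≤ P := by
      unfold pb
      refine (Finset.card_filter_le _ _).trans ?_
      rw [Nat.card_Ioc]
      omega
    exact_mod_cast this
  calc ∑ m ∈ Ico a (a + H), ((((pb P).filter (fun p => p ∣ m)).card : ℕ) : ℝ)
      = ((∑ m ∈ Ico a (a + H), ((pb P).filter (fun p => p ∣ m)).card : ℕ) : ℝ) := by push_cast; rfl
    _ = ∑ p ∈ pb P, (((Ico a (a + H)).filter (fun m => p ∣ m)).card : ℝ) := by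
        rw [h1]; push_cast; rfl
    _ ≤ ∑ _p ∈ pb P, 3 * (H : ℝ) / P := Finset.sum_le_sum h2
    _ = (pb P).card * (3 * (H : ℝ) / P) := by rw [Finset.sum_const, nsmul_eq_mul]
    _ ≤ P * (3 * (H : ℝ) / P) := mul_le_mul_of_nonneg_right h3 (by positivity)
    _ = 3 * H := by field_simp

/-- the first part -/
private theorem OmG_one (P R H i : ℕ) (α η : ℝ) (v : ℕ → ℕ → ℝ) (hP : 1 ≤ P) (hPH : P ≤ H)
    (hη : 0 ≤ η)
    (hv : ∀ m ∈ Ico (i * H) ((i + 1) * H), ∀ p ∈ pb P, p ∣ m → |v p m| ≤ η) :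
    ‖Bs (fun m => ∑ p ∈ (pb P).filter (fun p => p ∣ m), v p m) H i α‖ ≤ η * (3 * H) := by
  unfold Bs
  refine (norm_sum_le _ _).trans ?_
  have e1 : (i + 1) * H = i * H + H := by ring
  have h1 : ∀ m ∈ Ico (i * H) ((i + 1) * H),
      ‖((∑ p ∈ (pb P).filter (fun p => p ∣ m), v p m : ℝ) : ℂ) * ee (-(m * α))‖ ≤
        η * ((((pb P).filter (fun p => p ∣ m)).card : ℕ) : ℝ) := by
    intro m hm
    rw [norm_mul, Pool.Agent.H91.PK.LSa_norm_ee, mul_one, Complex.norm_real, Real.norm_eq_abs]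
    refine (Finset.abs_sum_le_sum_abs _ _).trans ?_
    calc ∑ p ∈ (pb P).filter (fun p => p ∣ m), |v p m|
        ≤ ∑ _p ∈ (pb P).filter (fun p => p ∣ m), η := by
          refine Finset.sum_le_sum fun p hp => ?_
          rw [Finset.mem_filter] at hp
          exact hv m hm p hp.1 hp.2
      _ = η * ((((pb P).filter (fun p => p ∣ m)).card : ℕ) : ℝ) := by
          rw [Finset.sum_const, nsmul_eq_mul, mul_comm]
  refine (Finset.sum_le_sum h1).trans ?_
  rw [← Finset.mul_sum, e1]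
  exact mul_le_mul_of_nonneg_left (OmG_cnt P H (i * H) hP hPH) hη

theorem om_g (e1 e b0 : ℝ) (he1 : 0 < e1) (he : 0 < e) (hb : b0 < 2 / 3) (A B : ℕ) :
    ∃ N0 : ℕ, ∀ N : ℕ, N0 ≤ N → ∀ (D : ℕ → ℝ) (R P H i : ℕ) (α : ℝ), 1 ≤ R → (R : ℝ) ≤ Real.log N ^ B →
      (N : ℝ) ^ e1 ≤ 2 * P → (P : ℝ) * (N : ℝ) ^ e ≤ H → H ^ 3 ≤ N → i ∈ Icc (N / (2 * H)) (4 * N / H) →
      (∀ x : ℕ, (N : ℝ) ^ (1 / 2 : ℝ) ≤ x → x ≤ 5 * N → |D x| ≤ Real.log N ^ 2) →
      (∀ x x' : ℕ, (N : ℝ) ^ (1 / 2 : ℝ) ≤ x → x ≤ x' → x' ≤ 5 * N →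
        |D x' - D x| ≤ Real.log N ^ 2 * (((x' : ℝ) - x) + (N : ℝ) ^ b0) / x) →
      ‖Bs (fun m => ∑ p ∈ (pb P).filter (fun p => p ∣ m), D (m / p) * lamR R (m / p)
        - (∑ p ∈ pb P, D (i * H / p) / p) * lamR R m) H i α‖ ≤ H / Real.log N ^ A := by
  obtain ⟨N1, hN1⟩ := OmG_asym e1 he1 3 B
  obtain ⟨N2, hN2⟩ := OmG_asym e he 300 (A + B + 3)
  obtain ⟨N3, hN3⟩ := OmG_asym e1 he1 16 (A + B + 2)
  obtain ⟨N4, hN4⟩ := OmG_asym (1 / 6) (by norm_num) 16 0
  refine ⟨max (max N1 N2) (max (max N3 N4) 1000), fun N hN D R P H i α hR1 hRB hP1 hPH hHN hi hD1 hD2 => ?_⟩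
  have hNN1 : N1 ≤ N := le_trans (le_trans (le_max_left _ _) (le_max_left _ _)) hN
  have hNN2 : N2 ≤ N := le_trans (le_trans (le_max_right _ _) (le_max_left _ _)) hN
  have hNN3 : N3 ≤ N := le_trans (le_trans (le_trans (le_max_left _ _) (le_max_left _ _)) (le_max_right _ _)) hN
  have hNN4 : N4 ≤ N := le_trans (le_trans (le_trans (le_max_right _ _) (le_max_left _ _)) (le_max_right _ _)) hN
  have hN1000 : 1000 ≤ N := le_trans (le_trans (le_max_right _ _) (le_max_right _ _)) hN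
  have q1 := hN1 N hNN1
  have q2 := hN2 N hNN2
  have q3 := hN3 N hNN3
  have q4 := hN4 N hNN4
  clear hN1 hN2 hN3 hN4
  have hNr : (1000 : ℝ) ≤ N := by exact_mod_cast hN1000
  have hN0 : (0 : ℝ) < N := by linarith only [hNr]
  have hN1' : (1 : ℝ) ≤ N := by linarith only [hNr]
  set L := Real.log N with hL
  have hL1 : 1 ≤ L := by
    rw [hL, Real.le_log_iff_exp_le hN0]
    have := Real.exp_one_lt_d9
    linarith only [hNr, this]
  have hL0 : 0 < L := by linarith only [hL1]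
  have hne1 : (0 : ℝ) < (N : ℝ) ^ e1 := Real.rpow_pos_of_pos hN0 _
  have hne : (0 : ℝ) < (N : ℝ) ^ e := Real.rpow_pos_of_pos hN0 _
  -- sizes
  have hP0 : (0 : ℝ) < P := by linarith only [hP1, hne1]
  have hPnat : 1 ≤ P := by
    have : 0 < P := by exact_mod_cast hP0
    omega
  have hne_one : (1 : ℝ) ≤ (N : ℝ) ^ e := Real.one_le_rpow hN1' he.le
  have hPHr : (P : ℝ) ≤ H := by
    refine le_trans ?_ hPH
    nlinarith only [hne_one]
  have hPHn : P ≤ H := by exact_mod_cast hPHr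
  have hH1 : 1 ≤ H := hPnat.trans hPHn
  have hH0 : (0 : ℝ) < H := by exact_mod_cast hH1
  have hH3 : (H : ℝ) ^ 3 ≤ N := by exact_mod_cast hHN
  have hHr : (H : ℝ) ≤ (N : ℝ) ^ (1 / 3 : ℝ) := by
    have h1 : (H : ℝ) = ((H : ℝ) ^ 3) ^ (1 / 3 : ℝ) := by
      rw [← Real.rpow_natCast, ← Real.rpow_mul hH0.le]
      norm_num
    rw [h1]
    exact Real.rpow_le_rpow (by positivity) hH3 (by norm_num)
  set c13 := (N : ℝ) ^ (1 / 3 : ℝ) with hc13
  have hc0 : 0 < c13 := Real.rpow_pos_of_pos hN0 _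
  have hc1 : 1 ≤ c13 := Real.one_le_rpow hN1' (by norm_num)
  have hc3 : c13 * c13 * c13 = N := by
    rw [hc13, ← Real.rpow_add hN0, ← Real.rpow_add hN0]
    norm_num
  have hc6 : (N : ℝ) ^ (1 / 2 : ℝ) * (N : ℝ) ^ (1 / 6 : ℝ) = c13 * c13 := by
    rw [hc13, ← Real.rpow_add hN0, ← Real.rpow_add hN0]
    norm_num
  have hhalf : 16 * (N : ℝ) ^ (1 / 2 : ℝ) ≤ c13 * c13 := by
    rw [pow_zero, mul_one] at q4
    rw [← hc6]
    have h0 : 0 < (N : ℝ) ^ (1 / 2 : ℝ) := Real.rpow_pos_of_pos hN0 _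
    nlinarith only [q4, h0]
  have hhalf1 : 1 ≤ (N : ℝ) ^ (1 / 2 : ℝ) := Real.one_le_rpow hN1' (by norm_num)
  have hPe : (P : ℝ) * (N : ℝ) ^ e ≤ c13 := hPH.trans hHr
  have hRP : R < P := by
    have h1 : (R : ℝ) < P := by
      have h2 : 0 < L ^ B := by positivity
      linarith only [hP1, hRB, q1, h2]
    exact_mod_cast h1
  -- the block
  rw [Finset.mem_Icc] at hi
  have hHc : 4 * H ≤ N := by
    have h1 : (10 : ℝ) ≤ c13 := by
      by_contra hcon
      push Not at hcon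
      have h2 : c13 * c13 * c13 < 10 * 10 * 10 := by
        have := mul_lt_mul'' hcon hcon hc0.le hc0.le
        exact mul_lt_mul'' this hcon (by positivity) hc0.le
      linarith only [hNr, hc3, h2]
    have h2 : 4 * (H : ℝ) ≤ N := by nlinarith only [hc3, hhalf, hhalf1, hNr, hHr]
    exact_mod_cast h2
  have hb1 : N ≤ 4 * (i * H) := by
    have h1 : N < (N / (2 * H) + 1) * (2 * H) := Nat.lt_mul_of_div_lt (Nat.lt_succ_self _) (by omega)
    have h2 : (N / (2 * H) + 1) * (2 * H) ≤ (i + 1) * (2 * H) := Nat.mul_le_mul_right _ (by omega)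
    have h3 : (i + 1) * (2 * H) = 2 * (i * H) + 2 * H := by ring
    omega
  have hb2 : (i + 1) * H ≤ 5 * N := by
    have h1 : i * H ≤ 4 * N := le_trans (Nat.mul_le_mul_right _ hi.2) (Nat.div_mul_le_self _ _)
    have h2 : (i + 1) * H = i * H + H := by ring
    omega
  have hi1 : 1 ≤ i := by
    rcases Nat.eq_zero_or_pos i with h0 | h0
    · subst h0
      omega
    · exact h0
  have hb1r : (N : ℝ) ≤ 4 * ((i * H : ℕ) : ℝ) := by exact_mod_cast hb1
  -- the quotients
  have hquo : ∀ m : ℕ, i * H ≤ m → m ≤ (i + 1) * H → ∀ p ∈ pb P,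
      (N : ℝ) ^ (1 / 2 : ℝ) ≤ ((m / p : ℕ) : ℝ) ∧ m / p ≤ 5 * N ∧ (N : ℝ) / (16 * P) ≤ ((m / p : ℕ) : ℝ) := by
    intro m hm1 hm2 p hp
    obtain ⟨hp1, hp2, hp3⟩ := OmG_pb hp
    have hp0 : (0 : ℝ) < p := by exact_mod_cast hp1.pos
    have hp3r : (p : ℝ) ≤ 2 * P := by exact_mod_cast hp3
    have h1 : (m : ℝ) / p - 1 ≤ ((m / p : ℕ) : ℝ) := by
      have h2 : (m : ℝ) < (((m / p : ℕ) : ℝ) + 1) * p := by
        have := Nat.lt_mul_of_div_lt (Nat.lt_succ_self (m / p)) hp1.pos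
        exact_mod_cast this
      have h3 : (m : ℝ) / p < ((m / p : ℕ) : ℝ) + 1 := by
        rw [div_lt_iff₀ hp0]; exact h2
      linarith only [h3]
    have hmr : (N : ℝ) / 4 ≤ m := by
      have : ((i * H : ℕ) : ℝ) ≤ m := by exact_mod_cast hm1
      linarith only [hb1r, this]
    have h2 : (N : ℝ) / (8 * P) ≤ (m : ℝ) / p := by
      rw [div_le_div_iff₀ (by positivity) hp0]
      calc (N : ℝ) * p ≤ N * (2 * P) := mul_le_mul_of_nonneg_left hp3r hN0.le
        _ = (N / 4) * (8 * P) := by ring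
        _ ≤ m * (8 * P) := mul_le_mul_of_nonneg_right hmr (by positivity)
    have hPc : (P : ℝ) ≤ c13 := hPHr.trans hHr
    have h3 : c13 * c13 / 8 ≤ (N : ℝ) / (8 * P) := by
      rw [div_le_div_iff₀ (by norm_num) (by positivity)]
      calc c13 * c13 * (8 * P) ≤ c13 * c13 * (8 * c13) := by
            refine mul_le_mul_of_nonneg_left ?_ (by positivity)
            linarith only [hPHr, hHr]
        _ = N * 8 := by rw [← hc3]; ring
    refine ⟨?_, ?_, ?_⟩
    · linarith only [hhalf, hhalf1, h1, h2, h3]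
    · exact (Nat.div_le_self _ _).trans (hm2.trans hb2)
    · have h4 : (N : ℝ) / (16 * P) = (N / (8 * P)) / 2 := by
        field_simp
        norm_num
      rw [h4]
      linarith only [hhalf, hhalf1, h1, h2, h3]
  have hiH : i * H ≤ (i + 1) * H := Nat.mul_le_mul_right _ (by omega)
  -- the decomposition
  have hdec : Bs (fun m => ∑ p ∈ (pb P).filter (fun p => p ∣ m), D (m / p) * lamR R (m / p)
        - (∑ p ∈ pb P, D (i * H / p) / p) * lamR R m) H i α =
      Bs (fun m => ∑ p ∈ (pb P).filter (fun p => p ∣ m), (D (m / p) - D (i * H / p)) * lamR R (m / p)) H i α +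
      Bs (fun m => lamR R m * ∑ p ∈ pb P, D (i * H / p) * ((if p ∣ m then (1 : ℝ) else 0) - 1 / p)) H i α := by
    unfold Bs
    rw [← Finset.sum_add_distrib]
    refine Finset.sum_congr rfl fun m _ => ?_
    rw [← add_mul, ← Complex.ofReal_add]
    congr 2
    beta_reduce
    have e1 : ∑ p ∈ pb P, D (i * H / p) * ((if p ∣ m then (1 : ℝ) else 0) - 1 / p) =
        ∑ p ∈ (pb P).filter (fun p => p ∣ m), D (i * H / p) - ∑ p ∈ pb P, D (i * H / p) / p := by
      rw [Finset.sum_filter, ← Finset.sum_sub_distrib]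
      refine Finset.sum_congr rfl fun p _ => ?_
      split_ifs <;> ring
    have e2 : ∑ p ∈ (pb P).filter (fun p => p ∣ m), (D (m / p) - D (i * H / p)) * lamR R (m / p) =
        ∑ p ∈ (pb P).filter (fun p => p ∣ m), D (m / p) * lamR R (m / p) -
          lamR R m * ∑ p ∈ (pb P).filter (fun p => p ∣ m), D (i * H / p) := by
      rw [Finset.mul_sum, ← Finset.sum_sub_distrib]
      refine Finset.sum_congr rfl fun p hp => ?_
      rw [Finset.mem_filter] at hp
      obtain ⟨hp1, hp2, hp3⟩ := OmG_pb hp.1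
      have e3 : lamR R m = lamR R (m / p) := by
        obtain ⟨q, rfl⟩ := hp.2
        rw [Nat.mul_div_cancel_left _ hp1.pos, Pool.Agent.H76.SP.lamR_mul R p q hp1 (by omega)]
      rw [e3]
      ring
    rw [e1, e2]
    ring
  rw [hdec]
  -- first part
  have hrp : (0 : ℝ) ≤ R := Nat.cast_nonneg R
  have hη : ∀ m ∈ Ico (i * H) ((i + 1) * H), ∀ p ∈ pb P, p ∣ m →
      |(D (m / p) - D (i * H / p)) * lamR R (m / p)| ≤ 48 * L ^ 2 / (N : ℝ) ^ e * L ^ B := by
    intro m hm p hp _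
    rw [Finset.mem_Ico] at hm
    obtain ⟨hp1, hp2, hp3⟩ := OmG_pb hp
    have hp0 : (0 : ℝ) < p := by exact_mod_cast hp1.pos
    have hp1r : (1 : ℝ) ≤ p := by exact_mod_cast hp1.one_le
    obtain ⟨a1, a2, a3⟩ := hquo m hm.1 hm.2.le p hp
    obtain ⟨b1, b2, b3⟩ := hquo (i * H) le_rfl hiH p hp
    have h1 := hD2 (i * H / p) (m / p) b1 (Nat.div_le_div_right hm.1) a2
    have hx0 : (0 : ℝ) < ((i * H / p : ℕ) : ℝ) := by linarith only [hhalf1, b1]
    have h2 : ((m / p : ℕ) : ℝ) - ((i * H / p : ℕ) : ℝ) ≤ H + 1 := by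
      have h3 : ((m / p : ℕ) : ℝ) ≤ (m : ℝ) / p := Nat.cast_div_le
      have h4 : ((i * H : ℕ) : ℝ) / p < ((i * H / p : ℕ) : ℝ) + 1 := by
        rw [div_lt_iff₀ hp0]
        have := Nat.lt_mul_of_div_lt (Nat.lt_succ_self (i * H / p)) hp1.pos
        exact_mod_cast this
      have h5 : (m : ℝ) / p - ((i * H : ℕ) : ℝ) / p ≤ H := by
        rw [← sub_div, div_le_iff₀ hp0]
        have h6 : (m : ℝ) ≤ ((i * H : ℕ) : ℝ) + H := by
          have h7 : m ≤ i * H + H := by
            have h8 := hm.2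
            have h9 : (i + 1) * H = i * H + H := by ring
            omega
          exact_mod_cast h7
        nlinarith only [h6, hp1r]
      linarith only [h3, h4, h5]
    have h3 : |D (m / p) - D (i * H / p)| ≤ 48 * L ^ 2 / (N : ℝ) ^ e := by
      refine h1.trans ?_
      rw [div_le_div_iff₀ hx0 hne]
      have hb0 : (N : ℝ) ^ b0 ≤ c13 * c13 := by
        have : c13 * c13 = (N : ℝ) ^ (2 / 3 : ℝ) := by
          rw [hc13, ← Real.rpow_add hN0]
          norm_num
        rw [this]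
        exact Real.rpow_le_rpow_of_exponent_le hN1' hb.le
      have h4 : (((m / p : ℕ) : ℝ) - ((i * H / p : ℕ) : ℝ)) + (N : ℝ) ^ b0 ≤ 3 * (c13 * c13) := by
        have h5 : c13 ≤ c13 * c13 := by nlinarith only [hhalf, hhalf1, hPHr, hHr, hc1]
        linarith only [hHr, hhalf, hhalf1, h2, hb0, h5]
      have h6 : (N : ℝ) ≤ 16 * P * ((i * H / p : ℕ) : ℝ) := by
        rw [div_le_iff₀ (by positivity)] at b3
        linarith only [b3]
      have h7 : c13 * c13 * (N : ℝ) ^ e ≤ 16 * ((i * H / p : ℕ) : ℝ) := by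
        have h8 : c13 * c13 * ((P : ℝ) * (N : ℝ) ^ e) ≤ c13 * c13 * c13 :=
          mul_le_mul_of_nonneg_left hPe (by positivity)
        rw [hc3] at h8
        have h9 : P * (c13 * c13 * (N : ℝ) ^ e) ≤ P * (16 * ((i * H / p : ℕ) : ℝ)) := by
          calc P * (c13 * c13 * (N : ℝ) ^ e) = c13 * c13 * ((P : ℝ) * (N : ℝ) ^ e) := by ring
            _ ≤ N := h8
            _ ≤ 16 * P * ((i * H / p : ℕ) : ℝ) := h6
            _ = P * (16 * ((i * H / p : ℕ) : ℝ)) := by ring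
        exact le_of_mul_le_mul_left h9 hP0
      calc L ^ 2 * ((((m / p : ℕ) : ℝ) - ((i * H / p : ℕ) : ℝ)) + (N : ℝ) ^ b0) * (N : ℝ) ^ e
          ≤ L ^ 2 * (3 * (c13 * c13)) * (N : ℝ) ^ e := by
            refine mul_le_mul_of_nonneg_right (mul_le_mul_of_nonneg_left h4 (by positivity)) hne.le
        _ = 3 * L ^ 2 * (c13 * c13 * (N : ℝ) ^ e) := by ring
        _ ≤ 3 * L ^ 2 * (16 * ((i * H / p : ℕ) : ℝ)) := mul_le_mul_of_nonneg_left h7 (by positivity)
        _ = 48 * L ^ 2 * ((i * H / p : ℕ) : ℝ) := by ring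
    have h4 : |lamR R (m / p)| ≤ L ^ B := by
      refine (OmG_lam R (m / p) ?_).trans hRB
      have h5 : (1 : ℝ) ≤ ((m / p : ℕ) : ℝ) := by linarith only [hhalf1, a1]
      exact_mod_cast h5
    rw [abs_mul]
    exact mul_le_mul h3 h4 (abs_nonneg _) (by positivity)
  have hp1 := OmG_one P R H i α (48 * L ^ 2 / (N : ℝ) ^ e * L ^ B)
    (fun p m => (D (m / p) - D (i * H / p)) * lamR R (m / p)) hPnat hPHn (by positivity) hη
  have hp1' : 48 * L ^ 2 / (N : ℝ) ^ e * L ^ B * (3 * H) ≤ H / L ^ A / 2 := by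
    rw [div_div, div_mul_eq_mul_div, div_mul_eq_mul_div, div_le_div_iff₀ hne (by positivity)]
    have h1 : 300 * L ^ (A + B + 2) ≤ (N : ℝ) ^ e := by
      refine le_trans ?_ q2
      refine mul_le_mul_of_nonneg_left ?_ (by norm_num)
      exact pow_le_pow_right₀ hL1 (by omega)
    calc 48 * L ^ 2 * L ^ B * (3 * H) * (L ^ A * 2) = H * (288 * L ^ (A + B + 2)) := by
          rw [pow_add, pow_add]; ring
      _ ≤ H * (300 * L ^ (A + B + 2)) := by
          refine mul_le_mul_of_nonneg_left ?_ hH0.le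
          refine mul_le_mul_of_nonneg_right (by norm_num) (by positivity)
      _ ≤ H * (N : ℝ) ^ e := mul_le_mul_of_nonneg_left h1 hH0.le
  -- second part
  have hp2 := OmG_two P R H i α (L ^ 2) (fun p => D (i * H / p)) hPnat hi1 hH1 (by positivity)
    (fun p hp => by
      obtain ⟨b1, b2, b3⟩ := hquo (i * H) le_rfl hiH p hp
      exact hD1 (i * H / p) b1 b2)
  have hp2' : R * (L ^ 2 * ((2 * H + ((4 * P ^ 2 : ℕ) : ℝ) * (1 + Real.log ((4 * P ^ 2 : ℕ) : ℝ))) / P)) ≤
      H / L ^ A / 2 := by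
    have hPc : (P : ℝ) ≤ c13 := hPHr.trans hHr
    have hc10 : (4 : ℝ) ≤ c13 := by
      by_contra hcon
      push Not at hcon
      have h2 : c13 * c13 * c13 < 4 * 4 * 4 := by
        have := mul_lt_mul'' hcon hcon hc0.le hc0.le
        exact mul_lt_mul'' this hcon (by positivity) hc0.le
      linarith only [hNr, hc3, h2]
    have hlog : Real.log ((4 * P ^ 2 : ℕ) : ℝ) ≤ L := by
      rw [hL]
      refine Real.log_le_log (by positivity) ?_
      push_cast
      calc 4 * (P : ℝ) ^ 2 ≤ c13 * (c13 * c13) := by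
            have h1 : (P : ℝ) ^ 2 ≤ c13 * c13 := by
              rw [pow_two]
              exact mul_le_mul hPc hPc hP0.le hc0.le
            exact mul_le_mul hc10 h1 (by positivity) hc0.le
        _ = N := by rw [← hc3]; ring
    have h1 : (2 * H + ((4 * P ^ 2 : ℕ) : ℝ) * (1 + Real.log ((4 * P ^ 2 : ℕ) : ℝ))) / P ≤
        4 * H / (N : ℝ) ^ e1 + 8 * L * H / (N : ℝ) ^ e := by
      have h2 : ((4 * P ^ 2 : ℕ) : ℝ) * (1 + Real.log ((4 * P ^ 2 : ℕ) : ℝ)) ≤ 4 * (P : ℝ) ^ 2 * (2 * L) := by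
        push_cast
        push_cast at hlog
        exact mul_le_mul_of_nonneg_left (by linarith only [hL1, hlog]) (by positivity)
      have h3 : (2 * (H : ℝ)) / P ≤ 4 * H / (N : ℝ) ^ e1 := by
        rw [div_le_div_iff₀ hP0 hne1]
        nlinarith only [hP1]
      have h4 : (4 * (P : ℝ) ^ 2 * (2 * L)) / P ≤ 8 * L * H / (N : ℝ) ^ e := by
        rw [div_le_div_iff₀ hP0 hne]
        calc 4 * (P : ℝ) ^ 2 * (2 * L) * (N : ℝ) ^ e = 8 * L * P * (P * (N : ℝ) ^ e) := by ring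
          _ ≤ 8 * L * P * H := mul_le_mul_of_nonneg_left hPH (by positivity)
          _ = 8 * L * H * P := by ring
      calc (2 * H + ((4 * P ^ 2 : ℕ) : ℝ) * (1 + Real.log ((4 * P ^ 2 : ℕ) : ℝ))) / P
          ≤ (2 * H + 4 * (P : ℝ) ^ 2 * (2 * L)) / P :=
            div_le_div_of_nonneg_right (by linarith only [h2]) hP0.le
        _ = (2 * (H : ℝ)) / P + (4 * (P : ℝ) ^ 2 * (2 * L)) / P := add_div _ _ _
        _ ≤ _ := add_le_add h3 h4
    have h2 : R * (L ^ 2 * ((2 * H + ((4 * P ^ 2 : ℕ) : ℝ) * (1 + Real.log ((4 * P ^ 2 : ℕ) : ℝ))) / P)) ≤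
        L ^ B * (L ^ 2 * (4 * H / (N : ℝ) ^ e1 + 8 * L * H / (N : ℝ) ^ e)) := by
      refine mul_le_mul hRB (mul_le_mul_of_nonneg_left h1 (by positivity)) ?_ (by positivity)
      have h3 : 0 ≤ Real.log ((4 * P ^ 2 : ℕ) : ℝ) := Real.log_natCast_nonneg _
      positivity
    refine h2.trans ?_
    have h3 : L ^ B * (L ^ 2 * (4 * H / (N : ℝ) ^ e1 + 8 * L * H / (N : ℝ) ^ e)) =
        H / L ^ A / 2 * (8 * L ^ (A + B + 2) / (N : ℝ) ^ e1 + 16 * L ^ (A + B + 3) / (N : ℝ) ^ e) := by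
      rw [pow_add, pow_add, pow_add, pow_add]
      field_simp
      ring
    rw [h3]
    have h4 : 8 * L ^ (A + B + 2) / (N : ℝ) ^ e1 ≤ 1 / 2 := by
      rw [div_le_div_iff₀ hne1 (by norm_num)]
      linarith only [q3]
    have h5 : 16 * L ^ (A + B + 3) / (N : ℝ) ^ e ≤ 1 / 2 := by
      rw [div_le_div_iff₀ hne (by norm_num)]
      have : 0 < L ^ (A + B + 3) := by positivity
      linarith only [q2, this]
    calc H / L ^ A / 2 * (8 * L ^ (A + B + 2) / (N : ℝ) ^ e1 + 16 * L ^ (A + B + 3) / (N : ℝ) ^ e)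
        ≤ H / L ^ A / 2 * 1 := mul_le_mul_of_nonneg_left (by linarith only [h4, h5]) (by positivity)
      _ = H / L ^ A / 2 := mul_one _
  calc ‖_‖ ≤ _ := norm_add_le _ _
    _ ≤ H / L ^ A / 2 + H / L ^ A / 2 := add_le_add (hp1.trans hp1') (hp2.trans hp2')
    _ = H / L ^ A := by ring

end Pool.Agent.H91.TQ

end
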