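import Pool.Agent.H43.PJ.M44
import Pool.Agent.H43.PJ.M45

/-! The parts of this file: H9.TN.Defs, H56.TI.Diag, H56.TI.Pos, H56.TI.Expand, H56.TI2.Tri, H56.TI2.Poi. -/

section

/-!
# TN Defs: the levels and the main term of the `5/24` version

Certificate 2: with `y = 2 1_P - ρ + φ_Y(om) ρ`, `z = -(4/3) 1_P + ρ/3 + φ_Z(om) ρ`: `2 1_P 1_P' ≥ y ρ' + ρ y' + (om ρ) z' + z (om ρ)'` for all rough numbers.
-/

set_option autoImplicit false

namespace Pool.Agent.H9.TN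

open Pool.Agent.H76.TP (zz rg)
open Pool.Agent.H91.TQ (om Lev)

/-- the levels -/
def LevR (N y J J1 : ℕ) : Prop := Lev (2082 / 10000) (2083 / 10000) (3540 / 10000) (3541 / 10000) N y J J1

/-- `φ_Y = 0, 1, 4/3, 1, 2/3` -/
noncomputable def fY (k : ℕ) : ℝ := if k = 1 then 1 else if k = 2 then 4 / 3 else if k = 3 then 1 else if k = 4 then 2 / 3 else 0

/-- `φ_Z = 0, -1/3, -2/3, -1/3, -1/4` -/
noncomputable def fZ (k : ℕ) : ℝ :=
  if k = 1 then -1 / 3 else if k = 2 then -2 / 3 else if k = 3 then -1 / 3 else if k = 4 then -1 / 4 else 0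

noncomputable def yy0 (y J J1 m : ℕ) : ℝ := rg (zz y J) m * fY (om y J J1 m)

noncomputable def zz0 (y J J1 m : ℕ) : ℝ := rg (zz y J) m * fZ (om y J J1 m)

/-- the main term -/
noncomputable def MM2 (C0 C1 gp gY gZ k0 k1 kD : ℝ) : ℝ :=
  k0 * (2 * gp - k0 + gY) + k1 * (-(4 / 3) * gp + k0 / 3 + gZ) - C0 * k0 * kD - C1 * kD ^ 2

end Pool.Agent.H9.TN

end

section

/-!
# TI Diag: the diagonal part of `T4`

`q1 = q3`: `Tj K J q1 q2 q1 q4 = ∑_j fej(x1)² fej(x2) fej(x4) ≤ K² ∑_j fej(x1) fej(x2) ≤ 2 J K² Wk K (nz(x1 - x2))` (`fej_le`, `fej_grid2`), the other factor is `fej X (x2 - x4)`: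
sum over `q4` (`spc_fej`, `β = x2`) `≤ 100 X`, over `q1` (`spc_wk`, `β = x2`) `≤ 100 P²`, over `q2` (`fr_card`) `≤ 2P²`: total `≤ 2·10^4·2 J K² P⁴ X`.
`q2 = q4` is the same by symmetry (exchange `(q1, q3)` and `(q2, q4)`; `fej X (x1 - x3)`).
-/

set_option autoImplicit false

namespace Pool.Agent.H56.TI

open Finset
open Pool.Agent.H91.PK (ee)
open Pool.Agent.H35.W (pb)
open Pool.Agent.H53.MID (nz)

private theorem Diag_Tj (K J : ℕ) (hK : 1 ≤ K) (hJ : K ≤ J) (q1 q2 q3 q4 : ℕ × ℕ) :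
    Tj K J q1 q2 q3 q4 ≤ 2 * J * (K : ℝ) ^ 2 * Wk K (nz (xf q1 - xf q2)) := by
  unfold Tj
  calc ∑ j ∈ range J, fej K (xf q1 - j / J) * fej K (xf q2 - j / J) * fej K (xf q3 - j / J) * fej K (xf q4 - j / J)
      ≤ ∑ j ∈ range J, (fej K (xf q1 - j / J) * fej K (xf q2 - j / J)) * (K : ℝ) ^ 2 := by
        refine Finset.sum_le_sum fun j _ => ?_
        have h1 := fej_nonneg K (xf q1 - j / J)
        have h2 := fej_nonneg K (xf q2 - j / J)
        have h3 := fej_nonneg K (xf q3 - j / J)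
        have h4 := fej_nonneg K (xf q4 - j / J)
        have h3' := fej_le K (xf q3 - j / J)
        have h4' := fej_le K (xf q4 - j / J)
        have h5 : fej K (xf q3 - j / J) * fej K (xf q4 - j / J) ≤ (K : ℝ) * K :=
          mul_le_mul h3' h4' h4 (Nat.cast_nonneg K)
        calc fej K (xf q1 - j / J) * fej K (xf q2 - j / J) * fej K (xf q3 - j / J) * fej K (xf q4 - j / J)
            = (fej K (xf q1 - j / J) * fej K (xf q2 - j / J)) *
                (fej K (xf q3 - j / J) * fej K (xf q4 - j / J)) := by ring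
          _ ≤ (fej K (xf q1 - j / J) * fej K (xf q2 - j / J)) * ((K : ℝ) * K) :=
              mul_le_mul_of_nonneg_left h5 (mul_nonneg h1 h2)
          _ = (fej K (xf q1 - j / J) * fej K (xf q2 - j / J)) * (K : ℝ) ^ 2 := by ring
    _ = (∑ j ∈ range J, fej K (xf q1 - j / J) * fej K (xf q2 - j / J)) * (K : ℝ) ^ 2 := by
        rw [Finset.sum_mul]
    _ ≤ (2 * J * Wk K (nz (xf q1 - xf q2))) * (K : ℝ) ^ 2 :=
        mul_le_mul_of_nonneg_right (fej_grid2 K J hK hJ _ _) (sq_nonneg _)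
    _ = 2 * J * (K : ℝ) ^ 2 * Wk K (nz (xf q1 - xf q2)) := by ring

private theorem Diag_main (P K J X : ℕ) (hP : 1 ≤ P) (hK : 1 ≤ K) (hKP : K ≤ P ^ 2) :
    ∑ q1 ∈ FR P, ∑ q2 ∈ FR P, (2 * J * (K : ℝ) ^ 2 * Wk K (nz (xf q1 - xf q2))) * (100 * X) ≤
    40000 * (K : ℝ) ^ 2 * J * P ^ 4 * X := by
  have h1 : ∀ q1 ∈ FR P, ∑ q2 ∈ FR P, (2 * J * (K : ℝ) ^ 2 * Wk K (nz (xf q1 - xf q2))) * (100 * X) ≤
      20000 * (K : ℝ) ^ 2 * J * P ^ 2 * X := by
    intro q1 _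
    have h2 := spc_wk P K hP hK hKP (xf q1)
    calc ∑ q2 ∈ FR P, (2 * J * (K : ℝ) ^ 2 * Wk K (nz (xf q1 - xf q2))) * (100 * X)
        = (200 * J * (K : ℝ) ^ 2 * X) * ∑ q2 ∈ FR P, Wk K (nz (xf q1 - xf q2)) := by
          rw [Finset.mul_sum]
          exact Finset.sum_congr rfl fun q _ => by ring
      _ ≤ (200 * J * (K : ℝ) ^ 2 * X) * (100 * P ^ 2) :=
          mul_le_mul_of_nonneg_left h2 (by positivity)
      _ = 20000 * (K : ℝ) ^ 2 * J * P ^ 2 * X := by ring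
  calc ∑ q1 ∈ FR P, ∑ q2 ∈ FR P, (2 * J * (K : ℝ) ^ 2 * Wk K (nz (xf q1 - xf q2))) * (100 * X)
      ≤ ∑ q1 ∈ FR P, 20000 * (K : ℝ) ^ 2 * J * P ^ 2 * X := Finset.sum_le_sum h1
    _ = ((FR P).card : ℝ) * (20000 * (K : ℝ) ^ 2 * J * P ^ 2 * X) := by
        rw [Finset.sum_const, nsmul_eq_mul]
    _ ≤ (2 * P ^ 2 : ℝ) * (20000 * (K : ℝ) ^ 2 * J * P ^ 2 * X) := by
        refine mul_le_mul_of_nonneg_right ?_ (by positivity)
        exact_mod_cast fr_card P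
    _ = 40000 * (K : ℝ) ^ 2 * J * P ^ 4 * X := by ring

private theorem Diag_A (P K J X : ℕ) (hP : 1 ≤ P) (hK : 1 ≤ K) (hJ : K ≤ J) (hKP : K ≤ P ^ 2) (hX : P ^ 2 ≤ X) :
    ∑ q1 ∈ FR P, ∑ q2 ∈ FR P, ∑ q4 ∈ FR P, Tj K J q1 q2 q1 q4 * fej X (xf q1 + xf q2 - xf q1 - xf q4) ≤
    40000 * (K : ℝ) ^ 2 * J * P ^ 4 * X := by
  refine le_trans ?_ (Diag_main P K J X hP hK hKP)
  refine Finset.sum_le_sum fun q1 _ => Finset.sum_le_sum fun q2 _ => ?_
  have hw : 0 ≤ 2 * J * (K : ℝ) ^ 2 * Wk K (nz (xf q1 - xf q2)) :=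
    mul_nonneg (by positivity) (wk_nonneg K _)
  calc ∑ q4 ∈ FR P, Tj K J q1 q2 q1 q4 * fej X (xf q1 + xf q2 - xf q1 - xf q4)
      ≤ ∑ q4 ∈ FR P, (2 * J * (K : ℝ) ^ 2 * Wk K (nz (xf q1 - xf q2))) * fej X (xf q2 - xf q4) := by
        refine Finset.sum_le_sum fun q4 _ => ?_
        have e : xf q1 + xf q2 - xf q1 - xf q4 = xf q2 - xf q4 := by ring
        rw [e]
        exact mul_le_mul_of_nonneg_right (Diag_Tj K J hK hJ q1 q2 q1 q4) (fej_nonneg X _)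
    _ = (2 * J * (K : ℝ) ^ 2 * Wk K (nz (xf q1 - xf q2))) * ∑ q4 ∈ FR P, fej X (xf q2 - xf q4) := by
        rw [Finset.mul_sum]
    _ ≤ (2 * J * (K : ℝ) ^ 2 * Wk K (nz (xf q1 - xf q2))) * (100 * X) :=
        mul_le_mul_of_nonneg_left (spc_fej P X hP hX (xf q2)) hw

private theorem Diag_B (P K J X : ℕ) (hP : 1 ≤ P) (hK : 1 ≤ K) (hJ : K ≤ J) (hKP : K ≤ P ^ 2) (hX : P ^ 2 ≤ X) :
    ∑ q1 ∈ FR P, ∑ q2 ∈ FR P, ∑ q3 ∈ FR P, Tj K J q1 q2 q3 q2 * fej X (xf q1 + xf q2 - xf q3 - xf q2) ≤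
    40000 * (K : ℝ) ^ 2 * J * P ^ 4 * X := by
  refine le_trans ?_ (Diag_main P K J X hP hK hKP)
  refine Finset.sum_le_sum fun q1 _ => Finset.sum_le_sum fun q2 _ => ?_
  have hw : 0 ≤ 2 * J * (K : ℝ) ^ 2 * Wk K (nz (xf q1 - xf q2)) :=
    mul_nonneg (by positivity) (wk_nonneg K _)
  calc ∑ q3 ∈ FR P, Tj K J q1 q2 q3 q2 * fej X (xf q1 + xf q2 - xf q3 - xf q2)
      ≤ ∑ q3 ∈ FR P, (2 * J * (K : ℝ) ^ 2 * Wk K (nz (xf q1 - xf q2))) * fej X (xf q1 - xf q3) := by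
        refine Finset.sum_le_sum fun q3 _ => ?_
        have e : xf q1 + xf q2 - xf q3 - xf q2 = xf q1 - xf q3 := by ring
        rw [e]
        exact mul_le_mul_of_nonneg_right (Diag_Tj K J hK hJ q1 q2 q3 q2) (fej_nonneg X _)
    _ = (2 * J * (K : ℝ) ^ 2 * Wk K (nz (xf q1 - xf q2))) * ∑ q3 ∈ FR P, fej X (xf q1 - xf q3) := by
        rw [Finset.mul_sum]
    _ ≤ (2 * J * (K : ℝ) ^ 2 * Wk K (nz (xf q1 - xf q2))) * (100 * X) :=
        mul_le_mul_of_nonneg_left (spc_fej P X hP hX (xf q1)) hw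

private theorem Diag_Tj_nonneg (K J : ℕ) (q1 q2 q3 q4 : ℕ × ℕ) : 0 ≤ Tj K J q1 q2 q3 q4 := by
  unfold Tj
  refine Finset.sum_nonneg fun j _ => ?_
  exact mul_nonneg (mul_nonneg (mul_nonneg (fej_nonneg _ _) (fej_nonneg _ _)) (fej_nonneg _ _)) (fej_nonneg _ _)

theorem diag_le (P K J X : ℕ) (hP : 1 ≤ P) (hK : 1 ≤ K) (hJ : K ≤ J) (hKP : K ≤ P ^ 2) (hX : P ^ 2 ≤ X) :
    ∑ q1 ∈ FR P, ∑ q2 ∈ FR P, ∑ q3 ∈ FR P, ∑ q4 ∈ FR P,
      (if q1 = q3 ∨ q2 = q4 then Tj K J q1 q2 q3 q4 * fej X (xf q1 + xf q2 - xf q3 - xf q4) else 0) ≤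
    100000 * (K : ℝ) ^ 2 * J * P ^ 4 * X := by
  have hA := Diag_A P K J X hP hK hJ hKP hX
  have hB := Diag_B P K J X hP hK hJ hKP hX
  have hn : ∀ q1 q2 q3 q4 : ℕ × ℕ, 0 ≤ Tj K J q1 q2 q3 q4 * fej X (xf q1 + xf q2 - xf q3 - xf q4) :=
    fun q1 q2 q3 q4 => mul_nonneg (Diag_Tj_nonneg K J q1 q2 q3 q4) (fej_nonneg X _)
  have h1 : ∑ q1 ∈ FR P, ∑ q2 ∈ FR P, ∑ q3 ∈ FR P, ∑ q4 ∈ FR P,
      (if q1 = q3 ∨ q2 = q4 then Tj K J q1 q2 q3 q4 * fej X (xf q1 + xf q2 - xf q3 - xf q4) else 0) ≤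
      ∑ q1 ∈ FR P, ∑ q2 ∈ FR P, ∑ q3 ∈ FR P, ∑ q4 ∈ FR P,
      ((if q1 = q3 then Tj K J q1 q2 q3 q4 * fej X (xf q1 + xf q2 - xf q3 - xf q4) else 0) +
       (if q2 = q4 then Tj K J q1 q2 q3 q4 * fej X (xf q1 + xf q2 - xf q3 - xf q4) else 0)) := by
    refine Finset.sum_le_sum fun q1 _ => Finset.sum_le_sum fun q2 _ => Finset.sum_le_sum fun q3 _ =>
      Finset.sum_le_sum fun q4 _ => ?_
    have h0 := hn q1 q2 q3 q4
    by_cases c1 : q1 = q3
    · by_cases c2 : q2 = q4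
      · rw [if_pos (Or.inl c1), if_pos c1, if_pos c2]
        linarith
      · rw [if_pos (Or.inl c1), if_pos c1, if_neg c2]
        linarith
    · by_cases c2 : q2 = q4
      · rw [if_pos (Or.inr c2), if_neg c1, if_pos c2]
        linarith
      · rw [if_neg (by tauto), if_neg c1, if_neg c2]
        linarith
  have h2 : ∑ q1 ∈ FR P, ∑ q2 ∈ FR P, ∑ q3 ∈ FR P, ∑ q4 ∈ FR P,
      (if q1 = q3 then Tj K J q1 q2 q3 q4 * fej X (xf q1 + xf q2 - xf q3 - xf q4) else 0) =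
      ∑ q1 ∈ FR P, ∑ q2 ∈ FR P, ∑ q4 ∈ FR P, Tj K J q1 q2 q1 q4 * fej X (xf q1 + xf q2 - xf q1 - xf q4) := by
    refine Finset.sum_congr rfl fun q1 h1q => Finset.sum_congr rfl fun q2 _ => ?_
    rw [Finset.sum_eq_single q1]
    · exact Finset.sum_congr rfl fun q4 _ => by rw [if_pos rfl]
    · intro b _ hb
      exact Finset.sum_eq_zero fun q4 _ => by rw [if_neg (fun h => hb h.symm)]
    · intro h
      exact absurd h1q h
  have h3 : ∑ q1 ∈ FR P, ∑ q2 ∈ FR P, ∑ q3 ∈ FR P, ∑ q4 ∈ FR P,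
      (if q2 = q4 then Tj K J q1 q2 q3 q4 * fej X (xf q1 + xf q2 - xf q3 - xf q4) else 0) =
      ∑ q1 ∈ FR P, ∑ q2 ∈ FR P, ∑ q3 ∈ FR P, Tj K J q1 q2 q3 q2 * fej X (xf q1 + xf q2 - xf q3 - xf q2) := by
    refine Finset.sum_congr rfl fun q1 _ => Finset.sum_congr rfl fun q2 h2q =>
      Finset.sum_congr rfl fun q3 _ => ?_
    rw [Finset.sum_eq_single q2]
    · rw [if_pos rfl]
    · intro b _ hb
      rw [if_neg (fun h => hb h.symm)]
    · intro h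
      exact absurd h2q h
  have h4 : ∑ q1 ∈ FR P, ∑ q2 ∈ FR P, ∑ q3 ∈ FR P, ∑ q4 ∈ FR P,
      ((if q1 = q3 then Tj K J q1 q2 q3 q4 * fej X (xf q1 + xf q2 - xf q3 - xf q4) else 0) +
       (if q2 = q4 then Tj K J q1 q2 q3 q4 * fej X (xf q1 + xf q2 - xf q3 - xf q4) else 0)) =
      (∑ q1 ∈ FR P, ∑ q2 ∈ FR P, ∑ q3 ∈ FR P, ∑ q4 ∈ FR P,
      (if q1 = q3 then Tj K J q1 q2 q3 q4 * fej X (xf q1 + xf q2 - xf q3 - xf q4) else 0)) +
      ∑ q1 ∈ FR P, ∑ q2 ∈ FR P, ∑ q3 ∈ FR P, ∑ q4 ∈ FR P,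
       (if q2 = q4 then Tj K J q1 q2 q3 q4 * fej X (xf q1 + xf q2 - xf q3 - xf q4) else 0) := by
    simp only [Finset.sum_add_distrib]
  rw [h4, h2, h3] at h1
  have h5 : (0 : ℝ) ≤ (K : ℝ) ^ 2 * J * P ^ 4 * X := by positivity
  linarith

end Pool.Agent.H56.TI

end

section

/-!
# TI Pos: positive definite majorants

* `pos2`: expand the square: `∑_x (1 - |x|/X) ∑_{q,q'} c_q conj(c_q') ee(x(β_q - β_q')) = ∑_{q,q'} c_q conj(c_q') fej X (β_q - β_q')` (`fej_exp`), take absolute values (`fej ≥ 0`).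
* `pos4`: `‖S‖^4 = ‖S²‖²`, `S² = ∑_{(q1,q2)} c_q1 c_q2 ee(x(β_q1 + β_q2))`: `pos2` for the pairs.
-/

set_option autoImplicit false

namespace Pool.Agent.H56.TI

open Finset
open Pool.Agent.H91.PK (ee)
open Pool.Agent.H35.W (pb)
open Pool.Agent.H53.MID (nz)

theorem pos_sq {ι : Type*} (s : Finset ι) (c : ι → ℂ) (β : ι → ℝ) (x : ℤ) :
    ((‖∑ q ∈ s, c q * ee (x * β q)‖ ^ 2 : ℝ) : ℂ) =
      ∑ q ∈ s, ∑ q' ∈ s, c q * (starRingEnd ℂ) (c q') * ee (x * (β q - β q')) := by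
  rw [Complex.ofReal_pow, ← Complex.mul_conj', map_sum, Finset.sum_mul_sum]
  refine Finset.sum_congr rfl fun q _ => Finset.sum_congr rfl fun q' _ => ?_
  rw [map_mul, Pool.Agent.H91.PK.LSa_conj_ee]
  have h : (x : ℝ) * (β q - β q') = x * β q + -(x * β q') := by ring
  rw [h, Pool.Agent.H91.PK.LSa_ee_add]
  ring

theorem pos2 {ι : Type*} (s : Finset ι) (c : ι → ℂ) (β : ι → ℝ) (X : ℕ) (hX : 1 ≤ X) :
    ∑ x ∈ Ioo (-(X : ℤ)) X, (1 - |(x : ℝ)| / X) * ‖∑ q ∈ s, c q * ee (x * β q)‖ ^ 2 ≤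
      ∑ q ∈ s, ∑ q' ∈ s, ‖c q‖ * ‖c q'‖ * fej X (β q - β q') := by
  have hc : ((∑ x ∈ Ioo (-(X : ℤ)) X, (1 - |(x : ℝ)| / X) * ‖∑ q ∈ s, c q * ee (x * β q)‖ ^ 2 : ℝ) : ℂ) =
      ∑ q ∈ s, ∑ q' ∈ s, c q * (starRingEnd ℂ) (c q') * ((fej X (β q - β q') : ℝ) : ℂ) := by
    rw [Complex.ofReal_sum]
    have h1 : ∀ x : ℤ, (((1 - |(x : ℝ)| / X) * ‖∑ q ∈ s, c q * ee (x * β q)‖ ^ 2 : ℝ) : ℂ) =
        ∑ q ∈ s, ∑ q' ∈ s, c q * (starRingEnd ℂ) (c q') *
          (((1 - |(x : ℝ)| / X : ℝ) : ℂ) * ee (x * (β q - β q'))) := by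
      intro x
      rw [Complex.ofReal_mul, pos_sq, Finset.mul_sum]
      refine Finset.sum_congr rfl fun q _ => ?_
      rw [Finset.mul_sum]
      refine Finset.sum_congr rfl fun q' _ => ?_
      ring
    rw [Finset.sum_congr rfl fun x _ => h1 x, Finset.sum_comm]
    refine Finset.sum_congr rfl fun q _ => ?_
    rw [Finset.sum_comm]
    refine Finset.sum_congr rfl fun q' _ => ?_
    rw [fej_exp X hX, Finset.mul_sum]
  refine (le_abs_self _).trans ?_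
  rw [← Real.norm_eq_abs, ← Complex.norm_real, hc]
  refine (norm_sum_le _ _).trans (Finset.sum_le_sum fun q _ => ?_)
  refine (norm_sum_le _ _).trans (Finset.sum_le_sum fun q' _ => ?_)
  rw [norm_mul, norm_mul, RCLike.norm_conj, Complex.norm_real, Real.norm_eq_abs, abs_of_nonneg (fej_nonneg _ _)]

theorem pos4 {ι : Type*} (s : Finset ι) (c : ι → ℂ) (β : ι → ℝ) (X : ℕ) (hX : 1 ≤ X) :
    ∑ x ∈ Ioo (-(X : ℤ)) X, (1 - |(x : ℝ)| / X) * ‖∑ q ∈ s, c q * ee (x * β q)‖ ^ 4 ≤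
      ∑ q1 ∈ s, ∑ q2 ∈ s, ∑ q3 ∈ s, ∑ q4 ∈ s, ‖c q1‖ * ‖c q2‖ * ‖c q3‖ * ‖c q4‖ *
        fej X (β q1 + β q2 - β q3 - β q4) := by
  have h0 := pos2 (s ×ˢ s) (fun r => c r.1 * c r.2) (fun r => β r.1 + β r.2) X hX
  have hl : ∀ x : ℤ, ‖∑ q ∈ s, c q * ee (x * β q)‖ ^ 4 =
      ‖∑ r ∈ s ×ˢ s, c r.1 * c r.2 * ee (x * (β r.1 + β r.2))‖ ^ 2 := by
    intro x
    have h1 : ∑ r ∈ s ×ˢ s, c r.1 * c r.2 * ee (x * (β r.1 + β r.2)) =
        (∑ q ∈ s, c q * ee (x * β q)) * (∑ q ∈ s, c q * ee (x * β q)) := by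
      rw [Finset.sum_mul_sum, Finset.sum_product]
      refine Finset.sum_congr rfl fun q _ => Finset.sum_congr rfl fun q' _ => ?_
      have h : (x : ℝ) * (β q + β q') = x * β q + x * β q' := by ring
      simp only []
      rw [h, Pool.Agent.H91.PK.LSa_ee_add]
      ring
    rw [h1, norm_mul]
    ring
  rw [Finset.sum_congr rfl fun x _ => by rw [hl x]]
  refine h0.trans (le_of_eq ?_)
  rw [Finset.sum_product]
  refine Finset.sum_congr rfl fun q1 _ => Finset.sum_congr rfl fun q2 _ => ?_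
  rw [Finset.sum_product]
  refine Finset.sum_congr rfl fun q3 _ => Finset.sum_congr rfl fun q4 _ => ?_
  simp only []
  rw [norm_mul, norm_mul, sub_add_eq_sub_sub]
  ring

/-- the fourth moment of `SF` is at most `P^(-4) T4` -/
theorem m4_le (P K J X : ℕ) (w : ℕ → ℝ) (hw : ∀ p, |w p| ≤ 1) (hP : 1 ≤ P) (hX : 1 ≤ X) :
    ∑ x ∈ Ioo (-(X : ℤ)) X, (1 - |(x : ℝ)| / X) * ∑ j ∈ range J, ‖SF P K w (j / J) x‖ ^ 4 ≤
      T4 P K J X / (P : ℝ) ^ 4 := by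
  have hP0 : (0 : ℝ) < P := by exact_mod_cast hP
  have hq : ∀ (j : ℕ), ∀ q ∈ FR P, ‖((w q.1 / q.1 * fej K (xf q - j / J) : ℝ) : ℂ)‖ ≤
      fej K (xf q - j / J) / P := by
    intro j q hq
    have h1 : q.1 ∈ pb P := by
      have := (Finset.mem_filter.1 hq).1
      exact (Finset.mem_product.1 this).1
    have h2 : P < q.1 := (Finset.mem_Ioc.1 (Finset.mem_filter.1 h1).1).1
    have h3 : (P : ℝ) ≤ q.1 := by exact_mod_cast h2.le
    have hf := fej_nonneg K (xf q - j / J)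
    rw [Complex.norm_real, Real.norm_eq_abs, abs_mul, abs_div, abs_of_nonneg hf, Nat.abs_cast]
    have h4 : |w q.1| / q.1 ≤ 1 / P := div_le_div₀ zero_le_one (hw _) hP0 h3
    calc |w q.1| / q.1 * fej K (xf q - j / J) ≤ 1 / P * fej K (xf q - j / J) :=
          mul_le_mul_of_nonneg_right h4 hf
      _ = _ := by ring
  have hj : ∀ j : ℕ, ∑ x ∈ Ioo (-(X : ℤ)) X, (1 - |(x : ℝ)| / X) * ‖SF P K w (j / J) x‖ ^ 4 ≤
      ∑ q1 ∈ FR P, ∑ q2 ∈ FR P, ∑ q3 ∈ FR P, ∑ q4 ∈ FR P,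
        (fej K (xf q1 - j / J) / P) * (fej K (xf q2 - j / J) / P) * (fej K (xf q3 - j / J) / P) *
          (fej K (xf q4 - j / J) / P) * fej X (xf q1 + xf q2 - xf q3 - xf q4) := by
    intro j
    refine (pos4 (FR P) (fun q => ((w q.1 / q.1 * fej K (xf q - j / J) : ℝ) : ℂ)) xf X hX).trans ?_
    refine Finset.sum_le_sum fun q1 h1 => Finset.sum_le_sum fun q2 h2 =>
      Finset.sum_le_sum fun q3 h3 => Finset.sum_le_sum fun q4 h4 => ?_
    refine mul_le_mul_of_nonneg_right ?_ (fej_nonneg _ _)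
    have f1 := div_nonneg (fej_nonneg K (xf q1 - j / J)) hP0.le
    have f2 := div_nonneg (fej_nonneg K (xf q2 - j / J)) hP0.le
    have f3 := div_nonneg (fej_nonneg K (xf q3 - j / J)) hP0.le
    have f4 := div_nonneg (fej_nonneg K (xf q4 - j / J)) hP0.le
    exact mul_le_mul (mul_le_mul (mul_le_mul (hq j q1 h1) (hq j q2 h2) (norm_nonneg _) f1) (hq j q3 h3)
      (norm_nonneg _) (mul_nonneg f1 f2)) (hq j q4 h4) (norm_nonneg _) (mul_nonneg (mul_nonneg f1 f2) f3)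
  have hswap : ∑ x ∈ Ioo (-(X : ℤ)) X, (1 - |(x : ℝ)| / X) * ∑ j ∈ range J, ‖SF P K w (j / J) x‖ ^ 4 =
      ∑ j ∈ range J, ∑ x ∈ Ioo (-(X : ℤ)) X, (1 - |(x : ℝ)| / X) * ‖SF P K w (j / J) x‖ ^ 4 := by
    rw [Finset.sum_comm]
    refine Finset.sum_congr rfl fun x _ => ?_
    rw [Finset.mul_sum]
  rw [hswap]
  refine (Finset.sum_le_sum fun j _ => hj j).trans (le_of_eq ?_)
  unfold T4 Tj
  rw [Finset.sum_comm, Finset.sum_div]
  refine Finset.sum_congr rfl fun q1 _ => ?_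
  rw [Finset.sum_comm, Finset.sum_div]
  refine Finset.sum_congr rfl fun q2 _ => ?_
  rw [Finset.sum_comm, Finset.sum_div]
  refine Finset.sum_congr rfl fun q3 _ => ?_
  rw [Finset.sum_comm, Finset.sum_div]
  refine Finset.sum_congr rfl fun q4 _ => ?_
  rw [Finset.sum_mul, Finset.sum_div]
  refine Finset.sum_congr rfl fun j _ => ?_
  field_simp

end Pool.Agent.H56.TI

end

section

/-!
# TI Expand: additive characters

* `phi_exp`: `1[p ∣ m] - 1/p = (1/p) ∑_{u=1}^{p-1} ee(m u/p)` (`∑_{u<p} ee(mu/p) = p 1[p ∣ m]`), for integers `m` (here natural); so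
  `Phi P w m = ∑_{(p,u) ∈ FR P} (w(p)/p) ee(m u/p)`.
* `sf_tri`: `fej_exp` for `fej K (xf q - α)`, exchange the sums; `K ≤ x`, the integers `x + t`, `|t| < K`, are the naturals of `Ioo (x-K) (x+K)`.
* `phi_abs`: at most `log m/log P` primes `> P` divide `m ≥ 1` (`m < P^(k+1)`: at most `k`); `∑_{p ∈ pb P} 1/p ≤ 1`.
-/

set_option autoImplicit false

namespace Pool.Agent.H56.TI

open Finset
open Pool.Agent.H91.PK (ee)
open Pool.Agent.H35.W (pb)
open Pool.Agent.H53.MID (nz)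

private theorem Expand_ee_add (a b : ℝ) : ee (a + b) = ee a * ee b := by
  unfold ee
  rw [← Complex.exp_add]
  congr 1
  push_cast
  ring

private theorem Expand_ee_int (n : ℤ) : ee (n : ℝ) = 1 := by
  unfold ee
  rw [Complex.exp_eq_one_iff]
  exact ⟨n, by push_cast; ring⟩

private theorem Expand_ee_nat_mul (t : ℝ) (b : ℕ) : ee ((b : ℝ) * t) = ee t ^ b := by
  unfold ee
  rw [← Complex.exp_nat_mul]
  congr 1
  push_cast
  ring

private theorem Expand_full (p m : ℕ) (hp : 0 < p) :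
    ∑ u ∈ range p, ee ((m : ℝ) * ((u : ℝ) / (p : ℝ))) = if p ∣ m then (p : ℂ) else 0 := by
  have hp0 : (p : ℝ) ≠ 0 := by exact_mod_cast hp.ne'
  have hterm : ∀ u : ℕ, ee ((m : ℝ) * ((u : ℝ) / (p : ℝ))) = ee ((m : ℝ) / p) ^ u := by
    intro u
    rw [← Expand_ee_nat_mul]
    congr 1
    ring
  simp_rw [hterm]
  split_ifs with h
  · obtain ⟨k, rfl⟩ := h
    have h1 : ee (((p * k : ℕ) : ℝ) / p) = 1 := by
      have h2 : (((p * k : ℕ) : ℝ) / p) = ((k : ℤ) : ℝ) := by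
        push_cast
        field_simp
      rw [h2, Expand_ee_int]
    rw [h1]
    simp
  · have hz1 : ee ((m : ℝ) / p) ≠ 1 := by
      intro h1
      unfold ee at h1
      rw [Complex.exp_eq_one_iff] at h1
      obtain ⟨n, hn⟩ := h1
      have h2 : (((m : ℝ) / p : ℝ) : ℂ) = ((n : ℝ) : ℂ) := by
        have hne : (2 * (Real.pi : ℂ) * Complex.I) ≠ 0 := Complex.two_pi_I_ne_zero
        apply mul_right_cancel₀ hne
        push_cast at hn ⊢
        linear_combination hn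
      have h3 : (m : ℝ) / p = (n : ℝ) := by exact_mod_cast h2
      have h4 : (m : ℝ) = (p : ℝ) * (n : ℝ) := by
        rw [← h3]
        field_simp
      have h5 : (m : ℤ) = (p : ℤ) * n := by exact_mod_cast h4
      apply h
      have h6 : (p : ℤ) ∣ (m : ℤ) := ⟨n, h5⟩
      exact_mod_cast h6
    have hzp : ee ((m : ℝ) / p) ^ p = 1 := by
      rw [← Expand_ee_nat_mul]
      have h2 : (p : ℝ) * ((m : ℝ) / p) = ((m : ℤ) : ℝ) := by
        push_cast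
        field_simp
      rw [h2, Expand_ee_int]
    rw [geom_sum_eq hz1, hzp, sub_self, zero_div]

private theorem Expand_mem_pb {P p : ℕ} (hp : p ∈ pb P) : P < p ∧ p ≤ 2 * P ∧ p.Prime := by
  unfold pb at hp
  rw [mem_filter, mem_Ioc] at hp
  exact ⟨hp.1.1, hp.1.2, hp.2⟩

theorem phi_exp (P : ℕ) (w : ℕ → ℝ) (m : ℕ) :
    ((Phi P w m : ℝ) : ℂ) = ∑ q ∈ FR P, ((w q.1 / q.1 : ℝ) : ℂ) * ee (m * xf q) := by
  unfold Phi FR xf
  rw [sum_filter, sum_product, Complex.ofReal_sum]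
  refine sum_congr rfl fun p hp => ?_
  obtain ⟨h1, h2, h3⟩ := Expand_mem_pb hp
  have hp0 : (p : ℂ) ≠ 0 := by exact_mod_cast h3.pos.ne'
  simp only
  rw [← sum_filter]
  have hset : (Icc 1 (2 * P)).filter (fun u => u < p) = (range p).erase 0 := by
    ext u
    simp only [mem_filter, mem_Icc, mem_erase, mem_range]
    omega
  rw [hset, ← mul_sum, sum_erase_eq_sub (mem_range.2 h3.pos), Expand_full p m h3.pos]
  have h0 : ee ((m : ℝ) * (((0 : ℕ) : ℝ) / (p : ℝ))) = 1 := by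
    have : (m : ℝ) * (((0 : ℕ) : ℝ) / (p : ℝ)) = ((0 : ℤ) : ℝ) := by push_cast; ring
    rw [this, Expand_ee_int]
  rw [h0]
  split_ifs with h
  · push_cast
    field_simp
  · push_cast
    field_simp
    ring

theorem sf_tri (P K : ℕ) (w : ℕ → ℝ) (α : ℝ) (x : ℕ) (hK : 1 ≤ K) (hx : K ≤ x) :
    SF P K w α x = ∑ m ∈ Ioo (x - K) (x + K),
      (((1 - |(m : ℝ) - x| / K) * Phi P w m : ℝ) : ℂ) * ee (-(((m : ℝ) - x) * α)) := by
  unfold SF
  have e1 : ∀ q ∈ FR P, ((w q.1 / q.1 * fej K (xf q - α) : ℝ) : ℂ) * ee (((x : ℤ) : ℝ) * xf q)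
      = ∑ m ∈ Ioo (x - K) (x + K), ((1 - |(m : ℝ) - x| / K : ℝ) : ℂ) * ee (-(((m : ℝ) - x) * α))
          * (((w q.1 / q.1 : ℝ) : ℂ) * ee (m * xf q)) := by
    intro q _
    have e2 : ((w q.1 / q.1 * fej K (xf q - α) : ℝ) : ℂ)
        = ((w q.1 / q.1 : ℝ) : ℂ) * ((fej K (xf q - α) : ℝ) : ℂ) := by push_cast; ring
    rw [e2, fej_exp K hK, mul_sum, sum_mul]
    symm
    refine sum_bij' (fun (m : ℕ) _ => (m : ℤ) - x) (fun (t : ℤ) _ => ((x : ℤ) + t).toNat) ?_ ?_ ?_ ?_ ?_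
    · intro m hm
      rw [mem_Ioo] at hm ⊢
      omega
    · intro t ht
      rw [mem_Ioo] at ht ⊢
      omega
    · intro m hm
      rw [mem_Ioo] at hm
      omega
    · intro t ht
      rw [mem_Ioo] at ht
      omega
    · intro m hm
      have e3 : (((m : ℤ) - (x : ℤ) : ℤ) : ℝ) = (m : ℝ) - x := by push_cast; ring
      rw [e3]
      have e4 : ee ((m : ℝ) * xf q) = ee (((m : ℝ) - x) * xf q) * ee (((x : ℤ) : ℝ) * xf q) := by
        rw [← Expand_ee_add]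
        congr 1
        push_cast
        ring
      have e5 : ee (((m : ℝ) - x) * (xf q - α)) = ee (((m : ℝ) - x) * xf q) * ee (-(((m : ℝ) - x) * α)) := by
        rw [← Expand_ee_add]
        congr 1
        ring
      rw [e4, e5]
      ring
  rw [sum_congr rfl e1, sum_comm]
  refine sum_congr rfl fun m _ => ?_
  rw [← mul_sum, ← phi_exp]
  push_cast
  ring

/-- at most `k` primes of `pb P` divide `m` if `0 < m < P^(k+1)` -/
theorem card_dvd (P k m : ℕ) (hP : 2 ≤ P) (hm : 1 ≤ m) (hk : m < P ^ (k + 1)) :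
    ((pb P).filter (fun p => p ∣ m)).card ≤ k := by
  by_contra hcon
  have hcon : k + 1 ≤ ((pb P).filter (fun p => p ∣ m)).card := by omega
  have h1 : ∏ p ∈ (pb P).filter (fun p => p ∣ m), p ∣ m := by
    refine Finset.prod_primes_dvd m ?_ ?_
    · intro p hp
      rw [mem_filter] at hp
      exact (Expand_mem_pb hp.1).2.2.prime
    · intro p hp
      rw [mem_filter] at hp
      exact hp.2
  have h2 : ∏ p ∈ (pb P).filter (fun p => p ∣ m), P ≤ ∏ p ∈ (pb P).filter (fun p => p ∣ m), p := by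
    refine prod_le_prod (fun _ _ => Nat.zero_le _) ?_
    intro p hp
    rw [mem_filter] at hp
    exact (Expand_mem_pb hp.1).1.le
  rw [prod_const] at h2
  have h3 := Nat.le_of_dvd (by omega) h1
  have h4 : P ^ (k + 1) ≤ P ^ ((pb P).filter (fun p => p ∣ m)).card :=
    Nat.pow_le_pow_right (by omega) hcon
  omega

theorem phi_abs (P k m : ℕ) (w : ℕ → ℝ) (hw : ∀ p, |w p| ≤ 1) (hP : 2 ≤ P) (hm : 1 ≤ m) (hk : m < P ^ (k + 1)) :
    |Phi P w m| ≤ k + 1 := by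
  have h1 : |Phi P w m| ≤ ∑ p ∈ pb P, ((if p ∣ m then (1 : ℝ) else 0) + 1 / (P : ℝ)) := by
    unfold Phi
    refine (abs_sum_le_sum_abs _ _).trans (sum_le_sum fun p hp => ?_)
    obtain ⟨h1, h2, h3⟩ := Expand_mem_pb hp
    have hP0 : (0 : ℝ) < P := by exact_mod_cast (by omega : 0 < P)
    have hpP : (P : ℝ) ≤ p := by exact_mod_cast h1.le
    have h4 : 1 / (p : ℝ) ≤ 1 / (P : ℝ) := one_div_le_one_div_of_le hP0 hpP
    have h5 : 0 ≤ 1 / (p : ℝ) := by positivity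
    rw [abs_mul]
    have h6 : |(if p ∣ m then (1 : ℝ) else 0) - 1 / (p : ℝ)| ≤ (if p ∣ m then (1 : ℝ) else 0) + 1 / (P : ℝ) := by
      rw [abs_le]
      split_ifs <;> constructor <;> linarith
    calc |w p| * |(if p ∣ m then (1 : ℝ) else 0) - 1 / (p : ℝ)|
        ≤ 1 * |(if p ∣ m then (1 : ℝ) else 0) - 1 / (p : ℝ)| :=
          mul_le_mul_of_nonneg_right (hw p) (abs_nonneg _)
      _ ≤ _ := by rw [one_mul]; exact h6
  have h2 : ∑ p ∈ pb P, (if p ∣ m then (1 : ℝ) else 0) ≤ k := by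
    rw [← sum_filter, sum_const, nsmul_eq_mul, mul_one]
    exact_mod_cast card_dvd P k m hP hm hk
  have h3 : ∑ p ∈ pb P, 1 / (P : ℝ) ≤ 1 := by
    rw [sum_const, nsmul_eq_mul]
    have hP0 : (0 : ℝ) < P := by exact_mod_cast (by omega : 0 < P)
    have h4 : (pb P).card ≤ P := by
      unfold pb
      refine (card_filter_le _ _).trans ?_
      rw [Nat.card_Ioc]
      omega
    have h5 : ((pb P).card : ℝ) ≤ P := by exact_mod_cast h4
    rw [mul_one_div, div_le_one hP0]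
    exact h5
  rw [sum_add_distrib] at h1
  linarith

end Pool.Agent.H56.TI

end

section

/-!
# TI2 Tri: sums over the quadruples of primes of the numbers of lattice points

Let `2B ≤ P`, `v = (n,h,k) ∈ Box A B`, `p ∈ QP P`, `IsL p v`, `v ≠ 0`.  Then the four forms `n`, `n+h+k`, `n+h`, `n+k` are all nonzero: `|h|, |k| < B < P`; `n = 0` gives `p3 ∣ h`, `p4 ∣ k`, so `h = k = 0`;
`n + h = 0`: `p1 ∣ n = -h`, so `h = n = 0`, `p4 ∣ k`, `k = 0`; `n + k = 0` the same; `n + h + k = 0`: `p3 ∣ n + h = -k`, `p4 ∣ n + k = -h`, so `h = k = n = 0`.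
Their absolute values are `< A + 2B ≤ P^(k+1)`, so at most `k` primes of `pb P` divide each (product of the primes; as `Cnt_pr`/`card_dvd` of `TI`): `lam_pt`: at most `k⁴` quadruples `p` for each `v ≠ 0`.
* `lam_all`: exchange the sums; `v = 0`: at most `P⁴` quadruples; `v ≠ 0`: at most `(2A)(2B)²` points, `k⁴` quadruples each.
* `lam_coin`: for each of the six pairs `i < j`, `p_i = p_j` implies `p_i ∣ ℓ_i - ℓ_j`, which is one of `-(h+k), -h, -k, k, h, h-k`, absolute value `< 2B ≤ P`, so it is 0: at most `(2A)(2B)` points; `v = 0`: `P³` quadruples with `p_i = p_j`.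
* `lam_small`: distinct primes; `v ∈ LamS`: if `h = k = 0` then `p1 p2 p3 p4 ∣ n` (distinct primes), `n ≠ 0`, `|n| < A ≤ P⁴`: impossible; so `m ≤ 4B`; and `n ≠ 0`, so `m ≤ 4A`.  So the number of the possible `v` is at most
  `(2·4A/m + 1)(2·4B/m + 1)² ≤ (12A/m)(12B/m)²` (or 0), `k⁴` quadruples each.
-/

set_option autoImplicit false

namespace Pool.Agent.H56.TI2

open Finset
open Pool.Agent.H56.TI
open Pool.Agent.H35.W (pb)

private theorem Tri_pb {P p : ℕ} (hp : p ∈ pb P) : P < p ∧ p ≤ 2 * P ∧ p.Prime := by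
  unfold pb at hp
  rw [mem_filter, mem_Ioc] at hp
  exact ⟨hp.1.1, hp.1.2, hp.2⟩

private theorem Tri_card (P : ℕ) : (pb P).card ≤ P := by
  unfold pb
  refine (card_filter_le _ _).trans ?_
  rw [Nat.card_Ioc]
  omega

private theorem Tri_qp {P : ℕ} {p : (ℕ × ℕ) × (ℕ × ℕ)} (hp : p ∈ QP P) :
    p.1.1 ∈ pb P ∧ p.1.2 ∈ pb P ∧ p.2.1 ∈ pb P ∧ p.2.2 ∈ pb P := by
  unfold QP at hp
  rw [mem_product, mem_product, mem_product] at hp
  exact ⟨hp.1.1, hp.1.2, hp.2.1, hp.2.2⟩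

private theorem Tri_box {A B : ℕ} {v : ℤ × ℤ × ℤ} (hv : v ∈ Box A B) :
    (-(A : ℤ) < v.1 ∧ v.1 < A) ∧ (-(B : ℤ) < v.2.1 ∧ v.2.1 < B) ∧ (-(B : ℤ) < v.2.2 ∧ v.2.2 < B) := by
  unfold Box at hv
  rw [mem_product, mem_product, mem_Ioo, mem_Ioo, mem_Ioo] at hv
  exact hv

/-- a small multiple is zero -/
private theorem Tri_zero {P p : ℕ} {t : ℤ} (hp : P < p) (h : (p : ℤ) ∣ t) (h1 : -(P : ℤ) < t) (h2 : t < P) : t = 0 := by
  refine Int.eq_zero_of_abs_lt_dvd h ?_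
  rw [abs_lt]
  constructor <;> omega

/-- the forms are nonzero -/
private theorem Tri_forms (P A B : ℕ) (hB : 2 * B ≤ P) (v : ℤ × ℤ × ℤ) (hv : v ∈ Box A B) (h0 : v ≠ 0)
    (p : (ℕ × ℕ) × (ℕ × ℕ)) (hp : p ∈ QP P) (hl : IsL p v) :
    v.1 ≠ 0 ∧ v.1 + v.2.1 + v.2.2 ≠ 0 ∧ v.1 + v.2.1 ≠ 0 ∧ v.1 + v.2.2 ≠ 0 := by
  obtain ⟨p1, p2, p3, p4⟩ := Tri_qp hp
  obtain ⟨b1, b2, b3⟩ := Tri_box hv
  obtain ⟨l1, l2, l3, l4⟩ := hl
  have q1 := (Tri_pb p1).1
  have q2 := (Tri_pb p2).1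
  have q3 := (Tri_pb p3).1
  have q4 := (Tri_pb p4).1
  obtain ⟨n, h, k⟩ := v
  simp only at b1 b2 b3 l1 l2 l3 l4 ⊢
  have key : n = 0 → h = 0 → k = 0 → False := by
    rintro rfl rfl rfl
    exact h0 rfl
  refine ⟨?_, ?_, ?_, ?_⟩
  · intro e
    subst e
    rw [zero_add] at l3 l4
    have e1 := Tri_zero q3 l3 (by omega) (by omega)
    have e2 := Tri_zero q4 l4 (by omega) (by omega)
    exact key rfl e1 e2
  · intro e
    have e3 : n + h = -k := by omega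
    have e4 : n + k = -h := by omega
    rw [e3] at l3
    rw [e4] at l4
    have e1 := Tri_zero q3 l3 (by omega) (by omega)
    have e2 := Tri_zero q4 l4 (by omega) (by omega)
    exact key (by omega) (by omega) (by omega)
  · intro e
    have e3 : n = -h := by omega
    rw [e3] at l1
    have e1 := Tri_zero q1 l1 (by omega) (by omega)
    have e4 : n + k = k := by omega
    rw [e4] at l4
    have e2 := Tri_zero q4 l4 (by omega) (by omega)
    exact key (by omega) (by omega) (by omega)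
  · intro e
    have e3 : n = -k := by omega
    rw [e3] at l1
    have e1 := Tri_zero q1 l1 (by omega) (by omega)
    have e4 : n + h = h := by omega
    rw [e4] at l3
    have e2 := Tri_zero q3 l3 (by omega) (by omega)
    exact key (by omega) (by omega) (by omega)

private theorem Tri_int (P k : ℕ) (t : ℤ) (hP : 2 ≤ P) (h0 : t ≠ 0) (h1 : -(P ^ (k + 1) : ℤ) < t) (h2 : t < (P ^ (k + 1) : ℤ)) :
    ((pb P).filter (fun p : ℕ => (p : ℤ) ∣ t)).card ≤ k := by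
  have e : (pb P).filter (fun p : ℕ => (p : ℤ) ∣ t) = (pb P).filter (fun p => p ∣ t.natAbs) := by
    refine filter_congr fun p _ => ?_
    exact Int.natCast_dvd
  rw [e]
  refine card_dvd P k t.natAbs hP (Int.natAbs_pos.2 h0) ?_
  zify
  rw [abs_lt]
  exact ⟨h1, h2⟩

theorem lam_pt (P A B k : ℕ) (hP : 2 ≤ P) (hB : 2 * B ≤ P) (hk : A + 2 * B ≤ P ^ (k + 1)) (v : ℤ × ℤ × ℤ)
    (hv : v ∈ Box A B) (h0 : v ≠ 0) : ((QP P).filter (fun p => IsL p v)).card ≤ k ^ 4 := by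
  rcases ((QP P).filter (fun p => IsL p v)).eq_empty_or_nonempty with he | ⟨p, hp⟩
  · rw [he, card_empty]
    exact Nat.zero_le _
  rw [mem_filter] at hp
  obtain ⟨f1, f2, f3, f4⟩ := Tri_forms P A B hB v hv h0 p hp.1 hp.2
  obtain ⟨b1, b2, b3⟩ := Tri_box hv
  have hk' : (A : ℤ) + 2 * B ≤ (P ^ (k + 1) : ℤ) := by exact_mod_cast hk
  have c1 := Tri_int P k v.1 hP f1 (by omega) (by omega)
  have c2 := Tri_int P k (v.1 + v.2.1 + v.2.2) hP f2 (by omega) (by omega)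
  have c3 := Tri_int P k (v.1 + v.2.1) hP f3 (by omega) (by omega)
  have c4 := Tri_int P k (v.1 + v.2.2) hP f4 (by omega) (by omega)
  have hsub : (QP P).filter (fun p => IsL p v) ⊆
      ((pb P).filter (fun p : ℕ => (p : ℤ) ∣ v.1) ×ˢ (pb P).filter (fun p : ℕ => (p : ℤ) ∣ v.1 + v.2.1 + v.2.2)) ×ˢ
      ((pb P).filter (fun p : ℕ => (p : ℤ) ∣ v.1 + v.2.1) ×ˢ (pb P).filter (fun p : ℕ => (p : ℤ) ∣ v.1 + v.2.2)) := by
    intro q hq
    rw [mem_filter] at hq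
    obtain ⟨q1, q2, q3, q4⟩ := Tri_qp hq.1
    obtain ⟨l1, l2, l3, l4⟩ := hq.2
    rw [mem_product, mem_product, mem_product, mem_filter, mem_filter, mem_filter, mem_filter]
    exact ⟨⟨⟨q1, l1⟩, ⟨q2, l2⟩⟩, ⟨⟨q3, l3⟩, ⟨q4, l4⟩⟩⟩
  refine (card_le_card hsub).trans ?_
  rw [card_product, card_product, card_product]
  calc _ ≤ (k * k) * (k * k) := Nat.mul_le_mul (Nat.mul_le_mul c1 c2) (Nat.mul_le_mul c3 c4)
    _ = k ^ 4 := by ring

/-- exchange of the sums -/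
private theorem Tri_swap (S : Finset ((ℕ × ℕ) × (ℕ × ℕ))) (T : Finset (ℤ × ℤ × ℤ))
    (R : (ℕ × ℕ) × (ℕ × ℕ) → ℤ × ℤ × ℤ → Prop) [∀ p v, Decidable (R p v)] :
    ∑ p ∈ S, ((T.filter (fun v => R p v)).card : ℝ) = ∑ v ∈ T, ((S.filter (fun p => R p v)).card : ℝ) := by
  have e1 : ∀ p ∈ S, ((T.filter (fun v => R p v)).card : ℝ) = ∑ v ∈ T, if R p v then (1 : ℝ) else 0 := by
    intro p _
    rw [← sum_filter, sum_const, nsmul_eq_mul, mul_one]
  have e2 : ∀ v ∈ T, ((S.filter (fun p => R p v)).card : ℝ) = ∑ p ∈ S, if R p v then (1 : ℝ) else 0 := by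
    intro v _
    rw [← sum_filter, sum_const, nsmul_eq_mul, mul_one]
  rw [sum_congr rfl e1, sum_congr rfl e2, sum_comm]

private theorem Tri_ioo (B : ℕ) : (Ioo (-(B : ℤ)) B).card ≤ 2 * B := by
  rw [Int.card_Ioo]
  omega

private theorem Tri_qpc (P : ℕ) : (QP P).card ≤ P ^ 4 := by
  unfold QP
  rw [card_product, card_product]
  have h := Tri_card P
  calc _ ≤ (P * P) * (P * P) := Nat.mul_le_mul (Nat.mul_le_mul h h) (Nat.mul_le_mul h h)
    _ = P ^ 4 := by ring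

private theorem Tri_boxc (A B : ℕ) : (Box A B).card ≤ 8 * A * B ^ 2 := by
  unfold Box
  rw [card_product, card_product]
  calc _ ≤ (2 * A) * ((2 * B) * (2 * B)) := Nat.mul_le_mul (Tri_ioo A) (Nat.mul_le_mul (Tri_ioo B) (Tri_ioo B))
    _ = 8 * A * B ^ 2 := by ring

/-- the sum over the points, zero separately -/
private theorem Tri_sum (S : Finset ((ℕ × ℕ) × (ℕ × ℕ))) (T U : Finset (ℤ × ℤ × ℤ))
    (R : (ℕ × ℕ) × (ℕ × ℕ) → ℤ × ℤ × ℤ → Prop) [∀ p v, Decidable (R p v)] (a c : ℕ)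
    (h0 : S.card ≤ a)
    (h1 : ∀ v ∈ T, v ≠ 0 → (S.filter (fun p => R p v)).card ≤ c)
    (h2 : ∀ v ∈ T, v ≠ 0 → ∀ p ∈ S, R p v → v ∈ U) :
    ∑ v ∈ T, ((S.filter (fun p => R p v)).card : ℝ) ≤ a + U.card * c := by
  have e : ∀ v ∈ T, ((S.filter (fun p => R p v)).card : ℝ) ≤
      (if v = 0 then (a : ℝ) else 0) + (if v ∈ U then (c : ℝ) else 0) := by
    intro v hv
    by_cases hv0 : v = 0
    · rw [if_pos hv0]
      have h3 : ((S.filter (fun p => R p v)).card : ℝ) ≤ a := by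
        exact_mod_cast (card_filter_le _ _).trans h0
      have h4 : (0 : ℝ) ≤ if v ∈ U then (c : ℝ) else 0 := by
        split_ifs
        · exact Nat.cast_nonneg _
        · exact le_refl _
      linarith
    · rw [if_neg hv0, zero_add]
      rcases (S.filter (fun p => R p v)).eq_empty_or_nonempty with he | ⟨p, hp⟩
      · rw [he, card_empty, Nat.cast_zero]
        split_ifs
        · exact Nat.cast_nonneg _
        · exact le_refl _
      · rw [mem_filter] at hp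
        rw [if_pos (h2 v hv hv0 p hp.1 hp.2)]
        exact_mod_cast h1 v hv hv0
  refine (sum_le_sum e).trans ?_
  rw [sum_add_distrib]
  refine add_le_add ?_ ?_
  · rw [← sum_filter, sum_const, nsmul_eq_mul]
    have h3 : (T.filter (fun v => v = 0)).card ≤ 1 := by
      rw [card_le_one]
      intro x hx y hy
      rw [mem_filter] at hx hy
      rw [hx.2, hy.2]
    have h4 : ((T.filter (fun v => v = 0)).card : ℝ) ≤ 1 := by exact_mod_cast h3
    calc _ ≤ (1 : ℝ) * a := mul_le_mul_of_nonneg_right h4 (Nat.cast_nonneg _)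
      _ = a := one_mul _
  · rw [← sum_filter, sum_const, nsmul_eq_mul]
    have h3 : (T.filter (fun v => v ∈ U)).card ≤ U.card := by
      refine card_le_card ?_
      intro x hx
      rw [mem_filter] at hx
      exact hx.2
    exact mul_le_mul_of_nonneg_right (by exact_mod_cast h3) (Nat.cast_nonneg _)

theorem lam_all (P A B k : ℕ) (hP : 2 ≤ P) (hB : 2 * B ≤ P) (hk : A + 2 * B ≤ P ^ (k + 1)) :
    ∑ p ∈ QP P, ((Lam A B p).card : ℝ) ≤ P ^ 4 + 8 * k ^ 4 * A * B ^ 2 := by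
  unfold Lam
  rw [Tri_swap]
  have h := Tri_sum (QP P) (Box A B) (Box A B) IsL (P ^ 4) (k ^ 4) (Tri_qpc P)
    (fun v hv h0 => lam_pt P A B k hP hB hk v hv h0) (fun v hv _ _ _ _ => hv)
  refine h.trans ?_
  push_cast
  have hb : ((Box A B).card : ℝ) ≤ 8 * A * B ^ 2 := by exact_mod_cast Tri_boxc A B
  have h2 := mul_le_mul_of_nonneg_right hb (by positivity : (0 : ℝ) ≤ (k : ℝ) ^ 4)
  nlinarith [h2]

/-- the quadruples with a coincidence -/
private theorem Tri_coinc (P : ℕ) : ((QP P).filter (fun p => ¬ Dis p)).card ≤ 6 * P ^ 3 := by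
  have hc := Tri_card P
  have hT : ((pb P ×ˢ pb P) ×ˢ pb P).card ≤ P ^ 3 := by
    rw [card_product, card_product]
    calc _ ≤ (P * P) * P := Nat.mul_le_mul (Nat.mul_le_mul hc hc) hc
      _ = P ^ 3 := by ring
  let T := (pb P ×ˢ pb P) ×ˢ pb P
  have hsub : (QP P).filter (fun p => ¬ Dis p) ⊆
      T.image (fun t => ((t.1.1, t.1.1), (t.1.2, t.2))) ∪
      T.image (fun t => ((t.1.1, t.1.2), (t.1.1, t.2))) ∪
      T.image (fun t => ((t.1.1, t.1.2), (t.2, t.1.1))) ∪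
      T.image (fun t => ((t.1.1, t.1.2), (t.1.2, t.2))) ∪
      T.image (fun t => ((t.1.1, t.1.2), (t.2, t.1.2))) ∪
      T.image (fun t => ((t.1.1, t.1.2), (t.2, t.2))) := by
    intro p hp
    rw [mem_filter] at hp
    obtain ⟨q1, q2, q3, q4⟩ := Tri_qp hp.1
    obtain ⟨⟨a, b⟩, ⟨c, d⟩⟩ := p
    simp only at q1 q2 q3 q4
    have hn := hp.2
    unfold Dis at hn
    simp only at hn
    have hmem : ∀ x y z : ℕ, x ∈ pb P → y ∈ pb P → z ∈ pb P → ((x, y), z) ∈ T := by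
      intro x y z hx hy hz
      exact mem_product.2 ⟨mem_product.2 ⟨hx, hy⟩, hz⟩
    simp only [mem_union, mem_image]
    by_cases e1 : a = b
    · subst e1
      exact Or.inl (Or.inl (Or.inl (Or.inl (Or.inl ⟨((a, c), d), hmem _ _ _ q1 q3 q4, rfl⟩))))
    by_cases e2 : a = c
    · subst e2
      exact Or.inl (Or.inl (Or.inl (Or.inl (Or.inr ⟨((a, b), d), hmem _ _ _ q1 q2 q4, rfl⟩))))
    by_cases e3 : a = d
    · subst e3
      exact Or.inl (Or.inl (Or.inl (Or.inr ⟨((a, b), c), hmem _ _ _ q1 q2 q3, rfl⟩)))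
    by_cases e4 : b = c
    · subst e4
      exact Or.inl (Or.inl (Or.inr ⟨((a, b), d), hmem _ _ _ q1 q2 q4, rfl⟩))
    by_cases e5 : b = d
    · subst e5
      exact Or.inl (Or.inr ⟨((a, b), c), hmem _ _ _ q1 q2 q3, rfl⟩)
    by_cases e6 : c = d
    · subst e6
      exact Or.inr ⟨((a, b), c), hmem _ _ _ q1 q2 q3, rfl⟩
    exact absurd ⟨e1, e2, e3, e4, e5, e6⟩ hn
  refine (card_le_card hsub).trans ?_
  refine (card_union_le _ _).trans ?_
  have i1 : (T.image (fun t => ((t.1.1, t.1.1), (t.1.2, t.2)))).card ≤ P ^ 3 := card_image_le.trans hT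
  have i2 : (T.image (fun t => ((t.1.1, t.1.2), (t.1.1, t.2)))).card ≤ P ^ 3 := card_image_le.trans hT
  have i3 : (T.image (fun t => ((t.1.1, t.1.2), (t.2, t.1.1)))).card ≤ P ^ 3 := card_image_le.trans hT
  have i4 : (T.image (fun t => ((t.1.1, t.1.2), (t.1.2, t.2)))).card ≤ P ^ 3 := card_image_le.trans hT
  have i5 : (T.image (fun t => ((t.1.1, t.1.2), (t.2, t.1.2)))).card ≤ P ^ 3 := card_image_le.trans hT
  have i6 : (T.image (fun t => ((t.1.1, t.1.2), (t.2, t.2)))).card ≤ P ^ 3 := card_image_le.trans hT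
  have u1 := card_union_le (T.image (fun t => ((t.1.1, t.1.1), (t.1.2, t.2))))
    (T.image (fun t => ((t.1.1, t.1.2), (t.1.1, t.2))))
  have u2 := card_union_le (T.image (fun t => ((t.1.1, t.1.1), (t.1.2, t.2))) ∪
    T.image (fun t => ((t.1.1, t.1.2), (t.1.1, t.2)))) (T.image (fun t => ((t.1.1, t.1.2), (t.2, t.1.1))))
  have u3 := card_union_le (T.image (fun t => ((t.1.1, t.1.1), (t.1.2, t.2))) ∪
    T.image (fun t => ((t.1.1, t.1.2), (t.1.1, t.2))) ∪ T.image (fun t => ((t.1.1, t.1.2), (t.2, t.1.1))))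
    (T.image (fun t => ((t.1.1, t.1.2), (t.1.2, t.2))))
  have u4 := card_union_le (T.image (fun t => ((t.1.1, t.1.1), (t.1.2, t.2))) ∪
    T.image (fun t => ((t.1.1, t.1.2), (t.1.1, t.2))) ∪ T.image (fun t => ((t.1.1, t.1.2), (t.2, t.1.1))) ∪
    T.image (fun t => ((t.1.1, t.1.2), (t.1.2, t.2)))) (T.image (fun t => ((t.1.1, t.1.2), (t.2, t.1.2))))
  omega

theorem lam_coin (P A B k : ℕ) (hP : 2 ≤ P) (hB : 2 * B ≤ P) (hk : A + 2 * B ≤ P ^ (k + 1)) :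
    ∑ p ∈ (QP P).filter (fun p => ¬ Dis p), ((Lam A B p).card : ℝ) ≤ 6 * P ^ 3 + 24 * k ^ 4 * A * B := by
  classical
  unfold Lam
  rw [Tri_swap]
  -- the four planes
  let V := Ioo (-(A : ℤ)) A ×ˢ Ioo (-(B : ℤ)) B
  let U := V.image (fun t => (t.1, ((0 : ℤ), t.2))) ∪ V.image (fun t => (t.1, (t.2, (0 : ℤ)))) ∪
    V.image (fun t => (t.1, (t.2, -t.2))) ∪ V.image (fun t => (t.1, (t.2, t.2)))
  have hV : V.card ≤ 4 * A * B := by
    rw [card_product]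
    calc _ ≤ (2 * A) * (2 * B) := Nat.mul_le_mul (Tri_ioo A) (Tri_ioo B)
      _ = 4 * A * B := by ring
  have hU : U.card ≤ 4 * (4 * A * B) := by
    have i1 : (V.image (fun t => (t.1, ((0 : ℤ), t.2)))).card ≤ 4 * A * B := card_image_le.trans hV
    have i2 : (V.image (fun t => (t.1, (t.2, (0 : ℤ))))).card ≤ 4 * A * B := card_image_le.trans hV
    have i3 : (V.image (fun t => (t.1, (t.2, -t.2)))).card ≤ 4 * A * B := card_image_le.trans hV
    have i4 : (V.image (fun t => (t.1, (t.2, t.2)))).card ≤ 4 * A * B := card_image_le.trans hV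
    have u1 := card_union_le (V.image (fun t => (t.1, ((0 : ℤ), t.2)))) (V.image (fun t => (t.1, (t.2, (0 : ℤ)))))
    have u2 := card_union_le (V.image (fun t => (t.1, ((0 : ℤ), t.2))) ∪ V.image (fun t => (t.1, (t.2, (0 : ℤ)))))
      (V.image (fun t => (t.1, (t.2, -t.2))))
    have u3 := card_union_le (V.image (fun t => (t.1, ((0 : ℤ), t.2))) ∪ V.image (fun t => (t.1, (t.2, (0 : ℤ)))) ∪
      V.image (fun t => (t.1, (t.2, -t.2)))) (V.image (fun t => (t.1, (t.2, t.2))))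
    have e : U = V.image (fun t => (t.1, ((0 : ℤ), t.2))) ∪ V.image (fun t => (t.1, (t.2, (0 : ℤ)))) ∪
      V.image (fun t => (t.1, (t.2, -t.2))) ∪ V.image (fun t => (t.1, (t.2, t.2))) := rfl
    rw [e]
    omega
  have h := Tri_sum ((QP P).filter (fun p => ¬ Dis p)) (Box A B) U IsL (6 * P ^ 3) (k ^ 4) (Tri_coinc P) ?_ ?_
  · refine h.trans ?_
    push_cast
    have hb : (U.card : ℝ) ≤ 4 * (4 * A * B) := by exact_mod_cast hU
    have h2 := mul_le_mul_of_nonneg_right hb (by positivity : (0 : ℝ) ≤ (k : ℝ) ^ 4)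
    have h3 : (0 : ℝ) ≤ (k : ℝ) ^ 4 * A * B := by positivity
    nlinarith [h2, h3]
  · intro v hv h0
    refine le_trans (card_le_card ?_) (lam_pt P A B k hP hB hk v hv h0)
    intro q hq
    rw [mem_filter, mem_filter] at hq
    rw [mem_filter]
    exact ⟨hq.1.1, hq.2⟩
  · intro v hv _ p hp hl
    rw [mem_filter] at hp
    obtain ⟨q1, q2, q3, q4⟩ := Tri_qp hp.1
    obtain ⟨b1, b2, b3⟩ := Tri_box hv
    obtain ⟨l1, l2, l3, l4⟩ := hl
    have hn := hp.2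
    obtain ⟨⟨a, b⟩, ⟨c, d⟩⟩ := p
    obtain ⟨n, h, k⟩ := v
    unfold Dis at hn
    simp only at hn q1 q2 q3 q4 b1 b2 b3 l1 l2 l3 l4
    have r1 := (Tri_pb q1).1
    have r2 := (Tri_pb q2).1
    have r3 := (Tri_pb q3).1
    have r4 := (Tri_pb q4).1
    have hc : h = 0 ∨ k = 0 ∨ k = -h ∨ k = h := by
      by_cases e1 : a = b
      · subst e1
        have := Tri_zero r1 (dvd_sub l2 l1) (by omega) (by omega)
        omega
      by_cases e2 : a = c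
      · subst e2
        have := Tri_zero r1 (dvd_sub l3 l1) (by omega) (by omega)
        omega
      by_cases e3 : a = d
      · subst e3
        have := Tri_zero r1 (dvd_sub l4 l1) (by omega) (by omega)
        omega
      by_cases e4 : b = c
      · subst e4
        have := Tri_zero r2 (dvd_sub l2 l3) (by omega) (by omega)
        omega
      by_cases e5 : b = d
      · subst e5
        have := Tri_zero r2 (dvd_sub l2 l4) (by omega) (by omega)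
        omega
      by_cases e6 : c = d
      · subst e6
        have := Tri_zero r3 (dvd_sub l3 l4) (by omega) (by omega)
        omega
      exact absurd ⟨e1, e2, e3, e4, e5, e6⟩ hn
    have hm1 : (n, h) ∈ V := mem_product.2 ⟨mem_Ioo.2 b1, mem_Ioo.2 b2⟩
    have hm2 : (n, k) ∈ V := mem_product.2 ⟨mem_Ioo.2 b1, mem_Ioo.2 b3⟩
    have e : U = V.image (fun t => (t.1, ((0 : ℤ), t.2))) ∪ V.image (fun t => (t.1, (t.2, (0 : ℤ)))) ∪
      V.image (fun t => (t.1, (t.2, -t.2))) ∪ V.image (fun t => (t.1, (t.2, t.2))) := rfl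
    rw [e]
    simp only [mem_union, mem_image]
    rcases hc with e1 | e1 | e1 | e1
    · subst e1
      exact Or.inl (Or.inl (Or.inl ⟨(n, k), hm2, rfl⟩))
    · subst e1
      exact Or.inl (Or.inl (Or.inr ⟨(n, h), hm1, rfl⟩))
    · subst e1
      exact Or.inl (Or.inr ⟨(n, h), hm1, rfl⟩)
    · subst e1
      exact Or.inr ⟨(n, k), hm1, rfl⟩

/-- the number of integers `t` with `|t| m ≤ 4 C` -/
private theorem Tri_cnt (C m : ℕ) (hm : 1 ≤ m) (hC : m ≤ 4 * C) (S : Finset ℤ) (hS : ∀ t ∈ S, |t| * m ≤ 4 * C) :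
    (S.card : ℝ) ≤ 12 * C / m := by
  have hsub : S ⊆ Icc (-((4 * C / m : ℕ) : ℤ)) ((4 * C / m : ℕ) : ℤ) := by
    intro t ht
    have h1 := hS t ht
    have h2 : t.natAbs * m ≤ 4 * C := by
      zify
      exact h1
    have h3 : t.natAbs ≤ 4 * C / m := (Nat.le_div_iff_mul_le (by omega)).2 h2
    rw [mem_Icc]
    omega
  have h1 := card_le_card hsub
  rw [Int.card_Icc] at h1
  have h2 : S.card ≤ 2 * (4 * C / m) + 1 := by omega
  have hm0 : (0 : ℝ) < m := by exact_mod_cast (by omega : 0 < m)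
  have h3 : ((4 * C / m : ℕ) : ℝ) ≤ 4 * C / m := by
    have := @Nat.cast_div_le ℝ _ _ _ (4 * C) m
    push_cast at this
    exact this
  have h4 : (1 : ℝ) ≤ 4 * C / m := by
    rw [le_div_iff₀ hm0, one_mul]
    exact_mod_cast hC
  have h5 : (S.card : ℝ) ≤ 2 * ((4 * C / m : ℕ) : ℝ) + 1 := by exact_mod_cast h2
  have h6 : (12 : ℝ) * C / m = 3 * (4 * C / m) := by ring
  rw [h6]
  linarith

theorem lam_small (P A B k m : ℕ) (hP : 2 ≤ P) (hB : 2 * B ≤ P) (hk : A + 2 * B ≤ P ^ (k + 1)) (hA : A ≤ P ^ 4)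
    (hm : 1 ≤ m) :
    ∑ p ∈ (QP P).filter (fun p => Dis p), ((LamS A B m p).card : ℝ) ≤ 1728 * k ^ 4 * A * B ^ 2 / m ^ 3 := by
  classical
  have hm0 : (0 : ℝ) < m := by exact_mod_cast (by omega : 0 < m)
  -- the points
  let U := (Box A B).filter (fun v : ℤ × ℤ × ℤ => |v.1| * (m : ℤ) ≤ 4 * A ∧ |v.2.1| * m ≤ 4 * B ∧ |v.2.2| * m ≤ 4 * B)
  -- facts on a point with a quadruple
  have key : ∀ v ∈ Box A B, v ≠ 0 → ∀ p ∈ QP P, Dis p → IsL p v →
      v.1 ≠ 0 ∧ (v.2.1 ≠ 0 ∨ v.2.2 ≠ 0) := by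
    intro v hv h0 p hp hd hl
    refine ⟨(Tri_forms P A B hB v hv h0 p hp hl).1, ?_⟩
    by_contra hcon
    push Not at hcon
    obtain ⟨q1, q2, q3, q4⟩ := Tri_qp hp
    obtain ⟨l1, l2, l3, l4⟩ := hl
    have hv1 : v.1 ≠ 0 := by
      intro e
      exact h0 (Prod.ext e (Prod.ext hcon.1 hcon.2))
    rw [hcon.1, hcon.2, add_zero, add_zero] at l2
    rw [hcon.1, add_zero] at l3
    rw [hcon.2, add_zero] at l4
    obtain ⟨d1, d2, d3, d4, d5, d6⟩ := hd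
    obtain ⟨r1, -, s1⟩ := Tri_pb q1
    obtain ⟨r2, -, s2⟩ := Tri_pb q2
    obtain ⟨r3, -, s3⟩ := Tri_pb q3
    obtain ⟨r4, -, s4⟩ := Tri_pb q4
    have m1 : p.1.1 ∣ v.1.natAbs := Int.natCast_dvd.1 l1
    have m2 : p.1.2 ∣ v.1.natAbs := Int.natCast_dvd.1 l2
    have m3 : p.2.1 ∣ v.1.natAbs := Int.natCast_dvd.1 l3
    have m4 : p.2.2 ∣ v.1.natAbs := Int.natCast_dvd.1 l4
    have c12 := (Nat.coprime_primes s1 s2).2 d1
    have c13 := (Nat.coprime_primes s1 s3).2 d2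
    have c14 := (Nat.coprime_primes s1 s4).2 d3
    have c23 := (Nat.coprime_primes s2 s3).2 d4
    have c24 := (Nat.coprime_primes s2 s4).2 d5
    have c34 := (Nat.coprime_primes s3 s4).2 d6
    have m12 := c12.mul_dvd_of_dvd_of_dvd m1 m2
    have m34 := c34.mul_dvd_of_dvd_of_dvd m3 m4
    have cc : Nat.Coprime (p.1.1 * p.1.2) (p.2.1 * p.2.2) :=
      Nat.Coprime.mul_left (Nat.Coprime.mul_right c13 c14) (Nat.Coprime.mul_right c23 c24)
    have mm := cc.mul_dvd_of_dvd_of_dvd m12 m34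
    have hle := Nat.le_of_dvd (Int.natAbs_pos.2 hv1) mm
    have hlt : P ^ 4 < p.1.1 * p.1.2 * (p.2.1 * p.2.2) := by
      have t1 : P * P < p.1.1 * p.1.2 := Nat.mul_lt_mul'' r1 r2
      have t2 : P * P < p.2.1 * p.2.2 := Nat.mul_lt_mul'' r3 r4
      calc P ^ 4 = (P * P) * (P * P) := by ring
        _ < _ := Nat.mul_lt_mul'' t1 t2
    have hb := (Tri_box hv).1
    have : v.1.natAbs < A := by omega
    omega
  have hfil : ∀ p, LamS A B m p = (Box A B).filter (fun v => IsL p v ∧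
      (v ≠ 0 ∧ |v.1| * m ≤ 4 * A ∧ |v.2.1| * m ≤ 4 * B ∧ |v.2.2| * m ≤ 4 * B)) := by
    intro p
    unfold LamS Lam
    rw [filter_filter]
  simp_rw [hfil]
  rw [Tri_swap]
  by_cases hc : m ≤ 4 * A ∧ m ≤ 4 * B
  · -- the sum over the points of U
    have e : ∀ v ∈ Box A B, ((((QP P).filter (fun p => Dis p)).filter (fun p => IsL p v ∧
        (v ≠ 0 ∧ |v.1| * (m : ℤ) ≤ 4 * A ∧ |v.2.1| * m ≤ 4 * B ∧ |v.2.2| * m ≤ 4 * B))).card : ℝ) ≤
        if v ∈ U then (k : ℝ) ^ 4 else 0 := by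
      intro v hv
      rcases (((QP P).filter (fun p => Dis p)).filter (fun p => IsL p v ∧
        (v ≠ 0 ∧ |v.1| * (m : ℤ) ≤ 4 * A ∧ |v.2.1| * m ≤ 4 * B ∧ |v.2.2| * m ≤ 4 * B))).eq_empty_or_nonempty with he | ⟨p, hp⟩
      · rw [he, card_empty, Nat.cast_zero]
        split_ifs
        · positivity
        · exact le_refl _
      · rw [mem_filter, mem_filter] at hp
        have hvU : v ∈ U := mem_filter.2 ⟨hv, hp.2.2.2⟩
        rw [if_pos hvU]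
        have h1 := lam_pt P A B k hP hB hk v hv hp.2.2.1
        have h2 : (((QP P).filter (fun p => Dis p)).filter (fun p => IsL p v ∧
          (v ≠ 0 ∧ |v.1| * m ≤ 4 * A ∧ |v.2.1| * m ≤ 4 * B ∧ |v.2.2| * m ≤ 4 * B))).card ≤ k ^ 4 := by
          refine le_trans (card_le_card ?_) h1
          intro q hq
          rw [mem_filter, mem_filter] at hq
          rw [mem_filter]
          exact ⟨hq.1.1, hq.2.1⟩
        exact_mod_cast h2
    refine (sum_le_sum e).trans ?_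
    rw [← sum_filter, sum_const, nsmul_eq_mul]
    have h3 : ((Box A B).filter (fun v => v ∈ U)).card ≤ U.card := by
      refine card_le_card ?_
      intro x hx
      rw [mem_filter] at hx
      exact hx.2
    have hU : (U.card : ℝ) ≤ 12 * A / m * (12 * B / m * (12 * B / m)) := by
      have hsub : U ⊆ (Ioo (-(A : ℤ)) A).filter (fun t : ℤ => |t| * (m : ℤ) ≤ 4 * A) ×ˢ
          ((Ioo (-(B : ℤ)) B).filter (fun t : ℤ => |t| * (m : ℤ) ≤ 4 * B) ×ˢ (Ioo (-(B : ℤ)) B).filter (fun t : ℤ => |t| * (m : ℤ) ≤ 4 * B)) := by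
        intro v hv
        have hv' := mem_filter.1 hv
        obtain ⟨b1, b2, b3⟩ := Tri_box hv'.1
        rw [mem_product, mem_product, mem_filter, mem_filter, mem_filter, mem_Ioo, mem_Ioo, mem_Ioo]
        exact ⟨⟨b1, hv'.2.1⟩, ⟨b2, hv'.2.2.1⟩, ⟨b3, hv'.2.2.2⟩⟩
      have h4 := card_le_card hsub
      rw [card_product, card_product] at h4
      have h5 := Tri_cnt A m hm hc.1 ((Ioo (-(A : ℤ)) A).filter (fun t : ℤ => |t| * (m : ℤ) ≤ 4 * A))
        (fun t ht => (mem_filter.1 ht).2)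
      have h6 := Tri_cnt B m hm hc.2 ((Ioo (-(B : ℤ)) B).filter (fun t : ℤ => |t| * (m : ℤ) ≤ 4 * B))
        (fun t ht => (mem_filter.1 ht).2)
      have h7 : (U.card : ℝ) ≤ (((Ioo (-(A : ℤ)) A).filter (fun t : ℤ => |t| * (m : ℤ) ≤ 4 * A)).card : ℝ) *
          ((((Ioo (-(B : ℤ)) B).filter (fun t : ℤ => |t| * (m : ℤ) ≤ 4 * B)).card : ℝ) *
          (((Ioo (-(B : ℤ)) B).filter (fun t : ℤ => |t| * (m : ℤ) ≤ 4 * B)).card : ℝ)) := by exact_mod_cast h4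
      refine h7.trans ?_
      gcongr
    have h4 : (((Box A B).filter (fun v => v ∈ U)).card : ℝ) ≤ 12 * A / m * (12 * B / m * (12 * B / m)) :=
      le_trans (by exact_mod_cast h3) hU
    calc (((Box A B).filter (fun v => v ∈ U)).card : ℝ) * (k : ℝ) ^ 4
        ≤ (12 * A / m * (12 * B / m * (12 * B / m))) * (k : ℝ) ^ 4 :=
          mul_le_mul_of_nonneg_right h4 (by positivity)
      _ = 1728 * k ^ 4 * A * B ^ 2 / m ^ 3 := by
          field_simp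
          ring
  · have e : ∀ v ∈ Box A B, ((((QP P).filter (fun p => Dis p)).filter (fun p => IsL p v ∧
        (v ≠ 0 ∧ |v.1| * (m : ℤ) ≤ 4 * A ∧ |v.2.1| * m ≤ 4 * B ∧ |v.2.2| * m ≤ 4 * B))).card : ℝ) = 0 := by
      intro v hv
      rw [Nat.cast_eq_zero, card_eq_zero, filter_eq_empty_iff]
      intro p hp hcon
      rw [mem_filter] at hp
      obtain ⟨hl, h0, s1, s2, s3⟩ := hcon
      obtain ⟨f1, f2⟩ := key v hv h0 p hp.1 hp.2 hl
      apply hc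
      have pos : ∀ t : ℤ, t ≠ 0 → ∀ C : ℕ, |t| * m ≤ 4 * C → m ≤ 4 * C := by
        intro t ht C hC
        have h1 : 1 ≤ |t| := Int.one_le_abs ht
        have h2 : (1 : ℤ) * m ≤ |t| * m := mul_le_mul_of_nonneg_right h1 (Int.natCast_nonneg _)
        have h3 : (m : ℤ) ≤ 4 * C := by linarith
        exact_mod_cast h3
      refine ⟨pos _ f1 A s1, ?_⟩
      rcases f2 with f2 | f2
      · exact pos _ f2 B s2
      · exact pos _ f2 B s3
    rw [sum_congr rfl e, sum_const_zero]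
    positivity

end Pool.Agent.H56.TI2

end

section

/-!
# TI2 Poi: the number of dual points is at most the number of lattice points (Poisson)

`fej A β ≥ A/4` if `8 A nz β ≤ 1` (reduce to `|β| = nz β` by `fej_int`; `‖∑_{t<A} ee(tβ)‖ ≥ A - ∑ ‖ee(tβ) - 1‖ ≥ A - π A² |β| ≥ A (1 - π/8)`) or if `A = 1` (`fej 1 β = 1`).  So
`#Du · (A/4)(B/4)² ≤ ∑_{u_i ∈ range p_i} fej A (x1+x2-x3-x4) fej B (x2-x3) fej B (x2-x4)` (all terms are `≥ 0`).  By `fej_exp` (see `TI/Fej.lean`) the right hand side is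
`∑_{(n,h,k) ∈ Box A B} (1-|n|/A)(1-|h|/B)(1-|k|/B) ∏ (∑_{u_i < p_i} ee(± u_i ℓ_i/p_i))`, `ℓ = (n, n+h+k, n+h, n+k)`, and the inner sums are `p_i 1[p_i ∣ ℓ_i]` (geometric series; compare `Expand_full` of `TI/Expand.lean`):
`= p1 p2 p3 p4 ∑_{v ∈ Lam A B p} weights ≤ p1 p2 p3 p4 #Lam`.
-/

set_option autoImplicit false

namespace Pool.Agent.H56.TI2

open Finset
open Pool.Agent.H56.TI
open Pool.Agent.H91.PK (ee)
open Pool.Agent.H35.W (pb)
open Pool.Agent.H53.MID (nz)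

private theorem Poi_ee_add (a b : ℝ) : ee (a + b) = ee a * ee b := by
  unfold ee
  rw [← Complex.exp_add]
  congr 1
  push_cast
  ring

private theorem Poi_ee_re (s : ℝ) : (ee s).re = Real.cos (2 * Real.pi * s) := by
  unfold ee
  have h : 2 * (Real.pi : ℂ) * (s : ℂ) * Complex.I = ((2 * Real.pi * s : ℝ) : ℂ) * Complex.I := by
    push_cast
    ring
  rw [h, Complex.exp_ofReal_mul_I_re]

private theorem Poi_ee_pow (t : ℝ) (u : ℕ) : ee ((u : ℝ) * t) = ee t ^ u := by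
  unfold ee
  rw [← Complex.exp_nat_mul]
  congr 1
  push_cast
  ring

private theorem Poi_geom (p : ℕ) (hp : 1 ≤ p) (l : ℤ) :
    ∑ u ∈ range p, ee ((u : ℝ) / p * l) = if (p : ℤ) ∣ l then (p : ℂ) else 0 := by
  have hp0 : (p : ℝ) ≠ 0 := by
    have : p ≠ 0 := by omega
    exact_mod_cast this
  have hpC : (p : ℂ) ≠ 0 := by
    have : p ≠ 0 := by omega
    exact_mod_cast this
  have hz : ∀ u : ℕ, ee ((u : ℝ) / p * l) = ee ((l : ℝ) / p) ^ u := by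
    intro u
    rw [← Poi_ee_pow]
    congr 1
    ring
  simp only [hz]
  have hzp : ee ((l : ℝ) / p) ^ p = 1 := by
    rw [← Poi_ee_pow]
    unfold ee
    rw [Complex.exp_eq_one_iff]
    refine ⟨l, ?_⟩
    push_cast
    field_simp
  by_cases h : (p : ℤ) ∣ l
  · rw [if_pos h]
    obtain ⟨q, rfl⟩ := h
    have h1 : ee (((p * q : ℤ) : ℝ) / p) = 1 := by
      unfold ee
      rw [Complex.exp_eq_one_iff]
      refine ⟨q, ?_⟩
      push_cast
      field_simp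
    rw [h1]
    simp
  · rw [if_neg h]
    have h1 : ee ((l : ℝ) / p) ≠ 1 := by
      intro h1
      unfold ee at h1
      rw [Complex.exp_eq_one_iff] at h1
      obtain ⟨n, hn⟩ := h1
      apply h
      refine ⟨n, ?_⟩
      have hpi : (2 * (Real.pi : ℂ) * Complex.I) ≠ 0 := Complex.two_pi_I_ne_zero
      have h2 : (((l : ℝ) / p : ℝ) : ℂ) = n := by
        have h3 : (((l : ℝ) / p : ℝ) : ℂ) * (2 * Real.pi * Complex.I) = n * (2 * Real.pi * Complex.I) := by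
          rw [← hn]
          ring
        exact mul_right_cancel₀ hpi h3
      have h4 : (l : ℂ) = p * n := by
        rw [← h2]
        push_cast
        field_simp
      exact_mod_cast h4
    rw [geom_sum_eq h1, hzp, sub_self, zero_div]

private theorem Poi_geom_neg (p : ℕ) (hp : 1 ≤ p) (l : ℤ) :
    ∑ u ∈ range p, ee (-((u : ℝ) / p * l)) = if (p : ℤ) ∣ l then (p : ℂ) else 0 := by
  have h := Poi_geom p hp (-l)
  simp only [dvd_neg] at h
  rw [← h]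
  refine Finset.sum_congr rfl fun u _ => ?_
  congr 1
  push_cast
  ring

private theorem Poi_low (K : ℕ) (hK : 1 ≤ K) (β : ℝ) (h : K = 1 ∨ 8 * K * nz β ≤ 1) :
    (K : ℝ) / 4 ≤ fej K β := by
  have hK0 : (0 : ℝ) < K := by exact_mod_cast hK
  rcases h with h | h
  · subst h
    unfold fej ee
    simp
    norm_num
  · obtain ⟨m, hm⟩ := Pool.Agent.H53.MID.nz_exists β
    have h1 : fej K β = fej K (β - m) := by
      have h2 := fej_int K (β - m) m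
      rw [sub_add_cancel] at h2
      exact h2
    rw [h1]
    set γ := β - m with hγ
    have hγ1 : |γ| * K ≤ 1 / 8 := by
      rw [hm]
      linarith
    have hre : (K : ℝ) / 2 ≤ (∑ t ∈ range K, ee ((t : ℝ) * γ)).re := by
      rw [Complex.re_sum]
      have h2 : ∀ t ∈ range K, (1 : ℝ) / 2 ≤ (ee ((t : ℝ) * γ)).re := by
        intro t ht
        rw [Poi_ee_re]
        have ht1 : (t : ℝ) ≤ K := by
          have := Finset.mem_range.1 ht
          exact_mod_cast this.le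
        have h3 : |(t : ℝ) * γ| ≤ 1 / 8 := by
          rw [abs_mul, abs_of_nonneg (Nat.cast_nonneg t), mul_comm]
          exact (mul_le_mul_of_nonneg_left ht1 (abs_nonneg γ)).trans hγ1
        have h4 : |2 * Real.pi * ((t : ℝ) * γ)| ≤ 1 := by
          rw [abs_mul, abs_of_pos (by positivity : (0 : ℝ) < 2 * Real.pi)]
          have := Real.pi_le_four
          nlinarith [abs_nonneg ((t : ℝ) * γ), Real.pi_pos]
        have h5 := Real.one_sub_sq_div_two_le_cos (x := 2 * Real.pi * ((t : ℝ) * γ))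
        have h6 : (2 * Real.pi * ((t : ℝ) * γ)) ^ 2 ≤ 1 := by
          rw [← sq_abs]
          nlinarith [abs_nonneg (2 * Real.pi * ((t : ℝ) * γ))]
        linarith
      calc (K : ℝ) / 2 = ∑ _t ∈ range K, (1 : ℝ) / 2 := by
            rw [sum_const, card_range, nsmul_eq_mul]
            ring
        _ ≤ _ := Finset.sum_le_sum h2
    have hn : (K : ℝ) / 2 ≤ ‖∑ t ∈ range K, ee ((t : ℝ) * γ)‖ :=
      hre.trans (Complex.re_le_norm _)
    unfold fej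
    rw [le_div_iff₀ hK0]
    nlinarith

private theorem Poi_prod {α β : Type*} (s : Finset α) (t : Finset β) (f : α → ℂ) (g : β → ℂ) :
    ∑ x ∈ s ×ˢ t, f x.1 * g x.2 = (∑ a ∈ s, f a) * ∑ b ∈ t, g b := by
  rw [Finset.sum_product, Finset.sum_mul_sum]

/-- the weight -/
private noncomputable def Poi_W (A B : ℕ) (v : ℤ × ℤ × ℤ) : ℝ :=
  (1 - |(v.1 : ℝ)| / A) * ((1 - |(v.2.1 : ℝ)| / B) * (1 - |(v.2.2 : ℝ)| / B))

private theorem Poi_w1 (K : ℕ) (hK : 1 ≤ K) (n : ℤ) (hn : n ∈ Ioo (-(K : ℤ)) K) :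
    0 ≤ 1 - |(n : ℝ)| / K ∧ 1 - |(n : ℝ)| / K ≤ 1 := by
  have hK0 : (0 : ℝ) < K := by exact_mod_cast hK
  rw [Finset.mem_Ioo] at hn
  have h1 : |n| < (K : ℤ) := abs_lt.2 hn
  have h2 : |(n : ℝ)| < K := by exact_mod_cast h1
  have h3 : |(n : ℝ)| / K ≤ 1 := (div_le_one hK0).2 h2.le
  have h4 : 0 ≤ |(n : ℝ)| / K := by positivity
  exact ⟨by linarith, by linarith⟩

private theorem Poi_W01 (A B : ℕ) (hA : 1 ≤ A) (hB : 1 ≤ B) (v : ℤ × ℤ × ℤ) (hv : v ∈ Box A B) :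
    0 ≤ Poi_W A B v ∧ Poi_W A B v ≤ 1 := by
  unfold Box at hv
  rw [Finset.mem_product, Finset.mem_product] at hv
  obtain ⟨h1, h2, h3⟩ := hv
  obtain ⟨a1, a2⟩ := Poi_w1 A hA _ h1
  obtain ⟨b1, b2⟩ := Poi_w1 B hB _ h2
  obtain ⟨c1, c2⟩ := Poi_w1 B hB _ h3
  unfold Poi_W
  constructor
  · positivity
  · have : (1 - |(v.2.1 : ℝ)| / B) * (1 - |(v.2.2 : ℝ)| / B) ≤ 1 := mul_le_one₀ b2 c1 c2
    exact mul_le_one₀ a2 (by positivity) this

/-- the product of the three kernels -/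
private noncomputable def Poi_F (A B : ℕ) (x1 x2 x3 x4 : ℝ) : ℝ :=
  fej A (x1 + x2 - x3 - x4) * (fej B (x2 - x3) * fej B (x2 - x4))

private theorem Poi_Fexp (A B : ℕ) (hA : 1 ≤ A) (hB : 1 ≤ B) (x1 x2 x3 x4 : ℝ) :
    ((Poi_F A B x1 x2 x3 x4 : ℝ) : ℂ) = ∑ v ∈ Box A B, ((Poi_W A B v : ℝ) : ℂ) *
      ((ee (x1 * ((v.1 : ℤ) : ℝ)) * ee (x2 * ((v.1 + v.2.1 + v.2.2 : ℤ) : ℝ))) *
        (ee (-(x3 * ((v.1 + v.2.1 : ℤ) : ℝ))) * ee (-(x4 * ((v.1 + v.2.2 : ℤ) : ℝ))))) := by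
  unfold Poi_F
  push_cast
  rw [fej_exp A hA, fej_exp B hB, fej_exp B hB, ← Poi_prod, ← Poi_prod]
  unfold Box
  refine Finset.sum_congr rfl fun v _ => ?_
  have h1 : ee ((v.1 : ℝ) * (x1 + x2 - x3 - x4)) * (ee ((v.2.1 : ℝ) * (x2 - x3)) * ee ((v.2.2 : ℝ) * (x2 - x4))) =
      (ee (x1 * ((v.1 : ℤ) : ℝ)) * ee (x2 * ((v.1 + v.2.1 + v.2.2 : ℤ) : ℝ))) *
        (ee (-(x3 * ((v.1 + v.2.1 : ℤ) : ℝ))) * ee (-(x4 * ((v.1 + v.2.2 : ℤ) : ℝ)))) := by
    rw [← Poi_ee_add, ← Poi_ee_add, ← Poi_ee_add, ← Poi_ee_add, ← Poi_ee_add]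
    congr 1
    push_cast
    ring
  have h2 : (((v.1 + v.2.1 + v.2.2 : ℤ) : ℝ)) = (v.1 : ℝ) + v.2.1 + v.2.2 := by push_cast; ring
  have h3 : (((v.1 + v.2.1 : ℤ) : ℝ)) = (v.1 : ℝ) + v.2.1 := by push_cast; ring
  have h4 : (((v.1 + v.2.2 : ℤ) : ℝ)) = (v.1 : ℝ) + v.2.2 := by push_cast; ring
  rw [h2, h3, h4] at h1
  rw [← h1]
  unfold Poi_W
  push_cast
  ring

private theorem Poi_sum (A B : ℕ) (hA : 1 ≤ A) (hB : 1 ≤ B) (p1 p2 p3 p4 : ℕ)
    (hp1 : 1 ≤ p1) (hp2 : 1 ≤ p2) (hp3 : 1 ≤ p3) (hp4 : 1 ≤ p4) :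
    ∑ u ∈ (range p1 ×ˢ range p2) ×ˢ (range p3 ×ˢ range p4),
      Poi_F A B ((u.1.1 : ℝ) / p1) ((u.1.2 : ℝ) / p2) ((u.2.1 : ℝ) / p3) ((u.2.2 : ℝ) / p4) =
    ∑ v ∈ Lam A B ((p1, p2), (p3, p4)), Poi_W A B v * ((p1 : ℝ) * p2 * p3 * p4) := by
  have hC : ((∑ u ∈ (range p1 ×ˢ range p2) ×ˢ (range p3 ×ˢ range p4),
      Poi_F A B ((u.1.1 : ℝ) / p1) ((u.1.2 : ℝ) / p2) ((u.2.1 : ℝ) / p3) ((u.2.2 : ℝ) / p4) : ℝ) : ℂ) =
      ((∑ v ∈ Lam A B ((p1, p2), (p3, p4)), Poi_W A B v * ((p1 : ℝ) * p2 * p3 * p4) : ℝ) : ℂ) := by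
    rw [Complex.ofReal_sum]
    simp only [Poi_Fexp A B hA hB]
    rw [Finset.sum_comm]
    unfold Lam
    rw [Finset.sum_filter, Complex.ofReal_sum]
    refine Finset.sum_congr rfl fun v _ => ?_
    rw [← Finset.mul_sum]
    have h1 := Poi_prod (range p1 ×ˢ range p2) (range p3 ×ˢ range p4)
      (fun a => ee ((a.1 : ℝ) / p1 * ((v.1 : ℤ) : ℝ)) * ee ((a.2 : ℝ) / p2 * ((v.1 + v.2.1 + v.2.2 : ℤ) : ℝ)))
      (fun b => ee (-((b.1 : ℝ) / p3 * ((v.1 + v.2.1 : ℤ) : ℝ))) * ee (-((b.2 : ℝ) / p4 * ((v.1 + v.2.2 : ℤ) : ℝ))))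
    have h2 := Poi_prod (range p1) (range p2) (fun a => ee ((a : ℝ) / p1 * ((v.1 : ℤ) : ℝ)))
      (fun a => ee ((a : ℝ) / p2 * ((v.1 + v.2.1 + v.2.2 : ℤ) : ℝ)))
    have h3 := Poi_prod (range p3) (range p4) (fun b => ee (-((b : ℝ) / p3 * ((v.1 + v.2.1 : ℤ) : ℝ))))
      (fun b => ee (-((b : ℝ) / p4 * ((v.1 + v.2.2 : ℤ) : ℝ))))
    rw [h2, h3, Poi_geom p1 hp1, Poi_geom p2 hp2, Poi_geom_neg p3 hp3, Poi_geom_neg p4 hp4] at h1
    rw [h1]
    by_cases g : IsL ((p1, p2), (p3, p4)) v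
    · rw [if_pos g]
      obtain ⟨g1, g2, g3, g4⟩ := g
      rw [if_pos g1, if_pos g2, if_pos g3, if_pos g4]
      push_cast
      ring
    · rw [if_neg g]
      have g' : ((if (p1 : ℤ) ∣ v.1 then (p1 : ℂ) else 0) * (if (p2 : ℤ) ∣ v.1 + v.2.1 + v.2.2 then (p2 : ℂ) else 0)) *
          ((if (p3 : ℤ) ∣ v.1 + v.2.1 then (p3 : ℂ) else 0) * (if (p4 : ℤ) ∣ v.1 + v.2.2 then (p4 : ℂ) else 0)) = 0 := by
        by_cases g1 : (p1 : ℤ) ∣ v.1
        · by_cases g2 : (p2 : ℤ) ∣ v.1 + v.2.1 + v.2.2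
          · by_cases g3 : (p3 : ℤ) ∣ v.1 + v.2.1
            · have g4 : ¬ (p4 : ℤ) ∣ v.1 + v.2.2 := fun g4 => g ⟨g1, g2, g3, g4⟩
              rw [if_neg g4]
              ring
            · rw [if_neg g3]
              ring
          · rw [if_neg g2]
            ring
        · rw [if_neg g1]
          ring
      rw [g', mul_zero, Complex.ofReal_zero]
  exact_mod_cast hC

theorem du_le_lam (A B : ℕ) (G ρ : ℝ) (p : (ℕ × ℕ) × (ℕ × ℕ)) (hA : 1 ≤ A) (hB : 1 ≤ B)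
    (hρ : A = 1 ∨ 8 * A * ρ ≤ 1) (hG : B = 1 ∨ 8 * B * G ≤ 1)
    (hp1 : 1 ≤ p.1.1) (hp2 : 1 ≤ p.1.2) (hp3 : 1 ≤ p.2.1) (hp4 : 1 ≤ p.2.2) :
    ((Du G ρ p).card : ℝ) * (A * B ^ 2) ≤ 64 * ((p.1.1 : ℝ) * p.1.2 * p.2.1 * p.2.2) * (Lam A B p).card := by
  obtain ⟨⟨p1, p2⟩, ⟨p3, p4⟩⟩ := p
  simp only at hp1 hp2 hp3 hp4 ⊢
  have hA0 : (0 : ℝ) < A := by exact_mod_cast hA
  have hB0 : (0 : ℝ) < B := by exact_mod_cast hB
  have hFn : ∀ x1 x2 x3 x4 : ℝ, 0 ≤ Poi_F A B x1 x2 x3 x4 := fun x1 x2 x3 x4 =>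
    mul_nonneg (fej_nonneg _ _) (mul_nonneg (fej_nonneg _ _) (fej_nonneg _ _))
  -- the upper bound
  have hup : ∑ u ∈ (range p1 ×ˢ range p2) ×ˢ (range p3 ×ˢ range p4),
      Poi_F A B ((u.1.1 : ℝ) / p1) ((u.1.2 : ℝ) / p2) ((u.2.1 : ℝ) / p3) ((u.2.2 : ℝ) / p4) ≤
      ((p1 : ℝ) * p2 * p3 * p4) * (Lam A B ((p1, p2), (p3, p4))).card := by
    rw [Poi_sum A B hA hB p1 p2 p3 p4 hp1 hp2 hp3 hp4]
    calc ∑ v ∈ Lam A B ((p1, p2), (p3, p4)), Poi_W A B v * ((p1 : ℝ) * p2 * p3 * p4)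
        ≤ ∑ _v ∈ Lam A B ((p1, p2), (p3, p4)), ((p1 : ℝ) * p2 * p3 * p4) := by
          refine Finset.sum_le_sum fun v hv => ?_
          have hv' : v ∈ Box A B := (Finset.mem_filter.1 hv).1
          have h1 := (Poi_W01 A B hA hB v hv').2
          have h2 : 0 ≤ (p1 : ℝ) * p2 * p3 * p4 := by positivity
          nlinarith
      _ = _ := by
          rw [sum_const, nsmul_eq_mul, mul_comm]
  -- the lower bound
  have hlow : ∑ _u ∈ Du G ρ ((p1, p2), (p3, p4)), ((A : ℝ) * B ^ 2 / 64) ≤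
      ∑ u ∈ Du G ρ ((p1, p2), (p3, p4)),
        Poi_F A B ((u.1.1 : ℝ) / p1) ((u.1.2 : ℝ) / p2) ((u.2.1 : ℝ) / p3) ((u.2.2 : ℝ) / p4) := by
    refine Finset.sum_le_sum fun u hu => ?_
    unfold Du at hu
    rw [Finset.mem_filter] at hu
    obtain ⟨_, h1, h2, h3⟩ := hu
    simp only at h1 h2 h3
    have e1 : (A : ℝ) / 4 ≤ fej A ((u.1.1 : ℝ) / p1 + (u.1.2 : ℝ) / p2 - (u.2.1 : ℝ) / p3 - (u.2.2 : ℝ) / p4) := by
      apply Poi_low A hA
      rcases hρ with h | h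
      · exact Or.inl h
      · exact Or.inr ((mul_le_mul_of_nonneg_left h1 (by positivity)).trans h)
    have e2 : (B : ℝ) / 4 ≤ fej B ((u.1.2 : ℝ) / p2 - (u.2.1 : ℝ) / p3) := by
      apply Poi_low B hB
      rcases hG with h | h
      · exact Or.inl h
      · exact Or.inr ((mul_le_mul_of_nonneg_left h2 (by positivity)).trans h)
    have e3 : (B : ℝ) / 4 ≤ fej B ((u.1.2 : ℝ) / p2 - (u.2.2 : ℝ) / p4) := by
      apply Poi_low B hB
      rcases hG with h | h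
      · exact Or.inl h
      · exact Or.inr ((mul_le_mul_of_nonneg_left h3 (by positivity)).trans h)
    unfold Poi_F
    have e4 : (B : ℝ) / 4 * (B / 4) ≤ fej B ((u.1.2 : ℝ) / p2 - (u.2.1 : ℝ) / p3) *
        fej B ((u.1.2 : ℝ) / p2 - (u.2.2 : ℝ) / p4) :=
      mul_le_mul e2 e3 (by positivity) (fej_nonneg _ _)
    have e5 := mul_le_mul e1 e4 (by positivity) (fej_nonneg _ _)
    calc (A : ℝ) * B ^ 2 / 64 = A / 4 * (B / 4 * (B / 4)) := by ring
      _ ≤ _ := e5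
  have hsub : Du G ρ ((p1, p2), (p3, p4)) ⊆ (range p1 ×ˢ range p2) ×ˢ (range p3 ×ˢ range p4) := by
    intro u hu
    unfold Du at hu
    rw [Finset.mem_filter] at hu
    have h := hu.1
    simp only [Finset.mem_product, Finset.mem_Ico, Finset.mem_range] at h ⊢
    exact ⟨⟨h.1.1.2, h.1.2.2⟩, ⟨h.2.1.2, h.2.2.2⟩⟩
  have hmid := Finset.sum_le_sum_of_subset_of_nonneg hsub
    (f := fun u : (ℕ × ℕ) × (ℕ × ℕ) => Poi_F A B ((u.1.1 : ℝ) / p1) ((u.1.2 : ℝ) / p2) ((u.2.1 : ℝ) / p3) ((u.2.2 : ℝ) / p4))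
    (fun u _ _ => hFn _ _ _ _)
  rw [sum_const, nsmul_eq_mul] at hlow
  have hall := (hlow.trans hmid).trans hup
  linarith

end Pool.Agent.H56.TI2

end
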