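import Pool.Agent.H43.PJ.M43

/-! The parts of this file: H76.TP.KapL, H88.PSI.HB, H88.PSI.Edg, H88.PSI.Dy, H88.PSI.BoxD, H88.PSI.Cov, H53.TPS.DefsF, H56.TI.Defs, H56.TI.Fej, H56.TI.Spc, H56.TI2.Defs. -/

section

/-!
# TP KapL: the density `kap` is bounded and slowly varying

Write `z = zz y J`, `G x` = the numerator of `kap y J x`.  `0 ≤ G x ≤ ∑_{k ≤ x} 1/k ≤ 1 + log x`, so `0 ≤ kap ≤ 2` (`log x ≥ 1`).
For `x ≤ x'`: `|G x' - G x| ≤ ∑_{x/y < k ≤ x'/y} 1/k + ∑_{k : x < k z ≤ x'} 1/k ≤ 2((x' - x)/x + y/x) + 2((x' - x)/x + z/x)` (the terms with `x < kz`, `x' ≥ kz` are those whose weight changes;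
the `k` of the first sum are `≥ x/y`, at most `(x'-x)/y + 1` of them), and `|1/log x' - 1/log x| ≤ (x'-x)/(x log x log x')`.
-/

set_option autoImplicit false

namespace Pool.Agent.H76.TP

open Finset

private theorem KapL_rg (y k : ℕ) : 0 ≤ rg y k ∧ rg y k ≤ 1 := by
  unfold rg
  split_ifs <;> norm_num

/-- the terms of the numerator -/
private noncomputable def KapL_t (y J x k : ℕ) : ℝ :=
  rg y k / ((1 + nu y J k + if x < k * zz y J then 1 else 0) * k)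

private theorem KapL_t_nonneg (y J x k : ℕ) : 0 ≤ KapL_t y J x k := by
  unfold KapL_t
  refine div_nonneg (KapL_rg y k).1 (mul_nonneg ?_ (Nat.cast_nonneg _))
  split_ifs <;> positivity

private theorem KapL_t_le (y J x : ℕ) {k : ℕ} (hk : 1 ≤ k) : KapL_t y J x k ≤ 1 / k := by
  unfold KapL_t
  have hk0 : (0 : ℝ) < k := by exact_mod_cast hk
  have h1 : (k : ℝ) ≤ (1 + (nu y J k : ℝ) + if x < k * zz y J then 1 else 0) * k := by
    have h2 : (0 : ℝ) ≤ nu y J k := Nat.cast_nonneg _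
    have h3 : (0 : ℝ) ≤ (if x < k * zz y J then (1 : ℝ) else 0) := by split_ifs <;> norm_num
    nlinarith [mul_nonneg h2 hk0.le, mul_nonneg h3 hk0.le]
  exact div_le_div₀ zero_le_one (KapL_rg y k).2 hk0 h1

private theorem KapL_kap (y J x : ℕ) :
    kap y J x = (∑ k ∈ Icc 1 (x / y), KapL_t y J x k) / Real.log x := rfl

private theorem KapL_harm (n : ℕ) : ∑ k ∈ Icc 1 n, 1 / (k : ℝ) ≤ 1 + Real.log n := by
  have h := harmonic_le_one_add_log n
  rw [harmonic_eq_sum_Icc] at h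
  push_cast at h
  refine le_trans (le_of_eq ?_) h
  refine Finset.sum_congr rfl fun k _ => ?_
  rw [one_div]

private theorem KapL_G_le (y J x : ℕ) (hx : 1 ≤ x) :
    ∑ k ∈ Icc 1 (x / y), KapL_t y J x k ≤ 1 + Real.log x := by
  calc ∑ k ∈ Icc 1 (x / y), KapL_t y J x k ≤ ∑ k ∈ Icc 1 (x / y), 1 / (k : ℝ) :=
        Finset.sum_le_sum fun k hk => KapL_t_le y J x (mem_Icc.mp hk).1
    _ ≤ ∑ k ∈ Icc 1 x, 1 / (k : ℝ) := by
        refine Finset.sum_le_sum_of_subset_of_nonneg ?_ fun k _ _ => by positivity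
        exact Finset.Icc_subset_Icc le_rfl (Nat.div_le_self x y)
    _ ≤ 1 + Real.log x := KapL_harm x

private theorem KapL_log {x : ℕ} (hx : 3 ≤ x) : 1 ≤ Real.log x := by
  have h1 : Real.exp 1 ≤ x := by
    have := Real.exp_one_lt_d9
    have h2 : (3 : ℝ) ≤ x := by exact_mod_cast hx
    linarith
  calc (1 : ℝ) = Real.log (Real.exp 1) := (Real.log_exp 1).symm
    _ ≤ Real.log x := Real.log_le_log (Real.exp_pos 1) h1

/-- the reciprocals between `x/m` and `x'/m` -/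
private theorem KapL_win {x x' m : ℕ} (hm : 1 ≤ m) (hx : 1 ≤ x) (hxx : x ≤ x') :
    ∑ k ∈ Ioc (x / m) (x' / m), 1 / (k : ℝ) ≤ (((x' : ℝ) - x) + m) / x := by
  have hm0 : (0 : ℝ) < m := by exact_mod_cast hm
  have hx0 : (0 : ℝ) < x := by exact_mod_cast hx
  have h1 : ∀ k ∈ Ioc (x / m) (x' / m), 1 / (k : ℝ) ≤ m / x := by
    intro k hk
    rw [mem_Ioc] at hk
    have h2 : x < k * m := (Nat.div_lt_iff_lt_mul (by omega)).mp hk.1
    have h3 : (x : ℝ) ≤ k * m := by exact_mod_cast h2.le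
    have hk0 : (0 : ℝ) < k := by
      have : 0 < k := lt_of_le_of_lt (Nat.zero_le _) hk.1
      exact_mod_cast this
    rw [div_le_div_iff₀ hk0 hx0]
    linarith
  have h4 : (((Ioc (x / m) (x' / m)).card : ℕ) : ℝ) ≤ ((x' : ℝ) - x) / m + 1 := by
    rw [Nat.card_Ioc, Nat.cast_sub (Nat.div_le_div_right hxx)]
    have h5 : ((x' / m : ℕ) : ℝ) ≤ (x' : ℝ) / m := Nat.cast_div_le
    have h6 : x < x / m * m + m := Nat.lt_div_mul_add (by omega)
    have h7 : (x : ℝ) ≤ ((x / m : ℕ) : ℝ) * m + m := by exact_mod_cast h6.le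
    have h8 : (x : ℝ) / m ≤ ((x / m : ℕ) : ℝ) + 1 := by
      rw [div_le_iff₀ hm0]
      linarith
    have h9 : ((x' : ℝ) - x) / m = (x' : ℝ) / m - (x : ℝ) / m := by ring
    rw [h9]
    linarith
  calc ∑ k ∈ Ioc (x / m) (x' / m), 1 / (k : ℝ) ≤ ∑ _k ∈ Ioc (x / m) (x' / m), (m : ℝ) / x :=
        Finset.sum_le_sum h1
    _ = ((Ioc (x / m) (x' / m)).card : ℝ) * ((m : ℝ) / x) := by
        rw [Finset.sum_const, nsmul_eq_mul]
    _ ≤ (((x' : ℝ) - x) / m + 1) * ((m : ℝ) / x) :=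
        mul_le_mul_of_nonneg_right h4 (by positivity)
    _ = (((x' : ℝ) - x) + m) / x := by
        field_simp

private theorem KapL_diff (y J x x' : ℕ) {k : ℕ} (hk : 1 ≤ k) (hxx : x ≤ x') :
    0 ≤ KapL_t y J x' k - KapL_t y J x k ∧
      (KapL_t y J x' k - KapL_t y J x k ≤ if x < k * zz y J ∧ k * zz y J ≤ x' then 1 / (k : ℝ) else 0) := by
  have hk0 : (0 : ℝ) < k := by exact_mod_cast hk
  by_cases h1 : x < k * zz y J
  · by_cases h2 : x' < k * zz y J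
    · have e : KapL_t y J x' k = KapL_t y J x k := by
        unfold KapL_t
        rw [if_pos h1, if_pos h2]
      rw [e, sub_self, if_neg (by omega)]
      exact ⟨le_rfl, le_rfl⟩
    · rw [if_pos ⟨h1, by omega⟩]
      constructor
      · have h3 : (0 : ℝ) ≤ nu y J k := Nat.cast_nonneg _
        unfold KapL_t
        rw [if_pos h1, if_neg h2, sub_nonneg]
        refine div_le_div_of_nonneg_left (KapL_rg y k).1 (by positivity) ?_
        nlinarith
      · have h4 := KapL_t_le y J x' hk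
        have h5 := KapL_t_nonneg y J x k
        linarith
  · have h2 : ¬ x' < k * zz y J := by omega
    have e : KapL_t y J x' k = KapL_t y J x k := by
      unfold KapL_t
      rw [if_neg h1, if_neg h2]
    rw [e, sub_self, if_neg (by omega)]
    exact ⟨le_rfl, le_rfl⟩

private theorem KapL_zz_ge (y J : ℕ) : y ≤ zz y J := by
  unfold zz
  exact Nat.le_mul_of_pos_left y (by positivity)

private theorem KapL_G (y J x x' : ℕ) (hy : 1 ≤ y) (hx : 1 ≤ x) (hxx : x ≤ x') :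
    0 ≤ ∑ k ∈ Icc 1 (x' / y), KapL_t y J x' k - ∑ k ∈ Icc 1 (x / y), KapL_t y J x k ∧
    ∑ k ∈ Icc 1 (x' / y), KapL_t y J x' k - ∑ k ∈ Icc 1 (x / y), KapL_t y J x k ≤
      2 * ((((x' : ℝ) - x) + zz y J) / x) := by
  have hdiv : x / y ≤ x' / y := Nat.div_le_div_right hxx
  have hx0 : (0 : ℝ) < x := by exact_mod_cast hx
  have hsplit : ∑ k ∈ Icc 1 (x' / y), KapL_t y J x' k =
      ∑ k ∈ Icc 1 (x / y), KapL_t y J x' k + ∑ k ∈ Ioc (x / y) (x' / y), KapL_t y J x' k := by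
    have e1 : ∀ n : ℕ, Icc 1 n = Ioc 0 n := by
      intro n
      ext k
      simp only [mem_Icc, mem_Ioc]
      omega
    rw [e1, e1]
    exact (Finset.sum_Ioc_consecutive _ (Nat.zero_le _) hdiv).symm
  have e2 : ∑ k ∈ Icc 1 (x' / y), KapL_t y J x' k - ∑ k ∈ Icc 1 (x / y), KapL_t y J x k =
      ∑ k ∈ Icc 1 (x / y), (KapL_t y J x' k - KapL_t y J x k) +
        ∑ k ∈ Ioc (x / y) (x' / y), KapL_t y J x' k := by
    rw [hsplit, Finset.sum_sub_distrib]
    ring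
  rw [e2]
  have a1 : 0 ≤ ∑ k ∈ Icc 1 (x / y), (KapL_t y J x' k - KapL_t y J x k) :=
    Finset.sum_nonneg fun k hk => (KapL_diff y J x x' (mem_Icc.mp hk).1 hxx).1
  have a2 : 0 ≤ ∑ k ∈ Ioc (x / y) (x' / y), KapL_t y J x' k :=
    Finset.sum_nonneg fun k _ => KapL_t_nonneg y J x' k
  have hzy : (y : ℝ) ≤ zz y J := by exact_mod_cast KapL_zz_ge y J
  have hz1 : 1 ≤ zz y J := hy.trans (KapL_zz_ge y J)
  have b1 : ∑ k ∈ Icc 1 (x / y), (KapL_t y J x' k - KapL_t y J x k) ≤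
      (((x' : ℝ) - x) + zz y J) / x := by
    calc ∑ k ∈ Icc 1 (x / y), (KapL_t y J x' k - KapL_t y J x k)
        ≤ ∑ k ∈ Icc 1 (x / y), (if x < k * zz y J ∧ k * zz y J ≤ x' then 1 / (k : ℝ) else 0) :=
          Finset.sum_le_sum fun k hk => (KapL_diff y J x x' (mem_Icc.mp hk).1 hxx).2
      _ = ∑ k ∈ (Icc 1 (x / y)).filter (fun k => x < k * zz y J ∧ k * zz y J ≤ x'), 1 / (k : ℝ) := by
          rw [Finset.sum_filter]
      _ ≤ ∑ k ∈ Ioc (x / zz y J) (x' / zz y J), 1 / (k : ℝ) := by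
          refine Finset.sum_le_sum_of_subset_of_nonneg ?_ fun k _ _ => by positivity
          intro k hk
          obtain ⟨_, h1, h2⟩ := Finset.mem_filter.mp hk
          rw [mem_Ioc]
          exact ⟨(Nat.div_lt_iff_lt_mul (by omega)).mpr h1, (Nat.le_div_iff_mul_le (by omega)).mpr h2⟩
      _ ≤ _ := KapL_win hz1 hx hxx
  have b2 : ∑ k ∈ Ioc (x / y) (x' / y), KapL_t y J x' k ≤ (((x' : ℝ) - x) + zz y J) / x := by
    calc ∑ k ∈ Ioc (x / y) (x' / y), KapL_t y J x' k ≤ ∑ k ∈ Ioc (x / y) (x' / y), 1 / (k : ℝ) :=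
          Finset.sum_le_sum fun k hk => KapL_t_le y J x'
            (lt_of_le_of_lt (Nat.zero_le _) (mem_Ioc.mp hk).1)
      _ ≤ (((x' : ℝ) - x) + y) / x := KapL_win hy hx hxx
      _ ≤ _ := by
          refine div_le_div_of_nonneg_right ?_ hx0.le
          linarith
  exact ⟨by linarith, by linarith⟩

theorem kap_nonneg (y J x : ℕ) (hx : 1 ≤ x) : 0 ≤ kap y J x := by
  rw [KapL_kap]
  refine div_nonneg (Finset.sum_nonneg fun k _ => KapL_t_nonneg y J x k) ?_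
  exact Real.log_natCast_nonneg x

theorem kap_le (y J x : ℕ) (hx : 3 ≤ x) : kap y J x ≤ 2 := by
  rw [KapL_kap]
  have h1 := KapL_G_le y J x (by omega)
  have h2 := KapL_log hx
  rw [div_le_iff₀ (by linarith)]
  linarith

/-- `z = zz y J ≤ x` and `1 ≤ y` -/
theorem kap_lip (y J x x' : ℕ) (hy : 1 ≤ y) (hx : 3 ≤ x) (hz : zz y J ≤ x) (hxx : x ≤ x') :
    |kap y J x' - kap y J x| ≤ 10 * (((x' : ℝ) - x) + zz y J) / x := by
  obtain ⟨g1, g2⟩ := KapL_G y J x x' hy (by omega) hxx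
  have hG := KapL_G_le y J x (by omega)
  have hG0 : 0 ≤ ∑ k ∈ Icc 1 (x / y), KapL_t y J x k :=
    Finset.sum_nonneg fun k _ => KapL_t_nonneg y J x k
  have hx' : 3 ≤ x' := by omega
  have l1 := KapL_log hx
  have l2 := KapL_log hx'
  rw [KapL_kap, KapL_kap]
  set G := ∑ k ∈ Icc 1 (x / y), KapL_t y J x k with hGdef
  set G' := ∑ k ∈ Icc 1 (x' / y), KapL_t y J x' k with hG'def
  set D := (((x' : ℝ) - x) + zz y J) / x with hD
  have hx0 : (0 : ℝ) < x := by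
    have : 0 < x := by omega
    exact_mod_cast this
  have hxr : (x : ℝ) ≤ x' := by exact_mod_cast hxx
  have hx0' : (0 : ℝ) < x' := by linarith
  have hlog : Real.log x ≤ Real.log x' := Real.log_le_log hx0 hxr
  have hlog2 : Real.log x' - Real.log x ≤ D := by
    rw [← Real.log_div hx0'.ne' hx0.ne']
    have h3 := Real.log_le_sub_one_of_pos (show 0 < (x' : ℝ) / x by positivity)
    refine h3.trans ?_
    rw [hD, le_div_iff₀ hx0, sub_mul, div_mul_cancel₀ _ hx0.ne', one_mul]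
    have : (0 : ℝ) ≤ zz y J := Nat.cast_nonneg _
    linarith
  have hD0 : 0 ≤ D := by
    have : (0 : ℝ) ≤ zz y J := Nat.cast_nonneg _
    rw [hD]
    refine div_nonneg ?_ hx0.le
    linarith
  have e : G' / Real.log x' - G / Real.log x =
      (G' - G) / Real.log x' - G / Real.log x * ((Real.log x' - Real.log x) / Real.log x') := by
    field_simp
    ring
  have b1 : (G' - G) / Real.log x' ≤ 2 * D := by
    rw [div_le_iff₀ (by linarith)]
    nlinarith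
  have b1' : 0 ≤ (G' - G) / Real.log x' := div_nonneg g1 (by linarith)
  have b2 : G / Real.log x ≤ 2 := by
    rw [div_le_iff₀ (by linarith)]
    linarith
  have b2' : 0 ≤ G / Real.log x := div_nonneg hG0 (by linarith)
  have b3 : (Real.log x' - Real.log x) / Real.log x' ≤ D := by
    rw [div_le_iff₀ (by linarith)]
    nlinarith
  have b3' : 0 ≤ (Real.log x' - Real.log x) / Real.log x' := div_nonneg (by linarith) (by linarith)
  have b4 : G / Real.log x * ((Real.log x' - Real.log x) / Real.log x') ≤ 2 * D :=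
    mul_le_mul b2 b3 b3' (by norm_num)
  have b4' : 0 ≤ G / Real.log x * ((Real.log x' - Real.log x) / Real.log x') := mul_nonneg b2' b3'
  have eD : 10 * (((x' : ℝ) - x) + zz y J) / x = 10 * D := by
    rw [hD]
    ring
  rw [eD, e, abs_le]
  constructor <;> linarith

end Pool.Agent.H76.TP

end

section

/-!
# PSI HB: the Heath-Brown identity (k = 3)

`M = seg 2 1 (2^w)` (`μ` on `[1, 2^w)`), `Z = hi 0 1` (`1` on `n ≥ 1`), `G = hi 1 1` (`log`).
`(1 - Z M)(n) = 0` for `n < 2^w`, so `La (1 - Z M)^3` vanishes at `n < (2^w)^3`; `La Z = G`; so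
`La = 3 G M - 3 G Z M^2 + G Z^2 M^3` there.  Split `G = hi 1 Y + seg 1 1 Y`, `Z = hi 0 Y + seg 0 1 Y`, `Y = 2^y`, in the
part with `seg 1 1 Y`; `seg 1 1 Y * M` vanishes at `n ≥ 2^y 2^w`.
-/

set_option autoImplicit false

namespace Pool.Agent.H88.PSI

open ArithmeticFunction in
private theorem HB_vanish {f g : ArithmeticFunction ℝ} {a b n : ℕ} (hf : ∀ m < a, f m = 0)
    (hg : ∀ m < b, g m = 0) (hn : n < a * b) : (f * g) n = 0 := by
  rw [ArithmeticFunction.mul_apply]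
  refine Finset.sum_eq_zero fun x hx => ?_
  have h1 : x.1 * x.2 = n := (Nat.mem_divisorsAntidiagonal.1 hx).1
  rcases lt_or_ge x.1 a with h2 | h2
  · rw [hf _ h2, zero_mul]
  · rcases lt_or_ge x.2 b with h3 | h3
    · rw [hg _ h3, mul_zero]
    · exact absurd (Nat.mul_le_mul h2 h3) (by omega)

private theorem HB_vanish' {f g : ArithmeticFunction ℝ} {a b n : ℕ} (hf : ∀ m, a ≤ m → f m = 0)
    (hg : ∀ m, b ≤ m → g m = 0) (hn : a * b ≤ n) (hn0 : n ≠ 0) : (f * g) n = 0 := by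
  rw [ArithmeticFunction.mul_apply]
  refine Finset.sum_eq_zero fun x hx => ?_
  have h1 : x.1 * x.2 = n := (Nat.mem_divisorsAntidiagonal.1 hx).1
  rcases lt_or_ge x.1 a with h2 | h2
  · rcases lt_or_ge x.2 b with h3 | h3
    · exfalso
      have h4 : x.1 * x.2 ≤ x.1 * b := Nat.mul_le_mul_left _ h3.le
      have h5 : x.1 * b ≤ a * b := Nat.mul_le_mul_right _ h2.le
      have h6 : 0 < x.1 := by
        rcases Nat.eq_zero_or_pos x.1 with h | h
        · rw [h, zero_mul] at h1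
          exact absurd h1.symm hn0
        · exact h
      have h7 : x.1 * x.2 < x.1 * b := Nat.mul_lt_mul_of_pos_left h3 h6
      omega
    · rw [hg _ h3, mul_zero]
  · rw [hf _ h2, zero_mul]

private theorem HB_three (f : ArithmeticFunction ℝ) : (3 : ℝ) • f = 3 * f := by
  have h : (3 : ArithmeticFunction ℝ) * f = f + f + f := by ring
  rw [h]
  ext n
  simp only [ArithmeticFunction.add_apply]
  rw [show ((3 : ℝ) • f) n = 3 * f n from rfl]
  ring

private theorem HB_Z : hi 0 1 = ((ArithmeticFunction.zeta : ArithmeticFunction ℕ) :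
    ArithmeticFunction ℝ) := by
  ext n
  rw [ArithmeticFunction.natCoe_apply, ArithmeticFunction.zeta_apply]
  show (if n ≠ 0 ∧ 1 ≤ n then kf 0 n else 0) = _
  by_cases hn : n = 0
  · simp [hn]
  · have : 1 ≤ n := Nat.one_le_iff_ne_zero.2 hn
    simp [hn, this, kf]

private theorem HB_G : La * hi 0 1 = hi 1 1 := by
  rw [HB_Z]
  unfold La
  rw [ArithmeticFunction.vonMangoldt_mul_zeta]
  ext n
  rw [ArithmeticFunction.log_apply]
  show _ = (if n ≠ 0 ∧ 1 ≤ n then kf 1 n else 0)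
  by_cases hn : n = 0
  · simp [hn]
  · have : 1 ≤ n := Nat.one_le_iff_ne_zero.2 hn
    simp [hn, this, kf]

private theorem HB_ZM (w n : ℕ) (hn : n < 2 ^ w) : (1 - hi 0 1 * seg 2 1 (2 ^ w)) n = 0 := by
  have h1 : (hi 0 1 * ((ArithmeticFunction.moebius : ArithmeticFunction ℤ) :
      ArithmeticFunction ℝ)) = 1 := by
    rw [HB_Z]
    exact ArithmeticFunction.coe_zeta_mul_coe_moebius
  have h2 : (hi 0 1 * seg 2 1 (2 ^ w)) n = (1 : ArithmeticFunction ℝ) n := by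
    rw [← h1, ArithmeticFunction.mul_apply, ArithmeticFunction.mul_apply]
    refine Finset.sum_congr rfl fun x hx => ?_
    obtain ⟨h3, h4⟩ := Nat.mem_divisorsAntidiagonal.1 hx
    congr 1
    have h5 : x.2 ≠ 0 := by
      intro h
      rw [h, mul_zero] at h3
      exact h4 h3.symm
    have h6 : x.2 ∣ n := ⟨x.1, by rw [← h3, mul_comm]⟩
    have h7 : x.2 ≤ n := Nat.le_of_dvd (Nat.pos_of_ne_zero h4) h6
    rw [ArithmeticFunction.intCoe_apply]
    show (if x.2 ≠ 0 ∧ 1 ≤ x.2 ∧ x.2 < 2 ^ w then kf 2 x.2 else 0) = _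
    rw [if_pos ⟨h5, Nat.one_le_iff_ne_zero.2 h5, lt_of_le_of_lt h7 hn⟩]
    simp [kf]
  have h3 : (1 - hi 0 1 * seg 2 1 (2 ^ w)) n =
      (1 : ArithmeticFunction ℝ) n - (hi 0 1 * seg 2 1 (2 ^ w)) n := rfl
  rw [h3, h2, sub_self]

private theorem HB_split (k : Fin 3) (Y : ℕ) : hi k 1 = hi k Y + seg k 1 Y := by
  ext n
  rw [ArithmeticFunction.add_apply]
  show (if n ≠ 0 ∧ 1 ≤ n then kf k n else 0) =
    (if n ≠ 0 ∧ Y ≤ n then kf k n else 0) + (if n ≠ 0 ∧ 1 ≤ n ∧ n < Y then kf k n else 0)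
  by_cases hn : n = 0
  · simp [hn]
  · have h1 : 1 ≤ n := Nat.one_le_iff_ne_zero.2 hn
    rcases lt_or_ge n Y with h2 | h2
    · simp [hn, h1, h2, not_le.2 h2]
    · simp [hn, h1, h2, not_lt.2 h2]

private theorem HB_T4 (y w : ℕ) : Tp k4 y w =
    seg 1 1 (2 ^ y) * seg 0 1 (2 ^ y) * seg 2 1 (2 ^ w) * seg 2 1 (2 ^ w) := by
  unfold Tp
  rw [Fin.prod_univ_four]
  rfl

private theorem HB_T6 (y w : ℕ) : Tp k6 y w =
    seg 1 1 (2 ^ y) * seg 0 1 (2 ^ y) * seg 0 1 (2 ^ y) * seg 2 1 (2 ^ w) * seg 2 1 (2 ^ w) *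
      seg 2 1 (2 ^ w) := by
  unfold Tp
  rw [Fin.prod_univ_six]
  rfl

theorem hb (y w n : ℕ) (h1 : n < (2 ^ w) ^ 3) (h2 : 2 ^ y * 2 ^ w ≤ n) :
    La n = (hi 1 (2 ^ y) * cA w) n + (hi 0 (2 ^ y) * cB y w) n
      - 3 * (Tp k4 y w) n + (Tp k6 y w) n := by
  set M := seg 2 1 (2 ^ w) with hM
  set Z := hi 0 1 with hZ
  set Zh := hi 0 (2 ^ y) with hZh
  set Zl := seg 0 1 (2 ^ y) with hZl
  set g := seg 1 1 (2 ^ y) with hg
  set Gh := hi 1 (2 ^ y) with hGh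
  have eZ : Z = Zh + Zl := HB_split 0 (2 ^ y)
  have eG : La * Z = Gh + g := by
    rw [hZ, HB_G]
    exact HB_split 1 (2 ^ y)
  have v1 : ∀ m < 2 ^ w, (1 - Z * M) m = 0 := fun m hm => HB_ZM w m hm
  have v2 : ∀ m < 2 ^ w * 2 ^ w, ((1 - Z * M) * (1 - Z * M)) m = 0 :=
    fun m hm => HB_vanish v1 v1 hm
  have v3 : ∀ m < 2 ^ w * 2 ^ w * 2 ^ w, ((1 - Z * M) * (1 - Z * M) * (1 - Z * M)) m = 0 :=
    fun m hm => HB_vanish v2 v1 hm
  have v4 : (La * ((1 - Z * M) * (1 - Z * M) * (1 - Z * M))) n = 0 := by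
    refine HB_vanish (a := 1) (b := 2 ^ w * 2 ^ w * 2 ^ w) ?_ v3 ?_
    · intro m hm
      have : m = 0 := by omega
      rw [this]
      exact ArithmeticFunction.map_zero
    · calc n < (2 ^ w) ^ 3 := h1
        _ = 1 * (2 ^ w * 2 ^ w * 2 ^ w) := by ring
  have hn0 : n ≠ 0 := by
    have : 0 < 2 ^ y * 2 ^ w := by positivity
    omega
  have v5 : (g * M) n = 0 := by
    refine HB_vanish' (a := 2 ^ y) (b := 2 ^ w) ?_ ?_ h2 hn0
    · intro m hm
      show (if m ≠ 0 ∧ 1 ≤ m ∧ m < 2 ^ y then kf 1 m else 0) = 0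
      rw [if_neg]
      rintro ⟨_, _, h⟩
      omega
    · intro m hm
      show (if m ≠ 0 ∧ 1 ≤ m ∧ m < 2 ^ w then kf 2 m else 0) = 0
      rw [if_neg]
      rintro ⟨_, _, h⟩
      omega
  have key : La = Gh * cA w + Zh * cB y w - 3 * Tp k4 y w + Tp k6 y w + 3 * (g * M) +
      La * ((1 - Z * M) * (1 - Z * M) * (1 - Z * M)) := by
    have e1 : La * ((1 - Z * M) * (1 - Z * M) * (1 - Z * M)) =
        La - (La * Z) * (3 * M - 3 * (Z * M ^ 2) + Z ^ 2 * M ^ 3) := by ring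
    have e2 : cA w = 3 * M - 3 * (Z * M ^ 2) + Z ^ 2 * M ^ 3 := by
      unfold cA
      rw [HB_three, HB_three]
    have e3 : cB y w = g * (Z + Zl) * M ^ 3 - 3 * (g * M ^ 2) := by
      unfold cB
      rw [HB_three]
    rw [e1, eG, HB_T4, HB_T6, e2, e3, eZ]
    ring
  have e4 : ∀ f : ArithmeticFunction ℝ, (3 * f) n = 3 * f n := by
    intro f
    rw [← HB_three]
    rfl
  calc La n = (Gh * cA w + Zh * cB y w - 3 * Tp k4 y w + Tp k6 y w + 3 * (g * M) +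
      La * ((1 - Z * M) * (1 - Z * M) * (1 - Z * M))) n := by rw [← key]
    _ = (Gh * cA w) n + (Zh * cB y w) n - (3 * Tp k4 y w) n + (Tp k6 y w) n + (3 * (g * M)) n +
      (La * ((1 - Z * M) * (1 - Z * M) * (1 - Z * M))) n := rfl
    _ = _ := by
      rw [e4, e4, v4, v5]
      ring

end Pool.Agent.H88.PSI

end

section

/-!
# PSI Edg: the cut in the smooth variable

`(hi 0 k * a)(n) = ∑_{m ∣ n, n/m ≥ k} a m`; for `m ≤ x/k` all multiples `n > x` of `m` have `n/m ≥ k`, for `m > (x+H)/k` none `≤ x + H` has;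
`m ∣ n ≡ u (d)` forces `(m, d) = 1`.  A window of length `H` has `≤ H/m + 1` multiples of `m`.  `em_abs`: `(m, d) = 1`, the numbers divisible by `m` in the class `u`
form one class modulo `m d`.  `zone_sum`: `x/k < m ≤ (x+H)/k` iff `x < m k ≤ x + H`: for every `m` at most `H` values of `x`.
-/

set_option autoImplicit false

namespace Pool.Agent.H88.PSI

open Finset

private theorem Edg_count (x H r v : ℕ) (hr : 1 ≤ r) :
    |(((Ioc x (x + H)).filter (fun n => n ≡ v [MOD r])).card : ℝ) - H / r| ≤ 1 := by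
  have hr0 : (0 : ℚ) < r := by exact_mod_cast hr
  have h1 := Nat.Ioc_filter_modEq_card x (x + H) (r := r) hr v
  obtain ⟨A, hA⟩ : ∃ A : ℤ, A = ⌊(((x + H : ℕ) : ℚ) - v) / (r : ℚ)⌋ := ⟨_, rfl⟩
  obtain ⟨B, hB⟩ : ∃ B : ℤ, B = ⌊((x : ℚ) - v) / (r : ℚ)⌋ := ⟨_, rfl⟩
  rw [← hA, ← hB] at h1
  have a1 := Int.floor_le ((((x + H : ℕ) : ℚ) - v) / (r : ℚ))
  have a2 := Int.lt_floor_add_one ((((x + H : ℕ) : ℚ) - v) / (r : ℚ))
  have b1 := Int.floor_le (((x : ℚ) - v) / (r : ℚ))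
  have b2 := Int.lt_floor_add_one (((x : ℚ) - v) / (r : ℚ))
  rw [← hA] at a1 a2
  rw [← hB] at b1 b2
  have hsplit : (((x + H : ℕ) : ℚ) - v) / (r : ℚ) = ((x : ℚ) - v) / (r : ℚ) + (H : ℚ) / r := by
    push_cast
    ring
  have hH0 : (0 : ℚ) ≤ (H : ℚ) / r := div_nonneg (Nat.cast_nonneg _) hr0.le
  have hAB : B ≤ A := by
    rw [hA, hB]
    apply Int.floor_le_floor
    rw [hsplit]
    linarith
  rw [max_eq_left (by omega)] at h1
  have h2 : ((((Ioc x (x + H)).filter (fun n => n ≡ v [MOD r])).card : ℕ) : ℚ) = (A : ℚ) - B := by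
    exact_mod_cast h1
  have h3 : |((((Ioc x (x + H)).filter (fun n => n ≡ v [MOD r])).card : ℕ) : ℚ) - (H : ℚ) / r| ≤ 1 := by
    rw [h2, abs_le]
    constructor <;> linarith
  have h4 : ((|((((Ioc x (x + H)).filter (fun n => n ≡ v [MOD r])).card : ℕ) : ℚ) - (H : ℚ) / r| : ℚ) : ℝ) ≤
      ((1 : ℚ) : ℝ) := by exact_mod_cast h3
  push_cast at h4
  exact h4

private theorem Edg_kf (k n : ℕ) : (hi 0 k : ArithmeticFunction ℝ) n = if n ≠ 0 ∧ k ≤ n then 1 else 0 := by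
  show (if n ≠ 0 ∧ k ≤ n then kf 0 n else 0) = _
  unfold kf
  rw [if_pos rfl]

private theorem Edg_conv (a : ArithmeticFunction ℝ) (k n M : ℕ) (hk : 1 ≤ k) (hn : 1 ≤ n)
    (hM : n / k ≤ M) :
    (hi 0 k * a) n = ∑ m ∈ Icc 1 M, if m ∣ n ∧ k * m ≤ n then a m else 0 := by
  rw [ArithmeticFunction.mul_apply,
    Nat.sum_divisorsAntidiagonal' (f := fun p q => (hi 0 k : ArithmeticFunction ℝ) p * a q)]
  have h1 : ∀ m ∈ n.divisors, (hi 0 k : ArithmeticFunction ℝ) (n / m) * a m =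
      if m ∣ n ∧ k * m ≤ n then a m else 0 := by
    intro m hm
    have hmn := Nat.dvd_of_mem_divisors hm
    have hm0 : 0 < m := Nat.pos_of_mem_divisors hm
    have hnm : n / m ≠ 0 := by
      have := Nat.div_pos (Nat.le_of_dvd hn hmn) hm0
      omega
    rw [Edg_kf]
    by_cases h : k * m ≤ n
    · rw [if_pos ⟨hnm, (Nat.le_div_iff_mul_le hm0).mpr h⟩, if_pos ⟨hmn, h⟩, one_mul]
    · rw [if_neg (fun h' => h ((Nat.le_div_iff_mul_le hm0).mp h'.2)), if_neg (fun h' => h h'.2),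
        zero_mul]
  rw [Finset.sum_congr rfl h1, ← Finset.sum_filter, ← Finset.sum_filter]
  refine Finset.sum_congr ?_ fun _ _ => rfl
  ext m
  rw [mem_filter, mem_filter, Nat.mem_divisors, mem_Icc]
  constructor
  · rintro ⟨⟨h2, h3⟩, h4, h5⟩
    refine ⟨⟨Nat.pos_of_dvd_of_pos h2 hn, ?_⟩, h4, h5⟩
    refine le_trans ?_ hM
    rw [Nat.le_div_iff_mul_le hk]
    rw [mul_comm]
    exact h5
  · rintro ⟨_, h4, h5⟩
    exact ⟨⟨h4, by omega⟩, h4, h5⟩

private theorem Edg_coprime {d u m n : ℕ} (hu : Nat.Coprime u d) (hmn : m ∣ n)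
    (hn : n % d = u % d) : Nat.Coprime m d := by
  have h1 : Nat.gcd m d ∣ n := (Nat.gcd_dvd_left m d).trans hmn
  have h2 : Nat.gcd m d ∣ d := Nat.gcd_dvd_right m d
  have h3 : n ≡ u [MOD Nat.gcd m d] := Nat.ModEq.of_dvd h2 hn
  have h4 : Nat.gcd m d ∣ u := (Nat.ModEq.dvd_iff h3 dvd_rfl).mp h1
  have h5 := Nat.dvd_gcd h4 h2
  rw [hu] at h5
  exact Nat.dvd_one.mp h5

private theorem Edg_mult (x H m : ℕ) (hm : 1 ≤ m) :
    (((Ioc x (x + H)).filter (fun n => m ∣ n)).card : ℝ) ≤ (H : ℝ) / m + 1 := by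
  have h1 := (abs_le.mp (Edg_count x H m 0 hm)).2
  have h2 : (Ioc x (x + H)).filter (fun n => n ≡ 0 [MOD m]) =
      (Ioc x (x + H)).filter (fun n => m ∣ n) := by
    refine Finset.filter_congr fun n _ => Nat.modEq_zero_iff_dvd
  rw [h2] at h1
  linarith

theorem ti_edge (a : ArithmeticFunction ℝ) (d u H k x : ℕ) (hd : 1 ≤ d) (hk : 1 ≤ k)
    (hu : Nat.Coprime u d) :
    ‖W (cl d u (hi 0 k * a)) H x
        - ((∑ m ∈ (Icc 1 (x / k)).filter (fun m => Nat.Coprime m d), a m * cnt d u H m x : ℝ) : ℂ)‖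
      ≤ ∑ m ∈ Ioc (x / k) ((x + H) / k), |a m| * ((H : ℝ) / m + 1) := by
  have hxk : x / k ≤ (x + H) / k := Nat.div_le_div_right (Nat.le_add_right _ _)
  -- the counting function with the cut
  obtain ⟨C, hC⟩ : ∃ C : ℕ → ℝ, C = fun m : ℕ => (((Ioc x (x + H)).filter
      (fun n => n % d = u % d ∧ (m ∣ n ∧ k * m ≤ n))).card : ℝ) := ⟨_, rfl⟩
  have hW : W (cl d u (hi 0 k * a)) H x = ((∑ m ∈ Icc 1 ((x + H) / k), a m * C m : ℝ) : ℂ) := by
    have h1 : W (cl d u (hi 0 k * a)) H x =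
        ((∑ n ∈ Ioc x (x + H), if n % d = u % d then (hi 0 k * a) n else 0 : ℝ) : ℂ) := by
      unfold W cl
      push_cast
      refine Finset.sum_congr rfl fun n _ => ?_
      split_ifs
      · rfl
      · simp
    rw [h1]
    congr 1
    have h2 : ∀ n ∈ Ioc x (x + H), (if n % d = u % d then (hi 0 k * a) n else 0) =
        ∑ m ∈ Icc 1 ((x + H) / k), if n % d = u % d ∧ (m ∣ n ∧ k * m ≤ n) then a m else 0 := by
      intro n hn
      rw [mem_Ioc] at hn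
      by_cases h3 : n % d = u % d
      · rw [if_pos h3, Edg_conv a k n ((x + H) / k) hk (by omega) (Nat.div_le_div_right hn.2)]
        refine Finset.sum_congr rfl fun m _ => ?_
        by_cases h4 : m ∣ n ∧ k * m ≤ n
        · rw [if_pos h4, if_pos ⟨h3, h4⟩]
        · rw [if_neg h4, if_neg (fun h5 => h4 h5.2)]
      · rw [if_neg h3]
        symm
        refine Finset.sum_eq_zero fun m _ => ?_
        rw [if_neg (fun h5 => h3 h5.1)]
    rw [Finset.sum_congr rfl h2, Finset.sum_comm]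
    refine Finset.sum_congr rfl fun m _ => ?_
    rw [← Finset.sum_filter, Finset.sum_const, nsmul_eq_mul, hC, mul_comm]
  have hsplit : ∑ m ∈ Icc 1 ((x + H) / k), a m * C m =
      (∑ m ∈ Icc 1 (x / k), a m * C m) + ∑ m ∈ Ioc (x / k) ((x + H) / k), a m * C m := by
    rw [← Finset.sum_union]
    · refine Finset.sum_congr ?_ fun _ _ => rfl
      ext m
      rw [mem_union, mem_Icc, mem_Icc, mem_Ioc]
      generalize x / k = A at hxk ⊢
      generalize (x + H) / k = B at hxk ⊢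
      omega
    · rw [Finset.disjoint_left]
      intro m h1 h2
      rw [mem_Icc] at h1
      rw [mem_Ioc] at h2
      omega
  have hlow : ∑ m ∈ Icc 1 (x / k), a m * C m =
      ∑ m ∈ (Icc 1 (x / k)).filter (fun m => Nat.Coprime m d), a m * cnt d u H m x := by
    rw [Finset.sum_filter]
    refine Finset.sum_congr rfl fun m hm => ?_
    rw [mem_Icc] at hm
    have hkm : k * m ≤ x := by
      have := (Nat.le_div_iff_mul_le hk).mp hm.2
      rw [mul_comm]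
      exact this
    have h1 : (Ioc x (x + H)).filter (fun n => n % d = u % d ∧ (m ∣ n ∧ k * m ≤ n)) =
        (Ioc x (x + H)).filter (fun n => m ∣ n ∧ n % d = u % d) := by
      refine Finset.filter_congr fun n hn => ?_
      rw [mem_Ioc] at hn
      constructor
      · rintro ⟨h2, h3, _⟩
        exact ⟨h3, h2⟩
      · rintro ⟨h2, h3⟩
        exact ⟨h3, h2, by omega⟩
    have h2 : C m = cnt d u H m x := by
      rw [hC]
      unfold cnt
      simp only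
      rw [h1]
    split_ifs with h3
    · rw [h2]
    · have h4 : C m = 0 := by
        rw [h2]
        unfold cnt
        rw [Nat.cast_eq_zero, Finset.card_eq_zero, Finset.filter_eq_empty_iff]
        intro n _ h5
        exact h3 (Edg_coprime hu h5.1 h5.2)
      rw [h4, mul_zero]
  rw [hW, hsplit, hlow, ← Complex.ofReal_sub, add_sub_cancel_left, Complex.norm_real, Real.norm_eq_abs]
  refine (Finset.abs_sum_le_sum_abs _ _).trans (Finset.sum_le_sum fun m hm => ?_)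
  rw [mem_Ioc] at hm
  have hC0 : 0 ≤ C m := by
    rw [hC]
    exact Nat.cast_nonneg _
  rw [abs_mul, abs_of_nonneg hC0]
  refine mul_le_mul_of_nonneg_left ?_ (abs_nonneg _)
  refine le_trans ?_ (Edg_mult x H m (Nat.lt_of_le_of_lt (Nat.zero_le _) hm.1))
  rw [hC]
  simp only
  rw [Nat.cast_le]
  apply Finset.card_le_card
  intro n hn
  rw [mem_filter] at hn ⊢
  exact ⟨hn.1, hn.2.2.1⟩

theorem em_abs (d u H m x : ℕ) (hd : 1 ≤ d) (hm : 1 ≤ m) (h : Nat.Coprime m d) :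
    |em d u H m x| ≤ 1 := by
  obtain ⟨v, hv1, hv2⟩ := Nat.chineseRemainder h 0 u
  have h1 : (Ioc x (x + H)).filter (fun n => m ∣ n ∧ n % d = u % d) =
      (Ioc x (x + H)).filter (fun n => n ≡ v [MOD m * d]) := by
    refine Finset.filter_congr fun n _ => ?_
    rw [← Nat.modEq_and_modEq_iff_modEq_mul h]
    constructor
    · rintro ⟨h2, h3⟩
      exact ⟨(Nat.modEq_zero_iff_dvd.mpr h2).trans hv1.symm, Nat.ModEq.trans h3 hv2.symm⟩
    · rintro ⟨h2, h3⟩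
      exact ⟨Nat.modEq_zero_iff_dvd.mp (h2.trans hv1), h3.trans hv2⟩
  unfold em cnt
  rw [h1]
  have h2 := Edg_count x H (m * d) v (Nat.mul_pos hm hd)
  push_cast at h2
  exact h2

theorem zone_sum (X H k : ℕ) (hk : 1 ≤ k) (hX : 1 ≤ X) (hH : H ≤ X) (b : ℕ → ℝ) (hb : ∀ m, 0 ≤ b m) :
    ∑ x ∈ Ico X (2 * X), ∑ m ∈ Ioc (x / k) ((x + H) / k), b m ≤ H * ∑ m ∈ Icc 1 (3 * X), b m := by
  have h1 : ∀ x ∈ Ico X (2 * X), ∑ m ∈ Ioc (x / k) ((x + H) / k), b m =
      ∑ m ∈ Icc 1 (3 * X), if x < m * k ∧ m * k ≤ x + H then b m else 0 := by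
    intro x hx
    rw [mem_Ico] at hx
    rw [← Finset.sum_filter]
    refine Finset.sum_congr ?_ fun _ _ => rfl
    ext m
    rw [mem_Ioc, mem_filter, mem_Icc, Nat.div_lt_iff_lt_mul hk, Nat.le_div_iff_mul_le hk]
    constructor
    · rintro ⟨h2, h3⟩
      refine ⟨⟨?_, ?_⟩, h2, h3⟩
      · rcases Nat.eq_zero_or_pos m with rfl | h4
        · omega
        · exact h4
      · have : m ≤ m * k := Nat.le_mul_of_pos_right m hk
        omega
    · rintro ⟨_, h2, h3⟩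
      exact ⟨h2, h3⟩
  rw [Finset.sum_congr rfl h1, Finset.sum_comm, Finset.mul_sum]
  refine Finset.sum_le_sum fun m _ => ?_
  rw [← Finset.sum_filter, Finset.sum_const, nsmul_eq_mul]
  refine mul_le_mul_of_nonneg_right ?_ (hb m)
  rw [Nat.cast_le]
  have h2 : (Ico X (2 * X)).filter (fun x => x < m * k ∧ m * k ≤ x + H) ⊆ Ico (m * k - H) (m * k) := by
    intro x hx
    rw [mem_filter] at hx
    rw [mem_Ico]
    omega
  refine (Finset.card_le_card h2).trans ?_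
  rw [Nat.card_Ico]
  omega

/-- the main terms of `cnt` add up to `Bk` -/
theorem bk_eq (a : ℕ → ℝ) (d u H k x : ℕ) (hH : 1 ≤ H) :
    (∑ m ∈ (Icc 1 (x / k)).filter (fun m => Nat.Coprime m d), a m * cnt d u H m x) / H
      - Bk a d k x
      = (∑ m ∈ (Icc 1 (x / k)).filter (fun m => Nat.Coprime m d), a m * em d u H m x) / H := by
  have hH0 : (H : ℝ) ≠ 0 := by
    have : (1 : ℝ) ≤ H := by exact_mod_cast hH
    linarith
  unfold Bk
  rw [Finset.sum_div, Finset.sum_div, Finset.mul_sum, ← Finset.sum_sub_distrib]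
  refine Finset.sum_congr rfl fun m _ => ?_
  unfold em
  have h1 : (H : ℝ) / (m * d) / H = 1 / (m * d) := by
    rw [div_div, mul_comm ((m : ℝ) * d) H, ← div_div, div_self hH0]
  have h2 : a m * (cnt d u H m x - H / (m * d)) / H =
      a m * cnt d u H m x / H - a m * ((H : ℝ) / (m * d) / H) := by ring
  rw [h2, h1]
  ring

end Pool.Agent.H88.PSI

end

section

/-!
# PSI Dy: dyadic decomposition of the truncated products

`lot k y w = ∑_{j < top k y w} pc k j` (every `1 ≤ n < 2^b` lies in exactly one `[2^j, 2^(j+1))`), then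
`Finset.prod_univ_sum`.
-/

set_option autoImplicit false

namespace Pool.Agent.H88.PSI

open Finset

private theorem Dy_seg (k : Fin 3) (b : ℕ) :
    seg k 1 (2 ^ b) = ∑ j ∈ range b, pc k j := by
  induction b with
  | zero =>
    ext n
    rw [Finset.range_zero, Finset.sum_empty, ArithmeticFunction.zero_apply]
    show (if n ≠ 0 ∧ 1 ≤ n ∧ n < 2 ^ 0 then kf k n else 0) = 0
    rw [if_neg]
    rw [pow_zero]
    omega
  | succ b ih =>
    rw [Finset.sum_range_succ, ← ih]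
    ext n
    rw [ArithmeticFunction.add_apply]
    show (if n ≠ 0 ∧ 1 ≤ n ∧ n < 2 ^ (b + 1) then kf k n else 0) =
      (if n ≠ 0 ∧ 1 ≤ n ∧ n < 2 ^ b then kf k n else 0) +
      (if n ≠ 0 ∧ 2 ^ b ≤ n ∧ n < 2 ^ (b + 1) then kf k n else 0)
    have h0 : 0 < 2 ^ b := by positivity
    have h1 : 2 ^ (b + 1) = 2 * 2 ^ b := by ring
    by_cases h : n < 2 ^ b
    · rw [if_neg (show ¬ (n ≠ 0 ∧ 2 ^ b ≤ n ∧ n < 2 ^ (b + 1)) by omega), add_zero]
      by_cases hn : n = 0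
      · rw [if_neg (by omega), if_neg (by omega)]
      · rw [if_pos (by omega), if_pos (by omega)]
    · rw [if_neg (show ¬ (n ≠ 0 ∧ 1 ≤ n ∧ n < 2 ^ b) by omega), zero_add]
      by_cases hn : n < 2 ^ (b + 1)
      · rw [if_pos (by omega), if_pos (by omega)]
      · rw [if_neg (by omega), if_neg (by omega)]

theorem tp_dy {r : ℕ} (κ : Fin r → Fin 3) (y w : ℕ) :
    Tp κ y w = ∑ j ∈ Fintype.piFinset (fun i => range (top (κ i) y w)), Pp κ j := by
  unfold Tp Pp lot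
  simp only [Dy_seg]
  exact Finset.prod_univ_sum _ _

end Pool.Agent.H88.PSI

end

section

/-!
# PSI BoxD: boxes of factors (definition) and trivial bounds
-/

set_option autoImplicit false

namespace Pool.Agent.H88.PSI

open Finset MeasureTheory

/-- `r ≤ 6` factors `g i` supported on `[N i, 2 N i)`, bounded by `2 log X`, `N i ≤ X^(11/24)`, `∏ N i ≤ 3 X` -/
structure Box (X : ℕ) {r : ℕ} (N : Fin r → ℕ) (g : Fin r → ArithmeticFunction ℂ) : Prop where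
  hr : r ≤ 6
  one : ∀ i, 1 ≤ N i
  top : ∀ i, (N i : ℝ) ≤ (X : ℝ) ^ (11 / 24 : ℝ)
  prod : ∏ i, N i ≤ 3 * X
  supp : ∀ i n, g i n ≠ 0 → N i ≤ n ∧ n < 2 * N i
  bd : ∀ i n, ‖g i n‖ ≤ 2 * Real.log X

/-- the absolute value of the Dirichlet polynomial of the box -/
noncomputable def FF {r : ℕ} (N : Fin r → ℕ) (g : Fin r → ArithmeticFunction ℂ) (t : ℝ) : ℝ :=
  ∏ i, ‖DP (g i) (2 * N i) t‖

theorem ff_cont {r : ℕ} (N : Fin r → ℕ) (g : Fin r → ArithmeticFunction ℂ) :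
    Continuous (FF N g) := by
  unfold FF
  exact continuous_finsetProd _ fun i _ => (dp_cont _ _).norm

theorem ff_nonneg {r : ℕ} (N : Fin r → ℕ) (g : Fin r → ArithmeticFunction ℂ) (t : ℝ) :
    0 ≤ FF N g t := by
  unfold FF
  exact Finset.prod_nonneg fun i _ => norm_nonneg _

/-- the trivial bound for one factor -/
theorem box_tr {X r : ℕ} {N : Fin r → ℕ} {g : Fin r → ArithmeticFunction ℂ} (h : Box X N g)
    (i : Fin r) (t : ℝ) : ‖DP (g i) (2 * N i) t‖ ≤ 2 * Real.log X * N i := by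
  have hL : 0 ≤ 2 * Real.log X := (norm_nonneg _).trans (h.bd i 1)
  refine (dp_norm_le _ _ t).trans ?_
  have h1 : ∑ n ∈ Icc 1 (2 * N i), ‖g i n‖ = ∑ n ∈ Ico (N i) (2 * N i), ‖g i n‖ := by
    symm
    apply sum_subset
    · intro n hn
      have h2 := mem_Ico.mp hn
      have h3 := h.one i
      exact mem_Icc.mpr ⟨by omega, by omega⟩
    · intro n _ hn
      by_contra h0
      have h4 : g i n ≠ 0 := fun h5 => h0 (by rw [h5, norm_zero])
      exact hn (mem_Ico.mpr (h.supp i n h4))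
  rw [h1]
  calc ∑ n ∈ Ico (N i) (2 * N i), ‖g i n‖ ≤ ∑ n ∈ Ico (N i) (2 * N i), 2 * Real.log X :=
        sum_le_sum fun n _ => h.bd i n
    _ = 2 * Real.log X * N i := by
        rw [sum_const, Nat.card_Ico, nsmul_eq_mul, mul_comm]
        congr 1
        have : 2 * N i - N i = N i := by omega
        rw [this]

end Pool.Agent.H88.PSI

end

section

/-!
# PSI Cov: if the product is large, some factor is large

Otherwise every `i` has `v i ≤ 2 L X^(κ/24) (N i)^(s-κ)` (if `N i < X^(κ/24)` by `v i ≤ 2 L N i` and `(N i)^(s-κ) ≥ 1`; if not by `v i < (N i)^(s-κ)`), so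
`∏ v i ≤ (2 L)^6 X^(κ/4) (3 X)^(s-κ) ≤ 9 (2 L)^6 X^(s-3κ/4) ≤ X^(s-κ/4)` (`r ≤ 6`; factors `2 L X^(κ/24) ≥ 1`), a contradiction.
-/

set_option autoImplicit false

namespace Pool.Agent.H88.PSI

open Finset

private theorem Cov_large {κ : ℝ} (hκ : 0 < κ) : ∃ X0 : ℕ, ∀ X : ℕ, X0 ≤ X →
    3 * (2 * Real.log X) ^ 6 ≤ (X : ℝ) ^ (κ / 2) := by
  have h1 := (isLittleO_log_rpow_rpow_atTop (6 : ℝ) (by positivity : 0 < κ / 2)).bound
    (by norm_num : (0 : ℝ) < 1 / 192)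
  have h2 : ∀ᶠ X : ℕ in Filter.atTop, ‖Real.log (X : ℝ) ^ (6 : ℝ)‖ ≤
      1 / 192 * ‖(X : ℝ) ^ (κ / 2)‖ := tendsto_natCast_atTop_atTop.eventually h1
  obtain ⟨X0, hX0⟩ := Filter.eventually_atTop.mp (h2.and (Filter.eventually_ge_atTop 1))
  refine ⟨X0, fun X hX => ?_⟩
  obtain ⟨h3, h4⟩ := hX0 X hX
  have h5 : (0 : ℝ) ≤ (X : ℝ) ^ (κ / 2) := Real.rpow_nonneg (Nat.cast_nonneg _) _
  rw [Real.norm_of_nonneg h5] at h3
  have h6 : Real.log (X : ℝ) ^ (6 : ℝ) = Real.log (X : ℝ) ^ 6 := by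
    rw [← Real.rpow_natCast]
    norm_num
  rw [h6] at h3
  have h7 := (le_abs_self _).trans h3
  have h8 : 3 * (2 * Real.log (X : ℝ)) ^ 6 = 192 * Real.log (X : ℝ) ^ 6 := by ring
  rw [h8]
  linarith

theorem cov (κ : ℝ) (hκ : 0 < κ) (hκ' : κ ≤ 1 / 4) : ∃ X0 : ℕ, ∀ X : ℕ, X0 ≤ X →
    ∀ (r : ℕ) (N : Fin r → ℕ) (v : Fin r → ℝ) (s : ℝ), r ≤ 6 → (∀ i, 1 ≤ N i) →
    ∏ i, N i ≤ 3 * X → (∀ i, 0 ≤ v i) → (∀ i, v i ≤ 2 * Real.log X * N i) → 1 / 2 ≤ s →
    s ≤ 1 + κ → (X : ℝ) ^ (s - κ / 4) < ∏ i, v i →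
    ∃ i, (X : ℝ) ^ (κ / 24) ≤ N i ∧ (N i : ℝ) ^ (s - κ) ≤ v i := by
  obtain ⟨X0, hX0⟩ := Cov_large hκ
  refine ⟨max X0 2, fun X hX r N v s hr hN hprod hv0 hv hs hs' hbig => ?_⟩
  have hlarge := hX0 X ((le_max_left _ _).trans hX)
  have hX2 : 2 ≤ X := (le_max_right _ _).trans hX
  have hXr : (2 : ℝ) ≤ X := by exact_mod_cast hX2
  have hX0' : (0 : ℝ) < X := by linarith
  have hL : 1 ≤ 2 * Real.log X := by
    have h1 : Real.log 2 ≤ Real.log X := Real.log_le_log (by norm_num) hXr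
    have h2 := Real.log_two_gt_d9
    linarith
  have he : 0 ≤ s - κ := by linarith
  have hXk : 1 ≤ (X : ℝ) ^ (κ / 24) := Real.one_le_rpow (by linarith) (by positivity)
  by_contra hcon
  push Not at hcon
  obtain ⟨B, hB⟩ : ∃ B, B = 2 * Real.log X * (X : ℝ) ^ (κ / 24) := ⟨_, rfl⟩
  have hB1 : 1 ≤ B := by
    rw [hB]
    exact one_le_mul_of_one_le_of_one_le hL hXk
  have hNe : ∀ i, 1 ≤ (N i : ℝ) ^ (s - κ) := fun i =>
    Real.one_le_rpow (by exact_mod_cast hN i) he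
  have key : ∀ i, v i ≤ B * (N i : ℝ) ^ (s - κ) := by
    intro i
    rcases lt_or_ge (N i : ℝ) ((X : ℝ) ^ (κ / 24)) with h1 | h1
    · have h2 : v i ≤ B := by
        refine (hv i).trans ?_
        rw [hB]
        exact mul_le_mul_of_nonneg_left h1.le (by linarith)
      have h3 : B ≤ B * (N i : ℝ) ^ (s - κ) := le_mul_of_one_le_right (by linarith) (hNe i)
      exact h2.trans h3
    · have h2 := (hcon i h1).le
      have h3 : (N i : ℝ) ^ (s - κ) ≤ B * (N i : ℝ) ^ (s - κ) :=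
        le_mul_of_one_le_left (by linarith [hNe i]) hB1
      exact h2.trans h3
  have h1 : ∏ i, v i ≤ B ^ 6 * (3 * (X : ℝ)) ^ (s - κ) := by
    refine (Finset.prod_le_prod (fun i _ => hv0 i) fun i _ => key i).trans ?_
    rw [Finset.prod_mul_distrib, Finset.prod_const, Finset.card_univ, Fintype.card_fin]
    refine mul_le_mul (pow_le_pow_right₀ hB1 hr) ?_
      (Finset.prod_nonneg fun i _ => by linarith [hNe i]) (by positivity)
    rw [Real.finsetProd_rpow _ _ fun i _ => Nat.cast_nonneg _]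
    refine Real.rpow_le_rpow (Finset.prod_nonneg fun i _ => Nat.cast_nonneg _) ?_ he
    exact_mod_cast hprod
  have h2 : (3 * (X : ℝ)) ^ (s - κ) ≤ 3 * (X : ℝ) ^ (s - κ) := by
    rw [Real.mul_rpow (by norm_num) hX0'.le]
    refine mul_le_mul_of_nonneg_right ?_ (Real.rpow_nonneg hX0'.le _)
    calc (3 : ℝ) ^ (s - κ) ≤ (3 : ℝ) ^ (1 : ℝ) :=
          Real.rpow_le_rpow_of_exponent_le (by norm_num) (by linarith)
      _ = 3 := Real.rpow_one 3
  have h3 : B ^ 6 = (2 * Real.log X) ^ 6 * (X : ℝ) ^ (κ / 4) := by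
    rw [hB, mul_pow, ← Real.rpow_natCast ((X : ℝ) ^ (κ / 24)) 6, ← Real.rpow_mul hX0'.le]
    congr 2
    push_cast
    ring
  have h4 : B ^ 6 * (3 * (X : ℝ) ^ (s - κ)) ≤ (X : ℝ) ^ (s - κ / 4) := by
    have e1 : B ^ 6 * (3 * (X : ℝ) ^ (s - κ)) =
        3 * (2 * Real.log X) ^ 6 * ((X : ℝ) ^ (κ / 4) * (X : ℝ) ^ (s - κ)) := by
      rw [h3]
      ring
    have e2 : (X : ℝ) ^ (s - κ / 4) = (X : ℝ) ^ (κ / 2) * ((X : ℝ) ^ (κ / 4) * (X : ℝ) ^ (s - κ)) := by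
      rw [← Real.rpow_add hX0', ← Real.rpow_add hX0']
      congr 1
      ring
    rw [e1, e2]
    exact mul_le_mul_of_nonneg_right hlarge
      (mul_nonneg (Real.rpow_nonneg hX0'.le _) (Real.rpow_nonneg hX0'.le _))
  have h5 : B ^ 6 * (3 * (X : ℝ)) ^ (s - κ) ≤ B ^ 6 * (3 * (X : ℝ) ^ (s - κ)) :=
    mul_le_mul_of_nonneg_left h2 (by positivity)
  linarith

end Pool.Agent.H88.PSI

end

section

/-!
# TPS DefsF: twisted Siegel-Walfisz condition for a general coefficient function `f` on `(N/(16P), 12N/P]`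
-/

set_option autoImplicit false

namespace Pool.Agent.H53.TPS

open Finset
open Pool.Agent.H91.PK (ee)

/-- all twisted sums of `f` over `(N/(16P), 12N/P]` with small denominators and small `t` are small -/
def SWf (f : ℕ → ℝ) (N P C' m k : ℕ) : Prop := ∀ (c b : ℕ) (t : ℝ), 1 ≤ c → (c : ℝ) ≤ Real.log N ^ C' → |t| ≤ Real.log N ^ m →
  ‖∑ n ∈ Ioc (N / (16 * P)) (12 * N / P), (f n : ℂ) * ee (-((n : ℝ) * ((b : ℝ) / c))) * ee (-(t * Real.log n))‖
    ≤ (N / P : ℝ) / Real.log N ^ k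

end Pool.Agent.H53.TPS

end

section

/-!
# PROJECT TI (MP_967f73_nt): type I sums beyond the length of the window: definitions

`Phi P w m = ∑_{p ∈ pb P} w(p) (1[p ∣ m] - 1/p)`, `|w| ≤ 1`.  Theorem (`Blk.lean`): if `P^4 N^e ≤ N H`, `H ≤ P^2`, `H^2 ≤ N`, then for all
but `N^(1-δ)/H` blocks `I = [iH, (i+1)H)`: `sup_α |∑_{m ∈ I} Phi(m) ee(-m α)| ≤ H N^(-δ)`.

* `FR P`: the pairs `(p, u)`, `p ∈ pb P`, `0 < u < p`; `xf (p, u) = u/p` (any two of these fractions are distinct modulo 1, with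
  distance `nz ≥ 1/(4P²)`);
* `fej K β = |∑_{t<K} ee(tβ)|²/K = ∑_{|t|<K} (1 - |t|/K) ee(tβ) ≥ 0`: the Fejér kernel;
* `SF P K w α x = ∑_{(p,u)} (w(p)/p) fej K (u/p - α) ee(x u/p) = ∑_{|t|<K} (1 - |t|/K) Phi(x+t) ee(-tα)`;
* `Wk K r = min(K, 1/(K r²))`;
* `T4 P K J X = ∑_{q1,q2,q3,q4 ∈ FR} (∑_{j<J} ∏_i fej K (x_i - j/J)) fej X (x1 + x2 - x3 - x4)`, `x_i = xf q_i`.
-/

set_option autoImplicit false

namespace Pool.Agent.H56.TI

open Finset
open Pool.Agent.H91.PK (ee)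
open Pool.Agent.H35.W (pb)

/-- `∑_{p ∈ pb P} w(p) (1[p ∣ m] - 1/p)` -/
noncomputable def Phi (P : ℕ) (w : ℕ → ℝ) (m : ℕ) : ℝ :=
  ∑ p ∈ pb P, w p * ((if p ∣ m then 1 else 0) - 1 / (p : ℝ))

/-- the pairs `(p, u)`, `p ∈ pb P`, `0 < u < p` -/
def FR (P : ℕ) : Finset (ℕ × ℕ) := ((pb P) ×ˢ (Icc 1 (2 * P))).filter (fun q => q.2 < q.1)

/-- the fraction `u/p` -/
noncomputable def xf (q : ℕ × ℕ) : ℝ := (q.2 : ℝ) / (q.1 : ℝ)

/-- the Fejér kernel -/
noncomputable def fej (K : ℕ) (β : ℝ) : ℝ := ‖∑ t ∈ range K, ee (t * β)‖ ^ 2 / K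

/-- the triangular sum around `x`, frequency representation -/
noncomputable def SF (P K : ℕ) (w : ℕ → ℝ) (α : ℝ) (x : ℤ) : ℂ :=
  ∑ q ∈ FR P, ((w q.1 / q.1 * fej K (xf q - α) : ℝ) : ℂ) * ee (x * xf q)

/-- `min(K, 1/(K r^2))` -/
noncomputable def Wk (K : ℕ) (r : ℝ) : ℝ := if K * r ≤ 1 then (K : ℝ) else 1 / (K * r ^ 2)

/-- the product of the four kernels, summed over the grid -/
noncomputable def Tj (K J : ℕ) (q1 q2 q3 q4 : ℕ × ℕ) : ℝ :=
  ∑ j ∈ range J, fej K (xf q1 - j / J) * fej K (xf q2 - j / J) * fej K (xf q3 - j / J) * fej K (xf q4 - j / J)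

/-- the majorant of the fourth moment -/
noncomputable def T4 (P K J X : ℕ) : ℝ :=
  ∑ q1 ∈ FR P, ∑ q2 ∈ FR P, ∑ q3 ∈ FR P, ∑ q4 ∈ FR P,
    Tj K J q1 q2 q3 q4 * fej X (xf q1 + xf q2 - xf q3 - xf q4)

end Pool.Agent.H56.TI

end

section

set_option autoImplicit false

namespace Pool.Agent.H56.TI

open Finset
open Pool.Agent.H91.PK (ee)
open Pool.Agent.H35.W (pb)
open Pool.Agent.H53.MID (nz)

private theorem ee_add' (s t : ℝ) : ee (s + t) = ee s * ee t := by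
  unfold ee
  rw [← Complex.exp_add]
  congr 1
  push_cast
  ring

private theorem ee_intc (j : ℤ) : ee j = 1 := by
  unfold ee
  rw [Complex.exp_eq_one_iff]
  exact ⟨j, by push_cast; ring⟩

private theorem norm_ee' (t : ℝ) : ‖ee t‖ = 1 := by
  unfold ee
  have h : (2 * (Real.pi : ℂ) * (t : ℂ) * Complex.I) = ((2 * Real.pi * t : ℝ) : ℂ) * Complex.I := by
    push_cast; ring
  rw [h]
  exact Complex.norm_exp_ofReal_mul_I _

private theorem conj_ee (t : ℝ) : (starRingEnd ℂ) (ee t) = ee (-t) := by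
  unfold ee
  rw [← Complex.exp_conj]
  congr 1
  simp only [map_mul, Complex.conj_ofReal, Complex.conj_I, map_ofNat]
  push_cast
  ring

theorem fej_nonneg (K : ℕ) (β : ℝ) : 0 ≤ fej K β := by
  unfold fej
  positivity

private theorem norm_S_le (K : ℕ) (β : ℝ) : ‖∑ t ∈ range K, ee (t * β)‖ ≤ K := by
  refine (norm_sum_le _ _).trans ?_
  simp [norm_ee']

theorem fej_le (K : ℕ) (β : ℝ) : fej K β ≤ K := by
  unfold fej
  rcases Nat.eq_zero_or_pos K with hK | hK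
  · subst hK; simp
  · have hK' : (0 : ℝ) < K := by exact_mod_cast hK
    rw [div_le_iff₀ hK']
    have h := norm_S_le K β
    nlinarith [norm_nonneg (∑ t ∈ range K, ee (t * β))]

theorem fej_int (K : ℕ) (β : ℝ) (n : ℤ) : fej K (β + n) = fej K β := by
  unfold fej
  congr 3
  refine sum_congr rfl fun t _ => ?_
  have h : (t : ℝ) * (β + n) = t * β + ((t * n : ℤ) : ℝ) := by push_cast; ring
  rw [h, ee_add', ee_intc, mul_one]

private theorem ee_sub_one_ge (β : ℝ) : 4 * nz β ≤ ‖ee β - 1‖ := by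
  have h0 : ee β = ee (β - round β) := by
    have := ee_add' (β - round β) (round β)
    rw [ee_intc, mul_one] at this
    rw [← this]
    congr 1
    ring
  rw [h0]
  have h1 : ee (β - round β) = Complex.exp (Complex.I * ((2 * Real.pi * (β - round β) : ℝ) : ℂ)) := by
    unfold ee
    congr 1
    push_cast
    ring
  rw [h1, Complex.norm_exp_I_mul_ofReal_sub_one]
  have h2 : 2 * Real.pi * (β - round β) / 2 = Real.pi * (β - round β) := by ring
  rw [h2, norm_mul, Real.norm_eq_abs, Real.norm_eq_abs]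
  have hpi := Real.pi_pos
  have h3 : |Real.pi * (β - round β)| = Real.pi * nz β := by
    unfold nz
    rw [abs_mul, abs_of_pos hpi]
  have h4 : |Real.pi * (β - round β)| ≤ Real.pi / 2 := by
    rw [h3]
    have := abs_sub_round β
    unfold nz
    nlinarith
  have h5 := Real.mul_abs_le_abs_sin h4
  rw [h3] at h5
  have h6 : 2 / Real.pi * (Real.pi * nz β) = 2 * nz β := by
    field_simp
  rw [h6] at h5
  rw [abs_of_pos (by norm_num : (0 : ℝ) < 2)]
  linarith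

private theorem geo (K : ℕ) (β : ℝ) : (∑ t ∈ range K, ee (t * β)) * (ee β - 1) = ee (K * β) - 1 := by
  have h : ∀ t : ℕ, ee (t * β) = ee β ^ t := by
    intro t
    unfold ee
    rw [← Complex.exp_nat_mul]
    congr 1
    push_cast
    ring
  rw [sum_congr rfl fun t _ => h t, h K]
  exact geom_sum_mul _ _

theorem fej_nz (K : ℕ) (hK : 1 ≤ K) (β : ℝ) : 4 * K * nz β ^ 2 * fej K β ≤ 1 := by
  have hK' : (0 : ℝ) < K := by exact_mod_cast hK
  unfold fej
  set S := ∑ t ∈ range K, ee (t * β) with hS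
  have h1 : ‖S‖ * ‖ee β - 1‖ ≤ 2 := by
    rw [← norm_mul, hS, geo]
    refine (norm_sub_le _ _).trans ?_
    rw [norm_ee', norm_one]
    norm_num
  have h2 := ee_sub_one_ge β
  have h0 : 0 ≤ nz β := abs_nonneg _
  have h3 : ‖S‖ * (4 * nz β) ≤ 2 := le_trans (mul_le_mul_of_nonneg_left h2 (norm_nonneg _)) h1
  have h4 : 2 * nz β * ‖S‖ ≤ 1 := by linarith
  have h5 : 0 ≤ 2 * nz β * ‖S‖ := by positivity
  have h6 : 4 * K * nz β ^ 2 * (‖S‖ ^ 2 / K) = (2 * nz β * ‖S‖) ^ 2 := by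
    field_simp
    ring
  rw [h6]
  nlinarith

theorem wk_nonneg (K : ℕ) (r : ℝ) : 0 ≤ Wk K r := by
  unfold Wk
  split_ifs <;> positivity

theorem fej_le_W (K : ℕ) (hK : 1 ≤ K) (β : ℝ) : fej K β ≤ Wk K (nz β) := by
  unfold Wk
  split_ifs with h
  · exact fej_le K β
  · push Not at h
    have hK' : (1 : ℝ) ≤ K := by exact_mod_cast hK
    have hn : 0 ≤ nz β := abs_nonneg _
    have h1 : 0 < nz β := by
      rcases hn.eq_or_lt with h0 | h0
      · rw [← h0] at h; linarith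
      · exact h0
    rw [le_div_iff₀ (by positivity)]
    have h2 := fej_nz K hK β
    have h3 := fej_nonneg K β
    have h4 : 0 ≤ fej K β * (K * nz β ^ 2) := by positivity
    nlinarith

/-- the number of pairs with a given difference -/
private theorem card_diff (K : ℕ) (d : ℤ) (hd : d ∈ Ioo (-(K : ℤ)) K) :
    (((range K ×ˢ range K).filter (fun q : ℕ × ℕ => (q.1 : ℤ) - q.2 = d)).card : ℤ) = K - |d| := by
  rw [mem_Ioo] at hd
  have h : ((range K ×ˢ range K).filter (fun q : ℕ × ℕ => (q.1 : ℤ) - q.2 = d)) =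
      (range (K - d.natAbs)).image (fun t => (t + d.toNat, t + (-d).toNat)) := by
    ext ⟨a, b⟩
    simp only [mem_filter, mem_product, mem_range, mem_image, Prod.mk.injEq]
    constructor
    · rintro ⟨⟨ha, hb⟩, hab⟩
      refine ⟨min a b, ?_, ?_, ?_⟩ <;> omega
    · rintro ⟨t, ht, h1, h2⟩
      omega
  rw [h, card_image_of_injective, card_range]
  · rw [Int.abs_eq_natAbs]
    omega
  · intro s t hst
    simp only [Prod.mk.injEq] at hst
    omega

private theorem sum_diff (K : ℕ) (f : ℤ → ℂ) :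
    ∑ s ∈ range K, ∑ t ∈ range K, f ((s : ℤ) - t) =
      ∑ d ∈ Ioo (-(K : ℤ)) K, ((K : ℂ) - ((|d| : ℤ) : ℂ)) * f d := by
  rw [← sum_product' (f := fun s t : ℕ => f ((s : ℤ) - t))]
  have hm : ∀ q ∈ range K ×ˢ range K, (fun q : ℕ × ℕ => (q.1 : ℤ) - q.2) q ∈ Ioo (-(K : ℤ)) K := by
    rintro ⟨a, b⟩ hq
    simp only [mem_product, mem_range] at hq
    simp only [mem_Ioo]
    omega
  rw [← sum_fiberwise_of_maps_to hm]
  refine sum_congr rfl fun d hd => ?_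
  have h1 : ∀ q ∈ (range K ×ˢ range K).filter (fun q : ℕ × ℕ => (q.1 : ℤ) - q.2 = d),
      f ((q.1 : ℤ) - q.2) = f d := by
    intro q hq
    rw [(mem_filter.1 hq).2]
  rw [sum_congr rfl h1, sum_const, nsmul_eq_mul]
  congr 1
  have := card_diff K d hd
  exact_mod_cast this

private theorem fej_sq (K : ℕ) (β : ℝ) :
    ((‖∑ t ∈ range K, ee (t * β)‖ ^ 2 : ℝ) : ℂ) =
      ∑ s ∈ range K, ∑ t ∈ range K, ee ((((s : ℤ) - t : ℤ) : ℝ) * β) := by
  have h : ((‖∑ t ∈ range K, ee (t * β)‖ ^ 2 : ℝ) : ℂ) =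
      (∑ t ∈ range K, ee (t * β)) * (starRingEnd ℂ) (∑ t ∈ range K, ee (t * β)) := by
    rw [Complex.mul_conj, Complex.normSq_eq_norm_sq]
  rw [h, map_sum, sum_mul_sum]
  refine sum_congr rfl fun s _ => sum_congr rfl fun t _ => ?_
  rw [conj_ee, ← ee_add']
  congr 1
  push_cast
  ring

theorem fej_exp (K : ℕ) (hK : 1 ≤ K) (β : ℝ) :
    ((fej K β : ℝ) : ℂ) = ∑ t ∈ Ioo (-(K : ℤ)) K, ((1 - |(t : ℝ)| / K : ℝ) : ℂ) * ee (t * β) := by
  have hK' : (K : ℂ) ≠ 0 := by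
    have : K ≠ 0 := by omega
    exact_mod_cast this
  unfold fej
  rw [Complex.ofReal_div, fej_sq, sum_diff K (fun d => ee ((d : ℝ) * β)), Complex.ofReal_natCast,
    sum_div]
  refine sum_congr rfl fun d _ => ?_
  have e : ((|d| : ℤ) : ℂ) = ((|(d : ℝ)| : ℝ) : ℂ) := by
    rw [← Int.cast_abs, Complex.ofReal_intCast]
  rw [e, Complex.ofReal_sub, Complex.ofReal_div, Complex.ofReal_one, Complex.ofReal_natCast]
  field_simp

private theorem grid_char (J : ℕ) (d : ℤ) (hd : |d| < J) :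
    ∑ j ∈ range J, ee (-(d * (j / J : ℝ))) = if d = 0 then (J : ℂ) else 0 := by
  split_ifs with h0
  · subst h0
    simp [ee]
  · have hJ0 : 0 < J := by
      have := abs_nonneg d
      omega
    have hJ : (J : ℝ) ≠ 0 := by
      have : J ≠ 0 := by omega
      exact_mod_cast this
    have h1 := geo J (-((d : ℝ) / J))
    have h2 : (J : ℝ) * (-((d : ℝ) / J)) = ((-d : ℤ) : ℝ) := by
      push_cast
      field_simp
    rw [h2, ee_intc, sub_self] at h1
    have h3 : ee (-((d : ℝ) / J)) - 1 ≠ 0 := by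
      intro h
      have h4 := ee_sub_one_ge (-((d : ℝ) / J))
      rw [h, norm_zero, Pool.Agent.H53.MID.nz_neg] at h4
      have h5 := Pool.Agent.H53.MID.nz_frac_ge d J hJ0 (by
        intro hdv
        have := Int.le_of_dvd (abs_pos.2 h0) ((dvd_abs _ _).2 hdv)
        omega)
      have h6 : (0 : ℝ) < 1 / (J : ℝ) := by positivity
      linarith
    have h4 := (mul_eq_zero.1 h1).resolve_right h3
    rw [← h4]
    refine sum_congr rfl fun j _ => ?_
    congr 1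
    ring

theorem fej_grid (K J : ℕ) (hK : 1 ≤ K) (hJ : K ≤ J) (β : ℝ) :
    ∑ j ∈ range J, fej K (β - j / J) = J := by
  have hK' : (K : ℂ) ≠ 0 := by
    have : K ≠ 0 := by omega
    exact_mod_cast this
  have h : ((∑ j ∈ range J, fej K (β - j / J) : ℝ) : ℂ) = ((J : ℝ) : ℂ) := by
    rw [Complex.ofReal_sum]
    simp_rw [fej_exp K hK]
    rw [sum_comm]
    have h1 : ∀ d ∈ Ioo (-(K : ℤ)) K,
        ∑ j ∈ range J, ((1 - |(d : ℝ)| / K : ℝ) : ℂ) * ee (d * (β - j / J)) =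
          if d = 0 then (J : ℂ) else 0 := by
      intro d hd
      rw [mem_Ioo] at hd
      have hd' : |d| < J := by
        rw [abs_lt]
        omega
      rw [← mul_sum]
      have h2 : ∀ j ∈ range J, ee (d * (β - j / J)) = ee (d * β) * ee (-(d * (j / J : ℝ))) := by
        intro j _
        rw [← ee_add']
        congr 1
        ring
      rw [sum_congr rfl h2, ← mul_sum, grid_char J d hd']
      split_ifs with h0
      · subst h0
        simp [ee]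
      · simp
    rw [sum_congr rfl h1, sum_ite_eq', if_pos]
    · simp
    · rw [mem_Ioo]; omega
  exact_mod_cast h

theorem fej_grid2 (K J : ℕ) (hK : 1 ≤ K) (hJ : K ≤ J) (β β' : ℝ) :
    ∑ j ∈ range J, fej K (β - j / J) * fej K (β' - j / J) ≤ 2 * J * Wk K (nz (β - β')) := by
  have hK' : (1 : ℝ) ≤ K := by exact_mod_cast hK
  set r := nz (β - β') with hr
  have hr0 : 0 ≤ r := abs_nonneg _
  have hfar : ∀ γ : ℝ, r / 2 ≤ nz γ → fej K γ ≤ Wk K r := by
    intro γ hγ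
    unfold Wk
    split_ifs with h
    · exact fej_le K γ
    · push Not at h
      have h1 : 0 < r := by
        rcases hr0.eq_or_lt with h0 | h0
        · rw [← h0] at h; linarith
        · exact h0
      rw [le_div_iff₀ (by positivity)]
      have h2 := fej_nz K hK γ
      have h3 := fej_nonneg K γ
      have h4 : r ^ 2 ≤ 4 * nz γ ^ 2 := by nlinarith
      calc fej K γ * (K * r ^ 2) ≤ fej K γ * (K * (4 * nz γ ^ 2)) := by
            apply mul_le_mul_of_nonneg_left _ h3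
            apply mul_le_mul_of_nonneg_left h4 (by linarith)
        _ = 4 * K * nz γ ^ 2 * fej K γ := by ring
        _ ≤ 1 := h2
  have hW := wk_nonneg K r
  have hterm : ∀ j ∈ range J, fej K (β - j / J) * fej K (β' - j / J) ≤
      Wk K r * fej K (β - j / J) + Wk K r * fej K (β' - j / J) := by
    intro j _
    have h1 := fej_nonneg K (β - j / J)
    have h2 := fej_nonneg K (β' - j / J)
    have h3 : r ≤ nz (β - j / J) + nz (β' - j / J) := by
      have := Pool.Agent.H53.MID.nz_sub (β - j / J) (β' - j / J)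
      have e : β - (j : ℝ) / J - (β' - j / J) = β - β' := by ring
      rw [e] at this
      exact this
    rcases le_total (r / 2) (nz (β - j / J)) with h | h
    · have h4 := hfar _ h
      have h5 := mul_le_mul_of_nonneg_right h4 h2
      have h6 : 0 ≤ Wk K r * fej K (β - j / J) := mul_nonneg hW h1
      linarith
    · have h4 := hfar (β' - j / J) (by linarith)
      have h5 := mul_le_mul_of_nonneg_left h4 h1
      have h6 : 0 ≤ Wk K r * fej K (β' - j / J) := mul_nonneg hW h2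
      linarith
  refine (sum_le_sum hterm).trans (le_of_eq ?_)
  rw [sum_add_distrib, ← mul_sum, ← mul_sum, fej_grid K J hK hJ, fej_grid K J hK hJ]
  ring

end Pool.Agent.H56.TI

end

section

/-!
# TI Spc: the fractions `u/p` are well spaced

* `fr_ne`: for `q ≠ q'` in `FR P`: `xf q - xf q' = (u p' - u' p)/(p p')` is not an integer (if `p ≠ p'`: `p ∤ u p'`; if `p = p'`: `0 < |u - u'| < p`), so `nz (xf q - xf q') ≥ 1/(p p') ≥ 1/(4P²)`.
* hence for every real `β` and `r ≥ 0`: `#{q ∈ FR P : nz(β - xf q) ≤ r} ≤ 8 P² r + 2` (points on the circle; see the sums over well spaced points in `H53/MID/OmW.lean`).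
* `spc_wk`: dyadically: `∑_q Wk K (nz(β - xf q)) ≤ ∑_{s ≥ 0} 4 K 4^(-s) #{q : nz ≤ 2^s/K} ≤ ∑_s 4 K 4^(-s) (8 P² 2^s/K + 2) ≤ 64 P² + 11 K ≤ 100 P²` for `K ≤ P²`.
* `spc_fej`: the same with `K = X`: `≤ 64 P² + 11 X ≤ 100 X` for `P² ≤ X` (`fej_le_W`).
-/

set_option autoImplicit false

namespace Pool.Agent.H56.TI

open Finset
open Pool.Agent.H91.PK (ee)
open Pool.Agent.H35.W (pb)
open Pool.Agent.H53.MID (nz)

theorem fr_card (P : ℕ) : (FR P).card ≤ 2 * P ^ 2 := by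
  have h1 : (FR P).card ≤ ((pb P) ×ˢ (Icc 1 (2 * P))).card := Finset.card_filter_le _ _
  have h2 : (pb P).card ≤ (Ioc P (2 * P)).card := Finset.card_filter_le _ _
  rw [Finset.card_product, Nat.card_Icc] at h1
  rw [Nat.card_Ioc] at h2
  have h3 : 2 * P - P = P := by omega
  have h4 : 2 * P + 1 - 1 = 2 * P := by omega
  rw [h3] at h2
  rw [h4] at h1
  calc (FR P).card ≤ (pb P).card * (2 * P) := h1
    _ ≤ P * (2 * P) := Nat.mul_le_mul_right _ h2
    _ = 2 * P ^ 2 := by ring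

theorem fr_ne (P : ℕ) (q q' : ℕ × ℕ) (hq : q ∈ FR P) (hq' : q' ∈ FR P) (h : q ≠ q') :
    1 / (4 * (P : ℝ) ^ 2) ≤ nz (xf q - xf q') := by
  obtain ⟨p, u⟩ := q
  obtain ⟨p', u'⟩ := q'
  simp only [FR, pb, Finset.mem_filter, Finset.mem_product, Finset.mem_Icc, Finset.mem_Ioc] at hq hq'
  obtain ⟨⟨⟨⟨hp1, hp2⟩, hp⟩, hu1, -⟩, hup⟩ := hq
  obtain ⟨⟨⟨⟨hp1', hp2'⟩, hp'⟩, hu1', -⟩, hup'⟩ := hq'
  have hp0 : 0 < p := hp.pos
  have hp0' : 0 < p' := hp'.pos
  have hpR : (0 : ℝ) < p := by exact_mod_cast hp0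
  have hpR' : (0 : ℝ) < p' := by exact_mod_cast hp0'
  have hx : xf (p, u) - xf (p', u') = (((u : ℤ) * p' - u' * p : ℤ) : ℝ) / ((p * p' : ℕ) : ℝ) := by
    unfold xf
    push_cast
    field_simp
  have hnd : ¬ ((p * p' : ℕ) : ℤ) ∣ (u : ℤ) * p' - u' * p := by
    intro hd
    by_cases hpp : p = p'
    · subst hpp
      have h1 : ((p * p : ℕ) : ℤ) = (p : ℤ) * p := by push_cast; ring
      have h2 : (u : ℤ) * p - u' * p = ((u : ℤ) - u') * p := by ring
      rw [h1, h2] at hd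
      have h3 : (p : ℤ) ∣ (u : ℤ) - u' := Int.dvd_of_mul_dvd_mul_right (by exact_mod_cast hp0.ne') hd
      have h4 : (u : ℤ) - u' = 0 := by
        apply Int.eq_zero_of_abs_lt_dvd h3
        rw [abs_lt]
        constructor <;> omega
      apply h
      have h5 : u = u' := by omega
      rw [h5]
    · have h1 : (p : ℤ) ∣ (u : ℤ) * p' - u' * p :=
        dvd_trans ⟨(p' : ℤ), by push_cast; ring⟩ hd
      have h2 : (p : ℤ) ∣ (u : ℤ) * p' := by
        have h3 : (p : ℤ) ∣ (u' : ℤ) * p := Dvd.intro_left _ rfl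
        have h4 := dvd_add h1 h3
        have h5 : (u : ℤ) * p' - u' * p + u' * p = (u : ℤ) * p' := by ring
        rwa [h5] at h4
      have h3 : p ∣ u * p' := by exact_mod_cast h2
      rcases (Nat.Prime.dvd_mul hp).1 h3 with h4 | h4
      · exact absurd (Nat.le_of_dvd hu1 h4) (by omega)
      · exact hpp ((Nat.prime_dvd_prime_iff_eq hp hp').1 h4)
  rw [hx]
  refine le_trans ?_ (Pool.Agent.H53.MID.nz_frac_ge _ (p * p') (Nat.mul_pos hp0 hp0') hnd)
  have h6 : ((p * p' : ℕ) : ℝ) ≤ 4 * (P : ℝ) ^ 2 := by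
    have h7 : p * p' ≤ (2 * P) * (2 * P) := Nat.mul_le_mul hp2 hp2'
    have h8 : ((p * p' : ℕ) : ℝ) ≤ (((2 * P) * (2 * P) : ℕ) : ℝ) := by exact_mod_cast h7
    refine h8.trans (le_of_eq ?_)
    push_cast
    ring
  exact one_div_le_one_div_of_le (by exact_mod_cast Nat.mul_pos hp0 hp0') h6

theorem fr_cnt (P : ℕ) (hP : 1 ≤ P) (β r : ℝ) (hr : 0 ≤ r) :
    (((FR P).filter (fun q => nz (β - xf q) ≤ r)).card : ℝ) ≤ 8 * P ^ 2 * r + 2 := by
  have hP0 : (0 : ℝ) < P := by exact_mod_cast hP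
  have hM : (0 : ℝ) < 4 * (P : ℝ) ^ 2 := by positivity
  set S := (FR P).filter (fun q => nz (β - xf q) ≤ r) with hS
  let δ : ℕ × ℕ → ℝ := fun q => (β - xf q) - round (β - xf q)
  have hδ : ∀ q ∈ S, |δ q| ≤ r := by
    intro q hq
    exact (Finset.mem_filter.1 hq).2
  let g : ℕ × ℕ → ℕ := fun q => ⌊4 * (P : ℝ) ^ 2 * (δ q + r)⌋₊
  have hmem : ∀ q ∈ S, g q ∈ range (⌊8 * (P : ℝ) ^ 2 * r⌋₊ + 1) := by
    intro q hq
    rw [Finset.mem_range, Nat.lt_succ_iff]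
    apply Nat.floor_le_floor
    have h1 := (abs_le.1 (hδ q hq)).2
    have h2 : 4 * (P : ℝ) ^ 2 * (δ q + r) ≤ 4 * (P : ℝ) ^ 2 * (2 * r) :=
      mul_le_mul_of_nonneg_left (by linarith) hM.le
    linarith
  have hinj : Set.InjOn g S := by
    intro q hq q' hq' hgg
    by_contra hne
    have hq1 : q ∈ S := hq
    have hq1' : q' ∈ S := hq'
    have h1 := fr_ne P q q' (Finset.mem_filter.1 hq1).1 (Finset.mem_filter.1 hq1').1 hne
    have ha : 0 ≤ 4 * (P : ℝ) ^ 2 * (δ q + r) :=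
      mul_nonneg hM.le (by linarith [(abs_le.1 (hδ q hq1)).1])
    have hb : 0 ≤ 4 * (P : ℝ) ^ 2 * (δ q' + r) :=
      mul_nonneg hM.le (by linarith [(abs_le.1 (hδ q' hq1')).1])
    have h2 := Nat.floor_le ha
    have h3 := Nat.lt_floor_add_one (4 * (P : ℝ) ^ 2 * (δ q + r))
    have h4 := Nat.floor_le hb
    have h5 := Nat.lt_floor_add_one (4 * (P : ℝ) ^ 2 * (δ q' + r))
    have h6 : ((⌊4 * (P : ℝ) ^ 2 * (δ q + r)⌋₊ : ℕ) : ℝ) = ((⌊4 * (P : ℝ) ^ 2 * (δ q' + r)⌋₊ : ℕ) : ℝ) :=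
      congrArg Nat.cast hgg
    rw [h6] at h2 h3
    have h7 : |4 * (P : ℝ) ^ 2 * (δ q + r) - 4 * (P : ℝ) ^ 2 * (δ q' + r)| < 1 := by
      rw [abs_lt]
      constructor <;> linarith
    have h8 : 4 * (P : ℝ) ^ 2 * (δ q + r) - 4 * (P : ℝ) ^ 2 * (δ q' + r) = 4 * (P : ℝ) ^ 2 * (δ q - δ q') := by ring
    rw [h8, abs_mul, abs_of_pos hM] at h7
    have h9 : nz (xf q - xf q') ≤ |δ q - δ q'| := by
      have h10 : xf q - xf q' = -((δ q - δ q') + ((round (β - xf q) - round (β - xf q') : ℤ) : ℝ)) := by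
        simp only [δ]
        push_cast
        ring
      rw [h10, Pool.Agent.H53.MID.nz_neg, Pool.Agent.H53.MID.nz_add_int]
      exact Pool.Agent.H53.MID.nz_le_abs _
    have h11 : 1 / (4 * (P : ℝ) ^ 2) ≤ |δ q - δ q'| := h1.trans h9
    rw [div_le_iff₀ hM] at h11
    linarith
  have hcard : S.card ≤ ⌊8 * (P : ℝ) ^ 2 * r⌋₊ + 1 := by
    have h1 := Finset.card_le_card_of_injOn g hmem hinj
    rwa [Finset.card_range] at h1
  have h1 : (S.card : ℝ) ≤ ((⌊8 * (P : ℝ) ^ 2 * r⌋₊ + 1 : ℕ) : ℝ) := by exact_mod_cast hcard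
  push_cast at h1
  have h2 := Nat.floor_le (show 0 ≤ 8 * (P : ℝ) ^ 2 * r by positivity)
  linarith

private theorem Spc_dyad (K : ℕ) (hK : 1 ≤ K) (r : ℝ) (_hr : 0 ≤ r) (hr2 : r ≤ 1 / 2) :
    Wk K r ≤ ∑ s ∈ range (Nat.log 2 K + 1), if r ≤ 2 ^ s / K then 4 * K / (4 : ℝ) ^ s else 0 := by
  have hK0 : (0 : ℝ) < K := by exact_mod_cast hK
  have hnn : ∀ s ∈ range (Nat.log 2 K + 1), (0 : ℝ) ≤ if r ≤ 2 ^ s / K then 4 * K / (4 : ℝ) ^ s else 0 := by
    intro s _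
    split_ifs
    · positivity
    · exact le_refl _
  have hlog : (K : ℝ) * r ≤ 2 ^ (Nat.log 2 K) := by
    have h1 : K < 2 ^ (Nat.log 2 K + 1) := Nat.lt_pow_succ_log_self (by norm_num) K
    have h2 : (K : ℝ) < 2 ^ (Nat.log 2 K + 1) := by exact_mod_cast h1
    rw [pow_succ] at h2
    have h3 : (K : ℝ) * r ≤ K * (1 / 2) := mul_le_mul_of_nonneg_left hr2 hK0.le
    linarith
  by_cases h0 : (K : ℝ) * r ≤ 1
  · have h1 : Wk K r = K := by
      unfold Wk
      rw [if_pos h0]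
    rw [h1]
    refine le_trans ?_ (Finset.single_le_sum hnn (Finset.mem_range.2 (Nat.succ_pos _)))
    have h2 : r ≤ 2 ^ 0 / (K : ℝ) := by
      rw [le_div_iff₀ hK0]
      rw [pow_zero]
      linarith
    rw [if_pos h2]
    rw [pow_zero]
    linarith
  · have h1 : Wk K r = 1 / (K * r ^ 2) := by
      unfold Wk
      rw [if_neg h0]
    rw [h1]
    push Not at h0
    have hex : ∃ s : ℕ, (K : ℝ) * r ≤ 2 ^ s := ⟨_, hlog⟩
    classical
    set s := Nat.find hex with hs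
    have hs1 : (K : ℝ) * r ≤ 2 ^ s := Nat.find_spec hex
    have hs2 : s ≤ Nat.log 2 K := Nat.find_min' hex hlog
    have hs0 : s ≠ 0 := by
      intro h
      rw [h, pow_zero] at hs1
      linarith
    obtain ⟨t, ht⟩ := Nat.exists_eq_succ_of_ne_zero hs0
    have hs3 : (2 : ℝ) ^ t < K * r := by
      by_contra hcon
      push Not at hcon
      have := Nat.find_min' hex hcon
      omega
    refine le_trans ?_ (Finset.single_le_sum hnn (Finset.mem_range.2 (Nat.lt_succ_of_le hs2)))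
    have h2 : r ≤ 2 ^ s / (K : ℝ) := by
      rw [le_div_iff₀ hK0]
      linarith
    rw [if_pos h2]
    have hr0 : 0 < r := by
      by_contra hcon
      push Not at hcon
      have : (K : ℝ) * r ≤ 0 := mul_nonpos_of_nonneg_of_nonpos hK0.le hcon
      linarith
    rw [ht, div_le_div_iff₀ (by positivity) (by positivity)]
    have h3 : (4 : ℝ) ^ (t + 1) = 4 * (2 ^ t * 2 ^ t) := by
      rw [pow_succ, ← mul_pow]
      norm_num
      ring
    have h4 : (2 : ℝ) ^ t * 2 ^ t ≤ (K * r) * (K * r) :=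
      mul_le_mul hs3.le hs3.le (by positivity) (by positivity)
    have h5 : Nat.succ t = t + 1 := rfl
    rw [h5, h3]
    nlinarith

private theorem Spc_g2 (n : ℕ) : ∑ s ∈ range n, (1 : ℝ) / 2 ^ s ≤ 2 := by
  have h : ∀ n : ℕ, ∑ s ∈ range n, (1 : ℝ) / 2 ^ s = 2 - 2 / 2 ^ n := by
    intro n
    induction n with
    | zero => simp
    | succ n ih =>
      rw [Finset.sum_range_succ, ih, pow_succ]
      field_simp
      ring
  rw [h n]
  have : (0 : ℝ) < 2 / 2 ^ n := by positivity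
  linarith

private theorem Spc_g4 (n : ℕ) : ∑ s ∈ range n, (1 : ℝ) / 4 ^ s ≤ 4 / 3 := by
  have h : ∀ n : ℕ, ∑ s ∈ range n, (1 : ℝ) / 4 ^ s = 4 / 3 - 4 / 3 / 4 ^ n := by
    intro n
    induction n with
    | zero => simp
    | succ n ih =>
      rw [Finset.sum_range_succ, ih, pow_succ]
      field_simp
      ring
  rw [h n]
  have : (0 : ℝ) < 4 / 3 / 4 ^ n := by positivity
  linarith

private theorem Spc_gen (P K : ℕ) (hP : 1 ≤ P) (hK : 1 ≤ K) (β : ℝ) :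
    ∑ q ∈ FR P, Wk K (nz (β - xf q)) ≤ 64 * P ^ 2 + 11 * K := by
  have hK0 : (0 : ℝ) < K := by exact_mod_cast hK
  have h1 : ∑ q ∈ FR P, Wk K (nz (β - xf q)) ≤
      ∑ q ∈ FR P, ∑ s ∈ range (Nat.log 2 K + 1), if nz (β - xf q) ≤ 2 ^ s / K then 4 * K / (4 : ℝ) ^ s else 0 :=
    Finset.sum_le_sum fun q _ => Spc_dyad K hK _ (Pool.Agent.H53.MID.nz_nonneg _) (Pool.Agent.H53.MID.nz_le_half _)
  refine h1.trans ?_
  rw [Finset.sum_comm]
  have h2 : ∀ s ∈ range (Nat.log 2 K + 1),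
      (∑ q ∈ FR P, if nz (β - xf q) ≤ 2 ^ s / K then 4 * K / (4 : ℝ) ^ s else 0) ≤
        32 * P ^ 2 * (1 / 2 ^ s) + 8 * K * (1 / 4 ^ s) := by
    intro s _
    rw [← Finset.sum_filter, Finset.sum_const, nsmul_eq_mul]
    have h3 := fr_cnt P hP β (2 ^ s / K) (by positivity)
    have h4 : (0 : ℝ) ≤ 4 * K / (4 : ℝ) ^ s := by positivity
    refine (mul_le_mul_of_nonneg_right h3 h4).trans (le_of_eq ?_)
    have h5 : (4 : ℝ) ^ s = 2 ^ s * 2 ^ s := by
      rw [← mul_pow]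
      norm_num
    rw [h5]
    field_simp
    ring
  refine (Finset.sum_le_sum h2).trans ?_
  rw [Finset.sum_add_distrib, ← Finset.mul_sum, ← Finset.mul_sum]
  have h3 := Spc_g2 (Nat.log 2 K + 1)
  have h4 := Spc_g4 (Nat.log 2 K + 1)
  have h5 : 32 * (P : ℝ) ^ 2 * ∑ s ∈ range (Nat.log 2 K + 1), (1 : ℝ) / 2 ^ s ≤ 32 * P ^ 2 * 2 :=
    mul_le_mul_of_nonneg_left h3 (by positivity)
  have h6 : 8 * (K : ℝ) * ∑ s ∈ range (Nat.log 2 K + 1), (1 : ℝ) / 4 ^ s ≤ 8 * K * (4 / 3) :=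
    mul_le_mul_of_nonneg_left h4 (by positivity)
  linarith

theorem spc_wk (P K : ℕ) (hP : 1 ≤ P) (hK : 1 ≤ K) (hKP : K ≤ P ^ 2) (β : ℝ) :
    ∑ q ∈ FR P, Wk K (nz (β - xf q)) ≤ 100 * P ^ 2 := by
  have h1 := Spc_gen P K hP hK β
  have h2 : (K : ℝ) ≤ (P : ℝ) ^ 2 := by exact_mod_cast hKP
  linarith

theorem spc_fej (P X : ℕ) (hP : 1 ≤ P) (hX : P ^ 2 ≤ X) (β : ℝ) :
    ∑ q ∈ FR P, fej X (β - xf q) ≤ 100 * X := by
  have hX1 : 1 ≤ X := le_trans (Nat.one_le_pow _ _ hP) hX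
  have h1 := Spc_gen P X hP hX1 β
  have h2 : (P : ℝ) ^ 2 ≤ (X : ℝ) := by exact_mod_cast hX
  have h3 : ∑ q ∈ FR P, fej X (β - xf q) ≤ ∑ q ∈ FR P, Wk X (nz (β - xf q)) :=
    Finset.sum_le_sum fun q _ => fej_le_W X hX1 (β - xf q)
  have h4 : (0 : ℝ) ≤ X := Nat.cast_nonneg X
  linarith

/-- dyadic majorant of `Wk` -/
theorem wk_dyad (K : ℕ) (hK : 1 ≤ K) (r : ℝ) (hr : 0 ≤ r) (hr2 : r ≤ 1 / 2) :
    Wk K r ≤ ∑ s ∈ range (Nat.log 2 K + 1), if r ≤ 2 ^ s / K then 4 * K / (4 : ℝ) ^ s else 0 := by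
  exact Spc_dyad K hK r hr hr2

end Pool.Agent.H56.TI

end

section

/-!
# PROJECT TI2 (MP_967f73_nt): type I sums beyond the window, level `P^4 N^e ≤ N H^2`

`ti_lfu` (directory `TI`) needs `P^4 N^e ≤ N H`; here the closeness of all the fractions is kept and the condition is `P^4 N^e ≤ N H^2` (`H^3 N^e ≤ N`).

For primes `p = ((p1, p2), (p3, p4))` (in `pb P`) and numerators `u = ((u1, u2), (u3, u4))`, `x_i = u_i/p_i`, `0 < u_i < p_i`:
* `Du G ρ p`: the `u` with `nz(x1 + x2 - x3 - x4) ≤ ρ`, `nz(x2 - x3) ≤ G`, `nz(x2 - x4) ≤ G`;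
* `Lam A B p`: the integer points `(n, h, k)`, `|n| < A`, `|h|, |k| < B`, `p1 ∣ n`, `p2 ∣ n + h + k`, `p3 ∣ n + h`, `p4 ∣ n + k`;
  note `x1 n + x2 (n + h + k) - x3 (n + h) - x4 (n + k) = n (x1 + x2 - x3 - x4) + h (x2 - x3) + k (x2 - x4)` is an integer for these;
* `LamS A B m p`: the nonzero points of `Lam A B p` with `m |n| ≤ 4A`, `m |h|, m |k| ≤ 4B`.

Chain: `Poi` (Poisson): `#Du · A B² ≤ 64 p1 p2 p3 p4 #Lam` (`ρ ≤ 1/(8A)`, `G ≤ 1/(8B)`).  `Pla`: if `Du` is not empty, all points of `Lam` lie in one plane, so (pigeonhole) `#Lam ≤ 2m² #LamS`.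
`Tri`: the sums over all `p` of `#Lam`, `#LamS` (divisor count).  `Cnt`: `∑_p #Du ≤ C k⁴ P⁴ (s + s² + G)`, `s² = P⁴ ρ G²`.  `Off`: `T4 ≤ ...`, `Bad`, `Blk` as in `TI`.
-/

set_option autoImplicit false

namespace Pool.Agent.H56.TI2

open Finset
open Pool.Agent.H35.W (pb)
open Pool.Agent.H53.MID (nz)

/-- the quadruples of primes -/
def QP (P : ℕ) : Finset ((ℕ × ℕ) × (ℕ × ℕ)) := (pb P ×ˢ pb P) ×ˢ (pb P ×ˢ pb P)

/-- the four primes are distinct -/
def Dis (p : (ℕ × ℕ) × (ℕ × ℕ)) : Prop :=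
  p.1.1 ≠ p.1.2 ∧ p.1.1 ≠ p.2.1 ∧ p.1.1 ≠ p.2.2 ∧ p.1.2 ≠ p.2.1 ∧ p.1.2 ≠ p.2.2 ∧ p.2.1 ≠ p.2.2

instance (p : (ℕ × ℕ) × (ℕ × ℕ)) : Decidable (Dis p) := by
  unfold Dis
  infer_instance

/-- the divisibility conditions -/
def IsL (p : (ℕ × ℕ) × (ℕ × ℕ)) (v : ℤ × ℤ × ℤ) : Prop :=
  (p.1.1 : ℤ) ∣ v.1 ∧ (p.1.2 : ℤ) ∣ v.1 + v.2.1 + v.2.2 ∧ (p.2.1 : ℤ) ∣ v.1 + v.2.1 ∧ (p.2.2 : ℤ) ∣ v.1 + v.2.2

instance (p : (ℕ × ℕ) × (ℕ × ℕ)) (v : ℤ × ℤ × ℤ) : Decidable (IsL p v) := by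
  unfold IsL
  infer_instance

/-- the box `|n| < A`, `|h|, |k| < B` -/
noncomputable def Box (A B : ℕ) : Finset (ℤ × ℤ × ℤ) :=
  Ioo (-(A : ℤ)) A ×ˢ (Ioo (-(B : ℤ)) B ×ˢ Ioo (-(B : ℤ)) B)

/-- the lattice points in the box -/
noncomputable def Lam (A B : ℕ) (p : (ℕ × ℕ) × (ℕ × ℕ)) : Finset (ℤ × ℤ × ℤ) := (Box A B).filter (fun v => IsL p v)

/-- the nonzero lattice points in the small box -/
noncomputable def LamS (A B m : ℕ) (p : (ℕ × ℕ) × (ℕ × ℕ)) : Finset (ℤ × ℤ × ℤ) :=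
  (Lam A B p).filter (fun v => v ≠ 0 ∧ |v.1| * m ≤ 4 * A ∧ |v.2.1| * m ≤ 4 * B ∧ |v.2.2| * m ≤ 4 * B)

open Classical in
/-- the dual points -/
noncomputable def Du (G ρ : ℝ) (p : (ℕ × ℕ) × (ℕ × ℕ)) : Finset ((ℕ × ℕ) × (ℕ × ℕ)) :=
  ((Ico 1 p.1.1 ×ˢ Ico 1 p.1.2) ×ˢ (Ico 1 p.2.1 ×ˢ Ico 1 p.2.2)).filter (fun u =>
    nz ((u.1.1 : ℝ) / p.1.1 + (u.1.2 : ℝ) / p.1.2 - (u.2.1 : ℝ) / p.2.1 - (u.2.2 : ℝ) / p.2.2) ≤ ρ ∧
    nz ((u.1.2 : ℝ) / p.1.2 - (u.2.1 : ℝ) / p.2.1) ≤ G ∧ nz ((u.1.2 : ℝ) / p.1.2 - (u.2.2 : ℝ) / p.2.2) ≤ G)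

end Pool.Agent.H56.TI2

end
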