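import Pool.Agent.H43.PJ.H91.EHA.SwK1
import Pool.Agent.H43.PJ.M44
import Pool.Agent.H43.PJ.M45

/-! The parts of this file: H76.TP.EqB, H91.TQ.EqQ. -/

section

/-!
# TP EqB: `bf` in short intervals and progressions

`bf(k) log k = ∑_{n ∣ k} Λ(n) bf(k)`.  Let `y = ⌊N^e1⌋`, `z = zz y J ≤ N^ζ`, `ζ < 1/2`, `x ≥ N^(1/2)`, `x/L^K ≤ l ≤ x/L^(A+3)`, `c ≤ L^B`, `I = (x, x+l]`.
1. If `(a, c) > 1`: for `k ≡ a (c)` a prime `≤ c < y` divides `k` and `bf k = 0`: both sides are `0`.  Let `(a, c) = 1`.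
2. `∑_{k ∈ I, k ≡ a} bf(k) log k = ∑_{k} ∑_{n ∣ k} Λ(n) bf(k)`.  The terms with `n = q^j`, `j ≥ 2` (`q > y` as `bf k ≠ 0`): `≤ ∑_{q > y} ∑_{j ≥ 2} log q (l/q^j + 1)`, `q^j ≤ 2x`:
   `≤ 2 l L/y + 2√x L^2 ≤ l/L^(A+2)`.
3. Terms `n = q` prime `> y`: `k = k' q`, `k' ≤ 2x/y`, `rg y k = rg y k'`, `nu y J k = nu y J k' + [q ≤ z]` if `q ∤ k'` (the pairs with `q ∣ k'`, i.e. `q² ∣ k`, are in the error as in 2).
   For fixed `k'` the primes run over `(x/k', (x+l)/k']`, `q k' ≡ a (c)` (one class modulo `c`, coprime to `c`, because `k'` is `y`-rough and `c < y`), and `[q ≤ z]` is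
   `[x < k' z]` unless `x < k' z < x + l`: for `k' z ≤ x`: `q > x/k' ≥ z`, weight `0`; for `k' z ≥ x + l`: `q ≤ z`, weight `1`; for `x < k' z < x + l`: at most `l/z + 1` such `k'`, each with
   at most `l/k' + 1 ≤ 2 l z/x + 1` numbers `q`, weight `≤ L`: error `≤ (l/z + 1)(2 l z/x + 1) L ≤ l/L^(A+1)` (`l ≤ x/L^(A+3)`, `z ≤ N^ζ ≤ x N^(-c)`).
   `psi_ap` (`Pool.Agent.H91.EHA.psi_ap`, `H91/EHA/SwK1.lean:229`) at the two end points `X = (x+l)/k', x/k' ≥ y/2 ≥ N^(e1)/4` gives
   `∑_q log q = l/(k' φ(c)) + O((x/k') L^(-K'))` (prime powers `≥ 2`: `√X` trivial).  For `x/y < k' ≤ 2x/y` the primes `q ≤ y` have to be left out: `q ∈ (x/k', (x+l)/k']`, `q > y` is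
   possible only if `k' < (x+l)/y`: `k' ∈ (x/y, (x+l)/y]`, at most `l/y + 1` numbers with `≤ l/k' + 1 ≤ ly/x + 1` primes each: error `≤ (l/y+1)(ly/x+1) L`.
   Sum over `k'`: main term `l/φ(c) · ∑_{k' ≤ x/y} rg y k'/((1 + nu y J k' + [x < k' z]) k')`, error `≤ 2 x L^(1-K')`, `K' = K + A + 4`.
4. `log k = log x + O(l/x)`, `0 ≤ bf ≤ 1`: `∑ bf(k) log k = log x ∑ bf(k) + O(l · l/x)`.  Divide by `log x ≥ L/2`.
-/

set_option autoImplicit false

namespace Pool.Agent.H76.TP

open Finset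
open Pool.Agent.H91.EHA (Lam psiA psi_ap)

/-! ### the weights -/

private theorem eqB_rg_cases (y k : ℕ) : rg y k = 0 ∨ rg y k = 1 := by
  unfold rg
  split_ifs
  · exact Or.inr rfl
  · exact Or.inl rfl

private theorem eqB_rg_nonneg (y k : ℕ) : 0 ≤ rg y k := by
  rcases eqB_rg_cases y k with h | h <;> rw [h]
  exact zero_le_one

private theorem eqB_rg_le (y k : ℕ) : rg y k ≤ 1 := by
  rcases eqB_rg_cases y k with h | h <;> rw [h]
  exact zero_le_one

private theorem eqB_rg_one {y k : ℕ} : rg y k = 1 ↔ ∀ p : ℕ, p.Prime → p ∣ k → y < p := by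
  unfold rg
  split_ifs with h
  · exact ⟨fun _ => h, fun _ => rfl⟩
  · exact ⟨fun h1 => absurd h1 (by norm_num), fun h1 => absurd h1 h⟩

private theorem eqB_rg_zero {y k p : ℕ} (hp : p.Prime) (hpk : p ∣ k) (hpy : p ≤ y) :
    rg y k = 0 := by
  rcases eqB_rg_cases y k with h | h
  · exact h
  · exact absurd (eqB_rg_one.1 h p hp hpk) (not_lt.2 hpy)

private theorem eqB_rg_mul {y k q : ℕ} (hq : q.Prime) :
    rg y (k * q) = if y < q then rg y k else 0 := by
  by_cases hy : y < q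
  · rw [if_pos hy]
    rcases eqB_rg_cases y k with h | h
    · rw [h]
      rcases eqB_rg_cases y (k * q) with h1 | h1
      · exact h1
      · rw [eqB_rg_one] at h1
        have h2 : rg y k = 1 := eqB_rg_one.2 fun p hp hpk => h1 p hp (hpk.mul_right q)
        rw [h] at h2
        norm_num at h2
    · rw [h]
      rw [eqB_rg_one] at h ⊢
      intro p hp hpk
      rcases (hp.dvd_mul).1 hpk with h1 | h1
      · exact h p hp h1
      · rw [(Nat.prime_dvd_prime_iff_eq hp hq).1 h1]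
        exact hy
  · rw [if_neg hy]
    exact eqB_rg_zero hq (dvd_mul_left q k) (not_lt.1 hy)

private theorem eqB_nu_mul {y J k q : ℕ} (hk : k ≠ 0) (hq : q.Prime) (hqk : ¬ q ∣ k)
    (hy : y < q) : nu y J (k * q) = nu y J k + if q ≤ zz y J then 1 else 0 := by
  unfold nu
  rw [Nat.primeFactors_mul hk hq.ne_zero, Nat.Prime.primeFactors hq, filter_union,
    card_union_of_disjoint]
  · congr 1
    by_cases hz : q ≤ zz y J
    · rw [if_pos hz, filter_singleton, if_pos ⟨hy, hz⟩, card_singleton]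
    · rw [if_neg hz, filter_singleton, if_neg (fun h => hz h.2), card_empty]
  · refine disjoint_filter_filter ?_
    rw [disjoint_singleton_right]
    exact fun h => hqk (Nat.dvd_of_mem_primeFactors h)

/-- the weight of the pair `k', q` -/
private noncomputable def eqBw (y J k q : ℕ) : ℝ :=
  if y < q then rg y k / (1 + nu y J k + if q ≤ zz y J then 1 else 0) else 0

/-- the local weight of `k'` -/
private noncomputable def eqBom (y J x k : ℕ) : ℝ :=
  rg y k / (1 + nu y J k + if x < k * zz y J then 1 else 0)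

private theorem eqB_div_nonneg {a b : ℝ} (ha : 0 ≤ a) (P : Prop) [Decidable P] (hb : 0 ≤ b) :
    0 ≤ a / (1 + b + if P then 1 else 0) := by
  split_ifs <;> positivity

private theorem eqB_div_le {a b : ℝ} (ha1 : a ≤ 1) (P : Prop) [Decidable P]
    (hb : 0 ≤ b) : a / (1 + b + if P then 1 else 0) ≤ 1 := by
  rw [div_le_one]
  · split_ifs <;> linarith
  · split_ifs <;> positivity

private theorem eqBw_nonneg (y J k q : ℕ) : 0 ≤ eqBw y J k q := by
  unfold eqBw
  by_cases h : y < q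
  · rw [if_pos h]
    exact eqB_div_nonneg (eqB_rg_nonneg y k) (q ≤ zz y J) (Nat.cast_nonneg _)
  · rw [if_neg h]

private theorem eqBw_le (y J k q : ℕ) : eqBw y J k q ≤ 1 := by
  unfold eqBw
  by_cases h : y < q
  · rw [if_pos h]
    exact eqB_div_le (eqB_rg_le y k) (q ≤ zz y J) (Nat.cast_nonneg _)
  · rw [if_neg h]
    exact zero_le_one

private theorem eqBom_nonneg (y J x k : ℕ) : 0 ≤ eqBom y J x k :=
  eqB_div_nonneg (eqB_rg_nonneg y k) (x < k * zz y J) (Nat.cast_nonneg _)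

private theorem eqBom_le (y J x k : ℕ) : eqBom y J x k ≤ 1 :=
  eqB_div_le (eqB_rg_le y k) (x < k * zz y J) (Nat.cast_nonneg _)

private theorem eqB_bf_nonneg (y J k : ℕ) : 0 ≤ bf y J k := by
  unfold bf
  have := eqB_rg_nonneg y k
  positivity

private theorem eqB_bf_le (y J k : ℕ) : bf y J k ≤ 1 := by
  unfold bf
  rw [div_le_one (by positivity)]
  have := eqB_rg_le y k
  have h2 : (0 : ℝ) ≤ nu y J k := Nat.cast_nonneg _
  linarith

private theorem eqB_bf_mul {y J k q : ℕ} (hk : k ≠ 0) (hq : q.Prime) (hqk : ¬ q ∣ k) :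
    bf y J (k * q) = eqBw y J k q := by
  unfold bf eqBw
  rw [eqB_rg_mul hq]
  by_cases hy : y < q
  · rw [if_pos hy, if_pos hy, eqB_nu_mul hk hq hqk hy]
    congr 1
    push_cast
    ring
  · rw [if_neg hy, if_neg hy, zero_div]

/-- the number of the primes `q > y` with `q² ∣ k` -/
private def eqBsq (y k : ℕ) : ℕ := (k.primeFactors.filter (fun q => y < q ∧ q * q ∣ k)).card

private theorem eqB_sum_log_le {k : ℕ} (hk : k ≠ 0) :
    ∑ q ∈ k.primeFactors, Real.log q ≤ Real.log k := by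
  rw [← Real.log_prod (fun q hq => by
    exact_mod_cast (Nat.prime_of_mem_primeFactors hq).ne_zero), ← Nat.cast_prod]
  refine Real.log_le_log ?_ ?_
  · exact_mod_cast Finset.prod_pos fun q hq => (Nat.prime_of_mem_primeFactors hq).pos
  · exact_mod_cast Nat.le_of_dvd (Nat.pos_of_ne_zero hk) (Nat.prod_primeFactors_dvd k)

private theorem eqB_sum_log_eq {k : ℕ} (hk : Squarefree k) :
    ∑ q ∈ k.primeFactors, Real.log q = Real.log k := by
  rw [← Real.log_prod (fun q hq => by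
    exact_mod_cast (Nat.prime_of_mem_primeFactors hq).ne_zero), ← Nat.cast_prod,
    Nat.prod_primeFactors_of_squarefree hk]

private theorem eqB_key {y J k : ℕ} (hk : k ≠ 0) :
    |bf y J k * Real.log k - ∑ q ∈ k.primeFactors, Real.log q * eqBw y J (k / q) q| ≤
      Real.log k * eqBsq y k := by
  have hlog : 0 ≤ Real.log k := Real.log_natCast_nonneg k
  have hqlog : ∀ q : ℕ, 0 ≤ Real.log q := fun q => Real.log_natCast_nonneg q
  have hsq : (0 : ℝ) ≤ eqBsq y k := Nat.cast_nonneg _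
  rcases eqB_rg_cases y k with h0 | h0
  · have h1 : bf y J k = 0 := by
      unfold bf
      rw [h0, zero_div]
    have h2 : ∑ q ∈ k.primeFactors, Real.log q * eqBw y J (k / q) q = 0 := by
      refine sum_eq_zero fun q hq => ?_
      have hqp := Nat.prime_of_mem_primeFactors hq
      have hqk := Nat.dvd_of_mem_primeFactors hq
      have h3 : rg y (k / q * q) = 0 := by rw [Nat.div_mul_cancel hqk]; exact h0
      rw [eqB_rg_mul hqp] at h3
      unfold eqBw
      split_ifs at h3 with hy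
      · rw [if_pos hy, h3, zero_div, mul_zero]
      · rw [if_neg hy, mul_zero]
    rw [h1, h2, zero_mul, sub_zero, abs_zero]
    positivity
  · by_cases hs : Squarefree k
    · have h2 : ∑ q ∈ k.primeFactors, Real.log q * eqBw y J (k / q) q =
          ∑ q ∈ k.primeFactors, Real.log q * bf y J k := by
        refine sum_congr rfl fun q hq => ?_
        have hqp := Nat.prime_of_mem_primeFactors hq
        have hqk := Nat.dvd_of_mem_primeFactors hq
        have hne : k / q ≠ 0 := (Nat.div_pos (Nat.le_of_dvd (Nat.pos_of_ne_zero hk) hqk)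
          hqp.pos).ne'
        have hnd : ¬ q ∣ k / q := by
          intro h3
          have h4 : q * q ∣ k := by
            obtain ⟨m, hm⟩ := h3
            refine ⟨m, ?_⟩
            rw [mul_assoc, ← hm, Nat.mul_div_cancel' hqk]
          exact hqp.one_lt.ne' (Nat.isUnit_iff.1 (hs q h4))
        rw [← eqB_bf_mul hne hqp hnd, Nat.div_mul_cancel hqk]
      rw [h2, ← sum_mul, eqB_sum_log_eq hs, mul_comm, sub_self, abs_zero]
      positivity
    · have h3 : 1 ≤ eqBsq y k := by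
        rw [Nat.squarefree_iff_prime_squarefree] at hs
        push Not at hs
        obtain ⟨p, hp, hpk⟩ := hs
        unfold eqBsq
        rw [Nat.one_le_iff_ne_zero, ← Nat.pos_iff_ne_zero, card_pos]
        refine ⟨p, ?_⟩
        rw [mem_filter, Nat.mem_primeFactors]
        have hd : p ∣ k := (dvd_mul_left p p).trans hpk
        exact ⟨⟨hp, hd, hk⟩, eqB_rg_one.1 h0 p hp hd, hpk⟩
      have h4 : (1 : ℝ) ≤ eqBsq y k := by exact_mod_cast h3
      have h5 : 0 ≤ ∑ q ∈ k.primeFactors, Real.log q * eqBw y J (k / q) q :=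
        sum_nonneg fun q _ => mul_nonneg (hqlog q) (eqBw_nonneg _ _ _ _)
      have h6 : ∑ q ∈ k.primeFactors, Real.log q * eqBw y J (k / q) q ≤ Real.log k :=
        (sum_le_sum fun q _ => by
          have := eqBw_le y J (k / q) q
          have h7 := hqlog q
          nlinarith only [this, h7]).trans (eqB_sum_log_le hk)
      have h7 : 0 ≤ bf y J k * Real.log k := mul_nonneg (eqB_bf_nonneg _ _ _) hlog
      have h8 : bf y J k * Real.log k ≤ Real.log k := by
        have := eqB_bf_le y J k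
        nlinarith only [hlog, this]
      have h9 : Real.log k ≤ Real.log k * eqBsq y k := by nlinarith only [hlog, h4]
      rw [abs_le]
      constructor <;> linarith only [h6, h7, h9, h5, h8]

/-! ### counting -/

private theorem eqB_card {x l m : ℕ} (hm : 1 ≤ m) (S : Finset ℕ) :
    (((S.filter (fun k => x < k * m ∧ k * m ≤ x + l)).card : ℕ) : ℝ) ≤ (l : ℝ) / m + 1 := by
  have hmR : (0 : ℝ) < m := by exact_mod_cast hm
  have h1 : S.filter (fun k => x < k * m ∧ k * m ≤ x + l) ⊆ Ioc (x / m) ((x + l) / m) := by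
    intro k hk
    rw [mem_filter] at hk
    rw [mem_Ioc]
    exact ⟨(Nat.div_lt_iff_lt_mul hm).2 hk.2.1, (Nat.le_div_iff_mul_le hm).2 hk.2.2⟩
  have h2 := card_le_card h1
  rw [Nat.card_Ioc] at h2
  have h3 : ((((x + l) / m : ℕ)) : ℝ) ≤ ((x + l : ℕ) : ℝ) / m := Nat.cast_div_le
  have h4 : (x : ℝ) / m < ((x / m : ℕ) : ℝ) + 1 := by
    rw [div_lt_iff₀ hmR]
    have h5 : x < (x / m + 1) * m := by
      have := Nat.lt_div_mul_add (a := x) hm
      rw [add_mul, one_mul]
      exact this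
    exact_mod_cast h5
  have h5 : x / m ≤ (x + l) / m := Nat.div_le_div_right (Nat.le_add_right _ _)
  have h6 : (((S.filter (fun k => x < k * m ∧ k * m ≤ x + l)).card : ℕ) : ℝ) ≤
      (((x + l) / m - x / m : ℕ) : ℝ) := by exact_mod_cast h2
  rw [Nat.cast_sub h5] at h6
  push_cast at h3
  rw [add_div] at h3
  linarith only [h4, h6, h3]

private theorem eqB_card_dvd {x l d : ℕ} (hd : 1 ≤ d) :
    ((((Ioc x (x + l)).filter (fun k => d ∣ k)).card : ℕ) : ℝ) ≤ (l : ℝ) / d + 1 := by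
  refine le_trans ?_ (eqB_card (x := x) (l := l) hd (Icc 1 (x + l)))
  have h1 : (Ioc x (x + l)).filter (fun k => d ∣ k) ⊆
      ((Icc 1 (x + l)).filter (fun k => x < k * d ∧ k * d ≤ x + l)).image (fun j => j * d) := by
    intro k hk
    rw [mem_filter, mem_Ioc] at hk
    obtain ⟨⟨hk1, hk2⟩, j, rfl⟩ := hk
    rw [mem_image]
    refine ⟨j, ?_, mul_comm j d⟩
    rw [mem_filter, mem_Icc, mul_comm j d]
    refine ⟨⟨?_, ?_⟩, hk1, hk2⟩
    · rcases Nat.eq_zero_or_pos j with h | h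
      · subst h
        rw [mul_zero] at hk1
        exact absurd hk1 (Nat.not_lt_zero _)
      · exact h
    · exact (Nat.le_mul_of_pos_left j hd).trans hk2
  exact_mod_cast (card_le_card h1).trans card_image_le

private theorem eqB_sq_sum {x l y : ℕ} (hy : 1 ≤ y) (hl : l ≤ x) :
    ∑ k ∈ Ioc x (x + l), (eqBsq y k : ℝ) ≤ (l : ℝ) / y + Real.sqrt (2 * x) := by
  set M : ℕ := Nat.sqrt (x + l) with hM
  have hyR : (0 : ℝ) < y := by exact_mod_cast hy
  have h1 : ∀ k ∈ Ioc x (x + l), (eqBsq y k : ℝ) ≤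
      ∑ q ∈ Ioc y M, if q * q ∣ k then (1 : ℝ) else 0 := by
    intro k hk
    rw [mem_Ioc] at hk
    rw [← sum_filter, sum_const, nsmul_eq_mul, mul_one]
    have h2 : k.primeFactors.filter (fun q => y < q ∧ q * q ∣ k) ⊆
        (Ioc y M).filter (fun q => q * q ∣ k) := by
      intro q hq
      rw [mem_filter] at hq
      rw [mem_filter, mem_Ioc]
      refine ⟨⟨hq.2.1, ?_⟩, hq.2.2⟩
      rw [hM, Nat.le_sqrt]
      exact (Nat.le_of_dvd (by omega) hq.2.2).trans hk.2
    exact_mod_cast card_le_card h2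
  refine (sum_le_sum h1).trans ?_
  rw [sum_comm]
  have h2 : ∀ q ∈ Ioc y M, ∑ k ∈ Ioc x (x + l), (if q * q ∣ k then (1 : ℝ) else 0) ≤
      (l : ℝ) * ((q : ℝ) ^ 2)⁻¹ + 1 := by
    intro q hq
    rw [mem_Ioc] at hq
    rw [← sum_filter, sum_const, nsmul_eq_mul, mul_one]
    have hq1 : 1 ≤ q * q := Nat.mul_pos (by omega) (by omega)
    have h3 := eqB_card_dvd (x := x) (l := l) hq1
    push_cast at h3
    rw [← div_eq_mul_inv, sq]
    exact h3
  refine (sum_le_sum h2).trans ?_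
  rw [sum_add_distrib, ← mul_sum, sum_const, nsmul_eq_mul, mul_one, Nat.card_Ioc]
  have h4 : (l : ℝ) * ∑ q ∈ Ioc y M, ((q : ℝ) ^ 2)⁻¹ ≤ l / y := by
    rw [div_eq_mul_inv]
    refine mul_le_mul_of_nonneg_left ?_ (Nat.cast_nonneg _)
    rcases le_or_gt y M with h | h
    · have h5 := sum_Ioc_inv_sq_le_sub (α := ℝ) (k := y) (n := M) (by omega) h
      have h6 : (0 : ℝ) ≤ (M : ℝ)⁻¹ := by positivity
      linarith only [h5, h6]
    · rw [Ioc_eq_empty (by omega), sum_empty]
      positivity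
  have h5 : ((M - y : ℕ) : ℝ) ≤ Real.sqrt (2 * x) := by
    have h6 : ((M - y : ℕ) : ℝ) ≤ M := by exact_mod_cast Nat.sub_le M y
    refine h6.trans (Real.le_sqrt_of_sq_le ?_)
    have h7 : M * M ≤ x + l := Nat.sqrt_le (x + l)
    have h8 : (M : ℝ) * M ≤ x + l := by exact_mod_cast h7
    have h9 : (l : ℝ) ≤ x := by exact_mod_cast hl
    nlinarith only [h8, h9]
  linarith only [h4, h5]

/-- the double window -/
private theorem eqB_dw {x l m X : ℕ} (hx : 1 ≤ x) (hm : 1 ≤ m) (S : Finset ℕ) :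
    ∑ k ∈ S.filter (fun k => x < k * m ∧ k * m ≤ x + l),
      ((((Icc 1 X).filter (fun q => x < k * q ∧ k * q ≤ x + l)).card : ℕ) : ℝ) ≤
      ((l : ℝ) / m + 1) * (l * m / x + 1) := by
  have hxR : (0 : ℝ) < x := by exact_mod_cast hx
  have hmR : (0 : ℝ) < m := by exact_mod_cast hm
  have h1 : ∀ k ∈ S.filter (fun k => x < k * m ∧ k * m ≤ x + l),
      ((((Icc 1 X).filter (fun q => x < k * q ∧ k * q ≤ x + l)).card : ℕ) : ℝ) ≤
        (l : ℝ) * m / x + 1 := by
    intro k hk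
    rw [mem_filter] at hk
    have hk0 : 1 ≤ k := by
      rcases Nat.eq_zero_or_pos k with h | h
      · rw [h, zero_mul] at hk
        exact absurd hk.2.1 (Nat.not_lt_zero _)
      · exact h
    have hkR : (0 : ℝ) < k := by exact_mod_cast hk0
    have h2 := eqB_card (x := x) (l := l) hk0 (Icc 1 X)
    have h3 : (Icc 1 X).filter (fun q => x < k * q ∧ k * q ≤ x + l) =
        (Icc 1 X).filter (fun q => x < q * k ∧ q * k ≤ x + l) := by
      refine filter_congr fun q _ => ?_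
      rw [mul_comm k q]
    rw [h3]
    have h4 : (l : ℝ) / k ≤ l * m / x := by
      rw [div_le_div_iff₀ hkR hxR]
      have h5 : (x : ℝ) ≤ k * m := by exact_mod_cast hk.2.1.le
      have h6 : (0 : ℝ) ≤ l := Nat.cast_nonneg _
      nlinarith only [h5]
    linarith only [h2, h4]
  refine (sum_le_sum h1).trans ?_
  rw [sum_const, nsmul_eq_mul]
  exact mul_le_mul_of_nonneg_right (eqB_card hm S) (by positivity)

/-- the primes `q` with `x < k q ≤ x + l`, `k q ≡ a` -/
private def eqBS (x l a c k : ℕ) : Finset ℕ :=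
  (Icc 1 (x + l)).filter (fun q => q.Prime ∧ x < k * q ∧ k * q ≤ x + l ∧ k * q ≡ a [MOD c])

private theorem eqB_swap {x l : ℕ} (a c : ℕ) (F : ℕ → ℕ → ℝ) :
    ∑ k ∈ (Ioc x (x + l)).filter (fun k => k ≡ a [MOD c]), ∑ q ∈ k.primeFactors, F (k / q) q =
      ∑ k ∈ Icc 1 (x + l), ∑ q ∈ eqBS x l a c k, F k q := by
  rw [sum_sigma', sum_sigma']
  refine sum_nbij' (fun p => ⟨p.1 / p.2, p.2⟩) (fun p => ⟨p.1 * p.2, p.2⟩) ?_ ?_ ?_ ?_ ?_
  · rintro ⟨k, q⟩ h
    rw [mem_sigma, mem_filter, mem_Ioc, Nat.mem_primeFactors] at h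
    obtain ⟨⟨⟨h1, h2⟩, h3⟩, h4, h5, h6⟩ := h
    simp only at h1 h2 h3 h4 h5 h6
    rw [mem_sigma, eqBS, mem_filter, mem_Icc, mem_Icc]
    have h7 : k / q * q = k := Nat.div_mul_cancel h5
    have h8 : q ≤ k := Nat.le_of_dvd (by omega) h5
    refine ⟨⟨Nat.div_pos h8 h4.pos, (Nat.div_le_self k q).trans h2⟩,
      ⟨h4.pos, h8.trans h2⟩, h4, ?_, ?_, ?_⟩
    · simp only [h7]; exact h1
    · simp only [h7]; exact h2
    · simp only [h7]; exact h3
  · rintro ⟨k, q⟩ h
    rw [mem_sigma, eqBS, mem_filter, mem_Icc, mem_Icc] at h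
    obtain ⟨⟨h1, h2⟩, ⟨h3, h4⟩, h5, h6, h7, h8⟩ := h
    simp only at h1 h2 h3 h4 h5 h6 h7 h8
    rw [mem_sigma, mem_filter, mem_Ioc, Nat.mem_primeFactors]
    exact ⟨⟨⟨h6, h7⟩, h8⟩, h5, dvd_mul_left q k, by simp only; positivity⟩
  · rintro ⟨k, q⟩ h
    rw [mem_sigma, mem_filter, mem_Ioc, Nat.mem_primeFactors] at h
    obtain ⟨⟨⟨h1, h2⟩, h3⟩, h4, h5, h6⟩ := h
    simp only at h5 ⊢
    rw [Nat.div_mul_cancel h5]
  · rintro ⟨k, q⟩ h
    rw [mem_sigma, eqBS, mem_filter, mem_Icc, mem_Icc] at h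
    obtain ⟨⟨h1, h2⟩, ⟨h3, h4⟩, h5, h6, h7, h8⟩ := h
    simp only at h3 ⊢
    rw [Nat.mul_div_cancel k h3]
  · rintro ⟨k, q⟩ _
    rfl

/-! ### the two sets of weights -/

private theorem eqB_cmp {x l y J a c : ℕ} (hx : 1 ≤ x) (hy : 1 ≤ y) (hz : 1 ≤ zz y J) :
    |∑ k ∈ Icc 1 (x + l), ∑ q ∈ eqBS x l a c k, Real.log q * eqBw y J k q
      - ∑ k ∈ Icc 1 (x / y), eqBom y J x k * ∑ q ∈ eqBS x l a c k, Real.log q| ≤
      Real.log ((x : ℝ) + l) *
        (((l : ℝ) / (zz y J : ℕ) + 1) * (l * (zz y J : ℕ) / x + 1) +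
          ((l : ℝ) / y + 1) * (l * y / x + 1)) := by
  have hL : 0 ≤ Real.log ((x : ℝ) + l) := by
    have := Real.log_natCast_nonneg (x + l)
    push_cast at this
    exact this
  have hlog : ∀ k, ∀ q ∈ eqBS x l a c k, Real.log q ≤ Real.log ((x : ℝ) + l) := by
    intro k q hq
    rw [eqBS, mem_filter, mem_Icc] at hq
    have h1 : ((q : ℕ) : ℝ) ≤ (x : ℝ) + l := by exact_mod_cast hq.1.2
    exact Real.log_le_log (by exact_mod_cast hq.1.1) h1
  have hlog0 : ∀ q : ℕ, 0 ≤ Real.log q := fun q => Real.log_natCast_nonneg q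
  have hsplit : ∑ k ∈ Icc 1 (x + l), ∑ q ∈ eqBS x l a c k, Real.log q * eqBw y J k q =
      ∑ k ∈ Icc 1 (x / y), ∑ q ∈ eqBS x l a c k, Real.log q * eqBw y J k q +
        ∑ k ∈ Ioc (x / y) (x + l), ∑ q ∈ eqBS x l a c k, Real.log q * eqBw y J k q := by
    have h1 : ∀ n : ℕ, Icc 1 n = Ioc 0 n := fun n => by ext i; simp; omega
    rw [h1, h1, sum_Ioc_consecutive _ (Nat.zero_le _)
      ((Nat.div_le_self x y).trans (Nat.le_add_right x l))]
  have hcard : ∀ k, ((eqBS x l a c k).card : ℝ) ≤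
      ((((Icc 1 (x + l)).filter (fun q => x < k * q ∧ k * q ≤ x + l)).card : ℕ) : ℝ) := by
    intro k
    have h1 : eqBS x l a c k ⊆ (Icc 1 (x + l)).filter (fun q => x < k * q ∧ k * q ≤ x + l) := by
      intro q hq
      rw [eqBS, mem_filter] at hq
      rw [mem_filter]
      exact ⟨hq.1, hq.2.2.1, hq.2.2.2.1⟩
    exact_mod_cast card_le_card h1
  -- the first part
  have hP1 : |∑ k ∈ Icc 1 (x / y), ∑ q ∈ eqBS x l a c k, Real.log q * eqBw y J k q
      - ∑ k ∈ Icc 1 (x / y), eqBom y J x k * ∑ q ∈ eqBS x l a c k, Real.log q| ≤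
      Real.log ((x : ℝ) + l) * (((l : ℝ) / (zz y J : ℕ) + 1) * (l * (zz y J : ℕ) / x + 1)) := by
    rw [← sum_sub_distrib]
    refine (abs_sum_le_sum_abs _ _).trans ?_
    have h1 : ∀ k ∈ Icc 1 (x / y), |∑ q ∈ eqBS x l a c k, Real.log q * eqBw y J k q
        - eqBom y J x k * ∑ q ∈ eqBS x l a c k, Real.log q| ≤
        if x < k * zz y J ∧ k * zz y J ≤ x + l then Real.log ((x : ℝ) + l) *
          ((((Icc 1 (x + l)).filter (fun q => x < k * q ∧ k * q ≤ x + l)).card : ℕ) : ℝ)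
        else 0 := by
      intro k hk
      rw [mem_Icc] at hk
      have hky : k * y ≤ x := (Nat.le_div_iff_mul_le hy).1 hk.2
      have h2 : ∑ q ∈ eqBS x l a c k, Real.log q * eqBw y J k q
          - eqBom y J x k * ∑ q ∈ eqBS x l a c k, Real.log q =
          ∑ q ∈ eqBS x l a c k, Real.log q * (eqBw y J k q - eqBom y J x k) := by
        rw [mul_sum, ← sum_sub_distrib]
        refine sum_congr rfl fun q _ => ?_
        ring
      rw [h2]
      split_ifs with h3
      · refine (abs_sum_le_sum_abs _ _).trans ?_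
        have h4 : ∀ q ∈ eqBS x l a c k, |Real.log q * (eqBw y J k q - eqBom y J x k)| ≤
            Real.log ((x : ℝ) + l) := by
          intro q hq
          rw [abs_mul, abs_of_nonneg (hlog0 q)]
          have h5 : |eqBw y J k q - eqBom y J x k| ≤ 1 := by
            have := eqBw_nonneg y J k q
            have := eqBw_le y J k q
            have := eqBom_nonneg y J x k
            have := eqBom_le y J x k
            rw [abs_le]
            constructor <;> linarith
          calc Real.log q * |eqBw y J k q - eqBom y J x k| ≤ Real.log q * 1 :=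
                mul_le_mul_of_nonneg_left h5 (hlog0 q)
            _ ≤ Real.log ((x : ℝ) + l) := by rw [mul_one]; exact hlog k q hq
        refine (sum_le_sum h4).trans ?_
        rw [sum_const, nsmul_eq_mul, mul_comm]
        exact mul_le_mul_of_nonneg_left (hcard k) hL
      · have h4 : ∀ q ∈ eqBS x l a c k, Real.log q * (eqBw y J k q - eqBom y J x k) = 0 := by
          intro q hq
          rw [eqBS, mem_filter] at hq
          obtain ⟨-, -, h5, h6, -⟩ := hq
          have hyq : y < q := by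
            by_contra h7
            have h8 : k * q ≤ k * y := Nat.mul_le_mul_left k (not_lt.1 h7)
            omega
          have h9 : (q ≤ zz y J) ↔ (x < k * zz y J) := by
            constructor
            · intro h7
              exact h5.trans_le (Nat.mul_le_mul_left k h7)
            · intro h7
              by_contra h8
              have h10 : x + l < k * zz y J := by
                by_contra h11
                exact h3 ⟨h7, not_lt.1 h11⟩
              have h11 : k * zz y J ≤ k * q := Nat.mul_le_mul_left k (not_le.1 h8).le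
              omega
          have h10 : eqBw y J k q = eqBom y J x k := by
            unfold eqBw eqBom
            rw [if_pos hyq]
            by_cases h11 : q ≤ zz y J
            · rw [if_pos h11, if_pos (h9.1 h11)]
            · rw [if_neg h11, if_neg (fun h12 => h11 (h9.2 h12))]
          rw [h10, sub_self, mul_zero]
        rw [sum_eq_zero h4, abs_zero]
    refine (sum_le_sum h1).trans ?_
    rw [← sum_filter, ← mul_sum]
    exact mul_le_mul_of_nonneg_left (eqB_dw hx hz _) hL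
  -- the second part
  have hP2 : |∑ k ∈ Ioc (x / y) (x + l), ∑ q ∈ eqBS x l a c k, Real.log q * eqBw y J k q| ≤
      Real.log ((x : ℝ) + l) * (((l : ℝ) / y + 1) * (l * y / x + 1)) := by
    refine (abs_sum_le_sum_abs _ _).trans ?_
    have h1 : ∀ k ∈ Ioc (x / y) (x + l), |∑ q ∈ eqBS x l a c k, Real.log q * eqBw y J k q| ≤
        if x < k * y ∧ k * y ≤ x + l then Real.log ((x : ℝ) + l) *
          ((((Icc 1 (x + l)).filter (fun q => x < k * q ∧ k * q ≤ x + l)).card : ℕ) : ℝ)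
        else 0 := by
      intro k hk
      rw [mem_Ioc] at hk
      have hky : x < k * y := (Nat.div_lt_iff_lt_mul hy).1 hk.1
      split_ifs with h3
      · refine (abs_sum_le_sum_abs _ _).trans ?_
        have h4 : ∀ q ∈ eqBS x l a c k, |Real.log q * eqBw y J k q| ≤
            Real.log ((x : ℝ) + l) := by
          intro q hq
          rw [abs_mul, abs_of_nonneg (hlog0 q), abs_of_nonneg (eqBw_nonneg y J k q)]
          calc Real.log q * eqBw y J k q ≤ Real.log q * 1 :=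
                mul_le_mul_of_nonneg_left (eqBw_le y J k q) (hlog0 q)
            _ ≤ Real.log ((x : ℝ) + l) := by rw [mul_one]; exact hlog k q hq
        refine (sum_le_sum h4).trans ?_
        rw [sum_const, nsmul_eq_mul, mul_comm]
        exact mul_le_mul_of_nonneg_left (hcard k) hL
      · have h4 : ∀ q ∈ eqBS x l a c k, Real.log q * eqBw y J k q = 0 := by
          intro q hq
          rw [eqBS, mem_filter] at hq
          obtain ⟨-, -, h5, h6, -⟩ := hq
          have hyq : ¬ y < q := by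
            intro h7
            have h8 : k * y ≤ k * q := Nat.mul_le_mul_left k h7.le
            exact h3 ⟨hky, h8.trans h6⟩
          unfold eqBw
          rw [if_neg hyq, mul_zero]
        rw [sum_eq_zero h4, abs_zero]
    refine (sum_le_sum h1).trans ?_
    rw [← sum_filter, ← mul_sum]
    exact mul_le_mul_of_nonneg_left (eqB_dw hx hy _) hL
  rw [hsplit, mul_add]
  have h5 : ∀ u v w : ℝ, u + v - w = (u - w) + v := fun u v w => by ring
  rw [h5]
  exact (abs_add_le _ _).trans (add_le_add hP1 hP2)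

/-! ### the primes for a fixed cofactor -/

private theorem eqB_psi_sub {Y1 Y2 c a : ℕ} (h : Y1 ≤ Y2) :
    psiA Y2 c a - psiA Y1 c a = ∑ n ∈ (Ioc Y1 Y2).filter (fun n => n ≡ a [MOD c]), Lam n := by
  have h1 : ∀ n : ℕ, Icc 1 n = Ioc 0 n := fun n => by ext i; simp; omega
  unfold psiA
  rw [h1, h1, sum_filter, sum_filter, sum_filter,
    ← sum_Ioc_consecutive _ (Nat.zero_le Y1) h]
  ring

private theorem eqB_nonprime {Y1 Y2 c a : ℕ} (hY : 1 ≤ Y2) :
    0 ≤ ∑ n ∈ ((Ioc Y1 Y2).filter (fun n => n ≡ a [MOD c])).filter (fun n => ¬ n.Prime), Lam n ∧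
    ∑ n ∈ ((Ioc Y1 Y2).filter (fun n => n ≡ a [MOD c])).filter (fun n => ¬ n.Prime), Lam n ≤
      2 * Real.sqrt Y2 * Real.log Y2 := by
  have hnn : ∀ n : ℕ, 0 ≤ Lam n := fun n => ArithmeticFunction.vonMangoldt_nonneg
  refine ⟨sum_nonneg fun n _ => hnn n, ?_⟩
  have h1 := Chebyshev.psi_sub_theta_eq_sum_not_prime (Y2 : ℝ)
  have h2 := Chebyshev.psi_sub_theta_le (x := (Y2 : ℝ)) (by exact_mod_cast hY)
  rw [h1, Nat.floor_natCast] at h2
  refine le_trans ?_ h2
  refine sum_le_sum_of_subset_of_nonneg ?_ fun n _ _ => hnn n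
  intro n hn
  rw [mem_filter, mem_filter, mem_Ioc] at hn
  rw [mem_filter, mem_Ioc]
  exact ⟨⟨by omega, hn.1.1.2⟩, hn.2⟩

private theorem eqB_inv {a c k : ℕ} (hc : 1 ≤ c) (hk : Nat.Coprime k c) (ha : Nat.Coprime a c) :
    ∃ a' : ℕ, Nat.Coprime a' c ∧ ∀ q : ℕ, k * q ≡ a [MOD c] ↔ q ≡ a' [MOD c] := by
  have : NeZero c := ⟨by omega⟩
  have hku : IsUnit (k : ZMod c) := (ZMod.isUnit_iff_coprime k c).mpr hk
  have hau : IsUnit (a : ZMod c) := (ZMod.isUnit_iff_coprime a c).mpr ha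
  obtain ⟨u, hu⟩ := hku
  refine ⟨((a : ZMod c) * (↑u⁻¹ : ZMod c)).val, ?_, fun q => ?_⟩
  · rw [← ZMod.isUnit_iff_coprime, ZMod.natCast_zmod_val]
    exact hau.mul (Units.isUnit _)
  · rw [← ZMod.natCast_eq_natCast_iff, ← ZMod.natCast_eq_natCast_iff, ZMod.natCast_zmod_val,
      Nat.cast_mul, ← hu]
    constructor
    · intro h
      rw [← h, mul_comm (u : ZMod c), mul_assoc, Units.mul_inv, mul_one]
    · intro h
      rw [h, mul_comm (a : ZMod c), ← mul_assoc, Units.mul_inv, one_mul]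

private theorem eqB_pr {x l a c k : ℕ} (hk : 1 ≤ k) (hc : 1 ≤ c) (hkc : Nat.Coprime k c)
    (ha : Nat.Coprime a c) (hY : 1 ≤ (x + l) / k) {E : ℝ}
    (hE : ∀ a' : ℕ, Nat.Coprime a' c → ∀ Y : ℕ, Y ≤ (x + l) / k →
      |psiA Y c a' - Y / (c.totient : ℝ)| ≤ E) :
    |∑ q ∈ eqBS x l a c k, Real.log q - (l : ℝ) / k / c.totient| ≤
      2 * E + 1 + 2 * Real.sqrt ((x + l) / k : ℕ) * Real.log ((x + l) / k : ℕ) := by
  obtain ⟨a', ha', hiff⟩ := eqB_inv hc hkc ha
  set Y1 : ℕ := x / k with hY1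
  set Y2 : ℕ := (x + l) / k with hY2
  have hkR : (0 : ℝ) < k := by exact_mod_cast hk
  have h12 : Y1 ≤ Y2 := Nat.div_le_div_right (Nat.le_add_right _ _)
  have hφ : 0 < c.totient := Nat.totient_pos.mpr hc
  have hφ1 : (1 : ℝ) ≤ c.totient := by exact_mod_cast hφ
  have hφ0 : (0 : ℝ) < c.totient := by exact_mod_cast hφ
  have h1 : ∑ q ∈ eqBS x l a c k, Real.log q =
      ∑ n ∈ ((Ioc Y1 Y2).filter (fun n => n ≡ a' [MOD c])).filter (fun n => n.Prime), Lam n := by
    have h2 : eqBS x l a c k =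
        ((Ioc Y1 Y2).filter (fun n => n ≡ a' [MOD c])).filter (fun n => n.Prime) := by
      ext q
      rw [eqBS, mem_filter, mem_filter, mem_filter, mem_Icc, mem_Ioc, hiff q, hY1, hY2,
        Nat.div_lt_iff_lt_mul hk, Nat.le_div_iff_mul_le hk, mul_comm q k]
      constructor
      · rintro ⟨⟨h3, h4⟩, h5, h6, h7, h8⟩
        exact ⟨⟨⟨h6, h7⟩, h8⟩, h5⟩
      · rintro ⟨⟨⟨h6, h7⟩, h8⟩, h5⟩
        refine ⟨⟨h5.pos, ?_⟩, h5, h6, h7, h8⟩
        exact (Nat.le_mul_of_pos_left q hk).trans h7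
    rw [h2]
    refine sum_congr rfl fun n hn => ?_
    rw [mem_filter] at hn
    exact (ArithmeticFunction.vonMangoldt_apply_prime hn.2).symm
  have h3 := sum_filter_add_sum_filter_not ((Ioc Y1 Y2).filter (fun n => n ≡ a' [MOD c]))
    (fun n => n.Prime) Lam
  rw [← eqB_psi_sub h12] at h3
  obtain ⟨h4, h5⟩ := eqB_nonprime (Y1 := Y1) (c := c) (a := a') hY
  have h6 := hE a' ha' Y2 le_rfl
  have h7 := hE a' ha' Y1 h12
  rw [← h1] at h3
  have h8 : |((Y2 : ℝ) - Y1) - l / k| ≤ 1 := by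
    have g1 : (Y2 : ℝ) ≤ ((x + l : ℕ) : ℝ) / k := Nat.cast_div_le
    have g2 : (Y1 : ℝ) ≤ (x : ℝ) / k := Nat.cast_div_le
    have g3 : (x : ℝ) / k < (Y1 : ℝ) + 1 := by
      rw [div_lt_iff₀ hkR]
      have h5 : x < (x / k + 1) * k := by
        have := Nat.lt_div_mul_add (a := x) hk
        rw [add_mul, one_mul]
        exact this
      exact_mod_cast h5
    have g4 : ((x + l : ℕ) : ℝ) / k < (Y2 : ℝ) + 1 := by
      rw [div_lt_iff₀ hkR]
      have h5 : x + l < ((x + l) / k + 1) * k := by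
        have := Nat.lt_div_mul_add (a := x + l) hk
        rw [add_mul, one_mul]
        exact this
      exact_mod_cast h5
    push_cast at g1 g4
    rw [add_div] at g1 g4
    rw [abs_le]
    constructor <;> linarith only [g2, g4, g3, g1]
  have h9 : |(((Y2 : ℝ) - Y1) - l / k) / c.totient| ≤ 1 := by
    rw [abs_div, abs_of_pos hφ0, div_le_one hφ0]
    exact h8.trans hφ1
  have h10 : ∑ q ∈ eqBS x l a c k, Real.log q - (l : ℝ) / k / c.totient =
      (psiA Y2 c a' - Y2 / (c.totient : ℝ)) - (psiA Y1 c a' - Y1 / (c.totient : ℝ)) +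
        (((Y2 : ℝ) - Y1) - l / k) / c.totient -
        ∑ n ∈ ((Ioc Y1 Y2).filter (fun n => n ≡ a' [MOD c])).filter (fun n => ¬ n.Prime),
          Lam n := by
    have h11 : (((Y2 : ℝ) - Y1) - l / k) / c.totient =
        (Y2 : ℝ) / c.totient - Y1 / c.totient - l / k / c.totient := by ring
    rw [h11]
    linarith only [h3]
  rw [h10]
  rw [abs_le] at h6 h7 h9 ⊢
  constructor <;> linarith only [h5, h6, h7, h9, h4, h6.1, h6.2, h7.1, h7.2, h9.1, h9.2]

/-- the sum over the cofactors -/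
private theorem eqB_sum_pr {x l a c y J : ℕ} (hx : 1 ≤ x) (hl : l ≤ x) (hy : 2 ≤ y) (hcy : c ≤ y)
    (hc : 1 ≤ c) (ha : Nat.Coprime a c) {e : ℝ} (he : 0 ≤ e)
    (hE : ∀ X : ℕ, y ≤ X → X ≤ 2 * x → ∀ a' : ℕ, Nat.Coprime a' c → ∀ Y : ℕ, Y ≤ X →
      |psiA Y c a' - Y / (c.totient : ℝ)| ≤ X * e) :
    |∑ k ∈ Icc 1 (x / y), eqBom y J x k * ∑ q ∈ eqBS x l a c k, Real.log q
      - ∑ k ∈ Icc 1 (x / y), eqBom y J x k * ((l : ℝ) / k / c.totient)| ≤
      2 * x * (2 * e + 1 / y + 2 * Real.log (2 * x) / Real.sqrt y) * (1 + Real.log x) := by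
  have hxR : (0 : ℝ) < x := by exact_mod_cast hx
  have hyR : (0 : ℝ) < y := by exact_mod_cast (by omega : 0 < y)
  have hsy : 0 < Real.sqrt y := Real.sqrt_pos.2 hyR
  have hlog2x : 0 ≤ Real.log (2 * x) := by
    have := Real.log_natCast_nonneg (2 * x)
    push_cast at this
    exact this
  set δ : ℝ := 2 * e + 1 / y + 2 * Real.log (2 * x) / Real.sqrt y with hδ
  have hδ0 : 0 ≤ δ := by positivity
  rw [← sum_sub_distrib]
  refine (abs_sum_le_sum_abs _ _).trans ?_
  have h1 : ∀ k ∈ Icc 1 (x / y), |eqBom y J x k * ∑ q ∈ eqBS x l a c k, Real.log q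
      - eqBom y J x k * ((l : ℝ) / k / c.totient)| ≤ 2 * x * δ * (k : ℝ)⁻¹ := by
    intro k hk
    rw [mem_Icc] at hk
    have hkR : (0 : ℝ) < k := by exact_mod_cast hk.1
    have hky : k * y ≤ x := (Nat.le_div_iff_mul_le (by omega)).1 hk.2
    rw [← mul_sub, abs_mul, abs_of_nonneg (eqBom_nonneg y J x k)]
    rcases eqB_rg_cases y k with h0 | h0
    · have h2 : eqBom y J x k = 0 := by
        unfold eqBom
        rw [h0, zero_div]
      rw [h2, zero_mul]
      positivity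
    · have hkc : Nat.Coprime k c := by
        by_contra h2
        obtain ⟨p, hp, hpk, hpc⟩ := Nat.Prime.not_coprime_iff_dvd.1 h2
        have h3 := eqB_rg_one.1 h0 p hp hpk
        have h4 : p ≤ c := Nat.le_of_dvd hc hpc
        omega
      set X : ℕ := (x + l) / k with hX
      have hyX : y ≤ X := by
        rw [hX, Nat.le_div_iff_mul_le hk.1, mul_comm]
        omega
      have hXle : (X : ℝ) ≤ 2 * x / k := by
        have g1 : (X : ℝ) ≤ ((x + l : ℕ) : ℝ) / k := Nat.cast_div_le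
        refine g1.trans ?_
        push_cast
        have g2 : (l : ℝ) ≤ x := by exact_mod_cast hl
        gcongr
        linarith only [g2]
      have hX2 : X ≤ 2 * x := (Nat.div_le_self _ _).trans (by omega)
      have hXR : (0 : ℝ) < X := by exact_mod_cast (by omega : 0 < X)
      have hyXR : (y : ℝ) ≤ X := by exact_mod_cast hyX
      have h5 := eqB_pr (x := x) (l := l) hk.1 hc hkc ha (by omega) (E := X * e)
        (fun a' ha' Y hY' => hE X hyX hX2 a' ha' Y hY')
      rw [← hX] at h5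
      have h6 : 2 * (X * e) + 1 + 2 * Real.sqrt X * Real.log X ≤ X * δ := by
        have g1 : (1 : ℝ) ≤ X * (1 / y) := by
          rw [mul_one_div, one_le_div hyR]
          exact hyXR
        have g2 : Real.sqrt X ≤ X / Real.sqrt y := by
          rw [le_div_iff₀ hsy]
          calc Real.sqrt X * Real.sqrt y ≤ Real.sqrt X * Real.sqrt X :=
                mul_le_mul_of_nonneg_left (Real.sqrt_le_sqrt hyXR) (Real.sqrt_nonneg _)
            _ = X := Real.mul_self_sqrt hXR.le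
        have g3 : Real.log X ≤ Real.log (2 * x) := by
          refine Real.log_le_log hXR ?_
          exact_mod_cast hX2
        have g4 : 0 ≤ Real.log X := Real.log_natCast_nonneg X
        have g5 : 2 * Real.sqrt X * Real.log X ≤
            2 * (X / Real.sqrt y) * Real.log (2 * x) := by
          have g6 : 0 ≤ Real.sqrt X := Real.sqrt_nonneg _
          have g7 : 0 ≤ X / Real.sqrt y := by positivity
          gcongr
        have g8 : X * δ = 2 * (X * e) + X * (1 / y) +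
            2 * (X / Real.sqrt y) * Real.log (2 * x) := by
          rw [hδ]
          ring
        rw [g8]
        linarith only [g1, g5]
      have h7 : X * δ ≤ 2 * x * δ * (k : ℝ)⁻¹ := by
        calc X * δ ≤ 2 * x / k * δ := mul_le_mul_of_nonneg_right hXle hδ0
          _ = 2 * x * δ * (k : ℝ)⁻¹ := by ring
      have h8 := eqBom_le y J x k
      have h9 := (h5.trans h6).trans h7
      calc eqBom y J x k * |∑ q ∈ eqBS x l a c k, Real.log q - (l : ℝ) / k / c.totient|
          ≤ 1 * (2 * x * δ * (k : ℝ)⁻¹) :=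
            mul_le_mul h8 h9 (abs_nonneg _) zero_le_one
        _ = 2 * x * δ * (k : ℝ)⁻¹ := one_mul _
  refine (sum_le_sum h1).trans ?_
  rw [← mul_sum]
  refine mul_le_mul_of_nonneg_left ?_ (by positivity)
  have h2 := harmonic_le_one_add_log (x / y)
  rw [harmonic_eq_sum_Icc] at h2
  push_cast at h2
  refine h2.trans ?_
  have h3 : Real.log ((x / y : ℕ) : ℝ) ≤ Real.log x := by
    rcases Nat.eq_zero_or_pos (x / y) with h | h
    · rw [h, Nat.cast_zero, Real.log_zero]
      exact Real.log_natCast_nonneg x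
    · exact Real.log_le_log (by exact_mod_cast h) (by exact_mod_cast Nat.div_le_self x y)
  linarith only [h3]

/-! ### sizes -/

private theorem eqB_ev (β e1 ζ C : ℝ) (he1 : 0 < e1) (hβ : 0 < β) (hζ2 : ζ < β) (M x0 : ℕ) :
    ∃ N0 : ℕ, ∀ N : ℕ, N0 ≤ N → 2 ≤ N ∧ 12 ≤ Real.log N ∧ C ≤ Real.log N ∧
      2 ≤ yN e1 N ∧ x0 ≤ yN e1 N ∧ 108 * Real.log N ^ M ≤ Real.sqrt (yN e1 N) ∧
      108 * Real.log N ^ M * (N : ℝ) ^ ζ ≤ (N : ℝ) ^ β ∧
      108 * Real.log N ^ M ≤ (N : ℝ) ^ (β / 2) ∧ e1 / 2 * Real.log N ≤ Real.log (yN e1 N) := by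
  set s : ℝ := min (e1 / 4) (min (β - ζ) (β / 2)) with hs
  have hs0 : 0 < s := by
    rw [hs]
    refine lt_min (by positivity) (lt_min (by linarith) (by linarith))
  have hcast := tendsto_natCast_atTop_atTop (R := ℝ)
  have hlog : Filter.Tendsto (fun N : ℕ => Real.log (N : ℝ)) Filter.atTop Filter.atTop :=
    Real.tendsto_log_atTop.comp hcast
  have h1 : ∀ᶠ N : ℕ in Filter.atTop, 2 ≤ N := Filter.eventually_ge_atTop 2
  have h2 : ∀ᶠ N : ℕ in Filter.atTop, 12 ≤ Real.log N := hlog.eventually_ge_atTop 12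
  have h3 : ∀ᶠ N : ℕ in Filter.atTop, C ≤ Real.log N := hlog.eventually_ge_atTop C
  have h4 : ∀ᶠ N : ℕ in Filter.atTop, 2 + (x0 : ℝ) ≤ (N : ℝ) ^ (e1 / 2) :=
    ((tendsto_rpow_atTop (by positivity)).comp hcast).eventually_ge_atTop _
  have h5 : ∀ᶠ N : ℕ in Filter.atTop, 108 * Real.log N ^ M ≤ (N : ℝ) ^ s := by
    have h6 := (isLittleO_log_rpow_rpow_atTop (M : ℝ) hs0).bound
      (show (0 : ℝ) < 1 / 108 by norm_num)
    have h7 := hcast.eventually h6
    filter_upwards [h7, h1, h2] with N h8 h9 h10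
    rw [Real.norm_eq_abs, Real.norm_eq_abs, Real.rpow_natCast,
      abs_of_nonneg (by positivity), abs_of_nonneg (by positivity)] at h8
    linarith only [h8]
  obtain ⟨N0, hN0⟩ := Filter.eventually_atTop.1 (h1.and (h2.and (h3.and (h4.and h5))))
  refine ⟨N0, fun N hN => ?_⟩
  obtain ⟨g1, g2, g3, g4, g5⟩ := hN0 N hN
  have hNR : (1 : ℝ) ≤ N := by exact_mod_cast (by omega : 1 ≤ N)
  have hN0' : (0 : ℝ) < N := by linarith only [hNR]
  set t : ℝ := (N : ℝ) ^ (e1 / 2) with ht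
  have hx0 : (0 : ℝ) ≤ x0 := Nat.cast_nonneg _
  have ht2 : 2 ≤ t := by linarith
  have hyt : t ≤ yN e1 N := by
    have g6 : (N : ℝ) ^ e1 = t * t := by
      rw [ht, ← Real.rpow_add hN0']
      congr 1
      ring
    have g7 : (N : ℝ) ^ e1 < (yN e1 N : ℝ) + 1 := by
      unfold yN
      exact Nat.lt_floor_add_one _
    nlinarith only [g4, g6, g7]
  have hst : (N : ℝ) ^ s ≤ Real.sqrt (yN e1 N) := by
    have g6 : (N : ℝ) ^ s ≤ (N : ℝ) ^ (e1 / 4) :=
      Real.rpow_le_rpow_of_exponent_le hNR (min_le_left _ _)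
    have g7 : (N : ℝ) ^ (e1 / 4) = Real.sqrt t := by
      rw [ht, Real.sqrt_eq_rpow, ← Real.rpow_mul hN0'.le]
      congr 1
      ring
    rw [g7] at g6
    exact g6.trans (Real.sqrt_le_sqrt hyt)
  refine ⟨g1, g2, g3, ?_, ?_, g5.trans hst, ?_, ?_, ?_⟩
  · exact_mod_cast ht2.trans hyt
  · have : (x0 : ℝ) ≤ yN e1 N := by linarith
    exact_mod_cast this
  · have g6 : (N : ℝ) ^ s ≤ (N : ℝ) ^ (β - ζ) :=
      Real.rpow_le_rpow_of_exponent_le hNR ((min_le_right _ _).trans (min_le_left _ _))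
    have g7 : (N : ℝ) ^ β = (N : ℝ) ^ (β - ζ) * (N : ℝ) ^ ζ := by
      rw [← Real.rpow_add hN0']
      congr 1
      ring
    rw [g7]
    exact mul_le_mul_of_nonneg_right (g5.trans g6) (by positivity)
  · exact g5.trans (Real.rpow_le_rpow_of_exponent_le hNR
      ((min_le_right _ _).trans (min_le_right _ _)))
  · have g6 : Real.log t ≤ Real.log (yN e1 N) := Real.log_le_log (by linarith) hyt
    rwa [ht, Real.log_rpow hN0'] at g6

private theorem eqB_dwb {L u l m x : ℝ} (hL : 12 ≤ L) (hu : 1 ≤ u) (hl : 0 ≤ l) (hx : 0 < x)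
    (hm : 12 * (L * u) ≤ m) (hmx : 12 * (L * u) * m ≤ x) (hlx : l * (L ^ 3 * u) ≤ x)
    (hul : 12 * (L * u) ≤ l) :
    3 * L * ((l / m + 1) * (l * m / x + 1)) ≤ l / u := by
  have hL0 : 0 < L := by linarith
  have hu0 : 0 < u := by linarith
  have hLu : 0 < L * u := by positivity
  have hm0 : 0 < m := by linarith
  have e1 : 3 * L * ((l / m + 1) * (l * m / x + 1)) =
      3 * L * (l * l / x) + 3 * L * (l / m) + 3 * L * (l * m / x) + 3 * L := by
    field_simp
    ring
  have e2 : 3 * L * (l * l / x) ≤ l / (4 * u) := by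
    rw [mul_div_assoc', div_le_div_iff₀ hx (by positivity)]
    have h1 : 12 * L ≤ L ^ 3 := by nlinarith only [hL, sq_nonneg L, sq_nonneg (L - 12)]
    have h2 : 12 * L * (l * u) ≤ L ^ 3 * (l * u) :=
      mul_le_mul_of_nonneg_right h1 (by positivity)
    have h3 : l * (12 * L * (l * u)) ≤ l * x := mul_le_mul_of_nonneg_left (by linarith) hl
    linarith
  have e3 : 3 * L * (l / m) ≤ l / (4 * u) := by
    rw [mul_div_assoc', div_le_div_iff₀ hm0 (by positivity)]
    have h3 : l * (12 * (L * u)) ≤ l * m := mul_le_mul_of_nonneg_left hm hl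
    linarith only [h3]
  have e4 : 3 * L * (l * m / x) ≤ l / (4 * u) := by
    rw [mul_div_assoc', div_le_div_iff₀ hx (by positivity)]
    have h3 : l * (12 * (L * u) * m) ≤ l * x := mul_le_mul_of_nonneg_left hmx hl
    linarith only [h3]
  have e5 : 3 * L ≤ l / (4 * u) := by
    rw [le_div_iff₀ (by positivity)]
    linarith only [hul]
  have e6 : l / (4 * u) = l / u / 4 := by
    field_simp
  rw [e1]
  rw [e6] at e2 e3 e4 e5
  linarith only [e2, e3, e4, e5]

/-- the general form, `x ≥ N^β` for any `β > ζ` -/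
theorem eq_bg (β e1 ζ : ℝ) (he1 : 0 < e1) (hζ : e1 < ζ) (hζ2 : ζ < β) (A B K : ℕ) :
    ∃ N0 : ℕ, ∀ N : ℕ, N0 ≤ N → ∀ J x l c a : ℕ, (zz (yN e1 N) J : ℝ) ≤ (N : ℝ) ^ ζ →
      (N : ℝ) ^ β ≤ x → x ≤ N ^ 2 → (x : ℝ) / Real.log N ^ K ≤ l →
      (l : ℝ) ≤ x / Real.log N ^ (A + 3) → 1 ≤ c → (c : ℝ) ≤ Real.log N ^ B →
      |∑ k ∈ (Ioc x (x + l)).filter (fun k => k ≡ a [MOD c]), bf (yN e1 N) J k
        - (if Nat.Coprime a c then (l : ℝ) * kap (yN e1 N) J x / c.totient else 0)| ≤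
          l / Real.log N ^ A := by
  obtain ⟨x0, hx0⟩ := psi_ap (B + 1) (A + K + 2)
  have hβ : 0 < β := by linarith
  obtain ⟨N0, hN0⟩ := eqB_ev β e1 ζ
    (36 * (2 / e1) ^ (A + K + 2) + (2 / e1) ^ (B + 1) + 5 / β) he1 hβ hζ2 (A + B + K + 2) x0
  refine ⟨N0, fun N hN J x l c a hzN hxN hxN2 hl1 hl2 hc hcB => ?_⟩
  obtain ⟨hN2, hL12, hLC, hy2, hyx0, hsy, hNz, hN4, hlogy⟩ := hN0 N hN
  set L : ℝ := Real.log N with hLdef
  set y : ℕ := yN e1 N with hydef
  set u : ℝ := L ^ A with hu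
  set v : ℝ := L ^ K with hv
  have hL0 : 0 < L := by linarith only [hL12]
  have hL1 : 1 ≤ L := by linarith only [hL12]
  have hu1 : 1 ≤ u := one_le_pow₀ hL1
  have hv1 : 1 ≤ v := one_le_pow₀ hL1
  have hu0 : 0 < u := by linarith only [hu1]
  have hv0 : 0 < v := by linarith only [hv1]
  have hB1 : 1 ≤ L ^ B := one_le_pow₀ hL1
  have hw : L ^ (A + B + K + 2) = L ^ 2 * u * v * L ^ B := by
    rw [hu, hv]
    ring
  have hw1 : L ^ 2 * u * v ≤ L ^ (A + B + K + 2) := by
    rw [hw]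
    exact le_mul_of_one_le_right (by positivity) hB1
  have hw2 : L ^ B ≤ L ^ (A + B + K + 2) := pow_le_pow_right₀ hL1 (by omega)
  have hNR : (2 : ℝ) ≤ N := by exact_mod_cast hN2
  have hN0' : (0 : ℝ) < N := by linarith only [hNR]
  have hyR : (2 : ℝ) ≤ y := by exact_mod_cast hy2
  have hy0 : (0 : ℝ) < y := by linarith only [hyR]
  have hsyle : Real.sqrt y ≤ y := by
    rw [Real.sqrt_le_left (by linarith only [hyR])]
    nlinarith only [hyR]
  have hsy0 : 0 < Real.sqrt y := Real.sqrt_pos.2 hy0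
  -- facts about x
  have hr0 : (0 : ℝ) < (N : ℝ) ^ (β / 2) := by positivity
  have hr2 : (N : ℝ) ^ (β / 2) * (N : ℝ) ^ (β / 2) = (N : ℝ) ^ β := by
    rw [← Real.rpow_add hN0']
    congr 1
    ring
  have hxpos : (0 : ℝ) < x := lt_of_lt_of_le (by positivity) hxN
  have hx1 : 1 ≤ x := by exact_mod_cast hxpos
  have hsx : (N : ℝ) ^ (β / 2) ≤ Real.sqrt x := by
    refine Real.le_sqrt_of_sq_le ?_
    rw [sq, hr2]
    exact hxN
  have hsx0 : 0 < Real.sqrt x := Real.sqrt_pos.2 hxpos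
  have hsxx : Real.sqrt x * Real.sqrt x = x := Real.mul_self_sqrt hxpos.le
  have hF3 : 108 * (L ^ 2 * u * v) ≤ Real.sqrt x := by
    have := hN4.trans hsx
    linarith only [hN4, hw1, hsx]
  have hF1 : 108 * (L ^ 2 * u * v) ≤ Real.sqrt y := by linarith only [hsy, hw1]
  have hLL : L * u * v ≤ L ^ 2 * u * v := by
    have h1 : L ≤ L ^ 2 := by nlinarith only [hL12]
    have h2 : L * (u * v) ≤ L ^ 2 * (u * v) := mul_le_mul_of_nonneg_right h1 (by positivity)
    linarith only [h2]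
  have hLuv : 0 < L * u * v := by positivity
  have hLu : L * u ≤ L * u * v := le_mul_of_one_le_right (by positivity) hv1
  have hs1 : 1 ≤ Real.sqrt x := by
    have h1 : 1 ≤ L * u * v := by
      have h2 : 1 ≤ L * u := one_le_mul_of_one_le_of_one_le hL1 hu1
      linarith only [hLu, h2]
    linarith only [hN4, hB1, hw2, hsx]
  -- facts about l
  have hlx : (x : ℝ) ≤ l * v := by
    rwa [div_le_iff₀ hv0] at hl1
  have hl3 : (l : ℝ) * (L ^ 3 * u) ≤ x := by
    have h1 : L ^ (A + 3) = L ^ 3 * u := by rw [hu]; ring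
    rw [h1, le_div_iff₀ (by positivity)] at hl2
    exact hl2
  have hlpos : (0 : ℝ) < l := by
    by_contra h
    have h1 : (l : ℝ) * v ≤ 0 := mul_nonpos_of_nonpos_of_nonneg (not_lt.1 h) hv0.le
    linarith only [hxpos, hlx, h1]
  have hL3u : 1 ≤ L ^ 3 * u := one_le_mul_of_one_le_of_one_le (one_le_pow₀ hL1) hu1
  have hlxR : (l : ℝ) ≤ x := (le_mul_of_one_le_right hlpos.le hL3u).trans hl3
  have hlx' : l ≤ x := by exact_mod_cast hlxR
  have hul : 12 * (L * u) ≤ l := by
    have h1 : 108 * (L * u * v) * 1 ≤ Real.sqrt x * Real.sqrt x :=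
      mul_le_mul (by linarith only [hN4, hw1, hsx, hLL]) hs1 zero_le_one hsx0.le
    rw [hsxx] at h1
    have h2 : 12 * (L * u) * v ≤ l * v := by nlinarith only [hLuv, hlx, h1]
    exact le_of_mul_le_mul_right h2 hv0
  -- logarithms
  have hp1 : 0 ≤ 36 * (2 / e1) ^ (A + K + 2) := by positivity
  have hp2 : 0 ≤ (2 / e1) ^ (B + 1) := by positivity
  have hp3 : 0 < 5 / β := by positivity
  have hlogx : 5 ≤ Real.log x := by
    have h1 := Real.log_le_log (by positivity) hxN
    rw [Real.log_rpow hN0'] at h1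
    have h2 : 5 / β ≤ L := by linarith only [hLC, hp1, hp2]
    rw [div_le_iff₀ hβ] at h2
    linarith only [h1, h2]
  have hlogx0 : 0 < Real.log x := by linarith only [hlogx]
  have hxN2R : (x : ℝ) ≤ (N : ℝ) ^ 2 := by exact_mod_cast hxN2
  have hlogx2 : Real.log x ≤ 2 * L := by
    have h1 := Real.log_le_log hxpos hxN2R
    rw [Real.log_pow] at h1
    push_cast at h1
    exact h1
  have h2x : 2 * (x : ℝ) ≤ (N : ℝ) ^ 3 := by
    have h1 : 2 * (x : ℝ) ≤ N * (N : ℝ) ^ 2 :=
      mul_le_mul hNR hxN2R hxpos.le (by linarith only [hNR])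
    have h2 : (N : ℝ) * (N : ℝ) ^ 2 = (N : ℝ) ^ 3 := by ring
    linarith only [h1]
  have hlog2x : Real.log (2 * x) ≤ 3 * L := by
    have h1 := Real.log_le_log (by positivity) h2x
    rw [Real.log_pow] at h1
    push_cast at h1
    exact h1
  have hlogxl : Real.log ((x : ℝ) + l) ≤ 3 * L :=
    (Real.log_le_log (by positivity) (by linarith only [hlxR])).trans hlog2x
  have hlogxl0 : 0 ≤ Real.log ((x : ℝ) + l) := by
    have := Real.log_natCast_nonneg (x + l)
    push_cast at this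
    exact this
  have hcy : c ≤ y := by
    have h1 : (c : ℝ) ≤ y := by
      have : 0 ≤ L ^ (A + B + K + 2) := by positivity
      linarith only [hcB, hsy, hB1, hw2, hsyle]
    exact_mod_cast h1
  have hT0 : 0 ≤ (l : ℝ) / u := by positivity
  by_cases hac : Nat.Coprime a c
  swap
  · -- both sides vanish
    rw [if_neg hac, sub_zero]
    have h1 : ∀ k ∈ (Ioc x (x + l)).filter (fun k => k ≡ a [MOD c]), bf y J k = 0 := by
      intro k hk
      rw [mem_filter] at hk
      obtain ⟨p, hp, hpa, hpc⟩ := Nat.Prime.not_coprime_iff_dvd.1 hac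
      have h2 : p ∣ k := (hk.2.dvd_iff hpc).2 hpa
      have h3 : p ≤ y := (Nat.le_of_dvd hc hpc).trans hcy
      unfold bf
      rw [eqB_rg_zero hp h2 h3, zero_div]
    rw [sum_eq_zero h1, abs_zero]
    exact hT0
  rw [if_pos hac]
  set z : ℕ := zz y J with hzdef
  have hyz : y ≤ z := by
    rw [hzdef]
    unfold zz
    exact Nat.le_mul_of_pos_left y (by positivity)
  have hyzR : (y : ℝ) ≤ z := by exact_mod_cast hyz
  have hz1 : 1 ≤ z := by omega
  have hmy : 12 * (L * u) ≤ y := by linarith only [hsy, hB1, hw1, hw2, hsyle, hLL, hLu]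
  have hmz : 12 * (L * u) ≤ z := by linarith only [hsy, hB1, hw1, hw2, hsyle, hLL, hLu, hyzR]
  have hzx : 12 * (L * u) * z ≤ x := by
    have hz0 : (0 : ℝ) ≤ z := Nat.cast_nonneg _
    have h1 : 12 * (L * u) ≤ 108 * L ^ (A + B + K + 2) := by linarith only [hB1, hw1, hw2, hLL, hLu]
    calc 12 * (L * u) * (z : ℝ) ≤ 108 * L ^ (A + B + K + 2) * (N : ℝ) ^ ζ :=
          mul_le_mul h1 hzN hz0 (by positivity)
      _ ≤ x := hNz.trans hxN
  have hyx : 12 * (L * u) * y ≤ x := by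
    have h1 : 12 * (L * u) * (y : ℝ) ≤ 12 * (L * u) * z :=
      mul_le_mul_of_nonneg_left hyzR (by positivity)
    linarith only [hzx, h1]
  -- the sums
  set I : Finset ℕ := (Ioc x (x + l)).filter (fun k => k ≡ a [MOD c]) with hI
  set S : ℝ := ∑ k ∈ I, bf y J k with hS
  set T1 : ℝ := ∑ k ∈ I, bf y J k * Real.log k with hT1
  set T3 : ℝ := ∑ k ∈ Icc 1 (x + l), ∑ q ∈ eqBS x l a c k, Real.log q * eqBw y J k q with hT3
  set T4 : ℝ := ∑ k ∈ Icc 1 (x / y), eqBom y J x k * ∑ q ∈ eqBS x l a c k, Real.log q with hT4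
  set T5 : ℝ := ∑ k ∈ Icc 1 (x / y), eqBom y J x k * ((l : ℝ) / k / c.totient) with hT5
  have hIk : ∀ k ∈ I, x < k ∧ k ≤ x + l := by
    intro k hk
    rw [hI, mem_filter, mem_Ioc] at hk
    exact hk.1
  -- step 1
  have hs1' : |T1 - Real.log x * S| ≤ l / u := by
    have h1 : T1 - Real.log x * S = ∑ k ∈ I, bf y J k * (Real.log k - Real.log x) := by
      rw [hT1, hS, mul_sum, ← sum_sub_distrib]
      refine sum_congr rfl fun k _ => ?_
      ring
    rw [h1]
    refine (abs_sum_le_sum_abs _ _).trans ?_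
    have h2 : ∀ k ∈ I, |bf y J k * (Real.log k - Real.log x)| ≤ (l : ℝ) / x := by
      intro k hk
      obtain ⟨h3, h4⟩ := hIk k hk
      have h3R : (x : ℝ) ≤ k := by exact_mod_cast h3.le
      have h4R : (k : ℝ) ≤ x + l := by exact_mod_cast h4
      have hk0 : (0 : ℝ) < k := by linarith only [hxpos, h3R]
      have h5 : 0 ≤ Real.log k - Real.log x := by
        have := Real.log_le_log hxpos h3R
        linarith only [this]
      have h6 : Real.log k - Real.log x ≤ (l : ℝ) / x := by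
        rw [← Real.log_div hk0.ne' hxpos.ne']
        refine (Real.log_le_sub_one_of_pos (by positivity)).trans ?_
        rw [div_sub_one hxpos.ne']
        gcongr
        linarith only [h4R]
      rw [abs_mul, abs_of_nonneg (eqB_bf_nonneg y J k), abs_of_nonneg h5]
      calc bf y J k * (Real.log k - Real.log x) ≤ 1 * (Real.log k - Real.log x) :=
            mul_le_mul_of_nonneg_right (eqB_bf_le y J k) h5
        _ ≤ (l : ℝ) / x := by rw [one_mul]; exact h6
    refine (sum_le_sum h2).trans ?_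
    rw [sum_const, nsmul_eq_mul]
    have h3 : ((I.card : ℕ) : ℝ) ≤ l := by
      have h4 : I.card ≤ (Ioc x (x + l)).card := card_filter_le _ _
      rw [Nat.card_Ioc, Nat.add_sub_cancel_left] at h4
      exact_mod_cast h4
    calc ((I.card : ℕ) : ℝ) * ((l : ℝ) / x) ≤ l * ((l : ℝ) / x) :=
          mul_le_mul_of_nonneg_right h3 (by positivity)
      _ ≤ l * (1 / u) := by
          refine mul_le_mul_of_nonneg_left ?_ hlpos.le
          rw [div_le_div_iff₀ hxpos hu0]
          have h5 : (l : ℝ) * u ≤ l * (L ^ 3 * u) :=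
            mul_le_mul_of_nonneg_left (le_mul_of_one_le_left hu0.le (one_le_pow₀ hL1)) hlpos.le
          linarith only [hl3, h5]
      _ = l / u := by ring
  -- step 2
  have hs2 : |T1 - T3| ≤ l / u := by
    have h1 : T3 = ∑ k ∈ I, ∑ q ∈ k.primeFactors, Real.log q * eqBw y J (k / q) q :=
      (eqB_swap a c (fun k q => Real.log q * eqBw y J k q)).symm
    rw [h1, hT1, ← sum_sub_distrib]
    refine (abs_sum_le_sum_abs _ _).trans ?_
    have h2 : ∀ k ∈ I, |bf y J k * Real.log k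
        - ∑ q ∈ k.primeFactors, Real.log q * eqBw y J (k / q) q| ≤
        Real.log ((x : ℝ) + l) * eqBsq y k := by
      intro k hk
      obtain ⟨h3, h4⟩ := hIk k hk
      have h4R : (k : ℝ) ≤ x + l := by exact_mod_cast h4
      refine (eqB_key (by omega)).trans ?_
      refine mul_le_mul_of_nonneg_right ?_ (Nat.cast_nonneg _)
      exact Real.log_le_log (by exact_mod_cast (by omega : 0 < k)) h4R
    refine (sum_le_sum h2).trans ?_
    rw [← mul_sum]
    have h3 : ∑ k ∈ I, (eqBsq y k : ℝ) ≤ (l : ℝ) / y + Real.sqrt (2 * x) := by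
      refine le_trans ?_ (eqB_sq_sum (by omega) hlx')
      exact sum_le_sum_of_subset_of_nonneg (filter_subset _ _) fun _ _ _ => Nat.cast_nonneg _
    have h4 : Real.sqrt (2 * x) ≤ 2 * Real.sqrt x := by
      rw [Real.sqrt_mul (by norm_num)]
      refine mul_le_mul_of_nonneg_right ?_ hsx0.le
      rw [Real.sqrt_le_left (by norm_num)]
      norm_num
    have h5 : 3 * L * ((l : ℝ) / y) ≤ l / u / 2 := by
      rw [mul_div_assoc', div_div, div_le_div_iff₀ hy0 (by positivity)]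
      have h6 : (l : ℝ) * (6 * (L * u)) ≤ l * y := by
        refine mul_le_mul_of_nonneg_left ?_ hlpos.le
        linarith only [hsy, hB1, hw1, hw2, hsyle, hLL, hLu]
      linarith only [h6]
    have h6 : 3 * L * (2 * Real.sqrt x) ≤ l / u / 2 := by
      rw [div_div, le_div_iff₀ (by positivity)]
      have h7 : 12 * (L * u * v) * Real.sqrt x ≤ Real.sqrt x * Real.sqrt x :=
        mul_le_mul_of_nonneg_right (by linarith only [hN4, hB1, hw1, hw2, hsx, hLL]) hsx0.le
      rw [hsxx] at h7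
      have h8 : (12 * (L * u) * Real.sqrt x) * v ≤ l * v := by linarith only [hlx, h7]
      have h9 := le_of_mul_le_mul_right h8 hv0
      linarith only [h9]
    calc Real.log ((x : ℝ) + l) * ∑ k ∈ I, (eqBsq y k : ℝ)
        ≤ 3 * L * ((l : ℝ) / y + Real.sqrt (2 * x)) :=
          mul_le_mul hlogxl h3 (sum_nonneg fun _ _ => Nat.cast_nonneg _) (by positivity)
      _ ≤ 3 * L * ((l : ℝ) / y + 2 * Real.sqrt x) :=
          mul_le_mul_of_nonneg_left (by linarith only [h4]) (by positivity)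
      _ ≤ l / u := by linarith only [h5, h6]
  -- step 3
  have hs3 : |T3 - T4| ≤ 2 * (l / u) := by
    refine (eqB_cmp hx1 (by omega) hz1).trans ?_
    have h1 := eqB_dwb hL12 hu1 hlpos.le hxpos hmz hzx hl3 hul
    have h2 := eqB_dwb hL12 hu1 hlpos.le hxpos hmy hyx hl3 hul
    have h3 : 0 ≤ ((l : ℝ) / (z : ℕ) + 1) * (l * (z : ℕ) / x + 1) +
        ((l : ℝ) / y + 1) * (l * y / x + 1) := by positivity
    refine (mul_le_mul_of_nonneg_right hlogxl h3).trans ?_
    rw [mul_add]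
    linarith only [h1, h2]
  -- step 4
  have hs4 : |T4 - T5| ≤ l / u := by
    have hly0 : 0 < Real.log y := Real.log_pos (by linarith only [hsy, hB1, hw2, hsyle])
    have he0 : (0 : ℝ) ≤ 1 / Real.log y ^ (A + K + 2) := by positivity
    have hlogyL : e1 / 2 * L ≤ Real.log y := hlogy
    have hel : 0 < e1 / 2 * L := by positivity
    have hE : ∀ X : ℕ, y ≤ X → X ≤ 2 * x → ∀ a' : ℕ, Nat.Coprime a' c → ∀ Y : ℕ, Y ≤ X →
        |psiA Y c a' - Y / (c.totient : ℝ)| ≤ X * (1 / Real.log y ^ (A + K + 2)) := by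
      intro X hyX _ a' ha' Y hYX
      have h1 : Real.log y ≤ Real.log X := Real.log_le_log hy0 (by exact_mod_cast hyX)
      have h2 : (c : ℝ) ≤ Real.log X ^ (B + 1) := by
        have h3 : (e1 / 2 * L) ^ (B + 1) ≤ Real.log X ^ (B + 1) :=
          pow_le_pow_left₀ hel.le (hlogyL.trans h1) _
        refine le_trans ?_ h3
        have h4 : (2 / e1) ^ (B + 1) ≤ L := by
          linarith only [hLC, hp1, hp3]
        have h5 : (e1 / 2 * L) ^ (B + 1) = (e1 / 2) ^ (B + 1) * L * L ^ B := by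
          rw [mul_pow]
          ring
        have h6 : (e1 / 2) ^ (B + 1) * (2 / e1) ^ (B + 1) = 1 := by
          rw [← mul_pow]
          have : e1 / 2 * (2 / e1) = 1 := by field_simp
          rw [this, one_pow]
        have h7 : 1 ≤ (e1 / 2) ^ (B + 1) * L := by
          rw [← h6]
          exact mul_le_mul_of_nonneg_left h4 (by positivity)
        rw [h5]
        exact hcB.trans (le_mul_of_one_le_left (by positivity) h7)
      have h3 := hx0 X (hyx0.trans hyX) Y hYX c hc h2 a' ha'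
      refine h3.trans ?_
      rw [mul_one_div]
      refine div_le_div_of_nonneg_left (Nat.cast_nonneg _) (by positivity) ?_
      exact pow_le_pow_left₀ hly0.le h1 _
    refine (eqB_sum_pr hx1 hlx' hy2 hcy hc hac he0 hE).trans ?_
    set δ : ℝ := 2 * (1 / Real.log y ^ (A + K + 2)) + 1 / y +
      2 * Real.log (2 * x) / Real.sqrt y with hδ
    have hlog2x0 : 0 ≤ Real.log (2 * x) := by
      have := Real.log_natCast_nonneg (2 * x)
      push_cast at this
      exact this
    have hδ0 : 0 ≤ δ := by positivity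
    have h1 : 6 * (L * u * v) * δ ≤ 1 := by
      have e1' : 6 * (L * u * v) * (2 * (1 / Real.log y ^ (A + K + 2))) ≤ 1 / 3 := by
        have h3 : (e1 / 2 * L) ^ (A + K + 2) ≤ Real.log y ^ (A + K + 2) :=
          pow_le_pow_left₀ hel.le hlogyL _
        have h4 : 36 * (2 / e1) ^ (A + K + 2) ≤ L := by
          linarith only [hLC, hp2, hp3]
        have h5 : (e1 / 2 * L) ^ (A + K + 2) = (e1 / 2) ^ (A + K + 2) * L * (L * u * v) := by
          rw [mul_pow, hu, hv]
          ring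
        have h6 : (e1 / 2) ^ (A + K + 2) * (2 / e1) ^ (A + K + 2) = 1 := by
          rw [← mul_pow]
          have : e1 / 2 * (2 / e1) = 1 := by field_simp
          rw [this, one_pow]
        have h7 : 36 ≤ (e1 / 2) ^ (A + K + 2) * L := by
          have h8 := mul_le_mul_of_nonneg_left h4 (show 0 ≤ (e1 / 2) ^ (A + K + 2) by positivity)
          have h9 : (e1 / 2) ^ (A + K + 2) * (36 * (2 / e1) ^ (A + K + 2)) = 36 := by
            rw [mul_left_comm, h6, mul_one]
          linarith only [h6, h8]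
        have h8 : 36 * (L * u * v) ≤ Real.log y ^ (A + K + 2) := by
          refine le_trans ?_ h3
          rw [h5]
          exact mul_le_mul_of_nonneg_right h7 hLuv.le
        have hp : 0 < Real.log y ^ (A + K + 2) := by positivity
        rw [show 6 * (L * u * v) * (2 * (1 / Real.log y ^ (A + K + 2))) =
          12 * (L * u * v) / Real.log y ^ (A + K + 2) by ring, div_le_iff₀ hp]
        linarith only [h8]
      have e2' : 6 * (L * u * v) * (1 / y) ≤ 1 / 3 := by
        rw [mul_one_div, div_le_iff₀ hy0]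
        linarith only [hsy, hB1, hw1, hw2, hsyle, hLL]
      have e3' : 6 * (L * u * v) * (2 * Real.log (2 * x) / Real.sqrt y) ≤ 1 / 3 := by
        rw [mul_div_assoc', div_le_iff₀ hsy0]
        have h3 : L * u * v * Real.log (2 * x) ≤ L * u * v * (3 * L) :=
          mul_le_mul_of_nonneg_left hlog2x hLuv.le
        have h4 : L * u * v * (3 * L) = 3 * (L ^ 2 * u * v) := by ring
        linarith only [hsy, hw1, h3]
      rw [hδ, mul_add, mul_add]
      linarith only [e1', e2', e3']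
    have h2 : 1 + Real.log x ≤ 3 * L := by linarith only [hL12, hlogx2]
    calc 2 * x * δ * (1 + Real.log x) ≤ 2 * (l * v) * δ * (3 * L) := by
          have h3 : 2 * (x : ℝ) * δ ≤ 2 * (l * v) * δ :=
            mul_le_mul_of_nonneg_right (by linarith only [hlx]) hδ0
          exact mul_le_mul h3 h2 (by linarith only [hlogx]) (by positivity)
      _ = l / u * (6 * (L * u * v) * δ) := by
          field_simp
          ring
      _ ≤ l / u * 1 := mul_le_mul_of_nonneg_left h1 hT0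
      _ = l / u := mul_one _
  -- the main term
  have hmain : T5 = Real.log x * ((l : ℝ) * kap y J x / c.totient) := by
    have h1 : ∑ k ∈ Icc 1 (x / y), eqBom y J x k * ((l : ℝ) / k / c.totient) =
        ((l : ℝ) / c.totient) * ∑ k ∈ Icc 1 (x / y),
          rg y k / ((1 + nu y J k + if x < k * zz y J then 1 else 0) * k) := by
      rw [mul_sum]
      refine sum_congr rfl fun k _ => ?_
      unfold eqBom
      rw [div_mul_eq_div_div]
      ring
    rw [hT5, h1]
    unfold kap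
    field_simp
  have hfin : Real.log x * |S - (l : ℝ) * kap y J x / c.totient| ≤ 5 * (l / u) := by
    have h0 : Real.log x * |S - (l : ℝ) * kap y J x / c.totient| =
        |Real.log x * (S - (l : ℝ) * kap y J x / c.totient)| := by
      rw [abs_mul, abs_of_pos hlogx0]
    rw [h0, mul_sub, ← hmain]
    have h1 : Real.log x * S - T5 = -(T1 - Real.log x * S) + (T1 - T3) + (T3 - T4) + (T4 - T5) := by
      ring
    rw [h1]
    rw [abs_le] at hs1' hs2 hs3 hs4 ⊢
    constructor <;> linarith only [hs1', hs2, hs3, hs4, hs1'.1, hs1'.2, hs2.1, hs2.2, hs3.1, hs3.2, hs4.1, hs4.2]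
  have hlast : 5 * (l / u) ≤ Real.log x * (l / u) :=
    mul_le_mul_of_nonneg_right (by linarith only [hlogx]) hT0
  exact le_of_mul_le_mul_left (hfin.trans hlast) hlogx0

theorem eq_b (e1 ζ : ℝ) (he1 : 0 < e1) (hζ : e1 < ζ) (hζ2 : ζ < 1 / 2) (A B K : ℕ) :
    ∃ N0 : ℕ, ∀ N : ℕ, N0 ≤ N → ∀ J x l c a : ℕ, (zz (yN e1 N) J : ℝ) ≤ (N : ℝ) ^ ζ →
      (N : ℝ) ^ (1 / 2 : ℝ) ≤ x → x ≤ N ^ 2 → (x : ℝ) / Real.log N ^ K ≤ l →
      (l : ℝ) ≤ x / Real.log N ^ (A + 3) → 1 ≤ c → (c : ℝ) ≤ Real.log N ^ B →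
      |∑ k ∈ (Ioc x (x + l)).filter (fun k => k ≡ a [MOD c]), bf (yN e1 N) J k
        - (if Nat.Coprime a c then (l : ℝ) * kap (yN e1 N) J x / c.totient else 0)| ≤
          l / Real.log N ^ A :=
  eq_bg (1 / 2) e1 ζ he1 hζ hζ2 A B K

end Pool.Agent.H76.TP

end

section

/-!
# TQ EqQ: `bq` in short intervals and progressions

`bq(k) = bf(k) - (1/2) om(k) bf(k)`, and `om(k) bf(k) = ∑_{p ∈ PY z z1, p ∣ k} bf(k/p)` (`bf_mul`: `bf(p k') = bf(k')` for `p > z`; `z = zz y J`, `z1 = zz y J1`).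
* `bf`: `eq_bg` (`H76/TP/EqB.lean`, general `β`) with `β = a`, exponent `A + 2`, `K`.
* for `p ∈ PY z z1` (at most `z1` primes; `p ∤ c` because `c ≤ L^B < z < p`): the `k = p k' ∈ (x, x+l]`, `k ≡ b (c)` are the `k' ∈ (x/p, (x+l)/p]` (natural division), `k' ≡ b p' (c)`, `p p' ≡ 1 (c)`, and `b p'` is prime to `c` iff `b` is.
  `eq_bg` with `β = (ζ + a - κ)/2 ∈ (ζ, a - κ)` (`x/p ≥ N^(a-κ) - 1 ≥ N^β`), exponent `A + 2`, `K + 1`, `l_p = (x+l)/p - x/p`, `|l_p - l/p| ≤ 1`, so `(x/p)/L^(K+1) ≤ l_p ≤ (x/p)/L^(A+5)`: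
  the sum is `l_p kap(x/p)/φ(c) + O(l_p/L^(A+2))`; `kap ≤ 2` (`kap_le`), `∑_p |l_p - l/p| kap ≤ 2 z1 ≤ 2 N^κ`, `∑_p l_p ≤ l (1 + log z1) + z1 ≤ 2 l L`.
Total error `≤ l/L^(A+2) + (2 l L/L^(A+2) + 2 N^κ)/2 ≤ l/L^A`.
-/

set_option autoImplicit false

namespace Pool.Agent.H91.TQ

open Finset
open Pool.Agent.H35.W (pb)
open Pool.Agent.H53.MID (Fp Bs)
open Pool.Agent.H76.TP

private theorem EqQ_inv {b c p : ℕ} (hc : 1 ≤ c) (hp : Nat.Coprime p c) :
    ∃ b' : ℕ, (Nat.Coprime b' c ↔ Nat.Coprime b c) ∧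
      ∀ q : ℕ, p * q ≡ b [MOD c] ↔ q ≡ b' [MOD c] := by
  have : NeZero c := ⟨by omega⟩
  have hpu : IsUnit (p : ZMod c) := (ZMod.isUnit_iff_coprime p c).mpr hp
  obtain ⟨u, hu⟩ := hpu
  refine ⟨((b : ZMod c) * (↑u⁻¹ : ZMod c)).val, ?_, fun q => ?_⟩
  · rw [← ZMod.isUnit_iff_coprime, ← ZMod.isUnit_iff_coprime, ZMod.natCast_zmod_val]
    exact Units.isUnit_mul_units _ _
  · rw [← ZMod.natCast_eq_natCast_iff, ← ZMod.natCast_eq_natCast_iff, ZMod.natCast_zmod_val,
      Nat.cast_mul, ← hu]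
    constructor
    · intro h
      rw [← h, mul_comm (u : ZMod c), mul_assoc, Units.mul_inv, mul_one]
    · intro h
      rw [h, mul_comm (b : ZMod c), ← mul_assoc, Units.mul_inv, one_mul]

private theorem EqQ_om {y J J1 k : ℕ} (hk : k ≠ 0) :
    (om y J J1 k : ℝ) * bf y J k =
      ∑ p ∈ PY (zz y J) (zz y J1), if p ∣ k then bf y J k else 0 := by
  rw [← sum_filter, sum_const, nsmul_eq_mul]
  congr 2
  unfold om PY
  congr 1
  ext p
  simp only [mem_filter, Nat.mem_primeFactors, mem_Ioc, ne_eq]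
  tauto

private theorem EqQ_re {y J x l b b' c p : ℕ} (hp : p.Prime) (hpz : zz y J < p)
    (hb : ∀ q : ℕ, p * q ≡ b [MOD c] ↔ q ≡ b' [MOD c]) :
    ∑ k ∈ (Ioc x (x + l)).filter (fun k => k ≡ b [MOD c]), (if p ∣ k then bf y J k else 0) =
      ∑ k ∈ (Ioc (x / p) (x / p + ((x + l) / p - x / p))).filter (fun k => k ≡ b' [MOD c]),
        bf y J k := by
  have hp0 : 0 < p := hp.pos
  have hdiv : x / p ≤ (x + l) / p := Nat.div_le_div_right (Nat.le_add_right _ _)
  rw [Nat.add_sub_cancel' hdiv, ← sum_filter]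
  symm
  refine sum_bij (fun k _ => p * k) ?_ ?_ ?_ ?_
  · intro k hk
    rw [mem_filter, mem_Ioc] at hk
    rw [mem_filter, mem_filter, mem_Ioc]
    refine ⟨⟨⟨?_, ?_⟩, (hb k).2 hk.2⟩, dvd_mul_right p k⟩
    · have := (Nat.div_lt_iff_lt_mul hp0).1 hk.1.1
      rwa [mul_comm] at this
    · have := (Nat.le_div_iff_mul_le hp0).1 hk.1.2
      rwa [mul_comm] at this
  · intro k1 _ k2 _ h
    exact Nat.eq_of_mul_eq_mul_left hp0 h
  · intro k hk
    rw [mem_filter, mem_filter, mem_Ioc] at hk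
    obtain ⟨⟨⟨h1, h2⟩, h3⟩, j, rfl⟩ := hk
    refine ⟨j, ?_, rfl⟩
    rw [mem_filter, mem_Ioc]
    refine ⟨⟨?_, ?_⟩, (hb j).1 h3⟩
    · rw [Nat.div_lt_iff_lt_mul hp0, mul_comm]
      exact h1
    · rw [Nat.le_div_iff_mul_le hp0, mul_comm]
      exact h2
  · intro k hk
    rw [mem_filter, mem_Ioc] at hk
    exact (bf_mul y J k p (Nat.succ_le_of_lt (lt_of_le_of_lt (Nat.zero_le _) hk.1.1)) hp hpz).symm

private theorem EqQ_W (y J J1 : ℕ) : W1 y J J1 ≤ 1 + Real.log (zz y J1) := by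
  unfold W1 PY
  have h1 : ∑ p ∈ (Ioc (zz y J) (zz y J1)).filter Nat.Prime, 1 / (p : ℝ) ≤
      ∑ n ∈ Icc 1 (zz y J1), 1 / (n : ℝ) := by
    refine sum_le_sum_of_subset_of_nonneg ?_ fun n _ _ => by positivity
    intro p hp
    rw [mem_filter, mem_Ioc] at hp
    rw [mem_Icc]
    exact ⟨hp.2.one_lt.le, hp.1.2⟩
  refine h1.trans ?_
  have h2 := harmonic_le_one_add_log (zz y J1)
  rw [harmonic_eq_sum_Icc] at h2
  push_cast at h2
  simpa only [one_div] using h2

private theorem EqQ_ev (δ : ℝ) (hδ : 0 < δ) (M : ℕ) :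
    ∃ N0 : ℕ, ∀ N : ℕ, N0 ≤ N → 2 ≤ N ∧ 4 ≤ Real.log N ∧
      8 * Real.log N ^ M ≤ (N : ℝ) ^ δ := by
  have hcast := tendsto_natCast_atTop_atTop (R := ℝ)
  have hlog : Filter.Tendsto (fun N : ℕ => Real.log (N : ℝ)) Filter.atTop Filter.atTop :=
    Real.tendsto_log_atTop.comp hcast
  have h1 : ∀ᶠ N : ℕ in Filter.atTop, 2 ≤ N := Filter.eventually_ge_atTop 2
  have h2 : ∀ᶠ N : ℕ in Filter.atTop, 4 ≤ Real.log N := hlog.eventually_ge_atTop 4
  have h5 : ∀ᶠ N : ℕ in Filter.atTop, 8 * Real.log N ^ M ≤ (N : ℝ) ^ δ := by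
    have h6 := (isLittleO_log_rpow_rpow_atTop (M : ℝ) hδ).bound
      (show (0 : ℝ) < 1 / 8 by norm_num)
    have h7 := hcast.eventually h6
    filter_upwards [h7, h1, h2] with N h8 h9 h10
    rw [Real.norm_eq_abs, Real.norm_eq_abs, Real.rpow_natCast,
      abs_of_nonneg (by positivity), abs_of_nonneg (by positivity)] at h8
    linarith only [h8]
  obtain ⟨N0, hN0⟩ := Filter.eventually_atTop.1 (h1.and (h2.and h5))
  exact ⟨N0, fun N hN => hN0 N hN⟩

theorem eq_q (e1 ζ κ a : ℝ) (he1 : 0 < e1) (hζ : e1 < ζ) (hκ : ζ < κ) (ha : ζ + κ < a) (ha1 : a ≤ 1) (A B K : ℕ) :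
    ∃ N0 : ℕ, ∀ N : ℕ, N0 ≤ N → ∀ J J1 x l c b : ℕ, J ≤ J1 → (zz (yN e1 N) J : ℝ) ≤ (N : ℝ) ^ ζ →
      (zz (yN e1 N) J1 : ℝ) ≤ (N : ℝ) ^ κ → (N : ℝ) ^ a ≤ x → x ≤ N ^ 2 → (x : ℝ) / Real.log N ^ K ≤ l →
      (l : ℝ) ≤ x / Real.log N ^ (A + 6) → 1 ≤ c → (c : ℝ) ≤ Real.log N ^ B →
      |∑ k ∈ (Ioc x (x + l)).filter (fun k => k ≡ b [MOD c]), bq (yN e1 N) J J1 k
        - (if Nat.Coprime b c then (l : ℝ) * kq (yN e1 N) J J1 x / c.totient else 0)| ≤
          l / Real.log N ^ A := by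
  set β : ℝ := (ζ + (a - κ)) / 2 with hβ
  have hβ1 : ζ < β := by rw [hβ]; linarith only [ha]
  have hβ2 : β < a - κ := by rw [hβ]; linarith only [ha]
  obtain ⟨N1, hN1⟩ := eq_bg a e1 ζ he1 hζ (by linarith) (A + 2) B K
  obtain ⟨N2, hN2⟩ := eq_bg β e1 ζ he1 hζ hβ1 (A + 2) B (K + 1)
  obtain ⟨N3, hN3⟩ := EqQ_ev (a - κ) (by linarith) (A + K + 6)
  obtain ⟨N4, hN4⟩ := EqQ_ev e1 he1 B
  obtain ⟨N5, hN5⟩ := EqQ_ev (a - κ - β) (by linarith) 0
  refine ⟨N1 + N2 + N3 + N4 + N5, fun N hN J J1 x l c b hJ hzN hz1N hxN hxN2 hl1 hl2 hc hcB => ?_⟩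
  obtain ⟨hN2', hL4, hNM⟩ := hN3 N (by omega)
  obtain ⟨-, -, hNB⟩ := hN4 N (by omega)
  obtain ⟨-, -, hNb⟩ := hN5 N (by omega)
  have hbf := hN1 N (by omega) J x l c b hzN hxN hxN2 hl1
  have hbp := hN2 N (by omega) J
  set L : ℝ := Real.log N with hLdef
  set y : ℕ := yN e1 N with hydef
  set z : ℕ := zz y J with hzdef
  set z1 : ℕ := zz y J1 with hz1def
  have hL1 : 1 ≤ L := by linarith only [hL4]
  have hL0 : 0 < L := by linarith only [hL4]
  have hNR : (1 : ℝ) ≤ N := by exact_mod_cast (by omega : 1 ≤ N)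
  have hN0 : (0 : ℝ) < N := by linarith only [hNR]
  have hxR : (0 : ℝ) < x := lt_of_lt_of_le (by positivity) hxN
  have hx1 : 1 ≤ x := by exact_mod_cast hxR
  have hl0 : (0 : ℝ) < l := lt_of_lt_of_le (by positivity) hl1
  have hLB : 1 ≤ L ^ B := one_le_pow₀ hL1
  -- `c < y ≤ z`
  have hcy : c < y := by
    have h1 : (N : ℝ) ^ e1 < (y : ℝ) + 1 := by
      rw [hydef]
      unfold yN
      exact Nat.lt_floor_add_one _
    have h2 : (c : ℝ) < y := by linarith only [hcB, hNB, hLB, h1]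
    exact_mod_cast h2
  have hyz : y ≤ z := by
    rw [hzdef]
    unfold zz
    exact Nat.le_mul_of_pos_left y (by positivity)
  have hyz1 : y ≤ z1 := by
    rw [hz1def]
    unfold zz
    exact Nat.le_mul_of_pos_left y (by positivity)
  have hz1R : (1 : ℝ) ≤ z1 := by exact_mod_cast (by omega : 1 ≤ z1)
  -- the sum over `p`
  have hN1b : (N : ℝ) ^ β + 1 ≤ (N : ℝ) ^ (a - κ) := by
    have h1 : (N : ℝ) ^ (a - κ) = (N : ℝ) ^ (a - κ - β) * (N : ℝ) ^ β := by
      rw [← Real.rpow_add hN0]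
      congr 1
      ring
    have h2 : 1 ≤ (N : ℝ) ^ β := Real.one_le_rpow hNR (by linarith only [he1, hζ, hβ1])
    rw [pow_zero, mul_one] at hNb
    rw [h1]
    nlinarith only [hNb, h2, he1, hζ, hκ, ha1, hβ, hβ1]
  have hsplit : ∑ k ∈ (Ioc x (x + l)).filter (fun k => k ≡ b [MOD c]), bq y J J1 k =
      ∑ k ∈ (Ioc x (x + l)).filter (fun k => k ≡ b [MOD c]), bf y J k -
        (∑ p ∈ PY z z1, ∑ k ∈ (Ioc x (x + l)).filter (fun k => k ≡ b [MOD c]),
          (if p ∣ k then bf y J k else 0)) / 2 := by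
    rw [sum_comm, sum_div, ← sum_sub_distrib]
    refine sum_congr rfl fun k hk => ?_
    rw [mem_filter, mem_Ioc] at hk
    rw [← EqQ_om (y := y) (J := J) (J1 := J1) (by omega : k ≠ 0)]
    unfold bq
    ring
  have hφ : (1 : ℝ) ≤ c.totient := by
    exact_mod_cast Nat.totient_pos.2 (by omega)
  set D : ℝ := if Nat.Coprime b c then 1 else 0 with hD
  have hD0 : 0 ≤ D := by rw [hD]; split_ifs <;> norm_num
  have hD1 : D ≤ 1 := by rw [hD]; split_ifs <;> norm_num
  have hite : ∀ t : ℝ, (if Nat.Coprime b c then t else 0) = D * t := by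
    intro t
    rw [hD]
    split_ifs
    · rw [one_mul]
    · rw [zero_mul]
  have hpow : ∀ n : ℕ, 0 < L ^ n := fun n => by positivity
  -- one prime
  have key : ∀ p ∈ PY z z1,
      |∑ k ∈ (Ioc x (x + l)).filter (fun k => k ≡ b [MOD c]), (if p ∣ k then bf y J k else 0) -
        D * ((l : ℝ) * (kap y J (x / p) / p) / c.totient)| ≤ (l / L ^ (A + 2)) * (1 / p) + 3 := by
    intro p hp
    unfold PY at hp
    rw [mem_filter, mem_Ioc] at hp
    obtain ⟨⟨hpz, hpz1⟩, hpp⟩ := hp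
    have hp0 : 0 < p := hpp.pos
    have hpR : (0 : ℝ) < p := by exact_mod_cast hp0
    have hpc : Nat.Coprime p c := by
      rw [Nat.Prime.coprime_iff_not_dvd hpp]
      intro h
      have := Nat.le_of_dvd hc h
      omega
    obtain ⟨b', hb1, hb2⟩ := EqQ_inv (b := b) hc hpc
    rw [EqQ_re hpp hpz hb2]
    set x' : ℕ := x / p with hx'
    set l' : ℕ := (x + l) / p - x' with hl'
    have hR1 : (x' : ℝ) ≤ (x : ℝ) / p := Nat.cast_div_le
    have hlt : ∀ m : ℕ, (m : ℝ) / p < ((m / p : ℕ) : ℝ) + 1 := by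
      intro m
      rw [div_lt_iff₀ hpR]
      have h5 : m < (m / p + 1) * p := by
        have := Nat.lt_div_mul_add (a := m) hp0
        rw [add_mul, one_mul]
        exact this
      exact_mod_cast h5
    have hR2 : (x : ℝ) / p < x' + 1 := hlt x
    have hq1 : (((x + l) / p : ℕ) : ℝ) ≤ ((x : ℝ) + l) / p := by
      have := Nat.cast_div_le (α := ℝ) (m := x + l) (n := p)
      push_cast at this
      exact this
    have hq2 : ((x : ℝ) + l) / p < (((x + l) / p : ℕ) : ℝ) + 1 := by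
      have := hlt (x + l)
      push_cast at this
      exact this
    have hdiv : x' ≤ (x + l) / p := Nat.div_le_div_right (Nat.le_add_right _ _)
    have hl'R : (l' : ℝ) = (((x + l) / p : ℕ) : ℝ) - x' := by
      rw [hl', Nat.cast_sub hdiv]
    rw [add_div] at hq1 hq2
    have hl'1 : (l' : ℝ) ≤ l / p + 1 := by linarith only [hR2, hq1, hl'R]
    have hl'2 : (l : ℝ) / p - 1 ≤ l' := by linarith only [hR1, hq2, hl'R]
    set R : ℝ := (x : ℝ) / p with hR
    have hRN : (N : ℝ) ^ (a - κ) ≤ R := by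
      rw [hR, le_div_iff₀ hpR]
      have h1 : (p : ℝ) ≤ (N : ℝ) ^ κ := le_trans (by exact_mod_cast hpz1) hz1N
      calc (N : ℝ) ^ (a - κ) * p ≤ (N : ℝ) ^ (a - κ) * (N : ℝ) ^ κ :=
            mul_le_mul_of_nonneg_left h1 (by positivity)
        _ = (N : ℝ) ^ a := by
            rw [← Real.rpow_add hN0]
            congr 1
            ring
        _ ≤ x := hxN
    have hRL : 8 * L ^ (A + K + 6) ≤ R := hNM.trans hRN
    have hRK : L ^ (K + 1) ≤ R := by
      have h1 : L ^ (K + 1) ≤ L ^ (A + K + 6) := pow_le_pow_right₀ hL1 (by omega)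
      have := hpow (A + K + 6)
      linarith only [hNM, hRN, h1, this]
    have hRA : 2 * L ^ (A + 6) ≤ R := by
      have h1 : L ^ (A + 6) ≤ L ^ (A + K + 6) := pow_le_pow_right₀ hL1 (by omega)
      have := hpow (A + K + 6)
      linarith only [hNM, hRN, h1, this]
    have hR8 : 8 ≤ R := by
      have h1 : 1 ≤ L ^ (A + K + 6) := one_le_pow₀ hL1
      linarith only [hNM, hRN, h1]
    have hx'3 : 3 ≤ x' := by
      have : (3 : ℝ) ≤ x' := by linarith only [he1, hζ, hκ, ha1, hβ, hβ1, hR2, hR8]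
      exact_mod_cast this
    have c1 : (N : ℝ) ^ β ≤ x' := by linarith only [hN1b, hR2, hRN]
    have c2 : x' ≤ N ^ 2 := (Nat.div_le_self _ _).trans hxN2
    have hlp1 : R / L ^ K ≤ (l : ℝ) / p := by
      rw [hR, div_right_comm]
      exact div_le_div_of_nonneg_right hl1 hpR.le
    have hlp2 : (l : ℝ) / p ≤ R / L ^ (A + 6) := by
      rw [hR, div_right_comm]
      exact div_le_div_of_nonneg_right hl2 hpR.le
    have c3 : (x' : ℝ) / L ^ (K + 1) ≤ l' := by
      have h1 : (x' : ℝ) / L ^ (K + 1) ≤ R / L ^ (K + 1) :=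
        div_le_div_of_nonneg_right hR1 (hpow _).le
      have h2 : R / L ^ (K + 1) ≤ R / L ^ K - 1 := by
        have h3 : R / L ^ K - 1 = (R * L - L ^ (K + 1)) / L ^ (K + 1) := by
          field_simp
          ring
        rw [h3]
        refine div_le_div_of_nonneg_right ?_ (hpow _).le
        have h5 : R * 2 ≤ R * L := mul_le_mul_of_nonneg_left (by linarith only [he1, hζ, hκ, ha1, hβ, hβ1, hL4]) (by linarith only [he1, hζ, hκ, ha1, hβ, hβ1, hR8])
        linarith only [hRK, h5]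
      linarith only [hl'2, hlp1, h1, h2]
    have c4 : (l' : ℝ) ≤ x' / L ^ (A + 2 + 3) := by
      have h1 : (R - 1) / L ^ (A + 2 + 3) ≤ x' / L ^ (A + 2 + 3) :=
        div_le_div_of_nonneg_right (by linarith only [hR2]) (hpow _).le
      have h2 : R / L ^ (A + 6) + 1 ≤ (R - 1) / L ^ (A + 2 + 3) := by
        have h3 : R / L ^ (A + 6) + 1 = (R + L ^ (A + 6)) / L ^ (A + 6) := by
          rw [add_div, div_self (hpow _).ne']
        have h4 : (R - 1) / L ^ (A + 2 + 3) = ((R - 1) * L) / L ^ (A + 6) := by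
          rw [div_eq_div_iff (hpow _).ne' (hpow _).ne']
          ring
        rw [h3, h4]
        refine div_le_div_of_nonneg_right ?_ (hpow _).le
        have h5 : (R - 1) * 4 ≤ (R - 1) * L := mul_le_mul_of_nonneg_left hL4 (by linarith only [he1, hζ, hκ, ha1, hβ, hβ1, hR8])
        linarith only [he1, hζ, hκ, ha1, hβ, hβ1, hRA, hR8, h5]
      linarith only [hl'1, hlp2, h1, h2]
    have h1 := hbp x' l' c b' hzN c1 c2 c3 c4 hc hcB
    have h2 : (if Nat.Coprime b' c then (l' : ℝ) * kap y J x' / c.totient else 0) =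
        D * (l' * kap y J x' / c.totient) := by
      rw [← hite]
      by_cases h : Nat.Coprime b c
      · rw [if_pos h, if_pos (hb1.2 h)]
      · rw [if_neg h, if_neg (fun h' => h (hb1.1 h'))]
    rw [h2] at h1
    have k0 := kap_nonneg y J x' (by omega)
    have k2 := kap_le y J x' hx'3
    have hK : 0 ≤ D * (kap y J x' / c.totient) := by positivity
    have hK2 : D * (kap y J x' / c.totient) ≤ 2 := by
      have h3 : kap y J x' / c.totient ≤ 2 := by
        rw [div_le_iff₀ (by linarith only [he1, hζ, hκ, ha1, hβ, hβ1, hφ])]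
        linarith only [hφ, k2]
      have h4 : 0 ≤ kap y J x' / c.totient := by positivity
      have h5 : D * (kap y J x' / c.totient) ≤ 1 * (kap y J x' / c.totient) :=
        mul_le_mul_of_nonneg_right hD1 h4
      linarith only [h3, h5]
    have h3 : |D * (l' * kap y J x' / c.totient) - D * ((l : ℝ) * (kap y J x' / p) / c.totient)| ≤
        2 := by
      have h4 : D * (l' * kap y J x' / c.totient) - D * ((l : ℝ) * (kap y J x' / p) / c.totient) =
          D * (kap y J x' / c.totient) * (l' - l / p) := by ring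
      rw [h4, abs_mul, abs_of_nonneg hK]
      have h5 : |(l' : ℝ) - l / p| ≤ 1 := by
        rw [abs_le]
        constructor <;> linarith only [hl'2, hl'1]
      calc D * (kap y J x' / c.totient) * |(l' : ℝ) - l / p| ≤ 2 * 1 :=
            mul_le_mul hK2 h5 (abs_nonneg _) (by norm_num)
        _ = 2 := by norm_num
    have h6 : (l' : ℝ) / L ^ (A + 2) ≤ l / L ^ (A + 2) * (1 / p) + 1 := by
      have h7 : (l' : ℝ) / L ^ (A + 2) ≤ (l / p + 1) / L ^ (A + 2) :=
        div_le_div_of_nonneg_right hl'1 (hpow _).le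
      have h8 : ((l : ℝ) / p + 1) / L ^ (A + 2) = l / L ^ (A + 2) * (1 / p) + 1 / L ^ (A + 2) := by
        ring
      have h9 : 1 / L ^ (A + 2) ≤ 1 := by
        rw [div_le_one (hpow _)]
        exact one_le_pow₀ hL1
      linarith only [h7, h8, h9]
    calc |∑ k ∈ (Ioc x' (x' + l')).filter (fun k => k ≡ b' [MOD c]), bf y J k -
          D * ((l : ℝ) * (kap y J x' / p) / c.totient)|
        ≤ |∑ k ∈ (Ioc x' (x' + l')).filter (fun k => k ≡ b' [MOD c]), bf y J k -
            D * (l' * kap y J x' / c.totient)| +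
          |D * (l' * kap y J x' / c.totient) - D * ((l : ℝ) * (kap y J x' / p) / c.totient)| :=
          abs_sub_le _ _ _
      _ ≤ l' / L ^ (A + 2) + 2 := add_le_add h1 h3
      _ ≤ (l / L ^ (A + 2)) * (1 / p) + 3 := by linarith only [h6]
  have hsum : |∑ p ∈ PY z z1, ∑ k ∈ (Ioc x (x + l)).filter (fun k => k ≡ b [MOD c]),
        (if p ∣ k then bf y J k else 0) -
      D * ((l : ℝ) * (∑ p ∈ PY z z1, kap y J (x / p) / p) / c.totient)| ≤
        l / L ^ (A + 2) * W1 y J J1 + 3 * z1 := by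
    have h1 : D * ((l : ℝ) * (∑ p ∈ PY z z1, kap y J (x / p) / p) / c.totient) =
        ∑ p ∈ PY z z1, D * ((l : ℝ) * (kap y J (x / p) / p) / c.totient) := by
      rw [mul_sum, sum_div, mul_sum]
    rw [h1, ← sum_sub_distrib]
    refine (abs_sum_le_sum_abs _ _).trans ((sum_le_sum key).trans ?_)
    rw [sum_add_distrib, ← mul_sum, sum_const, nsmul_eq_mul]
    have h2 : (((PY z z1).card : ℕ) : ℝ) ≤ z1 := by
      have h3 : (PY z z1).card ≤ z1 - z := by
        unfold PY
        refine (card_filter_le _ _).trans ?_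
        rw [Nat.card_Ioc]
      exact_mod_cast h3.trans (Nat.sub_le _ _)
    unfold W1
    linarith only [h2]
  have hW : W1 y J J1 ≤ 2 * L := by
    refine (EqQ_W y J J1).trans ?_
    have h1 : Real.log z1 ≤ κ * L := by
      have := Real.log_le_log (by linarith only [hz1R]) hz1N
      rwa [Real.log_rpow hN0] at this
    have h2 : κ * L ≤ 1 * L := mul_le_mul_of_nonneg_right (by linarith only [he1, hζ, ha, ha1]) hL0.le
    linarith only [hL4, h1, h2]
  have hlast : 8 * (z1 : ℝ) ≤ l / L ^ A := by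
    rw [le_div_iff₀ (hpow A)]
    have h1 : (x : ℝ) ≤ l * L ^ K := by
      rwa [div_le_iff₀ (hpow K)] at hl1
    have h2 : (z1 : ℝ) * (8 * L ^ (A + K + 6)) ≤ x := by
      calc (z1 : ℝ) * (8 * L ^ (A + K + 6)) ≤ (N : ℝ) ^ κ * (N : ℝ) ^ (a - κ) :=
            mul_le_mul hz1N hNM (by positivity) (by positivity)
        _ = (N : ℝ) ^ a := by
            rw [← Real.rpow_add hN0]
            congr 1
            ring
        _ ≤ x := hxN
    have h3 : (z1 : ℝ) * (8 * L ^ (A + K)) ≤ z1 * (8 * L ^ (A + K + 6)) := by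
      refine mul_le_mul_of_nonneg_left ?_ (by linarith only [hz1R])
      have := pow_le_pow_right₀ hL1 (by omega : A + K ≤ A + K + 6)
      linarith only [this]
    have h4 : (8 * (z1 : ℝ) * L ^ A) * L ^ K ≤ l * L ^ K := by
      rw [pow_add] at h3
      linarith only [h1, h2, h3]
    exact le_of_mul_le_mul_right h4 (hpow K)
  have hl2' : (l : ℝ) ≤ x / L ^ (A + 2 + 3) := by
    refine hl2.trans (div_le_div_of_nonneg_left hxR.le (hpow _) ?_)
    exact pow_le_pow_right₀ hL1 (by omega)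
  have hbf' := hbf hl2' hc hcB
  rw [hite] at hbf'
  rw [hite, hsplit]
  have hkq : D * ((l : ℝ) * kq y J J1 x / c.totient) =
      D * (l * kap y J x / c.totient) -
        (D * ((l : ℝ) * (∑ p ∈ PY z z1, kap y J (x / p) / p) / c.totient)) / 2 := by
    unfold kq
    ring
  rw [hkq]
  have hT : 0 < (l : ℝ) / L ^ A := div_pos hl0 (hpow A)
  have e1' : (l : ℝ) / L ^ (A + 2) * W1 y J J1 ≤ l / L ^ A / 2 := by
    have h1 : (l : ℝ) / L ^ (A + 2) * W1 y J J1 ≤ l / L ^ (A + 2) * (2 * L) :=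
      mul_le_mul_of_nonneg_left hW (div_nonneg hl0.le (hpow _).le)
    have h2 : (l : ℝ) / L ^ (A + 2) * (2 * L) = l / L ^ A * (2 / L) := by
      field_simp
      ring
    have h3 : 2 / L ≤ 1 / 2 := by
      rw [div_le_div_iff₀ hL0 (by norm_num)]
      linarith only [hL4]
    have h4 : (l : ℝ) / L ^ A * (2 / L) ≤ l / L ^ A * (1 / 2) :=
      mul_le_mul_of_nonneg_left h3 hT.le
    linarith only [h1, h2, h4]
  have e2' : (l : ℝ) / L ^ (A + 2) ≤ l / L ^ A / 4 := by
    rw [div_div, div_le_div_iff₀ (hpow _) (by positivity)]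
    have h1 : (l : ℝ) * L ^ (A + 2) = l * L ^ A * L ^ 2 := by ring
    have h2 : (4 : ℝ) ≤ L ^ 2 := by nlinarith only [hL4]
    have h3 : 0 < (l : ℝ) * L ^ A := mul_pos hl0 (hpow A)
    have h4 : (l : ℝ) * L ^ A * 4 ≤ l * L ^ A * L ^ 2 := mul_le_mul_of_nonneg_left h2 h3.le
    rw [h1]
    linarith only [h4]
  rw [abs_le] at hbf' hsum ⊢
  constructor <;> linarith only [he1, hζ, hκ, ha1, hβ, hβ1, hz1R, hsum, hlast, hbf', e1', e2', hbf'.1, hbf'.2, hsum.1, hsum.2]

end Pool.Agent.H91.TQ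

end
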