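import Pool.Agent.H43.PJ.M46
import Pool.Agent.H43.PJ.M53
import Pool.Agent.H43.PJ.M54
import Pool.Agent.H43.PJ.M81

/-! The parts of this file: H9.TN.MeanQ, H9.TN.Dens. -/

section

/-!
# TM MeanQ: the means of the type II sums with `bf` and `bq`

`mean_f` with `f = bf`, `D = kap` and with `f = bq`, `D = kq` (`WK`, `WQ` are `∑_{p ∈ pb P} D(x/p)/p` by definition).  Hypotheses: `eq_bg (1/2) e1 (2221/10000) 3 0 (K+1)` and `eq_q e1 (2221/10000) (1527/5000) (5/8) 3 0 (K+1)` with `c = 1`, `b = 0`, at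
`x/p ≥ N^(3/4)/16` (natural division), `l_p = (x+l)/p - x/p`: `(x/p)/L^(K+1) ≤ l_p ≤ (x/p)/L^9` (as in the proof of `mass_q`, `H91/TQ/MassQ.lean`, `b1 .. b4`, `hb`); `kap_abs`, `kq_abs`: `|kap| ≤ 2`, `|kq| ≤ 3 + log z1 ≤ L²`.
(`yN e1 N ≥ 3` for large `N`.)
-/

set_option autoImplicit false

namespace Pool.Agent.H9.TN

open Finset
open Pool.Agent.H35.W (pb)
open Pool.Agent.H53.MID (Fp)
open Pool.Agent.H76.TP
open Pool.Agent.H9.TM (mean_f)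
open Pool.Agent.H91.TQ (bq WQ)

private theorem MeanQ_ev (δ : ℝ) (hδ : 0 < δ) (M : ℕ) :
    ∃ N0 : ℕ, ∀ N : ℕ, N0 ≤ N → 2 ≤ N ∧ 8 ≤ Real.log N ∧
      16 * Real.log N ^ M ≤ (N : ℝ) ^ δ := by
  have hcast := tendsto_natCast_atTop_atTop (R := ℝ)
  have hlog : Filter.Tendsto (fun N : ℕ => Real.log (N : ℝ)) Filter.atTop Filter.atTop :=
    Real.tendsto_log_atTop.comp hcast
  have h1 : ∀ᶠ N : ℕ in Filter.atTop, 2 ≤ N := Filter.eventually_ge_atTop 2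
  have h2 : ∀ᶠ N : ℕ in Filter.atTop, 8 ≤ Real.log N := hlog.eventually_ge_atTop 8
  have h5 : ∀ᶠ N : ℕ in Filter.atTop, 16 * Real.log N ^ M ≤ (N : ℝ) ^ δ := by
    have h6 := (isLittleO_log_rpow_rpow_atTop (M : ℝ) hδ).bound
      (show (0 : ℝ) < 1 / 16 by norm_num)
    have h7 := hcast.eventually h6
    filter_upwards [h7, h1, h2] with N h8 h9 h10
    rw [Real.norm_eq_abs, Real.norm_eq_abs, Real.rpow_natCast,
      abs_of_nonneg (by positivity), abs_of_nonneg (by positivity)] at h8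
    linarith
  obtain ⟨N0, hN0⟩ := Filter.eventually_atTop.1 (h1.and (h2.and h5))
  exact ⟨N0, fun N hN => hN0 N hN⟩

private theorem MeanQ_real (X n lp l L : ℝ) (K : ℕ) (hL : 8 ≤ L) (hn1 : n ≤ X) (hn2 : X - 1 ≤ n)
    (hX : 16 * L ^ (K + 9) ≤ X) (hlp1 : l - 1 ≤ lp) (hlp2 : lp ≤ l + 1)
    (hl1 : X / L ^ K ≤ l) (hl2 : l ≤ 4 * X / L ^ 10) :
    n / L ^ (K + 1) ≤ lp ∧ lp ≤ n / L ^ 9 := by
  have hL0 : 0 < L := by linarith
  have hL1 : 1 ≤ L := by linarith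
  have hK : 1 ≤ L ^ K := one_le_pow₀ hL1
  have h9 : 1 ≤ L ^ 9 := one_le_pow₀ hL1
  have hX0 : 0 < X := lt_of_lt_of_le (by positivity) hX
  have hX1 : 16 * L ^ K ≤ X := by
    refine le_trans ?_ hX
    rw [pow_add]
    nlinarith
  have hX2 : 16 * L ^ 9 ≤ X := by
    refine le_trans ?_ hX
    rw [pow_add]
    nlinarith
  constructor
  · have h1 : n / L ^ (K + 1) ≤ X / L ^ (K + 1) := by gcongr
    have h2 : X / L ^ (K + 1) ≤ X / L ^ K / 8 := by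
      rw [pow_succ, ← div_div]
      exact div_le_div_of_nonneg_left (by positivity) (by norm_num) hL
    have h3 : 16 ≤ X / L ^ K := by
      rw [le_div_iff₀ (by positivity)]
      exact hX1
    linarith
  · have h1 : (X - 1) / L ^ 9 ≤ n / L ^ 9 := by gcongr
    have h2 : 4 * X / L ^ 10 ≤ X / L ^ 9 / 2 := by
      rw [show (10 : ℕ) = 9 + 1 from rfl, pow_succ, ← div_div, div_le_iff₀ hL0]
      have h3 : 0 ≤ X / L ^ 9 := by positivity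
      have h4 : 4 * X / L ^ 9 = 4 * (X / L ^ 9) := by ring
      rw [h4]
      nlinarith
    have h3 : 16 ≤ X / L ^ 9 := by
      rw [le_div_iff₀ (by positivity)]
      exact hX2
    have h4 : (X - 1) / L ^ 9 = X / L ^ 9 - 1 / L ^ 9 := by ring
    have h5 : 1 / L ^ 9 ≤ 1 := by
      rw [div_le_one (by positivity)]
      exact h9
    linarith

private theorem MeanQ_len (x l p : ℕ) (hp : 0 < p) :
    (l : ℝ) / p - 1 ≤ (((x + l) / p - x / p : ℕ) : ℝ) ∧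
      (((x + l) / p - x / p : ℕ) : ℝ) ≤ (l : ℝ) / p + 1 := by
  have hdiv : x / p ≤ (x + l) / p := Nat.div_le_div_right (Nat.le_add_right _ _)
  have hpR : (0 : ℝ) < p := by exact_mod_cast hp
  rw [Nat.cast_sub hdiv]
  have h1 : ((x / p : ℕ) : ℝ) ≤ (x : ℝ) / p := Nat.cast_div_le
  have h2 : (((x + l) / p : ℕ) : ℝ) ≤ ((x + l : ℕ) : ℝ) / p := Nat.cast_div_le
  have h3 : (x : ℝ) / p < ((x / p : ℕ) : ℝ) + 1 := by
    rw [div_lt_iff₀ hpR]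
    have := Nat.lt_div_mul_add (a := x) hp
    have h4 : x < (x / p + 1) * p := by
      rw [add_mul, one_mul]
      exact this
    exact_mod_cast h4
  have h5 : ((x + l : ℕ) : ℝ) / p < (((x + l) / p : ℕ) : ℝ) + 1 := by
    rw [div_lt_iff₀ hpR]
    have := Nat.lt_div_mul_add (a := x + l) hp
    have h4 : x + l < ((x + l) / p + 1) * p := by
      rw [add_mul, one_mul]
      exact this
    exact_mod_cast h4
  have h6 : ((x + l : ℕ) : ℝ) / p = (x : ℝ) / p + (l : ℝ) / p := by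
    push_cast
    ring
  rw [h6] at h2 h5
  constructor <;> linarith

private theorem MeanQ_all (e1 : ℝ) (he1 : 0 < e1) (K : ℕ) : ∃ N0 : ℕ, ∀ N : ℕ, N0 ≤ N → ∀ J x l : ℕ,
    (zz (yN e1 N) J : ℝ) ≤ (N : ℝ) ^ (2221 / 10000 : ℝ) → N ≤ 8 * x → x ≤ 8 * N → (x : ℝ) / Real.log N ^ K ≤ l →
    (l : ℝ) ≤ 4 * x / Real.log N ^ 10 →
      2 ≤ N ∧ 8 ≤ Real.log N ∧ 3 ≤ yN e1 N ∧ l ≤ x ∧
      ∀ p ∈ PY (yN e1 N) (zz (yN e1 N) J),
        (N : ℝ) ^ (5 / 8 : ℝ) ≤ ((x / p : ℕ) : ℝ) ∧ x / p ≤ N ^ 2 ∧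
        ((x / p : ℕ) : ℝ) / Real.log N ^ (K + 1) ≤ (((x + l) / p - x / p : ℕ) : ℝ) ∧
        (((x + l) / p - x / p : ℕ) : ℝ) ≤ ((x / p : ℕ) : ℝ) / Real.log N ^ 9 := by
  obtain ⟨N1, hN1⟩ := MeanQ_ev (5 / 8) (by norm_num) (K + 9)
  obtain ⟨N2, hN2⟩ := MeanQ_ev (1 / 10) (by norm_num) 0
  obtain ⟨N3, hN3⟩ := MeanQ_ev e1 he1 0
  refine ⟨N1 + N2 + N3 + 8, fun N hN J x l hz hx1 hx2 hl1 hl2 => ?_⟩
  obtain ⟨hN2', hL8, hNM⟩ := hN1 N (by omega)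
  obtain ⟨-, -, hNb⟩ := hN2 N (by omega)
  obtain ⟨-, -, hNe⟩ := hN3 N (by omega)
  rw [pow_zero, mul_one] at hNb hNe
  set L : ℝ := Real.log N with hLdef
  have hL1 : 1 ≤ L := by linarith
  have hL0 : 0 < L := by linarith
  have hNR : (1 : ℝ) ≤ N := by exact_mod_cast (by omega : 1 ≤ N)
  have hNpos : (0 : ℝ) < N := by linarith
  have hxR : (N : ℝ) ≤ 8 * x := by exact_mod_cast hx1
  have hx0 : (0 : ℝ) < x := by linarith
  have hlx : (l : ℝ) ≤ x := by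
    refine hl2.trans ?_
    rw [div_le_iff₀ (by positivity)]
    have h10 : (8 : ℝ) ≤ L ^ 10 := by
      calc (8 : ℝ) ≤ L := hL8
        _ = L ^ 1 := (pow_one L).symm
        _ ≤ L ^ 10 := pow_le_pow_right₀ hL1 (by norm_num)
    nlinarith
  refine ⟨hN2', hL8, ?_, by exact_mod_cast hlx, ?_⟩
  · unfold yN
    rw [Nat.le_floor_iff (by positivity)]
    refine le_trans ?_ hNe
    norm_num
  intro p hp
  unfold PY at hp
  rw [mem_filter, mem_Ioc] at hp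
  obtain ⟨⟨hp1, hp2⟩, hp3⟩ := hp
  have hp0 : 0 < p := hp3.pos
  have hpR : (0 : ℝ) < p := by exact_mod_cast hp0
  have hpz : (p : ℝ) ≤ (N : ℝ) ^ (2221 / 10000 : ℝ) := le_trans (by exact_mod_cast hp2) hz
  have hX : 2 * (N : ℝ) ^ (5 / 8 : ℝ) ≤ (x : ℝ) / p := by
    rw [le_div_iff₀ hpR]
    have h1 : (N : ℝ) ^ (5 / 8 : ℝ) * (N : ℝ) ^ (2221 / 10000 : ℝ) * (N : ℝ) ^ (1 / 10 : ℝ) ≤ N := by
      rw [← Real.rpow_add hNpos, ← Real.rpow_add hNpos]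
      calc (N : ℝ) ^ (5 / 8 + 2221 / 10000 + 1 / 10 : ℝ) ≤ (N : ℝ) ^ (1 : ℝ) :=
            Real.rpow_le_rpow_of_exponent_le hNR (by norm_num)
        _ = N := Real.rpow_one _
    have h2 : 0 < (N : ℝ) ^ (5 / 8 : ℝ) := by positivity
    have h3 : (N : ℝ) ^ (5 / 8 : ℝ) * p ≤ (N : ℝ) ^ (5 / 8 : ℝ) * (N : ℝ) ^ (2221 / 10000 : ℝ) := by
      gcongr
    have h4 : (N : ℝ) ^ (5 / 8 : ℝ) * (N : ℝ) ^ (2221 / 10000 : ℝ) * 16 ≤
        (N : ℝ) ^ (5 / 8 : ℝ) * (N : ℝ) ^ (2221 / 10000 : ℝ) * (N : ℝ) ^ (1 / 10 : ℝ) := by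
      gcongr
    linarith
  have h58 : (1 : ℝ) ≤ (N : ℝ) ^ (5 / 8 : ℝ) := Real.one_le_rpow hNR (by norm_num)
  have hn1 : ((x / p : ℕ) : ℝ) ≤ (x : ℝ) / p := Nat.cast_div_le
  have hn2 : (x : ℝ) / p - 1 ≤ ((x / p : ℕ) : ℝ) := by
    have h4 : x < (x / p + 1) * p := by
      rw [add_mul, one_mul]
      exact Nat.lt_div_mul_add hp0
    have h5 : (x : ℝ) < (((x / p : ℕ) : ℝ) + 1) * p := by exact_mod_cast h4
    have h6 : (x : ℝ) / p < ((x / p : ℕ) : ℝ) + 1 := by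
      rw [div_lt_iff₀ hpR]
      exact h5
    linarith
  obtain ⟨hlp1, hlp2⟩ := MeanQ_len x l p hp0
  refine ⟨by linarith, ?_, ?_⟩
  · calc x / p ≤ x := Nat.div_le_self _ _
      _ ≤ 8 * N := hx2
      _ ≤ N * N := Nat.mul_le_mul_right _ (by omega)
      _ = N ^ 2 := (sq N).symm
  · refine MeanQ_real ((x : ℝ) / p) _ _ ((l : ℝ) / p) L K hL8 hn1 hn2 ?_ hlp1 hlp2 ?_ ?_
    · linarith
    · rw [div_right_comm]
      gcongr
    · calc (l : ℝ) / p ≤ 4 * x / L ^ 10 / p := by gcongr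
        _ = 4 * ((x : ℝ) / p) / L ^ 10 := by ring

private theorem MeanQ_filter (s : Finset ℕ) (f : ℕ → ℝ) :
    ∑ k ∈ s.filter (fun k => k ≡ 0 [MOD 1]), f k = ∑ k ∈ s, f k := by
  rw [filter_true_of_mem]
  intro k _
  exact Nat.modEq_one

theorem mean_b (e1 : ℝ) (he1 : 0 < e1) (he2 : e1 ≤ 1 / 100) (K : ℕ) : ∃ N0 : ℕ, ∀ N : ℕ, N0 ≤ N → ∀ J x l : ℕ,
    (zz (yN e1 N) J : ℝ) ≤ (N : ℝ) ^ (2221 / 10000 : ℝ) → N ≤ 8 * x → x ≤ 8 * N → (x : ℝ) / Real.log N ^ K ≤ l →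
    (l : ℝ) ≤ 4 * x / Real.log N ^ 10 →
      |∑ m ∈ Ioc x (x + l), ∑ j ∈ range J, Fp (bf (yN e1 N) J) (2 ^ j * yN e1 N) m
        - l * ∑ j ∈ range J, WK (yN e1 N) J (2 ^ j * yN e1 N) x| ≤ 3 * l / Real.log N ^ 2 := by
  obtain ⟨N1, hN1⟩ := mean_f e1 he1 K
  obtain ⟨N2, hN2⟩ := MeanQ_all e1 he1 K
  obtain ⟨N3, hN3⟩ := eq_bg (1 / 2) e1 (2221 / 10000) he1 (by linarith) (by norm_num) 3 0 (K + 1)
  refine ⟨N1 + N2 + N3, fun N hN J x l hz hx1 hx2 hl1 hl2 => ?_⟩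
  obtain ⟨h2, hL, hy, hlx, hall⟩ := hN2 N (by omega) J x l hz hx1 hx2 hl1 hl2
  have hNR : (1 : ℝ) ≤ N := by exact_mod_cast (by omega : 1 ≤ N)
  have hL1 : 1 ≤ Real.log N := by linarith
  have key := hN1 N (by omega) J x l (bf (yN e1 N) J) (kap (yN e1 N) J)
    (hz.trans (Real.rpow_le_rpow_of_exponent_le hNR (by norm_num))) hx1 hx2 hl1 hlx ?_ ?_
  · simpa only [WK] using key
  · intro p hp
    obtain ⟨a1, a2, a3, a4⟩ := hall p hp
    have h := hN3 N (by omega) J (x / p) ((x + l) / p - x / p) 1 0 hz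
      ((Real.rpow_le_rpow_of_exponent_le hNR (by norm_num)).trans a1) a2 a3 ?_ le_rfl ?_
    · have hdiv : x / p ≤ (x + l) / p := Nat.div_le_div_right (Nat.le_add_right _ _)
      rw [MeanQ_filter, Nat.add_sub_cancel' hdiv, if_pos (Nat.coprime_one_right 0), Nat.totient_one,
        Nat.cast_one, div_one] at h
      exact h
    · refine a4.trans ?_
      exact div_le_div_of_nonneg_left (Nat.cast_nonneg _) (by positivity)
        (pow_le_pow_right₀ hL1 (by norm_num))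
    · rw [pow_zero, Nat.cast_one]
  · intro p hp
    obtain ⟨c1, c2⟩ := Pool.Agent.H91.TQ.kap_abs (yN e1 N) J (x / p) hy
    rw [abs_of_nonneg c1]
    refine c2.trans ?_
    nlinarith

theorem mean_q (e1 : ℝ) (he1 : 0 < e1) (he2 : e1 ≤ 1 / 100) (K : ℕ) : ∃ N0 : ℕ, ∀ N : ℕ, N0 ≤ N → ∀ J J1 x l : ℕ, J ≤ J1 →
    (zz (yN e1 N) J : ℝ) ≤ (N : ℝ) ^ (2221 / 10000 : ℝ) → (zz (yN e1 N) J1 : ℝ) ≤ (N : ℝ) ^ (3541 / 10000 : ℝ) →
    N ≤ 8 * x → x ≤ 8 * N → (x : ℝ) / Real.log N ^ K ≤ l → (l : ℝ) ≤ 4 * x / Real.log N ^ 10 →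
      |∑ m ∈ Ioc x (x + l), ∑ j ∈ range J, Fp (bq (yN e1 N) J J1) (2 ^ j * yN e1 N) m
        - l * ∑ j ∈ range J, WQ (yN e1 N) J J1 (2 ^ j * yN e1 N) x| ≤ 3 * l / Real.log N ^ 2 := by
  obtain ⟨N1, hN1⟩ := mean_f e1 he1 K
  obtain ⟨N2, hN2⟩ := MeanQ_all e1 he1 K
  obtain ⟨N3, hN3⟩ := Pool.Agent.H91.TQ.eq_q e1 (2221 / 10000) (3541 / 10000) (5 / 8) he1 (by linarith) (by norm_num)
    (by norm_num) (by norm_num) 3 0 (K + 1)
  refine ⟨N1 + N2 + N3, fun N hN J J1 x l hJ hz hz1 hx1 hx2 hl1 hl2 => ?_⟩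
  obtain ⟨h2, hL, hy, hlx, hall⟩ := hN2 N (by omega) J x l hz hx1 hx2 hl1 hl2
  have hNR : (1 : ℝ) ≤ N := by exact_mod_cast (by omega : 1 ≤ N)
  have hL1 : 1 ≤ Real.log N := by linarith
  have key := hN1 N (by omega) J x l (bq (yN e1 N) J J1) (Pool.Agent.H91.TQ.kq (yN e1 N) J J1)
    (hz.trans (Real.rpow_le_rpow_of_exponent_le hNR (by norm_num))) hx1 hx2 hl1 hlx ?_ ?_
  · simpa only [WQ] using key
  · intro p hp
    obtain ⟨a1, a2, a3, a4⟩ := hall p hp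
    have h := hN3 N (by omega) J J1 (x / p) ((x + l) / p - x / p) 1 0 hJ hz hz1
      a1 a2 a3 a4 le_rfl ?_
    · have hdiv : x / p ≤ (x + l) / p := Nat.div_le_div_right (Nat.le_add_right _ _)
      rw [MeanQ_filter, Nat.add_sub_cancel' hdiv, if_pos (Nat.coprime_one_right 0), Nat.totient_one,
        Nat.cast_one, div_one] at h
      exact h
    · rw [pow_zero, Nat.cast_one]
  · intro p hp
    refine (Pool.Agent.H91.TQ.kq_abs (yN e1 N) J J1 (x / p) hy).trans ?_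
    have h0 : (0 : ℝ) < (zz (yN e1 N) J1 : ℝ) := by
      unfold zz
      have : 0 < 2 ^ J1 * yN e1 N := by positivity
      exact_mod_cast this
    have h1 : Real.log (zz (yN e1 N) J1) ≤ Real.log N := by
      refine Real.log_le_log h0 (hz1.trans ?_)
      calc (N : ℝ) ^ (3541 / 10000 : ℝ) ≤ (N : ℝ) ^ (1 : ℝ) :=
            Real.rpow_le_rpow_of_exponent_le hNR (by norm_num)
        _ = N := Real.rpow_one _
    nlinarith

end Pool.Agent.H9.TN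

end

section

/-!
# TM Dens: the densities are the long averages of the exact functions
-/

set_option autoImplicit false

namespace Pool.Agent.H9.TN

open Finset
open Pool.Agent.H53.MID (Fp)
open Pool.Agent.H76.TP (yN zz rg PY bf AA WK kapA aa_nonneg aa_one aa_le)
open Pool.Agent.H91.TQ (om W1 bq WQ Fq kapF sqp fq_eq sqp_int)
open Pool.Agent.H46.TPQ (SvI k1)

/-- facts for large `N` -/
private theorem Dens_large (K : ℕ) : ∃ N0 : ℕ, ∀ N : ℕ, N0 ≤ N → (10 : ℝ) ^ 9 ≤ Real.log N ∧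
    (N : ℝ) ^ (1 / 2 : ℝ) * (8 * Real.log N ^ K) ≤ N := by
  obtain ⟨x1, hx1⟩ := Pool.Agent.H76.GB.log_ge (10 ^ 9)
  obtain ⟨x2, hx2⟩ := Pool.Agent.H76.GB.log_pow_le (1 / 2) 8 (by norm_num) (by norm_num) K
  refine ⟨x1 + x2 + 1, fun N hN => ?_⟩
  have g1 := hx1 N (by omega)
  have g2 := hx2 N (by omega)
  have hNpos : (0 : ℝ) < N := by exact_mod_cast (by omega : 0 < N)
  refine ⟨g1, ?_⟩
  have h6 : (N : ℝ) = (N : ℝ) ^ (1 / 2 : ℝ) * (N : ℝ) ^ (1 / 2 : ℝ) := by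
    rw [← Real.rpow_add hNpos]
    have : (1 / 2 : ℝ) + 1 / 2 = 1 := by norm_num
    rw [this, Real.rpow_one]
  calc (N : ℝ) ^ (1 / 2 : ℝ) * (8 * Real.log N ^ K) ≤ (N : ℝ) ^ (1 / 2 : ℝ) * (N : ℝ) ^ (1 / 2 : ℝ) :=
        mul_le_mul_of_nonneg_left g2 (by positivity)
    _ = N := h6.symm

theorem dens (e1 : ℝ) (he1 : 0 < e1) (he2 : e1 ≤ 1 / 100) (K : ℕ) : ∃ N0 : ℕ, ∀ N : ℕ, N0 ≤ N →
    ∀ (J J1 x l : ℕ) (S T : ℕ → ℝ) (kS kT : ℝ), LevR N (yN e1 N) J J1 → SvI N (yN e1 N) (1 / 10 ^ 7) S T kS kT →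
    N ≤ 4 * x → x ≤ 4 * N → (x : ℝ) / Real.log N ^ K ≤ l → (l : ℝ) ≤ 4 * x / Real.log N ^ 10 →
      |l * kapA kS (yN e1 N) J x - ∑ m ∈ Ioc x (x + l), rg (zz (yN e1 N) J) m| ≤ (1 / 10 ^ 5) * l / Real.log N ∧
      |l * k1 kS kT (yN e1 N) J J1 x - ∑ m ∈ Ioc x (x + l), rg (zz (yN e1 N) J) m * (om (yN e1 N) J J1 m : ℝ)| ≤
        (1 / 10 ^ 5) * l / Real.log N := by
  obtain ⟨N1, hN1⟩ := mean_b e1 he1 he2 K
  obtain ⟨N2, hN2⟩ := mean_q e1 he1 he2 K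
  obtain ⟨N3, hN3⟩ := mean_s K
  obtain ⟨N4, hN4⟩ := sqp_int e1 he1 3
  obtain ⟨N5, hN5⟩ := om_le4
  obtain ⟨N6, hN6⟩ := Dens_large K
  refine ⟨N1 + N2 + N3 + N4 + N5 + N6 + 1, fun N hN J J1 x l S T kS kT hLev hSv hx1 hx2 hl1 hl2 => ?_⟩
  have hNr : (1 : ℝ) ≤ N := by exact_mod_cast (by omega : 1 ≤ N)
  have hz21 : (zz (yN e1 N) J : ℝ) ≤ (N : ℝ) ^ (2221 / 10000 : ℝ) :=
    hLev.2.2.1.trans (Real.rpow_le_rpow_of_exponent_le hNr (by norm_num))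
  have hB := hN1 N (by omega) J x l hz21 (by omega) (by omega) hl1 hl2
  have hQ := hN2 N (by omega) J J1 x l hLev.1 hz21 (hLev.2.2.2.2) (by omega) (by omega) hl1 hl2
  have hS := hN3 N (by omega) (yN e1 N) J J1 x l S T kS kT hLev hSv (by omega) (by omega) hl1
  obtain ⟨g1, g2⟩ := hN6 N (by omega)
  obtain ⟨hJ, h1, h2, h3, h4⟩ := hLev
  obtain ⟨-, -, -, -, hint⟩ := hSv
  set L := Real.log N with hL
  set y := yN e1 N with hy
  have hN1' : (1 : ℝ) ≤ N := by exact_mod_cast (by omega : 1 ≤ N)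
  have hNpos : (0 : ℝ) < N := by linarith
  have hL0 : 0 < L := by linarith [show (0 : ℝ) < 10 ^ 9 by norm_num]
  have hL1 : 1 ≤ L := by linarith [show (1 : ℝ) ≤ 10 ^ 9 by norm_num]
  have hx1n : 1 ≤ x := by omega
  have hxR : (N : ℝ) ≤ 8 * x := by exact_mod_cast (by omega : N ≤ 8 * x)
  have hl12 : (N : ℝ) ^ (1 / 2 : ℝ) ≤ l := by
    refine le_trans ?_ hl1
    rw [le_div_iff₀ (by positivity)]
    have e1 : (N : ℝ) ^ (1 / 2 : ℝ) * (8 * L ^ K) = 8 * ((N : ℝ) ^ (1 / 2 : ℝ) * L ^ K) := by ring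
    rw [e1] at g2
    linarith
  have hl14 : (N : ℝ) ^ (1 / 4 : ℝ) ≤ l := le_trans (Real.rpow_le_rpow_of_exponent_le hN1' (by norm_num)) hl12
  have hSq := hN4 N (by omega) J x l (h2.trans (Real.rpow_le_rpow_of_exponent_le hN1' (by norm_num))) hl12
  have hR := (hint x l hx1n (by omega) hl14).1
  have hlx : l ≤ x := by
    have e1 : (4 : ℝ) * x / L ^ 10 ≤ x := by
      rw [div_le_iff₀ (by positivity)]
      have e2 : (4 : ℝ) ≤ L ^ 10 := by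
        have : L ^ 1 ≤ L ^ 10 := pow_le_pow_right₀ hL1 (by norm_num)
        rw [pow_one] at this
        linarith [show (4 : ℝ) ≤ 10 ^ 9 by norm_num]
      have e3 : (0 : ℝ) ≤ x := Nat.cast_nonneg x
      calc (4 : ℝ) * x = x * 4 := mul_comm _ _
        _ ≤ x * L ^ 10 := mul_le_mul_of_nonneg_left e2 e3
    exact_mod_cast hl2.trans e1
  -- pointwise identities
  have hpB : ∀ m ∈ Ioc x (x + l), ∑ j ∈ range J, Fp (bf y J) (2 ^ j * y) m = rg y m - AA y J m := by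
    intro m _
    unfold AA
    ring
  have hpQ : ∀ m ∈ Ioc x (x + l), ∑ j ∈ range J, Fp (bq y J J1) (2 ^ j * y) m =
      rg y m - (om y J J1 m : ℝ) * rg y m / 2 - (1 - (om y J J1 m : ℝ) / 2) * AA y J m := by
    intro m hm
    rw [mem_Ioc] at hm
    have h1 := fq_eq (rg y) (rg y) y J J1 m (by omega)
    unfold Fq at h1
    linarith
  have hAA : ∀ m ∈ Ioc x (x + l), rg (zz y J) m ≤ AA y J m ∧ AA y J m ≤ rg (zz y J) m + sqp y J m := by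
    intro m hm
    rw [mem_Ioc] at hm
    refine ⟨?_, aa_le y J m (by omega)⟩
    by_cases hr : ∀ p : ℕ, p.Prime → p ∣ m → zz y J < p
    · rw [aa_one y J m (by omega) hr]
      unfold rg
      rw [if_pos hr]
    · have : rg (zz y J) m = 0 := by
        unfold rg
        rw [if_neg hr]
      rw [this]
      exact aa_nonneg y J m (by omega)
  have hom : ∀ m ∈ Ioc x (x + l), (om y J J1 m : ℝ) ≤ 4 := by
    intro m hm
    rw [mem_Ioc] at hm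
    have e1 := hN5 N (by omega) (zz y J) (zz y J1) m h1 (by omega) (by omega)
    have e2 : om y J J1 m ≤ 4 := e1
    exact_mod_cast e2
  have hsA : |∑ m ∈ Ioc x (x + l), AA y J m - ∑ m ∈ Ioc x (x + l), rg (zz y J) m| ≤ l / L ^ 3 := by
    have e1 : ∑ m ∈ Ioc x (x + l), rg (zz y J) m ≤ ∑ m ∈ Ioc x (x + l), AA y J m := sum_le_sum fun m hm => (hAA m hm).1
    have e2 : ∑ m ∈ Ioc x (x + l), AA y J m ≤ ∑ m ∈ Ioc x (x + l), rg (zz y J) m + ∑ m ∈ Ioc x (x + l), sqp y J m := by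
      rw [← sum_add_distrib]
      exact sum_le_sum fun m hm => (hAA m hm).2
    rw [abs_le]
    have e3 : (0 : ℝ) ≤ l / L ^ 3 := by positivity
    constructor <;> linarith
  have hsO : |∑ m ∈ Ioc x (x + l), (om y J J1 m : ℝ) * AA y J m -
      ∑ m ∈ Ioc x (x + l), rg (zz y J) m * (om y J J1 m : ℝ)| ≤ 4 * (l / L ^ 3) := by
    have e1 : ∑ m ∈ Ioc x (x + l), rg (zz y J) m * (om y J J1 m : ℝ) ≤ ∑ m ∈ Ioc x (x + l), (om y J J1 m : ℝ) * AA y J m := by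
      refine sum_le_sum fun m hm => ?_
      rw [mul_comm]
      exact mul_le_mul_of_nonneg_left (hAA m hm).1 (Nat.cast_nonneg _)
    have e2 : ∑ m ∈ Ioc x (x + l), (om y J J1 m : ℝ) * AA y J m ≤
        ∑ m ∈ Ioc x (x + l), rg (zz y J) m * (om y J J1 m : ℝ) + 4 * ∑ m ∈ Ioc x (x + l), sqp y J m := by
      rw [mul_sum, ← sum_add_distrib]
      refine sum_le_sum fun m hm => ?_
      have a1 := mul_le_mul_of_nonneg_left (hAA m hm).2 (Nat.cast_nonneg (om y J J1 m) : (0 : ℝ) ≤ _)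
      have a2 : 0 ≤ sqp y J m := by
        unfold sqp
        positivity
      have a3 := mul_le_mul_of_nonneg_right (hom m hm) a2
      calc (om y J J1 m : ℝ) * AA y J m ≤ (om y J J1 m : ℝ) * (rg (zz y J) m + sqp y J m) := a1
        _ = rg (zz y J) m * (om y J J1 m : ℝ) + (om y J J1 m : ℝ) * sqp y J m := by ring
        _ ≤ _ := by linarith
    rw [abs_le]
    have e3 : (0 : ℝ) ≤ l / L ^ 3 := by positivity
    constructor <;> linarith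
  rw [sum_congr rfl hpB, sum_sub_distrib] at hB
  rw [sum_congr rfl hpQ, sum_sub_distrib, sum_sub_distrib] at hQ
  have hq2 : ∑ m ∈ Ioc x (x + l), (1 - (om y J J1 m : ℝ) / 2) * AA y J m =
      ∑ m ∈ Ioc x (x + l), AA y J m - (∑ m ∈ Ioc x (x + l), (om y J J1 m : ℝ) * AA y J m) / 2 := by
    rw [sum_div, ← sum_sub_distrib]
    exact sum_congr rfl fun m _ => by ring
  have hq3 : ∑ m ∈ Ioc x (x + l), (om y J J1 m : ℝ) * rg y m / 2 =
      (∑ m ∈ Ioc x (x + l), (om y J J1 m : ℝ) * rg y m) / 2 := by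
    rw [sum_div]
  rw [hq2, hq3] at hQ
  -- error terms
  have er1 : 3 * (l : ℝ) / L ^ 2 ≤ (1 / 10 ^ 8) * l / L := by
    have hl0 : (0 : ℝ) ≤ l := Nat.cast_nonneg l
    rw [div_le_div_iff₀ (by positivity) hL0]
    have e1 : (3 : ℝ) ≤ 1 / 10 ^ 8 * L := by linarith
    have e2 : (0 : ℝ) ≤ l * L := by positivity
    calc 3 * (l : ℝ) * L = l * L * 3 := by ring
      _ ≤ l * L * (1 / 10 ^ 8 * L) := mul_le_mul_of_nonneg_left e1 e2
      _ = 1 / 10 ^ 8 * l * L ^ 2 := by ring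
  have er2 : (l : ℝ) / L ^ 3 ≤ 3 * (l : ℝ) / L ^ 2 := by
    have hl0 : (0 : ℝ) ≤ l := Nat.cast_nonneg l
    rw [div_le_div_iff₀ (by positivity) (by positivity)]
    have e2 : (0 : ℝ) ≤ l * L ^ 2 := by positivity
    have e3 : (1 : ℝ) ≤ 3 * L := by linarith
    calc (l : ℝ) * L ^ 2 = l * L ^ 2 * 1 := (mul_one _).symm
      _ ≤ l * L ^ 2 * (3 * L) := mul_le_mul_of_nonneg_left e3 e2
      _ = 3 * l * L ^ 3 := by ring
  have er3 : (1 / 10 ^ 5) * (l : ℝ) / L = 1000 * ((1 / 10 ^ 8) * l / L) := by ring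
  have er4 : (1 / 10 ^ 6) * (l : ℝ) / L = 100 * ((1 / 10 ^ 8) * l / L) := by ring
  have er5 : (1 / 10 ^ 7) * (l : ℝ) / L = 10 * ((1 / 10 ^ 8) * l / L) := by ring
  rw [er5] at hR
  rw [er4] at hS
  rw [er3]
  set δ := (1 / 10 ^ 8) * (l : ℝ) / L with hδ
  have hδ0 : 0 ≤ δ := by positivity
  rw [abs_le] at hB hQ hS hR hsA hsO
  obtain ⟨B1, B2⟩ := hB
  obtain ⟨Q1, Q2⟩ := hQ
  obtain ⟨S1, S2⟩ := hS
  obtain ⟨R1', R2'⟩ := hR
  obtain ⟨A1, A2⟩ := hsA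
  obtain ⟨O1, O2⟩ := hsO
  constructor
  · unfold kapA
    have e1 : (l : ℝ) * (kS - ∑ j ∈ range J, WK y J (2 ^ j * y) x) = kS * l - l * ∑ j ∈ range J, WK y J (2 ^ j * y) x := by ring
    rw [e1, abs_le]
    constructor <;> linarith
  · unfold k1 kapA kapF
    have e1 : (l : ℝ) * (2 * (kS - ∑ j ∈ range J, WK y J (2 ^ j * y) x -
        (kS - kT * W1 y J J1 / 2 - ∑ j ∈ range J, WQ y J J1 (2 ^ j * y) x))) =
        kT * W1 y J J1 * l - 2 * (l * ∑ j ∈ range J, WK y J (2 ^ j * y) x) +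
          2 * (l * ∑ j ∈ range J, WQ y J J1 (2 ^ j * y) x) := by ring
    rw [e1, abs_le]
    constructor <;> linarith
  

end Pool.Agent.H9.TN

end
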