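import Pool.Agent.H43.PJ.M52
import Pool.Agent.H43.PJ.M77

/-! The parts of this file: H46.TPQ.Defs2, H46.TPQ.Star2, H46.TPQ.Cert2, H9.TN.Poly. -/

section

/-!
# PROJECT TPQ, second version (MP_967f73_nt): two primes `n - x`, `n + x` with `|x| ≤ n^θ` for almost all `n`, `5/24 ≤ θ ≤ 7/24`: definitions

As in `Defs.lean`, with the levels `LevR`: `N^(2082/10000) ≤ z ≤ N^(2083/10000)`, `N^(3540/10000) ≤ z1 ≤ N^(3541/10000)` (`2083/10000 < 5/24`, `3541/10000 < 1/4 + 5/48`, `5 · 2082/10000 > 1`), `om ≤ 4`, and the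
certificate 2 (note 2386): with `y = 2 · 1_P - ρ + φY(om) ρ`, `z = -(4/3) 1_P + ρ/3 + φZ(om) ρ`, `φY(0..4) = 0, 1, 4/3, 1, 2/3`, `φZ(0..4) = 0, -1/3, -2/3, -1/3, -1/4`:
`2 · 1_P 1_P' ≥ y ρ' + ρ y' + om ρ z' + z (om ρ)'` (`Star2.lean`).

Values `(y, z)`: primes `(1, -1)`; rough composite numbers with `om = 0, 1, 2, 3, 4`: `(-1, 1/3), (0, 0), (1/3, -1/3), (0, 0), (-1/3, 1/12)`.
Robust form: with `R0, R1, DD` in place of `ρ, om ρ` the loss is `8 (R0 D' + D R0') + 4 D D'`, that is `∑_{j<3} (X_j(u) Y_j(v) + Y_j(u) X_j(v)) ≤ 1_P 1_P'`, `X = (R0, R1, DD)`,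
`Y1 = pr - R0/2 + yy0/2 - 4 DD`, `Y2 = -(2/3) pr + R0/6 + zz0/2`, `Y3 = -DD`, main term `MM2 = 2 ∑ k_j l_j`.
-/

set_option autoImplicit false

namespace Pool.Agent.H46.TPQ

open Finset
open Pool.Agent.H91.PK (ee)
open Pool.Agent.H91.EHA (Lam lamR)
open Pool.Agent.H43.MP (blk Hn idx Rn)
open Pool.Agent.H43.TP (badF)
open Pool.Agent.H35.W (pb)
open Pool.Agent.H53.MID (Fp)
open Pool.Agent.H76.TP (yN zz rg bf kap kapA Ap Z2 Z3 PY)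
open Pool.Agent.H91.TQ (om bq kapF Fq sqp Lev)
open Pool.Agent.H31.EQ (gam)

/-- the levels -/
def LevR (N y J J1 : ℕ) : Prop := Lev (2082 / 10000) (2083 / 10000) (3540 / 10000) (3541 / 10000) N y J J1

/-- the table of `y` -/
noncomputable def fY (k : ℕ) : ℝ := if k = 1 then 1 else if k = 2 then 4 / 3 else if k = 3 then 1 else if k = 4 then 2 / 3 else 0

/-- the table of `z` -/
noncomputable def fZ (k : ℕ) : ℝ :=
  if k = 1 then -1 / 3 else if k = 2 then -2 / 3 else if k = 3 then -1 / 3 else if k = 4 then -1 / 4 else 0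

/-- `ρ φY(om)` -/
noncomputable def yy0 (y J J1 m : ℕ) : ℝ := rg (zz y J) m * fY (om y J J1 m)

/-- `ρ φZ(om)` -/
noncomputable def zz0 (y J J1 m : ℕ) : ℝ := rg (zz y J) m * fZ (om y J J1 m)

/-- the LFU black box with general levels (helper91: `LINg`) -/
def LINg (θ ζ' ζ κ' κ : ℝ) : Prop := ∀ ε : ℝ, 0 < ε → ∃ e1 : ℝ, 0 < e1 ∧ e1 ≤ 1 / 100 ∧ ∃ C : ℕ, ∀ A : ℕ, ∃ B N0 : ℕ, ∀ N : ℕ, N0 ≤ N →
  ∃ (J J1 : ℕ) (S T : ℕ → ℝ) (kS kT : ℝ), Lev ζ' ζ κ' κ N (yN e1 N) J J1 ∧ SvI N (yN e1 N) ε S T kS kT ∧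
    (∀ i ∈ idx N (Hn θ N),
      ∑ m ∈ blk (Hn θ N) i, Ap S (yN e1 N) J m ^ 2 ≤ Hn θ N * Real.log N ^ C ∧
      ∑ m ∈ blk (Hn θ N) i, R1 S T (yN e1 N) J J1 m ^ 2 ≤ Hn θ N * Real.log N ^ C ∧
      ∑ m ∈ blk (Hn θ N) i, DD S T (yN e1 N) J1 m ^ 2 ≤ Hn θ N * Real.log N ^ C) ∧
    (∀ i ∈ idx N (Hn θ N), i + 1 ∈ idx N (Hn θ N) →
      |kapA kS (yN e1 N) J (i * Hn θ N) - kapA kS (yN e1 N) J ((i + 1) * Hn θ N)| ≤ 1 / Real.log N ^ A ∧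
      |k1 kS kT (yN e1 N) J J1 (i * Hn θ N) - k1 kS kT (yN e1 N) J J1 ((i + 1) * Hn θ N)| ≤ 1 / Real.log N ^ A) ∧
    ((badF N (Hn θ N) (Rn B N) A (Ap S (yN e1 N) J) (fun i => kapA kS (yN e1 N) J (i * Hn θ N))).card : ℝ) ≤
      (N : ℝ) / (Hn θ N) / Real.log N ^ A ∧
    ((badF N (Hn θ N) (Rn B N) A (R1 S T (yN e1 N) J J1) (fun i => k1 kS kT (yN e1 N) J J1 (i * Hn θ N))).card : ℝ) ≤
      (N : ℝ) / (Hn θ N) / Real.log N ^ A ∧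
    ((badF N (Hn θ N) (Rn B N) A (DD S T (yN e1 N) J1) (fun _ => kS - kT)).card : ℝ) ≤
      (N : ℝ) / (Hn θ N) / Real.log N ^ A

/-- the main term of the certificate 2 -/
noncomputable def MM2 (gp gY gZ k0 k1 kD : ℝ) : ℝ :=
  k0 * (2 * gp - k0 + gY) + k1 * (-(4 / 3) * gp + k0 / 3 + gZ) - 8 * k0 * kD - 2 * kD ^ 2

/-- the mass condition of the second version (helper9) -/
def MASS8 : Prop := ∀ (e1 : ℝ) (A1 : ℕ), 0 < e1 → e1 ≤ 1 / 100 → 10 ≤ A1 → ∃ N0 : ℕ, ∀ N : ℕ, N0 ≤ N →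
  ∀ (J J1 : ℕ) (S T : ℕ → ℝ) (kS kT : ℝ), LevR N (yN e1 N) J J1 → SvI N (yN e1 N) (1 / 10 ^ 7) S T kS kT →
    ∀ x : ℕ, N ≤ 4 * x → x ≤ 4 * N →
      |kapA kS (yN e1 N) J x| ≤ 1 ∧ |k1 kS kT (yN e1 N) J J1 x| ≤ 1 ∧
      1 / 100 / Real.log N ^ 2 ≤ MM2 (1 / Real.log x)
        (gam (yy0 (yN e1 N) J J1) ⌊(N : ℝ) / Real.log N ^ A1⌋₊ x) (gam (zz0 (yN e1 N) J J1) ⌊(N : ℝ) / Real.log N ^ A1⌋₊ x)
        (kapA kS (yN e1 N) J x) (k1 kS kT (yN e1 N) J J1 x) (kS - kT)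

end Pool.Agent.H46.TPQ

end

section

/-!
# TPQ Star2: the certificate 2, exact and robust form (real numbers)
-/

set_option autoImplicit false

namespace Pool.Agent.H46.TPQ

/-- the bound of `y` and `z` -/
private theorem Star2_bd {P s : ℝ} {k : ℕ} (h : Typ P s k) (hk : k ≤ 4) :
    |2 * P - s + s * fY k| ≤ s ∧ |-(4 / 3) * P + s / 3 + s * fZ k| ≤ s := by
  rcases h with ⟨rfl, rfl⟩ | ⟨rfl, rfl⟩ | ⟨rfl, rfl, rfl⟩
  · norm_num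
  · interval_cases k <;> norm_num [fY, fZ, abs_of_nonneg, abs_of_neg]
  · norm_num [fY, fZ, abs_of_nonneg, abs_of_neg]

/-- the exact certificate -/
theorem star2 (P s P' s' : ℝ) (k k' : ℕ) (h : Typ P s k) (h' : Typ P' s' k') (hk : k ≤ 4) (hk' : k' ≤ 4) :
    (2 * P - s + s * fY k) * s' + s * (2 * P' - s' + s' * fY k') + (k * s) * (-(4 / 3) * P' + s' / 3 + s' * fZ k')
      + (-(4 / 3) * P + s / 3 + s * fZ k) * (k' * s') ≤ 2 * (P * P') := by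
  rcases h with ⟨rfl, rfl⟩ | ⟨rfl, rfl⟩ | ⟨rfl, rfl, rfl⟩ <;>
    rcases h' with ⟨rfl, rfl⟩ | ⟨rfl, rfl⟩ | ⟨rfl, rfl, rfl⟩
  · norm_num
  · norm_num
  · norm_num
  · norm_num
  · interval_cases k <;> interval_cases k' <;> norm_num [fY, fZ]
  · interval_cases k <;> norm_num [fY, fZ]
  · norm_num
  · interval_cases k' <;> norm_num [fY, fZ]
  · norm_num [fY, fZ]

/-- the robust certificate -/
theorem star2_rob (P s P' s' : ℝ) (k k' : ℕ) (h : Typ P s k) (h' : Typ P' s' k') (hk : k ≤ 4) (hk' : k' ≤ 4)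
    (a o D a' o' D' : ℝ) (ha1 : s ≤ a) (ha2 : a ≤ s + D) (ho : |o - k * s| ≤ 4 * D)
    (ha1' : s' ≤ a') (ha2' : a' ≤ s' + D') (ho' : |o' - k' * s'| ≤ 4 * D') :
    (2 * P - a + s * fY k) * a' + a * (2 * P' - a' + s' * fY k') + o * (-(4 / 3) * P' + a' / 3 + s' * fZ k')
      + (-(4 / 3) * P + a / 3 + s * fZ k) * o' - 8 * (a * D' + D * a') - 4 * (D * D') ≤ 2 * (P * P') := by
  have h0 := star2 P s P' s' k k' h h' hk hk'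
  obtain ⟨by1, bz1⟩ := Star2_bd h hk
  obtain ⟨by2, bz2⟩ := Star2_bd h' hk'
  have hD : 0 ≤ D := by linarith
  have hD' : 0 ≤ D' := by linarith
  have hs : 0 ≤ s := by
    rcases h with ⟨rfl, rfl⟩ | ⟨rfl, rfl⟩ | ⟨rfl, rfl, rfl⟩ <;> norm_num
  have hs' : 0 ≤ s' := by
    rcases h' with ⟨rfl, rfl⟩ | ⟨rfl, rfl⟩ | ⟨rfl, rfl, rfl⟩ <;> norm_num
  have k4 : (k : ℝ) ≤ 4 := by exact_mod_cast hk
  have k4' : (k' : ℝ) ≤ 4 := by exact_mod_cast hk'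
  have kr : (0 : ℝ) ≤ k := Nat.cast_nonneg k
  have kr' : (0 : ℝ) ≤ k' := Nat.cast_nonneg k'
  obtain ⟨Y, hY⟩ : ∃ Y, Y = 2 * P - s + s * fY k := ⟨_, rfl⟩
  obtain ⟨Z, hZ⟩ : ∃ Z, Z = -(4 / 3) * P + s / 3 + s * fZ k := ⟨_, rfl⟩
  obtain ⟨Y', hY'⟩ : ∃ Y', Y' = 2 * P' - s' + s' * fY k' := ⟨_, rfl⟩
  obtain ⟨Z', hZ'⟩ : ∃ Z', Z' = -(4 / 3) * P' + s' / 3 + s' * fZ k' := ⟨_, rfl⟩
  obtain ⟨δ, hδ⟩ : ∃ δ, δ = a - s := ⟨_, rfl⟩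
  obtain ⟨δ', hδ'⟩ : ∃ δ', δ' = a' - s' := ⟨_, rfl⟩
  obtain ⟨η, hη⟩ : ∃ η, η = o - k * s := ⟨_, rfl⟩
  obtain ⟨η', hη'⟩ : ∃ η', η' = o' - k' * s' := ⟨_, rfl⟩
  rw [← hY] at by1
  rw [← hZ] at bz1
  rw [← hY'] at by2
  rw [← hZ'] at bz2
  rw [← hY, ← hY', ← hZ, ← hZ'] at h0
  rw [← hη] at ho
  rw [← hη'] at ho'
  have d0 : 0 ≤ δ := by linarith
  have d0' : 0 ≤ δ' := by linarith
  have d1 : δ ≤ D := by linarith
  have d1' : δ' ≤ D' := by linarith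
  have e1 : 2 * P - a + s * fY k = Y - δ := by rw [hY, hδ]; ring
  have e2 : 2 * P' - a' + s' * fY k' = Y' - δ' := by rw [hY', hδ']; ring
  have e3 : -(4 / 3) * P' + a' / 3 + s' * fZ k' = Z' + δ' / 3 := by rw [hZ', hδ']; ring
  have e4 : -(4 / 3) * P + a / 3 + s * fZ k = Z + δ / 3 := by rw [hZ, hδ]; ring
  have e5 : o = k * s + η := by rw [hη]; ring
  have e6 : o' = k' * s' + η' := by rw [hη']; ring
  have e7 : a = s + δ := by rw [hδ]; ring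
  have e8 : a' = s' + δ' := by rw [hδ']; ring
  rw [e1, e2, e3, e4, e5, e6]
  -- the products
  have q : ∀ {x X t T : ℝ}, |x| ≤ X → |t| ≤ T → x * t ≤ X * T := by
    intro x X t T hx ht
    have h1 : |x * t| ≤ X * T := by
      rw [abs_mul]
      exact mul_le_mul hx ht (abs_nonneg _) ((abs_nonneg _).trans hx)
    exact (le_abs_self _).trans h1
  have dd : |δ| ≤ D := by rw [abs_of_nonneg d0]; exact d1
  have dd' : |δ'| ≤ D' := by rw [abs_of_nonneg d0']; exact d1'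
  have ks : |(k : ℝ) * s| ≤ 4 * s := by
    rw [abs_of_nonneg (mul_nonneg kr hs)]
    exact mul_le_mul_of_nonneg_right k4 hs
  have ks' : |(k' : ℝ) * s'| ≤ 4 * s' := by
    rw [abs_of_nonneg (mul_nonneg kr' hs')]
    exact mul_le_mul_of_nonneg_right k4' hs'
  have p1 := q by1 dd'
  have p2 := q dd by2
  have p3 := q ks dd'
  have p4 := q ho bz2
  have p5 := q ho dd'
  have p6 := q bz1 ho'
  have p7 := q dd ks'
  have p8 := q dd ho'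
  have n1 : 0 ≤ δ * s' := mul_nonneg d0 hs'
  have n2 : 0 ≤ δ * δ' := mul_nonneg d0 d0'
  have n3 : 0 ≤ s * δ' := mul_nonneg hs d0'
  have m1 : s * D' ≤ a * D' := mul_le_mul_of_nonneg_right ha1 hD'
  have m2 : D * s' ≤ D * a' := mul_le_mul_of_nonneg_left ha1' hD
  have m3 : 0 ≤ D * D' := mul_nonneg hD hD'
  have m4 : 0 ≤ s * D' := mul_nonneg hs hD'
  have m5 : 0 ≤ D * s' := mul_nonneg hD hs'
  have e9 : (Y - δ) * a' + a * (Y' - δ') + (k * s + η) * (Z' + δ' / 3) + (Z + δ / 3) * (k' * s' + η') =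
      (Y * s' + s * Y' + (k * s) * Z' + Z * (k' * s')) + Y * δ' + δ * Y' - δ * s' - 2 * (δ * δ') - s * δ'
      + (k * s) * δ' / 3 + η * Z' + η * δ' / 3 + Z * η' + δ * (k' * s') / 3 + δ * η' / 3 := by
    rw [e7, e8]
    ring
  rw [e9]
  have e10 : a * D' = s * D' + δ * D' := by rw [e7]; ring
  linarith

end Pool.Agent.H46.TPQ

end

section

/-!
# TPQ Cert2: the certificate 2 for the functions `R0 = Ap S`, `R1`, `DD`, `yy0`, `zz0`, `pr`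
-/

set_option autoImplicit false

namespace Pool.Agent.H46.TPQ

open Finset
open Pool.Agent.H43.TP (pr)
open Pool.Agent.H76.TP (yN zz rg bf kap kapA Ap AA Z2 Z3 PY aa_nonneg aa_one aa_le)
open Pool.Agent.H91.TQ (om bq kapF Fq sqp Lev fq_eq)

/-- large `N` -/
theorem cert_large2 : ∃ N0 : ℕ, ∀ N : ℕ, N0 ≤ N → 1 ≤ N ∧ (17 : ℝ) * N ≤ ((N : ℝ) ^ (2082 / 10000 : ℝ)) ^ 5 ∧
    17 * (N : ℝ) ^ (3541 / 10000 : ℝ) ≤ N := by
  have e1 : ∀ᶠ N : ℕ in Filter.atTop, (17 : ℝ) ≤ (N : ℝ) ^ (41 / 1000 : ℝ) :=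
    ((tendsto_rpow_atTop (by norm_num)).comp (tendsto_natCast_atTop_atTop (R := ℝ))).eventually_ge_atTop _
  have e2 : ∀ᶠ N : ℕ in Filter.atTop, (17 : ℝ) ≤ (N : ℝ) ^ (6459 / 10000 : ℝ) :=
    ((tendsto_rpow_atTop (by norm_num)).comp (tendsto_natCast_atTop_atTop (R := ℝ))).eventually_ge_atTop _
  obtain ⟨N0, hN0⟩ := Filter.eventually_atTop.1 ((e1.and e2).and (Filter.eventually_ge_atTop 1))
  refine ⟨N0, fun N hN => ?_⟩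
  obtain ⟨⟨g1, g2⟩, g3⟩ := hN0 N hN
  have hN : (0 : ℝ) < N := by exact_mod_cast g3
  refine ⟨g3, ?_, ?_⟩
  · have h2 : ((N : ℝ) ^ (2082 / 10000 : ℝ)) ^ 5 = (N : ℝ) ^ (41 / 1000 : ℝ) * N := by
      rw [← Real.rpow_natCast, ← Real.rpow_mul hN.le]
      conv_rhs => rw [← Real.rpow_one (N : ℝ)]
      rw [← Real.rpow_mul hN.le, ← Real.rpow_add hN]
      congr 1
      norm_num
    rw [h2]
    exact mul_le_mul_of_nonneg_right g1 hN.le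
  · have h2 : (N : ℝ) ^ (6459 / 10000 : ℝ) * (N : ℝ) ^ (3541 / 10000 : ℝ) = N := by
      rw [← Real.rpow_add hN]
      norm_num
    calc 17 * (N : ℝ) ^ (3541 / 10000 : ℝ) ≤ (N : ℝ) ^ (6459 / 10000 : ℝ) * (N : ℝ) ^ (3541 / 10000 : ℝ) :=
          mul_le_mul_of_nonneg_right g2 (by positivity)
      _ = N := h2

/-- `om ≤ 4` -/
theorem om_le4R {N y J J1 m : ℕ} (hN : 1 ≤ N) (hN5 : (17 : ℝ) * N ≤ ((N : ℝ) ^ (2082 / 10000 : ℝ)) ^ 5)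
    (hL : LevR N y J J1) (hm : 1 ≤ m) (hm2 : m ≤ 16 * N) : om y J J1 m ≤ 4 := by
  by_contra hcon
  have h1 := om_pow y J J1 m hm
  have hNr : (0 : ℝ) < N := by exact_mod_cast hN
  have hp : (0 : ℝ) < (N : ℝ) ^ (2082 / 10000 : ℝ) := by positivity
  have hz := hL.2.1
  have hz0 : (0 : ℝ) < zz y J := lt_of_lt_of_le hp hz
  have hz1 : 1 ≤ zz y J := by exact_mod_cast hz0
  have h2 : zz y J ^ 5 ≤ m := (Nat.pow_le_pow_right hz1 (by omega)).trans h1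
  have h3 : (zz y J : ℝ) ^ 5 ≤ m := by exact_mod_cast h2
  have h4 : ((N : ℝ) ^ (2082 / 10000 : ℝ)) ^ 5 ≤ (zz y J : ℝ) ^ 5 := pow_le_pow_left₀ hp.le hz 5
  have h5 : (m : ℝ) ≤ 16 * N := by exact_mod_cast hm2
  linarith

/-- the type of a number of the range -/
theorem typ_ofR {N y J J1 m : ℕ} (hN : 1 ≤ N) (hN1 : 17 * (N : ℝ) ^ (3541 / 10000 : ℝ) ≤ N)
    (hL : LevR N y J J1) (hm : N ≤ 16 * m) : Typ (pr m) (rg (zz y J) m) (om y J J1 m) := by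
  unfold pr
  split_ifs with hp
  · right
    right
    have hNr : (0 : ℝ) < N := by exact_mod_cast hN
    have hz1 : zz y J1 < m := by
      have h1 : (zz y J1 : ℝ) ≤ (N : ℝ) ^ (3541 / 10000 : ℝ) := hL.2.2.2.2
      have h2 : (N : ℝ) ≤ 16 * m := by exact_mod_cast hm
      have h3 : (0 : ℝ) < (N : ℝ) ^ (3541 / 10000 : ℝ) := by positivity
      have h4 : (zz y J1 : ℝ) < m := by linarith
      exact_mod_cast h4
    have hzz : zz y J ≤ zz y J1 := by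
      unfold zz
      exact Nat.mul_le_mul_right _ (Nat.pow_le_pow_right (by norm_num) hL.1)
    refine ⟨rfl, ?_, ?_⟩
    · unfold rg
      rw [if_pos]
      intro q hq hqm
      rw [(Nat.prime_dvd_prime_iff_eq hq hp).1 hqm]
      omega
    · unfold om
      rw [Finset.card_eq_zero, Finset.filter_eq_empty_iff]
      intro q hq
      rw [Nat.Prime.primeFactors hp, mem_singleton] at hq
      omega
  · rcases rg_zero_or_one (zz y J) m with h | h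
    · left
      exact ⟨rfl, h⟩
    · right
      left
      exact ⟨rfl, h⟩

/-- the certificate 2 -/
theorem cert_pt2 : ∃ N0 : ℕ, ∀ N : ℕ, N0 ≤ N → ∀ (y J J1 : ℕ) (S T : ℕ → ℝ), LevR N y J J1 →
    (∀ m, 1 ≤ m → T m ≤ rg y m ∧ rg y m ≤ S m) →
    ∀ u v : ℕ, N ≤ 4 * u → u ≤ 4 * N → N ≤ 4 * v → v ≤ 4 * N →
      (2 * pr u - Ap S y J u + yy0 y J J1 u) * Ap S y J v + Ap S y J u * (2 * pr v - Ap S y J v + yy0 y J J1 v)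
        + R1 S T y J J1 u * (-(4 / 3) * pr v + Ap S y J v / 3 + zz0 y J J1 v)
        + (-(4 / 3) * pr u + Ap S y J u / 3 + zz0 y J J1 u) * R1 S T y J J1 v
        - 8 * (Ap S y J u * DD S T y J1 v + DD S T y J1 u * Ap S y J v) - 4 * (DD S T y J1 u * DD S T y J1 v)
        ≤ 2 * (pr u * pr v) := by
  obtain ⟨N0, hN0⟩ := cert_large2
  refine ⟨N0, fun N hN y J J1 S T hL hST u v hu1 hu2 hv1 hv2 => ?_⟩
  obtain ⟨g1, g2, g3⟩ := hN0 N hN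
  have hu : 1 ≤ u := by omega
  have hv : 1 ≤ v := by omega
  have ou := om_le4R g1 g2 hL hu (by omega)
  have ov := om_le4R g1 g2 hL hv (by omega)
  obtain ⟨a1, a2, a3⟩ := appr (S := S) (T := T) hL.1 hu ou (hST u hu).1 (hST u hu).2
  obtain ⟨b1, b2, b3⟩ := appr (S := S) (T := T) hL.1 hv ov (hST v hv).1 (hST v hv).2
  exact star2_rob (pr u) (rg (zz y J) u) (pr v) (rg (zz y J) v) (om y J J1 u) (om y J J1 v)
    (typ_ofR g1 g3 hL (by omega)) (typ_ofR g1 g3 hL (by omega)) ou ov _ _ _ _ _ _ a1 a2 a3 b1 b2 b3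

end Pool.Agent.H46.TPQ

end

section

/-!
# TN Poly: the polynomial inequality behind the mass condition (certificate 2)

`V = 1 - a0² - (2/3) a2 - 2 a3 - (10/3) a4 - (2/3) a0 a1 - a1 a4/4 - a2²/3 - (2/3) a2 a3 - (7/6) a2 a4 - a3 a4/12`.
-/

set_option autoImplicit false

namespace Pool.Agent.H9.TN

theorem poly_id (a0 a1 a2 a3 a4 : ℝ) :
    MM2 0 0 1 (a1 + 4 / 3 * a2 + a3 + 2 / 3 * a4) (-(1 / 3) * a1 - 2 / 3 * a2 - 1 / 3 * a3 - 1 / 4 * a4)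
      (1 + a0 + a1 + a2 + a3 + a4) (a1 + 2 * a2 + 3 * a3 + 4 * a4) 0 =
      1 - a0 ^ 2 - 2 / 3 * a2 - 2 * a3 - 10 / 3 * a4 - 2 / 3 * a0 * a1 - a1 * a4 / 4 - a2 ^ 2 / 3 - 2 / 3 * a2 * a3
        - 7 / 6 * a2 * a4 - a3 * a4 / 12 := by
  unfold MM2
  ring

theorem poly_lb (a0 a1 a2 a3 a4 t : ℝ) (h0 : 0 ≤ a0) (h1 : 0 ≤ a1) (h2 : 0 ≤ a2) (h3 : 0 ≤ a3) (h4 : 0 ≤ a4) (ht : 0 ≤ t)
    (b0 : a0 ≤ 603 / 1000) (b1 : a1 ≤ 790 / 1000) (b2 : a2 + 3 * t ≤ 330 / 1000) (b3 : a3 - t + a4 ≤ 10 / 1000) (b4 : t ≤ a3) :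
    2 / 100 ≤ MM2 0 0 1 (a1 + 4 / 3 * a2 + a3 + 2 / 3 * a4) (-(1 / 3) * a1 - 2 / 3 * a2 - 1 / 3 * a3 - 1 / 4 * a4)
      (1 + a0 + a1 + a2 + a3 + a4) (a1 + 2 * a2 + 3 * a3 + 4 * a4) 0 := by
  rw [poly_id]
  obtain ⟨s, hs⟩ : ∃ s, s = a3 - t := ⟨_, rfl⟩
  have e3 : a3 = t + s := by linarith
  have hs0 : 0 ≤ s := by linarith
  have c0 : a0 ^ 2 ≤ (603 / 1000) ^ 2 := pow_le_pow_left₀ h0 b0 2
  have c1 : a0 * a1 ≤ 603 / 1000 * (790 / 1000) := mul_le_mul b0 b1 h1 (by norm_num)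
  have c2 : a1 * a4 ≤ 790 / 1000 * (10 / 1000) := mul_le_mul b1 (by linarith) h4 (by norm_num)
  have c3 : (a2 + 3 * t) ^ 2 ≤ (330 / 1000) ^ 2 := pow_le_pow_left₀ (by linarith) b2 2
  have c4 : a2 ^ 2 / 3 + 2 / 3 * a2 * t ≤ (a2 + 3 * t) ^ 2 / 3 := by nlinarith [mul_nonneg h2 ht, mul_nonneg ht ht]
  have c5 : a2 * s ≤ 330 / 1000 * (10 / 1000) := mul_le_mul (by linarith) (by linarith) hs0 (by norm_num)
  have c6 : a2 * a4 ≤ 330 / 1000 * (10 / 1000) := mul_le_mul (by linarith) (by linarith) h4 (by norm_num)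
  have c7 : a3 * a4 ≤ 120 / 1000 * (10 / 1000) := mul_le_mul (by linarith) (by linarith) h4 (by norm_num)
  have c8 : 2 / 3 * a2 * a3 = 2 / 3 * a2 * t + 2 / 3 * (a2 * s) := by rw [e3]; ring
  rw [c8]
  have c9 : 2 * s + 10 / 3 * a4 + 2 / 3 * (a2 * s) + 7 / 6 * (a2 * a4) ≤ 10 / 3 * (10 / 1000) + 7 / 6 * (330 / 1000 * (10 / 1000)) := by
    have d1 : a2 * (s + a4) ≤ 330 / 1000 * (10 / 1000) := mul_le_mul (by linarith) (by linarith) (by linarith) (by norm_num)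
    have d2 : 0 ≤ a2 * s := mul_nonneg h2 hs0
    nlinarith
  have c10 : 2 * a3 = 2 * t + 2 * s := by rw [e3]; ring
  rw [c10]
  nlinarith

/-- perturbation -/
theorem poly_pert (C0 C1 a0 a1 a2 a3 a4 t gp α ω κ : ℝ) (hC0 : 0 ≤ C0) (hC0' : C0 ≤ 100) (hC1 : 0 ≤ C1) (hC1' : C1 ≤ 100)
    (h0 : 0 ≤ a0) (h1 : 0 ≤ a1) (h2 : 0 ≤ a2) (h3 : 0 ≤ a3) (h4 : 0 ≤ a4) (ht : 0 ≤ t)
    (b0 : a0 ≤ 603 / 1000) (b1 : a1 ≤ 790 / 1000) (b2 : a2 + 3 * t ≤ 330 / 1000) (b3 : a3 - t + a4 ≤ 10 / 1000) (b4 : t ≤ a3)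
    (hgp : |gp - 1| ≤ 1 / 10 ^ 4) (hα : |α - (1 + a0 + a1 + a2 + a3 + a4)| ≤ 2 / 10 ^ 5)
    (hω : |ω - (a1 + 2 * a2 + 3 * a3 + 4 * a4)| ≤ 2 / 10 ^ 5) (hκ0 : 0 ≤ κ) (hκ : κ ≤ 1 / 10 ^ 6) :
    1 / 100 ≤ MM2 C0 C1 gp (a1 + 4 / 3 * a2 + a3 + 2 / 3 * a4) (-(1 / 3) * a1 - 2 / 3 * a2 - 1 / 3 * a3 - 1 / 4 * a4) α ω κ := by
  have hlb := poly_lb a0 a1 a2 a3 a4 t h0 h1 h2 h3 h4 ht b0 b1 b2 b3 b4
  obtain ⟨A, hA⟩ : ∃ A, A = 1 + a0 + a1 + a2 + a3 + a4 := ⟨_, rfl⟩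
  obtain ⟨W, hW⟩ : ∃ W, W = a1 + 2 * a2 + 3 * a3 + 4 * a4 := ⟨_, rfl⟩
  obtain ⟨Y, hY⟩ : ∃ Y, Y = a1 + 4 / 3 * a2 + a3 + 2 / 3 * a4 := ⟨_, rfl⟩
  obtain ⟨Z, hZ⟩ : ∃ Z, Z = -(1 / 3) * a1 - 2 / 3 * a2 - 1 / 3 * a3 - 1 / 4 * a4 := ⟨_, rfl⟩
  rw [← hA, ← hW, ← hY, ← hZ] at hlb
  rw [← hA] at hα
  rw [← hW] at hω
  rw [← hY, ← hZ]
  obtain ⟨p, hp⟩ : ∃ p, p = gp - 1 := ⟨_, rfl⟩
  obtain ⟨s, hs⟩ : ∃ s, s = α - A := ⟨_, rfl⟩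
  obtain ⟨r, hr⟩ : ∃ r, r = ω - W := ⟨_, rfl⟩
  rw [← hp] at hgp
  rw [← hs] at hα
  rw [← hr] at hω
  have e1 : gp = 1 + p := by linarith
  have e2 : α = A + s := by linarith
  have e3 : ω = W + r := by linarith
  have hA1 : 0 ≤ A ∧ A ≤ 3 := by constructor <;> linarith
  have hW1 : 0 ≤ W ∧ W ≤ 2 := by constructor <;> linarith
  have hY1 : 0 ≤ Y ∧ Y ≤ 2 := by constructor <;> linarith
  have hZ1 : -1 ≤ Z ∧ Z ≤ 0 := by constructor <;> linarith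
  have hdiff : MM2 C0 C1 gp Y Z α ω κ - MM2 0 0 1 Y Z A W 0 =
      2 * p * (A + s) - 4 / 3 * p * (W + r) + s * (2 - 2 * A + Y + W / 3 + r / 3) - s ^ 2 + r * (A / 3 - 4 / 3 + Z)
        - C0 * (A + s) * κ - C1 * κ ^ 2 := by
    rw [e1, e2, e3]
    unfold MM2
    ring
  rw [abs_le] at hgp hα hω
  obtain ⟨p1, p2⟩ := hgp
  obtain ⟨s1, s2⟩ := hα
  obtain ⟨r1, r2⟩ := hω
  have bd : ∀ u v δ M : ℝ, -δ ≤ u → u ≤ δ → -M ≤ v → v ≤ M → -(δ * M) ≤ u * v := by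
    intro u v δ M hu1 hu2 hv1 hv2
    have hu : |u| ≤ δ := abs_le.2 ⟨hu1, hu2⟩
    have hv : |v| ≤ M := abs_le.2 ⟨hv1, hv2⟩
    have : |u * v| ≤ δ * M := by
      rw [abs_mul]
      exact mul_le_mul hu hv (abs_nonneg _) ((abs_nonneg _).trans hu)
    exact (abs_le.1 this).1
  have c1 := bd p (A + s) (1 / 10 ^ 4) 4 p1 p2 (by linarith) (by linarith)
  have c2 := bd (-p) (W + r) (1 / 10 ^ 4) 3 (by linarith) (by linarith) (by linarith) (by linarith)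
  have c3 := bd s (2 - 2 * A + Y + W / 3 + r / 3) (2 / 10 ^ 5) 6 (by linarith) s2 (by linarith) (by linarith)
  have c4 := bd r (A / 3 - 4 / 3 + Z) (2 / 10 ^ 5) 4 (by linarith) r2 (by linarith) (by linarith)
  have c5 : s ^ 2 ≤ (2 / 10 ^ 5) ^ 2 := by
    rw [← sq_abs]
    exact pow_le_pow_left₀ (abs_nonneg _) (abs_le.2 ⟨by linarith, s2⟩) 2
  have c6 : C0 * (A + s) * κ ≤ 100 * 4 * (1 / 10 ^ 6) :=
    mul_le_mul (mul_le_mul hC0' (by linarith) (by linarith) (by norm_num)) hκ hκ0 (by norm_num)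
  have c7 : C1 * κ ^ 2 ≤ 100 * (1 / 10 ^ 6) ^ 2 :=
    mul_le_mul hC1' (pow_le_pow_left₀ hκ0 hκ 2) (by positivity) (by norm_num)
  norm_num at c1 c2 c3 c4 c5 c6 c7 ⊢
  linarith

end Pool.Agent.H9.TN

end
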