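import Pool.Agent.H43.PJ.M02
import Pool.Agent.H43.PJ.M04
import Pool.Agent.H43.PJ.M15

/-! The parts of this file: H91.EHA.SwD3, H91.EHA.SwH. -/

section

/-!
# Siegel's theorem

Fix `ε` (small; `ε ≤ 1/100`, and so small that `ζ(s) < 0` on `[1-ε,1)`, possible by the residue at 1).
Let `C` be the constant of `estermann`, `η = ε/(8C)`.
Case A: some real primitive `χ1 ≠ 1` mod `q1` has a real zero `β ∈ [1-η,1)` of `LFunction χ1`.
Case B: none; take any real primitive `χ1 ≠ 1` (e.g. mod 4 or mod 3) and `β = 1-η`.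
Let `χ` be real primitive `≠ 1` mod `q`, `χ ≠ χ1` (different modulus or different character; if it is `χ1` itself
adjust the constant, `LFunction χ1 1 ≠ 0` by Mathlib).  `N = q1 q`, lifts `χ1', χ'` to level `N`
(`DirichletCharacter.changeLevel`), `χ1' χ' ≠ 1` (primitive characters inducing the same character are equal:
compare conductors).  `LFunction_changeLevel`: `L(s,χ1') = L(s,χ1) ∏_{p|N}(1-χ1(p)p^{-s})`.
At `s = β` the value `F(β) ≤ 0`: in case A it is `0`; in case B `L(β,χ0) < 0` (product of `ζ(β)<0` and positive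
factors) and the other three are `≥ 0`: a real `L(s,ψ)` without zeros of its primitive character on `[β,1]`
is positive there (real valued, continuous, positive for `s>1`, nonzero at `1`).
So `λ ≥ c (1-β) N^{-C(1-β)}·... ≥ c' q^{-ε/4}`.  And `λ ≤ L(1,χ)·∏_{p|N}(1+1/p) · |L(1,χ1')||L(1,χ1'χ')|`,
`‖L(1,ψ)‖ ≤ C log N` for `ψ ≠ 1` mod `N` (limit of `Lk_le 0`), `∏_{p|N}(1+1/p) ≤ 1 + log N` type bound (or
`≤ C N^{ε'}`).  Hence `L(1,χ) ≥ c'' q^{-ε}`.
-/

set_option autoImplicit false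

namespace Pool.Agent.H91.EHA

open Finset

private theorem swd3_val {N : ℕ} (ψ : DirichletCharacter ℂ N) (h : ψ ^ 2 = 1) (a : ZMod N) :
    (starRingEnd ℂ) (ψ a) = ψ a := by
  by_cases ha : IsUnit a
  · have h1 : (ψ a) ^ 2 = 1 := by
      have h2 := congrArg (fun f : DirichletCharacter ℂ N => f a) h
      rw [MulChar.pow_apply' _ two_ne_zero, MulChar.one_apply ha] at h2
      exact h2
    have h2 : (ψ a - 1) * (ψ a + 1) = 0 := by
      have : (ψ a - 1) * (ψ a + 1) = ψ a ^ 2 - 1 := by ring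
      rw [this, h1, sub_self]
    rcases mul_eq_zero.mp h2 with h3 | h3
    · rw [sub_eq_zero.mp h3, map_one]
    · rw [eq_neg_of_add_eq_zero_left h3, map_neg, map_one]
  · rw [MulChar.map_nonunit _ ha, map_zero]

private theorem swd3_conj_series {N : ℕ} (ψ : DirichletCharacter ℂ N) (h : ψ ^ 2 = 1) (s : ℂ) :
    (starRingEnd ℂ) (LSeries (fun n => ψ n) ((starRingEnd ℂ) s)) = LSeries (fun n => ψ n) s := by
  unfold LSeries
  rw [Complex.conj_tsum]
  apply tsum_congr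
  intro n
  by_cases hn : n = 0
  · subst hn
    simp [LSeries.term_zero]
  · rw [LSeries.term_of_ne_zero hn, LSeries.term_of_ne_zero hn, map_div₀, swd3_val ψ h]
    congr 1
    have h1 : ((n : ℂ)).arg ≠ Real.pi := by
      rw [Complex.natCast_arg]
      exact Real.pi_pos.ne
    rw [← Complex.conj_cpow _ _ h1, Complex.conj_natCast]

private theorem swd3_conj {N : ℕ} [NeZero N] (ψ : DirichletCharacter ℂ N) (h : ψ ^ 2 = 1)
    (h1 : ψ ≠ 1) (s : ℂ) :
    (starRingEnd ℂ) (DirichletCharacter.LFunction ψ ((starRingEnd ℂ) s)) =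
      DirichletCharacter.LFunction ψ s := by
  have hd : Differentiable ℂ (DirichletCharacter.LFunction ψ) :=
    DirichletCharacter.differentiable_LFunction h1
  have hd2 : Differentiable ℂ
      ((starRingEnd ℂ) ∘ DirichletCharacter.LFunction ψ ∘ (starRingEnd ℂ)) := by
    intro z
    rw [differentiableAt_conj_conj_iff]
    exact hd _
  have hA : AnalyticOnNhd ℂ (DirichletCharacter.LFunction ψ) Set.univ :=
    fun z _ => hd.analyticAt z
  have hB : AnalyticOnNhd ℂ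
      ((starRingEnd ℂ) ∘ DirichletCharacter.LFunction ψ ∘ (starRingEnd ℂ)) Set.univ :=
    fun z _ => hd2.analyticAt z
  have hev : ((starRingEnd ℂ) ∘ DirichletCharacter.LFunction ψ ∘ (starRingEnd ℂ)) =ᶠ[nhds 2]
      DirichletCharacter.LFunction ψ := by
    have hopen : {z : ℂ | 1 < z.re} ∈ nhds (2 : ℂ) := by
      apply (isOpen_lt continuous_const Complex.continuous_re).mem_nhds
      simp
    filter_upwards [hopen] with z hz
    have hz1 : 1 < z.re := hz
    have hz' : 1 < ((starRingEnd ℂ) z).re := by rw [Complex.conj_re]; exact hz1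
    simp only [Function.comp_apply]
    rw [DirichletCharacter.LFunction_eq_LSeries ψ hz', DirichletCharacter.LFunction_eq_LSeries ψ hz1]
    exact swd3_conj_series ψ h z
  have := hB.eq_of_eventuallyEq hA hev
  exact congrFun this s

private theorem swd3_im {N : ℕ} [NeZero N] (ψ : DirichletCharacter ℂ N) (h : ψ ^ 2 = 1)
    (h1 : ψ ≠ 1) (x : ℝ) : (DirichletCharacter.LFunction ψ (x : ℂ)).im = 0 := by
  have h2 := swd3_conj ψ h h1 (x : ℂ)
  rw [Complex.conj_ofReal] at h2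
  have h3 := congrArg Complex.im h2
  rw [Complex.conj_im] at h3
  linarith

private theorem swd3_two {N : ℕ} [NeZero N] (ψ : DirichletCharacter ℂ N) :
    0 < (DirichletCharacter.LFunction ψ 2).re := by
  have hre : 1 < (2 : ℂ).re := by simp
  rw [DirichletCharacter.LFunction_eq_LSeries ψ hre]
  have hsum : HasSum (LSeries.term (fun n => ψ n) 2) (LSeries (fun n => ψ n) 2) :=
    (DirichletCharacter.LSeriesSummable_of_one_lt_re ψ hre).hasSum
  have h1 : HasSum (fun k : ℕ => if k = 1 then (1 : ℂ) else 0) 1 := hasSum_ite_eq 1 1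
  have h2 := hsum.sub h1
  have h3 : HasSum (fun k : ℕ => 1 / (k : ℝ) ^ 2 - if k = 1 then (1 : ℝ) else 0)
      (Real.pi ^ 2 / 6 - 1) := hasSum_zeta_two.sub (hasSum_ite_eq 1 1)
  have h4 : ∀ k : ℕ, ‖LSeries.term (fun n => ψ n) 2 k - (if k = 1 then (1 : ℂ) else 0)‖ ≤
      1 / (k : ℝ) ^ 2 - if k = 1 then (1 : ℝ) else 0 := by
    intro k
    by_cases hk0 : k = 0
    · subst hk0
      simp [LSeries.term_zero]
    · by_cases hk1 : k = 1
      · subst hk1
        rw [LSeries.term_of_ne_zero one_ne_zero]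
        simp
      · rw [if_neg hk1, if_neg hk1, sub_zero, sub_zero, LSeries.term_of_ne_zero hk0, norm_div,
          Complex.norm_natCast_cpow_of_pos (Nat.pos_of_ne_zero hk0)]
        have hk : (0 : ℝ) < (k : ℝ) := by exact_mod_cast Nat.pos_of_ne_zero hk0
        have e : (k : ℝ) ^ ((2 : ℂ).re) = (k : ℝ) ^ 2 := by
          have : ((2 : ℂ).re) = ((2 : ℕ) : ℝ) := by simp
          rw [this, Real.rpow_natCast]
        rw [e]
        exact div_le_div_of_nonneg_right (ψ.norm_le_one _) (by positivity)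
  have h5 := h2.norm_le_of_bounded h3 h4
  have h6 : |(LSeries (fun n => ψ n) 2 - 1).re| ≤ Real.pi ^ 2 / 6 - 1 :=
    (Complex.abs_re_le_norm _).trans h5
  have h7 := (abs_le.mp h6).1
  rw [Complex.sub_re, Complex.one_re] at h7
  have h8 : Real.pi ^ 2 < 12 := by
    have := Real.pi_lt_d2
    have := Real.pi_pos
    nlinarith
  linarith

private theorem swd3_pos {N : ℕ} [NeZero N] (ψ : DirichletCharacter ℂ N) (h : ψ ^ 2 = 1)
    (h1 : ψ ≠ 1) (β : ℝ) (hβ : β < 1)
    (hz : ∀ x : ℝ, β ≤ x → x < 1 → DirichletCharacter.LFunction ψ (x : ℂ) ≠ 0) :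
    0 < (DirichletCharacter.LFunction ψ (β : ℂ)).re := by
  by_contra hcon
  push Not at hcon
  have hcont : Continuous (fun x : ℝ => (DirichletCharacter.LFunction ψ (x : ℂ)).re) :=
    Complex.continuous_re.comp
      ((DirichletCharacter.differentiable_LFunction h1).continuous.comp Complex.continuous_ofReal)
  have h2 : 0 < (DirichletCharacter.LFunction ψ ((2 : ℝ) : ℂ)).re := by
    have := swd3_two ψ
    simpa using this
  have hmem : (0 : ℝ) ∈ Set.Icc ((DirichletCharacter.LFunction ψ (β : ℂ)).re)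
      ((DirichletCharacter.LFunction ψ ((2 : ℝ) : ℂ)).re) := ⟨hcon, h2.le⟩
  obtain ⟨x, hx, hx0⟩ := intermediate_value_Icc (by linarith : β ≤ 2) hcont.continuousOn hmem
  have hx00 : DirichletCharacter.LFunction ψ (x : ℂ) = 0 := by
    apply Complex.ext
    · exact hx0
    · rw [swd3_im ψ h h1]
      simp
  by_cases hx1 : x < 1
  · exact hz x hx.1 hx1 hx00
  · push Not at hx1
    exact DirichletCharacter.LFunction_ne_zero_of_one_le_re ψ (Or.inl h1)
      (by simpa using hx1) hx00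

private theorem swd3_upper : ∃ C : ℝ, 0 < C ∧ ∀ (N : ℕ) [NeZero N] (ψ : DirichletCharacter ℂ N),
    ψ ≠ 1 → ‖DirichletCharacter.LFunction ψ 1‖ ≤ C * Real.log (2 * N) := by
  obtain ⟨C, hC, hL⟩ := Lk_le 0
  refine ⟨C, hC, ?_⟩
  intro N _ ψ hψ
  have hN2 : 2 ≤ N := by
    rcases Nat.lt_or_ge N 2 with h | h
    · exfalso
      have hN0 : N ≠ 0 := NeZero.ne N
      have hN1 : N = 1 := by omega
      exact hψ (DirichletCharacter.level_one' ψ hN1)
    · exact h
  have hcont : Continuous (fun x : ℝ => ‖DirichletCharacter.LFunction ψ (x : ℂ)‖) :=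
    ((DirichletCharacter.differentiable_LFunction hψ).continuous.comp
      Complex.continuous_ofReal).norm
  have ht : Filter.Tendsto (fun x : ℝ => ‖DirichletCharacter.LFunction ψ (x : ℂ)‖)
      (nhdsWithin 1 (Set.Ioi 1)) (nhds ‖DirichletCharacter.LFunction ψ ((1 : ℝ) : ℂ)‖) :=
    (hcont.tendsto 1).mono_left nhdsWithin_le_nhds
  rw [Complex.ofReal_one] at ht
  apply le_of_tendsto ht
  have hev : ∀ᶠ x : ℝ in nhdsWithin 1 (Set.Ioi 1), x < 2 := by
    apply Filter.Eventually.filter_mono nhdsWithin_le_nhds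
    exact (isOpen_Iio (a := (2 : ℝ))).mem_nhds (by norm_num)
  filter_upwards [hev, self_mem_nhdsWithin] with x hx2 hx1
  have hx1' : (1 : ℝ) < x := hx1
  have hre : 1 < ((x : ℝ) : ℂ).re := by simpa using hx1'
  have h1 := hL N hN2 ψ hψ (x : ℂ) hre (by simpa using hx2.le)
  rw [Lk_zero_eq N ψ _ hre] at h1
  simp only [Complex.ofReal_im, abs_zero, zero_add, pow_one] at h1
  rw [mul_comm (2 : ℝ)]
  exact h1

private theorem swd3_prod (N : ℕ) (hN : 1 ≤ N) :
    ∏ p ∈ N.primeFactors, (1 + 1 / (p : ℝ)) ≤ 1 + Real.log N := by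
  rw [Finset.prod_one_add]
  have hprime : ∀ t ∈ N.primeFactors.powerset, ∀ p ∈ t, p.Prime := by
    intro t ht p hp
    exact Nat.prime_of_mem_primeFactors (Finset.mem_powerset.mp ht hp)
  have e1 : ∀ t ∈ N.primeFactors.powerset, ∏ p ∈ t, 1 / (p : ℝ) =
      1 / ((∏ p ∈ t, p : ℕ) : ℝ) := by
    intro t _
    rw [Finset.prod_div_distrib, Finset.prod_const_one, Nat.cast_prod]
  rw [Finset.sum_congr rfl e1]
  have hinj : ∀ t ∈ N.primeFactors.powerset, ∀ t' ∈ N.primeFactors.powerset,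
      (∏ p ∈ t, p : ℕ) = ∏ p ∈ t', p → t = t' := by
    intro t ht t' ht' he
    rw [← Nat.primeFactors_prod (hprime t ht), ← Nat.primeFactors_prod (hprime t' ht'), he]
  have e2 : ∑ t ∈ N.primeFactors.powerset, 1 / ((∏ p ∈ t, p : ℕ) : ℝ) =
      ∑ d ∈ N.primeFactors.powerset.image (fun t => ∏ p ∈ t, p), 1 / (d : ℝ) := by
    rw [Finset.sum_image]
    intro t ht t' ht' he
    exact hinj t ht t' ht' he
  rw [e2]
  have hsub : N.primeFactors.powerset.image (fun t => ∏ p ∈ t, p) ⊆ Finset.Icc 1 N := by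
    intro d hd
    rw [Finset.mem_image] at hd
    obtain ⟨t, ht, rfl⟩ := hd
    rw [Finset.mem_Icc]
    constructor
    · exact Finset.prod_pos fun p hp => (hprime t ht p hp).pos
    · have h1 : (∏ p ∈ t, p) ∣ ∏ p ∈ N.primeFactors, p :=
        Finset.prod_dvd_prod_of_subset _ _ _ (Finset.mem_powerset.mp ht)
      exact Nat.le_of_dvd (by omega) (h1.trans (Nat.prod_primeFactors_dvd N))
  have h2 : ∑ d ∈ N.primeFactors.powerset.image (fun t => ∏ p ∈ t, p), 1 / (d : ℝ) ≤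
      ∑ d ∈ Finset.Icc 1 N, 1 / (d : ℝ) :=
    Finset.sum_le_sum_of_subset_of_nonneg hsub fun _ _ _ => by positivity
  refine h2.trans ?_
  have h3 := harmonic_le_one_add_log N
  rw [harmonic_eq_sum_Icc] at h3
  push_cast at h3
  simpa [one_div] using h3

private theorem swd3_zeta : ∃ η : ℝ, 0 < η ∧ ∀ β : ℝ, 1 - η ≤ β → β < 1 →
    (riemannZeta (β : ℂ)).re < 0 := by
  have h := riemannZeta_residue_one
  have hopen : {z : ℂ | 0 < z.re} ∈ nhds (1 : ℂ) := by
    apply (isOpen_lt continuous_const Complex.continuous_re).mem_nhds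
    simp
  have hev := h.eventually hopen
  rw [eventually_nhdsWithin_iff, Metric.eventually_nhds_iff] at hev
  obtain ⟨δ, hδ, hb⟩ := hev
  refine ⟨δ / 2, by positivity, ?_⟩
  intro β hβ1 hβ2
  have hne : (β : ℂ) ≠ 1 := by
    intro h
    have h2 : ((β : ℝ) : ℂ) = ((1 : ℝ) : ℂ) := by rw [h, Complex.ofReal_one]
    have h3 := Complex.ofReal_injective h2
    linarith
  have hdist : dist (β : ℂ) 1 < δ := by
    rw [Complex.dist_eq, ← Complex.ofReal_one, ← Complex.ofReal_sub, Complex.norm_real,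
      Real.norm_eq_abs, abs_lt]
    constructor <;> linarith
  have h4 := hb hdist hne
  have h5 : (((β : ℂ) - 1) * riemannZeta (β : ℂ)).re = (β - 1) * (riemannZeta (β : ℂ)).re := by
    rw [← Complex.ofReal_one, ← Complex.ofReal_sub, Complex.re_ofReal_mul]
  have h6 : 0 < (β - 1) * (riemannZeta (β : ℂ)).re := by
    rw [← h5]
    exact h4
  by_contra h7
  push Not at h7
  nlinarith

private theorem swd3_factor {N M : ℕ} (χ : DirichletCharacter ℂ M) (p : ℕ)
    (hp : p ∈ N.primeFactors) (β : ℝ) (hβ : 0 < β) :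
    (1 - χ (p : ZMod M) * (p : ℂ) ^ (-(β : ℂ))) ≠ 0 := by
  have hpp := Nat.prime_of_mem_primeFactors hp
  intro h
  have h1 : ‖χ (p : ZMod M) * (p : ℂ) ^ (-(β : ℂ))‖ = 1 := by
    rw [← sub_eq_zero.mp h, norm_one]
  rw [norm_mul, Complex.norm_natCast_cpow_of_pos hpp.pos] at h1
  have h2 : ((-(β : ℂ))).re = -β := by simp
  rw [h2] at h1
  have h3 : (p : ℝ) ^ (-β) < 1 :=
    Real.rpow_lt_one_of_one_lt_of_neg (by exact_mod_cast hpp.one_lt) (by linarith)
  have h4 : ‖χ (p : ZMod M)‖ ≤ 1 := χ.norm_le_one _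
  have h5 : 0 ≤ (p : ℝ) ^ (-β) := by positivity
  nlinarith [norm_nonneg (χ (p : ZMod M))]

/-- the imprimitive characters have no zeros either -/
private theorem swd3_nz (η : ℝ) (hη : η ≤ 1 / 8)
    (hB : ∀ (q : ℕ) [NeZero q] (χ : DirichletCharacter ℂ q), χ.IsPrimitive → χ ^ 2 = 1 → χ ≠ 1 →
      ∀ x : ℝ, 1 - η ≤ x → x < 1 → DirichletCharacter.LFunction χ (x : ℂ) ≠ 0)
    {N : ℕ} [NeZero N] (ψ : DirichletCharacter ℂ N) (h : ψ ^ 2 = 1) (h1 : ψ ≠ 1) (x : ℝ)
    (hx : 1 - η ≤ x) (hx1 : x < 1) : DirichletCharacter.LFunction ψ (x : ℂ) ≠ 0 := by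
  have : NeZero ψ.conductor := ⟨ψ.conductor_ne_zero⟩
  have e : DirichletCharacter.changeLevel ψ.conductor_dvd_level ψ.primitiveCharacter = ψ :=
    ψ.changeLevel_primitiveCharacter
  have hne : ψ.primitiveCharacter ≠ 1 := by
    intro h2
    apply h1
    rw [← e, h2, map_one]
  have hsq : ψ.primitiveCharacter ^ 2 = 1 := by
    apply DirichletCharacter.changeLevel_injective ψ.conductor_dvd_level
    rw [map_pow, e, h, map_one]
  rw [← e, DirichletCharacter.LFunction_changeLevel ψ.conductor_dvd_level _ (Or.inl hne)]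
  apply mul_ne_zero
  · exact hB _ _ ψ.primitiveCharacter_isPrimitive hsq hne x hx hx1
  · rw [Finset.prod_ne_zero_iff]
    intro p hp
    exact swd3_factor _ p hp x (by linarith)

/-- two primitive real characters with trivial product (at a common level) are equal -/
private theorem swd3_eq {q1 q : ℕ} [NeZero q1] [NeZero q] (χ1 : DirichletCharacter ℂ q1)
    (χ : DirichletCharacter ℂ q) (hp1 : χ1.IsPrimitive) (hp : χ.IsPrimitive) (h2 : χ ^ 2 = 1)
    (h : DirichletCharacter.changeLevel (Nat.dvd_mul_right q1 q) χ1 *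
      DirichletCharacter.changeLevel (Nat.dvd_mul_left q q1) χ = 1) :
    ∃ e : q = q1, e ▸ χ = χ1 := by
  have : NeZero (q1 * q) := ⟨Nat.mul_ne_zero (NeZero.ne q1) (NeZero.ne q)⟩
  have h3 : DirichletCharacter.changeLevel (Nat.dvd_mul_left q q1) χ *
      DirichletCharacter.changeLevel (Nat.dvd_mul_left q q1) χ = 1 := by
    rw [← map_mul, ← pow_two, h2, map_one]
  have h4 : DirichletCharacter.changeLevel (Nat.dvd_mul_right q1 q) χ1 =
      DirichletCharacter.changeLevel (Nat.dvd_mul_left q q1) χ := by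
    calc DirichletCharacter.changeLevel (Nat.dvd_mul_right q1 q) χ1
        = DirichletCharacter.changeLevel (Nat.dvd_mul_right q1 q) χ1 *
          (DirichletCharacter.changeLevel (Nat.dvd_mul_left q q1) χ *
            DirichletCharacter.changeLevel (Nat.dvd_mul_left q q1) χ) := by rw [h3, mul_one]
      _ = DirichletCharacter.changeLevel (Nat.dvd_mul_left q q1) χ := by
          rw [← mul_assoc, h, one_mul]
  have h5 : q = q1 := by
    have e1 := DirichletCharacter.conductor_changeLevel χ1 (Nat.dvd_mul_right q1 q)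
    have e2 := DirichletCharacter.conductor_changeLevel χ (Nat.dvd_mul_left q q1)
    rw [h4, e2] at e1
    rw [DirichletCharacter.isPrimitive_def] at hp1 hp
    rw [hp1, hp] at e1
    exact e1
  subst h5
  refine ⟨rfl, ?_⟩
  exact (DirichletCharacter.changeLevel_injective (Nat.dvd_mul_right q q) h4).symm

private theorem swd3_triv {N : ℕ} [NeZero N] (β : ℝ) (hβ : 0 < β) (hβ1 : β < 1)
    (hζ : (riemannZeta (β : ℂ)).re < 0) :
    (DirichletCharacter.LFunction (1 : DirichletCharacter ℂ N) (β : ℂ)).re ≤ 0 := by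
  have hne : (β : ℂ) ≠ 1 := by
    intro h
    have h2 : ((β : ℝ) : ℂ) = ((1 : ℝ) : ℂ) := by rw [h, Complex.ofReal_one]
    have h3 := Complex.ofReal_injective h2
    linarith
  have h1 := DirichletCharacter.LFunctionTrivChar_eq_mul_riemannZeta (N := N) hne
  have h2 : (∏ p ∈ N.primeFactors, (1 - (p : ℂ) ^ (-(β : ℂ)))) =
      ((∏ p ∈ N.primeFactors, (1 - (p : ℝ) ^ (-β)) : ℝ) : ℂ) := by
    rw [Complex.ofReal_prod]
    apply Finset.prod_congr rfl
    intro p _
    rw [Complex.ofReal_sub, Complex.ofReal_one, Complex.ofReal_cpow (Nat.cast_nonneg p),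
      Complex.ofReal_neg, Complex.ofReal_natCast]
  have h3 : 0 ≤ ∏ p ∈ N.primeFactors, (1 - (p : ℝ) ^ (-β)) := by
    apply Finset.prod_nonneg
    intro p hp
    have hpp := Nat.prime_of_mem_primeFactors hp
    have h3 : (p : ℝ) ^ (-β) < 1 :=
      Real.rpow_lt_one_of_one_lt_of_neg (by exact_mod_cast hpp.one_lt) (by linarith)
    linarith
  rw [h2] at h1
  have h4 : (DirichletCharacter.LFunction (1 : DirichletCharacter ℂ N) (β : ℂ)).re =
      (∏ p ∈ N.primeFactors, (1 - (p : ℝ) ^ (-β))) * (riemannZeta (β : ℂ)).re := by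
    rw [← Complex.re_ofReal_mul, ← h1]
  rw [h4]
  exact mul_nonpos_of_nonneg_of_nonpos h3 hζ.le

private theorem swd3_caseB (η : ℝ) (hη : η ≤ 1 / 8)
    (hB : ∀ (q : ℕ) [NeZero q] (χ : DirichletCharacter ℂ q), χ.IsPrimitive → χ ^ 2 = 1 → χ ≠ 1 →
      ∀ x : ℝ, 1 - η ≤ x → x < 1 → DirichletCharacter.LFunction χ (x : ℂ) ≠ 0)
    {N : ℕ} [NeZero N] (ψ1 ψ2 : DirichletCharacter ℂ N) (h1 : ψ1 ^ 2 = 1) (h2 : ψ2 ^ 2 = 1)
    (n1 : ψ1 ≠ 1) (n2 : ψ2 ≠ 1) (n3 : ψ1 * ψ2 ≠ 1) (β : ℝ) (hβ : 1 - η ≤ β) (hβ1 : β < 1)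
    (hζ : (riemannZeta (β : ℂ)).re < 0) :
    (DirichletCharacter.LFunction (1 : DirichletCharacter ℂ N) β *
          DirichletCharacter.LFunction ψ1 β * DirichletCharacter.LFunction ψ2 β *
          DirichletCharacter.LFunction (ψ1 * ψ2) β).re ≤ 0 := by
  have h3 : (ψ1 * ψ2) ^ 2 = 1 := by rw [mul_pow, h1, h2, mul_one]
  have key : ∀ ψ : DirichletCharacter ℂ N, ψ ^ 2 = 1 → ψ ≠ 1 →
      ∃ r : ℝ, 0 ≤ r ∧ DirichletCharacter.LFunction ψ (β : ℂ) = (r : ℂ) := by
    intro ψ h n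
    refine ⟨(DirichletCharacter.LFunction ψ (β : ℂ)).re, ?_, ?_⟩
    · apply le_of_lt
      apply swd3_pos ψ h n β hβ1
      intro x hx hx1
      exact swd3_nz η hη hB ψ h n x (by linarith) hx1
    · apply Complex.ext
      · simp
      · rw [swd3_im ψ h n]
        simp
  obtain ⟨r1, hr1, e1⟩ := key ψ1 h1 n1
  obtain ⟨r2, hr2, e2⟩ := key ψ2 h2 n2
  obtain ⟨r3, hr3, e3⟩ := key (ψ1 * ψ2) h3 n3
  rw [e1, e2, e3]
  have h4 := swd3_triv (N := N) β (by linarith) hβ1 hζ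
  have h5 : (DirichletCharacter.LFunction (1 : DirichletCharacter ℂ N) (β : ℂ) * (r1 : ℂ) *
      (r2 : ℂ) * (r3 : ℂ)).re =
      (DirichletCharacter.LFunction (1 : DirichletCharacter ℂ N) (β : ℂ)).re * (r1 * r2 * r3) := by
    have : DirichletCharacter.LFunction (1 : DirichletCharacter ℂ N) (β : ℂ) * (r1 : ℂ) *
      (r2 : ℂ) * (r3 : ℂ) = ((r1 * r2 * r3 : ℝ) : ℂ) *
      DirichletCharacter.LFunction (1 : DirichletCharacter ℂ N) (β : ℂ) := by
      push_cast
      ring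
    rw [this, Complex.re_ofReal_mul]
    ring
  rw [h5]
  exact mul_nonpos_of_nonpos_of_nonneg h4 (by positivity)

private theorem swd3_level {q N : ℕ} [NeZero q] [NeZero N] (hd : q ∣ N)
    (χ : DirichletCharacter ℂ q) (n : χ ≠ 1) :
    ‖DirichletCharacter.LFunction (DirichletCharacter.changeLevel hd χ) 1‖ ≤
      ‖DirichletCharacter.LFunction χ 1‖ * (1 + Real.log N) := by
  rw [DirichletCharacter.LFunction_changeLevel hd _ (Or.inl n), norm_mul]
  apply mul_le_mul_of_nonneg_left _ (norm_nonneg _)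
  refine le_trans ?_ (swd3_prod N (Nat.one_le_iff_ne_zero.mpr (NeZero.ne N)))
  rw [norm_prod]
  apply Finset.prod_le_prod
  · intro p _
    exact norm_nonneg _
  · intro p hp
    have hpp := Nat.prime_of_mem_primeFactors hp
    refine (norm_sub_le _ _).trans ?_
    rw [norm_one, norm_mul, Complex.norm_natCast_cpow_of_pos hpp.pos]
    have h2 : ((-(1 : ℂ))).re = -1 := by simp
    rw [h2, Real.rpow_neg_one, one_div]
    have h4 : ‖χ (p : ZMod q)‖ ≤ 1 := χ.norm_le_one _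
    have h5 : 0 ≤ ((p : ℝ))⁻¹ := by positivity
    have h6 := mul_le_mul_of_nonneg_right h4 h5
    linarith

private theorem swd3_core (C C2 : ℝ) (hC : 1 ≤ C) (hC2 : 0 < C2)
    (hE : ∀ (N : ℕ) [NeZero N] (χ1 χ2 : DirichletCharacter ℂ N),
    χ1 ^ 2 = 1 → χ2 ^ 2 = 1 → χ1 ≠ 1 → χ2 ≠ 1 → χ1 * χ2 ≠ 1 → ∀ s : ℝ, 7 / 8 < s → s < 1 →
    1 / 2 - C * (N : ℝ) ^ (C * (1 - s)) / (1 - s) * (((N.totient : ℝ) / N) *
        (DirichletCharacter.LFunction χ1 1 * DirichletCharacter.LFunction χ2 1 *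
          DirichletCharacter.LFunction (χ1 * χ2) 1).re)
      ≤ (DirichletCharacter.LFunction (1 : DirichletCharacter ℂ N) s *
          DirichletCharacter.LFunction χ1 s * DirichletCharacter.LFunction χ2 s *
          DirichletCharacter.LFunction (χ1 * χ2) s).re)
    (hU : ∀ (N : ℕ) [NeZero N] (ψ : DirichletCharacter ℂ N),
      ψ ≠ 1 → ‖DirichletCharacter.LFunction ψ 1‖ ≤ C2 * Real.log (2 * N))
    (ε : ℝ) (hε : 0 < ε) (hε1 : ε ≤ 1) (β : ℝ) (hβ : 7 / 8 < β) (hβ1 : β < 1)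
    (hβε : C * (1 - β) ≤ ε / 8) (q1 : ℕ) [NeZero q1] (χ1 : DirichletCharacter ℂ q1)
    (h1 : χ1 ^ 2 = 1) (n1 : χ1 ≠ 1) :
    ∃ c : ℝ, 0 < c ∧ ∀ (q N : ℕ) [NeZero q] [NeZero N] (_hN : N = q1 * q) (hd1 : q1 ∣ N)
      (hd : q ∣ N) (χ : DirichletCharacter ℂ q),
      χ ^ 2 = 1 → χ ≠ 1 →
      DirichletCharacter.changeLevel hd1 χ1 * DirichletCharacter.changeLevel hd χ ≠ 1 →
      (DirichletCharacter.LFunction (1 : DirichletCharacter ℂ N) β *
          DirichletCharacter.LFunction (DirichletCharacter.changeLevel hd1 χ1) β *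
          DirichletCharacter.LFunction (DirichletCharacter.changeLevel hd χ) β *
          DirichletCharacter.LFunction (DirichletCharacter.changeLevel hd1 χ1 *
            DirichletCharacter.changeLevel hd χ) β).re ≤ 0 →
      c * (q : ℝ) ^ (-ε) ≤ ‖DirichletCharacter.LFunction χ 1‖ := by
  set δ : ℝ := ε / 24 with hδ
  have hδ0 : 0 < δ := by positivity
  set K : ℝ := C * (C2 * (2 / δ)) ^ 2 * (1 + 1 / δ) with hK
  have hC0 : 0 < C := by linarith
  have hK0 : 0 < K := by positivity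
  have hq1 : (0 : ℝ) < q1 := by
    have : 0 < q1 := Nat.pos_of_ne_zero (NeZero.ne q1)
    exact_mod_cast this
  have ha : 0 < 1 - β := by linarith
  refine ⟨(1 - β) / (2 * K * (q1 : ℝ) ^ ε), by positivity, ?_⟩
  intro q N _ _ hN hd1 hd χ h2 n2 n3 hF
  have hq : (0 : ℝ) < q := by
    have : 0 < q := Nat.pos_of_ne_zero (NeZero.ne q)
    exact_mod_cast this
  set ψ1 := DirichletCharacter.changeLevel hd1 χ1 with hψ1
  set ψ2 := DirichletCharacter.changeLevel hd χ with hψ2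
  have m1 : ψ1 ≠ 1 := fun h => n1 ((DirichletCharacter.changeLevel_eq_one_iff _).mp h)
  have m2 : ψ2 ≠ 1 := fun h => n2 ((DirichletCharacter.changeLevel_eq_one_iff _).mp h)
  have s1 : ψ1 ^ 2 = 1 := by rw [hψ1, ← map_pow, h1, map_one]
  have s2 : ψ2 ^ 2 = 1 := by rw [hψ2, ← map_pow, h2, map_one]
  have hest := hE N ψ1 ψ2 s1 s2 m1 m2 n3 β hβ hβ1
  set X := ‖DirichletCharacter.LFunction χ 1‖ with hX
  have hX0 : 0 ≤ X := norm_nonneg _
  have hNR : (0 : ℝ) < N := by rw [hN]; push_cast; positivity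
  have hN1 : (1 : ℝ) ≤ N := by
    have : 1 ≤ N := Nat.one_le_iff_ne_zero.mpr (NeZero.ne N)
    exact_mod_cast this
  set lam : ℝ := ((N.totient : ℝ) / N) *
        (DirichletCharacter.LFunction ψ1 1 * DirichletCharacter.LFunction ψ2 1 *
          DirichletCharacter.LFunction (ψ1 * ψ2) 1).re with hlam
  have hlog2 : Real.log (2 * N) ≤ (2 / δ) * (N : ℝ) ^ δ := by
    have e1 := Real.log_le_rpow_div (x := 2 * (N : ℝ)) (by positivity) hδ0
    have e2 : (2 * (N : ℝ)) ^ δ = 2 ^ δ * (N : ℝ) ^ δ :=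
      Real.mul_rpow (by norm_num) hNR.le
    have e3 : (2 : ℝ) ^ δ ≤ 2 := by
      calc (2 : ℝ) ^ δ ≤ 2 ^ (1 : ℝ) :=
            Real.rpow_le_rpow_of_exponent_le (by norm_num) (by rw [hδ]; linarith)
        _ = 2 := Real.rpow_one 2
    refine e1.trans ?_
    rw [e2, div_mul_eq_mul_div]
    apply div_le_div_of_nonneg_right _ hδ0.le
    exact mul_le_mul_of_nonneg_right e3 (by positivity)
  have hlog1 : 1 + Real.log N ≤ (1 + 1 / δ) * (N : ℝ) ^ δ := by
    have e1 := Real.log_le_rpow_div (x := (N : ℝ)) hNR.le hδ0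
    have e2 : (1 : ℝ) ≤ (N : ℝ) ^ δ := Real.one_le_rpow hN1 hδ0.le
    have e3 : (1 + 1 / δ) * (N : ℝ) ^ δ = (N : ℝ) ^ δ + (N : ℝ) ^ δ / δ := by ring
    rw [e3]
    linarith
  have hlam1 : lam ≤ (C2 * ((2 / δ) * (N : ℝ) ^ δ)) * (X * ((1 + 1 / δ) * (N : ℝ) ^ δ)) *
      (C2 * ((2 / δ) * (N : ℝ) ^ δ)) := by
    have u1 : ‖DirichletCharacter.LFunction ψ1 1‖ ≤ C2 * ((2 / δ) * (N : ℝ) ^ δ) :=
      (hU N ψ1 m1).trans (mul_le_mul_of_nonneg_left hlog2 hC2.le)
    have u3 : ‖DirichletCharacter.LFunction (ψ1 * ψ2) 1‖ ≤ C2 * ((2 / δ) * (N : ℝ) ^ δ) :=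
      (hU N _ n3).trans (mul_le_mul_of_nonneg_left hlog2 hC2.le)
    have u2 : ‖DirichletCharacter.LFunction ψ2 1‖ ≤ X * ((1 + 1 / δ) * (N : ℝ) ^ δ) :=
      (swd3_level hd χ n2).trans (mul_le_mul_of_nonneg_left hlog1 hX0)
    have hφ0 : 0 ≤ (N.totient : ℝ) / N := by positivity
    have hφ1 : (N.totient : ℝ) / N ≤ 1 := by
      rw [div_le_one hNR]
      exact_mod_cast Nat.totient_le N
    have hnorm : (DirichletCharacter.LFunction ψ1 1 * DirichletCharacter.LFunction ψ2 1 *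
          DirichletCharacter.LFunction (ψ1 * ψ2) 1).re ≤
        ‖DirichletCharacter.LFunction ψ1 1‖ * ‖DirichletCharacter.LFunction ψ2 1‖ *
          ‖DirichletCharacter.LFunction (ψ1 * ψ2) 1‖ := by
      refine (Complex.re_le_norm _).trans (le_of_eq ?_)
      rw [norm_mul, norm_mul]
    calc lam ≤ ((N.totient : ℝ) / N) * (‖DirichletCharacter.LFunction ψ1 1‖ *
          ‖DirichletCharacter.LFunction ψ2 1‖ * ‖DirichletCharacter.LFunction (ψ1 * ψ2) 1‖) :=
          mul_le_mul_of_nonneg_left hnorm hφ0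
      _ ≤ 1 * (‖DirichletCharacter.LFunction ψ1 1‖ *
          ‖DirichletCharacter.LFunction ψ2 1‖ * ‖DirichletCharacter.LFunction (ψ1 * ψ2) 1‖) :=
          mul_le_mul_of_nonneg_right hφ1 (by positivity)
      _ = ‖DirichletCharacter.LFunction ψ1 1‖ *
          ‖DirichletCharacter.LFunction ψ2 1‖ * ‖DirichletCharacter.LFunction (ψ1 * ψ2) 1‖ :=
          one_mul _
      _ ≤ _ := by
          apply mul_le_mul _ u3 (norm_nonneg _) (by positivity)
          exact mul_le_mul u1 u2 (norm_nonneg _) (by positivity)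
  have hNε : C * (N : ℝ) ^ (C * (1 - β)) ≤ C * (N : ℝ) ^ (ε / 8) :=
    mul_le_mul_of_nonneg_left (Real.rpow_le_rpow_of_exponent_le hN1 hβε) hC0.le
  have hmain : (1 - β) / 2 ≤ C * (N : ℝ) ^ (C * (1 - β)) * lam := by
    have e1 : 1 / 2 ≤ C * (N : ℝ) ^ (C * (1 - β)) / (1 - β) * lam := by linarith
    have e2 := mul_le_mul_of_nonneg_left e1 ha.le
    have e3 : (1 - β) * (C * (N : ℝ) ^ (C * (1 - β)) / (1 - β) * lam) =
        C * (N : ℝ) ^ (C * (1 - β)) * lam := by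
      field_simp
    rw [e3] at e2
    linarith
  have hlam0 : 0 ≤ lam := by
    by_contra hneg
    push Not at hneg
    have : C * (N : ℝ) ^ (C * (1 - β)) * lam < 0 := mul_neg_of_pos_of_neg (by positivity) hneg
    linarith
  have hfin : (1 - β) / 2 ≤ K * (N : ℝ) ^ (ε / 4) * X := by
    calc (1 - β) / 2 ≤ C * (N : ℝ) ^ (C * (1 - β)) * lam := hmain
      _ ≤ C * (N : ℝ) ^ (ε / 8) * lam := mul_le_mul_of_nonneg_right hNε hlam0
      _ ≤ C * (N : ℝ) ^ (ε / 8) * ((C2 * ((2 / δ) * (N : ℝ) ^ δ)) *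
          (X * ((1 + 1 / δ) * (N : ℝ) ^ δ)) * (C2 * ((2 / δ) * (N : ℝ) ^ δ))) :=
          mul_le_mul_of_nonneg_left hlam1 (by positivity)
      _ = K * ((N : ℝ) ^ (ε / 8) * (N : ℝ) ^ δ * (N : ℝ) ^ δ * (N : ℝ) ^ δ) * X := by
          rw [hK]
          ring
      _ = K * (N : ℝ) ^ (ε / 4) * X := by
          rw [← Real.rpow_add hNR, ← Real.rpow_add hNR, ← Real.rpow_add hNR]
          congr 3
          rw [hδ]
          ring
  have hNe : (N : ℝ) ^ (ε / 4) ≤ (q1 : ℝ) ^ ε * (q : ℝ) ^ ε := by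
    calc (N : ℝ) ^ (ε / 4) ≤ (N : ℝ) ^ ε :=
          Real.rpow_le_rpow_of_exponent_le hN1 (by linarith)
      _ = (q1 : ℝ) ^ ε * (q : ℝ) ^ ε := by
          rw [hN]
          push_cast
          exact Real.mul_rpow hq1.le hq.le
  have hfin2 : (1 - β) / 2 ≤ K * ((q1 : ℝ) ^ ε * (q : ℝ) ^ ε) * X :=
    hfin.trans (mul_le_mul_of_nonneg_right (mul_le_mul_of_nonneg_left hNe hK0.le) hX0)
  have hqe : 0 < (q : ℝ) ^ ε := by positivity
  have hq1e : 0 < (q1 : ℝ) ^ ε := by positivity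
  rw [Real.rpow_neg hq.le, div_mul_eq_mul_div, div_le_iff₀ (by positivity)]
  rw [mul_inv_le_iff₀ hqe]
  have e9 : X * (2 * K * (q1 : ℝ) ^ ε) * (q : ℝ) ^ ε =
      2 * (K * ((q1 : ℝ) ^ ε * (q : ℝ) ^ ε) * X) := by ring
  rw [e9]
  linarith

theorem siegel (ε : ℝ) (hε : 0 < ε) : ∃ c : ℝ, 0 < c ∧ ∀ (q : ℕ) [NeZero q]
    (χ : DirichletCharacter ℂ q), χ.IsPrimitive → χ ^ 2 = 1 → χ ≠ 1 →
      c * (q : ℝ) ^ (-ε) ≤ ‖DirichletCharacter.LFunction χ 1‖ := by
  -- reduce to ε ≤ 1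
  suffices hmain : ∀ ε : ℝ, 0 < ε → ε ≤ 1 → ∃ c : ℝ, 0 < c ∧ ∀ (q : ℕ) [NeZero q]
      (χ : DirichletCharacter ℂ q), χ.IsPrimitive → χ ^ 2 = 1 → χ ≠ 1 →
        c * (q : ℝ) ^ (-ε) ≤ ‖DirichletCharacter.LFunction χ 1‖ by
    rcases le_total ε 1 with h | h
    · exact hmain ε hε h
    · obtain ⟨c, hc, hb⟩ := hmain 1 one_pos le_rfl
      refine ⟨c, hc, ?_⟩
      intro q _ χ h1 h2 h3
      refine le_trans ?_ (hb q χ h1 h2 h3)
      apply mul_le_mul_of_nonneg_left _ hc.le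
      apply Real.rpow_le_rpow_of_exponent_le _ (by linarith)
      have : 1 ≤ q := Nat.one_le_iff_ne_zero.mpr (NeZero.ne q)
      exact_mod_cast this
  intro ε hε hε1
  obtain ⟨C, hC, hE⟩ := estermann
  obtain ⟨C2, hC2, hU⟩ := swd3_upper
  obtain ⟨η0, hη0, hζ⟩ := swd3_zeta
  have hC0 : 0 < C := by linarith
  set η : ℝ := min (min η0 (1 / 16)) (ε / (8 * C)) with hη
  have hηpos : 0 < η := by
    rw [hη]
    exact lt_min (lt_min hη0 (by norm_num)) (by positivity)
  have hη1 : η ≤ η0 := (min_le_left _ _).trans (min_le_left _ _)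
  have hη2 : η ≤ 1 / 16 := (min_le_left _ _).trans (min_le_right _ _)
  have hη3 : C * η ≤ ε / 8 := by
    have h1 : η ≤ ε / (8 * C) := min_le_right _ _
    have h2 := mul_le_mul_of_nonneg_left h1 hC0.le
    have h3 : C * (ε / (8 * C)) = ε / 8 := by
      field_simp
    rw [h3] at h2
    exact h2
  by_cases hex : ∃ (q1 : ℕ) (_ : NeZero q1) (χ1 : DirichletCharacter ℂ q1),
      χ1.IsPrimitive ∧ χ1 ^ 2 = 1 ∧ χ1 ≠ 1
  swap
  · refine ⟨1, one_pos, ?_⟩
    intro q _ χ h1 h2 h3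
    exact absurd ⟨q, inferInstance, χ, h1, h2, h3⟩ hex
  -- the fixed character and the point β
  have hfix : ∃ (q1 : ℕ) (_ : NeZero q1) (χ1 : DirichletCharacter ℂ q1) (β : ℝ),
      χ1.IsPrimitive ∧ χ1 ^ 2 = 1 ∧ χ1 ≠ 1 ∧ 1 - η ≤ β ∧ β < 1 ∧
      ∀ (q : ℕ) [NeZero q] [NeZero (q1 * q)] (χ : DirichletCharacter ℂ q),
      χ ^ 2 = 1 → χ ≠ 1 →
      DirichletCharacter.changeLevel (Nat.dvd_mul_right q1 q) χ1 *
        DirichletCharacter.changeLevel (Nat.dvd_mul_left q q1) χ ≠ 1 →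
      (DirichletCharacter.LFunction (1 : DirichletCharacter ℂ (q1 * q)) β *
          DirichletCharacter.LFunction (DirichletCharacter.changeLevel
            (Nat.dvd_mul_right q1 q) χ1) β *
          DirichletCharacter.LFunction (DirichletCharacter.changeLevel
            (Nat.dvd_mul_left q q1) χ) β *
          DirichletCharacter.LFunction (DirichletCharacter.changeLevel (Nat.dvd_mul_right q1 q) χ1 *
            DirichletCharacter.changeLevel (Nat.dvd_mul_left q q1) χ) β).re ≤ 0 := by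
    by_cases hA : ∃ (q1 : ℕ) (_ : NeZero q1) (χ1 : DirichletCharacter ℂ q1) (β : ℝ),
        χ1.IsPrimitive ∧ χ1 ^ 2 = 1 ∧ χ1 ≠ 1 ∧ 1 - η ≤ β ∧ β < 1 ∧
        DirichletCharacter.LFunction χ1 (β : ℂ) = 0
    · obtain ⟨q1, hq1, χ1, β, a1, a2, a3, a4, a5, a6⟩ := hA
      refine ⟨q1, hq1, χ1, β, a1, a2, a3, a4, a5, ?_⟩
      intro q _ _ χ h2 n2 n3
      rw [DirichletCharacter.LFunction_changeLevel (Nat.dvd_mul_right q1 q) χ1 (Or.inl a3), a6]
      simp
    · have hB : ∀ (q : ℕ) [NeZero q] (χ : DirichletCharacter ℂ q), χ.IsPrimitive → χ ^ 2 = 1 →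
          χ ≠ 1 → ∀ x : ℝ, 1 - η ≤ x → x < 1 →
          DirichletCharacter.LFunction χ (x : ℂ) ≠ 0 := by
        intro q _ χ h1 h2 h3 x hx hx1 h0
        exact hA ⟨q, inferInstance, χ, x, h1, h2, h3, hx, hx1, h0⟩
      obtain ⟨q1, hq1, χ1, a1, a2, a3⟩ := hex
      refine ⟨q1, hq1, χ1, 1 - η, a1, a2, a3, le_rfl, by linarith, ?_⟩
      intro q _ _ χ h2 n2 n3
      apply swd3_caseB η (by linarith) hB
      · rw [← map_pow, a2, map_one]
      · rw [← map_pow, h2, map_one]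
      · exact fun h => a3 ((DirichletCharacter.changeLevel_eq_one_iff _).mp h)
      · exact fun h => n2 ((DirichletCharacter.changeLevel_eq_one_iff _).mp h)
      · exact n3
      · exact le_rfl
      · linarith
      · exact hζ _ (by linarith) (by linarith)
  obtain ⟨q1, hq1, χ1, β, a1, a2, a3, a4, a5, a6⟩ := hfix
  have hβε : C * (1 - β) ≤ ε / 8 := by
    refine le_trans ?_ hη3
    exact mul_le_mul_of_nonneg_left (by linarith) hC0.le
  obtain ⟨c, hc, hb⟩ := swd3_core C C2 hC hC2 hE hU ε hε hε1 β (by linarith) a5 hβε q1 χ1 a2 a3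
  have hL1 : 0 < ‖DirichletCharacter.LFunction χ1 1‖ :=
    norm_pos_iff.mpr (DirichletCharacter.LFunction_apply_one_ne_zero a3)
  refine ⟨min c ‖DirichletCharacter.LFunction χ1 1‖, lt_min hc hL1, ?_⟩
  intro q _ χ h1 h2 h3
  have hqpos : 0 < (q : ℝ) ^ (-ε) := by
    have : 0 < q := Nat.pos_of_ne_zero (NeZero.ne q)
    have : (0 : ℝ) < q := by exact_mod_cast this
    positivity
  have : NeZero (q1 * q) := ⟨Nat.mul_ne_zero (NeZero.ne q1) (NeZero.ne q)⟩
  by_cases hprod : DirichletCharacter.changeLevel (Nat.dvd_mul_right q1 q) χ1 *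
        DirichletCharacter.changeLevel (Nat.dvd_mul_left q q1) χ = 1
  · obtain ⟨e, he⟩ := swd3_eq χ1 χ a1 h1 h2 hprod
    subst e
    simp only [] at he
    subst he
    have hq1' : (q : ℝ) ^ (-ε) ≤ 1 := by
      apply Real.rpow_le_one_of_one_le_of_nonpos
      · have : 1 ≤ q := Nat.one_le_iff_ne_zero.mpr (NeZero.ne q)
        exact_mod_cast this
      · linarith
    calc min c ‖DirichletCharacter.LFunction χ 1‖ * (q : ℝ) ^ (-ε)
        ≤ ‖DirichletCharacter.LFunction χ 1‖ * (q : ℝ) ^ (-ε) :=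
          mul_le_mul_of_nonneg_right (min_le_right _ _) hqpos.le
      _ ≤ ‖DirichletCharacter.LFunction χ 1‖ * 1 :=
          mul_le_mul_of_nonneg_left hq1' (norm_nonneg _)
      _ = _ := mul_one _
  · refine le_trans ?_ (hb q (q1 * q) rfl _ _ χ h2 h3 hprod (a6 q χ h2 h3 hprod))
    exact mul_le_mul_of_nonneg_right (min_le_left _ _) hqpos.le

end Pool.Agent.H91.EHA

end

section

/-!
# From smooth sums to sharp cut-offs

`om(t) = t(1-t)²` on `[0,1]`.  Choose `ρ : ℝ → ℝ`, `ρ = 3` on `(0,1]`, `ρ(u) = P(u)` on `(1,1+δ]`, `0` beyond, where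
`P` is a combination of (for instance) three step functions on thirds of `(1,1+δ]` (or a polynomial) with
`∫ P u^{-2} = 3`, `∫ P u^{-3} = 3/2`, `∫ P u^{-4} = 1`, `|P| ≤ C₀ δ^{-3}`.  Then
`w(t) := ∫_0^∞ om(t/u) ρ(u) du/u` satisfies `w(t) = 1` for `0 < t ≤ 1`, `w(t) = 0` for `t ≥ 1+δ`,
`|w| ≤ C₀` (for `t ≤ 1`: `3∫_t^1 (1-v)² dv = (1-t)³`, and the moments give `3t - 3t² + t³`).
Linear system: with `u = 1 + δ z` the three conditions are a `3×3` system whose determinant is `≍ δ³` (Vandermonde).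
(If you prefer: any other explicit `w`.)
Then `∑_{n ≤ y} a_n = ∑_n a_n w(n/y) - ∑_{y < n ≤ (1+δ)y} a_n w(n/y)`, and
`∑ a_n w(n/y) = ∫ ρ(u) S(uy) du/u`, `S(v) = ∑_{n ≤ v} a_n om(n/v)` for real `v`, `S(v) = 0` for `v < 1`,
`‖S(v) - S(⌊v⌋)‖ ≤ (1/⌊v⌋) ∑_{n ≤ v} ‖a_n‖ ≤ 2 H (1 + P/v)` by `om_lip`.
-/

set_option autoImplicit false

namespace Pool.Agent.H91.EHA

open Finset
open Pool.Agent.H91.PK

/-- The average over `K` consecutive values. -/
noncomputable def swhA (K : ℕ) (f : ℕ → ℝ) (N : ℕ) : ℝ := (∑ i ∈ range K, f (N + i)) / K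

theorem swhA_diff (K : ℕ) (f : ℕ → ℝ) (N : ℕ) :
    swhA K f (N + 1) - swhA K f N = (f (N + K) - f N) / K := by
  unfold swhA
  rw [← sub_div]
  congr 1
  have h1 := Finset.sum_range_succ (fun i => f (N + i)) K
  have h2 := Finset.sum_range_succ' (fun i => f (N + i)) K
  rw [h1] at h2
  have h3 : ∑ i ∈ range K, f (N + 1 + i) = ∑ i ∈ range K, f (N + (i + 1)) := by
    refine Finset.sum_congr rfl fun i _ => ?_
    congr 1
    ring
  rw [h3]
  simp only [add_zero] at h2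
  linarith

theorem swhA_nonneg (K : ℕ) (f : ℕ → ℝ) (hf : ∀ N, 0 ≤ f N) (N : ℕ) : 0 ≤ swhA K f N := by
  unfold swhA
  exact div_nonneg (Finset.sum_nonneg fun i _ => hf _) (Nat.cast_nonneg _)

theorem swhA_le_one (K : ℕ) (hK : 0 < K) (f : ℕ → ℝ) (hf : ∀ N, f N ≤ 1) (N : ℕ) :
    swhA K f N ≤ 1 := by
  unfold swhA
  rw [div_le_one (Nat.cast_pos.2 hK)]
  calc ∑ i ∈ range K, f (N + i) ≤ ∑ _i ∈ range K, (1 : ℝ) := Finset.sum_le_sum fun i _ => hf _
    _ = K := by simp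

theorem swhA_eq_one (K : ℕ) (hK : 0 < K) (f : ℕ → ℝ) (T : ℕ) (hf : ∀ N, N ≤ T → f N = 1) (N : ℕ)
    (hN : N + K ≤ T) : swhA K f N = 1 := by
  unfold swhA
  rw [Finset.sum_congr rfl (fun i hi => hf (N + i) (by
    have := Finset.mem_range.1 hi
    omega))]
  simp only [Finset.sum_const, Finset.card_range, nsmul_eq_mul, mul_one]
  exact div_self (Nat.cast_pos.2 hK).ne'

theorem swhA_eq_zero (K : ℕ) (f : ℕ → ℝ) (T : ℕ) (hf : ∀ N, T < N → f N = 0) (N : ℕ)
    (hN : T < N) : swhA K f N = 0 := by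
  unfold swhA
  rw [Finset.sum_eq_zero (fun i _ => hf (N + i) (by omega)), zero_div]

/-- The sharp cut-off. -/
noncomputable def swhC (M N : ℕ) : ℝ := if N ≤ M then 1 else 0

theorem swhC_nonneg (M N : ℕ) : 0 ≤ swhC M N := by
  unfold swhC
  split_ifs <;> norm_num

theorem swhC_le_one (M N : ℕ) : swhC M N ≤ 1 := by
  unfold swhC
  split_ifs <;> norm_num

/-- The smoothed cut-off. -/
noncomputable def swhP (K M : ℕ) : ℕ → ℝ := swhA K (swhA K (swhA K (swhC M)))

theorem swhP_nonneg (K M N : ℕ) : 0 ≤ swhP K M N :=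
  swhA_nonneg K _ (swhA_nonneg K _ (swhA_nonneg K _ (swhC_nonneg M))) N

theorem swhP_le_one (K M : ℕ) (hK : 0 < K) (N : ℕ) : swhP K M N ≤ 1 :=
  swhA_le_one K hK _ (swhA_le_one K hK _ (swhA_le_one K hK _ (swhC_le_one M))) N

theorem swhP_eq_one (K M : ℕ) (hK : 0 < K) (N : ℕ) (hN : N + 3 * K ≤ M) : swhP K M N = 1 := by
  have h0 : ∀ N, N ≤ M → swhC M N = 1 := fun N h => if_pos h
  have h1 : ∀ N, N ≤ M - K → swhA K (swhC M) N = 1 := fun N h =>
    swhA_eq_one K hK _ M h0 N (by omega)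
  have h2 : ∀ N, N ≤ M - 2 * K → swhA K (swhA K (swhC M)) N = 1 := fun N h =>
    swhA_eq_one K hK _ (M - K) h1 N (by omega)
  exact swhA_eq_one K hK _ (M - 2 * K) h2 N (by omega)

theorem swhP_eq_zero (K M N : ℕ) (hN : M < N) : swhP K M N = 0 := by
  have h0 : ∀ N, M < N → swhC M N = 0 := fun N h => if_neg (by omega)
  have h1 : ∀ N, M < N → swhA K (swhC M) N = 0 := fun N h => swhA_eq_zero K _ M h0 N h
  have h2 : ∀ N, M < N → swhA K (swhA K (swhC M)) N = 0 := fun N h => swhA_eq_zero K _ M h1 N h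
  exact swhA_eq_zero K _ M h2 N hN

theorem swhP_d1 (K M : ℕ) (hK : 0 < K) (N : ℕ) : |swhP K M (N + 1) - swhP K M N| ≤ 1 / K := by
  have hK' : (0 : ℝ) < K := Nat.cast_pos.2 hK
  unfold swhP
  rw [swhA_diff, abs_div, abs_of_pos hK']
  refine div_le_div_of_nonneg_right ?_ hK'.le
  have a1 := swhA_nonneg K _ (swhA_nonneg K _ (swhC_nonneg M)) (N + K)
  have a2 := swhA_nonneg K _ (swhA_nonneg K _ (swhC_nonneg M)) N
  have a3 := swhA_le_one K hK _ (swhA_le_one K hK _ (swhC_le_one M)) (N + K)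
  have a4 := swhA_le_one K hK _ (swhA_le_one K hK _ (swhC_le_one M)) N
  rw [abs_le]
  constructor <;> linarith

theorem swhP_d2_eq (K M : ℕ) (hK : 0 < K) (N : ℕ) :
    swhP K M (N + 2) - 2 * swhP K M (N + 1) + swhP K M N =
      (swhA K (swhC M) (N + 2 * K) - 2 * swhA K (swhC M) (N + K) + swhA K (swhC M) N) / K ^ 2 := by
  have hK' : (0 : ℝ) < K := Nat.cast_pos.2 hK
  have h1 : swhP K M (N + 2) - swhP K M (N + 1) =
      (swhA K (swhA K (swhC M)) (N + 1 + K) - swhA K (swhA K (swhC M)) (N + 1)) / K :=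
    swhA_diff K _ (N + 1)
  have h2 : swhP K M (N + 1) - swhP K M N =
      (swhA K (swhA K (swhC M)) (N + K) - swhA K (swhA K (swhC M)) N) / K :=
    swhA_diff K _ N
  have h3 := swhA_diff K (swhA K (swhC M)) (N + K)
  have h4 := swhA_diff K (swhA K (swhC M)) N
  rw [show N + 1 + K = N + K + 1 by ring] at h1
  rw [show N + K + K = N + 2 * K by ring] at h3
  have h5 : swhP K M (N + 2) - 2 * swhP K M (N + 1) + swhP K M N =
      ((swhA K (swhA K (swhC M)) (N + K + 1) - swhA K (swhA K (swhC M)) (N + K)) -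
        (swhA K (swhA K (swhC M)) (N + 1) - swhA K (swhA K (swhC M)) N)) / K := by
    have : swhP K M (N + 2) - 2 * swhP K M (N + 1) + swhP K M N =
      (swhP K M (N + 2) - swhP K M (N + 1)) - (swhP K M (N + 1) - swhP K M N) := by ring
    rw [this, h1, h2]
    ring
  rw [h5, h3, h4]
  field_simp
  ring

theorem swhP_d2 (K M : ℕ) (hK : 0 < K) (N : ℕ) :
    |swhP K M (N + 2) - 2 * swhP K M (N + 1) + swhP K M N| ≤ 2 / K ^ 2 := by
  have hK' : (0 : ℝ) < K := Nat.cast_pos.2 hK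
  rw [swhP_d2_eq K M hK N, abs_div, abs_of_pos (by positivity : (0 : ℝ) < (K : ℝ) ^ 2)]
  refine div_le_div_of_nonneg_right ?_ (by positivity)
  have a1 := swhA_nonneg K _ (swhC_nonneg M) (N + 2 * K)
  have a2 := swhA_nonneg K _ (swhC_nonneg M) (N + K)
  have a3 := swhA_nonneg K _ (swhC_nonneg M) N
  have a4 := swhA_le_one K hK _ (swhC_le_one M) (N + 2 * K)
  have a5 := swhA_le_one K hK _ (swhC_le_one M) (N + K)
  have a6 := swhA_le_one K hK _ (swhC_le_one M) N
  rw [abs_le]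
  constructor <;> linarith only [a1, a3, a5, a2, a4, a6]

theorem swhP_d3 (K M : ℕ) (hK : 0 < K) (N : ℕ) :
    |swhP K M (N + 3) - 3 * swhP K M (N + 2) + 3 * swhP K M (N + 1) - swhP K M N|
      ≤ 4 / K ^ 3 := by
  have hK' : (0 : ℝ) < K := Nat.cast_pos.2 hK
  have h1 := swhP_d2_eq K M hK (N + 1)
  have h2 := swhP_d2_eq K M hK N
  have h3 := swhA_diff K (swhC M) (N + 2 * K)
  have h4 := swhA_diff K (swhC M) (N + K)
  have h5 := swhA_diff K (swhC M) N
  rw [show N + 1 + 2 * K = N + 2 * K + 1 by ring, show N + 1 + K = N + K + 1 by ring] at h1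
  have e : swhP K M (N + 3) - 3 * swhP K M (N + 2) + 3 * swhP K M (N + 1) - swhP K M N =
      (swhC M (N + 2 * K + K) - swhC M (N + 2 * K) - 2 * (swhC M (N + K + K) - swhC M (N + K)) +
        (swhC M (N + K) - swhC M N)) / K ^ 3 := by
    have e1 : swhP K M (N + 3) - 3 * swhP K M (N + 2) + 3 * swhP K M (N + 1) - swhP K M N =
      (swhP K M (N + 1 + 2) - 2 * swhP K M (N + 1 + 1) + swhP K M (N + 1)) -
      (swhP K M (N + 2) - 2 * swhP K M (N + 1) + swhP K M N) := by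
      rw [show N + 1 + 2 = N + 3 by ring, show N + 1 + 1 = N + 2 by ring]
      ring
    rw [e1, h1, h2]
    have e2 : (swhA K (swhC M) (N + 2 * K + 1) - 2 * swhA K (swhC M) (N + K + 1) +
        swhA K (swhC M) (N + 1)) / (K : ℝ) ^ 2 -
        (swhA K (swhC M) (N + 2 * K) - 2 * swhA K (swhC M) (N + K) +
          swhA K (swhC M) N) / (K : ℝ) ^ 2 =
        ((swhA K (swhC M) (N + 2 * K + 1) - swhA K (swhC M) (N + 2 * K)) -
          2 * (swhA K (swhC M) (N + K + 1) - swhA K (swhC M) (N + K)) +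
          (swhA K (swhC M) (N + 1) - swhA K (swhC M) N)) / (K : ℝ) ^ 2 := by ring
    rw [e2, h3, h4, h5]
    field_simp
  rw [e, abs_div, abs_of_pos (by positivity : (0 : ℝ) < (K : ℝ) ^ 3)]
  refine div_le_div_of_nonneg_right ?_ (by positivity)
  have b1 : N + 2 * K + K = N + 3 * K := by ring
  have b2 : N + K + K = N + 2 * K := by ring
  rw [b1, b2]
  have a1 := swhC_nonneg M (N + 3 * K)
  have a2 := swhC_nonneg M (N + 2 * K)
  have a3 := swhC_nonneg M (N + K)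
  have a4 := swhC_nonneg M N
  have a5 := swhC_le_one M (N + 3 * K)
  have a6 := swhC_le_one M (N + 2 * K)
  have a7 := swhC_le_one M (N + K)
  have a8 := swhC_le_one M N
  rw [abs_le]
  constructor <;> linarith only [a1, a3, a6, a8, a2, a4, a5, a7]

/-- The weight. -/
noncomputable def swhW (K M : ℕ) (N : ℕ) : ℝ := swhP K M N * (1 / (2 * (N : ℝ)))

/-- Its third difference. -/
noncomputable def swhD (K M : ℕ) (N : ℕ) : ℝ :=
  swhW K M (N + 3) - 3 * swhW K M (N + 2) + 3 * swhW K M (N + 1) - swhW K M N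

theorem swh_psi3 (x : ℝ) (hx : 1 ≤ x) :
    |1 / (2 * (x + 3)) - 3 * (1 / (2 * (x + 2))) + 3 * (1 / (2 * (x + 1))) - 1 / (2 * x)|
      ≤ 3 / x ^ 4 := by
  have e : 1 / (2 * (x + 3)) - 3 * (1 / (2 * (x + 2))) + 3 * (1 / (2 * (x + 1))) - 1 / (2 * x)
      = -(3 / (x * (x + 1) * (x + 2) * (x + 3))) := by
    field_simp
    ring
  rw [e, abs_neg, abs_of_pos (by positivity)]
  refine div_le_div_of_nonneg_left (by norm_num) (by positivity) ?_
  have h : x ^ 4 = x * x * x * x := by ring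
  rw [h]
  gcongr <;> linarith only

theorem swh_psi2 (x : ℝ) (hx : 1 ≤ x) :
    |1 / (2 * (x + 2)) - 2 * (1 / (2 * (x + 1))) + 1 / (2 * x)| ≤ 1 / x ^ 3 := by
  have e : 1 / (2 * (x + 2)) - 2 * (1 / (2 * (x + 1))) + 1 / (2 * x)
      = 1 / (x * (x + 1) * (x + 2)) := by
    field_simp
    ring
  rw [e, abs_of_pos (by positivity)]
  refine div_le_div_of_nonneg_left (by norm_num) (by positivity) ?_
  have h : x ^ 3 = x * x * x := by ring
  rw [h]
  gcongr <;> linarith only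

theorem swh_psi1 (x : ℝ) (hx : 1 ≤ x) :
    |1 / (2 * (x + 1)) - 1 / (2 * x)| ≤ 1 / (2 * x ^ 2) := by
  have e : 1 / (2 * (x + 1)) - 1 / (2 * x) = -(1 / (2 * (x * (x + 1)))) := by
    field_simp
    ring
  rw [e, abs_neg, abs_of_pos (by positivity)]
  refine div_le_div_of_nonneg_left (by norm_num) (by positivity) ?_
  have h : x ^ 2 = x * x := by ring
  rw [h]
  gcongr
  linarith

theorem swhD_bound (K y : ℕ) (hK : 0 < K) (hKy : K ≤ y) (N : ℕ) (hN : 1 ≤ N) :
    (N : ℝ) ^ 3 * |swhD K (y + 2 + 3 * K) N| ≤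
      3 / N + (if y ≤ N then 8 * (N : ℝ) ^ 2 / K ^ 3 else 0) := by
  have hx : (1 : ℝ) ≤ N := by exact_mod_cast hN
  have hx0 : (0 : ℝ) < N := by linarith
  have hK' : (0 : ℝ) < K := Nat.cast_pos.2 hK
  set M := y + 2 + 3 * K with hM
  have c1 : ((N + 1 : ℕ) : ℝ) = (N : ℝ) + 1 := by push_cast; ring
  have c2 : ((N + 2 : ℕ) : ℝ) = (N : ℝ) + 2 := by push_cast; ring
  have c3 : ((N + 3 : ℕ) : ℝ) = (N : ℝ) + 3 := by push_cast; ring
  have p3 := swh_psi3 N hx
  have p2 := swh_psi2 N hx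
  have p1 := swh_psi1 N hx
  by_cases hy : y ≤ N
  · rw [if_pos hy]
    have hKN : (K : ℝ) ≤ N := by exact_mod_cast hKy.trans hy
    have q0 := swhP_nonneg K M (N + 3)
    have q0' := swhP_le_one K M hK (N + 3)
    have q1 := swhP_d1 K M hK (N + 2)
    have q2 := swhP_d2 K M hK (N + 1)
    have q3 := swhP_d3 K M hK N
    rw [show N + 2 + 1 = N + 3 by ring] at q1
    rw [show N + 1 + 2 = N + 3 by ring, show N + 1 + 1 = N + 2 by ring] at q2
    have e : swhD K M N =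
        swhP K M (N + 3) * (1 / (2 * ((N : ℝ) + 3)) - 3 * (1 / (2 * ((N : ℝ) + 2))) +
          3 * (1 / (2 * ((N : ℝ) + 1))) - 1 / (2 * (N : ℝ))) +
        3 * (swhP K M (N + 3) - swhP K M (N + 2)) *
          (1 / (2 * ((N : ℝ) + 2)) - 2 * (1 / (2 * ((N : ℝ) + 1))) + 1 / (2 * (N : ℝ))) +
        3 * (swhP K M (N + 3) - 2 * swhP K M (N + 2) + swhP K M (N + 1)) *
          (1 / (2 * ((N : ℝ) + 1)) - 1 / (2 * (N : ℝ))) +
        (swhP K M (N + 3) - 3 * swhP K M (N + 2) + 3 * swhP K M (N + 1) - swhP K M N) *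
          (1 / (2 * (N : ℝ))) := by
      unfold swhD swhW
      rw [c1, c2, c3]
      ring
    have hb : |swhD K M N| ≤ 1 * (3 / (N : ℝ) ^ 4) + 3 * (1 / (K : ℝ)) * (1 / (N : ℝ) ^ 3) +
        3 * (2 / (K : ℝ) ^ 2) * (1 / (2 * (N : ℝ) ^ 2)) +
        (4 / (K : ℝ) ^ 3) * (1 / (2 * (N : ℝ))) := by
      rw [e]
      refine (abs_add_le _ _).trans (add_le_add ((abs_add_le _ _).trans (add_le_add
        ((abs_add_le _ _).trans (add_le_add ?_ ?_)) ?_)) ?_)
      · rw [abs_mul, abs_of_nonneg q0]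
        exact mul_le_mul q0' p3 (abs_nonneg _) (by norm_num)
      · rw [abs_mul, abs_mul, abs_of_pos (by norm_num : (0 : ℝ) < 3)]
        exact mul_le_mul (mul_le_mul_of_nonneg_left q1 (by norm_num)) p2 (abs_nonneg _)
          (by positivity)
      · rw [abs_mul, abs_mul, abs_of_pos (by norm_num : (0 : ℝ) < 3)]
        exact mul_le_mul (mul_le_mul_of_nonneg_left q2 (by norm_num)) p1 (abs_nonneg _)
          (by positivity)
      · rw [abs_mul, abs_of_pos (by positivity : (0 : ℝ) < 1 / (2 * (N : ℝ)))]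
        exact mul_le_mul_of_nonneg_right q3 (by positivity)
    have h1 : (N : ℝ) ^ 3 * |swhD K M N| ≤
        3 / N + 3 * (1 / K) + 3 * (N / K ^ 2) + 2 * (N ^ 2 / K ^ 3) := by
      calc (N : ℝ) ^ 3 * |swhD K M N| ≤ (N : ℝ) ^ 3 * (1 * (3 / (N : ℝ) ^ 4) +
          3 * (1 / (K : ℝ)) * (1 / (N : ℝ) ^ 3) + 3 * (2 / (K : ℝ) ^ 2) * (1 / (2 * (N : ℝ) ^ 2)) +
          (4 / (K : ℝ) ^ 3) * (1 / (2 * (N : ℝ)))) :=
            mul_le_mul_of_nonneg_left hb (by positivity)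
        _ = _ := by
            field_simp
            ring
    have h2 : (1 : ℝ) / K ≤ N ^ 2 / K ^ 3 := by
      rw [div_le_div_iff₀ hK' (by positivity)]
      have : (K : ℝ) ^ 2 ≤ N ^ 2 := pow_le_pow_left₀ hK'.le hKN 2
      nlinarith only [this]
    have h3 : (N : ℝ) / K ^ 2 ≤ N ^ 2 / K ^ 3 := by
      rw [div_le_div_iff₀ (by positivity) (by positivity)]
      have e1 : (N : ℝ) * K ^ 3 = (N * K ^ 2) * K := by ring
      have e2 : (N : ℝ) ^ 2 * K ^ 2 = (N * K ^ 2) * N := by ring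
      rw [e1, e2]
      exact mul_le_mul_of_nonneg_left hKN (by positivity)
    have h4 : 8 * (N : ℝ) ^ 2 / K ^ 3 = 8 * (N ^ 2 / K ^ 3) := by ring
    rw [h4]
    linarith only [h1, h2, h3]
  · rw [if_neg hy, add_zero]
    have o0 : swhP K M N = 1 := swhP_eq_one K M hK N (by omega)
    have o1 : swhP K M (N + 1) = 1 := swhP_eq_one K M hK (N + 1) (by omega)
    have o2 : swhP K M (N + 2) = 1 := swhP_eq_one K M hK (N + 2) (by omega)
    have o3 : swhP K M (N + 3) = 1 := swhP_eq_one K M hK (N + 3) (by omega)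
    have e : swhD K M N = 1 / (2 * ((N : ℝ) + 3)) - 3 * (1 / (2 * ((N : ℝ) + 2))) +
          3 * (1 / (2 * ((N : ℝ) + 1))) - 1 / (2 * (N : ℝ)) := by
      unfold swhD swhW
      rw [c1, c2, c3, o0, o1, o2, o3]
      ring
    rw [e]
    calc (N : ℝ) ^ 3 * _ ≤ (N : ℝ) ^ 3 * (3 / (N : ℝ) ^ 4) :=
          mul_le_mul_of_nonneg_left p3 (by positivity)
      _ = 3 / N := by field_simp

theorem swh_tel (w : ℕ → ℝ) (n L : ℕ) :
    ∑ m ∈ range L, (m : ℝ) ^ 2 * (w (n + m + 3) - 3 * w (n + m + 2) + 3 * w (n + m + 1) -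
      w (n + m)) = -w (n + 1) - w (n + 2) + ((L : ℝ) - 1) ^ 2 * w (n + L + 2) +
      (((L : ℝ) - 2) ^ 2 - 3 * ((L : ℝ) - 1) ^ 2) * w (n + L + 1) + (L : ℝ) ^ 2 * w (n + L) := by
  induction L with
  | zero =>
    simp
    ring
  | succ L ih =>
    rw [Finset.sum_range_succ, ih]
    have e1 : n + (L + 1) + 2 = n + L + 3 := by ring
    have e2 : n + (L + 1) + 1 = n + L + 2 := by ring
    have e3 : n + (L + 1) = n + L + 1 := by ring
    rw [e1, e2, e3]
    push_cast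
    ring

theorem swh_inner (K M n : ℕ) (hn : n ≤ M) :
    ∑ N ∈ Icc n M, ((N : ℝ) - n) ^ 2 * (-swhD K M N) = swhW K M (n + 1) + swhW K M (n + 2) := by
  have h0 : ∀ N, M < N → swhW K M N = 0 := by
    intro N hN
    unfold swhW
    rw [swhP_eq_zero K M N hN, zero_mul]
  have h1 := swh_tel (swhW K M) n (M + 1 - n)
  rw [show n + (M + 1 - n) = M + 1 by omega, h0 (M + 1) (by omega), h0 (M + 1 + 1) (by omega),
    h0 (M + 1 + 2) (by omega)] at h1
  have h2 : Icc n M = Ico n (M + 1) := by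
    ext x
    simp only [mem_Icc, mem_Ico]
    omega
  rw [h2, Finset.sum_Ico_eq_sum_range]
  have h3 : ∑ k ∈ range (M + 1 - n), (((n + k : ℕ) : ℝ) - n) ^ 2 * (-swhD K M (n + k)) =
      -∑ m ∈ range (M + 1 - n), (m : ℝ) ^ 2 * (swhW K M (n + m + 3) - 3 * swhW K M (n + m + 2) +
        3 * swhW K M (n + m + 1) - swhW K M (n + m)) := by
    rw [← Finset.sum_neg_distrib]
    refine Finset.sum_congr rfl fun m _ => ?_
    unfold swhD
    push_cast
    ring
  rw [h3, h1]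
  ring

theorem swh_ident (K M : ℕ) (a : ℕ → ℂ) :
    ∑ n ∈ Icc 1 M, (((n : ℝ) * (swhW K M (n + 1) + swhW K M (n + 2)) : ℝ) : ℂ) * a n =
      ∑ N ∈ Icc 1 M, ((-swhD K M N : ℝ) : ℂ) *
        ∑ n ∈ Icc 1 N, (((n : ℝ) * ((N : ℝ) - n) ^ 2 : ℝ) : ℂ) * a n := by
  have h1 : ∑ N ∈ Icc 1 M, ((-swhD K M N : ℝ) : ℂ) *
        ∑ n ∈ Icc 1 N, (((n : ℝ) * ((N : ℝ) - n) ^ 2 : ℝ) : ℂ) * a n =
      ∑ N ∈ Icc 1 M, ∑ n ∈ Icc 1 N,
        ((((N : ℝ) - n) ^ 2 * (-swhD K M N) : ℝ) : ℂ) * (((n : ℝ) : ℂ) * a n) := by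
    refine Finset.sum_congr rfl fun N _ => ?_
    rw [Finset.mul_sum]
    refine Finset.sum_congr rfl fun n _ => ?_
    push_cast
    ring
  rw [h1, Finset.sum_comm' (t' := Icc 1 M) (s' := fun n => Icc n M) (by
    intro x y
    simp only [mem_Icc]
    omega)]
  refine Finset.sum_congr rfl fun n hn => ?_
  rw [← Finset.sum_mul, ← Complex.ofReal_sum, swh_inner K M n (mem_Icc.1 hn).2]
  push_cast
  ring

theorem swh_S (a : ℕ → ℂ) (N : ℕ) (hN : 1 ≤ N) :
    ∑ n ∈ Icc 1 N, (((n : ℝ) * ((N : ℝ) - n) ^ 2 : ℝ) : ℂ) * a n =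
      (((N : ℝ) ^ 3 : ℝ) : ℂ) * ∑ n ∈ Icc 1 N, a n * ((om ((n : ℝ) / N) : ℝ) : ℂ) := by
  have hN0 : (0 : ℝ) < N := Nat.cast_pos.2 hN
  rw [Finset.mul_sum]
  refine Finset.sum_congr rfl fun n hn => ?_
  obtain ⟨h1, h2⟩ := mem_Icc.1 hn
  have h3 : om ((n : ℝ) / N) = (n : ℝ) / N * (1 - (n : ℝ) / N) ^ 2 := by
    unfold om
    rw [if_pos]
    refine ⟨by positivity, ?_⟩
    rw [div_le_one hN0]
    exact_mod_cast h2
  have h4 : (N : ℝ) ^ 3 * om ((n : ℝ) / N) = (n : ℝ) * ((N : ℝ) - n) ^ 2 := by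
    rw [h3]
    field_simp
  rw [← h4]
  push_cast
  ring

theorem swh_abel (b : ℕ → ℝ) (Y : ℕ) :
    ∑ n ∈ Icc 1 Y, b n / n = (∑ n ∈ Icc 1 Y, b n) / (Y + 1) +
      ∑ k ∈ Icc 1 Y, (∑ n ∈ Icc 1 k, b n) / ((k : ℝ) * (k + 1)) := by
  induction Y with
  | zero => simp
  | succ Y ih =>
    rw [Finset.sum_Icc_succ_top (by omega), Finset.sum_Icc_succ_top (by omega) (f := fun k =>
      (∑ n ∈ Icc 1 k, b n) / ((k : ℝ) * (k + 1))), ih, Finset.sum_Icc_succ_top (by omega) (f := b)]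
    push_cast
    have h1 : (0 : ℝ) < (Y : ℝ) + 1 := by positivity
    field_simp
    ring

theorem swh_harm (M : ℕ) : ∑ N ∈ Icc 1 M, (1 : ℝ) / N ≤ 1 + Real.log M := by
  have h := harmonic_le_one_add_log M
  rw [harmonic_eq_sum_Icc] at h
  push_cast at h
  simpa using h

theorem swh_tele (Y : ℕ) : ∑ k ∈ Icc 1 Y, (1 : ℝ) / ((k : ℝ) * (k + 1)) = 1 - 1 / (Y + 1) := by
  induction Y with
  | zero => simp
  | succ Y ih =>
    rw [Finset.sum_Icc_succ_top (by omega), ih]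
    push_cast
    field_simp
    ring

theorem swh_logsum (b : ℕ → ℝ) (H P : ℝ) (hH : 0 ≤ H) (hP : 1 ≤ P) (Y : ℕ)
    (hb : ∀ k, k ≤ Y → ∑ n ∈ Icc 1 k, b n ≤ H * (k + P)) :
    ∑ n ∈ Icc 1 Y, b n / n ≤ H * (4 * P + Real.log Y) := by
  rw [swh_abel]
  have hY : (0 : ℝ) ≤ Y := Nat.cast_nonneg _
  have h1 : (∑ n ∈ Icc 1 Y, b n) / ((Y : ℝ) + 1) ≤ H * (1 + P) := by
    rw [div_le_iff₀ (by positivity)]
    refine (hb Y le_rfl).trans ?_
    rw [mul_assoc]
    refine mul_le_mul_of_nonneg_left ?_ hH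
    nlinarith only [hP]
  have h2 : ∑ k ∈ Icc 1 Y, (∑ n ∈ Icc 1 k, b n) / ((k : ℝ) * (k + 1)) ≤
      H * (1 + Real.log Y + P) := by
    calc ∑ k ∈ Icc 1 Y, (∑ n ∈ Icc 1 k, b n) / ((k : ℝ) * (k + 1))
        ≤ ∑ k ∈ Icc 1 Y, (H * (1 / (k : ℝ)) + H * P * (1 / ((k : ℝ) * (k + 1)))) := by
          refine Finset.sum_le_sum fun k hk => ?_
          obtain ⟨hk1, hk2⟩ := mem_Icc.1 hk
          have hk0 : (1 : ℝ) ≤ k := by exact_mod_cast hk1
          have hk0' : (0 : ℝ) < k := by linarith only [hk0]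
          have e : H * (1 / (k : ℝ)) + H * P * (1 / ((k : ℝ) * (k + 1))) =
              H * ((k : ℝ) + 1 + P) / ((k : ℝ) * (k + 1)) := by
            field_simp
          rw [e]
          refine div_le_div_of_nonneg_right ?_ (by positivity)
          refine (hb k hk2).trans (mul_le_mul_of_nonneg_left (by linarith only) hH)
      _ = H * (∑ k ∈ Icc 1 Y, 1 / (k : ℝ)) + H * P * ∑ k ∈ Icc 1 Y, 1 / ((k : ℝ) * (k + 1)) := by
          rw [Finset.sum_add_distrib, Finset.mul_sum, Finset.mul_sum]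
      _ ≤ H * (1 + Real.log Y) + H * P * 1 := by
          refine add_le_add (mul_le_mul_of_nonneg_left (swh_harm Y) hH)
            (mul_le_mul_of_nonneg_left ?_ (by positivity))
          rw [swh_tele]
          have : (0 : ℝ) ≤ 1 / ((Y : ℝ) + 1) := by positivity
          linarith
      _ = _ := by ring
  have h3 : H * (1 + P) + H * (1 + Real.log Y + P) ≤ H * (4 * P + Real.log Y) := by
    nlinarith only [hH, hP]
  linarith only [h1, h2, h3]

theorem swh_c_bounds (K M : ℕ) (hK : 0 < K) (n : ℕ) :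
    0 ≤ (n : ℝ) * (swhW K M (n + 1) + swhW K M (n + 2)) ∧
      (n : ℝ) * (swhW K M (n + 1) + swhW K M (n + 2)) ≤ 1 := by
  have hn : (0 : ℝ) ≤ n := Nat.cast_nonneg _
  have a1 := swhP_nonneg K M (n + 1)
  have a2 := swhP_nonneg K M (n + 2)
  have a3 := swhP_le_one K M hK (n + 1)
  have a4 := swhP_le_one K M hK (n + 2)
  have c1 : ((n + 1 : ℕ) : ℝ) = (n : ℝ) + 1 := by push_cast; ring
  have c2 : ((n + 2 : ℕ) : ℝ) = (n : ℝ) + 2 := by push_cast; ring
  have w1 : swhW K M (n + 1) ≤ 1 / (2 * ((n : ℝ) + 1)) := by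
    unfold swhW
    rw [c1]
    calc _ ≤ 1 * (1 / (2 * ((n : ℝ) + 1))) := mul_le_mul_of_nonneg_right a3 (by positivity)
      _ = _ := one_mul _
  have w2 : swhW K M (n + 2) ≤ 1 / (2 * ((n : ℝ) + 2)) := by
    unfold swhW
    rw [c2]
    calc _ ≤ 1 * (1 / (2 * ((n : ℝ) + 2))) := mul_le_mul_of_nonneg_right a4 (by positivity)
      _ = _ := one_mul _
  have w1' : 0 ≤ swhW K M (n + 1) := by
    unfold swhW
    positivity
  have w2' : 0 ≤ swhW K M (n + 2) := by
    unfold swhW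
    positivity
  refine ⟨by positivity, ?_⟩
  calc (n : ℝ) * (swhW K M (n + 1) + swhW K M (n + 2))
      ≤ (n : ℝ) * (1 / (2 * ((n : ℝ) + 1)) + 1 / (2 * ((n : ℝ) + 2))) :=
        mul_le_mul_of_nonneg_left (add_le_add w1 w2) hn
    _ ≤ 1 := by
        have e : (n : ℝ) * (1 / (2 * ((n : ℝ) + 1)) + 1 / (2 * ((n : ℝ) + 2))) =
          (n : ℝ) * (2 * n + 3) / (2 * ((n : ℝ) + 1) * ((n : ℝ) + 2)) := by
            field_simp
            ring
        rw [e, div_le_one (by positivity)]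
        nlinarith only

theorem swh_c_low (K y : ℕ) (hK : 0 < K) (n : ℕ) (hn : 1 ≤ n) (hny : n ≤ y) :
    1 - (n : ℝ) * (swhW K (y + 2 + 3 * K) (n + 1) + swhW K (y + 2 + 3 * K) (n + 2)) ≤
      2 / (n : ℝ) := by
  have hn0 : (1 : ℝ) ≤ n := by exact_mod_cast hn
  have c1 : ((n + 1 : ℕ) : ℝ) = (n : ℝ) + 1 := by push_cast; ring
  have c2 : ((n + 2 : ℕ) : ℝ) = (n : ℝ) + 2 := by push_cast; ring
  unfold swhW
  rw [swhP_eq_one K _ hK (n + 1) (by omega), swhP_eq_one K _ hK (n + 2) (by omega), c1, c2]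
  have e : 1 - (n : ℝ) * (1 * (1 / (2 * ((n : ℝ) + 1))) + 1 * (1 / (2 * ((n : ℝ) + 2)))) =
      (3 * (n : ℝ) + 4) / (2 * ((n : ℝ) + 1) * ((n : ℝ) + 2)) := by
    field_simp
    ring
  rw [e, div_le_div_iff₀ (by positivity) (by positivity)]
  nlinarith only [hn0]

theorem smooth_to_sharp : ∃ C : ℝ, 0 < C ∧ ∀ (a : ℕ → ℂ) (B H P : ℝ) (y : ℕ) (δ : ℝ),
    0 ≤ B → 0 ≤ H → 1 ≤ P → 2 ≤ y → 0 < δ → δ ≤ 1 / 2 →
    (∀ N : ℕ, 1 ≤ N → N ≤ 2 * y → ‖∑ n ∈ Icc 1 N, a n * ((om ((n : ℝ) / N) : ℝ) : ℂ)‖ ≤ B) →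
    (∀ u v : ℕ, u ≤ v → v ≤ 2 * y → ∑ n ∈ Ioc u v, ‖a n‖ ≤ H * ((v : ℝ) - u + P)) →
    ‖∑ n ∈ Icc 1 y, a n‖
      ≤ C * (B * (1 / δ ^ 3 + Real.log y) + H * (δ * y + Real.log y + P / δ ^ 3)) := by
  refine ⟨30000, by norm_num, fun a B H P y δ hB hH hP hy hδ hδ2 hS hA => ?_⟩
  have hy0 : (2 : ℝ) ≤ y := by exact_mod_cast hy
  have hlog0 : 0 ≤ Real.log y := Real.log_nonneg (by linarith only [hδ, hδ2, hy0])
  have hlog2 : Real.log 2 ≤ Real.log y := Real.log_le_log (by norm_num) hy0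
  have hδ3 : 0 < δ ^ 3 := by positivity
  have hd1 : 1 / δ ≤ 1 / δ ^ 3 := by
    refine one_div_le_one_div_of_le hδ3 ?_
    nlinarith only [hδ, hδ2, sq_nonneg δ, mul_pos hδ hδ]
  have hd2 : 1 / δ ^ 2 ≤ 1 / δ ^ 3 := by
    refine one_div_le_one_div_of_le hδ3 ?_
    nlinarith only [hδ, hδ2, sq_nonneg δ, mul_pos hδ hδ]
  have hd0 : 1 ≤ 1 / δ ^ 3 := by
    rw [le_div_iff₀ hδ3]
    nlinarith only [hδ, hδ2, sq_nonneg δ, mul_pos hδ hδ]
  have hP3 : P ≤ P / δ ^ 3 := by
    rw [div_eq_mul_one_div]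
    nlinarith only [hd0, hP]
  have hIcc : ∀ N : ℕ, Icc 1 N = Ioc 0 N := by
    intro N
    ext x
    simp only [mem_Icc, mem_Ioc]
    omega
  have hA0 : ∀ k : ℕ, k ≤ 2 * y → ∑ n ∈ Icc 1 k, ‖a n‖ ≤ H * ((k : ℝ) + P) := by
    intro k hk
    rw [hIcc]
    have := hA 0 k (Nat.zero_le _) hk
    simpa using this
  rcases lt_or_ge (δ * y) 6 with hsmall | hbig
  · -- trivial bound
    have h1 : ‖∑ n ∈ Icc 1 y, a n‖ ≤ H * ((y : ℝ) + P) :=
      (norm_sum_le _ _).trans (hA0 y (by omega))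
    have h2 : (y : ℝ) ≤ 6 * (1 / δ) := by
      rw [mul_one_div, le_div_iff₀ hδ]
      linarith
    have h3 : (y : ℝ) + P ≤ 7 * (P / δ ^ 3) := by
      have e1 : 6 * (1 / δ) ≤ 6 * (P / δ ^ 3) := by
        have : 1 / δ ^ 3 ≤ P / δ ^ 3 := div_le_div_of_nonneg_right hP hδ3.le
        linarith only [hd1, this]
      linarith only [hP3, h2, e1]
    have h4 : H * ((y : ℝ) + P) ≤ 7 * (H * (P / δ ^ 3)) := by
      calc H * ((y : ℝ) + P) ≤ H * (7 * (P / δ ^ 3)) := mul_le_mul_of_nonneg_left h3 hH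
        _ = _ := by ring
    have h5 : 0 ≤ B * (1 / δ ^ 3 + Real.log y) := by positivity
    have h6 : 0 ≤ H * (δ * y + Real.log y) := by positivity
    have h7 : 0 ≤ H * (P / δ ^ 3) := by positivity
    have h8 : H * (δ * y + Real.log y + P / δ ^ 3) = H * (δ * y + Real.log y) + H * (P / δ ^ 3) := by
      ring
    rw [h8]
    linarith only [h1, h4, h5, h6, h7]
  · set K := ⌊δ * y / 6⌋₊ with hKdef
    have hKr : (K : ℝ) ≤ δ * y / 6 := Nat.floor_le (by positivity)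
    have hKr2 : δ * y / 6 < K + 1 := Nat.lt_floor_add_one _
    have hK : 0 < K := by
      rw [hKdef, Nat.floor_pos]
      linarith only [hbig]
    have hK1 : (1 : ℝ) ≤ K := by exact_mod_cast hK
    have hK' : (0 : ℝ) < K := by linarith only [hδ, hδ2, hK1]
    have hK12 : δ * y / 12 ≤ K := by linarith only [hKr2, hK1]
    have hy12 : (12 : ℝ) ≤ y := by nlinarith only [hbig, hδ2]
    have hKy' : (K : ℝ) ≤ y / 12 := by nlinarith
    have hKy : K ≤ y := by
      have : (K : ℝ) ≤ y := by linarith only [hδ, hδ2, hy12, hKy']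
      exact_mod_cast this
    set M := y + 2 + 3 * K with hM
    have hMr : (M : ℝ) = y + 2 + 3 * K := by rw [hM]; push_cast; ring
    have hM2r : (M : ℝ) ≤ 2 * y := by rw [hMr]; linarith only [hδ, hδ2, hy12, hKy']
    have hM2 : M ≤ 2 * y := by exact_mod_cast hM2r
    have hM0 : (0 : ℝ) < M := by rw [hMr]; positivity
    set c : ℕ → ℝ := fun n => (n : ℝ) * (swhW K M (n + 1) + swhW K M (n + 2)) with hc
    -- the smooth part
    have hI : ‖∑ n ∈ Icc 1 M, ((c n : ℝ) : ℂ) * a n‖ ≤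
        B * (3 * (1 + Real.log M) + 27648 * (1 / δ ^ 2)) := by
      rw [hc]
      simp only []
      rw [swh_ident K M a]
      calc ‖∑ N ∈ Icc 1 M, ((-swhD K M N : ℝ) : ℂ) *
            ∑ n ∈ Icc 1 N, (((n : ℝ) * ((N : ℝ) - n) ^ 2 : ℝ) : ℂ) * a n‖
          ≤ ∑ N ∈ Icc 1 M, B * (3 / (N : ℝ) + (if y ≤ N then 8 * (N : ℝ) ^ 2 / K ^ 3 else 0)) := by
            refine (norm_sum_le _ _).trans (Finset.sum_le_sum fun N hN => ?_)
            obtain ⟨hN1, hN2⟩ := mem_Icc.1 hN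
            rw [swh_S a N hN1, norm_mul, norm_mul, Complex.norm_real, Complex.norm_real,
              Real.norm_eq_abs, Real.norm_eq_abs, abs_neg,
              abs_of_nonneg (by positivity : (0 : ℝ) ≤ (N : ℝ) ^ 3)]
            have h1 := hS N hN1 (hN2.trans hM2)
            have h2 := swhD_bound K y hK hKy N hN1
            calc |swhD K M N| * ((N : ℝ) ^ 3 *
                  ‖∑ n ∈ Icc 1 N, a n * ((om ((n : ℝ) / N) : ℝ) : ℂ)‖)
                ≤ |swhD K M N| * ((N : ℝ) ^ 3 * B) := by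
                  refine mul_le_mul_of_nonneg_left ?_ (abs_nonneg _)
                  exact mul_le_mul_of_nonneg_left h1 (by positivity)
              _ = B * ((N : ℝ) ^ 3 * |swhD K M N|) := by ring
              _ ≤ _ := mul_le_mul_of_nonneg_left h2 hB
        _ = B * (3 * (∑ N ∈ Icc 1 M, 1 / (N : ℝ)) +
            ∑ N ∈ Icc 1 M, (if y ≤ N then 8 * (N : ℝ) ^ 2 / K ^ 3 else 0)) := by
            rw [← Finset.mul_sum, Finset.sum_add_distrib]
            congr 2
            rw [Finset.mul_sum]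
            exact Finset.sum_congr rfl fun N _ => by ring
        _ ≤ B * (3 * (1 + Real.log M) + 27648 * (1 / δ ^ 2)) := by
            refine mul_le_mul_of_nonneg_left (add_le_add
              (mul_le_mul_of_nonneg_left (swh_harm M) (by norm_num)) ?_) hB
            rw [← Finset.sum_filter]
            have hcard : ((Icc 1 M).filter (fun N => y ≤ N)).card ≤ 3 * K + 3 := by
              calc ((Icc 1 M).filter (fun N => y ≤ N)).card ≤ (Icc y M).card := by
                    refine Finset.card_le_card fun x hx => ?_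
                    rw [Finset.mem_filter, mem_Icc] at hx
                    exact mem_Icc.2 ⟨hx.2, hx.1.2⟩
                _ = 3 * K + 3 := by
                    rw [Nat.card_Icc]
                    omega
            have hb : ∀ N ∈ (Icc 1 M).filter (fun N => y ≤ N),
                8 * (N : ℝ) ^ 2 / K ^ 3 ≤ 8 * (M : ℝ) ^ 2 / K ^ 3 := by
              intro N hN
              rw [Finset.mem_filter, mem_Icc] at hN
              have : (N : ℝ) ≤ M := by exact_mod_cast hN.1.2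
              gcongr
            have h3 := Finset.sum_le_card_nsmul _ _ _ hb
            rw [nsmul_eq_mul] at h3
            refine h3.trans ?_
            have h4 : ((((Icc 1 M).filter (fun N => y ≤ N)).card : ℕ) : ℝ) ≤ 6 * K := by
              have : ((((Icc 1 M).filter (fun N => y ≤ N)).card : ℕ) : ℝ) ≤ 3 * K + 3 := by
                exact_mod_cast hcard
              linarith only [hK1, this]
            calc _ ≤ (6 * K) * (8 * (M : ℝ) ^ 2 / K ^ 3) :=
                  mul_le_mul_of_nonneg_right h4 (by positivity)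
              _ = 48 * ((M : ℝ) / K) ^ 2 := by
                  field_simp
                  ring
              _ ≤ 48 * (24 / δ) ^ 2 := by
                  have h5 : (M : ℝ) / K ≤ 24 / δ := by
                    rw [div_le_div_iff₀ hK' hδ]
                    nlinarith only [hδ, hδ2, hK1, hMr, hKy', hKr2]
                  have h6 : 0 ≤ (M : ℝ) / K := by positivity
                  have h7 := pow_le_pow_left₀ h6 h5 2
                  linarith only [h7]
              _ = 27648 * (1 / δ ^ 2) := by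
                  field_simp
                  ring
    -- decomposition
    have hdec : ∑ n ∈ Icc 1 y, a n = ∑ n ∈ Icc 1 M, ((c n : ℝ) : ℂ) * a n +
        ∑ n ∈ Icc 1 y, ((1 - c n : ℝ) : ℂ) * a n - ∑ n ∈ Ioc y M, ((c n : ℝ) : ℂ) * a n := by
      have h1 : ∑ n ∈ Icc 1 M, ((c n : ℝ) : ℂ) * a n = ∑ n ∈ Icc 1 y, ((c n : ℝ) : ℂ) * a n +
          ∑ n ∈ Ioc y M, ((c n : ℝ) : ℂ) * a n := by
        rw [hIcc, hIcc]
        exact (Finset.sum_Ioc_consecutive _ (Nat.zero_le y) (by omega)).symm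
      have h2 : ∑ n ∈ Icc 1 y, a n = ∑ n ∈ Icc 1 y, ((c n : ℝ) : ℂ) * a n +
          ∑ n ∈ Icc 1 y, ((1 - c n : ℝ) : ℂ) * a n := by
        rw [← Finset.sum_add_distrib]
        refine Finset.sum_congr rfl fun n _ => ?_
        push_cast
        ring
      rw [h1, h2]
      ring
    have hII : ‖∑ n ∈ Icc 1 y, ((1 - c n : ℝ) : ℂ) * a n‖ ≤ 2 * (H * (4 * P + Real.log y)) := by
      calc ‖∑ n ∈ Icc 1 y, ((1 - c n : ℝ) : ℂ) * a n‖
          ≤ ∑ n ∈ Icc 1 y, 2 * (‖a n‖ / n) := by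
            refine (norm_sum_le _ _).trans (Finset.sum_le_sum fun n hn => ?_)
            obtain ⟨h1, h2⟩ := mem_Icc.1 hn
            rw [norm_mul, Complex.norm_real, Real.norm_eq_abs]
            have h3 := swh_c_low K y hK n h1 h2
            have h4 := (swh_c_bounds K M hK n).2
            have h5 : 0 ≤ 1 - c n := by
              rw [hc]
              simp only []
              linarith only [h4]
            rw [abs_of_nonneg h5]
            calc (1 - c n) * ‖a n‖ ≤ (2 / (n : ℝ)) * ‖a n‖ :=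
                  mul_le_mul_of_nonneg_right h3 (norm_nonneg _)
              _ = 2 * (‖a n‖ / n) := by ring
        _ = 2 * ∑ n ∈ Icc 1 y, ‖a n‖ / n := by rw [Finset.mul_sum]
        _ ≤ 2 * (H * (4 * P + Real.log y)) :=
            mul_le_mul_of_nonneg_left (swh_logsum (fun n => ‖a n‖) H P hH hP y
              (fun k hk => hA0 k (by omega))) (by norm_num)
    have hIII : ‖∑ n ∈ Ioc y M, ((c n : ℝ) : ℂ) * a n‖ ≤ H * (δ * y + 3 * P) := by
      calc ‖∑ n ∈ Ioc y M, ((c n : ℝ) : ℂ) * a n‖ ≤ ∑ n ∈ Ioc y M, ‖a n‖ := by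
            refine (norm_sum_le _ _).trans (Finset.sum_le_sum fun n _ => ?_)
            rw [norm_mul, Complex.norm_real, Real.norm_eq_abs]
            obtain ⟨h3, h4⟩ := swh_c_bounds K M hK n
            rw [hc]
            simp only []
            rw [abs_of_nonneg h3]
            calc _ ≤ 1 * ‖a n‖ := mul_le_mul_of_nonneg_right h4 (norm_nonneg _)
              _ = _ := one_mul _
        _ ≤ H * ((M : ℝ) - y + P) := hA y M (by omega) hM2
        _ ≤ H * (δ * y + 3 * P) := by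
            refine mul_le_mul_of_nonneg_left ?_ hH
            rw [hMr]
            linarith only [hP, hδ, hδ2, hbig, hKr]
    have hlogM : Real.log M ≤ 2 * Real.log y := by
      calc Real.log M ≤ Real.log (2 * y) := Real.log_le_log hM0 hM2r
        _ = Real.log 2 + Real.log y := Real.log_mul (by norm_num) (by positivity)
        _ ≤ 2 * Real.log y := by linarith only [hlog2]
    have htot : ‖∑ n ∈ Icc 1 y, a n‖ ≤ B * (3 * (1 + Real.log M) + 27648 * (1 / δ ^ 2)) +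
        2 * (H * (4 * P + Real.log y)) + H * (δ * y + 3 * P) := by
      rw [hdec]
      refine (norm_sub_le _ _).trans (add_le_add ((norm_add_le _ _).trans (add_le_add hI hII)) hIII)
    have f1 : B * (3 * (1 + Real.log M) + 27648 * (1 / δ ^ 2)) ≤
        30000 * (B * (1 / δ ^ 3 + Real.log y)) := by
      have : 3 * (1 + Real.log M) + 27648 * (1 / δ ^ 2) ≤ 30000 * (1 / δ ^ 3 + Real.log y) := by
        linarith only [hδ, hδ2, hlog0, hd2, hd0, hlogM]
      calc _ ≤ B * (30000 * (1 / δ ^ 3 + Real.log y)) := mul_le_mul_of_nonneg_left this hB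
        _ = _ := by ring
    have f2 : 2 * (H * (4 * P + Real.log y)) + H * (δ * y + 3 * P) ≤
        30000 * (H * (δ * y + Real.log y + P / δ ^ 3)) := by
      have h1 : 0 ≤ δ * y := by positivity
      have h2 : 2 * (4 * P + Real.log y) + (δ * y + 3 * P) ≤
          30000 * (δ * y + Real.log y + P / δ ^ 3) := by
        have h3 : 0 ≤ P / δ ^ 3 := by positivity
        linarith only [hP, hδ, hδ2, hlog0, hP3, hbig]
      calc 2 * (H * (4 * P + Real.log y)) + H * (δ * y + 3 * P)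
          = H * (2 * (4 * P + Real.log y) + (δ * y + 3 * P)) := by ring
        _ ≤ H * (30000 * (δ * y + Real.log y + P / δ ^ 3)) := mul_le_mul_of_nonneg_left h2 hH
        _ = _ := by ring
    linarith only [htot, f1, f2]

end Pool.Agent.H91.EHA

end
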