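import Pool.Agent.H43.PJ.M14
import Pool.Agent.H43.PJ.M16

/-! The parts of this file: H91.EHA.SwE, H91.EHA.SwF. -/

section

/-!
# Combined lower bound

Combine `L_lower_complex`, `L_lower_real`, `siegel` and
`log(q(|t|+2)) ≤ C_ε q^{ε/20} log(|t|+3)`.
-/

set_option autoImplicit false

namespace Pool.Agent.H91.EHA

open Finset

private theorem swe_log (δ : ℝ) (hδ : 0 < δ) (q : ℕ) (hq : 2 ≤ q) (t : ℝ) :
    0 < Real.log (q * (|t| + 2)) ∧
      Real.log (q * (|t| + 2)) ≤ (1 / δ + 1) * ((q : ℝ) ^ δ * Real.log (|t| + 3)) := by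
  have hq1 : (2 : ℝ) ≤ q := by exact_mod_cast hq
  have ht : 0 ≤ |t| := abs_nonneg t
  have h3 : 1 ≤ Real.log (|t| + 3) := by
    rw [Real.le_log_iff_exp_le (by linarith)]
    have := Real.exp_one_lt_d9
    linarith
  have hqd : 1 ≤ (q : ℝ) ^ δ := Real.one_le_rpow (by linarith) hδ.le
  refine ⟨Real.log_pos (by nlinarith), ?_⟩
  rw [Real.log_mul (by linarith) (by linarith)]
  have h1 : Real.log q ≤ (q : ℝ) ^ δ / δ := Real.log_le_rpow_div (by linarith) hδ
  have h2 : Real.log (|t| + 2) ≤ Real.log (|t| + 3) :=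
    Real.log_le_log (by linarith) (by linarith)
  have h4 : (q : ℝ) ^ δ / δ ≤ (q : ℝ) ^ δ / δ * Real.log (|t| + 3) :=
    le_mul_of_one_le_right (by positivity) h3
  have h5 : Real.log (|t| + 3) ≤ (q : ℝ) ^ δ * Real.log (|t| + 3) :=
    le_mul_of_one_le_left (by linarith) hqd
  calc Real.log q + Real.log (|t| + 2) ≤
      (q : ℝ) ^ δ / δ * Real.log (|t| + 3) + (q : ℝ) ^ δ * Real.log (|t| + 3) := by linarith
    _ = _ := by ring

private theorem swe_low (ε : ℝ) (hε : 0 < ε) (c : ℝ) (hc : 0 < c) (q : ℕ) (hq : 2 ≤ q) (t : ℝ) :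
    c / (1 / (ε / 9) + 1) ^ 9 * ((q : ℝ) ^ (-ε) / Real.log (|t| + 3) ^ 9) ≤
      c / Real.log (q * (|t| + 2)) ^ 9 := by
  obtain ⟨h0, h1⟩ := swe_log (ε / 9) (by positivity) q hq t
  have hq0 : (0 : ℝ) < q := by exact_mod_cast (by omega : 0 < q)
  have h3 : 0 < Real.log (|t| + 3) := by
    apply Real.log_pos
    have := abs_nonneg t
    linarith
  have h4 : Real.log (q * (|t| + 2)) ^ 9 ≤
      ((1 / (ε / 9) + 1) * ((q : ℝ) ^ (ε / 9) * Real.log (|t| + 3))) ^ 9 :=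
    pow_le_pow_left₀ h0.le h1 9
  have h5 : ((q : ℝ) ^ (ε / 9)) ^ 9 = (q : ℝ) ^ ε := by
    rw [← Real.rpow_natCast, ← Real.rpow_mul hq0.le]
    congr 1
    push_cast
    ring
  have h6 : c / (1 / (ε / 9) + 1) ^ 9 * ((q : ℝ) ^ (-ε) / Real.log (|t| + 3) ^ 9) =
      c / ((1 / (ε / 9) + 1) * ((q : ℝ) ^ (ε / 9) * Real.log (|t| + 3))) ^ 9 := by
    rw [mul_pow, mul_pow, h5, Real.rpow_neg hq0.le]
    have h7 : (q : ℝ) ^ ε ≠ 0 := (Real.rpow_pos_of_pos hq0 _).ne'
    field_simp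
  rw [h6]
  exact div_le_div_of_nonneg_left hc.le (by positivity) h4

theorem L_low (ε : ℝ) (hε : 0 < ε) : ∃ c : ℝ, 0 < c ∧ ∀ q : ℕ, 2 ≤ q →
    ∀ χ : DirichletCharacter ℂ q, χ.IsPrimitive → ∀ s : ℂ, 1 < s.re → s.re ≤ 2 →
      c * (q : ℝ) ^ (-ε) / Real.log (|s.im| + 3) ^ 9 ≤ ‖Lk q χ 0 s‖ := by
  obtain ⟨c1, hc1, h1⟩ := L_lower_complex
  obtain ⟨c2, hc2, h2⟩ := L_lower_real
  obtain ⟨c3, hc3, h3⟩ := siegel (ε / 2) (by positivity)
  have hK : 0 < (1 / (ε / 9) + 1) ^ 9 := by positivity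
  have hK' : 0 < (1 / (ε / 2 / 9) + 1) ^ 9 := by positivity
  refine ⟨min (c1 / (1 / (ε / 9) + 1) ^ 9) (c2 * c3 / (1 / (ε / 2 / 9) + 1) ^ 9),
    lt_min (by positivity) (by positivity), ?_⟩
  intro q hq χ hχ s hs1 hs2
  have : NeZero q := ⟨by omega⟩
  have hq0 : (0 : ℝ) < q := by exact_mod_cast (by omega : 0 < q)
  have hlog : 0 < Real.log (|s.im| + 3) := by
    apply Real.log_pos
    have := abs_nonneg s.im
    linarith
  have hne : χ ≠ 1 := by
    rintro rfl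
    have h4 : DirichletCharacter.conductor (1 : DirichletCharacter ℂ q) = q := hχ
    rw [DirichletCharacter.conductor_one] at h4
    omega
  by_cases hsq : χ ^ 2 = 1
  · refine le_trans ?_ (h2 q hq χ hne hsq s hs1 hs2)
    have h4 := h3 q χ hχ hsq hne
    have h5 := swe_low (ε / 2) (by positivity) (c2 * (c3 * (q : ℝ) ^ (-(ε / 2)))) (by positivity)
      q hq s.im
    have h6 : c2 * (c3 * (q : ℝ) ^ (-(ε / 2))) / Real.log (q * (|s.im| + 2)) ^ 9 ≤
        c2 * ‖DirichletCharacter.LFunction χ 1‖ / Real.log (q * (|s.im| + 2)) ^ 9 := by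
      have h7 := (swe_log 1 one_pos q hq s.im).1
      gcongr
    refine le_trans ?_ (h5.trans h6)
    have h8 : (q : ℝ) ^ (-ε) = (q : ℝ) ^ (-(ε / 2)) * (q : ℝ) ^ (-(ε / 2)) := by
      rw [← Real.rpow_add hq0]
      congr 1
      ring
    rw [h8]
    calc min (c1 / (1 / (ε / 9) + 1) ^ 9) (c2 * c3 / (1 / (ε / 2 / 9) + 1) ^ 9) *
          ((q : ℝ) ^ (-(ε / 2)) * (q : ℝ) ^ (-(ε / 2))) / Real.log (|s.im| + 3) ^ 9
        ≤ (c2 * c3 / (1 / (ε / 2 / 9) + 1) ^ 9) *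
          ((q : ℝ) ^ (-(ε / 2)) * (q : ℝ) ^ (-(ε / 2))) / Real.log (|s.im| + 3) ^ 9 := by
          have := min_le_right (c1 / (1 / (ε / 9) + 1) ^ 9)
            (c2 * c3 / (1 / (ε / 2 / 9) + 1) ^ 9)
          gcongr
      _ = _ := by ring
  · refine le_trans ?_ (h1 q hq χ hne hsq s hs1 hs2)
    refine le_trans ?_ (swe_low ε hε c1 hc1 q hq s.im)
    rw [mul_div_assoc]
    exact mul_le_mul_of_nonneg_right (min_le_left _ _) (by positivity)

end Pool.Agent.H91.EHA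

end

section

/-!
# Bounds for the series of `Λ(n) χ(n) (log n)^k`

`Lk (k+1) = ∑_{i ≤ k} binom(k,i) Lk i · Fk (k-i)` (from `log = Λ * 1`; `k = 0`:
`Lk 1 = Lk 0 · Fk 0`, Mathlib `DirichletCharacter.deriv_LFunction...` / `LSeries_vonMangoldt...`
(`ArithmeticFunction.LSeries_vonMangoldt_eq`, `LSeries_twist_vonMangoldt_eq`); differentiate `k` times with
`Lk_hasDeriv` and `Fk_hasDeriv`).  Solve for `Fk k` and use induction, `L_low (ε')`, `Lk_le`:
`‖Fk k‖ ≤ C q^{ε'...} (log(|t|+3))^{20(k+1)}`; note `log(q(|t|+2)) ≤ C q^{ε'} log(|t|+3)`.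
Exponent check: `9 + (k+2) ≤ 20(k+1)` and `9 + (i+1) + 20(k-i+1) ≤ 20(k+1)` for `i ≥ 1`.
-/

set_option autoImplicit false

namespace Pool.Agent.H91.EHA

open Finset

theorem Fk_summable (q : ℕ) (χ : DirichletCharacter ℂ q) (k : ℕ) (s : ℂ) (hs : 1 < s.re) :
    LSeriesSummable (fun n => ((Lam n * Real.log n ^ k : ℝ) : ℂ) * χ (n : ZMod q)) s := by
  refine Summable.of_norm_bounded (Lk_summable q χ (k + 1) s hs).norm ?_
  intro n
  apply LSeries.norm_term_le
  have hlog : 0 ≤ Real.log n := Real.log_natCast_nonneg n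
  have hLam : Lam n ≤ Real.log n := ArithmeticFunction.vonMangoldt_le_log
  have hLam0 : 0 ≤ Lam n := ArithmeticFunction.vonMangoldt_nonneg
  rw [norm_mul, norm_mul]
  refine mul_le_mul_of_nonneg_right ?_ (norm_nonneg _)
  rw [norm_pow, Complex.norm_real, Complex.norm_real, Real.norm_eq_abs, Real.norm_eq_abs,
    abs_of_nonneg (mul_nonneg hLam0 (pow_nonneg hlog k)), abs_of_nonneg hlog, pow_succ,
    mul_comm (Real.log n ^ k)]
  exact mul_le_mul_of_nonneg_right hLam (pow_nonneg hlog k)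

theorem Fk_hasDeriv (q : ℕ) (χ : DirichletCharacter ℂ q) (k : ℕ) (s : ℂ) (hs : 1 < s.re) :
    HasDerivAt (Fk q χ k) (-(Fk q χ (k + 1) s)) s := by
  have habs : LSeries.abscissaOfAbsConv
      (fun n : ℕ => ((Lam n * Real.log n ^ k : ℝ) : ℂ) * χ (n : ZMod q)) < s.re := by
    refine lt_of_le_of_lt (b := ((1 : ℝ) : EReal)) ?_ (by exact_mod_cast hs)
    apply LSeries.abscissaOfAbsConv_le_of_forall_lt_LSeriesSummable
    intro y hy
    exact Fk_summable q χ k y (by simpa using hy)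
  have h := LSeries_hasDerivAt habs
  have he : LSeries (LSeries.logMul
      (fun n : ℕ => ((Lam n * Real.log n ^ k : ℝ) : ℂ) * χ (n : ZMod q))) s =
      Fk q χ (k + 1) s := by
    unfold Fk
    apply LSeries_congr
    intro n _
    unfold LSeries.logMul
    rw [← Complex.natCast_log]
    push_cast
    ring
  rw [he] at h
  exact h

private theorem swf_one (q : ℕ) (χ : DirichletCharacter ℂ q) (s : ℂ) (hs : 1 < s.re) :
    Lk q χ 1 s = Lk q χ 0 s * Fk q χ 0 s := by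
  have hL0 : Lk q χ 0 = LSeries (fun n => χ (n : ZMod q)) := by
    funext z
    unfold Lk
    apply LSeries_congr
    intro n _
    simp
  have hF0 : Fk q χ 0 s = LSeries ((fun n : ℕ => χ (n : ZMod q)) *
      (fun n : ℕ => (ArithmeticFunction.vonMangoldt n : ℂ))) s := by
    unfold Fk
    apply LSeries_congr
    intro n _
    simp only [Pi.mul_apply, Lam, pow_zero, mul_one]
    ring
  have h1 := DirichletCharacter.LSeries_twist_vonMangoldt_eq χ hs
  have h2 := (Lk_hasDeriv q χ 0 s hs).deriv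
  have h3 := DirichletCharacter.LSeries_ne_zero_of_one_lt_re χ hs
  rw [hF0, h1, hL0]
  rw [hL0] at h2
  rw [h2, neg_neg, zero_add]
  field_simp

private theorem swf_pascal (a b : ℕ → ℂ) (k : ℕ) :
    ∑ i ∈ range (k + 1), (k.choose i : ℂ) * (a (i + 1) * b (k - i) + a i * b (k - i + 1)) =
      ∑ i ∈ range (k + 1 + 1), ((k + 1).choose i : ℂ) * (a i * b (k + 1 - i)) := by
  rw [Finset.sum_range_succ' (fun i => ((k + 1).choose i : ℂ) * (a i * b (k + 1 - i)))]
  have h1 : ∀ i ∈ range (k + 1), ((k + 1).choose (i + 1) : ℂ) * (a (i + 1) * b (k + 1 - (i + 1))) =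
      (k.choose i : ℂ) * (a (i + 1) * b (k - i)) +
        (k.choose (i + 1) : ℂ) * (a (i + 1) * b (k + 1 - (i + 1))) := by
    intro i _
    rw [Nat.choose_succ_succ, Nat.add_sub_add_right]
    push_cast
    ring
  rw [Finset.sum_congr rfl h1, Finset.sum_add_distrib]
  have h2 : ∑ i ∈ range (k + 1), (k.choose (i + 1) : ℂ) * (a (i + 1) * b (k + 1 - (i + 1))) +
      ((k + 1).choose 0 : ℂ) * (a 0 * b (k + 1 - 0)) =
      ∑ i ∈ range (k + 1), (k.choose i : ℂ) * (a i * b (k - i + 1)) := by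
    have h3 := Finset.sum_range_succ' (fun i => (k.choose i : ℂ) * (a i * b (k + 1 - i))) (k + 1)
    have h4 := Finset.sum_range_succ (fun i => (k.choose i : ℂ) * (a i * b (k + 1 - i))) (k + 1)
    rw [Nat.choose_succ_self, Nat.cast_zero, zero_mul, add_zero] at h4
    rw [Nat.choose_zero_right]
    rw [Nat.choose_zero_right] at h3
    rw [← h3, h4]
    apply Finset.sum_congr rfl
    intro i hi
    rw [Finset.mem_range] at hi
    rw [show k + 1 - i = k - i + 1 by omega]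
  rw [add_assoc, h2, ← Finset.sum_add_distrib]
  apply Finset.sum_congr rfl
  intro i _
  ring

theorem Lk_succ_eq (q : ℕ) (χ : DirichletCharacter ℂ q) (k : ℕ) (s : ℂ) (hs : 1 < s.re) :
    Lk q χ (k + 1) s = ∑ i ∈ range (k + 1), (k.choose i : ℂ) * (Lk q χ i s * Fk q χ (k - i) s) := by
  induction k generalizing s with
  | zero =>
    rw [zero_add, swf_one q χ s hs]
    simp
  | succ k ih =>
    have h1 := Lk_hasDeriv q χ (k + 1) s hs
    have h2 : HasDerivAt (fun z => ∑ i ∈ range (k + 1),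
        (k.choose i : ℂ) * (Lk q χ i z * Fk q χ (k - i) z))
        (∑ i ∈ range (k + 1), (k.choose i : ℂ) *
          (-(Lk q χ (i + 1) s) * Fk q χ (k - i) s + Lk q χ i s * -(Fk q χ (k - i + 1) s))) s := by
      apply HasDerivAt.fun_sum
      intro i _
      exact ((Lk_hasDeriv q χ i s hs).mul (Fk_hasDeriv q χ (k - i) s hs)).const_mul _
    have h3 : (fun z => ∑ i ∈ range (k + 1), (k.choose i : ℂ) * (Lk q χ i z * Fk q χ (k - i) z))
        =ᶠ[nhds s] Lk q χ (k + 1) := by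
      have hopen : IsOpen {z : ℂ | 1 < z.re} := isOpen_lt continuous_const Complex.continuous_re
      filter_upwards [hopen.mem_nhds hs] with z hz
      exact (ih z hz).symm
    have h4 := (h1.congr_of_eventuallyEq h3).unique h2
    have h5 : Lk q χ (k + 1 + 1) s = ∑ i ∈ range (k + 1), (k.choose i : ℂ) *
          (Lk q χ (i + 1) s * Fk q χ (k - i) s + Lk q χ i s * Fk q χ (k - i + 1) s) := by
      rw [← neg_neg (Lk q χ (k + 1 + 1) s), h4, ← Finset.sum_neg_distrib]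
      apply Finset.sum_congr rfl
      intro i _
      ring
    rw [h5]
    exact swf_pascal (fun i => Lk q χ i s) (fun j => Fk q χ j s) k

/-- powers of `1 + log q` -/
private theorem swf_logpow (m : ℕ) (ε : ℝ) (hε : 0 < ε) : ∃ C : ℝ, 0 < C ∧ ∀ q : ℕ, 2 ≤ q →
    (1 + Real.log q) ^ (m + 1) ≤ C * (q : ℝ) ^ ε := by
  set δ : ℝ := ε / (m + 1) with hδ
  have hm : (0 : ℝ) < m + 1 := by positivity
  have hδ0 : 0 < δ := by positivity
  refine ⟨(1 + 1 / δ) ^ (m + 1), by positivity, ?_⟩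
  intro q hq
  have hq1 : (1 : ℝ) ≤ q := by exact_mod_cast (by omega : 1 ≤ q)
  have h1 : Real.log q ≤ (q : ℝ) ^ δ / δ := Real.log_le_rpow_div (by linarith) hδ0
  have h2 : (1 : ℝ) ≤ (q : ℝ) ^ δ := Real.one_le_rpow hq1 hδ0.le
  have h3 : 1 + Real.log q ≤ (1 + 1 / δ) * (q : ℝ) ^ δ := by
    have : (1 + 1 / δ) * (q : ℝ) ^ δ = (q : ℝ) ^ δ + (q : ℝ) ^ δ / δ := by ring
    rw [this]
    linarith
  have h0 : 0 ≤ 1 + Real.log q := by
    have := Real.log_nonneg hq1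
    linarith
  calc (1 + Real.log q) ^ (m + 1) ≤ ((1 + 1 / δ) * (q : ℝ) ^ δ) ^ (m + 1) :=
        pow_le_pow_left₀ h0 h3 _
    _ = (1 + 1 / δ) ^ (m + 1) * (q : ℝ) ^ ε := by
        rw [mul_pow, ← Real.rpow_natCast ((q : ℝ) ^ δ), ← Real.rpow_mul (by linarith)]
        congr 2
        rw [hδ]
        push_cast
        field_simp

private theorem swf_ell (t : ℝ) : 1 ≤ Real.log (|t| + 3) := by
  have h1 : Real.exp 1 ≤ |t| + 3 := by
    have := Real.exp_one_lt_d9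
    have := abs_nonneg t
    linarith
  have h2 : 0 < |t| + 3 := by
    have := abs_nonneg t
    linarith
  rwa [Real.le_log_iff_exp_le h2]

/-- `Lk j` in terms of `q ^ ε` and `log (|t| + 3)` -/
private theorem swf_Lk (j : ℕ) (ε : ℝ) (hε : 0 < ε) : ∃ C : ℝ, 0 < C ∧ ∀ q : ℕ, 2 ≤ q →
    ∀ χ : DirichletCharacter ℂ q, χ ≠ 1 → ∀ s : ℂ, 1 < s.re → s.re ≤ 2 →
      ‖Lk q χ j s‖ ≤ C * (q : ℝ) ^ ε * Real.log (|s.im| + 3) ^ (j + 1) := by
  obtain ⟨C1, hC1, h1⟩ := Lk_le j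
  obtain ⟨C2, hC2, h2⟩ := swf_logpow j ε hε
  refine ⟨C1 * C2, by positivity, ?_⟩
  intro q hq χ hχ s hs hs2
  have hq0 : (0 : ℝ) < q := by exact_mod_cast (by omega : 0 < q)
  have hq1 : (1 : ℝ) ≤ q := by exact_mod_cast (by omega : 1 ≤ q)
  have hlq : 0 ≤ Real.log q := Real.log_nonneg hq1
  have ht := abs_nonneg s.im
  have hell := swf_ell s.im
  have h3 : Real.log (q * (|s.im| + 2)) ≤ (1 + Real.log q) * Real.log (|s.im| + 3) := by
    rw [Real.log_mul hq0.ne' (by linarith)]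
    have h4 : Real.log (|s.im| + 2) ≤ Real.log (|s.im| + 3) :=
      Real.log_le_log (by linarith) (by linarith)
    nlinarith
  have h5 : 0 ≤ Real.log (q * (|s.im| + 2)) := by
    apply Real.log_nonneg
    nlinarith
  calc ‖Lk q χ j s‖ ≤ C1 * Real.log (q * (|s.im| + 2)) ^ (j + 1) := h1 q hq χ hχ s hs hs2
    _ ≤ C1 * ((1 + Real.log q) * Real.log (|s.im| + 3)) ^ (j + 1) := by
        apply mul_le_mul_of_nonneg_left _ hC1.le
        exact pow_le_pow_left₀ h5 h3 _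
    _ = C1 * (1 + Real.log q) ^ (j + 1) * Real.log (|s.im| + 3) ^ (j + 1) := by
        rw [mul_pow]
        ring
    _ ≤ C1 * (C2 * (q : ℝ) ^ ε) * Real.log (|s.im| + 3) ^ (j + 1) := by
        apply mul_le_mul_of_nonneg_right _ (pow_nonneg (by linarith) _)
        exact mul_le_mul_of_nonneg_left (h2 q hq) hC1.le
    _ = C1 * C2 * (q : ℝ) ^ ε * Real.log (|s.im| + 3) ^ (j + 1) := by ring

theorem Fk_le (k : ℕ) (ε : ℝ) (hε : 0 < ε) : ∃ C : ℝ, 0 < C ∧ ∀ q : ℕ, 2 ≤ q →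
    ∀ χ : DirichletCharacter ℂ q, χ.IsPrimitive → ∀ s : ℂ, 1 < s.re → s.re ≤ 2 →
      ‖Fk q χ k s‖ ≤ C * (q : ℝ) ^ ε * Real.log (|s.im| + 3) ^ (20 * (k + 1)) := by
  induction k using Nat.strong_induction_on generalizing ε with
  | _ k ih =>
    set δ : ℝ := ε / 3 with hδ
    have hδ0 : 0 < δ := by positivity
    obtain ⟨c, hc, hlow⟩ := L_low δ hδ0
    have hLK : ∀ j : ℕ, ∃ C : ℝ, 0 < C ∧ ∀ q : ℕ, 2 ≤ q →
      ∀ χ : DirichletCharacter ℂ q, χ ≠ 1 → ∀ s : ℂ, 1 < s.re → s.re ≤ 2 →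
        ‖Lk q χ j s‖ ≤ C * (q : ℝ) ^ δ * Real.log (|s.im| + 3) ^ (j + 1) :=
      fun j => swf_Lk j δ hδ0
    choose B hB0 hB using hLK
    have hFK : ∀ j : ℕ, ∃ C : ℝ, 0 < C ∧ (j < k → ∀ q : ℕ, 2 ≤ q →
      ∀ χ : DirichletCharacter ℂ q, χ.IsPrimitive → ∀ s : ℂ, 1 < s.re → s.re ≤ 2 →
        ‖Fk q χ j s‖ ≤ C * (q : ℝ) ^ δ * Real.log (|s.im| + 3) ^ (20 * (j + 1))) := by
      intro j
      by_cases hj : j < k
      · obtain ⟨C, hC, h⟩ := ih j hj δ hδ0
        exact ⟨C, hC, fun _ => h⟩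
      · exact ⟨1, one_pos, fun h => absurd h hj⟩
    choose A hA0 hA using hFK
    set S : ℝ := B (k + 1) + ∑ i ∈ range k, (k.choose (i + 1) : ℝ) * (B (i + 1) * A (k - (i + 1)))
      with hS
    have hS0 : 0 < S := by
      have : 0 ≤ ∑ i ∈ range k, (k.choose (i + 1) : ℝ) * (B (i + 1) * A (k - (i + 1))) := by
        apply Finset.sum_nonneg
        intro i _
        exact mul_nonneg (Nat.cast_nonneg _) (mul_nonneg (hB0 _).le (hA0 _).le)
      have := hB0 (k + 1)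
      linarith
    refine ⟨S / c, by positivity, ?_⟩
    intro q hq χ hχ s hs hs2
    have : NeZero q := ⟨by omega⟩
    have hχ1 : χ ≠ 1 := by
      rintro rfl
      have h1 : DirichletCharacter.conductor (1 : DirichletCharacter ℂ q) = q := hχ
      rw [DirichletCharacter.conductor_one] at h1
      omega
    have hq0 : (0 : ℝ) < q := by exact_mod_cast (by omega : 0 < q)
    have hq1 : (1 : ℝ) ≤ q := by exact_mod_cast (by omega : 1 ≤ q)
    set l : ℝ := Real.log (|s.im| + 3) with hl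
    have hl1 : 1 ≤ l := swf_ell s.im
    have hl0 : 0 < l := by linarith
    set Q : ℝ := (q : ℝ) ^ δ with hQ
    have hQ1 : 1 ≤ Q := Real.one_le_rpow hq1 hδ0.le
    have hQ0 : 0 < Q := by linarith
    have hQ3 : (q : ℝ) ^ ε = Q ^ 3 := by
      rw [hQ, ← Real.rpow_natCast ((q : ℝ) ^ δ), ← Real.rpow_mul hq0.le]
      congr 1
      rw [hδ]
      push_cast
      ring
    have hlow' := hlow q hq χ hχ s hs hs2
    rw [Real.rpow_neg hq0.le, ← hQ, ← hl] at hlow'
    have hL0pos : 0 < ‖Lk q χ 0 s‖ := lt_of_lt_of_le (by positivity) hlow'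
    -- solve for `Fk k`
    have heq := Lk_succ_eq q χ k s hs
    rw [Finset.sum_range_succ'] at heq
    simp only [Nat.choose_zero_right, Nat.cast_one, one_mul, Nat.sub_zero] at heq
    have hbound : ‖Lk q χ 0 s‖ * ‖Fk q χ k s‖ ≤ S * Q ^ 2 * l ^ (20 * (k + 1) - 9) := by
      rw [← norm_mul]
      have h1 : Lk q χ 0 s * Fk q χ k s = Lk q χ (k + 1) s -
          ∑ i ∈ range k, (k.choose (i + 1) : ℂ) * (Lk q χ (i + 1) s * Fk q χ (k - (i + 1)) s) := by
        rw [heq]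
        ring
      rw [h1]
      have h2 : ‖Lk q χ (k + 1) s‖ ≤ B (k + 1) * Q ^ 2 * l ^ (20 * (k + 1) - 9) := by
        refine (hB (k + 1) q hq χ hχ1 s hs hs2).trans ?_
        have h3 : Q ≤ Q ^ 2 := by nlinarith
        have h4 : l ^ (k + 1 + 1) ≤ l ^ (20 * (k + 1) - 9) := pow_le_pow_right₀ hl1 (by omega)
        have h5 := hB0 (k + 1)
        gcongr
      have h6 : ∀ i ∈ range k, ‖(k.choose (i + 1) : ℂ) *
          (Lk q χ (i + 1) s * Fk q χ (k - (i + 1)) s)‖ ≤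
          ((k.choose (i + 1) : ℝ) * (B (i + 1) * A (k - (i + 1)))) * Q ^ 2 *
            l ^ (20 * (k + 1) - 9) := by
        intro i hi
        rw [Finset.mem_range] at hi
        rw [norm_mul, norm_mul, Complex.norm_natCast]
        have h7 := hB (i + 1) q hq χ hχ1 s hs hs2
        have h8 := hA (k - (i + 1)) (by omega) q hq χ hχ s hs hs2
        rw [← hQ, ← hl] at h7 h8
        have h9 : l ^ (i + 1 + 1) * l ^ (20 * (k - (i + 1) + 1)) ≤ l ^ (20 * (k + 1) - 9) := by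
          rw [← pow_add]
          exact pow_le_pow_right₀ hl1 (by omega)
        have hAk := hA0 (k - (i + 1))
        have hBk := hB0 (i + 1)
        calc (k.choose (i + 1) : ℝ) * (‖Lk q χ (i + 1) s‖ * ‖Fk q χ (k - (i + 1)) s‖)
            ≤ (k.choose (i + 1) : ℝ) * ((B (i + 1) * Q * l ^ (i + 1 + 1)) *
                (A (k - (i + 1)) * Q * l ^ (20 * (k - (i + 1) + 1)))) := by
              apply mul_le_mul_of_nonneg_left _ (Nat.cast_nonneg _)
              exact mul_le_mul h7 h8 (norm_nonneg _) (by positivity)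
          _ = (k.choose (i + 1) : ℝ) * (B (i + 1) * A (k - (i + 1))) * Q ^ 2 *
                (l ^ (i + 1 + 1) * l ^ (20 * (k - (i + 1) + 1))) := by ring
          _ ≤ _ := by
              apply mul_le_mul_of_nonneg_left h9
              positivity
      calc ‖Lk q χ (k + 1) s - ∑ i ∈ range k, (k.choose (i + 1) : ℂ) *
            (Lk q χ (i + 1) s * Fk q χ (k - (i + 1)) s)‖
          ≤ ‖Lk q χ (k + 1) s‖ + ‖∑ i ∈ range k, (k.choose (i + 1) : ℂ) *
            (Lk q χ (i + 1) s * Fk q χ (k - (i + 1)) s)‖ := norm_sub_le _ _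
        _ ≤ B (k + 1) * Q ^ 2 * l ^ (20 * (k + 1) - 9) +
            ∑ i ∈ range k, ((k.choose (i + 1) : ℝ) * (B (i + 1) * A (k - (i + 1)))) * Q ^ 2 *
            l ^ (20 * (k + 1) - 9) := by
            apply add_le_add h2
            exact (norm_sum_le _ _).trans (Finset.sum_le_sum h6)
        _ = S * Q ^ 2 * l ^ (20 * (k + 1) - 9) := by
            rw [hS, ← Finset.sum_mul, ← Finset.sum_mul]
            ring
    have hfin : c * Q⁻¹ / l ^ 9 * ‖Fk q χ k s‖ ≤ S * Q ^ 2 * l ^ (20 * (k + 1) - 9) :=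
      (mul_le_mul_of_nonneg_right hlow' (norm_nonneg _)).trans hbound
    have hpw : l ^ (20 * (k + 1)) = l ^ (20 * (k + 1) - 9) * l ^ 9 := by
      have h11 : 20 * (k + 1) - 9 + 9 = 20 * (k + 1) := by omega
      rw [← pow_add, h11]
    rw [hQ3, hpw]
    have h10 : ‖Fk q χ k s‖ = (c * Q⁻¹ / l ^ 9 * ‖Fk q χ k s‖) * (Q * l ^ 9 / c) := by
      field_simp
    rw [h10]
    calc (c * Q⁻¹ / l ^ 9 * ‖Fk q χ k s‖) * (Q * l ^ 9 / c)
        ≤ (S * Q ^ 2 * l ^ (20 * (k + 1) - 9)) * (Q * l ^ 9 / c) :=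
          mul_le_mul_of_nonneg_right hfin (by positivity)
      _ = S / c * Q ^ 3 * (l ^ (20 * (k + 1) - 9) * l ^ 9) := by ring

end Pool.Agent.H91.EHA

end
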