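import Pool.Agent.H43.PJ.M05
import Pool.Agent.H43.PJ.M06
import Pool.Agent.H43.PJ.M17

/-! The parts of this file: H91.EHA.SwJ1, H91.EHA.SwJ3. -/

section

/-!
# The series of `(Λ(n) - 1)(log n)^k` for `|Im s| ≥ 1`

`Fk 1 1 k` by the recursion of SwF (`Lk_succ_eq` with `q = 1`), `zeta_lower`, `zeta_k_le`;
the series is `Fk 1 1 k - Lk 1 1 k`.
-/

set_option autoImplicit false

namespace Pool.Agent.H91.EHA

open Finset

/-- `log (t + 3) ≥ 1` for `t ≥ 0`. -/
theorem swJ1_log_ge (t : ℝ) (ht : 0 ≤ t) : 1 ≤ Real.log (t + 3) := by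
  rw [Real.le_log_iff_exp_le (by linarith)]
  have := Real.exp_one_lt_d9
  linarith

theorem swJ1_Lk (k : ℕ) : ∃ C : ℝ, 0 < C ∧ ∀ s : ℂ, 1 < s.re → s.re ≤ 2 → 1 ≤ |s.im| →
    ‖Lk 1 1 k s‖ ≤ C * Real.log (|s.im| + 3) ^ (k + 1) := by
  obtain ⟨C, hC, h⟩ := zeta_k_le k
  refine ⟨C, hC, fun s h1 h2 h3 => (h s h1 h2 h3).trans ?_⟩
  apply mul_le_mul_of_nonneg_left _ hC.le
  apply pow_le_pow_left₀
  · apply Real.log_nonneg
    linarith [abs_nonneg s.im]
  · apply Real.log_le_log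
    · linarith [abs_nonneg s.im]
    · linarith

theorem swJ1_Fk (k : ℕ) : ∃ C : ℝ, 0 < C ∧ ∀ s : ℂ, 1 < s.re → s.re ≤ 2 → 1 ≤ |s.im| →
    ‖Fk 1 1 k s‖ ≤ C * Real.log (|s.im| + 3) ^ (20 * (k + 1)) := by
  induction k using Nat.strong_induction_on with
  | _ k ih =>
    obtain ⟨c, hc, hlow⟩ := zeta_lower
    choose A hA hLk using swJ1_Lk
    have ih' : ∀ j : ℕ, ∃ C : ℝ, 0 < C ∧ (j < k → ∀ s : ℂ, 1 < s.re → s.re ≤ 2 → 1 ≤ |s.im| →
        ‖Fk 1 1 j s‖ ≤ C * Real.log (|s.im| + 3) ^ (20 * (j + 1))) := by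
      intro j
      by_cases hj : j < k
      · obtain ⟨C, hC, h⟩ := ih j hj
        exact ⟨C, hC, fun _ => h⟩
      · exact ⟨1, one_pos, fun h => absurd h hj⟩
    choose B hB hFk using ih'
    set S : ℝ := A (k + 1) + ∑ i ∈ range k, (k.choose (i + 1) : ℝ) * (A (i + 1) * B (k - (i + 1)))
      with hS
    have hSpos : 0 < S := by
      have : 0 ≤ ∑ i ∈ range k, (k.choose (i + 1) : ℝ) * (A (i + 1) * B (k - (i + 1))) :=
        Finset.sum_nonneg (fun i _ => mul_nonneg (Nat.cast_nonneg _)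
          (mul_nonneg (hA _).le (hB _).le))
      linarith [hA (k + 1)]
    refine ⟨S / c, div_pos hSpos hc, fun s h1 h2 h3 => ?_⟩
    set ℓ := Real.log (|s.im| + 3) with hℓ
    have hℓ1 : 1 ≤ ℓ := swJ1_log_ge _ (abs_nonneg _)
    have hℓ0 : 0 < ℓ := by linarith
    have hlow' : c / ℓ ^ 9 ≤ ‖Lk 1 1 0 s‖ := by
      refine le_trans ?_ (hlow s h1 h2 h3)
      apply div_le_div_of_nonneg_left hc.le
      · apply pow_pos
        apply Real.log_pos
        linarith
      · apply pow_le_pow_left₀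
        · apply Real.log_nonneg
          linarith
        · apply Real.log_le_log
          · linarith
          · linarith
    have hLpos : 0 < ‖Lk 1 1 0 s‖ := lt_of_lt_of_le (by positivity) hlow'
    have hrec := Lk_succ_eq 1 1 k s h1
    rw [Finset.sum_range_succ'] at hrec
    simp only [Nat.choose_zero_right, Nat.cast_one, one_mul, Nat.sub_zero] at hrec
    have hnorm : ‖Lk 1 1 0 s‖ * ‖Fk 1 1 k s‖ ≤ S * ℓ ^ (20 * (k + 1) - 9) := by
      rw [← norm_mul]
      have e : Lk 1 1 0 s * Fk 1 1 k s = Lk 1 1 (k + 1) s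
          - ∑ i ∈ range k, (k.choose (i + 1) : ℂ) * (Lk 1 1 (i + 1) s * Fk 1 1 (k - (i + 1)) s) := by
        rw [hrec]; ring
      rw [e]
      refine (norm_sub_le _ _).trans ?_
      rw [hS, add_mul]
      apply add_le_add
      · refine (hLk (k + 1) s h1 h2 h3).trans ?_
        apply mul_le_mul_of_nonneg_left _ (hA _).le
        exact pow_le_pow_right₀ hℓ1 (by omega)
      · refine (norm_sum_le _ _).trans ?_
        rw [Finset.sum_mul]
        apply Finset.sum_le_sum
        intro i hi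
        have hik : i < k := Finset.mem_range.mp hi
        rw [norm_mul, norm_mul, Complex.norm_natCast, mul_assoc]
        apply mul_le_mul_of_nonneg_left _ (Nat.cast_nonneg _)
        have g1 := hLk (i + 1) s h1 h2 h3
        have g2 := hFk (k - (i + 1)) (by omega) s h1 h2 h3
        calc ‖Lk 1 1 (i + 1) s‖ * ‖Fk 1 1 (k - (i + 1)) s‖
            ≤ (A (i + 1) * ℓ ^ (i + 1 + 1)) *
              (B (k - (i + 1)) * ℓ ^ (20 * (k - (i + 1) + 1))) :=
              mul_le_mul g1 g2 (norm_nonneg _) (by have := hA (i + 1); positivity)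
          _ = (A (i + 1) * B (k - (i + 1))) * ℓ ^ ((i + 1 + 1) + 20 * (k - (i + 1) + 1)) := by
              rw [pow_add]; ring
          _ ≤ (A (i + 1) * B (k - (i + 1))) * ℓ ^ (20 * (k + 1) - 9) := by
              apply mul_le_mul_of_nonneg_left _ (mul_nonneg (hA _).le (hB _).le)
              exact pow_le_pow_right₀ hℓ1 (by omega)
    have h4 : c / ℓ ^ 9 * ‖Fk 1 1 k s‖ ≤ S * ℓ ^ (20 * (k + 1) - 9) :=
      (mul_le_mul_of_nonneg_right hlow' (norm_nonneg _)).trans hnorm
    have h5 : ‖Fk 1 1 k s‖ ≤ (S * ℓ ^ (20 * (k + 1) - 9)) / (c / ℓ ^ 9) := by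
      rw [le_div_iff₀ (by positivity)]
      linarith [mul_comm (c / ℓ ^ 9) ‖Fk 1 1 k s‖]
    refine h5.trans (le_of_eq ?_)
    have h6 : 20 * (k + 1) = (20 * (k + 1) - 9) + 9 := by omega
    conv_rhs => rw [h6, pow_add]
    field_simp

theorem zetaF_high (k : ℕ) : ∃ C : ℝ, 0 < C ∧ ∀ s : ℂ, 1 < s.re → s.re ≤ 2 → 1 ≤ |s.im| →
    ‖LSeries (fun n => (((Lam n - 1) * Real.log n ^ k : ℝ) : ℂ)) s‖
      ≤ C * Real.log (|s.im| + 3) ^ (20 * (k + 1)) := by
  obtain ⟨C1, hC1, h1⟩ := swJ1_Fk k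
  obtain ⟨C2, hC2, h2⟩ := swJ1_Lk k
  refine ⟨C1 + C2, add_pos hC1 hC2, fun s hs1 hs2 hs3 => ?_⟩
  have hχ : ∀ n : ℕ, (1 : DirichletCharacter ℂ 1) (n : ZMod 1) = 1 := by
    intro n
    have : (n : ZMod 1) = 1 := Subsingleton.elim _ _
    rw [this, map_one]
  have e : (fun n : ℕ => (((Lam n - 1) * Real.log n ^ k : ℝ) : ℂ)) =
      (fun n : ℕ => ((Lam n * Real.log n ^ k : ℝ) : ℂ) * (1 : DirichletCharacter ℂ 1) (n : ZMod 1))
      - (fun n : ℕ => ((Real.log n : ℝ) : ℂ) ^ k * (1 : DirichletCharacter ℂ 1) (n : ZMod 1)) := by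
    funext n
    simp only [Pi.sub_apply, hχ, mul_one]
    push_cast
    ring
  have e2 : LSeries (fun n => (((Lam n - 1) * Real.log n ^ k : ℝ) : ℂ)) s
      = Fk 1 1 k s - Lk 1 1 k s := by
    rw [e]
    exact LSeries_sub (Fk_summable 1 1 k s hs1) (Lk_summable 1 1 k s hs1)
  rw [e2]
  refine (norm_sub_le _ _).trans ?_
  rw [add_mul]
  apply add_le_add (h1 s hs1 hs2 hs3)
  refine (h2 s hs1 hs2 hs3).trans ?_
  apply mul_le_mul_of_nonneg_left _ hC2.le
  exact pow_le_pow_right₀ (swJ1_log_ge _ (abs_nonneg _)) (by omega)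

end Pool.Agent.H91.EHA

end

section

/-!
# The prime number theorem with log-power saving

Same argument as in SwI with `a_n = (Λ(n) - 1)(log n)^k`.
-/

set_option autoImplicit false

namespace Pool.Agent.H91.EHA

open Finset
open Pool.Agent.H91.PK

/-- Abel's inequality. -/
theorem swj3_abel (a g : ℕ → ℝ) (M : ℝ) (n : ℕ) (hg : Antitone g) (hg0 : ∀ i, 0 ≤ g i)
    (hM : ∀ j, j ≤ n → |∑ i ∈ range j, a i| ≤ M) :
    |∑ i ∈ range n, g i * a i| ≤ M * g 0 := by
  have hM0 : 0 ≤ M := by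
    have := hM 0 (Nat.zero_le _)
    simpa using this
  rcases Nat.eq_zero_or_pos n with rfl | hn
  · simp only [Finset.range_zero, Finset.sum_empty, abs_zero]
    exact mul_nonneg hM0 (hg0 0)
  have h1 := Finset.sum_range_by_parts (M := ℝ) g a n
  simp only [smul_eq_mul] at h1
  rw [h1]
  have h2 : |g (n - 1) * ∑ i ∈ range n, a i| ≤ M * g (n - 1) := by
    rw [abs_mul, abs_of_nonneg (hg0 _), mul_comm]
    exact mul_le_mul_of_nonneg_right (hM n le_rfl) (hg0 _)
  have h3 : |∑ i ∈ range (n - 1), (g (i + 1) - g i) * ∑ j ∈ range (i + 1), a j|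
      ≤ ∑ i ∈ range (n - 1), M * (g i - g (i + 1)) := by
    refine (Finset.abs_sum_le_sum_abs _ _).trans (Finset.sum_le_sum fun i hi => ?_)
    have hi' := Finset.mem_range.mp hi
    have h4 : 0 ≤ g i - g (i + 1) := sub_nonneg.mpr (hg (Nat.le_succ i))
    rw [abs_mul, abs_sub_comm, abs_of_nonneg h4, mul_comm]
    exact mul_le_mul_of_nonneg_right (hM (i + 1) (by omega)) h4
  have h5 : ∑ i ∈ range (n - 1), M * (g i - g (i + 1)) = M * (g 0 - g (n - 1)) := by
    rw [← Finset.mul_sum, Finset.sum_range_sub']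
  calc |g (n - 1) * ∑ i ∈ range n, a i
        - ∑ i ∈ range (n - 1), (g (i + 1) - g i) * ∑ j ∈ range (i + 1), a j|
      ≤ |g (n - 1) * ∑ i ∈ range n, a i|
        + |∑ i ∈ range (n - 1), (g (i + 1) - g i) * ∑ j ∈ range (i + 1), a j| := abs_sub _ _
    _ ≤ M * g (n - 1) + M * (g 0 - g (n - 1)) := add_le_add h2 (h3.trans h5.le)
    _ = M * g 0 := by ring

theorem swj3_Lam_nonneg (n : ℕ) : 0 ≤ Lam n := ArithmeticFunction.vonMangoldt_nonneg

theorem swj3_Lam_le (n : ℕ) : Lam n ≤ Real.log n := ArithmeticFunction.vonMangoldt_le_log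

theorem swj3_log_nonneg (n : ℕ) : 0 ≤ Real.log (n : ℝ) := Real.log_natCast_nonneg n

theorem swj3_a_le (k n : ℕ) :
    |(Lam n - 1) * Real.log n ^ k| ≤ (Real.log n + 1) ^ (k + 1) := by
  have h0 := swj3_log_nonneg n
  have h1 := swj3_Lam_nonneg n
  have h2 := swj3_Lam_le n
  have h3 : |Lam n - 1| ≤ Real.log n + 1 := by
    rw [abs_le]; constructor <;> linarith
  rw [abs_mul, abs_of_nonneg (pow_nonneg h0 k), pow_succ, mul_comm]
  refine mul_le_mul ?_ h3 (abs_nonneg _) (by positivity)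
  exact pow_le_pow_left₀ h0 (by linarith) k

/-- summability of the Dirichlet series -/
theorem swj3_summable (k : ℕ) (s : ℂ) (hs : 1 < s.re) :
    LSeriesSummable (fun n => (((Lam n - 1) * Real.log n ^ k : ℝ) : ℂ)) s := by
  set ε : ℝ := (s.re - 1) / 2 with hε
  have hε0 : 0 < ε := by rw [hε]; linarith
  set η : ℝ := ε / (k + 1) with hη
  have hη0 : 0 < η := by positivity
  refine LSeriesSummable_of_le_const_mul_rpow (x := 1 + ε) (by rw [hε]; linarith)
    ⟨(1 / η + 1) ^ (k + 1), fun n hn => ?_⟩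
  have hn1 : (1 : ℝ) ≤ n := by exact_mod_cast Nat.one_le_iff_ne_zero.mpr hn
  rw [Complex.norm_real, Real.norm_eq_abs]
  refine (swj3_a_le k n).trans ?_
  have h1 : Real.log n + 1 ≤ (1 / η + 1) * (n : ℝ) ^ η := by
    have h2 := Real.log_le_rpow_div (by positivity : (0 : ℝ) ≤ n) hη0
    have h3 : (1 : ℝ) ≤ (n : ℝ) ^ η := Real.one_le_rpow hn1 hη0.le
    have h4 : (n : ℝ) ^ η / η = 1 / η * (n : ℝ) ^ η := by ring
    rw [h4] at h2
    linarith
  have h5 : (n : ℝ) ^ (1 + ε - 1) = ((n : ℝ) ^ η) ^ (k + 1) := by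
    rw [← Real.rpow_natCast, ← Real.rpow_mul (by positivity)]
    congr 1
    rw [hη]
    push_cast
    field_simp
    ring
  rw [h5, ← mul_pow]
  refine pow_le_pow_left₀ ?_ h1 _
  have := swj3_log_nonneg n
  linarith

/-- the smooth sums -/
theorem swj3_smooth (k : ℕ) : ∃ C : ℝ, 0 < C ∧ ∀ N : ℕ, 1 ≤ N →
    ‖∑ n ∈ Icc 1 N, (((Lam n - 1) * Real.log n ^ k : ℝ) : ℂ) * ((om ((n : ℝ) / N) : ℝ) : ℂ)‖
      ≤ C * N := by
  obtain ⟨C₁, hC₁, h₁⟩ := zetaF_high k
  obtain ⟨C₂, hC₂, h₂⟩ := zetaF_low k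
  obtain ⟨C₃, hC₃, h₃⟩ := smooth_gen (20 * (k + 1))
  have hB0 : 0 < max C₁ C₂ := lt_max_of_lt_left hC₁
  refine ⟨C₃ * max C₁ C₂, by positivity, fun N hN => ?_⟩
  rcases Nat.lt_or_ge 1 N with h2 | h2
  · refine h₃ _ (max C₁ C₂) hB0.le (fun s hs1 hs2 => ⟨swj3_summable k s hs1, ?_⟩) N h2
    have hl1 : 1 ≤ Real.log (|s.im| + 3) := by
      rw [Real.le_log_iff_exp_le (by positivity)]
      have := Real.exp_one_lt_d9
      have := abs_nonneg s.im
      linarith
    have hl2 : 1 ≤ Real.log (|s.im| + 3) ^ (20 * (k + 1)) := one_le_pow₀ hl1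
    rcases le_total 1 |s.im| with h | h
    · refine (h₁ s hs1 hs2 h).trans ?_
      exact mul_le_mul_of_nonneg_right (le_max_left _ _) (by positivity)
    · refine (h₂ s hs1 hs2 h).trans ?_
      calc C₂ ≤ max C₁ C₂ := le_max_right _ _
        _ = max C₁ C₂ * 1 := (mul_one _).symm
        _ ≤ _ := mul_le_mul_of_nonneg_left hl2 hB0.le
  · have : N = 1 := by omega
    subst this
    have ho : om 1 = 0 := om_eq_zero le_rfl
    simp only [Finset.Icc_self, Finset.sum_singleton, Nat.cast_one, div_one, ho,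
      Complex.ofReal_zero, mul_zero, norm_zero, mul_one]
    positivity

/-- sharp sums with weights -/
theorem swj3_sharp (k : ℕ) : ∃ C : ℝ, 0 < C ∧ ∀ (m y : ℕ), 1 ≤ m → 3 ≤ y → ∀ z : ℕ, z ≤ y →
    |∑ n ∈ Icc 1 z, (Lam n - 1) * Real.log n ^ k| ≤
      C * (y * Real.log y ^ (3 * m) + Real.log y ^ (k + 1) * (y / Real.log y ^ m) +
        Real.log y ^ (k + 1) * Real.log y ^ (3 * m)) := by
  obtain ⟨C₁, hC₁, h₁⟩ := swj3_smooth k
  obtain ⟨C₂, hC₂, h₂⟩ := smooth_to_sharp
  refine ⟨1 + C₂ * (18 * C₁ + 9 * 3 ^ (k + 1)), by positivity, fun m y hm hy z hz => ?_⟩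
  have hy' : (3 : ℝ) ≤ y := by exact_mod_cast hy
  set L : ℝ := Real.log y with hL
  have hL1 : 1 ≤ L := by
    rw [hL, Real.le_log_iff_exp_le (by linarith)]
    have := Real.exp_one_lt_d9
    linarith
  have hL0 : 0 < L := by linarith
  have hRHS1 : 1 ≤ L ^ (3 * m) := one_le_pow₀ hL1
  have hLm : 1 ≤ L ^ m := one_le_pow₀ hL1
  have hLm' : L ≤ L ^ (3 * m) := by
    calc L = L ^ 1 := (pow_one L).symm
      _ ≤ L ^ (3 * m) := pow_le_pow_right₀ hL1 (by omega)
  have hR0 : 0 ≤ y * L ^ (3 * m) + L ^ (k + 1) * (y / L ^ m) + L ^ (k + 1) * L ^ (3 * m) := by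
    positivity
  rcases Nat.lt_or_ge z 2 with hz2 | hz2
  · -- z = 0 or z = 1
    have h5 : |∑ n ∈ Icc 1 z, (Lam n - 1) * Real.log n ^ k| ≤ 1 := by
      interval_cases z
      · simp
      · simp only [Finset.Icc_self, Finset.sum_singleton, Nat.cast_one, Real.log_one]
        have hl : Lam 1 = 0 := by simp [Lam]
        rw [hl]
        rcases Nat.eq_zero_or_pos k with rfl | hk
        · simp
        · rw [zero_pow (by omega)]; simp
    refine h5.trans ?_
    have h6 : 1 ≤ y * L ^ (3 * m) + L ^ (k + 1) * (y / L ^ m) + L ^ (k + 1) * L ^ (3 * m) := by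
      have h7 : 1 ≤ (y : ℝ) * L ^ (3 * m) := by nlinarith
      have h8 : 0 ≤ L ^ (k + 1) * (y / L ^ m) := by positivity
      have h9 : 0 ≤ L ^ (k + 1) * L ^ (3 * m) := by positivity
      linarith
    have h7 : 1 ≤ 1 + C₂ * (18 * C₁ + 9 * 3 ^ (k + 1)) := by
      have : 0 ≤ C₂ * (18 * C₁ + 9 * 3 ^ (k + 1)) := by positivity
      linarith
    nlinarith
  · have hzy : (z : ℝ) ≤ y := by exact_mod_cast hz
    have hz0 : (2 : ℝ) ≤ z := by exact_mod_cast hz2
    set δ : ℝ := 1 / (2 * L ^ m) with hδ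
    have hδ0 : 0 < δ := by positivity
    have hδ1 : δ ≤ 1 / 2 := by
      rw [hδ, div_le_div_iff₀ (by positivity) (by norm_num)]
      linarith
    have h3L : Real.log (2 * z) + 1 ≤ 3 * L := by
      have e1 : Real.log (2 * z) = Real.log 2 + Real.log z :=
        Real.log_mul (by norm_num) (by linarith)
      have e2 : Real.log z ≤ L := Real.log_le_log (by linarith) hzy
      have e3 : Real.log 2 ≤ 1 := by
        have := Real.log_two_lt_d9
        linarith
      linarith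
    have hlz0 : 0 ≤ Real.log (2 * z) := Real.log_nonneg (by linarith)
    have hlz : Real.log z ≤ L := Real.log_le_log (by linarith) hzy
    have key := h₂ (fun n => (((Lam n - 1) * Real.log n ^ k : ℝ) : ℂ)) (C₁ * (2 * z))
      ((3 * L) ^ (k + 1)) 1 z δ (by positivity) (by positivity) le_rfl hz2 hδ0 hδ1 ?_ ?_
    · have e1 : ‖∑ n ∈ Icc 1 z, (((Lam n - 1) * Real.log n ^ k : ℝ) : ℂ)‖ =
          |∑ n ∈ Icc 1 z, (Lam n - 1) * Real.log n ^ k| := by
        rw [← Complex.ofReal_sum, Complex.norm_real, Real.norm_eq_abs]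
      rw [e1] at key
      refine key.trans ?_
      have e3 : 1 / δ ^ 3 = 8 * L ^ (3 * m) := by
        rw [hδ]
        field_simp
        ring
      have e4 : δ * z ≤ y / L ^ m := by
        rw [hδ, div_mul_eq_mul_div, one_mul]
        refine div_le_div₀ (by positivity) hzy (by positivity) ?_
        linarith
      rw [e3]
      have p1 : C₁ * (2 * z) * (8 * L ^ (3 * m) + Real.log z) ≤ 18 * C₁ * (y * L ^ (3 * m)) := by
        have q1 : 8 * L ^ (3 * m) + Real.log z ≤ 9 * L ^ (3 * m) := by linarith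
        calc C₁ * (2 * z) * (8 * L ^ (3 * m) + Real.log z)
            ≤ C₁ * (2 * y) * (9 * L ^ (3 * m)) := by
              refine mul_le_mul ?_ q1 ?_ (by positivity)
              · exact mul_le_mul_of_nonneg_left (by linarith) hC₁.le
              · have : 0 ≤ Real.log z := Real.log_nonneg (by linarith)
                positivity
          _ = 18 * C₁ * (y * L ^ (3 * m)) := by ring
      have p2 : (3 * L) ^ (k + 1) * (δ * z + Real.log z + 1 * (8 * L ^ (3 * m)))
          ≤ 9 * 3 ^ (k + 1) * (L ^ (k + 1) * (y / L ^ m) + L ^ (k + 1) * L ^ (3 * m)) := by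
        have q0 : 0 ≤ (y : ℝ) / L ^ m := by positivity
        have q1 : δ * z + Real.log z + 1 * (8 * L ^ (3 * m)) ≤
            9 * (y / L ^ m) + 9 * L ^ (3 * m) := by linarith
        calc (3 * L) ^ (k + 1) * (δ * z + Real.log z + 1 * (8 * L ^ (3 * m)))
            ≤ (3 * L) ^ (k + 1) * (9 * (y / L ^ m) + 9 * L ^ (3 * m)) :=
              mul_le_mul_of_nonneg_left q1 (by positivity)
          _ = _ := by rw [mul_pow]; ring
      have e5 : (1 : ℝ) / δ ^ 3 = 1 * (8 * L ^ (3 * m)) := by rw [e3]; ring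
      have t1 : 0 ≤ (y : ℝ) * L ^ (3 * m) := by positivity
      have t2 : 0 ≤ L ^ (k + 1) * (y / L ^ m) := by positivity
      have t3 : 0 ≤ L ^ (k + 1) * L ^ (3 * m) := by positivity
      have t4 : 0 ≤ 9 * (3 : ℝ) ^ (k + 1) := by positivity
      have p3 : C₁ * (2 * z) * (8 * L ^ (3 * m) + Real.log z) +
          (3 * L) ^ (k + 1) * (δ * z + Real.log z + 8 * L ^ (3 * m)) ≤
          (18 * C₁ + 9 * 3 ^ (k + 1)) *
            (y * L ^ (3 * m) + L ^ (k + 1) * (y / L ^ m) + L ^ (k + 1) * L ^ (3 * m)) := by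
        rw [one_mul] at p2
        nlinarith [mul_nonneg hC₁.le t2, mul_nonneg hC₁.le t3, mul_nonneg t4 t1]
      calc C₂ * (C₁ * (2 * z) * (8 * L ^ (3 * m) + Real.log z) +
          (3 * L) ^ (k + 1) * (δ * z + Real.log z + 8 * L ^ (3 * m)))
          ≤ C₂ * ((18 * C₁ + 9 * 3 ^ (k + 1)) *
            (y * L ^ (3 * m) + L ^ (k + 1) * (y / L ^ m) + L ^ (k + 1) * L ^ (3 * m))) :=
            mul_le_mul_of_nonneg_left p3 hC₂.le
        _ ≤ (1 + C₂ * (18 * C₁ + 9 * 3 ^ (k + 1))) *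
            (y * L ^ (3 * m) + L ^ (k + 1) * (y / L ^ m) + L ^ (k + 1) * L ^ (3 * m)) := by
            linarith
    · intro N hN1 hN2
      refine (h₁ N hN1).trans ?_
      refine mul_le_mul_of_nonneg_left ?_ hC₁.le
      exact_mod_cast hN2
    · intro u v huv hv
      have hterm : ∀ n ∈ Ioc u v, ‖(((Lam n - 1) * Real.log n ^ k : ℝ) : ℂ)‖ ≤ (3 * L) ^ (k + 1) := by
        intro n hn
        have hn' := Finset.mem_Ioc.mp hn
        rw [Complex.norm_real, Real.norm_eq_abs]
        refine (swj3_a_le k n).trans (pow_le_pow_left₀ ?_ ?_ _)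
        · have := swj3_log_nonneg n
          linarith
        · have hn1 : (0 : ℝ) < n := by
            have : 0 < n := by omega
            exact_mod_cast this
          have hn2 : (n : ℝ) ≤ 2 * z := by
            have : n ≤ 2 * z := by omega
            exact_mod_cast this
          have := Real.log_le_log hn1 hn2
          linarith
      refine (Finset.sum_le_sum hterm).trans ?_
      rw [Finset.sum_const, nsmul_eq_mul, Nat.card_Ioc, mul_comm, Nat.cast_sub huv]
      refine mul_le_mul_of_nonneg_left ?_ (by positivity)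
      linarith

theorem swj3_pow_le (n : ℕ) (x : ℝ) (hx : 0 ≤ x) : x ^ n ≤ (n.factorial : ℝ) * Real.exp x := by
  have h := Real.pow_div_factorial_le_exp x hx n
  rw [div_le_iff₀ (by exact_mod_cast n.factorial_pos)] at h
  linarith

theorem pnt (c : ℕ) : ∃ C : ℝ, 0 < C ∧ ∀ y : ℕ, 2 ≤ y →
    |(∑ n ∈ Icc 1 y, Lam n) - y| ≤ C * y / Real.log y ^ c := by
  set m : ℕ := c + 1 with hm
  set k : ℕ := 3 * m + c with hk
  obtain ⟨C₀, hC₀, h₀⟩ := swj3_sharp k
  set F₁ : ℝ := ((1 + 3 * m + c).factorial : ℝ) with hF₁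
  set F₂ : ℝ := ((c + 1).factorial : ℝ) with hF₂
  have hF₁0 : 0 < F₁ := by rw [hF₁]; exact_mod_cast Nat.factorial_pos _
  have hF₂0 : 0 < F₂ := by rw [hF₂]; exact_mod_cast Nat.factorial_pos _
  refine ⟨2 + 2 * (2 * C₀) * 2 ^ k * (2 + F₁) + 2 * (2 ^ (c + 1) * F₂), by positivity,
    fun y hy => ?_⟩
  have hyR : (2 : ℝ) ≤ y := by exact_mod_cast hy
  have hrew : (∑ n ∈ Icc 1 y, Lam n) - y = ∑ n ∈ Icc 1 y, (Lam n - 1) := by
    rw [Finset.sum_sub_distrib]
    simp
  rw [hrew]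
  rcases Nat.lt_or_ge y 3 with hy3 | hy3
  · have hy2 : y = 2 := by omega
    subst hy2
    have e1 : Icc 1 2 = {1, 2} := by decide
    have hl1 : Lam 1 = 0 := by simp [Lam]
    have hl2 := swj3_Lam_le 2
    have hl2' := swj3_Lam_nonneg 2
    have hlog := Real.log_two_lt_d9
    have hlog0 : 0 < Real.log 2 := Real.log_pos (by norm_num)
    rw [e1, Finset.sum_pair (by norm_num), hl1]
    push_cast at hl2
    have h3 : |0 - 1 + (Lam 2 - 1)| ≤ 2 := by
      rw [abs_le]; constructor <;> linarith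
    refine h3.trans ?_
    push_cast
    have hp : Real.log 2 ^ c ≤ 1 := pow_le_one₀ hlog0.le (by linarith)
    have hp0 : 0 < Real.log 2 ^ c := by positivity
    rw [le_div_iff₀ hp0]
    have hbig : 0 ≤ 2 * (2 * C₀) * 2 ^ k * (2 + F₁) + 2 * (2 ^ (c + 1) * F₂) := by positivity
    nlinarith
  · have hy3' : (3 : ℝ) ≤ y := by exact_mod_cast hy3
    obtain ⟨L, hL⟩ : ∃ L : ℝ, L = Real.log y := ⟨_, rfl⟩
    have hL1 : 1 ≤ L := by
      rw [hL, Real.le_log_iff_exp_le (by linarith)]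
      have := Real.exp_one_lt_d9
      linarith
    have hL0 : 0 < L := by linarith
    have hexp : Real.exp L = y := by rw [hL, Real.exp_log (by linarith)]
    rw [← hL]
    set w : ℕ := Nat.sqrt y with hw
    have hwy : w ≤ y := Nat.sqrt_le_self y
    have hw1 : 1 ≤ w := by
      rw [hw, Nat.one_le_iff_ne_zero]
      intro h
      rw [Nat.sqrt_eq_zero] at h
      omega
    have hww : w * w ≤ y := Nat.sqrt_le y
    have hww' : y < (w + 1) * (w + 1) := Nat.lt_succ_sqrt y
    -- log (w+1) ≥ L/2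
    have hlw : L / 2 ≤ Real.log ((w : ℝ) + 1) := by
      have h1 : (y : ℝ) ≤ ((w : ℝ) + 1) * ((w : ℝ) + 1) := by exact_mod_cast hww'.le
      have h2 := Real.log_le_log (by linarith) h1
      rw [Real.log_mul (by positivity) (by positivity), ← hL] at h2
      linarith
    -- w ≤ exp (L/2)
    have hwe : (w : ℝ) ≤ Real.exp (L / 2) := by
      have h1 : (w : ℝ) * w ≤ y := by exact_mod_cast hww
      have h2 : Real.exp (L / 2) * Real.exp (L / 2) = y := by
        rw [← Real.exp_add, ← hexp]; congr 1; ring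
      rw [← h2] at h1
      exact le_of_not_gt fun h9 => absurd h1 (not_le.mpr (mul_self_lt_mul_self (Real.exp_pos _).le h9))
    -- split
    have hsplit : ∑ n ∈ Icc 1 y, (Lam n - 1) =
        ∑ n ∈ Icc 1 w, (Lam n - 1) + ∑ i ∈ range (y - w), (Lam (w + 1 + i) - 1) := by
      have e1 : Icc 1 y = Icc 1 w ∪ Ico (w + 1) (y + 1) := by
        ext n
        simp only [Finset.mem_Icc, Finset.mem_union, Finset.mem_Ico]
        omega
      rw [e1, Finset.sum_union, Finset.sum_Ico_eq_sum_range]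
      · have : y + 1 - (w + 1) = y - w := by omega
        rw [this]
      · rw [Finset.disjoint_left]
        intro n hn hn'
        rw [Finset.mem_Icc] at hn
        rw [Finset.mem_Ico] at hn'
        omega
    -- first part
    have hpart1 : |∑ n ∈ Icc 1 w, (Lam n - 1)| ≤ 2 * (2 ^ (c + 1) * F₂) * y / L ^ c := by
      have h1 : |∑ n ∈ Icc 1 w, (Lam n - 1)| ≤ w * (2 * L) := by
        refine (Finset.abs_sum_le_sum_abs _ _).trans ?_
        have h2 : ∀ n ∈ Icc 1 w, |Lam n - 1| ≤ 2 * L := by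
          intro n hn
          have hn' := Finset.mem_Icc.mp hn
          have h3 := swj3_Lam_nonneg n
          have h4 := swj3_Lam_le n
          have h5 : Real.log n ≤ L := by
            rw [hL]
            refine Real.log_le_log (by exact_mod_cast hn'.1) ?_
            exact_mod_cast hn'.2.trans hwy
          rw [abs_le]; constructor <;> linarith
        refine (Finset.sum_le_sum h2).trans ?_
        rw [Finset.sum_const, nsmul_eq_mul, Nat.card_Icc]
        simp
      refine h1.trans ?_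
      rw [le_div_iff₀ (by positivity)]
      have h2 := swj3_pow_le (c + 1) (L / 2) (by positivity)
      have h3 : L ^ (c + 1) = 2 ^ (c + 1) * (L / 2) ^ (c + 1) := by
        rw [← mul_pow]; congr 1; ring
      have h4 : Real.exp (L / 2) * Real.exp (L / 2) = y := by
        rw [← Real.exp_add, ← hexp]; congr 1; ring
      calc (w : ℝ) * (2 * L) * L ^ c = 2 * (w * L ^ (c + 1)) := by ring
        _ ≤ 2 * (Real.exp (L / 2) * (2 ^ (c + 1) * (F₂ * Real.exp (L / 2)))) := by
            refine mul_le_mul_of_nonneg_left ?_ (by norm_num)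
            refine mul_le_mul hwe ?_ (by positivity) (Real.exp_pos _).le
            rw [h3]
            exact mul_le_mul_of_nonneg_left h2 (by positivity)
        _ = 2 * (2 ^ (c + 1) * F₂) * (Real.exp (L / 2) * Real.exp (L / 2)) := by ring
        _ = 2 * (2 ^ (c + 1) * F₂) * y := by rw [h4]
    -- second part
    obtain ⟨M, hM⟩ : ∃ M : ℝ, M = C₀ * (y * L ^ (3 * m) + L ^ (k + 1) * (y / L ^ m) +
        L ^ (k + 1) * L ^ (3 * m)) := ⟨_, rfl⟩
    have hA : ∀ z : ℕ, z ≤ y → |∑ n ∈ Icc 1 z, (Lam n - 1) * Real.log n ^ k| ≤ M := by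
      intro z hz
      have := h₀ m y (by omega) hy3 z hz
      rw [← hL] at this
      rw [hM]
      exact this
    have hgpos : ∀ i : ℕ, 0 < Real.log ((w + 1 + i : ℕ) : ℝ) := by
      intro i
      refine Real.log_pos ?_
      have : 1 < w + 1 + i := by omega
      exact_mod_cast this
    have habel := swj3_abel (fun i => (Lam (w + 1 + i) - 1) * Real.log ((w + 1 + i : ℕ) : ℝ) ^ k)
      (fun i => 1 / Real.log ((w + 1 + i : ℕ) : ℝ) ^ k) (2 * M) (y - w) ?_ ?_ ?_
    rotate_left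
    · intro i j hij
      have h1 := hgpos i
      have h2 : Real.log ((w + 1 + i : ℕ) : ℝ) ≤ Real.log ((w + 1 + j : ℕ) : ℝ) := by
        refine Real.log_le_log (by positivity) ?_
        exact_mod_cast Nat.add_le_add_left hij _
      refine one_div_le_one_div_of_le (by positivity) ?_
      exact pow_le_pow_left₀ h1.le h2 k
    · intro i
      have h1 := hgpos i
      positivity
    · intro j hj
      have e1 : ∑ i ∈ range j, (Lam (w + 1 + i) - 1) * Real.log ((w + 1 + i : ℕ) : ℝ) ^ k =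
          ∑ n ∈ Icc 1 (w + j), (Lam n - 1) * Real.log n ^ k -
            ∑ n ∈ Icc 1 w, (Lam n - 1) * Real.log n ^ k := by
        have e2 : Icc 1 (w + j) = Icc 1 w ∪ Ico (w + 1) (w + j + 1) := by
          ext n
          simp only [Finset.mem_Icc, Finset.mem_union, Finset.mem_Ico]
          omega
        rw [e2, Finset.sum_union, Finset.sum_Ico_eq_sum_range]
        · have : w + j + 1 - (w + 1) = j := by omega
          rw [this]
          ring
        · rw [Finset.disjoint_left]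
          intro n hn hn'
          rw [Finset.mem_Icc] at hn
          rw [Finset.mem_Ico] at hn'
          omega
      rw [e1]
      have h1 := hA (w + j) (by omega)
      have h2 := hA w hwy
      refine (abs_sub _ _).trans ?_
      linarith
    have hsum2 : ∑ i ∈ range (y - w), (1 / Real.log ((w + 1 + i : ℕ) : ℝ) ^ k) *
        ((Lam (w + 1 + i) - 1) * Real.log ((w + 1 + i : ℕ) : ℝ) ^ k) =
        ∑ i ∈ range (y - w), (Lam (w + 1 + i) - 1) := by
      refine Finset.sum_congr rfl (fun i _ => ?_)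
      have h1 : Real.log ((w + 1 + i : ℕ) : ℝ) ^ k ≠ 0 := (pow_pos (hgpos i) k).ne'
      field_simp
    rw [hsum2] at habel
    have hM0 : 0 ≤ M := by
      have := hA 0 (Nat.zero_le _)
      exact (abs_nonneg _).trans this
    have hg0 : 1 / Real.log ((w + 1 + 0 : ℕ) : ℝ) ^ k ≤ 2 ^ k / L ^ k := by
      have h1 : (L / 2) ^ k ≤ Real.log ((w + 1 + 0 : ℕ) : ℝ) ^ k := by
        refine pow_le_pow_left₀ (by positivity) ?_ k
        push_cast
        rw [add_zero]
        exact hlw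
      calc 1 / Real.log ((w + 1 + 0 : ℕ) : ℝ) ^ k ≤ 1 / (L / 2) ^ k :=
            one_div_le_one_div_of_le (by positivity) h1
        _ = 2 ^ k / L ^ k := by rw [div_pow]; field_simp
    have hMle : M * (2 ^ k / L ^ k) ≤ C₀ * 2 ^ k * (2 + F₁) * y / L ^ c := by
      have hk1 : L ^ k = L ^ (3 * m) * L ^ c := by rw [hk, pow_add]
      have hk2 : L ^ (k + 1) = L ^ k * L := pow_succ _ _
      have hm1 : L ^ m = L ^ c * L := by rw [hm, pow_succ]
      have hfac := swj3_pow_le (1 + 3 * m + c) L hL0.le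
      rw [hexp, ← hF₁] at hfac
      have hfac2 : L ^ (1 + 3 * m + c) = L * L ^ (3 * m) * L ^ c := by
        rw [pow_add, pow_add, pow_one]
      rw [hfac2] at hfac
      rw [hM, le_div_iff₀ (by positivity)]
      have hLc : 0 < L ^ c := by positivity
      have hL3 : 0 < L ^ (3 * m) := by positivity
      have hident : C₀ * (y * L ^ (3 * m) + L ^ (k + 1) * (y / L ^ m) +
          L ^ (k + 1) * L ^ (3 * m)) * (2 ^ k / L ^ k) * L ^ c =
          C₀ * 2 ^ k * (y + y + L * L ^ (3 * m) * L ^ c) := by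
        rw [hk2, hm1, hk1]
        field_simp
      rw [hident]
      have : (y : ℝ) + y + L * L ^ (3 * m) * L ^ c ≤ (2 + F₁) * y := by linarith
      calc C₀ * 2 ^ k * (y + y + L * L ^ (3 * m) * L ^ c) ≤ C₀ * 2 ^ k * ((2 + F₁) * y) :=
            mul_le_mul_of_nonneg_left this (by positivity)
        _ = _ := by ring
    have hpart2 : |∑ i ∈ range (y - w), (Lam (w + 1 + i) - 1)| ≤
        2 * (2 * C₀) * 2 ^ k * (2 + F₁) * y / L ^ c := by
      refine habel.trans ?_
      calc 2 * M * (1 / Real.log ((w + 1 + 0 : ℕ) : ℝ) ^ k) ≤ 2 * M * (2 ^ k / L ^ k) :=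
            mul_le_mul_of_nonneg_left hg0 (by positivity)
        _ = 2 * (M * (2 ^ k / L ^ k)) := by ring
        _ ≤ 2 * (C₀ * 2 ^ k * (2 + F₁) * y / L ^ c) :=
            mul_le_mul_of_nonneg_left hMle (by norm_num)
        _ ≤ 2 * (C₀ * 2 ^ k * (2 + F₁) * y / L ^ c) + 2 * (C₀ * 2 ^ k * (2 + F₁) * y / L ^ c) := by
            have : 0 ≤ 2 * (C₀ * 2 ^ k * (2 + F₁) * y / L ^ c) := by positivity
            linarith
        _ = _ := by ring
    rw [hsplit]
    refine (abs_add_le _ _).trans ?_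
    have h20 : 0 ≤ 2 * (y : ℝ) / L ^ c := by positivity
    calc |∑ n ∈ Icc 1 w, (Lam n - 1)| + |∑ i ∈ range (y - w), (Lam (w + 1 + i) - 1)|
        ≤ 2 * (2 ^ (c + 1) * F₂) * y / L ^ c + 2 * (2 * C₀) * 2 ^ k * (2 + F₁) * y / L ^ c :=
          add_le_add hpart1 hpart2
      _ ≤ 2 * (y : ℝ) / L ^ c + (2 * (2 ^ (c + 1) * F₂) * y / L ^ c +
            2 * (2 * C₀) * 2 ^ k * (2 + F₁) * y / L ^ c) := by linarith
      _ = _ := by ring

end Pool.Agent.H91.EHA

end
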