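import Mathlib

/-! The parts of this file: H76.EHB.Lap, H76.EHB.Vdc1, H91.GoldWeight, H53.MID.Nz, H35.W.MeanV. -/

section

/-!
# EHB Lap: iterated differences of `1/(x+β)`

`LL hs β x = ∫_0^∞ exp(-(x+β) s) ∏_{h ∈ hs} (1 - exp(-h s)) ds` for `x + β > 0`, all `h > 0`.
`LL_nil`: `1/(x+β)`.  `LL_cons`: `(1 - e^{-hs}) e^{-(x+β)s} = e^{-(x+β)s} - e^{-(x+h+β)s}`.
`LL_le`, `LL_ge`: `h s e^{-hs} ≤ 1 - e^{-hs} ≤ h s` and `∫_0^∞ e^{-c s} s^J ds = J!/c^{J+1}` (`Real.integral_rpow_mul_exp_neg_mul_Ioi` or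
`integral_exp_neg_mul_rpow`...).
`LL_deriv`: by induction on `hs` from `LL_cons` (derivative of `LL (h :: hs)` at `x` is the difference of the derivatives), the derivative at `x`
is `-∫_0^∞ s exp(-(x+β)s) ∏(1 - e^{-hs}) ds ≤ 0`; it may be simplest to define `LD` by this integral, prove `LD_nil` (`1/(x+β)^2`), `LD_cons`,
`0 ≤ LD`, `HasDerivAt (LL hs β) (-LD hs β x) x`, and the continuity of `LD` by the same induction.
-/

set_option autoImplicit false

namespace Pool.Agent.H76.EHB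

open MeasureTheory

noncomputable def LL (hs : List ℝ) (β x : ℝ) : ℝ :=
  ∫ s in Set.Ioi (0 : ℝ), Real.exp (-(x + β) * s) * (hs.map (fun h => 1 - Real.exp (-h * s))).prod

noncomputable def LD (hs : List ℝ) (β x : ℝ) : ℝ :=
  ∫ s in Set.Ioi (0 : ℝ), s * (Real.exp (-(x + β) * s) * (hs.map (fun h => 1 - Real.exp (-h * s))).prod)

private lemma lap_prod_nonneg (hs : List ℝ) (hpos : ∀ g ∈ hs, 0 < g) {s : ℝ} (h0 : 0 < s) :
    0 ≤ (hs.map (fun h => 1 - Real.exp (-h * s))).prod := by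
  induction hs with
  | nil => simp
  | cons a l ih =>
    rw [List.map_cons, List.prod_cons]
    have ha : 0 < a := hpos a (by simp)
    have h1 : Real.exp (-a * s) ≤ 1 := by
      rw [Real.exp_le_one_iff]
      nlinarith
    exact mul_nonneg (by linarith) (ih (fun g hg => hpos g (by simp [hg])))

private lemma lap_prod_le_one (hs : List ℝ) (hpos : ∀ g ∈ hs, 0 < g) {s : ℝ} (h0 : 0 < s) :
    (hs.map (fun h => 1 - Real.exp (-h * s))).prod ≤ 1 := by
  induction hs with
  | nil => simp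
  | cons a l ih =>
    rw [List.map_cons, List.prod_cons]
    have h1 : 0 < Real.exp (-a * s) := Real.exp_pos _
    have h2 := ih (fun g hg => hpos g (by simp [hg]))
    have h3 := lap_prod_nonneg l (fun g hg => hpos g (by simp [hg])) h0
    have ha : 0 < a := hpos a (by simp)
    have h4 : Real.exp (-a * s) ≤ 1 := by
      rw [Real.exp_le_one_iff]
      nlinarith
    calc (1 - Real.exp (-a * s)) * (l.map (fun h => 1 - Real.exp (-h * s))).prod
        ≤ 1 * 1 := mul_le_mul (by linarith) h2 h3 (by norm_num)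
      _ = 1 := by norm_num

private lemma lap_prod_le (hs : List ℝ) (hpos : ∀ g ∈ hs, 0 < g) {s : ℝ} (h0 : 0 < s) :
    (hs.map (fun h => 1 - Real.exp (-h * s))).prod ≤ hs.prod * s ^ hs.length := by
  induction hs with
  | nil => simp
  | cons a l ih =>
    rw [List.map_cons, List.prod_cons, List.prod_cons, List.length_cons]
    have h2 := ih (fun g hg => hpos g (by simp [hg]))
    have h3 := lap_prod_nonneg l (fun g hg => hpos g (by simp [hg])) h0
    have ha : 0 < a := hpos a (by simp)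
    have h4 : 1 - Real.exp (-a * s) ≤ a * s := by
      have := Real.add_one_le_exp (-a * s)
      nlinarith
    calc (1 - Real.exp (-a * s)) * (l.map (fun h => 1 - Real.exp (-h * s))).prod
        ≤ (a * s) * (l.prod * s ^ l.length) := mul_le_mul h4 h2 h3 (by positivity)
      _ = a * l.prod * s ^ (l.length + 1) := by ring

private lemma lap_prod_pos (hs : List ℝ) (hpos : ∀ g ∈ hs, 0 < g) : 0 < hs.prod := by
  induction hs with
  | nil => simp
  | cons a l ih =>
    rw [List.prod_cons]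
    exact mul_pos (hpos a (by simp)) (ih (fun g hg => hpos g (by simp [hg])))

private lemma lap_sum_nonneg (hs : List ℝ) (hpos : ∀ g ∈ hs, 0 < g) : 0 ≤ hs.sum := by
  induction hs with
  | nil => simp
  | cons a l ih =>
    rw [List.sum_cons]
    have := hpos a (by simp)
    have := ih (fun g hg => hpos g (by simp [hg]))
    linarith

private lemma lap_prod_ge (hs : List ℝ) (hpos : ∀ g ∈ hs, 0 < g) {s : ℝ} (h0 : 0 < s) :
    hs.prod * s ^ hs.length * Real.exp (-hs.sum * s) ≤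
      (hs.map (fun h => 1 - Real.exp (-h * s))).prod := by
  induction hs with
  | nil => simp
  | cons a l ih =>
    rw [List.map_cons, List.prod_cons, List.prod_cons, List.length_cons, List.sum_cons]
    have h2 := ih (fun g hg => hpos g (by simp [hg]))
    have hl := lap_prod_pos l (fun g hg => hpos g (by simp [hg]))
    have h3 := lap_prod_nonneg l (fun g hg => hpos g (by simp [hg])) h0
    have ha : 0 < a := hpos a (by simp)
    have h4 : a * s * Real.exp (-a * s) ≤ 1 - Real.exp (-a * s) := by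
      have h5 := Real.add_one_le_exp (a * s)
      have h6 : Real.exp (a * s) * Real.exp (-a * s) = 1 := by
        rw [← Real.exp_add]; simp
      have h7 := Real.exp_pos (-a * s)
      nlinarith [mul_le_mul_of_nonneg_right h5 h7.le]
    have h8 : Real.exp (-(a + l.sum) * s) = Real.exp (-a * s) * Real.exp (-l.sum * s) := by
      rw [← Real.exp_add]; ring_nf
    calc a * l.prod * s ^ (l.length + 1) * Real.exp (-(a + l.sum) * s)
        = (a * s * Real.exp (-a * s)) * (l.prod * s ^ l.length * Real.exp (-l.sum * s)) := by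
          rw [h8]; ring
      _ ≤ (1 - Real.exp (-a * s)) * (l.map (fun h => 1 - Real.exp (-h * s))).prod := by
          apply mul_le_mul h4 h2 (by positivity)
          exact le_trans (by positivity) h4

private lemma lap_cont (hs : List ℝ) :
    Continuous (fun s : ℝ => (hs.map (fun h => 1 - Real.exp (-h * s))).prod) := by
  induction hs with
  | nil => simpa using continuous_const
  | cons a l ih =>
    simp only [List.map_cons, List.prod_cons]
    fun_prop

private lemma lap_pow_int (n : ℕ) {c : ℝ} (hc : 0 < c) :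
    IntegrableOn (fun s : ℝ => s ^ n * Real.exp (-c * s)) (Set.Ioi 0) := by
  have h := integrableOn_rpow_mul_exp_neg_mul_rpow (p := 1) (s := (n : ℝ)) (b := c)
    (by have : (0 : ℝ) ≤ n := Nat.cast_nonneg n
        linarith) one_pos hc
  refine h.congr_fun (fun s _ => ?_) measurableSet_Ioi
  simp [Real.rpow_natCast]

private lemma lap_pow_integral (n : ℕ) {c : ℝ} (hc : 0 < c) :
    ∫ s in Set.Ioi (0 : ℝ), s ^ n * Real.exp (-c * s) = (n.factorial : ℝ) / c ^ (n + 1) := by
  have h := Real.integral_rpow_mul_exp_neg_mul_Ioi (a := (n : ℝ) + 1) (r := c) (by positivity) hc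
  have h1 : ∫ s in Set.Ioi (0 : ℝ), s ^ n * Real.exp (-c * s)
      = ∫ t : ℝ in Set.Ioi 0, t ^ ((n : ℝ) + 1 - 1) * Real.exp (-(c * t)) := by
    apply setIntegral_congr_fun measurableSet_Ioi
    intro s _
    simp [Real.rpow_natCast]
  rw [h1, h, Real.Gamma_nat_eq_factorial]
  have h2 : (1 / c) ^ ((n : ℝ) + 1) = 1 / c ^ (n + 1) := by
    have : ((n : ℝ) + 1) = ((n + 1 : ℕ) : ℝ) := by push_cast; ring
    rw [this, Real.rpow_natCast, one_div, one_div, inv_pow]
  rw [h2]
  ring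

private lemma lap_int (hs : List ℝ) (hpos : ∀ g ∈ hs, 0 < g) {c : ℝ} (hc : 0 < c) :
    IntegrableOn (fun s : ℝ => Real.exp (-c * s) * (hs.map (fun h => 1 - Real.exp (-h * s))).prod)
      (Set.Ioi 0) := by
  have h := lap_pow_int 0 hc
  refine Integrable.mono' h ?_ ?_
  · exact (Continuous.aestronglyMeasurable (by
      have := lap_cont hs
      fun_prop))
  · refine (ae_restrict_iff' measurableSet_Ioi).mpr (Filter.Eventually.of_forall (fun s hs0 => ?_))
    have h0 : 0 < s := hs0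
    have h1 := lap_prod_nonneg hs hpos h0
    have h2 := lap_prod_le_one hs hpos h0
    have h3 := Real.exp_pos (-c * s)
    rw [Real.norm_of_nonneg (by positivity)]
    simp only [pow_zero, one_mul]
    nlinarith

private lemma lap_int' (hs : List ℝ) (hpos : ∀ g ∈ hs, 0 < g) {c : ℝ} (hc : 0 < c) :
    IntegrableOn (fun s : ℝ =>
      s * (Real.exp (-c * s) * (hs.map (fun h => 1 - Real.exp (-h * s))).prod)) (Set.Ioi 0) := by
  have h := lap_pow_int 1 hc
  refine Integrable.mono' h ?_ ?_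
  · exact (Continuous.aestronglyMeasurable (by
      have := lap_cont hs
      fun_prop))
  · refine (ae_restrict_iff' measurableSet_Ioi).mpr (Filter.Eventually.of_forall (fun s hs0 => ?_))
    have h0 : 0 < s := hs0
    have h1 := lap_prod_nonneg hs hpos h0
    have h2 := lap_prod_le_one hs hpos h0
    have h3 := Real.exp_pos (-c * s)
    rw [Real.norm_of_nonneg (by positivity)]
    simp only [pow_one]
    apply mul_le_mul_of_nonneg_left _ h0.le
    nlinarith

theorem LL_nil (β x : ℝ) (hx : 0 < x + β) : LL [] β x = 1 / (x + β) := by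
  have h := lap_pow_integral 0 hx
  simp only [pow_zero, one_mul, Nat.factorial_zero, Nat.cast_one, zero_add, pow_one] at h
  simpa [LL] using h

theorem LL_cons (h : ℝ) (hs : List ℝ) (β x : ℝ) (hx : 0 < x + β) (hh : 0 < h) (hpos : ∀ g ∈ hs, 0 < g) :
    LL (h :: hs) β x = LL hs β x - LL hs β (x + h) := by
  have h1 := lap_int hs hpos hx
  have h2 := lap_int hs hpos (c := x + h + β) (by linarith)
  unfold LL
  rw [← integral_sub h1 h2]
  apply setIntegral_congr_fun measurableSet_Ioi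
  intro s _
  simp only [List.map_cons, List.prod_cons]
  have h3 : Real.exp (-(x + h + β) * s) = Real.exp (-(x + β) * s) * Real.exp (-h * s) := by
    rw [← Real.exp_add]; ring_nf
  rw [h3]
  ring

private lemma LD_nil (β x : ℝ) (hx : 0 < x + β) : LD [] β x = 1 / (x + β) ^ 2 := by
  have h := lap_pow_integral 1 hx
  simp only [pow_one, Nat.factorial_one, Nat.cast_one, one_add_one_eq_two] at h
  simpa [LD] using h

private lemma LD_cons (h : ℝ) (hs : List ℝ) (β x : ℝ) (hx : 0 < x + β) (hh : 0 < h)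
    (hpos : ∀ g ∈ hs, 0 < g) :
    LD (h :: hs) β x = LD hs β x - LD hs β (x + h) := by
  have h1 := lap_int' hs hpos hx
  have h2 := lap_int' hs hpos (c := x + h + β) (by linarith)
  unfold LD
  rw [← integral_sub h1 h2]
  apply setIntegral_congr_fun measurableSet_Ioi
  intro s _
  simp only [List.map_cons, List.prod_cons]
  have h3 : Real.exp (-(x + h + β) * s) = Real.exp (-(x + β) * s) * Real.exp (-h * s) := by
    rw [← Real.exp_add]; ring_nf
  rw [h3]
  ring

theorem LL_le (hs : List ℝ) (β x : ℝ) (hx : 0 < x + β) (hpos : ∀ g ∈ hs, 0 < g) :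
    LL hs β x ≤ (hs.length.factorial : ℝ) * hs.prod / (x + β) ^ (hs.length + 1) := by
  have h1 := lap_int hs hpos hx
  have h2 := (lap_pow_int hs.length hx).const_mul hs.prod
  have h3 : LL hs β x ≤ ∫ s in Set.Ioi (0 : ℝ),
      hs.prod * (s ^ hs.length * Real.exp (-(x + β) * s)) := by
    unfold LL
    apply setIntegral_mono_on h1 h2 measurableSet_Ioi
    intro s hs0
    have h0 : 0 < s := hs0
    have h4 := lap_prod_le hs hpos h0
    have h5 := Real.exp_pos (-(x + β) * s)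
    nlinarith [mul_le_mul_of_nonneg_left h4 h5.le]
  rw [integral_const_mul, lap_pow_integral hs.length hx] at h3
  calc LL hs β x ≤ hs.prod * ((hs.length.factorial : ℝ) / (x + β) ^ (hs.length + 1)) := h3
    _ = (hs.length.factorial : ℝ) * hs.prod / (x + β) ^ (hs.length + 1) := by ring

theorem LL_ge (hs : List ℝ) (β x : ℝ) (hx : 0 < x + β) (hpos : ∀ g ∈ hs, 0 < g) :
    (hs.length.factorial : ℝ) * hs.prod / (x + β + hs.sum) ^ (hs.length + 1) ≤ LL hs β x := by
  have h1 := lap_int hs hpos hx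
  have hs0 := lap_sum_nonneg hs hpos
  have hx2 : 0 < x + β + hs.sum := by linarith
  have h2 := (lap_pow_int hs.length hx2).const_mul hs.prod
  have h3 : ∫ s in Set.Ioi (0 : ℝ),
      hs.prod * (s ^ hs.length * Real.exp (-(x + β + hs.sum) * s)) ≤ LL hs β x := by
    unfold LL
    apply setIntegral_mono_on h2 h1 measurableSet_Ioi
    intro s hs0
    have h0 : 0 < s := hs0
    have h4 := lap_prod_ge hs hpos h0
    have h5 := Real.exp_pos (-(x + β) * s)
    have h6 : Real.exp (-(x + β + hs.sum) * s)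
        = Real.exp (-(x + β) * s) * Real.exp (-hs.sum * s) := by
      rw [← Real.exp_add]; ring_nf
    rw [h6]
    calc hs.prod * (s ^ hs.length * (Real.exp (-(x + β) * s) * Real.exp (-hs.sum * s)))
        = Real.exp (-(x + β) * s) * (hs.prod * s ^ hs.length * Real.exp (-hs.sum * s)) := by ring
      _ ≤ Real.exp (-(x + β) * s) * (hs.map (fun h => 1 - Real.exp (-h * s))).prod :=
          mul_le_mul_of_nonneg_left h4 h5.le
  rw [integral_const_mul, lap_pow_integral hs.length hx2] at h3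
  calc (hs.length.factorial : ℝ) * hs.prod / (x + β + hs.sum) ^ (hs.length + 1)
      = hs.prod * ((hs.length.factorial : ℝ) / (x + β + hs.sum) ^ (hs.length + 1)) := by ring
    _ ≤ LL hs β x := h3

theorem LD_nonneg (hs : List ℝ) (β x : ℝ) (hpos : ∀ g ∈ hs, 0 < g) : 0 ≤ LD hs β x := by
  unfold LD
  apply setIntegral_nonneg measurableSet_Ioi
  intro s hs0
  have h0 : 0 < s := hs0
  have h1 := lap_prod_nonneg hs hpos h0
  positivity

theorem LL_hasDerivAt (hs : List ℝ) (β x : ℝ) (hx : 0 < x + β) (hpos : ∀ g ∈ hs, 0 < g) :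
    HasDerivAt (LL hs β) (-LD hs β x) x := by
  induction hs generalizing x with
  | nil =>
    rw [LD_nil β x hx]
    have h1 : HasDerivAt (fun y : ℝ => (y + β)⁻¹) (-1 / (x + β) ^ 2) x :=
      ((hasDerivAt_id x).add_const β).inv hx.ne'
    have h2 : (LL [] β) =ᶠ[nhds x] (fun y : ℝ => (y + β)⁻¹) := by
      have h3 : ∀ᶠ y in nhds x, -β < y := lt_mem_nhds (by linarith)
      filter_upwards [h3] with y hy
      rw [LL_nil β y (by linarith), one_div]
    have h4 := h1.congr_of_eventuallyEq h2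
    have h5 : -(1 / (x + β) ^ 2) = -1 / (x + β) ^ 2 := by ring
    rw [h5]
    exact h4
  | cons a l ih =>
    have ha : 0 < a := hpos a (by simp)
    have hl : ∀ g ∈ l, 0 < g := fun g hg => hpos g (by simp [hg])
    rw [LD_cons a l β x hx ha hl]
    have h1 := ih x hx hl
    have h2 := (ih (x + a) (by linarith) hl).comp_add_const x a
    have h3 : (LL (a :: l) β) =ᶠ[nhds x] (fun y : ℝ => LL l β y - LL l β (y + a)) := by
      have h4 : ∀ᶠ y in nhds x, -β < y := lt_mem_nhds (by linarith)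
      filter_upwards [h4] with y hy
      exact LL_cons a l β y (by linarith) ha hl
    have h5 := (h1.sub h2).congr_of_eventuallyEq h3
    have h6 : -(LD l β x - LD l β (x + a)) = -LD l β x - -LD l β (x + a) := by ring
    rw [h6]
    exact h5

theorem LD_continuousOn (hs : List ℝ) (β : ℝ) (hpos : ∀ g ∈ hs, 0 < g) :
    ContinuousOn (LD hs β) (Set.Ioi (-β)) := by
  induction hs with
  | nil =>
    have h1 : ContinuousOn (fun y : ℝ => 1 / (y + β) ^ 2) (Set.Ioi (-β)) := by
      apply ContinuousOn.div continuousOn_const (by fun_prop)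
      intro y hy
      have : 0 < y + β := by
        have : -β < y := hy
        linarith
      positivity
    refine h1.congr (fun y hy => ?_)
    have : -β < y := hy
    exact LD_nil β y (by linarith)
  | cons a l ih =>
    have ha : 0 < a := hpos a (by simp)
    have hl : ∀ g ∈ l, 0 < g := fun g hg => hpos g (by simp [hg])
    have h1 := ih hl
    have h2 : ContinuousOn (fun y : ℝ => LD l β (y + a)) (Set.Ioi (-β)) := by
      refine h1.comp (by fun_prop) (fun y hy => ?_)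
      have : -β < y := hy
      show -β < y + a
      linarith
    refine (h1.sub h2).congr (fun y hy => ?_)
    have : -β < y := hy
    exact LD_cons a l β y (by linarith) ha hl

end Pool.Agent.H76.EHB

end

section

/-!
# EHB Vdc1: the inequality of Weyl and van der Corput

Put `z n = 0` outside `Ioc a b`.  `H ∑_n z_n = ∑_m ∑_{0 ≤ h < H} z_{m+h}` where `m` runs over at most `Y + H ≤ 2Y` integers; Cauchy:
`H^2 |∑ z|^2 ≤ (Y+H) ∑_m |∑_{h<H} z_{m+h}|^2 = (Y+H) ∑_{h1,h2<H} ∑_m z_{m+h1} conj z_{m+h2}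
 ≤ (Y+H) (H Y + 2 H ∑_{h=1}^{H-1} |∑_n z_{n+h} conj z_n|)`, the inner sum over `n ∈ Ioc a (b-h)`.
(Work with integers or shift; with natural numbers take `m + h` with `m` from `a + 1 - H`: use `ℤ` or replace `z_{m+h}` by
`z_{m-h}`, `m ∈ Ioc a (b + H)`.)
-/

set_option autoImplicit false

namespace Pool.Agent.H76.EHB

open Finset

private theorem vdc_shift (g : ℕ → ℂ) (c d h : ℕ) :
    ∑ n ∈ Ioc c d, g (n + h) = ∑ m ∈ Ioc (c + h) (d + h), g m := by
  rw [← Finset.map_add_right_Ioc, Finset.sum_map]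
  simp

private theorem vdc_pair (z w : ℕ → ℂ) (a b H : ℕ)
    (hw1 : ∀ n ∈ Ioc a b, w n = z n) (hw0 : ∀ n, n ∉ Ioc a b → w n = 0) (h1 h2 : ℕ)
    (h12 : h1 ≤ h2) (h2H : h2 ≤ H) :
    ∑ m ∈ Ioc a (b + H), w (m - h1) * (starRingEnd ℂ) (w (m - h2))
      = ∑ n ∈ Ioc a (b - (h2 - h1)), z (n + (h2 - h1)) * (starRingEnd ℂ) (z n) := by
  have e1 : ∑ n ∈ Ioc a (b - (h2 - h1)), z (n + (h2 - h1)) * (starRingEnd ℂ) (z n)
      = ∑ n ∈ Ioc a (b - (h2 - h1)), (fun m => w (m - h1) * (starRingEnd ℂ) (w (m - h2))) (n + h2) := by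
    refine Finset.sum_congr rfl fun n hn => ?_
    rw [mem_Ioc] at hn
    show z (n + (h2 - h1)) * (starRingEnd ℂ) (z n)
      = w (n + h2 - h1) * (starRingEnd ℂ) (w (n + h2 - h2))
    have e2 : n + h2 - h2 = n := by omega
    have e3 : n + h2 - h1 = n + (h2 - h1) := by omega
    rw [e2, e3, hw1 n (mem_Ioc.2 ⟨by omega, by omega⟩), hw1 _ (mem_Ioc.2 ⟨by omega, by omega⟩)]
  rw [e1, vdc_shift (fun m => w (m - h1) * (starRingEnd ℂ) (w (m - h2))) _ _ h2]
  symm
  apply Finset.sum_subset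
  · intro m hm
    rw [mem_Ioc] at hm ⊢
    omega
  · intro m hm hm2
    rw [mem_Ioc] at hm hm2
    by_cases hc : m - h1 ∈ Ioc a b
    · have hc2 : m - h2 ∉ Ioc a b := by
        intro hc2
        rw [mem_Ioc] at hc hc2
        apply hm2
        omega
      rw [hw0 _ hc2]; simp
    · rw [hw0 _ hc]; simp

private theorem vdc_single (z w : ℕ → ℂ) (a b H : ℕ)
    (hw1 : ∀ n ∈ Ioc a b, w n = z n) (hw0 : ∀ n, n ∉ Ioc a b → w n = 0) (h : ℕ) (hH : h ≤ H) :
    ∑ m ∈ Ioc a (b + H), w (m - h) = ∑ n ∈ Ioc a b, z n := by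
  have e1 : ∑ n ∈ Ioc a b, z n = ∑ n ∈ Ioc a b, (fun m => w (m - h)) (n + h) := by
    refine Finset.sum_congr rfl fun n hn => ?_
    show z n = w (n + h - h)
    rw [show n + h - h = n by omega, hw1 n hn]
  rw [e1, vdc_shift (fun m => w (m - h)) _ _ h]
  symm
  apply Finset.sum_subset
  · intro m hm
    rw [mem_Ioc] at hm ⊢
    omega
  · intro m hm hm2
    rw [mem_Ioc] at hm hm2
    refine hw0 _ fun hc => ?_
    rw [mem_Ioc] at hc
    apply hm2
    omega

theorem vdc_step (z : ℕ → ℂ) (hz : ∀ n, ‖z n‖ ≤ 1) (a b Y H : ℕ) (hab : b - a ≤ Y) (hH : 1 ≤ H)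
    (hHY : H ≤ Y) :
    ‖∑ n ∈ Ioc a b, z n‖ ^ 2
      ≤ 2 * (Y : ℝ) ^ 2 / H + 4 * (Y : ℝ) / H * ∑ h ∈ Icc 1 H,
          ‖∑ n ∈ Ioc a (b - h), z (n + h) * (starRingEnd ℂ) (z n)‖ := by
  classical
  set w : ℕ → ℂ := fun n => if n ∈ Ioc a b then z n else 0 with hw
  have hw1 : ∀ n ∈ Ioc a b, w n = z n := fun n hn => by simp only [hw, if_pos hn]
  have hw0 : ∀ n, n ∉ Ioc a b → w n = 0 := fun n hn => by simp only [hw, if_neg hn]
  set C : ℕ → ℝ := fun h => ‖∑ n ∈ Ioc a (b - h), z (n + h) * (starRingEnd ℂ) (z n)‖ with hC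
  have hC0 : ∀ h, 0 ≤ C h := fun h => norm_nonneg _
  set Sg : ℝ := ∑ h ∈ Icc 1 H, C h with hSg
  have hSg0 : 0 ≤ Sg := Finset.sum_nonneg fun h _ => hC0 h
  have hCz : C 0 ≤ Y := by
    simp only [hC]
    refine (norm_sum_le _ _).trans ?_
    calc ∑ n ∈ Ioc a (b - 0), ‖z (n + 0) * (starRingEnd ℂ) (z n)‖
        ≤ ∑ n ∈ Ioc a (b - 0), (1:ℝ) := by
          refine Finset.sum_le_sum fun n _ => ?_
          rw [norm_mul, RCLike.norm_conj]
          calc ‖z (n + 0)‖ * ‖z n‖ ≤ 1 * 1 := mul_le_mul (hz _) (hz _) (norm_nonneg _) (by norm_num)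
            _ = 1 := by norm_num
      _ = ((b - a : ℕ) : ℝ) := by simp
      _ ≤ Y := by exact_mod_cast hab
  -- pairs
  set T : ℕ → ℕ → ℂ := fun h1 h2 => ∑ m ∈ Ioc a (b + H), w (m - h1) * (starRingEnd ℂ) (w (m - h2))
    with hT
  have hTle : ∀ h1 h2, h1 ≤ h2 → h2 ≤ H → ‖T h1 h2‖ = C (h2 - h1) := by
    intro h1 h2 h12 h2H
    simp only [hT, hC]
    rw [vdc_pair z w a b H hw1 hw0 h1 h2 h12 h2H]
  have hTsymm : ∀ h1 h2, ‖T h1 h2‖ = ‖T h2 h1‖ := by
    intro h1 h2
    rw [← RCLike.norm_conj (T h1 h2)]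
    congr 1
    simp only [hT, map_sum, map_mul, Complex.conj_conj]
    exact Finset.sum_congr rfl fun m _ => mul_comm _ _
  -- row sums
  have hrow : ∀ h1 ∈ range H, ∑ h2 ∈ range H, ‖T h1 h2‖ ≤ Y + 2 * Sg := by
    intro h1 hh1
    rw [mem_range] at hh1
    have hsplit : ∑ h2 ∈ range H, ‖T h1 h2‖
        = ∑ h2 ∈ range h1, ‖T h1 h2‖ + ∑ h2 ∈ Ico h1 H, ‖T h1 h2‖ := by
      rw [Finset.sum_range_add_sum_Ico _ hh1.le]
    rw [hsplit]
    have hA : ∑ h2 ∈ range h1, ‖T h1 h2‖ ≤ Sg := by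
      have e : ∑ h2 ∈ range h1, ‖T h1 h2‖ = ∑ h2 ∈ range h1, C (h1 - h2) := by
        refine Finset.sum_congr rfl fun h2 hh2 => ?_
        rw [mem_range] at hh2
        rw [hTsymm, hTle h2 h1 hh2.le hh1.le]
      rw [e]
      have e2 : ∑ h2 ∈ range h1, C (h1 - h2) = ∑ d ∈ Icc 1 h1, C d := by
        refine Finset.sum_nbij' (fun h2 => h1 - h2) (fun d => h1 - d) ?_ ?_ ?_ ?_ ?_
        · intro x hx
          rw [mem_range] at hx
          rw [mem_Icc]; omega
        · intro x hx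
          rw [mem_Icc] at hx
          rw [mem_range]; omega
        · intro x hx
          rw [mem_range] at hx
          show h1 - (h1 - x) = x
          omega
        · intro x hx
          rw [mem_Icc] at hx
          show h1 - (h1 - x) = x
          omega
        · intro x _
          rfl
      rw [e2]
      refine Finset.sum_le_sum_of_subset_of_nonneg ?_ fun h _ _ => hC0 h
      exact Finset.Icc_subset_Icc le_rfl hh1.le
    have hB : ∑ h2 ∈ Ico h1 H, ‖T h1 h2‖ ≤ Y + Sg := by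
      have e : ∑ h2 ∈ Ico h1 H, ‖T h1 h2‖ = ∑ h2 ∈ Ico h1 H, C (h2 - h1) := by
        refine Finset.sum_congr rfl fun h2 hh2 => ?_
        rw [mem_Ico] at hh2
        rw [hTle h1 h2 hh2.1 hh2.2.le]
      rw [e, Finset.sum_Ico_eq_sum_range]
      have e2 : ∑ i ∈ range (H - h1), C (h1 + i - h1) = ∑ i ∈ range (H - h1), C i :=
        Finset.sum_congr rfl fun i _ => by rw [Nat.add_sub_cancel_left]
      rw [e2]
      obtain ⟨m, hm⟩ : ∃ m, H - h1 = m + 1 := ⟨H - h1 - 1, by omega⟩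
      rw [hm, Finset.sum_range_succ']
      have e3 : ∑ k ∈ range m, C (k + 1) ≤ Sg := by
        have e4 : ∑ k ∈ range m, C (k + 1) = ∑ d ∈ Ico 1 (m + 1), C d := by
          rw [Finset.sum_Ico_eq_sum_range]
          simp [add_comm]
        rw [e4]
        refine Finset.sum_le_sum_of_subset_of_nonneg ?_ fun h _ _ => hC0 h
        intro x hx
        rw [mem_Ico] at hx
        rw [mem_Icc]; omega
      linarith
    linarith
  -- the main identity
  have hS1 : (H : ℂ) * ∑ n ∈ Ioc a b, z n = ∑ m ∈ Ioc a (b + H), ∑ h ∈ range H, w (m - h) := by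
    rw [Finset.sum_comm]
    rw [Finset.sum_congr rfl (fun h hh => vdc_single z w a b H hw1 hw0 h (by
      rw [mem_range] at hh; exact hh.le))]
    simp
  have hS2 : ((∑ m ∈ Ioc a (b + H), ‖∑ h ∈ range H, w (m - h)‖ ^ 2 : ℝ) : ℂ)
      = ∑ h1 ∈ range H, ∑ h2 ∈ range H, T h1 h2 := by
    push_cast
    have e : ∀ m, ((‖∑ h ∈ range H, w (m - h)‖ : ℂ)) ^ 2
        = ∑ h1 ∈ range H, ∑ h2 ∈ range H, w (m - h1) * (starRingEnd ℂ) (w (m - h2)) := by
      intro m
      rw [← Complex.mul_conj']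
      rw [map_sum, Finset.sum_mul_sum]
    rw [Finset.sum_congr rfl (fun m _ => e m), Finset.sum_comm]
    refine Finset.sum_congr rfl fun h1 _ => ?_
    rw [Finset.sum_comm]
  have hS3 : ∑ m ∈ Ioc a (b + H), ‖∑ h ∈ range H, w (m - h)‖ ^ 2 ≤ H * (Y + 2 * Sg) := by
    have hnn : 0 ≤ ∑ m ∈ Ioc a (b + H), ‖∑ h ∈ range H, w (m - h)‖ ^ 2 :=
      Finset.sum_nonneg fun m _ => by positivity
    have e : ∑ m ∈ Ioc a (b + H), ‖∑ h ∈ range H, w (m - h)‖ ^ 2
        = ‖((∑ m ∈ Ioc a (b + H), ‖∑ h ∈ range H, w (m - h)‖ ^ 2 : ℝ) : ℂ)‖ := by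
      rw [Complex.norm_real, Real.norm_of_nonneg hnn]
    rw [e, hS2]
    refine (norm_sum_le _ _).trans ?_
    calc ∑ h1 ∈ range H, ‖∑ h2 ∈ range H, T h1 h2‖
        ≤ ∑ h1 ∈ range H, (Y + 2 * Sg) :=
          Finset.sum_le_sum fun h1 hh1 => (norm_sum_le _ _).trans (hrow h1 hh1)
      _ = H * (Y + 2 * Sg) := by
        rw [Finset.sum_const, card_range, nsmul_eq_mul]
  have hcs : ‖∑ m ∈ Ioc a (b + H), ∑ h ∈ range H, w (m - h)‖ ^ 2
      ≤ ((Ioc a (b + H)).card : ℝ) * ∑ m ∈ Ioc a (b + H), ‖∑ h ∈ range H, w (m - h)‖ ^ 2 := by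
    have h1 : ‖∑ m ∈ Ioc a (b + H), ∑ h ∈ range H, w (m - h)‖
        ≤ ∑ m ∈ Ioc a (b + H), ‖∑ h ∈ range H, w (m - h)‖ := norm_sum_le _ _
    have h2 : (∑ m ∈ Ioc a (b + H), ‖∑ h ∈ range H, w (m - h)‖) ^ 2
        ≤ ((Ioc a (b + H)).card : ℝ) * ∑ m ∈ Ioc a (b + H), ‖∑ h ∈ range H, w (m - h)‖ ^ 2 :=
      sq_sum_le_card_mul_sum_sq
    exact (pow_le_pow_left₀ (norm_nonneg _) h1 2).trans h2
  have hcard : ((Ioc a (b + H)).card : ℝ) ≤ 2 * Y := by
    rw [Nat.card_Ioc]
    have : b + H - a ≤ 2 * Y := by omega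
    exact_mod_cast this
  have hH0 : (0:ℝ) < H := by exact_mod_cast hH
  have hfin : (H:ℝ) ^ 2 * ‖∑ n ∈ Ioc a b, z n‖ ^ 2 ≤ 2 * Y * (H * (Y + 2 * Sg)) := by
    have e : (H:ℝ) ^ 2 * ‖∑ n ∈ Ioc a b, z n‖ ^ 2 = ‖(H : ℂ) * ∑ n ∈ Ioc a b, z n‖ ^ 2 := by
      rw [norm_mul, mul_pow, Complex.norm_natCast]
    rw [e, hS1]
    refine hcs.trans ?_
    have hnn : 0 ≤ ∑ m ∈ Ioc a (b + H), ‖∑ h ∈ range H, w (m - h)‖ ^ 2 :=
      Finset.sum_nonneg fun m _ => by positivity
    exact mul_le_mul hcard hS3 hnn (by positivity)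
  have e : 2 * (Y : ℝ) ^ 2 / H + 4 * (Y : ℝ) / H * Sg = 2 * Y * (H * (Y + 2 * Sg)) / H ^ 2 := by
    field_simp; ring
  rw [e, le_div_iff₀ (by positivity)]
  linarith

end Pool.Agent.H76.EHB

end

section

/-!
The logarithmic weights of Richert combined with the sieve of `GoldChain`.
-/

namespace Pool.Agent.H91.Gold

open Finset

/-- The primes in the interval `(x, y]`. -/
def Pr (x y : ℕ) : Finset ℕ := (Ioc x y).filter Nat.Prime

theorem mem_Pr {x y p : ℕ} : p ∈ Pr x y ↔ (x < p ∧ p ≤ y) ∧ p.Prime := by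
  unfold Pr; simp

theorem prime_of_Pr {x y p : ℕ} (h : p ∈ Pr x y) : p.Prime := (mem_Pr.1 h).2

end Pool.Agent.H91.Gold

end

section

/-!
# MID Nz: distance to the nearest integer, and the one-step relation

`nz t = |t - round t|`.  `Rel C n P η F F' α α' R`: `R` is a set of triples `(K, p, G)`, `K ∈ F`, `G ∈ F'`, `p` a prime in
`(P, 2P]`, with `|G p - K P| ≤ C P` and `‖p α(K) - α'(G)‖ ≤ η`; all indices of `F` and `F'` lie in `[n/C, C n]`.
-/

set_option autoImplicit false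

namespace Pool.Agent.H53.MID

open Finset

/-- the distance to the nearest integer -/
noncomputable def nz (t : ℝ) : ℝ := |t - round t|

theorem nz_nonneg (t : ℝ) : 0 ≤ nz t := abs_nonneg _

theorem nz_le_half (t : ℝ) : nz t ≤ 1 / 2 := abs_sub_round t

theorem nz_le_of (t : ℝ) (m : ℤ) : nz t ≤ |t - m| := round_le t m

theorem nz_exists (t : ℝ) : ∃ m : ℤ, |t - m| = nz t := ⟨round t, rfl⟩

theorem nz_le_abs (t : ℝ) : nz t ≤ |t| := by simpa using nz_le_of t 0

theorem nz_add (s t : ℝ) : nz (s + t) ≤ nz s + nz t := by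
  refine (nz_le_of (s + t) (round s + round t)).trans ?_
  unfold nz
  push_cast
  have h : s + t - (round s + round t) = (s - round s) + (t - round t) := by ring
  rw [h]
  exact abs_add_le _ _

theorem nz_neg (t : ℝ) : nz (-t) = nz t := by
  apply le_antisymm
  · refine (nz_le_of (-t) (-round t)).trans (le_of_eq ?_)
    unfold nz
    push_cast
    rw [← abs_neg]
    congr 1
    ring
  · refine (nz_le_of t (-round (-t))).trans (le_of_eq ?_)
    unfold nz
    push_cast
    rw [← abs_neg]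
    congr 1
    ring

theorem nz_sub (s t : ℝ) : nz (s - t) ≤ nz s + nz t := by
  rw [sub_eq_add_neg, ← nz_neg t]
  exact nz_add _ _

theorem nz_add_int (t : ℝ) (m : ℤ) : nz (t + m) = nz t := by
  unfold nz
  rw [round_add_intCast]
  push_cast
  congr 1
  ring

theorem nz_sub_int (t : ℝ) (m : ℤ) : nz (t - m) = nz t := by
  have h := nz_add_int t (-m)
  push_cast at h
  rw [← sub_eq_add_neg] at h
  exact h

theorem nz_int_mul (k : ℤ) (t : ℝ) : nz (k * t) ≤ |(k : ℝ)| * nz t := by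
  refine (nz_le_of (k * t) (k * round t)).trans (le_of_eq ?_)
  unfold nz
  push_cast
  rw [← mul_sub, abs_mul]

theorem nz_nat_mul (k : ℕ) (t : ℝ) : nz (k * t) ≤ k * nz t := by
  have h := nz_int_mul (k : ℤ) t
  simpa using h

theorem nz_eq_abs (t : ℝ) (h : |t| < 1 / 2) : nz t = |t| := by
  have h2 : round t = 0 := by
    rw [round_eq_zero_iff]
    rw [abs_lt] at h
    exact ⟨by linarith [h.1], by linarith [h.2]⟩
  unfold nz
  rw [h2]
  simp

theorem nz_triangle (s t u : ℝ) : nz (s - u) ≤ nz (s - t) + nz (t - u) := by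
  have h : s - u = (s - t) + (t - u) := by ring
  rw [h]
  exact nz_add _ _

/-- a fraction with denominator `d` which is not an integer is at distance `≥ 1/d` from the integers -/
theorem nz_frac_ge (a : ℤ) (d : ℕ) (hd : 0 < d) (h : ¬ (d : ℤ) ∣ a) : 1 / (d : ℝ) ≤ nz ((a : ℝ) / d) := by
  have hd0 : (0 : ℝ) < d := by exact_mod_cast hd
  obtain ⟨m, hm⟩ := nz_exists ((a : ℝ) / d)
  rw [← hm]
  have h1 : (a : ℝ) / d - m = ((a - d * m : ℤ) : ℝ) / d := by
    push_cast
    field_simp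
  rw [h1, abs_div, abs_of_pos hd0]
  refine div_le_div_of_nonneg_right ?_ hd0.le
  have h2 : a - d * m ≠ 0 := by
    intro h3
    exact h ⟨m, by linarith⟩
  have h3 : 1 ≤ |a - d * m| := Int.one_le_abs h2
  exact_mod_cast h3

/-- the one-step relation -/
structure Rel (C : ℝ) (n P : ℕ) (η : ℝ) (F F' : Finset ℕ) (α α' : ℕ → ℝ) (R : Finset (ℕ × ℕ × ℕ)) : Prop where
  memF : ∀ t ∈ R, t.1 ∈ F
  memF' : ∀ t ∈ R, t.2.2 ∈ F'
  prime : ∀ t ∈ R, t.2.1.Prime ∧ P < t.2.1 ∧ t.2.1 ≤ 2 * P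
  pos : ∀ t ∈ R, |(t.2.2 : ℝ) * t.2.1 - t.1 * P| ≤ C * P
  freq : ∀ t ∈ R, nz (t.2.1 * α t.1 - α' t.2.2) ≤ η
  rngF : ∀ K ∈ F, (n : ℝ) / C ≤ K ∧ (K : ℝ) ≤ C * n
  rngF' : ∀ K ∈ F', (n : ℝ) / C ≤ K ∧ (K : ℝ) ≤ C * n

end Pool.Agent.H53.MID

end

section

/-!
# W MeanV: mean value theorem for Dirichlet polynomials (elementary)

Proof.  Expand: `∫_{-T}^T ‖∑‖^2 = ∑_{m,m'} a_m conj(a_m') (m m')^{-1/2} ∫_{-T}^T (m/m')^{it} dt`; the diagonal gives
`2T ∑ |a_m|^2/m`; for `m ≠ m'` the integral is `≤ 2/|log(m/m')| ≤ 2 X/|m - m'|` in absolute value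
(`|log(m/m')| ≥ |m-m'|/max(m,m')`), `|a_m a_m'| (m m')^{-1/2} ≤ (|a_m|^2/m + |a_m'|^2/m')/2`, and
`∑_{m' ≠ m, m' ≤ X} 1/|m-m'| ≤ 2 (1 + log X)`.
-/

set_option autoImplicit false

namespace Pool.Agent.H35.W

open Finset MeasureTheory

/-- the integral of a character -/
private theorem mv_int (T c : ℝ) (hc : c ≠ 0) :
    ‖∫ t in (-T)..T, Complex.exp ((c * Complex.I) * (t : ℂ))‖ ≤ 2 / |c| := by
  have hc' : (c * Complex.I : ℂ) ≠ 0 := by
    simp [hc]
  rw [integral_exp_mul_complex hc', norm_div]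
  have h1 : ‖(c * Complex.I : ℂ)‖ = |c| := by simp
  rw [h1]
  refine div_le_div_of_nonneg_right ?_ (abs_nonneg _)
  have e : ∀ s : ℝ, ‖Complex.exp ((c * Complex.I) * (s : ℂ))‖ = 1 := by
    intro s
    have : (c * Complex.I) * (s : ℂ) = ((c * s : ℝ) : ℂ) * Complex.I := by push_cast; ring
    rw [this, Complex.norm_exp_ofReal_mul_I]
  refine (norm_sub_le _ _).trans ?_
  rw [e, e]
  norm_num

/-- expansion of the mean square -/
private theorem mv_expand (b : ℕ → ℂ) (l : ℕ → ℝ) (S : Finset ℕ) (T : ℝ) :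
    ∫ t in (-T)..T, ‖∑ m ∈ S, b m * Complex.exp ((l m * Complex.I) * (t : ℂ))‖ ^ 2
      ≤ ∑ m ∈ S, ∑ n ∈ S, ‖b m‖ * ‖b n‖ *
        ‖∫ t in (-T)..T, Complex.exp ((((l m - l n : ℝ) : ℂ) * Complex.I) * (t : ℂ))‖ := by
  have hpt : ∀ t : ℝ, ((‖∑ m ∈ S, b m * Complex.exp ((l m * Complex.I) * (t : ℂ))‖ ^ 2 : ℝ) : ℂ)
      = ∑ m ∈ S, ∑ n ∈ S, b m * (starRingEnd ℂ) (b n) *
        Complex.exp ((((l m - l n : ℝ) : ℂ) * Complex.I) * (t : ℂ)) := by
    intro t
    rw [← Complex.normSq_eq_norm_sq, ← Complex.mul_conj, map_sum, Finset.sum_mul_sum]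
    refine Finset.sum_congr rfl fun m _ => Finset.sum_congr rfl fun n _ => ?_
    rw [map_mul, ← Complex.exp_conj]
    have : (starRingEnd ℂ) ((l n * Complex.I) * (t : ℂ)) = -((l n * Complex.I) * (t : ℂ)) := by
      simp
    rw [this]
    have e : Complex.exp ((((l m - l n : ℝ) : ℂ) * Complex.I) * (t : ℂ)) =
        Complex.exp ((l m * Complex.I) * (t : ℂ)) * Complex.exp (-((l n * Complex.I) * (t : ℂ))) := by
      rw [← Complex.exp_add]
      congr 1
      push_cast
      ring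
    rw [e]
    ring
  have hcont : ∀ c : ℝ, Continuous fun t : ℝ => Complex.exp ((c * Complex.I) * (t : ℂ)) := by
    intro c
    fun_prop
  have hint : ((∫ t in (-T)..T, ‖∑ m ∈ S, b m * Complex.exp ((l m * Complex.I) * (t : ℂ))‖ ^ 2 : ℝ) : ℂ)
      = ∑ m ∈ S, ∑ n ∈ S, b m * (starRingEnd ℂ) (b n) *
        ∫ t in (-T)..T, Complex.exp ((((l m - l n : ℝ) : ℂ) * Complex.I) * (t : ℂ)) := by
    rw [← intervalIntegral.integral_ofReal]
    have : (fun t : ℝ => ((‖∑ m ∈ S, b m * Complex.exp ((l m * Complex.I) * (t : ℂ))‖ ^ 2 : ℝ) : ℂ))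
        = fun t : ℝ => ∑ m ∈ S, ∑ n ∈ S, b m * (starRingEnd ℂ) (b n) *
        Complex.exp ((((l m - l n : ℝ) : ℂ) * Complex.I) * (t : ℂ)) := funext hpt
    rw [intervalIntegral.integral_congr (g := fun t : ℝ => ∑ m ∈ S, ∑ n ∈ S,
      b m * (starRingEnd ℂ) (b n) *
        Complex.exp ((((l m - l n : ℝ) : ℂ) * Complex.I) * (t : ℂ))) (fun t _ => hpt t)]
    rw [intervalIntegral.integral_finsetSum]
    · refine Finset.sum_congr rfl fun m _ => ?_
      rw [intervalIntegral.integral_finsetSum]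
      · refine Finset.sum_congr rfl fun n _ => ?_
        rw [intervalIntegral.integral_const_mul]
      · intro n _
        exact ((hcont _).const_mul _).intervalIntegrable _ _
    · intro m _
      refine Continuous.intervalIntegrable ?_ _ _
      refine continuous_finsetSum _ fun n _ => ?_
      exact continuous_const.mul (hcont _)
  have hn : ∫ t in (-T)..T, ‖∑ m ∈ S, b m * Complex.exp ((l m * Complex.I) * (t : ℂ))‖ ^ 2 ≤
      ‖((∫ t in (-T)..T, ‖∑ m ∈ S, b m * Complex.exp ((l m * Complex.I) * (t : ℂ))‖ ^ 2 : ℝ) : ℂ)‖ := by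
    rw [Complex.norm_real]
    exact le_abs_self _
  refine hn.trans ?_
  rw [hint]
  refine (norm_sum_le _ _).trans (Finset.sum_le_sum fun m _ => ?_)
  refine (norm_sum_le _ _).trans (Finset.sum_le_sum fun n _ => ?_)
  rw [norm_mul, norm_mul, Complex.norm_conj]

/-- harmonic bound -/
private theorem mv_harm (X : ℕ) : ∑ i ∈ range X, (1 : ℝ) / ((i : ℝ) + 1) ≤ 1 + Real.log X := by
  have h := harmonic_le_one_add_log X
  have e : ((harmonic X : ℚ) : ℝ) = ∑ i ∈ range X, (1 : ℝ) / ((i : ℝ) + 1) := by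
    unfold harmonic
    push_cast
    exact Finset.sum_congr rfl fun i _ => by rw [one_div]
  linarith

private theorem mv_row (X m : ℕ) (hm : m ∈ Icc 1 X) :
    ∑ n ∈ (Icc 1 X).filter (fun n => n ≠ m), (1 : ℝ) / |(m : ℝ) - n| ≤ 2 * (1 + Real.log X) := by
  have hm' := Finset.mem_Icc.1 hm
  have hsplit : (Icc 1 X).filter (fun n => n ≠ m) =
      (Icc 1 X).filter (fun n => n < m) ∪ (Icc 1 X).filter (fun n => m < n) := by
    ext n
    simp only [Finset.mem_filter, Finset.mem_union, Finset.mem_Icc]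
    omega
  have hdisj : Disjoint ((Icc 1 X).filter (fun n => n < m)) ((Icc 1 X).filter (fun n => m < n)) := by
    rw [Finset.disjoint_left]
    intro n h1 h2
    have := (Finset.mem_filter.1 h1).2
    have := (Finset.mem_filter.1 h2).2
    omega
  rw [hsplit, Finset.sum_union hdisj]
  have h1 : ∑ n ∈ (Icc 1 X).filter (fun n => n < m), (1 : ℝ) / |(m : ℝ) - n| ≤ 1 + Real.log X := by
    refine le_trans ?_ (mv_harm X)
    have hinj : Set.InjOn (fun n => m - n - 1) ((Icc 1 X).filter (fun n => n < m) : Finset ℕ) := by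
      intro a ha b hb hab
      have ha' := (Finset.mem_filter.1 (Finset.mem_coe.1 ha)).2
      have hb' := (Finset.mem_filter.1 (Finset.mem_coe.1 hb)).2
      simp only at hab
      omega
    have hsub : ((Icc 1 X).filter (fun n => n < m)).image (fun n => m - n - 1) ⊆ range X := by
      intro k hk
      obtain ⟨n, hn, rfl⟩ := Finset.mem_image.1 hk
      have hn' := Finset.mem_filter.1 hn
      have := Finset.mem_Icc.1 hn'.1
      rw [Finset.mem_range]
      omega
    calc ∑ n ∈ (Icc 1 X).filter (fun n => n < m), (1 : ℝ) / |(m : ℝ) - n|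
        = ∑ n ∈ (Icc 1 X).filter (fun n => n < m), (1 : ℝ) / (((m - n - 1 : ℕ) : ℝ) + 1) := by
          refine Finset.sum_congr rfl fun n hn => ?_
          have hn' := (Finset.mem_filter.1 hn).2
          have e : ((m - n - 1 : ℕ) : ℝ) + 1 = (m : ℝ) - n := by
            have : m - n - 1 + 1 + n = m := by omega
            have h3 : (((m - n - 1 + 1 + n : ℕ)) : ℝ) = (m : ℝ) := by rw [this]
            push_cast at h3
            linarith
          rw [e, abs_of_pos]
          have : (n : ℝ) < m := by exact_mod_cast hn'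
          linarith
      _ = ∑ k ∈ ((Icc 1 X).filter (fun n => n < m)).image (fun n => m - n - 1),
            (1 : ℝ) / ((k : ℝ) + 1) := by
          rw [Finset.sum_image hinj]
      _ ≤ ∑ i ∈ range X, (1 : ℝ) / ((i : ℝ) + 1) :=
          Finset.sum_le_sum_of_subset_of_nonneg hsub fun i _ _ => by positivity
  have h2 : ∑ n ∈ (Icc 1 X).filter (fun n => m < n), (1 : ℝ) / |(m : ℝ) - n| ≤ 1 + Real.log X := by
    refine le_trans ?_ (mv_harm X)
    have hinj : Set.InjOn (fun n => n - m - 1) ((Icc 1 X).filter (fun n => m < n) : Finset ℕ) := by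
      intro a ha b hb hab
      have ha' := (Finset.mem_filter.1 (Finset.mem_coe.1 ha)).2
      have hb' := (Finset.mem_filter.1 (Finset.mem_coe.1 hb)).2
      simp only at hab
      omega
    have hsub : ((Icc 1 X).filter (fun n => m < n)).image (fun n => n - m - 1) ⊆ range X := by
      intro k hk
      obtain ⟨n, hn, rfl⟩ := Finset.mem_image.1 hk
      have hn' := Finset.mem_filter.1 hn
      have := Finset.mem_Icc.1 hn'.1
      rw [Finset.mem_range]
      omega
    calc ∑ n ∈ (Icc 1 X).filter (fun n => m < n), (1 : ℝ) / |(m : ℝ) - n|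
        = ∑ n ∈ (Icc 1 X).filter (fun n => m < n), (1 : ℝ) / (((n - m - 1 : ℕ) : ℝ) + 1) := by
          refine Finset.sum_congr rfl fun n hn => ?_
          have hn' := (Finset.mem_filter.1 hn).2
          have e : ((n - m - 1 : ℕ) : ℝ) + 1 = (n : ℝ) - m := by
            have : n - m - 1 + 1 + m = n := by omega
            have h3 : (((n - m - 1 + 1 + m : ℕ)) : ℝ) = (n : ℝ) := by rw [this]
            push_cast at h3
            linarith
          rw [e, abs_sub_comm, abs_of_pos]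
          have : (m : ℝ) < n := by exact_mod_cast hn'
          linarith
      _ = ∑ k ∈ ((Icc 1 X).filter (fun n => m < n)).image (fun n => n - m - 1),
            (1 : ℝ) / ((k : ℝ) + 1) := by
          rw [Finset.sum_image hinj]
      _ ≤ ∑ i ∈ range X, (1 : ℝ) / ((i : ℝ) + 1) :=
          Finset.sum_le_sum_of_subset_of_nonneg hsub fun i _ _ => by positivity
  linarith

private theorem mv_log {m n X : ℕ} (hm : m ∈ Icc 1 X) (hn : n ∈ Icc 1 X) (hne : n ≠ m) :
    |(m : ℝ) - n| / X ≤ |Real.log m - Real.log n| := by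
  have key : ∀ a b : ℕ, a ∈ Icc 1 X → b ∈ Icc 1 X → b < a →
      ((a : ℝ) - b) / X ≤ Real.log a - Real.log b := by
    intro a b ha hb hlt
    have ha' := Finset.mem_Icc.1 ha
    have hb' := Finset.mem_Icc.1 hb
    have ha0 : (0 : ℝ) < a := by exact_mod_cast (show 0 < a by omega)
    have hb0 : (0 : ℝ) < b := by exact_mod_cast (show 0 < b by omega)
    have hX : (0 : ℝ) < X := by exact_mod_cast (show 0 < X by omega)
    have haX : (a : ℝ) ≤ X := by exact_mod_cast ha'.2
    have hlt' : (b : ℝ) < a := by exact_mod_cast hlt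
    have h := Real.log_le_sub_one_of_pos (div_pos hb0 ha0)
    rw [Real.log_div hb0.ne' ha0.ne'] at h
    have e : (b : ℝ) / a - 1 = -(((a : ℝ) - b) / a) := by field_simp; ring
    rw [e] at h
    have h2 : ((a : ℝ) - b) / X ≤ ((a : ℝ) - b) / a :=
      div_le_div_of_nonneg_left (by linarith) ha0 haX
    linarith
  rcases lt_or_gt_of_ne hne with h | h
  · have h1 := key m n hm hn h
    have h2 : (n : ℝ) < m := by exact_mod_cast h
    rw [abs_of_pos (by linarith : (0 : ℝ) < (m : ℝ) - n)]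
    exact h1.trans (le_abs_self _)
  · have h1 := key n m hn hm h
    have h2 : (m : ℝ) < n := by exact_mod_cast h
    rw [abs_sub_comm, abs_of_pos (by linarith : (0 : ℝ) < (n : ℝ) - m), abs_sub_comm]
    exact h1.trans (le_abs_self _)

/-- the kernel -/
private noncomputable def mvK (X : ℕ) (T : ℝ) (m n : ℕ) : ℝ :=
  if n = m then 2 * T else 2 * X * (1 / |(m : ℝ) - n|)

private theorem mvK_symm (X : ℕ) (T : ℝ) (m n : ℕ) : mvK X T m n = mvK X T n m := by
  unfold mvK
  by_cases h : n = m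
  · rw [if_pos h, if_pos h.symm]
  · rw [if_neg h, if_neg (Ne.symm h), abs_sub_comm]

private theorem mvK_nonneg (X : ℕ) {T : ℝ} (hT : 0 ≤ T) (m n : ℕ) : 0 ≤ mvK X T m n := by
  unfold mvK
  split_ifs <;> positivity

private theorem mvK_row (X m : ℕ) (T : ℝ) (hm : m ∈ Icc 1 X) :
    ∑ n ∈ Icc 1 X, mvK X T m n ≤ 2 * T + 4 * X * (1 + Real.log X) := by
  rw [← Finset.sum_filter_add_sum_filter_not (Icc 1 X) (fun n => n = m)]
  have h1 : ∑ n ∈ (Icc 1 X).filter (fun n => n = m), mvK X T m n = 2 * T := by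
    rw [Finset.filter_eq' (Icc 1 X) m, if_pos hm, Finset.sum_singleton]
    unfold mvK
    rw [if_pos rfl]
  have h2 : ∑ n ∈ (Icc 1 X).filter (fun n => ¬ n = m), mvK X T m n
      = 2 * X * ∑ n ∈ (Icc 1 X).filter (fun n => n ≠ m), (1 : ℝ) / |(m : ℝ) - n| := by
    rw [Finset.mul_sum]
    refine Finset.sum_congr rfl fun n hn => ?_
    unfold mvK
    rw [if_neg (Finset.mem_filter.1 hn).2]
  rw [h1, h2]
  have h3 := mul_le_mul_of_nonneg_left (mv_row X m hm) (by positivity : (0 : ℝ) ≤ 2 * X)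
  linarith

private theorem mv_kernel {X m n : ℕ} {T : ℝ} (hT : 0 ≤ T) (hm : m ∈ Icc 1 X) (hn : n ∈ Icc 1 X) :
    ‖∫ t in (-T)..T, Complex.exp ((((Real.log m - Real.log n : ℝ) : ℂ) * Complex.I) * (t : ℂ))‖
      ≤ mvK X T m n := by
  unfold mvK
  by_cases h : n = m
  · rw [if_pos h, h]
    have e : ∀ t : ℝ, Complex.exp ((((Real.log m - Real.log m : ℝ) : ℂ) * Complex.I) * (t : ℂ)) = 1 := by
      intro t
      rw [sub_self]
      simp
    simp only [e]
    rw [intervalIntegral.integral_const]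
    simp only [Complex.real_smul, mul_one]
    rw [Complex.norm_real, Real.norm_eq_abs, abs_of_nonneg (by linarith)]
    linarith
  · rw [if_neg h]
    have hX : (0 : ℝ) < X := by
      have := Finset.mem_Icc.1 hm
      exact_mod_cast (show 0 < X by omega)
    have hne : (m : ℝ) - n ≠ 0 := by
      intro h0
      apply h
      have : (n : ℝ) = m := by linarith
      exact_mod_cast this
    have hpos : 0 < |(m : ℝ) - n| := abs_pos.2 hne
    have hl := mv_log hm hn h
    have hlpos : 0 < |Real.log m - Real.log n| := lt_of_lt_of_le (div_pos hpos hX) hl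
    refine (mv_int T _ (abs_pos.1 hlpos)).trans ?_
    calc 2 / |Real.log m - Real.log n| ≤ 2 / (|(m : ℝ) - n| / X) :=
          div_le_div_of_nonneg_left (by norm_num) (div_pos hpos hX) hl
      _ = 2 * X * (1 / |(m : ℝ) - n|) := by field_simp

theorem mean_v (a : ℕ → ℂ) (X : ℕ) (T : ℝ) (hX : 1 ≤ X) (hT : 0 ≤ T) :
    ∫ t in (-T)..T, ‖∑ m ∈ Icc 1 X, a m * (m : ℂ) ^ (-(1 / 2 : ℂ) + t * Complex.I)‖ ^ 2
      ≤ (2 * T + 4 * X * (1 + Real.log X)) * ∑ m ∈ Icc 1 X, ‖a m‖ ^ 2 / m := by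
  set b : ℕ → ℂ := fun m => a m * (m : ℂ) ^ (-(1 / 2 : ℂ)) with hb
  have hbn : ∀ m ∈ Icc 1 X, ‖b m‖ ^ 2 = ‖a m‖ ^ 2 / m := by
    intro m hm
    have hm' := Finset.mem_Icc.1 hm
    have hm0 : (0 : ℝ) < m := by exact_mod_cast (show 0 < m by omega)
    rw [hb]
    simp only
    rw [norm_mul, mul_pow, Complex.norm_natCast_cpow_of_pos (by omega)]
    have e : (-(1 / 2 : ℂ)).re = -(1 / 2 : ℝ) := by simp
    rw [e, ← Real.rpow_natCast, ← Real.rpow_natCast, ← Real.rpow_mul hm0.le]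
    norm_num
    rw [Real.rpow_neg_one]
    ring
  have hpt : ∀ t : ℝ, ∑ m ∈ Icc 1 X, a m * (m : ℂ) ^ (-(1 / 2 : ℂ) + t * Complex.I)
      = ∑ m ∈ Icc 1 X, b m * Complex.exp ((((Real.log m : ℝ) : ℂ) * Complex.I) * (t : ℂ)) := by
    intro t
    refine Finset.sum_congr rfl fun m hm => ?_
    have hm' := Finset.mem_Icc.1 hm
    have hm0 : (m : ℂ) ≠ 0 := by exact_mod_cast (show m ≠ 0 by omega)
    rw [hb]
    simp only
    rw [Complex.cpow_add _ _ hm0, mul_assoc]
    congr 2
    rw [Complex.cpow_def_of_ne_zero hm0, ← Complex.natCast_log]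
    congr 1
    ring
  simp_rw [hpt]
  refine (mv_expand b (fun m => Real.log m) (Icc 1 X) T).trans ?_
  calc ∑ m ∈ Icc 1 X, ∑ n ∈ Icc 1 X, ‖b m‖ * ‖b n‖ *
        ‖∫ t in (-T)..T, Complex.exp ((((Real.log m - Real.log n : ℝ) : ℂ) * Complex.I) * (t : ℂ))‖
      ≤ ∑ m ∈ Icc 1 X, ∑ n ∈ Icc 1 X, (‖b m‖ ^ 2 / 2 * mvK X T m n + ‖b n‖ ^ 2 / 2 * mvK X T m n) := by
        refine Finset.sum_le_sum fun m hm => Finset.sum_le_sum fun n hn => ?_
        have h1 := mv_kernel hT hm hn
        have h2 : ‖b m‖ * ‖b n‖ ≤ ‖b m‖ ^ 2 / 2 + ‖b n‖ ^ 2 / 2 := by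
          nlinarith [sq_nonneg (‖b m‖ - ‖b n‖)]
        have h3 := mvK_nonneg X hT m n
        calc ‖b m‖ * ‖b n‖ * ‖∫ t in (-T)..T,
              Complex.exp ((((Real.log m - Real.log n : ℝ) : ℂ) * Complex.I) * (t : ℂ))‖
            ≤ ‖b m‖ * ‖b n‖ * mvK X T m n := mul_le_mul_of_nonneg_left h1 (by positivity)
          _ ≤ (‖b m‖ ^ 2 / 2 + ‖b n‖ ^ 2 / 2) * mvK X T m n := mul_le_mul_of_nonneg_right h2 h3
          _ = _ := by ring
    _ = ∑ m ∈ Icc 1 X, ‖b m‖ ^ 2 * ∑ n ∈ Icc 1 X, mvK X T m n := by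
        simp_rw [Finset.sum_add_distrib]
        have e1 : ∑ m ∈ Icc 1 X, ∑ n ∈ Icc 1 X, ‖b n‖ ^ 2 / 2 * mvK X T m n
            = ∑ m ∈ Icc 1 X, ∑ n ∈ Icc 1 X, ‖b m‖ ^ 2 / 2 * mvK X T m n := by
          rw [Finset.sum_comm]
          refine Finset.sum_congr rfl fun m _ => Finset.sum_congr rfl fun n _ => ?_
          rw [mvK_symm]
        rw [e1, ← Finset.sum_add_distrib]
        refine Finset.sum_congr rfl fun m _ => ?_
        rw [← Finset.sum_add_distrib, Finset.mul_sum]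
        refine Finset.sum_congr rfl fun n _ => ?_
        ring
    _ ≤ ∑ m ∈ Icc 1 X, ‖b m‖ ^ 2 * (2 * T + 4 * X * (1 + Real.log X)) := by
        refine Finset.sum_le_sum fun m hm => ?_
        exact mul_le_mul_of_nonneg_left (mvK_row X m T hm) (by positivity)
    _ = (2 * T + 4 * X * (1 + Real.log X)) * ∑ m ∈ Icc 1 X, ‖a m‖ ^ 2 / m := by
        rw [Finset.mul_sum]
        refine Finset.sum_congr rfl fun m hm => ?_
        rw [hbn m hm]
        ring

end Pool.Agent.H35.W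

end
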