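import Pool.Agent.H43.PJ.H76.EHB.Basic
import Pool.Agent.H43.PJ.M08
import Pool.Agent.H43.PJ.M09
import Pool.Agent.H43.PJ.M18
import Pool.Agent.H43.PJ.M44
import Pool.Agent.H43.PJ.M51

/-! The parts of this file: H9.TM.Poly, H97.VK.PropB, H88.PSI.MuB, H88.PSI.SmB, H76.TP.Om2, H91.TQ.LfuOm, H56.TI.TiS. -/

section

/-!
# TM Poly: the polynomial inequality behind the mass condition

`a_k` = the normalized numbers of composite rough numbers with `k` small primes, `A = 1 + ∑ a_k`, `W = ∑ k a_k`, `E = a2 + 2 a3 + 3 a4`, `G = (3/4) a2 + (4/3) a3 + (15/8) a4`: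
`MM(1, E, G, A, W, 0) = 1 - a0² - 2E - 2 a1 (a2/4 + 2 a3/3 + 9 a4/8) - a2 a3/6 - a2 a4/2 - a3 a4/12`.
-/

set_option autoImplicit false

namespace Pool.Agent.H9.TM

open Pool.Agent.H46.TPQ (MM)

theorem poly_id (a0 a1 a2 a3 a4 : ℝ) :
    MM 1 (a2 + 2 * a3 + 3 * a4) (3 / 4 * a2 + 4 / 3 * a3 + 15 / 8 * a4) (1 + a0 + a1 + a2 + a3 + a4) (a1 + 2 * a2 + 3 * a3 + 4 * a4) 0 =
      1 - a0 ^ 2 - 2 * (a2 + 2 * a3 + 3 * a4) - 2 * a1 * (a2 / 4 + 2 * a3 / 3 + 9 * a4 / 8) - a2 * a3 / 6 - a2 * a4 / 2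
        - a3 * a4 / 12 := by
  unfold MM
  ring

theorem poly_lb (a0 a1 a2 a3 a4 : ℝ) (h0 : 0 ≤ a0) (h1 : 0 ≤ a1) (h2 : 0 ≤ a2) (h3 : 0 ≤ a3) (h4 : 0 ≤ a4)
    (b0 : a0 ≤ 8388 / 10000) (b1 : a1 ≤ 5885 / 10000) (b2 : a2 ≤ 1103 / 10000) (b3 : a3 + a4 ≤ 41 / 10000) :
    128 / 10000 ≤ MM 1 (a2 + 2 * a3 + 3 * a4) (3 / 4 * a2 + 4 / 3 * a3 + 15 / 8 * a4) (1 + a0 + a1 + a2 + a3 + a4)
      (a1 + 2 * a2 + 3 * a3 + 4 * a4) 0 := by
  rw [poly_id]
  have e0 : a0 ^ 2 ≤ (8388 / 10000) ^ 2 := pow_le_pow_left₀ h0 b0 2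
  have e1 : a2 + 2 * a3 + 3 * a4 ≤ 1103 / 10000 + 3 * (41 / 10000) := by linarith
  have e2 : a2 / 4 + 2 * a3 / 3 + 9 * a4 / 8 ≤ 1103 / 10000 / 4 + 9 / 8 * (41 / 10000) := by linarith
  have e3 : a1 * (a2 / 4 + 2 * a3 / 3 + 9 * a4 / 8) ≤ 5885 / 10000 * (1103 / 10000 / 4 + 9 / 8 * (41 / 10000)) :=
    mul_le_mul b1 e2 (by positivity) (by norm_num)
  have e4 : a2 * (a3 / 6 + a4 / 2) ≤ 1103 / 10000 * (41 / 10000 / 2) :=
    mul_le_mul b2 (by linarith) (by positivity) (by norm_num)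
  have e5 : a3 * a4 ≤ 41 / 10000 * (41 / 10000) := mul_le_mul (by linarith) (by linarith) h4 (by norm_num)
  nlinarith

/-- perturbation -/
theorem poly_pert (a0 a1 a2 a3 a4 gp α ω κ : ℝ) (h0 : 0 ≤ a0) (h1 : 0 ≤ a1) (h2 : 0 ≤ a2) (h3 : 0 ≤ a3) (h4 : 0 ≤ a4)
    (b0 : a0 ≤ 8388 / 10000) (b1 : a1 ≤ 5885 / 10000) (b2 : a2 ≤ 1103 / 10000) (b3 : a3 + a4 ≤ 41 / 10000)
    (hgp : |gp - 1| ≤ 1 / 10 ^ 4) (hα : |α - (1 + a0 + a1 + a2 + a3 + a4)| ≤ 2 / 10 ^ 5)
    (hω : |ω - (a1 + 2 * a2 + 3 * a3 + 4 * a4)| ≤ 2 / 10 ^ 5) (hκ0 : 0 ≤ κ) (hκ : κ ≤ 1 / 10 ^ 6) :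
    1 / 100 ≤ MM gp (a2 + 2 * a3 + 3 * a4) (3 / 4 * a2 + 4 / 3 * a3 + 15 / 8 * a4) α ω κ := by
  have hlb := poly_lb a0 a1 a2 a3 a4 h0 h1 h2 h3 h4 b0 b1 b2 b3
  obtain ⟨A, hA⟩ : ∃ A, A = 1 + a0 + a1 + a2 + a3 + a4 := ⟨_, rfl⟩
  obtain ⟨W, hW⟩ : ∃ W, W = a1 + 2 * a2 + 3 * a3 + 4 * a4 := ⟨_, rfl⟩
  obtain ⟨E, hE⟩ : ∃ E, E = a2 + 2 * a3 + 3 * a4 := ⟨_, rfl⟩
  obtain ⟨G, hG⟩ : ∃ G, G = 3 / 4 * a2 + 4 / 3 * a3 + 15 / 8 * a4 := ⟨_, rfl⟩
  rw [← hA, ← hW, ← hE, ← hG] at hlb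
  rw [← hA] at hα
  rw [← hW] at hω
  rw [← hE, ← hG]
  obtain ⟨p, hp⟩ : ∃ p, p = gp - 1 := ⟨_, rfl⟩
  obtain ⟨s, hs⟩ : ∃ s, s = α - A := ⟨_, rfl⟩
  obtain ⟨t, ht⟩ : ∃ t, t = ω - W := ⟨_, rfl⟩
  rw [← hp] at hgp
  rw [← hs] at hα
  rw [← ht] at hω
  have e1 : gp = 1 + p := by linarith
  have e2 : α = A + s := by linarith
  have e3 : ω = W + t := by linarith
  have hA1 : 0 ≤ A ∧ A ≤ 26 / 10 := by constructor <;> linarith
  have hW1 : 0 ≤ W ∧ W ≤ 1 := by constructor <;> linarith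
  have hE1 : 0 ≤ E ∧ E ≤ 1 / 2 := by constructor <;> linarith
  have hG1 : 0 ≤ G ∧ G ≤ 1 / 2 := by constructor <;> linarith
  have hf1 : |A - W| ≤ 2 := by
    rw [abs_le]
    constructor <;> linarith
  have hdiff : MM gp E G α ω κ - MM 1 E G A W 0 =
      2 * p * ((A - W) + (s - t)) + 2 * (s - t) - 2 * (A - W) * (s - t) - (s - t) ^ 2 - 2 * E * s + 2 * G * t
        - 60 * (A + s) * κ - 30 * κ ^ 2 := by
    rw [e1, e2, e3]
    unfold MM
    ring
  have hst : |s - t| ≤ 4 / 10 ^ 5 := by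
    rw [abs_le] at hα hω ⊢
    constructor <;> linarith
  have c1 : |2 * p * ((A - W) + (s - t))| ≤ 2 * (1 / 10 ^ 4) * 3 := by
    rw [abs_mul, abs_mul]
    have k1 : |(A - W) + (s - t)| ≤ 3 := (abs_add_le _ _).trans (by linarith)
    have k2 : |(2 : ℝ)| = 2 := abs_of_pos (by norm_num)
    rw [k2]
    exact mul_le_mul (mul_le_mul_of_nonneg_left hgp (by norm_num)) k1 (abs_nonneg _) (by norm_num)
  have c2 : |2 * (A - W) * (s - t)| ≤ 2 * 2 * (4 / 10 ^ 5) := by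
    rw [abs_mul, abs_mul]
    have k2 : |(2 : ℝ)| = 2 := abs_of_pos (by norm_num)
    rw [k2]
    exact mul_le_mul (mul_le_mul_of_nonneg_left hf1 (by norm_num)) hst (abs_nonneg _) (by norm_num)
  have c3 : (s - t) ^ 2 ≤ (4 / 10 ^ 5) ^ 2 := by
    rw [← sq_abs]
    exact pow_le_pow_left₀ (abs_nonneg _) hst 2
  have c4 : |2 * E * s| ≤ 2 * (1 / 2) * (2 / 10 ^ 5) := by
    rw [abs_mul, abs_mul]
    have k2 : |(2 : ℝ)| = 2 := abs_of_pos (by norm_num)
    rw [k2, abs_of_nonneg hE1.1]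
    exact mul_le_mul (mul_le_mul_of_nonneg_left hE1.2 (by norm_num)) hα (abs_nonneg _) (by norm_num)
  have c5 : |2 * G * t| ≤ 2 * (1 / 2) * (2 / 10 ^ 5) := by
    rw [abs_mul, abs_mul]
    have k2 : |(2 : ℝ)| = 2 := abs_of_pos (by norm_num)
    rw [k2, abs_of_nonneg hG1.1]
    exact mul_le_mul (mul_le_mul_of_nonneg_left hG1.2 (by norm_num)) hω (abs_nonneg _) (by norm_num)
  have c6 : 60 * (A + s) * κ ≤ 60 * 3 * (1 / 10 ^ 6) := by
    have k1 : A + s ≤ 3 := by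
      have := (abs_le.1 hα).2
      linarith
    have k3 : 60 * (A + s) * κ ≤ 60 * 3 * κ := by
      apply mul_le_mul_of_nonneg_right _ hκ0
      linarith
    linarith
  have c7 : κ ^ 2 ≤ (1 / 10 ^ 6) ^ 2 := pow_le_pow_left₀ hκ0 hκ 2
  rw [abs_le] at c1 c2 c4 c5 hst
  norm_num at c1 c2 c3 c4 c5 c6 c7 hst ⊢
  linarith [c1.1, c2.2, c4.2, c5.1, hst.1, hst.2]

end Pool.Agent.H9.TM

end

section

set_option autoImplicit false

namespace Pool.Agent.H97.VK

open Finset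
open Pool.Agent.H91.EHA
open Pool.Agent.H91.PK (ee)

/-- the statement of `psum` -/
def psum_P : Prop := ∀ (A B : ℕ),
    ∃ K' x0 : ℕ, ∀ x : ℕ, x0 ≤ x → ∀ (d : ℕ) (χ : DirichletCharacter ℂ d) (t : ℝ) (v : ℕ),
    1 ≤ d → (d : ℝ) ≤ Real.log x ^ B → Real.log x ^ K' ≤ |t| → |t| ≤ (x : ℝ) ^ (3 : ℕ) → Yx x + 1 ≤ v →
    ‖∑ n ∈ Icc 1 v, χ (n : ZMod d) * ee (t * Real.log n)‖ ≤ v / Real.log x ^ A

/-- the statement of `lk_up` -/
def lk_up_P : Prop := ∀ (k B : ℕ),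
    ∃ C : ℝ, 1 ≤ C ∧ ∃ K' x0 : ℕ, ∀ x : ℕ, x0 ≤ x → ∀ (d : ℕ) (χ : DirichletCharacter ℂ d) (s : ℂ),
    1 ≤ d → (d : ℝ) ≤ Real.log x ^ B → 1 + 1 / (4 * Real.log x) ≤ s.re → s.re ≤ 2 →
    Real.log x ^ K' ≤ |s.im| → |s.im| ≤ 6 * (x : ℝ) ^ (3 : ℕ) →
    ‖Lk (qm x d) (ch x χ) k s‖ ≤ C * L9 x ^ k * LL x ^ (k + 1)

/-- the statement of `sm_sharp_w` -/
def sm_sharp_w_P : Prop := ∀ (k κ B : ℕ) (hκ : 1 ≤ κ),
    ∃ C : ℝ, 1 ≤ C ∧ ∃ K' x0 : ℕ, ∀ x : ℕ, x0 ≤ x →
    ∀ (d : ℕ) (χ : DirichletCharacter ℂ d) (t : ℝ) (v z : ℕ), 1 ≤ d → (d : ℝ) ≤ Real.log x ^ B →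
    Real.exp (Real.log x ^ (19 / 20 : ℝ)) ≤ z → z ≤ x ^ 2 → v ≤ z → Real.log x ^ K' ≤ |t| → |t| ≤ (x : ℝ) ^ (2 : ℕ) →
    ‖∑ n ∈ Icc 1 v, ((Lam n * Real.log n ^ k : ℝ) : ℂ) * ch x χ (n : ZMod (qm x d)) * ee (t * Real.log n)‖ ≤
      C * z * (L9 x ^ (k + 1) * LL x ^ (20 * (k + 1)) * Real.log x ^ (3 * κ) +
        Real.log (2 * z) ^ (k + 1) / Real.log x ^ κ)

/-- the statement of `vk_chi_w` -/
def vk_chi_w_P : Prop := ∀ (K B : ℕ),
    ∃ K' x0 : ℕ, ∀ x : ℕ, x0 ≤ x →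
    ∀ (d : ℕ) (χ : DirichletCharacter ℂ d) (t : ℝ) (z : ℕ), 1 ≤ d → (d : ℝ) ≤ Real.log x ^ B →
    Real.exp (Real.log x ^ (19 / 20 : ℝ)) ≤ z → z ≤ x ^ 2 → Real.log x ^ K' ≤ |t| → |t| ≤ (x : ℝ) ^ (2 : ℕ) →
    ‖∑ n ∈ Icc 1 z, ((Lam n : ℝ) : ℂ) * χ (n : ZMod d) * ee (t * Real.log n)‖ ≤ z / Real.log x ^ K

end Pool.Agent.H97.VK

end

section

/-!
# PSI MuB: cancellation in `∑ μ(n) χ(n) n^{2 π i t}` over dyadic intervals

(helper43)  `F(n) = χ(n) ee(t log n)` is multiplicative.  For `v ≤ 2u + 1` put `M(u,v) = ∑_{u<n≤v} μ(n) F(n)/n`; `|M| ≤ 1`.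
`μ log = -(μ * Λ)` gives, with `y = ⌈exp(L^{19/20})⌉`,
`∑_{u<n≤v} μ(n) log n F(n)/n = -∑_{k ≤ y} (Λ(k) F(k)/k) M(u/k, v/k) - ∑_{m ≤ v} (μ(m) F(m)/m) ∑_{max(u/m, y) < k ≤ v/m} Λ(k) F(k)/k`
(the condition `v ≤ 2u+1` is inherited by `(u/k, v/k)`).  The second part is `≤ C L^{1-K1}` by `vk_chi_w` and partial summation, the first one
`≤ (log y + 6) sup |M(u/k, v/k)|` (Mertens).  Partial summation with `1/log n` and `log u ≥ L/24`:
`sup |M(u,v)| ≤ L^{-1/40} sup |M(u',v')| + L^{-K-1}`, `u' ≥ u/y`.  Iterate `40 (K+1)` times.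
-/

set_option autoImplicit false

namespace Pool.Agent.H88.PSI

open Finset
open Pool.Agent.H91.PK (ee)
open Pool.Agent.H91.EHA (Lam)

/-- Abel summation with decreasing weights -/
private theorem mub_abel_anti (f : ℕ → ℂ) (g : ℕ → ℝ) (M : ℝ) (u v : ℕ)
    (hM : ∀ w, u ≤ w → w ≤ v → ‖∑ n ∈ Ioc u w, f n‖ ≤ M) (hg0 : ∀ n, u < n → n ≤ v → 0 ≤ g n)
    (hg : ∀ n, u < n → n < v → g (n + 1) ≤ g n) (huv : u < v) :
    ‖∑ n ∈ Ioc u v, (g n : ℂ) * f n‖ ≤ M * g (u + 1) := by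
  have key : ∀ m : ℕ, u + 1 ≤ m → m ≤ v →
      ‖∑ n ∈ Ioc u m, (g n : ℂ) * f n - (g m : ℂ) * ∑ n ∈ Ioc u m, f n‖ ≤
        M * (g (u + 1) - g m) := by
    intro m hm
    induction m, hm using Nat.le_induction with
    | base =>
      intro _
      rw [sum_Ioc_succ_top le_rfl, sum_Ioc_succ_top le_rfl, Ioc_self, sum_empty, sum_empty, zero_add,
        zero_add, sub_self, norm_zero, sub_self, mul_zero]
    | succ m hm ih =>
      intro hz
      have h1 := ih (by omega)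
      rw [sum_Ioc_succ_top (show u ≤ m by omega), sum_Ioc_succ_top (show u ≤ m by omega)]
      have h2 : ∑ k ∈ Ioc u m, (g k : ℂ) * f k + (g (m + 1) : ℂ) * f (m + 1) -
          (g (m + 1) : ℂ) * (∑ k ∈ Ioc u m, f k + f (m + 1)) =
          (∑ k ∈ Ioc u m, (g k : ℂ) * f k - (g m : ℂ) * ∑ k ∈ Ioc u m, f k) +
          ((g m - g (m + 1) : ℝ) : ℂ) * ∑ k ∈ Ioc u m, f k := by
        push_cast; ring
      rw [h2]
      refine (norm_add_le _ _).trans ?_
      have h4 := hg m (by omega) (by omega)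
      rw [norm_mul, Complex.norm_real, Real.norm_of_nonneg (by linarith only [h4])]
      have h3 := hM m (by omega) (by omega)
      nlinarith only [h1, h4, h3]
  have h1 := key v (by omega) le_rfl
  have h2 : ∑ n ∈ Ioc u v, (g n : ℂ) * f n =
      (∑ n ∈ Ioc u v, (g n : ℂ) * f n - (g v : ℂ) * ∑ n ∈ Ioc u v, f n) +
      (g v : ℂ) * ∑ n ∈ Ioc u v, f n := by ring
  rw [h2]
  refine (norm_add_le _ _).trans ?_
  rw [norm_mul, Complex.norm_real, Real.norm_of_nonneg (hg0 v huv le_rfl)]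
  have h3 := hM v huv.le le_rfl
  have h4 := hg0 v huv le_rfl
  nlinarith only [h1, h3, h4]

/-- Abel summation with increasing weights -/
theorem mub_abel_mono (f : ℕ → ℂ) (g : ℕ → ℝ) (M : ℝ) (u v : ℕ)
    (hM : ∀ w, u ≤ w → w ≤ v → ‖∑ n ∈ Ioc u w, f n‖ ≤ M) (hg0 : ∀ n, u < n → n ≤ v → 0 ≤ g n)
    (hg : ∀ n, u < n → n < v → g n ≤ g (n + 1)) (huv : u < v) :
    ‖∑ n ∈ Ioc u v, (g n : ℂ) * f n‖ ≤ 2 * M * g v := by
  have hM0 : 0 ≤ M := (norm_nonneg _).trans (hM u le_rfl huv.le)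
  have key : ∀ m : ℕ, u + 1 ≤ m → m ≤ v →
      ‖∑ n ∈ Ioc u m, (g n : ℂ) * f n - (g m : ℂ) * ∑ n ∈ Ioc u m, f n‖ ≤
        M * (g m - g (u + 1)) := by
    intro m hm
    induction m, hm using Nat.le_induction with
    | base =>
      intro _
      rw [sum_Ioc_succ_top le_rfl, sum_Ioc_succ_top le_rfl, Ioc_self, sum_empty, sum_empty, zero_add,
        zero_add, sub_self, norm_zero, sub_self, mul_zero]
    | succ m hm ih =>
      intro hz
      have h1 := ih (by omega)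
      rw [sum_Ioc_succ_top (show u ≤ m by omega), sum_Ioc_succ_top (show u ≤ m by omega)]
      have h2 : ∑ k ∈ Ioc u m, (g k : ℂ) * f k + (g (m + 1) : ℂ) * f (m + 1) -
          (g (m + 1) : ℂ) * (∑ k ∈ Ioc u m, f k + f (m + 1)) =
          (∑ k ∈ Ioc u m, (g k : ℂ) * f k - (g m : ℂ) * ∑ k ∈ Ioc u m, f k) -
          ((g (m + 1) - g m : ℝ) : ℂ) * ∑ k ∈ Ioc u m, f k := by
        push_cast; ring
      rw [h2]
      refine (norm_sub_le _ _).trans ?_
      have h4 := hg m (by omega) (by omega)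
      rw [norm_mul, Complex.norm_real, Real.norm_of_nonneg (by linarith only [h4])]
      have h3 := hM m (by omega) (by omega)
      nlinarith only [h1, h4, h3]
  have h1 := key v (by omega) le_rfl
  have h2 : ∑ n ∈ Ioc u v, (g n : ℂ) * f n =
      (∑ n ∈ Ioc u v, (g n : ℂ) * f n - (g v : ℂ) * ∑ n ∈ Ioc u v, f n) +
      (g v : ℂ) * ∑ n ∈ Ioc u v, f n := by ring
  rw [h2]
  refine (norm_add_le _ _).trans ?_
  rw [norm_mul, Complex.norm_real, Real.norm_of_nonneg (hg0 v huv le_rfl)]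
  have h3 := hM v huv.le le_rfl
  have h4 := hg0 v huv le_rfl
  have h5 := hg0 (u + 1) (by omega) (by omega)
  nlinarith only [h1, hM0, h5, h3, h4, mul_nonneg hM0 h5]

/-- Mertens, upper bound -/
private theorem mub_mert (n : ℕ) (hn : 1 ≤ n) :
    ∑ d ∈ Ioc 0 n, Lam d / d ≤ Real.log n + (Real.log 4 + 4) := by
  have hn0 : (0 : ℝ) < n := by exact_mod_cast hn
  have h1 := Pool.Agent.H91.Gold.log_fact_eq n
  have h2 : ∑ k ∈ Ioc 0 n, Real.log k ≤ n * Real.log n := by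
    calc ∑ k ∈ Ioc 0 n, Real.log k ≤ ∑ k ∈ Ioc 0 n, Real.log n := by
          apply sum_le_sum
          intro k hk
          rw [mem_Ioc] at hk
          exact Real.log_le_log (by exact_mod_cast hk.1) (by exact_mod_cast hk.2)
      _ = n * Real.log n := by rw [sum_const, Nat.card_Ioc, nsmul_eq_mul]; simp
  have h3 := Chebyshev.psi_le_const_mul_self (x := (n : ℝ)) (by positivity)
  rw [Pool.Agent.H91.Gold.psi_eq] at h3
  have h4 : ∑ d ∈ Ioc 0 n, Lam d * ((n : ℝ) / d) ≤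
      ∑ d ∈ Ioc 0 n, Lam d * ((n / d : ℕ) : ℝ) + ∑ d ∈ Ioc 0 n, Lam d := by
    rw [← sum_add_distrib]
    apply sum_le_sum
    intro d hd
    rw [mem_Ioc] at hd
    have h5 : (n : ℝ) / d ≤ ((n / d : ℕ) : ℝ) + 1 := by
      rw [div_le_iff₀ (by exact_mod_cast hd.1)]
      have h6 := Nat.div_add_mod n d
      have h7 := Nat.mod_lt n hd.1
      have h8 : n ≤ (n / d + 1) * d := by nlinarith only [h6, h7]
      exact_mod_cast h8
    have h6 : 0 ≤ Lam d := ArithmeticFunction.vonMangoldt_nonneg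
    nlinarith only [h5, h6, mul_le_mul_of_nonneg_left h5 h6]
  have h5 : ∑ d ∈ Ioc 0 n, Lam d * ((n : ℝ) / d) = n * ∑ d ∈ Ioc 0 n, Lam d / d := by
    rw [mul_sum]
    exact sum_congr rfl fun d _ => by ring
  have h6 : (n : ℝ) * ∑ d ∈ Ioc 0 n, Lam d / d ≤ n * (Real.log n + (Real.log 4 + 4)) := by
    rw [← h5]
    unfold Lam at h4 ⊢
    linarith only [h1, h2, h3, h4]
  exact le_of_mul_le_mul_left h6 hn0

/-- `μ log = -(μ * Λ)` -/
private theorem mub_mulog (n : ℕ) :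
    (((ArithmeticFunction.moebius n : ℤ) : ℝ)) * Real.log n =
      -∑ x ∈ n.divisorsAntidiagonal, ((ArithmeticFunction.moebius x.1 : ℤ) : ℝ) * Lam x.2 := by
  have hb : (ArithmeticFunction.log.pmul ((ArithmeticFunction.moebius : ArithmeticFunction ℤ) :
      ArithmeticFunction ℝ)) = -(((ArithmeticFunction.moebius : ArithmeticFunction ℤ) :
      ArithmeticFunction ℝ) * ArithmeticFunction.vonMangoldt) := by
    have h1 : (ArithmeticFunction.log.pmul ((ArithmeticFunction.moebius : ArithmeticFunction ℤ) :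
      ArithmeticFunction ℝ)) * ((ArithmeticFunction.zeta : ArithmeticFunction ℕ) : ArithmeticFunction ℝ)
        = -ArithmeticFunction.vonMangoldt := by
      ext m
      rw [ArithmeticFunction.coe_mul_zeta_apply]
      have h2 := ArithmeticFunction.sum_moebius_mul_log_eq (n := m)
      rw [ArithmeticFunction.neg_apply, ← h2]
      refine sum_congr rfl fun d _ => ?_
      rw [ArithmeticFunction.pmul_apply, ArithmeticFunction.log_apply, ArithmeticFunction.intCoe_apply]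
      ring
    calc (ArithmeticFunction.log.pmul ((ArithmeticFunction.moebius : ArithmeticFunction ℤ) :
      ArithmeticFunction ℝ))
        = (ArithmeticFunction.log.pmul ((ArithmeticFunction.moebius : ArithmeticFunction ℤ) :
          ArithmeticFunction ℝ)) * (((ArithmeticFunction.zeta : ArithmeticFunction ℕ) :
          ArithmeticFunction ℝ) * ((ArithmeticFunction.moebius : ArithmeticFunction ℤ) :
          ArithmeticFunction ℝ)) := by
            rw [ArithmeticFunction.coe_zeta_mul_coe_moebius, mul_one]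
      _ = _ := by
            rw [← mul_assoc, h1]
            ring
  have h3 := congrArg (fun f : ArithmeticFunction ℝ => f n) hb
  simp only [ArithmeticFunction.pmul_apply, ArithmeticFunction.log_apply,
    ArithmeticFunction.intCoe_apply, ArithmeticFunction.neg_apply, ArithmeticFunction.mul_apply] at h3
  unfold Lam
  linarith

/-- sums over the pairs `(m, k)` with `u < m k ≤ v` -/
private theorem mub_pairs (G : ℕ → ℕ → ℂ) (u v y : ℕ) :
    ∑ n ∈ Ioc u v, ∑ x ∈ n.divisorsAntidiagonal, G x.1 x.2 =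
      ∑ k ∈ (Ioc 0 v).filter (fun k => k ≤ y), ∑ m ∈ Ioc (u / k) (v / k), G m k
      + ∑ m ∈ Ioc 0 v, ∑ k ∈ Ioc (max (u / m) y) (v / m), G m k := by
  set P : Finset (ℕ × ℕ) := (Ioc 0 v ×ˢ Ioc 0 v).filter (fun x => u < x.1 * x.2 ∧ x.1 * x.2 ≤ v) with hP
  have h1 : ∑ n ∈ Ioc u v, ∑ x ∈ n.divisorsAntidiagonal, G x.1 x.2 = ∑ x ∈ P, G x.1 x.2 := by
    rw [← sum_fiberwise_of_maps_to (s := P) (t := Ioc u v) (g := fun x => x.1 * x.2)
      (fun x hx => by
        rw [hP, mem_filter] at hx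
        rw [mem_Ioc]
        exact hx.2)]
    refine sum_congr rfl fun n hn => ?_
    refine sum_congr ?_ fun _ _ => rfl
    rw [mem_Ioc] at hn
    ext ⟨a, b⟩
    rw [Nat.mem_divisorsAntidiagonal, mem_filter, hP, mem_filter, mem_product, mem_Ioc, mem_Ioc]
    simp only
    constructor
    · rintro ⟨h, h0⟩
      have ha : 0 < a := by
        rcases Nat.eq_zero_or_pos a with h2 | h2
        · rw [h2, zero_mul] at h; omega
        · exact h2
      have hb : 0 < b := by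
        rcases Nat.eq_zero_or_pos b with h2 | h2
        · rw [h2, mul_zero] at h; omega
        · exact h2
      have ha' : a ≤ a * b := Nat.le_mul_of_pos_right a hb
      have hb' : b ≤ a * b := Nat.le_mul_of_pos_left b ha
      omega
    · rintro ⟨-, h⟩
      exact ⟨h, by omega⟩
  have h2 : ∑ x ∈ P, G x.1 x.2 = ∑ x ∈ P.filter (fun x => x.2 ≤ y), G x.1 x.2
      + ∑ x ∈ P.filter (fun x => ¬ x.2 ≤ y), G x.1 x.2 := (sum_filter_add_sum_filter_not _ _ _).symm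
  have h3 : ∑ x ∈ P.filter (fun x => x.2 ≤ y), G x.1 x.2
      = ∑ k ∈ (Ioc 0 v).filter (fun k => k ≤ y), ∑ m ∈ Ioc (u / k) (v / k), G m k := by
    have e : P.filter (fun x => x.2 ≤ y) =
        (((Ioc 0 v).filter (fun k => k ≤ y)).sigma (fun k => Ioc (u / k) (v / k))).image
          (fun s : Σ _ : ℕ, ℕ => (s.2, s.1)) := by
      ext ⟨a, b⟩
      simp only [hP, mem_filter, mem_product, mem_Ioc, mem_image, mem_sigma, Prod.mk.injEq]
      constructor
      · rintro ⟨⟨⟨⟨ha, ha'⟩, hb, hb'⟩, h4, h5⟩, h6⟩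
        refine ⟨⟨b, a⟩, ⟨⟨⟨hb, hb'⟩, h6⟩, ?_, ?_⟩, rfl, rfl⟩
        · exact (Nat.div_lt_iff_lt_mul hb).2 h4
        · exact (Nat.le_div_iff_mul_le hb).2 h5
      · rintro ⟨⟨k, m⟩, ⟨⟨⟨hb, hb'⟩, h6⟩, h4, h5⟩, rfl, rfl⟩
        simp only at hb hb' h6 h4 h5 ⊢
        have h7 := (Nat.div_lt_iff_lt_mul hb).1 h4
        have h8 := (Nat.le_div_iff_mul_le hb).1 h5
        have h9 : m ≤ v := h5.trans (Nat.div_le_self v k)
        have h10 : 0 < m := lt_of_le_of_lt (Nat.zero_le _) h4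
        exact ⟨⟨⟨⟨h10, h9⟩, hb, hb'⟩, h7, h8⟩, h6⟩
    rw [e, sum_image, sum_sigma]
    rintro ⟨k, m⟩ _ ⟨k', m'⟩ _ h
    simp only [Prod.mk.injEq] at h
    obtain ⟨rfl, rfl⟩ := h
    rfl
  have h4 : ∑ x ∈ P.filter (fun x => ¬ x.2 ≤ y), G x.1 x.2
      = ∑ m ∈ Ioc 0 v, ∑ k ∈ Ioc (max (u / m) y) (v / m), G m k := by
    have e : P.filter (fun x => ¬ x.2 ≤ y) =
        ((Ioc 0 v).sigma (fun m => Ioc (max (u / m) y) (v / m))).image
          (fun s : Σ _ : ℕ, ℕ => (s.1, s.2)) := by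
      ext ⟨a, b⟩
      simp only [hP, mem_filter, mem_product, mem_Ioc, mem_image, mem_sigma, Prod.mk.injEq]
      constructor
      · rintro ⟨⟨⟨⟨ha, ha'⟩, hb, hb'⟩, h4, h5⟩, h6⟩
        refine ⟨⟨a, b⟩, ⟨⟨ha, ha'⟩, ?_, ?_⟩, rfl, rfl⟩
        · have : u / a < b := (Nat.div_lt_iff_lt_mul ha).2 (by rw [mul_comm]; exact h4)
          simp only
          omega
        · exact (Nat.le_div_iff_mul_le ha).2 (by rw [mul_comm]; exact h5)
      · rintro ⟨⟨m, k⟩, ⟨⟨ha, ha'⟩, h4, h5⟩, rfl, rfl⟩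
        simp only at ha ha' h4 h5 ⊢
        have h7 : u < k * m := (Nat.div_lt_iff_lt_mul ha).1 (lt_of_le_of_lt (le_max_left _ _) h4)
        have h8 := (Nat.le_div_iff_mul_le ha).1 h5
        have h9 : k ≤ v := h5.trans (Nat.div_le_self v m)
        have h10 : y < k := lt_of_le_of_lt (le_max_right _ _) h4
        rw [mul_comm] at h7 h8
        exact ⟨⟨⟨⟨ha, ha'⟩, by omega, h9⟩, h7, h8⟩, by omega⟩
    rw [e, sum_image, sum_sigma]
    rintro ⟨k, m⟩ _ ⟨k', m'⟩ _ h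
    simp only [Prod.mk.injEq] at h
    obtain ⟨rfl, rfl⟩ := h
    rfl
  rw [h1, h2, h3, h4]

/-- the decomposition -/
private theorem mub_dec (F : ℕ → ℂ) (hF : ∀ m k, 1 ≤ m → 1 ≤ k → F (m * k) = F m * F k) (u v y : ℕ) :
    ∑ n ∈ Ioc u v, ((Real.log n : ℝ) : ℂ) * ((((ArithmeticFunction.moebius n : ℤ) : ℝ) : ℂ) * (F n / n)) =
      -(∑ k ∈ (Ioc 0 v).filter (fun k => k ≤ y), ((Lam k : ℝ) : ℂ) * (F k / k) *
          ∑ m ∈ Ioc (u / k) (v / k), (((ArithmeticFunction.moebius m : ℤ) : ℝ) : ℂ) * (F m / m)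
        + ∑ m ∈ Ioc 0 v, (((ArithmeticFunction.moebius m : ℤ) : ℝ) : ℂ) * (F m / m) *
          ∑ k ∈ Ioc (max (u / m) y) (v / m), ((Lam k : ℝ) : ℂ) * (F k / k)) := by
  have h1 : ∀ n ∈ Ioc u v, ((Real.log n : ℝ) : ℂ) *
      ((((ArithmeticFunction.moebius n : ℤ) : ℝ) : ℂ) * (F n / n)) =
      -∑ x ∈ n.divisorsAntidiagonal, (((((ArithmeticFunction.moebius x.1 : ℤ) : ℝ) : ℂ) * (F x.1 / x.1)) *
        (((Lam x.2 : ℝ) : ℂ) * (F x.2 / x.2))) := by
    intro n hn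
    rw [mem_Ioc] at hn
    have h2 := mub_mulog n
    have h3 : ((Real.log n : ℝ) : ℂ) * ((((ArithmeticFunction.moebius n : ℤ) : ℝ) : ℂ) * (F n / n))
        = ((((ArithmeticFunction.moebius n : ℤ) : ℝ) * Real.log n : ℝ) : ℂ) * (F n / n) := by
      push_cast
      ring
    rw [h3, h2]
    push_cast
    rw [neg_mul, sum_mul]
    congr 1
    refine sum_congr rfl fun x hx => ?_
    obtain ⟨hx1, hx2⟩ := Nat.mem_divisorsAntidiagonal.1 hx
    have ha : 0 < x.1 := Nat.pos_of_ne_zero fun h => hx2 (by rw [← hx1, h, zero_mul])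
    have hb : 0 < x.2 := Nat.pos_of_ne_zero fun h => hx2 (by rw [← hx1, h, mul_zero])
    rw [← hx1, hF _ _ ha hb]
    have ha0 : (x.1 : ℂ) ≠ 0 := by exact_mod_cast ha.ne'
    have hb0 : (x.2 : ℂ) ≠ 0 := by exact_mod_cast hb.ne'
    push_cast
    field_simp
  rw [sum_congr rfl h1, sum_neg_distrib,
    mub_pairs (fun m k => ((((ArithmeticFunction.moebius m : ℤ) : ℝ) : ℂ) * (F m / m)) *
        (((Lam k : ℝ) : ℂ) * (F k / k))) u v y]
  congr 2
  · refine sum_congr rfl fun k _ => ?_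
    rw [mul_sum]
    exact sum_congr rfl fun m _ => by ring
  · refine sum_congr rfl fun m _ => ?_
    rw [mul_sum]

/-- one step of the iteration -/
private theorem mub_step (F : ℕ → ℂ) (hF : ∀ m k, 1 ≤ m → 1 ≤ k → F (m * k) = F m * F k)
    (hF1 : ∀ n, ‖F n‖ ≤ 1) (Y y : ℕ) (δ E L : ℝ) (hy : 1 ≤ y) (hδ : 0 ≤ δ) (hE : 0 ≤ E) (hL : 1 ≤ L)
    (hlam : ∀ a b, y ≤ a → a ≤ b → b ≤ 2 * a + 1 → b ≤ Y →
      ‖∑ k ∈ Ioc a b, ((Lam k : ℝ) : ℂ) * (F k / k)‖ ≤ δ)
    (hYL : Real.log Y ≤ 2 * L) (U : ℕ) (hU1 : 1 ≤ U)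
    (hM : ∀ u v, U ≤ u → u ≤ v → v ≤ 2 * u + 1 → v ≤ Y →
      ‖∑ m ∈ Ioc u v, (((ArithmeticFunction.moebius m : ℤ) : ℝ) : ℂ) * (F m / m)‖ ≤ E)
    (u v : ℕ) (hu : U * y ≤ u) (huv : u ≤ v) (hv : v ≤ 2 * u + 1) (hvY : v ≤ Y)
    (huL : L / 24 ≤ Real.log (u + 1)) :
    ‖∑ m ∈ Ioc u v, (((ArithmeticFunction.moebius m : ℤ) : ℝ) : ℂ) * (F m / m)‖ ≤
      24 / L * ((Real.log y + 6) * E + 3 * L * δ) := by
  have hL0 : 0 < L := by linarith only [hL]
  have hly : 0 ≤ Real.log y := Real.log_natCast_nonneg y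
  have hbd0 : 0 ≤ 24 / L * ((Real.log y + 6) * E + 3 * L * δ) := by positivity
  rcases Nat.eq_or_lt_of_le huv with rfl | huv'
  · rw [Ioc_self, sum_empty, norm_zero]
    exact hbd0
  -- bound for the sums with the logarithm
  have hT : ∀ w, u ≤ w → w ≤ v → ‖∑ n ∈ Ioc u w, ((Real.log n : ℝ) : ℂ) *
      ((((ArithmeticFunction.moebius n : ℤ) : ℝ) : ℂ) * (F n / n))‖ ≤ (Real.log y + 6) * E + 3 * L * δ := by
    intro w huw hwv
    rw [mub_dec F hF u w y, norm_neg]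
    refine (norm_add_le _ _).trans (add_le_add ?_ ?_)
    · -- the part `k ≤ y`
      have h1 : ∀ k ∈ (Ioc 0 w).filter (fun k => k ≤ y), ‖((Lam k : ℝ) : ℂ) * (F k / k) *
          ∑ m ∈ Ioc (u / k) (w / k), (((ArithmeticFunction.moebius m : ℤ) : ℝ) : ℂ) * (F m / m)‖
          ≤ Lam k / k * E := by
        intro k hk
        rw [mem_filter, mem_Ioc] at hk
        obtain ⟨⟨hk0, hk1⟩, hk2⟩ := hk
        have hk0' : (0 : ℝ) < k := by exact_mod_cast hk0
        have hLk : 0 ≤ Lam k := ArithmeticFunction.vonMangoldt_nonneg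
        have h2 : ‖∑ m ∈ Ioc (u / k) (w / k), (((ArithmeticFunction.moebius m : ℤ) : ℝ) : ℂ) *
            (F m / m)‖ ≤ E := by
          apply hM
          · rw [Nat.le_div_iff_mul_le hk0]
            exact (Nat.mul_le_mul_left U hk2).trans hu
          · exact Nat.div_le_div_right huw
          · rw [← Nat.lt_succ_iff, Nat.div_lt_iff_lt_mul hk0]
            have h3 := Nat.lt_mul_div_succ u hk0
            have h4 : w ≤ 2 * u + 1 := hwv.trans hv
            nlinarith only [hv, hwv, h3]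
          · exact (Nat.div_le_self w k).trans (hwv.trans hvY)
        rw [norm_mul, norm_mul, Complex.norm_real, Real.norm_of_nonneg hLk, norm_div,
          Complex.norm_natCast]
        have h5 : ‖F k‖ / k ≤ 1 / k := div_le_div_of_nonneg_right (hF1 k) hk0'.le
        calc Lam k * (‖F k‖ / k) * _ ≤ Lam k * (1 / k) * E := by
              refine mul_le_mul (mul_le_mul_of_nonneg_left h5 hLk) h2 (norm_nonneg _) (by positivity)
          _ = Lam k / k * E := by ring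
      refine (norm_sum_le_of_le _ h1).trans ?_
      rw [← sum_mul]
      refine mul_le_mul_of_nonneg_right ?_ hE
      have h2 : ∑ k ∈ (Ioc 0 w).filter (fun k => k ≤ y), Lam k / k ≤ ∑ k ∈ Ioc 0 y, Lam k / k := by
        refine sum_le_sum_of_subset_of_nonneg ?_ fun k _ _ =>
          div_nonneg ArithmeticFunction.vonMangoldt_nonneg (Nat.cast_nonneg k)
        intro k hk
        rw [mem_filter, mem_Ioc] at hk
        rw [mem_Ioc]
        exact ⟨hk.1.1, hk.2⟩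
      refine h2.trans ((mub_mert y hy).trans ?_)
      have h3 : Real.log 4 ≤ 2 := by
        have : Real.log 4 = 2 * Real.log 2 := by
          rw [show (4 : ℝ) = 2 ^ 2 by norm_num, Real.log_pow]; norm_num
        have := Real.log_two_lt_d9
        linarith
      linarith only [h3]
    · -- the part `k > y`
      have h1 : ∀ m ∈ Ioc 0 w, ‖(((ArithmeticFunction.moebius m : ℤ) : ℝ) : ℂ) * (F m / m) *
          ∑ k ∈ Ioc (max (u / m) y) (w / m), ((Lam k : ℝ) : ℂ) * (F k / k)‖ ≤ 1 / (m : ℝ) * δ := by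
        intro m hm
        rw [mem_Ioc] at hm
        have hm0 : (0 : ℝ) < m := by exact_mod_cast hm.1
        have h2 : ‖∑ k ∈ Ioc (max (u / m) y) (w / m), ((Lam k : ℝ) : ℂ) * (F k / k)‖ ≤ δ := by
          rcases Nat.lt_or_ge (w / m) (max (u / m) y) with h | h
          · rw [Ioc_eq_empty (by omega), sum_empty, norm_zero]
            exact hδ
          · apply hlam _ _ (le_max_right _ _) h
            · have h5 : w / m ≤ 2 * (u / m) + 1 := by
                rw [← Nat.lt_succ_iff, Nat.div_lt_iff_lt_mul hm.1]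
                have h3 := Nat.lt_mul_div_succ u hm.1
                have h4 : w ≤ 2 * u + 1 := hwv.trans hv
                nlinarith only [hv, hwv, h3]
              have h6 := le_max_left (u / m) y
              omega
            · exact (Nat.div_le_self w m).trans (hwv.trans hvY)
        rw [norm_mul, norm_mul, norm_div, Complex.norm_natCast]
        have hmu : ‖(((ArithmeticFunction.moebius m : ℤ) : ℝ) : ℂ)‖ ≤ 1 := by
          rw [Complex.norm_real, Real.norm_eq_abs]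
          have := ArithmeticFunction.abs_moebius_le_one (n := m)
          exact_mod_cast this
        have h5 : ‖F m‖ / m ≤ 1 / m := div_le_div_of_nonneg_right (hF1 m) hm0.le
        have h6 : ‖(((ArithmeticFunction.moebius m : ℤ) : ℝ) : ℂ)‖ * (‖F m‖ / m) ≤ 1 * (1 / m) :=
          mul_le_mul hmu h5 (by positivity) zero_le_one
        rw [one_mul] at h6
        exact mul_le_mul h6 h2 (norm_nonneg _) (by positivity)
      refine (norm_sum_le_of_le _ h1).trans ?_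
      rw [← sum_mul]
      refine mul_le_mul_of_nonneg_right ?_ hδ
      have hw1 : 1 ≤ w := by nlinarith only [hy, hu, huw, hU1]
      have h2 : ∑ m ∈ Ioc 0 w, 1 / (m : ℝ) ≤ 1 + Real.log w := by
        have h3 := harmonic_le_one_add_log w
        have h4 : ((harmonic w : ℚ) : ℝ) = ∑ m ∈ Ioc 0 w, 1 / (m : ℝ) := by
          rw [harmonic_eq_sum_Icc]
          push_cast
          refine sum_congr ?_ fun m _ => by rw [one_div]
          ext m
          simp only [mem_Icc, mem_Ioc]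
          omega
        rw [← h4]
        exact h3
      have h3 : Real.log w ≤ Real.log Y :=
        Real.log_le_log (by exact_mod_cast hw1) (by exact_mod_cast hwv.trans hvY)
      linarith only [hL, hYL, h2, h3]
  -- partial summation with `1/log n`
  have hu1 : 1 ≤ u := by nlinarith only [hy, hu, hU1]
  have hlogpos : ∀ n : ℕ, u < n → 0 < Real.log n := by
    intro n hn
    exact Real.log_pos (by exact_mod_cast (by omega : 1 < n))
  have h1 := mub_abel_anti (fun n => ((Real.log n : ℝ) : ℂ) *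
      ((((ArithmeticFunction.moebius n : ℤ) : ℝ) : ℂ) * (F n / n))) (fun n => 1 / Real.log n) _ u v hT
      (fun n hn _ => by have := hlogpos n hn; positivity)
      (fun n hn _ => one_div_le_one_div_of_le (hlogpos n hn)
        (Real.log_le_log (by exact_mod_cast (by omega : 0 < n)) (by push_cast; linarith only))) huv'
  have h2 : ∑ n ∈ Ioc u v, (((1 / Real.log n : ℝ)) : ℂ) * (((Real.log n : ℝ) : ℂ) *
      ((((ArithmeticFunction.moebius n : ℤ) : ℝ) : ℂ) * (F n / n)))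
      = ∑ m ∈ Ioc u v, (((ArithmeticFunction.moebius m : ℤ) : ℝ) : ℂ) * (F m / m) := by
    refine sum_congr rfl fun n hn => ?_
    rw [mem_Ioc] at hn
    have h3 : ((Real.log n : ℝ) : ℂ) ≠ 0 := by
      exact_mod_cast (hlogpos n hn.1).ne'
    rw [Complex.ofReal_div, Complex.ofReal_one, ← mul_assoc, one_div, inv_mul_cancel₀ h3, one_mul]
  rw [h2] at h1
  refine h1.trans ?_
  rw [mul_comm]
  refine mul_le_mul_of_nonneg_right ?_ (by positivity)
  have h3 : 0 < L / 24 := by positivity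
  refine (one_div_le_one_div_of_le h3 ?_).trans (le_of_eq ?_)
  · push_cast
    exact huL
  · rw [one_div_div]

/-- the numerical facts for large `X` -/
private theorem mub_ev (S : ℕ) : ∃ X0 : ℕ, ∀ X : ℕ, X0 ≤ X → ∃ z : ℝ, 1 ≤ z ∧ z ^ 40 = Real.log X ∧
    Real.log X ^ (19 / 20 : ℝ) = z ^ 38 ∧ 216 ≤ Real.log X ∧ 4 * ((S : ℝ) + 1) ≤ Real.log X ∧
    24 * (z ^ 38 + 7) ≤ z ^ 39 ∧ 24 * (S * (z ^ 38 + 1)) ≤ z ^ 40 := by
  obtain ⟨Z, hZ⟩ : ∃ Z : ℝ, Z = 216 + 48 * (S : ℝ) := ⟨_, rfl⟩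
  have hS : (0 : ℝ) ≤ S := Nat.cast_nonneg S
  have hZ216 : 216 ≤ Z := by linarith
  have hZS : 48 * (S : ℝ) ≤ Z := by linarith
  have hZS4 : 4 * ((S : ℝ) + 1) ≤ Z := by linarith
  obtain ⟨X0, hX0⟩ := Filter.eventually_atTop.1
    ((Real.tendsto_log_atTop.comp (tendsto_natCast_atTop_atTop (R := ℝ))).eventually_ge_atTop
      (Z ^ 40))
  refine ⟨X0, fun X hX => ?_⟩
  have h1 : Z ^ 40 ≤ Real.log X := hX0 X hX
  have h3 : Z ≤ Z ^ 40 := le_self_pow₀ (by linarith only [hZ]) (by norm_num)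
  have hZL : Z ≤ Real.log X := h3.trans h1
  have hL : 0 < Real.log X := by linarith
  obtain ⟨z, hz⟩ : ∃ z : ℝ, z = Real.log X ^ (1 / 40 : ℝ) := ⟨_, rfl⟩
  have hzZ : Z ≤ z := by
    have h4 : (Z ^ 40) ^ (1 / 40 : ℝ) ≤ Real.log X ^ (1 / 40 : ℝ) :=
      Real.rpow_le_rpow (by positivity) h1 (by norm_num)
    have h5 : (Z ^ 40) ^ (1 / 40 : ℝ) = Z := by
      rw [← Real.rpow_natCast, ← Real.rpow_mul (by linarith only [hZ])]
      norm_num
    rw [h5] at h4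
    rw [hz]
    exact h4
  clear h1 h3
  have hz0 : 0 < z := by linarith only [hZ, hzZ]
  have hz1 : 1 ≤ z := by linarith
  have e1 : z ^ 40 = Real.log X := by
    rw [hz, ← Real.rpow_natCast, ← Real.rpow_mul hL.le]
    norm_num
  have e2 : Real.log X ^ (19 / 20 : ℝ) = z ^ 38 := by
    rw [hz, ← Real.rpow_natCast, ← Real.rpow_mul hL.le]
    norm_num
  obtain ⟨a, ha⟩ : ∃ a : ℝ, a = z ^ 38 := ⟨_, rfl⟩
  have h95 : 1 ≤ a := by rw [ha]; exact one_le_pow₀ hz1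
  have h39 : z ^ 39 = z * a := by rw [ha, ← pow_succ']
  have h40 : z ^ 40 = z * (z * a) := by rw [← h39, ← pow_succ']
  refine ⟨z, hz1, e1, e2, by linarith only [hZ, hZL], by linarith only [hZ, hZL], ?_, ?_⟩
  · rw [h39, ← ha]
    have h5 : 192 * a ≤ z * a := mul_le_mul_of_nonneg_right (by linarith only [hZ, hzZ]) (by linarith only [h95])
    linarith only [h95, h5]
  · rw [h40, ← ha]
    have h9 : 48 * (S : ℝ) ≤ z := by linarith only [hZ, hzZ]
    have h11 : (S : ℝ) * (a + 1) ≤ S * (2 * a) := mul_le_mul_of_nonneg_left (by linarith only [h95]) hS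
    have h12 : 48 * (S : ℝ) * a ≤ z * a := mul_le_mul_of_nonneg_right h9 (by linarith only [h95])
    have h13 : z * a ≤ z * (z * a) := by
      have : 0 ≤ z * a := by positivity
      exact le_mul_of_one_le_left this hz1
    linarith only [hZ, hZL, e1, h40, h12, h13]

/-- the iteration -/
private theorem mub_iter (F : ℕ → ℂ) (hF : ∀ m k, 1 ≤ m → 1 ≤ k → F (m * k) = F m * F k)
    (hF1 : ∀ n, ‖F n‖ ≤ 1) (Y y S : ℕ) (δ ρ L : ℝ) (hy : 1 ≤ y) (hδ : 0 ≤ δ) (hL : 1 ≤ L)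
    (hlam : ∀ a b, y ≤ a → a ≤ b → b ≤ 2 * a + 1 → b ≤ Y →
      ‖∑ k ∈ Ioc a b, ((Lam k : ℝ) : ℂ) * (F k / k)‖ ≤ δ)
    (hYL : Real.log Y ≤ 2 * L) (W : ℕ) (hW : 1 ≤ W) (hWL : L / 24 ≤ Real.log W)
    (hρ0 : 0 < ρ) (hρ1 : ρ ≤ 1) (hρ : 24 / L * (Real.log y + 6) ≤ ρ) (hδρ : 72 * δ ≤ ρ ^ S) :
    ∀ s, s ≤ S → ∀ u v, W * y ^ s ≤ u → u ≤ v → v ≤ 2 * u + 1 → v ≤ Y →
      ‖∑ m ∈ Ioc u v, (((ArithmeticFunction.moebius m : ℤ) : ℝ) : ℂ) * (F m / m)‖
        ≤ ((s : ℝ) + 1) * ρ ^ s := by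
  intro s
  induction s with
  | zero =>
    intro _ u v hu huv hv _
    have hu1 : 1 ≤ u := by
      rw [pow_zero, mul_one] at hu
      omega
    have h1 : ∀ m ∈ Ioc u v, ‖(((ArithmeticFunction.moebius m : ℤ) : ℝ) : ℂ) * (F m / m)‖
        ≤ 1 / ((u : ℝ) + 1) := by
      intro m hm
      rw [mem_Ioc] at hm
      have hm0 : (0 : ℝ) < m := by exact_mod_cast (by omega : 0 < m)
      rw [norm_mul, norm_div, Complex.norm_natCast]
      have hmu : ‖(((ArithmeticFunction.moebius m : ℤ) : ℝ) : ℂ)‖ ≤ 1 := by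
        rw [Complex.norm_real, Real.norm_eq_abs]
        have := ArithmeticFunction.abs_moebius_le_one (n := m)
        exact_mod_cast this
      have h5 : ‖F m‖ / m ≤ 1 / m := div_le_div_of_nonneg_right (hF1 m) hm0.le
      have h6 : ‖(((ArithmeticFunction.moebius m : ℤ) : ℝ) : ℂ)‖ * (‖F m‖ / m) ≤ 1 * (1 / m) :=
        mul_le_mul hmu h5 (by positivity) zero_le_one
      rw [one_mul] at h6
      refine h6.trans (one_div_le_one_div_of_le (by positivity) ?_)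
      exact_mod_cast hm.1
    refine (norm_sum_le_of_le _ h1).trans ?_
    rw [sum_const, Nat.card_Ioc, nsmul_eq_mul]
    have h2 : ((v - u : ℕ) : ℝ) ≤ (u : ℝ) + 1 := by exact_mod_cast (by omega : v - u ≤ u + 1)
    have h3 : (0 : ℝ) < (u : ℝ) + 1 := by positivity
    rw [mul_one_div, div_le_iff₀ h3]
    push_cast
    rw [pow_zero]
    linarith only [h2]
  | succ s ih =>
    intro hs u v hu huv hv hvY
    have hU1 : 1 ≤ W * y ^ s := Nat.mul_pos hW (Nat.pow_pos hy)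
    have hWu : W ≤ u := by
      refine le_trans ?_ hu
      exact Nat.le_mul_of_pos_right W (Nat.pow_pos hy)
    have hE0 : 0 ≤ ((s : ℝ) + 1) * ρ ^ s := by positivity
    have huL : L / 24 ≤ Real.log ((u : ℝ) + 1) := by
      refine hWL.trans (Real.log_le_log (by exact_mod_cast hW) ?_)
      have : (W : ℝ) ≤ u := by exact_mod_cast hWu
      linarith only [this]
    have h1 := mub_step F hF hF1 Y y δ (((s : ℝ) + 1) * ρ ^ s) L hy hδ hE0 hL hlam hYL (W * y ^ s) hU1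
      (ih (by omega)) u v (by rw [mul_assoc, ← pow_succ]; exact hu) huv hv hvY huL
    refine h1.trans ?_
    have hL0 : 0 < L := by linarith only [hL]
    have h2 : 24 / L * ((Real.log y + 6) * (((s : ℝ) + 1) * ρ ^ s) + 3 * L * δ)
        = (24 / L * (Real.log y + 6)) * (((s : ℝ) + 1) * ρ ^ s) + 72 * δ := by
      field_simp
      ring
    rw [h2]
    have h3 : (24 / L * (Real.log y + 6)) * (((s : ℝ) + 1) * ρ ^ s) ≤ ρ * (((s : ℝ) + 1) * ρ ^ s) :=
      mul_le_mul_of_nonneg_right hρ hE0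
    have h4 : ρ ^ S ≤ ρ ^ (s + 1) := pow_le_pow_of_le_one hρ0.le hρ1 hs
    have h5 : (((s + 1 : ℕ) : ℝ) + 1) * ρ ^ (s + 1) = ρ * (((s : ℝ) + 1) * ρ ^ s) + ρ ^ (s + 1) := by
      push_cast
      ring
    rw [h5]
    linarith only [hδρ, h3, h4]

/-- the character with the twist -/
noncomputable def mub_F {d : ℕ} (χ : DirichletCharacter ℂ d) (t : ℝ) (n : ℕ) : ℂ :=
  χ (n : ZMod d) * ee (t * Real.log n)

private theorem mub_F_mul {d : ℕ} (χ : DirichletCharacter ℂ d) (t : ℝ) (m k : ℕ) (hm : 1 ≤ m)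
    (hk : 1 ≤ k) : mub_F χ t (m * k) = mub_F χ t m * mub_F χ t k := by
  unfold mub_F
  have hm0 : (m : ℝ) ≠ 0 := by exact_mod_cast (by omega : m ≠ 0)
  have hk0 : (k : ℝ) ≠ 0 := by exact_mod_cast (by omega : k ≠ 0)
  push_cast
  rw [map_mul, Real.log_mul hm0 hk0, mul_add, Pool.Agent.H91.PK.LSa_ee_add]
  ring

theorem mub_F_norm {d : ℕ} (χ : DirichletCharacter ℂ d) (t : ℝ) (n : ℕ) :
    ‖mub_F χ t n‖ ≤ 1 := by
  unfold mub_F
  rw [norm_mul, Pool.Agent.H91.PK.LSa_norm_ee, mul_one]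
  exact DirichletCharacter.norm_le_one _ _

theorem mu_b_h (h_vk_chi_w : Pool.Agent.H97.VK.vk_chi_w_P) (K B : ℕ) : ∃ K' X0 : ℕ, ∀ X : ℕ, X0 ≤ X →
    ∀ (d : ℕ) (χ : DirichletCharacter ℂ d) (j : ℕ) (t : ℝ), 1 ≤ d → (d : ℝ) ≤ Real.log X ^ B →
    (X : ℝ) ^ (1 / 7 : ℝ) ≤ (2 : ℝ) ^ j → (2 : ℝ) ^ j ≤ X → Real.log X ^ K' ≤ |t| → |t| ≤ X →
    ‖DP (tw χ (pc 2 j)) (2 * 2 ^ j) t‖ ≤ (2 : ℝ) ^ j / Real.log X ^ K := by
  obtain ⟨K', x1, hvk⟩ := h_vk_chi_w (K + 2) B
  obtain ⟨S, hS⟩ : ∃ S : ℕ, S = 40 * (K + 1) := ⟨_, rfl⟩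
  obtain ⟨x2, hev⟩ := mub_ev S
  refine ⟨K', max (max x1 x2) 2, fun X hX d χ j t hd hdB hj1 hj2 ht1 ht2 => ?_⟩
  have hX1 : x1 ≤ X := ((le_max_left _ _).trans (le_max_left _ _)).trans hX
  have hX2 : x2 ≤ X := ((le_max_right _ _).trans (le_max_left _ _)).trans hX
  have hX3 : 2 ≤ X := (le_max_right _ _).trans hX
  obtain ⟨z, hz1, hzL, hz38, hL216, hLS, hz39, hz40⟩ := hev X hX2
  set L := Real.log X with hLdef
  have hXr : (2 : ℝ) ≤ X := by exact_mod_cast hX3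
  have hX0 : (0 : ℝ) < X := by linarith only [hXr]
  have hL0 : 0 < L := by linarith only [hL216]
  have hL1 : 1 ≤ L := by linarith only [hL216]
  have hexpL : Real.exp L = X := Real.exp_log hX0
  have hz0 : 0 < z := by linarith only [hz1]
  -- `y`
  obtain ⟨y, hydef⟩ : ∃ y : ℕ, y = ⌈Real.exp (L ^ (19 / 20 : ℝ))⌉₊ := ⟨_, rfl⟩
  have hy1 : Real.exp (L ^ (19 / 20 : ℝ)) ≤ y := by rw [hydef]; exact Nat.le_ceil _
  have hy2 : (y : ℝ) ≤ Real.exp (z ^ 38 + 1) := by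
    have h1 : (y : ℝ) < Real.exp (L ^ (19 / 20 : ℝ)) + 1 := by
      rw [hydef]; exact Nat.ceil_lt_add_one (Real.exp_pos _).le
    rw [hz38] at h1
    rw [Real.exp_add]
    have h2 : 1 ≤ Real.exp (z ^ 38) := Real.one_le_exp (by positivity)
    have h3 : (2 : ℝ) ≤ Real.exp 1 := by have := Real.exp_one_gt_d9; linarith only [this]
    nlinarith only [h1, h2, h3]
  have hypos : (0 : ℝ) < y := (Real.exp_pos _).trans_le hy1
  have hy : 1 ≤ y := by exact_mod_cast hypos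
  have hlogy : Real.log y ≤ z ^ 38 + 1 := by
    rw [Real.log_le_iff_le_exp hypos]
    exact hy2
  -- `δ`
  set δ : ℝ := 3 / L ^ (K + 2) with hδdef
  have hδ0 : 0 ≤ δ := by positivity
  have hlam : ∀ a b, y ≤ a → a ≤ b → b ≤ 2 * a + 1 → b ≤ 2 * X →
      ‖∑ k ∈ Ioc a b, ((Lam k : ℝ) : ℂ) * (mub_F χ t k / k)‖ ≤ δ := by
    intro a b ha hab hb hbX
    rcases Nat.eq_or_lt_of_le hab with rfl | hab'
    · rw [Ioc_self, sum_empty, norm_zero]
      exact hδ0
    have hpart : ∀ w, y ≤ w → w ≤ 2 * X → ‖∑ n ∈ Icc 1 w, ((Lam n : ℝ) : ℂ) * mub_F χ t n‖ ≤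
        w / L ^ (K + 2) := by
      intro w hw hwX
      have h1 := hvk X hX1 d χ t w hd hdB (hy1.trans (by exact_mod_cast hw)) (by nlinarith only [hwX, hX3]) ht1 (by
        refine ht2.trans ?_
        exact le_self_pow₀ (by linarith only [hXr]) (by norm_num))
      refine le_trans (le_of_eq ?_) h1
      congr 1
      refine sum_congr rfl fun n _ => ?_
      unfold mub_F
      ring
    have h1 := mub_abel_anti (fun n => ((Lam n : ℝ) : ℂ) * mub_F χ t n) (fun n => 1 / (n : ℝ))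
      ((3 * a + 1) / L ^ (K + 2)) a b (fun w haw hwb => by
        have h2 : ∑ n ∈ Ioc a w, ((Lam n : ℝ) : ℂ) * mub_F χ t n =
            ∑ n ∈ Icc 1 w, ((Lam n : ℝ) : ℂ) * mub_F χ t n -
            ∑ n ∈ Icc 1 a, ((Lam n : ℝ) : ℂ) * mub_F χ t n := by
          have e : Icc 1 w = Icc 1 a ∪ Ioc a w := by
            ext n
            simp only [mem_union, mem_Icc, mem_Ioc]
            omega
          rw [e, sum_union]
          · ring
          · rw [disjoint_left]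
            intro n hn hn'
            simp only [mem_Icc, mem_Ioc] at hn hn'
            omega
        rw [h2]
        refine (norm_sub_le _ _).trans ?_
        have h3 := hpart w (ha.trans haw) (hwb.trans hbX)
        have h4 := hpart a ha (hab.trans hbX)
        have h5 : (w : ℝ) ≤ 2 * a + 1 := by exact_mod_cast hwb.trans hb
        have h6 : (w : ℝ) / L ^ (K + 2) ≤ (2 * a + 1) / L ^ (K + 2) :=
          div_le_div_of_nonneg_right h5 (by positivity)
        have h7 : ((3 : ℝ) * a + 1) / L ^ (K + 2) = (2 * a + 1) / L ^ (K + 2) + a / L ^ (K + 2) := by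
          ring
        linarith only [h3, h4, h6, h7])
      (fun n _ _ => by positivity)
      (fun n hn _ => one_div_le_one_div_of_le (by exact_mod_cast (by omega : 0 < n)) (by
        push_cast; linarith only)) hab'
    have h2 : ∑ n ∈ Ioc a b, ((1 / (n : ℝ) : ℝ) : ℂ) * (((Lam n : ℝ) : ℂ) * mub_F χ t n)
        = ∑ k ∈ Ioc a b, ((Lam k : ℝ) : ℂ) * (mub_F χ t k / k) := by
      refine sum_congr rfl fun n _ => ?_
      push_cast
      ring
    rw [h2] at h1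
    refine h1.trans ?_
    rw [hδdef]
    have ha0 : (0 : ℝ) ≤ a := Nat.cast_nonneg a
    have hLp : 0 < L ^ (K + 2) := by positivity
    push_cast
    rw [div_mul_div_comm, mul_one, div_le_div_iff₀ (by positivity) hLp]
    nlinarith only [hLp]
  -- `W`
  obtain ⟨W, hWdef⟩ : ∃ W : ℕ, W = ⌈(X : ℝ) ^ (1 / 24 : ℝ)⌉₊ := ⟨_, rfl⟩
  have hX24 : (X : ℝ) ^ (1 / 24 : ℝ) = Real.exp (L / 24) := by
    rw [Real.rpow_def_of_pos hX0]
    congr 1
    ring
  have hW1 : Real.exp (L / 24) ≤ W := by rw [hWdef, ← hX24]; exact Nat.le_ceil _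
  have hW2 : (W : ℝ) ≤ 2 * Real.exp (L / 24) := by
    have h1 : (W : ℝ) < Real.exp (L / 24) + 1 := by
      rw [hWdef, ← hX24]; exact Nat.ceil_lt_add_one (by positivity)
    have h2 : 1 ≤ Real.exp (L / 24) := Real.one_le_exp (by positivity)
    linarith only [h1, h2]
  have hWpos : (0 : ℝ) < W := (Real.exp_pos _).trans_le hW1
  have hW : 1 ≤ W := by exact_mod_cast hWpos
  have hWL : L / 24 ≤ Real.log W := by
    rw [Real.le_log_iff_exp_le hWpos]
    exact hW1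
  have hYL : Real.log ((2 * X : ℕ) : ℝ) ≤ 2 * L := by
    push_cast
    rw [Real.log_mul (by norm_num) hX0.ne']
    have := Real.log_two_lt_d9
    linarith only [hL216, this]
  -- `ρ`
  set ρ : ℝ := 1 / z with hρdef
  have hρ0 : 0 < ρ := by positivity
  have hρ1 : ρ ≤ 1 := by
    rw [hρdef, div_le_one hz0]
    exact hz1
  have hρS : ρ ^ S = 1 / L ^ (K + 1) := by
    rw [hρdef, one_div_pow, hS, ← hzL, ← pow_mul]
  have hρ : 24 / L * (Real.log y + 6) ≤ ρ := by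
    rw [hρdef, div_mul_eq_mul_div, div_le_div_iff₀ hL0 hz0, one_mul]
    have h1 : 24 * (Real.log y + 6) ≤ z ^ 39 := by linarith only [hz39, hlogy]
    calc 24 * (Real.log y + 6) * z ≤ z ^ 39 * z :=
          mul_le_mul_of_nonneg_right h1 hz0.le
      _ = L := by rw [← hzL, ← pow_succ]
  have hδρ : 72 * δ ≤ ρ ^ S := by
    rw [hρS, hδdef, mul_div_assoc', div_le_div_iff₀ (by positivity) (by positivity), one_mul]
    have h1 : L ^ (K + 2) = L * L ^ (K + 1) := by ring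
    rw [h1]
    have h2 : 0 < L ^ (K + 1) := by positivity
    nlinarith only [hL216, h2]
  have hiter := mub_iter (mub_F χ t) (mub_F_mul χ t) (mub_F_norm χ t) (2 * X) y S δ ρ L hy hδ0 hL1 hlam
    hYL W hW hWL hρ0 hρ1 hρ hδρ S le_rfl
  -- the range
  have hWy : ((W * y ^ S : ℕ) : ℝ) + 1 ≤ (2 : ℝ) ^ j := by
    refine le_trans ?_ hj1
    have h1 : (y : ℝ) ^ S ≤ Real.exp (L / 24) := by
      calc (y : ℝ) ^ S ≤ (Real.exp (z ^ 38 + 1)) ^ S := pow_le_pow_left₀ hypos.le hy2 S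
        _ = Real.exp (S * (z ^ 38 + 1)) := by rw [← Real.exp_nat_mul]
        _ ≤ Real.exp (L / 24) := by
            apply Real.exp_le_exp.2
            rw [← hzL]
            linarith only [hz40]
    have h2 : (X : ℝ) ^ (1 / 7 : ℝ) = Real.exp (L / 12) * Real.exp (5 * L / 84) := by
      rw [← Real.exp_add, Real.rpow_def_of_pos hX0]
      congr 1
      ring
    have h3 : (3 : ℝ) ≤ Real.exp (5 * L / 84) := by
      have := Real.add_one_le_exp (5 * L / 84)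
      linarith only [hL216, this]
    have h4 : 1 ≤ Real.exp (L / 12) := Real.one_le_exp (by positivity)
    have h5 : (W : ℝ) * (y : ℝ) ^ S ≤ 2 * Real.exp (L / 12) := by
      calc (W : ℝ) * (y : ℝ) ^ S ≤ (2 * Real.exp (L / 24)) * Real.exp (L / 24) :=
            mul_le_mul hW2 h1 (by positivity) (by positivity)
        _ = 2 * Real.exp (L / 12) := by
            rw [mul_assoc, ← Real.exp_add]
            congr 2
            ring
    rw [h2]
    push_cast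
    nlinarith only [h3, h4, h5]
  have hWy' : W * y ^ S + 1 ≤ 2 ^ j := by exact_mod_cast hWy
  have hj2' : 2 ^ j ≤ X := by exact_mod_cast hj2
  -- the sum
  have hbound : ∀ w, 2 ^ j - 1 ≤ w → w ≤ 2 * 2 ^ j - 1 →
      ‖∑ m ∈ Ioc (2 ^ j - 1) w, (((ArithmeticFunction.moebius m : ℤ) : ℝ) : ℂ) * (mub_F χ t m / m)‖
        ≤ ((S : ℝ) + 1) * ρ ^ S := by
    intro w hw1 hw2
    exact hiter (2 ^ j - 1) w (by omega) hw1 (by omega) (by omega)
  have h2j : 1 ≤ 2 ^ j := Nat.one_le_two_pow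
  have hfin := mub_abel_mono (fun m => (((ArithmeticFunction.moebius m : ℤ) : ℝ) : ℂ) * (mub_F χ t m / m))
    (fun n => (n : ℝ)) _ (2 ^ j - 1) (2 * 2 ^ j - 1) hbound (fun n _ _ => Nat.cast_nonneg n)
    (fun n _ _ => by push_cast; linarith only) (by omega)
  have hDP : DP (tw χ (pc 2 j)) (2 * 2 ^ j) t = ∑ n ∈ Ioc (2 ^ j - 1 : ℕ) (2 * 2 ^ j - 1), (((n : ℕ) : ℝ) : ℂ) *
      ((((ArithmeticFunction.moebius n : ℤ) : ℝ) : ℂ) * (mub_F χ t n / n)) := by
    unfold DP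
    have hsub : Ioc (2 ^ j - 1) (2 * 2 ^ j - 1) ⊆ Icc 1 (2 * 2 ^ j) := by
      intro n hn
      rw [mem_Ioc] at hn
      rw [mem_Icc]
      omega
    rw [← sum_subset hsub]
    · refine sum_congr rfl fun n hn => ?_
      rw [mem_Ioc] at hn
      have h1 : n ≠ 0 ∧ 2 ^ j ≤ n ∧ n < 2 ^ (j + 1) := by
        rw [pow_succ]
        omega
      have h2 : (tw χ (pc 2 j)) n = (((ArithmeticFunction.moebius n : ℤ) : ℝ) : ℂ) * χ (n : ZMod d) := by
        unfold tw pc seg kf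
        simp only [ArithmeticFunction.coe_mk]
        rw [if_pos h1, if_neg (by decide), if_neg (by decide)]
      rw [h2]
      unfold mub_F
      have h3 : (n : ℂ) ≠ 0 := by exact_mod_cast h1.1
      push_cast
      field_simp
    · intro n hn hn'
      rw [mem_Icc] at hn
      rw [mem_Ioc] at hn'
      have h1 : ¬ (n ≠ 0 ∧ 2 ^ j ≤ n ∧ n < 2 ^ (j + 1)) := by
        rw [pow_succ]
        omega
      have h2 : (tw χ (pc 2 j)) n = 0 := by
        unfold tw pc seg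
        simp only [ArithmeticFunction.coe_mk]
        rw [if_neg h1]
        simp
      rw [h2, zero_mul]
  rw [hDP]
  refine hfin.trans ?_
  rw [hρS]
  have hcast : ((2 * 2 ^ j - 1 : ℕ) : ℝ) ≤ 2 * (2 : ℝ) ^ j := by
    have h1 : ((2 * 2 ^ j - 1 : ℕ) : ℝ) ≤ ((2 * 2 ^ j : ℕ) : ℝ) := by exact_mod_cast Nat.sub_le _ _
    push_cast at h1
    exact h1
  have hS0 : (0 : ℝ) ≤ S := Nat.cast_nonneg S
  have hLK : 0 < L ^ K := by positivity
  calc 2 * (((S : ℝ) + 1) * (1 / L ^ (K + 1))) * ((2 * 2 ^ j - 1 : ℕ) : ℝ)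
      ≤ 2 * (((S : ℝ) + 1) * (1 / L ^ (K + 1))) * (2 * (2 : ℝ) ^ j) :=
        mul_le_mul_of_nonneg_left hcast (by positivity)
    _ = (4 * ((S : ℝ) + 1)) * ((2 : ℝ) ^ j / L ^ (K + 1)) := by ring
    _ ≤ L * ((2 : ℝ) ^ j / L ^ (K + 1)) := mul_le_mul_of_nonneg_right hLS (by positivity)
    _ = (2 : ℝ) ^ j / L ^ K := by
        rw [pow_succ]
        field_simp

end Pool.Agent.H88.PSI

end

section

/-!
# PSI SmB: cancellation in `∑ χ(n) n^{2 π i t}` and `∑ χ(n) log n n^{2 π i t}` over dyadic intervals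

(helper43)  `psum` (`H97/VK/PSum.lean`) for the partial sums, partial summation with the increasing weight `kf k` (`1` or `log`).
-/

set_option autoImplicit false

namespace Pool.Agent.H88.PSI

open Finset
open Pool.Agent.H91.PK (ee)

/-- the numerical facts for large `X` -/
private theorem smb_ev : ∃ X0 : ℕ, ∀ X : ℕ, X0 ≤ X → 12 ≤ Real.log X ∧
    Real.exp (Pool.Agent.H97.VK.L9 X) + 2 ≤ (X : ℝ) ^ (1 / 7 : ℝ) := by
  obtain ⟨Z, hZ⟩ : ∃ Z : ℝ, Z = 100 := ⟨_, rfl⟩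
  obtain ⟨X0, hX0⟩ := Filter.eventually_atTop.1
    ((Real.tendsto_log_atTop.comp (tendsto_natCast_atTop_atTop (R := ℝ))).eventually_ge_atTop
      (Z ^ 10))
  refine ⟨max X0 1, fun X hX => ?_⟩
  have h1 : Z ^ 10 ≤ Real.log X := hX0 X ((le_max_left _ _).trans hX)
  have hX1 : 1 ≤ X := (le_max_right _ _).trans hX
  have hXpos : (0 : ℝ) < X := by exact_mod_cast hX1
  have h3 : Z ≤ Z ^ 10 := le_self_pow₀ (by linarith) (by norm_num)
  have hZL : Z ≤ Real.log X := h3.trans h1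
  set L := Real.log X with hLdef
  have hL : 0 < L := by linarith
  obtain ⟨z, hz⟩ : ∃ z : ℝ, z = L ^ (1 / 10 : ℝ) := ⟨_, rfl⟩
  have hzZ : Z ≤ z := by
    have h4 : (Z ^ 10) ^ (1 / 10 : ℝ) ≤ L ^ (1 / 10 : ℝ) :=
      Real.rpow_le_rpow (by positivity) h1 (by norm_num)
    have h5 : (Z ^ 10) ^ (1 / 10 : ℝ) = Z := by
      rw [← Real.rpow_natCast, ← Real.rpow_mul (by linarith)]
      norm_num
    rw [h5] at h4
    rw [hz]
    exact h4
  clear h1 h3
  have e1 : z ^ 10 = L := by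
    rw [hz, ← Real.rpow_natCast, ← Real.rpow_mul hL.le]
    norm_num
  have e2 : Pool.Agent.H97.VK.L9 X = z ^ 9 := by
    unfold Pool.Agent.H97.VK.L9
    rw [← hLdef, hz, ← Real.rpow_natCast, ← Real.rpow_mul hL.le]
    norm_num
  have hz0 : 0 < z := by linarith
  have h9 : 0 < z ^ 9 := by positivity
  have h10 : L = z * z ^ 9 := by rw [← e1, ← pow_succ']
  refine ⟨by linarith, ?_⟩
  rw [e2, Real.rpow_def_of_pos hXpos, ← hLdef]
  have h5 : z ^ 9 + 2 ≤ L * (1 / 7) := by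
    have h6 : 100 * z ^ 9 ≤ z * z ^ 9 := mul_le_mul_of_nonneg_right (by linarith) h9.le
    have h7 : (1 : ℝ) ≤ z ^ 9 := one_le_pow₀ (by linarith)
    linarith
  have h6 := Real.exp_le_exp.2 h5
  refine le_trans ?_ h6
  rw [Real.exp_add]
  have h7 : (3 : ℝ) ≤ Real.exp 2 := by
    have := Real.add_one_le_exp (2 : ℝ)
    linarith
  have h8 : 1 ≤ Real.exp (z ^ 9) := Real.one_le_exp h9.le
  nlinarith

theorem sm_b_h (h_psum : Pool.Agent.H97.VK.psum_P) (K B : ℕ) : ∃ K' X0 : ℕ, ∀ X : ℕ, X0 ≤ X →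
    ∀ (d : ℕ) (χ : DirichletCharacter ℂ d) (k : Fin 3) (j : ℕ) (t : ℝ), k ≠ 2 → 1 ≤ d →
    (d : ℝ) ≤ Real.log X ^ B →
    (X : ℝ) ^ (1 / 7 : ℝ) ≤ (2 : ℝ) ^ j → (2 : ℝ) ^ j ≤ X → Real.log X ^ K' ≤ |t| → |t| ≤ X →
    ‖DP (tw χ (pc k j)) (2 * 2 ^ j) t‖ ≤ (2 : ℝ) ^ j / Real.log X ^ K := by
  obtain ⟨K', x1, hps⟩ := h_psum (K + 2) B
  obtain ⟨x2, hev⟩ := smb_ev
  refine ⟨K', max (max x1 x2) 2, fun X hX d χ k j t hk hd hdB hj1 hj2 ht1 ht2 => ?_⟩
  have hX1 : x1 ≤ X := ((le_max_left _ _).trans (le_max_left _ _)).trans hX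
  have hX2 : x2 ≤ X := ((le_max_right _ _).trans (le_max_left _ _)).trans hX
  have hX3 : 2 ≤ X := (le_max_right _ _).trans hX
  obtain ⟨hL12, hY⟩ := hev X hX2
  set L := Real.log X with hLdef
  have hXr : (2 : ℝ) ≤ X := by exact_mod_cast hX3
  have hX0 : (0 : ℝ) < X := by linarith
  have hL0 : 0 < L := by linarith
  have h2j : 1 ≤ 2 ^ j := Nat.one_le_two_pow
  have hLA : 0 < L ^ (K + 2) := by positivity
  -- the start
  have hYx : Pool.Agent.H97.VK.Yx X + 1 ≤ 2 ^ j - 1 := by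
    have h1 : (Pool.Agent.H97.VK.Yx X : ℝ) ≤ Real.exp (Pool.Agent.H97.VK.L9 X) :=
      Nat.floor_le (Real.exp_pos _).le
    have h2 : ((Pool.Agent.H97.VK.Yx X + 2 : ℕ) : ℝ) ≤ (2 : ℝ) ^ j := by
      push_cast
      linarith
    have h3 : Pool.Agent.H97.VK.Yx X + 2 ≤ 2 ^ j := by exact_mod_cast h2
    omega
  have hpart : ∀ w, 2 ^ j - 1 ≤ w → ‖∑ n ∈ Icc 1 w, mub_F χ t n‖ ≤ w / L ^ (K + 2) := by
    intro w hw
    refine hps X hX1 d χ t w hd hdB ht1 ?_ (hYx.trans hw)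
    exact ht2.trans (le_self_pow₀ (by linarith) (by norm_num))
  have hM : ∀ w, 2 ^ j - 1 ≤ w → w ≤ 2 * 2 ^ j - 1 →
      ‖∑ n ∈ Ioc (2 ^ j - 1) w, mub_F χ t n‖ ≤ 3 * (2 : ℝ) ^ j / L ^ (K + 2) := by
    intro w hw1 hw2
    have h2 : ∑ n ∈ Ioc (2 ^ j - 1) w, mub_F χ t n =
        ∑ n ∈ Icc 1 w, mub_F χ t n - ∑ n ∈ Icc 1 (2 ^ j - 1), mub_F χ t n := by
      have e : Icc 1 w = Icc 1 (2 ^ j - 1) ∪ Ioc (2 ^ j - 1) w := by
        ext n
        simp only [mem_union, mem_Icc, mem_Ioc]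
        omega
      rw [e, sum_union]
      · ring
      · rw [disjoint_left]
        intro n hn hn'
        simp only [mem_Icc, mem_Ioc] at hn hn'
        omega
    rw [h2]
    refine (norm_sub_le _ _).trans ?_
    have h3 := hpart w hw1
    have h4 := hpart (2 ^ j - 1) le_rfl
    have h5 : (w : ℝ) ≤ 2 * (2 : ℝ) ^ j := by
      exact_mod_cast (by omega : w ≤ 2 * 2 ^ j)
    have h6 : ((2 ^ j - 1 : ℕ) : ℝ) ≤ (2 : ℝ) ^ j := by
      exact_mod_cast Nat.sub_le _ _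
    have h7 : (w : ℝ) / L ^ (K + 2) + ((2 ^ j - 1 : ℕ) : ℝ) / L ^ (K + 2) ≤
        3 * (2 : ℝ) ^ j / L ^ (K + 2) := by
      rw [← add_div]
      exact div_le_div_of_nonneg_right (by linarith) hLA.le
    linarith
  have hkf0 : ∀ n : ℕ, 0 ≤ kf k n := by
    intro n
    unfold kf
    split_ifs with h1 h2
    · exact zero_le_one
    · exact Real.log_natCast_nonneg n
    · exfalso
      omega
  have hkf1 : ∀ n : ℕ, 1 ≤ n → kf k n ≤ kf k (n + 1) := by
    intro n hn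
    unfold kf
    split_ifs with h1 h2
    · exact le_rfl
    · exact Real.log_le_log (by exact_mod_cast hn) (by push_cast; linarith)
    · exfalso
      omega
  have hkf2 : kf k (2 * 2 ^ j - 1) ≤ 2 * L := by
    unfold kf
    split_ifs with h1 h2
    · linarith
    · have h3 : ((2 * 2 ^ j - 1 : ℕ) : ℝ) ≤ 2 * X := by
        have h4 : ((2 * 2 ^ j - 1 : ℕ) : ℝ) ≤ ((2 * 2 ^ j : ℕ) : ℝ) := by
          exact_mod_cast Nat.sub_le _ _
        push_cast at h4
        linarith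
      have h4 : (0 : ℝ) < ((2 * 2 ^ j - 1 : ℕ) : ℝ) := by
        exact_mod_cast (by omega : 0 < 2 * 2 ^ j - 1)
      refine (Real.log_le_log h4 h3).trans ?_
      rw [Real.log_mul (by norm_num) hX0.ne']
      have := Real.log_two_lt_d9
      linarith
    · exfalso
      omega
  have hfin := mub_abel_mono (mub_F χ t) (kf k) _ (2 ^ j - 1) (2 * 2 ^ j - 1) hM
    (fun n _ _ => hkf0 n) (fun n hn _ => hkf1 n (by omega)) (by omega)
  have hDP : DP (tw χ (pc k j)) (2 * 2 ^ j) t = ∑ n ∈ Ioc (2 ^ j - 1 : ℕ) (2 * 2 ^ j - 1),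
      ((kf k n : ℝ) : ℂ) * mub_F χ t n := by
    unfold DP
    have hsub : Ioc (2 ^ j - 1) (2 * 2 ^ j - 1) ⊆ Icc 1 (2 * 2 ^ j) := by
      intro n hn
      rw [mem_Ioc] at hn
      rw [mem_Icc]
      omega
    rw [← sum_subset hsub]
    · refine sum_congr rfl fun n hn => ?_
      rw [mem_Ioc] at hn
      have h1 : n ≠ 0 ∧ 2 ^ j ≤ n ∧ n < 2 ^ (j + 1) := by
        rw [pow_succ]
        omega
      have h2 : (tw χ (pc k j)) n = ((kf k n : ℝ) : ℂ) * χ (n : ZMod d) := by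
        unfold tw pc seg
        simp only [ArithmeticFunction.coe_mk]
        rw [if_pos h1]
      rw [h2]
      unfold mub_F
      ring
    · intro n hn hn'
      rw [mem_Icc] at hn
      rw [mem_Ioc] at hn'
      have h1 : ¬ (n ≠ 0 ∧ 2 ^ j ≤ n ∧ n < 2 ^ (j + 1)) := by
        rw [pow_succ]
        omega
      have h2 : (tw χ (pc k j)) n = 0 := by
        unfold tw pc seg
        simp only [ArithmeticFunction.coe_mk]
        rw [if_neg h1]
        simp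
      rw [h2, zero_mul]
  rw [hDP]
  refine hfin.trans ?_
  calc 2 * (3 * (2 : ℝ) ^ j / L ^ (K + 2)) * kf k (2 * 2 ^ j - 1)
      ≤ 2 * (3 * (2 : ℝ) ^ j / L ^ (K + 2)) * (2 * L) :=
        mul_le_mul_of_nonneg_left hkf2 (by positivity)
    _ = 12 * ((2 : ℝ) ^ j / L ^ (K + 1)) := by
        have : L ^ (K + 2) = L * L ^ (K + 1) := by ring
        rw [this]
        field_simp
        ring
    _ ≤ L * ((2 : ℝ) ^ j / L ^ (K + 1)) := mul_le_mul_of_nonneg_right hL12 (by positivity)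
    _ = (2 : ℝ) ^ j / L ^ K := by
        rw [pow_succ]
        field_simp

end Pool.Agent.H88.PSI

end

section

/-!
# TP Om2: the twisted main term of type II

Fix the block `I = [iH, (i+1)H)`, `i ≥ N/(2H)`, `P ≥ N^e1`, `P N^e ≤ H`, `H² ≤ N`.  For `m ∈ I`, `p ∣ m`, `p ∈ pb P`: `|m/p - iH/p| ≤ H/p + 1` (natural division), so `|kap(m/p) - kap(iH/p)| ≤ 10 (H/P + 1 + z)/(iH/(2P)) ≤ N^(-c)`
(`kap_lip`; `z P ≤ z H N^(-e) ≤ N^(ζ + 1/2 - e)`, `iH ≥ N/3`; `ζ < 1/2`); total error `≤ N^(-c) ∑_{m ∈ I} |lamR R m| #{p ∣ m} ≤ H/(2 L^A)`, (`|lamR R m| ≤ R^2`, `#{p ∈ pb P : p ∣ m} ≤ 2/e1` or `≤ 2L`).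
The rest: `∑_{p ∈ pb P} kap(iH/p) ∑_{m ∈ I} (1[p ∣ m] - 1/p) lamR R m ee(-m α)`.  As in `H53/MID/OmW.lean`: `1[p ∣ m] - 1/p = (1/p) ∑_{c=1}^{p-1} ee(mc/p)`, `lamR R m = ∑_{q ≤ R} μ(q)/φ(q) ∑*_b ee(mb/q)`, so with
`0 ≤ kap ≤ 2` it is `≤ R max_β (2/P) ∑_p ∑_{c=1}^{p-1} min(H, 1/(2 nz(β + c/p))) ≤ R (2/P) (2H + 16 P² (1 + log(8P²)))` (points with mutual distance `≥ 1/(4P²)`, see `OmW.lean`) `≤ H/(2 L^A)`:
here `P N^e ≤ H` is enough.
-/

set_option autoImplicit false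

namespace Pool.Agent.H76.TP

open Finset
open Pool.Agent.H91.PK (ee)
open Pool.Agent.H91.EHA (Lam hR lamR ramS)
open Pool.Agent.H35.W (pb)
open Pool.Agent.H53.MID (Fp Bs)
open Pool.Agent.H92.EH (red D)

private theorem Om2_e (t : ℝ) : Pool.Agent.H92.EH.e t = ee t := by
  unfold Pool.Agent.H91.PK.ee Pool.Agent.H92.EH.e
  congr 1
  push_cast
  ring

private theorem Om2_harm (n : ℕ) : ∑ k ∈ Icc 1 n, 1 / (k : ℝ) ≤ 1 + Real.log n := by
  have h := harmonic_le_one_add_log n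
  rw [harmonic_eq_sum_Icc] at h
  push_cast at h
  refine le_trans (le_of_eq ?_) h
  refine Finset.sum_congr rfl fun k _ => ?_
  rw [one_div]

private theorem Om2_row {ι : Type*} (S : Finset ι) (β : ι → ℝ) (M : ℕ) (hM : 0 < M)
    (hsp : ∀ i ∈ S, ∀ j ∈ S, i ≠ j → ∀ m : ℤ, (1 : ℝ) / M ≤ |β i - β j - m|)
    (hhalf : ∀ j ∈ S, Int.fract (β j) ≤ 1 / 2) (K : ℕ) :
    ∑ j ∈ S, ‖D K (β j)‖ ≤ K + (M : ℝ) / 2 * (1 + Real.log M) := by
  classical
  have hM' : (0 : ℝ) < M := by exact_mod_cast hM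
  set m : ι → ℕ := fun j => ⌊(M : ℝ) * Int.fract (β j)⌋₊ with hmdef
  have hmle : ∀ j ∈ S, (m j : ℝ) ≤ M * Int.fract (β j) := by
    intro j _
    exact Nat.floor_le (by have := Int.fract_nonneg (β j); positivity)
  have hmlt : ∀ j ∈ S, (M : ℝ) * Int.fract (β j) < m j + 1 := by
    intro j _
    exact Nat.lt_floor_add_one _
  have hinj : Set.InjOn m S := by
    intro i hi j hj hij
    by_contra hne
    have h1 := hmle i hi
    have h2 := hmlt i hi
    have h3 := hmle j hj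
    have h4 := hmlt j hj
    have h5 : (m i : ℝ) = m j := by exact_mod_cast hij
    have h6 := hsp i hi j hj hne (⌊β i⌋ - ⌊β j⌋)
    have h7 : β i - β j - ((⌊β i⌋ - ⌊β j⌋ : ℤ) : ℝ) = Int.fract (β i) - Int.fract (β j) := by
      simp only [Int.fract]
      push_cast
      ring
    rw [h7, div_le_iff₀ hM'] at h6
    have h8 : |Int.fract (β i) - Int.fract (β j)| * M < 1 := by
      rw [← abs_of_pos hM', ← abs_mul, abs_lt]
      constructor <;> nlinarith only [h1, h4, h5, h2, h3]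
    linarith
  have hbound : ∀ j ∈ S, ‖D K (β j)‖ ≤ (fun k : ℕ => if k = 0 then (K : ℝ) else (M : ℝ) / 2 * (1 / (k : ℝ))) (m j) := by
    intro j hj
    simp only
    split_ifs with h0
    · exact Pool.Agent.H92.EH.norm_D_le_nat K _
    · have hmpos : (0 : ℝ) < m j := by exact_mod_cast Nat.pos_of_ne_zero h0
      have hdist : ∀ k : ℤ, (m j : ℝ) / M ≤ |β j - k| := by
        intro k
        have h1 : Int.fract (β j) ≤ |β j - k| := by
          have hf := hhalf j hj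
          have hf0 := Int.fract_nonneg (β j)
          have hβ : β j = ⌊β j⌋ + Int.fract (β j) := (Int.floor_add_fract _).symm
          rcases le_or_gt k ⌊β j⌋ with hk | hk
          · have hk' : (k : ℝ) ≤ ⌊β j⌋ := by exact_mod_cast hk
            rw [le_abs]
            left
            linarith only [hβ, hk']
          · have hk' : (⌊β j⌋ : ℝ) + 1 ≤ k := by exact_mod_cast hk
            rw [le_abs]
            right
            linarith
        refine le_trans ?_ h1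
        rw [div_le_iff₀ hM']
        have := hmle j hj
        linarith
      have h1 := Pool.Agent.H92.EH.norm_D_le K (t := β j) (δ := (m j : ℝ) / M) (by positivity) hdist
      refine h1.trans (le_of_eq ?_)
      field_simp
  have hmM : ∀ j ∈ S, m j ≤ M := by
    intro j hj
    have h1 := hmle j hj
    have h2 : (m j : ℝ) ≤ M := by
      have := (Int.fract_lt_one (β j)).le
      nlinarith only [h1, this]
    exact_mod_cast h2
  calc ∑ j ∈ S, ‖D K (β j)‖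
      ≤ ∑ j ∈ S, (fun k : ℕ => if k = 0 then (K : ℝ) else (M : ℝ) / 2 * (1 / (k : ℝ))) (m j) :=
        Finset.sum_le_sum hbound
    _ = ∑ k ∈ S.image m, (fun k : ℕ => if k = 0 then (K : ℝ) else (M : ℝ) / 2 * (1 / (k : ℝ))) k :=
        (Finset.sum_image (f := fun k : ℕ => if k = 0 then (K : ℝ) else (M : ℝ) / 2 * (1 / (k : ℝ))) (g := m) hinj).symm
    _ ≤ ∑ k ∈ range (M + 1), (fun k : ℕ => if k = 0 then (K : ℝ) else (M : ℝ) / 2 * (1 / (k : ℝ))) k := by
        refine Finset.sum_le_sum_of_subset_of_nonneg ?_ ?_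
        · intro k hk
          obtain ⟨j, hj, rfl⟩ := Finset.mem_image.1 hk
          rw [Finset.mem_range]
          have := hmM j hj
          omega
        · intro k _ _
          split_ifs <;> positivity
    _ = K + (M : ℝ) / 2 * ∑ k ∈ Icc 1 M, 1 / (k : ℝ) := by
        rw [Finset.range_eq_Ico, Finset.sum_eq_sum_Ico_succ_bot (by omega : 0 < M + 1)]
        congr 1
        rw [Finset.mul_sum]
        have e1 : Ico (0 + 1) (M + 1) = Icc 1 M := by
          ext k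
          simp only [mem_Ico, mem_Icc]
          omega
        rw [e1]
        refine Finset.sum_congr rfl fun k hk => ?_
        have : k ≠ 0 := by
          rw [mem_Icc] at hk
          omega
        simp only [if_neg this]
    _ ≤ K + (M : ℝ) / 2 * (1 + Real.log M) := by
        have := Om2_harm M
        gcongr

/-- the exponential sum over well spaced points -/
private theorem Om2_pts {ι : Type*} (S : Finset ι) (β : ι → ℝ) (M H : ℕ) (hM : 0 < M)
    (hsp : ∀ i ∈ S, ∀ j ∈ S, i ≠ j → ∀ m : ℤ, (1 : ℝ) / M ≤ |β i - β j - m|) :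
    ∑ j ∈ S, ‖D H (β j)‖ ≤ 2 * H + M * (1 + Real.log M) := by
  classical
  rw [← Finset.sum_filter_add_sum_filter_not S (fun j => Int.fract (β j) ≤ 1 / 2)]
  have h1 := Om2_row (S.filter (fun j => Int.fract (β j) ≤ 1 / 2)) β M hM
    (fun i hi j hj hne m => hsp i (Finset.mem_filter.1 hi).1 j (Finset.mem_filter.1 hj).1 hne m)
    (fun j hj => (Finset.mem_filter.1 hj).2) H
  have h2 := Om2_row (S.filter (fun j => ¬ Int.fract (β j) ≤ 1 / 2)) (fun j => -β j) M hM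
    (fun i hi j hj hne m => by
      have h9 := hsp i (Finset.mem_filter.1 hi).1 j (Finset.mem_filter.1 hj).1 hne (-m)
      have h8 : β i - β j - ((-m : ℤ) : ℝ) = -(-β i - -β j - m) := by
        push_cast
        ring
      rw [h8, abs_neg] at h9
      exact h9)
    (fun j hj => by
      have h3 := (Finset.mem_filter.1 hj).2
      push Not at h3
      have h4 : Int.fract (β j) ≠ 0 := by
        intro h5
        rw [h5] at h3
        norm_num at h3
      rw [Int.fract_neg h4]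
      linarith only [h3]) H
  simp_rw [Pool.Agent.H92.EH.norm_D_neg] at h2
  linarith only [h1, h2]

/-- detection of the multiples of `p` -/
private theorem Om2_det (p m : ℕ) (hp : 1 ≤ p) :
    ((((if p ∣ m then (1 : ℝ) else 0) - 1 / p : ℝ)) : ℂ) = (1 / p : ℂ) * ∑ k ∈ Ico 1 p, ee (m * ((k : ℝ) / p)) := by
  have hp0 : (p : ℂ) ≠ 0 := by
    have : p ≠ 0 := by omega
    exact_mod_cast this
  have hpr : (0 : ℝ) < p := by exact_mod_cast hp
  have h1 : ∑ k ∈ range p, ee (m * ((k : ℝ) / p)) = if p ∣ m then (p : ℂ) else 0 := by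
    by_cases h : p ∣ m
    · rw [if_pos h]
      obtain ⟨q, rfl⟩ := h
      have h2 : ∀ k ∈ range p, ee (((p * q : ℕ) : ℝ) * ((k : ℝ) / p)) = 1 := by
        intro k _
        have h3 : ((p * q : ℕ) : ℝ) * ((k : ℝ) / p) = (((q * k : ℕ) : ℤ) : ℝ) := by
          push_cast
          field_simp
        rw [h3, Pool.Agent.H76.EHB.ee_int]
      rw [Finset.sum_congr rfl h2]
      simp
    · rw [if_neg h]
      have h2 : ∑ k ∈ range p, ee (m * ((k : ℝ) / p)) = D p ((m : ℝ) / p) := by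
        unfold Pool.Agent.H92.EH.D
        refine Finset.sum_congr rfl fun k _ => ?_
        rw [Om2_e]
        congr 1
        ring
      rw [h2]
      have h3 : D p ((m : ℝ) / p) * (Pool.Agent.H92.EH.e ((m : ℝ) / p) - 1) =
          Pool.Agent.H92.EH.e ((m : ℝ) / p) ^ p - 1 := by
        unfold Pool.Agent.H92.EH.D
        rw [← geom_sum_mul]
        congr 1
        refine sum_congr rfl fun m _ => ?_
        rw [Pool.Agent.H92.EH.e_nat_mul]
      have h4 : Pool.Agent.H92.EH.e ((m : ℝ) / p) ^ p = 1 := by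
        rw [← Pool.Agent.H92.EH.e_nat_mul]
        have : (p : ℝ) * ((m : ℝ) / p) = m := by field_simp
        rw [this, Pool.Agent.H92.EH.e_nat]
      rw [h4, sub_self] at h3
      rcases mul_eq_zero.1 h3 with h5 | h5
      · exact h5
      · exfalso
        have h6 : ∀ j : ℤ, 1 / (p : ℝ) ≤ |(m : ℝ) / p - j| := by
          intro j
          have h7 : (m : ℝ) / p - j = (((m : ℤ) - p * j : ℤ) : ℝ) / p := by
            push_cast
            field_simp
          rw [h7, abs_div, abs_of_pos hpr]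
          apply div_le_div_of_nonneg_right _ hpr.le
          have h8 : (m : ℤ) - p * j ≠ 0 := by
            intro h9
            apply h
            have h10 : (p : ℤ) ∣ m := ⟨j, by linarith only [h9]⟩
            exact_mod_cast h10
          have h9 := Int.one_le_abs h8
          exact_mod_cast h9
        have h7 := Pool.Agent.H92.EH.le_norm_e_sub_one h6
        rw [h5, norm_zero] at h7
        have : (0 : ℝ) < 1 / p := by positivity
        linarith only [h7, this]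
  have h2 : ∑ k ∈ range p, ee (m * ((k : ℝ) / p)) = 1 + ∑ k ∈ Ico 1 p, ee (m * ((k : ℝ) / p)) := by
    rw [Finset.range_eq_Ico, Finset.sum_eq_sum_Ico_succ_bot (by omega : 0 < p)]
    congr 1
    simp [Pool.Agent.H91.PK.ee]
  rw [h1] at h2
  have h3 : ∑ k ∈ Ico 1 p, ee (m * ((k : ℝ) / p)) = (if p ∣ m then (p : ℂ) else 0) - 1 := by
    rw [h2]
    ring
  rw [h3]
  by_cases h : p ∣ m
  · rw [if_pos h, if_pos h]
    push_cast
    field_simp
  · rw [if_neg h, if_neg h]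
    push_cast
    ring

private theorem Om2_shift (a H : ℕ) (γ : ℝ) : ‖∑ m ∈ Ico a (a + H), ee (m * γ)‖ = ‖D H γ‖ := by
  have h : ∑ m ∈ Ico a (a + H), ee (m * γ) = ee (a * γ) * D H γ := by
    rw [Finset.sum_Ico_eq_sum_range]
    have h1 : a + H - a = H := by omega
    rw [h1]
    unfold Pool.Agent.H92.EH.D
    rw [Finset.mul_sum]
    refine Finset.sum_congr rfl fun i _ => ?_
    rw [Om2_e, ← Pool.Agent.H91.PK.LSa_ee_add]
    congr 1
    push_cast
    ring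
  rw [h, norm_mul, Pool.Agent.H91.PK.LSa_norm_ee, one_mul]

private theorem Om2_pb {P p : ℕ} (hp : p ∈ pb P) : p.Prime ∧ P < p ∧ p ≤ 2 * P := by
  unfold pb at hp
  rw [Finset.mem_filter, Finset.mem_Ioc] at hp
  exact ⟨hp.2, hp.1⟩

/-- the bound of the sums over `p` -/
private noncomputable def Om2_W (P H : ℕ) : ℝ := 2 / P * (2 * H + 4 * P ^ 2 * (1 + Real.log (4 * P ^ 2)))

private theorem Om2_T (P H a : ℕ) (hP : 1 ≤ P) (β : ℝ) (κ : ℕ → ℝ) (hκ : ∀ p ∈ pb P, |κ p| ≤ 2) :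
    ∑ p ∈ pb P, ‖∑ m ∈ Ico a (a + H), (((κ p * ((if p ∣ m then (1 : ℝ) else 0) - 1 / p) : ℝ)) : ℂ) * ee (m * β)‖
      ≤ Om2_W P H := by
  have hP0 : (0 : ℝ) < P := by exact_mod_cast hP
  have h1 : ∀ p ∈ pb P,
      ‖∑ m ∈ Ico a (a + H), (((κ p * ((if p ∣ m then (1 : ℝ) else 0) - 1 / p) : ℝ)) : ℂ) * ee (m * β)‖ ≤
      2 / P * ∑ k ∈ Ico 1 p, ‖D H (β + (k : ℝ) / p)‖ := by
    intro p hp
    obtain ⟨hp1, hp2, hp3⟩ := Om2_pb hp
    have hp0 : (0 : ℝ) < p := by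
      have : 0 < p := hp1.pos
      exact_mod_cast this
    have e1 : ∑ m ∈ Ico a (a + H), (((κ p * ((if p ∣ m then (1 : ℝ) else 0) - 1 / p) : ℝ)) : ℂ) * ee (m * β) =
        ((κ p : ℝ) : ℂ) * ((1 / p : ℂ) * ∑ k ∈ Ico 1 p, ∑ m ∈ Ico a (a + H), ee (m * (β + (k : ℝ) / p))) := by
      rw [Finset.sum_comm, Finset.mul_sum, Finset.mul_sum]
      refine Finset.sum_congr rfl fun m _ => ?_
      rw [Complex.ofReal_mul, Om2_det p m hp1.one_le, mul_assoc, mul_assoc, Finset.sum_mul]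
      congr 2
      refine Finset.sum_congr rfl fun k _ => ?_
      rw [← Pool.Agent.H91.PK.LSa_ee_add]
      congr 1
      ring
    rw [e1, norm_mul, norm_mul]
    have e2 : ‖(1 / p : ℂ)‖ = 1 / p := by
      rw [norm_div, norm_one, Complex.norm_natCast]
    rw [e2, Complex.norm_real, Real.norm_eq_abs]
    have e3 : ‖∑ k ∈ Ico 1 p, ∑ m ∈ Ico a (a + H), ee (m * (β + (k : ℝ) / p))‖ ≤
        ∑ k ∈ Ico 1 p, ‖D H (β + (k : ℝ) / p)‖ := by
      refine (norm_sum_le _ _).trans (Finset.sum_le_sum fun k _ => ?_)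
      rw [Om2_shift]
    have e4 : 1 / (p : ℝ) ≤ 1 / P := one_div_le_one_div_of_le hP0 (by exact_mod_cast hp2.le)
    calc |κ p| * (1 / (p : ℝ) * ‖∑ k ∈ Ico 1 p, ∑ m ∈ Ico a (a + H), ee (m * (β + (k : ℝ) / p))‖)
        ≤ 2 * (1 / (P : ℝ) * ∑ k ∈ Ico 1 p, ‖D H (β + (k : ℝ) / p)‖) := by
          refine mul_le_mul (hκ p hp) ?_ (by positivity) (by norm_num)
          exact mul_le_mul e4 e3 (norm_nonneg _) (by positivity)
      _ = 2 / P * ∑ k ∈ Ico 1 p, ‖D H (β + (k : ℝ) / p)‖ := by ring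
  refine (Finset.sum_le_sum h1).trans ?_
  rw [← Finset.mul_sum, ← Finset.sum_sigma (pb P) (fun p => Ico 1 p) (fun j => ‖D H (β + (j.2 : ℝ) / j.1)‖)]
  have h2 := Om2_pts ((pb P).sigma (fun p => Ico 1 p)) (fun j => β + (j.2 : ℝ) / j.1) (4 * P ^ 2) H
    (by positivity) ?_
  · unfold Om2_W
    refine mul_le_mul_of_nonneg_left (h2.trans (le_of_eq ?_)) (by positivity)
    push_cast
    ring
  · rintro ⟨p, k⟩ hi ⟨p', k'⟩ hj hne m
    rw [Finset.mem_sigma, Finset.mem_Ico] at hi hj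
    obtain ⟨hp, hk⟩ := hi
    obtain ⟨hp', hk'⟩ := hj
    simp only at hp hk hp' hk' ⊢
    obtain ⟨q1, q2, q3⟩ := Om2_pb hp
    obtain ⟨q1', q2', q3'⟩ := Om2_pb hp'
    have hc : k ∈ red p := by
      rw [Pool.Agent.H92.EH.mem_red]
      refine ⟨hk.2, Nat.Coprime.symm ((Nat.Prime.coprime_iff_not_dvd q1).2 fun hd => ?_)⟩
      exact absurd (Nat.le_of_dvd (by omega) hd) (by omega)
    have hc' : k' ∈ red p' := by
      rw [Pool.Agent.H92.EH.mem_red]
      refine ⟨hk'.2, Nat.Coprime.symm ((Nat.Prime.coprime_iff_not_dvd q1').2 fun hd => ?_)⟩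
      exact absurd (Nat.le_of_dvd (by omega) hd) (by omega)
    have hne' : ¬ (p = p' ∧ k = k') := by
      rintro ⟨rfl, rfl⟩
      exact hne rfl
    have h3 := Pool.Agent.H92.EH.farey_spacing q1.pos q1'.pos hc hc' hne' m
    have h4 : β + (k : ℝ) / p - (β + (k' : ℝ) / p') - m = (k : ℝ) / p - (k' : ℝ) / p' - m := by ring
    rw [h4]
    refine le_trans ?_ h3
    have q4 : (0 : ℝ) < p := by exact_mod_cast q1.pos
    have q5 : (0 : ℝ) < p' := by exact_mod_cast q1'.pos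
    have q6 : (p : ℝ) ≤ 2 * P := by exact_mod_cast q3
    have q7 : (p' : ℝ) ≤ 2 * P := by exact_mod_cast q3'
    apply one_div_le_one_div_of_le (by positivity)
    push_cast
    calc (p : ℝ) * p' ≤ (2 * P) * (2 * P) := mul_le_mul q6 q7 q5.le (by positivity)
      _ = 4 * (P : ℝ) ^ 2 := by ring

private theorem Om2_main (P R H i : ℕ) (α : ℝ) (κ : ℕ → ℝ) (hκ : ∀ p ∈ pb P, |κ p| ≤ 2) (hP : 1 ≤ P)
    (hH0 : 1 ≤ H) (hi : 1 ≤ i) :
    ‖Bs (fun m => lamR R m * ∑ p ∈ pb P, κ p * ((if p ∣ m then (1 : ℝ) else 0) - 1 / p)) H i α‖ ≤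
      R * Om2_W P H := by
  have h2 : Bs (fun m => lamR R m * ∑ p ∈ pb P, κ p * ((if p ∣ m then (1 : ℝ) else 0) - 1 / p)) H i α =
      ∑ c ∈ Icc 1 R, ((((ArithmeticFunction.moebius c : ℤ) : ℝ) / (c.totient : ℝ) : ℝ) : ℂ) * ∑ b ∈ red c,
        ∑ p ∈ pb P, ∑ m ∈ Ico (i * H) (i * H + H),
          (((κ p * ((if p ∣ m then (1 : ℝ) else 0) - 1 / p) : ℝ)) : ℂ) * ee (m * ((b : ℝ) / c - α)) := by
    unfold Bs
    have e1 : (i + 1) * H = i * H + H := by ring
    rw [e1]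
    have e2 : ∀ m ∈ Ico (i * H) (i * H + H),
        ((lamR R m * ∑ p ∈ pb P, κ p * ((if p ∣ m then (1 : ℝ) else 0) - 1 / p) : ℝ) : ℂ) * ee (-(m * α)) =
        ∑ c ∈ Icc 1 R, ((((ArithmeticFunction.moebius c : ℤ) : ℝ) / (c.totient : ℝ) : ℝ) : ℂ) * ∑ b ∈ red c,
          ∑ p ∈ pb P, (((κ p * ((if p ∣ m then (1 : ℝ) else 0) - 1 / p) : ℝ)) : ℂ) *
            ee (m * ((b : ℝ) / c - α)) := by
      intro m hm
      rw [Finset.mem_Ico] at hm
      have hm1 : 1 ≤ m := le_trans (Nat.mul_le_mul hi hH0) hm.1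
      rw [Complex.ofReal_mul, Pool.Agent.H76.EHB.lamR_eq R m hm1, Complex.ofReal_sum, Finset.sum_mul,
        Finset.sum_mul]
      refine Finset.sum_congr rfl fun c _ => ?_
      rw [mul_assoc, mul_assoc]
      congr 1
      rw [Finset.sum_mul]
      refine Finset.sum_congr rfl fun b _ => ?_
      rw [Finset.sum_mul, Finset.mul_sum]
      refine Finset.sum_congr rfl fun p _ => ?_
      have e3 : ee (m * ((b : ℝ) / c - α)) = ee (m * ((b : ℝ) / c)) * ee (-(m * α)) := by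
        rw [← Pool.Agent.H91.PK.LSa_ee_add]
        congr 1
        ring
      rw [e3]
      ring
    rw [Finset.sum_congr rfl e2, Finset.sum_comm]
    refine Finset.sum_congr rfl fun c _ => ?_
    rw [← Finset.mul_sum, Finset.sum_comm]
    congr 1
    refine Finset.sum_congr rfl fun b _ => ?_
    rw [Finset.sum_comm]
  rw [h2]
  have h3 : ∀ c ∈ Icc 1 R, ‖((((ArithmeticFunction.moebius c : ℤ) : ℝ) / (c.totient : ℝ) : ℝ) : ℂ) * ∑ b ∈ red c,
        ∑ p ∈ pb P, ∑ m ∈ Ico (i * H) (i * H + H),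
          (((κ p * ((if p ∣ m then (1 : ℝ) else 0) - 1 / p) : ℝ)) : ℂ) * ee (m * ((b : ℝ) / c - α))‖ ≤
            Om2_W P H := by
    intro c hc
    rw [Finset.mem_Icc] at hc
    have hφ : (0 : ℝ) < (c.totient : ℝ) := by
      have := Nat.totient_pos.2 (show 0 < c by omega)
      exact_mod_cast this
    rw [norm_mul, Complex.norm_real, Real.norm_eq_abs, abs_div, abs_of_pos hφ]
    have hμ : |((ArithmeticFunction.moebius c : ℤ) : ℝ)| ≤ 1 := by
      have := ArithmeticFunction.abs_moebius_le_one (n := c)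
      exact_mod_cast this
    have h4 : ‖∑ b ∈ red c, ∑ p ∈ pb P, ∑ m ∈ Ico (i * H) (i * H + H),
          (((κ p * ((if p ∣ m then (1 : ℝ) else 0) - 1 / p) : ℝ)) : ℂ) * ee (m * ((b : ℝ) / c - α))‖ ≤
        (c.totient : ℝ) * Om2_W P H := by
      refine (norm_sum_le _ _).trans ?_
      calc ∑ b ∈ red c, ‖∑ p ∈ pb P, ∑ m ∈ Ico (i * H) (i * H + H),
            (((κ p * ((if p ∣ m then (1 : ℝ) else 0) - 1 / p) : ℝ)) : ℂ) * ee (m * ((b : ℝ) / c - α))‖
          ≤ ∑ _b ∈ red c, Om2_W P H := by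
            refine Finset.sum_le_sum fun b _ => ?_
            exact (norm_sum_le _ _).trans (Om2_T P H (i * H) hP _ κ hκ)
        _ = (c.totient : ℝ) * Om2_W P H := by
            rw [Finset.sum_const, nsmul_eq_mul, Pool.Agent.H92.EH.card_red]
    calc |((ArithmeticFunction.moebius c : ℤ) : ℝ)| / (c.totient : ℝ) * _
        ≤ 1 / (c.totient : ℝ) * ((c.totient : ℝ) * Om2_W P H) := by
          refine mul_le_mul ?_ h4 (norm_nonneg _) (by positivity)
          exact div_le_div_of_nonneg_right hμ hφ.le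
      _ = Om2_W P H := by
          field_simp
  calc ‖_‖ ≤ ∑ _c ∈ Icc 1 R, Om2_W P H := (norm_sum_le _ _).trans (Finset.sum_le_sum h3)
    _ = R * Om2_W P H := by
        rw [Finset.sum_const, nsmul_eq_mul, Nat.card_Icc, Nat.add_sub_cancel]

private theorem Om2_lam (R n : ℕ) (hn : 1 ≤ n) : |lamR R n| ≤ R := by
  have h3 : |lamR R n| = ‖((lamR R n : ℝ) : ℂ)‖ := by
    rw [Complex.norm_real]; rfl
  rw [h3, Pool.Agent.H76.EHB.lamR_eq R n hn]
  refine (norm_sum_le _ _).trans ?_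
  calc ∑ c ∈ Icc 1 R, ‖((((ArithmeticFunction.moebius c : ℤ) : ℝ) / (c.totient : ℝ) : ℝ) : ℂ)
        * ∑ b ∈ red c, ee (n * ((b : ℝ) / c))‖
      ≤ ∑ _c ∈ Icc 1 R, (1 : ℝ) := by
        refine Finset.sum_le_sum fun c hc => ?_
        rw [Finset.mem_Icc] at hc
        have hφ : (0 : ℝ) < (c.totient : ℝ) := by
          have := Nat.totient_pos.2 (show 0 < c by omega)
          exact_mod_cast this
        rw [norm_mul, Complex.norm_real, Real.norm_eq_abs, abs_div, abs_of_pos hφ]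
        have hμ : |((ArithmeticFunction.moebius c : ℤ) : ℝ)| ≤ 1 := by
          have := ArithmeticFunction.abs_moebius_le_one (n := c)
          exact_mod_cast this
        have h4 : ‖∑ b ∈ red c, ee (n * ((b : ℝ) / c))‖ ≤ c.totient := by
          refine (norm_sum_le _ _).trans ?_
          calc ∑ b ∈ red c, ‖ee (n * ((b : ℝ) / c))‖ = ∑ _b ∈ red c, (1 : ℝ) := by
                refine Finset.sum_congr rfl fun b _ => ?_
                rw [Pool.Agent.H91.PK.LSa_norm_ee]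
            _ = (c.totient : ℝ) := by
                rw [Finset.sum_const, nsmul_eq_mul, Pool.Agent.H92.EH.card_red, mul_one]
            _ ≤ c.totient := le_rfl
        calc |((ArithmeticFunction.moebius c : ℤ) : ℝ)| / (c.totient : ℝ) * ‖∑ b ∈ red c, ee (n * ((b : ℝ) / c))‖
            ≤ 1 / (c.totient : ℝ) * (c.totient : ℝ) := by
              refine mul_le_mul ?_ h4 (norm_nonneg _) (by positivity)
              exact div_le_div_of_nonneg_right hμ hφ.le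
          _ = 1 := by field_simp
    _ = R := by
        rw [Finset.sum_const, nsmul_eq_mul, Nat.card_Icc, Nat.add_sub_cancel, mul_one]

private theorem Om2_card (P m : ℕ) (hm : 1 ≤ m) :
    ((((pb P).filter (fun p => p ∣ m)).card : ℕ) : ℝ) ≤ 2 * Real.log m := by
  have h1 : 2 ^ ((pb P).filter (fun p => p ∣ m)).card ≤ m := by
    have h2 : ∏ p ∈ (pb P).filter (fun p => p ∣ m), p ∣ m := by
      refine Finset.prod_primes_dvd m ?_ ?_
      · intro p hp
        exact (Om2_pb (Finset.mem_filter.1 hp).1).1.prime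
      · intro p hp
        exact (Finset.mem_filter.1 hp).2
    refine le_trans ?_ (Nat.le_of_dvd (by omega) h2)
    rw [← Finset.prod_const]
    refine Finset.prod_le_prod' fun p hp => ?_
    exact (Om2_pb (Finset.mem_filter.1 hp).1).1.two_le
  have h3 : (2 : ℝ) ^ ((pb P).filter (fun p => p ∣ m)).card ≤ m := by exact_mod_cast h1
  have h4 := Real.log_le_log (by positivity) h3
  rw [Real.log_pow] at h4
  have h5 : (1 : ℝ) / 2 ≤ Real.log 2 := by
    have := Real.log_two_gt_d9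
    linarith only [this]
  have h6 : (0 : ℝ) ≤ ((((pb P).filter (fun p => p ∣ m)).card : ℕ) : ℝ) := Nat.cast_nonneg _
  nlinarith only [h4, h5]

private theorem Om2_ev (C c : ℝ) (hc : 0 < c) (k : ℕ) :
    ∃ N0 : ℕ, ∀ N : ℕ, N0 ≤ N → C * Real.log N ^ k ≤ (N : ℝ) ^ c := by
  have h := isLittleO_log_rpow_rpow_atTop (k : ℝ) hc
  have h2 : ∀ᶠ x : ℝ in Filter.atTop, ‖Real.log x ^ (k : ℝ)‖ ≤ 1 / (|C| + 1) * ‖x ^ c‖ :=
    h.bound (by positivity)
  have h3 := tendsto_natCast_atTop_atTop (R := ℝ) |>.eventually h2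
  obtain ⟨N0, hN0⟩ := Filter.eventually_atTop.1 h3
  refine ⟨max N0 1, fun N hN => ?_⟩
  have hN1 : 1 ≤ N := le_trans (le_max_right _ _) hN
  have h4 := hN0 N (le_trans (le_max_left _ _) hN)
  have h5 : (0 : ℝ) ≤ Real.log N := Real.log_natCast_nonneg N
  rw [Real.rpow_natCast, Real.norm_eq_abs, Real.norm_eq_abs, abs_of_nonneg (pow_nonneg h5 k),
    abs_of_nonneg (Real.rpow_nonneg (Nat.cast_nonneg N) c)] at h4
  have h6 : (0 : ℝ) < |C| + 1 := by positivity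
  rw [one_div, inv_mul_eq_div, le_div_iff₀ h6] at h4
  have h7 : C * Real.log N ^ k ≤ Real.log N ^ k * (|C| + 1) := by
    have := le_abs_self C
    have h8 : 0 ≤ Real.log N ^ k := by positivity
    nlinarith only [h8, this]
  linarith only [h4, h7]

/-- the natural quotients `i H / p` -/
private theorem Om2_quot (N P H i p : ℕ) (h1000 : (1000 : ℝ) ≤ N) (hp : p ∈ pb P) (hP1 : (1 : ℝ) ≤ P)
    (hHP : (24 : ℝ) * P ≤ H) (hHs : (H : ℝ) ≤ (N : ℝ) ^ (1 / 2 : ℝ)) (hiH : (N : ℝ) / 3 ≤ (i : ℝ) * H) :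
    (N : ℝ) / (12 * P) ≤ ((i * H / p : ℕ) : ℝ) ∧ (N : ℝ) ^ (1 / 2 : ℝ) ≤ ((i * H / p : ℕ) : ℝ) := by
  have hN00 : (0 : ℝ) < N := by linarith only [h1000]
  have hP0 : (0 : ℝ) < P := by linarith
  obtain ⟨p1, p2, p3⟩ := Om2_pb hp
  have hp0 : (0 : ℝ) < p := by exact_mod_cast p1.pos
  have p3' : (p : ℝ) ≤ 2 * P := by exact_mod_cast p3
  have h1 : (i * H : ℕ) < i * H / p * p + p := Nat.lt_div_mul_add p1.pos
  have h2 : (i : ℝ) * H < ((i * H / p : ℕ) : ℝ) * p + p := by exact_mod_cast h1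
  have h4 : (0 : ℝ) ≤ ((i * H / p : ℕ) : ℝ) + 1 := by positivity
  have h3 : (i : ℝ) * H < (((i * H / p : ℕ) : ℝ) + 1) * (2 * P) := by
    calc (i : ℝ) * H < (((i * H / p : ℕ) : ℝ) + 1) * p := by linarith only [h2]
      _ ≤ _ := mul_le_mul_of_nonneg_left p3' h4
  have h5 : (N : ℝ) < (((i * H / p : ℕ) : ℝ) + 1) * (6 * P) := by linarith only [hiH, h3]
  set x := ((i * H / p : ℕ) : ℝ) with hx
  set s := (N : ℝ) ^ (1 / 2 : ℝ) with hs
  have h7 : s * s = N := by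
    rw [hs, ← Real.rpow_add hN00]
    norm_num
  have h8 : (24 : ℝ) * P ≤ s := le_trans hHP hHs
  have h9 : (0 : ℝ) < s := by positivity
  have h6 : s * (24 * P) ≤ N := by
    rw [← h7]
    exact mul_le_mul_of_nonneg_left h8 h9.le
  have hs1 : (24 : ℝ) ≤ s := by linarith only [hP1, hHP, hHs]
  have h11 : (1 : ℝ) ≤ N / (12 * P) := by
    rw [le_div_iff₀ (by positivity)]
    have h12 : 24 * (24 * (P : ℝ)) ≤ s * (24 * P) := mul_le_mul_of_nonneg_right hs1 (by positivity)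
    linarith only [h1000, h6, h12]
  have h13 : (N : ℝ) / (6 * P) ≤ x + 1 := by
    rw [div_le_iff₀ (by positivity)]
    exact h5.le
  have h10 : (N : ℝ) / (6 * P) = N / (12 * P) + N / (12 * P) := by
    field_simp
    norm_num
  have h9' : (N : ℝ) / (12 * P) ≤ x := by linarith only [h11, h13, h10]
  refine ⟨h9', le_trans ?_ h9'⟩
  rw [le_div_iff₀ (by positivity)]
  have : s * (12 * (P : ℝ)) ≤ s * (24 * P) := mul_le_mul_of_nonneg_left (by linarith only [hP1]) h9.le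
  linarith only [h1000, h6]

/-- the densities inside a block -/
private theorem Om2_lip (N P H i p m y J : ℕ) (e ζ : ℝ) (hN00 : (0 : ℝ) < N) (hp : p ∈ pb P) (hP1 : (1 : ℝ) ≤ P)
    (hy : 1 ≤ y) (hx12 : (N : ℝ) / (12 * P) ≤ ((i * H / p : ℕ) : ℝ)) (hx3 : 3 ≤ i * H / p)
    (hzx : zz y J ≤ i * H / p) (hz : (zz y J : ℝ) ≤ (N : ℝ) ^ ζ) (hζ2 : ζ < 1 / 2)
    (hPH : (P : ℝ) * (N : ℝ) ^ e ≤ H) (hN1 : 1 ≤ (N : ℝ) ^ e)
    (hHs : (H : ℝ) ≤ (N : ℝ) ^ (1 / 2 : ℝ)) (hm : m ∈ Ico (i * H) (i * H + H)) (hpm : p ∣ m) (hN1' : (1 : ℝ) ≤ N) :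
    |kap y J (m / p) - kap y J (i * H / p)| ≤ 360 / (N : ℝ) ^ e := by
  obtain ⟨p1, p2, p3⟩ := Om2_pb hp
  have hP0 : (0 : ℝ) < P := by linarith only [hP1]
  have hp0 : (0 : ℝ) < p := by exact_mod_cast p1.pos
  have p2' : (P : ℝ) ≤ p := by exact_mod_cast p2.le
  rw [Finset.mem_Ico] at hm
  have hxx : i * H / p ≤ m / p := Nat.div_le_div_right hm.1
  have h1 := kap_lip y J (i * H / p) (m / p) hy hx3 hzx hxx
  refine h1.trans ?_
  -- the difference
  have h2 : ((m / p : ℕ) : ℝ) - ((i * H / p : ℕ) : ℝ) ≤ H / P + 1 := by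
    have a1 : ((m / p : ℕ) : ℝ) * p = m := by
      have := Nat.div_mul_cancel hpm
      exact_mod_cast this
    have a2 : (i * H : ℕ) < i * H / p * p + p := Nat.lt_div_mul_add p1.pos
    have a3 : (i : ℝ) * H < ((i * H / p : ℕ) : ℝ) * p + p := by exact_mod_cast a2
    have a4 : (m : ℝ) < (i : ℝ) * H + H := by exact_mod_cast hm.2
    have a5 : (((m / p : ℕ) : ℝ) - ((i * H / p : ℕ) : ℝ) - 1) * p ≤ H := by linarith only [a1, a3, a4]
    have a6 : ((m / p : ℕ) : ℝ) - ((i * H / p : ℕ) : ℝ) - 1 ≤ H / p := by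
      rw [le_div_iff₀ hp0]
      exact a5
    have a7 : (H : ℝ) / p ≤ H / P := div_le_div_of_nonneg_left (Nat.cast_nonneg _) hP0 p2'
    linarith only [a6, a7]
  set X := ((i * H / p : ℕ) : ℝ) with hX
  have hX0 : 0 < X := lt_of_lt_of_le (by positivity) hx12
  set s := (N : ℝ) ^ (1 / 2 : ℝ) with hs
  have h7 : s * s = N := by
    rw [hs, ← Real.rpow_add hN00]
    norm_num
  have hs0 : 0 < s := by positivity
  have hz2 : (zz y J : ℝ) ≤ s := hz.trans (Real.rpow_le_rpow_of_exponent_le hN1' hζ2.le)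
  set E := (N : ℝ) ^ e with hE
  have hE0 : 0 < E := by linarith only [hN1]
  have hXP : (N : ℝ) ≤ X * (12 * P) := by
    rwa [div_le_iff₀ (by positivity)] at hx12
  rw [div_le_div_iff₀ hX0 hE0]
  have b1 : (((m / p : ℕ) : ℝ) - X + zz y J) * P ≤ H + P + s * P := by
    have c1 : (((m / p : ℕ) : ℝ) - X + zz y J) ≤ H / P + 1 + s := by linarith only [h2, hz2]
    calc (((m / p : ℕ) : ℝ) - X + zz y J) * P ≤ (H / P + 1 + s) * P := mul_le_mul_of_nonneg_right c1 hP0.le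
      _ = H + P + s * P := by field_simp
  have hPE : (P : ℝ) ≤ s / E := by
    rw [le_div_iff₀ hE0]
    linarith only [hHs, hPH]
  have hEs : E ≤ s := by
    have : 1 * E ≤ P * E := mul_le_mul_of_nonneg_right hP1 hE0.le
    linarith only [hHs, hPH, this]
  have b2 : (H + P + s * P) * E ≤ 3 * N := by
    have c1 : (H : ℝ) * E ≤ s * s := mul_le_mul hHs hEs hE0.le hs0.le
    have c2 : (P : ℝ) * E ≤ s := by linarith only [hHs, hPH]
    have c3 : s * P * E ≤ s * s := by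
      rw [mul_assoc]
      exact mul_le_mul_of_nonneg_left c2 hs0.le
    have c4 : s ≤ s * s := by
      have : (1 : ℝ) ≤ s := le_trans hN1 hEs
      nlinarith only [hN1, hEs, hHs]
    rw [← h7]
    linarith only [hHs, hPH, c1, c3, c4]
  have b3 : (((m / p : ℕ) : ℝ) - X + zz y J) * P * E ≤ 3 * (X * (12 * P)) := by
    have := mul_le_mul_of_nonneg_right b1 hE0.le
    linarith only [hXP, b2, this]
  have b4 : ((((m / p : ℕ) : ℝ) - X + zz y J) * E) * P ≤ (36 * X) * P := by linarith only [b3]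
  have b5 : (((m / p : ℕ) : ℝ) - X + zz y J) * E ≤ 36 * X := le_of_mul_le_mul_right b4 hP0
  linarith only [b5]

theorem omw2 (e1 ζ e : ℝ) (he1 : 0 < e1) (hζ : e1 < ζ) (hζ2 : ζ < 1 / 2) (he : 0 < e) (A B : ℕ) :
    ∃ N0 : ℕ, ∀ N : ℕ, N0 ≤ N → ∀ (J R P H i : ℕ) (α : ℝ), (zz (yN e1 N) J : ℝ) ≤ (N : ℝ) ^ ζ →
      1 ≤ R → (R : ℝ) ≤ Real.log N ^ B → (N : ℝ) ^ e1 ≤ 2 * P → (P : ℝ) * (N : ℝ) ^ e ≤ H → H ^ 2 ≤ N →
      i ∈ Icc (N / (2 * H)) (4 * N / H) →
      ‖Bs (fun m => ∑ p ∈ (pb P).filter (fun p => p ∣ m), kap (yN e1 N) J (m / p) * lamR R (m / p)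
        - WK (yN e1 N) J P (i * H) * lamR R m) H i α‖ ≤ H / Real.log N ^ A := by
  classical
  obtain ⟨N1, hN1⟩ := Om2_ev 2 e1 he1 0
  obtain ⟨N2, hN2⟩ := Om2_ev 24 e he 0
  obtain ⟨N3, hN3⟩ := Om2_ev 8640 e he (A + B + 1)
  obtain ⟨N4, hN4⟩ := Om2_ev 64 e1 he1 (A + B)
  obtain ⟨N5, hN5⟩ := Om2_ev 128 e he (A + B + 1)
  refine ⟨max 1000 (max N1 (max N2 (max N3 (max N4 N5)))), fun N hN J R P H i α hz hR hRB hP hH hHN hi => ?_⟩
  have hN0 : 1000 ≤ N := le_trans (le_max_left _ _) hN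
  have hNr : (1000 : ℝ) ≤ N := by exact_mod_cast hN0
  have hN' := le_trans (le_max_right _ _) hN
  have c1 := hN1 N (le_trans (le_max_left _ _) hN')
  have hN' := le_trans (le_max_right _ _) hN'
  have c2 := hN2 N (le_trans (le_max_left _ _) hN')
  have hN' := le_trans (le_max_right _ _) hN'
  have c3 := hN3 N (le_trans (le_max_left _ _) hN')
  have hN' := le_trans (le_max_right _ _) hN'
  have c4 := hN4 N (le_trans (le_max_left _ _) hN')
  have c5 := hN5 N (le_trans (le_max_right _ _) hN')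
  rw [pow_zero, mul_one] at c1 c2
  clear hN' hN1 hN2 hN3 hN4 hN5
  set L := Real.log N with hL
  have hL1 : 1 ≤ L := by
    have h1 : Real.exp 1 ≤ N := by
      have := Real.exp_one_lt_d9
      linarith only [he1, hζ, hζ2, hNr, this]
    calc (1 : ℝ) = Real.log (Real.exp 1) := (Real.log_exp 1).symm
      _ ≤ L := Real.log_le_log (Real.exp_pos 1) h1
  have hL0 : 0 < L := by linarith only [he1, hζ, hζ2, hL1]
  have hN00 : (0 : ℝ) < N := by linarith only [he1, hζ, hζ2, hNr]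
  -- `P ≥ 1`
  have hP1 : (1 : ℝ) ≤ P := by linarith only [hP, c1]
  have hPn : 1 ≤ P := by exact_mod_cast hP1
  have hP0 : (0 : ℝ) < P := by linarith only [he1, hζ, hζ2, hP, c1]
  have hy : 1 ≤ yN e1 N := by
    unfold yN
    exact Nat.le_floor (by push_cast; linarith only [he1, hζ, hζ2, c1])
  -- `H`
  have hsq : (H : ℝ) ^ 2 ≤ N := by exact_mod_cast hHN
  have hHs : (H : ℝ) ≤ (N : ℝ) ^ (1 / 2 : ℝ) := by
    rw [← Real.sqrt_eq_rpow]
    exact Real.le_sqrt_of_sq_le hsq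
  have hNe : (0 : ℝ) < (N : ℝ) ^ e := by positivity
  have hHP : (24 : ℝ) * P ≤ H := by
    refine le_trans ?_ hH
    nlinarith only [c2]
  have hH1r : (1 : ℝ) ≤ H := by linarith only [he1, hζ, hζ2, hP, c1, hHP]
  have hH1 : 1 ≤ H := by exact_mod_cast hH1r
  have hH0 : (0 : ℝ) < H := by linarith only [he1, hζ, hζ2, hP, c1, hHP]
  have hH32 : (32 : ℝ) * H ≤ N ∨ (H : ℝ) < 32 := by
    rcases lt_or_ge (H : ℝ) 32 with h | h
    · exact Or.inr h
    · left
      nlinarith only [hsq, h]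
  have hH30 : (30 : ℝ) * H ≤ N := by
    rcases hH32 with h | h
    · linarith only [he1, hζ, hζ2, hNr, h]
    · linarith only [he1, hζ, hζ2, hNr, h]
  have hH6 : 30 * H ≤ N := by exact_mod_cast hH30
  rw [Finset.mem_Icc] at hi
  -- `i H ≥ N/3`
  have hiH : (N : ℝ) / 3 ≤ (i : ℝ) * H := by
    have h1 : N < (N / (2 * H) + 1) * (2 * H) := by
      have := Nat.lt_div_mul_add (a := N) (show 0 < 2 * H by omega)
      rw [add_mul, one_mul]
      exact this
    have h2 : N < (i + 1) * (2 * H) := lt_of_lt_of_le h1 (Nat.mul_le_mul_right _ (by omega))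
    have h3 : (N : ℝ) < ((i : ℝ) + 1) * (2 * H) := by exact_mod_cast h2
    linarith only [he1, hζ, hζ2, hNr, hH30, h3]
  have hi1 : 1 ≤ i := by
    rcases Nat.eq_zero_or_pos i with h | h
    · exfalso
      rw [h, Nat.cast_zero, zero_mul] at hiH
      linarith only [he1, hζ, hζ2, hNr, hiH]
    · exact h
  have hiH4 : i * H ≤ 4 * N := le_trans (Nat.mul_le_mul_right _ hi.2) (Nat.div_mul_le_self _ _)
  -- the density at `iH/p`
  have hx : ∀ p ∈ pb P, (N : ℝ) / (12 * P) ≤ ((i * H / p : ℕ) : ℝ) ∧ (N : ℝ) ^ (1 / 2 : ℝ) ≤ ((i * H / p : ℕ) : ℝ) :=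
    fun p hp => Om2_quot N P H i p hNr hp hP1 hHP hHs hiH
  have hs30 : (30 : ℝ) ≤ (N : ℝ) ^ (1 / 2 : ℝ) := by
    rw [← Real.sqrt_eq_rpow]
    exact Real.le_sqrt_of_sq_le (by linarith only [he1, hζ, hζ2, hNr])
  have hx3 : ∀ p ∈ pb P, 3 ≤ i * H / p := by
    intro p hp
    have h1 := (hx p hp).2
    have h2 : (3 : ℝ) ≤ ((i * H / p : ℕ) : ℝ) := by linarith only [he1, hζ, hζ2, hs30, h1]
    exact_mod_cast h2
  have hzx : ∀ p ∈ pb P, zz (yN e1 N) J ≤ i * H / p := by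
    intro p hp
    have h1 := (hx p hp).2
    have h2 : (N : ℝ) ^ ζ ≤ (N : ℝ) ^ (1 / 2 : ℝ) := Real.rpow_le_rpow_of_exponent_le (by linarith only [he1, hζ, hζ2, hNr]) hζ2.le
    have h3 : (zz (yN e1 N) J : ℝ) ≤ ((i * H / p : ℕ) : ℝ) := by linarith only [hz, h1, h2]
    exact_mod_cast h3
  have hκ : ∀ p ∈ pb P, |kap (yN e1 N) J (i * H / p)| ≤ 2 := by
    intro p hp
    rw [abs_of_nonneg (kap_nonneg _ _ _ (by have := hx3 p hp; omega))]
    exact kap_le _ _ _ (hx3 p hp)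
  -- the two parts
  have hRP : R < P := by
    have h1 : (R : ℝ) < P := by
      have h2 : (64 : ℝ) * L ^ B ≤ 64 * L ^ (A + B) := by
        have := pow_le_pow_right₀ hL1 (show B ≤ A + B by omega)
        linarith only [this]
      have h3 : (0 : ℝ) < L ^ B := by positivity
      linarith only [hP, hRB, c4, h2, h3]
    exact_mod_cast h1
  have hN1' : (1 : ℝ) ≤ N := by linarith only [he1, hζ, hζ2, hNr]
  have hE1 : (1 : ℝ) ≤ (N : ℝ) ^ e := Real.one_le_rpow hN1' he.le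
  set E := (N : ℝ) ^ e with hE
  set κ : ℕ → ℝ := fun p => kap (yN e1 N) J (i * H / p) with hκdef
  set F1 : ℕ → ℝ := fun m => ∑ p ∈ (pb P).filter (fun p => p ∣ m),
    (kap (yN e1 N) J (m / p) - κ p) * lamR R (m / p) with hF1
  set F2 : ℕ → ℝ := fun m => lamR R m * ∑ p ∈ pb P, κ p * ((if p ∣ m then (1 : ℝ) else 0) - 1 / p) with hF2
  have hsplit : ∀ m : ℕ, ∑ p ∈ (pb P).filter (fun p => p ∣ m), kap (yN e1 N) J (m / p) * lamR R (m / p)
        - WK (yN e1 N) J P (i * H) * lamR R m = F1 m + F2 m := by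
    intro m
    have s1 : F2 m = ∑ p ∈ (pb P).filter (fun p => p ∣ m), κ p * lamR R (m / p) -
        WK (yN e1 N) J P (i * H) * lamR R m := by
      rw [hF2]
      simp only
      unfold WK
      rw [Finset.sum_filter, Finset.sum_mul, ← Finset.sum_sub_distrib, Finset.mul_sum]
      refine Finset.sum_congr rfl fun p hp => ?_
      obtain ⟨p1, p2, p3⟩ := Om2_pb hp
      by_cases hd : p ∣ m
      · rw [if_pos hd, if_pos hd]
        obtain ⟨q, rfl⟩ := hd
        rw [Nat.mul_div_cancel_left _ p1.pos, Pool.Agent.H76.SP.lamR_mul R p q p1 (by omega)]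
        ring
      · rw [if_neg hd, if_neg hd]
        ring
    rw [s1, hF1]
    simp only
    rw [add_sub, ← Finset.sum_add_distrib]
    congr 1
    refine Finset.sum_congr rfl fun p _ => ?_
    ring
  have hBs : Bs (fun m => ∑ p ∈ (pb P).filter (fun p => p ∣ m), kap (yN e1 N) J (m / p) * lamR R (m / p)
        - WK (yN e1 N) J P (i * H) * lamR R m) H i α = Bs F1 H i α + Bs F2 H i α := by
    unfold Bs
    rw [← Finset.sum_add_distrib]
    refine Finset.sum_congr rfl fun m _ => ?_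
    have := hsplit m
    beta_reduce
    rw [this, Complex.ofReal_add]
    ring
  rw [hBs]
  have hRB0 : (0 : ℝ) ≤ R := Nat.cast_nonneg _
  have hLA : (0 : ℝ) < L ^ A := by positivity
  have hLAB : L ^ A * L ^ B = L ^ (A + B) := (pow_add L A B).symm
  -- the error
  have hb1 : ‖Bs F1 H i α‖ ≤ H / (2 * L ^ A) := by
    have t1 : ∀ m ∈ Ico (i * H) ((i + 1) * H), ‖((F1 m : ℝ) : ℂ) * ee (-(m * α))‖ ≤ 1 / (2 * L ^ A) := by
      intro m hm
      have hm' : m ∈ Ico (i * H) (i * H + H) := by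
        have : (i + 1) * H = i * H + H := by ring
        rwa [this] at hm
      have hm2 := Finset.mem_Ico.1 hm'
      have hm1 : 1 ≤ m := le_trans (Nat.mul_le_mul hi1 hH1) hm2.1
      rw [norm_mul, Pool.Agent.H91.PK.LSa_norm_ee, mul_one, Complex.norm_real, Real.norm_eq_abs]
      have hm5 : (m : ℝ) ≤ (N : ℝ) ^ 2 := by
        have u1 : m ≤ 5 * N := by omega
        have u2 : (m : ℝ) ≤ 5 * N := by exact_mod_cast u1
        nlinarith only [he1, hζ, hζ2, hNr, u2]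
      have hlog : Real.log m ≤ 2 * L := by
        have u1 := Real.log_le_log (by exact_mod_cast hm1) hm5
        rw [Real.log_pow] at u1
        push_cast at u1
        exact u1
      have hcard := Om2_card P m hm1
      calc |F1 m| ≤ ∑ p ∈ (pb P).filter (fun p => p ∣ m), |(kap (yN e1 N) J (m / p) - κ p) * lamR R (m / p)| :=
            Finset.abs_sum_le_sum_abs _ _
        _ ≤ ∑ _p ∈ (pb P).filter (fun p => p ∣ m), 360 / E * L ^ B := by
            refine Finset.sum_le_sum fun p hp => ?_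
            rw [Finset.mem_filter] at hp
            rw [abs_mul]
            refine mul_le_mul ?_ ?_ (abs_nonneg _) (by positivity)
            · exact Om2_lip N P H i p m (yN e1 N) J e ζ hN00 hp.1 hP1 hy (hx p hp.1).1 (hx3 p hp.1) (hzx p hp.1)
                hz hζ2 hH hE1 hHs hm' hp.2 hN1'
            · refine (Om2_lam R _ ?_).trans hRB
              exact Nat.div_pos (Nat.le_of_dvd (by omega) hp.2) (Om2_pb hp.1).1.pos
        _ = ((((pb P).filter (fun p => p ∣ m)).card : ℕ) : ℝ) * (360 / E * L ^ B) := by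
            rw [Finset.sum_const, nsmul_eq_mul]
        _ ≤ (4 * L) * (360 / E * L ^ B) := by
            refine mul_le_mul_of_nonneg_right ?_ (by positivity)
            linarith only [hlog, hcard]
        _ ≤ 1 / (2 * L ^ A) := by
            rw [le_div_iff₀ (by positivity)]
            have u1 : (4 * L) * (360 / E * L ^ B) * (2 * L ^ A) = 2880 * L ^ (A + B + 1) / E := by
              rw [pow_succ, ← hLAB]
              field_simp
              ring
            rw [u1, div_le_one (by positivity)]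
            have u2 : (0 : ℝ) < L ^ (A + B + 1) := by positivity
            linarith only [c3, u2]
    unfold Bs
    refine (norm_sum_le _ _).trans ((Finset.sum_le_sum t1).trans (le_of_eq ?_))
    rw [Finset.sum_const, nsmul_eq_mul, Nat.card_Ico]
    have : (i + 1) * H - i * H = H := by
      have : (i + 1) * H = i * H + H := by ring
      omega
    rw [this]
    ring
  -- the main part
  have hb2 : ‖Bs F2 H i α‖ ≤ H / (2 * L ^ A) := by
    refine (Om2_main P R H i α κ hκ hPn hH1 hi1).trans ?_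
    have hlog4 : Real.log (4 * (P : ℝ) ^ 2) ≤ L := by
      refine Real.log_le_log (by positivity) ?_
      nlinarith only [he1, hζ, hζ2, hNr, hsq, hHP]
    have hW : Om2_W P H ≤ 4 * H / P + 16 * L * P := by
      unfold Om2_W
      have u1 : 4 * (P : ℝ) ^ 2 * (1 + Real.log (4 * P ^ 2)) ≤ 4 * (P : ℝ) ^ 2 * (2 * L) :=
        mul_le_mul_of_nonneg_left (by linarith only [hL1, hlog4]) (by positivity)
      calc 2 / (P : ℝ) * (2 * H + 4 * P ^ 2 * (1 + Real.log (4 * P ^ 2)))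
          ≤ 2 / (P : ℝ) * (2 * H + 4 * (P : ℝ) ^ 2 * (2 * L)) :=
            mul_le_mul_of_nonneg_left (by linarith only [u1]) (by positivity)
        _ = 4 * H / P + 16 * L * P := by
            field_simp
            ring
    have hLB0 : (0 : ℝ) ≤ L ^ B := by positivity
    have hW0 : 0 ≤ 4 * (H : ℝ) / P + 16 * L * P := by positivity
    have v1 : (R : ℝ) * Om2_W P H ≤ L ^ B * (4 * H / P + 16 * L * P) :=
      (mul_le_mul_of_nonneg_left hW hRB0).trans (mul_le_mul_of_nonneg_right hRB hW0)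
    refine v1.trans ?_
    have w1 : L ^ B * (4 * H / P) ≤ H / (4 * L ^ A) := by
      rw [← mul_div_assoc, div_le_div_iff₀ hP0 (by positivity)]
      have u1 : 16 * L ^ (A + B) ≤ P := by
        have : (0 : ℝ) < L ^ (A + B) := by positivity
        linarith only [hP, c4, this]
      calc L ^ B * (4 * H) * (4 * L ^ A) = H * (16 * (L ^ A * L ^ B)) := by ring
        _ = H * (16 * L ^ (A + B)) := by rw [hLAB]
        _ ≤ H * P := mul_le_mul_of_nonneg_left u1 hH0.le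
    have w2 : L ^ B * (16 * L * P) ≤ H / (4 * L ^ A) := by
      rw [le_div_iff₀ (by positivity)]
      calc L ^ B * (16 * L * P) * (4 * L ^ A) = P * (64 * (L ^ A * L ^ B * L)) := by ring
        _ = P * (64 * L ^ (A + B + 1)) := by rw [hLAB, ← pow_succ]
        _ ≤ P * E := by
            refine mul_le_mul_of_nonneg_left ?_ hP0.le
            have : (0 : ℝ) < L ^ (A + B + 1) := by positivity
            linarith only [c3, this]
        _ ≤ H := hH
    have w3 : (H : ℝ) / (4 * L ^ A) + H / (4 * L ^ A) = H / (2 * L ^ A) := by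
      field_simp
      norm_num
    rw [mul_add, ← w3]
    exact add_le_add w1 w2
  calc ‖Bs F1 H i α + Bs F2 H i α‖ ≤ ‖Bs F1 H i α‖ + ‖Bs F2 H i α‖ := norm_add_le _ _
    _ ≤ H / (2 * L ^ A) + H / (2 * L ^ A) := add_le_add hb1 hb2
    _ = H / L ^ A := by
        field_simp
        norm_num

end Pool.Agent.H76.TP

end

section

/-!
# TQ LfuOm: the part `(om/2) T` of the majorant

`H = ⌊N^θ⌋`.  For `m ≥ 1`: the primes of `(z, z1]` are the disjoint union of `pb (2^j y)`, `J ≤ j < J1`, so `om m = ∑_{j ∈ [J, J1)} (Ph (2^j y) m + ∑_{p ∈ pb (2^j y)} 1/p) = ∑_j Ph (2^j y) m + W1` and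
`(om m/2) T m - (kT W1/2) lamR R m = (1/2) ∑_{j ∈ [J, J1)} T m Ph (2^j y) m + (W1/2) (T m - kT lamR R m)`.
`TIP` with exponent `A + 3` for `P = 2^j y`, `N^(1/5) ≤ z ≤ P ≤ z1/2 ≤ N^κ`: the union of the `J1 - J ≤ 2L` bad sets (`2^(J1 - J) z = z1 ≤ N`) has `≤ 2L (N/H)/L^(A+3)` members; outside of it the sum is
`≤ (1/2) 2L H/L^(A+3) + (W1/2) H/L^(A+2)`, `W1 ≤ 1 + log z1 ≤ L` (harmonic sum, `w1_le`).
-/

set_option autoImplicit false

namespace Pool.Agent.H91.TQ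

open Finset
open Pool.Agent.H91.PK (ee)
open Pool.Agent.H91.EHA (Lam hR lamR ramS)
open Pool.Agent.H35.W (pb)
open Pool.Agent.H53.MID (Fp Bs badB)
open Pool.Agent.H76.TP

private theorem lfo_py (y J J1 : ℕ) (hJ : J ≤ J1) (f : ℕ → ℝ) :
    ∑ p ∈ PY (zz y J) (zz y J1), f p = ∑ j ∈ Ico J J1, ∑ p ∈ pb (2 ^ j * y), f p := by
  induction J1, hJ using Nat.le_induction with
  | base => simp only [PY, Ioc_self, filter_empty, sum_empty, Ico_self]
  | succ n hn ih =>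
    rw [Finset.sum_Ico_succ_top hn, ← ih]
    have h1 : 2 ^ (n + 1) * y = 2 * (2 ^ n * y) := by ring
    have h2 : 2 ^ J * y ≤ 2 ^ n * y :=
      Nat.mul_le_mul_right _ (Nat.pow_le_pow_right (by norm_num) hn)
    have hu : PY (zz y J) (zz y (n + 1)) = PY (zz y J) (zz y n) ∪ pb (2 ^ n * y) := by
      ext p
      simp only [PY, pb, mem_filter, mem_union, mem_Ioc, zz]
      rw [h1]
      constructor
      · rintro ⟨⟨h3, h4⟩, h5⟩
        by_cases h6 : p ≤ 2 ^ n * y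
        · exact Or.inl ⟨⟨h3, h6⟩, h5⟩
        · exact Or.inr ⟨⟨by omega, h4⟩, h5⟩
      · rintro (⟨⟨h3, h4⟩, h5⟩ | ⟨⟨h3, h4⟩, h5⟩)
        · exact ⟨⟨h3, by omega⟩, h5⟩
        · exact ⟨⟨by omega, h4⟩, h5⟩
    rw [hu, Finset.sum_union]
    rw [Finset.disjoint_left]
    intro p hp hp2
    simp only [PY, pb, mem_filter, mem_Ioc, zz] at hp hp2
    omega

theorem om_ph (y J J1 m : ℕ) (hJ : J ≤ J1) (hm : 1 ≤ m) :
    (om y J J1 m : ℝ) = ∑ j ∈ Ico J J1, Ph (2 ^ j * y) m + W1 y J J1 := by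
  have h1 : (om y J J1 m : ℝ) = ∑ p ∈ PY (zz y J) (zz y J1), (if p ∣ m then (1 : ℝ) else 0) := by
    rw [Finset.sum_boole]
    congr 1
    unfold om
    congr 1
    ext p
    simp only [PY, mem_filter, mem_Ioc, Nat.mem_primeFactors]
    constructor
    · rintro ⟨⟨h3, h4, _⟩, h5⟩
      exact ⟨⟨h5, h3⟩, h4⟩
    · rintro ⟨⟨h5, h3⟩, h4⟩
      exact ⟨⟨h3, h4, by omega⟩, h5⟩
  rw [h1, lfo_py y J J1 hJ, W1, lfo_py y J J1 hJ, ← Finset.sum_add_distrib]
  refine Finset.sum_congr rfl (fun j _ => ?_)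
  rw [Ph, Finset.sum_boole]
  ring

private theorem lfo_w1 (y J J1 : ℕ) : 0 ≤ W1 y J J1 ∧
    W1 y J J1 ≤ 1 + Real.log (zz y J1) := by
  constructor
  · exact Finset.sum_nonneg (fun p _ => by positivity)
  · have h1 : W1 y J J1 ≤ ∑ p ∈ Icc 1 (zz y J1), 1 / (p : ℝ) := by
      refine Finset.sum_le_sum_of_subset_of_nonneg ?_ (fun p _ _ => by positivity)
      intro p hp
      simp only [PY, mem_filter, mem_Ioc, mem_Icc] at hp ⊢
      exact ⟨hp.2.one_lt.le, hp.1.2⟩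
    refine h1.trans ?_
    have h2 := harmonic_le_one_add_log (zz y J1)
    rw [harmonic_eq_sum_Icc] at h2
    push_cast at h2
    simpa only [one_div] using h2

private theorem lfo_split (y J J1 : ℕ) (hJ : J ≤ J1) (T lam : ℕ → ℝ) (kT : ℝ) (H i : ℕ) (hH : 1 ≤ H)
    (hi : 1 ≤ i) (α : ℝ) :
    Bs (fun m => (om y J J1 m : ℝ) / 2 * T m - kT * W1 y J J1 / 2 * lam m) H i α =
      (1 / 2 : ℂ) * ∑ j ∈ Ico J J1, Bs (fun m => T m * Ph (2 ^ j * y) m) H i α +
        ((W1 y J J1 / 2 : ℝ) : ℂ) * Bs (fun m => T m - kT * lam m) H i α := by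
  simp only [Bs]
  rw [Finset.sum_comm, Finset.mul_sum, Finset.mul_sum, ← Finset.sum_add_distrib]
  refine Finset.sum_congr rfl (fun m hm => ?_)
  have hm1 : 1 ≤ m := by
    rw [mem_Ico] at hm
    have : 1 * 1 ≤ i * H := Nat.mul_le_mul hi hH
    omega
  have h1 : (om y J J1 m : ℝ) / 2 * T m - kT * W1 y J J1 / 2 * lam m =
      (1 / 2) * ∑ j ∈ Ico J J1, T m * Ph (2 ^ j * y) m + W1 y J J1 / 2 * (T m - kT * lam m) := by
    rw [om_ph y J J1 m hJ hm1, ← Finset.mul_sum]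
    ring
  have h2 : (((om y J J1 m : ℝ) / 2 * T m - kT * W1 y J J1 / 2 * lam m : ℝ) : ℂ) =
      (1 / 2 : ℂ) * ∑ j ∈ Ico J J1, ((T m * Ph (2 ^ j * y) m : ℝ) : ℂ) +
        ((W1 y J J1 / 2 : ℝ) : ℂ) * ((T m - kT * lam m : ℝ) : ℂ) := by
    rw [h1]
    push_cast
    ring
  rw [h2, ← Finset.sum_mul]
  ring

open Classical in
theorem lfu_om (θ κ e4 : ℝ) (hθ : 0 < θ) (hθ2 : θ < 1 / 2) (hκ : κ < 1) (hTI : TIP θ κ e4) (A : ℕ) :
    ∃ N0 : ℕ, ∀ N : ℕ, N0 ≤ N → ∀ (y J J1 Q R : ℕ) (g T : ℕ → ℝ) (kT : ℝ), 1 ≤ y → J ≤ J1 →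
      (N : ℝ) ^ (1 / 5 : ℝ) ≤ zz y J → (zz y J1 : ℝ) ≤ (N : ℝ) ^ κ → Adm Q g T → (Q : ℝ) ≤ (N : ℝ) ^ e4 →
      (∀ (i : ℕ) (α : ℝ), 1 ≤ i → ‖Bs (fun m => T m - kT * lamR R m) ⌊(N : ℝ) ^ θ⌋₊ i α‖ ≤
        ⌊(N : ℝ) ^ θ⌋₊ / Real.log N ^ (A + 2)) →
      (((Icc (N / (2 * ⌊(N : ℝ) ^ θ⌋₊)) (4 * N / ⌊(N : ℝ) ^ θ⌋₊)).filter (fun i => ∃ α : ℝ,
        (⌊(N : ℝ) ^ θ⌋₊ : ℝ) / Real.log N ^ A <
          ‖Bs (fun m => (om y J J1 m : ℝ) / 2 * T m - kT * W1 y J J1 / 2 * lamR R m) ⌊(N : ℝ) ^ θ⌋₊ i α‖)).card : ℝ) ≤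
        (N : ℝ) / ⌊(N : ℝ) ^ θ⌋₊ / Real.log N ^ A := by
  obtain ⟨N1, hN1⟩ := hTI (A + 3)
  obtain ⟨N2, hN2⟩ : ∃ N2 : ℕ, ∀ N : ℕ, N2 ≤ N → max 2 (1 / (1 - κ)) ≤ Real.log (N : ℝ) := by
    have h := (Real.tendsto_log_atTop.comp (tendsto_natCast_atTop_atTop (R := ℝ))).eventually_ge_atTop
      (max 2 (1 / (1 - κ)))
    rw [Filter.eventually_atTop] at h
    exact h
  refine ⟨max N1 (max N2 4), ?_⟩
  intro N hN y J J1 Q R g T kT hy hJ hz1 hz2 hAdm hQ hB
  have hNN1 : N1 ≤ N := le_trans (le_max_left _ _) hN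
  have hNN2 : N2 ≤ N := le_trans (le_trans (le_max_left _ _) (le_max_right _ _)) hN
  have hN4 : 4 ≤ N := le_trans (le_trans (le_max_right _ _) (le_max_right _ _)) hN
  have hL0 := hN2 N hNN2
  have hL2 : 2 ≤ Real.log (N : ℝ) := le_trans (le_max_left _ _) hL0
  have hLk : 1 / (1 - κ) ≤ Real.log (N : ℝ) := le_trans (le_max_right _ _) hL0
  have hNr : (4 : ℝ) ≤ N := by exact_mod_cast hN4
  set H := ⌊(N : ℝ) ^ θ⌋₊ with hHd
  set L := Real.log (N : ℝ) with hLd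
  have hH1 : 1 ≤ H := by
    rw [hHd]
    apply Nat.le_floor
    rw [Nat.cast_one]
    exact Real.one_le_rpow (by linarith) hθ.le
  have hHr : (1 : ℝ) ≤ H := by exact_mod_cast hH1
  have hHN : 2 * H ≤ N := by
    have h1 : (H : ℝ) ≤ (N : ℝ) ^ θ := Nat.floor_le (Real.rpow_nonneg (by linarith) _)
    have h2 : (N : ℝ) ^ θ ≤ (N : ℝ) ^ (1 / 2 : ℝ) :=
      Real.rpow_le_rpow_of_exponent_le (by linarith) hθ2.le
    have h3 : (2 : ℝ) * (N : ℝ) ^ (1 / 2 : ℝ) ≤ N := by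
      rw [← Real.sqrt_eq_rpow]
      have h4 : (2 : ℝ) ≤ Real.sqrt N := by
        apply Real.le_sqrt_of_sq_le
        linarith
      have h5 := Real.mul_self_sqrt (show (0 : ℝ) ≤ N by linarith)
      nlinarith [Real.sqrt_nonneg (N : ℝ)]
    have h6 : (2 : ℝ) * H ≤ N := by linarith
    exact_mod_cast h6
  -- the number of the blocks
  have hzz1 : 1 ≤ zz y J1 := by
    unfold zz
    exact Nat.one_le_iff_ne_zero.mpr (by positivity)
  have hzzJ : 1 ≤ zz y J := by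
    unfold zz
    exact Nat.one_le_iff_ne_zero.mpr (by positivity)
  have hlogz : Real.log (zz y J1) ≤ κ * L := by
    have h1 : Real.log (zz y J1) ≤ Real.log ((N : ℝ) ^ κ) :=
      Real.log_le_log (by exact_mod_cast hzz1) hz2
    rwa [Real.log_rpow (by linarith)] at h1
  have hκL : 1 + κ * L ≤ L := by
    have h1 : 0 < 1 - κ := by linarith
    rw [div_le_iff₀ h1] at hLk
    nlinarith
  have hnb : ((J1 - J : ℕ) : ℝ) ≤ 2 * L := by
    have h1 : 2 ^ (J1 - J) ≤ zz y J1 := by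
      have h2 : zz y J1 = 2 ^ (J1 - J) * zz y J := by
        unfold zz
        rw [← mul_assoc, ← pow_add, Nat.sub_add_cancel hJ]
      rw [h2]
      exact Nat.le_mul_of_pos_right _ hzzJ
    have h3 : ((J1 - J : ℕ) : ℝ) * Real.log 2 ≤ Real.log (zz y J1) := by
      rw [← Real.log_pow]
      apply Real.log_le_log (by positivity)
      exact_mod_cast h1
    have h4 : (1 / 2 : ℝ) ≤ Real.log 2 := by
      have := Real.log_two_gt_d9
      linarith
    have h5 : (0 : ℝ) ≤ ((J1 - J : ℕ) : ℝ) := Nat.cast_nonneg _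
    nlinarith
  have hW := lfo_w1 y J J1
  have hW0 : 0 ≤ W1 y J J1 := hW.1
  have hWL : W1 y J J1 ≤ L := by linarith [hW.2]
  have hLp : 0 < L := by linarith
  -- the bad sets of the blocks
  have hbad : ∀ j ∈ Ico J J1, ((badB (fun m => T m * Ph (2 ^ j * y) m) N H (H / L ^ (A + 3))).card : ℝ) ≤
      (N / H : ℝ) / L ^ (A + 3) := by
    intro j hj
    rw [mem_Ico] at hj
    have h1 : zz y J ≤ 2 ^ j * y := Nat.mul_le_mul_right _ (Nat.pow_le_pow_right (by norm_num) hj.1)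
    have h2 : 2 ^ j * y ≤ zz y J1 := Nat.mul_le_mul_right _ (Nat.pow_le_pow_right (by norm_num) hj.2.le)
    have h1r : ((zz y J : ℕ) : ℝ) ≤ ((2 ^ j * y : ℕ) : ℝ) := by exact_mod_cast h1
    have h2r : ((2 ^ j * y : ℕ) : ℝ) ≤ ((zz y J1 : ℕ) : ℝ) := by exact_mod_cast h2
    exact hN1 N hNN1 (2 ^ j * y) Q g T (hz1.trans h1r) (h2r.trans hz2) hQ hAdm
  have hsub : (Icc (N / (2 * H)) (4 * N / H)).filter (fun i => ∃ α : ℝ, (H : ℝ) / L ^ A <
        ‖Bs (fun m => (om y J J1 m : ℝ) / 2 * T m - kT * W1 y J J1 / 2 * lamR R m) H i α‖) ⊆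
      (Ico J J1).biUnion (fun j => badB (fun m => T m * Ph (2 ^ j * y) m) N H (H / L ^ (A + 3))) := by
    intro i hi
    rw [mem_filter] at hi
    obtain ⟨hi1, α, hα⟩ := hi
    have hi2 : 1 ≤ i := by
      rw [mem_Icc] at hi1
      have h1 : 1 ≤ N / (2 * H) := (Nat.one_le_div_iff (by omega)).mpr hHN
      omega
    by_contra hcon
    rw [mem_biUnion] at hcon
    push Not at hcon
    have hj : ∀ j ∈ Ico J J1, ‖Bs (fun m => T m * Ph (2 ^ j * y) m) H i α‖ ≤ H / L ^ (A + 3) := by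
      intro j hj
      by_contra h
      exact hcon j hj (mem_filter.mpr ⟨hi1, α, not_le.mp h⟩)
    rw [lfo_split y J J1 hJ T (lamR R) kT H i hH1 hi2 α] at hα
    have h1 : ‖∑ j ∈ Ico J J1, Bs (fun m => T m * Ph (2 ^ j * y) m) H i α‖ ≤
        (2 * L) * (H / L ^ (A + 3)) := by
      refine (norm_sum_le _ _).trans ((Finset.sum_le_sum hj).trans ?_)
      rw [Finset.sum_const, nsmul_eq_mul, Nat.card_Ico]
      exact mul_le_mul_of_nonneg_right hnb (by positivity)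
    have h2 := hB i α hi2
    have h3 : ‖(1 / 2 : ℂ) * ∑ j ∈ Ico J J1, Bs (fun m => T m * Ph (2 ^ j * y) m) H i α +
        ((W1 y J J1 / 2 : ℝ) : ℂ) * Bs (fun m => T m - kT * lamR R m) H i α‖ ≤
        (1 / 2) * ((2 * L) * (H / L ^ (A + 3))) + L / 2 * (H / L ^ (A + 2)) := by
      refine (norm_add_le _ _).trans (add_le_add ?_ ?_)
      · rw [norm_mul]
        have h4 : ‖(1 / 2 : ℂ)‖ = 1 / 2 := by norm_num
        rw [h4]
        exact mul_le_mul_of_nonneg_left h1 (by norm_num)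
      · rw [norm_mul, Complex.norm_real, Real.norm_of_nonneg (by linarith)]
        exact mul_le_mul (by linarith) h2 (norm_nonneg _) (by linarith)
    have h5 : (1 / 2) * ((2 * L) * (H / L ^ (A + 3))) + L / 2 * (H / L ^ (A + 2)) =
        (H : ℝ) / L ^ A * (1 / L ^ 2 + 1 / (2 * L)) := by
      field_simp
      ring
    have h6 : 1 / L ^ 2 + 1 / (2 * L) ≤ 1 := by
      have h7 : 1 / L ^ 2 ≤ 1 / 4 := by
        apply one_div_le_one_div_of_le (by norm_num)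
        nlinarith
      have h8 : 1 / (2 * L) ≤ 1 / 4 := by
        apply one_div_le_one_div_of_le (by norm_num)
        linarith
      linarith
    have h9 : (H : ℝ) / L ^ A * (1 / L ^ 2 + 1 / (2 * L)) ≤ (H : ℝ) / L ^ A * 1 :=
      mul_le_mul_of_nonneg_left h6 (by positivity)
    rw [h5] at h3
    linarith
  refine (Nat.cast_le.mpr ((Finset.card_le_card hsub).trans Finset.card_biUnion_le)).trans ?_
  push_cast
  refine (Finset.sum_le_sum hbad).trans ?_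
  rw [Finset.sum_const, nsmul_eq_mul, Nat.card_Ico]
  have h1 : ((J1 - J : ℕ) : ℝ) * ((N / H : ℝ) / L ^ (A + 3)) ≤ (2 * L) * ((N / H : ℝ) / L ^ (A + 3)) :=
    mul_le_mul_of_nonneg_right hnb (by positivity)
  refine h1.trans ?_
  have h2 : (2 * L) * ((N / H : ℝ) / L ^ (A + 3)) = (N / H : ℝ) / L ^ A * (2 / L ^ 2) := by
    field_simp
    ring
  rw [h2]
  have h3 : 2 / L ^ 2 ≤ 1 := by
    rw [div_le_one (by positivity)]
    nlinarith
  have h4 : (N / H : ℝ) / L ^ A * (2 / L ^ 2) ≤ (N / H : ℝ) / L ^ A * 1 :=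
    mul_le_mul_of_nonneg_left h3 (by positivity)
  linarith

end Pool.Agent.H91.TQ

end

section

/-!
# TI TiS: multiplication by a type I function of small level

`S m = ∑_{n ≤ Q, n ∣ m} g n` for `m ≥ 1`, `|g n| ≤ 3^ω(n) ≤ n^2` (`3 ≤ p^2`): `1[n ∣ m] = (1/n) ∑_{r<n} ee(mr/n)`, so
`Bs (S Phi) H i α = ∑_{n ≤ Q} (g n/n) ∑_{r<n} Bs Phi H i (α - r/n)`, `‖..‖ ≤ ∑_{n ≤ Q} n^2 B ≤ Q³ B`.
-/

set_option autoImplicit false

namespace Pool.Agent.H56.TI

open Finset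
open Pool.Agent.H91.PK (ee)
open Pool.Agent.H35.W (pb)
open Pool.Agent.H53.MID (Bs)

private theorem TiS_add (s t : ℝ) : ee (s + t) = ee s * ee t := by
  unfold ee
  rw [← Complex.exp_add]
  congr 1
  push_cast
  ring

private theorem TiS_pow (s : ℝ) (r : ℕ) : ee (s * r) = ee s ^ r := by
  unfold ee
  rw [← Complex.exp_nat_mul]
  congr 1
  push_cast
  ring

private theorem TiS_one_iff {n m : ℕ} (hn : 1 ≤ n) : ee ((m : ℝ) / n) = 1 ↔ n ∣ m := by
  have hn0 : (n : ℂ) ≠ 0 := by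
    have : n ≠ 0 := by omega
    exact_mod_cast this
  have hpi : (2 * (Real.pi : ℂ) * Complex.I) ≠ 0 := by
    simp [Real.pi_ne_zero]
  unfold ee
  rw [Complex.exp_eq_one_iff]
  constructor
  · rintro ⟨z, hz⟩
    have h1 : (2 * (Real.pi : ℂ) * Complex.I) * ((m : ℂ) / n) =
        (2 * (Real.pi : ℂ) * Complex.I) * z := by
      have h2 : 2 * (Real.pi : ℂ) * (((m : ℝ) / n : ℝ) : ℂ) * Complex.I =
          z * (2 * (Real.pi : ℂ) * Complex.I) := hz
      push_cast at h2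
      linear_combination h2
    have h2 := mul_left_cancel₀ hpi h1
    rw [div_eq_iff hn0] at h2
    have h3 : (m : ℤ) = z * n := by exact_mod_cast h2
    have h4 : (n : ℤ) ∣ (m : ℤ) := ⟨z, by rw [h3, mul_comm]⟩
    exact_mod_cast h4
  · rintro ⟨k, rfl⟩
    refine ⟨k, ?_⟩
    push_cast
    field_simp

private theorem TiS_orth {n : ℕ} (hn : 1 ≤ n) (m : ℕ) :
    (if n ∣ m then (1 : ℂ) else 0) = (1 / (n : ℂ)) * ∑ r ∈ range n, ee ((m : ℝ) * (r / n)) := by
  have hn0 : (n : ℂ) ≠ 0 := by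
    have : n ≠ 0 := by omega
    exact_mod_cast this
  have h1 : ∀ r ∈ range n, ee ((m : ℝ) * (r / n)) = ee ((m : ℝ) / n) ^ r := by
    intro r _
    rw [← TiS_pow]
    congr 1
    ring
  rw [sum_congr rfl h1]
  by_cases h : n ∣ m
  · rw [if_pos h, (TiS_one_iff hn).2 h]
    simp only [one_pow, sum_const, card_range, nsmul_eq_mul, mul_one]
    field_simp
  · rw [if_neg h]
    have h2 : ee ((m : ℝ) / n) ≠ 1 := fun h' => h ((TiS_one_iff hn).1 h')
    have h3 : ee ((m : ℝ) / n) ^ n = 1 := by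
      rw [← TiS_pow]
      have hn' : (n : ℝ) ≠ 0 := by
        have : n ≠ 0 := by omega
        exact_mod_cast this
      rw [div_mul_cancel₀ _ hn']
      have h4 := (TiS_one_iff (n := 1) (m := m) le_rfl).2 (one_dvd m)
      rwa [Nat.cast_one, div_one] at h4
    rw [geom_sum_eq h2, h3, sub_self, zero_div, mul_zero]

private theorem TiS_three (n : ℕ) (hn : 1 ≤ n) : (3 : ℝ) ^ n.primeFactors.card ≤ (n : ℝ) ^ 2 := by
  have h1 : 3 ^ n.primeFactors.card ≤ ∏ p ∈ n.primeFactors, p ^ 2 := by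
    rw [← prod_const]
    refine prod_le_prod' fun p hp => ?_
    have h2 := (Nat.prime_of_mem_primeFactors hp).two_le
    nlinarith
  have h2 : ∏ p ∈ n.primeFactors, p ^ 2 = (∏ p ∈ n.primeFactors, p) ^ 2 := prod_pow _ _ _
  have h3 : ∏ p ∈ n.primeFactors, p ≤ n := Nat.le_of_dvd (by omega) (Nat.prod_primeFactors_dvd n)
  have h4 : 3 ^ n.primeFactors.card ≤ n ^ 2 := by
    rw [h2] at h1
    exact h1.trans (Nat.pow_le_pow_left h3 2)
  exact_mod_cast h4

theorem ti_S (P Q H i : ℕ) (w g S : ℕ → ℝ) (B : ℝ) (hg : ∀ n, |g n| ≤ 3 ^ n.primeFactors.card)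
    (hS : ∀ m, 1 ≤ m → S m = ∑ n ∈ (Icc 1 Q).filter (fun n => n ∣ m), g n) (hi : 1 ≤ i)
    (hB : ∀ α : ℝ, ‖Bs (Phi P w) H i α‖ ≤ B) (α : ℝ) :
    ‖Bs (fun m => S m * Phi P w m) H i α‖ ≤ (Q : ℝ) ^ 3 * B := by
  have hB0 : 0 ≤ B := (norm_nonneg _).trans (hB 0)
  have key : Bs (fun m => S m * Phi P w m) H i α =
      ∑ n ∈ Icc 1 Q, (g n : ℂ) * ((1 / (n : ℂ)) *
        ∑ r ∈ range n, Bs (Phi P w) H i (α - r / n)) := by
    unfold Bs
    have h1 : ∀ n ∈ Icc 1 Q, (g n : ℂ) * ((1 / (n : ℂ)) * ∑ r ∈ range n,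
        ∑ m ∈ Ico (i * H) ((i + 1) * H), (Phi P w m : ℂ) * ee (-(m * (α - r / n)))) =
        ∑ m ∈ Ico (i * H) ((i + 1) * H), (if n ∣ m then (g n : ℂ) else 0) *
          ((Phi P w m : ℂ) * ee (-(m * α))) := by
      intro n hn
      rw [sum_comm, mul_sum, mul_sum]
      refine sum_congr rfl fun m _ => ?_
      have h2 := TiS_orth (mem_Icc.1 hn).1 m
      have h3 : ∀ r ∈ range n, (Phi P w m : ℂ) * ee (-(m * (α - r / n))) =
          ((Phi P w m : ℂ) * ee (-(m * α))) * ee ((m : ℝ) * (r / n)) := by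
        intro r _
        rw [mul_assoc, ← TiS_add]
        congr 2
        ring
      rw [sum_congr rfl h3, ← mul_sum]
      have h4 : (if n ∣ m then (g n : ℂ) else 0) = (g n : ℂ) * (if n ∣ m then (1 : ℂ) else 0) := by
        split_ifs
        · rw [mul_one]
        · rw [mul_zero]
      rw [h4, h2]
      ring
    rw [sum_congr rfl h1, sum_comm]
    refine sum_congr rfl fun m hm => ?_
    have hm1 : 1 ≤ m := by
      rw [mem_Ico] at hm
      rcases Nat.eq_zero_or_pos H with h0 | h0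
      · rw [h0, mul_zero, mul_zero] at hm
        omega
      · have : 1 ≤ i * H := Nat.mul_pos hi h0
        omega
    rw [← sum_mul, ← sum_filter]
    push_cast
    rw [hS m hm1]
    push_cast
    ring
  rw [key]
  have hQ : ∑ _n ∈ Icc 1 Q, (Q : ℝ) ^ 2 * B = (Q : ℝ) ^ 3 * B := by
    rw [sum_const, Nat.card_Icc, nsmul_eq_mul]
    simp only [Nat.add_sub_cancel]
    ring
  rw [← hQ]
  refine norm_sum_le_of_le _ fun n hn => ?_
  obtain ⟨hn1, hnQ⟩ := mem_Icc.1 hn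
  have hn0 : (0 : ℝ) < n := by exact_mod_cast hn1
  rw [norm_mul, norm_mul, norm_div, norm_one, Complex.norm_natCast, Complex.norm_real,
    Real.norm_eq_abs]
  have h1 : ‖∑ r ∈ range n, Bs (Phi P w) H i (α - r / n)‖ ≤ n * B := by
    have h4 : ‖∑ r ∈ range n, Bs (Phi P w) H i (α - r / n)‖ ≤ ∑ _r ∈ range n, B :=
      norm_sum_le_of_le _ fun r _ => hB (α - (r : ℝ) / n)
    rwa [sum_const, card_range, nsmul_eq_mul] at h4
  have h2 : 1 / (n : ℝ) * ‖∑ r ∈ range n, Bs (Phi P w) H i (α - r / n)‖ ≤ B := by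
    rw [div_mul_eq_mul_div, one_mul, div_le_iff₀ hn0, mul_comm]
    exact h1
  have h3 : |g n| ≤ (Q : ℝ) ^ 2 :=
    ((hg n).trans (TiS_three n hn1)).trans (pow_le_pow_left₀ hn0.le (by exact_mod_cast hnQ) 2)
  exact mul_le_mul h3 h2 (by positivity) (by positivity)

end Pool.Agent.H56.TI

end
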