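import Pool.Agent.H43.PJ.M11
import Pool.Agent.H43.PJ.M44

/-! The parts of this file: H53.TPS.TopT, H56.TI.Cnt. -/

section

/-!
# TPS TopT: `Pool.Agent.H53.MID.top` with weaker conditions on `P^J`

The statement and the proof are those of `top` (file `H53/MID/Top.lean`, complete; copy and adapt) with the four hypotheses `n P ≤ P^J`, `P^J ≤ n P^2`, `D' ≤ ρ P`, `D' η P^2 ≤ ρ` replaced by the two that are really used:
`D' n ≤ ρ P^J` (the fibre over some `i` has `m ≥ ρ P^J/(D n) ≥ D'/D` elements: large) and `D' η P^J ≤ ρ n` (`τ X ≤ D η · 2 D^2 P^J/n ≤ ` small multiple of `ρ`).  Proof of `top` with `X0 = P^J/n`: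
(1) at most `D n` indices `i`, so some fibre `Φ = {Π : (Π, i) ∈ S}` has `m ≥ ρ X0/D` elements, in an interval of length `≤ X := 2 D^2 X0`.  Two elements of `Φ` differ by `d`, `1 ≤ d ≤ X/(m-1) ≤ 4 D^3/ρ`; any two satisfy `nz ((Π - Π') w) ≤ 2 τ`, `τ = D η`:
`d w = a0 + e`, `|e| ≤ 2 τ`.  (2) `Δ = Π_max - Π_min ≥ m - 1 ≥ m/2`, `Δ ≤ X`: `nz (Δ a0/d) ≤ 2τ + 2τX < 1/d`, so `Δ a0/d ∈ ℤ`, `|Δ e/d| ≤ 2 τ`; `θ = e/d`, `w = a0/d + θ`, `|θ| ≤ 4 τ/m ≤ 4 τ D n/(ρ P^J)`.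
(3) `T = θ K P^J`: `|T| ≤ 4 D^3 η n^2/ρ`.  (4) `F* = {i : ∃ Π, (Π,i) ∈ S}`: fibres `≤ X + 1 ≤ 2 X` (`X ≥ 1`), so `|F*| ≥ ρ n/(4 D^2)`; for `i ∈ F*` choose `Π_i`: `nz (α i - Π_i a0/d - T/i) ≤ τ + 4 D^3 τ/ρ ≤ 5 D^4 η/ρ`.  (5) Pigeonhole on `Π_i a0 mod d`.
-/

set_option autoImplicit false

namespace Pool.Agent.H53.TPS

open Finset
open Pool.Agent.H53.MID

private theorem TopT_gap (A : Finset ℕ) (hA : 2 ≤ A.card) : ∃ u ∈ A, ∃ v ∈ A, ∃ x ∈ A, ∃ y ∈ A,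
    u ≤ v ∧ x < y ∧ (y - x) * (A.card - 1) ≤ v - u ∧ A.card ≤ v - u + 1 := by
  have hne : A.Nonempty := Finset.card_pos.mp (by omega)
  set u := A.min' hne with hu
  set v := A.max' hne with hv
  have hu1 : ∀ z ∈ A, u ≤ z := fun z hz => A.min'_le z hz
  have hv1 : ∀ z ∈ A, z ≤ v := fun z hz => A.le_max' z hz
  have huA : u ∈ A := A.min'_mem hne
  have hvA : v ∈ A := A.max'_mem hne
  have huv : u ≤ v := hu1 v hvA
  have hcard : A.card ≤ v - u + 1 := by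
    have hsub : A ⊆ Finset.Icc u v := fun z hz => Finset.mem_Icc.mpr ⟨hu1 z hz, hv1 z hz⟩
    have := Finset.card_le_card hsub
    rw [Nat.card_Icc] at this
    omega
  set L := (v - u) / (A.card - 1) + 1 with hL
  have hLpos : 0 < L := Nat.succ_pos _
  have hmaps : Set.MapsTo (fun z : ℕ => (z - u) / L) (A : Set ℕ) (Finset.range (A.card - 1) : Set ℕ) := by
    intro z hz
    have hz' : z ∈ A := hz
    simp only [Finset.coe_range, Set.mem_Iio]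
    rw [Nat.div_lt_iff_lt_mul hLpos]
    have h1 : z - u ≤ v - u := Nat.sub_le_sub_right (hv1 z hz') u
    have h2 : v - u < (A.card - 1) * L := Nat.lt_mul_div_succ _ (by omega)
    exact lt_of_le_of_lt h1 h2
  obtain ⟨x, hx, y, hy, hxy, hf⟩ := Finset.exists_ne_map_eq_of_card_lt_of_maps_to
    (by rw [Finset.card_range]; omega) hmaps
  have key : ∀ x ∈ A, ∀ y ∈ A, x < y → (x - u) / L = (y - u) / L →
      (y - x) * (A.card - 1) ≤ v - u := by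
    intro x hx y hy hxy hf
    have h1 : y - x < L := by
      have e1 := Nat.div_add_mod (x - u) L
      have e2 := Nat.div_add_mod (y - u) L
      have e3 := Nat.mod_lt (y - u) hLpos
      rw [hf] at e1
      have e4 := hu1 x hx
      have e5 := hu1 y hy
      omega
    have h2 : y - x ≤ (v - u) / (A.card - 1) := by omega
    exact (Nat.mul_le_mul_right _ h2).trans (Nat.div_mul_le_self _ _)
  rcases lt_or_gt_of_ne hxy with h | h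
  · exact ⟨u, huA, v, hvA, x, hx, y, hy, huv, h, key x hx y hy h hf, hcard⟩
  · exact ⟨u, huA, v, hvA, y, hy, x, hx, huv, h, key y hy x hx h hf.symm, hcard⟩

/-- the elements of a set of naturals with bounded differences -/
private theorem TopT_card (A : Finset ℕ) (X : ℝ) (hX : 0 ≤ X)
    (h : ∀ x ∈ A, ∀ y ∈ A, (y : ℝ) - x ≤ X) : (A.card : ℝ) ≤ X + 1 := by
  rcases A.eq_empty_or_nonempty with rfl | hne
  · simp only [Finset.card_empty, Nat.cast_zero]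
    linarith only [hX]
  · have hsub : A ⊆ Finset.Icc (A.min' hne) (A.max' hne) := fun z hz =>
      Finset.mem_Icc.mpr ⟨A.min'_le z hz, A.le_max' z hz⟩
    have h1 := Finset.card_le_card hsub
    rw [Nat.card_Icc] at h1
    have h2 := h _ (A.min'_mem hne) _ (A.max'_mem hne)
    have h3 : A.min' hne ≤ A.max' hne := A.min'_le _ (A.max'_mem hne)
    have h4 : A.card + A.min' hne ≤ A.max' hne + 1 := by omega
    have h5 : (A.card : ℝ) + (A.min' hne : ℕ) ≤ (A.max' hne : ℕ) + 1 := by exact_mod_cast h4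
    linarith only [hne, h2, h5]

/-- the fibres of the second coordinate -/
private def TopT_fib (S : Finset (ℕ × ℕ)) (i : ℕ) : Finset ℕ :=
  (S.filter fun t => t.2 = i).image Prod.fst

private theorem TopT_mem_fib {S : Finset (ℕ × ℕ)} {i x : ℕ} : x ∈ TopT_fib S i ↔ (x, i) ∈ S := by
  unfold TopT_fib
  simp only [Finset.mem_image, Finset.mem_filter]
  constructor
  · rintro ⟨⟨a, b⟩, ⟨h1, h2⟩, h3⟩
    simp only at h2 h3
    rw [← h3, ← h2]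
    exact h1
  · intro h
    exact ⟨(x, i), ⟨h, rfl⟩, rfl⟩

private theorem TopT_card_fib (S : Finset (ℕ × ℕ)) (i : ℕ) :
    (TopT_fib S i).card = (S.filter fun t => t.2 = i).card := by
  unfold TopT_fib
  apply Finset.card_image_of_injOn
  rintro ⟨a, b⟩ h1 ⟨c, e⟩ h2 h3
  simp only [Finset.coe_filter, Set.mem_ofPred_eq] at h1 h2
  simp only at h3
  rw [h3, h1.2, h2.2]

private theorem TopT_sum (S : Finset (ℕ × ℕ)) (F : Finset ℕ) (h : ∀ t ∈ S, t.2 ∈ F) :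
    S.card = ∑ i ∈ F, (TopT_fib S i).card := by
  rw [Finset.card_eq_sum_card_fiberwise (f := Prod.snd) (t := F) h]
  exact Finset.sum_congr rfl fun i _ => (TopT_card_fib S i).symm

private theorem TopT_pig (s t : Finset ℕ) (f : ℕ → ℕ) (hf : ∀ x ∈ s, f x ∈ t) (ht : t.Nonempty) :
    ∃ y ∈ t, s.card ≤ t.card * (s.filter fun x => f x = y).card := by
  by_contra hcon
  push Not at hcon
  have h1 : ∑ y ∈ t, t.card * (s.filter fun x => f x = y).card < ∑ _y ∈ t, s.card :=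
    Finset.sum_lt_sum_of_nonempty ht hcon
  rw [← Finset.mul_sum, ← Finset.card_eq_sum_card_fiberwise hf, Finset.sum_const, smul_eq_mul] at h1
  exact lt_irrefl _ h1

theorem top_t (D : ℝ) (hD : 1 ≤ D) : ∃ D' : ℝ, 1 ≤ D' ∧ ∀ (n P J K : ℕ) (ρ η w : ℝ) (F0 : Finset ℕ) (α : ℕ → ℝ)
    (S : Finset (ℕ × ℕ)), 1 ≤ n → 1 ≤ P → 0 < ρ → ρ ≤ 1 → 0 ≤ η →
    (∀ i ∈ F0, (n : ℝ) / D ≤ i ∧ (i : ℝ) ≤ D * n) → (n : ℝ) / D ≤ K → (K : ℝ) ≤ D * n → D' * n ≤ ρ * (P : ℝ) ^ J →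
    D' * η * (P : ℝ) ^ J ≤ ρ * n → Desc P J D (D * η) F0 α K w S → ρ * (P : ℝ) ^ J ≤ S.card →
    ∃ (d : ℕ) (b : ℕ) (T : ℝ) (F1 : Finset ℕ), 1 ≤ d ∧ d * ρ ≤ D' ∧ |T| * ρ ≤ D' * η * (n : ℝ) ^ 2 ∧ F1 ⊆ F0 ∧
      ρ ^ 2 * n ≤ D' * F1.card ∧ ∀ i ∈ F1, nz (α i - b / d - T / i) * ρ ≤ D' * η := by
  have hD0 : 0 < D := by linarith
  have hp1 : ∀ k : ℕ, 1 ≤ D ^ k := fun k => one_le_pow₀ hD
  refine ⟨48 * D ^ 6, by linarith [hp1 6], ?_⟩
  intro n P J K ρ η w F0 α S hn hP hρ hρ1 hη hF0 hK1 hK2 hPρ hηρ hS hcard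
  have hn1 : (1 : ℝ) ≤ n := by exact_mod_cast hn
  have hn0 : (0 : ℝ) < n := by linarith only [hn1]
  have hP1 : (1 : ℝ) ≤ P := by exact_mod_cast hP
  have hP0 : (0 : ℝ) < P := by linarith
  set Q : ℝ := (P : ℝ) ^ J with hQ
  have hQ0 : 0 < Q := by positivity
  set X : ℝ := 2 * D ^ 2 * Q / n with hX
  have hX0 : 0 < X := by positivity
  have hXn : X * n = 2 * D ^ 2 * Q := by rw [hX]; field_simp
  have hnQ : (n : ℝ) ≤ Q := by
    have h1 : 48 * 1 * (n : ℝ) ≤ 48 * D ^ 6 * n := by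
      have := mul_le_mul_of_nonneg_right (hp1 6) hn0.le
      linarith only [this]
    have h2 : ρ * Q ≤ 1 * Q := mul_le_mul_of_nonneg_right hρ1 hQ0.le
    linarith
  have hX2 : 2 ≤ X := by
    rw [hX, le_div_iff₀ hn0]
    have h2 : 1 * Q ≤ D ^ 2 * Q := mul_le_mul_of_nonneg_right (hp1 2) hQ0.le
    linarith only [hnQ, h2]
  have hi0 : ∀ i ∈ F0, (0 : ℝ) < i := fun i hi => lt_of_lt_of_le (by positivity) (hF0 i hi).1
  have hiD : ∀ i ∈ F0, (n : ℝ) ≤ D * i := by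
    intro i hi
    have := (hF0 i hi).1
    rw [div_le_iff₀ hD0] at this
    linarith only [this]
  -- the fibres are short
  have hfib : ∀ i ∈ F0, ∀ x ∈ TopT_fib S i, ∀ y ∈ TopT_fib S i, (y : ℝ) - x ≤ X := by
    intro i hi x hx y hy
    rw [TopT_mem_fib] at hx hy
    have h1 := hS.pos _ hx
    have h2 := hS.pos _ hy
    simp only [abs_le] at h1 h2
    rw [← hQ] at h1 h2
    have h3 : (i : ℝ) * ((y : ℝ) - x) ≤ 2 * (D * Q) := by linarith only [h1, h2, h1.1, h2.2]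
    rcases le_or_gt ((y : ℝ) - x) 0 with h4 | h4
    · linarith only [hX2, h4]
    · have h5 : (n : ℝ) * ((y : ℝ) - x) ≤ D * (i * ((y : ℝ) - x)) := by
        rw [← mul_assoc]
        exact mul_le_mul_of_nonneg_right (hiD i hi) h4.le
      have h6 : (n : ℝ) * ((y : ℝ) - x) ≤ n * X := by
        have h7 : D * ((i : ℝ) * ((y : ℝ) - x)) ≤ D * (2 * (D * Q)) :=
          mul_le_mul_of_nonneg_left h3 hD0.le
        calc (n : ℝ) * ((y : ℝ) - x) ≤ D * (2 * (D * Q)) := h5.trans h7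
          _ = n * X := by rw [mul_comm (n : ℝ) X, hXn]; ring
      exact le_of_mul_le_mul_left h6 hn0
  have hScard0 : (0 : ℝ) < S.card := lt_of_lt_of_le (by positivity) hcard
  have hSne : S.Nonempty := by
    rw [← Finset.card_pos]
    exact_mod_cast hScard0
  have hF0ne : F0.Nonempty := by
    obtain ⟨t, ht⟩ := hSne
    exact ⟨_, hS.mem t ht⟩
  have hF0card : (F0.card : ℝ) ≤ D * n := by
    have hsub : F0 ⊆ Finset.Icc 1 ⌊D * n⌋₊ := by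
      intro i hi
      rw [Finset.mem_Icc]
      refine ⟨?_, Nat.le_floor (hF0 i hi).2⟩
      have := hi0 i hi
      exact_mod_cast this
    have h1 := Finset.card_le_card hsub
    rw [Nat.card_Icc, Nat.add_sub_cancel] at h1
    exact (Nat.cast_le.mpr h1).trans (Nat.floor_le (by positivity))
  -- (1) a large fibre
  obtain ⟨i0, hi0F, hbig⟩ : ∃ i ∈ F0, ρ * Q ≤ D * n * (TopT_fib S i).card := by
    by_contra hcon
    push Not at hcon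
    have h1 : ∑ i ∈ F0, D * n * ((TopT_fib S i).card : ℝ) < ∑ _i ∈ F0, ρ * Q :=
      Finset.sum_lt_sum_of_nonempty hF0ne hcon
    have h2 : (S.card : ℝ) = ∑ i ∈ F0, ((TopT_fib S i).card : ℝ) := by
      rw [TopT_sum S F0 hS.mem]
      push_cast
      rfl
    rw [← Finset.mul_sum, ← h2, Finset.sum_const, nsmul_eq_mul] at h1
    have h3 : (F0.card : ℝ) * (ρ * Q) ≤ D * n * (ρ * Q) :=
      mul_le_mul_of_nonneg_right hF0card (by positivity)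
    have h4 : D * n * (ρ * Q) ≤ D * n * S.card := mul_le_mul_of_nonneg_left hcard (by positivity)
    linarith only [h1, h3, h4]
  set A := TopT_fib S i0 with hA
  set m : ℝ := (A.card : ℝ) with hm
  have hm48 : 48 ≤ m := by
    have h2 : n * (48 * D ^ 6) ≤ n * (D * m) := by linarith
    have h3 : 48 * D ^ 6 ≤ D * m := le_of_mul_le_mul_left h2 hn0
    have h4 : D * 48 ≤ D * m := by
      have h5 : D ≤ D ^ 6 := le_self_pow₀ hD (by norm_num)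
      linarith only [h3, h5]
    exact le_of_mul_le_mul_left h4 hD0
  have hA2 : 2 ≤ A.card := by
    have : (2 : ℝ) ≤ A.card := by linarith
    exact_mod_cast this
  obtain ⟨u, hu, v, hv, x, hx, y, hy, huv, hxy, hgap, hcm⟩ := TopT_gap A hA2
  set d : ℕ := y - x with hd
  have hd1 : 1 ≤ d := by omega
  have hd1r : (1 : ℝ) ≤ d := by exact_mod_cast hd1
  have hd0r : (0 : ℝ) < d := by linarith only [hd1r]
  have hdr : (d : ℝ) = y - x := by rw [hd, Nat.cast_sub hxy.le]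
  set Δ : ℕ := v - u with hΔ
  have hΔr : (Δ : ℝ) = v - u := by rw [hΔ, Nat.cast_sub huv]
  have hΔX : (Δ : ℝ) ≤ X := by rw [hΔr]; exact hfib i0 hi0F u hu v hv
  have hgapr : (d : ℝ) * (m - 1) ≤ Δ := by
    have h1 : ((d * (A.card - 1) : ℕ) : ℝ) ≤ (Δ : ℕ) := Nat.cast_le.mpr hgap
    rw [Nat.cast_mul, Nat.cast_sub (show 1 ≤ A.card by omega), Nat.cast_one] at h1
    exact h1
  have hcmr : m ≤ Δ + 1 := by
    have : (A.card : ℝ) ≤ ((Δ + 1 : ℕ) : ℝ) := Nat.cast_le.mpr hcm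
    rw [Nat.cast_add, Nat.cast_one] at this
    exact this
  have hdm : (d : ℝ) * m ≤ 2 * X := by nlinarith only [hm48, hΔX, hgapr, hcmr]
  have hdρ : (d : ℝ) * ρ ≤ 4 * D ^ 3 := by
    have h1 : (d : ℝ) * (ρ * Q) ≤ d * (D * n * m) := mul_le_mul_of_nonneg_left hbig hd0r.le
    have h2 : (d : ℝ) * (D * n * m) ≤ (D * n) * (2 * X) := by
      have : (d : ℝ) * (D * n * m) = (D * n) * (d * m) := by ring
      rw [this]
      exact mul_le_mul_of_nonneg_left hdm (by positivity)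
    have h3 : (D * n) * (2 * X) = (4 * D ^ 3) * Q := by
      calc (D * n) * (2 * X) = 2 * D * (X * n) := by ring
        _ = (4 * D ^ 3) * Q := by rw [hXn]; ring
    have h4 : (d * ρ) * Q ≤ (4 * D ^ 3) * Q := by
      calc (d * ρ) * Q = d * (ρ * Q) := by ring
        _ ≤ _ := h1.trans (h2.trans h3.le)
    exact le_of_mul_le_mul_right h4 hQ0
  have hnzd : ∀ x ∈ A, ∀ y ∈ A, nz (((y : ℝ) - x) * w) ≤ 2 * (D * η) := by
    intro x hx y hy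
    rw [hA, TopT_mem_fib] at hx hy
    have h1 := hS.freq _ hx
    have h2 := hS.freq _ hy
    simp only at h1 h2
    have h3 : ((y : ℝ) - x) * w = (y * w - α i0) - (x * w - α i0) := by ring
    rw [h3]
    exact (nz_sub _ _).trans (by linarith only [h1, h2])
  obtain ⟨a0, ha0⟩ := nz_exists ((d : ℝ) * w)
  have he : |(d : ℝ) * w - a0| ≤ 2 * (D * η) := by
    rw [ha0, hdr]
    exact hnzd x hx y hy
  set θ : ℝ := ((d : ℝ) * w - a0) / d with hθ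
  have hw : w = a0 / d + θ := by
    rw [hθ]
    field_simp
    ring
  have hθ1 : |θ| ≤ 2 * (D * η) := by
    rw [hθ, abs_div, abs_of_pos hd0r, div_le_iff₀ hd0r]
    have : 2 * (D * η) * 1 ≤ 2 * (D * η) * d := mul_le_mul_of_nonneg_left hd1r (by positivity)
    linarith only [he, this]
  have hΔ0 : (0 : ℝ) ≤ Δ := Nat.cast_nonneg _
  set y2 : ℝ := η * Q / n with hy2
  have hy20 : 0 ≤ y2 := by positivity
  have hy2n : y2 * n = η * Q := by rw [hy2]; field_simp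
  have hτX : 2 * (D * η) * X ≤ 4 * D ^ 3 * y2 := by
    have h1 : n * (2 * (D * η) * X) ≤ n * (4 * D ^ 3 * y2) := by
      have h2 : n * (2 * (D * η) * X) = 2 * (D * η) * (X * n) := by ring
      have h3 : n * (4 * D ^ 3 * y2) = 4 * D ^ 3 * (y2 * n) := by ring
      rw [h2, h3, hXn, hy2n]
      apply le_of_eq
      ring
    exact le_of_mul_le_mul_left h1 hn0
  have hΔθ : |(Δ : ℝ) * θ| ≤ 4 * D ^ 3 * y2 := by
    rw [abs_mul, abs_of_nonneg hΔ0]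
    calc (Δ : ℝ) * |θ| ≤ X * (2 * (D * η)) := by
          apply mul_le_mul hΔX hθ1 (abs_nonneg _) hX0.le
      _ = 2 * (D * η) * X := by ring
      _ ≤ _ := hτX
  have hηy : η ≤ y2 := by
    rw [hy2, le_div_iff₀ hn0]
    exact mul_le_mul_of_nonneg_left hnQ hη
  have hηρ' : 48 * D ^ 6 * y2 ≤ ρ := by
    have h1 : n * (48 * D ^ 6 * y2) ≤ n * ρ := by
      have h2 : n * (48 * D ^ 6 * y2) = 48 * D ^ 6 * (y2 * n) := by ring
      rw [h2, hy2n]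
      linarith only [hηρ]
    exact le_of_mul_le_mul_left h1 hn0
  have hΔw : nz ((Δ : ℝ) * w) ≤ 2 * (D * η) := by
    rw [hΔr]
    exact hnzd u hu v hv
  have hΔw2 : (Δ : ℝ) * w = ((Δ * a0 : ℤ) : ℝ) / d + Δ * θ := by
    push_cast
    nth_rewrite 1 [hw]
    ring
  have hdvd : (d : ℤ) ∣ (Δ * a0 : ℤ) := by
    by_contra hnd
    have h1 := nz_frac_ge (Δ * a0 : ℤ) d (by omega) hnd
    have h2 : nz (((Δ * a0 : ℤ) : ℝ) / d) ≤ 2 * (D * η) + 4 * D ^ 3 * y2 := by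
      have h3 : ((Δ * a0 : ℤ) : ℝ) / d = (Δ : ℝ) * w - Δ * θ := by rw [hΔw2]; ring
      rw [h3]
      exact (nz_sub _ _).trans (add_le_add hΔw ((nz_le_abs _).trans hΔθ))
    have h4 : 1 / (d : ℝ) ≤ 6 * D ^ 3 * y2 := by
      have h5 : D * η ≤ D ^ 3 * y2 := by
        apply mul_le_mul (le_self_pow₀ hD (by norm_num)) hηy hη (by positivity)
      linarith only [h1, h2, h5]
    have h6 : ρ ≤ 4 * D ^ 3 * (1 / (d : ℝ)) := by
      rw [mul_one_div, le_div_iff₀ hd0r]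
      linarith only [hdρ]
    have h7 : 4 * D ^ 3 * (1 / (d : ℝ)) ≤ 4 * D ^ 3 * (6 * D ^ 3 * y2) :=
      mul_le_mul_of_nonneg_left h4 (by positivity)
    have h8 : 4 * D ^ 3 * (6 * D ^ 3 * y2) = (48 * D ^ 6 * y2) / 2 := by ring
    linarith only [hρ, hηρ', h6, h7]
  obtain ⟨q, hq⟩ := hdvd
  have hΔθ2 : |(Δ : ℝ) * θ| ≤ 2 * (D * η) := by
    have h1 : (Δ : ℝ) * w = Δ * θ + (q : ℤ) := by
      rw [hΔw2, hq]
      push_cast
      field_simp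
      ring
    rw [h1, nz_add_int] at hΔw
    rw [← nz_eq_abs]
    · exact hΔw
    · have h2 : D ^ 3 * y2 ≤ D ^ 6 * y2 :=
        mul_le_mul_of_nonneg_right (pow_le_pow_right₀ hD (by norm_num)) hy20
      linarith only [hρ1, hΔθ, hηρ', h2]
  have hθm : |θ| * m ≤ 4 * (D * η) := by
    rw [abs_mul, abs_of_nonneg hΔ0] at hΔθ2
    have h1 : m ≤ 2 * Δ := by linarith only [hm48, hcmr]
    have h2 : |θ| * m ≤ |θ| * (2 * Δ) := mul_le_mul_of_nonneg_left h1 (abs_nonneg _)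
    linarith only [hΔθ2, h2]
  have hθQ : |θ| * (ρ * Q) ≤ 4 * D ^ 2 * η * n := by
    have h1 : |θ| * (ρ * Q) ≤ |θ| * (D * n * m) := mul_le_mul_of_nonneg_left hbig (abs_nonneg _)
    have h2 : |θ| * (D * n * m) = (D * n) * (|θ| * m) := by ring
    have h3 : (D * n) * (|θ| * m) ≤ (D * n) * (4 * (D * η)) :=
      mul_le_mul_of_nonneg_left hθm (by positivity)
    calc |θ| * (ρ * Q) ≤ (D * n) * (4 * (D * η)) := h1.trans (h2.le.trans h3)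
      _ = 4 * D ^ 2 * η * n := by ring
  -- (4) the indices with a descendant
  set Fs := S.image Prod.snd with hFs
  have hFsF : Fs ⊆ F0 := by
    intro i hi
    rw [hFs, Finset.mem_image] at hi
    obtain ⟨t, ht, rfl⟩ := hi
    exact hS.mem t ht
  have hFsc : ρ * n ≤ 4 * D ^ 2 * Fs.card := by
    have h1 : (S.card : ℝ) = ∑ i ∈ Fs, ((TopT_fib S i).card : ℝ) := by
      rw [TopT_sum S Fs (fun t ht => Finset.mem_image_of_mem _ ht)]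
      push_cast
      rfl
    have h2 : ∑ i ∈ Fs, ((TopT_fib S i).card : ℝ) ≤ ∑ _i ∈ Fs, 2 * X := by
      apply Finset.sum_le_sum
      intro i hi
      have := TopT_card (TopT_fib S i) X hX0.le (hfib i (hFsF hi))
      linarith only [hm48, hΔX, hcmr, this]
    rw [Finset.sum_const, nsmul_eq_mul] at h2
    have h3 : ρ * Q ≤ Fs.card * (2 * X) := hcard.trans (h1.le.trans h2)
    have h4 : (ρ * n) * Q ≤ (4 * D ^ 2 * Fs.card) * Q := by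
      calc (ρ * n) * Q = n * (ρ * Q) := by ring
        _ ≤ n * (Fs.card * (2 * X)) := mul_le_mul_of_nonneg_left h3 hn0.le
        _ = 2 * Fs.card * (X * n) := by ring
        _ = (4 * D ^ 2 * Fs.card) * Q := by rw [hXn]; ring
    exact le_of_mul_le_mul_right h4 hQ0
  have hex : ∀ i ∈ Fs, ∃ x : ℕ, (x, i) ∈ S := by
    intro i hi
    rw [hFs, Finset.mem_image] at hi
    obtain ⟨⟨x, i'⟩, ht, rfl⟩ := hi
    exact ⟨x, ht⟩
  choose! g hg using hex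
  set f : ℕ → ℕ := fun i => (((g i : ℤ) * a0) % (d : ℤ)).toNat with hf
  have hdz : (0 : ℤ) < d := by exact_mod_cast hd1
  have hmaps : ∀ i ∈ Fs, f i ∈ Finset.range d := by
    intro i _
    rw [Finset.mem_range, hf]
    have h1 := Int.emod_nonneg ((g i : ℤ) * a0) hdz.ne'
    have h2 := Int.emod_lt_of_pos ((g i : ℤ) * a0) hdz
    simp only
    omega
  obtain ⟨b, -, hb⟩ := TopT_pig Fs (Finset.range d) f hmaps ⟨0, Finset.mem_range.mpr hd1⟩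
  rw [Finset.card_range] at hb
  have hbr : (Fs.card : ℝ) ≤ d * (Fs.filter fun i => f i = b).card := by exact_mod_cast hb
  refine ⟨d, b, θ * K * Q, Fs.filter fun i => f i = b, hd1, ?_, ?_, ?_, ?_, ?_⟩
  · have : D ^ 3 ≤ D ^ 6 := pow_le_pow_right₀ hD (by norm_num)
    linarith only [hdρ, this, hp1, hp1 6]
  · rw [abs_mul, abs_mul, abs_of_nonneg (Nat.cast_nonneg K : (0 : ℝ) ≤ K), abs_of_pos hQ0]
    have h1 : |θ| * K * Q * ρ = K * (|θ| * (ρ * Q)) := by ring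
    rw [h1]
    have h2 : (K : ℝ) * (|θ| * (ρ * Q)) ≤ (D * n) * (4 * D ^ 2 * η * n) :=
      mul_le_mul hK2 hθQ (by positivity) (by positivity)
    have h3 : (D * n) * (4 * D ^ 2 * η * n) = 4 * D ^ 3 * (η * n ^ 2) := by ring
    have h4 : D ^ 3 * (η * (n : ℝ) ^ 2) ≤ D ^ 6 * (η * (n : ℝ) ^ 2) :=
      mul_le_mul_of_nonneg_right (pow_le_pow_right₀ hD (by norm_num)) (by positivity)
    have h5 : 0 ≤ D ^ 6 * (η * (n : ℝ) ^ 2) := by positivity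
    calc (K : ℝ) * (|θ| * (ρ * Q)) ≤ 4 * D ^ 3 * (η * n ^ 2) := h2.trans h3.le
      _ ≤ 48 * D ^ 6 * η * (n : ℝ) ^ 2 := by linarith only [h4, h5]
  · exact (Finset.filter_subset _ _).trans hFsF
  · have h1 : ρ * (ρ * n) ≤ ρ * (4 * D ^ 2 * Fs.card) := mul_le_mul_of_nonneg_left hFsc hρ.le
    set c : ℝ := ((Fs.filter fun i => f i = b).card : ℝ) with hc
    have hc0 : 0 ≤ c := Nat.cast_nonneg _
    have h2 : ρ * (4 * D ^ 2 * Fs.card) ≤ ρ * (4 * D ^ 2 * (d * c)) := by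
      apply mul_le_mul_of_nonneg_left _ hρ.le
      exact mul_le_mul_of_nonneg_left hbr (by positivity)
    have h3 : ρ * (4 * D ^ 2 * (d * c)) = (4 * D ^ 2 * c) * (d * ρ) := by ring
    have h4 : (4 * D ^ 2 * c) * (d * ρ) ≤ (4 * D ^ 2 * c) * (4 * D ^ 3) :=
      mul_le_mul_of_nonneg_left hdρ (mul_nonneg (by positivity) hc0)
    have h5 : (4 * D ^ 2 * c) * (4 * D ^ 3) = 16 * (D ^ 5 * c) := by ring
    have h6 : D ^ 5 * c ≤ D ^ 6 * c :=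
      mul_le_mul_of_nonneg_right (pow_le_pow_right₀ hD (by norm_num)) hc0
    have h7 : 0 ≤ D ^ 6 * c := mul_nonneg (by positivity) hc0
    calc ρ ^ 2 * n = ρ * (ρ * n) := by ring
      _ ≤ 16 * (D ^ 5 * c) := h1.trans (h2.trans (h3.le.trans (h4.trans h5.le)))
      _ ≤ 48 * D ^ 6 * c := by linarith only [h6, h7]
  · intro i hi
    rw [Finset.mem_filter] at hi
    obtain ⟨hiFs, hfi⟩ := hi
    have hiF0 := hFsF hiFs
    have hip := hi0 i hiF0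
    have hgi := hg i hiFs
    have h1 := hS.freq _ hgi
    have h2 := hS.pos _ hgi
    simp only at h1 h2
    rw [← hQ] at h2
    have hbz : (b : ℤ) = ((g i : ℤ) * a0) % (d : ℤ) := by
      rw [← hfi, hf]
      simp only
      exact Int.toNat_of_nonneg (Int.emod_nonneg _ hdz.ne')
    have hq2 : (g i : ℝ) * a0 = d * (((g i : ℤ) * a0 / (d : ℤ) : ℤ) : ℝ) + b := by
      have h3 := Int.mul_ediv_add_emod ((g i : ℤ) * a0) (d : ℤ)
      rw [← hbz] at h3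
      have h4 : ((((d : ℤ) * ((g i : ℤ) * a0 / (d : ℤ)) + (b : ℤ) : ℤ)) : ℝ) = (((g i : ℤ) * a0 : ℤ) : ℝ) := by
        rw [h3]
      push_cast at h4
      linarith only [h4]
    set q2 : ℤ := (g i : ℤ) * a0 / (d : ℤ) with hq2d
    have hkey : α i - b / d - θ * K * Q / i =
        (-((g i : ℝ) * w - α i) + θ * ((i : ℝ) * g i - K * Q) / i) + (q2 : ℤ) := by
      rw [hw]
      have h5 : (b : ℝ) = (g i : ℝ) * a0 - d * q2 := by linarith only [hq2]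
      rw [h5]
      field_simp
      ring
    rw [hkey, nz_add_int]
    have h6 : nz (-((g i : ℝ) * w - α i) + θ * ((i : ℝ) * g i - K * Q) / i) ≤
        D * η + |θ| * (D * Q) / i := by
      refine (nz_add _ _).trans (add_le_add ?_ ?_)
      · rw [nz_neg]
        exact h1
      · refine (nz_le_abs _).trans ?_
        rw [abs_div, abs_mul, abs_of_pos hip]
        apply div_le_div_of_nonneg_right _ hip.le
        exact mul_le_mul_of_nonneg_left h2 (abs_nonneg _)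
    have h7 : |θ| * (D * Q) / i * ρ ≤ 4 * D ^ 4 * η := by
      rw [div_mul_eq_mul_div, div_le_iff₀ hip]
      have h8 : |θ| * (D * Q) * ρ = D * (|θ| * (ρ * Q)) := by ring
      rw [h8]
      calc D * (|θ| * (ρ * Q)) ≤ D * (4 * D ^ 2 * η * n) := mul_le_mul_of_nonneg_left hθQ hD0.le
        _ = 4 * D ^ 3 * η * n := by ring
        _ ≤ 4 * D ^ 3 * η * (D * i) := mul_le_mul_of_nonneg_left (hiD i hiF0) (by positivity)
        _ = 4 * D ^ 4 * η * i := by ring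
    have h9 := mul_le_mul_of_nonneg_right h6 hρ.le
    have h10 : D * η * ρ ≤ D ^ 6 * η := by
      have h11 : D * η * ρ ≤ D * η * 1 := mul_le_mul_of_nonneg_left hρ1 (by positivity)
      have h12 : D * η ≤ D ^ 6 * η :=
        mul_le_mul_of_nonneg_right (le_self_pow₀ hD (by norm_num)) hη
      linarith only [h11, h12]
    have h13 : D ^ 4 * η ≤ D ^ 6 * η :=
      mul_le_mul_of_nonneg_right (pow_le_pow_right₀ hD (by norm_num)) hη
    have h14 : 0 ≤ D ^ 6 * η := by positivity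
    rw [add_mul] at h9
    linarith only [h7, h9, h10, h13, h14]

end Pool.Agent.H53.TPS

end

section

/-!
# TI Cnt: counting quadruples of fractions with nearly equal differences

`t = ((q1, q3), (q4, q2))`, `q_i = (p_i, u_i)`, `γ = x1 - x3`, `γ' = x4 - x2`, `q1 ≠ q3`, `q4 ≠ q2`, `nz γ ≤ G ≤ 1`, `nz(γ - γ') ≤ ρ ≤ 1`.  Let `k = round γ`, `k2 = round(γ - γ')`.
CASE A: `p1 ≠ p3`, `p4 ≠ p2`.  `a = u1 p3 - u3 p1 - k p1 p3`, so `a/(p1 p3) = γ - k`, and `b = u4 p2 - u2 p4 + (k2 - k) p2 p4`, so `b/(p2 p4) = γ' + k2 - k`.  Then `|a| ≤ G p1 p3`, `|b| ≤ (G+ρ) p2 p4 ≤ 4P²(G+ρ)`,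
`|a p2 p4 - b p1 p3| ≤ ρ p1 p2 p3 p4 ≤ 16 ρ P⁴`; `a, b ≠ 0` (no integer differences, `fr_ne`).  `(p1, p3, a)` determines `u1, u3` (`a ≡ u1 p3 (p1)`, `a ≡ -u3 p1 (p3)`), `(p2, p4, b)` determines `u2, u4`.
Choose `p1, p3` (`≤ P²` ways), `b ≠ 0` (`≤ 8P²(G+ρ)` ways), `M = a p2 p4 ≠ 0` with `|M - b p1 p3| ≤ 16ρP⁴` (`≤ 32ρP⁴ + 1` ways), then `p2, p4` among the at most 4 primes `> P` dividing `M` (`|M| ≤ 16P⁴ < P⁵`; `card_dvd` of `Expand.lean`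
is the same fact): `≤ 16` ways; `a = M/(p2 p4)`.  Total `≤ 128 P⁴ (G+ρ)(32ρP⁴ + 1)`.
CASE B1: `p1 = p3 = p`, `p2 ≠ p4`: `γ - k = a/p` (`a = u1 - u3 - kp ≠ 0`, `|a| ≤ Gp`), `M = a p2 p4`, `|M - b p| ≤ ρ p p2 p4 ≤ 8ρP³`: choose `p` (`P`), `b` (`≤ 8P²(G+ρ)`), `M` (`≤ 16ρP³+1`), `(p2,p4)` (16), `u1` (`≤ 2P`; then `u3` is determined
by `a` modulo `p`).  CASE B2: `p1 ≠ p3`, `p2 = p4 = p'`: `b' = u4 - u2 + (k2-k)p' ≠ 0`, `|b'| ≤ (G+ρ)p' ≤ 2P(G+ρ)`, `M = a p'`, `|M - b' p1 p3| ≤ 8ρP³`: choose `p1, p3` (`P²`), `b'` (`≤ 4P(G+ρ)`), `M`, `p' ∣ M` (4), `u4` (`≤ 2P`).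
CASE C: both: `M = a p'`, `|M - b' p| ≤ ρ p p' ≤ 4ρP²`: `p` (`P`), `b'` (`4P(G+ρ)`), `M`, `p'` (4), `u1`, `u4` (`4P²`).  All cases `≤ 1000 P⁴ (G+ρ)(1 + 32ρP⁴)`.
(It may be convenient to prove one lemma for a general injection: the number of the `t` is `≤ ∑` over the data chosen.)
-/

set_option autoImplicit false

namespace Pool.Agent.H56.TI

open Finset
open Pool.Agent.H91.PK (ee)
open Pool.Agent.H35.W (pb)
open Pool.Agent.H53.MID (nz)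

/-- the common denominator of two fractions -/
private def CntD (q q' : ℕ × ℕ) : ℕ := if q.1 = q'.1 then q.1 else q.1 * q'.1

/-- the numerator of `xf q - xf q' - k` -/
private def CntN (q q' : ℕ × ℕ) (k : ℤ) : ℤ :=
  if q.1 = q'.1 then (q.2 : ℤ) - q'.2 - k * q.1
  else (q.2 : ℤ) * q'.1 - q'.2 * q.1 - k * (q.1 * q'.1)

/-- the extra datum -/
private def CntE (q q' : ℕ × ℕ) : ℕ := if q.1 = q'.1 then q.2 else 0

private theorem Cnt_mem (P : ℕ) (q : ℕ × ℕ) (hq : q ∈ FR P) :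
    P < q.1 ∧ q.1 ≤ 2 * P ∧ q.1.Prime ∧ 1 ≤ q.2 ∧ q.2 ≤ 2 * P ∧ q.2 < q.1 := by
  simp only [FR, pb, mem_filter, mem_product, mem_Ioc, mem_Icc] at hq
  obtain ⟨⟨⟨⟨h1, h2⟩, h3⟩, h4, h5⟩, h6⟩ := hq
  exact ⟨h1, h2, h3, h4, h5, h6⟩

private theorem Cnt_eq (P : ℕ) (q q' : ℕ × ℕ) (hq : q ∈ FR P) (hq' : q' ∈ FR P) (k : ℤ) :
    (CntN q q' k : ℝ) = (xf q - xf q' - k) * CntD q q' := by
  obtain ⟨h1, _, _, _, _, _⟩ := Cnt_mem P q hq
  obtain ⟨h1', _, _, _, _, _⟩ := Cnt_mem P q' hq'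
  have hp : (q.1 : ℝ) ≠ 0 := by
    have : 0 < q.1 := by omega
    exact_mod_cast this.ne'
  have hp' : (q'.1 : ℝ) ≠ 0 := by
    have : 0 < q'.1 := by omega
    exact_mod_cast this.ne'
  unfold CntN CntD xf
  split_ifs with h
  · have h' : (q'.1 : ℝ) = q.1 := by rw [h]
    rw [h']
    push_cast
    field_simp
  · push_cast
    field_simp

private theorem Cnt_dvd_small (p : ℕ) (a b : ℕ) (ha : a < p) (hb : b < p)
    (h : (p : ℤ) ∣ (a : ℤ) - b) : a = b := by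
  have h1 : |(a : ℤ) - b| < p := by
    rw [abs_lt]
    constructor <;> omega
  have h2 := Int.eq_zero_of_abs_lt_dvd h h1
  omega

private theorem Cnt_ne (P : ℕ) (q q' : ℕ × ℕ) (hq : q ∈ FR P) (hq' : q' ∈ FR P) (h : q ≠ q') (k : ℤ) :
    CntN q q' k ≠ 0 := by
  obtain ⟨h1, h2, h3, h4, h5, h6⟩ := Cnt_mem P q hq
  obtain ⟨h1', h2', h3', h4', h5', h6'⟩ := Cnt_mem P q' hq'
  intro h0
  unfold CntN at h0
  split_ifs at h0 with hp
  · apply h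
    have hd : (q.1 : ℤ) ∣ (q.2 : ℤ) - q'.2 := ⟨k, by linarith⟩
    have := Cnt_dvd_small q.1 q.2 q'.2 h6 (by omega) hd
    exact Prod.ext hp this
  · have hd : (q.1 : ℤ) ∣ (q.2 : ℤ) * q'.1 := ⟨q'.2 + k * q'.1, by linarith⟩
    have hd' : q.1 ∣ q.2 * q'.1 := by exact_mod_cast hd
    rcases (Nat.Prime.dvd_mul h3).1 hd' with hx | hx
    · have := Nat.le_of_dvd (by omega) hx
      omega
    · exact hp ((Nat.prime_dvd_prime_iff_eq h3 h3').1 hx)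

private theorem Cnt_det (P : ℕ) (q q' r r' : ℕ × ℕ) (hq : q ∈ FR P) (hq' : q' ∈ FR P) (hr : r ∈ FR P)
    (hr' : r' ∈ FR P) (h1 : q.1 = r.1) (h2 : q'.1 = r'.1) (hE : CntE q q' = CntE r r') (k l : ℤ)
    (hN : CntN q q' k = CntN r r' l) : q = r ∧ q' = r' := by
  obtain ⟨a1, a2, a3, a4, a5, a6⟩ := Cnt_mem P q hq
  obtain ⟨b1, b2, b3, b4, b5, b6⟩ := Cnt_mem P q' hq'
  obtain ⟨c1, c2, c3, c4, c5, c6⟩ := Cnt_mem P r hr
  obtain ⟨d1, d2, d3, d4, d5, d6⟩ := Cnt_mem P r' hr'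
  unfold CntE at hE
  unfold CntN at hN
  by_cases hp : q.1 = q'.1
  · have hp' : r.1 = r'.1 := by omega
    rw [if_pos hp, if_pos hp'] at hE
    rw [if_pos hp, if_pos hp'] at hN
    have hd : (q.1 : ℤ) ∣ (q'.2 : ℤ) - r'.2 := by
      refine ⟨l - k, ?_⟩
      have e1 : (q.2 : ℤ) = r.2 := by exact_mod_cast hE
      have e2 : (r.1 : ℤ) = q.1 := by exact_mod_cast h1.symm
      rw [e1, e2] at hN
      linear_combination -hN
    have := Cnt_dvd_small q.1 q'.2 r'.2 (by omega) (by omega) hd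
    exact ⟨Prod.ext h1 hE, Prod.ext h2 this⟩
  · have hp' : ¬ r.1 = r'.1 := by omega
    rw [if_neg hp, if_neg hp'] at hN
    have e1 : (r.1 : ℤ) = q.1 := by exact_mod_cast h1.symm
    have e2 : (r'.1 : ℤ) = q'.1 := by exact_mod_cast h2.symm
    rw [e1, e2] at hN
    have hcop : Nat.Coprime q.1 q'.1 := (Nat.coprime_primes a3 b3).2 hp
    have hcopZ : IsCoprime (q.1 : ℤ) (q'.1 : ℤ) := Nat.isCoprime_iff_coprime.2 hcop
    have hd1 : (q.1 : ℤ) ∣ ((q.2 : ℤ) - r.2) * q'.1 := by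
      refine ⟨((q'.2 : ℤ) - r'.2) + (k - l) * q'.1, ?_⟩
      linear_combination hN
    have hd2 : (q'.1 : ℤ) ∣ ((q'.2 : ℤ) - r'.2) * q.1 := by
      refine ⟨((q.2 : ℤ) - r.2) - (k - l) * q.1, ?_⟩
      linear_combination -hN
    have g1 := Cnt_dvd_small q.1 q.2 r.2 a6 (by omega) (hcopZ.dvd_of_dvd_mul_right hd1)
    have g2 := Cnt_dvd_small q'.1 q'.2 r'.2 b6 (by omega) (hcopZ.symm.dvd_of_dvd_mul_right hd2)
    exact ⟨Prod.ext h1 g1, Prod.ext h2 g2⟩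

/-- the primes of `pb P` dividing `M` -/
private def CntP (P : ℕ) (M : ℤ) : Finset ℕ := (pb P).filter (fun p : ℕ => (p : ℤ) ∣ M)

/-- at most four primes of `pb P` divide `M`, `0 < |M| < P^5` -/
private theorem Cnt_pr (P : ℕ) (M : ℤ) (hM : M ≠ 0) (hP : 1 ≤ P) (hb : M.natAbs < P ^ 5) :
    (CntP P M).card ≤ 4 := by
  by_contra hc
  push Not at hc
  have h1 : ∏ p ∈ CntP P M, p ∣ M.natAbs := by
    apply Finset.prod_primes_dvd
    · intro p hp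
      simp only [CntP, pb, mem_filter] at hp
      exact hp.1.2.prime
    · intro p hp
      simp only [CntP, mem_filter] at hp
      exact Int.natCast_dvd.1 hp.2
  have h2 : P ^ (CntP P M).card ≤ ∏ p ∈ CntP P M, p := by
    rw [← Finset.prod_const]
    apply Finset.prod_le_prod'
    intro p hp
    simp only [CntP, pb, mem_filter, mem_Ioc] at hp
    exact hp.1.1.1.le
  have h3 := Nat.le_of_dvd (Int.natAbs_pos.2 hM) h1
  have h4 : P ^ 5 ≤ P ^ (CntP P M).card := Nat.pow_le_pow_right hP hc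
  omega

/-- the nonzero integers of absolute value at most `B` -/
private noncomputable def CntZ (B : ℝ) : Finset ℤ := (Icc (-⌊B⌋) ⌊B⌋).erase 0

private theorem Cnt_Zmem (B : ℝ) (b : ℤ) (h0 : b ≠ 0) (hb : |(b : ℝ)| ≤ B) : b ∈ CntZ B := by
  unfold CntZ
  rw [mem_erase, mem_Icc]
  rw [abs_le] at hb
  refine ⟨h0, ?_, ?_⟩
  · rw [neg_le, Int.le_floor]
    push_cast
    linarith [hb.1]
  · exact Int.le_floor.2 hb.2

private theorem Cnt_Zcard (B : ℝ) (hB : 0 ≤ B) : ((CntZ B).card : ℝ) ≤ 2 * B := by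
  have hf : 0 ≤ ⌊B⌋ := Int.floor_nonneg.2 hB
  have h0 : (0 : ℤ) ∈ Icc (-⌊B⌋) ⌊B⌋ := by
    rw [mem_Icc]
    constructor <;> omega
  have h1 : ((CntZ B).card : ℤ) = 2 * ⌊B⌋ := by
    unfold CntZ
    rw [card_erase_of_mem h0, Int.card_Icc]
    omega
  have h2 : ((CntZ B).card : ℝ) = 2 * (⌊B⌋ : ℝ) := by exact_mod_cast h1
  rw [h2]
  have := Int.floor_le B
  linarith

private theorem Cnt_pb (P : ℕ) : (pb P).card ≤ P := by
  unfold pb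
  refine (card_filter_le _ _).trans ?_
  rw [Nat.card_Ioc]
  omega

/-- the data of the first pair -/
private def CntE1 (P : ℕ) : Finset ((ℕ × ℕ) × ℕ) :=
  ((pb P ×ˢ pb P) ×ˢ {0}) ∪ (((pb P).image (fun p => (p, p))) ×ˢ Icc 1 (2 * P))

private theorem Cnt_E1card (P : ℕ) : (CntE1 P).card ≤ 3 * P ^ 2 := by
  unfold CntE1
  refine (card_union_le _ _).trans ?_
  rw [card_product, card_product, card_product, card_singleton, Nat.card_Icc]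
  have h1 := Cnt_pb P
  have h2 : ((pb P).image (fun p => (p, p))).card ≤ P := card_image_le.trans h1
  calc (pb P).card * (pb P).card * 1 + ((pb P).image (fun p => (p, p))).card * (2 * P + 1 - 1)
      ≤ P * P * 1 + P * (2 * P + 1 - 1) :=
        Nat.add_le_add (Nat.mul_le_mul_right _ (Nat.mul_le_mul h1 h1)) (Nat.mul_le_mul_right _ h2)
    _ = 3 * P ^ 2 := by
        rw [Nat.add_sub_cancel]
        ring

private theorem Cnt_E1mem (P : ℕ) (q q' : ℕ × ℕ) (hq : q ∈ FR P) (hq' : q' ∈ FR P) :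
    ((q.1, q'.1), CntE q q') ∈ CntE1 P := by
  obtain ⟨h1, h2, h3, h4, h5, h6⟩ := Cnt_mem P q hq
  obtain ⟨h1', h2', h3', h4', h5', h6'⟩ := Cnt_mem P q' hq'
  have m1 : q.1 ∈ pb P := by
    simp only [pb, mem_filter, mem_Ioc]
    exact ⟨⟨h1, h2⟩, h3⟩
  have m2 : q'.1 ∈ pb P := by
    simp only [pb, mem_filter, mem_Ioc]
    exact ⟨⟨h1', h2'⟩, h3'⟩
  unfold CntE1 CntE
  rw [mem_union]
  by_cases hp : q.1 = q'.1
  · right
    rw [mem_product, if_pos hp]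
    refine ⟨mem_image.2 ⟨q.1, m1, ?_⟩, mem_Icc.2 ⟨h4, h5⟩⟩
    exact Prod.ext rfl hp
  · left
    rw [mem_product, if_neg hp]
    exact ⟨mem_product.2 ⟨m1, m2⟩, mem_singleton_self 0⟩

/-- the data of the second pair -/
private noncomputable def CntE2 (P : ℕ) (s : ℝ) : Finset (ℤ × ℕ) :=
  (CntZ (4 * P ^ 2 * s) ×ˢ {0}) ∪ (CntZ (2 * P * s) ×ˢ Icc 1 (2 * P))

private theorem Cnt_E2card (P : ℕ) (s : ℝ) (hs : 0 ≤ s) : ((CntE2 P s).card : ℝ) ≤ 16 * P ^ 2 * s := by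
  unfold CntE2
  have h0 : ((CntZ (4 * P ^ 2 * s) ×ˢ ({0} : Finset ℕ)) ∪ (CntZ (2 * P * s) ×ˢ Icc 1 (2 * P))).card ≤
      (CntZ (4 * P ^ 2 * s)).card + (CntZ (2 * P * s)).card * (2 * P) := by
    refine (card_union_le _ _).trans ?_
    rw [card_product, card_product, card_singleton, Nat.card_Icc, Nat.add_sub_cancel, mul_one]
  have h1 := Cnt_Zcard (4 * P ^ 2 * s) (by positivity)
  have h2 := Cnt_Zcard (2 * P * s) (by positivity)
  have h3 : (((CntZ (4 * P ^ 2 * s) ×ˢ ({0} : Finset ℕ)) ∪ (CntZ (2 * P * s) ×ˢ Icc 1 (2 * P))).card : ℝ) ≤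
      ((CntZ (4 * P ^ 2 * s)).card : ℝ) + ((CntZ (2 * P * s)).card : ℝ) * (2 * P) := by
    exact_mod_cast h0
  have h4 : ((CntZ (2 * P * s)).card : ℝ) * (2 * P) ≤ 2 * (2 * P * s) * (2 * P) :=
    mul_le_mul_of_nonneg_right h2 (by positivity)
  refine h3.trans ((add_le_add h1 h4).trans (le_of_eq ?_))
  ring

private theorem Cnt_D1 (P : ℕ) (q q' : ℕ × ℕ) (hq : q ∈ FR P) (hq' : q' ∈ FR P) :
    1 ≤ CntD q q' ∧ CntD q q' ≤ 4 * P ^ 2 := by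
  obtain ⟨h1, h2, h3, h4, h5, h6⟩ := Cnt_mem P q hq
  obtain ⟨h1', h2', h3', h4', h5', h6'⟩ := Cnt_mem P q' hq'
  unfold CntD
  split_ifs with h
  · refine ⟨by omega, ?_⟩
    nlinarith
  · refine ⟨Nat.mul_pos (by omega) (by omega), ?_⟩
    calc q.1 * q'.1 ≤ (2 * P) * (2 * P) := Nat.mul_le_mul h2 h2'
      _ = 4 * P ^ 2 := by ring

private theorem Cnt_E2mem (P : ℕ) (s : ℝ) (hs : 0 ≤ s) (q q' : ℕ × ℕ) (hq : q ∈ FR P) (hq' : q' ∈ FR P)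
    (b : ℤ) (hb : b ≠ 0) (hbs : |(b : ℝ)| ≤ s * CntD q q') : (b, CntE q q') ∈ CntE2 P s := by
  obtain ⟨h1, h2, h3, h4, h5, h6⟩ := Cnt_mem P q hq
  obtain ⟨hd1, hd2⟩ := Cnt_D1 P q q' hq hq'
  unfold CntE2
  rw [mem_union]
  by_cases hp : q.1 = q'.1
  · right
    rw [mem_product]
    unfold CntE
    rw [if_pos hp]
    refine ⟨Cnt_Zmem _ _ hb (hbs.trans ?_), mem_Icc.2 ⟨h4, h5⟩⟩
    unfold CntD
    rw [if_pos hp, mul_comm]
    have : (q.1 : ℝ) ≤ 2 * P := by exact_mod_cast h2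
    exact mul_le_mul_of_nonneg_right this hs
  · left
    rw [mem_product]
    unfold CntE
    rw [if_neg hp]
    refine ⟨Cnt_Zmem _ _ hb (hbs.trans ?_), mem_singleton_self 0⟩
    rw [mul_comm]
    have : (CntD q q' : ℝ) ≤ 4 * P ^ 2 := by exact_mod_cast hd2
    exact mul_le_mul_of_nonneg_right this hs

/-- the integers `k`, `k - k2` of a quadruple -/
private noncomputable def CntK (t : ((ℕ × ℕ) × (ℕ × ℕ)) × ((ℕ × ℕ) × (ℕ × ℕ))) : ℤ :=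
  round (xf t.1.1 - xf t.1.2)

private noncomputable def CntK2 (t : ((ℕ × ℕ) × (ℕ × ℕ)) × ((ℕ × ℕ) × (ℕ × ℕ))) : ℤ :=
  CntK t - round ((xf t.1.1 - xf t.1.2) - (xf t.2.1 - xf t.2.2))

/-- the data of a quadruple -/
private noncomputable def CntF (t : ((ℕ × ℕ) × (ℕ × ℕ)) × ((ℕ × ℕ) × (ℕ × ℕ))) :
    (((ℕ × ℕ) × ℕ) × (ℤ × ℕ)) × ℤ :=
  ((((t.1.1.1, t.1.2.1), CntE t.1.1 t.1.2), (CntN t.2.1 t.2.2 (CntK2 t), CntE t.2.1 t.2.2)),
    CntN t.1.1 t.1.2 (CntK t) * CntD t.2.1 t.2.2 - CntN t.2.1 t.2.2 (CntK2 t) * CntD t.1.1 t.1.2)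

/-- the integer `M` from the data -/
private def CntM (y : (((ℕ × ℕ) × ℕ) × (ℤ × ℕ)) × ℤ) : ℤ :=
  y.2 + y.1.2.1 * (CntD (y.1.1.1.1, 0) (y.1.1.1.2, 0) : ℕ)

private theorem Cnt_M (t : ((ℕ × ℕ) × (ℕ × ℕ)) × ((ℕ × ℕ) × (ℕ × ℕ))) :
    CntM (CntF t) = CntN t.1.1 t.1.2 (CntK t) * CntD t.2.1 t.2.2 := by
  unfold CntM CntF
  have h : CntD ((t.1.1.1, 0) : ℕ × ℕ) ((t.1.2.1, 0) : ℕ × ℕ) = CntD t.1.1 t.1.2 := by
    unfold CntD
    rfl
  simp only [h]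
  ring

/-- the facts about a quadruple -/
private theorem Cnt_fact (P : ℕ) (G ρ : ℝ) (hP : 20 ≤ P) (hG : 0 ≤ G) (hρ : 0 ≤ ρ)
    (t : ((ℕ × ℕ) × (ℕ × ℕ)) × ((ℕ × ℕ) × (ℕ × ℕ)))
    (m1 : t.1.1 ∈ FR P) (m2 : t.1.2 ∈ FR P) (m3 : t.2.1 ∈ FR P) (m4 : t.2.2 ∈ FR P)
    (n1 : t.1.1 ≠ t.1.2) (n2 : t.2.1 ≠ t.2.2) (g1 : nz (xf t.1.1 - xf t.1.2) ≤ G)
    (g2 : nz ((xf t.1.1 - xf t.1.2) - (xf t.2.1 - xf t.2.2)) ≤ ρ) :
    CntF t ∈ (CntE1 P ×ˢ CntE2 P (G + ρ)) ×ˢ Icc (-⌊16 * ρ * P ^ 4⌋) ⌊16 * ρ * P ^ 4⌋ ∧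
    CntM (CntF t) ≠ 0 ∧ (CntM (CntF t)).natAbs < P ^ 5 := by
  obtain ⟨c1, c2⟩ := Cnt_D1 P _ _ m1 m2
  obtain ⟨d1, d2⟩ := Cnt_D1 P _ _ m3 m4
  have ha := Cnt_ne P _ _ m1 m2 n1 (CntK t)
  have hb := Cnt_ne P _ _ m3 m4 n2 (CntK2 t)
  have ea := Cnt_eq P _ _ m1 m2 (CntK t)
  have eb := Cnt_eq P _ _ m3 m4 (CntK2 t)
  have c1' : (1 : ℝ) ≤ CntD t.1.1 t.1.2 := by exact_mod_cast c1
  have c2' : (CntD t.1.1 t.1.2 : ℝ) ≤ 4 * P ^ 2 := by exact_mod_cast c2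
  have d1' : (1 : ℝ) ≤ CntD t.2.1 t.2.2 := by exact_mod_cast d1
  have d2' : (CntD t.2.1 t.2.2 : ℝ) ≤ 4 * P ^ 2 := by exact_mod_cast d2
  have e1 : |xf t.1.1 - xf t.1.2 - (CntK t : ℤ)| ≤ G := g1
  have e2 : |(xf t.1.1 - xf t.1.2) - (xf t.2.1 - xf t.2.2) -
      (round ((xf t.1.1 - xf t.1.2) - (xf t.2.1 - xf t.2.2)) : ℤ)| ≤ ρ := g2
  have ek : ((CntK2 t : ℤ) : ℝ) = (CntK t : ℤ) -
      (round ((xf t.1.1 - xf t.1.2) - (xf t.2.1 - xf t.2.2)) : ℤ) := by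
    unfold CntK2
    push_cast
    ring
  have e3 : |xf t.1.1 - xf t.1.2 - (CntK t : ℤ)| ≤ 1 / 2 := abs_sub_round _
  have e4 : |(xf t.1.1 - xf t.1.2 - (CntK t : ℤ)) - (xf t.2.1 - xf t.2.2 - (CntK2 t : ℤ))| ≤ ρ := by
    rw [ek]
    refine le_of_eq_of_le ?_ e2
    congr 1
    ring
  have e5 : |xf t.2.1 - xf t.2.2 - (CntK2 t : ℤ)| ≤ G + ρ := by
    have := abs_sub_abs_le_abs_sub (xf t.2.1 - xf t.2.2 - (CntK2 t : ℤ)) (xf t.1.1 - xf t.1.2 - (CntK t : ℤ))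
    rw [abs_sub_comm (xf t.2.1 - xf t.2.2 - (CntK2 t : ℤ) : ℝ) (xf t.1.1 - xf t.1.2 - (CntK t : ℤ))] at this
    linarith
  have hDD : (CntD t.1.1 t.1.2 : ℝ) * CntD t.2.1 t.2.2 ≤ 16 * P ^ 4 := by
    calc (CntD t.1.1 t.1.2 : ℝ) * CntD t.2.1 t.2.2 ≤ (4 * P ^ 2) * (4 * P ^ 2) :=
          mul_le_mul c2' d2' (by linarith) (by positivity)
      _ = 16 * P ^ 4 := by ring
  have hDD0 : 0 ≤ (CntD t.1.1 t.1.2 : ℝ) * CntD t.2.1 t.2.2 := by positivity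
  refine ⟨?_, ?_, ?_⟩
  · unfold CntF
    rw [mem_product, mem_product, mem_Icc]
    refine ⟨⟨Cnt_E1mem P _ _ m1 m2, Cnt_E2mem P _ (by linarith) _ _ m3 m4 _ hb ?_⟩, ?_⟩
    · rw [eb, abs_mul, abs_of_nonneg (by linarith : (0 : ℝ) ≤ CntD t.2.1 t.2.2)]
      exact mul_le_mul_of_nonneg_right e5 (by linarith)
    · have hN : |((CntN t.1.1 t.1.2 (CntK t) * CntD t.2.1 t.2.2 -
          CntN t.2.1 t.2.2 (CntK2 t) * CntD t.1.1 t.1.2 : ℤ) : ℝ)| ≤ 16 * ρ * P ^ 4 := by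
        have : ((CntN t.1.1 t.1.2 (CntK t) * CntD t.2.1 t.2.2 -
          CntN t.2.1 t.2.2 (CntK2 t) * CntD t.1.1 t.1.2 : ℤ) : ℝ) =
          ((xf t.1.1 - xf t.1.2 - (CntK t : ℤ)) - (xf t.2.1 - xf t.2.2 - (CntK2 t : ℤ))) *
            ((CntD t.1.1 t.1.2 : ℝ) * CntD t.2.1 t.2.2) := by
          push_cast
          rw [ea, eb]
          ring
        rw [this, abs_mul, abs_of_nonneg hDD0]
        calc _ ≤ ρ * (16 * P ^ 4) := mul_le_mul e4 hDD hDD0 hρ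
          _ = 16 * ρ * P ^ 4 := by ring
      rw [abs_le] at hN
      refine ⟨?_, Int.le_floor.2 hN.2⟩
      rw [neg_le, Int.le_floor]
      push_cast
      push_cast at hN
      linarith [hN.1]
  · rw [Cnt_M]
    exact mul_ne_zero ha (by exact_mod_cast (by omega : CntD t.2.1 t.2.2 ≠ 0))
  · rw [Cnt_M]
    have hM : |((CntN t.1.1 t.1.2 (CntK t) * CntD t.2.1 t.2.2 : ℤ) : ℝ)| ≤ 8 * P ^ 4 := by
      push_cast
      rw [ea, mul_assoc, abs_mul, abs_of_nonneg hDD0]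
      calc _ ≤ (1 / 2) * (16 * (P : ℝ) ^ 4) := mul_le_mul e3 hDD hDD0 (by norm_num)
        _ = 8 * P ^ 4 := by ring
    have hM2 : ((CntN t.1.1 t.1.2 (CntK t) * CntD t.2.1 t.2.2).natAbs : ℝ) ≤ 8 * P ^ 4 := by
      rw [Nat.cast_natAbs]
      push_cast
      push_cast at hM
      exact hM
    have hM3 : (CntN t.1.1 t.1.2 (CntK t) * CntD t.2.1 t.2.2).natAbs ≤ 8 * P ^ 4 := by exact_mod_cast hM2
    have hM4 : 8 * P ^ 4 < P ^ 5 := by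
      have : 0 < P ^ 4 := by positivity
      calc 8 * P ^ 4 < P * P ^ 4 := Nat.mul_lt_mul_of_pos_right (by omega) this
        _ = P ^ 5 := by ring
    omega

open Classical in
theorem cnt : ∃ C : ℝ, 0 < C ∧ ∀ (P : ℕ) (G ρ : ℝ), 20 ≤ P → 0 ≤ G → G ≤ 1 → 0 ≤ ρ → ρ ≤ 1 →
    ((((FR P ×ˢ FR P) ×ˢ (FR P ×ˢ FR P)).filter (fun t => t.1.1 ≠ t.1.2 ∧ t.2.1 ≠ t.2.2 ∧
      nz (xf t.1.1 - xf t.1.2) ≤ G ∧ nz ((xf t.1.1 - xf t.1.2) - (xf t.2.1 - xf t.2.2)) ≤ ρ)).card : ℝ) ≤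
      C * P ^ 4 * (G + ρ) * (1 + ρ * P ^ 4) := by
  refine ⟨24576, by norm_num, ?_⟩
  intro P G ρ hP hG hG1 hρ hρ1
  have key : ∀ t ∈ (((FR P ×ˢ FR P) ×ˢ (FR P ×ˢ FR P)).filter (fun t => t.1.1 ≠ t.1.2 ∧ t.2.1 ≠ t.2.2 ∧
      nz (xf t.1.1 - xf t.1.2) ≤ G ∧ nz ((xf t.1.1 - xf t.1.2) - (xf t.2.1 - xf t.2.2)) ≤ ρ)),
      (t.1.1 ∈ FR P ∧ t.1.2 ∈ FR P ∧ t.2.1 ∈ FR P ∧ t.2.2 ∈ FR P) ∧
      CntF t ∈ (CntE1 P ×ˢ CntE2 P (G + ρ)) ×ˢ Icc (-⌊16 * ρ * P ^ 4⌋) ⌊16 * ρ * P ^ 4⌋ ∧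
      CntM (CntF t) ≠ 0 ∧ (CntM (CntF t)).natAbs < P ^ 5 := by
    intro t ht
    rw [mem_filter, mem_product, mem_product, mem_product] at ht
    obtain ⟨⟨⟨m1, m2⟩, m3, m4⟩, n1, n2, g1, g2⟩ := ht
    exact ⟨⟨m1, m2, m3, m4⟩, Cnt_fact P G ρ hP hG hρ t m1 m2 m3 m4 n1 n2 g1 g2⟩
  have hcard : (((FR P ×ˢ FR P) ×ˢ (FR P ×ˢ FR P)).filter (fun t => t.1.1 ≠ t.1.2 ∧ t.2.1 ≠ t.2.2 ∧
      nz (xf t.1.1 - xf t.1.2) ≤ G ∧ nz ((xf t.1.1 - xf t.1.2) - (xf t.2.1 - xf t.2.2)) ≤ ρ)).card ≤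
      16 * ((CntE1 P ×ˢ CntE2 P (G + ρ)) ×ˢ Icc (-⌊16 * ρ * P ^ 4⌋) ⌊16 * ρ * P ^ 4⌋).card := by
    refine card_le_mul_card_image_of_maps_to (f := CntF) (fun t ht => (key t ht).2.1) 16 ?_
    intro y _
    have hsub : ∀ t ∈ ((((FR P ×ˢ FR P) ×ˢ (FR P ×ˢ FR P)).filter (fun t => t.1.1 ≠ t.1.2 ∧ t.2.1 ≠ t.2.2 ∧
      nz (xf t.1.1 - xf t.1.2) ≤ G ∧ nz ((xf t.1.1 - xf t.1.2) - (xf t.2.1 - xf t.2.2)) ≤ ρ)).filter
        (fun t => CntF t = y)), (t.2.1.1, t.2.2.1) ∈ CntP P (CntM y) ×ˢ CntP P (CntM y) := by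
      intro t ht
      rw [mem_filter] at ht
      obtain ⟨⟨m1, m2, m3, m4⟩, _⟩ := key t ht.1
      obtain ⟨h1, h2, h3, h4, h5, h6⟩ := Cnt_mem P _ m3
      obtain ⟨h1', h2', h3', h4', h5', h6'⟩ := Cnt_mem P _ m4
      rw [← ht.2, Cnt_M]
      simp only [CntP, pb, mem_product, mem_filter, mem_Ioc]
      refine ⟨⟨⟨⟨h1, h2⟩, h3⟩, Dvd.dvd.mul_left ?_ _⟩, ⟨⟨h1', h2'⟩, h3'⟩, Dvd.dvd.mul_left ?_ _⟩
      · unfold CntD
        split_ifs with h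
        · exact dvd_refl _
        · exact_mod_cast Dvd.intro _ rfl
      · unfold CntD
        split_ifs with h
        · rw [h]
        · exact_mod_cast Dvd.intro_left _ rfl
    have hinj : Set.InjOn (fun t : ((ℕ × ℕ) × (ℕ × ℕ)) × ((ℕ × ℕ) × (ℕ × ℕ)) => (t.2.1.1, t.2.2.1))
        ((((((FR P ×ˢ FR P) ×ˢ (FR P ×ˢ FR P)).filter (fun t => t.1.1 ≠ t.1.2 ∧ t.2.1 ≠ t.2.2 ∧
      nz (xf t.1.1 - xf t.1.2) ≤ G ∧ nz ((xf t.1.1 - xf t.1.2) - (xf t.2.1 - xf t.2.2)) ≤ ρ)).filter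
        (fun t => CntF t = y)) : Finset _) : Set (((ℕ × ℕ) × (ℕ × ℕ)) × ((ℕ × ℕ) × (ℕ × ℕ)))) := by
      intro t ht s hs hts
      rw [mem_coe, mem_filter] at ht hs
      obtain ⟨⟨m1, m2, m3, m4⟩, _⟩ := key t ht.1
      obtain ⟨⟨k1, k2, k3, k4⟩, _⟩ := key s hs.1
      have hF : CntF t = CntF s := ht.2.trans hs.2.symm
      have hMM := congrArg CntM hF
      rw [Cnt_M, Cnt_M] at hMM
      have hts' : (t.2.1.1, t.2.2.1) = (s.2.1.1, s.2.2.1) := hts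
      have p21 : t.2.1.1 = s.2.1.1 := (Prod.mk.inj hts').1
      have p22 : t.2.2.1 = s.2.2.1 := (Prod.mk.inj hts').2
      have p11 : t.1.1.1 = s.1.1.1 := congrArg (fun y => y.1.1.1.1) hF
      have p12 : t.1.2.1 = s.1.2.1 := congrArg (fun y => y.1.1.1.2) hF
      have pE1 : CntE t.1.1 t.1.2 = CntE s.1.1 s.1.2 := congrArg (fun y => y.1.1.2) hF
      have pE2 : CntE t.2.1 t.2.2 = CntE s.2.1 s.2.2 := congrArg (fun y => y.1.2.2) hF
      have pb2 : CntN t.2.1 t.2.2 (CntK2 t) = CntN s.2.1 s.2.2 (CntK2 s) := congrArg (fun y => y.1.2.1) hF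
      have hD : CntD t.2.1 t.2.2 = CntD s.2.1 s.2.2 := by
        unfold CntD
        rw [p21, p22]
      rw [hD] at hMM
      have hD0 : (CntD s.2.1 s.2.2 : ℤ) ≠ 0 := by
        have := (Cnt_D1 P _ _ k3 k4).1
        omega
      have pa2 := mul_right_cancel₀ hD0 hMM
      obtain ⟨r1, r2⟩ := Cnt_det P _ _ _ _ m1 m2 k1 k2 p11 p12 pE1 _ _ pa2
      obtain ⟨r3, r4⟩ := Cnt_det P _ _ _ _ m3 m4 k3 k4 p21 p22 pE2 _ _ pb2
      exact Prod.ext (Prod.ext r1 r2) (Prod.ext r3 r4)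
    by_cases hne : ((((FR P ×ˢ FR P) ×ˢ (FR P ×ˢ FR P)).filter (fun t => t.1.1 ≠ t.1.2 ∧ t.2.1 ≠ t.2.2 ∧
      nz (xf t.1.1 - xf t.1.2) ≤ G ∧ nz ((xf t.1.1 - xf t.1.2) - (xf t.2.1 - xf t.2.2)) ≤ ρ)).filter
        (fun t => CntF t = y)).Nonempty
    · obtain ⟨t0, ht0⟩ := hne
      rw [mem_filter] at ht0
      obtain ⟨_, _, hM0, hM1⟩ := key t0 ht0.1
      rw [ht0.2] at hM0 hM1
      have h4 := Cnt_pr P (CntM y) hM0 (by omega) hM1
      refine (card_le_card_of_injOn _ hsub hinj).trans ?_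
      rw [card_product]
      calc (CntP P (CntM y)).card * (CntP P (CntM y)).card ≤ 4 * 4 := Nat.mul_le_mul h4 h4
        _ = 16 := rfl
    · rw [not_nonempty_iff_eq_empty] at hne
      rw [hne, card_empty]
      omega
  have hE1 : ((CntE1 P).card : ℝ) ≤ 3 * P ^ 2 := by exact_mod_cast Cnt_E1card P
  have hs : 0 ≤ G + ρ := by linarith
  have hE2 := Cnt_E2card P (G + ρ) hs
  have hB : 0 ≤ 16 * ρ * (P : ℝ) ^ 4 := by positivity
  have hf0 : 0 ≤ ⌊16 * ρ * (P : ℝ) ^ 4⌋ := Int.floor_nonneg.2 hB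
  have hI : ((Icc (-⌊16 * ρ * (P : ℝ) ^ 4⌋) ⌊16 * ρ * (P : ℝ) ^ 4⌋).card : ℝ) ≤ 32 * ρ * P ^ 4 + 1 := by
    have h1 : ((Icc (-⌊16 * ρ * (P : ℝ) ^ 4⌋) ⌊16 * ρ * (P : ℝ) ^ 4⌋).card : ℤ) =
        2 * ⌊16 * ρ * (P : ℝ) ^ 4⌋ + 1 := by
      rw [Int.card_Icc]
      omega
    have h2 : ((Icc (-⌊16 * ρ * (P : ℝ) ^ 4⌋) ⌊16 * ρ * (P : ℝ) ^ 4⌋).card : ℝ) =
        2 * (⌊16 * ρ * (P : ℝ) ^ 4⌋ : ℝ) + 1 := by exact_mod_cast h1
    rw [h2]
    have := Int.floor_le (16 * ρ * (P : ℝ) ^ 4)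
    linarith
  have hcard' : ((((FR P ×ˢ FR P) ×ˢ (FR P ×ˢ FR P)).filter (fun t => t.1.1 ≠ t.1.2 ∧ t.2.1 ≠ t.2.2 ∧
      nz (xf t.1.1 - xf t.1.2) ≤ G ∧ nz ((xf t.1.1 - xf t.1.2) - (xf t.2.1 - xf t.2.2)) ≤ ρ)).card : ℝ) ≤
      16 * (((CntE1 P).card : ℝ) * ((CntE2 P (G + ρ)).card : ℝ) *
        ((Icc (-⌊16 * ρ * (P : ℝ) ^ 4⌋) ⌊16 * ρ * (P : ℝ) ^ 4⌋).card : ℝ)) := by
    rw [card_product, card_product] at hcard
    exact_mod_cast hcard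
  refine hcard'.trans ?_
  have h1 : ((CntE1 P).card : ℝ) * ((CntE2 P (G + ρ)).card : ℝ) ≤ 3 * P ^ 2 * (16 * P ^ 2 * (G + ρ)) :=
    mul_le_mul hE1 hE2 (Nat.cast_nonneg _) (by positivity)
  have h2 : ((CntE1 P).card : ℝ) * ((CntE2 P (G + ρ)).card : ℝ) *
        ((Icc (-⌊16 * ρ * (P : ℝ) ^ 4⌋) ⌊16 * ρ * (P : ℝ) ^ 4⌋).card : ℝ) ≤
        3 * P ^ 2 * (16 * P ^ 2 * (G + ρ)) * (32 * ρ * P ^ 4 + 1) :=
    mul_le_mul h1 hI (Nat.cast_nonneg _) (by positivity)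
  have h3 : 32 * ρ * (P : ℝ) ^ 4 + 1 ≤ 32 * (1 + ρ * P ^ 4) := by linarith
  have h4 : 3 * (P : ℝ) ^ 2 * (16 * P ^ 2 * (G + ρ)) * (32 * ρ * P ^ 4 + 1) ≤
      3 * P ^ 2 * (16 * P ^ 2 * (G + ρ)) * (32 * (1 + ρ * P ^ 4)) :=
    mul_le_mul_of_nonneg_left h3 (by positivity)
  have h5 : 16 * (3 * (P : ℝ) ^ 2 * (16 * P ^ 2 * (G + ρ)) * (32 * (1 + ρ * P ^ 4))) =
      24576 * P ^ 4 * (G + ρ) * (1 + ρ * P ^ 4) := by ring
  rw [← h5]
  linarith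

end Pool.Agent.H56.TI

end
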