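import Pool.Agent.H43.PJ.M01

/-! The parts of this file: H88.PSI.Bin, H53.TPS.Defs, H53.TPS.BadT, H53.TPS.Tup, H53.TPS.HU, H53.TPS.Sumset, H53.TPS.KT. -/

section

/-!
# PSI Bin: binary decomposition of an initial segment

Induction on `r`: if `M < 2^r`, `2^(r-1) ≤ M`: `range M = range 2^(r-1) ∪ Ico 2^(r-1) M`,
`|a+b|^2 ≤ r |a|^2 + r/(r-1) |b|^2`.  (Apply the induction hypothesis to the shifted function.)
-/

set_option autoImplicit false

namespace Pool.Agent.H88.PSI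

open Finset

theorem bin_dec (r : ℕ) (f : ℕ → ℝ) (M : ℕ) (hM : M < 2 ^ r) :
    (∑ m ∈ range M, f m) ^ 2 ≤ r * ∑ l ∈ range r, ∑ j ∈ range (2 ^ (r - l)),
      (∑ m ∈ Ico (j * 2 ^ l) ((j + 1) * 2 ^ l), f m) ^ 2 := by
  set S : ℕ → ℝ := fun l => ∑ m ∈ range (M / 2 ^ l * 2 ^ l), f m with hS
  have h0 : S 0 = ∑ m ∈ range M, f m := by simp [hS]
  have hr : S r = 0 := by simp [hS, Nat.div_eq_of_lt hM]
  have tel : ∑ m ∈ range M, f m = ∑ l ∈ range r, (S l - S (l + 1)) := by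
    rw [Finset.sum_range_sub', h0, hr, sub_zero]
  have hterm : ∀ l ∈ range r, (S l - S (l + 1)) ^ 2 ≤ ∑ j ∈ range (2 ^ (r - l)),
      (∑ m ∈ Ico (j * 2 ^ l) ((j + 1) * 2 ^ l), f m) ^ 2 := by
    intro l hl
    have hl' : l < r := mem_range.1 hl
    have hq : M / 2 ^ l < 2 ^ (r - l) := by
      refine Nat.div_lt_of_lt_mul ?_
      rw [← pow_add, Nat.add_sub_cancel' hl'.le]
      exact hM
    have hq' : M / 2 ^ (l + 1) = M / 2 ^ l / 2 := by rw [pow_succ, Nat.div_div_eq_div_mul]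
    rcases Nat.even_or_odd' (M / 2 ^ l) with ⟨q, hq2 | hq2⟩
    · have e1 : M / 2 ^ (l + 1) * 2 ^ (l + 1) = M / 2 ^ l * 2 ^ l := by
        rw [hq', hq2, Nat.mul_div_cancel_left q (by norm_num), pow_succ]
        ring
      have e2 : S l - S (l + 1) = 0 := by
        simp only [hS]
        rw [e1, sub_self]
      rw [e2, zero_pow two_ne_zero]
      exact sum_nonneg fun j _ => sq_nonneg _
    · have e0 : M / 2 ^ (l + 1) = q := by
        rw [hq', hq2]
        omega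
      have e2 : S l - S (l + 1) = ∑ m ∈ Ico (2 * q * 2 ^ l) ((2 * q + 1) * 2 ^ l), f m := by
        simp only [hS]
        rw [e0, hq2, pow_succ]
        have e3 : q * (2 ^ l * 2) = 2 * q * 2 ^ l := by ring
        rw [e3, Finset.sum_Ico_eq_sub _ (Nat.mul_le_mul_right _ (by omega))]
      rw [e2]
      exact single_le_sum (f := fun j => (∑ m ∈ Ico (j * 2 ^ l) ((j + 1) * 2 ^ l), f m) ^ 2)
        (fun j _ => sq_nonneg _) (mem_range.2 (by omega : 2 * q < 2 ^ (r - l)))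
  rw [tel]
  calc (∑ l ∈ range r, (S l - S (l + 1))) ^ 2
      ≤ (range r).card * ∑ l ∈ range r, (S l - S (l + 1)) ^ 2 := sq_sum_le_card_mul_sum_sq
    _ = r * ∑ l ∈ range r, (S l - S (l + 1)) ^ 2 := by rw [card_range]
    _ ≤ _ := mul_le_mul_of_nonneg_left (sum_le_sum hterm) (Nat.cast_nonneg r)

end Pool.Agent.H88.PSI

end

section

/-!
# TPS Defs (project TP, part 1: type II sums with a prime factor `P ≤ H N^(-ε)`)

* `GoodT P κ p` (`p : Fin k → ℕ` a tuple of primes of `(P, 2P]`): if all `nz (p_j t) ≤ κ` then `nz t ≤ κ/P`.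
* `FpS S f m = ∑_{p ∈ S, p ∣ m} f(m/p)` (`S` a set of primes of `(P, 2P]`).
* `ccS S f a T m = FpS S f m · ee(-m a) · ee(-T log m)`.
* `PlS S d l s = ∑_{p ∈ S, p ≡ l (d)} ee(-s log p)`.
* `Maj L C2 H α`: `α` is a major frequency: `nz (α - b/d) ≤ L^C2/H` for some `b/d`, `d ≤ L^C2`.
* `pI u v`: the primes of `(u, v]`.
-/

set_option autoImplicit false

namespace Pool.Agent.H53.TPS

open Finset
open Pool.Agent.H53.MID (nz)

/-- a tuple of primes that determines small frequencies -/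
def GoodT {k : ℕ} (P : ℕ) (κ : ℝ) (p : Fin k → ℕ) : Prop :=
  ∀ t : ℝ, (∀ j, nz (p j * t) ≤ κ) → nz t ≤ κ / P

end Pool.Agent.H53.TPS

end

section

/-!
# TPS BadT: few bad tuples

Proof.  Let `p : Fin (k+1) → ℕ` be a bad tuple of primes of `(P, 2P]`: there is `t` with `nz (p_j t) ≤ κ` for all `j` and `nz t > κ/P`.  `p_0 t = c + f`, `c ∈ ℤ`, `|f| ≤ κ`.  If `p_0 ∣ c` then `nz t ≤ |f|/p_0 ≤ κ/P`, a contradiction.  So `c' := c mod p_0 ∈ {1..p_0 - 1}`, and
`nz (p_j c'/p_0) ≤ nz (p_j t) + p_j |f|/p_0 ≤ 3 κ` for all `j`.  For fixed `p_0` and `c'` (at most `P · 2P` pairs) and `j ≥ 1`: `p_j c' mod p_0` is at distance `≤ 3 κ p_0 ≤ 6 κ P` from `0` modulo `p_0`: at most `12 κ P + 1` residues; `c'` is invertible mod `p_0`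
and `p_j ∈ (P, 2P]`, `p_0 > P`: different `p_j` have different residues mod `p_0`.  So at most `12 κ P + 1` values of `p_j`.
Formalization hint: bound the set of bad tuples by the `Finset.biUnion` over `(p_0, c')` of the image of `Fintype.piFinset`; or `Fin.consEquiv`.
-/

set_option autoImplicit false

namespace Pool.Agent.H53.TPS

open Finset
open Pool.Agent.H53.MID (nz)

open Classical in
/-- the bad tuples -/
noncomputable def BadS (k P : ℕ) (κ : ℝ) : Finset (Fin k → ℕ) :=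
  (Fintype.piFinset (fun _ : Fin k => (Ioc P (2 * P)).filter Nat.Prime)).filter (fun p => ¬ GoodT P κ p)

theorem mem_BadS {k P : ℕ} {κ : ℝ} {p : Fin k → ℕ} :
    p ∈ BadS k P κ ↔ (∀ j, P < p j ∧ p j ≤ 2 * P ∧ (p j).Prime) ∧ ¬ GoodT P κ p := by
  classical
  unfold BadS
  rw [Finset.mem_filter, Fintype.mem_piFinset]
  simp only [Finset.mem_filter, Finset.mem_Ioc, and_assoc]

open Classical in
/-- the possible values of `p_j` for given `p_0 = q` and `c` -/
private noncomputable def BadT_V (P : ℕ) (κ : ℝ) (q c : ℕ) : Finset ℕ :=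
  (Ioc P (2 * P)).filter (fun r => nz ((r : ℝ) * c / q) ≤ 3 * κ)

private theorem BadT_mem_V {P : ℕ} {κ : ℝ} {q c r : ℕ} :
    r ∈ BadT_V P κ q c ↔ (P < r ∧ r ≤ 2 * P) ∧ nz ((r : ℝ) * c / q) ≤ 3 * κ := by
  classical
  unfold BadT_V
  rw [Finset.mem_filter, Finset.mem_Ioc]

private theorem BadT_card_V {P : ℕ} {κ : ℝ} {q c : ℕ} (hκ : 0 ≤ κ) (hq : q.Prime) (h1 : P < q)
    (h2 : q ≤ 2 * P) (hc : ¬ q ∣ c) : ((BadT_V P κ q c).card : ℝ) ≤ 12 * κ * P + 1 := by
  have hq0 : (0 : ℝ) < q := by exact_mod_cast hq.pos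
  set M : ℕ := ⌊3 * κ * q⌋₊ with hM
  have hMle : (M : ℝ) ≤ 3 * κ * q := Nat.floor_le (by positivity)
  have hcard : (BadT_V P κ q c).card ≤ (Finset.Icc (-(M : ℤ)) (M : ℤ)).card := by
    refine Finset.card_le_card_of_injOn
      (fun r => (r : ℤ) * c - q * round ((r : ℝ) * c / q)) ?_ ?_
    · intro r hr
      have hr' := (BadT_mem_V.mp hr).2
      have habs : |((r : ℝ) * c - q * (round ((r : ℝ) * c / q) : ℤ))| ≤ 3 * κ * q := by
        have e : ((r : ℝ) * c - q * (round ((r : ℝ) * c / q) : ℤ))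
            = q * ((r : ℝ) * c / q - (round ((r : ℝ) * c / q) : ℤ)) := by
          field_simp
        rw [e, abs_mul, abs_of_pos hq0]
        have : |((r : ℝ) * c / q - (round ((r : ℝ) * c / q) : ℤ))| ≤ 3 * κ := hr'
        nlinarith
      have hcast : (((((r : ℤ) * c - q * round ((r : ℝ) * c / q)).natAbs : ℕ) : ℝ)) ≤ 3 * κ * q := by
        rw [Nat.cast_natAbs, Int.cast_abs]
        push_cast
        exact habs
      have hN : (((r : ℤ) * c - q * round ((r : ℝ) * c / q)).natAbs : ℕ) ≤ M :=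
        Nat.le_floor hcast
      simp only [Finset.coe_Icc, Set.mem_Icc]
      constructor <;> omega
    · intro r hr s hs hrs
      simp only at hrs
      have hr' := (BadT_mem_V.mp hr).1
      have hs' := (BadT_mem_V.mp hs).1
      have hdvd : (q : ℤ) ∣ ((r : ℤ) - s) * c :=
        ⟨round ((r : ℝ) * c / q) - round ((s : ℝ) * c / q), by linarith⟩
      have hqp : Prime (q : ℤ) := Nat.prime_iff_prime_int.mp hq
      rcases hqp.dvd_or_dvd hdvd with h | h
      · have h0 : (r : ℤ) - s = 0 := by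
          apply Int.eq_zero_of_abs_lt_dvd h
          rw [abs_lt]
          constructor <;> omega
        omega
      · exact absurd (by exact_mod_cast h) hc
  have hcard2 : (Finset.Icc (-(M : ℤ)) (M : ℤ)).card = 2 * M + 1 := by
    rw [Int.card_Icc]
    omega
  rw [hcard2] at hcard
  have h3 : ((BadT_V P κ q c).card : ℝ) ≤ 2 * M + 1 := by exact_mod_cast hcard
  have h4 : (q : ℝ) ≤ 2 * P := by exact_mod_cast h2
  have h5 : κ * q ≤ κ * (2 * P) := mul_le_mul_of_nonneg_left h4 hκ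
  nlinarith

private theorem BadT_exists {k P : ℕ} {κ : ℝ} (hP : 1 ≤ P) (hκ : 0 ≤ κ) {p : Fin (k + 1) → ℕ}
    (h : p ∈ BadS (k + 1) P κ) : ∃ c : ℕ, c < 2 * P ∧ ¬ p 0 ∣ c ∧ ∀ j, p j ∈ BadT_V P κ (p 0) c := by
  obtain ⟨hp, hbad⟩ := mem_BadS.mp h
  unfold GoodT at hbad
  push Not at hbad
  obtain ⟨t, ht, hnz⟩ := hbad
  have hP0 : (0 : ℝ) < P := by exact_mod_cast hP
  have hq1 : P < p 0 := (hp 0).1
  have hq2 : p 0 ≤ 2 * P := (hp 0).2.1
  have hq0 : (0 : ℝ) < p 0 := by exact_mod_cast (hp 0).2.2.pos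
  have hPq : (P : ℝ) < p 0 := by exact_mod_cast hq1
  obtain ⟨c, hc⟩ := Pool.Agent.H53.MID.nz_exists ((p 0 : ℝ) * t)
  have hf : |(p 0 : ℝ) * t - c| ≤ κ := hc.le.trans (ht 0)
  have hnd : ¬ ((p 0 : ℕ) : ℤ) ∣ c := by
    rintro ⟨m, hm⟩
    have h1 : nz t ≤ |t - m| := Pool.Agent.H53.MID.nz_le_of t m
    have h2 : |t - m| * (p 0 : ℝ) ≤ κ := by
      rw [← abs_of_pos hq0, ← abs_mul]
      have : (t - m) * (p 0 : ℝ) = (p 0 : ℝ) * t - c := by
        rw [hm]; push_cast; ring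
      rw [this]; exact hf
    have h3 : |t - m| * (P : ℝ) ≤ κ :=
      (mul_le_mul_of_nonneg_left hPq.le (abs_nonneg _)).trans h2
    have h4 : nz t ≤ κ / P := by
      rw [le_div_iff₀ hP0]
      exact (mul_le_mul_of_nonneg_right h1 hP0.le).trans h3
    exact absurd hnz (not_lt.mpr h4)
  have hpos : (0 : ℤ) < ((p 0 : ℕ) : ℤ) := by exact_mod_cast (hp 0).2.2.pos
  obtain ⟨c', hc'⟩ : ∃ c' : ℕ, (c' : ℤ) = c % ((p 0 : ℕ) : ℤ) :=
    ⟨(c % ((p 0 : ℕ) : ℤ)).toNat, Int.toNat_of_nonneg (Int.emod_nonneg _ hpos.ne')⟩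
  have hlt : (c' : ℤ) < ((p 0 : ℕ) : ℤ) := hc' ▸ Int.emod_lt_of_pos _ hpos
  refine ⟨c', by omega, ?_, ?_⟩
  · intro hd
    apply hnd
    have : ((p 0 : ℕ) : ℤ) ∣ c % ((p 0 : ℕ) : ℤ) := by
      rw [← hc']; exact_mod_cast hd
    exact (Int.dvd_iff_dvd_of_dvd_sub (Int.dvd_self_sub_emod)).mpr this
  · intro j
    rw [BadT_mem_V]
    refine ⟨⟨(hp j).1, (hp j).2.1⟩, ?_⟩
    have hdec : (c : ℝ) = (p 0 : ℝ) * ((c / ((p 0 : ℕ) : ℤ) : ℤ) : ℝ) + (c' : ℝ) := by
      have : (c : ℤ) = ((p 0 : ℕ) : ℤ) * (c / ((p 0 : ℕ) : ℤ)) + (c' : ℤ) := by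
        rw [hc']; exact (Int.mul_ediv_add_emod c _).symm
      exact_mod_cast this
    have e : (p j : ℝ) * c' / p 0
        = ((p j : ℝ) * t - (p j : ℝ) / p 0 * ((p 0 : ℝ) * t - c))
          - (((p j : ℤ) * (c / ((p 0 : ℕ) : ℤ)) : ℤ) : ℝ) := by
      push_cast
      rw [show (c' : ℝ) = (c : ℝ) - (p 0 : ℝ) * ((c / ((p 0 : ℕ) : ℤ) : ℤ) : ℝ) by linarith]
      field_simp
      ring
    rw [e, Pool.Agent.H53.MID.nz_sub_int]
    refine (Pool.Agent.H53.MID.nz_sub _ _).trans ?_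
    have h1 := ht j
    have h2 : nz ((p j : ℝ) / p 0 * ((p 0 : ℝ) * t - c)) ≤ 2 * κ := by
      refine (Pool.Agent.H53.MID.nz_le_abs _).trans ?_
      rw [abs_mul, abs_of_nonneg (by positivity)]
      have h3 : (p j : ℝ) / p 0 ≤ 2 := by
        rw [div_le_iff₀ hq0]
        have : (p j : ℝ) ≤ 2 * P := by exact_mod_cast (hp j).2.1
        linarith
      exact mul_le_mul h3 hf (abs_nonneg _) (by norm_num)
    linarith

theorem badS_card (k P : ℕ) (κ : ℝ) (hP : 1 ≤ P) (hκ : 0 ≤ κ) (hκ1 : κ ≤ 1 / 10) :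
    ((BadS (k + 1) P κ).card : ℝ) ≤ 2 * P ^ 2 * (12 * κ * P + 1) ^ k := by
  classical
  set S : Finset (ℕ × ℕ) := (Ioc P (2 * P) ×ˢ range (2 * P)).filter
    (fun x => x.1.Prime ∧ ¬ x.1 ∣ x.2) with hS
  have hsub : BadS (k + 1) P κ ⊆ S.biUnion (fun x =>
      (Fintype.piFinset (fun _ : Fin k => BadT_V P κ x.1 x.2)).image
        (fun f => (Fin.cons x.1 f : Fin (k + 1) → ℕ))) := by
    intro p hpb
    obtain ⟨c, hc1, hc2, hc3⟩ := BadT_exists hP hκ hpb
    obtain ⟨hp, -⟩ := mem_BadS.mp hpb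
    rw [Finset.mem_biUnion]
    refine ⟨(p 0, c), ?_, ?_⟩
    · rw [hS, Finset.mem_filter, Finset.mem_product, Finset.mem_Ioc, Finset.mem_range]
      exact ⟨⟨⟨(hp 0).1, (hp 0).2.1⟩, hc1⟩, (hp 0).2.2, hc2⟩
    · rw [Finset.mem_image]
      refine ⟨fun j => p j.succ, ?_, ?_⟩
      · rw [Fintype.mem_piFinset]
        intro j
        exact hc3 j.succ
      · exact Fin.cons_self_tail p
  have hV0 : (0 : ℝ) ≤ 12 * κ * P + 1 := by positivity
  have hb : ∀ x ∈ S, ((((Fintype.piFinset (fun _ : Fin k => BadT_V P κ x.1 x.2)).image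
        (fun f => (Fin.cons x.1 f : Fin (k + 1) → ℕ))).card : ℕ) : ℝ) ≤ (12 * κ * P + 1) ^ k := by
    intro x hx
    rw [hS, Finset.mem_filter, Finset.mem_product, Finset.mem_Ioc] at hx
    have h1 := BadT_card_V (P := P) (κ := κ) hκ hx.2.1 hx.1.1.1 hx.1.1.2 hx.2.2
    have h2 : ((((Fintype.piFinset (fun _ : Fin k => BadT_V P κ x.1 x.2)).image
        (fun f => (Fin.cons x.1 f : Fin (k + 1) → ℕ))).card : ℕ) : ℝ)
        ≤ ((BadT_V P κ x.1 x.2).card : ℝ) ^ k := by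
      have h3 := Finset.card_image_le (s := Fintype.piFinset (fun _ : Fin k => BadT_V P κ x.1 x.2))
        (f := fun f => (Fin.cons x.1 f : Fin (k + 1) → ℕ))
      rw [Fintype.card_piFinset, Finset.prod_const, Finset.card_univ, Fintype.card_fin] at h3
      exact_mod_cast h3
    exact h2.trans (pow_le_pow_left₀ (by positivity) h1 k)
  have hScard : (S.card : ℝ) ≤ 2 * P ^ 2 := by
    have h1 : S.card ≤ (Ioc P (2 * P) ×ˢ range (2 * P)).card := Finset.card_filter_le _ _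
    rw [Finset.card_product, Nat.card_Ioc, Finset.card_range] at h1
    have h2 : S.card ≤ 2 * P ^ 2 := by
      calc S.card ≤ (2 * P - P) * (2 * P) := h1
        _ = 2 * P ^ 2 := by
          rw [show 2 * P - P = P by omega]; ring
    exact_mod_cast h2
  calc ((BadS (k + 1) P κ).card : ℝ)
      ≤ ((S.biUnion (fun x =>
      (Fintype.piFinset (fun _ : Fin k => BadT_V P κ x.1 x.2)).image
        (fun f => (Fin.cons x.1 f : Fin (k + 1) → ℕ)))).card : ℝ) := by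
        exact_mod_cast Finset.card_le_card hsub
    _ ≤ ∑ x ∈ S, ((((Fintype.piFinset (fun _ : Fin k => BadT_V P κ x.1 x.2)).image
        (fun f => (Fin.cons x.1 f : Fin (k + 1) → ℕ))).card : ℕ) : ℝ) := by
        exact_mod_cast Finset.card_biUnion_le
    _ ≤ ∑ _x ∈ S, (12 * κ * P + 1) ^ k := Finset.sum_le_sum hb
    _ = S.card * (12 * κ * P + 1) ^ k := by rw [Finset.sum_const, nsmul_eq_mul]
    _ ≤ 2 * P ^ 2 * (12 * κ * P + 1) ^ k := mul_le_mul_of_nonneg_right hScard (by positivity)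

end Pool.Agent.H53.TPS

end

section

/-!
# TPS Tup: a tuple with many common neighbours outside a small exceptional set

Proof.  `deg u = #{v ∈ V : (v, u) ∈ E}`, `∑_{u ∈ V} deg u = |E| ≥ δ P^2`.  Power mean (`inner_le_nnorm_mul_nnorm`, or `Finset.inner_mul_le..`: `inner_le`; in Mathlib `Real.inner_le_nnorm_mul_nnorm`, `inv_mul_sum_pow_le`/`Finset.pow_sum_div_card_le_sum_pow`):
`∑_u deg(u)^k ≥ |E|^k/|V|^(k-1) ≥ δ^k P^(k+1)/b^(k-1)` (`|V| ≤ b P`; `|V| ≥ 1` since `E` is nonempty).  `∑_u deg(u)^k = ∑_{v : Fin k → V} codeg(v)`, `codeg v = #{u ∈ V : ∀ j, (v j, u) ∈ E}` (expand: `Finset.sum_pow'`/`Finset.prod_univ_sum`, or count the pairs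
`(u, v)`: `Fintype.card_piFinset`).  The tuples with `pr ∘ v ∈ Bad` are at most `|Bad| b^k` (`hfib`), each with `codeg ≤ |V| ≤ b P`: contribution `≤ |Bad| b^(k+1) P ≤ δ^k P^(k+1)/(2 b^(k-1))` by `hBad`.  The others are at most `|V|^k ≤ (b P)^k`
and contribute `≥ δ^k P^(k+1)/(2 b^(k-1))`: one of them has `codeg ≥ δ^k P/(2 b^(2k-1)) ≥ δ^k P/(2 b^(2k))`.
-/

set_option autoImplicit false

namespace Pool.Agent.H53.TPS

open Finset

private theorem Tup_expand {ι : Type*} [DecidableEq ι] (k : ℕ) (V : Finset ι) (E : Finset (ι × ι)) :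
    ∑ u ∈ V, ((V.filter (fun w => (w, u) ∈ E)).card : ℝ) ^ k
      = ∑ v ∈ Fintype.piFinset (fun _ : Fin k => V),
          ((V.filter (fun u => ∀ j, (v j, u) ∈ E)).card : ℝ) := by
  have h1 : ∀ u ∈ V, ((V.filter (fun w => (w, u) ∈ E)).card : ℝ) ^ k
      = ∑ v ∈ Fintype.piFinset (fun _ : Fin k => V), ∏ j, (if (v j, u) ∈ E then (1 : ℝ) else 0) := by
    intro u _
    have e1 : ((V.filter (fun w => (w, u) ∈ E)).card : ℝ)
        = ∑ w ∈ V, (if (w, u) ∈ E then (1 : ℝ) else 0) := by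
      rw [Finset.card_filter]
      push_cast
      rfl
    rw [e1, Finset.sum_pow']
  rw [Finset.sum_congr rfl h1, Finset.sum_comm]
  refine Finset.sum_congr rfl (fun v _ => ?_)
  rw [Finset.card_filter]
  push_cast
  refine Finset.sum_congr rfl (fun u _ => ?_)
  by_cases h : ∀ j, (v j, u) ∈ E
  · rw [if_pos h]
    exact Finset.prod_eq_one (fun j _ => if_pos (h j))
  · rw [if_neg h]
    push Not at h
    obtain ⟨j, hj⟩ := h
    exact Finset.prod_eq_zero (Finset.mem_univ j) (if_neg hj)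

private theorem Tup_deg {ι : Type*} [DecidableEq ι] (V : Finset ι) (E : Finset (ι × ι)) (hE : E ⊆ V ×ˢ V) :
    ∑ u ∈ V, ((V.filter (fun w => (w, u) ∈ E)).card : ℝ) = (E.card : ℝ) := by
  have h1 : ∀ u ∈ V, ((V.filter (fun w => (w, u) ∈ E)).card : ℝ)
      = ∑ w ∈ V, (if (w, u) ∈ E then (1 : ℝ) else 0) := by
    intro u _
    rw [Finset.card_filter]
    push_cast
    rfl
  rw [Finset.sum_congr rfl h1, Finset.sum_comm, ← Finset.sum_product', ← Finset.sum_filter]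
  have h2 : (V ×ˢ V).filter (fun x : ι × ι => (x.1, x.2) ∈ E) = E := by
    ext x
    simp only [Finset.mem_filter]
    exact ⟨fun h => h.2, fun h => ⟨hE h, h⟩⟩
  rw [h2]
  simp

private theorem Tup_bad {ι : Type*} [DecidableEq ι] (k : ℕ) (V : Finset ι) (pr : ι → ℕ)
    (Bad : Finset (Fin k → ℕ)) (b : ℝ)
    (hfib : ∀ p : ℕ, ((V.filter (fun u => pr u = p)).card : ℝ) ≤ b) :
    (((Fintype.piFinset (fun _ : Fin k => V)).filter (fun v => (fun j => pr (v j)) ∈ Bad)).card : ℝ)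
      ≤ Bad.card * b ^ k := by
  have h1 : ((Fintype.piFinset (fun _ : Fin k => V)).filter (fun v => (fun j => pr (v j)) ∈ Bad)).card
      ≤ ∑ q ∈ Bad, (Fintype.piFinset (fun j : Fin k => V.filter (fun u => pr u = q j))).card := by
    refine (Finset.card_le_card ?_).trans Finset.card_biUnion_le
    intro v hv
    rw [Finset.mem_filter, Fintype.mem_piFinset] at hv
    rw [Finset.mem_biUnion]
    refine ⟨fun j => pr (v j), hv.2, ?_⟩
    rw [Fintype.mem_piFinset]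
    intro j
    rw [Finset.mem_filter]
    exact ⟨hv.1 j, rfl⟩
  have h2 : ∀ q ∈ Bad, ((Fintype.piFinset (fun j : Fin k => V.filter (fun u => pr u = q j))).card : ℝ)
      ≤ b ^ k := by
    intro q _
    rw [Fintype.card_piFinset]
    push_cast
    calc ∏ j : Fin k, ((V.filter (fun u => pr u = q j)).card : ℝ)
        ≤ ∏ _j : Fin k, b := Finset.prod_le_prod (fun _ _ => Nat.cast_nonneg _) (fun j _ => hfib (q j))
      _ = b ^ k := by rw [Finset.prod_const, Finset.card_univ, Fintype.card_fin]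
  calc (((Fintype.piFinset (fun _ : Fin k => V)).filter (fun v => (fun j => pr (v j)) ∈ Bad)).card : ℝ)
      ≤ ((∑ q ∈ Bad, (Fintype.piFinset (fun j : Fin k => V.filter (fun u => pr u = q j))).card : ℕ) : ℝ) := by
        exact_mod_cast h1
    _ = ∑ q ∈ Bad, ((Fintype.piFinset (fun j : Fin k => V.filter (fun u => pr u = q j))).card : ℝ) := by
        push_cast
        rfl
    _ ≤ ∑ _q ∈ Bad, b ^ k := Finset.sum_le_sum h2
    _ = Bad.card * b ^ k := by rw [Finset.sum_const, nsmul_eq_mul]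

theorem tup {ι : Type*} [DecidableEq ι] (k : ℕ) (hk : 1 ≤ k) (V : Finset ι) (pr : ι → ℕ) (E : Finset (ι × ι))
    (Bad : Finset (Fin k → ℕ)) (b P δ : ℝ) (hb : 1 ≤ b) (hP : 0 < P) (hδ : 0 < δ) (hV : (V.card : ℝ) ≤ b * P)
    (hfib : ∀ p : ℕ, ((V.filter (fun u => pr u = p)).card : ℝ) ≤ b) (hE : E ⊆ V ×ˢ V) (hcard : δ * P ^ 2 ≤ E.card)
    (hBad : 2 * b ^ (2 * k) * (Bad.card : ℝ) ≤ δ ^ k * P ^ k) :
    ∃ v : Fin k → ι, (∀ j, v j ∈ V) ∧ (fun j => pr (v j)) ∉ Bad ∧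
      δ ^ k * P ≤ 2 * b ^ (2 * k) * ((V.filter (fun u => ∀ j, (v j, u) ∈ E)).card : ℝ) := by
  classical
  obtain ⟨m, rfl⟩ : ∃ m, k = m + 1 := ⟨k - 1, by omega⟩
  have hb0 : 0 < b := lt_of_lt_of_le one_pos hb
  have hE0 : 0 < (E.card : ℝ) := lt_of_lt_of_le (by positivity) hcard
  have hVne : V.Nonempty := by
    have hEne : E.Nonempty := by
      rw [← Finset.card_pos]
      exact_mod_cast hE0
    obtain ⟨x, hx⟩ := hEne
    exact ⟨x.1, (Finset.mem_product.mp (hE hx)).1⟩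
  have hV0 : 0 < (V.card : ℝ) := by
    have := hVne.card_pos
    exact_mod_cast this
  by_contra hcon
  push Not at hcon
  set W : Finset (Fin (m + 1) → ι) := Fintype.piFinset (fun _ : Fin (m + 1) => V) with hW
  set cd : (Fin (m + 1) → ι) → ℝ := fun v => ((V.filter (fun u => ∀ j, (v j, u) ∈ E)).card : ℝ) with hcd
  -- lower bound
  have hlow : δ ^ (m + 1) * P ^ (m + 2) / b ^ m ≤ ∑ v ∈ W, cd v := by
    have h1 := pow_sum_div_card_le_sum_pow (s := V) (f := fun u => ((V.filter (fun w => (w, u) ∈ E)).card : ℝ))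
      (fun u _ => Nat.cast_nonneg _) m
    rw [Tup_deg V E hE, Tup_expand (m + 1) V E] at h1
    refine le_trans ?_ h1
    rw [div_le_div_iff₀ (by positivity) (by positivity)]
    calc δ ^ (m + 1) * P ^ (m + 2) * (V.card : ℝ) ^ m
        ≤ δ ^ (m + 1) * P ^ (m + 2) * (b * P) ^ m := by
          apply mul_le_mul_of_nonneg_left _ (by positivity)
          exact pow_le_pow_left₀ hV0.le hV m
      _ = (δ * P ^ 2) ^ (m + 1) * b ^ m := by ring
      _ ≤ (E.card : ℝ) ^ (m + 1) * b ^ m := by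
          apply mul_le_mul_of_nonneg_right _ (by positivity)
          exact pow_le_pow_left₀ (by positivity) hcard (m + 1)
  -- upper bound
  have hsplit := Finset.sum_filter_add_sum_filter_not W (fun v => (fun j => pr (v j)) ∈ Bad) cd
  have hB : ∑ v ∈ W.filter (fun v => (fun j => pr (v j)) ∈ Bad), cd v
      ≤ (Bad.card * b ^ (m + 1)) * (b * P) := by
    calc ∑ v ∈ W.filter (fun v => (fun j => pr (v j)) ∈ Bad), cd v
        ≤ ∑ _v ∈ W.filter (fun v => (fun j => pr (v j)) ∈ Bad), b * P := by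
          refine Finset.sum_le_sum (fun v _ => ?_)
          refine le_trans ?_ hV
          have h9 : (V.filter (fun u => ∀ j, (v j, u) ∈ E)).card ≤ V.card :=
            Finset.card_le_card (Finset.filter_subset _ _)
          exact Nat.cast_le.mpr h9
      _ = ((W.filter (fun v => (fun j => pr (v j)) ∈ Bad)).card : ℝ) * (b * P) := by
          rw [Finset.sum_const, nsmul_eq_mul]
      _ ≤ (Bad.card * b ^ (m + 1)) * (b * P) := by
          apply mul_le_mul_of_nonneg_right _ (by positivity)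
          exact Tup_bad (m + 1) V pr Bad b hfib
  have hWc : (W.card : ℝ) ≤ (b * P) ^ (m + 1) := by
    rw [hW, Fintype.card_piFinset]
    push_cast
    rw [Finset.prod_const, Finset.card_univ, Fintype.card_fin]
    exact pow_le_pow_left₀ hV0.le hV (m + 1)
  have hG : 2 * b ^ (2 * (m + 1)) * ∑ v ∈ W.filter (fun v => ¬ (fun j => pr (v j)) ∈ Bad), cd v
      < (b * P) ^ (m + 1) * (δ ^ (m + 1) * P) := by
    rcases (W.filter (fun v => ¬ (fun j => pr (v j)) ∈ Bad)).eq_empty_or_nonempty with h0 | h0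
    · rw [h0, Finset.sum_empty, mul_zero]
      positivity
    · rw [Finset.mul_sum]
      have h1 : ∑ v ∈ W.filter (fun v => ¬ (fun j => pr (v j)) ∈ Bad), 2 * b ^ (2 * (m + 1)) * cd v
          < ∑ _v ∈ W.filter (fun v => ¬ (fun j => pr (v j)) ∈ Bad), δ ^ (m + 1) * P := by
        refine Finset.sum_lt_sum_of_nonempty h0 (fun v hv => ?_)
        rw [Finset.mem_filter, hW, Fintype.mem_piFinset] at hv
        exact hcon v hv.1 hv.2
      refine lt_of_lt_of_le h1 ?_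
      rw [Finset.sum_const, nsmul_eq_mul]
      apply mul_le_mul_of_nonneg_right _ (by positivity)
      refine le_trans ?_ hWc
      exact_mod_cast Finset.card_le_card (Finset.filter_subset _ _)
  have hbp : (1 : ℝ) ≤ b ^ (m + 1) := one_le_pow₀ hb
  have hbm : (0 : ℝ) < b ^ m := by positivity
  -- multiply by 2 b^(2(m+1))
  have hA : 2 * b ^ (2 * (m + 1)) * (δ ^ (m + 1) * P ^ (m + 2) / b ^ m)
      = 2 * b ^ (m + 2) * (δ ^ (m + 1) * P ^ (m + 2)) := by
    rw [mul_div_assoc', div_eq_iff hbm.ne']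
    ring
  have hBB : 2 * b ^ (2 * (m + 1)) * ((Bad.card * b ^ (m + 1)) * (b * P))
      ≤ b ^ (m + 2) * (δ ^ (m + 1) * P ^ (m + 2)) := by
    calc 2 * b ^ (2 * (m + 1)) * ((Bad.card * b ^ (m + 1)) * (b * P))
        = (2 * b ^ (2 * (m + 1)) * (Bad.card : ℝ)) * (b ^ (m + 2) * P) := by ring
      _ ≤ (δ ^ (m + 1) * P ^ (m + 1)) * (b ^ (m + 2) * P) := by
          apply mul_le_mul_of_nonneg_right hBad (by positivity)
      _ = b ^ (m + 2) * (δ ^ (m + 1) * P ^ (m + 2)) := by ring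
  have hGG : (b * P) ^ (m + 1) * (δ ^ (m + 1) * P) ≤ b ^ (m + 2) * (δ ^ (m + 1) * P ^ (m + 2)) := by
    calc (b * P) ^ (m + 1) * (δ ^ (m + 1) * P)
        = b ^ (m + 1) * (δ ^ (m + 1) * P ^ (m + 2)) := by ring
      _ ≤ b ^ (m + 2) * (δ ^ (m + 1) * P ^ (m + 2)) := by
          apply mul_le_mul_of_nonneg_right _ (by positivity)
          exact pow_le_pow_right₀ hb (by omega)
  have hfin : 2 * b ^ (2 * (m + 1)) * (δ ^ (m + 1) * P ^ (m + 2) / b ^ m)
      ≤ 2 * b ^ (2 * (m + 1)) * ∑ v ∈ W, cd v :=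
    mul_le_mul_of_nonneg_left hlow (by positivity)
  rw [hA, ← hsplit, mul_add] at hfin
  have hB2 : 2 * b ^ (2 * (m + 1)) * ∑ v ∈ W.filter (fun v => (fun j => pr (v j)) ∈ Bad), cd v
      ≤ 2 * b ^ (2 * (m + 1)) * ((Bad.card * b ^ (m + 1)) * (b * P)) :=
    mul_le_mul_of_nonneg_left hB (by positivity)
  linarith

end Pool.Agent.H53.TPS

end

section

/-!
# TPS HU: stability of approximately additive functions, and multiples of a frequency

`hu`: `g m = e m - m (e M/M)`: `g M = 0`, `|g (m + m') - g m - g m'| ≤ ε` for `m + m' ≤ M`.  Let `G = max_{m ≤ M} |g m|`, attained at `m₀`.  If `2 m₀ ≤ M`: `|g (2 m₀)| ≥ 2 G - ε`, so `2 G - ε ≤ G`.  If `2 m₀ > M`: `m₁ = M - m₀`, `2 m₁ ≤ M`,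
`|g m₁| ≥ |g m₀| - |g M| - ε = G - ε`, `|g (2 m₁)| ≥ 2 (G - ε) - ε`, so `2 G - 3 ε ≤ G`.  In all cases `G ≤ 3 ε`.  (`ε ≥ 0`: take `m = m' = 0`... `|e 0| ≤ ε`.)
`nz_mult`: let `n0 = round t`, `s = t - n0`, `|s| = nz t ≤ κ < 1/4` (`m = 1`).  Induction on `m ≤ M`: `m |s| ≤ κ`: if `(m-1) |s| ≤ κ` then `m |s| ≤ 2 κ < 1/2`, so `m |s| = |m s| = nz (m s) = nz (m t) ≤ κ` (`nz_eq_abs`, `nz_add_int`).
`good_mono`: `nz (p_j t) ≤ κ' ≤ κ` gives `nz t ≤ κ/P`; `t = n0 + s`, `|s| ≤ κ/P`, `|p_j s| ≤ 2 κ < 1/2`, so `p_j |s| = nz (p_j t) ≤ κ'`, `|s| ≤ κ'/p_j ≤ κ'/P`.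
-/

set_option autoImplicit false

namespace Pool.Agent.H53.TPS

open Finset
open Pool.Agent.H53.MID (nz)

private theorem HU_split (t : ℝ) (m : ℕ) : nz (m * t) = nz (m * (t - round t)) := by
  have h := Pool.Agent.H53.MID.nz_add_int ((m : ℝ) * (t - round t)) (m * round t)
  rw [← h]
  congr 1
  push_cast
  ring

theorem hu (M : ℕ) (hM : 1 ≤ M) (e : ℕ → ℝ) (ε : ℝ) (h : ∀ m m' : ℕ, m + m' ≤ M → |e (m + m') - e m - e m'| ≤ ε) :
    ∀ m ≤ M, |e m - m * (e M / M)| ≤ 3 * ε := by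
  have hM0 : (M : ℝ) ≠ 0 := by
    have : (1 : ℝ) ≤ M := by exact_mod_cast hM
    linarith
  have hε : 0 ≤ ε := (abs_nonneg _).trans (h 0 0 (Nat.zero_le _))
  set g : ℕ → ℝ := fun m => e m - m * (e M / M) with hg
  have hgM : g M = 0 := by
    simp only [hg]
    field_simp
    ring
  have hadd : ∀ m m' : ℕ, m + m' ≤ M → |g (m + m') - g m - g m'| ≤ ε := by
    intro m m' hm
    have h1 : g (m + m') - g m - g m' = e (m + m') - e m - e m' := by
      simp only [hg]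
      push_cast
      ring
    rw [h1]
    exact h m m' hm
  obtain ⟨m₀, hm₀, hmax⟩ := Finset.exists_max_image (Finset.range (M + 1)) (fun m => |g m|)
    ⟨0, Finset.mem_range.2 (Nat.succ_pos M)⟩
  have hm₀' : m₀ ≤ M := Nat.lt_succ_iff.1 (Finset.mem_range.1 hm₀)
  have hmax' : ∀ m ≤ M, |g m| ≤ |g m₀| := fun m hm =>
    hmax m (Finset.mem_range.2 (Nat.lt_succ_iff.2 hm))
  have key : |g m₀| ≤ 3 * ε := by
    by_cases h2 : m₀ + m₀ ≤ M
    · have h3 := hadd m₀ m₀ h2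
      have h4 := hmax' _ h2
      have h5 : 2 * |g m₀| ≤ |g (m₀ + m₀)| + |g (m₀ + m₀) - g m₀ - g m₀| := by
        have h6 : 2 * |g m₀| = |g (m₀ + m₀) - (g (m₀ + m₀) - g m₀ - g m₀)| := by
          rw [← abs_two, ← abs_mul]
          congr 1
          ring
        rw [h6]
        exact abs_sub _ _
      linarith
    · obtain ⟨m₁, hm₁⟩ : ∃ m₁, m₀ + m₁ = M := ⟨M - m₀, by omega⟩
      have h3 := hadd m₀ m₁ hm₁.le
      rw [hm₁, hgM] at h3
      have h4 : m₁ + m₁ ≤ M := by omega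
      have h5 := hadd m₁ m₁ h4
      have h6 := hmax' _ h4
      have h7 : |g m₀| ≤ |g m₁| + |0 - g m₀ - g m₁| := by
        have h8 : |g m₀| = |-(g m₁) - (0 - g m₀ - g m₁)| := by
          congr 1
          ring
        rw [h8]
        refine (abs_sub _ _).trans ?_
        rw [abs_neg]
      have h9 : 2 * |g m₁| ≤ |g (m₁ + m₁)| + |g (m₁ + m₁) - g m₁ - g m₁| := by
        have h10 : 2 * |g m₁| = |g (m₁ + m₁) - (g (m₁ + m₁) - g m₁ - g m₁)| := by
          rw [← abs_two, ← abs_mul]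
          congr 1
          ring
        rw [h10]
        exact abs_sub _ _
      linarith
  intro m hm
  exact (hmax' m hm).trans key

theorem nz_mult (M : ℕ) (hM : 1 ≤ M) (t κ : ℝ) (hκ : κ < 1 / 4) (h : ∀ m : ℕ, 1 ≤ m → m ≤ M → nz (m * t) ≤ κ) :
    M * nz t ≤ κ := by
  have h1 : nz t ≤ κ := by
    have := h 1 le_rfl hM
    rwa [Nat.cast_one, one_mul] at this
  have key : ∀ m : ℕ, 1 ≤ m → m ≤ M → (m : ℝ) * nz t ≤ κ := by
    intro m hm
    induction m, hm using Nat.le_induction with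
    | base => intro _; rwa [Nat.cast_one, one_mul]
    | succ m hm ih =>
      intro hmM
      have h2 := ih (by omega)
      have h3 := h (m + 1) (by omega) hmM
      rw [HU_split] at h3
      have h4 : |((m + 1 : ℕ) : ℝ) * (t - round t)| = ((m + 1 : ℕ) : ℝ) * nz t := by
        rw [abs_mul, Nat.abs_cast]
        rfl
      have h5 : ((m + 1 : ℕ) : ℝ) * nz t < 1 / 2 := by
        push_cast
        linarith
      rw [Pool.Agent.H53.MID.nz_eq_abs _ (by rw [h4]; exact h5), h4] at h3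
      exact h3
  exact key M hM le_rfl

theorem good_mono {k : ℕ} (hk : 1 ≤ k) (P : ℕ) (hP : 1 ≤ P) (p : Fin k → ℕ) (hp : ∀ j, P < p j ∧ p j ≤ 2 * P) (κ κ' : ℝ)
    (hκ : κ < 1 / 4) (hκ' : κ' ≤ κ) (h : GoodT P κ p) : GoodT P κ' p := by
  intro t ht
  have h1 : nz t ≤ κ / P := h t fun j => (ht j).trans hκ'
  have hP0 : (0 : ℝ) < P := by exact_mod_cast hP
  have hj := ht ⟨0, hk⟩
  obtain ⟨hp1, hp2⟩ := hp ⟨0, hk⟩
  set q := p ⟨0, hk⟩ with hq
  have hq1 : (P : ℝ) ≤ q := by exact_mod_cast hp1.le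
  have hq2 : (q : ℝ) ≤ 2 * P := by exact_mod_cast hp2
  have hn := Pool.Agent.H53.MID.nz_nonneg t
  rw [HU_split] at hj
  have h4 : |(q : ℝ) * (t - round t)| = q * nz t := by
    rw [abs_mul, Nat.abs_cast]
    rfl
  have h5 : (q : ℝ) * nz t < 1 / 2 := by
    have h6 : (P : ℝ) * nz t ≤ κ := by
      rw [le_div_iff₀ hP0] at h1
      linarith
    have h7 : (q : ℝ) * nz t ≤ 2 * P * nz t := mul_le_mul_of_nonneg_right hq2 hn
    linarith
  rw [Pool.Agent.H53.MID.nz_eq_abs _ (by rw [h4]; exact h5), h4] at hj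
  rw [le_div_iff₀ hP0]
  have h8 : (P : ℝ) * nz t ≤ q * nz t := mul_le_mul_of_nonneg_right hq1 hn
  linarith

end Pool.Agent.H53.TPS

end

section

/-!
# TPS Sumset: multiples of a small difference are short sums of differences

`Pr h κ` is any predicate closed under addition (`ha`), monotone in `κ` (`hm`) and true for the differences (`hd`).
Proof.  (1) `δ P ≥ 8`, so `|RR| ≥ 2`, and two elements `r < r'` of `RR ⊆ (P, 2P]` have `q := r' - r ≤ (P - 1)/(|RR| - 1) ≤ 2/δ`.  So `Pr q e0`, `Pr (-q) e0`.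
(2) Let `X` be a set of largest cardinality of multiples `x ≤ P` of `q` such that the sets `x + RR` (`x ∈ X`) are pairwise disjoint; all `x + RR ⊆ (P, 3P]`, so `|X| δ P ≤ 2 P`, `|X| ≤ 2/δ`.  By maximality every `y = m q ≤ P` has
`y + r = x + r'` for some `x ∈ X`, `r, r' ∈ RR` (otherwise `X ∪ {y}`; if `y ∈ X` take `r = r'`): choose `c m := x`; `y - x = r' - r`.
(3) For `m` with `(m+1) q ≤ P`: `c (m+1) - c m = (m+1) q - (r₁' - r₁) - m q + (r₂' - r₂) = q + (r₁ - r₁') + (r₂' - r₂)`: `Pr (c (m+1) - c m) (3 e0)`, and in the same way `Pr (c m - c (m+1)) (3 e0)`.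
So the relation `x ~ x'` (`x ≠ x'` and both `Pr (x' - x) (3 e0)`, `Pr (x - x') (3 e0)`) defines a graph on `X` in which `c m` is reachable from `c 0`; a path has at most `|X| - 1` steps (`SimpleGraph.Walk.toPath`, `SimpleGraph.Walk.IsPath.length_lt`), so
`Pr (c m - c 0) (3 (|X| - 1) e0)` (if `c m ≠ c 0`).
(4) `c 0 = 0 - (difference)`, `m q = (m q - c m) + (c m - c 0) + c 0`: `Pr (m q) ((3 (|X| - 1) + 2) e0)`, and `3 |X| ≤ 6/δ`, so `≤ 8/δ e0` (`hm`, `0 ≤ e0`).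
-/

set_option autoImplicit false

namespace Pool.Agent.H53.TPS

open Finset

/-- two elements of `RR` with a small difference -/
private theorem Sumset_gap (P : ℕ) (δ : ℝ) (RR : Finset ℕ) (hδ : 0 < δ)
    (hRR : ∀ r ∈ RR, P < r ∧ r ≤ 2 * P) (hc : δ * P ≤ RR.card) (hP : 8 ≤ δ * P) :
    ∃ r ∈ RR, ∃ r' ∈ RR, r < r' ∧ ((r' - r : ℕ) : ℝ) * δ ≤ 2 := by
  by_contra hcon
  push Not at hcon
  obtain ⟨K, hK⟩ : ∃ K : ℕ, K = ⌊2 / δ⌋₊ := ⟨_, rfl⟩
  have hK1 : (2 : ℝ) / δ < K + 1 := by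
    rw [hK]
    exact Nat.lt_floor_add_one _
  have hK2 : (K : ℝ) ≤ 2 / δ := by
    rw [hK]
    exact Nat.floor_le (by positivity)
  have hmono : ∀ r ∈ RR, ∀ r' ∈ RR, r < r' → (r - P - 1) / (K + 1) < (r' - P - 1) / (K + 1) := by
    intro r hr r' hr' h
    have h1 := hcon r hr r' hr' h
    have h2 : K + 1 ≤ r' - r := by
      have h3 : (K : ℝ) < ((r' - r : ℕ) : ℝ) := by
        refine lt_of_le_of_lt hK2 ?_
        rw [div_lt_iff₀ hδ]
        exact h1
      have h4 : K < r' - r := by exact_mod_cast h3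
      omega
    have h5 : r - P - 1 + (K + 1) ≤ r' - P - 1 := by
      have := (hRR r hr).1
      omega
    have h6 : (r - P - 1 + (K + 1)) / (K + 1) ≤ (r' - P - 1) / (K + 1) :=
      Nat.div_le_div_right h5
    rw [Nat.add_div_right _ (show 0 < K + 1 by omega)] at h6
    omega
  have hinj : Set.InjOn (fun r : ℕ => (r - P - 1) / (K + 1)) (RR : Set ℕ) := by
    intro r hr r' hr' he
    by_contra hne
    rcases lt_or_gt_of_ne hne with h | h
    · exact absurd he (ne_of_lt (hmono r hr r' hr' h))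
    · exact absurd he (ne_of_gt (hmono r' hr' r hr h))
  have hmap : ∀ r ∈ RR, (fun r : ℕ => (r - P - 1) / (K + 1)) r ∈ range (P / (K + 1) + 1) := by
    intro r hr
    rw [mem_range, Nat.lt_succ_iff]
    apply Nat.div_le_div_right
    have := hRR r hr
    omega
  have hcard := card_le_card_of_injOn _ hmap hinj
  rw [card_range] at hcard
  have h7 : ((P / (K + 1) : ℕ) : ℝ) ≤ P / ((K : ℝ) + 1) := by
    have := @Nat.cast_div_le ℝ _ _ _ P (K + 1)
    push_cast at this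
    exact this
  have h8 : (P : ℝ) / ((K : ℝ) + 1) ≤ P * δ / 2 := by
    rw [div_le_div_iff₀ (by positivity) (by norm_num)]
    have h9 : 2 ≤ δ * ((K : ℝ) + 1) := by
      rw [div_lt_iff₀ hδ] at hK1
      linarith
    have hP0 : (0 : ℝ) ≤ P := Nat.cast_nonneg P
    nlinarith [mul_le_mul_of_nonneg_left h9 hP0]
  have h10 : (RR.card : ℝ) ≤ ((P / (K + 1) : ℕ) : ℝ) + 1 := by exact_mod_cast hcard
  nlinarith

/-- a maximal family of disjoint translates -/
private theorem Sumset_max (P q : ℕ) (RR : Finset ℕ) (hne : RR.Nonempty)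
    (hRR : ∀ r ∈ RR, P < r ∧ r ≤ 2 * P) :
    ∃ X : Finset ℕ, X.card * RR.card ≤ 2 * P ∧ ∀ y : ℕ, y ≤ P → q ∣ y →
      ∃ x ∈ X, ∃ r ∈ RR, ∃ r' ∈ RR, y + r = x + r' := by
  classical
  obtain ⟨F, hF⟩ : ∃ F : Finset (Finset ℕ), F = ((range (P + 1)).powerset).filter fun X =>
      ∀ x ∈ X, ∀ y ∈ X, x ≠ y → Disjoint (RR.image (x + ·)) (RR.image (y + ·)) := ⟨_, rfl⟩
  have hFne : F.Nonempty := by
    refine ⟨∅, ?_⟩
    rw [hF, mem_filter, mem_powerset]
    exact ⟨empty_subset _, by simp⟩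
  obtain ⟨X, hX, hmax⟩ := exists_max_image F card hFne
  have hX' := hX
  rw [hF, mem_filter, mem_powerset] at hX
  obtain ⟨hXP, hXd⟩ := hX
  refine ⟨X, ?_, ?_⟩
  · have h1 : (X.biUnion fun x => RR.image (x + ·)).card = X.card * RR.card := by
      rw [card_biUnion]
      · rw [sum_congr rfl (fun x _ => card_image_of_injective RR (add_right_injective x)),
          sum_const, smul_eq_mul]
      · intro x hx y hy hxy
        exact hXd x hx y hy hxy
    have h2 : (X.biUnion fun x => RR.image (x + ·)) ⊆ Ioc P (3 * P) := by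
      intro z hz
      rw [mem_biUnion] at hz
      obtain ⟨x, hx, hz⟩ := hz
      rw [mem_image] at hz
      obtain ⟨r, hr, rfl⟩ := hz
      have h3 := mem_range.1 (hXP hx)
      have h4 := hRR r hr
      rw [mem_Ioc]
      omega
    have h3 := card_le_card h2
    rw [h1, Nat.card_Ioc] at h3
    omega
  · intro y hy _
    by_contra hcon
    push Not at hcon
    obtain ⟨r0, hr0⟩ := hne
    have hyX : y ∉ X := fun h => hcon y h r0 hr0 r0 hr0 rfl
    have hdis : ∀ x ∈ X, Disjoint (RR.image (y + ·)) (RR.image (x + ·)) := by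
      intro x hx
      rw [disjoint_left]
      intro z hz hz'
      rw [mem_image] at hz hz'
      obtain ⟨r, hr, h1⟩ := hz
      obtain ⟨r', hr', h2⟩ := hz'
      exact hcon x hx r hr r' hr' (h1.trans h2.symm)
    have hins : insert y X ∈ F := by
      rw [hF, mem_filter, mem_powerset]
      refine ⟨?_, ?_⟩
      · rw [insert_subset_iff]
        exact ⟨mem_range.2 (by omega), hXP⟩
      · intro x hx x' hx' hxx
        rw [mem_insert] at hx hx'
        rcases hx with rfl | hx <;> rcases hx' with rfl | hx'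
        · exact absurd rfl hxx
        · exact hdis x' hx'
        · exact (hdis x hx).symm
        · exact hXd x hx x' hx' hxx
    have h1 := hmax _ hins
    rw [card_insert_of_notMem hyX] at h1
    omega

/-- the path in the graph: loop erasure -/
private theorem Sumset_chain (e0 : ℝ) (Pr : ℤ → ℝ → Prop) (he0 : 0 ≤ e0)
    (ha : ∀ h h' : ℤ, ∀ κ κ' : ℝ, Pr h κ → Pr h' κ' → Pr (h + h') (κ + κ'))
    (hm : ∀ h : ℤ, ∀ κ κ' : ℝ, κ ≤ κ' → Pr h κ → Pr h κ') (h0 : Pr 0 e0) (c : ℕ → ℕ) (m : ℕ)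
    (hs : ∀ i < m, Pr ((c (i + 1) : ℤ) - c i) (3 * e0)) :
    ∀ (n : ℕ) (X : Finset ℕ), X.card ≤ n → ∀ j ≤ m, (∀ i, j ≤ i → i ≤ m → c i ∈ X) →
      Pr ((c m : ℤ) - c j) (3 * n * e0 - 2 * e0) := by
  classical
  intro n
  induction n with
  | zero =>
    intro X hX j hj h
    have h1 := h j le_rfl hj
    have h2 : X = ∅ := card_eq_zero.1 (Nat.le_zero.1 hX)
    rw [h2] at h1
    exact absurd h1 (notMem_empty _)
  | succ n ih =>
    intro X hX j hj h
    have hne : ((Icc j m).filter fun i => c i = c j).Nonempty :=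
      ⟨j, mem_filter.2 ⟨mem_Icc.2 ⟨le_rfl, hj⟩, rfl⟩⟩
    obtain ⟨i, hi, hmax⟩ := exists_max_image _ id hne
    rw [mem_filter, mem_Icc] at hi
    obtain ⟨⟨hji, him⟩, hcij⟩ := hi
    rcases him.eq_or_lt with rfl | him
    · rw [hcij, sub_self]
      refine hm 0 e0 _ ?_ h0
      push_cast
      have : (0 : ℝ) ≤ n * e0 := by positivity
      nlinarith
    · have h1 : (X.erase (c j)).card ≤ n := by
        rw [card_erase_of_mem (h j le_rfl hj)]
        omega
      have h2 := ih (X.erase (c j)) h1 (i + 1) him (by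
        intro i' h3 h4
        rw [mem_erase]
        refine ⟨fun h5 => ?_, h i' (by omega) h4⟩
        have h6 := hmax i' (mem_filter.2 ⟨mem_Icc.2 ⟨by omega, h4⟩, h5⟩)
        simp only [id] at h6
        omega)
      have h3 := ha _ _ _ _ h2 (hs i him)
      rw [hcij] at h3
      have h4 : ((c m : ℤ) - c (i + 1)) + ((c (i + 1) : ℤ) - c j) = (c m : ℤ) - c j := by ring
      have h5 : (3 * (n : ℝ) * e0 - 2 * e0) + 3 * e0 = 3 * ((n + 1 : ℕ) : ℝ) * e0 - 2 * e0 := by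
        push_cast
        ring
      rw [h4, h5] at h3
      exact h3

theorem sumset (P : ℕ) (δ e0 : ℝ) (RR : Finset ℕ) (Pr : ℤ → ℝ → Prop) (hδ : 0 < δ) (hδ1 : δ ≤ 1) (he0 : 0 ≤ e0)
    (hRR : ∀ r ∈ RR, P < r ∧ r ≤ 2 * P) (hc : δ * P ≤ RR.card) (hP : 8 ≤ δ * P)
    (hd : ∀ r ∈ RR, ∀ r' ∈ RR, Pr ((r : ℤ) - r') e0) (ha : ∀ h h' : ℤ, ∀ κ κ' : ℝ, Pr h κ → Pr h' κ' → Pr (h + h') (κ + κ'))
    (hm : ∀ h : ℤ, ∀ κ κ' : ℝ, κ ≤ κ' → Pr h κ → Pr h κ') :
    ∃ q : ℕ, 1 ≤ q ∧ q * δ ≤ 2 ∧ ∀ m : ℕ, m * q ≤ P → Pr (((m * q : ℕ) : ℤ)) (8 / δ * e0) := by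
  obtain ⟨r1, hr1, r2, hr2, hlt, hq⟩ := Sumset_gap P δ RR hδ hRR hc hP
  obtain ⟨q, hqd⟩ : ∃ q : ℕ, q = r2 - r1 := ⟨_, rfl⟩
  rw [← hqd] at hq
  have hq1 : 1 ≤ q := by omega
  have hqz : (q : ℤ) = (r2 : ℤ) - r1 := by
    rw [hqd]
    push_cast [Nat.cast_sub hlt.le]
    ring
  have hPq : Pr (q : ℤ) e0 := by
    rw [hqz]
    exact hd r2 hr2 r1 hr1
  refine ⟨q, hq1, hq, ?_⟩
  obtain ⟨X, hX, hc0⟩ := Sumset_max P q RR ⟨r1, hr1⟩ hRR
  have h1 : ∀ m : ℕ, ∃ x : ℕ, m * q ≤ P → x ∈ X ∧ Pr (((m * q : ℕ) : ℤ) - x) e0 ∧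
      Pr ((x : ℤ) - ((m * q : ℕ) : ℤ)) e0 := by
    intro m
    by_cases hmP : m * q ≤ P
    · obtain ⟨x, hx, r, hr, r', hr', he⟩ := hc0 (m * q) hmP (dvd_mul_left q m)
      refine ⟨x, fun _ => ⟨hx, ?_, ?_⟩⟩
      · have h2 : ((m * q : ℕ) : ℤ) - x = (r' : ℤ) - r := by
          have : ((m * q : ℕ) : ℤ) + r = x + r' := by exact_mod_cast he
          linarith
        rw [h2]
        exact hd r' hr' r hr
      · have h2 : (x : ℤ) - ((m * q : ℕ) : ℤ) = (r : ℤ) - r' := by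
          have : ((m * q : ℕ) : ℤ) + r = x + r' := by exact_mod_cast he
          linarith
        rw [h2]
        exact hd r hr r' hr'
    · exact ⟨0, fun h => absurd h hmP⟩
  choose c hcm using h1
  have h00 : Pr 0 e0 := by
    have h2 := hd r1 hr1 r1 hr1
    rwa [sub_self] at h2
  intro m hmP
  have hle : ∀ i ≤ m, i * q ≤ P := fun i hi => le_trans (Nat.mul_le_mul_right q hi) hmP
  have hs : ∀ i < m, Pr ((c (i + 1) : ℤ) - c i) (3 * e0) := by
    intro i hi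
    have h2 := (hcm (i + 1) (hle _ hi)).2.2
    have h3 := (hcm i (hle _ hi.le)).2.1
    have h4 := ha _ _ _ _ (ha _ _ _ _ h2 hPq) h3
    have h5 : ((c (i + 1) : ℤ) - (((i + 1) * q : ℕ) : ℤ)) + (q : ℤ) +
        (((i * q : ℕ) : ℤ) - c i) = (c (i + 1) : ℤ) - c i := by
      push_cast
      ring
    have h6 : e0 + e0 + e0 = 3 * e0 := by ring
    rw [h5, h6] at h4
    exact h4
  have h2 := Sumset_chain e0 Pr he0 ha hm h00 c m hs X.card X le_rfl 0 (Nat.zero_le m)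
    (fun i _ hi => (hcm i (hle i hi)).1)
  have h3 := (hcm m hmP).2.1
  have h4 := (hcm 0 (by rw [zero_mul]; exact Nat.zero_le P)).2.2
  have h5 := ha _ _ _ _ (ha _ _ _ _ h3 h2) h4
  have h6 : (((m * q : ℕ) : ℤ) - c m) + ((c m : ℤ) - c 0) + ((c 0 : ℤ) - ((0 * q : ℕ) : ℤ)) =
      ((m * q : ℕ) : ℤ) := by
    push_cast
    ring
  rw [h6] at h5
  refine hm _ _ _ ?_ h5
  have hP0 : (0 : ℝ) < P := by
    by_contra hcon
    have : (P : ℝ) = 0 := le_antisymm (not_lt.1 hcon) (Nat.cast_nonneg P)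
    rw [this] at hP
    linarith
  have h7 : (X.card : ℝ) * δ ≤ 2 := by
    have h8 : (X.card : ℝ) * RR.card ≤ 2 * P := by exact_mod_cast hX
    have h9 : (X.card : ℝ) * (δ * P) ≤ 2 * P :=
      le_trans (mul_le_mul_of_nonneg_left hc (Nat.cast_nonneg _)) h8
    have h10 : ((X.card : ℝ) * δ) * P ≤ 2 * P := by linarith
    exact le_of_mul_le_mul_right h10 hP0
  have h8 : (X.card : ℝ) ≤ 2 / δ := by
    rw [le_div_iff₀ hδ]
    exact h7
  have h9 : e0 + (3 * (X.card : ℝ) * e0 - 2 * e0) + e0 = 3 * X.card * e0 := by ring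
  rw [h9]
  have h10 : 3 * (X.card : ℝ) ≤ 8 / δ := by
    have h11 : 8 / δ = 4 * (2 / δ) := by ring
    have h12 : 0 < 2 / δ := by positivity
    rw [h11]
    linarith
  exact mul_le_mul_of_nonneg_right h10 he0

end Pool.Agent.H53.TPS

end

section

/-!
# TPS KT: many common neighbours of a good tuple determine a common frequency

Proof.  `Pr h κ := ∃ b, ∀ j, nz (p_j b - h a_j) ≤ κ`; for `r, r' ∈ RR` the number `b_r - b_r'` shows `Pr (r - r') (2 d)`; closed under addition (add the `b`).  `sumset` with `e0 = 2 d`: `q ≤ 2/δ`, `Pr (m q) κ1` for `m q ≤ P`, `κ1 = 16 d/δ`.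
Let `M = P/q` (natural division; `q ≤ 2/δ ≤ P`, so `M ≥ 1` and `M ≥ P/(2 q)`), `b m` (`m ≤ M`) with `nz (p_j (b m) - m q a_j) ≤ κ1` for all `j`.
For `m + m' ≤ M`: `nz (p_j (b(m+m') - b m - b m')) ≤ 3 κ1`, so by `GoodT` (`good_mono` with `3 κ1 ≤ 2500 d/δ^2`) `nz (b(m+m') - b m - b m') ≤ ε := 3 κ1/P`.  Hence (induction on `m`, `nz (b 0) ≤ ε`) `nz (b m - m b(1)) ≤ (m + 1) ε ≤ 2 M ε ≤ 6 κ1`
(`M ≤ P`).  Let `e m := b m - m b(1) - round (b m - m b(1))`, `|e m| ≤ 6 κ1`; then `nz (e(m+m') - e m - e m') ≤ ε` (differs from the above by an integer) and `|e(m+m') - e m - e m'| ≤ 18 κ1 < 1/2`, so `|e(m+m') - e m - e m'| ≤ ε` (`nz_eq_abs`).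
`hu`: `|e m - m s| ≤ 3 ε`, `s = e M/M`; `w' = b 1 + s`: `nz (b m - m w') ≤ 3 ε`.
`nz (m (p_j w' - q a_j)) ≤ nz (p_j b m - m q a_j) + p_j 3 ε ≤ κ1 + 18 κ1 = 19 κ1 < 1/4`, so by `nz_mult` `M nz (p_j w' - q a_j) ≤ 19 κ1`, `nz (p_j w' - q a_j) ≤ 38 κ1 q/P`.
For `r ∈ RR`: `p_j (q b_r - r w') = q (p_j b_r - r a_j) - r (p_j w' - q a_j)`: `nz ≤ q d + 2P 38 κ1 q/P ≤ 77 κ1 q =: κ2 ≤ 2500 d/δ^2`; GoodT: `nz (q b_r - r w') ≤ κ2/P`: `q b_r = r w' + c_r + f`, `c_r ∈ ℤ`, `|f| ≤ κ2/P`.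
Pigeonhole: `r` is a prime `> P ≥ q`, so invertible mod `q`: `t_r ∈ {0..q-1}` with `c_r ≡ r t_r mod q`; some `t` is `t_r` for `≥ |RR|/q ≥ δ^2 P/2` of the `r`: `R1`.  `w = (w' + t)/q`: `b_r - r w = (c_r - r t)/q + f/q`, `nz ≤ κ2/(q P) = 77 κ1/P = 1232 d/(δ P)`.
-/

set_option autoImplicit false

namespace Pool.Agent.H53.TPS

open Finset
open Pool.Agent.H53.MID (nz)

/-- differences of the frequencies -/
private theorem KT_pr {k : ℕ} (P : ℕ) (δ d : ℝ) (p : Fin k → ℕ) (a : Fin k → ℝ) (RR : Finset ℕ)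
    (b : ℕ → ℝ) (hδ : 0 < δ) (hδ1 : δ ≤ 1) (hd : 0 ≤ d) (hRR : ∀ r ∈ RR, r.Prime ∧ P < r ∧ r ≤ 2 * P)
    (hc : δ * P ≤ RR.card) (hP : 8 ≤ δ * P) (hrel : ∀ j, ∀ r ∈ RR, nz (p j * b r - r * a j) ≤ d) :
    ∃ q : ℕ, 1 ≤ q ∧ q * δ ≤ 2 ∧ ∀ m : ℕ, m * q ≤ P →
      ∃ B : ℝ, ∀ j, nz (p j * B - ((m * q : ℕ) : ℝ) * a j) ≤ 16 * d / δ := by
  obtain ⟨q, hq1, hq2, hq3⟩ := sumset P δ (2 * d) RR
    (fun h κ => ∃ B : ℝ, ∀ j, nz (p j * B - (h : ℝ) * a j) ≤ κ) hδ hδ1 (by positivity)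
    (fun r hr => (hRR r hr).2) hc hP
    (fun r hr r' hr' => ⟨b r - b r', fun j => by
      have h1 := Pool.Agent.H53.MID.nz_sub (p j * b r - r * a j) (p j * b r' - r' * a j)
      have h2 := hrel j r hr
      have h3 := hrel j r' hr'
      have h4 : (p j : ℝ) * (b r - b r') - (((r : ℤ) - (r' : ℤ) : ℤ) : ℝ) * a j =
          (p j * b r - r * a j) - (p j * b r' - r' * a j) := by
        push_cast
        ring
      rw [h4]
      linarith⟩)
    (fun h h' κ κ' => by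
      rintro ⟨B, hB⟩ ⟨B', hB'⟩
      refine ⟨B + B', fun j => ?_⟩
      have h1 := Pool.Agent.H53.MID.nz_add (p j * B - (h : ℝ) * a j) (p j * B' - (h' : ℝ) * a j)
      have h2 := hB j
      have h3 := hB' j
      have h4 : (p j : ℝ) * (B + B') - ((h + h' : ℤ) : ℝ) * a j =
          (p j * B - (h : ℝ) * a j) + (p j * B' - (h' : ℝ) * a j) := by
        push_cast
        ring
      rw [h4]
      linarith)
    (fun h κ κ' hκ => by
      rintro ⟨B, hB⟩
      exact ⟨B, fun j => (hB j).trans hκ⟩)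
  refine ⟨q, hq1, hq2, fun m hm => ?_⟩
  obtain ⟨B, hB⟩ := hq3 m hm
  refine ⟨B, fun j => ?_⟩
  have h1 := hB j
  have h2 : 8 / δ * (2 * d) = 16 * d / δ := by ring
  rw [h2] at h1
  rw [Int.cast_natCast] at h1
  exact h1

/-- an approximately additive function modulo one is approximately linear -/
private theorem KT_lin (M : ℕ) (hM : 1 ≤ M) (B : ℕ → ℝ) (ε κ : ℝ) (hε : (M + 1) * ε ≤ κ) (hε0 : 0 ≤ ε) (hκ : 3 * κ < 1 / 2)
    (h : ∀ m m' : ℕ, m + m' ≤ M → nz (B (m + m') - B m - B m') ≤ ε) :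
    ∃ w : ℝ, ∀ m ≤ M, nz (B m - m * w) ≤ 3 * ε := by
  have h0 : ∀ m ≤ M, nz (B m - m * B 1) ≤ (m + 1) * ε := by
    intro m
    induction m with
    | zero =>
      intro _
      have h1 := h 0 0 (Nat.zero_le _)
      rw [show B (0 + 0) - B 0 - B 0 = -(B 0) by simp, Pool.Agent.H53.MID.nz_neg] at h1
      simpa using h1
    | succ m ih =>
      intro hm
      have h1 := ih (by omega)
      have h2 := h m 1 hm
      have h3 := Pool.Agent.H53.MID.nz_add (B (m + 1) - B m - B 1) (B m - m * B 1)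
      have h4 : B (m + 1) - ((m + 1 : ℕ) : ℝ) * B 1 = (B (m + 1) - B m - B 1) + (B m - m * B 1) := by
        push_cast
        ring
      rw [h4]
      push_cast
      linarith
  have h5 : ∀ m ≤ M, nz (B m - m * B 1) ≤ κ := by
    intro m hm
    refine (h0 m hm).trans (le_trans ?_ hε)
    have : (m : ℝ) ≤ M := by exact_mod_cast hm
    exact mul_le_mul_of_nonneg_right (by linarith) hε0
  set e : ℕ → ℝ := fun m => B m - m * B 1 - round (B m - m * B 1) with he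
  have h6 : ∀ m ≤ M, |e m| ≤ κ := fun m hm => h5 m hm
  have h7 : ∀ m m' : ℕ, m + m' ≤ M → |e (m + m') - e m - e m'| ≤ ε := by
    intro m m' hmm
    have h8 := h m m' hmm
    have h9 : |e (m + m') - e m - e m'| < 1 / 2 := by
      have a1 := abs_le.1 (h6 (m + m') hmm)
      have a2 := abs_le.1 (h6 m (by omega))
      have a3 := abs_le.1 (h6 m' (by omega))
      rw [abs_lt]
      constructor <;> linarith [a1.1, a1.2, a2.1, a2.2, a3.1, a3.2]
    rw [← Pool.Agent.H53.MID.nz_eq_abs _ h9]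
    have h10 : e (m + m') - e m - e m' = (B (m + m') - B m - B m') -
        ((round (B (m + m') - ((m + m' : ℕ) : ℝ) * B 1) - round (B m - m * B 1) -
          round (B m' - m' * B 1) : ℤ) : ℝ) := by
      simp only [he]
      push_cast
      ring
    rw [h10, Pool.Agent.H53.MID.nz_sub_int]
    exact h8
  have h11 := hu M hM e ε h7
  refine ⟨B 1 + e M / M, fun m hm => ?_⟩
  have h12 : B m - m * (B 1 + e M / M) = (e m - m * (e M / M)) + ((round (B m - m * B 1) : ℤ) : ℝ) := by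
    simp only [he]
    ring
  rw [h12, Pool.Agent.H53.MID.nz_add_int]
  exact (Pool.Agent.H53.MID.nz_le_abs _).trans (h11 m hm)

/-- `c ≡ r t` can be solved modulo `q` -/
private theorem KT_inv (q r : ℕ) (hq : 1 ≤ q) (hr : Nat.Coprime r q) (c : ℤ) :
    ∃ t ∈ Finset.range q, ∃ u : ℤ, c - r * t = q * u := by
  have : NeZero q := ⟨by omega⟩
  set x : ZMod q := (c : ZMod q) * (ZMod.unitOfCoprime r hr)⁻¹.val with hx
  refine ⟨x.val, Finset.mem_range.2 (ZMod.val_lt x), ?_⟩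
  have h1 : (((c - r * (x.val : ℤ) : ℤ)) : ZMod q) = 0 := by
    push_cast
    rw [ZMod.natCast_zmod_val, hx]
    have h2 : (r : ZMod q) * (ZMod.unitOfCoprime r hr)⁻¹.val = 1 := by
      have h3 := (ZMod.unitOfCoprime r hr).mul_inv
      rw [ZMod.coe_unitOfCoprime] at h3
      exact h3
    calc (c : ZMod q) - r * (c * (ZMod.unitOfCoprime r hr)⁻¹.val)
        = c - c * (r * (ZMod.unitOfCoprime r hr)⁻¹.val) := by ring
      _ = 0 := by rw [h2]; ring
  rw [ZMod.intCast_zmod_eq_zero_iff_dvd] at h1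
  exact h1

theorem kt {k : ℕ} (hk : 1 ≤ k) (P : ℕ) (δ d : ℝ) (p : Fin k → ℕ) (a : Fin k → ℝ) (RR : Finset ℕ) (b : ℕ → ℝ)
    (hδ : 0 < δ) (hδ1 : δ ≤ 1) (hd : 0 ≤ d) (hp : ∀ j, P < p j ∧ p j ≤ 2 * P) (hRR : ∀ r ∈ RR, r.Prime ∧ P < r ∧ r ≤ 2 * P)
    (hc : δ * P ≤ RR.card) (hP : 8 ≤ δ * P) (hrel : ∀ j, ∀ r ∈ RR, nz (p j * b r - r * a j) ≤ d)
    (hgood : GoodT P (2500 * d / δ ^ 2) p) (hsmall : 2500 * d / δ ^ 2 ≤ 1 / 10) :
    ∃ (w : ℝ) (R1 : Finset ℕ), R1 ⊆ RR ∧ δ ^ 2 * P / 2 ≤ R1.card ∧ ∀ r ∈ R1, nz (b r - r * w) ≤ 1232 * d / (δ * P) := by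
  classical
  obtain ⟨q, hq1, hq2, hq3⟩ := KT_pr P δ d p a RR b hδ hδ1 hd hRR hc hP hrel
  have hP0 : (0 : ℝ) < P := by
    by_contra hcon
    have h1 : (P : ℝ) ≤ 0 := not_lt.1 hcon
    have h2 : δ * P ≤ 0 := mul_nonpos_of_nonneg_of_nonpos hδ.le h1
    linarith
  have hP8 : (8 : ℝ) ≤ P := by
    have h1 : δ * P ≤ 1 * P := mul_le_mul_of_nonneg_right hδ1 hP0.le
    linarith
  have hP1 : 1 ≤ P := by
    have : (1 : ℝ) ≤ P := by linarith
    exact_mod_cast this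
  have hq0 : (0 : ℝ) < q := by exact_mod_cast hq1
  -- `4 q ≤ P`
  have hqP : (4 : ℝ) * q ≤ P := by
    have h1 : 4 * (q * δ) ≤ δ * P := by linarith
    have h2 : δ * (4 * q) ≤ δ * P := by linarith
    exact le_of_mul_le_mul_left h2 hδ
  have hqP' : 4 * q ≤ P := by exact_mod_cast hqP
  set κ1 : ℝ := 16 * d / δ with hκ1
  have hκ10 : 0 ≤ κ1 := by positivity
  -- everything in terms of `D = d / δ ^ 2`
  have hdδ : d / δ ≤ d / δ ^ 2 := by
    apply div_le_div_of_nonneg_left hd (by positivity)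
    nlinarith
  have hD0 : 0 ≤ d / δ ^ 2 := by positivity
  have hDs : 2500 * (d / δ ^ 2) ≤ 1 / 10 := by
    have : 2500 * (d / δ ^ 2) = 2500 * d / δ ^ 2 := by ring
    linarith
  have hκ1D : κ1 ≤ 16 * (d / δ ^ 2) := by
    have : κ1 = 16 * (d / δ) := by rw [hκ1]; ring
    linarith
  have hdκ : d ≤ κ1 := by
    rw [hκ1, le_div_iff₀ hδ]
    nlinarith
  have hκlt : 2500 * d / δ ^ 2 < 1 / 4 := by linarith
  have hgm : ∀ κ' : ℝ, κ' ≤ 2500 * (d / δ ^ 2) → GoodT P κ' p := fun κ' hκ' =>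
    good_mono hk P hP1 p hp _ κ' hκlt (by
      have : 2500 * (d / δ ^ 2) = 2500 * d / δ ^ 2 := by ring
      linarith) hgood
  -- `M`
  set M : ℕ := P / q with hM
  have hMq : M * q ≤ P := Nat.div_mul_le_self P q
  have hMq' : P < (M + 1) * q := by
    have := Nat.lt_div_mul_add (a := P) (b := q) (by omega)
    rw [hM, add_mul, one_mul]
    exact this
  have hM1 : 1 ≤ M := by
    rw [hM, Nat.one_le_div_iff (by omega)]
    omega
  have hMP : M ≤ P := Nat.div_le_self P q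
  have hM0 : (0 : ℝ) < M := by exact_mod_cast hM1
  have hMPr : (M : ℝ) ≤ P := by exact_mod_cast hMP
  have hM1r : (1 : ℝ) ≤ M := by exact_mod_cast hM1
  have h2Mq : (P : ℝ) ≤ 2 * M * q := by
    have h1 : (P : ℝ) < (M + 1) * q := by exact_mod_cast hMq'
    nlinarith
  have hex : ∀ m : ℕ, ∃ B : ℝ, m ≤ M → ∀ j, nz (p j * B - ((m * q : ℕ) : ℝ) * a j) ≤ κ1 := by
    intro m
    by_cases hm : m ≤ M
    · obtain ⟨B, hB⟩ := hq3 m ((Nat.mul_le_mul_right q hm).trans hMq)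
      exact ⟨B, fun _ => hB⟩
    · exact ⟨0, fun h => absurd h hm⟩
  choose B hB using hex
  set ε : ℝ := 3 * κ1 / P with hε
  have hε0 : 0 ≤ ε := by positivity
  have hεP : P * ε = 3 * κ1 := by
    rw [hε]
    field_simp
  have hadd : ∀ m m' : ℕ, m + m' ≤ M → nz (B (m + m') - B m - B m') ≤ ε := by
    intro m m' hmm
    refine hgm (3 * κ1) (by linarith) _ fun j => ?_
    have h1 := hB (m + m') hmm j
    have h2 := hB m (by omega) j
    have h3 := hB m' (by omega) j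
    have h4 : (p j : ℝ) * (B (m + m') - B m - B m') =
        ((p j * B (m + m') - (((m + m') * q : ℕ) : ℝ) * a j) - (p j * B m - ((m * q : ℕ) : ℝ) * a j)) -
          (p j * B m' - ((m' * q : ℕ) : ℝ) * a j) := by
      push_cast
      ring
    rw [h4]
    have h5 := Pool.Agent.H53.MID.nz_sub
      ((p j * B (m + m') - (((m + m') * q : ℕ) : ℝ) * a j) - (p j * B m - ((m * q : ℕ) : ℝ) * a j))
      (p j * B m' - ((m' * q : ℕ) : ℝ) * a j)
    have h6 := Pool.Agent.H53.MID.nz_sub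
      (p j * B (m + m') - (((m + m') * q : ℕ) : ℝ) * a j) (p j * B m - ((m * q : ℕ) : ℝ) * a j)
    linarith
  obtain ⟨w', hw'⟩ := KT_lin M hM1 B ε (6 * κ1) (by
    have h1 : ((M : ℝ) + 1) * ε ≤ (2 * P) * ε := mul_le_mul_of_nonneg_right (by linarith) hε0
    linarith) hε0 (by linarith) hadd
  -- the relation between `w'` and `q a_j`
  have hrel2 : ∀ j, nz (p j * w' - q * a j) ≤ 38 * κ1 * q / P := by
    intro j
    have hpj : (p j : ℝ) ≤ 2 * P := by exact_mod_cast (hp j).2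
    have hpj0 : (0 : ℝ) ≤ p j := Nat.cast_nonneg _
    have h1 : ∀ m : ℕ, 1 ≤ m → m ≤ M → nz (m * (p j * w' - q * a j)) ≤ 19 * κ1 := by
      intro m _ hm
      have h2 := hB m hm j
      have h3 := hw' m hm
      have h4 := Pool.Agent.H53.MID.nz_nat_mul (p j) (B m - m * w')
      have h5 : (m : ℝ) * (p j * w' - q * a j) =
          (p j * B m - ((m * q : ℕ) : ℝ) * a j) - p j * (B m - m * w') := by
        push_cast
        ring
      rw [h5]
      have h6 := Pool.Agent.H53.MID.nz_sub (p j * B m - ((m * q : ℕ) : ℝ) * a j) (p j * (B m - m * w'))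
      have h7 : (p j : ℝ) * nz (B m - m * w') ≤ (2 * P) * (3 * ε) :=
        mul_le_mul hpj h3 (Pool.Agent.H53.MID.nz_nonneg _) (by positivity)
      have h8 : (2 * (P : ℝ)) * (3 * ε) = 18 * κ1 := by
        linear_combination 6 * hεP
      linarith
    have h9 := nz_mult M hM1 (p j * w' - q * a j) (19 * κ1) (by linarith) h1
    rw [le_div_iff₀ hP0]
    have h10 := Pool.Agent.H53.MID.nz_nonneg (p j * w' - q * a j)
    calc nz (p j * w' - q * a j) * P ≤ nz (p j * w' - q * a j) * (2 * M * q) :=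
          mul_le_mul_of_nonneg_left h2Mq h10
      _ = 2 * q * (M * nz (p j * w' - q * a j)) := by ring
      _ ≤ 2 * q * (19 * κ1) := mul_le_mul_of_nonneg_left h9 (by positivity)
      _ = 38 * κ1 * q := by ring
  have hrel3 : ∀ r ∈ RR, nz (q * b r - r * w') ≤ 77 * κ1 * q / P := by
    intro r hr
    have hr2 : (r : ℝ) ≤ 2 * P := by exact_mod_cast (hRR r hr).2.2
    have hκ2 : 77 * κ1 * q ≤ 2500 * (d / δ ^ 2) := by
      have h1 : κ1 * q = 16 * (d / δ ^ 2) * (q * δ) := by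
        rw [hκ1]
        field_simp
      have h2 : 16 * (d / δ ^ 2) * (q * δ) ≤ 16 * (d / δ ^ 2) * 2 :=
        mul_le_mul_of_nonneg_left hq2 (by positivity)
      nlinarith
    refine hgm (77 * κ1 * q) hκ2 _ fun j => ?_
    have h3 : (p j : ℝ) * (q * b r - r * w') = q * (p j * b r - r * a j) - r * (p j * w' - q * a j) := by
      ring
    rw [h3]
    have h4 := Pool.Agent.H53.MID.nz_sub (q * (p j * b r - r * a j)) (r * (p j * w' - q * a j))
    have h5 := Pool.Agent.H53.MID.nz_nat_mul q (p j * b r - r * a j)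
    have h6 := Pool.Agent.H53.MID.nz_nat_mul r (p j * w' - q * a j)
    have h7 : (q : ℝ) * nz (p j * b r - r * a j) ≤ q * κ1 :=
      mul_le_mul_of_nonneg_left ((hrel j r hr).trans hdκ) hq0.le
    have h8 : (r : ℝ) * nz (p j * w' - q * a j) ≤ (2 * P) * (38 * κ1 * q / P) :=
      mul_le_mul hr2 (hrel2 j) (Pool.Agent.H53.MID.nz_nonneg _) (by positivity)
    have h9 : (2 * (P : ℝ)) * (38 * κ1 * q / P) = 76 * κ1 * q := by
      field_simp
      ring
    linarith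
  -- the pigeonhole principle
  have hcop : ∀ r ∈ RR, Nat.Coprime r q := by
    intro r hr
    obtain ⟨h1, h2, -⟩ := hRR r hr
    rw [Nat.Prime.coprime_iff_not_dvd h1]
    intro h3
    have := Nat.le_of_dvd (by omega) h3
    omega
  have hex2 : ∀ r : ℕ, ∃ t : ℕ, r ∈ RR → t ∈ Finset.range q ∧
      ∃ u : ℤ, round (q * b r - r * w') - (r : ℤ) * (t : ℤ) = q * u := by
    intro r
    by_cases hr : r ∈ RR
    · obtain ⟨t, ht, hu⟩ := KT_inv q r hq1 (hcop r hr) (round (q * b r - r * w'))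
      exact ⟨t, fun _ => ⟨ht, hu⟩⟩
    · exact ⟨0, fun h => absurd h hr⟩
  choose t ht using hex2
  obtain ⟨t0, ht0, hcard⟩ : ∃ t0 ∈ Finset.range q,
      RR.card ≤ q * (RR.filter fun r => t r = t0).card := by
    by_contra hcon
    push Not at hcon
    have h1 : RR.card = ∑ t0 ∈ Finset.range q, (RR.filter fun r => t r = t0).card :=
      Finset.card_eq_sum_card_fiberwise fun r hr => (ht r hr).1
    have h2 : q * ∑ t0 ∈ Finset.range q, (RR.filter fun r => t r = t0).card < q * RR.card := by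
      rw [Finset.mul_sum]
      calc ∑ t0 ∈ Finset.range q, q * (RR.filter fun r => t r = t0).card
          < ∑ t0 ∈ Finset.range q, RR.card :=
            Finset.sum_lt_sum_of_nonempty (Finset.nonempty_range_iff.2 (by omega)) hcon
        _ = q * RR.card := by rw [Finset.sum_const, Finset.card_range, smul_eq_mul]
    rw [← h1] at h2
    exact lt_irrefl _ h2
  refine ⟨(w' + t0) / q, RR.filter fun r => t r = t0, Finset.filter_subset _ _, ?_, ?_⟩
  · have h1 : (RR.card : ℝ) ≤ q * ((RR.filter fun r => t r = t0).card : ℝ) := by exact_mod_cast hcard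
    have h2 : δ * P ≤ q * ((RR.filter fun r => t r = t0).card : ℝ) := hc.trans h1
    have h3 : δ * (δ * P) ≤ δ * (q * ((RR.filter fun r => t r = t0).card : ℝ)) :=
      mul_le_mul_of_nonneg_left h2 hδ.le
    have h4 : (q * δ) * ((RR.filter fun r => t r = t0).card : ℝ) ≤
        2 * ((RR.filter fun r => t r = t0).card : ℝ) :=
      mul_le_mul_of_nonneg_right hq2 (Nat.cast_nonneg _)
    nlinarith
  · intro r hr
    obtain ⟨hr1, hr2⟩ := Finset.mem_filter.1 hr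
    obtain ⟨-, u, hu⟩ := ht r hr1
    rw [hr2] at hu
    have h1 := hrel3 r hr1
    have h2 : b r - r * ((w' + t0) / q) =
        (q * b r - r * w' - round (q * b r - r * w')) / q + ((u : ℤ) : ℝ) := by
      have h3 : ((round (q * b r - r * w') : ℤ) : ℝ) = r * t0 + q * u := by
        have h4 : round (q * b r - r * w') = (r : ℤ) * (t0 : ℤ) + q * u := by linarith
        rw [h4]
        push_cast
        ring
      rw [h3]
      field_simp
      ring
    rw [h2, Pool.Agent.H53.MID.nz_add_int]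
    refine (Pool.Agent.H53.MID.nz_le_abs _).trans ?_
    rw [abs_div, abs_of_pos hq0, div_le_iff₀ hq0]
    have h5 : |q * b r - r * w' - round (q * b r - r * w')| ≤ 77 * κ1 * q / P := h1
    refine h5.trans (le_of_eq ?_)
    rw [hκ1]
    field_simp
    ring

end Pool.Agent.H53.TPS

end
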