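import Pool.Agent.H43.PJ.M11
import Pool.Agent.H43.PJ.M60

/-! The parts of this file: H53.MID.Edges, H53.TPS.ClimbT, H53.TPS.TowerT. -/

section

/-!
# MID Edges: many scales `M` with many edges

For `M : ℕ` let `VM C P F M = {(p, K) : p ∈ (P, 2P] prime, K ∈ F, |K p - M P| ≤ (2C+1) P}` and
`EM C P F R M` = the pairs `((p,K), (p',K'))` in `VM × VM` with `p ≠ p'` such that `(K, p', G), (K', p, G) ∈ R` for some `G`.

`VM_fib`: for every `p` there are at most `4C+3` elements `(p, K)` in `VM` (`|K - M P/p| ≤ (2C+1) P/p ≤ 2C+1`; number of integers in a closed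
interval of length `≤ 4C+2` is `≤ 4C+3`).  `VM_card`: `|VM| ≤ (4C+3) P` (at most `P` values of `p`).
`edges` proof.  `N(G) = {(K,p') : (K,p',G) ∈ R}`, `∑_G |N(G)| = |R| ≥ δ n P`, `|F'| ≤ C n` (`rngF'`: `F' ⊆ [1, C n]`, as `K ≥ n/C > 0`), so
`∑_G |N(G)|^2 ≥ |R|^2/|F'| ≥ δ^2 n P^2/C`.
A pair `(K,p'), (K',p) ∈ N(G)`, `p ≠ p'`, is mapped to `M = ⌊G p p'/P^2⌋` and the edge `((p,K),(p',K'))` of `EM M`:
`|G p' - K P| ≤ C P` gives `|G p p'/P^2 - K p/P| ≤ C p/P ≤ 2C`, so `|K p - M P| ≤ (2C+1) P`, the same for `(p',K')`.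
At most `2C+1` values `G` give the same `(M, (p,K), (p',K'))` (`|G - K P/p'| ≤ C P/p' < C`).
Pairs with `p = p'`: given `(K,p,G) ∈ R` at most `2C+1` values `K'` (`|G p - K' P| ≤ C P`), and `|R| ≤ |F| P (2C+1) ≤ C (2C+1) n P`; in total
`≤ C (2C+1)^2 n P ≤ δ^2 n P^2/(2C)` as `P ≥ D/δ^4`.  So `∑_M |EM M| ≥ κ n P^2`, `κ = δ^2/(2C(2C+1))`.
`M ≥ G ≥ n/C` (`p p' ≥ P^2`) and `M ≤ 4 G ≤ 4 C n`: at most `4 C n + 1 ≤ 5 C n` values `M`.  Those with `|EM M| < κ P^2/(10 C)` contribute at most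
`κ n P^2/2`, the others at most `((4C+3) P)^2` each, so the set `F''` of the `M` with `|EM M| ≥ κ P^2/(10C)` has `≥ κ n/(2 (4C+3)^2)` elements.
Take `D` large (any explicit polynomial in `C`, for example `D = 10^6 C^6`).
-/

set_option autoImplicit false

namespace Pool.Agent.H53.MID

open Finset

/-- the vertices `(p, K)` at `M` -/
noncomputable def VM (C : ℝ) (P : ℕ) (F : Finset ℕ) (M : ℕ) : Finset (ℕ × ℕ) :=
  (((Ioc P (2 * P)).filter Nat.Prime) ×ˢ F).filter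
    (fun v => |(v.2 : ℝ) * v.1 - M * P| ≤ (2 * C + 1) * P)

open Classical in
/-- the edges at `M` -/
noncomputable def EM (C : ℝ) (P : ℕ) (F : Finset ℕ) (R : Finset (ℕ × ℕ × ℕ)) (M : ℕ) :
    Finset ((ℕ × ℕ) × (ℕ × ℕ)) :=
  (VM C P F M ×ˢ VM C P F M).filter
    (fun e => e.1.1 ≠ e.2.1 ∧ ∃ G : ℕ, (e.1.2, e.2.1, G) ∈ R ∧ (e.2.2, e.1.1, G) ∈ R)

private theorem Edges_count (S : Finset ℕ) (x r : ℝ) (hr : 0 ≤ r)
    (h : ∀ k ∈ S, |(k : ℝ) - x| ≤ r) : (S.card : ℝ) ≤ 2 * r + 1 := by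
  rcases S.eq_empty_or_nonempty with rfl | hS
  · simp only [card_empty, Nat.cast_zero]
    linarith
  · have h1 : S ⊆ Icc (S.min' hS) (S.max' hS) :=
      fun k hk => Finset.mem_Icc.2 ⟨S.min'_le k hk, S.le_max' k hk⟩
    have h2 := Finset.card_le_card h1
    rw [Nat.card_Icc] at h2
    have h3 := h _ (S.min'_mem hS)
    have h4 := h _ (S.max'_mem hS)
    have h5 : S.min' hS ≤ S.max' hS := S.min'_le _ (S.max'_mem hS)
    have h6 : (S.card : ℝ) ≤ (S.max' hS : ℝ) + 1 - S.min' hS := by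
      have h7 : S.card + S.min' hS ≤ S.max' hS + 1 := by omega
      have h8 : ((S.card + S.min' hS : ℕ) : ℝ) ≤ ((S.max' hS + 1 : ℕ) : ℝ) := by exact_mod_cast h7
      push_cast at h8
      linarith only [hS, h8]
    rw [abs_le] at h3 h4
    linarith only [hS, h3, h4, h6, h3.1, h4.2]

private theorem Edges_cnt {α : Type*} (S : Finset α) (g : α → ℕ)
    (hg : ∀ a ∈ S, ∀ a' ∈ S, g a = g a' → a = a') (x r : ℝ) (hr : 0 ≤ r)
    (h : ∀ a ∈ S, |(g a : ℝ) - x| ≤ r) : (S.card : ℝ) ≤ 2 * r + 1 := by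
  classical
  have h1 : (S.image g).card = S.card := Finset.card_image_of_injOn fun a ha a' ha' => hg a ha a' ha'
  rw [← h1]
  refine Edges_count _ x r hr fun k hk => ?_
  obtain ⟨a, ha, rfl⟩ := Finset.mem_image.1 hk
  exact h a ha

private theorem Edges_fib {α β : Type*} [DecidableEq β] {s : Finset α} {t : Finset β} (f : α → β)
    (c : ℝ) (hm : ∀ a ∈ s, f a ∈ t) (hf : ∀ b ∈ t, ((s.filter (fun a => f a = b)).card : ℝ) ≤ c) :
    (s.card : ℝ) ≤ c * t.card := by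
  have h1 : s.card = ∑ b ∈ t, (s.filter (fun a => f a = b)).card :=
    Finset.card_eq_sum_card_fiberwise fun a ha => hm a ha
  rw [h1]
  push_cast
  calc ∑ b ∈ t, ((s.filter (fun a => f a = b)).card : ℝ) ≤ ∑ _b ∈ t, c := Finset.sum_le_sum hf
    _ = c * t.card := by rw [Finset.sum_const, nsmul_eq_mul, mul_comm]

/-- `|k - y / q| ≤ r` from `|k q - y| ≤ r P` and `P ≤ q`. -/
private theorem Edges_div {k y q r P : ℝ} (hP : 0 < P) (hq : P ≤ q) (hr : 0 ≤ r)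
    (h : |k * q - y| ≤ r * P) : |k - y / q| ≤ r := by
  have hq0 : 0 < q := lt_of_lt_of_le hP hq
  have h1 : k - y / q = (k * q - y) / q := by field_simp
  rw [h1, abs_div, abs_of_pos hq0, div_le_iff₀ hq0]
  exact h.trans (mul_le_mul_of_nonneg_left hq hr)

theorem VM_fib (C : ℝ) (hC : 1 ≤ C) (P : ℕ) (F : Finset ℕ) (M p : ℕ) (hP : 1 ≤ P) :
    (((VM C P F M).filter (fun v => v.1 = p)).card : ℝ) ≤ 4 * C + 3 := by
  have hP0 : (0 : ℝ) < P := by exact_mod_cast hP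
  have h1 : (((VM C P F M).filter (fun v => v.1 = p)).card : ℝ) ≤ 2 * (2 * C + 1) + 1 := by
    refine Edges_cnt _ Prod.snd ?_ ((M : ℝ) * P / p) (2 * C + 1) (by linarith only [hC]) ?_
    · intro a ha a' ha' haa
      have h1 := (Finset.mem_filter.1 ha).2
      have h2 := (Finset.mem_filter.1 ha').2
      exact Prod.ext (h1.trans h2.symm) haa
    · intro a ha
      obtain ⟨ha1, ha2⟩ := Finset.mem_filter.1 ha
      unfold VM at ha1
      rw [Finset.mem_filter, Finset.mem_product, Finset.mem_filter, Finset.mem_Ioc] at ha1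
      obtain ⟨⟨⟨⟨h3, _⟩, _⟩, _⟩, h4⟩ := ha1
      rw [ha2] at h3 h4
      have h5 : (P : ℝ) ≤ p := by exact_mod_cast h3.le
      exact Edges_div hP0 h5 (by linarith only [hC]) h4
  linarith

theorem VM_card (C : ℝ) (hC : 1 ≤ C) (P : ℕ) (F : Finset ℕ) (M : ℕ) (hP : 1 ≤ P) :
    ((VM C P F M).card : ℝ) ≤ (4 * C + 3) * P := by
  have h1 : ((VM C P F M).card : ℝ) ≤ (4 * C + 3) * ((Ioc P (2 * P)).card : ℕ) := by
    refine Edges_fib Prod.fst (4 * C + 3) ?_ fun p _ => VM_fib C hC P F M p hP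
    intro a ha
    unfold VM at ha
    rw [Finset.mem_filter, Finset.mem_product, Finset.mem_filter] at ha
    exact ha.1.1.1
  have h2 : (Ioc P (2 * P)).card = P := by
    rw [Nat.card_Ioc]
    omega
  rw [h2] at h1
  exact h1

private theorem Edges_mem {C : ℝ} {P : ℕ} (hC : 1 ≤ C) (hP : 1 ≤ P) {F : Finset ℕ} {K G p p' M : ℕ}
    (hK : K ∈ F) (hp : p.Prime) (hp1 : P < p) (hp2 : p ≤ 2 * P)
    (h : |(G : ℝ) * p' - K * P| ≤ C * P)
    (hM : |(M : ℝ) * (P : ℝ) ^ 2 - G * p * p'| ≤ (P : ℝ) ^ 2) : (p, K) ∈ VM C P F M := by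
  have hP0 : (0 : ℝ) < P := by exact_mod_cast hP
  unfold VM
  rw [Finset.mem_filter, Finset.mem_product, Finset.mem_filter, Finset.mem_Ioc]
  refine ⟨⟨⟨⟨hp1, hp2⟩, hp⟩, hK⟩, ?_⟩
  have hp3 : (p : ℝ) ≤ 2 * P := by exact_mod_cast hp2
  have hp4 : (0 : ℝ) ≤ p := Nat.cast_nonneg p
  have h1 : ((K : ℝ) * p - M * P) * P =
      -(((G : ℝ) * p' - K * P) * p) - (M * (P : ℝ) ^ 2 - G * p * p') := by ring
  have h2 : |((K : ℝ) * p - M * P) * P| ≤ (2 * C + 1) * P * P := by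
    rw [h1]
    have h3 : |-(((G : ℝ) * p' - K * P) * p) - (M * (P : ℝ) ^ 2 - G * p * p')| ≤
        |((G : ℝ) * p' - K * P) * p| + |M * (P : ℝ) ^ 2 - G * p * p'| := by
      have := abs_sub (-(((G : ℝ) * p' - K * P) * p)) (M * (P : ℝ) ^ 2 - G * p * p')
      rwa [abs_neg] at this
    have h4 : |((G : ℝ) * p' - K * P) * p| ≤ C * P * (2 * P) := by
      rw [abs_mul, abs_of_nonneg hp4]
      exact mul_le_mul h hp3 hp4 (by positivity)
    nlinarith only [hM, h3, h4]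
  rw [abs_mul, abs_of_pos hP0] at h2
  exact le_of_mul_le_mul_right h2 hP0

private theorem Edges_card {C : ℝ} {n : ℕ} (hC : 1 ≤ C) (hn : 1 ≤ n) {F : Finset ℕ}
    (h : ∀ K ∈ F, (n : ℝ) / C ≤ K ∧ (K : ℝ) ≤ C * n) : (F.card : ℝ) ≤ C * n := by
  have hn0 : (0 : ℝ) < n := by exact_mod_cast hn
  have h1 : F ⊆ Icc 1 ⌊C * n⌋₊ := by
    intro K hK
    obtain ⟨h2, h3⟩ := h K hK
    rw [Finset.mem_Icc]
    refine ⟨?_, Nat.le_floor h3⟩
    have h4 : (0 : ℝ) < K := lt_of_lt_of_le (by positivity) h2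
    have h5 : 0 < K := by exact_mod_cast h4
    omega
  have h2 := Finset.card_le_card h1
  rw [Nat.card_Icc, Nat.add_sub_cancel] at h2
  have h3 : ((F.card : ℕ) : ℝ) ≤ (⌊C * n⌋₊ : ℕ) := by exact_mod_cast h2
  exact h3.trans (Nat.floor_le (by positivity))

/-- the number of triples -/
private theorem Edges_R {C : ℝ} (hC : 1 ≤ C) {n P : ℕ} {η : ℝ} {F F' : Finset ℕ} {α α' : ℕ → ℝ}
    {R : Finset (ℕ × ℕ × ℕ)} (h : Rel C n P η F F' α α' R) (hn : 1 ≤ n) (hP : 1 ≤ P) :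
    (R.card : ℝ) ≤ (2 * C + 1) * (C * n * P) := by
  have hP0 : (0 : ℝ) < P := by exact_mod_cast hP
  have h1 : (R.card : ℝ) ≤ (2 * C + 1) * ((F ×ˢ Ioc P (2 * P)).card : ℕ) := by
    refine Edges_fib (fun t => (t.1, t.2.1)) (2 * C + 1) ?_ ?_
    · intro t ht
      rw [Finset.mem_product, Finset.mem_Ioc]
      exact ⟨h.memF t ht, (h.prime t ht).2⟩
    · intro b hb
      rw [Finset.mem_product, Finset.mem_Ioc] at hb
      refine Edges_cnt _ (fun t => t.2.2) ?_ ((b.1 : ℝ) * P / b.2) C (by linarith only [hC]) ?_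
      · intro a ha a' ha' haa
        have h1 := (Finset.mem_filter.1 ha).2.trans (Finset.mem_filter.1 ha').2.symm
        simp only [Prod.mk.injEq] at h1
        exact Prod.ext h1.1 (Prod.ext h1.2 haa)
      · intro a ha
        obtain ⟨ha1, ha2⟩ := Finset.mem_filter.1 ha
        have h3 := h.pos a ha1
        rw [← ha2]
        have h4 : (P : ℝ) ≤ a.2.1 := by exact_mod_cast (h.prime a ha1).2.1.le
        exact Edges_div hP0 h4 (by linarith only [hC]) h3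
  have h2 : (Ioc P (2 * P)).card = P := by
    rw [Nat.card_Ioc]
    omega
  rw [Finset.card_product, h2] at h1
  push_cast at h1
  refine h1.trans (mul_le_mul_of_nonneg_left ?_ (by linarith only [hC]))
  exact mul_le_mul_of_nonneg_right (Edges_card hC hn h.rngF) hP0.le

/-- pairs of triples with the same `G` -/
private def Edges_Q (R : Finset (ℕ × ℕ × ℕ)) : Finset ((ℕ × ℕ × ℕ) × (ℕ × ℕ × ℕ)) :=
  (R ×ˢ R).filter (fun q => q.1.2.2 = q.2.2.2)

private theorem Edges_CS (R : Finset (ℕ × ℕ × ℕ)) (F' : Finset ℕ) (h : ∀ t ∈ R, t.2.2 ∈ F') :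
    (R.card : ℝ) ^ 2 ≤ F'.card * (Edges_Q R).card := by
  have h1 : R.card = ∑ G ∈ F', (R.filter (fun t => t.2.2 = G)).card :=
    Finset.card_eq_sum_card_fiberwise fun a ha => h a ha
  have h2 : (Edges_Q R).card = ∑ G ∈ F', ((Edges_Q R).filter (fun q => q.1.2.2 = G)).card := by
    refine Finset.card_eq_sum_card_fiberwise fun a ha => ?_
    have h3 := (Finset.mem_filter.1 (show a ∈ (R ×ˢ R).filter (fun q => q.1.2.2 = q.2.2.2) from ha)).1
    exact h a.1 (Finset.mem_product.1 h3).1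
  have h3 : ∀ G ∈ F', ((Edges_Q R).filter (fun q => q.1.2.2 = G)).card =
      (R.filter (fun t => t.2.2 = G)).card ^ 2 := by
    intro G _
    rw [pow_two, ← Finset.card_product]
    congr 1
    ext q
    unfold Edges_Q
    simp only [Finset.mem_filter, Finset.mem_product]
    constructor
    · rintro ⟨⟨⟨h1, h2⟩, h3⟩, h4⟩
      exact ⟨⟨h1, h4⟩, h2, h3 ▸ h4⟩
    · rintro ⟨⟨h1, h4⟩, h2, h5⟩
      exact ⟨⟨⟨h1, h2⟩, h4.trans h5.symm⟩, h4⟩
  rw [h2, Finset.sum_congr rfl h3, h1]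
  push_cast
  exact sq_sum_le_card_mul_sum_sq

/-- pairs with the same `p` -/
private theorem Edges_Q0 {C : ℝ} (hC : 1 ≤ C) {n P : ℕ} {η : ℝ} {F F' : Finset ℕ} {α α' : ℕ → ℝ}
    {R : Finset (ℕ × ℕ × ℕ)} (h : Rel C n P η F F' α α' R) (hP : 1 ≤ P) :
    (((Edges_Q R).filter (fun q => q.1.2.1 = q.2.2.1)).card : ℝ) ≤ (2 * C + 1) * R.card := by
  have hP0 : (0 : ℝ) < P := by exact_mod_cast hP
  refine Edges_fib Prod.fst (2 * C + 1) ?_ ?_
  · intro q hq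
    unfold Edges_Q at hq
    rw [Finset.mem_filter, Finset.mem_filter, Finset.mem_product] at hq
    exact hq.1.1.1
  · intro t ht
    refine Edges_cnt _ (fun q => q.2.1) ?_ ((t.2.2 : ℝ) * t.2.1 / P) C (by linarith only [hC]) ?_
    · intro a ha a' ha' haa
      unfold Edges_Q at ha ha'
      simp only [Finset.mem_filter, Finset.mem_product] at ha ha'
      obtain ⟨⟨⟨⟨_, _⟩, a1⟩, a2⟩, a3⟩ := ha
      obtain ⟨⟨⟨⟨_, _⟩, a1'⟩, a2'⟩, a3'⟩ := ha'
      refine Prod.ext (a3.trans a3'.symm) (Prod.ext haa (Prod.ext ?_ ?_))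
      · rw [← a2, ← a2', a3, a3']
      · rw [← a1, ← a1', a3, a3']
    · intro a ha
      unfold Edges_Q at ha
      simp only [Finset.mem_filter, Finset.mem_product] at ha
      obtain ⟨⟨⟨⟨_, b1⟩, a1⟩, a2⟩, a3⟩ := ha
      have h3 := h.pos a.2 b1
      rw [← a1, ← a2, a3] at h3
      rw [abs_sub_comm] at h3
      exact Edges_div hP0 le_rfl (by linarith only [hC]) h3

private theorem Edges_floor {G p p' P n : ℕ} {C : ℝ} (hP : 1 ≤ P) (hp1 : P < p)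
    (hp2 : p ≤ 2 * P) (hp1' : P < p') (hp2' : p' ≤ 2 * P) (h1 : (n : ℝ) / C ≤ G)
    (h2 : (G : ℝ) ≤ C * n) : ∃ M : ℕ, M = ⌊(G : ℝ) * p * p' / (P : ℝ) ^ 2⌋₊ ∧
      |(M : ℝ) * (P : ℝ) ^ 2 - G * p * p'| ≤ (P : ℝ) ^ 2 ∧ (n : ℝ) / C ≤ M ∧
      (M : ℝ) ≤ 4 * C * n := by
  have hP0 : (0 : ℝ) < P := by exact_mod_cast hP
  have hG0 : (0 : ℝ) ≤ G := Nat.cast_nonneg G
  have a1 : (P : ℝ) ≤ p := by exact_mod_cast hp1.le
  have a2 : (p : ℝ) ≤ 2 * P := by exact_mod_cast hp2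
  have a1' : (P : ℝ) ≤ p' := by exact_mod_cast hp1'.le
  have a2' : (p' : ℝ) ≤ 2 * P := by exact_mod_cast hp2'
  have hx0 : 0 ≤ (G : ℝ) * p * p' / (P : ℝ) ^ 2 := by positivity
  refine ⟨_, rfl, ?_, ?_, ?_⟩
  · have b1 := Nat.floor_le hx0
    have b2 := Nat.lt_floor_add_one ((G : ℝ) * p * p' / (P : ℝ) ^ 2)
    rw [le_div_iff₀ (by positivity)] at b1
    rw [div_lt_iff₀ (by positivity)] at b2
    rw [abs_le]
    constructor <;> linarith only [b2, b1]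
  · have b1 : (P : ℝ) ^ 2 ≤ (p : ℝ) * p' := by
      rw [pow_two]
      exact mul_le_mul a1 a1' hP0.le (by linarith only [hP0, a1])
    have b2 : G ≤ ⌊(G : ℝ) * p * p' / (P : ℝ) ^ 2⌋₊ := by
      apply Nat.le_floor
      rw [le_div_iff₀ (by positivity), mul_assoc]
      exact mul_le_mul_of_nonneg_left b1 hG0
    have b3 : (G : ℝ) ≤ (⌊(G : ℝ) * p * p' / (P : ℝ) ^ 2⌋₊ : ℕ) := by exact_mod_cast b2
    exact h1.trans b3
  · have b1 : (p : ℝ) * p' ≤ 4 * (P : ℝ) ^ 2 := by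
      calc (p : ℝ) * p' ≤ 2 * P * (2 * P) := mul_le_mul a2 a2' (by linarith only [hP0, a1']) (by linarith only [hP0])
        _ = 4 * (P : ℝ) ^ 2 := by ring
    refine (Nat.floor_le hx0).trans ?_
    rw [div_le_iff₀ (by positivity), mul_assoc]
    calc (G : ℝ) * (p * p') ≤ (G : ℝ) * (4 * (P : ℝ) ^ 2) := mul_le_mul_of_nonneg_left b1 hG0
      _ ≤ C * n * (4 * (P : ℝ) ^ 2) := mul_le_mul_of_nonneg_right h2 (by positivity)
      _ = 4 * C * n * (P : ℝ) ^ 2 := by ring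

/-- the scales -/
private noncomputable def Edges_S (C : ℝ) (n : ℕ) : Finset ℕ :=
  (range (⌊4 * C * n⌋₊ + 1)).filter (fun M => (n : ℝ) / C ≤ M)

private theorem Edges_memS {C : ℝ} {n M : ℕ} (h1 : (n : ℝ) / C ≤ M) (h2 : (M : ℝ) ≤ 4 * C * n) :
    M ∈ Edges_S C n := by
  unfold Edges_S
  rw [Finset.mem_filter, Finset.mem_range]
  exact ⟨Nat.lt_succ_of_le (Nat.le_floor h2), h1⟩

private theorem Edges_ofS {C : ℝ} {n M : ℕ} (hC : 1 ≤ C) (h : M ∈ Edges_S C n) :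
    (n : ℝ) / C ≤ M ∧ (M : ℝ) ≤ 4 * C * n := by
  unfold Edges_S at h
  rw [Finset.mem_filter, Finset.mem_range] at h
  refine ⟨h.2, ?_⟩
  have h1 : M ≤ ⌊4 * C * n⌋₊ := Nat.lt_succ_iff.1 h.1
  have h2 : (M : ℝ) ≤ (⌊4 * C * n⌋₊ : ℕ) := by exact_mod_cast h1
  exact h2.trans (Nat.floor_le (by positivity))

private theorem Edges_cardS {C : ℝ} {n : ℕ} (hC : 1 ≤ C) (hn : 1 ≤ n) :
    ((Edges_S C n).card : ℝ) ≤ 5 * C * n := by
  have hn0 : (1 : ℝ) ≤ n := by exact_mod_cast hn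
  unfold Edges_S
  have h1 := Finset.card_filter_le (range (⌊4 * C * n⌋₊ + 1)) (fun M : ℕ => (n : ℝ) / C ≤ M)
  rw [Finset.card_range] at h1
  have h2 : ((((range (⌊4 * C * n⌋₊ + 1)).filter (fun M : ℕ => (n : ℝ) / C ≤ M)).card : ℕ) : ℝ) ≤
      ((⌊4 * C * n⌋₊ + 1 : ℕ) : ℝ) := by exact_mod_cast h1
  refine h2.trans ?_
  push_cast
  have h3 : (⌊4 * C * n⌋₊ : ℝ) ≤ 4 * C * n := Nat.floor_le (by positivity)
  nlinarith only [hn0, h3, hC]

private theorem Edges_EMcard (C : ℝ) (P : ℕ) (F : Finset ℕ) (R : Finset (ℕ × ℕ × ℕ)) (M : ℕ) :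
    (EM C P F R M).card ≤ (VM C P F M).card * (VM C P F M).card := by
  classical
  rw [← Finset.card_product]
  unfold EM
  exact Finset.card_filter_le _ _

/-- pairs with different `p` -/
private theorem Edges_Q1 {C : ℝ} (hC : 1 ≤ C) {n P : ℕ} {η : ℝ} {F F' : Finset ℕ} {α α' : ℕ → ℝ}
    {R : Finset (ℕ × ℕ × ℕ)} (h : Rel C n P η F F' α α' R) (hP : 1 ≤ P) :
    (((Edges_Q R).filter (fun q => ¬ q.1.2.1 = q.2.2.1)).card : ℝ) ≤
      (2 * C + 1) * ∑ M ∈ Edges_S C n, ((EM C P F R M).card : ℝ) := by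
  classical
  have hP0 : (0 : ℝ) < P := by exact_mod_cast hP
  have h1 : (((Edges_Q R).filter (fun q => ¬ q.1.2.1 = q.2.2.1)).card : ℝ) ≤
      (2 * C + 1) * (((Edges_S C n).sigma (fun M => EM C P F R M)).card : ℕ) := by
    refine Edges_fib (fun q => (⟨⌊(q.1.2.2 : ℝ) * q.2.2.1 * q.1.2.1 / (P : ℝ) ^ 2⌋₊,
      ((q.2.2.1, q.1.1), (q.1.2.1, q.2.1))⟩ : Σ _ : ℕ, (ℕ × ℕ) × (ℕ × ℕ))) (2 * C + 1) ?_ ?_
    · rintro ⟨⟨K, p', G⟩, ⟨K', p, G'⟩⟩ hq
      unfold Edges_Q at hq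
      simp only [Finset.mem_filter, Finset.mem_product] at hq
      obtain ⟨⟨⟨t1, t2⟩, hG⟩, hpp⟩ := hq
      subst hG
      have p1 := h.prime _ t1
      have p2 := h.prime _ t2
      have q1 := h.pos _ t1
      have q2 := h.pos _ t2
      have f1 := h.rngF' _ (h.memF' _ t1)
      simp only at p1 p2 q1 q2 f1
      obtain ⟨M, hM, m1, m2, m3⟩ := Edges_floor (G := G) hP p2.2.1 p2.2.2 p1.2.1 p1.2.2 f1.1 f1.2
      rw [Finset.mem_sigma]
      simp only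
      rw [← hM]
      refine ⟨Edges_memS m2 m3, ?_⟩
      unfold EM
      rw [Finset.mem_filter, Finset.mem_product]
      refine ⟨⟨?_, ?_⟩, fun hc => hpp hc.symm, G, t1, t2⟩
      · exact Edges_mem hC hP (h.memF _ t1) p2.1 p2.2.1 p2.2.2 q1 m1
      · refine Edges_mem hC hP (h.memF _ t2) p1.1 p1.2.1 p1.2.2 q2 ?_
        have : (G : ℝ) * p' * p = G * p * p' := by ring
        rw [this]
        exact m1
    · rintro ⟨M, ⟨⟨p, K⟩, ⟨p', K'⟩⟩⟩ _
      refine Edges_cnt _ (fun q => q.1.2.2) ?_ ((K : ℝ) * P / p') C (by linarith) ?_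
      · rintro ⟨⟨K1, p1', G1⟩, ⟨K1', p1, G1'⟩⟩ ha ⟨⟨K2, p2', G2⟩, ⟨K2', p2, G2'⟩⟩ ha' haa
        unfold Edges_Q at ha ha'
        simp only [Finset.mem_filter, Finset.mem_product, Sigma.mk.injEq, heq_eq_eq,
          Prod.mk.injEq] at ha ha' haa
        obtain ⟨⟨⟨_, a1⟩, _⟩, _, ⟨a2, a3⟩, a4, a5⟩ := ha
        obtain ⟨⟨⟨_, b1⟩, _⟩, _, ⟨b2, b3⟩, b4, b5⟩ := ha'
        subst a1 a2 a3 a4 a5 b1 b2 b3 b4 b5 haa
        rfl
      · rintro ⟨⟨K1, p1', G1⟩, ⟨K1', p1, G1'⟩⟩ ha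
        unfold Edges_Q at ha
        simp only [Finset.mem_filter, Finset.mem_product, Sigma.mk.injEq, heq_eq_eq,
          Prod.mk.injEq] at ha
        obtain ⟨⟨⟨⟨t1, _⟩, a1⟩, _⟩, _, ⟨a2, a3⟩, a4, a5⟩ := ha
        subst a1 a2 a3 a4 a5
        have h3 := h.pos _ t1
        have h4 := h.prime _ t1
        simp only at h3 h4
        have h5 : (P : ℝ) ≤ p1' := by exact_mod_cast h4.2.1.le
        exact Edges_div hP0 h5 (by linarith only [hC]) h3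
  rw [Finset.card_sigma] at h1
  push_cast at h1
  exact h1

theorem edges (C : ℝ) (hC : 1 ≤ C) : ∃ D : ℝ, C ≤ D ∧ ∀ (n P : ℕ) (δ η : ℝ) (F F' : Finset ℕ) (α α' : ℕ → ℝ)
    (R : Finset (ℕ × ℕ × ℕ)), Rel C n P η F F' α α' R → 0 < δ → δ ≤ 1 → D ≤ δ ^ 4 * P → 1 ≤ n →
    δ * n * P ≤ R.card →
    ∃ F'' : Finset ℕ, δ ^ 2 / D * n ≤ F''.card ∧ (∀ M ∈ F'', (n : ℝ) / D ≤ M ∧ (M : ℝ) ≤ D * n) ∧
      ∀ M ∈ F'', δ ^ 2 / D * (P : ℝ) ^ 2 ≤ (EM C P F R M).card := by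
  have hC0 : (0 : ℝ) < C := by linarith
  have hC2 : 0 ≤ C ^ 2 := by positivity
  set D : ℝ := 2 * C ^ 2 * (2 * C + 1) ^ 2 + 20 * C ^ 2 * (2 * C + 1) +
    4 * C * (2 * C + 1) * (4 * C + 3) ^ 2 with hD
  have d1 : 2 * C ^ 2 * (2 * C + 1) ^ 2 ≤ D := by
    have e1 : 0 ≤ 20 * C ^ 2 * (2 * C + 1) := by positivity
    have e2 : 0 ≤ 4 * C * (2 * C + 1) * (4 * C + 3) ^ 2 := by positivity
    linarith only [e1, e2]
  have d2 : 20 * C ^ 2 * (2 * C + 1) ≤ D := by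
    have e1 : 0 ≤ 2 * C ^ 2 * (2 * C + 1) ^ 2 := by positivity
    have e2 : 0 ≤ 4 * C * (2 * C + 1) * (4 * C + 3) ^ 2 := by positivity
    linarith only [hC, hC2, d1, e1]
  have d3 : 4 * C * (2 * C + 1) * (4 * C + 3) ^ 2 ≤ D := by
    have e1 : 0 ≤ 2 * C ^ 2 * (2 * C + 1) ^ 2 := by positivity
    have e2 : 0 ≤ 20 * C ^ 2 * (2 * C + 1) := by positivity
    linarith
  have d4 : 4 * C ≤ D := by
    refine le_trans ?_ d2
    nlinarith only [hC, mul_nonneg hC2 hC0.le]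
  have hD0 : 0 < D := by linarith
  refine ⟨D, by linarith, ?_⟩
  intro n P δ η F F' α α' R h hδ hδ1 hDP hn hR
  have hn0 : (1 : ℝ) ≤ n := by exact_mod_cast hn
  have hδ4 : δ ^ 4 ≤ δ ^ 2 := pow_le_pow_of_le_one hδ.le hδ1 (by norm_num)
  have hP0 : (0 : ℝ) < P := by
    by_contra hc
    have h1 : (P : ℝ) = 0 := le_antisymm (not_lt.1 hc) (Nat.cast_nonneg P)
    rw [h1, mul_zero] at hDP
    linarith only [hC, d4, hDP]
  have hP : 1 ≤ P := by
    have : 0 < P := by exact_mod_cast hP0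
    omega
  have hDP2 : D ≤ δ ^ 2 * P := hDP.trans (mul_le_mul_of_nonneg_right hδ4 hP0.le)
  -- the number of pairs
  have c1 := Edges_CS R F' h.memF'
  have c2 := Edges_card hC hn h.rngF'
  have c3 := Edges_R hC h hn hP
  have c4 := Edges_Q0 hC h hP
  have c5 := Edges_Q1 hC h hP
  have c6 : (((Edges_Q R).filter (fun q => q.1.2.1 = q.2.2.1)).card : ℝ) +
      ((Edges_Q R).filter (fun q => ¬ q.1.2.1 = q.2.2.1)).card = (Edges_Q R).card := by
    have := Finset.card_filter_add_card_filter_not (s := Edges_Q R)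
      (fun q : (ℕ × ℕ × ℕ) × (ℕ × ℕ × ℕ) => q.1.2.1 = q.2.2.1)
    exact_mod_cast this
  set q : ℝ := ((Edges_Q R).card : ℝ) with hq
  set q0 : ℝ := (((Edges_Q R).filter (fun q => q.1.2.1 = q.2.2.1)).card : ℝ) with hq0
  set q1 : ℝ := (((Edges_Q R).filter (fun q => ¬ q.1.2.1 = q.2.2.1)).card : ℝ) with hq1
  set S : ℝ := ∑ M ∈ Edges_S C n, ((EM C P F R M).card : ℝ) with hS
  have hq00 : 0 ≤ q := Nat.cast_nonneg _
  -- `q ≥ δ² n P² / C`
  have e1 : δ ^ 2 * n * P ^ 2 ≤ C * q := by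
    have f1 : (δ * n * P) ^ 2 ≤ (R.card : ℝ) ^ 2 := pow_le_pow_left₀ (by positivity) hR 2
    have f2 : (F'.card : ℝ) * q ≤ C * n * q := mul_le_mul_of_nonneg_right c2 hq00
    have f3 : (n : ℝ) * (δ ^ 2 * n * P ^ 2) ≤ n * (C * q) := by
      calc (n : ℝ) * (δ ^ 2 * n * P ^ 2) = (δ * n * P) ^ 2 := by ring
        _ ≤ C * n * q := by linarith only [c1, f1, f2]
        _ = n * (C * q) := by ring
    exact le_of_mul_le_mul_left f3 (by linarith)
  -- `q0 ≤ δ² n P² / (2 C)`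
  have e2 : 2 * (C * q0) ≤ δ ^ 2 * n * P ^ 2 := by
    have f1 : q0 ≤ (2 * C + 1) * ((2 * C + 1) * (C * n * P)) :=
      c4.trans (mul_le_mul_of_nonneg_left c3 (by linarith))
    have f2 : 2 * (C * q0) ≤ 2 * C ^ 2 * (2 * C + 1) ^ 2 * (n * P) := by
      calc 2 * (C * q0) ≤ 2 * (C * ((2 * C + 1) * ((2 * C + 1) * (C * n * P)))) := by
            refine mul_le_mul_of_nonneg_left (mul_le_mul_of_nonneg_left f1 hC0.le) (by norm_num)
        _ = _ := by ring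
    refine f2.trans ?_
    calc 2 * C ^ 2 * (2 * C + 1) ^ 2 * (n * P) ≤ (δ ^ 2 * P) * (n * P) :=
          mul_le_mul_of_nonneg_right (d1.trans hDP2) (by positivity)
      _ = _ := by ring
  have e3 : δ ^ 2 * n * P ^ 2 ≤ 2 * C * (2 * C + 1) * S := by
    have f1 : C * q = C * q0 + C * q1 := by rw [← c6]; ring
    have f2 : C * q1 ≤ C * ((2 * C + 1) * S) := mul_le_mul_of_nonneg_left c5 hC0.le
    have f3 : 2 * C * (2 * C + 1) * S = 2 * (C * ((2 * C + 1) * S)) := by ring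
    linarith
  -- the set of the good scales
  set F'' := (Edges_S C n).filter (fun M => δ ^ 2 / D * (P : ℝ) ^ 2 ≤ (EM C P F R M).card)
    with hF''
  have e4 : S ≤ F''.card * ((4 * C + 3) * P) ^ 2 + 5 * C * n * (δ ^ 2 / D * (P : ℝ) ^ 2) := by
    rw [hS, ← Finset.sum_filter_add_sum_filter_not (Edges_S C n)
      (fun M => δ ^ 2 / D * (P : ℝ) ^ 2 ≤ (EM C P F R M).card)]
    refine add_le_add ?_ ?_
    · calc ∑ M ∈ F'', ((EM C P F R M).card : ℝ) ≤ ∑ _M ∈ F'', ((4 * C + 3) * (P : ℝ)) ^ 2 := by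
            refine Finset.sum_le_sum fun M _ => ?_
            have f1 := Edges_EMcard C P F R M
            have f2 : ((EM C P F R M).card : ℝ) ≤ (VM C P F M).card * (VM C P F M).card := by
              exact_mod_cast f1
            refine f2.trans ?_
            rw [pow_two]
            have f3 := VM_card C hC P F M hP
            exact mul_le_mul f3 f3 (Nat.cast_nonneg _) (by positivity)
        _ = _ := by rw [Finset.sum_const, nsmul_eq_mul]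
    · calc ∑ M ∈ (Edges_S C n).filter (fun M => ¬ δ ^ 2 / D * (P : ℝ) ^ 2 ≤ (EM C P F R M).card),
            ((EM C P F R M).card : ℝ)
          ≤ ∑ _M ∈ (Edges_S C n).filter
            (fun M => ¬ δ ^ 2 / D * (P : ℝ) ^ 2 ≤ (EM C P F R M).card),
              (δ ^ 2 / D * (P : ℝ) ^ 2) := by
            refine Finset.sum_le_sum fun M hM => ?_
            exact (not_le.1 (Finset.mem_filter.1 hM).2).le
        _ = (((Edges_S C n).filter
            (fun M => ¬ δ ^ 2 / D * (P : ℝ) ^ 2 ≤ (EM C P F R M).card)).card : ℝ) *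
              (δ ^ 2 / D * (P : ℝ) ^ 2) := by rw [Finset.sum_const, nsmul_eq_mul]
        _ ≤ 5 * C * n * (δ ^ 2 / D * (P : ℝ) ^ 2) := by
            refine mul_le_mul_of_nonneg_right ?_ (by positivity)
            refine le_trans ?_ (Edges_cardS hC hn)
            exact_mod_cast Finset.card_filter_le _ _
  refine ⟨F'', ?_, ?_, ?_⟩
  · -- the number of good scales
    have g1 : 2 * C * (2 * C + 1) * (5 * C * n * (δ ^ 2 / D * (P : ℝ) ^ 2)) ≤
        (1 / 2) * (δ ^ 2 * n * P ^ 2) := by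
      have f1 : 2 * C * (2 * C + 1) * (5 * C * n * (δ ^ 2 / D * (P : ℝ) ^ 2)) =
          (20 * C ^ 2 * (2 * C + 1)) / D * ((1 / 2) * (δ ^ 2 * n * P ^ 2)) := by
        field_simp
        ring
      rw [f1]
      have f2 : (20 * C ^ 2 * (2 * C + 1)) / D ≤ 1 := (div_le_one hD0).2 d2
      have f3 : 0 ≤ (1 / 2) * (δ ^ 2 * n * (P : ℝ) ^ 2) := by positivity
      nlinarith only [f2, f3]
    have g2 : (1 / 2) * (δ ^ 2 * n * (P : ℝ) ^ 2) ≤
        2 * C * (2 * C + 1) * (F''.card * ((4 * C + 3) * P) ^ 2) := by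
      have f1 : 2 * C * (2 * C + 1) * S ≤ 2 * C * (2 * C + 1) *
          (F''.card * ((4 * C + 3) * P) ^ 2 + 5 * C * n * (δ ^ 2 / D * (P : ℝ) ^ 2)) :=
        mul_le_mul_of_nonneg_left e4 (by positivity)
      rw [mul_add] at f1
      linarith only [e3, g1, f1]
    have g3 : δ ^ 2 * n ≤ 4 * C * (2 * C + 1) * (4 * C + 3) ^ 2 * F''.card := by
      have f1 : (δ ^ 2 * n) * (P : ℝ) ^ 2 ≤
          (4 * C * (2 * C + 1) * (4 * C + 3) ^ 2 * F''.card) * (P : ℝ) ^ 2 := by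
        calc (δ ^ 2 * n) * (P : ℝ) ^ 2 = 2 * ((1 / 2) * (δ ^ 2 * n * (P : ℝ) ^ 2)) := by ring
          _ ≤ 2 * (2 * C * (2 * C + 1) * (F''.card * ((4 * C + 3) * P) ^ 2)) := by linarith only [g2]
          _ = _ := by ring
      exact le_of_mul_le_mul_right f1 (by positivity)
    have g4 : δ ^ 2 * n ≤ D * F''.card :=
      g3.trans (mul_le_mul_of_nonneg_right d3 (Nat.cast_nonneg _))
    rw [div_mul_eq_mul_div, div_le_iff₀ hD0]
    linarith only [g4]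
  · intro M hM
    have hM1 := Edges_ofS hC (Finset.mem_filter.1 hM).1
    refine ⟨?_, ?_⟩
    · refine le_trans ?_ hM1.1
      exact div_le_div_of_nonneg_left (by linarith only [hn0]) hC0 (by linarith only [hC, d4])
    · refine hM1.2.trans ?_
      exact mul_le_mul_of_nonneg_right d4 (by linarith only [hn0])
  · intro M hM
    exact (Finset.mem_filter.1 hM).2

end Pool.Agent.H53.MID

end

section

/-!
# TPS ClimbT: one step to a larger scale, for all `η ≤ N^(-ε)`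

Proof (compare `Pool.Agent.H53.MID.climb`, file `H53/MID/Climb.lean`, complete).  `edges` gives `D1` and `F''`.  For `M ∈ F''` apply `tup` to `V = VM C P F M`, `pr = Prod.fst`, `E = EM C P F R M`, `b = 4C+3`, `δ1 := δ^2/D1` (`VM_fib`, `VM_card`), `k`,
`Bad = BadS k P κ`, `κ = 2500 d/δ3^2`, `d = 2 η`, `δ2 = δ1^k/(2 b^(2k))`, `δ3 = δ2/b`.  `badS_card` (`k = (k-1) + 1`): `|Bad| ≤ 2 P^2 (12 κ P + 1)^(k-1) ≤ 2^k P^2 ((12 κ P)^(k-1) + 1)`, so `hBad` follows from `2^(k+1) b^(2k) 2 (12 κ)^(k-1) P ≤ δ1^k` and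
`2^(k+1) b^(2k) 2 P^2 ≤ δ1^k P^k`; the first from `D η^(k-1) P ≤ δ^e` (`κ = 5000 η/δ3^2`), the second from `k ≥ 3`, `D ≤ δ^e P` (`D`, `e` large; `δ ≤ 1`).
We get `v_j = (p_j, K_j)`, the tuple `p` is `GoodT P κ` (its entries are primes of `(P, 2P]`), and `U` = the common neighbours `u = (r, K)`, `|U| ≥ δ2 P`.  An edge `(v_j, u) ∈ EM` gives (with its `G`) `nz (r α(K_j) - α'(G)) ≤ η`, `nz (p_j α(K) - α'(G)) ≤ η`, so
`nz (p_j α(K) - r α(K_j)) ≤ 2 η = d`.  For every `r` in the image `RR` of `U` under `Prod.fst` choose `K_r` with `(r, K_r) ∈ U`; `|RR| ≥ |U|/b ≥ δ3 P`.  `kt` with `a_j = α(K_j)`, `b_r = α(K_r)`, `δ = δ3` (`8 ≤ δ3 P`, `κ ≤ 1/10` from `D η ≤ δ^e`):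
`w` and `R1 ⊆ RR`, `|R1| ≥ δ3^2 P/2`, `nz (α(K_r) - r w) ≤ 2464 η/(δ3 P)`.  Put `α''(M) = w`, triples `(M, r, K_r)`, `r ∈ R1`; `|K_r r - M P| ≤ (2C+1) P` by the definition of `VM`.
-/

set_option autoImplicit false

namespace Pool.Agent.H53.TPS

open Finset
open Pool.Agent.H53.MID

private theorem ClimbT_edge (C : ℝ) (n P : ℕ) (η : ℝ) (F F' : Finset ℕ) (α α' : ℕ → ℝ)
    (R : Finset (ℕ × ℕ × ℕ)) (h : Rel C n P η F F' α α' R) (M : ℕ) (v u : ℕ × ℕ)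
    (he : (v, u) ∈ EM C P F R M) :
    nz ((v.1 : ℝ) * α u.2 - (u.1 : ℝ) * α v.2) ≤ 2 * η := by
  classical
  unfold EM at he
  rw [Finset.mem_filter] at he
  obtain ⟨_, _, G, h1, h2⟩ := he
  have f1 := h.freq _ h1
  have f2 := h.freq _ h2
  simp only at f1 f2
  have f3 : nz (α' G - (u.1 : ℝ) * α v.2) ≤ η := by
    rw [← nz_neg]
    have : -(α' G - (u.1 : ℝ) * α v.2) = (u.1 : ℝ) * α v.2 - α' G := by ring
    rw [this]
    exact f1
  calc nz ((v.1 : ℝ) * α u.2 - (u.1 : ℝ) * α v.2)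
      ≤ nz ((v.1 : ℝ) * α u.2 - α' G) + nz (α' G - (u.1 : ℝ) * α v.2) := nz_triangle _ _ _
    _ ≤ η + η := add_le_add f2 f3
    _ = 2 * η := by ring

private theorem ClimbT_vm (C : ℝ) (P : ℕ) (F : Finset ℕ) (M : ℕ) (v : ℕ × ℕ) (hv : v ∈ VM C P F M) :
    v.1.Prime ∧ (P < v.1 ∧ v.1 ≤ 2 * P) ∧ v.2 ∈ F ∧ |(v.2 : ℝ) * v.1 - M * P| ≤ (2 * C + 1) * P := by
  unfold VM at hv
  rw [Finset.mem_filter, Finset.mem_product, Finset.mem_filter, Finset.mem_Ioc] at hv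
  exact ⟨hv.1.1.2, hv.1.1.1, hv.1.2, hv.2⟩

private theorem ClimbT_one (C b δ1 δ3 : ℝ) (hC : 1 ≤ C) (hb : b = 4 * C + 3) (k : ℕ) (hk : 3 ≤ k) (n P : ℕ) (η : ℝ)
    (F F' : Finset ℕ) (α α' : ℕ → ℝ) (R : Finset (ℕ × ℕ × ℕ)) (h : Rel C n P η F F' α α' R)
    (hη : 0 ≤ η) (hP : 1 ≤ P) (hδ1 : 0 < δ1) (hδ3 : 0 < δ3) (hδ31 : δ3 ≤ 1)
    (hδδ : δ1 ^ k = δ3 * b * (2 * b ^ (2 * k)))
    (hκ : 2500 * (2 * η) / δ3 ^ 2 ≤ 1 / 10) (h8 : 8 ≤ δ3 * P)
    (hBad : 2 * b ^ (2 * k) * ((BadS k P (2500 * (2 * η) / δ3 ^ 2)).card : ℝ) ≤ δ1 ^ k * (P : ℝ) ^ k)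
    (M : ℕ) (hcard : δ1 * (P : ℝ) ^ 2 ≤ (EM C P F R M).card) :
    ∃ (w : ℝ) (U : Finset (ℕ × ℕ)), U ⊆ VM C P F M ∧
      (∀ u ∈ U, nz ((u.1 : ℝ) * w - α u.2) ≤ 1232 * (2 * η) / (δ3 * P)) ∧
      δ3 ^ 2 * P / 2 ≤ (U.card : ℝ) := by
  classical
  have hPr : (0 : ℝ) < P := by exact_mod_cast hP
  have hb1 : (1 : ℝ) ≤ b := by linarith
  have hb0 : (0 : ℝ) < b := by linarith
  have hEsub : EM C P F R M ⊆ VM C P F M ×ˢ VM C P F M := by
    unfold EM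
    exact Finset.filter_subset _ _
  obtain ⟨v, hv, hgood, hU⟩ := tup k (by omega) (VM C P F M) (Prod.fst : ℕ × ℕ → ℕ) (EM C P F R M)
    (BadS k P (2500 * (2 * η) / δ3 ^ 2)) b P δ1 hb1 hPr hδ1 (by rw [hb]; exact VM_card C hC P F M hP)
    (fun p => by rw [hb]; exact VM_fib C hC P F M p hP) hEsub hcard hBad
  set U0 := (VM C P F M).filter (fun u => ∀ j, (v j, u) ∈ EM C P F R M) with hU0
  have hU0mem : ∀ u ∈ U0, u ∈ VM C P F M ∧ ∀ j, (v j, u) ∈ EM C P F R M := by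
    intro u hu
    rw [hU0, Finset.mem_filter] at hu
    exact hu
  obtain ⟨RR, hRRdef⟩ : ∃ RR : Finset ℕ, RR = U0.image Prod.fst := ⟨_, rfl⟩
  have hex : ∀ r : ℕ, r ∈ RR → ∃ K : ℕ, (r, K) ∈ U0 := by
    intro r hr
    rw [hRRdef, Finset.mem_image] at hr
    obtain ⟨u, hu, rfl⟩ := hr
    exact ⟨u.2, hu⟩
  choose! Kf hKf using hex
  have hcardU0 : (U0.card : ℝ) ≤ b * RR.card := by
    have h1 : U0.card = ∑ r ∈ RR, (U0.filter (fun u => u.1 = r)).card := by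
      apply Finset.card_eq_sum_card_fiberwise
      intro u hu
      rw [Finset.mem_coe, hRRdef]
      exact Finset.mem_image_of_mem _ hu
    rw [h1]
    push_cast
    calc ∑ r ∈ RR, ((U0.filter (fun u => u.1 = r)).card : ℝ) ≤ ∑ _r ∈ RR, b := by
          apply Finset.sum_le_sum
          intro r _
          have h2 : ((U0.filter (fun u => u.1 = r)).card : ℝ) ≤
              (((VM C P F M).filter (fun u => u.1 = r)).card : ℝ) := by
            exact_mod_cast Finset.card_le_card (Finset.filter_subset_filter _ (Finset.filter_subset _ _))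
          refine h2.trans ?_
          rw [hb]
          exact VM_fib C hC P F M r hP
      _ = b * RR.card := by rw [Finset.sum_const, nsmul_eq_mul, mul_comm]
  have hcRR : δ3 * P ≤ (RR.card : ℝ) := by
    have hBpos : 0 < 2 * b ^ (2 * k) := by positivity
    have h1 : δ3 * b * (2 * b ^ (2 * k)) * P ≤ 2 * b ^ (2 * k) * (U0.card : ℝ) := by
      rw [← hδδ]; exact hU
    have h2 : δ3 * b * P ≤ (U0.card : ℝ) := by
      have h3 : 2 * b ^ (2 * k) * (δ3 * b * P) ≤ 2 * b ^ (2 * k) * (U0.card : ℝ) := by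
        refine le_trans (le_of_eq ?_) h1
        ring
      exact le_of_mul_le_mul_left h3 hBpos
    have h4 : b * (δ3 * P) ≤ b * RR.card := by
      refine le_trans (le_of_eq ?_) (h2.trans hcardU0)
      ring
    exact le_of_mul_le_mul_left h4 hb0
  have hRRp : ∀ r ∈ RR, r.Prime ∧ P < r ∧ r ≤ 2 * P := by
    intro r hr
    obtain ⟨a1, a2, -, -⟩ := ClimbT_vm C P F M _ (hU0mem _ (hKf r hr)).1
    exact ⟨a1, a2.1, a2.2⟩
  have hpj : ∀ j, P < (v j).1 ∧ (v j).1 ≤ 2 * P := fun j => (ClimbT_vm C P F M _ (hv j)).2.1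
  have hgoodT : GoodT P (2500 * (2 * η) / δ3 ^ 2) (fun j => (v j).1) := by
    by_contra hcon
    apply hgood
    rw [mem_BadS]
    refine ⟨fun j => ?_, hcon⟩
    obtain ⟨a1, a2, -, -⟩ := ClimbT_vm C P F M _ (hv j)
    exact ⟨a2.1, a2.2, a1⟩
  obtain ⟨w, R1, hR1, hR1c, hR1f⟩ := kt (k := k) (by omega) P δ3 (2 * η) (fun j => (v j).1)
    (fun j => α (v j).2) RR (fun r => α (Kf r)) hδ3 hδ31 (by positivity) hpj hRRp hcRR h8
    (fun j r hr => ClimbT_edge C n P η F F' α α' R h M (v j) (r, Kf r) ((hU0mem _ (hKf r hr)).2 j))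
    hgoodT hκ
  refine ⟨w, R1.image (fun r => (r, Kf r)), ?_, ?_, ?_⟩
  · intro u hu
    rw [Finset.mem_image] at hu
    obtain ⟨r, hr, rfl⟩ := hu
    exact (hU0mem _ (hKf r (hR1 hr))).1
  · intro u hu
    rw [Finset.mem_image] at hu
    obtain ⟨r, hr, rfl⟩ := hu
    have h1 := hR1f r hr
    rw [← nz_neg]
    have h2 : -(((r, Kf r) : ℕ × ℕ).1 * w - α ((r, Kf r) : ℕ × ℕ).2) = α (Kf r) - r * w := by
      simp only
      ring
    rw [h2]
    exact h1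
  · rw [Finset.card_image_of_injOn]
    · exact hR1c
    · intro r _ r' _ he
      exact (Prod.mk.inj he).1

private theorem ClimbT_pow (x : ℝ) (hx : 0 ≤ x) (m : ℕ) : (x + 1) ^ m ≤ 2 ^ m * (x ^ m + 1) := by
  rcases le_total x 1 with h | h
  · calc (x + 1) ^ m ≤ 2 ^ m := pow_le_pow_left₀ (by linarith) (by linarith) m
      _ ≤ 2 ^ m * (x ^ m + 1) := by
          have h1 : 0 ≤ x ^ m := by positivity
          have h2 : (0 : ℝ) < 2 ^ m := by positivity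
          nlinarith
  · calc (x + 1) ^ m ≤ (2 * x) ^ m := pow_le_pow_left₀ (by linarith) (by linarith) m
      _ = 2 ^ m * x ^ m := by rw [mul_pow]
      _ ≤ 2 ^ m * (x ^ m + 1) := by
          have h2 : (0 : ℝ) < 2 ^ m := by positivity
          nlinarith

/-- the bound for the bad tuples -/
private theorem ClimbT_bad (b δ1 κ : ℝ) (k' P : ℕ) (hk : 2 ≤ k') (hb : 1 ≤ b) (hδ1 : 0 < δ1) (hκ0 : 0 ≤ κ)
    (hκ : κ ≤ 1 / 10) (hP : 1 ≤ P)
    (h1 : 2 ^ (k' + 3) * b ^ (2 * (k' + 1)) * ((12 * κ) ^ k' * P) ≤ δ1 ^ (k' + 1))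
    (h2 : 2 ^ (k' + 3) * b ^ (2 * (k' + 1)) ≤ δ1 ^ (k' + 1) * P) :
    2 * b ^ (2 * (k' + 1)) * ((BadS (k' + 1) P κ).card : ℝ) ≤ δ1 ^ (k' + 1) * (P : ℝ) ^ (k' + 1) := by
  have hPr : (1 : ℝ) ≤ P := by exact_mod_cast hP
  have hP0 : (0 : ℝ) < P := by linarith
  have hB0 : 0 < b ^ (2 * (k' + 1)) := by positivity
  have hc := badS_card k' P κ hP hκ0 hκ
  have hp := ClimbT_pow (12 * κ * P) (by positivity) k'
  have e1 : 2 * b ^ (2 * (k' + 1)) * ((BadS (k' + 1) P κ).card : ℝ) ≤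
      2 * b ^ (2 * (k' + 1)) * (2 * P ^ 2 * (2 ^ k' * ((12 * κ * P) ^ k' + 1))) := by
    apply mul_le_mul_of_nonneg_left _ (by positivity)
    refine hc.trans ?_
    exact mul_le_mul_of_nonneg_left hp (by positivity)
  refine e1.trans ?_
  have e2 : 2 * b ^ (2 * (k' + 1)) * (2 * P ^ 2 * (2 ^ k' * ((12 * κ * P) ^ k' + 1))) =
      (2 ^ (k' + 3) * b ^ (2 * (k' + 1)) * ((12 * κ) ^ k' * P)) * (P : ℝ) ^ (k' + 1) / 2 +
      (2 ^ (k' + 3) * b ^ (2 * (k' + 1))) * (P : ℝ) ^ 2 / 2 := by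
    rw [mul_pow (12 * κ) (P : ℝ) k']
    ring
  rw [e2]
  have e3 : (2 ^ (k' + 3) * b ^ (2 * (k' + 1)) * ((12 * κ) ^ k' * P)) * (P : ℝ) ^ (k' + 1) ≤
      δ1 ^ (k' + 1) * (P : ℝ) ^ (k' + 1) := mul_le_mul_of_nonneg_right h1 (by positivity)
  have e4 : (2 ^ (k' + 3) * b ^ (2 * (k' + 1))) * (P : ℝ) ^ 2 ≤ δ1 ^ (k' + 1) * (P : ℝ) ^ (k' + 1) := by
    calc (2 ^ (k' + 3) * b ^ (2 * (k' + 1))) * (P : ℝ) ^ 2 ≤ (δ1 ^ (k' + 1) * P) * (P : ℝ) ^ 2 :=
          mul_le_mul_of_nonneg_right h2 (by positivity)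
      _ = δ1 ^ (k' + 1) * (P : ℝ) ^ 3 := by ring
      _ ≤ δ1 ^ (k' + 1) * (P : ℝ) ^ (k' + 1) := by
          apply mul_le_mul_of_nonneg_left _ (by positivity)
          exact pow_le_pow_right₀ hPr (by omega)
  linarith

theorem climb_t (C : ℝ) (hC : 1 ≤ C) (k : ℕ) (hk : 3 ≤ k) : ∃ (D : ℝ) (e : ℕ), C ≤ D ∧ ∀ (n P : ℕ) (δ η : ℝ) (F F' : Finset ℕ)
    (α α' : ℕ → ℝ) (R : Finset (ℕ × ℕ × ℕ)), Rel C n P η F F' α α' R → 0 < δ → δ ≤ 1 → 0 ≤ η → D * η ≤ δ ^ e →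
    D * η ^ (k - 1) * P ≤ δ ^ e → D ≤ δ ^ e * P → 1 ≤ n → δ * n * P ≤ R.card →
    ∃ (F'' : Finset ℕ) (α'' : ℕ → ℝ) (R'' : Finset (ℕ × ℕ × ℕ)), Rel D n P (D * η / (δ ^ e * P)) F'' F α'' α R'' ∧
      δ ^ e / D * n ≤ F''.card ∧
      ∀ M ∈ F'', δ ^ e / D * P ≤ ((R''.filter (fun t => t.1 = M)).card : ℝ) := by
  classical
  obtain ⟨D1, hCD1, hedges⟩ := edges C hC
  have hD1pos : 0 < D1 := by linarith
  have hD1one : 1 ≤ D1 := by linarith
  obtain ⟨b, hb⟩ : ∃ b : ℝ, b = 4 * C + 3 := ⟨_, rfl⟩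
  have hb1 : (1 : ℝ) ≤ b := by linarith
  have hb0 : (0 : ℝ) < b := by linarith
  obtain ⟨k', rfl⟩ : ∃ k' : ℕ, k = k' + 1 := ⟨k - 1, by omega⟩
  have hk' : 2 ≤ k' := by omega
  simp only [Nat.add_sub_cancel]
  obtain ⟨A, hA⟩ : ∃ A : ℝ, A = 2 * D1 ^ (k' + 1) * b ^ (2 * (k' + 1)) * b := ⟨_, rfl⟩
  have hA0 : 0 < A := by rw [hA]; positivity
  have hA1 : 1 ≤ A := by
    have h1 : (1 : ℝ) ≤ D1 ^ (k' + 1) := one_le_pow₀ hD1one
    have h2 : (1 : ℝ) ≤ b ^ (2 * (k' + 1)) := one_le_pow₀ hb1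
    rw [hA]
    have h3 : (1 : ℝ) ≤ D1 ^ (k' + 1) * b ^ (2 * (k' + 1)) := one_le_mul_of_one_le_of_one_le h1 h2
    have h4 : (1 : ℝ) ≤ D1 ^ (k' + 1) * b ^ (2 * (k' + 1)) * b := one_le_mul_of_one_le_of_one_le h3 hb1
    linarith
  obtain ⟨X1, hX1⟩ : ∃ X : ℝ, X = 2 ^ (k' + 3) * b ^ (2 * (k' + 1)) * 60000 ^ k' * D1 ^ (k' + 1) * A ^ (2 * k') :=
    ⟨_, rfl⟩
  obtain ⟨X2, hX2⟩ : ∃ X : ℝ, X = 2 ^ (k' + 3) * b ^ (2 * (k' + 1)) * D1 ^ (k' + 1) := ⟨_, rfl⟩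
  have hX1p : 0 < X1 := by rw [hX1]; positivity
  have hX2p : 0 < X2 := by rw [hX2]; positivity
  have hA2p : 0 < A ^ 2 := by positivity
  obtain ⟨D, hD⟩ : ∃ D : ℝ, D = X1 + X2 + 50000 * A ^ 2 + 2464 * A + D1 + (2 * C + 1) := ⟨_, rfl⟩
  obtain ⟨e, he⟩ : ∃ e : ℕ, e = 2 * (k' + 1) + 4 * (k' + 1) * k' + 4 := ⟨_, rfl⟩
  have hDp : 0 < D := by rw [hD]; positivity
  have hDC : 2 * C + 1 ≤ D := by rw [hD]; linarith
  have hDD1 : D1 ≤ D := by rw [hD]; linarith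
  have hCD : C ≤ D := by linarith
  refine ⟨D, e, hCD, ?_⟩
  intro n P δ η F F' α α' R hRel hδ hδ1 hη hDη hDη2 hDP hn hcard
  have hδe : 0 < δ ^ e := by positivity
  have hPpos : 1 ≤ P := by
    rcases Nat.eq_zero_or_pos P with h0 | h0
    · subst h0
      simp only [Nat.cast_zero, mul_zero] at hDP
      linarith
    · exact h0
  have hPr : (0 : ℝ) < P := by exact_mod_cast hPpos
  have hpw : ∀ j : ℕ, j ≤ e → δ ^ e ≤ δ ^ j := fun j hj => pow_le_pow_of_le_one hδ.le hδ1 hj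
  obtain ⟨F'', hF1, hF2, hF3⟩ := hedges n P δ η F F' α α' R hRel hδ hδ1
    ((hDD1.trans hDP).trans (mul_le_mul_of_nonneg_right (hpw 4 (by omega)) hPr.le)) hn hcard
  -- parameters
  obtain ⟨δ1, hδ1def⟩ : ∃ x : ℝ, x = δ ^ 2 / D1 := ⟨_, rfl⟩
  obtain ⟨δ3, hδ3def⟩ : ∃ x : ℝ, x = δ ^ (2 * (k' + 1)) / A := ⟨_, rfl⟩
  have hδ1pos : 0 < δ1 := by rw [hδ1def]; positivity
  have hδ3pos : 0 < δ3 := by rw [hδ3def]; positivity
  have hδ3one : δ3 ≤ 1 := by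
    rw [hδ3def, div_le_one hA0]
    exact (pow_le_one₀ hδ.le hδ1).trans hA1
  have hδ1k : δ1 ^ (k' + 1) = δ ^ (2 * (k' + 1)) / D1 ^ (k' + 1) := by
    rw [hδ1def, div_pow, ← pow_mul]
  have hD1k : 0 < D1 ^ (k' + 1) := by positivity
  have hBk : 0 < b ^ (2 * (k' + 1)) := by positivity
  have hδδ : δ1 ^ (k' + 1) = δ3 * b * (2 * b ^ (2 * (k' + 1))) := by
    rw [hδ1k, hδ3def, hA]
    field_simp
  have hδ3sq : δ3 ^ 2 = δ ^ (4 * (k' + 1)) / A ^ 2 := by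
    rw [hδ3def, div_pow, ← pow_mul]
    congr 2
    ring
  have hee : 4 * (k' + 1) ≤ e := by
    rw [he]
    nlinarith
  have h50 : 50000 * η ≤ δ3 ^ 2 := by
    rw [hδ3sq, le_div_iff₀ hA2p]
    have h1 : 50000 * A ^ 2 ≤ D := by rw [hD]; linarith
    calc 50000 * η * A ^ 2 = (50000 * A ^ 2) * η := by ring
      _ ≤ D * η := mul_le_mul_of_nonneg_right h1 hη
      _ ≤ δ ^ e := hDη
      _ ≤ δ ^ (4 * (k' + 1)) := hpw _ hee
  have hδ3sqp : 0 < δ3 ^ 2 := by positivity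
  have hκ : 2500 * (2 * η) / δ3 ^ 2 ≤ 1 / 10 := by
    rw [div_le_iff₀ hδ3sqp]
    linarith
  have hκ0 : 0 ≤ 2500 * (2 * η) / δ3 ^ 2 := by positivity
  have h8 : 8 ≤ δ3 * P := by
    rw [hδ3def, div_mul_eq_mul_div, le_div_iff₀ hA0]
    have h1 : 8 * A ≤ D := by rw [hD]; linarith
    exact (h1.trans hDP).trans (mul_le_mul_of_nonneg_right (hpw _ (by omega)) hPr.le)
  have hbad1 : 2 ^ (k' + 3) * b ^ (2 * (k' + 1)) * ((12 * (2500 * (2 * η) / δ3 ^ 2)) ^ k' * P) ≤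
      δ1 ^ (k' + 1) := by
    have e1 : (12 * (2500 * (2 * η) / δ3 ^ 2)) ^ k' = 60000 ^ k' * η ^ k' * A ^ (2 * k') / δ ^ (4 * (k' + 1) * k') := by
      have : 12 * (2500 * (2 * η) / δ3 ^ 2) = 60000 * η * A ^ 2 / δ ^ (4 * (k' + 1)) := by
        rw [hδ3sq]
        field_simp
        ring
      rw [this, div_pow, mul_pow, mul_pow, ← pow_mul, ← pow_mul]
    rw [e1, hδ1k]
    have hd1 : 0 < δ ^ (4 * (k' + 1) * k') := by positivity
    have hd2 : 0 < δ ^ (2 * (k' + 1)) := by positivity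
    rw [le_div_iff₀ hD1k]
    have e2 : 2 ^ (k' + 3) * b ^ (2 * (k' + 1)) *
        (60000 ^ k' * η ^ k' * A ^ (2 * k') / δ ^ (4 * (k' + 1) * k') * P) * D1 ^ (k' + 1) =
        (X1 * η ^ k' * P) / δ ^ (4 * (k' + 1) * k') := by
      rw [hX1]
      field_simp
    rw [e2, div_le_iff₀ hd1, ← pow_add]
    have h1 : X1 ≤ D := by rw [hD]; linarith
    calc X1 * η ^ k' * P ≤ D * η ^ k' * P := by
          apply mul_le_mul_of_nonneg_right _ hPr.le
          exact mul_le_mul_of_nonneg_right h1 (by positivity)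
      _ ≤ δ ^ e := hDη2
      _ ≤ δ ^ (2 * (k' + 1) + 4 * (k' + 1) * k') := hpw _ (by omega)
  have hbad2 : 2 ^ (k' + 3) * b ^ (2 * (k' + 1)) ≤ δ1 ^ (k' + 1) * P := by
    rw [hδ1k, div_mul_eq_mul_div, le_div_iff₀ hD1k, ← hX2]
    have h1 : X2 ≤ D := by rw [hD]; linarith
    exact (h1.trans hDP).trans (mul_le_mul_of_nonneg_right (hpw _ (by omega)) hPr.le)
  have hBad := ClimbT_bad b δ1 (2500 * (2 * η) / δ3 ^ 2) k' P hk' hb1 hδ1pos hκ0 hκ hPpos hbad1 hbad2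
  have hone : ∀ M : ℕ, M ∈ F'' → ∃ (w : ℝ) (U : Finset (ℕ × ℕ)), U ⊆ VM C P F M ∧
      (∀ u ∈ U, nz ((u.1 : ℝ) * w - α u.2) ≤ 1232 * (2 * η) / (δ3 * P)) ∧
      δ3 ^ 2 * P / 2 ≤ (U.card : ℝ) := by
    intro M hM
    exact ClimbT_one C b δ1 δ3 hC hb (k' + 1) hk n P η F F' α α' R hRel hη hPpos hδ1pos hδ3pos hδ3one hδδ hκ h8
      hBad M (by rw [hδ1def]; exact hF3 M hM)
  choose! w U hU1 hU2 hU3 using hone
  have hmem : ∀ t : ℕ × ℕ × ℕ, t ∈ F''.biUnion (fun M => (U M).image (fun u => (M, u.1, u.2))) ↔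
      t.1 ∈ F'' ∧ (t.2.1, t.2.2) ∈ U t.1 := by
    intro t
    rw [Finset.mem_biUnion]
    constructor
    · rintro ⟨M, hM, ht⟩
      rw [Finset.mem_image] at ht
      obtain ⟨u, hu, rfl⟩ := ht
      exact ⟨hM, hu⟩
    · rintro ⟨hM, ht⟩
      refine ⟨t.1, hM, ?_⟩
      rw [Finset.mem_image]
      exact ⟨(t.2.1, t.2.2), ht, rfl⟩
  refine ⟨F'', w, F''.biUnion (fun M => (U M).image (fun u => (M, u.1, u.2))), ?_, ?_, ?_⟩
  · refine ⟨?_, ?_, ?_, ?_, ?_, ?_, ?_⟩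
    · intro t ht
      exact ((hmem t).1 ht).1
    · intro t ht
      obtain ⟨hM, hu⟩ := (hmem t).1 ht
      exact (ClimbT_vm C P F t.1 _ (hU1 t.1 hM hu)).2.2.1
    · intro t ht
      obtain ⟨hM, hu⟩ := (hmem t).1 ht
      obtain ⟨a1, a2, -, -⟩ := ClimbT_vm C P F t.1 _ (hU1 t.1 hM hu)
      exact ⟨a1, a2.1, a2.2⟩
    · intro t ht
      obtain ⟨hM, hu⟩ := (hmem t).1 ht
      obtain ⟨-, -, -, a4⟩ := ClimbT_vm C P F t.1 _ (hU1 t.1 hM hu)
      refine a4.trans ?_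
      exact mul_le_mul_of_nonneg_right hDC hPr.le
    · intro t ht
      obtain ⟨hM, hu⟩ := (hmem t).1 ht
      refine (hU2 t.1 hM _ hu).trans ?_
      have hd2 : 0 < δ ^ (2 * (k' + 1)) := by positivity
      have e1 : 1232 * (2 * η) / (δ3 * P) = 2464 * A * η / (δ ^ (2 * (k' + 1)) * P) := by
        rw [hδ3def]
        field_simp
        ring
      rw [e1]
      have h1 : 2464 * A ≤ D := by rw [hD]; linarith
      have h2 : 2464 * A * η ≤ D * η := mul_le_mul_of_nonneg_right h1 hη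
      have h3 : δ ^ e * P ≤ δ ^ (2 * (k' + 1)) * P := mul_le_mul_of_nonneg_right (hpw _ (by omega)) hPr.le
      exact div_le_div₀ (by positivity) h2 (by positivity) h3
    · intro M hM
      obtain ⟨a1, a2⟩ := hF2 M hM
      refine ⟨le_trans ?_ a1, a2.trans ?_⟩
      · exact div_le_div_of_nonneg_left (Nat.cast_nonneg n) hD1pos hDD1
      · exact mul_le_mul_of_nonneg_right hDD1 (Nat.cast_nonneg n)
    · intro K hK
      obtain ⟨a1, a2⟩ := hRel.rngF K hK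
      refine ⟨le_trans ?_ a1, a2.trans ?_⟩
      · exact div_le_div_of_nonneg_left (Nat.cast_nonneg n) (by linarith) hCD
      · exact mul_le_mul_of_nonneg_right hCD (Nat.cast_nonneg n)
  · refine le_trans ?_ hF1
    apply mul_le_mul_of_nonneg_right _ (Nat.cast_nonneg n)
    exact div_le_div₀ (by positivity) (hpw 2 (by omega)) hD1pos hDD1
  · intro M hM
    have hinj : (U M).card ≤ ((F''.biUnion (fun M => (U M).image (fun u => (M, u.1, u.2)))).filter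
        (fun t => t.1 = M)).card := by
      refine Finset.card_le_card_of_injOn (fun u => (M, u.1, u.2)) ?_ ?_
      · intro u hu
        rw [Finset.mem_coe, Finset.mem_filter]
        refine ⟨(hmem _).2 ⟨hM, ?_⟩, rfl⟩
        exact hu
      · intro u _ u' _ he
        simp only [Prod.mk.injEq, true_and] at he
        exact Prod.ext he.1 he.2
    have h3 := hU3 M hM
    have h4 : δ ^ e / D * P ≤ δ3 ^ 2 * P / 2 := by
      rw [hδ3sq]
      have h5 : δ ^ e / D ≤ δ ^ (4 * (k' + 1)) / (2 * A ^ 2) := by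
        have h6 : 2 * A ^ 2 ≤ D := by rw [hD]; linarith
        exact div_le_div₀ (by positivity) (hpw _ hee) (by positivity) h6
      calc δ ^ e / D * P ≤ δ ^ (4 * (k' + 1)) / (2 * A ^ 2) * P := mul_le_mul_of_nonneg_right h5 hPr.le
        _ = δ ^ (4 * (k' + 1)) / A ^ 2 * P / 2 := by
            field_simp
    calc δ ^ e / D * P ≤ δ3 ^ 2 * P / 2 := h4
      _ ≤ (U M).card := h3
      _ ≤ _ := by exact_mod_cast hinj

end Pool.Agent.H53.TPS

end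

section

/-!
# TPS TowerT: `J` steps up

Proof: that of `Pool.Agent.H53.MID.tower` (file `H53/MID/Tower.lean`, complete; copy and adapt) with `climb_t` in place of `climb`.  Induction on `j ≥ 1` of the statement: there are `D ≥ 1`, `e` such that for all data there are
`F, F', α_j, α', R` with `Rel D n P (D η P/(δ^e P^j)) F F' α_j α' R`, `δ^e/D n P ≤ |R|`, `F ≠ ∅`, and for every `K ∈ F` a set `S K` with
`Desc P j D (D η/δ^e) F0 α K (α_j K) (S K)` and `δ^e/D P^j ≤ |S K|` (here `F0, α` is level 0, the given relation is `Rel C n P (η P) F0 G0 α β R0`).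
`j = 1`: `climb_t` (its `η` is `η P`) gives `F'', α'', R''` with `Rel D1 n P (D1 η/δ^e1) F'' F0 α'' α R''`; `S M = {(p, i) : (M, p, i) ∈ R''}`.
`j → j+1`: `climb_t` with `C := D_j`, `δ := δ^e/D_j` (`≤ 1`), `η := η_j = D_j η P/(δ^e P^j)` (`j ≥ 1`, `P ≥ 1`: `η_j ≤ D_j η/δ^e`; since `D ≤ δ^e P` (large `D`, `e`) we have `η_j ≤ η P`, and the conditions `D' η_j ≤ δ_j^e'`, `D' η_j^(k-1) P ≤ δ_j^e'` follow from
`D η P ≤ δ^e`, `D (η P)^(k-1) P ≤ δ^e` with `D, e` large), then `chain_step` with `T = {(p, K) : (M,p,K) ∈ R''}`, `η' = η_(j+1) = D' η_j/(δ_j^e' P)`: `(2P)^j η' ≤ D'' η/δ^e''`.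
All constants (`D`, `e`) depend only on `C`, `k` and `j`; `D ≤ δ^e P` gives all the largeness conditions (enlarge `D`, `e`; `δ ≤ 1`).
-/

set_option autoImplicit false

namespace Pool.Agent.H53.TPS

open Finset
open Pool.Agent.H53.MID

private theorem TowerT_relmono {C C' : ℝ} {n P : ℕ} {η η' : ℝ} {F F' : Finset ℕ} {α α' : ℕ → ℝ}
    {R : Finset (ℕ × ℕ × ℕ)} (h : Rel C n P η F F' α α' R) (hC : 1 ≤ C) (hCC : C ≤ C') (hη : η ≤ η') :
    Rel C' n P η' F F' α α' R where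
  memF := h.memF
  memF' := h.memF'
  prime := h.prime
  pos := fun t ht => (h.pos t ht).trans (mul_le_mul_of_nonneg_right hCC (Nat.cast_nonneg P))
  freq := fun t ht => (h.freq t ht).trans hη
  rngF := fun K hK => ⟨(div_le_div_of_nonneg_left (Nat.cast_nonneg n) (by linarith) hCC).trans
    (h.rngF K hK).1, (h.rngF K hK).2.trans (mul_le_mul_of_nonneg_right hCC (Nat.cast_nonneg n))⟩
  rngF' := fun K hK => ⟨(div_le_div_of_nonneg_left (Nat.cast_nonneg n) (by linarith) hCC).trans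
    (h.rngF' K hK).1, (h.rngF' K hK).2.trans (mul_le_mul_of_nonneg_right hCC (Nat.cast_nonneg n))⟩

private theorem TowerT_descmono {P j : ℕ} {D D' τ τ' : ℝ} {F0 : Finset ℕ} {α : ℕ → ℝ} {K : ℕ} {w : ℝ}
    {S : Finset (ℕ × ℕ)} (h : Desc P j D τ F0 α K w S) (hD : D ≤ D') (hτ : τ ≤ τ') :
    Desc P j D' τ' F0 α K w S where
  mem := h.mem
  lo := h.lo
  hi := h.hi
  pos := fun t ht => (h.pos t ht).trans (mul_le_mul_of_nonneg_right hD (by positivity))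
  freq := fun t ht => (h.freq t ht).trans hτ

private theorem TowerT_sum {F'' : Finset ℕ} {R : Finset (ℕ × ℕ × ℕ)} (hF : ∀ t ∈ R, t.1 ∈ F'') {a b : ℝ}
    (hb : 0 ≤ b) (ha : a ≤ F''.card)
    (hR : ∀ M ∈ F'', b ≤ ((R.filter (fun t => t.1 = M)).card : ℝ)) : a * b ≤ R.card := by
  have h1 : R.card = ∑ M ∈ F'', (R.filter (fun t => t.1 = M)).card :=
    Finset.card_eq_sum_card_fiberwise hF
  rw [h1, Nat.cast_sum]
  calc a * b ≤ F''.card * b := mul_le_mul_of_nonneg_right ha hb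
    _ = ∑ _M ∈ F'', b := by rw [Finset.sum_const, nsmul_eq_mul]
    _ ≤ _ := Finset.sum_le_sum hR

private noncomputable def TowerT_T (R : Finset (ℕ × ℕ × ℕ)) (M : ℕ) : Finset (ℕ × ℕ) :=
  (R.filter (fun t => t.1 = M)).image Prod.snd

private theorem TowerT_memT {R : Finset (ℕ × ℕ × ℕ)} {M : ℕ} {t : ℕ × ℕ} (h : t ∈ TowerT_T R M) :
    (M, t) ∈ R := by
  obtain ⟨x, hx, rfl⟩ := Finset.mem_image.1 h
  obtain ⟨h1, h2⟩ := Finset.mem_filter.1 hx
  rw [← h2]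
  exact h1

private theorem TowerT_cardT (R : Finset (ℕ × ℕ × ℕ)) (M : ℕ) :
    (TowerT_T R M).card = (R.filter (fun t => t.1 = M)).card := by
  apply Finset.card_image_of_injOn
  intro x hx y hy hxy
  have h1 := (Finset.mem_filter.1 hx).2
  have h2 := (Finset.mem_filter.1 hy).2
  exact Prod.ext (h1.trans h2.symm) hxy

private def TowerT_Q (C : ℝ) (k : ℕ) (j : ℕ) : Prop := ∃ (D : ℝ) (e : ℕ), 1 ≤ D ∧ ∀ (n P : ℕ) (δ η : ℝ)
    (F0 G0 : Finset ℕ) (α β : ℕ → ℝ) (R0 : Finset (ℕ × ℕ × ℕ)), Rel C n P (η * P) F0 G0 α β R0 → 0 < δ → δ ≤ 1 →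
    0 ≤ η → D * (η * P) ≤ δ ^ e → D * (η * P) ^ (k - 1) * P ≤ δ ^ e → D ≤ δ ^ e * P → 1 ≤ n → δ * n * P ≤ R0.card →
    ∃ (F F' : Finset ℕ) (αj α' : ℕ → ℝ) (R : Finset (ℕ × ℕ × ℕ)),
      Rel D n P (D * (η * P) / (δ ^ e * (P : ℝ) ^ j)) F F' αj α' R ∧ δ ^ e / D * n * P ≤ R.card ∧ F.Nonempty ∧
      ∃ S : ℕ → Finset (ℕ × ℕ), ∀ K ∈ F, Desc P j D (D * η / δ ^ e) F0 α K (αj K) (S K) ∧
        δ ^ e / D * (P : ℝ) ^ j ≤ (S K).card

private theorem TowerT_base (C : ℝ) (hC : 1 ≤ C) (k : ℕ) (hk : 3 ≤ k) : TowerT_Q C k 1 := by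
  obtain ⟨D1, e1, hD1, hcl⟩ := climb_t C hC k hk
  have hD1' : 1 ≤ D1 := hC.trans hD1
  have hD1p : 0 < D1 := by linarith only [hC, hD1]
  refine ⟨D1 ^ 2, e1 * 2, by nlinarith only [hC, hD1], ?_⟩
  intro n P δ η F0 G0 α β R0 hR hδ hδ1 hη hηP hηk hDP hn hcard
  rw [pow_mul] at hηP hηk hDP ⊢
  set A : ℝ := δ ^ e1 with hA
  have hA0 : 0 < A := pow_pos hδ e1
  have hA1 : A ≤ 1 := pow_le_one₀ hδ.le hδ1
  have hA2 : A ^ 2 ≤ A := by nlinarith only [hA0, hA1]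
  have hA2p : 0 < A ^ 2 := by positivity
  have hP0 : (0 : ℝ) ≤ P := Nat.cast_nonneg P
  have hDD : D1 ≤ D1 ^ 2 := by nlinarith only [hC, hD1]
  have hP : (0 : ℝ) < P := by
    rcases hP0.lt_or_eq with h | h
    · exact h
    · rw [← h, mul_zero] at hDP
      nlinarith only [hC, hD1, hDP, hDD]
  have h1 : D1 ≤ A * P := by
    have h2 : A ^ 2 * P ≤ A * P := mul_le_mul_of_nonneg_right hA2 hP0
    linarith
  have hηP' : D1 * (η * P) ≤ A := by
    have h2 : D1 * (η * P) ≤ D1 ^ 2 * (η * P) := mul_le_mul_of_nonneg_right hDD (by positivity)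
    linarith
  have hηk' : D1 * (η * P) ^ (k - 1) * P ≤ A := by
    have h2 : D1 * (η * P) ^ (k - 1) * P ≤ D1 ^ 2 * (η * P) ^ (k - 1) * P :=
      mul_le_mul_of_nonneg_right (mul_le_mul_of_nonneg_right hDD (by positivity)) hP0
    linarith
  obtain ⟨F, αj, R, hrel, hF, hRM⟩ := hcl n P δ (η * P) F0 G0 α β R0 hR hδ hδ1 (by positivity)
    hηP' hηk' h1 hn hcard
  rw [← hA] at hrel hF hRM
  have hinv : D1 / A ≤ D1 ^ 2 / A ^ 2 := div_le_div₀ (by positivity) hDD hA2p hA2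
  have he : D1 * (η * P) / (A * P) ≤ D1 ^ 2 * (η * P) / (A ^ 2 * (P : ℝ) ^ 1) := by
    rw [pow_one, mul_div_mul_comm, mul_div_mul_comm]
    exact mul_le_mul_of_nonneg_right hinv (by positivity)
  have he2 : D1 * (η * P) / (A * P) ≤ D1 ^ 2 * η / A ^ 2 := by
    have h3 : D1 * (η * P) / (A * P) = D1 / A * η := by field_simp
    rw [h3, mul_div_right_comm]
    exact mul_le_mul_of_nonneg_right hinv hη
  have hn' : (1 : ℝ) ≤ n := by exact_mod_cast hn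
  refine ⟨F, F0, αj, α, R, TowerT_relmono hrel hD1' hDD he, ?_, ?_, TowerT_T R, ?_⟩
  · have h2 := TowerT_sum hrel.memF (a := A / D1 * n) (b := A / D1 * P) (by positivity) hF hRM
    have h3 : A / D1 * n * (A / D1 * P) = A ^ 2 / D1 ^ 2 * n * P := by
      field_simp
    rw [h3] at h2
    exact h2
  · rw [← Finset.card_pos]
    have h2 : (0 : ℝ) < F.card := lt_of_lt_of_le (by positivity) hF
    exact_mod_cast h2
  · intro K hK
    constructor
    · refine ⟨?_, ?_, ?_, ?_, ?_⟩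
      · intro t ht
        exact hrel.memF' _ (TowerT_memT ht)
      · intro t ht
        have h2 := (hrel.prime _ (TowerT_memT ht)).2.1
        rw [pow_one]
        exact_mod_cast h2.le
      · intro t ht
        have h2 := (hrel.prime _ (TowerT_memT ht)).2.2
        rw [pow_one]
        exact_mod_cast h2
      · intro t ht
        have h2 := hrel.pos _ (TowerT_memT ht)
        rw [pow_one]
        exact h2.trans (mul_le_mul_of_nonneg_right hDD hP0)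
      · intro t ht
        exact (hrel.freq _ (TowerT_memT ht)).trans he2
    · rw [TowerT_cardT, pow_one]
      refine le_trans ?_ (hRM K hK)
      refine mul_le_mul_of_nonneg_right ?_ hP0
      exact div_le_div₀ hA0.le hA2 hD1p hDD

private theorem TowerT_step (C : ℝ) (k : ℕ) (hk : 3 ≤ k) (j : ℕ) (hj : 1 ≤ j) (h : TowerT_Q C k j) :
    TowerT_Q C k (j + 1) := by
  obtain ⟨B, e, hB, hQ⟩ := h
  obtain ⟨D2, e2, hBD, hcl⟩ := climb_t B hB k hk
  have hD2 : 1 ≤ D2 := hB.trans hBD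
  set K0 : ℝ := (j + 1) * (2 * D2 + 1) with hK0
  have hj0 : (0 : ℝ) ≤ j := Nat.cast_nonneg j
  have hK01 : 1 ≤ K0 := by
    rw [hK0]
    nlinarith only [hB, hBD]
  have h2j : (1 : ℝ) ≤ 2 ^ (j + 1) := one_le_pow₀ (by norm_num)
  set E : ℕ := 2 * e2 + 1 with hE
  set X : ℝ := B ^ E * D2 ^ 2 * K0 with hX
  set D : ℝ := 3 * X * 2 ^ (j + 1) with hD
  have hBE : 1 ≤ B ^ E := one_le_pow₀ hB
  have hD22 : 1 ≤ D2 ^ 2 := one_le_pow₀ hD2
  have hBp : 0 < B := by linarith only [hB]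
  have hD2p : 0 < D2 := by linarith
  have hK0p : 0 < K0 := by linarith
  have hX1 : 1 ≤ X := one_le_mul_of_one_le_of_one_le (one_le_mul_of_one_le_of_one_le hBE hD22) hK01
  have hXp : 0 < X := by linarith only [hX1]
  -- comparisons of the constants
  have c4 : D2 ≤ D2 ^ 2 := by nlinarith only [hD22, hB, hBD]
  have x1 : ∀ s : ℕ, s ≤ E → B ^ s * D2 ^ 2 * K0 ≤ X := by
    intro s hs
    rw [hX]
    exact mul_le_mul_of_nonneg_right (mul_le_mul_of_nonneg_right (pow_le_pow_right₀ hB hs)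
      (by positivity)) hK0p.le
  have x2 : ∀ s : ℕ, s ≤ E → B ^ s * D2 * K0 ≤ X := by
    intro s hs
    refine le_trans ?_ (x1 s hs)
    exact mul_le_mul_of_nonneg_right (mul_le_mul_of_nonneg_left c4 (by positivity)) hK0p.le
  have x3 : ∀ s : ℕ, s ≤ E → B ^ s * D2 ≤ X := by
    intro s hs
    refine le_trans ?_ (x2 s hs)
    exact le_mul_of_one_le_right (by positivity) hK01
  have x4 : ∀ s : ℕ, s ≤ E → B ^ s * D2 ^ 2 ≤ X := by
    intro s hs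
    refine le_trans ?_ (x1 s hs)
    exact le_mul_of_one_le_right (by positivity) hK01
  have x5 : B ≤ X := by
    have h3 := x3 1 (by omega)
    rw [pow_one] at h3
    have h4 : B ≤ B * D2 := le_mul_of_one_le_right hBp.le hD2
    linarith
  have x6 : D2 ≤ X := by
    have h3 := x3 0 (by omega)
    rw [pow_zero, one_mul] at h3
    exact h3
  have hXD : 3 * X ≤ D := by
    rw [hD]
    nlinarith only [h2j, hX1]
  have hXD' : X ≤ D := by linarith only [hX1, hXD]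
  have c7 : 2 * B + D2 ≤ D := by linarith only [x5, x6, hXD]
  have c8 : B ≤ D := by linarith only [hX1, x5, hXD]
  have c9 : D2 ≤ D := by linarith only [hX1, x6, hXD]
  have c11 : (2 : ℝ) ^ (j + 1) < D := by
    rw [hD]
    nlinarith only [hX1, hXD, h2j]
  have hD1 : 1 ≤ D := by linarith only [hX1, hXD]
  have hDp : 0 < D := by linarith only [hX1, hXD]
  refine ⟨D, e * E, hD1, ?_⟩
  intro n P δ η F0 G0 α β R0 hR hδ hδ1 hη hηP hηk hDP hn hcard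
  rw [pow_mul] at hηP hηk hDP ⊢
  set A : ℝ := δ ^ e with hA
  have hA0 : 0 < A := pow_pos hδ e
  have hA1 : A ≤ 1 := pow_le_one₀ hδ.le hδ1
  have hAE : ∀ s : ℕ, s ≤ E → A ^ E ≤ A ^ s := fun s hs => pow_le_pow_of_le_one hA0.le hA1 hs
  have hAE1 : A ^ E ≤ A := by
    calc A ^ E ≤ A ^ 1 := hAE 1 (by omega)
      _ = A := pow_one A
  have hAEp : 0 < A ^ E := by positivity
  have hAEo : A ^ E ≤ 1 := pow_le_one₀ hA0.le hA1
  have hP0 : (0 : ℝ) ≤ P := Nat.cast_nonneg P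
  have hP : (0 : ℝ) < P := by
    rcases hP0.lt_or_eq with h | h
    · exact h
    · rw [← h, mul_zero] at hDP
      linarith only [hX1, hXD, hDP]
  have hDP1 : D ≤ P := hDP.trans (by nlinarith only [hA1, hAE1])
  have hP2 : (2 : ℝ) ^ (j + 1) < P := by linarith only [c11, hDP1]
  have hP2' : 2 ^ (j + 1) < P := by exact_mod_cast hP2
  have hP1 : (1 : ℝ) ≤ P := by linarith only [hX1, hXD, hDP1]
  have hηP0 : 0 ≤ η * P := by positivity
  have hηk0 : 0 ≤ (η * P) ^ (k - 1) * P := by positivity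
  obtain ⟨F, F', αj, α', R, hrel, hRc, hFn, S, hS⟩ := hQ n P δ η F0 G0 α β R0 hR hδ hδ1 hη
    (by
      have h3 : B * (η * P) ≤ D * (η * P) := mul_le_mul_of_nonneg_right c8 hηP0
      linarith only [hηP, hAE1, h3])
    (by
      have h3 : B * ((η * P) ^ (k - 1) * P) ≤ D * ((η * P) ^ (k - 1) * P) :=
        mul_le_mul_of_nonneg_right c8 hηk0
      linarith only [hηk, hAE1, h3])
    (by
      have h3 : A ^ E * P ≤ A * P := mul_le_mul_of_nonneg_right hAE1 hP0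
      linarith only [hX1, x5, hXD, hDP, h3]) hn hcard
  rw [← hA] at hrel hRc hS
  have hn' : (1 : ℝ) ≤ n := by exact_mod_cast hn
  have hAB : 0 < A / B := by positivity
  have hAB1 : A / B ≤ 1 := by
    rw [div_le_one hBp]
    linarith only [hB, hA1]
  have hPjp : (0 : ℝ) < (P : ℝ) ^ j := by positivity
  have hPPj : (P : ℝ) ≤ (P : ℝ) ^ j := by
    calc (P : ℝ) = (P : ℝ) ^ 1 := (pow_one _).symm
      _ ≤ (P : ℝ) ^ j := pow_le_pow_right₀ hP1 hj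
  set ηj : ℝ := B * (η * P) / (A * (P : ℝ) ^ j) with hηj
  have hηj0 : 0 ≤ ηj := by positivity
  have hηj1 : ηj ≤ η * P := by
    rw [hηj, div_le_iff₀ (by positivity)]
    have h3 : B ≤ A * P := by
      have h4 : A ^ E * P ≤ A * P := mul_le_mul_of_nonneg_right hAE1 hP0
      linarith only [hX1, x5, hXD, hDP, h4]
    have h4 : A * P ≤ A * (P : ℝ) ^ j := mul_le_mul_of_nonneg_left hPPj hA0.le
    calc B * (η * P) ≤ A * (P : ℝ) ^ j * (η * P) := mul_le_mul_of_nonneg_right (h3.trans h4) hηP0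
      _ = η * P * (A * (P : ℝ) ^ j) := by ring
  have hBe : 0 < B ^ e2 := by positivity
  have hAe : 0 < A ^ e2 := by positivity
  have key : ∀ Y : ℝ, 0 ≤ Y → D * Y ≤ A ^ E → D2 * Y ≤ (A / B) ^ e2 := by
    intro Y hY hDY
    rw [div_pow, le_div_iff₀ hBe]
    have h3 : B ^ e2 * D2 ≤ D := (x3 e2 (by omega)).trans hXD'
    calc D2 * Y * B ^ e2 = (B ^ e2 * D2) * Y := by ring
      _ ≤ D * Y := mul_le_mul_of_nonneg_right h3 hY
      _ ≤ A ^ E := hDY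
      _ ≤ A ^ e2 := hAE e2 (by omega)
  obtain ⟨F2, α2, R2, hrel2, hF2, hRM⟩ := hcl n P (A / B) ηj F F' αj α' R hrel
    hAB hAB1 hηj0
    (by
      refine le_trans (mul_le_mul_of_nonneg_left hηj1 hD2p.le) (key _ hηP0 hηP))
    (by
      have h3 : ηj ^ (k - 1) ≤ (η * P) ^ (k - 1) := pow_le_pow_left₀ hηj0 hηj1 _
      have h4 := key ((η * P) ^ (k - 1) * P) hηk0 (by linarith only [hηk])
      calc D2 * ηj ^ (k - 1) * P ≤ D2 * (η * P) ^ (k - 1) * P :=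
            mul_le_mul_of_nonneg_right (mul_le_mul_of_nonneg_left h3 hD2p.le) hP0
        _ = D2 * ((η * P) ^ (k - 1) * P) := by ring
        _ ≤ _ := h4)
    (by
      rw [div_pow, div_mul_eq_mul_div, le_div_iff₀ hBe]
      have h3 : B ^ e2 * D2 ≤ D := (x3 e2 (by omega)).trans hXD'
      have h4 : A ^ E * P ≤ A ^ e2 * P := mul_le_mul_of_nonneg_right (hAE e2 (by omega)) hP0
      linarith only [hDP, h3, h4]) hn hRc
  have hABe : 0 < (A / B) ^ e2 := by positivity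
  set η2 : ℝ := D2 * ηj / ((A / B) ^ e2 * P) with hη2
  have hη20 : 0 ≤ η2 := by positivity
  have hη2e : η2 = (B ^ (e2 + 1) * D2) / A ^ (e2 + 1) * ((η * P) / (P : ℝ) ^ (j + 1)) := by
    rw [hη2, hηj, div_pow, pow_succ B, pow_succ A, pow_succ (P : ℝ)]
    field_simp
  have hE1 : e2 + 1 ≤ E := by omega
  have hcmp : ∀ Z : ℝ, 0 ≤ Z → Z ≤ D → Z / A ^ (e2 + 1) ≤ D / A ^ E := fun Z hZ hZD =>
    div_le_div₀ hDp.le hZD hAEp (hAE _ hE1)
  have he : η2 ≤ D * (η * P) / (A ^ E * (P : ℝ) ^ (j + 1)) := by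
    rw [hη2e, mul_div_mul_comm]
    exact mul_le_mul_of_nonneg_right (hcmp _ (by positivity) ((x3 _ hE1).trans hXD')) (by positivity)
  have hm0 : 0 ≤ A / B * (P : ℝ) ^ j := by positivity
  have hτ : (2 * (P : ℝ)) ^ j * η2 + B * η / A ≤ D * η / A ^ E := by
    have h3 : (2 * (P : ℝ)) ^ j * η2 = (2 ^ j * (B ^ (e2 + 1) * D2)) / A ^ (e2 + 1) * η := by
      rw [hη2e, mul_pow, pow_succ (P : ℝ)]
      field_simp
    have h4 : B * η / A ≤ B / A ^ (e2 + 1) * η := by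
      rw [mul_div_right_comm]
      refine mul_le_mul_of_nonneg_right ?_ hη
      refine div_le_div_of_nonneg_left hBp.le (by positivity) ?_
      calc A ^ (e2 + 1) ≤ A ^ 1 := pow_le_pow_of_le_one hA0.le hA1 (by omega)
        _ = A := pow_one A
    have h5 : 2 ^ j * (B ^ (e2 + 1) * D2) + B ≤ D := by
      have h6 : (2 : ℝ) ^ j * (B ^ (e2 + 1) * D2) ≤ 2 ^ j * X :=
        mul_le_mul_of_nonneg_left (x3 _ hE1) (by positivity)
      have h7 : (1 : ℝ) ≤ 2 ^ j := one_le_pow₀ (by norm_num)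
      have h8 : X ≤ 2 ^ j * X := le_mul_of_one_le_left hXp.le h7
      have h9 : D = 6 * (2 ^ j * X) := by
        rw [hD, pow_succ]
        ring
      have h10 : 0 < 2 ^ j * X := by positivity
      linarith only [hX1, x5, h6, h8, h9]
    have h6 := hcmp _ (by positivity) h5
    calc (2 * (P : ℝ)) ^ j * η2 + B * η / A
        ≤ (2 ^ j * (B ^ (e2 + 1) * D2)) / A ^ (e2 + 1) * η + B / A ^ (e2 + 1) * η := by
          rw [h3]
          linarith only [h4]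
      _ = (2 ^ j * (B ^ (e2 + 1) * D2) + B) / A ^ (e2 + 1) * η := by ring
      _ ≤ D / A ^ E * η := mul_le_mul_of_nonneg_right h6 hη
      _ = D * η / A ^ E := by ring
  -- the descendants
  have hdesc : ∀ M : ℕ, ∃ S' : Finset (ℕ × ℕ), M ∈ F2 →
      Desc P (j + 1) D (D * η / A ^ E) F0 α M (α2 M) S' ∧ A ^ E / D * (P : ℝ) ^ (j + 1) ≤ S'.card := by
    intro M
    by_cases hM : M ∈ F2
    · obtain ⟨S', hS', hc⟩ := chain_step P j D2 B (B * η / A) η2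
        (A / B * (P : ℝ) ^ j) (α2 M) hD2 F0 α M αj S (TowerT_T R2 M) hP2'
        (by
          intro t ht
          have h3 := TowerT_memT ht
          have h4 := hrel2.prime _ h3
          have h5 := hS t.2 (hrel2.memF' _ h3)
          exact ⟨h4.1, h4.2.1, h4.2.2, hrel2.pos _ h3, hrel2.freq _ h3, h5.1, h5.2⟩) hη20 hm0
      refine ⟨S', fun _ => ⟨TowerT_descmono hS' c7 hτ, ?_⟩⟩
      refine le_trans ?_ hc
      have h6 := hRM M hM
      rw [← TowerT_cardT] at h6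
      have h7 : (A / B) ^ e2 / D2 * P * (A / B * (P : ℝ) ^ j) / K0 ≤
          ((TowerT_T R2 M).card : ℝ) * (A / B * (P : ℝ) ^ j) / ((j + 1) * (2 * D2 + 1)) := by
        rw [← hK0]
        exact div_le_div_of_nonneg_right (mul_le_mul_of_nonneg_right h6 hm0) hK0p.le
      refine le_trans ?_ h7
      have h8 : (A / B) ^ e2 / D2 * P * (A / B * (P : ℝ) ^ j) / K0 =
          A ^ (e2 + 1) / (B ^ (e2 + 1) * D2 * K0) * (P : ℝ) ^ (j + 1) := by
        rw [pow_succ (P : ℝ) j, pow_succ A, pow_succ B, div_pow]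
        field_simp
      rw [h8]
      refine mul_le_mul_of_nonneg_right ?_ (by positivity)
      exact div_le_div₀ (by positivity) (hAE _ hE1) (by positivity) ((x2 _ hE1).trans hXD')
    · exact ⟨∅, fun h => absurd h hM⟩
  choose S2 hS2 using hdesc
  refine ⟨F2, F, α2, αj, R2, TowerT_relmono hrel2 hD2 c9 he, ?_, ?_, S2, hS2⟩
  · have h2 := TowerT_sum hrel2.memF (a := (A / B) ^ e2 / D2 * n) (b := (A / B) ^ e2 / D2 * P)
      (by positivity) hF2 hRM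
    have h3 : (A / B) ^ e2 / D2 * n * ((A / B) ^ e2 / D2 * P) =
        A ^ (e2 * 2) / (B ^ (e2 * 2) * D2 ^ 2) * n * P := by
      rw [div_pow, pow_mul A e2 2, pow_mul B e2 2]
      field_simp
    rw [h3] at h2
    refine le_trans ?_ h2
    refine mul_le_mul_of_nonneg_right (mul_le_mul_of_nonneg_right ?_ (by linarith only [hn'])) hP0
    exact div_le_div₀ (by positivity) (hAE _ (by omega)) (by positivity)
      ((x4 _ (by omega)).trans hXD')
  · rw [← Finset.card_pos]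
    have h2 : (0 : ℝ) < F2.card := lt_of_lt_of_le (by positivity) hF2
    exact_mod_cast h2

private theorem TowerT_all (C : ℝ) (hC : 1 ≤ C) (k : ℕ) (hk : 3 ≤ k) (J : ℕ) (hJ : 1 ≤ J) :
    TowerT_Q C k J := by
  induction J, hJ using Nat.le_induction with
  | base => exact TowerT_base C hC k hk
  | succ j hj ih => exact TowerT_step C k hk j hj ih

theorem tower_t (C : ℝ) (hC : 1 ≤ C) (k : ℕ) (hk : 3 ≤ k) (J : ℕ) (hJ : 1 ≤ J) : ∃ (D : ℝ) (e : ℕ), 1 ≤ D ∧ ∀ (n P : ℕ) (δ η : ℝ)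
    (F0 G0 : Finset ℕ) (α β : ℕ → ℝ) (R0 : Finset (ℕ × ℕ × ℕ)), Rel C n P (η * P) F0 G0 α β R0 → 0 < δ → δ ≤ 1 →
    0 ≤ η → D * (η * P) ≤ δ ^ e → D * (η * P) ^ (k - 1) * P ≤ δ ^ e → D ≤ δ ^ e * P → 1 ≤ n → δ * n * P ≤ R0.card →
    ∃ (K : ℕ) (w : ℝ) (S : Finset (ℕ × ℕ)), (n : ℝ) / D ≤ K ∧ (K : ℝ) ≤ D * n ∧
      Desc P J D (D * η / δ ^ e) F0 α K w S ∧ δ ^ e / D * (P : ℝ) ^ J ≤ S.card := by
  obtain ⟨D, e, hD, hQ⟩ := TowerT_all C hC k hk J hJ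
  refine ⟨D, e, hD, ?_⟩
  intro n P δ η F0 G0 α β R0 hR hδ hδ1 hη hηP hηk hDP hn hcard
  obtain ⟨F, F', αj, α', R, hrel, -, ⟨K, hK⟩, S, hS⟩ := hQ n P δ η F0 G0 α β R0 hR hδ hδ1 hη hηP hηk
    hDP hn hcard
  have hr := hrel.rngF K hK
  obtain ⟨h1, h2⟩ := hS K hK
  exact ⟨K, αj K, S K, hr.1, hr.2, h1, h2⟩

end Pool.Agent.H53.TPS

end
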