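import Pool.Agent.H43.PJ.M07
import Pool.Agent.H43.PJ.M08
import Pool.Agent.H43.PJ.M43

/-! The parts of this file: H43.TP.Ev, H43.TP.M12, H43.TP.PPx, H43.TP.RefN, H43.TP.Blk3, H43.TP.LamSq, H43.TP.M3, H31.EQ.Sparse. -/

section

/-!
# TP Ev: facts for large `N`
-/

set_option autoImplicit false

namespace Pool.Agent.H43.TP

open Finset
open Pool.Agent.H43.MP (blk Hn idx Rn)

theorem ev_large (θ c : ℝ) (h0 : 0 < θ) (h1 : θ < 1 / 3) (hc : 0 < c) (hc1 : c ≤ 1) (B : ℕ) :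
    ∃ N0 : ℕ, ∀ N : ℕ, N0 ≤ N → 400 ≤ c * Real.log N ∧ (N : ℝ) ^ θ / 2 ≤ Hn θ N ∧ 1 ≤ Hn θ N ∧
      8 * Hn θ N ≤ N ∧ Real.log N ^ (2 * B) ≤ Hn θ N ∧
      2 * (Rn B N : ℝ) ^ 4 ≤ Hn θ N / Real.log N ^ 3 ∧ 1 ≤ Rn B N ∧ (Rn B N : ℝ) ≤ Real.log N ^ B ∧
      Real.log N ≤ Real.log (4 * N) ∧ Real.log (4 * N) ≤ 3 / 2 * Real.log N ∧
      (2 - c / 2) * Real.log (4 * N) ≤ 2 * Real.log N := by
  obtain ⟨x1, hx1⟩ := Pool.Agent.H76.GB.log_ge (400 / c)
  obtain ⟨x2, hx2⟩ := Pool.Agent.H76.GB.log_pow_le θ 4 h0 (by norm_num) (4 * B + 3)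
  obtain ⟨x3, hx3⟩ := Pool.Agent.H76.GB.log_pow_le (2 / 3) 8 (by norm_num) (by norm_num) 0
  refine ⟨max x1 (max x2 x3), fun N hN => ?_⟩
  have g1 := hx1 N ((le_max_left _ _).trans hN)
  have g2 := hx2 N (((le_max_left _ _).trans (le_max_right _ _)).trans hN)
  have g3 := hx3 N (((le_max_right _ _).trans (le_max_right _ _)).trans hN)
  rw [pow_zero, mul_one] at g3
  set L := Real.log N with hL
  have hLc : 400 ≤ c * L := by
    rw [div_le_iff₀ hc] at g1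
    linarith
  have hL400 : 400 ≤ L := by nlinarith
  have hN0 : N ≠ 0 := by
    rintro rfl
    rw [hL] at hL400
    norm_num at hL400
  have hN1 : (1 : ℝ) ≤ N := by exact_mod_cast Nat.one_le_iff_ne_zero.2 hN0
  have hNpos : (0 : ℝ) < N := by linarith
  have hL1 : 1 ≤ L := by linarith
  have hNθ1 : (1 : ℝ) ≤ (N : ℝ) ^ θ := Real.one_le_rpow hN1 h0.le
  have q1 : (N : ℝ) ^ θ < Hn θ N + 1 := Nat.lt_floor_add_one _
  have q2 : (Hn θ N : ℝ) ≤ (N : ℝ) ^ θ := Nat.floor_le (by positivity)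
  have q3 : 1 ≤ Hn θ N := Nat.floor_pos.2 hNθ1
  have q4 : (1 : ℝ) ≤ Hn θ N := by exact_mod_cast q3
  have q5 : (N : ℝ) ^ θ / 2 ≤ Hn θ N := by linarith
  have q6 : 2 * L ^ (4 * B + 3) ≤ Hn θ N := by linarith
  have r1 : (Rn B N : ℝ) ≤ L ^ B := Nat.floor_le (by positivity)
  have r2 : 1 ≤ Rn B N := Nat.floor_pos.2 (one_le_pow₀ hL1)
  have hlog : Real.log (4 * N) = Real.log 4 + L := by
    rw [Real.log_mul (by norm_num) hNpos.ne']
  have hl4 : 0 ≤ Real.log 4 := Real.log_nonneg (by norm_num)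
  have hl42 : Real.log 4 ≤ 3 := by
    have := Real.log_le_sub_one_of_pos (by norm_num : (0 : ℝ) < 4)
    linarith
  refine ⟨hLc, q5, q3, ?_, ?_, ?_, r2, r1, ?_, ?_, ?_⟩
  · have t1 : (N : ℝ) ^ θ ≤ (N : ℝ) ^ (1 / 3 : ℝ) := Real.rpow_le_rpow_of_exponent_le hN1 h1.le
    have t2 : (N : ℝ) = (N : ℝ) ^ (1 / 3 : ℝ) * (N : ℝ) ^ (2 / 3 : ℝ) := by
      rw [← Real.rpow_add hNpos]
      norm_num
    have t3 : (0 : ℝ) ≤ (N : ℝ) ^ (1 / 3 : ℝ) := by positivity
    have t4 : (8 : ℝ) * Hn θ N ≤ N := by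
      rw [t2]
      nlinarith
    exact_mod_cast t4
  · have t1 : L ^ (2 * B) ≤ L ^ (4 * B + 3) := pow_le_pow_right₀ hL1 (by omega)
    have t2 : 0 ≤ L ^ (4 * B + 3) := by positivity
    linarith
  · rw [le_div_iff₀ (by positivity)]
    have t1 : (Rn B N : ℝ) ^ 4 ≤ (L ^ B) ^ 4 := pow_le_pow_left₀ (Nat.cast_nonneg _) r1 4
    have t2 : (L ^ B) ^ 4 * L ^ 3 = L ^ (4 * B + 3) := by
      rw [← pow_mul, ← pow_add]
      congr 1
      ring
    calc 2 * (Rn B N : ℝ) ^ 4 * L ^ 3 ≤ 2 * ((L ^ B) ^ 4) * L ^ 3 :=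
          mul_le_mul_of_nonneg_right (by linarith) (by positivity)
      _ = 2 * L ^ (4 * B + 3) := by rw [mul_assoc, t2]
      _ ≤ Hn θ N := q6
  · rw [hlog]
    linarith
  · rw [hlog]
    linarith
  · rw [hlog]
    nlinarith

end Pool.Agent.H43.TP

end

section

/-!
# TP M12: the main terms `∑ Λ(u) Λ_R(2n-u)`, `∑ Λ_R(u) Λ(2n-u)`

`lamR R k = ∑_{r ≤ R} μ(r)/φ(r) ∑_{b mod r, (b,r)=1} e(k b/r)` (`ramS_eq`), `k = 2n - u`: `e((2n-u) b/r) = e(2n b/r) e(-u b/r)`;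
`i ∉ badP`: `∑_{u ∈ blk} Λ(u) e(-u b/r) = μ(r)/φ(r) H + O(H/L^A)`; the main terms add up to `H SR R (2n)` as in `rm_near` of
`H43/MP/MainTerm.lean` (which is the same with an additional sum over `p`).
-/

set_option autoImplicit false

namespace Pool.Agent.H43.TP

open Finset
open Pool.Agent.H91.PK (ee)
open Pool.Agent.H91.EHA (Lam lamR ramS)
open Pool.Agent.H43.MP (blk Hn idx Rn badP)
open Pool.Agent.H76.GB (SR)

/-- the reduced residues -/
private def M12_red (r : ℕ) : Finset ℕ := (Icc 1 r).filter (fun b => Nat.Coprime b r)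

private theorem M12_card (r : ℕ) (_hr : 1 ≤ r) : (M12_red r).card = r.totient := by
  have h := Nat.filter_coprime_Ico_eq_totient r 1
  rw [← h]
  unfold M12_red
  congr 1
  ext b
  simp only [mem_filter, mem_Icc, mem_Ico]
  constructor
  · rintro ⟨⟨h1, h2⟩, h3⟩
    exact ⟨⟨h1, by omega⟩, h3.symm⟩
  · rintro ⟨⟨h1, h2⟩, h3⟩
    exact ⟨⟨h1, by omega⟩, h3.symm⟩

/-- the general statement: `∑ g(u) Λ_R(E - v(u))` -/
private theorem M12_gen (R : ℕ) (S : Finset ℕ) (g : ℕ → ℝ) (v : ℕ → ℕ) (E : ℕ)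
    (hv : ∀ u ∈ S, v u ≤ E) (δ H : ℝ)
    (hgood : ∀ r ∈ Icc 1 R, ∀ b ∈ M12_red r, ‖∑ u ∈ S, ((g u : ℝ) : ℂ) * ee (-((b : ℝ) * (v u : ℕ) / r))
      - (((ArithmeticFunction.moebius r : ℝ) / (r.totient : ℝ) * H : ℝ) : ℂ)‖ ≤ δ) :
    |∑ u ∈ S, g u * lamR R (E - v u) - H * SR R E| ≤ R * δ := by
  -- the exact formula
  have hexact : ((∑ u ∈ S, g u * lamR R (E - v u) : ℝ) : ℂ)
      = ∑ r ∈ Icc 1 R, (((ArithmeticFunction.moebius r : ℝ) / (r.totient : ℝ) : ℝ) : ℂ)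
        * ∑ b ∈ M12_red r, ee ((E : ℝ) * b / r) * ∑ u ∈ S, ((g u : ℝ) : ℂ) * ee (-((b : ℝ) * (v u : ℕ) / r)) := by
    have h1 : ∀ u ∈ S, ((g u * lamR R (E - v u) : ℝ) : ℂ)
        = ∑ r ∈ Icc 1 R, (((ArithmeticFunction.moebius r : ℝ) / (r.totient : ℝ) : ℝ) : ℂ)
          * ∑ b ∈ M12_red r, ee ((E : ℝ) * b / r) * (((g u : ℝ) : ℂ) * ee (-((b : ℝ) * (v u : ℕ) / r))) := by
      intro u hu
      have hle := hv u hu
      have h3 : ((lamR R (E - v u) : ℝ) : ℂ) = ∑ r ∈ Icc 1 R,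
          (((ArithmeticFunction.moebius r : ℝ) / (r.totient : ℝ) : ℝ) : ℂ)
            * ∑ b ∈ M12_red r, ee (((E - v u : ℕ) : ℝ) * b / r) := by
        unfold lamR
        rw [Complex.ofReal_sum]
        refine sum_congr rfl fun r hr => ?_
        rw [mem_Icc] at hr
        rw [Complex.ofReal_mul, Pool.Agent.H91.EHA.ramS_eq r _ hr.1]
        rfl
      rw [Complex.ofReal_mul, h3, mul_sum]
      refine sum_congr rfl fun r hr => ?_
      rw [mul_left_comm]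
      congr 1
      rw [mul_sum]
      refine sum_congr rfl fun b _ => ?_
      have h4 : ee (((E - v u : ℕ) : ℝ) * b / r)
          = ee ((E : ℝ) * b / r) * ee (-((b : ℝ) * (v u : ℕ) / r)) := by
        rw [← Pool.Agent.H91.PK.LSa_ee_add]
        congr 1
        rw [Nat.cast_sub hle]
        ring
      rw [h4]
      ring
    rw [Complex.ofReal_sum, sum_congr rfl h1, sum_comm]
    refine sum_congr rfl fun r _ => ?_
    rw [← mul_sum, sum_comm]
    congr 1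
    refine sum_congr rfl fun b _ => ?_
    rw [← mul_sum]
  -- the main term
  have hmain : ((H * SR R E : ℝ) : ℂ) = ∑ r ∈ Icc 1 R,
      (((ArithmeticFunction.moebius r : ℝ) / (r.totient : ℝ) : ℝ) : ℂ)
        * ∑ b ∈ M12_red r, ee ((E : ℝ) * b / r) *
          (((ArithmeticFunction.moebius r : ℝ) / (r.totient : ℝ) * H : ℝ) : ℂ) := by
    unfold SR
    rw [Complex.ofReal_mul, Complex.ofReal_sum, mul_sum]
    refine sum_congr rfl fun r hr => ?_
    rw [mem_Icc] at hr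
    have h1 := Pool.Agent.H91.EHA.ramS_eq r E hr.1
    have h2 : ((ArithmeticFunction.moebius r : ℝ) ^ 2 * ramS r E / (r.totient : ℝ) ^ 2 : ℝ)
        = ((ArithmeticFunction.moebius r : ℝ) / (r.totient : ℝ)) ^ 2 * ramS r E := by
      rw [div_pow]; ring
    rw [h2, Complex.ofReal_mul, h1, mul_sum, mul_sum, mul_sum]
    refine sum_congr rfl fun b _ => ?_
    push_cast
    ring
  have hkey : ‖((∑ u ∈ S, g u * lamR R (E - v u) : ℝ) : ℂ) - ((H * SR R E : ℝ) : ℂ)‖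
      ≤ ∑ r ∈ Icc 1 R, ∑ _b ∈ M12_red r, 1 / (r.totient : ℝ) * δ := by
    rw [hexact, hmain, ← sum_sub_distrib]
    refine norm_sum_le_of_le _ fun r hr => ?_
    rw [← mul_sub, ← sum_sub_distrib, mul_sum]
    refine norm_sum_le_of_le _ fun b hb => ?_
    have hr1 : 1 ≤ r := (mem_Icc.1 hr).1
    have hphi : (0 : ℝ) < r.totient := by exact_mod_cast Nat.totient_pos.2 hr1
    rw [← mul_sub, norm_mul, norm_mul, Pool.Agent.H91.PK.LSa_norm_ee, one_mul,
      Complex.norm_real, Real.norm_eq_abs, abs_div, abs_of_pos hphi]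
    have hmu : |(ArithmeticFunction.moebius r : ℝ)| ≤ 1 := by
      have := ArithmeticFunction.abs_moebius_le_one (n := r)
      exact_mod_cast this
    exact mul_le_mul (div_le_div_of_nonneg_right hmu hphi.le) (hgood r hr b hb) (norm_nonneg _) (by positivity)
  rw [← Complex.ofReal_sub, Complex.norm_real, Real.norm_eq_abs] at hkey
  refine hkey.trans (le_of_eq ?_)
  have : ∀ r ∈ Icc 1 R, ∑ _b ∈ M12_red r, 1 / (r.totient : ℝ) * δ = δ := by
    intro r hr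
    rw [mem_Icc] at hr
    rw [sum_const, M12_card r hr.1, nsmul_eq_mul]
    have : (0 : ℝ) < r.totient := by exact_mod_cast Nat.totient_pos.2 hr.1
    field_simp
  rw [sum_congr rfl this]
  simp only [sum_const, Nat.card_Icc, nsmul_eq_mul, add_tsub_cancel_right]

private theorem M12_r_le (B N r : ℕ) (hr : r ≤ Rn B N) : (r : ℝ) ≤ Real.log N ^ B := by
  have h1 : (r : ℝ) ≤ Rn B N := by exact_mod_cast hr
  refine h1.trans ?_
  unfold Rn
  refine Nat.floor_le ?_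
  have : 0 ≤ Real.log N := Real.log_natCast_nonneg N
  positivity

theorem m1 (N A B H i n : ℕ) (hi1 : 1 ≤ i) (hi : i ∈ idx N H) (hg : i ∉ badP N H A B) (hn : n ∈ blk H i) :
    |rf H i Lam (lamR (Rn B N)) n - H * SR (Rn B N) (2 * n)| ≤ Rn B N * ((H : ℝ) / Real.log N ^ A) := by
  unfold rf
  refine M12_gen (Rn B N) (blk H i) Lam (fun u => u) (2 * n) ?_ ((H : ℝ) / Real.log N ^ A) H ?_
  · intro u hu
    unfold blk at hn hu
    rw [mem_Ico] at hn hu
    have h1 : (i + 1) * H ≤ 2 * (i * H) := by nlinarith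
    show u ≤ 2 * n
    omega
  · intro r hr b hb
    by_contra hcon
    push Not at hcon
    apply hg
    classical
    unfold badP
    rw [mem_Icc] at hr
    unfold M12_red at hb
    rw [mem_filter] at hb
    simp only [mem_filter]
    exact ⟨hi, r, b, hr.1, M12_r_le B N r hr.2, hb.2, hcon⟩

theorem m2 (N A B H n : ℕ) (hH : 1 ≤ H) (hHn : H ≤ n) (hn : n ∈ Ioc N (2 * N)) (hg : n ∉ badN N H A B) :
    |rf H (n / H) (lamR (Rn B N)) Lam n - H * SR (Rn B N) (2 * n)| ≤ Rn B N * ((H : ℝ) / Real.log N ^ A) := by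
  have hle : ∀ u ∈ blk H (n / H), u ≤ 2 * n := by
    intro u hu
    unfold blk at hu
    rw [mem_Ico] at hu
    have h1 : n / H * H ≤ n := Nat.div_mul_le_self n H
    have h2 : (n / H + 1) * H = n / H * H + H := by ring
    omega
  have h0 : rf H (n / H) (lamR (Rn B N)) Lam n
      = ∑ u ∈ blk H (n / H), Lam (2 * n - u) * lamR (Rn B N) (2 * n - (2 * n - u)) := by
    unfold rf
    refine sum_congr rfl fun u hu => ?_
    rw [Nat.sub_sub_self (hle u hu), mul_comm]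
  rw [h0]
  refine M12_gen (Rn B N) (blk H (n / H)) (fun u => Lam (2 * n - u)) (fun u => 2 * n - u) (2 * n)
    (fun u _ => Nat.sub_le _ _) ((H : ℝ) / Real.log N ^ A) H ?_
  intro r hr b hb
  by_contra hcon
  push Not at hcon
  apply hg
  classical
  unfold badN
  rw [mem_Icc] at hr
  unfold M12_red at hb
  rw [mem_filter] at hb
  simp only [mem_filter]
  exact ⟨hn, r, b, hr.1, M12_r_le B N r hr.2, hb.2, hcon⟩

end Pool.Agent.H43.TP

end

section

/-!
# TP PPx: proper prime powers are rare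

Every `n` of `ppX N H` is within `2H` of a proper prime power `m ≤ 2N + 2H ≤ 4N`; there are at most `√(4N) log_2(4N)` of them
(`m = p^j`, `2 ≤ j ≤ log_2 (4N)`, `p ≤ √(4N)`), so the set has at most `(4H+1) √(4N) log_2(4N) ≤ N/L^A` elements as `θ < 1/2`.
-/

set_option autoImplicit false

namespace Pool.Agent.H43.TP

open Finset
open Pool.Agent.H43.MP (blk Hn idx Rn)

open Pool.Agent.H91.EHA (Lam)

/-- the von Mangoldt function on the non-primes -/
private noncomputable def PPx_L2 (n : ℕ) : ℝ := if n.Prime then 0 else Lam n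

private theorem PPx_L2_nn (n : ℕ) : 0 ≤ PPx_L2 n := by
  unfold PPx_L2
  split_ifs
  · exact le_rfl
  · exact ArithmeticFunction.vonMangoldt_nonneg

private theorem PPx_sum2 (x : ℕ) (hx : 1 ≤ x) :
    ∑ n ∈ Ioc 0 x, PPx_L2 n ≤ 2 * Real.sqrt x * Real.log x := by
  have h1 := Chebyshev.psi_sub_theta_le (x := (x : ℝ)) (by exact_mod_cast hx)
  rw [Chebyshev.psi_sub_theta_eq_sum_not_prime, Nat.floor_natCast] at h1
  refine le_trans (le_of_eq ?_) h1
  rw [sum_filter]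
  refine sum_congr rfl fun n _ => ?_
  unfold PPx_L2
  by_cases hn : n.Prime
  · rw [if_pos hn, if_neg (not_not.2 hn)]
  · rw [if_neg hn, if_pos hn]
    rfl

open Classical in
/-- the proper prime powers up to `y` -/
private noncomputable def PPx_S (y : ℕ) : Finset ℕ :=
  (Ioc 0 y).filter (fun m => IsPrimePow m ∧ ¬ m.Prime)

private theorem PPx_Lam_ge (m : ℕ) (h : IsPrimePow m) : Real.log 2 ≤ Lam m := by
  unfold Lam
  rw [ArithmeticFunction.vonMangoldt_apply, if_pos h]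
  have h2 : 2 ≤ m.minFac := (Nat.minFac_prime h.ne_one).two_le
  exact Real.log_le_log (by norm_num) (by exact_mod_cast h2)

private theorem PPx_card_S (y : ℕ) :
    ((PPx_S y).card : ℝ) ≤ 4 * Real.sqrt y * Real.log y := by
  rcases Nat.eq_zero_or_pos y with hy | hy
  · subst hy
    simp [PPx_S]
  have h1 : ((PPx_S y).card : ℝ) * Real.log 2 ≤ ∑ n ∈ Ioc 0 y, PPx_L2 n := by
    calc ((PPx_S y).card : ℝ) * Real.log 2 = ∑ _n ∈ PPx_S y, Real.log 2 := by
          rw [sum_const, nsmul_eq_mul]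
      _ ≤ ∑ n ∈ PPx_S y, PPx_L2 n := by
          refine sum_le_sum fun n hn => ?_
          unfold PPx_S at hn
          rw [mem_filter] at hn
          unfold PPx_L2
          rw [if_neg hn.2.2]
          exact PPx_Lam_ge n hn.2.1
      _ ≤ ∑ n ∈ Ioc 0 y, PPx_L2 n :=
          sum_le_sum_of_subset_of_nonneg (filter_subset _ _) fun m _ _ => PPx_L2_nn m
  have h2 := PPx_sum2 y hy
  have h3 : (1 / 2 : ℝ) ≤ Real.log 2 := by
    have := Real.log_two_gt_d9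
    linarith
  have h4 : ((PPx_S y).card : ℝ) * (1 / 2) ≤ ((PPx_S y).card : ℝ) * Real.log 2 :=
    mul_le_mul_of_nonneg_left h3 (Nat.cast_nonneg _)
  linarith

private theorem PPx_card {N H : ℕ} (hHN : H ≤ N) :
    ((ppX N H).card : ℝ) ≤ (PPx_S (4 * N)).card * (4 * H + 1) := by
  have hsub : ppX N H ⊆ (PPx_S (4 * N)).biUnion (fun m => Icc (m - 2 * H) (m + 2 * H)) := by
    intro n hn
    unfold ppX at hn
    simp only [mem_filter, mem_Ioc] at hn
    obtain ⟨⟨hn1, hn2⟩, m, hm1, hm2, h1, h2⟩ := hn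
    rw [mem_biUnion]
    refine ⟨m, ?_, ?_⟩
    · unfold PPx_S
      rw [mem_filter, mem_Ioc]
      have := h1.pos
      exact ⟨by omega, h1, h2⟩
    · rw [mem_Icc]
      omega
  have h1 := card_le_card hsub
  have h2 : ((PPx_S (4 * N)).biUnion (fun m => Icc (m - 2 * H) (m + 2 * H))).card ≤
      (PPx_S (4 * N)).card * (4 * H + 1) := by
    refine card_biUnion_le_card_mul _ _ _ fun m _ => ?_
    rw [Nat.card_Icc]
    omega
  exact_mod_cast h1.trans h2

theorem ppX_card (θ : ℝ) (h0 : 0 < θ) (h1 : θ ≤ 1 / 3) (A : ℕ) : ∃ N0 : ℕ, ∀ N : ℕ, N0 ≤ N →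
    ((ppX N (Hn θ N)).card : ℝ) ≤ N / Real.log N ^ A := by
  have hlo := (isLittleO_log_rpow_rpow_atTop ((A : ℝ) + 1) (show (0 : ℝ) < 1 / 6 by norm_num)).bound
    (show (0 : ℝ) < 1 / 100 by norm_num)
  have hev := tendsto_natCast_atTop_atTop.eventually hlo
  obtain ⟨N1, hN1⟩ := Filter.eventually_atTop.1 hev
  refine ⟨max N1 4, fun N hN => ?_⟩
  have hN3 : 4 ≤ N := (le_max_right _ _).trans hN
  have hb := hN1 N ((le_max_left _ _).trans hN)
  have hNr : (4 : ℝ) ≤ N := by exact_mod_cast hN3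
  have hN0 : (0 : ℝ) < N := by linarith
  have hN1r : (1 : ℝ) ≤ N := by linarith
  obtain ⟨L, hL⟩ : ∃ L, L = Real.log N := ⟨_, rfl⟩
  have hL1 : 1 ≤ L := by
    rw [hL, Real.le_log_iff_exp_le hN0]
    have := Real.exp_one_lt_d9
    linarith
  rw [← hL]
  have hL0 : 0 < L := by linarith
  have hb2 : L ^ (A + 1) ≤ 1 / 100 * (N : ℝ) ^ (1 / 6 : ℝ) := by
    rw [← hL, Real.norm_of_nonneg (Real.rpow_nonneg hL0.le _),
      Real.norm_of_nonneg (Real.rpow_nonneg hN0.le _)] at hb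
    have e : L ^ ((A : ℝ) + 1) = L ^ (A + 1) := by
      rw [← Real.rpow_natCast]
      push_cast
      rfl
    rw [e] at hb
    exact hb
  obtain ⟨H, hH⟩ : ∃ H, H = Hn θ N := ⟨_, rfl⟩
  rw [← hH]
  have hHle : (H : ℝ) ≤ (N : ℝ) ^ (1 / 3 : ℝ) := by
    rw [hH]
    unfold Hn
    exact (Nat.floor_le (Real.rpow_nonneg hN0.le _)).trans
      (Real.rpow_le_rpow_of_exponent_le hN1r h1)
  have hHN : H ≤ N := by
    have : (H : ℝ) ≤ N := hHle.trans (by
      calc (N : ℝ) ^ (1 / 3 : ℝ) ≤ (N : ℝ) ^ (1 : ℝ) :=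
            Real.rpow_le_rpow_of_exponent_le hN1r (by norm_num)
        _ = N := Real.rpow_one _)
    exact_mod_cast this
  have hc := PPx_card hHN
  have hlog : Real.log (4 * N) ≤ 2 * L := by
    rw [Real.log_mul (by norm_num) hN0.ne', ← hL]
    have : Real.log 4 ≤ L := by
      rw [hL]
      exact Real.log_le_log (by norm_num) hNr
    linarith
  have hsq : Real.sqrt (4 * N) = 2 * (N : ℝ) ^ (1 / 2 : ℝ) := by
    rw [Real.sqrt_mul (by norm_num), Real.sqrt_eq_rpow (N : ℝ)]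
    have : Real.sqrt 4 = 2 := by
      rw [show (4 : ℝ) = 2 ^ 2 by norm_num]
      exact Real.sqrt_sq (by norm_num)
    rw [this]
  have hc1 : ((PPx_S (4 * N)).card : ℝ) ≤ 16 * (N : ℝ) ^ (1 / 2 : ℝ) * L := by
    have h2 := PPx_card_S (4 * N)
    push_cast at h2
    rw [hsq] at h2
    refine h2.trans ?_
    have h3 : 0 ≤ 4 * (2 * (N : ℝ) ^ (1 / 2 : ℝ)) := by positivity
    calc 4 * (2 * (N : ℝ) ^ (1 / 2 : ℝ)) * Real.log (4 * N)
        ≤ 4 * (2 * (N : ℝ) ^ (1 / 2 : ℝ)) * (2 * L) := mul_le_mul_of_nonneg_left hlog h3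
      _ = 16 * (N : ℝ) ^ (1 / 2 : ℝ) * L := by ring
  have hH1r : (1 : ℝ) ≤ (N : ℝ) ^ (1 / 3 : ℝ) := Real.one_le_rpow hN1r (by norm_num)
  have hH2 : 4 * (H : ℝ) + 1 ≤ 5 * (N : ℝ) ^ (1 / 3 : ℝ) := by linarith
  rw [le_div_iff₀ (by positivity)]
  have hLA : 0 < L ^ A := by positivity
  have hNN : (N : ℝ) ^ (1 / 2 : ℝ) * (N : ℝ) ^ (1 / 3 : ℝ) * (N : ℝ) ^ (1 / 6 : ℝ) = N := by
    rw [← Real.rpow_add hN0, ← Real.rpow_add hN0]
    norm_num
  calc ((ppX N H).card : ℝ) * L ^ A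
      ≤ ((PPx_S (4 * N)).card * (4 * H + 1)) * L ^ A := mul_le_mul_of_nonneg_right hc hLA.le
    _ ≤ (16 * (N : ℝ) ^ (1 / 2 : ℝ) * L * (5 * (N : ℝ) ^ (1 / 3 : ℝ))) * L ^ A := by
        refine mul_le_mul_of_nonneg_right ?_ hLA.le
        exact mul_le_mul hc1 hH2 (by positivity) (by positivity)
    _ = 80 * (N : ℝ) ^ (1 / 2 : ℝ) * (N : ℝ) ^ (1 / 3 : ℝ) * L ^ (A + 1) := by ring
    _ ≤ 80 * (N : ℝ) ^ (1 / 2 : ℝ) * (N : ℝ) ^ (1 / 3 : ℝ) * (1 / 100 * (N : ℝ) ^ (1 / 6 : ℝ)) := by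
        gcongr
    _ = 80 / 100 * ((N : ℝ) ^ (1 / 2 : ℝ) * (N : ℝ) ^ (1 / 3 : ℝ) * (N : ℝ) ^ (1 / 6 : ℝ)) := by
        ring
    _ = 80 / 100 * N := by rw [hNN]
    _ ≤ N := by linarith

end Pool.Agent.H43.TP

end

section

/-!
# TP RefN: the primes of the reflected blocks `2n - blk H (n/H)` for almost all `n`

For `i = n/H`: `{2n - u : u ∈ blk H i} = Ioc x (x + H)` with `x = 2n - (i+1) H` (`1 ≤ i`).  The map `n ↦ x` is injective on every
block and `x ∈ [(i-1)H, (i+1)H)`, so every `x` is taken at most twice; `N/2 ≤ N - 2H < x ≤ 2N`.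
`HUX θ'` (with `N/2` and `N`, exponents `A' , B'` large) and Chebyshev's inequality for every `r ≤ L^B` and class `c mod r`:
`|∑_{v ∈ Ioc x (x+H), v = c (r)} Λ(v) - [(c,r)=1] H/φ(r)| ≤ H/L^{A+B+1}` outside `N/L^{A+2B+1}` of the `n`; sum over the classes against
`e(-a c/r)` (as in `Blk_twist`, `badP_card` in `H43/MP/Blk.lean`; `∑_{c, (c,r)=1} e(-ac/r) = μ(r)`).
-/

set_option autoImplicit false

namespace Pool.Agent.H43.TP

open Finset
open Pool.Agent.H43.MP (blk Hn idx Rn badP HUX)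
open Pool.Agent.H91.PK (ee)
open Pool.Agent.H91.EHA (Lam ramS)

/-- the four dyadic ranges -/
private theorem RefN_cover (F : ℕ → ℝ) (K : ℕ) :
    ∑ x ∈ Ioc K (16 * K), F x = ∑ x ∈ Ioc K (2 * K), F x + ∑ x ∈ Ioc (2 * K) (2 * (2 * K)), F x +
      ∑ x ∈ Ioc (4 * K) (2 * (4 * K)), F x + ∑ x ∈ Ioc (8 * K) (2 * (8 * K)), F x := by
  have h1 := Finset.sum_Ioc_consecutive F (show K ≤ 2 * K by omega) (show 2 * K ≤ 4 * K by omega)
  have h2 := Finset.sum_Ioc_consecutive F (show K ≤ 4 * K by omega) (show 4 * K ≤ 8 * K by omega)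
  have h3 := Finset.sum_Ioc_consecutive F (show K ≤ 8 * K by omega) (show 8 * K ≤ 16 * K by omega)
  have e1 : 2 * (2 * K) = 4 * K := by omega
  have e2 : 2 * (4 * K) = 8 * K := by omega
  have e3 : 2 * (8 * K) = 16 * K := by omega
  rw [e1, e2, e3]
  linarith

private theorem RefN_ev_H1 {θ θ' : ℝ} (h0 : 0 < θ') (h1 : θ' < θ) :
    ∀ᶠ N : ℕ in Filter.atTop, (2 * (N : ℝ)) ^ θ' ≤ Hn θ N := by
  have h2 : Filter.Tendsto (fun N : ℕ => (N : ℝ) ^ (θ - θ')) Filter.atTop Filter.atTop :=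
    (tendsto_rpow_atTop (by linarith : 0 < θ - θ')).comp tendsto_natCast_atTop_atTop
  have h3 : Filter.Tendsto (fun N : ℕ => (N : ℝ) ^ θ) Filter.atTop Filter.atTop :=
    (tendsto_rpow_atTop (by linarith : 0 < θ)).comp tendsto_natCast_atTop_atTop
  filter_upwards [h2.eventually_ge_atTop (2 * 2 ^ θ'), h3.eventually_ge_atTop 2,
    Filter.eventually_ge_atTop 1] with N hN1 hN2 hN3
  have hN0 : (0 : ℝ) < N := by exact_mod_cast hN3
  have h4 : (N : ℝ) ^ θ = N ^ θ' * N ^ (θ - θ') := by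
    rw [← Real.rpow_add hN0]
    congr 1
    ring
  have h5 : (N : ℝ) ^ θ - 1 ≤ Hn θ N := by
    unfold Pool.Agent.H43.MP.Hn
    have := Nat.lt_floor_add_one ((N : ℝ) ^ θ)
    linarith
  have h6 : (2 * (N : ℝ)) ^ θ' = 2 ^ θ' * N ^ θ' := Real.mul_rpow (by norm_num) hN0.le
  have h7 : 0 < (N : ℝ) ^ θ' := Real.rpow_pos_of_pos hN0 _
  have h8 : (N : ℝ) ^ θ' * (2 * 2 ^ θ') ≤ N ^ θ := by
    rw [h4]
    exact mul_le_mul_of_nonneg_left hN1 h7.le
  rw [h6]
  nlinarith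

private theorem RefN_ev_H2 {θ : ℝ} (h0 : 0 < θ) (h2 : θ < 1 / 3) :
    ∀ᶠ N : ℕ in Filter.atTop, 1 ≤ Hn θ N ∧ 16 * (Hn θ N + 20) ≤ N := by
  have h3 : Filter.Tendsto (fun N : ℕ => (N : ℝ) ^ (2 / 3 : ℝ)) Filter.atTop Filter.atTop :=
    (tendsto_rpow_atTop (by norm_num)).comp tendsto_natCast_atTop_atTop
  filter_upwards [h3.eventually_ge_atTop 32, Filter.eventually_ge_atTop 640] with N hN1 hN2
  have hN1' : (1 : ℝ) ≤ N := by exact_mod_cast (by omega : 1 ≤ N)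
  have hN0 : (0 : ℝ) < N := by linarith
  have h4 : (Hn θ N : ℝ) ≤ (N : ℝ) ^ θ := Nat.floor_le (by positivity)
  have h5 : (N : ℝ) ^ θ ≤ (N : ℝ) ^ (1 / 3 : ℝ) := Real.rpow_le_rpow_of_exponent_le hN1' h2.le
  have h6 : (N : ℝ) = (N : ℝ) ^ (1 / 3 : ℝ) * (N : ℝ) ^ (2 / 3 : ℝ) := by
    rw [← Real.rpow_add hN0]
    norm_num
  have h7 : 0 < (N : ℝ) ^ (1 / 3 : ℝ) := Real.rpow_pos_of_pos hN0 _
  have h8 : 32 * (N : ℝ) ^ (1 / 3 : ℝ) ≤ N := by
    calc 32 * (N : ℝ) ^ (1 / 3 : ℝ) = (N : ℝ) ^ (1 / 3 : ℝ) * 32 := mul_comm _ _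
      _ ≤ (N : ℝ) ^ (1 / 3 : ℝ) * (N : ℝ) ^ (2 / 3 : ℝ) := mul_le_mul_of_nonneg_left hN1 h7.le
      _ = N := h6.symm
  constructor
  · unfold Pool.Agent.H43.MP.Hn
    rw [Nat.one_le_floor_iff]
    exact Real.one_le_rpow hN1' h0.le
  · have h9 : 16 * ((Hn θ N : ℝ) + 20) ≤ N := by
      have : (640 : ℝ) ≤ N := by exact_mod_cast hN2
      linarith
    exact_mod_cast h9

private theorem RefN_third {θ : ℝ} (h2 : θ < 1 / 3) :
    ∀ᶠ N : ℕ in Filter.atTop, ∀ K : ℕ, N ≤ 8 * K → (Hn θ N : ℝ) ≤ (K : ℝ) ^ (1 / 3 : ℝ) := by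
  have h3 : Filter.Tendsto (fun N : ℕ => (N : ℝ) ^ (1 / 3 - θ)) Filter.atTop Filter.atTop :=
    (tendsto_rpow_atTop (by linarith)).comp tendsto_natCast_atTop_atTop
  filter_upwards [h3.eventually_ge_atTop 2, Filter.eventually_ge_atTop 1] with N hN1 hN2 K hK
  have hN0 : (0 : ℝ) < N := by exact_mod_cast hN2
  have a1 : (Hn θ N : ℝ) ≤ (N : ℝ) ^ θ := Nat.floor_le (by positivity)
  have a3 : (N : ℝ) / 8 ≤ K := by
    have h5 : (N : ℝ) ≤ 8 * K := by exact_mod_cast hK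
    linarith
  have a4 : ((N : ℝ) / 8) ^ (1 / 3 : ℝ) ≤ (K : ℝ) ^ (1 / 3 : ℝ) :=
    Real.rpow_le_rpow (by positivity) a3 (by norm_num)
  have a5 : ((N : ℝ) / 8) ^ (1 / 3 : ℝ) = (N : ℝ) ^ (1 / 3 : ℝ) / 2 := by
    rw [Real.div_rpow hN0.le (by norm_num)]
    congr 1
    rw [show (8 : ℝ) = 2 ^ (3 : ℝ) by norm_num, ← Real.rpow_mul (by norm_num)]
    norm_num
  have a6 : (N : ℝ) ^ (1 / 3 : ℝ) = (N : ℝ) ^ θ * (N : ℝ) ^ (1 / 3 - θ) := by
    rw [← Real.rpow_add hN0]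
    congr 1
    ring
  have a8 : (0 : ℝ) ≤ (N : ℝ) ^ θ := by positivity
  have a9 : (N : ℝ) ^ θ * 2 ≤ (N : ℝ) ^ θ * (N : ℝ) ^ (1 / 3 - θ) :=
    mul_le_mul_of_nonneg_left hN1 a8
  linarith

private theorem RefN_ev_log (K : ℝ) : ∀ᶠ N : ℕ in Filter.atTop, K ≤ Real.log N :=
  (Real.tendsto_log_atTop.comp tendsto_natCast_atTop_atTop).eventually_ge_atTop K

/-- one application of `HUX` -/
private theorem RefN_app {N K H d A B : ℕ} {S : ℝ} (hlog : Real.log N / 2 ≤ Real.log K)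
    (hlog2 : 4 ≤ Real.log N)
    (hd : (d : ℝ) ≤ Real.log N ^ B)
    (hS : (d : ℝ) ≤ Real.log K ^ (2 * B) → S ≤ K * (H : ℝ) ^ 2 / Real.log K ^ A) :
    S ≤ K * (H : ℝ) ^ 2 * 2 ^ A / Real.log N ^ A := by
  have h1 : 2 ≤ Real.log K := by linarith
  have h2 : (d : ℝ) ≤ Real.log K ^ (2 * B) := by
    calc (d : ℝ) ≤ Real.log N ^ B := hd
      _ ≤ (Real.log K * Real.log K) ^ B := by
          refine pow_le_pow_left₀ (by linarith) ?_ B
          nlinarith
      _ = Real.log K ^ (2 * B) := by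
          rw [← pow_two, ← pow_mul]
  refine (hS h2).trans ?_
  have h3 : 0 < Real.log N := by linarith
  have h4 : (Real.log N / 2) ^ A ≤ Real.log K ^ A := pow_le_pow_left₀ (by linarith) hlog A
  have h5 : K * (H : ℝ) ^ 2 * 2 ^ A / Real.log N ^ A = K * (H : ℝ) ^ 2 / (Real.log N / 2) ^ A := by
    rw [div_pow]
    field_simp
  rw [h5]
  exact div_le_div_of_nonneg_left (by positivity) (by positivity) h4

/-- the representative of `m` in `[1, r]` -/
private def RefN_kap (r m : ℕ) : ℕ := if m % r = 0 then r else m % r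

private theorem RefN_kap_mem {r : ℕ} (hr : 1 ≤ r) (m : ℕ) : RefN_kap r m ∈ Icc 1 r := by
  unfold RefN_kap
  have := Nat.mod_lt m (by omega : 0 < r)
  rw [mem_Icc]
  split_ifs <;> omega

private theorem RefN_kap_eq {r : ℕ} {m c : ℕ} (hc : c ∈ Icc 1 r) :
    RefN_kap r m = c ↔ m % r = c % r := by
  rw [mem_Icc] at hc
  unfold RefN_kap
  rcases Nat.lt_or_ge c r with h | h
  · rw [Nat.mod_eq_of_lt h]
    split_ifs with h1
    · omega
    · rfl
  · have h2 : c = r := by omega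
    rw [h2, Nat.mod_self]
    have := Nat.mod_lt m (by omega : 0 < r)
    split_ifs with h1
    · simp [h1]
    · constructor
      · intro h3
        omega
      · intro h3
        exact absurd h3 h1

private theorem RefN_ee_int (t : ℝ) (k : ℤ) : ee (t + k) = ee t := by
  unfold Pool.Agent.H91.PK.ee
  have e : 2 * Real.pi * ((t + k : ℝ) : ℂ) * Complex.I =
      2 * Real.pi * (t : ℂ) * Complex.I + k * (2 * Real.pi * Complex.I) := by
    push_cast
    ring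
  rw [e, Complex.exp_add, Complex.exp_int_mul_two_pi_mul_I, mul_one]

private theorem RefN_ee_norm (t : ℝ) : ‖ee t‖ = 1 := by
  unfold Pool.Agent.H91.PK.ee
  have e : 2 * Real.pi * (t : ℂ) * Complex.I = ((2 * Real.pi * t : ℝ) : ℂ) * Complex.I := by
    push_cast
    ring
  rw [e, Complex.norm_exp_ofReal_mul_I]

private theorem RefN_ee_neg (t : ℝ) : ee (-t) = (starRingEnd ℂ) (ee t) := by
  unfold Pool.Agent.H91.PK.ee
  rw [← Complex.exp_conj]
  congr 1
  simp only [map_mul, Complex.conj_ofReal, Complex.conj_I, map_ofNat]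
  push_cast
  ring

private theorem RefN_ee_mod {r m c : ℕ} (a : ℕ) (hr : 1 ≤ r) (h : m % r = c % r) :
    ee (-((a : ℝ) * m / r)) = ee (-((a : ℝ) * c / r)) := by
  have hr0 : (r : ℝ) ≠ 0 := by exact_mod_cast (by omega : r ≠ 0)
  have h1 : (r : ℤ) ∣ (m : ℤ) - c := by
    have : c ≡ m [MOD r] := h.symm
    exact (Nat.modEq_iff_dvd.mp this)
  obtain ⟨k, hk⟩ := h1
  have h2 : (m : ℝ) = c + r * k := by
    have : ((m : ℤ) : ℝ) = ((c + r * k : ℤ) : ℝ) := by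
      congr 1
      linarith
    push_cast at this
    exact this
  have h3 : -((a : ℝ) * m / r) = -((a : ℝ) * c / r) + ((-(a * k) : ℤ) : ℝ) := by
    rw [h2]
    push_cast
    field_simp
    ring
  rw [h3, RefN_ee_int]

/-- the Ramanujan sum -/
private theorem RefN_ram {a r : ℕ} (hr : 1 ≤ r) (har : Nat.Coprime a r) :
    ∑ c ∈ (Icc 1 r).filter (fun c => Nat.Coprime c r), ee (-((a : ℝ) * c / r)) =
      ((ArithmeticFunction.moebius r : ℝ) : ℂ) := by
  have h1 := Pool.Agent.H91.EHA.ramS_eq r a hr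
  have h2 : ramS r a = (ArithmeticFunction.moebius r : ℝ) := by
    unfold Pool.Agent.H91.EHA.ramS
    rw [Nat.Coprime.gcd_eq_one har.symm]
    simp
  rw [h2] at h1
  have h3 := congrArg (starRingEnd ℂ) h1
  rw [Complex.conj_ofReal, map_sum] at h3
  rw [h3]
  refine Finset.sum_congr rfl fun c _ => ?_
  rw [RefN_ee_neg]

/-- the twist of a finite set, from the classes -/
private theorem RefN_twist {S : Finset ℕ} {H : ℕ} {a r : ℕ} {ε : ℝ} (hr : 1 ≤ r) (har : Nat.Coprime a r)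
    (h : ∀ c ∈ Icc 1 r, |(∑ n ∈ S.filter (fun n => n % r = c % r), Lam n)
          - (if Nat.Coprime c r then (H : ℝ) / r.totient else 0)| ≤ ε) :
    ‖∑ m ∈ S, ((Lam m : ℝ) : ℂ) * ee (-((a : ℝ) * m / r))
      - (((ArithmeticFunction.moebius r : ℝ) / (r.totient : ℝ) * H : ℝ) : ℂ)‖ ≤ r * ε := by
  have h1 : ∑ m ∈ S, ((Lam m : ℝ) : ℂ) * ee (-((a : ℝ) * m / r)) =
      ∑ c ∈ Icc 1 r, ee (-((a : ℝ) * c / r)) *
        ((∑ n ∈ S.filter (fun n => n % r = c % r), Lam n : ℝ) : ℂ) := by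
    rw [← Finset.sum_fiberwise_of_maps_to (s := S) (t := Icc 1 r) (g := RefN_kap r)
      (fun m _ => RefN_kap_mem hr m)]
    refine Finset.sum_congr rfl fun c hc => ?_
    have e1 : S.filter (fun m => RefN_kap r m = c) =
        S.filter (fun n => n % r = c % r) := by
      ext m
      simp only [Finset.mem_filter, RefN_kap_eq hc]
    rw [e1]
    push_cast
    rw [Finset.mul_sum]
    refine Finset.sum_congr rfl fun m hm => ?_
    rw [RefN_ee_mod a hr (Finset.mem_filter.mp hm).2]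
    ring
  have h2 : (((ArithmeticFunction.moebius r : ℝ) / (r.totient : ℝ) * H : ℝ) : ℂ) =
      ∑ c ∈ Icc 1 r, ee (-((a : ℝ) * c / r)) *
        ((if Nat.Coprime c r then (H : ℝ) / r.totient else 0 : ℝ) : ℂ) := by
    have e1 : ∑ c ∈ Icc 1 r, ee (-((a : ℝ) * c / r)) *
        ((if Nat.Coprime c r then (H : ℝ) / r.totient else 0 : ℝ) : ℂ) =
        ∑ c ∈ (Icc 1 r).filter (fun c => Nat.Coprime c r), ee (-((a : ℝ) * c / r)) *
          (((H : ℝ) / r.totient : ℝ) : ℂ) := by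
      rw [Finset.sum_filter]
      refine Finset.sum_congr rfl fun c _ => ?_
      split_ifs <;> simp
    rw [e1, ← Finset.sum_mul, RefN_ram hr har]
    push_cast
    ring
  rw [h1, h2, ← Finset.sum_sub_distrib]
  calc ‖∑ c ∈ Icc 1 r, (ee (-((a : ℝ) * c / r)) *
        ((∑ n ∈ S.filter (fun n => n % r = c % r), Lam n : ℝ) : ℂ) -
        ee (-((a : ℝ) * c / r)) *
        ((if Nat.Coprime c r then (H : ℝ) / r.totient else 0 : ℝ) : ℂ))‖
      ≤ ∑ _c ∈ Icc 1 r, ε := by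
        refine norm_sum_le_of_le _ fun c hc => ?_
        rw [← mul_sub, norm_mul, RefN_ee_norm, one_mul, ← Complex.ofReal_sub, Complex.norm_real,
          Real.norm_eq_abs]
        exact h c hc
    _ = r * ε := by
        rw [Finset.sum_const, Nat.card_Icc, nsmul_eq_mul]
        congr 2

/-- the left end of the reflected block -/
private def RefN_x (H n : ℕ) : ℕ := 2 * n - (n / H + 1) * H

private theorem RefN_x_bounds {H n : ℕ} (hH : 1 ≤ H) (hn : H ≤ n) :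
    n < RefN_x H n + H + 1 ∧ RefN_x H n < n ∧ RefN_x H n + (n / H + 1) * H = 2 * n := by
  unfold RefN_x
  have h1 : n / H * H ≤ n := Nat.div_mul_le_self n H
  have h2 : n < n / H * H + H := Nat.lt_div_mul_add (by omega)
  have h3 : (n / H + 1) * H = n / H * H + H := by ring
  omega

/-- reflection of the block -/
private theorem RefN_reindex {H n : ℕ} (hH : 1 ≤ H) (hn : H ≤ n) (f : ℕ → ℂ) :
    ∑ u ∈ blk H (n / H), f (2 * n - u) = ∑ v ∈ Ioc (RefN_x H n) (RefN_x H n + H), f v := by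
  obtain ⟨_, _, h3⟩ := RefN_x_bounds hH hn
  have h4 : (n / H + 1) * H = n / H * H + H := by ring
  have h1 : n / H * H ≤ n := Nat.div_mul_le_self n H
  refine Finset.sum_nbij' (fun u => 2 * n - u) (fun v => 2 * n - v) ?_ ?_ ?_ ?_ ?_
  · intro u hu
    unfold Pool.Agent.H43.MP.blk at hu
    rw [mem_Ico] at hu
    rw [mem_Ioc]
    omega
  · intro v hv
    rw [mem_Ioc] at hv
    unfold Pool.Agent.H43.MP.blk
    rw [mem_Ico]
    omega
  · intro u hu
    unfold Pool.Agent.H43.MP.blk at hu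
    rw [mem_Ico] at hu
    show 2 * n - (2 * n - u) = u
    omega
  · intro v hv
    rw [mem_Ioc] at hv
    show 2 * n - (2 * n - v) = v
    omega
  · intro u _
    rfl

/-- every left end is taken at most twice -/
private theorem RefN_fiber {H : ℕ} (hH : 1 ≤ H) (s : Finset ℕ) (hs : ∀ n ∈ s, H ≤ n) (x : ℕ) :
    (s.filter (fun n => RefN_x H n = x)).card ≤ 2 := by
  have hsub : s.filter (fun n => RefN_x H n = x) ⊆
      {(x + (x / H + 1) * H) / 2, (x + (x / H + 2) * H) / 2} := by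
    intro n hn
    rw [Finset.mem_filter] at hn
    obtain ⟨hn1, hn2⟩ := hn
    have hHn := hs n hn1
    obtain ⟨_, _, h3⟩ := RefN_x_bounds hH hHn
    rw [hn2] at h3
    have h1 : n / H * H ≤ n := Nat.div_mul_le_self n H
    have h2 : n < n / H * H + H := Nat.lt_div_mul_add (by omega)
    have h4 : (n / H + 1) * H = n / H * H + H := by ring
    have h5 : 1 ≤ n / H := (Nat.one_le_div_iff (by omega)).mpr hHn
    have h6 : n / H - 1 ≤ x / H := by
      rw [Nat.le_div_iff_mul_le (by omega), Nat.sub_mul]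
      omega
    have h7 : x / H < n / H + 1 := by
      rw [Nat.div_lt_iff_lt_mul (by omega)]
      omega
    have h8 : x / H + 1 = n / H + 1 ∨ x / H + 2 = n / H + 1 := by omega
    rw [Finset.mem_insert, Finset.mem_singleton]
    rcases h8 with h8 | h8
    · left
      rw [h8]
      omega
    · right
      rw [h8]
      omega
  exact (Finset.card_le_card hsub).trans Finset.card_le_two

/-- the number of the `n` with a bad reflected block, from the mean square -/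
private theorem RefN_count (G : ℕ → ℝ) (hG : ∀ x, 0 ≤ G x) (bad : Finset ℕ) (H K : ℕ) {g : ℝ}
    (hH : 1 ≤ H) (hg : 0 ≤ g) (hi : ∀ n ∈ bad, H ≤ n ∧ K + 1 ≤ RefN_x H n ∧ RefN_x H n ≤ 16 * K)
    (hb : ∀ n ∈ bad, g ≤ G (RefN_x H n)) :
    bad.card * g ≤ 2 * ∑ x ∈ Ioc K (16 * K), G x := by
  classical
  have h1 : bad.card ≤ 2 * (bad.image (RefN_x H)).card :=
    Finset.card_le_mul_card_image bad 2 fun x _ => RefN_fiber hH bad (fun n hn => (hi n hn).1) x
  have h2 : ((bad.image (RefN_x H)).card : ℝ) * g ≤ ∑ x ∈ Ioc K (16 * K), G x := by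
    calc ((bad.image (RefN_x H)).card : ℝ) * g = ∑ _x ∈ bad.image (RefN_x H), g := by
          rw [Finset.sum_const, nsmul_eq_mul]
      _ ≤ ∑ x ∈ bad.image (RefN_x H), G x := by
          refine Finset.sum_le_sum fun x hx => ?_
          obtain ⟨n, hn, rfl⟩ := Finset.mem_image.mp hx
          exact hb n hn
      _ ≤ ∑ x ∈ Ioc K (16 * K), G x := by
          refine Finset.sum_le_sum_of_subset_of_nonneg ?_ fun x _ _ => hG x
          intro x hx
          obtain ⟨n, hn, rfl⟩ := Finset.mem_image.mp hx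
          obtain ⟨_, h3, h4⟩ := hi n hn
          rw [mem_Ioc]
          omega
  have h3 : (bad.card : ℝ) ≤ 2 * ((bad.image (RefN_x H)).card : ℝ) := by exact_mod_cast h1
  calc (bad.card : ℝ) * g ≤ 2 * ((bad.image (RefN_x H)).card : ℝ) * g :=
        mul_le_mul_of_nonneg_right h3 hg
    _ = 2 * (((bad.image (RefN_x H)).card : ℝ) * g) := by ring
    _ ≤ _ := by linarith

/-- the final inequality of the count -/
private theorem RefN_arith {E N H l : ℝ} {A A' : ℕ} (hH : 0 < H)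
    (hN : 0 ≤ N) (hl : 8 * 2 ^ (A + 2 * A' + 1) ≤ l)
    (h : E * (H / l ^ A') ^ 2 ≤
      2 * (4 * N * H ^ 2 * 2 ^ (A + 2 * A' + 1) / l ^ (A + 2 * A' + 1))) :
    E ≤ N / l ^ A := by
  have hl0 : 0 < l := lt_of_lt_of_le (by positivity) hl
  have e2 : 2 * (4 * N * H ^ 2 * 2 ^ (A + 2 * A' + 1) / l ^ (A + 2 * A' + 1)) =
      (N / l ^ A * (8 * 2 ^ (A + 2 * A' + 1) / l)) * (H / l ^ A') ^ 2 := by
    have : l ^ (A + 2 * A' + 1) = l ^ A * l * (l ^ A') ^ 2 := by ring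
    rw [this]
    field_simp
    ring
  rw [e2] at h
  have h2 : E ≤ N / l ^ A * (8 * 2 ^ (A + 2 * A' + 1) / l) :=
    le_of_mul_le_mul_right h (by positivity)
  have h3 : 8 * 2 ^ (A + 2 * A' + 1) / l ≤ 1 := by
    rw [div_le_one hl0]
    exact hl
  exact h2.trans (mul_le_of_le_one_right (by positivity) h3)

open Classical in
private theorem RefN_cls (θ θ' : ℝ) (h0 : 0 < θ') (h1 : θ' < θ) (h2 : θ < 1 / 3) (hx : HUX θ') (A A' B : ℕ) :
    ∃ N0 : ℕ, ∀ N : ℕ, N0 ≤ N → ∀ d c : ℕ, 1 ≤ d → (d : ℝ) ≤ Real.log N ^ B →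
      (((Ioc N (2 * N)).filter (fun n => (Hn θ N : ℝ) / Real.log N ^ A' <
        |(∑ v ∈ (Ioc (RefN_x (Hn θ N) n) (RefN_x (Hn θ N) n + Hn θ N)).filter
            (fun v => v % d = c % d), Lam v)
          - (if Nat.Coprime c d then (Hn θ N : ℝ) / d.totient else 0)|)).card : ℝ)
      ≤ (N : ℝ) / Real.log N ^ A := by
  obtain ⟨N1, hN1⟩ := hx (A + 2 * A' + 1) (2 * B)
  have hev : ∀ᶠ N : ℕ in Filter.atTop, 4 * (N1 + 1024) ≤ N := Filter.eventually_ge_atTop _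
  obtain ⟨N0, hN0⟩ := Filter.eventually_atTop.mp (((RefN_ev_H1 h0 h1).and
    (RefN_ev_H2 (h0.trans h1) h2)).and (((RefN_ev_log (128 * 2 ^ (A + 2 * A' + 1))).and hev).and
      (RefN_third h2)))
  refine ⟨N0, fun N hN d c hd1 hd => ?_⟩
  obtain ⟨⟨hH1, hHpos, hH2⟩, ⟨hL, hNN⟩, hthird⟩ := hN0 N hN
  set H : ℕ := Hn θ N with hHdef
  set K : ℕ := N / 4 with hKdef
  set M : ℝ := (if Nat.Coprime c d then (H : ℝ) / d.totient else 0) with hM
  have hp2 : (1 : ℝ) ≤ 2 ^ (A + 2 * A' + 1) := one_le_pow₀ (by norm_num)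
  have hL128 : 128 ≤ Real.log N := by linarith
  have hL0 : 0 < Real.log N := by linarith
  have hNpos : 0 < N := by omega
  have hNR : (0 : ℝ) < N := by exact_mod_cast hNpos
  have hHR : (0 : ℝ) < H := by exact_mod_cast hHpos
  -- the logarithms
  have hlogK : ∀ K' : ℕ, K ≤ K' → Real.log N / 2 ≤ Real.log K' := by
    intro K' hK'
    have h3 : (N : ℝ) / 8 ≤ K' := by
      have h4 : N ≤ 8 * K' := by omega
      have h5 : (N : ℝ) ≤ 8 * K' := by exact_mod_cast h4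
      linarith
    have h6 : Real.log ((N : ℝ) / 8) ≤ Real.log K' := Real.log_le_log (by positivity) h3
    rw [Real.log_div hNR.ne' (by norm_num)] at h6
    have h7 : Real.log 8 ≤ 8 := by
      have := Real.log_le_sub_one_of_pos (by norm_num : (0 : ℝ) < 8)
      linarith
    linarith
  -- the mean squares
  set G : ℕ → ℝ := fun x => ((∑ n ∈ (Ioc x (x + H)).filter (fun n => n % d = c % d), Lam n)
        - M) ^ 2 with hG
  have happ : ∀ K' : ℕ, K ≤ K' → K' ≤ 2 * N → ∑ x ∈ Ioc K' (2 * K'), G x ≤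
      K' * (H : ℝ) ^ 2 * 2 ^ (A + 2 * A' + 1) / Real.log N ^ (A + 2 * A' + 1) := by
    intro K' hK1 hK2
    refine RefN_app (d := d) (B := B) (hlogK K' hK1) (by linarith) hd fun hd' => ?_
    have hb2 : N ≤ 8 * K' := by omega
    have hb3 : (H : ℝ) ≤ (K' : ℝ) ^ (1 / 3 : ℝ) := hthird K' hb2
    refine hN1 K' (by omega) H ?_ hb3 d c hd1 hd'
    refine le_trans ?_ hH1
    refine Real.rpow_le_rpow (Nat.cast_nonneg _) ?_ h0.le
    exact_mod_cast hK2
  have hsum : ∑ x ∈ Ioc K (16 * K), G x ≤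
      4 * N * (H : ℝ) ^ 2 * 2 ^ (A + 2 * A' + 1) / Real.log N ^ (A + 2 * A' + 1) := by
    rw [RefN_cover G K]
    have a1 := happ K le_rfl (by omega)
    have a2 := happ (2 * K) (by omega) (by omega)
    have a3 := happ (4 * K) (by omega) (by omega)
    have a4 := happ (8 * K) (by omega) (by omega)
    have hK4 : 4 * (K : ℝ) ≤ N := by
      have : 4 * K ≤ N := by omega
      exact_mod_cast this
    have hq : 0 ≤ (H : ℝ) ^ 2 * 2 ^ (A + 2 * A' + 1) / Real.log N ^ (A + 2 * A' + 1) := by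
      positivity
    have e0 : ∀ z : ℝ, z * (H : ℝ) ^ 2 * 2 ^ (A + 2 * A' + 1) / Real.log N ^ (A + 2 * A' + 1) =
        z * ((H : ℝ) ^ 2 * 2 ^ (A + 2 * A' + 1) / Real.log N ^ (A + 2 * A' + 1)) := by
      intro z
      ring
    rw [e0] at a1 a2 a3 a4 ⊢
    push_cast at a2 a3 a4
    have h5 : 15 * (K : ℝ) * ((H : ℝ) ^ 2 * 2 ^ (A + 2 * A' + 1) /
        Real.log N ^ (A + 2 * A' + 1)) ≤ 4 * N * ((H : ℝ) ^ 2 * 2 ^ (A + 2 * A' + 1) /
        Real.log N ^ (A + 2 * A' + 1)) := mul_le_mul_of_nonneg_right (by linarith) hq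
    linarith
  set bad : Finset ℕ := (Ioc N (2 * N)).filter (fun n => (H : ℝ) / Real.log N ^ A' <
        |(∑ v ∈ (Ioc (RefN_x H n) (RefN_x H n + H)).filter
            (fun v => v % d = c % d), Lam v) - M|) with hbad
  have hcount := RefN_count G (fun x => sq_nonneg _) bad H K
    (g := ((H : ℝ) / Real.log N ^ A') ^ 2) hHpos (by positivity)
    (fun n hn => by
      have hn1 := (Finset.mem_filter.mp hn).1
      rw [mem_Ioc] at hn1
      have hHn : H ≤ n := by omega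
      obtain ⟨b1, b2, _⟩ := RefN_x_bounds hHpos hHn
      refine ⟨hHn, ?_, ?_⟩ <;> omega)
    (fun n hn => by
      have hn2 := (Finset.mem_filter.mp hn).2
      have h6 := pow_le_pow_left₀ (by positivity) hn2.le 2
      rw [sq_abs] at h6
      exact h6)
  refine RefN_arith (A := A) (A' := A') hHR hNR.le (by linarith) (hcount.trans ?_)
  linarith

theorem badN_card (θ θ' : ℝ) (h0 : 0 < θ') (h1 : θ' < θ) (h2 : θ < 1 / 3) (hx : HUX θ') (A B : ℕ) :
    ∃ N0 : ℕ, ∀ N : ℕ, N0 ≤ N → ((badN N (Hn θ N) A B).card : ℝ) ≤ (N : ℝ) / Real.log N ^ A := by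
  classical
  obtain ⟨N0, hN0⟩ := RefN_cls θ θ' h0 h1 h2 hx (A + 2 * B) (A + B) B
  obtain ⟨N1, hN1⟩ := Filter.eventually_atTop.mp ((RefN_ev_log 1).and
    (RefN_ev_H2 (h0.trans h1) h2))
  refine ⟨max N0 N1, fun N hN => ?_⟩
  obtain ⟨hL, hHpos, hH2⟩ := hN1 N ((le_max_right _ _).trans hN)
  have hcls := hN0 N ((le_max_left _ _).trans hN)
  have hL0 : 0 < Real.log N := by linarith
  have hHR : (0 : ℝ) < Hn θ N := by exact_mod_cast hHpos
  set H := Hn θ N with hH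
  set R : ℕ := ⌊Real.log N ^ B⌋₊ with hR
  have hRle : (R : ℝ) ≤ Real.log N ^ B := Nat.floor_le (by positivity)
  let bad : ℕ → ℕ → Finset ℕ := fun d c => (Ioc N (2 * N)).filter (fun n =>
    (H : ℝ) / Real.log N ^ (A + B) <
        |(∑ v ∈ (Ioc (RefN_x H n) (RefN_x H n + H)).filter
            (fun v => v % d = c % d), Lam v)
          - (if Nat.Coprime c d then (H : ℝ) / d.totient else 0)|)
  have hsub : badN N H A B ⊆ (Icc 1 R ×ˢ Icc 1 R).biUnion (fun t => bad t.1 t.2) := by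
    intro n hn
    unfold badN at hn
    rw [Finset.mem_filter] at hn
    obtain ⟨hn1, r, a, hr1, hrB, har, hlt⟩ := hn
    have hrR : r ≤ R := Nat.le_floor hrB
    have hHn : H ≤ n := by
      rw [mem_Ioc] at hn1
      omega
    by_contra hcon
    apply absurd hlt
    rw [not_lt]
    have h3 := RefN_twist (S := Ioc (RefN_x H n) (RefN_x H n + H)) (H := H)
      (ε := (H : ℝ) / Real.log N ^ (A + B)) hr1 har
      (fun c hc => by
        by_contra hc2
        rw [not_le] at hc2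
        apply hcon
        rw [Finset.mem_biUnion]
        rw [mem_Icc] at hc
        refine ⟨(r, c), ?_, ?_⟩
        · rw [Finset.mem_product, mem_Icc, mem_Icc]
          exact ⟨⟨hr1, hrR⟩, hc.1, hc.2.trans hrR⟩
        · exact Finset.mem_filter.mpr ⟨hn1, hc2⟩)
    have h4 := RefN_reindex hHpos hHn (fun v => ((Lam v : ℝ) : ℂ) * ee (-((a : ℝ) * (v : ℝ) / r)))
    rw [← h4] at h3
    refine h3.trans ?_
    calc (r : ℝ) * ((H : ℝ) / Real.log N ^ (A + B)) ≤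
        Real.log N ^ B * ((H : ℝ) / Real.log N ^ (A + B)) :=
          mul_le_mul_of_nonneg_right hrB (by positivity)
      _ = (H : ℝ) / Real.log N ^ A := by
          rw [pow_add]
          field_simp
  have hc1 : ∀ t ∈ Icc 1 R ×ˢ Icc 1 R, ((bad t.1 t.2).card : ℝ) ≤
      (N : ℝ) / Real.log N ^ (A + 2 * B) := by
    intro t ht
    rw [Finset.mem_product, mem_Icc, mem_Icc] at ht
    have h3 : (t.1 : ℝ) ≤ Real.log N ^ B := le_trans (by exact_mod_cast ht.1.2) hRle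
    have h4 := hcls t.1 t.2 ht.1.1 h3
    refine le_trans (le_of_eq ?_) h4
    congr 2
  calc ((badN N H A B).card : ℝ) ≤
      (((Icc 1 R ×ˢ Icc 1 R).biUnion (fun t => bad t.1 t.2)).card : ℝ) := by
        exact_mod_cast Finset.card_le_card hsub
    _ ≤ ∑ t ∈ Icc 1 R ×ˢ Icc 1 R, ((bad t.1 t.2).card : ℝ) := by
        exact_mod_cast Finset.card_biUnion_le
    _ ≤ ∑ _t ∈ Icc 1 R ×ˢ Icc 1 R, (N : ℝ) / Real.log N ^ (A + 2 * B) :=
        Finset.sum_le_sum hc1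
    _ = (R : ℝ) * R * ((N : ℝ) / Real.log N ^ (A + 2 * B)) := by
        rw [Finset.sum_const, Finset.card_product, Nat.card_Icc, nsmul_eq_mul]
        push_cast
        simp
    _ ≤ Real.log N ^ B * Real.log N ^ B * ((N : ℝ) / Real.log N ^ (A + 2 * B)) := by
        refine mul_le_mul_of_nonneg_right ?_ (by positivity)
        exact mul_le_mul hRle hRle (Nat.cast_nonneg _) (by positivity)
    _ = (N : ℝ) / Real.log N ^ A := by
        rw [pow_add, two_mul, pow_add]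
        field_simp

end Pool.Agent.H43.TP

end

section

/-!
# TP Blk3: `badP_card` of `H43/MP/Blk.lean` for `θ < 1/3` (there: `θ ≤ 1/4`)

The condition `θ ≤ 1/4` is used there only in `Blk_ev_H2` (`16 (H + 20) ≤ N`) and in `Blk_third`
(`Hn θ N ≤ K^(1/3)` for `N ≤ 8 K`): both hold for `θ < 1/3` and large `N`.  Copy the file with these two changes.
-/

set_option autoImplicit false

namespace Pool.Agent.H43.TP

open Finset
open Pool.Agent.H43.MP (blk Hn idx Rn badP HUX)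
open Pool.Agent.H91.PK (ee)
open Pool.Agent.H91.EHA (Lam hR lamR ramS)

private theorem Blk3_Lam_nonneg (n : ℕ) : 0 ≤ Lam n := ArithmeticFunction.vonMangoldt_nonneg

private theorem Blk3_Lam_le {n X : ℕ} (hn : n ≤ X) : Lam n ≤ Real.log X := by
  have h1 : Lam n ≤ Real.log n := ArithmeticFunction.vonMangoldt_le_log
  rcases Nat.eq_zero_or_pos n with h0 | h0
  · rw [h0] at h1 ⊢
    refine h1.trans ?_
    simp only [Nat.cast_zero, Real.log_zero]
    exact Real.log_natCast_nonneg X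
  · refine h1.trans (Real.log_le_log (by exact_mod_cast h0) (by exact_mod_cast hn))

/-- shifting the window by `j` -/
private theorem Blk3_shift (f : ℕ → ℝ) (hf : ∀ n, 0 ≤ f n) {K : ℝ} (a j H X : ℕ) (ha : 1 ≤ a)
    (hX : a + H + j ≤ X) (hK : ∀ n, n ≤ X → f n ≤ K) :
    |∑ n ∈ Ioc (a - 1 + j) (a - 1 + j + H), f n - ∑ n ∈ Ico a (a + H), f n| ≤ j * K := by
  have e1 : Ioc (a - 1 + j) (a - 1 + j + H) = Ico (a + j) (a + j + H) := by
    ext n
    simp only [mem_Ioc, mem_Ico]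
    omega
  have s1 : ∑ n ∈ Ico a (a + H), f n + ∑ n ∈ Ico (a + H) (a + H + j), f n =
      ∑ n ∈ Ico a (a + H + j), f n := Finset.sum_Ico_consecutive f (by omega) (by omega)
  have s2 : ∑ n ∈ Ico a (a + j), f n + ∑ n ∈ Ico (a + j) (a + j + H), f n =
      ∑ n ∈ Ico a (a + j + H), f n := Finset.sum_Ico_consecutive f (by omega) (by omega)
  have e2 : a + j + H = a + H + j := by omega
  rw [e2] at s2
  rw [e1, e2]
  have b1 : ∑ n ∈ Ico (a + H) (a + H + j), f n ≤ j * K := by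
    calc ∑ n ∈ Ico (a + H) (a + H + j), f n ≤ ∑ _n ∈ Ico (a + H) (a + H + j), K := by
          refine Finset.sum_le_sum fun n hn => hK n ?_
          rw [mem_Ico] at hn
          omega
      _ = j * K := by
          rw [Finset.sum_const, Nat.card_Ico, nsmul_eq_mul]
          congr 2
          omega
  have b2 : ∑ n ∈ Ico a (a + j), f n ≤ j * K := by
    calc ∑ n ∈ Ico a (a + j), f n ≤ ∑ _n ∈ Ico a (a + j), K := by
          refine Finset.sum_le_sum fun n hn => hK n ?_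
          rw [mem_Ico] at hn
          omega
      _ = j * K := by
          rw [Finset.sum_const, Nat.card_Ico, nsmul_eq_mul]
          congr 2
          omega
  have c1 : 0 ≤ ∑ n ∈ Ico (a + H) (a + H + j), f n := Finset.sum_nonneg fun n _ => hf n
  have c2 : 0 ≤ ∑ n ∈ Ico a (a + j), f n := Finset.sum_nonneg fun n _ => hf n
  rw [abs_le]
  constructor <;> linarith

/-- the four dyadic ranges -/
private theorem Blk3_cover (F : ℕ → ℝ) (K : ℕ) :
    ∑ x ∈ Ioc K (16 * K), F x = ∑ x ∈ Ioc K (2 * K), F x + ∑ x ∈ Ioc (2 * K) (2 * (2 * K)), F x +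
      ∑ x ∈ Ioc (4 * K) (2 * (4 * K)), F x + ∑ x ∈ Ioc (8 * K) (2 * (8 * K)), F x := by
  have h1 := Finset.sum_Ioc_consecutive F (show K ≤ 2 * K by omega) (show 2 * K ≤ 4 * K by omega)
  have h2 := Finset.sum_Ioc_consecutive F (show K ≤ 4 * K by omega) (show 4 * K ≤ 8 * K by omega)
  have h3 := Finset.sum_Ioc_consecutive F (show K ≤ 8 * K by omega) (show 8 * K ≤ 16 * K by omega)
  have e1 : 2 * (2 * K) = 4 * K := by omega
  have e2 : 2 * (4 * K) = 8 * K := by omega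
  have e3 : 2 * (8 * K) = 16 * K := by omega
  rw [e1, e2, e3]
  linarith

/-- the number of bad blocks from the mean square over the windows -/
private theorem Blk3_count (G : ℕ → ℝ) (hG : ∀ x, 0 ≤ G x) (bad : Finset ℕ) (H δ K : ℕ) {g : ℝ}
    (hδ : δ < H) (hi : ∀ i ∈ bad, 1 ≤ i * H ∧ K + 1 ≤ i * H - 1 ∧ i * H - 1 + δ ≤ 16 * K)
    (hb : ∀ i ∈ bad, ∀ j ≤ δ, g ≤ G (i * H - 1 + j)) :
    bad.card * ((δ + 1 : ℕ) * g) ≤ ∑ x ∈ Ioc K (16 * K), G x := by
  classical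
  have hinj : Set.InjOn (fun t : ℕ × ℕ => t.1 * H - 1 + t.2)
      ((bad ×ˢ range (δ + 1) : Finset (ℕ × ℕ)) : Set (ℕ × ℕ)) := by
    intro s hs t ht hst
    rw [Finset.mem_coe, Finset.mem_product, Finset.mem_range] at hs ht
    have hst' : s.1 * H - 1 + s.2 = t.1 * H - 1 + t.2 := hst
    have h1 := (hi s.1 hs.1).1
    have h2 := (hi t.1 ht.1).1
    have h3 : s.1 * H + s.2 = t.1 * H + t.2 := by omega
    have h4 : s.2 < H := by omega
    have h5 : t.2 < H := by omega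
    have h6 : s.1 = t.1 := by
      have e1 : (s.1 * H + s.2) / H = s.1 := by
        rw [mul_comm, Nat.mul_add_div (by omega), Nat.div_eq_of_lt h4, add_zero]
      have e2 : (t.1 * H + t.2) / H = t.1 := by
        rw [mul_comm, Nat.mul_add_div (by omega), Nat.div_eq_of_lt h5, add_zero]
      rw [← e1, h3, e2]
    have h7 : s.2 = t.2 := by
      rw [h6] at h3
      omega
    exact Prod.ext h6 h7
  have hsub : (bad ×ˢ range (δ + 1)).image (fun t : ℕ × ℕ => t.1 * H - 1 + t.2) ⊆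
      Ioc K (16 * K) := by
    intro x hx
    rw [Finset.mem_image] at hx
    obtain ⟨t, ht, rfl⟩ := hx
    rw [Finset.mem_product, Finset.mem_range] at ht
    obtain ⟨_, h2, h3⟩ := hi t.1 ht.1
    rw [mem_Ioc]
    omega
  calc (bad.card : ℝ) * ((δ + 1 : ℕ) * g) = ∑ _t ∈ bad ×ˢ range (δ + 1), g := by
        rw [Finset.sum_const, Finset.card_product, Finset.card_range, nsmul_eq_mul]
        push_cast
        ring
    _ ≤ ∑ t ∈ bad ×ˢ range (δ + 1), G (t.1 * H - 1 + t.2) := by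
        refine Finset.sum_le_sum fun t ht => ?_
        rw [Finset.mem_product, Finset.mem_range] at ht
        exact hb t.1 ht.1 t.2 (by omega)
    _ = ∑ x ∈ (bad ×ˢ range (δ + 1)).image (fun t : ℕ × ℕ => t.1 * H - 1 + t.2), G x := by
        rw [Finset.sum_image hinj]
    _ ≤ ∑ x ∈ Ioc K (16 * K), G x :=
        Finset.sum_le_sum_of_subset_of_nonneg hsub fun x _ _ => hG x

private theorem Blk3_ev_H1 {θ θ' : ℝ} (h0 : 0 < θ') (h1 : θ' < θ) :
    ∀ᶠ N : ℕ in Filter.atTop, (2 * (N : ℝ)) ^ θ' ≤ Hn θ N := by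
  have h2 : Filter.Tendsto (fun N : ℕ => (N : ℝ) ^ (θ - θ')) Filter.atTop Filter.atTop :=
    (tendsto_rpow_atTop (by linarith : 0 < θ - θ')).comp tendsto_natCast_atTop_atTop
  have h3 : Filter.Tendsto (fun N : ℕ => (N : ℝ) ^ θ) Filter.atTop Filter.atTop :=
    (tendsto_rpow_atTop (by linarith : 0 < θ)).comp tendsto_natCast_atTop_atTop
  filter_upwards [h2.eventually_ge_atTop (2 * 2 ^ θ'), h3.eventually_ge_atTop 2,
    Filter.eventually_ge_atTop 1] with N hN1 hN2 hN3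
  have hN0 : (0 : ℝ) < N := by exact_mod_cast hN3
  have h4 : (N : ℝ) ^ θ = N ^ θ' * N ^ (θ - θ') := by
    rw [← Real.rpow_add hN0]
    congr 1
    ring
  have h5 : (N : ℝ) ^ θ - 1 ≤ Hn θ N := by
    unfold Pool.Agent.H43.MP.Hn
    have := Nat.lt_floor_add_one ((N : ℝ) ^ θ)
    linarith
  have h6 : (2 * (N : ℝ)) ^ θ' = 2 ^ θ' * N ^ θ' := Real.mul_rpow (by norm_num) hN0.le
  have h7 : 0 < (N : ℝ) ^ θ' := Real.rpow_pos_of_pos hN0 _
  have h8 : (N : ℝ) ^ θ' * (2 * 2 ^ θ') ≤ N ^ θ := by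
    rw [h4]
    exact mul_le_mul_of_nonneg_left hN1 h7.le
  rw [h6]
  nlinarith

private theorem Blk3_ev_H2 {θ : ℝ} (h0 : 0 < θ) (h2 : θ < 1 / 3) :
    ∀ᶠ N : ℕ in Filter.atTop, 1 ≤ Hn θ N ∧ 16 * (Hn θ N + 20) ≤ N := by
  have h3 : Filter.Tendsto (fun N : ℕ => (N : ℝ) ^ (2 / 3 : ℝ)) Filter.atTop Filter.atTop :=
    (tendsto_rpow_atTop (by norm_num)).comp tendsto_natCast_atTop_atTop
  filter_upwards [h3.eventually_ge_atTop 32, Filter.eventually_ge_atTop 640] with N hN1 hN2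
  have hN1' : (1 : ℝ) ≤ N := by exact_mod_cast (by omega : 1 ≤ N)
  have hN0 : (0 : ℝ) < N := by linarith
  have h4 : (Hn θ N : ℝ) ≤ (N : ℝ) ^ θ := Nat.floor_le (by positivity)
  have h5 : (N : ℝ) ^ θ ≤ (N : ℝ) ^ (1 / 3 : ℝ) := Real.rpow_le_rpow_of_exponent_le hN1' h2.le
  have h6 : (N : ℝ) = (N : ℝ) ^ (1 / 3 : ℝ) * (N : ℝ) ^ (2 / 3 : ℝ) := by
    rw [← Real.rpow_add hN0]
    norm_num
  have h7 : 0 < (N : ℝ) ^ (1 / 3 : ℝ) := Real.rpow_pos_of_pos hN0 _
  have h8 : 32 * (N : ℝ) ^ (1 / 3 : ℝ) ≤ N := by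
    calc 32 * (N : ℝ) ^ (1 / 3 : ℝ) = (N : ℝ) ^ (1 / 3 : ℝ) * 32 := mul_comm _ _
      _ ≤ (N : ℝ) ^ (1 / 3 : ℝ) * (N : ℝ) ^ (2 / 3 : ℝ) := mul_le_mul_of_nonneg_left hN1 h7.le
      _ = N := h6.symm
  constructor
  · unfold Pool.Agent.H43.MP.Hn
    rw [Nat.one_le_floor_iff]
    exact Real.one_le_rpow hN1' h0.le
  · have h9 : 16 * ((Hn θ N : ℝ) + 20) ≤ N := by
      have : (640 : ℝ) ≤ N := by exact_mod_cast hN2
      linarith
    exact_mod_cast h9

private theorem Blk3_ev_log (K : ℝ) : ∀ᶠ N : ℕ in Filter.atTop, K ≤ Real.log N :=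
  (Real.tendsto_log_atTop.comp tendsto_natCast_atTop_atTop).eventually_ge_atTop K

/-- the final inequality of the count -/
private theorem Blk3_arith {E D N H l : ℝ} {A A' : ℕ} (hE : 0 ≤ E) (hH : 0 < H)
    (hN : 0 ≤ N) (hl : 128 * 2 ^ (A + 3 * A' + 2) ≤ l)
    (hD : H / (8 * l ^ (A' + 1)) ≤ D)
    (h : E * (D * (H / (2 * l ^ A')) ^ 2) ≤
      4 * N * H ^ 2 * 2 ^ (A + 3 * A' + 2) / l ^ (A + 3 * A' + 2)) :
    E ≤ N / H / l ^ A := by
  have hl0 : 0 < l := lt_of_lt_of_le (by positivity) hl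
  have h1 : E * (H / (8 * l ^ (A' + 1)) * (H / (2 * l ^ A')) ^ 2) ≤
      4 * N * H ^ 2 * 2 ^ (A + 3 * A' + 2) / l ^ (A + 3 * A' + 2) := by
    refine le_trans (mul_le_mul_of_nonneg_left ?_ hE) h
    exact mul_le_mul_of_nonneg_right hD (by positivity)
  have e1 : E * (H / (8 * l ^ (A' + 1)) * (H / (2 * l ^ A')) ^ 2) =
      (E * H) * (H ^ 2 / (32 * l ^ (3 * A' + 1))) := by
    have : l ^ (3 * A' + 1) = l ^ (A' + 1) * (l ^ A') ^ 2 := by ring
    rw [this]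
    field_simp
    ring
  have e2 : 4 * N * H ^ 2 * 2 ^ (A + 3 * A' + 2) / l ^ (A + 3 * A' + 2) =
      (N / l ^ A * (128 * 2 ^ (A + 3 * A' + 2) / l)) * (H ^ 2 / (32 * l ^ (3 * A' + 1))) := by
    have : l ^ (A + 3 * A' + 2) = l ^ A * l * l ^ (3 * A' + 1) := by ring
    rw [this]
    field_simp
    ring
  rw [e1, e2] at h1
  have h2 : E * H ≤ N / l ^ A * (128 * 2 ^ (A + 3 * A' + 2) / l) :=
    le_of_mul_le_mul_right h1 (by positivity)
  have h3 : 128 * 2 ^ (A + 3 * A' + 2) / l ≤ 1 := by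
    rw [div_le_one hl0]
    exact hl
  have h4 : E * H ≤ N / l ^ A := by
    refine h2.trans ?_
    exact mul_le_of_le_one_right (by positivity) h3
  rw [div_div, mul_comm H, ← div_div, le_div_iff₀ hH]
  exact h4

private theorem Blk3_ev_third {θ : ℝ} (h2 : θ < 1 / 3) :
    ∀ᶠ N : ℕ in Filter.atTop, ∀ K : ℕ, N ≤ 8 * K → (Hn θ N : ℝ) ≤ (K : ℝ) ^ (1 / 3 : ℝ) := by
  have h3 : Filter.Tendsto (fun N : ℕ => (N : ℝ) ^ (1 / 3 - θ)) Filter.atTop Filter.atTop :=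
    (tendsto_rpow_atTop (by linarith : 0 < 1 / 3 - θ)).comp tendsto_natCast_atTop_atTop
  filter_upwards [h3.eventually_ge_atTop 2, Filter.eventually_ge_atTop 1] with N hN1 hN2 K hK
  have hN0 : (0 : ℝ) < N := by exact_mod_cast hN2
  have a1 : (Hn θ N : ℝ) ≤ (N : ℝ) ^ θ := Nat.floor_le (by positivity)
  have a3 : (N : ℝ) / 8 ≤ K := by
    have h5 : (N : ℝ) ≤ 8 * K := by exact_mod_cast hK
    linarith
  have a4 : ((N : ℝ) / 8) ^ (1 / 3 : ℝ) ≤ (K : ℝ) ^ (1 / 3 : ℝ) :=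
    Real.rpow_le_rpow (by positivity) a3 (by norm_num)
  have a5 : ((N : ℝ) / 8) ^ (1 / 3 : ℝ) = (N : ℝ) ^ (1 / 3 : ℝ) / 2 := by
    rw [Real.div_rpow hN0.le (by norm_num)]
    congr 1
    rw [show (8 : ℝ) = 2 ^ (3 : ℝ) by norm_num, ← Real.rpow_mul (by norm_num)]
    norm_num
  have a6 : (N : ℝ) ^ (1 / 3 : ℝ) = (N : ℝ) ^ θ * (N : ℝ) ^ (1 / 3 - θ) := by
    rw [← Real.rpow_add hN0]
    congr 1
    ring
  have a8 : (0 : ℝ) ≤ (N : ℝ) ^ θ := by positivity
  have a9 : (N : ℝ) ^ θ * 2 ≤ (N : ℝ) ^ θ * (N : ℝ) ^ (1 / 3 - θ) :=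
    mul_le_mul_of_nonneg_left hN1 a8
  linarith

/-- one application of `HUX` -/
private theorem Blk3_app {N K H d A B : ℕ} {S : ℝ} (hlog : Real.log N / 2 ≤ Real.log K)
    (hlog2 : 4 ≤ Real.log N)
    (hd : (d : ℝ) ≤ Real.log N ^ B)
    (hS : (d : ℝ) ≤ Real.log K ^ (2 * B) → S ≤ K * (H : ℝ) ^ 2 / Real.log K ^ A) :
    S ≤ K * (H : ℝ) ^ 2 * 2 ^ A / Real.log N ^ A := by
  have h1 : 2 ≤ Real.log K := by linarith
  have h2 : (d : ℝ) ≤ Real.log K ^ (2 * B) := by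
    calc (d : ℝ) ≤ Real.log N ^ B := hd
      _ ≤ (Real.log K * Real.log K) ^ B := by
          refine pow_le_pow_left₀ (by linarith) ?_ B
          nlinarith
      _ = Real.log K ^ (2 * B) := by
          rw [← pow_two, ← pow_mul]
  refine (hS h2).trans ?_
  have h3 : 0 < Real.log N := by linarith
  have h4 : (Real.log N / 2) ^ A ≤ Real.log K ^ A := pow_le_pow_left₀ (by linarith) hlog A
  have h5 : K * (H : ℝ) ^ 2 * 2 ^ A / Real.log N ^ A = K * (H : ℝ) ^ 2 / (Real.log N / 2) ^ A := by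
    rw [div_pow]
    field_simp
  rw [h5]
  exact div_le_div_of_nonneg_left (by positivity) (by positivity) h4

open Classical in
private theorem Blk3_cls (θ θ' : ℝ) (h0 : 0 < θ') (h1 : θ' < θ) (h2 : θ < 1 / 3) (hx : HUX θ') (A A' B : ℕ) :
    ∃ N0 : ℕ, ∀ N : ℕ, N0 ≤ N → ∀ d c : ℕ, 1 ≤ d → (d : ℝ) ≤ Real.log N ^ B →
      (((idx N (Hn θ N)).filter (fun i => (Hn θ N : ℝ) / Real.log N ^ A' <
        |(∑ n ∈ (blk (Hn θ N) i).filter (fun n => n % d = c % d), Lam n)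
          - (if Nat.Coprime c d then (Hn θ N : ℝ) / d.totient else 0)|)).card : ℝ)
      ≤ (N : ℝ) / (Hn θ N) / Real.log N ^ A := by
  obtain ⟨N1, hN1⟩ := hx (A + 3 * A' + 2) (2 * B)
  have hev : ∀ᶠ N : ℕ in Filter.atTop, 4 * (N1 + 1024) ≤ N := Filter.eventually_ge_atTop _
  obtain ⟨N0, hN0⟩ := Filter.eventually_atTop.mp (((Blk3_ev_H1 h0 h1).and
    (Blk3_ev_H2 (h0.trans h1) h2)).and ((Blk3_ev_log (128 * 2 ^ (A + 3 * A' + 2))).and
      (hev.and (Blk3_ev_third h2))))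
  refine ⟨N0, fun N hN d c hd1 hd => ?_⟩
  obtain ⟨⟨hH1, hHpos, hH2⟩, hL, hNN, hTh⟩ := hN0 N hN
  set H : ℕ := Hn θ N with hHdef
  set K : ℕ := N / 4 with hKdef
  set M : ℝ := (if Nat.Coprime c d then (H : ℝ) / d.totient else 0) with hM
  have hp2 : (1 : ℝ) ≤ 2 ^ (A + 3 * A' + 2) := one_le_pow₀ (by norm_num)
  have hL128 : 128 ≤ Real.log N := by linarith
  have hL0 : 0 < Real.log N := by linarith
  have hNpos : 0 < N := by omega
  have hNR : (0 : ℝ) < N := by exact_mod_cast hNpos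
  have hHR : (0 : ℝ) < H := by exact_mod_cast hHpos
  -- the logarithms
  have hlogK : ∀ K' : ℕ, K ≤ K' → Real.log N / 2 ≤ Real.log K' := by
    intro K' hK'
    have h3 : (N : ℝ) / 8 ≤ K' := by
      have h4 : N ≤ 8 * K' := by omega
      have h5 : (N : ℝ) ≤ 8 * K' := by exact_mod_cast h4
      linarith
    have h6 : Real.log ((N : ℝ) / 8) ≤ Real.log K' := Real.log_le_log (by positivity) h3
    rw [Real.log_div hNR.ne' (by norm_num)] at h6
    have h7 : Real.log 8 ≤ 8 := by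
      have := Real.log_le_sub_one_of_pos (by norm_num : (0 : ℝ) < 8)
      linarith
    linarith
  -- the mean squares
  set G : ℕ → ℝ := fun x => ((∑ n ∈ (Ioc x (x + H)).filter (fun n => n % d = c % d), Lam n)
        - M) ^ 2 with hG
  have happ : ∀ K' : ℕ, K ≤ K' → K' ≤ 2 * N → ∑ x ∈ Ioc K' (2 * K'), G x ≤
      K' * (H : ℝ) ^ 2 * 2 ^ (A + 3 * A' + 2) / Real.log N ^ (A + 3 * A' + 2) := by
    intro K' hK1 hK2
    refine Blk3_app (d := d) (B := B) (hlogK K' hK1) (by linarith) hd fun hd' => ?_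
    have hb1 : 4096 ≤ N := le_trans (le_trans (by norm_num) (Nat.mul_le_mul_left 4 (Nat.le_add_left 1024 N1))) hNN
    have hb2 : N ≤ 8 * K' := by omega
    have hb3 : (H : ℝ) ≤ (K' : ℝ) ^ (1 / 3 : ℝ) := hTh K' hb2
    refine hN1 K' (by omega) H ?_ hb3 d c hd1 hd'
    refine le_trans ?_ hH1
    refine Real.rpow_le_rpow (Nat.cast_nonneg _) ?_ h0.le
    exact_mod_cast hK2
  have hsum : ∑ x ∈ Ioc K (16 * K), G x ≤
      4 * N * (H : ℝ) ^ 2 * 2 ^ (A + 3 * A' + 2) / Real.log N ^ (A + 3 * A' + 2) := by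
    rw [Blk3_cover G K]
    have a1 := happ K le_rfl (by omega)
    have a2 := happ (2 * K) (by omega) (by omega)
    have a3 := happ (4 * K) (by omega) (by omega)
    have a4 := happ (8 * K) (by omega) (by omega)
    have hK4 : 4 * (K : ℝ) ≤ N := by
      have : 4 * K ≤ N := by omega
      exact_mod_cast this
    have hq : 0 ≤ (H : ℝ) ^ 2 * 2 ^ (A + 3 * A' + 2) / Real.log N ^ (A + 3 * A' + 2) := by
      positivity
    have e0 : ∀ z : ℝ, z * (H : ℝ) ^ 2 * 2 ^ (A + 3 * A' + 2) / Real.log N ^ (A + 3 * A' + 2) =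
        z * ((H : ℝ) ^ 2 * 2 ^ (A + 3 * A' + 2) / Real.log N ^ (A + 3 * A' + 2)) := by
      intro z
      ring
    rw [e0] at a1 a2 a3 a4 ⊢
    push_cast at a2 a3 a4
    have h5 : 15 * (K : ℝ) * ((H : ℝ) ^ 2 * 2 ^ (A + 3 * A' + 2) /
        Real.log N ^ (A + 3 * A' + 2)) ≤ 4 * N * ((H : ℝ) ^ 2 * 2 ^ (A + 3 * A' + 2) /
        Real.log N ^ (A + 3 * A' + 2)) := mul_le_mul_of_nonneg_right (by linarith) hq
    linarith
  -- the shifts
  set δ : ℕ := ⌊(H : ℝ) / (8 * Real.log N ^ (A' + 1))⌋₊ with hδ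
  have hLp : ∀ n : ℕ, 1 ≤ Real.log N ^ n := fun n => one_le_pow₀ (by linarith)
  have hδ1 : (δ : ℝ) ≤ (H : ℝ) / (8 * Real.log N ^ (A' + 1)) := Nat.floor_le (by positivity)
  have hδ2 : (H : ℝ) / (8 * Real.log N ^ (A' + 1)) ≤ ((δ + 1 : ℕ) : ℝ) := by
    push_cast
    exact (Nat.lt_floor_add_one _).le
  have hδH : δ < H := by
    have h3 : (H : ℝ) / (8 * Real.log N ^ (A' + 1)) < H := by
      rw [div_lt_iff₀ (by positivity)]
      have := hLp (A' + 1)
      nlinarith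
    have h4 : (δ : ℝ) < H := lt_of_le_of_lt hδ1 h3
    exact_mod_cast h4
  set bad : Finset ℕ := (idx N H).filter (fun i => (H : ℝ) / Real.log N ^ A' <
        |(∑ n ∈ (blk H i).filter (fun n => n % d = c % d), Lam n) - M|) with hbad
  have hrange : ∀ i ∈ idx N H, 1 ≤ i * H ∧ K + 1 ≤ i * H - 1 ∧ i * H - 1 + δ ≤ 16 * K ∧
      i * H + H + δ ≤ 4 * N := by
    intro i hi
    unfold Pool.Agent.H43.MP.idx at hi
    rw [mem_Icc] at hi
    have h3 : i * H ≤ 3 * N := by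
      have := Nat.mul_le_mul_right H hi.2
      exact this.trans (Nat.div_mul_le_self _ _)
    have h4 : N < 2 * (i * H) + 2 * H := by
      have h5 : N / (2 * H) * (2 * H) ≤ i * (2 * H) := Nat.mul_le_mul_right _ hi.1
      have h6 : N < N / (2 * H) * (2 * H) + 2 * H := by
        have := Nat.lt_div_mul_add (a := N) (b := 2 * H) (by omega)
        exact this
      have h7 : i * (2 * H) = 2 * (i * H) := by ring
      omega
    refine ⟨?_, ?_, ?_, ?_⟩ <;> omega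
  have hlog4 : Real.log ((4 * N : ℕ) : ℝ) ≤ 2 * Real.log N := by
    push_cast
    rw [Real.log_mul (by norm_num) hNR.ne']
    have h7 : Real.log 4 ≤ 4 := by
      have := Real.log_le_sub_one_of_pos (by norm_num : (0 : ℝ) < 4)
      linarith
    linarith
  have hcount := Blk3_count G (fun x => sq_nonneg _) bad H δ K
    (g := ((H : ℝ) / (2 * Real.log N ^ A')) ^ 2) hδH
    (fun i hi => by
      have := hrange i (Finset.mem_filter.mp hi).1
      exact ⟨this.1, this.2.1, this.2.2.1⟩)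
    (fun i hi j hj => by
      obtain ⟨hi1, hi2⟩ := Finset.mem_filter.mp hi
      obtain ⟨r1, _, _, r4⟩ := hrange i hi1
      have hs := Blk3_shift (fun n => if n % d = c % d then Lam n else 0)
        (fun n => by
          split_ifs
          · exact Blk3_Lam_nonneg n
          · exact le_rfl) (K := Real.log ((4 * N : ℕ) : ℝ)) (i * H) j H (4 * N) r1 (by omega)
        (fun n hn => by
          split_ifs
          · exact Blk3_Lam_le hn
          · exact Real.log_natCast_nonneg _)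
      rw [← Finset.sum_filter, ← Finset.sum_filter] at hs
      have hblk : blk H i = Ico (i * H) (i * H + H) := by
        unfold Pool.Agent.H43.MP.blk
        congr 1
        ring
      rw [hblk] at hi2
      set T := ∑ n ∈ (Ioc (i * H - 1 + j) (i * H - 1 + j + H)).filter (fun n => n % d = c % d),
        Lam n
      set S := ∑ n ∈ (Ico (i * H) (i * H + H)).filter (fun n => n % d = c % d), Lam n
      have hj' : (j : ℝ) ≤ (H : ℝ) / (8 * Real.log N ^ (A' + 1)) :=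
        le_trans (by exact_mod_cast hj) hδ1
      have h3 : |T - S| ≤ (H : ℝ) / (4 * Real.log N ^ A') := by
        refine hs.trans ?_
        calc (j : ℝ) * Real.log ((4 * N : ℕ) : ℝ) ≤
            ((H : ℝ) / (8 * Real.log N ^ (A' + 1))) * (2 * Real.log N) :=
              mul_le_mul hj' hlog4 (Real.log_natCast_nonneg _) (by positivity)
          _ = (H : ℝ) / (4 * Real.log N ^ A') := by
              rw [pow_succ]
              field_simp
              norm_num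
      have h4 : |S - M| ≤ |T - M| + |T - S| := by
        have e : S - M = (T - M) - (T - S) := by ring
        rw [e]
        exact abs_sub _ _
      have h5 : (H : ℝ) / (2 * Real.log N ^ A') ≤ |T - M| := by
        have e1 : (H : ℝ) / (4 * Real.log N ^ A') = (H : ℝ) / Real.log N ^ A' / 4 := by
          rw [mul_comm 4, ← div_div]
        have e2 : (H : ℝ) / (2 * Real.log N ^ A') = (H : ℝ) / Real.log N ^ A' / 2 := by
          rw [mul_comm 2, ← div_div]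
        rw [e1] at h3
        rw [e2]
        have h6 : 0 < (H : ℝ) / Real.log N ^ A' := by positivity
        linarith
      have h6 := pow_le_pow_left₀ (by positivity) h5 2
      rw [sq_abs] at h6
      exact h6)
  exact Blk3_arith (Nat.cast_nonneg _) hHR hNR.le hL hδ2 (hcount.trans hsum)

/-- the representative of `m` in `[1, r]` -/
private def Blk3_kap (r m : ℕ) : ℕ := if m % r = 0 then r else m % r

private theorem Blk3_kap_mem {r : ℕ} (hr : 1 ≤ r) (m : ℕ) : Blk3_kap r m ∈ Icc 1 r := by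
  unfold Blk3_kap
  have := Nat.mod_lt m (by omega : 0 < r)
  rw [mem_Icc]
  split_ifs <;> omega

private theorem Blk3_kap_eq {r : ℕ} {m c : ℕ} (hc : c ∈ Icc 1 r) :
    Blk3_kap r m = c ↔ m % r = c % r := by
  rw [mem_Icc] at hc
  unfold Blk3_kap
  rcases Nat.lt_or_ge c r with h | h
  · rw [Nat.mod_eq_of_lt h]
    split_ifs with h1
    · omega
    · rfl
  · have h2 : c = r := by omega
    rw [h2, Nat.mod_self]
    have := Nat.mod_lt m (by omega : 0 < r)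
    split_ifs with h1
    · simp [h1]
    · constructor
      · intro h3
        omega
      · intro h3
        exact absurd h3 h1

private theorem Blk3_ee_int (t : ℝ) (k : ℤ) : ee (t + k) = ee t := by
  unfold Pool.Agent.H91.PK.ee
  have e : 2 * Real.pi * ((t + k : ℝ) : ℂ) * Complex.I =
      2 * Real.pi * (t : ℂ) * Complex.I + k * (2 * Real.pi * Complex.I) := by
    push_cast
    ring
  rw [e, Complex.exp_add, Complex.exp_int_mul_two_pi_mul_I, mul_one]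

private theorem Blk3_ee_norm (t : ℝ) : ‖ee t‖ = 1 := by
  unfold Pool.Agent.H91.PK.ee
  have e : 2 * Real.pi * (t : ℂ) * Complex.I = ((2 * Real.pi * t : ℝ) : ℂ) * Complex.I := by
    push_cast
    ring
  rw [e, Complex.norm_exp_ofReal_mul_I]

private theorem Blk3_ee_neg (t : ℝ) : ee (-t) = (starRingEnd ℂ) (ee t) := by
  unfold Pool.Agent.H91.PK.ee
  rw [← Complex.exp_conj]
  congr 1
  simp only [map_mul, Complex.conj_ofReal, Complex.conj_I, map_ofNat]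
  push_cast
  ring

private theorem Blk3_ee_mod {r m c : ℕ} (a : ℕ) (hr : 1 ≤ r) (h : m % r = c % r) :
    ee (-((a : ℝ) * m / r)) = ee (-((a : ℝ) * c / r)) := by
  have hr0 : (r : ℝ) ≠ 0 := by exact_mod_cast (by omega : r ≠ 0)
  have h1 : (r : ℤ) ∣ (m : ℤ) - c := by
    have : c ≡ m [MOD r] := h.symm
    exact (Nat.modEq_iff_dvd.mp this)
  obtain ⟨k, hk⟩ := h1
  have h2 : (m : ℝ) = c + r * k := by
    have : ((m : ℤ) : ℝ) = ((c + r * k : ℤ) : ℝ) := by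
      congr 1
      linarith
    push_cast at this
    exact this
  have h3 : -((a : ℝ) * m / r) = -((a : ℝ) * c / r) + ((-(a * k) : ℤ) : ℝ) := by
    rw [h2]
    push_cast
    field_simp
    ring
  rw [h3, Blk3_ee_int]

/-- the Ramanujan sum -/
private theorem Blk3_ram {a r : ℕ} (hr : 1 ≤ r) (har : Nat.Coprime a r) :
    ∑ c ∈ (Icc 1 r).filter (fun c => Nat.Coprime c r), ee (-((a : ℝ) * c / r)) =
      ((ArithmeticFunction.moebius r : ℝ) : ℂ) := by
  have h1 := Pool.Agent.H91.EHA.ramS_eq r a hr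
  have h2 : ramS r a = (ArithmeticFunction.moebius r : ℝ) := by
    unfold Pool.Agent.H91.EHA.ramS
    rw [Nat.Coprime.gcd_eq_one har.symm]
    simp
  rw [h2] at h1
  have h3 := congrArg (starRingEnd ℂ) h1
  rw [Complex.conj_ofReal, map_sum] at h3
  rw [h3]
  refine Finset.sum_congr rfl fun c _ => ?_
  rw [Blk3_ee_neg]

/-- the twist of the block, from the classes -/
private theorem Blk3_twist {H i a r : ℕ} {ε : ℝ} (hr : 1 ≤ r) (har : Nat.Coprime a r)
    (h : ∀ c ∈ Icc 1 r, |(∑ n ∈ (blk H i).filter (fun n => n % r = c % r), Lam n)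
          - (if Nat.Coprime c r then (H : ℝ) / r.totient else 0)| ≤ ε) :
    ‖∑ m ∈ blk H i, ((Lam m : ℝ) : ℂ) * ee (-((a : ℝ) * m / r))
      - (((ArithmeticFunction.moebius r : ℝ) / (r.totient : ℝ) * H : ℝ) : ℂ)‖ ≤ r * ε := by
  have h1 : ∑ m ∈ blk H i, ((Lam m : ℝ) : ℂ) * ee (-((a : ℝ) * m / r)) =
      ∑ c ∈ Icc 1 r, ee (-((a : ℝ) * c / r)) *
        ((∑ n ∈ (blk H i).filter (fun n => n % r = c % r), Lam n : ℝ) : ℂ) := by
    rw [← Finset.sum_fiberwise_of_maps_to (s := blk H i) (t := Icc 1 r) (g := Blk3_kap r)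
      (fun m _ => Blk3_kap_mem hr m)]
    refine Finset.sum_congr rfl fun c hc => ?_
    have e1 : (blk H i).filter (fun m => Blk3_kap r m = c) =
        (blk H i).filter (fun n => n % r = c % r) := by
      ext m
      simp only [Finset.mem_filter, Blk3_kap_eq hc]
    rw [e1]
    push_cast
    rw [Finset.mul_sum]
    refine Finset.sum_congr rfl fun m hm => ?_
    rw [Blk3_ee_mod a hr (Finset.mem_filter.mp hm).2]
    ring
  have h2 : (((ArithmeticFunction.moebius r : ℝ) / (r.totient : ℝ) * H : ℝ) : ℂ) =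
      ∑ c ∈ Icc 1 r, ee (-((a : ℝ) * c / r)) *
        ((if Nat.Coprime c r then (H : ℝ) / r.totient else 0 : ℝ) : ℂ) := by
    have e1 : ∑ c ∈ Icc 1 r, ee (-((a : ℝ) * c / r)) *
        ((if Nat.Coprime c r then (H : ℝ) / r.totient else 0 : ℝ) : ℂ) =
        ∑ c ∈ (Icc 1 r).filter (fun c => Nat.Coprime c r), ee (-((a : ℝ) * c / r)) *
          (((H : ℝ) / r.totient : ℝ) : ℂ) := by
      rw [Finset.sum_filter]
      refine Finset.sum_congr rfl fun c _ => ?_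
      split_ifs <;> simp
    rw [e1, ← Finset.sum_mul, Blk3_ram hr har]
    push_cast
    ring
  rw [h1, h2, ← Finset.sum_sub_distrib]
  calc ‖∑ c ∈ Icc 1 r, (ee (-((a : ℝ) * c / r)) *
        ((∑ n ∈ (blk H i).filter (fun n => n % r = c % r), Lam n : ℝ) : ℂ) -
        ee (-((a : ℝ) * c / r)) *
        ((if Nat.Coprime c r then (H : ℝ) / r.totient else 0 : ℝ) : ℂ))‖
      ≤ ∑ _c ∈ Icc 1 r, ε := by
        refine norm_sum_le_of_le _ fun c hc => ?_
        rw [← mul_sub, norm_mul, Blk3_ee_norm, one_mul, ← Complex.ofReal_sub, Complex.norm_real,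
          Real.norm_eq_abs]
        exact h c hc
    _ = r * ε := by
        rw [Finset.sum_const, Nat.card_Icc, nsmul_eq_mul]
        congr 2

theorem badP_card3 (θ θ' : ℝ) (h0 : 0 < θ') (h1 : θ' < θ) (h2 : θ < 1 / 3) (hx : HUX θ') (A B : ℕ) :
    ∃ N0 : ℕ, ∀ N : ℕ, N0 ≤ N →
      ((badP N (Hn θ N) A B).card : ℝ) ≤ (N : ℝ) / (Hn θ N) / Real.log N ^ A := by
  classical
  obtain ⟨N0, hN0⟩ := Blk3_cls θ θ' h0 h1 h2 hx (A + 2 * B) (A + B) B
  obtain ⟨N1, hN1⟩ := Filter.eventually_atTop.mp ((Blk3_ev_log 1).and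
    (Blk3_ev_H2 (h0.trans h1) h2))
  refine ⟨max N0 N1, fun N hN => ?_⟩
  obtain ⟨hL, hHpos, _⟩ := hN1 N ((le_max_right _ _).trans hN)
  have hcls := hN0 N ((le_max_left _ _).trans hN)
  have hL0 : 0 < Real.log N := by linarith
  have hHR : (0 : ℝ) < Hn θ N := by exact_mod_cast hHpos
  set H := Hn θ N with hH
  set R : ℕ := ⌊Real.log N ^ B⌋₊ with hR
  have hRle : (R : ℝ) ≤ Real.log N ^ B := Nat.floor_le (by positivity)
  let bad : ℕ → ℕ → Finset ℕ := fun d c => (idx N H).filter (fun i =>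
    (H : ℝ) / Real.log N ^ (A + B) <
        |(∑ n ∈ (blk H i).filter (fun n => n % d = c % d), Lam n)
          - (if Nat.Coprime c d then (H : ℝ) / d.totient else 0)|)
  have hsub : badP N H A B ⊆ (Icc 1 R ×ˢ Icc 1 R).biUnion (fun t => bad t.1 t.2) := by
    intro i hi
    unfold Pool.Agent.H43.MP.badP at hi
    rw [Finset.mem_filter] at hi
    obtain ⟨hi1, r, a, hr1, hrB, har, hlt⟩ := hi
    have hrR : r ≤ R := Nat.le_floor hrB
    by_contra hcon
    apply absurd hlt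
    rw [not_lt]
    have h3 := Blk3_twist (H := H) (i := i) (ε := (H : ℝ) / Real.log N ^ (A + B)) hr1 har
      (fun c hc => by
        by_contra hc2
        rw [not_le] at hc2
        apply hcon
        rw [Finset.mem_biUnion]
        rw [mem_Icc] at hc
        refine ⟨(r, c), ?_, ?_⟩
        · rw [Finset.mem_product, mem_Icc, mem_Icc]
          exact ⟨⟨hr1, hrR⟩, hc.1, hc.2.trans hrR⟩
        · exact Finset.mem_filter.mpr ⟨hi1, hc2⟩)
    refine h3.trans ?_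
    calc (r : ℝ) * ((H : ℝ) / Real.log N ^ (A + B)) ≤
        Real.log N ^ B * ((H : ℝ) / Real.log N ^ (A + B)) :=
          mul_le_mul_of_nonneg_right hrB (by positivity)
      _ = (H : ℝ) / Real.log N ^ A := by
          rw [pow_add]
          field_simp
  have hc1 : ∀ t ∈ Icc 1 R ×ˢ Icc 1 R, ((bad t.1 t.2).card : ℝ) ≤
      (N : ℝ) / H / Real.log N ^ (A + 2 * B) := by
    intro t ht
    rw [Finset.mem_product, mem_Icc, mem_Icc] at ht
    have h3 : (t.1 : ℝ) ≤ Real.log N ^ B := le_trans (by exact_mod_cast ht.1.2) hRle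
    have h4 := hcls t.1 t.2 ht.1.1 h3
    refine le_trans (le_of_eq ?_) h4
    congr 2
  calc ((badP N H A B).card : ℝ) ≤
      (((Icc 1 R ×ˢ Icc 1 R).biUnion (fun t => bad t.1 t.2)).card : ℝ) := by
        exact_mod_cast Finset.card_le_card hsub
    _ ≤ ∑ t ∈ Icc 1 R ×ˢ Icc 1 R, ((bad t.1 t.2).card : ℝ) := by
        exact_mod_cast Finset.card_biUnion_le
    _ ≤ ∑ _t ∈ Icc 1 R ×ˢ Icc 1 R, (N : ℝ) / H / Real.log N ^ (A + 2 * B) :=
        Finset.sum_le_sum hc1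
    _ = (R : ℝ) * R * ((N : ℝ) / H / Real.log N ^ (A + 2 * B)) := by
        rw [Finset.sum_const, Finset.card_product, Nat.card_Icc, nsmul_eq_mul]
        push_cast
        simp
    _ ≤ Real.log N ^ B * Real.log N ^ B * ((N : ℝ) / H / Real.log N ^ (A + 2 * B)) := by
        refine mul_le_mul_of_nonneg_right ?_ (by positivity)
        exact mul_le_mul hRle hRle (Nat.cast_nonneg _) (by positivity)
    _ = (N : ℝ) / H / Real.log N ^ A := by
        rw [pow_add, two_mul, pow_add]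
        field_simp

end Pool.Agent.H43.TP

end

section

/-!
# TP LamSq: the second moment of `Λ_R` in the blocks

Copy of `HSq_lamR` (private in `H53/MID/HSq.lean`): `∑_{Ico u (u+w)} lamR^2 ≤ 5 w ∑_{c ≤ R} 1/φ(c)` for `R^2 ≤ w`, and
`∑_{c ≤ R} 1/φ(c) ≤ (2 log R + 2)(1 + log R) ≤ L` for large `N` (`R ≤ L^B`).
-/

set_option autoImplicit false

namespace Pool.Agent.H43.TP

open Finset
open Pool.Agent.H91.EHA (Lam lamR ramS)
open Pool.Agent.H43.MP (blk Hn idx Rn)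

/-- mean square of `lamR` in a short interval -/
private theorem LamSq_lamR (R u w : ℕ) (hu : 1 ≤ u) (hw : 0 < w) (hR : R ^ 2 ≤ w) :
    ∑ k ∈ Ico u (u + w), lamR R k ^ 2 ≤ 5 * w * ∑ c ∈ Icc 1 R, 1 / (c.totient : ℝ) := by
  classical
  set J : Finset (Σ _ : ℕ, ℕ) := (Icc 1 R).sigma (fun r => Pool.Agent.H92.EH.red r) with hJ
  have hsp : ∀ i ∈ J, ∀ j ∈ J, i ≠ j → ∀ k : ℤ,
      (1 : ℝ) / w ≤ |(i.2 : ℝ) / i.1 - (j.2 : ℝ) / j.1 - k| := by
    rintro ⟨r, b⟩ hi ⟨r', b'⟩ hj hne k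
    rw [hJ, mem_sigma, mem_Icc] at hi hj
    simp only at hi hj
    refine le_trans ?_ (Pool.Agent.H92.EH.farey_spacing (by omega) (by omega) hi.2 hj.2 ?_ k)
    · apply one_div_le_one_div_of_le
      · have h1 : (0 : ℝ) < r := by exact_mod_cast hi.1.1
        have h2 : (0 : ℝ) < r' := by exact_mod_cast hj.1.1
        positivity
      · have : r * r' ≤ w := by
          calc r * r' ≤ R * R := Nat.mul_le_mul hi.1.2 hj.1.2
            _ = R ^ 2 := by ring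
            _ ≤ w := hR
        exact_mod_cast this
    · rintro ⟨rfl, rfl⟩
      exact hne rfl
  set m : ℕ → ℝ := fun c => ((ArithmeticFunction.moebius c : ℤ) : ℝ) / (c.totient : ℝ) with hm
  set cf : (Σ _ : ℕ, ℕ) → ℂ := fun j => ((m j.1 : ℝ) : ℂ) *
    Pool.Agent.H92.EH.e (((u : ℝ) - 1) * ((j.2 : ℝ) / j.1)) with hcf
  have hen : ∀ t : ℝ, ‖Pool.Agent.H92.EH.e t‖ = 1 := fun t => by
    rw [Pool.Agent.H76.EHB.HRm_e, Pool.Agent.H91.PK.LSa_norm_ee]
  have h := Pool.Agent.H92.EH.dual_large_sieve J (fun j => (j.2 : ℝ) / j.1) cf w w le_rfl hw hsp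
  have himg : Ico u (u + w) = (Icc 1 w).image (fun n => u + n - 1) := by
    ext k
    rw [Finset.mem_Ico, Finset.mem_image]
    constructor
    · rintro ⟨h3, h4⟩
      exact ⟨k + 1 - u, by rw [Finset.mem_Icc]; omega, by omega⟩
    · rintro ⟨n, hn, rfl⟩
      rw [Finset.mem_Icc] at hn
      omega
  have h1 : ∀ n ∈ Icc 1 w, lamR R (u + n - 1) ^ 2 =
      ‖∑ j ∈ J, cf j * Pool.Agent.H92.EH.e (n * ((j.2 : ℝ) / j.1))‖ ^ 2 := by
    intro n hn
    rw [Finset.mem_Icc] at hn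
    have h2 := Pool.Agent.H76.EHB.lamR_eq R (u + n - 1) (by omega)
    have h3 : ∑ j ∈ J, cf j * Pool.Agent.H92.EH.e (n * ((j.2 : ℝ) / j.1)) =
        ((lamR R (u + n - 1) : ℝ) : ℂ) := by
      rw [h2, hJ, sum_sigma]
      refine sum_congr rfl fun c _ => ?_
      rw [mul_sum]
      refine sum_congr rfl fun b _ => ?_
      have h4 : ((u + n - 1 : ℕ) : ℝ) = ((u : ℝ) - 1) + n := by
        rw [Nat.cast_sub (by omega)]
        push_cast
        ring
      rw [hcf]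
      simp only
      rw [Pool.Agent.H76.EHB.HRm_e, Pool.Agent.H76.EHB.HRm_e, mul_assoc,
        ← Pool.Agent.H91.PK.LSa_ee_add, h4, ← add_mul]
    rw [h3, Complex.norm_real, Real.norm_eq_abs, sq_abs]
  rw [himg, Finset.sum_image (by
    intro a ha b hb hab
    simp only [Finset.coe_Icc, Set.mem_Icc] at ha hb
    simp only at hab
    omega), sum_congr rfl h1]
  refine h.trans (mul_le_mul_of_nonneg_left ?_ (by positivity))
  rw [hJ, sum_sigma]
  refine sum_le_sum fun c hc => ?_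
  have h5 : ∀ b ∈ Pool.Agent.H92.EH.red c, ‖cf ⟨c, b⟩‖ ^ 2 = m c ^ 2 := fun b _ => by
    rw [hcf]
    simp only
    rw [norm_mul, hen, mul_one, Complex.norm_real, Real.norm_eq_abs, sq_abs]
  rw [sum_congr rfl h5, sum_const, Pool.Agent.H92.EH.card_red, nsmul_eq_mul]
  have hc1 : 0 < c := (mem_Icc.mp hc).1
  have ht : (0 : ℝ) < c.totient := by exact_mod_cast Nat.totient_pos.mpr hc1
  have hmu : (((ArithmeticFunction.moebius c : ℤ) : ℝ)) ^ 2 ≤ 1 := by
    have h5 := ArithmeticFunction.abs_moebius_le_one (n := c)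
    have h6 : |((ArithmeticFunction.moebius c : ℤ) : ℝ)| ≤ 1 := by exact_mod_cast h5
    rw [← sq_abs]
    exact pow_le_one₀ (abs_nonneg _) h6
  rw [hm]
  simp only
  rw [div_pow, mul_div_assoc', div_le_div_iff₀ (by positivity) ht]
  nlinarith [mul_pos ht ht]

private theorem LamSq_log (B : ℕ) : ∃ N0 : ℕ, 3 ≤ N0 ∧ ∀ N : ℕ, N0 ≤ N →
    1 ≤ Real.log N ∧
    5 * ((2 * (B * Real.log (Real.log N)) + 1) * (1 + 2 * (B * Real.log (Real.log N)))) ≤ Real.log N ^ 2 := by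
  have h1 : Filter.Tendsto (fun x : ℝ => Real.log x / x) Filter.atTop (nhds 0) := by
    have := Real.isLittleO_log_id_atTop.tendsto_div_nhds_zero
    simpa using this
  have h2 : ∀ᶠ x : ℝ in Filter.atTop, Real.log x / x < 1 / (24 * (B + 1)) := by
    refine h1.eventually (gt_mem_nhds ?_)
    positivity
  have h3 : ∀ᶠ x : ℝ in Filter.atTop, 12 ≤ x := Filter.eventually_ge_atTop _
  have hlog : Filter.Tendsto (fun N : ℕ => Real.log N) Filter.atTop Filter.atTop :=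
    Real.tendsto_log_atTop.comp tendsto_natCast_atTop_atTop
  obtain ⟨N0, hN0⟩ := Filter.eventually_atTop.mp (hlog.eventually (h2.and h3))
  refine ⟨max N0 3, le_max_right _ _, fun N hN => ?_⟩
  obtain ⟨h4, h5⟩ := hN0 N ((le_max_left _ _).trans hN)
  have hx : 0 < Real.log N := by linarith
  refine ⟨by linarith, ?_⟩
  set x := Real.log N with hxd
  have h6 : Real.log x < x / (24 * (B + 1)) := by
    rw [div_lt_iff₀ hx] at h4
    calc Real.log x < 1 / (24 * ((B : ℝ) + 1)) * x := h4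
      _ = x / (24 * (B + 1)) := by ring
  have h7 : 0 ≤ Real.log x := Real.log_nonneg (by linarith)
  have hB : (0 : ℝ) ≤ B := Nat.cast_nonneg B
  have h8 : B * Real.log x ≤ x / 24 := by
    have h9 : (B : ℝ) * Real.log x ≤ (B + 1) * Real.log x :=
      mul_le_mul_of_nonneg_right (by linarith) h7
    have h10 : (B + 1) * Real.log x ≤ (B + 1) * (x / (24 * (B + 1))) :=
      mul_le_mul_of_nonneg_left h6.le (by linarith)
    have h11 : ((B : ℝ) + 1) * (x / (24 * (B + 1))) = x / 24 := by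
      field_simp
    linarith
  have h12 : 0 ≤ (B : ℝ) * Real.log x := mul_nonneg hB h7
  have h13 : 2 * (B * Real.log x) + 1 ≤ x / 6 := by linarith
  calc 5 * ((2 * (B * Real.log x) + 1) * (1 + 2 * (B * Real.log x)))
      = 5 * (2 * (B * Real.log x) + 1) ^ 2 := by ring
    _ ≤ 5 * (x / 6) ^ 2 :=
        mul_le_mul_of_nonneg_left (pow_le_pow_left₀ (by positivity) h13 2) (by norm_num)
    _ ≤ x ^ 2 := by nlinarith [sq_nonneg x]

theorem lamR_blk (B : ℕ) : ∃ N0 : ℕ, ∀ N : ℕ, N0 ≤ N → ∀ H i : ℕ, 1 ≤ i → Real.log N ^ (2 * B) ≤ H →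
    ∑ m ∈ blk H i, lamR (Rn B N) m ^ 2 ≤ H * Real.log N ^ 2 := by
  obtain ⟨N0, -, hN0⟩ := LamSq_log B
  refine ⟨N0, fun N hN H i hi hH => ?_⟩
  obtain ⟨hL, hmain⟩ := hN0 N hN
  set L := Real.log N with hLd
  have hL0 : 0 < L := by linarith
  have hpow : (1 : ℝ) ≤ L ^ B := one_le_pow₀ hL
  have hH1 : 0 < H := by
    have h1 : (0 : ℝ) < L ^ (2 * B) := by positivity
    exact_mod_cast h1.trans_le hH
  have hRle : ((Rn B N : ℕ) : ℝ) ≤ L ^ B := Nat.floor_le (by positivity)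
  have hR1 : 1 ≤ Rn B N := Nat.le_floor (by simpa using hpow)
  set R := Rn B N with hRd
  have hR2 : R ^ 2 ≤ H := by
    have h1 : ((R : ℝ)) ^ 2 ≤ H := by
      calc (R : ℝ) ^ 2 ≤ (L ^ B) ^ 2 := pow_le_pow_left₀ (Nat.cast_nonneg R) hRle 2
        _ = L ^ (2 * B) := by rw [← pow_mul, mul_comm]
        _ ≤ H := hH
    exact_mod_cast h1
  have hblk : blk H i = Ico (i * H) (i * H + H) := by
    unfold blk
    rw [add_mul, one_mul]
  rw [hblk]
  refine (LamSq_lamR R (i * H) H (Nat.mul_pos hi hH1) hH1 hR2).trans ?_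
  have h2 := Pool.Agent.H76.EHB.HRm_tot (R ^ 2) R hR1 le_rfl
  have hR0 : (0 : ℝ) < R := by exact_mod_cast hR1
  have h3 : Real.log ((R ^ 2 : ℕ) : ℝ) ≤ 2 * (B * Real.log L) := by
    push_cast
    rw [Real.log_pow]
    push_cast
    have h4 : Real.log R ≤ Real.log (L ^ B) := Real.log_le_log hR0 hRle
    rw [Real.log_pow] at h4
    linarith
  have h5 : 0 ≤ Real.log ((R ^ 2 : ℕ) : ℝ) := Real.log_natCast_nonneg _
  have h6 : (Real.log ((R ^ 2 : ℕ) : ℝ) + 1) * (1 + Real.log ((R ^ 2 : ℕ) : ℝ)) ≤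
      (2 * (B * Real.log L) + 1) * (1 + 2 * (B * Real.log L)) :=
    mul_le_mul (by linarith) (by linarith) (by linarith) (by linarith)
  have h7 : (0 : ℝ) ≤ H := Nat.cast_nonneg H
  calc 5 * (H : ℝ) * ∑ c ∈ Icc 1 R, 1 / (c.totient : ℝ)
      ≤ 5 * H * ((2 * (B * Real.log L) + 1) * (1 + 2 * (B * Real.log L))) :=
        mul_le_mul_of_nonneg_left (h2.trans h6) (by positivity)
    _ = H * (5 * ((2 * (B * Real.log L) + 1) * (1 + 2 * (B * Real.log L)))) := by ring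
    _ ≤ H * L ^ 2 := mul_le_mul_of_nonneg_left hmain h7

end Pool.Agent.H43.TP

end

section

/-!
# TP M3: the main term `∑ Λ_R(u) Λ_R(2n-u)`

`lamR R k = ∑_{r ≤ R} μ(r)/φ(r) ∑_{b} e(k b/r)` (`ramS_eq`): the sum is
`∑_{(r,b),(r',b')} μ(r) μ(r')/(φ(r) φ(r')) e(2n b'/r') ∑_{u ∈ blk} e(u (b/r - b'/r'))`; the diagonal `(r,b) = (r',b')` gives
`H SR R (2n)`; off the diagonal `‖b/r - b'/r'‖ ≥ 1/(r r') ≥ 1/R^2` (Farey), so the inner sum is `≤ 1/(2 ‖.‖) ≤ R^2`, and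
`∑_{(r,b)} 1/φ(r) = R`: in total `≤ R^4`.
-/

set_option autoImplicit false

namespace Pool.Agent.H43.TP

open Finset
open Pool.Agent.H91.PK (ee)
open Pool.Agent.H91.EHA (Lam lamR ramS)
open Pool.Agent.H43.MP (blk Hn idx Rn)
open Pool.Agent.H76.GB (SR)

private theorem M3_ee (t : ℝ) : ee t = Pool.Agent.H92.EH.e t := by
  unfold ee Pool.Agent.H92.EH.e
  congr 1
  push_cast
  ring

private theorem M3_red (c : ℕ) (hc : 1 ≤ c) (f : ℕ → ℂ) (hf : f c = f 0) :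
    ∑ b ∈ (Icc 1 c).filter (fun b => Nat.Coprime b c), f b
      = ∑ b ∈ Pool.Agent.H92.EH.red c, f b := by
  rcases Nat.eq_or_lt_of_le hc with h1 | h1
  · subst h1
    have e1 : (Icc 1 1).filter (fun b => Nat.Coprime b 1) = {1} := by decide
    have e2 : Pool.Agent.H92.EH.red 1 = {0} := by decide
    rw [e1, e2, sum_singleton, sum_singleton, hf]
  · apply sum_congr _ (fun _ _ => rfl)
    ext b
    rw [mem_filter, mem_Icc, Pool.Agent.H92.EH.mem_red]
    constructor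
    · rintro ⟨⟨h2, h3⟩, h4⟩
      refine ⟨lt_of_le_of_ne h3 ?_, h4⟩
      rintro rfl
      rw [Nat.coprime_self] at h4
      omega
    · rintro ⟨h2, h4⟩
      refine ⟨⟨Nat.one_le_iff_ne_zero.mpr ?_, h2.le⟩, h4⟩
      rintro rfl
      rw [Nat.coprime_zero_left] at h4
      omega

private theorem M3_ram (c n : ℕ) (hc : 1 ≤ c) :
    ((ramS c n : ℝ) : ℂ) = ∑ b ∈ Pool.Agent.H92.EH.red c,
      Pool.Agent.H92.EH.e (n * ((b : ℝ) / c)) := by
  have hc0 : (c : ℝ) ≠ 0 := by exact_mod_cast (by omega : c ≠ 0)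
  rw [Pool.Agent.H91.EHA.ramS_eq c n hc, M3_red c hc (fun b => ee ((n : ℝ) * b / c))]
  · apply sum_congr rfl
    intro b _
    rw [M3_ee]
    congr 1
    ring
  · rw [M3_ee, M3_ee]
    have h1 : (n : ℝ) * (c : ℝ) / c = (n : ℝ) := by field_simp
    have h2 : (n : ℝ) * ((0 : ℕ) : ℝ) / c = ((0 : ℕ) : ℝ) := by simp
    rw [h1, h2, Pool.Agent.H92.EH.e_nat, Pool.Agent.H92.EH.e_nat]

/-- the coefficient -/
private noncomputable def M3_m (d : ℕ) : ℝ := (ArithmeticFunction.moebius d : ℝ) / (d.totient : ℝ)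

/-- the index set -/
private def M3_T (R : ℕ) : Finset (Σ _ : ℕ, ℕ) := (Icc 1 R).sigma fun d => Pool.Agent.H92.EH.red d

private theorem M3_memT {R : ℕ} {x : Σ _ : ℕ, ℕ} (hx : x ∈ M3_T R) :
    (1 ≤ x.1 ∧ x.1 ≤ R) ∧ x.2 ∈ Pool.Agent.H92.EH.red x.1 := by
  unfold M3_T at hx
  rw [mem_sigma, mem_Icc] at hx
  exact hx

private theorem M3_lamR (R n : ℕ) :
    ((lamR R n : ℝ) : ℂ) = ∑ x ∈ M3_T R,
      ((M3_m x.1 : ℝ) : ℂ) * Pool.Agent.H92.EH.e (n * ((x.2 : ℝ) / x.1)) := by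
  unfold M3_T
  rw [sum_sigma]
  unfold lamR
  rw [Complex.ofReal_sum]
  apply sum_congr rfl
  intro d hd
  rw [mem_Icc] at hd
  rw [Complex.ofReal_mul, M3_ram d n hd.1, mul_sum]
  rfl

private theorem M3_SR (R n : ℕ) :
    ((SR R n : ℝ) : ℂ) = ∑ x ∈ M3_T R,
      ((M3_m x.1 : ℝ) : ℂ) * ((M3_m x.1 : ℝ) : ℂ) *
        Pool.Agent.H92.EH.e (n * ((x.2 : ℝ) / x.1)) := by
  unfold M3_T
  rw [sum_sigma]
  unfold SR
  rw [Complex.ofReal_sum]
  apply sum_congr rfl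
  intro d hd
  rw [mem_Icc] at hd
  have h1 : (ArithmeticFunction.moebius d : ℝ) ^ 2 * ramS d n / (d.totient : ℝ) ^ 2 =
      (M3_m d * M3_m d) * ramS d n := by
    unfold M3_m
    ring
  rw [h1, Complex.ofReal_mul, M3_ram d n hd.1, mul_sum, Complex.ofReal_mul]

private theorem M3_summ (R : ℕ) : ∑ x ∈ M3_T R, |M3_m x.1| ≤ R := by
  unfold M3_T
  rw [sum_sigma]
  calc ∑ d ∈ Icc 1 R, ∑ _b ∈ Pool.Agent.H92.EH.red d, |M3_m d| ≤ ∑ _d ∈ Icc 1 R, (1 : ℝ) := by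
        apply sum_le_sum
        intro d hd
        rw [mem_Icc] at hd
        have htot : (0 : ℝ) < (d.totient : ℝ) := by exact_mod_cast Nat.totient_pos.mpr hd.1
        rw [sum_const, Pool.Agent.H92.EH.card_red, nsmul_eq_mul]
        unfold M3_m
        rw [abs_div, abs_of_pos htot, mul_div_cancel₀ _ htot.ne']
        exact_mod_cast ArithmeticFunction.abs_moebius_le_one
    _ = R := by
        rw [sum_const, Nat.card_Icc, Nat.add_sub_cancel, nsmul_eq_mul, mul_one]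

private theorem M3_geom (H i : ℕ) (t δ : ℝ) (hδ : 0 < δ) (h : ∀ m : ℤ, δ ≤ |t - m|) :
    ‖∑ n ∈ blk H i, Pool.Agent.H92.EH.e (n * t)‖ ≤ 1 / (2 * δ) := by
  have h3 := Pool.Agent.H92.EH.le_norm_e_sub_one h
  have h1 : ∑ n ∈ blk H i, Pool.Agent.H92.EH.e (n * t)
      = Pool.Agent.H92.EH.e ((i * H : ℕ) * t) *
        ∑ n ∈ range ((i + 1) * H - i * H), Pool.Agent.H92.EH.e t ^ n := by
    unfold blk
    rw [sum_Ico_eq_sum_range, mul_sum]
    apply sum_congr rfl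
    intro n _
    rw [← Pool.Agent.H92.EH.e_nat_mul, ← Pool.Agent.H92.EH.e_add]
    congr 1
    push_cast
    ring
  have h2 : (∑ n ∈ range ((i + 1) * H - i * H), Pool.Agent.H92.EH.e t ^ n) *
      (Pool.Agent.H92.EH.e t - 1) = Pool.Agent.H92.EH.e t ^ ((i + 1) * H - i * H) - 1 :=
    geom_sum_mul _ _
  have h4 : ‖(∑ n ∈ range ((i + 1) * H - i * H), Pool.Agent.H92.EH.e t ^ n)‖ *
      ‖Pool.Agent.H92.EH.e t - 1‖ ≤ 2 := by
    rw [← norm_mul, h2]
    refine (norm_sub_le _ _).trans ?_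
    rw [norm_pow, Pool.Agent.H92.EH.norm_e, one_pow, norm_one]
    norm_num
  rw [h1, norm_mul, Pool.Agent.H92.EH.norm_e, one_mul, le_div_iff₀ (by positivity)]
  have h5 : ‖(∑ n ∈ range ((i + 1) * H - i * H), Pool.Agent.H92.EH.e t ^ n)‖ * (4 * δ) ≤ 2 :=
    (mul_le_mul_of_nonneg_left h3 (norm_nonneg _)).trans h4
  linarith

theorem m3 (R H i n : ℕ) (hi1 : 1 ≤ i) (hn : n ∈ blk H i) :
    |rf H i (lamR R) (lamR R) n - H * SR R (2 * n)| ≤ (R : ℝ) ^ 4 := by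
  classical
  have hmem : ∀ u ∈ blk H i, u ≤ 2 * n := by
    intro u hu
    unfold blk at hu hn
    rw [mem_Ico] at hu hn
    have h1 : (i + 1) * H ≤ 2 * (i * H) := by nlinarith
    omega
  have hcard : (blk H i).card = H := by
    unfold blk
    rw [Nat.card_Ico]
    have : (i + 1) * H = i * H + H := by ring
    omega
  -- expansion
  have hexp : ((rf H i (lamR R) (lamR R) n : ℝ) : ℂ) = ∑ x ∈ M3_T R, ∑ y ∈ M3_T R,
      ((M3_m x.1 : ℝ) : ℂ) * ((M3_m y.1 : ℝ) : ℂ) *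
        Pool.Agent.H92.EH.e ((2 * n : ℕ) * ((y.2 : ℝ) / y.1)) *
        ∑ u ∈ blk H i, Pool.Agent.H92.EH.e (u * ((x.2 : ℝ) / x.1 - (y.2 : ℝ) / y.1)) := by
    unfold rf
    rw [Complex.ofReal_sum]
    calc ∑ u ∈ blk H i, ((lamR R u * lamR R (2 * n - u) : ℝ) : ℂ)
        = ∑ u ∈ blk H i, ∑ x ∈ M3_T R, ∑ y ∈ M3_T R, ((M3_m x.1 : ℝ) : ℂ) *
            ((M3_m y.1 : ℝ) : ℂ) * Pool.Agent.H92.EH.e ((2 * n : ℕ) * ((y.2 : ℝ) / y.1)) *
            Pool.Agent.H92.EH.e (u * ((x.2 : ℝ) / x.1 - (y.2 : ℝ) / y.1)) := by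
          apply sum_congr rfl
          intro u hu
          rw [Complex.ofReal_mul, M3_lamR, M3_lamR, sum_mul]
          apply sum_congr rfl
          intro x _
          rw [mul_sum]
          apply sum_congr rfl
          intro y _
          have h1 : ((2 * n - u : ℕ) : ℝ) = ((2 * n : ℕ) : ℝ) - u := Nat.cast_sub (hmem u hu)
          have h2 : Pool.Agent.H92.EH.e (u * ((x.2 : ℝ) / x.1)) *
              Pool.Agent.H92.EH.e ((2 * n - u : ℕ) * ((y.2 : ℝ) / y.1)) =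
              Pool.Agent.H92.EH.e ((2 * n : ℕ) * ((y.2 : ℝ) / y.1)) *
              Pool.Agent.H92.EH.e (u * ((x.2 : ℝ) / x.1 - (y.2 : ℝ) / y.1)) := by
            rw [← Pool.Agent.H92.EH.e_add, ← Pool.Agent.H92.EH.e_add, h1]
            congr 1
            ring
          calc ((M3_m x.1 : ℝ) : ℂ) * Pool.Agent.H92.EH.e (u * ((x.2 : ℝ) / x.1)) *
              (((M3_m y.1 : ℝ) : ℂ) * Pool.Agent.H92.EH.e ((2 * n - u : ℕ) * ((y.2 : ℝ) / y.1)))
              = ((M3_m x.1 : ℝ) : ℂ) * ((M3_m y.1 : ℝ) : ℂ) *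
                (Pool.Agent.H92.EH.e (u * ((x.2 : ℝ) / x.1)) *
                  Pool.Agent.H92.EH.e ((2 * n - u : ℕ) * ((y.2 : ℝ) / y.1))) := by ring
            _ = _ := by
              rw [h2]
              ring
      _ = ∑ x ∈ M3_T R, ∑ y ∈ M3_T R, ∑ u ∈ blk H i, ((M3_m x.1 : ℝ) : ℂ) *
            ((M3_m y.1 : ℝ) : ℂ) * Pool.Agent.H92.EH.e ((2 * n : ℕ) * ((y.2 : ℝ) / y.1)) *
            Pool.Agent.H92.EH.e (u * ((x.2 : ℝ) / x.1 - (y.2 : ℝ) / y.1)) := by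
          rw [sum_comm]
          apply sum_congr rfl
          intro x _
          rw [sum_comm]
      _ = _ := by
          apply sum_congr rfl
          intro x _
          apply sum_congr rfl
          intro y _
          rw [mul_sum]
  have hmain : (((H : ℝ) * SR R (2 * n) : ℝ) : ℂ) = ∑ x ∈ M3_T R, ∑ y ∈ M3_T R,
      (if x = y then ((M3_m x.1 : ℝ) : ℂ) * ((M3_m y.1 : ℝ) : ℂ) *
        Pool.Agent.H92.EH.e ((2 * n : ℕ) * ((y.2 : ℝ) / y.1)) *
        ∑ u ∈ blk H i, Pool.Agent.H92.EH.e (u * ((x.2 : ℝ) / x.1 - (y.2 : ℝ) / y.1)) else 0) := by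
    rw [Complex.ofReal_mul, M3_SR, mul_sum]
    apply sum_congr rfl
    intro x hx
    rw [sum_ite_eq, if_pos hx]
    have h1 : ∑ u ∈ blk H i, Pool.Agent.H92.EH.e (u * ((x.2 : ℝ) / x.1 - (x.2 : ℝ) / x.1)) =
        (H : ℂ) := by
      rw [sub_self]
      simp only [mul_zero, Pool.Agent.H92.EH.e_zero, sum_const, hcard, nsmul_eq_mul, mul_one]
    rw [h1, Complex.ofReal_natCast]
    ring
  have hnorm : |rf H i (lamR R) (lamR R) n - H * SR R (2 * n)| =
      ‖((rf H i (lamR R) (lamR R) n : ℝ) : ℂ) - (((H : ℝ) * SR R (2 * n) : ℝ) : ℂ)‖ := by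
    rw [← Complex.ofReal_sub, Complex.norm_real, Real.norm_eq_abs]
  rw [hnorm, hexp, hmain, ← sum_sub_distrib]
  have hpt : ∀ x ∈ M3_T R, ∀ y ∈ M3_T R,
      ‖((M3_m x.1 : ℝ) : ℂ) * ((M3_m y.1 : ℝ) : ℂ) *
        Pool.Agent.H92.EH.e ((2 * n : ℕ) * ((y.2 : ℝ) / y.1)) *
        ∑ u ∈ blk H i, Pool.Agent.H92.EH.e (u * ((x.2 : ℝ) / x.1 - (y.2 : ℝ) / y.1)) -
        (if x = y then ((M3_m x.1 : ℝ) : ℂ) * ((M3_m y.1 : ℝ) : ℂ) *
        Pool.Agent.H92.EH.e ((2 * n : ℕ) * ((y.2 : ℝ) / y.1)) *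
        ∑ u ∈ blk H i, Pool.Agent.H92.EH.e (u * ((x.2 : ℝ) / x.1 - (y.2 : ℝ) / y.1)) else 0)‖ ≤
      |M3_m x.1| * |M3_m y.1| * (R : ℝ) ^ 2 := by
    intro x hx y hy
    by_cases hxy : x = y
    · rw [if_pos hxy, sub_self, norm_zero]
      positivity
    · rw [if_neg hxy, sub_zero, norm_mul, norm_mul, norm_mul, Complex.norm_real,
        Complex.norm_real, Real.norm_eq_abs, Real.norm_eq_abs, Pool.Agent.H92.EH.norm_e, mul_one]
      refine mul_le_mul_of_nonneg_left ?_ (by positivity)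
      obtain ⟨⟨hx1, hx2⟩, hx3⟩ := M3_memT hx
      obtain ⟨⟨hy1, hy2⟩, hy3⟩ := M3_memT hy
      have hne : ¬ (x.1 = y.1 ∧ x.2 = y.2) := by
        rintro ⟨h1, h2⟩
        exact hxy (Sigma.ext h1 (heq_of_eq h2))
      have hdpos : (0 : ℝ) < x.1 := by exact_mod_cast hx1
      have hcpos : (0 : ℝ) < y.1 := by exact_mod_cast hy1
      have hdR : (x.1 : ℝ) ≤ R := by exact_mod_cast hx2
      have hcR : (y.1 : ℝ) ≤ R := by exact_mod_cast hy2
      have hg := M3_geom H i ((x.2 : ℝ) / x.1 - (y.2 : ℝ) / y.1) (1 / ((x.1 : ℝ) * y.1))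
        (by positivity) (Pool.Agent.H92.EH.farey_spacing hx1 hy1 hx3 hy3 hne)
      refine hg.trans ?_
      have h2 : 1 / (2 * (1 / ((x.1 : ℝ) * y.1))) = (x.1 : ℝ) * y.1 / 2 := by
        field_simp
      rw [h2]
      nlinarith
  have h1 : ‖∑ x ∈ M3_T R, (∑ y ∈ M3_T R, ((M3_m x.1 : ℝ) : ℂ) * ((M3_m y.1 : ℝ) : ℂ) *
        Pool.Agent.H92.EH.e ((2 * n : ℕ) * ((y.2 : ℝ) / y.1)) *
        ∑ u ∈ blk H i, Pool.Agent.H92.EH.e (u * ((x.2 : ℝ) / x.1 - (y.2 : ℝ) / y.1)) -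
        ∑ y ∈ M3_T R, (if x = y then ((M3_m x.1 : ℝ) : ℂ) * ((M3_m y.1 : ℝ) : ℂ) *
        Pool.Agent.H92.EH.e ((2 * n : ℕ) * ((y.2 : ℝ) / y.1)) *
        ∑ u ∈ blk H i, Pool.Agent.H92.EH.e (u * ((x.2 : ℝ) / x.1 - (y.2 : ℝ) / y.1)) else 0))‖ ≤
      ∑ x ∈ M3_T R, ∑ y ∈ M3_T R, |M3_m x.1| * |M3_m y.1| * (R : ℝ) ^ 2 := by
    refine norm_sum_le_of_le _ fun x hx => ?_
    rw [← sum_sub_distrib]
    exact norm_sum_le_of_le _ fun y hy => hpt x hx y hy
  refine h1.trans ?_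
  have h2 : ∑ x ∈ M3_T R, ∑ y ∈ M3_T R, |M3_m x.1| * |M3_m y.1| * (R : ℝ) ^ 2 =
      (∑ x ∈ M3_T R, |M3_m x.1|) * (∑ y ∈ M3_T R, |M3_m y.1|) * (R : ℝ) ^ 2 := by
    rw [sum_mul_sum, sum_mul]
    apply sum_congr rfl
    intro x _
    rw [sum_mul]
  rw [h2]
  have h3 := M3_summ R
  have h4 : 0 ≤ ∑ x ∈ M3_T R, |M3_m x.1| := sum_nonneg fun x _ => abs_nonneg _
  have h5 : (∑ x ∈ M3_T R, |M3_m x.1|) * (∑ y ∈ M3_T R, |M3_m y.1|) ≤ (R : ℝ) * R :=
    mul_le_mul h3 h3 h4 (Nat.cast_nonneg R)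
  calc (∑ x ∈ M3_T R, |M3_m x.1|) * (∑ y ∈ M3_T R, |M3_m y.1|) * (R : ℝ) ^ 2
      ≤ ((R : ℝ) * R) * (R : ℝ) ^ 2 := mul_le_mul_of_nonneg_right h5 (by positivity)
    _ = (R : ℝ) ^ 4 := by ring

end Pool.Agent.H43.TP

end

section

/-!
# EQ Sparse: changing a function on the multiples of large squares

`s(x, H) = #{n ∈ (x, x+H] : p² ∣ n for a prime p > z}`.  `|∑ Y - ∑ Y'| ≤ 20 s(x, H)`, `|gam Y - gam Y'| ≤ 20 s(x, H1)/H1`.
`∑_{x ≤ 8N} s(x, H) ≤ H #{n ≤ 16N : ..} ≤ H · 16 N ∑_{p > z} 1/p² ≤ 32 H N/z`, `s ≤ H`, so `∑ s(x,H)² ≤ 32 H² N/z`; `s(x, H1) ≤ ∑_{z < p ≤ 4√N} (H1/p² + 1) ≤ 2 H1/z + 4 √N`.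
-/

set_option autoImplicit false

namespace Pool.Agent.H31.EQ

open Finset

/-- the multiples of squares of primes `> z` -/
def sqz (z n : ℕ) : Prop := ∃ p : ℕ, p.Prime ∧ z < p ∧ p ^ 2 ∣ n

open Classical in
/-- the number of the multiples of large squares in a window -/
private noncomputable def Sparse_s (z x h : ℕ) : ℕ := ((Ioc x (x + h)).filter (fun n => sqz z n)).card

private theorem Sparse_mult (m x h : ℕ) (hm : 0 < m) :
    (((Ioc x (x + h)).filter (fun n => m ∣ n)).card : ℝ) ≤ (h : ℝ) / m + 1 := by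
  have h1 : (Ioc x (x + h)).filter (fun n => m ∣ n) ⊆ (Ioc (x / m) ((x + h) / m)).image (fun t => m * t) := by
    intro n hn
    rw [mem_filter, mem_Ioc] at hn
    obtain ⟨⟨h2, h3⟩, t, rfl⟩ := hn
    rw [mem_image]
    refine ⟨t, ?_, rfl⟩
    rw [mem_Ioc]
    constructor
    · rw [Nat.div_lt_iff_lt_mul hm]
      linarith only [h2, mul_comm m t]
    · rw [Nat.le_div_iff_mul_le hm]
      linarith only [h3, mul_comm m t]
  have h2 : ((Ioc x (x + h)).filter (fun n => m ∣ n)).card ≤ (x + h) / m - x / m := by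
    refine (card_le_card h1).trans (card_image_le.trans ?_)
    rw [Nat.card_Ioc]
  have h3 : (x + h) / m < x / m + h / m + 2 := by
    rw [Nat.div_lt_iff_lt_mul hm]
    have a1 := Nat.lt_mul_div_succ x hm
    have a2 := Nat.lt_mul_div_succ h hm
    calc x + h < m * (x / m + 1) + m * (h / m + 1) := by
          have b1 : x < m * (x / m + 1) := a1
          have b2 : h < m * (h / m + 1) := a2
          omega
      _ = (x / m + h / m + 2) * m := by ring
  have h4 : ((Ioc x (x + h)).filter (fun n => m ∣ n)).card ≤ h / m + 1 := by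
    generalize (x + h) / m = u1 at h2 h3
    generalize x / m = u2 at h2 h3
    generalize h / m = u3 at h2 h3 ⊢
    omega
  have h5 : (((Ioc x (x + h)).filter (fun n => m ∣ n)).card : ℝ) ≤ ((h / m + 1 : ℕ) : ℝ) := by exact_mod_cast h4
  refine h5.trans ?_
  push_cast
  have := @Nat.cast_div_le ℝ _ _ _ h m
  linarith only [this]

private theorem Sparse_inv (z M : ℕ) (hz : 0 < z) : ∑ q ∈ Ioc z M, 1 / (q : ℝ) ^ 2 ≤ 1 / (z : ℝ) := by
  rcases le_or_gt z M with h | h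
  · have h1 := sum_Ioc_inv_sq_le_sub (α := ℝ) hz.ne' h
    have h2 : (0 : ℝ) ≤ (M : ℝ)⁻¹ := by positivity
    simp only [one_div]
    linarith only [h1, h2]
  · rw [Ioc_eq_empty (by omega), sum_empty]
    positivity

/-- the windows -/
private theorem Sparse_win (z x h Q : ℕ) (hz : 0 < z) (hQ : x + h < (Q + 1) ^ 2) :
    (Sparse_s z x h : ℝ) ≤ (h : ℝ) / z + Q := by
  classical
  have h1 : (Ioc x (x + h)).filter (fun n => sqz z n) ⊆
      (Ioc z Q).biUnion (fun q => (Ioc x (x + h)).filter (fun n => q ^ 2 ∣ n)) := by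
    intro n hn
    simp only [mem_filter, mem_Ioc] at hn
    obtain ⟨⟨h2, h3⟩, p, hp, hzp, hpn⟩ := hn
    simp only [mem_biUnion, mem_filter, mem_Ioc]
    refine ⟨p, ⟨hzp, ?_⟩, ⟨h2, h3⟩, hpn⟩
    have h4 : p ^ 2 ≤ n := Nat.le_of_dvd (by omega) hpn
    have h5 : p ^ 2 < (Q + 1) ^ 2 := by omega
    have h6 := lt_of_pow_lt_pow_left₀ 2 (by omega) h5
    omega
  have h2 : (Sparse_s z x h : ℝ) ≤ ∑ q ∈ Ioc z Q, ((((Ioc x (x + h)).filter (fun n => q ^ 2 ∣ n)).card : ℕ) : ℝ) := by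
    unfold Sparse_s
    have h3 := (card_le_card h1).trans card_biUnion_le
    exact_mod_cast h3
  refine h2.trans ?_
  have h3 : ∀ q ∈ Ioc z Q, ((((Ioc x (x + h)).filter (fun n => q ^ 2 ∣ n)).card : ℕ) : ℝ) ≤ h * (1 / (q : ℝ) ^ 2) + 1 := by
    intro q hq
    rw [mem_Ioc] at hq
    have hq0 : 0 < q ^ 2 := pow_pos (by omega) 2
    refine (Sparse_mult (q ^ 2) x h hq0).trans (le_of_eq ?_)
    push_cast
    ring
  refine (sum_le_sum h3).trans ?_
  rw [sum_add_distrib, ← mul_sum, sum_const, Nat.card_Ioc, nsmul_eq_mul, mul_one]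
  have h4 := mul_le_mul_of_nonneg_left (Sparse_inv z Q hz) (Nat.cast_nonneg (α := ℝ) h)
  have h5 : ((Q - z : ℕ) : ℝ) ≤ Q := by exact_mod_cast Nat.sub_le _ _
  have h6 : (h : ℝ) * (1 / z) = h / z := by ring
  linarith only [h4, h5, h6]

/-- the total number -/
private theorem Sparse_tot (z M : ℕ) (hz : 0 < z) : (Sparse_s z 0 M : ℝ) ≤ (M : ℝ) / z := by
  classical
  have h1 : (Ioc 0 (0 + M)).filter (fun n => sqz z n) ⊆
      (Ioc z M).biUnion (fun q => (Ioc 0 M).filter (fun n => q ^ 2 ∣ n)) := by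
    intro n hn
    simp only [mem_filter, mem_Ioc] at hn
    obtain ⟨⟨h2, h3⟩, p, hp, hzp, hpn⟩ := hn
    simp only [mem_biUnion, mem_filter, mem_Ioc]
    refine ⟨p, ⟨hzp, ?_⟩, ⟨h2, by omega⟩, hpn⟩
    have h4 : p ^ 2 ≤ n := Nat.le_of_dvd (by omega) hpn
    nlinarith only [hz, h3, h4, hzp, hp.two_le]
  have h2 : (Sparse_s z 0 M : ℝ) ≤ ∑ q ∈ Ioc z M, ((((Ioc 0 M).filter (fun n => q ^ 2 ∣ n)).card : ℕ) : ℝ) := by
    unfold Sparse_s
    have h3 := (card_le_card h1).trans card_biUnion_le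
    exact_mod_cast h3
  refine h2.trans ?_
  have h3 : ∀ q ∈ Ioc z M, ((((Ioc 0 M).filter (fun n => q ^ 2 ∣ n)).card : ℕ) : ℝ) ≤ M * (1 / (q : ℝ) ^ 2) := by
    intro q _
    rw [Nat.Ioc_filter_dvd_card_eq_div]
    refine (@Nat.cast_div_le ℝ _ _ _ M (q ^ 2)).trans (le_of_eq ?_)
    push_cast
    ring
  refine (sum_le_sum h3).trans ?_
  rw [← mul_sum]
  have h4 := mul_le_mul_of_nonneg_left (Sparse_inv z M hz) (Nat.cast_nonneg (α := ℝ) M)
  have h6 : (M : ℝ) * (1 / z) = M / z := by ring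
  linarith only [h4, h6]

private theorem Sparse_sle (z x h : ℕ) : Sparse_s z x h ≤ h := by
  classical
  unfold Sparse_s
  refine (card_filter_le _ _).trans ?_
  rw [Nat.card_Ioc]
  omega

/-- the second moment of the number of multiples of large squares -/
private theorem Sparse_sum (z H M : ℕ) (S : Finset ℕ) (hz : 0 < z) (hS : ∀ x ∈ S, x + H ≤ M) :
    ∑ x ∈ S, (Sparse_s z x H : ℝ) ^ 2 ≤ (H : ℝ) ^ 2 * (M / z) := by
  classical
  have h1 : ∑ x ∈ S, Sparse_s z x H ≤ H * Sparse_s z 0 M := by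
    have e1 : ∀ x ∈ S, Sparse_s z x H = ∑ n ∈ (Ioc 0 M).filter (fun n => sqz z n), if x < n ∧ n ≤ x + H then 1 else 0 := by
      intro x hx
      unfold Sparse_s
      rw [← card_filter]
      congr 1
      ext n
      simp only [mem_filter, mem_Ioc]
      have := hS x hx
      constructor
      · rintro ⟨⟨h2, h3⟩, h4⟩
        exact ⟨⟨⟨by omega, by omega⟩, h4⟩, h2, h3⟩
      · rintro ⟨⟨_, h4⟩, h2, h3⟩
        exact ⟨⟨h2, h3⟩, h4⟩
    rw [sum_congr rfl e1, sum_comm]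
    have e2 : ∀ n ∈ (Ioc 0 M).filter (fun n => sqz z n), ∑ x ∈ S, (if x < n ∧ n ≤ x + H then 1 else 0) ≤ H := by
      intro n _
      rw [← card_filter]
      have e3 : S.filter (fun x => x < n ∧ n ≤ x + H) ⊆ Ico (n - H) n := by
        intro x hx
        rw [mem_filter] at hx
        rw [mem_Ico]
        omega
      refine (card_le_card e3).trans ?_
      rw [Nat.card_Ico]
      omega
    refine (sum_le_sum e2).trans (le_of_eq ?_)
    rw [sum_const, smul_eq_mul, mul_comm]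
    unfold Sparse_s
    rw [Nat.zero_add]
  have h2 : ∀ x ∈ S, (Sparse_s z x H : ℝ) ^ 2 ≤ H * Sparse_s z x H := by
    intro x _
    have : (Sparse_s z x H : ℝ) ≤ H := by exact_mod_cast Sparse_sle z x H
    rw [sq]
    exact mul_le_mul_of_nonneg_right this (Nat.cast_nonneg _)
  refine (sum_le_sum h2).trans ?_
  rw [← mul_sum]
  have h3 : (∑ x ∈ S, (Sparse_s z x H : ℝ)) ≤ H * Sparse_s z 0 M := by exact_mod_cast h1
  have h4 := Sparse_tot z M hz
  calc (H : ℝ) * ∑ x ∈ S, (Sparse_s z x H : ℝ) ≤ H * (H * Sparse_s z 0 M) :=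
        mul_le_mul_of_nonneg_left h3 (Nat.cast_nonneg _)
    _ = H ^ 2 * Sparse_s z 0 M := by ring
    _ ≤ (H : ℝ) ^ 2 * (M / z) := mul_le_mul_of_nonneg_left h4 (by positivity)

/-- the difference of the sums over a window -/
private theorem Sparse_dif (N z x h : ℕ) (Y Y' : ℕ → ℝ) (p : ℕ → Prop) [DecidablePred p] (hx : x + h ≤ 16 * N)
    (hY : ∀ n, 1 ≤ n → n ≤ 16 * N → |Y n| ≤ 10) (hY' : ∀ n, 1 ≤ n → n ≤ 16 * N → |Y' n| ≤ 10)
    (hE : ∀ n, 1 ≤ n → n ≤ 16 * N → ¬ sqz z n → Y n = Y' n) :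
    |∑ n ∈ (Ioc x (x + h)).filter p, Y n - ∑ n ∈ (Ioc x (x + h)).filter p, Y' n| ≤ 20 * Sparse_s z x h := by
  classical
  rw [← sum_sub_distrib]
  have h1 : |∑ n ∈ (Ioc x (x + h)).filter p, (Y n - Y' n)| ≤ ∑ n ∈ (Ioc x (x + h)).filter p, (if sqz z n then (20 : ℝ) else 0) := by
    refine (abs_sum_le_sum_abs _ _).trans (sum_le_sum fun n hn => ?_)
    rw [mem_filter, mem_Ioc] at hn
    have a1 := hY n (by omega) (by omega)
    have a2 := hY' n (by omega) (by omega)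
    have a3 := hE n (by omega) (by omega)
    split_ifs with hs
    · have := abs_sub (Y n) (Y' n)
      linarith only [a1, a2, this]
    · rw [a3 hs, sub_self, abs_zero]
  refine h1.trans ?_
  have h2 : ∑ n ∈ (Ioc x (x + h)).filter p, (if sqz z n then (20 : ℝ) else 0) ≤
      ∑ n ∈ Ioc x (x + h), (if sqz z n then (20 : ℝ) else 0) := by
    apply sum_le_sum_of_subset_of_nonneg (filter_subset _ _)
    intro n _ _
    split_ifs <;> norm_num
  refine h2.trans (le_of_eq ?_)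
  rw [← sum_filter, sum_const, nsmul_eq_mul, mul_comm]
  unfold Sparse_s
  rfl

private theorem Sparse_gam (N z x h : ℕ) (Y Y' : ℕ → ℝ) (hx : x + h ≤ 16 * N)
    (hY : ∀ n, 1 ≤ n → n ≤ 16 * N → |Y n| ≤ 10) (hY' : ∀ n, 1 ≤ n → n ≤ 16 * N → |Y' n| ≤ 10)
    (hE : ∀ n, 1 ≤ n → n ≤ 16 * N → ¬ sqz z n → Y n = Y' n) :
    |gam Y h x - gam Y' h x| ≤ 20 * Sparse_s z x h / h := by
  have h1 := Sparse_dif N z x h Y Y' (fun _ => True) hx hY hY' hE
  simp only [filter_true] at h1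
  unfold gam
  rw [← sub_div, abs_div, abs_of_nonneg (Nat.cast_nonneg (α := ℝ) h)]
  exact div_le_div_of_nonneg_right h1 (Nat.cast_nonneg _)

theorem wdx_sq (A B : ℕ) : ∃ N0 : ℕ, ∀ N : ℕ, N0 ≤ N → ∀ (H H1 z : ℕ) (Y Y' : ℕ → ℝ), (N : ℝ) ^ (1 / 5 : ℝ) ≤ z → (H : ℝ) ≤ (N : ℝ) ^ (1 / 2 : ℝ) →
    (N : ℝ) ^ (3 / 4 : ℝ) ≤ H1 → (H1 : ℝ) ≤ N → (∀ n, 1 ≤ n → n ≤ 16 * N → |Y n| ≤ 10) → (∀ n, 1 ≤ n → n ≤ 16 * N → |Y' n| ≤ 10) →
    (∀ n, 1 ≤ n → n ≤ 16 * N → ¬ sqz z n → Y n = Y' n) → WDx N H (A + 1) B Y (gam Y H1) → WDx N H A B Y' (gam Y' H1) := by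
  obtain ⟨N1, hN1⟩ := Pool.Agent.H80.LV.log_pow_le (1 / 5) 771200 (by norm_num) (by norm_num) A
  obtain ⟨N2, hN2⟩ := Pool.Agent.H80.LV.log_ge 4
  refine ⟨max (max N1 N2) 16, ?_⟩
  intro N hN H H1 z Y Y' hz hH hH1 hH1N hY hY' hE hWD d c hd hdB
  simp only [max_le_iff] at hN
  obtain ⟨⟨g1, g2⟩, g3⟩ := hN
  have hL1 := hN1 N g1
  have hL4 := hN2 N g2
  have hNr : (16 : ℝ) ≤ N := by exact_mod_cast g3
  have hN0 : (0 : ℝ) < N := by linarith only [hNr]
  have hN1r : (1 : ℝ) ≤ N := by linarith only [hNr]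
  set L := Real.log N with hL_def
  have hL0 : 0 < L := by linarith only [hL4]
  have hz1 : (1 : ℝ) ≤ z := (Real.one_le_rpow hN1r (by norm_num)).trans hz
  have hz0 : 0 < z := by
    have : (0 : ℝ) < z := by linarith only [hz1]
    exact_mod_cast this
  have hHN : H ≤ N := by
    have h1 : (N : ℝ) ^ (1 / 2 : ℝ) ≤ (N : ℝ) ^ (1 : ℝ) := Real.rpow_le_rpow_of_exponent_le hN1r (by norm_num)
    rw [Real.rpow_one] at h1
    exact_mod_cast hH.trans h1
  have hH1N' : H1 ≤ N := by exact_mod_cast hH1N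
  have hH10 : (0 : ℝ) < H1 := lt_of_lt_of_le (Real.rpow_pos_of_pos hN0 _) hH1
  -- the window count for the long windows
  have hQ : ∀ x, x ≤ 8 * N → (Sparse_s z x H1 : ℝ) / H1 ≤ 5 * (N : ℝ) ^ (-(1 / 5) : ℝ) := by
    intro x hx
    have h1 := Sparse_win z x H1 (4 * (Nat.sqrt N + 1)) hz0 (by
      have h2 := Nat.lt_succ_sqrt N
      have h3 : x + H1 < 16 * (Nat.sqrt N + 1) * (Nat.sqrt N + 1) := by
        have h4 : N < (Nat.sqrt N + 1) * (Nat.sqrt N + 1) := h2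
        nlinarith only [g3, hH1N', hx, h2]
      nlinarith only [g3, hH1N', hx, h2])
    have h2 : (Nat.sqrt N : ℝ) ≤ (N : ℝ) ^ (1 / 2 : ℝ) := by
      rw [← Real.sqrt_eq_rpow]
      exact Real.nat_sqrt_le_real_sqrt
    have h3 : (1 : ℝ) ≤ (N : ℝ) ^ (1 / 2 : ℝ) := Real.one_le_rpow hN1r (by norm_num)
    have h4 : (((4 * (Nat.sqrt N + 1) : ℕ)) : ℝ) ≤ 8 * (N : ℝ) ^ (1 / 2 : ℝ) := by
      push_cast
      linarith only [h2, h3]
    have h5 : (Sparse_s z x H1 : ℝ) / H1 ≤ 1 / z + 8 * (N : ℝ) ^ (1 / 2 : ℝ) / H1 := by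
      rw [div_le_iff₀ hH10]
      have h6 : (1 / (z : ℝ) + 8 * (N : ℝ) ^ (1 / 2 : ℝ) / H1) * H1 = H1 / z + 8 * (N : ℝ) ^ (1 / 2 : ℝ) := by
        field_simp
      rw [h6]
      linarith only [h1, h4]
    have h7 : 1 / (z : ℝ) ≤ (N : ℝ) ^ (-(1 / 5) : ℝ) := by
      rw [Real.rpow_neg hN0.le, ← one_div]
      exact one_div_le_one_div_of_le (Real.rpow_pos_of_pos hN0 _) hz
    have h8 : 8 * (N : ℝ) ^ (1 / 2 : ℝ) / H1 ≤ 4 * (N : ℝ) ^ (-(1 / 5) : ℝ) := by
      rw [div_le_iff₀ hH10]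
      have h9 : (N : ℝ) ^ (-(1 / 5) : ℝ) * (N : ℝ) ^ (3 / 4 : ℝ) = (N : ℝ) ^ (1 / 20 : ℝ) * (N : ℝ) ^ (1 / 2 : ℝ) := by
        rw [← Real.rpow_add hN0, ← Real.rpow_add hN0]
        norm_num
      have h10 : (2 : ℝ) ≤ (N : ℝ) ^ (1 / 20 : ℝ) := by
        have h11 : (1 : ℝ) ≤ L ^ A := one_le_pow₀ (by linarith only [hL4])
        have h12 : (771200 : ℝ) ≤ (N : ℝ) ^ (1 / 5 : ℝ) := by nlinarith only [hL1, h11]
        have h13 : ((N : ℝ) ^ (1 / 20 : ℝ)) ^ 4 = (N : ℝ) ^ (1 / 5 : ℝ) := by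
          rw [← Real.rpow_natCast, ← Real.rpow_mul hN0.le]
          norm_num
        by_contra hcon
        push Not at hcon
        have h14 : ((N : ℝ) ^ (1 / 20 : ℝ)) ^ 4 < 2 ^ 4 :=
          pow_lt_pow_left₀ hcon (Real.rpow_nonneg hN0.le _) (by norm_num)
        rw [h13] at h14
        linarith only [hL1, h11, h14]
      have h15 : 0 < (N : ℝ) ^ (-(1 / 5) : ℝ) := Real.rpow_pos_of_pos hN0 _
      have h16 : (N : ℝ) ^ (-(1 / 5) : ℝ) * (N : ℝ) ^ (3 / 4 : ℝ) ≤ (N : ℝ) ^ (-(1 / 5) : ℝ) * H1 :=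
        mul_le_mul_of_nonneg_left hH1 h15.le
      nlinarith only [h9, h16, h10, hH]
    linarith only [h5, h7, h8]
  -- pointwise
  have hpt : ∀ x ∈ Icc (N / 8) (8 * N), ((∑ n ∈ (Ioc x (x + H)).filter (fun n => n % d = c % d), Y' n)
      - (if Nat.Coprime c d then (H : ℝ) * gam Y' H1 x / d.totient else 0)) ^ 2 ≤
      2 * ((∑ n ∈ (Ioc x (x + H)).filter (fun n => n % d = c % d), Y n)
      - (if Nat.Coprime c d then (H : ℝ) * gam Y H1 x / d.totient else 0)) ^ 2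
      + 1600 * (Sparse_s z x H : ℝ) ^ 2 + 1600 * (H : ℝ) ^ 2 * (5 * (N : ℝ) ^ (-(1 / 5) : ℝ)) ^ 2 := by
    intro x hx
    rw [mem_Icc] at hx
    have a1 := Sparse_dif N z x H Y Y' (fun n => n % d = c % d) (by omega) hY hY' hE
    have a2 := Sparse_gam N z x H1 Y Y' (by omega) hY hY' hE
    have a3 := hQ x hx.2
    have hφ : (1 : ℝ) ≤ d.totient := by exact_mod_cast Nat.totient_pos.2 (by omega)
    have a4 : |(if Nat.Coprime c d then (H : ℝ) * gam Y H1 x / d.totient else 0) -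
        (if Nat.Coprime c d then (H : ℝ) * gam Y' H1 x / d.totient else 0)| ≤ 20 * (H : ℝ) * (5 * (N : ℝ) ^ (-(1 / 5) : ℝ)) := by
      split_ifs with hc
      · have e1 : (H : ℝ) * gam Y H1 x / d.totient - H * gam Y' H1 x / d.totient = H * (gam Y H1 x - gam Y' H1 x) / d.totient := by
          ring
        rw [e1, abs_div, abs_mul, abs_of_nonneg (Nat.cast_nonneg (α := ℝ) H), abs_of_nonneg (Nat.cast_nonneg (α := ℝ) d.totient)]
        have e2 : (H : ℝ) * |gam Y H1 x - gam Y' H1 x| / d.totient ≤ H * |gam Y H1 x - gam Y' H1 x| := by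
          apply div_le_self (by positivity) hφ
        refine e2.trans ?_
        have e3 : |gam Y H1 x - gam Y' H1 x| ≤ 20 * (5 * (N : ℝ) ^ (-(1 / 5) : ℝ)) := by
          refine a2.trans ?_
          rw [mul_div_assoc]
          exact mul_le_mul_of_nonneg_left a3 (by norm_num)
        have e4 := mul_le_mul_of_nonneg_left e3 (Nat.cast_nonneg (α := ℝ) H)
        linarith only [e4]
      · rw [sub_self, abs_zero]
        positivity
    set E := (∑ n ∈ (Ioc x (x + H)).filter (fun n => n % d = c % d), Y n)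
      - (if Nat.Coprime c d then (H : ℝ) * gam Y H1 x / d.totient else 0) with hEdef
    set u := ∑ n ∈ (Ioc x (x + H)).filter (fun n => n % d = c % d), Y n - ∑ n ∈ (Ioc x (x + H)).filter (fun n => n % d = c % d), Y' n with hu
    set v := (if Nat.Coprime c d then (H : ℝ) * gam Y H1 x / d.totient else 0) -
        (if Nat.Coprime c d then (H : ℝ) * gam Y' H1 x / d.totient else 0) with hv
    have e5 : (∑ n ∈ (Ioc x (x + H)).filter (fun n => n % d = c % d), Y' n)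
      - (if Nat.Coprime c d then (H : ℝ) * gam Y' H1 x / d.totient else 0) = E - u + v := by
      rw [hEdef, hu, hv]
      ring
    rw [e5]
    have e6 : u ^ 2 ≤ (20 * (Sparse_s z x H : ℝ)) ^ 2 := by
      rw [← sq_abs u]
      exact pow_le_pow_left₀ (abs_nonneg _) a1 2
    have e7 : v ^ 2 ≤ (20 * (H : ℝ) * (5 * (N : ℝ) ^ (-(1 / 5) : ℝ))) ^ 2 := by
      rw [← sq_abs v]
      exact pow_le_pow_left₀ (abs_nonneg _) a4 2
    have e8 : (E - u + v) ^ 2 ≤ 2 * E ^ 2 + 4 * u ^ 2 + 4 * v ^ 2 := by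
      nlinarith only [sq_nonneg (E + u - v), sq_nonneg (u + v)]
    calc (E - u + v) ^ 2 ≤ 2 * E ^ 2 + 4 * u ^ 2 + 4 * v ^ 2 := e8
      _ ≤ 2 * E ^ 2 + 4 * (20 * (Sparse_s z x H : ℝ)) ^ 2 + 4 * (20 * (H : ℝ) * (5 * (N : ℝ) ^ (-(1 / 5) : ℝ))) ^ 2 := by linarith only [e6, e7]
      _ = _ := by ring
  refine (sum_le_sum hpt).trans ?_
  rw [sum_add_distrib, sum_add_distrib, ← mul_sum, ← mul_sum, sum_const, nsmul_eq_mul]
  have b1 := hWD d c hd hdB
  have b2 := Sparse_sum z H (9 * N) (Icc (N / 8) (8 * N)) hz0 (fun x hx => by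
    rw [mem_Icc] at hx
    omega)
  have b3 : (((Icc (N / 8) (8 * N)).card : ℕ) : ℝ) ≤ 9 * N := by
    have : (Icc (N / 8) (8 * N)).card ≤ 9 * N := by
      rw [Nat.card_Icc]
      omega
    exact_mod_cast this
  have hNN : 0 < (N : ℝ) ^ (-(1 / 5) : ℝ) := Real.rpow_pos_of_pos hN0 _
  have hNN1 : (N : ℝ) ^ (-(1 / 5) : ℝ) ≤ 1 := Real.rpow_le_one_of_one_le_of_nonpos hN1r (by norm_num)
  have b4 : (H : ℝ) ^ 2 * (((9 * N : ℕ) : ℝ) / z) ≤ 9 * (N * (H : ℝ) ^ 2) * (N : ℝ) ^ (-(1 / 5) : ℝ) := by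
    have h7 : 1 / (z : ℝ) ≤ (N : ℝ) ^ (-(1 / 5) : ℝ) := by
      rw [Real.rpow_neg hN0.le, ← one_div]
      exact one_div_le_one_div_of_le (Real.rpow_pos_of_pos hN0 _) hz
    have h8 : (H : ℝ) ^ 2 * (((9 * N : ℕ) : ℝ) / z) = 9 * (N * (H : ℝ) ^ 2) * (1 / z) := by
      push_cast
      ring
    rw [h8]
    exact mul_le_mul_of_nonneg_left h7 (by positivity)
  have b5 : (((Icc (N / 8) (8 * N)).card : ℕ) : ℝ) * (1600 * (H : ℝ) ^ 2 * (5 * (N : ℝ) ^ (-(1 / 5) : ℝ)) ^ 2) ≤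
      360000 * (N * (H : ℝ) ^ 2) * (N : ℝ) ^ (-(1 / 5) : ℝ) := by
    have h1 : (((Icc (N / 8) (8 * N)).card : ℕ) : ℝ) * (1600 * (H : ℝ) ^ 2 * (5 * (N : ℝ) ^ (-(1 / 5) : ℝ)) ^ 2) ≤
        9 * N * (1600 * (H : ℝ) ^ 2 * (5 * (N : ℝ) ^ (-(1 / 5) : ℝ)) ^ 2) :=
      mul_le_mul_of_nonneg_right b3 (by positivity)
    refine h1.trans ?_
    have h2 : 9 * (N : ℝ) * (1600 * (H : ℝ) ^ 2 * (5 * (N : ℝ) ^ (-(1 / 5) : ℝ)) ^ 2) =
        360000 * (N * (H : ℝ) ^ 2) * (N : ℝ) ^ (-(1 / 5) : ℝ) * (N : ℝ) ^ (-(1 / 5) : ℝ) := by ring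
    rw [h2]
    exact mul_le_of_le_one_right (by positivity) hNN1
  have b6 : 1600 * ∑ x ∈ Icc (N / 8) (8 * N), (Sparse_s z x H : ℝ) ^ 2 ≤ 14400 * (N * (H : ℝ) ^ 2) * (N : ℝ) ^ (-(1 / 5) : ℝ) := by
    have := b2.trans b4
    linarith only [b2, b4]
  have b7 : (N : ℝ) ^ (-(1 / 5) : ℝ) ≤ 1 / (771200 * L ^ A) := by
    rw [Real.rpow_neg hN0.le, ← one_div]
    exact one_div_le_one_div_of_le (by positivity) hL1
  have b8 : 385600 * (N * (H : ℝ) ^ 2) * (N : ℝ) ^ (-(1 / 5) : ℝ) ≤ N * (H : ℝ) ^ 2 / (2 * L ^ A) := by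
    refine (mul_le_mul_of_nonneg_left b7 (by positivity)).trans (le_of_eq ?_)
    field_simp
    ring
  have b9 : 2 * (N * (H : ℝ) ^ 2 / L ^ (A + 1)) ≤ N * (H : ℝ) ^ 2 / (2 * L ^ A) := by
    rw [pow_succ L A, mul_div_assoc', div_le_div_iff₀ (by positivity) (by positivity)]
    have h1 : 0 ≤ N * (H : ℝ) ^ 2 * L ^ A := by positivity
    have h2 := mul_le_mul_of_nonneg_left hL4 h1
    calc 2 * (N * (H : ℝ) ^ 2) * (2 * L ^ A) = N * (H : ℝ) ^ 2 * L ^ A * 4 := by ring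
      _ ≤ N * (H : ℝ) ^ 2 * L ^ A * L := h2
      _ = N * (H : ℝ) ^ 2 * (L ^ A * L) := by ring
  have b10 : N * (H : ℝ) ^ 2 / L ^ A = N * (H : ℝ) ^ 2 / (2 * L ^ A) + N * (H : ℝ) ^ 2 / (2 * L ^ A) := by
    field_simp
    norm_num
  have b11 : 0 ≤ (N * (H : ℝ) ^ 2) * (N : ℝ) ^ (-(1 / 5) : ℝ) := by positivity
  rw [b10]
  linarith only [b1, b2, b4, b5, b8, b9, b11]

end Pool.Agent.H31.EQ

end
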