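import Pool.Agent.H43.PJ.M01
import Pool.Agent.H43.PJ.M02

/-! The parts of this file: H74.MDX.CombA, H74.MDX.Num, H74.MDX.Rich, H74.MDX.Sep, H74.MDX.Sets, H74.MDX.Clean, H53.MDB.Defs, H53.MDB.PairF, H53.MDB.Osc, H53.MDB.Far, H53.MDB.Split, H53.MDB.Pairs, H53.MDB.Young, H53.MDB.Fej, H53.MDB.Cover. -/

section

/-!
# MDX CombA: asymptotics and the number of levels

`comb_asym`: take logarithms.  `L = log N`, `ℓ ≤ L^(1-t) + 2 ≤ 3 L^(1-t)`; `log(left) = Dℓ (log D + log ℓ + C0 log L) + Dℓ^2 log 2`;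
`log ℓ ≤ log 3 + log L`; so `log(left) ≤ 3 D L^(1-t) (C' + (C0+1) log L) + 9 D L^(2(1-t)) = o(L^t2)` because `1 - t < t2` and `2 (1-t) < t2` (both from `2 (1-t) < t2`, `t < 1`).
(`isLittleO_log_rpow_atTop`, `tendsto_rpow_atTop`, ...)
`comb_lvl`: `ℓ - 1` = the least natural number `k` with `n ≤ P^k`.  Such `k ≤ L^(1-t) + 1`, because for `k ≥ L^(1-t)`: `P^k ≥ exp(k L^t) ≥ exp(L) = N ≥ n`
(`Nat.find` and `Nat.ceil`).  If `k = 0` then `n = 1`: `n P = P = P^1 ≤ n P^2`; if `k ≥ 1` then `P^(k-1) < n ≤ P^k`: `n P ≤ P^(k+1) ≤ n P^2` (see `Comb_exists_level` in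
`Pool/Agent/H53/MID/Comb.lean`).
-/

set_option autoImplicit false

namespace Pool.Agent.H74.MDX

theorem comb_asym (t t2 : ℝ) (ht1 : t < 1) (ht2 : 2 * (1 - t) < t2) (D C0 : ℕ) : ∃ N0 : ℕ, ∀ N : ℕ, N0 ≤ N →
    ∀ ℓ : ℕ, 1 ≤ ℓ → (ℓ : ℝ) ≤ Real.log N ^ (1 - t) + 2 →
      ((D : ℝ) * ℓ * Real.log N ^ C0) ^ (D * ℓ) * 2 ^ (D * ℓ ^ 2) ≤ Real.exp (Real.log N ^ t2) := by
  have ht : 0 < 1 - t := by linarith
  have ht3 : 0 < t2 - 2 * (1 - t) := by linarith
  set A : ℝ := D + 2 + (1 - t) + C0 with hA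
  set K : ℝ := 3 * D * A + 9 * D with hK
  have e1 : ∀ᶠ L : ℝ in Filter.atTop, 1 ≤ L := Filter.eventually_ge_atTop 1
  have e2 : ∀ᶠ L : ℝ in Filter.atTop, Real.log L ≤ L ^ (1 - t) := by
    have h1 := (isLittleO_log_rpow_atTop ht).bound (show (0 : ℝ) < 1 by norm_num)
    filter_upwards [h1, e1] with L hL hL1
    rw [one_mul, Real.norm_eq_abs, Real.norm_eq_abs, abs_of_nonneg (Real.log_nonneg hL1),
      abs_of_nonneg (Real.rpow_nonneg (by linarith) _)] at hL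
    exact hL
  have e3 : ∀ᶠ L : ℝ in Filter.atTop, K ≤ L ^ (t2 - 2 * (1 - t)) :=
    (tendsto_rpow_atTop ht3).eventually_ge_atTop K
  have hlog : Filter.Tendsto (fun N : ℕ => Real.log N) Filter.atTop Filter.atTop :=
    Real.tendsto_log_atTop.comp tendsto_natCast_atTop_atTop
  obtain ⟨N0, hN0⟩ := Filter.eventually_atTop.1 (hlog.eventually (e1.and (e2.and e3)))
  refine ⟨N0, fun N hN ℓ hℓ1 hℓ2 => ?_⟩
  obtain ⟨h1, h2, h3⟩ := hN0 N hN
  set L : ℝ := Real.log N with hL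
  have hL0 : 0 < L := by linarith
  set x : ℝ := L ^ (1 - t) with hx
  have hx1 : 1 ≤ x := Real.one_le_rpow h1 ht.le
  have hx0 : 0 < x := by linarith
  rcases Nat.eq_zero_or_pos D with hD | hD
  · subst hD
    simp only [Nat.zero_mul, pow_zero, mul_one]
    exact Real.one_le_exp (Real.rpow_nonneg hL0.le _)
  have hD1 : (1 : ℝ) ≤ D := by exact_mod_cast hD
  have hl1 : (1 : ℝ) ≤ ℓ := by exact_mod_cast hℓ1
  have hl3 : (ℓ : ℝ) ≤ 3 * x := by linarith
  have hlogL : 0 ≤ Real.log L := Real.log_nonneg h1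
  -- the logarithm of the base
  set b : ℝ := (D : ℝ) * ℓ * L ^ C0 with hb
  have hb0 : 0 < b := by positivity
  have hlogb : Real.log b ≤ A * x := by
    have h4 : Real.log b = Real.log D + Real.log ℓ + C0 * Real.log L := by
      rw [hb, Real.log_mul (by positivity) (by positivity), Real.log_mul (by positivity) (by positivity),
        Real.log_pow]
    have h5 : Real.log D ≤ D := (Real.log_le_sub_one_of_pos (by linarith)).trans (by linarith)
    have h6 : Real.log ℓ ≤ 2 + (1 - t) * Real.log L := by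
      have h7 : Real.log ℓ ≤ Real.log (3 * x) := Real.log_le_log (by linarith) hl3
      have h8 : Real.log (3 * x) = Real.log 3 + (1 - t) * Real.log L := by
        rw [Real.log_mul (by norm_num) hx0.ne', hx, Real.log_rpow hL0]
      have h9 : Real.log 3 ≤ 2 := (Real.log_le_sub_one_of_pos (by norm_num)).trans (by norm_num)
      linarith
    have h10 : (1 - t) * Real.log L ≤ (1 - t) * x := mul_le_mul_of_nonneg_left h2 ht.le
    have h11 : (C0 : ℝ) * Real.log L ≤ C0 * x := mul_le_mul_of_nonneg_left h2 (Nat.cast_nonneg _)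
    have h12 : (D : ℝ) + 2 ≤ (D + 2) * x := le_mul_of_one_le_right (by linarith) hx1
    rw [h4, hA]
    have h13 : ((D : ℝ) + 2 + (1 - t) + C0) * x = (D + 2) * x + (1 - t) * x + C0 * x := by ring
    rw [h13]
    linarith
  have hA0 : 0 ≤ A := by positivity
  have hpow : b ^ (D * ℓ) = Real.exp (((D * ℓ : ℕ) : ℝ) * Real.log b) := by
    rw [Real.exp_nat_mul, Real.exp_log hb0]
  have hpow2 : (2 : ℝ) ^ (D * ℓ ^ 2) = Real.exp (((D * ℓ ^ 2 : ℕ) : ℝ) * Real.log 2) := by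
    rw [Real.exp_nat_mul, Real.exp_log (by norm_num)]
  rw [hpow, hpow2, ← Real.exp_add]
  refine Real.exp_le_exp.2 ?_
  have h20 : L ^ t2 = L ^ (t2 - 2 * (1 - t)) * x ^ 2 := by
    have h21 : x ^ 2 = L ^ (2 * (1 - t)) := by
      rw [hx, ← Real.rpow_natCast, ← Real.rpow_mul hL0.le]
      congr 1
      push_cast
      ring
    rw [h21, ← Real.rpow_add hL0]
    congr 1
    ring
  have h22 : K * x ^ 2 ≤ L ^ t2 := by
    rw [h20]
    exact mul_le_mul_of_nonneg_right h3 (by positivity)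
  refine le_trans ?_ h22
  have h23 : ((D * ℓ : ℕ) : ℝ) * Real.log b ≤ (D * (3 * x)) * (A * x) := by
    push_cast
    have h24 : (D : ℝ) * ℓ ≤ D * (3 * x) := mul_le_mul_of_nonneg_left hl3 (by linarith)
    calc (D : ℝ) * ℓ * Real.log b ≤ (D : ℝ) * ℓ * (A * x) := mul_le_mul_of_nonneg_left hlogb (by positivity)
      _ ≤ _ := mul_le_mul_of_nonneg_right h24 (by positivity)
  have h25 : ((D * ℓ ^ 2 : ℕ) : ℝ) * Real.log 2 ≤ (D * (3 * x) ^ 2) * 1 := by
    push_cast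
    have h26 : (ℓ : ℝ) ^ 2 ≤ (3 * x) ^ 2 := pow_le_pow_left₀ (by linarith) hl3 2
    have h27 : Real.log 2 ≤ 1 := (Real.log_le_sub_one_of_pos (by norm_num)).trans (by norm_num)
    refine mul_le_mul (mul_le_mul_of_nonneg_left h26 (by linarith)) h27 (Real.log_nonneg (by norm_num))
      (by positivity)
  have h28 : (D * (3 * x)) * (A * x) + (D * (3 * x) ^ 2) * 1 = K * x ^ 2 := by
    rw [hK]
    ring
  linarith

theorem comb_lvl (t : ℝ) (ht0 : 0 < t) (ht1 : t < 1) : ∃ N0 : ℕ, ∀ N : ℕ, N0 ≤ N → ∀ n P : ℕ,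
    Real.exp (Real.log N ^ t) ≤ P → 1 ≤ n → n ≤ N → ∃ ℓ : ℕ, 1 ≤ ℓ ∧ (ℓ : ℝ) ≤ Real.log N ^ (1 - t) + 2 ∧
      (n : ℝ) * P ≤ (P : ℝ) ^ ℓ ∧ (P : ℝ) ^ ℓ ≤ n * (P : ℝ) ^ 2 := by
  refine ⟨2, fun N hN n P hP hn1 hnN => ?_⟩
  have hN2 : (2 : ℝ) ≤ N := by exact_mod_cast hN
  set L : ℝ := Real.log N with hL
  have hL0 : 0 < L := Real.log_pos (by linarith)
  have hP1 : (1 : ℝ) ≤ P := le_trans (Real.one_le_exp (Real.rpow_nonneg hL0.le _)) hP
  have hn1' : (1 : ℝ) ≤ n := by exact_mod_cast hn1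
  have hk0 : (n : ℝ) ≤ (P : ℝ) ^ ⌈L ^ (1 - t)⌉₊ := by
    have h1 : (Real.exp (L ^ t)) ^ ⌈L ^ (1 - t)⌉₊ ≤ (P : ℝ) ^ ⌈L ^ (1 - t)⌉₊ :=
      pow_le_pow_left₀ (Real.exp_pos _).le hP _
    rw [← Real.exp_nat_mul] at h1
    have h2 : L ≤ (⌈L ^ (1 - t)⌉₊ : ℝ) * L ^ t := by
      have h3 : L ^ (1 - t) * L ^ t = L := by
        rw [← Real.rpow_add hL0, sub_add_cancel, Real.rpow_one]
      calc L = L ^ (1 - t) * L ^ t := h3.symm
        _ ≤ _ := mul_le_mul_of_nonneg_right (Nat.le_ceil _) (Real.rpow_nonneg hL0.le _)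
    have h4 : Real.exp L = N := by
      rw [hL]
      exact Real.exp_log (by linarith)
    have h5 : (N : ℝ) ≤ Real.exp ((⌈L ^ (1 - t)⌉₊ : ℝ) * L ^ t) := by
      rw [← h4]
      exact Real.exp_le_exp.2 h2
    have h6 : (n : ℝ) ≤ N := by exact_mod_cast hnN
    linarith
  classical
  have hex : ∃ k : ℕ, (n : ℝ) ≤ (P : ℝ) ^ k := ⟨_, hk0⟩
  set k := Nat.find hex with hk
  have hk1 : (n : ℝ) ≤ (P : ℝ) ^ k := Nat.find_spec hex
  have hk2 : k ≤ ⌈L ^ (1 - t)⌉₊ := Nat.find_min' hex hk0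
  refine ⟨k + 1, by omega, ?_, ?_, ?_⟩
  · have h7 : (⌈L ^ (1 - t)⌉₊ : ℝ) < L ^ (1 - t) + 1 := Nat.ceil_lt_add_one (Real.rpow_nonneg hL0.le _)
    have h8 : (k : ℝ) ≤ (⌈L ^ (1 - t)⌉₊ : ℝ) := by exact_mod_cast hk2
    push_cast
    linarith
  · rw [pow_succ]
    exact mul_le_mul_of_nonneg_right hk1 (by linarith)
  · rcases Nat.eq_zero_or_pos k with h9 | h9
    · rw [h9, zero_add, pow_one]
      have h10 : (P : ℝ) ≤ (P : ℝ) ^ 2 := by nlinarith
      have h11 : (P : ℝ) ^ 2 ≤ n * (P : ℝ) ^ 2 := le_mul_of_one_le_left (by positivity) hn1'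
      linarith
    · have h10 : ¬ (n : ℝ) ≤ (P : ℝ) ^ (k - 1) := Nat.find_min hex (by omega)
      have h11 : k + 1 = (k - 1) + 2 := by omega
      rw [h11, pow_add]
      exact mul_le_mul_of_nonneg_right (not_le.1 h10).le (by positivity)

end Pool.Agent.H74.MDX

end

section

/-!
# MDX Num: the numerical constant

Proof.  With `E = 2C+1` (or a natural number `≥ 100 C`): `Bc C ℓ ≤ 6 · max of the summands`, each is at most `(10 E ℓ)^(10 ℓ)` times powers of 2 (`ℓ! ≤ ℓ^ℓ`), so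
`Bc C ℓ ≤ (E1 ℓ)^(E1 ℓ)`; `1/εc C δ ℓ = 4(2C+1)/δ · (8C/δ)^(2ℓ) · (4(2C+1)^2)^ℓ ≤ (E1/δ)^(E1 ℓ)` for a natural number `E1 = E1(C)`; `Dc C ℓ ≤ E1^(E1 ℓ) 2^(ℓ^2)`.
So the left side is at most `(E2 ℓ/δ)^(E2 ℓ) 2^(12 ℓ^2)` for some natural `E2 ≥ 12` depending on `C`; take `D = E2` (monotone in both exponent and base since `E2 ℓ/δ ≥ 1`).
-/

set_option autoImplicit false

namespace Pool.Agent.H74.MDX

noncomputable def Bc (C : ℝ) (ℓ : ℕ) : ℝ :=
  2 * C * 5 ^ ℓ + 1 + 4 ^ ℓ * C + (2 * C + 1) ^ (2 * ℓ) + (ℓ.factorial : ℝ) ^ 2 + 2 ^ (2 * ℓ + 8)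

noncomputable def εc (C δ : ℝ) (ℓ : ℕ) : ℝ := δ / (4 * (2 * C + 1)) * (δ / (8 * C)) ^ (2 * ℓ) / (4 * (2 * C + 1) ^ 2) ^ ℓ

noncomputable def Dc (C : ℝ) (ℓ : ℕ) : ℝ := C * 5 ^ ℓ + 4 ^ ℓ * C + 2 ^ (ℓ ^ 2 + 5 * ℓ)

/-- the total constant -/
noncomputable def Zc (C δ : ℝ) (ℓ : ℕ) : ℝ := 1000 * Bc C ℓ ^ 54 * Dc C ℓ ^ 12 / εc C δ ℓ ^ 8

private theorem Num_Bc {C : ℝ} (hC : 1 ≤ C) {E ℓ : ℕ} (hE : 100 * C ≤ E) (hℓ : 1 ≤ ℓ) :
    Bc C ℓ ≤ ((E : ℝ) * ℓ) ^ (3 * ℓ) := by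
  have hℓ' : (1 : ℝ) ≤ ℓ := by exact_mod_cast hℓ
  have hE1 : (100 : ℝ) ≤ E := by linarith
  set Y : ℝ := (E : ℝ) * ℓ with hY
  have hEY : (E : ℝ) ≤ Y := by rw [hY]; nlinarith
  have hℓY : (ℓ : ℝ) ≤ Y := by rw [hY]; nlinarith
  have hY1 : 100 ≤ Y := hE1.trans hEY
  have hCY : 100 * C ≤ Y := hE.trans hEY
  have hY0 : 0 ≤ Y := by linarith
  have hYY : Y ^ ℓ ≤ Y ^ (2 * ℓ) := pow_le_pow_right₀ (by linarith) (by omega)
  have h1 : 2 * C * 5 ^ ℓ ≤ Y ^ (2 * ℓ) := by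
    calc 2 * C * 5 ^ ℓ ≤ (2 * C) ^ ℓ * 5 ^ ℓ := by
          gcongr
          exact le_self_pow₀ (by linarith) (by omega)
      _ = (2 * C * 5) ^ ℓ := by rw [← mul_pow]
      _ ≤ Y ^ ℓ := pow_le_pow_left₀ (by positivity) (by linarith) _
      _ ≤ Y ^ (2 * ℓ) := hYY
  have h2 : (1 : ℝ) ≤ Y ^ (2 * ℓ) := one_le_pow₀ (by linarith)
  have h3 : 4 ^ ℓ * C ≤ Y ^ (2 * ℓ) := by
    calc 4 ^ ℓ * C ≤ 4 ^ ℓ * C ^ ℓ := by
          gcongr
          exact le_self_pow₀ hC (by omega)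
      _ = (4 * C) ^ ℓ := by rw [mul_pow]
      _ ≤ Y ^ ℓ := pow_le_pow_left₀ (by positivity) (by linarith) _
      _ ≤ Y ^ (2 * ℓ) := hYY
  have h4 : (2 * C + 1) ^ (2 * ℓ) ≤ Y ^ (2 * ℓ) := pow_le_pow_left₀ (by positivity) (by linarith) _
  have h5 : (ℓ.factorial : ℝ) ^ 2 ≤ Y ^ (2 * ℓ) := by
    have h6 : (ℓ.factorial : ℝ) ≤ (ℓ : ℝ) ^ ℓ := by exact_mod_cast Nat.factorial_le_pow ℓ
    calc (ℓ.factorial : ℝ) ^ 2 ≤ ((ℓ : ℝ) ^ ℓ) ^ 2 := by gcongr
      _ = (ℓ : ℝ) ^ (2 * ℓ) := by rw [← pow_mul, mul_comm]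
      _ ≤ Y ^ (2 * ℓ) := by gcongr
  have h6 : (2 : ℝ) ^ (2 * ℓ + 8) ≤ Y ^ (2 * ℓ) := by
    calc (2 : ℝ) ^ (2 * ℓ + 8) ≤ 2 ^ (10 * ℓ) := pow_le_pow_right₀ (by norm_num) (by omega)
      _ = ((2 : ℝ) ^ 5) ^ (2 * ℓ) := by rw [← pow_mul]; congr 1; ring
      _ ≤ Y ^ (2 * ℓ) := pow_le_pow_left₀ (by positivity) (by norm_num; linarith) _
  have h7 : 6 ≤ Y ^ ℓ := by
    have : Y ≤ Y ^ ℓ := le_self_pow₀ (by linarith) (by omega)
    linarith
  have h8 : Y ^ (3 * ℓ) = Y ^ ℓ * Y ^ (2 * ℓ) := by rw [← pow_add]; congr 1; ring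
  rw [h8]
  have h9 : 0 ≤ Y ^ (2 * ℓ) := by positivity
  calc Bc C ℓ ≤ 6 * Y ^ (2 * ℓ) := by
        unfold Bc
        linarith
    _ ≤ Y ^ ℓ * Y ^ (2 * ℓ) := by gcongr

private theorem Num_Dc {C : ℝ} (hC : 1 ≤ C) {E ℓ : ℕ} (hE : 100 * C ≤ E) (hℓ : 1 ≤ ℓ) :
    Dc C ℓ ≤ ((E : ℝ) * ℓ) ^ (2 * ℓ) * 2 ^ (ℓ ^ 2) := by
  have hℓ' : (1 : ℝ) ≤ ℓ := by exact_mod_cast hℓ
  have hE1 : (100 : ℝ) ≤ E := by linarith
  set Y : ℝ := (E : ℝ) * ℓ with hY
  have hEY : (E : ℝ) ≤ Y := by rw [hY]; nlinarith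
  have hY1 : 100 ≤ Y := hE1.trans hEY
  have hCY : 100 * C ≤ Y := hE.trans hEY
  have hY0 : 0 ≤ Y := by linarith
  have ht : (1 : ℝ) ≤ 2 ^ (ℓ ^ 2) := one_le_pow₀ (by norm_num)
  have h1 : C * 5 ^ ℓ ≤ Y ^ ℓ := by
    calc C * 5 ^ ℓ ≤ C ^ ℓ * 5 ^ ℓ := by
          gcongr
          exact le_self_pow₀ hC (by omega)
      _ = (C * 5) ^ ℓ := by rw [mul_pow]
      _ ≤ Y ^ ℓ := pow_le_pow_left₀ (by positivity) (by linarith) _
  have h2 : 4 ^ ℓ * C ≤ Y ^ ℓ := by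
    calc 4 ^ ℓ * C ≤ 4 ^ ℓ * C ^ ℓ := by
          gcongr
          exact le_self_pow₀ hC (by omega)
      _ = (4 * C) ^ ℓ := by rw [mul_pow]
      _ ≤ Y ^ ℓ := pow_le_pow_left₀ (by positivity) (by linarith) _
  have h3 : (2 : ℝ) ^ (ℓ ^ 2 + 5 * ℓ) ≤ 2 ^ (ℓ ^ 2) * Y ^ ℓ := by
    rw [pow_add, pow_mul]
    gcongr
    norm_num
    linarith
  have h4 : 3 ≤ Y ^ ℓ := by
    have : Y ≤ Y ^ ℓ := le_self_pow₀ (by linarith) (by omega)
    linarith
  have h5 : 0 ≤ Y ^ ℓ := by positivity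
  have h6 : Y ^ (2 * ℓ) = Y ^ ℓ * Y ^ ℓ := by rw [← pow_add]; congr 1; ring
  have h7 : Y ^ ℓ ≤ 2 ^ (ℓ ^ 2) * Y ^ ℓ := le_mul_of_one_le_left h5 ht
  calc Dc C ℓ ≤ 3 * (2 ^ (ℓ ^ 2) * Y ^ ℓ) := by
        unfold Dc
        linarith
    _ ≤ Y ^ ℓ * (2 ^ (ℓ ^ 2) * Y ^ ℓ) := by gcongr
    _ = Y ^ (2 * ℓ) * 2 ^ (ℓ ^ 2) := by rw [h6]; ring

private theorem Num_eps {C δ : ℝ} (hC : 1 ≤ C) (hδ : 0 < δ) (hδ1 : δ ≤ 1) {E ℓ : ℕ} (hE : 100 * C ≤ E)
    (hℓ : 1 ≤ ℓ) : 1 / εc C δ ℓ ≤ ((E : ℝ) * ℓ / δ) ^ (5 * ℓ) := by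
  have hℓ' : (1 : ℝ) ≤ ℓ := by exact_mod_cast hℓ
  have hE1 : (100 : ℝ) ≤ E := by linarith
  set X : ℝ := (E : ℝ) * ℓ / δ with hX
  have hEX : (E : ℝ) / δ ≤ X := by
    rw [hX]
    gcongr
    nlinarith
  have hEE : (E : ℝ) ≤ E / δ := by
    rw [le_div_iff₀ hδ]
    nlinarith
  have hX1 : 100 ≤ X := hE1.trans (hEE.trans hEX)
  have hX0 : 0 ≤ X := by linarith
  have hCX : 100 * C / δ ≤ X := by
    refine le_trans ?_ hEX
    gcongr
  have h0 : 1 / εc C δ ℓ = 4 * (2 * C + 1) / δ * (8 * C / δ) ^ (2 * ℓ) * (4 * (2 * C + 1) ^ 2) ^ ℓ := by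
    unfold εc
    rw [div_pow δ (8 * C), div_pow (8 * C) δ]
    field_simp
  have h1 : 4 * (2 * C + 1) / δ ≤ X ^ ℓ := by
    calc 4 * (2 * C + 1) / δ ≤ 100 * C / δ := div_le_div_of_nonneg_right (by linarith) hδ.le
      _ ≤ X := hCX
      _ ≤ X ^ ℓ := le_self_pow₀ (by linarith) (by omega)
  have h2 : (8 * C / δ) ^ (2 * ℓ) ≤ X ^ (2 * ℓ) := by
    refine pow_le_pow_left₀ (by positivity) ?_ _
    refine le_trans ?_ hCX
    gcongr
    norm_num
  have h3 : (4 * (2 * C + 1) ^ 2) ^ ℓ ≤ X ^ (2 * ℓ) := by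
    have h4 : (4 * (2 * C + 1) ^ 2) ^ ℓ = (2 * (2 * C + 1)) ^ (2 * ℓ) := by
      rw [pow_mul]
      congr 1
      ring
    rw [h4]
    refine pow_le_pow_left₀ (by positivity) ?_ _
    have : 100 * C ≤ X := hE.trans (hEE.trans hEX)
    linarith
  have h5 : X ^ (5 * ℓ) = X ^ ℓ * X ^ (2 * ℓ) * X ^ (2 * ℓ) := by
    rw [← pow_add, ← pow_add]
    congr 1
    ring
  rw [h0, h5]
  gcongr

theorem comb_num (C : ℝ) (hC : 1 ≤ C) : ∃ D : ℕ, 1 ≤ D ∧ ∀ (ℓ : ℕ) (δ : ℝ), 1 ≤ ℓ → 0 < δ → δ ≤ 1 →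
    Zc C δ ℓ ≤ (D * ℓ / δ) ^ (D * ℓ) * 2 ^ (D * ℓ ^ 2) := by
  obtain ⟨E, hE⟩ := exists_nat_ge (100 * C)
  refine ⟨E + 228, by omega, ?_⟩
  intro ℓ δ hℓ hδ hδ1
  have hℓ' : (1 : ℝ) ≤ ℓ := by exact_mod_cast hℓ
  have hE1 : (100 : ℝ) ≤ E := by linarith
  have hB := Num_Bc hC hE hℓ
  have hD := Num_Dc hC hE hℓ
  have he := Num_eps hC hδ hδ1 hE hℓ
  set X : ℝ := (E : ℝ) * ℓ / δ with hX
  have hYX : (E : ℝ) * ℓ ≤ X := by
    rw [hX, le_div_iff₀ hδ]
    have : 0 ≤ (E : ℝ) * ℓ := by positivity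
    nlinarith
  have hY1 : 100 ≤ (E : ℝ) * ℓ := by nlinarith
  have hX1 : 100 ≤ X := hY1.trans hYX
  have hX0 : 0 ≤ X := by linarith
  have hBX : Bc C ℓ ≤ X ^ (3 * ℓ) := hB.trans (by gcongr)
  have hDX : Dc C ℓ ≤ X ^ (2 * ℓ) * 2 ^ (ℓ ^ 2) := hD.trans (by gcongr)
  have hB0 : 0 ≤ Bc C ℓ := by
    unfold Bc
    positivity
  have hD0 : 0 ≤ Dc C ℓ := by
    unfold Dc
    positivity
  have hε0 : 0 < εc C δ ℓ := by
    unfold εc
    positivity
  have h1000 : (1000 : ℝ) ≤ X ^ (2 * ℓ) := by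
    calc (1000 : ℝ) ≤ 100 ^ 2 := by norm_num
      _ ≤ X ^ 2 := by gcongr
      _ ≤ X ^ (2 * ℓ) := pow_le_pow_right₀ (by linarith) (by omega)
  have hZ : Zc C δ ℓ ≤ X ^ (228 * ℓ) * 2 ^ (12 * ℓ ^ 2) := by
    have h1 : Zc C δ ℓ = 1000 * Bc C ℓ ^ 54 * Dc C ℓ ^ 12 * (1 / εc C δ ℓ) ^ 8 := by
      unfold Zc
      rw [one_div, inv_pow]
      rfl
    have h2 : (0 : ℝ) ≤ 1 / εc C δ ℓ := by positivity
    rw [h1]
    calc 1000 * Bc C ℓ ^ 54 * Dc C ℓ ^ 12 * (1 / εc C δ ℓ) ^ 8 ≤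
        X ^ (2 * ℓ) * (X ^ (3 * ℓ)) ^ 54 * (X ^ (2 * ℓ) * 2 ^ (ℓ ^ 2)) ^ 12 * (X ^ (5 * ℓ)) ^ 8 := by
          gcongr
      _ = X ^ (228 * ℓ) * 2 ^ (12 * ℓ ^ 2) := by
          rw [mul_pow, ← pow_mul, ← pow_mul, ← pow_mul, ← pow_mul]
          rw [show 12 * ℓ ^ 2 = ℓ ^ 2 * 12 by ring]
          rw [show 228 * ℓ = 2 * ℓ + 3 * ℓ * 54 + 2 * ℓ * 12 + 5 * ℓ * 8 by ring, pow_add, pow_add, pow_add]
          ring
  refine hZ.trans ?_
  have hXD : X ≤ ((E + 228 : ℕ) : ℝ) * ℓ / δ := by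
    rw [hX]
    gcongr
    linarith
  have h1 : X ^ (228 * ℓ) ≤ (((E + 228 : ℕ) : ℝ) * ℓ / δ) ^ ((E + 228) * ℓ) := by
    calc X ^ (228 * ℓ) ≤ (((E + 228 : ℕ) : ℝ) * ℓ / δ) ^ (228 * ℓ) := by gcongr
      _ ≤ (((E + 228 : ℕ) : ℝ) * ℓ / δ) ^ ((E + 228) * ℓ) := by
          refine pow_le_pow_right₀ (by linarith) ?_
          exact Nat.mul_le_mul_right ℓ (by omega)
  have h2 : (2 : ℝ) ^ (12 * ℓ ^ 2) ≤ 2 ^ ((E + 228) * ℓ ^ 2) := by
    refine pow_le_pow_right₀ (by norm_num) ?_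
    exact Nat.mul_le_mul_right _ (by omega)
  gcongr

end Pool.Agent.H74.MDX

end

section

/-!
# MDX Rich: few edges have a poor root (abstract)

`X` = the edges `e` such that fewer than `κ P` edges `f` have the same first vertex and the same root.
Proof.  Let `N(u) = {u1 : (u, u1) ∈ X}`.  Cauchy-Schwarz: `|X|^2 = (∑_{u ∈ VV} |N(u)|)^2 ≤ |VV| ∑_u |N(u)|^2`, and `∑_u |N(u)|^2` is the number of the
triples `(u, u1, u2)` with `(u,u1), (u,u2) ∈ X`.  The triples with `root (u,u1) = root (u,u2)`: for given `(u, u1) ∈ X` fewer than `κ P` (definition of `X`, `X ⊆ E`),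
total `≤ κ P |X|`.  The triples with `root (u,u1) ≠ root (u,u2)`: for given `(u1, u2) ∈ VV × VV` all such `u` have the same value `pr u` (hypothesis `h4`), so there are at most
`b` of them: total `≤ b |VV|^2`.  So `|X|^2 ≤ |VV| (b |VV|^2 + κ P |X|) ≤ b P (b (b P)^2 + κ P |X|) = b^4 P^3 + κ b P^2 |X|`.  If `|X| > 2 κ b P^2` then
`κ b P^2 |X| < |X|^2/2`, so `|X|^2/2 < b^4 P^3`, `2 κ^2 b^2 P^4 < b^4 P^3`, `2 κ^2 P < b^2`: contradiction with `hbig`.
-/

set_option autoImplicit false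

namespace Pool.Agent.H74.MDX

open Finset

open Classical in
theorem rich {V : Type*} (VV : Finset V) (pr : V → ℕ) (E : Finset (V × V)) (root : V × V → ℤ) (b κ P : ℝ)
    (hb : 0 < b) (hκ : 0 < κ) (hP : 0 < P) (hfib : ∀ p : ℕ, ((VV.filter (fun v => pr v = p)).card : ℝ) ≤ b)
    (hV : (VV.card : ℝ) ≤ b * P) (hE : E ⊆ VV ×ˢ VV)
    (h4 : ∀ u v u1 u2 : V, (u, u1) ∈ E → (u, u2) ∈ E → (v, u1) ∈ E → (v, u2) ∈ E → pr u ≠ pr v →
      root (u, u1) = root (u, u2))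
    (hbig : b ^ 2 < 2 * κ ^ 2 * P) :
    ((E.filter (fun e => ((E.filter (fun f => f.1 = e.1 ∧ root f = root e)).card : ℝ) < κ * P)).card : ℝ) ≤
      2 * κ * b * P ^ 2 := by
  set X : Finset (V × V) :=
    E.filter (fun e => ((E.filter (fun f => f.1 = e.1 ∧ root f = root e)).card : ℝ) < κ * P) with hX
  have hXE : X ⊆ E := filter_subset _ _
  -- the triples
  set T : Finset ((V × V) × (V × V)) := (X ×ˢ X).filter (fun t => t.2.1 = t.1.1) with hT
  have h1 : (X.card : ℝ) = ∑ u ∈ VV, ((X.filter (fun e => e.1 = u)).card : ℝ) := by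
    rw [← Nat.cast_sum]
    congr 1
    exact card_eq_sum_card_fiberwise (fun e he => (mem_product.1 (hE (hXE he))).1)
  have h2 : (X.card : ℝ) ^ 2 ≤ VV.card * ∑ u ∈ VV, ((X.filter (fun e => e.1 = u)).card : ℝ) ^ 2 := by
    rw [h1]
    exact sq_sum_le_card_mul_sum_sq
  have hT0 : T.card = ∑ e ∈ X, (X.filter (fun f => f.1 = e.1)).card := by
    rw [hT, Finset.card_filter, Finset.sum_product]
    refine Finset.sum_congr rfl (fun e _ => ?_)
    rw [Finset.card_filter]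
  have h3 : ∑ u ∈ VV, ((X.filter (fun e => e.1 = u)).card : ℝ) ^ 2 = T.card := by
    rw [hT0, Nat.cast_sum, ← Finset.sum_fiberwise_of_maps_to (s := X) (t := VV) (g := fun e => e.1)
      (fun e he => (mem_product.1 (hE (hXE he))).1)]
    refine Finset.sum_congr rfl (fun u _ => ?_)
    have h31 : ∀ e ∈ X.filter (fun e => e.1 = u), ((X.filter (fun f => f.1 = e.1)).card : ℝ) =
        ((X.filter (fun e => e.1 = u)).card : ℝ) := by
      intro e he
      rw [(mem_filter.1 he).2]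
    rw [Finset.sum_congr rfl h31, Finset.sum_const, nsmul_eq_mul, sq]
  -- the two kinds of triples
  have h4' : T.card = (T.filter (fun t => root t.2 = root t.1)).card +
      (T.filter (fun t => ¬ root t.2 = root t.1)).card := (card_filter_add_card_filter_not _).symm
  have h5 : ((T.filter (fun t => root t.2 = root t.1)).card : ℝ) ≤ κ * P * X.card := by
    have h51 : (T.filter (fun t => root t.2 = root t.1)).card =
        ∑ e ∈ X, (X.filter (fun f => f.1 = e.1 ∧ root f = root e)).card := by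
      rw [hT, Finset.filter_filter, Finset.card_filter, Finset.sum_product]
      refine Finset.sum_congr rfl (fun e _ => ?_)
      rw [Finset.card_filter]
    rw [h51, Nat.cast_sum]
    have h52 : ∀ e ∈ X, ((X.filter (fun f => f.1 = e.1 ∧ root f = root e)).card : ℝ) ≤ κ * P := by
      intro e he
      refine le_trans ?_ (mem_filter.1 he).2.le
      exact_mod_cast card_le_card (filter_subset_filter _ hXE)
    refine (Finset.sum_le_sum h52).trans ?_
    rw [Finset.sum_const, nsmul_eq_mul]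
    exact le_of_eq (by ring)
  have h6 : ((T.filter (fun t => ¬ root t.2 = root t.1)).card : ℝ) ≤ b * VV.card ^ 2 := by
    set T2 := T.filter (fun t => ¬ root t.2 = root t.1) with hT2
    have h61 : (T2.card : ℝ) = ∑ w ∈ VV ×ˢ VV, ((T2.filter (fun t => (t.1.2, t.2.2) = w)).card : ℝ) := by
      rw [← Nat.cast_sum]
      congr 1
      refine card_eq_sum_card_fiberwise (fun t ht => ?_)
      have h62 := (mem_filter.1 (mem_filter.1 ht).1).1
      have h63 := mem_product.1 (hE (hXE (mem_product.1 h62).1))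
      have h64 := mem_product.1 (hE (hXE (mem_product.1 h62).2))
      exact mem_coe.2 (mem_product.2 ⟨h63.2, h64.2⟩)
    have h65 : ∀ w ∈ VV ×ˢ VV, ((T2.filter (fun t => (t.1.2, t.2.2) = w)).card : ℝ) ≤ b := by
      intro w _
      rcases (T2.filter (fun t => (t.1.2, t.2.2) = w)).eq_empty_or_nonempty with h0 | ⟨t0, ht0⟩
      · rw [h0, card_empty, Nat.cast_zero]
        exact hb.le
      · refine le_trans ?_ (hfib (pr t0.1.1))
        have h66 : (T2.filter (fun t => (t.1.2, t.2.2) = w)).card ≤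
            (VV.filter (fun v => pr v = pr t0.1.1)).card := by
          refine card_le_card_of_injOn (fun t => t.1.1) (fun t ht => ?_) (fun t ht t' ht' htt => ?_)
          · obtain ⟨ht1, ht2⟩ := mem_filter.1 (mem_coe.1 ht)
            obtain ⟨ht3, ht4⟩ := mem_filter.1 ht1
            obtain ⟨ht5, ht6⟩ := mem_filter.1 ht3
            obtain ⟨hs1, hs2⟩ := mem_filter.1 ht0
            obtain ⟨hs3, hs4⟩ := mem_filter.1 hs1
            obtain ⟨hs5, hs6⟩ := mem_filter.1 hs3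
            obtain ⟨⟨a1, a2⟩, ⟨a3, a4⟩⟩ := t
            obtain ⟨⟨c1, c2⟩, ⟨c3, c4⟩⟩ := t0
            simp only at ht2 ht4 ht6 hs2 hs4 hs6 ⊢
            obtain ⟨w1, w2⟩ := w
            simp only [Prod.mk.injEq] at ht2 hs2
            obtain ⟨rfl, rfl⟩ := ht2
            obtain ⟨rfl, rfl⟩ := hs2
            subst ht6
            subst hs6
            have k1 := hXE (mem_product.1 ht5).1
            have k2 := hXE (mem_product.1 ht5).2
            have k3 := hXE (mem_product.1 hs5).1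
            have k4 := hXE (mem_product.1 hs5).2
            refine mem_coe.2 (mem_filter.2 ⟨(mem_product.1 (hE k1)).1, ?_⟩)
            by_contra hne
            exact ht4 (h4 _ _ _ _ k1 k2 k3 k4 hne).symm
          · obtain ⟨ht1, ht2⟩ := mem_filter.1 (mem_coe.1 ht)
            obtain ⟨ht3, ht4⟩ := mem_filter.1 ht1
            obtain ⟨ht5, ht6⟩ := mem_filter.1 ht3
            obtain ⟨hs1, hs2⟩ := mem_filter.1 (mem_coe.1 ht')
            obtain ⟨hs3, hs4⟩ := mem_filter.1 hs1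
            obtain ⟨hs5, hs6⟩ := mem_filter.1 hs3
            obtain ⟨⟨a1, a2⟩, ⟨a3, a4⟩⟩ := t
            obtain ⟨⟨c1, c2⟩, ⟨c3, c4⟩⟩ := t'
            obtain ⟨w1, w2⟩ := w
            simp only [Prod.mk.injEq] at ht2 hs2 ht6 hs6 htt ⊢
            obtain ⟨rfl, rfl⟩ := ht2
            obtain ⟨rfl, rfl⟩ := hs2
            subst ht6
            subst hs6
            subst htt
            exact ⟨⟨rfl, rfl⟩, ⟨rfl, rfl⟩⟩
        exact_mod_cast h66
    rw [h61]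
    refine (Finset.sum_le_sum h65).trans ?_
    rw [Finset.sum_const, nsmul_eq_mul, card_product]
    push_cast
    exact le_of_eq (by ring)
  have h7 : (T.card : ℝ) ≤ κ * P * X.card + b * VV.card ^ 2 := by
    rw [h4']
    push_cast
    linarith
  rw [h3] at h2
  set x : ℝ := (X.card : ℝ) with hx
  set n : ℝ := (VV.card : ℝ) with hn
  have hx0 : 0 ≤ x := Nat.cast_nonneg _
  have hn0 : 0 ≤ n := Nat.cast_nonneg _
  have h8 : x ^ 2 ≤ (b * P) * (κ * P * x + b * (b * P) ^ 2) := by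
    refine h2.trans ?_
    have h81 : n ^ 2 ≤ (b * P) ^ 2 := pow_le_pow_left₀ hn0 hV 2
    have h82 : (T.card : ℝ) ≤ κ * P * x + b * (b * P) ^ 2 :=
      h7.trans (by
        have := mul_le_mul_of_nonneg_left h81 hb.le
        linarith)
    exact mul_le_mul hV h82 (Nat.cast_nonneg _) (by positivity)
  by_contra hcon
  push Not at hcon
  have h9 : κ * b * P ^ 2 * x ≤ x ^ 2 / 2 := by
    have := mul_le_mul_of_nonneg_right hcon.le hx0
    nlinarith
  have h10 : x ^ 2 ≤ 2 * (b ^ 4 * P ^ 3) := by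
    have : (b * P) * (κ * P * x + b * (b * P) ^ 2) = κ * b * P ^ 2 * x + b ^ 4 * P ^ 3 := by ring
    rw [this] at h8
    linarith
  have h11 : (2 * κ * b * P ^ 2) ^ 2 < x ^ 2 := pow_lt_pow_left₀ hcon (by positivity) (by norm_num)
  have h12 : (b ^ 2 * P ^ 3) * (2 * κ ^ 2 * P) < (b ^ 2 * P ^ 3) * b ^ 2 := by nlinarith
  have h13 : 2 * κ ^ 2 * P < b ^ 2 := lt_of_mul_lt_mul_left h12 (by positivity)
  linarith

end Pool.Agent.H74.MDX

end

section

/-!
# MDX Sep: separated nets modulo 1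

`net`: a maximal subset of `W` (with respect to inclusion or cardinality: `Finset.exists_max_image` on the filtered powerset) with pairwise `nz (g - g') > s`; by maximality every
`w ∈ W` has some `g` with `nz (w - g) ≤ s` (for `w ∈ Γ` itself `nz 0 = 0 ≤ s`).
`near_card`: for `g'` in the set choose the integer `m` with `|g - g' - m| = nz (g - g') ≤ s'` and put `x(g') = g' - g + m ∈ [-s', s']` (`nz_exists`); for two different ones
`|x(g') - x(g'')| ≥ nz (g' - g'') > s` (`nz_le_of`).  So the map `g' ↦ ⌊(x(g') + s')/s⌋` is injective with values in `[0, 2s'/s]`: at most `2 s'/s + 1` elements.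
-/

set_option autoImplicit false

namespace Pool.Agent.H74.MDX

open Finset
open Pool.Agent.H53.MID (nz Rel)

theorem net (W : Finset ℝ) (s : ℝ) (hs : 0 ≤ s) : ∃ Γ ⊆ W, (∀ w ∈ W, ∃ g ∈ Γ, nz (w - g) ≤ s) ∧
    ∀ g ∈ Γ, ∀ g' ∈ Γ, g ≠ g' → s < nz (g - g') := by
  classical
  set A : Finset (Finset ℝ) := W.powerset.filter
    (fun Γ => ∀ g ∈ Γ, ∀ g' ∈ Γ, g ≠ g' → s < nz (g - g')) with hA
  have hne : A.Nonempty := by
    refine ⟨∅, ?_⟩
    rw [hA, Finset.mem_filter, Finset.mem_powerset]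
    exact ⟨Finset.empty_subset _, fun g hg => absurd hg (Finset.notMem_empty g)⟩
  obtain ⟨Γ, hΓ, hmax⟩ := A.exists_max_image (fun Γ => Γ.card) hne
  rw [hA, Finset.mem_filter, Finset.mem_powerset] at hΓ
  refine ⟨Γ, hΓ.1, fun w hw => ?_, hΓ.2⟩
  by_contra hcon
  push Not at hcon
  have hwΓ : w ∉ Γ := by
    intro h
    have h1 := hcon w h
    have h2 := Pool.Agent.H53.MID.nz_le_abs (w - w)
    rw [sub_self, abs_zero] at h2
    rw [sub_self] at h1
    linarith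
  have hins : insert w Γ ∈ A := by
    rw [hA, Finset.mem_filter, Finset.mem_powerset]
    refine ⟨Finset.insert_subset hw hΓ.1, fun g hg g' hg' hgg => ?_⟩
    rw [Finset.mem_insert] at hg hg'
    rcases hg with rfl | hg <;> rcases hg' with rfl | hg'
    · exact absurd rfl hgg
    · exact hcon g' hg'
    · rw [← Pool.Agent.H53.MID.nz_neg, neg_sub]
      exact hcon g hg
    · exact hΓ.2 g hg g' hg' hgg
  have h3 := hmax _ hins
  rw [Finset.card_insert_of_notMem hwΓ] at h3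
  omega

open Classical in
theorem near_card (Γ : Finset ℝ) (s s' : ℝ) (hs : 0 < s) (hs' : 0 ≤ s')
    (hsep : ∀ g ∈ Γ, ∀ g' ∈ Γ, g ≠ g' → s < nz (g - g')) (g : ℝ) :
    ((Γ.filter (fun g' => nz (g - g') ≤ s')).card : ℝ) ≤ 2 * s' / s + 1 := by
  set x : ℝ → ℝ := fun g' => g' - g + round (g - g') with hx
  have hxabs : ∀ g', |x g'| = nz (g - g') := by
    intro g'
    have e : x g' = -((g - g') - round (g - g')) := by rw [hx]; ring
    rw [e, abs_neg]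
    rfl
  have hcard : (Γ.filter (fun g' => nz (g - g') ≤ s')).card ≤
      (Finset.range (⌊2 * s' / s⌋₊ + 1)).card := by
    refine Finset.card_le_card_of_injOn (fun g' => ⌊(x g' + s') / s⌋₊) ?_ ?_
    · intro g' hg'
      rw [Finset.mem_coe, Finset.mem_filter] at hg'
      have h1 := hxabs g'
      have h2 : |x g'| ≤ s' := by rw [h1]; exact hg'.2
      rw [abs_le] at h2
      rw [Finset.mem_coe, Finset.mem_range, Nat.lt_succ_iff]
      refine Nat.floor_le_floor ?_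
      exact div_le_div_of_nonneg_right (by linarith) hs.le
    · intro a ha b hb hab
      rw [Finset.mem_coe, Finset.mem_filter] at ha hb
      by_contra hne
      have h1 := hsep a ha.1 b hb.1 hne
      have ha2 : |x a| ≤ s' := by rw [hxabs]; exact ha.2
      have hb2 : |x b| ≤ s' := by rw [hxabs]; exact hb.2
      rw [abs_le] at ha2 hb2
      have hab' : ⌊(x a + s') / s⌋₊ = ⌊(x b + s') / s⌋₊ := hab
      have ha3 := Nat.floor_le (show 0 ≤ (x a + s') / s from div_nonneg (by linarith) hs.le)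
      have hb3 := Nat.floor_le (show 0 ≤ (x b + s') / s from div_nonneg (by linarith) hs.le)
      have ha4 := Nat.lt_floor_add_one ((x a + s') / s)
      have hb4 := Nat.lt_floor_add_one ((x b + s') / s)
      rw [← hab'] at hb3 hb4
      rw [le_div_iff₀ hs] at ha3 hb3
      rw [div_lt_iff₀ hs] at ha4 hb4
      have h2 : |x a - x b| < s := by
        rw [abs_lt]
        constructor <;> linarith
      have h3 := Pool.Agent.H53.MID.nz_le_of (a - b) (round (g - b) - round (g - a))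
      have e : a - b - ((round (g - b) - round (g - a) : ℤ) : ℝ) = x a - x b := by
        rw [hx]
        push_cast
        ring
      rw [e] at h3
      linarith
  rw [Finset.card_range] at hcard
  have h1 : ((Γ.filter (fun g' => nz (g - g') ≤ s')).card : ℝ) ≤ (⌊2 * s' / s⌋₊ : ℝ) + 1 := by
    exact_mod_cast hcard
  have h2 := Nat.floor_le (show 0 ≤ 2 * s' / s from div_nonneg (by linarith) hs.le)
  linarith

end Pool.Agent.H74.MDX

end

section

/-!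
# MDX Sets: many sets with small intersections

Proof.  `Y = ∑_{g ∈ Γ} |A g| = ∑_{x ∈ U} f(x)`, `f(x) = #{g ∈ Γ : x ∈ A g}`.  Cauchy-Schwarz: `Y^2 ≤ Tot ∑_x f(x)^2 = Tot ∑_{g, g'} |A g ∩ A g'|`.  Near pairs: `|A g ∩ A g'| ≤ |A g|`, at most
`Kn` values `g'` for every `g`: `≤ Kn Y`.  Far pairs: `≤ |Γ|^2 ι`, and `|Γ| m0 ≤ Y`, so `|Γ|^2 ι Tot ≤ Y^2 ι Tot/m0^2 ≤ Y^2/2`.  So `Y^2/2 ≤ Tot Kn Y`.
-/

set_option autoImplicit false

namespace Pool.Agent.H74.MDX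

open Finset

open Classical in
theorem sets_sum {T W : Type*} (Γ : Finset T) (U : Finset W) (A : T → Finset W) (near : T → T → Prop)
    (Tot Kn ι m0 : ℝ) (hA : ∀ g ∈ Γ, A g ⊆ U) (hU : (U.card : ℝ) ≤ Tot) (hm0 : 0 < m0) (hι : 0 ≤ ι) (hKn : 0 ≤ Kn)
    (hlow : ∀ g ∈ Γ, m0 ≤ ((A g).card : ℝ))
    (hnear : ∀ g ∈ Γ, ((Γ.filter (fun g' => near g g')).card : ℝ) ≤ Kn)
    (hfar : ∀ g ∈ Γ, ∀ g' ∈ Γ, ¬ near g g' → ((A g ∩ A g').card : ℝ) ≤ ι)
    (hbig : 2 * Tot * ι ≤ m0 ^ 2) : ∑ g ∈ Γ, ((A g).card : ℝ) ≤ 2 * Kn * Tot := by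
  have hTot : 0 ≤ Tot := le_trans (Nat.cast_nonneg _) hU
  set Y : ℝ := ∑ g ∈ Γ, ((A g).card : ℝ) with hY
  have hY0 : 0 ≤ Y := Finset.sum_nonneg fun g _ => Nat.cast_nonneg _
  have hcard : ∀ g ∈ Γ, ((A g).card : ℝ) = ∑ x ∈ U, (if x ∈ A g then (1 : ℝ) else 0) := by
    intro g hg
    rw [Finset.sum_ite_mem, Finset.inter_eq_right.mpr (hA g hg)]
    simp
  have hYf : Y = ∑ x ∈ U, ∑ g ∈ Γ, (if x ∈ A g then (1 : ℝ) else 0) := by
    rw [hY, Finset.sum_congr rfl hcard, Finset.sum_comm]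
  have hCS : Y ^ 2 ≤ Tot * ∑ x ∈ U, (∑ g ∈ Γ, (if x ∈ A g then (1 : ℝ) else 0)) ^ 2 := by
    rw [hYf]
    refine (sq_sum_le_card_mul_sum_sq).trans ?_
    exact mul_le_mul_of_nonneg_right hU (Finset.sum_nonneg fun x _ => sq_nonneg _)
  have hsq : ∑ x ∈ U, (∑ g ∈ Γ, (if x ∈ A g then (1 : ℝ) else 0)) ^ 2 =
      ∑ g ∈ Γ, ∑ g' ∈ Γ, ((A g ∩ A g').card : ℝ) := by
    have e1 : ∀ x ∈ U, (∑ g ∈ Γ, (if x ∈ A g then (1 : ℝ) else 0)) ^ 2 =
        ∑ g ∈ Γ, ∑ g' ∈ Γ, (if x ∈ A g ∩ A g' then (1 : ℝ) else 0) := by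
      intro x _
      rw [sq, Finset.sum_mul_sum]
      refine Finset.sum_congr rfl fun g _ => Finset.sum_congr rfl fun g' _ => ?_
      by_cases h1 : x ∈ A g <;> by_cases h2 : x ∈ A g' <;> simp [h1, h2]
    rw [Finset.sum_congr rfl e1, Finset.sum_comm]
    refine Finset.sum_congr rfl fun g hg => ?_
    rw [Finset.sum_comm]
    refine Finset.sum_congr rfl fun g' _ => ?_
    rw [Finset.sum_ite_mem, Finset.inter_eq_right.mpr (Finset.inter_subset_left.trans (hA g hg))]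
    simp
  have hsplit : ∀ g ∈ Γ, ∑ g' ∈ Γ, ((A g ∩ A g').card : ℝ) ≤ Kn * (A g).card + Γ.card * ι := by
    intro g hg
    rw [← Finset.sum_filter_add_sum_filter_not Γ (fun g' => near g g')]
    refine add_le_add ?_ ?_
    · calc ∑ g' ∈ Γ.filter (fun g' => near g g'), ((A g ∩ A g').card : ℝ)
          ≤ ∑ g' ∈ Γ.filter (fun g' => near g g'), ((A g).card : ℝ) := by
            refine Finset.sum_le_sum fun g' _ => ?_
            exact_mod_cast Finset.card_le_card Finset.inter_subset_left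
        _ = ((Γ.filter (fun g' => near g g')).card : ℝ) * (A g).card := by
            rw [Finset.sum_const, nsmul_eq_mul]
        _ ≤ Kn * (A g).card := mul_le_mul_of_nonneg_right (hnear g hg) (Nat.cast_nonneg _)
    · calc ∑ g' ∈ Γ.filter (fun g' => ¬ near g g'), ((A g ∩ A g').card : ℝ)
          ≤ ∑ g' ∈ Γ.filter (fun g' => ¬ near g g'), ι := by
            refine Finset.sum_le_sum fun g' hg' => ?_
            rw [Finset.mem_filter] at hg'
            exact hfar g hg g' hg'.1 hg'.2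
        _ = ((Γ.filter (fun g' => ¬ near g g')).card : ℝ) * ι := by
            rw [Finset.sum_const, nsmul_eq_mul]
        _ ≤ Γ.card * ι := by
            refine mul_le_mul_of_nonneg_right ?_ hι
            exact_mod_cast Finset.card_le_card (Finset.filter_subset _ _)
  have hmain : Y ^ 2 ≤ Tot * (Kn * Y + (Γ.card : ℝ) * ((Γ.card : ℝ) * ι)) := by
    refine hCS.trans (mul_le_mul_of_nonneg_left ?_ hTot)
    rw [hsq]
    refine (Finset.sum_le_sum hsplit).trans (le_of_eq ?_)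
    rw [Finset.sum_add_distrib, ← Finset.mul_sum, Finset.sum_const, nsmul_eq_mul]
  have hcY : (Γ.card : ℝ) * m0 ≤ Y := by
    rw [hY, ← nsmul_eq_mul, ← Finset.sum_const]
    exact Finset.sum_le_sum hlow
  have hfarb : Tot * ((Γ.card : ℝ) * ((Γ.card : ℝ) * ι)) ≤ Y ^ 2 / 2 := by
    have h1 : (Γ.card : ℝ) ^ 2 * m0 ^ 2 ≤ Y ^ 2 := by
      rw [← mul_pow]
      exact pow_le_pow_left₀ (by positivity) hcY 2
    have h2 : (Γ.card : ℝ) ^ 2 * (2 * Tot * ι) ≤ (Γ.card : ℝ) ^ 2 * m0 ^ 2 :=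
      mul_le_mul_of_nonneg_left hbig (by positivity)
    nlinarith
  rcases hY0.eq_or_lt with h0 | hpos
  · rw [← h0]; positivity
  · have h3 : Y ^ 2 / 2 ≤ Tot * (Kn * Y) := by nlinarith
    have h4 : Y * Y ≤ (2 * Kn * Tot) * Y := by nlinarith
    exact le_of_mul_le_mul_right h4 hpos

end Pool.Agent.H74.MDX

end

section

/-!
# MDX Clean: a subset of the triples with large minimal degrees

Proof.  Among all `S ⊆ R` (`R.powerset` is finite, nonempty) choose one which maximises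
`f(S) = |S| - m |S.image fst| - k |S.image (·.2.2)|` (real numbers; `Finset.exists_max_image`).  `f(R) ≥ |R| - m |F| - k |G|` because
`R.image fst ⊆ F`, `R.image (·.2.2) ⊆ G`; `|S| ≥ f(S) ≥ f(R)` as `m, k ≥ 0`.  If for some `t ∈ S` fewer than `m` triples `u ∈ S` had `u.1 = t.1`, then
`S' = S.filter (u.1 ≠ t.1)` has `f(S') ≥ |S| - deg - m (|S.image fst| - 1) - k |S.image (·.2.2)| > f(S)`: contradiction.  The same for `.2.2`.
-/

set_option autoImplicit false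

namespace Pool.Agent.H74.MDX

open Finset

private theorem Clean_step (S : Finset (ℕ × ℕ × ℕ)) (φ ψ : ℕ × ℕ × ℕ → ℕ) (m k : ℝ) (hm : 0 ≤ m) (hk : 0 ≤ k)
    (hmax : ∀ T ⊆ S, (T.card : ℝ) - m * (T.image φ).card - k * (T.image ψ).card ≤
      (S.card : ℝ) - m * (S.image φ).card - k * (S.image ψ).card) :
    ∀ t ∈ S, m ≤ ((S.filter (fun u => φ u = φ t)).card : ℝ) := by
  intro t ht
  by_contra hlt
  push Not at hlt
  have h1 := hmax (S.filter (fun u => ¬ φ u = φ t)) (Finset.filter_subset _ _)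
  have h2 : (S.filter (fun u => φ u = φ t)).card + (S.filter (fun u => ¬ φ u = φ t)).card = S.card :=
    Finset.card_filter_add_card_filter_not _
  have h3 : ((S.filter (fun u => ¬ φ u = φ t)).image φ).card + 1 ≤ (S.image φ).card := by
    have h4 : (S.filter (fun u => ¬ φ u = φ t)).image φ ⊆ (S.image φ).erase (φ t) := by
      intro x hx
      rw [Finset.mem_image] at hx
      obtain ⟨u, hu, rfl⟩ := hx
      rw [Finset.mem_filter] at hu
      exact Finset.mem_erase.2 ⟨hu.2, Finset.mem_image_of_mem φ hu.1⟩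
    have h5 := Finset.card_le_card h4
    have h6 := Finset.card_erase_add_one (Finset.mem_image_of_mem φ ht)
    omega
  have h4 : ((S.filter (fun u => ¬ φ u = φ t)).image ψ).card ≤ (S.image ψ).card :=
    Finset.card_le_card (Finset.image_subset_image (Finset.filter_subset _ _))
  have h2' : ((S.filter (fun u => φ u = φ t)).card : ℝ) + ((S.filter (fun u => ¬ φ u = φ t)).card : ℝ) = (S.card : ℝ) := by
    exact_mod_cast h2
  have h3' : (((S.filter (fun u => ¬ φ u = φ t)).image φ).card : ℝ) + 1 ≤ ((S.image φ).card : ℝ) := by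
    exact_mod_cast h3
  have h4' : (((S.filter (fun u => ¬ φ u = φ t)).image ψ).card : ℝ) ≤ ((S.image ψ).card : ℝ) := by
    exact_mod_cast h4
  have h7 := mul_le_mul_of_nonneg_left h3' hm
  have h8 := mul_le_mul_of_nonneg_left h4' hk
  rw [mul_add, mul_one] at h7
  linarith

theorem clean (R : Finset (ℕ × ℕ × ℕ)) (F G : Finset ℕ) (hF : ∀ t ∈ R, t.1 ∈ F) (hG : ∀ t ∈ R, t.2.2 ∈ G)
    (m k : ℝ) (hm : 0 ≤ m) (hk : 0 ≤ k) :
    ∃ S ⊆ R, (R.card : ℝ) - m * F.card - k * G.card ≤ S.card ∧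
      (∀ t ∈ S, m ≤ ((S.filter (fun u => u.1 = t.1)).card : ℝ)) ∧
      (∀ t ∈ S, k ≤ ((S.filter (fun u => u.2.2 = t.2.2)).card : ℝ)) := by
  obtain ⟨S, hS, hmax⟩ := Finset.exists_max_image R.powerset
    (fun S : Finset (ℕ × ℕ × ℕ) => (S.card : ℝ) - m * (S.image (fun u => u.1)).card -
      k * (S.image (fun u => u.2.2)).card) ⟨R, Finset.mem_powerset_self R⟩
  rw [Finset.mem_powerset] at hS
  refine ⟨S, hS, ?_, ?_, ?_⟩
  · have h1 := hmax R (Finset.mem_powerset_self R)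
    have h2 : (R.image (fun u => u.1)).card ≤ F.card := Finset.card_le_card (Finset.image_subset_iff.2 hF)
    have h3 : (R.image (fun u => u.2.2)).card ≤ G.card := Finset.card_le_card (Finset.image_subset_iff.2 hG)
    have h2' : ((R.image (fun u => u.1)).card : ℝ) ≤ (F.card : ℝ) := by exact_mod_cast h2
    have h3' : ((R.image (fun u => u.2.2)).card : ℝ) ≤ (G.card : ℝ) := by exact_mod_cast h3
    have h4 := mul_le_mul_of_nonneg_left h2' hm
    have h5 := mul_le_mul_of_nonneg_left h3' hk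
    have h6 : 0 ≤ m * ((S.image (fun u => u.1)).card : ℝ) := mul_nonneg hm (Nat.cast_nonneg _)
    have h7 : 0 ≤ k * ((S.image (fun u => u.2.2)).card : ℝ) := mul_nonneg hk (Nat.cast_nonneg _)
    linarith
  · exact Clean_step S (fun u => u.1) (fun u => u.2.2) m k hm hk fun T hT =>
      hmax T (Finset.mem_powerset.2 (hT.trans hS))
  · refine Clean_step S (fun u => u.2.2) (fun u => u.1) k m hk hm fun T hT => ?_
    have h1 := hmax T (Finset.mem_powerset.2 (hT.trans hS))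
    linarith

end Pool.Agent.H74.MDX

end

section

/-!
# MDB Defs: the boost (part II of project MDX/MIX)

`L = log N`, `Q = exp(L^t2)`.
* `CombWk t t2`: the weak combinatorial theorem (project MDX of helper74): a rational approximation with denominator `d ≤ Q` on a set `F1` of `≥ n/Q` indices.
* `QS C P U`: the quadruples `((i, p), (i', p'))` with `i, i' ∈ U`, `p, p'` primes in `(P, 2P]`, `|i p' - i' p| ≤ 4 C P`.
* `Cov C n Q η α r U s d b T`: the set `U` is divided into `r ≤ C Q` classes (`s i < r` is the number of the class of `i`); `j`-th class: data `d j ≤ Q`, `b j` prime to `d j`, `|T j| ≤ Q η n^2`, and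
  `nz (α i - b/d - T/i) ≤ Q η` for all `i` of the class.
* `NB C P U δ bb`: the quadruples of `QS` with `p bb(i) ≡ p' bb(i') mod δ`.
* `sres P δ r t = ∑_{P < m ≤ 2P, m ≡ r mod δ} m^(-2πit)`.
* `GG P δ U bb t = ∑_{β mod δ} |∑_{i ∈ U} ∑_{P < m ≤ 2P, (m,δ)=1, m bb(i) ≡ β} (i/m)^(2πit)|^2`.
-/

set_option autoImplicit false

namespace Pool.Agent.H53.MDB

open Finset
open Pool.Agent.H91.PK (ee)
open Pool.Agent.H53.MID (nz Rel)

/-- the weak combinatorial theorem -/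
def CombWk (t t2 : ℝ) : Prop := ∀ (C : ℝ), 1 ≤ C → ∀ C0 : ℕ, ∃ N0 : ℕ, ∀ N : ℕ, N0 ≤ N →
  ∀ (n P : ℕ) (η : ℝ) (F0 G0 : Finset ℕ) (α β : ℕ → ℝ) (R0 : Finset (ℕ × ℕ × ℕ)),
    Real.exp (Real.log N ^ t) ≤ P → P ≤ N → 1 ≤ n → n ≤ N → 0 < η → η * Real.exp (Real.log N ^ t2) * (P : ℝ) ^ 3 ≤ 1 →
    Rel C n P (η * P) F0 G0 α β R0 → n * P / Real.log N ^ C0 ≤ (R0.card : ℝ) →
    ∃ (d b : ℕ) (T : ℝ) (F1 : Finset ℕ), 1 ≤ d ∧ (d : ℝ) ≤ Real.exp (Real.log N ^ t2) ∧ Nat.Coprime b d ∧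
      |T| ≤ Real.exp (Real.log N ^ t2) * η * (n : ℝ) ^ 2 ∧ F1 ⊆ F0 ∧ (n : ℝ) ≤ Real.exp (Real.log N ^ t2) * F1.card ∧
      ∀ i ∈ F1, nz (α i - b / d - T / i) ≤ Real.exp (Real.log N ^ t2) * η

/-- quadruples -/
noncomputable def QS (C : ℝ) (P : ℕ) (U : Finset ℕ) : Finset ((ℕ × ℕ) × (ℕ × ℕ)) := by
  classical
  exact ((U ×ˢ (Ioc P (2 * P)).filter Nat.Prime) ×ˢ (U ×ˢ (Ioc P (2 * P)).filter Nat.Prime)).filter
    (fun q => |(q.1.1 : ℝ) * q.2.2 - q.2.1 * q.1.2| ≤ 4 * C * P)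

theorem mem_QS {C : ℝ} {P : ℕ} {U : Finset ℕ} {q : (ℕ × ℕ) × (ℕ × ℕ)} :
    q ∈ QS C P U ↔ q.1.1 ∈ U ∧ P < q.1.2 ∧ q.1.2 ≤ 2 * P ∧ q.1.2.Prime ∧ q.2.1 ∈ U ∧ P < q.2.2 ∧ q.2.2 ≤ 2 * P ∧ q.2.2.Prime ∧
      |(q.1.1 : ℝ) * q.2.2 - q.2.1 * q.1.2| ≤ 4 * C * P := by
  classical
  unfold QS
  rw [Finset.mem_filter, Finset.mem_product, Finset.mem_product, Finset.mem_product, Finset.mem_filter, Finset.mem_filter,
    Finset.mem_Ioc, Finset.mem_Ioc]
  tauto

/-- the cover of `U` by classes with a common rational approximation -/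
structure Cov (C : ℝ) (n : ℕ) (Q η : ℝ) (α : ℕ → ℝ) (r : ℕ) (U : Finset ℕ) (s d b : ℕ → ℕ) (T : ℕ → ℝ) : Prop where
  cnt : (r : ℝ) ≤ C * Q
  rng : ∀ i ∈ U, (n : ℝ) / C ≤ i ∧ (i : ℝ) ≤ C * n
  lab : ∀ i ∈ U, s i < r
  dat : ∀ j < r, 1 ≤ d j ∧ (d j : ℝ) ≤ Q ∧ Nat.Coprime (b j) (d j) ∧ |T j| ≤ Q * η * (n : ℝ) ^ 2
  frq : ∀ i ∈ U, nz (α i - b (s i) / d (s i) - T (s i) / i) ≤ Q * η

/-- quadruples with the congruence -/
noncomputable def NB (C : ℝ) (P : ℕ) (U : Finset ℕ) (δ : ℕ) (bb : ℕ → ℕ) : Finset ((ℕ × ℕ) × (ℕ × ℕ)) := by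
  classical
  exact (QS C P U).filter (fun q => q.1.2 * bb q.1.1 ≡ q.2.2 * bb q.2.1 [MOD δ])

theorem mem_NB {C : ℝ} {P : ℕ} {U : Finset ℕ} {δ : ℕ} {bb : ℕ → ℕ} {q : (ℕ × ℕ) × (ℕ × ℕ)} :
    q ∈ NB C P U δ bb ↔ q ∈ QS C P U ∧ q.1.2 * bb q.1.1 ≡ q.2.2 * bb q.2.1 [MOD δ] := by
  classical
  unfold NB
  rw [Finset.mem_filter]

/-- integers in a residue class -/
noncomputable def sres (P δ r : ℕ) (t : ℝ) : ℂ :=
  ∑ m ∈ (Ioc P (2 * P)).filter (fun m => m % δ = r % δ), ee (-(t * Real.log m))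

/-- the sum over residue classes of the squares -/
noncomputable def GG (P δ : ℕ) (U : Finset ℕ) (bb : ℕ → ℕ) (t : ℝ) : ℝ :=
  ∑ β ∈ range δ, ‖∑ i ∈ U, ∑ m ∈ (Ioc P (2 * P)).filter (fun m => Nat.Coprime m δ ∧ (m * bb i) % δ = β),
    ee (t * (Real.log i - Real.log m))‖ ^ 2

end Pool.Agent.H53.MDB

end

section

/-!
# MDB PairF: the frequency inequality of a quadruple, and the near quadruples

Let `q = ((i,p),(i',p')) ∈ QS C P U`, `j = s i`, `j' = s i'`, `nz (p α_i - p' α_i') ≤ 2 η P`.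
`pair_f`: `p (b/d + T/i) - p' (b'/d' + T'/i') = [p α_i - p' α_i'] - p [α_i - b/d - T/i] + p' [α_i' - b'/d' - T'/i']`, `nz ≤ 2 η P + 2 P Q η + 2 P Q η ≤ 6 Q η P` (`nz_nat_mul`, `p, p' ≤ 2 P`, `1 ≤ Q`);
`p' T'/i' - p T'/i = T' (p' i - p i')/(i i')`, in absolute value `≤ Q η n^2 · 4 C P · C^2/n^2 = 4 C^3 Q η P` (`i, i' ≥ n/C`).  Together `≤ 10 C^3 Q η P`.
`near`: if moreover `|T - T'| ≤ Z = Q^12 η n` then `|p (T - T')/i| ≤ 2 P Q^12 η n C/n = 2 C Q^12 η P`, so `nz (p b/d - p' b'/d') ≤ 10 C^3 Q η P + 2 C Q^12 η P ≤ 12 C^3 Q^12 η P < 1/Q^2 ≤ 1/(d d')`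
(from `η Q^60 P^3 ≤ 1`, `200 C^10 ≤ Q`, `1 ≤ P`).  `p b/d - p' b'/d' = (p b d' - p' b' d)/(d d')`, so `d d' ∣ p b d' - p' b' d` by `nz_frac_ge`.  Hence `d ∣ p b d'`; `p` is a prime `> P ≥ Q ≥ d` so prime to `d`, and `b` is prime to `d`: `d ∣ d'`.
In the same way `d' ∣ d`, so `d = d'`, and (cancel `d`) `p b ≡ p' b' mod d`.
-/

set_option autoImplicit false

namespace Pool.Agent.H53.MDB

open Finset
open Pool.Agent.H53.MID (nz)

theorem pair_f (C : ℝ) (hC : 1 ≤ C) (n P : ℕ) (Q η : ℝ) (α : ℕ → ℝ) (r : ℕ) (U : Finset ℕ) (s d b : ℕ → ℕ) (T : ℕ → ℝ)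
    (hc : Cov C n Q η α r U s d b T) (hn : 1 ≤ n) (hP : 1 ≤ P) (hQ : 1 ≤ Q) (hη : 0 ≤ η) (q : (ℕ × ℕ) × (ℕ × ℕ)) (hq : q ∈ QS C P U)
    (hf : nz (q.1.2 * α q.1.1 - q.2.2 * α q.2.1) ≤ 2 * η * P) :
    nz (q.1.2 * (b (s q.1.1) / d (s q.1.1)) - q.2.2 * (b (s q.2.1) / d (s q.2.1)) + q.1.2 * (T (s q.1.1) - T (s q.2.1)) / q.1.1)
      ≤ 10 * C ^ 3 * Q * η * P := by
  obtain ⟨hi, hp1, hp2, hpp, hi', hp1', hp2', hpp', hclose⟩ := mem_QS.1 hq
  have hC0 : (0 : ℝ) < C := by linarith only [hC]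
  have hn0 : (0 : ℝ) < n := by exact_mod_cast hn
  have hP0 : (0 : ℝ) < P := by exact_mod_cast hP
  have hr1 := (hc.rng _ hi).1
  have hr2 := (hc.rng _ hi').1
  have hnC : (0 : ℝ) < n / C := div_pos hn0 hC0
  have hi0 : (0 : ℝ) < q.1.1 := lt_of_lt_of_le hnC hr1
  have hi0' : (0 : ℝ) < q.2.1 := lt_of_lt_of_le hnC hr2
  have hf1 := hc.frq _ hi
  have hf2 := hc.frq _ hi'
  have hT' : |T (s q.2.1)| ≤ Q * η * (n : ℝ) ^ 2 := (hc.dat _ (hc.lab _ hi')).2.2.2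
  have hp2R : (q.1.2 : ℝ) ≤ 2 * P := by exact_mod_cast hp2
  have hp2R' : (q.2.2 : ℝ) ≤ 2 * P := by exact_mod_cast hp2'
  have hkey : (q.1.2 : ℝ) * (b (s q.1.1) / d (s q.1.1)) - q.2.2 * (b (s q.2.1) / d (s q.2.1)) +
      q.1.2 * (T (s q.1.1) - T (s q.2.1)) / q.1.1 =
      ((q.1.2 * α q.1.1 - q.2.2 * α q.2.1) -
        q.1.2 * (α q.1.1 - b (s q.1.1) / d (s q.1.1) - T (s q.1.1) / q.1.1)) +
      (q.2.2 * (α q.2.1 - b (s q.2.1) / d (s q.2.1) - T (s q.2.1) / q.2.1) +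
        T (s q.2.1) * (q.1.1 * q.2.2 - q.2.1 * q.1.2) / (q.1.1 * q.2.1)) := by
    field_simp
    ring
  rw [hkey]
  have e1 : nz (q.1.2 * (α q.1.1 - b (s q.1.1) / d (s q.1.1) - T (s q.1.1) / q.1.1)) ≤
      2 * P * (Q * η) := by
    refine (Pool.Agent.H53.MID.nz_nat_mul _ _).trans ?_
    exact mul_le_mul hp2R hf1 (Pool.Agent.H53.MID.nz_nonneg _) (by positivity)
  have e2 : nz (q.2.2 * (α q.2.1 - b (s q.2.1) / d (s q.2.1) - T (s q.2.1) / q.2.1)) ≤
      2 * P * (Q * η) := by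
    refine (Pool.Agent.H53.MID.nz_nat_mul _ _).trans ?_
    exact mul_le_mul hp2R' hf2 (Pool.Agent.H53.MID.nz_nonneg _) (by positivity)
  have e3 : nz (T (s q.2.1) * (q.1.1 * q.2.2 - q.2.1 * q.1.2) / (q.1.1 * q.2.1)) ≤
      4 * C ^ 3 * Q * η * P := by
    refine (Pool.Agent.H53.MID.nz_le_abs _).trans ?_
    rw [abs_div, abs_mul, abs_of_pos (mul_pos hi0 hi0'), div_le_iff₀ (mul_pos hi0 hi0')]
    have h1 : |T (s q.2.1)| * |(q.1.1 : ℝ) * q.2.2 - q.2.1 * q.1.2| ≤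
        (Q * η * (n : ℝ) ^ 2) * (4 * C * P) :=
      mul_le_mul hT' hclose (abs_nonneg _) (by positivity)
    have h2 : (n / C) * (n / C) ≤ (q.1.1 : ℝ) * q.2.1 := mul_le_mul hr1 hr2 hnC.le hi0.le
    have h3 : (Q * η * (n : ℝ) ^ 2) * (4 * C * P) = 4 * C ^ 3 * Q * η * P * ((n / C) * (n / C)) := by
      field_simp
    rw [h3] at h1
    exact h1.trans (mul_le_mul_of_nonneg_left h2 (by positivity))
  have e4 := Pool.Agent.H53.MID.nz_add ((q.1.2 * α q.1.1 - q.2.2 * α q.2.1) -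
        q.1.2 * (α q.1.1 - b (s q.1.1) / d (s q.1.1) - T (s q.1.1) / q.1.1))
      (q.2.2 * (α q.2.1 - b (s q.2.1) / d (s q.2.1) - T (s q.2.1) / q.2.1) +
        T (s q.2.1) * (q.1.1 * q.2.2 - q.2.1 * q.1.2) / (q.1.1 * q.2.1))
  have e5 := Pool.Agent.H53.MID.nz_sub (q.1.2 * α q.1.1 - q.2.2 * α q.2.1)
    (q.1.2 * (α q.1.1 - b (s q.1.1) / d (s q.1.1) - T (s q.1.1) / q.1.1))
  have e6 := Pool.Agent.H53.MID.nz_add (q.2.2 * (α q.2.1 - b (s q.2.1) / d (s q.2.1) - T (s q.2.1) / q.2.1))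
    (T (s q.2.1) * (q.1.1 * q.2.2 - q.2.1 * q.1.2) / (q.1.1 * q.2.1))
  have hC3 : 1 ≤ C ^ 3 := one_le_pow₀ hC
  have hX : 0 ≤ Q * η * P := by positivity
  have f1 : 2 * η * P ≤ 2 * C ^ 3 * (Q * η * P) := by
    have g1 : η * P ≤ Q * (η * P) := le_mul_of_one_le_left (by positivity) hQ
    have g2 : Q * η * P ≤ C ^ 3 * (Q * η * P) := le_mul_of_one_le_left hX hC3
    nlinarith only [g1, g2]
  have f2 : Q * η * P ≤ C ^ 3 * (Q * η * P) := le_mul_of_one_le_left hX hC3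
  nlinarith only [hf, e1, e2, e3, e4, e5, e6, f1, f2]

theorem near (C : ℝ) (hC : 1 ≤ C) (n P : ℕ) (Q η : ℝ) (α : ℕ → ℝ) (r : ℕ) (U : Finset ℕ) (s d b : ℕ → ℕ) (T : ℕ → ℝ)
    (hc : Cov C n Q η α r U s d b T) (hn : 1 ≤ n) (hP : 1 ≤ P) (hQ : 200 * C ^ 10 ≤ Q) (hQP : Q ≤ P) (hη : 0 ≤ η)
    (hηQ : η * Q ^ 60 * (P : ℝ) ^ 3 ≤ 1) (q : (ℕ × ℕ) × (ℕ × ℕ)) (hq : q ∈ QS C P U)
    (hf : nz (q.1.2 * α q.1.1 - q.2.2 * α q.2.1) ≤ 2 * η * P) (hT : |T (s q.1.1) - T (s q.2.1)| ≤ Q ^ 12 * η * n) :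
    d (s q.1.1) = d (s q.2.1) ∧ q.1.2 * b (s q.1.1) ≡ q.2.2 * b (s q.2.1) [MOD d (s q.1.1)] := by
  obtain ⟨hi, hp1, hp2, hpp, hi', hp1', hp2', hpp', hclose⟩ := mem_QS.1 hq
  have hC0 : (0 : ℝ) < C := by linarith only [hC]
  have hn0 : (0 : ℝ) < n := by exact_mod_cast hn
  have hP0 : (0 : ℝ) < P := by exact_mod_cast hP
  have hP1 : (1 : ℝ) ≤ P := by exact_mod_cast hP
  have hC10 : 1 ≤ C ^ 10 := one_le_pow₀ hC
  have hQ1 : 1 ≤ Q := by nlinarith only [hQ, hC10]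
  have hQ0 : 0 < Q := by linarith only [hQ, hC10]
  have hr1 := (hc.rng _ hi).1
  have hnC : (0 : ℝ) < n / C := div_pos hn0 hC0
  have hi0 : (0 : ℝ) < q.1.1 := lt_of_lt_of_le hnC hr1
  have hp2R : (q.1.2 : ℝ) ≤ 2 * P := by exact_mod_cast hp2
  obtain ⟨hd1, hdQ, hbd, -⟩ := hc.dat _ (hc.lab _ hi)
  obtain ⟨hd1', hdQ', hbd', -⟩ := hc.dat _ (hc.lab _ hi')
  have h1 := pair_f C hC n P Q η α r U s d b T hc hn hP hQ1 hη q hq hf
  -- the error of the frequencies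
  have h2 : |(q.1.2 : ℝ) * (T (s q.1.1) - T (s q.2.1)) / q.1.1| ≤ 2 * C * Q ^ 12 * η * P := by
    rw [abs_div, abs_mul, abs_of_pos hi0, div_le_iff₀ hi0, Nat.abs_cast]
    have g1 : (q.1.2 : ℝ) * |T (s q.1.1) - T (s q.2.1)| ≤ (2 * P) * (Q ^ 12 * η * n) :=
      mul_le_mul hp2R hT (abs_nonneg _) (by positivity)
    have g2 : (2 * P) * (Q ^ 12 * η * n) = 2 * C * Q ^ 12 * η * P * (n / C) := by
      field_simp
    rw [g2] at g1
    exact g1.trans (mul_le_mul_of_nonneg_left hr1 (by positivity))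
  have h3 : nz ((q.1.2 : ℝ) * (b (s q.1.1) / d (s q.1.1)) - q.2.2 * (b (s q.2.1) / d (s q.2.1))) ≤
      12 * C ^ 3 * Q ^ 12 * η * P := by
    have g1 : (q.1.2 : ℝ) * (b (s q.1.1) / d (s q.1.1)) - q.2.2 * (b (s q.2.1) / d (s q.2.1)) =
        (q.1.2 * (b (s q.1.1) / d (s q.1.1)) - q.2.2 * (b (s q.2.1) / d (s q.2.1)) +
          q.1.2 * (T (s q.1.1) - T (s q.2.1)) / q.1.1) -
        q.1.2 * (T (s q.1.1) - T (s q.2.1)) / q.1.1 := by ring
    rw [g1]
    refine (Pool.Agent.H53.MID.nz_sub _ _).trans ?_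
    have g2 := (Pool.Agent.H53.MID.nz_le_abs ((q.1.2 : ℝ) * (T (s q.1.1) - T (s q.2.1)) / q.1.1)).trans h2
    have g3 : Q ≤ Q ^ 12 := le_self_pow₀ hQ1 (by norm_num)
    have g4 : C ≤ C ^ 3 := le_self_pow₀ hC (by norm_num)
    have hX : 0 ≤ η * P := by positivity
    have g5 : 10 * C ^ 3 * Q * η * P ≤ 10 * C ^ 3 * Q ^ 12 * η * P := by
      have : C ^ 3 * Q * (η * P) ≤ C ^ 3 * Q ^ 12 * (η * P) :=
        mul_le_mul_of_nonneg_right (mul_le_mul_of_nonneg_left g3 (by positivity)) hX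
      nlinarith only [this]
    have g6 : 2 * C * Q ^ 12 * η * P ≤ 2 * C ^ 3 * Q ^ 12 * η * P := by
      have : C * Q ^ 12 * (η * P) ≤ C ^ 3 * Q ^ 12 * (η * P) :=
        mul_le_mul_of_nonneg_right (mul_le_mul_of_nonneg_right g4 (by positivity)) hX
      nlinarith only [this]
    linarith only [h1, g2, g5, g6]
  have h4 : 12 * C ^ 3 * Q ^ 12 * η * P < 1 / ((d (s q.1.1) * d (s q.2.1) : ℕ) : ℝ) := by
    have hd0 : (0 : ℝ) < d (s q.1.1) := by exact_mod_cast hd1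
    have hd0' : (0 : ℝ) < d (s q.2.1) := by exact_mod_cast hd1'
    rw [Nat.cast_mul, lt_div_iff₀ (mul_pos hd0 hd0')]
    have g1 : (d (s q.1.1) : ℝ) * d (s q.2.1) ≤ Q * Q := mul_le_mul hdQ hdQ' hd0'.le hQ0.le
    have g2 : 12 * C ^ 3 ≤ Q := by
      have : C ^ 3 ≤ C ^ 10 := pow_le_pow_right₀ hC (by norm_num)
      nlinarith only [hQ, hC10, this]
    have g3 : 12 * C ^ 3 * Q ^ 12 * η * P * (d (s q.1.1) * d (s q.2.1)) ≤
        Q * Q ^ 12 * η * P * (Q * Q) := by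
      refine mul_le_mul ?_ g1 (by positivity) (by positivity)
      have : 12 * C ^ 3 * (Q ^ 12 * η * P) ≤ Q * (Q ^ 12 * η * P) :=
        mul_le_mul_of_nonneg_right g2 (by positivity)
      nlinarith only [this]
    refine lt_of_le_of_lt g3 ?_
    rcases hη.eq_or_lt with h0 | h0
    · rw [← h0]; simp
    have hQ2 : 1 < Q := by nlinarith only [hQ, hC10]
    have g4 : Q * Q ^ 12 * η * P * (Q * Q) < η * Q ^ 60 * (P : ℝ) ^ 3 := by
      have k1 : Q ^ 15 < Q ^ 60 := pow_lt_pow_right₀ hQ2 (by norm_num)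
      have k2 : (P : ℝ) ≤ (P : ℝ) ^ 3 := le_self_pow₀ hP1 (by norm_num)
      have k3 : Q ^ 15 * P < Q ^ 60 * (P : ℝ) ^ 3 := by
        calc Q ^ 15 * P < Q ^ 60 * P := mul_lt_mul_of_pos_right k1 hP0
          _ ≤ Q ^ 60 * (P : ℝ) ^ 3 := mul_le_mul_of_nonneg_left k2 (by positivity)
      have k4 := mul_lt_mul_of_pos_left k3 h0
      calc Q * Q ^ 12 * η * P * (Q * Q) = η * (Q ^ 15 * P) := by ring
        _ < η * (Q ^ 60 * (P : ℝ) ^ 3) := k4
        _ = η * Q ^ 60 * (P : ℝ) ^ 3 := by ring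
    exact lt_of_lt_of_le g4 hηQ
  have h5 : (((q.1.2 * b (s q.1.1) * d (s q.2.1) : ℕ) : ℤ) -
      ((q.2.2 * b (s q.2.1) * d (s q.1.1) : ℕ) : ℤ) : ℤ) = _ := rfl
  have hdd : 0 < d (s q.1.1) * d (s q.2.1) := Nat.mul_pos hd1 hd1'
  have h6 : ((d (s q.1.1) * d (s q.2.1) : ℕ) : ℤ) ∣
      ((q.1.2 * b (s q.1.1) * d (s q.2.1) : ℕ) : ℤ) -
      ((q.2.2 * b (s q.2.1) * d (s q.1.1) : ℕ) : ℤ) := by
    by_contra hcon
    have g1 := Pool.Agent.H53.MID.nz_frac_ge _ _ hdd hcon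
    have g2 : ((((q.1.2 * b (s q.1.1) * d (s q.2.1) : ℕ) : ℤ) -
      ((q.2.2 * b (s q.2.1) * d (s q.1.1) : ℕ) : ℤ) : ℤ) : ℝ) /
        ((d (s q.1.1) * d (s q.2.1) : ℕ) : ℝ) =
        (q.1.2 : ℝ) * (b (s q.1.1) / d (s q.1.1)) - q.2.2 * (b (s q.2.1) / d (s q.2.1)) := by
      have hd0 : (d (s q.1.1) : ℝ) ≠ 0 := by
        have : (0 : ℝ) < d (s q.1.1) := by exact_mod_cast hd1
        exact this.ne'
      have hd0' : (d (s q.2.1) : ℝ) ≠ 0 := by
        have : (0 : ℝ) < d (s q.2.1) := by exact_mod_cast hd1'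
        exact this.ne'
      push_cast
      field_simp
    rw [g2] at g1
    linarith only [h3, h4, g1]
  have hPd : ∀ e : ℕ, (e : ℝ) ≤ Q → e ≤ P := by
    intro e he
    have : (e : ℝ) ≤ P := he.trans hQP
    exact_mod_cast this
  have hcop : ∀ (e p : ℕ), 1 ≤ e → (e : ℝ) ≤ Q → p.Prime → P < p → Nat.Coprime e p := by
    intro e p he1 he hp hPp
    rw [Nat.coprime_comm, Nat.Prime.coprime_iff_not_dvd hp]
    intro hdvd
    have := Nat.le_of_dvd (by omega) hdvd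
    have := hPd e he
    omega
  have h7 : d (s q.1.1) ∣ d (s q.2.1) := by
    have g1 : ((d (s q.1.1) : ℕ) : ℤ) ∣ ((q.1.2 * b (s q.1.1) * d (s q.2.1) : ℕ) : ℤ) := by
      have g2 : ((d (s q.1.1) : ℕ) : ℤ) ∣ ((q.1.2 * b (s q.1.1) * d (s q.2.1) : ℕ) : ℤ) -
          ((q.2.2 * b (s q.2.1) * d (s q.1.1) : ℕ) : ℤ) := by
        refine dvd_trans ?_ h6
        exact_mod_cast dvd_mul_right _ _
      have g3 : ((d (s q.1.1) : ℕ) : ℤ) ∣ ((q.2.2 * b (s q.2.1) * d (s q.1.1) : ℕ) : ℤ) := by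
        exact_mod_cast dvd_mul_left _ _
      have g4 := dvd_add g2 g3
      simpa using g4
    have g5 : d (s q.1.1) ∣ q.1.2 * b (s q.1.1) * d (s q.2.1) := by exact_mod_cast g1
    refine Nat.Coprime.dvd_of_dvd_mul_left ?_ g5
    exact Nat.Coprime.mul_right (hcop _ _ hd1 hdQ hpp hp1) hbd.symm
  have h8 : d (s q.2.1) ∣ d (s q.1.1) := by
    have g1 : ((d (s q.2.1) : ℕ) : ℤ) ∣ ((q.2.2 * b (s q.2.1) * d (s q.1.1) : ℕ) : ℤ) := by
      have g2 : ((d (s q.2.1) : ℕ) : ℤ) ∣ ((q.1.2 * b (s q.1.1) * d (s q.2.1) : ℕ) : ℤ) -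
          ((q.2.2 * b (s q.2.1) * d (s q.1.1) : ℕ) : ℤ) := by
        refine dvd_trans ?_ h6
        exact_mod_cast dvd_mul_left _ _
      have g3 : ((d (s q.2.1) : ℕ) : ℤ) ∣ ((q.1.2 * b (s q.1.1) * d (s q.2.1) : ℕ) : ℤ) := by
        exact_mod_cast dvd_mul_left _ _
      have g4 := dvd_sub g3 g2
      simpa using g4
    have g5 : d (s q.2.1) ∣ q.2.2 * b (s q.2.1) * d (s q.1.1) := by exact_mod_cast g1
    refine Nat.Coprime.dvd_of_dvd_mul_left ?_ g5
    exact Nat.Coprime.mul_right (hcop _ _ hd1' hdQ' hpp' hp1') hbd'.symm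
  have h9 : d (s q.1.1) = d (s q.2.1) := Nat.dvd_antisymm h7 h8
  refine ⟨h9, ?_⟩
  rw [← h9] at h6
  have h10 : ((d (s q.1.1) : ℕ) : ℤ) * (d (s q.1.1) : ℕ) ∣
      ((d (s q.1.1) : ℕ) : ℤ) * (((q.1.2 * b (s q.1.1) : ℕ) : ℤ) - ((q.2.2 * b (s q.2.1) : ℕ) : ℤ)) := by
    have g1 : ((d (s q.1.1) : ℕ) : ℤ) *
        (((q.1.2 * b (s q.1.1) : ℕ) : ℤ) - ((q.2.2 * b (s q.2.1) : ℕ) : ℤ)) =
        ((q.1.2 * b (s q.1.1) * d (s q.1.1) : ℕ) : ℤ) -
        ((q.2.2 * b (s q.2.1) * d (s q.1.1) : ℕ) : ℤ) := by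
      push_cast
      ring
    rw [g1]
    have g2 : ((d (s q.1.1) : ℕ) : ℤ) * (d (s q.1.1) : ℕ) =
        ((d (s q.1.1) * d (s q.1.1) : ℕ) : ℤ) := by push_cast; ring
    rw [g2]
    exact h6
  have hd0Z : ((d (s q.1.1) : ℕ) : ℤ) ≠ 0 := by
    have : d (s q.1.1) ≠ 0 := by omega
    exact_mod_cast this
  have h11 := (mul_dvd_mul_iff_left hd0Z).1 h10
  exact (Nat.modEq_iff_dvd.2 h11).symm

end Pool.Agent.H53.MDB

end

section

/-!
# MDB Osc: few indices `i` with `W/i` near an integer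

Proof.  By `nz_neg` we may assume `W > 0` (`nz (-t) = nz t`, replace `W` by `|W|`: `|W|/i = ± W/i`).  For `i ∈ S` let `m(i) = round (W/i)`: `|W/i - m(i)| ≤ κ ≤ 1/2`, so `m(i) ≥ 0` (as `W/i > 0`, `m ≥ -1/2`) and
`m(i) ≤ W C/n + 1/2`.  So the `m(i)` take at most `W C/n + 3/2` values.  Fibre of `m`: if `i < i'` are both in it then `W/i - W/i' ≤ 2κ` and `W/i - W/i' = W (i' - i)/(i i') ≥ W (i' - i)/(C^2 n^2)`, so
`i' - i ≤ 2 κ C^2 n^2/W`: the fibre is contained in an interval of this length and has at most `2 κ C^2 n^2/W + 1` elements.  `S.card ≤ (number of values) * (max fibre)` (`Finset.card_le_mul_card_image` or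
`card_eq_sum_card_fiberwise`).
-/

set_option autoImplicit false

namespace Pool.Agent.H53.MDB

open Finset
open Pool.Agent.H53.MID (nz)

/-- a set of natural numbers of diameter at most `D` -/
private theorem Osc_diam (D : ℝ) (T : Finset ℕ) (hD : 0 ≤ D)
    (hT : ∀ i ∈ T, ∀ i' ∈ T, i < i' → (i' : ℝ) - i ≤ D) : (T.card : ℝ) ≤ D + 1 := by
  rcases T.eq_empty_or_nonempty with h0 | hne
  · rw [h0, Finset.card_empty, Nat.cast_zero]
    linarith
  · obtain ⟨a, ha⟩ : ∃ a, a = T.min' hne := ⟨_, rfl⟩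
    have haT : a ∈ T := by
      rw [ha]
      exact Finset.min'_mem _ _
    have hsub : T ⊆ Finset.Icc a (a + ⌊D⌋₊) := by
      intro i hi
      have h1 : a ≤ i := by
        rw [ha]
        exact Finset.min'_le _ _ hi
      rw [Finset.mem_Icc]
      refine ⟨h1, ?_⟩
      rcases h1.eq_or_lt with h2 | h2
      · omega
      · have h3 := hT a haT i hi h2
        have h4 : ((i - a : ℕ) : ℝ) ≤ D := by
          rw [Nat.cast_sub h1]
          exact h3
        have h5 : i - a ≤ ⌊D⌋₊ := Nat.le_floor h4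
        omega
    have h6 : (T.card : ℝ) ≤ ((⌊D⌋₊ + 1 : ℕ) : ℝ) := by
      have h7 : T.card ≤ ⌊D⌋₊ + 1 := by
        refine (Finset.card_le_card hsub).trans ?_
        rw [Nat.card_Icc]
        omega
      exact_mod_cast h7
    refine h6.trans ?_
    push_cast
    have := Nat.floor_le hD
    linarith

/-- the case of a positive number -/
private theorem Osc_pos (C : ℝ) (hC : 1 ≤ C) (n : ℕ) (W κ : ℝ) (hn : 1 ≤ n) (hW : 0 < W) (hκ : 0 ≤ κ)
    (hκ2 : κ ≤ 1 / 2) (S : Finset ℕ)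
    (hS : ∀ i ∈ S, (n : ℝ) / C ≤ i ∧ (i : ℝ) ≤ C * n ∧ nz (W / i) ≤ κ) :
    (S.card : ℝ) ≤ (C * W / n + 2) * (2 * κ * C ^ 2 * n ^ 2 / W + 1) := by
  have hn0 : (0 : ℝ) < n := by exact_mod_cast hn
  have hC0 : 0 < C := by linarith
  have hD : 0 ≤ 2 * κ * C ^ 2 * (n : ℝ) ^ 2 / W := by positivity
  have hi0 : ∀ i ∈ S, (0 : ℝ) < i := fun i hi => lt_of_lt_of_le (by positivity) (hS i hi).1
  have h1 : (S.card : ℝ) = ∑ m ∈ S.image (fun i : ℕ => round (W / i)),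
      ((S.filter (fun i : ℕ => round (W / i) = m)).card : ℝ) := by
    rw [Finset.card_eq_sum_card_image (fun i : ℕ => round (W / i)) S]
    push_cast
    rfl
  have h2 : ∀ m ∈ S.image (fun i : ℕ => round (W / i)),
      ((S.filter (fun i : ℕ => round (W / i) = m)).card : ℝ) ≤ 2 * κ * C ^ 2 * n ^ 2 / W + 1 := by
    intro m _
    refine Osc_diam _ _ hD fun i hi i' hi' hlt => ?_
    rw [Finset.mem_filter] at hi hi'
    have a1 := (hS i hi.1).2.2
    have a2 := (hS i' hi'.1).2.2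
    unfold nz at a1 a2
    rw [hi.2, abs_le] at a1
    rw [hi'.2, abs_le] at a2
    have b1 := hi0 i hi.1
    have b2 := hi0 i' hi'.1
    have a3 : W / i - W / i' ≤ 2 * κ := by linarith [a1.2, a2.1]
    have a4 : W / i - W / i' = W * ((i' : ℝ) - i) / (i * i') := by
      field_simp
    rw [a4, div_le_iff₀ (by positivity)] at a3
    have a5 : (i : ℝ) * i' ≤ (C * n) * (C * n) :=
      mul_le_mul (hS i hi.1).2.1 (hS i' hi'.1).2.1 b2.le (by positivity)
    rw [le_div_iff₀ hW]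
    have a6 : 2 * κ * ((i : ℝ) * i') ≤ 2 * κ * ((C * n) * (C * n)) :=
      mul_le_mul_of_nonneg_left a5 (by positivity)
    nlinarith
  have h3 : (((S.image (fun i : ℕ => round (W / i))).card : ℕ) : ℝ) ≤ C * W / n + 2 := by
    have h4 : S.image (fun i : ℕ => round (W / i)) ⊆ Finset.Icc (0 : ℤ) ⌊C * W / n + 1 / 2⌋ := by
      intro m hm
      rw [Finset.mem_image] at hm
      obtain ⟨i, hi, rfl⟩ := hm
      obtain ⟨a1, a2, a3⟩ := hS i hi
      have b1 := hi0 i hi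
      unfold nz at a3
      rw [abs_le] at a3
      have c1 : 0 < W / (i : ℝ) := by positivity
      have c2 : W / (i : ℝ) ≤ C * W / n := by
        rw [div_le_iff₀ hC0] at a1
        rw [div_le_div_iff₀ b1 hn0]
        nlinarith
      rw [Finset.mem_Icc]
      constructor
      · have c3 : (-1 : ℝ) < (round (W / (i : ℝ)) : ℝ) := by linarith [a3.2]
        have c4 : (-1 : ℤ) < round (W / (i : ℝ)) := by exact_mod_cast c3
        omega
      · rw [Int.le_floor]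
        linarith [a3.1]
    have h5 := Finset.card_le_card h4
    rw [Int.card_Icc] at h5
    have h6 : (0 : ℤ) ≤ ⌊C * W / n + 1 / 2⌋ := by
      rw [Int.le_floor]
      push_cast
      positivity
    have h7 : ((⌊C * W / n + 1 / 2⌋ + 1 - 0).toNat : ℤ) = ⌊C * W / n + 1 / 2⌋ + 1 := by
      rw [Int.toNat_of_nonneg (by omega)]
      ring
    have h8 : (((S.image (fun i : ℕ => round (W / i))).card : ℤ) : ℝ) ≤ ((⌊C * W / n + 1 / 2⌋ + 1 : ℤ) : ℝ) := by
      have h9 : (((S.image (fun i : ℕ => round (W / i))).card : ℕ) : ℤ) ≤ ⌊C * W / n + 1 / 2⌋ + 1 := by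
        rw [← h7]
        exact_mod_cast h5
      exact_mod_cast h9
    push_cast at h8
    have h10 := Int.floor_le (C * W / n + 1 / 2)
    linarith
  rw [h1]
  refine (Finset.sum_le_sum h2).trans ?_
  rw [Finset.sum_const, nsmul_eq_mul]
  exact mul_le_mul_of_nonneg_right h3 (by linarith)

theorem osc (C : ℝ) (hC : 1 ≤ C) (n : ℕ) (W κ : ℝ) (hn : 1 ≤ n) (hW : W ≠ 0) (hκ : 0 ≤ κ) (hκ2 : κ ≤ 1 / 2) (S : Finset ℕ)
    (hS : ∀ i ∈ S, (n : ℝ) / C ≤ i ∧ (i : ℝ) ≤ C * n ∧ nz (W / i) ≤ κ) :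
    (S.card : ℝ) ≤ (C * |W| / n + 2) * (2 * κ * C ^ 2 * n ^ 2 / |W| + 1) := by
  refine Osc_pos C hC n |W| κ hn (abs_pos.2 hW) hκ hκ2 S fun i hi => ?_
  obtain ⟨a1, a2, a3⟩ := hS i hi
  refine ⟨a1, a2, ?_⟩
  rcases abs_choice W with h | h
  · rw [h]
    exact a3
  · rw [h, neg_div, Pool.Agent.H53.MID.nz_neg]
    exact a3

end Pool.Agent.H53.MDB

end

section

/-!
# MDB Far: few quadruples with `|T - T'| > Z = Q^12 η n`

Proof.  Let `q = ((i,p),(i',p'))` be such a quadruple, `j = s i`, `j' = s i'` (`< r`), `V = d_j d_j' (T_j - T_j')`: `Z < |V| ≤ 2 Q^3 η n^2` (`1 ≤ d_j d_j' ≤ Q^2`, `|T_j - T_j'| ≤ 2 Q η n^2`).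
Multiply `pair_f` by the natural number `d_j d_j' ≤ Q^2` (`nz_nat_mul`); `d_j d_j' (p b_j/d_j - p' b_j'/d_j')` is an integer: `nz (V p/i) ≤ κ := 10 C^3 Q^3 η P`.
For fixed `j, j', p` the set `S` of the `i ∈ U` with `nz (V p/i) ≤ κ` has by `osc` (`W = V p`, `|W| ≤ 4 Q^3 η n^2 P`, `|W| ≥ Z P`) at most
`(C |W|/n + 2)(2 κ C^2 n^2/|W| + 1) = 2 κ C^3 n + C |W|/n + 4 κ C^2 n^2/|W| + 2 ≤ n/Q^6` elements: the four terms are `≤ n/(4 Q^6)` each:
`20 C^6 Q^3 η P n` and `4 C Q^3 η P n`: from `η Q^60 P^3 ≤ 1`, `200 C^10 ≤ Q`, `1 ≤ P`; `4 κ C^2 n^2/|W| ≤ 40 C^5 Q^3 η P n^2/(Q^12 η n P) = 40 C^5 n/Q^9`, `160 C^5 ≤ Q^3`; `2 ≤ n/(4 Q^6)`: `8 Q^6 ≤ n`.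
For given `i, p` there are at most `P (8 C + 1)` pairs `(i', p')`: `p' ∈ (P, 2P]` and `|i' - i p'/p| ≤ 4 C P/p < 4 C` (an interval of length `8 C` contains at most `8 C + 1` integers).
So the number of quadruples is at most `∑_{j, j' < r} ∑_{p ∈ (P,2P]} (n/Q^6) · P (8C+1) ≤ (C Q)^2 P (n/Q^6) P (8 C + 1) ≤ n P^2/Q^3` (`9 C^3 ≤ Q`).
Formalization hint: the set of quadruples is contained in the union over `(j, j') ∈ range r × range r` with `|T_j - T_j'| > Z` and `p ∈ Ioc P (2P)` of the sets `{q : q.1.2 = p, q.1.1 ∈ S_{j,j',p}, q.2 ∈ E(q.1)}` (`Finset.card_biUnion_le`).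
-/

set_option autoImplicit false

namespace Pool.Agent.H53.MDB

open Finset
open Pool.Agent.H53.MID (nz)

private theorem Far_fib {α β : Type*} [DecidableEq β] (A : Finset α) (g : α → β) (B : Finset β) (M : ℝ)
    (h : ∀ a ∈ A, g a ∈ B) (hM : ∀ b ∈ B, ((A.filter (fun a => g a = b)).card : ℝ) ≤ M) :
    (A.card : ℝ) ≤ B.card * M := by
  rw [Finset.card_eq_sum_card_fiberwise h]
  push_cast
  refine (Finset.sum_le_sum hM).trans ?_
  rw [Finset.sum_const, nsmul_eq_mul]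

private theorem Far_card (S : Finset ℕ) (a L : ℝ) (hL : 0 ≤ L) (h : ∀ x ∈ S, |(x : ℝ) - a| ≤ L) :
    (S.card : ℝ) ≤ 2 * L + 1 := by
  rcases S.eq_empty_or_nonempty with h0 | h0
  · rw [h0, Finset.card_empty]
    push_cast
    linarith
  · have h1 : S ⊆ Finset.Icc (S.min' h0) (S.max' h0) := fun x hx =>
      Finset.mem_Icc.2 ⟨S.min'_le x hx, S.le_max' x hx⟩
    have h2 := Finset.card_le_card h1
    rw [Nat.card_Icc] at h2
    have h3 := abs_le.1 (h _ (S.min'_mem h0))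
    have h4 := abs_le.1 (h _ (S.max'_mem h0))
    have h5 : S.min' h0 ≤ S.max' h0 := S.min'_le _ (S.max'_mem h0)
    have h6 : (S.card : ℝ) ≤ (S.max' h0 : ℝ) + 1 - S.min' h0 := by
      have h7 : S.card + S.min' h0 ≤ S.max' h0 + 1 := by omega
      have h8 : ((S.card + S.min' h0 : ℕ) : ℝ) ≤ ((S.max' h0 + 1 : ℕ) : ℝ) := by exact_mod_cast h7
      push_cast at h8
      linarith
    linarith [h3.1, h4.2]

private theorem Far_Q {C Q : ℝ} (hC : 1 ≤ C) (hQ : 200 * C ^ 10 ≤ Q) : 200 ≤ Q ∧ 200 * C ^ 6 ≤ Q ∧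
    200 * C ^ 5 ≤ Q ∧ 200 * C ^ 3 ≤ Q ∧ 200 * C ≤ Q := by
  have h1 : (1 : ℝ) ≤ C ^ 10 := one_le_pow₀ hC
  have h2 : C ^ 6 ≤ C ^ 10 := pow_le_pow_right₀ hC (by norm_num)
  have h3 : C ^ 5 ≤ C ^ 10 := pow_le_pow_right₀ hC (by norm_num)
  have h4 : C ^ 3 ≤ C ^ 10 := pow_le_pow_right₀ hC (by norm_num)
  have h5 : C ^ 1 ≤ C ^ 10 := pow_le_pow_right₀ hC (by norm_num)
  rw [pow_one] at h5
  refine ⟨?_, ?_, ?_, ?_, ?_⟩ <;> linarith

private theorem Far_num {C Q n P η w : ℝ} (hC : 1 ≤ C) (hQ : 200 * C ^ 10 ≤ Q) (hP : 1 ≤ P) (hQn : 8 * Q ^ 6 ≤ n)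
    (hη : 0 < η) (hηQ : η * Q ^ 60 * P ^ 3 ≤ 1) (hw1 : Q ^ 12 * η * n * P ≤ w) (hw2 : w ≤ 4 * Q ^ 3 * η * n ^ 2 * P) :
    10 * C ^ 3 * Q ^ 3 * η * P ≤ 1 / 2 ∧
    (C * w / n + 2) * (2 * (10 * C ^ 3 * Q ^ 3 * η * P) * C ^ 2 * n ^ 2 / w + 1) ≤ n / Q ^ 6 := by
  obtain ⟨hQ0, hQ6, hQ5, hQ3, hQC⟩ := Far_Q hC hQ
  have hQp : 0 < Q := by linarith
  have hQ1 : 1 ≤ Q := by linarith
  have hCp : 0 < C := by linarith
  have hPp : 0 < P := by linarith
  have hn : 0 < n := lt_of_lt_of_le (by positivity) hQn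
  have hwp : 0 < w := lt_of_lt_of_le (by positivity) hw1
  obtain ⟨e, he⟩ : ∃ e : ℝ, e = η * P := ⟨_, rfl⟩
  have hep : 0 < e := by
    rw [he]
    positivity
  have he60 : Q ^ 60 * e ≤ 1 := by
    have h1 : P ≤ P ^ 3 := by
      have := pow_le_pow_right₀ hP (show 1 ≤ 3 by norm_num)
      rwa [pow_one] at this
    have h2 : η * Q ^ 60 * P ≤ η * Q ^ 60 * P ^ 3 := mul_le_mul_of_nonneg_left h1 (by positivity)
    rw [he]
    linarith
  have hpow : ∀ k : ℕ, k ≤ 60 → Q ^ k * e ≤ 1 := fun k hk =>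
    (mul_le_mul_of_nonneg_right (pow_le_pow_right₀ hQ1 hk) hep.le).trans he60
  have k1 : 80 * C ^ 6 * Q ^ 9 * e ≤ 1 := by
    have h1 : 80 * C ^ 6 ≤ Q := by
      have : 0 ≤ C ^ 6 := by positivity
      linarith
    have h2 : 80 * C ^ 6 * (Q ^ 9 * e) ≤ Q * (Q ^ 9 * e) := mul_le_mul_of_nonneg_right h1 (by positivity)
    have h3 := hpow 10 (by norm_num)
    calc 80 * C ^ 6 * Q ^ 9 * e = 80 * C ^ 6 * (Q ^ 9 * e) := by ring
      _ ≤ Q * (Q ^ 9 * e) := h2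
      _ = Q ^ 10 * e := by ring
      _ ≤ 1 := h3
  have k2 : 16 * C * Q ^ 9 * e ≤ 1 := by
    have h1 : 16 * C ≤ Q := by linarith
    have h2 : 16 * C * (Q ^ 9 * e) ≤ Q * (Q ^ 9 * e) := mul_le_mul_of_nonneg_right h1 (by positivity)
    have h3 := hpow 10 (by norm_num)
    calc 16 * C * Q ^ 9 * e = 16 * C * (Q ^ 9 * e) := by ring
      _ ≤ Q * (Q ^ 9 * e) := h2
      _ = Q ^ 10 * e := by ring
      _ ≤ 1 := h3
  have k3 : 160 * C ^ 5 ≤ Q ^ 3 := by
    have h1 : Q ≤ Q ^ 3 := by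
      have := pow_le_pow_right₀ hQ1 (show 1 ≤ 3 by norm_num)
      rwa [pow_one] at this
    have : 0 ≤ C ^ 5 := by positivity
    linarith
  have k0 : 20 * C ^ 3 * Q ^ 3 * e ≤ 1 := by
    have h1 : 20 * C ^ 3 ≤ Q := by
      have : 0 ≤ C ^ 3 := by positivity
      linarith
    have h2 : 20 * C ^ 3 * (Q ^ 3 * e) ≤ Q * (Q ^ 3 * e) := mul_le_mul_of_nonneg_right h1 (by positivity)
    have h3 := hpow 4 (by norm_num)
    calc 20 * C ^ 3 * Q ^ 3 * e = 20 * C ^ 3 * (Q ^ 3 * e) := by ring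
      _ ≤ Q * (Q ^ 3 * e) := h2
      _ = Q ^ 4 * e := by ring
      _ ≤ 1 := h3
  have hκ : 10 * C ^ 3 * Q ^ 3 * η * P = 10 * C ^ 3 * Q ^ 3 * e := by
    rw [he]
    ring
  rw [hκ]
  refine ⟨by linarith, ?_⟩
  have hw1' : Q ^ 12 * n * e ≤ w := by
    rw [he]
    calc Q ^ 12 * n * (η * P) = Q ^ 12 * η * n * P := by ring
      _ ≤ w := hw1
  have hw2' : w ≤ 4 * Q ^ 3 * n ^ 2 * e := by
    rw [he]
    calc w ≤ 4 * Q ^ 3 * η * n ^ 2 * P := hw2
      _ = _ := by ring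
  have t1 : C * w / n * (2 * (10 * C ^ 3 * Q ^ 3 * e) * C ^ 2 * n ^ 2 / w) = 20 * C ^ 6 * Q ^ 3 * e * n := by
    field_simp
    ring
  have t1' : 20 * C ^ 6 * Q ^ 3 * e * n ≤ n / Q ^ 6 / 4 := by
    have h1 : 20 * C ^ 6 * Q ^ 3 * e * n = (80 * C ^ 6 * Q ^ 9 * e) * (n / Q ^ 6 / 4) := by
      field_simp
      ring
    rw [h1]
    exact mul_le_of_le_one_left (by positivity) k1
  have t2 : C * w / n ≤ n / Q ^ 6 / 4 := by
    rw [div_le_iff₀ hn]
    have h1 : C * (4 * Q ^ 3 * n ^ 2 * e) = (16 * C * Q ^ 9 * e) * (n / Q ^ 6 / 4 * n) := by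
      field_simp
      ring
    calc C * w ≤ C * (4 * Q ^ 3 * n ^ 2 * e) := mul_le_mul_of_nonneg_left hw2' hCp.le
      _ = (16 * C * Q ^ 9 * e) * (n / Q ^ 6 / 4 * n) := h1
      _ ≤ n / Q ^ 6 / 4 * n := mul_le_of_le_one_left (by positivity) k2
  have t3 : 2 * (2 * (10 * C ^ 3 * Q ^ 3 * e) * C ^ 2 * n ^ 2 / w) ≤ n / Q ^ 6 / 4 := by
    have h0 : 2 * (2 * (10 * C ^ 3 * Q ^ 3 * e) * C ^ 2 * n ^ 2 / w) = (40 * C ^ 5 * Q ^ 3 * e * n ^ 2) / w := by
      ring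
    rw [h0, div_le_iff₀ hwp]
    have h1 : n / Q ^ 6 / 4 * (Q ^ 12 * n * e) = Q ^ 3 * (Q ^ 3 * e * n ^ 2 / 4) := by
      field_simp
    calc 40 * C ^ 5 * Q ^ 3 * e * n ^ 2 = 160 * C ^ 5 * (Q ^ 3 * e * n ^ 2 / 4) := by ring
      _ ≤ Q ^ 3 * (Q ^ 3 * e * n ^ 2 / 4) := mul_le_mul_of_nonneg_right k3 (by positivity)
      _ = n / Q ^ 6 / 4 * (Q ^ 12 * n * e) := h1.symm
      _ ≤ n / Q ^ 6 / 4 * w := mul_le_mul_of_nonneg_left hw1' (by positivity)
  have t4 : 2 ≤ n / Q ^ 6 / 4 := by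
    rw [le_div_iff₀ (by norm_num : (0 : ℝ) < 4), le_div_iff₀ (by positivity)]
    linarith
  calc (C * w / n + 2) * (2 * (10 * C ^ 3 * Q ^ 3 * e) * C ^ 2 * n ^ 2 / w + 1)
      = C * w / n * (2 * (10 * C ^ 3 * Q ^ 3 * e) * C ^ 2 * n ^ 2 / w) + C * w / n +
        2 * (2 * (10 * C ^ 3 * Q ^ 3 * e) * C ^ 2 * n ^ 2 / w) + 2 := by ring
    _ ≤ n / Q ^ 6 := by
      rw [t1]
      linarith

open Classical in
theorem far (C : ℝ) (hC : 1 ≤ C) (n P : ℕ) (Q η : ℝ) (α : ℕ → ℝ) (r : ℕ) (U : Finset ℕ) (s d b : ℕ → ℕ) (T : ℕ → ℝ)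
    (hc : Cov C n Q η α r U s d b T) (hP : 1 ≤ P) (hQ : 200 * C ^ 10 ≤ Q) (hQn : 8 * Q ^ 6 ≤ n) (hη : 0 < η)
    (hηQ : η * Q ^ 60 * (P : ℝ) ^ 3 ≤ 1) :
    (((QS C P U).filter (fun q => nz (q.1.2 * α q.1.1 - q.2.2 * α q.2.1) ≤ 2 * η * P ∧
      Q ^ 12 * η * n < |T (s q.1.1) - T (s q.2.1)|)).card : ℝ) ≤ n * P ^ 2 / Q ^ 3 := by
  obtain ⟨hQ0, hQ6, hQ5, hQ3, hQC⟩ := Far_Q hC hQ
  have hQp : 0 < Q := by linarith
  have hQ1 : 1 ≤ Q := by linarith
  have hCp : 0 < C := by linarith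
  have hP' : (1 : ℝ) ≤ P := by exact_mod_cast hP
  have hPp : (0 : ℝ) < P := by linarith
  have hnp : (0 : ℝ) < n := lt_of_lt_of_le (by positivity) hQn
  have hn : 1 ≤ n := by
    have : 0 < n := by exact_mod_cast hnp
    omega
  obtain ⟨A, hA⟩ : ∃ A, A = (QS C P U).filter (fun q => nz (q.1.2 * α q.1.1 - q.2.2 * α q.2.1) ≤ 2 * η * P ∧
      Q ^ 12 * η * n < |T (s q.1.1) - T (s q.2.1)|) := ⟨_, rfl⟩
  rw [← hA]
  have hAm : ∀ q ∈ A, q ∈ QS C P U ∧ nz (q.1.2 * α q.1.1 - q.2.2 * α q.2.1) ≤ 2 * η * P ∧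
      Q ^ 12 * η * n < |T (s q.1.1) - T (s q.2.1)| := by
    intro q hq
    rw [hA, Finset.mem_filter] at hq
    exact hq
  have hlev : ∀ x ∈ range r ×ˢ range r ×ˢ Ioc P (2 * P),
      ((A.filter (fun q => (s q.1.1, s q.2.1, q.1.2) = x)).card : ℝ) ≤ (n / Q ^ 6) * (P * (8 * C + 1)) := by
    rintro ⟨j, j', p⟩ hx
    rw [mem_product, mem_product, mem_range, mem_range, mem_Ioc] at hx
    obtain ⟨hj, hj', hp1, hp2⟩ := hx
    have hp1' : (P : ℝ) < p := by exact_mod_cast hp1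
    have hp2' : (p : ℝ) ≤ 2 * P := by exact_mod_cast hp2
    have hpp : (0 : ℝ) < p := by linarith
    obtain ⟨A1, hA1⟩ : ∃ A1, A1 = A.filter (fun q => (s q.1.1, s q.2.1, q.1.2) = (j, j', p)) := ⟨_, rfl⟩
    rw [← hA1]
    have hA1m : ∀ q ∈ A1, q ∈ A ∧ s q.1.1 = j ∧ s q.2.1 = j' ∧ q.1.2 = p := by
      intro q hq
      rw [hA1, Finset.mem_filter, Prod.mk.injEq, Prod.mk.injEq] at hq
      exact hq
    have hfib3 : ∀ i ∈ A1.image (fun q => q.1.1), ((A1.filter (fun q => q.1.1 = i)).card : ℝ) ≤ P * (8 * C + 1) := by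
      intro i _
      obtain ⟨A2, hA2⟩ : ∃ A2, A2 = A1.filter (fun q => q.1.1 = i) := ⟨_, rfl⟩
      rw [← hA2]
      have hA2m : ∀ q ∈ A2, q ∈ A1 ∧ q.1.1 = i := by
        intro q hq
        rw [hA2, Finset.mem_filter] at hq
        exact hq
      have h4 : ∀ p' ∈ Ioc P (2 * P), ((A2.filter (fun q => q.2.2 = p')).card : ℝ) ≤ 8 * C + 1 := by
        intro p' _
        obtain ⟨A3, hA3⟩ : ∃ A3, A3 = A2.filter (fun q => q.2.2 = p') := ⟨_, rfl⟩
        rw [← hA3]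
        have hA3m : ∀ q ∈ A3, q ∈ A2 ∧ q.2.2 = p' := by
          intro q hq
          rw [hA3, Finset.mem_filter] at hq
          exact hq
        have hinj : Set.InjOn (fun q : (ℕ × ℕ) × (ℕ × ℕ) => q.2.1) (A3 : Set ((ℕ × ℕ) × (ℕ × ℕ))) := by
          intro q hq q' hq' h
          have hq := Finset.mem_coe.1 hq
          have hq' := Finset.mem_coe.1 hq'
          have a1 := hA3m q hq
          have a2 := hA3m q' hq'
          have b1 := hA2m q a1.1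
          have b2 := hA2m q' a2.1
          have c1 := hA1m q b1.1
          have c2 := hA1m q' b2.1
          exact Prod.ext (Prod.ext (b1.2.trans b2.2.symm) (c1.2.2.2.trans c2.2.2.2.symm))
            (Prod.ext h (a1.2.trans a2.2.symm))
        rw [← Finset.card_image_of_injOn hinj]
        have h5 := Far_card (A3.image (fun q => q.2.1)) ((i : ℝ) * p' / p) (4 * C) (by positivity) (by
          intro x hx
          obtain ⟨q, hq, hqx⟩ := Finset.mem_image.1 hx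
          have a1 := hA3m q hq
          have b1 := hA2m q a1.1
          have c1 := hA1m q b1.1
          have d1 := (mem_QS.1 (hAm q c1.1).1).2.2.2.2.2.2.2.2
          rw [a1.2, b1.2, c1.2.2.2] at d1
          have hqx' : q.2.1 = x := hqx
          rw [hqx'] at d1
          have e1 : (x : ℝ) - (i : ℝ) * p' / p = -(((i : ℝ) * p' - x * p) / p) := by
            field_simp
            ring
          rw [e1, abs_neg, abs_div, abs_of_pos hpp, div_le_iff₀ hpp]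
          refine d1.trans ?_
          exact mul_le_mul_of_nonneg_left hp1'.le (by positivity))
        linarith
      have h5 := Far_fib A2 (fun q => q.2.2) (Ioc P (2 * P)) (8 * C + 1) (by
        intro q hq
        have b1 := hA2m q hq
        have c1 := hA1m q b1.1
        have d1 := mem_QS.1 (hAm q c1.1).1
        exact mem_Ioc.2 ⟨d1.2.2.2.2.2.1, d1.2.2.2.2.2.2.1⟩) h4
      rw [Nat.card_Ioc] at h5
      have e1 : 2 * P - P = P := by omega
      rw [e1] at h5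
      exact h5
    have hM := Far_fib A1 (fun q => q.1.1) (A1.image (fun q => q.1.1)) (P * (8 * C + 1))
      (fun q hq => Finset.mem_image_of_mem _ hq) hfib3
    refine hM.trans (mul_le_mul_of_nonneg_right ?_ (by positivity))
    rcases A1.eq_empty_or_nonempty with h0 | ⟨q0, hq0⟩
    · rw [h0, Finset.image_empty, Finset.card_empty]
      push_cast
      positivity
    · have hq1 := hA1m q0 hq0
      have hZ := (hAm q0 hq1.1).2.2
      rw [hq1.2.1, hq1.2.2.1] at hZ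
      obtain ⟨hd1, hd2, _, hd4⟩ := hc.dat j hj
      obtain ⟨hd1', hd2', _, hd4'⟩ := hc.dat j' hj'
      have hdj : (1 : ℝ) ≤ d j := by exact_mod_cast hd1
      have hdj' : (1 : ℝ) ≤ d j' := by exact_mod_cast hd1'
      obtain ⟨W, hW⟩ : ∃ W : ℝ, W = ((d j * d j' : ℕ) : ℝ) * (T j - T j') * p := ⟨_, rfl⟩
      have hWabs : |W| = ((d j : ℝ) * d j') * |T j - T j'| * p := by
        rw [hW, abs_mul, abs_mul, abs_of_pos hpp]
        push_cast
        rw [abs_of_nonneg (show (0 : ℝ) ≤ (d j : ℝ) * d j' by positivity)]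
      have hDD : (d j : ℝ) * d j' ≤ Q * Q := mul_le_mul hd2 hd2' (by positivity) hQp.le
      have hDD1 : (1 : ℝ) ≤ (d j : ℝ) * d j' := one_le_mul_of_one_le_of_one_le hdj hdj'
      have hTT : |T j - T j'| ≤ 2 * (Q * η * (n : ℝ) ^ 2) := by
        refine (abs_sub _ _).trans ?_
        linarith
      have hw1 : Q ^ 12 * η * n * P ≤ |W| := by
        rw [hWabs]
        have h5 : Q ^ 12 * η * n ≤ ((d j : ℝ) * d j') * |T j - T j'| := by
          have h6 : 1 * |T j - T j'| ≤ ((d j : ℝ) * d j') * |T j - T j'| :=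
            mul_le_mul_of_nonneg_right hDD1 (abs_nonneg _)
          linarith
        exact mul_le_mul h5 hp1'.le hPp.le (by positivity)
      have hw2 : |W| ≤ 4 * Q ^ 3 * η * (n : ℝ) ^ 2 * P := by
        rw [hWabs]
        calc ((d j : ℝ) * d j') * |T j - T j'| * p
            ≤ (Q * Q) * (2 * (Q * η * (n : ℝ) ^ 2)) * (2 * P) := by
              apply mul_le_mul _ hp2' hpp.le (by positivity)
              exact mul_le_mul hDD hTT (abs_nonneg _) (by positivity)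
          _ = 4 * Q ^ 3 * η * (n : ℝ) ^ 2 * P := by ring
      obtain ⟨hκ2, hnum⟩ := Far_num (n := (n : ℝ)) (P := (P : ℝ)) hC hQ hP' hQn hη hηQ hw1 hw2
      have hW0 : W ≠ 0 := by
        intro h5
        rw [h5, abs_zero] at hw1
        have : 0 < Q ^ 12 * η * n * P := by positivity
        linarith
      have hosc := osc C hC n W (10 * C ^ 3 * Q ^ 3 * η * P) hn hW0 (by positivity) hκ2
        (A1.image (fun q => q.1.1)) (by
          intro i hi
          obtain ⟨q, hq, hqi⟩ := Finset.mem_image.1 hi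
          have hqi' : q.1.1 = i := hqi
          have c1 := hA1m q hq
          have a1 := hAm q c1.1
          have u1 := (mem_QS.1 a1.1).1
          rw [hqi'] at u1
          have hr := hc.rng i u1
          have hi0 : (0 : ℝ) < i := lt_of_lt_of_le (by positivity) hr.1
          refine ⟨hr.1, hr.2, ?_⟩
          have hp := pair_f C hC n P Q η α r U s d b T hc hn hP hQ1 hη.le q a1.1 a1.2.1
          rw [c1.2.1, c1.2.2.1, c1.2.2.2, hqi'] at hp
          have hk := Pool.Agent.H53.MID.nz_nat_mul (d j * d j') ((p : ℝ) * (b j / d j) - q.2.2 * (b j' / d j') + p * (T j - T j') / i)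
          have e1 : ((d j * d j' : ℕ) : ℝ) * ((p : ℝ) * (b j / d j) - q.2.2 * (b j' / d j') + p * (T j - T j') / i) =
              W / i + (((d j' * p * b j : ℤ) - (d j * q.2.2 * b j' : ℤ) : ℤ) : ℝ) := by
            rw [hW]
            push_cast
            field_simp
            ring
          rw [e1, Pool.Agent.H53.MID.nz_add_int] at hk
          refine hk.trans ?_
          push_cast
          calc (d j : ℝ) * d j' * nz ((p : ℝ) * (b j / d j) - q.2.2 * (b j' / d j') + p * (T j - T j') / i)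
              ≤ (Q * Q) * (10 * C ^ 3 * Q * η * P) := mul_le_mul hDD hp (Pool.Agent.H53.MID.nz_nonneg _) (by positivity)
            _ = 10 * C ^ 3 * Q ^ 3 * η * P := by ring)
      exact hosc.trans hnum
  have hfin := Far_fib A (fun q => (s q.1.1, s q.2.1, q.1.2)) (range r ×ˢ range r ×ˢ Ioc P (2 * P))
    ((n / Q ^ 6) * (P * (8 * C + 1))) (by
      intro q hq
      have a1 := mem_QS.1 (hAm q hq).1
      rw [mem_product, mem_product, mem_range, mem_range, mem_Ioc]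
      exact ⟨hc.lab _ a1.1, hc.lab _ a1.2.2.2.2.1, a1.2.1, a1.2.2.1⟩) hlev
  refine hfin.trans ?_
  rw [card_product, card_product, card_range, Nat.card_Ioc]
  have e1 : 2 * P - P = P := by omega
  rw [e1]
  push_cast
  have hr := hc.cnt
  have hr2 : (r : ℝ) * r ≤ (C * Q) * (C * Q) := mul_le_mul hr hr (Nat.cast_nonneg _) (by positivity)
  have hC3 : C ^ 2 * (8 * C + 1) ≤ Q := by
    have h5 : C ^ 2 * 1 ≤ C ^ 2 * C := mul_le_mul_of_nonneg_left hC (by positivity)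
    have h6 : 0 ≤ C ^ 3 := by positivity
    have h7 : C ^ 2 * C = C ^ 3 := by ring
    have h8 : C ^ 2 * (8 * C + 1) = 8 * C ^ 3 + C ^ 2 * 1 := by ring
    rw [h8]
    rw [h7] at h5
    linarith
  calc (r : ℝ) * (r * P) * (n / Q ^ 6 * (P * (8 * C + 1)))
      = (r * r) * (P * (n / Q ^ 6 * (P * (8 * C + 1)))) := by ring
    _ ≤ ((C * Q) * (C * Q)) * (P * (n / Q ^ 6 * (P * (8 * C + 1)))) :=
        mul_le_mul_of_nonneg_right hr2 (by positivity)
    _ = (C ^ 2 * (8 * C + 1)) * (n * P ^ 2 / Q ^ 4) := by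
        field_simp
    _ ≤ Q * (n * P ^ 2 / Q ^ 4) := mul_le_mul_of_nonneg_right hC3 (by positivity)
    _ = n * P ^ 2 / Q ^ 3 := by
        field_simp

end Pool.Agent.H53.MDB

end

section

/-!
# MDB Split: division of `U` according to the denominator and the size of `T`

Proof.  `K` = image of `U` under `i ↦ (⌊T i/Z⌋, D i)`.  If `D i = D i'` and `|T i - T i'| ≤ Z`, let (by symmetry) `T i ≤ T i'`, `m = ⌊T i/Z⌋`: `m Z ≤ T i ≤ T i' ≤ T i + Z < (m + 2) Z`.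
Sum: every `i ∈ U` belongs to `Uk k` only for `k.2 = D i` and `k.1 Z ≤ T i < (k.1 + 2) Z`, i.e. `k.1 ∈ {⌊T i/Z⌋, ⌊T i/Z⌋ - 1}`: for at most two `k` (swap the sums, `Finset.sum_comm`, `card_filter`).
-/

set_option autoImplicit false

namespace Pool.Agent.H53.MDB

open Finset

private theorem Split_floor (Z t : ℝ) (hZ : 0 < Z) : (⌊t / Z⌋ : ℝ) * Z ≤ t ∧ t < ((⌊t / Z⌋ : ℝ) + 1) * Z := by
  constructor
  · have h := Int.floor_le (t / Z)
    rwa [le_div_iff₀ hZ] at h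
  · have h := Int.lt_floor_add_one (t / Z)
    rwa [div_lt_iff₀ hZ] at h

open Classical in
private theorem Split_two (Z : ℝ) (hZ : 0 < Z) (K : Finset (ℤ × ℕ)) (t : ℝ) (D : ℕ) :
    (K.filter (fun k => D = k.2 ∧ (k.1 : ℝ) * Z ≤ t ∧ t < ((k.1 : ℝ) + 2) * Z)).card ≤ 2 := by
  have hsub : K.filter (fun k => D = k.2 ∧ (k.1 : ℝ) * Z ≤ t ∧ t < ((k.1 : ℝ) + 2) * Z) ⊆
      {(⌊t / Z⌋, D), (⌊t / Z⌋ - 1, D)} := by
    rintro ⟨m, d⟩ hk
    rw [Finset.mem_filter] at hk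
    obtain ⟨-, h1, h2, h3⟩ := hk
    simp only at h1 h2 h3
    obtain ⟨f1, f2⟩ := Split_floor Z t hZ
    have a1 : (m : ℝ) < (⌊t / Z⌋ : ℝ) + 1 := lt_of_mul_lt_mul_right (lt_of_le_of_lt h2 f2) hZ.le
    have a2 : (⌊t / Z⌋ : ℝ) < (m : ℝ) + 2 := lt_of_mul_lt_mul_right (lt_of_le_of_lt f1 h3) hZ.le
    have b1 : m < ⌊t / Z⌋ + 1 := by exact_mod_cast a1
    have b2 : ⌊t / Z⌋ < m + 2 := by exact_mod_cast a2
    simp only [Finset.mem_insert, Finset.mem_singleton, Prod.mk.injEq]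
    subst h1
    rcases (by omega : m = ⌊t / Z⌋ ∨ m = ⌊t / Z⌋ - 1) with h | h
    · exact Or.inl ⟨h, rfl⟩
    · exact Or.inr ⟨h, rfl⟩
  exact (Finset.card_le_card hsub).trans Finset.card_le_two

open Classical in
theorem split (Z : ℝ) (hZ : 0 < Z) (U : Finset ℕ) (D : ℕ → ℕ) (T : ℕ → ℝ) : ∃ K : Finset (ℤ × ℕ),
    (∀ k ∈ K, ∃ i ∈ U, D i = k.2) ∧
    ∑ k ∈ K, ((U.filter (fun i => D i = k.2 ∧ k.1 * Z ≤ T i ∧ T i < (k.1 + 2) * Z)).card : ℝ) ≤ 2 * U.card ∧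
    ∀ i ∈ U, ∀ i' ∈ U, D i = D i' → |T i - T i'| ≤ Z → ∃ k ∈ K, D i = k.2 ∧ k.1 * Z ≤ T i ∧ T i < (k.1 + 2) * Z ∧
      k.1 * Z ≤ T i' ∧ T i' < (k.1 + 2) * Z := by
  refine ⟨U.image (fun i => (⌊T i / Z⌋, D i)), ?_, ?_, ?_⟩
  · intro k hk
    rw [Finset.mem_image] at hk
    obtain ⟨i, hi, rfl⟩ := hk
    exact ⟨i, hi, rfl⟩
  · generalize hK : U.image (fun i => (⌊T i / Z⌋, D i)) = K
    have h1 : ∑ k ∈ K, (U.filter (fun i => D i = k.2 ∧ (k.1 : ℝ) * Z ≤ T i ∧ T i < ((k.1 : ℝ) + 2) * Z)).card =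
        ∑ i ∈ U, (K.filter (fun k => D i = k.2 ∧ (k.1 : ℝ) * Z ≤ T i ∧ T i < ((k.1 : ℝ) + 2) * Z)).card := by
      simp only [Finset.card_filter]
      exact Finset.sum_comm
    have h2 : ∑ i ∈ U, (K.filter (fun k => D i = k.2 ∧ (k.1 : ℝ) * Z ≤ T i ∧ T i < ((k.1 : ℝ) + 2) * Z)).card ≤
        ∑ _i ∈ U, 2 := Finset.sum_le_sum (fun i _ => Split_two Z hZ K (T i) (D i))
    rw [Finset.sum_const, smul_eq_mul] at h2
    have h3 : ∑ k ∈ K, (U.filter (fun i => D i = k.2 ∧ (k.1 : ℝ) * Z ≤ T i ∧ T i < ((k.1 : ℝ) + 2) * Z)).card ≤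
        2 * U.card := by rw [h1]; linarith
    have h4 : ((∑ k ∈ K, (U.filter (fun i => D i = k.2 ∧ (k.1 : ℝ) * Z ≤ T i ∧ T i < ((k.1 : ℝ) + 2) * Z)).card : ℕ) : ℝ) ≤
        ((2 * U.card : ℕ) : ℝ) := by exact_mod_cast h3
    push_cast at h4
    exact h4
  · have key : ∀ i ∈ U, ∀ i' ∈ U, D i = D i' → |T i - T i'| ≤ Z → T i ≤ T i' →
        ∃ k ∈ U.image (fun i => (⌊T i / Z⌋, D i)), D i = k.2 ∧ (k.1 : ℝ) * Z ≤ T i ∧ T i < ((k.1 : ℝ) + 2) * Z ∧
      (k.1 : ℝ) * Z ≤ T i' ∧ T i' < ((k.1 : ℝ) + 2) * Z := by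
      intro i hi i' hi' hD hT hle
      obtain ⟨f1, f2⟩ := Split_floor Z (T i) hZ
      have hab := abs_le.mp hT
      refine ⟨(⌊T i / Z⌋, D i), Finset.mem_image_of_mem _ hi, rfl, f1, ?_, f1.trans hle, ?_⟩
      · simp only
        nlinarith
      · simp only
        nlinarith
    intro i hi i' hi' hD hT
    rcases le_total (T i) (T i') with h | h
    · exact key i hi i' hi' hD hT h
    · obtain ⟨k, hk, e1, e2, e3, e4, e5⟩ := key i' hi' i hi hD.symm (by rwa [abs_sub_comm]) h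
      exact ⟨k, hk, hD.trans e1, e4, e5, e2, e3⟩

end Pool.Agent.H53.MDB

end

section

/-!
# MDB Pairs: many quadruples (Cauchy-Schwarz over `g`)

Proof.  The `g` of the triples of `R1` are in `[n/C, C n]`, so there are at most `C n` of them (natural numbers `≥ 1` as `n/C > 0`).  Cauchy-Schwarz (`Finset.inner_mul_le_norm_mul_norm` or `sq_sum_le_card_mul_sum_sq` over the `g`):
the number of pairs `(t, t') ∈ R1 × R1` with the same `g` is `≥ |R1|^2/(C n)`.  The map `(t, t') ↦ ((i,p),(i',p'))` has fibres with at most `2 C + 1` elements: given `i, p` there are at most `2C+1` numbers `g` with `|g p - i P| ≤ C P`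
(`|g - i P/p| ≤ C P/p < C`, an interval of length `< 2 C`).
The image is contained in the set on the right: `i, i' ∈ U`, `p, p'` primes in `(P, 2P]`; `P |i p' - i' p| = |(i P - g p) p' + (g p' - i' P) p| ≤ C P 2P + C P 2P`, so `|i p' - i' p| ≤ 4 C P`;
`nz (p α_i - p' α_i') ≤ nz (p α_i - β_g) + nz (β_g - p' α_i') ≤ 2 η P` (`nz_triangle`, `nz_neg`).
-/

set_option autoImplicit false

namespace Pool.Agent.H53.MDB

open Finset
open Pool.Agent.H53.MID (nz Rel)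

/-- the number of the indices at a bounded distance -/
private theorem Pairs_cardK {C X : ℝ} {p P : ℕ} (hC : 1 ≤ C) (hP : 0 < P) (hp : P < p)
    (U : Finset ℕ) (hU : ∀ K ∈ U, |(K : ℝ) * p - X| ≤ C * P) :
    (U.card : ℝ) ≤ 2 * C + 1 := by
  rcases U.eq_empty_or_nonempty with h0 | hne
  · rw [h0, Finset.card_empty, Nat.cast_zero]
    linarith
  · obtain ⟨a, ha⟩ : ∃ a, a = U.min' hne := ⟨_, rfl⟩
    have haU : a ∈ U := by
      rw [ha]
      exact Finset.min'_mem _ _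
    have hsub : U ⊆ Finset.Icc a (a + ⌊2 * C⌋₊) := by
      intro K hK
      have h1 : a ≤ K := by
        rw [ha]
        exact Finset.min'_le _ _ hK
      rw [Finset.mem_Icc]
      refine ⟨h1, ?_⟩
      have h2 := hU K hK
      have h3 := hU a haU
      rw [abs_le] at h2 h3
      have hP0 : (0 : ℝ) < P := by exact_mod_cast hP
      have hpP : (P : ℝ) < p := by exact_mod_cast hp
      have h4 : ((K : ℝ) - a) * p ≤ 2 * C * P := by linarith [h2.2, h3.1]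
      have h5 : (K : ℝ) - a ≤ 2 * C := by
        by_contra hcon
        push Not at hcon
        have h6 : 2 * C * p < ((K : ℝ) - a) * p :=
          mul_lt_mul_of_pos_right hcon (hP0.trans hpP)
        have h7 : 2 * C * P < 2 * C * p := mul_lt_mul_of_pos_left hpP (by linarith)
        linarith
      have h8 : ((K - a : ℕ) : ℝ) ≤ 2 * C := by
        rw [Nat.cast_sub h1]
        exact h5
      have h9 : K - a ≤ ⌊2 * C⌋₊ := Nat.le_floor h8
      omega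
    have h10 : U.card ≤ ⌊2 * C⌋₊ + 1 := by
      refine (Finset.card_le_card hsub).trans ?_
      rw [Nat.card_Icc]
      omega
    have h11 : (U.card : ℝ) ≤ ((⌊2 * C⌋₊ + 1 : ℕ) : ℝ) := by exact_mod_cast h10
    refine h11.trans ?_
    push_cast
    have := Nat.floor_le (show (0 : ℝ) ≤ 2 * C by linarith)
    linarith

open Classical in
theorem pairs (C : ℝ) (hC : 1 ≤ C) (n P : ℕ) (η : ℝ) (U G0 : Finset ℕ) (α β : ℕ → ℝ) (R1 : Finset (ℕ × ℕ × ℕ))
    (hR : Rel C n P (η * P) U G0 α β R1) (hn : 1 ≤ n) (hP : 1 ≤ P) :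
    (R1.card : ℝ) ^ 2 ≤ C * n * (2 * C + 1) *
      ((QS C P U).filter (fun q => nz (q.1.2 * α q.1.1 - q.2.2 * α q.2.1) ≤ 2 * η * P)).card := by
  have hn0 : (0 : ℝ) < n := by exact_mod_cast hn
  have hP0 : (0 : ℝ) < P := by exact_mod_cast hP
  have hC0 : 0 < C := by linarith
  obtain ⟨G, hG⟩ : ∃ G : Finset ℕ, G = R1.image (fun t => t.2.2) := ⟨_, rfl⟩
  obtain ⟨r, hr⟩ : ∃ r : ℕ → Finset (ℕ × ℕ × ℕ), r = fun g => R1.filter (fun t => t.2.2 = g) := ⟨_, rfl⟩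
  have h1 : (R1.card : ℝ) = ∑ g ∈ G, ((r g).card : ℝ) := by
    rw [hG, hr, Finset.card_eq_sum_card_image (fun t : ℕ × ℕ × ℕ => t.2.2) R1]
    push_cast
    rfl
  have hGc : (G.card : ℝ) ≤ C * n := by
    have h2 : G ⊆ Finset.Icc 1 ⌊C * n⌋₊ := by
      intro g hg
      rw [hG, Finset.mem_image] at hg
      obtain ⟨t, ht, rfl⟩ := hg
      obtain ⟨a1, a2⟩ := hR.rngF' _ (hR.memF' t ht)
      rw [Finset.mem_Icc]
      constructor
      · have a3 : (0 : ℝ) < t.2.2 := lt_of_lt_of_le (by positivity) a1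
        exact_mod_cast a3
      · exact Nat.le_floor a2
    have h3 := Finset.card_le_card h2
    rw [Nat.card_Icc, Nat.add_sub_cancel] at h3
    have h4 : (G.card : ℝ) ≤ (⌊C * n⌋₊ : ℝ) := by exact_mod_cast h3
    exact h4.trans (Nat.floor_le (by positivity))
  have h5 : (R1.card : ℝ) ^ 2 ≤ G.card * ∑ g ∈ G, ((r g).card : ℝ) ^ 2 := by
    rw [h1]
    exact sq_sum_le_card_mul_sum_sq
  obtain ⟨Y, hY⟩ : ∃ Y : Finset ((ℕ × ℕ × ℕ) × (ℕ × ℕ × ℕ)), Y = (R1 ×ˢ R1).filter (fun y => y.1.2.2 = y.2.2.2) :=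
    ⟨_, rfl⟩
  have h6 : ∑ g ∈ G, ((r g).card : ℝ) ^ 2 = (Y.card : ℝ) := by
    have h7 : Y.card = ∑ g ∈ G, (Y.filter (fun y => y.1.2.2 = g)).card := by
      refine Finset.card_eq_sum_card_fiberwise fun y hy => ?_
      rw [Finset.mem_coe, hY, Finset.mem_filter, Finset.mem_product] at hy
      rw [Finset.mem_coe, hG, Finset.mem_image]
      exact ⟨y.1, hy.1.1, rfl⟩
    rw [h7]
    push_cast
    refine Finset.sum_congr rfl fun g _ => ?_
    have h8 : Y.filter (fun y => y.1.2.2 = g) = (r g) ×ˢ (r g) := by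
      ext y
      rw [hY, hr, Finset.mem_filter, Finset.mem_filter, Finset.mem_product, Finset.mem_product, Finset.mem_filter,
        Finset.mem_filter]
      constructor
      · rintro ⟨⟨⟨b1, b2⟩, b3⟩, b4⟩
        exact ⟨⟨b1, b4⟩, b2, b3.symm.trans b4⟩
      · rintro ⟨⟨b1, b2⟩, b3, b4⟩
        exact ⟨⟨⟨b1, b3⟩, b2.trans b4.symm⟩, b2⟩
    rw [h8, Finset.card_product]
    push_cast
    ring
  obtain ⟨f, hf⟩ : ∃ f : (ℕ × ℕ × ℕ) × (ℕ × ℕ × ℕ) → (ℕ × ℕ) × (ℕ × ℕ),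
      f = fun y => ((y.1.1, y.1.2.1), (y.2.1, y.2.2.1)) := ⟨_, rfl⟩
  have h9 : (Y.card : ℝ) ≤ (2 * C + 1) * ((Y.image f).card : ℝ) := by
    rw [Finset.card_eq_sum_card_image f Y]
    push_cast
    have h10 : ∀ q ∈ Y.image f, ((Y.filter (fun y => f y = q)).card : ℝ) ≤ 2 * C + 1 := by
      intro q hq
      rw [Finset.mem_image] at hq
      obtain ⟨y0, hy0, hq0⟩ := hq
      rw [hY, Finset.mem_filter, Finset.mem_product] at hy0
      have hp := hR.prime _ hy0.1.1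
      have c1 : ((Y.filter (fun y => f y = q)).card : ℝ) =
          (((Y.filter (fun y => f y = q)).image (fun y => y.1.2.2)).card : ℝ) := by
        rw [Finset.card_image_of_injOn]
        intro y hy y' hy' hyy
        rw [Finset.mem_coe, Finset.mem_filter, hY, Finset.mem_filter] at hy hy'
        have d1 := hy.2
        have d2 := hy'.2
        have d3 : f y = f y' := d1.trans d2.symm
        rw [hf] at d3
        simp only [Prod.mk.injEq] at d3
        obtain ⟨⟨e1, e2⟩, e3, e4⟩ := d3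
        have e5 := hy.1.2
        have e6 := hy'.1.2
        obtain ⟨⟨i, p, g⟩, i', p', g'⟩ := y
        obtain ⟨⟨j, q, h⟩, j', q', h'⟩ := y'
        simp only at e1 e2 e3 e4 e5 e6 hyy
        subst e1 e2 e3 e4 e5 e6 hyy
        rfl
      rw [c1]
      refine Pairs_cardK (X := (y0.1.1 : ℝ) * P) (p := y0.1.2.1) hC hP hp.2.1 _ fun g hg => ?_
      rw [Finset.mem_image] at hg
      obtain ⟨y, hy, rfl⟩ := hg
      rw [Finset.mem_filter, hY, Finset.mem_filter, Finset.mem_product] at hy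
      have d3 : f y = f y0 := hy.2.trans hq0.symm
      rw [hf] at d3
      simp only [Prod.mk.injEq] at d3
      have d4 := hR.pos _ hy.1.1.1
      rw [d3.1.1, d3.1.2] at d4
      exact d4
    refine (Finset.sum_le_sum h10).trans ?_
    rw [Finset.sum_const, nsmul_eq_mul, mul_comm]
  have h11 : Y.image f ⊆ (QS C P U).filter (fun q => nz (q.1.2 * α q.1.1 - q.2.2 * α q.2.1) ≤ 2 * η * P) := by
    intro q hq
    rw [Finset.mem_image] at hq
    obtain ⟨y, hy, rfl⟩ := hq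
    rw [hY, Finset.mem_filter, Finset.mem_product] at hy
    obtain ⟨⟨i, p, g⟩, i', p', g'⟩ := y
    obtain ⟨⟨b1, b2⟩, b3⟩ := hy
    simp only at b1 b2 b3
    subst b3
    rw [Finset.mem_filter, mem_QS, hf]
    have p1 := hR.prime _ b1
    have p2 := hR.prime _ b2
    have q1 := hR.pos _ b1
    have q2 := hR.pos _ b2
    have r1 := hR.freq _ b1
    have r2 := hR.freq _ b2
    have s1 := hR.memF _ b1
    have s2 := hR.memF _ b2
    simp only at p1 p2 q1 q2 r1 r2 s1 s2 ⊢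
    refine ⟨⟨s1, p1.2.1, p1.2.2, p1.1, s2, p2.2.1, p2.2.2, p2.1, ?_⟩, ?_⟩
    · have hp1 : (p : ℝ) ≤ 2 * P := by exact_mod_cast p1.2.2
      have hp2 : (p' : ℝ) ≤ 2 * P := by exact_mod_cast p2.2.2
      have e : (P : ℝ) * ((i : ℝ) * p' - i' * p) = -((g * p - i * P) * p') + (g * p' - i' * P) * p := by ring
      have u1 : |(P : ℝ) * ((i : ℝ) * p' - i' * p)| ≤ C * P * (2 * P) + C * P * (2 * P) := by
        rw [e]
        refine (abs_add_le _ _).trans (add_le_add ?_ ?_)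
        · rw [abs_neg, abs_mul, abs_of_nonneg (show (0 : ℝ) ≤ (p' : ℝ) from Nat.cast_nonneg p')]
          exact mul_le_mul q1 hp2 (Nat.cast_nonneg p') (by positivity)
        · rw [abs_mul, abs_of_nonneg (show (0 : ℝ) ≤ (p : ℝ) from Nat.cast_nonneg p)]
          exact mul_le_mul q2 hp1 (Nat.cast_nonneg p) (by positivity)
      rw [abs_mul, abs_of_pos hP0] at u1
      have u2 : (P : ℝ) * |(i : ℝ) * p' - i' * p| ≤ P * (4 * C * P) := by
        refine u1.trans (le_of_eq ?_)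
        ring
      exact le_of_mul_le_mul_left u2 hP0
    · refine (Pool.Agent.H53.MID.nz_triangle _ (β g) _).trans ?_
      have e : β g - (p' : ℝ) * α i' = -((p' : ℝ) * α i' - β g) := by ring
      rw [e, Pool.Agent.H53.MID.nz_neg]
      linarith
  have h12 : ((Y.image f).card : ℝ) ≤
      (((QS C P U).filter (fun q => nz (q.1.2 * α q.1.1 - q.2.2 * α q.2.1) ≤ 2 * η * P)).card : ℝ) := by
    exact_mod_cast Finset.card_le_card h11
  rw [h6] at h5
  calc (R1.card : ℝ) ^ 2 ≤ G.card * (Y.card : ℝ) := h5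
    _ ≤ (C * n) * ((2 * C + 1) * ((Y.image f).card : ℝ)) :=
        mul_le_mul hGc h9 (Nat.cast_nonneg _) (by positivity)
    _ ≤ (C * n) * ((2 * C + 1) * (((QS C P U).filter (fun q =>
        nz (q.1.2 * α q.1.1 - q.2.2 * α q.2.1) ≤ 2 * η * P)).card : ℝ)) := by
        refine mul_le_mul_of_nonneg_left (mul_le_mul_of_nonneg_left h12 (by linarith)) (by positivity)
    _ = _ := by ring

end Pool.Agent.H53.MDB

end

section

/-!
# MDB Young: bounds for `GG` from a bound for `sres`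

Proof.  Let `c = bb i % δ` (prime to `δ`) and `β < δ`.  If `β` is not prime to `δ`, no `m` prime to `δ` satisfies `m bb(i) ≡ β mod δ`: the inner sum is empty.  If `β` is prime to `δ` there is `r = r(β, c)` with `r c ≡ β mod δ` (`r` prime to `δ`), and for all `m`:
(`m` prime to `δ` and `m bb(i) % δ = β`) iff `m % δ = r % δ`; so the inner sum is `ee(t log i) · sres P δ r t`.  In all cases it is `ee(t log i) w(β, c)` with `|w(β, c)| ≤ M`, where `w` depends only on `β` and `c = bb i % δ`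
(define `w(β, c) = ∑_{m ∈ (P,2P], (m,δ)=1, (m c) % δ = β} ee(-t log m)`; `(m * bb i) % δ = (m * (bb i % δ)) % δ`).
`gg_triv`: `|∑_{i ∈ U} ee(t log i) w| ≤ |U| M`, `δ` values of `β`.
`gg_young`: `∑_{i ∈ U} ee(t log i) w(β, bb i % δ) = ∑_{c < δ} w(β, c) u_c`, `u_c = ∑_{i ∈ U, bb i % δ = c} ee(t log i)`; Cauchy-Schwarz: `|…|^2 ≤ (∑_c |w|^2)(∑_c |u_c|^2) ≤ δ M^2 ∑_c |u_c|^2` (the classes `c` not prime to `δ` have `u_c = 0`,
use only `c` in the image of `U`); sum over the `δ` values of `β`.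
(`M ≥ 0` as `0 ≤ ‖sres‖ ≤ M`.)
-/

set_option autoImplicit false

namespace Pool.Agent.H53.MDB

open Finset
open Pool.Agent.H91.PK (ee)

private theorem Young_ee_add (a b : ℝ) : ee (a + b) = ee a * ee b := by
  unfold ee
  rw [← Complex.exp_add]
  congr 1
  push_cast
  ring

private theorem Young_norm_ee (t : ℝ) : ‖ee t‖ = 1 := by
  unfold ee
  have h : (2 * Real.pi * t * Complex.I : ℂ) = ((2 * Real.pi * t : ℝ) : ℂ) * Complex.I := by push_cast; ring
  rw [h, Complex.norm_exp_ofReal_mul_I]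

/-- the sum over `m` with `m c ≡ β` -/
private noncomputable def Young_W (P δ : ℕ) (t : ℝ) (β c : ℕ) : ℂ :=
  ∑ m ∈ (Ioc P (2 * P)).filter (fun m => Nat.Coprime m δ ∧ (m * c) % δ = β), ee (-(t * Real.log m))

private theorem Young_inner (P δ : ℕ) (bb : ℕ → ℕ) (t : ℝ) (β i : ℕ) :
    ∑ m ∈ (Ioc P (2 * P)).filter (fun m => Nat.Coprime m δ ∧ (m * bb i) % δ = β),
      ee (t * (Real.log i - Real.log m)) = ee (t * Real.log i) * Young_W P δ t β (bb i % δ) := by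
  unfold Young_W
  rw [Finset.mul_sum]
  refine Finset.sum_congr ?_ fun m _ => ?_
  · refine Finset.filter_congr fun m _ => ?_
    rw [Nat.mul_mod m (bb i % δ), Nat.mod_mod, ← Nat.mul_mod]
  · rw [← Young_ee_add]; congr 1; ring

private theorem Young_W_le {P δ : ℕ} {t M : ℝ} (hδ : 1 ≤ δ) (hM : ∀ r : ℕ, ‖sres P δ r t‖ ≤ M) {β c : ℕ}
    (hβ : β < δ) (hc : Nat.Coprime c δ) : ‖Young_W P δ t β c‖ ≤ M := by
  have hM0 : 0 ≤ M := (norm_nonneg _).trans (hM 0)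
  by_cases hβc : Nat.Coprime β δ
  · obtain ⟨r, hr⟩ : ∃ r : ℕ, (r * c) % δ = β := by
      obtain ⟨x, hx⟩ := Nat.exists_mul_mod_eq_of_coprime (n := c) (k := δ) β hc (by omega)
      exact ⟨x, by rw [mul_comm, hx.2, Nat.mod_eq_of_lt hβ]⟩
    have hrc : Nat.Coprime r δ := by
      have h1 : Nat.Coprime ((r * c) % δ) δ := by rw [hr]; exact hβc
      have h2 : Nat.gcd (r * c) δ = 1 := by
        rw [Nat.Coprime, ← Nat.gcd_rec, Nat.gcd_comm] at h1
        exact h1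
      exact Nat.Coprime.coprime_mul_right h2
    have hfil : (Ioc P (2 * P)).filter (fun m => Nat.Coprime m δ ∧ (m * c) % δ = β) =
        (Ioc P (2 * P)).filter (fun m => m % δ = r % δ) := by
      refine Finset.filter_congr fun m _ => ?_
      constructor
      · rintro ⟨-, h2⟩
        have h3 : m * c ≡ r * c [MOD δ] := by
          show (m * c) % δ = (r * c) % δ
          rw [h2, hr]
        exact Nat.ModEq.cancel_right_of_coprime (by rw [Nat.gcd_comm]; exact hc) h3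
      · intro h
        have h1 : m ≡ r [MOD δ] := h
        refine ⟨?_, ?_⟩
        · have h2 : Nat.gcd m δ = Nat.gcd r δ := h1.gcd_eq
          rw [Nat.Coprime, h2]; exact hrc
        · have h2 : m * c ≡ r * c [MOD δ] := h1.mul_right c
          have h3 : (m * c) % δ = (r * c) % δ := h2
          rw [h3, hr]
    unfold Young_W
    rw [hfil]
    exact hM r
  · have hemp : (Ioc P (2 * P)).filter (fun m => Nat.Coprime m δ ∧ (m * c) % δ = β) = ∅ := by
      rw [Finset.filter_eq_empty_iff]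
      rintro m _ ⟨h1, h2⟩
      apply hβc
      have h3 : Nat.Coprime (m * c) δ := Nat.Coprime.mul_left h1 hc
      rw [← h2, Nat.Coprime, ← Nat.gcd_rec, Nat.gcd_comm]
      exact h3
    unfold Young_W
    rw [hemp, Finset.sum_empty, norm_zero]
    exact hM0

private theorem Young_mod {bb : ℕ} {δ : ℕ} (h : Nat.Coprime bb δ) : Nat.Coprime (bb % δ) δ := by
  rw [Nat.Coprime, ← Nat.gcd_rec, Nat.gcd_comm]
  exact h

private theorem Young_GG (P δ : ℕ) (U : Finset ℕ) (bb : ℕ → ℕ) (t : ℝ) :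
    GG P δ U bb t = ∑ β ∈ range δ, ‖∑ i ∈ U, ee (t * Real.log i) * Young_W P δ t β (bb i % δ)‖ ^ 2 := by
  unfold GG
  refine Finset.sum_congr rfl fun β _ => ?_
  rw [Finset.sum_congr rfl fun i _ => Young_inner P δ bb t β i]

theorem gg_triv (P δ : ℕ) (U : Finset ℕ) (bb : ℕ → ℕ) (t M : ℝ) (hδ : 1 ≤ δ) (hb : ∀ i ∈ U, Nat.Coprime (bb i) δ)
    (hM : ∀ r : ℕ, ‖sres P δ r t‖ ≤ M) : GG P δ U bb t ≤ δ * (M * U.card) ^ 2 := by
  rw [Young_GG]
  have h1 : ∀ β ∈ range δ, ‖∑ i ∈ U, ee (t * Real.log i) * Young_W P δ t β (bb i % δ)‖ ^ 2 ≤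
      (M * U.card) ^ 2 := by
    intro β hβ
    rw [mem_range] at hβ
    refine pow_le_pow_left₀ (norm_nonneg _) ?_ 2
    refine (norm_sum_le _ _).trans ?_
    calc ∑ i ∈ U, ‖ee (t * Real.log i) * Young_W P δ t β (bb i % δ)‖ ≤ ∑ i ∈ U, M := by
          refine Finset.sum_le_sum fun i hi => ?_
          rw [norm_mul, Young_norm_ee, one_mul]
          exact Young_W_le hδ hM hβ (Young_mod (hb i hi))
      _ = M * U.card := by rw [Finset.sum_const, nsmul_eq_mul, mul_comm]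
  refine (Finset.sum_le_sum h1).trans ?_
  rw [Finset.sum_const, card_range, nsmul_eq_mul]

theorem gg_young (P δ : ℕ) (U : Finset ℕ) (bb : ℕ → ℕ) (t M : ℝ) (hδ : 1 ≤ δ) (hb : ∀ i ∈ U, Nat.Coprime (bb i) δ)
    (hM : ∀ r : ℕ, ‖sres P δ r t‖ ≤ M) :
    GG P δ U bb t ≤ (δ * M) ^ 2 * ∑ c ∈ range δ, ‖∑ i ∈ U.filter (fun i => bb i % δ = c), ee (t * Real.log i)‖ ^ 2 := by
  have hM0 : 0 ≤ M := (norm_nonneg _).trans (hM 0)
  rw [Young_GG]
  set u : ℕ → ℂ := fun c => ∑ i ∈ U.filter (fun i => bb i % δ = c), ee (t * Real.log i) with hu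
  have h1 : ∀ β ∈ range δ, ‖∑ i ∈ U, ee (t * Real.log i) * Young_W P δ t β (bb i % δ)‖ ^ 2 ≤
      M ^ 2 * (δ * ∑ c ∈ range δ, ‖u c‖ ^ 2) := by
    intro β hβ
    rw [mem_range] at hβ
    have e1 : ∑ i ∈ U, ee (t * Real.log i) * Young_W P δ t β (bb i % δ) =
        ∑ c ∈ range δ, u c * Young_W P δ t β c := by
      rw [← Finset.sum_fiberwise_of_maps_to (s := U) (t := range δ) (g := fun i => bb i % δ)
        (fun i _ => mem_range.2 (Nat.mod_lt _ (by omega)))]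
      refine Finset.sum_congr rfl fun c _ => ?_
      simp only [hu]
      rw [Finset.sum_mul]
      refine Finset.sum_congr rfl fun i hi => ?_
      rw [(Finset.mem_filter.1 hi).2]
    have e2 : ‖∑ i ∈ U, ee (t * Real.log i) * Young_W P δ t β (bb i % δ)‖ ≤ M * ∑ c ∈ range δ, ‖u c‖ := by
      rw [e1, Finset.mul_sum]
      refine (norm_sum_le _ _).trans (Finset.sum_le_sum fun c _ => ?_)
      rw [norm_mul, mul_comm]
      by_cases hex : ∃ i ∈ U, bb i % δ = c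
      · obtain ⟨i, hi, hic⟩ := hex
        refine mul_le_mul_of_nonneg_right ?_ (norm_nonneg _)
        exact Young_W_le hδ hM hβ (hic ▸ Young_mod (hb i hi))
      · have : u c = 0 := by
          simp only [hu]
          rw [Finset.filter_eq_empty_iff.2 (fun i hi hic => hex ⟨i, hi, hic⟩), Finset.sum_empty]
        rw [this, norm_zero, mul_zero, mul_zero]
    calc ‖∑ i ∈ U, ee (t * Real.log i) * Young_W P δ t β (bb i % δ)‖ ^ 2
        ≤ (M * ∑ c ∈ range δ, ‖u c‖) ^ 2 := pow_le_pow_left₀ (norm_nonneg _) e2 2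
      _ = M ^ 2 * (∑ c ∈ range δ, ‖u c‖) ^ 2 := by ring
      _ ≤ M ^ 2 * (δ * ∑ c ∈ range δ, ‖u c‖ ^ 2) := by
        refine mul_le_mul_of_nonneg_left ?_ (by positivity)
        have := sq_sum_le_card_mul_sum_sq (s := range δ) (f := fun c => ‖u c‖)
        rwa [card_range] at this
  refine (Finset.sum_le_sum h1).trans (le_of_eq ?_)
  rw [Finset.sum_const, card_range, nsmul_eq_mul]
  ring

end Pool.Agent.H53.MDB

end

section

/-!
# MDB Fej: pairs with close values, by an exponential integral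

Proof.  Write `I(y) = ∫_0^V ee(t y) dt`.  If `|y| V ≤ 1/2` then `|I(y)| ≥ V/2`: for `y = 0` clear, otherwise `I(y) = (ee(V y) - 1)/(2πi y)`, `|I(y)| = |sin(π V y)|/(π |y|) ≥ (2/π) V ≥ V/2` (`|sin u| ≥ (2/π)|u|` for `|u| ≤ π/2`, Jordan:
`Real.mul_le_sin` / `Real.mul_abs_le_abs_sin`).  Or directly: `Re ee(t y) = cos(2π t y)`, and `cos u ≥ 1 - 2u/π` on `[0, π]` (`Real.one_sub_mul_le_cos`...), so `Re I(y) ≥ ∫_0^V (1 - 4 t |y|) dt = V - 2 V^2 |y|`, good only for `|y| V ≤ 1/4`; use the first way.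
So `1 ≤ (4/V^2) |I(y)|^2`, and `|I(y)|^2 ≥ 0` for all `y`.  `|I(y)|^2 = ∫_0^V ∫_0^V ee((t - t') y) dt' dt`.  Sum over all pairs `(s, s')` with `c s = c s'`, `y = x s - x s'`:
`N ≤ (4/V^2) ∫_0^V ∫_0^V ∑_{β ∈ B} ∑_{s, s' ∈ S_β} ee((t - t')(x s - x s')) = (4/V^2) ∫_0^V ∫_0^V G(t - t') dt' dt`, `G(u) = ∑_β |∑_{s ∈ S_β} ee(u x_s)|^2 ≥ 0`, and for every `t ∈ [0, V]`:
`∫_0^V G(t - t') dt' = ∫_{t-V}^{t} G(u) du ≤ ∫_{-V}^{V} G`.  So `N ≤ (4/V) ∫_{-V}^{V} G`.
Alternative without double integrals: `|I(y)|^2 = ∫_{-V}^{V} (V - |u|) ee(u y) du` is also fine (compute both sides for `y ≠ 0`, and `y = 0`).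
-/

set_option autoImplicit false

namespace Pool.Agent.H53.MDB

open Finset MeasureTheory
open Pool.Agent.H91.PK (ee)

/-- the Fejer kernel as an integral -/
private noncomputable def Fej_F (V y : ℝ) : ℝ :=
  ∫ t in Set.Icc (-V) V, (V - |t|) * Real.cos (2 * Real.pi * (t * y))

private theorem Fej_half {V w : ℝ} (hV : 0 < V) (hw : w ≠ 0) :
    ∫ t in Set.Icc (-V) V, (V - |t|) * Real.cos (w * t) = 2 * (1 - Real.cos (w * V)) / w ^ 2 := by
  have hcont : Continuous (fun t : ℝ => (V - |t|) * Real.cos (w * t)) := by fun_prop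
  rw [integral_Icc_eq_integral_Ioc, ← intervalIntegral.integral_of_le (by linarith),
    ← intervalIntegral.integral_add_adjacent_intervals (b := 0)
      (hcont.intervalIntegrable _ _) (hcont.intervalIntegrable _ _)]
  have h1 : ∫ t in (-V)..0, (V - |t|) * Real.cos (w * t) = (1 - Real.cos (w * V)) / w ^ 2 := by
    have e1 : ∫ t in (-V)..0, (V - |t|) * Real.cos (w * t) = ∫ t in (-V)..0, (V + t) * Real.cos (w * t) := by
      refine intervalIntegral.integral_congr fun t ht => ?_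
      rw [Set.uIcc_of_le (by linarith)] at ht
      rw [abs_of_nonpos ht.2, sub_neg_eq_add]
    rw [e1, intervalIntegral.integral_eq_sub_of_hasDerivAt
      (f := fun t => (V + t) * Real.sin (w * t) / w + Real.cos (w * t) / w ^ 2)]
    · simp only [mul_zero, Real.sin_zero, Real.cos_zero, add_neg_cancel, zero_mul, zero_div, zero_add,
        mul_neg, Real.cos_neg]
      ring
    · intro t _
      have d1 : HasDerivAt (fun t : ℝ => w * t) w t := by
        simpa using (hasDerivAt_id t).const_mul w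
      have d2 : HasDerivAt (fun t : ℝ => V + t) 1 t := by
        simpa using (hasDerivAt_id t).const_add V
      have d3 := ((d2.fun_mul d1.sin).div_const w).fun_add (d1.cos.div_const (w ^ 2))
      refine d3.congr_deriv ?_
      field_simp
      ring
    · exact (Continuous.intervalIntegrable (by fun_prop) _ _)
  have h2 : ∫ t in (0 : ℝ)..V, (V - |t|) * Real.cos (w * t) = (1 - Real.cos (w * V)) / w ^ 2 := by
    have e1 : ∫ t in (0 : ℝ)..V, (V - |t|) * Real.cos (w * t) = ∫ t in (0 : ℝ)..V, (V - t) * Real.cos (w * t) := by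
      refine intervalIntegral.integral_congr fun t ht => ?_
      rw [Set.uIcc_of_le hV.le] at ht
      rw [abs_of_nonneg ht.1]
    rw [e1, intervalIntegral.integral_eq_sub_of_hasDerivAt
      (f := fun t => (V - t) * Real.sin (w * t) / w - Real.cos (w * t) / w ^ 2)]
    · simp only [mul_zero, Real.sin_zero, Real.cos_zero, sub_self, zero_mul, zero_div, zero_sub, sub_zero]
      ring
    · intro t _
      have d1 : HasDerivAt (fun t : ℝ => w * t) w t := by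
        simpa using (hasDerivAt_id t).const_mul w
      have d2 : HasDerivAt (fun t : ℝ => V - t) (-1) t := by
        simpa using (hasDerivAt_id t).const_sub V
      have d3 := ((d2.fun_mul d1.sin).div_const w).fun_sub (d1.cos.div_const (w ^ 2))
      refine d3.congr_deriv ?_
      field_simp
      ring
    · exact (Continuous.intervalIntegrable (by fun_prop) _ _)
  rw [h1, h2]
  ring

private theorem Fej_zero {V : ℝ} (hV : 0 < V) :
    ∫ t in Set.Icc (-V) V, (V - |t|) = V ^ 2 := by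
  have hcont : Continuous (fun t : ℝ => (V - |t|)) := by fun_prop
  rw [integral_Icc_eq_integral_Ioc, ← intervalIntegral.integral_of_le (by linarith),
    ← intervalIntegral.integral_add_adjacent_intervals (b := 0)
      (hcont.intervalIntegrable _ _) (hcont.intervalIntegrable _ _)]
  have h1 : ∫ t in (-V)..0, (V - |t|) = V ^ 2 / 2 := by
    have e1 : ∫ t in (-V)..0, (V - |t|) = ∫ t in (-V)..0, (V + t) := by
      refine intervalIntegral.integral_congr fun t ht => ?_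
      rw [Set.uIcc_of_le (by linarith)] at ht
      rw [abs_of_nonpos ht.2, sub_neg_eq_add]
    rw [e1, intervalIntegral.integral_eq_sub_of_hasDerivAt (f := fun t => V * t + t ^ 2 / 2)]
    · ring
    · intro t _
      have d1 : HasDerivAt (fun t : ℝ => V * t) V t := by
        simpa using (hasDerivAt_id t).const_mul V
      have d4 : HasDerivAt (fun t : ℝ => t ^ 2) (2 * t) t := by
        simpa using hasDerivAt_pow 2 t
      refine (d1.fun_add (d4.div_const 2)).congr_deriv ?_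
      ring
    · exact (Continuous.intervalIntegrable (by fun_prop) _ _)
  have h2 : ∫ t in (0 : ℝ)..V, (V - |t|) = V ^ 2 / 2 := by
    have e1 : ∫ t in (0 : ℝ)..V, (V - |t|) = ∫ t in (0 : ℝ)..V, (V - t) := by
      refine intervalIntegral.integral_congr fun t ht => ?_
      rw [Set.uIcc_of_le hV.le] at ht
      rw [abs_of_nonneg ht.1]
    rw [e1, intervalIntegral.integral_eq_sub_of_hasDerivAt (f := fun t => V * t - t ^ 2 / 2)]
    · ring
    · intro t _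
      have d1 : HasDerivAt (fun t : ℝ => V * t) V t := by
        simpa using (hasDerivAt_id t).const_mul V
      have d4 : HasDerivAt (fun t : ℝ => t ^ 2) (2 * t) t := by
        simpa using hasDerivAt_pow 2 t
      refine (d1.fun_sub (d4.div_const 2)).congr_deriv ?_
      ring
    · exact (Continuous.intervalIntegrable (by fun_prop) _ _)
  rw [h1, h2]
  ring

private theorem Fej_F_eq {V y : ℝ} (hV : 0 < V) (hy : y ≠ 0) :
    Fej_F V y = 2 * (1 - Real.cos (2 * Real.pi * y * V)) / (2 * Real.pi * y) ^ 2 := by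
  rw [← Fej_half hV (mul_ne_zero (by positivity) hy)]
  unfold Fej_F
  refine integral_congr_ae (Filter.Eventually.of_forall fun t => ?_)
  simp only
  congr 2
  ring

private theorem Fej_F_zero {V : ℝ} (hV : 0 < V) : Fej_F V 0 = V ^ 2 := by
  rw [← Fej_zero hV]
  unfold Fej_F
  refine integral_congr_ae (Filter.Eventually.of_forall fun t => ?_)
  simp

private theorem Fej_F_nonneg {V : ℝ} (hV : 0 < V) (y : ℝ) : 0 ≤ Fej_F V y := by
  rcases eq_or_ne y 0 with h | h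
  · rw [h, Fej_F_zero hV]
    positivity
  · rw [Fej_F_eq hV h]
    have := Real.cos_le_one (2 * Real.pi * y * V)
    refine div_nonneg ?_ (by positivity)
    linarith

private theorem Fej_F_ge {V : ℝ} (hV : 0 < V) (y : ℝ) (hy : |y| * V ≤ 1 / 2) : V ^ 2 / 4 ≤ Fej_F V y := by
  rcases eq_or_ne y 0 with h | h
  · rw [h, Fej_F_zero hV]
    nlinarith [sq_nonneg V]
  · rw [Fej_F_eq hV h]
    have hpi := Real.pi_pos
    have hy0 : 0 < |y| := abs_pos.2 h
    -- `1 - cos x = 2 sin^2 (x/2)`, `x/2 = π |y| V`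
    have h1 : Real.cos (2 * Real.pi * y * V) = Real.cos (2 * (Real.pi * (|y| * V))) := by
      rcases abs_choice y with h2 | h2
      · rw [h2]
        congr 1
        ring
      · rw [h2, ← Real.cos_neg]
        congr 1
        ring
    have h3 : 2 / Real.pi * (Real.pi * (|y| * V)) ≤ Real.sin (Real.pi * (|y| * V)) := by
      refine Real.mul_le_sin (by positivity) ?_
      nlinarith
    have h4 : 2 / Real.pi * (Real.pi * (|y| * V)) = 2 * (|y| * V) := by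
      field_simp
    rw [h4] at h3
    have h5 : (2 * (|y| * V)) ^ 2 ≤ Real.sin (Real.pi * (|y| * V)) ^ 2 :=
      pow_le_pow_left₀ (by positivity) h3 2
    have h6 : 1 - Real.cos (2 * Real.pi * y * V) = 2 * Real.sin (Real.pi * (|y| * V)) ^ 2 := by
      rw [h1, Real.cos_two_mul, Real.cos_sq']
      ring
    rw [h6]
    have h7 : (2 * Real.pi * y) ^ 2 = 4 * Real.pi ^ 2 * |y| ^ 2 := by
      rw [sq_abs]
      ring
    rw [h7, le_div_iff₀ (by positivity)]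
    have h8 : Real.pi ^ 2 ≤ 16 := by
      nlinarith [Real.pi_le_four]
    have h9 : 0 ≤ V ^ 2 * |y| ^ 2 := by positivity
    nlinarith

private theorem Fej_re (a b : ℝ) : (ee a * (starRingEnd ℂ) (ee b)).re = Real.cos (2 * Real.pi * (a - b)) := by
  unfold Pool.Agent.H91.PK.ee
  rw [← Complex.exp_conj, ← Complex.exp_add]
  have h : 2 * (Real.pi : ℂ) * (a : ℂ) * Complex.I +
      (starRingEnd ℂ) (2 * (Real.pi : ℂ) * (b : ℂ) * Complex.I) =
      ((2 * Real.pi * (a - b) : ℝ) : ℂ) * Complex.I := by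
    simp only [map_mul, Complex.conj_ofReal, Complex.conj_I, map_ofNat]
    push_cast
    ring
  rw [h, Complex.exp_ofReal_mul_I_re]

private theorem Fej_sq {ι : Type} (T : Finset ι) (x : ι → ℝ) (t : ℝ) :
    ‖∑ s ∈ T, ee (t * x s)‖ ^ 2 = ∑ s ∈ T, ∑ s' ∈ T, Real.cos (2 * Real.pi * (t * (x s - x s'))) := by
  have h1 : ((‖∑ s ∈ T, ee (t * x s)‖ ^ 2 : ℝ) : ℂ) =
      (∑ s ∈ T, ee (t * x s)) * (starRingEnd ℂ) (∑ s ∈ T, ee (t * x s)) := by
    rw [Complex.mul_conj, Complex.normSq_eq_norm_sq]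
  have h2 : ‖∑ s ∈ T, ee (t * x s)‖ ^ 2 =
      ((∑ s ∈ T, ee (t * x s)) * (starRingEnd ℂ) (∑ s ∈ T, ee (t * x s))).re := by
    rw [← h1, Complex.ofReal_re]
  rw [h2, map_sum, Finset.sum_mul_sum, Complex.re_sum]
  refine sum_congr rfl fun s _ => ?_
  rw [Complex.re_sum]
  refine sum_congr rfl fun s' _ => ?_
  rw [Fej_re]
  congr 2
  ring

open Classical in
theorem fej {ι : Type} (S : Finset ι) (x : ι → ℝ) (c : ι → ℕ) (B : Finset ℕ) (V : ℝ) (hV : 0 < V) (hc : ∀ s ∈ S, c s ∈ B) :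
    (((S ×ˢ S).filter (fun q => c q.1 = c q.2 ∧ |x q.1 - x q.2| * V ≤ 1 / 2)).card : ℝ) ≤
      4 / V * ∫ t in Set.Icc (-V) V, ∑ β ∈ B, ‖∑ s ∈ S.filter (fun s => c s = β), ee (t * x s)‖ ^ 2 := by
  set Pr := (S ×ˢ S).filter (fun q => c q.1 = c q.2) with hPr
  -- the sum over the pairs
  have hG : ∀ t : ℝ, ∑ β ∈ B, ‖∑ s ∈ S.filter (fun s => c s = β), ee (t * x s)‖ ^ 2 =
      ∑ q ∈ Pr, Real.cos (2 * Real.pi * (t * (x q.1 - x q.2))) := by
    intro t
    have h1 : ∀ β ∈ B, ‖∑ s ∈ S.filter (fun s => c s = β), ee (t * x s)‖ ^ 2 =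
        ∑ s ∈ S.filter (fun s => c s = β), ∑ s' ∈ S.filter (fun s' => c s = c s'),
          Real.cos (2 * Real.pi * (t * (x s - x s'))) := by
      intro β _
      rw [Fej_sq]
      refine sum_congr rfl fun s hs => ?_
      rw [(mem_filter.1 hs).2]
      refine sum_congr ?_ fun _ _ => rfl
      ext s'
      rw [mem_filter, mem_filter, eq_comm (a := β)]
    rw [sum_congr rfl h1, sum_fiberwise_of_maps_to (g := c)
      (f := fun s => ∑ s' ∈ S.filter (fun s' => c s = c s'), Real.cos (2 * Real.pi * (t * (x s - x s')))) hc,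
      hPr, sum_filter, sum_product]
    refine sum_congr rfl fun s _ => ?_
    rw [sum_filter]
  have hcontq : ∀ q : ι × ι, Continuous (fun t : ℝ => Real.cos (2 * Real.pi * (t * (x q.1 - x q.2)))) := by
    intro q
    fun_prop
  have hGcont : Continuous (fun t : ℝ => ∑ q ∈ Pr, Real.cos (2 * Real.pi * (t * (x q.1 - x q.2)))) :=
    continuous_finsetSum _ fun q _ => hcontq q
  have hGnn : ∀ t : ℝ, 0 ≤ ∑ q ∈ Pr, Real.cos (2 * Real.pi * (t * (x q.1 - x q.2))) := by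
    intro t
    rw [← hG t]
    exact sum_nonneg fun _ _ => by positivity
  have hint : ∫ t in Set.Icc (-V) V, ∑ β ∈ B, ‖∑ s ∈ S.filter (fun s => c s = β), ee (t * x s)‖ ^ 2 =
      ∫ t in Set.Icc (-V) V, ∑ q ∈ Pr, Real.cos (2 * Real.pi * (t * (x q.1 - x q.2))) := by
    refine integral_congr_ae (Filter.Eventually.of_forall fun t => ?_)
    exact hG t
  rw [hint]
  -- the sum of the kernels
  have hsum : ∑ q ∈ Pr, Fej_F V (x q.1 - x q.2) ≤
      V * ∫ t in Set.Icc (-V) V, ∑ q ∈ Pr, Real.cos (2 * Real.pi * (t * (x q.1 - x q.2))) := by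
    have h1 : ∑ q ∈ Pr, Fej_F V (x q.1 - x q.2) =
        ∫ t in Set.Icc (-V) V, (V - |t|) * ∑ q ∈ Pr, Real.cos (2 * Real.pi * (t * (x q.1 - x q.2))) := by
      unfold Fej_F
      rw [← integral_finsetSum]
      · refine integral_congr_ae (Filter.Eventually.of_forall fun t => ?_)
        simp only
        rw [mul_sum]
      · intro q _
        exact (Continuous.continuousOn (by fun_prop)).integrableOn_Icc
    rw [h1, ← integral_const_mul]
    refine setIntegral_mono_on ?_ ?_ measurableSet_Icc fun t ht => ?_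
    · exact (Continuous.continuousOn ((by fun_prop : Continuous fun t : ℝ => V - |t|).mul hGcont)).integrableOn_Icc
    · exact (Continuous.continuousOn (continuous_const.mul hGcont)).integrableOn_Icc
    · refine mul_le_mul_of_nonneg_right ?_ (hGnn t)
      have := abs_nonneg t
      linarith
  have hcard : (((S ×ˢ S).filter (fun q => c q.1 = c q.2 ∧ |x q.1 - x q.2| * V ≤ 1 / 2)).card : ℝ) * (V ^ 2 / 4) ≤
      ∑ q ∈ Pr, Fej_F V (x q.1 - x q.2) := by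
    have h1 : (S ×ˢ S).filter (fun q => c q.1 = c q.2 ∧ |x q.1 - x q.2| * V ≤ 1 / 2) ⊆ Pr := by
      intro q hq
      rw [mem_filter] at hq
      exact mem_filter.2 ⟨hq.1, hq.2.1⟩
    have h2 : ∑ q ∈ (S ×ˢ S).filter (fun q => c q.1 = c q.2 ∧ |x q.1 - x q.2| * V ≤ 1 / 2), (V ^ 2 / 4) ≤
        ∑ q ∈ (S ×ˢ S).filter (fun q => c q.1 = c q.2 ∧ |x q.1 - x q.2| * V ≤ 1 / 2),
          Fej_F V (x q.1 - x q.2) :=
      sum_le_sum fun q hq => Fej_F_ge hV _ (mem_filter.1 hq).2.2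
    rw [sum_const, nsmul_eq_mul] at h2
    exact h2.trans (sum_le_sum_of_subset_of_nonneg h1 fun q _ _ => Fej_F_nonneg hV _)
  have h3 := hcard.trans hsum
  have h4 : 4 / V * ∫ t in Set.Icc (-V) V, ∑ q ∈ Pr, Real.cos (2 * Real.pi * (t * (x q.1 - x q.2))) =
      (V * ∫ t in Set.Icc (-V) V, ∑ q ∈ Pr, Real.cos (2 * Real.pi * (t * (x q.1 - x q.2)))) / (V ^ 2 / 4) := by
    field_simp
  rw [h4, le_div_iff₀ (by positivity)]
  exact h3

end Pool.Agent.H53.MDB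

end

section

/-!
# MDB Cover: greedy cover by classes with a rational approximation

Proof.  `N0`: such that `hW C (C0 + 1)` applies, and `L = log N ≥ 2`.  Call `(r, U, s, d, b, T)` admissible if `U ⊆ F0`, all `i ∈ U` satisfy `s i < r`, the data of `j < r` are as in `Cov.dat`, `frq` holds, and
`r n ≤ Q |U|` (every class has at least `n/Q` elements).  The empty system is admissible (`r = 0`, `U = ∅`).  For an admissible system `|U| ≤ |F0| ≤ C n` (`F0 ⊆ [n/C, C n]`, natural numbers `≥ 1`), so `r ≤ C Q`.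
Take an admissible system with `r` maximal (`r ≤ C Q`: `Nat.findGreatest`, or strong induction on `|F0 \ U|`).  If `|R0.filter (t.1 ∈ U)| < |R0|/2` then `R0' := R0.filter (t.1 ∉ U)` has `|R0'| > |R0|/2 ≥ n P/(2 L^C0) ≥ n P/L^(C0+1)`
and `Rel C n P (η P) (F0 \ U) G0 α β R0'`, so `hW C (C0+1)` gives `d, b, T, F1 ⊆ F0 \ U` with `n ≤ Q |F1|`: put `U' = U ∪ F1` (disjoint), `r' = r + 1`, `s' = r` on `F1` (`s` elsewhere), `d' r = d`, ... (`Function.update` or `if`):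
admissible with `r + 1`, a contradiction.
-/

set_option autoImplicit false

namespace Pool.Agent.H53.MDB

open Finset
open Pool.Agent.H53.MID (nz Rel)

private theorem Cover_log {N : ℕ} (h : 8 ≤ N) : 2 ≤ Real.log N := by
  have h1 : (8 : ℝ) ≤ N := by exact_mod_cast h
  rw [Real.le_log_iff_exp_le (by linarith)]
  have h2 := Real.exp_one_lt_d9
  have h3 : Real.exp 2 = Real.exp 1 * Real.exp 1 := by
    rw [← Real.exp_add]
    norm_num
  have h4 := Real.exp_pos 1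
  rw [h3]
  nlinarith

/-- admissible systems -/
private def Cover_Adm (n : ℕ) (Q η : ℝ) (F0 : Finset ℕ) (α : ℕ → ℝ) (r : ℕ) (U : Finset ℕ) (s d b : ℕ → ℕ) (T : ℕ → ℝ) : Prop :=
  U ⊆ F0 ∧ (r : ℝ) * n ≤ Q * U.card ∧ (∀ i ∈ U, s i < r) ∧
    (∀ j < r, 1 ≤ d j ∧ (d j : ℝ) ≤ Q ∧ Nat.Coprime (b j) (d j) ∧ |T j| ≤ Q * η * (n : ℝ) ^ 2) ∧
    (∀ i ∈ U, nz (α i - b (s i) / d (s i) - T (s i) / i) ≤ Q * η)

private theorem Cover_card {C : ℝ} (hC : 1 ≤ C) {n : ℕ} (hn : 1 ≤ n) {U : Finset ℕ}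
    (h : ∀ K ∈ U, (n : ℝ) / C ≤ K ∧ (K : ℝ) ≤ C * n) : (U.card : ℝ) ≤ C * n := by
  have hn' : (0 : ℝ) < n := by exact_mod_cast hn
  have h1 : U ⊆ Icc 1 ⌊C * n⌋₊ := by
    intro K hK
    obtain ⟨h2, h3⟩ := h K hK
    rw [mem_Icc]
    refine ⟨?_, Nat.le_floor h3⟩
    by_contra h0
    have h4 : K = 0 := by omega
    rw [h4, Nat.cast_zero] at h2
    have h5 : (0 : ℝ) < n / C := div_pos hn' (by linarith)
    linarith
  have h2 := card_le_card h1
  rw [Nat.card_Icc, Nat.add_sub_cancel] at h2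
  have h3 : (U.card : ℝ) ≤ (⌊C * n⌋₊ : ℝ) := by exact_mod_cast h2
  exact h3.trans (Nat.floor_le (by positivity))

private theorem Cover_le {C : ℝ} (hC : 1 ≤ C) {n : ℕ} (hn : 1 ≤ n) {Q η : ℝ} (hQ : 0 < Q) {F0 : Finset ℕ} {α : ℕ → ℝ}
    (hF : ∀ K ∈ F0, (n : ℝ) / C ≤ K ∧ (K : ℝ) ≤ C * n) {r : ℕ} {U : Finset ℕ} {s d b : ℕ → ℕ} {T : ℕ → ℝ}
    (h : Cover_Adm n Q η F0 α r U s d b T) : (r : ℝ) ≤ C * Q := by
  have hn' : (0 : ℝ) < n := by exact_mod_cast hn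
  have h1 := Cover_card hC hn (U := U) (fun K hK => hF K (h.1 hK))
  have h2 := h.2.1
  have h3 : (r : ℝ) * n ≤ (C * Q) * n := by
    refine h2.trans ?_
    have h4 := mul_le_mul_of_nonneg_left h1 hQ.le
    linarith
  exact le_of_mul_le_mul_right h3 hn'

open Classical in
theorem cover (t t2 : ℝ) (hW : CombWk t t2) (C : ℝ) (hC : 1 ≤ C) (C0 : ℕ) : ∃ N0 : ℕ, ∀ N : ℕ, N0 ≤ N →
    ∀ (n P : ℕ) (η : ℝ) (F0 G0 : Finset ℕ) (α β : ℕ → ℝ) (R0 : Finset (ℕ × ℕ × ℕ)),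
    Real.exp (Real.log N ^ t) ≤ P → P ≤ N → 1 ≤ n → n ≤ N → 0 < η → η * Real.exp (Real.log N ^ t2) * (P : ℝ) ^ 3 ≤ 1 →
    Rel C n P (η * P) F0 G0 α β R0 → n * P / Real.log N ^ C0 ≤ (R0.card : ℝ) →
    ∃ (r : ℕ) (U : Finset ℕ) (s d b : ℕ → ℕ) (T : ℕ → ℝ), U ⊆ F0 ∧
      Cov C n (Real.exp (Real.log N ^ t2)) η α r U s d b T ∧
      (R0.card : ℝ) / 2 ≤ (R0.filter (fun x => x.1 ∈ U)).card := by
  obtain ⟨N1, hN1⟩ := hW C hC (C0 + 1)
  refine ⟨max N1 8, fun N hN n P η F0 G0 α β R0 hP hPN hn hnN hη hηP hRel hR0 => ?_⟩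
  have hN1' : N1 ≤ N := (le_max_left _ _).trans hN
  have hL : 2 ≤ Real.log N := Cover_log ((le_max_right _ _).trans hN)
  have hQ : 0 < Real.exp (Real.log N ^ t2) := Real.exp_pos _
  by_contra hcon
  have hall : ∀ r : ℕ, ∃ (U : Finset ℕ) (s d b : ℕ → ℕ) (T : ℕ → ℝ),
      Cover_Adm n (Real.exp (Real.log N ^ t2)) η F0 α r U s d b T := by
    intro r
    induction r with
    | zero =>
      refine ⟨∅, fun _ => 0, fun _ => 0, fun _ => 0, fun _ => 0, empty_subset _, ?_, ?_, ?_, ?_⟩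
      · simp
      · intro i hi
        exact absurd hi (notMem_empty i)
      · intro j hj
        exact absurd hj (Nat.not_lt_zero j)
      · intro i hi
        exact absurd hi (notMem_empty i)
    | succ r ih =>
      obtain ⟨U, s, d, b, T, hA⟩ := ih
      have hrQ := Cover_le hC hn hQ hRel.rngF hA
      obtain ⟨hU, hcard, hs, hdat, hfrq⟩ := hA
      have hhalf : ((R0.filter (fun x => x.1 ∈ U)).card : ℝ) < (R0.card : ℝ) / 2 := by
        by_contra hge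
        exact hcon ⟨r, U, s, d, b, T, hU, ⟨hrQ, fun i hi => hRel.rngF i (hU hi), hs, hdat, hfrq⟩, not_lt.1 hge⟩
      have hsplit : (R0.filter (fun x => x.1 ∈ U)).card + (R0.filter (fun x => ¬ x.1 ∈ U)).card = R0.card :=
        card_filter_add_card_filter_not (s := R0) (fun x => x.1 ∈ U)
      have hsplit' : ((R0.filter (fun x => x.1 ∈ U)).card : ℝ) + ((R0.filter (fun x => ¬ x.1 ∈ U)).card : ℝ) = R0.card := by
        exact_mod_cast hsplit
      have hRel' : Rel C n P (η * P) (F0 \ U) G0 α β (R0.filter (fun x => ¬ x.1 ∈ U)) := by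
        refine ⟨?_, ?_, ?_, ?_, ?_, ?_, hRel.rngF'⟩
        · intro x hx
          rw [mem_filter] at hx
          exact mem_sdiff.2 ⟨hRel.memF x hx.1, hx.2⟩
        · intro x hx
          exact hRel.memF' x (mem_filter.1 hx).1
        · intro x hx
          exact hRel.prime x (mem_filter.1 hx).1
        · intro x hx
          exact hRel.pos x (mem_filter.1 hx).1
        · intro x hx
          exact hRel.freq x (mem_filter.1 hx).1
        · intro K hK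
          exact hRel.rngF K (mem_sdiff.1 hK).1
      have hbig : (n : ℝ) * P / Real.log N ^ (C0 + 1) ≤ ((R0.filter (fun x => ¬ x.1 ∈ U)).card : ℝ) := by
        have h1 : (n : ℝ) * P / Real.log N ^ (C0 + 1) ≤ (n * P / Real.log N ^ C0) / 2 := by
          rw [pow_succ, ← div_div]
          apply div_le_div_of_nonneg_left _ (by norm_num) hL
          positivity
        linarith
      obtain ⟨d0, b0, T0, F1, hd1, hdQ, hbd, hT0, hF1, hnF1, hF1α⟩ :=
        hN1 N hN1' n P η (F0 \ U) G0 α β (R0.filter (fun x => ¬ x.1 ∈ U)) hP hPN hn hnN hη hηP hRel' hbig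
      have hdisj : Disjoint U F1 := by
        rw [disjoint_left]
        intro i hi hi1
        exact (mem_sdiff.1 (hF1 hi1)).2 hi
      refine ⟨U ∪ F1, fun i => if i ∈ U then s i else r, Function.update d r d0, Function.update b r b0,
        Function.update T r T0, ?_, ?_, ?_, ?_, ?_⟩
      · exact union_subset hU (hF1.trans sdiff_subset)
      · rw [card_union_of_disjoint hdisj]
        push_cast
        linarith
      · intro i hi
        by_cases h : i ∈ U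
        · simp only [h, if_true]
          exact (hs i h).trans (Nat.lt_succ_self r)
        · simp only [h, if_false]
          exact Nat.lt_succ_self r
      · intro j hj
        rcases Nat.lt_succ_iff_lt_or_eq.1 hj with h | h
        · rw [Function.update_of_ne h.ne, Function.update_of_ne h.ne, Function.update_of_ne h.ne]
          exact hdat j h
        · rw [h, Function.update_self, Function.update_self, Function.update_self]
          exact ⟨hd1, hdQ, hbd, hT0⟩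
      · intro i hi
        by_cases h : i ∈ U
        · simp only [h, if_true]
          have h1 := (hs i h).ne
          rw [Function.update_of_ne h1, Function.update_of_ne h1, Function.update_of_ne h1]
          exact hfrq i h
        · simp only [h, if_false]
          rw [Function.update_self, Function.update_self, Function.update_self]
          exact hF1α i ((mem_union.1 hi).resolve_left h)
  obtain ⟨r, hr⟩ := exists_nat_gt (C * Real.exp (Real.log N ^ t2))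
  obtain ⟨U, s, d, b, T, hA⟩ := hall r
  have := Cover_le hC hn hQ hRel.rngF hA
  linarith

end Pool.Agent.H53.MDB

end
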