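import Pool.Agent.H43.PJ.M01
import Pool.Agent.H43.PJ.M02
import Pool.Agent.H43.PJ.M04

/-! The parts of this file: H76.EHB.Defs, H76.EHB.MelB, H91.EHA.SwJ2, H35.W.Defs, H53.MID.Defs, H80.LV.Defs, H76.EHB.Planch, H53.MID.Mvt, H53.MID.Fac. -/

section

/-!
# PROJECT EHB (MP_a78e8f_nt): common definitions

The exponential sum `FF f N θ = ∑_{n ≤ N} f(n) e(n θ)`, `S2 f N = ∑_{n ≤ N} f(n)^2`, the set `ks K` of the
integers `k ≠ 0` with `|k| ≤ K`, the Gaussian weight `wt A u = exp(-π (u/A)^2)`.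
-/

set_option autoImplicit false

namespace Pool.Agent.H76.EHB

open Finset MeasureTheory
open Pool.Agent.H91.PK (ee)

/-- `∑_{n ≤ N} f(n) e(n θ)` -/
noncomputable def FF (f : ℕ → ℝ) (N : ℕ) (θ : ℝ) : ℂ := ∑ n ∈ Icc 1 N, (f n : ℂ) * ee (n * θ)

/-- `∑_{n ≤ N} f(n)^2` -/
noncomputable def S2 (f : ℕ → ℝ) (N : ℕ) : ℝ := ∑ n ∈ Icc 1 N, f n ^ 2

end Pool.Agent.H76.EHB

end

section

/-!
# EHB MelB: the Mellin transform for small `t`

`FF_near`: Abel summation: `FF(α+θ) = ∑ f(n) e(nα) e(nθ)`, `|e((n+1)θ) - e(nθ)| ≤ 2π|θ|`, so `|FF(α+θ)| ≤ (1 + 2π|θ| N) E` if all truncated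
sums `∑_{n ≤ u} f(n) e(nα)`, `u ≤ N`, are at most `E` in absolute value.
`mel_small`: `Mel g t = ∫_0^Θ g(θ) θ^{-1/2-it} dθ`, `g = gg`, `s = ±1`.  Let `θ0 = 1/P`.  The part `θ ≤ θ0` is at most
`∫_0^{θ0} (1 + 7 θ N) E θ^{-1/2} ≤ 2 √θ0 (1 + 7 θ0 N) E`.  If `Θ > θ0` the rest is
`∑_n f(n) e(nα) ∫_{θ0}^Θ e(s (n - a) θ) θ^{-1/2-it} dθ`, at most `Fm ∑_n (1+|t|) bb P (n - a)` by `osc1` (for `|n-a| < 1`), `osc3`
(for `1 ≤ |n-a| ≤ P`), `osc2` (`|n-a| > P`, `1/√θ0 = √P`), and `bb_sum`.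
-/

set_option autoImplicit false

namespace Pool.Agent.H76.EHB

open Finset MeasureTheory
open Pool.Agent.H91.PK (ee)

theorem melB_ee_sub (x θ : ℝ) : ‖ee (x + θ) - ee x‖ ≤ 7 * |θ| := by
  have h1 : ee (x + θ) - ee x = ee x * (ee θ - 1) := by
    rw [Pool.Agent.H91.PK.LSa_ee_add]; ring
  rw [h1, norm_mul, Pool.Agent.H91.PK.LSa_norm_ee, one_mul]
  have h2 : ee θ = Complex.exp (Complex.I * ((2 * Real.pi * θ : ℝ) : ℂ)) := by
    unfold Pool.Agent.H91.PK.ee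
    congr 1
    push_cast
    ring
  rw [h2]
  refine (Real.norm_exp_I_mul_ofReal_sub_one_le).trans ?_
  rw [Real.norm_eq_abs, abs_mul, abs_of_pos (by positivity : (0 : ℝ) < 2 * Real.pi)]
  have h3 := Real.pi_lt_d2
  have h4 := abs_nonneg θ
  nlinarith

end Pool.Agent.H76.EHB

end

section

/-!
# The series of `(Λ(n) - 1)(log n)^k` for `|Im s| ≤ 1`

The series is `(-1)^k G^{(k)}(s)`, `G = -ζ'/ζ - ζ`, and `G` extends to a function analytic in a neighbourhood of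
`{1 ≤ Re s ≤ 2, |Im s| ≤ 1}`: `ζ(s) = h(s)/(s-1)` with `h` entire (removable singularity), `h(1) = 1`,
`h ≠ 0` on `Re s ≥ 1` (`riemannZeta_ne_zero_of_one_le_re`), so
`-ζ'/ζ - ζ = -h'/h + 1/(s-1) - h/(s-1) = -h'/h - (h(s)-h(1))/(s-1)`.
A continuous function on a compact set is bounded.
-/

set_option autoImplicit false

namespace Pool.Agent.H91.EHA

open Finset

/-- The function `Λ - 1` with complex values. -/
private noncomputable def swj2F (n : ℕ) : ℂ := ((Lam n : ℝ) : ℂ) - 1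

/-- The analytic continuation of `-ζ'/ζ - ζ`. -/
private noncomputable def swj2G (s : ℂ) : ℂ :=
  -(deriv riemannZeta₁ s / riemannZeta₁ s) - riemannZeta₀ s

private theorem swj2_ne (s : ℂ) (hs : 1 ≤ s.re) : riemannZeta₁ s ≠ 0 := by
  by_cases h1 : s = 1
  · rw [h1, riemannZeta₁_one]
    exact one_ne_zero
  · intro h0
    have h2 := riemannZeta_ne_zero_of_one_le_re hs
    apply h2
    rw [riemannZeta_eq_inv_sub_mul h1, h0, mul_zero]

private theorem swj2_analytic (s : ℂ) (hs : 1 ≤ s.re) : AnalyticAt ℂ swj2G s := by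
  have h1 : AnalyticAt ℂ riemannZeta₁ s := differentiable_riemannZeta₁.analyticAt s
  have h0 : AnalyticAt ℂ riemannZeta₀ s := differentiable_riemannZeta₀.analyticAt s
  exact ((h1.deriv.div h1 (swj2_ne s hs)).neg).sub h0

private theorem swj2_summable (s : ℂ) (hs : 1 < s.re) : LSeriesSummable swj2F s := by
  have h1 : LSeriesSummable (fun n : ℕ => ((ArithmeticFunction.vonMangoldt n : ℝ) : ℂ)) s :=
    ArithmeticFunction.LSeriesSummable_vonMangoldt hs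
  have h2 : LSeriesSummable (1 : ℕ → ℂ) s := LSeriesSummable_one_iff.mpr hs
  exact h1.sub h2

private theorem swj2_eq (s : ℂ) (hs : 1 < s.re) : LSeries swj2F s = swj2G s := by
  have h1 : LSeriesSummable (fun n : ℕ => ((ArithmeticFunction.vonMangoldt n : ℝ) : ℂ)) s :=
    ArithmeticFunction.LSeriesSummable_vonMangoldt hs
  have h2 : LSeriesSummable (1 : ℕ → ℂ) s := LSeriesSummable_one_iff.mpr hs
  have h3 : LSeries swj2F s = LSeries (fun n : ℕ => ((ArithmeticFunction.vonMangoldt n : ℝ) : ℂ)) s -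
      LSeries 1 s := LSeries_sub h1 h2
  have hne : s ≠ 1 := by
    intro h
    rw [h, Complex.one_re] at hs
    exact lt_irrefl _ hs
  have hz1 := swj2_ne s hs.le
  have hs1 : s - 1 ≠ 0 := sub_ne_zero.mpr hne
  rw [h3, ArithmeticFunction.LSeries_vonMangoldt_eq_deriv_riemannZeta_div hs,
    LSeries_one_eq_riemannZeta hs, deriv_riemannZeta_eq_neg_inv_sub_sq_mul_add hne]
  have h4 : riemannZeta s = (s - 1)⁻¹ * riemannZeta₁ s := riemannZeta_eq_inv_sub_mul hne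
  have h5 : riemannZeta s = (s - 1)⁻¹ + riemannZeta₀ s := riemannZeta_eq_inv_sub_add hne
  have h6 : riemannZeta₀ s = (s - 1)⁻¹ * riemannZeta₁ s - (s - 1)⁻¹ := by
    rw [← h4, h5]; ring
  unfold swj2G
  rw [h4, h6]
  field_simp
  ring

private theorem swj2_logMul (k n : ℕ) :
    (LSeries.logMul^[k] swj2F) n = Complex.log n ^ k * swj2F n := by
  induction k generalizing n with
  | zero => simp
  | succ k ih =>
    rw [Function.iterate_succ_apply', LSeries.logMul, ih, pow_succ]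
    ring

theorem zetaF_low (k : ℕ) : ∃ C : ℝ, 0 < C ∧ ∀ s : ℂ, 1 < s.re → s.re ≤ 2 → |s.im| ≤ 1 →
    ‖LSeries (fun n => (((Lam n - 1) * Real.log n ^ k : ℝ) : ℂ)) s‖ ≤ C := by
  have hK : IsCompact ((Set.Icc (1 : ℝ) 2) ×ℂ (Set.Icc (-1 : ℝ) 1)) :=
    isCompact_Icc.reProdIm isCompact_Icc
  have hc : ContinuousOn (iteratedDeriv k swj2G) ((Set.Icc (1 : ℝ) 2) ×ℂ (Set.Icc (-1 : ℝ) 1)) := by
    intro s hs
    rw [iteratedDeriv_eq_iterate]
    exact ((swj2_analytic s hs.1.1).iterated_deriv k).continuousAt.continuousWithinAt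
  obtain ⟨B, hB⟩ := hK.exists_bound_of_continuousOn hc
  refine ⟨|B| + 1, by positivity, fun s h1 h2 h3 => ?_⟩
  have hab : LSeries.abscissaOfAbsConv swj2F ≤ ((1 : ℝ) : EReal) := by
    refine LSeries.abscissaOfAbsConv_le_of_forall_lt_LSeriesSummable fun y hy => ?_
    exact swj2_summable y (by simpa using hy)
  have hab2 : LSeries.abscissaOfAbsConv swj2F < (s.re : EReal) :=
    lt_of_le_of_lt hab (by exact_mod_cast h1)
  have h4 := LSeries_iteratedDeriv (f := swj2F) k hab2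
  have h5 : LSeries swj2F =ᶠ[nhds s] swj2G := by
    have ho : IsOpen {z : ℂ | 1 < z.re} := isOpen_lt continuous_const Complex.continuous_re
    filter_upwards [ho.mem_nhds h1] with z hz
    exact swj2_eq z hz
  rw [h5.iteratedDeriv_eq k] at h4
  have h6 : LSeries (fun n => (((Lam n - 1) * Real.log n ^ k : ℝ) : ℂ)) s =
      LSeries (LSeries.logMul^[k] swj2F) s := by
    refine LSeries_congr (fun {n} _ => ?_) s
    rw [swj2_logMul, Complex.ofReal_mul, Complex.ofReal_pow, Complex.ofReal_log (Nat.cast_nonneg n),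
      Complex.ofReal_natCast]
    unfold swj2F
    push_cast
    ring
  have h7 : ‖LSeries (LSeries.logMul^[k] swj2F) s‖ = ‖iteratedDeriv k swj2G s‖ := by
    rw [h4, norm_mul, norm_pow, norm_neg, norm_one, one_pow, one_mul]
  rw [h6, h7]
  have hs : s ∈ (Set.Icc (1 : ℝ) 2) ×ℂ (Set.Icc (-1 : ℝ) 1) :=
    ⟨⟨h1.le, h2⟩, abs_le.mp h3⟩
  have h8 := hB s hs
  have h9 := le_abs_self B
  linarith

end Pool.Agent.H91.EHA

end

section

/-!
# PROJECT W (MP_a78e8f_nt): common definitions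

Elliott-Halberstam with the saving `(log x)^(-1/2+o(1))` for almost all residues `a` in every interval of
length `x^ε`.  Notation: `L = log x`, `f = hR R` with `R = ⌊L^20⌋`, `ee(t) = exp(2 π i t)`.
`FF f N θ = ∑_{n ≤ N} f(n) ee(n θ)`, `S2 f N = ∑_{n ≤ N} f(n)^2`, `ZZ S t = ∑_{k ∈ S} k^{-1/2 + i t}`,
`Mel g t = ∫_0^∞ g(θ) θ^{-1/2 - i t} dθ`, `II S g = ∫_0^∞ |∑_{k ∈ S} g(k y)|^2 dy` are those of EHB.
-/

set_option autoImplicit false

namespace Pool.Agent.H35.W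

open Finset MeasureTheory
open Pool.Agent.H91.PK (ee)
open Pool.Agent.H76.EHB

/-- the primes of the block `(P, 2P]` -/
def pb (P : ℕ) : Finset ℕ := (Ioc P (2 * P)).filter Nat.Prime

/-- the primes of the block `(P, 2P]` in the class `l` modulo `d` -/
def pbl (P d : ℕ) (l : ℤ) : Finset ℕ := (pb P).filter (fun p => (d : ℤ) ∣ (p : ℤ) - l)

/-- a finite set of natural numbers as a set of integers -/
def zs (S : Finset ℕ) : Finset ℤ := S.image (fun k : ℕ => (k : ℤ))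

/-- `k` has no prime factor in the blocks `pb (P 2^i)`, `i < J`, i.e. in `(P, P 2^J]` -/
def Rk (P J k : ℕ) : Prop := ∀ i, i < J → ∀ p ∈ pb (P * 2 ^ i), ¬ p ∣ k

open Classical in
/-- the `k ≤ y` without prime factor in `(P, P 2^J]` -/
noncomputable def rgh (P J y : ℕ) : Finset ℕ := (Icc 1 y).filter (fun k => Rk P J k)

/-- the correlation of `g` with `ee(n α + t log (n - a0))` on `(M, y]` -/
noncomputable def cor (g : ℕ → ℝ) (a0 M : ℕ) (α t : ℝ) (y : ℕ) : ℂ :=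
  ∑ n ∈ Ioc M y, (g n : ℂ) * ee (n * α + t * Real.log ((n : ℝ) - a0))

/-- the small denominator integral of a finite set `T` of integers -/
noncomputable def JJT (f : ℕ → ℝ) (N : ℕ) (T : Finset ℤ) (α a Y : ℝ) : ℝ :=
  ∫ y in Set.Icc (-Y) Y, ‖∑ k ∈ T, FF f N (α + k * y) * ee (-(a * k * y))‖ ^ 2

/-- the exponentially damped exponential sum -/
noncomputable def ge (f : ℕ → ℝ) (N : ℕ) (α a Θ s θ : ℝ) : ℂ :=
  if 0 < θ then FF f N (α + s * θ) * ee (-(a * s * θ)) * ((Real.exp (-(θ / Θ)) : ℝ) : ℂ) else 0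

end Pool.Agent.H35.W

end

section

/-!
# MID Defs: analytic definitions

`ee t = exp(2 π i t)` (`Pool.Agent.H91.PK.ee`; `LSa_ee_add`, `LSa_norm_ee`, `LSa_conj_ee` in `H91/PK/LSa.lean`), `pb P` = primes in
`(P, 2P]`, `pbl P d l` = those in the class `l` mod `d` (`H35/W/Defs.lean`), `Lam`, `lamR`, `hR = Lam - lamR` (`H91/EHA/Defs.lean`).

* `Fp f P m = ∑_{p ∈ pb P, p ∣ m} f(m/p)`;
* `Bs g H i α = ∑_{m ∈ [iH, (i+1)H)} g(m) ee(-m α)` (blocks);
* `SqB f w0 X L`: the second moment of `f` on every interval of length `w ≥ w0` inside `[0, X)` is at most `w L^4`;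
* `Dw c X θ u = ∑_{m ≤ X, u < log m ≤ u + θ} c m` (multiplicative windows), `Cs c X t = ∑_{m ≤ X} c m ee(-t log m)`;
* `cut K1 K2 f k = f k` for `K1 < k ≤ K2`, `0` otherwise;
* `cc f P a T m = Fp f P m · ee(-m a) · ee(-T log m)`.
-/

set_option autoImplicit false

namespace Pool.Agent.H53.MID

open Finset MeasureTheory
open Pool.Agent.H91.PK (ee)
open Pool.Agent.H91.EHA (Lam hR lamR ramS)
open Pool.Agent.H35.W (pb pbl)

/-- `∑_{p ∈ pb P, p ∣ m} f(m/p)` -/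
noncomputable def Fp (f : ℕ → ℝ) (P m : ℕ) : ℝ := ∑ p ∈ (pb P).filter (fun p => p ∣ m), f (m / p)

/-- the exponential sum over the block `[iH, (i+1)H)` -/
noncomputable def Bs (g : ℕ → ℝ) (H i : ℕ) (α : ℝ) : ℂ :=
  ∑ m ∈ Ico (i * H) ((i + 1) * H), (g m : ℂ) * ee (-(m * α))

/-- second moment bound on short intervals -/
def SqB (f : ℕ → ℝ) (w0 X : ℕ) (L : ℝ) : Prop :=
  ∀ u w : ℕ, w0 ≤ w → u + w ≤ X → ∑ k ∈ Ico u (u + w), f k ^ 2 ≤ w * L ^ 4

/-- the sum over the multiplicative window `(e^u, e^(u+θ)]` -/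
noncomputable def Dw (c : ℕ → ℂ) (X : ℕ) (θ u : ℝ) : ℂ :=
  ∑ m ∈ (Icc 1 X).filter (fun m : ℕ => u < Real.log m ∧ Real.log m ≤ u + θ), c m

/-- the Dirichlet polynomial -/
noncomputable def Cs (c : ℕ → ℂ) (X : ℕ) (t : ℝ) : ℂ := ∑ m ∈ Icc 1 X, c m * ee (-(t * Real.log m))

/-- restriction to `(K1, K2]` -/
noncomputable def cut (K1 K2 : ℕ) (f : ℕ → ℝ) (k : ℕ) : ℝ := if k ∈ Ioc K1 K2 then f k else 0

/-- the twisted coefficients -/
noncomputable def cc (f : ℕ → ℝ) (P : ℕ) (a T : ℝ) (m : ℕ) : ℂ :=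
  (Fp f P m : ℂ) * ee (-(m * a)) * ee (-(T * Real.log m))

/-- Vinogradov-Korobov (`Pool.Agent.H97.VK.vk_class`), used as a hypothesis -/
def VKp : Prop := ∀ (K B : ℕ) (e0 : ℝ), 0 < e0 → ∃ K' x0 : ℕ, ∀ x : ℕ, x0 ≤ x →
  ∀ (d u z : ℕ) (t : ℝ), 1 ≤ d → (d : ℝ) ≤ Real.log x ^ B → (x : ℝ) ^ e0 ≤ z → z ≤ x ^ 2 →
    Real.log x ^ K' ≤ |t| → |t| ≤ (x : ℝ) ^ (2 : ℕ) →
    ‖∑ n ∈ (Icc 1 z).filter (fun n => n % d = u % d), ((Lam n : ℝ) : ℂ) * ee (t * Real.log n)‖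
      ≤ z / Real.log x ^ K

/-- Siegel-Walfisz for `hR R` with independent parameters, used as a hypothesis -/
def SWp : Prop := ∀ (B m k : ℕ) (e0 : ℝ), 0 < e0 → ∃ N0 : ℕ, ∀ N : ℕ, N0 ≤ N → ∀ (R c b K1 K2 : ℕ) (t : ℝ),
  (R : ℝ) ≤ Real.log N ^ B → 1 ≤ c → c ≤ R → Nat.Coprime b c → (N : ℝ) ^ e0 ≤ K2 → K2 ≤ N → |t| ≤ Real.log N ^ m →
    ‖∑ n ∈ Ioc K1 K2, ((hR R n : ℝ) : ℂ) * ee (-((n : ℝ) * b / c)) * ee (-(t * Real.log n))‖
      ≤ K2 / Real.log N ^ k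

end Pool.Agent.H53.MID

end

section

/-!
# PROJECT SP, Part II (large values): common definitions

`L = log x`, `ee(t) = exp(2 π i t)` (`Pool.Agent.H91.PK.ee`; `LSa_ee_add`, `LSa_norm_ee`, `LSa_conj_ee` in
`H91/PK/LSa.lean`).  `gE α t n = e(n α) n^{2 π i t}`.  `VK` is the statement of Part I (helper97,
`vk_class`).
-/

set_option autoImplicit false

namespace Pool.Agent.H80.LV

open Finset
open Pool.Agent.H91.PK (ee)
open Pool.Agent.H91.EHA (Lam hR lamR)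

/-- `e(n α) n^{2 π i t}` -/
noncomputable def gE (α t : ℝ) (n : ℕ) : ℂ := ee ((n : ℝ) * α + t * Real.log n)

/-- Part I: cancellation in `∑ Λ(n) n^{2 π i t}` over residue classes, `L^K' ≤ |t| ≤ x^2`. -/
def VK : Prop := ∀ (K B : ℕ) (e0 : ℝ), 0 < e0 → ∃ K' x0 : ℕ, ∀ x : ℕ, x0 ≤ x →
  ∀ (d u z : ℕ) (t : ℝ), 1 ≤ d → (d : ℝ) ≤ Real.log x ^ B → (x : ℝ) ^ e0 ≤ z → z ≤ x ^ 2 →
    Real.log x ^ K' ≤ |t| → |t| ≤ (x : ℝ) ^ (2 : ℕ) →
    ‖∑ n ∈ (Icc 1 z).filter (fun n => n % d = u % d), ((Lam n : ℝ) : ℂ) * ee (t * Real.log n)‖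
      ≤ z / Real.log x ^ K

theorem norm_gE (α t : ℝ) (n : ℕ) : ‖gE α t n‖ = 1 := by
  unfold gE
  exact Pool.Agent.H91.PK.LSa_norm_ee _

theorem gE_mul (α t : ℝ) (m n : ℕ) (hm : 1 ≤ m) (hn : 1 ≤ n) :
    gE α t (m * n) = ee ((m : ℝ) * n * α) * ee (t * Real.log m) * ee (t * Real.log n) := by
  have hm0 : (m : ℝ) ≠ 0 := by positivity
  have hn0 : (n : ℝ) ≠ 0 := by positivity
  unfold gE
  rw [← Pool.Agent.H91.PK.LSa_ee_add, ← Pool.Agent.H91.PK.LSa_ee_add]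
  congr 1
  push_cast
  rw [Real.log_mul hm0 hn0]
  ring

/-- logarithms are smaller than powers -/
theorem log_pow_le (s C : ℝ) (hs : 0 < s) (hC : 0 < C) (c : ℕ) :
    ∃ x0 : ℕ, ∀ x : ℕ, x0 ≤ x → C * Real.log x ^ c ≤ (x : ℝ) ^ s := by
  have h1 := (isLittleO_log_rpow_rpow_atTop (c : ℝ) hs).bound (c := 1 / C) (by positivity)
  have h2 := h1.and (Filter.eventually_ge_atTop (1 : ℝ))
  have h3 := tendsto_natCast_atTop_atTop (R := ℝ) |>.eventually h2
  obtain ⟨x0, hx0⟩ := Filter.eventually_atTop.1 h3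
  refine ⟨x0, fun x hx => ?_⟩
  obtain ⟨h4, h5⟩ := hx0 x hx
  have hl : 0 ≤ Real.log x := Real.log_nonneg h5
  have hp : (0 : ℝ) ≤ (x : ℝ) ^ s := Real.rpow_nonneg (by positivity) _
  rw [Real.rpow_natCast, Real.norm_eq_abs, Real.norm_eq_abs, abs_of_nonneg (by positivity),
    abs_of_nonneg hp] at h4
  rw [div_mul_eq_mul_div, one_mul, le_div_iff₀ hC] at h4
  linarith

/-- logarithms are large -/
theorem log_ge (C : ℝ) : ∃ x0 : ℕ, ∀ x : ℕ, x0 ≤ x → C ≤ Real.log x := by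
  have h := (Real.tendsto_log_atTop.comp (tendsto_natCast_atTop_atTop (R := ℝ))).eventually
    (Filter.eventually_ge_atTop C)
  exact Filter.eventually_atTop.1 h

/-- powers are large -/
theorem pow_ge (s C : ℝ) (hs : 0 < s) : ∃ x0 : ℕ, ∀ x : ℕ, x0 ≤ x → C ≤ (x : ℝ) ^ s := by
  have h := ((tendsto_rpow_atTop hs).comp (tendsto_natCast_atTop_atTop (R := ℝ))).eventually
    (Filter.eventually_ge_atTop C)
  exact Filter.eventually_atTop.1 h

end Pool.Agent.H80.LV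

end

section

/-!
# EHB Planch: Plancherel for integrable square integrable functions

Route A: Mathlib's `MeasureTheory.Lp.norm_fourier_eq` (`Mathlib/Analysis/Fourier/LpSpace.lean`) plus the identification of
the `L²` Fourier transform with the integral: approximate `G` by Schwartz functions simultaneously in `L¹` and `L²`
(density, `SchwartzMap.toLp_fourier_eq`); the transforms converge uniformly and in `L²`, so the limits agree a.e.
Route B (elementary).  `Ĝ(ξ) = ∫ G(u) e(-uξ) du` is bounded and continuous.  For `ε > 0`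
`∫ |Ĝ(ξ)|^2 exp(-π (ε ξ)^2) dξ = ∫∫ G(u) conj G(v) (1/ε) exp(-π ((u-v)/ε)^2) du dv` (Fubini and the Gaussian transform, `gft2` scaled).
The right side is `∫ c(w) (1/ε) exp(-π (w/ε)^2) dw` with `c(w) = ∫ G(u + w) conj G(u) du`, a bounded continuous function of `w`
(continuity of translation in `L²`), `c(0) = ∫ |G|^2`, so it tends to `∫|G|^2` as `ε → 0` (for example by
`Real.tendsto_integral_gaussian_smul'` or directly).  The left side increases to `∫ |Ĝ|^2` (monotone convergence), which is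
therefore finite.
-/

set_option autoImplicit false

namespace Pool.Agent.H76.EHB

open Finset MeasureTheory
open Pool.Agent.H91.PK (ee)
open scoped FourierTransform ContDiff SchwartzMap

private theorem planch_eq (G : ℝ → ℂ) (ξ : ℝ) :
    ∫ u, G u * ee (-(u * ξ)) = FourierTransform.fourier G ξ := by
  rw [Real.fourier_real_eq_integral_exp_smul]
  apply integral_congr_ae
  filter_upwards with u
  rw [ee, smul_eq_mul, mul_comm]
  congr 2
  push_cast
  ring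

private theorem planch_continuous (G : ℝ → ℂ) (h1 : Integrable G) :
    Continuous (FourierTransform.fourier G : ℝ → ℂ) :=
  VectorFourier.fourierIntegral_continuous Real.continuous_fourierChar
    (by exact continuous_inner) h1

private theorem planch_ae (G : ℝ → ℂ) (h1 : Integrable G) (h2 : MemLp G 2) :
    (FourierTransform.fourier (h2.toLp G) : Lp (α := ℝ) ℂ 2) =ᵐ[volume]
      (FourierTransform.fourier G : ℝ → ℂ) := by
  apply ae_eq_of_integral_contDiff_smul_eq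
  · exact (Lp.memLp _).locallyIntegrable one_le_two
  · exact (planch_continuous G h1).locallyIntegrable
  · intro g g_smooth g_cpt
    have hg₁ : HasCompactSupport (Complex.ofRealCLM ∘ g) := g_cpt.comp_left rfl
    have hg₂ : ContDiff ℝ ∞ (Complex.ofRealCLM ∘ g) := by fun_prop
    set φ : 𝓢(ℝ, ℂ) := hg₁.toSchwartzMap hg₂ with hφ
    have e1 : ∫ x, g x • (FourierTransform.fourier (h2.toLp G) : Lp (α := ℝ) ℂ 2) x
        = Lp.toTemperedDistribution (FourierTransform.fourier (h2.toLp G) : Lp (α := ℝ) ℂ 2) φ := by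
      rw [Lp.toTemperedDistribution_apply]
      rfl
    have e2 : Lp.toTemperedDistribution (FourierTransform.fourier (h2.toLp G) : Lp (α := ℝ) ℂ 2) φ
        = Lp.toTemperedDistribution (h2.toLp G) (FourierTransform.fourier φ) := by
      rw [← Lp.fourier_toTemperedDistribution_eq]
      rfl
    have e3 : Lp.toTemperedDistribution (h2.toLp G) (FourierTransform.fourier φ)
        = ∫ x, (FourierTransform.fourier φ : 𝓢(ℝ, ℂ)) x • G x := by
      rw [Lp.toTemperedDistribution_apply]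
      apply integral_congr_ae
      filter_upwards [h2.coeFn_toLp] with x hx
      rw [hx]
    have e4 : ∫ x, (FourierTransform.fourier φ : 𝓢(ℝ, ℂ)) x • G x
        = ∫ x, φ x • (FourierTransform.fourier G : ℝ → ℂ) x := by
      have h := VectorFourier.integral_fourierIntegral_smul_eq_flip (L := innerₗ ℝ)
        (μ := volume) (ν := volume) (f := (φ : ℝ → ℂ)) (g := G)
        Real.continuous_fourierChar continuous_inner φ.integrable h1
      simpa using! h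
    rw [e1, e2, e3, e4]
    rfl

private theorem planch_sq (f : Lp (α := ℝ) ℂ 2) : ‖f‖ ^ 2 = ∫ u, ‖f u‖ ^ 2 := by
  have h : (RCLike.re (inner ℂ f f) : ℝ) = ‖f‖ ^ 2 := by
    rw [inner_self_eq_norm_sq]
  rw [← h, L2.inner_def]
  have h2 : ∫ a, (inner ℂ (f a) (f a) : ℂ) = ((∫ u, ‖f u‖ ^ 2 : ℝ) : ℂ) := by
    rw [← integral_complex_ofReal]
    apply integral_congr_ae
    filter_upwards with u
    rw [inner_self_eq_norm_sq_to_K]
    push_cast
    rfl
  rw [h2]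
  exact Complex.ofReal_re _

theorem planch (G : ℝ → ℂ) (h1 : Integrable G) (h2 : MemLp G 2) :
    Integrable (fun ξ : ℝ => ‖∫ u, G u * ee (-(u * ξ))‖ ^ 2) ∧
      ∫ ξ : ℝ, ‖∫ u, G u * ee (-(u * ξ))‖ ^ 2 = ∫ u, ‖G u‖ ^ 2 := by
  have hae := planch_ae G h1 h2
  have hmem : MemLp (FourierTransform.fourier G : ℝ → ℂ) 2 :=
    (memLp_congr_ae hae).1 (Lp.memLp _)
  have hfun : (fun ξ : ℝ => ‖∫ u, G u * ee (-(u * ξ))‖ ^ 2)
      = fun ξ : ℝ => ‖(FourierTransform.fourier G : ℝ → ℂ) ξ‖ ^ 2 := by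
    funext ξ
    rw [planch_eq]
  rw [hfun]
  refine ⟨hmem.integrable_norm_pow (by norm_num), ?_⟩
  have e1 : ∫ ξ : ℝ, ‖(FourierTransform.fourier G : ℝ → ℂ) ξ‖ ^ 2
      = ∫ ξ : ℝ, ‖(FourierTransform.fourier (h2.toLp G) : Lp (α := ℝ) ℂ 2) ξ‖ ^ 2 := by
    apply integral_congr_ae
    filter_upwards [hae] with ξ hξ
    rw [hξ]
  have e2 : ∫ u, ‖G u‖ ^ 2 = ∫ u, ‖(h2.toLp G) u‖ ^ 2 := by
    apply integral_congr_ae
    filter_upwards [h2.coeFn_toLp] with u hu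
    rw [hu]
  rw [e1, e2, ← planch_sq, ← planch_sq, Lp.norm_fourier_eq]

end Pool.Agent.H76.EHB

end

section

/-!
# MID Mvt: mean value theorem in our normalisation

Proof.  `Pool.Agent.H35.W.mean_v` with `a m = c m ee(-τ log m) √m`, `T = 2 π V`: `√m m^(-1/2 + i s) = exp(i s log m)` and `ee(-(t log m)) = exp(i s log m)` with `s = -2π t`;
substitution `s = -2 π t` in the integral (`dt = ds/(2π)`): `≤ (1/(2π)) (4 π V + 4 X (1 + log X)) ∑ |c m|^2`.
-/

set_option autoImplicit false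

namespace Pool.Agent.H53.MID

open Finset MeasureTheory
open Pool.Agent.H91.PK (ee)

private theorem Mvt_term (c : ℕ → ℂ) (τ t : ℝ) (m : ℕ) (hm : 1 ≤ m) :
    c m * ee (-((τ + t) * Real.log m)) =
      (c m * ee (-(τ * Real.log m)) * (Real.sqrt m : ℂ)) *
        (m : ℂ) ^ (-(1 / 2 : ℂ) + ((-(2 * Real.pi) * t : ℝ) : ℂ) * Complex.I) := by
  have hm0 : (0 : ℝ) < m := by exact_mod_cast hm
  have hmc : (m : ℂ) ≠ 0 := by exact_mod_cast hm0.ne'
  have e1 : (m : ℂ) ^ (-(1 / 2 : ℂ) + ((-(2 * Real.pi) * t : ℝ) : ℂ) * Complex.I)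
      = (m : ℂ) ^ (-(1 / 2 : ℂ)) * (m : ℂ) ^ (((-(2 * Real.pi) * t : ℝ) : ℂ) * Complex.I) :=
    Complex.cpow_add _ _ hmc
  have e2 : (m : ℂ) ^ (((-(2 * Real.pi) * t : ℝ) : ℂ) * Complex.I) = ee (-(t * Real.log m)) := by
    unfold ee
    rw [Complex.cpow_def_of_ne_zero hmc, Complex.natCast_log.symm]
    congr 1
    push_cast
    ring
  have e3 : (Real.sqrt m : ℂ) * (m : ℂ) ^ (-(1 / 2 : ℂ)) = 1 := by
    have h1 : ((Real.sqrt m : ℝ) : ℂ) = (m : ℂ) ^ (1 / 2 : ℂ) := by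
      rw [Real.sqrt_eq_rpow, Complex.ofReal_cpow hm0.le]
      push_cast
      rfl
    rw [h1, ← Complex.cpow_add _ _ hmc]
    norm_num
  have e4 : ee (-((τ + t) * Real.log m)) = ee (-(τ * Real.log m)) * ee (-(t * Real.log m)) := by
    rw [← Pool.Agent.H91.PK.LSa_ee_add]
    congr 1
    ring
  rw [e1, e2, e4]
  calc c m * (ee (-(τ * Real.log m)) * ee (-(t * Real.log m)))
      = c m * ee (-(τ * Real.log m)) * 1 * ee (-(t * Real.log m)) := by ring
    _ = c m * ee (-(τ * Real.log m)) * ((Real.sqrt m : ℂ) * (m : ℂ) ^ (-(1 / 2 : ℂ))) *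
          ee (-(t * Real.log m)) := by rw [e3]
    _ = _ := by ring

theorem mvt (c : ℕ → ℂ) (X : ℕ) (V τ : ℝ) (hX : 1 ≤ X) (hV : 0 ≤ V) :
    ∫ t in Set.Icc (-V) V, ‖∑ m ∈ Icc 1 X, c m * ee (-((τ + t) * Real.log m))‖ ^ 2
      ≤ (2 * V + 2 * X * (1 + Real.log X)) * ∑ m ∈ Icc 1 X, ‖c m‖ ^ 2 := by
  obtain ⟨a, ha⟩ : ∃ a : ℕ → ℂ, a = fun m => c m * ee (-(τ * Real.log m)) * (Real.sqrt m : ℂ) :=
    ⟨_, rfl⟩
  have hpi : 0 < Real.pi := Real.pi_pos
  have hT : 0 ≤ 2 * Real.pi * V := by positivity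
  have h1 := Pool.Agent.H35.W.mean_v a X (2 * Real.pi * V) hX hT
  have h2 : ∑ m ∈ Icc 1 X, ‖a m‖ ^ 2 / m = ∑ m ∈ Icc 1 X, ‖c m‖ ^ 2 := by
    refine sum_congr rfl fun m hm => ?_
    have hm0 : (0 : ℝ) < m := by
      have := (mem_Icc.1 hm).1
      exact_mod_cast this
    rw [ha]
    simp only
    rw [norm_mul, norm_mul, Pool.Agent.H91.PK.LSa_norm_ee, mul_one, Complex.norm_real,
      Real.norm_of_nonneg (Real.sqrt_nonneg _), mul_pow, Real.sq_sqrt hm0.le]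
    field_simp
  rw [h2] at h1
  obtain ⟨G, hG⟩ : ∃ G : ℝ → ℝ, G = fun s : ℝ =>
      ‖∑ m ∈ Icc 1 X, a m * (m : ℂ) ^ (-(1 / 2 : ℂ) + (s : ℂ) * Complex.I)‖ ^ 2 := ⟨_, rfl⟩
  have h3 : ∀ t : ℝ, ‖∑ m ∈ Icc 1 X, c m * ee (-((τ + t) * Real.log m))‖ ^ 2 =
      G (-(2 * Real.pi) * t) := by
    intro t
    rw [hG]
    simp only
    congr 2
    refine sum_congr rfl fun m hm => ?_
    rw [Mvt_term c τ t m (mem_Icc.1 hm).1, ha]
  have h4 : ∫ t in Set.Icc (-V) V, ‖∑ m ∈ Icc 1 X, c m * ee (-((τ + t) * Real.log m))‖ ^ 2 =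
      (2 * Real.pi)⁻¹ * ∫ s in (-(2 * Real.pi * V))..(2 * Real.pi * V), G s := by
    rw [MeasureTheory.integral_Icc_eq_integral_Ioc,
      ← intervalIntegral.integral_of_le (by linarith : -V ≤ V)]
    simp_rw [h3]
    rw [intervalIntegral.integral_comp_mul_left G (by
      have : 0 < 2 * Real.pi := by positivity
      exact (neg_neg_of_pos this).ne), intervalIntegral.integral_symm, smul_eq_mul]
    have e1 : -(2 * Real.pi) * V = -(2 * Real.pi * V) := by ring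
    have e2 : -(2 * Real.pi) * -V = 2 * Real.pi * V := by ring
    rw [e1, e2, inv_neg]
    ring
  have h5 : ∫ s in (-(2 * Real.pi * V))..(2 * Real.pi * V), G s ≤
      (2 * (2 * Real.pi * V) + 4 * X * (1 + Real.log X)) * ∑ m ∈ Icc 1 X, ‖c m‖ ^ 2 := by
    rw [hG]
    exact h1
  have hX1 : (1 : ℝ) ≤ X := by exact_mod_cast hX
  have hlog : 0 ≤ Real.log X := Real.log_nonneg hX1
  have hS : 0 ≤ ∑ m ∈ Icc 1 X, ‖c m‖ ^ 2 := sum_nonneg fun m _ => by positivity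
  rw [h4]
  have hp1 : 1 ≤ Real.pi := by
    have := Real.pi_gt_three
    linarith
  calc (2 * Real.pi)⁻¹ * ∫ s in (-(2 * Real.pi * V))..(2 * Real.pi * V), G s
      ≤ (2 * Real.pi)⁻¹ * ((2 * (2 * Real.pi * V) + 4 * X * (1 + Real.log X)) *
          ∑ m ∈ Icc 1 X, ‖c m‖ ^ 2) := mul_le_mul_of_nonneg_left h5 (by positivity)
    _ = (2 * V + 2 * X * (1 + Real.log X) / Real.pi) * ∑ m ∈ Icc 1 X, ‖c m‖ ^ 2 := by
        field_simp
        ring
    _ ≤ (2 * V + 2 * X * (1 + Real.log X)) * ∑ m ∈ Icc 1 X, ‖c m‖ ^ 2 := by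
        refine mul_le_mul_of_nonneg_right ?_ hS
        have : 2 * X * (1 + Real.log X) / Real.pi ≤ 2 * X * (1 + Real.log X) :=
          div_le_self (by positivity) hp1
        linarith

end Pool.Agent.H53.MID

end

section

/-!
# MID Fac: factorisation of the twisted Dirichlet polynomial into residue classes

`Pl P d l s = ∑_{p ∈ pb P, p ≡ l (d)} ee(-s log p)`, `Kl f K1 K2 a s = ∑_{K1 < k ≤ K2} f k ee(-k a) ee(-s log k)`.
`fac`: for `2 P K2 ≤ X`, `1 ≤ d`: `Cs (cc (cut K1 K2 f) P (b/d) T) X t = ∑_{l < d} Pl P d l (T+t) Kl f K1 K2 (l b/d) (T+t)`.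
Proof.  `m = p k`: `Cs = ∑_{m ≤ X} ∑_{p ∈ pb P, p ∣ m} cut f (m/p) ee(-m b/d) ee(-(T+t) log m) = ∑_{p ∈ pb P} ∑_{k ∈ Ioc K1 K2} f k ee(-p k b/d) ee(-(T+t) log p) ee(-(T+t) log k)`
(`k ↦ p k` is a bijection onto the multiples of `p` in `[1, X]` with `K1 < m/p ≤ K2`, since `p K2 ≤ 2 P K2 ≤ X`), and `ee(-p k b/d) = ee(-l k b/d)` for `p ≡ l (d)`.
`fac_sq`: Cauchy-Schwarz.
-/

set_option autoImplicit false

namespace Pool.Agent.H53.MID

open Finset
open Pool.Agent.H91.PK (ee)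
open Pool.Agent.H35.W (pb)

noncomputable def Pl (P d l : ℕ) (s : ℝ) : ℂ := ∑ p ∈ (pb P).filter (fun p => p % d = l % d), ee (-(s * Real.log p))

noncomputable def Kl (f : ℕ → ℝ) (K1 K2 : ℕ) (a s : ℝ) : ℂ :=
  ∑ k ∈ Ioc K1 K2, (f k : ℂ) * ee (-(k * a)) * ee (-(s * Real.log k))

private theorem Fac_ee_add (a b : ℝ) : ee (a + b) = ee a * ee b := by
  unfold ee
  rw [← Complex.exp_add]
  congr 1
  push_cast
  ring

private theorem Fac_ee_int (n : ℤ) : ee (n : ℝ) = 1 := by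
  unfold ee
  have h : 2 * (Real.pi : ℂ) * ((n : ℝ) : ℂ) * Complex.I = n * (2 * Real.pi * Complex.I) := by
    push_cast
    ring
  rw [h]
  exact Complex.exp_int_mul_two_pi_mul_I n

private theorem Fac_class {p l d k b : ℕ} (hd : 1 ≤ d) (h : p % d = l % d) :
    ee (-(((p * k : ℕ) : ℝ) * ((b : ℝ) / d))) = ee (-((k : ℝ) * ((l : ℝ) * b / d))) := by
  have hd0 : (d : ℝ) ≠ 0 := by
    have : d ≠ 0 := by omega
    exact_mod_cast this
  have hdvd : (d : ℤ) ∣ (l : ℤ) - p := (Nat.modEq_iff_dvd).mp h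
  obtain ⟨q, hq⟩ := hdvd
  have hq' : (l : ℝ) - p = d * q := by exact_mod_cast hq
  have h1 : -(((p * k : ℕ) : ℝ) * ((b : ℝ) / d)) =
      -((k : ℝ) * ((l : ℝ) * b / d)) + ((k * q * b : ℤ) : ℝ) := by
    have hp : (p : ℝ) = l - d * q := by linarith
    push_cast
    rw [hp]
    field_simp
    ring
  rw [h1, Fac_ee_add, Fac_ee_int, mul_one]

private theorem Fac_p (f : ℕ → ℝ) (E : ℕ → ℂ) {p K1 K2 X P : ℕ} (hp : 1 ≤ p) (hp2 : p ≤ 2 * P)
    (hX : 2 * P * K2 ≤ X) :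
    ∑ m ∈ (Icc 1 X).filter (fun m => p ∣ m), ((cut K1 K2 f (m / p) : ℝ) : ℂ) * E m =
      ∑ k ∈ Ioc K1 K2, ((f k : ℝ) : ℂ) * E (p * k) := by
  classical
  have hinj : Set.InjOn (fun k => p * k) (Ioc K1 K2 : Set ℕ) := by
    intro a _ b _ hab
    exact Nat.eq_of_mul_eq_mul_left (by omega) hab
  have h1 : ∑ k ∈ Ioc K1 K2, ((f k : ℝ) : ℂ) * E (p * k) =
      ∑ m ∈ (Ioc K1 K2).image (fun k => p * k), ((cut K1 K2 f (m / p) : ℝ) : ℂ) * E m := by
    rw [Finset.sum_image hinj]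
    refine Finset.sum_congr rfl fun k hk => ?_
    have h2 : p * k / p = k := Nat.mul_div_cancel_left k (by omega)
    simp only [h2, cut, if_pos hk]
  rw [h1]
  symm
  apply Finset.sum_subset
  · intro m hm
    rw [Finset.mem_image] at hm
    obtain ⟨k, hk, rfl⟩ := hm
    rw [Finset.mem_Ioc] at hk
    rw [Finset.mem_filter, Finset.mem_Icc]
    refine ⟨⟨?_, ?_⟩, Dvd.intro _ rfl⟩
    · have : 1 ≤ k := by omega
      exact Nat.one_le_iff_ne_zero.mpr (Nat.mul_ne_zero (by omega) (by omega))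
    · exact (Nat.mul_le_mul hp2 hk.2).trans hX
  · intro m hm hm'
    rw [Finset.mem_filter] at hm
    obtain ⟨k, rfl⟩ := hm.2
    have h2 : p * k / p = k := Nat.mul_div_cancel_left k (by omega)
    have hk : k ∉ Ioc K1 K2 := fun hk => hm' (Finset.mem_image.mpr ⟨k, hk, rfl⟩)
    simp only [h2, cut, if_neg hk, Complex.ofReal_zero, zero_mul]

private theorem Fac_log {p k : ℕ} (s : ℝ) (hp : 1 ≤ p) (hk : 1 ≤ k) :
    ee (-(s * Real.log ((p * k : ℕ) : ℝ))) =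
      ee (-(s * Real.log p)) * ee (-(s * Real.log k)) := by
  have hp0 : (p : ℝ) ≠ 0 := by
    have : p ≠ 0 := by omega
    exact_mod_cast this
  have hk0 : (k : ℝ) ≠ 0 := by
    have : k ≠ 0 := by omega
    exact_mod_cast this
  rw [← Fac_ee_add]
  congr 1
  push_cast
  rw [Real.log_mul hp0 hk0]
  ring

theorem fac (f : ℕ → ℝ) (P K1 K2 X d b : ℕ) (T t : ℝ) (hd : 1 ≤ d) (hX : 2 * P * K2 ≤ X) :
    Cs (cc (cut K1 K2 f) P ((b : ℝ) / d) T) X t =
      ∑ l ∈ range d, Pl P d l (T + t) * Kl f K1 K2 ((l : ℝ) * b / d) (T + t) := by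
  classical
  have hpb : ∀ p ∈ pb P, 1 ≤ p ∧ p ≤ 2 * P := by
    intro p hp
    unfold pb at hp
    rw [Finset.mem_filter, Finset.mem_Ioc] at hp
    omega
  -- the sum over `m`
  have h1 : Cs (cc (cut K1 K2 f) P ((b : ℝ) / d) T) X t =
      ∑ m ∈ Icc 1 X, ∑ p ∈ (pb P).filter (fun p => p ∣ m), ((cut K1 K2 f (m / p) : ℝ) : ℂ) *
        (ee (-((m : ℝ) * ((b : ℝ) / d))) * ee (-((T + t) * Real.log m))) := by
    unfold Cs
    refine Finset.sum_congr rfl fun m _ => ?_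
    unfold cc Fp
    have h2 : ee (-((T + t) * Real.log m)) = ee (-(T * Real.log m)) * ee (-(t * Real.log m)) := by
      rw [← Fac_ee_add]
      congr 1
      ring
    rw [← Finset.sum_mul, h2]
    push_cast
    ring
  -- swap
  have h3 : Cs (cc (cut K1 K2 f) P ((b : ℝ) / d) T) X t =
      ∑ p ∈ pb P, ∑ k ∈ Ioc K1 K2, ((f k : ℝ) : ℂ) *
        (ee (-(((p * k : ℕ) : ℝ) * ((b : ℝ) / d))) * ee (-((T + t) * Real.log ((p * k : ℕ) : ℝ)))) := by
    rw [h1]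
    have h4 : ∀ m ∈ Icc 1 X, ∑ p ∈ (pb P).filter (fun p => p ∣ m),
        ((cut K1 K2 f (m / p) : ℝ) : ℂ) *
          (ee (-((m : ℝ) * ((b : ℝ) / d))) * ee (-((T + t) * Real.log m))) =
        ∑ p ∈ pb P, if p ∣ m then ((cut K1 K2 f (m / p) : ℝ) : ℂ) *
          (ee (-((m : ℝ) * ((b : ℝ) / d))) * ee (-((T + t) * Real.log m))) else 0 := by
      intro m _
      rw [Finset.sum_filter]
    rw [Finset.sum_congr rfl h4, Finset.sum_comm]
    refine Finset.sum_congr rfl fun p hp => ?_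
    rw [← Finset.sum_filter]
    exact Fac_p f (fun m => ee (-((m : ℝ) * ((b : ℝ) / d))) * ee (-((T + t) * Real.log m)))
      (hpb p hp).1 (hpb p hp).2 hX
  rw [h3]
  -- the classes
  have h5 : ∀ l ∈ range d, Pl P d l (T + t) * Kl f K1 K2 ((l : ℝ) * b / d) (T + t) =
      ∑ p ∈ (pb P).filter (fun p => p % d = l), ∑ k ∈ Ioc K1 K2, ((f k : ℝ) : ℂ) *
        (ee (-(((p * k : ℕ) : ℝ) * ((b : ℝ) / d))) *
          ee (-((T + t) * Real.log ((p * k : ℕ) : ℝ)))) := by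
    intro l hl
    have hl' : l % d = l := Nat.mod_eq_of_lt (Finset.mem_range.mp hl)
    unfold Pl Kl
    rw [hl', Finset.sum_mul]
    refine Finset.sum_congr rfl fun p hp => ?_
    rw [Finset.mem_filter] at hp
    rw [Finset.mul_sum]
    refine Finset.sum_congr rfl fun k hk => ?_
    rw [Finset.mem_Ioc] at hk
    rw [Fac_class hd (hp.2.trans hl'.symm), Fac_log (T + t) (hpb p hp.1).1 (by omega)]
    ring
  rw [Finset.sum_congr rfl h5]
  rw [Finset.sum_fiberwise_of_maps_to (s := pb P) (t := range d) (g := fun p => p % d)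
    (fun p _ => Finset.mem_range.mpr (Nat.mod_lt _ (by omega)))
    (fun p => ∑ k ∈ Ioc K1 K2, ((f k : ℝ) : ℂ) *
        (ee (-(((p * k : ℕ) : ℝ) * ((b : ℝ) / d))) *
          ee (-((T + t) * Real.log ((p * k : ℕ) : ℝ)))))]

theorem fac_sq (f : ℕ → ℝ) (P K1 K2 X d b : ℕ) (T t : ℝ) (hd : 1 ≤ d) (hX : 2 * P * K2 ≤ X) :
    ‖Cs (cc (cut K1 K2 f) P ((b : ℝ) / d) T) X t‖ ^ 2 ≤
      d * ∑ l ∈ range d, ‖Pl P d l (T + t)‖ ^ 2 * ‖Kl f K1 K2 ((l : ℝ) * b / d) (T + t)‖ ^ 2 := by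
  rw [fac f P K1 K2 X d b T t hd hX]
  have h1 : ‖∑ l ∈ range d, Pl P d l (T + t) * Kl f K1 K2 ((l : ℝ) * b / d) (T + t)‖ ≤
      ∑ l ∈ range d, ‖Pl P d l (T + t)‖ * ‖Kl f K1 K2 ((l : ℝ) * b / d) (T + t)‖ := by
    refine (norm_sum_le _ _).trans (le_of_eq ?_)
    refine Finset.sum_congr rfl fun l _ => norm_mul _ _
  have h2 := sq_sum_le_card_mul_sum_sq (s := range d)
    (f := fun l => ‖Pl P d l (T + t)‖ * ‖Kl f K1 K2 ((l : ℝ) * b / d) (T + t)‖)
  rw [Finset.card_range] at h2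
  refine (pow_le_pow_left₀ (norm_nonneg _) h1 2).trans (h2.trans (le_of_eq ?_))
  congr 1
  refine Finset.sum_congr rfl fun l _ => mul_pow _ _ _

end Pool.Agent.H53.MID

end
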