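import Pool.Agent.H43.PJ.M09

/-! The parts of this file: H91.GoldMertens3, H91.PK.MB. -/

section

/-!
Data for the combination with `q = 24`, `L = 360`.
-/

namespace Pool.Agent.H91.Gold

open Finset Real

def cA : Cmb where
  q := 24
  L := 360
  K := 24000
  M := 100000
  P := [(24, 49), (25, 2), (26, 2), (27, 2), (28, 2), (29, 2), (30, 2), (31, 2), (32, 2), (33, 2), (34, 2), (35, 2), (36, 2), (37, 2), (38, 2), (39, 2), (40, 2), (41, 2), (42, 2), (43, 2), (44, 2), (45, 2), (46, 2), (47, 2), (49, 2), (51, 2), (53, 2), (55, 2), (57, 2), (59, 2), (61, 2), (63, 2), (65, 2), (67, 2), (69, 2), (71, 2), (73, 2), (77, 2), (79, 2), (83, 2), (85, 2), (89, 2), (91, 2), (95, 2), (97, 2), (101, 2), (103, 2), (107, 2), (109, 2), (113, 2), (115, 2), (119, 2), (121, 2), (127, 2), (131, 2), (133, 2), (137, 2), (139, 2), (143, 2), (144, 47), (149, 2), (151, 2), (157, 2), (161, 2), (163, 2), (167, 2), (169, 2), (173, 2), (179, 2), (181, 2), (187, 2), (191, 2), (193,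 2), (197, 2), (199, 2), (209, 2), (211, 2), (221, 2), (223, 2), (227, 2), (229, 2), (233, 2), (239, 2), (240, 47), (241, 2), (247, 2), (251, 2), (253, 2), (257, 2), (263, 2), (269, 2), (271, 2), (277, 2), (281, 2), (283, 2), (289, 2), (293, 2), (299, 2), (307, 2), (311, 2), (313, 2), (317, 2), (323, 2), (331, 2), (336, 47), (337, 2), (347, 2), (349, 2), (353, 2), (359, 2)]
  N := [(48, 47), (72, 49), (78, 2), (84, 2), (90, 2), (96, 2), (102, 2), (108, 2), (114, 2), (120, 51), (126, 2), (130, 2), (132, 2), (135, 2), (138, 2), (140, 2), (150, 2), (160, 2), (165, 2), (168, 49), (170, 2), (175, 2), (180, 2), (182, 2), (189, 2), (190, 2), (195, 2), (196, 2), (200, 2), (210, 4), (220, 2), (224, 2), (225, 2), (230, 2), (231, 2), (238, 2), (245, 2), (252, 2), (255, 2), (264, 49), (266, 2), (273, 2), (275, 2), (280, 2), (285, 2), (286, 2), (294, 2), (297, 2), (308, 4), (312, 49), (315, 4), (322, 2), (325, 2), (330, 2), (338, 2), (345, 2), (351, 2), (352,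 2), (357, 2)]
  SU := [(24, 100000), (360, 4103761), (361, 200000), (383, 200000), (643, 200000), (660, 200000), (661, 200000), (1584, 3111283), (22464, 318138), (22465, 200000), (24000, 32163058)]
  SL := [(24, 100000), (408, 396240), (418, 200000), (456, 4700000), (476, 200000), (495, 200000), (748, 196240), (783, 200000), (1464, 992480), (2491, 192480), (2492, 200000), (2494, 200000), (5785, 62400), (6528, 192480), (6534, 200000), (6545, 200000), (6792, 400000), (6795, 200000), (10557, 58640), (11835, 188720), (11836, 200000), (11837, 200000), (11850, 200000), (24000, 30720320)]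
  w := 796239

set_option maxRecDepth 10000

def fP (k : ℕ) : ℕ := Nat.add (Nat.mul (nat_lit 49) (Nat.div k (nat_lit 24))) (Nat.add (Nat.mul (nat_lit 2) (Nat.div k (nat_lit 25))) (Nat.add (Nat.mul (nat_lit 2) (Nat.div k (nat_lit 26))) (Nat.add (Nat.mul (nat_lit 2) (Nat.div k (nat_lit 27))) (Nat.add (Nat.mul (nat_lit 2) (Nat.div k (nat_lit 28))) (Nat.add (Nat.mul (nat_lit 2) (Nat.div k (nat_lit 29))) (Nat.add (Nat.mul (nat_lit 2) (Nat.div k (nat_lit 30))) (Nat.add (Nat.mul (nat_lit 2) (Nat.div k (nat_lit 31))) (Nat.add (Nat.mul (nat_lit 2) (Nat.div k (nat_lit 32))) (Nat.add (Nat.mul (nat_lit 2) (Nat.div k (nat_lit 33))) (Nat.add (Nat.mul (nat_lit 2) (Nat.div k (nat_lit 34))) (Nat.add (Nat.mul (nat_lit 2) (Nat.div k (nat_lit 35))) (Nat.add (Nat.mul (nat_lit 2) (Nat.div k (nat_lit 36))) (Nat.add (Nat.mul (nat_lit 2) (Nat.div k (nat_lit 37))) (Nat.add (Nat.mul (nat_lit 2) (Nat.div k (nat_lit 38))) (Nat.add (Nat.mul (nat_lit 2) (Nat.div k (nat_lit 39)))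 (Nat.add (Nat.mul (nat_lit 2) (Nat.div k (nat_lit 40))) (Nat.add (Nat.mul (nat_lit 2) (Nat.div k (nat_lit 41))) (Nat.add (Nat.mul (nat_lit 2) (Nat.div k (nat_lit 42))) (Nat.add (Nat.mul (nat_lit 2) (Nat.div k (nat_lit 43))) (Nat.add (Nat.mul (nat_lit 2) (Nat.div k (nat_lit 44))) (Nat.add (Nat.mul (nat_lit 2) (Nat.div k (nat_lit 45))) (Nat.add (Nat.mul (nat_lit 2) (Nat.div k (nat_lit 46))) (Nat.add (Nat.mul (nat_lit 2) (Nat.div k (nat_lit 47))) (Nat.add (Nat.mul (nat_lit 2) (Nat.div k (nat_lit 49))) (Nat.add (Nat.mul (nat_lit 2) (Nat.div k (nat_lit 51))) (Nat.add (Nat.mul (nat_lit 2) (Nat.div k (nat_lit 53))) (Nat.add (Nat.mul (nat_lit 2) (Nat.div k (nat_lit 55))) (Nat.add (Nat.mul (nat_lit 2) (Nat.div k (nat_lit 57))) (Nat.add (Nat.mul (nat_lit 2) (Nat.div k (nat_lit 59))) (Nat.add (Nat.mul (nat_lit 2) (Nat.div k (nat_lit 61))) (Nat.add (Nat.mul (nat_lit 2) (Nat.div k (nat_lit 63))) (Nat.add (Nat.mul (nat_lit 2) (Nat.div k (nat_lit 65))) (Nat.add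 (Nat.mul (nat_lit 2) (Nat.div k (nat_lit 67))) (Nat.add (Nat.mul (nat_lit 2) (Nat.div k (nat_lit 69))) (Nat.add (Nat.mul (nat_lit 2) (Nat.div k (nat_lit 71))) (Nat.add (Nat.mul (nat_lit 2) (Nat.div k (nat_lit 73))) (Nat.add (Nat.mul (nat_lit 2) (Nat.div k (nat_lit 77))) (Nat.add (Nat.mul (nat_lit 2) (Nat.div k (nat_lit 79))) (Nat.add (Nat.mul (nat_lit 2) (Nat.div k (nat_lit 83))) (Nat.add (Nat.mul (nat_lit 2) (Nat.div k (nat_lit 85))) (Nat.add (Nat.mul (nat_lit 2) (Nat.div k (nat_lit 89))) (Nat.add (Nat.mul (nat_lit 2) (Nat.div k (nat_lit 91))) (Nat.add (Nat.mul (nat_lit 2) (Nat.div k (nat_lit 95))) (Nat.add (Nat.mul (nat_lit 2) (Nat.div k (nat_lit 97))) (Nat.add (Nat.mul (nat_lit 2) (Nat.div k (nat_lit 101))) (Nat.add (Nat.mul (nat_lit 2) (Nat.div k (nat_lit 103))) (Nat.add (Nat.mul (nat_lit 2) (Nat.div k (nat_lit 107))) (Nat.add (Nat.mul (nat_lit 2) (Nat.div k (nat_lit 109))) (Nat.add (Nat.mul (nat_lit 2) (Nat.div k (nat_lit 113))) (Nat.add (Nat.mul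 (nat_lit 2) (Nat.div k (nat_lit 115))) (Nat.add (Nat.mul (nat_lit 2) (Nat.div k (nat_lit 119))) (Nat.add (Nat.mul (nat_lit 2) (Nat.div k (nat_lit 121))) (Nat.add (Nat.mul (nat_lit 2) (Nat.div k (nat_lit 127))) (Nat.add (Nat.mul (nat_lit 2) (Nat.div k (nat_lit 131))) (Nat.add (Nat.mul (nat_lit 2) (Nat.div k (nat_lit 133))) (Nat.add (Nat.mul (nat_lit 2) (Nat.div k (nat_lit 137))) (Nat.add (Nat.mul (nat_lit 2) (Nat.div k (nat_lit 139))) (Nat.add (Nat.mul (nat_lit 2) (Nat.div k (nat_lit 143))) (Nat.add (Nat.mul (nat_lit 47) (Nat.div k (nat_lit 144))) (Nat.add (Nat.mul (nat_lit 2) (Nat.div k (nat_lit 149))) (Nat.add (Nat.mul (nat_lit 2) (Nat.div k (nat_lit 151))) (Nat.add (Nat.mul (nat_lit 2) (Nat.div k (nat_lit 157))) (Nat.add (Nat.mul (nat_lit 2) (Nat.div k (nat_lit 161))) (Nat.add (Nat.mul (nat_lit 2) (Nat.div k (nat_lit 163))) (Nat.add (Nat.mul (nat_lit 2) (Nat.div k (nat_lit 167))) (Nat.add (Nat.mul (nat_lit 2) (Nat.div k (nat_lit 169))) (Nat.add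 (Nat.mul (nat_lit 2) (Nat.div k (nat_lit 173))) (Nat.add (Nat.mul (nat_lit 2) (Nat.div k (nat_lit 179))) (Nat.add (Nat.mul (nat_lit 2) (Nat.div k (nat_lit 181))) (Nat.add (Nat.mul (nat_lit 2) (Nat.div k (nat_lit 187))) (Nat.add (Nat.mul (nat_lit 2) (Nat.div k (nat_lit 191))) (Nat.add (Nat.mul (nat_lit 2) (Nat.div k (nat_lit 193))) (Nat.add (Nat.mul (nat_lit 2) (Nat.div k (nat_lit 197))) (Nat.add (Nat.mul (nat_lit 2) (Nat.div k (nat_lit 199))) (Nat.add (Nat.mul (nat_lit 2) (Nat.div k (nat_lit 209))) (Nat.add (Nat.mul (nat_lit 2) (Nat.div k (nat_lit 211))) (Nat.add (Nat.mul (nat_lit 2) (Nat.div k (nat_lit 221))) (Nat.add (Nat.mul (nat_lit 2) (Nat.div k (nat_lit 223))) (Nat.add (Nat.mul (nat_lit 2) (Nat.div k (nat_lit 227))) (Nat.add (Nat.mul (nat_lit 2) (Nat.div k (nat_lit 229))) (Nat.add (Nat.mul (nat_lit 2) (Nat.div k (nat_lit 233))) (Nat.add (Nat.mul (nat_lit 2) (Nat.div k (nat_lit 239))) (Nat.add (Nat.mul (nat_lit 47) (Nat.div k (nat_lit 240)))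 (Nat.add (Nat.mul (nat_lit 2) (Nat.div k (nat_lit 241))) (Nat.add (Nat.mul (nat_lit 2) (Nat.div k (nat_lit 247))) (Nat.add (Nat.mul (nat_lit 2) (Nat.div k (nat_lit 251))) (Nat.add (Nat.mul (nat_lit 2) (Nat.div k (nat_lit 253))) (Nat.add (Nat.mul (nat_lit 2) (Nat.div k (nat_lit 257))) (Nat.add (Nat.mul (nat_lit 2) (Nat.div k (nat_lit 263))) (Nat.add (Nat.mul (nat_lit 2) (Nat.div k (nat_lit 269))) (Nat.add (Nat.mul (nat_lit 2) (Nat.div k (nat_lit 271))) (Nat.add (Nat.mul (nat_lit 2) (Nat.div k (nat_lit 277))) (Nat.add (Nat.mul (nat_lit 2) (Nat.div k (nat_lit 281))) (Nat.add (Nat.mul (nat_lit 2) (Nat.div k (nat_lit 283))) (Nat.add (Nat.mul (nat_lit 2) (Nat.div k (nat_lit 289))) (Nat.add (Nat.mul (nat_lit 2) (Nat.div k (nat_lit 293))) (Nat.add (Nat.mul (nat_lit 2) (Nat.div k (nat_lit 299))) (Nat.add (Nat.mul (nat_lit 2) (Nat.div k (nat_lit 307))) (Nat.add (Nat.mul (nat_lit 2) (Nat.div k (nat_lit 311))) (Nat.add (Nat.mul (nat_lit 2) (Nat.div k (nat_lit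 313))) (Nat.add (Nat.mul (nat_lit 2) (Nat.div k (nat_lit 317))) (Nat.add (Nat.mul (nat_lit 2) (Nat.div k (nat_lit 323))) (Nat.add (Nat.mul (nat_lit 2) (Nat.div k (nat_lit 331))) (Nat.add (Nat.mul (nat_lit 47) (Nat.div k (nat_lit 336))) (Nat.add (Nat.mul (nat_lit 2) (Nat.div k (nat_lit 337))) (Nat.add (Nat.mul (nat_lit 2) (Nat.div k (nat_lit 347))) (Nat.add (Nat.mul (nat_lit 2) (Nat.div k (nat_lit 349))) (Nat.add (Nat.mul (nat_lit 2) (Nat.div k (nat_lit 353))) (Nat.add (Nat.mul (nat_lit 2) (Nat.div k (nat_lit 359))) ((nat_lit 0)))))))))))))))))))))))))))))))))))))))))))))))))))))))))))))))))))))))))))))))))))))))))))))))))))))))))))))))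

def fN (k : ℕ) : ℕ := Nat.add (Nat.mul (nat_lit 47) (Nat.div k (nat_lit 48))) (Nat.add (Nat.mul (nat_lit 49) (Nat.div k (nat_lit 72))) (Nat.add (Nat.mul (nat_lit 2) (Nat.div k (nat_lit 78))) (Nat.add (Nat.mul (nat_lit 2) (Nat.div k (nat_lit 84))) (Nat.add (Nat.mul (nat_lit 2) (Nat.div k (nat_lit 90))) (Nat.add (Nat.mul (nat_lit 2) (Nat.div k (nat_lit 96))) (Nat.add (Nat.mul (nat_lit 2) (Nat.div k (nat_lit 102))) (Nat.add (Nat.mul (nat_lit 2) (Nat.div k (nat_lit 108))) (Nat.add (Nat.mul (nat_lit 2) (Nat.div k (nat_lit 114))) (Nat.add (Nat.mul (nat_lit 51) (Nat.div k (nat_lit 120))) (Nat.add (Nat.mul (nat_lit 2) (Nat.div k (nat_lit 126))) (Nat.add (Nat.mul (nat_lit 2) (Nat.div k (nat_lit 130))) (Nat.add (Nat.mul (nat_lit 2) (Nat.div k (nat_lit 132))) (Nat.add (Nat.mul (nat_lit 2) (Nat.div k (nat_lit 135))) (Nat.add (Nat.mul (nat_lit 2) (Nat.div k (nat_lit 138))) (Nat.add (Nat.mul (nat_lit 2) (Nat.div k (nat_lit 140))) (Nat.add (Nat.mul (nat_lit 2)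 (Nat.div k (nat_lit 150))) (Nat.add (Nat.mul (nat_lit 2) (Nat.div k (nat_lit 160))) (Nat.add (Nat.mul (nat_lit 2) (Nat.div k (nat_lit 165))) (Nat.add (Nat.mul (nat_lit 49) (Nat.div k (nat_lit 168))) (Nat.add (Nat.mul (nat_lit 2) (Nat.div k (nat_lit 170))) (Nat.add (Nat.mul (nat_lit 2) (Nat.div k (nat_lit 175))) (Nat.add (Nat.mul (nat_lit 2) (Nat.div k (nat_lit 180))) (Nat.add (Nat.mul (nat_lit 2) (Nat.div k (nat_lit 182))) (Nat.add (Nat.mul (nat_lit 2) (Nat.div k (nat_lit 189))) (Nat.add (Nat.mul (nat_lit 2) (Nat.div k (nat_lit 190))) (Nat.add (Nat.mul (nat_lit 2) (Nat.div k (nat_lit 195))) (Nat.add (Nat.mul (nat_lit 2) (Nat.div k (nat_lit 196))) (Nat.add (Nat.mul (nat_lit 2) (Nat.div k (nat_lit 200))) (Nat.add (Nat.mul (nat_lit 4) (Nat.div k (nat_lit 210))) (Nat.add (Nat.mul (nat_lit 2) (Nat.div k (nat_lit 220))) (Nat.add (Nat.mul (nat_lit 2) (Nat.div k (nat_lit 224))) (Nat.add (Nat.mul (nat_lit 2) (Nat.div k (nat_lit 225))) (Nat.add (Nat.mul (nat_lit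 2) (Nat.div k (nat_lit 230))) (Nat.add (Nat.mul (nat_lit 2) (Nat.div k (nat_lit 231))) (Nat.add (Nat.mul (nat_lit 2) (Nat.div k (nat_lit 238))) (Nat.add (Nat.mul (nat_lit 2) (Nat.div k (nat_lit 245))) (Nat.add (Nat.mul (nat_lit 2) (Nat.div k (nat_lit 252))) (Nat.add (Nat.mul (nat_lit 2) (Nat.div k (nat_lit 255))) (Nat.add (Nat.mul (nat_lit 49) (Nat.div k (nat_lit 264))) (Nat.add (Nat.mul (nat_lit 2) (Nat.div k (nat_lit 266))) (Nat.add (Nat.mul (nat_lit 2) (Nat.div k (nat_lit 273))) (Nat.add (Nat.mul (nat_lit 2) (Nat.div k (nat_lit 275))) (Nat.add (Nat.mul (nat_lit 2) (Nat.div k (nat_lit 280))) (Nat.add (Nat.mul (nat_lit 2) (Nat.div k (nat_lit 285))) (Nat.add (Nat.mul (nat_lit 2) (Nat.div k (nat_lit 286))) (Nat.add (Nat.mul (nat_lit 2) (Nat.div k (nat_lit 294))) (Nat.add (Nat.mul (nat_lit 2) (Nat.div k (nat_lit 297))) (Nat.add (Nat.mul (nat_lit 4) (Nat.div k (nat_lit 308))) (Nat.add (Nat.mul (nat_lit 49) (Nat.div k (nat_lit 312))) (Nat.add (Nat.mul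 (nat_lit 4) (Nat.div k (nat_lit 315))) (Nat.add (Nat.mul (nat_lit 2) (Nat.div k (nat_lit 322))) (Nat.add (Nat.mul (nat_lit 2) (Nat.div k (nat_lit 325))) (Nat.add (Nat.mul (nat_lit 2) (Nat.div k (nat_lit 330))) (Nat.add (Nat.mul (nat_lit 2) (Nat.div k (nat_lit 338))) (Nat.add (Nat.mul (nat_lit 2) (Nat.div k (nat_lit 345))) (Nat.add (Nat.mul (nat_lit 2) (Nat.div k (nat_lit 351))) (Nat.add (Nat.mul (nat_lit 2) (Nat.div k (nat_lit 352))) (Nat.add (Nat.mul (nat_lit 2) (Nat.div k (nat_lit 357))) ((nat_lit 0))))))))))))))))))))))))))))))))))))))))))))))))))))))))))))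

def fSU (k : ℕ) : ℕ := Nat.add (cond (Nat.ble (nat_lit 24) k) (nat_lit 100000) (nat_lit 0)) (Nat.add (cond (Nat.ble (nat_lit 360) k) (nat_lit 4103761) (nat_lit 0)) (Nat.add (cond (Nat.ble (nat_lit 361) k) (nat_lit 200000) (nat_lit 0)) (Nat.add (cond (Nat.ble (nat_lit 383) k) (nat_lit 200000) (nat_lit 0)) (Nat.add (cond (Nat.ble (nat_lit 643) k) (nat_lit 200000) (nat_lit 0)) (Nat.add (cond (Nat.ble (nat_lit 660) k) (nat_lit 200000) (nat_lit 0)) (Nat.add (cond (Nat.ble (nat_lit 661) k) (nat_lit 200000) (nat_lit 0)) (Nat.add (cond (Nat.ble (nat_lit 1584) k) (nat_lit 3111283) (nat_lit 0)) (Nat.add (cond (Nat.ble (nat_lit 22464) k) (nat_lit 318138) (nat_lit 0)) (Nat.add (cond (Nat.ble (nat_lit 22465) k) (nat_lit 200000) (nat_lit 0)) (Nat.add (cond (Nat.ble (nat_lit 24000) k) (nat_lit 32163058) (nat_lit 0)) ((nat_lit 0))))))))))))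

def fSL (k : ℕ) : ℕ := Nat.add (cond (Nat.ble (nat_lit 24) k) (nat_lit 100000) (nat_lit 0)) (Nat.add (cond (Nat.ble (nat_lit 408) k) (nat_lit 396240) (nat_lit 0)) (Nat.add (cond (Nat.ble (nat_lit 418) k) (nat_lit 200000) (nat_lit 0)) (Nat.add (cond (Nat.ble (nat_lit 456) k) (nat_lit 4700000) (nat_lit 0)) (Nat.add (cond (Nat.ble (nat_lit 476) k) (nat_lit 200000) (nat_lit 0)) (Nat.add (cond (Nat.ble (nat_lit 495) k) (nat_lit 200000) (nat_lit 0)) (Nat.add (cond (Nat.ble (nat_lit 748) k) (nat_lit 196240) (nat_lit 0)) (Nat.add (cond (Nat.ble (nat_lit 783) k) (nat_lit 200000) (nat_lit 0)) (Nat.add (cond (Nat.ble (nat_lit 1464) k) (nat_lit 992480) (nat_lit 0)) (Nat.add (cond (Nat.ble (nat_lit 2491) k) (nat_lit 192480) (nat_lit 0)) (Nat.add (cond (Nat.ble (nat_lit 2492) k) (nat_lit 200000) (nat_lit 0)) (Nat.add (cond (Nat.ble (nat_lit 2494) k) (nat_lit 200000) (nat_lit 0)) (Nat.add (cond (Nat.ble (nat_lit 5785) k) (nat_lit 62400) (nat_lit 0)) (Nat.add (cond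 (Nat.ble (nat_lit 6528) k) (nat_lit 192480) (nat_lit 0)) (Nat.add (cond (Nat.ble (nat_lit 6534) k) (nat_lit 200000) (nat_lit 0)) (Nat.add (cond (Nat.ble (nat_lit 6545) k) (nat_lit 200000) (nat_lit 0)) (Nat.add (cond (Nat.ble (nat_lit 6792) k) (nat_lit 400000) (nat_lit 0)) (Nat.add (cond (Nat.ble (nat_lit 6795) k) (nat_lit 200000) (nat_lit 0)) (Nat.add (cond (Nat.ble (nat_lit 10557) k) (nat_lit 58640) (nat_lit 0)) (Nat.add (cond (Nat.ble (nat_lit 11835) k) (nat_lit 188720) (nat_lit 0)) (Nat.add (cond (Nat.ble (nat_lit 11836) k) (nat_lit 200000) (nat_lit 0)) (Nat.add (cond (Nat.ble (nat_lit 11837) k) (nat_lit 200000) (nat_lit 0)) (Nat.add (cond (Nat.ble (nat_lit 11850) k) (nat_lit 200000) (nat_lit 0)) (Nat.add (cond (Nat.ble (nat_lit 24000) k) (nat_lit 30720320) (nat_lit 0)) ((nat_lit 0)))))))))))))))))))))))))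

theorem fP_eq (k : ℕ) : evl cA.P k = fP k := rfl

theorem fN_eq (k : ℕ) : evl cA.N k = fN k := rfl

theorem fSU_eq (k : ℕ) : stp cA.SU k = fSU k := by rw [stp_eq]; rfl

theorem fSL_eq (k : ℕ) : stp cA.SL k = fSL k := by rw [stp_eq]; rfl

def fchk (k : ℕ) : Bool :=
  and (Nat.ble (Nat.mul (Nat.add (Nat.add (Nat.add k k) (nat_lit 2)) (fN k)) (nat_lit 100000))
      (Nat.add (Nat.add (Nat.mul (fP k) (nat_lit 100000)) (Nat.mul (nat_lit 796239) (Nat.div k (nat_lit 360)))) (fSU k)))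
    (Nat.ble (Nat.add (Nat.mul (fP k) (nat_lit 100000)) (Nat.mul (nat_lit 796240) (Nat.div k (nat_lit 360))))
      (Nat.add (Nat.mul (Nat.add (Nat.add k k) (fN k)) (nat_lit 100000)) (fSL k)))

theorem fchk_spec {k : ℕ} (h : fchk k = true) : cA.chkU k = true ∧ cA.chkL k = true := by
  unfold fchk at h
  rw [Bool.and_eq_true, Nat.ble_eq, Nat.ble_eq] at h
  unfold Cmb.chkU Cmb.chkL
  rw [Nat.ble_eq, Nat.ble_eq, fP_eq, fN_eq, fSU_eq, fSL_eq]
  obtain ⟨h1, h2⟩ := h
  constructor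
  · have e : 2 * (k + 1) = k + k + 2 := by ring
    rw [e]; exact h1
  · have e : 2 * k = k + k := by ring
    rw [e]; exact h2

theorem cA_0 : allD fchk 24 1523 = true := by decide +kernel
theorem cA_1 : allD fchk 1523 3022 = true := by decide +kernel
theorem cA_2 : allD fchk 3022 4521 = true := by decide +kernel
theorem cA_3 : allD fchk 4521 6020 = true := by decide +kernel
theorem cA_4 : allD fchk 6020 7519 = true := by decide +kernel
theorem cA_5 : allD fchk 7519 9018 = true := by decide +kernel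
theorem cA_6 : allD fchk 9018 10517 = true := by decide +kernel
theorem cA_7 : allD fchk 10517 12016 = true := by decide +kernel
theorem cA_8 : allD fchk 12016 13515 = true := by decide +kernel
theorem cA_9 : allD fchk 13515 15014 = true := by decide +kernel
theorem cA_10 : allD fchk 15014 16513 = true := by decide +kernel
theorem cA_11 : allD fchk 16513 18012 = true := by decide +kernel
theorem cA_12 : allD fchk 18012 19511 = true := by decide +kernel
theorem cA_13 : allD fchk 19511 21010 = true := by decide +kernel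
theorem cA_14 : allD fchk 21010 22509 = true := by decide +kernel
theorem cA_15 : allD fchk 22509 24000 = true := by decide +kernel

theorem cA_all : ∀ k, 24 ≤ k → k < 24000 → fchk k = true := by
  intro k h1 h2
  rcases Nat.lt_or_ge k 1523 with h | h1
  · exact allD_spec cA_0 k h1 h
  rcases Nat.lt_or_ge k 3022 with h | h1
  · exact allD_spec cA_1 k h1 h
  rcases Nat.lt_or_ge k 4521 with h | h1
  · exact allD_spec cA_2 k h1 h
  rcases Nat.lt_or_ge k 6020 with h | h1
  · exact allD_spec cA_3 k h1 h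
  rcases Nat.lt_or_ge k 7519 with h | h1
  · exact allD_spec cA_4 k h1 h
  rcases Nat.lt_or_ge k 9018 with h | h1
  · exact allD_spec cA_5 k h1 h
  rcases Nat.lt_or_ge k 10517 with h | h1
  · exact allD_spec cA_6 k h1 h
  rcases Nat.lt_or_ge k 12016 with h | h1
  · exact allD_spec cA_7 k h1 h
  rcases Nat.lt_or_ge k 13515 with h | h1
  · exact allD_spec cA_8 k h1 h
  rcases Nat.lt_or_ge k 15014 with h | h1
  · exact allD_spec cA_9 k h1 h
  rcases Nat.lt_or_ge k 16513 with h | h1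
  · exact allD_spec cA_10 k h1 h
  rcases Nat.lt_or_ge k 18012 with h | h1
  · exact allD_spec cA_11 k h1 h
  rcases Nat.lt_or_ge k 19511 with h | h1
  · exact allD_spec cA_12 k h1 h
  rcases Nat.lt_or_ge k 21010 with h | h1
  · exact allD_spec cA_13 k h1 h
  rcases Nat.lt_or_ge k 22509 with h | h1
  · exact allD_spec cA_14 k h1 h
  exact allD_spec cA_15 k h1 h2

theorem cA_valid : cA.Valid where
  hq := by decide
  hM := by decide
  hL := by decide
  hP := by decide +kernel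
  hN := by decide +kernel
  hSU := by decide +kernel
  hSL := by decide +kernel
  w1 := by decide +kernel
  w2 := by decide +kernel
  tU := by decide +kernel
  tL := by decide +kernel
  U := fun k h1 h2 => (fchk_spec (cA_all k h1 h2)).1
  D := fun k h1 h2 => (fchk_spec (cA_all k h1 h2)).2

theorem cA_rsq : (rsq cA.SU + rsq cA.SL) ≤ 0.203046 * 200000 := by decide +kernel

theorem cA_sml : sml cA.P + sml cA.N = 808 := by decide +kernel

theorem log_div_bound {n : ℕ} (hn : 65536 ≤ n) : (Real.log n + 1) / n ≤ 0.000184485 := by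
  have hn0 : (65536 : ℝ) ≤ n := by exact_mod_cast hn
  have hnp : (0 : ℝ) < n := by linarith only [hn0]
  have l2 := Real.log_two_lt_d9
  have h := Real.log_le_sub_one_of_pos (x := (n : ℝ) / 65536) (by positivity)
  rw [Real.log_div hnp.ne' (by norm_num)] at h
  have e : Real.log (65536 : ℝ) = 16 * Real.log 2 := by
    rw [show (65536 : ℝ) = 2 ^ 16 by norm_num, Real.log_pow]; norm_num
  rw [e] at h
  rw [div_le_iff₀ hnp]
  nlinarith only [hn0, l2, h]

/-- Explicit theorem of Mertens for `∑ Λ(d)/d`. -/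
theorem Mt_osc {n m : ℕ} (hn : 65536 ≤ n) (hm : 65536 ≤ m) :
    Mt m - Mt n ≤ Real.log m - Real.log n + 0.2295 := by
  have h := Cmb.osc cA_valid (n := n) (m := m) (by show 360 ≤ n; omega) (by show 360 ≤ m; omega)
  have h1 := log_div_bound hn
  have h2 := log_div_bound hm
  have e1 : ((cA.M : ℕ) : ℝ) = 100000 := by unfold cA; norm_num
  have e2 : ((cA.q : ℕ) : ℝ) = 24 := by unfold cA; norm_num
  have h3 : ((rsq cA.SU : ℝ) + (rsq cA.SL : ℝ)) ≤ 0.203046 * 200000 := by
    have := cA_rsq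
    have h4 : ((rsq cA.SU + rsq cA.SL : ℚ) : ℝ) ≤ ((0.203046 * 200000 : ℚ) : ℝ) := by exact_mod_cast this
    push_cast at h4
    exact h4
  have h5 : ((sml cA.P : ℝ) + (sml cA.N : ℝ)) = 808 := by
    have := cA_sml
    exact_mod_cast this
  have hw := cA.wr_bounds cA_valid
  have hw0 := cA.wr_nonneg cA_valid
  have h6 : cA.wr ≤ 20 := by
    have h7 := hw.2
    rw [e1] at h7
    have h8 : ((cA.w : ℕ) : ℝ) ≤ 1900000 := by
      have : cA.w ≤ 1900000 := by decide
      exact_mod_cast this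
    linarith only [h7, h8]
  have hW : cA.W ≤ 828 := by unfold Cmb.W; linarith only [h5, h6]
  have hW0 : 0 ≤ cA.W := by unfold Cmb.W; linarith only [h5, hw0]
  rw [e1, e2] at h
  have l3 := log_three_bounds
  have l2 := Real.log_two_lt_d9
  have l2' := Real.log_two_gt_d9
  have l3' : Real.log 3 ≤ 1.098617 := by linarith only [l3, l2, l2', l3.2]
  have l30 : 0 ≤ Real.log 3 := by linarith only [l3, l2, l2', l3.1]
  have a1 : Real.log 3 / (2 * 100000) * ((rsq cA.SU : ℝ) + (rsq cA.SL : ℝ)) ≤ 0.22307 := by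
    calc Real.log 3 / (2 * 100000) * ((rsq cA.SU : ℝ) + (rsq cA.SL : ℝ))
        ≤ Real.log 3 / (2 * 100000) * (0.203046 * 200000) :=
          mul_le_mul_of_nonneg_left h3 (by positivity)
      _ = Real.log 3 * 0.203046 := by ring
      _ ≤ 0.22307 := by linarith only [l3, l2, l2']
  have a2 : cA.W / (2 * 24) * ((Real.log m + 1) / m + (Real.log n + 1) / n)
      ≤ 0.00642 := by
    calc cA.W / (2 * 24) * ((Real.log m + 1) / m + (Real.log n + 1) / n)
        ≤ cA.W / (2 * 24) * (0.00036897) := mul_le_mul_of_nonneg_left (by linarith only [h1, h2]) (by positivity)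
      _ ≤ 0.00642 := by linarith only [hW, l2, l2']
  linarith only [h, l2, l2', a1, a2]

/-- Explicit theorem of Mertens: `∑ 1/p` over `w < p ≤ z` for `w ≥ 65536`. -/
theorem mertens_wz {w z : ℕ} (hw : 65536 ≤ w) (hwz : w ≤ z) :
    ∑ p ∈ Pr w z, (1 : ℝ) / p ≤ Real.log (Real.log z / Real.log w) + 0.2295 / Real.log w :=
  mertens_gen (by omega) hwz (by norm_num) (fun _ hm1 _ => Mt_osc hw (by omega))

end Pool.Agent.H91.Gold

end

section

/-!
PK MB: the Mertens product.

`mertens_lower`: naturals 65536 ≤ w ≤ z: ∑_{w<p≤z} 1/p ≥ log(log z/log w) - 0.25/log w.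
 (`Gold.Mt_osc` with the roles of n, m exchanged gives Mt z - Mt w ≥ log z - log w - 0.2295 (Mt n = ∑_{d≤n} Λ(d)/d);
  Abel summation against 1/log as in `Gold.mertens_gen`.  The prime powers with exponent at least two are handled by the
  bound ψ(m) - θ(m) ≤ 2 ψ(√m) ≤ 2 log 3 √m and another Abel summation: their total is ≤ 4 log 3/(√w log w).)
`prod_65536`: ∏_{p ≤ 65536} (1 - 1/p) ≤ 0.05065   (kernel computation).
`prod_z`: for natural al ≥ 16: ∏_{p ≤ 2^al} (1 - 1/p) ≤ 0.575/(al log 2).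
-/

set_option autoImplicit false

namespace Pool.Agent.H91.PK

open Finset Gold
open scoped ArithmeticFunction.vonMangoldt

/-! ### The prime powers -/

theorem MB_psi_sub_theta (m : ℕ) :
    Chebyshev.psi m - Chebyshev.theta m ≤ 2 * Real.log 3 * Real.sqrt m := by
  have h0 : Chebyshev.psi m - Chebyshev.theta m
      = ∑ p ∈ Nat.primesLE m.sqrt, ((Nat.log p m : ℝ) * Real.log p - Real.log p) := by
    rw [Chebyshev.psi_eq_sum_mul_log_prime, Chebyshev.theta_eq_sum_primesLE_log, ← sum_sub_distrib]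
    have hsub : Nat.primesLE m.sqrt ⊆ Nat.primesLE m := by
      intro p hp
      rw [Nat.mem_primesLE] at hp ⊢
      exact ⟨hp.1.trans (Nat.sqrt_le_self m), hp.2⟩
    symm
    apply sum_subset hsub
    intro p hp hnp
    rw [Nat.mem_primesLE] at hp hnp
    have hlt : m.sqrt < p := by
      by_contra h
      push Not at h
      exact hnp ⟨h, hp.2⟩
    have h1 : m < p * p := Nat.sqrt_lt.1 hlt
    have h2 : Nat.log p m = 1 := by
      rw [Nat.log_eq_iff]
      · refine ⟨by simp; exact hp.1, by rw [sq]; exact h1⟩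
      · left; norm_num
    rw [h2]; simp
  rw [h0]
  have h1 : ∀ p ∈ Nat.primesLE m.sqrt, ((Nat.log p m : ℝ) * Real.log p - Real.log p)
      ≤ 2 * ((Nat.log p m.sqrt : ℝ) * Real.log p) := by
    intro p hp
    rw [Nat.mem_primesLE] at hp
    have hp1 := hp.2.one_lt
    have h2 : m < p ^ (2 * Nat.log p m.sqrt + 2) := by
      have h3 := Nat.lt_pow_succ_log_self hp1 m.sqrt
      have h4 := Nat.sqrt_lt.1 h3
      calc m < _ := h4
        _ = p ^ (2 * Nat.log p m.sqrt + 2) := by rw [← pow_add]; congr 1; omega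
    have h5 : Nat.log p m ≤ 2 * Nat.log p m.sqrt + 1 := by
      have := Nat.log_lt_of_lt_pow' (by omega) h2
      omega
    have h6 : (Nat.log p m : ℝ) ≤ 2 * (Nat.log p m.sqrt : ℝ) + 1 := by exact_mod_cast h5
    have h7 : 0 ≤ Real.log p := Real.log_natCast_nonneg p
    nlinarith
  refine (sum_le_sum h1).trans ?_
  rw [← mul_sum]
  have h2 := Chebyshev.psi_eq_sum_mul_log_prime (m.sqrt)
  have h3 := psi_le_log_three m.sqrt
  have h4 : (m.sqrt : ℝ) ≤ Real.sqrt m := Real.nat_sqrt_le_real_sqrt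
  have h5 : 0 ≤ Real.log 3 := Real.log_nonneg (by norm_num)
  rw [h2] at h3
  nlinarith

theorem MB_nonprime (w m : ℕ) :
    ∑ k ∈ Ioc w m, (if k.Prime then 0 else Λ k) ≤ 2 * Real.log 3 * Real.sqrt m := by
  have h1 : ∑ k ∈ Ioc w m, (if k.Prime then 0 else Λ k) ≤ ∑ k ∈ Ioc 0 m, (if k.Prime then 0 else Λ k) := by
    apply sum_le_sum_of_subset_of_nonneg
    · intro k hk
      rw [mem_Ioc] at hk ⊢
      exact ⟨by omega, hk.2⟩
    · intro k _ _
      split_ifs
      · exact le_rfl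
      · exact ArithmeticFunction.vonMangoldt_nonneg
  refine h1.trans (le_trans (le_of_eq ?_) (MB_psi_sub_theta m))
  rw [Chebyshev.psi, Chebyshev.theta, sum_filter]
  simp only [Nat.floor_natCast]
  rw [← sum_sub_distrib]
  apply sum_congr rfl
  intro k _
  split_ifs with h
  · rw [ArithmeticFunction.vonMangoldt_apply_prime h]; ring
  · ring

theorem MB_log_pos {w : ℕ} (hw : 2 ≤ w) {k : ℕ} (hk : w ≤ k) : 0 < Real.log k := by
  apply Real.log_pos
  exact_mod_cast (by omega : 1 < k)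

theorem MB_powers {w z : ℕ} (hw : 2 ≤ w) (hwz : w ≤ z) :
    ∑ k ∈ Ioc w z, (if k.Prime then 0 else Λ k) * (1 / (k * Real.log k))
      ≤ 4 * Real.log 3 / (Real.sqrt w * Real.log w) := by
  have hw0 : (0 : ℝ) < w := by exact_mod_cast (by omega : 0 < w)
  have hsw : 0 < Real.sqrt w := Real.sqrt_pos.2 hw0
  have hlw := MB_log_pos hw le_rfl
  have l3 : 0 ≤ Real.log 3 := Real.log_nonneg (by norm_num)
  set C : ℝ := 2 * Real.log 3 with hC
  have hC0 : 0 ≤ C := by positivity
  have h1 : ∑ k ∈ Ioc w z, (if k.Prime then 0 else Λ k) * (1 / (k * Real.log k))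
      ≤ ∑ k ∈ Ioc w z, (C * (Real.sqrt k - Real.sqrt (k - 1 : ℕ))) * (1 / (k * Real.log k))
        + (C * Real.sqrt w) * (1 / (((w + 1 : ℕ) : ℝ) * Real.log ((w + 1 : ℕ) : ℝ))) := by
    apply abel_le (f := fun k : ℕ => 1 / ((k : ℝ) * Real.log k)) hwz (by positivity)
    · intro k hk1 _
      have := MB_log_pos hw hk1.le
      positivity
    · have := MB_log_pos hw (Nat.le_succ w)
      positivity
    · intro k hk1 _
      have h2 := MB_log_pos hw hk1.le
      have h3 : (0 : ℝ) < k := by exact_mod_cast (by omega : 0 < k)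
      apply one_div_le_one_div_of_le (by positivity)
      apply mul_le_mul
      · push_cast; linarith
      · apply Real.log_le_log h3
        push_cast; linarith
      · exact h2.le
      · positivity
    · intro m hm1 _
      have e1 : ∑ k ∈ Ioc w m, (C * (Real.sqrt k - Real.sqrt (k - 1 : ℕ)))
          = C * (Real.sqrt m - Real.sqrt w) := by
        rw [← mul_sum]
        congr 1
        induction m, hm1 using Nat.le_induction with
        | base => simp
        | succ m hm ih =>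
          rw [sum_Ioc_succ_top (by omega), ih (by omega)]
          simp
      rw [e1]
      have := MB_nonprime w m
      linarith
  have h2 : ∀ m, w ≤ m → ∑ k ∈ Ioc w m, (C * (Real.sqrt k - Real.sqrt (k - 1 : ℕ))) * (1 / (k * Real.log k))
      ≤ C / Real.log w * (1 / Real.sqrt w - 1 / Real.sqrt m) := by
    intro m hm
    induction m, hm using Nat.le_induction with
    | base => simp
    | succ m hm ih =>
      rw [sum_Ioc_succ_top (by omega)]
      have hm0 : (0 : ℝ) < m := by exact_mod_cast (by omega : 0 < m)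
      have hs0 : 0 < Real.sqrt m := Real.sqrt_pos.2 hm0
      have hs1 : Real.sqrt m ≤ Real.sqrt ((m + 1 : ℕ) : ℝ) := by
        apply Real.sqrt_le_sqrt; push_cast; linarith
      have hs2 : 0 < Real.sqrt ((m + 1 : ℕ) : ℝ) := by linarith
      have hl := MB_log_pos hw (show w ≤ m + 1 by omega)
      have hl2 : Real.log w ≤ Real.log ((m + 1 : ℕ) : ℝ) := by
        apply Real.log_le_log hw0
        exact_mod_cast (by omega : w ≤ m + 1)
      have hss : ((m + 1 : ℕ) : ℝ) = Real.sqrt ((m + 1 : ℕ) : ℝ) * Real.sqrt ((m + 1 : ℕ) : ℝ) :=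
        (Real.mul_self_sqrt (by positivity)).symm
      have key : (C * (Real.sqrt ((m + 1 : ℕ) : ℝ) - Real.sqrt (m + 1 - 1 : ℕ)))
            * (1 / (((m + 1 : ℕ) : ℝ) * Real.log ((m + 1 : ℕ) : ℝ)))
          ≤ C / Real.log w * (1 / Real.sqrt m - 1 / Real.sqrt ((m + 1 : ℕ) : ℝ)) := by
        rw [Nat.add_sub_cancel]
        have a1 : 1 / (((m + 1 : ℕ) : ℝ) * Real.log ((m + 1 : ℕ) : ℝ))
            ≤ 1 / (Real.sqrt m * Real.sqrt ((m + 1 : ℕ) : ℝ) * Real.log w) := by
          apply one_div_le_one_div_of_le (by positivity)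
          apply mul_le_mul _ hl2 hlw.le (by positivity)
          exact (mul_le_mul_of_nonneg_right hs1 hs2.le).trans hss.ge
        have a2 : 0 ≤ C * (Real.sqrt ((m + 1 : ℕ) : ℝ) - Real.sqrt m) :=
          mul_nonneg hC0 (by linarith)
        refine (mul_le_mul_of_nonneg_left a1 a2).trans (le_of_eq ?_)
        field_simp
      have e : C / Real.log w * (1 / Real.sqrt w - 1 / Real.sqrt ((m + 1 : ℕ) : ℝ))
          = C / Real.log w * (1 / Real.sqrt w - 1 / Real.sqrt m)
            + C / Real.log w * (1 / Real.sqrt m - 1 / Real.sqrt ((m + 1 : ℕ) : ℝ)) := by ring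
      rw [e]
      linarith
  have h3 := h2 z hwz
  have h4 : C / Real.log w * (1 / Real.sqrt w - 1 / Real.sqrt z) ≤ C / (Real.sqrt w * Real.log w) := by
    have hz0 : (0 : ℝ) < z := by exact_mod_cast (by omega : 0 < z)
    have : 0 ≤ 1 / Real.sqrt z := by positivity
    calc C / Real.log w * (1 / Real.sqrt w - 1 / Real.sqrt z) ≤ C / Real.log w * (1 / Real.sqrt w) :=
          mul_le_mul_of_nonneg_left (by linarith) (by positivity)
      _ = C / (Real.sqrt w * Real.log w) := by field_simp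
  have h5 : (C * Real.sqrt w) * (1 / (((w + 1 : ℕ) : ℝ) * Real.log ((w + 1 : ℕ) : ℝ)))
      ≤ C / (Real.sqrt w * Real.log w) := by
    have a1 : 1 / (((w + 1 : ℕ) : ℝ) * Real.log ((w + 1 : ℕ) : ℝ)) ≤ 1 / (w * Real.log w) := by
      apply one_div_le_one_div_of_le (by positivity)
      apply mul_le_mul
      · push_cast; linarith
      · apply Real.log_le_log hw0
        push_cast; linarith
      · exact hlw.le
      · positivity
    refine (mul_le_mul_of_nonneg_left a1 (by positivity)).trans (le_of_eq ?_)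
    have hss : (w : ℝ) = Real.sqrt w * Real.sqrt w := (Real.mul_self_sqrt (by positivity)).symm
    rw [mul_one_div, div_eq_div_iff (by positivity) (by positivity)]
    calc C * Real.sqrt w * (Real.sqrt w * Real.log w) = C * (Real.sqrt w * Real.sqrt w * Real.log w) := by ring
      _ = C * (w * Real.log w) := by rw [← hss]
  have e : 4 * Real.log 3 / (Real.sqrt w * Real.log w) = C / (Real.sqrt w * Real.log w) + C / (Real.sqrt w * Real.log w) := by
    rw [hC]; ring
  rw [e]
  linarith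

/-! ### The lower bound -/

theorem MB_loglog {w z : ℕ} (hw : 2 ≤ w) (hwz : w ≤ z) :
    Real.log (Real.log z) - Real.log (Real.log w) - 1 / (w * Real.log w)
      ≤ ∑ k ∈ Ioc w z, (Real.log k - Real.log (k - 1 : ℕ)) * (1 / Real.log k) := by
  have hw0 : (0 : ℝ) < w := by exact_mod_cast (by omega : 0 < w)
  have h1 : ∀ m, w ≤ m → Real.log (Real.log m) - Real.log (Real.log w)
        - 1 / w * (1 / Real.log w - 1 / Real.log m)
      ≤ ∑ k ∈ Ioc w m, (Real.log k - Real.log (k - 1 : ℕ)) * (1 / Real.log k) := by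
    intro m hm
    induction m, hm using Nat.le_induction with
    | base => simp
    | succ m hm ih =>
      rw [sum_Ioc_succ_top (by omega), Nat.add_sub_cancel]
      have hm0 : (0 : ℝ) < m := by exact_mod_cast (by omega : 0 < m)
      have a1 := MB_log_pos hw hm
      have a2 := MB_log_pos hw (show w ≤ m + 1 by omega)
      have a3 : Real.log m ≤ Real.log ((m + 1 : ℕ) : ℝ) := by
        apply Real.log_le_log hm0; push_cast; linarith
      have b1 := Real.log_le_sub_one_of_pos (x := Real.log ((m + 1 : ℕ) : ℝ) / Real.log m) (by positivity)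
      rw [Real.log_div a2.ne' a1.ne'] at b1
      have b2 : Real.log ((m + 1 : ℕ) : ℝ) / Real.log m - 1
          = (Real.log ((m + 1 : ℕ) : ℝ) - Real.log m) * (1 / Real.log ((m + 1 : ℕ) : ℝ))
            + (Real.log ((m + 1 : ℕ) : ℝ) - Real.log m) * (1 / Real.log m - 1 / Real.log ((m + 1 : ℕ) : ℝ)) := by
        field_simp
        ring
      have b3 : Real.log ((m + 1 : ℕ) : ℝ) - Real.log m ≤ 1 / w := by
        have h := Real.log_le_sub_one_of_pos (x := ((m + 1 : ℕ) : ℝ) / m) (by positivity)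
        rw [Real.log_div (by positivity) hm0.ne'] at h
        have e : ((m + 1 : ℕ) : ℝ) / m - 1 = 1 / m := by push_cast; field_simp; ring
        have h2 : 1 / (m : ℝ) ≤ 1 / w := one_div_le_one_div_of_le hw0 (by exact_mod_cast hm)
        linarith
      have b4 : 0 ≤ 1 / Real.log m - 1 / Real.log ((m + 1 : ℕ) : ℝ) := by
        have := one_div_le_one_div_of_le a1 a3
        linarith
      have b5 := mul_le_mul_of_nonneg_right b3 b4
      have e2 : 1 / (w : ℝ) * (1 / Real.log w - 1 / Real.log ((m + 1 : ℕ) : ℝ))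
          = 1 / (w : ℝ) * (1 / Real.log w - 1 / Real.log m)
            + 1 / (w : ℝ) * (1 / Real.log m - 1 / Real.log ((m + 1 : ℕ) : ℝ)) := by ring
      rw [e2]
      linarith
  have h2 := h1 z hwz
  have h3 := MB_log_pos hw hwz
  have h4 := MB_log_pos hw le_rfl
  have h5 : 1 / (w : ℝ) * (1 / Real.log w - 1 / Real.log z) ≤ 1 / (w * Real.log w) := by
    have : 0 ≤ 1 / Real.log z := by positivity
    calc 1 / (w : ℝ) * (1 / Real.log w - 1 / Real.log z) ≤ 1 / (w : ℝ) * (1 / Real.log w) :=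
          mul_le_mul_of_nonneg_left (by linarith) (by positivity)
      _ = 1 / (w * Real.log w) := by field_simp
  linarith

theorem mertens_lower {w z : ℕ} (hw : 65536 ≤ w) (hwz : w ≤ z) :
    Real.log (Real.log z / Real.log w) - 0.25 / Real.log w ≤ ∑ p ∈ Pr w z, (1 : ℝ) / p := by
  have hw2 : 2 ≤ w := by omega
  have hw0 : (65536 : ℝ) ≤ w := by exact_mod_cast hw
  have hwp : (0 : ℝ) < w := by linarith
  have hlw := MB_log_pos hw2 le_rfl
  have hlz := MB_log_pos hw2 hwz
  -- Abel summation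
  have h1 : ∑ k ∈ Ioc w z, (Real.log k - Real.log (k - 1 : ℕ)) * (1 / Real.log k)
      ≤ ∑ k ∈ Ioc w z, (Λ k / k) * (1 / Real.log k) + 0.2295 * (1 / Real.log ((w + 1 : ℕ) : ℝ)) := by
    apply abel_le (f := fun k : ℕ => 1 / Real.log k) hwz (by norm_num)
    · intro k hk1 _
      have := MB_log_pos hw2 hk1.le
      positivity
    · have := MB_log_pos hw2 (Nat.le_succ w)
      positivity
    · intro k hk1 _
      have h2 := MB_log_pos hw2 hk1.le
      apply one_div_le_one_div_of_le h2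
      apply Real.log_le_log
      · exact_mod_cast (by omega : 0 < k)
      · push_cast; linarith
    · intro m hm1 _
      have e1 : ∑ k ∈ Ioc w m, (Real.log k - Real.log (k - 1 : ℕ)) = Real.log m - Real.log w := by
        induction m, hm1 using Nat.le_induction with
        | base => simp
        | succ m hm ih =>
          rw [sum_Ioc_succ_top (by omega), ih (by omega)]
          simp
      have e3 : Mt m - Mt w = ∑ k ∈ Ioc w m, Λ k / k := by
        unfold Mt
        rw [← sum_Ioc_consecutive _ (Nat.zero_le w) hm1]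
        ring
      have h2 := Mt_osc (n := m) (m := w) (by omega) hw
      rw [e1, ← e3]
      linarith
  -- splitting off the primes
  have h2 : ∑ k ∈ Ioc w z, (Λ k / k) * (1 / Real.log k)
      = ∑ p ∈ Pr w z, (1 : ℝ) / p + ∑ k ∈ Ioc w z, (if k.Prime then 0 else Λ k) * (1 / (k * Real.log k)) := by
    unfold Pr
    rw [sum_filter, ← sum_add_distrib]
    apply sum_congr rfl
    intro k hk
    rw [mem_Ioc] at hk
    have hk0 : (0 : ℝ) < k := by exact_mod_cast (by omega : 0 < k)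
    have hl := MB_log_pos hw2 hk.1.le
    split_ifs with hp
    · rw [ArithmeticFunction.vonMangoldt_apply_prime hp]
      field_simp
      ring
    · field_simp
      ring
  have h3 := MB_powers hw2 hwz
  have h4 := MB_loglog hw2 hwz
  have h5 : 0.2295 * (1 / Real.log ((w + 1 : ℕ) : ℝ)) ≤ 0.2295 / Real.log w := by
    rw [mul_one_div]
    apply div_le_div_of_nonneg_left (by norm_num) hlw
    apply Real.log_le_log hwp
    push_cast; linarith
  have l3 : Real.log 3 ≤ 1.098617 := by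
    have := log_three_bounds.2
    have l2 := Real.log_two_lt_d9
    linarith
  have hs : (256 : ℝ) ≤ Real.sqrt w := by
    rw [show (256 : ℝ) = Real.sqrt 65536 by
      rw [show (65536 : ℝ) = 256 ^ 2 by norm_num, Real.sqrt_sq (by norm_num)]]
    exact Real.sqrt_le_sqrt hw0
  have h6 : 4 * Real.log 3 / (Real.sqrt w * Real.log w) ≤ 0.0172 / Real.log w := by
    rw [div_le_div_iff₀ (by positivity) hlw]
    have : 4 * Real.log 3 ≤ 0.0172 * Real.sqrt w := by linarith
    nlinarith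
  have h7 : 1 / (w * Real.log w) ≤ 0.0001 / Real.log w := by
    rw [div_le_div_iff₀ (by positivity) hlw]
    have : 1 ≤ 0.0001 * (w : ℝ) := by linarith
    nlinarith
  have h8 : 0.25 / Real.log w = 0.2295 / Real.log w + 0.0172 / Real.log w + 0.0001 / Real.log w
      + 0.0032 / Real.log w := by ring
  have h9 : 0 ≤ 0.0032 / Real.log w := by positivity
  rw [Real.log_div hlz.ne' hlw.ne']
  rw [h2] at h1
  linarith

/-! ### The product up to 65536 -/

end Pool.Agent.H91.PK

end
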