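import Pool.Agent.H43.PJ.M01
import Pool.Agent.H43.PJ.M02

/-! The parts of this file: H43.MP.Mrt, H97.VK.VDefs, H97.VK.PropA, H97.VK.Fou, H97.VK.Lin1, H97.VK.Lin2, H97.VK.Sft, H97.VK.GGB, H97.VK.Bil, H53.MID.Chain. -/

section

/-!
# Mrt: the upper bound of Mertens for the sum of the reciprocals of the primes, elementary
-/

set_option autoImplicit false

namespace Pool.Agent.H43.MP

open Finset

private theorem mrt_log {n : ℕ} (hn : 1 ≤ n) :
    ∑ p ∈ (Icc 1 n).filter Nat.Prime, Real.log p / p ≤ Real.log n + Real.log 4 := by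
  have hn0 : (0 : ℝ) < n := by exact_mod_cast hn
  have h1 : ∑ k ∈ Ioc 0 n, Real.log k = ∑ d ∈ Ioc 0 n, ArithmeticFunction.vonMangoldt d * ((n / d : ℕ) : ℝ) := by
    rw [← ArithmeticFunction.sum_Ioc_mul_zeta_eq_sum, ArithmeticFunction.vonMangoldt_mul_zeta]
    rfl
  have h2 : ∑ k ∈ Ioc 0 n, Real.log (k : ℝ) ≤ n * Real.log n := by
    calc ∑ k ∈ Ioc 0 n, Real.log (k : ℝ) ≤ ∑ _k ∈ Ioc 0 n, Real.log n := by
          refine sum_le_sum fun k hk => ?_
          rw [mem_Ioc] at hk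
          exact Real.log_le_log (by exact_mod_cast hk.1) (by exact_mod_cast hk.2)
      _ = n * Real.log n := by
          rw [sum_const, Nat.card_Ioc, nsmul_eq_mul]
          simp
  have h3 : ∑ p ∈ (Icc 1 n).filter Nat.Prime, Real.log p ≤ Real.log 4 * n := by
    have h := Chebyshev.theta_le_log4_mul_x (x := (n : ℝ)) (by positivity)
    unfold Chebyshev.theta at h
    rw [Nat.floor_natCast] at h
    refine le_trans (le_of_eq ?_) h
    refine sum_congr ?_ fun _ _ => rfl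
    ext p
    simp only [mem_filter, mem_Icc, mem_Ioc]
    constructor
    · rintro ⟨⟨a, b⟩, c⟩
      exact ⟨⟨by omega, b⟩, c⟩
    · rintro ⟨⟨a, b⟩, c⟩
      exact ⟨⟨by omega, b⟩, c⟩
  have h4 : n * ∑ p ∈ (Icc 1 n).filter Nat.Prime, Real.log p / p ≤
      ∑ d ∈ Ioc 0 n, ArithmeticFunction.vonMangoldt d * ((n / d : ℕ) : ℝ) +
        ∑ p ∈ (Icc 1 n).filter Nat.Prime, Real.log p := by
    have h5 : ∑ p ∈ (Icc 1 n).filter Nat.Prime, ArithmeticFunction.vonMangoldt p * ((n / p : ℕ) : ℝ) ≤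
        ∑ d ∈ Ioc 0 n, ArithmeticFunction.vonMangoldt d * ((n / d : ℕ) : ℝ) := by
      refine sum_le_sum_of_subset_of_nonneg ?_ fun d _ _ =>
        mul_nonneg ArithmeticFunction.vonMangoldt_nonneg (Nat.cast_nonneg _)
      intro p hp
      simp only [mem_filter, mem_Icc] at hp
      rw [mem_Ioc]
      omega
    refine le_trans ?_ (add_le_add_left h5 _)
    rw [mul_sum, ← sum_add_distrib]
    refine sum_le_sum fun p hp => ?_
    rw [mem_filter, mem_Icc] at hp
    have hp0 : (0 : ℝ) < p := by exact_mod_cast hp.1.1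
    rw [ArithmeticFunction.vonMangoldt_apply_prime hp.2]
    have hlp : 0 ≤ Real.log p := Real.log_nonneg (by exact_mod_cast hp.1.1)
    have h6 : (n : ℝ) / p ≤ ((n / p : ℕ) : ℝ) + 1 := by
      rw [div_le_iff₀ hp0]
      have h7 : n < (n / p + 1) * p := by
        have := Nat.lt_div_mul_add (a := n) (b := p) hp.1.1
        rw [add_mul, one_mul]
        exact this
      exact_mod_cast h7.le
    calc (n : ℝ) * (Real.log p / p) = Real.log p * (n / p) := by ring
      _ ≤ Real.log p * (((n / p : ℕ) : ℝ) + 1) := mul_le_mul_of_nonneg_left h6 hlp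
      _ = Real.log p * ((n / p : ℕ) : ℝ) + Real.log p := by ring
  rw [← h1] at h4
  have h8 : n * ∑ p ∈ (Icc 1 n).filter Nat.Prime, Real.log p / p ≤ n * (Real.log n + Real.log 4) := by
    linarith
  exact le_of_mul_le_mul_left h8 hn0

private theorem mrt_step (y : ℕ) (hy : 2 ≤ y) :
    ∑ p ∈ (Icc 1 y).filter Nat.Prime, (1 : ℝ) / p -
      (∑ p ∈ (Icc 1 y).filter Nat.Prime, Real.log p / p - Real.log y - Real.log 4) / Real.log y ≤
      Real.log (Real.log y) + (2 + Real.log 4 / Real.log 2 - Real.log (Real.log 2)) := by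
  have hl2 : 0 < Real.log 2 := Real.log_pos (by norm_num)
  induction y, hy using Nat.le_induction with
  | base =>
    have e : (Icc 1 2).filter Nat.Prime = {2} := by decide
    rw [e, sum_singleton, sum_singleton]
    push_cast
    have h1 : (1 : ℝ) / 2 - (Real.log 2 / 2 - Real.log 2 - Real.log 4) / Real.log 2 =
        1 + Real.log 4 / Real.log 2 := by
      field_simp
      ring
    rw [h1]
    linarith
  | succ y hy ih =>
    have hL : 0 < Real.log y := Real.log_pos (by exact_mod_cast (by omega : 1 < y))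
    have hLL : Real.log y ≤ Real.log ((y + 1 : ℕ) : ℝ) :=
      Real.log_le_log (by exact_mod_cast (by omega : 0 < y)) (by exact_mod_cast (by omega))
    have hA := mrt_log (n := y) (by omega)
    obtain ⟨L, hLd⟩ : ∃ L, L = Real.log y := ⟨_, rfl⟩
    obtain ⟨M, hMd⟩ : ∃ M, M = Real.log ((y + 1 : ℕ) : ℝ) := ⟨_, rfl⟩
    obtain ⟨A, hAd⟩ : ∃ A, A = ∑ p ∈ (Icc 1 y).filter Nat.Prime, Real.log p / p := ⟨_, rfl⟩
    obtain ⟨S, hSd⟩ : ∃ S, S = ∑ p ∈ (Icc 1 y).filter Nat.Prime, (1 : ℝ) / p := ⟨_, rfl⟩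
    rw [← hLd, ← hAd, ← hSd] at ih
    rw [← hLd] at hL
    rw [← hLd, ← hMd] at hLL
    rw [← hLd, ← hAd] at hA
    have hM : 0 < M := lt_of_lt_of_le hL hLL
    have hlog : 1 - L / M ≤ Real.log M - Real.log L := by
      have h := Real.one_sub_inv_le_log_of_pos (div_pos hM hL)
      rw [Real.log_div hM.ne' hL.ne', inv_div] at h
      exact h
    have key : (A - Real.log 4) * (1 / L - 1 / M) ≤ 1 - L / M := by
      have h1 : 0 ≤ 1 / L - 1 / M := sub_nonneg.2 (one_div_le_one_div_of_le hL hLL)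
      calc (A - Real.log 4) * (1 / L - 1 / M) ≤ L * (1 / L - 1 / M) :=
            mul_le_mul_of_nonneg_right (by linarith) h1
        _ = 1 - L / M := by field_simp
    have hfin : ∀ S' A' : ℝ, (S' - (A' - M - Real.log 4) / M) =
        (S - (A - L - Real.log 4) / L) + (A - Real.log 4) * (1 / L - 1 / M) →
        S' - (A' - M - Real.log 4) / M ≤
          Real.log M + (2 + Real.log 4 / Real.log 2 - Real.log (Real.log 2)) := by
      intro S' A' h
      rw [h]
      linarith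
    rw [← hMd]
    apply hfin
    have hins : Icc 1 y.succ = insert y.succ (Icc 1 y) := by
      ext k
      rw [mem_insert, mem_Icc, mem_Icc]
      omega
    rw [← Nat.succ_eq_add_one, hins, Finset.filter_insert]
    have hni : y.succ ∉ (Icc 1 y).filter Nat.Prime := by
      rw [mem_filter, mem_Icc]
      omega
    by_cases hp : y.succ.Prime
    · rw [if_pos hp, sum_insert hni, sum_insert hni, ← hAd, ← hSd]
      rw [Nat.succ_eq_add_one, ← hMd]
      have hy0 : ((y + 1 : ℕ) : ℝ) ≠ 0 := by positivity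
      field_simp
      ring
    · rw [if_neg hp, ← hAd, ← hSd]
      field_simp
      ring

theorem mrt_upper : ∃ C : ℝ, 0 < C ∧ ∀ y : ℕ, 2 ≤ y →
    ∑ p ∈ (Icc 1 y).filter Nat.Prime, (1 : ℝ) / p ≤ Real.log (Real.log y) + C := by
  have hl2 : 0 < Real.log 2 := Real.log_pos (by norm_num)
  have hl4 : 0 < Real.log 4 := Real.log_pos (by norm_num)
  have hll : Real.log (Real.log 2) ≤ 0 := by
    refine Real.log_nonpos hl2.le ?_
    have := Real.log_two_lt_d9
    linarith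
  refine ⟨2 + Real.log 4 / Real.log 2 - Real.log (Real.log 2), ?_, fun y hy => ?_⟩
  · have : 0 < Real.log 4 / Real.log 2 := div_pos hl4 hl2
    linarith
  · have h1 := mrt_step y hy
    have hL : 0 < Real.log y := Real.log_pos (by exact_mod_cast (by omega : 1 < y))
    have h2 := mrt_log (n := y) (by omega)
    have h3 : (∑ p ∈ (Icc 1 y).filter Nat.Prime, Real.log p / p - Real.log y - Real.log 4) / Real.log y ≤ 0 :=
      div_nonpos_of_nonpos_of_nonneg (by linarith) hL.le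
    linarith

end Pool.Agent.H43.MP

end

section

/-!
# PROJECT VK (for MP_967f73_nt): definitions for the Vinogradov mean value theorem

`ee(t) = exp(2 π i t)` (`Pool.Agent.H91.PK.ee`, lemmas `LSa_ee_add`, `LSa_norm_ee`, `LSa_conj_ee`).
-/

set_option autoImplicit false

namespace Pool.Agent.H97.VK

open Finset
open Pool.Agent.H91.PK (ee)

/-- the box `[1,M]^s` -/
def box (s M : ℕ) : Finset (Fin s → ℕ) := Fintype.piFinset (fun _ => Icc 1 M)

/-- the vector of the power sums with exponents `1, ..., k` -/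
def pv (k : ℕ) {s : ℕ} (x : Fin s → ℕ) (j : Fin k) : ℤ := ∑ i, (x i : ℤ) ^ ((j : ℕ) + 1)

/-- number of the solutions of the Vinogradov system of degree `k` in `2 s` variables in `[1,M]` -/
def JV (k s M : ℕ) : ℕ :=
  (((box s M) ×ˢ (box s M)).filter (fun w => pv k w.1 = pv k w.2)).card

/-- the finite grid `[0,Q)^k` of frequencies -/
def grid (k Q : ℕ) : Finset (Fin k → ℕ) := Fintype.piFinset (fun _ => range Q)

/-- exponential sum of a finite set with values in `ℤ^k` -/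
noncomputable def FS {ι : Type} {k : ℕ} (X : Finset ι) (φ : ι → Fin k → ℤ) (Q : ℕ)
    (α : Fin k → ℕ) : ℂ :=
  ∑ x ∈ X, ee ((∑ j, (α j : ℝ) * (φ x j : ℝ)) / Q)

/-- the solutions of `φ(w) + ∑ pv(u) = φ(w') + ∑ pv(v)` with `w, w' ∈ W`, `u, v ∈ A^s` -/
def SC {ι : Type} {k : ℕ} (s : ℕ) (W : Finset ι) (φ : ι → Fin k → ℤ) (A : Finset ℕ) : ℕ :=
  (((W ×ˢ W) ×ˢ ((Fintype.piFinset (fun _ : Fin s => A)) ×ˢ (Fintype.piFinset (fun _ : Fin s => A)))).filter
    (fun z => ∀ j, φ z.1.1 j + pv k z.2.1 j = φ z.1.2 j + pv k z.2.2 j)).card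

/-- the tuples in `[1,M]^k` with distinct residues modulo `p` -/
def inj (k p M : ℕ) : Finset (Fin k → ℕ) :=
  (box k M).filter (fun x => ∀ i i', i ≠ i' → x i % p ≠ x i' % p)

/-- the bilinear exponential sum -/
noncomputable def bil (k X : ℕ) (α : Fin k → ℝ) : ℂ :=
  ∑ a ∈ Icc 1 X, ∑ b ∈ Icc 1 X, ee (∑ j : Fin k, α j * ((a : ℝ) * b) ^ ((j : ℕ) + 1))

/-- the one dimensional sum of geometric sums -/
noncomputable def GG (α : ℝ) (W : ℕ) : ℝ :=
  ∑ w ∈ Icc (-(W : ℤ)) W, ‖∑ v ∈ Icc (-(W : ℤ)) W, ee (α * w * v)‖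

end Pool.Agent.H97.VK

end

section

set_option autoImplicit false

namespace Pool.Agent.H97.VK

open Finset
open Pool.Agent.H91.PK (ee)

/-- the statement of `jv_eight` -/
def jv_eight_P : Prop :=
    ∃ C : ℝ, 1 ≤ C ∧ ∀ k M : ℕ, 2 ≤ k → 1 ≤ M →
    (JV k (8 * k ^ 2) M : ℝ) ≤ (C * k) ^ (C * k ^ 3) *
      (M : ℝ) ^ (16 * (k : ℝ) ^ 2 - (k : ℝ) * (k + 1) / 2 + (k : ℝ) ^ 2 / 1000)

/-- the statement of `vexp` -/
def vexp_P : Prop :=
    ∃ c C : ℝ, 0 < c ∧ 1 ≤ C ∧ ∀ (κ N a b : ℕ) (β t : ℝ), 4 ≤ κ → (C * κ) ^ C ≤ N →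
    N ≤ a → b ≤ 2 * N → 0 ≤ β → β ≤ 1 → (N : ℝ) ^ (4 * κ - 4) ≤ |t| → |t| ≤ (N : ℝ) ^ (4 * κ) →
    ‖∑ n ∈ Ioc a b, ee (t * Real.log (n + β))‖ ≤ C * (N : ℝ) ^ (1 - c / (κ : ℝ) ^ 2)

end Pool.Agent.H97.VK

end

section

/-!
# VK Fou: counting with exponential sums on a finite grid

Proofs.  `fs_orth`: the sum is the product over `j` of the geometric sums `∑_{a < Q} ee(a v_j / Q)` (`Finset.prod_univ_sum`), each is `Q` if
`Q ∣ v_j`, else `0`.
`fs_count`: expand the right side, `fs_orth` for `v = φ x - ψ y - h`; by `hb` divisibility of `v_j` by `Q` means `v_j = 0`.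
`fs_pow`: `FS` of the power set with `∑ pv` is the product (`Finset.prod_univ_sum` / `Fintype.piFinset`), `pv` of `u : Fin s → ℕ` is the sum of the
values of the single coordinates.
`shift_le`: Cauchy's inequality (either with `fs_count`, `Q` large, or directly: with `r(v) = #{x ∈ X : φ x = v}` the left side is `∑ r(v) r(v - h)`).
`sc_class`: `SC` is `(1/Q^k) ∑_α |FS W φ|^2 |f|^{2s}`, `f = FS A`, `f = ∑_{b < p} f_b`; Hölder (`inner_le_nnorm_mul_nnorm` or
`Real.pow_arith_mean_le_arith_mean_pow`, Mathlib `inner_mul_le_norm_mul_norm`, `Finset.sum_pow_le ...`): `|∑_b f_b|^{2s} ≤ p^{2s-1} ∑_b |f_b|^{2s}`.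
(`W` and `A` are finite, so some `Q` satisfies the bounds needed in `fs_count`.)
`jv_mono`, `jv_two`: `JV k (s + r) M ≤ M^{2r} JV k s M` (`|f| ≤ M`, or fix the last `r` coordinates of both tuples and use `shift_le`).
-/

set_option autoImplicit false

namespace Pool.Agent.H97.VK

open Finset
open Pool.Agent.H91.PK (ee)

private theorem ee_add' (s t : ℝ) : ee (s + t) = ee s * ee t :=
  Pool.Agent.H91.PK.LSa_ee_add s t

private theorem ee_zero' : ee 0 = 1 := by
  simp [ee]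

private theorem ee_sum' {ι : Type*} (s : Finset ι) (f : ι → ℝ) :
    ee (∑ i ∈ s, f i) = ∏ i ∈ s, ee (f i) := by
  classical
  induction s using Finset.induction_on with
  | empty => simp [ee_zero']
  | insert a s ha ih => rw [sum_insert ha, prod_insert ha, ee_add', ih]

private theorem ee_nsmul' (n : ℕ) (t : ℝ) : ee ((n : ℝ) * t) = ee t ^ n := by
  induction n with
  | zero => simp [ee_zero']
  | succ n ih => rw [pow_succ, ← ih, ← ee_add']; congr 1; push_cast; ring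

private theorem ee_eq_one_iff' (t : ℝ) : ee t = 1 ↔ ∃ n : ℤ, t = n := by
  unfold ee
  rw [Complex.exp_eq_one_iff]
  constructor
  · rintro ⟨n, hn⟩
    refine ⟨n, ?_⟩
    have h2 : (2 * (Real.pi : ℂ) * Complex.I) ≠ 0 := by
      simp [Real.pi_ne_zero, Complex.I_ne_zero]
    have h3 : (t : ℂ) * (2 * (Real.pi : ℂ) * Complex.I) = n * (2 * (Real.pi : ℂ) * Complex.I) := by
      rw [← hn]; ring
    have h4 := mul_right_cancel₀ h2 h3
    exact_mod_cast h4
  · rintro ⟨n, rfl⟩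
    exact ⟨n, by push_cast; ring⟩

private theorem geom' (Q : ℕ) (hQ : 1 ≤ Q) (v : ℤ) :
    ∑ a ∈ range Q, ee ((a : ℝ) * (v : ℝ) / Q) = if (Q : ℤ) ∣ v then (Q : ℂ) else 0 := by
  have hQ0 : (Q : ℝ) ≠ 0 := by positivity
  have h1 : ∀ a : ℕ, ee ((a : ℝ) * (v : ℝ) / Q) = ee ((v : ℝ) / Q) ^ a := by
    intro a
    rw [← ee_nsmul']
    congr 1
    ring
  simp_rw [h1]
  by_cases hd : (Q : ℤ) ∣ v
  · rw [if_pos hd]
    obtain ⟨m, rfl⟩ := hd
    have : ee ((((Q : ℤ) * m : ℤ) : ℝ) / Q) = 1 := by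
      rw [ee_eq_one_iff']
      refine ⟨m, ?_⟩
      push_cast
      field_simp
    rw [this]
    simp
  · rw [if_neg hd]
    have hne : ee ((v : ℝ) / Q) ≠ 1 := by
      rw [Ne, ee_eq_one_iff']
      rintro ⟨n, hn⟩
      apply hd
      refine ⟨n, ?_⟩
      rw [div_eq_iff hQ0] at hn
      have : (v : ℝ) = ((Q * n : ℤ) : ℝ) := by rw [hn]; push_cast; ring
      exact_mod_cast this
    have h3 := geom_sum_mul (ee ((v : ℝ) / Q)) Q
    have h4 : ee ((v : ℝ) / Q) ^ Q = 1 := by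
      rw [← ee_nsmul', ee_eq_one_iff']
      exact ⟨v, by field_simp⟩
    rw [h4, sub_self] at h3
    rcases mul_eq_zero.1 h3 with h | h
    · exact h
    · exact absurd (sub_eq_zero.1 h) hne

theorem fs_orth (k Q : ℕ) (hQ : 1 ≤ Q) (v : Fin k → ℤ) :
    ∑ α ∈ grid k Q, ee ((∑ j, (α j : ℝ) * (v j : ℝ)) / Q) = if ∀ j, (Q : ℤ) ∣ v j then ((Q : ℂ) ^ k) else 0 := by
  have h1 : ∀ α : Fin k → ℕ, ee ((∑ j, (α j : ℝ) * (v j : ℝ)) / Q) =
      ∏ j, ee ((α j : ℝ) * (v j : ℝ) / Q) := by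
    intro α
    rw [sum_div, ee_sum']
  simp_rw [h1]
  unfold grid
  rw [← Finset.prod_univ_sum (fun _ => range Q) (fun (j : Fin k) (a : ℕ) => ee ((a : ℝ) * (v j : ℝ) / Q))]
  simp_rw [geom' Q hQ]
  by_cases hd : ∀ j, (Q : ℤ) ∣ v j
  · rw [if_pos hd]
    rw [prod_congr rfl (fun j _ => if_pos (hd j))]
    simp
  · rw [if_neg hd]
    push Not at hd
    obtain ⟨j, hj⟩ := hd
    exact prod_eq_zero (mem_univ j) (if_neg hj)

theorem fs_count {ι κ : Type} {k : ℕ} (X : Finset ι) (Y : Finset κ) (φ : ι → Fin k → ℤ)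
    (ψ : κ → Fin k → ℤ) (h : Fin k → ℤ) (Q : ℕ) (hQ : 1 ≤ Q)
    (hb : ∀ x ∈ X, ∀ y ∈ Y, ∀ j, |φ x j - ψ y j - h j| < Q) :
    ((((X ×ˢ Y).filter (fun w => ∀ j, φ w.1 j = ψ w.2 j + h j)).card : ℕ) : ℂ) =
      (1 / (Q : ℂ) ^ k) * ∑ α ∈ grid k Q, FS X φ Q α * (starRingEnd ℂ) (FS Y ψ Q α) *
        ee (-(∑ j, (α j : ℝ) * (h j : ℝ)) / Q) := by
  have hQ0 : (Q : ℂ) ^ k ≠ 0 := by
    apply pow_ne_zero
    have : (Q : ℂ) ≠ 0 := by exact_mod_cast (by omega : Q ≠ 0)
    exact this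
  have key : ∀ α : Fin k → ℕ, FS X φ Q α * (starRingEnd ℂ) (FS Y ψ Q α) *
        ee (-(∑ j, (α j : ℝ) * (h j : ℝ)) / Q) =
      ∑ w ∈ X ×ˢ Y, ee ((∑ j, (α j : ℝ) * (((φ w.1 j - ψ w.2 j - h j : ℤ)) : ℝ)) / Q) := by
    intro α
    unfold FS
    rw [map_sum, sum_mul_sum, ← sum_product', sum_mul]
    apply sum_congr rfl
    intro w _
    rw [Pool.Agent.H91.PK.LSa_conj_ee, ← ee_add', ← ee_add']
    congr 1
    rw [← neg_div, ← add_div, ← add_div]
    congr 1
    rw [← sum_neg_distrib, ← sum_neg_distrib, ← sum_add_distrib, ← sum_add_distrib]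
    apply sum_congr rfl
    intro j _
    push_cast
    ring
  simp_rw [key]
  rw [sum_comm]
  simp_rw [fs_orth k Q hQ]
  rw [card_filter]
  push_cast
  rw [mul_sum]
  apply sum_congr rfl
  intro w hw
  rw [mem_product] at hw
  have hiff : (∀ j, (Q : ℤ) ∣ φ w.1 j - ψ w.2 j - h j) ↔ (∀ j, φ w.1 j = ψ w.2 j + h j) := by
    constructor
    · intro hd j
      have h1 := Int.eq_zero_of_abs_lt_dvd (hd j) (hb w.1 hw.1 w.2 hw.2 j)
      omega
    · intro he j
      have : φ w.1 j - ψ w.2 j - h j = 0 := by rw [he j]; ring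
      rw [this]
      exact dvd_zero _
  by_cases hc : ∀ j, φ w.1 j = ψ w.2 j + h j
  · rw [if_pos hc, if_pos (hiff.2 hc)]
    field_simp
  · rw [if_neg hc, if_neg (fun h => hc (hiff.1 h))]
    simp

theorem fs_pow (k s Q : ℕ) (A : Finset ℕ) (α : Fin k → ℕ) :
    FS (Fintype.piFinset (fun _ : Fin s => A)) (pv k) Q α =
      (∑ n ∈ A, ee ((∑ j : Fin k, (α j : ℝ) * (n : ℝ) ^ ((j : ℕ) + 1)) / Q)) ^ s := by
  unfold FS
  have h1 : ∀ x : Fin s → ℕ, ee ((∑ j, (α j : ℝ) * ((pv k x j : ℤ) : ℝ)) / Q) =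
      ∏ i, ee ((∑ j : Fin k, (α j : ℝ) * (x i : ℝ) ^ ((j : ℕ) + 1)) / Q) := by
    intro x
    rw [← ee_sum']
    congr 1
    rw [← sum_div]
    congr 1
    rw [sum_comm]
    apply sum_congr rfl
    intro j _
    rw [← mul_sum]
    congr 1
    unfold pv
    push_cast
    rfl
  simp_rw [h1]
  rw [← Finset.prod_univ_sum (fun _ : Fin s => A) (fun (_ : Fin s) (n : ℕ) =>
    ee ((∑ j : Fin k, (α j : ℝ) * (n : ℝ) ^ ((j : ℕ) + 1)) / Q))]
  simp

theorem shift_le {ι : Type} {k : ℕ} (X : Finset ι) (φ : ι → Fin k → ℤ) (h : Fin k → ℤ) :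
    ((X ×ˢ X).filter (fun w => ∀ j, φ w.1 j = φ w.2 j + h j)).card ≤
      ((X ×ˢ X).filter (fun w => ∀ j, φ w.1 j = φ w.2 j)).card := by
  classical
  -- r(v) = # {x ∈ X : φ x = v}
  set r : (Fin k → ℤ) → ℕ := fun v => (X.filter (fun x => φ x = v)).card with hr
  set V : Finset (Fin k → ℤ) := X.image φ ∪ X.image (fun x => φ x + h) with hV
  have hsum : ∀ g : Fin k → ℤ, (∀ x ∈ X, φ x + g ∈ V) →
      ((X ×ˢ X).filter (fun w => ∀ j, φ w.1 j = φ w.2 j + g j)).card =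
        ∑ v ∈ V, r v * r (v - g) := by
    intro g hg
    rw [card_eq_sum_card_fiberwise (f := fun w => φ w.2 + g) (t := V)]
    · apply sum_congr rfl
      intro v _
      rw [hr]
      simp only
      rw [← card_product]
      congr 1
      ext w
      simp only [mem_filter, mem_product]
      constructor
      · rintro ⟨⟨⟨h1, h2⟩, h3⟩, h4⟩
        refine ⟨⟨h1, ?_⟩, h2, ?_⟩
        · rw [← h4]; funext j; exact h3 j
        · rw [← h4]; simp
      · rintro ⟨⟨h1, h2⟩, h3, h4⟩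
        refine ⟨⟨⟨h1, h3⟩, ?_⟩, ?_⟩
        · intro j
          rw [h2, h4]; simp
        · rw [h4]; simp
    · intro w hw
      rw [mem_coe, mem_filter, mem_product] at hw
      exact hg _ hw.1.2
  have e1 := hsum h (fun x hx => by
    rw [hV, mem_union]; right; exact mem_image.2 ⟨x, hx, rfl⟩)
  have e0 := hsum 0 (fun x hx => by
    rw [hV, mem_union, add_zero]; left; exact mem_image.2 ⟨x, hx, rfl⟩)
  have e0' : ((X ×ˢ X).filter (fun w => ∀ j, φ w.1 j = φ w.2 j)).card =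
        ∑ v ∈ V, r v * r v := by
    simpa using e0
  rw [e1, e0']
  have hshift : ∑ v ∈ V, r (v - h) ^ 2 ≤ ∑ v ∈ V, r v ^ 2 := by
    -- support of r is image φ
    have hs : ∀ v, r v ≠ 0 → v ∈ X.image φ := by
      intro v hv
      rw [hr] at hv
      simp only at hv
      obtain ⟨x, hx⟩ := card_pos.1 (Nat.pos_of_ne_zero hv)
      rw [mem_filter] at hx
      exact mem_image.2 ⟨x, hx.1, hx.2⟩
    calc ∑ v ∈ V, r (v - h) ^ 2 = ∑ v ∈ V.filter (fun v => r (v - h) ≠ 0), r (v - h) ^ 2 := by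
          rw [sum_filter_of_ne]
          intro v _ hv hv'
          apply hv
          rw [hv']; simp
      _ = ∑ u ∈ (V.filter (fun v => r (v - h) ≠ 0)).image (fun v => v - h), r u ^ 2 := by
          rw [sum_image]
          intro a _ b _ hab
          simpa using hab
      _ ≤ ∑ v ∈ V, r v ^ 2 := by
          apply sum_le_sum_of_subset
          intro u hu
          rw [mem_image] at hu
          obtain ⟨v, hv, rfl⟩ := hu
          rw [mem_filter] at hv
          rw [hV, mem_union]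
          left
          exact hs _ hv.2
  have hcs : 2 * ∑ v ∈ V, r v * r (v - h) ≤ ∑ v ∈ V, r v ^ 2 + ∑ v ∈ V, r (v - h) ^ 2 := by
    rw [mul_sum, ← sum_add_distrib]
    apply sum_le_sum
    intro v _
    nlinarith [sq_nonneg ((r v : ℤ) - r (v - h)), two_mul_le_add_sq (r v) (r (v - h))]
  have hsq : ∑ v ∈ V, r v * r v = ∑ v ∈ V, r v ^ 2 := by
    apply sum_congr rfl
    intro v _
    ring
  omega

/-- combined counting set -/
private theorem sc_fs {ι : Type} {k : ℕ} (s : ℕ) (W : Finset ι) (φ : ι → Fin k → ℤ) (A : Finset ℕ)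
    (Q : ℕ) (hQ : 1 ≤ Q)
    (hb : ∀ x ∈ W ×ˢ (Fintype.piFinset (fun _ : Fin s => A)),
      ∀ y ∈ W ×ˢ (Fintype.piFinset (fun _ : Fin s => A)),
      ∀ j, |(φ x.1 j + pv k x.2 j) - (φ y.1 j + pv k y.2 j)| < (Q : ℤ)) :
    ((SC s W φ A : ℕ) : ℝ) =
      (1 / (Q : ℝ) ^ k) * ∑ α ∈ grid k Q, ‖FS W φ Q α‖ ^ 2 *
        ‖∑ n ∈ A, ee ((∑ j : Fin k, (α j : ℝ) * (n : ℝ) ^ ((j : ℕ) + 1)) / Q)‖ ^ (2 * s) := by
  have h1 := fs_count (W ×ˢ (Fintype.piFinset (fun _ : Fin s => A)))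
    (W ×ˢ (Fintype.piFinset (fun _ : Fin s => A)))
    (fun x j => φ x.1 j + pv k x.2 j) (fun x j => φ x.1 j + pv k x.2 j) 0 Q hQ
    (by
      intro x hx y hy j
      have := hb x hx y hy j
      simpa using this)
  have hcard : (((W ×ˢ (Fintype.piFinset (fun _ : Fin s => A))) ×ˢ
      (W ×ˢ (Fintype.piFinset (fun _ : Fin s => A)))).filter
        (fun w => ∀ j, φ w.1.1 j + pv k w.1.2 j = φ w.2.1 j + pv k w.2.2 j + (0 : Fin k → ℤ) j)).card
      = SC s W φ A := by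
    unfold SC
    apply card_bij (fun z _ => ((z.1.1, z.2.1), (z.1.2, z.2.2)))
    · intro z hz
      simp only [mem_filter, mem_product, Pi.zero_apply, add_zero] at hz ⊢
      tauto
    · intro z _ z' _ he
      simp only [Prod.mk.injEq] at he
      obtain ⟨⟨h1, h2⟩, h3, h4⟩ := he
      exact Prod.ext (Prod.ext h1 h3) (Prod.ext h2 h4)
    · intro z hz
      refine ⟨((z.1.1, z.2.1), (z.1.2, z.2.2)), ?_, rfl⟩
      simp only [mem_filter, mem_product, Pi.zero_apply, add_zero] at hz ⊢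
      tauto
  rw [hcard] at h1
  have hFS : ∀ α : Fin k → ℕ, FS (W ×ˢ (Fintype.piFinset (fun _ : Fin s => A)))
      (fun x j => φ x.1 j + pv k x.2 j) Q α = FS W φ Q α *
        (∑ n ∈ A, ee ((∑ j : Fin k, (α j : ℝ) * (n : ℝ) ^ ((j : ℕ) + 1)) / Q)) ^ s := by
    intro α
    rw [← fs_pow]
    unfold FS
    rw [sum_mul_sum, ← sum_product']
    apply sum_congr rfl
    intro x _
    rw [← ee_add', ← add_div, ← sum_add_distrib]
    congr 2
    apply sum_congr rfl
    intro j _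
    push_cast
    ring
  have h2 : ((SC s W φ A : ℕ) : ℂ) = (((1 / (Q : ℝ) ^ k) * ∑ α ∈ grid k Q, ‖FS W φ Q α‖ ^ 2 *
        ‖∑ n ∈ A, ee ((∑ j : Fin k, (α j : ℝ) * (n : ℝ) ^ ((j : ℕ) + 1)) / Q)‖ ^ (2 * s) : ℝ) : ℂ) := by
    rw [h1]
    push_cast
    congr 1
    apply sum_congr rfl
    intro α _
    have : ee (-(∑ j, (α j : ℝ) * (((0 : Fin k → ℤ) j : ℤ) : ℝ)) / Q) = 1 := by
      simp [ee_zero']
    rw [this, mul_one, Complex.mul_conj', hFS, norm_mul, norm_pow]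
    push_cast
    ring
  exact_mod_cast h2

private theorem hoelder' (p s : ℕ) (hs : 1 ≤ s) (g : ℕ → ℂ) :
    ‖∑ b ∈ range p, g b‖ ^ (2 * s) ≤ (p : ℝ) ^ (2 * s - 1) * ∑ b ∈ range p, ‖g b‖ ^ (2 * s) := by
  obtain ⟨m, hm⟩ : ∃ m, 2 * s = m + 1 := ⟨2 * s - 1, by omega⟩
  rw [hm, Nat.add_sub_cancel]
  have h1 : ‖∑ b ∈ range p, g b‖ ^ (m + 1) ≤ (∑ b ∈ range p, ‖g b‖) ^ (m + 1) :=
    pow_le_pow_left₀ (norm_nonneg _) (norm_sum_le _ _) _
  refine h1.trans ?_
  rcases Nat.eq_zero_or_pos p with rfl | hp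
  · simp
  have h3 := pow_sum_div_card_le_sum_pow (s := range p) (f := fun b => ‖g b‖)
    (hf := fun b _ => norm_nonneg _) m
  rw [card_range, div_le_iff₀ (by positivity)] at h3
  linarith

private theorem bound' {κ : Type} {k : ℕ} (X : Finset κ) (f : κ → Fin k → ℤ) :
    ∃ B : ℤ, 0 ≤ B ∧ ∀ x ∈ X, ∀ j, |f x j| ≤ B := by
  classical
  induction X using Finset.induction_on with
  | empty => exact ⟨0, le_refl _, by simp⟩
  | insert a X ha ih =>
    obtain ⟨B, hB, h⟩ := ih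
    have h0 : 0 ≤ ∑ j, |f a j| := sum_nonneg fun j _ => abs_nonneg _
    refine ⟨B + ∑ j, |f a j|, add_nonneg hB h0, ?_⟩
    intro x hx j
    rcases mem_insert.1 hx with rfl | hx
    · have h1 : |f x j| ≤ ∑ j, |f x j| :=
        single_le_sum (f := fun j => |f x j|) (fun j _ => abs_nonneg _) (mem_univ j)
      linarith
    · have := h x hx j
      linarith

theorem sc_class {ι : Type} {k : ℕ} (s p : ℕ) (hs : 1 ≤ s) (hp : 1 ≤ p) (W : Finset ι)
    (φ : ι → Fin k → ℤ) (A : Finset ℕ) :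
    SC s W φ A ≤ p ^ (2 * s - 1) * ∑ b ∈ range p, SC s W φ (A.filter (fun n => n % p = b)) := by
  classical
  -- choose Q
  set X := W ×ˢ (Fintype.piFinset (fun _ : Fin s => A)) with hX
  obtain ⟨B, hB0, hxB⟩ := bound' X (fun x j => φ x.1 j + pv k x.2 j)
  obtain ⟨Q, hQB⟩ : ∃ Q : ℕ, (Q : ℤ) = 2 * B + 1 :=
    ⟨(2 * B + 1).toNat, Int.toNat_of_nonneg (by linarith)⟩
  have hQ1 : 1 ≤ Q := by
    have : (1 : ℤ) ≤ Q := by linarith
    exact_mod_cast this
  have hb : ∀ x ∈ X, ∀ y ∈ X,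
      ∀ j, |(φ x.1 j + pv k x.2 j) - (φ y.1 j + pv k y.2 j)| < (Q : ℤ) := by
    intro x hx y hy j
    have h1 := hxB x hx j
    have h2 := hxB y hy j
    calc |(φ x.1 j + pv k x.2 j) - (φ y.1 j + pv k y.2 j)| ≤
          |φ x.1 j + pv k x.2 j| + |φ y.1 j + pv k y.2 j| := abs_sub _ _
      _ < Q := by rw [hQB]; linarith
  have hsub : ∀ b, ∀ x ∈ W ×ˢ (Fintype.piFinset (fun _ : Fin s => A.filter (fun n => n % p = b))),
      x ∈ X := by
    intro b x hx
    rw [mem_product, Fintype.mem_piFinset] at hx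
    rw [hX, mem_product, Fintype.mem_piFinset]
    exact ⟨hx.1, fun i => (mem_filter.1 (hx.2 i)).1⟩
  have e1 := sc_fs s W φ A Q hQ1 hb
  have e2 : ∀ b, ((SC s W φ (A.filter (fun n => n % p = b)) : ℕ) : ℝ) =
      (1 / (Q : ℝ) ^ k) * ∑ α ∈ grid k Q, ‖FS W φ Q α‖ ^ 2 *
        ‖∑ n ∈ A.filter (fun n => n % p = b),
          ee ((∑ j : Fin k, (α j : ℝ) * (n : ℝ) ^ ((j : ℕ) + 1)) / Q)‖ ^ (2 * s) := by
    intro b
    exact sc_fs s W φ _ Q hQ1 (fun x hx y hy j => hb x (hsub b x hx) y (hsub b y hy) j)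
  have main : ((SC s W φ A : ℕ) : ℝ) ≤ (p : ℝ) ^ (2 * s - 1) *
      ∑ b ∈ range p, ((SC s W φ (A.filter (fun n => n % p = b)) : ℕ) : ℝ) := by
    rw [e1]
    simp_rw [e2]
    rw [← mul_sum, sum_comm, mul_left_comm]
    apply mul_le_mul_of_nonneg_left _ (by positivity)
    rw [mul_sum]
    apply sum_le_sum
    intro α _
    rw [← mul_sum, mul_left_comm]
    apply mul_le_mul_of_nonneg_left _ (by positivity)
    have h5 : ∑ n ∈ A, ee ((∑ j : Fin k, (α j : ℝ) * (n : ℝ) ^ ((j : ℕ) + 1)) / Q) =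
        ∑ b ∈ range p, ∑ n ∈ A.filter (fun n => n % p = b),
          ee ((∑ j : Fin k, (α j : ℝ) * (n : ℝ) ^ ((j : ℕ) + 1)) / Q) := by
      rw [sum_fiberwise_of_maps_to]
      intro n _
      rw [mem_range]
      exact Nat.mod_lt _ hp
    rw [h5]
    exact hoelder' p s hs _
  exact_mod_cast main

theorem jv_mono (k s M M' : ℕ) (h : M ≤ M') : JV k s M ≤ JV k s M' := by
  unfold JV
  apply card_le_card
  apply filter_subset_filter
  have : box s M ⊆ box s M' := by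
    unfold box
    intro x hx
    rw [Fintype.mem_piFinset] at hx ⊢
    intro i
    have := mem_Icc.1 (hx i)
    exact mem_Icc.2 ⟨this.1, this.2.trans h⟩
  exact product_subset_product this this

theorem jv_add (k s r M : ℕ) : JV k (s + r) M ≤ M ^ (2 * r) * JV k s M := by
  classical
  have hpv : ∀ (x : Fin (s + r) → ℕ) (j : Fin k), pv k x j =
      pv k (fun i : Fin s => x (Fin.castAdd r i)) j + pv k (fun i : Fin r => x (Fin.natAdd s i)) j := by
    intro x j
    unfold pv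
    rw [Fin.sum_univ_add]
  -- map a pair to the pair of the last coordinates
  unfold JV
  have hmaps : ∀ w ∈ ((box (s + r) M) ×ˢ (box (s + r) M)).filter (fun w => pv k w.1 = pv k w.2),
      ((fun i : Fin r => w.1 (Fin.natAdd s i)), (fun i : Fin r => w.2 (Fin.natAdd s i))) ∈
        (box r M) ×ˢ (box r M) := by
    intro w hw
    rw [mem_filter, mem_product] at hw
    unfold box at hw ⊢
    rw [Fintype.mem_piFinset, Fintype.mem_piFinset] at hw
    rw [mem_product, Fintype.mem_piFinset, Fintype.mem_piFinset]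
    exact ⟨fun i => hw.1.1 _, fun i => hw.1.2 _⟩
  rw [card_eq_sum_card_fiberwise (f := fun w : (Fin (s + r) → ℕ) × (Fin (s + r) → ℕ) =>
    ((fun i : Fin r => w.1 (Fin.natAdd s i)), (fun i : Fin r => w.2 (Fin.natAdd s i))))
    (t := (box r M) ×ˢ (box r M)) (by intro w hw; exact hmaps w hw)]
  have hfib : ∀ y ∈ (box r M) ×ˢ (box r M),
      ((((box (s + r) M) ×ˢ (box (s + r) M)).filter (fun w => pv k w.1 = pv k w.2)).filter
        (fun w => ((fun i : Fin r => w.1 (Fin.natAdd s i)), (fun i : Fin r => w.2 (Fin.natAdd s i))) = y)).card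
        ≤ (((box s M) ×ˢ (box s M)).filter (fun w => pv k w.1 = pv k w.2)).card := by
    intro y _
    calc _ ≤ (((box s M) ×ˢ (box s M)).filter (fun w => ∀ j, pv k w.1 j = pv k w.2 j +
          (pv k y.2 - pv k y.1) j)).card := by
          apply card_le_card_of_injOn (fun w => ((fun i : Fin s => w.1 (Fin.castAdd r i)),
            (fun i : Fin s => w.2 (Fin.castAdd r i))))
          · intro w hw
            rw [mem_coe, mem_filter, mem_filter, mem_product] at hw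
            rw [mem_coe, mem_filter, mem_product]
            obtain ⟨⟨⟨h1, h2⟩, h3⟩, h4⟩ := hw
            unfold box at h1 h2 ⊢
            rw [Fintype.mem_piFinset] at h1 h2
            refine ⟨⟨Fintype.mem_piFinset.2 fun i => h1 _, Fintype.mem_piFinset.2 fun i => h2 _⟩, ?_⟩
            intro j
            have h5 := congrFun h3 j
            rw [hpv, hpv] at h5
            rw [← h4]
            simp only [Pi.sub_apply]
            linarith
          · intro w hw w' hw' he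
            rw [mem_coe, mem_filter, mem_filter] at hw hw'
            have h4 := hw.2.trans hw'.2.symm
            simp only [Prod.mk.injEq] at he h4
            apply Prod.ext
            · funext i
              refine Fin.addCases (fun i => ?_) (fun i => ?_) i
              · exact congrFun he.1 i
              · exact congrFun h4.1 i
            · funext i
              refine Fin.addCases (fun i => ?_) (fun i => ?_) i
              · exact congrFun he.2 i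
              · exact congrFun h4.2 i
      _ ≤ (((box s M) ×ˢ (box s M)).filter (fun w => ∀ j, pv k w.1 j = pv k w.2 j)).card :=
          shift_le _ _ _
      _ = _ := by
          congr 1
          apply filter_congr
          intro w _
          exact funext_iff.symm
  refine (sum_le_card_nsmul _ _ _ hfib).trans ?_
  rw [smul_eq_mul, card_product]
  have hbc : (box r M).card = M ^ r := by
    unfold box
    rw [Fintype.card_piFinset]
    simp
  rw [hbc]
  apply le_of_eq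
  ring

end Pool.Agent.H97.VK

end

section

/-!
# VK Lin1: power sums modulo `p^m` determine the tuple up to order

Proof.  Newton's identities (Mathlib `MvPolynomial.mul_esymm_eq_sum`, or `MvPolynomial.psum`/`esymm` identities
specialised by `MvPolynomial.aeval`): `j e_j = ∑ ± e_{j-i} p_i`; `j ≤ k < p` is a unit in `ZMod (p^m)`, so the elementary symmetric
functions of `x` and `y` agree, hence `∏ (T - x_i) = ∏ (T - y_i)` as polynomials over `ZMod (p^m)` (Vieta,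
`Multiset.prod_X_sub_X_eq_sum_esymm` or `MvPolynomial.prod_C_add_X_eq_sum_esymm`).  Put `T = y_i`: `∏_{i'} (y_i - x_{i'}) = 0`.
If all factors but one are units the remaining one is `0`.  A factor `y_i - x_{i'}` is a unit iff it is not divisible by `p`
(`ZMod (p^m)` is local with maximal ideal `(p)`); two factors `y_i - x_{i'}`, `y_i - x_{i''}` cannot both be nonunits because their
difference `x_{i''} - x_{i'}` is a unit (in a local ring the sum of nonunits is a nonunit).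
`lin_card`: fix one member `x0` of the set; every member `y` is `x0 ∘ σ` with `σ : Fin k → Fin k`; `σ` is injective as `y` is (differences are
units and the ring is nontrivial), so it is one of the `k!` permutations.
-/

set_option autoImplicit false

namespace Pool.Agent.H97.VK

open Finset

private theorem Lin1_esymm {R : Type*} [CommRing R] {k : ℕ} (x y : Fin k → R)
    (hc : ∀ j : ℕ, 1 ≤ j → j ≤ k → ∀ a b : R, (j : R) * a = (j : R) * b → a = b)
    (h : ∀ j, 1 ≤ j → j ≤ k → ∑ i, x i ^ j = ∑ i, y i ^ j) (n : ℕ) (hn : n ≤ k) :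
    (univ.val.map x).esymm n = (univ.val.map y).esymm n := by
  have hN : ∀ (z : Fin k → R) (n : ℕ), (n : R) * (univ.val.map z).esymm n = (-1) ^ (n + 1) *
      ∑ a ∈ antidiagonal n with a.1 < n, (-1) ^ a.1 * (univ.val.map z).esymm a.1 *
        ∑ i, z i ^ a.2 := by
    intro z n
    have h1 := congrArg (MvPolynomial.aeval z) (MvPolynomial.mul_esymm_eq_sum (Fin k) R n)
    simp only [map_mul, map_natCast, map_pow, map_neg, map_one, map_sum,
      MvPolynomial.aeval_esymm_eq_multiset_esymm, MvPolynomial.psum, MvPolynomial.aeval_X] at h1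
    exact h1
  induction n using Nat.strong_induction_on with
  | _ n ih =>
    rcases Nat.eq_zero_or_pos n with h0 | h0
    · subst h0
      simp [Multiset.esymm]
    · refine hc n h0 hn _ _ ?_
      rw [hN x n, hN y n]
      congr 1
      refine sum_congr rfl fun a ha => ?_
      rw [mem_filter, HasAntidiagonal.mem_antidiagonal] at ha
      rw [ih a.1 ha.2 (by omega), h a.2 (by omega) (by omega)]

private theorem Lin1_prod {R : Type*} [CommRing R] {k : ℕ} (x y : Fin k → R)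
    (hc : ∀ j : ℕ, 1 ≤ j → j ≤ k → ∀ a b : R, (j : R) * a = (j : R) * b → a = b)
    (h : ∀ j, 1 ≤ j → j ≤ k → ∑ i, x i ^ j = ∑ i, y i ^ j) :
    ((univ.val.map x).map fun t => Polynomial.X - Polynomial.C t).prod =
      ((univ.val.map y).map fun t => Polynomial.X - Polynomial.C t).prod := by
  rw [Multiset.prod_X_sub_X_eq_sum_esymm, Multiset.prod_X_sub_X_eq_sum_esymm]
  have hx : Multiset.card (univ.val.map x) = k := by simp
  have hy : Multiset.card (univ.val.map y) = k := by simp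
  rw [hx, hy]
  refine sum_congr rfl fun j hj => ?_
  rw [mem_range] at hj
  rw [Lin1_esymm x y hc h j (by omega)]

private theorem Lin1_eval {R : Type*} [CommRing R] {k : ℕ} (x y : Fin k → R)
    (hc : ∀ j : ℕ, 1 ≤ j → j ≤ k → ∀ a b : R, (j : R) * a = (j : R) * b → a = b)
    (h : ∀ j, 1 ≤ j → j ≤ k → ∑ i, x i ^ j = ∑ i, y i ^ j) (i : Fin k) :
    ∏ i', (y i - x i') = 0 := by
  have h1 := congrArg (Polynomial.eval (y i)) (Lin1_prod x y hc h)
  have h2 : ∀ z : Fin k → R, Polynomial.eval (y i)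
      ((univ.val.map z).map fun t => Polynomial.X - Polynomial.C t).prod = ∏ i', (y i - z i') := by
    intro z
    rw [Multiset.map_map, Finset.prod_map_val, Polynomial.eval_prod]
    refine prod_congr rfl fun i' _ => ?_
    simp
  rw [h2, h2] at h1
  rw [h1]
  exact prod_eq_zero (mem_univ i) (sub_self _)

private theorem Lin1_unit {p m : ℕ} (hp : p.Prime) (hm : 1 ≤ m) (a : ZMod (p ^ m)) :
    IsUnit a ↔ ZMod.castHom (dvd_pow_self p (by omega : m ≠ 0)) (ZMod p) a ≠ 0 := by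
  have : NeZero (p ^ m) := ⟨(pow_pos hp.pos m).ne'⟩
  obtain ⟨v, rfl⟩ : ∃ v : ℕ, (v : ZMod (p ^ m)) = a := ⟨a.val, ZMod.natCast_zmod_val a⟩
  rw [ZMod.isUnit_iff_coprime, map_natCast, Ne, ZMod.natCast_eq_zero_iff,
    Nat.coprime_pow_right_iff (by omega), Nat.coprime_comm, hp.coprime_iff_not_dvd]

private theorem Lin1_nontriv {p m : ℕ} (hp : p.Prime) (hm : 1 ≤ m) : Nontrivial (ZMod (p ^ m)) := by
  have : Fact (1 < p ^ m) := ⟨Nat.one_lt_pow (by omega) hp.one_lt⟩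
  infer_instance

private theorem Lin1_cancel {k p m : ℕ} (hp : p.Prime) (hk : k < p) (j : ℕ)
    (h1 : 1 ≤ j) (h2 : j ≤ k) (a b : ZMod (p ^ m))
    (h : (j : ZMod (p ^ m)) * a = (j : ZMod (p ^ m)) * b) : a = b := by
  have h3 : IsUnit (j : ZMod (p ^ m)) := by
    rw [ZMod.isUnit_iff_coprime]
    refine Nat.Coprime.pow_right m ?_
    rw [Nat.coprime_comm, hp.coprime_iff_not_dvd]
    exact fun h4 => absurd (Nat.le_of_dvd (by omega) h4) (by omega)
  exact h3.mul_left_cancel h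

/-- equal multisets: the tuples differ by a permutation -/
private theorem Lin1_perm {α : Type*} {k : ℕ} (x y : Fin k → α)
    (h : univ.val.map x = univ.val.map y) : ∃ σ : Equiv.Perm (Fin k), y = x ∘ σ := by
  classical
  have h1 : ∀ c, Fintype.card {i // y i = c} = Fintype.card {i // x i = c} := by
    intro c
    rw [Fintype.card_subtype, Fintype.card_subtype]
    have h2 := congrArg (Multiset.count c) h
    rw [Multiset.count_map, Multiset.count_map] at h2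
    have h3 : ∀ z : Fin k → α, #{i | z i = c} = (Multiset.filter (fun i => c = z i) univ.val).card := by
      intro z
      rw [← Finset.filter_val, Finset.card_val]
      congr 1
      ext i
      simp [eq_comm]
    rw [h3, h3, h2]
  refine ⟨Equiv.ofFiberEquiv (fun c => Fintype.equivOfCardEq (h1 c)), ?_⟩
  funext i
  exact (Equiv.ofFiberEquiv_map (fun c => Fintype.equivOfCardEq (h1 c)) i).symm

theorem lin_perm {k p m : ℕ} (hp : p.Prime) (hk : k < p) (hm : 1 ≤ m) (x y : Fin k → ZMod (p ^ m))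
    (h : ∀ j, 1 ≤ j → j ≤ k → ∑ i, x i ^ j = ∑ i, y i ^ j)
    (hinj : ∀ i i', i ≠ i' → IsUnit (x i - x i')) (i : Fin k) : ∃ i', y i = x i' := by
  have := Lin1_nontriv hp hm
  have h0 := Lin1_eval x y (fun j h1 h2 => Lin1_cancel hp hk j h1 h2) h i
  have h1 : ∃ i', ¬ IsUnit (y i - x i') := by
    by_contra hcon
    push Not at hcon
    have h2 : IsUnit (∏ i', (y i - x i')) := by
      exact IsUnit.prod_univ_iff.2 hcon
    rw [h0] at h2
    exact not_isUnit_zero h2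
  obtain ⟨i', hi'⟩ := h1
  refine ⟨i', ?_⟩
  have h3 : ∀ i'', i'' ≠ i' → IsUnit (y i - x i'') := by
    intro i'' hne
    by_contra hcon
    have h4 := hinj i'' i' hne
    rw [Lin1_unit hp hm] at hi' hcon h4
    push Not at hi' hcon
    apply h4
    have h5 : x i'' - x i' = (y i - x i') - (y i - x i'') := by ring
    rw [h5, map_sub, hi', hcon, sub_zero]
  have h6 : (y i - x i') * ∏ i'' ∈ univ.erase i', (y i - x i'') = 0 := by
    rw [mul_prod_erase univ (fun i'' => y i - x i'') (mem_univ i')]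
    exact h0
  have h7 : IsUnit (∏ i'' ∈ univ.erase i', (y i - x i'')) := by
    rw [IsUnit.prod_iff]
    exact fun i'' hi'' => h3 i'' (ne_of_mem_erase hi'')
  have h8 := (h7.mul_left_eq_zero).1 h6
  exact sub_eq_zero.1 h8

theorem lin_card {k p m : ℕ} (hp : p.Prime) (hk : k < p) (hm : 1 ≤ m) (c : ℕ → ZMod (p ^ m))
    (X : Finset (Fin k → ZMod (p ^ m)))
    (hX : ∀ x ∈ X, (∀ j, 1 ≤ j → j ≤ k → ∑ i, x i ^ j = c j) ∧ ∀ i i', i ≠ i' → IsUnit (x i - x i')) :
    X.card ≤ k.factorial := by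
  classical
  have := Lin1_nontriv hp hm
  rcases X.eq_empty_or_nonempty with h0 | ⟨x0, hx0⟩
  · rw [h0, card_empty]; exact Nat.zero_le _
  · have h1 : X ⊆ (univ : Finset (Equiv.Perm (Fin k))).image (fun σ : Equiv.Perm (Fin k) => x0 ∘ ⇑σ) := by
      intro y hy
      rw [mem_image]
      have h2 : ∀ i, ∃ i', y i = x0 i' := fun i => lin_perm hp hk hm x0 y
        (fun j h1 h2 => by rw [(hX x0 hx0).1 j h1 h2, (hX y hy).1 j h1 h2]) (hX x0 hx0).2 i
      choose σ hσ using h2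
      have h3 : Function.Injective σ := by
        intro i i' h4
        by_contra hne
        have h5 := (hX y hy).2 i i' hne
        rw [hσ i, hσ i', h4, sub_self] at h5
        exact not_isUnit_zero h5
      refine ⟨Equiv.ofBijective σ (Finite.injective_iff_bijective.1 h3), mem_univ _, ?_⟩
      funext i
      exact (hσ i).symm
    calc X.card ≤ ((univ : Finset (Equiv.Perm (Fin k))).image (fun σ : Equiv.Perm (Fin k) => x0 ∘ ⇑σ)).card :=
          card_le_card h1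
      _ ≤ (univ : Finset (Equiv.Perm (Fin k))).card := card_image_le
      _ = k.factorial := by rw [card_univ, Fintype.card_perm, Fintype.card_fin]

/-- the same over the integers: `J_{k,k}(M) ≤ k! M^k` (here no condition on the differences is needed: `ℤ` is a domain, the multisets of
the `x_i` and of the `y_i` agree, so `y = x ∘ σ` with a permutation `σ`) -/
theorem jv_base (k M : ℕ) : JV k k M ≤ k.factorial * M ^ k := by
  classical
  have h1 : ((box k M) ×ˢ (box k M)).filter (fun w => pv k w.1 = pv k w.2) ⊆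
      ((box k M) ×ˢ (univ : Finset (Equiv.Perm (Fin k)))).image (fun w : (Fin k → ℕ) × Equiv.Perm (Fin k) => (w.1, w.1 ∘ ⇑w.2)) := by
    intro w hw
    rw [mem_filter, mem_product] at hw
    obtain ⟨⟨hw1, hw2⟩, hw3⟩ := hw
    have h2 : ∀ j, 1 ≤ j → j ≤ k → ∑ i, (w.1 i : ℤ) ^ j = ∑ i, (w.2 i : ℤ) ^ j := by
      intro j hj1 hj2
      have h3 := congrFun hw3 ⟨j - 1, by omega⟩
      unfold pv at h3
      have h4 : j - 1 + 1 = j := by omega
      simp only [h4] at h3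
      exact h3
    have h5 := Lin1_prod (fun i => (w.1 i : ℤ)) (fun i => (w.2 i : ℤ)) (fun j hj1 _ a b hab =>
      mul_left_cancel₀ (by exact_mod_cast (by omega : j ≠ 0)) hab) h2
    have h6 := congrArg Polynomial.roots h5
    rw [Polynomial.roots_multiset_prod_X_sub_C, Polynomial.roots_multiset_prod_X_sub_C] at h6
    obtain ⟨σ, hσ⟩ := Lin1_perm _ _ h6
    rw [mem_image]
    refine ⟨(w.1, σ), mem_product.2 ⟨hw1, mem_univ _⟩, ?_⟩
    refine Prod.ext rfl ?_
    funext i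
    have h7 := congrFun hσ i
    simp only [Function.comp_apply] at h7 ⊢
    exact_mod_cast h7.symm
  unfold JV
  calc _ ≤ _ := card_le_card h1
    _ ≤ ((box k M) ×ˢ (univ : Finset (Equiv.Perm (Fin k)))).card := card_image_le
    _ = k.factorial * M ^ k := by
        rw [card_product, card_univ, Fintype.card_perm, Fintype.card_fin, box,
          Fintype.card_piFinset]
        simp [mul_comm]

end Pool.Agent.H97.VK

end

section

/-!
# VK Lin2: Linnik's lemma

Proof.  Map `x` to the tuple `(x_i - b) mod p^k` (injective on the box because `M ≤ p^k`).  The power sums `S_j(x) = ∑ (x_i - b)^j` are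
`≡ c_j mod p^j`, so their residues modulo `p^k` lie in a set of `p^{k-j}` residues; altogether `∏_{j=1}^k p^{k-j} = p^{k(k-1)/2}` vectors of
residues mod `p^k`.  For each vector at most `k!` tuples (`lin_card` with `m = k`; differences of the coordinates are not divisible by `p`,
hence units).  (`k = 0`: the box has one element.)
-/

set_option autoImplicit false

namespace Pool.Agent.H97.VK

open Finset

theorem lin_count (k p M b : ℕ) (c : ℕ → ℤ) (hp : p.Prime) (hk : k < p) (hM : M ≤ p ^ k) :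
    ((inj k p M).filter (fun x => ∀ j ∈ Icc 1 k,
      ((p : ℤ) ^ j) ∣ (∑ i, ((x i : ℤ) - b) ^ j) - c j)).card ≤ k.factorial * p ^ (k * (k - 1) / 2) := by
  rcases Nat.eq_zero_or_pos k with hk0 | hkpos
  · subst hk0
    have h1 : ((inj 0 p M).filter (fun x => ∀ j ∈ Icc 1 0,
      ((p : ℤ) ^ j) ∣ (∑ i, ((x i : ℤ) - b) ^ j) - c j)).card ≤ 1 := by
      apply Finset.card_le_one.2
      intro a _ b _
      exact Subsingleton.elim _ _
    simpa using h1
  set S := (inj k p M).filter (fun x => ∀ j ∈ Icc 1 k,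
      ((p : ℤ) ^ j) ∣ (∑ i, ((x i : ℤ) - b) ^ j) - c j) with hS
  let φ : (Fin k → ℕ) → (Fin k → ZMod (p ^ k)) := fun x j =>
    ∑ i, (((x i : ℤ) - b : ℤ) : ZMod (p ^ k)) ^ ((j : ℕ) + 1)
  let V : Fin k → Finset (ZMod (p ^ k)) := fun j =>
    (range (p ^ (k - 1 - (j : ℕ)))).image
      (fun t : ℕ => ((c ((j : ℕ) + 1) + (p : ℤ) ^ ((j : ℕ) + 1) * (t : ℤ) : ℤ) : ZMod (p ^ k)))
  have himg : S.image φ ⊆ Fintype.piFinset V := by
    intro v hv
    obtain ⟨x, hx, rfl⟩ := Finset.mem_image.1 hv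
    rw [Fintype.mem_piFinset]
    intro j
    have hx2 := (Finset.mem_filter.1 hx).2 ((j : ℕ) + 1)
      (Finset.mem_Icc.2 ⟨by omega, by have := j.2; omega⟩)
    obtain ⟨q, hq⟩ := hx2
    refine Finset.mem_image.2 ⟨(q % ((p ^ (k - 1 - (j : ℕ)) : ℕ) : ℤ)).toNat, ?_, ?_⟩
    · rw [Finset.mem_range]
      have hpos : (0 : ℤ) < ((p ^ (k - 1 - (j : ℕ)) : ℕ) : ℤ) := by
        exact_mod_cast pow_pos hp.pos _
      have h1 := Int.emod_lt_of_pos q hpos
      have h2 := Int.emod_nonneg q hpos.ne'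
      omega
    · have hpos : (0 : ℤ) < ((p ^ (k - 1 - (j : ℕ)) : ℕ) : ℤ) := by
        exact_mod_cast pow_pos hp.pos _
      have h2 := Int.emod_nonneg q hpos.ne'
      have h3 : (((q % ((p ^ (k - 1 - (j : ℕ)) : ℕ) : ℤ)).toNat : ℕ) : ℤ)
          = q % ((p ^ (k - 1 - (j : ℕ)) : ℕ) : ℤ) := Int.toNat_of_nonneg h2
      have h4 : (∑ i, (((x i : ℤ) - b : ℤ) : ZMod (p ^ k)) ^ ((j : ℕ) + 1))
          = (((∑ i, ((x i : ℤ) - b) ^ ((j : ℕ) + 1)) : ℤ) : ZMod (p ^ k)) := by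
        push_cast
        rfl
      show _ = (∑ i, (((x i : ℤ) - b : ℤ) : ZMod (p ^ k)) ^ ((j : ℕ) + 1))
      rw [h4, ZMod.intCast_eq_intCast_iff_dvd_sub]
      rw [h3]
      have h5 : (∑ i, ((x i : ℤ) - b) ^ ((j : ℕ) + 1))
          = c ((j : ℕ) + 1) + (p : ℤ) ^ ((j : ℕ) + 1) * q := by linarith
      rw [h5]
      have h6 : c ((j : ℕ) + 1) + (p : ℤ) ^ ((j : ℕ) + 1) * q
          - (c ((j : ℕ) + 1) + (p : ℤ) ^ ((j : ℕ) + 1) * (q % ((p ^ (k - 1 - (j : ℕ)) : ℕ) : ℤ)))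
          = (p : ℤ) ^ ((j : ℕ) + 1) * (q - q % ((p ^ (k - 1 - (j : ℕ)) : ℕ) : ℤ)) := by ring
      rw [h6]
      have h7 : ((p ^ k : ℕ) : ℤ) = (p : ℤ) ^ ((j : ℕ) + 1) * ((p ^ (k - 1 - (j : ℕ)) : ℕ) : ℤ) := by
        push_cast
        rw [← pow_add]
        congr 1
        have := j.2
        omega
      rw [h7]
      exact mul_dvd_mul_left _ (Int.dvd_self_sub_emod)
  have hcardV : (Fintype.piFinset V).card ≤ p ^ (k * (k - 1) / 2) := by
    rw [Fintype.card_piFinset]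
    calc ∏ j : Fin k, (V j).card ≤ ∏ j : Fin k, p ^ (k - 1 - (j : ℕ)) := by
          apply Finset.prod_le_prod'
          intro j _
          exact (Finset.card_image_le).trans (by rw [Finset.card_range])
      _ = p ^ (k * (k - 1) / 2) := by
          rw [Finset.prod_pow_eq_pow_sum]
          congr 1
          rw [Fin.sum_univ_eq_sum_range (fun j => k - 1 - j) k, Finset.sum_range_reflect (fun j => j) k,
            Finset.sum_range_id]
  have hfib : ∀ v ∈ S.image φ, (S.filter (fun x => φ x = v)).card ≤ k.factorial := by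
    intro v hv
    obtain ⟨x0, hx0, hx0v⟩ := Finset.mem_image.1 hv
    let ψ : (Fin k → ℕ) → (Fin k → ZMod (p ^ k)) := fun x i => (((x i : ℤ) - b : ℤ) : ZMod (p ^ k))
    have hinj : Set.InjOn ψ (S.filter (fun x => φ x = v) : Finset _) := by
      intro x hx y hy hxy
      have hx1 := (Finset.mem_filter.1 (Finset.mem_coe.1 hx)).1
      have hy1 := (Finset.mem_filter.1 (Finset.mem_coe.1 hy)).1
      have hx2 := (Finset.mem_filter.1 (Finset.mem_filter.1 hx1).1).1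
      have hy2 := (Finset.mem_filter.1 (Finset.mem_filter.1 hy1).1).1
      funext i
      have hxi := Finset.mem_Icc.1 (Fintype.mem_piFinset.1 hx2 i)
      have hyi := Finset.mem_Icc.1 (Fintype.mem_piFinset.1 hy2 i)
      have h1 := congrFun hxy i
      have h2 : (((x i : ℤ) - b : ℤ) : ZMod (p ^ k)) = (((y i : ℤ) - b : ℤ) : ZMod (p ^ k)) := h1
      rw [ZMod.intCast_eq_intCast_iff_dvd_sub] at h2
      have h3 : ((y i : ℤ) - b - ((x i : ℤ) - b)) = (y i : ℤ) - x i := by ring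
      rw [h3] at h2
      have hM' : (M : ℤ) ≤ ((p ^ k : ℕ) : ℤ) := by exact_mod_cast hM
      have h4 : |(y i : ℤ) - x i| < ((p ^ k : ℕ) : ℤ) := by
        rw [abs_lt]
        constructor
        · have : (x i : ℤ) ≤ M := by exact_mod_cast hxi.2
          have : (1 : ℤ) ≤ y i := by exact_mod_cast hyi.1
          linarith
        · have : (y i : ℤ) ≤ M := by exact_mod_cast hyi.2
          have : (1 : ℤ) ≤ x i := by exact_mod_cast hxi.1
          linarith
      have h5 := Int.eq_zero_of_abs_lt_dvd h2 h4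
      have h6 : (y i : ℤ) = x i := by linarith
      exact_mod_cast h6.symm
    rw [← Finset.card_image_of_injOn hinj]
    apply lin_card hp hk hkpos (fun j => ∑ i, ψ x0 i ^ j)
    intro w hw
    obtain ⟨x, hx, rfl⟩ := Finset.mem_image.1 hw
    obtain ⟨hx1, hxv⟩ := Finset.mem_filter.1 hx
    constructor
    · intro j hj1 hjk
      have h1 : φ x = φ x0 := by rw [hxv, hx0v]
      have h2 := congrFun h1 ⟨j - 1, by omega⟩
      have h3 : (∑ i, (((x i : ℤ) - b : ℤ) : ZMod (p ^ k)) ^ ((j - 1) + 1))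
          = ∑ i, (((x0 i : ℤ) - b : ℤ) : ZMod (p ^ k)) ^ ((j - 1) + 1) := h2
      rw [Nat.sub_add_cancel hj1] at h3
      exact h3
    · intro i i' hii
      have hx2 := (Finset.mem_filter.1 (Finset.mem_filter.1 hx1).1).2 i i' hii
      have h1 : ψ x i - ψ x i' = (((x i : ℤ) - x i' : ℤ) : ZMod (p ^ k)) := by
        show (((x i : ℤ) - b : ℤ) : ZMod (p ^ k)) - (((x i' : ℤ) - b : ℤ) : ZMod (p ^ k)) = _
        push_cast
        ring
      rw [h1, ZMod.coe_int_isUnit_iff_isCoprime]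
      rw [Nat.cast_pow]
      apply IsCoprime.pow_left
      rw [(Nat.prime_iff_prime_int.1 hp).coprime_iff_not_dvd]
      intro hdvd
      apply hx2
      have h2 : (x i' : ℤ) ≡ (x i : ℤ) [ZMOD p] := (Int.modEq_iff_dvd).2 hdvd
      have h3 : x i' ≡ x i [MOD p] := by exact_mod_cast h2
      exact h3.symm
  calc S.card ≤ k.factorial * (S.image φ).card := Finset.card_le_mul_card_image S _ hfib
    _ ≤ k.factorial * p ^ (k * (k - 1) / 2) :=
        Nat.mul_le_mul_left _ ((Finset.card_le_card himg).trans hcardV)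

end Pool.Agent.H97.VK

end

section

/-!
# VK Sft: from sums of `(n+β)^{it}` to the bilinear sums

Proof.  For `1 ≤ a', b' ≤ X`: `∑_{n ∈ Ioc a b} ee(t log(n+β)) = ∑_{n ∈ Ioc a b} ee(t log(n+β+a'b')) + O(2 a' b')` (shift of an interval: at most
`2 a' b' ≤ 2 X^2` terms change).  Sum over `a', b'` and divide by `X^2`.
Taylor: `log(n+β+z) = log(n+β) + ∑_{i=1}^k (-1)^{i-1} (z/(n+β))^i / i + R`, `|R| ≤ (z/(n+β))^{k+1}` for `0 ≤ z ≤ n+β`
(`z = a'b' ≤ X^2 ≤ N`; Mathlib: `Real.abs_log_sub_add_sum_range_le` for `x = -z/(n+β)`, which needs `|x| < 1`: use `X^2 < N`).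
`|ee u - ee v| ≤ 2 π |u - v|`.  So
`|∑_n ee(t log(n+β))| ≤ (1/X^2) ∑_n |bil k X (α_n)| + 2 X^2 + 2 π |t| (b-a) · 2 (X^2/N)^{k+1}`, `b - a ≤ N`
(the factor `2` covers the `1/(1-|x|)` of the Mathlib bound when `2 X^2 ≤ N`).
-/

set_option autoImplicit false

namespace Pool.Agent.H97.VK

open Finset
open Pool.Agent.H91.PK (ee)

/-- the Taylor coefficients of `t log (n + β)` -/
noncomputable def tay (k : ℕ) (t β : ℝ) (n : ℕ) (j : Fin k) : ℝ :=
  (-1) ^ (j : ℕ) * t / (((j : ℕ) + 1) * ((n : ℝ) + β) ^ ((j : ℕ) + 1))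

private theorem Sft_lip (u v : ℝ) : ‖ee u - ee v‖ ≤ 2 * Real.pi * |u - v| := by
  have h1 : ee u = ee v * ee (u - v) := by
    rw [← Pool.Agent.H91.PK.LSa_ee_add]
    congr 1
    ring
  have h2 : ee u - ee v = ee v * (ee (u - v) - 1) := by
    rw [h1]
    ring
  rw [h2, norm_mul, Pool.Agent.H91.PK.LSa_norm_ee, one_mul]
  have h3 : ee (u - v) = Complex.exp (Complex.I * ((2 * Real.pi * (u - v) : ℝ) : ℂ)) := by
    unfold ee
    congr 1
    push_cast
    ring
  rw [h3]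
  refine Real.norm_exp_I_mul_ofReal_sub_one_le.trans ?_
  rw [Real.norm_eq_abs, abs_mul, abs_of_nonneg (by positivity : (0 : ℝ) ≤ 2 * Real.pi)]

private theorem Sft_tel (F : ℕ → ℂ) (a b : ℕ) (h : a ≤ b) :
    ∑ n ∈ Ioc a b, (F (n + 1) - F n) = F (b + 1) - F (a + 1) := by
  induction b, h using Nat.le_induction with
  | base => simp
  | succ b hb ih =>
    rw [Finset.sum_Ioc_succ_top (by omega), ih]
    ring

private theorem Sft_shift (f : ℕ → ℂ) (hf : ∀ n, ‖f n‖ ≤ 1) (a b z : ℕ) :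
    ‖∑ n ∈ Ioc a b, f n - ∑ n ∈ Ioc a b, f (n + z)‖ ≤ 2 * z := by
  rcases le_total b a with h | h
  · rw [Ioc_eq_empty (by omega), sum_empty, sum_empty, sub_zero, norm_zero]
    positivity
  induction z with
  | zero => simp
  | succ z ih =>
    have h1 : ∑ n ∈ Ioc a b, f (n + (z + 1)) - ∑ n ∈ Ioc a b, f (n + z) =
        f (b + 1 + z) - f (a + 1 + z) := by
      rw [← sum_sub_distrib, ← Sft_tel (fun n => f (n + z)) a b h]
      refine sum_congr rfl fun n _ => ?_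
      rw [show n + (z + 1) = n + 1 + z by ring]
    have h2 : ∑ n ∈ Ioc a b, f n - ∑ n ∈ Ioc a b, f (n + (z + 1)) =
        (∑ n ∈ Ioc a b, f n - ∑ n ∈ Ioc a b, f (n + z)) -
          (∑ n ∈ Ioc a b, f (n + (z + 1)) - ∑ n ∈ Ioc a b, f (n + z)) := by ring
    rw [h2, h1]
    calc _ ≤ 2 * (z : ℝ) + (1 + 1) := by
          refine (norm_sub_le _ _).trans (add_le_add ih ?_)
          exact (norm_sub_le _ _).trans (add_le_add (hf _) (hf _))
      _ = 2 * ((z + 1 : ℕ) : ℝ) := by push_cast; ring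

private theorem Sft_log (k : ℕ) (y z q : ℝ) (hy : 0 < y) (hz : 0 ≤ z) (hq : z / y ≤ q)
    (hq2 : q ≤ 1 / 2) :
    |(∑ i ∈ range k, (-z / y) ^ (i + 1) / ((i : ℝ) + 1)) + (Real.log (y + z) - Real.log y)| ≤
      2 * q ^ (k + 1) := by
  have hx0 : 0 ≤ z / y := by positivity
  have habs : |(-z / y)| = z / y := by
    rw [neg_div, abs_neg, abs_of_nonneg hx0]
  have h1 := Real.abs_log_sub_add_sum_range_le (x := -z / y) (by rw [habs]; linarith) k
  have h2 : Real.log (1 - -z / y) = Real.log (y + z) - Real.log y := by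
    rw [← Real.log_div (by linarith) hy.ne']
    congr 1
    field_simp
    ring
  rw [h2, habs] at h1
  refine h1.trans ?_
  have h3 : (z / y) ^ (k + 1) ≤ q ^ (k + 1) := pow_le_pow_left₀ hx0 hq _
  have h4 : 0 ≤ q ^ (k + 1) := (pow_nonneg hx0 _).trans h3
  rw [div_le_iff₀ (by linarith)]
  nlinarith

private theorem Sft_pt (k X N n z : ℕ) (t β : ℝ) (hX : 1 ≤ X) (hXN : 2 * X ^ 2 ≤ N)
    (hn : N < n) (hz : z ≤ X ^ 2) (hβ : 0 ≤ β) :
    ‖ee (t * Real.log (((n + z : ℕ) : ℝ) + β)) -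
      ee (t * Real.log (n + β)) * ee (∑ j : Fin k, tay k t β n j * (z : ℝ) ^ ((j : ℕ) + 1))‖ ≤
      4 * Real.pi * |t| * ((X : ℝ) ^ 2 / N) ^ (k + 1) := by
  have hX2 : 1 ≤ X ^ 2 := Nat.one_le_pow _ _ hX
  have hN0 : (0 : ℝ) < (N : ℝ) := by exact_mod_cast (by omega : 0 < N)
  have hnN : (N : ℝ) ≤ (n : ℝ) := by exact_mod_cast hn.le
  have hy : 0 < (n : ℝ) + β := by linarith
  have hzX : (z : ℝ) ≤ (X : ℝ) ^ 2 := by exact_mod_cast hz
  have hz0 : (0 : ℝ) ≤ (z : ℝ) := Nat.cast_nonneg _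
  have hXN' : 2 * (X : ℝ) ^ 2 ≤ (N : ℝ) := by exact_mod_cast hXN
  rw [← Pool.Agent.H91.PK.LSa_ee_add]
  refine (Sft_lip _ _).trans ?_
  have h1 := Sft_log k ((n : ℝ) + β) z ((X : ℝ) ^ 2 / N) hy hz0
    (div_le_div₀ (by positivity) hzX hN0 (by linarith))
    (by rw [div_le_div_iff₀ hN0 (by norm_num)]; linarith)
  have h2 : ∑ j : Fin k, tay k t β n j * (z : ℝ) ^ ((j : ℕ) + 1) =
      -t * ∑ i ∈ range k, (-z / ((n : ℝ) + β)) ^ (i + 1) / ((i : ℝ) + 1) := by
    rw [mul_sum, ← Fin.sum_univ_eq_sum_range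
      (fun i => -t * ((-z / ((n : ℝ) + β)) ^ (i + 1) / ((i : ℝ) + 1)))]
    refine sum_congr rfl fun j _ => ?_
    unfold tay
    have h3 : (-(z : ℝ) / ((n : ℝ) + β)) ^ ((j : ℕ) + 1) =
        (-1) ^ ((j : ℕ) + 1) * (z : ℝ) ^ ((j : ℕ) + 1) / ((n : ℝ) + β) ^ ((j : ℕ) + 1) := by
      rw [div_pow, neg_pow]
    have h5 : ((n : ℝ) + β) ^ ((j : ℕ) + 1) ≠ 0 := (pow_pos hy _).ne'
    have h6 : ((j : ℕ) : ℝ) + 1 ≠ 0 := by positivity
    rw [h3, pow_succ (-1 : ℝ)]
    field_simp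
  have h4 : t * Real.log (((n + z : ℕ) : ℝ) + β) - (t * Real.log (n + β) +
      ∑ j : Fin k, tay k t β n j * (z : ℝ) ^ ((j : ℕ) + 1)) =
      t * ((∑ i ∈ range k, (-z / ((n : ℝ) + β)) ^ (i + 1) / ((i : ℝ) + 1)) +
        (Real.log (((n : ℝ) + β) + z) - Real.log ((n : ℝ) + β))) := by
    rw [h2]
    have h5 : ((n + z : ℕ) : ℝ) + β = ((n : ℝ) + β) + z := by push_cast; ring
    rw [h5]
    ring
  rw [h4, abs_mul]
  have hpi : 0 ≤ 2 * Real.pi := by positivity
  calc 2 * Real.pi * (|t| * |(∑ i ∈ range k, (-z / ((n : ℝ) + β)) ^ (i + 1) / ((i : ℝ) + 1)) +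
        (Real.log (((n : ℝ) + β) + z) - Real.log ((n : ℝ) + β))|)
      ≤ 2 * Real.pi * (|t| * (2 * ((X : ℝ) ^ 2 / N) ^ (k + 1))) := by
        apply mul_le_mul_of_nonneg_left _ hpi
        exact mul_le_mul_of_nonneg_left h1 (abs_nonneg _)
    _ = _ := by ring

theorem sft (k X N a b : ℕ) (t β : ℝ) (hX : 1 ≤ X) (hXN : 2 * X ^ 2 ≤ N) (ha : N ≤ a) (hb : b ≤ 2 * N)
    (hβ : 0 ≤ β) :
    ‖∑ n ∈ Ioc a b, ee (t * Real.log (n + β))‖ ≤
      (1 / (X : ℝ) ^ 2) * ∑ n ∈ Ioc a b, ‖bil k X (tay k t β n)‖ + 2 * (X : ℝ) ^ 2 +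
        4 * Real.pi * |t| * N * ((X : ℝ) ^ 2 / N) ^ (k + 1) := by
  set f : ℕ → ℂ := fun n => ee (t * Real.log (n + β)) with hf
  have hf1 : ∀ n, ‖f n‖ ≤ 1 := fun n => (Pool.Agent.H91.PK.LSa_norm_ee _).le
  set S := ∑ n ∈ Ioc a b, f n with hS
  set D := 4 * Real.pi * |t| * ((X : ℝ) ^ 2 / N) ^ (k + 1) with hD
  have hD0 : 0 ≤ D := by rw [hD]; positivity
  have hX0 : (0 : ℝ) < (X : ℝ) := by exact_mod_cast hX
  have hX2 : (0 : ℝ) < (X : ℝ) ^ 2 := by positivity
  have huv : ∀ u ∈ Icc 1 X, ∀ v ∈ Icc 1 X, u * v ≤ X ^ 2 := by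
    intro u hu v hv
    rw [mem_Icc] at hu hv
    calc u * v ≤ X * X := Nat.mul_le_mul hu.2 hv.2
      _ = X ^ 2 := by ring
  -- the shifted sums
  have h1 : ‖∑ u ∈ Icc 1 X, ∑ v ∈ Icc 1 X, (S - ∑ n ∈ Ioc a b, f (n + u * v))‖ ≤
      (X : ℝ) ^ 2 * (2 * (X : ℝ) ^ 2) := by
    calc _ ≤ ∑ u ∈ Icc 1 X, ∑ v ∈ Icc 1 X, (2 * (X : ℝ) ^ 2) := by
          refine (norm_sum_le _ _).trans (sum_le_sum fun u hu => ?_)
          refine (norm_sum_le _ _).trans (sum_le_sum fun v hv => ?_)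
          refine (Sft_shift f hf1 a b (u * v)).trans ?_
          have := huv u hu v hv
          have h2 : ((u * v : ℕ) : ℝ) ≤ (X : ℝ) ^ 2 := by exact_mod_cast this
          linarith
      _ = _ := by
          rw [sum_const, sum_const, Nat.card_Icc, nsmul_eq_mul, nsmul_eq_mul,
            Nat.add_sub_cancel]
          ring
  have h2 : ∑ u ∈ Icc 1 X, ∑ v ∈ Icc 1 X, ∑ n ∈ Ioc a b, f (n + u * v) =
      ∑ n ∈ Ioc a b, ∑ u ∈ Icc 1 X, ∑ v ∈ Icc 1 X, f (n + u * v) := by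
    rw [sum_comm' (s := Ioc a b) (t := fun _ => Icc 1 X) (t' := Icc 1 X)
      (s' := fun _ => Ioc a b) (by intro x y; tauto)]
    refine sum_congr rfl fun u _ => ?_
    rw [sum_comm]
  have h3 : ∀ n ∈ Ioc a b, ‖∑ u ∈ Icc 1 X, ∑ v ∈ Icc 1 X, f (n + u * v)‖ ≤
      ‖bil k X (tay k t β n)‖ + (X : ℝ) ^ 2 * D := by
    intro n hn
    rw [mem_Ioc] at hn
    have h4 : ∑ u ∈ Icc 1 X, ∑ v ∈ Icc 1 X, f (n + u * v) =
        f n * bil k X (tay k t β n) +
        ∑ u ∈ Icc 1 X, ∑ v ∈ Icc 1 X, (f (n + u * v) -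
          f n * ee (∑ j : Fin k, tay k t β n j * ((u : ℝ) * v) ^ ((j : ℕ) + 1))) := by
      unfold bil
      simp_rw [sum_sub_distrib, mul_sum]
      ring
    rw [h4]
    refine (norm_add_le _ _).trans (add_le_add ?_ ?_)
    · rw [norm_mul]
      calc ‖f n‖ * ‖bil k X (tay k t β n)‖ ≤ 1 * ‖bil k X (tay k t β n)‖ :=
            mul_le_mul_of_nonneg_right (hf1 n) (norm_nonneg _)
        _ = _ := one_mul _
    · calc _ ≤ ∑ u ∈ Icc 1 X, ∑ v ∈ Icc 1 X, D := by
            refine (norm_sum_le _ _).trans (sum_le_sum fun u hu => ?_)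
            refine (norm_sum_le _ _).trans (sum_le_sum fun v hv => ?_)
            have h5 := Sft_pt k X N n (u * v) t β hX hXN (by omega) (huv u hu v hv) hβ
            rw [Nat.cast_mul u v] at h5
            exact h5
        _ = _ := by
            rw [sum_const, sum_const, Nat.card_Icc, nsmul_eq_mul, nsmul_eq_mul,
              Nat.add_sub_cancel]
            ring
  have h4 : (X : ℂ) ^ 2 * S = ∑ u ∈ Icc 1 X, ∑ v ∈ Icc 1 X,
      (S - ∑ n ∈ Ioc a b, f (n + u * v)) +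
      ∑ n ∈ Ioc a b, ∑ u ∈ Icc 1 X, ∑ v ∈ Icc 1 X, f (n + u * v) := by
    rw [← h2]
    simp_rw [sum_sub_distrib]
    rw [sub_add_cancel, sum_const, sum_const, Nat.card_Icc, nsmul_eq_mul, nsmul_eq_mul,
      Nat.add_sub_cancel]
    ring
  have h5 : ‖∑ n ∈ Ioc a b, ∑ u ∈ Icc 1 X, ∑ v ∈ Icc 1 X, f (n + u * v)‖ ≤
      ∑ n ∈ Ioc a b, ‖bil k X (tay k t β n)‖ + N * ((X : ℝ) ^ 2 * D) := by
    refine (norm_sum_le _ _).trans ((sum_le_sum h3).trans ?_)
    rw [sum_add_distrib, sum_const, Nat.card_Ioc, nsmul_eq_mul]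
    have h6 : ((b - a : ℕ) : ℝ) ≤ (N : ℝ) := by exact_mod_cast (by omega : b - a ≤ N)
    have h7 : ((b - a : ℕ) : ℝ) * ((X : ℝ) ^ 2 * D) ≤ (N : ℝ) * ((X : ℝ) ^ 2 * D) :=
      mul_le_mul_of_nonneg_right h6 (by positivity)
    linarith
  have h6 : (X : ℝ) ^ 2 * ‖S‖ ≤ (X : ℝ) ^ 2 * (2 * (X : ℝ) ^ 2) +
      (∑ n ∈ Ioc a b, ‖bil k X (tay k t β n)‖ + N * ((X : ℝ) ^ 2 * D)) := by
    have h7 : ‖(X : ℂ) ^ 2 * S‖ = (X : ℝ) ^ 2 * ‖S‖ := by
      rw [norm_mul, norm_pow, Complex.norm_natCast]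
    rw [← h7, h4]
    exact (norm_add_le _ _).trans (add_le_add h1 h5)
  have h7 : ‖S‖ = (1 / (X : ℝ) ^ 2) * ((X : ℝ) ^ 2 * ‖S‖) := by
    field_simp
  rw [h7]
  calc (1 / (X : ℝ) ^ 2) * ((X : ℝ) ^ 2 * ‖S‖)
      ≤ (1 / (X : ℝ) ^ 2) * ((X : ℝ) ^ 2 * (2 * (X : ℝ) ^ 2) +
        (∑ n ∈ Ioc a b, ‖bil k X (tay k t β n)‖ + N * ((X : ℝ) ^ 2 * D))) :=
        mul_le_mul_of_nonneg_left h6 (by positivity)
    _ = _ := by
        rw [hD]
        field_simp
        ring

end Pool.Agent.H97.VK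

end

section

/-!
# VK GGB: bounds for `GG`

`gg_triv`: at most `(2W+1)^2` terms of size `≤ 1`.
`gg_bound`: the inner sum is `≤ min (2W+1, 1/(2‖α w‖))` (geometric series; `|1 - ee θ| ≥ 4‖θ‖`).  The map
`w ↦ (n, m, s)`, `n = round (α w)`, `m = ⌊|α w - n| / |α|⌋`, `s = (n ≤ α w)` is injective, so the sum is at most
`(2 |α| W + 2) * 2 * (2 W + 1 + ∑_{1 ≤ m ≤ 1/(2|α|)} 1/(2 m |α|))`.
-/

set_option autoImplicit false

namespace Pool.Agent.H97.VK

open Finset
open Pool.Agent.H91.PK (ee LSa_ee_add LSa_norm_ee)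

private theorem GGB_card (W : ℕ) : ((Icc (-(W : ℤ)) W).card : ℝ) = 2 * (W : ℝ) + 1 := by
  rw [Int.card_Icc]
  have h : ((W : ℤ) + 1 - -(W : ℤ)).toNat = 2 * W + 1 := by omega
  rw [h]
  push_cast
  ring

private theorem GGB_inner_triv (θ : ℝ) (W : ℕ) :
    ‖∑ v ∈ Icc (-(W : ℤ)) W, ee (θ * v)‖ ≤ 2 * (W : ℝ) + 1 := by
  refine (norm_sum_le _ _).trans ?_
  have h : ∑ v ∈ Icc (-(W : ℤ)) W, ‖ee (θ * v)‖ = ((Icc (-(W : ℤ)) W).card : ℝ) := by
    simp only [LSa_norm_ee, Finset.sum_const, nsmul_eq_mul, mul_one]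
  rw [h, GGB_card]

theorem gg_triv (α : ℝ) (W : ℕ) : GG α W ≤ (2 * (W : ℝ) + 1) ^ 2 := by
  unfold GG
  refine (Finset.sum_le_sum (fun (w : ℤ) _ => GGB_inner_triv (α * (w : ℝ)) W)).trans ?_
  rw [Finset.sum_const, nsmul_eq_mul, GGB_card, sq]

theorem gg_nonneg (α : ℝ) (W : ℕ) : 0 ≤ GG α W :=
  Finset.sum_nonneg fun _ _ => norm_nonneg _

private theorem GGB_ee_int (θ : ℝ) (n : ℤ) : ee (θ - n) = ee θ := by
  unfold ee
  rw [Complex.exp_eq_exp_iff_exists_int]
  refine ⟨-n, ?_⟩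
  push_cast
  ring

private theorem GGB_lower (x : ℝ) (h : |x| ≤ 1 / 2) : 4 * |x| ≤ ‖ee x - 1‖ := by
  have h1 : ee x = Complex.exp (Complex.I * ((2 * Real.pi * x : ℝ) : ℂ)) := by
    unfold ee
    congr 1
    push_cast
    ring
  rw [h1, Complex.norm_exp_I_mul_ofReal_sub_one, norm_mul, Real.norm_eq_abs, Real.norm_eq_abs]
  have h2 : 2 * Real.pi * x / 2 = Real.pi * x := by ring
  rw [h2]
  have h3 : |Real.pi * x| ≤ Real.pi / 2 := by
    rw [abs_mul, abs_of_pos Real.pi_pos]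
    nlinarith [Real.pi_pos]
  have h4 := Real.mul_abs_le_abs_sin h3
  rw [abs_mul, abs_of_pos Real.pi_pos] at h4
  have h5 : 2 / Real.pi * (Real.pi * |x|) = 2 * |x| := by
    field_simp
  rw [h5] at h4
  have h6 : |(2 : ℝ)| = 2 := abs_of_pos (by norm_num)
  rw [h6]
  linarith

private theorem GGB_shift (θ : ℝ) (W : ℕ) :
    ∑ v ∈ Icc (-(W : ℤ)) W, ee (θ * v) = ee (-(θ * W)) * ∑ i ∈ range (2 * W + 1), ee θ ^ i := by
  have hp : ∀ i : ℕ, ee (θ * i) = ee θ ^ i := by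
    intro i
    induction i with
    | zero =>
      simp [ee]
    | succ i ih =>
      rw [pow_succ, ← ih, ← LSa_ee_add]
      congr 1
      push_cast
      ring
  rw [Finset.mul_sum]
  symm
  refine Finset.sum_nbij' (fun i : ℕ => (i : ℤ) - W) (fun v : ℤ => (v + W).toNat) ?_ ?_ ?_ ?_ ?_
  · intro i hi
    rw [Finset.mem_range] at hi
    rw [Finset.mem_Icc]
    omega
  · intro v hv
    rw [Finset.mem_Icc] at hv
    rw [Finset.mem_range]
    omega
  · intro i hi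
    simp
  · intro v hv
    rw [Finset.mem_Icc] at hv
    omega
  · intro i hi
    rw [← hp, ← LSa_ee_add]
    congr 1
    push_cast
    ring

private theorem GGB_inner (θ : ℝ) (n : ℤ) (W : ℕ) (h : |θ - n| ≤ 1 / 2) :
    ‖∑ v ∈ Icc (-(W : ℤ)) W, ee (θ * v)‖ * (4 * |θ - n|) ≤ 2 := by
  have h1 : 4 * |θ - n| ≤ ‖ee θ - 1‖ := by
    have := GGB_lower (θ - n) h
    rwa [GGB_ee_int] at this
  refine (mul_le_mul_of_nonneg_left h1 (norm_nonneg _)).trans ?_
  rw [← norm_mul, GGB_shift, mul_assoc, geom_sum_mul, norm_mul, LSa_norm_ee, one_mul]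
  refine (norm_sub_le _ _).trans ?_
  rw [norm_pow, LSa_norm_ee, one_pow, norm_one]
  norm_num

/-- The bound of the term with `⌊|α w - round (α w)| / |α|⌋ = m`. -/
private noncomputable def GGB_b (a : ℝ) (W m : ℕ) : ℝ :=
  if m = 0 then 2 * (W : ℝ) + 1 else 1 / (2 * m * a)

private theorem GGB_term (α : ℝ) (hα : α ≠ 0) (W : ℕ) (w : ℤ) :
    ‖∑ v ∈ Icc (-(W : ℤ)) W, ee (α * w * v)‖ ≤
      GGB_b |α| W ⌊|α * w - round (α * w)| / |α|⌋₊ := by
  have ha : 0 < |α| := abs_pos.2 hα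
  set m := ⌊|α * w - round (α * w)| / |α|⌋₊ with hm
  unfold GGB_b
  split_ifs with h0
  · exact GGB_inner_triv _ W
  · have hm1 : 1 ≤ m := Nat.one_le_iff_ne_zero.2 h0
    have hm2 : (m : ℝ) ≤ |α * w - round (α * w)| / |α| :=
      Nat.floor_le (div_nonneg (abs_nonneg _) ha.le)
    have hm3 : (m : ℝ) * |α| ≤ |α * w - round (α * w)| := by
      rwa [le_div_iff₀ ha] at hm2
    have hmp : (0 : ℝ) < m := by exact_mod_cast hm1
    have h1 := GGB_inner (α * w) (round (α * w)) W (abs_sub_round _)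
    have h2 : ‖∑ v ∈ Icc (-(W : ℤ)) W, ee (α * w * v)‖ * (4 * (m * |α|)) ≤ 2 :=
      (mul_le_mul_of_nonneg_left (by linarith) (norm_nonneg _)).trans h1
    have h3 : (0 : ℝ) < 2 * m * |α| := by positivity
    rw [le_div_iff₀ h3]
    linarith

private theorem GGB_inj (α : ℝ) (hα : α ≠ 0) (w w' : ℤ)
    (hn : round (α * w) = round (α * w'))
    (hm : ⌊|α * w - round (α * w)| / |α|⌋₊ = ⌊|α * w' - round (α * w')| / |α|⌋₊)
    (hs : ((round (α * w) : ℤ) : ℝ) ≤ α * w ↔ ((round (α * w') : ℤ) : ℝ) ≤ α * w') : w = w' := by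
  have ha : 0 < |α| := abs_pos.2 hα
  set n := round (α * w) with hn'
  rw [← hn] at hm hs
  set x := α * w - n with hx
  set y := α * w' - n with hy
  set m := ⌊|x| / |α|⌋₊ with hmx
  have h1 : (m : ℝ) ≤ |x| / |α| := Nat.floor_le (div_nonneg (abs_nonneg _) ha.le)
  have h2 : |x| / |α| < m + 1 := Nat.lt_floor_add_one _
  have h3 : (m : ℝ) ≤ |y| / |α| := by
    rw [hm]
    exact Nat.floor_le (div_nonneg (abs_nonneg _) ha.le)
  have h4 : |y| / |α| < m + 1 := by
    rw [hm]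
    exact Nat.lt_floor_add_one _
  rw [le_div_iff₀ ha] at h1 h3
  rw [div_lt_iff₀ ha] at h2 h4
  have h5 : |x - y| < |α| := by
    by_cases hc : (n : ℝ) ≤ α * w
    · have hc' := hs.1 hc
      have e1 : |x| = x := abs_of_nonneg (by linarith)
      have e2 : |y| = y := abs_of_nonneg (by linarith)
      rw [e1] at h1 h2
      rw [e2] at h3 h4
      rw [abs_lt]
      constructor <;> linarith
    · have hc' : ¬ (n : ℝ) ≤ α * w' := fun h => hc (hs.2 h)
      push Not at hc hc'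
      have e1 : |x| = -x := abs_of_nonpos (by linarith)
      have e2 : |y| = -y := abs_of_nonpos (by linarith)
      rw [e1] at h1 h2
      rw [e2] at h3 h4
      rw [abs_lt]
      constructor <;> linarith
  have h6 : x - y = α * ((w - w' : ℤ) : ℝ) := by
    rw [hx, hy]
    push_cast
    ring
  rw [h6, abs_mul] at h5
  have h7 : |((w - w' : ℤ) : ℝ)| < 1 := by
    by_contra hc
    push Not at hc
    have := mul_le_mul_of_nonneg_left hc ha.le
    linarith
  have h8 : |w - w'| < 1 := by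
    have : ((|w - w'| : ℤ) : ℝ) < 1 := by
      rw [Int.cast_abs]
      exact h7
    exact_mod_cast this
  rw [Int.abs_lt_one_iff] at h8
  omega

private theorem GGB_main (α : ℝ) (hα : α ≠ 0) (W : ℕ) :
    GG α W ≤ (2 * |α| * W + 2) * (2 * ∑ m ∈ range (⌊1 / (2 * |α|)⌋₊ + 1), GGB_b |α| W m) := by
  classical
  have ha : 0 < |α| := abs_pos.2 hα
  set J := ⌊1 / (2 * |α|)⌋₊ with hJ
  set B := ⌊|α| * W + 1 / 2⌋₊ with hB
  have hb0 : ∀ m, 0 ≤ GGB_b |α| W m := by
    intro m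
    unfold GGB_b
    split_ifs
    · positivity
    · positivity
  let key : ℤ → ℤ × ℕ × Bool := fun w =>
    (round (α * w), ⌊|α * w - round (α * w)| / |α|⌋₊,
      decide (((round (α * w) : ℤ) : ℝ) ≤ α * w))
  have hinj : Set.InjOn key (Icc (-(W : ℤ)) W : Finset ℤ) := by
    intro w _ w' _ h
    simp only [key, Prod.mk.injEq, decide_eq_decide] at h
    exact GGB_inj α hα w w' h.1 h.2.1 h.2.2
  have hmaps : ∀ w ∈ Icc (-(W : ℤ)) W, key w ∈ (Icc (-(B : ℤ)) B) ×ˢ (range (J + 1) ×ˢ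
      (Finset.univ : Finset Bool)) := by
    intro w hw
    rw [Finset.mem_Icc] at hw
    have hw' : |(w : ℝ)| ≤ W := by
      rw [abs_le]
      constructor
      · have := hw.1
        exact_mod_cast this
      · have := hw.2
        exact_mod_cast this
    have hr := abs_sub_round (α * w)
    rw [Finset.mem_product, Finset.mem_product]
    refine ⟨?_, ?_, Finset.mem_univ _⟩
    · have h1 : |((round (α * w) : ℤ) : ℝ)| ≤ |α| * W + 1 / 2 := by
        have h2 : ((round (α * w) : ℤ) : ℝ) = α * w - (α * w - round (α * w)) := by ring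
        rw [h2]
        refine (abs_sub _ _).trans ?_
        rw [abs_mul]
        have := mul_le_mul_of_nonneg_left hw' ha.le
        linarith
      have h3 : (round (α * w)).natAbs ≤ B := by
        rw [hB]
        refine Nat.le_floor ?_
        rw [Nat.cast_natAbs]
        push_cast
        exact h1
      rw [Finset.mem_Icc]
      show -(B : ℤ) ≤ round (α * w) ∧ round (α * w) ≤ B
      omega
    · rw [Finset.mem_range]
      show ⌊|α * w - round (α * w)| / |α|⌋₊ < J + 1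
      refine Nat.lt_succ_of_le (Nat.floor_le_floor ?_)
      rw [div_le_div_iff₀ ha (by positivity)]
      nlinarith
  have hstep : GG α W ≤ ∑ z ∈ (Icc (-(B : ℤ)) B) ×ˢ (range (J + 1) ×ˢ
      (Finset.univ : Finset Bool)), GGB_b |α| W z.2.1 := by
    unfold GG
    calc ∑ w ∈ Icc (-(W : ℤ)) W, ‖∑ v ∈ Icc (-(W : ℤ)) W, ee (α * w * v)‖
        ≤ ∑ w ∈ Icc (-(W : ℤ)) W, GGB_b |α| W (key w).2.1 :=
          Finset.sum_le_sum fun w _ => GGB_term α hα W w
      _ = ∑ z ∈ (Icc (-(W : ℤ)) W).image key, GGB_b |α| W z.2.1 :=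
          (Finset.sum_image (f := fun z : ℤ × ℕ × Bool => GGB_b |α| W z.2.1) hinj).symm
      _ ≤ _ := by
          refine Finset.sum_le_sum_of_subset_of_nonneg ?_ (fun z _ _ => hb0 _)
          intro z hz
          obtain ⟨w, hw, rfl⟩ := Finset.mem_image.1 hz
          exact hmaps w hw
  refine hstep.trans ?_
  rw [Finset.sum_product]
  simp only [Finset.sum_product, Finset.sum_const, nsmul_eq_mul, Finset.card_univ,
    Fintype.card_bool, GGB_card, ← Finset.mul_sum]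
  have hBle : (B : ℝ) ≤ |α| * W + 1 / 2 := Nat.floor_le (by positivity)
  have hsum : 0 ≤ ∑ m ∈ range (J + 1), GGB_b |α| W m := Finset.sum_nonneg fun m _ => hb0 m
  push_cast
  refine mul_le_mul_of_nonneg_right ?_ (by positivity)
  linarith

theorem gg_bound : ∃ C : ℝ, 1 ≤ C ∧ ∀ (α Δ : ℝ) (W : ℕ), 1 ≤ W → 0 < Δ → Δ ≤ 1 / 2 → |α| ≤ Δ →
    1 ≤ Δ * W → 1 ≤ Δ * (W : ℝ) ^ 2 * |α| → GG α W ≤ C * Δ * (W : ℝ) ^ 2 * (1 + Real.log W) := by
  refine ⟨28, by norm_num, ?_⟩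
  intro α Δ W hW hΔ hΔ2 haΔ h1 h2
  have hα : α ≠ 0 := by
    rintro rfl
    rw [abs_zero, mul_zero] at h2
    linarith
  have ha : 0 < |α| := abs_pos.2 hα
  have hW1 : (1 : ℝ) ≤ W := by exact_mod_cast hW
  have hL : 0 ≤ Real.log W := Real.log_nonneg hW1
  refine (GGB_main α hα W).trans ?_
  set a := |α| with haa
  set J := ⌊1 / (2 * a)⌋₊ with hJ
  set L := Real.log W with hLL
  have hinv : 1 / a ≤ Δ * (W : ℝ) ^ 2 := by
    rw [div_le_iff₀ ha]
    exact h2
  have hJle : (J : ℝ) ≤ 1 / (2 * a) := Nat.floor_le (by positivity)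
  have hJW : (J : ℝ) ≤ (W : ℝ) ^ 2 := by
    have e1 : 1 / (2 * a) = 1 / a / 2 := by ring
    have e2 : 0 < 1 / a := by positivity
    have e3 : Δ * (W : ℝ) ^ 2 ≤ 1 / 2 * (W : ℝ) ^ 2 :=
      mul_le_mul_of_nonneg_right hΔ2 (by positivity)
    have e4 : 0 ≤ (W : ℝ) ^ 2 := by positivity
    rw [e1] at hJle
    linarith
  have hlogJ : Real.log J ≤ 2 * L := by
    rcases Nat.eq_zero_or_pos J with h0 | h0
    · rw [h0, Nat.cast_zero, Real.log_zero]
      linarith
    · have e1 : (0 : ℝ) < J := by exact_mod_cast h0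
      have e2 := Real.log_le_log e1 hJW
      rw [Real.log_pow] at e2
      exact_mod_cast e2
  have hsum : ∑ m ∈ range (J + 1), GGB_b a W m ≤
      (2 * (W : ℝ) + 1) + 1 / a * (1 / 2 * (1 + 2 * L)) := by
    rw [Finset.sum_range_succ']
    have e0 : GGB_b a W 0 = 2 * (W : ℝ) + 1 := by
      unfold GGB_b
      rw [if_pos rfl]
    have e1 : ∑ m ∈ range J, GGB_b a W (m + 1) = 1 / a * (1 / 2 * (harmonic J : ℝ)) := by
      rw [harmonic]
      push_cast
      rw [Finset.mul_sum, Finset.mul_sum]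
      refine Finset.sum_congr rfl fun m _ => ?_
      unfold GGB_b
      rw [if_neg (Nat.succ_ne_zero m)]
      push_cast
      field_simp
    rw [e0, e1]
    have e2 : (harmonic J : ℝ) ≤ 1 + Real.log J := harmonic_le_one_add_log J
    have e3 : (0 : ℝ) ≤ 1 / a := by positivity
    have e4 : 1 / 2 * (harmonic J : ℝ) ≤ 1 / 2 * (1 + 2 * L) := by linarith
    have e5 := mul_le_mul_of_nonneg_left e4 e3
    linarith
  have hfac : (0 : ℝ) ≤ 2 * a * W + 2 := by positivity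
  refine (mul_le_mul_of_nonneg_left (mul_le_mul_of_nonneg_left hsum (by norm_num)) hfac).trans ?_
  have hexp : (2 * a * W + 2) * (2 * ((2 * (W : ℝ) + 1) + 1 / a * (1 / 2 * (1 + 2 * L)))) =
      4 * a * W * (2 * W + 1) + 2 * W * (1 + 2 * L) + 4 * (2 * W + 1) +
        2 * (1 / a) * (1 + 2 * L) := by
    field_simp
    ring
  rw [hexp]
  set D := Δ * (W : ℝ) ^ 2 with hD
  have hWD : (W : ℝ) ≤ D := by
    have e1 := mul_le_mul_of_nonneg_right h1 (by positivity : (0 : ℝ) ≤ W)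
    rw [hD]
    calc (W : ℝ) = 1 * W := (one_mul _).symm
      _ ≤ Δ * W * W := e1
      _ = Δ * (W : ℝ) ^ 2 := by ring
  have t1 : 4 * a * W * (2 * W + 1) ≤ 12 * D := by
    have e1 : 4 * a * W * (2 * W + 1) ≤ 4 * a * W * (3 * W) :=
      mul_le_mul_of_nonneg_left (by linarith) (by positivity)
    have e2 : 4 * a * W * (3 * W) = 12 * (a * (W : ℝ) ^ 2) := by ring
    have e3 : a * (W : ℝ) ^ 2 ≤ D := mul_le_mul_of_nonneg_right haΔ (by positivity)
    linarith
  have hL2 : (0 : ℝ) ≤ 1 + 2 * L := by linarith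
  have t2 : 2 * W * (1 + 2 * L) ≤ 2 * D * (1 + 2 * L) :=
    mul_le_mul_of_nonneg_right (by linarith) hL2
  have t3 : 4 * (2 * (W : ℝ) + 1) ≤ 12 * D := by linarith
  have t4 : 2 * (1 / a) * (1 + 2 * L) ≤ 2 * D * (1 + 2 * L) :=
    mul_le_mul_of_nonneg_right (by linarith) hL2
  have hD0 : 0 ≤ D := by linarith
  have t5 : 28 * Δ * (W : ℝ) ^ 2 * (1 + L) = 28 * D + 28 * (D * L) := by
    rw [hD]
    ring
  have t6 : 2 * D * (1 + 2 * L) = 2 * D + 4 * (D * L) := by ring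
  have t7 : 0 ≤ D * L := mul_nonneg hD0 hL
  rw [t5]
  rw [t6] at t2 t4
  linarith

end Pool.Agent.H97.VK

end

section

/-!
# VK Bil: the bilinear sum and the mean value

Write `U = ‖bil k X α‖`, `ψ(v) = ∑_j α_j v_j`.
(1) `U ≤ ∑_a |∑_b ee(∑_j α_j a^j b^j)|`, so `U^{2s} ≤ X^{2s-1} ∑_a |∑_b ..|^{2s}
 = X^{2s-1} ∑_a ∑_{y,y' ∈ [1,X]^s} ee(∑_j α_j a^j (pv(y)_j - pv(y')_j)) ≤ X^{2s-1} ∑_v R(v) |T(v)|`, where
 `R(v) = #{(y,y') : pv(y) - pv(y') = v}`, `T(v) = ∑_{a ≤ X} ee(∑_j α_j v_j a^j)`; `v` runs over `V = {|v_j| ≤ s X^j}` (finite).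
(2) Hölder (exponents `s/(s-1), 2s, 2s`; or Cauchy-Schwarz-type steps):
 `(∑ R|T|)^{2s} ≤ (∑ R)^{2s-2} (∑ R^2) (∑_{v ∈ V} |T(v)|^{2s})`.  (E.g. `(∑ R |T|)^s ≤ (∑ R)^{s-1} ∑ R |T|^s` and
 `(∑ R|T|^s)^2 ≤ ∑ R^2 ∑ |T|^{2s}`.)
(3) `∑ R = X^{2s}`; `∑ R^2 ≤ JV k (2s) X` (equality after renaming: `pv(y) - pv(y') = pv(z) - pv(z')`).
(4) `∑_{v ∈ V} |T(v)|^{2s} = ∑_w R(w) ∑_{v ∈ V} ee(∑_j α_j v_j w_j) ≤ JV k s X ∏_j GG (α_j) (s X^j)`: `R(w) ≤ R(0) = JV k s X` (`shift_le`),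
 `w` runs over `V`, and the sum over `v ∈ V` is the product over `j` of `∑_{|v| ≤ s X^j} ee(α_j w_j v)`.
Exponents: `2s(2s-1) + 2s(2s-2) = 8s^2 - 6s`.  Here `j` = `(j : Fin k) + 1`.
-/

set_option autoImplicit false

namespace Pool.Agent.H97.VK

open Finset
open Pool.Agent.H91.PK (ee)

private theorem Bil_ee_zero : ee 0 = 1 := by
  simp [ee]

private theorem Bil_ee_sum {ι : Type} (S : Finset ι) (f : ι → ℝ) :
    ee (∑ i ∈ S, f i) = ∏ i ∈ S, ee (f i) := by
  classical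
  induction S using Finset.induction_on with
  | empty => simp [Bil_ee_zero]
  | insert a S ha ih => rw [Finset.sum_insert ha, Finset.prod_insert ha,
      Pool.Agent.H91.PK.LSa_ee_add, ih]

/-- the one variable exponential sum with coefficients `c` -/
private noncomputable def BilE {k : ℕ} (X : ℕ) (c : Fin k → ℝ) : ℂ :=
  ∑ n ∈ Icc 1 X, ee (∑ j : Fin k, c j * (n : ℝ) ^ ((j : ℕ) + 1))

private noncomputable def BilD {k s : ℕ} (w : (Fin s → ℕ) × (Fin s → ℕ)) (j : Fin k) : ℤ :=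
  pv k w.1 j - pv k w.2 j

private theorem Bil_pow (k s X : ℕ) (c : Fin k → ℝ) :
    (BilE X c) ^ s = ∑ y ∈ box s X, ee (∑ j : Fin k, c j * (pv k y j : ℝ)) := by
  have h1 : (BilE X c) ^ s = ∏ _i : Fin s, BilE X c := by
    rw [Finset.prod_const, Finset.card_univ, Fintype.card_fin]
  rw [h1]
  unfold BilE
  rw [Finset.prod_univ_sum]
  unfold box
  refine Finset.sum_congr rfl fun y _ => ?_
  rw [← Bil_ee_sum]
  congr 1
  rw [Finset.sum_comm]
  refine Finset.sum_congr rfl fun j _ => ?_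
  rw [← Finset.mul_sum]
  congr 1
  unfold pv
  push_cast
  rfl

private theorem Bil_norm_pow (k s X : ℕ) (c : Fin k → ℝ) :
    ((‖BilE X c‖ ^ (2 * s) : ℝ) : ℂ) =
      ∑ w ∈ box s X ×ˢ box s X, ee (∑ j : Fin k, c j * (BilD w j : ℝ)) := by
  have h1 : ((‖BilE X c‖ ^ (2 * s) : ℝ) : ℂ) = (BilE X c) ^ s * (starRingEnd ℂ) ((BilE X c) ^ s) := by
    rw [map_pow, ← mul_pow, Complex.mul_conj, Complex.normSq_eq_norm_sq, pow_mul]
    push_cast
    rfl
  rw [h1, Bil_pow, map_sum, Finset.sum_mul_sum, Finset.sum_product]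
  refine Finset.sum_congr rfl fun y _ => Finset.sum_congr rfl fun y' _ => ?_
  rw [Pool.Agent.H91.PK.LSa_conj_ee, ← Pool.Agent.H91.PK.LSa_ee_add]
  congr 1
  rw [← sub_eq_add_neg, ← Finset.sum_sub_distrib]
  refine Finset.sum_congr rfl fun j _ => ?_
  unfold BilD
  push_cast
  ring

private noncomputable def BilV (k s X : ℕ) : Finset (Fin k → ℤ) :=
  Fintype.piFinset (fun j : Fin k => Icc (-((s * X ^ ((j : ℕ) + 1) : ℕ) : ℤ)) ((s * X ^ ((j : ℕ) + 1) : ℕ) : ℤ))

private theorem Bil_pv_le {k s X : ℕ} {y : Fin s → ℕ} (hy : y ∈ box s X) (j : Fin k) :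
    0 ≤ pv k y j ∧ pv k y j ≤ ((s * X ^ ((j : ℕ) + 1) : ℕ) : ℤ) := by
  unfold box at hy
  rw [Fintype.mem_piFinset] at hy
  unfold pv
  refine ⟨Finset.sum_nonneg fun i _ => by positivity, ?_⟩
  calc ∑ i, (y i : ℤ) ^ ((j : ℕ) + 1) ≤ ∑ _i : Fin s, (X : ℤ) ^ ((j : ℕ) + 1) := by
        refine Finset.sum_le_sum fun i _ => ?_
        have := (Finset.mem_Icc.mp (hy i)).2
        exact pow_le_pow_left₀ (by positivity) (by exact_mod_cast this) _
    _ = ((s * X ^ ((j : ℕ) + 1) : ℕ) : ℤ) := by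
        rw [Finset.sum_const, Finset.card_univ, Fintype.card_fin]
        push_cast
        simp

private theorem Bil_mem {k s X : ℕ} {w : (Fin s → ℕ) × (Fin s → ℕ)} (hw : w ∈ box s X ×ˢ box s X) :
    (BilD w : Fin k → ℤ) ∈ BilV k s X := by
  rw [Finset.mem_product] at hw
  unfold BilV
  rw [Fintype.mem_piFinset]
  intro j
  rw [Finset.mem_Icc]
  have h1 := Bil_pv_le hw.1 j
  have h2 := Bil_pv_le hw.2 j
  unfold BilD
  constructor <;> linarith [h1.1, h1.2, h2.1, h2.2]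

private noncomputable def BilR (k s X : ℕ) (v : Fin k → ℤ) : ℕ :=
  ((box s X ×ˢ box s X).filter (fun w => BilD w = v)).card

private theorem Bil_fiber (k s X : ℕ) (f : (Fin k → ℤ) → ℝ) :
    ∑ w ∈ box s X ×ˢ box s X, f (BilD w) = ∑ v ∈ BilV k s X, (BilR k s X v : ℝ) * f v := by
  rw [← Finset.sum_fiberwise_of_maps_to' (fun w hw => Bil_mem (k := k) hw) f]
  refine Finset.sum_congr rfl fun v _ => ?_
  rw [Finset.sum_const, nsmul_eq_mul]
  rfl

private theorem Bil_R_le (k s X : ℕ) (v : Fin k → ℤ) : BilR k s X v ≤ JV k s X := by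
  have h := shift_le (box s X) (pv k) v
  unfold BilR JV
  calc ((box s X ×ˢ box s X).filter (fun w => BilD w = v)).card
      = ((box s X ×ˢ box s X).filter (fun w => ∀ j, pv k w.1 j = pv k w.2 j + v j)).card := by
        congr 1
        refine Finset.filter_congr fun w _ => ?_
        rw [funext_iff]
        refine forall_congr' fun j => ?_
        unfold BilD
        constructor <;> intro h <;> linarith
    _ ≤ ((box s X ×ˢ box s X).filter (fun w => ∀ j, pv k w.1 j = pv k w.2 j)).card := h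
    _ = ((box s X ×ˢ box s X).filter (fun w => pv k w.1 = pv k w.2)).card := by
        congr 1
        refine Finset.filter_congr fun w _ => ?_
        rw [funext_iff]

private theorem Bil_pv_append (k s : ℕ) (a b : Fin s → ℕ) (j : Fin k) :
    pv k (Fin.append a b) j = pv k a j + pv k b j := by
  unfold pv
  rw [Fin.sum_univ_add]
  simp only [Fin.append_left, Fin.append_right]

private theorem Bil_append_mem {s X : ℕ} {a b : Fin s → ℕ} (ha : a ∈ box s X) (hb : b ∈ box s X) :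
    Fin.append a b ∈ box (s + s) X := by
  unfold box at *
  rw [Fintype.mem_piFinset] at *
  intro i
  refine Fin.addCases (fun i => ?_) (fun i => ?_) i
  · rw [Fin.append_left]; exact ha i
  · rw [Fin.append_right]; exact hb i

private theorem Bil_append_inj {s : ℕ} {a b a' b' : Fin s → ℕ}
    (h : Fin.append a b = Fin.append a' b') : a = a' ∧ b = b' := by
  constructor
  · funext i
    have := congrFun h (Fin.castAdd s i)
    rwa [Fin.append_left, Fin.append_left] at this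
  · funext i
    have := congrFun h (Fin.natAdd s i)
    rwa [Fin.append_right, Fin.append_right] at this

private theorem Bil_sumR_sq (k s X : ℕ) :
    ∑ v ∈ BilV k s X, (BilR k s X v : ℝ) ^ 2 ≤ (JV k (2 * s) X : ℝ) := by
  have h1 : ∑ v ∈ BilV k s X, (BilR k s X v : ℝ) ^ 2 =
      ∑ w ∈ box s X ×ˢ box s X, (BilR k s X (BilD w) : ℝ) := by
    refine Eq.trans ?_ (Bil_fiber k s X (fun v => (BilR k s X v : ℝ))).symm
    exact Finset.sum_congr rfl fun v _ => pow_two _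
  have h2' : ∑ w ∈ box s X ×ˢ box s X, BilR k s X (BilD w) =
      (((box s X ×ˢ box s X) ×ˢ (box s X ×ˢ box s X)).filter
        (fun z => (BilD z.2 : Fin k → ℤ) = BilD z.1)).card := by
    rw [Finset.card_filter]
    refine Eq.symm ((Finset.sum_product (box s X ×ˢ box s X) (box s X ×ˢ box s X) _).trans ?_)
    refine Finset.sum_congr rfl fun w _ => ?_
    unfold BilR
    rw [Finset.card_filter]
  have h2 : ∑ w ∈ box s X ×ˢ box s X, (BilR k s X (BilD w) : ℝ) =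
      ((((box s X ×ˢ box s X) ×ˢ (box s X ×ˢ box s X)).filter
        (fun z => (BilD z.2 : Fin k → ℤ) = BilD z.1)).card : ℝ) := by
    rw [← h2', Nat.cast_sum]
  rw [h1, h2]
  have h3 : JV k (2 * s) X = JV k (s + s) X := by rw [two_mul]
  rw [h3]
  unfold JV
  rw [Nat.cast_le]
  refine Finset.card_le_card_of_injOn
    (fun z => (Fin.append z.1.1 z.2.2, Fin.append z.1.2 z.2.1)) ?_ ?_
  · intro z hz
    rw [Finset.mem_coe, Finset.mem_filter, Finset.mem_product, Finset.mem_product,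
      Finset.mem_product] at hz
    obtain ⟨⟨⟨h11, h12⟩, ⟨h21, h22⟩⟩, he⟩ := hz
    rw [Finset.mem_coe, Finset.mem_filter, Finset.mem_product]
    refine ⟨⟨Bil_append_mem h11 h22, Bil_append_mem h12 h21⟩, ?_⟩
    funext j
    simp only
    rw [Bil_pv_append, Bil_pv_append]
    have := congrFun he j
    unfold BilD at this
    linarith
  · intro z _ z' _ h
    simp only [Prod.mk.injEq] at h
    have h1 := Bil_append_inj h.1
    have h2 := Bil_append_inj h.2
    ext1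
    · ext1
      · exact h1.1
      · exact h2.1
    · ext1
      · exact h2.2
      · exact h1.2

private theorem Bil_prod_norm (k s X : ℕ) (α : Fin k → ℝ) (u : Fin k → ℤ) :
    ‖∑ v ∈ BilV k s X, ee (∑ j : Fin k, α j * (v j : ℝ) * (u j : ℝ))‖ =
      ∏ j : Fin k, ‖∑ v ∈ Icc (-((s * X ^ ((j : ℕ) + 1) : ℕ) : ℤ)) ((s * X ^ ((j : ℕ) + 1) : ℕ) : ℤ),
        ee (α j * (u j : ℝ) * (v : ℝ))‖ := by
  rw [← norm_prod, Finset.prod_univ_sum]
  unfold BilV
  congr 1
  refine Finset.sum_congr rfl fun v _ => ?_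
  rw [Bil_ee_sum]
  refine Finset.prod_congr rfl fun j _ => ?_
  congr 1
  ring

private theorem Bil_sumT (k s X : ℕ) (α : Fin k → ℝ) :
    ∑ v ∈ BilV k s X, ‖BilE X (fun j => α j * (v j : ℝ))‖ ^ (2 * s) ≤
      (JV k s X : ℝ) * ∏ j : Fin k, GG (α j) (s * X ^ ((j : ℕ) + 1)) := by
  have h1 : ((∑ v ∈ BilV k s X, ‖BilE X (fun j => α j * (v j : ℝ))‖ ^ (2 * s) : ℝ) : ℂ) =
      ∑ w ∈ box s X ×ˢ box s X, ∑ v ∈ BilV k s X,
        ee (∑ j : Fin k, α j * (v j : ℝ) * (BilD w j : ℝ)) := by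
    rw [Complex.ofReal_sum, Finset.sum_comm]
    refine Finset.sum_congr rfl fun v _ => ?_
    exact Bil_norm_pow k s X (fun j => α j * (v j : ℝ))
  have h0 : 0 ≤ ∑ v ∈ BilV k s X, ‖BilE X (fun j => α j * (v j : ℝ))‖ ^ (2 * s) :=
    Finset.sum_nonneg fun v _ => by positivity
  have h2 : ∑ v ∈ BilV k s X, ‖BilE X (fun j => α j * (v j : ℝ))‖ ^ (2 * s) =
      ‖((∑ v ∈ BilV k s X, ‖BilE X (fun j => α j * (v j : ℝ))‖ ^ (2 * s) : ℝ) : ℂ)‖ := by
    rw [Complex.norm_real, Real.norm_of_nonneg h0]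
  rw [h2, h1]
  calc ‖∑ w ∈ box s X ×ˢ box s X, ∑ v ∈ BilV k s X,
        ee (∑ j : Fin k, α j * (v j : ℝ) * (BilD w j : ℝ))‖
      ≤ ∑ w ∈ box s X ×ˢ box s X, ‖∑ v ∈ BilV k s X,
        ee (∑ j : Fin k, α j * (v j : ℝ) * (BilD w j : ℝ))‖ := norm_sum_le _ _
    _ = ∑ u ∈ BilV k s X, (BilR k s X u : ℝ) * ‖∑ v ∈ BilV k s X,
        ee (∑ j : Fin k, α j * (v j : ℝ) * (u j : ℝ))‖ :=
        Bil_fiber k s X (fun u => ‖∑ v ∈ BilV k s X,
          ee (∑ j : Fin k, α j * (v j : ℝ) * (u j : ℝ))‖)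
    _ ≤ ∑ u ∈ BilV k s X, (JV k s X : ℝ) * ‖∑ v ∈ BilV k s X,
        ee (∑ j : Fin k, α j * (v j : ℝ) * (u j : ℝ))‖ := by
        refine Finset.sum_le_sum fun u _ => ?_
        refine mul_le_mul_of_nonneg_right ?_ (norm_nonneg _)
        exact_mod_cast Bil_R_le k s X u
    _ = (JV k s X : ℝ) * ∏ j : Fin k, GG (α j) (s * X ^ ((j : ℕ) + 1)) := by
        rw [← Finset.mul_sum]
        congr 1
        unfold GG
        rw [Finset.prod_univ_sum]
        refine Finset.sum_congr rfl fun u _ => ?_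
        exact Bil_prod_norm k s X α u

private theorem Bil_box_card (s X : ℕ) : (box s X ×ˢ box s X).card = X ^ (2 * s) := by
  rw [Finset.card_product]
  unfold box
  rw [Fintype.card_piFinset]
  simp only [Nat.card_Icc, Finset.prod_const, Finset.card_univ, Fintype.card_fin,
    Nat.add_sub_cancel]
  rw [two_mul, pow_add]

/-- the sum of the norms of `T(v)` over the pairs -/
private noncomputable def BilA (k s X : ℕ) (α : Fin k → ℝ) : ℝ :=
  ∑ w ∈ box s X ×ˢ box s X, ‖BilE X (fun j : Fin k => α j * (BilD w j : ℝ))‖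

private theorem Bil_step1 (k s X : ℕ) (hs : 1 ≤ s) (α : Fin k → ℝ) :
    ‖bil k X α‖ ^ (2 * s) ≤ (X : ℝ) ^ (2 * s - 1) * BilA k s X α := by
  have hE : ∀ a : ℕ, (∑ b ∈ Icc 1 X, ee (∑ j : Fin k, α j * ((a : ℝ) * b) ^ ((j : ℕ) + 1))) =
      BilE X (fun j : Fin k => α j * (a : ℝ) ^ ((j : ℕ) + 1)) := by
    intro a
    unfold BilE
    refine Finset.sum_congr rfl fun b _ => ?_
    congr 1
    refine Finset.sum_congr rfl fun j _ => ?_
    rw [mul_pow]
    ring
  have h1 : ‖bil k X α‖ ≤ ∑ a ∈ Icc 1 X, ‖BilE X (fun j : Fin k => α j * (a : ℝ) ^ ((j : ℕ) + 1))‖ := by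
    unfold bil
    refine (norm_sum_le _ _).trans (le_of_eq ?_)
    refine Finset.sum_congr rfl fun a _ => ?_
    rw [hE a]
  have h2 : (∑ a ∈ Icc 1 X, ‖BilE X (fun j : Fin k => α j * (a : ℝ) ^ ((j : ℕ) + 1))‖) ^ (2 * s) ≤
      (X : ℝ) ^ (2 * s - 1) *
        ∑ a ∈ Icc 1 X, ‖BilE X (fun j : Fin k => α j * (a : ℝ) ^ ((j : ℕ) + 1))‖ ^ (2 * s) := by
    obtain ⟨n, hn⟩ : ∃ n, 2 * s = n + 1 := ⟨2 * s - 1, by omega⟩
    rw [hn, Nat.add_sub_cancel]
    have := pow_sum_le_card_mul_sum_pow (s := Icc 1 X)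
      (f := fun a : ℕ => ‖BilE X (fun j : Fin k => α j * (a : ℝ) ^ ((j : ℕ) + 1))‖)
      (fun a _ => norm_nonneg _) n
    rw [Nat.card_Icc, Nat.add_sub_cancel] at this
    exact this
  have h3 : ∑ a ∈ Icc 1 X, ‖BilE X (fun j : Fin k => α j * (a : ℝ) ^ ((j : ℕ) + 1))‖ ^ (2 * s) ≤
      BilA k s X α := by
    have e : ((∑ a ∈ Icc 1 X, ‖BilE X (fun j : Fin k => α j * (a : ℝ) ^ ((j : ℕ) + 1))‖ ^ (2 * s) : ℝ) : ℂ)
        = ∑ w ∈ box s X ×ˢ box s X, BilE X (fun j : Fin k => α j * (BilD w j : ℝ)) := by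
      rw [Complex.ofReal_sum]
      unfold BilE
      rw [Finset.sum_comm]
      refine Finset.sum_congr rfl fun a _ => ?_
      have := Bil_norm_pow k s X (fun j : Fin k => α j * (a : ℝ) ^ ((j : ℕ) + 1))
      unfold BilE at this
      rw [this]
      refine Finset.sum_congr rfl fun w _ => ?_
      congr 1
      refine Finset.sum_congr rfl fun j _ => ?_
      ring
    have h0 : 0 ≤ ∑ a ∈ Icc 1 X, ‖BilE X (fun j : Fin k => α j * (a : ℝ) ^ ((j : ℕ) + 1))‖ ^ (2 * s) :=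
      Finset.sum_nonneg fun v _ => by positivity
    have e2 : ∑ a ∈ Icc 1 X, ‖BilE X (fun j : Fin k => α j * (a : ℝ) ^ ((j : ℕ) + 1))‖ ^ (2 * s) =
        ‖((∑ a ∈ Icc 1 X, ‖BilE X (fun j : Fin k => α j * (a : ℝ) ^ ((j : ℕ) + 1))‖ ^ (2 * s) : ℝ) : ℂ)‖ := by
      rw [Complex.norm_real, Real.norm_of_nonneg h0]
    rw [e2, e]
    exact norm_sum_le _ _
  calc ‖bil k X α‖ ^ (2 * s)
      ≤ (∑ a ∈ Icc 1 X, ‖BilE X (fun j : Fin k => α j * (a : ℝ) ^ ((j : ℕ) + 1))‖) ^ (2 * s) :=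
        pow_le_pow_left₀ (norm_nonneg _) h1 _
    _ ≤ _ := h2
    _ ≤ _ := mul_le_mul_of_nonneg_left h3 (by positivity)

private theorem Bil_step2 (k s X : ℕ) (hs : 1 ≤ s) (α : Fin k → ℝ) :
    BilA k s X α ^ (2 * s) ≤ (X : ℝ) ^ (2 * s * (2 * s - 2)) * ((JV k (2 * s) X : ℝ) *
      ((JV k s X : ℝ) * ∏ j : Fin k, GG (α j) (s * X ^ ((j : ℕ) + 1)))) := by
  have hA0 : 0 ≤ BilA k s X α := Finset.sum_nonneg fun w _ => norm_nonneg _
  set B : ℝ := ∑ w ∈ box s X ×ˢ box s X, ‖BilE X (fun j : Fin k => α j * (BilD w j : ℝ))‖ ^ s with hB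
  have hB0 : 0 ≤ B := Finset.sum_nonneg fun w _ => by positivity
  have h1 : BilA k s X α ^ s ≤ (X : ℝ) ^ (2 * s * (s - 1)) * B := by
    obtain ⟨n, hn⟩ : ∃ n, s = n + 1 := ⟨s - 1, by omega⟩
    have := pow_sum_le_card_mul_sum_pow (s := box s X ×ˢ box s X)
      (f := fun w => ‖BilE X (fun j : Fin k => α j * (BilD w j : ℝ))‖)
      (fun a _ => norm_nonneg _) (s - 1)
    rw [Bil_box_card, Nat.sub_add_cancel hs] at this
    unfold BilA
    rw [hB]
    push_cast at this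
    rw [← pow_mul] at this
    exact this
  have h2 : B = ∑ v ∈ BilV k s X, (BilR k s X v : ℝ) * ‖BilE X (fun j => α j * (v j : ℝ))‖ ^ s := by
    rw [hB]
    exact Bil_fiber k s X (fun v => ‖BilE X (fun j => α j * (v j : ℝ))‖ ^ s)
  have h3 : B ^ 2 ≤ (JV k (2 * s) X : ℝ) *
      ((JV k s X : ℝ) * ∏ j : Fin k, GG (α j) (s * X ^ ((j : ℕ) + 1))) := by
    rw [h2]
    refine (Finset.sum_mul_sq_le_sq_mul_sq _ _ _).trans ?_
    have e : ∑ v ∈ BilV k s X, (‖BilE X (fun j => α j * (v j : ℝ))‖ ^ s) ^ 2 =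
        ∑ v ∈ BilV k s X, ‖BilE X (fun j => α j * (v j : ℝ))‖ ^ (2 * s) := by
      refine Finset.sum_congr rfl fun v _ => ?_
      rw [← pow_mul, mul_comm s 2]
    rw [e]
    refine mul_le_mul (Bil_sumR_sq k s X) (Bil_sumT k s X α) ?_ (by positivity)
    exact Finset.sum_nonneg fun v _ => by positivity
  calc BilA k s X α ^ (2 * s) = (BilA k s X α ^ s) ^ 2 := by rw [← pow_mul, mul_comm s 2]
    _ ≤ ((X : ℝ) ^ (2 * s * (s - 1)) * B) ^ 2 := pow_le_pow_left₀ (by positivity) h1 2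
    _ = (X : ℝ) ^ (2 * s * (2 * s - 2)) * B ^ 2 := by
        rw [mul_pow, ← pow_mul]
        congr 2
        have : 2 * s - 2 = 2 * (s - 1) := by omega
        rw [this]
        ring
    _ ≤ _ := mul_le_mul_of_nonneg_left h3 (by positivity)

theorem bil_bound (k s X : ℕ) (hs : 1 ≤ s) (hX : 1 ≤ X) (α : Fin k → ℝ) :
    ‖bil k X α‖ ^ (4 * s ^ 2) ≤ (X : ℝ) ^ (8 * s ^ 2 - 6 * s) * (JV k (2 * s) X : ℝ) * (JV k s X : ℝ) *
      ∏ j : Fin k, GG (α j) (s * X ^ ((j : ℕ) + 1)) := by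
  have hA0 : 0 ≤ BilA k s X α := Finset.sum_nonneg fun w _ => norm_nonneg _
  have e1 : ‖bil k X α‖ ^ (4 * s ^ 2) = (‖bil k X α‖ ^ (2 * s)) ^ (2 * s) := by
    rw [← pow_mul]
    congr 1
    ring
  have e2 : (2 * s - 1) * (2 * s) + 2 * s * (2 * s - 2) = 8 * s ^ 2 - 6 * s := by
    obtain ⟨n, rfl⟩ : ∃ n, s = n + 1 := ⟨s - 1, by omega⟩
    have a1 : 2 * (n + 1) - 1 = 2 * n + 1 := by omega
    have a2 : 2 * (n + 1) - 2 = 2 * n := by omega
    rw [a1, a2]
    refine (Nat.sub_eq_of_eq_add ?_).symm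
    ring
  rw [e1]
  calc (‖bil k X α‖ ^ (2 * s)) ^ (2 * s)
      ≤ ((X : ℝ) ^ (2 * s - 1) * BilA k s X α) ^ (2 * s) :=
        pow_le_pow_left₀ (by positivity) (Bil_step1 k s X hs α) _
    _ = (X : ℝ) ^ ((2 * s - 1) * (2 * s)) * BilA k s X α ^ (2 * s) := by
        rw [mul_pow, ← pow_mul]
    _ ≤ (X : ℝ) ^ ((2 * s - 1) * (2 * s)) * ((X : ℝ) ^ (2 * s * (2 * s - 2)) * ((JV k (2 * s) X : ℝ) *
      ((JV k s X : ℝ) * ∏ j : Fin k, GG (α j) (s * X ^ ((j : ℕ) + 1))))) :=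
        mul_le_mul_of_nonneg_left (Bil_step2 k s X hs α) (by positivity)
    _ = _ := by
        rw [← e2, pow_add]
        ring

end Pool.Agent.H97.VK

end

section

/-!
# MID Chain: descendants at level 0

`Desc P j Dj w K α S`: all `(Π, i) ∈ S` satisfy `P^j ≤ Π ≤ (2P)^j`, `|i Π - K P^j| ≤ Dj P^j`, `nz (Π w - α i) ≤ τ`, `i ∈ F0`.
`chain_step`: from the descendants of the `K ∈ F` (level `j`) and the triples `(M, p, K)` of one `M` (level `j+1`), `|K p - M P| ≤ C P`,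
`nz (p w' - w K) ≤ η'`, one gets the descendants `(p Π, i)` of `M`.
Proof.  `S' = ` image of the set of the quadruples `(p, K, Π, i)`, `(p,K) ∈ T`, `(Π,i) ∈ S K`, under `(p Π, i)`.
`|i Π p - M P^(j+1)| ≤ p |i Π - K P^j| + P^j |K p - M P| ≤ (2 Dj + C) P^(j+1)`;
`nz (Π p w' - α i) ≤ nz (Π (p w' - w K)) + nz (Π w K - α i) ≤ (2P)^j η' + τ`.
Fibres: given `(Π', i)`: `p` is a prime `> P` dividing `Π' ≤ (2P)^(j+1) < P^(j+2)` (`2^(j+1) < P`), so at most `j+1` values of `p` (their product divides `Π'`,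
`Finset.prod_primes_dvd`, and is `> P^(#)`); given `p`: `Π = Π'/p`, and `|K p - M P| ≤ C P` leaves at most `2C+1` values `K`.  So the fibres have at most
`(j+1)(2C+1)` elements and `|S'| ≥ ∑_{(p,K) ∈ T} |S K|/((j+1)(2C+1)) ≥ |T| m/((j+1)(2C+1))` if all `|S K| ≥ m`.
-/

set_option autoImplicit false

namespace Pool.Agent.H53.MID

open Finset

/-- `S` is a set of descendants `(Π, i)` of the index `K` with the frequency `w`, `j` levels down -/
structure Desc (P j : ℕ) (D τ : ℝ) (F0 : Finset ℕ) (α : ℕ → ℝ) (K : ℕ) (w : ℝ) (S : Finset (ℕ × ℕ)) : Prop where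
  mem : ∀ t ∈ S, t.2 ∈ F0
  lo : ∀ t ∈ S, (P : ℝ) ^ j ≤ t.1
  hi : ∀ t ∈ S, (t.1 : ℝ) ≤ (2 * P) ^ j
  pos : ∀ t ∈ S, |(t.2 : ℝ) * t.1 - K * P ^ j| ≤ D * P ^ j
  freq : ∀ t ∈ S, nz (t.1 * w - α t.2) ≤ τ

/-- the number of the indices at a bounded distance -/
private theorem Chain_cardK {C X : ℝ} {p P : ℕ} (hC : 1 ≤ C) (hP : 0 < P) (hp : P < p)
    (U : Finset ℕ) (hU : ∀ K ∈ U, |(K : ℝ) * p - X| ≤ C * P) :
    U.card ≤ ⌊2 * C⌋₊ + 1 := by
  rcases U.eq_empty_or_nonempty with h0 | hne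
  · rw [h0]
    simp
  · obtain ⟨a, ha⟩ : ∃ a, a = U.min' hne := ⟨_, rfl⟩
    have haU : a ∈ U := by
      rw [ha]
      exact Finset.min'_mem _ _
    have hsub : U ⊆ Finset.Icc a (a + ⌊2 * C⌋₊) := by
      intro K hK
      have h1 : a ≤ K := by
        rw [ha]
        exact Finset.min'_le _ _ hK
      rw [Finset.mem_Icc]
      refine ⟨h1, ?_⟩
      have h2 := hU K hK
      have h3 := hU a haU
      rw [abs_le] at h2 h3
      have hP0 : (0 : ℝ) < P := by exact_mod_cast hP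
      have hpP : (P : ℝ) < p := by exact_mod_cast hp
      have h4 : ((K : ℝ) - a) * p ≤ 2 * C * P := by linarith [h2.2, h3.1]
      have h5 : (K : ℝ) - a ≤ 2 * C := by
        by_contra hcon
        push Not at hcon
        have h6 : 2 * C * p < ((K : ℝ) - a) * p :=
          mul_lt_mul_of_pos_right hcon (hP0.trans hpP)
        have h7 : 2 * C * P < 2 * C * p := mul_lt_mul_of_pos_left hpP (by linarith)
        linarith
      have h8 : ((K - a : ℕ) : ℝ) ≤ 2 * C := by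
        rw [Nat.cast_sub h1]
        exact h5
      have h9 : K - a ≤ ⌊2 * C⌋₊ := Nat.le_floor h8
      omega
    refine (Finset.card_le_card hsub).trans ?_
    rw [Nat.card_Icc]
    omega

/-- the number of the large prime factors -/
private theorem Chain_cardP {P j N : ℕ} (hP : 2 ^ (j + 1) < P) (hN : 0 < N)
    (hN2 : (N : ℝ) ≤ (2 * P) ^ (j + 1)) (B : Finset ℕ)
    (hB : ∀ p ∈ B, p.Prime ∧ P < p ∧ p ∣ N) : B.card ≤ j + 1 := by
  have hP0 : 0 < P := lt_of_le_of_lt (Nat.zero_le _) hP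
  have h1 : ∏ p ∈ B, p ∣ N :=
    Finset.prod_primes_dvd N (fun p hp => (hB p hp).1.prime) fun p hp => (hB p hp).2.2
  have h2 : ∏ p ∈ B, p ≤ N := Nat.le_of_dvd hN h1
  have h3 : P ^ B.card ≤ ∏ p ∈ B, p := Finset.pow_card_le_prod _ _ _ fun p hp => (hB p hp).2.1.le
  have h4 : N ≤ (2 * P) ^ (j + 1) := by exact_mod_cast hN2
  have h5 : (2 * P) ^ (j + 1) < P ^ (j + 2) := by
    rw [mul_pow, pow_succ P (j + 1), mul_comm (P ^ (j + 1)) P]
    exact Nat.mul_lt_mul_of_pos_right hP (pow_pos hP0 _)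
  have h6 : P ^ B.card < P ^ (j + 2) := lt_of_le_of_lt (h3.trans (h2.trans h4)) h5
  have h7 : 1 < P := lt_of_le_of_lt Nat.one_le_two_pow hP
  have h8 := (Nat.pow_lt_pow_iff_right h7).mp h6
  omega

theorem chain_step (P j : ℕ) (C D τ η' m w' : ℝ) (hC : 1 ≤ C) (F0 : Finset ℕ) (α : ℕ → ℝ) (M : ℕ)
    (w : ℕ → ℝ) (S : ℕ → Finset (ℕ × ℕ)) (T : Finset (ℕ × ℕ)) (hP : 2 ^ (j + 1) < P)
    (hT : ∀ t ∈ T, t.1.Prime ∧ P < t.1 ∧ t.1 ≤ 2 * P ∧ |(t.2 : ℝ) * t.1 - M * P| ≤ C * P ∧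
      nz (t.1 * w' - w t.2) ≤ η' ∧ Desc P j D τ F0 α t.2 (w t.2) (S t.2) ∧ m ≤ (S t.2).card)
    (hη : 0 ≤ η') (hm : 0 ≤ m) :
    ∃ S' : Finset (ℕ × ℕ), Desc P (j + 1) (2 * D + C) ((2 * P) ^ j * η' + τ) F0 α M w' S' ∧
      T.card * m / ((j + 1) * (2 * C + 1)) ≤ S'.card := by
  classical
  have hP0 : 0 < P := lt_of_le_of_lt (Nat.zero_le _) hP
  have hP0' : (0 : ℝ) < P := by exact_mod_cast hP0
  have hPj : (0 : ℝ) < (P : ℝ) ^ j := pow_pos hP0' _
  set f : (Σ _ : ℕ × ℕ, ℕ × ℕ) → ℕ × ℕ := fun x => (x.1.1 * x.2.1, x.2.2) with hf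
  set Q : Finset (Σ _ : ℕ × ℕ, ℕ × ℕ) := T.sigma fun t => S t.2 with hQ
  have key : ∀ x ∈ Q, x.1 ∈ T ∧ x.2 ∈ S x.1.2 := by
    intro x hx
    rw [hQ, Finset.mem_sigma] at hx
    exact hx
  have hdesc : Desc P (j + 1) (2 * D + C) ((2 * P) ^ j * η' + τ) F0 α M w' (Q.image f) := by
    have main : ∀ x ∈ Q, (f x).2 ∈ F0 ∧ (P : ℝ) ^ (j + 1) ≤ (f x).1 ∧
        ((f x).1 : ℝ) ≤ (2 * P) ^ (j + 1) ∧
        |((f x).2 : ℝ) * (f x).1 - M * P ^ (j + 1)| ≤ (2 * D + C) * P ^ (j + 1) ∧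
        nz ((f x).1 * w' - α (f x).2) ≤ (2 * P) ^ j * η' + τ := by
      intro x hx
      obtain ⟨hxT, hxS⟩ := key x hx
      obtain ⟨hpr, hPp, hp2, hKM, hnz, hD, _⟩ := hT x.1 hxT
      have hPp' : (P : ℝ) < x.1.1 := by exact_mod_cast hPp
      have hp2' : (x.1.1 : ℝ) ≤ 2 * P := by exact_mod_cast hp2
      have hp0 : (0 : ℝ) < x.1.1 := hP0'.trans hPp'
      have a1 := hD.mem _ hxS
      have a2 := hD.lo _ hxS
      have a3 := hD.hi _ hxS
      have a4 := hD.pos _ hxS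
      have a5 := hD.freq _ hxS
      have hD0 : 0 ≤ D := by
        have h1 : 0 ≤ D * (P : ℝ) ^ j := (abs_nonneg _).trans a4
        exact nonneg_of_mul_nonneg_left h1 hPj
      have hu0 : (0 : ℝ) < x.2.1 := hPj.trans_le a2
      have hfst : ((f x).1 : ℝ) = (x.1.1 : ℝ) * x.2.1 := by
        simp only [hf]
        push_cast
        ring
      have hsnd : (f x).2 = x.2.2 := rfl
      rw [hfst, hsnd]
      refine ⟨a1, ?_, ?_, ?_, ?_⟩
      · rw [pow_succ, mul_comm]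
        exact mul_le_mul hPp'.le a2 hPj.le hp0.le
      · rw [pow_succ, mul_comm]
        exact mul_le_mul a3 hp2' hp0.le (by positivity)
      · have e : (x.2.2 : ℝ) * (x.1.1 * x.2.1) - M * P ^ (j + 1) =
            x.1.1 * (x.2.2 * x.2.1 - x.1.2 * P ^ j) + P ^ j * (x.1.2 * x.1.1 - M * P) := by
          ring
        rw [e]
        refine (abs_add_le _ _).trans ?_
        rw [abs_mul, abs_mul, abs_of_pos hp0, abs_of_pos hPj]
        have b1 : (x.1.1 : ℝ) * |(x.2.2 : ℝ) * x.2.1 - x.1.2 * P ^ j| ≤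
            (2 * P) * (D * P ^ j) := mul_le_mul hp2' a4 (abs_nonneg _) (by positivity)
        have b2 : (P : ℝ) ^ j * |(x.1.2 : ℝ) * x.1.1 - M * P| ≤ P ^ j * (C * P) :=
          mul_le_mul_of_nonneg_left hKM hPj.le
        have e2 : (2 * D + C) * (P : ℝ) ^ (j + 1) = (2 * P) * (D * P ^ j) + P ^ j * (C * P) := by
          ring
        rw [e2]
        exact add_le_add b1 b2
      · have e : (x.1.1 : ℝ) * x.2.1 * w' - α x.2.2 =
            (x.2.1 : ℝ) * (x.1.1 * w' - w x.1.2) + (x.2.1 * w x.1.2 - α x.2.2) := by ring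
        rw [e]
        refine (nz_add _ _).trans (add_le_add ?_ a5)
        refine (nz_nat_mul _ _).trans ?_
        exact mul_le_mul a3 hnz (nz_nonneg _) (by positivity)
    have main' : ∀ t ∈ Q.image f, t.2 ∈ F0 ∧ (P : ℝ) ^ (j + 1) ≤ t.1 ∧
        (t.1 : ℝ) ≤ (2 * P) ^ (j + 1) ∧
        |(t.2 : ℝ) * t.1 - M * P ^ (j + 1)| ≤ (2 * D + C) * P ^ (j + 1) ∧
        nz (t.1 * w' - α t.2) ≤ (2 * P) ^ j * η' + τ := by
      intro t ht
      rw [Finset.mem_image] at ht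
      obtain ⟨x, hx, rfl⟩ := ht
      exact main x hx
    exact ⟨fun t ht => (main' t ht).1, fun t ht => (main' t ht).2.1,
      fun t ht => (main' t ht).2.2.1, fun t ht => (main' t ht).2.2.2.1,
      fun t ht => (main' t ht).2.2.2.2⟩
  refine ⟨Q.image f, hdesc, ?_⟩
  -- the fibres
  have hfib : ∀ a ∈ Q.image f, (Q.filter fun x => f x = a).card ≤
      (⌊2 * C⌋₊ + 1) * (j + 1) := by
    intro a ha
    have ha1 := hdesc.lo a ha
    have ha2 := hdesc.hi a ha
    have ha0 : 0 < a.1 := by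
      have h1 : (0 : ℝ) < a.1 := (pow_pos hP0' (j + 1)).trans_le ha1
      exact_mod_cast h1
    set G : Finset (ℕ × ℕ) := (Q.filter fun x => f x = a).image fun x => x.1 with hG
    have hcard : (Q.filter fun x => f x = a).card = G.card := by
      rw [hG, Finset.card_image_of_injOn]
      intro x hx y hy hxy
      rw [Finset.mem_coe, Finset.mem_filter] at hx hy
      have hxy' : x.1 = y.1 := hxy
      have hp : 0 < x.1.1 := hP0.trans (hT x.1 (key x hx.1).1).2.1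
      have e1 : x.1.1 * x.2.1 = a.1 := congrArg Prod.fst hx.2
      have e2 : y.1.1 * y.2.1 = a.1 := congrArg Prod.fst hy.2
      have e3 : (f x).2 = a.2 := by rw [hx.2]
      have e4 : (f y).2 = a.2 := by rw [hy.2]
      have e5 : x.2.1 = y.2.1 := by
        rw [← hxy', ← e1] at e2
        exact (Nat.eq_of_mul_eq_mul_left hp e2).symm
      have e6 : x.2 = y.2 := Prod.ext e5 (e3.trans e4.symm)
      exact Sigma.ext hxy' (heq_of_eq e6)
    have hGmem : ∀ t ∈ G, t ∈ T ∧ t.1 ∣ a.1 := by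
      intro t ht
      rw [hG, Finset.mem_image] at ht
      obtain ⟨x, hx, rfl⟩ := ht
      rw [Finset.mem_filter] at hx
      exact ⟨(key x hx.1).1, ⟨x.2.1, (congrArg Prod.fst hx.2).symm⟩⟩
    have h1 : G.card ≤ (⌊2 * C⌋₊ + 1) * (G.image Prod.fst).card := by
      refine Finset.card_le_mul_card_image G _ fun p hp => ?_
      have hp' := hp
      rw [Finset.mem_image] at hp'
      obtain ⟨t0, ht0, ht0p⟩ := hp'
      have hPp : P < p := by
        rw [← ht0p]
        exact (hT t0 (hGmem t0 ht0).1).2.1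
      have hinj : (G.filter fun x => Prod.fst x = p).card =
          ((G.filter fun x => Prod.fst x = p).image Prod.snd).card := by
        rw [Finset.card_image_of_injOn]
        intro x hx y hy hxy
        rw [Finset.mem_coe, Finset.mem_filter] at hx hy
        exact Prod.ext (hx.2.trans hy.2.symm) hxy
      rw [hinj]
      refine Chain_cardK (X := (M : ℝ) * P) hC hP0 hPp _ fun K hK => ?_
      rw [Finset.mem_image] at hK
      obtain ⟨t, ht, rfl⟩ := hK
      rw [Finset.mem_filter] at ht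
      have := (hT t (hGmem t ht.1).1).2.2.2.1
      rw [← ht.2]
      exact this
    have h2 : (G.image Prod.fst).card ≤ j + 1 := by
      refine Chain_cardP hP ha0 ha2 _ fun p hp => ?_
      rw [Finset.mem_image] at hp
      obtain ⟨t, ht, rfl⟩ := hp
      obtain ⟨htT, htd⟩ := hGmem t ht
      exact ⟨(hT t htT).1, (hT t htT).2.1, htd⟩
    rw [hcard]
    exact h1.trans (Nat.mul_le_mul_left _ h2)
  have hcardQ : Q.card ≤ ((⌊2 * C⌋₊ + 1) * (j + 1)) * (Q.image f).card :=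
    Finset.card_le_mul_card_image Q _ hfib
  have hQc : (T.card : ℝ) * m ≤ Q.card := by
    rw [hQ, Finset.card_sigma]
    push_cast
    calc (T.card : ℝ) * m = ∑ _t ∈ T, m := by rw [Finset.sum_const, nsmul_eq_mul]
      _ ≤ ∑ t ∈ T, ((S t.2).card : ℝ) := Finset.sum_le_sum fun t ht => (hT t ht).2.2.2.2.2.2
  have hC2 : ((⌊2 * C⌋₊ : ℕ) : ℝ) ≤ 2 * C := Nat.floor_le (by linarith)
  have hpos : (0 : ℝ) < (j + 1) * (2 * C + 1) := by
    have : (0 : ℝ) ≤ j := Nat.cast_nonneg j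
    positivity
  rw [div_le_iff₀ hpos]
  have h3 : (Q.card : ℝ) ≤ ((⌊2 * C⌋₊ : ℝ) + 1) * (j + 1) * (Q.image f).card := by
    exact_mod_cast hcardQ
  have h4 : ((⌊2 * C⌋₊ : ℝ) + 1) * (j + 1) * (Q.image f).card ≤
      (2 * C + 1) * (j + 1) * (Q.image f).card := by
    have : (0 : ℝ) ≤ j := Nat.cast_nonneg j
    refine mul_le_mul_of_nonneg_right (mul_le_mul_of_nonneg_right ?_ ?_) (Nat.cast_nonneg _)
    · linarith
    · linarith
  calc (T.card : ℝ) * m ≤ Q.card := hQc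
    _ ≤ _ := h3
    _ ≤ _ := h4
    _ = ((Q.image f).card : ℝ) * ((j + 1) * (2 * C + 1)) := by ring

end Pool.Agent.H53.MID

end
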