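import Pool.Agent.H43.PJ.M05
import Pool.Agent.H43.PJ.M10
import Pool.Agent.H43.PJ.M12

/-! The parts of this file: H35.W.Rough, H97.VK.RCnt, H76.VKT.Up. -/

section

/-!
# W Rough: the density of the integers without prime factor in `(P, P 2^J]`

Proof.  Let `Z = P 2^J`, `f(k) = 1` if `k` has no prime factor in `(P, Z]` (these are the primes of the blocks
`pb (P 2^i)`, `i < J`), else `0`.  If `y < Z` the number is `≤ y ≤ Z`.  Let `y ≥ Z`.
(Hall-Tenenbaum) `∑_{n ≤ y} f(n) log n = ∑_{n ≤ y} f(n) ∑_{d ∣ n} Λ(d) ≤ ∑_{m ≤ y} f(m) ψ(y/m) ≤ C1 y ∑_{m ≤ y} f(m)/m`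
(`n = m d`, `f(n) ≤ f(m)`; `ψ(u) ≤ C1 u`, e.g. `Chebyshev.psi_le` or `psi_le_log_three`), and
`∑_{n ≤ y} f(n) log(y/n) ≤ ∑ f(n) y/n`; so `log y · ∑_{n ≤ y} f(n) ≤ (C1 + 1) y ∑_{m ≤ y} f(m)/m`.
(Euler product) `∑_{m ≤ y} f(m)/m ≤ ∏_{p ≤ y, p ∉ (P, Z]} (1 - 1/p)^{-1}`, and
`∏_{p ≤ y} (1 - 1/p)^{-1} ≤ C2 log y` (Mertens upper bound, `MR_sum_inv` for `∑ 1/p`), and
`∏_{P < p ≤ Z} (1 - 1/p) ≤ exp (- ∑_{P < p ≤ Z} 1/p) ≤ C3 log P / log Z` (`mertens_lower` in `H91/PK/MB.lean` for `P ≥ 65536`;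
for smaller `P` use `P' = 65536`: then `log P' / log Z ≤ 16 log P / log Z · ...`, if `Z ≤ 65536` the claim is trivial with
a large `C`).  So `#{n ≤ y : f(n) = 1} ≤ C y log P / log Z`.
-/

set_option autoImplicit false

namespace Pool.Agent.H35.W

open Finset

private theorem rough_upper : ∃ C : ℝ, 0 < C ∧ ∀ y : ℕ, 2 ≤ y →
    ∑ p ∈ (Icc 1 y).filter Nat.Prime, (1 : ℝ) / p ≤ Real.log (Real.log y) + C :=
  Pool.Agent.H43.MP.mrt_upper

open Pool.Agent.H91.Gold (Pr) in
private theorem rough_Pr_mono (P w Z : ℕ) (h : P ≤ w) :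
    ∑ p ∈ Pr w Z, (1 : ℝ) / p ≤ ∑ p ∈ (Ioc P Z).filter Nat.Prime, (1 : ℝ) / p := by
  apply Finset.sum_le_sum_of_subset_of_nonneg
  · intro p hp
    unfold Pr at hp
    rw [mem_filter, mem_Ioc] at hp ⊢
    exact ⟨⟨lt_of_le_of_lt h hp.1.1, hp.1.2⟩, hp.2⟩
  · intro _ _ _; positivity

open Pool.Agent.H91.Gold (Pr) in
private theorem rough_lower (P Z : ℕ) (hP : 2 ≤ P) (hPZ : P ≤ Z) :
    Real.log (Real.log Z / Real.log P) - 4 ≤ ∑ p ∈ (Ioc P Z).filter Nat.Prime, (1 : ℝ) / p := by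
  have hlP : (0 : ℝ) < Real.log P := Real.log_pos (by exact_mod_cast hP)
  have hlZ : (0 : ℝ) < Real.log Z := Real.log_pos (by exact_mod_cast (by omega : 1 < Z))
  have hZ0 : (0 : ℝ) < Z := by
    have : 0 < Z := by omega
    exact_mod_cast this
  have hl2 : (0 : ℝ) < Real.log 2 := Real.log_pos (by norm_num)
  have hl6 : Real.log 65536 = 16 * Real.log 2 := by
    rw [show (65536 : ℝ) = 2 ^ 16 by norm_num, Real.log_pow]; norm_num
  have hl6' : (11 : ℝ) ≤ Real.log 65536 := by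
    rw [hl6]; have := Real.log_two_gt_d9; linarith
  have hl16 : Real.log 16 ≤ 3 := by
    rw [show (16 : ℝ) = 2 ^ 4 by norm_num, Real.log_pow]
    have := Real.log_two_lt_d9; push_cast; linarith
  rcases Nat.lt_or_ge P 65536 with h | h
  · have hP2 : Real.log 2 ≤ Real.log P := Real.log_le_log (by norm_num) (by exact_mod_cast hP)
    rcases Nat.lt_or_ge Z 65536 with hz | hz
    · have h1 : Real.log Z ≤ Real.log 65536 := Real.log_le_log (by positivity) (by exact_mod_cast hz.le)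
      have h2 : Real.log Z / Real.log P ≤ 16 := by
        rw [div_le_iff₀ hlP]; rw [hl6] at h1; nlinarith
      have h3 : Real.log (Real.log Z / Real.log P) ≤ Real.log 16 :=
        Real.log_le_log (by positivity) h2
      have h4 : (0 : ℝ) ≤ ∑ p ∈ (Ioc P Z).filter Nat.Prime, (1 : ℝ) / p :=
        Finset.sum_nonneg (fun _ _ => by positivity)
      linarith
    · have h1 := Pool.Agent.H91.PK.mertens_lower (le_refl 65536) hz
      have h2 : ∑ p ∈ Pr 65536 Z, (1 : ℝ) / p ≤ ∑ p ∈ (Ioc P Z).filter Nat.Prime, (1 : ℝ) / p :=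
        rough_Pr_mono P 65536 Z h.le
      have h3 : (0.25 : ℝ) / Real.log ((65536 : ℕ) : ℝ) ≤ 1 := by
        push_cast
        rw [div_le_one (by linarith)]; linarith
      have h4 : Real.log (Real.log Z / Real.log P) - Real.log 16 ≤
          Real.log (Real.log Z / Real.log ((65536 : ℕ) : ℝ)) := by
        push_cast
        rw [← Real.log_div (by positivity) (by norm_num)]
        apply Real.log_le_log (by positivity)
        rw [div_div]
        apply div_le_div_of_nonneg_left hlZ.le (by linarith)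
        rw [hl6]; nlinarith
      linarith
  · have h1 := Pool.Agent.H91.PK.mertens_lower h hPZ
    have h3 : (0.25 : ℝ) / Real.log P ≤ 1 := by
      have : Real.log 65536 ≤ Real.log P := Real.log_le_log (by norm_num) (by exact_mod_cast h)
      rw [div_le_one hlP]; linarith
    have h2 : ∑ p ∈ Pr P Z, (1 : ℝ) / p = ∑ p ∈ (Ioc P Z).filter Nat.Prime, (1 : ℝ) / p := rfl
    linarith

/-- the block primes fill `(P, P 2^J]` -/
private theorem rough_block (P J p : ℕ) (hp : p.Prime) (h1 : P < p) (h2 : p ≤ P * 2 ^ J) :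
    ∃ i, i < J ∧ p ∈ pb (P * 2 ^ i) := by
  induction J with
  | zero => simp at h2; omega
  | succ J ih =>
    rcases Nat.lt_or_ge (P * 2 ^ J) p with h | h
    · refine ⟨J, Nat.lt_succ_self J, ?_⟩
      unfold pb
      rw [mem_filter, mem_Ioc]
      refine ⟨⟨h, ?_⟩, hp⟩
      rw [pow_succ] at h2
      linarith [h2, Nat.mul_comm 2 (P * 2 ^ J)]
    · obtain ⟨i, hi, hi'⟩ := ih h
      exact ⟨i, hi.trans (Nat.lt_succ_self J), hi'⟩

private theorem rough_dvd (P J m n : ℕ) (h : Rk P J n) (hmn : m ∣ n) : Rk P J m :=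
  fun i hi p hp hpm => h i hi p hp (hpm.trans hmn)

/-- Hall-Tenenbaum -/
private theorem rough_HT (P J y : ℕ) (hy : 2 ≤ y) :
    Real.log y * ((rgh P J y).card : ℝ) ≤
      (Real.log 4 + 5) * y * ∑ m ∈ rgh P J y, (1 : ℝ) / m := by
  classical
  have hy0 : (0 : ℝ) < y := by positivity
  have mem : ∀ n, n ∈ rgh P J y ↔ (1 ≤ n ∧ n ≤ y) ∧ Rk P J n := by
    intro n; unfold rgh; rw [mem_filter, mem_Icc]
  have h1 : Real.log y * ((rgh P J y).card : ℝ) =
      ∑ n ∈ rgh P J y, Real.log n + ∑ n ∈ rgh P J y, Real.log ((y : ℝ) / n) := by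
    rw [← Finset.sum_add_distrib, mul_comm, ← nsmul_eq_mul, ← Finset.sum_const]
    apply Finset.sum_congr rfl
    intro n hn
    have hn1 := ((mem n).1 hn).1.1
    have hn0 : (0 : ℝ) < n := by positivity
    rw [Real.log_div hy0.ne' hn0.ne']; ring
  have h2 : ∑ n ∈ rgh P J y, Real.log ((y : ℝ) / n) ≤ y * ∑ m ∈ rgh P J y, (1 : ℝ) / m := by
    rw [Finset.mul_sum]
    apply Finset.sum_le_sum
    intro n hn
    have hn1 := ((mem n).1 hn).1.1
    have hn0 : (0 : ℝ) < n := by positivity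
    have := Real.log_le_self (show (0 : ℝ) ≤ y / n by positivity)
    rw [mul_one_div]; exact this
  have h3 : ∑ n ∈ rgh P J y, Real.log n ≤
      ∑ m ∈ rgh P J y, ∑ d ∈ Ioc 0 (y / m), ArithmeticFunction.vonMangoldt d := by
    have e1 : ∀ n ∈ rgh P J y, Real.log n =
        ∑ m ∈ rgh P J y, if m ∣ n then ArithmeticFunction.vonMangoldt (n / m) else 0 := by
      intro n hn
      have hn1 := (mem n).1 hn
      rw [← ArithmeticFunction.vonMangoldt_sum,
        ← Nat.sum_div_divisors n (fun d => ArithmeticFunction.vonMangoldt d), ← Finset.sum_filter]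
      apply Finset.sum_congr _ (fun _ _ => rfl)
      ext m
      rw [Nat.mem_divisors, mem_filter, mem]
      constructor
      · rintro ⟨hm, _⟩
        refine ⟨⟨⟨Nat.pos_of_dvd_of_pos hm hn1.1.1, ?_⟩, rough_dvd P J m n hn1.2 hm⟩, hm⟩
        exact (Nat.le_of_dvd hn1.1.1 hm).trans hn1.1.2
      · rintro ⟨_, hm⟩
        exact ⟨hm, by omega⟩
    rw [Finset.sum_congr rfl e1, Finset.sum_comm]
    apply Finset.sum_le_sum
    intro m hm
    have hm1 := ((mem m).1 hm).1.1
    rw [← Finset.sum_filter]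
    have e2 : ∑ n ∈ (rgh P J y).filter (fun n => m ∣ n), ArithmeticFunction.vonMangoldt (n / m) =
        ∑ d ∈ ((rgh P J y).filter (fun n => m ∣ n)).image (fun n => n / m),
          ArithmeticFunction.vonMangoldt d := by
      rw [Finset.sum_image]
      intro a ha b hb hab
      rw [Finset.coe_filter] at ha hb
      have ha' := Nat.div_mul_cancel ha.2
      have hb' := Nat.div_mul_cancel hb.2
      have hab' : a / m = b / m := hab
      rw [← ha', ← hb', hab']
    rw [e2]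
    apply Finset.sum_le_sum_of_subset_of_nonneg
    · intro d hd
      rw [mem_image] at hd
      obtain ⟨n, hn, rfl⟩ := hd
      rw [mem_filter] at hn
      have hn1 := (mem n).1 hn.1
      rw [mem_Ioc]
      exact ⟨Nat.div_pos (Nat.le_of_dvd hn1.1.1 hn.2) hm1, Nat.div_le_div_right hn1.1.2⟩
    · intro _ _ _
      exact ArithmeticFunction.vonMangoldt_nonneg
  have h4 : ∑ m ∈ rgh P J y, ∑ d ∈ Ioc 0 (y / m), ArithmeticFunction.vonMangoldt d ≤
      (Real.log 4 + 4) * y * ∑ m ∈ rgh P J y, (1 : ℝ) / m := by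
    rw [Finset.mul_sum]
    apply Finset.sum_le_sum
    intro m hm
    have hm1 := ((mem m).1 hm).1.1
    have hm0 : (0 : ℝ) < m := by positivity
    have e3 := Chebyshev.psi_le_const_mul_self (show (0 : ℝ) ≤ ((y / m : ℕ) : ℝ) by positivity)
    unfold Chebyshev.psi at e3
    rw [Nat.floor_natCast] at e3
    refine e3.trans ?_
    have e4 : ((y / m : ℕ) : ℝ) ≤ y / m := Nat.cast_div_le
    have e5 : (0 : ℝ) ≤ Real.log 4 + 4 := by
      have := Real.log_nonneg (show (1 : ℝ) ≤ 4 by norm_num); linarith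
    calc (Real.log 4 + 4) * ((y / m : ℕ) : ℝ) ≤ (Real.log 4 + 4) * (y / m) :=
          mul_le_mul_of_nonneg_left e4 e5
      _ = (Real.log 4 + 4) * y * (1 / m) := by ring
  rw [h1]
  calc _ ≤ (Real.log 4 + 4) * y * ∑ m ∈ rgh P J y, (1 : ℝ) / m +
        y * ∑ m ∈ rgh P J y, (1 : ℝ) / m := add_le_add (h3.trans h4) h2
    _ = _ := by ring

/-- Euler product -/
private theorem rough_Euler (P J y : ℕ) (hy : 2 ≤ y) :
    ∑ m ∈ rgh P J y, (1 : ℝ) / m ≤
      Real.exp (∑ p ∈ ((Icc 1 y).filter Nat.Prime).filter (fun p => ¬ (P < p ∧ p ≤ P * 2 ^ J)),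
        (1 : ℝ) / p + 2) := by
  classical
  set T := ((Icc 1 y).filter Nat.Prime).filter (fun p => ¬ (P < p ∧ p ≤ P * 2 ^ J)) with hT
  have memT : ∀ p, p ∈ T ↔ ((1 ≤ p ∧ p ≤ y) ∧ p.Prime) ∧ ¬ (P < p ∧ p ≤ P * 2 ^ J) := by
    intro p; rw [hT, mem_filter, mem_filter, mem_Icc]
  let f : ℕ →* ℝ :=
    { toFun := fun n => (n : ℝ)⁻¹
      map_one' := by simp
      map_mul' := by intro a b; push_cast; rw [mul_inv] }
  have hf : ∀ n, f n = (n : ℝ)⁻¹ := fun _ => rfl
  have hlt : ∀ {p : ℕ}, Nat.Prime p → ‖f p‖ < 1 := by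
    intro p hp
    have : (2 : ℝ) ≤ p := by exact_mod_cast hp.two_le
    rw [hf, norm_inv, Real.norm_of_nonneg (by positivity)]
    exact inv_lt_one_of_one_lt₀ (by linarith)
  obtain ⟨hs, hsum⟩ := EulerProduct.summable_and_hasSum_factoredNumbers_prod_filter_prime_geometric
    (f := f) hlt T
  have hTp : T.filter Nat.Prime = T := by
    apply Finset.filter_true_of_mem
    intro p hp
    exact ((memT p).1 hp).1.2
  rw [hTp] at hsum
  have h1 : ∑ m ∈ rgh P J y, (1 : ℝ) / m ≤ ∏ p ∈ T, (1 - f p)⁻¹ := by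
    have e1 : ∀ m ∈ rgh P J y, m ∈ Nat.factoredNumbers T := by
      intro m hm
      unfold rgh at hm
      rw [mem_filter, mem_Icc] at hm
      rw [Nat.mem_factoredNumbers]
      refine ⟨by omega, ?_⟩
      intro p hp
      have hpp := Nat.prime_of_mem_primeFactorsList hp
      have hpd := Nat.dvd_of_mem_primeFactorsList hp
      rw [memT]
      refine ⟨⟨⟨hpp.one_lt.le, (Nat.le_of_dvd hm.1.1 hpd).trans hm.1.2⟩, hpp⟩, ?_⟩
      rintro ⟨h1, h2⟩
      obtain ⟨i, hi, hi'⟩ := rough_block P J p hpp h1 h2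
      exact hm.2 i hi p hi' hpd
    have e2 : ∑ m ∈ rgh P J y, (1 : ℝ) / m =
        ∑ m ∈ (rgh P J y).attach, f m.1 := by
      rw [Finset.sum_attach (rgh P J y) (fun m => f m)]
      apply Finset.sum_congr rfl
      intro m _
      rw [hf, one_div]
    rw [e2]
    let g : {m // m ∈ rgh P J y} → Nat.factoredNumbers T := fun m => ⟨m.1, e1 m.1 m.2⟩
    have hg : Function.Injective g := by
      intro a b hab
      have : a.1 = b.1 := congrArg (fun z : Nat.factoredNumbers T => z.1) hab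
      exact Subtype.ext this
    have e3 : ∑ m ∈ (rgh P J y).attach, f m.1 =
        ∑ z ∈ (rgh P J y).attach.image g, f (z : ℕ) := by
      rw [Finset.sum_image (fun a _ b _ h => hg h)]
    rw [e3]
    apply sum_le_hasSum _ _ hsum
    intro z _
    rw [hf]; positivity
  refine h1.trans ?_
  rw [Real.exp_add, Real.exp_sum]
  have h2 : ∏ p ∈ T, (1 - f p)⁻¹ ≤ ∏ p ∈ T, Real.exp (1 / (p : ℝ)) * Real.exp (1 / (p : ℝ) ^ 2) := by
    apply Finset.prod_le_prod
    · intro p hp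
      have hpp := ((memT p).1 hp).1.2
      have := hlt hpp
      rw [Real.norm_of_nonneg (by rw [hf]; positivity)] at this
      have : 0 < 1 - f p := by linarith
      positivity
    · intro p hp
      have hpp := ((memT p).1 hp).1.2
      have hp2 : (2 : ℝ) ≤ p := by exact_mod_cast hpp.two_le
      rw [hf, ← Real.exp_add]
      have hp0 : (0 : ℝ) < p := by linarith
      set t := (p : ℝ)⁻¹ with ht
      have ht1 : t ≤ 1 / 2 := by
        rw [ht, inv_le_comm₀ hp0 (by norm_num)]; linarith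
      have ht0 : 0 < t := by positivity
      have e4 : (1 : ℝ) / p + 1 / (p : ℝ) ^ 2 = t + t ^ 2 := by
        rw [ht]; field_simp
      rw [e4]
      have e5 : (1 - t)⁻¹ ≤ 1 + (t + t ^ 2) + (t + t ^ 2) ^ 2 / 2 := by
        rw [inv_le_iff_one_le_mul₀ (by linarith)]
        nlinarith [pow_pos ht0 2, pow_pos ht0 3, pow_pos ht0 4, mul_pos ht0 ht0]
      exact e5.trans (Real.quadratic_le_exp_of_nonneg (by positivity))
  refine h2.trans ?_
  rw [Finset.prod_mul_distrib]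
  apply mul_le_mul_of_nonneg_left _ (Finset.prod_nonneg (fun _ _ => (Real.exp_pos _).le))
  rw [← Real.exp_sum]
  apply Real.exp_le_exp.2
  have h3 : ∑ p ∈ T, 1 / (p : ℝ) ^ 2 ≤ ∑ p ∈ Icc 1 y, 1 / (p : ℝ) ^ 2 := by
    apply Finset.sum_le_sum_of_subset_of_nonneg
    · intro p hp
      rw [mem_Icc]
      exact ((memT p).1 hp).1.1
    · intro _ _ _; positivity
  refine h3.trans ?_
  have h4 : ∀ n : ℕ, 1 ≤ n → ∑ p ∈ Icc 1 n, 1 / (p : ℝ) ^ 2 ≤ 2 - 1 / (n : ℝ) := by
    intro n hn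
    induction n, hn using Nat.le_induction with
    | base => norm_num
    | succ n hn ih =>
      rw [Finset.sum_Icc_succ_top (by omega)]
      have hn0 : (0 : ℝ) < n := by positivity
      have : 1 / ((n + 1 : ℕ) : ℝ) ^ 2 ≤ 1 / n - 1 / ((n + 1 : ℕ) : ℝ) := by
        push_cast
        rw [div_sub_div _ _ hn0.ne' (by positivity), div_le_div_iff₀ (by positivity) (by positivity)]
        nlinarith
      linarith
  have h5 := h4 y (by omega)
  have : (0 : ℝ) ≤ 1 / y := by positivity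
  linarith

theorem rough_count : ∃ C : ℝ, 0 < C ∧ ∀ (P J : ℕ), 2 ≤ P → ∀ y : ℕ,
    ((rgh P J y).card : ℝ) ≤ C * (Real.log P / Real.log ((P : ℝ) * 2 ^ J)) * y + P * 2 ^ J := by
  classical
  obtain ⟨C2, hC2, hup⟩ := rough_upper
  refine ⟨(Real.log 4 + 5) * Real.exp (C2 + 6), ?_, ?_⟩
  · have := Real.log_nonneg (show (1 : ℝ) ≤ 4 by norm_num)
    positivity
  intro P J hP y
  have hPZ : P ≤ P * 2 ^ J := Nat.le_mul_of_pos_right P (by positivity)
  have hlP : (0 : ℝ) < Real.log P := Real.log_pos (by exact_mod_cast hP)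
  have hZr : (P : ℝ) * 2 ^ J = ((P * 2 ^ J : ℕ) : ℝ) := by push_cast; ring
  rw [hZr]
  set Z := P * 2 ^ J with hZ
  have hlZ : Real.log P ≤ Real.log Z :=
    Real.log_le_log (by positivity) (by exact_mod_cast hPZ)
  have hlZ0 : 0 < Real.log Z := lt_of_lt_of_le hlP hlZ
  have hl4 := Real.log_nonneg (show (1 : ℝ) ≤ 4 by norm_num)
  rcases Nat.lt_or_ge y Z with hyZ | hyZ
  · have h1 : ((rgh P J y).card : ℝ) ≤ y := by
      have : (rgh P J y).card ≤ y := by
        unfold rgh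
        refine (Finset.card_filter_le _ _).trans ?_
        simp
      exact_mod_cast this
    have h2 : (y : ℝ) ≤ Z := by exact_mod_cast hyZ.le
    have h3 : 0 ≤ (Real.log 4 + 5) * Real.exp (C2 + 6) * (Real.log P / Real.log Z) * y := by
      positivity
    linarith
  · have hy2 : 2 ≤ y := by omega
    have hly : 0 < Real.log y := Real.log_pos (by exact_mod_cast (by omega : 1 < y))
    have h1 := rough_HT P J y hy2
    have h2 := rough_Euler P J y hy2
    have h3 := hup y hy2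
    have h4 := rough_lower P Z hP hPZ
    have h5 : ∑ p ∈ ((Icc 1 y).filter Nat.Prime).filter (fun p => ¬ (P < p ∧ p ≤ P * 2 ^ J)),
        (1 : ℝ) / p + ∑ p ∈ (Ioc P Z).filter Nat.Prime, (1 : ℝ) / p =
        ∑ p ∈ (Icc 1 y).filter Nat.Prime, (1 : ℝ) / p := by
      rw [← Finset.sum_filter_add_sum_filter_not ((Icc 1 y).filter Nat.Prime)
        (fun p => P < p ∧ p ≤ P * 2 ^ J), add_comm]
      congr 1
      apply Finset.sum_congr _ (fun _ _ => rfl)
      ext p
      rw [mem_filter, mem_filter, mem_filter, mem_Ioc, mem_Icc]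
      constructor
      · rintro ⟨⟨h, h'⟩, hp⟩
        exact ⟨⟨⟨hp.one_lt.le, h'.trans hyZ⟩, hp⟩, h, h'⟩
      · rintro ⟨⟨_, hp⟩, h, h'⟩
        exact ⟨⟨h, h'⟩, hp⟩
    have h6 : ∑ m ∈ rgh P J y, (1 : ℝ) / m ≤
        Real.exp (C2 + 6) * (Real.log y * (Real.log P / Real.log Z)) := by
      refine h2.trans ?_
      have e1 : Real.log y * (Real.log P / Real.log Z) =
          Real.exp (Real.log (Real.log y) - Real.log (Real.log Z / Real.log P)) := by
        rw [Real.exp_sub, Real.exp_log hly, Real.exp_log (by positivity)]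
        field_simp
      rw [e1, ← Real.exp_add]
      apply Real.exp_le_exp.2
      linarith
    have h7 : Real.log y * ((rgh P J y).card : ℝ) ≤
        Real.log y * ((Real.log 4 + 5) * Real.exp (C2 + 6) * (Real.log P / Real.log Z) * y) := by
      refine h1.trans ?_
      have : (Real.log 4 + 5) * (y : ℝ) * ∑ m ∈ rgh P J y, (1 : ℝ) / m ≤
          (Real.log 4 + 5) * (y : ℝ) *
            (Real.exp (C2 + 6) * (Real.log y * (Real.log P / Real.log Z))) :=
        mul_le_mul_of_nonneg_left h6 (by positivity)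
      refine this.trans (le_of_eq ?_)
      ring
    have h8 := le_of_mul_le_mul_left h7 hly
    have h9 : (0 : ℝ) ≤ P * 2 ^ J := by positivity
    linarith

end Pool.Agent.H35.W

end

section

/-!
# VK RCnt: counting rough numbers

`rcnt`: `n` coprime to `y#` has no prime factor in `(2, 2^{J+1}]` if `2^{J+1} ≤ y`, so the set is contained in `H35.W.rgh 2 J u`; choose `J` maximal with
`2^{J+1} ≤ √y` (for small `y` the trivial bound `u ≤ C u/log y`): `rough_count`: `≤ C (log 2/log 2^{J+1}) u + 2^{J+1} ≤ C' u/log y + √y`, and `√y ≤ 3 u/log y` for `u ≥ y`.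
`rnear`: partial summation: `∑_{y<n≤N} 1_{rough}/n ≤ A(N)/N + ∑_{y<n<N} A(n)/(n(n+1)) ≤ C/log y + (C/log y)(1 + log N)`, and `(log n)^k ≤ (log N)^k`.
`rzeta`: `∑_{n > y, rough} n^{-σ}`: partial summation: every finite sum up to `N` is `≤ C/log y (1 + ∑_n σ n^{-σ}) ≤ C'/((σ-1) log y)`.
-/

set_option autoImplicit false

namespace Pool.Agent.H97.VK

open Finset

private theorem RCnt_sub (y J u : ℕ) (hJ : 2 * 2 ^ J ≤ y) :
    (Icc 1 u).filter (fun n => n.Coprime (primorial y)) ⊆ Pool.Agent.H35.W.rgh 2 J u := by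
  classical
  intro n hn
  rw [mem_filter] at hn
  unfold Pool.Agent.H35.W.rgh
  rw [mem_filter]
  refine ⟨hn.1, ?_⟩
  intro i hi p hp hpn
  unfold Pool.Agent.H35.W.pb at hp
  rw [mem_filter, mem_Ioc] at hp
  obtain ⟨⟨_, hp2⟩, hpp⟩ := hp
  have h1 : 2 ^ (i + 1) ≤ 2 ^ J := Nat.pow_le_pow_right (by norm_num) (by omega)
  have h2 : p ≤ y := by
    rw [pow_succ] at h1
    omega
  have h3 : p ∣ primorial y := (Nat.Prime.dvd_primorial_iff hpp).2 h2
  have h4 : p ∣ Nat.gcd n (primorial y) := Nat.dvd_gcd hpn h3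
  rw [hn.2] at h4
  exact hpp.one_lt.ne' (Nat.dvd_one.1 h4)

theorem rcnt : ∃ C : ℝ, 1 ≤ C ∧ ∀ y u : ℕ, 2 ≤ y → y ≤ u →
    (((Icc 1 u).filter (fun n => n.Coprime (primorial y))).card : ℝ) ≤ C * u / Real.log y := by
  obtain ⟨C1, hC1, hr⟩ := Pool.Agent.H35.W.rough_count
  refine ⟨4 * C1 + 4, by linarith, ?_⟩
  intro y u hy hyu
  have hy1 : (1 : ℝ) < y := by exact_mod_cast (by omega : 1 < y)
  have hly : 0 < Real.log y := Real.log_pos hy1
  have hu0 : (0 : ℝ) ≤ u := Nat.cast_nonneg _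
  rw [le_div_iff₀ hly]
  have hl2 : Real.log 2 ≤ 1 := by
    have := Real.log_two_lt_d9
    linarith
  rcases lt_or_ge y 16 with h16 | h16
  · have h1 : (((Icc 1 u).filter (fun n => n.Coprime (primorial y))).card : ℝ) ≤ u := by
      have h2 := card_filter_le (Icc 1 u) (fun n => n.Coprime (primorial y))
      rw [Nat.card_Icc] at h2
      exact_mod_cast (by omega)
    have h3 : Real.log y ≤ 4 := by
      have h4 : Real.log y ≤ Real.log ((2 : ℝ) ^ 4) := by
        apply Real.log_le_log (by linarith)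
        have : (y : ℝ) ≤ 16 := by exact_mod_cast h16.le
        linarith
      rw [Real.log_pow] at h4
      push_cast at h4
      linarith
    calc (((Icc 1 u).filter (fun n => n.Coprime (primorial y))).card : ℝ) * Real.log y ≤ u * 4 :=
          mul_le_mul h1 h3 hly.le hu0
      _ ≤ (4 * C1 + 4) * u := by nlinarith
  · set s := Nat.sqrt y with hs
    have hs4 : 4 ≤ s := by
      rw [hs, Nat.le_sqrt]
      omega
    have hss : s * s ≤ y := Nat.sqrt_le y
    have hys : y < (s + 1) * (s + 1) := Nat.lt_succ_sqrt y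
    set e := Nat.log 2 s with he
    have he2 : 2 ≤ e := by
      rw [he]
      exact (Nat.le_log_iff_pow_le (by norm_num) (by omega)).2 (by omega)
    have ht1 : 2 ^ e ≤ s := Nat.pow_log_le_self 2 (by omega)
    have ht2 : s < 2 ^ (e + 1) := Nat.lt_pow_succ_log_self (by norm_num) s
    set t := 2 ^ e with ht
    have ht4 : 4 ≤ t := by
      calc 4 = 2 ^ 2 := by norm_num
        _ ≤ 2 ^ e := Nat.pow_le_pow_right (by norm_num) he2
    rw [pow_succ] at ht2
    have hst : s + 1 ≤ 2 * t := by omega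
    have hyt : y ≤ t ^ 4 := by
      have h1 : (s + 1) * (s + 1) ≤ 2 * t * (2 * t) := Nat.mul_le_mul hst hst
      have h2 : 2 * t * (2 * t) ≤ t ^ 4 := by
        have h3 : 4 ≤ t ^ 2 := by nlinarith
        calc 2 * t * (2 * t) = 4 * t ^ 2 := by ring
          _ ≤ t ^ 2 * t ^ 2 := Nat.mul_le_mul_right _ h3
          _ = t ^ 4 := by ring
      omega
    obtain ⟨J, hJ⟩ : ∃ J, e = J + 1 := ⟨e - 1, by omega⟩
    have hJt : 2 * 2 ^ J = t := by
      rw [ht, hJ, pow_succ]
      ring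
    have hsy : s ≤ y := by nlinarith
    have h1 : (((Icc 1 u).filter (fun n => n.Coprime (primorial y))).card : ℝ) ≤
        ((Pool.Agent.H35.W.rgh 2 J u).card : ℝ) := by
      exact_mod_cast card_le_card (RCnt_sub y J u (by omega))
    have h2 := hr 2 J le_rfl u
    have hJr : ((2 : ℕ) : ℝ) * 2 ^ J = t := by
      rw [← hJt]
      push_cast
      ring
    rw [hJr] at h2
    have htr : (4 : ℝ) ≤ t := by exact_mod_cast ht4
    have hlt : 0 < Real.log t := Real.log_pos (by linarith)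
    have hlyt : Real.log y ≤ 4 * Real.log t := by
      have h3 : Real.log y ≤ Real.log ((t : ℝ) ^ 4) := by
        apply Real.log_le_log (by linarith)
        exact_mod_cast hyt
      rw [Real.log_pow] at h3
      exact_mod_cast h3
    have hlt1 : Real.log t ≤ t := by
      have := Real.log_le_sub_one_of_pos (show (0 : ℝ) < t by linarith)
      linarith
    have hts : (t : ℝ) ≤ s := by exact_mod_cast ht1
    have hssr : (s : ℝ) * s ≤ u := by exact_mod_cast hss.trans hyu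
    have hl20 : 0 ≤ Real.log ((2 : ℕ) : ℝ) := Real.log_natCast_nonneg 2
    have hl2' : Real.log ((2 : ℕ) : ℝ) ≤ 1 := by exact_mod_cast hl2
    have a1 : Real.log ((2 : ℕ) : ℝ) / Real.log t * Real.log y ≤ 4 := by
      rw [div_mul_eq_mul_div, div_le_iff₀ hlt]
      calc Real.log ((2 : ℕ) : ℝ) * Real.log y ≤ 1 * (4 * Real.log t) :=
            mul_le_mul hl2' hlyt hly.le (by norm_num)
        _ = 4 * Real.log t := one_mul _
    have a2 : (t : ℝ) * Real.log y ≤ 4 * u := by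
      calc (t : ℝ) * Real.log y ≤ s * (4 * s) :=
            mul_le_mul hts (by linarith) hly.le (Nat.cast_nonneg _)
        _ = 4 * (s * s) := by ring
        _ ≤ 4 * u := by linarith
    calc (((Icc 1 u).filter (fun n => n.Coprime (primorial y))).card : ℝ) * Real.log y ≤
          (C1 * (Real.log ((2 : ℕ) : ℝ) / Real.log t) * u + t) * Real.log y :=
          mul_le_mul_of_nonneg_right (h1.trans h2) hly.le
      _ = C1 * u * (Real.log ((2 : ℕ) : ℝ) / Real.log t * Real.log y) + t * Real.log y := by ring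
      _ ≤ C1 * u * 4 + 4 * u :=
          add_le_add (mul_le_mul_of_nonneg_left a1 (by positivity)) a2
      _ = (4 * C1 + 4) * u := by ring

/-- partial summation -/
private theorem RCnt_abel (a f A : ℕ → ℝ) (B : ℝ) (y N : ℕ) (hyN : y ≤ N)
    (hA : ∀ n, A (n + 1) = A n + a (n + 1)) (hA0 : 0 ≤ A y)
    (hAB : ∀ n, y ≤ n → A n ≤ B * n) (hf0 : ∀ n, y ≤ n → 0 ≤ f n)
    (hf : ∀ n, y ≤ n → f (n + 1) ≤ f n) :
    ∑ n ∈ Ioc y N, a n * f n ≤ B * (y * f y + ∑ n ∈ Ioc y N, f n) := by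
  have key : ∑ n ∈ Ioc y N, a n * f n - A N * f N + B * N * f N ≤
      B * (y * f y + ∑ n ∈ Ioc y N, f n) := by
    induction N, hyN using Nat.le_induction with
    | base =>
      rw [Ioc_self, sum_empty, sum_empty]
      have := mul_nonneg hA0 (hf0 y le_rfl)
      nlinarith
    | succ N hN ih =>
      have e1 : ∑ n ∈ Ioc y (N + 1), a n * f n =
          ∑ n ∈ Ioc y N, a n * f n + a (N + 1) * f (N + 1) := Finset.sum_Ioc_succ_top hN _
      have e2 : ∑ n ∈ Ioc y (N + 1), f n = ∑ n ∈ Ioc y N, f n + f (N + 1) :=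
        Finset.sum_Ioc_succ_top hN _
      rw [e1, e2, hA N]
      have h1 : A N * (f N - f (N + 1)) ≤ B * N * (f N - f (N + 1)) :=
        mul_le_mul_of_nonneg_right (hAB N hN) (by linarith [hf N hN])
      push_cast
      nlinarith
  have h1 : A N * f N ≤ B * N * f N := mul_le_mul_of_nonneg_right (hAB N hyN) (hf0 N hyN)
  linarith

private theorem RCnt_sum (C : ℝ) (y N : ℕ) (hy : 2 ≤ y) (hyN : y ≤ N)
    (hC : ∀ u : ℕ, y ≤ u →
      (((Icc 1 u).filter (fun n => n.Coprime (primorial y))).card : ℝ) ≤ C * u / Real.log y)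
    (f : ℕ → ℝ) (hf0 : ∀ n, y ≤ n → 0 ≤ f n) (hf : ∀ n, y ≤ n → f (n + 1) ≤ f n) :
    ∑ n ∈ (Ioc y N).filter (fun n => n.Coprime (primorial y)), f n ≤
      C / Real.log y * (y * f y + ∑ n ∈ Ioc y N, f n) := by
  have h := RCnt_abel (fun n => if n.Coprime (primorial y) then 1 else 0) f
    (fun u => (((Icc 1 u).filter (fun n => n.Coprime (primorial y))).card : ℝ))
    (C / Real.log y) y N hyN ?_ (Nat.cast_nonneg _) ?_ hf0 hf
  · refine le_trans (le_of_eq ?_) h
    rw [sum_filter]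
    refine sum_congr rfl fun n _ => ?_
    split_ifs <;> simp
  · intro n
    simp only [card_filter]
    push_cast
    exact Finset.sum_Icc_succ_top (by omega) _
  · intro n hn
    refine (hC n hn).trans (le_of_eq ?_)
    ring

private theorem RCnt_log (n : ℕ) (hn : 1 ≤ n) :
    1 / ((n : ℝ) + 1) ≤ Real.log ((n : ℝ) + 1) - Real.log n := by
  have h0 : (0 : ℝ) < n := by exact_mod_cast hn
  rw [← Real.log_div (by positivity) (by positivity)]
  have h1 := Real.one_sub_inv_le_log_of_pos (show (0 : ℝ) < (n + 1) / n by positivity)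
  have h2 : 1 - ((n + 1 : ℝ) / n)⁻¹ = 1 / ((n : ℝ) + 1) := by
    field_simp
    ring
  linarith

theorem rnear : ∃ C : ℝ, 1 ≤ C ∧ ∀ k y N : ℕ, 2 ≤ y → y ≤ N →
    ∑ n ∈ (Ioc y N).filter (fun n => n.Coprime (primorial y)), Real.log n ^ k / (n : ℝ) ≤
      C * (1 + Real.log N) * Real.log N ^ k / Real.log y := by
  obtain ⟨C, hC1, hC⟩ := rcnt
  refine ⟨C, hC1, ?_⟩
  intro k y N hy hyN
  have hy0 : (0 : ℝ) < y := by exact_mod_cast (by omega : 0 < y)
  have hy1 : (1 : ℝ) < y := by exact_mod_cast (by omega : 1 < y)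
  have hly : 0 < Real.log y := Real.log_pos hy1
  have hN0 : (0 : ℝ) < N := by exact_mod_cast (by omega : 0 < N)
  have hlN : 0 ≤ Real.log N := Real.log_natCast_nonneg N
  have h1 : ∑ n ∈ (Ioc y N).filter (fun n => n.Coprime (primorial y)), Real.log n ^ k / (n : ℝ) ≤
      ∑ n ∈ (Ioc y N).filter (fun n => n.Coprime (primorial y)), Real.log N ^ k * (1 / (n : ℝ)) := by
    refine sum_le_sum fun n hn => ?_
    rw [mem_filter, mem_Ioc] at hn
    have hn0 : (0 : ℝ) < n := by exact_mod_cast (by omega : 0 < n)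
    have h2 : Real.log n ≤ Real.log N := Real.log_le_log hn0 (by exact_mod_cast hn.1.2)
    have h3 : Real.log n ^ k ≤ Real.log N ^ k :=
      pow_le_pow_left₀ (Real.log_natCast_nonneg n) h2 k
    rw [div_eq_mul_one_div]
    exact mul_le_mul_of_nonneg_right h3 (by positivity)
  refine h1.trans ?_
  rw [← mul_sum]
  have h2 := RCnt_sum C y N hy hyN (hC y · hy) (fun n => 1 / (n : ℝ))
    (fun n hn => by positivity) (fun n hn => by
      have hn0 : (0 : ℝ) < n := by exact_mod_cast (by omega : 0 < n)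
      push_cast
      exact one_div_le_one_div_of_le hn0 (by linarith))
  have h3 : ∑ n ∈ Ioc y N, (1 / (n : ℝ)) ≤ Real.log N - Real.log y := by
    induction N, hyN using Nat.le_induction with
    | base => simp
    | succ M hM ih =>
      have hM0 : (0 : ℝ) < M := by exact_mod_cast (by omega : 0 < M)
      have e2 : ∑ n ∈ Ioc y (M + 1), (1 / (n : ℝ)) =
          ∑ n ∈ Ioc y M, (1 / (n : ℝ)) + 1 / ((M + 1 : ℕ) : ℝ) := Finset.sum_Ioc_succ_top hM _
      have ih' : ∑ n ∈ Ioc y M, (1 / (n : ℝ)) ≤ Real.log M - Real.log y := by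
        clear ih h1 h2 e2 hlN hN0
        induction M, hM using Nat.le_induction with
        | base => simp
        | succ M' hM' ih'' =>
          have hM0' : (0 : ℝ) < M' := by exact_mod_cast (by omega : 0 < M')
          have e2 : ∑ n ∈ Ioc y (M' + 1), (1 / (n : ℝ)) =
              ∑ n ∈ Ioc y M', (1 / (n : ℝ)) + 1 / ((M' + 1 : ℕ) : ℝ) :=
            Finset.sum_Ioc_succ_top hM' _
          rw [e2]
          have := RCnt_log M' (by omega)
          have := ih'' hM0'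
          push_cast
          linarith
      rw [e2]
      have := RCnt_log M (by omega)
      push_cast
      linarith
  have e3 : (y : ℝ) * (1 / y) = 1 := by field_simp
  rw [e3] at h2
  have hCl : 0 ≤ C / Real.log y := by positivity
  calc Real.log N ^ k * ∑ n ∈ (Ioc y N).filter (fun n => n.Coprime (primorial y)), (1 / (n : ℝ)) ≤
        Real.log N ^ k * (C / Real.log y * (1 + Real.log N)) := by
        refine mul_le_mul_of_nonneg_left (h2.trans ?_) (by positivity)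
        exact mul_le_mul_of_nonneg_left (by linarith) hCl
    _ = _ := by ring

private theorem RCnt_pow (σ : ℝ) (h1 : 1 < σ) (n : ℕ) (hn : 1 ≤ n) :
    (σ - 1) * ((n : ℝ) + 1) ^ (-σ) ≤ (n : ℝ) ^ (1 - σ) - ((n : ℝ) + 1) ^ (1 - σ) := by
  have h0 : (0 : ℝ) < n := by exact_mod_cast hn
  have hn1 : (0 : ℝ) < (n : ℝ) + 1 := by linarith
  have e1 : (n : ℝ) ^ (1 - σ) = ((n : ℝ) + 1) ^ (1 - σ) *
      Real.exp ((σ - 1) * (Real.log ((n : ℝ) + 1) - Real.log n)) := by
    rw [Real.rpow_def_of_pos h0, Real.rpow_def_of_pos hn1, ← Real.exp_add]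
    congr 1
    ring
  have e2 : ((n : ℝ) + 1) ^ (-σ) = ((n : ℝ) + 1) ^ (1 - σ) * (1 / ((n : ℝ) + 1)) := by
    rw [one_div, ← Real.rpow_neg_one ((n : ℝ) + 1), ← Real.rpow_add hn1]
    congr 1
    ring
  have h2 := RCnt_log n hn
  have h3 := Real.add_one_le_exp ((σ - 1) * (Real.log ((n : ℝ) + 1) - Real.log n))
  have h4 : (σ - 1) * (1 / ((n : ℝ) + 1)) ≤ (σ - 1) * (Real.log ((n : ℝ) + 1) - Real.log n) :=
    mul_le_mul_of_nonneg_left h2 (by linarith)
  have hp : 0 < ((n : ℝ) + 1) ^ (1 - σ) := Real.rpow_pos_of_pos hn1 _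
  rw [e1, e2]
  nlinarith

theorem rzeta : ∃ C : ℝ, 1 ≤ C ∧ ∀ (y N : ℕ) (σ : ℝ), 2 ≤ y → y ≤ N → 1 < σ → σ ≤ 2 →
    ∑ n ∈ (Ioc y N).filter (fun n => n.Coprime (primorial y)), (n : ℝ) ^ (-σ) ≤
      C / ((σ - 1) * Real.log y) := by
  obtain ⟨C, hC1, hC⟩ := rcnt
  refine ⟨2 * C, by linarith, ?_⟩
  intro y N σ hy hyN hσ1 hσ2
  have hy0 : (0 : ℝ) < y := by exact_mod_cast (by omega : 0 < y)
  have hy1 : (1 : ℝ) < y := by exact_mod_cast (by omega : 1 < y)
  have hly : 0 < Real.log y := Real.log_pos hy1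
  have hs : 0 < σ - 1 := by linarith
  have h2 := RCnt_sum C y N hy hyN (hC y · hy) (fun n => (n : ℝ) ^ (-σ))
    (fun n hn => Real.rpow_nonneg (Nat.cast_nonneg _) _) (fun n hn => by
      have hn0 : (0 : ℝ) < n := by exact_mod_cast (by omega : 0 < n)
      push_cast
      exact Real.rpow_le_rpow_of_nonpos hn0 (by linarith) (by linarith))
  have h3 : (σ - 1) * ∑ n ∈ Ioc y N, (n : ℝ) ^ (-σ) ≤ (y : ℝ) ^ (1 - σ) - (N : ℝ) ^ (1 - σ) := by
    clear h2
    induction N, hyN using Nat.le_induction with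
    | base => simp
    | succ M hM ih =>
      have e2 : ∑ n ∈ Ioc y (M + 1), (n : ℝ) ^ (-σ) =
          ∑ n ∈ Ioc y M, (n : ℝ) ^ (-σ) + ((M + 1 : ℕ) : ℝ) ^ (-σ) :=
        Finset.sum_Ioc_succ_top hM _
      rw [e2, mul_add]
      have := RCnt_pow σ hσ1 M (by omega)
      push_cast
      linarith
  have hyp : (y : ℝ) ^ (1 - σ) ≤ 1 := Real.rpow_le_one_of_one_le_of_nonpos hy1.le (by linarith)
  have hNp : 0 ≤ (N : ℝ) ^ (1 - σ) := Real.rpow_nonneg (Nat.cast_nonneg _) _
  have e1 : (y : ℝ) * (y : ℝ) ^ (-σ) = (y : ℝ) ^ (1 - σ) := by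
    rw [← Real.rpow_one_add' hy0.le (by linarith)]
    congr 1
  rw [e1] at h2
  have h4 : ∑ n ∈ Ioc y N, (n : ℝ) ^ (-σ) ≤ 1 / (σ - 1) := by
    rw [le_div_iff₀ hs]
    linarith
  have h5 : 1 ≤ 1 / (σ - 1) := by
    rw [le_div_iff₀ hs]
    linarith
  have hCl : 0 ≤ C / Real.log y := by positivity
  refine h2.trans ?_
  calc C / Real.log y * ((y : ℝ) ^ (1 - σ) + ∑ n ∈ Ioc y N, (n : ℝ) ^ (-σ)) ≤
        C / Real.log y * (2 * (1 / (σ - 1))) :=
        mul_le_mul_of_nonneg_left (by linarith) hCl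
    _ = 2 * C / ((σ - 1) * Real.log y) := by
        field_simp

end Pool.Agent.H97.VK

end

section

/-!
# VKT (H97/VK of helper97 with the parameter `T0.t` in place of `9/10`, `t1` in place of `19/20`) Up: upper bounds for the sieved `L`-functions and their derivatives, and for the sieved zeta function

`lk_up`.  `s = σ + iτ`, `t = -τ/(2π)`: `n^{-s} = n^{-σ} ee(t log n)`.  `rtw (k+2) B` gives `D`; `N = ⌈exp(D LL L9)⌉₊`.
The series `Lk (qm x d) (ch x χ) k s` (summable, `Lk_summable`) is the limit of its partial sums; terms: `n = 1`: `≤ 1`; `1 < n ≤ y`: zero (`ch_apply`, `cop_gt`);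
`y < n ≤ N`: `≤ ∑_{rough} (log n)^k/n ≤ C (1+log N)(log N)^k/log y ≤ C' L9^k LL^{k+1}` (`rnear`, `log N ≤ D LL L9 + 1`, `log y ≥ L9/2`);
`n > N`: `tail_abel k` with `f n = ch(n) ee(t log n)`, `δ = L^{-k-2}`: `≤ C L^{-k-2} (4L)^{k+1} ≤ 1`.
`zy_up`: terms `n = 1`, then `rzeta`: `Lk (qm x d) 1 0 σ` is at most `1 + C/((σ-1) log y)`; a number coprime to `qm x d` is coprime to `y#`.
-/

set_option autoImplicit false

namespace Pool.Agent.H76.VKT

open Finset
open Pool.Agent.H91.EHA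
open Pool.Agent.H97.VK (tail_abel rnear rzeta)

private theorem Up_lseries (f : ℕ → ℂ) (s : ℂ) (hs : LSeriesSummable f s) (b : ℝ) (N0 : ℕ)
    (h : ∀ M : ℕ, N0 ≤ M → ‖∑ n ∈ Icc 1 M, LSeries.term f s n‖ ≤ b) : ‖LSeries f s‖ ≤ b := by
  have h1 : Filter.Tendsto (fun n : ℕ => ∑ i ∈ range n, LSeries.term f s i) Filter.atTop
      (nhds (LSeries f s)) := hs.hasSum.tendsto_sum_nat
  refine le_of_tendsto h1.norm ?_
  refine Filter.eventually_atTop.2 ⟨N0 + 1, fun M' hM' => ?_⟩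
  obtain ⟨M, rfl⟩ : ∃ M, M' = M + 1 := ⟨M' - 1, by omega⟩
  have e : Ico (0 + 1) (M + 1) = Icc 1 M := by
    ext n
    simp only [mem_Ico, mem_Icc]
    omega
  rw [Finset.range_eq_Ico, Finset.sum_eq_sum_Ico_succ_bot (Nat.succ_pos M), LSeries.term_zero,
    zero_add, e]
  exact h M (by omega)

private theorem Up_cpow (n : ℕ) (hn : 1 ≤ n) (s : ℂ) :
    ((n : ℂ) ^ s)⁻¹ = (((n : ℝ) ^ (-s.re) : ℝ) : ℂ) *
      Pool.Agent.H91.PK.ee (-s.im / (2 * Real.pi) * Real.log n) := by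
  have hn0 : (n : ℂ) ≠ 0 := by exact_mod_cast (show n ≠ 0 by omega)
  have hnr : (0 : ℝ) < n := by exact_mod_cast hn
  have hpi : (Real.pi : ℂ) ≠ 0 := by exact_mod_cast Real.pi_ne_zero
  rw [← Complex.cpow_neg, Complex.cpow_def_of_ne_zero hn0, Real.rpow_def_of_pos hnr,
    Complex.ofReal_exp, Pool.Agent.H91.PK.ee, ← Complex.exp_add, ← Complex.natCast_log]
  congr 1
  push_cast
  have h : s = (s.re : ℂ) + (s.im : ℂ) * Complex.I := (Complex.re_add_im s).symm
  field_simp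
  conv_lhs => rw [h]
  ring

private theorem Up_term (k n : ℕ) (hn : 1 ≤ n) (c s : ℂ) (f : ℕ → ℂ)
    (hf : f n = ((Real.log n : ℝ) : ℂ) ^ k * c) :
    LSeries.term f s n = (c * Pool.Agent.H91.PK.ee (-s.im / (2 * Real.pi) * Real.log n)) *
      ((Real.log n ^ k * (n : ℝ) ^ (-s.re) : ℝ) : ℂ) := by
  rw [LSeries.term_of_ne_zero (by omega), hf, div_eq_mul_inv, Up_cpow n hn s]
  push_cast
  ring

private theorem Up_rpow (n : ℕ) (hn : 1 ≤ n) (σ : ℝ) (hσ : 1 ≤ σ) :
    (n : ℝ) ^ (-σ) ≤ 1 / (n : ℝ) := by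
  have hn1 : (1 : ℝ) ≤ n := by exact_mod_cast hn
  have h : (n : ℝ) ^ (-σ) ≤ (n : ℝ) ^ (-1 : ℝ) := Real.rpow_le_rpow_of_exponent_le hn1 (by linarith only [hσ])
  rw [Real.rpow_neg_one] at h
  rw [one_div]
  exact h

/-- a sum over rough numbers and `1` -/
private theorem Up_split (y N : ℕ) (hy : 2 ≤ y) (hyN : y ≤ N) (F : ℕ → ℝ) (h1 : F 1 ≤ 1)
    (h0 : ∀ n, 1 ≤ n → ¬ n.Coprime (primorial y) → F n = 0) :
    ∑ n ∈ Icc 1 N, F n ≤ 1 + ∑ n ∈ (Ioc y N).filter (fun n => n.Coprime (primorial y)), F n := by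
  have hd : Disjoint ({1} : Finset ℕ) ((Ioc y N).filter (fun n => n.Coprime (primorial y))) := by
    rw [disjoint_left]
    intro n hn1 hn2
    rw [mem_singleton] at hn1
    rw [mem_filter, mem_Ioc] at hn2
    omega
  have h2 : ∑ n ∈ Icc 1 N, F n =
      ∑ n ∈ ({1} : Finset ℕ) ∪ (Ioc y N).filter (fun n => n.Coprime (primorial y)), F n := by
    symm
    refine Finset.sum_subset ?_ ?_
    · intro n hn
      rw [mem_union, mem_singleton, mem_filter, mem_Ioc] at hn
      rw [mem_Icc]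
      omega
    · intro n hn hn2
      rw [mem_Icc] at hn
      rw [mem_union, mem_singleton, mem_filter, mem_Ioc] at hn2
      push Not at hn2
      refine h0 n hn.1 fun hc => ?_
      rcases cop_gt y n hy hc with h | h
      · exact hn2.1 h
      · exact hn2.2 ⟨h, hn.2⟩ hc
  rw [h2, Finset.sum_union hd, Finset.sum_singleton]
  linarith

theorem lk_up_h [T0] (h_rtw : rtw_P)  (k B : ℕ) : ∃ C : ℝ, 1 ≤ C ∧ ∃ K' x0 : ℕ, ∀ x : ℕ, x0 ≤ x → ∀ (d : ℕ) (χ : DirichletCharacter ℂ d) (s : ℂ),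
    1 ≤ d → (d : ℝ) ≤ Real.log x ^ B → 1 + 1 / (4 * Real.log x) ≤ s.re → s.re ≤ 2 →
    Real.log x ^ K' ≤ |s.im| → |s.im| ≤ 6 * (x : ℝ) ^ (3 : ℕ) →
    ‖Lk (qm x d) (ch x χ) k s‖ ≤ C * L9 x ^ k * LL x ^ (k + 1) := by
  obtain ⟨K0, D, x1, hx1⟩ := h_rtw (k + 2) B
  obtain ⟨C1, hC1, hr⟩ := rnear
  obtain ⟨C2, hC2, ht⟩ := tail_abel k
  obtain ⟨x2, hx2⟩ := yx_ev
  have ev3 : ∀ᶠ x : ℕ in Filter.atTop, (7 : ℝ) ≤ Real.log x :=
    (Real.tendsto_log_atTop.comp tendsto_natCast_atTop_atTop).eventually_ge_atTop 7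
  obtain ⟨x3, hx3⟩ := Filter.eventually_atTop.1 ev3
  refine ⟨1 + 2 * C1 * ((D : ℝ) + 3) ^ (k + 1) + C2 * 4 ^ (k + 1), ?_, K0 + 1,
    max x1 (max x2 x3), ?_⟩
  · have h1 : 0 ≤ 2 * C1 * ((D : ℝ) + 3) ^ (k + 1) := by positivity
    have h2 : 0 ≤ C2 * (4 : ℝ) ^ (k + 1) := by positivity
    linarith
  intro x hx d χ s hd hdB hs1 hs2 hτ1 hτ2
  have hxa : x1 ≤ x := (le_max_left _ _).trans hx
  have hxb : x2 ≤ x := (le_max_left _ _).trans ((le_max_right _ _).trans hx)
  have hxc : x3 ≤ x := (le_max_right _ _).trans ((le_max_right _ _).trans hx)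
  obtain ⟨hy3, hly1, hly2, hLL, hL9, hL1, hyx⟩ := hx2 x hxb
  have hL7 := hx3 x hxc
  set L := Real.log x with hLdef
  set y := Yx x with hydef
  set σ := s.re with hσdef
  have hL0 : 0 < L := by linarith only [hL7]
  have hσ1 : 1 < σ := by
    have : 0 < 1 / (4 * L) := by positivity
    linarith only [hs1, this]
  have hσ4 : 1 / (σ - 1) ≤ 4 * L := by
    rw [div_le_iff₀ (by linarith)]
    have h1 : 1 / (4 * L) ≤ σ - 1 := by linarith only [hs1]
    rw [div_le_iff₀ (by positivity)] at h1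
    linarith only [h1]
  set t : ℝ := -s.im / (2 * Real.pi) with htdef
  have hpi3 := Real.pi_gt_three
  have hpi4 := Real.pi_lt_d2
  have hta : |t| = |s.im| / (2 * Real.pi) := by
    rw [htdef, abs_div, abs_neg, abs_of_pos (show (0 : ℝ) < 2 * Real.pi by positivity)]
  have ht1 : L ^ K0 ≤ |t| := by
    rw [hta, le_div_iff₀ (by positivity)]
    have h1 : L ^ (K0 + 1) ≤ |s.im| := hτ1
    rw [pow_succ] at h1
    have h2 : L ^ K0 * (2 * Real.pi) ≤ L ^ K0 * L :=
      mul_le_mul_of_nonneg_left (by linarith only [hL7, hpi3, hpi4]) (by positivity)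
    linarith only [h1, h2]
  have ht2 : |t| ≤ (x : ℝ) ^ (3 : ℕ) := by
    rw [hta, div_le_iff₀ (by positivity)]
    have h2 : (0 : ℝ) ≤ (x : ℝ) ^ (3 : ℕ) := by positivity
    nlinarith only [hτ2, hpi3, h2]
  -- the cut-off
  set E : ℝ := ((D : ℝ) + 1) * (LL x * L9 x) with hEdef
  have hP1 : 1 ≤ LL x * L9 x := by nlinarith only [hLL, hL9]
  have hD0 : (0 : ℝ) ≤ D := Nat.cast_nonneg D
  have hE0 : 0 ≤ E := by positivity
  have hE9 : L9 x ≤ E := by
    have h1 : L9 x ≤ LL x * L9 x := by nlinarith only [hLL, hL9]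
    have h2 : 1 * (LL x * L9 x) ≤ ((D : ℝ) + 1) * (LL x * L9 x) :=
      mul_le_mul_of_nonneg_right (by linarith only) (by linarith only [hpi3, hpi4, hP1])
    linarith only [h1, h2]
  set N : ℕ := ⌈Real.exp E⌉₊ with hNdef
  have hNE : Real.exp E ≤ N := Nat.le_ceil _
  have hN1r : (1 : ℝ) ≤ N := (Real.one_le_exp hE0).trans hNE
  have hN1 : 1 ≤ N := by exact_mod_cast hN1r
  have hyN : y ≤ N := by
    have h1 : (y : ℝ) ≤ Real.exp (L9 x) := by
      rw [hydef]
      unfold Yx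
      exact Nat.floor_le (Real.exp_pos _).le
    have h2 : (y : ℝ) ≤ N := h1.trans ((Real.exp_le_exp.2 hE9).trans hNE)
    exact_mod_cast h2
  have hlogN : Real.log N ≤ E + 1 := by
    have h1 : (N : ℝ) < Real.exp E + 1 := Nat.ceil_lt_add_one (Real.exp_pos _).le
    have h2 : (N : ℝ) ≤ Real.exp (E + 1) := by
      rw [Real.exp_add]
      have h3 : (2 : ℝ) ≤ Real.exp 1 := by
        have := Real.add_one_le_exp (1 : ℝ)
        linarith only [this]
      have h4 : (1 : ℝ) ≤ Real.exp E := Real.one_le_exp hE0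
      nlinarith only [h1, h4, hpi3, hpi4, hN1r, h3]
    calc Real.log N ≤ Real.log (Real.exp (E + 1)) := Real.log_le_log (by linarith only [hpi3, hpi4, hN1r]) h2
      _ = E + 1 := Real.log_exp _
  have hlogN0 : 0 ≤ Real.log N := Real.log_nonneg hN1r
  set f : ℕ → ℂ := fun n => ((Real.log n : ℝ) : ℂ) ^ k * ch x χ (n : ZMod (qm x d)) with hfdef
  have hterm : ∀ n : ℕ, 1 ≤ n → LSeries.term f s n =
      (ch x χ (n : ZMod (qm x d)) * Pool.Agent.H91.PK.ee (t * Real.log n)) *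
        ((Real.log n ^ k * (n : ℝ) ^ (-σ) : ℝ) : ℂ) := fun n hn => Up_term k n hn _ s f rfl
  unfold Lk
  refine Up_lseries f s (Lk_summable _ _ k s hσ1) _ N fun M hM => ?_
  -- first part
  have hsplit : ∑ n ∈ Icc 1 M, LSeries.term f s n =
      ∑ n ∈ Icc 1 N, LSeries.term f s n + ∑ n ∈ Ioc N M, LSeries.term f s n := by
    rw [← Finset.sum_union]
    · congr 1
      ext n
      simp only [mem_union, mem_Icc, mem_Ioc]
      omega
    · rw [disjoint_left]
      intro n h1 h2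
      rw [mem_Icc] at h1
      rw [mem_Ioc] at h2
      omega
  rw [hsplit]
  have hpart1 : ‖∑ n ∈ Icc 1 N, LSeries.term f s n‖ ≤
      1 + 2 * C1 * ((D : ℝ) + 3) ^ (k + 1) * (L9 x ^ k * LL x ^ (k + 1)) := by
    refine (norm_sum_le _ _).trans ?_
    have hn1 : ∀ n : ℕ, 1 ≤ n → ‖LSeries.term f s n‖ =
        ‖ch x χ (n : ZMod (qm x d))‖ * (Real.log n ^ k * (n : ℝ) ^ (-σ)) := by
      intro n hn
      have h1 : (0 : ℝ) ≤ Real.log n := Real.log_natCast_nonneg n
      have h2 : (0 : ℝ) ≤ (n : ℝ) ^ (-σ) := Real.rpow_nonneg (Nat.cast_nonneg _) _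
      rw [hterm n hn, norm_mul, norm_mul, Pool.Agent.H91.PK.LSa_norm_ee, mul_one, Complex.norm_real,
        Real.norm_eq_abs, abs_of_nonneg (by positivity)]
    have hle : ∀ n : ℕ, 1 ≤ n → ‖LSeries.term f s n‖ ≤ Real.log n ^ k / (n : ℝ) := by
      intro n hn
      have h1 : (0 : ℝ) ≤ Real.log n := Real.log_natCast_nonneg n
      have h2 : (0 : ℝ) ≤ (n : ℝ) ^ (-σ) := Real.rpow_nonneg (Nat.cast_nonneg _) _
      rw [hn1 n hn]
      calc ‖ch x χ (n : ZMod (qm x d))‖ * (Real.log n ^ k * (n : ℝ) ^ (-σ))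
          ≤ 1 * (Real.log n ^ k * (n : ℝ) ^ (-σ)) :=
            mul_le_mul_of_nonneg_right (ch_norm_le x χ _) (by positivity)
        _ ≤ Real.log n ^ k * (1 / (n : ℝ)) := by
            rw [one_mul]
            exact mul_le_mul_of_nonneg_left (Up_rpow n hn σ hσ1.le) (by positivity)
        _ = Real.log n ^ k / (n : ℝ) := by ring
    refine (Up_split y N (by omega) hyN _ ?_ ?_).trans ?_
    · refine (hle 1 le_rfl).trans ?_
      rw [Nat.cast_one, Real.log_one, div_one]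
      exact pow_le_one₀ le_rfl zero_le_one
    · intro n hn hc
      rw [hn1 n hn, ch_apply x hd χ n, if_neg hc, norm_zero, zero_mul]
    · have h3 : ∑ n ∈ (Ioc y N).filter (fun n => n.Coprime (primorial y)),
          ‖LSeries.term f s n‖ ≤
          ∑ n ∈ (Ioc y N).filter (fun n => n.Coprime (primorial y)), Real.log n ^ k / (n : ℝ) := by
        refine Finset.sum_le_sum fun n hn => ?_
        rw [mem_filter, mem_Ioc] at hn
        exact hle n (by omega)
      have h4 := hr k y N (by omega) hyN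
      have h5 : C1 * (1 + Real.log N) * Real.log N ^ k / Real.log y ≤
          2 * C1 * ((D : ℝ) + 3) ^ (k + 1) * (L9 x ^ k * LL x ^ (k + 1)) := by
        have h6 : 1 + Real.log N ≤ ((D : ℝ) + 3) * (LL x * L9 x) := by
          rw [hEdef] at hlogN
          nlinarith only [hP1, hlogN]
        have h7 : Real.log N ≤ ((D : ℝ) + 3) * (LL x * L9 x) := by linarith only [hpi3, hpi4, hP1, hlogN]
        have hly0 : 0 < Real.log y := by linarith only [hL9, hly2, hpi3, hpi4]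
        rw [div_le_iff₀ hly0]
        calc C1 * (1 + Real.log N) * Real.log N ^ k
            ≤ C1 * (((D : ℝ) + 3) * (LL x * L9 x)) * (((D : ℝ) + 3) * (LL x * L9 x)) ^ k := by
              gcongr
          _ = 2 * C1 * ((D : ℝ) + 3) ^ (k + 1) * (L9 x ^ k * LL x ^ (k + 1)) * (L9 x / 2) := by
              rw [mul_pow, mul_pow]
              ring
          _ ≤ 2 * C1 * ((D : ℝ) + 3) ^ (k + 1) * (L9 x ^ k * LL x ^ (k + 1)) * Real.log y := by
              refine mul_le_mul_of_nonneg_left hly2 ?_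
              positivity
      linarith only [h3, h4, h5]
  have hpart2 : ‖∑ n ∈ Ioc N M, LSeries.term f s n‖ ≤ C2 * 4 ^ (k + 1) := by
    have h1 : ∑ n ∈ Ioc N M, LSeries.term f s n = ∑ n ∈ Ioc N M,
        (ch x χ (n : ZMod (qm x d)) * Pool.Agent.H91.PK.ee (t * Real.log n)) *
        ((Real.log n ^ k * (n : ℝ) ^ (-σ) : ℝ) : ℂ) := by
      refine Finset.sum_congr rfl fun n hn => ?_
      rw [mem_Ioc] at hn
      exact hterm n (by omega)
    rw [h1]
    refine (ht (fun n => ch x χ (n : ZMod (qm x d)) * Pool.Agent.H91.PK.ee (t * Real.log n))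
      (1 / L ^ (k + 2)) σ N (by positivity) hσ1 hs2 hN1 ?_ M hM).trans ?_
    · intro u hu
      have h2 : (D : ℝ) * (LL x * L9 x) ≤ Real.log u := by
        have h3 : Real.exp E ≤ u := hNE.trans (by exact_mod_cast hu)
        have h4 : E ≤ Real.log u := by
          rw [← Real.log_exp E]
          exact Real.log_le_log (Real.exp_pos _) h3
        rw [hEdef] at h4
        nlinarith only [hpi3, hpi4, hP1, h4]
      have h5 := hx1 x hxa d χ t u hd hdB ht1 ht2 h2
      rw [one_div, mul_comm, ← div_eq_mul_inv]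
      exact h5
    · calc C2 * (1 / L ^ (k + 2)) * (1 / (σ - 1)) ^ (k + 1)
          ≤ C2 * (1 / L ^ (k + 2)) * (4 * L) ^ (k + 1) := by
            have h6 : 0 ≤ 1 / (σ - 1) := by
              have : 0 < σ - 1 := by linarith only [hσ1]
              positivity
            gcongr
        _ = C2 * 4 ^ (k + 1) * (1 / L) := by
            rw [mul_pow, show k + 2 = (k + 1) + 1 by ring, pow_succ L (k + 1)]
            field_simp
        _ ≤ C2 * 4 ^ (k + 1) * 1 := by
            refine mul_le_mul_of_nonneg_left ?_ (by positivity)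
            rw [div_le_one hL0]
            linarith only [hL7, hpi3, hpi4]
        _ = _ := mul_one _
  have hX1 : 1 ≤ L9 x ^ k * LL x ^ (k + 1) := by
    have h1 : 1 ≤ L9 x ^ k := one_le_pow₀ hL9
    have h2 : 1 ≤ LL x ^ (k + 1) := one_le_pow₀ hLL
    nlinarith only [h1, h2, hpi3, hpi4]
  have hC24 : 0 ≤ C2 * (4 : ℝ) ^ (k + 1) := by positivity
  calc ‖∑ n ∈ Icc 1 N, LSeries.term f s n + ∑ n ∈ Ioc N M, LSeries.term f s n‖
      ≤ ‖∑ n ∈ Icc 1 N, LSeries.term f s n‖ + ‖∑ n ∈ Ioc N M, LSeries.term f s n‖ :=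
        norm_add_le _ _
    _ ≤ (1 + 2 * C1 * ((D : ℝ) + 3) ^ (k + 1) * (L9 x ^ k * LL x ^ (k + 1))) +
        C2 * 4 ^ (k + 1) := add_le_add hpart1 hpart2
    _ ≤ (1 + 2 * C1 * ((D : ℝ) + 3) ^ (k + 1) + C2 * 4 ^ (k + 1)) *
        (L9 x ^ k * LL x ^ (k + 1)) := by nlinarith only [hX1, hpi3, hpi4, hC24]
    _ = _ := by ring

theorem zy_up [T0] : ∃ C : ℝ, 1 ≤ C ∧ ∃ x0 : ℕ, ∀ x : ℕ, x0 ≤ x → ∀ (d : ℕ) (s : ℂ), 1 ≤ d → 1 < s.re → s.re ≤ 2 →
    ‖Lk (qm x d) 1 0 s‖ ≤ C * (1 + 1 / ((s.re - 1) * L9 x)) := by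
  obtain ⟨C1, hC1, hr⟩ := rzeta
  obtain ⟨x2, hx2⟩ := yx_ev
  refine ⟨2 * C1, by linarith, x2, ?_⟩
  intro x hx d s hd hs1 hs2
  obtain ⟨hy3, hly1, hly2, hLL, hL9, hL1, hyx⟩ := hx2 x hx
  set y := Yx x with hydef
  set σ := s.re with hσdef
  set f : ℕ → ℂ := fun n => ((Real.log n : ℝ) : ℂ) ^ 0 *
    (1 : DirichletCharacter ℂ (qm x d)) (n : ZMod (qm x d)) with hfdef
  unfold Lk
  refine Up_lseries f s (Lk_summable _ _ 0 s hs1) _ y fun M hM => ?_
  refine (norm_sum_le _ _).trans ?_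
  have hn1 : ∀ n : ℕ, 1 ≤ n → ‖LSeries.term f s n‖ =
      ‖(1 : DirichletCharacter ℂ (qm x d)) (n : ZMod (qm x d))‖ * (n : ℝ) ^ (-σ) := by
    intro n hn
    have h2 : (0 : ℝ) ≤ (n : ℝ) ^ (-σ) := Real.rpow_nonneg (Nat.cast_nonneg _) _
    rw [Up_term 0 n hn _ s f rfl, norm_mul, norm_mul, Pool.Agent.H91.PK.LSa_norm_ee, mul_one,
      Complex.norm_real, Real.norm_eq_abs, pow_zero, one_mul, abs_of_nonneg h2]
  have hle : ∀ n : ℕ, 1 ≤ n → ‖LSeries.term f s n‖ ≤ (n : ℝ) ^ (-σ) := by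
    intro n hn
    have h2 : (0 : ℝ) ≤ (n : ℝ) ^ (-σ) := Real.rpow_nonneg (Nat.cast_nonneg _) _
    rw [hn1 n hn]
    calc _ ≤ 1 * (n : ℝ) ^ (-σ) :=
          mul_le_mul_of_nonneg_right (DirichletCharacter.norm_le_one _ _) h2
      _ = _ := one_mul _
  refine (Up_split y M (by omega) hM _ ?_ ?_).trans ?_
  · refine (hle 1 le_rfl).trans ?_
    rw [Nat.cast_one, Real.one_rpow]
  · intro n hn hc
    have h3 : ¬ IsUnit ((n : ℕ) : ZMod (qm x d)) := by
      rw [ZMod.isUnit_iff_coprime]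
      intro h4
      apply hc
      unfold qm at h4
      exact Nat.Coprime.coprime_mul_left_right h4
    rw [hn1 n hn, MulChar.map_nonunit _ h3, norm_zero, zero_mul]
  · have h3 : ∑ n ∈ (Ioc y M).filter (fun n => n.Coprime (primorial y)),
        ‖LSeries.term f s n‖ ≤
        ∑ n ∈ (Ioc y M).filter (fun n => n.Coprime (primorial y)), (n : ℝ) ^ (-σ) := by
      refine Finset.sum_le_sum fun n hn => ?_
      rw [mem_filter, mem_Ioc] at hn
      exact hle n (by omega)
    have h4 := hr y M σ (by omega) hM hs1 hs2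
    have hσ0 : 0 < σ - 1 := by linarith only [hs1]
    have hly0 : 0 < Real.log y := by linarith only [hL9, hly2]
    have h5 : C1 / ((σ - 1) * Real.log y) ≤ 2 * C1 * (1 / ((σ - 1) * L9 x)) := by
      rw [mul_one_div, div_le_div_iff₀ (by positivity) (by positivity)]
      have h6 : C1 * ((σ - 1) * L9 x) ≤ C1 * ((σ - 1) * (2 * Real.log y)) := by
        refine mul_le_mul_of_nonneg_left (mul_le_mul_of_nonneg_left ?_ hσ0.le) (by linarith only [hC1])
        linarith only [hly2]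
      nlinarith only [h6]
    nlinarith only [hC1, h3, h4, h5]

end Pool.Agent.H76.VKT

end
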