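import Pool.Agent.H43.PJ.M11
import Pool.Agent.H43.PJ.M18

/-! The parts of this file: H97.VK.Cls, H97.VK.Rec, H97.VK.Itr. -/

section

/-!
# VK Cls: the well conditioned solutions

`cls_count`: in `SC s (inj k p M) (pv k) A_b`, `A_b = {n ≤ M : n ≡ b mod p}`, write `u_i = b + p u'_i`, `0 ≤ u'_i ≤ M / p` (natural division).  By
the binomial theorem the system `∑ x^j + ∑ u^j = ∑ y^j + ∑ v^j` (`1 ≤ j ≤ k`) is equivalent to the same system for the variables minus `b` (both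
sides have the same number of variables): `∑ (x_i-b)^j - ∑ (y_i-b)^j = p^j (∑ v'_i^j - ∑ u'_i^j)`.  So for each `y` (`≤ M^k` choices) the
tuple `x` satisfies `lin_count` with `c_j = ∑ (y_i - b)^j`: `≤ k! p^{k(k-1)/2}` choices; for given `x, y` the number of `(u', v')` is at most the number of
solutions of an inhomogeneous system, `≤ JV k s (M/p + 1)` by `shift_le` (and the translation `u' ↦ u' + 1`; again the binomial theorem).
`wc_count`: `sc_class` and `cls_count`: `p^{2s-1} · p` classes.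
-/

set_option autoImplicit false

namespace Pool.Agent.H97.VK

open Finset

private theorem Cls_key (j : ℕ) (a : ℤ) {m : ℕ} (z : Fin m → ℤ) :
    ∑ i, (z i + a) ^ j =
      ∑ t ∈ range (j + 1), (∑ i, z i ^ t) * (a ^ (j - t) * (j.choose t : ℤ)) := by
  simp_rw [add_pow, sum_mul]
  rw [sum_comm]
  exact sum_congr rfl fun t _ => sum_congr rfl fun i _ => by ring

/-- translation invariance -/
private theorem Cls_shift {r s k : ℕ} (x y : Fin r → ℤ) (u v : Fin s → ℤ) (a : ℤ)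
    (h : ∀ j, 1 ≤ j → j ≤ k → ∑ i, x i ^ j + ∑ i, u i ^ j = ∑ i, y i ^ j + ∑ i, v i ^ j)
    (j : ℕ) (hj : j ≤ k) :
    ∑ i, (x i + a) ^ j + ∑ i, (u i + a) ^ j = ∑ i, (y i + a) ^ j + ∑ i, (v i + a) ^ j := by
  rw [Cls_key j a x, Cls_key j a u, Cls_key j a y, Cls_key j a v, ← sum_add_distrib,
    ← sum_add_distrib]
  refine sum_congr rfl fun t ht => ?_
  rw [← add_mul, ← add_mul]
  congr 1
  rcases Nat.eq_zero_or_pos t with h0 | h0
  · subst h0
    simp
  · exact h t h0 (by have := mem_range.1 ht; omega)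

private theorem Cls_pv {k r s : ℕ} {x y : Fin r → ℕ} {u v : Fin s → ℕ}
    (h : ∀ j, pv k x j + pv k u j = pv k y j + pv k v j) (j : ℕ) (h1 : 1 ≤ j) (hj : j ≤ k) :
    ∑ i, (x i : ℤ) ^ j + ∑ i, (u i : ℤ) ^ j = ∑ i, (y i : ℤ) ^ j + ∑ i, (v i : ℤ) ^ j := by
  have h2 := h ⟨j - 1, by omega⟩
  unfold pv at h2
  simp only [Nat.sub_add_cancel h1] at h2
  exact h2

private theorem Cls_g {p b M n : ℕ} (hn : n ∈ (Icc 1 M).filter (fun n => n % p = b)) :
    (n : ℤ) + ((p : ℤ) - b) = p * ((n / p + 1 : ℕ) : ℤ) := by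
  rw [mem_filter] at hn
  have h := Nat.div_add_mod n p
  rw [hn.2] at h
  have h2 : (p : ℤ) * ((n / p : ℕ) : ℤ) + b = n := by exact_mod_cast h
  push_cast at h2 ⊢
  linarith

private theorem Cls_fib (k s p M b : ℕ) (hp : p.Prime) (t : (Fin k → ℕ) × (Fin k → ℕ)) :
    (((((Fintype.piFinset (fun _ : Fin s => (Icc 1 M).filter (fun n => n % p = b))) ×ˢ
      (Fintype.piFinset (fun _ : Fin s => (Icc 1 M).filter (fun n => n % p = b))))).filter
      (fun z => ∀ j, pv k t.1 j + pv k z.1 j = pv k t.2 j + pv k z.2 j))).card ≤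
      JV k s (M / p + 1) := by
  classical
  set A := (Icc 1 M).filter (fun n => n % p = b) with hA
  set Z := (((Fintype.piFinset (fun _ : Fin s => A)) ×ˢ
      (Fintype.piFinset (fun _ : Fin s => A)))).filter
      (fun z => ∀ j, pv k t.1 j + pv k z.1 j = pv k t.2 j + pv k z.2 j) with hZ
  rcases Z.eq_empty_or_nonempty with h0 | ⟨z0, hz0⟩
  · rw [h0, card_empty]
    exact Nat.zero_le _
  have hp0 : (p : ℤ) ≠ 0 := by exact_mod_cast hp.ne_zero
  let g : (Fin s → ℕ) → (Fin s → ℕ) := fun u i => u i / p + 1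
  have hmem : ∀ z ∈ Z, (∀ i, z.1 i ∈ A) ∧ (∀ i, z.2 i ∈ A) ∧
      ∀ j, pv k t.1 j + pv k z.1 j = pv k t.2 j + pv k z.2 j := by
    intro z hz
    rw [hZ, mem_filter, mem_product, Fintype.mem_piFinset, Fintype.mem_piFinset] at hz
    exact ⟨hz.1.1, hz.1.2, hz.2⟩
  have hbox : ∀ u : Fin s → ℕ, (∀ i, u i ∈ A) → g u ∈ box s (M / p + 1) := by
    intro u hu
    unfold box
    rw [Fintype.mem_piFinset]
    intro i
    have h1 := hu i
    rw [hA, mem_filter, mem_Icc] at h1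
    rw [mem_Icc]
    have h2 : u i / p ≤ M / p := Nat.div_le_div_right h1.1.2
    exact ⟨Nat.le_add_left 1 _, Nat.add_le_add_right h2 1⟩
  have hginj : ∀ u v : Fin s → ℕ, (∀ i, u i ∈ A) → (∀ i, v i ∈ A) → g u = g v → u = v := by
    intro u v hu hv h
    funext i
    have h1 := hu i
    have h2 := hv i
    rw [hA, mem_filter] at h1 h2
    have h3 : u i / p + 1 = v i / p + 1 := congrFun h i
    have h4 : u i / p = v i / p := by omega
    rw [← Nat.div_add_mod (u i) p, ← Nat.div_add_mod (v i) p, h4, h1.2, h2.2]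
  let h : Fin k → ℤ := fun j => pv k (g z0.1) j - pv k (g z0.2) j
  have hcount : Z.card ≤ (((box s (M / p + 1)) ×ˢ (box s (M / p + 1))).filter
      (fun w => ∀ j, pv k w.1 j = pv k w.2 j + h j)).card := by
    refine card_le_card_of_injOn (fun z => (g z.1, g z.2)) ?_ ?_
    · intro z hz
      obtain ⟨h1, h2, h3⟩ := hmem z hz
      obtain ⟨h4, h5, h6⟩ := hmem z0 hz0
      rw [mem_coe, mem_filter, mem_product]
      refine ⟨⟨hbox _ h1, hbox _ h2⟩, fun j => ?_⟩
      have h7 : ∀ j, pv k z.1 j + pv k z0.2 j = pv k z.2 j + pv k z0.1 j := by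
        intro j
        have e1 := h3 j
        have e2 := h6 j
        linarith
      have h8 := Cls_shift (fun i => (z.1 i : ℤ)) (fun i => (z.2 i : ℤ)) (fun i => (z0.2 i : ℤ))
        (fun i => (z0.1 i : ℤ)) ((p : ℤ) - b) (k := k) (fun j hj1 hj2 => Cls_pv h7 j hj1 hj2)
        ((j : ℕ) + 1) (by have := j.2; omega)
      have h9 : ∀ u : Fin s → ℕ, (∀ i, u i ∈ A) →
          ∑ i, ((u i : ℤ) + ((p : ℤ) - b)) ^ ((j : ℕ) + 1) =
            (p : ℤ) ^ ((j : ℕ) + 1) * pv k (g u) j := by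
        intro u hu
        unfold pv
        rw [mul_sum]
        refine sum_congr rfl fun i _ => ?_
        rw [Cls_g (hu i), mul_pow]
      rw [h9 _ h1, h9 _ h2, h9 _ h4, h9 _ h5, ← mul_add, ← mul_add] at h8
      have h10 := mul_left_cancel₀ (pow_ne_zero _ hp0) h8
      change pv k (g z.1) j = pv k (g z.2) j + (pv k (g z0.1) j - pv k (g z0.2) j)
      linarith
    · intro z hz z' hz' heq
      obtain ⟨h1, h2, -⟩ := hmem z hz
      obtain ⟨h4, h5, -⟩ := hmem z' hz'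
      have e1 : g z.1 = g z'.1 := congrArg Prod.fst heq
      have e2 : g z.2 = g z'.2 := congrArg Prod.snd heq
      exact Prod.ext (hginj _ _ h1 h4 e1) (hginj _ _ h2 h5 e2)
  refine hcount.trans ((shift_le _ _ h).trans (le_of_eq ?_))
  unfold JV
  congr 1
  ext w
  simp only [mem_filter, funext_iff]

theorem cls_count (k s p M b : ℕ) (hp : p.Prime) (hk : k < p) (hM : M ≤ p ^ k) (hb : b < p) :
    SC s (inj k p M) (pv k) ((Icc 1 M).filter (fun n => n % p = b)) ≤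
      M ^ k * (k.factorial * p ^ (k * (k - 1) / 2)) * JV k s (M / p + 1) := by
  classical
  have _ := hb
  set A := (Icc 1 M).filter (fun n => n % p = b) with hA
  let T := ((inj k p M) ×ˢ (inj k p M)).filter (fun t : (Fin k → ℕ) × (Fin k → ℕ) =>
    ∀ j ∈ Icc 1 k, ((p : ℤ) ^ j) ∣ (∑ i, ((t.1 i : ℤ) - b) ^ j) - ∑ i, ((t.2 i : ℤ) - b) ^ j)
  unfold SC
  have hmap : ∀ z ∈ (((inj k p M) ×ˢ (inj k p M)) ×ˢ ((Fintype.piFinset (fun _ : Fin s => A)) ×ˢ
      (Fintype.piFinset (fun _ : Fin s => A)))).filter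
      (fun z => ∀ j, pv k z.1.1 j + pv k z.2.1 j = pv k z.1.2 j + pv k z.2.2 j), z.1 ∈ T := by
    intro z hz
    rw [mem_filter, mem_product (p := z), mem_product (p := z.2), Fintype.mem_piFinset,
      Fintype.mem_piFinset] at hz
    obtain ⟨⟨h1, h2, h3⟩, h4⟩ := hz
    rw [mem_filter]
    refine ⟨h1, fun j hj => ?_⟩
    rw [mem_Icc] at hj
    have h8 := Cls_shift (fun i => (z.1.1 i : ℤ)) (fun i => (z.1.2 i : ℤ))
      (fun i => (z.2.1 i : ℤ)) (fun i => (z.2.2 i : ℤ)) (-(b : ℤ)) (k := k)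
      (fun j hj1 hj2 => Cls_pv h4 j hj1 hj2) j hj.2
    have h9 : ∀ u : Fin s → ℕ, (∀ i, u i ∈ A) →
        ((p : ℤ) ^ j) ∣ ∑ i, ((u i : ℤ) + -(b : ℤ)) ^ j := by
      intro u hu
      refine dvd_sum fun i _ => pow_dvd_pow_of_dvd ?_ j
      have h10 := hu i
      rw [hA, mem_filter] at h10
      have h11 := Nat.div_add_mod (u i) p
      rw [h10.2] at h11
      have h12 : (p : ℤ) * ((u i / p : ℕ) : ℤ) + b = u i := by exact_mod_cast h11
      exact ⟨((u i / p : ℕ) : ℤ), by linarith⟩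
    have e1 : (∑ i, ((z.1.1 i : ℤ) - b) ^ j) - ∑ i, ((z.1.2 i : ℤ) - b) ^ j =
        ∑ i, ((z.2.2 i : ℤ) + -(b : ℤ)) ^ j - ∑ i, ((z.2.1 i : ℤ) + -(b : ℤ)) ^ j := by
      simp only [sub_eq_add_neg (G := ℤ)] at h8 ⊢
      linarith
    rw [e1]
    exact dvd_sub (h9 _ h3) (h9 _ h2)
  have hfib : ∀ t ∈ T, (((((inj k p M) ×ˢ (inj k p M)) ×ˢ
      ((Fintype.piFinset (fun _ : Fin s => A)) ×ˢ
      (Fintype.piFinset (fun _ : Fin s => A)))).filter
      (fun z => ∀ j, pv k z.1.1 j + pv k z.2.1 j = pv k z.1.2 j + pv k z.2.2 j)).filter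
      (fun z => z.1 = t)).card ≤ JV k s (M / p + 1) := by
    intro t _
    refine le_trans ?_ (Cls_fib k s p M b hp t)
    refine card_le_card_of_injOn (fun z => z.2) ?_ ?_
    · intro z hz
      rw [mem_coe, mem_filter, mem_filter, mem_product] at hz
      obtain ⟨⟨⟨-, h2⟩, h3⟩, h4⟩ := hz
      rw [mem_coe, mem_filter]
      refine ⟨h2, fun j => ?_⟩
      have h5 := h3 j
      rw [h4] at h5
      exact h5
    · intro z hz z' hz' heq
      rw [mem_coe, mem_filter] at hz hz'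
      exact Prod.ext (hz.2.trans hz'.2.symm) heq
  have h1 := card_le_mul_card_image_of_maps_to hmap _ hfib
  have hT : T.card ≤ (k.factorial * p ^ (k * (k - 1) / 2)) * M ^ k := by
    have hm2 : ∀ t ∈ T, t.2 ∈ inj k p M := by
      intro t ht
      rw [mem_filter, mem_product] at ht
      exact ht.1.2
    have hf2 : ∀ w ∈ inj k p M, (T.filter (fun t => t.2 = w)).card ≤
        k.factorial * p ^ (k * (k - 1) / 2) := by
      intro w _
      refine le_trans ?_ (lin_count k p M b (fun j => ∑ i, ((w i : ℤ) - b) ^ j) hp hk hM)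
      refine card_le_card_of_injOn (fun t => t.1) ?_ ?_
      · intro t ht
        rw [mem_coe, mem_filter, mem_filter, mem_product] at ht
        obtain ⟨⟨⟨h2, -⟩, h3⟩, h4⟩ := ht
        rw [mem_coe, mem_filter]
        refine ⟨h2, fun j hj => ?_⟩
        have h5 := h3 j hj
        rw [h4] at h5
        exact h5
      · intro t ht t' ht' heq
        rw [mem_coe, mem_filter] at ht ht'
        exact Prod.ext heq (ht.2.trans ht'.2.symm)
    have h2 := card_le_mul_card_image_of_maps_to hm2 _ hf2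
    refine h2.trans (Nat.mul_le_mul_left _ ?_)
    refine (card_le_card (filter_subset _ _)).trans (le_of_eq ?_)
    unfold box
    rw [Fintype.card_piFinset_const, Nat.card_Icc, Nat.add_sub_cancel]
  refine h1.trans ?_
  calc JV k s (M / p + 1) * T.card ≤
      JV k s (M / p + 1) * ((k.factorial * p ^ (k * (k - 1) / 2)) * M ^ k) :=
        Nat.mul_le_mul_left _ hT
    _ = M ^ k * (k.factorial * p ^ (k * (k - 1) / 2)) * JV k s (M / p + 1) := by ring

theorem wc_count (k s p M : ℕ) (hs : 1 ≤ s) (hp : p.Prime) (hk : k < p) (hM : M ≤ p ^ k) :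
    SC s (inj k p M) (pv k) (Icc 1 M) ≤
      p ^ (2 * s) * (M ^ k * (k.factorial * p ^ (k * (k - 1) / 2)) * JV k s (M / p + 1)) := by
  refine (sc_class s p hs hp.one_lt.le (inj k p M) (pv k) (Icc 1 M)).trans ?_
  have h1 : ∑ b ∈ range p, SC s (inj k p M) (pv k) ((Icc 1 M).filter (fun n => n % p = b)) ≤
      p * (M ^ k * (k.factorial * p ^ (k * (k - 1) / 2)) * JV k s (M / p + 1)) := by
    refine (sum_le_card_nsmul _ _ _ fun b hb =>
      cls_count k s p M b hp hk hM (mem_range.1 hb)).trans (le_of_eq ?_)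
    rw [card_range, smul_eq_mul]
  refine (Nat.mul_le_mul_left _ h1).trans (le_of_eq ?_)
  rw [← mul_assoc, ← pow_succ]
  congr 2
  omega

end Pool.Agent.H97.VK

end

section

/-!
# VK Rec: the recursion for the number of solutions

Proof.  Let `n = s + k`, `J = JV k n M`.  Call `x ∈ [1,M]^n` bad if it has fewer than `k` distinct values: there are at most
`(k-1)^n M^{k-1} ≤ k^n M^{k-1} =: b` bad tuples (`x = v ∘ g`, `g : Fin n → Fin (k-1)`, `v : Fin (k-1) → [1,M]`).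
(1) Let `N1` be the number of solutions with `x` bad.  With `r(v)`, `r_bad(v)` the numbers of tuples (bad tuples) with power sums `v`:
`N1 = ∑ r_bad r ≤ (∑ r_bad^2)^{1/2} (∑ r^2)^{1/2} ≤ b J^{1/2}` (`∑ r_bad^2 ≤ (#bad)^2`).  Solutions with `x` or `y` bad: `≤ 2 N1`.
If `2 N1 ≥ J/2` then `J ≤ 16 b^2`.  Otherwise `J ≤ 2 N3`, `N3` = number of solutions with `x`, `y` both good.
(2) For a good `x` there is an injection `σ : Fin k → Fin n` with `x ∘ σ` injective; permuting the coordinates: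
`N3 ≤ (n^k)^2 N4`, `N4` = number of solutions whose first `k` coordinates `x'`, `y'` are injective (`Fin n ≃ Fin k ⊕ Fin s`; use
`Fin.append`, `Fin.sumElim`-like equivalences, or choose permutations of `Fin n` extending `σ`, at most `n^k` classes are needed).
(3) `𝒫` = the primes in `(Q, 2Q]`, at least `k^3` many, all `> Q ≥ k`, `p^k ≥ Q^k ≥ M`.  For a solution in `N4` the product
`D = ∏_{i<i'} |x'_i - x'_{i'}| |y'_i - y'_{i'}|` is a positive integer `< M^{k(k-1)}` (or `= 1`), so not all `p ∈ 𝒫` divide it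
(`∏ p^k ≥ M^{k^3}`, `D^k < M^{k^2 (k-1)}`).  Hence `N4 ≤ ∑_{p ∈ 𝒫'} SC s (inj k p M) (pv k) (Icc 1 M)`, where `𝒫'` is a subset of `𝒫` with exactly `k^3` elements.
(4) `wc_count`, `p ≤ 2Q`, `M/p + 1 ≤ M/Q + 1`, `jv_mono`.
-/

set_option autoImplicit false

namespace Pool.Agent.H97.VK

open Finset

/-- the tuples with fewer than `k` distinct values -/
private def recBad (k n M : ℕ) : Finset (Fin n → ℕ) :=
  (box n M).filter (fun x => (univ.image x).card < k)

private theorem rec_mem_box {n M : ℕ} {x : Fin n → ℕ} : x ∈ box n M ↔ ∀ i, 1 ≤ x i ∧ x i ≤ M := by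
  simp [box, Fintype.mem_piFinset]

private theorem rec_bad_card (k n M : ℕ) (hk : 2 ≤ k) (hM : 1 ≤ M) :
    (recBad k n M).card ≤ k ^ n * M ^ (k - 1) := by
  classical
  have hsub : recBad k n M ⊆
      ((univ : Finset (Fin n → Fin (k - 1))) ×ˢ (box (k - 1) M)).image (fun gv => gv.2 ∘ gv.1) := by
    intro x hx
    rw [recBad, mem_filter] at hx
    obtain ⟨hxb, hc⟩ := hx
    rw [rec_mem_box] at hxb
    obtain ⟨T, hT⟩ : ∃ T : Finset ℕ, T = univ.image x := ⟨_, rfl⟩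
    have hxT : ∀ i, x i ∈ T := fun i => by rw [hT]; exact mem_image_of_mem x (mem_univ i)
    have hTx : ∀ t ∈ T, ∃ i, x i = t := fun t ht => by
      rw [hT, mem_image] at ht
      obtain ⟨i, -, hi⟩ := ht
      exact ⟨i, hi⟩
    have hcard : Fintype.card T ≤ Fintype.card (Fin (k - 1)) := by
      rw [Fintype.card_coe, Fintype.card_fin, hT]; omega
    obtain ⟨e⟩ := Function.Embedding.nonempty_of_card_le hcard
    let v : Fin (k - 1) → ℕ := fun j => if h : ∃ t, e t = j then ((Classical.choose h : T) : ℕ) else 1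
    have hve : ∀ t, v (e t) = (t : ℕ) := by
      intro t
      have h : ∃ t', e t' = e t := ⟨t, rfl⟩
      simp only [v, dif_pos h]
      have := Classical.choose_spec h
      rw [e.injective this]
    rw [mem_image]
    refine ⟨(fun i => e ⟨x i, hxT i⟩, v), ?_, ?_⟩
    · rw [mem_product]
      refine ⟨mem_univ _, ?_⟩
      rw [rec_mem_box]
      intro j
      by_cases h : ∃ t, e t = j
      · obtain ⟨t, rfl⟩ := h
        obtain ⟨i, hi⟩ := hTx t t.2
        show 1 ≤ v (e t) ∧ v (e t) ≤ M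
        rw [hve t, ← hi]
        exact hxb i
      · simp only [v, dif_neg h]
        exact ⟨le_refl 1, hM⟩
    · funext i
      simp only [Function.comp]
      rw [hve]
  calc (recBad k n M).card ≤ _ := card_le_card hsub
    _ ≤ ((univ : Finset (Fin n → Fin (k - 1))) ×ˢ (box (k - 1) M)).card := card_image_le
    _ = (k - 1) ^ n * M ^ (k - 1) := by
        rw [card_product, card_univ, Fintype.card_fun, Fintype.card_fin, Fintype.card_fin]
        simp [box, Fintype.card_piFinset]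
    _ ≤ k ^ n * M ^ (k - 1) := Nat.mul_le_mul_right _ (Nat.pow_le_pow_left (Nat.sub_le k 1) n)

private theorem rec_fib (k n M : ℕ) (c : Fin k → ℤ) :
    ((box n M).filter (fun y => pv k y = c)).card ≤ Nat.sqrt (JV k n M) := by
  classical
  rw [Nat.le_sqrt, ← card_product]
  unfold JV
  apply card_le_card
  intro w hw
  rw [mem_product, mem_filter, mem_filter] at hw
  rw [mem_filter, mem_product]
  exact ⟨⟨hw.1.1, hw.2.1⟩, by rw [hw.1.2, hw.2.2]⟩

private theorem rec_N1 (k n M : ℕ) :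
    (((box n M) ×ˢ (box n M)).filter (fun w => pv k w.1 = pv k w.2 ∧ w.1 ∈ recBad k n M)).card ≤
      Nat.sqrt (JV k n M) * (recBad k n M).card := by
  classical
  refine card_le_mul_card_image_of_maps_to (f := Prod.fst) ?_ _ ?_
  · intro w hw
    rw [mem_filter] at hw
    exact hw.2.2
  · intro b hb
    refine le_trans ?_ (rec_fib k n M (pv k b))
    refine card_le_card_of_injOn Prod.snd ?_ ?_
    · intro w hw
      simp only [coe_filter, Set.mem_ofPred_eq, mem_filter, mem_product] at hw ⊢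
      refine ⟨hw.1.1.2, ?_⟩
      rw [← hw.1.2.1, hw.2]
    · intro w hw w' hw' h
      simp only [coe_filter, Set.mem_ofPred_eq] at hw hw'
      exact Prod.ext (hw.2.trans hw'.2.symm) h

private theorem rec_N1' (k n M : ℕ) :
    (((box n M) ×ˢ (box n M)).filter (fun w => pv k w.1 = pv k w.2 ∧ w.2 ∈ recBad k n M)).card ≤
      Nat.sqrt (JV k n M) * (recBad k n M).card := by
  classical
  refine le_trans ?_ (rec_N1 k n M)
  refine card_le_card_of_injOn Prod.swap ?_ ?_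
  · intro w hw
    simp only [coe_filter, Set.mem_ofPred_eq, mem_product, Prod.fst_swap, Prod.snd_swap] at hw ⊢
    exact ⟨⟨hw.1.2, hw.1.1⟩, hw.2.1.symm, hw.2.2⟩
  · exact Prod.swap_injective.injOn

/-- the injective tuples in the box -/
private def recInj (k M : ℕ) : Finset (Fin k → ℕ) :=
  (box k M).filter (fun x => Function.Injective x)

private theorem rec_section {k n : ℕ} (x : Fin n → ℕ) (h : k ≤ (univ.image x).card) :
    ∃ σ : Fin k → Fin n, Function.Injective (x ∘ σ) := by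
  classical
  obtain ⟨T, hT⟩ : ∃ T : Finset ℕ, T = univ.image x := ⟨_, rfl⟩
  have hTx : ∀ t ∈ T, ∃ i, x i = t := fun t ht => by
    rw [hT, mem_image] at ht
    obtain ⟨i, -, hi⟩ := ht
    exact ⟨i, hi⟩
  have hcard : Fintype.card (Fin k) ≤ Fintype.card T := by
    rw [Fintype.card_coe, Fintype.card_fin, hT]; exact h
  obtain ⟨e⟩ := Function.Embedding.nonempty_of_card_le hcard
  have hp : ∀ i : Fin k, ∃ a : Fin n, x a = (e i : ℕ) := fun i => hTx _ (e i).2
  choose σ hσ using hp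
  refine ⟨σ, ?_⟩
  intro i j hij
  simp only [Function.comp, hσ] at hij
  exact e.injective (Subtype.ext hij)

private theorem rec_split {k s : ℕ} (σ : Fin k → Fin (s + k)) (hσ : Function.Injective σ) :
    ∃ e : Fin k ⊕ Fin s ≃ Fin (s + k), ∀ i, e (Sum.inl i) = σ i := by
  classical
  have hc : Fintype.card ((Set.range σ)ᶜ : Set (Fin (s + k))) = s := by
    rw [Fintype.card_compl_set, Set.card_range_of_injective hσ, Fintype.card_fin, Fintype.card_fin]
    omega
  let e2 : Fin s ≃ ((Set.range σ)ᶜ : Set (Fin (s + k))) := (Fintype.equivFinOfCardEq hc).symm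
  refine ⟨(Equiv.sumCongr (Equiv.ofInjective σ hσ) e2).trans (Equiv.Set.sumCompl (Set.range σ)), ?_⟩
  intro i
  simp

private theorem rec_pv {k s : ℕ} (m : ℕ) (e : Fin k ⊕ Fin s ≃ Fin (s + k)) (x : Fin (s + k) → ℕ) (j : Fin m) :
    pv m x j = pv m (fun i => x (e (Sum.inl i))) j + pv m (fun i => x (e (Sum.inr i))) j := by
  unfold pv
  rw [← Equiv.sum_comp e, Fintype.sum_sum_type]

private theorem rec_N3 (k s M : ℕ) :
    (((box (s + k) M) ×ˢ (box (s + k) M)).filter (fun w => pv k w.1 = pv k w.2 ∧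
      k ≤ (univ.image w.1).card ∧ k ≤ (univ.image w.2).card)).card ≤
      SC s (recInj k M) (pv k) (Icc 1 M) * ((s + k) ^ k) ^ 2 := by
  classical
  let S : (Fin (s + k) → ℕ) → (Fin k → Fin (s + k)) := fun x =>
    if h : ∃ σ : Fin k → Fin (s + k), Function.Injective (x ∘ σ) then Classical.choose h else fun i => ⟨i, by have := i.2; omega⟩
  have hS : ∀ x : Fin (s + k) → ℕ, k ≤ (univ.image x).card → Function.Injective (x ∘ S x) := by
    intro x hx
    have h := rec_section x hx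
    simp only [S, dif_pos h]
    exact Classical.choose_spec h
  have hcardT : ((s + k) ^ k) ^ 2 =
      (univ : Finset ((Fin k → Fin (s + k)) × (Fin k → Fin (s + k)))).card := by
    rw [card_univ, Fintype.card_prod, Fintype.card_fun, Fintype.card_fin, Fintype.card_fin, sq]
  rw [hcardT]
  refine card_le_mul_card_image_of_maps_to (f := fun w => (S w.1, S w.2)) ?_ _ ?_
  · intro w hw
    exact mem_univ _
  · rintro ⟨σ, τ⟩ -
    by_cases hσ : Function.Injective σ
    swap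
    · rw [filter_eq_empty_iff.2, card_empty]
      · exact Nat.zero_le _
      · intro w hw h
        rw [mem_filter] at hw
        rw [Prod.mk.injEq] at h
        apply hσ
        have := hS w.1 hw.2.2.1
        rw [h.1] at this
        exact this.of_comp
    by_cases hτ : Function.Injective τ
    swap
    · rw [filter_eq_empty_iff.2, card_empty]
      · exact Nat.zero_le _
      · intro w hw h
        rw [mem_filter] at hw
        rw [Prod.mk.injEq] at h
        apply hτ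
        have := hS w.2 hw.2.2.2
        rw [h.2] at this
        exact this.of_comp
    obtain ⟨e, he⟩ := rec_split σ hσ
    obtain ⟨f, hf⟩ := rec_split τ hτ
    unfold SC
    refine card_le_card_of_injOn (fun w : (Fin (s + k) → ℕ) × (Fin (s + k) → ℕ) =>
      (((fun i => w.1 (e (Sum.inl i))), (fun i => w.2 (f (Sum.inl i)))),
        ((fun i => w.1 (e (Sum.inr i))), (fun i => w.2 (f (Sum.inr i)))))) ?_ ?_
    · intro w hw
      simp only [coe_filter, Set.mem_ofPred_eq, mem_filter, mem_product] at hw ⊢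
      obtain ⟨⟨⟨hx, hy⟩, hpv, hgx, hgy⟩, h⟩ := hw
      rw [Prod.mk.injEq] at h
      rw [rec_mem_box] at hx hy
      have h1 := hS w.1 hgx
      have h2 := hS w.2 hgy
      rw [h.1] at h1
      rw [h.2] at h2
      refine ⟨⟨⟨?_, ?_⟩, ?_, ?_⟩, ?_⟩
      · rw [recInj, mem_filter, rec_mem_box]
        refine ⟨fun i => hx _, ?_⟩
        intro i j hij
        simp only [he] at hij
        exact h1 hij
      · rw [recInj, mem_filter, rec_mem_box]
        refine ⟨fun i => hy _, ?_⟩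
        intro i j hij
        simp only [hf] at hij
        exact h2 hij
      · rw [Fintype.mem_piFinset]
        intro i
        rw [mem_Icc]
        exact hx _
      · rw [Fintype.mem_piFinset]
        intro i
        rw [mem_Icc]
        exact hy _
      · intro j
        rw [← rec_pv k e w.1 j, ← rec_pv k f w.2 j, hpv]
    · intro w hw w' hw' h
      simp only [Prod.mk.injEq] at h
      obtain ⟨⟨h1, h2⟩, h3, h4⟩ := h
      apply Prod.ext
      · funext a
        obtain ⟨b, rfl⟩ := e.surjective a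
        rcases b with i | i
        · exact congrFun h1 i
        · exact congrFun h3 i
      · funext a
        obtain ⟨b, rfl⟩ := f.surjective a
        rcases b with i | i
        · exact congrFun h2 i
        · exact congrFun h4 i

/-- the product of the differences of a tuple -/
private def recD {k : ℕ} (x : Fin k → ℕ) : ℕ := ∏ i, ∏ j ∈ Ioi i, ((x i : ℤ) - x j).natAbs

private theorem recD_pos {k : ℕ} (x : Fin k → ℕ) (hx : Function.Injective x) : 0 < recD x := by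
  unfold recD
  refine prod_pos fun i _ => prod_pos fun j hj => ?_
  rw [mem_Ioi] at hj
  rw [Int.natAbs_pos, sub_ne_zero]
  intro h
  have := hx (by exact_mod_cast h : x i = x j)
  exact absurd this (ne_of_lt hj)

private theorem recD_le {k M : ℕ} (hM : 1 ≤ M) (x : Fin k → ℕ) (hx : x ∈ box k M) :
    recD x * recD x ≤ M ^ (k * (k - 1)) := by
  rw [rec_mem_box] at hx
  have h1 : recD x ≤ ∏ i : Fin k, M ^ (k - 1 - (i : ℕ)) := by
    unfold recD
    refine prod_le_prod' fun i _ => ?_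
    calc ∏ j ∈ Ioi i, ((x i : ℤ) - x j).natAbs ≤ M ^ (Ioi i).card := by
          refine prod_le_pow_card _ _ _ fun j _ => ?_
          have a := hx i
          have b := hx j
          omega
      _ = M ^ (k - 1 - (i : ℕ)) := by rw [Fin.card_Ioi]
  rw [prod_pow_eq_pow_sum] at h1
  have h2 : (∑ i : Fin k, (k - 1 - (i : ℕ))) * 2 = k * (k - 1) := by
    rw [Fin.sum_univ_eq_sum_range (fun i => k - 1 - i) k, sum_range_reflect (fun i => i) k,
      sum_range_id_mul_two]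
  calc recD x * recD x ≤ M ^ (∑ i : Fin k, (k - 1 - (i : ℕ))) * M ^ (∑ i : Fin k, (k - 1 - (i : ℕ))) :=
        Nat.mul_le_mul h1 h1
    _ = M ^ (k * (k - 1)) := by rw [← pow_add, ← h2, mul_two]

private theorem recD_dvd {k p : ℕ} (x : Fin k → ℕ)
    (h : ¬ ∀ i i', i ≠ i' → x i % p ≠ x i' % p) : p ∣ recD x := by
  push Not at h
  obtain ⟨i, j, hij, hmod⟩ := h
  have key : ∀ i j : Fin k, i < j → x i % p = x j % p → p ∣ recD x := by
    intro i j hij hmod
    unfold recD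
    refine dvd_trans ?_ (dvd_prod_of_mem _ (mem_univ i))
    refine dvd_trans ?_ (dvd_prod_of_mem _ (mem_Ioi.2 hij))
    rw [← Int.natCast_dvd]
    exact (Nat.modEq_iff_dvd.1 (show x j ≡ x i [MOD p] from hmod.symm))
  rcases lt_or_gt_of_ne hij with h | h
  · exact key i j h hmod
  · exact key j i h hmod.symm

private theorem rec_N4 (k s M Q : ℕ) (hk : 2 ≤ k) (hM : 2 ≤ M) (hQ : M ≤ Q ^ k)
    (P : Finset ℕ) (hPp : ∀ p ∈ P, p.Prime) (hPQ : ∀ p ∈ P, Q < p) (hPc : P.card = k ^ 3) :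
    SC s (recInj k M) (pv k) (Icc 1 M) ≤ ∑ p ∈ P, SC s (inj k p M) (pv k) (Icc 1 M) := by
  classical
  unfold SC
  refine le_trans (card_le_card ?_) card_biUnion_le
  intro z hz
  simp only [mem_filter, mem_product, recInj] at hz
  obtain ⟨⟨⟨⟨hxb, hxi⟩, ⟨hyb, hyi⟩⟩, hu, hv⟩, heq⟩ := hz
  by_contra hcon
  have hdiv : ∀ p ∈ P, p ∣ recD z.1.1 * recD z.1.2 := by
    intro p hp
    by_cases h1 : ∀ i i', i ≠ i' → z.1.1 i % p ≠ z.1.1 i' % p
    · by_cases h2 : ∀ i i', i ≠ i' → z.1.2 i % p ≠ z.1.2 i' % p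
      · exfalso
        apply hcon
        rw [mem_biUnion]
        refine ⟨p, hp, ?_⟩
        simp only [mem_filter, mem_product, inj]
        exact ⟨⟨⟨⟨hxb, h1⟩, ⟨hyb, h2⟩⟩, hu, hv⟩, heq⟩
      · exact dvd_mul_of_dvd_right (recD_dvd _ h2) _
    · exact dvd_mul_of_dvd_left (recD_dvd _ h1) _
  have hD : ∏ p ∈ P, p ∣ recD z.1.1 * recD z.1.2 :=
    prod_primes_dvd _ (fun p hp => (hPp p hp).prime) hdiv
  have hle := Nat.le_of_dvd (Nat.mul_pos (recD_pos _ hxi) (recD_pos _ hyi)) hD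
  have hge : (Q + 1) ^ (k ^ 3) ≤ ∏ p ∈ P, p := by
    rw [← hPc]
    exact pow_card_le_prod _ _ _ (fun p hp => hPQ p hp)
  have hM1 : 1 ≤ M := by omega
  have a1 := recD_le hM1 _ hxb
  have a2 := recD_le hM1 _ hyb
  have hkk : M ^ (k ^ 2) ≤ Q ^ (k ^ 3) := by
    calc M ^ (k ^ 2) ≤ (Q ^ k) ^ (k ^ 2) := Nat.pow_le_pow_left hQ _
      _ = Q ^ (k ^ 3) := by rw [← pow_mul]; congr 1; ring
  have hQ1 : Q ^ (k ^ 3) < (Q + 1) ^ (k ^ 3) :=
    Nat.pow_lt_pow_left (Nat.lt_succ_self Q) (by positivity)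
  have hk2 : M ^ (k * (k - 1)) ≤ M ^ (k ^ 2) := by
    apply Nat.pow_le_pow_right hM1
    rw [sq]
    exact Nat.mul_le_mul_left k (Nat.sub_le k 1)
  have hlt : M ^ (k * (k - 1)) < recD z.1.1 * recD z.1.2 := by omega
  have h3 : (recD z.1.1 * recD z.1.2) * (recD z.1.1 * recD z.1.2) ≤
      M ^ (k * (k - 1)) * M ^ (k * (k - 1)) := by
    calc (recD z.1.1 * recD z.1.2) * (recD z.1.1 * recD z.1.2)
        = (recD z.1.1 * recD z.1.1) * (recD z.1.2 * recD z.1.2) := by ring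
      _ ≤ _ := Nat.mul_le_mul a1 a2
  have h4 := Nat.mul_lt_mul'' hlt hlt
  omega

theorem jv_rec (k s M Q : ℕ) (hk : 2 ≤ k) (hs : 1 ≤ s) (hM : 2 ≤ M) (hQ : M ≤ Q ^ k) (hkQ : k ≤ Q)
    (hP : k ^ 3 ≤ ((Ioc Q (2 * Q)).filter Nat.Prime).card) :
    JV k (s + k) M ≤ 16 * (k ^ (s + k) * M ^ (k - 1)) ^ 2 +
      2 * ((s + k) ^ k) ^ 2 * k ^ 3 * ((2 * Q) ^ (2 * s) *
        (M ^ k * (k.factorial * (2 * Q) ^ (k * (k - 1) / 2)) * JV k s (M / Q + 1))) := by
  classical
  obtain ⟨P, hPsub, hPc⟩ := exists_subset_card_eq hP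
  have hPp : ∀ p ∈ P, p.Prime := fun p hp => (mem_filter.1 (hPsub hp)).2
  have hPI : ∀ p ∈ P, Q < p ∧ p ≤ 2 * Q := fun p hp => mem_Ioc.1 (mem_filter.1 (hPsub hp)).1
  set B := (2 * Q) ^ (2 * s) *
        (M ^ k * (k.factorial * (2 * Q) ^ (k * (k - 1) / 2)) * JV k s (M / Q + 1)) with hB
  set b := k ^ (s + k) * M ^ (k - 1) with hb
  have hN4 : SC s (recInj k M) (pv k) (Icc 1 M) ≤ k ^ 3 * B := by
    refine le_trans (rec_N4 k s M Q hk hM hQ P hPp (fun p hp => (hPI p hp).1) hPc) ?_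
    rw [← hPc, ← smul_eq_mul]
    refine sum_le_card_nsmul _ _ _ ?_
    intro p hp
    obtain ⟨hQp, hp2⟩ := hPI p hp
    refine le_trans (wc_count k s p M hs (hPp p hp) (by omega)
      (le_trans hQ (Nat.pow_le_pow_left hQp.le k))) ?_
    rw [hB]
    have hQ0 : 0 < Q := by omega
    refine Nat.mul_le_mul (Nat.pow_le_pow_left hp2 _) (Nat.mul_le_mul (Nat.mul_le_mul_left _
      (Nat.mul_le_mul_left _ (Nat.pow_le_pow_left hp2 _))) ?_)
    exact jv_mono k s _ _ (Nat.add_le_add_right (Nat.div_le_div_left hQp.le hQ0) 1)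
  have hN3 := rec_N3 k s M
  have hbad := rec_bad_card k (s + k) M hk (by omega)
  have hN1 := rec_N1 k (s + k) M
  have hN1' := rec_N1' k (s + k) M
  set J := JV k (s + k) M with hJ
  set R := Nat.sqrt J with hR
  set N3 := (((box (s + k) M) ×ˢ (box (s + k) M)).filter (fun w => pv k w.1 = pv k w.2 ∧
      k ≤ (univ.image w.1).card ∧ k ≤ (univ.image w.2).card)).card with hN3def
  have hsplit : J ≤ R * b + R * b + N3 := by
    have hsub : ((box (s + k) M) ×ˢ (box (s + k) M)).filter (fun w => pv k w.1 = pv k w.2) ⊆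
        ((((box (s + k) M) ×ˢ (box (s + k) M)).filter (fun w => pv k w.1 = pv k w.2 ∧ w.1 ∈ recBad k (s + k) M)) ∪
        (((box (s + k) M) ×ˢ (box (s + k) M)).filter (fun w => pv k w.1 = pv k w.2 ∧ w.2 ∈ recBad k (s + k) M))) ∪
        (((box (s + k) M) ×ˢ (box (s + k) M)).filter (fun w => pv k w.1 = pv k w.2 ∧
      k ≤ (univ.image w.1).card ∧ k ≤ (univ.image w.2).card)) := by
      intro w hw
      rw [mem_filter] at hw
      have hw1 := mem_product.1 hw.1
      rw [mem_union, mem_union, mem_filter, mem_filter, mem_filter]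
      by_cases h1 : k ≤ (univ.image w.1).card
      · by_cases h2 : k ≤ (univ.image w.2).card
        · exact Or.inr ⟨hw.1, hw.2, h1, h2⟩
        · refine Or.inl (Or.inr ⟨hw.1, hw.2, ?_⟩)
          rw [recBad, mem_filter]
          exact ⟨hw1.2, by omega⟩
      · refine Or.inl (Or.inl ⟨hw.1, hw.2, ?_⟩)
        rw [recBad, mem_filter]
        exact ⟨hw1.1, by omega⟩
    have h := card_le_card hsub
    have h2 := le_trans h (card_union_le _ _)
    have h3 := le_trans h2 (Nat.add_le_add_right (card_union_le _ _) _)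
    have hRb : R * (recBad k (s + k) M).card ≤ R * b := Nat.mul_le_mul_left _ hbad
    have hJc : J = (((box (s + k) M) ×ˢ (box (s + k) M)).filter (fun w => pv k w.1 = pv k w.2)).card := rfl
    rw [← hJc] at h3
    omega
  have hR2 : R * R ≤ J := Nat.sqrt_le J
  by_cases hc : J ≤ 2 * N3
  · have hfin : 2 * N3 ≤ 2 * ((s + k) ^ k) ^ 2 * k ^ 3 * B := by
      calc 2 * N3 ≤ 2 * (SC s (recInj k M) (pv k) (Icc 1 M) * ((s + k) ^ k) ^ 2) :=
            Nat.mul_le_mul_left _ hN3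
        _ ≤ 2 * ((k ^ 3 * B) * ((s + k) ^ k) ^ 2) :=
            Nat.mul_le_mul_left _ (Nat.mul_le_mul_right _ hN4)
        _ = 2 * ((s + k) ^ k) ^ 2 * k ^ 3 * B := by ring
    omega
  · push Not at hc
    have h4 : J ≤ 4 * (R * b) := by omega
    have hJ16 : J ≤ 16 * b ^ 2 := by
      by_cases hJ0 : J = 0
      · rw [hJ0]; exact Nat.zero_le _
      · have h5 : J * J ≤ 16 * b ^ 2 * J := by
          calc J * J ≤ (4 * (R * b)) * (4 * (R * b)) := Nat.mul_le_mul h4 h4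
            _ = 16 * b ^ 2 * (R * R) := by ring
            _ ≤ 16 * b ^ 2 * J := Nat.mul_le_mul_left _ hR2
        exact Nat.le_of_mul_le_mul_right h5 (Nat.pos_of_ne_zero hJ0)
    exact le_trans hJ16 (Nat.le_add_right _ _)

end Pool.Agent.H97.VK

end

section

/-!
# VK Itr: weak form of the Vinogradov mean value theorem

`E_l = 2 l k - (k(k+1)/2) (1 - (1-1/k)^l)` for `l ≥ 1`.  Claim `JV k (l k) M ≤ K_l M^{E_l}` for all `M ≥ 1`, with
`K_l = (C0 k)^{C0 k^2 (k + l)}`, by induction on `l ≤ 8k`.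
`l = 1`: `jv_base`: `k! M^k`, and `E_1 = 2k - (k+1)/2 ≥ k`.
Step: let `Q = ⌈M^{1/k}⌉₊`.  If the number of primes in `(Q,2Q]` is `< k^3` or `Q < k` then `Q ≤ C1 k^4` (`pb_card`: the number is
`≥ Q/(8 log Q)` for `Q ≥ P0`), so `M ≤ Q^k ≤ (C1 k^4)^k` and trivially `JV ≤ M^{2(l+1)k} ≤ M^{E_{l+1}} M^{k(k+1)/2} ≤ M^{E_{l+1}} (C1 k^4)^{k^2(k+1)/2}`.
Otherwise `jv_rec` with `s = l k`: the first term `16 k^{2(l+1)k} M^{2k-2}`, and `2k-2 ≤ E_{l+1}` for `l ≥ 1`
(`E_l ≥ l (3k-1)/2` by Bernoulli `(1-1/k)^l ≥ 1 - l/k`, so `E_{l+1} ≥ 3k-1`).  The second: `Q ≤ 2 M^{1/k}`, `M/Q + 1 ≤ 2 M^{1-1/k}`, so it is at most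
`2 ((l+1)k)^{2k} k^3 k! (4 M^{1/k})^{2lk + k(k-1)/2} M^k K_l (2 M^{1-1/k})^{E_l}` and the exponent of `M` is exactly
`(2lk + k(k-1)/2)/k + k + (1-1/k) E_l = E_{l+1}`.  The constants: everything is `≤ (C0 k)^{C0 k^2}` for `l ≤ 8k` and `C0` large.
(`M = 1` is trivial: `JV = 1`.)
`jv_eight`: `l = 8k`: `(1-1/k)^{8k} ≤ e^{-8} ≤ 1/2900`, `(k(k+1)/2)/2900 ≤ k^2/1000`.
-/

set_option autoImplicit false

namespace Pool.Agent.H97.VK

open Finset

private theorem itr_triv (k s M : ℕ) : JV k s M ≤ M ^ (2 * s) := by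
  unfold JV
  refine (card_filter_le _ _).trans ?_
  rw [card_product]
  unfold box
  rw [Fintype.card_piFinset]
  simp only [Nat.card_Icc, Nat.add_sub_cancel, prod_const, card_univ, Fintype.card_fin]
  rw [← pow_add, two_mul]

private theorem itr_primes : ∃ C1 : ℕ, 1 ≤ C1 ∧ ∀ k Q : ℕ, 2 ≤ k → C1 * k ^ 4 < Q →
    k ≤ Q ∧ k ^ 3 ≤ ((Ioc Q (2 * Q)).filter Nat.Prime).card := by
  obtain ⟨P0, hP0⟩ := Pool.Agent.H76.GB.pb_card
  refine ⟨max P0 10000, le_trans (by norm_num) (le_max_right _ _), ?_⟩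
  intro k Q hk hQ
  have hk4 : 1 ≤ k ^ 4 := Nat.one_le_pow _ _ (by omega)
  have h1 : P0 * k ^ 4 ≤ max P0 10000 * k ^ 4 := Nat.mul_le_mul_right _ (le_max_left _ _)
  have h2 : 10000 * k ^ 4 ≤ max P0 10000 * k ^ 4 := Nat.mul_le_mul_right _ (le_max_right _ _)
  have h3 : P0 * 1 ≤ P0 * k ^ 4 := Nat.mul_le_mul_left _ hk4
  have hkk : k ≤ k ^ 4 := Nat.le_self_pow (by norm_num) k
  refine ⟨by omega, ?_⟩
  have h4 := hP0 Q (by omega)
  have hkR : (2 : ℝ) ≤ k := by exact_mod_cast hk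
  have hQR : (10 * (k : ℝ)) ^ 4 ≤ Q := by
    have h5 : 10000 * k ^ 4 ≤ Q := by omega
    have h6 : (10000 : ℝ) * (k : ℝ) ^ 4 ≤ Q := by exact_mod_cast h5
    calc (10 * (k : ℝ)) ^ 4 = 10000 * (k : ℝ) ^ 4 := by ring
      _ ≤ (Q : ℝ) := h6
  have hQ0 : (0 : ℝ) ≤ Q := Nat.cast_nonneg _
  set y : ℝ := (Q : ℝ) ^ (1 / 4 : ℝ) with hy
  have hy4 : y ^ 4 = Q := by
    rw [hy, ← Real.rpow_natCast, ← Real.rpow_mul hQ0]
    norm_num
  have hy10 : 10 * (k : ℝ) ≤ y := by
    refine le_of_pow_le_pow_left₀ (n := 4) (by norm_num) (Real.rpow_nonneg hQ0 _) ?_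
    rw [hy4]
    exact hQR
  have hy1 : 0 < y := by linarith only [hkR, hy10]
  have hQ1 : (1 : ℝ) < Q := by
    have : (20 : ℝ) ^ 4 ≤ (10 * (k : ℝ)) ^ 4 := by
      gcongr
      linarith only [hkR]
    linarith only [hQR, this]
  have hlog : Real.log Q ≤ 4 * y := by
    have h5 := Real.log_le_rpow_div hQ0 (ε := 1 / 4) (by norm_num)
    rw [← hy] at h5
    linarith only [h5]
  have hlog0 : 0 < Real.log Q := Real.log_pos hQ1
  have h7 : (k : ℝ) ^ 3 ≤ (Q : ℝ) / (8 * Real.log Q) := by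
    rw [le_div_iff₀ (by positivity)]
    have h8 : (k : ℝ) ^ 3 * (8 * Real.log Q) ≤ (k : ℝ) ^ 3 * (8 * (4 * y)) := by
      gcongr
    have h9 : (10 * (k : ℝ)) ^ 3 ≤ y ^ 3 := by
      gcongr
    have h10 : (k : ℝ) ^ 3 * (8 * (4 * y)) ≤ y ^ 4 := by
      have h11 : (10 * (k : ℝ)) ^ 3 * y ≤ y ^ 3 * y := by gcongr
      have h12 : 0 ≤ (k : ℝ) ^ 3 * y := by positivity
      nlinarith only [hy4, hQ1, h11]
    linarith only [hy4, h8, h10]
  have h8 : ((k ^ 3 : ℕ) : ℝ) ≤ ((((Ioc Q (2 * Q)).filter Nat.Prime).card : ℕ) : ℝ) := by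
    push_cast
    exact h7.trans h4
  exact_mod_cast h8

private noncomputable def itrE (k l : ℕ) : ℝ :=
  2 * (l : ℝ) * k - (k : ℝ) * (k + 1) / 2 * (1 - (1 - 1 / (k : ℝ)) ^ l)

private theorem itrE_lb (k l : ℕ) (hk : 2 ≤ k) : (l : ℝ) * (3 * k - 1) / 2 ≤ itrE k l := by
  have hkR : (2 : ℝ) ≤ k := by exact_mod_cast hk
  have h1 : (1 : ℝ) / k ≤ 1 := by
    rw [div_le_one (by linarith only [hkR])]
    linarith
  have h2 := one_add_mul_le_pow (a := -(1 / (k : ℝ))) (by linarith only [h1]) l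
  have h3 : (1 : ℝ) + -(1 / (k : ℝ)) = 1 - 1 / (k : ℝ) := by ring
  rw [h3] at h2
  unfold itrE
  have h4 : (k : ℝ) * (k + 1) / 2 * (1 - (1 - 1 / (k : ℝ)) ^ l) ≤
      (k : ℝ) * (k + 1) / 2 * ((l : ℝ) * (1 / k)) := by
    refine mul_le_mul_of_nonneg_left ?_ (by positivity)
    linarith only [h2]
  have h5 : (k : ℝ) * (k + 1) / 2 * ((l : ℝ) * (1 / k)) = l * (k + 1) / 2 := by
    field_simp
  nlinarith only [h4, h5]

private theorem itr_base (k : ℕ) (hk : 2 ≤ k) : 0 ≤ 1 - 1 / (k : ℝ) ∧ 1 - 1 / (k : ℝ) ≤ 1 := by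
  have hkR : (2 : ℝ) ≤ k := by exact_mod_cast hk
  have h1 : (1 : ℝ) / k ≤ 1 := by
    rw [div_le_one (by linarith only [hkR])]
    linarith
  have h2 : 0 ≤ (1 : ℝ) / k := by positivity
  exact ⟨by linarith only [h1], by linarith⟩

private theorem itrE_ub (k l : ℕ) (hk : 2 ≤ k) : itrE k l ≤ 2 * l * k := by
  obtain ⟨h1, h2⟩ := itr_base k hk
  have h3 := pow_le_one₀ (n := l) h1 h2
  have h4 : 0 ≤ (k : ℝ) * (k + 1) / 2 * (1 - (1 - 1 / (k : ℝ)) ^ l) :=
    mul_nonneg (by positivity) (by linarith only [h3])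
  unfold itrE
  linarith only [h4]

private theorem itrE_triv (k l : ℕ) (hk : 2 ≤ k) :
    2 * (l : ℝ) * k ≤ itrE k l + (k : ℝ) * (k + 1) / 2 := by
  obtain ⟨h1, h2⟩ := itr_base k hk
  have h3 := pow_nonneg h1 l
  have h4 : 0 ≤ (k : ℝ) * (k + 1) / 2 * (1 - 1 / (k : ℝ)) ^ l :=
    mul_nonneg (by positivity) h3
  unfold itrE
  linarith only [h4]

private theorem itrE_succ (k l : ℕ) (hk : 2 ≤ k) :
    2 * (l : ℝ) + ((k : ℝ) - 1) / 2 + k + (1 - 1 / (k : ℝ)) * itrE k l = itrE k (l + 1) := by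
  have hkR : (2 : ℝ) ≤ k := by exact_mod_cast hk
  have hk0 : (k : ℝ) ≠ 0 := by linarith only [hkR]
  unfold itrE
  rw [pow_succ]
  push_cast
  set z := (1 - 1 / (k : ℝ)) ^ l
  field_simp
  ring

private theorem itrE_one (k : ℕ) (hk : 2 ≤ k) : (k : ℝ) ≤ itrE k 1 := by
  have hkR : (2 : ℝ) ≤ k := by exact_mod_cast hk
  have h := itrE_lb k 1 hk
  push_cast at h
  linarith only [hkR, h]

/-- Real form of the second term. -/
private theorem itr_second (k l M Q : ℕ) (hk : 2 ≤ k) (hl8 : l + 1 ≤ 8 * k)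
    (hM : 1 ≤ M) (hQ1 : (Q : ℝ) ≤ 2 * (M : ℝ) ^ (1 / (k : ℝ))) (hQ0 : (M : ℝ) ^ (1 / (k : ℝ)) ≤ Q)
    (K : ℝ) (hK : 0 ≤ K)
    (hJ : (JV k (l * k) (M / Q + 1) : ℝ) ≤ K * ((M / Q + 1 : ℕ) : ℝ) ^ (itrE k l)) :
    2 * (((l * k + k : ℕ) : ℝ) ^ k) ^ 2 * (k : ℝ) ^ 3 * ((2 * (Q : ℝ)) ^ (2 * (l * k)) *
      ((M : ℝ) ^ k * ((k.factorial : ℝ) * (2 * (Q : ℝ)) ^ (k * (k - 1) / 2) *
        JV k (l * k) (M / Q + 1)))) ≤
      (8 * (k : ℝ)) ^ (54 * k ^ 2) * K * (M : ℝ) ^ (itrE k (l + 1)) := by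
  have hkR : (2 : ℝ) ≤ k := by exact_mod_cast hk
  have hMR : (1 : ℝ) ≤ M := by exact_mod_cast hM
  have hM0 : (0 : ℝ) < M := by linarith only [hMR]
  have h8k : (1 : ℝ) ≤ 8 * (k : ℝ) := by linarith only [hkR]
  set r : ℝ := (M : ℝ) ^ (1 / (k : ℝ)) with hr
  have hr1 : 1 ≤ r := Real.one_le_rpow hMR (by positivity)
  have hr0 : 0 < r := by linarith only [hr1]
  have hQpos : (0 : ℝ) < Q := by linarith only [hQ0, hr1]
  have hE0 : 0 ≤ itrE k l := by
    have h := itrE_lb k l hk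
    have h1 : (0 : ℝ) ≤ (l : ℝ) * (3 * k - 1) / 2 := by
      have : (0 : ℝ) ≤ 3 * k - 1 := by linarith only [hkR]
      positivity
    linarith only [h, h1]
  -- the length
  set g : ℝ := (M : ℝ) ^ (1 - 1 / (k : ℝ)) with hg
  have hgr : g * r = M := by
    rw [hg, hr, ← Real.rpow_add hM0, sub_add_cancel, Real.rpow_one]
  have hg1 : 1 ≤ g := Real.one_le_rpow hMR (itr_base k hk).1
  have hlen : ((M / Q + 1 : ℕ) : ℝ) ≤ 2 * g := by
    push_cast
    have h1 : ((M / Q : ℕ) : ℝ) ≤ (M : ℝ) / Q := Nat.cast_div_le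
    have h2 : (M : ℝ) / Q ≤ g := by
      rw [div_le_iff₀ hQpos, ← hgr]
      exact mul_le_mul_of_nonneg_left hQ0 (by linarith only [hg1])
    linarith only [hg1, h1, h2]
  have hJ2 : (JV k (l * k) (M / Q + 1) : ℝ) ≤ K * (2 ^ (16 * k ^ 2) * g ^ (itrE k l)) := by
    refine hJ.trans (mul_le_mul_of_nonneg_left ?_ hK)
    calc ((M / Q + 1 : ℕ) : ℝ) ^ (itrE k l) ≤ (2 * g) ^ (itrE k l) :=
          Real.rpow_le_rpow (Nat.cast_nonneg _) hlen hE0
      _ = 2 ^ (itrE k l) * g ^ (itrE k l) := Real.mul_rpow (by norm_num) (by linarith only [hg1])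
      _ ≤ 2 ^ (16 * k ^ 2) * g ^ (itrE k l) := by
          refine mul_le_mul_of_nonneg_right ?_ (Real.rpow_nonneg (by linarith only [hg1]) _)
          rw [← Real.rpow_natCast 2 (16 * k ^ 2)]
          refine Real.rpow_le_rpow_of_exponent_le (by norm_num) ((itrE_ub k l hk).trans ?_)
          have h1 : l ≤ 8 * k := by omega
          have h2 : (l : ℝ) ≤ 8 * k := by exact_mod_cast h1
          push_cast
          nlinarith only [h2]
  -- powers of 2 Q
  have hQ4 : 2 * (Q : ℝ) ≤ 4 * r := by linarith only [hQ1]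
  have hp1 : (2 * (Q : ℝ)) ^ (2 * (l * k)) ≤ 2 ^ (32 * k ^ 2) * r ^ (2 * (l * k)) := by
    calc (2 * (Q : ℝ)) ^ (2 * (l * k)) ≤ (4 * r) ^ (2 * (l * k)) := by gcongr
      _ = 4 ^ (2 * (l * k)) * r ^ (2 * (l * k)) := mul_pow _ _ _
      _ ≤ 2 ^ (32 * k ^ 2) * r ^ (2 * (l * k)) := by
          refine mul_le_mul_of_nonneg_right ?_ (by positivity)
          have h1 : (4 : ℝ) = 2 ^ 2 := by norm_num
          rw [h1, ← pow_mul]
          refine pow_le_pow_right₀ (by norm_num) ?_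
          have h2 : l * k ≤ 8 * k * k := Nat.mul_le_mul_right _ (by omega)
          nlinarith only [h2]
  have hhalf : k * (k - 1) / 2 * 2 = k * (k - 1) := by
    have h1 : 2 ∣ k * (k - 1) := by
      have := Nat.even_mul_pred_self k
      exact this.two_dvd
    exact Nat.div_mul_cancel h1
  have hhle : k * (k - 1) / 2 ≤ k ^ 2 := by
    have h1 : k * (k - 1) ≤ k * k := Nat.mul_le_mul_left _ (Nat.sub_le _ _)
    rw [pow_two]
    omega
  have hp2 : (2 * (Q : ℝ)) ^ (k * (k - 1) / 2) ≤ 2 ^ (k ^ 2) * r ^ (k * (k - 1) / 2) := by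
    calc (2 * (Q : ℝ)) ^ (k * (k - 1) / 2) ≤ (4 * r) ^ (k * (k - 1) / 2) := by gcongr
      _ = 4 ^ (k * (k - 1) / 2) * r ^ (k * (k - 1) / 2) := mul_pow _ _ _
      _ ≤ 2 ^ (k ^ 2) * r ^ (k * (k - 1) / 2) := by
          refine mul_le_mul_of_nonneg_right ?_ (by positivity)
          have h1 : (4 : ℝ) = 2 ^ 2 := by norm_num
          rw [h1, ← pow_mul]
          refine pow_le_pow_right₀ (by norm_num) ?_
          have h2 : k * (k - 1) ≤ k * k := Nat.mul_le_mul_left _ (Nat.sub_le _ _)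
          rw [pow_two]
          omega
  -- small factors
  have hs1 : (((l * k + k : ℕ) : ℝ) ^ k) ^ 2 ≤ (8 * (k : ℝ)) ^ (4 * k) := by
    have h1 : ((l * k + k : ℕ) : ℝ) ≤ (8 * (k : ℝ)) ^ 2 := by
      have h2 : (l : ℝ) + 1 ≤ 8 * k := by exact_mod_cast hl8
      push_cast
      nlinarith only [hkR, h2]
    calc (((l * k + k : ℕ) : ℝ) ^ k) ^ 2 ≤ (((8 * (k : ℝ)) ^ 2) ^ k) ^ 2 := by gcongr
      _ = (8 * (k : ℝ)) ^ (4 * k) := by
          rw [← pow_mul, ← pow_mul]
          congr 1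
          ring
  have hs2 : (k : ℝ) ^ 3 ≤ (8 * (k : ℝ)) ^ 3 := by
    gcongr
    linarith only [hkR]
  have hs3 : (k.factorial : ℝ) ≤ (8 * (k : ℝ)) ^ k := by
    have h1 : (k.factorial : ℝ) ≤ (k : ℝ) ^ k := by exact_mod_cast Nat.factorial_le_pow k
    refine h1.trans ?_
    gcongr
    linarith only [hkR]
  have h2pow : ∀ n : ℕ, (2 : ℝ) ^ n ≤ (8 * (k : ℝ)) ^ n := by
    intro n
    gcongr
    linarith only [hkR]
  -- the powers of M
  have hrpow : ∀ n : ℕ, r ^ n = (M : ℝ) ^ ((n : ℝ) / k) := by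
    intro n
    rw [hr, ← Real.rpow_natCast, ← Real.rpow_mul hM0.le]
    congr 1
    ring
  have hmpow : r ^ (2 * (l * k)) * ((M : ℝ) ^ k * (r ^ (k * (k - 1) / 2) * g ^ (itrE k l))) =
      (M : ℝ) ^ (itrE k (l + 1)) := by
    rw [hrpow, hrpow, hg, ← Real.rpow_mul hM0.le, ← Real.rpow_natCast (M : ℝ) k,
      ← Real.rpow_add hM0, ← Real.rpow_add hM0, ← Real.rpow_add hM0]
    congr 1
    rw [← itrE_succ k l hk]
    have hk0 : (k : ℝ) ≠ 0 := by linarith only [hkR]
    have e1 : (((2 * (l * k) : ℕ) : ℝ)) / k = 2 * l := by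
      push_cast
      field_simp
    have e2 : (((k * (k - 1) / 2 : ℕ) : ℝ)) / k = ((k : ℝ) - 1) / 2 := by
      have h1 : (((k * (k - 1) / 2 : ℕ) : ℝ)) * 2 = (k : ℝ) * (k - 1) := by
        have h2 : (((k * (k - 1) / 2 * 2 : ℕ) : ℝ)) = ((k * (k - 1) : ℕ) : ℝ) := by rw [hhalf]
        rw [Nat.cast_mul, Nat.cast_mul k, Nat.cast_sub (by omega), Nat.cast_one] at h2
        exact_mod_cast h2
      have h3 : (((k * (k - 1) / 2 : ℕ) : ℝ)) = (k : ℝ) * (k - 1) / 2 := by linarith only [h1]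
      rw [h3]
      field_simp
    rw [e1, e2]
    ring
  -- put together
  have hnn : (0 : ℝ) ≤ g ^ (itrE k l) := Real.rpow_nonneg (by linarith only [hg1]) _
  calc 2 * (((l * k + k : ℕ) : ℝ) ^ k) ^ 2 * (k : ℝ) ^ 3 * ((2 * (Q : ℝ)) ^ (2 * (l * k)) *
      ((M : ℝ) ^ k * ((k.factorial : ℝ) * (2 * (Q : ℝ)) ^ (k * (k - 1) / 2) *
        JV k (l * k) (M / Q + 1))))
      ≤ (8 * (k : ℝ)) ^ 1 * (8 * (k : ℝ)) ^ (4 * k) * (8 * (k : ℝ)) ^ 3 *
        ((2 ^ (32 * k ^ 2) * r ^ (2 * (l * k))) * ((M : ℝ) ^ k * ((8 * (k : ℝ)) ^ k *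
          (2 ^ (k ^ 2) * r ^ (k * (k - 1) / 2)) * (K * (2 ^ (16 * k ^ 2) * g ^ (itrE k l)))))) := by
        gcongr
        rw [pow_one]
        linarith only [hkR]
    _ ≤ (8 * (k : ℝ)) ^ 1 * (8 * (k : ℝ)) ^ (4 * k) * (8 * (k : ℝ)) ^ 3 *
        (((8 * (k : ℝ)) ^ (32 * k ^ 2) * r ^ (2 * (l * k))) * ((M : ℝ) ^ k * ((8 * (k : ℝ)) ^ k *
          ((8 * (k : ℝ)) ^ (k ^ 2) * r ^ (k * (k - 1) / 2)) *
            (K * ((8 * (k : ℝ)) ^ (16 * k ^ 2) * g ^ (itrE k l)))))) := by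
        gcongr
        all_goals linarith only [hkR]
    _ = (8 * (k : ℝ)) ^ (1 + 4 * k + 3 + 32 * k ^ 2 + k + k ^ 2 + 16 * k ^ 2) * K *
        (r ^ (2 * (l * k)) * ((M : ℝ) ^ k * (r ^ (k * (k - 1) / 2) * g ^ (itrE k l)))) := by
        ring
    _ ≤ (8 * (k : ℝ)) ^ (54 * k ^ 2) * K * (M : ℝ) ^ (itrE k (l + 1)) := by
        rw [hmpow]
        gcongr ?_ * K * _
        refine pow_le_pow_right₀ h8k ?_
        nlinarith only [hk]

theorem jv_bound : ∃ C : ℝ, 1 ≤ C ∧ ∀ k l M : ℕ, 2 ≤ k → 1 ≤ l → l ≤ 8 * k → 1 ≤ M →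
    (JV k (l * k) M : ℝ) ≤ (C * k) ^ (C * k ^ 2 * (k + l)) *
      (M : ℝ) ^ (2 * (l : ℝ) * k - (k : ℝ) * (k + 1) / 2 * (1 - (1 - 1 / (k : ℝ)) ^ l)) := by
  obtain ⟨C1, hC1, hprime⟩ := itr_primes
  set C : ℝ := 55 + C1 with hC
  have hC1R : (1 : ℝ) ≤ C1 := by exact_mod_cast hC1
  have hC55 : 55 ≤ C := by linarith only [hC1R]
  refine ⟨C, by linarith only [hC1R], ?_⟩
  intro k l M hk hl
  have hkR : (2 : ℝ) ≤ k := by exact_mod_cast hk
  have hb1 : 1 ≤ C * (k : ℝ) := by nlinarith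
  have hb0 : 0 < C * (k : ℝ) := by linarith
  have hk2 : (1 : ℝ) ≤ (k : ℝ) ^ 2 := by nlinarith only [hkR]
  show l ≤ 8 * k → 1 ≤ M → (JV k (l * k) M : ℝ) ≤ (C * k) ^ (C * k ^ 2 * (k + l)) *
      (M : ℝ) ^ itrE k l
  induction l, hl using Nat.le_induction generalizing M with
  | base =>
    intro _ hM
    have hMR : (1 : ℝ) ≤ M := by exact_mod_cast hM
    have h1 : (JV k (1 * k) M : ℝ) ≤ (k.factorial : ℝ) * (M : ℝ) ^ k := by
      rw [one_mul]
      exact_mod_cast jv_base k M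
    have h2 : (k.factorial : ℝ) ≤ (k : ℝ) ^ k := by exact_mod_cast Nat.factorial_le_pow k
    have h3 : (k : ℝ) ^ k ≤ (C * k) ^ (C * (k : ℝ) ^ 2 * (k + (1 : ℕ))) := by
      calc (k : ℝ) ^ k ≤ (C * k) ^ k := by
            gcongr
            nlinarith
        _ = (C * k) ^ (k : ℝ) := (Real.rpow_natCast _ _).symm
        _ ≤ (C * k) ^ (C * (k : ℝ) ^ 2 * (k + (1 : ℕ))) := by
            refine Real.rpow_le_rpow_of_exponent_le hb1 ?_
            push_cast
            have h4 : (1 : ℝ) ≤ C * (k : ℝ) ^ 2 := by nlinarith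
            nlinarith only [hk2, hb1, hkR]
    have h4 : (M : ℝ) ^ k ≤ (M : ℝ) ^ itrE k 1 := by
      rw [← Real.rpow_natCast]
      exact Real.rpow_le_rpow_of_exponent_le hMR (itrE_one k hk)
    calc (JV k (1 * k) M : ℝ) ≤ (k.factorial : ℝ) * (M : ℝ) ^ k := h1
      _ ≤ (C * k) ^ (C * (k : ℝ) ^ 2 * (k + (1 : ℕ))) * (M : ℝ) ^ itrE k 1 := by
          refine mul_le_mul (h2.trans h3) h4 (by positivity) ?_
          exact Real.rpow_nonneg hb0.le _
  | succ l hl ih =>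
    intro hl8 hM
    have hMR : (1 : ℝ) ≤ M := by exact_mod_cast hM
    have hlR : (1 : ℝ) ≤ l := by exact_mod_cast hl
    have hexp0 : 0 ≤ C * (k : ℝ) ^ 2 * (k + l) := by positivity
    have hKl : 1 ≤ (C * k) ^ (C * (k : ℝ) ^ 2 * (k + l)) := Real.one_le_rpow hb1 hexp0
    have hME : 1 ≤ (M : ℝ) ^ itrE k (l + 1) := by
      refine Real.one_le_rpow hMR ?_
      have h1 := itrE_lb k (l + 1) hk
      push_cast at h1
      have h2 : (0 : ℝ) ≤ ((l : ℝ) + 1) * (3 * k - 1) / 2 := by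
        have : (0 : ℝ) ≤ 3 * k - 1 := by linarith only [hkR]
        positivity
      linarith only [h1, h2]
    by_cases hM1 : M = 1
    · subst hM1
      have h1 : (JV k ((l + 1) * k) 1 : ℝ) ≤ 1 := by
        have h2 := itr_triv k ((l + 1) * k) 1
        rw [one_pow] at h2
        exact_mod_cast h2
      refine h1.trans ?_
      have h2 : 1 ≤ (C * k) ^ (C * (k : ℝ) ^ 2 * (k + (l + 1 : ℕ))) :=
        Real.one_le_rpow hb1 (by positivity)
      nlinarith only [hME, h2]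
    have hM2 : 2 ≤ M := by omega
    set r : ℝ := (M : ℝ) ^ (1 / (k : ℝ)) with hr
    have hr1 : 1 ≤ r := Real.one_le_rpow hMR (by positivity)
    set Q : ℕ := ⌈r⌉₊ with hQ
    have hQge : r ≤ Q := Nat.le_ceil _
    have hQle : (Q : ℝ) ≤ 2 * r := by
      have h1 := Nat.ceil_lt_add_one (a := r) (by linarith only [hr1])
      rw [← hQ] at h1
      linarith only [hr1, h1]
    have hrk : r ^ k = M := by
      rw [hr, ← Real.rpow_natCast, ← Real.rpow_mul (by linarith), one_div,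
        inv_mul_cancel₀ (by linarith only [hkR]), Real.rpow_one]
    have hMQ : M ≤ Q ^ k := by
      have h1 : (M : ℝ) ≤ (Q : ℝ) ^ k := by
        rw [← hrk]
        gcongr
      exact_mod_cast h1
    have hlk : (l + 1) * k = l * k + k := by ring
    by_cases hcase : Q ≤ C1 * k ^ 4
    · -- small Q
      have h1 : (JV k ((l + 1) * k) M : ℝ) ≤ (M : ℝ) ^ (2 * (((l : ℝ) + 1) * k)) := by
        have h2 := itr_triv k ((l + 1) * k) M
        have h3 : (JV k ((l + 1) * k) M : ℝ) ≤ (M : ℝ) ^ (2 * ((l + 1) * k)) := by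
          exact_mod_cast h2
        rw [← Real.rpow_natCast] at h3
        push_cast at h3
        exact h3
      have h2 : 2 * (((l : ℝ) + 1) * k) ≤ itrE k (l + 1) + (k : ℝ) * (k + 1) / 2 := by
        have h3 := itrE_triv k (l + 1) hk
        push_cast at h3
        linarith only [h3]
      have h3 : (M : ℝ) ≤ ((C * k) ^ 4) ^ k := by
        have h4 : (M : ℝ) ≤ (Q : ℝ) ^ k := by exact_mod_cast hMQ
        refine h4.trans ?_
        gcongr
        have h5 : (Q : ℝ) ≤ C1 * (k : ℝ) ^ 4 := by exact_mod_cast hcase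
        refine h5.trans ?_
        rw [mul_pow]
        gcongr
        have h6 : C ≤ C ^ 4 := le_self_pow₀ (by linarith only [hC1R]) (by norm_num)
        linarith only [h6]
      have h4 : (M : ℝ) ^ ((k : ℝ) * (k + 1) / 2) ≤
          (C * k) ^ (C * (k : ℝ) ^ 2 * (k + (l + 1 : ℕ))) := by
        calc (M : ℝ) ^ ((k : ℝ) * (k + 1) / 2) ≤
              (((C * k) ^ 4) ^ k) ^ ((k : ℝ) * (k + 1) / 2) :=
              Real.rpow_le_rpow (by linarith only [hMR]) h3 (by positivity)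
          _ = (C * k) ^ ((4 * k : ℕ) * ((k : ℝ) * (k + 1) / 2)) := by
              rw [← pow_mul, ← Real.rpow_natCast, ← Real.rpow_mul hb0.le]
          _ ≤ (C * k) ^ (C * (k : ℝ) ^ 2 * (k + (l + 1 : ℕ))) := by
              refine Real.rpow_le_rpow_of_exponent_le hb1 ?_
              push_cast
              have e1 : (4 * (k : ℝ)) * ((k : ℝ) * (k + 1) / 2) = 2 * (k : ℝ) ^ 2 * (k + 1) := by
                ring
              rw [e1]
              gcongr
              · linarith only [hC1R]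
              · linarith only [hlR]
      calc (JV k ((l + 1) * k) M : ℝ) ≤ (M : ℝ) ^ (2 * (((l : ℝ) + 1) * k)) := h1
        _ ≤ (M : ℝ) ^ (itrE k (l + 1) + (k : ℝ) * (k + 1) / 2) :=
            Real.rpow_le_rpow_of_exponent_le hMR h2
        _ = (M : ℝ) ^ ((k : ℝ) * (k + 1) / 2) * (M : ℝ) ^ itrE k (l + 1) := by
            rw [Real.rpow_add (by linarith only [hMR]), mul_comm]
        _ ≤ (C * k) ^ (C * (k : ℝ) ^ 2 * (k + (l + 1 : ℕ))) * (M : ℝ) ^ itrE k (l + 1) := by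
            gcongr
    · -- many primes
      obtain ⟨hkQ, hP⟩ := hprime k Q hk (by omega)
      have hnat := jv_rec k (l * k) M Q hk (Nat.mul_pos (by omega) (by omega)) hM2 hMQ hkQ hP
      have hrec : (JV k (l * k + k) M : ℝ) ≤ 16 * ((k : ℝ) ^ (l * k + k) * (M : ℝ) ^ (k - 1)) ^ 2 +
          2 * (((l * k + k : ℕ) : ℝ) ^ k) ^ 2 * (k : ℝ) ^ 3 * ((2 * (Q : ℝ)) ^ (2 * (l * k)) *
            ((M : ℝ) ^ k * ((k.factorial : ℝ) * (2 * (Q : ℝ)) ^ (k * (k - 1) / 2) *
              JV k (l * k) (M / Q + 1)))) := by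
        have h1 : (JV k (l * k + k) M : ℝ) ≤ 16 * ((k : ℝ) ^ (l * k + k) * (M : ℝ) ^ (k - 1)) ^ 2 +
            2 * (((l * k + k : ℕ) : ℝ) ^ k) ^ 2 * (k : ℝ) ^ 3 * ((2 * (Q : ℝ)) ^ (2 * (l * k)) *
            ((M : ℝ) ^ k * ((k.factorial : ℝ) * (2 * (Q : ℝ)) ^ (k * (k - 1) / 2)) *
              JV k (l * k) (M / Q + 1))) := by
          exact_mod_cast hnat
        refine h1.trans_eq ?_
        rw [mul_assoc ((M : ℝ) ^ k)]
      have hsec := itr_second k l M Q hk hl8 hM hQle hQge _ (by linarith only [hKl])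
        (ih (M / Q + 1) (by omega) (Nat.le_add_left 1 _))
      have h8k : (1 : ℝ) ≤ 8 * (k : ℝ) := by linarith only [hkR]
      have hfirst : 16 * ((k : ℝ) ^ (l * k + k) * (M : ℝ) ^ (k - 1)) ^ 2 ≤
          (8 * (k : ℝ)) ^ (54 * k ^ 2) * (C * k) ^ (C * (k : ℝ) ^ 2 * (k + l)) *
            (M : ℝ) ^ itrE k (l + 1) := by
        have h1 : ((k : ℝ) ^ (l * k + k)) ^ 2 ≤ (8 * (k : ℝ)) ^ (16 * k ^ 2) := by
          rw [← pow_mul]
          calc (k : ℝ) ^ ((l * k + k) * 2) ≤ (8 * (k : ℝ)) ^ ((l * k + k) * 2) := by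
                gcongr
                linarith only [hkR]
            _ ≤ (8 * (k : ℝ)) ^ (16 * k ^ 2) := by
                refine pow_le_pow_right₀ h8k ?_
                have h2 : (l + 1) * k ≤ 8 * k * k := Nat.mul_le_mul_right _ hl8
                nlinarith only [h2]
        have h2 : ((M : ℝ) ^ (k - 1)) ^ 2 ≤ (M : ℝ) ^ itrE k (l + 1) := by
          rw [← pow_mul, ← Real.rpow_natCast]
          refine Real.rpow_le_rpow_of_exponent_le hMR ?_
          have h3 := itrE_lb k (l + 1) hk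
          rw [Nat.cast_mul, Nat.cast_sub (by omega)]
          push_cast at h3 ⊢
          nlinarith only [hkR, h3, hlR]
        have h3 : (16 : ℝ) ≤ (8 * (k : ℝ)) ^ 2 := by nlinarith only [hk2]
        calc 16 * ((k : ℝ) ^ (l * k + k) * (M : ℝ) ^ (k - 1)) ^ 2
            = 16 * (((k : ℝ) ^ (l * k + k)) ^ 2 * ((M : ℝ) ^ (k - 1)) ^ 2) := by ring
          _ ≤ (8 * (k : ℝ)) ^ 2 * ((8 * (k : ℝ)) ^ (16 * k ^ 2) * (M : ℝ) ^ itrE k (l + 1)) := by
              gcongr
          _ = (8 * (k : ℝ)) ^ (2 + 16 * k ^ 2) * 1 * (M : ℝ) ^ itrE k (l + 1) := by ring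
          _ ≤ (8 * (k : ℝ)) ^ (54 * k ^ 2) * (C * k) ^ (C * (k : ℝ) ^ 2 * (k + l)) *
              (M : ℝ) ^ itrE k (l + 1) := by
              have h4 : (8 * (k : ℝ)) ^ (2 + 16 * k ^ 2) ≤ (8 * (k : ℝ)) ^ (54 * k ^ 2) := by
                refine pow_le_pow_right₀ h8k ?_
                have : 2 ≤ k ^ 2 := by nlinarith only [hk]
                omega
              exact mul_le_mul_of_nonneg_right (mul_le_mul h4 hKl zero_le_one (by positivity))
                (by linarith only [hME])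
      have hb : (8 * (k : ℝ)) ^ (55 * k ^ 2) ≤ (C * k) ^ (C * (k : ℝ) ^ 2) := by
        calc (8 * (k : ℝ)) ^ (55 * k ^ 2) ≤ (C * k) ^ (55 * k ^ 2) := by
              gcongr
              linarith only [hC1R]
          _ = (C * k) ^ ((55 * k ^ 2 : ℕ) : ℝ) := (Real.rpow_natCast _ _).symm
          _ ≤ (C * k) ^ (C * (k : ℝ) ^ 2) := by
              refine Real.rpow_le_rpow_of_exponent_le hb1 ?_
              push_cast
              gcongr
      have h2le : (2 : ℝ) * (8 * (k : ℝ)) ^ (54 * k ^ 2) ≤ (8 * (k : ℝ)) ^ (55 * k ^ 2) := by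
        calc (2 : ℝ) * (8 * (k : ℝ)) ^ (54 * k ^ 2) ≤
              (8 * (k : ℝ)) ^ 1 * (8 * (k : ℝ)) ^ (54 * k ^ 2) := by
              gcongr
              rw [pow_one]
              linarith only [hkR]
          _ = (8 * (k : ℝ)) ^ (1 + 54 * k ^ 2) := (pow_add _ _ _).symm
          _ ≤ (8 * (k : ℝ)) ^ (55 * k ^ 2) := by
              refine pow_le_pow_right₀ h8k ?_
              have : 1 ≤ k ^ 2 := Nat.one_le_pow _ _ (by omega)
              omega
      have hfin : (C * k) ^ (C * (k : ℝ) ^ 2 * (k + (l + 1 : ℕ))) =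
          (C * k) ^ (C * (k : ℝ) ^ 2) * (C * k) ^ (C * (k : ℝ) ^ 2 * (k + l)) := by
        rw [← Real.rpow_add hb0]
        congr 1
        push_cast
        ring
      rw [hlk, hfin]
      have hnn : 0 ≤ (C * k) ^ (C * (k : ℝ) ^ 2 * (k + l)) * (M : ℝ) ^ itrE k (l + 1) := by
        have := Real.rpow_nonneg hb0.le (C * (k : ℝ) ^ 2 * (k + l))
        positivity
      calc (JV k (l * k + k) M : ℝ) ≤ 2 * (8 * (k : ℝ)) ^ (54 * k ^ 2) *
            ((C * k) ^ (C * (k : ℝ) ^ 2 * (k + l)) * (M : ℝ) ^ itrE k (l + 1)) := by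
            linarith only [hrec, hsec, hfirst]
        _ ≤ (C * k) ^ (C * (k : ℝ) ^ 2) *
            ((C * k) ^ (C * (k : ℝ) ^ 2 * (k + l)) * (M : ℝ) ^ itrE k (l + 1)) :=
            mul_le_mul_of_nonneg_right (h2le.trans hb) hnn
        _ = _ := by ring

theorem jv_eight : ∃ C : ℝ, 1 ≤ C ∧ ∀ k M : ℕ, 2 ≤ k → 1 ≤ M →
    (JV k (8 * k ^ 2) M : ℝ) ≤ (C * k) ^ (C * k ^ 3) *
      (M : ℝ) ^ (16 * (k : ℝ) ^ 2 - (k : ℝ) * (k + 1) / 2 + (k : ℝ) ^ 2 / 1000) := by
  obtain ⟨C, hC, h⟩ := jv_bound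
  refine ⟨9 * C, by linarith, ?_⟩
  intro k M hk hM
  have hkR : (2 : ℝ) ≤ k := by exact_mod_cast hk
  have hMR : (1 : ℝ) ≤ M := by exact_mod_cast hM
  have h1 := h k (8 * k) M hk (by omega) le_rfl hM
  have e1 : 8 * k * k = 8 * k ^ 2 := by ring
  rw [e1] at h1
  have hb1 : 1 ≤ C * (k : ℝ) := by nlinarith only [hkR, hC]
  refine h1.trans (mul_le_mul ?_ ?_ (Real.rpow_nonneg (by linarith only [hMR]) _)
    (Real.rpow_nonneg (by nlinarith only [hb1]) _))
  · calc (C * (k : ℝ)) ^ (C * (k : ℝ) ^ 2 * (k + ((8 * k : ℕ) : ℝ))) ≤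
          (9 * C * (k : ℝ)) ^ (C * (k : ℝ) ^ 2 * (k + ((8 * k : ℕ) : ℝ))) := by
          refine Real.rpow_le_rpow (by linarith only [hb1]) ?_ (by positivity)
          nlinarith only [hb1]
      _ = (9 * C * (k : ℝ)) ^ (9 * C * (k : ℝ) ^ 3) := by
          congr 1
          push_cast
          ring
  · refine Real.rpow_le_rpow_of_exponent_le hMR ?_
    have h2 : (1 - 1 / (k : ℝ)) ^ (8 * k) ≤ 1 / 2000 := by
      have h3 : 1 - 1 / (k : ℝ) ≤ Real.exp (-(1 / (k : ℝ))) := by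
        have := Real.add_one_le_exp (-(1 / (k : ℝ)))
        linarith only [this]
      calc (1 - 1 / (k : ℝ)) ^ (8 * k) ≤ (Real.exp (-(1 / (k : ℝ)))) ^ (8 * k) :=
            pow_le_pow_left₀ (itr_base k hk).1 h3 _
        _ = Real.exp (-8) := by
            rw [← Real.exp_nat_mul]
            congr 1
            push_cast
            have hk0 : (k : ℝ) ≠ 0 := by linarith only [hkR]
            field_simp
        _ ≤ 1 / 2000 := by
            rw [Real.exp_neg, ← one_div]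
            have h4 : (2.7 : ℝ) ≤ Real.exp 1 := by
              have := Real.exp_one_gt_d9
              linarith only [this]
            have h5 : Real.exp 8 = Real.exp 1 ^ 8 := by
              rw [← Real.exp_nat_mul]
              norm_num
            have h6 : (2000 : ℝ) ≤ Real.exp 8 := by
              rw [h5]
              calc (2000 : ℝ) ≤ 2.7 ^ 8 := by norm_num
                _ ≤ Real.exp 1 ^ 8 := by gcongr
            exact one_div_le_one_div_of_le (by norm_num) h6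
    have h3 : (k : ℝ) * (k + 1) / 2 * (1 - 1 / (k : ℝ)) ^ (8 * k) ≤
        (k : ℝ) * (k + 1) / 2 * (1 / 2000) := by
      gcongr
    have h4 : (k : ℝ) * (k + 1) / 2 * (1 / 2000) ≤ (k : ℝ) ^ 2 / 1000 := by nlinarith only [hkR]
    push_cast
    nlinarith only [h3, h4]

end Pool.Agent.H97.VK

end
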