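import Pool.Agent.H43.PJ.H97.VK.VExp
import Pool.Agent.H43.PJ.M12
import Pool.Agent.H43.PJ.M17
import Pool.Agent.H43.PJ.M19
import Pool.Agent.H43.PJ.M20

/-! The parts of this file: H76.VKT.FkUp, H76.VKT.Exp, H76.VKT.PSum, H76.VKT.SmShW, H97.VK.VChain. -/

section

/-!
# VKT (H97/VK of helper97 with the parameter `T0.t` in place of `9/10`, `t1` in place of `19/20`) FkUp: bounds for the series of `Λ(n) ψ(n) (log n)^k`

Proof.  `Lk_succ_eq` (`EHA/SwF.lean`): `Lk (k+1) = ∑_{i ≤ k} C(k,i) Lk i · Fk (k-i)`; solve for `Fk k` and use strong induction on `k`, `lk_low`, `lk_up`: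
`‖Fk k‖ ≤ (LL^7/c) (C L9^{k+1} LL^{k+2} + ∑_{1≤i≤k} C(k,i) C L9^i LL^{i+1} · C' L9^{k-i+1} LL^{20(k-i+1)}) ≤ C'' L9^{k+1} LL^{20(k+1)}`
(`7 + k + 2 ≤ 20(k+1)`, `7 + i + 1 + 20(k-i+1) ≤ 20(k+1)` for `i ≥ 1`).
-/

set_option autoImplicit false

namespace Pool.Agent.H76.VKT

open Finset
open Pool.Agent.H91.EHA

theorem fk_up_h [T0] (h_lk_low : lk_low_P) (h_lk_up : lk_up_P)  (k B : ℕ) : ∃ C : ℝ, 1 ≤ C ∧ ∃ K' x0 : ℕ, ∀ x : ℕ, x0 ≤ x → ∀ (d : ℕ) (χ : DirichletCharacter ℂ d) (s : ℂ),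
    1 ≤ d → (d : ℝ) ≤ Real.log x ^ B → 1 + 1 / (4 * Real.log x) ≤ s.re → s.re ≤ 2 →
    Real.log x ^ K' ≤ |s.im| → |s.im| ≤ 3 * (x : ℝ) ^ (3 : ℕ) →
    ‖Fk (qm x d) (ch x χ) k s‖ ≤ C * L9 x ^ (k + 1) * LL x ^ (20 * (k + 1)) := by
  induction k using Nat.strong_induction_on with
  | _ k ih =>
  have hlk : ∀ i : ℕ, ∃ C : ℝ, 1 ≤ C ∧ ∃ K' x0 : ℕ, ∀ x : ℕ, x0 ≤ x →
      ∀ (d : ℕ) (χ : DirichletCharacter ℂ d) (s : ℂ),
      1 ≤ d → (d : ℝ) ≤ Real.log x ^ B → 1 + 1 / (4 * Real.log x) ≤ s.re → s.re ≤ 2 →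
      Real.log x ^ K' ≤ |s.im| → |s.im| ≤ 6 * (x : ℝ) ^ (3 : ℕ) →
      ‖Lk (qm x d) (ch x χ) i s‖ ≤ C * L9 x ^ i * LL x ^ (i + 1) := fun i => h_lk_up i B
  have hfk : ∀ j : ℕ, ∃ C : ℝ, 1 ≤ C ∧ ∃ K' x0 : ℕ, j < k → ∀ x : ℕ, x0 ≤ x →
      ∀ (d : ℕ) (χ : DirichletCharacter ℂ d) (s : ℂ),
      1 ≤ d → (d : ℝ) ≤ Real.log x ^ B → 1 + 1 / (4 * Real.log x) ≤ s.re → s.re ≤ 2 →
      Real.log x ^ K' ≤ |s.im| → |s.im| ≤ 3 * (x : ℝ) ^ (3 : ℕ) →
      ‖Fk (qm x d) (ch x χ) j s‖ ≤ C * L9 x ^ (j + 1) * LL x ^ (20 * (j + 1)) := by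
    intro j
    rcases lt_or_ge j k with h | h
    · obtain ⟨C, hC, K', x0, hx⟩ := ih j h
      exact ⟨C, hC, K', x0, fun _ => hx⟩
    · exact ⟨1, le_rfl, 0, 0, fun h' => absurd h' (by omega)⟩
  choose CL hCL KL xL hL using hlk
  choose CF hCF KF xF hF using hfk
  obtain ⟨c, hc, hc1, K0, xc, hlow⟩ := h_lk_low B
  obtain ⟨xe, hxe⟩ := yx_ev
  obtain ⟨S, hS⟩ : ∃ S : ℝ, S = CL (k + 1) +
      ∑ i ∈ range k, (k.choose (i + 1) : ℝ) * (CL (i + 1) * CF (k - (i + 1))) := ⟨_, rfl⟩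
  have hS1 : 1 ≤ S := by
    rw [hS]
    have h1 : 0 ≤ ∑ i ∈ range k, (k.choose (i + 1) : ℝ) * (CL (i + 1) * CF (k - (i + 1))) :=
      sum_nonneg fun i _ => mul_nonneg (by positivity)
        (mul_nonneg (by linarith [hCL (i + 1)]) (by linarith [hCF (k - (i + 1))]))
    linarith [hCL (k + 1)]
  refine ⟨S / c, ?_, K0 + ∑ i ∈ range (k + 2), KL i + ∑ i ∈ range (k + 2), KF i,
    xc + xe + ∑ i ∈ range (k + 2), xL i + ∑ i ∈ range (k + 2), xF i, ?_⟩
  · rw [le_div_iff₀ hc]; linarith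
  intro x hx d χ s hd hdB hs1 hs2 him1 him2
  have hxL : ∀ i, i < k + 2 → xL i ≤ x := by
    intro i hi
    have h1 : xL i ≤ ∑ i ∈ range (k + 2), xL i :=
      single_le_sum (f := xL) (fun _ _ => Nat.zero_le _) (mem_range.2 hi)
    omega
  have hxF : ∀ i, i < k + 2 → xF i ≤ x := by
    intro i hi
    have h1 : xF i ≤ ∑ i ∈ range (k + 2), xF i :=
      single_le_sum (f := xF) (fun _ _ => Nat.zero_le _) (mem_range.2 hi)
    omega
  obtain ⟨-, -, -, hLL1, hL91, hlog1, -⟩ := hxe x (by omega)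
  have himp : ∀ K : ℕ, K ≤ K0 + ∑ i ∈ range (k + 2), KL i + ∑ i ∈ range (k + 2), KF i →
      Real.log x ^ K ≤ |s.im| := fun K hK =>
    (pow_le_pow_right₀ hlog1 hK).trans him1
  have hKL : ∀ i, i < k + 2 → Real.log x ^ KL i ≤ |s.im| := by
    intro i hi
    refine himp _ ?_
    have h1 : KL i ≤ ∑ i ∈ range (k + 2), KL i :=
      single_le_sum (f := KL) (fun _ _ => Nat.zero_le _) (mem_range.2 hi)
    omega
  have hKF : ∀ i, i < k + 2 → Real.log x ^ KF i ≤ |s.im| := by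
    intro i hi
    refine himp _ ?_
    have h1 : KF i ≤ ∑ i ∈ range (k + 2), KF i :=
      single_le_sum (f := KF) (fun _ _ => Nat.zero_le _) (mem_range.2 hi)
    omega
  have hx3 : (0:ℝ) ≤ (x : ℝ) ^ (3 : ℕ) := by positivity
  have him6 : |s.im| ≤ 6 * (x : ℝ) ^ (3 : ℕ) := by linarith
  have hs : 1 < s.re := by
    have h1 : 0 < 1 / (4 * Real.log x) := by positivity
    linarith
  have hLi : ∀ i, i < k + 2 →
      ‖Lk (qm x d) (ch x χ) i s‖ ≤ CL i * L9 x ^ i * LL x ^ (i + 1) := fun i hi =>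
    hL i x (hxL i hi) d χ s hd hdB hs1 hs2 (hKL i hi) him6
  have hFi : ∀ j, j < k →
      ‖Fk (qm x d) (ch x χ) j s‖ ≤ CF j * L9 x ^ (j + 1) * LL x ^ (20 * (j + 1)) := fun j hj =>
    hF j hj x (hxF j (by omega)) d χ s hd hdB hs1 hs2 (hKF j (by omega)) him2
  have hlow' := hlow x (by omega) d χ s hd hdB hs1 hs2 (himp K0 (by omega)) him2
  obtain ⟨a, ha⟩ : ∃ a, a = L9 x := ⟨_, rfl⟩
  obtain ⟨l, hl⟩ : ∃ l, l = LL x := ⟨_, rfl⟩
  rw [← ha] at hL91
  rw [← hl] at hLL1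
  simp only [← ha, ← hl] at hLi hFi hlow' ⊢
  have ha0 : 0 < a := by linarith
  have hl0 : 0 < l := by linarith
  have heq := Lk_succ_eq (qm x d) (ch x χ) k s hs
  rw [Finset.sum_range_succ'] at heq
  simp only [Nat.choose_zero_right, Nat.cast_one, one_mul, Nat.sub_zero] at heq
  have h1 : Lk (qm x d) (ch x χ) 0 s * Fk (qm x d) (ch x χ) k s =
      Lk (qm x d) (ch x χ) (k + 1) s -
      ∑ i ∈ range k, (k.choose (i + 1) : ℂ) * (Lk (qm x d) (ch x χ) (i + 1) s *
        Fk (qm x d) (ch x χ) (k - (i + 1)) s) := by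
    rw [heq]
    ring
  have h2 : ‖Lk (qm x d) (ch x χ) (k + 1) s‖ ≤ CL (k + 1) * (a ^ (k + 1) * l ^ (20 * k + 13)) := by
    refine (hLi (k + 1) (by omega)).trans ?_
    rw [mul_assoc]
    refine mul_le_mul_of_nonneg_left ?_ (by linarith [hCL (k + 1)])
    exact mul_le_mul_of_nonneg_left (pow_le_pow_right₀ hLL1 (by omega)) (by positivity)
  have h3 : ∀ i ∈ range k, ‖(k.choose (i + 1) : ℂ) * (Lk (qm x d) (ch x χ) (i + 1) s *
        Fk (qm x d) (ch x χ) (k - (i + 1)) s)‖ ≤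
      (k.choose (i + 1) : ℝ) * (CL (i + 1) * CF (k - (i + 1))) *
        (a ^ (k + 1) * l ^ (20 * k + 13)) := by
    intro i hi
    rw [mem_range] at hi
    rw [norm_mul, norm_mul, Complex.norm_natCast, mul_assoc]
    refine mul_le_mul_of_nonneg_left ?_ (by positivity)
    have hA := hLi (i + 1) (by omega)
    have hB := hFi (k - (i + 1)) (by omega)
    have hc1' := hCL (i + 1)
    have hc2' := hCF (k - (i + 1))
    calc ‖Lk (qm x d) (ch x χ) (i + 1) s‖ * ‖Fk (qm x d) (ch x χ) (k - (i + 1)) s‖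
        ≤ (CL (i + 1) * a ^ (i + 1) * l ^ (i + 1 + 1)) *
          (CF (k - (i + 1)) * a ^ (k - (i + 1) + 1) * l ^ (20 * (k - (i + 1) + 1))) :=
          mul_le_mul hA hB (norm_nonneg _) (by positivity)
      _ = CL (i + 1) * CF (k - (i + 1)) * (a ^ ((i + 1) + (k - (i + 1) + 1)) *
          l ^ ((i + 1 + 1) + 20 * (k - (i + 1) + 1))) := by
          rw [pow_add a (i + 1), pow_add l (i + 1 + 1)]; ring
      _ ≤ CL (i + 1) * CF (k - (i + 1)) * (a ^ (k + 1) * l ^ (20 * k + 13)) := by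
          refine mul_le_mul_of_nonneg_left ?_ (mul_nonneg (by linarith) (by linarith))
          rw [show (i + 1) + (k - (i + 1) + 1) = k + 1 by omega]
          exact mul_le_mul_of_nonneg_left (pow_le_pow_right₀ hLL1 (by omega)) (by positivity)
  have h4 : ‖Lk (qm x d) (ch x χ) 0 s‖ * ‖Fk (qm x d) (ch x χ) k s‖ ≤
      S * (a ^ (k + 1) * l ^ (20 * k + 13)) := by
    rw [← norm_mul, h1]
    refine (norm_sub_le _ _).trans ?_
    rw [hS, add_mul, sum_mul]
    exact add_le_add h2 ((norm_sum_le _ _).trans (sum_le_sum h3))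
  have h5 : c / l ^ 7 * ‖Fk (qm x d) (ch x χ) k s‖ ≤ S * (a ^ (k + 1) * l ^ (20 * k + 13)) :=
    (mul_le_mul_of_nonneg_right hlow' (norm_nonneg _)).trans h4
  have h6 : ‖Fk (qm x d) (ch x χ) k s‖ ≤ (S * (a ^ (k + 1) * l ^ (20 * k + 13))) / (c / l ^ 7) := by
    rw [le_div_iff₀ (by positivity), mul_comm]
    exact h5
  refine h6.trans (le_of_eq ?_)
  rw [show 20 * (k + 1) = (20 * k + 13) + 7 by ring, pow_add l (20 * k + 13) 7]
  field_simp

end Pool.Agent.H76.VKT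

end

section

/-!
# VKT (H97/VK of helper97 with the parameter `T0.t` in place of `9/10`, `t1` in place of `19/20`) Exp: saving every power of `log x` for `K ≥ exp((log x)^{9/10})`

Proof.  Let `L = log x`, `M0 = K / L^{A+2}`.  The terms `n ≤ M0` contribute at most `K / L^{A+2} + 1`.  Cut `(M0, b]` into `≤ (A+2) log L/log 2 + 2 ≤ L` intervals
`(a', b'] ⊂ (M, 2M]`, `M ≥ M0/2 ≥ exp(L^{9/10}/2)`, `M ≤ K`.
Block with `|t| ≤ M^{1/3}`: `EHB.low_sum`: `≤ 4 M/|t| + 7 M^{1/3}`.  Block with `M^{1/3} ≤ |t| ≤ M^{12}`: `EHB.vdc 12`: `≤ C0 M^{1-δ0}`.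
Block with `|t| > M^{12}`: let `κ = ⌈log|t|/(4 log M)⌉₊ ≥ 4` (as `|t| > M^{12}` the quotient is `> 3`); then `M^{4κ-4} ≤ |t| ≤ M^{4κ}`, `κ ≤ 3L/(4·L^{9/10}/2) + 1 ≤ 3 L^{1/10}`,
and `(Cκ)^C ≤ L^{C} ≤ M`: `vexp`: `≤ C M exp(-c L^{9/10}/(2·9 L^{2/10})) ≤ C M exp(-c' L^{7/10}) ≤ M/L^{A+2}` for large `x`.
The `M = M0 2^i` sum to at most `4K`; so the total is `≤ 16 K/|t| + K/L^A`.
-/

set_option autoImplicit false

namespace Pool.Agent.H76.VKT

open Finset
open Pool.Agent.H91.PK (ee)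

private theorem Exp_triv (a b : ℕ) (β t : ℝ) :
    ‖∑ n ∈ Ioc a b, ee (t * Real.log (n + β))‖ ≤ b := by
  have h1 : ‖∑ n ∈ Ioc a b, ee (t * Real.log (n + β))‖ ≤ ∑ n ∈ Ioc a b, (1 : ℝ) := by
    refine (norm_sum_le _ _).trans (Finset.sum_le_sum fun n _ => ?_)
    rw [Pool.Agent.H91.PK.LSa_norm_ee]
  refine h1.trans ?_
  rw [Finset.sum_const, Nat.card_Ioc, nsmul_eq_mul, mul_one]
  exact_mod_cast Nat.sub_le b a

/-- dyadic induction -/
private theorem Exp_all (T E β t : ℝ) (hT : 3 ≤ T) (hE : 0 ≤ E)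
    (h : ∀ M a b : ℕ, T / 2 ≤ M → M ≤ a → b ≤ 2 * M →
      ‖∑ n ∈ Ioc a b, ee (t * Real.log (n + β))‖ ≤ E * M) (b : ℕ) :
    ∀ a : ℕ, ‖∑ n ∈ Ioc a b, ee (t * Real.log (n + β))‖ ≤ T + 2 * E * b := by
  induction b using Nat.strong_induction_on with
  | _ b ih =>
    intro a
    have hG : 0 ≤ 2 * E * (b : ℝ) := by positivity
    rcases le_or_gt (b : ℝ) T with hbT | hbT
    · have := Exp_triv a b β t
      linarith
    · have hb3 : 3 < b := by
        have : (3 : ℝ) < b := by linarith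
        exact_mod_cast this
      set M := (b + 1) / 2 with hMdef
      have hMb : M < b := by omega
      have hM1 : 1 ≤ M := by omega
      have hb2 : b ≤ 2 * M := by omega
      have h3M : 3 * M ≤ 2 * b := by omega
      have hMr : (M : ℝ) ≤ 2 / 3 * b := by
        have : (3 : ℝ) * M ≤ 2 * b := by exact_mod_cast h3M
        linarith only [this]
      have hMT : T / 2 ≤ (M : ℝ) := by
        have : (b : ℝ) ≤ 2 * M := by exact_mod_cast hb2
        linarith only [hbT, this]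
      have hEM : E * (M : ℝ) ≤ E * (2 / 3 * b) := mul_le_mul_of_nonneg_left hMr hE
      rcases le_or_gt M a with haM | haM
      · have h := h M a b hMT haM hb2
        nlinarith only [hT, hG, hEM, h]
      · have h := h M M b hMT le_rfl hb2
        have h' := ih M hMb a
        have e : ∑ n ∈ Ioc a b, ee (t * Real.log (n + β)) =
            ∑ n ∈ Ioc a M, ee (t * Real.log (n + β)) +
              ∑ n ∈ Ioc M b, ee (t * Real.log (n + β)) :=
          (Finset.sum_Ioc_consecutive _ haM.le hMb.le).symm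
        rw [e]
        have := norm_add_le (∑ n ∈ Ioc a M, ee (t * Real.log (n + β)))
          (∑ n ∈ Ioc M b, ee (t * Real.log (n + β)))
        nlinarith only [hEM, h, h', this]

/-- exponentials beat powers -/
private theorem Exp_ev (D s c e : ℝ) (hc : 0 < c) (he : 0 < e) :
    ∀ᶠ L : ℝ in Filter.atTop, D * L ^ s ≤ Real.exp (c * L ^ e) := by
  have h1 := isLittleO_rpow_exp_pos_mul_atTop (s / e) hc
  have hD : 0 < 1 / (|D| + 1) := by positivity
  have h2 := h1.def hD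
  have h3 := (tendsto_rpow_atTop he).eventually h2
  filter_upwards [h3, Filter.eventually_ge_atTop 1] with L hL hL1
  have hL0 : 0 ≤ L := by linarith
  rw [← Real.rpow_mul hL0] at hL
  have e1 : e * (s / e) = s := by field_simp
  rw [e1, Real.norm_of_nonneg (Real.rpow_nonneg hL0 _), Real.norm_of_nonneg (Real.exp_pos _).le,
    div_mul_eq_mul_div, le_div_iff₀ (by positivity), one_mul] at hL
  have h0 : 0 ≤ L ^ s := Real.rpow_nonneg hL0 _
  calc D * L ^ s ≤ (|D| + 1) * L ^ s :=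
        mul_le_mul_of_nonneg_right (by linarith [le_abs_self D]) h0
    _ = L ^ s * (|D| + 1) := mul_comm _ _
    _ ≤ _ := hL

theorem vk_exp_h [T0] (h_vexp : Pool.Agent.H97.VK.vexp_P)  (A : ℕ) : ∃ x0 : ℕ, ∀ x : ℕ, x0 ≤ x → ∀ (K a b : ℕ) (β t : ℝ),
    Real.exp (Real.log x ^ T0.t) ≤ K → K ≤ x → b ≤ K → 0 ≤ β → β ≤ 1 →
    1 ≤ |t| → |t| ≤ (x : ℝ) ^ (3 : ℕ) →
    ‖∑ n ∈ Ioc a b, ee (t * Real.log (n + β))‖ ≤ K * (100 / |t| + 1 / Real.log x ^ A) := by
  have hlo := T0.lo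
  have hhi := T0.hi
  obtain ⟨c, C, hc, hC, hve⟩ := h_vexp
  obtain ⟨δ0, C0, hδ0, hδ01, hC0, hv⟩ := Pool.Agent.H76.EHB.vdc 12
  have key : ∀ᶠ L : ℝ in Filter.atTop,
      1 ≤ L ∧ 4 * L ^ (A : ℝ) ≤ Real.exp (1 / 2 * L ^ T0.t) ∧
      28 * L ^ (A : ℝ) ≤ Real.exp (1 / 3 * L ^ T0.t) ∧
      4 * C0 * L ^ (A : ℝ) ≤ Real.exp (δ0 / 2 * L ^ T0.t) ∧
      (3 * C) ^ C * L ^ (C * (1 - T0.t)) ≤ Real.exp (1 / 2 * L ^ T0.t) ∧
      4 * C * L ^ (A : ℝ) ≤ Real.exp (c / 18 * L ^ (3 * T0.t - 2)) := by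
    filter_upwards [Filter.eventually_ge_atTop 1,
      Exp_ev 4 A (1 / 2) T0.t (by norm_num) (by linarith),
      Exp_ev 28 A (1 / 3) T0.t (by norm_num) (by linarith),
      Exp_ev (4 * C0) A (δ0 / 2) T0.t (by positivity) (by linarith),
      Exp_ev ((3 * C) ^ C) (C * (1 - T0.t)) (1 / 2) T0.t (by norm_num) (by linarith),
      Exp_ev (4 * C) A (c / 18) (3 * T0.t - 2) (by positivity) (by linarith only [hlo])] with L h1 h2 h3 h4 h5 h6
    exact ⟨h1, h2, h3, h4, h5, h6⟩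
  have key2 := (Real.tendsto_log_atTop.comp tendsto_natCast_atTop_atTop).eventually key
  obtain ⟨x0, hx0⟩ := Filter.eventually_atTop.1 key2
  refine ⟨x0, ?_⟩
  intro x hx K a b β t hK hKx hb hβ hβ1 ht1 ht
  obtain ⟨hL1, k1, k2, k3, k4, k5⟩ := hx0 x hx
  simp only [Function.comp_apply] at hL1 k1 k2 k3 k4 k5
  set L := Real.log x with hLdef
  rw [Real.rpow_natCast] at k1 k2 k3 k5
  have hL0 : 0 < L := by linarith only [hlo, hhi, hL1]
  have hLA : 0 < L ^ A := by positivity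
  have hxpos : (0 : ℝ) < x := by
    rcases Nat.eq_zero_or_pos x with h | h
    · rw [hLdef, h] at hL0
      simp at hL0
    · exact_mod_cast h
  have ht0 : 0 < |t| := by linarith only [hlo, hhi, ht1]
  set Q := L ^ T0.t with hQ
  have hQ1 : 1 ≤ Q := Real.one_le_rpow hL1 (by linarith only [hlo, hhi])
  have hK0 : (0 : ℝ) < K := lt_of_lt_of_le (Real.exp_pos _) hK
  have hKe : Real.exp (Q / 2) * (4 * L ^ A) ≤ K := by
    calc Real.exp (Q / 2) * (4 * L ^ A) ≤ Real.exp (Q / 2) * Real.exp (1 / 2 * Q) :=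
          mul_le_mul_of_nonneg_left k1 (Real.exp_pos _).le
      _ = Real.exp Q := by rw [← Real.exp_add]; congr 1; ring
      _ ≤ K := hK
  set T : ℝ := K / (2 * L ^ A) with hT
  have hT2 : Real.exp (Q / 2) ≤ T / 2 := by
    rw [hT, div_div, le_div_iff₀ (by positivity)]
    calc Real.exp (Q / 2) * (2 * L ^ A * 2) = Real.exp (Q / 2) * (4 * L ^ A) := by ring
      _ ≤ K := hKe
  have hT3 : 3 ≤ T := by
    have h1 : Q / 2 + 1 ≤ Real.exp (Q / 2) := Real.add_one_le_exp _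
    linarith only [hQ1, hT2, h1]
  set E : ℝ := 1 / (4 * L ^ A) + 4 / |t| with hE
  have hE0 : 0 ≤ E := by positivity
  have hpiece : ∀ M a b : ℕ, T / 2 ≤ M → M ≤ a → b ≤ 2 * M →
      ‖∑ n ∈ Ioc a b, ee (t * Real.log (n + β))‖ ≤ E * M := by
    intro M a b hM ha hb2
    have hMe : Real.exp (Q / 2) ≤ M := hT2.trans hM
    have hM0 : (0 : ℝ) < M := lt_of_lt_of_le (Real.exp_pos _) hMe
    have hM1r : (1 : ℝ) ≤ M := by
      have h1 : Q / 2 + 1 ≤ Real.exp (Q / 2) := Real.add_one_le_exp _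
      linarith only [hlo, hhi, hT3, hM]
    have hM1 : 1 ≤ M := by exact_mod_cast hM1r
    have hlogM : Q / 2 ≤ Real.log M := (Real.le_log_iff_exp_le hM0).2 hMe
    have hlogM0 : 0 < Real.log M := by linarith only [hlo, hhi, hQ1, hlogM]
    have hpow : ∀ s : ℝ, 0 ≤ s → Real.exp (s * (Q / 2)) ≤ (M : ℝ) ^ s := by
      intro s hs
      rw [Real.rpow_def_of_pos hM0]
      apply Real.exp_le_exp.2
      nlinarith only [hlo, hhi, hlogM, hs]
    have hEM : E * M = M / (4 * L ^ A) + 4 * M / |t| := by rw [hE]; ring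
    have h4t : 0 ≤ 4 * (M : ℝ) / |t| := by positivity
    rw [hEM]
    rcases le_or_gt ((M : ℝ) ^ (1 / 3 : ℝ)) |t| with h | h
    · rcases le_or_gt |t| ((M : ℝ) ^ 12) with h12 | h12
      · refine (hv M a b β t hM1 ha hb2 hβ hβ1 h h12).trans ?_
        have e1 : (M : ℝ) ^ (1 - δ0) = M / (M : ℝ) ^ δ0 := by
          rw [Real.rpow_sub hM0, Real.rpow_one]
        have hp := hpow δ0 hδ0.le
        have hp0 : 0 < (M : ℝ) ^ δ0 := Real.rpow_pos_of_pos hM0 _
        have k3' : 4 * C0 * L ^ A ≤ (M : ℝ) ^ δ0 := by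
          refine k3.trans ?_
          have : δ0 / 2 * Q = δ0 * (Q / 2) := by ring
          rw [this]
          exact hp
        have h1 : C0 * (M : ℝ) ^ (1 - δ0) ≤ M / (4 * L ^ A) := by
          rw [e1, ← mul_div_assoc, div_le_div_iff₀ hp0 (by positivity)]
          calc C0 * (M : ℝ) * (4 * L ^ A) = M * (4 * C0 * L ^ A) := by ring
            _ ≤ M * (M : ℝ) ^ δ0 := mul_le_mul_of_nonneg_left k3' hM0.le
        linarith only [h4t, h1]
      · -- large frequency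
        set q : ℝ := Real.log |t| / (4 * Real.log M) with hq
        have hlogt : 12 * Real.log M < Real.log |t| := by
          have h1 := Real.log_lt_log (by positivity) h12
          rw [Real.log_pow] at h1
          exact_mod_cast h1
        have hq3 : 3 < q := by
          rw [hq, lt_div_iff₀ (by positivity)]
          linarith only [hlogt]
        set κ := ⌈q⌉₊ with hκ
        have hκ4 : 4 ≤ κ := by
          have : 3 < κ := Nat.lt_ceil.2 (by exact_mod_cast hq3)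
          omega
        have hκq : q ≤ κ := Nat.le_ceil q
        have hκq1 : (κ : ℝ) < q + 1 := Nat.ceil_lt_add_one (by linarith only [hlo, hhi, hq3])
        have hlogt3 : Real.log |t| ≤ 3 * L := by
          have h1 := Real.log_le_log ht0 ht
          rw [Real.log_pow] at h1
          exact_mod_cast h1
        have hR1 : 1 ≤ L ^ (1 - T0.t) := Real.one_le_rpow hL1 (by linarith only [hhi])
        have hκR : (κ : ℝ) ≤ 3 * L ^ (1 - T0.t) := by
          have h1 : q ≤ 3 / 2 * L ^ (1 - T0.t) := by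
            rw [hq, div_le_iff₀ (by positivity)]
            have h2 : L = L ^ (1 - T0.t) * Q := by
              rw [hQ, ← Real.rpow_add hL0]
              rw [show 1 - T0.t + T0.t = 1 by ring, Real.rpow_one]
            have h3 : 0 < L ^ (1 - T0.t) := by linarith only [hlo, hhi, hR1]
            calc Real.log |t| ≤ 3 * L := hlogt3
              _ = 3 * (L ^ (1 - T0.t) * Q) := by rw [← h2]
              _ ≤ 3 / 2 * L ^ (1 - T0.t) * (4 * Real.log M) := by nlinarith only [hlogM, hlo, hhi, hR1]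
          linarith only [hlo, hhi, hq3, hκq1, h1]
        have hκ0 : (0 : ℝ) < κ := by
          have : 0 < κ := by omega
          exact_mod_cast this
        have hCκ : (C * κ) ^ C ≤ (M : ℝ) := by
          refine le_trans ?_ hMe
          have e0 : Real.exp (Q / 2) = Real.exp (1 / 2 * Q) := by congr 1; ring
          rw [e0]
          refine le_trans ?_ k4
          calc (C * κ) ^ C ≤ (3 * C * L ^ (1 - T0.t)) ^ C := by
                apply Real.rpow_le_rpow (by positivity) _ (by linarith only [hlo, hhi, hC])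
                nlinarith only [hκR, hlo, hhi, hC]
            _ = (3 * C) ^ C * (L ^ (1 - T0.t)) ^ C := Real.mul_rpow (by linarith only [hlo, hhi, hC]) (by linarith only [hlo, hhi, hq3, hκq, hκR])
            _ = (3 * C) ^ C * L ^ (C * (1 - T0.t)) := by
                rw [← Real.rpow_mul hL0.le]
                congr 2
                ring
        have hlow : (M : ℝ) ^ (4 * κ - 4) ≤ |t| := by
          rw [← Real.log_le_log_iff (by positivity) ht0, Real.log_pow]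
          have h1 : ((4 * κ - 4 : ℕ) : ℝ) = 4 * κ - 4 := by
            rw [Nat.cast_sub (by omega)]
            push_cast
            ring
          rw [h1]
          have h2 : (4 * (κ : ℝ) - 4) ≤ 4 * q := by linarith only [hκq1]
          have h3 : 4 * q * Real.log M = Real.log |t| := by
            rw [hq]
            field_simp
          nlinarith only [hκq1, h3, hlo, hhi, hQ1, hlogM]
        have hupp : |t| ≤ (M : ℝ) ^ (4 * κ) := by
          rw [← Real.log_le_log_iff ht0 (by positivity), Real.log_pow]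
          push_cast
          have h3 : 4 * q * Real.log M = Real.log |t| := by
            rw [hq]
            field_simp
          nlinarith only [hκq, h3, hlo, hhi, hQ1, hlogM]
        refine (hve κ M a b β t hκ4 hCκ ha hb2 hβ hβ1 hlow hupp).trans ?_
        have e1 : (M : ℝ) ^ (1 - c / (κ : ℝ) ^ 2) = M / (M : ℝ) ^ (c / (κ : ℝ) ^ 2) := by
          rw [Real.rpow_sub hM0, Real.rpow_one]
        have hp0 : 0 < (M : ℝ) ^ (c / (κ : ℝ) ^ 2) := Real.rpow_pos_of_pos hM0 _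
        have hp : 4 * C * L ^ A ≤ (M : ℝ) ^ (c / (κ : ℝ) ^ 2) := by
          refine k5.trans ((Real.exp_le_exp.2 ?_).trans (hpow _ (by positivity)))
          have hW0 : 0 < L ^ (3 * T0.t - 2) := Real.rpow_pos_of_pos hL0 _
          have h9 : (κ : ℝ) ^ 2 ≤ 9 * L ^ (2 * (1 - T0.t)) := by
            calc (κ : ℝ) ^ 2 ≤ (3 * L ^ (1 - T0.t)) ^ 2 := pow_le_pow_left₀ hκ0.le hκR 2
              _ = 9 * (L ^ (1 - T0.t)) ^ 2 := by ring
              _ = 9 * L ^ (2 * (1 - T0.t)) := by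
                  rw [← Real.rpow_natCast, ← Real.rpow_mul hL0.le]
                  congr 2
                  push_cast
                  ring
          have hQW : Q = L ^ (3 * T0.t - 2) * L ^ (2 * (1 - T0.t)) := by
            rw [hQ, ← Real.rpow_add hL0]
            congr 1
            ring
          rw [div_mul_eq_mul_div, div_mul_eq_mul_div, div_le_div_iff₀ (by norm_num) (by positivity)]
          have h10 : L ^ (3 * T0.t - 2) * (κ : ℝ) ^ 2 ≤ 9 * Q := by
            rw [hQW]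
            calc L ^ (3 * T0.t - 2) * (κ : ℝ) ^ 2 ≤ L ^ (3 * T0.t - 2) * (9 * L ^ (2 * (1 - T0.t))) :=
                  mul_le_mul_of_nonneg_left h9 hW0.le
              _ = _ := by ring
          calc c * L ^ (3 * T0.t - 2) * (κ : ℝ) ^ 2 = c * (L ^ (3 * T0.t - 2) * (κ : ℝ) ^ 2) := by ring
            _ ≤ c * (9 * Q) := mul_le_mul_of_nonneg_left h10 hc.le
            _ = c * (Q / 2) * 18 := by ring
        have h1 : C * (M : ℝ) ^ (1 - c / (κ : ℝ) ^ 2) ≤ M / (4 * L ^ A) := by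
          rw [e1, ← mul_div_assoc, div_le_div_iff₀ hp0 (by positivity)]
          calc C * (M : ℝ) * (4 * L ^ A) = M * (4 * C * L ^ A) := by ring
            _ ≤ M * (M : ℝ) ^ (c / (κ : ℝ) ^ 2) := mul_le_mul_of_nonneg_left hp hM0.le
        linarith only [h4t, h1]
    · refine (Pool.Agent.H76.EHB.low_sum t β M a b hM1 ha hb2 hβ hβ1 (abs_pos.1 ht0)).trans ?_
      have e1 : (M : ℝ) ^ (1 / 3 : ℝ) * (M : ℝ) ^ (2 / 3 : ℝ) = M := by
        rw [← Real.rpow_add hM0]
        norm_num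
      have hp := hpow (2 / 3) (by norm_num)
      have k2' : 28 * L ^ A ≤ (M : ℝ) ^ (2 / 3 : ℝ) := by
        refine k2.trans ?_
        have : 1 / 3 * Q = 2 / 3 * (Q / 2) := by ring
        rw [this]
        exact hp
      have hp1 : 0 < (M : ℝ) ^ (1 / 3 : ℝ) := Real.rpow_pos_of_pos hM0 _
      have h1 : 7 * |t| ≤ M / (4 * L ^ A) := by
        rw [le_div_iff₀ (by positivity)]
        calc 7 * |t| * (4 * L ^ A) = |t| * (28 * L ^ A) := by ring
          _ ≤ (M : ℝ) ^ (1 / 3 : ℝ) * (M : ℝ) ^ (2 / 3 : ℝ) :=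
              mul_le_mul h.le k2' (by positivity) hp1.le
          _ = M := e1
      linarith only [h1]
  have hmain := Exp_all T E β t hT3 hE0 hpiece b a
  refine hmain.trans ?_
  have hbK : (b : ℝ) ≤ K := by exact_mod_cast hb
  have e1 : T = K * (1 / 2 * (1 / L ^ A)) := by rw [hT]; ring
  have e2 : 2 * E * b ≤ 2 * E * K := mul_le_mul_of_nonneg_left hbK (by positivity)
  have e3 : 2 * E * K = K * (1 / 2 * (1 / L ^ A)) + 8 * (K / |t|) := by rw [hE]; ring
  have e4 : (K : ℝ) * (100 / |t| + 1 / L ^ A) = 100 * (K / |t|) + K * (1 / L ^ A) := by ring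
  rw [e4]
  have e5 : 0 ≤ (K : ℝ) / |t| := by positivity
  linarith only [e1, e2, e3, e5]

end Pool.Agent.H76.VKT

end

section

/-!
# VKT (H97/VK of helper97 with the parameter `T0.t` in place of `9/10`, `t1` in place of `19/20`) PSum: partial sums of `χ(n) n^{it}` for all `v > y`

Proof.  Split `n ≤ v` into classes modulo `d`: `n = d m + r`, `0 ≤ r < d`, `log n = log d + log (m + r/d)`, `χ(n) = χ(r)`.  The terms with `m = 0` contribute at most `d`.
The others form `∑_{m ∈ Ioc 0 b} ee(t log(m + r/d))`, `b = (v - r)/d ≤ v`, up to a constant factor of modulus one.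
`v ≤ x`: `vk_exp (A + B + 2)` with `K = v` (`v ≥ Yx x + 1 > exp(L9 x)`): at most `v (100/|t| + L^{-A-B-2})` per class.
`v > x`: `H35.W.ks1 1` with its `x` equal to `v` and `K = v` (`|t| ≤ x^3 ≤ v^3`): at most `C v (1/|t| + v^{-δ})` per class.
Sum over `d ≤ L^B` classes; `K' = A + B + 2`; `d ≤ L^B ≤ v/L^{A+1}`.
-/

set_option autoImplicit false

namespace Pool.Agent.H76.VKT

open Finset
open Pool.Agent.H91.PK (ee)

private lemma psum_ee_norm (r : ℝ) : ‖ee r‖ = 1 := by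
  have : (2 * Real.pi * r * Complex.I : ℂ) = ((2 * Real.pi * r : ℝ) : ℂ) * Complex.I := by
    push_cast; ring
  rw [ee, this, Complex.norm_exp_ofReal_mul_I]

private lemma psum_ee_add (r s : ℝ) : ee (r + s) = ee r * ee s := by
  rw [ee, ee, ee, ← Complex.exp_add]
  congr 1
  push_cast
  ring

private lemma psum_per (ψ : ℕ → ℂ) (d : ℕ) (h : ∀ n, ψ (n + d) = ψ n) (l k : ℕ) :
    ψ (l + d * k) = ψ l := by
  induction k with
  | zero => simp
  | succ k ih => rw [mul_add, mul_one, ← add_assoc, h, ih]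

/-- one residue class -/
private lemma psum_class (f : ℕ → ℂ) (hf : ∀ n, ‖f n‖ ≤ 1) (B : ℝ) (K' a b d l : ℕ) (hd : 1 ≤ d)
    (hb : b / d ≤ K') (hB : ∀ a' b' : ℕ, b' ≤ K' → ‖∑ n ∈ Ioc a' b', f n‖ ≤ B) :
    ‖∑ k ∈ (range (b + 1)).filter (fun k => a < l + d * k ∧ l + d * k ≤ b), f k‖ ≤ 1 + B := by
  set T := (range (b + 1)).filter (fun k => a < l + d * k ∧ l + d * k ≤ b) with hT
  have e : T.erase 0 = Ioc ((a - l) / d) ((b - l) / d) := by
    ext k
    simp only [hT, mem_erase, mem_filter, mem_range, mem_Ioc]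
    rw [Nat.div_lt_iff_lt_mul (by omega), Nat.le_div_iff_mul_le (by omega)]
    constructor
    · rintro ⟨h0, h1, h2, h3⟩
      rw [mul_comm d k] at h2 h3
      have : 1 ≤ k * d := Nat.mul_pos (by omega) (by omega)
      omega
    · rintro ⟨h1, h2⟩
      have hk : k ≠ 0 := by rintro rfl; simp at h1
      have h3 : k ≤ k * d := Nat.le_mul_of_pos_right k (by omega)
      have : 1 ≤ k * d := Nat.mul_pos (by omega) (by omega)
      rw [mul_comm d k]
      omega
  have h1 : ‖∑ k ∈ T.erase 0, f k‖ ≤ B := by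
    rw [e]
    exact hB _ _ ((Nat.div_le_div_right (Nat.sub_le _ _)).trans hb)
  by_cases h0 : 0 ∈ T
  · rw [← add_sum_erase _ _ h0]
    exact (norm_add_le _ _).trans (add_le_add (hf 0) h1)
  · rw [erase_eq_of_notMem h0] at h1
    linarith

/-- all residue classes -/
private lemma psum_core (ψ : ℕ → ℂ) (d v : ℕ) (t B : ℝ) (hd : 1 ≤ d) (hper : ∀ n, ψ (n + d) = ψ n)
    (hψ : ∀ n, ‖ψ n‖ ≤ 1)
    (hB : ∀ (β : ℝ) (a' b' : ℕ), 0 ≤ β → β ≤ 1 → b' ≤ v →
      ‖∑ n ∈ Ioc a' b', ee (t * Real.log (n + β))‖ ≤ B) :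
    ‖∑ n ∈ Icc 1 v, ψ n * ee (t * Real.log n)‖ ≤ d * (1 + B) := by
  have hdr : (1 : ℝ) ≤ d := by exact_mod_cast hd
  have hd0 : (d : ℝ) ≠ 0 := by positivity
  have hcl : ∀ l ∈ range d, ‖∑ n ∈ (Ioc 0 v).filter (fun n => n % d = l),
      ψ n * ee (t * Real.log n)‖ ≤ 1 + B := by
    intro l hl
    have hl1 := mem_range.1 hl
    have e1 : (Ioc 0 v).filter (fun n => n % d = l)
        = ((range (v + 1)).filter (fun k => 0 < l + d * k ∧ l + d * k ≤ v)).image
          (fun k => l + d * k) := by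
      ext n
      simp only [mem_filter, mem_Ioc, mem_image, mem_range]
      constructor
      · rintro ⟨⟨h1, h2⟩, h3⟩
        have h4 : n % d + d * (n / d) = n := Nat.mod_add_div n d
        have h5 : n / d ≤ n := Nat.div_le_self n d
        refine ⟨n / d, ⟨by omega, ?_, ?_⟩, ?_⟩ <;> rw [← h3, h4] <;> assumption
      · rintro ⟨k, ⟨h1, h2, h3⟩, rfl⟩
        exact ⟨⟨h2, h3⟩, by rw [Nat.add_mul_mod_self_left, Nat.mod_eq_of_lt hl1]⟩
    have hinj : Set.InjOn (fun k => l + d * k)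
        ((range (v + 1)).filter (fun k => 0 < l + d * k ∧ l + d * k ≤ v) : Finset ℕ) := by
      intro u _ w _ huw
      have : d * u = d * w := by simpa using huw
      exact Nat.eq_of_mul_eq_mul_left (by omega) this
    rw [e1, sum_image hinj]
    have hβl0 : 0 ≤ (l : ℝ) / d := by positivity
    have hβl1 : (l : ℝ) / d ≤ 1 := by
      rw [div_le_one (by linarith)]
      exact_mod_cast hl1.le
    have e2 : ∑ k ∈ (range (v + 1)).filter (fun k => 0 < l + d * k ∧ l + d * k ≤ v),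
        ψ (l + d * k) * ee (t * Real.log ((l + d * k : ℕ) : ℝ))
        = (ψ l * ee (t * Real.log d)) *
          ∑ k ∈ (range (v + 1)).filter (fun k => 0 < l + d * k ∧ l + d * k ≤ v),
            ee (t * Real.log ((k : ℝ) + (l : ℝ) / d)) := by
      rw [mul_sum]
      apply sum_congr rfl
      intro k hk
      have hk1 := (mem_filter.1 hk).2.1
      have hpos : (0 : ℝ) < l + d * k := by
        have : 0 < l + d * k := by omega
        exact_mod_cast this
      have h1 : ((l + d * k : ℕ) : ℝ) = d * ((k : ℝ) + (l : ℝ) / d) := by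
        push_cast
        field_simp
        ring
      have h2 : 0 < (k : ℝ) + (l : ℝ) / d := by
        have h3 : (k : ℝ) + (l : ℝ) / d = (l + d * k) / d := by
          field_simp
          ring
        rw [h3]
        exact div_pos hpos (by linarith)
      rw [psum_per ψ d hper, h1, Real.log_mul hd0 h2.ne', mul_add, psum_ee_add]
      ring
    rw [e2, norm_mul, norm_mul, psum_ee_norm, mul_one]
    have h3 := psum_class (fun k => ee (t * Real.log ((k : ℝ) + (l : ℝ) / d)))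
      (fun n => (psum_ee_norm _).le) B v 0 v d l hd (Nat.div_le_self v d)
      (fun a' b' hb' => hB ((l : ℝ) / d) a' b' hβl0 hβl1 hb')
    calc ‖ψ l‖ * _ ≤ 1 * (1 + B) := mul_le_mul (hψ l) h3 (norm_nonneg _) zero_le_one
      _ = 1 + B := one_mul _
  have e0 : Icc 1 v = Ioc 0 v := by
    ext n; simp only [mem_Icc, mem_Ioc]; omega
  have e3 : ∑ n ∈ Ioc 0 v, ψ n * ee (t * Real.log n)
      = ∑ l ∈ range d, ∑ n ∈ (Ioc 0 v).filter (fun n => n % d = l),
        ψ n * ee (t * Real.log n) := by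
    rw [sum_fiberwise_of_maps_to]
    intro n _
    exact mem_range.2 (Nat.mod_lt n (by omega))
  rw [e0, e3]
  refine (norm_sum_le _ _).trans ((sum_le_sum hcl).trans ?_)
  rw [sum_const, card_range, nsmul_eq_mul]

private lemma psum_tendL : Filter.Tendsto (fun x : ℕ => Real.log x) Filter.atTop Filter.atTop :=
  Real.tendsto_log_atTop.comp tendsto_natCast_atTop_atTop

/-- powers of `log x` against `exp ((log x)^{9/10})` -/
private lemma psum_ev1 [T0] (N : ℕ) : ∀ᶠ x : ℕ in Filter.atTop,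
    2 * Real.log x ^ N ≤ Real.exp (Real.log x ^ T0.t) := by
  have h1 : Filter.Tendsto (fun u : ℝ => u ^ T0.t) Filter.atTop Filter.atTop :=
    tendsto_rpow_atTop (by have := T0.lo; linarith)
  have h2 := (Real.isLittleO_pow_exp_atTop (n := 2 * N)).comp_tendsto h1
  have h3 := (h2.bound (show (0 : ℝ) < 1 / 2 by norm_num))
  have h4 := psum_tendL.eventually h3
  filter_upwards [h4, psum_tendL.eventually_ge_atTop 1] with x hx hL
  simp only [Function.comp_def, Real.norm_eq_abs] at hx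
  have hL0 : 0 ≤ Real.log x := by linarith
  rw [abs_of_nonneg (by positivity), abs_of_nonneg (by positivity)] at hx
  have h5 : Real.log x ^ N ≤ (Real.log x ^ T0.t) ^ (2 * N) := by
    rw [← Real.rpow_natCast (Real.log x ^ T0.t), ← Real.rpow_mul hL0, ← Real.rpow_natCast]
    apply Real.rpow_le_rpow_of_exponent_le hL
    push_cast
    have : (0 : ℝ) ≤ N := Nat.cast_nonneg N
    have hlo := T0.lo
    nlinarith
  linarith

/-- powers of `log x` against powers of `x` -/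
private lemma psum_ev2 (N : ℕ) (δ : ℝ) (hδ : 0 < δ) : ∀ᶠ x : ℕ in Filter.atTop,
    (x : ℝ) ^ (-δ) ≤ 1 / Real.log x ^ N := by
  have h1 : Filter.Tendsto (fun u : ℝ => δ * u) Filter.atTop Filter.atTop :=
    Filter.tendsto_id.const_mul_atTop hδ
  have h2 := (Real.isLittleO_pow_exp_atTop (n := N)).comp_tendsto h1
  have h3 := (h2.bound (show (0 : ℝ) < δ ^ N by positivity))
  have h4 := psum_tendL.eventually h3
  filter_upwards [h4, psum_tendL.eventually_ge_atTop 1, Filter.eventually_ge_atTop 1] with x hx hL hx1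
  simp only [Function.comp_def, Real.norm_eq_abs] at hx
  have hL0 : 0 < Real.log x := by linarith
  have hx0 : (0 : ℝ) < x := by exact_mod_cast hx1
  rw [abs_of_nonneg (by positivity), abs_of_nonneg (by positivity), mul_pow] at hx
  have h5 : Real.log x ^ N ≤ Real.exp (δ * Real.log x) := le_of_mul_le_mul_left hx (by positivity)
  have h6 : (x : ℝ) ^ (-δ) = (Real.exp (δ * Real.log x))⁻¹ := by
    rw [← Real.exp_neg, Real.rpow_def_of_pos hx0]
    congr 1
    ring
  rw [h6, ← one_div]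
  exact one_div_le_one_div_of_le (by positivity) h5

theorem psum_h [T0] (h_vk_exp : vk_exp_P)  (A B : ℕ) : ∃ K' x0 : ℕ, ∀ x : ℕ, x0 ≤ x → ∀ (d : ℕ) (χ : DirichletCharacter ℂ d) (t : ℝ) (v : ℕ),
    1 ≤ d → (d : ℝ) ≤ Real.log x ^ B → Real.log x ^ K' ≤ |t| → |t| ≤ (x : ℝ) ^ (3 : ℕ) → Yx x + 1 ≤ v →
    ‖∑ n ∈ Icc 1 v, χ (n : ZMod d) * ee (t * Real.log n)‖ ≤ v / Real.log x ^ A := by
  obtain ⟨x1, hx1⟩ := h_vk_exp (A + B + 2)
  obtain ⟨δ, C, hδ, hδ1, hC, x2, hx2⟩ := Pool.Agent.H35.W.ks1 1 one_pos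
  obtain ⟨x3, hx3⟩ := Filter.eventually_atTop.1 (psum_ev1 (A + B + 2))
  obtain ⟨x4, hx4⟩ := Filter.eventually_atTop.1 (psum_ev2 (A + B + 2) δ hδ)
  obtain ⟨x5, hx5⟩ := Filter.eventually_atTop.1 (psum_tendL.eventually_ge_atTop (4 * C + 202))
  refine ⟨A + B + 2, max (max (max x1 x2) (max x3 x4)) (max x5 1), ?_⟩
  intro x hx d χ t v hd hdL ht1 ht2 hv
  have hxa : x1 ≤ x := (le_max_left _ _).trans ((le_max_left _ _).trans ((le_max_left _ _).trans hx))
  have hxb : x2 ≤ x := (le_max_right _ _).trans ((le_max_left _ _).trans ((le_max_left _ _).trans hx))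
  have hxc : x3 ≤ x := (le_max_left _ _).trans ((le_max_right _ _).trans ((le_max_left _ _).trans hx))
  have hxd : x4 ≤ x := (le_max_right _ _).trans ((le_max_right _ _).trans ((le_max_left _ _).trans hx))
  have hxe : x5 ≤ x := (le_max_left _ _).trans ((le_max_right _ _).trans hx)
  have hxf : 1 ≤ x := (le_max_right _ _).trans ((le_max_right _ _).trans hx)
  have h3 := hx3 x hxc
  have h4 := hx4 x hxd
  have hL := hx5 x hxe
  have hxr : (1 : ℝ) ≤ x := by exact_mod_cast hxf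
  set L := Real.log x with hLdef
  have hL1 : (202 : ℝ) ≤ L := by linarith
  have hL0 : (0 : ℝ) < L := by linarith
  have hLp : ∀ n : ℕ, 0 < L ^ n := fun n => pow_pos hL0 n
  have hvy : Real.exp (L ^ T0.t) ≤ v := by
    have h5 : Real.exp (L9 x) < (Yx x : ℝ) + 1 := Nat.lt_floor_add_one _
    have h6 : ((Yx x : ℝ) + 1) ≤ v := by exact_mod_cast hv
    exact h5.le.trans h6
  have hv0 : (0 : ℝ) < v := (Real.exp_pos _).trans_le hvy
  have ht0 : 1 ≤ |t| := (one_le_pow₀ (by linarith : (1 : ℝ) ≤ L)).trans ht1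
  have htp : 0 < |t| := by linarith
  have hti : 1 / |t| ≤ 1 / L ^ (A + B + 2) := one_div_le_one_div_of_le (hLp _) ht1
  have key : ∀ (β : ℝ) (a' b' : ℕ), 0 ≤ β → β ≤ 1 → b' ≤ v →
      ‖∑ n ∈ Ioc a' b', ee (t * Real.log (n + β))‖ ≤ v * ((2 * C + 101) / L ^ (A + B + 2)) := by
    intro β a' b' hβ0 hβ1 hb'
    rcases le_or_gt v x with hvx | hvx
    · refine (hx1 x hxa v a' b' β t hvy hvx hb' hβ0 hβ1 ht0 ht2).trans ?_
      apply mul_le_mul_of_nonneg_left _ hv0.le
      calc 100 / |t| + 1 / L ^ (A + B + 2) = 100 * (1 / |t|) + 1 / L ^ (A + B + 2) := by ring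
        _ ≤ 100 * (1 / L ^ (A + B + 2)) + 1 / L ^ (A + B + 2) := by linarith
        _ = 101 / L ^ (A + B + 2) := by ring
        _ ≤ (2 * C + 101) / L ^ (A + B + 2) := by
          apply div_le_div_of_nonneg_right _ (hLp _).le
          linarith
    · have hxv : (x : ℝ) ≤ v := by exact_mod_cast hvx.le
      have ht3 : |t| ≤ (v : ℝ) ^ (3 : ℕ) := ht2.trans (pow_le_pow_left₀ (by linarith) hxv 3)
      refine (hx2 v (hxb.trans hvx.le) v a' b' β t (by rw [Real.rpow_one]) le_rfl hb' hβ0 hβ1 ht0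
        ht3).trans ?_
      have h7 : (v : ℝ) ^ (-δ) ≤ (x : ℝ) ^ (-δ) :=
        Real.rpow_le_rpow_of_nonpos (by linarith) hxv (by linarith)
      have h8 : 1 / |t| + (v : ℝ) ^ (-δ) ≤ 2 * (1 / L ^ (A + B + 2)) := by linarith
      calc C * v * (1 / |t| + (v : ℝ) ^ (-δ)) ≤ C * v * (2 * (1 / L ^ (A + B + 2))) := by
            apply mul_le_mul_of_nonneg_left h8 (by positivity)
        _ = v * ((2 * C) / L ^ (A + B + 2)) := by ring
        _ ≤ v * ((2 * C + 101) / L ^ (A + B + 2)) := by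
          apply mul_le_mul_of_nonneg_left _ hv0.le
          apply div_le_div_of_nonneg_right _ (hLp _).le
          linarith
  have hmain := psum_core (fun n => χ (n : ZMod d)) d v t _ hd (fun n => by simp)
    (fun n => DirichletCharacter.norm_le_one _ _) key
  refine hmain.trans ?_
  have hd0 : (0 : ℝ) ≤ d := Nat.cast_nonneg _
  have hvL : 2 * L ^ (A + B + 2) ≤ v := h3.trans hvy
  have hC0 : 0 ≤ (2 * C + 101) / L ^ (A + B + 2) := div_nonneg (by linarith) (hLp _).le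
  have h9 : (d : ℝ) * (1 + v * ((2 * C + 101) / L ^ (A + B + 2))) ≤
      L ^ B * (1 + v * ((2 * C + 101) / L ^ (A + B + 2))) := by
    apply mul_le_mul_of_nonneg_right hdL
    positivity
  refine h9.trans ?_
  rw [le_div_iff₀ (hLp _)]
  have e1 : L ^ (A + B + 2) = L ^ A * L ^ B * L ^ 2 := by
    rw [pow_add, pow_add]
  have e2 : L ^ B * (1 + v * ((2 * C + 101) / L ^ (A + B + 2))) * L ^ A
      = L ^ A * L ^ B + v * ((2 * C + 101) / L ^ 2) := by
    rw [e1]
    have hA := (hLp A).ne'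
    have hB := (hLp B).ne'
    field_simp
  rw [e2]
  have h10 : L ^ A * L ^ B ≤ v / 2 := by
    have h11 : (1 : ℝ) ≤ L ^ 2 := one_le_pow₀ (by linarith)
    have h12 : 0 ≤ L ^ A * L ^ B := by positivity
    rw [e1] at hvL
    nlinarith
  have h13 : (2 * C + 101) / L ^ 2 ≤ 1 / 2 := by
    rw [div_le_iff₀ (hLp 2)]
    nlinarith
  nlinarith

end Pool.Agent.H76.VKT

end

section

/-!
# VKT (H97/VK of helper97 with the parameter `T0.t` in place of `9/10`, `t1` in place of `19/20`) SmShW: sharp sums of `Λ(n) ψ(n) n^{it} (log n)^k`, `z ≥ exp(L^{19/20})`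

The same proof as in SmSh with `H = (log 2z)^{k+1}` and `exp(L^{19/20}) ≤ z` in place of `x^{e0} ≤ z`.

Proof.  `a_n = Λ(n) (log n)^k ψ(n) ee(t log n)`, `ψ = ch x χ`; `LSeries a s = Fk q ψ k (s - 2πi t)` (termwise: `ee(t log n) = n^{2πi t}`).
Fixed abscissa `β = 1 + 1/(4L)`, `T = π|t|`.  `|τ| ≤ T`: `|τ - 2πt| ∈ [π|t|, 3π|t|] ⊆ [L^{K'}, 3x^3]`, so `B1 = C L9^{k+1} LL^{20(k+1)}` (`fk_up`).
All `τ`: `B2 = ∑ Λ(n) (log n)^k n^{-β} ≤ C_k (4L)^{k+2}` (`(log n)^{k+1} ≤ (k+1)! (8L)^{k+1} n^{1/(8L)}`, `∑ n^{-1-1/(8L)} ≤ 1 + 8L`).  As `T ≥ L^{K'}`, `K' ≥ k + 2`: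
`B1 + B2/T^2 ≤ C' L9^{k+1} LL^{20(k+1)}`.  For `N ≤ 2z ≤ 2x^2`: `N^β = N · N^{1/(4L)} ≤ 3 N`.  So `smooth_two` gives for `1 ≤ N ≤ 2z`:
`‖∑_{n≤N} a_n om(n/N)‖ ≤ B := C'' z L9^{k+1} LL^{20(k+1)}`.
`smooth_to_sharp` with `y = v` (`2 ≤ v ≤ z`; `v ≤ 1`: `a_1 = 0`), `H = (3L)^{k+1}` (`‖a_n‖ ≤ (log n)^{k+1}`, `n ≤ 2x^2`), `P = 1`, `δ = L^{-κ}`, `κ ≥ 1`:
`‖∑_{n≤v} a_n‖ ≤ C (B (L^{3κ} + 3L) + (3L)^{k+1} (z L^{-κ} + 3L + L^{3κ}))`, and `L^{3κ} + 3L ≤ z L^{-κ}` because `z ≥ x^{e0}`.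
-/

set_option autoImplicit false

namespace Pool.Agent.H76.VKT

open Finset
open Pool.Agent.H91.EHA
open Pool.Agent.H91.PK (ee)
open Pool.Agent.H97.VK (smooth_two)

variable [T0]

private noncomputable def smA (x k : ℕ) {d : ℕ} (χ : DirichletCharacter ℂ d) (t : ℝ) (n : ℕ) : ℂ :=
  ((Lam n * Real.log n ^ k : ℝ) : ℂ) * ch x χ (n : ZMod (qm x d)) * ee (t * Real.log n)

omit [T0] in
private theorem smA_ee (t : ℝ) (n : ℕ) (hn : n ≠ 0) :
    ee (t * Real.log n) = (n : ℂ) ^ (2 * Real.pi * t * Complex.I : ℂ) := by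
  have hn0 : (n : ℂ) ≠ 0 := by exact_mod_cast hn
  unfold ee
  rw [Complex.cpow_def_of_ne_zero hn0, ← Complex.natCast_log]
  congr 1
  push_cast
  ring

private theorem smA_term (x k : ℕ) {d : ℕ} (χ : DirichletCharacter ℂ d) (t : ℝ) (s : ℂ) (n : ℕ) :
    LSeries.term (smA x k χ t) s n =
      LSeries.term (fun n => ((Lam n * Real.log n ^ k : ℝ) : ℂ) * ch x χ (n : ZMod (qm x d)))
        (s - 2 * Real.pi * t * Complex.I) n := by
  rcases Nat.eq_zero_or_pos n with rfl | hn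
  · simp
  · have hn1 : n ≠ 0 := by omega
    have hn0 : (n : ℂ) ≠ 0 := by exact_mod_cast hn1
    rw [LSeries.term_of_ne_zero hn1, LSeries.term_of_ne_zero hn1, Complex.cpow_sub _ _ hn0]
    unfold smA
    rw [smA_ee t n hn1]
    have h1 : (n : ℂ) ^ s ≠ 0 := by
      rw [Complex.cpow_def_of_ne_zero hn0]; exact Complex.exp_ne_zero _
    have h2 : (n : ℂ) ^ (2 * Real.pi * t * Complex.I : ℂ) ≠ 0 := by
      rw [Complex.cpow_def_of_ne_zero hn0]; exact Complex.exp_ne_zero _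
    field_simp

private theorem smA_LSeries (x k : ℕ) {d : ℕ} (χ : DirichletCharacter ℂ d) (t : ℝ) (s : ℂ) :
    LSeries (smA x k χ t) s = Fk (qm x d) (ch x χ) k (s - 2 * Real.pi * t * Complex.I) := by
  unfold Fk LSeries
  exact tsum_congr fun n => smA_term x k χ t s n

private theorem smA_summable (x k : ℕ) {d : ℕ} (χ : DirichletCharacter ℂ d) (t : ℝ) (s : ℂ)
    (hs : 1 < s.re) : LSeriesSummable (smA x k χ t) s := by
  have h := Fk_summable (qm x d) (ch x χ) k (s - 2 * Real.pi * t * Complex.I) (by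
    have : (s - 2 * Real.pi * t * Complex.I).re = s.re := by simp
    rw [this]; exact hs)
  unfold LSeriesSummable at *
  refine h.congr fun n => ?_
  exact (smA_term x k χ t s n).symm

private theorem smA_norm (x k : ℕ) {d : ℕ} (χ : DirichletCharacter ℂ d) (t : ℝ) (n : ℕ) :
    ‖smA x k χ t n‖ ≤ Real.log n ^ (k + 1) := by
  have hlog : 0 ≤ Real.log n := Real.log_natCast_nonneg n
  have hLam : Lam n ≤ Real.log n := ArithmeticFunction.vonMangoldt_le_log
  have hLam0 : 0 ≤ Lam n := ArithmeticFunction.vonMangoldt_nonneg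
  unfold smA
  rw [norm_mul, norm_mul, Pool.Agent.H91.PK.LSa_norm_ee, mul_one, Complex.norm_real,
    Real.norm_eq_abs, abs_of_nonneg (mul_nonneg hLam0 (pow_nonneg hlog k))]
  calc Lam n * Real.log n ^ k * ‖ch x χ (n : ZMod (qm x d))‖
      ≤ Lam n * Real.log n ^ k * 1 :=
        mul_le_mul_of_nonneg_left (ch_norm_le x χ _) (mul_nonneg hLam0 (pow_nonneg hlog k))
    _ ≤ Real.log n * Real.log n ^ k * 1 := by
        refine mul_le_mul_of_nonneg_right ?_ (by norm_num)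
        exact mul_le_mul_of_nonneg_right hLam (pow_nonneg hlog k)
    _ = Real.log n ^ (k + 1) := by ring

omit [T0] in
/-- `(log n)^m ≤ m! (1/c)^m n^c` -/
private theorem sm_logpow (m n : ℕ) (hn : 1 ≤ n) (c : ℝ) (hc : 0 < c) :
    Real.log n ^ m ≤ (m.factorial : ℝ) * (1 / c) ^ m * (n : ℝ) ^ c := by
  have hn0 : (0 : ℝ) < n := by exact_mod_cast hn
  have hlog : 0 ≤ Real.log n := Real.log_natCast_nonneg n
  have h1 : (c * Real.log n) ^ m / (m.factorial : ℝ) ≤ Real.exp (c * Real.log n) :=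
    Real.pow_div_factorial_le_exp _ (by positivity) m
  have h2 : Real.exp (c * Real.log n) = (n : ℝ) ^ c := by
    rw [Real.rpow_def_of_pos hn0, mul_comm]
  rw [h2, div_le_iff₀ (by positivity)] at h1
  have h3 : Real.log n ^ m = (1 / c) ^ m * (c * Real.log n) ^ m := by
    rw [← mul_pow]
    congr 1
    field_simp
  rw [h3]
  calc (1 / c) ^ m * (c * Real.log n) ^ m ≤ (1 / c) ^ m * ((n : ℝ) ^ c * (m.factorial : ℝ)) :=
        mul_le_mul_of_nonneg_left h1 (by positivity)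
    _ = _ := by ring

private theorem sm_B2 (x k : ℕ) {d : ℕ} (χ : DirichletCharacter ℂ d) (t : ℝ) (L : ℝ) (hL : 1 ≤ L)
    (s : ℂ) (hs : s.re = 1 + 1 / (4 * L)) :
    ‖LSeries (smA x k χ t) s‖ ≤ ((k + 1).factorial : ℝ) * 9 ^ (k + 2) * L ^ (k + 2) := by
  set c : ℝ := 1 / (8 * L) with hc
  have hc0 : 0 < c := by positivity
  set M : ℝ := ((k + 1).factorial : ℝ) * (1 / c) ^ (k + 1) with hM
  have hM0 : 0 ≤ M := by positivity
  set G : ℕ → ℝ := fun n => M * (1 / (n : ℝ) ^ (1 + c)) with hG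
  have hGs : Summable G := (Real.summable_one_div_nat_rpow.mpr (by linarith only [hc0])).mul_left M
  have hle : ∀ n, ‖LSeries.term (smA x k χ t) s n‖ ≤ G n := by
    intro n
    rw [LSeries.norm_term_eq]
    split_ifs with h0
    · simp only [hG]; positivity
    · have hn1 : 1 ≤ n := by omega
      have hn0 : (0 : ℝ) < n := by exact_mod_cast hn1
      have hpow : (0 : ℝ) < (n : ℝ) ^ s.re := Real.rpow_pos_of_pos hn0 _
      rw [div_le_iff₀ hpow]
      calc ‖smA x k χ t n‖ ≤ Real.log n ^ (k + 1) := smA_norm x k χ t n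
        _ ≤ M * (n : ℝ) ^ c := sm_logpow (k + 1) n hn1 c hc0
        _ = G n * (n : ℝ) ^ s.re := by
            simp only [hG]
            have e : (n : ℝ) ^ s.re = (n : ℝ) ^ (1 + c) * (n : ℝ) ^ c := by
              rw [← Real.rpow_add hn0]
              congr 1
              rw [hs, hc]
              field_simp
              ring
            rw [e]
            have h3 : (n : ℝ) ^ (1 + c) ≠ 0 := (Real.rpow_pos_of_pos hn0 _).ne'
            field_simp
  have h1 : ‖LSeries (smA x k χ t) s‖ ≤ ∑' n, G n := by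
    unfold LSeries
    exact tsum_of_norm_bounded hGs.hasSum hle
  have h2 : ∑' n, G n ≤ M * (1 + 1 / c) := by
    rw [hGs.tsum_eq_zero_add]
    have e0 : G 0 = 0 := by
      simp only [hG, Nat.cast_zero]
      rw [Real.zero_rpow (by linarith only [hc0])]
      simp
    rw [e0, zero_add]
    simp only [hG]
    rw [tsum_mul_left]
    refine mul_le_mul_of_nonneg_left ?_ hM0
    have := Pool.Agent.H91.PK.zeta_bound hc0
    push_cast
    exact this
  have e1 : 1 / c = 8 * L := by rw [hc]; field_simp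
  calc ‖LSeries (smA x k χ t) s‖ ≤ M * (1 + 1 / c) := h1.trans h2
    _ = ((k + 1).factorial : ℝ) * ((8 * L) ^ (k + 1) * (1 + 8 * L)) := by
        rw [hM, e1]; ring
    _ ≤ ((k + 1).factorial : ℝ) * ((9 * L) ^ (k + 1) * (9 * L)) := by
        refine mul_le_mul_of_nonneg_left ?_ (by positivity)
        refine mul_le_mul ?_ (by linarith only [hL]) (by positivity) (by positivity)
        exact pow_le_pow_left₀ (by positivity) (by linarith only [hL]) _
    _ = _ := by rw [← pow_succ, mul_pow]; ring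

omit [T0] in
private theorem sm_ev (t1 : ℝ) (ht1 : 1 / 2 ≤ t1) (κ : ℕ) : ∃ x0 : ℕ, ∀ x : ℕ, x0 ≤ x →
    4 * Real.log x ^ (4 * κ) ≤ Real.exp (Real.log x ^ t1) ∧ 2 ≤ Real.log x ∧ 4 ≤ x := by
  have h1 : ∀ᶠ u : ℝ in Filter.atTop, 4 * u ^ (4 * κ) ≤ Real.exp (u ^ t1) := by
    have h := (isLittleO_pow_exp_pos_mul_atTop (8 * κ) (show (0 : ℝ) < 1 by norm_num)).bound
      (show (0 : ℝ) < 1 / 4 by norm_num)
    have h' := (tendsto_rpow_atTop (show (0 : ℝ) < t1 by linarith only [ht1])).eventually h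
    filter_upwards [h', Filter.eventually_ge_atTop (1 : ℝ)] with u hu hu1
    have hp : 0 ≤ u ^ t1 := Real.rpow_nonneg (by linarith only [hu1]) _
    rw [Real.norm_of_nonneg (by positivity), Real.norm_of_nonneg (by positivity), one_mul] at hu
    have h2 : u ^ (4 * κ) ≤ (u ^ t1) ^ (8 * κ) := by
      rw [← Real.rpow_natCast (u ^ t1), ← Real.rpow_mul (by linarith only [hu1]),
        ← Real.rpow_natCast u]
      refine Real.rpow_le_rpow_of_exponent_le hu1 ?_
      push_cast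
      have : (0 : ℝ) ≤ κ := Nat.cast_nonneg _
      nlinarith only [ht1]
    linarith only [hu, h2]
  have h2 : ∀ᶠ x : ℝ in Filter.atTop, 2 ≤ Real.log x := Real.tendsto_log_atTop.eventually_ge_atTop 2
  have h3 := (tendsto_natCast_atTop_atTop (R := ℝ)).eventually
    ((Real.tendsto_log_atTop.eventually h1).and h2)
  obtain ⟨x0, hx0⟩ := Filter.eventually_atTop.mp h3
  refine ⟨max x0 4, fun x hx => ?_⟩
  have := hx0 x (le_trans (le_max_left _ _) hx)
  exact ⟨this.1, this.2, le_trans (le_max_right _ _) hx⟩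

theorem sm_sharp_w_h (h_fk_up : fk_up_P) (t1 : ℝ) (ht1' : T0.t < t1) (k κ B : ℕ) (hκ : 1 ≤ κ) : ∃ C : ℝ, 1 ≤ C ∧ ∃ K' x0 : ℕ, ∀ x : ℕ, x0 ≤ x →
    ∀ (d : ℕ) (χ : DirichletCharacter ℂ d) (t : ℝ) (v z : ℕ), 1 ≤ d → (d : ℝ) ≤ Real.log x ^ B →
    Real.exp (Real.log x ^ t1) ≤ z → z ≤ x ^ 2 → v ≤ z → Real.log x ^ K' ≤ |t| → |t| ≤ (x : ℝ) ^ (2 : ℕ) →
    ‖∑ n ∈ Icc 1 v, ((Lam n * Real.log n ^ k : ℝ) : ℂ) * ch x χ (n : ZMod (qm x d)) * ee (t * Real.log n)‖ ≤
      C * z * (L9 x ^ (k + 1) * LL x ^ (20 * (k + 1)) * Real.log x ^ (3 * κ) +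
        Real.log (2 * z) ^ (k + 1) / Real.log x ^ κ) := by
  obtain ⟨C1, hC1, K1, x1, hfk⟩ := h_fk_up k B
  obtain ⟨C2, hC2, hsm⟩ := smooth_two
  obtain ⟨C3, hC3, hsh⟩ := smooth_to_sharp
  obtain ⟨x2, hyx⟩ := yx_ev
  obtain ⟨x3, hev⟩ := sm_ev t1 (by have := T0.lo; linarith only [ht1', this]) κ
  set C4 : ℝ := ((k + 1).factorial : ℝ) * 9 ^ (k + 2) with hC4
  have hC40 : 0 ≤ C4 := by positivity
  refine ⟨C3 * (24 * C2 * (C1 + C4) + 2) + 1, by
    have : 0 ≤ C3 * (24 * C2 * (C1 + C4) + 2) := by positivity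
    linarith only [this], max K1 (k + 2), max x1 (max x2 x3), ?_⟩
  intro x hx d χ t v z hd hdB hxz hzx hvz hKt htx
  have hx1 : x1 ≤ x := le_trans (le_max_left _ _) hx
  have hx2 : x2 ≤ x := le_trans (le_trans (le_max_left _ _) (le_max_right _ _)) hx
  have hx3 : x3 ≤ x := le_trans (le_trans (le_max_right _ _) (le_max_right _ _)) hx
  obtain ⟨-, -, -, hLL, hL9, -, -⟩ := hyx x hx2
  obtain ⟨hev1, hL2, hx4⟩ := hev x hx3
  set L : ℝ := Real.log x with hLdef
  have hL1 : 1 ≤ L := by linarith only [hL2]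
  have hxr : (4 : ℝ) ≤ x := by exact_mod_cast hx4
  have hx0 : (0 : ℝ) < x := by linarith only [hxr]
  set W : ℝ := L9 x ^ (k + 1) * LL x ^ (20 * (k + 1)) with hW
  have hW1 : 1 ≤ W := by
    rw [hW]
    calc (1 : ℝ) = 1 * 1 := by ring
      _ ≤ _ := mul_le_mul (one_le_pow₀ hL9) (one_le_pow₀ hLL) (by norm_num) (by positivity)
  have hz0 : (0 : ℝ) ≤ z := Nat.cast_nonneg _
  have hz1 : (1 : ℝ) ≤ z := by
    refine le_trans ?_ hxz
    exact Real.one_le_exp (Real.rpow_nonneg (by linarith only [hL2]) _)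
  have hℓ0 : 0 ≤ Real.log (2 * z) := Real.log_nonneg (by linarith only [hz1])
  set ℓ : ℝ := Real.log (2 * z) with hℓ
  have hRHS0 : 0 ≤ (z : ℝ) * (W * L ^ (3 * κ) + ℓ ^ (k + 1) / L ^ κ) := by positivity
  have hsum : ∑ n ∈ Icc 1 v, ((Lam n * Real.log n ^ k : ℝ) : ℂ) * ch x χ (n : ZMod (qm x d)) *
      ee (t * Real.log n) = ∑ n ∈ Icc 1 v, smA x k χ t n := rfl
  rw [hsum]
  suffices hmain : ‖∑ n ∈ Icc 1 v, smA x k χ t n‖ ≤
      C3 * (24 * C2 * (C1 + C4) + 2) * (z * (W * L ^ (3 * κ) + ℓ ^ (k + 1) / L ^ κ)) by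
    calc ‖∑ n ∈ Icc 1 v, smA x k χ t n‖ ≤ _ := hmain
      _ ≤ (C3 * (24 * C2 * (C1 + C4) + 2) + 1) *
          (z * (W * L ^ (3 * κ) + ℓ ^ (k + 1) / L ^ κ)) :=
        mul_le_mul_of_nonneg_right (by linarith only) hRHS0
      _ = _ := by ring
  rcases Nat.lt_or_ge v 2 with hv | hv
  · have h0 : ∑ n ∈ Icc 1 v, smA x k χ t n = 0 := by
      refine Finset.sum_eq_zero fun n hn => ?_
      rw [Finset.mem_Icc] at hn
      have hn1 : n = 1 := by omega
      subst hn1
      unfold smA Lam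
      simp
    rw [h0, norm_zero]
    positivity
  -- main case
  have hpi : (3 : ℝ) < Real.pi := Real.pi_gt_three
  have hpi4 : Real.pi ≤ 4 := Real.pi_le_four
  set T : ℝ := Real.pi * |t| with hT
  have hKt1 : L ^ K1 ≤ |t| := (pow_le_pow_right₀ hL1 (le_max_left _ _)).trans hKt
  have hKt2 : L ^ (k + 2) ≤ |t| := (pow_le_pow_right₀ hL1 (le_max_right _ _)).trans hKt
  have ht1 : 1 ≤ |t| := (one_le_pow₀ hL1).trans hKt1
  have htT : |t| ≤ T := by rw [hT]; nlinarith only [hpi, ht1]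
  have hT1 : 1 ≤ T := ht1.trans htT
  set β : ℝ := 1 + 1 / (4 * L) with hβ
  have hβ1 : 1 < β := by rw [hβ]; have : 0 < 1 / (4 * L) := by positivity
                         linarith only [this]
  have hβ2 : β ≤ 2 := by
    rw [hβ]
    have : 1 / (4 * L) ≤ 1 := by
      rw [div_le_one (by positivity)]; linarith only [hL2]
    linarith only [this]
  have hsummable : LSeriesSummable (smA x k χ t) (β : ℂ) :=
    smA_summable x k χ t _ (by simpa using hβ1)
  have hB1 : ∀ τ : ℝ, |τ| ≤ T → ‖LSeries (smA x k χ t) (β + τ * Complex.I)‖ ≤ C1 * W := by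
    intro τ hτ
    rw [smA_LSeries]
    have hre : ((β : ℂ) + τ * Complex.I - 2 * Real.pi * t * Complex.I).re = β := by simp
    have him : ((β : ℂ) + τ * Complex.I - 2 * Real.pi * t * Complex.I).im = τ - 2 * Real.pi * t := by
      simp
    have habs2 : |2 * Real.pi * t| = 2 * T := by
      rw [hT, abs_mul, abs_of_pos (by positivity : (0 : ℝ) < 2 * Real.pi)]; ring
    have hlow : T ≤ |τ - 2 * Real.pi * t| := by
      have := abs_sub_abs_le_abs_sub (2 * Real.pi * t) τ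
      rw [habs2, abs_sub_comm] at this
      linarith only [hτ, this]
    have hup : |τ - 2 * Real.pi * t| ≤ 3 * T := by
      have := abs_sub τ (2 * Real.pi * t)
      rw [habs2] at this
      linarith only [hτ, this]
    have := hfk x hx1 d χ ((β : ℂ) + τ * Complex.I - 2 * Real.pi * t * Complex.I) hd hdB
      (by rw [hre]) (by rw [hre]; exact hβ2) (by rw [him]; linarith only [hKt1, htT, hlow])
      (by
        rw [him]
        refine hup.trans ?_
        rw [hT]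
        have h5 : Real.pi * |t| ≤ (x : ℝ) * (x : ℝ) ^ 2 :=
          mul_le_mul (by linarith only [hxr, hpi4]) htx (abs_nonneg _) (by linarith only [hxr])
        calc 3 * (Real.pi * |t|) ≤ 3 * ((x : ℝ) * (x : ℝ) ^ 2) := by linarith only [h5]
          _ = 3 * (x : ℝ) ^ (3 : ℕ) := by ring)
    rw [hW, ← mul_assoc]
    exact this
  have hB2 : ∀ τ : ℝ, ‖LSeries (smA x k χ t) (β + τ * Complex.I)‖ ≤ C4 * L ^ (k + 2) := by
    intro τ
    exact sm_B2 x k χ t L hL1 _ (by simp [hβ])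
  have hBB : C1 * W + C4 * L ^ (k + 2) / T ^ 2 ≤ (C1 + C4) * W := by
    have h1 : L ^ (k + 2) ≤ T ^ 2 := by
      calc L ^ (k + 2) ≤ T := hKt2.trans htT
        _ ≤ T ^ 2 := by nlinarith only [hpi, ht1, htT]
    have h2 : C4 * L ^ (k + 2) / T ^ 2 ≤ C4 := by
      rw [div_le_iff₀ (by positivity)]
      exact mul_le_mul_of_nonneg_left h1 hC40
    have h3 : C4 ≤ C4 * W := by nlinarith only [hC40, hW1]
    nlinarith only [h2, h3]
  have hzx2 : (z : ℝ) ≤ (x : ℝ) ^ 2 := by exact_mod_cast hzx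
  have hS : ∀ N : ℕ, 1 ≤ N → N ≤ 2 * v →
      ‖∑ n ∈ Icc 1 N, smA x k χ t n * ((Pool.Agent.H91.PK.om ((n : ℝ) / N) : ℝ) : ℂ)‖ ≤
        6 * C2 * (C1 + C4) * z * W := by
    intro N hN1 hN2
    have h := hsm (smA x k χ t) β (C1 * W) (C4 * L ^ (k + 2)) T hβ1 hβ2 hsummable (by positivity)
      (by positivity) hT1 hB1 hB2 N hN1
    have hN0 : (0 : ℝ) < N := by exact_mod_cast hN1
    have hN2z : (N : ℝ) ≤ 2 * z := by
      have : N ≤ 2 * z := hN2.trans (by omega)
      exact_mod_cast this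
    have hNx : (N : ℝ) ≤ (x : ℝ) ^ 3 := by nlinarith only [htx, ht1, hzx2, hN2z, hxr]
    have hNβ : (N : ℝ) ^ β ≤ 3 * N := by
      rw [hβ, Real.rpow_add hN0, Real.rpow_one]
      have h6 : (N : ℝ) ^ (1 / (4 * L)) ≤ 3 := by
        calc (N : ℝ) ^ (1 / (4 * L)) ≤ ((x : ℝ) ^ 3) ^ (1 / (4 * L)) :=
              Real.rpow_le_rpow hN0.le hNx (by positivity)
          _ = Real.exp (3 / 4) := by
              rw [Real.rpow_def_of_pos (by positivity), Real.log_pow, ← hLdef]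
              congr 1
              have : L ≠ 0 := by positivity
              push_cast
              field_simp
          _ ≤ Real.exp 1 := Real.exp_le_exp.mpr (by norm_num)
          _ ≤ 3 := by have := Real.exp_one_lt_d9; linarith only [this]
      nlinarith only [h6]
    calc _ ≤ C2 * (N : ℝ) ^ β * (C1 * W + C4 * L ^ (k + 2) / T ^ 2) := h
      _ ≤ C2 * (3 * N) * ((C1 + C4) * W) := by
          refine mul_le_mul (mul_le_mul_of_nonneg_left hNβ (by linarith only [hC2])) hBB (by positivity)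
            (by positivity)
      _ ≤ C2 * (3 * (2 * z)) * ((C1 + C4) * W) := by
          refine mul_le_mul_of_nonneg_right ?_ (by positivity)
          refine mul_le_mul_of_nonneg_left ?_ (by linarith only [hC2])
          linarith only [hN2z]
      _ = _ := by ring
  have hA : ∀ u w : ℕ, u ≤ w → w ≤ 2 * v → ∑ n ∈ Ioc u w, ‖smA x k χ t n‖ ≤
      ℓ ^ (k + 1) * ((w : ℝ) - u + 1) := by
    intro u w huw hw
    have h1 : ∑ n ∈ Ioc u w, ‖smA x k χ t n‖ ≤ ∑ _n ∈ Ioc u w, ℓ ^ (k + 1) := by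
      refine Finset.sum_le_sum fun n hn => ?_
      rw [Finset.mem_Ioc] at hn
      refine (smA_norm x k χ t n).trans ?_
      refine pow_le_pow_left₀ (Real.log_natCast_nonneg n) ?_ _
      have hn0 : (0 : ℝ) < n := by exact_mod_cast (by omega : 0 < n)
      have hn2z : (n : ℝ) ≤ 2 * z := by
        have : n ≤ 2 * z := by omega
        exact_mod_cast this
      exact Real.log_le_log hn0 hn2z
    refine h1.trans ?_
    rw [Finset.sum_const, Nat.card_Ioc, nsmul_eq_mul, Nat.cast_sub huw, mul_comm]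
    refine mul_le_mul_of_nonneg_left (by linarith only) (by positivity)
  have hLκ : 1 ≤ L ^ κ := one_le_pow₀ hL1
  have hLL2 : 2 ≤ L ^ κ := by
    calc (2 : ℝ) ≤ L := hL2
      _ = L ^ 1 := (pow_one L).symm
      _ ≤ L ^ κ := pow_le_pow_right₀ hL1 hκ
  have hfin := hsh (smA x k χ t) (6 * C2 * (C1 + C4) * z * W) (ℓ ^ (k + 1)) 1 v (1 / L ^ κ)
    (by positivity) (by positivity) le_rfl hv (by positivity)
    (by rw [div_le_div_iff₀ (by positivity) (by norm_num)]; linarith only [hLL2]) hS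
    (fun u w huw hw => hA u w huw hw)
  have e3 : 1 / (1 / L ^ κ) ^ 3 = L ^ (3 * κ) := by
    rw [div_pow, one_pow, one_div_one_div, ← pow_mul, mul_comm]
  rw [e3] at hfin
  have hlogv : Real.log v ≤ 3 * L := by
    have hv0 : (0 : ℝ) < v := by exact_mod_cast (by omega : 0 < v)
    have hvx : (v : ℝ) ≤ (x : ℝ) ^ 3 := by
      have : (v : ℝ) ≤ z := by exact_mod_cast hvz
      nlinarith only [htx, ht1, hzx2, this, hxr]
    calc Real.log v ≤ Real.log ((x : ℝ) ^ 3) := Real.log_le_log hv0 hvx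
      _ = 3 * L := by rw [Real.log_pow]; push_cast; ring
  have hL3 : L ≤ L ^ (3 * κ) := by
    calc L = L ^ 1 := (pow_one L).symm
      _ ≤ L ^ (3 * κ) := pow_le_pow_right₀ hL1 (by omega)
  have hzL : 4 * L ^ (3 * κ) ≤ z / L ^ κ := by
    rw [le_div_iff₀ (by positivity)]
    calc 4 * L ^ (3 * κ) * L ^ κ = 4 * L ^ (4 * κ) := by
          rw [mul_assoc, ← pow_add]; congr 2; ring
      _ ≤ Real.exp (L ^ t1) := hev1
      _ ≤ z := hxz
  have hvz' : (v : ℝ) ≤ z := by exact_mod_cast hvz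
  have hb1 : L ^ (3 * κ) + Real.log v ≤ 4 * L ^ (3 * κ) := by linarith only [hlogv, hL3]
  have hb2 : 1 / L ^ κ * v + Real.log v + 1 * L ^ (3 * κ) ≤ 2 * (z / L ^ κ) := by
    have : 1 / L ^ κ * v ≤ z / L ^ κ := by
      rw [one_div, inv_mul_eq_div]
      exact div_le_div_of_nonneg_right hvz' (by positivity)
    linarith only [hlogv, hL3, hzL, this]
  have e4 : 1 / L ^ κ * (v : ℝ) + Real.log v + 1 / (1 / L ^ κ) ^ 3 =
      1 / L ^ κ * v + Real.log v + 1 * L ^ (3 * κ) := by rw [e3, one_mul]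
  refine hfin.trans ?_
  calc C3 * (6 * C2 * (C1 + C4) * z * W * (L ^ (3 * κ) + Real.log v) +
        ℓ ^ (k + 1) * (1 / L ^ κ * v + Real.log v + L ^ (3 * κ)))
      ≤ C3 * (6 * C2 * (C1 + C4) * z * W * (4 * L ^ (3 * κ)) +
        ℓ ^ (k + 1) * (2 * (z / L ^ κ))) := by
        refine mul_le_mul_of_nonneg_left (add_le_add ?_ ?_) hC3.le
        · exact mul_le_mul_of_nonneg_left hb1 (by positivity)
        · refine mul_le_mul_of_nonneg_left ?_ (by positivity)
          rw [one_mul] at hb2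
          exact hb2
    _ = C3 * (24 * C2 * (C1 + C4)) * (z * (W * L ^ (3 * κ))) +
        C3 * (2) * (z * (ℓ ^ (k + 1) / L ^ κ)) := by
        ring
    _ ≤ C3 * (24 * C2 * (C1 + C4) + 2) * (z * (W * L ^ (3 * κ))) +
        C3 * (24 * C2 * (C1 + C4) + 2) * (z * (ℓ ^ (k + 1) / L ^ κ)) := by
        refine add_le_add ?_ ?_
        · refine mul_le_mul_of_nonneg_right ?_ (by positivity)
          refine mul_le_mul_of_nonneg_left ?_ hC3.le
          linarith only
        · refine mul_le_mul_of_nonneg_right ?_ (by positivity)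
          refine mul_le_mul_of_nonneg_left ?_ hC3.le
          have : (0 : ℝ) ≤ 24 * C2 * (C1 + C4) := by positivity
          linarith only [this]
    _ = _ := by ring

end Pool.Agent.H76.VKT

end

section

set_option autoImplicit false

namespace Pool.Agent.H97.VK

open Finset
open Pool.Agent.H91.PK (ee)

theorem vexp : ∃ c C : ℝ, 0 < c ∧ 1 ≤ C ∧ ∀ (κ N a b : ℕ) (β t : ℝ), 4 ≤ κ → (C * κ) ^ C ≤ N →
    N ≤ a → b ≤ 2 * N → 0 ≤ β → β ≤ 1 → (N : ℝ) ^ (4 * κ - 4) ≤ |t| → |t| ≤ (N : ℝ) ^ (4 * κ) →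
    ‖∑ n ∈ Ioc a b, ee (t * Real.log (n + β))‖ ≤ C * (N : ℝ) ^ (1 - c / (κ : ℝ) ^ 2) :=
  vexp_h jv_eight

end Pool.Agent.H97.VK

end
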