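import Pool.Agent.H43.PJ.M13
import Pool.Agent.H43.PJ.M21

/-! The parts of this file: H76.VKT.Chain, H97.VK.Chain, H97.VK.VkChi, H97.VK.VkClass. -/

section

set_option autoImplicit false

namespace Pool.Agent.H76.VKT

open Finset
open Pool.Agent.H91.EHA
open Pool.Agent.H91.PK (ee)

theorem vk_exp [T0] (A : ℕ) : ∃ x0 : ℕ, ∀ x : ℕ, x0 ≤ x → ∀ (K a b : ℕ) (β t : ℝ),
    Real.exp (Real.log x ^ T0.t) ≤ K → K ≤ x → b ≤ K → 0 ≤ β → β ≤ 1 →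
    1 ≤ |t| → |t| ≤ (x : ℝ) ^ (3 : ℕ) →
    ‖∑ n ∈ Ioc a b, ee (t * Real.log (n + β))‖ ≤ K * (100 / |t| + 1 / Real.log x ^ A) :=
  vk_exp_h Pool.Agent.H97.VK.vexp A

theorem psum [T0] (A B : ℕ) : ∃ K' x0 : ℕ, ∀ x : ℕ, x0 ≤ x → ∀ (d : ℕ) (χ : DirichletCharacter ℂ d) (t : ℝ) (v : ℕ),
    1 ≤ d → (d : ℝ) ≤ Real.log x ^ B → Real.log x ^ K' ≤ |t| → |t| ≤ (x : ℝ) ^ (3 : ℕ) → Yx x + 1 ≤ v →
    ‖∑ n ∈ Icc 1 v, χ (n : ZMod d) * ee (t * Real.log n)‖ ≤ v / Real.log x ^ A :=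
  psum_h vk_exp A B

theorem rtw [T0] (A B : ℕ) : ∃ K' D x0 : ℕ, ∀ x : ℕ, x0 ≤ x → ∀ (d : ℕ) (χ : DirichletCharacter ℂ d) (t : ℝ) (u : ℕ),
    1 ≤ d → (d : ℝ) ≤ Real.log x ^ B → Real.log x ^ K' ≤ |t| → |t| ≤ (x : ℝ) ^ (3 : ℕ) → D * (LL x * L9 x) ≤ Real.log u →
    ‖∑ n ∈ Icc 1 u, ch x χ (n : ZMod (qm x d)) * ee (t * Real.log n)‖ ≤ u / Real.log x ^ A :=
  rtw_h psum A B

theorem lk_up [T0] (k B : ℕ) : ∃ C : ℝ, 1 ≤ C ∧ ∃ K' x0 : ℕ, ∀ x : ℕ, x0 ≤ x → ∀ (d : ℕ) (χ : DirichletCharacter ℂ d) (s : ℂ),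
    1 ≤ d → (d : ℝ) ≤ Real.log x ^ B → 1 + 1 / (4 * Real.log x) ≤ s.re → s.re ≤ 2 →
    Real.log x ^ K' ≤ |s.im| → |s.im| ≤ 6 * (x : ℝ) ^ (3 : ℕ) →
    ‖Lk (qm x d) (ch x χ) k s‖ ≤ C * L9 x ^ k * LL x ^ (k + 1) :=
  lk_up_h rtw k B

theorem lk_low [T0] (B : ℕ) : ∃ c : ℝ, 0 < c ∧ c ≤ 1 ∧ ∃ K' x0 : ℕ, ∀ x : ℕ, x0 ≤ x → ∀ (d : ℕ) (χ : DirichletCharacter ℂ d) (s : ℂ),
    1 ≤ d → (d : ℝ) ≤ Real.log x ^ B → 1 + 1 / (4 * Real.log x) ≤ s.re → s.re ≤ 2 →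
    Real.log x ^ K' ≤ |s.im| → |s.im| ≤ 3 * (x : ℝ) ^ (3 : ℕ) →
    c / LL x ^ 7 ≤ ‖Lk (qm x d) (ch x χ) 0 s‖ :=
  lk_low_h lk_up zy_up B

theorem fk_up [T0] (k B : ℕ) : ∃ C : ℝ, 1 ≤ C ∧ ∃ K' x0 : ℕ, ∀ x : ℕ, x0 ≤ x → ∀ (d : ℕ) (χ : DirichletCharacter ℂ d) (s : ℂ),
    1 ≤ d → (d : ℝ) ≤ Real.log x ^ B → 1 + 1 / (4 * Real.log x) ≤ s.re → s.re ≤ 2 →
    Real.log x ^ K' ≤ |s.im| → |s.im| ≤ 3 * (x : ℝ) ^ (3 : ℕ) →
    ‖Fk (qm x d) (ch x χ) k s‖ ≤ C * L9 x ^ (k + 1) * LL x ^ (20 * (k + 1)) :=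
  fk_up_h lk_low lk_up k B

theorem sm_sharp_w [T0] (t1 : ℝ) (ht1' : T0.t < t1) (k κ B : ℕ) (hκ : 1 ≤ κ) : ∃ C : ℝ, 1 ≤ C ∧ ∃ K' x0 : ℕ, ∀ x : ℕ, x0 ≤ x →
    ∀ (d : ℕ) (χ : DirichletCharacter ℂ d) (t : ℝ) (v z : ℕ), 1 ≤ d → (d : ℝ) ≤ Real.log x ^ B →
    Real.exp (Real.log x ^ t1) ≤ z → z ≤ x ^ 2 → v ≤ z → Real.log x ^ K' ≤ |t| → |t| ≤ (x : ℝ) ^ (2 : ℕ) →
    ‖∑ n ∈ Icc 1 v, ((Lam n * Real.log n ^ k : ℝ) : ℂ) * ch x χ (n : ZMod (qm x d)) * ee (t * Real.log n)‖ ≤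
      C * z * (L9 x ^ (k + 1) * LL x ^ (20 * (k + 1)) * Real.log x ^ (3 * κ) +
        Real.log (2 * z) ^ (k + 1) / Real.log x ^ κ) :=
  sm_sharp_w_h fk_up t1 ht1' k κ B hκ

theorem vk_chi_w [T0] (t1 : ℝ) (ht1' : T0.t < t1) (K B : ℕ) : ∃ K' x0 : ℕ, ∀ x : ℕ, x0 ≤ x →
    ∀ (d : ℕ) (χ : DirichletCharacter ℂ d) (t : ℝ) (z : ℕ), 1 ≤ d → (d : ℝ) ≤ Real.log x ^ B →
    Real.exp (Real.log x ^ t1) ≤ z → z ≤ x ^ 2 → Real.log x ^ K' ≤ |t| → |t| ≤ (x : ℝ) ^ (2 : ℕ) →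
    ‖∑ n ∈ Icc 1 z, ((Lam n : ℝ) : ℂ) * χ (n : ZMod d) * ee (t * Real.log n)‖ ≤ z / Real.log x ^ K :=
  vk_chi_w_h sm_sharp_w t1 ht1' K B

end Pool.Agent.H76.VKT

end

section

set_option autoImplicit false

namespace Pool.Agent.H97.VK

open Finset
open Pool.Agent.H91.EHA
open Pool.Agent.H91.PK (ee)

theorem psum (A B : ℕ) : ∃ K' x0 : ℕ, ∀ x : ℕ, x0 ≤ x → ∀ (d : ℕ) (χ : DirichletCharacter ℂ d) (t : ℝ) (v : ℕ),
    1 ≤ d → (d : ℝ) ≤ Real.log x ^ B → Real.log x ^ K' ≤ |t| → |t| ≤ (x : ℝ) ^ (3 : ℕ) → Yx x + 1 ≤ v →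
    ‖∑ n ∈ Icc 1 v, χ (n : ZMod d) * ee (t * Real.log n)‖ ≤ v / Real.log x ^ A :=
  @Pool.Agent.H76.VKT.psum ⟨9 / 10, by norm_num, by norm_num⟩ A B

theorem vk_chi_w (K B : ℕ) : ∃ K' x0 : ℕ, ∀ x : ℕ, x0 ≤ x →
    ∀ (d : ℕ) (χ : DirichletCharacter ℂ d) (t : ℝ) (z : ℕ), 1 ≤ d → (d : ℝ) ≤ Real.log x ^ B →
    Real.exp (Real.log x ^ (19 / 20 : ℝ)) ≤ z → z ≤ x ^ 2 → Real.log x ^ K' ≤ |t| → |t| ≤ (x : ℝ) ^ (2 : ℕ) →
    ‖∑ n ∈ Icc 1 z, ((Lam n : ℝ) : ℂ) * χ (n : ZMod d) * ee (t * Real.log n)‖ ≤ z / Real.log x ^ K :=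
  @Pool.Agent.H76.VKT.vk_chi_w ⟨9 / 10, by norm_num, by norm_num⟩ (19 / 20)
    (show (9 / 10 : ℝ) < 19 / 20 by norm_num) K B

end Pool.Agent.H97.VK

end

section

/-!
# VK VkChi: twisted sums over primes, from the form with `z ≥ exp ((log x)^(19/20))` (VkChiW)
-/

set_option autoImplicit false

namespace Pool.Agent.H97.VK

open Finset
open Pool.Agent.H91.PK
open Pool.Agent.H91.EHA

theorem vk_chi (K B : ℕ) (e0 : ℝ) (he : 0 < e0) : ∃ K' x0 : ℕ, ∀ x : ℕ, x0 ≤ x →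
    ∀ (d : ℕ) (χ : DirichletCharacter ℂ d) (t : ℝ) (z : ℕ), 1 ≤ d → (d : ℝ) ≤ Real.log x ^ B →
    (x : ℝ) ^ e0 ≤ z → z ≤ x ^ 2 → Real.log x ^ K' ≤ |t| → |t| ≤ (x : ℝ) ^ (2 : ℕ) →
    ‖∑ n ∈ Icc 1 z, ((Lam n : ℝ) : ℂ) * χ (n : ZMod d) * ee (t * Real.log n)‖ ≤ z / Real.log x ^ K := by
  obtain ⟨K', x0, h⟩ := vk_chi_w K B
  have h1 : ∀ᶠ x : ℕ in Filter.atTop, (1 / e0) ^ 20 + 1 ≤ Real.log x :=
    (Real.tendsto_log_atTop.comp tendsto_natCast_atTop_atTop).eventually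
      (Filter.eventually_ge_atTop _)
  obtain ⟨x1, hx1⟩ := Filter.eventually_atTop.1 h1
  refine ⟨K', max (max x0 x1) 2, fun x hx d χ t z hd hdB hz1 hz2 ht1 ht2 => ?_⟩
  have hxa : x0 ≤ x := ((le_max_left _ _).trans (le_max_left _ _)).trans hx
  have hxb : x1 ≤ x := ((le_max_right _ _).trans (le_max_left _ _)).trans hx
  have hxc : 2 ≤ x := (le_max_right _ _).trans hx
  refine h x hxa d χ t z hd hdB (le_trans ?_ hz1) hz2 ht1 ht2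
  have hL := hx1 x hxb
  have hx0 : (0 : ℝ) < x := by exact_mod_cast (by omega : 0 < x)
  have hi0 : 0 < 1 / e0 := by positivity
  have hy1 : 0 < Real.log x := by
    have : 0 < (1 / e0) ^ 20 := by positivity
    linarith
  set y : ℝ := Real.log x with hy
  have h3 : y = y ^ (19 / 20 : ℝ) * y ^ (1 / 20 : ℝ) := by
    rw [← Real.rpow_add hy1]
    norm_num
  have h4 : 1 / e0 ≤ y ^ (1 / 20 : ℝ) := by
    have h5 : ((1 / e0) ^ 20) ^ (1 / 20 : ℝ) ≤ y ^ (1 / 20 : ℝ) :=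
      Real.rpow_le_rpow (by positivity) (by linarith) (by norm_num)
    refine le_trans (le_of_eq ?_) h5
    rw [← Real.rpow_natCast, ← Real.rpow_mul hi0.le]
    norm_num
  have h6 : 1 ≤ y ^ (1 / 20 : ℝ) * e0 := by
    rw [div_le_iff₀ he] at h4
    exact h4
  have h7 : 0 ≤ y ^ (19 / 20 : ℝ) := by positivity
  have h8 : y ^ (19 / 20 : ℝ) ≤ y * e0 := by
    calc y ^ (19 / 20 : ℝ) = y ^ (19 / 20 : ℝ) * 1 := (mul_one _).symm
      _ ≤ y ^ (19 / 20 : ℝ) * (y ^ (1 / 20 : ℝ) * e0) := mul_le_mul_of_nonneg_left h6 h7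
      _ = y * e0 := by
        conv_rhs => rw [h3]
        ring
  rw [Real.rpow_def_of_pos hx0]
  exact Real.exp_le_exp.2 h8

end Pool.Agent.H97.VK

end

section

/-!
# VK VkClass: the same in residue classes (main theorem of Part I)

Proof.  `(u,d) = 1`: orthogonality (Mathlib `DirichletCharacter.sum_char_inv_mul_char_eq`, compare `swk1_orth` in `EHA/SwK1.lean`):
`∑_{n ≡ u} Λ(n) ee(t log n) = (1/φ(d)) ∑_χ χ(u)^{-1} ∑_{n≤z} Λ(n) χ(n) ee(t log n)`, at most `φ(d)` characters, `vk_chi K B e0`.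
`(u,d) > 1`: every `n ≡ u mod d` has a common factor with `d`, so `Λ(n) ≠ 0` only for powers of the primes `p ∣ d`:
at most `∑_{p ∣ d} log z ≤ d · log z ≤ z/L^K` (`DiA_psi_noncoprime` in `PK/DiA.lean`, or directly).
-/

set_option autoImplicit false

namespace Pool.Agent.H97.VK

open Finset
open Pool.Agent.H91.EHA
open Pool.Agent.H91.PK (ee)

theorem VkClass_orth {z d u : ℕ} (hd : 1 ≤ d) (hu : Nat.Coprime u d) (f : ℕ → ℂ) :
    (d.totient : ℂ) * ∑ n ∈ (Icc 1 z).filter (fun n => n % d = u % d), f n =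
      ∑ χ : DirichletCharacter ℂ d, χ ((u : ZMod d)⁻¹) *
        ∑ n ∈ Icc 1 z, f n * χ (n : ZMod d) := by
  have : NeZero d := ⟨by omega⟩
  have hun : IsUnit (u : ZMod d) := (ZMod.isUnit_iff_coprime u d).mpr hu
  simp only [mul_sum]
  rw [sum_comm, sum_filter]
  refine sum_congr rfl fun n _ => ?_
  have h1 : ∀ χ : DirichletCharacter ℂ d,
      χ ((u : ZMod d)⁻¹) * (f n * χ (n : ZMod d))
      = (χ ((u : ZMod d)⁻¹) * χ (n : ZMod d)) * f n := by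
    intro χ; ring
  simp only [h1]
  rw [← sum_mul, DirichletCharacter.sum_char_inv_mul_char_eq ℂ hun]
  have hiff : ((u : ZMod d) = (n : ZMod d)) ↔ n % d = u % d := by
    rw [eq_comm]
    exact ZMod.natCast_eq_natCast_iff' n u d
  by_cases h : n % d = u % d
  · rw [if_pos h, if_pos (hiff.mpr h)]
  · rw [if_neg h, if_neg (fun h' => h (hiff.mp h'))]
    simp

theorem VkClass_norm_ee (t : ℝ) : ‖ee t‖ = 1 := by
  unfold ee
  rw [show (2 * Real.pi * t * Complex.I : ℂ) = ((2 * Real.pi * t : ℝ) : ℂ) * Complex.I by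
    push_cast; ring]
  exact Complex.norm_exp_ofReal_mul_I _

theorem VkClass_norm_char_le {d : ℕ} (χ : DirichletCharacter ℂ d) (a : ZMod d) : ‖χ a‖ ≤ 1 :=
  DirichletCharacter.norm_le_one χ a

theorem VkClass_large (K B : ℕ) (e0 : ℝ) (he : 0 < e0) : ∃ x0 : ℕ, ∀ x : ℕ, x0 ≤ x →
    1 ≤ Real.log x ∧ 2 * Real.log x ^ (B + 1 + K) ≤ (x : ℝ) ^ e0 := by
  have h1 : (fun x : ℝ => Real.log x ^ ((B + 1 + K : ℕ) : ℝ)) =o[Filter.atTop]
      fun x : ℝ => x ^ e0 := isLittleO_log_rpow_rpow_atTop _ he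
  have h2 := h1.bound (show (0 : ℝ) < 1 / 2 by norm_num)
  have h3 : ∀ᶠ x : ℝ in Filter.atTop, 1 ≤ Real.log x ∧
      2 * Real.log x ^ (B + 1 + K) ≤ x ^ e0 := by
    filter_upwards [h2, Real.tendsto_log_atTop.eventually_ge_atTop 1,
      Filter.eventually_ge_atTop 0] with x hx hx1 hx0
    refine ⟨hx1, ?_⟩
    rw [Real.rpow_natCast, Real.norm_of_nonneg (by positivity),
      Real.norm_of_nonneg (Real.rpow_nonneg hx0 _)] at hx
    linarith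
  have h4 := tendsto_natCast_atTop_atTop.eventually h3
  obtain ⟨x0, hx0⟩ := Filter.eventually_atTop.1 h4
  exact ⟨x0, fun x hx => hx0 x hx⟩

theorem VkClass_noncop {z d u : ℕ} (hz : 1 ≤ z) (hd : 1 ≤ d) (hu : ¬ Nat.Coprime u d)
    (t : ℝ) :
    ‖∑ n ∈ (Icc 1 z).filter (fun n => n % d = u % d),
      ((Lam n : ℝ) : ℂ) * ee (t * Real.log n)‖ ≤ d * Real.log z := by
  have h1 : ‖∑ n ∈ (Icc 1 z).filter (fun n => n % d = u % d),
      ((Lam n : ℝ) : ℂ) * ee (t * Real.log n)‖ ≤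
      ∑ n ∈ (Icc 1 z).filter (fun n => n % d = u % d), ArithmeticFunction.vonMangoldt n := by
    refine (norm_sum_le _ _).trans (sum_le_sum fun n _ => ?_)
    rw [norm_mul, VkClass_norm_ee, mul_one, Complex.norm_real, Lam,
      Real.norm_of_nonneg ArithmeticFunction.vonMangoldt_nonneg]
  have h2 : ∑ n ∈ (Icc 1 z).filter (fun n => n % d = u % d), ArithmeticFunction.vonMangoldt n ≤
      ∑ n ∈ (Icc 1 z).filter (fun n => ¬ Nat.Coprime n d), ArithmeticFunction.vonMangoldt n := by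
    refine sum_le_sum_of_subset_of_nonneg ?_ (fun _ _ _ => ArithmeticFunction.vonMangoldt_nonneg)
    intro n hn
    rw [mem_filter] at hn ⊢
    refine ⟨hn.1, fun hc => hu ?_⟩
    have h3 : Nat.gcd n d = Nat.gcd u d := Nat.ModEq.gcd_eq hn.2
    rw [Nat.Coprime, ← h3]
    exact hc
  have h4 := Pool.Agent.H91.PK.DiA_psi_noncoprime (N := z) (d := d) hz hd
  have h5 : (d.primeFactors.card : ℝ) ≤ d := by
    have : d.primeFactors.card ≤ (Icc 1 d).card := by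
      refine card_le_card fun p hp => ?_
      rw [mem_Icc]
      exact ⟨(Nat.prime_of_mem_primeFactors hp).one_le,
        Nat.le_of_dvd hd (Nat.dvd_of_mem_primeFactors hp)⟩
    rw [Nat.card_Icc, Nat.add_sub_cancel] at this
    exact_mod_cast this
  calc _ ≤ _ := h1
    _ ≤ _ := h2
    _ ≤ _ := h4
    _ ≤ _ := mul_le_mul_of_nonneg_right h5 (Real.log_natCast_nonneg z)

theorem vk_class (K B : ℕ) (e0 : ℝ) (he : 0 < e0) : ∃ K' x0 : ℕ, ∀ x : ℕ, x0 ≤ x →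
    ∀ (d u z : ℕ) (t : ℝ), 1 ≤ d → (d : ℝ) ≤ Real.log x ^ B →
    (x : ℝ) ^ e0 ≤ z → z ≤ x ^ 2 → Real.log x ^ K' ≤ |t| → |t| ≤ (x : ℝ) ^ (2 : ℕ) →
    ‖∑ n ∈ (Icc 1 z).filter (fun n => n % d = u % d), ((Lam n : ℝ) : ℂ) * ee (t * Real.log n)‖ ≤
      z / Real.log x ^ K := by
  obtain ⟨K', x1, hchi⟩ := vk_chi K B e0 he
  obtain ⟨x2, hlarge⟩ := VkClass_large K B e0 he
  refine ⟨K', max (max x1 x2) 1, fun x hx d u z t hd hdB hz1 hz2 ht1 ht2 => ?_⟩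
  have hx1 : x1 ≤ x := ((le_max_left _ _).trans (le_max_left _ _)).trans hx
  have hx2 : x2 ≤ x := ((le_max_right _ _).trans (le_max_left _ _)).trans hx
  have hx3 : 1 ≤ x := (le_max_right _ _).trans hx
  obtain ⟨hL1, hL2⟩ := hlarge x hx2
  have hL0 : 0 < Real.log x := by linarith
  have hLK : 0 < Real.log x ^ K := pow_pos hL0 K
  have hz0 : (0 : ℝ) ≤ z := Nat.cast_nonneg z
  by_cases hu : Nat.Coprime u d
  · have : NeZero d := ⟨by omega⟩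
    have horth := VkClass_orth (z := z) hd hu (fun n => ((Lam n : ℝ) : ℂ) * ee (t * Real.log n))
    have hphi : (0 : ℝ) < d.totient := by exact_mod_cast Nat.totient_pos.2 hd
    have h1 : (d.totient : ℝ) * ‖∑ n ∈ (Icc 1 z).filter (fun n => n % d = u % d),
        ((Lam n : ℝ) : ℂ) * ee (t * Real.log n)‖ ≤ d.totient * (z / Real.log x ^ K) := by
      have h2 : (d.totient : ℝ) * ‖∑ n ∈ (Icc 1 z).filter (fun n => n % d = u % d),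
          ((Lam n : ℝ) : ℂ) * ee (t * Real.log n)‖ =
          ‖(d.totient : ℂ) * ∑ n ∈ (Icc 1 z).filter (fun n => n % d = u % d),
          ((Lam n : ℝ) : ℂ) * ee (t * Real.log n)‖ := by
        rw [norm_mul, Complex.norm_natCast]
      rw [h2, horth]
      have h3 : ∀ χ : DirichletCharacter ℂ d, ‖χ ((u : ZMod d)⁻¹) *
          ∑ n ∈ Icc 1 z, ((Lam n : ℝ) : ℂ) * ee (t * Real.log n) * χ (n : ZMod d)‖ ≤
          z / Real.log x ^ K := by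
        intro χ
        have h4 := hchi x hx1 d χ t z hd hdB hz1 hz2 ht1 ht2
        have h5 : ∑ n ∈ Icc 1 z, ((Lam n : ℝ) : ℂ) * ee (t * Real.log n) * χ (n : ZMod d) =
            ∑ n ∈ Icc 1 z, ((Lam n : ℝ) : ℂ) * χ (n : ZMod d) * ee (t * Real.log n) :=
          sum_congr rfl fun n _ => by ring
        rw [norm_mul, h5]
        calc _ ≤ 1 * ‖∑ n ∈ Icc 1 z, ((Lam n : ℝ) : ℂ) * χ (n : ZMod d) *
              ee (t * Real.log n)‖ :=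
              mul_le_mul_of_nonneg_right (VkClass_norm_char_le χ _) (norm_nonneg _)
          _ ≤ _ := by rw [one_mul]; exact h4
      have h6 : (Finset.univ : Finset (DirichletCharacter ℂ d)).card = d.totient := by
        rw [card_univ, ← Nat.card_eq_fintype_card,
          DirichletCharacter.card_eq_totient_of_hasEnoughRootsOfUnity ℂ d]
      calc _ ≤ ∑ χ : DirichletCharacter ℂ d, ‖χ ((u : ZMod d)⁻¹) *
            ∑ n ∈ Icc 1 z, ((Lam n : ℝ) : ℂ) * ee (t * Real.log n) * χ (n : ZMod d)‖ :=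
            norm_sum_le _ _
        _ ≤ ∑ _χ : DirichletCharacter ℂ d, (z / Real.log x ^ K : ℝ) :=
            sum_le_sum fun χ _ => h3 χ
        _ = _ := by rw [sum_const, h6, nsmul_eq_mul]
    exact le_of_mul_le_mul_left h1 hphi
  · have hz3 : (1 : ℝ) ≤ z := by
      have h1 : (1 : ℝ) ≤ (x : ℝ) ^ e0 :=
        Real.one_le_rpow (by exact_mod_cast hx3) he.le
      linarith
    have hz4 : 1 ≤ z := by exact_mod_cast hz3
    have h1 := VkClass_noncop (z := z) (d := d) (u := u) hz4 hd hu t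
    have h2 : Real.log z ≤ 2 * Real.log x := by
      have h3 : (z : ℝ) ≤ (x : ℝ) ^ 2 := by exact_mod_cast hz2
      have h4 := Real.log_le_log (by linarith) h3
      rwa [Real.log_pow, Nat.cast_ofNat] at h4
    rw [le_div_iff₀ hLK]
    have hlz : 0 ≤ Real.log z := Real.log_natCast_nonneg z
    calc ‖∑ n ∈ (Icc 1 z).filter (fun n => n % d = u % d),
          ((Lam n : ℝ) : ℂ) * ee (t * Real.log n)‖ * Real.log x ^ K
        ≤ (d * Real.log z) * Real.log x ^ K := mul_le_mul_of_nonneg_right h1 hLK.le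
      _ ≤ (Real.log x ^ B * (2 * Real.log x)) * Real.log x ^ K := by
          refine mul_le_mul_of_nonneg_right ?_ hLK.le
          exact mul_le_mul hdB h2 hlz (pow_nonneg hL0.le B)
      _ = 2 * Real.log x ^ (B + 1 + K) := by rw [pow_add, pow_add]; ring
      _ ≤ (x : ℝ) ^ e0 := hL2
      _ ≤ z := hz1

end Pool.Agent.H97.VK

end
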