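import Pool.Agent.H43.PJ.M11

/-! The parts of this file: H74.MDX.Defs, H74.MDX.Lvl, H74.MDX.DStep, H74.MDX.Ext, H74.MDX.MulRel, H53.MID.FourC, H74.MDX.Root, H74.MDX.Weak, H74.MDX.Nd, H74.MDX.DsInt. -/

section

/-!
# MDX Defs: walks, descendants, vertices and edges

Setting.  `R` is a set of triples `(i, p, g)` (the relation `Rel` of `H53/MID/Nz.lean`), `F` a set of indices.
* `Wk j`: a walk with `j` steps is `(i, t)`, `i : Fin (j+1) → ℕ` the vertices, `t s = (p, g, q)` the step from `i s` to `i (s+1)`.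
* `IsW R w`: for every step `(i s, p, g) ∈ R` and `(i (s+1), q, g) ∈ R`, and the `2 j` numbers `p, q` are pairwise distinct.
* `Om R F j`: the finite set of all walks with `j` steps and all vertices in `F`.
* `Lw`, `Rw`: drop the last (first) step; `v0`, `v1`: first and last vertex; `pa`, `qa`: the products of the `p` and of the `q`;
  `pf`: the `p` of the first step; `ql`: the `q` of the last step.
* `DS P j D τ F α v`: all descendants `(a, i)` of the node `v = (M, γ)`, `j` levels down: `i ∈ F`, `P^j ≤ a ≤ (2P)^j`, all prime factors of `a`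
  are `> P`, `|i a - M P^j| ≤ D P^j`, `nz (a γ - α i) ≤ τ`.
* `VX c P V M`: the vertices `(p, K, k)` over `M`: `p` a prime in `(P, 2P]`, `(K, k) ∈ V`, `|K p - M P| ≤ c P`.
* `EX c P η V M`: the edges `((p,K,k), (p',K',k'))` over `M`: `p ≠ p'`, `nz (p' k - p k') ≤ 2 η`.
-/

set_option autoImplicit false

namespace Pool.Agent.H74.MDX

open Finset
open Pool.Agent.H53.MID (nz Rel Desc)

/-- walks with `j` steps -/
abbrev Wk (j : ℕ) : Type := (Fin (j + 1) → ℕ) × (Fin j → ℕ × ℕ × ℕ)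

variable {j : ℕ}

/-- first vertex -/
def v0 (w : Wk j) : ℕ := w.1 0

/-- last vertex -/
def v1 (w : Wk j) : ℕ := w.1 (Fin.last j)

/-- the product of the `p` -/
def pa (w : Wk j) : ℕ := ∏ s, (w.2 s).1

/-- the product of the `q` -/
def qa (w : Wk j) : ℕ := ∏ s, (w.2 s).2.2

/-- the `p` of the first step -/
def pf (w : Wk (j + 1)) : ℕ := (w.2 0).1

/-- the `q` of the last step -/
def ql (w : Wk (j + 1)) : ℕ := (w.2 (Fin.last j)).2.2

/-- drop the last step -/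
def Lw (w : Wk (j + 1)) : Wk j := (fun s => w.1 s.castSucc, fun s => w.2 s.castSucc)

/-- drop the first step -/
def Rw (w : Wk (j + 1)) : Wk j := (fun s => w.1 s.succ, fun s => w.2 s.succ)

/-- the walks of the relation `R` with distinct primes -/
def IsW (R : Finset (ℕ × ℕ × ℕ)) (w : Wk j) : Prop :=
  (∀ s : Fin j, (w.1 s.castSucc, (w.2 s).1, (w.2 s).2.1) ∈ R ∧ (w.1 s.succ, (w.2 s).2.2, (w.2 s).2.1) ∈ R) ∧
  Function.Injective (Sum.elim (fun s : Fin j => (w.2 s).1) (fun s : Fin j => (w.2 s).2.2))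

open Classical in
/-- the finite set of the walks -/
noncomputable def Om (R : Finset (ℕ × ℕ × ℕ)) (F : Finset ℕ) (j : ℕ) : Finset (Wk j) :=
  ((Fintype.piFinset (fun _ : Fin (j + 1) => F)) ×ˢ
    (Fintype.piFinset (fun _ : Fin j => (R ×ˢ R).image (fun t => (t.1.2.1, t.1.2.2, t.2.2.1))))).filter (fun w => IsW R w)

theorem mem_Om {R : Finset (ℕ × ℕ × ℕ)} {F : Finset ℕ} {w : Wk j} :
    w ∈ Om R F j ↔ (∀ s, w.1 s ∈ F) ∧ IsW R w := by
  classical
  unfold Om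
  rw [Finset.mem_filter, Finset.mem_product, Fintype.mem_piFinset, Fintype.mem_piFinset]
  constructor
  · rintro ⟨⟨h1, -⟩, h3⟩
    exact ⟨h1, h3⟩
  · rintro ⟨h1, h3⟩
    refine ⟨⟨h1, fun s => ?_⟩, h3⟩
    rw [Finset.mem_image]
    exact ⟨((w.1 s.castSucc, (w.2 s).1, (w.2 s).2.1), (w.1 s.succ, (w.2 s).2.2, (w.2 s).2.1)),
      Finset.mem_product.2 (h3.1 s), rfl⟩

theorem Lw_mem {R : Finset (ℕ × ℕ × ℕ)} {F : Finset ℕ} {w : Wk (j + 1)} (h : w ∈ Om R F (j + 1)) : Lw w ∈ Om R F j := by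
  rw [mem_Om] at h ⊢
  refine ⟨fun s => h.1 _, fun s => h.2.1 s.castSucc, ?_⟩
  have hinj : Function.Injective (Sum.map (Fin.castSucc : Fin j → Fin (j + 1)) (Fin.castSucc : Fin j → Fin (j + 1))) :=
    Sum.map_injective.2 ⟨Fin.castSucc_injective _, Fin.castSucc_injective _⟩
  have h2 := h.2.2.comp hinj
  rw [Sum.elim_comp_map] at h2
  exact h2

theorem Rw_mem {R : Finset (ℕ × ℕ × ℕ)} {F : Finset ℕ} {w : Wk (j + 1)} (h : w ∈ Om R F (j + 1)) : Rw w ∈ Om R F j := by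
  rw [mem_Om] at h ⊢
  refine ⟨fun s => h.1 _, fun s => h.2.1 s.succ, ?_⟩
  have hinj : Function.Injective (Sum.map (Fin.succ : Fin j → Fin (j + 1)) (Fin.succ : Fin j → Fin (j + 1))) :=
    Sum.map_injective.2 ⟨Fin.succ_injective _, Fin.succ_injective _⟩
  have h2 := h.2.2.comp hinj
  rw [Sum.elim_comp_map] at h2
  exact h2

theorem qa_eq (w : Wk (j + 1)) : qa w = qa (Lw w) * ql w := by
  unfold qa ql Lw
  exact Fin.prod_univ_castSucc _

theorem pa_eq (w : Wk (j + 1)) : pa w = pf w * pa (Rw w) := by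
  unfold pa pf Rw
  exact Fin.prod_univ_succ _

theorem pf_ne_ql {R : Finset (ℕ × ℕ × ℕ)} {F : Finset ℕ} {w : Wk (j + 1)} (h : w ∈ Om R F (j + 1)) : pf w ≠ ql w := by
  rw [mem_Om] at h
  intro h1
  have h2 := h.2.2 (a₁ := Sum.inl 0) (a₂ := Sum.inr (Fin.last j)) h1
  cases h2

/-- the descendants -/
noncomputable def DS (P j : ℕ) (D τ : ℝ) (F : Finset ℕ) (α : ℕ → ℝ) (v : ℕ × ℝ) : Finset (ℕ × ℕ) := by
  classical
  exact ((Icc (P ^ j) ((2 * P) ^ j)) ×ˢ F).filter (fun t => (∀ q : ℕ, q.Prime → q ∣ t.1 → P < q) ∧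
    |(t.2 : ℝ) * t.1 - v.1 * (P : ℝ) ^ j| ≤ D * (P : ℝ) ^ j ∧ nz (t.1 * v.2 - α t.2) ≤ τ)

theorem mem_DS {P j : ℕ} {D τ : ℝ} {F : Finset ℕ} {α : ℕ → ℝ} {v : ℕ × ℝ} {t : ℕ × ℕ} :
    t ∈ DS P j D τ F α v ↔ P ^ j ≤ t.1 ∧ t.1 ≤ (2 * P) ^ j ∧ t.2 ∈ F ∧ (∀ q : ℕ, q.Prime → q ∣ t.1 → P < q) ∧
      |(t.2 : ℝ) * t.1 - v.1 * (P : ℝ) ^ j| ≤ D * (P : ℝ) ^ j ∧ nz (t.1 * v.2 - α t.2) ≤ τ := by
  classical
  unfold DS
  rw [Finset.mem_filter, Finset.mem_product, Finset.mem_Icc]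
  tauto

theorem DS_desc (P j : ℕ) (D τ : ℝ) (F : Finset ℕ) (α : ℕ → ℝ) (v : ℕ × ℝ) :
    Desc P j D τ F α v.1 v.2 (DS P j D τ F α v) where
  mem := fun t ht => (mem_DS.1 ht).2.2.1
  lo := fun t ht => by exact_mod_cast (mem_DS.1 ht).1
  hi := fun t ht => by exact_mod_cast (mem_DS.1 ht).2.1
  pos := fun t ht => (mem_DS.1 ht).2.2.2.2.1
  freq := fun t ht => (mem_DS.1 ht).2.2.2.2.2

/-- the vertices over `M` -/
noncomputable def VX (c : ℝ) (P : ℕ) (V : Finset (ℕ × ℝ)) (M : ℕ) : Finset (ℕ × ℕ × ℝ) := by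
  classical
  exact (((Ioc P (2 * P)).filter Nat.Prime) ×ˢ V).filter (fun u => |(u.2.1 : ℝ) * u.1 - M * P| ≤ c * P)

theorem mem_VX {c : ℝ} {P : ℕ} {V : Finset (ℕ × ℝ)} {M : ℕ} {u : ℕ × ℕ × ℝ} :
    u ∈ VX c P V M ↔ (P < u.1 ∧ u.1 ≤ 2 * P) ∧ u.1.Prime ∧ u.2 ∈ V ∧ |(u.2.1 : ℝ) * u.1 - M * P| ≤ c * P := by
  classical
  unfold VX
  rw [Finset.mem_filter, Finset.mem_product, Finset.mem_filter, Finset.mem_Ioc]
  tauto

/-- the edges over `M` -/
noncomputable def EX (c : ℝ) (P : ℕ) (η : ℝ) (V : Finset (ℕ × ℝ)) (M : ℕ) :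
    Finset ((ℕ × ℕ × ℝ) × (ℕ × ℕ × ℝ)) := by
  classical
  exact (VX c P V M ×ˢ VX c P V M).filter (fun e => e.1.1 ≠ e.2.1 ∧
    nz ((e.2.1 : ℝ) * e.1.2.2 - e.1.1 * e.2.2.2) ≤ 2 * η)

theorem mem_EX {c : ℝ} {P : ℕ} {η : ℝ} {V : Finset (ℕ × ℝ)} {M : ℕ} {e : (ℕ × ℕ × ℝ) × (ℕ × ℕ × ℝ)} :
    e ∈ EX c P η V M ↔ e.1 ∈ VX c P V M ∧ e.2 ∈ VX c P V M ∧ e.1.1 ≠ e.2.1 ∧
      nz ((e.2.1 : ℝ) * e.1.2.2 - e.1.1 * e.2.2.2) ≤ 2 * η := by
  classical
  unfold EX
  rw [Finset.mem_filter, Finset.mem_product]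
  tauto

/-- bounded multiplicity of the relation: given `(i, p)` or `(g, p)` there are at most `κ` triples -/
structure Mul (κ : ℝ) (P : ℕ) (R : Finset (ℕ × ℕ × ℕ)) : Prop where
  one : 1 ≤ κ
  pos : 1 ≤ P
  prime : ∀ t ∈ R, t.2.1.Prime ∧ P < t.2.1 ∧ t.2.1 ≤ 2 * P
  out : ∀ i p : ℕ, ((R.filter (fun t => t.1 = i ∧ t.2.1 = p)).card : ℝ) ≤ κ
  inn : ∀ g p : ℕ, ((R.filter (fun t => t.2.2 = g ∧ t.2.1 = p)).card : ℝ) ≤ κ

end Pool.Agent.H74.MDX

end

section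

/-!
# MDX Lvl: parameters and level data

`Par C ℓ P B ε η`: the conditions on the parameters.  `Lvl ... j V G c`: the data of the level `j`: `V` = the nodes, `G` = the good walks, `c` their colours.
The constants: positions `C 3^j` (link) and `C 5^j` (descendants), accuracies `2^(j^2+5j) η` (descendants), `2^(j^2+5j) η P/P^j` (link), `μ = ε/B^5`, multiplicity
`B^7/ε`, exceptional walks `(4 (2C+1)^2)^j ε n P^(2j)`.

`lvl0` proof: `V = F.image (fun i => (i, α i))`, `G = Om R F 0`, `c w = (w.1 0, α (w.1 0))`.  `mult`: at most one element `≤ B^7/ε`; `desc`: `(1, i) ∈ DS P 0 ..` and `ε/B^5 ≤ 1`;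
`link`: `w ∈ Om R F 1`, `G0 = (w.2 0).2.1`, `g = β G0` (`Rel.pos`, `Rel.freq`, `Rel.memF'`, `Rel.rngF'`); `exc`: the set is empty.
`exc` is a bound for the number of `w ∈ Om R F j` with `w ∉ G`.
-/

set_option autoImplicit false

namespace Pool.Agent.H74.MDX

open Finset
open Pool.Agent.H53.MID (nz Rel Desc)

/-- the conditions on the parameters -/
structure Par (C : ℝ) (ℓ P : ℕ) (B ε η : ℝ) : Prop where
  hC : 1 ≤ C
  hB1 : 2 * C * 5 ^ ℓ + 1 ≤ B
  hB2 : 4 ^ ℓ * C ≤ B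
  hB3 : (2 * C + 1) ^ (2 * ℓ) ≤ B
  hB4 : (ℓ.factorial : ℝ) ^ 2 ≤ B
  hB5 : (2 : ℝ) ^ (2 * ℓ + 8) ≤ B
  hε : 0 < ε
  hε1 : ε ≤ 1
  hη : 0 < η
  hP : 40 * B ^ 54 ≤ ε ^ 8 * P
  hηP : 2 ^ (ℓ ^ 2 + 5 * ℓ + 10) * η * (P : ℝ) ^ 3 ≤ 1

open Classical in
/-- the data of the level `j` -/
structure Lvl (C B ε η : ℝ) (n P : ℕ) (F : Finset ℕ) (α : ℕ → ℝ) (R : Finset (ℕ × ℕ × ℕ)) (j : ℕ)
    (V : Finset (ℕ × ℝ)) (G : Finset (Wk j)) (c : Wk j → ℕ × ℝ) : Prop where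
  sub : G ⊆ Om R F j
  col : ∀ w ∈ G, c w ∈ V
  rng : ∀ v ∈ V, (n : ℝ) / C ≤ v.1 ∧ (v.1 : ℝ) ≤ 4 ^ j * C * n
  mult : ∀ K : ℕ, ((V.filter (fun v => v.1 = K)).card : ℝ) ≤ B ^ 7 / ε
  desc : ∀ v ∈ V, ε / B ^ 5 * (P : ℝ) ^ j ≤ ((DS P j (C * 5 ^ j) (2 ^ (j ^ 2 + 5 * j) * η) F α v).card : ℝ)
  mem0 : ∀ w ∈ G, (qa w, v0 w) ∈ DS P j (C * 5 ^ j) (2 ^ (j ^ 2 + 5 * j) * η) F α (c w)
  mem1 : ∀ w ∈ G, (pa w, v1 w) ∈ DS P j (C * 5 ^ j) (2 ^ (j ^ 2 + 5 * j) * η) F α (c w)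
  link : ∀ w ∈ Om R F (j + 1), Lw w ∈ G → Rw w ∈ G → ∃ (G0 : ℕ) (g : ℝ), (n : ℝ) / C ≤ G0 ∧
    (G0 : ℝ) ≤ 4 ^ j * C * n ∧ |(G0 : ℝ) * pf w - (c (Lw w)).1 * P| ≤ C * 3 ^ j * P ∧
    |(G0 : ℝ) * ql w - (c (Rw w)).1 * P| ≤ C * 3 ^ j * P ∧
    nz (pf w * (c (Lw w)).2 - g) ≤ 2 ^ (j ^ 2 + 5 * j) * η * P / (P : ℝ) ^ j ∧
    nz (ql w * (c (Rw w)).2 - g) ≤ 2 ^ (j ^ 2 + 5 * j) * η * P / (P : ℝ) ^ j
  exc : (((Om R F j).filter (fun w => w ∉ G)).card : ℝ) ≤ (4 * (2 * C + 1) ^ 2) ^ j * ε * n * (P : ℝ) ^ (2 * j)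

private theorem Lvl_one_mem {C η : ℝ} {P : ℕ} {F : Finset ℕ} {α : ℕ → ℝ} {i : ℕ} (hC : 0 ≤ C) (hη : 0 ≤ η)
    (hi : i ∈ F) : ((1 : ℕ), i) ∈ DS P 0 (C * 5 ^ 0) (2 ^ (0 ^ 2 + 5 * 0) * η) F α (i, α i) := by
  have h0 : nz (0 : ℝ) = 0 := by
    unfold nz
    simp
  rw [mem_DS]
  refine ⟨by simp, by simp, hi, ?_, ?_, ?_⟩
  · intro q hq h
    exact absurd (Nat.dvd_one.1 h) hq.ne_one
  · simpa using hC
  · simpa [h0] using hη

theorem lvl0 (C B ε η : ℝ) (ℓ n P : ℕ) (F G : Finset ℕ) (α β : ℕ → ℝ) (R : Finset (ℕ × ℕ × ℕ))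
    (hPar : Par C ℓ P B ε η) (hP : 1 ≤ P) (hR : Rel C n P (η * P) F G α β R) :
    ∃ (V : Finset (ℕ × ℝ)) (G' : Finset (Wk 0)) (c : Wk 0 → ℕ × ℝ), Lvl C B ε η n P F α R 0 V G' c := by
  classical
  have hC0 : 0 ≤ C := zero_le_one.trans hPar.hC
  have hη0 : 0 ≤ η := hPar.hη.le
  have hB : 1 ≤ B := by
    have h1 : 0 ≤ 2 * C * 5 ^ ℓ := by positivity
    linarith [hPar.hB1]
  refine ⟨F.image (fun i => (i, α i)), Om R F 0, fun w => (w.1 0, α (w.1 0)), ?_, ?_, ?_, ?_, ?_, ?_, ?_, ?_, ?_⟩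
  · exact Finset.Subset.refl _
  · intro w hw
    exact Finset.mem_image.2 ⟨w.1 0, (mem_Om.1 hw).1 0, rfl⟩
  · intro v hv
    rw [Finset.mem_image] at hv
    obtain ⟨i, hi, rfl⟩ := hv
    have h1 := hR.rngF i hi
    rw [pow_zero, one_mul]
    exact h1
  · intro K
    have h1 : ((F.image (fun i => (i, α i))).filter (fun v => v.1 = K)).card ≤ 1 := by
      rw [Finset.card_le_one]
      intro a ha b hb
      rw [Finset.mem_filter, Finset.mem_image] at ha hb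
      obtain ⟨⟨i, -, rfl⟩, hi⟩ := ha
      obtain ⟨⟨j, -, rfl⟩, hj⟩ := hb
      simp only at hi hj
      rw [hi, hj]
    have h2 : (1 : ℝ) ≤ B ^ 7 / ε := by
      rw [le_div_iff₀ hPar.hε, one_mul]
      exact hPar.hε1.trans (one_le_pow₀ hB)
    refine le_trans ?_ h2
    exact_mod_cast h1
  · intro v hv
    rw [Finset.mem_image] at hv
    obtain ⟨i, hi, rfl⟩ := hv
    have h1 : 0 < (DS P 0 (C * 5 ^ 0) (2 ^ (0 ^ 2 + 5 * 0) * η) F α (i, α i)).card :=
      Finset.card_pos.2 ⟨_, Lvl_one_mem hC0 hη0 hi⟩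
    have h2 : (1 : ℝ) ≤ ((DS P 0 (C * 5 ^ 0) (2 ^ (0 ^ 2 + 5 * 0) * η) F α (i, α i)).card : ℝ) := by
      exact_mod_cast h1
    refine le_trans ?_ h2
    rw [pow_zero, mul_one, div_le_one (by positivity)]
    exact hPar.hε1.trans (one_le_pow₀ hB)
  · intro w hw
    have h1 := Lvl_one_mem (P := P) (α := α) hC0 hη0 ((mem_Om.1 hw).1 0)
    have h2 : qa w = 1 := by
      unfold qa
      simp
    rw [h2]
    exact h1
  · intro w hw
    have h1 := Lvl_one_mem (P := P) (α := α) hC0 hη0 ((mem_Om.1 hw).1 0)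
    have h2 : pa w = 1 := by
      unfold pa
      simp
    rw [h2]
    exact h1
  · intro w hw _ _
    obtain ⟨h1, h2⟩ := (mem_Om.1 hw).2.1 0
    have h3 := hR.rngF' _ (hR.memF' _ h1)
    have h4 := hR.pos _ h1
    have h5 := hR.pos _ h2
    have h6 := hR.freq _ h1
    have h7 := hR.freq _ h2
    refine ⟨(w.2 0).2.1, β (w.2 0).2.1, ?_, ?_, ?_, ?_, ?_, ?_⟩
    · exact h3.1
    · rw [pow_zero, one_mul]
      exact h3.2
    · rw [pow_zero, mul_one]
      exact h4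
    · rw [pow_zero, mul_one]
      exact h5
    · have e : (2 : ℝ) ^ (0 ^ 2 + 5 * 0) * η * P / (P : ℝ) ^ 0 = η * P := by norm_num
      rw [e]
      exact h6
    · have e : (2 : ℝ) ^ (0 ^ 2 + 5 * 0) * η * P / (P : ℝ) ^ 0 = η * P := by norm_num
      rw [e]
      exact h7
  · have h1 : (Om R F 0).filter (fun w => w ∉ Om R F 0) = ∅ := by
      rw [Finset.filter_eq_empty_iff]
      intro w hw h
      exact h hw
    rw [h1, Finset.card_empty, Nat.cast_zero]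
    have := hPar.hε
    positivity

end Pool.Agent.H74.MDX

end

section

/-!
# MDX DStep: descendants, one level down

`DS_step`: `(a, i) ∈ DS P j D τ F α (K, k)`, `p` a prime in `(P, 2P]`, `|K p - M P| ≤ c P`, `nz (p γ - k) ≤ η'` imply
`(p a, i) ∈ DS P (j+1) (2D + c) ((2P)^j η' + τ) F α (M, γ)`.
Proof: `|i a p - M P^(j+1)| ≤ p |i a - K P^j| + P^j |K p - M P| ≤ 2P D P^j + P^j c P`;
`nz (p a γ - α i) ≤ nz (a (p γ - k)) + nz (a k - α i) ≤ (2P)^j η' + τ`; a prime factor of `p a` is `p` or a prime factor of `a`.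
(See the proof of `chain_step` in `Pool/Agent/H53/MID/Chain.lean`.)
-/

set_option autoImplicit false

namespace Pool.Agent.H74.MDX

open Finset
open Pool.Agent.H53.MID (nz Rel Desc)

theorem DS_mono (P j : ℕ) (D D' τ τ' : ℝ) (F : Finset ℕ) (α : ℕ → ℝ) (v : ℕ × ℝ) (hD : D ≤ D') (hτ : τ ≤ τ') :
    DS P j D τ F α v ⊆ DS P j D' τ' F α v := by
  intro t ht
  rw [mem_DS] at ht ⊢
  obtain ⟨h1, h2, h3, h4, h5, h6⟩ := ht
  have hP : (0 : ℝ) ≤ (P : ℝ) ^ j := by positivity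
  exact ⟨h1, h2, h3, h4, h5.trans (mul_le_mul_of_nonneg_right hD hP), h6.trans hτ⟩

theorem DS_step (P j : ℕ) (c D τ η' : ℝ) (F : Finset ℕ) (α : ℕ → ℝ) (K M p : ℕ) (k γ : ℝ) (hp : p.Prime)
    (hpP : P < p ∧ p ≤ 2 * P) (hK : |(K : ℝ) * p - M * P| ≤ c * P) (hk : nz (p * γ - k) ≤ η') (hD : 0 ≤ D) (hc : 0 ≤ c)
    (t : ℕ × ℕ) (ht : t ∈ DS P j D τ F α (K, k)) :
    (p * t.1, t.2) ∈ DS P (j + 1) (2 * D + c) ((2 * P) ^ j * η' + τ) F α (M, γ) := by
  rw [mem_DS] at ht ⊢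
  obtain ⟨h1, h2, h3, h4, h5, h6⟩ := ht
  obtain ⟨a, i⟩ := t
  simp only at h1 h2 h3 h4 h5 h6 ⊢
  have hp0 : (0 : ℝ) ≤ (p : ℝ) := Nat.cast_nonneg p
  have hPj : (0 : ℝ) ≤ (P : ℝ) ^ j := by positivity
  have hp2' : (p : ℝ) ≤ 2 * P := by exact_mod_cast hpP.2
  refine ⟨?_, ?_, h3, ?_, ?_, ?_⟩
  · rw [pow_succ, mul_comm]
    exact Nat.mul_le_mul hpP.1.le h1
  · rw [pow_succ, mul_comm]
    exact Nat.mul_le_mul h2 hpP.2
  · intro q hq hqd
    rcases (hq.dvd_mul).1 hqd with h | h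
    · rw [(Nat.prime_dvd_prime_iff_eq hq hp).1 h]
      exact hpP.1
    · exact h4 q hq h
  · push_cast
    have e : (i : ℝ) * (p * a) - M * (P : ℝ) ^ (j + 1) =
        p * (i * a - K * (P : ℝ) ^ j) + (P : ℝ) ^ j * (K * p - M * P) := by
      ring
    rw [e]
    refine (abs_add_le _ _).trans ?_
    rw [abs_mul, abs_mul, abs_of_nonneg hp0, abs_of_nonneg hPj]
    have b1 : (p : ℝ) * |(i : ℝ) * a - K * (P : ℝ) ^ j| ≤ (2 * P) * (D * (P : ℝ) ^ j) :=
      mul_le_mul hp2' h5 (abs_nonneg _) (by positivity)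
    have b2 : (P : ℝ) ^ j * |(K : ℝ) * p - M * P| ≤ (P : ℝ) ^ j * (c * P) :=
      mul_le_mul_of_nonneg_left hK hPj
    have e2 : (2 * D + c) * (P : ℝ) ^ (j + 1) = (2 * P) * (D * (P : ℝ) ^ j) + (P : ℝ) ^ j * (c * P) := by
      ring
    rw [e2]
    exact add_le_add b1 b2
  · push_cast
    have e : (p : ℝ) * a * γ - α i = (a : ℝ) * (p * γ - k) + (a * k - α i) := by
      ring
    rw [e]
    refine (Pool.Agent.H53.MID.nz_add _ _).trans ?_
    have b1 : nz ((a : ℝ) * (p * γ - k)) ≤ (2 * (P : ℝ)) ^ j * η' := by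
      refine (Pool.Agent.H53.MID.nz_nat_mul a _).trans ?_
      have h2' : (a : ℝ) ≤ (2 * (P : ℝ)) ^ j := by exact_mod_cast h2
      exact mul_le_mul h2' hk (Pool.Agent.H53.MID.nz_nonneg _) (by positivity)
    exact add_le_add b1 h6

end Pool.Agent.H74.MDX

end

section

/-!
# MDX Ext: the number of the one-step extensions of a set of walks

Proof of `ext_L`.  Map the filtered set to `S` by `Lw`; the fibre of `v` embeds (by the last step) into the set of the data `(p, g, q, i')` with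
`(v1 v, p, g) ∈ R`, `(i', q, g) ∈ R`: `p` takes at most `P` values (`P < p ≤ 2P`), then `g` at most `κ` (`hM.out`), `q` at most `P`, `i'` at most `κ`
(`hM.inn`).  `ext_R`: map by `Rw`; the fibre embeds into the data `(i, p, g, q)` with `(i, p, g) ∈ R`, `(v0 v, q, g) ∈ R`: `q` at most `P` values, `g` at most `κ`
(`hM.out`), `p` at most `P`, `i` at most `κ` (`hM.inn`).
-/

set_option autoImplicit false

namespace Pool.Agent.H74.MDX

open Finset

open Classical in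
/-- a set of triples whose `p`-fibres have at most `κ` elements -/
private theorem Ext_fib (R T : Finset (ℕ × ℕ × ℕ)) (κ : ℝ) (P : ℕ) (hM : Mul κ P R) (hT : T ⊆ R)
    (h : ∀ p : ℕ, ((T.filter (fun t => t.2.1 = p)).card : ℝ) ≤ κ) : (T.card : ℝ) ≤ κ * P := by
  have hmap : ∀ t ∈ T, t.2.1 ∈ Ioc P (2 * P) := by
    intro t ht
    have h1 := hM.prime t (hT ht)
    exact Finset.mem_Ioc.2 ⟨h1.2.1, h1.2.2⟩
  have hcard := Finset.card_eq_sum_card_fiberwise (f := fun t : ℕ × ℕ × ℕ => t.2.1) (s := T) (t := Ioc P (2 * P)) hmap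
  rw [hcard]
  push_cast
  calc ∑ p ∈ Ioc P (2 * P), ((T.filter (fun t => t.2.1 = p)).card : ℝ) ≤ ∑ p ∈ Ioc P (2 * P), κ :=
        Finset.sum_le_sum (fun p _ => h p)
    _ = κ * P := by
        rw [Finset.sum_const, Nat.card_Ioc, nsmul_eq_mul]
        have : 2 * P - P = P := by omega
        rw [this]
        ring

open Classical in
private theorem Ext_out (R : Finset (ℕ × ℕ × ℕ)) (κ : ℝ) (P : ℕ) (hM : Mul κ P R) (x : ℕ) :
    ((R.filter (fun t => t.1 = x)).card : ℝ) ≤ κ * P := by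
  refine Ext_fib R _ κ P hM (Finset.filter_subset _ _) (fun p => ?_)
  rw [Finset.filter_filter]
  have h1 := hM.out x p
  refine le_trans ?_ h1
  exact le_of_eq (by congr 2)

open Classical in
private theorem Ext_inn (R : Finset (ℕ × ℕ × ℕ)) (κ : ℝ) (P : ℕ) (hM : Mul κ P R) (g : ℕ) :
    ((R.filter (fun t => t.2.2 = g)).card : ℝ) ≤ κ * P := by
  refine Ext_fib R _ κ P hM (Finset.filter_subset _ _) (fun p => ?_)
  rw [Finset.filter_filter]
  have h1 := hM.inn g p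
  refine le_trans ?_ h1
  exact le_of_eq (by congr 2)

open Classical in
/-- the pairs of triples with the same `g` -/
private noncomputable def Ext_D (R : Finset (ℕ × ℕ × ℕ)) (x : ℕ) : Finset ((ℕ × ℕ × ℕ) × (ℕ × ℕ × ℕ)) :=
  (R ×ˢ R).filter (fun t => t.1.1 = x ∧ t.2.2.2 = t.1.2.2)

open Classical in
private theorem Ext_D_card (R : Finset (ℕ × ℕ × ℕ)) (κ : ℝ) (P : ℕ) (hM : Mul κ P R) (x : ℕ) :
    ((Ext_D R x).card : ℝ) ≤ (κ * P) ^ 2 := by
  have hκ : 0 ≤ κ * P := mul_nonneg (by linarith [hM.one]) (by positivity)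
  have hmap : ∀ t ∈ Ext_D R x, t.1 ∈ R.filter (fun t => t.1 = x) := by
    intro t ht
    unfold Ext_D at ht
    rw [Finset.mem_filter, Finset.mem_product] at ht
    exact Finset.mem_filter.2 ⟨ht.1.1, ht.2.1⟩
  have hcard := Finset.card_eq_sum_card_fiberwise (f := fun t : (ℕ × ℕ × ℕ) × (ℕ × ℕ × ℕ) => t.1) (s := Ext_D R x)
    (t := R.filter (fun t => t.1 = x)) hmap
  rw [hcard]
  push_cast
  have hfib : ∀ u ∈ R.filter (fun t => t.1 = x), (((Ext_D R x).filter (fun t => t.1 = u)).card : ℝ) ≤ κ * P := by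
    intro u _
    refine le_trans ?_ (Ext_inn R κ P hM u.2.2)
    have h1 : ((Ext_D R x).filter (fun t => t.1 = u)).card ≤ (R.filter (fun t => t.2.2 = u.2.2)).card := by
      refine Finset.card_le_card_of_injOn (fun t => t.2) ?_ ?_
      · intro t ht
        have ht' := Finset.mem_filter.1 (Finset.mem_coe.1 ht)
        have ht2 := ht'.1
        unfold Ext_D at ht2
        rw [Finset.mem_filter, Finset.mem_product] at ht2
        refine Finset.mem_coe.2 (Finset.mem_filter.2 ⟨ht2.1.2, ?_⟩)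
        rw [ht2.2.2, ht'.2]
      · intro t ht t' ht' h
        have h1 := (Finset.mem_filter.1 (Finset.mem_coe.1 ht)).2
        have h2 := (Finset.mem_filter.1 (Finset.mem_coe.1 ht')).2
        exact Prod.ext (h1.trans h2.symm) h
    exact_mod_cast h1
  calc ∑ u ∈ R.filter (fun t => t.1 = x), (((Ext_D R x).filter (fun t => t.1 = u)).card : ℝ)
      ≤ ∑ u ∈ R.filter (fun t => t.1 = x), κ * P := Finset.sum_le_sum hfib
    _ = (R.filter (fun t => t.1 = x)).card * (κ * P) := by rw [Finset.sum_const, nsmul_eq_mul]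
    _ ≤ (κ * P) * (κ * P) := mul_le_mul_of_nonneg_right (Ext_out R κ P hM x) hκ
    _ = (κ * P) ^ 2 := by ring

open Classical in
/-- the pairs of triples with the same `g`, second form -/
private noncomputable def Ext_E (R : Finset (ℕ × ℕ × ℕ)) (x : ℕ) : Finset ((ℕ × ℕ × ℕ) × (ℕ × ℕ × ℕ)) :=
  (R ×ˢ R).filter (fun t => t.2.1 = x ∧ t.1.2.2 = t.2.2.2)

open Classical in
private theorem Ext_E_card (R : Finset (ℕ × ℕ × ℕ)) (κ : ℝ) (P : ℕ) (hM : Mul κ P R) (x : ℕ) :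
    ((Ext_E R x).card : ℝ) ≤ (κ * P) ^ 2 := by
  refine le_trans ?_ (Ext_D_card R κ P hM x)
  have h1 : (Ext_E R x).card ≤ (Ext_D R x).card := by
    refine Finset.card_le_card_of_injOn Prod.swap ?_ ?_
    · intro t ht
      have ht' := Finset.mem_coe.1 ht
      unfold Ext_E at ht'
      rw [Finset.mem_filter, Finset.mem_product] at ht'
      refine Finset.mem_coe.2 ?_
      unfold Ext_D
      rw [Finset.mem_filter, Finset.mem_product]
      exact ⟨⟨ht'.1.2, ht'.1.1⟩, ht'.2⟩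
    · intro t _ t' _ h
      exact Prod.swap_injective h
  exact_mod_cast h1

open Classical in
theorem ext_L (R : Finset (ℕ × ℕ × ℕ)) (F : Finset ℕ) (κ : ℝ) (P j : ℕ) (hM : Mul κ P R) (S : Finset (Wk j)) :
    (((Om R F (j + 1)).filter (fun w => Lw w ∈ S)).card : ℝ) ≤ (κ * P) ^ 2 * S.card := by
  have hmap : ∀ w ∈ (Om R F (j + 1)).filter (fun w => Lw w ∈ S), Lw w ∈ S := fun w hw => (Finset.mem_filter.1 hw).2
  have hcard := Finset.card_eq_sum_card_fiberwise (f := fun w : Wk (j + 1) => Lw w)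
    (s := (Om R F (j + 1)).filter (fun w => Lw w ∈ S)) (t := S) hmap
  rw [hcard]
  push_cast
  have hfib : ∀ v ∈ S, ((((Om R F (j + 1)).filter (fun w => Lw w ∈ S)).filter (fun w => Lw w = v)).card : ℝ) ≤ (κ * P) ^ 2 := by
    intro v _
    refine le_trans ?_ (Ext_D_card R κ P hM (v1 v))
    have h1 : (((Om R F (j + 1)).filter (fun w => Lw w ∈ S)).filter (fun w => Lw w = v)).card ≤ (Ext_D R (v1 v)).card := by
      refine Finset.card_le_card_of_injOn (fun w : Wk (j + 1) => ((w.1 (Fin.last j).castSucc, (w.2 (Fin.last j)).1, (w.2 (Fin.last j)).2.1),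
        (w.1 (Fin.last j).succ, (w.2 (Fin.last j)).2.2, (w.2 (Fin.last j)).2.1))) ?_ ?_
      · intro w hw
        have hw1 := Finset.mem_filter.1 (Finset.mem_coe.1 hw)
        have hw2 := (Finset.mem_filter.1 hw1.1).1
        rw [mem_Om] at hw2
        refine Finset.mem_coe.2 ?_
        unfold Ext_D
        rw [Finset.mem_filter, Finset.mem_product]
        refine ⟨hw2.2.1 (Fin.last j), ?_, rfl⟩
        rw [← hw1.2]
        rfl
      · intro w hw w' hw' h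
        have hw1 := (Finset.mem_filter.1 (Finset.mem_coe.1 hw)).2
        have hw1' := (Finset.mem_filter.1 (Finset.mem_coe.1 hw')).2
        have hL : Lw w = Lw w' := hw1.trans hw1'.symm
        have hL1 : ∀ s : Fin (j + 1), w.1 s.castSucc = w'.1 s.castSucc := fun s => congrFun (congrArg Prod.fst hL) s
        have hL2 : ∀ s : Fin j, w.2 s.castSucc = w'.2 s.castSucc := fun s => congrFun (congrArg Prod.snd hL) s
        simp only [Prod.mk.injEq] at h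
        obtain ⟨⟨_, ha, hb⟩, hc, hd, _⟩ := h
        refine Prod.ext ?_ ?_
        · funext s
          refine Fin.lastCases ?_ (fun s => hL1 s) s
          exact hc
        · funext s
          refine Fin.lastCases ?_ (fun s => hL2 s) s
          exact Prod.ext ha (Prod.ext hb hd)
    exact_mod_cast h1
  calc ∑ v ∈ S, ((((Om R F (j + 1)).filter (fun w => Lw w ∈ S)).filter (fun w => Lw w = v)).card : ℝ)
      ≤ ∑ v ∈ S, (κ * P) ^ 2 := Finset.sum_le_sum hfib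
    _ = (κ * P) ^ 2 * S.card := by rw [Finset.sum_const, nsmul_eq_mul, mul_comm]

open Classical in
theorem ext_R (R : Finset (ℕ × ℕ × ℕ)) (F : Finset ℕ) (κ : ℝ) (P j : ℕ) (hM : Mul κ P R) (S : Finset (Wk j)) :
    (((Om R F (j + 1)).filter (fun w => Rw w ∈ S)).card : ℝ) ≤ (κ * P) ^ 2 * S.card := by
  have hmap : ∀ w ∈ (Om R F (j + 1)).filter (fun w => Rw w ∈ S), Rw w ∈ S := fun w hw => (Finset.mem_filter.1 hw).2
  have hcard := Finset.card_eq_sum_card_fiberwise (f := fun w : Wk (j + 1) => Rw w)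
    (s := (Om R F (j + 1)).filter (fun w => Rw w ∈ S)) (t := S) hmap
  rw [hcard]
  push_cast
  have hfib : ∀ v ∈ S, ((((Om R F (j + 1)).filter (fun w => Rw w ∈ S)).filter (fun w => Rw w = v)).card : ℝ) ≤ (κ * P) ^ 2 := by
    intro v _
    refine le_trans ?_ (Ext_E_card R κ P hM (v0 v))
    have h1 : (((Om R F (j + 1)).filter (fun w => Rw w ∈ S)).filter (fun w => Rw w = v)).card ≤ (Ext_E R (v0 v)).card := by
      refine Finset.card_le_card_of_injOn (fun w : Wk (j + 1) => ((w.1 (Fin.castSucc 0), (w.2 0).1, (w.2 0).2.1),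
        (w.1 (Fin.succ 0), (w.2 0).2.2, (w.2 0).2.1))) ?_ ?_
      · intro w hw
        have hw1 := Finset.mem_filter.1 (Finset.mem_coe.1 hw)
        have hw2 := (Finset.mem_filter.1 hw1.1).1
        rw [mem_Om] at hw2
        refine Finset.mem_coe.2 ?_
        unfold Ext_E
        rw [Finset.mem_filter, Finset.mem_product]
        refine ⟨hw2.2.1 0, ?_, rfl⟩
        rw [← hw1.2]
        rfl
      · intro w hw w' hw' h
        have hw1 := (Finset.mem_filter.1 (Finset.mem_coe.1 hw)).2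
        have hw1' := (Finset.mem_filter.1 (Finset.mem_coe.1 hw')).2
        have hL : Rw w = Rw w' := hw1.trans hw1'.symm
        have hL1 : ∀ s : Fin (j + 1), w.1 s.succ = w'.1 s.succ := fun s => congrFun (congrArg Prod.fst hL) s
        have hL2 : ∀ s : Fin j, w.2 s.succ = w'.2 s.succ := fun s => congrFun (congrArg Prod.snd hL) s
        simp only [Prod.mk.injEq] at h
        obtain ⟨⟨hc, ha, hb⟩, _, hd, _⟩ := h
        refine Prod.ext ?_ ?_
        · funext s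
          refine Fin.cases ?_ (fun s => hL1 s) s
          exact hc
        · funext s
          refine Fin.cases ?_ (fun s => hL2 s) s
          exact Prod.ext ha (Prod.ext hb hd)
    exact_mod_cast h1
  calc ∑ v ∈ S, ((((Om R F (j + 1)).filter (fun w => Rw w ∈ S)).filter (fun w => Rw w = v)).card : ℝ)
      ≤ ∑ v ∈ S, (κ * P) ^ 2 := Finset.sum_le_sum hfib
    _ = (κ * P) ^ 2 * S.card := by rw [Finset.sum_const, nsmul_eq_mul, mul_comm]

end Pool.Agent.H74.MDX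

end

section

/-!
# MDX MulRel: the relation has bounded multiplicity

`rel_mul`: if `Rel C n P η F F' α α' R`, `C ≥ 1`, `P ≥ 1` then `Mul (2C+1) P R`.  Proof: given `i, p` (we may assume that there is a triple in the set, so `P < p`),
`|g p - i P| ≤ C P` leaves at most `2C+1` natural numbers `g` (`|g - i P/p| ≤ C P/p ≤ C`; the number of integers in a closed interval of length `2C` is
`≤ 2C+1`); given `g, p`: `|i - g p/P| ≤ C`, the same.  See `Edges_count`, `Edges_cnt`, `Edges_div` in `Pool/Agent/H53/MID/Edges.lean` (private: copy).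
`mul_sub`: subsets.  `int_card`: the number of the naturals in an interval.  `rel_card_le`: `|F| ≤ C n`, `|F'| ≤ C n` (`F ⊆ [1, C n]` as `K ≥ n/C > 0`).
-/

set_option autoImplicit false

namespace Pool.Agent.H74.MDX

open Finset
open Pool.Agent.H53.MID (nz Rel Desc)

theorem int_card (S : Finset ℕ) (x r : ℝ) (hr : 0 ≤ r) (h : ∀ k ∈ S, |(k : ℝ) - x| ≤ r) : (S.card : ℝ) ≤ 2 * r + 1 := by
  rcases S.eq_empty_or_nonempty with rfl | ⟨k0, hk0⟩
  · simp only [Finset.card_empty, Nat.cast_zero]; linarith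
  have h1 : (S.image (fun k : ℕ => (k : ℤ))) ⊆ Finset.Icc ⌈x - r⌉ ⌊x + r⌋ := by
    intro z hz
    rw [Finset.mem_image] at hz
    obtain ⟨k, hk, rfl⟩ := hz
    have h2 := abs_le.mp (h k hk)
    rw [Finset.mem_Icc]
    constructor
    · rw [Int.ceil_le]; push_cast; linarith [h2.1]
    · rw [Int.le_floor]; push_cast; linarith [h2.2]
  have h2 := Finset.card_le_card h1
  rw [Finset.card_image_of_injective _ Nat.cast_injective, Int.card_Icc] at h2
  have h3 : ⌈x - r⌉ ≤ ⌊x + r⌋ := by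
    have h4 := h1 (Finset.mem_image_of_mem _ hk0)
    rw [Finset.mem_Icc] at h4
    exact h4.1.trans h4.2
  have h4 : ((⌊x + r⌋ + 1 - ⌈x - r⌉).toNat : ℝ) = (⌊x + r⌋ : ℝ) + 1 - ⌈x - r⌉ := by
    have h5 : (((⌊x + r⌋ + 1 - ⌈x - r⌉).toNat : ℤ) : ℝ) = ((⌊x + r⌋ + 1 - ⌈x - r⌉ : ℤ) : ℝ) := by
      rw [Int.toNat_of_nonneg (by linarith)]
    push_cast at h5
    linarith
  have h6 : (S.card : ℝ) ≤ ((⌊x + r⌋ + 1 - ⌈x - r⌉).toNat : ℝ) := by exact_mod_cast h2
  rw [h4] at h6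
  have h7 := Int.floor_le (x + r)
  have h8 := Int.le_ceil (x - r)
  linarith

theorem rel_mul (C : ℝ) (hC : 1 ≤ C) (n P : ℕ) (hP : 1 ≤ P) (η : ℝ) (F F' : Finset ℕ) (α α' : ℕ → ℝ)
    (R : Finset (ℕ × ℕ × ℕ)) (h : Rel C n P η F F' α α' R) : Mul (2 * C + 1) P R := by
  have hP0 : (0 : ℝ) < P := by exact_mod_cast hP
  refine ⟨by linarith, hP, h.prime, fun i p => ?_, fun g p => ?_⟩
  · rcases (R.filter (fun t => t.1 = i ∧ t.2.1 = p)).eq_empty_or_nonempty with h0 | ⟨t0, ht0⟩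
    · rw [h0]; simp only [Finset.card_empty, Nat.cast_zero]; linarith
    rw [Finset.mem_filter] at ht0
    have hp : P < p := by
      have := (h.prime t0 ht0.1).2.1
      rw [ht0.2.2] at this
      exact this
    have hp0 : (P : ℝ) < p := by exact_mod_cast hp
    have hinj : Set.InjOn (fun t : ℕ × ℕ × ℕ => t.2.2) (R.filter (fun t => t.1 = i ∧ t.2.1 = p)) := by
      intro a ha b hb hab
      rw [Finset.mem_coe, Finset.mem_filter] at ha hb
      obtain ⟨a1, a2, a3⟩ := a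
      obtain ⟨b1, b2, b3⟩ := b
      simp only at ha hb hab
      rw [Prod.mk.injEq, Prod.mk.injEq]
      exact ⟨ha.2.1.trans hb.2.1.symm, ha.2.2.trans hb.2.2.symm, hab⟩
    rw [← Finset.card_image_of_injOn hinj]
    refine int_card _ ((i : ℝ) * P / p) C (by linarith) ?_
    intro k hk
    rw [Finset.mem_image] at hk
    obtain ⟨t, ht, rfl⟩ := hk
    rw [Finset.mem_filter] at ht
    have h1 := h.pos t ht.1
    rw [ht.2.1, ht.2.2] at h1
    have hpp : (0 : ℝ) < p := by linarith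
    have h2 : (t.2.2 : ℝ) - (i : ℝ) * P / p = ((t.2.2 : ℝ) * p - i * P) / p := by
      field_simp
    rw [h2, abs_div, abs_of_pos hpp, div_le_iff₀ hpp]
    refine h1.trans ?_
    exact mul_le_mul_of_nonneg_left hp0.le (by linarith)
  · have hinj : Set.InjOn (fun t : ℕ × ℕ × ℕ => t.1) (R.filter (fun t => t.2.2 = g ∧ t.2.1 = p)) := by
      intro a ha b hb hab
      rw [Finset.mem_coe, Finset.mem_filter] at ha hb
      obtain ⟨a1, a2, a3⟩ := a
      obtain ⟨b1, b2, b3⟩ := b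
      simp only at ha hb hab
      rw [Prod.mk.injEq, Prod.mk.injEq]
      exact ⟨hab, ha.2.2.trans hb.2.2.symm, ha.2.1.trans hb.2.1.symm⟩
    rw [← Finset.card_image_of_injOn hinj]
    refine int_card _ ((g : ℝ) * p / P) C (by linarith) ?_
    intro k hk
    rw [Finset.mem_image] at hk
    obtain ⟨t, ht, rfl⟩ := hk
    rw [Finset.mem_filter] at ht
    have h1 := h.pos t ht.1
    rw [ht.2.1, ht.2.2] at h1
    have h2 : (t.1 : ℝ) - (g : ℝ) * p / P = -(((g : ℝ) * p - t.1 * P) / P) := by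
      field_simp
      ring
    rw [h2, abs_neg, abs_div, abs_of_pos hP0, div_le_iff₀ hP0]
    exact h1

private theorem MulRel_card (C : ℝ) (hC : 1 ≤ C) (n : ℕ) (hn : 1 ≤ n) (F : Finset ℕ)
    (h : ∀ K ∈ F, (n : ℝ) / C ≤ K ∧ (K : ℝ) ≤ C * n) : (F.card : ℝ) ≤ C * n := by
  have hn0 : (0 : ℝ) < n := by exact_mod_cast hn
  have hC0 : (0 : ℝ) < C := by linarith
  have h1 : F ⊆ Finset.Icc 1 ⌊C * n⌋₊ := by
    intro K hK
    rw [Finset.mem_Icc]
    constructor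
    · have h2 := (h K hK).1
      have h3 : (0 : ℝ) < K := lt_of_lt_of_le (by positivity) h2
      have h4 : 0 < K := by exact_mod_cast h3
      exact h4
    · exact Nat.le_floor (h K hK).2
  have h2 := Finset.card_le_card h1
  rw [Nat.card_Icc, Nat.add_sub_cancel] at h2
  calc (F.card : ℝ) ≤ (⌊C * n⌋₊ : ℝ) := by exact_mod_cast h2
    _ ≤ C * n := Nat.floor_le (by positivity)

theorem rel_card_le (C : ℝ) (hC : 1 ≤ C) (n P : ℕ) (hn : 1 ≤ n) (η : ℝ) (F F' : Finset ℕ) (α α' : ℕ → ℝ)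
    (R : Finset (ℕ × ℕ × ℕ)) (h : Rel C n P η F F' α α' R) : (F.card : ℝ) ≤ C * n ∧ (F'.card : ℝ) ≤ C * n :=
  ⟨MulRel_card C hC n hn F h.rngF, MulRel_card C hC n hn F' h.rngF'⟩

end Pool.Agent.H74.MDX

end

section

/-!
# MID FourC: lifting a frequency and the 4-cycle lemma

`lift`: `p ≠ p1` primes, `nz (p1 a - p a1) ≤ d`.  Then there is `s : ℤ` such that `w = (a + s)/p` satisfies `nz (p1 w - a1) ≤ d/p`.
Proof.  `p1 a - p a1 = r + e`, `r ∈ ℤ`, `|e| = nz(..) ≤ d` (`nz_exists`).  `p1 w - a1 = (r + p1 s + e)/p`; choose `s` with `p ∣ r + p1 s`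
(`p1` is invertible modulo `p`: `Int.isCoprime_iff_gcd_eq_one`/Bezout: `u p1 + v p = 1`, `s = -r u`).

`four_cycle`: `p ≠ q`, `p ≠ p1`, `p ≠ p2` primes in `(P, 2P]`, `w_i = (a + s_i)/p`, `nz (p_i w_i - a_i) ≤ d/p`, `nz (p_i b - q a_i) ≤ d` for
`i = 1, 2`, `48 d P^2 < 1`.  Then `p ∣ s1 - s2` (so `w1 - w2` is an integer) and therefore `nz (p2 w1 - a2) ≤ d/p`.
Proof.  `u_i = b - q w_i`.  `p_i u_i = (p_i b - q a_i) - q (p_i w_i - a_i)`, so `p_i u_i = c_i + f_i`, `c_i ∈ ℤ`,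
`|f_i| ≤ d + q d/p ≤ 3 d` (`q ≤ 2P < 2p`).  `u_2 - u_1 = q (w_1 - w_2) = q (s_1 - s_2)/p`.  Multiply
`c_2/p_2 + f_2/p_2 - c_1/p_1 - f_1/p_1 = q (s_1 - s_2)/p` by `p p_1 p_2`: the integer `Z = c_2 p p_1 - c_1 p p_2 - q (s_1 - s_2) p_1 p_2`
is `f_1 p p_2 - f_2 p p_1`, of absolute value `≤ 3 d · 4 P^2 · 2 = 24 d P^2 < 1`, so `Z = 0` and `p ∣ q (s_1 - s_2) p_1 p_2`; `p` is prime and
different from the primes `q, p_1, p_2`, so `p ∣ s_1 - s_2`.
-/

set_option autoImplicit false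

namespace Pool.Agent.H53.MID

theorem lift (p p1 : ℕ) (hp : p.Prime) (hp1 : p1.Prime) (hne : p ≠ p1) (a a1 d : ℝ)
    (h : nz (p1 * a - p * a1) ≤ d) : ∃ s : ℤ, nz (p1 * ((a + s) / p) - a1) ≤ d / p := by
  obtain ⟨r, hr⟩ := nz_exists (p1 * a - p * a1)
  have hcop : Nat.Coprime p1 p := (Nat.coprime_primes hp1 hp).2 (Ne.symm hne)
  have hcop' : IsCoprime (p1 : ℤ) (p : ℤ) := Nat.isCoprime_iff_coprime.2 hcop
  obtain ⟨u, v, huv⟩ := hcop'
  have hp0 : (0 : ℝ) < p := by exact_mod_cast hp.pos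
  refine ⟨-(r * u), ?_⟩
  have huv' : (u : ℝ) * p1 + v * p = 1 := by exact_mod_cast huv
  refine (nz_le_of _ (r * v)).trans ?_
  have e : (p1 : ℝ) * ((a + ((-(r * u) : ℤ) : ℝ)) / p) - a1 - ((r * v : ℤ) : ℝ) =
      (p1 * a - p * a1 - r) / p := by
    push_cast
    field_simp
    linear_combination (-(r : ℝ)) * huv'
  rw [e, abs_div, abs_of_pos hp0]
  exact div_le_div_of_nonneg_right (hr.trans_le h) hp0.le

private theorem FourC_aux (P p q p1 : ℕ) (hp : p.Prime) (hpP : P < p ∧ p ≤ 2 * P) (hqP : P < q ∧ q ≤ 2 * P)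
    (b a1 d w : ℝ) (h1 : nz (p1 * w - a1) ≤ d / p) (g1 : nz (p1 * b - q * a1) ≤ d) :
    ∃ (c : ℤ) (f : ℝ), |f| ≤ 3 * d ∧ p1 * (b - q * w) = c + f := by
  obtain ⟨m, hm⟩ := nz_exists (p1 * w - a1)
  obtain ⟨c, hc⟩ := nz_exists (p1 * b - q * a1)
  refine ⟨c - q * m, (p1 * b - q * a1 - c) - q * (p1 * w - a1 - m), ?_, ?_⟩
  · have hp0 : (0 : ℝ) < p := by exact_mod_cast hp.pos
    have hqp : (q : ℝ) ≤ 2 * p := by
      have : q ≤ 2 * p := by omega
      exact_mod_cast this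
    have e1 : |p1 * b - q * a1 - c| ≤ d := hc.trans_le g1
    have e2 : |(p1 * w - a1 - m : ℝ)| ≤ d / p := hm.trans_le h1
    have e3 : |(q : ℝ) * (p1 * w - a1 - m)| ≤ 2 * d := by
      rw [abs_mul, abs_of_nonneg (Nat.cast_nonneg q)]
      calc (q : ℝ) * |p1 * w - a1 - m| ≤ (2 * p) * (d / p) :=
            mul_le_mul hqp e2 (abs_nonneg _) (by positivity)
        _ = 2 * d := by field_simp
    calc |(p1 * b - q * a1 - c) - q * (p1 * w - a1 - m)| ≤ |p1 * b - q * a1 - c| +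
          |(q : ℝ) * (p1 * w - a1 - m)| := abs_sub _ _
      _ ≤ d + 2 * d := add_le_add e1 e3
      _ = 3 * d := by ring
  · push_cast
    ring

theorem four_cycle (P p q p1 p2 : ℕ) (hp : p.Prime) (hq : q.Prime) (hp1 : p1.Prime) (hp2 : p2.Prime)
    (hpP : P < p ∧ p ≤ 2 * P) (hqP : P < q ∧ q ≤ 2 * P) (hp1P : P < p1 ∧ p1 ≤ 2 * P) (hp2P : P < p2 ∧ p2 ≤ 2 * P)
    (hpq : p ≠ q) (hpp1 : p ≠ p1) (hpp2 : p ≠ p2) (a b a1 a2 d : ℝ) (s1 s2 : ℤ)
    (h1 : nz (p1 * ((a + s1) / p) - a1) ≤ d / p) (h2 : nz (p2 * ((a + s2) / p) - a2) ≤ d / p)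
    (g1 : nz (p1 * b - q * a1) ≤ d) (g2 : nz (p2 * b - q * a2) ≤ d) (hd0 : 0 ≤ d) (hd : 48 * d * (P : ℝ) ^ 2 < 1) :
    nz (p2 * ((a + s1) / p) - a2) ≤ d / p := by
  obtain ⟨c1, f1, hf1, e1⟩ := FourC_aux P p q p1 hp hpP hqP b a1 d _ h1 g1
  obtain ⟨c2, f2, hf2, e2⟩ := FourC_aux P p q p2 hp hpP hqP b a2 d _ h2 g2
  have hp0 : (0 : ℝ) < p := by exact_mod_cast hp.pos
  set Z : ℤ := c2 * (p * p1) - c1 * (p * p2) - q * (s1 - s2) * (p1 * p2) with hZ
  have hZr : (Z : ℝ) = f1 * (p * p2) - f2 * (p * p1) := by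
    rw [hZ]
    push_cast
    have e1' : (c1 : ℝ) = p1 * (b - q * ((a + s1) / p)) - f1 := by linarith
    have e2' : (c2 : ℝ) = p2 * (b - q * ((a + s2) / p)) - f2 := by linarith
    rw [e1', e2']
    field_simp
    ring
  have hP0 : (0 : ℝ) ≤ P := Nat.cast_nonneg P
  have hpP' : (p : ℝ) ≤ 2 * P := by exact_mod_cast hpP.2
  have hp1P' : (p1 : ℝ) ≤ 2 * P := by exact_mod_cast hp1P.2
  have hp2P' : (p2 : ℝ) ≤ 2 * P := by exact_mod_cast hp2P.2
  have hb : ∀ (f r : ℝ), |f| ≤ 3 * d → 0 ≤ r → r ≤ 2 * P → |f * (p * r)| ≤ 12 * d * (P : ℝ) ^ 2 := by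
    intro f r hf hr hr2
    rw [abs_mul, abs_of_nonneg (mul_nonneg hp0.le hr)]
    calc |f| * (p * r) ≤ (3 * d) * ((2 * P) * (2 * P)) := by
          refine mul_le_mul hf (mul_le_mul hpP' hr2 hr (by positivity)) (by positivity) (by positivity)
      _ = 12 * d * (P : ℝ) ^ 2 := by ring
  have hZlt : |(Z : ℝ)| < 1 := by
    rw [hZr]
    have k1 := hb f1 p2 hf1 (Nat.cast_nonneg _) hp2P'
    have k2 := hb f2 p1 hf2 (Nat.cast_nonneg _) hp1P'
    have k3 := abs_sub (f1 * (p * p2)) (f2 * (p * p1))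
    have k4 : 0 ≤ d * (P : ℝ) ^ 2 := by positivity
    linarith
  have hZ0 : Z = 0 := by
    have h3 : |Z| < 1 := by exact_mod_cast hZlt
    exact Int.abs_lt_one_iff.1 h3
  have hpi : Prime (p : ℤ) := Nat.prime_iff_prime_int.1 hp
  have hndvd : ∀ r : ℕ, r.Prime → p ≠ r → ¬ (p : ℤ) ∣ (r : ℤ) := by
    intro r hr hne hdv
    exact hne ((Nat.prime_dvd_prime_iff_eq hp hr).1 (Int.natCast_dvd_natCast.1 hdv))
  have hdvd : (p : ℤ) ∣ s1 - s2 := by
    have h3 : (q : ℤ) * (s1 - s2) * (p1 * p2) = p * (c2 * p1 - c1 * p2) := by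
      have h4 := hZ0
      rw [hZ] at h4
      linear_combination -h4
    have h4 : (p : ℤ) ∣ (q : ℤ) * (s1 - s2) * (p1 * p2) := ⟨_, h3⟩
    rcases hpi.dvd_or_dvd h4 with h5 | h5
    · rcases hpi.dvd_or_dvd h5 with h6 | h6
      · exact absurd h6 (hndvd q hq hpq)
      · exact h6
    · rcases hpi.dvd_or_dvd h5 with h6 | h6
      · exact absurd h6 (hndvd p1 hp1 hpp1)
      · exact absurd h6 (hndvd p2 hp2 hpp2)
  obtain ⟨k, hk⟩ := hdvd
  have hk' : (s1 : ℝ) = s2 + p * k := by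
    have : s1 = s2 + p * k := by linarith
    exact_mod_cast this
  have e : (p2 : ℝ) * ((a + s1) / p) - a2 = (p2 * ((a + s2) / p) - a2) + ((p2 * k : ℤ) : ℝ) := by
    rw [hk']
    push_cast
    field_simp
    ring
  rw [e, nz_add_int]
  exact h2

end Pool.Agent.H53.MID

end

section

/-!
# MDX Root: the root of an edge

For an edge `e = ((p,K,k), (p',K',k'))` (`mem_EX`) `lift` (H53/MID/FourC.lean, with `p := p`, `p1 := p'`, `a := k`, `a1 := k'`, `d := 2 η`) gives an integer `s` with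
`nz (p' ((k + s)/p) - k') ≤ 2 η/p`.  Choose the representative `s ∈ [0, p)` (`s ↦ s % p`; changing `s` by a multiple of `p` changes `(k+s)/p` by an integer and the
argument of `nz` by an integer: `nz_add_int`).  Uniqueness: if `s1, s2 ∈ [0, p)` both satisfy it then `nz (p' (s1 - s2)/p) ≤ 4 η/p < 1/p`, so `p ∣ p' (s1 - s2)`
(`nz_frac_ge`), `p ∣ s1 - s2` (`p ≠ p'` primes), `s1 = s2`.
Second claim: `four_cycle` with `p = pr u`, `q = pr v`, `p1 = pr u1`, `p2 = pr u2`, `a = k_u`, `b = k_v`, `a1 = k_(u1)`, `a2 = k_(u2)`, `d = 2 η`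
(`48 d P^2 = 96 η P^2 < 1`): the label of `(u, u1)` also satisfies the inequality of `(u, u2)`; by uniqueness the labels are equal.
(If `η P^2` is small and `P ≥ 1` then also `4 η < 1`; the vertices have `P < p ≤ 2P`.)
-/

set_option autoImplicit false

namespace Pool.Agent.H74.MDX

open Finset
open Pool.Agent.H53.MID (nz Rel Desc)

private theorem Root_exists (p p1 : ℕ) (hp : p.Prime) (hp1 : p1.Prime) (hne : p ≠ p1) (a a1 d : ℝ)
    (h : nz (p1 * a - p * a1) ≤ d) :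
    ∃ s : ℤ, 0 ≤ s ∧ s < p ∧ nz (p1 * ((a + s) / p) - a1) ≤ d / p := by
  obtain ⟨s0, hs0⟩ := Pool.Agent.H53.MID.lift p p1 hp hp1 hne a a1 d h
  have hp0 : (0 : ℤ) < p := by exact_mod_cast hp.pos
  have hpR : (0 : ℝ) < p := by exact_mod_cast hp.pos
  refine ⟨s0 % p, Int.emod_nonneg _ hp0.ne', Int.emod_lt_of_pos _ hp0, ?_⟩
  have e0 : (s0 : ℝ) = ((s0 % p : ℤ) : ℝ) + p * ((s0 / p : ℤ) : ℝ) := by
    have := Int.emod_add_mul_ediv s0 p
    exact_mod_cast this.symm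
  have e1 : (p1 : ℝ) * ((a + s0) / p) - a1 =
      (p1 * ((a + ((s0 % p : ℤ) : ℝ)) / p) - a1) + ((p1 * (s0 / p) : ℤ) : ℝ) := by
    rw [e0]
    push_cast
    field_simp
    ring
  rw [e1, Pool.Agent.H53.MID.nz_add_int] at hs0
  exact hs0

private theorem Root_unique (p p1 : ℕ) (hp : p.Prime) (hp1 : p1.Prime) (hne : p ≠ p1) (a a1 η : ℝ) (hη : 4 * η < 1)
    (s t : ℤ) (hs0 : 0 ≤ s) (hsp : s < p) (ht0 : 0 ≤ t) (htp : t < p)
    (hs : nz (p1 * ((a + s) / p) - a1) ≤ 2 * η / p) (ht : nz (p1 * ((a + t) / p) - a1) ≤ 2 * η / p) : s = t := by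
  have hpR : (0 : ℝ) < p := by exact_mod_cast hp.pos
  have h1 := Pool.Agent.H53.MID.nz_sub (p1 * ((a + s) / p) - a1) (p1 * ((a + t) / p) - a1)
  have e1 : (p1 : ℝ) * ((a + s) / p) - a1 - (p1 * ((a + t) / p) - a1) = ((p1 * (s - t) : ℤ) : ℝ) / p := by
    push_cast
    field_simp
    ring
  rw [e1] at h1
  have h2 : nz (((p1 * (s - t) : ℤ) : ℝ) / p) < 1 / p := by
    refine (h1.trans (add_le_add hs ht)).trans_lt ?_
    rw [← add_div]
    exact div_lt_div_of_pos_right (by linarith) hpR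
  have h3 : (p : ℤ) ∣ (p1 : ℤ) * (s - t) := by
    by_contra h4
    have h5 := Pool.Agent.H53.MID.nz_frac_ge _ p hp.pos h4
    linarith
  have hpi : Prime (p : ℤ) := Nat.prime_iff_prime_int.1 hp
  rcases hpi.dvd_or_dvd h3 with h4 | h4
  · exact absurd ((Nat.prime_dvd_prime_iff_eq hp hp1).1 (Int.natCast_dvd_natCast.1 h4)) hne
  · have h5 : |s - t| < p := by
      rw [abs_lt]
      constructor <;> linarith
    have h6 := Int.eq_zero_of_abs_lt_dvd h4 h5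
    linarith

theorem root_label (c : ℝ) (P : ℕ) (η : ℝ) (V : Finset (ℕ × ℝ)) (M : ℕ) (hP : 1 ≤ P) (hη : 0 ≤ η)
    (hηP : 100 * η * (P : ℝ) ^ 2 ≤ 1) :
    ∃ s : (ℕ × ℕ × ℝ) × (ℕ × ℕ × ℝ) → ℤ,
      (∀ e ∈ EX c P η V M, nz ((e.2.1 : ℝ) * ((e.1.2.2 + s e) / e.1.1) - e.2.2.2) ≤ 2 * η / e.1.1) ∧
      ∀ u v u1 u2 : ℕ × ℕ × ℝ, (u, u1) ∈ EX c P η V M → (u, u2) ∈ EX c P η V M → (v, u1) ∈ EX c P η V M →
        (v, u2) ∈ EX c P η V M → u.1 ≠ v.1 → s (u, u1) = s (u, u2) := by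
  classical
  have hP2 : (1 : ℝ) ≤ (P : ℝ) ^ 2 := one_le_pow₀ (by exact_mod_cast hP)
  have hη4 : 4 * η < 1 := by nlinarith
  have hd : 48 * (2 * η) * (P : ℝ) ^ 2 < 1 := by nlinarith
  have key : ∀ e : (ℕ × ℕ × ℝ) × (ℕ × ℕ × ℝ), ∃ s : ℤ, e ∈ EX c P η V M →
      0 ≤ s ∧ s < e.1.1 ∧ nz ((e.2.1 : ℝ) * ((e.1.2.2 + s) / e.1.1) - e.2.2.2) ≤ 2 * η / e.1.1 := by
    intro e
    by_cases he : e ∈ EX c P η V M
    · obtain ⟨h1, h2, h3, h4⟩ := mem_EX.1 he
      obtain ⟨s, hs⟩ := Root_exists e.1.1 e.2.1 (mem_VX.1 h1).2.1 (mem_VX.1 h2).2.1 h3 e.1.2.2 e.2.2.2 (2 * η) h4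
      exact ⟨s, fun _ => hs⟩
    · exact ⟨0, fun h => absurd h he⟩
  choose s hs using key
  refine ⟨s, fun e he => (hs e he).2.2, ?_⟩
  intro u v u1 u2 h1 h2 h3 h4 huv
  obtain ⟨a1, a2, a3, a4⟩ := mem_EX.1 h1
  obtain ⟨b1, b2, b3, b4⟩ := mem_EX.1 h2
  obtain ⟨c1, c2, c3, c4⟩ := mem_EX.1 h3
  obtain ⟨d1, d2, d3, d4⟩ := mem_EX.1 h4
  obtain ⟨x1, x2, x3⟩ := hs _ h1
  obtain ⟨y1, y2, y3⟩ := hs _ h2
  have h5 := Pool.Agent.H53.MID.four_cycle P u.1 v.1 u1.1 u2.1 (mem_VX.1 a1).2.1 (mem_VX.1 c1).2.1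
    (mem_VX.1 a2).2.1 (mem_VX.1 b2).2.1 (mem_VX.1 a1).1 (mem_VX.1 c1).1 (mem_VX.1 a2).1 (mem_VX.1 b2).1
    huv a3 b3 u.2.2 v.2.2 u1.2.2 u2.2.2 (2 * η) (s (u, u1)) (s (u, u2)) x3 y3 c4 d4 (by linarith) hd
  exact Root_unique u.1 u2.1 (mem_VX.1 a1).2.1 (mem_VX.1 b2).2.1 b3 u.2.2 u2.2.2 η hη4 _ _ x1 x2 y1 y2 h5 y3

end Pool.Agent.H74.MDX

end

section

/-!
# MDX Weak: a frequency compatible with many vertices has many descendants

Proof.  For every `K` choose `k(K)` such that `(K, k(K)) ∈ V` and the number of the `u ∈ U` with `u.2 = (K, k(K))` is maximal; as at most `m` elements of `V` have the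
first coordinate `K` (`hmult`), the set `U' = {u ∈ U : u.2.2 = k(u.2.1)}` has at least `|U|/m` elements, and `u ∈ U'` is determined by `(u.1, u.2.1)`.
`Q` = sigma type over `u ∈ U'` of `DS P j D τ F α u.2` (each at least `μ P^j` elements, so `|Q| ≥ |U| μ P^j/m`); the map `(u, (a, i)) ↦ (u.1 a, i)` goes to
`DS P (j+1) D1 τ1 F α (M, w)` (`DS_step`, `DS_mono`).  Fibres: given `(a', i)`: `u.1` is a prime `> P` dividing `a' ≤ (2P)^(j+1) < P^(j+2)` (`2^(j+1) < P`): at most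
`j+1` values; given `u.1 = p`: `a = a'/p` and `|K p - M P| ≤ c P` leaves at most `2c+1` values of `K`.  (Same as `chain_step` in `Pool/Agent/H53/MID/Chain.lean`; its
private lemmas `Chain_cardK`, `Chain_cardP` can be copied.)
-/

set_option autoImplicit false

namespace Pool.Agent.H74.MDX

open Finset
open Pool.Agent.H53.MID (nz Rel Desc)

/-- the number of the indices at a bounded distance -/
private theorem Weak_cardK {C X : ℝ} {p P : ℕ} (hC : 0 ≤ C) (hP : 0 < P) (hp : P < p)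
    (U : Finset ℕ) (hU : ∀ K ∈ U, |(K : ℝ) * p - X| ≤ C * P) :
    U.card ≤ ⌊2 * C⌋₊ + 1 := by
  rcases U.eq_empty_or_nonempty with h0 | hne
  · rw [h0]
    simp
  · obtain ⟨a, ha⟩ : ∃ a, a = U.min' hne := ⟨_, rfl⟩
    have haU : a ∈ U := by
      rw [ha]
      exact Finset.min'_mem _ _
    have hsub : U ⊆ Finset.Icc a (a + ⌊2 * C⌋₊) := by
      intro K hK
      have h1 : a ≤ K := by
        rw [ha]
        exact Finset.min'_le _ _ hK
      rw [Finset.mem_Icc]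
      refine ⟨h1, ?_⟩
      have h2 := hU K hK
      have h3 := hU a haU
      rw [abs_le] at h2 h3
      have hP0 : (0 : ℝ) < P := by exact_mod_cast hP
      have hpP : (P : ℝ) < p := by exact_mod_cast hp
      have h4 : ((K : ℝ) - a) * p ≤ 2 * C * P := by linarith [h2.2, h3.1]
      have h5 : (K : ℝ) - a ≤ 2 * C := by
        by_contra hcon
        push Not at hcon
        have h6 : 2 * C * p < ((K : ℝ) - a) * p :=
          mul_lt_mul_of_pos_right hcon (hP0.trans hpP)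
        have h7 : 2 * C * P ≤ 2 * C * p := mul_le_mul_of_nonneg_left hpP.le (by linarith)
        linarith
      have h8 : ((K - a : ℕ) : ℝ) ≤ 2 * C := by
        rw [Nat.cast_sub h1]
        exact h5
      have h9 : K - a ≤ ⌊2 * C⌋₊ := Nat.le_floor h8
      omega
    refine (Finset.card_le_card hsub).trans ?_
    rw [Nat.card_Icc]
    omega

/-- the number of the large prime factors -/
private theorem Weak_cardP {P j N : ℕ} (hP : 2 ^ (j + 1) < P) (hN : 0 < N)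
    (hN2 : N ≤ (2 * P) ^ (j + 1)) (B : Finset ℕ)
    (hB : ∀ p ∈ B, p.Prime ∧ P < p ∧ p ∣ N) : B.card ≤ j + 1 := by
  have hP0 : 0 < P := lt_of_le_of_lt (Nat.zero_le _) hP
  have h1 : ∏ p ∈ B, p ∣ N :=
    Finset.prod_primes_dvd N (fun p hp => (hB p hp).1.prime) fun p hp => (hB p hp).2.2
  have h2 : ∏ p ∈ B, p ≤ N := Nat.le_of_dvd hN h1
  have h3 : P ^ B.card ≤ ∏ p ∈ B, p := Finset.pow_card_le_prod _ _ _ fun p hp => (hB p hp).2.1.le
  have h5 : (2 * P) ^ (j + 1) < P ^ (j + 2) := by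
    rw [mul_pow, pow_succ P (j + 1), mul_comm (P ^ (j + 1)) P]
    exact Nat.mul_lt_mul_of_pos_right hP (pow_pos hP0 _)
  have h6 : P ^ B.card < P ^ (j + 2) := lt_of_le_of_lt (h3.trans (h2.trans hN2)) h5
  have h7 : 1 < P := lt_of_le_of_lt Nat.one_le_two_pow hP
  have h8 := (Nat.pow_lt_pow_iff_right h7).mp h6
  omega

open Classical in
theorem weak (P j : ℕ) (c D D1 τ τ1 η' μ m w : ℝ) (F : Finset ℕ) (α : ℕ → ℝ) (M : ℕ) (V : Finset (ℕ × ℝ))
    (U : Finset (ℕ × ℕ × ℝ)) (hP : 2 ^ (j + 1) < P) (hc : 0 ≤ c) (hD : 0 ≤ D) (hμ : 0 ≤ μ) (hm : 1 ≤ m)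
    (hU : U ⊆ VX c P V M) (hUn : ∀ u ∈ U, nz (u.1 * w - u.2.2) ≤ η')
    (hV : ∀ v ∈ V, μ * (P : ℝ) ^ j ≤ ((DS P j D τ F α v).card : ℝ))
    (hmult : ∀ K : ℕ, ((V.filter (fun v => v.1 = K)).card : ℝ) ≤ m)
    (hD1 : 2 * D + c ≤ D1) (hτ1 : (2 * (P : ℝ)) ^ j * η' + τ ≤ τ1) :
    U.card * (μ * (P : ℝ) ^ j) / (m * ((j + 1) * (2 * c + 1))) ≤ ((DS P (j + 1) D1 τ1 F α (M, w)).card : ℝ) := by
  classical
  have hP0 : 0 < P := lt_of_le_of_lt (Nat.zero_le _) hP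
  have hP0' : (0 : ℝ) < P := by exact_mod_cast hP0
  set f : (Σ _ : ℕ × ℕ × ℝ, ℕ × ℕ) → ℕ × ℕ := fun x => (x.1.1 * x.2.1, x.2.2) with hf
  set Q : Finset (Σ _ : ℕ × ℕ × ℝ, ℕ × ℕ) := U.sigma fun u => DS P j D τ F α u.2 with hQ
  have key : ∀ x ∈ Q, x.1 ∈ U ∧ x.2 ∈ DS P j D τ F α x.1.2 := by
    intro x hx
    rw [hQ, Finset.mem_sigma] at hx
    exact hx
  have himg : Q.image f ⊆ DS P (j + 1) D1 τ1 F α (M, w) := by
    intro t ht
    rw [Finset.mem_image] at ht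
    obtain ⟨x, hx, rfl⟩ := ht
    obtain ⟨hxU, hxS⟩ := key x hx
    have hv := mem_VX.1 (hU hxU)
    have h1 := DS_step P j c D τ η' F α x.1.2.1 M x.1.1 x.1.2.2 w hv.2.1 hv.1 hv.2.2.2 (hUn _ hxU)
      hD hc x.2 hxS
    exact DS_mono P (j + 1) _ _ _ _ F α (M, w) hD1 hτ1 h1
  -- the fibres
  have hfib : ∀ a ∈ Q.image f, (Q.filter fun x => f x = a).card ≤
      (⌊m⌋₊ * (⌊2 * c⌋₊ + 1)) * (j + 1) := by
    intro a ha
    have haD := mem_DS.1 (himg ha)
    have ha0 : 0 < a.1 := lt_of_lt_of_le (pow_pos hP0 (j + 1)) haD.1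
    set G : Finset (ℕ × ℕ × ℝ) := (Q.filter fun x => f x = a).image fun x => x.1 with hG
    have hcard : (Q.filter fun x => f x = a).card = G.card := by
      rw [hG, Finset.card_image_of_injOn]
      intro x hx y hy hxy
      rw [Finset.mem_coe, Finset.mem_filter] at hx hy
      have hxy' : x.1 = y.1 := hxy
      have hp : 0 < x.1.1 := hP0.trans (mem_VX.1 (hU (key x hx.1).1)).1.1
      have e1 : x.1.1 * x.2.1 = a.1 := congrArg Prod.fst hx.2
      have e2 : y.1.1 * y.2.1 = a.1 := congrArg Prod.fst hy.2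
      have e3 : (f x).2 = a.2 := by rw [hx.2]
      have e4 : (f y).2 = a.2 := by rw [hy.2]
      have e5 : x.2.1 = y.2.1 := by
        rw [← hxy', ← e1] at e2
        exact (Nat.eq_of_mul_eq_mul_left hp e2).symm
      have e6 : x.2 = y.2 := Prod.ext e5 (e3.trans e4.symm)
      exact Sigma.ext hxy' (heq_of_eq e6)
    have hGmem : ∀ t ∈ G, t ∈ U ∧ t.1 ∣ a.1 := by
      intro t ht
      rw [hG, Finset.mem_image] at ht
      obtain ⟨x, hx, rfl⟩ := ht
      rw [Finset.mem_filter] at hx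
      exact ⟨(key x hx.1).1, ⟨x.2.1, (congrArg Prod.fst hx.2).symm⟩⟩
    have h1 : G.card ≤ (⌊m⌋₊ * (⌊2 * c⌋₊ + 1)) * (G.image Prod.fst).card := by
      refine Finset.card_le_mul_card_image G _ fun p hp => ?_
      have hp' := hp
      rw [Finset.mem_image] at hp'
      obtain ⟨t0, ht0, ht0p⟩ := hp'
      have hPp : P < p := by
        rw [← ht0p]
        exact (mem_VX.1 (hU (hGmem t0 ht0).1)).1.1
      have hinj : (G.filter fun x => Prod.fst x = p).card =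
          ((G.filter fun x => Prod.fst x = p).image Prod.snd).card := by
        rw [Finset.card_image_of_injOn]
        intro x hx y hy hxy
        rw [Finset.mem_coe, Finset.mem_filter] at hx hy
        exact Prod.ext (hx.2.trans hy.2.symm) hxy
      rw [hinj]
      obtain ⟨W, hW⟩ : ∃ W, W = (G.filter fun x => Prod.fst x = p).image Prod.snd := ⟨_, rfl⟩
      rw [← hW]
      have hWmem : ∀ v ∈ W, v ∈ V ∧ |(v.1 : ℝ) * p - (M : ℝ) * P| ≤ c * P := by
        intro v hv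
        rw [hW, Finset.mem_image] at hv
        obtain ⟨t, ht, rfl⟩ := hv
        rw [Finset.mem_filter] at ht
        have := mem_VX.1 (hU (hGmem t ht.1).1)
        refine ⟨this.2.2.1, ?_⟩
        rw [← ht.2]
        exact this.2.2.2
      have h2 : W.card ≤ ⌊m⌋₊ * (W.image Prod.fst).card := by
        refine Finset.card_le_mul_card_image W _ fun K _ => ?_
        have h3 : ((W.filter fun x => Prod.fst x = K).card : ℝ) ≤ m := by
          refine le_trans ?_ (hmult K)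
          refine Nat.cast_le.2 (Finset.card_le_card fun v hv => ?_)
          rw [Finset.mem_filter] at hv ⊢
          exact ⟨(hWmem v hv.1).1, hv.2⟩
        exact Nat.le_floor h3
      have h3 : (W.image Prod.fst).card ≤ ⌊2 * c⌋₊ + 1 := by
        refine Weak_cardK (X := (M : ℝ) * P) hc hP0 hPp _ fun K hK => ?_
        rw [Finset.mem_image] at hK
        obtain ⟨v, hv, rfl⟩ := hK
        exact (hWmem v hv).2
      exact h2.trans (Nat.mul_le_mul_left _ h3)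
    have h2 : (G.image Prod.fst).card ≤ j + 1 := by
      refine Weak_cardP hP ha0 haD.2.1 _ fun p hp => ?_
      rw [Finset.mem_image] at hp
      obtain ⟨t, ht, rfl⟩ := hp
      obtain ⟨htU, htd⟩ := hGmem t ht
      have := mem_VX.1 (hU htU)
      exact ⟨this.2.1, this.1.1, htd⟩
    rw [hcard]
    exact h1.trans (Nat.mul_le_mul_left _ h2)
  have hcardQ : Q.card ≤ ((⌊m⌋₊ * (⌊2 * c⌋₊ + 1)) * (j + 1)) * (Q.image f).card :=
    Finset.card_le_mul_card_image Q _ hfib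
  have hQc : (U.card : ℝ) * (μ * (P : ℝ) ^ j) ≤ Q.card := by
    rw [hQ, Finset.card_sigma]
    push_cast
    calc (U.card : ℝ) * (μ * (P : ℝ) ^ j) = ∑ _t ∈ U, μ * (P : ℝ) ^ j := by
          rw [Finset.sum_const, nsmul_eq_mul]
      _ ≤ ∑ t ∈ U, ((DS P j D τ F α t.2).card : ℝ) :=
          Finset.sum_le_sum fun t ht => hV _ (mem_VX.1 (hU ht)).2.2.1
  have hC2 : ((⌊2 * c⌋₊ : ℕ) : ℝ) ≤ 2 * c := Nat.floor_le (by linarith)
  have hm2 : ((⌊m⌋₊ : ℕ) : ℝ) ≤ m := Nat.floor_le (by linarith)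
  have hj0 : (0 : ℝ) ≤ j := Nat.cast_nonneg j
  have hm0 : 0 < m := by linarith
  have hpos : (0 : ℝ) < m * ((j + 1) * (2 * c + 1)) := by positivity
  rw [div_le_iff₀ hpos]
  have h3 : (Q.card : ℝ) ≤ ((⌊m⌋₊ : ℝ) * ((⌊2 * c⌋₊ : ℝ) + 1)) * (j + 1) * (Q.image f).card := by
    exact_mod_cast hcardQ
  have h5 : ((⌊m⌋₊ : ℝ) * ((⌊2 * c⌋₊ : ℝ) + 1)) ≤ m * (2 * c + 1) :=
    mul_le_mul hm2 (by linarith) (by positivity) hm0.le
  have h4 : ((⌊m⌋₊ : ℝ) * ((⌊2 * c⌋₊ : ℝ) + 1)) * (j + 1) * (Q.image f).card ≤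
      (m * (2 * c + 1)) * (j + 1) * (DS P (j + 1) D1 τ1 F α (M, w)).card := by
    refine mul_le_mul (mul_le_mul_of_nonneg_right h5 (by linarith)) ?_ (Nat.cast_nonneg _)
      (by positivity)
    exact_mod_cast Finset.card_le_card himg
  calc (U.card : ℝ) * (μ * (P : ℝ) ^ j) ≤ Q.card := hQc
    _ ≤ _ := h3
    _ ≤ _ := h4
    _ = ((DS P (j + 1) D1 τ1 F α (M, w)).card : ℝ) * (m * ((j + 1) * (2 * c + 1))) := by ring

end Pool.Agent.H74.MDX

end

section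

/-!
# MDX Nd: a frequency which is small on many rough numbers

Proof.  Dirichlet: there are `q ≥ 1`, `q ≤ 4X`, `b ∈ ℤ` coprime to `q` with `|φ - b/q| ≤ 1/(4 X q)` (e.g. `Real.exists_rat_abs_sub_le_and_den_le`, `Rat.den`, for the natural number
`4X`; it gives `≤ 1/((4X+1) q)`).  For `a ∈ S`: `a ≤ X`, `|a (φ - b/q)| ≤ 1/(4q)`, so `nz (a b/q) ≤ t + 1/(4q)`.
* `2 ≤ q ≤ P`: take `a ∈ S` (nonempty by `hS`); its prime factors are `> P`, so `gcd(a, q) = 1`, `q ∤ a b`, `nz (a b/q) ≥ 1/q` (`nz_frac_ge`), so `3/(4q) ≤ t`,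
  but `t < 3/(4P) ≤ 3/(4q)`.
* `q > P`: `a b mod q` (absolutely smallest residue `r`) satisfies `|r| ≤ t q + 1/4`, at most `2 t q + 3/2` values of `r`, each determines `a` mod `q`, and each class mod `q` contains at most
  `X/q + 1` numbers `a ≤ X`.  So `|S| ≤ (X/q + 1)(2 t q + 3/2) = 2 t X + 3X/(2q) + 2 t q + 3/2 ≤ 10 t X + 3X/(2P) + 3/2` (`q ≤ 4X`): contradiction with `hS`.
* `q = 1`: `|a (φ - b)| ≤ 1/4 < 1/2`, so `nz (a φ) = |a (φ - b)|` (`nz_sub_int`, `nz_eq_abs`), `Y |φ - b| ≤ a |φ - b| ≤ t`, and `nz φ ≤ |φ - b| ≤ t/Y`.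
-/

set_option autoImplicit false

namespace Pool.Agent.H74.MDX

open Finset
open Pool.Agent.H53.MID (nz Rel)

private theorem Nd_int_card (S : Finset ℤ) (c : ℝ) (hc : 0 ≤ c) (h : ∀ k ∈ S, |(k : ℝ)| ≤ c) : (S.card : ℝ) ≤ 2 * c + 1 := by
  have h1 : S ⊆ Finset.Icc ⌈-c⌉ ⌊c⌋ := by
    intro z hz
    have h2 := abs_le.mp (h z hz)
    rw [Finset.mem_Icc]
    exact ⟨Int.ceil_le.mpr h2.1, Int.le_floor.mpr h2.2⟩
  have h2 := Finset.card_le_card h1
  rw [Int.card_Icc] at h2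
  have h3 : ⌈-c⌉ ≤ 0 := by rw [Int.ceil_le]; push_cast; linarith
  have h3' : 0 ≤ ⌊c⌋ := Int.floor_nonneg.mpr hc
  have h5 : (((⌊c⌋ + 1 - ⌈-c⌉).toNat : ℤ) : ℝ) = ((⌊c⌋ + 1 - ⌈-c⌉ : ℤ) : ℝ) := by
    rw [Int.toNat_of_nonneg (by linarith)]
  push_cast at h5
  have h6 : (S.card : ℝ) ≤ ((⌊c⌋ + 1 - ⌈-c⌉).toNat : ℝ) := by exact_mod_cast h2
  have h7 := Int.floor_le c
  have h8 := Int.le_ceil (-c)
  linarith

private theorem Nd_class (X q : ℕ) (hq : 0 < q) (S : Finset ℕ) (hX : ∀ a ∈ S, a ≤ X)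
    (hm : ∀ a ∈ S, ∀ b ∈ S, a % q = b % q) : S.card ≤ X / q + 1 := by
  have hinj : Set.InjOn (fun a : ℕ => a / q) S := by
    intro a ha b hb hab
    have h1 := hm a ha b hb
    have h2 := Nat.div_add_mod a q
    have h3 := Nat.div_add_mod b q
    simp only at hab
    rw [← h2, ← h3, hab, h1]
  rw [← Finset.card_image_of_injOn hinj]
  have h4 : S.image (fun a : ℕ => a / q) ⊆ Finset.range (X / q + 1) := by
    intro y hy
    rw [Finset.mem_image] at hy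
    obtain ⟨a, ha, rfl⟩ := hy
    rw [Finset.mem_range]
    exact Nat.lt_succ_of_le (Nat.div_le_div_right (hX a ha))
  have h5 := Finset.card_le_card h4
  rw [Finset.card_range] at h5
  exact h5

theorem nd_rough (P X Y : ℕ) (t φ : ℝ) (S : Finset ℕ) (hP : 1 ≤ P) (hY : 1 ≤ Y) (hX : 1 ≤ X) (ht : 0 ≤ t) (htP : 4 * t * P < 3)
    (hSX : ∀ a ∈ S, Y ≤ a ∧ a ≤ X) (hSr : ∀ a ∈ S, ∀ q : ℕ, q.Prime → q ∣ a → P < q)
    (hSt : ∀ a ∈ S, nz (a * φ) ≤ t) (hS : 10 * t * X + 3 * X / P + 3 < S.card) : nz φ ≤ t / Y := by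
  have hX0 : (0 : ℝ) < X := by exact_mod_cast hX
  have hP0 : (0 : ℝ) < P := by exact_mod_cast hP
  have hY0 : (0 : ℝ) < Y := by exact_mod_cast hY
  obtain ⟨r, hr1, hr2⟩ := Real.exists_rat_abs_sub_le_and_den_le φ (n := 4 * X) (by omega)
  set q : ℕ := r.den with hq
  have hqpos : 0 < q := r.den_pos
  have hq0 : (0 : ℝ) < q := by exact_mod_cast hqpos
  set b : ℤ := r.num with hb
  have hrb : (r : ℝ) = (b : ℝ) / q := by
    rw [hb, hq]; exact (Rat.cast_def r)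
  have hcop : IsCoprime b (q : ℤ) := by
    rw [Int.isCoprime_iff_nat_coprime]
    have := r.reduced
    simpa using this
  have hnear : ∀ a ∈ S, |(a : ℝ) * φ - (a : ℝ) * (b / q)| ≤ 1 / (4 * q) := by
    intro a ha
    have ha2 : (a : ℝ) ≤ X := by exact_mod_cast (hSX a ha).2
    rw [← mul_sub, abs_mul, Nat.abs_cast]
    have h1 : |φ - (b : ℝ) / q| ≤ 1 / ((4 * X + 1) * q) := by
      rw [← hrb]; push_cast at hr1; exact hr1
    calc (a : ℝ) * |φ - (b : ℝ) / q| ≤ X * (1 / ((4 * X + 1) * q)) :=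
          mul_le_mul ha2 h1 (abs_nonneg _) hX0.le
      _ ≤ 1 / (4 * q) := by
          rw [mul_one_div, div_le_div_iff₀ (by positivity) (by positivity)]
          nlinarith
  have hfrac : ∀ a ∈ S, nz ((a : ℝ) * (b / q)) ≤ t + 1 / (4 * q) := by
    intro a ha
    have h1 : (a : ℝ) * (b / q) = a * φ - (a * φ - a * (b / q)) := by ring
    rw [h1]
    refine (Pool.Agent.H53.MID.nz_sub _ _).trans (add_le_add (hSt a ha) ?_)
    exact (Pool.Agent.H53.MID.nz_le_abs _).trans (hnear a ha)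
  have hSne : S.Nonempty := by
    rw [← Finset.card_pos]
    have h1 : (0 : ℝ) < S.card := lt_of_le_of_lt (by positivity) hS
    exact_mod_cast h1
  rcases Nat.lt_or_ge P q with hPq | hqP
  · -- large denominators: counting
    exfalso
    have hPq' : (P : ℝ) < q := by exact_mod_cast hPq
    set f : ℕ → ℤ := fun a => (a : ℤ) * b - q * round ((a : ℝ) * (b / q)) with hf
    have hfb : ∀ a ∈ S, |((f a : ℤ) : ℝ)| ≤ t * q + 1 / 4 := by
      intro a ha
      have h1 := hfrac a ha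
      have h2 : ((f a : ℤ) : ℝ) = q * ((a : ℝ) * (b / q) - round ((a : ℝ) * (b / q))) := by
        rw [hf]; push_cast; field_simp
      rw [h2, abs_mul, Nat.abs_cast]
      have h3 : |(a : ℝ) * (b / q) - round ((a : ℝ) * (b / q))| ≤ t + 1 / (4 * q) := h1
      calc (q : ℝ) * |(a : ℝ) * (b / q) - round ((a : ℝ) * (b / q))| ≤ q * (t + 1 / (4 * q)) :=
            mul_le_mul_of_nonneg_left h3 hq0.le
        _ = t * q + 1 / 4 := by field_simp
    have hfib : ∀ z ∈ S.image f, (S.filter (fun a => f a = z)).card ≤ X / q + 1 := by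
      intro z _
      refine Nd_class X q hqpos _ (fun a ha => (hSX a (Finset.mem_filter.mp ha).1).2) ?_
      intro a ha a' ha'
      rw [Finset.mem_filter] at ha ha'
      have h1 : f a = f a' := ha.2.trans ha'.2.symm
      have h2 : (q : ℤ) ∣ ((a : ℤ) - a') * b := by
        refine ⟨round ((a : ℝ) * (b / q)) - round ((a' : ℝ) * (b / q)), ?_⟩
        simp only [hf] at h1
        linear_combination h1
      have h3 : (q : ℤ) ∣ (a : ℤ) - a' := hcop.symm.dvd_of_dvd_mul_right h2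
      have h4 : (a' : ℤ) ≡ a [ZMOD q] := (Int.modEq_iff_dvd).mpr h3
      have h5 : (a' : ℕ) ≡ a [MOD q] := (Int.natCast_modEq_iff).mp h4
      exact h5.symm
    have hc1 := Finset.card_le_mul_card_image S (X / q + 1) hfib
    have hc2 : ((S.image f).card : ℝ) ≤ 2 * (t * q + 1 / 4) + 1 := by
      refine Nd_int_card _ _ (by positivity) ?_
      intro k hk
      rw [Finset.mem_image] at hk
      obtain ⟨a, ha, rfl⟩ := hk
      exact hfb a ha
    have hc3 : ((X / q : ℕ) : ℝ) ≤ X / q := Nat.cast_div_le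
    have hc4 : (S.card : ℝ) ≤ (X / q + 1) * (2 * (t * q + 1 / 4) + 1) := by
      calc (S.card : ℝ) ≤ (((X / q : ℕ) : ℝ) + 1) * ((S.image f).card : ℝ) := by exact_mod_cast hc1
        _ ≤ (X / q + 1) * (2 * (t * q + 1 / 4) + 1) :=
            mul_le_mul (by linarith) hc2 (Nat.cast_nonneg _) (by positivity)
    have hq4 : (q : ℝ) ≤ 4 * X := by exact_mod_cast hr2
    have e1 : ((X : ℝ) / q + 1) * (2 * (t * q + 1 / 4) + 1) = 2 * t * X + 3 / 2 * (X / q) + 2 * t * q + 3 / 2 := by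
      field_simp
      ring
    have e2 : (X : ℝ) / q ≤ X / P := div_le_div_of_nonneg_left hX0.le hP0 hPq'.le
    have e3 : t * q ≤ t * (4 * X) := mul_le_mul_of_nonneg_left hq4 ht
    have e4 : 3 * (X : ℝ) / P = 3 * (X / P) := by ring
    have e5 : (0 : ℝ) ≤ X / P := by positivity
    rw [e1] at hc4
    rw [e4] at hS
    linarith
  · rcases Nat.lt_or_ge 1 q with h1q | hq1
    · -- small denominators
      exfalso
      obtain ⟨a, ha⟩ := hSne
      have hac : Nat.Coprime a q := by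
        rw [Nat.coprime_iff_gcd_eq_one]
        by_contra hne
        obtain ⟨p, hp, hpd⟩ := Nat.exists_prime_and_dvd hne
        have h1 := hSr a ha p hp (hpd.trans (Nat.gcd_dvd_left _ _))
        have h2 := Nat.le_of_dvd hqpos (hpd.trans (Nat.gcd_dvd_right _ _))
        omega
      have hnd : ¬ ((q : ℕ) : ℤ) ∣ (a : ℤ) * b := by
        intro hd
        have h1 : IsCoprime ((a : ℤ) * b) (q : ℤ) :=
          IsCoprime.mul_left (Nat.isCoprime_iff_coprime.mpr hac) hcop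
        have h2 : IsUnit ((q : ℕ) : ℤ) := h1.isUnit_of_dvd' hd (dvd_refl _)
        rw [Int.isUnit_iff_natAbs_eq, Int.natAbs_natCast] at h2
        omega
      have h1 := Pool.Agent.H53.MID.nz_frac_ge ((a : ℤ) * b) q hqpos hnd
      have h2 : (((a : ℤ) * b : ℤ) : ℝ) / q = (a : ℝ) * (b / q) := by push_cast; ring
      rw [h2] at h1
      have h3 := h1.trans (hfrac a ha)
      have h4 : 3 ≤ 4 * t * q := by
        have h5 : 1 / (q : ℝ) - 1 / (4 * q) ≤ t := by linarith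
        have h6 : 1 / (q : ℝ) - 1 / (4 * q) = 3 / (4 * q) := by field_simp; ring
        rw [h6, div_le_iff₀ (by positivity)] at h5
        linarith
      have h5 : (q : ℝ) ≤ P := by exact_mod_cast hqP
      have h6 : 4 * t * q ≤ 4 * t * P := mul_le_mul_of_nonneg_left h5 (by positivity)
      linarith
    · -- denominator one
      have hq1' : q = 1 := by omega
      obtain ⟨a, ha⟩ := hSne
      have hY' : (Y : ℝ) ≤ a := by exact_mod_cast (hSX a ha).1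
      have h1 := hnear a ha
      rw [hq1'] at h1
      have h2 : |(a : ℝ) * (φ - b)| ≤ 1 / 4 := by
        have e : (a : ℝ) * (φ - b) = a * φ - a * (b / ((1 : ℕ) : ℝ)) := by push_cast; ring
        rw [e]
        refine h1.trans ?_
        norm_num
      have h3 : nz ((a : ℝ) * φ) = |(a : ℝ) * (φ - b)| := by
        have e : (a : ℝ) * (φ - b) = a * φ - ((a * b : ℤ) : ℝ) := by push_cast; ring
        rw [← Pool.Agent.H53.MID.nz_eq_abs _ (lt_of_le_of_lt h2 (by norm_num)), e,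
          Pool.Agent.H53.MID.nz_sub_int]
      have h4 := hSt a ha
      rw [h3, abs_mul, Nat.abs_cast] at h4
      have h5 : (Y : ℝ) * |φ - b| ≤ t := (mul_le_mul_of_nonneg_right hY' (abs_nonneg _)).trans h4
      refine (Pool.Agent.H53.MID.nz_le_of φ b).trans ?_
      rw [le_div_iff₀ hY0]
      linarith

end Pool.Agent.H74.MDX

end

section

/-!
# MDX DsInt: the total number of descendants, and intersections

`ds_tot`: `a ∈ [P^j, (2P)^j]` takes at most `(2P)^j - P^j + 1 ≤ (2P)^j` values and for each `a ≥ P^j` there are at most `2D+1` values `i` with `|i a - M P^j| ≤ D P^j`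
(`|i - M P^j/a| ≤ D`, `int_card`).
`ds_int`: let `S` be the set of the first coordinates of the intersection.  The intersection has at most `(2D+1) |S|` elements (as before), so
`|S| > 5 X/P`, `X = (2P)^(j+1)`.  For `a ∈ S`: `nz (a (γ - γ')) ≤ 2τ` (`nz_sub`/`nz_triangle`, both `a γ` and `a γ'` are within `τ` of `α i`).  Apply `nd_rough` with `Y = P^(j+1)`,
`t = 2τ`, `φ = γ - γ'`: `4 t P = 8 τ P < 3`, `10 t X + 3 X/P + 3 ≤ X/(2P) + 3X/P + (3/2) X/P = 5 X/P` (`40 τ P ≤ 1`, `X/P ≥ 2`).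
-/

set_option autoImplicit false

namespace Pool.Agent.H74.MDX

open Finset
open Pool.Agent.H53.MID (nz nz_sub Rel Desc)

private theorem DsInt_fib (P j M : ℕ) (D : ℝ) (U : Finset (ℕ × ℕ)) (hP : 1 ≤ P) (hD : 0 ≤ D)
    (hU : ∀ t ∈ U, P ^ j ≤ t.1 ∧ |(t.2 : ℝ) * t.1 - M * (P : ℝ) ^ j| ≤ D * (P : ℝ) ^ j) :
    (U.card : ℝ) ≤ (2 * D + 1) * ((U.image Prod.fst).card : ℝ) := by
  have hP0 : (0 : ℝ) < (P : ℝ) ^ j := by
    have : (0 : ℝ) < P := by exact_mod_cast hP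
    positivity
  have h1 : U.card = ∑ a ∈ U.image Prod.fst, (U.filter (fun t => t.1 = a)).card :=
    Finset.card_eq_sum_card_fiberwise (fun t ht => Finset.mem_image_of_mem _ ht)
  have h2 : ∀ a ∈ U.image Prod.fst, ((U.filter (fun t => t.1 = a)).card : ℝ) ≤ 2 * D + 1 := by
    intro a ha
    obtain ⟨t0, ht0, rfl⟩ := Finset.mem_image.1 ha
    have ha1 : (P : ℝ) ^ j ≤ (t0.1 : ℝ) := by exact_mod_cast (hU t0 ht0).1
    have ha0 : (0 : ℝ) < (t0.1 : ℝ) := lt_of_lt_of_le hP0 ha1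
    have h3 : (U.filter (fun t => t.1 = t0.1)).card = ((U.filter (fun t => t.1 = t0.1)).image Prod.snd).card := by
      rw [Finset.card_image_of_injOn]
      intro x hx y hy hxy
      have hx1 := (Finset.mem_filter.1 (Finset.mem_coe.1 hx)).2
      have hy1 := (Finset.mem_filter.1 (Finset.mem_coe.1 hy)).2
      exact Prod.ext (hx1.trans hy1.symm) hxy
    rw [h3]
    refine int_card _ (M * (P : ℝ) ^ j / t0.1) D hD ?_
    intro k hk
    obtain ⟨t, ht, rfl⟩ := Finset.mem_image.1 hk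
    obtain ⟨ht1, ht2⟩ := Finset.mem_filter.1 ht
    have h4 := (hU t ht1).2
    rw [ht2] at h4
    have h5 : (t.2 : ℝ) - M * (P : ℝ) ^ j / t0.1 = ((t.2 : ℝ) * t0.1 - M * (P : ℝ) ^ j) / t0.1 := by
      field_simp
    rw [h5, abs_div, abs_of_pos ha0, div_le_iff₀ ha0]
    refine h4.trans ?_
    exact mul_le_mul_of_nonneg_left ha1 hD
  rw [h1]
  push_cast
  refine (Finset.sum_le_sum h2).trans (le_of_eq ?_)
  rw [Finset.sum_const, nsmul_eq_mul]
  ring

theorem ds_tot (P j M : ℕ) (D : ℝ) (U : Finset (ℕ × ℕ)) (hP : 1 ≤ P) (hD : 0 ≤ D)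
    (hU : ∀ t ∈ U, P ^ j ≤ t.1 ∧ t.1 ≤ (2 * P) ^ j ∧ |(t.2 : ℝ) * t.1 - M * (P : ℝ) ^ j| ≤ D * (P : ℝ) ^ j) :
    (U.card : ℝ) ≤ (2 * D + 1) * (2 * P) ^ j := by
  have h1 := DsInt_fib P j M D U hP hD (fun t ht => ⟨(hU t ht).1, (hU t ht).2.2⟩)
  have h2 : (U.image Prod.fst) ⊆ Icc (P ^ j) ((2 * P) ^ j) := by
    intro a ha
    obtain ⟨t, ht, rfl⟩ := Finset.mem_image.1 ha
    exact Finset.mem_Icc.2 ⟨(hU t ht).1, (hU t ht).2.1⟩
  have h3 := Finset.card_le_card h2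
  rw [Nat.card_Icc] at h3
  have h4 : 1 ≤ P ^ j := Nat.one_le_pow _ _ hP
  have h5 : (U.image Prod.fst).card ≤ (2 * P) ^ j := by omega
  have h6 : ((U.image Prod.fst).card : ℝ) ≤ (2 * P) ^ j := by exact_mod_cast h5
  exact h1.trans (mul_le_mul_of_nonneg_left h6 (by linarith))

open Classical in
theorem ds_int (P j M : ℕ) (D τ : ℝ) (F : Finset ℕ) (α : ℕ → ℝ) (γ γ' : ℝ) (hP : 1 ≤ P) (hD : 0 ≤ D) (hτ : 0 ≤ τ)
    (hτP : 40 * τ * P ≤ 1)
    (h : 5 * (2 * D + 1) * (2 * P) ^ (j + 1) / P <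
      ((DS P (j + 1) D τ F α (M, γ) ∩ DS P (j + 1) D τ F α (M, γ')).card : ℝ)) :
    nz (γ - γ') ≤ 2 * τ / (P : ℝ) ^ (j + 1) := by
  set U := DS P (j + 1) D τ F α (M, γ) ∩ DS P (j + 1) D τ F α (M, γ') with hUdef
  have hPr : (0 : ℝ) < P := by exact_mod_cast hP
  have hP1 : (1 : ℝ) ≤ P := by exact_mod_cast hP
  have hU : ∀ t ∈ U, t ∈ DS P (j + 1) D τ F α (M, γ) ∧ t ∈ DS P (j + 1) D τ F α (M, γ') := by
    intro t ht
    exact Finset.mem_inter.1 ht
  have h1 := DsInt_fib P (j + 1) M D U hP hD (fun t ht =>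
    ⟨(mem_DS.1 (hU t ht).1).1, (mem_DS.1 (hU t ht).1).2.2.2.2.1⟩)
  have hD1 : 0 < 2 * D + 1 := by linarith
  have hX : (1 : ℝ) ≤ (2 * (P : ℝ)) ^ j := one_le_pow₀ (by linarith)
  have hX2 : (2 * (P : ℝ)) ^ (j + 1) = (2 * (P : ℝ)) ^ j * (2 * P) := pow_succ _ _
  have hXP : (2 * (P : ℝ)) ^ (j + 1) / P = 2 * (2 * (P : ℝ)) ^ j := by
    rw [hX2]
    field_simp
  have h2 : 5 * ((2 * (P : ℝ)) ^ (j + 1) / P) < ((U.image Prod.fst).card : ℝ) := by
    have h3 := h.trans_le h1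
    have h4 : 5 * (2 * D + 1) * (2 * (P : ℝ)) ^ (j + 1) / P = (2 * D + 1) * (5 * ((2 * (P : ℝ)) ^ (j + 1) / P)) := by
      ring
    rw [h4] at h3
    exact lt_of_mul_lt_mul_left h3 hD1.le
  have h5 := nd_rough P ((2 * P) ^ (j + 1)) (P ^ (j + 1)) (2 * τ) (γ - γ') (U.image Prod.fst) hP
    (Nat.one_le_pow _ _ hP) (Nat.one_le_pow _ _ (by omega)) (by linarith) (by nlinarith)
    (by
      intro a ha
      obtain ⟨t, ht, rfl⟩ := Finset.mem_image.1 ha
      exact ⟨(mem_DS.1 (hU t ht).1).1, (mem_DS.1 (hU t ht).1).2.1⟩)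
    (by
      intro a ha
      obtain ⟨t, ht, rfl⟩ := Finset.mem_image.1 ha
      exact (mem_DS.1 (hU t ht).1).2.2.2.1)
    (by
      intro a ha
      obtain ⟨t, ht, rfl⟩ := Finset.mem_image.1 ha
      have h6 := (mem_DS.1 (hU t ht).1).2.2.2.2.2
      have h7 := (mem_DS.1 (hU t ht).2).2.2.2.2.2
      have h8 : (t.1 : ℝ) * (γ - γ') = (t.1 * γ - α t.2) - (t.1 * γ' - α t.2) := by ring
      rw [h8]
      refine (nz_sub _ _).trans ?_
      simp only at h6 h7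
      linarith)
    (by
      push_cast
      rw [mul_div_assoc, hXP]
      rw [hXP] at h2
      have h9 : 10 * (2 * τ) * (2 * (P : ℝ)) ^ (j + 1) ≤ (2 * (P : ℝ)) ^ j := by
        rw [hX2]
        have h10 : 10 * (2 * τ) * ((2 * (P : ℝ)) ^ j * (2 * P)) = (40 * τ * P) * (2 * (P : ℝ)) ^ j := by ring
        rw [h10]
        have h11 := mul_le_mul_of_nonneg_right hτP (by linarith : (0 : ℝ) ≤ (2 * (P : ℝ)) ^ j)
        linarith
      linarith)
  push_cast at h5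
  exact h5

end Pool.Agent.H74.MDX

end
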