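import Pool.Agent.H43.PJ.M03
import Pool.Agent.H43.PJ.M23

/-! The parts of this file: H74.MDX.TopX, H74.MDX.Cnt, H74.MDX.StepE, H74.MDX.Fib0, H74.MDX.FibA, H74.MDX.FibB, H74.MDX.CntS, H74.MDX.Nodes, H74.MDX.NodesP, H74.MDX.Step, H74.MDX.Combx. -/

section

/-!
# MDX TopX: `top` of `H53/MID/Top.lean` with the explicit constant `48 D^6`

The proof is the proof of `Pool.Agent.H53.MID.top` (copy the file `Pool/Agent/H53/MID/Top.lean` with its private lemmas renamed `TopX_..`; there the constant is introduced by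
`refine ⟨48 * D ^ 6, ..⟩`).
-/

set_option autoImplicit false

namespace Pool.Agent.H74.MDX

open Finset
open Pool.Agent.H53.MID (nz Rel Desc)
open Pool.Agent.H53.MID (nz_sub nz_exists nz_frac_ge nz_le_abs nz_add_int nz_eq_abs nz_add nz_neg)

private theorem TopX_gap (A : Finset ℕ) (hA : 2 ≤ A.card) : ∃ u ∈ A, ∃ v ∈ A, ∃ x ∈ A, ∃ y ∈ A,
    u ≤ v ∧ x < y ∧ (y - x) * (A.card - 1) ≤ v - u ∧ A.card ≤ v - u + 1 := by
  have hne : A.Nonempty := Finset.card_pos.mp (by omega)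
  set u := A.min' hne with hu
  set v := A.max' hne with hv
  have hu1 : ∀ z ∈ A, u ≤ z := fun z hz => A.min'_le z hz
  have hv1 : ∀ z ∈ A, z ≤ v := fun z hz => A.le_max' z hz
  have huA : u ∈ A := A.min'_mem hne
  have hvA : v ∈ A := A.max'_mem hne
  have huv : u ≤ v := hu1 v hvA
  have hcard : A.card ≤ v - u + 1 := by
    have hsub : A ⊆ Finset.Icc u v := fun z hz => Finset.mem_Icc.mpr ⟨hu1 z hz, hv1 z hz⟩
    have := Finset.card_le_card hsub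
    rw [Nat.card_Icc] at this
    omega
  set L := (v - u) / (A.card - 1) + 1 with hL
  have hLpos : 0 < L := Nat.succ_pos _
  have hmaps : Set.MapsTo (fun z : ℕ => (z - u) / L) (A : Set ℕ) (Finset.range (A.card - 1) : Set ℕ) := by
    intro z hz
    have hz' : z ∈ A := hz
    simp only [Finset.coe_range, Set.mem_Iio]
    rw [Nat.div_lt_iff_lt_mul hLpos]
    have h1 : z - u ≤ v - u := Nat.sub_le_sub_right (hv1 z hz') u
    have h2 : v - u < (A.card - 1) * L := Nat.lt_mul_div_succ _ (by omega)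
    exact lt_of_le_of_lt h1 h2
  obtain ⟨x, hx, y, hy, hxy, hf⟩ := Finset.exists_ne_map_eq_of_card_lt_of_maps_to
    (by rw [Finset.card_range]; omega) hmaps
  have key : ∀ x ∈ A, ∀ y ∈ A, x < y → (x - u) / L = (y - u) / L →
      (y - x) * (A.card - 1) ≤ v - u := by
    intro x hx y hy hxy hf
    have h1 : y - x < L := by
      have e1 := Nat.div_add_mod (x - u) L
      have e2 := Nat.div_add_mod (y - u) L
      have e3 := Nat.mod_lt (y - u) hLpos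
      rw [hf] at e1
      have e4 := hu1 x hx
      have e5 := hu1 y hy
      omega
    have h2 : y - x ≤ (v - u) / (A.card - 1) := by omega
    exact (Nat.mul_le_mul_right _ h2).trans (Nat.div_mul_le_self _ _)
  rcases lt_or_gt_of_ne hxy with h | h
  · exact ⟨u, huA, v, hvA, x, hx, y, hy, huv, h, key x hx y hy h hf, hcard⟩
  · exact ⟨u, huA, v, hvA, y, hy, x, hx, huv, h, key y hy x hx h hf.symm, hcard⟩

/-- the elements of a set of naturals with bounded differences -/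
private theorem TopX_card (A : Finset ℕ) (X : ℝ) (hX : 0 ≤ X)
    (h : ∀ x ∈ A, ∀ y ∈ A, (y : ℝ) - x ≤ X) : (A.card : ℝ) ≤ X + 1 := by
  rcases A.eq_empty_or_nonempty with rfl | hne
  · simp only [Finset.card_empty, Nat.cast_zero]
    linarith
  · have hsub : A ⊆ Finset.Icc (A.min' hne) (A.max' hne) := fun z hz =>
      Finset.mem_Icc.mpr ⟨A.min'_le z hz, A.le_max' z hz⟩
    have h1 := Finset.card_le_card hsub
    rw [Nat.card_Icc] at h1
    have h2 := h _ (A.min'_mem hne) _ (A.max'_mem hne)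
    have h3 : A.min' hne ≤ A.max' hne := A.min'_le _ (A.max'_mem hne)
    have h4 : A.card + A.min' hne ≤ A.max' hne + 1 := by omega
    have h5 : (A.card : ℝ) + (A.min' hne : ℕ) ≤ (A.max' hne : ℕ) + 1 := by exact_mod_cast h4
    linarith only [hne, h2, h5]

/-- the fibres of the second coordinate -/
private def TopX_fib (S : Finset (ℕ × ℕ)) (i : ℕ) : Finset ℕ :=
  (S.filter fun t => t.2 = i).image Prod.fst

private theorem TopX_mem_fib {S : Finset (ℕ × ℕ)} {i x : ℕ} : x ∈ TopX_fib S i ↔ (x, i) ∈ S := by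
  unfold TopX_fib
  simp only [Finset.mem_image, Finset.mem_filter]
  constructor
  · rintro ⟨⟨a, b⟩, ⟨h1, h2⟩, h3⟩
    simp only at h2 h3
    rw [← h3, ← h2]
    exact h1
  · intro h
    exact ⟨(x, i), ⟨h, rfl⟩, rfl⟩

private theorem TopX_card_fib (S : Finset (ℕ × ℕ)) (i : ℕ) :
    (TopX_fib S i).card = (S.filter fun t => t.2 = i).card := by
  unfold TopX_fib
  apply Finset.card_image_of_injOn
  rintro ⟨a, b⟩ h1 ⟨c, e⟩ h2 h3
  simp only [Finset.coe_filter, Set.mem_ofPred_eq] at h1 h2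
  simp only at h3
  rw [h3, h1.2, h2.2]

private theorem TopX_sum (S : Finset (ℕ × ℕ)) (F : Finset ℕ) (h : ∀ t ∈ S, t.2 ∈ F) :
    S.card = ∑ i ∈ F, (TopX_fib S i).card := by
  rw [Finset.card_eq_sum_card_fiberwise (f := Prod.snd) (t := F) h]
  exact Finset.sum_congr rfl fun i _ => (TopX_card_fib S i).symm

private theorem TopX_pig (s t : Finset ℕ) (f : ℕ → ℕ) (hf : ∀ x ∈ s, f x ∈ t) (ht : t.Nonempty) :
    ∃ y ∈ t, s.card ≤ t.card * (s.filter fun x => f x = y).card := by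
  by_contra hcon
  push Not at hcon
  have h1 : ∑ y ∈ t, t.card * (s.filter fun x => f x = y).card < ∑ _y ∈ t, s.card :=
    Finset.sum_lt_sum_of_nonempty ht hcon
  rw [← Finset.mul_sum, ← Finset.card_eq_sum_card_fiberwise hf, Finset.sum_const, smul_eq_mul] at h1
  exact lt_irrefl _ h1

theorem topx (D : ℝ) (hD : 1 ≤ D) : ∀ (n P J K : ℕ) (ρ η w : ℝ) (F0 : Finset ℕ) (α : ℕ → ℝ)
    (S : Finset (ℕ × ℕ)), 1 ≤ n → 1 ≤ P → 0 < ρ → ρ ≤ 1 → 0 ≤ η → (n : ℝ) * P ≤ (P : ℝ) ^ J → (P : ℝ) ^ J ≤ n * (P : ℝ) ^ 2 →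
    (∀ i ∈ F0, (n : ℝ) / D ≤ i ∧ (i : ℝ) ≤ D * n) → (n : ℝ) / D ≤ K → (K : ℝ) ≤ D * n → 48 * D ^ 6 ≤ ρ * P →
    48 * D ^ 6 * η * (P : ℝ) ^ 2 ≤ ρ → Desc P J D (D * η) F0 α K w S → ρ * (P : ℝ) ^ J ≤ S.card →
    ∃ (d : ℕ) (b : ℕ) (T : ℝ) (F1 : Finset ℕ), 1 ≤ d ∧ d * ρ ≤ 48 * D ^ 6 ∧ |T| * ρ ≤ 48 * D ^ 6 * η * (n : ℝ) ^ 2 ∧
      F1 ⊆ F0 ∧ ρ ^ 2 * n ≤ 48 * D ^ 6 * F1.card ∧ ∀ i ∈ F1, nz (α i - b / d - T / i) * ρ ≤ 48 * D ^ 6 * η := by
  have hD0 : 0 < D := by linarith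
  have hp1 : ∀ k : ℕ, 1 ≤ D ^ k := fun k => one_le_pow₀ hD
  intro n P J K ρ η w F0 α S hn hP hρ hρ1 hη hJ1 hJ2 hF0 hK1 hK2 hPρ hηρ hS hcard
  have hn1 : (1 : ℝ) ≤ n := by exact_mod_cast hn
  have hn0 : (0 : ℝ) < n := by linarith only [hn1]
  have hP1 : (1 : ℝ) ≤ P := by exact_mod_cast hP
  have hP0 : (0 : ℝ) < P := by linarith
  set Q : ℝ := (P : ℝ) ^ J with hQ
  have hQ0 : 0 < Q := by positivity
  set X : ℝ := 2 * D ^ 2 * Q / n with hX
  have hX0 : 0 < X := by positivity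
  have hXn : X * n = 2 * D ^ 2 * Q := by rw [hX]; field_simp
  have hX2 : 2 ≤ X := by
    rw [hX, le_div_iff₀ hn0]
    have h1 : (n : ℝ) ≤ n * P := by nlinarith only [hP1]
    have h2 : 1 * Q ≤ D ^ 2 * Q := by nlinarith only [hQ0, hp1, hp1 2]
    linarith
  have hi0 : ∀ i ∈ F0, (0 : ℝ) < i := fun i hi => lt_of_lt_of_le (by positivity) (hF0 i hi).1
  have hiD : ∀ i ∈ F0, (n : ℝ) ≤ D * i := by
    intro i hi
    have := (hF0 i hi).1
    rw [div_le_iff₀ hD0] at this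
    linarith
  -- the fibres are short
  have hfib : ∀ i ∈ F0, ∀ x ∈ TopX_fib S i, ∀ y ∈ TopX_fib S i, (y : ℝ) - x ≤ X := by
    intro i hi x hx y hy
    rw [TopX_mem_fib] at hx hy
    have h1 := hS.pos _ hx
    have h2 := hS.pos _ hy
    simp only [abs_le] at h1 h2
    rw [← hQ] at h1 h2
    have h3 : (i : ℝ) * ((y : ℝ) - x) ≤ 2 * (D * Q) := by linarith [h1.1, h2.2]
    rcases le_or_gt ((y : ℝ) - x) 0 with h4 | h4
    · linarith
    · have h5 : (n : ℝ) * ((y : ℝ) - x) ≤ D * (i * ((y : ℝ) - x)) := by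
        rw [← mul_assoc]
        exact mul_le_mul_of_nonneg_right (hiD i hi) h4.le
      have h6 : (n : ℝ) * ((y : ℝ) - x) ≤ n * X := by
        have h7 : D * ((i : ℝ) * ((y : ℝ) - x)) ≤ D * (2 * (D * Q)) :=
          mul_le_mul_of_nonneg_left h3 hD0.le
        calc (n : ℝ) * ((y : ℝ) - x) ≤ D * (2 * (D * Q)) := h5.trans h7
          _ = n * X := by rw [mul_comm (n : ℝ) X, hXn]; ring
      exact le_of_mul_le_mul_left h6 hn0
  have hScard0 : (0 : ℝ) < S.card := lt_of_lt_of_le (by positivity) hcard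
  have hSne : S.Nonempty := by
    rw [← Finset.card_pos]
    exact_mod_cast hScard0
  have hF0ne : F0.Nonempty := by
    obtain ⟨t, ht⟩ := hSne
    exact ⟨_, hS.mem t ht⟩
  have hF0card : (F0.card : ℝ) ≤ D * n := by
    have hsub : F0 ⊆ Finset.Icc 1 ⌊D * n⌋₊ := by
      intro i hi
      rw [Finset.mem_Icc]
      refine ⟨?_, Nat.le_floor (hF0 i hi).2⟩
      have := hi0 i hi
      exact_mod_cast this
    have h1 := Finset.card_le_card hsub
    rw [Nat.card_Icc, Nat.add_sub_cancel] at h1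
    exact (Nat.cast_le.mpr h1).trans (Nat.floor_le (by positivity))
  -- (1) a large fibre
  obtain ⟨i0, hi0F, hbig⟩ : ∃ i ∈ F0, ρ * Q ≤ D * n * (TopX_fib S i).card := by
    by_contra hcon
    push Not at hcon
    have h1 : ∑ i ∈ F0, D * n * ((TopX_fib S i).card : ℝ) < ∑ _i ∈ F0, ρ * Q :=
      Finset.sum_lt_sum_of_nonempty hF0ne hcon
    have h2 : (S.card : ℝ) = ∑ i ∈ F0, ((TopX_fib S i).card : ℝ) := by
      rw [TopX_sum S F0 hS.mem]
      push_cast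
      rfl
    rw [← Finset.mul_sum, ← h2, Finset.sum_const, nsmul_eq_mul] at h1
    have h3 : (F0.card : ℝ) * (ρ * Q) ≤ D * n * (ρ * Q) :=
      mul_le_mul_of_nonneg_right hF0card (by positivity)
    have h4 : D * n * (ρ * Q) ≤ D * n * S.card := mul_le_mul_of_nonneg_left hcard (by positivity)
    linarith only [h1, h3, h4]
  set A := TopX_fib S i0 with hA
  set m : ℝ := (A.card : ℝ) with hm
  have hm48 : 48 ≤ m := by
    have h1 : ρ * (n * P) ≤ ρ * Q := mul_le_mul_of_nonneg_left hJ1 hρ.le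
    have h2 : n * (ρ * P) ≤ n * (D * m) := by nlinarith only [hbig, h1]
    have h3 : ρ * P ≤ D * m := le_of_mul_le_mul_left h2 hn0
    have h4 : D * 48 ≤ D * m := by
      have h5 : D ≤ D ^ 6 := le_self_pow₀ hD (by norm_num)
      linarith
    exact le_of_mul_le_mul_left h4 hD0
  have hA2 : 2 ≤ A.card := by
    have : (2 : ℝ) ≤ A.card := by linarith
    exact_mod_cast this
  obtain ⟨u, hu, v, hv, x, hx, y, hy, huv, hxy, hgap, hcm⟩ := TopX_gap A hA2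
  set d : ℕ := y - x with hd
  have hd1 : 1 ≤ d := by omega
  have hd1r : (1 : ℝ) ≤ d := by exact_mod_cast hd1
  have hd0r : (0 : ℝ) < d := by linarith only [hd1r]
  have hdr : (d : ℝ) = y - x := by rw [hd, Nat.cast_sub hxy.le]
  set Δ : ℕ := v - u with hΔ
  have hΔr : (Δ : ℝ) = v - u := by rw [hΔ, Nat.cast_sub huv]
  have hΔX : (Δ : ℝ) ≤ X := by rw [hΔr]; exact hfib i0 hi0F u hu v hv
  have hgapr : (d : ℝ) * (m - 1) ≤ Δ := by
    have h1 : ((d * (A.card - 1) : ℕ) : ℝ) ≤ (Δ : ℕ) := Nat.cast_le.mpr hgap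
    rw [Nat.cast_mul, Nat.cast_sub (show 1 ≤ A.card by omega), Nat.cast_one] at h1
    exact h1
  have hcmr : m ≤ Δ + 1 := by
    have : (A.card : ℝ) ≤ ((Δ + 1 : ℕ) : ℝ) := Nat.cast_le.mpr hcm
    rw [Nat.cast_add, Nat.cast_one] at this
    exact this
  have hdm : (d : ℝ) * m ≤ 2 * X := by nlinarith only [hm48, hΔX, hgapr, hcmr]
  have hdρ : (d : ℝ) * ρ ≤ 4 * D ^ 3 := by
    have h1 : (d : ℝ) * (ρ * Q) ≤ d * (D * n * m) := mul_le_mul_of_nonneg_left hbig hd0r.le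
    have h2 : (d : ℝ) * (D * n * m) ≤ (D * n) * (2 * X) := by
      have : (d : ℝ) * (D * n * m) = (D * n) * (d * m) := by ring
      rw [this]
      exact mul_le_mul_of_nonneg_left hdm (by positivity)
    have h3 : (D * n) * (2 * X) = (4 * D ^ 3) * Q := by
      calc (D * n) * (2 * X) = 2 * D * (X * n) := by ring
        _ = (4 * D ^ 3) * Q := by rw [hXn]; ring
    have h4 : (d * ρ) * Q ≤ (4 * D ^ 3) * Q := by
      calc (d * ρ) * Q = d * (ρ * Q) := by ring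
        _ ≤ _ := h1.trans (h2.trans h3.le)
    exact le_of_mul_le_mul_right h4 hQ0
  have hnzd : ∀ x ∈ A, ∀ y ∈ A, nz (((y : ℝ) - x) * w) ≤ 2 * (D * η) := by
    intro x hx y hy
    rw [hA, TopX_mem_fib] at hx hy
    have h1 := hS.freq _ hx
    have h2 := hS.freq _ hy
    simp only at h1 h2
    have h3 : ((y : ℝ) - x) * w = (y * w - α i0) - (x * w - α i0) := by ring
    rw [h3]
    exact (nz_sub _ _).trans (by linarith only [h1, h2])
  obtain ⟨a0, ha0⟩ := nz_exists ((d : ℝ) * w)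
  have he : |(d : ℝ) * w - a0| ≤ 2 * (D * η) := by
    rw [ha0, hdr]
    exact hnzd x hx y hy
  set θ : ℝ := ((d : ℝ) * w - a0) / d with hθ
  have hw : w = a0 / d + θ := by
    rw [hθ]
    field_simp
    ring
  have hθ1 : |θ| ≤ 2 * (D * η) := by
    rw [hθ, abs_div, abs_of_pos hd0r, div_le_iff₀ hd0r]
    have : 2 * (D * η) * 1 ≤ 2 * (D * η) * d := mul_le_mul_of_nonneg_left hd1r (by positivity)
    linarith only [he, this]
  have hΔ0 : (0 : ℝ) ≤ Δ := Nat.cast_nonneg _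
  have hτX : 2 * (D * η) * X ≤ 4 * D ^ 3 * (η * (P : ℝ) ^ 2) := by
    have h1 : n * X ≤ n * (2 * D ^ 2 * (P : ℝ) ^ 2) := by
      rw [mul_comm (n : ℝ) X, hXn]
      have := mul_le_mul_of_nonneg_left hJ2 (show (0 : ℝ) ≤ 2 * D ^ 2 by positivity)
      linarith only [this]
    have h2 : X ≤ 2 * D ^ 2 * (P : ℝ) ^ 2 := le_of_mul_le_mul_left h1 hn0
    have h3 := mul_le_mul_of_nonneg_left h2 (show (0 : ℝ) ≤ 2 * (D * η) by positivity)
    linarith only [h3]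
  have hΔθ : |(Δ : ℝ) * θ| ≤ 4 * D ^ 3 * (η * (P : ℝ) ^ 2) := by
    rw [abs_mul, abs_of_nonneg hΔ0]
    calc (Δ : ℝ) * |θ| ≤ X * (2 * (D * η)) := by
          apply mul_le_mul hΔX hθ1 (abs_nonneg _) hX0.le
      _ = 2 * (D * η) * X := by ring
      _ ≤ _ := hτX
  set y2 : ℝ := η * (P : ℝ) ^ 2 with hy2
  have hy20 : 0 ≤ y2 := by positivity
  have hηy : η ≤ y2 := by
    have : 1 ≤ (P : ℝ) ^ 2 := one_le_pow₀ hP1
    nlinarith only [hη, this]
  have hηρ' : 48 * D ^ 6 * y2 ≤ ρ := by rw [hy2]; linarith only [hηρ]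
  have hΔw : nz ((Δ : ℝ) * w) ≤ 2 * (D * η) := by
    rw [hΔr]
    exact hnzd u hu v hv
  have hΔw2 : (Δ : ℝ) * w = ((Δ * a0 : ℤ) : ℝ) / d + Δ * θ := by
    push_cast
    nth_rewrite 1 [hw]
    ring
  have hdvd : (d : ℤ) ∣ (Δ * a0 : ℤ) := by
    by_contra hnd
    have h1 := nz_frac_ge (Δ * a0 : ℤ) d (by omega) hnd
    have h2 : nz (((Δ * a0 : ℤ) : ℝ) / d) ≤ 2 * (D * η) + 4 * D ^ 3 * y2 := by
      have h3 : ((Δ * a0 : ℤ) : ℝ) / d = (Δ : ℝ) * w - Δ * θ := by rw [hΔw2]; ring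
      rw [h3]
      exact (nz_sub _ _).trans (add_le_add hΔw ((nz_le_abs _).trans hΔθ))
    have h4 : 1 / (d : ℝ) ≤ 6 * D ^ 3 * y2 := by
      have h5 : D * η ≤ D ^ 3 * y2 := by
        apply mul_le_mul (le_self_pow₀ hD (by norm_num)) hηy hη (by positivity)
      linarith only [h1, h2, h5]
    have h6 : ρ ≤ 4 * D ^ 3 * (1 / (d : ℝ)) := by
      rw [mul_one_div, le_div_iff₀ hd0r]
      linarith only [hdρ]
    have h7 : 4 * D ^ 3 * (1 / (d : ℝ)) ≤ 4 * D ^ 3 * (6 * D ^ 3 * y2) :=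
      mul_le_mul_of_nonneg_left h4 (by positivity)
    have h8 : 4 * D ^ 3 * (6 * D ^ 3 * y2) = (48 * D ^ 6 * y2) / 2 := by ring
    linarith only [hρ, hηρ, h6, h7]
  obtain ⟨q, hq⟩ := hdvd
  have hΔθ2 : |(Δ : ℝ) * θ| ≤ 2 * (D * η) := by
    have h1 : (Δ : ℝ) * w = Δ * θ + (q : ℤ) := by
      rw [hΔw2, hq]
      push_cast
      field_simp
      ring
    rw [h1, nz_add_int] at hΔw
    rw [← nz_eq_abs]
    · exact hΔw
    · have h2 : D ^ 3 * y2 ≤ D ^ 6 * y2 :=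
        mul_le_mul_of_nonneg_right (pow_le_pow_right₀ hD (by norm_num)) hy20
      linarith only [hρ1, hηρ, hΔθ, h2]
  have hθm : |θ| * m ≤ 4 * (D * η) := by
    rw [abs_mul, abs_of_nonneg hΔ0] at hΔθ2
    have h1 : m ≤ 2 * Δ := by linarith only [hm48, hcmr]
    have h2 : |θ| * m ≤ |θ| * (2 * Δ) := mul_le_mul_of_nonneg_left h1 (abs_nonneg _)
    linarith only [hΔθ2, h2]
  have hθQ : |θ| * (ρ * Q) ≤ 4 * D ^ 2 * η * n := by
    have h1 : |θ| * (ρ * Q) ≤ |θ| * (D * n * m) := mul_le_mul_of_nonneg_left hbig (abs_nonneg _)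
    have h2 : |θ| * (D * n * m) = (D * n) * (|θ| * m) := by ring
    have h3 : (D * n) * (|θ| * m) ≤ (D * n) * (4 * (D * η)) :=
      mul_le_mul_of_nonneg_left hθm (by positivity)
    calc |θ| * (ρ * Q) ≤ (D * n) * (4 * (D * η)) := h1.trans (h2.le.trans h3)
      _ = 4 * D ^ 2 * η * n := by ring
  -- (4) the indices with a descendant
  set Fs := S.image Prod.snd with hFs
  have hFsF : Fs ⊆ F0 := by
    intro i hi
    rw [hFs, Finset.mem_image] at hi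
    obtain ⟨t, ht, rfl⟩ := hi
    exact hS.mem t ht
  have hFsc : ρ * n ≤ 4 * D ^ 2 * Fs.card := by
    have h1 : (S.card : ℝ) = ∑ i ∈ Fs, ((TopX_fib S i).card : ℝ) := by
      rw [TopX_sum S Fs (fun t ht => Finset.mem_image_of_mem _ ht)]
      push_cast
      rfl
    have h2 : ∑ i ∈ Fs, ((TopX_fib S i).card : ℝ) ≤ ∑ _i ∈ Fs, 2 * X := by
      apply Finset.sum_le_sum
      intro i hi
      have := TopX_card (TopX_fib S i) X hX0.le (hfib i (hFsF hi))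
      linarith only [hm48, hΔX, hcmr, this]
    rw [Finset.sum_const, nsmul_eq_mul] at h2
    have h3 : ρ * Q ≤ Fs.card * (2 * X) := hcard.trans (h1.le.trans h2)
    have h4 : (ρ * n) * Q ≤ (4 * D ^ 2 * Fs.card) * Q := by
      calc (ρ * n) * Q = n * (ρ * Q) := by ring
        _ ≤ n * (Fs.card * (2 * X)) := mul_le_mul_of_nonneg_left h3 hn0.le
        _ = 2 * Fs.card * (X * n) := by ring
        _ = (4 * D ^ 2 * Fs.card) * Q := by rw [hXn]; ring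
    exact le_of_mul_le_mul_right h4 hQ0
  have hex : ∀ i ∈ Fs, ∃ x : ℕ, (x, i) ∈ S := by
    intro i hi
    rw [hFs, Finset.mem_image] at hi
    obtain ⟨⟨x, i'⟩, ht, rfl⟩ := hi
    exact ⟨x, ht⟩
  choose! g hg using hex
  set f : ℕ → ℕ := fun i => (((g i : ℤ) * a0) % (d : ℤ)).toNat with hf
  have hdz : (0 : ℤ) < d := by exact_mod_cast hd1
  have hmaps : ∀ i ∈ Fs, f i ∈ Finset.range d := by
    intro i _
    rw [Finset.mem_range, hf]
    have h1 := Int.emod_nonneg ((g i : ℤ) * a0) hdz.ne'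
    have h2 := Int.emod_lt_of_pos ((g i : ℤ) * a0) hdz
    simp only
    omega
  obtain ⟨b, -, hb⟩ := TopX_pig Fs (Finset.range d) f hmaps ⟨0, Finset.mem_range.mpr hd1⟩
  rw [Finset.card_range] at hb
  have hbr : (Fs.card : ℝ) ≤ d * (Fs.filter fun i => f i = b).card := by exact_mod_cast hb
  refine ⟨d, b, θ * K * Q, Fs.filter fun i => f i = b, hd1, ?_, ?_, ?_, ?_, ?_⟩
  · have : D ^ 3 ≤ D ^ 6 := pow_le_pow_right₀ hD (by norm_num)
    linarith only [hdρ, this, hp1, hp1 6]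
  · rw [abs_mul, abs_mul, abs_of_nonneg (Nat.cast_nonneg K : (0 : ℝ) ≤ K), abs_of_pos hQ0]
    have h1 : |θ| * K * Q * ρ = K * (|θ| * (ρ * Q)) := by ring
    rw [h1]
    have h2 : (K : ℝ) * (|θ| * (ρ * Q)) ≤ (D * n) * (4 * D ^ 2 * η * n) :=
      mul_le_mul hK2 hθQ (by positivity) (by positivity)
    have h3 : (D * n) * (4 * D ^ 2 * η * n) = 4 * D ^ 3 * (η * n ^ 2) := by ring
    have h4 : D ^ 3 * (η * (n : ℝ) ^ 2) ≤ D ^ 6 * (η * (n : ℝ) ^ 2) :=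
      mul_le_mul_of_nonneg_right (pow_le_pow_right₀ hD (by norm_num)) (by positivity)
    have h5 : 0 ≤ D ^ 6 * (η * (n : ℝ) ^ 2) := by positivity
    calc (K : ℝ) * (|θ| * (ρ * Q)) ≤ 4 * D ^ 3 * (η * n ^ 2) := h2.trans h3.le
      _ ≤ 48 * D ^ 6 * η * (n : ℝ) ^ 2 := by linarith only [h4, h5]
  · exact (Finset.filter_subset _ _).trans hFsF
  · have h1 : ρ * (ρ * n) ≤ ρ * (4 * D ^ 2 * Fs.card) := mul_le_mul_of_nonneg_left hFsc hρ.le
    set c : ℝ := ((Fs.filter fun i => f i = b).card : ℝ) with hc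
    have hc0 : 0 ≤ c := Nat.cast_nonneg _
    have h2 : ρ * (4 * D ^ 2 * Fs.card) ≤ ρ * (4 * D ^ 2 * (d * c)) := by
      apply mul_le_mul_of_nonneg_left _ hρ.le
      exact mul_le_mul_of_nonneg_left hbr (by positivity)
    have h3 : ρ * (4 * D ^ 2 * (d * c)) = (4 * D ^ 2 * c) * (d * ρ) := by ring
    have h4 : (4 * D ^ 2 * c) * (d * ρ) ≤ (4 * D ^ 2 * c) * (4 * D ^ 3) :=
      mul_le_mul_of_nonneg_left hdρ (mul_nonneg (by positivity) hc0)
    have h5 : (4 * D ^ 2 * c) * (4 * D ^ 3) = 16 * (D ^ 5 * c) := by ring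
    have h6 : D ^ 5 * c ≤ D ^ 6 * c :=
      mul_le_mul_of_nonneg_right (pow_le_pow_right₀ hD (by norm_num)) hc0
    have h7 : 0 ≤ D ^ 6 * c := mul_nonneg (by positivity) hc0
    calc ρ ^ 2 * n = ρ * (ρ * n) := by ring
      _ ≤ 16 * (D ^ 5 * c) := h1.trans (h2.trans (h3.le.trans (h4.trans h5.le)))
      _ ≤ 48 * D ^ 6 * c := by linarith only [h6, h7]
  · intro i hi
    rw [Finset.mem_filter] at hi
    obtain ⟨hiFs, hfi⟩ := hi
    have hiF0 := hFsF hiFs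
    have hip := hi0 i hiF0
    have hgi := hg i hiFs
    have h1 := hS.freq _ hgi
    have h2 := hS.pos _ hgi
    simp only at h1 h2
    rw [← hQ] at h2
    have hbz : (b : ℤ) = ((g i : ℤ) * a0) % (d : ℤ) := by
      rw [← hfi, hf]
      simp only
      exact Int.toNat_of_nonneg (Int.emod_nonneg _ hdz.ne')
    have hq2 : (g i : ℝ) * a0 = d * (((g i : ℤ) * a0 / (d : ℤ) : ℤ) : ℝ) + b := by
      have h3 := Int.mul_ediv_add_emod ((g i : ℤ) * a0) (d : ℤ)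
      rw [← hbz] at h3
      have h4 : ((((d : ℤ) * ((g i : ℤ) * a0 / (d : ℤ)) + (b : ℤ) : ℤ)) : ℝ) = (((g i : ℤ) * a0 : ℤ) : ℝ) := by
        rw [h3]
      push_cast at h4
      linarith only [h4]
    set q2 : ℤ := (g i : ℤ) * a0 / (d : ℤ) with hq2d
    have hkey : α i - b / d - θ * K * Q / i =
        (-((g i : ℝ) * w - α i) + θ * ((i : ℝ) * g i - K * Q) / i) + (q2 : ℤ) := by
      rw [hw]
      have h5 : (b : ℝ) = (g i : ℝ) * a0 - d * q2 := by linarith only [hq2]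
      rw [h5]
      field_simp
      ring
    rw [hkey, nz_add_int]
    have h6 : nz (-((g i : ℝ) * w - α i) + θ * ((i : ℝ) * g i - K * Q) / i) ≤
        D * η + |θ| * (D * Q) / i := by
      refine (nz_add _ _).trans (add_le_add ?_ ?_)
      · rw [nz_neg]
        exact h1
      · refine (nz_le_abs _).trans ?_
        rw [abs_div, abs_mul, abs_of_pos hip]
        apply div_le_div_of_nonneg_right _ hip.le
        exact mul_le_mul_of_nonneg_left h2 (abs_nonneg _)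
    have h7 : |θ| * (D * Q) / i * ρ ≤ 4 * D ^ 4 * η := by
      rw [div_mul_eq_mul_div, div_le_iff₀ hip]
      have h8 : |θ| * (D * Q) * ρ = D * (|θ| * (ρ * Q)) := by ring
      rw [h8]
      calc D * (|θ| * (ρ * Q)) ≤ D * (4 * D ^ 2 * η * n) := mul_le_mul_of_nonneg_left hθQ hD0.le
        _ = 4 * D ^ 3 * η * n := by ring
        _ ≤ 4 * D ^ 3 * η * (D * i) := mul_le_mul_of_nonneg_left (hiD i hiF0) (by positivity)
        _ = 4 * D ^ 4 * η * i := by ring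
    have h9 := mul_le_mul_of_nonneg_right h6 hρ.le
    have h10 : D * η * ρ ≤ D ^ 6 * η := by
      have h11 : D * η * ρ ≤ D * η * 1 := mul_le_mul_of_nonneg_left hρ1 (by positivity)
      have h12 : D * η ≤ D ^ 6 * η :=
        mul_le_mul_of_nonneg_right (le_self_pow₀ hD (by norm_num)) hη
      linarith only [h11, h12]
    have h13 : D ^ 4 * η ≤ D ^ 6 * η :=
      mul_le_mul_of_nonneg_right (pow_le_pow_right₀ hD (by norm_num)) hη
    have h14 : 0 ≤ D ^ 6 * η := by positivity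
    rw [add_mul] at h9
    linarith only [h7, h9, h10, h13, h14]

end Pool.Agent.H74.MDX

end

section

/-!
# MDX Cnt: lower bound for the number of walks

Proof.  Induction on `j`.  `j = 0`: `Om R F 0` is in bijection with `F` (`w ↦ w.1 0`; `IsW` is trivial).
`j → j+1` (the bound `m - 2(j+1)κ ≥ 0` is assumed for `j+1`, so also for `j`): every `w ∈ Om R F j` with last vertex `i = v1 w ∈ F` is extended:
`(p, g)` with `(i, p, g) ∈ R` and `p` different from the `2j` primes of `w`: at least `m - 2jκ` (`h1`; for each `p` at most `κ` triples, `hM.out`);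
then `(i', q)` with `(i', q, g) ∈ R`, `q` different from the `2j+1` primes (`w` and `p`): at least `m - (2j+1)κ` (`h2`, `hM.inn`).  `i' ∈ F` by `hF`.
The walks `(Fin.snoc w.1 i', Fin.snoc w.2 (p, g, q))` are pairwise different.  So `|Om (j+1)| ≥ |Om j| (m - 2(j+1)κ)^2`.
A convenient form: map `Om R F (j+1)` to `Om R F j` by `Lw`; every fibre has at least `(m - 2(j+1)κ)^2` elements (`Finset.card_eq_sum_card_fiberwise`);
the fibre of `w` contains the image of the sigma type over `(i, p, g)` of the triples `(i', q, g)`.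
-/

set_option autoImplicit false

namespace Pool.Agent.H74.MDX

open Finset

private theorem Cnt_rem (S : Finset (ℕ × ℕ × ℕ)) (Q : Finset ℕ) (κ : ℝ)
    (h : ∀ p : ℕ, ((S.filter (fun u => u.2.1 = p)).card : ℝ) ≤ κ) :
    (S.card : ℝ) - Q.card * κ ≤ ((S.filter (fun u => u.2.1 ∉ Q)).card : ℝ) := by
  classical
  have e1 : (S.filter (fun u => u.2.1 ∈ Q)).card + (S.filter (fun u => ¬ u.2.1 ∈ Q)).card = S.card :=
    Finset.card_filter_add_card_filter_not _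
  have e2 : (S.filter (fun u => u.2.1 ∈ Q)).card =
      ∑ p ∈ Q, ((S.filter (fun u => u.2.1 ∈ Q)).filter (fun u => u.2.1 = p)).card := by
    refine Finset.card_eq_sum_card_fiberwise (f := fun u : ℕ × ℕ × ℕ => u.2.1) (t := Q) ?_
    intro u hu
    exact (Finset.mem_filter.1 (Finset.mem_coe.1 hu)).2
  have e3 : ((S.filter (fun u => u.2.1 ∈ Q)).card : ℝ) ≤ Q.card * κ := by
    rw [e2]
    push_cast
    calc ∑ p ∈ Q, (((S.filter (fun u => u.2.1 ∈ Q)).filter (fun u => u.2.1 = p)).card : ℝ)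
        ≤ ∑ _p ∈ Q, κ := by
          refine Finset.sum_le_sum (fun p _ => ?_)
          refine le_trans ?_ (h p)
          exact_mod_cast Finset.card_le_card (Finset.filter_subset_filter _ (Finset.filter_subset _ _))
      _ = Q.card * κ := by rw [Finset.sum_const, nsmul_eq_mul]
  have e4 : ((S.filter (fun u => u.2.1 ∈ Q)).card : ℝ) + ((S.filter (fun u => ¬ u.2.1 ∈ Q)).card : ℝ) = S.card := by
    exact_mod_cast e1
  linarith

/-- the primes of a walk -/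
private def Cnt_pr {j : ℕ} (w : Wk j) : Finset ℕ :=
  (univ.image (fun s : Fin j => (w.2 s).1)) ∪ (univ.image (fun s : Fin j => (w.2 s).2.2))

private theorem Cnt_pr_card {j : ℕ} (w : Wk j) : (Cnt_pr w).card ≤ 2 * j := by
  unfold Cnt_pr
  refine (Finset.card_union_le _ _).trans ?_
  have a1 : (univ.image (fun s : Fin j => (w.2 s).1)).card ≤ j :=
    Finset.card_image_le.trans (by rw [Finset.card_univ, Fintype.card_fin])
  have a2 : (univ.image (fun s : Fin j => (w.2 s).2.2)).card ≤ j :=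
    Finset.card_image_le.trans (by rw [Finset.card_univ, Fintype.card_fin])
  omega

private theorem Cnt_pr1 {j : ℕ} (w : Wk j) (s : Fin j) : (w.2 s).1 ∈ Cnt_pr w :=
  Finset.mem_union_left _ (Finset.mem_image_of_mem (fun s : Fin j => (w.2 s).1) (Finset.mem_univ s))

private theorem Cnt_pr2 {j : ℕ} (w : Wk j) (s : Fin j) : (w.2 s).2.2 ∈ Cnt_pr w :=
  Finset.mem_union_right _ (Finset.mem_image_of_mem (fun s : Fin j => (w.2 s).2.2) (Finset.mem_univ s))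

/-- the extended walk -/
private def Cnt_ext {j : ℕ} (w : Wk j) (a : ℕ) (b : ℕ × ℕ × ℕ) : Wk (j + 1) :=
  (Fin.snoc (α := fun _ => ℕ) w.1 a, Fin.snoc (α := fun _ => ℕ × ℕ × ℕ) w.2 b)

private theorem Cnt_ext_L {j : ℕ} (w : Wk j) (a : ℕ) (b : ℕ × ℕ × ℕ) : Lw (Cnt_ext w a b) = w := by
  unfold Lw Cnt_ext
  refine Prod.ext ?_ ?_
  · funext s
    exact Fin.snoc_castSucc (α := fun _ => ℕ) a w.1 s
  · funext s
    exact Fin.snoc_castSucc (α := fun _ => ℕ × ℕ × ℕ) b w.2 s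

private theorem Cnt_ext_1c {j : ℕ} (w : Wk j) (a : ℕ) (b : ℕ × ℕ × ℕ) (s : Fin (j + 1)) :
    (Cnt_ext w a b).1 s.castSucc = w.1 s := Fin.snoc_castSucc (α := fun _ => ℕ) a w.1 s

private theorem Cnt_ext_1l {j : ℕ} (w : Wk j) (a : ℕ) (b : ℕ × ℕ × ℕ) :
    (Cnt_ext w a b).1 (Fin.last (j + 1)) = a := Fin.snoc_last (α := fun _ => ℕ) a w.1

private theorem Cnt_ext_2c {j : ℕ} (w : Wk j) (a : ℕ) (b : ℕ × ℕ × ℕ) (s : Fin j) :
    (Cnt_ext w a b).2 s.castSucc = w.2 s := Fin.snoc_castSucc (α := fun _ => ℕ × ℕ × ℕ) b w.2 s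

private theorem Cnt_ext_2l {j : ℕ} (w : Wk j) (a : ℕ) (b : ℕ × ℕ × ℕ) :
    (Cnt_ext w a b).2 (Fin.last j) = b := Fin.snoc_last (α := fun _ => ℕ × ℕ × ℕ) b w.2

private theorem Cnt_ext_mem {j : ℕ} (R : Finset (ℕ × ℕ × ℕ)) (F : Finset ℕ) (w : Wk j) (hw : w ∈ Om R F j)
    (i' p g q : ℕ) (hi : i' ∈ F) (h1 : (v1 w, p, g) ∈ R) (h2 : (i', q, g) ∈ R)
    (hp : p ∉ Cnt_pr w) (hq : q ∉ insert p (Cnt_pr w)) : Cnt_ext w i' (p, g, q) ∈ Om R F (j + 1) := by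
  rw [mem_Om] at hw ⊢
  rw [Finset.mem_insert, not_or] at hq
  obtain ⟨hqp, hq⟩ := hq
  refine ⟨?_, ?_, ?_⟩
  · intro s
    refine Fin.lastCases ?_ (fun s => ?_) s
    · rw [Cnt_ext_1l]
      exact hi
    · rw [Cnt_ext_1c]
      exact hw.1 s
  · intro s
    refine Fin.lastCases ?_ (fun s => ?_) s
    · rw [Cnt_ext_1c, Cnt_ext_2l, Fin.succ_last, Cnt_ext_1l]
      exact ⟨h1, h2⟩
    · rw [Cnt_ext_1c, Cnt_ext_2c, Fin.succ_castSucc, Cnt_ext_1c]
      exact hw.2.1 s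
  · have hinj := hw.2.2
    have k1 : ∀ s t : Fin j, (w.2 s).1 = (w.2 t).1 → s = t := fun s t h =>
      Sum.inl_injective (hinj (a₁ := Sum.inl s) (a₂ := Sum.inl t) h)
    have k2 : ∀ s t : Fin j, (w.2 s).2.2 = (w.2 t).2.2 → s = t := fun s t h =>
      Sum.inr_injective (hinj (a₁ := Sum.inr s) (a₂ := Sum.inr t) h)
    have k3 : ∀ s t : Fin j, (w.2 s).1 ≠ (w.2 t).2.2 := fun s t h => by
      have := hinj (a₁ := Sum.inl s) (a₂ := Sum.inr t) h
      cases this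
    have m1 : Function.Injective (fun s : Fin (j + 1) => ((Cnt_ext w i' (p, g, q)).2 s).1) := by
      intro s t
      refine Fin.lastCases ?_ (fun s => ?_) s
      · refine Fin.lastCases (fun _ => rfl) (fun t => ?_) t
        intro h
        simp only [Cnt_ext_2l, Cnt_ext_2c] at h
        exact absurd (h ▸ Cnt_pr1 w t) hp
      · refine Fin.lastCases ?_ (fun t => ?_) t
        · intro h
          simp only [Cnt_ext_2l, Cnt_ext_2c] at h
          exact absurd (h ▸ Cnt_pr1 w s) hp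
        · intro h
          simp only [Cnt_ext_2c] at h
          rw [k1 s t h]
    have m2 : Function.Injective (fun s : Fin (j + 1) => ((Cnt_ext w i' (p, g, q)).2 s).2.2) := by
      intro s t
      refine Fin.lastCases ?_ (fun s => ?_) s
      · refine Fin.lastCases (fun _ => rfl) (fun t => ?_) t
        intro h
        simp only [Cnt_ext_2l, Cnt_ext_2c] at h
        exact absurd (h ▸ Cnt_pr2 w t) hq
      · refine Fin.lastCases ?_ (fun t => ?_) t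
        · intro h
          simp only [Cnt_ext_2l, Cnt_ext_2c] at h
          exact absurd (h ▸ Cnt_pr2 w s) hq
        · intro h
          simp only [Cnt_ext_2c] at h
          rw [k2 s t h]
    refine m1.sumElim m2 ?_
    intro s t
    refine Fin.lastCases ?_ (fun s => ?_) s
    · refine Fin.lastCases ?_ (fun t => ?_) t
      · intro h
        simp only [Cnt_ext_2l] at h
        exact hqp h.symm
      · intro h
        simp only [Cnt_ext_2l, Cnt_ext_2c] at h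
        exact absurd (h ▸ Cnt_pr2 w t) hp
    · refine Fin.lastCases ?_ (fun t => ?_) t
      · intro h
        simp only [Cnt_ext_2l, Cnt_ext_2c] at h
        exact absurd (h ▸ Cnt_pr1 w s) hq
      · intro h
        simp only [Cnt_ext_2c] at h
        exact k3 s t h

private theorem Cnt_fib {j : ℕ} (R : Finset (ℕ × ℕ × ℕ)) (F : Finset ℕ) (κ m : ℝ) (P : ℕ) (hM : Mul κ P R)
    (hF : ∀ t ∈ R, t.1 ∈ F) (hm : 2 * ((j + 1 : ℕ) : ℝ) * κ ≤ m)
    (h1 : ∀ i ∈ F, m ≤ ((R.filter (fun u => u.1 = i)).card : ℝ))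
    (h2 : ∀ t ∈ R, m ≤ ((R.filter (fun u => u.2.2 = t.2.2)).card : ℝ)) (w : Wk j) (hw : w ∈ Om R F j) :
    (m - 2 * ((j + 1 : ℕ) : ℝ) * κ) ^ 2 ≤ (((Om R F (j + 1)).filter (fun v => Lw v = w)).card : ℝ) := by
  classical
  have hκ : (0 : ℝ) ≤ κ := zero_le_one.trans hM.one
  set X : ℝ := m - 2 * ((j + 1 : ℕ) : ℝ) * κ with hX
  have hX0 : 0 ≤ X := by rw [hX]; linarith
  set S1 : Finset (ℕ × ℕ × ℕ) := (R.filter (fun u => u.1 = v1 w)).filter (fun u => u.2.1 ∉ Cnt_pr w) with hS1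
  set S2 : ℕ × ℕ × ℕ → Finset (ℕ × ℕ × ℕ) := fun u =>
    (R.filter (fun t => t.2.2 = u.2.2)).filter (fun t => t.2.1 ∉ insert u.2.1 (Cnt_pr w)) with hS2
  have hv : v1 w ∈ F := (mem_Om.1 hw).1 _
  have c1 : X ≤ (S1.card : ℝ) := by
    have a1 := Cnt_rem (R.filter (fun u => u.1 = v1 w)) (Cnt_pr w) κ (by
      intro p
      rw [Finset.filter_filter]
      exact hM.out _ _)
    have a2 := h1 _ hv
    have a3 : ((Cnt_pr w).card : ℝ) * κ ≤ 2 * j * κ := by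
      refine mul_le_mul_of_nonneg_right ?_ hκ
      exact_mod_cast Cnt_pr_card w
    rw [hX]
    push_cast
    nlinarith
  have c2 : ∀ u ∈ S1, X ≤ ((S2 u).card : ℝ) := by
    intro u hu
    have huR : u ∈ R := (Finset.mem_filter.1 (Finset.mem_filter.1 hu).1).1
    have a1 := Cnt_rem (R.filter (fun t => t.2.2 = u.2.2)) (insert u.2.1 (Cnt_pr w)) κ (by
      intro p
      rw [Finset.filter_filter]
      exact hM.inn _ _)
    have a2 := h2 _ huR
    have a3 : ((insert u.2.1 (Cnt_pr w)).card : ℝ) * κ ≤ (2 * j + 1) * κ := by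
      refine mul_le_mul_of_nonneg_right ?_ hκ
      have b1 := Finset.card_insert_le u.2.1 (Cnt_pr w)
      have b2 := Cnt_pr_card w
      have b3 : (insert u.2.1 (Cnt_pr w)).card ≤ 2 * j + 1 := by omega
      exact_mod_cast b3
    rw [hX]
    push_cast
    nlinarith
  have c3 : X ^ 2 ≤ ((S1.sigma S2).card : ℝ) := by
    rw [Finset.card_sigma]
    push_cast
    calc X ^ 2 = X * X := by ring
      _ ≤ (S1.card : ℝ) * X := mul_le_mul_of_nonneg_right c1 hX0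
      _ = ∑ _u ∈ S1, X := by rw [Finset.sum_const, nsmul_eq_mul]
      _ ≤ ∑ u ∈ S1, ((S2 u).card : ℝ) := Finset.sum_le_sum c2
  refine c3.trans ?_
  have c4 : (S1.sigma S2).card ≤ ((Om R F (j + 1)).filter (fun v => Lw v = w)).card := by
    refine Finset.card_le_card_of_injOn
      (fun x : (_ : ℕ × ℕ × ℕ) × (ℕ × ℕ × ℕ) => Cnt_ext w x.2.1 (x.1.2.1, x.1.2.2, x.2.2.1)) ?_ ?_
    · rintro ⟨u, t⟩ hx
      obtain ⟨hu, ht⟩ := Finset.mem_sigma.1 (Finset.mem_coe.1 hx)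
      obtain ⟨hu1, hu2⟩ := Finset.mem_filter.1 hu
      obtain ⟨hu1, hu3⟩ := Finset.mem_filter.1 hu1
      obtain ⟨ht1, ht2⟩ := Finset.mem_filter.1 ht
      obtain ⟨ht1, ht3⟩ := Finset.mem_filter.1 ht1
      refine Finset.mem_coe.2 (Finset.mem_filter.2 ⟨?_, Cnt_ext_L _ _ _⟩)
      refine Cnt_ext_mem R F w hw _ _ _ _ (hF _ ht1) ?_ ?_ hu2 ht2
      · rw [← hu3]
        exact hu1
      · dsimp only at ht3
        rw [← ht3]
        exact ht1
    · rintro ⟨u, t⟩ hx ⟨u', t'⟩ hx' h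
      obtain ⟨hu, ht⟩ := Finset.mem_sigma.1 (Finset.mem_coe.1 hx)
      obtain ⟨hu', ht'⟩ := Finset.mem_sigma.1 (Finset.mem_coe.1 hx')
      have hu3 := (Finset.mem_filter.1 (Finset.mem_filter.1 hu).1).2
      have hu3' := (Finset.mem_filter.1 (Finset.mem_filter.1 hu').1).2
      have ht3 := (Finset.mem_filter.1 (Finset.mem_filter.1 ht).1).2
      have ht3' := (Finset.mem_filter.1 (Finset.mem_filter.1 ht').1).2
      have e1 := congrArg (fun v : Wk (j + 1) => v.1 (Fin.last (j + 1))) h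
      have e2 := congrArg (fun v : Wk (j + 1) => v.2 (Fin.last j)) h
      simp only [Cnt_ext_1l] at e1
      simp only [Cnt_ext_2l, Prod.mk.injEq] at e2
      dsimp only at hu3 hu3' ht3 ht3' e1 e2
      obtain ⟨u1, u2, u3⟩ := u
      obtain ⟨u1', u2', u3'⟩ := u'
      obtain ⟨t1, t2, t3⟩ := t
      obtain ⟨t1', t2', t3'⟩ := t'
      dsimp only at hu3 hu3' ht3 ht3' e1 e2
      obtain ⟨f1, f2, f3⟩ := e2
      subst f1 f2 f3 e1
      subst hu3 hu3'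
      subst ht3
      subst ht3'
      rfl
  exact_mod_cast c4

theorem om_card (R : Finset (ℕ × ℕ × ℕ)) (F : Finset ℕ) (κ m : ℝ) (P j : ℕ) (hM : Mul κ P R)
    (hF : ∀ t ∈ R, t.1 ∈ F) (hm : 2 * j * κ ≤ m)
    (h1 : ∀ i ∈ F, m ≤ ((R.filter (fun u => u.1 = i)).card : ℝ))
    (h2 : ∀ t ∈ R, m ≤ ((R.filter (fun u => u.2.2 = t.2.2)).card : ℝ)) :
    (F.card : ℝ) * (m - 2 * j * κ) ^ (2 * j) ≤ (Om R F j).card := by
  classical
  have hκ : (0 : ℝ) ≤ κ := zero_le_one.trans hM.one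
  induction j with
  | zero =>
    rw [Nat.mul_zero, pow_zero, mul_one]
    have c : F.card ≤ (Om R F 0).card := by
      refine Finset.card_le_card_of_injOn (fun i : ℕ => ((fun _ => i, fun s => s.elim0) : Wk 0)) ?_ ?_
      · intro i hi
        refine Finset.mem_coe.2 (mem_Om.2 ⟨fun _ => Finset.mem_coe.1 hi, fun s => s.elim0, ?_⟩)
        rintro (s | s)
        · exact s.elim0
        · exact s.elim0
      · intro i _ i' _ h
        exact congrArg (fun v : Wk 0 => v.1 0) h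
    exact_mod_cast c
  | succ j ih =>
    have hm' : 2 * (j : ℝ) * κ ≤ m := by
      push_cast at hm
      nlinarith
    have ih' := ih hm'
    set X : ℝ := m - 2 * ((j + 1 : ℕ) : ℝ) * κ with hX
    have hX0 : 0 ≤ X := by rw [hX]; linarith
    have hXY : X ≤ m - 2 * (j : ℝ) * κ := by
      rw [hX]
      push_cast
      nlinarith
    have c1 : (F.card : ℝ) * X ^ (2 * j) ≤ (Om R F j).card :=
      (mul_le_mul_of_nonneg_left (pow_le_pow_left₀ hX0 hXY _) (Nat.cast_nonneg _)).trans ih'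
    have c2 : (Om R F (j + 1)).card = ∑ w ∈ Om R F j, ((Om R F (j + 1)).filter (fun v => Lw v = w)).card := by
      refine Finset.card_eq_sum_card_fiberwise (f := (Lw : Wk (j + 1) → Wk j)) (t := Om R F j) ?_
      intro v hv
      exact Finset.mem_coe.2 (Lw_mem (Finset.mem_coe.1 hv))
    have c3 : ((Om R F j).card : ℝ) * X ^ 2 ≤ (Om R F (j + 1)).card := by
      rw [c2]
      push_cast
      calc ((Om R F j).card : ℝ) * X ^ 2 = ∑ _w ∈ Om R F j, X ^ 2 := by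
            rw [Finset.sum_const, nsmul_eq_mul]
        _ ≤ _ := Finset.sum_le_sum (fun w hw => Cnt_fib R F κ m P hM hF hm h1 h2 w hw)
    calc (F.card : ℝ) * X ^ (2 * (j + 1)) = ((F.card : ℝ) * X ^ (2 * j)) * X ^ 2 := by ring
      _ ≤ ((Om R F j).card : ℝ) * X ^ 2 := mul_le_mul_of_nonneg_right c1 (by positivity)
      _ ≤ _ := c3

end Pool.Agent.H74.MDX

end

section

/-!
# MDX StepE: the edge of a walk, and its position

`geo`: `M = ⌊G0 p q/P^2⌋`: `|G0 p q - M P^2| ≤ P^2`, and `(K1 q - M P) P = -(G0 p - K1 P) q + (G0 p q - M P^2)`, so `|K1 q - M P| ≤ 2 c P + P`; the same for `K2 p`;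
`p q ≥ P^2` and `p q ≤ 4 P^2` give `G0 ≤ M ≤ 4 G0`.
`step_edge`: for `w` with `Lw w, Rw w ∈ G` choose `(G0, g)` from `link` and put `M w = G0 pf w ql w/P^2`.  `EX` membership (`mem_EX`, `mem_VX`): `ql w`, `pf w` are primes in
`(P, 2P]` (`Mul.prime`, `mem_Om`), `pf w ≠ ql w` (`pf_ne_ql`), `c (Lw w), c (Rw w) ∈ V`, and
`nz (pf w k1 - ql w k2) ≤ nz (pf w k1 - g) + nz (g - ql w k2) ≤ 2 η_j`.
`step_mem`: `(qa w, v0 w)`: `qa w = qa (Lw w) ql w`, apply `DS_step` to `(qa (Lw w), v0 (Lw w)) ∈ DS (c (Lw w))` with `p = ql w`; `(pa w, v1 w)`: `pa w = pf w pa (Rw w)`,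
`DS_step` with `(pa (Rw w), v1 (Rw w)) ∈ DS (c (Rw w))`; then `DS_mono`: `2 C 5^j + 2 C 3^j + 1 ≤ C 5^(j+1)`, `(2P)^j 2^(j+5) X η/P^j + X η = (2^(2j+5) + 1) X η ≤ 2^(2j+6) X η`,
`(j+1)^2 + 5(j+1) = j^2 + 5j + 2j + 6`.
-/

set_option autoImplicit false

namespace Pool.Agent.H74.MDX

open Finset
open Pool.Agent.H53.MID (nz Rel Desc)

private theorem StepE_div {P X M : ℝ} (hP : 0 < P) (h : |X * P| ≤ M * P * P) : |X| ≤ M * P := by
  rw [abs_mul, abs_of_pos hP] at h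
  exact le_of_mul_le_mul_right h hP

theorem geo (P G0 K1 K2 p q : ℕ) (c : ℝ) (hP : 1 ≤ P) (hc : 0 ≤ c) (hp : P < p ∧ p ≤ 2 * P) (hq : P < q ∧ q ≤ 2 * P)
    (h1 : |(G0 : ℝ) * p - K1 * P| ≤ c * P) (h2 : |(G0 : ℝ) * q - K2 * P| ≤ c * P) :
    |(K1 : ℝ) * q - (G0 * p * q / P ^ 2 : ℕ) * P| ≤ (2 * c + 1) * P ∧
      |(K2 : ℝ) * p - (G0 * p * q / P ^ 2 : ℕ) * P| ≤ (2 * c + 1) * P ∧ G0 ≤ G0 * p * q / P ^ 2 ∧
      G0 * p * q / P ^ 2 ≤ 4 * G0 := by
  have hP2 : 0 < P ^ 2 := by positivity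
  have hPR : (1 : ℝ) ≤ (P : ℝ) := by exact_mod_cast hP
  have hP0 : (0 : ℝ) < (P : ℝ) := by linarith
  have hp2 : (p : ℝ) ≤ 2 * P := by exact_mod_cast hp.2
  have hq2 : (q : ℝ) ≤ 2 * P := by exact_mod_cast hq.2
  have hp0 : (0 : ℝ) ≤ (p : ℝ) := Nat.cast_nonneg p
  have hq0 : (0 : ℝ) ≤ (q : ℝ) := Nat.cast_nonneg q
  have hdm : P ^ 2 * (G0 * p * q / P ^ 2) + (G0 * p * q) % P ^ 2 = G0 * p * q := Nat.div_add_mod _ _
  have hmod : (G0 * p * q) % P ^ 2 < P ^ 2 := Nat.mod_lt _ hP2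
  set M : ℕ := G0 * p * q / P ^ 2 with hM
  set r : ℕ := (G0 * p * q) % P ^ 2 with hr
  have hdm' : (P : ℝ) ^ 2 * (M : ℝ) + (r : ℝ) = (G0 : ℝ) * p * q := by exact_mod_cast hdm
  have hr1 : (r : ℝ) ≤ (P : ℝ) ^ 2 := by exact_mod_cast hmod.le
  have hr0 : (0 : ℝ) ≤ (r : ℝ) := Nat.cast_nonneg r
  refine ⟨?_, ?_, ?_, ?_⟩
  · have h3 : ((K1 : ℝ) * q - M * P) * P = -(((G0 : ℝ) * p - K1 * P) * q) + r := by
      have h4 : (r : ℝ) = (G0 : ℝ) * p * q - (P : ℝ) ^ 2 * M := by linarith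
      rw [h4]
      ring
    have h5 : |((K1 : ℝ) * q - M * P) * P| ≤ (2 * c + 1) * P * P := by
      rw [h3]
      have h6 : |((G0 : ℝ) * p - K1 * P) * q| ≤ c * P * (2 * P) := by
        rw [abs_mul, abs_of_nonneg hq0]
        exact mul_le_mul h1 hq2 hq0 (by positivity)
      have h7 : |(r : ℝ)| ≤ (P : ℝ) ^ 2 := by rw [abs_of_nonneg hr0]; exact hr1
      have h8 := abs_add_le (-(((G0 : ℝ) * p - K1 * P) * q)) (r : ℝ)
      rw [abs_neg] at h8
      nlinarith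
    exact StepE_div hP0 h5
  · have h3 : ((K2 : ℝ) * p - M * P) * P = -(((G0 : ℝ) * q - K2 * P) * p) + r := by
      have h4 : (r : ℝ) = (G0 : ℝ) * p * q - (P : ℝ) ^ 2 * M := by linarith
      rw [h4]
      ring
    have h5 : |((K2 : ℝ) * p - M * P) * P| ≤ (2 * c + 1) * P * P := by
      rw [h3]
      have h6 : |((G0 : ℝ) * q - K2 * P) * p| ≤ c * P * (2 * P) := by
        rw [abs_mul, abs_of_nonneg hp0]
        exact mul_le_mul h2 hp2 hp0 (by positivity)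
      have h7 : |(r : ℝ)| ≤ (P : ℝ) ^ 2 := by rw [abs_of_nonneg hr0]; exact hr1
      have h8 := abs_add_le (-(((G0 : ℝ) * q - K2 * P) * p)) (r : ℝ)
      rw [abs_neg] at h8
      nlinarith
    exact StepE_div hP0 h5
  · rw [hM, Nat.le_div_iff_mul_le hP2]
    have h3 : P * P ≤ p * q := Nat.mul_le_mul hp.1.le hq.1.le
    calc G0 * P ^ 2 = G0 * (P * P) := by ring
      _ ≤ G0 * (p * q) := Nat.mul_le_mul_left _ h3
      _ = G0 * p * q := by ring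
  · rw [hM]
    apply Nat.div_le_of_le_mul
    have h3 : p * q ≤ (2 * P) * (2 * P) := Nat.mul_le_mul hp.2 hq.2
    calc G0 * p * q = G0 * (p * q) := by ring
      _ ≤ G0 * ((2 * P) * (2 * P)) := Nat.mul_le_mul_left _ h3
      _ = P ^ 2 * (4 * G0) := by ring

private theorem StepE_pf {κ : ℝ} {j P : ℕ} {F : Finset ℕ} {R : Finset (ℕ × ℕ × ℕ)} (hM : Mul κ P R) {w : Wk (j + 1)}
    (hw : w ∈ Om R F (j + 1)) : (pf w).Prime ∧ P < pf w ∧ pf w ≤ 2 * P :=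
  hM.prime _ ((mem_Om.1 hw).2.1 0).1

private theorem StepE_ql {κ : ℝ} {j P : ℕ} {F : Finset ℕ} {R : Finset (ℕ × ℕ × ℕ)} (hM : Mul κ P R) {w : Wk (j + 1)}
    (hw : w ∈ Om R F (j + 1)) : (ql w).Prime ∧ P < ql w ∧ ql w ≤ 2 * P :=
  hM.prime _ ((mem_Om.1 hw).2.1 (Fin.last j)).2

theorem step_edge (C B ε η : ℝ) (n P j : ℕ) (F : Finset ℕ) (α : ℕ → ℝ) (R : Finset (ℕ × ℕ × ℕ)) (hC : 1 ≤ C)
    (hM : Mul (2 * C + 1) P R) (V : Finset (ℕ × ℝ)) (G : Finset (Wk j)) (c : Wk j → ℕ × ℝ)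
    (hL : Lvl C B ε η n P F α R j V G c) :
    ∃ M : Wk (j + 1) → ℕ, ∀ w ∈ Om R F (j + 1), Lw w ∈ G → Rw w ∈ G → (n : ℝ) / C ≤ M w ∧
      (M w : ℝ) ≤ 4 ^ (j + 1) * C * n ∧ (((ql w, c (Lw w)), (pf w, c (Rw w))) : (ℕ × ℕ × ℝ) × (ℕ × ℕ × ℝ)) ∈
        EX (2 * (C * 3 ^ j) + 1) P (2 ^ (j ^ 2 + 5 * j) * η * P / (P : ℝ) ^ j) V (M w) := by
  have key : ∀ w : Wk (j + 1), ∃ m : ℕ, w ∈ Om R F (j + 1) → Lw w ∈ G → Rw w ∈ G → (n : ℝ) / C ≤ m ∧
      (m : ℝ) ≤ 4 ^ (j + 1) * C * n ∧ (((ql w, c (Lw w)), (pf w, c (Rw w))) : (ℕ × ℕ × ℝ) × (ℕ × ℕ × ℝ)) ∈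
        EX (2 * (C * 3 ^ j) + 1) P (2 ^ (j ^ 2 + 5 * j) * η * P / (P : ℝ) ^ j) V m := by
    intro w
    by_cases hw : w ∈ Om R F (j + 1) ∧ Lw w ∈ G ∧ Rw w ∈ G
    · obtain ⟨hw1, hw2, hw3⟩ := hw
      obtain ⟨G0, g, hg1, hg2, hg3, hg4, hg5, hg6⟩ := hL.link w hw1 hw2 hw3
      obtain ⟨hpp, hp1, hp2⟩ := StepE_pf hM hw1
      obtain ⟨hqp, hq1, hq2⟩ := StepE_ql hM hw1
      obtain ⟨k1, k2, k3, k4⟩ := geo P G0 (c (Lw w)).1 (c (Rw w)).1 (pf w) (ql w) (C * 3 ^ j) hM.pos (by positivity)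
        ⟨hp1, hp2⟩ ⟨hq1, hq2⟩ hg3 hg4
      refine ⟨G0 * pf w * ql w / P ^ 2, fun _ _ _ => ⟨?_, ?_, ?_⟩⟩
      · have h1 : (G0 : ℝ) ≤ ((G0 * pf w * ql w / P ^ 2 : ℕ) : ℝ) := by exact_mod_cast k3
        linarith
      · have h1 : ((G0 * pf w * ql w / P ^ 2 : ℕ) : ℝ) ≤ 4 * (G0 : ℝ) := by exact_mod_cast k4
        have h2 : (4 : ℝ) ^ (j + 1) = 4 ^ j * 4 := pow_succ _ _
        rw [h2]
        linarith
      · rw [mem_EX]
        refine ⟨?_, ?_, ?_, ?_⟩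
        · rw [mem_VX]
          exact ⟨⟨hq1, hq2⟩, hqp, hL.col _ hw2, k1⟩
        · rw [mem_VX]
          exact ⟨⟨hp1, hp2⟩, hpp, hL.col _ hw3, k2⟩
        · exact fun h => pf_ne_ql hw1 h.symm
        · change nz ((pf w : ℝ) * (c (Lw w)).2 - ql w * (c (Rw w)).2) ≤ _
          have h1 : (pf w : ℝ) * (c (Lw w)).2 - ql w * (c (Rw w)).2 =
              ((pf w : ℝ) * (c (Lw w)).2 - g) + -(ql w * (c (Rw w)).2 - g) := by ring
          rw [h1]
          have h2 := Pool.Agent.H53.MID.nz_add ((pf w : ℝ) * (c (Lw w)).2 - g) (-(ql w * (c (Rw w)).2 - g))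
          rw [Pool.Agent.H53.MID.nz_neg] at h2
          linarith
    · refine ⟨0, fun h1 h2 h3 => absurd ⟨h1, h2, h3⟩ hw⟩
  choose M hM' using key
  exact ⟨M, hM'⟩

private theorem StepE_D (C : ℝ) (j : ℕ) (hC : 1 ≤ C) :
    2 * (C * 5 ^ j) + (2 * (C * 3 ^ j) + 1) ≤ C * 5 ^ (j + 1) := by
  have h1 : (3 : ℝ) ^ j ≤ 5 ^ j := pow_le_pow_left₀ (by norm_num) (by norm_num) j
  have h2 : (1 : ℝ) ≤ 5 ^ j := one_le_pow₀ (by norm_num)
  have h3 : C * 3 ^ j ≤ C * 5 ^ j := mul_le_mul_of_nonneg_left h1 (by linarith)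
  have h4 : 1 ≤ C * 5 ^ j := by nlinarith
  rw [pow_succ]
  linarith

private theorem StepE_tau (η : ℝ) (P j : ℕ) (hη : 0 < η) (hP : 1 ≤ P) :
    (2 * (P : ℝ)) ^ j * (2 ^ (j + 5) * (2 ^ (j ^ 2 + 5 * j) * η) / (P : ℝ) ^ j) + 2 ^ (j ^ 2 + 5 * j) * η ≤
      2 ^ ((j + 1) ^ 2 + 5 * (j + 1)) * η := by
  have hP0 : (0 : ℝ) < (P : ℝ) := by exact_mod_cast hP
  have hPj : (P : ℝ) ^ j ≠ 0 := by positivity
  have h1 : (2 * (P : ℝ)) ^ j * (2 ^ (j + 5) * (2 ^ (j ^ 2 + 5 * j) * η) / (P : ℝ) ^ j) =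
      2 ^ (2 * j + 5) * (2 ^ (j ^ 2 + 5 * j) * η) := by
    rw [mul_pow, show 2 * j + 5 = j + (j + 5) by ring, pow_add 2 j (j + 5)]
    field_simp
  rw [h1]
  have h2 : (2 : ℝ) ^ ((j + 1) ^ 2 + 5 * (j + 1)) = 2 ^ (2 * j + 5) * 2 * 2 ^ (j ^ 2 + 5 * j) := by
    rw [← pow_succ, ← pow_add]
    congr 1
    ring
  rw [h2]
  have h3 : 0 < (2 : ℝ) ^ (j ^ 2 + 5 * j) * η := by positivity
  have h4 : (1 : ℝ) ≤ 2 ^ (2 * j + 5) := one_le_pow₀ (by norm_num)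
  nlinarith

theorem step_mem (C B ε η : ℝ) (n P j : ℕ) (F : Finset ℕ) (α : ℕ → ℝ) (R : Finset (ℕ × ℕ × ℕ)) (hC : 1 ≤ C) (hη : 0 < η)
    (hM : Mul (2 * C + 1) P R) (V : Finset (ℕ × ℝ)) (G : Finset (Wk j)) (c : Wk j → ℕ × ℝ)
    (hL : Lvl C B ε η n P F α R j V G c) (w : Wk (j + 1)) (h1 : Lw w ∈ G) (h2 : Rw w ∈ G) (M : ℕ)
    (hE : (((ql w, c (Lw w)), (pf w, c (Rw w))) : (ℕ × ℕ × ℝ) × (ℕ × ℕ × ℝ)) ∈
        EX (2 * (C * 3 ^ j) + 1) P (2 ^ (j ^ 2 + 5 * j) * η * P / (P : ℝ) ^ j) V M) (γ : ℝ)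
    (h3 : nz (ql w * γ - (c (Lw w)).2) ≤ 2 ^ (j + 5) * (2 ^ (j ^ 2 + 5 * j) * η) / (P : ℝ) ^ j)
    (h4 : nz (pf w * γ - (c (Rw w)).2) ≤ 2 ^ (j + 5) * (2 ^ (j ^ 2 + 5 * j) * η) / (P : ℝ) ^ j) :
    (qa w, v0 w) ∈ DS P (j + 1) (C * 5 ^ (j + 1)) (2 ^ ((j + 1) ^ 2 + 5 * (j + 1)) * η) F α (M, γ) ∧
      (pa w, v1 w) ∈ DS P (j + 1) (C * 5 ^ (j + 1)) (2 ^ ((j + 1) ^ 2 + 5 * (j + 1)) * η) F α (M, γ) := by
  rw [mem_EX] at hE
  obtain ⟨hE1, hE2, -, -⟩ := hE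
  rw [mem_VX] at hE1 hE2
  obtain ⟨hq, hqp, -, hqK⟩ := hE1
  obtain ⟨hp, hpp, -, hpK⟩ := hE2
  have hC0 : 0 ≤ C := by linarith
  have hD := StepE_D C j hC
  have hτ := StepE_tau η P j hη hM.pos
  constructor
  · have h5 := DS_step P j (2 * (C * 3 ^ j) + 1) (C * 5 ^ j) (2 ^ (j ^ 2 + 5 * j) * η)
      (2 ^ (j + 5) * (2 ^ (j ^ 2 + 5 * j) * η) / (P : ℝ) ^ j) F α (c (Lw w)).1 M (ql w) (c (Lw w)).2 γ hqp hq hqK h3
      (by positivity) (by positivity) (qa (Lw w), v0 (Lw w)) (hL.mem0 _ h1)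
    have h6 := DS_mono P (j + 1) _ _ _ _ F α (M, γ) hD hτ h5
    have h7 : qa w = ql w * qa (Lw w) := by rw [qa_eq, mul_comm]
    rw [h7]
    exact h6
  · have h5 := DS_step P j (2 * (C * 3 ^ j) + 1) (C * 5 ^ j) (2 ^ (j ^ 2 + 5 * j) * η)
      (2 ^ (j + 5) * (2 ^ (j ^ 2 + 5 * j) * η) / (P : ℝ) ^ j) F α (c (Rw w)).1 M (pf w) (c (Rw w)).2 γ hpp hp hpK h4
      (by positivity) (by positivity) (pa (Rw w), v1 (Rw w)) (hL.mem1 _ h2)
    have h6 := DS_mono P (j + 1) _ _ _ _ F α (M, γ) hD hτ h5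
    rw [pa_eq]
    exact h6

end Pool.Agent.H74.MDX

end

section

/-!
# MDX Fib0: walks with given first vertex and given primes

Proof.  Induction on `j`.  `j = 0`: at most one walk.  `j → j+1`: map the set to the corresponding set for `j` (with `p ∘ castSucc`, `q ∘ castSucc`) by `Lw`; in the
fibre of `v` the last step `(p, g, q)` and the last vertex `i'` satisfy `(v1 v, p, g) ∈ R`, `(i', q, g) ∈ R` with given `p`, `q`: at most `κ` values of `g`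
(`hM.out`) and then at most `κ` values of `i'` (`hM.inn`).  So the fibre has at most `κ^2` elements.
-/

set_option autoImplicit false

namespace Pool.Agent.H74.MDX

open Finset

open Classical in
theorem walk_fib (R : Finset (ℕ × ℕ × ℕ)) (F : Finset ℕ) (κ : ℝ) (P j : ℕ) (hM : Mul κ P R) (i : ℕ) (p q : Fin j → ℕ) :
    (((Om R F j).filter (fun w => v0 w = i ∧ (∀ s, (w.2 s).1 = p s) ∧ ∀ s, (w.2 s).2.2 = q s)).card : ℝ) ≤ κ ^ (2 * j) := by
  induction j with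
  | zero =>
    have h1 : ((Om R F 0).filter (fun w => v0 w = i ∧ (∀ s, (w.2 s).1 = p s) ∧ ∀ s, (w.2 s).2.2 = q s)).card ≤ 1 := by
      rw [Finset.card_le_one]
      intro w hw w' hw'
      rw [Finset.mem_filter] at hw hw'
      apply Prod.ext
      · funext s
        have hs : s = 0 := Fin.fin_one_eq_zero s
        rw [hs]
        exact hw.2.1.trans hw'.2.1.symm
      · funext s
        exact Fin.elim0 s
    have h2 : (((Om R F 0).filter (fun w => v0 w = i ∧ (∀ s, (w.2 s).1 = p s) ∧ ∀ s, (w.2 s).2.2 = q s)).card : ℝ) ≤ 1 := by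
      exact_mod_cast h1
    simpa using h2
  | succ j ih =>
    have hκ := hM.one
    have hih := ih (fun s => p s.castSucc) (fun s => q s.castSucc)
    obtain ⟨S, hS⟩ : ∃ S : Finset (Wk (j + 1)), S = (Om R F (j + 1)).filter
      (fun w => v0 w = i ∧ (∀ s, (w.2 s).1 = p s) ∧ ∀ s, (w.2 s).2.2 = q s) := ⟨_, rfl⟩
    obtain ⟨T, hT⟩ : ∃ T : Finset (Wk j), T = (Om R F j).filter
      (fun w => v0 w = i ∧ (∀ s, (w.2 s).1 = p s.castSucc) ∧ ∀ s, (w.2 s).2.2 = q s.castSucc) := ⟨_, rfl⟩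
    rw [← hS]
    rw [← hT] at hih
    have hmaps : ∀ w ∈ S, Lw w ∈ T := by
      intro w hw
      rw [hS, Finset.mem_filter] at hw
      rw [hT, Finset.mem_filter]
      exact ⟨Lw_mem hw.1, hw.2.1, fun s => hw.2.2.1 s.castSucc, fun s => hw.2.2.2 s.castSucc⟩
    have hfib : ∀ v ∈ T, ((S.filter (fun w => Lw w = v)).card : ℝ) ≤ κ ^ 2 := by
      intro v _
      obtain ⟨A, hA⟩ : ∃ A : Finset (ℕ × ℕ × ℕ), A = R.filter (fun t => t.1 = v1 v ∧ t.2.1 = p (Fin.last j)) := ⟨_, rfl⟩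
      obtain ⟨B, hB⟩ : ∃ B : (ℕ × ℕ × ℕ) → Finset (ℕ × ℕ × ℕ),
        B = fun u => R.filter (fun t => t.2.2 = u.2.2 ∧ t.2.1 = q (Fin.last j)) := ⟨_, rfl⟩
      have h1 : (S.filter (fun w => Lw w = v)).card ≤ (A.sigma B).card := by
        apply Finset.card_le_card_of_injOn (fun w : Wk (j + 1) =>
          (⟨(w.1 (Fin.last j).castSucc, (w.2 (Fin.last j)).1, (w.2 (Fin.last j)).2.1),
            (w.1 (Fin.last j).succ, (w.2 (Fin.last j)).2.2, (w.2 (Fin.last j)).2.1)⟩ : Σ _ : ℕ × ℕ × ℕ, ℕ × ℕ × ℕ))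
        · intro w hw
          rw [Finset.mem_coe, Finset.mem_filter, hS, Finset.mem_filter, mem_Om] at hw
          obtain ⟨⟨⟨_, hw1⟩, hw2, hw3, hw4⟩, hw5⟩ := hw
          rw [Finset.mem_coe, Finset.mem_sigma, hA, hB, Finset.mem_filter, Finset.mem_filter]
          refine ⟨⟨(hw1.1 (Fin.last j)).1, ?_, hw3 _⟩, (hw1.1 (Fin.last j)).2, rfl, hw4 _⟩
          rw [← hw5]
          rfl
        · intro w hw w' hw' hww
          rw [Finset.mem_coe, Finset.mem_filter] at hw hw'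
          have hL : Lw w = Lw w' := hw.2.trans hw'.2.symm
          have e1 : ∀ s : Fin (j + 1), w.1 s.castSucc = w'.1 s.castSucc := fun s => congrFun (congrArg Prod.fst hL) s
          have e2 : ∀ s : Fin j, w.2 s.castSucc = w'.2 s.castSucc := fun s => congrFun (congrArg Prod.snd hL) s
          have e3 := congrArg Sigma.fst hww
          have e4 : (w.1 (Fin.last j).succ, (w.2 (Fin.last j)).2.2, (w.2 (Fin.last j)).2.1) =
            (w'.1 (Fin.last j).succ, (w'.2 (Fin.last j)).2.2, (w'.2 (Fin.last j)).2.1) := congrArg (fun z => z.2) hww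
          simp only [Prod.mk.injEq] at e3 e4
          apply Prod.ext
          · funext s
            refine Fin.lastCases ?_ (fun s => e1 s) s
            exact e4.1
          · funext s
            refine Fin.lastCases ?_ (fun s => e2 s) s
            exact Prod.ext e3.2.1 (Prod.ext e4.2.2 e4.2.1)
      have h2 : ((A.sigma B).card : ℝ) ≤ κ ^ 2 := by
        rw [Finset.card_sigma]
        push_cast
        have h3 : ∀ u ∈ A, ((B u).card : ℝ) ≤ κ := by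
          intro u _
          rw [hB]
          exact hM.inn u.2.2 (q (Fin.last j))
        refine (Finset.sum_le_sum h3).trans ?_
        rw [Finset.sum_const, nsmul_eq_mul, pow_two]
        apply mul_le_mul_of_nonneg_right _ (by linarith)
        rw [hA]
        exact hM.out (v1 v) (p (Fin.last j))
      have h3 : ((S.filter (fun w => Lw w = v)).card : ℝ) ≤ ((A.sigma B).card : ℝ) := by exact_mod_cast h1
      exact h3.trans h2
    have hcard : (S.card : ℝ) = ∑ v ∈ T, ((S.filter (fun w => Lw w = v)).card : ℝ) := by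
      rw [Finset.card_eq_sum_card_fiberwise hmaps]
      push_cast
      rfl
    rw [hcard]
    refine (Finset.sum_le_sum hfib).trans ?_
    rw [Finset.sum_const, nsmul_eq_mul]
    have h4 : κ ^ (2 * (j + 1)) = κ ^ (2 * j) * κ ^ 2 := by
      rw [← pow_add]
      congr 1
    rw [h4]
    exact mul_le_mul_of_nonneg_right hih (by positivity)

end Pool.Agent.H74.MDX

end

section

/-!
# MDX FibA: walks with `(qa w, v0 w) ∈ A`, `pa w ∈ B`

`ord_card`: the number of the sequences `p : Fin j → ℕ` of pairwise different primes with product `a` is at most `j!` (as members of any finset `T` of such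
sequences).  Proof: if there is one, `p0`, then the set of the values is the same for all (the set of the prime factors of `a`: for a squarefree product
`Nat.primeFactors` of the product, or unique factorisation), so `p ↦` the permutation `σ` with `p = p0 ∘ σ` is injective; `#Perm (Fin j) = j!`.  Alternatively induction on `j`:
`p (last)` is one of the at most `j` prime factors of `a`, the rest has product `a / p (last)`.
`fib_a`: map `w ↦ (v0 w, p-sequence, q-sequence)`; the fibres have at most `κ^(2j)` elements (`walk_fib`); the image is contained in the union over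
`(a, i) ∈ A` and `b ∈ B` of the triples `(i, p, q)` with `q` a sequence of different primes with product `a` and `p` one with product `b` (`IsW` gives injectivity, `hM.prime` gives
that they are primes): at most `(j!)^2` for each pair.
-/

set_option autoImplicit false

namespace Pool.Agent.H74.MDX

open Finset

theorem ord_card (j a : ℕ) (T : Finset (Fin j → ℕ)) (hT : ∀ p ∈ T, (∀ s, (p s).Prime) ∧ Function.Injective p ∧ ∏ s, p s = a) :
    T.card ≤ j.factorial := by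
  classical
  rcases T.eq_empty_or_nonempty with h0 | ⟨p0, hp0⟩
  · rw [h0, Finset.card_empty]
    exact Nat.zero_le _
  · obtain ⟨h1, h2, h3⟩ := hT p0 hp0
    have hsub : T ⊆ (Finset.univ : Finset (Fin j ↪ Fin j)).image (fun σ => fun s => p0 (σ s)) := by
      intro p hp
      obtain ⟨g1, g2, g3⟩ := hT p hp
      have hex : ∀ s, ∃ s', p s = p0 s' := by
        intro s
        have hd : p s ∣ ∏ s', p0 s' := by
          rw [h3, ← g3]
          exact Finset.dvd_prod_of_mem p (Finset.mem_univ s)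
        obtain ⟨s', -, hs'⟩ := ((g1 s).prime.dvd_finsetProd_iff _).1 hd
        exact ⟨s', (Nat.prime_dvd_prime_iff_eq (g1 s) (h1 s')).1 hs'⟩
      choose σ hσ using hex
      have hinj : Function.Injective σ := by
        intro x y hxy
        apply g2
        rw [hσ x, hσ y, hxy]
      rw [Finset.mem_image]
      exact ⟨⟨σ, hinj⟩, Finset.mem_univ _, funext fun s => (hσ s).symm⟩
    refine (Finset.card_le_card hsub).trans (Finset.card_image_le.trans ?_)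
    rw [Finset.card_univ, Fintype.card_embedding_eq, Fintype.card_fin, Nat.descFactorial_self]

/-- the sequences of different primes with product `a` -/
private noncomputable def FibA_T (j a : ℕ) : Finset (Fin j → ℕ) := by
  classical
  exact (Fintype.piFinset fun _ : Fin j => a.primeFactors).filter
    (fun p => (∀ s, (p s).Prime) ∧ Function.Injective p ∧ ∏ s, p s = a)

private theorem FibA_card (j a : ℕ) : (FibA_T j a).card ≤ j.factorial := by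
  classical
  refine ord_card j a _ fun p hp => ?_
  unfold FibA_T at hp
  exact (Finset.mem_filter.1 hp).2

private theorem FibA_mem {j a : ℕ} {p : Fin j → ℕ} (h1 : ∀ s, (p s).Prime)
    (h2 : Function.Injective p) (h3 : ∏ s, p s = a) : p ∈ FibA_T j a := by
  classical
  unfold FibA_T
  rw [Finset.mem_filter, Fintype.mem_piFinset]
  refine ⟨fun s => ?_, h1, h2, h3⟩
  rw [Nat.mem_primeFactors]
  refine ⟨h1 s, ?_, ?_⟩
  · rw [← h3]
    exact Finset.dvd_prod_of_mem p (Finset.mem_univ s)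
  · rw [← h3]
    exact Finset.prod_ne_zero_iff.2 fun s _ => (h1 s).ne_zero

open Classical in
theorem fib_a (R : Finset (ℕ × ℕ × ℕ)) (F : Finset ℕ) (κ : ℝ) (P j : ℕ) (hM : Mul κ P R) (A : Finset (ℕ × ℕ)) (B : Finset ℕ) :
    (((Om R F j).filter (fun w => (qa w, v0 w) ∈ A ∧ pa w ∈ B)).card : ℝ) ≤
      κ ^ (2 * j) * (j.factorial : ℝ) ^ 2 * A.card * B.card := by
  obtain ⟨S, hS⟩ : ∃ S, S = (Om R F j).filter (fun w => (qa w, v0 w) ∈ A ∧ pa w ∈ B) := ⟨_, rfl⟩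
  rw [← hS]
  obtain ⟨φ, hφ⟩ : ∃ φ : Wk j → ℕ × (Fin j → ℕ) × (Fin j → ℕ),
    φ = fun w => (v0 w, (fun s => (w.2 s).1), fun s => (w.2 s).2.2) := ⟨_, rfl⟩
  have hκ : (0 : ℝ) ≤ κ ^ (2 * j) := pow_nonneg (by have := hM.one; linarith) _
  -- fibres
  have h1 : (S.card : ℝ) ≤ κ ^ (2 * j) * (S.image φ).card := by
    rw [Finset.card_eq_sum_card_image φ S]
    push_cast
    calc ∑ b ∈ S.image φ, ((S.filter (fun a => φ a = b)).card : ℝ)
        ≤ ∑ _b ∈ S.image φ, κ ^ (2 * j) := by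
          refine Finset.sum_le_sum fun b _ => ?_
          obtain ⟨i, p, q⟩ := b
          refine le_trans ?_ (walk_fib R F κ P j hM i p q)
          have hsub : S.filter (fun a => φ a = (i, p, q)) ⊆
              (Om R F j).filter (fun w => v0 w = i ∧ (∀ s, (w.2 s).1 = p s) ∧
                ∀ s, (w.2 s).2.2 = q s) := by
            intro w hw
            rw [Finset.mem_filter] at hw
            obtain ⟨g1, g2⟩ := hw
            rw [hS, Finset.mem_filter] at g1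
            rw [Finset.mem_filter]
            rw [hφ] at g2
            simp only [Prod.mk.injEq] at g2
            exact ⟨g1.1, g2.1, fun s => congrFun g2.2.1 s, fun s => congrFun g2.2.2 s⟩
          exact_mod_cast Finset.card_le_card hsub
      _ = κ ^ (2 * j) * (S.image φ).card := by
          rw [Finset.sum_const, nsmul_eq_mul, mul_comm]
  -- the image
  have h2 : (S.image φ).card ≤ (A ×ˢ B).card * (j.factorial * j.factorial) := by
    have hsub : S.image φ ⊆ (A ×ˢ B).biUnion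
        (fun t => ({t.1.2} : Finset ℕ) ×ˢ (FibA_T j t.2 ×ˢ FibA_T j t.1.1)) := by
      intro x hx
      rw [Finset.mem_image] at hx
      obtain ⟨w, hw, rfl⟩ := hx
      rw [hS, Finset.mem_filter, mem_Om] at hw
      obtain ⟨⟨g1, g2, g3⟩, g4, g5⟩ := hw
      rw [Finset.mem_biUnion]
      refine ⟨((qa w, v0 w), pa w), Finset.mem_product.2 ⟨g4, g5⟩, ?_⟩
      rw [hφ]
      simp only [Finset.mem_product, Finset.mem_singleton, true_and]
      constructor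
      · refine FibA_mem (fun s => (hM.prime _ (g2 s).1).1) (fun x y hxy => ?_) rfl
        have := g3 (a₁ := Sum.inl x) (a₂ := Sum.inl y) hxy
        exact Sum.inl_injective this
      · refine FibA_mem (fun s => (hM.prime _ (g2 s).2).1) (fun x y hxy => ?_) rfl
        have := g3 (a₁ := Sum.inr x) (a₂ := Sum.inr y) hxy
        exact Sum.inr_injective this
    refine (Finset.card_le_card hsub).trans (Finset.card_biUnion_le_card_mul _ _ _ fun t _ => ?_)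
    rw [Finset.card_product, Finset.card_product, Finset.card_singleton, one_mul]
    exact Nat.mul_le_mul (FibA_card _ _) (FibA_card _ _)
  have h3 : ((S.image φ).card : ℝ) ≤ (A.card : ℝ) * B.card * (j.factorial * j.factorial) := by
    rw [Finset.card_product] at h2
    exact_mod_cast h2
  refine h1.trans ((mul_le_mul_of_nonneg_left h3 hκ).trans (le_of_eq ?_))
  ring

end Pool.Agent.H74.MDX

end

section

/-!
# MDX FibB: walks with given first prime, last prime and position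

Proof.  Map `w ↦ (v0 w, p-sequence, q-sequence)`, fibres have at most `κ^(2(j+1))` elements (`walk_fib`).  In the image: the `q`-sequence is determined by
its first `j` members (each in `(P, 2P]`, at most `P^j` possibilities; the last one is `q`), the `p`-sequence by its last `j` members (`P^j` possibilities),
and given the `q`-sequence the first vertex satisfies `|v0 · a - X| ≤ c P^j` with `a = ∏_(s < j) q_s ≥ P^j`, so `|v0 - X/a| ≤ c`: at most `2c+1` values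
(`int_card` in MulRel).  Total `κ^(2j+2) (2c+1) P^(2j)`.
-/

set_option autoImplicit false

namespace Pool.Agent.H74.MDX

open Finset

private theorem FibB_rng {R : Finset (ℕ × ℕ × ℕ)} {F : Finset ℕ} {κ : ℝ} {P j : ℕ} (hM : Mul κ P R) {w : Wk j}
    (hw : w ∈ Om R F j) (s : Fin j) :
    (P < (w.2 s).1 ∧ (w.2 s).1 ≤ 2 * P) ∧ (P < (w.2 s).2.2 ∧ (w.2 s).2.2 ≤ 2 * P) := by
  have h := (mem_Om.1 hw).2.1 s
  exact ⟨(hM.prime _ h.1).2, (hM.prime _ h.2).2⟩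

open Classical in
private theorem FibB_fiber (R : Finset (ℕ × ℕ × ℕ)) (F : Finset ℕ) (κ : ℝ) (P j : ℕ) (hM : Mul κ P R) (c X : ℝ) (hc : 0 ≤ c)
    (p q : ℕ) (b : (Fin j → ℕ) × (Fin j → ℕ)) :
    ((((Om R F (j + 1)).filter (fun w => pf w = p ∧ ql w = q ∧
      |(v0 w : ℝ) * qa (Lw w) - X| ≤ c * (P : ℝ) ^ j)).filter
        (fun w => ((fun s : Fin j => (w.2 s.succ).1), (fun s : Fin j => (w.2 s.castSucc).2.2)) = b)).card : ℝ) ≤
      κ ^ (2 * j + 2) * (2 * c + 1) := by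
  set U := (((Om R F (j + 1)).filter (fun w => pf w = p ∧ ql w = q ∧
      |(v0 w : ℝ) * qa (Lw w) - X| ≤ c * (P : ℝ) ^ j)).filter
        (fun w => ((fun s : Fin j => (w.2 s.succ).1), (fun s : Fin j => (w.2 s.castSucc).2.2)) = b)) with hU
  have hκ : 0 ≤ κ := le_trans zero_le_one hM.one
  have hUm : ∀ w ∈ U, w ∈ Om R F (j + 1) ∧ pf w = p ∧ ql w = q ∧
      |(v0 w : ℝ) * qa (Lw w) - X| ≤ c * (P : ℝ) ^ j ∧ (∀ s : Fin j, (w.2 s.succ).1 = b.1 s) ∧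
      (∀ s : Fin j, (w.2 s.castSucc).2.2 = b.2 s) := by
    intro w hw
    rw [hU, Finset.mem_filter, Finset.mem_filter] at hw
    obtain ⟨⟨h1, h2, h3, h4⟩, h5⟩ := hw
    refine ⟨h1, h2, h3, h4, fun s => ?_, fun s => ?_⟩
    · exact congrFun (congrArg Prod.fst h5) s
    · exact congrFun (congrArg Prod.snd h5) s
  have himg : (((U.image v0).card : ℕ) : ℝ) ≤ 2 * c + 1 := by
    refine int_card _ (X / ((∏ s, b.2 s : ℕ) : ℝ)) c hc ?_
    intro k hk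
    rw [Finset.mem_image] at hk
    obtain ⟨w, hw, rfl⟩ := hk
    obtain ⟨h1, -, -, h4, -, h6⟩ := hUm w hw
    have hqa : qa (Lw w) = ∏ s, b.2 s := by
      unfold qa Lw
      exact Finset.prod_congr rfl (fun s _ => h6 s)
    have hlow : P ^ j ≤ ∏ s, b.2 s := by
      have : ∏ _s : Fin j, P ≤ ∏ s, b.2 s := by
        refine Finset.prod_le_prod' (fun s _ => ?_)
        rw [← h6 s]
        exact (FibB_rng hM h1 s.castSucc).2.1.le
      rwa [Finset.prod_const, Finset.card_univ, Fintype.card_fin] at this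
    have hP0 : 0 < P ^ j := Nat.pow_pos hM.pos
    have ha0 : (0 : ℝ) < ((∏ s, b.2 s : ℕ) : ℝ) := by exact_mod_cast lt_of_lt_of_le hP0 hlow
    have hlow' : (P : ℝ) ^ j ≤ ((∏ s, b.2 s : ℕ) : ℝ) := by exact_mod_cast hlow
    rw [hqa] at h4
    have h7 : (v0 w : ℝ) - X / ((∏ s, b.2 s : ℕ) : ℝ) = ((v0 w : ℝ) * ((∏ s, b.2 s : ℕ) : ℝ) - X) / ((∏ s, b.2 s : ℕ) : ℝ) := by
      field_simp
    rw [h7, abs_div, abs_of_pos ha0, div_le_iff₀ ha0]
    exact h4.trans (mul_le_mul_of_nonneg_left hlow' hc)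
  have hsum : U.card = ∑ i ∈ U.image v0, (U.filter (fun w => v0 w = i)).card :=
    Finset.card_eq_sum_card_image v0 U
  rw [hsum]
  push_cast
  calc ∑ i ∈ U.image v0, ((U.filter (fun w => v0 w = i)).card : ℝ)
      ≤ ∑ i ∈ U.image v0, κ ^ (2 * (j + 1)) := by
        refine Finset.sum_le_sum (fun i _ => ?_)
        refine le_trans ?_ (walk_fib R F κ P (j + 1) hM i (Fin.cons p b.1) (Fin.snoc b.2 q))
        refine Nat.cast_le.2 (Finset.card_le_card ?_)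
        intro w hw
        rw [Finset.mem_filter] at hw
        obtain ⟨h1, h2, h3, -, h5, h6⟩ := hUm w hw.1
        rw [Finset.mem_filter]
        refine ⟨h1, hw.2, fun s => ?_, fun s => ?_⟩
        · refine Fin.cases ?_ (fun t => ?_) s
          · exact h2
          · exact h5 t
        · refine Fin.lastCases ?_ (fun t => ?_) s
          · rw [Fin.snoc_last]
            exact h3
          · rw [Fin.snoc_castSucc]
            exact h6 t
    _ = ((U.image v0).card : ℝ) * κ ^ (2 * (j + 1)) := by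
        rw [Finset.sum_const, nsmul_eq_mul]
    _ ≤ (2 * c + 1) * κ ^ (2 * (j + 1)) := mul_le_mul_of_nonneg_right himg (pow_nonneg hκ _)
    _ = κ ^ (2 * j + 2) * (2 * c + 1) := by
        rw [mul_comm, show 2 * (j + 1) = 2 * j + 2 by ring]

open Classical in
theorem fib_b (R : Finset (ℕ × ℕ × ℕ)) (F : Finset ℕ) (κ : ℝ) (P j : ℕ) (hM : Mul κ P R) (c X : ℝ) (hc : 0 ≤ c) (p q : ℕ) :
    (((Om R F (j + 1)).filter (fun w => pf w = p ∧ ql w = q ∧
      |(v0 w : ℝ) * qa (Lw w) - X| ≤ c * (P : ℝ) ^ j)).card : ℝ) ≤ κ ^ (2 * j + 2) * (2 * c + 1) * (P : ℝ) ^ (2 * j) := by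
  set T := (Om R F (j + 1)).filter (fun w => pf w = p ∧ ql w = q ∧
      |(v0 w : ℝ) * qa (Lw w) - X| ≤ c * (P : ℝ) ^ j) with hT
  let f : Wk (j + 1) → (Fin j → ℕ) × (Fin j → ℕ) :=
    fun w => ((fun s : Fin j => (w.2 s.succ).1), (fun s : Fin j => (w.2 s.castSucc).2.2))
  let PP : Finset (Fin j → ℕ) := Fintype.piFinset (fun _ => Ioc P (2 * P))
  have hmap : ∀ w ∈ T, f w ∈ PP ×ˢ PP := by
    intro w hw
    rw [hT, Finset.mem_filter] at hw
    rw [Finset.mem_product]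
    refine ⟨Fintype.mem_piFinset.2 (fun s => ?_), Fintype.mem_piFinset.2 (fun s => ?_)⟩
    · exact Finset.mem_Ioc.2 (FibB_rng hM hw.1 s.succ).1
    · exact Finset.mem_Ioc.2 (FibB_rng hM hw.1 s.castSucc).2
  have hcard : PP.card = P ^ j := by
    show (Fintype.piFinset (fun _ : Fin j => Ioc P (2 * P))).card = P ^ j
    rw [Fintype.card_piFinset, Finset.prod_const, Finset.card_univ, Fintype.card_fin, Nat.card_Ioc]
    congr 1
    omega
  have hsum : T.card = ∑ b ∈ PP ×ˢ PP, (T.filter (fun w => f w = b)).card :=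
    Finset.card_eq_sum_card_fiberwise hmap
  rw [hsum]
  push_cast
  calc ∑ b ∈ PP ×ˢ PP, ((T.filter (fun w => f w = b)).card : ℝ)
      ≤ ∑ b ∈ PP ×ˢ PP, κ ^ (2 * j + 2) * (2 * c + 1) :=
        Finset.sum_le_sum (fun b _ => FibB_fiber R F κ P j hM c X hc p q b)
    _ = κ ^ (2 * j + 2) * (2 * c + 1) * (P : ℝ) ^ (2 * j) := by
        rw [Finset.sum_const, nsmul_eq_mul, Finset.card_product, hcard]
        push_cast
        ring

end Pool.Agent.H74.MDX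

end

section

/-!
# MDX CntS: two counts of exceptional walks

`cntN`: `S ⊆ ⋃_{x ∈ Ms} ⋃_{f ∈ N x} {w : pf w = f.2.1, ql w = f.1.1, |v0 w qa (Lw w) - f.1.2.1 P^j| ≤ D P^j}` and each of these sets is bounded by `fib_b`.
`cntA`: `S ⊆ ⋃_{M ∈ Ms} ⋃_{γ ∈ Γ M, |DS (M, γ)| ≤ y} {w : (qa w, v0 w) ∈ DS (M, γ), pa w ∈ (DS (M, γ)).image fst}`; by `fib_a` each set has at most
`κ^(2j) (j!)^2 |DS|^2 ≤ κ^(2j) (j!)^2 y |DS|` elements; sum over `γ ∈ Γ M` with `hT`.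
-/

set_option autoImplicit false

namespace Pool.Agent.H74.MDX

open Finset

open Classical in
private theorem CntS_un {A B W : Type*} (Ms : Finset A) (N : A → Finset B) (T : A → B → Finset W) (S : Finset W) (f : A → B → ℝ)
    (Y : ℝ) (hS : ∀ w ∈ S, ∃ x ∈ Ms, ∃ b ∈ N x, w ∈ T x b) (hT : ∀ x b, ((T x b).card : ℝ) ≤ f x b)
    (hY : ∀ x ∈ Ms, ∑ b ∈ N x, f x b ≤ Y) : (S.card : ℝ) ≤ Ms.card * Y := by
  have h1 : S ⊆ Ms.biUnion (fun x => (N x).biUnion (fun b => T x b)) := by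
    intro w hw
    obtain ⟨x, hx, b, hb, h⟩ := hS w hw
    exact Finset.mem_biUnion.2 ⟨x, hx, Finset.mem_biUnion.2 ⟨b, hb, h⟩⟩
  have h2 : S.card ≤ ∑ x ∈ Ms, ∑ b ∈ N x, (T x b).card :=
    (Finset.card_le_card h1).trans (Finset.card_biUnion_le.trans
      (Finset.sum_le_sum fun x _ => Finset.card_biUnion_le))
  have h3 : (S.card : ℝ) ≤ ∑ x ∈ Ms, ∑ b ∈ N x, ((T x b).card : ℝ) := by exact_mod_cast h2
  refine h3.trans ?_
  calc ∑ x ∈ Ms, ∑ b ∈ N x, ((T x b).card : ℝ) ≤ ∑ x ∈ Ms, Y :=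
        Finset.sum_le_sum fun x hx => (Finset.sum_le_sum fun b _ => hT x b).trans (hY x hx)
    _ = Ms.card * Y := by rw [Finset.sum_const, nsmul_eq_mul]

theorem cntN (R : Finset (ℕ × ℕ × ℕ)) (F : Finset ℕ) (κ : ℝ) (P j : ℕ) (hM : Mul κ P R) (D B1 : ℝ) (hD : 0 ≤ D)
    (hB1 : 0 ≤ B1) (S : Finset (Wk (j + 1))) (hS : S ⊆ Om R F (j + 1)) (Ms : Finset ℕ) (M : Wk (j + 1) → ℕ)
    (hMs : ∀ w ∈ S, M w ∈ Ms) (N : ℕ → Finset ((ℕ × ℕ × ℝ) × (ℕ × ℕ × ℝ))) (hN : ∀ x ∈ Ms, ((N x).card : ℝ) ≤ B1)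
    (e : Wk (j + 1) → (ℕ × ℕ × ℝ) × (ℕ × ℕ × ℝ)) (he : ∀ w ∈ S, e w ∈ N (M w))
    (he1 : ∀ w ∈ S, (e w).1.1 = ql w ∧ (e w).2.1 = pf w)
    (hpos : ∀ w ∈ S, |(v0 w : ℝ) * qa (Lw w) - (e w).1.2.1 * (P : ℝ) ^ j| ≤ D * (P : ℝ) ^ j) :
    (S.card : ℝ) ≤ Ms.card * (B1 * (κ ^ (2 * j + 2) * (2 * D + 1) * (P : ℝ) ^ (2 * j))) := by
  classical
  have hκ : (0 : ℝ) ≤ κ := zero_le_one.trans hM.one
  have hZ : 0 ≤ κ ^ (2 * j + 2) * (2 * D + 1) * (P : ℝ) ^ (2 * j) := by positivity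
  refine CntS_un Ms N (fun _ f => (Om R F (j + 1)).filter (fun w => pf w = f.2.1 ∧ ql w = f.1.1 ∧
      |(v0 w : ℝ) * qa (Lw w) - (f.1.2.1 : ℝ) * (P : ℝ) ^ j| ≤ D * (P : ℝ) ^ j)) S
    (fun _ _ => κ ^ (2 * j + 2) * (2 * D + 1) * (P : ℝ) ^ (2 * j)) _ ?_ ?_ ?_
  · intro w hw
    refine ⟨M w, hMs w hw, e w, he w hw, Finset.mem_filter.2 ⟨hS hw, (he1 w hw).2.symm, (he1 w hw).1.symm, hpos w hw⟩⟩
  · intro x f
    exact fib_b R F κ P j hM D ((f.1.2.1 : ℝ) * (P : ℝ) ^ j) hD f.2.1 f.1.1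
  · intro x hx
    rw [Finset.sum_const, nsmul_eq_mul]
    exact mul_le_mul_of_nonneg_right (hN x hx) hZ

theorem cntA (R : Finset (ℕ × ℕ × ℕ)) (F : Finset ℕ) (α : ℕ → ℝ) (κ : ℝ) (P j : ℕ) (hM : Mul κ P R) (D τ y T : ℝ)
    (hy0 : 0 ≤ y) (S : Finset (Wk j)) (hS : S ⊆ Om R F j) (Ms : Finset ℕ) (Γ : ℕ → Finset ℝ) (c : Wk j → ℕ × ℝ)
    (hc : ∀ w ∈ S, (c w).1 ∈ Ms ∧ (c w).2 ∈ Γ (c w).1)
    (h0 : ∀ w ∈ S, (qa w, v0 w) ∈ DS P j D τ F α (c w)) (h1 : ∀ w ∈ S, (pa w, v1 w) ∈ DS P j D τ F α (c w))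
    (hy : ∀ w ∈ S, ((DS P j D τ F α (c w)).card : ℝ) ≤ y)
    (hT : ∀ M ∈ Ms, ∑ γ ∈ Γ M, ((DS P j D τ F α (M, γ)).card : ℝ) ≤ T) :
    (S.card : ℝ) ≤ κ ^ (2 * j) * (j.factorial : ℝ) ^ 2 * Ms.card * y * T := by
  classical
  have hκ : (0 : ℝ) ≤ κ := zero_le_one.trans hM.one
  set Z : ℝ := κ ^ (2 * j) * (j.factorial : ℝ) ^ 2 with hZ
  have hZ0 : 0 ≤ Z := by positivity
  have key := CntS_un Ms (fun x => (Γ x).filter (fun γ => ((DS P j D τ F α (x, γ)).card : ℝ) ≤ y))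
    (fun x γ => (Om R F j).filter (fun w => (qa w, v0 w) ∈ DS P j D τ F α (x, γ) ∧
      pa w ∈ (DS P j D τ F α (x, γ)).image Prod.fst)) S
    (fun x γ => Z * ((DS P j D τ F α (x, γ)).card : ℝ) * ((DS P j D τ F α (x, γ)).card : ℝ)) (Z * y * T) ?_ ?_ ?_
  · refine key.trans (le_of_eq ?_)
    ring
  · intro w hw
    refine ⟨(c w).1, (hc w hw).1, (c w).2, Finset.mem_filter.2 ⟨(hc w hw).2, hy w hw⟩,
      Finset.mem_filter.2 ⟨hS hw, h0 w hw, Finset.mem_image.2 ⟨_, h1 w hw, rfl⟩⟩⟩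
  · intro x γ
    refine (fib_a R F κ P j hM (DS P j D τ F α (x, γ)) ((DS P j D τ F α (x, γ)).image Prod.fst)).trans ?_
    refine mul_le_mul_of_nonneg_left ?_ (by positivity)
    exact_mod_cast Finset.card_image_le
  · intro x hx
    have a1 : ∑ γ ∈ (Γ x).filter (fun γ => ((DS P j D τ F α (x, γ)).card : ℝ) ≤ y),
        Z * ((DS P j D τ F α (x, γ)).card : ℝ) * ((DS P j D τ F α (x, γ)).card : ℝ) ≤
        ∑ γ ∈ (Γ x).filter (fun γ => ((DS P j D τ F α (x, γ)).card : ℝ) ≤ y),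
        Z * y * ((DS P j D τ F α (x, γ)).card : ℝ) := by
      refine Finset.sum_le_sum fun γ hγ => ?_
      refine mul_le_mul_of_nonneg_right ?_ (Nat.cast_nonneg _)
      exact mul_le_mul_of_nonneg_left (Finset.mem_filter.1 hγ).2 hZ0
    refine a1.trans ?_
    rw [← Finset.mul_sum]
    refine mul_le_mul_of_nonneg_left ?_ (by positivity)
    refine le_trans ?_ (hT x hx)
    exact Finset.sum_le_sum_of_subset_of_nonneg (Finset.filter_subset _ _) (fun _ _ _ => Nat.cast_nonneg _)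

end Pool.Agent.H74.MDX

end

section

/-!
# MDX Nodes: the nodes over one scale `M`

Proof.  `E = EX c P η V M`, `VV = VX c P V M`, `pr = Prod.fst`.  Every prime `p` has at most `(2c+1) m ≤ b` vertices (`|K p - M P| ≤ c P`, `P < p`: at most `2c+1` values `K`
(`int_card`), then at most `m` values `k`), so `|VV| ≤ b P` (`Ioc P (2P)` has `P` elements).  `root_label` gives `s`; `rich` with `root = s` gives
`N` = the edges with fewer than `κ P` edges with the same first vertex and the same label, `|N| ≤ 2 κ b P^2`.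
For `e ∈ E` put `ω e = (e.1.2.2 + s e)/e.1.1`: `e.1.1 ω e - e.1.2.2 = s e` is an integer (so `nz = 0`) and `nz (e.2.1 ω e - e.2.2.2) ≤ 2η/e.1.1 ≤ 2 η/P`.
`Γ` = the net (`net`) of the finite set of the `ω e`, `e ∈ E \ N`, with separation `s0`.  For `e ∈ E \ N` there is `γ ∈ Γ` with `nz (ω e - γ) ≤ s0`, so
`nz (e.1.1 γ - e.1.2.2) ≤ e.1.1 s0 ≤ 2 P s0 ≤ y` (`nz_nat_mul`, `nz_neg`) and `nz (e.2.1 γ - e.2.2.2) ≤ 2 P s0 + 2η/P ≤ y`.
Each `γ ∈ Γ` is `ω e` for some `e ∈ E \ N`: the set `U` of the second vertices of the (at least `κ P`) edges `f ∈ E` with `f.1 = e.1`, `s f = s e` satisfies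
`nz (u.1 γ - u.2.2) ≤ 2η/P`; `weak` (with `η' = 2η/P`) gives `|DS P (j+1) D1 τ1 F α (M, γ)| ≥ κ P μ P^j/(m (j+1)(2c+1)) =: m0`.
`sets_sum` with `A γ = DS P (j+1) D1 τ1 F α (M, γ)`, `U` = their union, `Tot = (2 D1+1)(2P)^(j+1)` (`ds_tot`), `near γ γ' := nz (γ - γ') ≤ 2 τ1/P^(j+1)`,
`Kn` (`near_card`, `4 τ1/(P^(j+1) s0) + 1 ≤ Kn`), `ι = 5 (2 D1+1)(2P)^(j+1)/P` (`ds_int`), `hbig`.
-/

set_option autoImplicit false

namespace Pool.Agent.H74.MDX

open Finset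
open Pool.Agent.H53.MID (nz Rel Desc)

private theorem Nodes_fib (P M : ℕ) (c m b : ℝ) (V : Finset (ℕ × ℝ)) (hP : 1 ≤ P) (hc : 1 ≤ c) (hm : 1 ≤ m)
    (hmult : ∀ K : ℕ, ((V.filter (fun v => v.1 = K)).card : ℝ) ≤ m)
    (hb : (2 * c + 1) * m ≤ b) (p : ℕ) : (((VX c P V M).filter (fun v => v.1 = p)).card : ℝ) ≤ b := by
  classical
  have hP0 : (0 : ℝ) < P := by exact_mod_cast hP
  have hb0 : 0 ≤ b := by
    refine le_trans ?_ hb
    positivity
  by_cases hp : P < p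
  · have hp0 : (0 : ℝ) < p := hP0.trans (by exact_mod_cast hp)
    have hPp : (P : ℝ) ≤ p := by exact_mod_cast hp.le
    set S := (VX c P V M).filter (fun v => v.1 = p) with hS
    have h1 : (S.card : ℝ) = ∑ K ∈ S.image (fun v => v.2.1), ((S.filter (fun v => v.2.1 = K)).card : ℝ) := by
      exact_mod_cast Finset.card_eq_sum_card_image (fun v : ℕ × ℕ × ℝ => v.2.1) S
    have h2 : ∀ K ∈ S.image (fun v => v.2.1), ((S.filter (fun v => v.2.1 = K)).card : ℝ) ≤ m := by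
      intro K _
      refine le_trans ?_ (hmult K)
      have h3 : (S.filter (fun v => v.2.1 = K)).card = ((S.filter (fun v => v.2.1 = K)).image Prod.snd).card := by
        rw [Finset.card_image_of_injOn]
        intro x hx y hy hxy
        rw [Finset.mem_coe, Finset.mem_filter, hS, Finset.mem_filter] at hx hy
        exact Prod.ext (hx.1.2.trans hy.1.2.symm) hxy
      rw [h3]
      have h4 : (S.filter (fun v => v.2.1 = K)).image Prod.snd ⊆ V.filter (fun v => v.1 = K) := by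
        intro x hx
        rw [Finset.mem_image] at hx
        obtain ⟨v, hv, rfl⟩ := hx
        rw [Finset.mem_filter, hS, Finset.mem_filter] at hv
        rw [Finset.mem_filter]
        exact ⟨(mem_VX.1 hv.1.1).2.2.1, hv.2⟩
      exact_mod_cast Finset.card_le_card h4
    have h5 : ((S.image (fun v => v.2.1)).card : ℝ) ≤ 2 * c + 1 := by
      refine int_card _ (M * P / p) c (by linarith) ?_
      intro K hK
      rw [Finset.mem_image] at hK
      obtain ⟨v, hv, rfl⟩ := hK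
      rw [hS, Finset.mem_filter] at hv
      have h6 := (mem_VX.1 hv.1).2.2.2
      rw [hv.2] at h6
      have e : ((v.2.1 : ℕ) : ℝ) - M * P / p = ((v.2.1 : ℝ) * p - M * P) / p := by
        field_simp
      rw [e, abs_div, abs_of_pos hp0, div_le_iff₀ hp0]
      exact h6.trans (mul_le_mul_of_nonneg_left hPp (by linarith))
    rw [h1]
    refine (Finset.sum_le_sum h2).trans ?_
    rw [Finset.sum_const, nsmul_eq_mul]
    exact (mul_le_mul_of_nonneg_right h5 (by linarith)).trans hb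
  · have h1 : (VX c P V M).filter (fun v => v.1 = p) = ∅ := by
      rw [Finset.filter_eq_empty_iff]
      intro v hv h2
      have := (mem_VX.1 hv).1.1
      omega
    rw [h1]
    simpa using hb0

private theorem Nodes_VX (P M : ℕ) (c b : ℝ) (V : Finset (ℕ × ℝ))
    (h : ∀ p : ℕ, (((VX c P V M).filter (fun v => v.1 = p)).card : ℝ) ≤ b) : ((VX c P V M).card : ℝ) ≤ b * P := by
  classical
  have h1 : ((VX c P V M).card : ℝ) = ∑ p ∈ Ioc P (2 * P), (((VX c P V M).filter (fun v => v.1 = p)).card : ℝ) := by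
    exact_mod_cast Finset.card_eq_sum_card_fiberwise (f := fun v : ℕ × ℕ × ℝ => v.1) (s := VX c P V M) (t := Ioc P (2 * P))
      (fun v hv => by
        have := (mem_VX.1 (Finset.mem_coe.1 hv)).1
        exact Finset.mem_coe.2 (Finset.mem_Ioc.2 this))
  rw [h1]
  refine (Finset.sum_le_sum (fun p _ => h p)).trans ?_
  rw [Finset.sum_const, nsmul_eq_mul, Nat.card_Ioc]
  have : ((2 * P - P : ℕ) : ℝ) = P := by
    have : 2 * P - P = P := by omega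
    rw [this]
  rw [this, mul_comm]

open Classical in
theorem nodes (P j M : ℕ) (c D D1 τ τ1 η s0 y μ κ m b Kn : ℝ) (F : Finset ℕ) (α : ℕ → ℝ) (V : Finset (ℕ × ℝ))
    (hP : 2 ^ (j + 1) < P) (hc : 1 ≤ c) (hD : 0 ≤ D) (hτ : 0 ≤ τ) (hη : 0 < η) (hηP : 100 * η * (P : ℝ) ^ 2 ≤ 1)
    (hs0 : 0 < s0) (hμ : 0 < μ) (hκ : 0 < κ) (hm : 1 ≤ m)
    (hV : ∀ v ∈ V, μ * (P : ℝ) ^ j ≤ ((DS P j D τ F α v).card : ℝ))
    (hmult : ∀ K : ℕ, ((V.filter (fun v => v.1 = K)).card : ℝ) ≤ m)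
    (hb : (2 * c + 1) * m ≤ b) (hb2 : b ^ 2 < 2 * κ ^ 2 * P)
    (hD1 : 2 * D + c ≤ D1) (hτ1 : (2 * (P : ℝ)) ^ j * (2 * η / P) + τ ≤ τ1) (hτP : 40 * τ1 * P ≤ 1)
    (hy : 2 * η / P + 2 * P * s0 ≤ y) (hKn : 4 * τ1 / ((P : ℝ) ^ (j + 1) * s0) + 1 ≤ Kn)
    (hbig : 2 * ((2 * D1 + 1) * (2 * P) ^ (j + 1)) * (5 * (2 * D1 + 1) * (2 * P) ^ (j + 1) / P) ≤
      (κ * P * (μ * (P : ℝ) ^ j) / (m * ((j + 1) * (2 * c + 1)))) ^ 2) :
    ∃ (Γ : Finset ℝ) (N : Finset ((ℕ × ℕ × ℝ) × (ℕ × ℕ × ℝ))), (N.card : ℝ) ≤ 2 * κ * b * (P : ℝ) ^ 2 ∧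
      ∑ γ ∈ Γ, ((DS P (j + 1) D1 τ1 F α (M, γ)).card : ℝ) ≤ 2 * Kn * ((2 * D1 + 1) * (2 * P) ^ (j + 1)) ∧
      ∀ e ∈ EX c P η V M, e ∉ N → ∃ γ ∈ Γ, nz ((e.1.1 : ℝ) * γ - e.1.2.2) ≤ y ∧ nz ((e.2.1 : ℝ) * γ - e.2.2.2) ≤ y := by
  have hP1 : 1 ≤ P := by
    have := Nat.one_le_two_pow (n := j + 1)
    omega
  have hP0 : (0 : ℝ) < P := by exact_mod_cast hP1
  have hc0 : 0 < c := by linarith
  have hD10 : 0 ≤ D1 := by linarith
  have hτ10 : 0 ≤ τ1 := by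
    refine le_trans ?_ hτ1
    positivity
  have hb0 : 0 < b := by
    refine lt_of_lt_of_le ?_ hb
    have : 0 < m := by linarith
    positivity
  have hm0 : 0 < m := by linarith
  obtain ⟨s, hs1, hs2⟩ := root_label c P η V M hP1 hη.le hηP
  set E := EX c P η V M with hE
  set VV := VX c P V M with hVV
  have hfib := Nodes_fib P M c m b V hP1 hc hm hmult hb
  have hVcard := Nodes_VX P M c b V hfib
  have hEs : E ⊆ VV ×ˢ VV := by
    intro e he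
    rw [hE, mem_EX] at he
    exact Finset.mem_product.2 ⟨he.1, he.2.1⟩
  have hN0 := rich VV (fun v => v.1) E s b κ P hb0 hκ hP0 (fun p => by simpa using hfib p) hVcard hEs hs2 hb2
  set N := E.filter (fun e => ((E.filter (fun f => f.1 = e.1 ∧ s f = s e)).card : ℝ) < κ * P) with hNdef
  have hN : (N.card : ℝ) ≤ 2 * κ * b * (P : ℝ) ^ 2 := by
    rw [hNdef]
    exact (le_of_eq (by congr; funext e; congr)).trans hN0
  set ω : (ℕ × ℕ × ℝ) × (ℕ × ℕ × ℝ) → ℝ := fun e => (e.1.2.2 + s e) / e.1.1 with hω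
  obtain ⟨Γ, hΓW, hΓnet, hΓsep⟩ := net ((E \ N).image ω) s0 hs0.le
  have hpos : ∀ e ∈ E, (P : ℝ) < e.1.1 ∧ (e.1.1 : ℝ) ≤ 2 * P ∧ (e.2.1 : ℝ) ≤ 2 * P := by
    intro e he
    rw [hE, mem_EX, mem_VX, mem_VX] at he
    obtain ⟨h1, h2, -, -⟩ := he
    exact ⟨by exact_mod_cast h1.1.1, by exact_mod_cast h1.1.2, by exact_mod_cast h2.1.2⟩
  have hs1' : ∀ e ∈ E, nz ((e.2.1 : ℝ) * ω e - e.2.2.2) ≤ 2 * η / P := by
    intro e he
    refine (hs1 e he).trans ?_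
    exact div_le_div_of_nonneg_left (by positivity) hP0 (hpos e he).1.le
  refine ⟨Γ, N, hN, ?_, ?_⟩
  · -- the sets
    have hlow : ∀ γ ∈ Γ, κ * P * (μ * (P : ℝ) ^ j) / (m * ((j + 1) * (2 * c + 1))) ≤
        ((DS P (j + 1) D1 τ1 F α (M, γ)).card : ℝ) := by
      intro γ hγ
      have h1 := hΓW hγ
      rw [Finset.mem_image] at h1
      obtain ⟨e, he, rfl⟩ := h1
      rw [Finset.mem_sdiff] at he
      obtain ⟨heE, heN⟩ := he
      have h2 : κ * P ≤ ((E.filter (fun f => f.1 = e.1 ∧ s f = s e)).card : ℝ) := by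
        by_contra h3
        push Not at h3
        exact heN (by rw [hNdef, Finset.mem_filter]; exact ⟨heE, h3⟩)
      set U := (E.filter (fun f => f.1 = e.1 ∧ s f = s e)).image Prod.snd with hU
      have hUc : U.card = (E.filter (fun f => f.1 = e.1 ∧ s f = s e)).card := by
        rw [hU, Finset.card_image_of_injOn]
        intro x hx y hy hxy
        rw [Finset.mem_coe, Finset.mem_filter] at hx hy
        exact Prod.ext (hx.2.1.trans hy.2.1.symm) hxy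
      have hUmem : ∀ u ∈ U, ∃ f ∈ E, f.1 = e.1 ∧ s f = s e ∧ f.2 = u := by
        intro u hu
        rw [hU, Finset.mem_image] at hu
        obtain ⟨f, hf, hfu⟩ := hu
        rw [Finset.mem_filter] at hf
        exact ⟨f, hf.1, hf.2.1, hf.2.2, hfu⟩
      have hUV : U ⊆ VX c P V M := by
        intro u hu
        obtain ⟨f, hf, -, -, rfl⟩ := hUmem u hu
        rw [hE, mem_EX] at hf
        exact hf.2.1
      have hUn : ∀ u ∈ U, nz (u.1 * ω e - u.2.2) ≤ 2 * η / P := by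
        intro u hu
        obtain ⟨f, hf, h3, h4, rfl⟩ := hUmem u hu
        have h5 := hs1' f hf
        have h6 : ω f = ω e := by
          rw [hω]
          simp only [h3, h4]
        rw [h6] at h5
        exact h5
      have h3 := weak P j c D D1 τ τ1 (2 * η / P) μ m (ω e) F α M V U hP hc0.le hD hμ.le hm hUV hUn hV hmult hD1 hτ1
      refine le_trans ?_ h3
      refine div_le_div_of_nonneg_right ?_ (by positivity)
      refine mul_le_mul_of_nonneg_right ?_ (by positivity)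
      rw [hUc]
      exact h2
    have hUt : ((Γ.biUnion (fun γ => DS P (j + 1) D1 τ1 F α (M, γ))).card : ℝ) ≤ (2 * D1 + 1) * (2 * P) ^ (j + 1) := by
      refine ds_tot P (j + 1) M D1 _ hP1 hD10 ?_
      intro t ht
      rw [Finset.mem_biUnion] at ht
      obtain ⟨γ, -, ht⟩ := ht
      rw [mem_DS] at ht
      exact ⟨ht.1, ht.2.1, ht.2.2.2.2.1⟩
    have hm00 : 0 < κ * P * (μ * (P : ℝ) ^ j) / (m * ((j + 1) * (2 * c + 1))) := by positivity
    refine sets_sum Γ (Γ.biUnion (fun γ => DS P (j + 1) D1 τ1 F α (M, γ))) (fun γ => DS P (j + 1) D1 τ1 F α (M, γ))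
      (fun γ γ' => nz (γ - γ') ≤ 2 * τ1 / (P : ℝ) ^ (j + 1)) ((2 * D1 + 1) * (2 * P) ^ (j + 1)) Kn
      (5 * (2 * D1 + 1) * (2 * P) ^ (j + 1) / P) (κ * P * (μ * (P : ℝ) ^ j) / (m * ((j + 1) * (2 * c + 1))))
      (fun γ hγ => Finset.subset_biUnion_of_mem (fun γ => DS P (j + 1) D1 τ1 F α (M, γ)) hγ) hUt hm00 (by positivity)
      ?_ hlow ?_ ?_ hbig
    · refine le_trans ?_ hKn
      positivity
    · intro γ _
      refine (near_card Γ s0 (2 * τ1 / (P : ℝ) ^ (j + 1)) hs0 (by positivity) hΓsep γ).trans ?_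
      refine le_trans (le_of_eq ?_) hKn
      field_simp
      ring
    · intro γ _ γ' _ hfar
      by_contra h3
      push Not at h3
      exact hfar (ds_int P j M D1 τ1 F α γ γ' hP1 hD10 hτ10 hτP (lt_of_lt_of_eq h3 (by congr; exact Subsingleton.elim _ _)))
  · intro e he heN
    obtain ⟨γ, hγ, hnz⟩ := hΓnet (ω e) (Finset.mem_image_of_mem _ (Finset.mem_sdiff.2 ⟨he, heN⟩))
    obtain ⟨h1, h2, h3⟩ := hpos e he
    have he0 : (0 : ℝ) < e.1.1 := hP0.trans h1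
    have hηP0 : 0 ≤ 2 * η / P := by positivity
    refine ⟨γ, hγ, ?_, ?_⟩
    · have e1 : (e.1.1 : ℝ) * γ - e.1.2.2 = -((e.1.1 : ℝ) * (ω e - γ)) + (s e : ℝ) := by
        rw [hω]
        field_simp
        ring
      rw [e1, Pool.Agent.H53.MID.nz_add_int, Pool.Agent.H53.MID.nz_neg]
      refine (Pool.Agent.H53.MID.nz_nat_mul _ _).trans ?_
      have h4 : (e.1.1 : ℝ) * nz (ω e - γ) ≤ 2 * P * s0 :=
        mul_le_mul h2 hnz (Pool.Agent.H53.MID.nz_nonneg _) (by positivity)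
      linarith
    · have e1 : (e.2.1 : ℝ) * γ - e.2.2.2 = ((e.2.1 : ℝ) * ω e - e.2.2.2) - (e.2.1 : ℝ) * (ω e - γ) := by
        ring
      rw [e1]
      refine (Pool.Agent.H53.MID.nz_sub _ _).trans ?_
      have h4 : nz ((e.2.1 : ℝ) * (ω e - γ)) ≤ 2 * P * s0 := by
        refine (Pool.Agent.H53.MID.nz_nat_mul _ _).trans ?_
        exact mul_le_mul h3 hnz (Pool.Agent.H53.MID.nz_nonneg _) (by positivity)
      linarith [hs1' e he]

end Pool.Agent.H74.MDX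

end

section

/-!
# MDX NodesP: the nodes over one scale, explicit constants

Apply `nodes` with `X = 2^(j^2+5j)`, `c = 2 (C 3^j) + 1`, `D = C 5^j`, `D1 = C 5^(j+1)`, `τ = X η`, `τ1 = 2^((j+1)^2+5(j+1)) η = 2^(2j+6) X η`,
`η := X η P/P^j`, `s0 = 2^(j+3) X η/P^(j+1)`, `y = 2^(j+5) X η/P^j`, `μ = ε/B^5`, `κ = ε^2/(2 B^11)`, `m = B^7/ε`, `b = B^8/ε`, `Kn = 2^(j+6)`.
Checks (`j < ℓ`, `B ≥ 1`, `ε ≤ 1`): `2^(j+1) < P` (`B ≥ 2^(2ℓ+8)`, `P ≥ 40 B^54/ε^8`); `100 X η P/P^j P^2 ≤ 100 X η P^3 ≤ 1` (`X ≤ 2^(ℓ^2+5ℓ)`);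
`(2c+1) m = (4 C 3^j + 3) m ≤ B m` (`4 C 3^j + 3 ≤ 2 C 5^ℓ + 1`); `b^2 < 2 κ^2 P`: `2 B^38/ε^6 < P`; `2D + c = 2 C 5^j + 2 C 3^j + 1 ≤ 5 C 5^j`;
`(2P)^j 2 (X η P/P^j)/P + X η = (2^(j+1) + 1) X η ≤ 2^(2j+6) X η`; `40 τ1 P ≤ 1`; `2η/P + 2 P s0 = (2 + 2^(j+4)) X η/P^j ≤ y`;
`4 τ1/(P^(j+1) s0) = 2^(j+5)`; `hbig`: left side `= 10 (2 D1+1)^2 2^(2j+2) P^(2j+2)/P ≤ 10 B^3 P^(2j+2)/P` (`2 D1 + 1 ≤ B`, `2^(2j+2) ≤ B`), right side
`≥ (ε^4/(2 B^25))^2 P^(2j+2)` (`κ μ/m = ε^4/(2 B^23)`, `(j+1)(2c+1) ≤ B^2`), and `40 B^53/ε^8 ≤ P`.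
-/

set_option autoImplicit false

namespace Pool.Agent.H74.MDX

open Finset
open Pool.Agent.H53.MID (nz Rel Desc)

/-- the last inequality -/
private theorem NodesP_big (B ε P L t Y : ℝ) (hB : 1 ≤ B) (hε : 0 < ε) (hP0 : 0 < P)
    (hP : 40 * B ^ 54 ≤ ε ^ 8 * P) (Z : ℝ) (hZ : 0 < Z) (hL0 : 0 ≤ L) (hL : L ≤ B) (ht0 : 0 ≤ t) (ht : t ^ 2 ≤ B)
    (hY0 : 0 < Y) (hY : Y ≤ B ^ 2) :
    2 * (L * (t * (P * Z))) * (5 * L * (t * (P * Z)) / P) ≤
      (ε ^ 2 / (2 * B ^ 11) * P * (ε / B ^ 5 * Z) / (B ^ 7 / ε * Y)) ^ 2 := by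
  have hB0 : 0 < B := by linarith
  have e1 : 2 * (L * (t * (P * Z))) * (5 * L * (t * (P * Z)) / P) = 10 * L ^ 2 * t ^ 2 * P * Z ^ 2 := by
    field_simp
    ring
  rw [e1]
  have h1 : 10 * L ^ 2 * t ^ 2 * P * Z ^ 2 ≤ 10 * B ^ 3 * P * Z ^ 2 := by
    have h2 : L ^ 2 * t ^ 2 ≤ B ^ 2 * B :=
      mul_le_mul (pow_le_pow_left₀ hL0 hL 2) ht (by positivity) (by positivity)
    have h3 : 0 ≤ P * Z ^ 2 := by positivity
    nlinarith only [h2, h3, mul_le_mul_of_nonneg_right h2 h3]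
  refine h1.trans ?_
  have h4 : ε ^ 4 * P * Z / (2 * B ^ 25) ≤ ε ^ 2 / (2 * B ^ 11) * P * (ε / B ^ 5 * Z) / (B ^ 7 / ε * Y) := by
    have e2 : ε ^ 2 / (2 * B ^ 11) * P * (ε / B ^ 5 * Z) / (B ^ 7 / ε * Y) = ε ^ 4 * P * Z / (2 * B ^ 23 * Y) := by
      field_simp
    rw [e2]
    refine div_le_div_of_nonneg_left (by positivity) (by positivity) ?_
    have h5 : 2 * B ^ 23 * Y ≤ 2 * B ^ 23 * B ^ 2 := mul_le_mul_of_nonneg_left hY (by positivity)
    calc 2 * B ^ 23 * Y ≤ 2 * B ^ 23 * B ^ 2 := h5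
      _ = 2 * B ^ 25 := by ring
  have h6 : 10 * B ^ 3 * P * Z ^ 2 ≤ (ε ^ 4 * P * Z / (2 * B ^ 25)) ^ 2 := by
    rw [div_pow, le_div_iff₀ (by positivity)]
    have h7 : 40 * B ^ 53 ≤ ε ^ 8 * P := by
      refine le_trans ?_ hP
      have : B ^ 53 ≤ B ^ 54 := pow_le_pow_right₀ hB (by norm_num)
      linarith only [this]
    have h8 : 0 ≤ P * Z ^ 2 := by positivity
    calc 10 * B ^ 3 * P * Z ^ 2 * (2 * B ^ 25) ^ 2 = (40 * B ^ 53) * (P * Z ^ 2) := by ring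
      _ ≤ (ε ^ 8 * P) * (P * Z ^ 2) := mul_le_mul_of_nonneg_right h7 h8
      _ = (ε ^ 4 * P * Z) ^ 2 := by ring
  exact h6.trans (pow_le_pow_left₀ (by positivity) h4 2)

open Classical in
theorem nodesP (C B ε η : ℝ) (ℓ P j M : ℕ) (F : Finset ℕ) (α : ℕ → ℝ) (V : Finset (ℕ × ℝ)) (hPar : Par C ℓ P B ε η)
    (hj : j < ℓ)
    (hV : ∀ v ∈ V, ε / B ^ 5 * (P : ℝ) ^ j ≤ ((DS P j (C * 5 ^ j) (2 ^ (j ^ 2 + 5 * j) * η) F α v).card : ℝ))
    (hmult : ∀ K : ℕ, ((V.filter (fun v => v.1 = K)).card : ℝ) ≤ B ^ 7 / ε) :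
    ∃ (Γ : Finset ℝ) (N : Finset ((ℕ × ℕ × ℝ) × (ℕ × ℕ × ℝ))), (N.card : ℝ) ≤ ε / B ^ 3 * (P : ℝ) ^ 2 ∧
      ∑ γ ∈ Γ, ((DS P (j + 1) (C * 5 ^ (j + 1)) (2 ^ ((j + 1) ^ 2 + 5 * (j + 1)) * η) F α (M, γ)).card : ℝ) ≤
        2 ^ (2 * j + 8) * (2 * (C * 5 ^ (j + 1)) + 1) * (P : ℝ) ^ (j + 1) ∧
      ∀ e ∈ EX (2 * (C * 3 ^ j) + 1) P (2 ^ (j ^ 2 + 5 * j) * η * P / (P : ℝ) ^ j) V M, e ∉ N →
        ∃ γ ∈ Γ, nz ((e.1.1 : ℝ) * γ - e.1.2.2) ≤ 2 ^ (j + 5) * (2 ^ (j ^ 2 + 5 * j) * η) / (P : ℝ) ^ j ∧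
          nz ((e.2.1 : ℝ) * γ - e.2.2.2) ≤ 2 ^ (j + 5) * (2 ^ (j ^ 2 + 5 * j) * η) / (P : ℝ) ^ j := by
  obtain ⟨hC, hB1, hB2, hB3, hB4, hB5, hε, hε1, hη, hPB, hηP⟩ := hPar
  have hB : 1 ≤ B := le_trans (one_le_pow₀ (by norm_num)) hB5
  have hB0 : 0 < B := by linarith
  have hC0 : 0 < C := by linarith
  have hPR : B ^ 54 < P := by
    have h1 : ε ^ 8 * (P : ℝ) ≤ P := by
      have h2 : ε ^ 8 ≤ 1 := pow_le_one₀ hε.le hε1
      nlinarith only [h2, Nat.cast_nonneg (α := ℝ) P]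
    have h3 : 0 < B ^ 54 := by positivity
    linarith
  have hBP : B < P := lt_of_le_of_lt (le_self_pow₀ hB (by norm_num)) hPR
  have hP1 : (1 : ℝ) ≤ P := by linarith
  have hP0 : (0 : ℝ) < P := by linarith
  have hPj : (0 : ℝ) < (P : ℝ) ^ j := by positivity
  have hPj1 : (1 : ℝ) ≤ (P : ℝ) ^ j := one_le_pow₀ hP1
  have hjl : j + 1 ≤ ℓ := hj
  -- powers of 2
  obtain ⟨X, hX⟩ : ∃ X : ℝ, X = 2 ^ (j ^ 2 + 5 * j) := ⟨_, rfl⟩
  have hX0 : 0 < X := by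
    rw [hX]
    positivity
  have hX1 : (2 : ℝ) ^ ((j + 1) ^ 2 + 5 * (j + 1)) = 2 ^ (2 * j + 6) * X := by
    rw [hX, ← pow_add]
    congr 1
    ring
  have hXl : 2 ^ (2 * j + 6) * X ≤ 2 ^ (ℓ ^ 2 + 5 * ℓ) := by
    rw [← hX1]
    refine pow_le_pow_right₀ (by norm_num) ?_
    have h1 : (j + 1) ^ 2 ≤ ℓ ^ 2 := Nat.pow_le_pow_left hjl 2
    omega
  have hXP : 1024 * (2 ^ (2 * j + 6) * X) * η * (P : ℝ) ^ 3 ≤ 1 := by
    refine le_trans ?_ hηP
    have h1 : (1024 : ℝ) * (2 ^ (2 * j + 6) * X) ≤ 2 ^ (ℓ ^ 2 + 5 * ℓ + 10) := by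
      rw [pow_add _ (ℓ ^ 2 + 5 * ℓ) 10]
      nlinarith only [hXl]
    have h2 : 0 ≤ η * (P : ℝ) ^ 3 := by positivity
    nlinarith only [h1, h2, mul_le_mul_of_nonneg_right h1 h2]
  have hjpow : (1 : ℝ) ≤ 2 ^ (2 * j + 6) := one_le_pow₀ (by norm_num)
  have hj5 : (1 : ℝ) ≤ 5 ^ j := one_le_pow₀ (by norm_num)
  have hj3 : (3 : ℝ) ^ j ≤ 5 ^ j := pow_le_pow_left₀ (by norm_num) (by norm_num) j
  have hj30 : (0 : ℝ) < 3 ^ j := by positivity
  have hC5 : 1 ≤ C * 5 ^ j := by nlinarith only [hC, hj5]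
  have hC3 : C * 3 ^ j ≤ C * 5 ^ j := mul_le_mul_of_nonneg_left hj3 hC0.le
  have hC30 : 0 < C * 3 ^ j := by positivity
  have h5l : C * 5 ^ (j + 1) ≤ C * 5 ^ ℓ :=
    mul_le_mul_of_nonneg_left (pow_le_pow_right₀ (by norm_num) hjl) hC0.le
  have h5s : C * 5 ^ (j + 1) = 5 * (C * 5 ^ j) := by
    rw [pow_succ]
    ring
  have hL : 2 * (C * 5 ^ (j + 1)) + 1 ≤ B := by
    refine le_trans ?_ hB1
    nlinarith only [h5l]
  have h2c : 2 * (2 * (C * 3 ^ j) + 1) + 1 ≤ B := by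
    refine le_trans ?_ hL
    rw [h5s]
    nlinarith only [hC5, hC3]
  have hjB : ((j : ℝ) + 1) ≤ B := by
    refine le_trans ?_ hB5
    have h1 : ((j + 1 : ℕ) : ℝ) ≤ ((2 ^ (2 * ℓ + 8) : ℕ) : ℝ) := by
      have h2 : j + 1 ≤ 2 ^ (2 * ℓ + 8) := by
        have h3 : j + 1 < 2 ^ (j + 1) := Nat.lt_two_pow_self
        have h4 : 2 ^ (j + 1) ≤ 2 ^ (2 * ℓ + 8) := Nat.pow_le_pow_right (by norm_num) (by omega)
        omega
      exact_mod_cast h2
    push_cast at h1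
    exact h1
  have hτ1 : (2 * (P : ℝ)) ^ j = 2 ^ j * (P : ℝ) ^ j := mul_pow _ _ _
  have hmain := nodes P j M (2 * (C * 3 ^ j) + 1) (C * 5 ^ j) (C * 5 ^ (j + 1)) (X * η) (2 ^ (2 * j + 6) * X * η)
    (X * η * P / (P : ℝ) ^ j) (2 ^ (j + 3) * X * η / (P : ℝ) ^ (j + 1)) (2 ^ (j + 5) * (X * η) / (P : ℝ) ^ j)
    (ε / B ^ 5) (ε ^ 2 / (2 * B ^ 11)) (B ^ 7 / ε) (B ^ 8 / ε) (2 ^ (j + 6)) F α V
    (by
      have h1 : ((2 ^ (j + 1) : ℕ) : ℝ) < P := by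
        push_cast
        refine lt_of_le_of_lt ?_ hBP
        refine le_trans ?_ hB5
        exact pow_le_pow_right₀ (by norm_num) (by omega)
      exact_mod_cast h1)
    (by linarith) (by linarith) (by positivity) (by positivity)
    (by
      have h1 : 100 * (X * η * P / (P : ℝ) ^ j) * (P : ℝ) ^ 2 ≤ 100 * (X * η * P) * (P : ℝ) ^ 2 := by
        have h2 : X * η * P / (P : ℝ) ^ j ≤ X * η * P := div_le_self (by positivity) hPj1
        have h3 : 0 ≤ (P : ℝ) ^ 2 := by positivity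
        nlinarith only [h2, h3, mul_le_mul_of_nonneg_right h2 h3]
      refine h1.trans (le_trans ?_ hXP)
      have h4 : 0 ≤ X * η * (P : ℝ) ^ 3 := by positivity
      nlinarith only [h4, hjpow, mul_le_mul_of_nonneg_right hjpow h4])
    (by positivity) (by positivity) (by positivity)
    (by
      rw [le_div_iff₀ hε, one_mul]
      exact hε1.trans (one_le_pow₀ hB))
    (by
      rw [hX]
      exact hV) hmult
    (by
      have h1 : (2 * (2 * (C * 3 ^ j) + 1) + 1) * (B ^ 7 / ε) ≤ B * (B ^ 7 / ε) :=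
        mul_le_mul_of_nonneg_right h2c (by positivity)
      refine h1.trans (le_of_eq ?_)
      field_simp)
    (by
      have h1 : (B ^ 8 / ε) ^ 2 = (B ^ 16 * (2 * B ^ 22)) / (ε ^ 2 * (2 * B ^ 22)) := by
        field_simp
      have h2 : 2 * (ε ^ 2 / (2 * B ^ 11)) ^ 2 * (P : ℝ) = (ε ^ 6 * P) / (ε ^ 2 * (2 * B ^ 22)) := by
        field_simp
      rw [h1, h2]
      refine div_lt_div_of_pos_right ?_ (by positivity)
      have h3 : ε ^ 8 * (P : ℝ) ≤ ε ^ 6 * P :=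
        mul_le_mul_of_nonneg_right (pow_le_pow_of_le_one hε.le hε1 (by norm_num)) hP0.le
      have h4 : B ^ 38 ≤ B ^ 54 := pow_le_pow_right₀ hB (by norm_num)
      have h5 : B ^ 16 * (2 * B ^ 22) = 2 * B ^ 38 := by ring
      rw [h5]
      have h6 : 0 < B ^ 38 := by positivity
      linarith only [hPB, h3, h4, h6])
    (by
      rw [h5s]
      linarith)
    (by
      have e1 : (2 * (P : ℝ)) ^ j * (2 * (X * η * P / (P : ℝ) ^ j) / P) + X * η = (2 ^ (j + 1) + 1) * (X * η) := by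
        rw [hτ1, pow_succ]
        field_simp
      rw [e1, mul_assoc (2 ^ (2 * j + 6)) X η]
      refine mul_le_mul_of_nonneg_right ?_ (by positivity)
      have h1 : (2 : ℝ) ^ (2 * j + 6) = 2 ^ (j + 5) * 2 ^ (j + 1) := by
        rw [← pow_add]
        congr 1
        omega
      rw [h1]
      have h2 : (2 : ℝ) ≤ 2 ^ (j + 5) := by
        calc (2 : ℝ) = 2 ^ 1 := by norm_num
          _ ≤ 2 ^ (j + 5) := pow_le_pow_right₀ (by norm_num) (by omega)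
      have h3 : (1 : ℝ) ≤ 2 ^ (j + 1) := one_le_pow₀ (by norm_num)
      nlinarith only [h2, h3])
    (by
      have h1 : (P : ℝ) ≤ (P : ℝ) ^ 3 := le_self_pow₀ hP1 (by norm_num)
      have h2 : 0 ≤ 2 ^ (2 * j + 6) * X * η := by positivity
      have h3 : 40 * (2 ^ (2 * j + 6) * X * η) * P ≤ 40 * (2 ^ (2 * j + 6) * X * η) * (P : ℝ) ^ 3 :=
        mul_le_mul_of_nonneg_left h1 (by positivity)
      refine h3.trans (le_trans ?_ hXP)
      have h4 : 0 ≤ (2 ^ (2 * j + 6) * X * η) * (P : ℝ) ^ 3 := by positivity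
      nlinarith only [h4])
    (by
      have e1 : 2 * (X * η * P / (P : ℝ) ^ j) / P + 2 * P * (2 ^ (j + 3) * X * η / (P : ℝ) ^ (j + 1)) =
          (2 + 2 ^ (j + 4)) * (X * η) / (P : ℝ) ^ j := by
        rw [pow_succ (P : ℝ) j, pow_succ (2 : ℝ) (j + 3)]
        field_simp
      rw [e1]
      refine div_le_div_of_nonneg_right ?_ hPj.le
      refine mul_le_mul_of_nonneg_right ?_ (by positivity)
      rw [pow_succ (2 : ℝ) (j + 4)]
      have h2 : (2 : ℝ) ≤ 2 ^ (j + 4) := by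
        calc (2 : ℝ) = 2 ^ 1 := by norm_num
          _ ≤ 2 ^ (j + 4) := pow_le_pow_right₀ (by norm_num) (by omega)
      linarith only [h2])
    (by
      have e1 : 4 * (2 ^ (2 * j + 6) * X * η) / ((P : ℝ) ^ (j + 1) * (2 ^ (j + 3) * X * η / (P : ℝ) ^ (j + 1))) =
          2 ^ (j + 5) := by
        have h1 : (P : ℝ) ^ (j + 1) * (2 ^ (j + 3) * X * η / (P : ℝ) ^ (j + 1)) = 2 ^ (j + 3) * X * η := by
          field_simp
        rw [h1, div_eq_iff (by positivity)]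
        have h2 : (4 : ℝ) * 2 ^ (2 * j + 6) = 2 ^ (j + 5) * 2 ^ (j + 3) := by
          rw [← pow_add]
          have : j + 5 + (j + 3) = 2 * j + 6 + 2 := by omega
          rw [this, pow_add]
          norm_num
          ring
        calc 4 * (2 ^ (2 * j + 6) * X * η) = (4 * 2 ^ (2 * j + 6)) * (X * η) := by ring
          _ = (2 ^ (j + 5) * 2 ^ (j + 3)) * (X * η) := by rw [h2]
          _ = 2 ^ (j + 5) * (2 ^ (j + 3) * X * η) := by ring
      rw [e1, pow_succ (2 : ℝ) (j + 5)]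
      have h3 : (1 : ℝ) ≤ 2 ^ (j + 5) := one_le_pow₀ (by norm_num)
      linarith only [h3])
    (by
      have h1 := NodesP_big B ε P (2 * (C * 5 ^ (j + 1)) + 1) (2 ^ (j + 1))
        (((j : ℝ) + 1) * (2 * (2 * (C * 3 ^ j) + 1) + 1)) hB hε hP0 hPB ((P : ℝ) ^ j) hPj
        (by positivity) hL (by positivity)
        (by
          refine le_trans ?_ hB5
          rw [← pow_mul]
          exact pow_le_pow_right₀ (by norm_num) (by omega))
        (by positivity)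
        (by
          rw [pow_two]
          exact mul_le_mul hjB h2c (by positivity) hB0.le)
      have e1 : (2 * (P : ℝ)) ^ (j + 1) = 2 ^ (j + 1) * (P * (P : ℝ) ^ j) := by
        rw [mul_pow, pow_succ (P : ℝ) j, mul_comm ((P : ℝ) ^ j) (P : ℝ)]
      rw [e1]
      exact h1)
  obtain ⟨Γ, N, hN, hsum, hE⟩ := hmain
  refine ⟨Γ, N, ?_, ?_, ?_⟩
  · refine hN.trans (le_of_eq ?_)
    field_simp
  · rw [hX1]
    refine hsum.trans (le_of_eq ?_)
    rw [mul_pow]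
    have h1 : (2 : ℝ) ^ (2 * j + 8) = 2 * 2 ^ (j + 6) * 2 ^ (j + 1) := by
      have : 2 * j + 8 = 1 + (j + 6) + (j + 1) := by omega
      rw [this, pow_add, pow_add, pow_one]
    rw [h1]
    ring
  · rw [← hX]
    exact hE

end Pool.Agent.H74.MDX

end

section

/-!
# MDX Step: one level up

Proof.  `step_edge` gives `M w`; `nodesP` (for every `M`) gives `Γ M`, `N M` (`choose`).  `Ms = Icc 1 ⌊4^(j+1) C n⌋₊` (at most `4^(j+1) C n` elements; `M w ∈ Ms` since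
`M w ≥ n/C > 0`).  Let `e w = ((ql w, c (Lw w)), (pf w, c (Rw w)))`.  For `w ∈ Om R F (j+1)` with `Lw w, Rw w ∈ G`, `e w ∉ N (M w)` choose `γ w ∈ Γ (M w)` and put
`c' w = (M w, γ w)`.  `V' = {(M, γ) : M ∈ Ms, M ≥ n/C, γ ∈ Γ M, ε/B^5 P^(j+1) ≤ |DS P (j+1) .. (M, γ)|}`,
`G' = {w ∈ Om R F (j+1) : Lw w ∈ G, Rw w ∈ G, e w ∉ N (M w), c' w ∈ V'}`.
* `mult`: `|V'_M| ε/B^5 P^(j+1) ≤ ∑_γ |DS| ≤ 2^(2j+8) (2 C 5^(j+1) + 1) P^(j+1) ≤ B^2 P^(j+1)`.
* `mem0`, `mem1`: `step_mem`.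
* `link` for `w ∈ Om R F (j+2)` with `Lw w, Rw w ∈ G'`: `(G0, g) = c (Rw (Lw w)) = c (Lw (Rw w))` (`LR_comm`), an element of `V`: `rng`; `EX` membership of `e (Lw w)` (its second
  vertex, `mem_VX`) and of `e (Rw w)` (first vertex) give `|G0 pf w - M (Lw w) P| ≤ (2 C 3^j + 1) P ≤ C 3^(j+1) P`, `|G0 ql w - M (Rw w) P| ≤ ..`; the frequencies:
  `2^(j+5) X η/P^j ≤ 2^(2j+6) X η P/P^(j+1)`.
* `exc`: a walk `w ∈ Om R F (j+1)`, `w ∉ G'`, satisfies `Lw w ∉ G`, or `Rw w ∉ G`, or `e w ∈ N (M w)`, or `|DS (c' w)| < ε/B^5 P^(j+1)`.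
  First two: `ext_L`, `ext_R` with `S = (Om R F j).filter (∉ G)` (`Lw_mem`, `Rw_mem`): `≤ 2 (2C+1)^2 P^2 (4(2C+1)^2)^j ε n P^(2j)`.
  Third: `cntN` with `D = C 5^j`, `B1 = ε/B^3 P^2`: `≤ 4^(j+1) C n · ε/B^3 P^2 · (2C+1)^(2j+2) (2 C 5^j + 1) P^(2j) ≤ ε n P^(2j+2)`.
  Fourth: `cntA` (level `j+1`) with `y = ε/B^5 P^(j+1)`, `T = 2^(2j+8) (2 C 5^(j+1) + 1) P^(j+1)`: `≤ (2C+1)^(2j+2) ((j+1)!)^2 4^(j+1) C n y T ≤ B · B · B · B · B · ε/B^5 n P^(2j+2)`.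
  Sum: `2 (2C+1)^2 (4(2C+1)^2)^j ε + 2 ε ≤ (4(2C+1)^2)^(j+1) ε`.
-/

set_option autoImplicit false

namespace Pool.Agent.H74.MDX

open Finset
open Pool.Agent.H53.MID (nz Rel Desc)

/-- the numerical facts used in the step -/
private theorem Step_num (C B ε η : ℝ) (ℓ P j : ℕ) (hPar : Par C ℓ P B ε η) (hj : j < ℓ) :
    1 ≤ B ∧ 1 ≤ P ∧ 4 ^ (j + 1) * C ≤ B ∧ (2 * C + 1) ^ (2 * j + 2) ≤ B ∧ 2 * (C * 5 ^ j) + 1 ≤ B ∧
      2 * (C * 5 ^ (j + 1)) + 1 ≤ B ∧ (2 : ℝ) ^ (2 * j + 8) ≤ B ∧ (((j + 1).factorial : ℝ)) ^ 2 ≤ B := by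
  have hC := hPar.hC
  have h5 : (1 : ℝ) ≤ 5 ^ ℓ := one_le_pow₀ (by norm_num)
  have hB1 : 1 ≤ B := by
    have := hPar.hB1
    nlinarith
  have hP1 : 1 ≤ P := by
    by_contra h
    have hP0 : P = 0 := by omega
    have h1 := hPar.hP
    rw [hP0, Nat.cast_zero, mul_zero] at h1
    have h2 : (1 : ℝ) ≤ B ^ 54 := one_le_pow₀ hB1
    linarith
  refine ⟨hB1, hP1, ?_, ?_, ?_, ?_, ?_, ?_⟩
  · refine le_trans ?_ hPar.hB2
    exact mul_le_mul_of_nonneg_right (pow_le_pow_right₀ (by norm_num) hj) (by linarith)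
  · refine le_trans ?_ hPar.hB3
    exact pow_le_pow_right₀ (by linarith) (by omega)
  · refine le_trans ?_ hPar.hB1
    have h : (5 : ℝ) ^ j ≤ 5 ^ ℓ := pow_le_pow_right₀ (by norm_num) hj.le
    nlinarith
  · refine le_trans ?_ hPar.hB1
    have h : (5 : ℝ) ^ (j + 1) ≤ 5 ^ ℓ := pow_le_pow_right₀ (by norm_num) hj
    nlinarith
  · refine le_trans ?_ hPar.hB5
    exact pow_le_pow_right₀ (by norm_num) (by omega)
  · refine le_trans ?_ hPar.hB4
    have h : (j + 1).factorial ≤ ℓ.factorial := Nat.factorial_le hj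
    exact pow_le_pow_left₀ (Nat.cast_nonneg _) (by exact_mod_cast h) 2

open Classical in
private theorem Step_mult (T W m0 : ℝ) (hm0 : 0 < m0) (K : ℕ) (V : Finset (ℕ × ℝ)) (Γ : Finset ℝ) (f : ℕ × ℝ → ℝ)
    (hf0 : ∀ v, 0 ≤ f v) (hV : ∀ v ∈ V, v.1 = K → v.2 ∈ Γ) (hVf : ∀ v ∈ V, m0 ≤ f v)
    (hT : ∑ γ ∈ Γ, f (K, γ) ≤ T) (hW : T ≤ W * m0) : ((V.filter (fun v => v.1 = K)).card : ℝ) ≤ W := by
  have h1 : ((V.filter (fun v => v.1 = K)).card : ℝ) * m0 ≤ ∑ v ∈ V.filter (fun v => v.1 = K), f v := by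
    rw [← nsmul_eq_mul]
    refine Finset.card_nsmul_le_sum _ _ _ (fun v hv => ?_)
    exact hVf v (Finset.mem_filter.1 hv).1
  have h2 : ∑ v ∈ V.filter (fun v => v.1 = K), f v ≤ ∑ γ ∈ Γ, f (K, γ) := by
    have h3 : ∑ v ∈ V.filter (fun v => v.1 = K), f v =
        ∑ γ ∈ (V.filter (fun v => v.1 = K)).image (fun v => v.2), f (K, γ) := by
      rw [Finset.sum_image]
      · refine Finset.sum_congr rfl (fun v hv => ?_)
        have := (Finset.mem_filter.1 hv).2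
        rw [← this]
      · intro v hv v' hv' h
        have e1 := (Finset.mem_filter.1 (Finset.mem_coe.1 hv)).2
        have e2 := (Finset.mem_filter.1 (Finset.mem_coe.1 hv')).2
        exact Prod.ext (e1.trans e2.symm) h
    rw [h3]
    refine Finset.sum_le_sum_of_subset_of_nonneg ?_ (fun _ _ _ => hf0 _)
    intro γ hγ
    obtain ⟨v, hv, rfl⟩ := Finset.mem_image.1 hγ
    exact hV v (Finset.mem_filter.1 hv).1 (Finset.mem_filter.1 hv).2
  have h4 : ((V.filter (fun v => v.1 = K)).card : ℝ) * m0 ≤ W * m0 := (h1.trans h2).trans (hT.trans hW)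
  exact le_of_mul_le_mul_right h4 hm0

theorem lvl_step (C B ε η : ℝ) (ℓ n P j : ℕ) (F : Finset ℕ) (α : ℕ → ℝ) (R : Finset (ℕ × ℕ × ℕ))
    (hPar : Par C ℓ P B ε η) (hj : j < ℓ) (hn : 1 ≤ n) (hM : Mul (2 * C + 1) P R) (V : Finset (ℕ × ℝ))
    (G : Finset (Wk j)) (c : Wk j → ℕ × ℝ) (hL : Lvl C B ε η n P F α R j V G c) :
    ∃ (V' : Finset (ℕ × ℝ)) (G' : Finset (Wk (j + 1))) (c' : Wk (j + 1) → ℕ × ℝ),
      Lvl C B ε η n P F α R (j + 1) V' G' c' := by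
  classical
  obtain ⟨hB1, hP1, hBa, hBb, hBc, hBd, hBe, hBf⟩ := Step_num C B ε η ℓ P j hPar hj
  have hC := hPar.hC
  have hε := hPar.hε
  have hη := hPar.hη
  have hB0 : 0 < B := by linarith
  have hC0 : 0 < C := by linarith
  have hP0 : (0 : ℝ) < P := by exact_mod_cast hP1
  have hn0 : (0 : ℝ) < n := by exact_mod_cast hn
  obtain ⟨M, hMw⟩ := step_edge C B ε η n P j F α R hC hM V G c hL
  choose Γ N hN hΓ hEN using fun M : ℕ => nodesP C B ε η ℓ P j M F α V hPar hj hL.desc hL.mult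
  set Ms : Finset ℕ := Finset.Icc 1 ⌊4 ^ (j + 1) * C * (n : ℝ)⌋₊ with hMs
  have hMsc : (Ms.card : ℝ) ≤ B * n := by
    rw [hMs, Nat.card_Icc, Nat.add_sub_cancel]
    refine (Nat.floor_le (by positivity)).trans ?_
    exact mul_le_mul_of_nonneg_right hBa hn0.le
  set e : Wk (j + 1) → (ℕ × ℕ × ℝ) × (ℕ × ℕ × ℝ) := fun w => ((ql w, c (Lw w)), (pf w, c (Rw w))) with he
  have hMmem : ∀ w ∈ Om R F (j + 1), Lw w ∈ G → Rw w ∈ G → M w ∈ Ms := by
    intro w hw h1 h2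
    obtain ⟨a1, a2, -⟩ := hMw w hw h1 h2
    rw [hMs, Finset.mem_Icc]
    refine ⟨?_, Nat.le_floor a2⟩
    have : (0 : ℝ) < M w := lt_of_lt_of_le (by positivity) a1
    exact_mod_cast this
  -- the frequencies
  have hγ : ∀ w : Wk (j + 1), ∃ γ : ℝ, w ∈ Om R F (j + 1) → Lw w ∈ G → Rw w ∈ G → e w ∉ N (M w) →
      γ ∈ Γ (M w) ∧ nz (((e w).1.1 : ℝ) * γ - (e w).1.2.2) ≤ 2 ^ (j + 5) * (2 ^ (j ^ 2 + 5 * j) * η) / (P : ℝ) ^ j ∧
          nz (((e w).2.1 : ℝ) * γ - (e w).2.2.2) ≤ 2 ^ (j + 5) * (2 ^ (j ^ 2 + 5 * j) * η) / (P : ℝ) ^ j := by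
    intro w
    by_cases h : w ∈ Om R F (j + 1) ∧ Lw w ∈ G ∧ Rw w ∈ G ∧ e w ∉ N (M w)
    · obtain ⟨h0, h1, h2, h3⟩ := h
      obtain ⟨γ, g1, g2, g3⟩ := hEN (M w) (e w) (hMw w h0 h1 h2).2.2 h3
      exact ⟨γ, fun _ _ _ _ => ⟨g1, g2, g3⟩⟩
    · exact ⟨0, fun a b c d => absurd ⟨a, b, c, d⟩ h⟩
  choose γ hγ using hγ
  set DD : ℕ × ℝ → Finset (ℕ × ℕ) := fun v =>
    DS P (j + 1) (C * 5 ^ (j + 1)) (2 ^ ((j + 1) ^ 2 + 5 * (j + 1)) * η) F α v with hDD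
  set V' : Finset (ℕ × ℝ) := (Ms ×ˢ (Ms.biUnion Γ)).filter (fun v => (n : ℝ) / C ≤ v.1 ∧ v.2 ∈ Γ v.1 ∧
    ε / B ^ 5 * (P : ℝ) ^ (j + 1) ≤ ((DD v).card : ℝ)) with hV'
  set c' : Wk (j + 1) → ℕ × ℝ := fun w => (M w, γ w) with hc'
  set G' : Finset (Wk (j + 1)) := (Om R F (j + 1)).filter (fun w => Lw w ∈ G ∧ Rw w ∈ G ∧ e w ∉ N (M w) ∧
    c' w ∈ V') with hG'
  have hm0 : 0 < ε / B ^ 5 * (P : ℝ) ^ (j + 1) := by positivity
  have hV'mem : ∀ v, v ∈ V' ↔ v.1 ∈ Ms ∧ (n : ℝ) / C ≤ v.1 ∧ v.2 ∈ Γ v.1 ∧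
      ε / B ^ 5 * (P : ℝ) ^ (j + 1) ≤ ((DD v).card : ℝ) := by
    intro v
    rw [hV', Finset.mem_filter, Finset.mem_product]
    constructor
    · rintro ⟨⟨h1, -⟩, h2⟩
      exact ⟨h1, h2⟩
    · rintro ⟨h1, h2⟩
      exact ⟨⟨h1, Finset.mem_biUnion.2 ⟨v.1, h1, h2.2.1⟩⟩, h2⟩
  have hG'mem : ∀ w, w ∈ G' ↔ w ∈ Om R F (j + 1) ∧ Lw w ∈ G ∧ Rw w ∈ G ∧ e w ∉ N (M w) ∧ c' w ∈ V' := by
    intro w
    rw [hG', Finset.mem_filter]
  have hT : ∀ K : ℕ, ∑ γ ∈ Γ K, ((DD (K, γ)).card : ℝ) ≤ B ^ 2 * (P : ℝ) ^ (j + 1) := by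
    intro K
    refine (hΓ K).trans ?_
    refine mul_le_mul_of_nonneg_right ?_ (by positivity)
    rw [sq]
    exact mul_le_mul hBe hBd (by positivity) hB0.le
  refine ⟨V', G', c', ?_, ?_, ?_, ?_, ?_, ?_, ?_, ?_, ?_⟩
  · -- sub
    rw [hG']
    exact Finset.filter_subset _ _
  · -- col
    intro w hw
    exact ((hG'mem w).1 hw).2.2.2.2
  · -- rng
    intro v hv
    obtain ⟨h1, h2, -, -⟩ := (hV'mem v).1 hv
    refine ⟨h2, ?_⟩
    rw [hMs, Finset.mem_Icc] at h1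
    exact (Nat.le_floor_iff (by positivity)).1 h1.2
  · -- mult
    intro K
    refine Step_mult (B ^ 2 * (P : ℝ) ^ (j + 1)) (B ^ 7 / ε) (ε / B ^ 5 * (P : ℝ) ^ (j + 1)) hm0 K V' (Γ K)
      (fun v => ((DD v).card : ℝ)) (fun _ => Nat.cast_nonneg _) ?_ ?_ (hT K) ?_
    · intro v hv hK
      rw [← hK]
      exact ((hV'mem v).1 hv).2.2.1
    · intro v hv
      exact ((hV'mem v).1 hv).2.2.2
    · refine le_of_eq ?_
      field_simp
  · -- desc
    intro v hv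
    exact ((hV'mem v).1 hv).2.2.2
  · -- mem0
    intro w hw
    obtain ⟨h0, h1, h2, h3, h4⟩ := (hG'mem w).1 hw
    obtain ⟨g1, g2, g3⟩ := hγ w h0 h1 h2 h3
    exact (step_mem C B ε η n P j F α R hC hη hM V G c hL w h1 h2 (M w) (hMw w h0 h1 h2).2.2 (γ w) g2 g3).1
  · -- mem1
    intro w hw
    obtain ⟨h0, h1, h2, h3, h4⟩ := (hG'mem w).1 hw
    obtain ⟨g1, g2, g3⟩ := hγ w h0 h1 h2 h3
    exact (step_mem C B ε η n P j F α R hC hη hM V G c hL w h1 h2 (M w) (hMw w h0 h1 h2).2.2 (γ w) g2 g3).2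
  · -- link
    intro w hw hl hr
    obtain ⟨l0, l1, l2, l3, l4⟩ := (hG'mem (Lw w)).1 hl
    obtain ⟨r0, r1, r2, r3, r4⟩ := (hG'mem (Rw w)).1 hr
    obtain ⟨lg1, lg2, lg3⟩ := hγ (Lw w) l0 l1 l2 l3
    obtain ⟨rg1, rg2, rg3⟩ := hγ (Rw w) r0 r1 r2 r3
    have lE := (hMw (Lw w) l0 l1 l2).2.2
    have rE := (hMw (Rw w) r0 r1 r2).2.2
    rw [mem_EX, mem_VX, mem_VX] at lE rE
    have l5 := lE.2.1.2.2.2
    have r5 := rE.1.2.2.2
    have hcV := hL.col _ l2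
    obtain ⟨q1, q2⟩ := hL.rng _ hcV
    have hpos : (2 * (C * 3 ^ j) + 1) * (P : ℝ) ≤ C * 3 ^ (j + 1) * P := by
      refine mul_le_mul_of_nonneg_right ?_ hP0.le
      have h3 : (1 : ℝ) ≤ 3 ^ j := one_le_pow₀ (by norm_num)
      have h4 : 1 ≤ C * 3 ^ j := by nlinarith
      rw [pow_succ]
      linarith
    have hfr : 2 ^ (j + 5) * (2 ^ (j ^ 2 + 5 * j) * η) / (P : ℝ) ^ j ≤
        2 ^ ((j + 1) ^ 2 + 5 * (j + 1)) * η * P / (P : ℝ) ^ (j + 1) := by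
      have e1 : 2 ^ ((j + 1) ^ 2 + 5 * (j + 1)) * η * P / (P : ℝ) ^ (j + 1) =
          2 ^ ((j + 1) ^ 2 + 5 * (j + 1)) * η / (P : ℝ) ^ j := by
        rw [pow_succ (P : ℝ) j]
        field_simp
      rw [e1]
      refine div_le_div_of_nonneg_right ?_ (by positivity)
      rw [← mul_assoc, ← pow_add]
      refine mul_le_mul_of_nonneg_right ?_ hη.le
      refine pow_le_pow_right₀ (by norm_num) ?_
      nlinarith
    refine ⟨(c (Rw (Lw w))).1, (c (Rw (Lw w))).2, q1, ?_, ?_, ?_, ?_, ?_⟩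
    · refine q2.trans ?_
      refine mul_le_mul_of_nonneg_right (mul_le_mul_of_nonneg_right ?_ hC0.le) hn0.le
      exact pow_le_pow_right₀ (by norm_num) (Nat.le_succ j)
    · exact l5.trans hpos
    · exact r5.trans hpos
    · exact lg3.trans hfr
    · exact rg2.trans hfr
  · -- exc
    set S0 : Finset (Wk j) := (Om R F j).filter (fun w => w ∉ G) with hS0
    set S3 : Finset (Wk (j + 1)) := (Om R F (j + 1)).filter (fun w => Lw w ∈ G ∧ Rw w ∈ G ∧ e w ∈ N (M w)) with hS3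
    set S4 : Finset (Wk (j + 1)) := (Om R F (j + 1)).filter (fun w => Lw w ∈ G ∧ Rw w ∈ G ∧ e w ∉ N (M w) ∧
      c' w ∉ V') with hS4
    have hsub : (Om R F (j + 1)).filter (fun w => w ∉ G') ⊆
        ((((Om R F (j + 1)).filter (fun w => Lw w ∈ S0)) ∪ ((Om R F (j + 1)).filter (fun w => Rw w ∈ S0))) ∪ S3) ∪ S4 := by
      intro w hw
      obtain ⟨h0, h1⟩ := Finset.mem_filter.1 hw
      rw [hG'mem] at h1
      by_cases a1 : Lw w ∈ G
      · by_cases a2 : Rw w ∈ G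
        · by_cases a3 : e w ∈ N (M w)
          · exact Finset.mem_union_left _ (Finset.mem_union_right _ (Finset.mem_filter.2 ⟨h0, a1, a2, a3⟩))
          · refine Finset.mem_union_right _ (Finset.mem_filter.2 ⟨h0, a1, a2, a3, ?_⟩)
            intro a4
            exact h1 ⟨h0, a1, a2, a3, a4⟩
        · exact Finset.mem_union_left _ (Finset.mem_union_left _ (Finset.mem_union_right _
            (Finset.mem_filter.2 ⟨h0, Finset.mem_filter.2 ⟨Rw_mem h0, a2⟩⟩)))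
      · exact Finset.mem_union_left _ (Finset.mem_union_left _ (Finset.mem_union_left _
            (Finset.mem_filter.2 ⟨h0, Finset.mem_filter.2 ⟨Lw_mem h0, a1⟩⟩)))
    have hcard : (((Om R F (j + 1)).filter (fun w => w ∉ G')).card : ℝ) ≤
        (((Om R F (j + 1)).filter (fun w => Lw w ∈ S0)).card : ℝ) +
          (((Om R F (j + 1)).filter (fun w => Rw w ∈ S0)).card : ℝ) + (S3.card : ℝ) + (S4.card : ℝ) := by
      have b1 := Finset.card_le_card hsub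
      have b2 := Finset.card_union_le ((((Om R F (j + 1)).filter (fun w => Lw w ∈ S0)) ∪
        ((Om R F (j + 1)).filter (fun w => Rw w ∈ S0))) ∪ S3) S4
      have b3 := Finset.card_union_le (((Om R F (j + 1)).filter (fun w => Lw w ∈ S0)) ∪
        ((Om R F (j + 1)).filter (fun w => Rw w ∈ S0))) S3
      have b4 := Finset.card_union_le ((Om R F (j + 1)).filter (fun w => Lw w ∈ S0))
        ((Om R F (j + 1)).filter (fun w => Rw w ∈ S0))
      have b5 := b1.trans (b2.trans (Nat.add_le_add_right (b3.trans (Nat.add_le_add_right b4 _)) _))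
      exact_mod_cast b5
    have hL0 := ext_L R F (2 * C + 1) P j hM S0
    have hR0 := ext_R R F (2 * C + 1) P j hM S0
    have hexc := hL.exc
    -- third set
    have hc3 : (S3.card : ℝ) ≤ ε * n * (P : ℝ) ^ (2 * (j + 1)) := by
      have h := cntN R F (2 * C + 1) P j hM (C * 5 ^ j) (ε / B ^ 3 * (P : ℝ) ^ 2) (by positivity) (by positivity) S3
        (Finset.filter_subset _ _) Ms M (fun w hw => by
          obtain ⟨h0, h1, h2, h3⟩ := Finset.mem_filter.1 hw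
          exact hMmem w h0 h1 h2) N (fun x _ => hN x) e (fun w hw => (Finset.mem_filter.1 hw).2.2.2)
        (fun w _ => ⟨rfl, rfl⟩) (fun w hw => by
          obtain ⟨h0, h1, h2, h3⟩ := Finset.mem_filter.1 hw
          exact (mem_DS.1 (hL.mem0 (Lw w) h1)).2.2.2.2.1)
      refine h.trans ?_
      have k1 : (2 * C + 1) ^ (2 * j + 2) * (2 * (C * 5 ^ j) + 1) ≤ B * B :=
        mul_le_mul hBb hBc (by positivity) hB0.le
      calc (Ms.card : ℝ) * (ε / B ^ 3 * (P : ℝ) ^ 2 * ((2 * C + 1) ^ (2 * j + 2) * (2 * (C * 5 ^ j) + 1) * (P : ℝ) ^ (2 * j)))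
          ≤ (B * n) * (ε / B ^ 3 * (P : ℝ) ^ 2 * ((B * B) * (P : ℝ) ^ (2 * j))) := by
            refine mul_le_mul hMsc ?_ (by positivity) (by positivity)
            refine mul_le_mul_of_nonneg_left ?_ (by positivity)
            exact mul_le_mul_of_nonneg_right k1 (by positivity)
        _ = ε * n * (P : ℝ) ^ (2 * (j + 1)) := by
            rw [show 2 * (j + 1) = 2 * j + 2 by ring, pow_add]
            field_simp
    -- fourth set
    have hc4 : (S4.card : ℝ) ≤ ε * n * (P : ℝ) ^ (2 * (j + 1)) := by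
      have h := cntA R F α (2 * C + 1) P (j + 1) hM (C * 5 ^ (j + 1)) (2 ^ ((j + 1) ^ 2 + 5 * (j + 1)) * η)
        (ε / B ^ 5 * (P : ℝ) ^ (j + 1)) (B ^ 2 * (P : ℝ) ^ (j + 1)) (by positivity) S4
        (Finset.filter_subset _ _) Ms Γ c' (fun w hw => by
          obtain ⟨h0, h1, h2, h3, h4⟩ := Finset.mem_filter.1 hw
          exact ⟨hMmem w h0 h1 h2, (hγ w h0 h1 h2 h3).1⟩) (fun w hw => by
          obtain ⟨h0, h1, h2, h3, h4⟩ := Finset.mem_filter.1 hw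
          obtain ⟨g1, g2, g3⟩ := hγ w h0 h1 h2 h3
          exact (step_mem C B ε η n P j F α R hC hη hM V G c hL w h1 h2 (M w) (hMw w h0 h1 h2).2.2 (γ w) g2 g3).1)
        (fun w hw => by
          obtain ⟨h0, h1, h2, h3, h4⟩ := Finset.mem_filter.1 hw
          obtain ⟨g1, g2, g3⟩ := hγ w h0 h1 h2 h3
          exact (step_mem C B ε η n P j F α R hC hη hM V G c hL w h1 h2 (M w) (hMw w h0 h1 h2).2.2 (γ w) g2 g3).2)
        (fun w hw => by
          obtain ⟨h0, h1, h2, h3, h4⟩ := Finset.mem_filter.1 hw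
          obtain ⟨g1, g2, g3⟩ := hγ w h0 h1 h2 h3
          by_contra hlt
          refine h4 ((hV'mem _).2 ⟨hMmem w h0 h1 h2, (hMw w h0 h1 h2).1, g1, ?_⟩)
          exact (not_le.1 hlt).le) (fun K _ => hT K)
      refine h.trans ?_
      have k1 : (2 * C + 1) ^ (2 * (j + 1)) * (((j + 1).factorial : ℝ)) ^ 2 ≤ B * B := by
        rw [show 2 * (j + 1) = 2 * j + 2 by ring]
        exact mul_le_mul hBb hBf (by positivity) hB0.le
      calc (2 * C + 1) ^ (2 * (j + 1)) * (((j + 1).factorial : ℝ)) ^ 2 * (Ms.card : ℝ) *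
            (ε / B ^ 5 * (P : ℝ) ^ (j + 1)) * (B ^ 2 * (P : ℝ) ^ (j + 1))
          ≤ (B * B) * (B * n) * (ε / B ^ 5 * (P : ℝ) ^ (j + 1)) * (B ^ 2 * (P : ℝ) ^ (j + 1)) := by
            refine mul_le_mul_of_nonneg_right (mul_le_mul_of_nonneg_right ?_ (by positivity)) (by positivity)
            exact mul_le_mul k1 hMsc (by positivity) (by positivity)
        _ = ε * n * (P : ℝ) ^ (2 * (j + 1)) := by
            rw [show 2 * (j + 1) = (j + 1) + (j + 1) by ring, pow_add (P : ℝ) (j + 1) (j + 1)]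
            field_simp
    refine hcard.trans ?_
    have hκ : (3 : ℝ) ≤ 2 * C + 1 := by linarith
    set κ : ℝ := 2 * C + 1 with hκd
    have hK1 : (1 : ℝ) ≤ (4 * κ ^ 2) ^ j := one_le_pow₀ (by nlinarith)
    have hs : (κ * P) ^ 2 * (S0.card : ℝ) ≤ (κ * P) ^ 2 * ((4 * κ ^ 2) ^ j * ε * n * (P : ℝ) ^ (2 * j)) :=
      mul_le_mul_of_nonneg_left hexc (by positivity)
    have hQ : (0 : ℝ) ≤ ε * n * (P : ℝ) ^ (2 * (j + 1)) := by positivity
    have hfin : 2 * (κ ^ 2 * (4 * κ ^ 2) ^ j) + 2 ≤ (4 * κ ^ 2) ^ (j + 1) := by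
      have h9 : 1 ≤ κ ^ 2 * (4 * κ ^ 2) ^ j :=
        one_le_mul_of_one_le_of_one_le (one_le_pow₀ (by linarith)) hK1
      calc 2 * (κ ^ 2 * (4 * κ ^ 2) ^ j) + 2 ≤ 4 * (κ ^ 2 * (4 * κ ^ 2) ^ j) := by linarith
        _ = (4 * κ ^ 2) ^ (j + 1) := by rw [pow_succ]; ring
    have hfin2 := mul_le_mul_of_nonneg_right hfin hQ
    have e1 : (κ * P) ^ 2 * ((4 * κ ^ 2) ^ j * ε * n * (P : ℝ) ^ (2 * j)) =
        (κ ^ 2 * (4 * κ ^ 2) ^ j) * (ε * n * (P : ℝ) ^ (2 * (j + 1))) := by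
      rw [show 2 * (j + 1) = 2 * j + 2 by ring, pow_add]
      ring
    rw [e1] at hs
    have e2 : (4 * κ ^ 2) ^ (j + 1) * ε * n * (P : ℝ) ^ (2 * (j + 1)) =
        (4 * κ ^ 2) ^ (j + 1) * (ε * n * (P : ℝ) ^ (2 * (j + 1))) := by ring
    rw [e2]
    linarith

end Pool.Agent.H74.MDX

end

section

/-!
# MDX Combx: the combinatorial theorem with growing number of levels

Proof.  Put `κ0 = 2C+1`, `B = Bc C ℓ`, `ε = εc C δ ℓ`, `Dt = Dc C ℓ`, so `Zc C δ ℓ = 1000 B^54 Dt^12/ε^8 ≤ Q ≤ P`.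
(1) `clean` with `m = k = δP/(4C)` and `rel_card_le`: `S ⊆ R0` with `|S| ≥ δ n P/2` and all degrees `≥ δP/(4C)`.  `F = S.image fst`; `Rel C n P (η P) F G0 α β S`;
`|S| ≤ κ0 P |F|` (`rel_mul`: given `i, p` at most `κ0` triples), so `|F| ≥ δ n/(2κ0)`.
(2) `om_card` at `ℓ` with `m = δP/(4C)`, `2ℓκ0 ≤ δP/(8C)`: `|Om S F ℓ| ≥ δ n/(2κ0) (δP/(8C))^(2ℓ) = 2 (4κ0^2)^ℓ ε n P^(2ℓ)`.
(3) `Par C ℓ P B ε η`; `lvl0` and `lvl_step` (induction on `j ≤ ℓ`) give `Lvl .. ℓ V G c`; by `exc` and (2) `G` is not empty, so `V` has an element `v = c w`.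
(4) `topx` with `D = Dt`, `ρ = ε/B^5`, `J = ℓ`, `K = v.1`, `w = v.2`, `S = DS P ℓ (C 5^ℓ) (2^(ℓ^2+5ℓ) η) F α v` (`DS_desc`, monotone; `F0 := F`), `|S| ≥ ρ P^ℓ`.
All conclusions follow from `48 Dt^6 B^10/ε^2 ≤ Zc ≤ Q`, and the conditions `48 Dt^6 ≤ ρ P`, `48 Dt^6 η P^2 ≤ ρ` from `Q ≤ P`, `Q η P^3 ≤ 1`.
-/

set_option autoImplicit false

namespace Pool.Agent.H74.MDX

open Finset
open Pool.Agent.H53.MID (nz Rel Desc)

/-- elementary facts about the constants -/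
private theorem Combx_const (C δ : ℝ) (ℓ : ℕ) (hC : 1 ≤ C) (_hℓ : 1 ≤ ℓ) (hδ : 0 < δ) (hδ1 : δ ≤ 1) :
    (1 ≤ Bc C ℓ ∧ 2 * C * 5 ^ ℓ + 1 ≤ Bc C ℓ ∧ 4 ^ ℓ * C ≤ Bc C ℓ ∧ (2 * C + 1) ^ (2 * ℓ) ≤ Bc C ℓ ∧
      (ℓ.factorial : ℝ) ^ 2 ≤ Bc C ℓ ∧ (2 : ℝ) ^ (2 * ℓ + 8) ≤ Bc C ℓ) ∧
    (1 ≤ Dc C ℓ ∧ C * 5 ^ ℓ ≤ Dc C ℓ ∧ 4 ^ ℓ * C ≤ Dc C ℓ ∧ (2 : ℝ) ^ (ℓ ^ 2 + 5 * ℓ) ≤ Dc C ℓ) ∧
    (0 < εc C δ ℓ ∧ εc C δ ℓ ≤ 1 ∧ εc C δ ℓ ≤ δ) := by
  have hC0 : 0 < C := by linarith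
  have h5 : (1 : ℝ) ≤ 5 ^ ℓ := one_le_pow₀ (by norm_num)
  have h4 : (1 : ℝ) ≤ 4 ^ ℓ := one_le_pow₀ (by norm_num)
  have hk : (1 : ℝ) ≤ (2 * C + 1) ^ (2 * ℓ) := one_le_pow₀ (by linarith)
  have hf : (0 : ℝ) ≤ (ℓ.factorial : ℝ) ^ 2 := by positivity
  have h2 : (1 : ℝ) ≤ 2 ^ (2 * ℓ + 8) := one_le_pow₀ (by norm_num)
  have h2' : (1 : ℝ) ≤ 2 ^ (ℓ ^ 2 + 5 * ℓ) := one_le_pow₀ (by norm_num)
  have hC5 : 0 ≤ C * 5 ^ ℓ := by positivity
  have hC4 : 0 ≤ 4 ^ ℓ * C := by positivity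
  refine ⟨?_, ?_, ?_⟩
  · unfold Bc
    refine ⟨?_, ?_, ?_, ?_, ?_, ?_⟩ <;> linarith
  · unfold Dc
    refine ⟨?_, ?_, ?_, ?_⟩ <;> linarith
  · have e1 : (0 : ℝ) < (4 * (2 * C + 1) ^ 2) ^ ℓ := by positivity
    have e2 : 1 ≤ (4 * (2 * C + 1) ^ 2) ^ ℓ := one_le_pow₀ (by nlinarith)
    have e3 : δ / (8 * C) ≤ 1 := by
      rw [div_le_one (by positivity)]
      linarith
    have e4 : (δ / (8 * C)) ^ (2 * ℓ) ≤ 1 := pow_le_one₀ (by positivity) e3
    have e5 : δ / (4 * (2 * C + 1)) ≤ δ := by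
      apply div_le_self hδ.le
      linarith
    have e6 : εc C δ ℓ ≤ δ := by
      unfold εc
      rw [div_le_iff₀ e1]
      calc δ / (4 * (2 * C + 1)) * (δ / (8 * C)) ^ (2 * ℓ) ≤ δ * 1 :=
            mul_le_mul e5 e4 (by positivity) hδ.le
        _ ≤ δ * (4 * (2 * C + 1) ^ 2) ^ ℓ := mul_le_mul_of_nonneg_left e2 hδ.le
    refine ⟨?_, e6.trans hδ1, e6⟩
    unfold εc
    positivity

/-- a lower bound for `Z` -/
private theorem Combx_Z (B D ε : ℝ) (hB : 1 ≤ B) (hD : 1 ≤ D) (hε : 0 < ε) (hε1 : ε ≤ 1) (a b c : ℕ) (ha : a ≤ 54)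
    (hb : b ≤ 12) (hc : c ≤ 8) : 1000 * (B ^ a * D ^ b / ε ^ c) ≤ 1000 * B ^ 54 * D ^ 12 / ε ^ 8 := by
  have e1 : B ^ a ≤ B ^ 54 := pow_le_pow_right₀ hB ha
  have e2 : D ^ b ≤ D ^ 12 := pow_le_pow_right₀ hD hb
  have e3 : ε ^ 8 ≤ ε ^ c := pow_le_pow_of_le_one hε.le hε1 hc
  have e4 : B ^ a * D ^ b / ε ^ c ≤ B ^ 54 * D ^ 12 / ε ^ 8 := by
    apply div_le_div₀ (by positivity) (mul_le_mul e1 e2 (by positivity) (by positivity)) (by positivity) e3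
  calc 1000 * (B ^ a * D ^ b / ε ^ c) ≤ 1000 * (B ^ 54 * D ^ 12 / ε ^ 8) :=
        mul_le_mul_of_nonneg_left e4 (by norm_num)
    _ = 1000 * B ^ 54 * D ^ 12 / ε ^ 8 := by ring

private theorem Combx_P (C δ : ℝ) (ℓ : ℕ) (hC : 1 ≤ C) (hℓ : 1 ≤ ℓ) (hδ : 0 < δ) (hδ1 : δ ≤ 1) :
    1000 ≤ Zc C δ ℓ := by
  obtain ⟨⟨hB, -⟩, ⟨hD, -⟩, hε, hε1, -⟩ := Combx_const C δ ℓ hC hℓ hδ hδ1
  have := Combx_Z _ _ _ hB hD hε hε1 0 0 0 (by norm_num) (by norm_num) (by norm_num)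
  unfold Zc
  simpa using this

/-- the descendants are monotone in the set of the indices -/
private theorem Combx_mono (P j : ℕ) (D τ : ℝ) {F F' : Finset ℕ} (h : F ⊆ F') (α : ℕ → ℝ) (v : ℕ × ℝ) :
    DS P j D τ F α v ⊆ DS P j D τ F' α v := by
  intro t ht
  rw [mem_DS] at ht ⊢
  exact ⟨ht.1, ht.2.1, h ht.2.2.1, ht.2.2.2⟩

/-- a relation with few first coordinates is small -/
private theorem Combx_first (κ : ℝ) (P : ℕ) (S : Finset (ℕ × ℕ × ℕ)) (h : Mul κ P S) :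
    (S.card : ℝ) ≤ κ * P * ((S.image Prod.fst).card : ℝ) := by
  classical
  set T : Finset (ℕ × ℕ) := (S.image Prod.fst) ×ˢ (Ioc P (2 * P)) with hT
  have hmap : ∀ t ∈ S, (t.1, t.2.1) ∈ T := by
    intro t ht
    rw [hT, Finset.mem_product]
    refine ⟨Finset.mem_image_of_mem _ ht, ?_⟩
    rw [Finset.mem_Ioc]
    exact (h.prime t ht).2
  have h1 := Finset.card_eq_sum_card_fiberwise (f := fun t : ℕ × ℕ × ℕ => (t.1, t.2.1)) (s := S) (t := T) hmap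
  have h2 : (S.card : ℝ) = ∑ b ∈ T, ((S.filter fun t => (t.1, t.2.1) = b).card : ℝ) := by
    exact_mod_cast h1
  rw [h2]
  calc ∑ b ∈ T, ((S.filter fun t => (t.1, t.2.1) = b).card : ℝ) ≤ ∑ b ∈ T, κ := by
        refine Finset.sum_le_sum fun b _ => ?_
        have h3 := h.out b.1 b.2
        have h4 : (S.filter fun t => (t.1, t.2.1) = b) = S.filter fun t => t.1 = b.1 ∧ t.2.1 = b.2 := by
          refine Finset.filter_congr fun t _ => ?_
          rw [Prod.ext_iff]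
        rw [h4]
        exact h3
    _ = κ * P * ((S.image Prod.fst).card : ℝ) := by
        rw [Finset.sum_const, nsmul_eq_mul, hT, Finset.card_product, Nat.card_Ioc]
        have h5 : 2 * P - P = P := by omega
        rw [h5]
        push_cast
        ring

theorem combx_node (C : ℝ) (hC : 1 ≤ C) (n P ℓ : ℕ) (δ η Q : ℝ) (hn : 1 ≤ n) (hℓ : 1 ≤ ℓ) (hδ : 0 < δ) (hδ1 : δ ≤ 1)
    (hη : 0 < η) (hQ : Zc C δ ℓ ≤ Q) (hQP : Q ≤ P) (hQη : Q * η * (P : ℝ) ^ 3 ≤ 1) (F0 G0 : Finset ℕ) (α β : ℕ → ℝ)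
    (R0 : Finset (ℕ × ℕ × ℕ)) (hR : Rel C n P (η * P) F0 G0 α β R0) (hR0 : δ * n * P ≤ R0.card) :
    ∃ v : ℕ × ℝ, (n : ℝ) / C ≤ v.1 ∧ (v.1 : ℝ) ≤ 4 ^ ℓ * C * n ∧ εc C δ ℓ / Bc C ℓ ^ 5 * (P : ℝ) ^ ℓ ≤
      ((DS P ℓ (C * 5 ^ ℓ) (2 ^ (ℓ ^ 2 + 5 * ℓ) * η) F0 α v).card : ℝ) := by
  classical
  obtain ⟨⟨hB, hB1, hB2, hB3, hB4, hB5⟩, ⟨hD, -, -, hD3⟩, hε, hε1, hεδ⟩ := Combx_const C δ ℓ hC hℓ hδ hδ1
  have hZ1000 := Combx_P C δ ℓ hC hℓ hδ hδ1
  have hPr : (1000 : ℝ) ≤ P := (hZ1000.trans hQ).trans hQP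
  have hP0 : (0 : ℝ) < P := by linarith
  have hP1 : 1 ≤ P := by
    have : (0 : ℝ) < (P : ℝ) := hP0
    exact_mod_cast this
  have hC0 : 0 < C := by linarith
  have hn0 : (0 : ℝ) < n := by exact_mod_cast hn
  have hQ0 : 0 < Q := by linarith
  obtain ⟨B, hBdef⟩ : ∃ B, B = Bc C ℓ := ⟨_, rfl⟩
  obtain ⟨ε, hεdef⟩ : ∃ ε, ε = εc C δ ℓ := ⟨_, rfl⟩
  obtain ⟨Dt, hDdef⟩ : ∃ Dt, Dt = Dc C ℓ := ⟨_, rfl⟩
  have hZdef : Zc C δ ℓ = 1000 * B ^ 54 * Dt ^ 12 / ε ^ 8 := by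
    rw [hBdef, hεdef, hDdef]
    rfl
  rw [← hBdef] at hB hB1 hB2 hB3 hB4 hB5
  rw [← hεdef] at hε hε1 hεδ
  rw [← hDdef] at hD hD3
  rw [← hBdef, ← hεdef]
  have hB0 : 0 < B := by linarith
  have hZP : 1000 * B ^ 54 * Dt ^ 12 / ε ^ 8 ≤ P := by
    rw [← hZdef]
    exact hQ.trans hQP
  have hZQ : 1000 * B ^ 54 * Dt ^ 12 / ε ^ 8 ≤ Q := by
    rw [← hZdef]
    exact hQ
  -- the cleaning
  set m : ℝ := δ * P / (4 * C) with hm
  have hm0 : 0 ≤ m := by positivity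
  obtain ⟨hF0c, hG0c⟩ := rel_card_le C hC n P hn (η * P) F0 G0 α β R0 hR
  obtain ⟨S, hSR, hScard, hS1, hS2⟩ := clean R0 F0 G0 hR.memF hR.memF' m m hm0 hm0
  have hSlow : δ * n * P / 2 ≤ S.card := by
    have h1 : m * F0.card ≤ m * (C * n) := mul_le_mul_of_nonneg_left hF0c hm0
    have h2 : m * G0.card ≤ m * (C * n) := mul_le_mul_of_nonneg_left hG0c hm0
    have h3 : m * (C * n) = δ * n * P / 4 := by
      rw [hm]
      field_simp
    linarith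
  set F : Finset ℕ := S.image Prod.fst with hF
  have hFF0 : F ⊆ F0 := by
    intro i hi
    rw [hF, Finset.mem_image] at hi
    obtain ⟨t, ht, rfl⟩ := hi
    exact hR.memF t (hSR ht)
  have hRelS : Rel C n P (η * P) F G0 α β S :=
    { memF := fun t ht => by rw [hF]; exact Finset.mem_image_of_mem _ ht
      memF' := fun t ht => hR.memF' t (hSR ht)
      prime := fun t ht => hR.prime t (hSR ht)
      pos := fun t ht => hR.pos t (hSR ht)
      freq := fun t ht => hR.freq t (hSR ht)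
      rngF := fun K hK => hR.rngF K (hFF0 hK)
      rngF' := hR.rngF' }
  have hMul : Mul (2 * C + 1) P S := rel_mul C hC n P hP1 (η * P) F G0 α β S hRelS
  have hFlow : δ * n / (2 * (2 * C + 1)) ≤ F.card := by
    have h1 := Combx_first (2 * C + 1) P S hMul
    rw [← hF] at h1
    rw [div_le_iff₀ (by positivity)]
    have h2 : δ * n * P ≤ (F.card : ℝ) * (2 * (2 * C + 1)) * P := by linarith
    exact le_of_mul_le_mul_right h2 hP0
  -- the number of walks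
  have hmκ : 2 * ℓ * (2 * C + 1) ≤ δ * P / (8 * C) := by
    rw [le_div_iff₀ (by positivity)]
    have hℓ2 : (ℓ : ℝ) ≤ B := by
      have h1 : ℓ < 2 ^ ℓ := Nat.lt_two_pow_self
      have h2 : (ℓ : ℝ) ≤ 2 ^ ℓ := by exact_mod_cast h1.le
      have h3 : (2 : ℝ) ^ ℓ ≤ 2 ^ (2 * ℓ + 8) := pow_le_pow_right₀ (by norm_num) (by omega)
      linarith
    have hCB : 2 * C + 1 ≤ B := by
      have h5 : (1 : ℝ) ≤ 5 ^ ℓ := one_le_pow₀ (by norm_num)
      have : 2 * C * 1 ≤ 2 * C * 5 ^ ℓ := mul_le_mul_of_nonneg_left h5 (by positivity)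
      linarith
    have hz := Combx_Z B Dt ε hB hD hε hε1 3 0 1 (by norm_num) (by norm_num) (by norm_num)
    rw [pow_zero, mul_one, pow_one] at hz
    have hz2 : 1000 * (B ^ 3 / ε) ≤ P := hz.trans hZP
    have hz3 : 1000 * (B ^ 3 / ε) * ε = 1000 * B ^ 3 := by field_simp
    have hz4 : 1000 * B ^ 3 ≤ P * ε := by
      have := mul_le_mul_of_nonneg_right hz2 hε.le
      rwa [hz3] at this
    have hz5 : (P : ℝ) * ε ≤ P * δ := mul_le_mul_of_nonneg_left hεδ hP0.le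
    have hc1 : (ℓ : ℝ) * (2 * C + 1) ≤ B * B := mul_le_mul hℓ2 hCB (by positivity) hB0.le
    have hc2 : (ℓ : ℝ) * (2 * C + 1) * C ≤ B * B * B :=
      mul_le_mul hc1 (by linarith) hC0.le (by positivity)
    have hB3' : B * B * B = B ^ 3 := by ring
    rw [hB3'] at hc2
    have hB30 : 0 < B ^ 3 := by positivity
    calc 2 * (ℓ : ℝ) * (2 * C + 1) * (8 * C) = 16 * ((ℓ : ℝ) * (2 * C + 1) * C) := by ring
      _ ≤ 16 * B ^ 3 := by linarith
      _ ≤ δ * P := by linarith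
  have hmm : δ * P / (8 * C) ≤ m - 2 * ℓ * (2 * C + 1) := by
    have : m = δ * P / (8 * C) + δ * P / (8 * C) := by
      rw [hm]
      field_simp
      ring
    rw [this]
    linarith
  have hOm := om_card S F (2 * C + 1) m P ℓ hMul hRelS.memF (by
      have h0 : 0 ≤ δ * P / (8 * C) := by positivity
      linarith) (by
      intro i hi
      rw [hF, Finset.mem_image] at hi
      obtain ⟨t, ht, rfl⟩ := hi
      exact hS1 t ht) hS2
  have hpow : (δ * P / (8 * C)) ^ (2 * ℓ) ≤ (m - 2 * ℓ * (2 * C + 1)) ^ (2 * ℓ) :=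
    pow_le_pow_left₀ (by positivity) hmm _
  have hOm2 : 2 * ((4 * (2 * C + 1) ^ 2) ^ ℓ * ε * n * (P : ℝ) ^ (2 * ℓ)) ≤ (Om S F ℓ).card := by
    refine le_trans (le_of_eq ?_) ((mul_le_mul hFlow hpow (by positivity) (by positivity)).trans hOm)
    rw [hεdef]
    unfold εc
    have hne : (4 * (2 * C + 1) ^ 2) ^ ℓ ≠ 0 := by positivity
    have e : δ * P / (8 * C) = (δ / (8 * C)) * P := by ring
    rw [e, mul_pow (δ / (8 * C)) (P : ℝ) (2 * ℓ)]
    generalize (δ / (8 * C)) ^ (2 * ℓ) = X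
    generalize (4 * (2 * C + 1) ^ 2) ^ ℓ = Y at hne
    field_simp
    ring
  -- the levels
  have hPar : Par C ℓ P B ε η :=
    { hC := hC
      hB1 := hB1
      hB2 := hB2
      hB3 := hB3
      hB4 := hB4
      hB5 := hB5
      hε := hε
      hε1 := hε1
      hη := hη
      hP := by
        have h1 : 1000 * B ^ 54 * Dt ^ 12 ≤ P * ε ^ 8 := by
          rwa [div_le_iff₀ (by positivity)] at hZP
        have h2 : (1 : ℝ) ≤ Dt ^ 12 := one_le_pow₀ hD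
        have h3 : 1000 * B ^ 54 * 1 ≤ 1000 * B ^ 54 * Dt ^ 12 :=
          mul_le_mul_of_nonneg_left h2 (by positivity)
        have h4 : 0 < B ^ 54 := by positivity
        linarith
      hηP := by
        have h1 : (2 : ℝ) ^ (ℓ ^ 2 + 5 * ℓ + 10) ≤ Q := by
          have hz := Combx_Z B Dt ε hB hD hε hε1 1 1 0 (by norm_num) (by norm_num) (by norm_num)
          rw [pow_one, pow_one, pow_zero, div_one] at hz
          have h2 : (2 : ℝ) ≤ B := by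
            have : (2 : ℝ) ^ 1 ≤ 2 ^ (2 * ℓ + 8) := pow_le_pow_right₀ (by norm_num) (by omega)
            linarith
          rw [pow_add]
          calc (2 : ℝ) ^ (ℓ ^ 2 + 5 * ℓ) * 2 ^ 10 ≤ Dt * 2 ^ 10 :=
                mul_le_mul_of_nonneg_right hD3 (by positivity)
            _ ≤ 1000 * (B * Dt) := by nlinarith
            _ ≤ Q := hz.trans hZQ
        have h2 : 0 ≤ η * (P : ℝ) ^ 3 := by positivity
        calc (2 : ℝ) ^ (ℓ ^ 2 + 5 * ℓ + 10) * η * (P : ℝ) ^ 3 = 2 ^ (ℓ ^ 2 + 5 * ℓ + 10) * (η * (P : ℝ) ^ 3) := by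
              ring
          _ ≤ Q * (η * (P : ℝ) ^ 3) := mul_le_mul_of_nonneg_right h1 h2
          _ = Q * η * (P : ℝ) ^ 3 := by ring
          _ ≤ 1 := hQη }
  have hlev : ∀ j : ℕ, j ≤ ℓ → ∃ (V : Finset (ℕ × ℝ)) (G : Finset (Wk j)) (c : Wk j → ℕ × ℝ),
      Lvl C B ε η n P F α S j V G c := by
    intro j
    induction j with
    | zero =>
      intro _
      exact lvl0 C B ε η ℓ n P F G0 α β S hPar hP1 hRelS
    | succ j ih =>
      intro hj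
      obtain ⟨V, G, c, hL⟩ := ih (by omega)
      exact lvl_step C B ε η ℓ n P j F α S hPar (by omega) hn hMul V G c hL
  obtain ⟨V, G, c, hL⟩ := hlev ℓ le_rfl
  have hpos : 0 < (4 * (2 * C + 1) ^ 2) ^ ℓ * ε * n * (P : ℝ) ^ (2 * ℓ) := by positivity
  have hex : ∃ w ∈ Om S F ℓ, w ∈ G := by
    by_contra hcon
    push Not at hcon
    have h1 : (Om S F ℓ).filter (fun w => w ∉ G) = Om S F ℓ := Finset.filter_true_of_mem hcon
    have h2 := hL.exc
    rw [h1] at h2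
    linarith
  obtain ⟨w, -, hwG⟩ := hex
  have hv := hL.col w hwG
  obtain ⟨hr1, hr2⟩ := hL.rng _ hv
  refine ⟨c w, hr1, hr2, (hL.desc _ hv).trans ?_⟩
  exact_mod_cast Finset.card_le_card (Combx_mono P ℓ _ _ hFF0 α (c w))

theorem combx (C : ℝ) (hC : 1 ≤ C) (n P ℓ : ℕ) (δ η Q : ℝ) (hn : 1 ≤ n) (hℓ : 1 ≤ ℓ) (hnP : (n : ℝ) * P ≤ (P : ℝ) ^ ℓ)
    (hnP2 : (P : ℝ) ^ ℓ ≤ n * (P : ℝ) ^ 2) (hδ : 0 < δ) (hδ1 : δ ≤ 1)
    (hη : 0 < η) (hQ : Zc C δ ℓ ≤ Q) (hQP : Q ≤ P) (hQη : Q * η * (P : ℝ) ^ 3 ≤ 1) (F0 G0 : Finset ℕ) (α β : ℕ → ℝ)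
    (R0 : Finset (ℕ × ℕ × ℕ)) (hR : Rel C n P (η * P) F0 G0 α β R0) (hR0 : δ * n * P ≤ R0.card) :
    ∃ (d b : ℕ) (T : ℝ) (F1 : Finset ℕ), 1 ≤ d ∧ (d : ℝ) ≤ Q ∧ |T| ≤ Q * η * (n : ℝ) ^ 2 ∧ F1 ⊆ F0 ∧
      (n : ℝ) ≤ Q * F1.card ∧ ∀ i ∈ F1, nz (α i - b / d - T / i) ≤ Q * η := by
  obtain ⟨v, hv1, hv2, hv3⟩ := combx_node C hC n P ℓ δ η Q hn hℓ hδ hδ1 hη hQ hQP hQη F0 G0 α β R0 hR hR0
  obtain ⟨⟨hB, -⟩, ⟨hD, hD1, hD2, hD3⟩, hε, hε1, -⟩ := Combx_const C δ ℓ hC hℓ hδ hδ1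
  have hZ1000 := Combx_P C δ ℓ hC hℓ hδ hδ1
  have hPr : (1000 : ℝ) ≤ P := (hZ1000.trans hQ).trans hQP
  have hP0 : (0 : ℝ) < P := by linarith
  have hP1 : 1 ≤ P := by
    have : (0 : ℝ) < (P : ℝ) := hP0
    exact_mod_cast this
  have hC0 : 0 < C := by linarith
  have hn0 : (0 : ℝ) < n := by exact_mod_cast hn
  have hQ0 : 0 < Q := by linarith
  obtain ⟨B, hBdef⟩ : ∃ B, B = Bc C ℓ := ⟨_, rfl⟩
  obtain ⟨ε, hεdef⟩ : ∃ ε, ε = εc C δ ℓ := ⟨_, rfl⟩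
  obtain ⟨Dt, hDdef⟩ : ∃ Dt, Dt = Dc C ℓ := ⟨_, rfl⟩
  have hZdef : Zc C δ ℓ = 1000 * B ^ 54 * Dt ^ 12 / ε ^ 8 := by
    rw [hBdef, hεdef, hDdef]
    rfl
  rw [← hBdef] at hB hv3
  rw [← hεdef] at hε hε1 hv3
  rw [← hDdef] at hD hD1 hD2 hD3
  have hB0 : 0 < B := by linarith
  have hD0 : 0 < Dt := by linarith
  have hZP : 1000 * B ^ 54 * Dt ^ 12 / ε ^ 8 ≤ P := by
    rw [← hZdef]
    exact hQ.trans hQP
  have hZQ : 1000 * B ^ 54 * Dt ^ 12 / ε ^ 8 ≤ Q := by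
    rw [← hZdef]
    exact hQ
  have hCD : C ≤ Dt := by
    have h5 : (1 : ℝ) ≤ 5 ^ ℓ := one_le_pow₀ (by norm_num)
    have : C * 1 ≤ C * 5 ^ ℓ := mul_le_mul_of_nonneg_left h5 hC0.le
    linarith
  have hnD : (n : ℝ) / Dt ≤ n / C := div_le_div_of_nonneg_left hn0.le hC0 hCD
  -- the constants
  set ρ : ℝ := ε / B ^ 5 with hρ
  have hρ0 : 0 < ρ := by positivity
  have hρ1 : ρ ≤ 1 := by
    rw [hρ, div_le_one (by positivity)]
    exact hε1.trans (one_le_pow₀ hB)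
  have hρi : 1 / ρ = B ^ 5 / ε := by rw [hρ, one_div, inv_div]
  -- `48 D^6 / ρ ≤ Q`, `48 D^6 / ρ^2 ≤ Q`
  have hX : 48 * Dt ^ 6 / ρ ≤ 1000 * B ^ 54 * Dt ^ 12 / ε ^ 8 := by
    have hz := Combx_Z B Dt ε hB hD hε hε1 5 6 1 (by norm_num) (by norm_num) (by norm_num)
    refine le_trans ?_ hz
    rw [pow_one]
    have h1 : 48 * Dt ^ 6 / ρ = 48 * (B ^ 5 * Dt ^ 6 / ε) := by
      rw [hρ]
      field_simp
    rw [h1]
    have h2 : 0 ≤ B ^ 5 * Dt ^ 6 / ε := by positivity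
    linarith
  have hX2 : 48 * Dt ^ 6 / ρ ^ 2 ≤ 1000 * B ^ 54 * Dt ^ 12 / ε ^ 8 := by
    have hz := Combx_Z B Dt ε hB hD hε hε1 10 6 2 (by norm_num) (by norm_num) (by norm_num)
    refine le_trans ?_ hz
    have h1 : 48 * Dt ^ 6 / ρ ^ 2 = 48 * (B ^ 10 * Dt ^ 6 / ε ^ 2) := by
      rw [hρ]
      field_simp
    rw [h1]
    have h2 : 0 ≤ B ^ 10 * Dt ^ 6 / ε ^ 2 := by positivity
    linarith
  have hXQ : 48 * Dt ^ 6 / ρ ≤ Q := hX.trans hZQ
  have hXQ' : 48 * Dt ^ 6 ≤ Q * ρ := by rwa [div_le_iff₀ hρ0] at hXQ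
  have hXP' : 48 * Dt ^ 6 ≤ P * ρ := by
    have := hX.trans hZP
    rwa [div_le_iff₀ hρ0] at this
  have hX2Q : 48 * Dt ^ 6 ≤ Q * ρ ^ 2 := by
    have := hX2.trans hZQ
    rwa [div_le_iff₀ (by positivity)] at this
  have hDesc : Desc P ℓ Dt (Dt * η) F0 α v.1 v.2 (DS P ℓ (C * 5 ^ ℓ) (2 ^ (ℓ ^ 2 + 5 * ℓ) * η) F0 α v) := by
    have h := DS_desc P ℓ (C * 5 ^ ℓ) (2 ^ (ℓ ^ 2 + 5 * ℓ) * η) F0 α v
    exact
      { mem := h.mem
        lo := h.lo
        hi := h.hi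
        pos := fun t ht => (h.pos t ht).trans (mul_le_mul_of_nonneg_right hD1 (by positivity))
        freq := fun t ht => (h.freq t ht).trans (mul_le_mul_of_nonneg_right hD3 hη.le) }
  obtain ⟨d, b, T, F1, hd1, hd2, hT, hF1, hF1c, hnz⟩ := topx Dt hD n P ℓ v.1 ρ η v.2 F0 α
    (DS P ℓ (C * 5 ^ ℓ) (2 ^ (ℓ ^ 2 + 5 * ℓ) * η) F0 α v) hn hP1 hρ0 hρ1 hη.le hnP hnP2
    (fun i hi => ⟨hnD.trans (hR.rngF i hi).1, (hR.rngF i hi).2.trans
      (mul_le_mul_of_nonneg_right hCD hn0.le)⟩)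
    (hnD.trans hv1) (hv2.trans (mul_le_mul_of_nonneg_right hD2 hn0.le))
    (by linarith)
    (by
      have h1 : 48 * Dt ^ 6 * η * (P : ℝ) ^ 2 ≤ Q * ρ * (η * (P : ℝ) ^ 2) := by
        have := mul_le_mul_of_nonneg_right hXQ' (show 0 ≤ η * (P : ℝ) ^ 2 by positivity)
        linarith
      have h2 : Q * (η * (P : ℝ) ^ 2) ≤ 1 := by
        have h3 : (P : ℝ) ^ 2 ≤ (P : ℝ) ^ 3 := pow_le_pow_right₀ (by linarith) (by norm_num)
        have h4 : Q * (η * (P : ℝ) ^ 2) ≤ Q * (η * (P : ℝ) ^ 3) :=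
          mul_le_mul_of_nonneg_left (mul_le_mul_of_nonneg_left h3 hη.le) hQ0.le
        linarith
      have h3 : Q * ρ * (η * (P : ℝ) ^ 2) ≤ ρ := by
        have := mul_le_mul_of_nonneg_left h2 hρ0.le
        linarith
      exact h1.trans h3)
    hDesc hv3
  refine ⟨d, b, T, F1, hd1, ?_, ?_, hF1, ?_, fun i hi => ?_⟩
  · have h1 : (d : ℝ) * ρ ≤ Q * ρ := hd2.trans hXQ'
    exact le_of_mul_le_mul_right h1 hρ0
  · have h1 : |T| * ρ ≤ (Q * η * (n : ℝ) ^ 2) * ρ := by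
      refine hT.trans ?_
      have := mul_le_mul_of_nonneg_right hXQ' (show 0 ≤ η * (n : ℝ) ^ 2 by positivity)
      linarith
    exact le_of_mul_le_mul_right h1 hρ0
  · have h1 : (n : ℝ) * ρ ^ 2 ≤ (Q * F1.card) * ρ ^ 2 := by
      have := mul_le_mul_of_nonneg_right hX2Q (show (0 : ℝ) ≤ F1.card by positivity)
      linarith
    exact le_of_mul_le_mul_right h1 (by positivity)
  · have h1 : nz (α i - b / d - T / i) * ρ ≤ (Q * η) * ρ := by
      refine (hnz i hi).trans ?_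
      have := mul_le_mul_of_nonneg_right hXQ' hη.le
      linarith
    exact le_of_mul_le_mul_right h1 hρ0

end Pool.Agent.H74.MDX

end
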