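import Pool.Agent.H43.PJ.M05
import Pool.Agent.H43.PJ.M08

/-! The parts of this file: H53.MID.HSq, H53.MIX.Defs, H53.MIX.VkPrW, H53.MIX.MscW. -/

section

/-!
# MID HSq: the second moment of `hR` in short intervals

Proof.  `hR^2 ≤ 2 Lam^2 + 2 lamR^2`.  `Lam k ≤ log k ≤ 4 L` for `k < N^4` (`L = log N`), so `∑ 2 Lam^2 ≤ 32 w L^2`.
`lamR`: the proof of `lamR_sq` in `H76/EHB/HRm.lean` works for a shifted interval: for `k = (u - 1) + j`, `j = 1..w`,
`lamR R k = ∑_{c ≤ R} μ(c)/φ(c) ∑_{b ∈ red c} e(k b/c)` (`Pool.Agent.H76.EHB.lamR_eq`, `k ≥ 1`) has the coefficients `μ(c)/φ(c) e((u-1) b/c)` of the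
same absolute value; `dual_large_sieve` with `M = w ≥ R^2`: `∑ lamR^2 ≤ 5 w ∑_{c ≤ R} 1/φ(c)`, and
`∑_{c ≤ R} 1/φ(c) ≤ (2 log R + 2)(1 + log R)` as in `hR_sq` (same file); `log R ≤ B log L ≤ L^(1/2)`.  In total `≤ w L^4` for `N ≥ N0(B)`.
`hsq`: `cut K1 K2 f 0 = 0` (`0 ∉ Ioc K1 K2`) and `(cut K1 K2 f k)^2 ≤ f k ^2`; if `u = 0` drop the term `k = 0` (length `w - 1 ≥ R^4 + 1`).
-/

set_option autoImplicit false

namespace Pool.Agent.H53.MID

open Finset
open Pool.Agent.H91.EHA (Lam hR lamR ramS)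

/-- mean square of `lamR` in a short interval -/
private theorem HSq_lamR (R u w : ℕ) (hu : 1 ≤ u) (hw : 0 < w) (hR : R ^ 2 ≤ w) :
    ∑ k ∈ Ico u (u + w), lamR R k ^ 2 ≤ 5 * w * ∑ c ∈ Icc 1 R, 1 / (c.totient : ℝ) := by
  classical
  set J : Finset (Σ _ : ℕ, ℕ) := (Icc 1 R).sigma (fun r => Pool.Agent.H92.EH.red r) with hJ
  have hsp : ∀ i ∈ J, ∀ j ∈ J, i ≠ j → ∀ k : ℤ,
      (1 : ℝ) / w ≤ |(i.2 : ℝ) / i.1 - (j.2 : ℝ) / j.1 - k| := by
    rintro ⟨r, b⟩ hi ⟨r', b'⟩ hj hne k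
    rw [hJ, mem_sigma, mem_Icc] at hi hj
    simp only at hi hj
    refine le_trans ?_ (Pool.Agent.H92.EH.farey_spacing (by omega) (by omega) hi.2 hj.2 ?_ k)
    · apply one_div_le_one_div_of_le
      · have h1 : (0 : ℝ) < r := by exact_mod_cast hi.1.1
        have h2 : (0 : ℝ) < r' := by exact_mod_cast hj.1.1
        positivity
      · have : r * r' ≤ w := by
          calc r * r' ≤ R * R := Nat.mul_le_mul hi.1.2 hj.1.2
            _ = R ^ 2 := by ring
            _ ≤ w := hR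
        exact_mod_cast this
    · rintro ⟨rfl, rfl⟩
      exact hne rfl
  set m : ℕ → ℝ := fun c => ((ArithmeticFunction.moebius c : ℤ) : ℝ) / (c.totient : ℝ) with hm
  set cf : (Σ _ : ℕ, ℕ) → ℂ := fun j => ((m j.1 : ℝ) : ℂ) *
    Pool.Agent.H92.EH.e (((u : ℝ) - 1) * ((j.2 : ℝ) / j.1)) with hcf
  have hen : ∀ t : ℝ, ‖Pool.Agent.H92.EH.e t‖ = 1 := fun t => by
    rw [Pool.Agent.H76.EHB.HRm_e, Pool.Agent.H91.PK.LSa_norm_ee]
  have h := Pool.Agent.H92.EH.dual_large_sieve J (fun j => (j.2 : ℝ) / j.1) cf w w le_rfl hw hsp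
  have himg : Ico u (u + w) = (Icc 1 w).image (fun n => u + n - 1) := by
    ext k
    rw [Finset.mem_Ico, Finset.mem_image]
    constructor
    · rintro ⟨h3, h4⟩
      exact ⟨k + 1 - u, by rw [Finset.mem_Icc]; omega, by omega⟩
    · rintro ⟨n, hn, rfl⟩
      rw [Finset.mem_Icc] at hn
      omega
  have h1 : ∀ n ∈ Icc 1 w, lamR R (u + n - 1) ^ 2 =
      ‖∑ j ∈ J, cf j * Pool.Agent.H92.EH.e (n * ((j.2 : ℝ) / j.1))‖ ^ 2 := by
    intro n hn
    rw [Finset.mem_Icc] at hn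
    have h2 := Pool.Agent.H76.EHB.lamR_eq R (u + n - 1) (by omega)
    have h3 : ∑ j ∈ J, cf j * Pool.Agent.H92.EH.e (n * ((j.2 : ℝ) / j.1)) =
        ((lamR R (u + n - 1) : ℝ) : ℂ) := by
      rw [h2, hJ, sum_sigma]
      refine sum_congr rfl fun c _ => ?_
      rw [mul_sum]
      refine sum_congr rfl fun b _ => ?_
      have h4 : ((u + n - 1 : ℕ) : ℝ) = ((u : ℝ) - 1) + n := by
        rw [Nat.cast_sub (by omega)]
        push_cast
        ring
      rw [hcf]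
      simp only
      rw [Pool.Agent.H76.EHB.HRm_e, Pool.Agent.H76.EHB.HRm_e, mul_assoc,
        ← Pool.Agent.H91.PK.LSa_ee_add, h4, ← add_mul]
    rw [h3, Complex.norm_real, Real.norm_eq_abs, sq_abs]
  rw [himg, Finset.sum_image (by
    intro a ha b hb hab
    simp only [Finset.coe_Icc, Set.mem_Icc] at ha hb
    simp only at hab
    omega), sum_congr rfl h1]
  refine h.trans (mul_le_mul_of_nonneg_left ?_ (by positivity))
  rw [hJ, sum_sigma]
  refine sum_le_sum fun c hc => ?_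
  have h5 : ∀ b ∈ Pool.Agent.H92.EH.red c, ‖cf ⟨c, b⟩‖ ^ 2 = m c ^ 2 := fun b _ => by
    rw [hcf]
    simp only
    rw [norm_mul, hen, mul_one, Complex.norm_real, Real.norm_eq_abs, sq_abs]
  rw [sum_congr rfl h5, sum_const, Pool.Agent.H92.EH.card_red, nsmul_eq_mul]
  have hc1 : 0 < c := (mem_Icc.mp hc).1
  have ht : (0 : ℝ) < c.totient := by exact_mod_cast Nat.totient_pos.mpr hc1
  have hmu : (((ArithmeticFunction.moebius c : ℤ) : ℝ)) ^ 2 ≤ 1 := by
    have h5 := ArithmeticFunction.abs_moebius_le_one (n := c)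
    have h6 : |((ArithmeticFunction.moebius c : ℤ) : ℝ)| ≤ 1 := by exact_mod_cast h5
    rw [← sq_abs]
    exact pow_le_one₀ (abs_nonneg _) h6
  rw [hm]
  simp only
  rw [div_pow, mul_div_assoc', div_le_div_iff₀ (by positivity) ht]
  nlinarith [mul_pos ht ht]

theorem hsq1 (B : ℕ) : ∃ N0 : ℕ, ∀ N : ℕ, N0 ≤ N → ∀ R : ℕ, (R : ℝ) ≤ Real.log N ^ B → ∀ u w : ℕ, 1 ≤ u →
    R ^ 4 + 1 ≤ w → u + w ≤ N ^ 4 → ∑ k ∈ Ico u (u + w), hR R k ^ 2 ≤ w * Real.log N ^ 4 := by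
  refine ⟨⌈Real.exp 17⌉₊, fun N hN R hRB u w hu hw huw => ?_⟩
  have hN1 : Real.exp 17 ≤ N := Nat.ceil_le.mp hN
  have hN0 : (0 : ℝ) < N := lt_of_lt_of_le (Real.exp_pos _) hN1
  have hL : 17 ≤ Real.log N := by
    rw [Real.le_log_iff_exp_le hN0]; exact hN1
  set L := Real.log N with hLdef
  have hw1 : 1 ≤ w := by omega
  have hw0 : (0 : ℝ) < w := by exact_mod_cast hw1
  have hR2 : R ^ 2 ≤ w := by
    have h1 : R ^ 2 ≤ R ^ 4 + 1 := by
      rcases Nat.eq_zero_or_pos R with rfl | hR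
      · simp
      · exact (Nat.pow_le_pow_right hR (by norm_num)).trans (Nat.le_succ _)
    exact h1.trans hw
  have hlog4 : ∀ k : ℕ, 1 ≤ k → k ≤ N ^ 4 → Real.log k ≤ 4 * L := by
    intro k hk1 hk
    have h1 : Real.log k ≤ Real.log ((N : ℝ) ^ 4) :=
      Real.log_le_log (by exact_mod_cast hk1) (by exact_mod_cast hk)
    rw [Real.log_pow] at h1
    push_cast at h1
    exact h1
  -- the first sum
  have hLam : ∑ k ∈ Ico u (u + w), Lam k ^ 2 ≤ w * (16 * L ^ 2) := by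
    have h1 : ∀ k ∈ Ico u (u + w), Lam k ^ 2 ≤ 16 * L ^ 2 := by
      intro k hk
      rw [Finset.mem_Ico] at hk
      have h2 : (0 : ℝ) ≤ Lam k := ArithmeticFunction.vonMangoldt_nonneg
      have h3 : Lam k ≤ Real.log k := ArithmeticFunction.vonMangoldt_le_log
      have h4 := hlog4 k (by omega) (by omega)
      have h5 : Lam k ≤ 4 * L := h3.trans h4
      calc Lam k ^ 2 ≤ (4 * L) ^ 2 := pow_le_pow_left₀ h2 h5 2
        _ = 16 * L ^ 2 := by ring
    refine (Finset.sum_le_sum h1).trans (le_of_eq ?_)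
    rw [Finset.sum_const, Nat.card_Ico, nsmul_eq_mul, Nat.add_sub_cancel_left]
  -- the second sum
  have hlam : ∑ k ∈ Ico u (u + w), lamR R k ^ 2 ≤ w * (125 * L ^ 2) := by
    refine (HSq_lamR R u w hu hw1 hR2).trans ?_
    have h1 : ∑ c ∈ Icc 1 R, 1 / (c.totient : ℝ) ≤ 25 * L ^ 2 := by
      rcases Nat.eq_zero_or_pos R with rfl | hR
      · rw [Finset.Icc_eq_empty (by norm_num), Finset.sum_empty]
        positivity
      · refine (Pool.Agent.H76.EHB.HRm_tot w R hR hR2).trans ?_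
        have h2 := hlog4 w hw1 (by omega)
        have h3 : 0 ≤ Real.log w := Real.log_natCast_nonneg w
        have h4 : Real.log w + 1 ≤ 5 * L := by linarith
        calc (Real.log w + 1) * (1 + Real.log w) = (Real.log w + 1) ^ 2 := by ring
          _ ≤ (5 * L) ^ 2 := pow_le_pow_left₀ (by linarith) h4 2
          _ = 25 * L ^ 2 := by ring
    calc 5 * (w : ℝ) * ∑ c ∈ Icc 1 R, 1 / (c.totient : ℝ) ≤ 5 * w * (25 * L ^ 2) :=
          mul_le_mul_of_nonneg_left h1 (by positivity)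
      _ = w * (125 * L ^ 2) := by ring
  have hsum : ∑ k ∈ Ico u (u + w), hR R k ^ 2 ≤
      2 * ∑ k ∈ Ico u (u + w), Lam k ^ 2 + 2 * ∑ k ∈ Ico u (u + w), lamR R k ^ 2 := by
    rw [mul_sum, mul_sum, ← sum_add_distrib]
    refine sum_le_sum fun n _ => ?_
    show (Lam n - lamR R n) ^ 2 ≤ _
    nlinarith [sq_nonneg (Lam n + lamR R n)]
  have hfin : 282 * L ^ 2 ≤ L ^ 4 := by
    have h1 : 289 ≤ L ^ 2 := by nlinarith
    have h2 : L ^ 4 = L ^ 2 * L ^ 2 := by ring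
    rw [h2]
    exact mul_le_mul_of_nonneg_right (by linarith) (by positivity)
  calc ∑ k ∈ Ico u (u + w), hR R k ^ 2 ≤ 2 * (w * (16 * L ^ 2)) + 2 * (w * (125 * L ^ 2)) := by
        linarith
    _ = w * (282 * L ^ 2) := by ring
    _ ≤ w * L ^ 4 := mul_le_mul_of_nonneg_left hfin hw0.le

theorem hsq (B : ℕ) : ∃ N0 : ℕ, ∀ N : ℕ, N0 ≤ N → ∀ R : ℕ, (R : ℝ) ≤ Real.log N ^ B → ∀ K1 K2 : ℕ,
    SqB (cut K1 K2 (hR R)) (R ^ 4 + 2) (N ^ 4) (Real.log N) := by
  obtain ⟨N0, h⟩ := hsq1 B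
  refine ⟨N0, fun N hN R hRB K1 K2 => ?_⟩
  intro u w hw huw
  have hcut : ∀ k, cut K1 K2 (hR R) k ^ 2 ≤ hR R k ^ 2 := by
    intro k
    unfold cut
    split_ifs
    · exact le_rfl
    · rw [zero_pow two_ne_zero]
      exact sq_nonneg _
  rcases Nat.eq_zero_or_pos u with rfl | hu
  · have h1 := h N hN R hRB 1 (w - 1) le_rfl (by omega) (by omega)
    rw [show 1 + (w - 1) = 0 + w by omega] at h1
    have h2 : cut K1 K2 (hR R) 0 = 0 := by
      unfold cut
      rw [if_neg (by rw [Finset.mem_Ioc]; omega)]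
    rw [Finset.sum_eq_sum_Ico_succ_bot (by omega), h2, zero_pow two_ne_zero, zero_add, zero_add]
    refine (Finset.sum_le_sum fun k _ => hcut k).trans (h1.trans ?_)
    have h3 : ((w - 1 : ℕ) : ℝ) ≤ w := by exact_mod_cast Nat.sub_le w 1
    have h4 : 0 ≤ Real.log N ^ 4 := by positivity
    exact mul_le_mul_of_nonneg_right h3 h4
  · exact (Finset.sum_le_sum fun k _ => hcut k).trans (h N hN R hRB u w hu (by omega) huw)

end Pool.Agent.H53.MID

end

section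

/-!
# MIX Defs: hypotheses of the strengthened theorem (windows `exp((log N)^θ)`)

* `VKw t1`: Vinogradov-Korobov for sums over residue classes, `z ≥ exp((log x)^t1)`;
* `VKe t0`: exponential sums over integers, `K ≥ exp((log x)^t0)`;
* `CombX t t2`: the combinatorial theorem with the boost (project MIDX of helper74): `P ≥ exp((log N)^t)`, `Q = exp((log N)^t2)`.
-/

set_option autoImplicit false

namespace Pool.Agent.H53.MIX

open Finset
open Pool.Agent.H91.PK (ee)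
open Pool.Agent.H91.EHA (Lam hR lamR ramS)
open Pool.Agent.H53.MID

/-- Vinogradov-Korobov for `Λ` in residue classes -/
def VKw (t1 : ℝ) : Prop := ∀ (K B : ℕ), ∃ K' x0 : ℕ, ∀ x : ℕ, x0 ≤ x →
  ∀ (d u z : ℕ) (t : ℝ), 1 ≤ d → (d : ℝ) ≤ Real.log x ^ B → Real.exp (Real.log x ^ t1) ≤ z → z ≤ x ^ 2 →
    Real.log x ^ K' ≤ |t| → |t| ≤ (x : ℝ) ^ (2 : ℕ) →
    ‖∑ n ∈ (Icc 1 z).filter (fun n => n % d = u % d), ((Lam n : ℝ) : ℂ) * ee (t * Real.log n)‖
      ≤ z / Real.log x ^ K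

/-- exponential sums `∑ (n+β)^{2πit}` over intervals in `[0, K]`, `K ≥ exp((log x)^t0)` -/
def VKe (t0 : ℝ) : Prop := ∀ A : ℕ, ∃ x0 : ℕ, ∀ x : ℕ, x0 ≤ x → ∀ (K a b : ℕ) (β t : ℝ),
  Real.exp (Real.log x ^ t0) ≤ K → K ≤ x → b ≤ K → 0 ≤ β → β ≤ 1 → 1 ≤ |t| → |t| ≤ (x : ℝ) ^ (3 : ℕ) →
    ‖∑ n ∈ Ioc a b, ee (t * Real.log (n + β))‖ ≤ K * (100 / |t| + 1 / Real.log x ^ A)

/-- the combinatorial theorem with the boost -/
def CombX (t t2 : ℝ) : Prop := ∀ (C : ℝ), 1 ≤ C → ∀ C0 : ℕ, ∃ C1 N0 : ℕ, ∀ N : ℕ, N0 ≤ N →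
  ∀ (n P : ℕ) (η : ℝ) (F0 G0 : Finset ℕ) (α β : ℕ → ℝ) (R0 : Finset (ℕ × ℕ × ℕ)),
    Real.exp (Real.log N ^ t) ≤ P → P ≤ N → n ≤ N → (N : ℝ) ^ (1 / 4 : ℝ) ≤ n → 0 < η →
    η * Real.exp (Real.log N ^ t2) ^ 60 * (P : ℝ) ^ 3 ≤ 1 → Rel C n P (η * P) F0 G0 α β R0 →
    n * P / Real.log N ^ C0 ≤ (R0.card : ℝ) →
    ∃ (d b : ℕ) (T : ℝ) (F1 : Finset ℕ), 1 ≤ d ∧ (d : ℝ) ≤ Real.log N ^ C1 ∧
      |T| ≤ Real.exp (Real.log N ^ t2) ^ 20 * η * (n : ℝ) ^ 2 ∧ F1 ⊆ F0 ∧ n / Real.log N ^ C1 ≤ (F1.card : ℝ) ∧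
      ∀ i ∈ F1, nz (α i - b / d - T / i) ≤ Real.exp (Real.log N ^ t2) ^ 13 * η

end Pool.Agent.H53.MIX

end

section

/-!
# MIX VkPrW: prime sums in classes for `P ≥ exp((log N)^t2)`

Copy and adapt `Pool.Agent.H53.MID.vk_pr` (file `H53/MID/VkPr.lean`, complete): `VKw t1` at `x = N^2`: `exp((2L)^t1) ≤ exp(L^t2) ≤ P` for large `N` (`t1 < t2`), `|t| ≤ N^3 ≤ x^2`; prime powers: `≤ √(2P) log(2P)/log 2 ≤ P/(2 L^K)` since
`P ≥ exp(L^t2)`.
-/

set_option autoImplicit false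

namespace Pool.Agent.H53.MIX

open Finset
open Pool.Agent.H91.PK (ee)
open Pool.Agent.H91.EHA (Lam)
open Pool.Agent.H35.W (pb)
open Pool.Agent.H53.MID

private theorem VkPrW_norm_ee (t : ℝ) : ‖ee t‖ = 1 := by
  unfold ee
  have : (2 * Real.pi * t * Complex.I : ℂ) = ((2 * Real.pi * t : ℝ) : ℂ) * Complex.I := by
    push_cast
    ring
  rw [this, Complex.norm_exp_ofReal_mul_I]

/-- Abel summation with a decreasing weight -/
private theorem VkPrW_abel (a : ℕ → ℂ) (w : ℕ → ℝ) (P Q : ℕ) (hPQ : P + 1 ≤ Q) {M : ℝ}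
    (hw : ∀ n, P + 1 ≤ n → n < Q → w (n + 1) ≤ w n) (hw0 : 0 ≤ w Q)
    (hS : ∀ z, P ≤ z → z ≤ Q → ‖∑ n ∈ Icc 1 z, a n‖ ≤ M) :
    ‖∑ n ∈ Ioc P Q, (w n : ℂ) * a n‖ ≤ 2 * M * w (P + 1) := by
  have hT : ∀ z, P ≤ z → z ≤ Q → ‖∑ n ∈ Ioc P z, a n‖ ≤ 2 * M := by
    intro z hz hz'
    have h1 : ∑ n ∈ Icc 1 z, a n = ∑ n ∈ Icc 1 P, a n + ∑ n ∈ Ioc P z, a n := by
      have e1 : ∀ k : ℕ, Icc 1 k = Ioc 0 k := fun k => by
        ext x
        simp only [mem_Icc, mem_Ioc]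
        omega
      rw [e1, e1, Finset.sum_Ioc_consecutive _ (Nat.zero_le _) hz]
    have h2 : ∑ n ∈ Ioc P z, a n = ∑ n ∈ Icc 1 z, a n - ∑ n ∈ Icc 1 P, a n := by
      rw [h1]
      ring
    rw [h2]
    have h3 := hS z hz hz'
    have h4 := hS P le_rfl (by omega)
    exact (norm_sub_le _ _).trans (by linarith)
  have hM : 0 ≤ 2 * M := (norm_nonneg _).trans (hT P le_rfl (by omega))
  have key : ∀ q, P + 1 ≤ q → q ≤ Q →
      ‖∑ n ∈ Ioc P q, (w n : ℂ) * a n - (w q : ℂ) * ∑ n ∈ Ioc P q, a n‖ ≤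
        2 * M * (w (P + 1) - w q) := by
    intro q hq
    induction q, hq using Nat.le_induction with
    | base =>
      intro _
      rw [Nat.Ioc_succ_singleton, Finset.sum_singleton, Finset.sum_singleton, sub_self, norm_zero,
        sub_self, mul_zero]
    | succ q hq ih =>
      intro hqQ
      have h1 := ih (by omega)
      have e1 : Ioc P (q + 1) = insert (q + 1) (Ioc P q) := by
        ext x
        simp only [mem_Ioc, mem_insert]
        omega
      have e2 : q + 1 ∉ Ioc P q := by simp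
      have h2 : ∑ n ∈ Ioc P (q + 1), (w n : ℂ) * a n - (w (q + 1) : ℂ) * ∑ n ∈ Ioc P (q + 1), a n =
          (∑ n ∈ Ioc P q, (w n : ℂ) * a n - (w q : ℂ) * ∑ n ∈ Ioc P q, a n) +
          ((w q - w (q + 1) : ℝ) : ℂ) * ∑ n ∈ Ioc P q, a n := by
        rw [e1, Finset.sum_insert e2, Finset.sum_insert e2]
        push_cast
        ring
      rw [h2]
      have h3 : 0 ≤ w q - w (q + 1) := sub_nonneg.mpr (hw q hq (by omega))
      have h4 : ‖((w q - w (q + 1) : ℝ) : ℂ) * ∑ n ∈ Ioc P q, a n‖ ≤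
          (w q - w (q + 1)) * (2 * M) := by
        rw [norm_mul, Complex.norm_real, Real.norm_eq_abs, abs_of_nonneg h3]
        exact mul_le_mul_of_nonneg_left (hT q (by omega) (by omega)) h3
      exact (norm_add_le _ _).trans (by linarith)
  have h1 := key Q hPQ le_rfl
  have h2 := hT Q (by omega) le_rfl
  have h3 : ‖(w Q : ℂ) * ∑ n ∈ Ioc P Q, a n‖ ≤ w Q * (2 * M) := by
    rw [norm_mul, Complex.norm_real, Real.norm_eq_abs, abs_of_nonneg hw0]
    exact mul_le_mul_of_nonneg_left h2 hw0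
  have h4 : ‖∑ n ∈ Ioc P Q, (w n : ℂ) * a n‖ ≤
      ‖∑ n ∈ Ioc P Q, (w n : ℂ) * a n - (w Q : ℂ) * ∑ n ∈ Ioc P Q, a n‖ +
      ‖(w Q : ℂ) * ∑ n ∈ Ioc P Q, a n‖ := by
    have h5 := norm_add_le (∑ n ∈ Ioc P Q, (w n : ℂ) * a n - (w Q : ℂ) * ∑ n ∈ Ioc P Q, a n)
      ((w Q : ℂ) * ∑ n ∈ Ioc P Q, a n)
    rwa [sub_add_cancel] at h5
  linarith

/-- from von Mangoldt sums to prime sums -/
private theorem VkPrW_primes (P d l : ℕ) (hP : 3 ≤ P) (t M : ℝ)
    (hS : ∀ z, P ≤ z → z ≤ 2 * P → ‖∑ n ∈ (Icc 1 z).filter (fun n => n % d = l % d),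
      ((Lam n : ℝ) : ℂ) * ee (-(t * Real.log n))‖ ≤ M) :
    ‖∑ p ∈ (pb P).filter (fun p => p % d = l % d), ee (-(t * Real.log p))‖ ≤
      2 * M + 2 * Real.sqrt (2 * P) * Real.log (2 * P) := by
  classical
  set a : ℕ → ℂ := fun n => if n % d = l % d then ((Lam n : ℝ) : ℂ) * ee (-(t * Real.log n)) else 0
    with ha
  set w : ℕ → ℝ := fun n => 1 / Real.log n with hw
  have hlog1 : ∀ n : ℕ, P + 1 ≤ n → 1 ≤ Real.log n := by
    intro n hn
    have h1 : Real.exp 1 ≤ (n : ℝ) := by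
      have h2 : (3 : ℝ) ≤ n := by exact_mod_cast (by omega : 3 ≤ n)
      linarith [Real.exp_one_lt_d9]
    have h3 := Real.log_le_log (Real.exp_pos 1) h1
    rwa [Real.log_exp] at h3
  have hM : 0 ≤ M := (norm_nonneg _).trans (hS P le_rfl (by omega))
  have hA := VkPrW_abel a w P (2 * P) (by omega) (M := M)
    (fun n hn _ => by
      simp only [hw]
      apply one_div_le_one_div_of_le
      · linarith [hlog1 n hn]
      · apply Real.log_le_log
        · exact_mod_cast (by omega : 0 < n)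
        · exact_mod_cast Nat.le_succ n)
    (by
      simp only [hw]
      have := hlog1 (2 * P) (by omega)
      positivity)
    (fun z hz hz' => by
      have h1 := hS z hz hz'
      rw [Finset.sum_filter] at h1
      exact h1)
  have hwP : w (P + 1) ≤ 1 := by
    simp only [hw]
    rw [div_le_one (by linarith [hlog1 (P + 1) le_rfl])]
    exact hlog1 (P + 1) le_rfl
  have hA2 : ‖∑ n ∈ Ioc P (2 * P), (w n : ℂ) * a n‖ ≤ 2 * M := by
    refine hA.trans ?_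
    have := mul_le_mul_of_nonneg_left hwP (show 0 ≤ 2 * M by linarith)
    linarith
  -- split into primes and non-primes
  have hsplit : ∑ n ∈ Ioc P (2 * P), (w n : ℂ) * a n =
      ∑ p ∈ (pb P).filter (fun p => p % d = l % d), ee (-(t * Real.log p)) +
      ∑ n ∈ (Ioc P (2 * P)).filter (fun n => ¬ n.Prime), (w n : ℂ) * a n := by
    rw [← Finset.sum_filter_add_sum_filter_not (Ioc P (2 * P)) Nat.Prime]
    congr 1
    rw [Finset.sum_filter (s := pb P)]
    apply Finset.sum_congr rfl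
    intro p hp
    rw [Finset.mem_filter, mem_Ioc] at hp
    simp only [ha, hw]
    by_cases h1 : p % d = l % d
    · rw [if_pos h1, if_pos h1]
      have h2 : Lam p = Real.log p := by
        unfold Lam
        exact ArithmeticFunction.vonMangoldt_apply_prime hp.2
      have h3 := hlog1 p (by omega)
      have h4 : Real.log p ≠ 0 := by linarith
      rw [h2, ← mul_assoc, ← Complex.ofReal_mul, one_div, inv_mul_cancel₀ h4, Complex.ofReal_one,
        one_mul]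
    · rw [if_neg h1, if_neg h1, mul_zero]
  have hnp : ‖∑ n ∈ (Ioc P (2 * P)).filter (fun n => ¬ n.Prime), (w n : ℂ) * a n‖ ≤
      2 * Real.sqrt (2 * P) * Real.log (2 * P) := by
    have h0 : ∀ n : ℕ, 0 ≤ Lam n := fun n => by
      unfold Lam
      exact ArithmeticFunction.vonMangoldt_nonneg
    have h1 : ‖∑ n ∈ (Ioc P (2 * P)).filter (fun n => ¬ n.Prime), (w n : ℂ) * a n‖ ≤
        ∑ n ∈ (Ioc P (2 * P)).filter (fun n => ¬ n.Prime), Lam n := by
      apply norm_sum_le_of_le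
      intro n hn
      rw [Finset.mem_filter, mem_Ioc] at hn
      have h2 := hlog1 n (by omega)
      simp only [ha, hw]
      by_cases h3 : n % d = l % d
      · rw [if_pos h3, norm_mul, norm_mul, VkPrW_norm_ee, mul_one, Complex.norm_real,
          Complex.norm_real, Real.norm_eq_abs, Real.norm_eq_abs, abs_of_nonneg (h0 n),
          abs_of_nonneg (by positivity)]
        have h4 : 1 / Real.log n ≤ 1 := by
          rw [div_le_one (by linarith)]
          exact h2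
        have := mul_le_mul_of_nonneg_right h4 (h0 n)
        linarith
      · rw [if_neg h3, mul_zero, norm_zero]
        exact h0 n
    have h2 : ∑ n ∈ (Ioc P (2 * P)).filter (fun n => ¬ n.Prime), Lam n ≤
        Chebyshev.psi ((2 * P : ℕ) : ℝ) - Chebyshev.theta ((2 * P : ℕ) : ℝ) := by
      rw [Chebyshev.psi_sub_theta_eq_sum_not_prime, Nat.floor_natCast]
      apply Finset.sum_le_sum_of_subset_of_nonneg
      · apply Finset.filter_subset_filter
        intro x hx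
        rw [mem_Ioc] at hx ⊢
        omega
      · intro n _ _
        exact h0 n
    have h3 := Chebyshev.psi_sub_theta_le (x := ((2 * P : ℕ) : ℝ)) (by exact_mod_cast (by omega : 1 ≤ 2 * P))
    push_cast at h2 h3
    linarith
  have hfin : ∑ p ∈ (pb P).filter (fun p => p % d = l % d), ee (-(t * Real.log p)) =
      ∑ n ∈ Ioc P (2 * P), (w n : ℂ) * a n -
      ∑ n ∈ (Ioc P (2 * P)).filter (fun n => ¬ n.Prime), (w n : ℂ) * a n := by
    rw [hsplit]
    ring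
  rw [hfin]
  exact (norm_sub_le _ _).trans (by linarith)

theorem vk_pr_w (t1 t2 : ℝ) (h0 : 0 < t1) (h12 : t1 < t2) (hVK : VKw t1) (K C' : ℕ) : ∃ K' N0 : ℕ, ∀ N : ℕ, N0 ≤ N →
    ∀ (P d l : ℕ) (t : ℝ), Real.exp (Real.log N ^ t2) ≤ P → P ≤ N → 1 ≤ d → (d : ℝ) ≤ Real.log N ^ C' →
    Real.log N ^ K' ≤ |t| → |t| ≤ (N : ℝ) ^ 3 →
    ‖∑ p ∈ (pb P).filter (fun p => p % d = l % d), ee (-(t * Real.log p))‖ ≤ P / Real.log N ^ K := by
  have ht2 : 0 < t2 := h0.trans h12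
  obtain ⟨K1, x0, hV⟩ := hVK (K + 1) C'
  have hlog : Filter.Tendsto (fun N : ℕ => Real.log N) Filter.atTop Filter.atTop :=
    Real.tendsto_log_atTop.comp tendsto_natCast_atTop_atTop
  have hlogp : Filter.Tendsto (fun N : ℕ => Real.log N ^ t2) Filter.atTop Filter.atTop :=
    (tendsto_rpow_atTop ht2).comp hlog
  have hsmall : ∀ᶠ N : ℕ in Filter.atTop, 12 * Real.log N ^ (K + 1) ≤
      Real.exp (Real.log N ^ t2 / 2) := by
    have h1 := isLittleO_rpow_exp_pos_mul_atTop (((K + 1 : ℕ) : ℝ) / t2) (b := 1 / 2) (by norm_num)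
    have h2 := (h1.comp_tendsto hlogp).def (c := 1 / 12) (by norm_num)
    filter_upwards [h2, hlog.eventually_ge_atTop 1] with N hN hN1
    simp only [Function.comp_apply] at hN
    have hL0 : 0 ≤ Real.log N := by linarith
    rw [← Real.rpow_mul hL0, mul_div_cancel₀ _ ht2.ne', Real.rpow_natCast, Real.norm_eq_abs,
      Real.norm_eq_abs, abs_of_nonneg (by positivity), abs_of_nonneg (by positivity)] at hN
    have e : Real.log N ^ t2 / 2 = 1 / 2 * Real.log N ^ t2 := by ring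
    rw [e]
    linarith
  have hbig : ∀ᶠ N : ℕ in Filter.atTop, (3 : ℝ) ≤ Real.exp (Real.log N ^ t2) :=
    (Real.tendsto_exp_atTop.comp hlogp).eventually_ge_atTop 3
  have htt : ∀ᶠ N : ℕ in Filter.atTop, (2 : ℝ) ^ t1 ≤ Real.log N ^ (t2 - t1) :=
    ((tendsto_rpow_atTop (sub_pos.2 h12)).comp hlog).eventually_ge_atTop _
  obtain ⟨N0, hN0⟩ := Filter.eventually_atTop.mp (hsmall.and (hbig.and (htt.and
    ((hlog.eventually_ge_atTop 4).and ((hlog.eventually_ge_atTop (2 ^ K1)).and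
    (Filter.eventually_ge_atTop (max x0 2)))))))
  refine ⟨K1 + 1, N0, ?_⟩
  intro N hN P d l t hP1 hP2 hd1 hd2 ht1 ht2'
  obtain ⟨h12', h3, htt', hL4, hLK, hNx⟩ := hN0 N hN
  have hN2 : 2 ≤ N := le_trans (le_max_right _ _) hNx
  have hNx0 : x0 ≤ N := le_trans (le_max_left _ _) hNx
  set L : ℝ := Real.log N with hL
  have hNr : (2 : ℝ) ≤ N := by exact_mod_cast hN2
  have hN0' : (0 : ℝ) < N := by linarith
  have hPr3 : (3 : ℝ) ≤ P := h3.trans hP1
  have hP3 : 3 ≤ P := by exact_mod_cast hPr3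
  have hPr0 : (0 : ℝ) < P := by linarith
  have hx : x0 ≤ N ^ 2 := hNx0.trans (Nat.le_self_pow (by norm_num) N)
  have hlogx : Real.log ((N ^ 2 : ℕ) : ℝ) = 2 * L := by
    rw [Nat.cast_pow, Real.log_pow]
    push_cast
    rfl
  have hxe : Real.exp ((2 * L) ^ t1) ≤ P := by
    refine le_trans (Real.exp_le_exp.2 ?_) hP1
    rw [Real.mul_rpow (by norm_num) (by linarith)]
    calc (2 : ℝ) ^ t1 * L ^ t1 ≤ L ^ (t2 - t1) * L ^ t1 :=
          mul_le_mul_of_nonneg_right htt' (by positivity)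
      _ = L ^ t2 := by
          rw [← Real.rpow_add (by linarith)]
          congr 1
          ring
  have hV2 := hV (N ^ 2) hx
  rw [hlogx] at hV2
  have hpow1 : L ^ C' ≤ (2 * L) ^ C' := pow_le_pow_left₀ (by linarith) (by linarith) C'
  have hpow2 : (2 * L) ^ K1 ≤ |t| := by
    calc (2 * L) ^ K1 = 2 ^ K1 * L ^ K1 := by rw [mul_pow]
      _ ≤ L * L ^ K1 := mul_le_mul_of_nonneg_right hLK (by positivity)
      _ = L ^ (K1 + 1) := by ring
      _ ≤ |t| := ht1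
  have hpow3 : |t| ≤ (((N ^ 2 : ℕ) : ℝ)) ^ (2 : ℕ) := by
    refine ht2'.trans ?_
    rw [Nat.cast_pow, ← pow_mul]
    exact pow_le_pow_right₀ (by linarith) (by norm_num)
  have hS : ∀ z, P ≤ z → z ≤ 2 * P → ‖∑ n ∈ (Icc 1 z).filter (fun n => n % d = l % d),
      ((Lam n : ℝ) : ℂ) * ee (-(t * Real.log n))‖ ≤ 2 * P / (2 * L) ^ (K + 1) := by
    intro z hz hz'
    have hzr : (P : ℝ) ≤ z := by exact_mod_cast hz
    have hzr' : (z : ℝ) ≤ 2 * P := by exact_mod_cast hz'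
    have hzx : z ≤ (N ^ 2) ^ 2 := by
      have h1 : z ≤ N ^ 2 := by nlinarith
      exact h1.trans (Nat.le_self_pow (by norm_num) _)
    have h1 := hV2 d l z (-t) hd1 (hd2.trans hpow1) (hxe.trans hzr) hzx (by rwa [abs_neg])
      (by rwa [abs_neg])
    simp only [neg_mul] at h1
    refine h1.trans ?_
    exact div_le_div_of_nonneg_right hzr' (by positivity)
  have hmain := VkPrW_primes P d l hP3 t _ hS
  refine hmain.trans ?_
  have hL0 : 0 < L := by linarith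
  have hLK0 : 0 < L ^ K := by positivity
  have e1' : 2 * (2 * P / (2 * L) ^ (K + 1)) ≤ P / L ^ K / 2 := by
    have h1 : (2 * L) ^ (K + 1) = 2 ^ K * (2 * L) * L ^ K := by
      rw [mul_pow]
      ring
    have h2 : 8 * L ^ K ≤ (2 * L) ^ (K + 1) := by
      rw [h1]
      have h3 : (1 : ℝ) ≤ 2 ^ K := one_le_pow₀ (by norm_num)
      have h4 : 8 ≤ 2 ^ K * (2 * L) := by nlinarith
      exact mul_le_mul_of_nonneg_right h4 hLK0.le
    have h5 : 2 * (2 * P / (2 * L) ^ (K + 1)) ≤ 4 * P / (8 * L ^ K) := by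
      rw [← mul_div_assoc]
      have h6 : 2 * (2 * (P : ℝ)) = 4 * P := by ring
      rw [h6]
      exact div_le_div_of_nonneg_left (by positivity) (by positivity) h2
    refine h5.trans (le_of_eq ?_)
    field_simp
    ring
  have e2' : 2 * Real.sqrt (2 * P) * Real.log (2 * P) ≤ P / L ^ K / 2 := by
    have hlog2P : Real.log (2 * P) ≤ 2 * L := by
      have h1 : (2 : ℝ) * P ≤ (N : ℝ) ^ 2 := by
        have : (P : ℝ) ≤ N := by exact_mod_cast hP2
        nlinarith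
      have h2 := Real.log_le_log (by positivity) h1
      rw [Real.log_pow] at h2
      push_cast at h2
      exact h2
    have hsq : Real.sqrt (2 * P) ≤ 3 / 2 * Real.sqrt P := by
      rw [Real.sqrt_le_left (by positivity), mul_pow, Real.sq_sqrt hPr0.le]
      linarith
    have hsP : Real.exp (L ^ t2 / 2) ≤ Real.sqrt P := by
      apply Real.le_sqrt_of_sq_le
      rw [← Real.exp_nat_mul]
      have : ((2 : ℕ) : ℝ) * (L ^ t2 / 2) = L ^ t2 := by push_cast; ring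
      rw [this]
      exact hP1
    have hsP0 : 0 ≤ Real.sqrt P := Real.sqrt_nonneg _
    have hlog0 : 0 ≤ Real.log (2 * P) := Real.log_nonneg (by linarith)
    have h1 : 2 * Real.sqrt (2 * P) * Real.log (2 * P) ≤ 2 * (3 / 2 * Real.sqrt P) * (2 * L) := by
      apply mul_le_mul (by linarith) hlog2P hlog0 (by positivity)
    have h2 : 12 * L ^ (K + 1) ≤ Real.sqrt P := h12'.trans hsP
    rw [div_div, le_div_iff₀ (by positivity)]
    calc 2 * Real.sqrt (2 * P) * Real.log (2 * P) * (L ^ K * 2)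
        ≤ 2 * (3 / 2 * Real.sqrt P) * (2 * L) * (L ^ K * 2) :=
          mul_le_mul_of_nonneg_right h1 (by positivity)
      _ = (12 * L ^ (K + 1)) * Real.sqrt P := by ring
      _ ≤ Real.sqrt P * Real.sqrt P := mul_le_mul_of_nonneg_right h2 hsP0
      _ = P := Real.mul_self_sqrt hPr0.le
  linarith

end Pool.Agent.H53.MIX

end

section

/-!
# MIX MscW: mean square of the twisted Dirichlet polynomial, `P ≥ exp((log N)^t2)`

Copy and adapt `Pool.Agent.H53.MID.msc` (file `H53/MID/Msc.lean`, complete) with `vk_pr_w` in place of `vk_pr`; `SWp` and `K2` with the exponent `1/2` (`K2 ≥ N^(1/2)`); `P > L^C' ≥ d` since `P ≥ exp(L^t2)`.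
-/

set_option autoImplicit false

namespace Pool.Agent.H53.MIX

open Finset MeasureTheory
open Pool.Agent.H91.PK (ee)
open Pool.Agent.H91.EHA (Lam hR lamR ramS)
open Pool.Agent.H35.W (pb)
open Pool.Agent.H53.MID

private theorem MscW_int (p q : ℝ → ℝ) (hp : Continuous p) (hq : Continuous q)
    (hq0 : ∀ t, 0 ≤ q t) (U T M a b : ℝ) (hM : 0 ≤ M) (ha : 0 ≤ a) (hb : 0 ≤ b)
    (h1 : ∀ t ∈ Set.Icc (-U) U, M ≤ |T + t| → p t ≤ a)
    (h2 : ∀ t ∈ Set.Icc (-U) U, |T + t| < M → p t * q t ≤ b) :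
    ∫ t in Set.Icc (-U) U, p t * q t ≤ a * (∫ t in Set.Icc (-U) U, q t) + 2 * M * b := by
  set S : Set ℝ := Set.Ioo (-T - M) (-T + M) with hS
  have hint1 : IntegrableOn (fun t => p t * q t) (Set.Icc (-U) U) :=
    (hp.mul hq).continuousOn.integrableOn_Icc
  have hint2 : IntegrableOn q (Set.Icc (-U) U) := hq.continuousOn.integrableOn_Icc
  have hvol : volume S ≠ ⊤ := by
    rw [hS, Real.volume_Ioo]
    exact ENNReal.ofReal_ne_top
  have hint3 : Integrable (S.indicator (fun _ : ℝ => b)) volume :=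
    (integrable_indicator_iff measurableSet_Ioo).2 (integrableOn_const hvol)
  have hnn : ∀ t, 0 ≤ S.indicator (fun _ : ℝ => b) t :=
    fun t => Set.indicator_nonneg (fun _ _ => hb) t
  have e1 : ∫ t in Set.Icc (-U) U, p t * q t ≤
      ∫ t in Set.Icc (-U) U, (a * q t + S.indicator (fun _ : ℝ => b) t) := by
    refine setIntegral_mono_on hint1 ((hint2.const_mul a).add hint3.integrableOn)
      measurableSet_Icc fun t ht => ?_
    rcases le_or_gt M |T + t| with h | h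
    · have := mul_le_mul_of_nonneg_right (h1 t ht h) (hq0 t)
      have := hnn t
      linarith
    · have hmem : t ∈ S := by
        rw [hS, Set.mem_Ioo]
        rw [abs_lt] at h
        constructor <;> linarith [h.1, h.2]
      rw [Set.indicator_of_mem hmem]
      have := h2 t ht h
      have := mul_nonneg ha (hq0 t)
      linarith
  have e2 : ∫ t in Set.Icc (-U) U, (a * q t + S.indicator (fun _ : ℝ => b) t) =
      a * (∫ t in Set.Icc (-U) U, q t) + ∫ t in Set.Icc (-U) U, S.indicator (fun _ : ℝ => b) t := by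
    rw [integral_add (hint2.const_mul a) hint3.integrableOn, integral_const_mul]
  have e3 : ∫ t in Set.Icc (-U) U, S.indicator (fun _ : ℝ => b) t ≤ 2 * M * b := by
    refine (setIntegral_le_integral hint3 (Filter.Eventually.of_forall hnn)).trans ?_
    rw [integral_indicator_const _ measurableSet_Ioo, Real.volume_real_Ioo_of_le (by linarith),
      smul_eq_mul]
    exact le_of_eq (by ring)
  linarith

private theorem MscW_ee_cont (y : ℝ) (T : ℝ) : Continuous fun t : ℝ => ee (-((T + t) * y)) := by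
  unfold Pool.Agent.H91.PK.ee
  fun_prop

private theorem MscW_norm_ee (t : ℝ) : ‖ee t‖ = 1 := Pool.Agent.H91.PK.LSa_norm_ee t

private theorem MscW_Pl_cont (P d l : ℕ) (T : ℝ) : Continuous fun t : ℝ => Pl P d l (T + t) := by
  unfold Pl
  exact continuous_finsetSum _ fun p _ => MscW_ee_cont _ _

private theorem MscW_Kl_cont (f : ℕ → ℝ) (K1 K2 : ℕ) (a T : ℝ) :
    Continuous fun t : ℝ => Kl f K1 K2 a (T + t) := by
  unfold Kl
  exact continuous_finsetSum _ fun p _ => continuous_const.mul (MscW_ee_cont _ _)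

private theorem MscW_Pl_le (P d l : ℕ) (s : ℝ) : ‖Pl P d l s‖ ≤ P := by
  unfold Pl
  refine (norm_sum_le _ _).trans ?_
  simp only [MscW_norm_ee, sum_const, nsmul_eq_mul, mul_one]
  have h : ((pb P).filter (fun p => p % d = l % d)).card ≤ P := by
    refine (Finset.card_filter_le _ _).trans ?_
    unfold Pool.Agent.H35.W.pb
    refine (Finset.card_filter_le _ _).trans ?_
    rw [Nat.card_Ioc]
    omega
  exact_mod_cast h

/-- lowest terms -/
private theorem MscW_low (l b d : ℕ) (hd : 1 ≤ d) : ∃ b' c : ℕ, 1 ≤ c ∧ c ≤ d ∧ Nat.Coprime b' c ∧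
    (l : ℝ) * b / d = (b' : ℝ) / c := by
  have hg : 0 < Nat.gcd (l * b) d := Nat.gcd_pos_of_pos_right _ (by omega)
  have h1 : Nat.gcd (l * b) d ∣ d := Nat.gcd_dvd_right _ _
  have h2 : Nat.gcd (l * b) d ∣ l * b := Nat.gcd_dvd_left _ _
  refine ⟨l * b / Nat.gcd (l * b) d, d / Nat.gcd (l * b) d, ?_, Nat.div_le_self _ _,
    Nat.coprime_div_gcd_div_gcd hg, ?_⟩
  · exact Nat.div_pos (Nat.le_of_dvd (by omega) h1) hg
  · have hg' : ((Nat.gcd (l * b) d : ℕ) : ℝ) ≠ 0 := by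
      exact_mod_cast hg.ne'
    rw [Nat.cast_div h2 hg', Nat.cast_div h1 hg', Nat.cast_mul]
    have hd' : (d : ℝ) ≠ 0 := by
      exact_mod_cast (by omega : d ≠ 0)
    field_simp

/-- `Kl` as a sum over `[1, K2]` -/
private theorem MscW_Kl_eq (f : ℕ → ℝ) (K1 K2 : ℕ) (a s : ℝ) :
    Kl f K1 K2 a s = ∑ m ∈ Icc 1 K2, ((cut K1 K2 f m : ℂ) * ee (-(m * a))) *
      ee (-(s * Real.log m)) := by
  unfold Kl
  have hsub : Ioc K1 K2 ⊆ Icc 1 K2 := by
    intro m hm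
    rw [mem_Ioc] at hm
    rw [mem_Icc]
    omega
  rw [← sum_subset hsub (f := fun m => ((cut K1 K2 f m : ℂ) * ee (-(m * a))) *
      ee (-(s * Real.log m)))]
  · refine Finset.sum_congr rfl fun m hm => ?_
    unfold cut
    rw [if_pos hm]
  · intro m _ hm
    unfold cut
    rw [if_neg hm]
    simp

/-- mean square of `Kl` -/
private theorem MscW_Kl_ms (f : ℕ → ℝ) (K1 K2 w0 Y : ℕ) (L a T U : ℝ) (hK : 1 ≤ K2) (hU : 0 ≤ U)
    (h : SqB (cut K1 K2 f) w0 Y L) (hw : w0 ≤ K2 + 1) (hY : K2 + 1 ≤ Y) :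
    ∫ t in Set.Icc (-U) U, ‖Kl f K1 K2 a (T + t)‖ ^ 2 ≤
      (2 * U + 2 * K2 * (1 + Real.log K2)) * ((K2 + 1) * L ^ 4) := by
  have h1 := mvt (fun m => (cut K1 K2 f m : ℂ) * ee (-(m * a))) K2 U T hK hU
  simp only [← MscW_Kl_eq] at h1
  refine h1.trans ?_
  have h2 : ∑ m ∈ Icc 1 K2, ‖(cut K1 K2 f m : ℂ) * ee (-(m * a))‖ ^ 2 ≤ (K2 + 1) * L ^ 4 := by
    have h3 := h 0 (K2 + 1) hw (by omega)
    rw [zero_add] at h3
    push_cast at h3
    refine le_trans ?_ h3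
    have h4 : ∑ m ∈ Icc 1 K2, ‖(cut K1 K2 f m : ℂ) * ee (-(m * a))‖ ^ 2 =
        ∑ m ∈ Icc 1 K2, cut K1 K2 f m ^ 2 := by
      refine Finset.sum_congr rfl fun m _ => ?_
      rw [norm_mul, MscW_norm_ee, mul_one, Complex.norm_real, Real.norm_eq_abs, sq_abs]
    rw [h4]
    refine Finset.sum_le_sum_of_subset_of_nonneg ?_ fun m _ _ => sq_nonneg _
    intro m hm
    rw [mem_Icc] at hm
    rw [mem_Ico]
    omega
  have h5 : 0 ≤ 2 * U + 2 * K2 * (1 + Real.log K2) := by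
    have : 0 ≤ Real.log K2 := Real.log_natCast_nonneg K2
    positivity
  exact mul_le_mul_of_nonneg_left h2 h5

/-- the elementary thresholds -/
private theorem MscW_big (B : ℕ) (e1 : ℝ) (he1 : 0 < e1) : ∃ N0 : ℕ, ∀ N : ℕ, N0 ≤ N →
    50 ≤ Real.log N ∧ Real.log N ^ (4 * B) + 1 ≤ (N : ℝ) ^ e1 ∧ 3 ≤ N := by
  have h1 := (isLittleO_log_rpow_atTop (r := e1 / (4 * B + 1)) (by positivity)).bound (c := 1)
    one_pos
  have h2 := (Real.tendsto_log_atTop.eventually (Filter.eventually_ge_atTop (50 : ℝ))).and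
    (h1.and (Filter.eventually_ge_atTop (3 : ℝ)))
  have h3 := tendsto_natCast_atTop_atTop (R := ℝ) |>.eventually h2
  obtain ⟨x1, hx1⟩ := Filter.eventually_atTop.1 h3
  refine ⟨x1, fun N hN => ?_⟩
  obtain ⟨g1, g2, g3⟩ := hx1 N hN
  refine ⟨g1, ?_, by exact_mod_cast g3⟩
  have hN0 : (0 : ℝ) < N := by linarith
  have hL0 : 0 ≤ Real.log N := by linarith
  rw [one_mul, Real.norm_eq_abs, Real.norm_eq_abs, abs_of_nonneg hL0,
    abs_of_nonneg (Real.rpow_nonneg hN0.le _)] at g2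
  have h4 : Real.log N ^ (4 * B + 1) ≤ (N : ℝ) ^ e1 := by
    calc Real.log N ^ (4 * B + 1) ≤ ((N : ℝ) ^ (e1 / (4 * B + 1))) ^ (4 * B + 1) :=
          pow_le_pow_left₀ hL0 g2 _
      _ = (N : ℝ) ^ e1 := by
          rw [← Real.rpow_natCast, ← Real.rpow_mul hN0.le]
          congr 1
          push_cast
          field_simp
  have h5 : 1 ≤ Real.log N ^ (4 * B) := one_le_pow₀ (by linarith)
  rw [pow_succ] at h4
  nlinarith

/-- final arithmetic -/
private theorem MscW_arith (N P K2 d U L : ℝ) (A' C' K' : ℕ) (hN : 0 < N) (hP : 0 < P)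
    (hL : 50 ≤ L) (hd : d ≤ L ^ C') (hd0 : 0 ≤ d) (hU : 1 ≤ U) (hUP : U * P ≤ N)
    (hK : 1 ≤ K2) (hKP : K2 * P ≤ 16 * N) (lk : ℝ) (hlk : lk ≤ L) (hlk0 : 0 ≤ lk) :
    d * (d * ((P / L ^ (C' + A' + 6)) ^ 2 * ((2 * U + 2 * K2 * (1 + lk)) * ((K2 + 1) * L ^ 4)) +
      2 * L ^ K' * (P * (K2 / L ^ (C' + K' + A' + 10))) ^ 2)) ≤ N ^ 2 / L ^ A' := by
  have hL0 : 0 < L := by linarith
  have hL1 : 1 ≤ L := by linarith
  have hdd : d * d ≤ (L ^ C') ^ 2 := by
    rw [sq]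
    exact mul_le_mul hd hd hd0 (by positivity)
  have hPU : P * U ≤ N := by linarith
  -- first term
  have a1 : P * (2 * U + 2 * K2 * (1 + lk)) ≤ N * (66 * L) := by
    have e1 : P * K2 * (1 + lk) ≤ 16 * N * (2 * L) := by
      have : P * K2 ≤ 16 * N := by linarith
      exact mul_le_mul this (by linarith) (by linarith) (by positivity)
    have e2 : N ≤ N * L := le_mul_of_one_le_right hN.le hL1
    nlinarith
  have a2 : P * (K2 + 1) ≤ 32 * N := by
    have : P * 1 ≤ P * K2 := mul_le_mul_of_nonneg_left hK hP.le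
    linarith
  have a3 : P ^ 2 * ((2 * U + 2 * K2 * (1 + lk)) * ((K2 + 1) * L ^ 4)) ≤ N ^ 2 * L ^ 7 := by
    have e1 : 0 ≤ 2 * U + 2 * K2 * (1 + lk) := by positivity
    calc P ^ 2 * ((2 * U + 2 * K2 * (1 + lk)) * ((K2 + 1) * L ^ 4))
        = (P * (2 * U + 2 * K2 * (1 + lk))) * (P * (K2 + 1)) * L ^ 4 := by ring
      _ ≤ (N * (66 * L)) * (32 * N) * L ^ 4 := by
          refine mul_le_mul_of_nonneg_right (mul_le_mul a1 a2 (by positivity) (by positivity)) (by positivity)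
      _ = N ^ 2 * (2112 * L ^ 5) := by ring
      _ ≤ N ^ 2 * L ^ 7 := by
          refine mul_le_mul_of_nonneg_left ?_ (by positivity)
          have : 2112 ≤ L ^ 2 := by nlinarith
          calc 2112 * L ^ 5 ≤ L ^ 2 * L ^ 5 := mul_le_mul_of_nonneg_right this (by positivity)
            _ = L ^ 7 := by ring
  have b1 : P ^ 2 * K2 ^ 2 ≤ 256 * N ^ 2 := by
    have : (P * K2) ^ 2 ≤ (16 * N) ^ 2 := pow_le_pow_left₀ (by positivity) (by linarith) 2
    nlinarith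
  have c1 : (P / L ^ (C' + A' + 6)) ^ 2 * ((2 * U + 2 * K2 * (1 + lk)) * ((K2 + 1) * L ^ 4)) ≤
      N ^ 2 / ((L ^ C') ^ 2 * L ^ A') * (1 / 2) := by
    rw [div_pow, div_mul_eq_mul_div, div_le_iff₀ (by positivity)]
    refine a3.trans ?_
    have e : N ^ 2 / ((L ^ C') ^ 2 * L ^ A') * (1 / 2) * (L ^ (C' + A' + 6)) ^ 2 =
        N ^ 2 * (L ^ 7 * (L ^ A' * L ^ 5 / 2)) := by
      rw [pow_add, pow_add]
      field_simp
    rw [e]
    refine mul_le_mul_of_nonneg_left ?_ (by positivity)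
    have h1 : 1 ≤ L ^ A' := one_le_pow₀ hL1
    have h2 : 2 ≤ L ^ 5 := by
      calc (2 : ℝ) ≤ L := by linarith
        _ = L ^ 1 := (pow_one L).symm
        _ ≤ L ^ 5 := pow_le_pow_right₀ hL1 (by norm_num)
    refine le_mul_of_one_le_right (by positivity) ?_
    nlinarith
  have c2 : 2 * L ^ K' * (P * (K2 / L ^ (C' + K' + A' + 10))) ^ 2 ≤
      N ^ 2 / ((L ^ C') ^ 2 * L ^ A') * (1 / 2) := by
    have e0 : 2 * L ^ K' * (P * (K2 / L ^ (C' + K' + A' + 10))) ^ 2 =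
        2 * L ^ K' * (P ^ 2 * K2 ^ 2) / (L ^ (C' + K' + A' + 10)) ^ 2 := by
      field_simp
    rw [e0, div_le_iff₀ (by positivity)]
    have e : N ^ 2 / ((L ^ C') ^ 2 * L ^ A') * (1 / 2) * (L ^ (C' + K' + A' + 10)) ^ 2 =
        N ^ 2 * L ^ K' * (L ^ K' * L ^ A' * L ^ 20 / 2) := by
      rw [pow_add, pow_add, pow_add]
      field_simp
    rw [e]
    have h1 : 1 ≤ L ^ A' := one_le_pow₀ hL1
    have h1' : 1 ≤ L ^ K' := one_le_pow₀ hL1
    have h3 : 1 ≤ L ^ K' * L ^ A' := one_le_mul_of_one_le_of_one_le h1' h1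
    have h2 : 1024 ≤ L ^ 20 := by
      calc (1024 : ℝ) ≤ L ^ 2 := by nlinarith
        _ ≤ L ^ 20 := pow_le_pow_right₀ hL1 (by norm_num)
    have h4 : 512 ≤ L ^ K' * L ^ A' * L ^ 20 / 2 := by nlinarith
    calc 2 * L ^ K' * (P ^ 2 * K2 ^ 2) ≤ 2 * L ^ K' * (256 * N ^ 2) :=
          mul_le_mul_of_nonneg_left b1 (by positivity)
      _ = N ^ 2 * L ^ K' * 512 := by ring
      _ ≤ _ := mul_le_mul_of_nonneg_left h4 (by positivity)
  have hX : 0 ≤ N ^ 2 / ((L ^ C') ^ 2 * L ^ A') := by positivity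
  calc _ = d * d * ((P / L ^ (C' + A' + 6)) ^ 2 * ((2 * U + 2 * K2 * (1 + lk)) * ((K2 + 1) * L ^ 4)) +
      2 * L ^ K' * (P * (K2 / L ^ (C' + K' + A' + 10))) ^ 2) := by ring
    _ ≤ d * d * (N ^ 2 / ((L ^ C') ^ 2 * L ^ A')) := by
        refine mul_le_mul_of_nonneg_left ?_ (by positivity)
        linarith
    _ ≤ (L ^ C') ^ 2 * (N ^ 2 / ((L ^ C') ^ 2 * L ^ A')) := mul_le_mul_of_nonneg_right hdd hX
    _ = N ^ 2 / L ^ A' := by
        field_simp

theorem msc_w (t1 t2 : ℝ) (h0 : 0 < t1) (h12 : t1 < t2) (hVK : VKw t1) (hSW : SWp) (A' C' : ℕ) :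
    ∀ B : ℕ, C' ≤ B → ∃ N0 : ℕ, ∀ N : ℕ, N0 ≤ N →
    ∀ (P K1 K2 X d b : ℕ) (T U : ℝ), Real.exp (Real.log N ^ t2) ≤ P → P ≤ N → 1 ≤ d → (d : ℝ) ≤ Real.log N ^ C' →
    |T| ≤ (N : ℝ) ^ 2 → 1 ≤ U → U * P ≤ N → (N : ℝ) ^ (1 / 2 : ℝ) ≤ K2 → K2 ≤ N → K2 * P ≤ 16 * N → 2 * P * K2 ≤ X →
    ∫ t in Set.Icc (-U) U, ‖Cs (cc (cut K1 K2 (hR ⌊Real.log N ^ B⌋₊)) P ((b : ℝ) / d) T) X t‖ ^ 2
      ≤ (N : ℝ) ^ 2 / Real.log N ^ A' := by
  intro B hCB
  obtain ⟨K', N1, hN1⟩ := vk_pr_w t1 t2 h0 h12 hVK (C' + A' + 6) C'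
  obtain ⟨N2, hN2⟩ := hSW B K' (C' + K' + A' + 10) (1 / 2) (by norm_num)
  obtain ⟨N3, hN3⟩ := hsq B
  obtain ⟨N4, hN4⟩ := MscW_big B (1 / 2) (by norm_num)
  refine ⟨max (max N1 N2) (max N3 N4), fun N hN P K1 K2 X d b T U hP1 hP2 hd1 hd2 hT hU hUP hK1 hK2
    hKP hX => ?_⟩
  have g1 := hN1 N (le_trans (le_trans (le_max_left _ _) (le_max_left _ _)) hN)
  have g2 := hN2 N (le_trans (le_trans (le_max_right _ _) (le_max_left _ _)) hN)
  have g3 := hN3 N (le_trans (le_trans (le_max_left _ _) (le_max_right _ _)) hN)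
  obtain ⟨hL, hbig, hN3'⟩ := hN4 N (le_trans (le_trans (le_max_right _ _) (le_max_right _ _)) hN)
  set L := Real.log N with hLdef
  set R := ⌊L ^ B⌋₊ with hR'
  set f := hR R with hf
  have hL1 : 1 ≤ L := by linarith
  have hL0 : 0 < L := by linarith
  have hR1 : (R : ℝ) ≤ L ^ B := Nat.floor_le (by positivity)
  have hNR : (3 : ℝ) ≤ N := by exact_mod_cast hN3'
  have hP0 : (0 : ℝ) < P := lt_of_lt_of_le (Real.exp_pos _) hP1
  have hK20 : (0 : ℝ) < K2 := lt_of_lt_of_le (Real.rpow_pos_of_pos (by linarith) _) hK1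
  have hK2' : 1 ≤ K2 := by
    have : 0 < K2 := by exact_mod_cast hK20
    omega
  have hK2R : (1 : ℝ) ≤ K2 := by exact_mod_cast hK2'
  have hUN : U ≤ N := by
    have hP1' : (1 : ℝ) ≤ P := by
      have h0 : 0 < P := by exact_mod_cast hP0
      exact_mod_cast h0
    nlinarith
  -- pointwise
  have hpt : ∀ t : ℝ, ‖Cs (cc (cut K1 K2 f) P ((b : ℝ) / d) T) X t‖ ^ 2 ≤
      d * ∑ l ∈ range d, ‖Pl P d l (T + t)‖ ^ 2 * ‖Kl f K1 K2 ((l : ℝ) * b / d) (T + t)‖ ^ 2 :=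
    fun t => fac_sq f P K1 K2 X d b T t hd1 hX
  have hcontP : ∀ l, Continuous fun t : ℝ => ‖Pl P d l (T + t)‖ ^ 2 :=
    fun l => (MscW_Pl_cont P d l T).norm.pow 2
  have hcontK : ∀ l : ℕ, Continuous fun t : ℝ => ‖Kl f K1 K2 ((l : ℝ) * b / d) (T + t)‖ ^ 2 :=
    fun l => (MscW_Kl_cont f K1 K2 _ T).norm.pow 2
  have hcontC : Continuous fun t : ℝ => ‖Cs (cc (cut K1 K2 f) P ((b : ℝ) / d) T) X t‖ ^ 2 := by
    refine Continuous.pow (Continuous.norm ?_) 2
    unfold Cs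
    refine continuous_finsetSum _ fun m _ => continuous_const.mul ?_
    have := MscW_ee_cont (Real.log m) 0
    simpa only [zero_add] using this
  have hI1 : ∫ t in Set.Icc (-U) U, ‖Cs (cc (cut K1 K2 f) P ((b : ℝ) / d) T) X t‖ ^ 2 ≤
      d * ∑ l ∈ range d, ∫ t in Set.Icc (-U) U,
        ‖Pl P d l (T + t)‖ ^ 2 * ‖Kl f K1 K2 ((l : ℝ) * b / d) (T + t)‖ ^ 2 := by
    have hi : ∀ l ∈ range d, Integrable (fun t : ℝ => ‖Pl P d l (T + t)‖ ^ 2 *
        ‖Kl f K1 K2 ((l : ℝ) * b / d) (T + t)‖ ^ 2) (volume.restrict (Set.Icc (-U) U)) :=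
      fun l _ => ((hcontP l).mul (hcontK l)).continuousOn.integrableOn_Icc
    rw [← integral_finsetSum _ hi, ← integral_const_mul]
    refine setIntegral_mono_on hcontC.continuousOn.integrableOn_Icc ?_ measurableSet_Icc
      fun t _ => hpt t
    refine Continuous.continuousOn ?_ |>.integrableOn_Icc
    exact continuous_const.mul (continuous_finsetSum _ fun l _ => (hcontP l).mul (hcontK l))
  refine hI1.trans ?_
  -- each class
  have hcl : ∀ l ∈ range d, ∫ t in Set.Icc (-U) U,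
        ‖Pl P d l (T + t)‖ ^ 2 * ‖Kl f K1 K2 ((l : ℝ) * b / d) (T + t)‖ ^ 2 ≤
      (P / L ^ (C' + A' + 6)) ^ 2 * ((2 * U + 2 * K2 * (1 + Real.log K2)) * ((K2 + 1) * L ^ 4)) +
      2 * L ^ K' * (P * (K2 / L ^ (C' + K' + A' + 10))) ^ 2 := by
    intro l _
    obtain ⟨b', c, hc1, hc2, hc3, hc4⟩ := MscW_low l b d hd1
    have hcR : c ≤ R := by
      refine Nat.le_floor ?_
      calc (c : ℝ) ≤ d := by exact_mod_cast hc2
        _ ≤ L ^ C' := hd2
        _ ≤ L ^ B := pow_le_pow_right₀ hL1 hCB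
    have k1 := MscW_int (fun t => ‖Pl P d l (T + t)‖ ^ 2)
      (fun t => ‖Kl f K1 K2 ((l : ℝ) * b / d) (T + t)‖ ^ 2) (hcontP l) (hcontK l)
      (fun t => by positivity) U T (L ^ K') ((P / L ^ (C' + A' + 6)) ^ 2)
      ((P * (K2 / L ^ (C' + K' + A' + 10))) ^ 2) (by positivity) (by positivity) (by positivity)
      ?_ ?_
    · refine k1.trans ?_
      have k2 := MscW_Kl_ms f K1 K2 (R ^ 4 + 2) (N ^ 4) L ((l : ℝ) * b / d) T U hK2' (by linarith)
        (g3 R hR1 K1 K2) ?_ ?_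
      · have := mul_le_mul_of_nonneg_left k2 (by positivity : (0 : ℝ) ≤ (P / L ^ (C' + A' + 6)) ^ 2)
        linarith
      · have h1 : ((R ^ 4 + 1 : ℕ) : ℝ) ≤ (K2 : ℝ) := by
          push_cast
          calc (R : ℝ) ^ 4 + 1 ≤ (L ^ B) ^ 4 + 1 := by
                have := pow_le_pow_left₀ (Nat.cast_nonneg R) hR1 4
                linarith
            _ = L ^ (4 * B) + 1 := by rw [← pow_mul, mul_comm B 4]
            _ ≤ (N : ℝ) ^ (1 / 2 : ℝ) := hbig
            _ ≤ K2 := hK1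
        have h2 : R ^ 4 + 1 ≤ K2 := by exact_mod_cast h1
        omega
      · have : N + 1 ≤ N ^ 4 := by
          calc N + 1 ≤ N * N := by nlinarith
            _ = N ^ 2 := (sq N).symm
            _ ≤ N ^ 4 := Nat.pow_le_pow_right (by omega) (by norm_num)
        omega
    · intro t ht hM
      rw [Set.mem_Icc] at ht
      have habs : |T + t| ≤ (N : ℝ) ^ 3 := by
        have h1 : |t| ≤ U := abs_le.2 ht
        have h2 : |T + t| ≤ |T| + |t| := abs_add_le _ _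
        nlinarith [sq_nonneg (N : ℝ)]
      have k2 := g1 P d l (T + t) hP1 hP2 hd1 hd2 hM habs
      exact pow_le_pow_left₀ (norm_nonneg _) k2 2
    · intro t ht hM
      have k2 := g2 R c b' K1 K2 (T + t) hR1 hc1 hcR hc3 hK1 hK2 hM.le
      have k3 : ‖Kl f K1 K2 ((l : ℝ) * b / d) (T + t)‖ ≤ K2 / L ^ (C' + K' + A' + 10) := by
        refine le_trans (le_of_eq ?_) k2
        unfold Kl
        congr 1
        refine Finset.sum_congr rfl fun m _ => ?_
        rw [hc4, mul_div_assoc]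
      have k4 := MscW_Pl_le P d l (T + t)
      show ‖Pl P d l (T + t)‖ ^ 2 * ‖Kl f K1 K2 ((l : ℝ) * b / d) (T + t)‖ ^ 2 ≤ _
      rw [← mul_pow]
      exact pow_le_pow_left₀ (by positivity)
        (mul_le_mul k4 k3 (norm_nonneg _) (Nat.cast_nonneg P)) 2
  have hsum := Finset.sum_le_sum hcl
  rw [sum_const, card_range, nsmul_eq_mul] at hsum
  refine (mul_le_mul_of_nonneg_left hsum (Nat.cast_nonneg d)).trans ?_
  refine MscW_arith N P K2 d U L A' C' K' (by linarith) hP0 hL hd2 (Nat.cast_nonneg d) hU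
    hUP hK2R (by exact_mod_cast hKP) (Real.log K2) ?_ (Real.log_natCast_nonneg K2)
  exact Real.log_le_log hK20 (by exact_mod_cast hK2)

end Pool.Agent.H53.MIX

end
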