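import Pool.Agent.H43.PJ.M03
import Pool.Agent.H43.PJ.M25

/-! The parts of this file: H53.MDB.SRes, H53.MDB.BoostL, H53.MDB.BoostF. -/

section

/-!
# MDB SRes: integers in residue classes

`sres_triv`: the number of `m ∈ (P, 2P]` in a residue class mod `δ` is `≤ P/δ + 1`.
`sres_vk`: `r0 = r % δ`, `m = r0 + δ q`: `P < m ≤ 2P` iff `q ∈ Ioc a b`, `a = (P - r0)/δ`, `b = (2P - r0)/δ` (natural numbers, `r0 < δ ≤ P`).  `log m = log δ + log (q + r0/δ)`, so (norms) `|sres| = |∑_{q ∈ Ioc a b} ee(-t log(q + r0/δ))|`.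
`VKe t0` at `x = 2N`, `K = 2P/δ` (natural division; `b ≤ K ≤ 2N`, `K ≥ P/δ ≥ exp(L^t - L^t2) ≥ exp((log 2N)^t0)` for large `N` as `t0 < t`, `t2 < t`; `|t| ≤ N ≤ x^3`; `β = r0/δ`), with the exponent `A + 1`:
`≤ K (100/|t| + 1/(log x)^(A+1)) ≤ (2P/δ)(100/L^(A+1) + 1/L^(A+1)) ≤ (P/δ)/L^A` for `L ≥ 202`; `T1 = A + 1`.
-/

set_option autoImplicit false

namespace Pool.Agent.H53.MDB

open Finset
open Pool.Agent.H91.PK (ee)
open Pool.Agent.H53.MIX (VKe)

private theorem SRes_ee_add (a b : ℝ) : ee (a + b) = ee a * ee b := by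
  unfold ee
  rw [← Complex.exp_add]
  congr 1
  push_cast
  ring

private theorem SRes_norm_ee (t : ℝ) : ‖ee t‖ = 1 := by
  unfold ee
  have h : (2 * Real.pi * t * Complex.I : ℂ) = ((2 * Real.pi * t : ℝ) : ℂ) * Complex.I := by push_cast; ring
  rw [h, Complex.norm_exp_ofReal_mul_I]

theorem sres_triv (P δ r : ℕ) (t : ℝ) (hδ : 1 ≤ δ) : ‖sres P δ r t‖ ≤ P / δ + 1 := by
  have hδR : (0 : ℝ) < δ := by exact_mod_cast hδ
  have h1 : ‖sres P δ r t‖ ≤ (((Ioc P (2 * P)).filter (fun m => m % δ = r % δ)).card : ℝ) := by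
    unfold sres
    refine (norm_sum_le _ _).trans ?_
    simp only [SRes_norm_ee]
    rw [Finset.sum_const, nsmul_eq_mul, mul_one]
  refine h1.trans ?_
  have h2 := Nat.Ioc_filter_modEq_card P (2 * P) (r := δ) (by omega) r
  have h3 : ((Ioc P (2 * P)).filter (fun m => m % δ = r % δ)) = ((Ioc P (2 * P)).filter (fun m => m ≡ r [MOD δ])) := rfl
  have h4 : ((((Ioc P (2 * P)).filter (fun m => m % δ = r % δ)).card : ℤ) : ℝ) ≤ P / δ + 1 := by
    rw [h3, h2]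
    push_cast
    refine max_le ?_ (by positivity)
    have e1 : ((⌊(((2 * P : ℕ) : ℚ) - r) / δ⌋ : ℤ) : ℝ) ≤ ((2 * P : ℝ) - r) / δ := by
      have := Int.floor_le ((((2 * P : ℕ) : ℚ) - r) / δ)
      have h : (((⌊(((2 * P : ℕ) : ℚ) - r) / δ⌋ : ℤ) : ℚ) : ℝ) ≤ (((((2 * P : ℕ) : ℚ) - r) / δ : ℚ) : ℝ) := by
        exact_mod_cast this
      push_cast at h ⊢
      exact h
    have e2 : ((P : ℝ) - r) / δ < ((⌊((P : ℚ) - r) / δ⌋ : ℤ) : ℝ) + 1 := by
      have := Int.lt_floor_add_one (((P : ℚ) - r) / δ)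
      have h : (((((P : ℚ) - r) / δ : ℚ)) : ℝ) < ((((⌊((P : ℚ) - r) / δ⌋ : ℤ) : ℚ) + 1 : ℚ) : ℝ) := by
        exact_mod_cast this
      push_cast at h
      exact h
    have e3 : ((2 * P : ℝ) - r) / δ = ((P : ℝ) - r) / δ + P / δ := by ring
    push_cast at e1
    linarith
  exact_mod_cast h4

private theorem SRes_ev {t0 t t2 : ℝ} (h0t : t0 < t) (h2t : t2 < t) :
    ∃ L0 : ℝ, 202 ≤ L0 ∧ ∀ L : ℝ, L0 ≤ L → (2 * L) ^ t0 + L ^ t2 ≤ L ^ t := by
  have e1 : Filter.Tendsto (fun L : ℝ => 2 ^ t0 * L ^ (-(t - t0))) Filter.atTop (nhds (2 ^ t0 * 0)) :=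
    (tendsto_rpow_neg_atTop (by linarith)).const_mul _
  have e2 : Filter.Tendsto (fun L : ℝ => L ^ (-(t - t2))) Filter.atTop (nhds 0) :=
    tendsto_rpow_neg_atTop (by linarith)
  rw [mul_zero] at e1
  have f1 := e1.eventually (Iio_mem_nhds (show (0 : ℝ) < 1 / 2 by norm_num))
  have f2 := e2.eventually (Iio_mem_nhds (show (0 : ℝ) < 1 / 2 by norm_num))
  obtain ⟨L1, hL1⟩ := Filter.eventually_atTop.1 (f1.and f2)
  refine ⟨max 202 L1, le_max_left _ _, fun L hL => ?_⟩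
  have hL2 : 202 ≤ L := (le_max_left _ _).trans hL
  have hLpos : 0 < L := by linarith
  obtain ⟨g1, g2⟩ := hL1 L ((le_max_right _ _).trans hL)
  replace g1 : 2 ^ t0 * L ^ (-(t - t0)) < 1 / 2 := g1
  replace g2 : L ^ (-(t - t2)) < 1 / 2 := g2
  have k1 : (2 * L) ^ t0 = (2 ^ t0 * L ^ (-(t - t0))) * L ^ t := by
    rw [Real.mul_rpow (by norm_num) hLpos.le, mul_assoc, ← Real.rpow_add hLpos]
    congr 2; ring
  have k2 : L ^ t2 = L ^ (-(t - t2)) * L ^ t := by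
    rw [← Real.rpow_add hLpos]; congr 1; ring
  have k3 : 0 < L ^ t := Real.rpow_pos_of_pos hLpos _
  rw [k1, k2]
  nlinarith

theorem sres_vk (t0 t t2 : ℝ) (h0 : 0 < t0) (h0t : t0 < t) (h2 : 0 < t2) (h2t : t2 < t) (hV : VKe t0) (A : ℕ) :
    ∃ T1 N0 : ℕ, ∀ N : ℕ, N0 ≤ N → ∀ (P δ r : ℕ) (u : ℝ), Real.exp (Real.log N ^ t) ≤ P → P ≤ N → 1 ≤ δ →
    (δ : ℝ) ≤ Real.exp (Real.log N ^ t2) → Real.log N ^ T1 ≤ |u| → |u| ≤ N →
    ‖sres P δ r u‖ ≤ P / δ / Real.log N ^ A := by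
  obtain ⟨L0, hL0, hL⟩ := SRes_ev (t0 := t0) h0t h2t
  obtain ⟨x0, hx0⟩ := hV (A + 1)
  obtain ⟨N1, hN1⟩ := exists_nat_ge (Real.exp L0)
  refine ⟨A + 1, max (max x0 N1) 2, fun N hN P δ r u hP hPN hδ hδ2 hu hu2 => ?_⟩
  have hNx : x0 ≤ N := le_trans (le_trans (le_max_left _ _) (le_max_left _ _)) hN
  have hNN : N1 ≤ N := le_trans (le_trans (le_max_right _ _) (le_max_left _ _)) hN
  have hN2 : 2 ≤ N := le_trans (le_max_right _ _) hN
  have hNR : (0 : ℝ) < N := by exact_mod_cast (by omega : 0 < N)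
  set L := Real.log N with hLdef
  have hLL0 : L0 ≤ L := by
    rw [hLdef, Real.le_log_iff_exp_le hNR]
    exact hN1.trans (by exact_mod_cast hNN)
  have hL202 : 202 ≤ L := hL0.trans hLL0
  have hLpos : 0 < L := by linarith
  have hkey := hL L hLL0
  have hδR : (0 : ℝ) < δ := by exact_mod_cast hδ
  have hδP : δ ≤ P := by
    have h1 : L ^ t2 ≤ L ^ t := Real.rpow_le_rpow_of_exponent_le (by linarith) h2t.le
    have : (δ : ℝ) ≤ P := hδ2.trans ((Real.exp_le_exp.2 h1).trans hP)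
    exact_mod_cast this
  set r0 := r % δ with hr0
  have hr0δ : r0 < δ := Nat.mod_lt _ (by omega)
  set a := (P - r0) / δ with ha
  set b := (2 * P - r0) / δ with hb
  set K := 2 * P / δ with hK
  -- reindexing
  have hre : sres P δ r u = ∑ q ∈ Ioc a b, ee (-(u * Real.log ((r0 + δ * q : ℕ) : ℝ))) := by
    unfold sres
    symm
    refine Finset.sum_nbij' (fun q => r0 + δ * q) (fun m => m / δ) ?_ ?_ ?_ ?_ ?_
    · intro q hq
      rw [mem_Ioc] at hq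
      rw [mem_filter, mem_Ioc]
      have h1 : P - r0 < q * δ := (Nat.div_lt_iff_lt_mul (by omega)).1 hq.1
      have h2 : q * δ ≤ 2 * P - r0 := (Nat.le_div_iff_mul_le (by omega)).1 hq.2
      refine ⟨⟨?_, ?_⟩, ?_⟩
      · rw [mul_comm δ q]; omega
      · rw [mul_comm δ q]; omega
      · rw [Nat.add_mul_mod_self_left, hr0, Nat.mod_mod]
    · intro m hm
      rw [mem_filter, mem_Ioc] at hm
      rw [mem_Ioc]
      have h1 : r0 + δ * (m / δ) = m := by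
        rw [hr0, ← hm.2]; exact Nat.mod_add_div m δ
      constructor
      · rw [ha, Nat.div_lt_iff_lt_mul (by omega)]
        rw [mul_comm δ] at h1; omega
      · rw [hb, Nat.le_div_iff_mul_le (by omega)]
        rw [mul_comm δ] at h1; omega
    · intro q hq
      show (r0 + δ * q) / δ = q
      rw [Nat.add_mul_div_left _ _ (by omega), Nat.div_eq_of_lt hr0δ, zero_add]
    · intro m hm
      rw [mem_filter, mem_Ioc] at hm
      show r0 + δ * (m / δ) = m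
      rw [hr0, ← hm.2]; exact Nat.mod_add_div m δ
    · intro q hq
      rfl
  have hfac : ∀ q ∈ Ioc a b, ee (-(u * Real.log ((r0 + δ * q : ℕ) : ℝ))) =
      ee (-(u * Real.log δ)) * ee ((-u) * Real.log ((q : ℝ) + (r0 : ℝ) / δ)) := by
    intro q hq
    rw [mem_Ioc] at hq
    have hq0 : (0 : ℝ) < q := by exact_mod_cast lt_of_le_of_lt (Nat.zero_le a) hq.1
    rw [← SRes_ee_add]
    congr 1
    have h1 : ((r0 + δ * q : ℕ) : ℝ) = δ * ((q : ℝ) + (r0 : ℝ) / δ) := by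
      push_cast; field_simp; ring
    have h2 : (0 : ℝ) < (q : ℝ) + (r0 : ℝ) / δ := by positivity
    rw [h1, Real.log_mul hδR.ne' h2.ne']
    ring
  have hnorm : ‖sres P δ r u‖ = ‖∑ q ∈ Ioc a b, ee ((-u) * Real.log ((q : ℝ) + (r0 : ℝ) / δ))‖ := by
    rw [hre, Finset.sum_congr rfl hfac, ← Finset.mul_sum, norm_mul, SRes_norm_ee, one_mul]
  rw [hnorm]
  have hlog2 : Real.log ((2 * N : ℕ) : ℝ) ≤ 2 * L := by
    push_cast
    rw [Real.log_mul (by norm_num) hNR.ne']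
    have : Real.log 2 ≤ Real.log N := Real.log_le_log (by norm_num) (by exact_mod_cast hN2)
    linarith
  have hlog2' : L ≤ Real.log ((2 * N : ℕ) : ℝ) := by
    rw [hLdef]
    refine Real.log_le_log hNR ?_
    push_cast; linarith
  -- size of K
  have hPδ : Real.exp (L ^ t - L ^ t2) ≤ (P : ℝ) / δ := by
    rw [Real.exp_sub]
    exact div_le_div₀ (Nat.cast_nonneg _) hP hδR hδ2
  have hPδ1 : (1 : ℝ) ≤ (P : ℝ) / δ := by
    rw [le_div_iff₀ hδR, one_mul]; exact_mod_cast hδP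
  have hKle : (K : ℝ) ≤ 2 * ((P : ℝ) / δ) := by
    have := Nat.cast_div_le (m := 2 * P) (n := δ) (α := ℝ)
    rw [← hK] at this
    refine this.trans (le_of_eq ?_)
    push_cast; ring
  have hKge : (P : ℝ) / δ ≤ K := by
    have h1 : (2 * P : ℕ) < (K + 1) * δ := by
      rw [hK]
      have := Nat.lt_div_mul_add (a := 2 * P) (b := δ) (by omega)
      calc 2 * P < 2 * P / δ * δ + δ := this
        _ = (2 * P / δ + 1) * δ := by ring
    have h2 : (2 * P : ℝ) < (K + 1) * δ := by exact_mod_cast h1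
    have h3 : 2 * ((P : ℝ) / δ) < K + 1 := by
      rw [← mul_div_assoc, div_lt_iff₀ hδR]; exact h2
    linarith
  have hK1 : Real.exp (Real.log ((2 * N : ℕ) : ℝ) ^ t0) ≤ K := by
    refine le_trans ?_ (hPδ.trans hKge)
    rw [Real.exp_le_exp]
    have h1 : Real.log ((2 * N : ℕ) : ℝ) ^ t0 ≤ (2 * L) ^ t0 :=
      Real.rpow_le_rpow (by linarith) hlog2 h0.le
    linarith
  have hK2 : K ≤ 2 * N := by
    rw [hK]
    exact (Nat.div_le_self _ _).trans (by omega)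
  have hbK : b ≤ K := by
    rw [hb, hK]
    exact Nat.div_le_div_right (by omega)
  have hβ1 : (r0 : ℝ) / δ ≤ 1 := by
    rw [div_le_one hδR]; exact_mod_cast hr0δ.le
  have hLT : 1 ≤ L ^ (A + 1) := one_le_pow₀ (by linarith)
  have hu1 : 1 ≤ |(-u)| := by rw [abs_neg]; exact hLT.trans hu
  have hu3 : |(-u)| ≤ ((2 * N : ℕ) : ℝ) ^ (3 : ℕ) := by
    rw [abs_neg]
    refine hu2.trans ?_
    have h1 : (1 : ℝ) ≤ N := by exact_mod_cast (by omega : 1 ≤ N)
    push_cast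
    nlinarith [mul_pos hNR hNR, mul_nonneg (sq_nonneg ((N : ℝ) - 1)) hNR.le]
  have hmain := hx0 (2 * N) (by omega) K a b ((r0 : ℝ) / δ) (-u) hK1 hK2 hbK (by positivity) hβ1 hu1 hu3
  refine hmain.trans ?_
  rw [abs_neg]
  have hu0 : 0 < |u| := lt_of_lt_of_le (by positivity) hu
  have g1 : 100 / |u| ≤ 100 / L ^ (A + 1) := div_le_div_of_nonneg_left (by norm_num) (by positivity) hu
  have g2 : 1 / Real.log ((2 * N : ℕ) : ℝ) ^ (A + 1) ≤ 1 / L ^ (A + 1) :=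
    one_div_le_one_div_of_le (by positivity) (pow_le_pow_left₀ hLpos.le hlog2' _)
  have g3 : 100 / |u| + 1 / Real.log ((2 * N : ℕ) : ℝ) ^ (A + 1) ≤ 101 / L ^ (A + 1) := by
    have : (101 : ℝ) / L ^ (A + 1) = 100 / L ^ (A + 1) + 1 / L ^ (A + 1) := by ring
    linarith
  calc (K : ℝ) * (100 / |u| + 1 / Real.log ((2 * N : ℕ) : ℝ) ^ (A + 1))
      ≤ (2 * ((P : ℝ) / δ)) * (101 / L ^ (A + 1)) := by
        refine mul_le_mul hKle g3 ?_ (by positivity)
        have : 0 ≤ Real.log ((2 * N : ℕ) : ℝ) := by linarith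
        positivity
    _ = ((P : ℝ) / δ) / L ^ A * (202 / L) := by
        rw [pow_succ]; field_simp; ring
    _ ≤ ((P : ℝ) / δ) / L ^ A * 1 := by
        refine mul_le_mul_of_nonneg_left ?_ (by positivity)
        rw [div_le_one hLpos]; exact hL202
    _ = (P : ℝ) / δ / L ^ A := mul_one _

end Pool.Agent.H53.MDB

end

section

/-!
# MDB BoostL: few quadruples with the congruence (the boost lemma)

Proof.  `L = log N`, `A = A1 + 2`, `T1'` from `sres_vk A`, `T1 = T1' + 1` in the statement.  Let `V = n/(16 C^2)`, `S = U × {m ∈ (P,2P] : (m, δ) = 1}`, `x (i, m) = log i - log m`, `c (i, m) = (m bb(i)) % δ`, `B = range δ`.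
For `q = ((i,p),(i',p')) ∈ NB`: `p, p' > P ≥ δ` primes (`δ ≤ exp(L^t2) ≤ exp(L^t) ≤ P`), so prime to `δ`; the congruence is `c (i,p) = c (i',p')`; `i, i' ≥ n/C > 0`; `|i p'/(i' p) - 1| = |i p' - i' p|/(i' p) ≤ 4 C P/((n/C) P) = 4 C^2/n ≤ 1/2`,
and `|log y| ≤ 2 |y - 1|` for `|y - 1| ≤ 1/2`, so `|x (i,p) - x (i',p')| = |log (i p'/(i' p))| ≤ 8 C^2/n` and `|x - x'| V ≤ 1/2`.  So by `fej`: `|NB| ≤ (4/V) ∫_{-V}^{V} GG P δ U bb t dt` (the sum over `s ∈ S` with `c s = β` is the double sum of `GG`).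
Split the integral at `|t| = L^T1'` (`≤ V` for large `N`, as `n ≥ N^(1/4)`; or use the bound `GG(t) ≤ (first bound) 1_{|t| ≤ L^T1'} + (second bound)` for all `|t| ≤ V`).
`|t| ≤ L^T1'`: `sres_triv` (`P/δ + 1 ≤ 2P/δ`), `gg_triv`: `GG ≤ δ (2P/δ · |U|)^2 = 4 P^2 |U|^2/δ`; contribution `(4/V) 2 L^T1' 4 P^2 |U|^2/δ = 512 C^2 L^T1' P^2 |U|^2/(n δ) ≤ L^(T1'+1) P^2 |U|^2/(n δ)`.
`L^T1' ≤ |t| ≤ V ≤ N`: `sres_vk`: `M = P/δ/L^A`, `gg_young`: `GG ≤ (P/L^A)^2 ∑_c |u_c(t)|^2`, `u_c(t) = ∑_{i ∈ U, bb i % δ = c} ee(t log i)`; `Pool.Agent.H53.MID.mvt` (`X = ⌊C n⌋`, `τ = 0`, coefficients `1_{U_c}`; replace `t` by `-t`: symmetric interval,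
or use that `ee(t log i)` is the conjugate of `ee(-(t log i))`): `∫_{-V}^{V} |u_c|^2 ≤ (2V + 2X(1 + log X)) |U_c| ≤ 10 C n L |U_c|` (`log X ≤ log C + L`).
Contribution `≤ (64 C^2/n)(P^2/L^(2A)) 10 C n L |U| = 640 C^3 P^2 |U| L^(1-2A) ≤ P^2 |U|/L^A1` for large `N`.
-/

set_option autoImplicit false

namespace Pool.Agent.H53.MDB

open Finset MeasureTheory
open Pool.Agent.H91.PK (ee)
open Pool.Agent.H53.MIX (VKe)

private theorem BoostL_conj (x : ℝ) : starRingEnd ℂ (ee x) = ee (-x) := by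
  unfold ee
  rw [← Complex.exp_conj]
  congr 1
  have h2 : (starRingEnd ℂ) 2 = 2 := map_ofNat _ 2
  simp [h2]

private theorem BoostL_ee_cont (a : ℝ) : Continuous fun t : ℝ => ee (t * a) := by
  unfold ee
  fun_prop

/-- the logarithm near `1` -/
private theorem BoostL_log {y r : ℝ} (h : |y - 1| ≤ r) (hr : r ≤ 1 / 2) : |Real.log y| ≤ 2 * r := by
  have h1 := abs_le.1 h
  have hy : 0 < y := by linarith only [hr, h1]
  have h2 := Real.log_le_sub_one_of_pos hy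
  have h3 := Real.one_sub_inv_le_log_of_pos hy
  have h4 : -(2 * r) ≤ 1 - y⁻¹ := by
    have h5 : 1 - y⁻¹ = (y - 1) / y := by field_simp
    rw [h5, le_div_iff₀ hy]
    nlinarith only [h1, hr]
  rw [abs_le]
  constructor <;> linarith only [h3, h4, h1, h2]

/-- the quadruples are pairs of close values -/
private theorem BoostL_close {C n P i i' p p' : ℝ} (hC : 1 ≤ C) (hn : 8 * C ^ 2 ≤ n) (hP : 0 < P)
    (hi : n / C ≤ i) (hi' : n / C ≤ i') (hp : P < p) (hp' : P < p') (h : |i * p' - i' * p| ≤ 4 * C * P) :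
    |(Real.log i - Real.log p) - (Real.log i' - Real.log p')| * (n / (16 * C ^ 2)) ≤ 1 / 2 := by
  have hC0 : 0 < C := by linarith
  have hn0 : 0 < n := by nlinarith only [hC, hn]
  have hnC : 0 < n / C := by positivity
  have hi0 : 0 < i := by linarith
  have hi'0 : 0 < i' := by linarith
  have hp0 : 0 < p := by linarith
  have hp'0 : 0 < p' := by linarith
  have e1 : (Real.log i - Real.log p) - (Real.log i' - Real.log p') = Real.log (i * p' / (i' * p)) := by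
    rw [Real.log_div (by positivity) (by positivity), Real.log_mul hi0.ne' hp'0.ne',
      Real.log_mul hi'0.ne' hp0.ne']
    ring
  rw [e1]
  have h1 : |i * p' / (i' * p) - 1| ≤ 4 * C ^ 2 / n := by
    have e2 : i * p' / (i' * p) - 1 = (i * p' - i' * p) / (i' * p) := by
      field_simp
    rw [e2, abs_div, abs_of_pos (show 0 < i' * p by positivity), div_le_div_iff₀ (by positivity) hn0]
    have h2 : n / C * P ≤ i' * p := mul_le_mul hi' hp.le hP.le hi'0.le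
    have h3 : n * P ≤ C * (i' * p) := by
      have : n / C * P = n * P / C := by ring
      rw [this, div_le_iff₀ hC0] at h2
      linarith only [h2]
    calc |i * p' - i' * p| * n ≤ 4 * C * P * n := mul_le_mul_of_nonneg_right h hn0.le
      _ = 4 * C * (n * P) := by ring
      _ ≤ 4 * C * (C * (i' * p)) := mul_le_mul_of_nonneg_left h3 (by positivity)
      _ = 4 * C ^ 2 * (i' * p) := by ring
  have h2 : 4 * C ^ 2 / n ≤ 1 / 2 := by
    rw [div_le_iff₀ hn0]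
    linarith only [hn]
  have h3 := BoostL_log h1 h2
  calc |Real.log (i * p' / (i' * p))| * (n / (16 * C ^ 2))
      ≤ 2 * (4 * C ^ 2 / n) * (n / (16 * C ^ 2)) := mul_le_mul_of_nonneg_right h3 (by positivity)
    _ = 1 / 2 := by field_simp; norm_num

/-- `NB` is contained in a set of pairs of close values -/
private theorem BoostL_sub {C : ℝ} (hC : 1 ≤ C) {n P δ : ℕ} (hn : 8 * C ^ 2 ≤ n) (hP : 0 < P) (hδ : 1 ≤ δ)
    (hδP : δ ≤ P) {U : Finset ℕ} {bb : ℕ → ℕ} (hU : ∀ i ∈ U, (n : ℝ) / C ≤ i) {q : (ℕ × ℕ) × (ℕ × ℕ)}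
    (hq : q ∈ NB C P U δ bb) :
    (q.1 ∈ U ×ˢ (Ioc P (2 * P)).filter (fun m => Nat.Coprime m δ) ∧
      q.2 ∈ U ×ˢ (Ioc P (2 * P)).filter (fun m => Nat.Coprime m δ)) ∧
    (q.1.2 * bb q.1.1) % δ = (q.2.2 * bb q.2.1) % δ ∧
    |(Real.log q.1.1 - Real.log q.1.2) - (Real.log q.2.1 - Real.log q.2.2)| * (n / (16 * C ^ 2)) ≤ 1 / 2 := by
  rw [mem_NB, mem_QS] at hq
  obtain ⟨⟨h1, h2, h3, h4, h5, h6, h7, h8, h9⟩, h10⟩ := hq
  have hcop : ∀ p : ℕ, P < p → p.Prime → Nat.Coprime p δ := by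
    intro p hp hpp
    rw [Nat.Prime.coprime_iff_not_dvd hpp]
    intro hd
    have := Nat.le_of_dvd (by omega) hd
    omega
  refine ⟨⟨?_, ?_⟩, h10, ?_⟩
  · rw [Finset.mem_product, Finset.mem_filter, Finset.mem_Ioc]
    exact ⟨h1, ⟨h2, h3⟩, hcop _ h2 h4⟩
  · rw [Finset.mem_product, Finset.mem_filter, Finset.mem_Ioc]
    exact ⟨h5, ⟨h6, h7⟩, hcop _ h6 h8⟩
  · exact BoostL_close hC hn (by exact_mod_cast hP) (hU _ h1) (hU _ h5) (by exact_mod_cast h2)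
      (by exact_mod_cast h6) h9

open Classical in
/-- the sum in `fej` is `GG` -/
private theorem BoostL_GG (P δ : ℕ) (U : Finset ℕ) (bb : ℕ → ℕ) (t : ℝ) :
    ∑ β ∈ range δ, ‖∑ s ∈ (U ×ˢ (Ioc P (2 * P)).filter (fun m => Nat.Coprime m δ)).filter
      (fun s : ℕ × ℕ => (s.2 * bb s.1) % δ = β), ee (t * (Real.log s.1 - Real.log s.2))‖ ^ 2 =
    GG P δ U bb t := by
  unfold GG
  refine Finset.sum_congr rfl fun β _ => ?_
  congr 2
  rw [Finset.sum_filter, Finset.sum_product]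
  refine Finset.sum_congr rfl fun i _ => ?_
  rw [Finset.sum_filter, Finset.sum_filter]
  refine Finset.sum_congr rfl fun m _ => ?_
  by_cases h1 : Nat.Coprime m δ
  · by_cases h2 : (m * bb i) % δ = β
    · rw [if_pos h1, if_pos h2, if_pos ⟨h1, h2⟩]
    · rw [if_pos h1, if_neg h2, if_neg fun h => h2 h.2]
  · rw [if_neg h1, if_neg fun h => h1 h.1]

private theorem BoostL_GG_cont (P δ : ℕ) (U : Finset ℕ) (bb : ℕ → ℕ) :
    Continuous fun t : ℝ => GG P δ U bb t := by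
  unfold GG
  refine continuous_finsetSum _ fun β _ => ?_
  refine Continuous.pow ?_ 2
  refine Continuous.norm ?_
  refine continuous_finsetSum _ fun i _ => ?_
  exact continuous_finsetSum _ fun m _ => BoostL_ee_cont _

/-- the mean value of `u_c` -/
private theorem BoostL_mv (C : ℝ) (hC : 1 ≤ C) (n : ℕ) (hn : 1 ≤ n) (W : Finset ℕ)
    (hW : ∀ i ∈ W, (n : ℝ) / C ≤ i ∧ (i : ℝ) ≤ C * n) (V : ℝ) (hV : 0 ≤ V) :
    ∫ t in Set.Icc (-V) V, ‖∑ i ∈ W, ee (t * Real.log i)‖ ^ 2 ≤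
      (2 * V + 2 * (C * n) * (1 + Real.log (C * n))) * W.card := by
  have hn0 : (1 : ℝ) ≤ n := by exact_mod_cast hn
  have hC0 : 0 < C := by linarith
  have hCn : 1 ≤ C * n := by nlinarith only [hn0, hC]
  set X := ⌊C * n⌋₊ with hX
  have hX1 : 1 ≤ X := Nat.le_floor (by simpa using hCn)
  have hXle : (X : ℝ) ≤ C * n := Nat.floor_le (by linarith)
  have hX1' : (1 : ℝ) ≤ X := by exact_mod_cast hX1
  have hsub : W ⊆ Icc 1 X := by
    intro i hi
    obtain ⟨h1, h2⟩ := hW i hi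
    rw [Finset.mem_Icc]
    refine ⟨?_, Nat.le_floor h2⟩
    have h3 : (0 : ℝ) < n / C := by positivity
    have h4 : (0 : ℝ) < i := by linarith only [h1, h3]
    exact_mod_cast h4
  have h1 := Pool.Agent.H53.MID.mvt (fun m => if m ∈ W then 1 else 0) X V 0 hX1 hV
  have h2 : ∀ t : ℝ, ‖∑ i ∈ W, ee (t * Real.log i)‖ ^ 2 =
      ‖∑ m ∈ Icc 1 X, (if m ∈ W then (1 : ℂ) else 0) * ee (-((0 + t) * Real.log m))‖ ^ 2 := by
    intro t
    have e1 : ∑ m ∈ Icc 1 X, (if m ∈ W then (1 : ℂ) else 0) * ee (-((0 + t) * Real.log m)) =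
        ∑ i ∈ W, ee (-(t * Real.log i)) := by
      rw [← Finset.sum_subset hsub (fun m _ hm => by rw [if_neg hm, zero_mul])]
      exact Finset.sum_congr rfl fun m hm => by rw [if_pos hm, one_mul, zero_add]
    rw [e1, ← RCLike.norm_conj (∑ i ∈ W, ee (t * Real.log i)), map_sum]
    simp only [BoostL_conj]
  have h3 : ∑ m ∈ Icc 1 X, ‖(if m ∈ W then (1 : ℂ) else 0)‖ ^ 2 = W.card := by
    rw [← Finset.sum_subset hsub (fun m _ hm => by rw [if_neg hm, norm_zero]; ring)]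
    rw [Finset.sum_congr rfl fun m hm => by rw [if_pos hm, norm_one, one_pow]]
    simp
  simp only [h2]
  refine h1.trans ?_
  rw [h3]
  refine mul_le_mul_of_nonneg_right ?_ (Nat.cast_nonneg _)
  have h4 : Real.log X ≤ Real.log (C * n) := Real.log_le_log (by linarith) hXle
  have h5 : 0 ≤ Real.log X := Real.log_nonneg hX1'
  have h6 : (X : ℝ) * (1 + Real.log X) ≤ C * n * (1 + Real.log (C * n)) :=
    mul_le_mul hXle (by linarith) (by linarith) (by linarith)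
  linarith only [h6]

/-- the integral of the sum of the squares of the `u_c` -/
private theorem BoostL_Y (C : ℝ) (hC : 1 ≤ C) (n : ℕ) (hn : 1 ≤ n) (δ : ℕ) (hδ : 1 ≤ δ) (U : Finset ℕ)
    (bb : ℕ → ℕ) (hU : ∀ i ∈ U, (n : ℝ) / C ≤ i ∧ (i : ℝ) ≤ C * n) (V : ℝ) (hV : 0 ≤ V) :
    ∫ t in Set.Icc (-V) V, ∑ c ∈ range δ, ‖∑ i ∈ U.filter (fun i => bb i % δ = c), ee (t * Real.log i)‖ ^ 2 ≤
      (2 * V + 2 * (C * n) * (1 + Real.log (C * n))) * U.card := by
  rw [integral_finsetSum]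
  · calc ∑ c ∈ range δ, ∫ t in Set.Icc (-V) V,
          ‖∑ i ∈ U.filter (fun i => bb i % δ = c), ee (t * Real.log i)‖ ^ 2
        ≤ ∑ c ∈ range δ, (2 * V + 2 * (C * n) * (1 + Real.log (C * n))) *
            ((U.filter (fun i => bb i % δ = c)).card : ℝ) := by
          refine Finset.sum_le_sum fun c _ => ?_
          exact BoostL_mv C hC n hn _ (fun i hi => hU i (Finset.mem_of_mem_filter i hi)) V hV
      _ = (2 * V + 2 * (C * n) * (1 + Real.log (C * n))) * U.card := by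
          rw [← Finset.mul_sum]
          congr 1
          have h1 := Finset.card_eq_sum_card_fiberwise (s := U) (t := range δ) (f := fun i => bb i % δ)
            (fun i _ => Finset.mem_coe.2 (Finset.mem_range.2 (Nat.mod_lt _ (by omega))))
          rw [h1]
          push_cast
          rfl
  · intro c _
    refine Continuous.integrableOn_Icc ?_
    refine Continuous.pow (Continuous.norm ?_) 2
    exact continuous_finsetSum _ fun i _ => BoostL_ee_cont _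

/-- the integral of `GG` -/
private theorem BoostL_int (C : ℝ) (hC : 1 ≤ C) (n P δ : ℕ) (hn : 1 ≤ n) (hδ : 1 ≤ δ) (hδP : δ ≤ P)
    (U : Finset ℕ) (bb : ℕ → ℕ) (hU : ∀ i ∈ U, (n : ℝ) / C ≤ i ∧ (i : ℝ) ≤ C * n ∧ Nat.Coprime (bb i) δ)
    (V T M : ℝ) (hV : 0 ≤ V) (hT : 0 ≤ T)
    (hM : ∀ t : ℝ, T ≤ |t| → |t| ≤ V → ∀ r : ℕ, ‖sres P δ r t‖ ≤ M) :
    ∫ t in Set.Icc (-V) V, GG P δ U bb t ≤ 4 * P ^ 2 * U.card ^ 2 / δ * (2 * T) +
      (δ * M) ^ 2 * ((2 * V + 2 * (C * n) * (1 + Real.log (C * n))) * U.card) := by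
  have hδ0 : (0 : ℝ) < δ := by exact_mod_cast hδ
  have hP0 : (δ : ℝ) ≤ P := by exact_mod_cast hδP
  have hcop : ∀ i ∈ U, Nat.Coprime (bb i) δ := fun i hi => (hU i hi).2.2
  set Y : ℝ → ℝ := fun t => ∑ c ∈ range δ,
    ‖∑ i ∈ U.filter (fun i => bb i % δ = c), ee (t * Real.log i)‖ ^ 2 with hY
  have hY0 : ∀ t, 0 ≤ Y t := fun t => Finset.sum_nonneg fun c _ => sq_nonneg _
  have hYc : Continuous Y := by
    refine continuous_finsetSum _ fun c _ => ?_
    refine Continuous.pow (Continuous.norm ?_) 2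
    exact continuous_finsetSum _ fun i _ => BoostL_ee_cont _
  set G1 : ℝ := 4 * P ^ 2 * U.card ^ 2 / δ with hG1
  have hG10 : 0 ≤ G1 := by positivity
  set ind : ℝ → ℝ := (Set.Icc (-T) T).indicator (fun _ => (1 : ℝ)) with hind
  have hind0 : ∀ t, 0 ≤ ind t := fun t => Set.indicator_nonneg (fun _ _ => zero_le_one) t
  have hindI : Integrable ind := by
    rw [hind, integrable_indicator_iff measurableSet_Icc]
    exact integrableOn_const (by rw [Real.volume_Icc]; exact ENNReal.ofReal_ne_top) (by simp)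
  have hpt : ∀ t ∈ Set.Icc (-V) V, GG P δ U bb t ≤ G1 * ind t + (δ * M) ^ 2 * Y t := by
    intro t ht
    have htV : |t| ≤ V := abs_le.2 ⟨ht.1, ht.2⟩
    by_cases hc : |t| ≤ T
    · have h1 : ind t = 1 := Set.indicator_of_mem (show t ∈ Set.Icc (-T) T from abs_le.1 hc) _
      have h2 : ∀ r : ℕ, ‖sres P δ r t‖ ≤ 2 * P / δ := by
        intro r
        refine (sres_triv P δ r t hδ).trans ?_
        rw [le_div_iff₀ hδ0, add_mul, div_mul_cancel₀ _ hδ0.ne']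
        linarith
      have h3 := gg_triv P δ U bb t (2 * P / δ) hδ hcop h2
      have h4 : (δ : ℝ) * (2 * P / δ * U.card) ^ 2 = G1 := by
        rw [hG1]
        field_simp
        ring
      rw [h4] at h3
      rw [h1, mul_one]
      have h5 : 0 ≤ (δ * M) ^ 2 * Y t := mul_nonneg (sq_nonneg _) (hY0 t)
      linarith only [h3, h5]
    · push Not at hc
      have h3 := gg_young P δ U bb t M hδ hcop (hM t hc.le htV)
      have h5 : 0 ≤ G1 * ind t := mul_nonneg hG10 (hind0 t)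
      exact h3.trans (le_add_of_nonneg_left h5)
  have hI1 : IntegrableOn (fun t => G1 * ind t) (Set.Icc (-V) V) := (hindI.const_mul G1).integrableOn
  have hI2 : IntegrableOn (fun t => (δ * M) ^ 2 * Y t) (Set.Icc (-V) V) :=
    (continuous_const.mul hYc).integrableOn_Icc
  calc ∫ t in Set.Icc (-V) V, GG P δ U bb t
      ≤ ∫ t in Set.Icc (-V) V, (G1 * ind t + (δ * M) ^ 2 * Y t) :=
        setIntegral_mono_on (BoostL_GG_cont P δ U bb).integrableOn_Icc (hI1.add hI2)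
          measurableSet_Icc hpt
    _ = G1 * (∫ t in Set.Icc (-V) V, ind t) + (δ * M) ^ 2 * ∫ t in Set.Icc (-V) V, Y t := by
        rw [integral_add hI1 hI2, integral_const_mul, integral_const_mul]
    _ ≤ _ := by
        refine add_le_add (mul_le_mul_of_nonneg_left ?_ hG10)
          (mul_le_mul_of_nonneg_left ?_ (sq_nonneg _))
        · refine (setIntegral_le_integral hindI (Filter.Eventually.of_forall hind0)).trans ?_
          rw [hind, integral_indicator measurableSet_Icc, integral_const]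
          simp only [MeasurableSet.univ, measureReal_restrict_apply, Set.univ_inter, smul_eq_mul, mul_one]
          rw [Real.volume_real_Icc_of_le (by linarith)]
          linarith
        · exact BoostL_Y C hC n hn δ hδ U bb (fun i hi => ⟨(hU i hi).1, (hU i hi).2.1⟩) V hV

theorem boostl (t0 t t2 : ℝ) (h0 : 0 < t0) (h0t : t0 < t) (h2 : 0 < t2) (h2t : t2 < t) (ht : t < 1) (hV : VKe t0) (C : ℝ)
    (hC : 1 ≤ C) (A1 : ℕ) : ∃ T1 N0 : ℕ, ∀ N : ℕ, N0 ≤ N → ∀ (n P δ : ℕ) (U : Finset ℕ) (bb : ℕ → ℕ),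
    Real.exp (Real.log N ^ t) ≤ P → P ≤ N → (N : ℝ) ^ (1 / 4 : ℝ) ≤ n → n ≤ N → 1 ≤ δ → (δ : ℝ) ≤ Real.exp (Real.log N ^ t2) →
    (∀ i ∈ U, (n : ℝ) / C ≤ i ∧ (i : ℝ) ≤ C * n ∧ Nat.Coprime (bb i) δ) →
    ((NB C P U δ bb).card : ℝ) ≤ P ^ 2 * (Real.log N ^ T1 * U.card ^ 2 / (n * δ) + U.card / Real.log N ^ A1) := by
  classical
  obtain ⟨T1, N1, hvk⟩ := sres_vk t0 t t2 h0 h0t h2 h2t hV (A1 + 2)
  have hC0 : 0 < C := by linarith
  -- the choice of `N0`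
  have hlogN : Filter.Tendsto (fun N : ℕ => Real.log N) Filter.atTop Filter.atTop :=
    Real.tendsto_log_atTop.comp tendsto_natCast_atTop_atTop
  have hpowN : Filter.Tendsto (fun N : ℕ => (N : ℝ) ^ (1 / 4 : ℝ)) Filter.atTop Filter.atTop :=
    (tendsto_rpow_atTop (by norm_num)).comp tendsto_natCast_atTop_atTop
  obtain ⟨N2, hN2⟩ := Filter.eventually_atTop.1
    ((hlogN.eventually_ge_atTop (512 * C ^ 3 + (1 + Real.log C))).and
      (hpowN.eventually_ge_atTop (8 * C ^ 2)))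
  refine ⟨T1 + 1, max N1 N2, fun N hN n P δ U bb hP hPN hnN hn hδ hδQ hU => ?_⟩
  obtain ⟨hL, hNp⟩ := hN2 N ((le_max_right _ _).trans hN)
  have hvkN := hvk N ((le_max_left _ _).trans hN)
  set L := Real.log N with hLdef
  have hlogC : 0 ≤ Real.log C := Real.log_nonneg hC
  have hC2 : 1 ≤ C ^ 2 := one_le_pow₀ hC
  have hC3 : 1 ≤ C ^ 3 := one_le_pow₀ hC
  have hC23 : C ^ 2 ≤ C ^ 3 := pow_le_pow_right₀ hC (by norm_num)
  have hL1 : 1 ≤ L := by nlinarith only [h0, h0t, ht, hL, hlogC, hC3]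
  have hL512 : 512 * C ^ 3 ≤ L := by linarith
  have hLC : 1 + Real.log C ≤ L := by nlinarith only [h0, h0t, ht, hL, hC3]
  have hn8 : 8 * C ^ 2 ≤ (n : ℝ) := hNp.trans hnN
  have hn0 : (0 : ℝ) < n := by nlinarith only [h0, h0t, ht, hnN, hNp, hC2]
  have hn1 : 1 ≤ n := by exact_mod_cast (by exact_mod_cast hn0 : 0 < n)
  have hδ0 : (0 : ℝ) < δ := by exact_mod_cast hδ
  have hδP' : (δ : ℝ) ≤ P := hδQ.trans ((Real.exp_le_exp.2
    (Real.rpow_le_rpow_of_exponent_le hL1 h2t.le)).trans hP)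
  have hδP : δ ≤ P := by exact_mod_cast hδP'
  have hP0 : 0 < P := by omega
  have hP0' : (0 : ℝ) < P := by exact_mod_cast hP0
  have hnN' : (n : ℝ) ≤ N := by exact_mod_cast hn
  set V : ℝ := n / (16 * C ^ 2) with hVdef
  have hV0 : 0 < V := by positivity
  have hVn : V ≤ n := by
    rw [hVdef, div_le_iff₀ (by positivity)]
    nlinarith only [h0, h0t, ht, hC2, hnN, hNp]
  -- the pairs
  have hfej := fej (U ×ˢ (Ioc P (2 * P)).filter (fun m => Nat.Coprime m δ))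
    (fun s : ℕ × ℕ => Real.log s.1 - Real.log s.2) (fun s => (s.2 * bb s.1) % δ) (range δ) V hV0
    (fun s _ => Finset.mem_range.2 (Nat.mod_lt _ (by omega)))
  simp only [BoostL_GG] at hfej
  have hcard : ((NB C P U δ bb).card : ℝ) ≤ 4 / V * ∫ t in Set.Icc (-V) V, GG P δ U bb t := by
    refine le_trans ?_ hfej
    have hle : (NB C P U δ bb).card ≤ (((U ×ˢ (Ioc P (2 * P)).filter (fun m => Nat.Coprime m δ)) ×ˢ
        (U ×ˢ (Ioc P (2 * P)).filter (fun m => Nat.Coprime m δ))).filter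
        (fun q => (q.1.2 * bb q.1.1) % δ = (q.2.2 * bb q.2.1) % δ ∧
          |(Real.log q.1.1 - Real.log q.1.2) - (Real.log q.2.1 - Real.log q.2.2)| * V ≤ 1 / 2)).card := by
      refine Finset.card_le_card fun q hq => ?_
      have h1 := BoostL_sub hC hn8 hP0 hδ hδP (fun i hi => (hU i hi).1) hq
      rw [Finset.mem_filter, Finset.mem_product]
      exact h1
    exact_mod_cast hle
  have hint := BoostL_int C hC n P δ hn1 hδ hδP U bb hU V (L ^ T1) (P / δ / L ^ (A1 + 2)) hV0.le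
    (by positivity) (fun u hu huV r => hvkN P δ r u hP hPN hδ hδQ hu (huV.trans (hVn.trans hnN')))
  have h4V : 4 / V = 64 * C ^ 2 / n := by
    rw [hVdef]
    field_simp
    norm_num
  have hmain : ((NB C P U δ bb).card : ℝ) ≤ 64 * C ^ 2 / n * (4 * P ^ 2 * U.card ^ 2 / δ * (2 * L ^ T1) +
      (δ * (P / δ / L ^ (A1 + 2))) ^ 2 *
        ((2 * V + 2 * (C * n) * (1 + Real.log (C * n))) * U.card)) := by
    refine hcard.trans ?_
    rw [h4V]
    exact mul_le_mul_of_nonneg_left hint (by positivity)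
  refine hmain.trans ?_
  have hU0 : (0 : ℝ) ≤ U.card := Nat.cast_nonneg _
  have hL0 : 0 < L := by linarith only [h0, h0t, ht, hL, hlogC, hC3]
  refine (le_of_eq (mul_add _ _ _)).trans ?_
  refine le_trans (add_le_add ?_ ?_) (le_of_eq (mul_add ((P : ℝ) ^ 2) _ _).symm)
  · have e1 : 64 * C ^ 2 / n * (4 * P ^ 2 * U.card ^ 2 / δ * (2 * L ^ T1)) =
        P ^ 2 * (512 * C ^ 2 * L ^ T1 * U.card ^ 2 / (n * δ)) := by
      field_simp
      ring
    rw [e1, pow_succ]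
    refine mul_le_mul_of_nonneg_left ?_ (by positivity)
    refine div_le_div_of_nonneg_right ?_ (by positivity)
    refine mul_le_mul_of_nonneg_right ?_ (by positivity)
    have h5 : 512 * C ^ 2 ≤ L := by nlinarith only [h0, h0t, ht, hL, hlogC, hC23]
    calc 512 * C ^ 2 * L ^ T1 ≤ L * L ^ T1 := mul_le_mul_of_nonneg_right h5 (by positivity)
      _ = L ^ T1 * L := by ring
  · have hlogn : Real.log n ≤ L := Real.log_le_log hn0 hnN'
    have hlogCn : Real.log (C * n) ≤ Real.log C + L := by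
      rw [Real.log_mul hC0.ne' hn0.ne']
      linarith only [hlogn]
    have h5 : 2 * V + 2 * (C * n) * (1 + Real.log (C * n)) ≤ 6 * C * n * L := by
      have h6 : 1 + Real.log (C * n) ≤ 2 * L := by linarith only [h0, h0t, ht, hL, hC3, hlogCn]
      have h7 : 2 * (C * n) * (1 + Real.log (C * n)) ≤ 2 * (C * n) * (2 * L) :=
        mul_le_mul_of_nonneg_left h6 (by positivity)
      have h8 : 2 * V ≤ 2 * C * n * L := by
        have h9 : (n : ℝ) ≤ C * n * L := by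
          calc (n : ℝ) = 1 * n * 1 := by ring
            _ ≤ C * n * L := by
              refine mul_le_mul (mul_le_mul_of_nonneg_right hC hn0.le) hL1 zero_le_one (by positivity)
        linarith only [hVn, h9]
      linarith only [h7, h8]
    have e2 : (δ : ℝ) * (P / δ / L ^ (A1 + 2)) = P / L ^ (A1 + 2) := by
      field_simp
    rw [e2]
    calc 64 * C ^ 2 / n * ((P / L ^ (A1 + 2)) ^ 2 *
          ((2 * V + 2 * (C * n) * (1 + Real.log (C * n))) * U.card))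
        ≤ 64 * C ^ 2 / n * ((P / L ^ (A1 + 2)) ^ 2 * ((6 * C * n * L) * U.card)) := by
          refine mul_le_mul_of_nonneg_left (mul_le_mul_of_nonneg_left
            (mul_le_mul_of_nonneg_right h5 hU0) (by positivity)) (by positivity)
      _ = P ^ 2 * (384 * C ^ 3 * U.card / L ^ (2 * A1 + 3)) := by
          have e3 : L ^ (2 * A1 + 3) * L = (L ^ (A1 + 2)) ^ 2 := by
            rw [← pow_succ, ← pow_mul]
            congr 1
            ring
          rw [div_pow, ← e3]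
          field_simp
          ring
      _ ≤ P ^ 2 * (U.card / L ^ A1) := by
          refine mul_le_mul_of_nonneg_left ?_ (by positivity)
          rw [div_le_div_iff₀ (by positivity) (by positivity)]
          have h10 : 384 * C ^ 3 * L ^ A1 ≤ L ^ (2 * A1 + 3) := by
            calc 384 * C ^ 3 * L ^ A1 ≤ L * L ^ A1 :=
                  mul_le_mul_of_nonneg_right (by linarith only [h0, h0t, ht, hL, hlogC, hC3]) (by positivity)
              _ = L ^ (A1 + 1) := by ring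
              _ ≤ L ^ (2 * A1 + 3) := pow_le_pow_right₀ hL1 (by omega)
          calc 384 * C ^ 3 * U.card * L ^ A1 = U.card * (384 * C ^ 3 * L ^ A1) := by ring
            _ ≤ U.card * L ^ (2 * A1 + 3) := mul_le_mul_of_nonneg_left h10 hU0

end Pool.Agent.H53.MDB

end

section

/-!
# MDB BoostF: the combinatorial theorem with the boost

Proof.  Given `C, C0`.  `L = log N`, `Q = exp(L^t2)`; for large `N`: `200 C^10 ≤ Q ≤ P` (`t2 < t`), `8 Q^6 ≤ N^(1/4) ≤ n` (`t2 < 1`), `L ≥ 100 C^3`, `24 C^2 L^(2 C0) · 2 ≤ Q^3`.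
(1) `cover`: `r, U, s, d, b, T`, `Cov C n Q η α r U s d b T`; `R1 = R0.filter (t.1 ∈ U)`, `|R1| ≥ n P/(2 L^C0)`, `Rel C n P (η P) U G0 α β R1` (`rngF` from `U ⊆ F0`).
(2) `pairs`: the set `A` of the `q ∈ QS C P U` with `nz (p α_i - p' α_i') ≤ 2 η P` has `≥ |R1|^2/(C n (2C+1)) ≥ n P^2/(12 C^2 L^(2 C0))` elements (`2C+1 ≤ 3C`).
(3) `far`: the `q ∈ A` with `|T (s i) - T (s i')| > Z := Q^12 η n` are `≤ n P^2/Q^3 ≤ n P^2/(24 C^2 L^(2C0))`.  So the near ones (`≤ Z`) are `≥ n P^2/(24 C^2 L^(2C0))`.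
(4) `near`: for a near `q`: `d (s i) = d (s i')`, `p b (s i) ≡ p' b (s i') mod d (s i)`.  `split Z U (fun i => d (s i)) (fun i => T (s i))`: `K`; with `U_k = U.filter (...)`: every near `q` is in `NB C P U_k k.2 bb` for some `k ∈ K`, `bb i = b (s i)`.  So
`∑_{k ∈ K} |NB_k| ≥ n P^2/(24 C^2 L^(2 C0))`, `∑_k |U_k| ≤ 2 |U| ≤ 2 C n`.
(5) `boostl` with `A1 = 2 C0 + 1` (for `k ∈ K`: `δ = k.2 = d (s i)` for some `i ∈ U`, so `1 ≤ δ ≤ Q`; for `i ∈ U_k`: `b (s i)` is prime to `d (s i) = δ`): `∑_k |U_k|/L^(2C0+1) ≤ 2 C n/L^(2C0+1) ≤ n/(48 C^2 L^(2C0))`, so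
`∑_k L^T1 |U_k|^2/(n δ_k) ≥ n/(48 C^2 L^(2 C0))`, and as `∑_k |U_k| ≤ 2 C n` some `k` has `L^T1 |U_k|/(n δ_k) ≥ 1/(96 C^3 L^(2 C0))`, i.e. `|U_k| ≥ δ_k n/L^(C1')`, `C1' = 2 C0 + T1 + 1`.
(6) `δ := δ_k ≤ |U_k| L^C1'/n ≤ C L^C1' ≤ L^(C1'+1)`.  Pigeonhole: some `c < δ` is `bb i % δ` for `≥ |U_k|/δ ≥ n/L^C1'` elements `i ∈ U_k`: they form `F1`.  Answer: `d = δ`, `b = c`, `T = k.1 Z`, `C1 = C1' + 1`.
`F1` is nonempty; for `i ∈ F1`: `|T (s i) - T| ≤ 2 Z`, so `|T| ≤ Q η n^2 + 2 Q^12 η n ≤ Q^20 η n^2`; `α_i - c/δ - T/i = (α_i - b(s i)/δ - T(s i)/i) + (b (s i) - c)/δ + (T (s i) - T)/i`, the middle term is an integer,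
`nz ≤ Q η + 2 Q^12 η n C/n ≤ Q^13 η`.
-/

set_option autoImplicit false

namespace Pool.Agent.H53.MDB

open Finset
open Pool.Agent.H53.MID (nz Rel)
open Pool.Agent.H53.MIX (VKe CombX)

open Filter Asymptotics in
/-- large `N` -/
private theorem BoostF_large (t t2 : ℝ) (h2 : 0 < t2) (h2t : t2 < t) (ht : t < 1) (C : ℝ) (hC : 1 ≤ C) (C0 : ℕ) :
    ∃ N1 : ℕ, ∀ N : ℕ, N1 ≤ N → 192 * C ^ 3 ≤ Real.log N ∧ 200 * C ^ 10 ≤ Real.exp (Real.log N ^ t2) ∧
      24 * C ^ 2 * Real.log N ^ (2 * C0) ≤ Real.exp (Real.log N ^ t2) ^ 3 ∧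
      8 * Real.exp (Real.log N ^ t2) ^ 6 ≤ (N : ℝ) ^ (1 / 4 : ℝ) ∧
      Real.exp (Real.log N ^ t2) ≤ Real.exp (Real.log N ^ t) ∧ 1 ≤ N := by
  have hlog : Tendsto (fun N : ℕ => Real.log (N : ℝ)) atTop atTop :=
    Real.tendsto_log_atTop.comp tendsto_natCast_atTop_atTop
  have hpow : Tendsto (fun N : ℕ => Real.log (N : ℝ) ^ t2) atTop atTop := (tendsto_rpow_atTop h2).comp hlog
  have hexp : Tendsto (fun N : ℕ => Real.exp (Real.log (N : ℝ) ^ t2)) atTop atTop := Real.tendsto_exp_atTop.comp hpow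
  have hC2 : (0 : ℝ) < 1 / (24 * C ^ 2) := by positivity
  have h1 := hlog.eventually_ge_atTop (192 * C ^ 3)
  have h3 := hexp.eventually_ge_atTop (200 * C ^ 10)
  have h6 := hpow.eventually ((isLittleO_rpow_exp_atTop ((2 * C0 : ℕ) / t2 : ℝ)).bound hC2)
  have h7 : Tendsto (fun N : ℕ => Real.log (N : ℝ) ^ (1 - t2)) atTop atTop :=
    (tendsto_rpow_atTop (by linarith)).comp hlog
  have h8 := h7.eventually_ge_atTop 48
  obtain ⟨N1, hN1⟩ := eventually_atTop.1 (h1.and (h3.and (h6.and (h8.and (eventually_ge_atTop 1)))))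
  refine ⟨N1, fun N hN => ?_⟩
  obtain ⟨a1, a3, a6, a8, a9⟩ := hN1 N hN
  obtain ⟨L, hL⟩ : ∃ L, L = Real.log (N : ℝ) := ⟨_, rfl⟩
  rw [← hL] at a1 a3 a6 a8 ⊢
  have hC3 : (1 : ℝ) ≤ C ^ 3 := one_le_pow₀ hC
  have hL1 : (192 : ℝ) ≤ L := by linarith
  have hL0 : (0 : ℝ) < L := by linarith
  have hQ1 : (1 : ℝ) ≤ Real.exp (L ^ t2) := Real.one_le_exp (Real.rpow_nonneg hL0.le _)
  refine ⟨a1, a3, ?_, ?_, ?_, a9⟩
  · have e1 : (L ^ t2) ^ ((2 * C0 : ℕ) / t2 : ℝ) = L ^ (2 * C0) := by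
      rw [← Real.rpow_mul hL0.le, mul_div_cancel₀ _ h2.ne', Real.rpow_natCast]
    rw [e1, Real.norm_of_nonneg (pow_nonneg hL0.le _), Real.norm_of_nonneg (Real.exp_pos _).le] at a6
    have e2 : 24 * C ^ 2 * L ^ (2 * C0) ≤ Real.exp (L ^ t2) := by
      have e3 : (0 : ℝ) < 24 * C ^ 2 := by positivity
      calc 24 * C ^ 2 * L ^ (2 * C0) ≤ 24 * C ^ 2 * (1 / (24 * C ^ 2) * Real.exp (L ^ t2)) :=
            mul_le_mul_of_nonneg_left a6 e3.le
        _ = Real.exp (L ^ t2) := by field_simp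
    exact e2.trans (le_self_pow₀ hQ1 (by norm_num))
  · have e1 : (N : ℝ) ^ (1 / 4 : ℝ) = Real.exp (L / 8) * Real.exp (L / 8) := by
      have hN0 : (0 : ℝ) < N := by exact_mod_cast a9
      rw [Real.rpow_def_of_pos hN0, ← hL, ← Real.exp_add]
      congr 1
      ring
    have e2 : (8 : ℝ) ≤ Real.exp (L / 8) := by
      have := Real.add_one_le_exp (L / 8)
      linarith
    have e3 : L ^ t2 * 48 ≤ L := by
      have e4 : L ^ t2 * L ^ (1 - t2) = L := by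
        rw [← Real.rpow_add hL0]
        have : t2 + (1 - t2) = 1 := by ring
        rw [this, Real.rpow_one]
      calc L ^ t2 * 48 ≤ L ^ t2 * L ^ (1 - t2) := mul_le_mul_of_nonneg_left a8 (Real.rpow_nonneg hL0.le _)
        _ = L := e4
    have e5 : Real.exp (L ^ t2) ^ 6 ≤ Real.exp (L / 8) := by
      rw [← Real.exp_nat_mul]
      apply Real.exp_le_exp.2
      push_cast
      linarith
    rw [e1]
    exact mul_le_mul e2 e5 (by positivity) (by positivity)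
  · apply Real.exp_le_exp.2
    exact Real.rpow_le_rpow_of_exponent_le (by linarith) h2t.le

/-- selection of a class -/
private theorem BoostF_sel {ι : Type} (K : Finset ι) (u δ : ι → ℝ) (C n L : ℝ) (C0 T1 : ℕ) (hC : 1 ≤ C) (hn : 0 < n)
    (hL : 192 * C ^ 3 ≤ L) (hu : ∀ k ∈ K, 0 ≤ u k) (hδ : ∀ k ∈ K, 0 < δ k) (hs : ∑ k ∈ K, u k ≤ 2 * (C * n))
    (h : n / (24 * C ^ 2 * L ^ (2 * C0)) ≤ ∑ k ∈ K, (L ^ T1 * u k ^ 2 / (n * δ k) + u k / L ^ (2 * C0 + 1))) :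
    ∃ k ∈ K, n * δ k ≤ u k * L ^ (2 * C0 + T1 + 1) := by
  by_contra hcon
  push Not at hcon
  have hC3 : (1 : ℝ) ≤ C ^ 3 := one_le_pow₀ hC
  have hL0 : (0 : ℝ) < L := by linarith
  have h1 : ∀ k ∈ K, L ^ T1 * u k ^ 2 / (n * δ k) + u k / L ^ (2 * C0 + 1) ≤ 2 * u k / L ^ (2 * C0 + 1) := by
    intro k hk
    have h2 : 0 < n * δ k := mul_pos hn (hδ k hk)
    have h3 : L ^ T1 * u k ^ 2 / (n * δ k) ≤ u k / L ^ (2 * C0 + 1) := by
      rw [div_le_div_iff₀ h2 (pow_pos hL0 _)]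
      have h4 := mul_le_mul_of_nonneg_left (hcon k hk).le (hu k hk)
      calc L ^ T1 * u k ^ 2 * L ^ (2 * C0 + 1) = u k * (u k * L ^ (2 * C0 + T1 + 1)) := by ring
        _ ≤ u k * (n * δ k) := h4
    have h5 : 2 * u k / L ^ (2 * C0 + 1) = u k / L ^ (2 * C0 + 1) + u k / L ^ (2 * C0 + 1) := by ring
    rw [h5]
    exact add_le_add_left h3 _
  have h6 := h.trans (sum_le_sum h1)
  have h7 : ∑ k ∈ K, 2 * u k / L ^ (2 * C0 + 1) = 2 * (∑ k ∈ K, u k) / L ^ (2 * C0 + 1) := by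
    rw [mul_sum, sum_div]
  rw [h7] at h6
  have h8 : 2 * (∑ k ∈ K, u k) / L ^ (2 * C0 + 1) ≤ 4 * (C * n) / L ^ (2 * C0 + 1) := by
    apply div_le_div_of_nonneg_right _ (pow_nonneg hL0.le _)
    linarith
  have h9 := h6.trans h8
  have hLp : (0 : ℝ) < L ^ (2 * C0) := pow_pos hL0 _
  rw [div_le_div_iff₀ (by positivity) (by positivity), pow_succ L (2 * C0)] at h9
  have h10 : n * L ≤ n * (96 * C ^ 3) := by
    have h11 : (n * L) * L ^ (2 * C0) ≤ (n * (96 * C ^ 3)) * L ^ (2 * C0) := by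
      calc (n * L) * L ^ (2 * C0) = n * (L ^ (2 * C0) * L) := by ring
        _ ≤ 4 * (C * n) * (24 * C ^ 2 * L ^ (2 * C0)) := h9
        _ = (n * (96 * C ^ 3)) * L ^ (2 * C0) := by ring
    exact le_of_mul_le_mul_right h11 hLp
  have h12 := le_of_mul_le_mul_left h10 hn
  linarith

open Classical in
/-- many near quadruples -/
private theorem BoostF_near (C : ℝ) (hC : 1 ≤ C) (n P : ℕ) (Q η L : ℝ) (C0 : ℕ) (α β : ℕ → ℝ) (r : ℕ) (U G0 : Finset ℕ)
    (R1 : Finset (ℕ × ℕ × ℕ)) (s d b : ℕ → ℕ) (T : ℕ → ℝ) (hc : Cov C n Q η α r U s d b T)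
    (hR : Rel C n P (η * P) U G0 α β R1) (hn : 1 ≤ n) (hP : 1 ≤ P) (hQ : 200 * C ^ 10 ≤ Q) (hQn : 8 * Q ^ 6 ≤ n)
    (hη : 0 < η) (hηQ : η * Q ^ 60 * (P : ℝ) ^ 3 ≤ 1) (hL : 1 ≤ L) (hQL : 24 * C ^ 2 * L ^ (2 * C0) ≤ Q ^ 3)
    (hcard : n * P / L ^ C0 / 2 ≤ (R1.card : ℝ)) :
    (n : ℝ) * P ^ 2 / (24 * C ^ 2 * L ^ (2 * C0)) ≤ (((QS C P U).filter (fun q =>
      nz (q.1.2 * α q.1.1 - q.2.2 * α q.2.1) ≤ 2 * η * P ∧ |T (s q.1.1) - T (s q.2.1)| ≤ Q ^ 12 * η * n)).card : ℝ) := by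
  have hn0 : (0 : ℝ) < n := by exact_mod_cast hn
  have hP0 : (0 : ℝ) < P := by exact_mod_cast hP
  have hL0 : (0 : ℝ) < L := by linarith
  have hLc : (0 : ℝ) < L ^ C0 := pow_pos hL0 _
  have hp := pairs C hC n P η U G0 α β R1 hR hn hP
  have hf := far C hC n P Q η α r U s d b T hc hP hQ hQn hη hηQ
  set A := (QS C P U).filter (fun q => nz (q.1.2 * α q.1.1 - q.2.2 * α q.2.1) ≤ 2 * η * P) with hA
  have hsplit : (A.card : ℝ) = (((QS C P U).filter (fun q =>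
      nz (q.1.2 * α q.1.1 - q.2.2 * α q.2.1) ≤ 2 * η * P ∧ |T (s q.1.1) - T (s q.2.1)| ≤ Q ^ 12 * η * n)).card : ℝ) +
      (((QS C P U).filter (fun q => nz (q.1.2 * α q.1.1 - q.2.2 * α q.2.1) ≤ 2 * η * P ∧
      Q ^ 12 * η * n < |T (s q.1.1) - T (s q.2.1)|)).card : ℝ) := by
    have h1 := Finset.card_filter_add_card_filter_not (s := A)
      (fun q : (ℕ × ℕ) × (ℕ × ℕ) => |T (s q.1.1) - T (s q.2.1)| ≤ Q ^ 12 * η * n)
    rw [hA, Finset.filter_filter, Finset.filter_filter] at h1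
    simp only [not_le] at h1
    rw [hA, ← h1]
    push_cast
    rfl
  have hA1 : (n : ℝ) * P ^ 2 / (12 * C ^ 2 * L ^ (2 * C0)) ≤ A.card := by
    have h1 : ((n : ℝ) * P / L ^ C0 / 2) ^ 2 ≤ (R1.card : ℝ) ^ 2 :=
      pow_le_pow_left₀ (by positivity) hcard 2
    have h2 : C * n * (2 * C + 1) * (A.card : ℝ) ≤ C * n * (3 * C) * A.card := by
      apply mul_le_mul_of_nonneg_right _ (Nat.cast_nonneg _)
      apply mul_le_mul_of_nonneg_left _ (by positivity)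
      linarith
    have h3 := (h1.trans hp).trans h2
    have h4 : ((n : ℝ) * P / L ^ C0 / 2) ^ 2 = (3 * C ^ 2 * n) * (n * P ^ 2 / (12 * C ^ 2 * L ^ (2 * C0))) := by
      have h5 : L ^ (2 * C0) = (L ^ C0) ^ 2 := by rw [← pow_mul, mul_comm]
      rw [h5]
      have hC0 : C ≠ 0 := by positivity
      field_simp
      ring
    have h6 : C * n * (3 * C) * (A.card : ℝ) = (3 * C ^ 2 * n) * A.card := by ring
    rw [h4, h6] at h3
    exact le_of_mul_le_mul_left h3 (by positivity)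
  have hF : (n : ℝ) * P ^ 2 / Q ^ 3 ≤ n * P ^ 2 / (24 * C ^ 2 * L ^ (2 * C0)) := by
    apply div_le_div_of_nonneg_left (by positivity) (by positivity) hQL
  have hhalf : (n : ℝ) * P ^ 2 / (12 * C ^ 2 * L ^ (2 * C0)) =
      n * P ^ 2 / (24 * C ^ 2 * L ^ (2 * C0)) + n * P ^ 2 / (24 * C ^ 2 * L ^ (2 * C0)) := by
    have hC0 : C ≠ 0 := by positivity
    field_simp
    norm_num
  have hf2 := hf.trans hF
  rw [hsplit, hhalf] at hA1
  linarith

theorem comb_x (t0 t t2 : ℝ) (h0 : 0 < t0) (h0t : t0 < t) (h2 : 0 < t2) (h2t : t2 < t) (ht : t < 1) (hV : VKe t0)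
    (hW : CombWk t t2) : CombX t t2 := by
  intro C hC C0
  obtain ⟨Na, hNa⟩ := cover t t2 hW C hC C0
  obtain ⟨T1, Nb, hNb⟩ := boostl t0 t t2 h0 h0t h2 h2t ht hV C hC (2 * C0 + 1)
  obtain ⟨Nc, hNc⟩ := BoostF_large t t2 h2 h2t ht C hC C0
  refine ⟨2 * C0 + T1 + 2, max Na (max Nb Nc), fun N hN n P η F0 G0 α β R0 hP hPN hnN hn hη hηQ hR hcard => ?_⟩
  classical
  obtain ⟨l1, l2, l3, l4, l5, l6⟩ := hNc N ((le_max_right _ _).trans ((le_max_right _ _).trans hN))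
  have hNb' := hNb N ((le_max_left _ _).trans ((le_max_right _ _).trans hN))
  have hNa' := hNa N ((le_max_left _ _).trans hN)
  clear hNa hNb hNc
  obtain ⟨L, hL⟩ : ∃ L, L = Real.log (N : ℝ) := ⟨_, rfl⟩
  obtain ⟨Q, hQd⟩ : ∃ Q, Q = Real.exp (L ^ t2) := ⟨_, rfl⟩
  rw [← hL] at l1 l2 l3 l4 l5 hP hηQ hcard hNa' hNb' ⊢
  rw [← hQd] at l2 l3 l4 l5 hηQ hNa' hNb' ⊢
  have hC3 : (1 : ℝ) ≤ C ^ 3 := one_le_pow₀ hC
  have hCC3 : C ≤ C ^ 3 := le_self_pow₀ hC (by norm_num)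
  have hC10 : (1 : ℝ) ≤ C ^ 10 := one_le_pow₀ hC
  have hCC10 : C ≤ C ^ 10 := le_self_pow₀ hC (by norm_num)
  have hL1 : (1 : ℝ) ≤ L := by linarith
  have hL0 : (0 : ℝ) < L := by linarith
  have hQ1 : (1 : ℝ) ≤ Q := by linarith
  have hQ0 : (0 : ℝ) < Q := by linarith
  have hC0' : (0 : ℝ) < C := by linarith
  have hNn1 : (1 : ℝ) ≤ (N : ℝ) ^ (1 / 4 : ℝ) := by
    have : (1 : ℝ) ≤ Q ^ 6 := one_le_pow₀ hQ1
    linarith
  have hn1 : 1 ≤ n := by
    have : (1 : ℝ) ≤ n := hNn1.trans hn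
    exact_mod_cast this
  have hn0 : (0 : ℝ) < n := by exact_mod_cast hn1
  have hQP : Q ≤ P := l5.trans hP
  have hP1 : 1 ≤ P := by
    have : (1 : ℝ) ≤ P := hQ1.trans hQP
    exact_mod_cast this
  have hP0 : (0 : ℝ) < P := by exact_mod_cast hP1
  have hQn : 8 * Q ^ 6 ≤ n := l4.trans hn
  have hηQ1 : η * Q * (P : ℝ) ^ 3 ≤ 1 := by
    refine le_trans ?_ hηQ
    apply mul_le_mul_of_nonneg_right _ (by positivity)
    exact mul_le_mul_of_nonneg_left (le_self_pow₀ hQ1 (by norm_num)) hη.le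
  -- (1)
  obtain ⟨r, U, s, d, b, T, hUF, hcov, hR1c⟩ := hNa' n P η F0 G0 α β R0 hP hPN hn1 hnN hη hηQ1 hR hcard
  have hRel1 : Rel C n P (η * P) U G0 α β (R0.filter (fun x => x.1 ∈ U)) :=
    { memF := fun x hx => (Finset.mem_filter.1 hx).2
      memF' := fun x hx => hR.memF' x (Finset.mem_filter.1 hx).1
      prime := fun x hx => hR.prime x (Finset.mem_filter.1 hx).1
      pos := fun x hx => hR.pos x (Finset.mem_filter.1 hx).1
      freq := fun x hx => hR.freq x (Finset.mem_filter.1 hx).1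
      rngF := fun K hK => hR.rngF K (hUF hK)
      rngF' := hR.rngF' }
  have hcard1 : (n : ℝ) * P / L ^ C0 / 2 ≤ ((R0.filter (fun x => x.1 ∈ U)).card : ℝ) := by
    refine le_trans ?_ hR1c
    linarith
  -- (2), (3)
  have hnear := BoostF_near C hC n P Q η L C0 α β r U G0 _ s d b T hcov hRel1 hn1 hP1 l2 hQn hη hηQ hL1 l3 hcard1
  -- (4)
  have hZ : 0 < Q ^ 12 * η * n := by positivity
  obtain ⟨Z, hZd⟩ : ∃ Z, Z = Q ^ 12 * η * n := ⟨_, rfl⟩
  rw [← hZd] at hnear hZ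
  obtain ⟨K, hK1, hK2, hK3⟩ := split Z hZ U (fun i => d (s i)) (fun i => T (s i))
  let Uk : ℤ × ℕ → Finset ℕ := fun k =>
    U.filter (fun i => d (s i) = k.2 ∧ k.1 * Z ≤ T (s i) ∧ T (s i) < (k.1 + 2) * Z)
  have hUk : ∀ k i, i ∈ Uk k ↔ i ∈ U ∧ d (s i) = k.2 ∧ k.1 * Z ≤ T (s i) ∧ T (s i) < (k.1 + 2) * Z := by
    intro k i
    exact Finset.mem_filter
  have hsub : (QS C P U).filter (fun q =>
      nz (q.1.2 * α q.1.1 - q.2.2 * α q.2.1) ≤ 2 * η * P ∧ |T (s q.1.1) - T (s q.2.1)| ≤ Z) ⊆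
      K.biUnion (fun k => NB C P (Uk k) k.2 (fun i => b (s i))) := by
    intro q hq
    rw [Finset.mem_filter] at hq
    obtain ⟨hq1, hq2, hq3⟩ := hq
    have hnr := near C hC n P Q η α r U s d b T hcov hn1 hP1 l2 hQP hη.le hηQ q hq1 hq2 (hZd ▸ hq3)
    rw [mem_QS] at hq1
    obtain ⟨m1, m2, m3, m4, m5, m6, m7, m8, m9⟩ := hq1
    obtain ⟨k, hk, k1, k2, k3, k4, k5⟩ := hK3 _ m1 _ m5 hnr.1 hq3
    rw [Finset.mem_biUnion]
    refine ⟨k, hk, ?_⟩
    rw [mem_NB, mem_QS, hUk, hUk]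
    refine ⟨⟨⟨m1, k1, k2, k3⟩, m2, m3, m4, ⟨m5, ?_, k4, k5⟩, m6, m7, m8, m9⟩, ?_⟩
    · rw [← hnr.1]
      exact k1
    · have := hnr.2
      rw [k1] at this
      exact this
  have hcardsum : (n : ℝ) * P ^ 2 / (24 * C ^ 2 * L ^ (2 * C0)) ≤
      ∑ k ∈ K, ((NB C P (Uk k) k.2 (fun i => b (s i))).card : ℝ) := by
    refine hnear.trans ?_
    have h1 := (Finset.card_le_card hsub).trans Finset.card_biUnion_le
    exact_mod_cast h1
  -- (5)
  have hδ1 : ∀ k ∈ K, 1 ≤ k.2 ∧ (k.2 : ℝ) ≤ Q := by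
    intro k hk
    obtain ⟨i, hi, hi2⟩ := hK1 k hk
    have h1 := hcov.dat (s i) (hcov.lab i hi)
    rw [← hi2]
    exact ⟨h1.1, h1.2.1⟩
  have hboost : ∀ k ∈ K, ((NB C P (Uk k) k.2 (fun i => b (s i))).card : ℝ) ≤
      P ^ 2 * (L ^ T1 * (Uk k).card ^ 2 / (n * k.2) + (Uk k).card / L ^ (2 * C0 + 1)) := by
    intro k hk
    refine hNb' n P k.2 (Uk k) (fun i => b (s i)) hP hPN hn hnN (hδ1 k hk).1 (hδ1 k hk).2 fun i hi => ?_
    rw [hUk] at hi
    have h1 := hcov.dat (s i) (hcov.lab i hi.1)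
    refine ⟨(hcov.rng i hi.1).1, (hcov.rng i hi.1).2, ?_⟩
    rw [← hi.2.1]
    exact h1.2.2.1
  have hsel : (n : ℝ) / (24 * C ^ 2 * L ^ (2 * C0)) ≤
      ∑ k ∈ K, (L ^ T1 * ((Uk k).card : ℝ) ^ 2 / (n * k.2) + (Uk k).card / L ^ (2 * C0 + 1)) := by
    have h1 := hcardsum.trans (sum_le_sum hboost)
    rw [← mul_sum] at h1
    have h2 : (n : ℝ) * P ^ 2 / (24 * C ^ 2 * L ^ (2 * C0)) = P ^ 2 * (n / (24 * C ^ 2 * L ^ (2 * C0))) := by ring
    rw [h2] at h1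
    exact le_of_mul_le_mul_left h1 (by positivity)
  have hUcard : (U.card : ℝ) ≤ C * n := by
    have h1 : U ⊆ Finset.Icc 1 ⌊C * n⌋₊ := by
      intro i hi
      have h2 := hcov.rng i hi
      rw [Finset.mem_Icc]
      constructor
      · have : (0 : ℝ) < i := lt_of_lt_of_le (by positivity) h2.1
        exact_mod_cast this
      · exact Nat.le_floor h2.2
    have h3 := Finset.card_le_card h1
    rw [Nat.card_Icc, Nat.add_sub_cancel] at h3
    have h4 : (U.card : ℝ) ≤ ⌊C * n⌋₊ := by exact_mod_cast h3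
    exact h4.trans (Nat.floor_le (by positivity))
  obtain ⟨k, hkK, hk⟩ := BoostF_sel K (fun k => ((Uk k).card : ℝ)) (fun k => (k.2 : ℝ)) C n L C0 T1 hC hn0 l1
    (fun k _ => Nat.cast_nonneg _) (fun k hk => by
      have := (hδ1 k hk).1
      exact_mod_cast this) (by
      refine hK2.trans ?_
      linarith) hsel
  -- (6)
  have hδk := hδ1 k hkK
  have hδ0 : (0 : ℝ) < k.2 := by exact_mod_cast hδk.1
  have hUkU : Uk k ⊆ U := Finset.filter_subset _ _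
  have hUkc : ((Uk k).card : ℝ) ≤ C * n := by
    have : ((Uk k).card : ℝ) ≤ U.card := by exact_mod_cast Finset.card_le_card hUkU
    exact this.trans hUcard
  have hCL : C ≤ L := by linarith
  have hLe : (0 : ℝ) < L ^ (2 * C0 + T1 + 1) := pow_pos hL0 _
  have hLe1 : L ^ (2 * C0 + T1 + 1) ≤ L ^ (2 * C0 + T1 + 2) := pow_le_pow_right₀ hL1 (by omega)
  have hδL : (k.2 : ℝ) ≤ L ^ (2 * C0 + T1 + 2) := by
    have h1 : (n : ℝ) * k.2 ≤ n * (C * L ^ (2 * C0 + T1 + 1)) := by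
      refine hk.trans ?_
      calc ((Uk k).card : ℝ) * L ^ (2 * C0 + T1 + 1) ≤ C * n * L ^ (2 * C0 + T1 + 1) :=
            mul_le_mul_of_nonneg_right hUkc hLe.le
        _ = n * (C * L ^ (2 * C0 + T1 + 1)) := by ring
    have h2 := le_of_mul_le_mul_left h1 hn0
    refine h2.trans ?_
    calc C * L ^ (2 * C0 + T1 + 1) ≤ L * L ^ (2 * C0 + T1 + 1) := mul_le_mul_of_nonneg_right hCL hLe.le
      _ = L ^ (2 * C0 + T1 + 2) := by ring
  obtain ⟨c, hc1, hc2⟩ := Finset.exists_le_card_fiber_of_nsmul_le_card_of_maps_to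
    (s := Uk k) (t := range k.2) (f := fun i => b (s i) % k.2) (b := (n : ℝ) / L ^ (2 * C0 + T1 + 1))
    (fun i _ => Finset.mem_range.2 (Nat.mod_lt _ hδk.1)) ⟨0, Finset.mem_range.2 hδk.1⟩ (by
      rw [Finset.card_range, nsmul_eq_mul, mul_div_assoc', div_le_iff₀ hLe]
      calc (k.2 : ℝ) * n = n * k.2 := by ring
        _ ≤ (Uk k).card * L ^ (2 * C0 + T1 + 1) := hk)
  have hF1m : ∀ i ∈ (Uk k).filter (fun i => b (s i) % k.2 = c),
      i ∈ U ∧ d (s i) = k.2 ∧ |T (s i) - k.1 * Z| ≤ 2 * Z ∧ b (s i) % k.2 = c := by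
    intro i hi
    rw [Finset.mem_filter, hUk] at hi
    obtain ⟨⟨i1, i2, i3, i4⟩, i5⟩ := hi
    refine ⟨i1, i2, ?_, i5⟩
    rw [abs_le]
    constructor
    · linarith
    · linarith
  refine ⟨k.2, c, k.1 * Z, (Uk k).filter (fun i => b (s i) % k.2 = c), hδk.1, hδL, ?_, ?_, ?_, ?_⟩
  · -- the bound of `T`
    have hne : ((Uk k).filter (fun i => b (s i) % k.2 = c)).Nonempty := by
      rw [← Finset.card_pos]
      have : (0 : ℝ) < (((Uk k).filter (fun i => b (s i) % k.2 = c)).card : ℝ) := lt_of_lt_of_le (by positivity) hc2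
      exact_mod_cast this
    obtain ⟨i, hi⟩ := hne
    obtain ⟨i1, i2, i3, i4⟩ := hF1m i hi
    have h1 := (hcov.dat (s i) (hcov.lab i i1)).2.2.2
    have h2 : |(k.1 : ℝ) * Z| ≤ |T (s i)| + |T (s i) - k.1 * Z| := by
      have h3 : (k.1 : ℝ) * Z = T (s i) - (T (s i) - k.1 * Z) := by ring
      calc |(k.1 : ℝ) * Z| = |T (s i) - (T (s i) - k.1 * Z)| := by rw [← h3]
        _ ≤ |T (s i)| + |T (s i) - k.1 * Z| := abs_sub _ _
    have hn2 : (n : ℝ) ≤ (n : ℝ) ^ 2 := le_self_pow₀ (by exact_mod_cast hn1) (by norm_num)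
    have h4 : 2 * Z ≤ 2 * Q ^ 12 * η * (n : ℝ) ^ 2 := by
      rw [hZd]
      calc 2 * (Q ^ 12 * η * n) = 2 * Q ^ 12 * η * n := by ring
        _ ≤ 2 * Q ^ 12 * η * (n : ℝ) ^ 2 := mul_le_mul_of_nonneg_left hn2 (by positivity)
    have h5 : Q + 2 * Q ^ 12 ≤ Q ^ 20 := by
      have h6 : Q ≤ Q ^ 12 := le_self_pow₀ hQ1 (by norm_num)
      have h7 : Q ^ 12 * 3 ≤ Q ^ 12 * Q ^ 8 := by
        apply mul_le_mul_of_nonneg_left _ (by positivity)
        have : Q ≤ Q ^ 8 := le_self_pow₀ hQ1 (by norm_num)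
        linarith
      calc Q + 2 * Q ^ 12 ≤ Q ^ 12 * 3 := by linarith
        _ ≤ Q ^ 12 * Q ^ 8 := h7
        _ = Q ^ 20 := by ring
    calc |(k.1 : ℝ) * Z| ≤ Q * η * (n : ℝ) ^ 2 + 2 * Q ^ 12 * η * (n : ℝ) ^ 2 := by linarith
      _ = (Q + 2 * Q ^ 12) * (η * (n : ℝ) ^ 2) := by ring
      _ ≤ Q ^ 20 * (η * (n : ℝ) ^ 2) := mul_le_mul_of_nonneg_right h5 (by positivity)
      _ = Q ^ 20 * η * (n : ℝ) ^ 2 := by ring
  · exact (Finset.filter_subset _ _).trans (hUkU.trans hUF)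
  · refine le_trans ?_ hc2
    exact div_le_div_of_nonneg_left hn0.le hLe hLe1
  · intro i hi
    obtain ⟨i1, i2, i3, i4⟩ := hF1m i hi
    have hfr := hcov.frq i i1
    rw [i2] at hfr
    have hir := (hcov.rng i i1).1
    have hi0 : (0 : ℝ) < i := lt_of_lt_of_le (by positivity) hir
    obtain ⟨m, hdm⟩ : ∃ m : ℕ, (b (s i) : ℝ) = k.2 * (m : ℝ) + c := by
      have := Nat.div_add_mod (b (s i)) k.2
      rw [i4] at this
      exact ⟨b (s i) / k.2, by exact_mod_cast this.symm⟩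
    have h1 : α i - (c : ℝ) / k.2 - k.1 * Z / i = (α i - b (s i) / k.2 - T (s i) / i + (T (s i) - k.1 * Z) / i) +
        ((m : ℤ) : ℝ) := by
      have h2 : (b (s i) : ℝ) / k.2 = (m : ℝ) + c / k.2 := by
        rw [hdm]
        field_simp
      rw [h2, sub_div]
      push_cast
      ring
    rw [h1, Pool.Agent.H53.MID.nz_add_int]
    refine (Pool.Agent.H53.MID.nz_add _ _).trans ?_
    have h3 : nz ((T (s i) - k.1 * Z) / i) ≤ 2 * C * Q ^ 12 * η := by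
      refine (Pool.Agent.H53.MID.nz_le_abs _).trans ?_
      rw [abs_div, abs_of_pos hi0, div_le_iff₀ hi0]
      refine i3.trans ?_
      rw [hZd]
      rw [div_le_iff₀ hC0'] at hir
      calc 2 * (Q ^ 12 * η * n) = 2 * Q ^ 12 * η * n := by ring
        _ ≤ 2 * Q ^ 12 * η * (i * C) := mul_le_mul_of_nonneg_left hir (by positivity)
        _ = 2 * C * Q ^ 12 * η * i := by ring
    have h4 : Q + 2 * C * Q ^ 12 ≤ Q ^ 13 := by
      have h6 : Q ≤ Q ^ 12 := le_self_pow₀ hQ1 (by norm_num)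
      calc Q + 2 * C * Q ^ 12 ≤ Q ^ 12 + 2 * C * Q ^ 12 := by linarith
        _ = Q ^ 12 * (1 + 2 * C) := by ring
        _ ≤ Q ^ 12 * Q := mul_le_mul_of_nonneg_left (by linarith) (by positivity)
        _ = Q ^ 13 := by ring
    calc nz (α i - b (s i) / k.2 - T (s i) / i) + nz ((T (s i) - k.1 * Z) / i)
        ≤ Q * η + 2 * C * Q ^ 12 * η := add_le_add hfr h3
      _ = (Q + 2 * C * Q ^ 12) * η := by ring
      _ ≤ Q ^ 13 * η := mul_le_mul_of_nonneg_right h4 hη.le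

end Pool.Agent.H53.MDB

end
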