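import Pool.Agent.H43.PJ.H91.EHA.SwK1
import Pool.Agent.H43.PJ.M22
import Pool.Agent.H43.PJ.M24
import Pool.Agent.H43.PJ.M26

/-! The parts of this file: H53.MID.SwH, H76.VKT.VkClassW, H76.VKT.Main, H74.MDX.CombW, H53.MDB.Final. -/

section

/-!
# MID SwH: the hypothesis `SWp` holds (needs the compiled closure of `H91/EHA/SwK3`, `H35/W/SwT`)

Proof.  Like `Pool.Agent.H91.EHA.sw_h` (`H91/EHA/SwK3.lean`) and `Pool.Agent.H35.W.sw_t` (`H35/W/SwT.lean`) but with independent parameters: `x = K2`, `e0 L ≤ log K2 ≤ L`, so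
`c ≤ R ≤ L^B ≤ (log K2)^(B+1)` for `N` large.  `psi_ap (B+1) k'` at `x = K2` gives `|psiA y c a - y/φ(c)| ≤ K2/(log K2)^k'` for `y ≤ K2`, `(a,c) = 1`; then as in `sw_h`
(`SwK3_main`, `SwK3_noncop`, `lamR_exp R y c b` which holds for every `R ≥ c`):
`‖∑_{n ≤ y} hR R n ee(± n b/c)‖ ≤ K2/L^(k+m+3)` for all `y ≤ K2` (error of the `lamR` part `≤ R^3 L` or so; `K2 ≥ N^e0`).
Then Abel summation with `ee(-(t log n))`, `|ee(t log n) - ee(t log(n+1))| ≤ 7 |t|/n`, total variation `≤ 7 |t| (1 + log K2)`.  The conjugate sign: `-b` or `c - b` instead of `b`.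
-/

set_option autoImplicit false

namespace Pool.Agent.H53.MID

open Finset
open Pool.Agent.H91.PK (ee)
open Pool.Agent.H91.EHA (Lam hR lamR ramS)

open Pool.Agent.H91.EHA (psiA psi_ap lamR_exp ramS_eq)
open Pool.Agent.H91.PK (DiA_psi_noncoprime)

private theorem SwH_ee_add (s t : ℝ) : ee (s + t) = ee s * ee t := by
  unfold ee
  rw [← Complex.exp_add]
  congr 1
  push_cast
  ring

private theorem SwH_ee_nat (n : ℕ) : ee (n : ℝ) = 1 := by
  unfold ee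
  rw [Complex.exp_eq_one_iff]
  exact ⟨n, by push_cast; ring⟩

private theorem SwH_norm_ee (t : ℝ) : ‖ee t‖ = 1 := by
  unfold ee
  rw [show (2 * (Real.pi : ℂ) * (t : ℂ) * Complex.I) = ((2 * Real.pi * t : ℝ) : ℂ) * Complex.I by
    push_cast; ring]
  exact Complex.norm_exp_ofReal_mul_I _

private theorem SwH_ee_le {n a b c : ℕ} (hc : 1 ≤ c) (han : a ≤ n) (h : n ≡ a [MOD c]) :
    ee ((n : ℝ) * b / c) = ee ((a : ℝ) * b / c) := by
  obtain ⟨t, ht⟩ := (Nat.modEq_iff_dvd' han).1 h.symm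
  have hn : n = a + c * t := by omega
  have hc' : (c : ℝ) ≠ 0 := by
    have : (0 : ℝ) < c := by exact_mod_cast hc
    exact this.ne'
  have e : (n : ℝ) * b / c = (a : ℝ) * b / c + ((t * b : ℕ) : ℝ) := by
    rw [hn]
    push_cast
    field_simp
  rw [e, SwH_ee_add, SwH_ee_nat, mul_one]

private theorem SwH_ee_congr {n a b c : ℕ} (hc : 1 ≤ c) (h : n ≡ a [MOD c]) :
    ee ((n : ℝ) * b / c) = ee ((a : ℝ) * b / c) := by
  rcases le_total a n with h1 | h1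
  · exact SwH_ee_le hc h1 h
  · exact (SwH_ee_le hc h1 h.symm).symm

/-- the representative in `1..c` -/
private def SwH_rep (c n : ℕ) : ℕ := if n % c = 0 then c else n % c

private theorem SwH_rep_mem {c : ℕ} (hc : 1 ≤ c) (n : ℕ) : SwH_rep c n ∈ Icc 1 c := by
  unfold SwH_rep
  rw [mem_Icc]
  have := Nat.mod_lt n (show 0 < c by omega)
  split_ifs with h
  · omega
  · omega

private theorem SwH_rep_modEq {c : ℕ} (n : ℕ) : n ≡ SwH_rep c n [MOD c] := by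
  unfold SwH_rep Nat.ModEq
  split_ifs with h
  · rw [h, Nat.mod_self]
  · rw [Nat.mod_mod]

private theorem SwH_rep_iff {c n a : ℕ} (hc : 1 ≤ c) (ha : a ∈ Icc 1 c) :
    SwH_rep c n = a ↔ n ≡ a [MOD c] := by
  constructor
  · rintro rfl
    exact SwH_rep_modEq n
  · intro h
    have h1 := SwH_rep_mem hc n
    rw [mem_Icc] at ha h1
    have h2 : SwH_rep c n ≡ a [MOD c] := (SwH_rep_modEq n).symm.trans h
    rcases Nat.lt_or_ge (SwH_rep c n) c with h3 | h3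
    · rcases Nat.lt_or_ge a c with h4 | h4
      · exact Nat.ModEq.eq_of_lt_of_lt h2 h3 h4
      · have h5 : a = c := by omega
        subst h5
        unfold Nat.ModEq at h2
        rw [Nat.mod_self, Nat.mod_eq_of_lt h3] at h2
        omega
    · have h5 : SwH_rep c n = c := by omega
      rw [h5] at h2 ⊢
      unfold Nat.ModEq at h2
      rw [Nat.mod_self] at h2
      rcases Nat.lt_or_ge a c with h4 | h4
      · rw [Nat.mod_eq_of_lt h4] at h2
        omega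
      · omega

/-- splitting a sum over `n ≤ y` according to the class of `n` modulo `c` -/
private theorem SwH_split {M : Type*} [AddCommMonoid M] (y c : ℕ) (hc : 1 ≤ c)
    (P : ℕ → Prop) [DecidablePred P] (hP : ∀ n a, n ≡ a [MOD c] → (P n ↔ P a)) (f : ℕ → M) :
    ∑ n ∈ (Icc 1 y).filter P, f n = ∑ a ∈ (Icc 1 c).filter P,
      ∑ n ∈ (Icc 1 y).filter (fun n => n ≡ a [MOD c]), f n := by
  rw [← Finset.sum_fiberwise_of_maps_to (s := (Icc 1 y).filter P) (t := (Icc 1 c).filter P)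
    (g := SwH_rep c)]
  · refine Finset.sum_congr rfl fun a ha => ?_
    rw [mem_filter] at ha
    refine Finset.sum_congr ?_ fun _ _ => rfl
    ext n
    simp only [mem_filter]
    constructor
    · rintro ⟨⟨h1, _⟩, h3⟩
      exact ⟨h1, (SwH_rep_iff hc ha.1).1 h3⟩
    · rintro ⟨h1, h2⟩
      exact ⟨⟨h1, (hP n a h2).2 ha.2⟩, (SwH_rep_iff hc ha.1).2 h2⟩
  · intro n hn
    rw [mem_filter] at hn ⊢
    exact ⟨SwH_rep_mem hc n, (hP n _ (SwH_rep_modEq n)).1 hn.2⟩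

private theorem SwH_lam (y c b : ℕ) (hc : 1 ≤ c) :
    ∑ n ∈ Icc 1 y, ((Lam n : ℝ) : ℂ) * ee ((n : ℝ) * b / c) =
      ∑ a ∈ Icc 1 c, ((psiA y c a : ℝ) : ℂ) * ee ((b : ℝ) * a / c) := by
  have h := SwH_split y c hc (fun _ => True) (fun _ _ _ => Iff.rfl)
    (fun n => ((Lam n : ℝ) : ℂ) * ee ((n : ℝ) * b / c))
  rw [Finset.filter_true, Finset.filter_true] at h
  rw [h]
  refine Finset.sum_congr rfl fun a _ => ?_
  unfold psiA
  rw [Complex.ofReal_sum, Finset.sum_mul]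
  refine Finset.sum_congr rfl fun n hn => ?_
  rw [mem_filter] at hn
  rw [SwH_ee_congr hc hn.2, mul_comm (a : ℝ) (b : ℝ)]

private theorem SwH_noncop (y c : ℕ) (hc : 1 ≤ c) (hy : 1 ≤ y) :
    ∑ a ∈ (Icc 1 c).filter (fun a => ¬ Nat.Coprime a c), psiA y c a ≤ c * Real.log y := by
  have h := SwH_split y c hc (fun n => ¬ Nat.Coprime n c)
    (fun n a hna => by
      have e : Nat.gcd n c = Nat.gcd a c := Nat.ModEq.gcd_eq hna
      unfold Nat.Coprime
      rw [e]) (fun n => Lam n)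
  have h2 : ∑ a ∈ (Icc 1 c).filter (fun a => ¬ Nat.Coprime a c), psiA y c a =
      ∑ n ∈ (Icc 1 y).filter (fun n => ¬ Nat.Coprime n c), Lam n := h.symm
  rw [h2]
  refine (DiA_psi_noncoprime hy hc).trans ?_
  refine mul_le_mul_of_nonneg_right ?_ (Real.log_natCast_nonneg y)
  have h3 : c.primeFactors.card ≤ c := by
    calc c.primeFactors.card ≤ (Icc 1 c).card := by
          apply Finset.card_le_card
          intro p hp
          rw [mem_Icc]
          exact ⟨(Nat.prime_of_mem_primeFactors hp).one_le, Nat.le_of_mem_primeFactors hp⟩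
      _ = c := by simp
  exact_mod_cast h3

private theorem SwH_psi_nonneg (y c a : ℕ) : 0 ≤ psiA y c a :=
  Finset.sum_nonneg fun _ _ => ArithmeticFunction.vonMangoldt_nonneg

private theorem SwH_ram (c b : ℕ) (hb : Nat.Coprime b c) :
    ramS c b = (ArithmeticFunction.moebius c : ℝ) := by
  unfold ramS
  have h : Nat.gcd c b = 1 := hb.symm
  rw [h, Nat.divisors_one, Finset.sum_singleton, Nat.div_one]
  simp

private theorem SwH_main (y c b : ℕ) (hc : 1 ≤ c) (hy : 1 ≤ y) (hb : Nat.Coprime b c) (E : ℝ)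
    (hE : ∀ a : ℕ, Nat.Coprime a c → |psiA y c a - y / (c.totient : ℝ)| ≤ E) :
    ‖(∑ n ∈ Icc 1 y, ((Lam n : ℝ) : ℂ) * ee ((n : ℝ) * b / c))
      - (((ArithmeticFunction.moebius c : ℝ) / (c.totient : ℝ) * y : ℝ) : ℂ)‖ ≤
      c * E + c * Real.log y := by
  have hE0 : 0 ≤ E := (abs_nonneg _).trans (hE 1 (Nat.coprime_one_left c))
  have hr := ramS_eq c b hc
  rw [SwH_ram c b hb] at hr
  have hmain : (((ArithmeticFunction.moebius c : ℝ) / (c.totient : ℝ) * y : ℝ) : ℂ) =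
      ∑ a ∈ (Icc 1 c).filter (fun a => Nat.Coprime a c),
        (((y : ℝ) / (c.totient : ℝ) : ℝ) : ℂ) * ee ((b : ℝ) * a / c) := by
    rw [← Finset.mul_sum, ← hr]
    push_cast
    ring
  have hsplit : ∑ a ∈ Icc 1 c, ((psiA y c a : ℝ) : ℂ) * ee ((b : ℝ) * a / c) =
      ∑ a ∈ (Icc 1 c).filter (fun a => Nat.Coprime a c),
        ((psiA y c a : ℝ) : ℂ) * ee ((b : ℝ) * a / c) +
      ∑ a ∈ (Icc 1 c).filter (fun a => ¬ Nat.Coprime a c),
        ((psiA y c a : ℝ) : ℂ) * ee ((b : ℝ) * a / c) :=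
    (Finset.sum_filter_add_sum_filter_not _ _ _).symm
  rw [SwH_lam y c b hc, hsplit, hmain, add_sub_right_comm, ← Finset.sum_sub_distrib]
  refine (norm_add_le _ _).trans (add_le_add ?_ ?_)
  · refine (norm_sum_le _ _).trans ?_
    calc ∑ a ∈ (Icc 1 c).filter (fun a => Nat.Coprime a c),
          ‖((psiA y c a : ℝ) : ℂ) * ee ((b : ℝ) * a / c) -
            (((y : ℝ) / (c.totient : ℝ) : ℝ) : ℂ) * ee ((b : ℝ) * a / c)‖
        ≤ ∑ a ∈ (Icc 1 c).filter (fun a => Nat.Coprime a c), E := by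
          refine Finset.sum_le_sum fun a ha => ?_
          rw [mem_filter] at ha
          rw [← sub_mul, norm_mul, SwH_norm_ee, mul_one, ← Complex.ofReal_sub,
            Complex.norm_real, Real.norm_eq_abs]
          exact hE a ha.2
      _ ≤ c * E := by
          rw [Finset.sum_const, nsmul_eq_mul]
          refine mul_le_mul_of_nonneg_right ?_ hE0
          have h1 : ((Icc 1 c).filter (fun a => Nat.Coprime a c)).card ≤ c :=
            (Finset.card_filter_le _ _).trans (by simp)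
          exact_mod_cast h1
  · refine (norm_sum_le _ _).trans (le_trans (le_of_eq ?_) (SwH_noncop y c hc hy))
    refine Finset.sum_congr rfl fun a _ => ?_
    rw [norm_mul, SwH_norm_ee, mul_one, Complex.norm_real, Real.norm_eq_abs,
      abs_of_nonneg (SwH_psi_nonneg y c a)]

private theorem SwH_abel (u : ℕ → ℂ) (a0 M : ℕ) (hM : a0 ≤ M) (t E : ℝ) (N : ℕ)
    (hE : ∀ v, v ≤ N → ‖∑ n ∈ Icc 1 v, u n‖ ≤ E) (j : ℕ) (hj : M + 1 + j ≤ N) :
    ‖(∑ n ∈ Ioc M (M + 1 + j), u n * ee (t * Real.log ((n : ℝ) - a0))) -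
      ((∑ n ∈ Icc 1 (M + 1 + j), u n) - ∑ n ∈ Icc 1 M, u n) *
        ee (t * Real.log (((M + 1 + j : ℕ) : ℝ) - a0))‖ ≤
      14 * E * |t| * (Real.log (((M + 1 + j : ℕ) : ℝ) - a0) - Real.log (((M + 1 : ℕ) : ℝ) - a0)) := by
  induction j with
  | zero =>
    have h1 : Ioc M (M + 1 + 0) = {M + 1} := by
      ext n; simp only [mem_Ioc, mem_singleton]; omega
    have h2 : ∑ n ∈ Icc 1 (M + 1 + 0), u n = ∑ n ∈ Icc 1 M, u n + u (M + 1) := by
      rw [add_zero, Finset.sum_Icc_succ_top (by omega)]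
    rw [h1, h2, sum_singleton]
    simp
  | succ j ih =>
    have ih' := ih (by omega)
    have h1 : ∑ n ∈ Ioc M (M + 1 + (j + 1)), u n * ee (t * Real.log ((n : ℝ) - a0)) =
        ∑ n ∈ Ioc M (M + 1 + j), u n * ee (t * Real.log ((n : ℝ) - a0)) +
          u (M + 1 + (j + 1)) * ee (t * Real.log (((M + 1 + (j + 1) : ℕ) : ℝ) - a0)) := by
      rw [show M + 1 + (j + 1) = (M + 1 + j) + 1 by ring, Finset.sum_Ioc_succ_top (by omega)]
    have h2 : ∑ n ∈ Icc 1 (M + 1 + (j + 1)), u n =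
        ∑ n ∈ Icc 1 (M + 1 + j), u n + u (M + 1 + (j + 1)) := by
      rw [show M + 1 + (j + 1) = (M + 1 + j) + 1 by ring, Finset.sum_Icc_succ_top (by omega)]
    set G := ∑ n ∈ Icc 1 (M + 1 + j), u n with hG
    set GM := ∑ n ∈ Icc 1 M, u n with hGM
    set S := ∑ n ∈ Ioc M (M + 1 + j), u n * ee (t * Real.log ((n : ℝ) - a0)) with hS
    set w := ee (t * Real.log (((M + 1 + j : ℕ) : ℝ) - a0)) with hw
    set w' := ee (t * Real.log (((M + 1 + (j + 1) : ℕ) : ℝ) - a0)) with hw'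
    rw [h1, h2]
    have e : S + u (M + 1 + (j + 1)) * w' - (G + u (M + 1 + (j + 1)) - GM) * w' =
        (S - (G - GM) * w) + (G - GM) * (w - w') := by ring
    rw [e]
    have hx1 : (1 : ℝ) ≤ ((M + 1 + j : ℕ) : ℝ) - a0 := by
      have : (a0 : ℝ) ≤ M := by exact_mod_cast hM
      push_cast
      have hj0 : (0 : ℝ) ≤ j := Nat.cast_nonneg j
      linarith
    have hx2 : ((M + 1 + j : ℕ) : ℝ) - a0 ≤ ((M + 1 + (j + 1) : ℕ) : ℝ) - a0 := by
      push_cast; linarith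
    have hlog := Real.log_le_log (by linarith) hx2
    have h3 : ‖w - w'‖ ≤ 7 * (|t| * (Real.log (((M + 1 + (j + 1) : ℕ) : ℝ) - a0) -
        Real.log (((M + 1 + j : ℕ) : ℝ) - a0))) := by
      have h4 := Pool.Agent.H76.EHB.melB_ee_sub (t * Real.log (((M + 1 + j : ℕ) : ℝ) - a0))
        (t * (Real.log (((M + 1 + (j + 1) : ℕ) : ℝ) - a0) -
        Real.log (((M + 1 + j : ℕ) : ℝ) - a0)))
      have h5 : t * Real.log (((M + 1 + j : ℕ) : ℝ) - a0) +
          t * (Real.log (((M + 1 + (j + 1) : ℕ) : ℝ) - a0) -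
          Real.log (((M + 1 + j : ℕ) : ℝ) - a0)) =
          t * Real.log (((M + 1 + (j + 1) : ℕ) : ℝ) - a0) := by ring
      rw [h5, ← hw, ← hw', norm_sub_rev, abs_mul,
        abs_of_nonneg (sub_nonneg.2 hlog)] at h4
      exact h4
    have h6 : ‖G - GM‖ ≤ 2 * E := by
      refine (norm_sub_le _ _).trans ?_
      have h7 := hE (M + 1 + j) (by omega)
      have h8 := hE M (by omega)
      linarith
    have hE0 : 0 ≤ E := (norm_nonneg _).trans (hE M (by omega))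
    refine (norm_add_le _ _).trans ?_
    rw [norm_mul]
    have h9 : ‖G - GM‖ * ‖w - w'‖ ≤ (2 * E) * (7 * (|t| *
        (Real.log (((M + 1 + (j + 1) : ℕ) : ℝ) - a0) -
        Real.log (((M + 1 + j : ℕ) : ℝ) - a0)))) :=
      mul_le_mul h6 h3 (norm_nonneg _) (by linarith)
    linarith

private theorem SwH_pow_le (n : ℕ) {e0 : ℝ} (he : 0 < e0) : ∀ᶠ N : ℕ in Filter.atTop,
    Real.log N ^ n ≤ 1 / 4 * (N : ℝ) ^ e0 := by
  have h1 := (isLittleO_log_rpow_rpow_atTop (n : ℝ) he).bound (c := 1 / 4) (by norm_num)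
  have h2 := tendsto_natCast_atTop_atTop (R := ℝ) |>.eventually h1
  filter_upwards [h2, Filter.eventually_ge_atTop 1] with N hN hN1
  have h3 := (le_abs_self _).trans hN
  rw [Real.rpow_natCast] at h3
  rw [Real.norm_eq_abs, abs_of_nonneg (Real.rpow_nonneg (Nat.cast_nonneg N) _)] at h3
  exact h3

/-- the twisted sums of `hR R` up to `y ≤ K2` -/
private theorem SwH_core (B k : ℕ) (e0 : ℝ) (he : 0 < e0) : ∃ N0 : ℕ, ∀ N : ℕ, N0 ≤ N →
    ∀ R c b K2 : ℕ, (R : ℝ) ≤ Real.log N ^ B → 1 ≤ c → c ≤ R → Nat.Coprime b c →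
      (N : ℝ) ^ e0 ≤ K2 → K2 ≤ N → ∀ y : ℕ, y ≤ K2 →
      ‖∑ n ∈ Icc 1 y, ((hR R n : ℝ) : ℂ) * ee ((n : ℝ) * b / c)‖ ≤ K2 / Real.log N ^ k := by
  obtain ⟨x1, hx1⟩ := psi_ap (B + 1) (k + B + 1)
  have hx1' : ∀ᶠ N : ℕ in Filter.atTop, (x1 : ℝ) ≤ (N : ℝ) ^ e0 :=
    ((tendsto_rpow_atTop he).comp (tendsto_natCast_atTop_atTop (R := ℝ))).eventually_ge_atTop _
  have hlog : ∀ K : ℝ, ∀ᶠ N : ℕ in Filter.atTop, K ≤ Real.log N := fun K =>
    (Real.tendsto_log_atTop.comp (tendsto_natCast_atTop_atTop (R := ℝ))).eventually_ge_atTop K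
  obtain ⟨N0, hN0⟩ := Filter.eventually_atTop.1 ((hx1'.and ((hlog 1).and
    (hlog (1 / e0 ^ (B + 1))))).and ((hlog (4 / e0 ^ (k + B + 1))).and
      ((SwH_pow_le (k + B + 1) he).and (SwH_pow_le (k + 4 * B) he))))
  refine ⟨N0, fun N hN R c b K2 hRB hc hcR hb hK1 hK2 y hy => ?_⟩
  obtain ⟨⟨g1, g2, g3⟩, g4, g5, g6⟩ := hN0 N hN
  obtain ⟨L, hLdef⟩ : ∃ L : ℝ, L = Real.log N := ⟨_, rfl⟩
  rw [← hLdef] at g2 g3 g4 g5 g6 hRB ⊢
  have hL : 0 < L := by linarith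
  have hK0 : (0 : ℝ) ≤ K2 := Nat.cast_nonneg K2
  rcases Nat.eq_zero_or_pos y with hy0 | hy0
  · subst hy0
    simp only [Finset.Icc_eq_empty_of_lt (show 0 < 1 by norm_num), Finset.sum_empty, norm_zero]
    positivity
  have hNpos : (0 : ℝ) < N := by
    rcases Nat.eq_zero_or_pos N with h | h
    · rw [h] at hLdef
      simp at hLdef
      linarith
    · exact_mod_cast h
  have hK2pos : (0 : ℝ) < K2 := lt_of_lt_of_le (Real.rpow_pos_of_pos hNpos _) hK1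
  have hlogK : e0 * L ≤ Real.log K2 := by
    have := Real.log_le_log (Real.rpow_pos_of_pos hNpos e0) hK1
    rw [Real.log_rpow hNpos, ← hLdef] at this
    exact this
  have heL : 0 < e0 * L := mul_pos he hL
  have hK2x : x1 ≤ K2 := by exact_mod_cast g1.trans hK1
  have hcB : (c : ℝ) ≤ L ^ B := le_trans (by exact_mod_cast hcR) hRB
  have hcK : (c : ℝ) ≤ Real.log K2 ^ (B + 1) := by
    calc (c : ℝ) ≤ L ^ B := hcB
      _ ≤ (e0 * L) ^ (B + 1) := by
          rw [div_le_iff₀ (by positivity)] at g3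
          rw [mul_pow, pow_succ L B]
          have h5 : 0 < L ^ B := by positivity
          nlinarith
      _ ≤ Real.log K2 ^ (B + 1) := pow_le_pow_left₀ heL.le hlogK _
  have hE : ∀ a : ℕ, Nat.Coprime a c →
      |psiA y c a - y / (c.totient : ℝ)| ≤ K2 / (e0 * L) ^ (k + B + 1) := by
    intro a ha
    refine (hx1 K2 hK2x y hy c hc hcK a ha).trans ?_
    exact div_le_div_of_nonneg_left hK0 (by positivity) (pow_le_pow_left₀ heL.le hlogK _)
  have hA := SwH_main y c b hc hy0 hb _ hE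
  have hB := lamR_exp R y c b hc hcR hb
  have hsum : ∑ n ∈ Icc 1 y, ((hR R n : ℝ) : ℂ) * ee ((n : ℝ) * b / c) =
      ((∑ n ∈ Icc 1 y, ((Lam n : ℝ) : ℂ) * ee ((n : ℝ) * b / c))
      - (((ArithmeticFunction.moebius c : ℝ) / (c.totient : ℝ) * y : ℝ) : ℂ)) -
      ((∑ n ∈ Icc 1 y, ((lamR R n : ℝ) : ℂ) * ee ((n : ℝ) * b / c))
      - (((ArithmeticFunction.moebius c : ℝ) / (c.totient : ℝ) * y : ℝ) : ℂ)) := by
    rw [sub_sub_sub_cancel_right, ← Finset.sum_sub_distrib]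
    refine Finset.sum_congr rfl fun n _ => ?_
    unfold Pool.Agent.H91.EHA.hR
    push_cast
    ring
  rw [hsum]
  refine (norm_sub_le _ _).trans ((add_le_add hA hB).trans ?_)
  have hc0 : (0 : ℝ) ≤ c := Nat.cast_nonneg c
  have hLk : 0 < L ^ k := by positivity
  have t1 : (c : ℝ) * (K2 / (e0 * L) ^ (k + B + 1)) ≤ 1 / 4 * (K2 / L ^ k) := by
    calc (c : ℝ) * (K2 / (e0 * L) ^ (k + B + 1)) ≤ L ^ B * (K2 / (e0 * L) ^ (k + B + 1)) :=
          mul_le_mul_of_nonneg_right hcB (by positivity)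
      _ = K2 / L ^ k * (1 / (e0 ^ (k + B + 1) * L)) := by
          rw [mul_pow]
          field_simp
          ring
      _ ≤ K2 / L ^ k * (1 / 4) := by
          refine mul_le_mul_of_nonneg_left ?_ (by positivity)
          rw [div_le_iff₀ (by positivity)] at g4
          exact one_div_le_one_div_of_le (by norm_num) (by linarith)
      _ = 1 / 4 * (K2 / L ^ k) := by ring
  have t2 : (c : ℝ) * Real.log y ≤ 1 / 4 * (K2 / L ^ k) := by
    have hly : Real.log y ≤ L := by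
      rw [hLdef]
      exact Real.log_le_log (by exact_mod_cast hy0) (by exact_mod_cast hy.trans hK2)
    calc (c : ℝ) * Real.log y ≤ L ^ B * L := by
          apply mul_le_mul hcB hly (Real.log_natCast_nonneg y) (by positivity)
      _ = L ^ (k + B + 1) / L ^ k := by
          field_simp
          ring
      _ ≤ (1 / 4 * (K2 : ℝ)) / L ^ k := by
          apply div_le_div_of_nonneg_right _ hLk.le
          linarith
      _ = 1 / 4 * (K2 / L ^ k) := by ring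
  have t3 : (R : ℝ) ^ 4 ≤ 1 / 4 * (K2 / L ^ k) := by
    calc (R : ℝ) ^ 4 ≤ (L ^ B) ^ 4 := pow_le_pow_left₀ (Nat.cast_nonneg R) hRB 4
      _ = L ^ (k + 4 * B) / L ^ k := by
          rw [pow_add, ← pow_mul, mul_comm B 4]
          field_simp
      _ ≤ (1 / 4 * (K2 : ℝ)) / L ^ k := by
          apply div_le_div_of_nonneg_right _ hLk.le
          linarith
      _ = 1 / 4 * (K2 / L ^ k) := by ring
  have t4 : 0 ≤ (K2 : ℝ) / L ^ k := by positivity
  linarith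

theorem sw_holds : SWp := by
  intro B m k e0 he
  obtain ⟨N1, hN1⟩ := SwH_core B (k + m + 3) e0 he
  have hlog : ∀ᶠ N : ℕ in Filter.atTop, (4 : ℝ) ≤ Real.log N :=
    (Real.tendsto_log_atTop.comp (tendsto_natCast_atTop_atTop (R := ℝ))).eventually_ge_atTop 4
  obtain ⟨N0, hN0⟩ := Filter.eventually_atTop.1 ((Filter.eventually_ge_atTop N1).and hlog)
  refine ⟨N0, fun N hN R c b K1 K2 t hRB hc hcR hb hK hK2 ht => ?_⟩
  obtain ⟨h1, h4⟩ := hN0 N hN
  have hcore := hN1 N h1 R c b K2 hRB hc hcR hb hK hK2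
  set L := Real.log N with hL
  have hLpos : 0 < L := by linarith
  have hK0 : (0 : ℝ) ≤ K2 := Nat.cast_nonneg K2
  rcases Nat.lt_or_ge K1 K2 with hKK | hKK
  swap
  · rw [Ioc_eq_empty_of_le hKK, sum_empty, norm_zero]
    positivity
  obtain ⟨j, hj⟩ : ∃ j, K2 = K1 + 1 + j := ⟨K2 - (K1 + 1), by omega⟩
  set E : ℝ := K2 / L ^ (k + m + 3) with hE
  have hE0 : 0 ≤ E := by positivity
  set u : ℕ → ℂ := fun n => ((hR R n : ℝ) : ℂ) * ee ((n : ℝ) * b / c) with hu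
  have hG : ∀ v, v ≤ K2 → ‖∑ n ∈ Icc 1 v, u n‖ ≤ E := hcore
  -- the conjugate
  have hconj : ∑ n ∈ Ioc K1 K2, ((hR R n : ℝ) : ℂ) * ee (-((n : ℝ) * b / c)) *
      ee (-(t * Real.log n)) =
      (starRingEnd ℂ) (∑ n ∈ Ioc K1 K2, u n * ee (t * Real.log ((n : ℝ) - (0 : ℕ)))) := by
    rw [map_sum]
    refine Finset.sum_congr rfl fun n _ => ?_
    rw [hu]
    simp only [map_mul, Complex.conj_ofReal, Pool.Agent.H91.PK.LSa_conj_ee, Nat.cast_zero,
      sub_zero]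
  rw [hconj, RCLike.norm_conj]
  have hA := SwH_abel u 0 K1 (Nat.zero_le _) t E K2 hG j (by omega)
  rw [← hj] at hA
  have hlogy : Real.log ((K2 : ℝ) - (0 : ℕ)) - Real.log (((K1 + 1 : ℕ) : ℝ) - (0 : ℕ)) ≤ L := by
    rw [Nat.cast_zero, sub_zero, sub_zero]
    have h5 : 0 ≤ Real.log ((K1 + 1 : ℕ) : ℝ) := Real.log_natCast_nonneg _
    have h6 : Real.log (K2 : ℝ) ≤ L :=
      Real.log_le_log (by exact_mod_cast (by omega : 0 < K2)) (by exact_mod_cast hK2)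
    linarith
  have hB : ‖((∑ n ∈ Icc 1 K2, u n) - ∑ n ∈ Icc 1 K1, u n) *
      ee (t * Real.log ((K2 : ℝ) - (0 : ℕ)))‖ ≤ 2 * E := by
    rw [norm_mul, Pool.Agent.H91.PK.LSa_norm_ee, mul_one]
    refine (norm_sub_le _ _).trans ?_
    have h7 := hG K2 le_rfl
    have h8 := hG K1 (by omega)
    linarith
  have hC : ‖∑ n ∈ Ioc K1 K2, u n * ee (t * Real.log ((n : ℝ) - (0 : ℕ)))‖ ≤
      14 * E * |t| * L + 2 * E := by
    have h9 := norm_sub_norm_le (∑ n ∈ Ioc K1 K2, u n * ee (t * Real.log ((n : ℝ) - (0 : ℕ))))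
      (((∑ n ∈ Icc 1 K2, u n) - ∑ n ∈ Icc 1 K1, u n) * ee (t * Real.log ((K2 : ℝ) - (0 : ℕ))))
    have h10 : 14 * E * |t| * (Real.log ((K2 : ℝ) - (0 : ℕ)) -
        Real.log (((K1 + 1 : ℕ) : ℝ) - (0 : ℕ))) ≤
        14 * E * |t| * L := mul_le_mul_of_nonneg_left hlogy (by positivity)
    linarith
  refine hC.trans ?_
  have hLm : (1 : ℝ) ≤ L ^ m := one_le_pow₀ (by linarith)
  have h11 : 14 * E * |t| * L + 2 * E ≤ 16 * E * L ^ (m + 1) := by
    have h12 : 14 * E * |t| * L ≤ 14 * E * L ^ m * L := by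
      apply mul_le_mul_of_nonneg_right _ hLpos.le
      exact mul_le_mul_of_nonneg_left ht (by positivity)
    have h13 : 2 * E ≤ 2 * E * L ^ (m + 1) := by
      have : (1 : ℝ) ≤ L ^ (m + 1) := one_le_pow₀ (by linarith)
      nlinarith
    calc 14 * E * |t| * L + 2 * E ≤ 14 * E * L ^ m * L + 2 * E * L ^ (m + 1) := by linarith
      _ = 16 * E * L ^ (m + 1) := by ring
  refine h11.trans ?_
  rw [hE]
  have h14 : 16 * ((K2 : ℝ) / L ^ (k + m + 3)) * L ^ (m + 1) = (K2 / L ^ k) * (16 / L ^ 2) := by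
    rw [show k + m + 3 = k + 2 + (m + 1) by ring, pow_add, pow_add]
    field_simp
  rw [h14]
  have h15 : (16 : ℝ) / L ^ 2 ≤ 1 := by
    rw [div_le_one (by positivity)]
    nlinarith
  calc (K2 : ℝ) / L ^ k * (16 / L ^ 2) ≤ K2 / L ^ k * 1 :=
        mul_le_mul_of_nonneg_left h15 (by positivity)
    _ = K2 / L ^ k := mul_one _

end Pool.Agent.H53.MID

end

section

/-!
# VKT (H97/VK of helper97 with the parameter `T0.t` in place of `9/10`, `t1` in place of `19/20`) VkClassW: `vk_class` for `z ≥ exp(L^{19/20})`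

Proof.  `(u,d) = 1`: orthogonality (Mathlib `DirichletCharacter.sum_char_inv_mul_char_eq`, compare `swk1_orth` in `EHA/SwK1.lean`):
`∑_{n ≡ u} Λ(n) ee(t log n) = (1/φ(d)) ∑_χ χ(u)^{-1} ∑_{n≤z} Λ(n) χ(n) ee(t log n)`, at most `φ(d)` characters, `vk_chi K B e0`.
`(u,d) > 1`: every `n ≡ u mod d` has a common factor with `d`, so `Λ(n) ≠ 0` only for powers of the primes `p ∣ d`:
at most `∑_{p ∣ d} log z ≤ d · log z ≤ z/L^K` (`DiA_psi_noncoprime` in `PK/DiA.lean`, or directly).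
-/

set_option autoImplicit false

namespace Pool.Agent.H76.VKT

open Finset
open Pool.Agent.H91.EHA
open Pool.Agent.H91.PK (ee)

private theorem VkClass_orth {z d u : ℕ} (hd : 1 ≤ d) (hu : Nat.Coprime u d) (f : ℕ → ℂ) :
    (d.totient : ℂ) * ∑ n ∈ (Icc 1 z).filter (fun n => n % d = u % d), f n =
      ∑ χ : DirichletCharacter ℂ d, χ ((u : ZMod d)⁻¹) *
        ∑ n ∈ Icc 1 z, f n * χ (n : ZMod d) := by
  have : NeZero d := ⟨by omega⟩
  have hun : IsUnit (u : ZMod d) := (ZMod.isUnit_iff_coprime u d).mpr hu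
  simp only [mul_sum]
  rw [sum_comm, sum_filter]
  refine sum_congr rfl fun n _ => ?_
  have h1 : ∀ χ : DirichletCharacter ℂ d,
      χ ((u : ZMod d)⁻¹) * (f n * χ (n : ZMod d))
      = (χ ((u : ZMod d)⁻¹) * χ (n : ZMod d)) * f n := by
    intro χ; ring
  simp only [h1]
  rw [← sum_mul, DirichletCharacter.sum_char_inv_mul_char_eq ℂ hun]
  have hiff : ((u : ZMod d) = (n : ZMod d)) ↔ n % d = u % d := by
    rw [eq_comm]
    exact ZMod.natCast_eq_natCast_iff' n u d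
  by_cases h : n % d = u % d
  · rw [if_pos h, if_pos (hiff.mpr h)]
  · rw [if_neg h, if_neg (fun h' => h (hiff.mp h'))]
    simp

private theorem VkClass_norm_ee (t : ℝ) : ‖ee t‖ = 1 := by
  unfold ee
  rw [show (2 * Real.pi * t * Complex.I : ℂ) = ((2 * Real.pi * t : ℝ) : ℂ) * Complex.I by
    push_cast; ring]
  exact Complex.norm_exp_ofReal_mul_I _

private theorem VkClass_norm_char_le {d : ℕ} (χ : DirichletCharacter ℂ d) (a : ZMod d) : ‖χ a‖ ≤ 1 :=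
  DirichletCharacter.norm_le_one χ a

private theorem VkClass_noncop {z d u : ℕ} (hz : 1 ≤ z) (hd : 1 ≤ d) (hu : ¬ Nat.Coprime u d)
    (t : ℝ) :
    ‖∑ n ∈ (Icc 1 z).filter (fun n => n % d = u % d),
      ((Lam n : ℝ) : ℂ) * ee (t * Real.log n)‖ ≤ d * Real.log z := by
  have h1 : ‖∑ n ∈ (Icc 1 z).filter (fun n => n % d = u % d),
      ((Lam n : ℝ) : ℂ) * ee (t * Real.log n)‖ ≤
      ∑ n ∈ (Icc 1 z).filter (fun n => n % d = u % d), ArithmeticFunction.vonMangoldt n := by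
    refine (norm_sum_le _ _).trans (sum_le_sum fun n _ => ?_)
    rw [norm_mul, VkClass_norm_ee, mul_one, Complex.norm_real, Lam,
      Real.norm_of_nonneg ArithmeticFunction.vonMangoldt_nonneg]
  have h2 : ∑ n ∈ (Icc 1 z).filter (fun n => n % d = u % d), ArithmeticFunction.vonMangoldt n ≤
      ∑ n ∈ (Icc 1 z).filter (fun n => ¬ Nat.Coprime n d), ArithmeticFunction.vonMangoldt n := by
    refine sum_le_sum_of_subset_of_nonneg ?_ (fun _ _ _ => ArithmeticFunction.vonMangoldt_nonneg)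
    intro n hn
    rw [mem_filter] at hn ⊢
    refine ⟨hn.1, fun hc => hu ?_⟩
    have h3 : Nat.gcd n d = Nat.gcd u d := Nat.ModEq.gcd_eq hn.2
    rw [Nat.Coprime, ← h3]
    exact hc
  have h4 := Pool.Agent.H91.PK.DiA_psi_noncoprime (N := z) (d := d) hz hd
  have h5 : (d.primeFactors.card : ℝ) ≤ d := by
    have : d.primeFactors.card ≤ (Icc 1 d).card := by
      refine card_le_card fun p hp => ?_
      rw [mem_Icc]
      exact ⟨(Nat.prime_of_mem_primeFactors hp).one_le,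
        Nat.le_of_dvd hd (Nat.dvd_of_mem_primeFactors hp)⟩
    rw [Nat.card_Icc, Nat.add_sub_cancel] at this
    exact_mod_cast this
  calc _ ≤ _ := h1
    _ ≤ _ := h2
    _ ≤ _ := h4
    _ ≤ _ := mul_le_mul_of_nonneg_right h5 (Real.log_natCast_nonneg z)

private theorem VkClassW_large (t1 : ℝ) (ht1 : 1 / 2 ≤ t1) (K B : ℕ) : ∃ x0 : ℕ, ∀ x : ℕ, x0 ≤ x →
    1 ≤ Real.log x ∧ 2 * Real.log x ^ (B + 1 + K) ≤ Real.exp (Real.log x ^ t1) := by
  have h1 : ∀ᶠ u : ℝ in Filter.atTop, 2 * u ^ (B + 1 + K) ≤ Real.exp (u ^ t1) := by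
    have h := (isLittleO_pow_exp_pos_mul_atTop (2 * (B + 1 + K)) (show (0 : ℝ) < 1 by norm_num)).bound
      (show (0 : ℝ) < 1 / 2 by norm_num)
    have h' := (tendsto_rpow_atTop (show (0 : ℝ) < t1 by linarith)).eventually h
    filter_upwards [h', Filter.eventually_ge_atTop (1 : ℝ)] with u hu hu1
    have hp : 0 ≤ u ^ t1 := Real.rpow_nonneg (by linarith) _
    rw [Real.norm_of_nonneg (by positivity), Real.norm_of_nonneg (by positivity), one_mul] at hu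
    have h2 : u ^ (B + 1 + K) ≤ (u ^ t1) ^ (2 * (B + 1 + K)) := by
      rw [← Real.rpow_natCast (u ^ t1), ← Real.rpow_mul (by linarith),
        ← Real.rpow_natCast u]
      refine Real.rpow_le_rpow_of_exponent_le hu1 ?_
      push_cast
      have h1 : (0 : ℝ) ≤ B := Nat.cast_nonneg _
      have h2 : (0 : ℝ) ≤ K := Nat.cast_nonneg _
      nlinarith
    linarith
  have h2 : ∀ᶠ x : ℝ in Filter.atTop, 1 ≤ Real.log x := Real.tendsto_log_atTop.eventually_ge_atTop 1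
  have h3 := (tendsto_natCast_atTop_atTop (R := ℝ)).eventually
    ((Real.tendsto_log_atTop.eventually h1).and h2)
  obtain ⟨x0, hx0⟩ := Filter.eventually_atTop.mp h3
  exact ⟨x0, fun x hx => ⟨(hx0 x hx).2, (hx0 x hx).1⟩⟩

theorem vk_class_w [T0] (t1 : ℝ) (ht1' : T0.t < t1) (K B : ℕ) : ∃ K' x0 : ℕ, ∀ x : ℕ, x0 ≤ x →
    ∀ (d u z : ℕ) (t : ℝ), 1 ≤ d → (d : ℝ) ≤ Real.log x ^ B →
    Real.exp (Real.log x ^ t1) ≤ z → z ≤ x ^ 2 → Real.log x ^ K' ≤ |t| → |t| ≤ (x : ℝ) ^ (2 : ℕ) →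
    ‖∑ n ∈ (Icc 1 z).filter (fun n => n % d = u % d), ((Lam n : ℝ) : ℂ) * ee (t * Real.log n)‖ ≤
      z / Real.log x ^ K := by
  obtain ⟨K', x1, hchi⟩ := vk_chi_w t1 ht1' K B
  obtain ⟨x2, hlarge⟩ := VkClassW_large t1 (by have := T0.lo; linarith) K B
  refine ⟨K', max (max x1 x2) 1, fun x hx d u z t hd hdB hz1 hz2 ht1 ht2 => ?_⟩
  have hx1 : x1 ≤ x := ((le_max_left _ _).trans (le_max_left _ _)).trans hx
  have hx2 : x2 ≤ x := ((le_max_right _ _).trans (le_max_left _ _)).trans hx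
  have hx3 : 1 ≤ x := (le_max_right _ _).trans hx
  obtain ⟨hL1, hL2⟩ := hlarge x hx2
  have hL0 : 0 < Real.log x := by linarith
  have hLK : 0 < Real.log x ^ K := pow_pos hL0 K
  have hz0 : (0 : ℝ) ≤ z := Nat.cast_nonneg z
  by_cases hu : Nat.Coprime u d
  · have : NeZero d := ⟨by omega⟩
    have horth := VkClass_orth (z := z) hd hu (fun n => ((Lam n : ℝ) : ℂ) * ee (t * Real.log n))
    have hphi : (0 : ℝ) < d.totient := by exact_mod_cast Nat.totient_pos.2 hd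
    have h1 : (d.totient : ℝ) * ‖∑ n ∈ (Icc 1 z).filter (fun n => n % d = u % d),
        ((Lam n : ℝ) : ℂ) * ee (t * Real.log n)‖ ≤ d.totient * (z / Real.log x ^ K) := by
      have h2 : (d.totient : ℝ) * ‖∑ n ∈ (Icc 1 z).filter (fun n => n % d = u % d),
          ((Lam n : ℝ) : ℂ) * ee (t * Real.log n)‖ =
          ‖(d.totient : ℂ) * ∑ n ∈ (Icc 1 z).filter (fun n => n % d = u % d),
          ((Lam n : ℝ) : ℂ) * ee (t * Real.log n)‖ := by
        rw [norm_mul, Complex.norm_natCast]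
      rw [h2, horth]
      have h3 : ∀ χ : DirichletCharacter ℂ d, ‖χ ((u : ZMod d)⁻¹) *
          ∑ n ∈ Icc 1 z, ((Lam n : ℝ) : ℂ) * ee (t * Real.log n) * χ (n : ZMod d)‖ ≤
          z / Real.log x ^ K := by
        intro χ
        have h4 := hchi x hx1 d χ t z hd hdB hz1 hz2 ht1 ht2
        have h5 : ∑ n ∈ Icc 1 z, ((Lam n : ℝ) : ℂ) * ee (t * Real.log n) * χ (n : ZMod d) =
            ∑ n ∈ Icc 1 z, ((Lam n : ℝ) : ℂ) * χ (n : ZMod d) * ee (t * Real.log n) :=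
          sum_congr rfl fun n _ => by ring
        rw [norm_mul, h5]
        calc _ ≤ 1 * ‖∑ n ∈ Icc 1 z, ((Lam n : ℝ) : ℂ) * χ (n : ZMod d) *
              ee (t * Real.log n)‖ :=
              mul_le_mul_of_nonneg_right (VkClass_norm_char_le χ _) (norm_nonneg _)
          _ ≤ _ := by rw [one_mul]; exact h4
      have h6 : (Finset.univ : Finset (DirichletCharacter ℂ d)).card = d.totient := by
        rw [card_univ, ← Nat.card_eq_fintype_card,
          DirichletCharacter.card_eq_totient_of_hasEnoughRootsOfUnity ℂ d]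
      calc _ ≤ ∑ χ : DirichletCharacter ℂ d, ‖χ ((u : ZMod d)⁻¹) *
            ∑ n ∈ Icc 1 z, ((Lam n : ℝ) : ℂ) * ee (t * Real.log n) * χ (n : ZMod d)‖ :=
            norm_sum_le _ _
        _ ≤ ∑ _χ : DirichletCharacter ℂ d, (z / Real.log x ^ K : ℝ) :=
            sum_le_sum fun χ _ => h3 χ
        _ = _ := by rw [sum_const, h6, nsmul_eq_mul]
    exact le_of_mul_le_mul_left h1 hphi
  · have hz3 : (1 : ℝ) ≤ z := by
      have h1 : (1 : ℝ) ≤ Real.exp (Real.log x ^ t1) :=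
        Real.one_le_exp (Real.rpow_nonneg hL0.le _)
      linarith
    have hz4 : 1 ≤ z := by exact_mod_cast hz3
    have h1 := VkClass_noncop (z := z) (d := d) (u := u) hz4 hd hu t
    have h2 : Real.log z ≤ 2 * Real.log x := by
      have h3 : (z : ℝ) ≤ (x : ℝ) ^ 2 := by exact_mod_cast hz2
      have h4 := Real.log_le_log (by linarith) h3
      rwa [Real.log_pow, Nat.cast_ofNat] at h4
    rw [le_div_iff₀ hLK]
    have hlz : 0 ≤ Real.log z := Real.log_natCast_nonneg z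
    calc ‖∑ n ∈ (Icc 1 z).filter (fun n => n % d = u % d),
          ((Lam n : ℝ) : ℂ) * ee (t * Real.log n)‖ * Real.log x ^ K
        ≤ (d * Real.log z) * Real.log x ^ K := mul_le_mul_of_nonneg_right h1 hLK.le
      _ ≤ (Real.log x ^ B * (2 * Real.log x)) * Real.log x ^ K := by
          refine mul_le_mul_of_nonneg_right ?_ hLK.le
          exact mul_le_mul hdB h2 hlz (pow_nonneg hL0.le B)
      _ = 2 * Real.log x ^ (B + 1 + K) := by rw [pow_add, pow_add]; ring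
      _ ≤ Real.exp (Real.log x ^ t1) := hL2
      _ ≤ z := hz1

end Pool.Agent.H76.VKT

end

section

/-!
# VKT: the Vinogradov-Korobov library `Pool.Agent.H97.VK` with parameters

* `vk_exp_t`: exponential sums `∑ (n+β)^{2πit}` over intervals in `[0, K]`, `K ≥ exp((log x)^t0)`, every `t0 ∈ (2/3, 1)`;
* `vk_class_t`: `∑_{n ≤ z, n ≡ u (d)} Λ(n) n^{2πit}`, `z ≥ exp((log x)^t1)`, every `t1 ∈ (2/3, 1)`, `d ≤ (log x)^B`.
-/

set_option autoImplicit false

namespace Pool.Agent.H76.VKT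

open Finset
open Pool.Agent.H91.EHA
open Pool.Agent.H91.PK (ee)

theorem vk_exp_t (t0 : ℝ) (h : 2 / 3 < t0) (h1 : t0 < 1) (A : ℕ) : ∃ x0 : ℕ, ∀ x : ℕ, x0 ≤ x →
    ∀ (K a b : ℕ) (β t : ℝ), Real.exp (Real.log x ^ t0) ≤ K → K ≤ x → b ≤ K → 0 ≤ β → β ≤ 1 →
    1 ≤ |t| → |t| ≤ (x : ℝ) ^ (3 : ℕ) →
    ‖∑ n ∈ Ioc a b, ee (t * Real.log (n + β))‖ ≤ K * (100 / |t| + 1 / Real.log x ^ A) :=
  @vk_exp ⟨t0, h, h1⟩ A

theorem vk_class_t (t1 : ℝ) (h : 2 / 3 < t1) (h1 : t1 < 1) (K B : ℕ) : ∃ K' x0 : ℕ, ∀ x : ℕ, x0 ≤ x →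
    ∀ (d u z : ℕ) (t : ℝ), 1 ≤ d → (d : ℝ) ≤ Real.log x ^ B →
    Real.exp (Real.log x ^ t1) ≤ z → z ≤ x ^ 2 → Real.log x ^ K' ≤ |t| → |t| ≤ (x : ℝ) ^ (2 : ℕ) →
    ‖∑ n ∈ (Icc 1 z).filter (fun n => n % d = u % d), ((Lam n : ℝ) : ℂ) * ee (t * Real.log n)‖ ≤
      z / Real.log x ^ K :=
  @vk_class_w ⟨(2 / 3 + t1) / 2, by linarith, by linarith⟩ t1
    (show (2 / 3 + t1) / 2 < t1 by linarith) K B

end Pool.Agent.H76.VKT

end

section

/-!
# MDX CombW: the weak combinatorial theorem (part I of MIDX)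

Proof.  `comb_num C` gives `D`; `N0` from `comb_asym` (with `D`, `C0`), `comb_lvl`, and such that `log N ≥ 1`.  For `N ≥ N0` take `ℓ` from `comb_lvl`, `δ = 1/(log N)^C0`,
`Q = exp((log N)^t2)`: `Zc C δ ℓ ≤ (D ℓ/δ)^(D ℓ) 2^(D ℓ^2) ≤ Q` and `Q ≤ exp((log N)^t) ≤ P`.  `combx` gives `d, b, T, F1`.  Reduce the fraction: `g = gcd(b, d)`,
`d' = d/g`, `b' = b/g`: `b'/d' = b/d` (real numbers), `1 ≤ d' ≤ d`, coprime (`Nat.coprime_div_gcd_div_gcd`).
-/

set_option autoImplicit false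

namespace Pool.Agent.H74.MDX

open Finset
open Pool.Agent.H53.MID (nz Rel Desc)

/-- the weak combinatorial theorem -/
def CombWeak (t t2 : ℝ) : Prop := ∀ (C : ℝ), 1 ≤ C → ∀ C0 : ℕ, ∃ N0 : ℕ, ∀ N : ℕ, N0 ≤ N →
  ∀ (n P : ℕ) (η : ℝ) (F0 G0 : Finset ℕ) (α β : ℕ → ℝ) (R0 : Finset (ℕ × ℕ × ℕ)),
    Real.exp (Real.log N ^ t) ≤ P → P ≤ N → 1 ≤ n → n ≤ N → 0 < η →
    Real.exp (Real.log N ^ t2) * η * (P : ℝ) ^ 3 ≤ 1 → Rel C n P (η * P) F0 G0 α β R0 →
    n * P / Real.log N ^ C0 ≤ (R0.card : ℝ) →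
    ∃ (d b : ℕ) (T : ℝ) (F1 : Finset ℕ), 1 ≤ d ∧ (d : ℝ) ≤ Real.exp (Real.log N ^ t2) ∧ Nat.Coprime b d ∧
      |T| ≤ Real.exp (Real.log N ^ t2) * η * (n : ℝ) ^ 2 ∧ F1 ⊆ F0 ∧
      (n : ℝ) ≤ Real.exp (Real.log N ^ t2) * F1.card ∧
      ∀ i ∈ F1, nz (α i - b / d - T / i) ≤ Real.exp (Real.log N ^ t2) * η

/-- reduction of a fraction -/
private theorem CombW_red (d b : ℕ) (hd : 1 ≤ d) : ∃ d' b' : ℕ, 1 ≤ d' ∧ d' ≤ d ∧ Nat.Coprime b' d' ∧
    (b' : ℝ) / d' = b / d := by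
  have hg : 0 < Nat.gcd b d := Nat.gcd_pos_of_pos_right b (by omega)
  have h1 : Nat.gcd b d ∣ b := Nat.gcd_dvd_left b d
  have h2 : Nat.gcd b d ∣ d := Nat.gcd_dvd_right b d
  refine ⟨d / Nat.gcd b d, b / Nat.gcd b d, Nat.div_pos (Nat.le_of_dvd (by omega) h2) hg,
    Nat.div_le_self _ _, Nat.coprime_div_gcd_div_gcd hg, ?_⟩
  have hg' : (Nat.gcd b d : ℝ) ≠ 0 := by exact_mod_cast hg.ne'
  rw [Nat.cast_div h1 hg', Nat.cast_div h2 hg']
  exact div_div_div_cancel_right₀ hg' _ _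

theorem comb_weak (t t2 : ℝ) (ht1 : t < 1) (ht2 : 2 * (1 - t) < t2) (ht3 : t2 < t) : CombWeak t t2 := by
  intro C hC C0
  obtain ⟨D, hD1, hD⟩ := comb_num C hC
  obtain ⟨N1, hN1⟩ := comb_asym t t2 ht1 ht2 D C0
  obtain ⟨N2, hN2⟩ := comb_lvl t (by linarith) ht1
  refine ⟨max N1 (max N2 3), fun N hN n P η F0 G0 α β R0 hP hPN hn hnN hη hQη hR hR0 => ?_⟩
  rw [max_le_iff, max_le_iff] at hN
  obtain ⟨hNa, hNb, hNc⟩ := hN
  have hL1 : 1 ≤ Real.log N := by
    rw [Real.le_log_iff_exp_le (by positivity)]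
    have h1 : (3 : ℝ) ≤ N := by exact_mod_cast hNc
    have h2 := Real.exp_one_lt_three
    linarith
  obtain ⟨ℓ, hℓ1, hℓ2, hℓ3, hℓ4⟩ := hN2 N hNb n P hP hn hnN
  obtain ⟨L, hL⟩ : ∃ L : ℝ, L = Real.log N ^ C0 := ⟨_, rfl⟩
  have hLpos : 1 ≤ L := by rw [hL]; exact one_le_pow₀ hL1
  have hδ : 0 < 1 / L := by positivity
  have hδ1 : 1 / L ≤ 1 := by
    rw [div_le_one (by linarith)]
    exact hLpos
  have hZ : Zc C (1 / L) ℓ ≤ Real.exp (Real.log N ^ t2) := by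
    refine (hD ℓ (1 / L) hℓ1 hδ hδ1).trans ?_
    have h1 := hN1 N hNa ℓ hℓ1 hℓ2
    rw [← hL] at h1
    have e1 : (D : ℝ) * ℓ / (1 / L) = D * ℓ * L := by
      rw [div_div_eq_mul_div, div_one]
    rw [e1]
    exact h1
  have hQP : Real.exp (Real.log N ^ t2) ≤ P := by
    refine le_trans ?_ hP
    exact Real.exp_le_exp.2 (Real.rpow_le_rpow_of_exponent_le hL1 ht3.le)
  have hR0' : 1 / L * n * P ≤ R0.card := by
    rw [← hL] at hR0
    refine le_trans (le_of_eq ?_) hR0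
    ring
  obtain ⟨d, b, T, F1, g1, g2, g3, g4, g5, g6⟩ := combx C hC n P ℓ (1 / L) η
    (Real.exp (Real.log N ^ t2)) hn hℓ1 hℓ3 hℓ4 hδ hδ1 hη hZ hQP hQη F0 G0 α β R0 hR hR0'
  obtain ⟨d', b', k1, k2, k3, k4⟩ := CombW_red d b g1
  refine ⟨d', b', T, F1, k1, ?_, k3, g3, g4, g5, ?_⟩
  · refine le_trans ?_ g2
    exact_mod_cast k2
  · intro i hi
    rw [k4]
    exact g6 i hi

end Pool.Agent.H74.MDX

end

section

/-!
# MDB Final: `CombX t t2` from exponential sums over integers (`VKe t0`)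
-/

set_option autoImplicit false

namespace Pool.Agent.H53.MDB

open Pool.Agent.H53.MIX (VKe CombX)

theorem combwk (t t2 : ℝ) (ht : t < 1) (h2 : 2 * (1 - t) < t2) (h2t : t2 < t) : CombWk t t2 := by
  intro C hC C0
  obtain ⟨N0, hN0⟩ := Pool.Agent.H74.MDX.comb_weak t t2 ht h2 h2t C hC C0
  refine ⟨N0, fun N hN n P η F0 G0 α β R0 h1 h3 h4 h5 h6 h7 h8 h9 => ?_⟩
  exact hN0 N hN n P η F0 G0 α β R0 h1 h3 h4 h5 h6 (by rw [mul_comm (Real.exp _) η]; exact h7) h8 h9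

theorem comb_x_all (t0 t t2 : ℝ) (h0 : 0 < t0) (h0t : t0 < t) (h2 : 2 * (1 - t) < t2) (h2t : t2 < t) (ht : t < 1)
    (hV : VKe t0) : CombX t t2 :=
  comb_x t0 t t2 h0 h0t (by linarith) h2t ht hV (combwk t t2 ht h2 h2t)

end Pool.Agent.H53.MDB

end
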