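import Pool.Agent.H43.PJ.M05
import Pool.Agent.H43.PJ.M09
import Pool.Agent.H43.PJ.M20

/-! The parts of this file: H80.LV.GInt, H80.LV.HM. -/

section

/-!
# LV GInt: the kernel integral

`D(u) = ∑_{n ≤ K} ee(u log n)`, `x^κ ≤ K ≤ x`.  `ks1 κ` (with `β = 0`, `a = 0`, `b = K`) gives `δ, C ≥ 1, x1` with
`|D(u)| ≤ C K (1/|u| + x^{-δ})` for `1 ≤ |u| ≤ x^3`; trivially `|D(u)| ≤ K`.  Hence for `|u| ≤ 2 x^2 ≤ x^3`
`|D(u)| ≤ 2 C K / (1 + |u|) + C K x^{-δ}`.  For `t ∈ B`: `∫_B 1/(1+|t-s|) ds ≤ ∫_{|u| ≤ 2 x^2} du/(1+|u|) = 2 log(1 + 2 x^2) ≤ 6 L` and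
`∫_B x^{-δ} ≤ x^{η - δ} ≤ 1` with `η = δ`.  So the integral is `≤ 12 C K L + C K ≤ K L^2` for large `x`.
(To avoid computing the integral one may also compare on dyadic pieces or use
`∫_0^Y du/(1+u) = log(1+Y)`, `integral_one_div_of_pos` after a shift.)
-/

set_option autoImplicit false

namespace Pool.Agent.H80.LV

open Finset MeasureTheory
open Pool.Agent.H91.PK (ee)

private theorem GInt_log (t Y : ℝ) (hY : 0 ≤ Y) :
    ∫ s in (t - Y)..(t + Y), 1 / (1 + |t - s|) = 2 * Real.log (1 + Y) := by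
  have hcont : Continuous (fun s : ℝ => 1 / (1 + |t - s|)) := by
    refine continuous_const.div (by fun_prop) fun s => ?_
    positivity
  have h1 : ∫ s in (t - Y)..t, 1 / (1 + |t - s|) = Real.log (1 + Y) := by
    have e1 : ∫ s in (t - Y)..t, 1 / (1 + |t - s|) =
        ∫ s in (t - Y)..t, (fun u : ℝ => 1 / u) (1 + t - s) := by
      refine intervalIntegral.integral_congr fun s hs => ?_
      rw [Set.uIcc_of_le (by linarith), Set.mem_Icc] at hs
      simp only
      rw [abs_of_nonneg (by linarith)]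
      congr 1
      ring
    rw [e1, intervalIntegral.integral_comp_sub_left, integral_one_div_of_pos (by linarith)
      (by linarith)]
    congr 1
    rw [show (1 : ℝ) + t - t = 1 by ring, div_one]
    ring
  have h2 : ∫ s in t..(t + Y), 1 / (1 + |t - s|) = Real.log (1 + Y) := by
    have e1 : ∫ s in t..(t + Y), 1 / (1 + |t - s|) =
        ∫ s in t..(t + Y), (fun u : ℝ => 1 / u) (s - (t - 1)) := by
      refine intervalIntegral.integral_congr fun s hs => ?_
      rw [Set.uIcc_of_le (by linarith), Set.mem_Icc] at hs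
      simp only
      rw [abs_of_nonpos (by linarith)]
      congr 1
      ring
    rw [e1, intervalIntegral.integral_comp_sub_right, integral_one_div_of_pos (by linarith)
      (by linarith)]
    congr 1
    rw [show t - (t - 1) = 1 by ring, div_one]
    ring
  rw [← intervalIntegral.integral_add_adjacent_intervals (b := t)
    (hcont.intervalIntegrable _ _) (hcont.intervalIntegrable _ _), h1, h2]
  ring

theorem g_int (κ : ℝ) (hκ : 0 < κ) : ∃ η : ℝ, 0 < η ∧ η ≤ 1 ∧ ∃ x0 : ℕ, ∀ x : ℕ, x0 ≤ x →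
    ∀ (K : ℕ) (B : Set ℝ), (x : ℝ) ^ κ ≤ K → K ≤ x → MeasurableSet B →
      B ⊆ Set.Icc (-((x : ℝ) ^ (2 : ℕ))) ((x : ℝ) ^ (2 : ℕ)) → volume.real B ≤ (x : ℝ) ^ η →
      ∀ t ∈ B, ∫ s in B, ‖∑ n ∈ Icc 1 K, ee ((t - s) * Real.log n)‖ ≤ K * Real.log x ^ 2 := by
  obtain ⟨δ, C, hδ, hδ1, hC, x1, hx1⟩ := Pool.Agent.H35.W.ks1 κ hκ
  obtain ⟨x2, hx2⟩ := log_ge (13 * C)
  refine ⟨δ, hδ, hδ1, max (max x1 x2) 3, fun x hx K B hK hKx hB hBs hvol t ht => ?_⟩
  have hxx1 : x1 ≤ x := le_trans (le_trans (le_max_left _ _) (le_max_left _ _)) hx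
  have hxx2 : x2 ≤ x := le_trans (le_trans (le_max_right _ _) (le_max_left _ _)) hx
  have hx3 : 3 ≤ x := le_trans (le_max_right _ _) hx
  have hxr : (3 : ℝ) ≤ x := by exact_mod_cast hx3
  have hx0 : (0 : ℝ) < x := by linarith
  have hL := hx2 x hxx2
  set L : ℝ := Real.log x with hLdef
  have hL1 : 13 ≤ L := by linarith
  have hK0 : (0 : ℝ) ≤ K := Nat.cast_nonneg _
  set Y : ℝ := 2 * (x : ℝ) ^ 2 with hY
  have hY0 : 0 ≤ Y := by positivity
  have hYx : 1 + Y ≤ (x : ℝ) ^ 3 := by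
    rw [hY]
    nlinarith [sq_nonneg ((x : ℝ) - 3)]
  have hxd : 0 ≤ (x : ℝ) ^ (-δ) := Real.rpow_nonneg hx0.le _
  -- pointwise bound
  have hpt : ∀ s ∈ B, ‖∑ n ∈ Icc 1 K, ee ((t - s) * Real.log n)‖ ≤
      2 * C * K * (1 / (1 + |t - s|)) + C * K * (x : ℝ) ^ (-δ) := by
    intro s hs
    have hs1 := hBs hs
    have ht1 := hBs ht
    rw [Set.mem_Icc] at hs1 ht1
    have habs : |t - s| ≤ Y := by
      rw [hY, abs_le]
      constructor <;> linarith [hs1.1, hs1.2, ht1.1, ht1.2]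
    rcases lt_or_ge |t - s| 1 with h | h
    · have h1 : ‖∑ n ∈ Icc 1 K, ee ((t - s) * Real.log n)‖ ≤ K := by
        refine (norm_sum_le _ _).trans ?_
        refine (Finset.sum_le_card_nsmul _ _ 1 fun n _ =>
          (Pool.Agent.H91.PK.LSa_norm_ee _).le).trans ?_
        rw [Nat.card_Icc, nsmul_eq_mul, mul_one, Nat.add_sub_cancel]
      have h2 : 1 ≤ 2 * (1 / (1 + |t - s|)) := by
        rw [mul_one_div, le_div_iff₀ (by positivity)]
        linarith
      have h3 : (0 : ℝ) ≤ C * K * (x : ℝ) ^ (-δ) := by positivity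
      have h4 : (K : ℝ) ≤ 2 * C * K * (1 / (1 + |t - s|)) := by
        calc (K : ℝ) = K * 1 := (mul_one _).symm
          _ ≤ K * (2 * (1 / (1 + |t - s|))) := mul_le_mul_of_nonneg_left h2 hK0
          _ = 1 * (2 * K * (1 / (1 + |t - s|))) := by ring
          _ ≤ C * (2 * K * (1 / (1 + |t - s|))) :=
              mul_le_mul_of_nonneg_right hC (by positivity)
          _ = _ := by ring
      linarith
    · have h1 := hx1 x hxx1 K 0 K 0 (t - s) hK hKx le_rfl le_rfl zero_le_one h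
        (habs.trans (by linarith))
      simp only [add_zero] at h1
      have e : Ioc 0 K = Icc 1 K := by
        ext n
        simp only [mem_Ioc, mem_Icc]
        omega
      rw [e] at h1
      refine h1.trans ?_
      have h2 : 1 / |t - s| ≤ 2 * (1 / (1 + |t - s|)) := by
        rw [mul_one_div, div_le_div_iff₀ (by linarith) (by positivity)]
        linarith
      calc C * K * (1 / |t - s| + (x : ℝ) ^ (-δ)) ≤
            C * K * (2 * (1 / (1 + |t - s|)) + (x : ℝ) ^ (-δ)) :=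
            mul_le_mul_of_nonneg_left (by linarith) (by positivity)
        _ = _ := by ring
  have hcee : Continuous (fun s : ℝ => ‖∑ n ∈ Icc 1 K, ee ((t - s) * Real.log n)‖) := by
    unfold ee
    fun_prop
  have hcg0 : Continuous (fun s : ℝ => 1 / (1 + |t - s|)) := by
    refine continuous_const.div (by fun_prop) fun s => ?_
    positivity
  have hcg : Continuous (fun s : ℝ => 2 * C * K * (1 / (1 + |t - s|))) :=
    continuous_const.mul hcg0
  have hi1 : IntegrableOn (fun s : ℝ => ‖∑ n ∈ Icc 1 K, ee ((t - s) * Real.log n)‖) B :=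
    (hcee.continuousOn.integrableOn_Icc).mono_set hBs
  have hi2 : IntegrableOn (fun s : ℝ => 2 * C * K * (1 / (1 + |t - s|))) B :=
    (hcg.continuousOn.integrableOn_Icc).mono_set hBs
  have hi3 : IntegrableOn (fun _ : ℝ => C * K * (x : ℝ) ^ (-δ)) B :=
    (continuous_const.continuousOn.integrableOn_Icc).mono_set hBs
  refine (setIntegral_mono_on hi1 (hi2.add hi3) hB hpt).trans ?_
  have e1 : ∫ s in B, (2 * C * K * (1 / (1 + |t - s|)) + C * K * (x : ℝ) ^ (-δ)) =
      2 * C * K * (∫ s in B, 1 / (1 + |t - s|)) + volume.real B * (C * K * (x : ℝ) ^ (-δ)) := by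
    rw [integral_add hi2 hi3, integral_const_mul, setIntegral_const, smul_eq_mul]
  have e2 : ∫ s in B, 1 / (1 + |t - s|) ≤ 2 * Real.log (1 + Y) := by
    rw [← GInt_log t Y hY0, intervalIntegral.integral_of_le (by linarith),
      ← integral_Icc_eq_integral_Ioc]
    refine setIntegral_mono_set (hcg0.continuousOn.integrableOn_Icc)
      (Filter.Eventually.of_forall fun s => ?_) (HasSubset.Subset.eventuallyLE ?_)
    · simp only [Pi.zero_apply]
      positivity
    · intro s hs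
      have hs1 := hBs hs
      have ht1 := hBs ht
      rw [Set.mem_Icc] at hs1 ht1 ⊢
      constructor <;> linarith [hs1.1, hs1.2, ht1.1, ht1.2]
  have e3 : Real.log (1 + Y) ≤ 3 * L := by
    calc Real.log (1 + Y) ≤ Real.log ((x : ℝ) ^ 3) := Real.log_le_log (by positivity) hYx
      _ = 3 * L := by rw [Real.log_pow, hLdef]; norm_num
  have e4 : volume.real B * (x : ℝ) ^ (-δ) ≤ 1 := by
    calc volume.real B * (x : ℝ) ^ (-δ) ≤ (x : ℝ) ^ δ * (x : ℝ) ^ (-δ) :=
          mul_le_mul_of_nonneg_right hvol hxd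
      _ = 1 := by rw [← Real.rpow_add hx0, add_neg_cancel, Real.rpow_zero]
  have e5 : 2 * C * K * (∫ s in B, 1 / (1 + |t - s|)) ≤ 2 * C * K * (2 * (3 * L)) := by
    refine mul_le_mul_of_nonneg_left ?_ (by positivity)
    linarith
  have e6 : volume.real B * (C * K * (x : ℝ) ^ (-δ)) ≤ C * K * 1 := by
    calc volume.real B * (C * K * (x : ℝ) ^ (-δ)) = C * K * (volume.real B * (x : ℝ) ^ (-δ)) := by
          ring
      _ ≤ C * K * 1 := mul_le_mul_of_nonneg_left e4 (by positivity)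
  have e7 : 12 * C * L + C ≤ L ^ 2 := by
    have : C ≤ C * L := le_mul_of_one_le_right (by linarith) (by linarith)
    nlinarith
  change ∫ s in B, (2 * C * K * (1 / (1 + |t - s|)) + C * K * (x : ℝ) ^ (-δ)) ≤ K * L ^ 2
  rw [e1]
  calc 2 * C * K * (∫ s in B, 1 / (1 + |t - s|)) + volume.real B * (C * K * (x : ℝ) ^ (-δ))
      ≤ 2 * C * K * (2 * (3 * L)) + C * K * 1 := add_le_add e5 e6
    _ = K * (12 * C * L + C) := by ring
    _ ≤ K * L ^ 2 := mul_le_mul_of_nonneg_left e7 hK0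

end Pool.Agent.H80.LV

end

section

/-!
# LV HM: the Halász-Montgomery inequality for short sets
-/

set_option autoImplicit false

namespace Pool.Agent.H80.LV

open Finset MeasureTheory
open Pool.Agent.H91.PK (ee)

theorem hm (κ : ℝ) (hκ : 0 < κ) : ∃ η : ℝ, 0 < η ∧ η ≤ 1 ∧ ∃ x0 : ℕ, ∀ x : ℕ, x0 ≤ x →
    ∀ (K : ℕ) (a : ℕ → ℂ) (B : Set ℝ), (x : ℝ) ^ κ ≤ K → K ≤ x → MeasurableSet B →
      B ⊆ Set.Icc (-((x : ℝ) ^ (2 : ℕ))) ((x : ℝ) ^ (2 : ℕ)) → volume.real B ≤ (x : ℝ) ^ η →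
      ∫ t in B, ‖∑ n ∈ Icc 1 K, a n * ee (t * Real.log n)‖ ^ 2
        ≤ K * Real.log x ^ 2 * ∑ n ∈ Icc 1 K, ‖a n‖ ^ 2 := by
  obtain ⟨η, h1, h2, x0, H⟩ := g_int κ hκ
  refine ⟨η, h1, h2, x0, fun x hx K a B hK hKx hB hb hv => ?_⟩
  exact dual_ineq B _ hB hb K a _ (by positivity) (H x hx K B hK hKx hB hb hv)

end Pool.Agent.H80.LV

end
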