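import Pool.Agent.H43.PJ.M07

/-! The parts of this file: H91.PK.Msq, H80.LV.Tau4, H80.LV.BoxDec, H91.PK.Vau, H76.GB.HiR, H53.MID.Gal, H53.MID.GDefs, H53.MID.Pars2, H53.MID.GoldA, H53.MID.Ppw. -/

section

/-!
PK Msq: mean squares of the type II coefficients.

* `sum_moebius_coprime`: for y ≥ 1, g ≥ 1: |∑_{e ≤ y, (e,g)=1} μ(e)/e| ≤ 1.
  Proof: y ∑ μ(e)/e = ∑ μ(e) floor(y/e) + ∑ μ(e) frac(y/e), and ∑_{e ≤ y,(e,g)=1} μ(e) floor(y/e)
   = ∑_{n ≤ y} ∑_{e | n, (e,g)=1} μ(e) = κ := #{n ≤ y : every prime factor of n divides g} ≥ 1 (n = 1).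
  The fractional parts are in [0,1) and 0 for e = 1; the e > 1 coprime to g are not counted in κ, so
   κ + #{2 ≤ e ≤ y, (e,g)=1} ≤ y, hence |y ∑ μ(e)/e| ≤ y.
* `cV_sq_large`: for n ≥ 2, cV V n = - ∑_{d | n, d ≤ V} μ(d).  ∑_{n ≤ Y} (∑_{d|n,d≤V} μ(d))²
   = ∑_{d1,d2 ≤ V} μ(d1)μ(d2) floor(Y/[d1,d2]) ≤ Y ∑ μ(d1)μ(d2)/[d1,d2] + V², and
   ∑_{d1,d2≤V} μμ/[d1,d2] = ∑_{g ≤ V} φ(g) (∑_{d ≤ V, g | d} μ(d)/d)²   ((d1,d2) = ∑_{g | d1, g | d2} φ(g)), and for
   squarefree g, ∑_{d≤V, g|d} μ(d)/d = (μ(g)/g) ∑_{e ≤ V/g, (e,g)=1} μ(e)/e (0 if g is not squarefree), so the sum is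
   ≤ ∑_{g≤V} φ(g)/g² ≤ ∑_{g ≤ V} 1/g ≤ log V + 1.   With V² ≤ Y: total ≤ Y (log V + 2).
* `cV_sq_all`: |cV V n| ≤ τ(n), and ∑_{n≤Y} τ(n)² ≤ Y (log Y + 1)³:
   ∑_{n≤Y} τ(n)² = ∑_{n} ∑_{d m = n} τ(dm) ≤ ∑_{d≤Y} τ(d) ∑_{m ≤ Y/d} τ(m) ≤ ∑_d τ(d) (Y/d)(1+log Y)
   ≤ Y (1+log Y) (∑_{a≤Y} 1/a)².
* `Lam_sq`: ∑_{M<m≤2M} Λ(m)² ≤ log(2M) ψ(2M) ≤ log(2M) (log 3) 2M  (`Pool.Agent.H91.Gold.psi_le_log_three`),
   log 3 ≤ 1.0987 (`Pool.Agent.H91.Gold.log_three_bounds`).
-/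

set_option autoImplicit false

namespace Pool.Agent.H91.PK

open Finset ArithmeticFunction

theorem Msq_abs_moebius (e : ℕ) : |(moebius e : ℝ)| ≤ 1 := by
  have := @abs_moebius_le_one e
  have h2 : ((|moebius e| : ℤ) : ℝ) ≤ ((1 : ℤ) : ℝ) := by exact_mod_cast this
  simpa using h2

theorem Msq_harmonic (n : ℕ) : ∑ g ∈ Icc 1 n, (1 : ℝ) / g ≤ 1 + Real.log n := by
  have h := harmonic_le_one_add_log n
  rw [harmonic_eq_sum_Icc] at h
  push_cast at h
  simpa [one_div] using h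

/-- reorganising a double sum -/
theorem Msq_sum_divisors (Y : ℕ) (f : ℕ → ℕ → ℝ) :
    ∑ n ∈ Icc 1 Y, ∑ d ∈ n.divisors, f d (n / d) =
      ∑ d ∈ Icc 1 Y, ∑ m ∈ Icc 1 (Y / d), f d m := by
  rw [Finset.sum_sigma', Finset.sum_sigma']
  refine Finset.sum_nbij' (fun x => ⟨x.2, x.1 / x.2⟩) (fun x => ⟨x.1 * x.2, x.1⟩) ?_ ?_ ?_ ?_ ?_
  · rintro ⟨n, d⟩ hx
    simp only [mem_sigma, mem_Icc, Nat.mem_divisors] at hx ⊢
    obtain ⟨⟨h1, h2⟩, h3, -⟩ := hx
    have hd : 0 < d := Nat.pos_of_dvd_of_pos h3 h1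
    exact ⟨⟨hd, (Nat.le_of_dvd h1 h3).trans h2⟩, Nat.div_pos (Nat.le_of_dvd h1 h3) hd,
      Nat.div_le_div_right h2⟩
  · rintro ⟨d, m⟩ hx
    simp only [mem_sigma, mem_Icc, Nat.mem_divisors] at hx ⊢
    obtain ⟨⟨h1, h2⟩, h3, h4⟩ := hx
    have h5 : d * m ≤ Y := by
      calc d * m ≤ d * (Y / d) := Nat.mul_le_mul_left _ h4
        _ ≤ Y := Nat.mul_div_le _ _
    have h6 : 0 < d * m := Nat.mul_pos h1 h3
    exact ⟨⟨h6, h5⟩, dvd_mul_right _ _, h6.ne'⟩
  · rintro ⟨n, d⟩ hx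
    simp only [mem_sigma, mem_Icc, Nat.mem_divisors] at hx ⊢
    rw [Nat.mul_div_cancel' hx.2.1]
  · rintro ⟨d, m⟩ hx
    simp only [mem_sigma, mem_Icc] at hx ⊢
    rw [Nat.mul_div_cancel_left m hx.1.1]
  · rintro ⟨n, d⟩ _
    rfl

theorem Msq_tau_sum (x : ℕ) :
    ∑ m ∈ Icc 1 x, (m.divisors.card : ℝ) ≤ x * (1 + Real.log x) := by
  have h1 : ∑ m ∈ Icc 1 x, (m.divisors.card : ℝ) = ∑ d ∈ Icc 1 x, ((x / d : ℕ) : ℝ) := by
    have := Msq_sum_divisors x (fun _ _ => (1 : ℝ))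
    simpa using this
  rw [h1]
  calc ∑ d ∈ Icc 1 x, ((x / d : ℕ) : ℝ) ≤ ∑ d ∈ Icc 1 x, (x : ℝ) * (1 / d) := by
        apply sum_le_sum
        intro d _
        have : ((x / d : ℕ) : ℝ) ≤ (x : ℝ) / d := Nat.cast_div_le
        rwa [mul_one_div]
    _ = x * ∑ d ∈ Icc 1 x, (1 : ℝ) / d := by rw [mul_sum]
    _ ≤ x * (1 + Real.log x) :=
        mul_le_mul_of_nonneg_left (Msq_harmonic x) (Nat.cast_nonneg _)

theorem Msq_tau_sq (Y : ℕ) (hY : 1 ≤ Y) :
    ∑ n ∈ Icc 1 Y, (n.divisors.card : ℝ) ^ 2 ≤ Y * (Real.log Y + 1) ^ 3 := by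
  have hlog : 0 ≤ Real.log Y := Real.log_natCast_nonneg Y
  have hY0 : (0 : ℝ) < Y := by exact_mod_cast hY
  calc ∑ n ∈ Icc 1 Y, (n.divisors.card : ℝ) ^ 2
      ≤ ∑ n ∈ Icc 1 Y, ∑ d ∈ n.divisors, (d.divisors.card : ℝ) * ((n / d).divisors.card : ℝ) := by
        apply sum_le_sum
        intro n hn
        have h1 : (n.divisors.card : ℝ) ^ 2 = ∑ d ∈ n.divisors, (n.divisors.card : ℝ) := by
          rw [sum_const, nsmul_eq_mul, pow_two]
        rw [h1]
        apply sum_le_sum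
        intro d hd
        rw [Nat.mem_divisors] at hd
        have h2 : n.divisors.card ≤ d.divisors.card * (n / d).divisors.card := by
          conv_lhs => rw [← Nat.mul_div_cancel' hd.1]
          rw [Nat.divisors_mul]
          exact card_mul_le
        exact_mod_cast h2
    _ = ∑ d ∈ Icc 1 Y, ∑ m ∈ Icc 1 (Y / d), (d.divisors.card : ℝ) * (m.divisors.card : ℝ) :=
        Msq_sum_divisors Y (fun d m => (d.divisors.card : ℝ) * (m.divisors.card : ℝ))
    _ ≤ ∑ d ∈ Icc 1 Y, (d.divisors.card : ℝ) * ((Y : ℝ) / d * (1 + Real.log Y)) := by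
        apply sum_le_sum
        intro d hd
        rw [mem_Icc] at hd
        rw [← mul_sum]
        apply mul_le_mul_of_nonneg_left _ (Nat.cast_nonneg _)
        have hd0 : (0 : ℝ) < d := by exact_mod_cast hd.1
        have h1 := Msq_tau_sum (Y / d)
        have h2 : ((Y / d : ℕ) : ℝ) ≤ (Y : ℝ) / d := Nat.cast_div_le
        have h3 : 1 ≤ Y / d := Nat.div_pos hd.2 hd.1
        have h4 : Real.log ((Y / d : ℕ) : ℝ) ≤ Real.log Y := by
          apply Real.log_le_log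
          · exact_mod_cast h3
          · exact_mod_cast Nat.div_le_self Y d
        refine h1.trans ?_
        apply mul_le_mul h2 (by linarith) _ (by positivity)
        have : 0 ≤ Real.log ((Y / d : ℕ) : ℝ) := Real.log_natCast_nonneg _
        linarith
    _ = Y * (1 + Real.log Y) * ∑ d ∈ Icc 1 Y, (d.divisors.card : ℝ) * (1 / d) := by
        rw [mul_sum]
        apply sum_congr rfl
        intro d _
        ring
    _ ≤ Y * (1 + Real.log Y) * (1 + Real.log Y) ^ 2 := by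
        apply mul_le_mul_of_nonneg_left _ (by positivity)
        have h1 : ∑ d ∈ Icc 1 Y, (d.divisors.card : ℝ) * (1 / d) =
            ∑ a ∈ Icc 1 Y, ∑ b ∈ Icc 1 (Y / a), (1 : ℝ) / a * (1 / b) := by
          rw [← Msq_sum_divisors Y (fun a b => (1 : ℝ) / a * (1 / b))]
          apply sum_congr rfl
          intro n hn
          rw [mem_Icc] at hn
          rw [← nsmul_eq_mul, ← sum_const]
          apply sum_congr rfl
          intro d hd
          rw [Nat.mem_divisors] at hd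
          have hd0 : d ≠ 0 := fun h => by
            rw [h] at hd
            exact hd.2 (Nat.eq_zero_of_zero_dvd hd.1)
          have h5 : (d : ℝ) * ((n / d : ℕ) : ℝ) = n := by
            exact_mod_cast Nat.mul_div_cancel' hd.1
          rw [div_mul_div_comm, one_mul, h5]
        rw [h1]
        calc ∑ a ∈ Icc 1 Y, ∑ b ∈ Icc 1 (Y / a), (1 : ℝ) / a * (1 / b)
            ≤ ∑ a ∈ Icc 1 Y, ∑ b ∈ Icc 1 Y, (1 : ℝ) / a * (1 / b) := by
              apply sum_le_sum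
              intro a _
              apply sum_le_sum_of_subset_of_nonneg
              · exact Icc_subset_Icc_right (Nat.div_le_self _ _)
              · intro b _ _
                positivity
          _ = (∑ a ∈ Icc 1 Y, (1 : ℝ) / a) ^ 2 := by
              rw [pow_two, sum_mul_sum]
          _ ≤ (1 + Real.log Y) ^ 2 := by
              apply pow_le_pow_left₀ _ (Msq_harmonic Y)
              apply sum_nonneg
              intro a _
              positivity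
    _ = Y * (Real.log Y + 1) ^ 3 := by ring

theorem cV_sq_all (V Y : ℕ) (hV : 1 ≤ V) (hY : 1 ≤ Y) :
    ∑ n ∈ Ioc V Y, (cV V n) ^ 2 ≤ Y * (Real.log Y + 1) ^ 3 := by
  refine le_trans ?_ (Msq_tau_sq Y hY)
  calc ∑ n ∈ Ioc V Y, (cV V n) ^ 2 ≤ ∑ n ∈ Ioc V Y, (n.divisors.card : ℝ) ^ 2 := by
        apply sum_le_sum
        intro n _
        rw [← sq_abs]
        apply pow_le_pow_left₀ (abs_nonneg _)
        unfold cV
        refine (abs_sum_le_sum_abs _ _).trans ?_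
        calc ∑ d ∈ n.divisors.filter (fun d => V < d), |(moebius d : ℝ)|
            ≤ ∑ d ∈ n.divisors.filter (fun d => V < d), (1 : ℝ) :=
              sum_le_sum fun d _ => Msq_abs_moebius d
          _ ≤ n.divisors.card := by
              rw [sum_const, nsmul_eq_mul, mul_one]
              exact_mod_cast card_filter_le _ _
    _ ≤ ∑ n ∈ Icc 1 Y, (n.divisors.card : ℝ) ^ 2 := by
        apply sum_le_sum_of_subset_of_nonneg
        · intro n hn
          rw [mem_Ioc] at hn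
          rw [mem_Icc]
          omega
        · intro n _ _
          positivity

end Pool.Agent.H91.PK

end

section

/-!
# LV Tau4: the fourth moment of the divisor function and its square over sparse sets

(1) `∑_{k ≤ y} τ(k)^4 / k ≤ (1 + log y)^16`: proved in `Pool/Agent/H70/EHC/Tau.lean` as the private theorems `tau_S_succ`,
`tau_S_pow` (copy them: `τ(mn) ≤ τ(m) τ(n)` and `∑_{m ≤ n} τ(m)^{k+1}/m ≤ (∑_{m ≤ n} τ(m)^k/m)^2`).  So
`∑_{k ≤ y} τ(k)^4 ≤ y ∑ τ(k)^4/k ≤ y (1 + log y)^16`.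
(2) Cauchy-Schwarz over `S ⊆ [1,y]`: `(∑_S τ^2)^2 ≤ |S| ∑_S τ^4`.
-/

set_option autoImplicit false

namespace Pool.Agent.H80.LV

open Finset

open scoped Pointwise in
private theorem tau_mul_le (d e : ℕ) :
    (d * e).divisors.card ≤ d.divisors.card * e.divisors.card := by
  rw [Nat.divisors_mul]
  exact card_mul_le

private noncomputable def tau_S (k n : ℕ) : ℝ := ∑ m ∈ Icc 1 n, (m.divisors.card : ℝ) ^ k / m

private theorem tau_S_nonneg (k n : ℕ) : 0 ≤ tau_S k n :=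
  sum_nonneg fun _ _ => by positivity

private theorem tau_S_succ (k n : ℕ) : tau_S (k + 1) n ≤ tau_S k n ^ 2 := by
  obtain ⟨f, hf⟩ : ∃ f : ℕ × ℕ → ℝ, f = fun p => ((p.1.divisors.card : ℝ) ^ k / p.1) *
      ((p.2.divisors.card : ℝ) ^ k / p.2) := ⟨_, rfl⟩
  have hf0 : ∀ p, 0 ≤ f p := fun p => by rw [hf]; positivity
  have h1 : tau_S k n ^ 2 = ∑ p ∈ Icc 1 n ×ˢ Icc 1 n, f p := by
    unfold tau_S
    rw [sq, sum_mul_sum, sum_product, hf]
  have h2 : ∀ m ∈ Icc 1 n, (m.divisors.card : ℝ) ^ (k + 1) / m ≤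
      ∑ p ∈ ((Icc 1 n ×ˢ Icc 1 n).filter (fun p => p.1 * p.2 ∈ Icc 1 n)).filter
        (fun p => p.1 * p.2 = m), f p := by
    intro m hm
    have hm' := mem_Icc.1 hm
    have e1 : ((Icc 1 n ×ˢ Icc 1 n).filter (fun p => p.1 * p.2 ∈ Icc 1 n)).filter
        (fun p => p.1 * p.2 = m) = m.divisorsAntidiagonal := by
      ext p
      rw [mem_filter, mem_filter, mem_product, mem_Icc, mem_Icc, Nat.mem_divisorsAntidiagonal]
      constructor
      · rintro ⟨_, h⟩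
        exact ⟨h, by omega⟩
      · rintro ⟨h, _⟩
        have hp1 : 1 ≤ p.1 := Nat.one_le_iff_ne_zero.2 (by rintro h0; rw [h0, zero_mul] at h; omega)
        have hp2 : 1 ≤ p.2 := Nat.one_le_iff_ne_zero.2 (by rintro h0; rw [h0, mul_zero] at h; omega)
        have h3 : p.1 ≤ m := h ▸ Nat.le_mul_of_pos_right _ hp2
        have h4 : p.2 ≤ m := h ▸ Nat.le_mul_of_pos_left _ hp1
        exact ⟨⟨⟨⟨hp1, by omega⟩, ⟨hp2, by omega⟩⟩, h ▸ hm⟩, h⟩
    rw [e1]
    have e2 : (m.divisors.card : ℝ) = ∑ _p ∈ m.divisorsAntidiagonal, (1:ℝ) := by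
      rw [Nat.sum_divisorsAntidiagonal (fun _ _ => (1:ℝ))]
      simp
    have e3 : (m.divisors.card : ℝ) ^ (k + 1) / m =
        ∑ _p ∈ m.divisorsAntidiagonal, (m.divisors.card : ℝ) ^ k / m := by
      rw [← mul_one ((m.divisors.card : ℝ) ^ k / m), ← mul_sum, ← e2, pow_succ]
      ring
    rw [e3]
    refine sum_le_sum fun p hp => ?_
    rw [Nat.mem_divisorsAntidiagonal] at hp
    rw [hf]
    have h5 := tau_mul_le p.1 p.2
    rw [hp.1] at h5
    have h6 : (m.divisors.card : ℝ) ≤ (p.1.divisors.card : ℝ) * (p.2.divisors.card : ℝ) := by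
      exact_mod_cast h5
    have h7 : (m : ℝ) = (p.1 : ℝ) * p.2 := by rw [← hp.1]; push_cast; rfl
    show (m.divisors.card : ℝ) ^ k / m ≤ ((p.1.divisors.card : ℝ) ^ k / p.1) *
      ((p.2.divisors.card : ℝ) ^ k / p.2)
    rw [div_mul_div_comm, ← mul_pow, ← h7]
    exact div_le_div_of_nonneg_right (pow_le_pow_left₀ (by positivity) h6 k) (by positivity)
  rw [h1]
  unfold tau_S
  calc ∑ m ∈ Icc 1 n, (m.divisors.card : ℝ) ^ (k + 1) / m
      ≤ ∑ m ∈ Icc 1 n, ∑ p ∈ ((Icc 1 n ×ˢ Icc 1 n).filter (fun p => p.1 * p.2 ∈ Icc 1 n)).filter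
        (fun p => p.1 * p.2 = m), f p := sum_le_sum h2
    _ = ∑ p ∈ (Icc 1 n ×ˢ Icc 1 n).filter (fun p => p.1 * p.2 ∈ Icc 1 n), f p :=
        sum_fiberwise_of_maps_to (fun p hp => (mem_filter.1 hp).2) f
    _ ≤ ∑ p ∈ Icc 1 n ×ˢ Icc 1 n, f p :=
        sum_le_sum_of_subset_of_nonneg (filter_subset _ _) (fun p _ _ => hf0 p)

private theorem tau_S_zero (n : ℕ) : tau_S 0 n ≤ 1 + Real.log n := by
  have h := harmonic_le_one_add_log n
  refine le_trans (le_of_eq ?_) h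
  unfold tau_S
  rw [harmonic_eq_sum_Icc]
  push_cast
  refine sum_congr rfl fun m _ => ?_
  rw [pow_zero, one_div]

private theorem tau_S_pow (n k : ℕ) : tau_S k n ≤ (1 + Real.log n) ^ (2 ^ k) := by
  induction k with
  | zero => simpa using tau_S_zero n
  | succ k ih =>
    refine (tau_S_succ k n).trans ?_
    rw [pow_succ 2 k, pow_mul]
    exact pow_le_pow_left₀ (tau_S_nonneg k n) ih 2

theorem tau4 (y : ℕ) : ∑ k ∈ Icc 1 y, (k.divisors.card : ℝ) ^ 4 ≤ y * (1 + Real.log y) ^ 16 := by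
  have h := tau_S_pow y 4
  have h1 : ∑ k ∈ Icc 1 y, (k.divisors.card : ℝ) ^ 4 ≤ y * tau_S 4 y := by
    unfold tau_S
    rw [mul_sum]
    refine sum_le_sum fun m hm => ?_
    have hm' := mem_Icc.1 hm
    have hm0 : (0:ℝ) < m := by exact_mod_cast hm'.1
    have hmy : (m:ℝ) ≤ y := by exact_mod_cast hm'.2
    rw [← mul_div_assoc, le_div_iff₀ hm0, mul_comm]
    exact mul_le_mul_of_nonneg_right hmy (by positivity)
  refine h1.trans (mul_le_mul_of_nonneg_left (h.trans (le_of_eq ?_)) (by positivity))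
  norm_num

theorem tau2_sparse (y : ℕ) (S : Finset ℕ) (hS : S ⊆ Icc 1 y) :
    (∑ k ∈ S, (k.divisors.card : ℝ) ^ 2) ^ 2 ≤ S.card * (y * (1 + Real.log y) ^ 16) := by
  have h1 : (∑ k ∈ S, (k.divisors.card : ℝ) ^ 2) ^ 2 ≤
      S.card * ∑ k ∈ S, ((k.divisors.card : ℝ) ^ 2) ^ 2 := sq_sum_le_card_mul_sum_sq
  refine h1.trans (mul_le_mul_of_nonneg_left ?_ (by positivity))
  refine le_trans ?_ (tau4 y)
  calc ∑ k ∈ S, ((k.divisors.card : ℝ) ^ 2) ^ 2 ≤ ∑ k ∈ Icc 1 y, ((k.divisors.card : ℝ) ^ 2) ^ 2 :=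
        sum_le_sum_of_subset_of_nonneg hS (fun k _ _ => by positivity)
    _ = ∑ k ∈ Icc 1 y, (k.divisors.card : ℝ) ^ 4 := sum_congr rfl fun k _ => by ring

end Pool.Agent.H80.LV

end

section

/-!
# LV BoxDec: decomposition of a bilinear sum over `m n ≤ y` into boxes

Define `v 0 = U`, `v (j+1) = v j + v j / q` (natural division).  As `v j ≥ U ≥ 2 q`: `v j / q ≥ 2`, `v` is strictly increasing,
`q * v (j+1) ≤ (q+1) * v j`, and `v (j+1) ≥ v j + v j/q - 1 ≥ v j (1 + 1/(2q))` (real division; `v j ≥ 2q`).  Let `J` be the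
least `j` with `y ≤ v j`; then `v (J-1) < y` if `J ≥ 1`, `(1 + 1/(2q))^{J-1} ≤ y` (as `U ≥ 1`), and
`log(1 + 1/(2q)) ≥ 1/(4q)`, so `J ≤ 4 q log y + 1`.
`Ioc U y ⊆` the disjoint union of the `Ioc (v j) (v (j+1))`, `j < J`; the `m` with `m > y` give nothing
(`Ioc U (y/m) = ∅`, `y / m = 0`).  For `m ∈ Ioc (v j) (v (j+1))`: `y / v (j+1) ≤ y / m`, so
`Ioc U (y/m) = Ioc U (y / v (j+1)) ∪ Ioc (max U (y / v (j+1))) (y/m)`.  The second parts are collected according to `k = m n`: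
`e k = ∑ lam m * cc (k/m)` over the `m ∣ k` with `m ∈ Ioc (v j) (v (j+1))` for some `j < J`, `U < k/m`, `y / v (j+1) < k/m`, (and `k ≤ y`).
If `n > y / v (j+1)` then `n * v (j+1) > y`, so `k q = m n q ≥ n q (v j + 1) ... `: precisely
`k (q+1) = m n (q+1) > n v j (q+1) ≥ n q v (j+1) > ... ≥ q y`, i.e. `k (q+1) > q y`, so `k > y - y/(q+1)` and
`k ∉ Ioc (y - y/q - 1) y` is impossible for such `k`.
-/

set_option autoImplicit false

namespace Pool.Agent.H80.LV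

open Finset

/-- the box ends -/
private def bdv (U q : ℕ) : ℕ → ℕ
  | 0 => U
  | (j + 1) => bdv U q j + bdv U q j / q

private lemma bdv_zero (U q : ℕ) : bdv U q 0 = U := rfl

private lemma bdv_succ (U q j : ℕ) : bdv U q (j + 1) = bdv U q j + bdv U q j / q := rfl

private lemma bdv_ge (U q j : ℕ) : U ≤ bdv U q j := by
  induction j with
  | zero => exact le_refl _
  | succ j ih =>
    rw [bdv_succ]
    exact le_trans ih (Nat.le_add_right _ _)

private lemma bdv_lt (U q j : ℕ) (hq : 1 ≤ q) (hU : 2 * q ≤ U) : bdv U q j < bdv U q (j + 1) := by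
  have h1 := bdv_ge U q j
  have h2 : 1 ≤ bdv U q j / q := by
    rw [Nat.one_le_div_iff (by omega)]
    omega
  rw [bdv_succ]
  omega

private lemma bdv_mono (U q : ℕ) (hq : 1 ≤ q) (hU : 2 * q ≤ U) : StrictMono (bdv U q) :=
  strictMono_nat_of_lt_succ (fun j => bdv_lt U q j hq hU)

private lemma bdv_q (U q j : ℕ) : q * bdv U q (j + 1) ≤ (q + 1) * bdv U q j := by
  rw [bdv_succ]
  have h := Nat.mul_div_le (bdv U q j) q
  nlinarith

private lemma bdv_grow (U q j : ℕ) (hq : 1 ≤ q) (hU : 2 * q ≤ U) :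
    (1 + 1 / (2 * (q : ℝ))) ^ j ≤ (bdv U q j : ℝ) := by
  induction j with
  | zero =>
    rw [bdv_zero, pow_zero]
    have : 1 ≤ U := by omega
    exact_mod_cast this
  | succ j ih =>
    have hqp : (0 : ℝ) < q := by exact_mod_cast hq
    have h1 := bdv_ge U q j
    have h2 : 2 * (q : ℝ) ≤ (bdv U q j : ℝ) := by exact_mod_cast le_trans hU h1
    have h3 : bdv U q j < q * (bdv U q j / q) + q := by
      have h4 := Nat.div_add_mod (bdv U q j) q
      have h5 := Nat.mod_lt (bdv U q j) (show 0 < q by omega)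
      omega
    have h6 : (bdv U q j : ℝ) < q * ((bdv U q j / q : ℕ) : ℝ) + q := by exact_mod_cast h3
    rw [pow_succ, bdv_succ]
    push_cast
    have h7 : (bdv U q j : ℝ) * (1 / (2 * (q : ℝ))) ≤ ((bdv U q j / q : ℕ) : ℝ) := by
      rw [mul_one_div, div_le_iff₀ (by positivity)]
      nlinarith
    have h8 : (1 + 1 / (2 * (q : ℝ))) ^ j * (1 + 1 / (2 * (q : ℝ)))
        ≤ (bdv U q j : ℝ) * (1 + 1 / (2 * (q : ℝ))) :=
      mul_le_mul_of_nonneg_right ih (by positivity)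
    nlinarith

private lemma bdv_J (y U q J : ℕ) (hq : 1 ≤ q) (hU : 2 * q ≤ U) (hUy : U ≤ y)
    (hJ : ∀ j, j < J → bdv U q j < y) : (J : ℝ) ≤ 4 * q * Real.log y + 1 := by
  have hqp : (1 : ℝ) ≤ q := by exact_mod_cast hq
  have hy : 1 ≤ y := by omega
  have hyp : (1 : ℝ) ≤ y := by exact_mod_cast hy
  have hlog : 0 ≤ Real.log y := Real.log_nonneg hyp
  rcases Nat.eq_zero_or_pos J with h0 | h0
  · subst h0
    push_cast
    positivity
  · have h1 := hJ (J - 1) (by omega)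
    have h2 := bdv_grow U q (J - 1) hq hU
    have h3 : (1 + 1 / (2 * (q : ℝ))) ^ (J - 1) ≤ (y : ℝ) :=
      le_trans h2 (by exact_mod_cast h1.le)
    have h4 : ((J - 1 : ℕ) : ℝ) * Real.log (1 + 1 / (2 * (q : ℝ))) ≤ Real.log y := by
      rw [← Real.log_pow]
      exact Real.log_le_log (by positivity) h3
    have h5 : 1 / (4 * (q : ℝ)) ≤ Real.log (1 + 1 / (2 * (q : ℝ))) := by
      have h6 := Real.one_sub_inv_le_log_of_pos (show (0 : ℝ) < 1 + 1 / (2 * (q : ℝ)) by positivity)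
      refine le_trans ?_ h6
      have h7 : 1 - (1 + 1 / (2 * (q : ℝ)))⁻¹ = 1 / (2 * q + 1) := by
        field_simp
        ring
      rw [h7]
      apply one_div_le_one_div_of_le (by positivity)
      linarith
    have h8 : ((J - 1 : ℕ) : ℝ) = (J : ℝ) - 1 := by
      rw [Nat.cast_sub (by omega)]
      push_cast
      ring
    have h9 : ((J - 1 : ℕ) : ℝ) * (1 / (4 * (q : ℝ))) ≤ Real.log y :=
      le_trans (mul_le_mul_of_nonneg_left h5 (by positivity)) h4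
    rw [mul_one_div, div_le_iff₀ (by positivity), h8] at h9
    linarith

private lemma bd_sum {R : Type*} [AddCommMonoid R] (v : ℕ → ℕ) (hv : Monotone v) (J : ℕ) (F : ℕ → R) :
    ∑ j ∈ range J, ∑ m ∈ Ioc (v j) (v (j + 1)), F m = ∑ m ∈ Ioc (v 0) (v J), F m := by
  induction J with
  | zero => simp
  | succ J ih =>
    rw [sum_range_succ, ih]
    exact Finset.sum_Ioc_consecutive F (hv (Nat.zero_le J)) (hv (Nat.le_succ J))

private lemma bd_one (S : Finset ℕ) (m k : ℕ) (hm : 1 ≤ m) (hS : ∀ n ∈ S, 1 ≤ n) (a : ℝ) (c : ℕ → ℝ) :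
    |∑ n ∈ S, (if m * n = k then a * c n else 0)| ≤ if m ∈ k.divisors then |a| * |c (k / m)| else 0 := by
  by_cases hex : ∃ n ∈ S, m * n = k
  · obtain ⟨n, hn, hk⟩ := hex
    have h1 : ∑ n' ∈ S, (if m * n' = k then a * c n' else 0) = a * c n := by
      rw [Finset.sum_eq_single_of_mem n hn]
      · rw [if_pos hk]
      · intro b _ hbn
        rw [if_neg]
        intro h
        apply hbn
        exact Nat.eq_of_mul_eq_mul_left (by omega) (h.trans hk.symm)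
    have hn1 := hS n hn
    have hmk : m ∈ k.divisors := by
      rw [Nat.mem_divisors]
      refine ⟨⟨n, hk.symm⟩, ?_⟩
      rw [← hk]
      exact Nat.mul_ne_zero (by omega) (by omega)
    have hkm : k / m = n := by
      rw [← hk]
      exact Nat.mul_div_cancel_left n (by omega)
    rw [h1, if_pos hmk, hkm, abs_mul]
  · have h1 : ∑ n' ∈ S, (if m * n' = k then a * c n' else 0) = 0 := by
      apply Finset.sum_eq_zero
      intro n hn
      rw [if_neg]
      intro h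
      exact hex ⟨n, hn, h⟩
    rw [h1, abs_zero]
    split_ifs
    · positivity
    · exact le_refl _

theorem box_dec (y U q : ℕ) (hq : 1 ≤ q) (hU : 2 * q ≤ U) (hUy : U ≤ y) (lam cc : ℕ → ℝ) :
    ∃ (J : ℕ) (v : ℕ → ℕ) (e : ℕ → ℝ), (J : ℝ) ≤ 4 * q * Real.log y + 1 ∧
      (∀ j, U ≤ v j) ∧ (∀ j, v j < v (j + 1)) ∧ (∀ j, j < J → v (j + 1) ≤ 2 * y) ∧
      (∀ k, |e k| ≤ ∑ m ∈ k.divisors, |lam m| * |cc (k / m)|) ∧
      (∀ k, k ∉ Ioc (y - y / q - 1) y → e k = 0) ∧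
      ∀ g : ℕ → ℂ, ∑ m ∈ Ioc U y, ((lam m : ℝ) : ℂ) *
          ∑ n ∈ Ioc U (y / m), ((cc n : ℝ) : ℂ) * g (m * n)
        = ∑ j ∈ range J, ∑ m ∈ Ioc (v j) (v (j + 1)), ((lam m : ℝ) : ℂ) *
            ∑ n ∈ Ioc U (y / v (j + 1)), ((cc n : ℝ) : ℂ) * g (m * n)
          + ∑ k ∈ Icc 1 y, ((e k : ℝ) : ℂ) * g k := by
  classical
  have hsm := bdv_mono U q hq hU
  have hex : ∃ j, y ≤ bdv U q j := ⟨y, hsm.le_apply⟩
  set J := Nat.find hex with hJdef
  have hJ1 : y ≤ bdv U q J := Nat.find_spec hex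
  have hJ2 : ∀ j, j < J → bdv U q j < y := by
    intro j hj
    have := Nat.find_min hex hj
    omega
  set v := bdv U q with hvdef
  have hU1 : 1 ≤ U := by omega
  have hvpos : ∀ j, 1 ≤ v j := fun j => le_trans hU1 (bdv_ge U q j)
  refine ⟨J, v, fun k => ∑ j ∈ range J, ∑ m ∈ Ioc (v j) (v (j + 1)),
    ∑ n ∈ Ioc (max U (y / v (j + 1))) (y / m), (if m * n = k then lam m * cc n else 0),
    bdv_J y U q J hq hU hUy hJ2, bdv_ge U q, fun j => bdv_lt U q j hq hU, ?_, ?_, ?_, ?_⟩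
  · intro j hj
    have h1 := hJ2 j hj
    have h2 : v (j + 1) = v j + v j / q := bdv_succ U q j
    have h3 : v j / q ≤ v j := Nat.div_le_self _ _
    rw [h2]
    omega
  · intro k
    have hterm : ∀ j m, m ∈ Ioc (v j) (v (j + 1)) →
        |∑ n ∈ Ioc (max U (y / v (j + 1))) (y / m), (if m * n = k then lam m * cc n else 0)|
          ≤ if m ∈ k.divisors then |lam m| * |cc (k / m)| else 0 := by
      intro j m hm
      rw [mem_Ioc] at hm
      apply bd_one _ _ _ (by omega)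
      intro n hn
      rw [mem_Ioc] at hn
      omega
    calc |∑ j ∈ range J, ∑ m ∈ Ioc (v j) (v (j + 1)),
            ∑ n ∈ Ioc (max U (y / v (j + 1))) (y / m), (if m * n = k then lam m * cc n else 0)|
        ≤ ∑ j ∈ range J, ∑ m ∈ Ioc (v j) (v (j + 1)),
            (if m ∈ k.divisors then |lam m| * |cc (k / m)| else 0) := by
          refine le_trans (Finset.abs_sum_le_sum_abs _ _) (Finset.sum_le_sum fun j _ => ?_)
          exact le_trans (Finset.abs_sum_le_sum_abs _ _)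
            (Finset.sum_le_sum fun m hm => hterm j m hm)
      _ = ∑ m ∈ Ioc (v 0) (v J), (if m ∈ k.divisors then |lam m| * |cc (k / m)| else 0) :=
          bd_sum v hsm.monotone J _
      _ = ∑ m ∈ (Ioc (v 0) (v J)).filter (fun m => m ∈ k.divisors), |lam m| * |cc (k / m)| := by
          rw [Finset.sum_filter]
      _ ≤ ∑ m ∈ k.divisors, |lam m| * |cc (k / m)| := by
          apply Finset.sum_le_sum_of_subset_of_nonneg
          · intro m hm
            exact (Finset.mem_filter.1 hm).2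
          · intro m _ _
            positivity
  · intro k hk
    apply Finset.sum_eq_zero
    intro j _
    apply Finset.sum_eq_zero
    intro m hm
    apply Finset.sum_eq_zero
    intro n hn
    rw [if_neg]
    intro hmn
    apply hk
    rw [mem_Ioc] at hm hn ⊢
    have hvj := hvpos (j + 1)
    have hvj0 := hvpos j
    have hm1 : 1 ≤ m := by omega
    have hn1 : 1 ≤ n := by omega
    have hky : k ≤ y := by
      rw [← hmn, mul_comm]
      exact (Nat.le_div_iff_mul_le (by omega)).1 hn.2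
    refine ⟨?_, hky⟩
    by_contra hcon
    have hk1 : 1 ≤ k := by
      rw [← hmn]
      exact Nat.mul_pos (by omega) (by omega)
    have h1 : k + y / q + 1 ≤ y := by omega
    have h2 : y < q * (y / q) + q := by
      have h4 := Nat.div_add_mod y q
      have h5 := Nat.mod_lt y (show 0 < q by omega)
      omega
    have h3 : q * k + y < q * y := by
      have h4 : q * (k + y / q + 1) ≤ q * y := Nat.mul_le_mul_left q h1
      have h5 : q * (k + y / q + 1) = q * k + q * (y / q) + q := by ring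
      omega
    have h6 : y < n * v (j + 1) := by
      have h7 : y / v (j + 1) < n := lt_of_le_of_lt (le_max_right _ _) hn.1
      exact (Nat.div_lt_iff_lt_mul (by omega)).1 h7
    have h8 : q * v (j + 1) ≤ (q + 1) * v j := bdv_q U q j
    have h9 : q * y ≤ q * (n * v (j + 1)) := Nat.mul_le_mul_left q h6.le
    have h10 : n * (q * v (j + 1)) ≤ n * ((q + 1) * v j) := Nat.mul_le_mul_left n h8
    have h11 : n * (q + 1) * v j ≤ n * (q + 1) * m := Nat.mul_le_mul_left _ hm.1.le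
    have h12 : n * (q + 1) * m = q * k + k := by
      rw [← hmn]
      ring
    have h13 : q * (n * v (j + 1)) = n * (q * v (j + 1)) := by ring
    have h14 : n * ((q + 1) * v j) = n * (q + 1) * v j := by ring
    omega
  · intro g
    have hext : ∑ m ∈ Ioc U y, ((lam m : ℝ) : ℂ) *
          ∑ n ∈ Ioc U (y / m), ((cc n : ℝ) : ℂ) * g (m * n)
        = ∑ m ∈ Ioc (v 0) (v J), ((lam m : ℝ) : ℂ) *
          ∑ n ∈ Ioc U (y / m), ((cc n : ℝ) : ℂ) * g (m * n) := by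
      apply Finset.sum_subset
      · intro m hm
        rw [mem_Ioc] at hm ⊢
        have h0 : v 0 = U := rfl
        rw [h0]
        omega
      · intro m hm hm2
        rw [mem_Ioc] at hm hm2
        have h0 : v 0 = U := rfl
        rw [h0] at hm
        have hmy : y < m := by
          by_contra hc
          exact hm2 ⟨hm.1, by omega⟩
        rw [Nat.div_eq_of_lt hmy]
        rw [Finset.Ioc_eq_empty (by omega)]
        simp
    rw [hext, ← bd_sum v hsm.monotone J]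
    have hsplit : ∀ j m, m ∈ Ioc (v j) (v (j + 1)) →
        ((lam m : ℝ) : ℂ) * ∑ n ∈ Ioc U (y / m), ((cc n : ℝ) : ℂ) * g (m * n)
          = ((lam m : ℝ) : ℂ) * ∑ n ∈ Ioc U (y / v (j + 1)), ((cc n : ℝ) : ℂ) * g (m * n)
            + ∑ n ∈ Ioc (max U (y / v (j + 1))) (y / m),
                ((lam m : ℝ) : ℂ) * (((cc n : ℝ) : ℂ) * g (m * n)) := by
      intro j m hm
      rw [mem_Ioc] at hm
      have hvj0 := hvpos j
      have hle : y / v (j + 1) ≤ y / m := Nat.div_le_div_left hm.2 (by omega)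
      rw [← Finset.mul_sum, ← mul_add]
      congr 1
      by_cases hc : U ≤ y / v (j + 1)
      · rw [max_eq_right hc]
        exact (Finset.sum_Ioc_consecutive _ hc hle).symm
      · rw [max_eq_left (by omega)]
        rw [Finset.Ioc_eq_empty (show ¬ U < y / v (j + 1) by omega)]
        simp
    rw [Finset.sum_congr rfl fun j _ => Finset.sum_congr rfl fun m hm => hsplit j m hm]
    simp only [Finset.sum_add_distrib]
    congr 1
    have hk : ∀ k, (((∑ j ∈ range J, ∑ m ∈ Ioc (v j) (v (j + 1)),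
        ∑ n ∈ Ioc (max U (y / v (j + 1))) (y / m), (if m * n = k then lam m * cc n else 0) : ℝ)) : ℂ) * g k
        = ∑ j ∈ range J, ∑ m ∈ Ioc (v j) (v (j + 1)),
          ∑ n ∈ Ioc (max U (y / v (j + 1))) (y / m),
            (if m * n = k then ((lam m : ℝ) : ℂ) * (((cc n : ℝ) : ℂ) * g (m * n)) else 0) := by
      intro k
      push_cast
      rw [Finset.sum_mul]
      refine Finset.sum_congr rfl fun j _ => ?_
      rw [Finset.sum_mul]
      refine Finset.sum_congr rfl fun m _ => ?_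
      rw [Finset.sum_mul]
      refine Finset.sum_congr rfl fun n _ => ?_
      split_ifs with h
      · rw [← h]
        push_cast
        ring
      · rw [Complex.ofReal_zero, zero_mul]
    rw [Finset.sum_congr rfl fun k _ => hk k]
    rw [Finset.sum_comm]
    refine Finset.sum_congr rfl fun j _ => ?_
    rw [Finset.sum_comm]
    refine Finset.sum_congr rfl fun m hm => ?_
    rw [Finset.sum_comm]
    refine Finset.sum_congr rfl fun n hn => ?_
    rw [mem_Ioc] at hm hn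
    have hvj0 := hvpos j
    have hmem : m * n ∈ Icc 1 y := by
      rw [mem_Icc]
      constructor
      · exact Nat.mul_pos (by omega) (by omega)
      · rw [mul_comm]
        exact (Nat.le_div_iff_mul_le (by omega)).1 hn.2
    rw [Finset.sum_ite_eq, if_pos hmem]

end Pool.Agent.H80.LV

end

section

/-!
PK Vau: Vaughan's identity, summed against an arbitrary function `g`.

Pointwise: for n ≥ 1
 Λ(n) = [n ≤ U] Λ(n) + ∑_{ab=n, a ≤ V} μ(a) log b - ∑_{ab=n} nuV(a) + ∑_{ml=n, m > U} Λ(m) cV(l),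
 (cV(l) = ∑_{d|l, d>V} μ(d), nuV(a) = ∑_{de=a, d≤V, e≤U} μ(d)Λ(e)).
Proof: Λ·[>U] * (μ * 1) = Λ·[>U]; split μ = μ·[≤V] + μ·[>V]; and (μ[≤V]) * 1 * Λ[>U] = (μ[≤V]) * log - (μ[≤V])*Λ[≤U]*1
 because Λ * 1 = log.  One can work with ArithmeticFunction (ℝ) and its ring structure: define the arithmetic functions
 ΛU, ΛU', μV, μV' (restrictions, all vanish at 0) and compute in the commutative ring.
Then multiply by g(n), sum over n in [1,N] and reorder the sum over pairs (a,b) with ab ≤ N.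
In the last sum cV V n = 0 for n ≤ V, so the restriction n > V is harmless.
nuV(a) ≠ 0 only for a ≤ U V (a = d e, d ≤ V, e ≤ U).
-/

set_option autoImplicit false

namespace Pool.Agent.H91.PK

open Finset

/-- restriction of an arithmetic function to `n ≤ U` -/
noncomputable def Vau_lo (f : ArithmeticFunction ℝ) (U : ℕ) : ArithmeticFunction ℝ :=
  ⟨fun n => if n ≤ U then f n else 0, by simp⟩

/-- restriction of an arithmetic function to `n > U` -/
noncomputable def Vau_hi (f : ArithmeticFunction ℝ) (U : ℕ) : ArithmeticFunction ℝ :=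
  ⟨fun n => if n ≤ U then 0 else f n, by simp⟩

theorem Vau_lo_apply (f : ArithmeticFunction ℝ) (U n : ℕ) : Vau_lo f U n = if n ≤ U then f n else 0 := rfl

theorem Vau_hi_apply (f : ArithmeticFunction ℝ) (U n : ℕ) : Vau_hi f U n = if n ≤ U then 0 else f n := rfl

theorem Vau_split (f : ArithmeticFunction ℝ) (U : ℕ) : f = Vau_lo f U + Vau_hi f U := by
  ext n
  rw [ArithmeticFunction.add_apply, Vau_lo_apply, Vau_hi_apply]
  split_ifs <;> simp

/-- the real Moebius function -/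
noncomputable def Vau_mu : ArithmeticFunction ℝ := ((ArithmeticFunction.moebius : ArithmeticFunction ℤ) : ArithmeticFunction ℝ)

/-- the real zeta function -/
noncomputable def Vau_z : ArithmeticFunction ℝ := ((ArithmeticFunction.zeta : ArithmeticFunction ℕ) : ArithmeticFunction ℝ)

theorem Vau_mu_apply (n : ℕ) : Vau_mu n = (ArithmeticFunction.moebius n : ℝ) := rfl

theorem Vau_mu_z : Vau_mu * Vau_z = 1 := ArithmeticFunction.coe_moebius_mul_coe_zeta

theorem Vau_Lam_z : ArithmeticFunction.vonMangoldt * Vau_z = ArithmeticFunction.log :=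
  ArithmeticFunction.vonMangoldt_mul_zeta

theorem Vau_id (U V : ℕ) :
    (ArithmeticFunction.vonMangoldt : ArithmeticFunction ℝ)
      = Vau_lo ArithmeticFunction.vonMangoldt U + Vau_lo Vau_mu V * ArithmeticFunction.log
        - Vau_lo Vau_mu V * Vau_lo ArithmeticFunction.vonMangoldt U * Vau_z
        + Vau_hi ArithmeticFunction.vonMangoldt U * (Vau_hi Vau_mu V * Vau_z) := by
  have h1 := Vau_split ArithmeticFunction.vonMangoldt U
  have h2 := Vau_split Vau_mu V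
  have h3 := Vau_mu_z
  have h4 := Vau_Lam_z
  set Lam : ArithmeticFunction ℝ := ArithmeticFunction.vonMangoldt
  set A := Vau_lo Lam U
  set B := Vau_hi Lam U
  set C := Vau_lo Vau_mu V
  set D := Vau_hi Vau_mu V
  rw [← h4]
  have h5 : (C + D) * Vau_z = 1 := by rw [← h2]; exact h3
  have h6 : B * ((C + D) * Vau_z) = B := by rw [h5, mul_one]
  calc Lam = A + B := h1
    _ = A + B * ((C + D) * Vau_z) := by rw [h6]
    _ = A + C * ((A + B) * Vau_z) - C * A * Vau_z + B * (D * Vau_z) := by ring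
    _ = _ := by rw [← h1]

theorem Vau_sum_conv (F H : ArithmeticFunction ℝ) (N : ℕ) (g : ℕ → ℂ) :
    ∑ n ∈ Icc 1 N, (((F * H) n : ℝ) : ℂ) * g n
      = ∑ a ∈ Icc 1 N, ((F a : ℝ) : ℂ) * ∑ b ∈ Icc 1 (N / a), ((H b : ℝ) : ℂ) * g (a * b) := by
  have h1 : ∀ n ∈ Icc 1 N, (((F * H) n : ℝ) : ℂ) * g n
      = ∑ p ∈ n.divisorsAntidiagonal, ((F p.1 : ℝ) : ℂ) * (((H p.2 : ℝ) : ℂ) * g (p.1 * p.2)) := by
    intro n hn
    rw [ArithmeticFunction.mul_apply, Complex.ofReal_sum, Finset.sum_mul]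
    refine Finset.sum_congr rfl fun p hp => ?_
    rw [(Nat.mem_divisorsAntidiagonal.mp hp).1, Complex.ofReal_mul]
    ring
  rw [Finset.sum_congr rfl h1, Finset.sum_sigma']
  simp_rw [Finset.mul_sum]
  rw [Finset.sum_sigma']
  refine Finset.sum_bij' (fun x _ => ⟨x.2.1, x.2.2⟩) (fun y _ => ⟨y.1 * y.2, (y.1, y.2)⟩) ?_ ?_ ?_ ?_ ?_
  · rintro ⟨n, a, b⟩ hx
    simp only [Finset.mem_sigma, Finset.mem_Icc, Nat.mem_divisorsAntidiagonal] at hx ⊢
    obtain ⟨⟨hn1, hnN⟩, hab, hn0⟩ := hx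
    have ha : 1 ≤ a := by
      rcases Nat.eq_zero_or_pos a with h | h
      · subst h; simp at hab; omega
      · exact h
    have hb : 1 ≤ b := by
      rcases Nat.eq_zero_or_pos b with h | h
      · subst h; simp at hab; omega
      · exact h
    refine ⟨⟨ha, ?_⟩, hb, ?_⟩
    · calc a = a * 1 := (mul_one a).symm
        _ ≤ a * b := Nat.mul_le_mul_left a hb
        _ ≤ N := by rw [hab]; exact hnN
    · rw [Nat.le_div_iff_mul_le (by omega)]
      calc b * a = a * b := mul_comm b a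
        _ ≤ N := by rw [hab]; exact hnN
  · rintro ⟨a, b⟩ hy
    simp only [Finset.mem_sigma, Finset.mem_Icc, Nat.mem_divisorsAntidiagonal] at hy ⊢
    obtain ⟨⟨ha1, haN⟩, hb1, hb⟩ := hy
    rw [Nat.le_div_iff_mul_le (by omega)] at hb
    have : 0 < a * b := Nat.mul_pos (by omega) (by omega)
    refine ⟨⟨this, ?_⟩, trivial, this.ne'⟩
    calc a * b = b * a := mul_comm a b
      _ ≤ N := hb
  · rintro ⟨n, a, b⟩ hx
    simp only [Finset.mem_sigma, Finset.mem_Icc, Nat.mem_divisorsAntidiagonal] at hx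
    obtain ⟨⟨hn1, hnN⟩, hab, hn0⟩ := hx
    subst hab
    rfl
  · rintro ⟨a, b⟩ hy
    rfl
  · rintro ⟨n, a, b⟩ hx
    rfl

theorem Vau_restrict (F : ℕ → ℂ) (G : ℕ → ℂ) (N M : ℕ) (hF : ∀ a, M < a → F a = 0)
    (hG : ∀ a, N < a → G a = 0) : ∑ a ∈ Icc 1 N, F a * G a = ∑ a ∈ Icc 1 M, F a * G a := by
  have h1 : ∑ a ∈ Icc 1 N, F a * G a = ∑ a ∈ Icc 1 (max N M), F a * G a := by
    refine Finset.sum_subset (Finset.Icc_subset_Icc_right (le_max_left _ _)) fun a ha hna => ?_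
    rw [hG a, mul_zero]
    simp only [Finset.mem_Icc, not_and, not_le] at ha hna
    exact hna ha.1
  have h2 : ∑ a ∈ Icc 1 M, F a * G a = ∑ a ∈ Icc 1 (max N M), F a * G a := by
    refine Finset.sum_subset (Finset.Icc_subset_Icc_right (le_max_right _ _)) fun a ha hna => ?_
    rw [hF a, zero_mul]
    simp only [Finset.mem_Icc, not_and, not_le] at ha hna
    exact hna ha.1
  rw [h1, h2]

theorem Vau_nuV (U V a : ℕ) :
    (Vau_lo Vau_mu V * Vau_lo ArithmeticFunction.vonMangoldt U) a = nuV U V a := by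
  rw [ArithmeticFunction.mul_apply, nuV, Finset.sum_filter,
    Nat.sum_divisorsAntidiagonal (fun x y => Vau_lo Vau_mu V x * Vau_lo ArithmeticFunction.vonMangoldt U y)]
  refine Finset.sum_congr rfl fun d _ => ?_
  rw [Vau_lo_apply, Vau_lo_apply, Vau_mu_apply]
  by_cases h1 : d ≤ V <;> by_cases h2 : a / d ≤ U <;> simp [h1, h2]

theorem Vau_cV (V n : ℕ) : (Vau_hi Vau_mu V * Vau_z) n = cV V n := by
  rw [Vau_z, ArithmeticFunction.coe_mul_zeta_apply, cV, Finset.sum_filter]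
  refine Finset.sum_congr rfl fun d _ => ?_
  rw [Vau_hi_apply, Vau_mu_apply]
  by_cases h1 : d ≤ V
  · simp [h1]
  · simp [h1]

theorem Vau_cV_zero {V n : ℕ} (h : n ≤ V) : cV V n = 0 := by
  rw [cV]
  refine Finset.sum_eq_zero fun d hd => ?_
  rw [Finset.mem_filter, Nat.mem_divisors] at hd
  have := Nat.le_of_dvd (Nat.pos_of_ne_zero hd.1.2) hd.1.1
  omega

theorem Vau_nuV_zero {U V a : ℕ} (h : U * V < a) : nuV U V a = 0 := by
  rw [nuV]
  refine Finset.sum_eq_zero fun d hd => ?_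
  rw [Finset.mem_filter, Nat.mem_divisors] at hd
  exfalso
  have h1 : d * (a / d) = a := Nat.mul_div_cancel' hd.1.1
  have h2 : d * (a / d) ≤ V * U := Nat.mul_le_mul hd.2.1 hd.2.2
  rw [h1, mul_comm] at h2
  omega

theorem vaughan (N U V : ℕ) (g : ℕ → ℂ) :
    ∑ n ∈ Icc 1 N, ((ArithmeticFunction.vonMangoldt n : ℝ) : ℂ) * g n
      = ∑ n ∈ Icc 1 (min U N), ((ArithmeticFunction.vonMangoldt n : ℝ) : ℂ) * g n
      + ∑ a ∈ Icc 1 V, ((ArithmeticFunction.moebius a : ℝ) : ℂ) *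
          ∑ b ∈ Icc 1 (N / a), ((Real.log b : ℝ) : ℂ) * g (a * b)
      - ∑ a ∈ Icc 1 (U * V), ((nuV U V a : ℝ) : ℂ) * ∑ b ∈ Icc 1 (N / a), g (a * b)
      + ∑ m ∈ Ioc U N, ((ArithmeticFunction.vonMangoldt m : ℝ) : ℂ) *
          ∑ n ∈ Ioc V (N / m), ((cV V n : ℝ) : ℂ) * g (m * n) := by
  have hid := Vau_id U V
  have hpt : ∀ n, ((ArithmeticFunction.vonMangoldt n : ℝ) : ℂ) * g n
      = ((Vau_lo ArithmeticFunction.vonMangoldt U n : ℝ) : ℂ) * g n
        + (((Vau_lo Vau_mu V * ArithmeticFunction.log) n : ℝ) : ℂ) * g n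
        - (((Vau_lo Vau_mu V * Vau_lo ArithmeticFunction.vonMangoldt U * Vau_z) n : ℝ) : ℂ) * g n
        + (((Vau_hi ArithmeticFunction.vonMangoldt U * (Vau_hi Vau_mu V * Vau_z)) n : ℝ) : ℂ) * g n := by
    intro n
    conv_lhs => rw [hid]
    rw [ArithmeticFunction.add_apply, sub_eq_add_neg, ArithmeticFunction.add_apply,
      ArithmeticFunction.add_apply, ArithmeticFunction.neg_apply]
    push_cast
    ring
  rw [Finset.sum_congr rfl fun n _ => hpt n, Finset.sum_add_distrib, Finset.sum_sub_distrib,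
    Finset.sum_add_distrib, Vau_sum_conv (Vau_lo Vau_mu V) ArithmeticFunction.log,
    Vau_sum_conv (Vau_lo Vau_mu V * Vau_lo ArithmeticFunction.vonMangoldt U) Vau_z,
    Vau_sum_conv (Vau_hi ArithmeticFunction.vonMangoldt U) (Vau_hi Vau_mu V * Vau_z)]
  have hGz : ∀ (H : ℕ → ℂ) (a : ℕ), N < a → ∑ b ∈ Icc 1 (N / a), H b * g (a * b) = 0 := by
    intro H a ha
    rw [Nat.div_eq_of_lt ha]
    simp
  congr 1
  · congr 1
    · congr 1
      · rw [show ∑ n ∈ Icc 1 (min U N), ((ArithmeticFunction.vonMangoldt n : ℝ) : ℂ) * g n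
          = ∑ n ∈ Icc 1 (min U N), ((Vau_lo ArithmeticFunction.vonMangoldt U n : ℝ) : ℂ) * g n from ?_]
        · symm
          refine Finset.sum_subset (Finset.Icc_subset_Icc_right (min_le_right _ _)) fun a ha hna => ?_
          simp only [Finset.mem_Icc, not_and, not_le] at ha hna
          have h1 := hna ha.1
          rw [min_lt_iff] at h1
          have h2 : ¬ a ≤ U := by
            rcases h1 with h1 | h1
            · omega
            · omega
          rw [Vau_lo_apply, if_neg h2]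
          simp
        · refine Finset.sum_congr rfl fun n hn => ?_
          rw [Finset.mem_Icc, le_min_iff] at hn
          rw [Vau_lo_apply, if_pos hn.2.1]
      · rw [Vau_restrict (fun a => ((Vau_lo Vau_mu V a : ℝ) : ℂ))
          (fun a => ∑ b ∈ Icc 1 (N / a), ((ArithmeticFunction.log b : ℝ) : ℂ) * g (a * b)) N V]
        · refine Finset.sum_congr rfl fun a ha => ?_
          rw [Finset.mem_Icc] at ha
          rw [Vau_lo_apply, if_pos ha.2, Vau_mu_apply]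
          simp only [ArithmeticFunction.log_apply]
        · intro a ha
          rw [Vau_lo_apply, if_neg (by omega)]
          simp
        · intro a ha
          exact hGz _ a ha
    · rw [Vau_restrict (fun a => (((Vau_lo Vau_mu V * Vau_lo ArithmeticFunction.vonMangoldt U) a : ℝ) : ℂ))
          (fun a => ∑ b ∈ Icc 1 (N / a), ((Vau_z b : ℝ) : ℂ) * g (a * b)) N (U * V)]
      · refine Finset.sum_congr rfl fun a ha => ?_
        rw [Vau_nuV]
        congr 1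
        refine Finset.sum_congr rfl fun b hb => ?_
        rw [Finset.mem_Icc] at hb
        rw [Vau_z, ArithmeticFunction.natCoe_apply, ArithmeticFunction.zeta_apply_ne (by omega)]
        simp
      · intro a ha
        rw [Vau_nuV, Vau_nuV_zero ha]
        simp
      · intro a ha
        exact hGz _ a ha
  · have hsub : Ioc U N ⊆ Icc 1 N := by
      intro a ha
      rw [Finset.mem_Ioc] at ha
      rw [Finset.mem_Icc]
      omega
    rw [← Finset.sum_subset hsub]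
    · refine Finset.sum_congr rfl fun a ha => ?_
      rw [Finset.mem_Ioc] at ha
      rw [Vau_hi_apply, if_neg (by omega)]
      congr 1
      simp only [Vau_cV]
      have hsub2 : Ioc V (N / a) ⊆ Icc 1 (N / a) := by
        intro b hb
        rw [Finset.mem_Ioc] at hb
        rw [Finset.mem_Icc]
        omega
      rw [← Finset.sum_subset hsub2]
      intro b hb hnb
      rw [Finset.mem_Icc] at hb
      rw [Finset.mem_Ioc] at hnb
      have hbV : b ≤ V := by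
        by_contra hcon
        exact hnb ⟨by omega, hb.2⟩
      rw [Vau_cV_zero hbV]
      simp
    · intro a ha hna
      rw [Finset.mem_Icc] at ha
      rw [Finset.mem_Ioc] at hna
      have haU : a ≤ U := by
        by_contra hcon
        exact hna ⟨by omega, ha.2⟩
      rw [Vau_hi_apply, if_pos haU]
      simp

/-- `|nuV(a)| ≤ log a` (as `∑_{e | a} Λ(e) = log a`). -/
theorem abs_nuV_le (U V a : ℕ) (ha : 1 ≤ a) : |nuV U V a| ≤ Real.log a := by
  rw [nuV]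
  refine (Finset.abs_sum_le_sum_abs _ _).trans ?_
  have h1 : ∀ d ∈ a.divisors.filter (fun d => d ≤ V ∧ a / d ≤ U),
      |(ArithmeticFunction.moebius d : ℝ) * ArithmeticFunction.vonMangoldt (a / d)|
        ≤ ArithmeticFunction.vonMangoldt (a / d) := by
    intro d _
    rw [abs_mul, abs_of_nonneg (ArithmeticFunction.vonMangoldt_nonneg)]
    have h2 : |(ArithmeticFunction.moebius d : ℝ)| ≤ 1 := by
      have := ArithmeticFunction.abs_moebius_le_one (n := d)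
      exact_mod_cast this
    calc |(ArithmeticFunction.moebius d : ℝ)| * ArithmeticFunction.vonMangoldt (a / d)
        ≤ 1 * ArithmeticFunction.vonMangoldt (a / d) :=
          mul_le_mul_of_nonneg_right h2 ArithmeticFunction.vonMangoldt_nonneg
      _ = _ := one_mul _
  refine (Finset.sum_le_sum h1).trans ?_
  calc ∑ d ∈ a.divisors.filter (fun d => d ≤ V ∧ a / d ≤ U), ArithmeticFunction.vonMangoldt (a / d)
      ≤ ∑ d ∈ a.divisors, ArithmeticFunction.vonMangoldt (a / d) :=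
        Finset.sum_le_sum_of_subset_of_nonneg (Finset.filter_subset _ _)
          (fun _ _ _ => ArithmeticFunction.vonMangoldt_nonneg)
    _ = ∑ d ∈ a.divisors, ArithmeticFunction.vonMangoldt d := by
        exact Nat.sum_div_divisors a (fun d => ArithmeticFunction.vonMangoldt d)
    _ = Real.log a := ArithmeticFunction.vonMangoldt_sum

end Pool.Agent.H91.PK

end

section

/-!
# GB HiR: `∑_k lamR R k GG(k)`

Proof.  `lamR R k = ∑_{r ≤ R} (μ(r)/φ(r)) ramS r k`, `R = ⌊L^B⌋₊`.  For fixed `r`: `|ramS r k| ≤ φ(r)` (`ramS_eq`, a sum of `φ(r)` unit vectors) and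
`ramS r k` has period `r` in `k` (`Nat.gcd r (k + r) = Nat.gcd r k`).  Reverse the order, `j = x - k ∈ (x - z2, x - z1]` (`z2 ≤ x`; `k ≥ 1`):
`GG(k) = ee(j c/d) ee(t log j)`.  So we need `∑_{j ∈ Ioc a b} ψ(j) ee(t log(j + 0))` with
`ψ(j) = (μ(r)/φ(r)) ramS r (x - j) ee(j c/d)`.  Define `ψ(j)` for ALL `j` through the residue, e.g. with `ramS r (x + (r-1) j)` instead of
`ramS r (x - j)` (congruent mod `r` for `j ≤ x`; `ramS_congr`: `ramS` depends only on `Nat.gcd r n`): period `r d ≤ L^{2B}`,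
`(r d)^4 ≤ x`, `|ψ| ≤ 1`.  `ksap 1` with `K = x`: `≤ x L (1/|t| + x^{-δ})`; sum over `r ≤ R ≤ L^B`.
-/

set_option autoImplicit false

namespace Pool.Agent.H76.GB

open Finset
open Pool.Agent.H91.PK (ee)
open Pool.Agent.H91.EHA

theorem ramS_congr (r m n : ℕ) (h : m ≡ n [MOD r]) : ramS r m = ramS r n := by
  have e : Nat.gcd r m = Nat.gcd r n := by
    rw [Nat.gcd_comm r m, Nat.gcd_comm r n]
    exact h.gcd_eq
  unfold ramS
  rw [e]

theorem abs_ramS_le (r n : ℕ) (hr : 1 ≤ r) : |ramS r n| ≤ r.totient := by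
  have h1 := ramS_eq r n hr
  have h2 : |ramS r n| = ‖((ramS r n : ℝ) : ℂ)‖ := by
    rw [Complex.norm_real, Real.norm_eq_abs]
  rw [h2, h1]
  refine (norm_sum_le _ _).trans ?_
  have h3 : ∑ b ∈ (Icc 1 r).filter (fun b => Nat.Coprime b r), ‖ee ((n : ℝ) * b / r)‖ =
      (((Icc 1 r).filter (fun b => Nat.Coprime b r)).card : ℝ) := by
    rw [sum_congr rfl (fun b _ => Pool.Agent.H91.PK.LSa_norm_ee _), sum_const, nsmul_eq_mul,
      mul_one]
  rw [h3]
  have h4 : ((Icc 1 r).filter (fun b => Nat.Coprime b r)).card = r.totient := by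
    rw [← Nat.filter_coprime_Ico_eq_totient r 1]
    congr 1
    ext b
    rw [mem_filter, mem_filter, mem_Icc, mem_Ico, Nat.coprime_comm]
    constructor
    · rintro ⟨⟨h5, h6⟩, h7⟩
      exact ⟨⟨h5, by omega⟩, h7⟩
    · rintro ⟨⟨h5, h6⟩, h7⟩
      exact ⟨⟨h5, by omega⟩, h7⟩
  rw [h4]

end Pool.Agent.H76.GB

end

section

/-!
# MID Gal: short sums from the Fourier side (discrete)

Proof.  `D(z) = ∑_{z < m ≤ z+W} c m` (`z ∈ ℤ`, `m ∈ [1,X]`) is the `z`-th coefficient of `S(y) K(y)`, `S(y) = ∑ c m ee(m y)`, `K(y) = ∑_{j=1}^W ee(-j y)`.  Parseval on `[-1/2, 1/2]` (compare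
`Pool.Agent.H91.PK.LSa_parseval` in `H91/PK/LSa.lean`): `∑_z ‖D z‖^2 = ∫_{-1/2}^{1/2} ‖S‖^2 ‖K‖^2`, the sum over all integers `z ∈ [-W, X]` (only finitely many `D z ≠ 0`); drop `z < 0`.
`‖K(y)‖ ≤ W` and `‖K(y)‖ ≤ 1/|sin π y| ≤ 1/(2|y|)` for `0 < |y| ≤ 1/2`.  So the integral is `≤ W^2 ∫_{|y| ≤ Y} ‖S‖^2 + (1/(4 Y^2)) ∫_{-1/2}^{1/2} ‖S‖^2` and the last integral is `∑ ‖c m‖^2`.
-/

set_option autoImplicit false

namespace Pool.Agent.H53.MID

open Finset MeasureTheory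
open Pool.Agent.H91.PK (ee)

private noncomputable def Gal_K (W : ℕ) (y : ℝ) : ℂ := ∑ i ∈ range W, ee (((i : ℝ) - W) * y)

private theorem Gal_K_norm (W : ℕ) (y : ℝ) : ‖Gal_K W y‖ = ‖Pool.Agent.H92.EH.D W y‖ := by
  have h : Gal_K W y = ee (-(W * y)) * Pool.Agent.H92.EH.D W y := by
    unfold Gal_K Pool.Agent.H92.EH.D
    rw [Finset.mul_sum]
    refine Finset.sum_congr rfl fun i _ => ?_
    have h1 : Pool.Agent.H92.EH.e (i * y) = ee (i * y) := by
      unfold Pool.Agent.H91.PK.ee Pool.Agent.H92.EH.e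
      congr 1
      push_cast
      ring
    rw [h1, ← Pool.Agent.H91.PK.LSa_ee_add]
    congr 1
    ring
  rw [h, norm_mul, Pool.Agent.H91.PK.LSa_norm_ee, one_mul]

private theorem Gal_cont (x : ℝ) : Continuous (fun y : ℝ => ee (x * y)) := by
  unfold ee
  fun_prop

private noncomputable def Gal_b (X W : ℕ) (c : ℕ → ℂ) (n : ℕ) : ℂ :=
  ∑ m ∈ (Icc 1 X).filter (fun m => m ≤ n ∧ n < m + W), c m

private theorem Gal_conv (X W : ℕ) (c : ℕ → ℂ) (y : ℝ) :
    (∑ m ∈ Icc 1 X, c m * ee (m * y)) * Gal_K W y =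
      ∑ n ∈ range (X + W), Gal_b X W c n * ee (((n : ℝ) - W) * y) := by
  have h1 : ∑ n ∈ range (X + W), Gal_b X W c n * ee (((n : ℝ) - W) * y) =
      ∑ n ∈ range (X + W), ∑ m ∈ Icc 1 X, if (m ≤ n ∧ n < m + W) then c m * ee (((n : ℝ) - W) * y) else 0 := by
    refine Finset.sum_congr rfl fun n _ => ?_
    unfold Gal_b
    rw [Finset.sum_mul, Finset.sum_filter]
  rw [h1, Finset.sum_comm, Finset.sum_mul]
  refine Finset.sum_congr rfl fun m hm => ?_
  rw [Finset.mem_Icc] at hm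
  rw [← Finset.sum_filter]
  have h2 : (range (X + W)).filter (fun n => m ≤ n ∧ n < m + W) = Ico m (m + W) := by
    ext n
    simp only [Finset.mem_filter, Finset.mem_range, Finset.mem_Ico]
    omega
  rw [h2, Finset.sum_Ico_eq_sum_range]
  have h3 : m + W - m = W := by omega
  rw [h3]
  unfold Gal_K
  rw [mul_assoc, Finset.mul_sum, Finset.mul_sum]
  refine Finset.sum_congr rfl fun i _ => ?_
  rw [← Pool.Agent.H91.PK.LSa_ee_add]
  congr 2
  push_cast
  ring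

theorem gal (X W : ℕ) (c : ℕ → ℂ) (Y : ℝ) (hY : 0 < Y) (hY1 : Y ≤ 1 / 2) :
    ∑ z ∈ range X, ‖∑ m ∈ (Icc 1 X).filter (fun m => z < m ∧ m ≤ z + W), c m‖ ^ 2 ≤
      (W : ℝ) ^ 2 * (∫ y in Set.Icc (-Y) Y, ‖∑ m ∈ Icc 1 X, c m * ee (m * y)‖ ^ 2)
        + 1 / Y ^ 2 * ∑ m ∈ Icc 1 X, ‖c m‖ ^ 2 := by
  have h1 : ∑ z ∈ range X, ‖∑ m ∈ (Icc 1 X).filter (fun m => z < m ∧ m ≤ z + W), c m‖ ^ 2 ≤
      ∑ n ∈ range (X + W), ‖Gal_b X W c n‖ ^ 2 := by
    have e1 : ∀ z ∈ range X, ‖∑ m ∈ (Icc 1 X).filter (fun m => z < m ∧ m ≤ z + W), c m‖ ^ 2 =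
        ‖Gal_b X W c (z + W)‖ ^ 2 := by
      intro z _
      unfold Gal_b
      have e2 : (Icc 1 X).filter (fun m => z < m ∧ m ≤ z + W) =
          (Icc 1 X).filter (fun m => m ≤ z + W ∧ z + W < m + W) := by
        ext m
        simp only [Finset.mem_filter, Finset.mem_Icc]
        omega
      rw [e2]
    rw [Finset.sum_congr rfl e1, ← Finset.sum_image (f := fun n => ‖Gal_b X W c n‖ ^ 2) (g := fun z => z + W)
      (fun a _ b _ hab => Nat.add_right_cancel hab)]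
    refine Finset.sum_le_sum_of_subset_of_nonneg ?_ fun _ _ _ => by positivity
    intro n hn
    rw [Finset.mem_image] at hn
    obtain ⟨z, hz, rfl⟩ := hn
    rw [Finset.mem_range] at hz ⊢
    omega
  refine h1.trans ?_
  have hS : Continuous (fun y : ℝ => ∑ m ∈ Icc 1 X, c m * ee (m * y)) :=
    continuous_finsetSum _ fun m _ => continuous_const.mul (Gal_cont _)
  have hK : Continuous (fun y : ℝ => Gal_K W y) := by
    unfold Gal_K
    exact continuous_finsetSum _ fun m _ => Gal_cont _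
  have hS2 : Continuous (fun y : ℝ => ‖∑ m ∈ Icc 1 X, c m * ee (m * y)‖ ^ 2) := hS.norm.pow 2
  rw [← Pool.Agent.H91.PK.LSa_parseval (range (X + W)) (Gal_b X W c) W (-1 / 2)]
  simp_rw [← Gal_conv]
  have h2 : ∑ m ∈ Icc 1 X, ‖c m‖ ^ 2 = ∫ y in (-1 / 2 : ℝ)..(-1 / 2 + 1), ‖∑ m ∈ Icc 1 X, c m * ee (m * y)‖ ^ 2 := by
    rw [← Pool.Agent.H91.PK.LSa_parseval (Icc 1 X) c 0 (-1 / 2)]
    simp_rw [sub_zero]
  rw [h2]
  have e3 : (-1 / 2 + 1 : ℝ) = 1 / 2 := by norm_num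
  rw [e3, intervalIntegral.integral_of_le (by norm_num), intervalIntegral.integral_of_le (by norm_num)]
  have hpt : ∀ y ∈ Set.Ioc (-1 / 2 : ℝ) (1 / 2), ‖(∑ m ∈ Icc 1 X, c m * ee (m * y)) * Gal_K W y‖ ^ 2 ≤
      (Set.Icc (-Y) Y).indicator (fun y => (W : ℝ) ^ 2 * ‖∑ m ∈ Icc 1 X, c m * ee (m * y)‖ ^ 2) y +
        1 / Y ^ 2 * ‖∑ m ∈ Icc 1 X, c m * ee (m * y)‖ ^ 2 := by
    intro y hy
    rw [norm_mul, mul_pow]
    by_cases h : y ∈ Set.Icc (-Y) Y
    · rw [Set.indicator_of_mem h]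
      have h3 : ‖Gal_K W y‖ ≤ W := by
        rw [Gal_K_norm]
        exact Pool.Agent.H92.EH.norm_D_le_nat W y
      have h4 : ‖Gal_K W y‖ ^ 2 ≤ (W : ℝ) ^ 2 := pow_le_pow_left₀ (norm_nonneg _) h3 2
      have h5 : 0 ≤ 1 / Y ^ 2 * ‖∑ m ∈ Icc 1 X, c m * ee (m * y)‖ ^ 2 := by positivity
      have h6 : ‖∑ m ∈ Icc 1 X, c m * ee (m * y)‖ ^ 2 * ‖Gal_K W y‖ ^ 2 ≤
          (W : ℝ) ^ 2 * ‖∑ m ∈ Icc 1 X, c m * ee (m * y)‖ ^ 2 := by
        rw [mul_comm]
        exact mul_le_mul_of_nonneg_right h4 (by positivity)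
      linarith
    · rw [Set.indicator_of_notMem h, zero_add, mul_comm]
      refine mul_le_mul_of_nonneg_right ?_ (by positivity)
      have hlt : Y < |y| := by
        by_contra hcon
        push Not at hcon
        exact h ⟨by linarith [(abs_le.1 hcon).1], (abs_le.1 hcon).2⟩
      have h3 : ∀ m : ℤ, Y ≤ |y - m| := by
        intro m
        by_cases hm : m = 0
        · rw [hm, Int.cast_zero, sub_zero]
          exact hlt.le
        · have h4 : (1 : ℝ) ≤ |(m : ℝ)| := by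
            have := Int.one_le_abs hm
            exact_mod_cast this
          have h5 : |y| ≤ 1 / 2 := abs_le.2 ⟨by linarith [hy.1], hy.2⟩
          have h6 := abs_sub_abs_le_abs_sub (m : ℝ) y
          rw [abs_sub_comm] at h6
          linarith
      have h4 := Pool.Agent.H92.EH.norm_D_le W hY h3
      rw [← Gal_K_norm] at h4
      have h5 : 1 / (2 * Y) ≤ 1 / Y := one_div_le_one_div_of_le hY (by linarith)
      have h6 : ‖Gal_K W y‖ ^ 2 ≤ (1 / Y) ^ 2 := pow_le_pow_left₀ (norm_nonneg _) (h4.trans h5) 2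
      rwa [one_div_pow] at h6
  have hi1 : IntegrableOn (fun y => (Set.Icc (-Y) Y).indicator
      (fun y => (W : ℝ) ^ 2 * ‖∑ m ∈ Icc 1 X, c m * ee (m * y)‖ ^ 2) y) (Set.Ioc (-1 / 2 : ℝ) (1 / 2)) := by
    refine Integrable.integrableOn ?_
    rw [integrable_indicator_iff measurableSet_Icc]
    exact (continuous_const.mul hS2).integrableOn_Icc
  have hi2 : IntegrableOn (fun y => 1 / Y ^ 2 * ‖∑ m ∈ Icc 1 X, c m * ee (m * y)‖ ^ 2)
      (Set.Ioc (-1 / 2 : ℝ) (1 / 2)) :=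
    ((continuous_const.mul hS2).integrableOn_Icc).mono_set Set.Ioc_subset_Icc_self
  refine (setIntegral_mono_on ?_ (hi1.add hi2) measurableSet_Ioc hpt).trans ?_
  · exact (((hS.mul hK).norm.pow 2).integrableOn_Icc).mono_set Set.Ioc_subset_Icc_self
  · rw [integral_add' hi1 hi2, integral_const_mul]
    refine add_le_add ?_ le_rfl
    rw [setIntegral_indicator measurableSet_Icc, ← integral_const_mul]
    refine setIntegral_mono_set ?_ ?_ ?_
    · exact (continuous_const.mul hS2).integrableOn_Icc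
    · exact Filter.Eventually.of_forall fun y => by positivity
    · exact (Filter.Eventually.of_forall fun y (hy : y ∈ Set.Ioc (-1 / 2 : ℝ) (1 / 2) ∩ Set.Icc (-Y) Y) => hy.2)

end Pool.Agent.H53.MID

end

section

/-!
# MID GDefs: definitions for the Goldbach part

* `JJp`: mean square over short intervals in Fourier form, for `P ≥ L^b` (SP project: `jj_l`, `cor_h`, `lv`), used as a hypothesis; `JJT`, `zs` as in `H35/W/Defs.lean`;
* `PBp`: `P/(8 log P) ≤ #pb P` for `P ≥ P0` (`Pool.Agent.H76.GB.pb_card`), used as a hypothesis;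
* `badB g N H M`: blocks `i ∈ [N/(2H), 4N/H]` with `sup_α ‖Bs g H i α‖ > M`; `badT g N H Q M`: the same with `α = a/r`, `r ≤ Q`, and subintervals of the block;
* `F1 f Q J m = ∑_{j < J} Fp f (2^j Q) m`, `W1 Q J = ∑_{j<J} ∑_{p ∈ pb (2^j Q)} 1/p`, `W2 P = ∑_{p ∈ pb P} 1/p`.
-/

set_option autoImplicit false

namespace Pool.Agent.H53.MID

open Finset MeasureTheory
open Pool.Agent.H91.PK (ee)
open Pool.Agent.H91.EHA (Lam hR lamR ramS)
open Pool.Agent.H35.W (pb pbl JJT zs)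

/-- mean square of short sums, Fourier form -/
def JJp : Prop := ∀ B E : ℕ, ∃ b N0 : ℕ, ∀ N : ℕ, N0 ≤ N → ∀ (P d K1 K2 : ℕ) (c l : ℤ) (Y : ℝ),
  Real.log N ^ b ≤ P → P ^ 3 ≤ N → 1 ≤ d → (d : ℝ) ≤ Real.log N ^ B → IsCoprime c (d : ℤ) →
  N ≤ 32 * P * K1 → K1 < K2 → P * K2 ≤ 32 * N → 0 ≤ Y → P * Y ≤ 1 / Real.log N ^ (E + 13) →
    JJT (cut K1 K2 (hR ⌊Real.log N ^ (B + 1)⌋₊)) K2 (zs (pbl P d l)) ((c : ℝ) / d) 0 Y ≤ N / Real.log N ^ E

/-- Chebyshev's lower bound -/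
def PBp : Prop := ∃ P0 : ℕ, ∀ P : ℕ, P0 ≤ P → (P : ℝ) / (8 * Real.log P) ≤ ((pb P).card : ℝ)

open Classical in
/-- the blocks with a bad rational frequency and subinterval -/
noncomputable def badT (g : ℕ → ℝ) (N H : ℕ) (Q M : ℝ) : Finset ℕ :=
  (Icc (N / (2 * H)) (4 * N / H)).filter (fun i => ∃ r a y1 y2 : ℕ, 1 ≤ r ∧ (r : ℝ) ≤ Q ∧ i * H ≤ y1 ∧
    y2 ≤ (i + 1) * H ∧ M < ‖∑ m ∈ Ico y1 y2, (g m : ℂ) * ee (-(m * ((a : ℝ) / r)))‖)

/-- sum over the dyadic ranges `(2^j Q, 2^(j+1) Q]`, `j < J` -/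
noncomputable def F1 (f : ℕ → ℝ) (Q J m : ℕ) : ℝ := ∑ j ∈ range J, Fp f (2 ^ j * Q) m

noncomputable def W2 (P : ℕ) : ℝ := ∑ p ∈ pb P, 1 / (p : ℝ)

noncomputable def W1 (Q J : ℕ) : ℝ := ∑ j ∈ range J, W2 (2 ^ j * Q)

end Pool.Agent.H53.MID

end

section

/-!
# MID Pars2: Parseval for the binary problem

Proof.  `f^(α) = ∑_{m ∈ Ico Y1 Y2} f m ee(-(m α))`, `g^` likewise; `f^(α) g^(α) = ∑_s r(s) ee(-(s α))`, `r(s) = ∑_{m, s - m ∈ Ico Y1 Y2} f(s - m) g(m)`.  Parseval on `[0,1]` (`LSa_parseval` in `H91/PK/LSa.lean`):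
`∑_s r(s)^2 = ∫_0^1 ‖f^‖^2 ‖g^‖^2 ≤ M^2 ∫_0^1 ‖g^‖^2 = M^2 ∑ g^2`; keep only the even `s = 2n`, `n ∈ Ico Y1 Y2`.
-/

set_option autoImplicit false

namespace Pool.Agent.H53.MID

open Finset MeasureTheory
open Pool.Agent.H91.PK (ee)

private noncomputable def Pars2_r (f g : ℕ → ℝ) (Y1 Y2 s : ℕ) : ℝ :=
  ∑ m ∈ (Ico Y1 Y2).filter (fun m => m ≤ s ∧ s - m ∈ Ico Y1 Y2), f (s - m) * g m

private theorem Pars2_prod (f g : ℕ → ℝ) (Y1 Y2 : ℕ) (t : ℝ) :
    (∑ k ∈ Ico Y1 Y2, (f k : ℂ) * ee (((k : ℝ) - 0) * t)) *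
      (∑ m ∈ Ico Y1 Y2, (g m : ℂ) * ee (((m : ℝ) - 0) * t)) =
      ∑ s ∈ range (2 * Y2), (Pars2_r f g Y1 Y2 s : ℂ) * ee (((s : ℝ) - 0) * t) := by
  rw [Finset.sum_mul_sum, Finset.sum_comm]
  have h1 : ∀ s : ℕ, (Pars2_r f g Y1 Y2 s : ℂ) * ee (((s : ℝ) - 0) * t) =
      ∑ m ∈ Ico Y1 Y2, if m ≤ s ∧ s - m ∈ Ico Y1 Y2 then
        ((f (s - m) : ℂ) * (g m : ℂ)) * ee (((s : ℝ) - 0) * t) else 0 := by
    intro s
    unfold Pars2_r
    rw [← Finset.sum_filter, Complex.ofReal_sum, Finset.sum_mul]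
    refine Finset.sum_congr rfl fun m _ => ?_
    rw [Complex.ofReal_mul]
  simp_rw [h1]
  rw [Finset.sum_comm (s := range (2 * Y2))]
  refine Finset.sum_congr rfl fun m hm => ?_
  rw [← Finset.sum_filter]
  rw [Finset.mem_Ico] at hm
  refine Finset.sum_bij (fun k _ => k + m) ?_ ?_ ?_ ?_
  · intro k hk
    rw [Finset.mem_Ico] at hk
    rw [Finset.mem_filter, Finset.mem_range, Finset.mem_Ico]
    refine ⟨by omega, by omega, by omega, by omega⟩
  · intro a _ b _ hab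
    omega
  · intro s hs
    rw [Finset.mem_filter] at hs
    exact ⟨s - m, hs.2.2, by have := hs.2.1; omega⟩
  · intro k _
    have h2 : k + m - m = k := by omega
    have h3 : ee ((((k + m : ℕ) : ℝ) - 0) * t) = ee (((k : ℝ) - 0) * t) * ee (((m : ℝ) - 0) * t) := by
      rw [← Pool.Agent.H91.PK.LSa_ee_add]
      congr 1
      push_cast
      ring
    rw [h2, h3]
    ring

private theorem Pars2_cont (h : ℕ → ℂ) (S : Finset ℕ) :
    Continuous (fun t : ℝ => ‖∑ m ∈ S, h m * ee (((m : ℝ) - 0) * t)‖ ^ 2) := by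
  unfold ee
  fun_prop

theorem pars2 (f g : ℕ → ℝ) (Y1 Y2 : ℕ) (M S : ℝ) (hM : 0 ≤ M)
    (hf : ∀ α : ℝ, ‖∑ m ∈ Ico Y1 Y2, (f m : ℂ) * ee (-(m * α))‖ ≤ M) (hg : ∑ m ∈ Ico Y1 Y2, g m ^ 2 ≤ S) :
    ∑ n ∈ Ico Y1 Y2, (∑ m ∈ (Ico Y1 Y2).filter (fun m => m ≤ 2 * n ∧ 2 * n - m ∈ Ico Y1 Y2),
      f (2 * n - m) * g m) ^ 2 ≤ M ^ 2 * S := by
  have p1 := Pool.Agent.H91.PK.LSa_parseval (range (2 * Y2))
    (fun s => (Pars2_r f g Y1 Y2 s : ℂ)) 0 0
  have p2 := Pool.Agent.H91.PK.LSa_parseval (Ico Y1 Y2) (fun m => (g m : ℂ)) 0 0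
  have hF : ∀ t : ℝ, ‖∑ k ∈ Ico Y1 Y2, (f k : ℂ) * ee (((k : ℝ) - 0) * t)‖ ≤ M := by
    intro t
    have h := hf (-t)
    have h' : (∑ m ∈ Ico Y1 Y2, (f m : ℂ) * ee (-(m * (-t)))) =
        ∑ k ∈ Ico Y1 Y2, (f k : ℂ) * ee (((k : ℝ) - 0) * t) := by
      refine Finset.sum_congr rfl fun m _ => ?_
      congr 2
      ring
    rw [h'] at h
    exact h
  have h3 : ∫ t in (0 : ℝ)..(0 + 1),
      ‖∑ s ∈ range (2 * Y2), (Pars2_r f g Y1 Y2 s : ℂ) * ee (((s : ℝ) - 0) * t)‖ ^ 2 ≤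
      ∫ t in (0 : ℝ)..(0 + 1),
        M ^ 2 * ‖∑ m ∈ Ico Y1 Y2, (g m : ℂ) * ee (((m : ℝ) - 0) * t)‖ ^ 2 := by
    apply intervalIntegral.integral_mono_on (by norm_num)
    · exact (Pars2_cont _ _).intervalIntegrable _ _
    · exact ((Pars2_cont _ _).const_mul _).intervalIntegrable _ _
    · intro t _
      rw [← Pars2_prod f g Y1 Y2 t, norm_mul, mul_pow]
      exact mul_le_mul_of_nonneg_right (pow_le_pow_left₀ (norm_nonneg _) (hF t) 2) (by positivity)
  rw [intervalIntegral.integral_const_mul, p1, p2] at h3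
  have h4 : ∑ m ∈ Ico Y1 Y2, ‖(g m : ℂ)‖ ^ 2 = ∑ m ∈ Ico Y1 Y2, g m ^ 2 := by
    refine Finset.sum_congr rfl fun m _ => ?_
    rw [Complex.norm_real, Real.norm_eq_abs, sq_abs]
  have h5 : ∑ s ∈ range (2 * Y2), ‖(Pars2_r f g Y1 Y2 s : ℂ)‖ ^ 2 =
      ∑ s ∈ range (2 * Y2), Pars2_r f g Y1 Y2 s ^ 2 := by
    refine Finset.sum_congr rfl fun m _ => ?_
    rw [Complex.norm_real, Real.norm_eq_abs, sq_abs]
  rw [h4, h5] at h3
  have h6 : ∑ n ∈ Ico Y1 Y2, Pars2_r f g Y1 Y2 (2 * n) ^ 2 ≤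
      ∑ s ∈ range (2 * Y2), Pars2_r f g Y1 Y2 s ^ 2 := by
    have h7 : ∑ n ∈ Ico Y1 Y2, Pars2_r f g Y1 Y2 (2 * n) ^ 2 =
        ∑ s ∈ (Ico Y1 Y2).image (fun n => 2 * n), Pars2_r f g Y1 Y2 s ^ 2 := by
      rw [Finset.sum_image]
      intro a _ b _ hab
      have : 2 * a = 2 * b := hab
      omega
    rw [h7]
    apply Finset.sum_le_sum_of_subset_of_nonneg
    · intro s hs
      rw [Finset.mem_image] at hs
      obtain ⟨n, hn, rfl⟩ := hs
      rw [Finset.mem_Ico] at hn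
      rw [Finset.mem_range]
      omega
    · intro s _ _
      positivity
  calc ∑ n ∈ Ico Y1 Y2, (∑ m ∈ (Ico Y1 Y2).filter (fun m => m ≤ 2 * n ∧ 2 * n - m ∈ Ico Y1 Y2),
      f (2 * n - m) * g m) ^ 2 = ∑ n ∈ Ico Y1 Y2, Pars2_r f g Y1 Y2 (2 * n) ^ 2 := rfl
    _ ≤ ∑ s ∈ range (2 * Y2), Pars2_r f g Y1 Y2 s ^ 2 := h6
    _ ≤ M ^ 2 * ∑ m ∈ Ico Y1 Y2, g m ^ 2 := h3
    _ ≤ M ^ 2 * S := mul_le_mul_of_nonneg_left hg (by positivity)

end Pool.Agent.H53.MID

end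

section

/-!
# MID GoldA: the window and the error term

`Yw H i n`: the `m` in the three blocks around `i` with `2n - m` in the three blocks.
`yw_eq` proof: with `Y1 = (i-1)H`, `Y2 = (i+2)H`: `y1 = max Y1 (2n + 1 - Y2)`, `y2 = 2n + 1 - y1 = min Y2 (2n + 1 - Y1)`; `n - Y1 ≥ H`, `Y2 - 1 - n ≥ H`, so `y2 - y1 ≥ 2H + 1`.
`gold_a` proof: `pars2` on `Ico Y1 Y2` (the sum of the three block sums is `≤ 3M`; `∑ g^2 ≤ 3H G^2`) and Markov: the number of `n` with `|..| > D` is `≤ (3M)^2 3 H G^2/D^2`.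
-/

set_option autoImplicit false

namespace Pool.Agent.H53.MID

open Finset
open Pool.Agent.H91.PK (ee)

/-- the `m` in the three blocks around `i` such that `2n - m` is there too -/
def Yw (H i n : ℕ) : Finset ℕ :=
  (Ico ((i - 1) * H) ((i + 2) * H)).filter (fun m => m ≤ 2 * n ∧ 2 * n - m ∈ Ico ((i - 1) * H) ((i + 2) * H))

theorem yw_eq (H i n : ℕ) (hi : 2 ≤ i) (hH : 1 ≤ H) (h1 : i * H ≤ n) (h2 : n < (i + 1) * H) :
    ∃ y1 y2 : ℕ, Yw H i n = Ico y1 y2 ∧ (i - 1) * H ≤ y1 ∧ y2 ≤ (i + 2) * H ∧ y1 + 2 * H ≤ y2 ∧ y2 ≤ 2 * n ∧ 1 ≤ y1 := by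
  obtain ⟨k, rfl⟩ : ∃ k, i = k + 2 := ⟨i - 2, by omega⟩
  have e1 : (k + 2 - 1) * H = k * H + H := by
    have : k + 2 - 1 = k + 1 := by omega
    rw [this]; ring
  have e2 : (k + 2 + 2) * H = k * H + 4 * H := by ring
  have e3 : (k + 2) * H = k * H + 2 * H := by ring
  have e4 : (k + 2 + 1) * H = k * H + 3 * H := by ring
  unfold Yw
  rw [e1, e2]
  rw [e3] at h1
  rw [e4] at h2
  generalize k * H = Z at *
  refine ⟨max (Z + H) (2 * n + 1 - (Z + 4 * H)), 2 * n + 1 - max (Z + H) (2 * n + 1 - (Z + 4 * H)),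
    ?_, ?_, ?_, ?_, ?_, ?_⟩
  · ext m
    simp only [Finset.mem_filter, Finset.mem_Ico]
    omega
  all_goals omega

theorem gold_a (e g : ℕ → ℝ) (H i : ℕ) (M G D : ℝ) (hi : 1 ≤ i) (hM : 0 ≤ M) (hD : 0 < D)
    (he : ∀ j ∈ Icc (i - 1) (i + 1), ∀ α : ℝ, ‖Bs e H j α‖ ≤ M)
    (hg : ∀ m ∈ Ico ((i - 1) * H) ((i + 2) * H), |g m| ≤ G) :
    (((Ico (i * H) ((i + 1) * H)).filter (fun n => D < |∑ m ∈ Yw H i n, e (2 * n - m) * g m|)).card : ℝ) ≤
      (3 * M) ^ 2 * (3 * H * G ^ 2) / D ^ 2 := by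
  obtain ⟨k, rfl⟩ : ∃ k, i = k + 1 := ⟨i - 1, by omega⟩
  have ek : k + 1 - 1 = k := by omega
  rw [ek] at he hg
  have hf : ∀ α : ℝ, ‖∑ m ∈ Ico (k * H) ((k + 1 + 2) * H), (e m : ℂ) * ee (-(m * α))‖ ≤ 3 * M := by
    intro α
    have s1 : ∑ m ∈ Ico (k * H) ((k + 1 + 2) * H), (e m : ℂ) * ee (-(m * α)) =
        Bs e H k α + Bs e H (k + 1) α + Bs e H (k + 1 + 1) α := by
      unfold Bs
      rw [Finset.sum_Ico_consecutive _ (Nat.mul_le_mul_right H (Nat.le_succ k))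
        (Nat.mul_le_mul_right H (Nat.le_succ (k + 1))),
        Finset.sum_Ico_consecutive _ (Nat.mul_le_mul_right H (by omega))
        (Nat.mul_le_mul_right H (Nat.le_succ (k + 1 + 1)))]
    rw [s1]
    have b0 := he k (by rw [Finset.mem_Icc]; omega) α
    have b1 := he (k + 1) (by rw [Finset.mem_Icc]; omega) α
    have b2 := he (k + 1 + 1) (by rw [Finset.mem_Icc]; omega) α
    calc ‖Bs e H k α + Bs e H (k + 1) α + Bs e H (k + 1 + 1) α‖
        ≤ ‖Bs e H k α‖ + ‖Bs e H (k + 1) α‖ + ‖Bs e H (k + 1 + 1) α‖ := norm_add₃_le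
      _ ≤ 3 * M := by linarith
  have hgs : ∑ m ∈ Ico (k * H) ((k + 1 + 2) * H), g m ^ 2 ≤ 3 * H * G ^ 2 := by
    calc ∑ m ∈ Ico (k * H) ((k + 1 + 2) * H), g m ^ 2
        ≤ ∑ m ∈ Ico (k * H) ((k + 1 + 2) * H), G ^ 2 := by
          apply Finset.sum_le_sum
          intro m hm
          have := hg m hm
          rw [← sq_abs]
          exact pow_le_pow_left₀ (abs_nonneg _) this 2
      _ = 3 * H * G ^ 2 := by
          rw [Finset.sum_const, Nat.card_Ico, nsmul_eq_mul]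
          have : (k + 1 + 2) * H - k * H = 3 * H := by
            have : (k + 1 + 2) * H = k * H + 3 * H := by ring
            omega
          rw [this]
          push_cast
          ring
  have hp := pars2 e g (k * H) ((k + 1 + 2) * H) (3 * M) (3 * H * G ^ 2) (by linarith) hf hgs
  have hY : ∀ n, Yw H (k + 1) n = (Ico (k * H) ((k + 1 + 2) * H)).filter
      (fun m => m ≤ 2 * n ∧ 2 * n - m ∈ Ico (k * H) ((k + 1 + 2) * H)) := by
    intro n
    unfold Yw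
    rw [ek]
  rw [le_div_iff₀ (by positivity)]
  calc (((Ico ((k + 1) * H) ((k + 1 + 1) * H)).filter
        (fun n => D < |∑ m ∈ Yw H (k + 1) n, e (2 * n - m) * g m|)).card : ℝ) * D ^ 2
      = ∑ n ∈ (Ico ((k + 1) * H) ((k + 1 + 1) * H)).filter
        (fun n => D < |∑ m ∈ Yw H (k + 1) n, e (2 * n - m) * g m|), D ^ 2 := by
          rw [Finset.sum_const, nsmul_eq_mul]
    _ ≤ ∑ n ∈ (Ico ((k + 1) * H) ((k + 1 + 1) * H)).filter
        (fun n => D < |∑ m ∈ Yw H (k + 1) n, e (2 * n - m) * g m|),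
          (∑ m ∈ Yw H (k + 1) n, e (2 * n - m) * g m) ^ 2 := by
          apply Finset.sum_le_sum
          intro n hn
          rw [Finset.mem_filter] at hn
          rw [← sq_abs (∑ m ∈ Yw H (k + 1) n, e (2 * n - m) * g m)]
          exact pow_le_pow_left₀ hD.le hn.2.le 2
    _ ≤ ∑ n ∈ Ico (k * H) ((k + 1 + 2) * H),
          (∑ m ∈ Yw H (k + 1) n, e (2 * n - m) * g m) ^ 2 := by
          apply Finset.sum_le_sum_of_subset_of_nonneg
          · intro n hn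
            rw [Finset.mem_filter, Finset.mem_Ico] at hn
            rw [Finset.mem_Ico]
            have a1 : (k + 1) * H = k * H + H := by ring
            have a2 : (k + 1 + 1) * H = k * H + 2 * H := by ring
            have a3 : (k + 1 + 2) * H = k * H + 3 * H := by ring
            rw [a1, a2] at hn
            rw [a3]
            omega
          · intro n _ _
            positivity
    _ ≤ (3 * M) ^ 2 * (3 * H * G ^ 2) := by
          simp_rw [hY]
          exact hp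

end Pool.Agent.H53.MID

end

section

/-!
# MID Ppw: few integers are close to `p q^j`, `j ≥ 2`, `p ≤ Z`

Proof.  The number of `m ≤ 4N` of the form `p q^j`, `j ≥ 2`, `p ≤ Z`: for given `p, j`, `q ≤ (4N)^(1/j) ≤ 2 √N`, and `j ≤ log(4N)/log 2 ≤ 3 L`: at most `Z · 3L · 2√N` (`L = log N` large).  Every such `m` spoils at most `4H + 1` integers `n`;
`(n ≤ 2N`, `H ≤ N`, so `m ≤ 2N + 2H ≤ 4N`.)  Total `≤ 6 L Z √N · 5H ≤ 30 L N^(1/8) N^(1/2) N^(1/4) = 30 L N^(7/8) ≤ N/L^A`.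
-/

set_option autoImplicit false

namespace Pool.Agent.H53.MID

open Finset

/-- the numbers -/
private theorem Ppw_num {L x Z s H J : ℝ} {A : ℕ} (hL : 4 ≤ L) (hx : 1 ≤ x) (hZ : Z ≤ x)
    (hs0 : 0 ≤ s) (hs : s ≤ 2 * x ^ 4) (hH0 : 0 ≤ H) (hH : H ≤ x ^ 2) (hJ0 : 0 ≤ J) (hJ : J ≤ 3 * L)
    (h : 168 * L ^ (A + 1) ≤ x) :
    (Z + 1) * (s + 1) * (J + 1) * (4 * H + 3) ≤ x ^ 8 / L ^ A := by
  have hL0 : 0 < L := by linarith
  have hx0 : 0 < x := by linarith
  have hx2 : 1 ≤ x ^ 2 := one_le_pow₀ hx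
  have hx4 : 1 ≤ x ^ 4 := one_le_pow₀ hx
  have h1 : (Z + 1) * (s + 1) ≤ (2 * x) * (3 * x ^ 4) :=
    mul_le_mul (by linarith) (by linarith) (by linarith) (by linarith)
  have h2 : (Z + 1) * (s + 1) * (J + 1) ≤ (2 * x) * (3 * x ^ 4) * (4 * L) :=
    mul_le_mul h1 (by linarith) (by linarith) (by positivity)
  have h3 : (Z + 1) * (s + 1) * (J + 1) * (4 * H + 3) ≤ (2 * x) * (3 * x ^ 4) * (4 * L) * (7 * x ^ 2) :=
    mul_le_mul h2 (by linarith) (by linarith) (by positivity)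
  refine h3.trans ?_
  rw [le_div_iff₀ (by positivity)]
  have h4 : 2 * x * (3 * x ^ 4) * (4 * L) * (7 * x ^ 2) * L ^ A = x ^ 7 * (168 * L ^ (A + 1)) := by ring
  rw [h4]
  calc x ^ 7 * (168 * L ^ (A + 1)) ≤ x ^ 7 * x := mul_le_mul_of_nonneg_left h (by positivity)
    _ = x ^ 8 := by ring

/-- the counting -/
private theorem Ppw_incl {N H Z : ℕ} (hH : 1 ≤ H) (hH4 : H ^ 4 ≤ N) (hN : 16 ≤ N) (n : ℕ)
    (hn : n ∈ Ioc N (2 * N)) (h : ∃ m p q j : ℕ, p ≤ Z ∧ q.Prime ∧ 2 ≤ j ∧ m = p * q ^ j ∧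
      m ≤ n + 2 * H ∧ n ≤ m + 2 * H) :
    n ∈ (range (Z + 1) ×ˢ (range (Nat.sqrt (4 * N) + 1) ×ˢ range (Nat.log 2 (4 * N) + 1))).biUnion
      (fun t => Icc (t.1 * t.2.1 ^ t.2.2 - 2 * H) (t.1 * t.2.1 ^ t.2.2 + 2 * H)) := by
  obtain ⟨m, p, q, j, hp, hq, hj, hm, h1, h2⟩ := h
  rw [mem_Ioc] at hn
  have hHN : 2 * H ≤ N := by
    rcases Nat.lt_or_ge H 2 with h3 | h3
    · omega
    · have h4 : 2 ^ 3 ≤ H ^ 3 := Nat.pow_le_pow_left h3 3
      have h5 : H ^ 4 = H ^ 3 * H := by ring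
      nlinarith
  have hm0 : 0 < m := by omega
  have hp0 : 0 < p := by
    rcases Nat.eq_zero_or_pos p with h3 | h3
    · rw [hm, h3, zero_mul] at hm0
      exact absurd hm0 (lt_irrefl 0)
    · exact h3
  have hm4 : q ^ j ≤ 4 * N := by
    have h3 : q ^ j ≤ p * q ^ j := Nat.le_mul_of_pos_left _ hp0
    omega
  rw [mem_biUnion]
  refine ⟨(p, q, j), ?_, ?_⟩
  · rw [mem_product, mem_product, mem_range, mem_range, mem_range]
    refine ⟨?_, ?_, ?_⟩
    · show p < Z + 1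
      omega
    · show q < Nat.sqrt (4 * N) + 1
      have h3 : q ^ 2 ≤ q ^ j := Nat.pow_le_pow_right hq.pos hj
      have h4 : q ≤ Nat.sqrt (4 * N) := by
        rw [Nat.le_sqrt']
        exact h3.trans hm4
      omega
    · show j < Nat.log 2 (4 * N) + 1
      have h3 : 2 ^ j ≤ q ^ j := Nat.pow_le_pow_left hq.two_le j
      have h4 : j ≤ Nat.log 2 (4 * N) := Nat.le_log_of_pow_le (by norm_num) (h3.trans hm4)
      omega
  · show n ∈ Icc (p * q ^ j - 2 * H) (p * q ^ j + 2 * H)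
    rw [mem_Icc, ← hm]
    omega

private theorem Ppw_card {N H Z : ℕ} :
    ((range (Z + 1) ×ˢ (range (Nat.sqrt (4 * N) + 1) ×ˢ range (Nat.log 2 (4 * N) + 1))).biUnion
      (fun t : ℕ × ℕ × ℕ => Icc (t.1 * t.2.1 ^ t.2.2 - 2 * H) (t.1 * t.2.1 ^ t.2.2 + 2 * H))).card ≤
      (Z + 1) * (Nat.sqrt (4 * N) + 1) * (Nat.log 2 (4 * N) + 1) * (4 * H + 3) := by
  refine (card_biUnion_le_card_mul _ _ (4 * H + 3) (fun t _ => ?_)).trans (le_of_eq ?_)
  · rw [Nat.card_Icc]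
    omega
  · rw [card_product, card_product, card_range, card_range, card_range]
    ring

private theorem Ppw_logJ {N : ℕ} {L : ℝ} (hN : 16 ≤ N) (hLd : L = Real.log N) (hL : 4 ≤ L) :
    ((Nat.log 2 (4 * N) : ℕ) : ℝ) ≤ 3 * L := by
  obtain ⟨J, hJ⟩ : ∃ J, J = Nat.log 2 (4 * N) := ⟨_, rfl⟩
  have h1 : 2 ^ J ≤ 4 * N := by
    rw [hJ]
    exact Nat.pow_log_le_self 2 (by omega)
  have h2 : ((2 : ℝ)) ^ J ≤ 4 * N := by exact_mod_cast h1
  have hNr : (0 : ℝ) < N := by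
    have : 0 < N := by omega
    exact_mod_cast this
  have h3 := Real.log_le_log (by positivity) h2
  rw [Real.log_pow, Real.log_mul (by norm_num) hNr.ne', ← hLd] at h3
  have h4 : Real.log 4 = 2 * Real.log 2 := by
    rw [show (4 : ℝ) = 2 ^ 2 by norm_num, Real.log_pow]
    norm_num
  rw [h4] at h3
  have h5 := Real.log_two_gt_d9
  have h6 := Real.log_two_lt_d9
  rw [← hJ]
  have hJ0 : (0 : ℝ) ≤ J := Nat.cast_nonneg J
  nlinarith

open Classical in
theorem ppw (A : ℕ) : ∃ N0 : ℕ, ∀ N : ℕ, N0 ≤ N → ∀ H Z : ℕ, 1 ≤ H → H ^ 4 ≤ N → Z ^ 8 ≤ N →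
    (((Ioc N (2 * N)).filter (fun n => ∃ m p q j : ℕ, p ≤ Z ∧ q.Prime ∧ 2 ≤ j ∧ m = p * q ^ j ∧
      m ≤ n + 2 * H ∧ n ≤ m + 2 * H)).card : ℝ) ≤ N / Real.log N ^ A := by
  have hlog : Filter.Tendsto (fun N : ℕ => Real.log N) Filter.atTop Filter.atTop :=
    Real.tendsto_log_atTop.comp tendsto_natCast_atTop_atTop
  have hsm : ∀ᶠ y : ℝ in Filter.atTop, 168 * Real.log y ^ (A + 1) ≤ y ^ (1 / 8 : ℝ) := by
    have h1 : (fun y : ℝ => Real.log y ^ ((A + 1 : ℕ) : ℝ)) =o[Filter.atTop] fun y => y ^ (1 / 8 : ℝ) :=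
      isLittleO_log_rpow_rpow_atTop _ (by norm_num)
    have h2 := h1.bound (show (0 : ℝ) < 1 / 168 by norm_num)
    filter_upwards [h2, Filter.eventually_ge_atTop (1 : ℝ)] with y hy hy1
    rw [Real.rpow_natCast, Real.norm_of_nonneg (pow_nonneg (Real.log_nonneg hy1) _),
      Real.norm_of_nonneg (by positivity)] at hy
    linarith
  have hev : ∀ᶠ N : ℕ in Filter.atTop, 168 * Real.log N ^ (A + 1) ≤ (N : ℝ) ^ (1 / 8 : ℝ) ∧
      4 ≤ Real.log N ∧ 16 ≤ N :=
    (tendsto_natCast_atTop_atTop.eventually hsm).and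
      ((hlog.eventually_ge_atTop 4).and (Filter.eventually_ge_atTop 16))
  obtain ⟨N0, hN0⟩ := Filter.eventually_atTop.mp hev
  refine ⟨N0, fun N hN H Z hH hH4 hZ8 => ?_⟩
  obtain ⟨h1, h2, h3⟩ := hN0 N hN
  have hsub := card_le_card (show (Ioc N (2 * N)).filter (fun n => ∃ m p q j : ℕ, p ≤ Z ∧ q.Prime ∧
      2 ≤ j ∧ m = p * q ^ j ∧ m ≤ n + 2 * H ∧ n ≤ m + 2 * H) ⊆ _ from fun n hn =>
    Ppw_incl hH hH4 h3 n (mem_filter.mp hn).1 (mem_filter.mp hn).2)
  have hcard := hsub.trans Ppw_card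
  have hcr : ((((Ioc N (2 * N)).filter (fun n => ∃ m p q j : ℕ, p ≤ Z ∧ q.Prime ∧ 2 ≤ j ∧ m = p * q ^ j ∧
      m ≤ n + 2 * H ∧ n ≤ m + 2 * H)).card : ℕ) : ℝ) ≤
      (((Z + 1) * (Nat.sqrt (4 * N) + 1) * (Nat.log 2 (4 * N) + 1) * (4 * H + 3) : ℕ) : ℝ) :=
    Nat.cast_le.mpr hcard
  refine hcr.trans ?_
  push_cast
  have hNr : (16 : ℝ) ≤ N := by exact_mod_cast h3
  have hN0' : (0 : ℝ) ≤ N := by linarith
  obtain ⟨x, hx⟩ : ∃ x : ℝ, x = (N : ℝ) ^ (1 / 8 : ℝ) := ⟨_, rfl⟩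
  have hx0 : 0 ≤ x := by
    rw [hx]
    positivity
  have hx8 : x ^ 8 = N := by
    rw [hx, ← Real.rpow_natCast, ← Real.rpow_mul hN0']
    norm_num
  have hx1 : 1 ≤ x := by
    by_contra hcon
    push Not at hcon
    have : x ^ 8 ≤ 1 := pow_le_one₀ hx0 hcon.le
    linarith
  rw [← hx] at h1
  refine (Ppw_num (x := x) (A := A) h2 hx1 ?_ (Nat.cast_nonneg _) ?_ (Nat.cast_nonneg H) ?_
    (Nat.cast_nonneg _) (Ppw_logJ h3 rfl h2) h1).trans (le_of_eq (by rw [hx8]))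
  · have h4 : (Z : ℝ) ^ 8 ≤ x ^ 8 := by
      rw [hx8]
      exact_mod_cast hZ8
    exact le_of_pow_le_pow_left₀ (by norm_num) hx0 h4
  · have h4 : Nat.sqrt (4 * N) ^ 2 ≤ 4 * N := Nat.sqrt_le' _
    have h5 : ((Nat.sqrt (4 * N) : ℕ) : ℝ) ^ 2 ≤ 4 * N := by exact_mod_cast h4
    have h6 : ((Nat.sqrt (4 * N) : ℕ) : ℝ) ^ 2 ≤ (2 * x ^ 4) ^ 2 := by
      refine h5.trans (le_of_eq ?_)
      rw [← hx8]
      ring
    exact le_of_pow_le_pow_left₀ (by norm_num) (by positivity) h6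
  · have h4 : (H : ℝ) ^ 4 ≤ (x ^ 2) ^ 4 := by
      have h5 : (H : ℝ) ^ 4 ≤ N := by exact_mod_cast hH4
      refine h5.trans (le_of_eq ?_)
      rw [← hx8]
      ring
    exact le_of_pow_le_pow_left₀ (by norm_num) (by positivity) h4

end Pool.Agent.H53.MID

end
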