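import Pool.Agent.H43.PJ.M20
import Pool.Agent.H43.PJ.M30

/-! The parts of this file: H35.W.KSap, H80.LV.TyI, H80.LV.LR. -/

section

/-!
# W KSap: sums of `(n + β)^{it}` twisted by a periodic function

Proof.  Let `δ1, C` be the constants of `ks1 (kap / 2)`.  Split the sum over `n ∈ (a, b]` into the classes
`n = l + d n'`, `0 ≤ l < d`; `ψ(n) = ψ(l)` (periodicity), `log(n + β) = log d + log(n' + (l+β)/d)` for `n ≥ 1`,
so the class contributes at most `|∑_{a' < n' ≤ b'} ee(t log(n' + (l+β)/d))|` with `(l+β)/d ∈ [0,1]`,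
`b' ≤ K/d`.  (For `n' = 0`, `l > 0` treat the term `n = l` separately: one term of size `≤ 1`, or let the interval
in `ks1` start at `a' + 1` and add the term.)  Apply `ks1` with `K' = K / d + 1` (natural division), `K' ≥ x^{kap/2}`
as `d^4 ≤ K`.  The sum over `l` is `≤ d (2 + C K' (1/|t| + x^{-δ1})) ≤ 4 C K (1/|t| + x^{-δ})` with
`δ = min δ1 (kap/4)`-like (`d ≤ K^{1/4}`, so `d ≤ K · K^{-3/4}`).  For large `x`: `4 C ≤ log x`.
-/

set_option autoImplicit false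

namespace Pool.Agent.H35.W

open Finset
open Pool.Agent.H91.PK (ee)

private lemma ksap_ee_norm (r : ℝ) : ‖ee r‖ = 1 := by
  have : (2 * Real.pi * r * Complex.I : ℂ) = ((2 * Real.pi * r : ℝ) : ℂ) * Complex.I := by
    push_cast; ring
  rw [ee, this, Complex.norm_exp_ofReal_mul_I]

private lemma ksap_ee_add (r s : ℝ) : ee (r + s) = ee r * ee s := by
  rw [ee, ee, ee, ← Complex.exp_add]
  congr 1
  push_cast
  ring

private lemma ksap_per (ψ : ℕ → ℂ) (d : ℕ) (h : ∀ n, ψ (n + d) = ψ n) (l k : ℕ) :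
    ψ (l + d * k) = ψ l := by
  induction k with
  | zero => simp
  | succ k ih => rw [mul_add, mul_one, ← add_assoc, h, ih]

/-- one residue class -/
private lemma ksap_class (f : ℕ → ℂ) (hf : ∀ n, ‖f n‖ ≤ 1) (B : ℝ) (K' a b d l : ℕ) (hd : 1 ≤ d)
    (hb : b / d ≤ K') (hB : ∀ a' b' : ℕ, b' ≤ K' → ‖∑ n ∈ Ioc a' b', f n‖ ≤ B) :
    ‖∑ k ∈ (range (b + 1)).filter (fun k => a < l + d * k ∧ l + d * k ≤ b), f k‖ ≤ 1 + B := by
  set T := (range (b + 1)).filter (fun k => a < l + d * k ∧ l + d * k ≤ b) with hT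
  have e : T.erase 0 = Ioc ((a - l) / d) ((b - l) / d) := by
    ext k
    simp only [hT, mem_erase, mem_filter, mem_range, mem_Ioc]
    rw [Nat.div_lt_iff_lt_mul (by omega), Nat.le_div_iff_mul_le (by omega)]
    constructor
    · rintro ⟨h0, h1, h2, h3⟩
      rw [mul_comm d k] at h2 h3
      have : 1 ≤ k * d := Nat.mul_pos (by omega) (by omega)
      omega
    · rintro ⟨h1, h2⟩
      have hk : k ≠ 0 := by rintro rfl; simp at h1
      have h3 : k ≤ k * d := Nat.le_mul_of_pos_right k (by omega)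
      have : 1 ≤ k * d := Nat.mul_pos (by omega) (by omega)
      rw [mul_comm d k]
      omega
  have h1 : ‖∑ k ∈ T.erase 0, f k‖ ≤ B := by
    rw [e]
    exact hB _ _ ((Nat.div_le_div_right (Nat.sub_le _ _)).trans hb)
  by_cases h0 : 0 ∈ T
  · rw [← add_sum_erase _ _ h0]
    exact (norm_add_le _ _).trans (add_le_add (hf 0) h1)
  · rw [erase_eq_of_notMem h0] at h1
    linarith

private lemma ksap_real (K d : ℕ) (y : ℝ) (hy : 4 ≤ y) (hK : y ^ 2 ≤ K) (hd : 1 ≤ d)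
    (hdK : d ^ 4 ≤ K) : y ≤ ((K / d : ℕ) : ℝ) := by
  by_contra hlt
  push Not at hlt
  have hd0 : (1 : ℝ) ≤ d := by exact_mod_cast hd
  have h1 : (K : ℝ) < d * (y + 1) := by
    have h2 : K < d * (K / d + 1) := Nat.lt_mul_div_succ K (by omega)
    have h3 : (K : ℝ) < (d : ℝ) * (((K / d : ℕ) : ℝ) + 1) := by exact_mod_cast h2
    refine h3.trans_le ?_
    gcongr
  have hKp : (16 : ℝ) ≤ K := by nlinarith
  have h4 : ((d : ℝ)) ^ 4 ≤ K := by exact_mod_cast hdK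
  have h5 : (K : ℝ) ^ 4 < (d * (y + 1)) ^ 4 := pow_lt_pow_left₀ h1 (by linarith) (by norm_num)
  have h6 : ((d : ℝ) * (y + 1)) ^ 4 ≤ K * (y + 1) ^ 4 := by
    rw [mul_pow]; gcongr
  have h7 : (y + 1) ^ 4 ≤ (2 * y) ^ 4 := pow_le_pow_left₀ (by linarith) (by linarith) 4
  have h8 : (2 * y) ^ 4 ≤ 16 * (K : ℝ) ^ 2 := by
    have : y ^ 4 ≤ (K : ℝ) ^ 2 := by
      calc y ^ 4 = (y ^ 2) ^ 2 := by ring
        _ ≤ (K : ℝ) ^ 2 := pow_le_pow_left₀ (by positivity) hK 2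
    calc (2 * y) ^ 4 = 16 * y ^ 4 := by ring
      _ ≤ 16 * (K : ℝ) ^ 2 := by linarith
  have h9 : (K : ℝ) ^ 4 < K * (16 * (K : ℝ) ^ 2) :=
    h5.trans_le (h6.trans (mul_le_mul_of_nonneg_left (h7.trans h8) (by linarith)))
  have h10 : (K : ℝ) * (16 * (K : ℝ) ^ 2) ≤ (K : ℝ) ^ 4 := by
    have : (K : ℝ) ^ 4 = K * (K * (K : ℝ) ^ 2) := by ring
    rw [this]
    gcongr
  linarith

theorem ksap (kap : ℝ) (hkap : 0 < kap) : ∃ δ : ℝ, 0 < δ ∧ δ ≤ 1 ∧ ∃ x0 : ℕ,
    ∀ x : ℕ, x0 ≤ x → ∀ (K d a b : ℕ) (ψ : ℕ → ℂ) (β t : ℝ), (x : ℝ) ^ kap ≤ K → K ≤ x → 1 ≤ d →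
      d ^ 4 ≤ K → (∀ n, ψ (n + d) = ψ n) → (∀ n, ‖ψ n‖ ≤ 1) → b ≤ K → 0 ≤ β → β ≤ 1 →
      1 ≤ |t| → |t| ≤ (x : ℝ) ^ (3 : ℕ) →
      ‖∑ n ∈ Ioc a b, ψ n * ee (t * Real.log (n + β))‖
        ≤ K * Real.log x * (1 / |t| + (x : ℝ) ^ (-δ)) := by
  obtain ⟨δ1, C, hδ1, hδ1', hC, x1, hx1⟩ := ks1 (kap / 2) (by linarith)
  have ev1 : ∀ᶠ x : ℕ in Filter.atTop, (4 : ℝ) ≤ (x : ℝ) ^ (kap / 2) :=
    ((tendsto_rpow_atTop (by linarith : 0 < kap / 2)).comp
      tendsto_natCast_atTop_atTop).eventually_ge_atTop 4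
  have ev2 : ∀ᶠ x : ℕ in Filter.atTop, C + 1 ≤ Real.log x :=
    (Real.tendsto_log_atTop.comp tendsto_natCast_atTop_atTop).eventually_ge_atTop (C + 1)
  obtain ⟨x2, hx2⟩ := Filter.eventually_atTop.1 ev1
  obtain ⟨x3, hx3⟩ := Filter.eventually_atTop.1 ev2
  refine ⟨min δ1 (kap / 2), lt_min hδ1 (by linarith), (min_le_left _ _).trans hδ1',
    max (max x1 x2) (max x3 1), ?_⟩
  intro x hx K d a b ψ β t hK hKx hd hdK hper hψ hb hβ0 hβ1 ht1 ht2
  have hxa : x1 ≤ x := (le_max_left _ _).trans ((le_max_left _ _).trans hx)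
  have hxb : x2 ≤ x := (le_max_right _ _).trans ((le_max_left _ _).trans hx)
  have hxc : x3 ≤ x := (le_max_left _ _).trans ((le_max_right _ _).trans hx)
  have hxd : 1 ≤ x := (le_max_right _ _).trans ((le_max_right _ _).trans hx)
  have hxr : (1 : ℝ) ≤ x := by exact_mod_cast hxd
  have hdr : (1 : ℝ) ≤ d := by exact_mod_cast hd
  have hd0 : (d : ℝ) ≠ 0 := by positivity
  have hlog := hx3 x hxc
  have hy := hx2 x hxb
  set y : ℝ := (x : ℝ) ^ (kap / 2) with hydef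
  have hyK : y ^ 2 ≤ K := by
    refine le_trans (le_of_eq ?_) hK
    rw [hydef, ← Real.rpow_natCast, ← Real.rpow_mul (by linarith)]
    congr 1
    push_cast
    ring
  have hK' : y ≤ ((K / d : ℕ) : ℝ) := ksap_real K d y hy hyK hd hdK
  have hdKK : (d : ℝ) * ((K / d : ℕ) : ℝ) ≤ K := by exact_mod_cast Nat.mul_div_le K d
  have hK'x : K / d ≤ x := (Nat.div_le_self K d).trans hKx
  set B : ℝ := C * ((K / d : ℕ) : ℝ) * (1 / |t| + (x : ℝ) ^ (-δ1)) with hBdef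
  -- the sum over a class
  have hcl : ∀ l ∈ range d, ‖∑ n ∈ (Ioc a b).filter (fun n => n % d = l),
      ψ n * ee (t * Real.log (n + β))‖ ≤ 1 + B := by
    intro l hl
    have hl1 := mem_range.1 hl
    have e1 : (Ioc a b).filter (fun n => n % d = l)
        = ((range (b + 1)).filter (fun k => a < l + d * k ∧ l + d * k ≤ b)).image
          (fun k => l + d * k) := by
      ext n
      simp only [mem_filter, mem_Ioc, mem_image, mem_range]
      constructor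
      · rintro ⟨⟨h1, h2⟩, h3⟩
        have h4 : n % d + d * (n / d) = n := Nat.mod_add_div n d
        have h5 : n / d ≤ n := Nat.div_le_self n d
        refine ⟨n / d, ⟨by omega, ?_, ?_⟩, ?_⟩ <;> rw [← h3, h4] <;> assumption
      · rintro ⟨k, ⟨h1, h2, h3⟩, rfl⟩
        exact ⟨⟨h2, h3⟩, by rw [Nat.add_mul_mod_self_left, Nat.mod_eq_of_lt hl1]⟩
    have hinj : Set.InjOn (fun k => l + d * k)
        ((range (b + 1)).filter (fun k => a < l + d * k ∧ l + d * k ≤ b) : Finset ℕ) := by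
      intro u _ v _ huv
      have : d * u = d * v := by simpa using huv
      exact Nat.eq_of_mul_eq_mul_left (by omega) this
    rw [e1, sum_image hinj]
    have hβl0 : 0 ≤ ((l : ℝ) + β) / d := by positivity
    have hβl1 : ((l : ℝ) + β) / d ≤ 1 := by
      rw [div_le_one (by linarith)]
      have : ((l + 1 : ℕ) : ℝ) ≤ d := by exact_mod_cast hl1
      push_cast at this
      linarith
    have e2 : ∑ k ∈ (range (b + 1)).filter (fun k => a < l + d * k ∧ l + d * k ≤ b),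
        ψ (l + d * k) * ee (t * Real.log (((l + d * k : ℕ) : ℝ) + β))
        = (ψ l * ee (t * Real.log d)) *
          ∑ k ∈ (range (b + 1)).filter (fun k => a < l + d * k ∧ l + d * k ≤ b),
            ee (t * Real.log ((k : ℝ) + ((l : ℝ) + β) / d)) := by
      rw [mul_sum]
      apply sum_congr rfl
      intro k hk
      have hk1 := (mem_filter.1 hk).2.1
      have hpos : (0 : ℝ) < l + d * k := by
        have : 0 < l + d * k := by omega
        exact_mod_cast this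
      have h1 : (((l + d * k : ℕ) : ℝ) + β) = d * ((k : ℝ) + ((l : ℝ) + β) / d) := by
        push_cast
        field_simp
        ring
      have h2 : 0 < (k : ℝ) + ((l : ℝ) + β) / d := by
        have h3 : (k : ℝ) + ((l : ℝ) + β) / d = (l + d * k + β) / d := by
          field_simp
          ring
        rw [h3]
        apply div_pos _ (by linarith)
        linarith
      rw [ksap_per ψ d hper, h1, Real.log_mul hd0 h2.ne', mul_add, ksap_ee_add]
      ring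
    rw [e2, norm_mul, norm_mul, ksap_ee_norm, mul_one]
    have h3 := ksap_class (fun k => ee (t * Real.log ((k : ℝ) + ((l : ℝ) + β) / d)))
      (fun n => (ksap_ee_norm _).le) B (K / d) a b d l hd (Nat.div_le_div_right hb)
      (fun a' b' hb' => hx1 x hxa (K / d) a' b' (((l : ℝ) + β) / d) t hK' hK'x hb' hβl0 hβl1
        ht1 ht2)
    calc ‖ψ l‖ * _ ≤ 1 * (1 + B) := mul_le_mul (hψ l) h3 (norm_nonneg _) zero_le_one
      _ = 1 + B := one_mul _
  have e3 : ∑ n ∈ Ioc a b, ψ n * ee (t * Real.log (n + β))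
      = ∑ l ∈ range d, ∑ n ∈ (Ioc a b).filter (fun n => n % d = l),
        ψ n * ee (t * Real.log (n + β)) := by
    rw [sum_fiberwise_of_maps_to]
    intro n _
    exact mem_range.2 (Nat.mod_lt n (by omega))
  rw [e3]
  refine (norm_sum_le _ _).trans ((sum_le_sum hcl).trans ?_)
  rw [sum_const, card_range, nsmul_eq_mul]
  have htp : 0 < |t| := by linarith
  have hmin1 : (x : ℝ) ^ (-δ1) ≤ (x : ℝ) ^ (-(min δ1 (kap / 2))) :=
    Real.rpow_le_rpow_of_exponent_le hxr (neg_le_neg (min_le_left _ _))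
  have hmin2 : (x : ℝ) ^ (-(kap / 2)) ≤ (x : ℝ) ^ (-(min δ1 (kap / 2))) :=
    Real.rpow_le_rpow_of_exponent_le hxr (neg_le_neg (min_le_right _ _))
  set Z : ℝ := (x : ℝ) ^ (-(min δ1 (kap / 2))) with hZ
  have hZ0 : 0 ≤ Z := by positivity
  have hdZ : (d : ℝ) ≤ K * Z := by
    have h1 : (d : ℝ) * y ≤ K := (mul_le_mul_of_nonneg_left hK' (by linarith)).trans hdKK
    have h2 : (x : ℝ) ^ (-(kap / 2)) * y = 1 := by
      rw [hydef, ← Real.rpow_add (by linarith)]; simp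
    calc (d : ℝ) = (d * y) * (x : ℝ) ^ (-(kap / 2)) := by
          rw [mul_assoc, mul_comm y, h2, mul_one]
      _ ≤ K * Z := by
          apply mul_le_mul h1 hmin2 (by positivity) (Nat.cast_nonneg _)
  have hB2 : (d : ℝ) * B ≤ C * K * (1 / |t| + Z) := by
    calc (d : ℝ) * B = C * (d * ((K / d : ℕ) : ℝ)) * (1 / |t| + (x : ℝ) ^ (-δ1)) := by
          rw [hBdef]; ring
      _ ≤ C * K * (1 / |t| + Z) := by
          gcongr
  have hKn : (0 : ℝ) ≤ K := Nat.cast_nonneg _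
  have htn : 0 ≤ 1 / |t| := by positivity
  calc (d : ℝ) * (1 + B) = d + d * B := by ring
    _ ≤ K * Z + C * K * (1 / |t| + Z) := add_le_add hdZ hB2
    _ ≤ (C + 1) * (K * (1 / |t| + Z)) := by nlinarith [mul_nonneg hKn htn]
    _ ≤ Real.log x * (K * (1 / |t| + Z)) := by
        apply mul_le_mul_of_nonneg_right hlog (by positivity)
    _ = K * Real.log x * (1 / |t| + Z) := by ring

end Pool.Agent.H35.W

end

section

/-!
# LV TyI: type I sums, pointwise

Proof.  (1) `gE (c/d) t (a b) = ee(a b c/d) ee(t log a) ee(t log b)` (`gE_mul`); `ψ(b) = ee(a b c/d)` has period `d` and norm 1;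
`ksap (1/8)` with `β = 0`, `K = K`, interval `Ioc 0 j`, `j ≤ K`, gives for EVERY `j ≤ K`:
`|W(j)| ≤ K L (1/|t| + x^{-δ})`, `W(j) = ∑_{b ≤ j} gE (c/d) t (a b)` (`d^4 ≤ L^{4A} ≤ x^{1/8} ≤ K`, `x^2 ≤ x^3`).
(2) Abel summation: `∑_{b ≤ K} log b w_b = W(K) log K - ∑_{j < K} W(j) (log(j+1) - log j)`, so it is at most
`2 log K max |W(j)| ≤ 2 K L^2 (1/|t| + x^{-δ})`.  `δ` is the one of `ksap (1/8)`, independent of `A`.  (Compare `GB/TypeI.lean`, `typeI_abel`, `ty1log`.)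
-/

set_option autoImplicit false

namespace Pool.Agent.H80.LV

open Finset
open Pool.Agent.H91.PK (ee)

private theorem TyI_ee_int (k : ℤ) : ee (k : ℝ) = 1 := by
  unfold ee
  have h := Complex.exp_int_mul_two_pi_mul_I k
  rw [← h]
  congr 1
  push_cast
  ring

/-- Abel summation with logarithms. -/
private theorem TyI_abel (w : ℕ → ℂ) (X : ℕ) :
    ∑ b ∈ Icc 1 X, ((Real.log b : ℝ) : ℂ) * w b =
      ∑ i ∈ Ico 1 X, ((Real.log (i + 1 : ℕ) - Real.log i : ℝ) : ℂ) * ∑ b ∈ Ioc i X, w b := by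
  induction X with
  | zero => simp
  | succ X ih =>
    rcases Nat.eq_zero_or_pos X with rfl | hX
    · simp
    rw [Finset.sum_Icc_succ_top (by omega), ih, Finset.sum_Ico_succ_top hX]
    have h1 : ∀ i ∈ Ico 1 X, ((Real.log (i + 1 : ℕ) - Real.log i : ℝ) : ℂ) *
        ∑ b ∈ Ioc i (X + 1), w b =
        ((Real.log (i + 1 : ℕ) - Real.log i : ℝ) : ℂ) * ∑ b ∈ Ioc i X, w b +
          ((Real.log (i + 1 : ℕ) - Real.log i : ℝ) : ℂ) * w (X + 1) := by
      intro i hi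
      rw [mem_Ico] at hi
      rw [← mul_add]
      congr 1
      rw [Finset.sum_Ioc_succ_top (by omega)]
    rw [Finset.sum_congr rfl h1, Finset.sum_add_distrib, ← Finset.sum_mul]
    have h2 : ∑ i ∈ Ico 1 X, ((Real.log (i + 1 : ℕ) - Real.log i : ℝ) : ℂ) =
        ((Real.log X : ℝ) : ℂ) := by
      rw [← Complex.ofReal_sum]
      congr 1
      have h3 := Finset.sum_Ico_sub (fun i : ℕ => Real.log i) (show 1 ≤ X from hX)
      rw [h3]
      simp
    rw [h2, Nat.Ioc_succ_singleton, Finset.sum_singleton]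
    push_cast
    ring

theorem tyI : ∃ δ : ℝ, 0 < δ ∧ δ ≤ 1 ∧ ∀ A : ℕ, ∃ x0 : ℕ, ∀ x : ℕ, x0 ≤ x →
    ∀ (a K d : ℕ) (c : ℤ) (t : ℝ), 1 ≤ a → 1 ≤ d → (d : ℝ) ≤ Real.log x ^ A →
      (x : ℝ) ^ (1 / 8 : ℝ) ≤ K → K ≤ x → 1 ≤ |t| → |t| ≤ (x : ℝ) ^ (2 : ℕ) →
      ‖∑ b ∈ Icc 1 K, gE ((c : ℝ) / d) t (a * b)‖
        ≤ K * Real.log x * (1 / |t| + (x : ℝ) ^ (-δ)) ∧
      ‖∑ b ∈ Icc 1 K, ((Real.log b : ℝ) : ℂ) * gE ((c : ℝ) / d) t (a * b)‖
        ≤ 2 * K * Real.log x ^ 2 * (1 / |t| + (x : ℝ) ^ (-δ)) := by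
  obtain ⟨δ, hδ0, hδ1, x1, hx1⟩ := Pool.Agent.H35.W.ksap (1 / 8) (by norm_num)
  refine ⟨δ, hδ0, hδ1, fun A => ?_⟩
  obtain ⟨x2, hx2⟩ := log_pow_le (1 / 8) 1 (by norm_num) (by norm_num) (4 * A)
  refine ⟨max (max x1 x2) 1, ?_⟩
  intro x hx a K d c t ha hd hdA hKbig hKx ht1 ht2
  have hxa : x1 ≤ x := (le_max_left _ _).trans ((le_max_left _ _).trans hx)
  have hxb : x2 ≤ x := (le_max_right _ _).trans ((le_max_left _ _).trans hx)
  have hxd : 1 ≤ x := (le_max_right _ _).trans hx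
  have hxr : (1 : ℝ) ≤ x := by exact_mod_cast hxd
  have har : (1 : ℝ) ≤ a := by exact_mod_cast ha
  have hdr : (1 : ℝ) ≤ d := by exact_mod_cast hd
  have hlog : 0 ≤ Real.log x := Real.log_nonneg hxr
  have htp : 0 < |t| := by linarith
  have hpow0 : (0 : ℝ) ≤ (x : ℝ) ^ (-δ) := Real.rpow_nonneg (by linarith) _
  have hKr : (1 : ℝ) ≤ K := (Real.one_le_rpow hxr (by norm_num)).trans hKbig
  have hK1 : 1 ≤ K := by exact_mod_cast hKr
  have hdK : d ^ 4 ≤ K := by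
    have h1 : (d : ℝ) ^ 4 ≤ (Real.log x ^ A) ^ 4 := pow_le_pow_left₀ (by linarith) hdA 4
    have h2 := hx2 x hxb
    have h3 : (Real.log x ^ A) ^ 4 = 1 * Real.log x ^ (4 * A) := by
      rw [one_mul, ← pow_mul, mul_comm]
    have h4 : ((d ^ 4 : ℕ) : ℝ) ≤ K := by
      push_cast
      exact h1.trans ((h3.le.trans h2).trans hKbig)
    exact_mod_cast h4
  -- all intervals
  have key : ∀ i : ℕ, ‖∑ b ∈ Ioc i K, gE ((c : ℝ) / d) t (a * b)‖
      ≤ K * Real.log x * (1 / |t| + (x : ℝ) ^ (-δ)) := by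
    intro i
    have hterm : ∀ b ∈ Ioc i K, gE ((c : ℝ) / d) t (a * b) =
        ee (t * Real.log a) * (ee ((a : ℝ) * b * ((c : ℝ) / d)) *
          ee (t * Real.log ((b : ℝ) + 0))) := by
      intro b hb
      rw [mem_Ioc] at hb
      rw [gE_mul _ _ a b ha (by omega), add_zero]
      ring
    rw [Finset.sum_congr rfl hterm, ← Finset.mul_sum, norm_mul, Pool.Agent.H91.PK.LSa_norm_ee,
      one_mul]
    refine hx1 x hxa K d i K (fun j => ee ((a : ℝ) * j * ((c : ℝ) / d))) 0 t hKbig hKx hd hdK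
      ?_ (fun n => (Pool.Agent.H91.PK.LSa_norm_ee _).le) le_rfl le_rfl zero_le_one ht1 ?_
    · intro n
      have hd0 : (d : ℝ) ≠ 0 := by positivity
      have h1 : (a : ℝ) * ((n + d : ℕ) : ℝ) * ((c : ℝ) / d) =
          (a : ℝ) * n * ((c : ℝ) / d) + (((a : ℤ) * c : ℤ) : ℝ) := by
        push_cast
        field_simp
      rw [h1, Pool.Agent.H91.PK.LSa_ee_add, TyI_ee_int, mul_one]
    · refine ht2.trans ?_
      exact pow_le_pow_right₀ hxr (by norm_num)
  have hB0 : 0 ≤ K * Real.log x * (1 / |t| + (x : ℝ) ^ (-δ)) := by positivity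
  constructor
  · have h1 : Icc 1 K = Ioc 0 K := by
      ext b
      simp only [mem_Icc, mem_Ioc]
      omega
    rw [h1]
    exact key 0
  · rw [TyI_abel]
    refine (norm_sum_le _ _).trans ?_
    have h1 : ∀ i ∈ Ico 1 K, ‖((Real.log (i + 1 : ℕ) - Real.log i : ℝ) : ℂ) *
        ∑ b ∈ Ioc i K, gE ((c : ℝ) / d) t (a * b)‖ ≤
        (Real.log (i + 1 : ℕ) - Real.log i) * (K * Real.log x * (1 / |t| + (x : ℝ) ^ (-δ))) := by
      intro i hi
      rw [mem_Ico] at hi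
      have h2 : 0 ≤ Real.log (i + 1 : ℕ) - Real.log i := by
        have h3 : Real.log i ≤ Real.log (i + 1 : ℕ) := by
          apply Real.log_le_log
          · exact_mod_cast hi.1
          · push_cast
            linarith
        linarith
      rw [norm_mul, Complex.norm_real, Real.norm_eq_abs, abs_of_nonneg h2]
      exact mul_le_mul_of_nonneg_left (key i) h2
    refine (Finset.sum_le_sum h1).trans ?_
    rw [← Finset.sum_mul, Finset.sum_Ico_sub (fun i : ℕ => Real.log i) hK1]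
    have h2 : Real.log (K : ℝ) - Real.log ((1 : ℕ) : ℝ) ≤ Real.log x := by
      rw [Nat.cast_one, Real.log_one, sub_zero]
      apply Real.log_le_log
      · linarith
      · exact_mod_cast hKx
    have h3 : Real.log x * (K * Real.log x * (1 / |t| + (x : ℝ) ^ (-δ))) =
        K * Real.log x ^ 2 * (1 / |t| + (x : ℝ) ^ (-δ)) := by ring
    have h4 : 0 ≤ K * Real.log x ^ 2 * (1 / |t| + (x : ℝ) ^ (-δ)) := by positivity
    calc _ ≤ Real.log x * (K * Real.log x * (1 / |t| + (x : ℝ) ^ (-δ))) :=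
          mul_le_mul_of_nonneg_right h2 hB0
      _ ≤ 2 * K * Real.log x ^ 2 * (1 / |t| + (x : ℝ) ^ (-δ)) := by
          rw [h3]
          linarith

end Pool.Agent.H80.LV

end

section

/-!
# LV LR: the truncated Ramanujan expansion

Proof.  `lamR R n = ∑_{r ≤ R} (μ(r)/φ(r)) ramS r n`, `|ramS r n| ≤ φ(r)` (`GB.abs_ramS_le`), period `r` (`GB.ramS_congr`).  For fixed
`1 ≤ r ≤ R ≤ L^A`: `ψ(n) = (μ(r)/φ(r)) ramS r n ee(n c/d)` has norm `≤ 1` and period `r d`, `(r d)^4 ≤ L^{8A} ≤ x`; `ksap 1` with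
`K = x`, `a = M`, `b = y`, `β = 0` and period `r d`: `≤ x L (1/|t| + x^{-δ})`.  Sum over `r ≤ R`.
-/

set_option autoImplicit false

namespace Pool.Agent.H80.LV

open Finset
open Pool.Agent.H91.PK (ee)
open Pool.Agent.H91.EHA (Lam hR lamR)

private theorem LR_ee_int (m : ℤ) : ee (m : ℝ) = 1 := by
  unfold ee
  rw [Complex.exp_eq_one_iff]
  exact ⟨m, by push_cast; ring⟩

/-- the periodic function -/
private noncomputable def LR_psi (r d : ℕ) (c : ℤ) (j : ℕ) : ℂ :=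
  (((ArithmeticFunction.moebius r : ℝ) / (r.totient : ℝ) *
    Pool.Agent.H91.EHA.ramS r j : ℝ) : ℂ) * ee ((j : ℝ) * ((c : ℝ) / d))

private theorem LR_psi_per (r d : ℕ) (c : ℤ) (hd : 1 ≤ d) (j : ℕ) :
    LR_psi r d c (j + r * d) = LR_psi r d c j := by
  unfold LR_psi
  have h1 : Pool.Agent.H91.EHA.ramS r (j + r * d) = Pool.Agent.H91.EHA.ramS r j := by
    apply Pool.Agent.H76.GB.ramS_congr
    unfold Nat.ModEq
    exact Nat.add_mul_mod_self_left _ _ _
  have hd0 : (d : ℝ) ≠ 0 := by exact_mod_cast (by omega : d ≠ 0)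
  have h2 : ee ((((j + r * d : ℕ)) : ℝ) * ((c : ℝ) / d)) = ee ((j : ℝ) * ((c : ℝ) / d)) := by
    have e : (((j + r * d : ℕ)) : ℝ) * ((c : ℝ) / d) =
        (j : ℝ) * ((c : ℝ) / d) + (((r : ℤ) * c : ℤ) : ℝ) := by
      push_cast
      field_simp
    rw [e, Pool.Agent.H91.PK.LSa_ee_add, LR_ee_int, mul_one]
  rw [h1, h2]

private theorem LR_psi_le (r d : ℕ) (c : ℤ) (hr : 1 ≤ r) (j : ℕ) :
    ‖LR_psi r d c j‖ ≤ 1 := by
  unfold LR_psi
  rw [norm_mul, Pool.Agent.H91.PK.LSa_norm_ee, mul_one, Complex.norm_real, Real.norm_eq_abs,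
    abs_mul, abs_div]
  have hφ : (0 : ℝ) < r.totient := by exact_mod_cast Nat.totient_pos.2 (by omega)
  rw [abs_of_pos hφ]
  have h1 : |(ArithmeticFunction.moebius r : ℝ)| ≤ 1 := by
    have := ArithmeticFunction.abs_moebius_le_one (n := r)
    exact_mod_cast this
  have h2 := Pool.Agent.H76.GB.abs_ramS_le r j hr
  calc |(ArithmeticFunction.moebius r : ℝ)| / (r.totient : ℝ) * |Pool.Agent.H91.EHA.ramS r j|
      ≤ 1 / (r.totient : ℝ) * (r.totient : ℝ) :=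
        mul_le_mul (div_le_div_of_nonneg_right h1 hφ.le) h2 (abs_nonneg _) (by positivity)
    _ = 1 := by field_simp

private theorem LR_sum (d M y R : ℕ) (c : ℤ) (t : ℝ) :
    ∑ n ∈ Ioc M y, ((lamR R n : ℝ) : ℂ) * gE ((c : ℝ) / d) t n =
      ∑ r ∈ Icc 1 R, ∑ n ∈ Ioc M y, LR_psi r d c n * ee (t * Real.log ((n : ℝ) + 0)) := by
  rw [sum_comm]
  refine sum_congr rfl fun n _ => ?_
  unfold lamR gE LR_psi
  rw [Pool.Agent.H91.PK.LSa_ee_add]
  push_cast
  rw [sum_mul]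
  refine sum_congr rfl fun r _ => ?_
  rw [add_zero]
  ring

theorem lr : ∃ δ : ℝ, 0 < δ ∧ δ ≤ 1 ∧ ∀ A : ℕ, ∃ x0 : ℕ, ∀ x : ℕ, x0 ≤ x →
    ∀ (M y d R : ℕ) (c : ℤ) (t : ℝ), 1 ≤ d → (d : ℝ) ≤ Real.log x ^ A → (R : ℝ) ≤ Real.log x ^ A →
      y ≤ x → 1 ≤ |t| → |t| ≤ (x : ℝ) ^ (2 : ℕ) →
      ‖∑ n ∈ Ioc M y, ((lamR R n : ℝ) : ℂ) * gE ((c : ℝ) / d) t n‖
        ≤ x * Real.log x ^ (A + 1) * (1 / |t| + (x : ℝ) ^ (-δ)) := by
  obtain ⟨δ, hδ0, hδ1, x1, hx1⟩ := Pool.Agent.H35.W.ksap 1 one_pos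
  refine ⟨δ, hδ0, hδ1, fun A => ?_⟩
  obtain ⟨x2, hx2⟩ := log_pow_le 1 1 one_pos one_pos (8 * A)
  obtain ⟨x3, hx3⟩ := log_ge 1
  refine ⟨max (max x1 x2) (max x3 4), ?_⟩
  intro x hx M y d R c t hd hdA hRA hy ht1 ht2
  have hxa : x1 ≤ x := (le_max_left _ _).trans ((le_max_left _ _).trans hx)
  have hxb : x2 ≤ x := (le_max_right _ _).trans ((le_max_left _ _).trans hx)
  have hxc : x3 ≤ x := (le_max_left _ _).trans ((le_max_right _ _).trans hx)
  have hxd : 4 ≤ x := (le_max_right _ _).trans ((le_max_right _ _).trans hx)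
  have hxr : (1 : ℝ) ≤ x := by exact_mod_cast (by omega : 1 ≤ x)
  have hL : 1 ≤ Real.log x := hx3 x hxc
  have hL0 : 0 ≤ Real.log x := by linarith
  have h8 := hx2 x hxb
  rw [one_mul, Real.rpow_one] at h8
  have hLA : 0 ≤ Real.log x ^ A := by positivity
  rw [LR_sum d M y R c t]
  have hterm : ∀ r ∈ Icc 1 R,
      ‖∑ n ∈ Ioc M y, LR_psi r d c n * ee (t * Real.log ((n : ℝ) + 0))‖ ≤
      x * Real.log x * (1 / |t| + (x : ℝ) ^ (-δ)) := by
    intro r hr
    rw [mem_Icc] at hr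
    have hrR : (r : ℝ) ≤ Real.log x ^ A := le_trans (by exact_mod_cast hr.2) hRA
    refine hx1 x hxa x (r * d) M y (LR_psi r d c) 0 t
      (by rw [Real.rpow_one]) le_rfl (Nat.mul_pos (by omega) (by omega)) ?_
      (LR_psi_per r d c hd) (LR_psi_le r d c hr.1) hy le_rfl zero_le_one ht1 ?_
    · have h1 : ((r : ℝ) * d) ^ 4 ≤ x := by
        refine le_trans ?_ h8
        have h2 : (r : ℝ) * d ≤ Real.log x ^ A * Real.log x ^ A :=
          mul_le_mul hrR hdA (Nat.cast_nonneg _) hLA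
        calc ((r : ℝ) * d) ^ 4 ≤ (Real.log x ^ A * Real.log x ^ A) ^ 4 :=
              pow_le_pow_left₀ (by positivity) h2 4
          _ = Real.log x ^ (8 * A) := by
              rw [← pow_add, ← pow_mul]
              congr 1
              ring
      exact_mod_cast h1
    · refine ht2.trans ?_
      exact pow_le_pow_right₀ hxr (by norm_num)
  refine (norm_sum_le _ _).trans ((sum_le_sum hterm).trans ?_)
  rw [sum_const, Nat.card_Icc, nsmul_eq_mul, Nat.add_sub_cancel]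
  have ht0 : 0 < |t| := by linarith
  have hinv : 0 ≤ 1 / |t| := by positivity
  have hZ : 0 ≤ (x : ℝ) ^ (-δ) := by positivity
  calc ((R : ℕ) : ℝ) * (x * Real.log x * (1 / |t| + (x : ℝ) ^ (-δ)))
      ≤ Real.log x ^ A * (x * Real.log x * (1 / |t| + (x : ℝ) ^ (-δ))) := by
        refine mul_le_mul_of_nonneg_right hRA (by positivity)
    _ = x * Real.log x ^ (A + 1) * (1 / |t| + (x : ℝ) ^ (-δ)) := by
        rw [pow_succ]
        ring

end Pool.Agent.H80.LV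

end
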