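import Pool.Agent.H43.PJ.H76.EHB.Basic
import Pool.Agent.H43.PJ.M25
import Pool.Agent.H43.PJ.M30

/-! The parts of this file: H53.MID.TypA, H53.MID.Typ2. -/

section

/-!
# MID TypA: mean square of the short sums of `Fp (hR R) P`, `P ≥ L^b`, twisted by `ee(-m a/r)`

`c m = Fp (cut K1 K2 f) P m ee(-(m a/r))`, `X ≥ 2 P K2`, `D(z) = ∑_{z < m ≤ z+W} c m`.
Proof.  Reduce `a/r` to lowest terms (`r' ∣ r`, `r' ≤ L^B`).  `∑_{m ≤ X} c m ee(m y) = ∑_{p ∈ pb P} ∑_{k ∈ Ioc K1 K2} f k ee(-(p k a/r)) ee(p k y) = ∑_{l < r} ∑_{p ∈ pbl P r l} FF (cut K1 K2 f) K2 (-(l a)/r + p y)`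
(`ee(-(p k a/r)) = ee(-(k l a/r))` for `p ≡ l (mod r)`).  For `gcd(l,r) > 1` there is no such prime (`p > P ≥ L^b > r`).  Otherwise `gcd(l a, r) = 1` and
`∫_{|y| ≤ Y} ‖∑_{p ∈ pbl P r l} FF ..‖^2 = JJT (cut K1 K2 f) K2 (zs (pbl P r l)) (c/r) 0 Y`, `c = -(l a)` (in `JJT` the factor `ee(-(0 · k y)) = 1`; the sum over `zs` is the sum over the naturals `k` as integers) `≤ N/L^E'` by `JJp` with `(B, E') = (B, E + 2B + 2)`.
Cauchy-Schwarz over `l < r`: `∫ ≤ r^2 N/L^E' ≤ N/L^(E+2)`.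
`∑_{m ≤ X} ‖c m‖^2 ≤ 4L ∑_{p ∈ pb P} ∑_k (cut f k)^2 ≤ 4 L P (K2+1) L^4 ≤ 256 N L^5` (number of primes dividing `m ≤ X ≤ 64N` is `≤ 4 L`; `hsq (B+1)`).
`gal` with `Y = L^(E+4)/W`: `∑_z ‖D z‖^2 ≤ W^2 N/L^(E+2) + W^2 L^(-2E-8) 256 N L^5 ≤ W^2 N/L^E`.  Condition `P Y ≤ 1/L^(E'+13)`: `P L^(E + 4 + E' + 13) ≤ W` (hypothesis `P * L^b ≤ W` with `b` large); `Y ≤ 1/2` follows.
-/

set_option autoImplicit false

namespace Pool.Agent.H53.MID

open Finset MeasureTheory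
open Pool.Agent.H91.PK (ee)
open Pool.Agent.H91.EHA (Lam hR lamR ramS)
open Pool.Agent.H35.W (pb pbl JJT zs)

private theorem TypA_swap {β : Type*} [AddCommMonoid β] (P X : ℕ) (F : ℕ → ℕ → β) :
    ∑ m ∈ Icc 1 X, ∑ p ∈ (pb P).filter (fun p => p ∣ m), F m p =
      ∑ p ∈ pb P, ∑ m ∈ (Icc 1 X).filter (fun m => p ∣ m), F m p := by
  apply Finset.sum_comm'
  intro m p
  simp only [mem_filter]
  tauto

private theorem TypA_mult {β : Type*} [AddCommMonoid β] (X K2 p : ℕ) (hp : 0 < p)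
    (hX : p * K2 ≤ X) (G : ℕ → ℕ → β) (hG : ∀ m k, K2 < k → G m k = 0) :
    ∑ m ∈ (Icc 1 X).filter (fun m => p ∣ m), G m (m / p) = ∑ k ∈ Icc 1 K2, G (p * k) k := by
  have h1 : ∑ k ∈ Icc 1 K2, G (p * k) k =
      ∑ m ∈ (Icc 1 K2).image (fun k => p * k), G m (m / p) := by
    rw [Finset.sum_image]
    · refine Finset.sum_congr rfl ?_
      intro k _
      rw [Nat.mul_div_cancel_left k hp]
    · intro a _ b _ h
      exact Nat.eq_of_mul_eq_mul_left hp h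
  rw [h1]
  symm
  apply Finset.sum_subset
  · intro m hm
    rw [Finset.mem_image] at hm
    obtain ⟨k, hk, rfl⟩ := hm
    rw [Finset.mem_Icc] at hk
    rw [Finset.mem_filter, Finset.mem_Icc]
    refine ⟨⟨?_, ?_⟩, Dvd.intro k rfl⟩
    · exact Nat.mul_pos hp hk.1
    · exact (Nat.mul_le_mul_left p hk.2).trans hX
  · intro m hm hm'
    rw [Finset.mem_filter, Finset.mem_Icc] at hm
    obtain ⟨⟨h1, h2⟩, k, rfl⟩ := hm
    rw [Nat.mul_div_cancel_left k hp]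
    apply hG
    by_contra hk
    apply hm'
    rw [Finset.mem_image]
    refine ⟨k, ?_, rfl⟩
    rw [Finset.mem_Icc]
    constructor
    · rcases Nat.eq_zero_or_pos k with h0 | h0
      · subst h0
        simp at h1
      · exact h0
    · omega

private theorem TypA_pb {P p : ℕ} (h : p ∈ pb P) : P < p ∧ p ≤ 2 * P ∧ p.Prime := by
  unfold pb at h
  rw [Finset.mem_filter, Finset.mem_Ioc] at h
  exact ⟨h.1.1, h.1.2, h.2⟩

private theorem TypA_pb_card (P : ℕ) : (pb P).card ≤ P := by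
  unfold pb
  refine (Finset.card_filter_le _ _).trans ?_
  rw [Nat.card_Ioc]
  omega

/-- the exponential sum of `Fp f P m ee(-(m θ))` -/
private theorem TypA_S (f : ℕ → ℝ) (P K2 X : ℕ) (hf : ∀ k, K2 < k → f k = 0)
    (hX : 2 * P * K2 ≤ X) (θ y : ℝ) :
    ∑ m ∈ Icc 1 X, (Fp f P m : ℂ) * ee (-(m * θ)) * ee (m * y) =
      ∑ p ∈ pb P, Pool.Agent.H76.EHB.FF f K2 (p * (y - θ)) := by
  have h1 : ∀ m ∈ Icc 1 X, (Fp f P m : ℂ) * ee (-(m * θ)) * ee (m * y) =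
      ∑ p ∈ (pb P).filter (fun p => p ∣ m), (f (m / p) : ℂ) * ee (m * (y - θ)) := by
    intro m _
    unfold Fp
    push_cast
    rw [mul_assoc, ← Pool.Agent.H91.PK.LSa_ee_add, Finset.sum_mul]
    refine Finset.sum_congr rfl ?_
    intro p _
    congr 2
    ring
  rw [Finset.sum_congr rfl h1, TypA_swap]
  refine Finset.sum_congr rfl ?_
  intro p hp
  obtain ⟨hp1, hp2, hp3⟩ := TypA_pb hp
  have h2 := TypA_mult X K2 p hp3.pos ((Nat.mul_le_mul_right _ hp2).trans hX)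
    (fun m k => (f k : ℂ) * ee (m * (y - θ))) (by
      intro m k hk
      rw [hf k hk]
      simp)
  rw [h2]
  unfold Pool.Agent.H76.EHB.FF
  refine Finset.sum_congr rfl ?_
  intro k _
  congr 2
  push_cast
  ring

/-- splitting into reduced classes -/
private theorem TypA_split {P d : ℕ} (hd : 1 ≤ d) (hdP : d ≤ P) (G : ℕ → ℂ) :
    ∑ p ∈ pb P, G p = ∑ l ∈ (range d).filter (fun l => Nat.Coprime l d),
      ∑ p ∈ pbl P d (l : ℤ), G p := by
  have h1 : ∀ p ∈ pb P, p % d ∈ (range d).filter (fun l => Nat.Coprime l d) := by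
    intro p hp
    obtain ⟨hp1, hp2, hp3⟩ := TypA_pb hp
    rw [Finset.mem_filter, Finset.mem_range]
    refine ⟨Nat.mod_lt _ hd, ?_⟩
    have h2 : Nat.Coprime p d := by
      rw [Nat.Prime.coprime_iff_not_dvd hp3]
      intro h
      have := Nat.le_of_dvd hd h
      omega
    unfold Nat.Coprime at h2 ⊢
    rw [← h2, Nat.gcd_comm p d, Nat.gcd_rec d p]
  rw [← Finset.sum_fiberwise_of_maps_to h1]
  refine Finset.sum_congr rfl ?_
  intro l hl
  rw [Finset.mem_filter, Finset.mem_range] at hl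
  refine Finset.sum_congr ?_ (fun _ _ => rfl)
  unfold pbl
  ext p
  simp only [Finset.mem_filter]
  refine and_congr_right ?_
  intro _
  constructor
  · intro h
    have h2 : (p : ℤ) - l = d * ((p / d : ℕ) : ℤ) := by
      have h3 := Nat.div_add_mod p d
      rw [h] at h3
      have h4 : ((d * (p / d) + l : ℕ) : ℤ) = p := by exact_mod_cast h3
      push_cast at h4 ⊢
      linarith
    exact ⟨_, h2⟩
  · intro h
    have h2 : (p : ℤ) ≡ l [ZMOD d] := (Int.modEq_iff_dvd.2 (by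
      rw [← neg_sub]
      exact (dvd_neg).2 h))
    have h3 := (Int.natCast_modEq_iff).1 h2
    unfold Nat.ModEq at h3
    rw [h3]
    exact Nat.mod_eq_of_lt hl.1

/-- the sum over a class is the sum of `JJT` -/
private theorem TypA_class (f : ℕ → ℝ) (P K2 d : ℕ) (l : ℕ) (a : ℤ) (hd : 1 ≤ d) (y : ℝ) :
    ∑ p ∈ pbl P d (l : ℤ), Pool.Agent.H76.EHB.FF f K2 (p * (y - (a : ℝ) / d)) =
      ∑ k ∈ zs (pbl P d (l : ℤ)),
        Pool.Agent.H76.EHB.FF f K2 (((-(l * a) : ℤ) : ℝ) / d + k * y) * ee (-(0 * k * y)) := by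
  unfold zs
  rw [Finset.sum_image (by
    intro a _ b _ h
    have h' : (a : ℤ) = (b : ℤ) := h
    exact_mod_cast h')]
  refine Finset.sum_congr rfl ?_
  intro p hp
  unfold pbl at hp
  rw [Finset.mem_filter] at hp
  obtain ⟨q, hq⟩ := hp.2
  have hd0 : (d : ℝ) ≠ 0 := by
    have : (1 : ℝ) ≤ d := by exact_mod_cast hd
    linarith
  have hq' : (p : ℝ) - l = d * q := by exact_mod_cast hq
  have h1 : (p : ℝ) * (y - (a : ℝ) / d) =
      (((-(l * a) : ℤ) : ℝ) / d + ((p : ℤ) : ℝ) * y) + ((-(q * a) : ℤ) : ℝ) := by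
    push_cast
    have hp' : (p : ℝ) = l + d * q := by linarith
    have h2 : (p : ℝ) * (a / d) = l * a / d + q * a := by
      rw [hp']
      field_simp
    have h3 : (p : ℝ) * (y - a / d) = p * y - p * (a / d) := by ring
    rw [h3, h2]
    ring
  rw [h1, Pool.Agent.H76.EHB.FF_add_int]
  have h3 : ee (-(0 * (((p : ℕ) : ℤ) : ℝ) * y)) = 1 := by
    have := Pool.Agent.H76.EHB.ee_int 0
    simpa using this
  rw [h3, mul_one]

/-- the small frequencies -/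
private theorem TypA_int (f : ℕ → ℝ) (P K2 d : ℕ) (a : ℤ) (Y V : ℝ) (hd : 1 ≤ d) (hdP : d ≤ P)
    (hV0 : 0 ≤ V)
    (hV : ∀ l : ℕ, l < d → Nat.Coprime l d →
      JJT f K2 (zs (pbl P d (l : ℤ))) (((-(l * a) : ℤ) : ℝ) / d) 0 Y ≤ V) :
    ∫ y in Set.Icc (-Y) Y, ‖∑ p ∈ pb P, Pool.Agent.H76.EHB.FF f K2 (p * (y - (a : ℝ) / d))‖ ^ 2 ≤
      (d : ℝ) ^ 2 * V := by
  have hcard : ((((range d).filter (fun l => Nat.Coprime l d)).card : ℕ) : ℝ) ≤ d := by
    have := Finset.card_filter_le (range d) (fun l => Nat.Coprime l d)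
    rw [Finset.card_range] at this
    exact_mod_cast this
  have hd0 : (0 : ℝ) ≤ d := Nat.cast_nonneg _
  have hc : ∀ l : ℕ, Continuous (fun y : ℝ => ‖∑ k ∈ zs (pbl P d (l : ℤ)),
      Pool.Agent.H76.EHB.FF f K2 (((-(l * a) : ℤ) : ℝ) / d + k * y) * ee (-(0 * k * y))‖ ^ 2) := by
    intro l
    refine (continuous_finsetSum _ ?_).norm.pow 2
    intro k _
    refine ((Pool.Agent.H76.EHB.FF_continuous f K2).comp (by fun_prop)).mul ?_
    exact Pool.Agent.H76.EHB.continuous_ee.comp (by fun_prop)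
  have hcS : Continuous (fun y : ℝ =>
      ‖∑ p ∈ pb P, Pool.Agent.H76.EHB.FF f K2 (p * (y - (a : ℝ) / d))‖ ^ 2) := by
    refine (continuous_finsetSum _ ?_).norm.pow 2
    intro k _
    exact (Pool.Agent.H76.EHB.FF_continuous f K2).comp (by fun_prop)
  have hpt : ∀ y : ℝ, ‖∑ p ∈ pb P, Pool.Agent.H76.EHB.FF f K2 (p * (y - (a : ℝ) / d))‖ ^ 2 ≤
      d * ∑ l ∈ (range d).filter (fun l => Nat.Coprime l d), ‖∑ k ∈ zs (pbl P d (l : ℤ)),
      Pool.Agent.H76.EHB.FF f K2 (((-(l * a) : ℤ) : ℝ) / d + k * y) * ee (-(0 * k * y))‖ ^ 2 := by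
    intro y
    rw [TypA_split hd hdP]
    have h1 : ‖∑ l ∈ (range d).filter (fun l => Nat.Coprime l d),
        ∑ p ∈ pbl P d (l : ℤ), Pool.Agent.H76.EHB.FF f K2 (p * (y - (a : ℝ) / d))‖ ≤
        ∑ l ∈ (range d).filter (fun l => Nat.Coprime l d), ‖∑ k ∈ zs (pbl P d (l : ℤ)),
      Pool.Agent.H76.EHB.FF f K2 (((-(l * a) : ℤ) : ℝ) / d + k * y) * ee (-(0 * k * y))‖ := by
      refine (norm_sum_le _ _).trans (le_of_eq ?_)
      refine Finset.sum_congr rfl ?_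
      intro l _
      rw [TypA_class f P K2 d l a hd y]
    refine (pow_le_pow_left₀ (norm_nonneg _) h1 2).trans ?_
    refine sq_sum_le_card_mul_sum_sq.trans ?_
    exact mul_le_mul_of_nonneg_right hcard (Finset.sum_nonneg fun _ _ => sq_nonneg _)
  have h2 : ∫ y in Set.Icc (-Y) Y,
      ‖∑ p ∈ pb P, Pool.Agent.H76.EHB.FF f K2 (p * (y - (a : ℝ) / d))‖ ^ 2 ≤
      ∫ y in Set.Icc (-Y) Y, (d : ℝ) * ∑ l ∈ (range d).filter (fun l => Nat.Coprime l d),
        ‖∑ k ∈ zs (pbl P d (l : ℤ)),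
      Pool.Agent.H76.EHB.FF f K2 (((-(l * a) : ℤ) : ℝ) / d + k * y) * ee (-(0 * k * y))‖ ^ 2 := by
    refine setIntegral_mono_on ?_ ?_ measurableSet_Icc (fun y _ => hpt y)
    · exact hcS.continuousOn.integrableOn_Icc
    · refine (Continuous.continuousOn ?_).integrableOn_Icc
      exact continuous_const.mul (continuous_finsetSum _ fun l _ => hc l)
  refine h2.trans ?_
  rw [integral_const_mul, integral_finsetSum _ (fun l _ => (hc l).continuousOn.integrableOn_Icc)]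
  have h3 : ∑ l ∈ (range d).filter (fun l => Nat.Coprime l d),
      (∫ y in Set.Icc (-Y) Y, ‖∑ k ∈ zs (pbl P d (l : ℤ)),
      Pool.Agent.H76.EHB.FF f K2 (((-(l * a) : ℤ) : ℝ) / d + k * y) * ee (-(0 * k * y))‖ ^ 2) ≤
      ∑ l ∈ (range d).filter (fun l => Nat.Coprime l d), V := by
    refine Finset.sum_le_sum ?_
    intro l hl
    rw [Finset.mem_filter, Finset.mem_range] at hl
    exact hV l hl.1 hl.2
  rw [Finset.sum_const, nsmul_eq_mul] at h3
  calc (d : ℝ) * _ ≤ d * (d * V) := by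
        refine mul_le_mul_of_nonneg_left (h3.trans ?_) hd0
        exact mul_le_mul_of_nonneg_right hcard hV0
    _ = (d : ℝ) ^ 2 * V := by ring

/-- number of prime factors in the block -/
private theorem TypA_omega {P m : ℕ} (hm : 1 ≤ m) :
    (((pb P).filter (fun p => p ∣ m)).card : ℝ) * Real.log 2 ≤ Real.log m := by
  have h1 : ∏ p ∈ (pb P).filter (fun p => p ∣ m), p ∣ m := by
    apply Finset.prod_primes_dvd
    · intro p hp
      rw [Finset.mem_filter] at hp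
      exact (TypA_pb hp.1).2.2.prime
    · intro p hp
      rw [Finset.mem_filter] at hp
      exact hp.2
  have h2 : 2 ^ ((pb P).filter (fun p => p ∣ m)).card ≤
      ∏ p ∈ (pb P).filter (fun p => p ∣ m), p := by
    rw [← Finset.prod_const]
    refine Finset.prod_le_prod' ?_
    intro p hp
    rw [Finset.mem_filter] at hp
    exact (TypA_pb hp.1).2.2.two_le
  have h3 : 2 ^ ((pb P).filter (fun p => p ∣ m)).card ≤ m := h2.trans (Nat.le_of_dvd hm h1)
  have h4 : (2 : ℝ) ^ ((pb P).filter (fun p => p ∣ m)).card ≤ m := by exact_mod_cast h3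
  rw [← Real.log_pow]
  exact Real.log_le_log (by positivity) h4

/-- second moment -/
private theorem TypA_sq (f : ℕ → ℝ) (P K2 X : ℕ) (hf : ∀ k, K2 < k → f k = 0)
    (hX : 2 * P * K2 ≤ X) (Ω : ℝ)
    (hΩ : ∀ m ∈ Icc 1 X, (((pb P).filter (fun p => p ∣ m)).card : ℝ) ≤ Ω) (hΩ0 : 0 ≤ Ω) :
    ∑ m ∈ Icc 1 X, Fp f P m ^ 2 ≤ Ω * (P * ∑ k ∈ Icc 1 K2, f k ^ 2) := by
  have h1 : ∀ m ∈ Icc 1 X, Fp f P m ^ 2 ≤
      Ω * ∑ p ∈ (pb P).filter (fun p => p ∣ m), f (m / p) ^ 2 := by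
    intro m hm
    unfold Fp
    refine sq_sum_le_card_mul_sum_sq.trans ?_
    exact mul_le_mul_of_nonneg_right (hΩ m hm) (Finset.sum_nonneg fun _ _ => sq_nonneg _)
  refine (Finset.sum_le_sum h1).trans ?_
  rw [← Finset.mul_sum, TypA_swap]
  refine mul_le_mul_of_nonneg_left ?_ hΩ0
  have h2 : ∀ p ∈ pb P, ∑ m ∈ (Icc 1 X).filter (fun m => p ∣ m), f (m / p) ^ 2 =
      ∑ k ∈ Icc 1 K2, f k ^ 2 := by
    intro p hp
    obtain ⟨hp1, hp2, hp3⟩ := TypA_pb hp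
    exact TypA_mult X K2 p hp3.pos ((Nat.mul_le_mul_right _ hp2).trans hX)
      (fun _ k => f k ^ 2) (by
        intro m k hk
        rw [hf k hk]
        simp)
  rw [Finset.sum_congr rfl h2, Finset.sum_const, nsmul_eq_mul]
  refine mul_le_mul_of_nonneg_right ?_ (Finset.sum_nonneg fun _ _ => sq_nonneg _)
  exact_mod_cast TypA_pb_card P

theorem typ_a (hJ : JJp) (B E : ℕ) : ∃ b N0 : ℕ, ∀ N : ℕ, N0 ≤ N → ∀ (P K1 K2 X W r a : ℕ),
    Real.log N ^ b ≤ P → P ^ 3 ≤ N → 1 ≤ r → (r : ℝ) ≤ Real.log N ^ B → N ≤ 32 * P * K1 → K1 < K2 →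
    P * K2 ≤ 32 * N → 2 * P * K2 ≤ X → X ≤ 64 * N → P * Real.log N ^ b ≤ W → W ≤ N →
    ∑ z ∈ range X, ‖∑ m ∈ (Icc 1 X).filter (fun m => z < m ∧ m ≤ z + W),
        (Fp (cut K1 K2 (hR ⌊Real.log N ^ (B + 1)⌋₊)) P m : ℂ) * ee (-(m * ((a : ℝ) / r)))‖ ^ 2 ≤
      (W : ℝ) ^ 2 * N / Real.log N ^ E := by
  obtain ⟨b', N1, hJ1⟩ := hJ B (E + 2 * B + 2)
  obtain ⟨N2, hS⟩ := hsq (B + 1)
  refine ⟨b' + 2 * E + 6 * B + 19, max (max N1 N2) (⌈Real.exp 64⌉₊ + 2), ?_⟩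
  intro N hN P K1 K2 X W r a hbP hP3 hr1 hrB hNPK hK12 hPK hXK hXN hPW hWN
  have hN1 : N1 ≤ N := le_trans (le_trans (le_max_left _ _) (le_max_left _ _)) hN
  have hN2 : N2 ≤ N := le_trans (le_trans (le_max_right _ _) (le_max_left _ _)) hN
  have hN3 : ⌈Real.exp 64⌉₊ + 2 ≤ N := le_trans (le_max_right _ _) hN
  have hN0 : (0 : ℝ) < N := by
    have : 0 < N := by omega
    exact_mod_cast this
  have hL64 : 64 ≤ Real.log N := by
    rw [Real.le_log_iff_exp_le hN0]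
    refine (Nat.le_ceil _).trans ?_
    exact_mod_cast (show ⌈Real.exp 64⌉₊ ≤ N by omega)
  set L := Real.log N with hLdef
  have hL1 : 1 ≤ L := by linarith
  have hL0 : 0 < L := by linarith
  set b := b' + 2 * E + 6 * B + 19 with hb
  have hpow : ∀ i j : ℕ, i ≤ j → L ^ i ≤ L ^ j := fun i j h => pow_le_pow_right₀ hL1 h
  -- lowest terms
  obtain ⟨g, hg⟩ : ∃ g, g = Nat.gcd a r := ⟨_, rfl⟩
  have hg0 : 0 < g := by
    rw [hg]
    exact Nat.gcd_pos_of_pos_right _ hr1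
  obtain ⟨a', ha'⟩ : g ∣ a := hg ▸ Nat.gcd_dvd_left a r
  obtain ⟨d, hd⟩ : g ∣ r := hg ▸ Nat.gcd_dvd_right a r
  have hcop : Nat.Coprime a' d := by
    have h1 := Nat.coprime_div_gcd_div_gcd (m := a) (n := r) (by rw [← hg]; exact hg0)
    rw [← hg, ha', hd, Nat.mul_div_cancel_left _ hg0, Nat.mul_div_cancel_left _ hg0] at h1
    exact h1
  have hd1 : 1 ≤ d := by
    rcases Nat.eq_zero_or_pos d with h | h
    · subst h
      omega
    · exact h
  have hdr : d ≤ r := by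
    rw [hd]
    exact Nat.le_mul_of_pos_left d hg0
  have hdr' : (d : ℝ) ≤ L ^ B := le_trans (by exact_mod_cast hdr) hrB
  have hd0 : (0 : ℝ) < d := by exact_mod_cast hd1
  have hdP : d ≤ P := by
    have h1 : (d : ℝ) ≤ P := hdr'.trans ((hpow B b (by omega)).trans hbP)
    exact_mod_cast h1
  have hfrac : (a : ℝ) / r = ((a' : ℤ) : ℝ) / d := by
    rw [ha', hd]
    push_cast
    have hg0' : (g : ℝ) ≠ 0 := by
      have : (0 : ℝ) < g := by exact_mod_cast hg0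
      exact this.ne'
    exact mul_div_mul_left _ _ hg0'
  have hPpos : (0 : ℝ) < P := lt_of_lt_of_le (by positivity) hbP
  have hWpos : (0 : ℝ) < W := lt_of_lt_of_le (by positivity) hPW
  set f : ℕ → ℝ := cut K1 K2 (hR ⌊L ^ (B + 1)⌋₊) with hf
  have hfz : ∀ k, K2 < k → f k = 0 := by
    intro k hk
    rw [hf]
    unfold cut
    rw [if_neg]
    rw [Finset.mem_Ioc]
    omega
  set Y : ℝ := L ^ (E + 4) / W with hY
  have hY0 : 0 < Y := by positivity
  have hPY : P * Y ≤ 1 / L ^ ((E + 2 * B + 2) + 13) := by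
    rw [hY, mul_div_assoc', div_le_div_iff₀ hWpos (by positivity), one_mul]
    refine le_trans ?_ hPW
    rw [mul_assoc, ← pow_add]
    exact mul_le_mul_of_nonneg_left (hpow _ _ (by omega)) hPpos.le
  have hP1 : (1 : ℝ) ≤ P := le_trans (one_le_pow₀ hL1) hbP
  have hY1 : Y ≤ 1 / 2 := by
    have h1 : Y ≤ P * Y := by nlinarith
    have h2 : 1 / L ^ ((E + 2 * B + 2) + 13) ≤ 1 / 2 := by
      refine one_div_le_one_div_of_le (by norm_num) ?_
      calc (2 : ℝ) ≤ L ^ 1 := by rw [pow_one]; linarith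
        _ ≤ _ := hpow _ _ (by omega)
    linarith
  -- small frequencies
  have hint := TypA_int f P K2 d (a' : ℤ) Y (N / L ^ (E + 2 * B + 2)) hd1 hdP (by positivity) (by
    intro l hl hlc
    refine hJ1 N hN1 P d K1 K2 (-(l * (a' : ℤ))) l Y ?_ hP3 hd1 hdr' ?_ hNPK hK12 hPK hY0.le hPY
    · exact (hpow _ _ (by omega)).trans hbP
    · rw [IsCoprime.neg_left_iff]
      have h1 : Nat.Coprime (l * a') d := Nat.Coprime.mul_left hlc hcop
      have h2 := Nat.isCoprime_iff_coprime.2 h1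
      exact_mod_cast h2)
  -- second moment
  have hK1L : L ^ (4 * (B + 1)) + 1 ≤ K1 := by
    have h1 : (N : ℝ) ≤ 32 * P * K1 := by exact_mod_cast hNPK
    have h2 : (W : ℝ) ≤ N := by exact_mod_cast hWN
    have h3 : P * L ^ b ≤ P * (32 * K1) := by nlinarith
    have h4 : L ^ b ≤ 32 * K1 := le_of_mul_le_mul_left h3 hPpos
    have h5 : L ^ (4 * (B + 1)) * 64 ≤ L ^ b := by
      calc L ^ (4 * (B + 1)) * 64 ≤ L ^ (4 * (B + 1)) * L ^ 1 := by
            rw [pow_one]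
            exact mul_le_mul_of_nonneg_left hL64 (by positivity)
        _ = L ^ (4 * (B + 1) + 1) := (pow_add _ _ _).symm
        _ ≤ L ^ b := hpow _ _ (by omega)
    have h6 : 1 ≤ L ^ (4 * (B + 1)) := one_le_pow₀ hL1
    linarith
  have hRle : ((⌊L ^ (B + 1)⌋₊ : ℕ) : ℝ) ≤ L ^ (B + 1) := Nat.floor_le (by positivity)
  have hR4 : ⌊L ^ (B + 1)⌋₊ ^ 4 + 1 ≤ K1 := by
    have h1 : (((⌊L ^ (B + 1)⌋₊ ^ 4 + 1 : ℕ)) : ℝ) ≤ K1 := by
      push_cast
      have h2 : ((⌊L ^ (B + 1)⌋₊ : ℕ) : ℝ) ^ 4 ≤ (L ^ (B + 1)) ^ 4 :=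
        pow_le_pow_left₀ (Nat.cast_nonneg _) hRle 4
      rw [← pow_mul, mul_comm (B + 1) 4] at h2
      linarith
    exact_mod_cast h1
  have hP1' : 1 ≤ P := by exact_mod_cast hP1
  have hN64 : 64 ≤ N := by
    have h1 : (64 : ℝ) ≤ N := by
      have := Real.add_one_le_exp (64 : ℝ)
      have h2 : Real.exp 64 ≤ N := by
        rw [← Real.le_log_iff_exp_le hN0]
        exact hL64
      linarith
    exact_mod_cast h1
  have hK2N : K2 + 1 ≤ N ^ 4 := by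
    have h1 : K2 ≤ 32 * N := le_trans (Nat.le_mul_of_pos_left _ hP1') hPK
    have h2 : N ^ 4 = N * (N * N * N) := by ring
    have h3 : 64 * 64 * 64 ≤ N * N * N := Nat.mul_le_mul (Nat.mul_le_mul hN64 hN64) hN64
    have h4 : N * (64 * 64 * 64) ≤ N * (N * N * N) := Nat.mul_le_mul_left _ h3
    omega
  have hSq : ∑ k ∈ Icc 1 K2, f k ^ 2 ≤ ((K2 : ℝ) + 1) * L ^ 4 := by
    have h1 := hS N hN2 ⌊L ^ (B + 1)⌋₊ hRle K1 K2 0 (K2 + 1) (by omega) (by omega)
    rw [zero_add] at h1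
    push_cast at h1
    refine le_trans ?_ h1
    refine Finset.sum_le_sum_of_subset_of_nonneg ?_ (fun _ _ _ => sq_nonneg _)
    intro k hk
    rw [Finset.mem_Icc] at hk
    rw [Finset.mem_Ico]
    omega
  have hOm : ∀ m ∈ Icc 1 X, (((pb P).filter (fun p => p ∣ m)).card : ℝ) ≤ 4 * L := by
    intro m hm
    rw [Finset.mem_Icc] at hm
    have h1 := TypA_omega (P := P) hm.1
    have h2 : Real.log m ≤ Real.log (64 * N) := by
      refine Real.log_le_log (by exact_mod_cast hm.1) ?_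
      exact_mod_cast hm.2.trans hXN
    rw [Real.log_mul (by norm_num) hN0.ne', show (64 : ℝ) = 2 ^ 6 by norm_num, Real.log_pow] at h2
    have h3 : (0.69 : ℝ) < Real.log 2 := by
      have := Real.log_two_gt_d9
      linarith
    have h4 : Real.log 2 < 0.7 := by
      have := Real.log_two_lt_d9
      linarith
    push_cast at h2
    by_contra hcon
    push Not at hcon
    have h5 : 4 * L * 0.69 < (((pb P).filter (fun p => p ∣ m)).card : ℝ) * Real.log 2 := by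
      have h6 : 4 * L * 0.69 < (((pb P).filter (fun p => p ∣ m)).card : ℝ) * 0.69 := by
        linarith
      have h7 : (((pb P).filter (fun p => p ∣ m)).card : ℝ) * 0.69 ≤
          (((pb P).filter (fun p => p ∣ m)).card : ℝ) * Real.log 2 :=
        mul_le_mul_of_nonneg_left h3.le (Nat.cast_nonneg _)
      linarith
    linarith
  have hsm := TypA_sq f P K2 X hfz hXK (4 * L) hOm (by positivity)
  have hsm2 : ∑ m ∈ Icc 1 X, Fp f P m ^ 2 ≤ 256 * N * L ^ 5 := by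
    refine hsm.trans ?_
    have h1 : (P : ℝ) * K2 ≤ 32 * N := by exact_mod_cast hPK
    have hK2 : (1 : ℝ) ≤ K2 := by
      have : 1 ≤ K2 := by omega
      exact_mod_cast this
    calc 4 * L * (P * ∑ k ∈ Icc 1 K2, f k ^ 2) ≤ 4 * L * (P * (((K2 : ℝ) + 1) * L ^ 4)) := by
          refine mul_le_mul_of_nonneg_left ?_ (by positivity)
          exact mul_le_mul_of_nonneg_left hSq hPpos.le
      _ = 4 * (P * (K2 + 1)) * L ^ 5 := by ring
      _ ≤ 4 * (64 * N) * L ^ 5 := by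
          refine mul_le_mul_of_nonneg_right ?_ (by positivity)
          have h2 : (P : ℝ) * (K2 + 1) ≤ 64 * N := by nlinarith
          linarith
      _ = 256 * N * L ^ 5 := by ring
  -- Gallagher
  have hgal := gal X W (fun m => (Fp f P m : ℂ) * ee (-(m * ((a : ℝ) / r)))) Y hY0 hY1
  refine hgal.trans ?_
  have e1 : (∫ y in Set.Icc (-Y) Y,
      ‖∑ m ∈ Icc 1 X, (Fp f P m : ℂ) * ee (-(m * ((a : ℝ) / r))) * ee (m * y)‖ ^ 2) ≤
      (d : ℝ) ^ 2 * (N / L ^ (E + 2 * B + 2)) := by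
    refine le_trans (le_of_eq ?_) hint
    congr 1
    funext y
    rw [TypA_S f P K2 X hfz hXK ((a : ℝ) / r) y, hfrac]
  have e2 : (d : ℝ) ^ 2 * (N / L ^ (E + 2 * B + 2)) ≤ N / L ^ (E + 2) := by
    have h1 : (d : ℝ) ^ 2 ≤ L ^ (2 * B) := by
      have := pow_le_pow_left₀ hd0.le hdr' 2
      rw [← pow_mul, mul_comm B 2] at this
      exact this
    rw [mul_div_assoc', div_le_div_iff₀ (by positivity) (by positivity)]
    have h2 : L ^ (E + 2 * B + 2) = L ^ (2 * B) * L ^ (E + 2) := by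
      rw [← pow_add]
      congr 1
      omega
    rw [h2]
    calc (d : ℝ) ^ 2 * N * L ^ (E + 2) ≤ L ^ (2 * B) * N * L ^ (E + 2) := by
          refine mul_le_mul_of_nonneg_right ?_ (by positivity)
          exact mul_le_mul_of_nonneg_right h1 hN0.le
      _ = N * (L ^ (2 * B) * L ^ (E + 2)) := by ring
  have e3 : ∑ m ∈ Icc 1 X, ‖(Fp f P m : ℂ) * ee (-(m * ((a : ℝ) / r)))‖ ^ 2 ≤
      256 * N * L ^ 5 := by
    refine le_trans (le_of_eq ?_) hsm2
    refine Finset.sum_congr rfl ?_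
    intro m _
    rw [norm_mul, Pool.Agent.H91.PK.LSa_norm_ee, mul_one, Complex.norm_real, Real.norm_eq_abs,
      sq_abs]
  have e4 : 1 / Y ^ 2 = (W : ℝ) ^ 2 / L ^ (2 * E + 8) := by
    rw [hY, div_pow, one_div_div, ← pow_mul]
    congr 2
    ring
  have e5 : (W : ℝ) ^ 2 * (∫ y in Set.Icc (-Y) Y,
      ‖∑ m ∈ Icc 1 X, (Fp f P m : ℂ) * ee (-(m * ((a : ℝ) / r))) * ee (m * y)‖ ^ 2)
        + 1 / Y ^ 2 * ∑ m ∈ Icc 1 X, ‖(Fp f P m : ℂ) * ee (-(m * ((a : ℝ) / r)))‖ ^ 2 ≤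
      (W : ℝ) ^ 2 * (N / L ^ (E + 2)) + (W : ℝ) ^ 2 / L ^ (2 * E + 8) * (256 * N * L ^ 5) := by
    rw [e4]
    refine add_le_add ?_ ?_
    · exact mul_le_mul_of_nonneg_left (e1.trans e2) (by positivity)
    · exact mul_le_mul_of_nonneg_left e3 (by positivity)
  refine e5.trans ?_
  have e6 : (W : ℝ) ^ 2 * (N / L ^ (E + 2)) + (W : ℝ) ^ 2 / L ^ (2 * E + 8) * (256 * N * L ^ 5) =
      (W : ℝ) ^ 2 * N / L ^ E * (1 / L ^ 2 + 256 / L ^ (E + 3)) := by
    have h1 : L ^ (2 * E + 8) = L ^ E * L ^ (E + 3) * L ^ 5 := by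
      rw [← pow_add, ← pow_add]
      congr 1
      omega
    rw [h1, pow_add L E 2]
    field_simp
  rw [e6]
  have e7 : 1 / L ^ 2 + 256 / L ^ (E + 3) ≤ 1 := by
    have h1 : (64 : ℝ) ^ 2 ≤ L ^ 2 := pow_le_pow_left₀ (by norm_num) hL64 2
    have h2 : (64 : ℝ) ^ 3 ≤ L ^ (E + 3) := (pow_le_pow_left₀ (by norm_num) hL64 3).trans
      (hpow _ _ (by omega))
    have h3 : 1 / L ^ 2 ≤ 1 / 2 := one_div_le_one_div_of_le (by norm_num) (by linarith)
    have h4 : 256 / L ^ (E + 3) ≤ 1 / 2 := by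
      rw [div_le_div_iff₀ (by positivity) (by norm_num)]
      linarith
    linarith
  calc (W : ℝ) ^ 2 * N / L ^ E * (1 / L ^ 2 + 256 / L ^ (E + 3)) ≤
        (W : ℝ) ^ 2 * N / L ^ E * 1 := mul_le_mul_of_nonneg_left e7 (by positivity)
    _ = (W : ℝ) ^ 2 * N / L ^ E := mul_one _

end Pool.Agent.H53.MID

end

section

/-!
# MID Typ2: few blocks with a bad rational frequency, `P ≥ L^b`

Proof.  `L = log N`, `K1 = N/(16 P)`, `K2 = 12 N/P` (natural division), `X = 60 N`, `f = cut K1 K2 (hR R)`, `R = ⌊L^(B+1)⌋`; for `m ∈ [N/4, 5N]` (all blocks), `p ∈ pb P`, `p ∣ m`: `K1 < m/p ≤ K2`, so `Fp f P m = Fp (hR R) P m`.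
`W = H/⌊L^(A+4)⌋` (natural division), so `H/(2 L^(A+4)) ≤ W ≤ 2 H/L^(A+4)`; `E = 3A + 2B + 8`.
Let `i` be bad with `r, a, y1, y2` (WLOG `a < r`: replace `a` by `a % r`); `c m = Fp f P m ee(-(m a/r))`, `D(z)` as in `typ_a`.
`W ∑_{m ∈ Ico y1 y2} c m = ∑_z ∑_{m ∈ Ico y1 y2, z < m ≤ z + W} c m` (every `m ≥ W` is counted for `W` values `z`); the `z` with `(z, z+W] ⊆ [y1, y2)` give `D(z)`, the others (at most `2W` values with a nonempty intersection) give
at most `∑_{m ∈ (z,z+W]} |Fp f P m| ≤ P (W/P + 1 + w0) L^2 ≤ 3 W L^2` (`fp_l1`, `w0 = R^4 + 2`, `P (w0+1) ≤ W`).  If `y2 - y1 < W` the same bound holds directly.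
So `M = H/L^A < ‖∑_{Ico y1 y2}‖ ≤ (1/W) ∑_{z ∈ [iH - 1, (i+1)H)} ‖D z‖ + 6 W L^2`, `6 W L^2 ≤ 12 H/L^(A+2) ≤ H/(2L^A)`; hence `∑_{z ∈ block} ‖D z‖ ≥ W H/(2 L^A)` (block = `[iH-1, (i+1)H)`, at most `H + 1` values) and `∑ ‖D z‖^2 ≥ W^2 H/(8 L^(2A))`.
For fixed `a/r` the number of such `i` is `≤ 2 · (W^2 N/L^E)/(W^2 H/(8 L^(2A))) = 16 (N/H) L^(2A - E)` (every `z` is in at most 2 of the blocks); there are at most `L^(2B)` pairs `(a, r)`, `a < r ≤ L^B`.  Total `≤ (N/H)/L^A`.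
-/

set_option autoImplicit false

namespace Pool.Agent.H53.MID

open Finset MeasureTheory
open Pool.Agent.H91.PK (ee)
open Pool.Agent.H91.EHA (Lam hR lamR ramS)
open Pool.Agent.H35.W (pb)

/-- averaging over windows -/
private theorem Typ2_avg (c : ℕ → ℂ) (X W y1 y2 lo hi : ℕ) (B0 : ℝ) (hW : 1 ≤ W) (hWy : W ≤ y1) (hy2 : y2 ≤ X)
    (hlo : lo ≤ y1) (hhi : y2 ≤ hi) (hB0 : 0 ≤ B0)
    (hB : ∀ z, z < y2 → ∑ m ∈ Ico (z + 1) (z + 1 + W), ‖c m‖ ≤ B0) :
    W * ‖∑ m ∈ Ico y1 y2, c m‖ ≤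
      ∑ z ∈ Ico (lo - 1) (hi - 1), ‖∑ m ∈ (Icc 1 X).filter (fun m => z < m ∧ m ≤ z + W), c m‖ + 2 * W * B0 := by
  have h1 : (W : ℂ) * ∑ m ∈ Ico y1 y2, c m =
      ∑ z ∈ Ico (y1 - W) y2, ∑ m ∈ (Ico y1 y2).filter (fun m => z < m ∧ m ≤ z + W), c m := by
    simp_rw [Finset.sum_filter]
    rw [Finset.sum_comm, Finset.mul_sum]
    refine Finset.sum_congr rfl fun m hm => ?_
    rw [Finset.mem_Ico] at hm
    rw [← Finset.sum_filter, Finset.sum_const, nsmul_eq_mul]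
    congr 2
    have h2 : (Ico (y1 - W) y2).filter (fun z => z < m ∧ m ≤ z + W) = Ico (m - W) m := by
      ext z
      simp only [Finset.mem_filter, Finset.mem_Ico]
      omega
    rw [h2, Nat.card_Ico]
    omega
  have h2 : W * ‖∑ m ∈ Ico y1 y2, c m‖ = ‖(W : ℂ) * ∑ m ∈ Ico y1 y2, c m‖ := by
    rw [norm_mul, Complex.norm_natCast]
  rw [h2, h1]
  refine (norm_sum_le _ _).trans ?_
  rw [← Finset.sum_filter_add_sum_filter_not (Ico (y1 - W) y2) (fun z => y1 ≤ z + 1 ∧ z + W < y2)]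
  refine add_le_add ?_ ?_
  · have h3 : ∀ z ∈ (Ico (y1 - W) y2).filter (fun z => y1 ≤ z + 1 ∧ z + W < y2),
        ‖∑ m ∈ (Ico y1 y2).filter (fun m => z < m ∧ m ≤ z + W), c m‖ =
        ‖∑ m ∈ (Icc 1 X).filter (fun m => z < m ∧ m ≤ z + W), c m‖ := by
      intro z hz
      rw [Finset.mem_filter] at hz
      have h4 : (Ico y1 y2).filter (fun m => z < m ∧ m ≤ z + W) = (Icc 1 X).filter (fun m => z < m ∧ m ≤ z + W) := by
        ext m
        simp only [Finset.mem_filter, Finset.mem_Ico, Finset.mem_Icc]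
        omega
      rw [h4]
    rw [Finset.sum_congr rfl h3]
    refine Finset.sum_le_sum_of_subset_of_nonneg ?_ fun _ _ _ => norm_nonneg _
    intro z hz
    rw [Finset.mem_filter, Finset.mem_Ico] at hz
    rw [Finset.mem_Ico]
    omega
  · have h3 : ∀ z ∈ (Ico (y1 - W) y2).filter (fun z => ¬ (y1 ≤ z + 1 ∧ z + W < y2)),
        ‖∑ m ∈ (Ico y1 y2).filter (fun m => z < m ∧ m ≤ z + W), c m‖ ≤ B0 := by
      intro z hz
      rw [Finset.mem_filter, Finset.mem_Ico] at hz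
      refine (norm_sum_le _ _).trans (le_trans ?_ (hB z hz.1.2))
      refine Finset.sum_le_sum_of_subset_of_nonneg ?_ fun _ _ _ => norm_nonneg _
      intro m hm
      rw [Finset.mem_filter, Finset.mem_Ico] at hm
      rw [Finset.mem_Ico]
      omega
    refine (Finset.sum_le_sum h3).trans ?_
    rw [Finset.sum_const, nsmul_eq_mul]
    refine mul_le_mul_of_nonneg_right ?_ hB0
    have h4 : (Ico (y1 - W) y2).filter (fun z => ¬ (y1 ≤ z + 1 ∧ z + W < y2)) ⊆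
        Ico (y1 - W) (y1 - 1) ∪ Ico (y2 - W) y2 := by
      intro z hz
      rw [Finset.mem_filter, Finset.mem_Ico] at hz
      rw [Finset.mem_union, Finset.mem_Ico, Finset.mem_Ico]
      omega
    have h5 : ((Ico (y1 - W) y2).filter (fun z => ¬ (y1 ≤ z + 1 ∧ z + W < y2))).card ≤ 2 * W := by
      refine (Finset.card_le_card h4).trans ((Finset.card_union_le _ _).trans ?_)
      rw [Nat.card_Ico, Nat.card_Ico]
      omega
    exact_mod_cast h5

/-- disjoint blocks -/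
private theorem Typ2_blk (D : ℕ → ℝ) (S : Finset ℕ) (H X : ℕ) (T : ℝ) (hT : 0 ≤ T) (hH : 1 ≤ H)
    (hS : ∀ i ∈ S, 1 ≤ i ∧ (i + 1) * H ≤ X ∧ T ≤ ∑ z ∈ Ico (i * H - 1) ((i + 1) * H - 1), D z) :
    (S.card : ℝ) * (T ^ 2 / H) ≤ ∑ z ∈ range X, D z ^ 2 := by
  have hH0 : (0 : ℝ) < H := by exact_mod_cast hH
  have h1 : ∀ i ∈ S, T ^ 2 / H ≤ ∑ z ∈ Ico (i * H - 1) ((i + 1) * H - 1), D z ^ 2 := by
    intro i hi
    obtain ⟨h2, _, h4⟩ := hS i hi
    rw [div_le_iff₀ hH0]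
    have h5 : T ^ 2 ≤ (∑ z ∈ Ico (i * H - 1) ((i + 1) * H - 1), D z) ^ 2 := pow_le_pow_left₀ hT h4 2
    refine h5.trans (sq_sum_le_card_mul_sum_sq.trans ?_)
    rw [mul_comm]
    refine mul_le_mul_of_nonneg_left ?_ (Finset.sum_nonneg fun _ _ => sq_nonneg _)
    rw [Nat.card_Ico]
    have h6 : H ≤ i * H := Nat.le_mul_of_pos_left H h2
    have h7 : (i + 1) * H - 1 - (i * H - 1) ≤ H := by
      have : (i + 1) * H = i * H + H := by ring
      omega
    exact_mod_cast h7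
  have h2 : (S.card : ℝ) * (T ^ 2 / H) ≤ ∑ i ∈ S, ∑ z ∈ Ico (i * H - 1) ((i + 1) * H - 1), D z ^ 2 := by
    rw [← nsmul_eq_mul, ← Finset.sum_const]
    exact Finset.sum_le_sum h1
  refine h2.trans ?_
  rw [← Finset.sum_biUnion]
  · refine Finset.sum_le_sum_of_subset_of_nonneg ?_ fun _ _ _ => sq_nonneg _
    intro z hz
    rw [Finset.mem_biUnion] at hz
    obtain ⟨i, hi, hz⟩ := hz
    rw [Finset.mem_Ico] at hz
    rw [Finset.mem_range]
    have := (hS i hi).2.1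
    omega
  · intro i hi j hj hne
    rw [Function.onFun, Finset.disjoint_left]
    intro z hz hz'
    rw [Finset.mem_Ico] at hz hz'
    have hi1 := (hS i hi).1
    have hj1 := (hS j hj).1
    have a1 : H ≤ i * H := Nat.le_mul_of_pos_left H hi1
    have a2 : H ≤ j * H := Nat.le_mul_of_pos_left H hj1
    rcases lt_or_gt_of_ne hne with h | h
    · have h3 : (i + 1) * H ≤ j * H := Nat.mul_le_mul_right H h
      omega
    · have h3 : (j + 1) * H ≤ i * H := Nat.mul_le_mul_right H h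
      omega

private theorem Typ2_mod (m a r : ℕ) (hr : 1 ≤ r) :
    ee (-((m : ℝ) * ((a : ℝ) / r))) = ee (-((m : ℝ) * (((a % r : ℕ) : ℝ) / r))) := by
  have hr0 : (r : ℝ) ≠ 0 := by
    have : r ≠ 0 := by omega
    exact_mod_cast this
  have h1 : (a : ℝ) = r * ((a / r : ℕ) : ℝ) + ((a % r : ℕ) : ℝ) := by
    exact_mod_cast (Nat.div_add_mod a r).symm
  obtain ⟨k, hk⟩ : ∃ k, k = a / r := ⟨_, rfl⟩
  rw [← hk] at h1
  have h2 : -((m : ℝ) * ((a : ℝ) / r)) = -((m : ℝ) * (((a % r : ℕ) : ℝ) / r)) + ((-((m * k : ℕ) : ℤ) : ℤ) : ℝ) := by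
    rw [h1]
    push_cast
    field_simp
    ring
  rw [h2, Pool.Agent.H76.EHB.ee_add_int]

theorem typ2 (hJ : JJp) (A B : ℕ) : ∃ b N0 : ℕ, ∀ N : ℕ, N0 ≤ N → ∀ H P : ℕ, Real.log N ^ b ≤ P → P ^ 5 ≤ H → H ^ 2 ≤ N →
    ((badT (Fp (hR ⌊Real.log N ^ (B + 1)⌋₊) P) N H (Real.log N ^ B) (H / Real.log N ^ A)).card : ℝ)
      ≤ (N / H : ℝ) / Real.log N ^ A := by
  classical
  obtain ⟨b1, N1, h1⟩ := typ_a hJ B (3 * A + 2 * B + 8)
  obtain ⟨N2, h2⟩ := hsq (B + 1)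
  obtain ⟨N3, h3⟩ := Filter.eventually_atTop.1
    ((Real.tendsto_log_atTop.comp (tendsto_natCast_atTop_atTop (R := ℝ))).eventually_ge_atTop 10)
  refine ⟨b1 + A + 4 * B + 20, max (max N1 N2) (max N3 64), fun N hN H P hP hPH hHN => ?_⟩
  have hNN1 : N1 ≤ N := (le_max_left _ _).trans ((le_max_left _ _).trans hN)
  have hNN2 : N2 ≤ N := (le_max_right _ _).trans ((le_max_left _ _).trans hN)
  have hNN3 : N3 ≤ N := (le_max_left _ _).trans ((le_max_right _ _).trans hN)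
  have hN64 : 64 ≤ N := (le_max_right _ _).trans ((le_max_right _ _).trans hN)
  have hL10' : 10 ≤ Real.log N := h3 N hNN3
  have h1' := h1 N hNN1
  have h2' := h2 N hNN2
  clear h1 h2 h3
  obtain ⟨L, hL⟩ : ∃ L, L = Real.log N := ⟨_, rfl⟩
  rw [← hL] at hP hL10' h1' h2' ⊢
  have hL1 : 1 ≤ L := by linarith only [hL10']
  have hL0 : 0 < L := by linarith only [hL10']
  obtain ⟨R, hR'⟩ : ∃ R, R = ⌊L ^ (B + 1)⌋₊ := ⟨_, rfl⟩
  rw [← hR'] at h1' ⊢
  have hRle : (R : ℝ) ≤ L ^ (B + 1) := by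
    rw [hR']
    exact Nat.floor_le (by positivity)
  have hN0 : (0 : ℝ) < N := by
    have : 0 < N := by omega
    exact_mod_cast this
  -- sizes of `P`
  have hpow : ∀ k : ℕ, k ≤ b1 + A + 4 * B + 20 → L ^ k ≤ P := fun k hk =>
    (pow_le_pow_right₀ hL1 hk).trans hP
  have hP10 : (10 : ℝ) ≤ P := by
    have := hpow 1 (by omega)
    rw [pow_one] at this
    linarith only [hL10', this]
  have hP10' : 10 ≤ P := by exact_mod_cast hP10
  have hP0 : (0 : ℝ) < P := by linarith only [hP10]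
  have hPH' : (P : ℝ) ^ 5 ≤ H := by exact_mod_cast hPH
  have hH0 : (0 : ℝ) < H := lt_of_lt_of_le (by positivity) hPH'
  have hH0' : 0 < H := by exact_mod_cast hH0
  have hPleH : P ≤ H := le_trans (Nat.le_self_pow (by norm_num) P) hPH
  have hH64 : 64 ≤ H := by
    calc 64 ≤ 10 ^ 5 := by norm_num
      _ ≤ P ^ 5 := Nat.pow_le_pow_left hP10' 5
      _ ≤ H := hPH
  have hHN' : 64 * H ≤ N := by
    calc 64 * H ≤ H * H := Nat.mul_le_mul_right H hH64
      _ = H ^ 2 := by ring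
      _ ≤ N := hHN
  have hP3N : P ^ 3 ≤ N := by
    calc P ^ 3 ≤ P ^ 5 := Nat.pow_le_pow_right (by omega) (by norm_num)
      _ ≤ H := hPH
      _ ≤ N := by omega
  -- `K1`, `K2`
  obtain ⟨K1, hK1⟩ : ∃ K1, K1 = N / (16 * P) := ⟨_, rfl⟩
  obtain ⟨K2, hK2⟩ : ∃ K2, K2 = 12 * N / P := ⟨_, rfl⟩
  have hK1a : 16 * P * K1 ≤ N := by
    rw [hK1]
    exact Nat.mul_div_le _ _
  have hK1b : N < 16 * P * (K1 + 1) := by
    rw [hK1]
    exact Nat.lt_mul_div_succ _ (by omega)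
  have hK2a : P * K2 ≤ 12 * N := by
    rw [hK2]
    exact Nat.mul_div_le _ _
  have hK2b : 12 * N < P * (K2 + 1) := by
    rw [hK2]
    exact Nat.lt_mul_div_succ _ (by omega)
  have hK1pos : 1 ≤ K1 := by
    by_contra hcon
    have : K1 = 0 := by omega
    rw [this] at hK1b
    omega
  have hK1c : N ≤ 32 * P * K1 := by
    have : P ≤ P * K1 := Nat.le_mul_of_pos_right P hK1pos
    nlinarith only [hPleH, hH64, hHN', hK1b]
  have hK12 : K1 < K2 := by
    by_contra hcon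
    push Not at hcon
    have h4 : P * (K2 + 1) ≤ P * (K1 + 1) := Nat.mul_le_mul_left P (by omega)
    have h5 : P ≤ P * K1 := Nat.le_mul_of_pos_right P hK1pos
    nlinarith only [hPleH, hH64, hHN', hK1a, hK2b, h4]
  obtain ⟨X, hX⟩ : ∃ X, X = 60 * N := ⟨_, rfl⟩
  have hPK2X : 2 * P * K2 ≤ X := by
    rw [hX]
    nlinarith only [hH64, hHN', hK2a]
  -- `W`
  obtain ⟨q, hq⟩ : ∃ q, q = ⌊L ^ (A + 4)⌋₊ := ⟨_, rfl⟩
  have hLA4 : (10 : ℝ) ≤ L ^ (A + 4) := by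
    calc (10 : ℝ) ≤ L := hL10'
      _ = L ^ 1 := (pow_one L).symm
      _ ≤ L ^ (A + 4) := pow_le_pow_right₀ hL1 (by omega)
  have hq1 : (q : ℝ) ≤ L ^ (A + 4) := by
    rw [hq]
    exact Nat.floor_le (by positivity)
  have hq2 : L ^ (A + 4) < q + 1 := by
    rw [hq]
    exact Nat.lt_floor_add_one _
  have hq3 : L ^ (A + 4) / 2 ≤ q := by linarith only [hLA4, hq2]
  have hq0 : (0 : ℝ) < q := by linarith only [hLA4, hq2]
  have hq0' : 0 < q := by exact_mod_cast hq0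
  obtain ⟨W, hW⟩ : ∃ W, W = H / q := ⟨_, rfl⟩
  have hWa : q * W ≤ H := by
    rw [hW]
    exact Nat.mul_div_le _ _
  have hWb : H < q * (W + 1) := by
    rw [hW]
    exact Nat.lt_mul_div_succ _ hq0'
  have hWa' : (q : ℝ) * W ≤ H := by exact_mod_cast hWa
  have hWb' : (H : ℝ) < q * (W + 1) := by exact_mod_cast hWb
  have hP5 : 2 * L ^ (A + 4) ≤ (P : ℝ) := by
    have h4 := hpow (A + 5) (by omega)
    have h5 : L ^ (A + 5) = L * L ^ (A + 4) := by ring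
    rw [h5] at h4
    nlinarith only [hL10', hLA4, h4]
  have hWge : (P : ℝ) ^ 4 ≤ W := by
    have h4 : (P : ℝ) * (P : ℝ) ^ 4 ≤ (H : ℝ) := by
      have e0 : (P : ℝ) * (P : ℝ) ^ 4 = (P : ℝ) ^ 5 := by ring
      rw [e0]
      exact hPH'
    have h5 : (P : ℝ) ^ 4 * (2 * q) < (2 * q) * ((W + 1) / 2) := by
      have h6 : (P : ℝ) ^ 4 * (2 * q) ≤ P ^ 4 * P := by
        refine mul_le_mul_of_nonneg_left ?_ (by positivity)
        linarith only [hq1, hP5]
      linarith only [hPH', hWb', h6]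
    have h6 : (P : ℝ) ^ 4 < (W + 1) / 2 := by
      rw [mul_comm] at h5
      exact lt_of_mul_lt_mul_left h5 (by positivity)
    have h7 : (1 : ℝ) ≤ (P : ℝ) ^ 4 := one_le_pow₀ (by linarith only [hLA4, hP5])
    linarith only [h6, h7]
  have hW1 : (1 : ℝ) ≤ W := le_trans (one_le_pow₀ (by linarith only [hLA4, hP5])) hWge
  have hW1' : 1 ≤ W := by exact_mod_cast hW1
  have hWleH : W ≤ H := le_trans (Nat.le_mul_of_pos_left W hq0') hWa
  have hWle : (W : ℝ) ≤ 2 * H / L ^ (A + 4) := by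
    rw [le_div_iff₀ (by positivity)]
    have h4 : L ^ (A + 4) / 2 * W ≤ H := by
      calc L ^ (A + 4) / 2 * W ≤ q * W := mul_le_mul_of_nonneg_right hq3 (by positivity)
        _ ≤ H := hWa'
    linarith only [h4]
  have hP4 : (P : ℝ) * P ≤ W := by
    refine le_trans ?_ hWge
    calc (P : ℝ) * P = P ^ 2 := by ring
      _ ≤ P ^ 4 := pow_le_pow_right₀ (by linarith only [hLA4, hP5]) (by norm_num)
  have hPb : (P : ℝ) * L ^ b1 ≤ W :=
    le_trans (mul_le_mul_of_nonneg_left (hpow b1 (by omega)) hP0.le) hP4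
  -- `w0`
  have hw0 : (P : ℝ) * (1 + ((R ^ 4 + 2 : ℕ) : ℝ)) ≤ W := by
    refine le_trans (mul_le_mul_of_nonneg_left ?_ hP0.le) hP4
    have h4 : (R : ℝ) ^ 4 ≤ L ^ (4 * B + 4) := by
      calc (R : ℝ) ^ 4 ≤ (L ^ (B + 1)) ^ 4 := pow_le_pow_left₀ (by positivity) hRle 4
        _ = L ^ (4 * B + 4) := by ring
    have h5 : 1 ≤ L ^ (4 * B + 4) := one_le_pow₀ hL1
    have h6 := hpow (4 * B + 5) (by omega)
    have h7 : L ^ (4 * B + 5) = L * L ^ (4 * B + 4) := by ring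
    rw [h7] at h6
    push_cast
    nlinarith only [hL10', hLA4, hP5, h4, h6, h5]
  have hw0W : R ^ 4 + 2 ≤ W := by
    have h4 : ((R ^ 4 + 2 : ℕ) : ℝ) ≤ W := by
      have h5 : (0 : ℝ) ≤ ((R ^ 4 + 2 : ℕ) : ℝ) := by positivity
      nlinarith only [hLA4, hP5, hw0, hP10]
    exact_mod_cast h4
  have hN4 : 8 * N ≤ N ^ 4 := by
    have h4 : 8 ≤ N ^ 3 := by
      calc 8 ≤ 64 ^ 3 := by norm_num
        _ ≤ N ^ 3 := Nat.pow_le_pow_left hN64 3
    calc 8 * N ≤ N ^ 3 * N := Nat.mul_le_mul_right N h4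
      _ = N ^ 4 := by ring
  have hSq := h2' R hRle K1 K2
  have hl1 : ∀ z, z < 5 * N → ∑ m ∈ Ico (z + 1) (z + 1 + W), |Fp (cut K1 K2 (hR R)) P m| ≤ 2 * W * L ^ 2 := by
    intro z hz
    have h4 := fp_l1 (cut K1 K2 (hR R)) P (R ^ 4 + 2) (N ^ 4) (z + 1) W L hL0.le (by omega) hSq (by omega)
    refine h4.trans ?_
    refine mul_le_mul_of_nonneg_right ?_ (by positivity)
    have h5 : (P : ℝ) * ((W : ℝ) / P + 1 + ((R ^ 4 + 2 : ℕ) : ℝ)) = W + P * (1 + ((R ^ 4 + 2 : ℕ) : ℝ)) := by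
      field_simp
      ring
    rw [h5]
    linarith only [hw0]
  -- the blocks
  have hblk : ∀ i ∈ Icc (N / (2 * H)) (4 * N / H), 1 ≤ i ∧ N ≤ 4 * (i * H) ∧ (i + 1) * H ≤ 5 * N := by
    intro i hi
    rw [Finset.mem_Icc] at hi
    have h4 : N < 2 * H * (N / (2 * H) + 1) := Nat.lt_mul_div_succ _ (by omega)
    have h5 : 2 * H * (N / (2 * H)) ≤ 2 * H * i := Nat.mul_le_mul_left _ hi.1
    have h6 : N < 2 * (i * H) + 2 * H := by nlinarith only [h4, h5]
    have h7 : H * (4 * N / H) ≤ 4 * N := Nat.mul_div_le _ _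
    have h8 : H * i ≤ H * (4 * N / H) := Nat.mul_le_mul_left _ hi.2
    have h9 : N ≤ 4 * (i * H) := by omega
    refine ⟨?_, h9, ?_⟩
    · by_contra hcon
      have : i = 0 := by omega
      rw [this] at h9
      omega
    · have h10 : (i + 1) * H = H * i + H := by ring
      omega
  have hcut : ∀ m : ℕ, N ≤ 4 * m → m ≤ 5 * N → Fp (cut K1 K2 (hR R)) P m = Fp (hR R) P m := by
    intro m hm1 hm2
    unfold Fp
    refine Finset.sum_congr rfl fun p hp => ?_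
    rw [Finset.mem_filter] at hp
    obtain ⟨hp, k, rfl⟩ := hp
    unfold pb at hp
    rw [Finset.mem_filter, Finset.mem_Ioc] at hp
    rw [Nat.mul_div_cancel_left _ hp.2.pos]
    unfold cut
    rw [if_pos]
    rw [Finset.mem_Ioc]
    constructor
    · by_contra hcon
      push Not at hcon
      have h4 : p * k ≤ 2 * P * K1 := Nat.mul_le_mul hp.1.2 hcon
      nlinarith only [hH64, hHN', hK1a, hm1, h4]
    · by_contra hcon
      push Not at hcon
      have h4 : P * (K2 + 1) ≤ p * k := Nat.mul_le_mul hp.1.1.le hcon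
      omega
  -- the pairs
  obtain ⟨Q0, hQ0⟩ : ∃ Q0, Q0 = ⌊L ^ B⌋₊ := ⟨_, rfl⟩
  have hQ0le : (Q0 : ℝ) ≤ L ^ B := by
    rw [hQ0]
    exact Nat.floor_le (by positivity)
  let S : ℕ × ℕ → Finset ℕ := fun ra => (Icc (N / (2 * H)) (4 * N / H)).filter (fun i => ∃ y1 y2 : ℕ, i * H ≤ y1 ∧
    y2 ≤ (i + 1) * H ∧ H / L ^ A < ‖∑ m ∈ Ico y1 y2, (Fp (hR R) P m : ℂ) * ee (-(m * ((ra.2 : ℝ) / ra.1)))‖)
  have hsub : badT (Fp (hR R) P) N H (L ^ B) (H / L ^ A) ⊆ (Icc 1 Q0 ×ˢ range Q0).biUnion S := by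
    intro i hi
    unfold badT at hi
    rw [Finset.mem_filter] at hi
    obtain ⟨hi, r, a, y1, y2, hr1, hr2, hy1, hy2, hM⟩ := hi
    have hrQ : r ≤ Q0 := by
      rw [hQ0]
      exact Nat.le_floor hr2
    rw [Finset.mem_biUnion]
    refine ⟨(r, a % r), ?_, ?_⟩
    · rw [Finset.mem_product, Finset.mem_Icc, Finset.mem_range]
      exact ⟨⟨hr1, hrQ⟩, lt_of_lt_of_le (Nat.mod_lt _ hr1) hrQ⟩
    · simp only [S]
      rw [Finset.mem_filter]
      refine ⟨hi, y1, y2, hy1, hy2, ?_⟩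
      simp_rw [← Typ2_mod _ a r hr1]
      exact hM
  have hcount : ∀ ra ∈ Icc 1 Q0 ×ˢ range Q0, ((S ra).card : ℝ) ≤ 4 * (N / H) * L ^ (2 * A) / L ^ (3 * A + 2 * B + 8) := by
    rintro ⟨r, a⟩ hra
    rw [Finset.mem_product, Finset.mem_Icc, Finset.mem_range] at hra
    obtain ⟨⟨hr1, hr2⟩, ha⟩ := hra
    simp only at hr1 hr2 ha
    have hr2' : (r : ℝ) ≤ L ^ B := le_trans (by exact_mod_cast hr2) hQ0le
    have h4 := h1' P K1 K2 X W r a (hpow b1 (by omega)) hP3N hr1 hr2' hK1c hK12 (by omega) hPK2X (by omega) hPb (by omega)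
    have h5 := Typ2_blk (fun z => ‖∑ m ∈ (Icc 1 X).filter (fun m => z < m ∧ m ≤ z + W),
      (Fp (cut K1 K2 (hR R)) P m : ℂ) * ee (-(m * ((a : ℝ) / r)))‖) (S (r, a)) H X (W * H / (2 * L ^ A))
      (by positivity) hH0' ?_
    · have h6 := h5.trans h4
      have e1 : ((W : ℝ) * H / (2 * L ^ A)) ^ 2 / H = W ^ 2 * (H / (4 * L ^ (2 * A))) := by
        rw [div_pow, mul_pow, mul_pow, ← pow_mul]
        field_simp
        ring
      have e2 : (W : ℝ) ^ 2 * N / L ^ (3 * A + 2 * B + 8) = W ^ 2 * (N / L ^ (3 * A + 2 * B + 8)) := by ring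
      rw [e1, e2, mul_left_comm] at h6
      have h7 := le_of_mul_le_mul_left h6 (by positivity)
      have h8 : 0 < (H : ℝ) / (4 * L ^ (2 * A)) := by positivity
      rw [← le_div_iff₀ h8] at h7
      refine h7.trans (le_of_eq ?_)
      field_simp
    · intro i hi
      simp only [S] at hi
      rw [Finset.mem_filter] at hi
      obtain ⟨hi, y1, y2, hy1, hy2, hM⟩ := hi
      obtain ⟨hi1, hi2, hi3⟩ := hblk i hi
      refine ⟨hi1, by omega, ?_⟩
      have h6 := Typ2_avg (fun m => (Fp (cut K1 K2 (hR R)) P m : ℂ) * ee (-(m * ((a : ℝ) / r)))) X W y1 y2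
        (i * H) ((i + 1) * H) (2 * W * L ^ 2) hW1' (by omega) (by omega) hy1 hy2 (by positivity) ?_
      · have h7 : ∑ m ∈ Ico y1 y2, (Fp (cut K1 K2 (hR R)) P m : ℂ) * ee (-(m * ((a : ℝ) / r))) =
            ∑ m ∈ Ico y1 y2, (Fp (hR R) P m : ℂ) * ee (-(m * ((a : ℝ) / r))) := by
          refine Finset.sum_congr rfl fun m hm => ?_
          rw [Finset.mem_Ico] at hm
          rw [hcut m (by omega) (by omega)]
        rw [h7] at h6
        have h8 : (W : ℝ) * (H / L ^ A) ≤ W * ‖∑ m ∈ Ico y1 y2, (Fp (hR R) P m : ℂ) * ee (-(m * ((a : ℝ) / r)))‖ :=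
          mul_le_mul_of_nonneg_left hM.le (by positivity)
        have h9 : 2 * (W : ℝ) * (2 * W * L ^ 2) ≤ W * H / (2 * L ^ A) := by
          have e3 : 2 * (W : ℝ) * (2 * W * L ^ 2) = W * (W * (4 * L ^ 2)) := by ring
          have e4 : (W : ℝ) * H / (2 * L ^ A) = W * (H / (2 * L ^ A)) := by ring
          rw [e3, e4]
          refine mul_le_mul_of_nonneg_left ?_ (by positivity)
          calc (W : ℝ) * (4 * L ^ 2) ≤ 2 * H / L ^ (A + 4) * (4 * L ^ 2) :=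
                mul_le_mul_of_nonneg_right hWle (by positivity)
            _ = H / (2 * L ^ A) * (16 / L ^ 2) := by
                rw [pow_add L A 4]
                field_simp
                ring
            _ ≤ H / (2 * L ^ A) * 1 := by
                refine mul_le_mul_of_nonneg_left ?_ (by positivity)
                rw [div_le_one (by positivity)]
                nlinarith only [hL10']
            _ = H / (2 * L ^ A) := mul_one _
        have e5 : (W : ℝ) * H / (2 * L ^ A) = W * (H / L ^ A) / 2 := by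
          field_simp
        rw [e5] at h9 ⊢
        linarith only [h6, h8, h9]
      · intro z hz
        refine le_trans (le_of_eq ?_) (hl1 z (by omega))
        refine Finset.sum_congr rfl fun m _ => ?_
        rw [norm_mul, Pool.Agent.H91.PK.LSa_norm_ee, mul_one, Complex.norm_real, Real.norm_eq_abs]
  have hfin : ((badT (Fp (hR R) P) N H (L ^ B) (H / L ^ A)).card : ℝ) ≤
      (Q0 : ℝ) * Q0 * (4 * (N / H) * L ^ (2 * A) / L ^ (3 * A + 2 * B + 8)) := by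
    have h4 : ((badT (Fp (hR R) P) N H (L ^ B) (H / L ^ A)).card : ℝ) ≤
        ∑ ra ∈ Icc 1 Q0 ×ˢ range Q0, ((S ra).card : ℝ) := by
      have h5 := (Finset.card_le_card hsub).trans Finset.card_biUnion_le
      exact_mod_cast h5
    refine h4.trans ((Finset.sum_le_sum hcount).trans (le_of_eq ?_))
    rw [Finset.sum_const, nsmul_eq_mul, Finset.card_product, Nat.card_Icc, Finset.card_range, Nat.add_sub_cancel]
    push_cast
    ring
  refine hfin.trans ?_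
  have h4 : (Q0 : ℝ) * Q0 ≤ L ^ (2 * B) := by
    calc (Q0 : ℝ) * Q0 ≤ L ^ B * L ^ B := mul_le_mul hQ0le hQ0le (by positivity) (by positivity)
      _ = L ^ (2 * B) := by ring
  refine (mul_le_mul_of_nonneg_right h4 (by positivity)).trans ?_
  have e1 : L ^ (2 * B) * (4 * ((N : ℝ) / H) * L ^ (2 * A) / L ^ (3 * A + 2 * B + 8)) =
      (N / H : ℝ) / L ^ A * (4 / L ^ 8) := by
    rw [div_mul_div_comm, mul_div_assoc', div_eq_div_iff (by positivity) (by positivity)]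
    ring
  rw [e1]
  have h5 : 4 / L ^ 8 ≤ 1 := by
    rw [div_le_one (by positivity)]
    calc (4 : ℝ) ≤ 10 ^ 8 := by norm_num
      _ ≤ L ^ 8 := pow_le_pow_left₀ (by norm_num) hL10' 8
  calc (N / H : ℝ) / L ^ A * (4 / L ^ 8) ≤ (N / H : ℝ) / L ^ A * 1 :=
        mul_le_mul_of_nonneg_left h5 (by positivity)
    _ = (N / H : ℝ) / L ^ A := mul_one _

end Pool.Agent.H53.MID

end
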