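import Pool.Agent.H43.PJ.H76.EHB.Basic
import Pool.Agent.H43.PJ.M08
import Pool.Agent.H43.PJ.M18
import Pool.Agent.H43.PJ.M30

/-! The parts of this file: H53.MID.Wts, H53.MID.MainS, H53.MID.GoldB, H53.MIX.GoldCX, H53.MID.OmW. -/

section

/-!
# MID Wts: weights and sizes

`w2_ge`: `p ≤ 2P`, `|pb P| ≥ P/(8 log P)`.  `w1_ge`: `∑_{j<J} 1/(16 log(2^j Q)) ≥ J/(16 log (2^J Q))`.
`w2_le`: `|pb P| ≤ P`, `p > P`.
`fp_lam_le`: if `p ≠ p'` in `pb P` divide `m` and `m/p`, `m/p'` are prime powers `q^j`, `q'^j'` then `m = p q^j = p' q'^j'`, `p' ∣ q^j` so `q = p'`, and `q' = p`; `p p'^j = p' p^j'` forces `j = j' = 1` and `m = p p' ≤ 4P^2`.  So for `m > 4P^2` at most one term is nonzero; `Lam k ≤ log k ≤ log m`.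
`f1_lam_le`: the primes of all `pb (2^j Q)`, `j < J`, that divide `m` are distinct, `> Q ≥ N^e1`; their product divides `m ≤ N^2`: at most `2/e1` of them; each term is `≤ log m`.
`f1_flat`: `Lam = hR R + lamR R`.
-/

set_option autoImplicit false

namespace Pool.Agent.H53.MID

open Finset
open Pool.Agent.H91.EHA (Lam hR lamR ramS)
open Pool.Agent.H35.W (pb)

private theorem Wts_mem_pb {P p : ℕ} : p ∈ pb P ↔ (P < p ∧ p ≤ 2 * P) ∧ p.Prime := by
  unfold pb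
  rw [Finset.mem_filter, Finset.mem_Ioc]

private theorem Wts_lam_nonneg (n : ℕ) : 0 ≤ Lam n := by
  unfold Lam
  exact ArithmeticFunction.vonMangoldt_nonneg

private theorem Wts_lam_le (n : ℕ) : Lam n ≤ Real.log n := by
  unfold Lam
  exact ArithmeticFunction.vonMangoldt_le_log

private theorem Wts_lam_div_le (m p : ℕ) (hm : 1 ≤ m) (hp : 1 ≤ p) (hpm : p ∣ m) :
    Lam (m / p) ≤ Real.log m := by
  refine (Wts_lam_le _).trans ?_
  apply Real.log_le_log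
  · exact_mod_cast Nat.div_pos (Nat.le_of_dvd hm hpm) hp
  · exact_mod_cast Nat.div_le_self m p

theorem w2_ge (hPB : PBp) : ∃ P0 : ℕ, 2 ≤ P0 ∧ ∀ P : ℕ, P0 ≤ P → 1 / (16 * Real.log P) ≤ W2 P := by
  obtain ⟨P0, h⟩ := hPB
  refine ⟨max P0 2, le_max_right _ _, fun P hP => ?_⟩
  have hP1 := h P (le_trans (le_max_left _ _) hP)
  have hP2 : 2 ≤ P := le_trans (le_max_right _ _) hP
  have hPr : (2 : ℝ) ≤ P := by exact_mod_cast hP2
  have hlog : 0 < Real.log P := Real.log_pos (by linarith)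
  have hPpos : (0 : ℝ) < P := by linarith
  unfold W2
  have h1 : ((pb P).card : ℝ) * (1 / (2 * P)) ≤ ∑ p ∈ pb P, 1 / (p : ℝ) := by
    rw [← nsmul_eq_mul, ← Finset.sum_const]
    apply Finset.sum_le_sum
    intro p hp
    obtain ⟨⟨h3, h4⟩, h5⟩ := Wts_mem_pb.1 hp
    apply one_div_le_one_div_of_le
    · exact_mod_cast h5.pos
    · exact_mod_cast h4
  refine le_trans ?_ h1
  refine le_trans ?_ (mul_le_mul_of_nonneg_right hP1 (by positivity))
  apply le_of_eq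
  field_simp
  norm_num

theorem w1_ge (hPB : PBp) : ∃ P0 : ℕ, 2 ≤ P0 ∧ ∀ Q J : ℕ, P0 ≤ Q → (J : ℝ) / (16 * Real.log (2 ^ J * Q)) ≤ W1 Q J := by
  obtain ⟨P0, h2, h⟩ := w2_ge hPB
  refine ⟨P0, h2, fun Q J hQ => ?_⟩
  unfold W1
  have hQ2 : 2 ≤ Q := h2.trans hQ
  have hQr : (2 : ℝ) ≤ Q := by exact_mod_cast hQ2
  have hsum : ∑ j ∈ range J, 1 / (16 * Real.log (2 ^ J * Q)) ≤ ∑ j ∈ range J, W2 (2 ^ j * Q) := by
    apply Finset.sum_le_sum
    intro j hj
    have hj' : j ≤ J := (Finset.mem_range.1 hj).le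
    have h3 : P0 ≤ 2 ^ j * Q := hQ.trans (Nat.le_mul_of_pos_left _ (by positivity))
    refine le_trans ?_ (h _ h3)
    have h1 : (1 : ℝ) < ((2 ^ j * Q : ℕ) : ℝ) := by
      have : 1 < 2 ^ j * Q := lt_of_lt_of_le (by omega) (Nat.le_mul_of_pos_left Q (by positivity : 0 < 2 ^ j))
      exact_mod_cast this
    have hl : 0 < Real.log ((2 ^ j * Q : ℕ) : ℝ) := Real.log_pos h1
    apply one_div_le_one_div_of_le (by positivity)
    apply mul_le_mul_of_nonneg_left _ (by norm_num)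
    apply Real.log_le_log (by linarith)
    push_cast
    have : (2 : ℝ) ^ j ≤ 2 ^ J := pow_le_pow_right₀ (by norm_num) hj'
    nlinarith
  refine le_trans (le_of_eq ?_) hsum
  rw [Finset.sum_const, Finset.card_range, nsmul_eq_mul, mul_one_div]

theorem fp_nonneg (P m : ℕ) : 0 ≤ Fp Lam P m := by
  unfold Fp
  exact Finset.sum_nonneg (fun p _ => Wts_lam_nonneg _)

theorem f1_nonneg (Q J m : ℕ) : 0 ≤ F1 Lam Q J m := by
  unfold F1
  exact Finset.sum_nonneg (fun j _ => fp_nonneg _ _)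

private theorem Wts_ppow {m p p' : ℕ} (hp : p.Prime) (hp' : p'.Prime) (hne : p ≠ p') (hpm : p ∣ m)
    (hpm' : p' ∣ m) (h : Lam (m / p) ≠ 0) : ∃ j, m = p * p' ^ (j + 1) := by
  unfold Lam at h
  rw [ArithmeticFunction.vonMangoldt_ne_zero_iff, isPrimePow_nat_iff] at h
  obtain ⟨q, k, hq, hk, hqk⟩ := h
  have hm : m = p * (m / p) := (Nat.mul_div_cancel' hpm).symm
  have h1 : p' ∣ m / p := by
    have h2 : p' ∣ p * (m / p) := by rw [← hm]; exact hpm'
    rcases (Nat.Prime.dvd_mul hp').1 h2 with h3 | h3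
    · exact absurd ((Nat.prime_dvd_prime_iff_eq hp' hp).1 h3).symm hne
    · exact h3
  rw [← hqk] at h1
  have h4 : p' = q := (Nat.prime_dvd_prime_iff_eq hp' hq).1 (hp'.dvd_of_dvd_pow h1)
  refine ⟨k - 1, ?_⟩
  rw [Nat.sub_add_cancel hk, h4, hqk]
  exact hm

private theorem Wts_two {P m p p' : ℕ} (hm : 4 * P ^ 2 < m) (hp : p ∈ pb P) (hp' : p' ∈ pb P) (hne : p ≠ p')
    (hpm : p ∣ m) (hpm' : p' ∣ m) (h : Lam (m / p) ≠ 0) (h' : Lam (m / p') ≠ 0) : False := by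
  obtain ⟨⟨h1, h2⟩, h3⟩ := Wts_mem_pb.1 hp
  obtain ⟨⟨h1', h2'⟩, h3'⟩ := Wts_mem_pb.1 hp'
  obtain ⟨j, hj⟩ := Wts_ppow h3 h3' hne hpm hpm' h
  obtain ⟨i, hi⟩ := Wts_ppow h3' h3 hne.symm hpm' hpm h'
  have hpp : 0 < p := h3.pos
  have hpp' : 0 < p' := h3'.pos
  have he : p' ^ j = p ^ i := by
    have : p * p' ^ (j + 1) = p' * p ^ (i + 1) := by rw [← hj, ← hi]
    have h4 : (p * p') * p' ^ j = (p * p') * p ^ i := by
      calc (p * p') * p' ^ j = p * p' ^ (j + 1) := by ring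
        _ = p' * p ^ (i + 1) := this
        _ = (p * p') * p ^ i := by ring
    exact Nat.eq_of_mul_eq_mul_left (Nat.mul_pos hpp hpp') h4
  have hj0 : j = 0 := by
    by_contra hj0
    have h5 : p' ∣ p ^ i := by
      rw [← he]
      exact dvd_pow_self _ hj0
    exact hne ((Nat.prime_dvd_prime_iff_eq h3' h3).1 (h3'.dvd_of_dvd_pow h5)).symm
  rw [hj0] at hj
  have : m ≤ 4 * P ^ 2 := by
    rw [hj]
    calc p * p' ^ (0 + 1) = p * p' := by ring
      _ ≤ (2 * P) * (2 * P) := Nat.mul_le_mul h2 h2'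
      _ = 4 * P ^ 2 := by ring
  omega

theorem fp_lam_le (P m : ℕ) (hm : 4 * P ^ 2 < m) : Fp Lam P m ≤ Real.log m := by
  have hm1 : 1 ≤ m := by omega
  have hlog : 0 ≤ Real.log m := Real.log_natCast_nonneg m
  unfold Fp
  by_cases hz : ∃ p ∈ (pb P).filter (fun p => p ∣ m), Lam (m / p) ≠ 0
  · obtain ⟨p, hp, hne⟩ := hz
    obtain ⟨hp1, hp2⟩ := Finset.mem_filter.1 hp
    rw [Finset.sum_eq_single p]
    · exact Wts_lam_div_le m p hm1 (Wts_mem_pb.1 hp1).2.pos hp2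
    · intro p' hp' hpp'
      by_contra hne'
      obtain ⟨hp1', hp2'⟩ := Finset.mem_filter.1 hp'
      exact Wts_two hm hp1' hp1 hpp' hp2' hp2 hne' hne
    · intro h
      exact absurd hp h
  · push Not at hz
    rw [Finset.sum_eq_zero hz]
    exact hlog

theorem fp_split (R P m : ℕ) : Fp Lam P m = Fp (hR R) P m + Fp (lamR R) P m := by
  unfold Fp
  rw [← Finset.sum_add_distrib]
  apply Finset.sum_congr rfl
  intro p _
  unfold hR
  ring

end Pool.Agent.H53.MID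

end

section

/-!
# MID MainS: the main term

Proof.  `∑_{m ∈ Ico y1 y2} lamR R (2n - m) Fp (lamR R2) P m = ∑_{p ∈ pb P} ∑_{k : y1 ≤ p k < y2} lamR R (2n - p k) lamR R2 k`.
`lamR R (2n - pk) = ∑_{r ≤ R} μ(r)/φ(r) ∑_{b ∈ red r} ee((2n - pk) b/r)` (`Pool.Agent.H76.EHB.lamR_eq`, `2n - pk ≥ 1`), `lamR R2 k = ∑_{s ≤ R2} μ(s)/φ(s) ∑_{c ∈ red s} ee(k c/s)` (`k ≥ 1`).
The sum over `k` (an interval with `K_p` elements, `|K_p - (y2-y1)/p| ≤ 1`) of `ee(k (c/s - p b/r))`: if `c/s - p b/r` is an integer then (`p > R2 ≥ r`, `gcd(p b, r) = 1`, lowest terms) `s = r` and `c ≡ p b (mod r)`, one `c` for every `b`; the value is `K_p`, and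
`∑_{r ≤ R} μ(r)^2/φ(r)^2 ∑_{b ∈ red r} ee(2n b/r) K_p = SR R (2n) K_p` (`∑_{b ∈ red r} ee(2n b/r) = ramS r (2n)`, see the proof of `lamR_eq`).
Otherwise `nz(c/s - pb/r) ≥ 1/(r s)` and the geometric sum is `≤ 1/(2 nz) ≤ r s/2`; in total `≤ ∑_{r ≤ R, s ≤ R2} r s/2 ≤ R2^4/2`.
`|SR R (2n)| ≤ R`.  So the error for each `p` is `≤ R2^4/2 + R ≤ 2 R2^4`; `|pb P| ≤ P`.
-/

set_option autoImplicit false

namespace Pool.Agent.H53.MID

open Finset
open Pool.Agent.H91.PK (ee)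
open Pool.Agent.H91.EHA (Lam hR lamR ramS)
open Pool.Agent.H35.W (pb)
open Pool.Agent.H76.GB (SR)

private theorem ms_ee (t : ℝ) : ee t = Pool.Agent.H92.EH.e t := by
  unfold Pool.Agent.H91.PK.ee Pool.Agent.H92.EH.e
  congr 1
  push_cast
  ring

private theorem ms_ram (c n : ℕ) (hc : 1 ≤ c) (_hn : 1 ≤ n) :
    ((ramS c n : ℝ) : ℂ) = ∑ b ∈ Pool.Agent.H92.EH.red c, ee (n * ((b : ℝ) / c)) := by
  have h1 : ∑ b ∈ Pool.Agent.H92.EH.red c, ee (n * ((b : ℝ) / c)) = Pool.Agent.H92.EH.ram c (n : ℤ) := by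
    unfold Pool.Agent.H92.EH.ram
    refine sum_congr rfl fun b _ => ?_
    rw [ms_ee]
    congr 1
  rw [h1, Pool.Agent.H92.EH.ram_eq c hc (n : ℤ),
    Nat.sum_divisorsAntidiagonal' (f := fun a b : ℕ =>
      ((ArithmeticFunction.moebius a : ℤ) : ℂ) * (if ((b : ℕ) : ℤ) ∣ (n : ℤ) then (b : ℂ) else 0))]
  have h2 : (Nat.gcd c n).divisors = c.divisors.filter (fun d => d ∣ n) := by
    ext d
    simp only [Nat.mem_divisors, mem_filter, Nat.dvd_gcd_iff]
    constructor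
    · rintro ⟨⟨a, b⟩, _⟩
      exact ⟨⟨a, by omega⟩, b⟩
    · rintro ⟨⟨a, _⟩, b⟩
      exact ⟨⟨a, b⟩, (Nat.gcd_pos_of_pos_left n hc).ne'⟩
  unfold ramS
  rw [h2, sum_filter]
  push_cast
  refine sum_congr rfl fun d _ => ?_
  by_cases hd : d ∣ n
  · rw [if_pos hd, if_pos (by exact_mod_cast hd)]
    push_cast
    ring
  · rw [if_neg hd, if_neg (by exact_mod_cast hd)]
    simp

private theorem ms_geom (A B : ℕ) (θ δ : ℝ) (hδ : 0 < δ) (h : ∀ m : ℤ, δ ≤ |θ - m|) :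
    ‖∑ k ∈ Ico A B, ee (k * θ)‖ ≤ 1 / (2 * δ) := by
  set z := Pool.Agent.H92.EH.e θ with hz
  have h4 : 4 * δ ≤ ‖z - 1‖ := Pool.Agent.H92.EH.le_norm_e_sub_one h
  have hz1 : z ≠ 1 := by
    intro h0
    rw [h0, sub_self, norm_zero] at h4
    linarith
  have hzn : ‖z‖ = 1 := Pool.Agent.H92.EH.norm_e θ
  have h5 : ∑ k ∈ Ico A B, ee (k * θ) = ∑ k ∈ Ico A B, z ^ k := by
    refine sum_congr rfl fun k _ => ?_
    rw [ms_ee, Pool.Agent.H92.EH.e_nat_mul]
  rw [h5]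
  rcases le_or_gt A B with hAB | hAB
  · rw [geom_sum_Ico hz1 hAB, norm_div]
    have h6 : ‖z ^ B - z ^ A‖ ≤ 2 := by
      calc ‖z ^ B - z ^ A‖ ≤ ‖z ^ B‖ + ‖z ^ A‖ := norm_sub_le _ _
        _ = 2 := by rw [norm_pow, norm_pow, hzn]; norm_num
    calc ‖z ^ B - z ^ A‖ / ‖z - 1‖ ≤ 2 / (4 * δ) := by
          apply div_le_div₀ (by norm_num) h6 (by positivity) h4
      _ = 1 / (2 * δ) := by
          field_simp
          norm_num
  · rw [Finset.Ico_eq_empty (by omega)]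
    simp
    positivity

private theorem ms_prime (p R R2 n A B : ℕ) (hRR : R ≤ R2) (hp : p.Prime) (hpR : R2 < p)
    (hn : 1 ≤ n) (hA : 1 ≤ A) (hAB : A ≤ B) (hB : ∀ k ∈ Ico A B, p * k < 2 * n) :
    |∑ k ∈ Ico A B, lamR R (2 * n - p * k) * lamR R2 k - SR R (2 * n) * ((B : ℝ) - A)|
      ≤ (R2 : ℝ) ^ 4 / 2 := by
  classical
  set μ : ℕ → ℂ := fun r => ((((ArithmeticFunction.moebius r : ℤ) : ℝ) / (r.totient : ℝ) : ℝ) : ℂ) with hμ
  have hμn : ∀ r : ℕ, 1 ≤ r → ‖μ r‖ ≤ 1 / r.totient := by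
    intro r hr
    have hφ : (0 : ℝ) < r.totient := by exact_mod_cast Nat.totient_pos.mpr hr
    simp only [hμ]
    rw [Complex.norm_real, Real.norm_eq_abs, abs_div, abs_of_pos hφ]
    have h1 : |((ArithmeticFunction.moebius r : ℤ) : ℝ)| ≤ 1 := by
      have := ArithmeticFunction.abs_moebius_le_one (n := r)
      exact_mod_cast this
    exact div_le_div_of_nonneg_right h1 hφ.le
  -- pointwise
  have hpt : ∀ k ∈ Ico A B, ((lamR R (2 * n - p * k) * lamR R2 k : ℝ) : ℂ)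
      = ∑ r ∈ Icc 1 R, ∑ s ∈ Icc 1 R2, μ r * μ s * ∑ b ∈ Pool.Agent.H92.EH.red r,
          ∑ c ∈ Pool.Agent.H92.EH.red s, ee (2 * n * ((b : ℝ) / r)) *
            ee (k * ((c : ℝ) / s - (((p * b) % r : ℕ) : ℝ) / r)) := by
    intro k hk
    have hk2 := hB k hk
    rw [mem_Ico] at hk
    rw [Complex.ofReal_mul, Pool.Agent.H76.EHB.lamR_eq R _ (by omega),
      Pool.Agent.H76.EHB.lamR_eq R2 k (by omega), sum_mul_sum]
    refine sum_congr rfl fun r hr => sum_congr rfl fun s hs => ?_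
    rw [mem_Icc] at hr hs
    rw [mul_mul_mul_comm]
    congr 1
    rw [sum_mul_sum]
    refine sum_congr rfl fun b hb => sum_congr rfl fun c hc => ?_
    rw [← Pool.Agent.H91.PK.LSa_ee_add, ← Pool.Agent.H91.PK.LSa_ee_add]
    have hr0 : (r : ℝ) ≠ 0 := by
      have : (0 : ℝ) < r := by exact_mod_cast hr.1
      exact this.ne'
    have hs0 : (s : ℝ) ≠ 0 := by
      have : (0 : ℝ) < s := by exact_mod_cast hs.1
      exact this.ne'
    obtain ⟨q, hq⟩ : ∃ q : ℕ, (p * b) / r = q := ⟨_, rfl⟩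
    have h1 : ((p * b : ℕ) : ℝ) = (r : ℝ) * (q : ℝ) + (((p * b) % r : ℕ) : ℝ) := by
      rw [← hq]
      exact_mod_cast (Nat.div_add_mod (p * b) r).symm
    have h2 : ((2 * n - p * k : ℕ) : ℝ) = 2 * n - p * k := by
      rw [Nat.cast_sub (by omega)]
      push_cast
      ring
    have h3 : 2 * (n : ℝ) * ((b : ℝ) / r) + k * ((c : ℝ) / s - (((p * b) % r : ℕ) : ℝ) / r)
        = (((2 * n - p * k : ℕ) : ℝ) * ((b : ℝ) / r) + k * ((c : ℝ) / s))
          + ((k * q : ℕ) : ℤ) := by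
      rw [h2]
      push_cast at h1 ⊢
      field_simp
      linear_combination (k : ℝ) * s * h1
    rw [h3, Pool.Agent.H76.EHB.ee_add_int]
  have hsum : ((∑ k ∈ Ico A B, lamR R (2 * n - p * k) * lamR R2 k : ℝ) : ℂ)
      = ∑ r ∈ Icc 1 R, ∑ s ∈ Icc 1 R2, μ r * μ s * ∑ b ∈ Pool.Agent.H92.EH.red r,
          ∑ c ∈ Pool.Agent.H92.EH.red s, ee (2 * n * ((b : ℝ) / r)) *
          ∑ k ∈ Ico A B, ee (k * ((c : ℝ) / s - (((p * b) % r : ℕ) : ℝ) / r)) := by
    rw [Complex.ofReal_sum, sum_congr rfl hpt, sum_comm]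
    refine sum_congr rfl fun r _ => ?_
    rw [sum_comm]
    refine sum_congr rfl fun s _ => ?_
    rw [← mul_sum, sum_comm]
    congr 1
    refine sum_congr rfl fun b _ => ?_
    rw [sum_comm]
    refine sum_congr rfl fun c _ => ?_
    rw [mul_sum]
  have hmem : ∀ r b : ℕ, 1 ≤ r → r ≤ R2 → b ∈ Pool.Agent.H92.EH.red r →
      (p * b) % r ∈ Pool.Agent.H92.EH.red r := by
    intro r b hr hr2 hb
    rw [Pool.Agent.H92.EH.mem_red] at hb ⊢
    refine ⟨Nat.mod_lt _ (by omega), ?_⟩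
    have h1 : Nat.Coprime p r := by
      rw [hp.coprime_iff_not_dvd]
      intro h
      have := Nat.le_of_dvd (by omega) h
      omega
    have h2 : Nat.Coprime (p * b) r := Nat.Coprime.mul_left h1 hb.2
    unfold Nat.Coprime
    rw [← Nat.gcd_rec, Nat.gcd_comm]
    exact h2
  have hmain : ((SR R (2 * n) * ((B : ℝ) - A) : ℝ) : ℂ)
      = ∑ r ∈ Icc 1 R, ∑ s ∈ Icc 1 R2, μ r * μ s * ∑ b ∈ Pool.Agent.H92.EH.red r,
          ∑ c ∈ Pool.Agent.H92.EH.red s, ee (2 * n * ((b : ℝ) / r)) *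
          (if s = r ∧ c = (p * b) % r then ((B : ℂ) - A) else 0) := by
    unfold Pool.Agent.H76.GB.SR
    rw [sum_mul, Complex.ofReal_sum]
    refine sum_congr rfl fun r hr => ?_
    rw [mem_Icc] at hr
    rw [sum_eq_single r]
    · have h1 : ∀ b ∈ Pool.Agent.H92.EH.red r, ∑ c ∈ Pool.Agent.H92.EH.red r,
          ee (2 * n * ((b : ℝ) / r)) * (if r = r ∧ c = (p * b) % r then ((B : ℂ) - A) else 0)
          = ee (2 * n * ((b : ℝ) / r)) * ((B : ℂ) - A) := by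
        intro b hb
        rw [sum_eq_single ((p * b) % r)]
        · rw [if_pos ⟨rfl, rfl⟩]
        · intro c _ hc
          rw [if_neg (fun h => hc h.2), mul_zero]
        · intro h
          exact absurd (hmem r b hr.1 (hr.2.trans hRR) hb) h
      rw [sum_congr rfl h1, ← sum_mul]
      have h2 : ((ramS r (2 * n) : ℝ) : ℂ) = ∑ b ∈ Pool.Agent.H92.EH.red r, ee (2 * n * ((b : ℝ) / r)) := by
        rw [ms_ram r (2 * n) hr.1 (by omega)]
        refine sum_congr rfl fun b _ => ?_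
        congr 1
        push_cast
        ring
      rw [← h2]
      simp only [hμ]
      push_cast
      ring
    · intro s _ hs
      have : ∑ b ∈ Pool.Agent.H92.EH.red r, ∑ c ∈ Pool.Agent.H92.EH.red s,
          ee (2 * n * ((b : ℝ) / r)) * (if s = r ∧ c = (p * b) % r then ((B : ℂ) - A) else 0) = 0 := by
        refine sum_eq_zero fun b _ => sum_eq_zero fun c _ => ?_
        rw [if_neg (fun h => hs h.1), mul_zero]
      rw [this, mul_zero]
    · intro h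
      exact absurd (mem_Icc.2 ⟨hr.1, hr.2.trans hRR⟩) h
  have hdiff : ((∑ k ∈ Ico A B, lamR R (2 * n - p * k) * lamR R2 k : ℝ) : ℂ)
        - ((SR R (2 * n) * ((B : ℝ) - A) : ℝ) : ℂ)
      = ∑ r ∈ Icc 1 R, ∑ s ∈ Icc 1 R2, μ r * μ s * ∑ b ∈ Pool.Agent.H92.EH.red r,
          ∑ c ∈ Pool.Agent.H92.EH.red s, ee (2 * n * ((b : ℝ) / r)) *
          ((∑ k ∈ Ico A B, ee (k * ((c : ℝ) / s - (((p * b) % r : ℕ) : ℝ) / r)))
            - (if s = r ∧ c = (p * b) % r then ((B : ℂ) - A) else 0)) := by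
    rw [hsum, hmain, ← sum_sub_distrib]
    refine sum_congr rfl fun r _ => ?_
    rw [← sum_sub_distrib]
    refine sum_congr rfl fun s _ => ?_
    rw [← mul_sub, ← sum_sub_distrib]
    congr 1
    refine sum_congr rfl fun b _ => ?_
    rw [← sum_sub_distrib]
    refine sum_congr rfl fun c _ => ?_
    rw [mul_sub]
  have hterm : ∀ r ∈ Icc 1 R, ∀ s ∈ Icc 1 R2, ∀ b ∈ Pool.Agent.H92.EH.red r,
      ∀ c ∈ Pool.Agent.H92.EH.red s,
      ‖ee (2 * n * ((b : ℝ) / r)) *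
          ((∑ k ∈ Ico A B, ee (k * ((c : ℝ) / s - (((p * b) % r : ℕ) : ℝ) / r)))
            - (if s = r ∧ c = (p * b) % r then ((B : ℂ) - A) else 0))‖ ≤ (r : ℝ) * s / 2 := by
    intro r hr s hs b hb c hc
    rw [mem_Icc] at hr hs
    have hr0 : (0 : ℝ) < r := by exact_mod_cast hr.1
    have hs0 : (0 : ℝ) < s := by exact_mod_cast hs.1
    rw [norm_mul, Pool.Agent.H91.PK.LSa_norm_ee, one_mul]
    by_cases h : s = r ∧ c = (p * b) % r
    · rw [if_pos h]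
      have h1 : (c : ℝ) / s - (((p * b) % r : ℕ) : ℝ) / r = 0 := by
        rw [h.1, ← h.2, sub_self]
      have h2 : ∑ k ∈ Ico A B, ee (k * ((c : ℝ) / s - (((p * b) % r : ℕ) : ℝ) / r)) = ((B : ℂ) - A) := by
        rw [h1]
        have h3 : ∀ k ∈ Ico A B, ee ((k : ℝ) * 0) = 1 := by
          intro k _
          rw [mul_zero, ms_ee, Pool.Agent.H92.EH.e_zero]
        rw [sum_congr rfl h3, sum_const, Nat.card_Ico, nsmul_eq_mul, mul_one, Nat.cast_sub hAB]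
      rw [h2, sub_self, norm_zero]
      positivity
    · rw [if_neg h, sub_zero]
      have h1 := ms_geom A B ((c : ℝ) / s - (((p * b) % r : ℕ) : ℝ) / r) (1 / ((s : ℝ) * r)) (by positivity)
        (fun m => Pool.Agent.H92.EH.farey_spacing hs.1 hr.1 hc (hmem r b hr.1 (hr.2.trans hRR) hb) h m)
      refine h1.trans (le_of_eq ?_)
      field_simp
  have hfin : |∑ k ∈ Ico A B, lamR R (2 * n - p * k) * lamR R2 k - SR R (2 * n) * ((B : ℝ) - A)|
      ≤ ∑ r ∈ Icc 1 R, ∑ s ∈ Icc 1 R2, (r : ℝ) * s / 2 := by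
    have h0 : |∑ k ∈ Ico A B, lamR R (2 * n - p * k) * lamR R2 k - SR R (2 * n) * ((B : ℝ) - A)|
        = ‖((∑ k ∈ Ico A B, lamR R (2 * n - p * k) * lamR R2 k : ℝ) : ℂ)
        - ((SR R (2 * n) * ((B : ℝ) - A) : ℝ) : ℂ)‖ := by
      rw [← Complex.ofReal_sub, Complex.norm_real, Real.norm_eq_abs]
    rw [h0, hdiff]
    refine (norm_sum_le _ _).trans (sum_le_sum fun r hr => ?_)
    refine (norm_sum_le _ _).trans (sum_le_sum fun s hs => ?_)
    have hr' := mem_Icc.1 hr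
    have hs' := mem_Icc.1 hs
    have hφr : (0 : ℝ) < r.totient := by exact_mod_cast Nat.totient_pos.mpr hr'.1
    have hφs : (0 : ℝ) < s.totient := by exact_mod_cast Nat.totient_pos.mpr hs'.1
    rw [norm_mul, norm_mul]
    have h1 : ‖∑ b ∈ Pool.Agent.H92.EH.red r, ∑ c ∈ Pool.Agent.H92.EH.red s, ee (2 * n * ((b : ℝ) / r)) *
          ((∑ k ∈ Ico A B, ee (k * ((c : ℝ) / s - (((p * b) % r : ℕ) : ℝ) / r)))
            - (if s = r ∧ c = (p * b) % r then ((B : ℂ) - A) else 0))‖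
        ≤ r.totient * (s.totient * ((r : ℝ) * s / 2)) := by
      refine (norm_sum_le _ _).trans ?_
      have h2 : ∀ b ∈ Pool.Agent.H92.EH.red r, ‖∑ c ∈ Pool.Agent.H92.EH.red s,
          ee (2 * n * ((b : ℝ) / r)) *
          ((∑ k ∈ Ico A B, ee (k * ((c : ℝ) / s - (((p * b) % r : ℕ) : ℝ) / r)))
            - (if s = r ∧ c = (p * b) % r then ((B : ℂ) - A) else 0))‖
          ≤ s.totient * ((r : ℝ) * s / 2) := by
        intro b hb
        refine (norm_sum_le _ _).trans ((sum_le_sum fun c hc => hterm r hr s hs b hb c hc).trans ?_)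
        rw [sum_const, Pool.Agent.H92.EH.card_red, nsmul_eq_mul]
      refine (sum_le_sum h2).trans ?_
      rw [sum_const, Pool.Agent.H92.EH.card_red, nsmul_eq_mul]
    calc ‖μ r‖ * ‖μ s‖ * _ ≤ (1 / r.totient) * (1 / s.totient) *
          (r.totient * (s.totient * ((r : ℝ) * s / 2))) := by
          apply mul_le_mul _ h1 (norm_nonneg _) (by positivity)
          exact mul_le_mul (hμn r hr'.1) (hμn s hs'.1) (norm_nonneg _) (by positivity)
      _ = (r : ℝ) * s / 2 := by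
          field_simp
  refine hfin.trans ?_
  have h1 : ∑ r ∈ Icc 1 R, ∑ s ∈ Icc 1 R2, (r : ℝ) * s / 2
      ≤ ∑ _r ∈ Icc 1 R, ∑ _s ∈ Icc 1 R2, (R2 : ℝ) * R2 / 2 := by
    refine sum_le_sum fun r hr => sum_le_sum fun s hs => ?_
    rw [mem_Icc] at hr hs
    have hr0 : (r : ℝ) ≤ R2 := by exact_mod_cast hr.2.trans hRR
    have hs0 : (s : ℝ) ≤ R2 := by exact_mod_cast hs.2
    have : (r : ℝ) * s ≤ R2 * R2 := mul_le_mul hr0 hs0 (by positivity) (by positivity)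
    linarith
  refine h1.trans ?_
  rw [sum_const, sum_const, Nat.card_Icc, Nat.card_Icc, nsmul_eq_mul, nsmul_eq_mul]
  have h2 : ((R + 1 - 1 : ℕ) : ℝ) ≤ R2 := by
    have : R + 1 - 1 ≤ R2 := by omega
    exact_mod_cast this
  have h3 : ((R2 + 1 - 1 : ℕ) : ℝ) = R2 := by simp
  rw [h3]
  have h4 : (0 : ℝ) ≤ (R2 : ℝ) * (R2 * R2 / 2) := by positivity
  calc ((R + 1 - 1 : ℕ) : ℝ) * ((R2 : ℝ) * (R2 * R2 / 2)) ≤ R2 * ((R2 : ℝ) * (R2 * R2 / 2)) :=
        mul_le_mul_of_nonneg_right h2 h4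
    _ = (R2 : ℝ) ^ 4 / 2 := by ring

private theorem ms_SR (R E : ℕ) (hE : 1 ≤ E) : |SR R E| ≤ R := by
  unfold Pool.Agent.H76.GB.SR
  have h1 : ∀ r ∈ Icc 1 R, |(ArithmeticFunction.moebius r : ℝ) ^ 2 * ramS r E / (r.totient : ℝ) ^ 2| ≤ 1 := by
    intro r hr
    rw [mem_Icc] at hr
    have hφn : 1 ≤ r.totient := Nat.totient_pos.mpr hr.1
    have hφ1 : (1 : ℝ) ≤ r.totient := by exact_mod_cast hφn
    have hφ : (0 : ℝ) < r.totient := by linarith
    have h2 : |ramS r E| ≤ r.totient := by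
      have h3 : |ramS r E| = ‖((ramS r E : ℝ) : ℂ)‖ := by
        rw [Complex.norm_real, Real.norm_eq_abs]
      rw [h3, ms_ram r E hr.1 hE]
      refine (norm_sum_le _ _).trans ?_
      have h4 : ∀ b ∈ Pool.Agent.H92.EH.red r, ‖ee ((E : ℝ) * ((b : ℝ) / r))‖ ≤ 1 :=
        fun b _ => (Pool.Agent.H91.PK.LSa_norm_ee _).le
      refine (sum_le_sum h4).trans ?_
      rw [sum_const, Pool.Agent.H92.EH.card_red, nsmul_eq_mul, mul_one]
    have h5 : |((ArithmeticFunction.moebius r : ℤ) : ℝ)| ≤ 1 := by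
      have := ArithmeticFunction.abs_moebius_le_one (n := r)
      exact_mod_cast this
    have h6 : |((ArithmeticFunction.moebius r : ℤ) : ℝ) ^ 2| ≤ 1 := by
      rw [abs_pow]
      exact pow_le_one₀ (abs_nonneg _) h5
    rw [abs_div, abs_mul, abs_of_pos (by positivity : (0 : ℝ) < (r.totient : ℝ) ^ 2),
      div_le_one (by positivity)]
    calc |((ArithmeticFunction.moebius r : ℤ) : ℝ) ^ 2| * |ramS r E| ≤ 1 * r.totient :=
          mul_le_mul h6 h2 (abs_nonneg _) (by norm_num)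
      _ ≤ (r.totient : ℝ) ^ 2 := by nlinarith
  refine (abs_sum_le_sum_abs _ _).trans ((sum_le_sum h1).trans ?_)
  rw [sum_const, Nat.card_Icc, nsmul_eq_mul, mul_one]
  simp

private theorem ms_ceil (y p k : ℕ) (hp : 0 < p) : (y + (p - 1)) / p ≤ k ↔ y ≤ p * k := by
  rw [Nat.div_le_iff_le_mul_add_pred hp]
  omega

private theorem ms_reindex (f : ℕ → ℕ → ℝ) (p y1 y2 : ℕ) (hp : 0 < p) :
    ∑ m ∈ (Ico y1 y2).filter (fun m => p ∣ m), f m (m / p)
      = ∑ k ∈ Ico ((y1 + (p - 1)) / p) ((y2 + (p - 1)) / p), f (p * k) k := by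
  refine sum_nbij' (fun m => m / p) (fun k => p * k) ?_ ?_ ?_ ?_ ?_
  · intro m hm
    rw [mem_filter, mem_Ico] at hm
    obtain ⟨⟨h1, h2⟩, k, rfl⟩ := hm
    rw [Nat.mul_div_cancel_left k hp, mem_Ico]
    refine ⟨(ms_ceil y1 p k hp).2 h1, ?_⟩
    by_contra h
    have := (ms_ceil y2 p k hp).1 (not_lt.1 h)
    omega
  · intro k hk
    rw [mem_Ico] at hk
    rw [mem_filter, mem_Ico]
    refine ⟨⟨(ms_ceil y1 p k hp).1 hk.1, ?_⟩, ⟨k, rfl⟩⟩
    by_contra h
    have := (ms_ceil y2 p k hp).2 (not_lt.1 h)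
    omega
  · intro m hm
    rw [mem_filter] at hm
    exact Nat.mul_div_cancel' hm.2
  · intro k _
    exact Nat.mul_div_cancel_left k hp
  · intro m hm
    rw [mem_filter] at hm
    rw [Nat.mul_div_cancel' hm.2]

theorem main_s (P R R2 y1 y2 n : ℕ) (hR : 1 ≤ R) (hRR : R ≤ R2) (hP : R2 < P) (hy : 1 ≤ y1) (hy2 : y1 ≤ y2)
    (hn : y2 ≤ 2 * n) :
    |∑ m ∈ Ico y1 y2, lamR R (2 * n - m) * Fp (lamR R2) P m - SR R (2 * n) * ((y2 : ℝ) - y1) * W2 P|
      ≤ 4 * P * (R2 : ℝ) ^ 4 := by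
  have hn1 : 1 ≤ n := by omega
  have h1 : ∑ m ∈ Ico y1 y2, lamR R (2 * n - m) * Fp (lamR R2) P m
      = ∑ p ∈ pb P, ∑ k ∈ Ico ((y1 + (p - 1)) / p) ((y2 + (p - 1)) / p),
          lamR R (2 * n - p * k) * lamR R2 k := by
    have h2 : ∀ m ∈ Ico y1 y2, lamR R (2 * n - m) * Fp (lamR R2) P m
        = ∑ p ∈ pb P, if p ∣ m then lamR R (2 * n - m) * lamR R2 (m / p) else 0 := by
      intro m _
      unfold Fp
      rw [mul_sum, sum_filter]
    rw [sum_congr rfl h2, sum_comm]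
    refine sum_congr rfl fun p hp => ?_
    have hp0 : 0 < p := by
      unfold Pool.Agent.H35.W.pb at hp
      rw [mem_filter] at hp
      exact hp.2.pos
    rw [← sum_filter]
    exact ms_reindex (fun m k => lamR R (2 * n - m) * lamR R2 k) p y1 y2 hp0
  have h3 : SR R (2 * n) * ((y2 : ℝ) - y1) * W2 P
      = ∑ p ∈ pb P, SR R (2 * n) * (((y2 : ℝ) - y1) / p) := by
    unfold W2
    rw [mul_sum]
    refine sum_congr rfl fun p _ => ?_
    ring
  rw [h1, h3, ← sum_sub_distrib]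
  have hR2 : (1 : ℝ) ≤ R2 := by exact_mod_cast hR.trans hRR
  have hRR' : (R : ℝ) ≤ R2 := by exact_mod_cast hRR
  have hR4 : (R2 : ℝ) ≤ (R2 : ℝ) ^ 4 := by
    calc (R2 : ℝ) = (R2 : ℝ) ^ 1 := (pow_one _).symm
      _ ≤ (R2 : ℝ) ^ 4 := pow_le_pow_right₀ hR2 (by norm_num)
  have hper : ∀ p ∈ pb P, |∑ k ∈ Ico ((y1 + (p - 1)) / p) ((y2 + (p - 1)) / p),
      lamR R (2 * n - p * k) * lamR R2 k - SR R (2 * n) * (((y2 : ℝ) - y1) / p)| ≤ 4 * (R2 : ℝ) ^ 4 := by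
    intro p hp
    unfold Pool.Agent.H35.W.pb at hp
    rw [mem_filter, mem_Ioc] at hp
    have hpp := hp.2
    have hp0 : 0 < p := hpp.pos
    have hpR : (0 : ℝ) < p := by exact_mod_cast hp0
    set A := (y1 + (p - 1)) / p with hA
    set B := (y2 + (p - 1)) / p with hB
    have hAB : A ≤ B := Nat.div_le_div_right (by omega)
    have hA1 : 1 ≤ A := by
      rw [hA, Nat.le_div_iff_mul_le hp0]
      omega
    have hlt : ∀ k ∈ Ico A B, p * k < 2 * n := by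
      intro k hk
      rw [mem_Ico] at hk
      have h5 : ¬ B ≤ k := not_le.2 hk.2
      rw [hB, ms_ceil y2 p k hp0] at h5
      omega
    have h6 := ms_prime p R R2 n A B hRR hpp (by omega) hn1 hA1 hAB hlt
    have hAl : y1 ≤ p * A := (ms_ceil y1 p A hp0).1 le_rfl
    have hBl : y2 ≤ p * B := (ms_ceil y2 p B hp0).1 le_rfl
    have hAu : p * A ≤ y1 + (p - 1) := Nat.mul_div_le _ _
    have hBu : p * B ≤ y2 + (p - 1) := Nat.mul_div_le _ _
    have hAl' : (y1 : ℝ) ≤ p * A := by exact_mod_cast hAl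
    have hBl' : (y2 : ℝ) ≤ p * B := by exact_mod_cast hBl
    have hAu' : (p : ℝ) * A ≤ y1 + p := by
      have : p * A ≤ y1 + p := by omega
      exact_mod_cast this
    have hBu' : (p : ℝ) * B ≤ y2 + p := by
      have : p * B ≤ y2 + p := by omega
      exact_mod_cast this
    have h7 : |((B : ℝ) - A) - ((y2 : ℝ) - y1) / p| ≤ 1 := by
      have h8 : ((B : ℝ) - A) - ((y2 : ℝ) - y1) / p = ((p * B - y2) - (p * A - y1)) / p := by
        field_simp
        ring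
      rw [h8, abs_div, abs_of_pos hpR, div_le_one hpR, abs_le]
      constructor <;> linarith
    have h9 := ms_SR R (2 * n) (by omega)
    have h10 : |SR R (2 * n) * (((B : ℝ) - A) - ((y2 : ℝ) - y1) / p)| ≤ R := by
      rw [abs_mul]
      calc |SR R (2 * n)| * |((B : ℝ) - A) - ((y2 : ℝ) - y1) / p| ≤ R * 1 :=
            mul_le_mul h9 h7 (abs_nonneg _) (by positivity)
        _ = R := mul_one _
    have h11 : ∑ k ∈ Ico A B, lamR R (2 * n - p * k) * lamR R2 k - SR R (2 * n) * (((y2 : ℝ) - y1) / p)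
        = (∑ k ∈ Ico A B, lamR R (2 * n - p * k) * lamR R2 k - SR R (2 * n) * ((B : ℝ) - A))
          + SR R (2 * n) * (((B : ℝ) - A) - ((y2 : ℝ) - y1) / p) := by ring
    rw [h11]
    refine (abs_add_le _ _).trans ?_
    linarith
  refine (abs_sum_le_sum_abs _ _).trans ((sum_le_sum hper).trans ?_)
  rw [sum_const, nsmul_eq_mul]
  have hcard : ((pb P).card : ℝ) ≤ P := by
    have h12 : (pb P).card ≤ P := by
      unfold Pool.Agent.H35.W.pb
      refine (card_filter_le _ _).trans ?_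
      rw [Nat.card_Ioc]
      omega
    exact_mod_cast h12
  have h13 : (0 : ℝ) ≤ 4 * (R2 : ℝ) ^ 4 := by positivity
  calc ((pb P).card : ℝ) * (4 * (R2 : ℝ) ^ 4) ≤ P * (4 * (R2 : ℝ) ^ 4) :=
        mul_le_mul_of_nonneg_right hcard h13
    _ = 4 * P * (R2 : ℝ) ^ 4 := by ring

end Pool.Agent.H53.MID

end

section

/-!
# MID GoldB: lower bound for the number of weighted representations

Proof.  `L = log N`, `R = ⌊L^B⌋`, `R2 = ⌊L^(B+1)⌋`, `Yw H i n = Ico y1 y2` (`yw_eq`).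
`F1 Lam Q J (2n-m) = W1 lamR R (2n-m) + E(2n-m)`, the `E` part is `≥ - H/L^3` (hypothesis `hE`).
`Fp Lam P m = Fp (hR R2) P m + Fp (lamR R2) P m` (`fp_split`).
(1) `main_s`: `∑_{m ∈ Ico y1 y2} lamR R (2n-m) Fp (lamR R2) P m ≥ SR R (2n) (y2 - y1) W2 P - 4 P R2^4 ≥ 2 H W2 P - 4 P R2^4` (`Pool.Agent.H76.GB.sr_ge`: `SR R (2n) ≥ 1`, `R ≥ 2`), `W2 P ≥ 1/(16 log P)` (`w2_ge`, `P ≥ L^(5B+10)` large), `P^5 ≤ H`,
so `4 P R2^4 ≤ H/L^4`.
(2) `∑_{m ∈ Ico y1 y2} lamR R (2n-m) Fp (hR R2) P m = ∑_{r ≤ R} μ(r)/φ(r) ∑_{b ∈ red r} ee(2n b/r) ∑_{m} Fp (hR R2) P m ee(-m b/r)` (`lamR_eq`, `2n - m ≥ 1`).  `Ico y1 y2` is the union of its intersections with the blocks `i-1, i, i+1` (intervals),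
and by `hT` (`j ∉ badT`, `r ≤ R ≤ L^B`) each of the three inner sums has norm `≤ H/L^(B+4)`; total `≤ R · 3 H/L^(B+4) ≤ 3 H/L^4`.
(3) So the sum is `≥ W1 (H/(8 log P) - 4 H/L^4) - H/L^3`, the bracket is `≥ 0`, `W1 ≥ 1/50`, `log P ≤ L`: `≥ H/(400 log P) - H/L^3 - H/L^4 ≥ H/(800 log P)`.
-/

set_option autoImplicit false

namespace Pool.Agent.H53.MID

open Finset
open Pool.Agent.H91.PK (ee)
open Pool.Agent.H91.EHA (Lam hR lamR ramS)

/-- splitting an interval in three blocks -/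
private theorem GoldB_split (f : ℕ → ℂ) (a b c d y1 y2 : ℕ) (hab : a ≤ b) (hbc : b ≤ c) (h1 : a ≤ y1)
    (h2 : y2 ≤ d) : ∑ m ∈ Ico y1 y2, f m = ∑ m ∈ Ico (max y1 a) (min y2 b), f m +
      ∑ m ∈ Ico (max y1 b) (min y2 c), f m + ∑ m ∈ Ico (max y1 c) (min y2 d), f m := by
  have e : Ico y1 y2 = (Ico (max y1 a) (min y2 b) ∪ Ico (max y1 b) (min y2 c)) ∪ Ico (max y1 c) (min y2 d) := by
    ext m
    simp only [mem_union, mem_Ico]
    omega
  rw [e, sum_union, sum_union]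
  · rw [Finset.disjoint_left]
    intro m hm hm'
    rw [mem_Ico] at hm hm'
    omega
  · rw [Finset.disjoint_left]
    intro m hm hm'
    rw [mem_union, mem_Ico, mem_Ico] at hm
    rw [mem_Ico] at hm'
    omega

/-- `lamR` against a function whose exponential sums are small -/
private theorem GoldB_lam (g : ℕ → ℝ) (R n y1 y2 : ℕ) (M : ℝ) (hM : 0 ≤ M) (hy : y2 ≤ 2 * n)
    (hg : ∀ r a : ℕ, 1 ≤ r → r ≤ R → ‖∑ m ∈ Ico y1 y2, (g m : ℂ) * ee (-(m * ((a : ℝ) / r)))‖ ≤ M) :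
    |∑ m ∈ Ico y1 y2, lamR R (2 * n - m) * g m| ≤ R * M := by
  have h1 : ((∑ m ∈ Ico y1 y2, lamR R (2 * n - m) * g m : ℝ) : ℂ) =
      ∑ c ∈ Icc 1 R, ((((ArithmeticFunction.moebius c : ℤ) : ℝ) / (c.totient : ℝ) : ℝ) : ℂ) *
        ∑ b ∈ Pool.Agent.H92.EH.red c, ee (2 * n * ((b : ℝ) / c)) *
          ∑ m ∈ Ico y1 y2, (g m : ℂ) * ee (-(m * ((b : ℝ) / c))) := by
    rw [Complex.ofReal_sum]
    have h2 : ∀ m ∈ Ico y1 y2, ((lamR R (2 * n - m) * g m : ℝ) : ℂ) =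
        ∑ c ∈ Icc 1 R, ((((ArithmeticFunction.moebius c : ℤ) : ℝ) / (c.totient : ℝ) : ℝ) : ℂ) *
          ∑ b ∈ Pool.Agent.H92.EH.red c, ee (2 * n * ((b : ℝ) / c)) * ((g m : ℂ) * ee (-(m * ((b : ℝ) / c)))) := by
      intro m hm
      rw [mem_Ico] at hm
      rw [Complex.ofReal_mul, Pool.Agent.H76.EHB.lamR_eq R (2 * n - m) (by omega), sum_mul]
      refine sum_congr rfl fun c _ => ?_
      rw [mul_assoc, sum_mul]
      congr 1
      refine sum_congr rfl fun b _ => ?_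
      have h3 : ((2 * n - m : ℕ) : ℝ) * ((b : ℝ) / c) = 2 * n * ((b : ℝ) / c) + -(m * ((b : ℝ) / c)) := by
        rw [Nat.cast_sub (by omega)]
        push_cast
        ring
      rw [h3, Pool.Agent.H91.PK.LSa_ee_add]
      ring
    rw [sum_congr rfl h2, sum_comm]
    refine sum_congr rfl fun c _ => ?_
    rw [← mul_sum, sum_comm]
    congr 1
    refine sum_congr rfl fun b _ => ?_
    rw [mul_sum]
  have h4 : |∑ m ∈ Ico y1 y2, lamR R (2 * n - m) * g m| =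
      ‖((∑ m ∈ Ico y1 y2, lamR R (2 * n - m) * g m : ℝ) : ℂ)‖ := by
    rw [Complex.norm_real, Real.norm_eq_abs]
  rw [h4, h1]
  refine (norm_sum_le _ _).trans ?_
  have h5 : ∀ c ∈ Icc 1 R, ‖((((ArithmeticFunction.moebius c : ℤ) : ℝ) / (c.totient : ℝ) : ℝ) : ℂ) *
      ∑ b ∈ Pool.Agent.H92.EH.red c, ee (2 * n * ((b : ℝ) / c)) *
        ∑ m ∈ Ico y1 y2, (g m : ℂ) * ee (-(m * ((b : ℝ) / c)))‖ ≤ M := by
    intro c hc
    rw [mem_Icc] at hc
    have hφ : (0 : ℝ) < c.totient := by exact_mod_cast Nat.totient_pos.2 hc.1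
    rw [norm_mul, Complex.norm_real, Real.norm_eq_abs, abs_div, abs_of_pos hφ]
    have h6 : |((ArithmeticFunction.moebius c : ℤ) : ℝ)| ≤ 1 := by
      exact_mod_cast ArithmeticFunction.abs_moebius_le_one
    have h7 : ‖∑ b ∈ Pool.Agent.H92.EH.red c, ee (2 * n * ((b : ℝ) / c)) *
        ∑ m ∈ Ico y1 y2, (g m : ℂ) * ee (-(m * ((b : ℝ) / c)))‖ ≤ c.totient * M := by
      refine (norm_sum_le _ _).trans ?_
      have h8 : ∀ b ∈ Pool.Agent.H92.EH.red c, ‖ee (2 * n * ((b : ℝ) / c)) *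
          ∑ m ∈ Ico y1 y2, (g m : ℂ) * ee (-(m * ((b : ℝ) / c)))‖ ≤ M := by
        intro b _
        rw [norm_mul, Pool.Agent.H91.PK.LSa_norm_ee, one_mul]
        exact hg c b hc.1 hc.2
      refine (sum_le_card_nsmul _ _ _ h8).trans ?_
      rw [nsmul_eq_mul]
      refine mul_le_mul_of_nonneg_right ?_ hM
      rw [Nat.cast_le, Pool.Agent.H92.EH.card_red]
    calc |((ArithmeticFunction.moebius c : ℤ) : ℝ)| / c.totient * _ ≤ 1 / c.totient * (c.totient * M) := by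
          gcongr
      _ = M := by field_simp
  refine (sum_le_card_nsmul _ _ _ h5).trans ?_
  rw [nsmul_eq_mul, Nat.card_Icc]
  simp

private theorem GoldB_lim (C : ℝ) : ∃ N0 : ℕ, ∀ N : ℕ, N0 ≤ N → C ≤ Real.log N := by
  have h := (Real.tendsto_log_atTop.comp tendsto_natCast_atTop_atTop).eventually_ge_atTop C
  obtain ⟨N0, h0⟩ := Filter.eventually_atTop.1 h
  exact ⟨N0, fun N hN => h0 N hN⟩

theorem gold_b (hPB : PBp) (B : ℕ) (hB : 1 ≤ B) : ∃ N0 : ℕ, ∀ N : ℕ, N0 ≤ N → ∀ H P Q J i n : ℕ,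
    Real.log N ^ (5 * B + 10) ≤ P → P ^ 5 ≤ H → H ^ 2 ≤ N → (1 : ℝ) / 50 ≤ W1 Q J →
    N / (2 * H) + 1 ≤ i → i + 1 ≤ 4 * N / H → i * H ≤ n → n < (i + 1) * H →
    |∑ m ∈ Yw H i n, (F1 Lam Q J (2 * n - m) - W1 Q J * lamR ⌊Real.log N ^ B⌋₊ (2 * n - m)) * Fp Lam P m|
      ≤ H / Real.log N ^ 3 →
    (∀ j ∈ Icc (i - 1) (i + 1), j ∉ badT (Fp (hR ⌊Real.log N ^ (B + 1)⌋₊) P) N H (Real.log N ^ B)
      (H / Real.log N ^ (B + 4))) →
    H / (800 * Real.log P) ≤ ∑ m ∈ Yw H i n, F1 Lam Q J (2 * n - m) * Fp Lam P m := by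
  obtain ⟨P0, hP0, hW2⟩ := w2_ge hPB
  obtain ⟨N1, hN1⟩ := GoldB_lim (max (P0 : ℝ) 1000)
  refine ⟨max N1 3, ?_⟩
  intro N hN H P Q J i n hPL hPH hHN hW1 hi1 hi2 hn1 hn2 hE hT
  have hNN : N1 ≤ N := (le_max_left _ _).trans hN
  have hN3 : 3 ≤ N := (le_max_right _ _).trans hN
  set L : ℝ := Real.log N with hL
  have hL0 : (P0 : ℝ) ≤ L := (le_max_left _ _).trans (hN1 N hNN)
  have hL1 : (1000 : ℝ) ≤ L := (le_max_right _ _).trans (hN1 N hNN)
  have hL1' : (1 : ℝ) ≤ L := by linarith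
  have hLpos : 0 < L := by linarith
  set R : ℕ := ⌊L ^ B⌋₊ with hRdef
  set R2 : ℕ := ⌊L ^ (B + 1)⌋₊ with hR2def
  have hRL : (R : ℝ) ≤ L ^ B := Nat.floor_le (by positivity)
  have hR2L : (R2 : ℝ) ≤ L ^ (B + 1) := Nat.floor_le (by positivity)
  have hLB : L ≤ L ^ B := le_self_pow₀ hL1' (by omega)
  have hR2' : 2 ≤ R := by
    rw [hRdef]
    refine Nat.le_floor ?_
    push_cast
    linarith
  have hRR : R ≤ R2 := Nat.floor_le_floor (pow_le_pow_right₀ hL1' (by omega))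
  -- `P`
  have hLP : L ≤ P := (le_self_pow₀ hL1' (by omega)).trans hPL
  have hPP0 : P0 ≤ P := by exact_mod_cast hL0.trans hLP
  have hPr : (1000 : ℝ) ≤ P := hL1.trans hLP
  have hPpos : (0 : ℝ) < P := by linarith
  have hP1 : 1 ≤ P := by
    have : (1 : ℝ) ≤ P := by linarith
    exact_mod_cast this
  have hR2P : R2 < P := by
    have h1 : (R2 : ℝ) < P := by
      have h2 : L ^ (B + 1) < L ^ (5 * B + 10) := pow_lt_pow_right₀ (by linarith) (by omega)
      linarith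
    exact_mod_cast h1
  have hHr : (P : ℝ) ^ 5 ≤ H := by exact_mod_cast hPH
  have hH1 : P ≤ H := (Nat.le_self_pow (by norm_num) P).trans hPH
  have hHP : (P : ℝ) ≤ H := by exact_mod_cast hH1
  have hHpos : (0 : ℝ) < H := by linarith
  have hH2 : 2 ≤ H := by
    have : (2 : ℝ) ≤ H := by linarith
    exact_mod_cast this
  have hHN' : H ≤ N := (Nat.le_self_pow (by norm_num) H).trans hHN
  have hPN : (P : ℝ) ≤ N := by exact_mod_cast hH1.trans hHN'
  have hlogP : Real.log P ≤ L := Real.log_le_log hPpos hPN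
  have hlogP0 : 0 < Real.log P := Real.log_pos (by linarith)
  have hi3 : 2 ≤ i := by
    have h1 : 1 ≤ N / (2 * H) := by
      rw [Nat.one_le_div_iff (by omega)]
      nlinarith
    omega
  obtain ⟨y1, y2, hY, hy1, hy2, hy3, hy4, hy5⟩ := yw_eq H i n hi3 (by omega) hn1 hn2
  rw [hY] at hE ⊢
  -- the error term
  have hsplit : ∑ m ∈ Ico y1 y2, F1 Lam Q J (2 * n - m) * Fp Lam P m =
      ∑ m ∈ Ico y1 y2, (F1 Lam Q J (2 * n - m) - W1 Q J * lamR R (2 * n - m)) * Fp Lam P m +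
        W1 Q J * (∑ m ∈ Ico y1 y2, lamR R (2 * n - m) * Fp (hR R2) P m +
          ∑ m ∈ Ico y1 y2, lamR R (2 * n - m) * Fp (lamR R2) P m) := by
    rw [← sum_add_distrib, mul_sum, ← sum_add_distrib]
    refine sum_congr rfl fun m _ => ?_
    rw [fp_split R2 P m]
    ring
  -- the exponential sums over the pieces
  have hblk : ∀ j ∈ Icc (i - 1) (i + 1), ∀ r a z1 z2 : ℕ, 1 ≤ r → r ≤ R → j * H ≤ z1 → z2 ≤ (j + 1) * H →
      ‖∑ m ∈ Ico z1 z2, ((Fp (hR R2) P m : ℝ) : ℂ) * ee (-(m * ((a : ℝ) / r)))‖ ≤ H / L ^ (B + 4) := by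
    intro j hj r a z1 z2 hr1 hr2 hz1 hz2
    by_contra hcon
    push Not at hcon
    refine hT j hj ?_
    classical
    unfold badT
    rw [mem_filter]
    rw [mem_Icc] at hj
    refine ⟨by rw [mem_Icc]; omega, r, a, z1, z2, hr1, ?_, hz1, hz2, hcon⟩
    have h4 : (r : ℝ) ≤ R := by exact_mod_cast hr2
    linarith
  have hexp : ∀ r a : ℕ, 1 ≤ r → r ≤ R →
      ‖∑ m ∈ Ico y1 y2, ((Fp (hR R2) P m : ℝ) : ℂ) * ee (-(m * ((a : ℝ) / r)))‖ ≤ 3 * (H / L ^ (B + 4)) := by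
    intro r a hr1 hr2
    rw [GoldB_split (fun m => ((Fp (hR R2) P m : ℝ) : ℂ) * ee (-(m * ((a : ℝ) / r)))) ((i - 1) * H) (i * H)
      ((i + 1) * H) ((i + 2) * H) y1 y2 (Nat.mul_le_mul_right _ (by omega)) (Nat.mul_le_mul_right _ (by omega))
      hy1 hy2]
    have e1 := hblk (i - 1) (by rw [mem_Icc]; omega) r a (max y1 ((i - 1) * H)) (min y2 (i * H)) hr1 hr2
      (le_max_right _ _) ((min_le_right _ _).trans (by rw [Nat.sub_add_cancel (by omega)]))
    have e2 := hblk i (by rw [mem_Icc]; omega) r a (max y1 (i * H)) (min y2 ((i + 1) * H)) hr1 hr2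
      (le_max_right _ _) (min_le_right _ _)
    have e3 := hblk (i + 1) (by rw [mem_Icc]; omega) r a (max y1 ((i + 1) * H)) (min y2 ((i + 2) * H)) hr1 hr2
      (le_max_right _ _) (min_le_right _ _)
    refine (norm_add_le _ _).trans ?_
    refine (add_le_add (norm_add_le _ _) le_rfl).trans ?_
    linarith
  have hM0 : (0 : ℝ) ≤ 3 * (H / L ^ (B + 4)) := by positivity
  have hS2 := GoldB_lam (Fp (hR R2) P) R n y1 y2 _ hM0 hy4 hexp
  have hS2' : (R : ℝ) * (3 * (H / L ^ (B + 4))) ≤ 3 * (H / L ^ 4) := by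
    calc (R : ℝ) * (3 * (H / L ^ (B + 4))) ≤ L ^ B * (3 * (H / L ^ (B + 4))) :=
          mul_le_mul_of_nonneg_right hRL hM0
      _ = 3 * (H / L ^ 4) := by
          rw [pow_add]
          field_simp
  -- the main term
  have hS1 := main_s P R R2 y1 y2 n (by omega) hRR hR2P hy5 (by omega) hy4
  have hSR : 1 ≤ Pool.Agent.H76.GB.SR R (2 * n) :=
    Pool.Agent.H76.GB.sr_ge R (2 * n) hR2' (by omega) ⟨n, rfl⟩
  have hW2P := hW2 P hPP0
  have hyy : 2 * (H : ℝ) ≤ (y2 : ℝ) - y1 := by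
    have h1 : ((y1 + 2 * H : ℕ) : ℝ) ≤ y2 := by exact_mod_cast hy3
    push_cast at h1
    linarith
  have hmain : (H : ℝ) / (8 * Real.log P) ≤ Pool.Agent.H76.GB.SR R (2 * n) * ((y2 : ℝ) - y1) * W2 P := by
    have h0 : (0 : ℝ) ≤ 1 / (16 * Real.log P) := by positivity
    calc (H : ℝ) / (8 * Real.log P) = 1 * (2 * H) * (1 / (16 * Real.log P)) := by
          field_simp
          ring
      _ ≤ Pool.Agent.H76.GB.SR R (2 * n) * ((y2 : ℝ) - y1) * W2 P := by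
          refine mul_le_mul (mul_le_mul hSR hyy (by positivity) (by linarith)) hW2P h0 ?_
          exact mul_nonneg (by linarith) (by linarith)
  have herr : 4 * (P : ℝ) * (R2 : ℝ) ^ 4 ≤ H / L ^ 4 := by
    rw [le_div_iff₀ (by positivity)]
    have h1 : (R2 : ℝ) ^ 4 ≤ (L ^ (B + 1)) ^ 4 := pow_le_pow_left₀ (by positivity) hR2L 4
    have h2 : 4 * (L ^ (B + 1)) ^ 4 * L ^ 4 ≤ P := by
      refine le_trans ?_ hPL
      calc 4 * (L ^ (B + 1)) ^ 4 * L ^ 4 ≤ L * (L ^ (B + 1)) ^ 4 * L ^ 4 := by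
            gcongr
            linarith
        _ = L ^ (4 * B + 9) := by
            rw [← pow_mul, ← pow_succ', ← pow_add]
            congr 1
            ring
        _ ≤ L ^ (5 * B + 10) := pow_le_pow_right₀ hL1' (by omega)
    have h3 : (P : ℝ) * P ≤ H := by
      refine le_trans ?_ hHr
      calc (P : ℝ) * P = P ^ 2 := by ring
        _ ≤ P ^ 5 := pow_le_pow_right₀ (by linarith) (by norm_num)
    calc 4 * (P : ℝ) * (R2 : ℝ) ^ 4 * L ^ 4 ≤ 4 * (P : ℝ) * (L ^ (B + 1)) ^ 4 * L ^ 4 := by gcongr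
      _ = P * (4 * (L ^ (B + 1)) ^ 4 * L ^ 4) := by ring
      _ ≤ P * P := mul_le_mul_of_nonneg_left h2 hPpos.le
      _ ≤ H := h3
  -- conclusion
  have a1 := (abs_le.1 hE).1
  have a2 := (abs_le.1 hS2).1
  have a3 := (abs_le.1 hS1).1
  rw [hsplit]
  set E0 : ℝ := ∑ m ∈ Ico y1 y2, (F1 Lam Q J (2 * n - m) - W1 Q J * lamR R (2 * n - m)) * Fp Lam P m with hE0
  set S2 : ℝ := ∑ m ∈ Ico y1 y2, lamR R (2 * n - m) * Fp (hR R2) P m with hS2def
  set S1 : ℝ := ∑ m ∈ Ico y1 y2, lamR R (2 * n - m) * Fp (lamR R2) P m with hS1def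
  have b1 : (H : ℝ) / (8 * Real.log P) - 4 * (H / L ^ 4) ≤ S2 + S1 := by linarith
  have c1 : (H : ℝ) / (8 * L) ≤ H / (8 * Real.log P) := by
    refine div_le_div_of_nonneg_left hHpos.le (by positivity) (by linarith)
  have hq : ∀ k : ℕ, (H : ℝ) / L ^ (k + 1) ≤ H / L / 1000 ^ k := by
    intro k
    rw [div_div]
    refine div_le_div_of_nonneg_left hHpos.le (by positivity) ?_
    rw [pow_succ']
    exact mul_le_mul_of_nonneg_left (pow_le_pow_left₀ (by norm_num) hL1 k) hLpos.le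
  have hHL : 0 < (H : ℝ) / L := by positivity
  have c2 := hq 3
  have c3 := hq 2
  norm_num at c2 c3
  have c1' : (H : ℝ) / L / 8 ≤ H / (8 * Real.log P) := by
    rw [div_div, mul_comm L 8]
    exact c1
  have b2 : 0 ≤ (H : ℝ) / (8 * Real.log P) - 4 * (H / L ^ 4) := by
    linarith
  have b3 : 1 / 50 * ((H : ℝ) / (8 * Real.log P) - 4 * (H / L ^ 4)) ≤ W1 Q J * (S2 + S1) := by
    refine mul_le_mul hW1 b1 b2 ?_
    linarith
  have b4 : (H : ℝ) / (800 * Real.log P) = 1 / 100 * (H / (8 * Real.log P)) := by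
    field_simp
    norm_num
  rw [b4]
  linarith

end Pool.Agent.H53.MID

end

section

/-!
# MIX GoldCX: from the weighted sum to the number of solutions, without `e1`

`f1_lam_le2`: all the primes of `pb (2^j Q)`, `j < J`, are `≤ 2^J Q`; if two different ones `p, p'` divide `m` and `m/p`, `m/p'` are prime powers, then `m = p p' ≤ (2^J Q)^2` (as in `fp_lam_le`, file `H53/MID/Wts.lean`).
So for `m > 4 (2^J Q)^2` at most one term of `F1 Lam Q J m` is nonzero (the blocks `pb (2^j Q)` are disjoint).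
`gold_c_x`: copy and adapt `Pool.Agent.H53.MID.gold_c` (file `H53/MID/GoldC.lean`, complete) with `F1 Lam Q J (2n - m) ≤ log(2n-m) ≤ 2 L` from `f1_lam_le2` (`4 (2^J Q)^2 < N/4`): `|S| 4 L^2 ≥ H/(800 log P)`.
-/

set_option autoImplicit false

namespace Pool.Agent.H53.MIX

open Finset
open Pool.Agent.H91.EHA (Lam hR lamR ramS)
open Pool.Agent.H53.MID

private theorem GoldCX_mem_pb {P p : ℕ} : p ∈ Pool.Agent.H35.W.pb P ↔ (P < p ∧ p ≤ 2 * P) ∧ p.Prime := by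
  unfold Pool.Agent.H35.W.pb
  rw [Finset.mem_filter, Finset.mem_Ioc]

private theorem GoldCX_ppow {m p p' : ℕ} (hp : p.Prime) (hp' : p'.Prime) (hne : p ≠ p') (hpm : p ∣ m)
    (hpm' : p' ∣ m) (h : Lam (m / p) ≠ 0) : ∃ j, m = p * p' ^ (j + 1) := by
  unfold Lam at h
  rw [ArithmeticFunction.vonMangoldt_ne_zero_iff, isPrimePow_nat_iff] at h
  obtain ⟨q, k, hq, hk, hqk⟩ := h
  have hm : m = p * (m / p) := (Nat.mul_div_cancel' hpm).symm
  have h1 : p' ∣ m / p := by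
    have h2 : p' ∣ p * (m / p) := by rw [← hm]; exact hpm'
    rcases (Nat.Prime.dvd_mul hp').1 h2 with h3 | h3
    · exact absurd ((Nat.prime_dvd_prime_iff_eq hp' hp).1 h3).symm hne
    · exact h3
  rw [← hqk] at h1
  have h4 : p' = q := (Nat.prime_dvd_prime_iff_eq hp' hq).1 (hp'.dvd_of_dvd_pow h1)
  refine ⟨k - 1, ?_⟩
  rw [Nat.sub_add_cancel hk, h4, hqk]
  exact hm

private theorem GoldCX_disj {Q : ℕ} {i j p : ℕ} (hi : p ∈ Pool.Agent.H35.W.pb (2 ^ i * Q)) (hj : p ∈ Pool.Agent.H35.W.pb (2 ^ j * Q)) :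
    i = j := by
  have h1 := (GoldCX_mem_pb.1 hi).1
  have h2 := (GoldCX_mem_pb.1 hj).1
  have aux : ∀ a b : ℕ, 2 ^ a * Q < p → p ≤ 2 * (2 ^ b * Q) → a ≤ b := by
    intro a b h3 h4
    by_contra hab
    have h5 : 2 ^ (b + 1) ≤ 2 ^ a := Nat.pow_le_pow_right (by norm_num) (by omega)
    have h6 : 2 * (2 ^ b * Q) ≤ 2 ^ a * Q := by
      calc 2 * (2 ^ b * Q) = 2 ^ (b + 1) * Q := by ring
        _ ≤ 2 ^ a * Q := Nat.mul_le_mul_right _ h5
    omega
  exact le_antisymm (aux i j h1.1 h2.2) (aux j i h2.1 h1.2)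

private theorem GoldCX_fp {P m : ℕ} (h : Fp Lam P m ≠ 0) :
    ∃ p ∈ Pool.Agent.H35.W.pb P, p ∣ m ∧ Lam (m / p) ≠ 0 := by
  unfold Fp at h
  obtain ⟨p, hp, h1⟩ := Finset.exists_ne_zero_of_sum_ne_zero h
  rw [Finset.mem_filter] at hp
  exact ⟨p, hp.1, hp.2, h1⟩

private theorem GoldCX_two {m p p' Z : ℕ} (hm : Z ^ 2 < m) (h3 : p.Prime) (h3' : p'.Prime) (h2 : p ≤ Z)
    (h2' : p' ≤ Z) (hne : p ≠ p') (hpm : p ∣ m) (hpm' : p' ∣ m) (h : Lam (m / p) ≠ 0)
    (h' : Lam (m / p') ≠ 0) : False := by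
  obtain ⟨j, hj⟩ := GoldCX_ppow h3 h3' hne hpm hpm' h
  obtain ⟨i, hi⟩ := GoldCX_ppow h3' h3 hne.symm hpm' hpm h'
  have hpp : 0 < p := h3.pos
  have hpp' : 0 < p' := h3'.pos
  have he : p' ^ j = p ^ i := by
    have : p * p' ^ (j + 1) = p' * p ^ (i + 1) := by rw [← hj, ← hi]
    have h4 : (p * p') * p' ^ j = (p * p') * p ^ i := by
      calc (p * p') * p' ^ j = p * p' ^ (j + 1) := by ring
        _ = p' * p ^ (i + 1) := this
        _ = (p * p') * p ^ i := by ring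
    exact Nat.eq_of_mul_eq_mul_left (Nat.mul_pos hpp hpp') h4
  have hj0 : j = 0 := by
    by_contra hj0
    have h5 : p' ∣ p ^ i := by
      rw [← he]
      exact dvd_pow_self _ hj0
    exact hne ((Nat.prime_dvd_prime_iff_eq h3' h3).1 (h3'.dvd_of_dvd_pow h5)).symm
  rw [hj0] at hj
  have : m ≤ Z ^ 2 := by
    rw [hj]
    calc p * p' ^ (0 + 1) = p * p' := by ring
      _ ≤ Z * Z := Nat.mul_le_mul h2 h2'
      _ = Z ^ 2 := by ring
  omega

theorem f1_lam_le2 (Q J m : ℕ) (hm : 4 * (2 ^ J * Q) ^ 2 < m) : F1 Lam Q J m ≤ Real.log m := by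
  have hlog : 0 ≤ Real.log m := Real.log_natCast_nonneg m
  have hle : ∀ j ∈ range J, ∀ p ∈ Pool.Agent.H35.W.pb (2 ^ j * Q), p ≤ 2 ^ J * Q := by
    intro j hj p hp
    have h1 := (GoldCX_mem_pb.1 hp).1.2
    refine h1.trans ?_
    calc 2 * (2 ^ j * Q) = 2 ^ (j + 1) * Q := by ring
      _ ≤ 2 ^ J * Q := Nat.mul_le_mul_right Q (Nat.pow_le_pow_right (by norm_num) (mem_range.1 hj))
  unfold F1
  by_cases hz : ∃ j ∈ range J, Fp Lam (2 ^ j * Q) m ≠ 0
  · obtain ⟨j, hj, hne⟩ := hz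
    rw [Finset.sum_eq_single j]
    · apply fp_lam_le
      refine lt_of_le_of_lt ?_ hm
      exact Nat.mul_le_mul_left 4 (Nat.pow_le_pow_left (Nat.mul_le_mul_right Q
        (Nat.pow_le_pow_right (by norm_num) (mem_range.1 hj).le)) 2)
    · intro i hi hij
      by_contra hne'
      obtain ⟨p, hp, hpm, hp1⟩ := GoldCX_fp hne
      obtain ⟨p', hp', hpm', hp1'⟩ := GoldCX_fp hne'
      refine GoldCX_two (Z := 2 ^ J * Q) (by omega) (GoldCX_mem_pb.1 hp).2 (GoldCX_mem_pb.1 hp').2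
        (hle j hj p hp) (hle i hi p' hp') ?_ hpm hpm' hp1 hp1'
      rintro rfl
      exact hij (GoldCX_disj hp' hp)
    · intro h
      exact absurd hj h
  · push Not at hz
    rw [Finset.sum_eq_zero hz]
    exact hlog

private theorem GoldCX_lam (P m : ℕ) (h : Fp Lam P m ≠ 0) :
    ∃ p q a : ℕ, p.Prime ∧ q.Prime ∧ 1 ≤ a ∧ P < p ∧ p ≤ 2 * P ∧ m = p * q ^ a := by
  unfold Fp at h
  obtain ⟨p, hp, h1⟩ := Finset.exists_ne_zero_of_sum_ne_zero h
  rw [Finset.mem_filter] at hp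
  obtain ⟨hp, k, rfl⟩ := hp
  unfold Pool.Agent.H35.W.pb at hp
  rw [Finset.mem_filter, Finset.mem_Ioc] at hp
  rw [Nat.mul_div_cancel_left _ hp.2.pos] at h1
  unfold Pool.Agent.H91.EHA.Lam at h1
  rw [ArithmeticFunction.vonMangoldt_ne_zero_iff, isPrimePow_nat_iff] at h1
  obtain ⟨q, a, hq, ha, rfl⟩ := h1
  exact ⟨p, q, a, hp.2, hq, ha, hp.1.1, hp.1.2, rfl⟩

open Classical in
theorem gold_c_x : ∃ N0 : ℕ, ∀ N : ℕ, N0 ≤ N → ∀ H P Q J i n : ℕ,
    2 ≤ P → P ^ 5 ≤ H → 1 ≤ Q → (2 ^ J * Q) ^ 5 ≤ H → H ^ 2 ≤ N →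
    N / (2 * H) + 1 ≤ i → i + 1 ≤ 4 * N / H → i * H ≤ n → n < (i + 1) * H →
    (¬ ∃ m p q j : ℕ, p ≤ 2 ^ J * Q + 2 * P ∧ q.Prime ∧ 2 ≤ j ∧ m = p * q ^ j ∧ m ≤ n + 2 * H ∧ n ≤ m + 2 * H) →
    H / (800 * Real.log P) ≤ ∑ m ∈ Yw H i n, F1 Lam Q J (2 * n - m) * Fp Lam P m →
    H / (3200 * Real.log N ^ 2 * Real.log P) ≤
      (((Icc (-(2 * H : ℤ)) (2 * H)).filter (fun x : ℤ => ∃ p1 q1 p2 q2 : ℕ, p1.Prime ∧ q1.Prime ∧ p2.Prime ∧
        q2.Prime ∧ Q < p1 ∧ p1 < q1 ∧ P < p2 ∧ p2 ≤ 2 * P ∧ (n : ℤ) - x = p1 * q1 ∧ (n : ℤ) + x = p2 * q2)).card : ℝ) := by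
  refine ⟨64, fun N hN H P Q J i n hP hPH hQ hZH hHN hi1 hi2 hn1 hn2 hno hsum => ?_⟩
  have hH32 : 32 ≤ H := by
    calc 32 = 2 ^ 5 := by norm_num
      _ ≤ P ^ 5 := Nat.pow_le_pow_left hP 5
      _ ≤ H := hPH
  have hHN' : 32 * H ≤ N := by
    calc 32 * H ≤ H * H := Nat.mul_le_mul_right H hH32
      _ = H ^ 2 := by ring
      _ ≤ N := hHN
  have hNr : (64 : ℝ) ≤ N := by exact_mod_cast hN
  obtain ⟨L, hL⟩ : ∃ L, L = Real.log N := ⟨_, rfl⟩
  have hL1 : 1 ≤ L := by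
    rw [hL, Real.le_log_iff_exp_le (by linarith)]
    have := Real.exp_one_lt_d9
    linarith
  have hL0 : 0 < L := by linarith
  have hP2 : (2 : ℝ) ≤ P := by exact_mod_cast hP
  have hlogP : 0 < Real.log P := Real.log_pos (by linarith)
  -- positions
  have h4 : N < 2 * H * (N / (2 * H) + 1) := Nat.lt_mul_div_succ _ (by omega)
  have h7 : H * (4 * N / H) ≤ 4 * N := Nat.mul_div_le _ _
  have hlow : N ≤ 4 * ((i - 1) * H) := by
    have h5 : 2 * H * (N / (2 * H)) ≤ 2 * H * (i - 1) := Nat.mul_le_mul_left _ (Nat.le_sub_of_add_le hi1)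
    have h6 : N < 2 * ((i - 1) * H) + 2 * H := by nlinarith
    omega
  have hup : (i + 2) * H ≤ 5 * N := by
    have h8 : H * (i + 1) ≤ H * (4 * N / H) := Nat.mul_le_mul_left _ hi2
    have h10 : (i + 2) * H = H * (i + 1) + H := by ring
    omega
  have hi0 : 1 ≤ i := le_trans (Nat.le_add_left 1 _) hi1
  have e1' : (i - 1) * H + H = i * H := by
    obtain ⟨k, rfl⟩ : ∃ k, i = k + 1 := ⟨i - 1, by omega⟩
    rw [Nat.add_sub_cancel]
    ring
  have e2' : (i + 1) * H = i * H + H := by ring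
  have e3' : (i + 2) * H = i * H + 2 * H := by ring
  have hYw : ∀ m ∈ Yw H i n, N ≤ 4 * m ∧ m ≤ 5 * N ∧ N ≤ 4 * (2 * n - m) ∧ 2 * n - m ≤ 5 * N ∧ m ≤ 2 * n ∧
      m ≤ n + 2 * H ∧ n ≤ m + 2 * H := by
    intro m hm
    unfold Yw at hm
    rw [Finset.mem_filter, Finset.mem_Ico, Finset.mem_Ico] at hm
    omega
  have hlog : ∀ k : ℕ, 1 ≤ k → k ≤ 5 * N → Real.log k ≤ 2 * L := by
    intro k hk1 hk
    have h8 : (k : ℝ) ≤ 5 * N := by exact_mod_cast hk
    have h9 : (k : ℝ) ≤ N * N := by nlinarith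
    have h10 := Real.log_le_log (by exact_mod_cast hk1) h9
    rw [Real.log_mul (by linarith) (by linarith), ← hL] at h10
    linarith
  -- the support
  obtain ⟨S, hS⟩ : ∃ S, S = (Yw H i n).filter (fun m => F1 Lam Q J (2 * n - m) * Fp Lam P m ≠ 0) := ⟨_, rfl⟩
  have hZN : 16 * (2 ^ J * Q) ^ 2 < N := by
    obtain ⟨Z, hZ⟩ : ∃ Z, Z = 2 ^ J * Q := ⟨_, rfl⟩
    rw [← hZ] at hZH ⊢
    rcases Nat.lt_or_ge Z 2 with c1 | c1
    · have c2 : Z ^ 2 ≤ 1 ^ 2 := Nat.pow_le_pow_left (by omega) 2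
      omega
    · have c2 : Z ^ 10 ≤ N := by
        calc Z ^ 10 = (Z ^ 5) ^ 2 := by ring
          _ ≤ H ^ 2 := Nat.pow_le_pow_left hZH 2
          _ ≤ N := hHN
      have c3 : 256 * Z ^ 2 ≤ Z ^ 10 := by
        calc 256 * Z ^ 2 = 2 ^ 8 * Z ^ 2 := by norm_num
          _ ≤ Z ^ 8 * Z ^ 2 := Nat.mul_le_mul_right _ (Nat.pow_le_pow_left c1 8)
          _ = Z ^ 10 := by ring
      have c4 : 0 < Z ^ 2 := by positivity
      omega
  have hsumS : ∑ m ∈ Yw H i n, F1 Lam Q J (2 * n - m) * Fp Lam P m ≤ S.card * (4 * L ^ 2) := by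
    rw [← Finset.sum_filter_ne_zero, ← hS, ← nsmul_eq_mul, ← Finset.sum_const]
    refine Finset.sum_le_sum fun m hm => ?_
    rw [hS, Finset.mem_filter] at hm
    obtain ⟨q1, q2, q3, q4, q5, q6, q7⟩ := hYw m hm.1
    have b1 : F1 Lam Q J (2 * n - m) ≤ 2 * L :=
      (f1_lam_le2 Q J (2 * n - m) (by omega)).trans (hlog _ (by omega) q4)
    have b2 : Fp Lam P m ≤ 2 * L := by
      refine (fp_lam_le P m ?_).trans (hlog _ (by omega) q2)
      have c1 : P ^ 10 ≤ N := by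
        calc P ^ 10 = (P ^ 5) ^ 2 := by ring
          _ ≤ H ^ 2 := Nat.pow_le_pow_left hPH 2
          _ ≤ N := hHN
      have c2 : 256 * P ^ 2 ≤ P ^ 10 := by
        calc 256 * P ^ 2 = 2 ^ 8 * P ^ 2 := by norm_num
          _ ≤ P ^ 8 * P ^ 2 := Nat.mul_le_mul_right _ (Nat.pow_le_pow_left hP 8)
          _ = P ^ 10 := by ring
      have c3 : 0 < P ^ 2 := by positivity
      omega
    have b3 := f1_nonneg Q J (2 * n - m)
    have b4 := fp_nonneg P m
    calc F1 Lam Q J (2 * n - m) * Fp Lam P m ≤ (2 * L) * (2 * L) :=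
          mul_le_mul b1 b2 b4 (by positivity)
      _ = 4 * L ^ 2 := by ring
  have hcardS : H / (3200 * Real.log N ^ 2 * Real.log P) ≤ (S.card : ℝ) := by
    have h8 := hsum.trans hsumS
    rw [← hL]
    rw [div_le_iff₀ (by positivity)] at h8 ⊢
    have h9 : (S.card : ℝ) * (4 * L ^ 2) * (800 * Real.log P) = S.card * (3200 * L ^ 2 * Real.log P) := by
      ring
    rw [← h9]
    exact h8
  refine hcardS.trans ?_
  have hcard : S.card ≤ ((Icc (-(2 * H : ℤ)) (2 * H)).filter (fun x : ℤ => ∃ p1 q1 p2 q2 : ℕ, p1.Prime ∧ q1.Prime ∧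
      p2.Prime ∧ q2.Prime ∧ Q < p1 ∧ p1 < q1 ∧ P < p2 ∧ p2 ≤ 2 * P ∧ (n : ℤ) - x = p1 * q1 ∧
        (n : ℤ) + x = p2 * q2)).card := by
    refine Finset.card_le_card_of_injOn (fun m : ℕ => (m : ℤ) - n) ?_ ?_
    · intro m hm
      rw [Finset.mem_coe, hS, Finset.mem_filter] at hm
      obtain ⟨hm, hne⟩ := hm
      obtain ⟨q1, q2, q3, q4, q5, q6, q7⟩ := hYw m hm
      rw [Finset.mem_coe, Finset.mem_filter, Finset.mem_Icc]
      beta_reduce
      refine ⟨⟨by omega, by omega⟩, ?_⟩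
      have hne1 : F1 Lam Q J (2 * n - m) ≠ 0 := left_ne_zero_of_mul hne
      have hne2 : Fp Lam P m ≠ 0 := right_ne_zero_of_mul hne
      unfold F1 at hne1
      obtain ⟨j, hj, hj1⟩ := Finset.exists_ne_zero_of_sum_ne_zero hne1
      rw [Finset.mem_range] at hj
      obtain ⟨p1, r1, a, hp1, hr1, ha, hp1a, hp1b, hm1⟩ := GoldCX_lam _ _ hj1
      obtain ⟨p2, r2, b, hp2, hr2, hb, hp2a, hp2b, hm2⟩ := GoldCX_lam _ _ hne2
      have hp1Z : p1 ≤ 2 ^ J * Q := by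
        refine hp1b.trans ?_
        calc 2 * (2 ^ j * Q) = 2 ^ (j + 1) * Q := by ring
          _ ≤ 2 ^ J * Q := Nat.mul_le_mul_right Q (Nat.pow_le_pow_right (by norm_num) hj)
      have hQp1 : Q < p1 := by
        refine lt_of_le_of_lt ?_ hp1a
        exact Nat.le_mul_of_pos_left Q (by positivity)
      have ha1 : a = 1 := by
        by_contra hcon
        exact hno ⟨2 * n - m, p1, r1, a, by omega, hr1, by omega, hm1, by omega, by omega⟩
      have hb1 : b = 1 := by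
        by_contra hcon
        exact hno ⟨m, p2, r2, b, by omega, hr2, by omega, hm2, q6, q7⟩
      rw [ha1, pow_one] at hm1
      rw [hb1, pow_one] at hm2
      refine ⟨p1, r1, p2, r2, hp1, hr1, hp2, hr2, hQp1, ?_, hp2a, hp2b, ?_, ?_⟩
      · by_contra hcon
        push Not at hcon
        have c1 : p1 * r1 ≤ (2 ^ J * Q) ^ 2 := by
          calc p1 * r1 ≤ p1 * p1 := Nat.mul_le_mul_left _ hcon
            _ ≤ (2 ^ J * Q) * (2 ^ J * Q) := Nat.mul_le_mul hp1Z hp1Z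
            _ = (2 ^ J * Q) ^ 2 := by ring
        have c2 : (2 ^ J * Q) ^ 10 ≤ N := by
          calc (2 ^ J * Q) ^ 10 = ((2 ^ J * Q) ^ 5) ^ 2 := by ring
            _ ≤ H ^ 2 := Nat.pow_le_pow_left hZH 2
            _ ≤ N := hHN
        have c3 : 2 ≤ 2 ^ J * Q := hp1.two_le.trans hp1Z
        have c4 : 256 * (2 ^ J * Q) ^ 2 ≤ (2 ^ J * Q) ^ 10 := by
          calc 256 * (2 ^ J * Q) ^ 2 = 2 ^ 8 * (2 ^ J * Q) ^ 2 := by norm_num
            _ ≤ (2 ^ J * Q) ^ 8 * (2 ^ J * Q) ^ 2 := Nat.mul_le_mul_right _ (Nat.pow_le_pow_left c3 8)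
            _ = (2 ^ J * Q) ^ 10 := by ring
        have c5 : 0 < (2 ^ J * Q) ^ 2 := by positivity
        rw [← hm1] at c1
        omega
      · have : ((2 * n - m : ℕ) : ℤ) = p1 * r1 := by exact_mod_cast hm1
        rw [← this]
        omega
      · have : (m : ℤ) = p2 * r2 := by exact_mod_cast hm2
        rw [← this]
        omega
    · intro x _ y _ hxy
      have : (x : ℤ) - n = (y : ℤ) - n := hxy
      omega
  exact_mod_cast hcard

end Pool.Agent.H53.MIX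

end

section

/-!
# MID OmW: `Fp (lamR R) P - W2 P lamR R` has small exponential sums

Proof.  `R < P`: `lamR R (m/p) = lamR R m` for `p ∈ pb P`, `p ∣ m` (`Pool.Agent.H76.SP.lamR_mul`), so `Fp (lamR R) P m - W2 P lamR R m = lamR R m ∑_{p ∈ pb P} (1[p ∣ m] - 1/p)`.
`lamR R m = ∑_{q ≤ R} μ(q)/φ(q) ∑_{b ∈ red q} ee(m b/q)` for `m ≥ 1` (`Pool.Agent.H76.EHB.lamR_eq`), so it is enough to show for every real `β`:
`∑_{p ∈ pb P} ‖∑_{m ∈ I} (1[p ∣ m] - 1/p) ee(m β)‖ ≤ 60 H/P` (the number of the pairs `(q, b)` weighted by `1/φ(q)` is `R`).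
`1[p ∣ m] - 1/p = (1/p) ∑_{c=1}^{p-1} ee(m c/p)`, so the left side is `≤ (1/P) ∑_{p ∈ pb P} ∑_{c=1}^{p-1} |∑_{m ∈ I} ee(m (β + c/p))| ≤ (1/P) ∑_{p,c} min(H, 1/(2 nz(β + c/p)))`.
The points `c/p` (`1 ≤ c < p`, `p ∈ pb P`) are distinct modulo 1 with mutual distances `≥ 1/(4P^2)`; ordering them by `nz(β + c/p)` (two sides): at most 2 points have `nz < 1/(8P^2)`·.., generally at most `2(k+1)` points have
`nz(β + c/p) ≤ k/(8P^2)`; so the sum is `≤ 2 H + ∑_{k=1}^{8P^2} 2 · 8P^2/(2k)·2 ≤ 2H + 16 P^2 (1 + log(8P^2))`, and `16 P^2 (1 + log (8 P^2)) ≤ 58 P^3 ≤ 58 H` or better.  (`P^3 ≤ H`.)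
-/

set_option autoImplicit false

namespace Pool.Agent.H53.MID

open Finset
open Pool.Agent.H91.PK (ee)
open Pool.Agent.H91.EHA (Lam hR lamR ramS)
open Pool.Agent.H35.W (pb)
open Pool.Agent.H92.EH (red D)

private theorem OmW_e (t : ℝ) : Pool.Agent.H92.EH.e t = ee t := by
  unfold Pool.Agent.H91.PK.ee Pool.Agent.H92.EH.e
  congr 1
  push_cast
  ring

/-- the exponential sum over well spaced points -/
private theorem OmW_pts {ι : Type*} [DecidableEq ι] (S : Finset ι) (β : ι → ℝ) (M H : ℕ) (hM : 0 < M)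
    (hsp : ∀ i ∈ S, ∀ j ∈ S, i ≠ j → ∀ m : ℤ, (1 : ℝ) / M ≤ |β i - β j - m|) (T : ℝ) (hT : 0 ≤ T)
    (hT2 : (S.card : ℝ) * (4 * (M : ℝ) ^ 2) ≤ T ^ 2) :
    ∑ j ∈ S, ‖D H (β j)‖ ≤ H + T := by
  classical
  have hM0 : (0 : ℝ) < M := by exact_mod_cast hM
  have hM2 : (1 : ℝ) / ((2 * M : ℕ) : ℝ) = 1 / M / 2 := by
    push_cast
    field_simp
  rw [← Finset.sum_filter_add_sum_filter_not S (fun j => ∃ m : ℤ, |β j - m| < (1 : ℝ) / ((2 * M : ℕ) : ℝ))]
  refine add_le_add ?_ ?_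
  · have hcard : (S.filter (fun j => ∃ m : ℤ, |β j - m| < (1 : ℝ) / ((2 * M : ℕ) : ℝ))).card ≤ 1 := by
      rw [Finset.card_le_one]
      intro i hi j hj
      by_contra hne
      rw [Finset.mem_filter] at hi hj
      obtain ⟨hi, m, hm⟩ := hi
      obtain ⟨hj, m', hm'⟩ := hj
      have h1 := hsp i hi j hj hne (m - m')
      have h2 : β i - β j - ((m - m' : ℤ) : ℝ) = (β i - m) - (β j - m') := by
        push_cast
        ring
      rw [h2] at h1
      have h3 := abs_sub (β i - m) (β j - m')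
      rw [hM2] at hm hm'
      linarith
    calc ∑ j ∈ S.filter (fun j => ∃ m : ℤ, |β j - m| < (1 : ℝ) / ((2 * M : ℕ) : ℝ)), ‖D H (β j)‖
        ≤ ∑ _j ∈ S.filter (fun j => ∃ m : ℤ, |β j - m| < (1 : ℝ) / ((2 * M : ℕ) : ℝ)), (H : ℝ) :=
          Finset.sum_le_sum fun j _ => Pool.Agent.H92.EH.norm_D_le_nat H (β j)
      _ = ((S.filter (fun j => ∃ m : ℤ, |β j - m| < (1 : ℝ) / ((2 * M : ℕ) : ℝ))).card : ℝ) * H := by
          rw [Finset.sum_const, nsmul_eq_mul]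
      _ ≤ 1 * H := by
          refine mul_le_mul_of_nonneg_right ?_ (by positivity)
          exact_mod_cast hcard
      _ = H := one_mul _
  · set S' := S.filter (fun j => ¬ ∃ m : ℤ, |β j - m| < (1 : ℝ) / ((2 * M : ℕ) : ℝ)) with hS'
    have hS'mem : ∀ j ∈ S', j ∈ S ∧ ∀ m : ℤ, (1 : ℝ) / ((2 * M : ℕ) : ℝ) ≤ |β j - m| := by
      intro j hj
      rw [hS', Finset.mem_filter] at hj
      refine ⟨hj.1, fun m => ?_⟩
      by_contra hcon
      push Not at hcon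
      exact hj.2 ⟨m, hcon⟩
    have hhalf : (1 : ℝ) / ((2 * M : ℕ) : ℝ) ≤ 1 / M := by
      rw [hM2]
      have : (0 : ℝ) < 1 / M := by positivity
      linarith
    have h1 := Pool.Agent.H92.EH.row_aux (S'.filter (fun j => Int.fract (β j) ≤ 1 / 2)) β (2 * M) (by omega)
      (fun j hj => (hS'mem j (Finset.mem_filter.1 hj).1).2)
      (fun i hi j hj hne m => hhalf.trans (hsp i (hS'mem i (Finset.mem_filter.1 hi).1).1 j
        (hS'mem j (Finset.mem_filter.1 hj).1).1 hne m))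
      (fun j hj => (Finset.mem_filter.1 hj).2) H
    have h2 := Pool.Agent.H92.EH.row_aux (S'.filter (fun j => ¬ Int.fract (β j) ≤ 1 / 2)) (fun j => -β j) (2 * M)
      (by omega)
      (fun j hj m => by
        have := (hS'mem j (Finset.mem_filter.1 hj).1).2 (-m)
        rw [← abs_neg]
        convert this using 2
        push_cast
        ring)
      (fun i hi j hj hne m => by
        have h9 := hhalf.trans (hsp i (hS'mem i (Finset.mem_filter.1 hi).1).1 j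
          (hS'mem j (Finset.mem_filter.1 hj).1).1 hne (-m))
        have h8 : β i - β j - ((-m : ℤ) : ℝ) = -(-β i - -β j - m) := by
          push_cast
          ring
        rw [h8, abs_neg] at h9
        exact h9)
      (fun j hj => by
        have h3 := (Finset.mem_filter.1 hj).2
        push Not at h3
        have h4 : Int.fract (β j) ≠ 0 := by
          intro h5
          rw [h5] at h3
          norm_num at h3
        rw [Int.fract_neg h4]
        linarith) H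
    simp_rw [Pool.Agent.H92.EH.norm_D_neg] at h2
    have h3 : ∑ j ∈ S', ‖D H (β j)‖ ^ 2 ≤ 4 * (M : ℝ) ^ 2 := by
      rw [← Finset.sum_filter_add_sum_filter_not S' (fun j => Int.fract (β j) ≤ 1 / 2)]
      refine (add_le_add h1 h2).trans (le_of_eq ?_)
      push_cast
      ring
    have h4 : (∑ j ∈ S', ‖D H (β j)‖) ^ 2 ≤ T ^ 2 := by
      refine (sq_sum_le_card_mul_sum_sq).trans (le_trans ?_ hT2)
      refine mul_le_mul ?_ h3 (Finset.sum_nonneg fun _ _ => by positivity) (by positivity)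
      exact_mod_cast Finset.card_filter_le _ _
    exact (sq_le_sq₀ (Finset.sum_nonneg fun _ _ => norm_nonneg _) hT).1 h4

/-- detection of the multiples of `p` -/
private theorem OmW_det (p m : ℕ) (hp : 1 ≤ p) :
    ((((if p ∣ m then (1 : ℝ) else 0) - 1 / p : ℝ)) : ℂ) = (1 / p : ℂ) * ∑ k ∈ Ico 1 p, ee (m * ((k : ℝ) / p)) := by
  have hp0 : (p : ℂ) ≠ 0 := by
    have : p ≠ 0 := by omega
    exact_mod_cast this
  have hpr : (0 : ℝ) < p := by exact_mod_cast hp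
  have h1 : ∑ k ∈ range p, ee (m * ((k : ℝ) / p)) = if p ∣ m then (p : ℂ) else 0 := by
    by_cases h : p ∣ m
    · rw [if_pos h]
      obtain ⟨q, rfl⟩ := h
      have h2 : ∀ k ∈ range p, ee (((p * q : ℕ) : ℝ) * ((k : ℝ) / p)) = 1 := by
        intro k _
        have h3 : ((p * q : ℕ) : ℝ) * ((k : ℝ) / p) = (((q * k : ℕ) : ℤ) : ℝ) := by
          push_cast
          field_simp
        rw [h3, Pool.Agent.H76.EHB.ee_int]
      rw [Finset.sum_congr rfl h2]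
      simp
    · rw [if_neg h]
      have h2 : ∑ k ∈ range p, ee (m * ((k : ℝ) / p)) = D p ((m : ℝ) / p) := by
        unfold Pool.Agent.H92.EH.D
        refine Finset.sum_congr rfl fun k _ => ?_
        rw [OmW_e]
        congr 1
        ring
      rw [h2]
      have h3 : D p ((m : ℝ) / p) * (Pool.Agent.H92.EH.e ((m : ℝ) / p) - 1) =
          Pool.Agent.H92.EH.e ((m : ℝ) / p) ^ p - 1 := by
        unfold Pool.Agent.H92.EH.D
        rw [← geom_sum_mul]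
        congr 1
        refine sum_congr rfl fun m _ => ?_
        rw [Pool.Agent.H92.EH.e_nat_mul]
      have h4 : Pool.Agent.H92.EH.e ((m : ℝ) / p) ^ p = 1 := by
        rw [← Pool.Agent.H92.EH.e_nat_mul]
        have : (p : ℝ) * ((m : ℝ) / p) = m := by field_simp
        rw [this, Pool.Agent.H92.EH.e_nat]
      rw [h4, sub_self] at h3
      rcases mul_eq_zero.1 h3 with h5 | h5
      · exact h5
      · exfalso
        have h6 : ∀ j : ℤ, 1 / (p : ℝ) ≤ |(m : ℝ) / p - j| := by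
          intro j
          have h7 : (m : ℝ) / p - j = (((m : ℤ) - p * j : ℤ) : ℝ) / p := by
            push_cast
            field_simp
          rw [h7, abs_div, abs_of_pos hpr]
          apply div_le_div_of_nonneg_right _ hpr.le
          have h8 : (m : ℤ) - p * j ≠ 0 := by
            intro h9
            apply h
            have h10 : (p : ℤ) ∣ m := ⟨j, by linarith⟩
            exact_mod_cast h10
          have h9 := Int.one_le_abs h8
          exact_mod_cast h9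
        have h7 := Pool.Agent.H92.EH.le_norm_e_sub_one h6
        rw [h5, norm_zero] at h7
        have : (0 : ℝ) < 1 / p := by positivity
        linarith
  have h2 : ∑ k ∈ range p, ee (m * ((k : ℝ) / p)) = 1 + ∑ k ∈ Ico 1 p, ee (m * ((k : ℝ) / p)) := by
    rw [Finset.range_eq_Ico, Finset.sum_eq_sum_Ico_succ_bot (by omega : 0 < p)]
    congr 1
    simp [Pool.Agent.H91.PK.ee]
  rw [h1] at h2
  have h3 : ∑ k ∈ Ico 1 p, ee (m * ((k : ℝ) / p)) = (if p ∣ m then (p : ℂ) else 0) - 1 := by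
    rw [h2]
    ring
  rw [h3]
  by_cases h : p ∣ m
  · rw [if_pos h, if_pos h]
    push_cast
    field_simp
  · rw [if_neg h, if_neg h]
    push_cast
    ring

private theorem OmW_shift (a H : ℕ) (γ : ℝ) : ‖∑ m ∈ Ico a (a + H), ee (m * γ)‖ = ‖D H γ‖ := by
  have h : ∑ m ∈ Ico a (a + H), ee (m * γ) = ee (a * γ) * D H γ := by
    rw [Finset.sum_Ico_eq_sum_range]
    have h1 : a + H - a = H := by omega
    rw [h1]
    unfold Pool.Agent.H92.EH.D
    rw [Finset.mul_sum]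
    refine Finset.sum_congr rfl fun i _ => ?_
    rw [OmW_e, ← Pool.Agent.H91.PK.LSa_ee_add]
    congr 1
    push_cast
    ring
  rw [h, norm_mul, Pool.Agent.H91.PK.LSa_norm_ee, one_mul]

private theorem OmW_T (P H a : ℕ) (hP : 2 ≤ P) (hH : P ^ 3 ≤ H) (β : ℝ) :
    ∑ p ∈ pb P, ‖∑ m ∈ Ico a (a + H), ((((if p ∣ m then (1 : ℝ) else 0) - 1 / p : ℝ)) : ℂ) * ee (m * β)‖
      ≤ 13 * H / P := by
  have hP0 : (0 : ℝ) < P := by
    have : 0 < P := by omega
    exact_mod_cast this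
  have hpb : ∀ p ∈ pb P, p.Prime ∧ P < p ∧ p ≤ 2 * P := by
    intro p hp
    unfold pb at hp
    rw [Finset.mem_filter, Finset.mem_Ioc] at hp
    exact ⟨hp.2, hp.1⟩
  have h1 : ∀ p ∈ pb P, ‖∑ m ∈ Ico a (a + H), ((((if p ∣ m then (1 : ℝ) else 0) - 1 / p : ℝ)) : ℂ) * ee (m * β)‖ ≤
      1 / P * ∑ k ∈ Ico 1 p, ‖D H (β + (k : ℝ) / p)‖ := by
    intro p hp
    obtain ⟨hp1, hp2, hp3⟩ := hpb p hp
    have hp0 : (0 : ℝ) < p := by
      have : 0 < p := hp1.pos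
      exact_mod_cast this
    have e1 : ∑ m ∈ Ico a (a + H), ((((if p ∣ m then (1 : ℝ) else 0) - 1 / p : ℝ)) : ℂ) * ee (m * β) =
        (1 / p : ℂ) * ∑ k ∈ Ico 1 p, ∑ m ∈ Ico a (a + H), ee (m * (β + (k : ℝ) / p)) := by
      rw [Finset.sum_comm, Finset.mul_sum]
      refine Finset.sum_congr rfl fun m _ => ?_
      rw [OmW_det p m hp1.one_le, mul_assoc, Finset.sum_mul]
      congr 1
      refine Finset.sum_congr rfl fun k _ => ?_
      rw [← Pool.Agent.H91.PK.LSa_ee_add]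
      congr 1
      ring
    rw [e1, norm_mul]
    have e2 : ‖(1 / p : ℂ)‖ = 1 / p := by
      rw [norm_div, norm_one, Complex.norm_natCast]
    rw [e2]
    refine mul_le_mul (one_div_le_one_div_of_le hP0 (by exact_mod_cast hp2.le)) ?_ (norm_nonneg _) (by positivity)
    refine (norm_sum_le _ _).trans (Finset.sum_le_sum fun k _ => ?_)
    rw [OmW_shift]
  refine (Finset.sum_le_sum h1).trans ?_
  rw [← Finset.mul_sum, ← Finset.sum_sigma (pb P) (fun p => Ico 1 p) (fun j => ‖D H (β + (j.2 : ℝ) / j.1)‖)]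
  have hcard : (((pb P).sigma (fun p => Ico 1 p)).card : ℝ) ≤ 2 * (P : ℝ) ^ 2 := by
    rw [Finset.card_sigma]
    have h2 : ∑ p ∈ pb P, (Ico 1 p).card ≤ ∑ _p ∈ pb P, 2 * P := by
      refine Finset.sum_le_sum fun p hp => ?_
      rw [Nat.card_Ico]
      have := (hpb p hp).2.2
      omega
    rw [Finset.sum_const, smul_eq_mul] at h2
    have h3 : (pb P).card ≤ P := by
      unfold pb
      refine (Finset.card_filter_le _ _).trans ?_
      rw [Nat.card_Ioc]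
      omega
    have h4 : ∑ p ∈ pb P, (Ico 1 p).card ≤ 2 * P ^ 2 := by
      calc ∑ p ∈ pb P, (Ico 1 p).card ≤ (pb P).card * (2 * P) := h2
        _ ≤ P * (2 * P) := Nat.mul_le_mul_right _ h3
        _ = 2 * P ^ 2 := by ring
    exact_mod_cast h4
  have h2 := OmW_pts ((pb P).sigma (fun p => Ico 1 p)) (fun j => β + (j.2 : ℝ) / j.1) (4 * P ^ 2) H
    (by positivity) ?_ (12 * (P : ℝ) ^ 3) (by positivity) ?_
  · have hH' : (P : ℝ) ^ 3 ≤ H := by exact_mod_cast hH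
    rw [one_div_mul_eq_div]
    apply div_le_div_of_nonneg_right _ hP0.le
    linarith
  · rintro ⟨p, k⟩ hi ⟨p', k'⟩ hj hne m
    rw [Finset.mem_sigma, Finset.mem_Ico] at hi hj
    obtain ⟨hp, hk⟩ := hi
    obtain ⟨hp', hk'⟩ := hj
    simp only at hp hk hp' hk' ⊢
    obtain ⟨q1, q2, q3⟩ := hpb p hp
    obtain ⟨q1', q2', q3'⟩ := hpb p' hp'
    have hc : k ∈ red p := by
      rw [Pool.Agent.H92.EH.mem_red]
      refine ⟨hk.2, Nat.Coprime.symm ((Nat.Prime.coprime_iff_not_dvd q1).2 fun hd => ?_)⟩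
      exact absurd (Nat.le_of_dvd (by omega) hd) (by omega)
    have hc' : k' ∈ red p' := by
      rw [Pool.Agent.H92.EH.mem_red]
      refine ⟨hk'.2, Nat.Coprime.symm ((Nat.Prime.coprime_iff_not_dvd q1').2 fun hd => ?_)⟩
      exact absurd (Nat.le_of_dvd (by omega) hd) (by omega)
    have hne' : ¬ (p = p' ∧ k = k') := by
      rintro ⟨rfl, rfl⟩
      exact hne rfl
    have h3 := Pool.Agent.H92.EH.farey_spacing q1.pos q1'.pos hc hc' hne' m
    have h4 : β + (k : ℝ) / p - (β + (k' : ℝ) / p') - m = (k : ℝ) / p - (k' : ℝ) / p' - m := by ring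
    rw [h4]
    refine le_trans ?_ h3
    have q4 : (0 : ℝ) < p := by exact_mod_cast q1.pos
    have q5 : (0 : ℝ) < p' := by exact_mod_cast q1'.pos
    have q6 : (p : ℝ) ≤ 2 * P := by exact_mod_cast q3
    have q7 : (p' : ℝ) ≤ 2 * P := by exact_mod_cast q3'
    apply one_div_le_one_div_of_le (by positivity)
    push_cast
    calc (p : ℝ) * p' ≤ (2 * P) * (2 * P) := mul_le_mul q6 q7 q5.le (by positivity)
      _ = 4 * (P : ℝ) ^ 2 := by ring
  · push_cast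
    calc (((pb P).sigma (fun p => Ico 1 p)).card : ℝ) * (4 * (4 * (P : ℝ) ^ 2) ^ 2)
        ≤ (2 * (P : ℝ) ^ 2) * (4 * (4 * (P : ℝ) ^ 2) ^ 2) := mul_le_mul_of_nonneg_right hcard (by positivity)
      _ = 128 * (P : ℝ) ^ 6 := by ring
      _ ≤ 144 * (P : ℝ) ^ 6 := mul_le_mul_of_nonneg_right (by norm_num) (by positivity)
      _ = (12 * (P : ℝ) ^ 3) ^ 2 := by ring

theorem omw (P R H i : ℕ) (α : ℝ) (hRP : R < P) (hP : 2 ≤ P) (hH : P ^ 3 ≤ H) (hi : 1 ≤ i) :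
    ‖Bs (fun m => Fp (lamR R) P m - W2 P * lamR R m) H i α‖ ≤ 100 * R * H / P := by
  have hP0 : (0 : ℝ) < P := by
    have : 0 < P := by omega
    exact_mod_cast this
  have hH0 : 1 ≤ H := le_trans (Nat.one_le_pow _ _ (by omega)) hH
  have hpb : ∀ p ∈ pb P, p.Prime ∧ P < p := by
    intro p hp
    unfold pb at hp
    rw [Finset.mem_filter, Finset.mem_Ioc] at hp
    exact ⟨hp.2, hp.1.1⟩
  have h1 : ∀ m : ℕ, Fp (lamR R) P m - W2 P * lamR R m =
      lamR R m * ∑ p ∈ pb P, ((if p ∣ m then (1 : ℝ) else 0) - 1 / p) := by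
    intro m
    unfold Fp W2
    rw [Finset.sum_filter, Finset.sum_mul, ← Finset.sum_sub_distrib, Finset.mul_sum]
    refine Finset.sum_congr rfl fun p hp => ?_
    obtain ⟨hp1, hp2⟩ := hpb p hp
    by_cases hd : p ∣ m
    · rw [if_pos hd, if_pos hd]
      obtain ⟨q, rfl⟩ := hd
      rw [Nat.mul_div_cancel_left _ hp1.pos, Pool.Agent.H76.SP.lamR_mul R p q hp1 (by omega)]
      ring
    · rw [if_neg hd, if_neg hd]
      ring
  have h2 : Bs (fun m => Fp (lamR R) P m - W2 P * lamR R m) H i α =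
      ∑ c ∈ Icc 1 R, ((((ArithmeticFunction.moebius c : ℤ) : ℝ) / (c.totient : ℝ) : ℝ) : ℂ) * ∑ b ∈ red c,
        ∑ p ∈ pb P, ∑ m ∈ Ico (i * H) (i * H + H),
          ((((if p ∣ m then (1 : ℝ) else 0) - 1 / p : ℝ)) : ℂ) * ee (m * ((b : ℝ) / c - α)) := by
    unfold Bs
    have e1 : (i + 1) * H = i * H + H := by ring
    rw [e1]
    have e2 : ∀ m ∈ Ico (i * H) (i * H + H), ((Fp (lamR R) P m - W2 P * lamR R m : ℝ) : ℂ) * ee (-(m * α)) =
        ∑ c ∈ Icc 1 R, ((((ArithmeticFunction.moebius c : ℤ) : ℝ) / (c.totient : ℝ) : ℝ) : ℂ) * ∑ b ∈ red c,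
          ∑ p ∈ pb P, ((((if p ∣ m then (1 : ℝ) else 0) - 1 / p : ℝ)) : ℂ) * ee (m * ((b : ℝ) / c - α)) := by
      intro m hm
      rw [Finset.mem_Ico] at hm
      have hm1 : 1 ≤ m := le_trans (Nat.mul_le_mul hi hH0) hm.1
      rw [h1, Complex.ofReal_mul, Pool.Agent.H76.EHB.lamR_eq R m hm1, Complex.ofReal_sum, Finset.sum_mul,
        Finset.sum_mul]
      refine Finset.sum_congr rfl fun c _ => ?_
      rw [mul_assoc, mul_assoc]
      congr 1
      rw [Finset.sum_mul]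
      refine Finset.sum_congr rfl fun b _ => ?_
      rw [Finset.sum_mul, Finset.mul_sum]
      refine Finset.sum_congr rfl fun p _ => ?_
      have e3 : ee (m * ((b : ℝ) / c - α)) = ee (m * ((b : ℝ) / c)) * ee (-(m * α)) := by
        rw [← Pool.Agent.H91.PK.LSa_ee_add]
        congr 1
        ring
      rw [e3]
      ring
    rw [Finset.sum_congr rfl e2, Finset.sum_comm]
    refine Finset.sum_congr rfl fun c _ => ?_
    rw [← Finset.mul_sum, Finset.sum_comm]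
    congr 1
    refine Finset.sum_congr rfl fun b _ => ?_
    rw [Finset.sum_comm]
  rw [h2]
  have h3 : ∀ c ∈ Icc 1 R, ‖((((ArithmeticFunction.moebius c : ℤ) : ℝ) / (c.totient : ℝ) : ℝ) : ℂ) * ∑ b ∈ red c,
        ∑ p ∈ pb P, ∑ m ∈ Ico (i * H) (i * H + H),
          ((((if p ∣ m then (1 : ℝ) else 0) - 1 / p : ℝ)) : ℂ) * ee (m * ((b : ℝ) / c - α))‖ ≤ 13 * H / P := by
    intro c hc
    rw [Finset.mem_Icc] at hc
    have hφ : (0 : ℝ) < (c.totient : ℝ) := by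
      have := Nat.totient_pos.2 (show 0 < c by omega)
      exact_mod_cast this
    rw [norm_mul, Complex.norm_real, Real.norm_eq_abs, abs_div, abs_of_pos hφ]
    have hμ : |((ArithmeticFunction.moebius c : ℤ) : ℝ)| ≤ 1 := by
      have := ArithmeticFunction.abs_moebius_le_one (n := c)
      exact_mod_cast this
    have h4 : ‖∑ b ∈ red c, ∑ p ∈ pb P, ∑ m ∈ Ico (i * H) (i * H + H),
          ((((if p ∣ m then (1 : ℝ) else 0) - 1 / p : ℝ)) : ℂ) * ee (m * ((b : ℝ) / c - α))‖ ≤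
        (c.totient : ℝ) * (13 * H / P) := by
      refine (norm_sum_le _ _).trans ?_
      calc ∑ b ∈ red c, ‖∑ p ∈ pb P, ∑ m ∈ Ico (i * H) (i * H + H),
            ((((if p ∣ m then (1 : ℝ) else 0) - 1 / p : ℝ)) : ℂ) * ee (m * ((b : ℝ) / c - α))‖
          ≤ ∑ _b ∈ red c, (13 * (H : ℝ) / P) := by
            refine Finset.sum_le_sum fun b _ => ?_
            exact (norm_sum_le _ _).trans (OmW_T P H (i * H) hP hH _)
        _ = (c.totient : ℝ) * (13 * H / P) := by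
            rw [Finset.sum_const, nsmul_eq_mul, Pool.Agent.H92.EH.card_red]
    calc |((ArithmeticFunction.moebius c : ℤ) : ℝ)| / (c.totient : ℝ) * _
        ≤ 1 / (c.totient : ℝ) * ((c.totient : ℝ) * (13 * H / P)) := by
          refine mul_le_mul ?_ h4 (norm_nonneg _) (by positivity)
          exact div_le_div_of_nonneg_right hμ hφ.le
      _ = 13 * H / P := by
          field_simp
  calc ‖_‖ ≤ ∑ _c ∈ Icc 1 R, (13 * (H : ℝ) / P) := (norm_sum_le _ _).trans (Finset.sum_le_sum h3)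
    _ = R * (13 * H / P) := by
        rw [Finset.sum_const, nsmul_eq_mul, Nat.card_Icc, Nat.add_sub_cancel]
    _ ≤ 100 * R * H / P := by
        rw [mul_div_assoc', div_le_div_iff_of_pos_right hP0]
        have : (0 : ℝ) ≤ (R : ℝ) * H := by positivity
        nlinarith

end Pool.Agent.H53.MID

end
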