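import Pool.Agent.H43.PJ.M05
import Pool.Agent.H43.PJ.M06

/-! The parts of this file: H92.EH2.LS, H53.MID.Net, H53.MID.BaseA, H53.MID.Base, H53.MID.Plw. -/

section

/-!
The large sieve inequality in its direct form.
-/

set_option autoImplicit false

namespace Pool.Agent.H92.EH

open Finset

/-- Direct form of the large sieve inequality. -/
theorem large_sieve {ι : Type*} [DecidableEq ι] (J : Finset ι) (α : ι → ℝ) (a : ℕ → ℂ)
    (M N : ℕ) (hN : N ≤ M) (hM : 0 < M)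
    (hsp : ∀ i ∈ J, ∀ j ∈ J, i ≠ j → ∀ m : ℤ, (1 : ℝ) / M ≤ |α i - α j - m|) :
    ∑ j ∈ J, ‖∑ n ∈ Icc 1 N, a n * e (n * α j)‖ ^ 2 ≤ 5 * M * ∑ n ∈ Icc 1 N, ‖a n‖ ^ 2 := by
  set S : ι → ℂ := fun j => ∑ n ∈ Icc 1 N, a n * e (n * α j) with hS
  set T : ℝ := ∑ j ∈ J, ‖S j‖ ^ 2 with hT
  set B : ℝ := ∑ n ∈ Icc 1 N, ‖a n‖ ^ 2 with hB
  have hT0 : 0 ≤ T := sum_nonneg fun _ _ => by positivity
  have hB0 : 0 ≤ B := sum_nonneg fun _ _ => by positivity
  have hM' : (0 : ℝ) < M := by exact_mod_cast hM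
  have h1 : (T : ℂ) = ∑ n ∈ Icc 1 N, a n * ∑ j ∈ J, (starRingEnd ℂ) (S j) * e (n * α j) := by
    rw [hT, Complex.ofReal_sum]
    have h2 : ∀ j, ((‖S j‖ ^ 2 : ℝ) : ℂ)
        = ∑ n ∈ Icc 1 N, a n * ((starRingEnd ℂ) (S j) * e (n * α j)) := by
      intro j
      push_cast
      rw [← Complex.mul_conj']
      nth_rewrite 1 [hS]
      simp only
      rw [sum_mul]
      refine sum_congr rfl fun n _ => ?_
      ring
    simp_rw [h2]
    rw [sum_comm]
    refine sum_congr rfl fun n _ => ?_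
    rw [mul_sum]
  have h3 : T ≤ ∑ n ∈ Icc 1 N, ‖a n‖ * ‖∑ j ∈ J, (starRingEnd ℂ) (S j) * e (n * α j)‖ := by
    have : T = ‖(T : ℂ)‖ := by rw [Complex.norm_real, Real.norm_of_nonneg hT0]
    rw [this, h1]
    refine (norm_sum_le _ _).trans (le_of_eq ?_)
    refine sum_congr rfl fun n _ => ?_
    rw [norm_mul]
  have h4 : T ^ 2 ≤ B * (5 * M * T) := by
    calc T ^ 2 ≤ (∑ n ∈ Icc 1 N, ‖a n‖ * ‖∑ j ∈ J, (starRingEnd ℂ) (S j) * e (n * α j)‖) ^ 2 :=
          pow_le_pow_left₀ hT0 h3 2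
      _ ≤ (∑ n ∈ Icc 1 N, ‖a n‖ ^ 2)
          * ∑ n ∈ Icc 1 N, ‖∑ j ∈ J, (starRingEnd ℂ) (S j) * e (n * α j)‖ ^ 2 :=
          sum_mul_sq_le_sq_mul_sq _ _ _
      _ ≤ B * (5 * M * T) := by
          apply mul_le_mul_of_nonneg_left _ hB0
          refine (dual_large_sieve J α (fun j => (starRingEnd ℂ) (S j)) M N hN hM hsp).trans ?_
          simp only [RCLike.norm_conj]
          exact le_rfl
  rcases hT0.eq_or_lt with h | h
  · rw [← h]
    positivity
  · have h5 : T * T ≤ (5 * M * B) * T := by nlinarith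
    exact le_of_mul_le_mul_right h5 h

end Pool.Agent.H92.EH

end

section

/-!
# MID Net: a small net of large frequencies for an interval (large sieve)

Proof.  Let `G = {γ : ν ≤ ‖S(γ)‖}`, `S(γ) = ∑_{k ∈ [u,u+w)} f(k) ee(-kγ)`.  A finite set `Γ ⊆ G` with `nz (β - β') > 1/w` for all distinct
`β, β' ∈ Γ` satisfies `|Γ| ν^2 ≤ ∑_{β ∈ Γ} ‖S(β)‖^2 ≤ 5 w S` by `Pool.Agent.H92.EH.large_sieve` (`J = Γ`, `α β = -β`,
`a n = f (u + n - 1)`, `M = N = w`; `‖S(β)‖ = ‖∑_{n=1}^w a_n e(n α)‖` since the factor `e((u-1)β)` has modulus `1`;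
`|α_i - α_j - m| ≥ nz(..) ≥ 1/w`, `nz_le_of`, `nz_neg`).  So the cardinalities are bounded; take `Γ` of maximal cardinality (`Nat.findGreatest` or
strong induction).  If `γ ∈ G` had `nz (γ - β) > 1/w` for all `β ∈ Γ`, then `Γ ∪ {γ}` would be larger (`γ ∉ Γ` because `nz 0 = 0`).
-/

set_option autoImplicit false

namespace Pool.Agent.H53.MID

open Finset
open Pool.Agent.H91.PK (ee)

/-- the exponential sum -/
private noncomputable def Net_S (f : ℕ → ℝ) (u w : ℕ) (γ : ℝ) : ℂ :=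
  ∑ k ∈ Ico u (u + w), (f k : ℂ) * ee (-(k * γ))

private theorem Net_norm_eq (f : ℕ → ℝ) (u w : ℕ) (γ : ℝ) :
    ‖Net_S f u w γ‖ = ‖∑ n ∈ Icc 1 w, (f (u + n - 1) : ℂ) * Pool.Agent.H92.EH.e (n * (-γ))‖ := by
  have h1 : Net_S f u w γ = ee (-(((u : ℝ) - 1) * γ)) *
      ∑ n ∈ Icc 1 w, (f (u + n - 1) : ℂ) * Pool.Agent.H92.EH.e (n * (-γ)) := by
    unfold Net_S
    have h2 : Ico u (u + w) = (Icc 1 w).image (fun n => u + n - 1) := by
      ext k
      rw [Finset.mem_Ico, Finset.mem_image]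
      constructor
      · rintro ⟨h3, h4⟩
        exact ⟨k + 1 - u, by rw [Finset.mem_Icc]; omega, by omega⟩
      · rintro ⟨n, hn, rfl⟩
        rw [Finset.mem_Icc] at hn
        omega
    rw [h2, Finset.sum_image, Finset.mul_sum]
    · refine Finset.sum_congr rfl fun n hn => ?_
      rw [Finset.mem_Icc] at hn
      have h3 : ((u + n - 1 : ℕ) : ℝ) = (u : ℝ) - 1 + n := by
        rw [Nat.cast_sub (by omega)]
        push_cast
        ring
      have h4 : ee (-(((u + n - 1 : ℕ) : ℝ) * γ)) =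
          ee (-(((u : ℝ) - 1) * γ)) * Pool.Agent.H92.EH.e (n * (-γ)) := by
        rw [h3]
        unfold ee Pool.Agent.H92.EH.e
        rw [← Complex.exp_add]
        congr 1
        push_cast
        ring
      rw [h4]
      ring
    · intro a ha b hb hab
      simp only [Finset.coe_Icc, Set.mem_Icc] at ha hb
      simp only at hab
      omega
  have h2 : ‖ee (-(((u : ℝ) - 1) * γ))‖ = 1 := by
    unfold ee
    have h3 : (2 * Real.pi * ((-(((u : ℝ) - 1) * γ) : ℝ) : ℂ) * Complex.I) =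
        ((2 * Real.pi * (-(((u : ℝ) - 1) * γ)) : ℝ) : ℂ) * Complex.I := by
      push_cast
      ring
    rw [h3, Complex.norm_exp_ofReal_mul_I]
  rw [h1, norm_mul, h2, one_mul]

private theorem Net_card (f : ℕ → ℝ) (u w : ℕ) (hw : 1 ≤ w) (ν S : ℝ) (hν : 0 < ν)
    (hS : ∑ k ∈ Ico u (u + w), f k ^ 2 ≤ S) (Γ : Finset ℝ)
    (h1 : ∀ β ∈ Γ, ν ≤ ‖Net_S f u w β‖)
    (h2 : ∀ β ∈ Γ, ∀ β' ∈ Γ, β ≠ β' → 1 / (w : ℝ) < nz (β - β')) :
    (Γ.card : ℝ) ≤ 5 * w * S / ν ^ 2 := by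
  have hls := Pool.Agent.H92.EH.large_sieve Γ (fun β => -β)
    (fun n => ((f (u + n - 1) : ℝ) : ℂ)) w w le_rfl (by omega) (by
      intro i hi j hj hij m
      have h3 := h2 j hj i hi hij.symm
      have h4 := nz_le_of (j - i) m
      have h5 : -i - -j - (m : ℝ) = j - i - m := by ring
      rw [h5]
      linarith)
  have h3 : ∑ n ∈ Icc 1 w, ‖((f (u + n - 1) : ℝ) : ℂ)‖ ^ 2 ≤ S := by
    refine le_trans (le_of_eq ?_) hS
    have h4 : Ico u (u + w) = (Icc 1 w).image (fun n => u + n - 1) := by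
      ext k
      rw [Finset.mem_Ico, Finset.mem_image]
      constructor
      · rintro ⟨h3, h4⟩
        exact ⟨k + 1 - u, by rw [Finset.mem_Icc]; omega, by omega⟩
      · rintro ⟨n, hn, rfl⟩
        rw [Finset.mem_Icc] at hn
        omega
    rw [h4, Finset.sum_image]
    · refine Finset.sum_congr rfl fun n _ => ?_
      rw [Complex.norm_real, Real.norm_eq_abs, sq_abs]
    · intro a ha b hb hab
      simp only [Finset.coe_Icc, Set.mem_Icc] at ha hb
      simp only at hab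
      omega
  have h4 : (Γ.card : ℝ) * ν ^ 2 ≤ ∑ j ∈ Γ, ‖∑ n ∈ Icc 1 w, ((f (u + n - 1) : ℝ) : ℂ) *
      Pool.Agent.H92.EH.e (n * (-j))‖ ^ 2 := by
    rw [← nsmul_eq_mul, ← Finset.sum_const]
    refine Finset.sum_le_sum fun β hβ => ?_
    rw [← Net_norm_eq]
    exact pow_le_pow_left₀ hν.le (h1 β hβ) 2
  rw [le_div_iff₀ (by positivity)]
  refine h4.trans (hls.trans ?_)
  exact mul_le_mul_of_nonneg_left h3 (by positivity)

theorem net (f : ℕ → ℝ) (u w : ℕ) (hw : 1 ≤ w) (ν S : ℝ) (hν : 0 < ν) (hS : ∑ k ∈ Ico u (u + w), f k ^ 2 ≤ S) :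
    ∃ Γ : Finset ℝ, (Γ.card : ℝ) ≤ 5 * w * S / ν ^ 2 ∧
      ∀ γ : ℝ, ν ≤ ‖∑ k ∈ Ico u (u + w), (f k : ℂ) * ee (-(k * γ))‖ → ∃ β ∈ Γ, nz (γ - β) ≤ 1 / w := by
  classical
  set Gd : Finset ℝ → Prop := fun Γ => (∀ β ∈ Γ, ν ≤ ‖Net_S f u w β‖) ∧
    ∀ β ∈ Γ, ∀ β' ∈ Γ, β ≠ β' → 1 / (w : ℝ) < nz (β - β') with hGd
  set P : ℕ → Prop := fun n => ∃ Γ : Finset ℝ, Gd Γ ∧ Γ.card = n with hP
  set B : ℕ := ⌊5 * w * S / ν ^ 2⌋₊ with hB
  have hPB : ∀ n, P n → n ≤ B := by
    rintro n ⟨Γ, hΓ, rfl⟩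
    exact Nat.le_floor (Net_card f u w hw ν S hν hS Γ hΓ.1 hΓ.2)
  have hP0 : P 0 := ⟨∅, ⟨by simp, by simp⟩, rfl⟩
  obtain ⟨Γ, hΓ, hcard⟩ := Nat.findGreatest_spec (P := P) (Nat.zero_le B) hP0
  refine ⟨Γ, Net_card f u w hw ν S hν hS Γ hΓ.1 hΓ.2, ?_⟩
  intro γ hγ
  by_contra hcon
  push Not at hcon
  have hw0 : (0 : ℝ) < 1 / w := by
    have : (0 : ℝ) < w := by exact_mod_cast hw
    positivity
  have hγΓ : γ ∉ Γ := by
    intro h
    have h1 := hcon γ h
    rw [sub_self] at h1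
    have h2 := nz_le_abs 0
    rw [abs_zero] at h2
    linarith
  have hnew : P (Γ.card + 1) := by
    refine ⟨insert γ Γ, ⟨?_, ?_⟩, Finset.card_insert_of_notMem hγΓ⟩
    · intro β hβ
      rw [Finset.mem_insert] at hβ
      rcases hβ with rfl | hβ
      · exact hγ
      · exact hΓ.1 β hβ
    · intro β hβ β' hβ' hne
      rw [Finset.mem_insert] at hβ hβ'
      rcases hβ with rfl | hβ
      · rcases hβ' with rfl | hβ'
        · exact absurd rfl hne
        · exact hcon β' hβ'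
      · rcases hβ' with rfl | hβ'
        · have h1 := hcon β hβ
          rw [← nz_neg, neg_sub] at h1
          exact h1
        · exact hΓ.2 β hβ β' hβ' hne
  have h1 := Nat.le_findGreatest (P := P) (hPB _ hnew) hnew
  rw [← hcard] at h1
  omega

end Pool.Agent.H53.MID

end

section

/-!
# MID BaseA: a bad block has many good primes

`w = ⌊H/(P L^(A+5))⌋`, cells `[c w, c w + w)`.
Proof.  `Bs (Fp f P) H i α = ∑_{p ∈ pb P} In p`, `In p = ∑_{k : i H ≤ k p < (i+1) H} f(k) ee(-k p α)` (`m = k p`), `k ∈ Ico a b`,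
`a = ⌈iH/p⌉`, `b = ⌈(i+1)H/p⌉`, `H/p - 1 ≤ b - a ≤ H/p + 1`, so `w0 ≤ b - a ≤ 2H/P`.
Cauchy-Schwarz and `SqB`: `‖In p‖ ≤ (b - a) L^2 ≤ 2 H L^2/P`.  With `ν = H/(2 P L^A)` and `G = {p : ‖In p‖ ≥ ν}`:
`H/L^A ≤ |G| 2 H L^2/P + P ν` (`|pb P| ≤ P`), so `|G| ≥ P/(4 L^(A+2))`.
For `p ∈ G`: `w ≥ H/(2 P L^(A+5))` (as `H/(P L^(A+5)) ≥ 2 w0 ≥ 2`), `w ≥ w0`.  Split `Ico a b` into cells: full cells `c` with `a ≤ c w`, `c w + w ≤ b`, and at most two partial cells, whose
contribution is `≤ 2 w L^2 ≤ 2 H/(P L^(A+3)) ≤ ν/2` (Cauchy-Schwarz and `SqB` on the whole cell, which is inside `[0, X)`; `L ≥ 100`).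
The number of full cells is `≤ (b-a)/w ≤ 4 L^(A+5)`, so one of them has `‖∑_cell‖ ≥ (ν/2)/(4 L^(A+5)) = H/(16 P L^(2A+5)) ≥ w/(16 L^A)`
(`w ≤ H/(P L^(A+5))`).  `a ≤ c w` and `c w < b` give `i H ≤ c w p < (i+1) H`.
-/

set_option autoImplicit false

namespace Pool.Agent.H53.MID

open Finset
open Pool.Agent.H91.PK (ee)
open Pool.Agent.H35.W (pb)

/-- the length of the cells -/
noncomputable def cw (H P A : ℕ) (L : ℝ) : ℕ := ⌊(H : ℝ) / (P * L ^ (A + 5))⌋₊

private theorem BaseA_norm_ee (t : ℝ) : ‖ee t‖ = 1 := by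
  unfold ee
  have h : (2 * Real.pi * t * Complex.I : ℂ) = ((2 * Real.pi * t : ℝ) : ℂ) * Complex.I := by
    push_cast
    ring
  rw [h, Complex.norm_exp_ofReal_mul_I]

/-- the least `k` with `x ≤ k p` -/
private def BaseA_cl (x p : ℕ) : ℕ := (x + p - 1) / p

private theorem BaseA_cl_le {x p : ℕ} (hp : 0 < p) (k : ℕ) : BaseA_cl x p ≤ k ↔ x ≤ k * p := by
  unfold BaseA_cl
  rw [Nat.div_le_iff_le_mul_add_pred hp]
  rw [mul_comm p k]
  omega

private theorem BaseA_lt_cl {x p : ℕ} (hp : 0 < p) (k : ℕ) : k < BaseA_cl x p ↔ k * p < x := by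
  have h := BaseA_cl_le (x := x) hp k
  omega

private theorem BaseA_cl_mul {x p : ℕ} (hp : 0 < p) :
    x ≤ BaseA_cl x p * p ∧ BaseA_cl x p * p ≤ x + p - 1 :=
  ⟨(BaseA_cl_le hp _).1 le_rfl, Nat.div_mul_le_self _ _⟩

private theorem BaseA_split (f : ℕ → ℝ) (H P i : ℕ) (α : ℝ) :
    Bs (Fp f P) H i α = ∑ p ∈ pb P, ∑ k ∈ Ico (BaseA_cl (i * H) p) (BaseA_cl ((i + 1) * H) p),
      (f k : ℂ) * ee (-(k * (p * α))) := by
  unfold Bs Fp
  have h1 : ∀ m ∈ Ico (i * H) ((i + 1) * H),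
      (((∑ p ∈ (pb P).filter (fun p => p ∣ m), f (m / p) : ℝ)) : ℂ) * ee (-(m * α)) =
        ∑ p ∈ pb P, if p ∣ m then (f (m / p) : ℂ) * ee (-(m * α)) else 0 := by
    intro m _
    push_cast
    rw [Finset.sum_mul, Finset.sum_filter]
  rw [Finset.sum_congr rfl h1, Finset.sum_comm]
  refine Finset.sum_congr rfl fun p hp => ?_
  have hp0 : 0 < p := by
    unfold pb at hp
    exact (Finset.mem_filter.1 hp).2.pos
  rw [← Finset.sum_filter]
  refine Finset.sum_bij' (fun m _ => m / p) (fun k _ => k * p) ?_ ?_ ?_ ?_ ?_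
  · intro m hm
    rw [Finset.mem_filter, Finset.mem_Ico] at hm
    obtain ⟨⟨h1, h2⟩, k, rfl⟩ := hm
    rw [Nat.mul_div_cancel_left _ hp0, Finset.mem_Ico, BaseA_cl_le hp0, BaseA_lt_cl hp0, mul_comm k p]
    exact ⟨h1, h2⟩
  · intro k hk
    rw [Finset.mem_Ico, BaseA_cl_le hp0, BaseA_lt_cl hp0] at hk
    rw [Finset.mem_filter, Finset.mem_Ico]
    exact ⟨hk, Dvd.intro_left k rfl⟩
  · intro m hm
    exact Nat.div_mul_cancel (Finset.mem_filter.1 hm).2
  · intro k _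
    exact Nat.mul_div_cancel _ hp0
  · intro m hm
    obtain ⟨k, rfl⟩ := (Finset.mem_filter.1 hm).2
    rw [Nat.mul_div_cancel_left _ hp0]
    congr 2
    push_cast
    ring

/-- Cauchy-Schwarz on a piece of an interval. -/
private theorem BaseA_CS {f : ℕ → ℝ} {w0 X : ℕ} {L : ℝ} (hf : SqB f w0 X L) {u v w : ℕ}
    (hw : w0 ≤ w) (hv : v ≤ u + w) (hX : u + w ≤ X) (β : ℝ) :
    ‖∑ k ∈ Ico u v, (f k : ℂ) * ee (-(k * β))‖ ≤ w * L ^ 2 := by
  have h1 : ‖∑ k ∈ Ico u v, (f k : ℂ) * ee (-(k * β))‖ ≤ ∑ k ∈ Ico u v, |f k| := by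
    refine (norm_sum_le _ _).trans (Finset.sum_le_sum fun k _ => ?_)
    rw [norm_mul, BaseA_norm_ee, mul_one, Complex.norm_real, Real.norm_eq_abs]
  have hL2 : 0 ≤ L ^ 2 := sq_nonneg L
  have hw0 : (0 : ℝ) ≤ w := Nat.cast_nonneg w
  refine h1.trans ?_
  have h2 : (∑ k ∈ Ico u v, |f k|) ^ 2 ≤ (w * L ^ 2) ^ 2 := by
    have h3 : (∑ k ∈ Ico u v, |f k|) ^ 2 ≤ ((Ico u v).card : ℝ) * ∑ k ∈ Ico u v, |f k| ^ 2 :=
      sq_sum_le_card_mul_sum_sq
    have h4 : ((Ico u v).card : ℝ) ≤ w := by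
      rw [Nat.card_Ico]
      have : v - u ≤ w := by omega
      exact_mod_cast this
    have h5 : ∑ k ∈ Ico u v, |f k| ^ 2 ≤ w * L ^ 4 := by
      refine le_trans ?_ (hf u w hw hX)
      simp only [sq_abs]
      refine Finset.sum_le_sum_of_subset_of_nonneg ?_ fun k _ _ => sq_nonneg _
      intro k hk
      rw [Finset.mem_Ico] at hk ⊢
      omega
    calc (∑ k ∈ Ico u v, |f k|) ^ 2 ≤ ((Ico u v).card : ℝ) * ∑ k ∈ Ico u v, |f k| ^ 2 := h3
      _ ≤ w * (w * L ^ 4) := mul_le_mul h4 h5 (Finset.sum_nonneg fun k _ => sq_nonneg _) hw0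
      _ = (w * L ^ 2) ^ 2 := by ring
  exact (pow_le_pow_iff_left₀ (Finset.sum_nonneg fun k _ => abs_nonneg _) (by positivity)
    two_ne_zero).1 h2

private theorem BaseA_cells (g : ℕ → ℂ) (w c0 n : ℕ) :
    ∑ k ∈ Ico (c0 * w) ((c0 + n) * w), g k =
      ∑ j ∈ range n, ∑ k ∈ Ico ((c0 + j) * w) ((c0 + j) * w + w), g k := by
  induction n with
  | zero => simp
  | succ n ih =>
    rw [Finset.sum_range_succ, ← ih]
    have h1 : (c0 + (n + 1)) * w = (c0 + n) * w + w := by ring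
    rw [h1, Finset.sum_Ico_consecutive _ (Nat.mul_le_mul_right w (Nat.le_add_right c0 n))
      (Nat.le_add_right _ _)]

/-- the numerical facts for one prime -/
private theorem BaseA_num {L : ℝ} {A H P w0 X i p : ℕ} (hL : 100 ≤ L) (hw0 : 1 ≤ w0) (hP : 1 ≤ P)
    (hH : 2 * w0 * P * L ^ (A + 5) ≤ H) (hX : 4 * (i + 1) * H ≤ X) (hp1 : P < p) (hp2 : p ≤ 2 * P) :
    (((BaseA_cl ((i + 1) * H) p : ℝ) - BaseA_cl (i * H) p) * P ≤ 2 * H) ∧
    w0 ≤ cw H P A L ∧ (cw H P A L : ℝ) * P * L ^ (A + 5) ≤ H ∧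
    BaseA_cl (i * H) p + 2 * cw H P A L ≤ BaseA_cl ((i + 1) * H) p ∧
    BaseA_cl ((i + 1) * H) p + cw H P A L ≤ X := by
  have hP0 : (0 : ℝ) < P := by exact_mod_cast hP
  have hL0 : 0 < L := by linarith only [hL]
  have hp0 : 0 < p := by omega
  have hLA : 1 ≤ L ^ A := one_le_pow₀ (by linarith only [hL])
  have hL5 : (10000 : ℝ) ≤ L ^ 5 := by
    calc (10000 : ℝ) ≤ 100 ^ 5 := by norm_num
      _ ≤ L ^ 5 := pow_le_pow_left₀ (by norm_num) hL 5
  have hLA5 : (10000 : ℝ) ≤ L ^ (A + 5) := by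
    rw [pow_add]
    nlinarith only [hLA, hL5]
  have hw0' : (1 : ℝ) ≤ w0 := by exact_mod_cast hw0
  -- `w`
  have hx : (2 * w0 : ℝ) ≤ H / (P * L ^ (A + 5)) := by
    rw [le_div_iff₀ (by positivity)]
    calc (2 * w0 : ℝ) * (P * L ^ (A + 5)) = 2 * w0 * P * L ^ (A + 5) := by ring
      _ ≤ H := hH
  have hw1 : 2 * w0 ≤ cw H P A L := by
    unfold cw
    apply Nat.le_floor
    push_cast
    exact hx
  have hw2 : (cw H P A L : ℝ) * P * L ^ (A + 5) ≤ H := by
    have h1 : (cw H P A L : ℝ) ≤ H / (P * L ^ (A + 5)) := Nat.floor_le (by positivity)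
    rw [le_div_iff₀ (by positivity)] at h1
    linarith only [h1]
  generalize cw H P A L = w at hw1 hw2
  obtain ⟨a1, a2⟩ := BaseA_cl_mul (x := i * H) hp0
  obtain ⟨b1, b2⟩ := BaseA_cl_mul (x := (i + 1) * H) hp0
  have hmono : BaseA_cl (i * H) p ≤ BaseA_cl ((i + 1) * H) p := by
    rw [BaseA_cl_le hp0]
    refine le_trans ?_ b1
    exact Nat.mul_le_mul_right H (Nat.le_succ i)
  have hbX : BaseA_cl ((i + 1) * H) p ≤ (i + 1) * H := by
    rw [BaseA_cl_le hp0]
    exact Nat.le_mul_of_pos_right _ hp0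
  generalize BaseA_cl (i * H) p = a at a1 a2 hmono
  generalize BaseA_cl ((i + 1) * H) p = b at b1 b2 hmono hbX
  have e1 : (i + 1) * H = i * H + H := by ring
  rw [e1] at b1 b2
  have hmono' : (a : ℝ) ≤ b := by exact_mod_cast hmono
  have pR : (P : ℝ) ≤ p := by exact_mod_cast hp1.le
  have pR2 : (p : ℝ) ≤ 2 * P := by exact_mod_cast hp2
  have a1' : (i : ℝ) * H ≤ a * p := by exact_mod_cast a1
  have a2' : (a : ℝ) * p ≤ i * H + p := by
    have : a * p ≤ i * H + p := by omega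
    exact_mod_cast this
  have b1' : (i : ℝ) * H + H ≤ b * p := by exact_mod_cast b1
  have b2' : (b : ℝ) * p ≤ i * H + H + p := by
    have : b * p ≤ i * H + H + p := by omega
    exact_mod_cast this
  have hPH : 20000 * (P : ℝ) ≤ H := by
    have h1 : (P : ℝ) * 10000 ≤ P * L ^ (A + 5) := mul_le_mul_of_nonneg_left hLA5 hP0.le
    have h2 : 2 * (P * L ^ (A + 5)) ≤ 2 * w0 * (P * L ^ (A + 5)) := by
      have : 0 ≤ (P : ℝ) * L ^ (A + 5) := by positivity
      nlinarith only [hw0', h1]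
    linarith only [hH, h1, h2]
  have hwH : 10000 * ((w : ℝ) * P) ≤ H := by
    have h1 : (w : ℝ) * P * 10000 ≤ w * P * L ^ (A + 5) :=
      mul_le_mul_of_nonneg_left hLA5 (by positivity)
    linarith only [hw2, h1]
  refine ⟨?_, by omega, hw2, ?_, ?_⟩
  · have h1 : ((b : ℝ) - a) * P ≤ (b - a) * p := mul_le_mul_of_nonneg_left pR (by linarith only [hmono'])
    have h2 : ((b : ℝ) - a) * p ≤ H + p := by linarith only [a1', b2']
    linarith only [hP0, pR2, a1', b2', hPH, h1]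
  · have h1 : ((b : ℝ) - a) * p ≤ (b - a) * (2 * P) := mul_le_mul_of_nonneg_left pR2 (by linarith only [hmono'])
    have h2 : (H : ℝ) - p ≤ (b - a) * p := by linarith only [a2', b1']
    have h3 : (2 * (w : ℝ)) * (2 * P) ≤ (b - a) * (2 * P) := by linarith only [hP0, pR2, a2', b1', hPH, hwH, h1]
    have h4 : (2 * (w : ℝ)) ≤ b - a := le_of_mul_le_mul_right h3 (by linarith only [hP0])
    have h5 : (a : ℝ) + 2 * w ≤ b := by linarith only [h4]
    exact_mod_cast h5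
  · have h1 : w ≤ H := by
      have h2 : (w : ℝ) ≤ w * P := by
        have : (1 : ℝ) ≤ P := by exact_mod_cast hP
        have h3 : (0 : ℝ) ≤ w := Nat.cast_nonneg w
        nlinarith only [this]
      have h3 : (0 : ℝ) ≤ w * P := by positivity
      have h4 : (w : ℝ) ≤ H := by linarith only [hP0, hPH, hwH, h2]
      exact_mod_cast h4
    have h2 : H ≤ (i + 1) * H := Nat.le_mul_of_pos_left H (Nat.succ_pos i)
    have h3 : 4 * (i + 1) * H = 4 * ((i + 1) * H) := by ring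
    omega

/-- a cell with a large sum -/
private theorem BaseA_cell {L : ℝ} {A H P w0 X i p : ℕ} {f : ℕ → ℝ} (α : ℝ) (hL : 100 ≤ L)
    (hw0 : 1 ≤ w0) (hP : 1 ≤ P)
    (hH : 2 * w0 * P * L ^ (A + 5) ≤ H) (hf : SqB f w0 X L) (hX : 4 * (i + 1) * H ≤ X)
    (hp1 : P < p) (hp2 : p ≤ 2 * P)
    (hbig : (H : ℝ) ≤ 2 * (P * L ^ A) * ‖∑ k ∈ Ico (BaseA_cl (i * H) p) (BaseA_cl ((i + 1) * H) p),
      (f k : ℂ) * ee (-(k * (p * α)))‖) :
    ∃ c : ℕ, i * H ≤ c * cw H P A L * p ∧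
      c * cw H P A L * p < (i + 1) * H ∧ (cw H P A L : ℝ) / (16 * L ^ A) ≤
        ‖∑ k ∈ Ico (c * cw H P A L) (c * cw H P A L + cw H P A L), (f k : ℂ) * ee (-(k * (p * α)))‖ := by
  obtain ⟨n1, n2, n3, n4, n5⟩ := BaseA_num hL hw0 hP hH hX hp1 hp2
  have hp0 : 0 < p := by omega
  have hP0 : (0 : ℝ) < P := by exact_mod_cast hP
  have hL0 : 0 < L := by linarith only [hL]
  by_contra hcon
  have hcell : ∀ c : ℕ, BaseA_cl (i * H) p ≤ c * cw H P A L →
      c * cw H P A L < BaseA_cl ((i + 1) * H) p →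
      ‖∑ k ∈ Ico (c * cw H P A L) (c * cw H P A L + cw H P A L),
        (f k : ℂ) * ee (-(k * (p * α)))‖ ≤ (cw H P A L : ℝ) / (16 * L ^ A) := by
    intro c h1 h2
    by_contra hc
    exact hcon ⟨c, (BaseA_cl_le hp0 _).1 h1, (BaseA_lt_cl hp0 _).1 h2, (not_le.1 hc).le⟩
  generalize cw H P A L = w at n2 n3 n4 n5 hcell
  generalize BaseA_cl (i * H) p = a at n1 n4 hbig hcell
  generalize BaseA_cl ((i + 1) * H) p = b at n1 n4 n5 hbig hcell
  have hw1 : 0 < w := by omega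
  obtain ⟨c1, c2⟩ := BaseA_cl_mul (x := a) hw1
  set c0 := BaseA_cl a w with hc0
  set n := b / w - c0 with hn
  have c3 : b / w * w ≤ b := Nat.div_mul_le_self b w
  have c4 : b < b / w * w + w := by
    have := Nat.lt_div_mul_add hw1 (a := b)
    omega
  have c5 : c0 ≤ b / w := by
    have h1 : c0 * w < b / w * w := by omega
    exact (lt_of_mul_lt_mul_right h1 (Nat.zero_le w)).le
  have c6 : c0 + n = b / w := by omega
  set g : ℕ → ℂ := fun k => (f k : ℂ) * ee (-(k * (p * α))) with hg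
  have s0 : ∑ k ∈ Ico a b, g k = ∑ k ∈ Ico a (c0 * w), g k +
      ∑ k ∈ Ico (c0 * w) ((c0 + n) * w), g k + ∑ k ∈ Ico ((c0 + n) * w) b, g k := by
    rw [c6, Finset.sum_Ico_consecutive _ c1 (Nat.mul_le_mul_right w c5),
      Finset.sum_Ico_consecutive _ (c1.trans (Nat.mul_le_mul_right w c5)) c3]
  have s1 : ‖∑ k ∈ Ico a (c0 * w), g k‖ ≤ w * L ^ 2 :=
    BaseA_CS hf n2 (by omega) (by omega) (p * α)
  have s3 : ‖∑ k ∈ Ico ((c0 + n) * w) b, g k‖ ≤ w * L ^ 2 := by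
    rw [c6]
    exact BaseA_CS hf n2 (by omega) (by omega) (p * α)
  have s2 : ‖∑ k ∈ Ico (c0 * w) ((c0 + n) * w), g k‖ ≤ n * ((w : ℝ) / (16 * L ^ A)) := by
    rw [BaseA_cells]
    refine (norm_sum_le _ _).trans ?_
    calc ∑ j ∈ range n, ‖∑ k ∈ Ico ((c0 + j) * w) ((c0 + j) * w + w), g k‖
        ≤ ∑ _j ∈ range n, ((w : ℝ) / (16 * L ^ A)) := by
          refine Finset.sum_le_sum fun j hj => ?_
          rw [Finset.mem_range] at hj
          refine hcell (c0 + j) ?_ ?_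
          · exact c1.trans (Nat.mul_le_mul_right w (Nat.le_add_right c0 j))
          · have h1 : (c0 + j) * w < (b / w) * w := by
              refine Nat.mul_lt_mul_of_pos_right ?_ hw1
              omega
            omega
      _ = _ := by rw [Finset.sum_const, nsmul_eq_mul, Finset.card_range]
  have s4 : ‖∑ k ∈ Ico a b, g k‖ ≤ 2 * (w * L ^ 2) + n * ((w : ℝ) / (16 * L ^ A)) := by
    rw [s0]
    calc _ ≤ w * L ^ 2 + n * ((w : ℝ) / (16 * L ^ A)) + w * L ^ 2 :=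
          (norm_add_le _ _).trans (add_le_add ((norm_add_le _ _).trans (add_le_add s1 s2)) s3)
      _ = _ := by ring
  have t1 : (n : ℝ) * w ≤ b - a := by
    have h1 : n * w + a ≤ b := by
      have h2 : n * w + c0 * w = b / w * w := by rw [← Nat.add_mul, add_comm n c0, c6]
      omega
    have h2 : (n : ℝ) * w + a ≤ b := by exact_mod_cast h1
    linarith only [h2]
  have t2 : 2 * (P * L ^ A) * (n * ((w : ℝ) / (16 * L ^ A))) ≤ H / 4 := by
    have h1 : 2 * (P * L ^ A) * (n * ((w : ℝ) / (16 * L ^ A))) = (n * w) * P / 8 := by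
      field_simp
      ring
    rw [h1]
    have h2 : (n : ℝ) * w * P ≤ (b - a) * P := mul_le_mul_of_nonneg_right t1 hP0.le
    linarith only [n1, h2]
  have t3 : 2 * (P * L ^ A) * (2 * (w * L ^ 2)) ≤ H / 4 := by
    have h1 : (w : ℝ) * P * L ^ (A + 5) = (w * P * L ^ A * L ^ 2) * L ^ 3 := by ring
    have h2 : (1000000 : ℝ) ≤ L ^ 3 := by
      calc (1000000 : ℝ) = 100 ^ 3 := by norm_num
        _ ≤ L ^ 3 := pow_le_pow_left₀ (by norm_num) hL 3
    have h3 : (w * P * L ^ A * L ^ 2) * 1000000 ≤ (w * P * L ^ A * L ^ 2) * L ^ 3 :=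
      mul_le_mul_of_nonneg_left h2 (by positivity)
    have h4 : 0 ≤ (w : ℝ) * P * L ^ A * L ^ 2 := by positivity
    have h5 : 2 * (P * L ^ A) * (2 * (w * L ^ 2)) = 4 * (w * P * L ^ A * L ^ 2) := by ring
    rw [h5]
    linarith only [n3, h1, h3]
  have t4 : (H : ℝ) ≤ H / 4 + H / 4 := by
    have h1 : 2 * (P * L ^ A) * ‖∑ k ∈ Ico a b, g k‖ ≤
        2 * (P * L ^ A) * (2 * (w * L ^ 2) + n * ((w : ℝ) / (16 * L ^ A))) :=
      mul_le_mul_of_nonneg_left s4 (by positivity)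
    rw [mul_add] at h1
    linarith only [hbig, t2, t3, h1]
  have t5 : (0 : ℝ) < H := by
    have : (0 : ℝ) < 2 * w0 * P * L ^ (A + 5) := by
      have : (1 : ℝ) ≤ w0 := by exact_mod_cast hw0
      positivity
    linarith only [hH, t4, this]
  linarith only [t4, t5]

open Classical in
theorem base_a (L : ℝ) (A H P w0 X i : ℕ) (f : ℕ → ℝ) (α : ℝ) (hL : 100 ≤ L) (hw0 : 1 ≤ w0) (hP : 1 ≤ P)
    (hH : 2 * w0 * P * L ^ (A + 5) ≤ H) (hf : SqB f w0 X L) (hX : 4 * (i + 1) * H ≤ X)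
    (hbig : H / L ^ A ≤ ‖Bs (Fp f P) H i α‖) :
    P / (4 * L ^ (A + 2)) ≤ (((pb P).filter (fun p : ℕ => ∃ c : ℕ, i * H ≤ c * cw H P A L * p ∧
      c * cw H P A L * p < (i + 1) * H ∧ (cw H P A L : ℝ) / (16 * L ^ A) ≤
        ‖∑ k ∈ Ico (c * cw H P A L) (c * cw H P A L + cw H P A L), (f k : ℂ) * ee (-(k * (p * α)))‖)).card : ℝ) := by
  have hP0 : (0 : ℝ) < P := by exact_mod_cast hP
  have hL0 : 0 < L := by linarith only [hL]
  set G := (pb P).filter (fun p : ℕ => ∃ c : ℕ, i * H ≤ c * cw H P A L * p ∧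
      c * cw H P A L * p < (i + 1) * H ∧ (cw H P A L : ℝ) / (16 * L ^ A) ≤
        ‖∑ k ∈ Ico (c * cw H P A L) (c * cw H P A L + cw H P A L), (f k : ℂ) * ee (-(k * (p * α)))‖)
    with hG
  rw [BaseA_split] at hbig
  have hH0 : (0 : ℝ) < H := by
    have h1 : (0 : ℝ) < 2 * w0 * P * L ^ (A + 5) := by
      have : (1 : ℝ) ≤ w0 := by exact_mod_cast hw0
      positivity
    linarith only [hH, h1]
  have hterm : ∀ p ∈ pb P, ‖∑ k ∈ Ico (BaseA_cl (i * H) p) (BaseA_cl ((i + 1) * H) p),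
      (f k : ℂ) * ee (-(k * (p * α)))‖ ≤ (if p ∈ G then 2 * H * L ^ 2 / P else 0) +
        H / (2 * (P * L ^ A)) := by
    intro p hp
    have hp' := hp
    unfold pb at hp'
    rw [Finset.mem_filter, Finset.mem_Ioc] at hp'
    obtain ⟨⟨hp1, hp2⟩, _⟩ := hp'
    have hν : 0 ≤ (H : ℝ) / (2 * (P * L ^ A)) := by positivity
    split_ifs with hpG
    · obtain ⟨n1, n2, n3, n4, n5⟩ := BaseA_num hL hw0 hP hH hX hp1 hp2
      have h1 := BaseA_CS hf (u := BaseA_cl (i * H) p) (v := BaseA_cl ((i + 1) * H) p)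
        (w := BaseA_cl ((i + 1) * H) p - BaseA_cl (i * H) p) (by omega) (by omega) (by omega) (p * α)
      have h2 : ((BaseA_cl ((i + 1) * H) p - BaseA_cl (i * H) p : ℕ) : ℝ) * L ^ 2 ≤
          2 * H * L ^ 2 / P := by
        rw [Nat.cast_sub (by omega), le_div_iff₀ hP0]
        calc ((BaseA_cl ((i + 1) * H) p : ℝ) - BaseA_cl (i * H) p) * L ^ 2 * P =
            (((BaseA_cl ((i + 1) * H) p : ℝ) - BaseA_cl (i * H) p) * P) * L ^ 2 := by ring
          _ ≤ 2 * H * L ^ 2 := mul_le_mul_of_nonneg_right n1 (by positivity)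
      linarith only [hν, h1, h2]
    · rw [zero_add, le_div_iff₀ (by positivity)]
      by_contra hc
      apply hpG
      rw [hG, Finset.mem_filter]
      refine ⟨hp, BaseA_cell α hL hw0 hP hH hf hX hp1 hp2 ?_⟩
      have := (not_le.1 hc).le
      linarith only [hc]
  have hsum : (H : ℝ) / L ^ A ≤ G.card * (2 * H * L ^ 2 / P) + P * (H / (2 * (P * L ^ A))) := by
    refine hbig.trans ((norm_sum_le _ _).trans ((Finset.sum_le_sum hterm).trans ?_))
    rw [Finset.sum_add_distrib]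
    refine add_le_add (le_of_eq ?_) ?_
    · rw [← Finset.sum_filter, Finset.sum_const, nsmul_eq_mul]
      congr 2
      congr 1
      ext p
      rw [Finset.mem_filter]
      exact ⟨fun h => h.2, fun h => ⟨(Finset.mem_filter.1 h).1, h⟩⟩
    · rw [Finset.sum_const, nsmul_eq_mul]
      refine mul_le_mul_of_nonneg_right ?_ (by positivity)
      unfold pb
      have h1 := Finset.card_filter_le (Ioc P (2 * P)) Nat.Prime
      rw [Nat.card_Ioc] at h1
      have h2 : ((Ioc P (2 * P)).filter Nat.Prime).card ≤ P := by omega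
      exact_mod_cast h2
  have e1 : (P : ℝ) * (H / (2 * (P * L ^ A))) = (H / L ^ A) / 2 := by
    field_simp
  rw [e1] at hsum
  have e2 : (H / L ^ A) / 2 ≤ G.card * (2 * H * L ^ 2 / P) := by linarith only [hsum]
  rw [div_le_iff₀ (by positivity)]
  have e3 : (H / L ^ A) / 2 * (2 * P * L ^ A / H) ≤
      G.card * (2 * H * L ^ 2 / P) * (2 * P * L ^ A / H) :=
    mul_le_mul_of_nonneg_right e2 (by positivity)
  have e4 : (H / L ^ A) / 2 * (2 * P * L ^ A / H) = P := by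
    field_simp
  have e5 : G.card * (2 * H * L ^ 2 / P) * (2 * P * L ^ A / H) = G.card * (4 * L ^ (A + 2)) := by
    rw [pow_add]
    field_simp
    ring
  rw [e4, e5] at e3
  exact e3

end Pool.Agent.H53.MID

end

section

/-!
# MID Base: the base relation

Proof.  `w = cw H P A L`; `w ≥ H/(2 P L^(A+5))`, `w ≥ w0 ≥ 1`.  For every cell `c` with `(c+1) w ≤ X` let `Γ c` be the net of `net` with `u = c w`, `ν = w/(16 L^A)`, `S = w L^4`:
`|Γ c| ≤ 5 · 256 L^(2A+4)`.  For `g : ℕ` let `B g` be the union of the `Γ c` over the `c` with `g ≤ c w P/H < g + 1`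
(at most `H/(w P) + 1 ≤ 2 L^(A+5) + 1` values): `|B g| ≤ 1280 L^(2A+4) · 3 L^(A+5)`.
For `i ∈ F0` and `p` in the set of `base_a`: `c` as there, `g = ⌊c w P/H⌋`: `i P/p ≤ c w P/H < (i+1) P/p`, so `|g - i P/p| ≤ 1`, `|g p - i P| ≤ p ≤ 2P`,
`g ≥ n/(2C) - 1 ≥ n/(3C)`, `g ≤ C n + 1 ≤ 3 C n`; some `β ∈ B g` has `nz (p α_i - β) ≤ 1/w`.
Let `N(g, β)` be the set of the `(i,p)` with the chosen `g(i,p) = g` and `nz (p α_i - β) ≤ 1/w`.  `∑_{g} ∑_{β ∈ B g} |N(g,β)| ≥ |F0| P/(4 L^(A+2))`.  For every `g` with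
`B g ≠ ∅` let `β_g ∈ B g` maximise `|N(g, β)|`; then `∑_g |N(g, β_g)| ≥ |F0| P/(4 L^(A+2))/(3840 L^(3A+9))`.
`R0 = {(i, p, g) : (i,p) ∈ N(g, β_g)}`, `G0` = the `g` that occur; `1/w ≤ 2 P L^(A+5)/H = η P`.  `|F0| ≥ n/L^A`; `15360 ≤ L^3`: `C0 = 5A + 14`.
-/

set_option autoImplicit false

namespace Pool.Agent.H53.MID

open Finset
open Pool.Agent.H91.PK (ee)
open Pool.Agent.H35.W (pb)

/-- pigeonhole: choose for each `g` the most popular value -/
private theorem Base_pigeon {T : Type*} [DecidableEq T] (T0 : Finset T) (g : T → ℕ) (b : T → ℝ) (B : ℕ → Finset ℝ) (K : ℝ)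
    (hK : 0 < K) (hb : ∀ t ∈ T0, b t ∈ B (g t)) (hB : ∀ n, ((B n).card : ℝ) ≤ K) :
    ∃ β : ℕ → ℝ, (T0.card : ℝ) / K ≤ ((T0.filter (fun t => b t = β (g t))).card : ℝ) := by
  classical
  have h1 : ∀ n : ℕ, ∃ y : ℝ, ((T0.filter (fun t => g t = n)).card : ℝ) / K ≤
      (((T0.filter (fun t => g t = n)).filter (fun t => b t = y)).card : ℝ) := by
    intro n
    by_cases hne : (T0.filter (fun t => g t = n)).Nonempty
    · obtain ⟨t, ht⟩ := hne
      rw [Finset.mem_filter] at ht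
      have hBne : (B n).Nonempty := ⟨b t, by have := hb t ht.1; rwa [ht.2] at this⟩
      have hmap : ∀ a ∈ T0.filter (fun t => g t = n), b a ∈ B n := by
        intro a ha
        rw [Finset.mem_filter] at ha
        have := hb a ha.1
        rwa [ha.2] at this
      have hle : (B n).card • (((T0.filter (fun t => g t = n)).card : ℝ) / K) ≤
          ((T0.filter (fun t => g t = n)).card : ℝ) := by
        rw [nsmul_eq_mul]
        calc ((B n).card : ℝ) * (((T0.filter (fun t => g t = n)).card : ℝ) / K)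
            ≤ K * (((T0.filter (fun t => g t = n)).card : ℝ) / K) :=
              mul_le_mul_of_nonneg_right (hB n) (by positivity)
          _ = _ := by field_simp
      obtain ⟨y, _, hy⟩ := Finset.exists_le_card_fiber_of_nsmul_le_card_of_maps_to hmap hBne hle
      exact ⟨y, hy⟩
    · rw [Finset.not_nonempty_iff_eq_empty] at hne
      refine ⟨0, ?_⟩
      rw [hne]
      simp
  choose β hβ using h1
  refine ⟨β, ?_⟩
  have e1 : (T0.card : ℝ) = ∑ n ∈ T0.image g, ((T0.filter (fun t => g t = n)).card : ℝ) := by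
    rw [← Nat.cast_sum, ← Finset.card_eq_sum_card_image]
  have e2 : ((T0.filter (fun t => b t = β (g t))).card : ℝ) =
      ∑ n ∈ T0.image g, (((T0.filter (fun t => g t = n)).filter (fun t => b t = β n)).card : ℝ) := by
    rw [← Nat.cast_sum]
    congr 1
    rw [Finset.card_eq_sum_card_fiberwise (f := g) (t := T0.image g)]
    · refine Finset.sum_congr rfl fun n _ => ?_
      congr 1
      ext t
      simp only [Finset.mem_filter]
      constructor
      · rintro ⟨⟨h1, h2⟩, h3⟩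
        exact ⟨⟨h1, h3⟩, by rw [← h3]; exact h2⟩
      · rintro ⟨⟨h1, h2⟩, h3⟩
        exact ⟨⟨h1, by rw [h2]; exact h3⟩, h2⟩
    · intro t ht
      rw [Finset.mem_coe, Finset.mem_filter] at ht
      exact Finset.mem_coe.2 (Finset.mem_image_of_mem g ht.1)
  rw [e1, e2, Finset.sum_div]
  exact Finset.sum_le_sum fun n _ => hβ n

theorem base (C : ℝ) (hC : 1 ≤ C) (A : ℕ) (L : ℝ) (n H P w0 X : ℕ) (f : ℕ → ℝ) (F0 : Finset ℕ) (α : ℕ → ℝ)
    (hL : 100 ≤ L) (hn : 100 * C ≤ n) (hw0 : 1 ≤ w0) (hP : 1 ≤ P) (hH : 2 * w0 * P * L ^ (A + 5) ≤ H)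
    (hf : SqB f w0 X L) (hX : 8 * C * n * H ≤ X) (hF : ∀ i ∈ F0, (n : ℝ) / C ≤ i ∧ (i : ℝ) ≤ C * n)
    (hcard : n / L ^ A ≤ (F0.card : ℝ)) (hbig : ∀ i ∈ F0, H / L ^ A ≤ ‖Bs (Fp f P) H i (α i)‖) :
    ∃ (G0 : Finset ℕ) (β : ℕ → ℝ) (R0 : Finset (ℕ × ℕ × ℕ)),
      Rel (3 * C) n P (2 * L ^ (A + 5) / H * P) F0 G0 α β R0 ∧ n * P / L ^ (5 * A + 14) ≤ (R0.card : ℝ) := by
  classical
  have hL0 : (0 : ℝ) < L := by linarith only [hL]
  have hP1 : (1 : ℝ) ≤ P := by exact_mod_cast hP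
  have hP0 : (0 : ℝ) < P := by linarith
  have hC0 : 0 < C := by linarith
  have hLA : 0 < L ^ (A + 5) := by positivity
  have hLA1 : 1 ≤ L ^ (A + 5) := one_le_pow₀ (by linarith)
  have hw0' : (1 : ℝ) ≤ w0 := by exact_mod_cast hw0
  have hn0 : (0 : ℝ) < n := by linarith
  have hq : 2 * (w0 : ℝ) ≤ (H : ℝ) / (P * L ^ (A + 5)) := by
    rw [le_div_iff₀ (by positivity)]
    calc 2 * (w0 : ℝ) * (P * L ^ (A + 5)) = 2 * w0 * P * L ^ (A + 5) := by ring
      _ ≤ H := hH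
  have hH0 : (0 : ℝ) < H := lt_of_lt_of_le (by positivity) hH
  have hH0' : 0 < H := by exact_mod_cast hH0
  obtain ⟨w, hw⟩ : ∃ w, w = cw H P A L := ⟨_, rfl⟩
  have hwdef : w = ⌊(H : ℝ) / (P * L ^ (A + 5))⌋₊ := by rw [hw, cw]
  have hwge : (H : ℝ) / (P * L ^ (A + 5)) / 2 ≤ w := by
    have h := Nat.lt_floor_add_one ((H : ℝ) / (P * L ^ (A + 5)))
    rw [← hwdef] at h
    linarith only [hw0', hq, h]
  have hwle : (w : ℝ) ≤ (H : ℝ) / (P * L ^ (A + 5)) := by
    rw [hwdef]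
    exact Nat.floor_le (by positivity)
  have hww0 : w0 ≤ w := by
    rw [hwdef]
    apply Nat.le_floor
    linarith only [hw0', hq]
  have hw1 : 1 ≤ w := hw0.trans hww0
  have hwR : (1 : ℝ) ≤ w := by exact_mod_cast hw1
  have hwH : (w : ℝ) ≤ H := by
    refine hwle.trans (div_le_self hH0.le ?_)
    nlinarith only [hP1, hLA1]
  have hwinv : 1 / (w : ℝ) ≤ 2 * L ^ (A + 5) / H * P := by
    rw [div_le_iff₀ (by linarith only [hw0', hq, hwge])]
    have h1 : 2 * L ^ (A + 5) / H * P * ((H : ℝ) / (P * L ^ (A + 5)) / 2) = 1 := by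
      field_simp
    rw [← h1]
    exact mul_le_mul_of_nonneg_left hwge (by positivity)
  -- the nets
  have hnet : ∀ c : ℕ, ∃ Γ : Finset ℝ, (Γ.card : ℝ) ≤ 1280 * L ^ (2 * A + 4) ∧
      (c * w + w ≤ X → ∀ γ : ℝ, (w : ℝ) / (16 * L ^ A) ≤
        ‖∑ k ∈ Ico (c * w) (c * w + w), (f k : ℂ) * ee (-(k * γ))‖ → ∃ β ∈ Γ, nz (γ - β) ≤ 1 / w) := by
    intro c
    by_cases h : c * w + w ≤ X
    · obtain ⟨Γ, h1, h2⟩ := net f (c * w) w hw1 (w / (16 * L ^ A)) (w * L ^ 4) (by positivity) (hf _ _ hww0 h)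
      refine ⟨Γ, h1.trans (le_of_eq ?_), fun _ => h2⟩
      have hw' : (w : ℝ) ≠ 0 := by linarith only [hw0', hq, hwge]
      rw [div_pow, div_div_eq_mul_div, div_eq_iff (by positivity)]
      ring
    · exact ⟨∅, by simp; positivity, fun h' => absurd h' h⟩
  choose Γ hΓ1 hΓ2 using hnet
  let S : ℕ → Finset ℕ := fun g => (range ((g + 1) * H)).filter
    (fun c => g * H ≤ c * w * P ∧ c * w * P < (g + 1) * H)
  let B : ℕ → Finset ℝ := fun g => (S g).biUnion Γ
  have hM : (0 : ℝ) < w * P := by positivity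
  have hScard : ∀ g, ((S g).card : ℝ) ≤ 3 * L ^ (A + 5) := by
    intro g
    have hsub : S g ⊆ Ico ⌈(g : ℝ) * H / (w * P)⌉₊ ⌈((g : ℝ) + 1) * H / (w * P)⌉₊ := by
      intro c hc
      simp only [S, Finset.mem_filter] at hc
      obtain ⟨_, h1, h2⟩ := hc
      rw [Finset.mem_Ico, Nat.ceil_le, Nat.lt_ceil]
      have h1' : (g : ℝ) * H ≤ c * w * P := by exact_mod_cast h1
      have h2' : (c : ℝ) * w * P < (g + 1) * H := by exact_mod_cast h2
      constructor
      · rw [div_le_iff₀ hM]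
        linarith only [h1']
      · rw [lt_div_iff₀ hM]
        linarith only [h2']
    have h3 := Finset.card_le_card hsub
    rw [Nat.card_Ico] at h3
    have h4 : ⌈(g : ℝ) * H / (w * P)⌉₊ ≤ ⌈((g : ℝ) + 1) * H / (w * P)⌉₊ := by
      apply Nat.ceil_mono
      apply div_le_div_of_nonneg_right _ hM.le
      nlinarith only [hH0]
    have h5 : ((S g).card : ℝ) ≤ (⌈((g : ℝ) + 1) * H / (w * P)⌉₊ : ℝ) - ⌈(g : ℝ) * H / (w * P)⌉₊ := by
      rw [← Nat.cast_sub h4]
      exact_mod_cast h3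
    have h6 : (⌈((g : ℝ) + 1) * H / (w * P)⌉₊ : ℝ) < ((g : ℝ) + 1) * H / (w * P) + 1 :=
      Nat.ceil_lt_add_one (by positivity)
    have h7 : (g : ℝ) * H / (w * P) ≤ ⌈(g : ℝ) * H / (w * P)⌉₊ := Nat.le_ceil _
    have h8 : ((g : ℝ) + 1) * H / (w * P) = (g : ℝ) * H / (w * P) + H / (w * P) := by ring
    have h9 : (H : ℝ) / (w * P) ≤ 2 * L ^ (A + 5) := by
      rw [div_le_iff₀ hM]
      have h10 : 2 * L ^ (A + 5) * (((H : ℝ) / (P * L ^ (A + 5)) / 2) * P) = H := by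
        field_simp
      rw [← h10]
      apply mul_le_mul_of_nonneg_left _ (by positivity)
      exact mul_le_mul_of_nonneg_right hwge hP0.le
    linarith only [hLA1, h5, h6, h7, h8, h9]
  have hBcard : ∀ g, ((B g).card : ℝ) ≤ 3840 * L ^ (3 * A + 9) := by
    intro g
    have h1 : ((B g).card : ℝ) ≤ ∑ c ∈ S g, ((Γ c).card : ℝ) := by
      exact_mod_cast Finset.card_biUnion_le
    refine h1.trans ?_
    calc ∑ c ∈ S g, ((Γ c).card : ℝ) ≤ ∑ _c ∈ S g, 1280 * L ^ (2 * A + 4) := Finset.sum_le_sum fun c _ => hΓ1 c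
      _ = (S g).card * (1280 * L ^ (2 * A + 4)) := by rw [Finset.sum_const, nsmul_eq_mul]
      _ ≤ (3 * L ^ (A + 5)) * (1280 * L ^ (2 * A + 4)) := mul_le_mul_of_nonneg_right (hScard g) (by positivity)
      _ = 3840 * L ^ (3 * A + 9) := by ring
  -- the pairs
  let Q : ℕ → ℕ → Prop := fun i p => ∃ c : ℕ, i * H ≤ c * w * p ∧ c * w * p < (i + 1) * H ∧
    (w : ℝ) / (16 * L ^ A) ≤ ‖∑ k ∈ Ico (c * w) (c * w + w), (f k : ℂ) * ee (-(k * (p * α i)))‖
  let T0 : Finset (ℕ × ℕ) := (F0 ×ˢ pb P).filter (fun t => Q t.1 t.2)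
  have hipos : ∀ i ∈ F0, (100 : ℝ) ≤ i := by
    intro i hi
    have h1 := (hF i hi).1
    have h2 : 100 ≤ (n : ℝ) / C := by
      rw [le_div_iff₀ hC0]
      exact hn
    linarith only [h1, h2]
  have hT0card : (F0.card : ℝ) * (P / (4 * L ^ (A + 2))) ≤ T0.card := by
    have h1 : (T0.card : ℝ) = ∑ i ∈ F0, (((pb P).filter (fun p => Q i p)).card : ℝ) := by
      simp only [T0]
      rw [Finset.card_filter, Finset.sum_product, Nat.cast_sum]
      refine Finset.sum_congr rfl fun i _ => ?_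
      rw [Finset.card_filter]
    rw [h1, ← nsmul_eq_mul, ← Finset.sum_const]
    refine Finset.sum_le_sum fun i hi => ?_
    have h2 : 4 * (i + 1) * H ≤ X := by
      have h3 := hipos i hi
      have h4 := (hF i hi).2
      have h5 : (4 : ℝ) * (i + 1) * H ≤ X := by
        refine le_trans ?_ hX
        have h6 : 4 * ((i : ℝ) + 1) ≤ 8 * C * n := by linarith only [h3, h4]
        exact mul_le_mul_of_nonneg_right h6 hH0.le
      exact_mod_cast h5
    have h3 := base_a L A H P w0 X i f (α i) hL hw0 hP hH hf h2 (hbig i hi)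
    rw [← hw] at h3
    convert h3
  have key : ∀ t ∈ T0, ∃ (g : ℕ) (b : ℝ), b ∈ B g ∧ |(g : ℝ) * t.2 - t.1 * P| ≤ 3 * C * P ∧
      nz (t.2 * α t.1 - b) ≤ 1 / w ∧ (n : ℝ) / (3 * C) ≤ g ∧ (g : ℝ) ≤ 3 * C * n := by
    rintro ⟨i, p⟩ ht
    simp only [T0, Finset.mem_filter, Finset.mem_product] at ht
    obtain ⟨⟨hi, hp⟩, c, hc1, hc2, hc3⟩ := ht
    simp only
    have hp' : P < p ∧ p ≤ 2 * P := by
      unfold pb at hp
      rw [Finset.mem_filter, Finset.mem_Ioc] at hp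
      exact hp.1
    have hpP : (P : ℝ) < p := by exact_mod_cast hp'.1
    have hp2 : (p : ℝ) ≤ 2 * P := by exact_mod_cast hp'.2
    have hp0 : (0 : ℝ) < p := by linarith only [hP1, hpP]
    obtain ⟨g, hg⟩ : ∃ g, g = c * w * P / H := ⟨_, rfl⟩
    have hg1 : g * H ≤ c * w * P := by
      rw [hg]
      exact Nat.div_mul_le_self _ _
    have hg2 : c * w * P < (g + 1) * H := by
      rw [hg, mul_comm _ H]
      exact Nat.lt_mul_div_succ _ hH0'
    have hcS : c ∈ S g := by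
      simp only [S, Finset.mem_filter, Finset.mem_range]
      refine ⟨lt_of_le_of_lt ?_ hg2, hg1, hg2⟩
      calc c = c * 1 * 1 := by ring
        _ ≤ c * w * P := Nat.mul_le_mul (Nat.mul_le_mul_left _ hw1) hP
    have hi1 := hipos i hi
    have hi2 := (hF i hi).1
    have hi3 := (hF i hi).2
    have hc1' : (i : ℝ) * H ≤ c * w * p := by exact_mod_cast hc1
    have hc2' : (c : ℝ) * w * p < (i + 1) * H := by exact_mod_cast hc2
    have hg1' : (g : ℝ) * H ≤ c * w * P := by exact_mod_cast hg1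
    have hg2' : (c : ℝ) * w * P < (g + 1) * H := by exact_mod_cast hg2
    have hcX : c * w + w ≤ X := by
      have h1 : (c : ℝ) * w ≤ c * w * p := by
        have : (0 : ℝ) ≤ (c : ℝ) * w := by positivity
        nlinarith only [hP1, this, hpP]
      have h2 : (c : ℝ) * w + w ≤ X := by
        have h3 : ((i : ℝ) + 2) * H ≤ 8 * C * n * H := by
          apply mul_le_mul_of_nonneg_right _ hH0.le
          linarith only [hi1, hi3]
        linarith only [hX, hwH, hc2', h1, h3]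
      exact_mod_cast h2
    obtain ⟨b, hb1, hb2⟩ := hΓ2 c hcX _ hc3
    have k1 : (g : ℝ) * p < (i + 1) * P := by
      have h1 : (g : ℝ) * p * H < (i + 1) * P * H := by
        calc (g : ℝ) * p * H = (g * H) * p := by ring
          _ ≤ (c * w * P) * p := mul_le_mul_of_nonneg_right hg1' hp0.le
          _ = (c * w * p) * P := by ring
          _ < ((i + 1) * H) * P := mul_lt_mul_of_pos_right hc2' hP0
          _ = (i + 1) * P * H := by ring
      exact lt_of_mul_lt_mul_right h1 hH0.le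
    have k2 : (i : ℝ) * P < (g + 1) * p := by
      have h1 : (i : ℝ) * P * H < (g + 1) * p * H := by
        calc (i : ℝ) * P * H = (i * H) * P := by ring
          _ ≤ (c * w * p) * P := mul_le_mul_of_nonneg_right hc1' hP0.le
          _ = (c * w * P) * p := by ring
          _ < ((g + 1) * H) * p := mul_lt_mul_of_pos_right hg2' hp0
          _ = (g + 1) * p * H := by ring
      exact lt_of_mul_lt_mul_right h1 hH0.le
    refine ⟨g, b, Finset.mem_biUnion.2 ⟨c, hcS, hb1⟩, ?_, hb2, ?_, ?_⟩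
    · rw [abs_le]
      have h3C : 3 * (P : ℝ) ≤ 3 * C * P := by nlinarith only [hC]
      constructor
      · linarith only [hP1, hp2, k2, h3C]
      · linarith only [hP1, k1, h3C]
    · have h1 : (i : ℝ) < 2 * (g + 1) := by
        have h2 : (i : ℝ) * P < 2 * (g + 1) * P := by
          have h3 : ((g : ℝ) + 1) * p ≤ (g + 1) * (2 * P) := mul_le_mul_of_nonneg_left hp2 (by positivity)
          linarith only [k2, h3]
        exact lt_of_mul_lt_mul_right h2 hP0.le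
      have h2 : (n : ℝ) / (3 * C) + 1 ≤ (n : ℝ) / C / 2 := by
        have h3 : 100 ≤ (n : ℝ) / C := by
          rw [le_div_iff₀ hC0]
          exact hn
        have h4 : (n : ℝ) / (3 * C) = n / C / 3 := by
          field_simp
        rw [h4]
        linarith only [h3]
      linarith only [hi2, h1, h2]
    · have h1 : (g : ℝ) < i + 1 := by
        have h2 : (g : ℝ) * P < (i + 1) * P := by
          have h3 : (g : ℝ) * P ≤ g * p := mul_le_mul_of_nonneg_left hpP.le (by positivity)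
          linarith only [k1, h3]
        exact lt_of_mul_lt_mul_right h2 hP0.le
      linarith only [hi1, hi3, h1]
  choose! g b hgb using key
  obtain ⟨β, hβ⟩ := Base_pigeon T0 g b B (3840 * L ^ (3 * A + 9)) (by positivity) (fun t ht => (hgb t ht).1) hBcard
  have hmem : ∀ s ∈ (T0.filter (fun t => b t = β (g t))).image (fun t => (t.1, t.2, g t)),
      ∃ t ∈ T0, b t = β (g t) ∧ s = (t.1, t.2, g t) := by
    intro s hs
    rw [Finset.mem_image] at hs
    obtain ⟨t, ht, rfl⟩ := hs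
    rw [Finset.mem_filter] at ht
    exact ⟨t, ht.1, ht.2, rfl⟩
  have hT0mem : ∀ t ∈ T0, t.1 ∈ F0 ∧ t.2 ∈ pb P := by
    intro t ht
    simp only [T0, Finset.mem_filter, Finset.mem_product] at ht
    exact ht.1
  refine ⟨T0.image g, β, (T0.filter (fun t => b t = β (g t))).image (fun t => (t.1, t.2, g t)), ?_, ?_⟩
  · constructor
    · intro s hs
      obtain ⟨t, ht, _, rfl⟩ := hmem s hs
      exact (hT0mem t ht).1
    · intro s hs
      obtain ⟨t, ht, _, rfl⟩ := hmem s hs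
      exact Finset.mem_image_of_mem g ht
    · intro s hs
      obtain ⟨t, ht, _, rfl⟩ := hmem s hs
      have h1 := (hT0mem t ht).2
      unfold pb at h1
      rw [Finset.mem_filter, Finset.mem_Ioc] at h1
      exact ⟨h1.2, h1.1⟩
    · intro s hs
      obtain ⟨t, ht, _, rfl⟩ := hmem s hs
      exact (hgb t ht).2.1
    · intro s hs
      obtain ⟨t, ht, hbt, rfl⟩ := hmem s hs
      have h1 := (hgb t ht).2.2.1
      rw [hbt] at h1
      exact h1.trans hwinv
    · intro K hK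
      obtain ⟨h1, h2⟩ := hF K hK
      constructor
      · refine le_trans ?_ h1
        apply div_le_div_of_nonneg_left hn0.le hC0
        linarith only [hC]
      · nlinarith only [h2]
    · intro K hK
      rw [Finset.mem_image] at hK
      obtain ⟨t, ht, rfl⟩ := hK
      exact (hgb t ht).2.2.2
  · rw [Finset.card_image_of_injective]
    · refine le_trans ?_ hβ
      have h1 : (n : ℝ) / L ^ A * (P / (4 * L ^ (A + 2))) ≤ T0.card :=
        le_trans (mul_le_mul_of_nonneg_right hcard (by positivity)) hT0card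
      refine le_trans ?_ (div_le_div_of_nonneg_right h1 (by positivity))
      have h2 : (n : ℝ) / L ^ A * (P / (4 * L ^ (A + 2))) / (3840 * L ^ (3 * A + 9)) =
          n * P / (15360 * L ^ (5 * A + 11)) := by
        rw [div_mul_div_comm, div_div]
        congr 1
        ring
      rw [h2]
      apply div_le_div_of_nonneg_left (by positivity) (by positivity)
      have h3 : (15360 : ℝ) ≤ L ^ 3 := by
        calc (15360 : ℝ) ≤ 100 ^ 3 := by norm_num
          _ ≤ L ^ 3 := pow_le_pow_left₀ (by norm_num) hL 3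
      calc (15360 : ℝ) * L ^ (5 * A + 11) ≤ L ^ 3 * L ^ (5 * A + 11) :=
            mul_le_mul_of_nonneg_right h3 (by positivity)
        _ = L ^ (5 * A + 14) := by ring
    · rintro ⟨a1, a2⟩ ⟨b1, b2⟩ hab
      simp only [Prod.mk.injEq] at hab
      exact Prod.ext hab.1 hab.2.1

end Pool.Agent.H53.MID

end

section

/-!
# MID Plw: Plancherel for multiplicative windows

Proof.  `G(u) = Dw c X θ u = ∑_m c m 1[log m - θ ≤ u < log m]` is a bounded step function with compact support (in `L¹ ∩ L²`).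
`∫ G(u) ee(-(u t)) du = ∑_m c m ee(-(t log m)) κ(t) = Cs c X t · κ(t)`, `κ(t) = ∫_{-θ}^0 ee(-(v t)) dv`, `‖κ(t)‖ ≤ θ`, `‖κ(t)‖ ≤ 1/(π |t|)`.
`Pool.Agent.H76.EHB.planch`: `∫ ‖G‖^2 = ∫ ‖Cs c X t‖^2 ‖κ t‖^2 dt ≤ θ^2 ∫_{|t| ≤ U} ‖Cs‖^2 + ∫_{|t| > U} ‖Cs‖^2/(π^2 t^2) dt`.
Tail: dyadic pieces `2^j U < |t| ≤ 2^(j+1) U` and `mvt` (`τ = 0`): `≤ ∑_j (4^j U^2 π^2)^(-1) (2^(j+2) U + 2 X (1 + log X)) ∑|c|^2
≤ (4/U + 4 X (1+log X)/U^2) ∑ |c|^2` (or: `1/t^2 = ∫_{|t|}^∞ 2 v^(-3) dv` and Tonelli).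
-/

set_option autoImplicit false

namespace Pool.Agent.H53.MID

open Finset MeasureTheory
open Pool.Agent.H91.PK (ee)

private noncomputable def Plw_k (θ t : ℝ) : ℂ := ∫ v in (-θ)..0, ee (-(v * t))

private theorem Plw_cont (t : ℝ) : Continuous (fun v : ℝ => ee (-(v * t))) := by
  unfold ee
  fun_prop

private theorem Plw_cont2 (s : ℝ) : Continuous (fun t : ℝ => ee (-(t * s))) := by
  unfold ee
  fun_prop

private theorem Plw_k_le (θ t : ℝ) (hθ : 0 < θ) : ‖Plw_k θ t‖ ≤ θ := by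
  have h := intervalIntegral.norm_integral_le_of_norm_le_const (a := -θ) (b := 0) (C := 1)
    (f := fun v : ℝ => ee (-(v * t))) (fun v _ => (Pool.Agent.H91.PK.LSa_norm_ee _).le)
  have h2 : |(0 : ℝ) - -θ| = θ := by
    rw [sub_neg_eq_add, zero_add, abs_of_pos hθ]
  rw [h2, one_mul] at h
  exact h

private theorem Plw_k_le2 (θ t : ℝ) (ht : t ≠ 0) : ‖Plw_k θ t‖ ≤ 1 / (Real.pi * |t|) := by
  have hpi := Real.pi_pos
  have hc : (-(2 * Real.pi * t) * Complex.I : ℂ) ≠ 0 := by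
    have : (2 * Real.pi * t : ℂ) ≠ 0 := by
      have h1 : (Real.pi : ℂ) ≠ 0 := by exact_mod_cast hpi.ne'
      have h2 : (t : ℂ) ≠ 0 := by exact_mod_cast ht
      exact mul_ne_zero (mul_ne_zero two_ne_zero h1) h2
    exact mul_ne_zero (neg_ne_zero.2 this) Complex.I_ne_zero
  have e : ∀ v : ℝ, ee (-(v * t)) = Complex.exp ((-(2 * Real.pi * t) * Complex.I : ℂ) * (v : ℂ)) := by
    intro v
    unfold ee
    congr 1
    push_cast
    ring
  unfold Plw_k
  simp_rw [e]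
  rw [integral_exp_mul_complex hc, norm_div]
  have h1 : ‖(-(2 * Real.pi * t) * Complex.I : ℂ)‖ = 2 * Real.pi * |t| := by
    rw [norm_mul, norm_neg, Complex.norm_I, mul_one, norm_mul, norm_mul]
    simp [abs_of_pos hpi]
  rw [h1]
  have h2 : ∀ v : ℝ, ‖Complex.exp ((-(2 * Real.pi * t) * Complex.I : ℂ) * (v : ℂ))‖ = 1 := by
    intro v
    rw [← e]
    exact Pool.Agent.H91.PK.LSa_norm_ee _
  have h3 : ‖Complex.exp ((-(2 * Real.pi * t) * Complex.I : ℂ) * ((0 : ℝ) : ℂ)) -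
      Complex.exp ((-(2 * Real.pi * t) * Complex.I : ℂ) * ((-θ : ℝ) : ℂ))‖ ≤ 2 := by
    refine (norm_sub_le _ _).trans ?_
    rw [h2, h2]
    norm_num
  have h4 : 0 < |t| := abs_pos.2 ht
  calc _ ≤ 2 / (2 * Real.pi * |t|) := div_le_div_of_nonneg_right h3 (by positivity)
    _ = 1 / (Real.pi * |t|) := by
      field_simp

private theorem Plw_Dw (c : ℕ → ℂ) (X : ℕ) (θ u : ℝ) :
    Dw c X θ u = ∑ m ∈ Icc 1 X, (Set.Ico (Real.log m - θ) (Real.log m)).indicator (fun _ => c m) u := by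
  unfold Dw
  rw [Finset.sum_filter]
  refine Finset.sum_congr rfl fun m _ => ?_
  by_cases h : u < Real.log m ∧ Real.log m ≤ u + θ
  · rw [if_pos h, Set.indicator_of_mem]
    exact ⟨by linarith [h.2], h.1⟩
  · rw [if_neg h, Set.indicator_of_notMem]
    rintro ⟨h1, h2⟩
    exact h ⟨h2, by linarith⟩

private theorem Plw_int1 (c : ℕ → ℂ) (X : ℕ) (θ : ℝ) : Integrable (fun u => Dw c X θ u) := by
  simp_rw [Plw_Dw]
  refine integrable_finsetSum _ fun m _ => ?_
  rw [integrable_indicator_iff measurableSet_Ico]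
  exact integrableOn_const (by simp) (by simp)

private theorem Plw_mem (c : ℕ → ℂ) (X : ℕ) (θ : ℝ) : MemLp (fun u => Dw c X θ u) 2 := by
  simp_rw [Plw_Dw]
  refine memLp_finsetSum _ fun m _ => ?_
  exact memLp_indicator_const 2 measurableSet_Ico (c m) (Or.inr (by simp))

private theorem Plw_four (c : ℕ → ℂ) (X : ℕ) (θ t : ℝ) (hθ : 0 < θ) :
    ∫ u, Dw c X θ u * ee (-(u * t)) = Cs c X t * Plw_k θ t := by
  have h1 : ∀ u : ℝ, Dw c X θ u * ee (-(u * t)) = ∑ m ∈ Icc 1 X,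
      (Set.Ico (Real.log m - θ) (Real.log m)).indicator (fun u : ℝ => c m * ee (-(u * t))) u := by
    intro u
    rw [Plw_Dw, Finset.sum_mul]
    refine Finset.sum_congr rfl fun m _ => ?_
    by_cases h : u ∈ Set.Ico (Real.log m - θ) (Real.log m)
    · rw [Set.indicator_of_mem h, Set.indicator_of_mem h]
    · rw [Set.indicator_of_notMem h, Set.indicator_of_notMem h, zero_mul]
  simp_rw [h1]
  rw [integral_finsetSum]
  · unfold Cs
    rw [Finset.sum_mul]
    refine Finset.sum_congr rfl fun m _ => ?_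
    rw [integral_indicator measurableSet_Ico, integral_Ico_eq_integral_Ioo, ← integral_Ioc_eq_integral_Ioo,
      ← intervalIntegral.integral_of_le (by linarith), intervalIntegral.integral_const_mul, mul_assoc]
    congr 1
    unfold Plw_k
    rw [← intervalIntegral.integral_const_mul]
    have h2 := intervalIntegral.integral_comp_add_right (a := -θ) (b := 0)
      (fun u : ℝ => ee (-(u * t))) (Real.log m)
    have h3 : -θ + Real.log m = Real.log m - θ := by ring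
    rw [h3, zero_add] at h2
    rw [← h2]
    refine intervalIntegral.integral_congr fun v _ => ?_
    show ee (-((v + Real.log m) * t)) = ee (-(t * Real.log m)) * ee (-(v * t))
    rw [← Pool.Agent.H91.PK.LSa_ee_add]
    congr 1
    ring
  · intro m _
    rw [integrable_indicator_iff measurableSet_Ico]
    exact ((continuous_const.mul (Plw_cont t)).integrableOn_Icc).mono_set Set.Ico_subset_Icc_self

private theorem Plw_Cs_cont (c : ℕ → ℂ) (X : ℕ) : Continuous (fun t => Cs c X t) := by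
  unfold Cs
  exact continuous_finsetSum _ fun m _ => continuous_const.mul (Plw_cont2 _)

/-- one dyadic step -/
private theorem Plw_step (c : ℕ → ℂ) (X : ℕ) (θ V : ℝ) (hX : 1 ≤ X) (hV : 0 < V)
    (hI : Integrable (fun t : ℝ => ‖Cs c X t * Plw_k θ t‖ ^ 2)) :
    ∫ t in Set.Icc (-(2 * V)) (2 * V), ‖Cs c X t * Plw_k θ t‖ ^ 2 ≤
      (∫ t in Set.Icc (-V) V, ‖Cs c X t * Plw_k θ t‖ ^ 2) +
        1 / (9 * V ^ 2) * ((4 * V + 2 * X * (1 + Real.log X)) * ∑ m ∈ Icc 1 X, ‖c m‖ ^ 2) := by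
  have hpi := Real.pi_gt_three
  have hmv := mvt c X (2 * V) 0 hX (by linarith)
  have hC : Continuous (fun t => ‖Cs c X t‖ ^ 2) := (Plw_Cs_cont c X).norm.pow 2
  have h1 : ∫ t in Set.Icc (-(2 * V)) (2 * V), ‖Cs c X t * Plw_k θ t‖ ^ 2 ≤
      ∫ t in Set.Icc (-(2 * V)) (2 * V), ((Set.Icc (-V) V).indicator (fun t => ‖Cs c X t * Plw_k θ t‖ ^ 2) t +
        1 / (9 * V ^ 2) * ‖Cs c X t‖ ^ 2) := by
    refine setIntegral_mono_on hI.integrableOn ?_ measurableSet_Icc ?_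
    · refine Integrable.add ?_ ?_
      · exact ((hI.integrableOn (s := Set.Icc (-V) V)).integrable_indicator measurableSet_Icc).integrableOn
      · exact (continuous_const.mul hC).integrableOn_Icc
    · intro t _
      by_cases h : t ∈ Set.Icc (-V) V
      · rw [Set.indicator_of_mem h]
        have : 0 ≤ 1 / (9 * V ^ 2) * ‖Cs c X t‖ ^ 2 := by positivity
        linarith
      · rw [Set.indicator_of_notMem h, zero_add, norm_mul, mul_pow, mul_comm]
        refine mul_le_mul_of_nonneg_right ?_ (by positivity)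
        have hlt : V < |t| := by
          by_contra hcon
          push Not at hcon
          exact h ⟨by linarith [(abs_le.1 hcon).1], (abs_le.1 hcon).2⟩
        have ht : t ≠ 0 := by
          intro h0
          rw [h0, abs_zero] at hlt
          linarith
        have h2 := Plw_k_le2 θ t ht
        have h3 : 1 / (Real.pi * |t|) ≤ 1 / (3 * V) := by
          apply one_div_le_one_div_of_le (by positivity)
          exact mul_le_mul hpi.le hlt.le hV.le (by linarith)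
        calc ‖Plw_k θ t‖ ^ 2 ≤ (1 / (3 * V)) ^ 2 := pow_le_pow_left₀ (norm_nonneg _) (h2.trans h3) 2
          _ = 1 / (9 * V ^ 2) := by
            field_simp
            norm_num
  refine h1.trans ?_
  rw [integral_add]
  · refine add_le_add ?_ ?_
    · rw [setIntegral_indicator measurableSet_Icc]
      refine le_of_eq ?_
      congr 2
      ext t
      simp only [Set.mem_inter_iff, Set.mem_Icc]
      constructor
      · exact fun h => h.2
      · intro h
        exact ⟨⟨by linarith [h.1], by linarith [h.2]⟩, h⟩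
    · rw [integral_const_mul]
      refine mul_le_mul_of_nonneg_left ?_ (by positivity)
      have h5 : ∀ t : ℝ, ∑ m ∈ Icc 1 X, c m * ee (-((0 + t) * Real.log m)) = Cs c X t := by
        intro t
        unfold Cs
        simp
      simp_rw [h5] at hmv
      refine hmv.trans (le_of_eq ?_)
      ring
  · exact ((hI.integrableOn (s := Set.Icc (-V) V)).integrable_indicator measurableSet_Icc).integrableOn
  · exact (continuous_const.mul hC).integrableOn_Icc

private theorem Plw_iter (c : ℕ → ℂ) (X : ℕ) (θ U : ℝ) (hX : 1 ≤ X) (hU : 0 < U)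
    (hI : Integrable (fun t : ℝ => ‖Cs c X t * Plw_k θ t‖ ^ 2)) (n : ℕ) :
    ∫ t in Set.Icc (-(2 ^ n * U)) (2 ^ n * U), ‖Cs c X t * Plw_k θ t‖ ^ 2 ≤
      (∫ t in Set.Icc (-U) U, ‖Cs c X t * Plw_k θ t‖ ^ 2) +
        (1 - 1 / 2 ^ n) * ((4 / U + 4 * X * (1 + Real.log X) / U ^ 2) * ∑ m ∈ Icc 1 X, ‖c m‖ ^ 2) := by
  have hS : 0 ≤ ∑ m ∈ Icc 1 X, ‖c m‖ ^ 2 := Finset.sum_nonneg fun _ _ => by positivity
  have hlog : 0 ≤ Real.log X := Real.log_natCast_nonneg X
  induction n with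
  | zero => simp
  | succ n ih =>
    have hV : 0 < 2 ^ n * U := by positivity
    have h1 := Plw_step c X θ (2 ^ n * U) hX hV hI
    have e1 : (2 : ℝ) ^ (n + 1) * U = 2 * (2 ^ n * U) := by ring
    rw [e1]
    have h2 : 1 / (9 * (2 ^ n * U) ^ 2) * ((4 * (2 ^ n * U) + 2 * X * (1 + Real.log X)) * ∑ m ∈ Icc 1 X, ‖c m‖ ^ 2) ≤
        (1 / 2 ^ (n + 1)) * ((4 / U + 4 * X * (1 + Real.log X) / U ^ 2) * ∑ m ∈ Icc 1 X, ‖c m‖ ^ 2) := by
      rw [← mul_assoc (1 / (9 * (2 ^ n * U) ^ 2)), ← mul_assoc (1 / (2 : ℝ) ^ (n + 1))]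
      refine mul_le_mul_of_nonneg_right ?_ hS
      have h3 : 1 / (9 * (2 ^ n * U) ^ 2) * (4 * (2 ^ n * U)) ≤ 1 / 2 ^ (n + 1) * (4 / U) := by
        rw [pow_succ]
        have hp : (0 : ℝ) < 2 ^ n := by positivity
        rw [one_div_mul_eq_div, one_div_mul_eq_div, div_div, div_le_div_iff₀ (by positivity) (by positivity)]
        nlinarith [mul_pos hp hU, mul_pos (mul_pos hp hU) (mul_pos hp hU)]
      have h4 : 1 / (9 * (2 ^ n * U) ^ 2) * (2 * X * (1 + Real.log X)) ≤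
          1 / 2 ^ (n + 1) * (4 * X * (1 + Real.log X) / U ^ 2) := by
        have hp : (1 : ℝ) ≤ 2 ^ n := one_le_pow₀ (by norm_num)
        have hA : 0 ≤ (X : ℝ) * (1 + Real.log X) := by positivity
        have e2 : 1 / (9 * (2 ^ n * U) ^ 2) * (2 * X * (1 + Real.log X)) =
            (X * (1 + Real.log X)) * (2 / (9 * (2 ^ n * U) ^ 2)) := by ring
        have e3 : 1 / 2 ^ (n + 1) * (4 * X * (1 + Real.log X) / U ^ 2) =
            (X * (1 + Real.log X)) * (4 / (2 ^ (n + 1) * U ^ 2)) := by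
          field_simp
        rw [e2, e3]
        refine mul_le_mul_of_nonneg_left ?_ hA
        rw [div_le_div_iff₀ (by positivity) (by positivity), pow_succ]
        have hU2 : 0 < U ^ 2 := by positivity
        nlinarith [mul_le_mul_of_nonneg_right hp (mul_nonneg (le_trans zero_le_one hp) hU2.le),
          mul_pos (lt_of_lt_of_le one_pos hp) hU2]
      calc _ = 1 / (9 * (2 ^ n * U) ^ 2) * (4 * (2 ^ n * U)) +
            1 / (9 * (2 ^ n * U) ^ 2) * (2 * X * (1 + Real.log X)) := by ring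
        _ ≤ _ := add_le_add h3 h4
        _ = _ := by ring
    have e4 : (1 : ℝ) - 1 / 2 ^ (n + 1) = (1 - 1 / 2 ^ n) + 1 / 2 ^ (n + 1) := by
      rw [pow_succ]
      field_simp
      ring
    rw [e4, add_mul]
    linarith

theorem plw (c : ℕ → ℂ) (X : ℕ) (θ U : ℝ) (hX : 1 ≤ X) (hθ : 0 < θ) (hU : 0 < U) :
    Integrable (fun u => ‖Dw c X θ u‖ ^ 2) ∧
    ∫ u, ‖Dw c X θ u‖ ^ 2 ≤ θ ^ 2 * (∫ t in Set.Icc (-U) U, ‖Cs c X t‖ ^ 2)
      + (4 / U + 4 * X * (1 + Real.log X) / U ^ 2) * ∑ m ∈ Icc 1 X, ‖c m‖ ^ 2 := by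
  have hm := Plw_mem c X θ
  refine ⟨hm.integrable_norm_pow (by norm_num), ?_⟩
  obtain ⟨hI, hE⟩ := Pool.Agent.H76.EHB.planch (fun u => Dw c X θ u) (Plw_int1 c X θ) hm
  simp_rw [Plw_four c X θ _ hθ] at hI hE
  rw [← hE]
  have hS : 0 ≤ ∑ m ∈ Icc 1 X, ‖c m‖ ^ 2 := Finset.sum_nonneg fun _ _ => by positivity
  have hlog : 0 ≤ Real.log X := Real.log_natCast_nonneg X
  have h1 : ∫ t in Set.Icc (-U) U, ‖Cs c X t * Plw_k θ t‖ ^ 2 ≤ θ ^ 2 * (∫ t in Set.Icc (-U) U, ‖Cs c X t‖ ^ 2) := by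
    rw [← integral_const_mul]
    refine setIntegral_mono_on hI.integrableOn ?_ measurableSet_Icc ?_
    · exact (continuous_const.mul ((Plw_Cs_cont c X).norm.pow 2)).integrableOn_Icc
    · intro t _
      rw [norm_mul, mul_pow, mul_comm]
      refine mul_le_mul_of_nonneg_right ?_ (by positivity)
      exact pow_le_pow_left₀ (norm_nonneg _) (Plw_k_le θ t hθ) 2
  have hcov : AECover volume Filter.atTop (fun n : ℕ => Set.Icc (-(2 ^ n * U)) (2 ^ n * U)) := by
    have ht : Filter.Tendsto (fun n : ℕ => (2 : ℝ) ^ n * U) Filter.atTop Filter.atTop :=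
      (tendsto_pow_atTop_atTop_of_one_lt (by norm_num)).atTop_mul_const hU
    exact aecover_Icc (Filter.tendsto_neg_atTop_atBot.comp ht) ht
  have hlim := hcov.integral_tendsto_of_countably_generated hI
  refine le_of_tendsto hlim (Filter.Eventually.of_forall fun n => ?_)
  refine (Plw_iter c X θ U hX hU hI n).trans ?_
  refine add_le_add h1 ?_
  have h2 : 0 ≤ (4 / U + 4 * X * (1 + Real.log X) / U ^ 2) * ∑ m ∈ Icc 1 X, ‖c m‖ ^ 2 := by positivity
  have h3 : (0 : ℝ) ≤ 1 / 2 ^ n := by positivity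
  nlinarith

end Pool.Agent.H53.MID

end
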