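import Pool.Agent.H43.PJ.M25
import Pool.Agent.H43.PJ.M35
import Pool.Agent.H43.PJ.M36

/-! The parts of this file: H53.MIX.MsW, H53.MIX.LfuX. -/

section

/-!
# MIX MsW: mean square over multiplicative windows, `P ≥ exp((log N)^t2)`

Copy and adapt `Pool.Agent.H53.MID.ms` (file `H53/MID/Ms.lean`, complete), using `msc_w`.
-/

set_option autoImplicit false

namespace Pool.Agent.H53.MIX

open Finset MeasureTheory
open Pool.Agent.H91.PK (ee)
open Pool.Agent.H91.EHA (Lam hR lamR ramS)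
open Pool.Agent.H35.W (pb)
open Pool.Agent.H53.MID

private theorem MsW_asy (k : ℕ) (e1 : ℝ) (he1 : 0 < e1) :
    ∀ᶠ N : ℕ in Filter.atTop, Real.log N ^ k + 1 ≤ (N : ℝ) ^ e1 := by
  have h1 := (isLittleO_log_rpow_rpow_atTop (k : ℝ) he1).bound (show (0 : ℝ) < 1 / 2 by norm_num)
  have h2 := (tendsto_rpow_atTop he1).eventually_ge_atTop 2
  have h3 := (tendsto_natCast_atTop_atTop (R := ℝ)).eventually (h1.and h2)
  filter_upwards [h3] with N hN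
  obtain ⟨h4, h5⟩ := hN
  rw [Real.rpow_natCast, Real.norm_eq_abs, Real.norm_eq_abs] at h4
  have h6 : |(N : ℝ) ^ e1| = (N : ℝ) ^ e1 := abs_of_nonneg (by positivity)
  rw [h6] at h4
  have h7 := (le_abs_self _).trans h4
  linarith only [h5, h7]

private theorem MsW_cc (f : ℕ → ℝ) (P m : ℕ) (a T : ℝ) : ‖cc f P a T m‖ = |Fp f P m| := by
  unfold cc
  rw [norm_mul, norm_mul, Pool.Agent.H91.PK.LSa_norm_ee, Pool.Agent.H91.PK.LSa_norm_ee, mul_one, mul_one,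
    Complex.norm_real, Real.norm_eq_abs]

private theorem MsW_card (P m : ℕ) (hm : 1 ≤ m) : (((pb P).filter (fun p => p ∣ m)).card : ℝ) ≤ 2 * Real.log m := by
  have hsub : (pb P).filter (fun p => p ∣ m) ⊆ m.primeFactors := by
    intro p hp
    rw [Finset.mem_filter] at hp
    unfold pb at hp
    rw [Finset.mem_filter] at hp
    exact Nat.mem_primeFactors.2 ⟨hp.1.2, hp.2, by omega⟩
  have h1 : 2 ^ m.primeFactors.card ≤ m := by
    calc 2 ^ m.primeFactors.card = ∏ _p ∈ m.primeFactors, 2 := by rw [Finset.prod_const]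
      _ ≤ ∏ p ∈ m.primeFactors, p := Finset.prod_le_prod' fun p hp => (Nat.prime_of_mem_primeFactors hp).two_le
      _ ≤ m := Nat.le_of_dvd (by omega) (Nat.prod_primeFactors_dvd m)
  have h2 : 2 ^ ((pb P).filter (fun p => p ∣ m)).card ≤ m :=
    (Nat.pow_le_pow_right (by norm_num) (Finset.card_le_card hsub)).trans h1
  have h3 : (2 : ℝ) ^ ((pb P).filter (fun p => p ∣ m)).card ≤ m := by exact_mod_cast h2
  have h4 := Real.log_le_log (by positivity) h3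
  rw [Real.log_pow] at h4
  have h5 := Real.log_two_gt_d9
  have h6 : (0 : ℝ) ≤ (((pb P).filter (fun p => p ∣ m)).card : ℝ) := by positivity
  nlinarith only [h4, h5]

private theorem MsW_sum (f : ℕ → ℝ) (P K1 K2 X : ℕ) (M S : ℝ) (hM0 : 0 ≤ M)
    (hM : ∀ m ∈ Icc 1 X, (((pb P).filter (fun p => p ∣ m)).card : ℝ) ≤ M)
    (hS : ∑ k ∈ Ico 0 (0 + (K2 + 1)), cut K1 K2 f k ^ 2 ≤ S) :
    ∑ m ∈ Icc 1 X, |Fp (cut K1 K2 f) P m| ^ 2 ≤ M * (P * S) := by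
  have h1 : ∀ m ∈ Icc 1 X, |Fp (cut K1 K2 f) P m| ^ 2 ≤
      M * ∑ p ∈ (pb P).filter (fun p => p ∣ m), cut K1 K2 f (m / p) ^ 2 := by
    intro m hm
    rw [sq_abs]
    unfold Fp
    refine sq_sum_le_card_mul_sum_sq.trans ?_
    exact mul_le_mul_of_nonneg_right (hM m hm) (Finset.sum_nonneg fun _ _ => sq_nonneg _)
  refine (Finset.sum_le_sum h1).trans ?_
  rw [← Finset.mul_sum]
  refine mul_le_mul_of_nonneg_left ?_ hM0
  have hS0 : 0 ≤ S := (Finset.sum_nonneg fun _ _ => sq_nonneg _).trans hS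
  have h2 : ∑ m ∈ Icc 1 X, ∑ p ∈ (pb P).filter (fun p => p ∣ m), cut K1 K2 f (m / p) ^ 2 =
      ∑ p ∈ pb P, ∑ m ∈ (Icc 1 X).filter (fun m => p ∣ m), cut K1 K2 f (m / p) ^ 2 := by
    simp_rw [Finset.sum_filter]
    exact Finset.sum_comm
  rw [h2]
  have h3 : ∀ p ∈ pb P, ∑ m ∈ (Icc 1 X).filter (fun m => p ∣ m), cut K1 K2 f (m / p) ^ 2 ≤ S := by
    intro p _
    refine le_trans ?_ hS
    have hinj : Set.InjOn (fun m => m / p) (((Icc 1 X).filter (fun m => p ∣ m) : Finset ℕ) : Set ℕ) := by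
      intro a ha b hb hab
      rw [Finset.mem_coe, Finset.mem_filter] at ha hb
      have e : a / p = b / p := hab
      rw [← Nat.div_mul_cancel ha.2, ← Nat.div_mul_cancel hb.2, e]
    rw [← Finset.sum_image (f := fun k => cut K1 K2 f k ^ 2) (g := fun m => m / p) hinj]
    rw [← Finset.sum_filter_ne_zero]
    refine Finset.sum_le_sum_of_subset_of_nonneg ?_ fun _ _ _ => sq_nonneg _
    intro k hk
    rw [Finset.mem_filter] at hk
    rw [Finset.mem_Ico]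
    refine ⟨Nat.zero_le _, ?_⟩
    by_contra hcon
    apply hk.2
    have : cut K1 K2 f k = 0 := by
      unfold cut
      rw [if_neg]
      rw [Finset.mem_Ioc]
      omega
    simp [this]
  refine (Finset.sum_le_sum h3).trans ?_
  rw [Finset.sum_const, nsmul_eq_mul]
  refine mul_le_mul_of_nonneg_right ?_ hS0
  have h4 : (pb P).card ≤ P := by
    unfold pb
    refine (Finset.card_filter_le _ _).trans ?_
    rw [Nat.card_Ioc]
    omega
  exact_mod_cast h4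

theorem ms_w (t1 t2 : ℝ) (h0 : 0 < t1) (h12 : t1 < t2) (hVK : VKw t1) (hSW : SWp) (A' C' : ℕ) : ∃ C4 : ℕ, ∀ B : ℕ,
    C' ≤ B → ∃ N0 : ℕ,
    ∀ N : ℕ, N0 ≤ N → ∀ (P K1 K2 X d b : ℕ) (T θ : ℝ), Real.exp (Real.log N ^ t2) ≤ P → P ≤ N → 1 ≤ d →
    (d : ℝ) ≤ Real.log N ^ C' →
    |T| ≤ (N : ℝ) ^ 2 → (N : ℝ) ^ (1 / 2 : ℝ) ≤ K2 → K2 ≤ N → K2 * P ≤ 16 * N → 2 * P * K2 ≤ X → X ≤ 64 * N → 1 ≤ X →
    0 < θ → θ ≤ 1 → P * Real.log N ^ C4 ≤ θ * N →
    Integrable (fun u => ‖Dw (cc (cut K1 K2 (hR ⌊Real.log N ^ B⌋₊)) P ((b : ℝ) / d) T) X θ u‖ ^ 2) ∧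
    ∫ u, ‖Dw (cc (cut K1 K2 (hR ⌊Real.log N ^ B⌋₊)) P ((b : ℝ) / d) T) X θ u‖ ^ 2
      ≤ θ ^ 2 * (N : ℝ) ^ 2 / Real.log N ^ A' := by
  refine ⟨A' + 12, fun B hB => ?_⟩
  obtain ⟨N1, hN1⟩ := msc_w t1 t2 h0 h12 hVK hSW (A' + 1) C' B hB
  obtain ⟨N2, hN2⟩ := hsq B
  obtain ⟨N3, hN3⟩ := Filter.eventually_atTop.1 (MsW_asy (B * 4) (1 / 2) (by norm_num))
  refine ⟨max (max N1 N2) (max N3 64), fun N hN P K1 K2 X d b T θ hP1 hP2 hd1 hd2 hT hK1 hK2 hKP hPX hX1 hX2 hθ0 hθ1 hθ2 => ?_⟩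
  have hNN1 : N1 ≤ N := (le_max_left _ _).trans ((le_max_left _ _).trans hN)
  have hNN2 : N2 ≤ N := (le_max_right _ _).trans ((le_max_left _ _).trans hN)
  have hNN3 : N3 ≤ N := (le_max_left _ _).trans ((le_max_right _ _).trans hN)
  have hN64 : 64 ≤ N := (le_max_right _ _).trans ((le_max_right _ _).trans hN)
  have hN64' : (64 : ℝ) ≤ N := by exact_mod_cast hN64
  have hN0 : (0 : ℝ) < N := by linarith only [hN64']
  obtain ⟨L, hL⟩ : ∃ L, L = Real.log N := ⟨_, rfl⟩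
  have hlog64 : Real.log 64 = 6 * Real.log 2 := by
    rw [show (64 : ℝ) = 2 ^ 6 by norm_num, Real.log_pow]
    norm_num
  have hlog2 := Real.log_two_gt_d9
  have hL4 : 4 ≤ L := by
    rw [hL]
    have h1 := Real.log_le_log (by norm_num) hN64'
    linarith only [hlog64, hlog2, h1]
  have hL0 : 0 < L := by linarith only [hL4]
  have hlogX : Real.log X ≤ 2 * L := by
    have h1 : (X : ℝ) ≤ N * N := by
      have h2 : (X : ℝ) ≤ 64 * N := by exact_mod_cast hX1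
      nlinarith only [h2, hN64']
    have h3 := Real.log_le_log (by exact_mod_cast hX2) h1
    rw [Real.log_mul hN0.ne' hN0.ne', ← hL] at h3
    linarith only [h3]
  rw [← hL] at hd2 hθ2 ⊢
  set R : ℕ := ⌊L ^ B⌋₊ with hR'
  have hRle : (R : ℝ) ≤ L ^ B := Nat.floor_le (by positivity)
  have hK0 : (1 : ℝ) ≤ K2 := by
    have h1 := hN3 N hNN3
    have h2 : 0 ≤ Real.log N ^ (B * 4) := by
      rw [← hL]
      positivity
    linarith only [hK1, h1, h2]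
  have hRK : R ^ 4 + 2 ≤ K2 + 1 := by
    have h1 := hN3 N hNN3
    rw [← hL] at h1
    have h2 : (R : ℝ) ^ 4 ≤ L ^ (B * 4) := by
      rw [pow_mul]
      exact pow_le_pow_left₀ (by positivity) hRle 4
    have h3 : (R : ℝ) ^ 4 + 1 ≤ K2 := by linarith only [hK1, h1, h2]
    have h4 : R ^ 4 + 1 ≤ K2 := by exact_mod_cast h3
    omega
  have hP0 : (1 : ℝ) ≤ P := by
    refine le_trans ?_ hP1
    refine Real.one_le_exp ?_
    rw [← hL]
    positivity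
  have hSq : ∑ k ∈ Ico 0 (0 + (K2 + 1)), cut K1 K2 (hR R) k ^ 2 ≤ ((K2 + 1 : ℕ) : ℝ) * L ^ 4 := by
    have h1 := hN2 N hNN2 R (by rw [← hL]; exact hRle) K1 K2 0 (K2 + 1) hRK ?_
    · rw [← hL] at h1
      exact h1
    · have h2 : N * 64 ^ 3 ≤ N ^ 4 := by
        calc N * 64 ^ 3 ≤ N * N ^ 3 := Nat.mul_le_mul_left _ (Nat.pow_le_pow_left hN64 3)
          _ = N ^ 4 := by ring
      omega
  obtain ⟨U, hU⟩ : ∃ U, U = L ^ (A' + 12) / θ := ⟨_, rfl⟩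
  have hLC1 : 1 ≤ L ^ (A' + 12) := one_le_pow₀ (by linarith only [hL4])
  have hU1 : 1 ≤ U := by
    rw [hU, le_div_iff₀ hθ0]
    linarith only [hθ1, hLC1]
  have hUP : U * P ≤ N := by
    rw [hU, div_mul_eq_mul_div, div_le_iff₀ hθ0]
    linarith only [hθ2]
  have hU0 : 0 < U := by linarith only [hU1]
  have hθN : 1 ≤ θ * N := by
    refine le_trans ?_ hθ2
    nlinarith only [hP0, hLC1]
  have hmsc := hN1 N hNN1 P K1 K2 X d b T U hP1 hP2 hd1 (by rw [← hL]; exact hd2) hT hU1 hUP hK1 hK2 hKP hPX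
  rw [← hL, ← hR'] at hmsc
  obtain ⟨hI, hplw⟩ := plw (cc (cut K1 K2 (hR R)) P ((b : ℝ) / d) T) X θ U hX2 hθ0 hU0
  refine ⟨hI, hplw.trans ?_⟩
  have hsum : ∑ m ∈ Icc 1 X, ‖cc (cut K1 K2 (hR R)) P ((b : ℝ) / d) T m‖ ^ 2 ≤ 128 * N * L ^ 5 := by
    simp_rw [MsW_cc]
    have h1 := MsW_sum (hR R) P K1 K2 X (4 * L) (((K2 + 1 : ℕ) : ℝ) * L ^ 4) (by positivity) ?_ hSq
    · refine h1.trans ?_
      have h2 : (K2 : ℝ) * P ≤ 16 * N := by exact_mod_cast hKP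
      push_cast
      have h3 : (P : ℝ) * ((K2 : ℝ) + 1) ≤ 32 * N := by nlinarith only [h2, hK0]
      calc 4 * L * ((P : ℝ) * (((K2 : ℝ) + 1) * L ^ 4)) = (P * (K2 + 1)) * (4 * L ^ 5) := by ring
        _ ≤ (32 * N) * (4 * L ^ 5) := mul_le_mul_of_nonneg_right h3 (by positivity)
        _ = 128 * N * L ^ 5 := by ring
    · intro m hm
      rw [Finset.mem_Icc] at hm
      refine (MsW_card P m hm.1).trans ?_
      have h2 : Real.log m ≤ Real.log X :=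
        Real.log_le_log (by exact_mod_cast hm.1) (by exact_mod_cast hm.2)
      linarith only [hlogX, h2]
  have hX0 : (X : ℝ) ≤ 64 * N := by exact_mod_cast hX1
  have hlogX0 : 0 ≤ Real.log X := Real.log_natCast_nonneg X
  have hfac : 4 / U + 4 * X * (1 + Real.log X) / U ^ 2 ≤
      4 * θ / L ^ (A' + 12) + 768 * N * L * θ ^ 2 / (L ^ (A' + 12)) ^ 2 := by
    refine add_le_add (le_of_eq ?_) ?_
    · rw [hU]
      field_simp
    · rw [hU, div_pow, div_div_eq_mul_div]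
      apply div_le_div_of_nonneg_right _ (by positivity)
      apply mul_le_mul_of_nonneg_right _ (by positivity)
      have h1 : 1 + Real.log X ≤ 3 * L := by linarith only [hL4, hlogX]
      calc 4 * (X : ℝ) * (1 + Real.log X) ≤ 4 * (64 * N) * (3 * L) := by
            apply mul_le_mul (by linarith only [hX0]) h1 (by linarith only [hlogX0]) (by positivity)
        _ = 768 * N * L := by ring
  have hfirst : θ ^ 2 * (∫ t in Set.Icc (-U) U, ‖Cs (cc (cut K1 K2 (hR R)) P ((b : ℝ) / d) T) X t‖ ^ 2) ≤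
      (1 / 4) * (θ ^ 2 * (N : ℝ) ^ 2 / L ^ A') := by
    refine (mul_le_mul_of_nonneg_left hmsc (by positivity)).trans ?_
    have e0 : θ ^ 2 * ((N : ℝ) ^ 2 / L ^ (A' + 1)) = (θ ^ 2 * (N : ℝ) ^ 2 / L ^ A') * (1 / L) := by
      rw [pow_succ L A']
      field_simp
    rw [e0, mul_comm]
    have h1 : 0 ≤ θ ^ 2 * (N : ℝ) ^ 2 / L ^ A' := by positivity
    refine mul_le_mul_of_nonneg_right ?_ h1
    exact one_div_le_one_div_of_le (by norm_num) hL4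
  have hsecond : (4 / U + 4 * X * (1 + Real.log X) / U ^ 2) *
      ∑ m ∈ Icc 1 X, ‖cc (cut K1 K2 (hR R)) P ((b : ℝ) / d) T m‖ ^ 2 ≤
      (1 / 2) * (θ ^ 2 * (N : ℝ) ^ 2 / L ^ A') := by
    have h0 : 0 ≤ ∑ m ∈ Icc 1 X, ‖cc (cut K1 K2 (hR R)) P ((b : ℝ) / d) T m‖ ^ 2 :=
      Finset.sum_nonneg fun _ _ => by positivity
    refine (mul_le_mul hfac hsum h0 (by positivity)).trans ?_
    have e1 : (4 * θ / L ^ (A' + 12) + 768 * N * L * θ ^ 2 / (L ^ (A' + 12)) ^ 2) * (128 * N * L ^ 5) =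
        (θ * N / L ^ A') * (512 / L ^ 7) + (θ ^ 2 * (N : ℝ) ^ 2 / L ^ A') * (98304 / L ^ (A' + 18)) := by
      rw [add_mul]
      congr 1
      · rw [div_mul_eq_mul_div, div_mul_div_comm, div_eq_div_iff (by positivity) (by positivity)]
        ring
      · rw [div_mul_eq_mul_div, div_mul_div_comm, div_eq_div_iff (by positivity) (by positivity)]
        ring
    rw [e1]
    have h2 : θ * N / L ^ A' ≤ θ ^ 2 * (N : ℝ) ^ 2 / L ^ A' := by
      apply div_le_div_of_nonneg_right _ (by positivity)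
      nlinarith only [hθN]
    have h3 : 512 / L ^ 7 ≤ 1 / 32 := by
      rw [div_le_div_iff₀ (by positivity) (by norm_num)]
      have h4 : (4 : ℝ) ^ 7 ≤ L ^ 7 := pow_le_pow_left₀ (by norm_num) hL4 7
      norm_num at h4 ⊢
      linarith only [h4]
    have h5 : 98304 / L ^ (A' + 18) ≤ 1 / 32 := by
      rw [div_le_div_iff₀ (by positivity) (by norm_num)]
      have h4 : (4 : ℝ) ^ 18 ≤ L ^ 18 := pow_le_pow_left₀ (by norm_num) hL4 18
      have h6 : L ^ 18 ≤ L ^ (A' + 18) := pow_le_pow_right₀ (by linarith only [hL4]) (by omega)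
      norm_num at h4 ⊢
      linarith only [h6, h4]
    have hq : 0 ≤ θ ^ 2 * (N : ℝ) ^ 2 / L ^ A' := by positivity
    have hq2 : 0 ≤ θ * N / L ^ A' := by positivity
    have h7 : θ * N / L ^ A' * (512 / L ^ 7) ≤ (θ ^ 2 * (N : ℝ) ^ 2 / L ^ A') * (1 / 32) :=
      mul_le_mul h2 h3 (by positivity) hq
    have h8 : (θ ^ 2 * (N : ℝ) ^ 2 / L ^ A') * (98304 / L ^ (A' + 18)) ≤ (θ ^ 2 * (N : ℝ) ^ 2 / L ^ A') * (1 / 32) :=
      mul_le_mul_of_nonneg_left h5 hq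
    linarith only [hq, h7, h8]
  have hq : 0 ≤ θ ^ 2 * (N : ℝ) ^ 2 / L ^ A' := by positivity
  linarith only [hfirst, hsecond, hq]

end Pool.Agent.H53.MIX

end

section

/-!
# MIX LfuX: local Fourier uniformity of `Fp (hR R) P`, `P ≥ exp((log N)^t)`

Copy and adapt `Pool.Agent.H53.MID.lfu` (file `H53/MID/Lfu.lean`, complete), with `CombX t t2` in place of `comb`, `contra_q` in place of `contra`, `ms_w` (with `t1 < t`) in place of `ms`.
`L = log N`, `Q = exp(L^t2)`, `n = N/H`.  `base` (exponent `A+1`): `C0 = 5(A+1)+14`, `η = 2 L^(A+6)/H`, `Rel 30 n P (η P)`, `|R0| ≥ n P/L^C0`.  `η Q^60 P^3 ≤ 1`: `H ≥ P^5` and `P^2 ≥ exp(2 L^t) ≥ 2 L^(A+6) Q^60` for large `N` (`t2 < t`).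
`n ≥ N^(1/4)` as `H^2 ≤ N`.  `hCX 30 C0`: `C1`, `d, b, T', F1`.  `T = T' H`: `|T| ≤ Q^20 · 2 L^(A+6) n^2 ≤ Q2 n^2`, `nz(α i - b/d - T/(i H)) ≤ Q^13 η ≤ Q2/H` with `Q2 = Q^21`.  `|T| ≤ N^2` since `Q^21 ≤ H^2`, `n ≤ N/H`.
`contra_q 10 (A+1) C1` with `w0 = R^4 + 2`: `w0 P Q2 L^(A+5) ≤ H`.  `ms_w` with `A' = 2(A+1) + 2C1 + 3`, `C' = C1`, `B0 = C1`, `θ = 1/(n Q2 L^(A+4))`: `P L^C4 ≤ θ N`.  `K1 = N/(16P)`, `K2 = 12N/P`, `K2 ≥ N^(1/2)`, everything else as in `lfu`.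
-/

set_option autoImplicit false

namespace Pool.Agent.H53.MIX

open Finset MeasureTheory
open Pool.Agent.H91.PK (ee)
open Pool.Agent.H91.EHA (Lam hR lamR ramS)
open Pool.Agent.H53.MID
open Pool.Agent.H35.W (pb)

/-- the indices of the blocks -/
private theorem LfuX_range {N H i : ℕ} (hH : 8 ≤ H) (hHN : H ^ 2 ≤ N)
    (hi : i ∈ Icc (N / (2 * H)) (4 * N / H)) :
    ((N / H : ℕ) : ℝ) / 10 ≤ i ∧ (i : ℝ) ≤ 10 * ((N / H : ℕ) : ℝ) ∧ N ≤ 4 * (i * H) ∧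
      (i + 1) * H ≤ 5 * N := by
  rw [mem_Icc] at hi
  obtain ⟨h1, h2⟩ := hi
  have hH0 : 0 < H := by omega
  have e1 : N / (2 * H) = N / H / 2 := by
    rw [Nat.div_div_eq_div_mul, mul_comm]
  rw [e1] at h1
  have h8 : 8 * H ≤ N := by nlinarith only [hHN, hH]
  have hn8 : 8 ≤ N / H := (Nat.le_div_iff_mul_le hH0).mpr h8
  have hnH : N / H * H ≤ N := Nat.div_mul_le_self N H
  have hnH2 : N < (N / H + 1) * H := by
    have := Nat.lt_mul_div_succ N hH0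
    rw [mul_comm]
    exact this
  have h3 : N / H ≤ 2 * i + 1 := by omega
  have h4 : 4 * N / H ≤ 4 * (N / H) + 3 := by
    have h5 : 4 * N < (4 * (N / H) + 4) * H := by nlinarith only [hnH2]
    have h6 : 4 * N / H < 4 * (N / H) + 4 := by
      rw [Nat.div_lt_iff_lt_mul hH0]
      exact h5
    omega
  have h5 : 4 * N / H * H ≤ 4 * N := Nat.div_mul_le_self _ _
  refine ⟨?_, ?_, ?_, ?_⟩
  · have h6 : ((N / H : ℕ) : ℝ) ≤ 2 * i + 1 := by exact_mod_cast h3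
    have h7 : (8 : ℝ) ≤ ((N / H : ℕ) : ℝ) := by exact_mod_cast hn8
    linarith only [h6, h7]
  · have h6 : i ≤ 10 * (N / H) := by omega
    exact_mod_cast h6
  · have h6 : (N / H + 1) * H ≤ (2 * i + 2) * H := Nat.mul_le_mul_right H (by omega)
    nlinarith only [hH, h8, hnH2, h6]
  · have h6 : i * H ≤ 4 * N / H * H := Nat.mul_le_mul_right H h2
    nlinarith only [hH, h8, h5, h6]

/-- cutting off the coefficients does not change the values on the blocks -/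
private theorem LfuX_cut {N P m : ℕ} (g : ℕ → ℝ) (hN : 0 < N) (hP : 0 < P) (h1 : N ≤ 4 * m)
    (h2 : m ≤ 5 * N) :
    Fp (cut (N / (16 * P)) (5 * N / P) g) P m = Fp g P m := by
  unfold Fp
  apply Finset.sum_congr rfl
  intro p hp
  rw [Finset.mem_filter] at hp
  obtain ⟨hp1, k, rfl⟩ := hp
  unfold pb at hp1
  rw [Finset.mem_filter, mem_Ioc] at hp1
  obtain ⟨⟨hp2, hp3⟩, -⟩ := hp1
  have hp0 : 0 < p := by omega
  rw [Nat.mul_div_cancel_left k hp0]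
  unfold cut
  rw [if_pos]
  rw [mem_Ioc]
  have hk : 0 < k := by
    rcases Nat.eq_zero_or_pos k with h | h
    · rw [h] at h1
      omega
    · exact h
  constructor
  · have h3 : N / (16 * P) * (16 * P) ≤ N := Nat.div_mul_le_self _ _
    have h4 : 4 * (p * k) ≤ 8 * (P * k) := by
      have : p * k ≤ 2 * P * k := Nat.mul_le_mul_right k hp3
      nlinarith only [this]
    have h5 : P * (2 * (N / (16 * P))) ≤ P * k := by nlinarith only [h1, h3, h4]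
    have h6 := Nat.le_of_mul_le_mul_left h5 hP
    omega
  · rw [Nat.le_div_iff_mul_le hP]
    calc k * P ≤ k * p := Nat.mul_le_mul_left k hp2.le
      _ = p * k := mul_comm _ _
      _ ≤ 5 * N := h2

private theorem LfuX_Bs {N P H i : ℕ} (g : ℕ → ℝ) (hN : 0 < N) (hP : 0 < P) (h1 : N ≤ 4 * (i * H))
    (h2 : (i + 1) * H ≤ 5 * N) (α : ℝ) :
    Bs (Fp (cut (N / (16 * P)) (5 * N / P) g) P) H i α = Bs (Fp g P) H i α := by
  unfold Bs
  apply Finset.sum_congr rfl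
  intro m hm
  rw [mem_Ico] at hm
  rw [LfuX_cut g hN hP (by omega) (by omega)]

open Classical in
private theorem LfuX_mem_badB (g : ℕ → ℝ) (N H : ℕ) (M : ℝ) (i : ℕ) : i ∈ badB g N H M ↔
    i ∈ Icc (N / (2 * H)) (4 * N / H) ∧ ∃ α : ℝ, M < ‖Bs g H i α‖ := by
  unfold badB
  rw [Finset.mem_filter]

/-- the final contradiction -/
private theorem LfuX_end {L θ I : ℝ} {n H N k : ℕ} (hL : 100 ≤ L) (hθ : 0 < θ) (hN : 0 < N)
    (hNn : N ≤ 2 * (n * H)) (h1 : θ ^ 2 * ((n : ℝ) * H) ^ 2 / L ^ (k + 1) ≤ I)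
    (h2 : I ≤ θ ^ 2 * (N : ℝ) ^ 2 / L ^ (k + 3)) : False := by
  have hL0 : 0 < L := by linarith only [hL]
  have hNr : (0 : ℝ) < N := by exact_mod_cast hN
  have h3 := h1.trans h2
  rw [div_le_div_iff₀ (by positivity) (by positivity)] at h3
  have e1 : L ^ (k + 3) = L ^ (k + 1) * L ^ 2 := by rw [← pow_add]
  rw [e1] at h3
  have h4 : (θ ^ 2 * L ^ (k + 1)) * (((n : ℝ) * H) ^ 2 * L ^ 2) ≤ (θ ^ 2 * L ^ (k + 1)) * (N : ℝ) ^ 2 := by
    linarith only [h3]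
  have h5 : ((n : ℝ) * H) ^ 2 * L ^ 2 ≤ (N : ℝ) ^ 2 := le_of_mul_le_mul_left h4 (by positivity)
  have h6 : (N : ℝ) ≤ 2 * (n * H) := by exact_mod_cast hNn
  have h7 : (N : ℝ) ^ 2 ≤ 4 * ((n : ℝ) * H) ^ 2 := by
    have := pow_le_pow_left₀ hNr.le h6 2
    linarith only [this]
  have h8 : 0 < ((n : ℝ) * H) ^ 2 := by
    by_contra hcon
    have : (N : ℝ) ^ 2 ≤ 0 := by linarith only [h7, hcon]
    have : 0 < (N : ℝ) ^ 2 := by positivity
    linarith only [h7, hcon, this]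
  have h9 : (10000 : ℝ) ≤ L ^ 2 := by nlinarith only [hL]
  have h10 : ((n : ℝ) * H) ^ 2 * 10000 ≤ ((n : ℝ) * H) ^ 2 * L ^ 2 :=
    mul_le_mul_of_nonneg_left h9 h8.le
  linarith only [h5, h7, h8, h10]

/-- consequences of `P` being larger than all powers of the logarithm and of `Q` -/
private theorem LfuX_num {L Q : ℝ} {A B C4 E N H P n R : ℕ} (hL : 100 ≤ L) (hQ : 1 ≤ Q)
    (hP : 10 * (L ^ E * Q ^ 60) ≤ P) (hE : E = 4 * B + 2 * A + C4 + 20) (hPH : P ^ 5 ≤ H)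
    (hHN : H ^ 2 ≤ N) (hn : n = N / H) (hRB : (R : ℝ) ≤ L ^ B) :
    100 ≤ P ∧ 1000 ≤ n ∧ 8 ≤ H ∧ n * H ≤ N ∧ N ≤ 2 * (n * H) ∧
      2 * ((R ^ 4 + 2 : ℕ) : ℝ) * P * L ^ (A + 5) ≤ H ∧
      ((R ^ 4 + 2 : ℕ) : ℝ) * P * (2 * L ^ (A + 5) * Q ^ 20 * L ^ (A + 4)) ≤ H ∧
      2 * L ^ (A + 5) * Q ^ 60 * (P : ℝ) ^ 3 ≤ H ∧
      2 * L ^ (A + 5) * Q ^ 20 * (n : ℝ) ^ 2 ≤ (N : ℝ) ^ 2 ∧
      (P : ℝ) * L ^ C4 * (n * (2 * L ^ (A + 5) * Q ^ 20 * L ^ (A + 3))) ≤ N ∧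
      P * P ≤ N ∧ H ≤ n := by
  have hL1 : 1 ≤ L := by linarith only [hL]
  have hL0 : 0 < L := by linarith only [hL]
  have hQ0 : 0 < Q := by linarith only [hQ]
  have hpow : ∀ k j : ℕ, k ≤ E → j ≤ 60 → 10 * (L ^ k * Q ^ j) ≤ P := by
    intro k j hk hj
    refine le_trans ?_ hP
    have h1 : L ^ k ≤ L ^ E := pow_le_pow_right₀ hL1 hk
    have h2 : Q ^ j ≤ Q ^ 60 := pow_le_pow_right₀ hQ hj
    have h3 : L ^ k * Q ^ j ≤ L ^ E * Q ^ 60 := mul_le_mul h1 h2 (by positivity) (by positivity)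
    linarith only [h3]
  have hP100r : (100 : ℝ) ≤ P := by
    have h1 := hpow 1 0 (by omega) (by omega)
    rw [pow_one, pow_zero, mul_one] at h1
    linarith only [hL, h1]
  have hP100 : 100 ≤ P := by exact_mod_cast hP100r
  have hP1 : (1 : ℝ) ≤ P := by linarith only [hP100r]
  have hPHr : (P : ℝ) ^ 5 ≤ H := by exact_mod_cast hPH
  have hP5 : P ≤ P ^ 5 := Nat.le_self_pow (by norm_num) P
  have hH0 : 0 < H := by omega
  have hP2 : 1000 ≤ P ^ 5 := by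
    calc 1000 ≤ 100 ^ 5 := by norm_num
      _ ≤ P ^ 5 := Nat.pow_le_pow_left hP100 5
  have hH1000 : 1000 ≤ H := hP2.trans hPH
  have hHn : H ≤ n := by
    rw [hn, Nat.le_div_iff_mul_le hH0]
    calc H * H = H ^ 2 := by ring
      _ ≤ N := hHN
  have hnH : n * H ≤ N := by
    rw [hn]
    exact Nat.div_mul_le_self N H
  have hnH2 : N < (n + 1) * H := by
    have := Nat.lt_mul_div_succ N hH0
    rw [← hn] at this
    rw [mul_comm]
    exact this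
  have hNn : N ≤ 2 * (n * H) := by nlinarith only [hP100, hPH, hHN, hP2, hnH2, hP5]
  have hw0 : ((R ^ 4 + 2 : ℕ) : ℝ) ≤ 3 * L ^ (4 * B) := by
    push_cast
    have h1 : (R : ℝ) ^ 4 ≤ (L ^ B) ^ 4 := pow_le_pow_left₀ (Nat.cast_nonneg R) hRB 4
    rw [← pow_mul, mul_comm B 4] at h1
    have h2 : (1 : ℝ) ≤ L ^ (4 * B) := one_le_pow₀ hL1
    linarith only [h1, h2]
  have hw00 : (0 : ℝ) ≤ ((R ^ 4 + 2 : ℕ) : ℝ) := Nat.cast_nonneg _
  have hPP : ∀ x : ℝ, 0 ≤ x → x ≤ P → x * P ≤ (P : ℝ) ^ 5 := by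
    intro x hx hxP
    have h1 : x * P ≤ P * P := mul_le_mul_of_nonneg_right hxP (by linarith only [hP100r])
    have h2 : (P : ℝ) ^ 2 ≤ (P : ℝ) ^ 5 := pow_le_pow_right₀ hP1 (by norm_num)
    nlinarith only [h1, h2]
  have hPH1 : (P : ℝ) ≤ H := by
    have : (P : ℝ) ≤ (P : ℝ) ^ 5 := le_self_pow₀ hP1 (by norm_num)
    linarith only [hPHr, this]
  refine ⟨hP100, hH1000.trans hHn, by omega, hnH, hNn, ?_, ?_, ?_, ?_, ?_, ?_, hHn⟩
  · have h1 := hpow (4 * B + (A + 5)) 0 (by omega) (by omega)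
    rw [pow_add, pow_zero, mul_one] at h1
    have h2 : 2 * ((R ^ 4 + 2 : ℕ) : ℝ) * L ^ (A + 5) ≤ P := by
      have h3 : ((R ^ 4 + 2 : ℕ) : ℝ) * L ^ (A + 5) ≤ 3 * L ^ (4 * B) * L ^ (A + 5) :=
        mul_le_mul_of_nonneg_right hw0 (by positivity)
      have h4 : 0 ≤ L ^ (4 * B) * L ^ (A + 5) := by positivity
      nlinarith only [hP100r, h1, h3]
    have h5 := hPP _ (by positivity) h2
    calc 2 * ((R ^ 4 + 2 : ℕ) : ℝ) * P * L ^ (A + 5) = 2 * ((R ^ 4 + 2 : ℕ) : ℝ) * L ^ (A + 5) * P := by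
          ring
      _ ≤ (P : ℝ) ^ 5 := h5
      _ ≤ H := hPHr
  · have h1 := hpow (4 * B + ((A + 5) + (A + 4))) 20 (by omega) (by omega)
    rw [pow_add, pow_add] at h1
    have h2 : ((R ^ 4 + 2 : ℕ) : ℝ) * (2 * L ^ (A + 5) * Q ^ 20 * L ^ (A + 4)) ≤ P := by
      have h3 : ((R ^ 4 + 2 : ℕ) : ℝ) * (2 * L ^ (A + 5) * Q ^ 20 * L ^ (A + 4)) ≤
          3 * L ^ (4 * B) * (2 * L ^ (A + 5) * Q ^ 20 * L ^ (A + 4)) :=
        mul_le_mul_of_nonneg_right hw0 (by positivity)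
      have h4 : 0 ≤ L ^ (4 * B) * (L ^ (A + 5) * L ^ (A + 4)) * Q ^ 20 := by positivity
      have h5 : 3 * L ^ (4 * B) * (2 * L ^ (A + 5) * Q ^ 20 * L ^ (A + 4)) =
          6 * (L ^ (4 * B) * (L ^ (A + 5) * L ^ (A + 4)) * Q ^ 20) := by ring
      linarith only [hP100r, h1, h3]
    have h5 := hPP _ (by positivity) h2
    calc ((R ^ 4 + 2 : ℕ) : ℝ) * P * (2 * L ^ (A + 5) * Q ^ 20 * L ^ (A + 4)) =
          ((R ^ 4 + 2 : ℕ) : ℝ) * (2 * L ^ (A + 5) * Q ^ 20 * L ^ (A + 4)) * P := by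
          ring
      _ ≤ (P : ℝ) ^ 5 := h5
      _ ≤ H := hPHr
  · have h1 := hpow (A + 5) 60 (by omega) (by omega)
    have h2 : 2 * L ^ (A + 5) * Q ^ 60 ≤ P := by
      have : 0 ≤ L ^ (A + 5) * Q ^ 60 := by positivity
      linarith only [hP100r, h1]
    calc 2 * L ^ (A + 5) * Q ^ 60 * (P : ℝ) ^ 3 ≤ P * (P : ℝ) ^ 3 :=
          mul_le_mul_of_nonneg_right h2 (by positivity)
      _ = (P : ℝ) ^ 4 := by ring
      _ ≤ (P : ℝ) ^ 5 := pow_le_pow_right₀ hP1 (by norm_num)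
      _ ≤ H := hPHr
  · have h1 := hpow (A + 5) 20 (by omega) (by omega)
    have h2 : 2 * L ^ (A + 5) * Q ^ 20 ≤ P := by
      have : 0 ≤ L ^ (A + 5) * Q ^ 20 := by positivity
      linarith only [hP100r, h1]
    have h4 : (H : ℝ) ≤ (H : ℝ) ^ 2 := le_self_pow₀ (by linarith only [hP100r, hPH1]) (by norm_num)
    have h5 : ((n * H : ℕ) : ℝ) ≤ N := Nat.cast_le.mpr hnH
    rw [Nat.cast_mul] at h5
    calc 2 * L ^ (A + 5) * Q ^ 20 * (n : ℝ) ^ 2 ≤ (H : ℝ) ^ 2 * (n : ℝ) ^ 2 :=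
          mul_le_mul_of_nonneg_right (h2.trans (hPH1.trans h4)) (by positivity)
      _ = ((n : ℝ) * H) ^ 2 := by ring
      _ ≤ (N : ℝ) ^ 2 := pow_le_pow_left₀ (by positivity) h5 2
  · have h1 := hpow (C4 + ((A + 5) + (A + 3))) 20 (by omega) (by omega)
    rw [pow_add, pow_add] at h1
    have h2 : L ^ C4 * (2 * L ^ (A + 5) * Q ^ 20 * L ^ (A + 3)) ≤ P := by
      have h4 : 0 ≤ L ^ C4 * (L ^ (A + 5) * L ^ (A + 3)) * Q ^ 20 := by positivity
      have h5 : L ^ C4 * (2 * L ^ (A + 5) * Q ^ 20 * L ^ (A + 3)) =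
          2 * (L ^ C4 * (L ^ (A + 5) * L ^ (A + 3)) * Q ^ 20) := by ring
      linarith only [hP100r, h1]
    have h5 := hPP _ (by positivity) h2
    have h6 : ((n * H : ℕ) : ℝ) ≤ N := Nat.cast_le.mpr hnH
    rw [Nat.cast_mul] at h6
    calc (P : ℝ) * L ^ C4 * ((n : ℝ) * (2 * L ^ (A + 5) * Q ^ 20 * L ^ (A + 3))) =
          (n : ℝ) * (L ^ C4 * (2 * L ^ (A + 5) * Q ^ 20 * L ^ (A + 3)) * P) := by ring
      _ ≤ (n : ℝ) * (H : ℝ) := mul_le_mul_of_nonneg_left (h5.trans hPHr) (Nat.cast_nonneg n)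
      _ ≤ (N : ℝ) := h6
  · calc P * P = P ^ 2 := by ring
      _ ≤ P ^ 5 := Nat.pow_le_pow_right (by omega) (by norm_num)
      _ ≤ H := hPH
      _ ≤ H ^ 2 := Nat.le_self_pow (by norm_num) H
      _ ≤ N := hHN

/-- `n ≥ N^(1/4)` -/
private theorem LfuX_quarter {N H n : ℕ} (hN : 16 ≤ N) (h1 : N ≤ 2 * (n * H)) (h2 : H ≤ n) :
    (N : ℝ) ^ (1 / 4 : ℝ) ≤ n := by
  have hNr : (16 : ℝ) ≤ N := by exact_mod_cast hN
  have h3 : N ≤ 2 * (n * n) := h1.trans (by nlinarith only [h2])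
  have h4 : (N : ℝ) ≤ 2 * (n : ℝ) ^ 2 := by
    have : ((N : ℕ) : ℝ) ≤ ((2 * (n * n) : ℕ) : ℝ) := Nat.cast_le.mpr h3
    push_cast at this
    linarith
  have h5 : (N : ℝ) ≤ (n : ℝ) ^ 4 := by
    have h6 : (4 : ℝ) ≤ (n : ℝ) ^ 2 := by nlinarith only [hNr, h4]
    nlinarith only [hNr, h4, sq_nonneg ((n : ℝ) ^ 2)]
  calc (N : ℝ) ^ (1 / 4 : ℝ) ≤ ((n : ℝ) ^ 4) ^ (1 / 4 : ℝ) :=
        Real.rpow_le_rpow (by positivity) h5 (by norm_num)
    _ = n := by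
      rw [← Real.rpow_natCast, ← Real.rpow_mul (Nat.cast_nonneg n)]
      norm_num

/-- `K2 ≥ N^(1/2)` -/
private theorem LfuX_half {N P : ℕ} (hN : 16 ≤ N) (hP : 0 < P) (h1 : P * P ≤ N) :
    (N : ℝ) ^ (1 / 2 : ℝ) ≤ ((5 * N / P : ℕ) : ℝ) := by
  rw [← Real.sqrt_eq_rpow]
  have hs : Real.sqrt N * Real.sqrt N = N := Real.mul_self_sqrt (Nat.cast_nonneg N)
  have hPr : (0 : ℝ) < P := by exact_mod_cast hP
  have hPs : (P : ℝ) ≤ Real.sqrt N := by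
    apply Real.le_sqrt_of_sq_le
    have : ((P * P : ℕ) : ℝ) ≤ N := Nat.cast_le.mpr h1
    push_cast at this
    nlinarith only [this]
  have hs1 : 1 ≤ Real.sqrt N := by
    apply Real.le_sqrt_of_sq_le
    have : (16 : ℝ) ≤ N := by exact_mod_cast hN
    linarith only [this]
  have h2 : 5 * N < (5 * N / P + 1) * P :=
    lt_of_lt_of_eq (Nat.lt_mul_div_succ (5 * N) hP) (mul_comm _ _)
  have h3 : 5 * (N : ℝ) < (((5 * N / P : ℕ) : ℝ) + 1) * P := by exact_mod_cast h2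
  have h4 : (Real.sqrt N + 1) * P ≤ 5 * N := by nlinarith only [hs, hPr, hPs, hs1]
  have h5 : (Real.sqrt N + 1) * P < (((5 * N / P : ℕ) : ℝ) + 1) * P := lt_of_le_of_lt h4 h3
  have h6 := lt_of_mul_lt_mul_right h5 hPr.le
  linarith only [h6]

/-- the growth condition -/
private theorem LfuX_small (t t2 : ℝ) (h02 : 0 < t2) (h2 : t2 < t) (E : ℕ) :
    ∀ᶠ N : ℕ in Filter.atTop, 10 * (Real.log N ^ E * Real.exp (Real.log N ^ t2) ^ 60) ≤
      Real.exp (Real.log N ^ t) := by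
  have ht : 0 < t := h02.trans h2
  have hlog : Filter.Tendsto (fun N : ℕ => Real.log N) Filter.atTop Filter.atTop :=
    Real.tendsto_log_atTop.comp tendsto_natCast_atTop_atTop
  have key : ∀ᶠ L : ℝ in Filter.atTop, 10 * (L ^ E * Real.exp (L ^ t2) ^ 60) ≤ Real.exp (L ^ t) := by
    have h3 : ∀ᶠ L : ℝ in Filter.atTop, 120 ≤ L ^ (t - t2) :=
      (tendsto_rpow_atTop (sub_pos.mpr h2)).eventually_ge_atTop 120
    have h4 := (isLittleO_log_rpow_atTop ht).def (c := 1 / (4 * (E + 1) : ℝ)) (by positivity)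
    have h5 : ∀ᶠ L : ℝ in Filter.atTop, 16 ≤ L ^ t := (tendsto_rpow_atTop ht).eventually_ge_atTop 16
    filter_upwards [h3, h4, h5, Filter.eventually_ge_atTop 1] with L h3 h4 h5 h6
    have hL0 : 0 < L := by linarith only [h6]
    have hLt : 0 < L ^ t := Real.rpow_pos_of_pos hL0 t
    have hLt2 : 0 < L ^ t2 := Real.rpow_pos_of_pos hL0 t2
    have h33 : L ^ t = L ^ (t - t2) * L ^ t2 := by
      rw [← Real.rpow_add hL0]
      congr 1
      ring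
    have h34 : 120 * L ^ t2 ≤ L ^ t := by
      rw [h33]
      exact mul_le_mul_of_nonneg_right h3 hLt2.le
    rw [Real.norm_of_nonneg (Real.log_nonneg h6), Real.norm_of_nonneg hLt.le] at h4
    have h7 : L ^ E = Real.exp (E * Real.log L) := by
      rw [mul_comm, Real.exp_mul, Real.exp_log hL0, Real.rpow_natCast]
    have h8 : Real.exp (L ^ t2) ^ 60 = Real.exp (60 * L ^ t2) := by
      rw [← Real.exp_nat_mul]
      norm_num
    have h9 : (10 : ℝ) ≤ Real.exp 3 := by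
      have h10 : (2.7 : ℝ) ≤ Real.exp 1 := by
        have := Real.exp_one_gt_d9
        linarith only [this]
      have h11 : Real.exp 3 = Real.exp 1 ^ 3 := by
        rw [← Real.exp_nat_mul]
        norm_num
      rw [h11]
      calc (10 : ℝ) ≤ 2.7 ^ 3 := by norm_num
        _ ≤ Real.exp 1 ^ 3 := pow_le_pow_left₀ (by norm_num) h10 3
    have h12 : E * Real.log L ≤ L ^ t / 4 := by
      have hE1 : (0 : ℝ) < 4 * (E + 1) := by positivity
      rw [one_div_mul_eq_div, le_div_iff₀ hE1] at h4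
      have h13 : 0 ≤ Real.log L := Real.log_nonneg h6
      nlinarith only [h4, h13]
    calc 10 * (L ^ E * Real.exp (L ^ t2) ^ 60)
        ≤ Real.exp 3 * (L ^ E * Real.exp (L ^ t2) ^ 60) := by
          apply mul_le_mul_of_nonneg_right h9
          positivity
      _ = Real.exp (3 + (E * Real.log L + 60 * L ^ t2)) := by
          rw [h7, h8, Real.exp_add, Real.exp_add]
      _ ≤ Real.exp (L ^ t) := by
          apply Real.exp_le_exp.mpr
          linarith only [h5, hLt2, h34, h12]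
  exact hlog.eventually key

theorem lfu_x (t t1 t2 : ℝ) (h01 : 0 < t1) (h1 : t1 < t) (ht : t < 1) (h02 : 0 < t2) (h2 : t2 < t) (hVK : VKw t1)
    (hSW : SWp) (hCX : CombX t t2) (A : ℕ) : ∃ B0 : ℕ, ∀ B : ℕ, B0 ≤ B → ∃ N0 : ℕ,
    ∀ N : ℕ, N0 ≤ N → ∀ H P : ℕ, Real.exp (Real.log N ^ t) ≤ P → P ^ 5 ≤ H → H ^ 2 ≤ N →
    ((badB (Fp (hR ⌊Real.log N ^ B⌋₊) P) N H (H / Real.log N ^ A)).card : ℝ) ≤ (N / H : ℝ) / Real.log N ^ A := by
  obtain ⟨C0, hC0⟩ : ∃ C0, C0 = 5 * A + 14 := ⟨_, rfl⟩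
  obtain ⟨C1, N3, hcomb⟩ := hCX 30 (by norm_num) C0
  obtain ⟨C4, hms⟩ := ms_w t1 t h01 h1 hVK hSW (2 * A + 2 * C1 + 3) C1
  obtain ⟨L0, hL0, hcon⟩ := contra_q 10 (by norm_num) A C1
  refine ⟨C1, fun B hB => ?_⟩
  obtain ⟨N1, hms1⟩ := hms B hB
  obtain ⟨N2, hsq2⟩ := hsq B
  obtain ⟨E, hE⟩ : ∃ E, E = 4 * B + 2 * A + C4 + 20 := ⟨_, rfl⟩
  have hlog : Filter.Tendsto (fun N : ℕ => Real.log N) Filter.atTop Filter.atTop :=
    Real.tendsto_log_atTop.comp tendsto_natCast_atTop_atTop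
  obtain ⟨N0, hN0⟩ := Filter.eventually_atTop.mp ((LfuX_small t t2 h02 h2 E).and
    ((hlog.eventually_ge_atTop (max 100 L0)).and
    (Filter.eventually_ge_atTop (max (max N1 N3) (max N2 100)))))
  refine ⟨N0, fun N hN H P hP1 hPH hHN => ?_⟩
  obtain ⟨hP2, hLL, hNN⟩ := hN0 N hN
  have hL100 : 100 ≤ Real.log N := le_trans (le_max_left _ _) hLL
  have hLL0 : L0 ≤ Real.log N := le_trans (le_max_right _ _) hLL
  have hNN1 : N1 ≤ N := le_trans (le_trans (le_max_left _ _) (le_max_left _ _)) hNN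
  have hNN3 : N3 ≤ N := le_trans (le_trans (le_max_right _ _) (le_max_left _ _)) hNN
  have hNN2 : N2 ≤ N := le_trans (le_trans (le_max_left _ _) (le_max_right _ _)) hNN
  have hN100 : 100 ≤ N := le_trans (le_trans (le_max_right _ _) (le_max_right _ _)) hNN
  have hms2 := hms1 N hNN1
  have hsq3 := hsq2 N hNN2
  have hcomb2 := hcomb N hNN3
  obtain ⟨L, hL⟩ : ∃ L, L = Real.log N := ⟨_, rfl⟩
  rw [← hL] at hP1 hP2 hL100 hLL0 hms2 hsq3 hcomb2
  rw [← hL]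
  obtain ⟨Q, hQ⟩ : ∃ Q, Q = Real.exp (L ^ t2) := ⟨_, rfl⟩
  rw [← hQ] at hP2 hcomb2
  have hNpos : 0 < N := by omega
  have hNr : (100 : ℝ) ≤ N := by exact_mod_cast hN100
  have hL1 : 1 ≤ L := by linarith only [h01, h1, ht, hL100]
  have hLpos : 0 < L := by linarith only [h01, h1, ht, hL100]
  have hQ1 : 1 ≤ Q := by
    rw [hQ]
    exact Real.one_le_exp (Real.rpow_nonneg hLpos.le t2)
  have hQ0 : 0 < Q := by linarith only [h01, h1, ht, hQ1]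
  obtain ⟨R, hRdef⟩ : ∃ R, R = ⌊L ^ B⌋₊ := ⟨_, rfl⟩
  rw [← hRdef] at hms2
  rw [← hRdef]
  have hRB : (R : ℝ) ≤ L ^ B := by
    rw [hRdef]
    exact Nat.floor_le (by positivity)
  obtain ⟨n, hn⟩ : ∃ n, n = N / H := ⟨_, rfl⟩
  obtain ⟨hP100, hn1000, hH8, hnH, hNn, hw1, hw2, hη3, hT2, hθN, hPP, hHn⟩ :=
    LfuX_num hL100 hQ1 (hP2.trans hP1) hE hPH hHN hn hRB
  obtain ⟨Q2, hQ2⟩ : ∃ Q2, Q2 = 2 * L ^ (A + 5) * Q ^ 20 := ⟨_, rfl⟩
  rw [← hQ2] at hw2 hT2 hθN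
  have hA5 : 1 ≤ L ^ (A + 5) := one_le_pow₀ hL1
  have hQ21 : 1 ≤ Q2 := by
    rw [hQ2]
    have : 1 ≤ Q ^ 20 := one_le_pow₀ hQ1
    nlinarith only [hA5, this, h01, h1, ht]
  have hPpos : 0 < P := by omega
  have hHpos : 0 < H := by omega
  have hHr : (0 : ℝ) < H := by exact_mod_cast hHpos
  by_contra hbad
  push Not at hbad
  obtain ⟨F0, hF0⟩ : ∃ F0, F0 = badB (Fp (hR R) P) N H (H / L ^ A) := ⟨_, rfl⟩
  rw [← hF0] at hbad
  have hmemF : ∀ i ∈ F0, i ∈ Icc (N / (2 * H)) (4 * N / H) ∧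
      ∃ α : ℝ, H / L ^ A < ‖Bs (Fp (hR R) P) H i α‖ := by
    intro i hi
    rw [hF0] at hi
    exact (LfuX_mem_badB _ _ _ _ _).mp hi
  choose! α hα using fun i hi => (hmemF i hi).2
  obtain ⟨f, hf⟩ : ∃ f, f = cut (N / (16 * P)) (5 * N / P) (hR R) := ⟨_, rfl⟩
  have hrange := fun i hi => LfuX_range hH8 hHN (hmemF i hi).1
  rw [← hn] at hrange
  have hbig : ∀ i ∈ F0, H / L ^ A ≤ ‖Bs (Fp f P) H i (α i)‖ := by
    intro i hi
    obtain ⟨-, -, h3, h4⟩ := hrange i hi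
    rw [hf, LfuX_Bs (hR R) hNpos hPpos h3 h4]
    exact (hα i hi).le
  have hSq : SqB f (R ^ 4 + 2) (N ^ 4) L := by
    rw [hf]
    exact hsq3 R hRB _ _
  have hN4 : N ≤ N ^ 4 := Nat.le_self_pow (by norm_num) N
  have hnHr : (n : ℝ) * H ≤ N := by exact_mod_cast hnH
  have hX : 8 * 10 * (n : ℝ) * H ≤ ((N ^ 4 : ℕ) : ℝ) := by
    push_cast
    have h1 : 100 * (N : ℝ) ≤ (N : ℝ) ^ 4 := by
      have h2 : (N : ℝ) ^ 4 = N ^ 2 * (N * N) := by ring
      rw [h2]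
      have h3 : (1 : ℝ) ≤ N ^ 2 := one_le_pow₀ (by linarith only [h01, h1, ht, hNr])
      have h4 : 100 * (N : ℝ) ≤ N * N := by nlinarith only [hNr]
      nlinarith only [h4, h3]
    linarith
  have hcard : n / L ^ A ≤ (F0.card : ℝ) := by
    refine le_trans ?_ hbad.le
    apply div_le_div_of_nonneg_right _ (by positivity)
    rw [le_div_iff₀ hHr]
    exact hnHr
  have hn1000r : (1000 : ℝ) ≤ n := by exact_mod_cast hn1000
  have hnN : n ≤ N := by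
    rw [hn]
    exact Nat.div_le_self N H
  have hPN : P ≤ N := by nlinarith only [hH8, hnH, hPP, hn1000, hP100]
  obtain ⟨G0, β, R0, hRel, hR0⟩ := base 10 (by norm_num) A L n H P (R ^ 4 + 2) (N ^ 4) f F0 α hL100
    (by linarith only [hn1000r]) (by omega) (by omega) hw1 hSq hX (fun i hi => ⟨(hrange i hi).1, (hrange i hi).2.1⟩)
    hcard hbig
  rw [← hC0] at hR0
  obtain ⟨η, hη⟩ : ∃ η, η = 2 * L ^ (A + 5) / H := ⟨_, rfl⟩
  have h30 : (3 : ℝ) * 10 = 30 := by norm_num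
  rw [h30, ← hη] at hRel
  have hη1 : 0 < η := by rw [hη]; positivity
  have hη0 : 0 ≤ η := hη1.le
  have hηH : η * H = 2 * L ^ (A + 5) := by
    rw [hη]
    field_simp
  obtain ⟨d, b, T, F1, hd1, hdL, hT1, hF1, hF1L, hnz⟩ := hcomb2 n P η F0 G0 α β R0 hP1 hPN hnN
    (LfuX_quarter (by omega) hNn hHn) hη1
    (by
      rw [hη]
      have h1 : 2 * L ^ (A + 5) / H * Q ^ 60 * (P : ℝ) ^ 3 =
          (2 * L ^ (A + 5) * Q ^ 60 * (P : ℝ) ^ 3) / H := by ring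
      rw [h1, div_le_one hHr]
      exact hη3)
    hRel hR0
  have hTL : |T * H| ≤ Q2 * (n : ℝ) ^ 2 := by
    rw [abs_mul, abs_of_pos hHr]
    calc |T| * H ≤ Q ^ 20 * η * (n : ℝ) ^ 2 * H := mul_le_mul_of_nonneg_right hT1 hHr.le
      _ = Q ^ 20 * (η * H) * (n : ℝ) ^ 2 := by ring
      _ = Q2 * (n : ℝ) ^ 2 := by
        rw [hηH, hQ2]
        ring
  have hnzQ : Q ^ 13 * η ≤ Q2 / H := by
    rw [le_div_iff₀ hHr]
    calc Q ^ 13 * η * H = Q ^ 13 * (η * H) := by ring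
      _ = Q ^ 13 * (2 * L ^ (A + 5)) := by rw [hηH]
      _ ≤ Q ^ 20 * (2 * L ^ (A + 5)) :=
        mul_le_mul_of_nonneg_right (pow_le_pow_right₀ hQ1 (by norm_num)) (by positivity)
      _ = Q2 := by
        rw [hQ2]
        ring
  obtain ⟨θ, hθ⟩ : ∃ θ, θ = 1 / ((n : ℝ) * (Q2 * L ^ (A + 3))) := ⟨_, rfl⟩
  have hθden : (0 : ℝ) < n * (Q2 * L ^ (A + 3)) := by positivity
  have hθ0 : 0 < θ := by rw [hθ]; positivity
  have hK2P : 5 * N / P * P ≤ 5 * N := Nat.div_mul_le_self _ _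
  have hPK2 : P ≤ 5 * N / P := by
    rw [Nat.le_div_iff_mul_le hPpos]
    omega
  obtain ⟨hint, hle⟩ := hms2 P (N / (16 * P)) (5 * N / P) (60 * N) d b (T * H) θ hP1
    hPN hd1 hdL (hTL.trans hT2)
    (LfuX_half (by omega) hPpos hPP)
    (by
      rw [Nat.div_le_iff_le_mul_add_pred hPpos]
      nlinarith only [hn1000, hnN, hP100])
    (by omega)
    (by
      have : 2 * P * (5 * N / P) = 2 * (5 * N / P * P) := by ring
      omega)
    (by omega) (by omega) hθ0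
    (by
      rw [hθ, div_le_one hθden]
      have h1 : (1 : ℝ) ≤ L ^ (A + 3) := one_le_pow₀ hL1
      have h2 : (1 : ℝ) ≤ Q2 * L ^ (A + 3) := by nlinarith
      nlinarith)
    (by
      rw [hθ, one_div_mul_eq_div, le_div_iff₀ hθden]
      exact hθN)
  rw [← hf] at hint hle
  have hcon3 := hcon L Q2 n H P (R ^ 4 + 2) (60 * N) (N ^ 4) f ((b : ℝ) / d) (T * H) F1 α hLL0 hQ21
    (by linarith only [hn1000r]) (by omega) (by omega) hw2 hSq hX
    (by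
      push_cast
      linarith only [h01, h1, ht, hNr, hnHr])
    (fun i hi => ⟨(hrange i (hF1 hi)).1, (hrange i (hF1 hi)).2.1⟩)
    hF1L hTL
    (fun i hi => by
      have h2 : T * H / ((i : ℝ) * H) = T / i := mul_div_mul_right _ _ hHr.ne'
      rw [h2]
      exact (hnz i hi).trans hnzQ)
    (fun i hi => hbig i (hF1 hi))
    (by
      rw [← hθ]
      exact hint)
  rw [← hθ] at hcon3
  exact LfuX_end hL100 hθ0 hNpos hNn hcon3 hle

end Pool.Agent.H53.MIX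

end
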