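import Pool.Agent.H43.PJ.H76.EHB.Basic

/-! The parts of this file: H76.EHB.SmallA, H76.EHB.Jred, H35.W.JredE, H76.EHB.Mell, H35.W.MellE, H35.W.PowZ, H35.W.BadM, H35.W.BadN, H76.SP.Defs, H35.W.MelG, H35.W.MelTl, H76.EHB.JB, H91.EHA.T1fin, H76.SP.MelL. -/

section

/-!
# EHB SmallA: pairs with small difference; tails

Fix a real `α` and `d ≥ 1`.
`near_pairs`: pairs `k1, k2 ∈ ks K`, `0 < |k2 - k1| < r0`, `d ∣ k2 - k1`, any measurable `S`:
 each `‖IpS‖ ≤ (Wk + Wk)/2 ≤ 2 A (1/|k1| + 1/|k2|) S2` (`IpS_le`, `Wk_le`; `|k| ≤ K ≤ A ≤ A |r|`), for given `k` there are at most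
 `2 r0/d` integers `k'` with `d ∣ k' - k`, `0 < |k' - k| < r0`; so the sum is `≤ 4 A S2 (2 r0/d) ∑_k 1/|k| ≤ 16 A (1 + log K) (r0/d) S2`.
`equal_pairs`: pairs `k1 = k2 = k`, `S = Icc (-Y) Y`, `K Y ≤ 1/2`: `IpS` is `∫_{|y| ≤ Y} A |FF(α + k y)|^2 dy = (A/|k|) ∫_{|θ| ≤ |k| Y} |FF(α+θ)|^2`
 `≤ (A/|k|) S2` (an interval of length ≤ 1, `FF_parseval`).
-/

set_option autoImplicit false

namespace Pool.Agent.H76.EHB

open Finset MeasureTheory

theorem SmallA_window (f : ℕ → ℝ) (N : ℕ) (u v : ℝ) (huv : u ≤ v) (hv : v ≤ u + 1) :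
    ∫ t in u..v, ‖FF f N t‖ ^ 2 ≤ S2 f N := by
  rw [← FF_parseval f N u]
  apply intervalIntegral.integral_mono_interval le_rfl huv hv
  · exact Filter.Eventually.of_forall fun t => by positivity
  · exact (((FF_continuous f N).norm).pow 2).intervalIntegrable _ _

end Pool.Agent.H76.EHB

end

section

/-!
# EHB Jred: from `JJ` to Mellin transforms

`gg f N α a Θ s` (`s = 1` or `-1`) is `FF(α + s θ) e(-a s θ)` on `(0, Θ]`, zero elsewhere.
For `0 < y ≤ Y` (`K Y ≤ Θ`) the inner sum of `JJ` is `∑_{k ∈ S+} gg_{+}(k y) + ∑_{k ∈ S-} gg_{-}(k y)` with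
`S+ = {1 ≤ k ≤ K : d ∣ k - l}`, `S- = {1 ≤ k ≤ K : d ∣ -k - l}` (from `k < 0`); for `y = -z < 0` it is
`∑_{S+} gg_{-}(k z) + ∑_{S-} gg_{+}(k z)`.  Use `|u+v|^2 ≤ 2|u|^2 + 2|v|^2` and enlarge `(0, Y]` to `(0, ∞)`
(integrable, since the functions are bounded with bounded support).
-/

set_option autoImplicit false

namespace Pool.Agent.H76.EHB

open Finset MeasureTheory

/-- `∫_0^∞ |∑_{k ∈ S} g(k y)|^2 dy` -/
noncomputable def II (S : Finset ℕ) (g : ℝ → ℂ) : ℝ :=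
  ∫ y in Set.Ioi (0 : ℝ), ‖∑ k ∈ S, g (k * y)‖ ^ 2

end Pool.Agent.H76.EHB

end

section

/-!
# W JredE: from `JJT` to the damped integrals `II S (ge ..)`

Proof.  Compare `EHB.JJ_le` (`H76/EHB/Jred.lean`).  Split `[-Y, Y]` at 0.  For `0 < y ≤ Y`, `s = ±1`, `k ∈ S` (`k ≥ 1`):
`F(α + s k y) ee(-a s k y) = ge f N α a Θ s (k y) + F(α + s k y) ee(-a s k y) (1 - exp(-k y/Θ))`.  So
`‖∑_k F(α + s k y) ee(..)‖^2 ≤ 2 ‖∑_k ge(k y)‖^2 + 2 ‖E(y)‖^2`, `‖E(y)‖^2 ≤ |S| ∑_k (K Y/Θ)^2 |F(α + s k y)|^2`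
(`0 ≤ 1 - e^{-u} ≤ u`), and `∫_0^Y |F(α + s k y)|^2 dy = (1/k) ∫_0^{kY} |F(α + s θ)|^2 dθ ≤ S2/k` as `k Y ≤ 1`
(`SmallA_window`, `FF_parseval`).  Two halves: error `≤ 2 · 2 |S| (K Y/Θ)^2 (∑ 1/k) S2`.  The integral of `‖∑ ge‖^2` over
`(0, Y]` is at most that over `(0, ∞)` (integrability: `ge` is bounded by `(∑|f|) exp(-θ/Θ)` and measurable, `k ≥ 1`; if
`S` is empty everything is 0).
-/

set_option autoImplicit false

namespace Pool.Agent.H35.W

open Finset MeasureTheory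
open Pool.Agent.H91.PK (ee)
open Pool.Agent.H76.EHB

private theorem JredE_norm_ee (t : ℝ) : ‖ee t‖ = 1 := Pool.Agent.H91.PK.LSa_norm_ee t

theorem ge_measurable (f : ℕ → ℝ) (N : ℕ) (α a Θ s : ℝ) : Measurable (ge f N α a Θ s) := by
  unfold ge
  refine Measurable.ite (measurableSet_Ioi (a := (0 : ℝ))) ?_ measurable_const
  have h1 : Continuous (fun θ : ℝ => FF f N (α + s * θ)) :=
    (FF_continuous f N).comp (by fun_prop)
  have h2 : Continuous (fun θ : ℝ => ee (-(a * s * θ))) := continuous_ee.comp (by fun_prop)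
  have h3 : Continuous (fun θ : ℝ => ((Real.exp (-(θ / Θ)) : ℝ) : ℂ)) := by fun_prop
  exact ((h1.mul h2).mul h3).measurable

/-- the norm of `ge` at a positive point -/
private theorem JredE_norm_ge (f : ℕ → ℝ) (N : ℕ) (α a Θ s θ : ℝ) (hθ : 0 < θ) :
    ‖ge f N α a Θ s θ‖ = ‖FF f N (α + s * θ)‖ * Real.exp (-(θ / Θ)) := by
  unfold ge
  rw [if_pos hθ, norm_mul, norm_mul, JredE_norm_ee, mul_one, Complex.norm_real, Real.norm_eq_abs,
    abs_of_pos (Real.exp_pos _)]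

theorem norm_ge_le (f : ℕ → ℝ) (N : ℕ) (α a Θ s θ : ℝ) (hθ : 0 < θ) :
    ‖ge f N α a Θ s θ‖ ≤ (∑ n ∈ Icc 1 N, |f n|) * Real.exp (-(θ / Θ)) := by
  rw [JredE_norm_ge f N α a Θ s θ hθ]
  exact mul_le_mul_of_nonneg_right (norm_FF_le f N _) (Real.exp_pos _).le

/-- windows of length at most one, both signs -/
private theorem JredE_window (f : ℕ → ℝ) (N : ℕ) (α s u v : ℝ) (hs : s = 1 ∨ s = -1)
    (huv : u ≤ v) (hv : v ≤ u + 1) :
    ∫ θ in u..v, ‖FF f N (α + s * θ)‖ ^ 2 ≤ S2 f N := by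
  rcases hs with rfl | rfl
  · have h := intervalIntegral.integral_comp_add_left (a := u) (b := v)
      (fun t => ‖FF f N t‖ ^ 2) α
    simp only [one_mul]
    rw [h]
    exact SmallA_window f N _ _ (by linarith) (by linarith)
  · have h := intervalIntegral.integral_comp_sub_left (a := u) (b := v)
      (fun t => ‖FF f N t‖ ^ 2) α
    have e : ∀ θ : ℝ, α + -1 * θ = α - θ := fun θ => by ring
    simp only [e]
    rw [h]
    exact SmallA_window f N _ _ (by linarith) (by linarith)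

private theorem JredE_FF_cont (f : ℕ → ℝ) (N : ℕ) (α s : ℝ) :
    Continuous (fun θ : ℝ => ‖FF f N (α + s * θ)‖ ^ 2) :=
  (((FF_continuous f N).comp (by fun_prop : Continuous fun θ : ℝ => α + s * θ)).norm).pow 2

private theorem JredE_scale (f : ℕ → ℝ) (N : ℕ) (α s Y : ℝ) (k : ℕ) (hk : 1 ≤ k)
    (hs : s = 1 ∨ s = -1) (hY : 0 ≤ Y) (hkY : k * Y ≤ 1) :
    ∫ y in (0 : ℝ)..Y, ‖FF f N (α + s * (k * y))‖ ^ 2 ≤ (1 / (k : ℝ)) * S2 f N := by
  have hk0 : (k : ℝ) ≠ 0 := by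
    have : (1 : ℝ) ≤ k := by exact_mod_cast hk
    linarith
  have h1 := intervalIntegral.integral_comp_mul_left (a := 0) (b := Y)
    (fun t => ‖FF f N (α + s * t)‖ ^ 2) hk0
  rw [h1, smul_eq_mul, mul_zero, ← one_div]
  have hk1 : (0 : ℝ) ≤ (k : ℝ) * Y := by positivity
  exact mul_le_mul_of_nonneg_left
    (JredE_window f N α s 0 (k * Y) hs hk1 (by linarith)) (by positivity)

private theorem JredE_int_ge (S : Finset ℕ) (hS : ∀ k ∈ S, 1 ≤ k) (f : ℕ → ℝ) (N : ℕ)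
    (α a Θ s : ℝ) (hΘ : 0 < Θ) :
    IntegrableOn (fun y => ‖∑ k ∈ S, ge f N α a Θ s (k * y)‖ ^ 2) (Set.Ioi (0 : ℝ)) := by
  obtain ⟨B, hB⟩ : ∃ B : ℝ, B = ∑ n ∈ Icc 1 N, |f n| := ⟨_, rfl⟩
  have hB0 : 0 ≤ B := by
    rw [hB]
    exact Finset.sum_nonneg fun _ _ => abs_nonneg _
  have hmeas : Measurable (fun y => ‖∑ k ∈ S, ge f N α a Θ s (k * y)‖ ^ 2) := by
    refine (Measurable.norm (Finset.measurable_sum S fun k _ => ?_)).pow_const 2
    exact (ge_measurable f N α a Θ s).comp (measurable_const.mul measurable_id)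
  have hi : IntegrableOn (fun y : ℝ => ((S.card : ℝ) * B) ^ 2 * Real.exp (-(1 / Θ) * y))
      (Set.Ioi (0 : ℝ)) :=
    (exp_neg_integrableOn_Ioi 0 (by positivity : 0 < 1 / Θ)).const_mul _
  refine Integrable.mono' hi hmeas.aestronglyMeasurable ?_
  refine (ae_restrict_iff' measurableSet_Ioi).2 (Filter.Eventually.of_forall ?_)
  intro y hy
  have hy0 : (0 : ℝ) < y := hy
  rw [Real.norm_eq_abs, abs_of_nonneg (sq_nonneg _)]
  have h1 : ‖∑ k ∈ S, ge f N α a Θ s (k * y)‖ ≤ (S.card : ℝ) * B * Real.exp (-(1 / Θ) * y) := by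
    refine (norm_sum_le _ _).trans ?_
    have h2 : ∀ k ∈ S, ‖ge f N α a Θ s (k * y)‖ ≤ B * Real.exp (-(1 / Θ) * y) := by
      intro k hk
      have hk1 : (1 : ℝ) ≤ k := by exact_mod_cast hS k hk
      have hky : 0 < (k : ℝ) * y := by positivity
      refine (norm_ge_le f N α a Θ s _ hky).trans ?_
      rw [← hB]
      apply mul_le_mul_of_nonneg_left _ hB0
      apply Real.exp_le_exp.2
      have h3 : y ≤ k * y := by nlinarith
      have h4 : y / Θ ≤ k * y / Θ := by gcongr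
      calc -(k * y / Θ) ≤ -(y / Θ) := by linarith
        _ = -(1 / Θ) * y := by ring
    refine (Finset.sum_le_sum h2).trans (le_of_eq ?_)
    rw [Finset.sum_const, nsmul_eq_mul]
    ring
  have h5 : Real.exp (-(1 / Θ) * y) ≤ 1 := by
    apply Real.exp_le_one_iff.2
    have : 0 ≤ 1 / Θ * y := by positivity
    linarith
  have h6 := Real.exp_pos (-(1 / Θ) * y)
  calc ‖∑ k ∈ S, ge f N α a Θ s (k * y)‖ ^ 2
      ≤ ((S.card : ℝ) * B * Real.exp (-(1 / Θ) * y)) ^ 2 :=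
        pow_le_pow_left₀ (norm_nonneg _) h1 2
    _ = ((S.card : ℝ) * B) ^ 2 * (Real.exp (-(1 / Θ) * y) * Real.exp (-(1 / Θ) * y)) := by ring
    _ ≤ ((S.card : ℝ) * B) ^ 2 * (1 * Real.exp (-(1 / Θ) * y)) := by
        apply mul_le_mul_of_nonneg_left _ (sq_nonneg _)
        exact mul_le_mul_of_nonneg_right h5 h6.le
    _ = ((S.card : ℝ) * B) ^ 2 * Real.exp (-(1 / Θ) * y) := by ring

/-- the half line bound, one sign -/
private theorem JredE_half (f : ℕ → ℝ) (N K : ℕ) (S : Finset ℕ) (hS : S ⊆ Icc 1 K)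
    (α a Y Θ s : ℝ) (hs : s = 1 ∨ s = -1) (hY : 0 ≤ Y) (hKY : K * Y ≤ 1) (hΘ : 0 < Θ) :
    ∫ y in Set.Ioc (0 : ℝ) Y, ‖∑ k ∈ S, FF f N (α + s * (k * y)) * ee (-(a * s * (k * y)))‖ ^ 2
      ≤ 2 * II S (ge f N α a Θ s)
        + 2 * S.card * (K * Y / Θ) ^ 2 * (∑ k ∈ S, 1 / (k : ℝ)) * S2 f N := by
  have hS1 : ∀ k ∈ S, 1 ≤ k := fun k hk => (mem_Icc.1 (hS hk)).1
  have hSK : ∀ k ∈ S, k ≤ K := fun k hk => (mem_Icc.1 (hS hk)).2
  have i1 := JredE_int_ge S hS1 f N α a Θ s hΘ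
  have hsub : Set.Ioc (0 : ℝ) Y ⊆ Set.Ioi 0 := fun y hy => hy.1
  have j1 := i1.mono_set hsub
  have m1 : ∫ y in Set.Ioc (0 : ℝ) Y, ‖∑ k ∈ S, ge f N α a Θ s (k * y)‖ ^ 2
      ≤ II S (ge f N α a Θ s) :=
    setIntegral_mono_set i1 (Filter.Eventually.of_forall fun y => sq_nonneg _)
      (LE.le.eventuallyLE hsub)
  have hc : ∀ k : ℕ, Continuous (fun y : ℝ => ‖FF f N (α + s * (k * y))‖ ^ 2) := fun k =>
    (JredE_FF_cont f N α s).comp (by fun_prop : Continuous fun y : ℝ => (k : ℝ) * y)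
  have hci : ∀ k : ℕ, IntegrableOn (fun y : ℝ => ‖FF f N (α + s * (k * y))‖ ^ 2)
      (Set.Ioc (0 : ℝ) Y) := fun k =>
    ((hc k).integrableOn_Icc (a := 0) (b := Y)).mono_set Set.Ioc_subset_Icc_self
  obtain ⟨c, hcdef⟩ : ∃ c : ℝ, c = 2 * S.card * (K * Y / Θ) ^ 2 := ⟨_, rfl⟩
  have hc0 : 0 ≤ c := by
    rw [hcdef]
    positivity
  have j2 : IntegrableOn (fun y : ℝ => c * ∑ k ∈ S, ‖FF f N (α + s * (k * y))‖ ^ 2)
      (Set.Ioc (0 : ℝ) Y) :=
    (integrable_finsetSum S fun k _ => hci k).const_mul c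
  have hpt : ∀ y ∈ Set.Ioc (0 : ℝ) Y,
      ‖∑ k ∈ S, FF f N (α + s * (k * y)) * ee (-(a * s * (k * y)))‖ ^ 2
        ≤ 2 * ‖∑ k ∈ S, ge f N α a Θ s (k * y)‖ ^ 2
          + c * ∑ k ∈ S, ‖FF f N (α + s * (k * y))‖ ^ 2 := by
    rintro y ⟨hy0, hyY⟩
    obtain ⟨G, hG⟩ : ∃ G : ℂ, G = ∑ k ∈ S, ge f N α a Θ s (k * y) := ⟨_, rfl⟩
    obtain ⟨E, hE⟩ : ∃ E : ℂ, E = ∑ k ∈ S, FF f N (α + s * (k * y)) * ee (-(a * s * (k * y))) *
      ((1 - Real.exp (-(k * y / Θ)) : ℝ) : ℂ) := ⟨_, rfl⟩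
    have hsum : ∑ k ∈ S, FF f N (α + s * (k * y)) * ee (-(a * s * (k * y))) = G + E := by
      rw [hG, hE, ← Finset.sum_add_distrib]
      refine Finset.sum_congr rfl fun k hk => ?_
      have hk1 : (1 : ℝ) ≤ k := by exact_mod_cast hS1 k hk
      have hky : 0 < (k : ℝ) * y := by positivity
      unfold ge
      rw [if_pos hky]
      push_cast
      ring
    have hEn : ‖E‖ ≤ ∑ k ∈ S, (K * Y / Θ) * ‖FF f N (α + s * (k * y))‖ := by
      rw [hE]
      refine (norm_sum_le _ _).trans (Finset.sum_le_sum fun k hk => ?_)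
      have hk1 : (1 : ℝ) ≤ k := by exact_mod_cast hS1 k hk
      have hkK : (k : ℝ) ≤ K := by exact_mod_cast hSK k hk
      rw [norm_mul, norm_mul, JredE_norm_ee, mul_one, Complex.norm_real, Real.norm_eq_abs, mul_comm]
      apply mul_le_mul_of_nonneg_right _ (norm_nonneg _)
      have h1 : k * y ≤ K * Y := mul_le_mul hkK hyY hy0.le (by positivity)
      have h2 : k * y / Θ ≤ K * Y / Θ := by gcongr
      have h3 : 0 ≤ (k : ℝ) * y / Θ := by positivity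
      have h4 : Real.exp (-(k * y / Θ)) ≤ 1 := Real.exp_le_one_iff.2 (by linarith)
      have h5 := Real.add_one_le_exp (-(k * y / Θ))
      rw [abs_of_nonneg (by linarith)]
      linarith
    have hE2 : ‖E‖ ^ 2 ≤ S.card * ((K * Y / Θ) ^ 2 * ∑ k ∈ S, ‖FF f N (α + s * (k * y))‖ ^ 2) := by
      calc ‖E‖ ^ 2 ≤ (∑ k ∈ S, (K * Y / Θ) * ‖FF f N (α + s * (k * y))‖) ^ 2 :=
            pow_le_pow_left₀ (norm_nonneg _) hEn 2
        _ ≤ S.card * ∑ k ∈ S, ((K * Y / Θ) * ‖FF f N (α + s * (k * y))‖) ^ 2 :=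
            sq_sum_le_card_mul_sum_sq
        _ = S.card * ((K * Y / Θ) ^ 2 * ∑ k ∈ S, ‖FF f N (α + s * (k * y))‖ ^ 2) := by
            have e1 : ∑ k ∈ S, ((K * Y / Θ) * ‖FF f N (α + s * (k * y))‖) ^ 2 =
                (K * Y / Θ) ^ 2 * ∑ k ∈ S, ‖FF f N (α + s * (k * y))‖ ^ 2 := by
              rw [Finset.mul_sum]
              exact Finset.sum_congr rfl fun k _ => mul_pow _ _ 2
            rw [e1]
    rw [hsum, ← hG]
    have h6 := norm_add_le G E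
    have h7 := norm_nonneg (G + E)
    have h8 : ‖G + E‖ ^ 2 ≤ 2 * ‖G‖ ^ 2 + 2 * ‖E‖ ^ 2 := by
      nlinarith [sq_nonneg (‖G‖ - ‖E‖), norm_nonneg G, norm_nonneg E]
    calc ‖G + E‖ ^ 2 ≤ 2 * ‖G‖ ^ 2 + 2 * ‖E‖ ^ 2 := h8
      _ ≤ 2 * ‖G‖ ^ 2 + 2 * (S.card * ((K * Y / Θ) ^ 2 *
            ∑ k ∈ S, ‖FF f N (α + s * (k * y))‖ ^ 2)) := by linarith
      _ = 2 * ‖G‖ ^ 2 + c * ∑ k ∈ S, ‖FF f N (α + s * (k * y))‖ ^ 2 := by
          rw [hcdef]
          ring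
  calc ∫ y in Set.Ioc (0 : ℝ) Y, ‖∑ k ∈ S, FF f N (α + s * (k * y)) * ee (-(a * s * (k * y)))‖ ^ 2
      ≤ ∫ y in Set.Ioc (0 : ℝ) Y, (2 * ‖∑ k ∈ S, ge f N α a Θ s (k * y)‖ ^ 2
          + c * ∑ k ∈ S, ‖FF f N (α + s * (k * y))‖ ^ 2) := by
        apply integral_mono_of_nonneg
        · exact Filter.Eventually.of_forall fun y => sq_nonneg _
        · exact (j1.const_mul 2).add j2
        · exact (ae_restrict_iff' measurableSet_Ioc).2 (Filter.Eventually.of_forall hpt)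
    _ = 2 * (∫ y in Set.Ioc (0 : ℝ) Y, ‖∑ k ∈ S, ge f N α a Θ s (k * y)‖ ^ 2)
          + c * ∑ k ∈ S, ∫ y in Set.Ioc (0 : ℝ) Y, ‖FF f N (α + s * (k * y))‖ ^ 2 := by
        rw [integral_add (j1.const_mul 2) j2, integral_const_mul, integral_const_mul,
          integral_finsetSum S fun k _ => hci k]
    _ ≤ 2 * II S (ge f N α a Θ s) + c * ∑ k ∈ S, (1 / (k : ℝ)) * S2 f N := by
        apply add_le_add
        · linarith
        · apply mul_le_mul_of_nonneg_left _ hc0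
          refine Finset.sum_le_sum fun k hk => ?_
          rw [← intervalIntegral.integral_of_le hY]
          have hkK : (k : ℝ) ≤ K := by exact_mod_cast hSK k hk
          exact JredE_scale f N α s Y k (hS1 k hk) hs hY
            ((mul_le_mul_of_nonneg_right hkK hY).trans hKY)
    _ = 2 * II S (ge f N α a Θ s)
        + 2 * S.card * (K * Y / Θ) ^ 2 * (∑ k ∈ S, 1 / (k : ℝ)) * S2 f N := by
        rw [hcdef, ← Finset.sum_mul]
        ring

theorem jred_e (f : ℕ → ℝ) (N K : ℕ) (S : Finset ℕ) (hS : S ⊆ Icc 1 K) (α a Y Θ : ℝ) (hY : 0 ≤ Y)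
    (hKY : K * Y ≤ 1) (hΘ : 0 < Θ) :
    JJT f N (zs S) α a Y
      ≤ 2 * (II S (ge f N α a Θ 1) + II S (ge f N α a Θ (-1)))
        + 4 * S.card * (K * Y / Θ) ^ 2 * (∑ k ∈ S, 1 / (k : ℝ)) * S2 f N := by
  obtain ⟨H, hH⟩ : ∃ H : ℝ → ℂ, H = fun y => ∑ k ∈ zs S,
      FF f N (α + k * y) * ee (-(a * k * y)) := ⟨_, rfl⟩
  have hHc : Continuous H := by
    rw [hH]
    refine continuous_finsetSum _ fun k _ => ?_
    have h1 : Continuous (fun y : ℝ => FF f N (α + k * y)) :=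
      (FF_continuous f N).comp (by fun_prop)
    have h2 : Continuous (fun y : ℝ => ee (-(a * k * y))) := continuous_ee.comp (by fun_prop)
    exact h1.mul h2
  have hJJ : JJT f N (zs S) α a Y = (∫ y in Set.Ioc (0 : ℝ) Y, ‖H y‖ ^ 2) +
      ∫ y in Set.Ioc (0 : ℝ) Y, ‖H (-y)‖ ^ 2 := by
    have h1 : JJT f N (zs S) α a Y = ∫ y in (-Y)..Y, ‖H y‖ ^ 2 := by
      rw [intervalIntegral.integral_of_le (by linarith), ← integral_Icc_eq_integral_Ioc, hH]
      rfl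
    have hi : ∀ u v : ℝ, IntervalIntegrable (fun y => ‖H y‖ ^ 2) volume u v := fun u v =>
      (hHc.norm.pow 2).intervalIntegrable u v
    rw [h1, ← intervalIntegral.integral_add_adjacent_intervals (hi (-Y) 0) (hi 0 Y),
      ← intervalIntegral.integral_of_le hY, ← intervalIntegral.integral_of_le hY,
      intervalIntegral.integral_comp_neg (fun y => ‖H y‖ ^ 2), neg_zero, add_comm]
  have hHs : ∀ y : ℝ, H y = ∑ k ∈ S, FF f N (α + k * y) * ee (-(a * k * y)) := by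
    intro y
    rw [hH]
    simp only
    unfold zs
    rw [Finset.sum_image (fun i _ j _ h => by exact_mod_cast h)]
    push_cast
    rfl
  have hp : ∀ y : ℝ, H y =
      ∑ k ∈ S, FF f N (α + 1 * (k * y)) * ee (-(a * 1 * (k * y))) := by
    intro y
    rw [hHs]
    refine Finset.sum_congr rfl fun k _ => ?_
    congr 2 <;> ring
  have hm : ∀ y : ℝ, H (-y) =
      ∑ k ∈ S, FF f N (α + (-1) * (k * y)) * ee (-(a * (-1) * (k * y))) := by
    intro y
    rw [hHs]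
    refine Finset.sum_congr rfl fun k _ => ?_
    congr 2 <;> ring
  have e1 := JredE_half f N K S hS α a Y Θ 1 (Or.inl rfl) hY hKY hΘ
  have e2 := JredE_half f N K S hS α a Y Θ (-1) (Or.inr rfl) hY hKY hΘ
  have a1 : ∫ y in Set.Ioc (0 : ℝ) Y, ‖H y‖ ^ 2 = ∫ y in Set.Ioc (0 : ℝ) Y,
      ‖∑ k ∈ S, FF f N (α + 1 * (k * y)) * ee (-(a * 1 * (k * y)))‖ ^ 2 := by
    simp only [hp]
  have a2 : ∫ y in Set.Ioc (0 : ℝ) Y, ‖H (-y)‖ ^ 2 = ∫ y in Set.Ioc (0 : ℝ) Y,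
      ‖∑ k ∈ S, FF f N (α + (-1) * (k * y)) * ee (-(a * (-1) * (k * y)))‖ ^ 2 := by
    simp only [hm]
  rw [hJJ, a1, a2]
  linarith

/-- the `L^2` norm of the damped function -/
theorem ge_L2 (f : ℕ → ℝ) (N : ℕ) (α a Θ s : ℝ) (hΘ0 : 0 < Θ) (hΘ : Θ ≤ 1) (hs : s = 1 ∨ s = -1) :
    ∫ θ in Set.Ioi (0 : ℝ), ‖ge f N α a Θ s θ‖ ^ 2 ≤ 2 * S2 f N := by
  have hS2 := S2_nonneg f N
  have hcont : Continuous (fun θ : ℝ => Real.exp (-(2 * θ)) * ‖FF f N (α + s * θ)‖ ^ 2) :=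
    (by fun_prop : Continuous fun θ : ℝ => Real.exp (-(2 * θ))).mul (JredE_FF_cont f N α s)
  have hint : IntegrableOn (fun θ : ℝ => Real.exp (-(2 * θ)) * ‖FF f N (α + s * θ)‖ ^ 2)
      (Set.Ioi (0 : ℝ)) := by
    have h1 : IntegrableOn (fun θ : ℝ => Real.exp (-2 * θ)) (Set.Ioi (0 : ℝ)) :=
      exp_neg_integrableOn_Ioi 0 (by norm_num)
    have h2 : IntegrableOn (fun θ : ℝ => ((N : ℝ) * S2 f N) * Real.exp (-2 * θ))
      (Set.Ioi (0 : ℝ)) := h1.const_mul _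
    refine Integrable.mono' h2 hcont.aestronglyMeasurable ?_
    refine Filter.Eventually.of_forall fun θ => ?_
    have h3 := norm_FF_sq_le f N (α + s * θ)
    rw [Real.norm_eq_abs, abs_of_nonneg (by positivity), mul_comm]
    have e : -(2 * θ) = -2 * θ := by ring
    rw [e]
    exact mul_le_mul_of_nonneg_right h3 (Real.exp_pos _).le
  have hle : ∫ θ in Set.Ioi (0 : ℝ), ‖ge f N α a Θ s θ‖ ^ 2
      ≤ ∫ θ in Set.Ioi (0 : ℝ), Real.exp (-(2 * θ)) * ‖FF f N (α + s * θ)‖ ^ 2 := by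
    apply integral_mono_of_nonneg
    · exact Filter.Eventually.of_forall fun y => sq_nonneg _
    · exact hint
    · refine (ae_restrict_iff' measurableSet_Ioi).2 (Filter.Eventually.of_forall ?_)
      intro θ hθ
      have hθ0 : (0 : ℝ) < θ := hθ
      simp only
      rw [JredE_norm_ge f N α a Θ s θ hθ0, mul_pow, mul_comm]
      apply mul_le_mul_of_nonneg_right _ (sq_nonneg _)
      rw [← Real.exp_nat_mul]
      apply Real.exp_le_exp.2
      have h1 : θ ≤ θ / Θ := by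
        rw [le_div_iff₀ hΘ0]
        nlinarith
      push_cast
      linarith
  refine hle.trans ?_
  have hlim := intervalIntegral_tendsto_integral_Ioi (μ := volume) (l := Filter.atTop)
    (b := fun M : ℕ => (M : ℝ)) 0 hint tendsto_natCast_atTop_atTop
  refine le_of_tendsto' hlim fun M => ?_
  have h1 : ∫ θ in (0 : ℝ)..(M : ℝ), Real.exp (-(2 * θ)) * ‖FF f N (α + s * θ)‖ ^ 2
      = ∑ k ∈ range M, ∫ θ in ((k : ℕ) : ℝ)..((k + 1 : ℕ) : ℝ),
          Real.exp (-(2 * θ)) * ‖FF f N (α + s * θ)‖ ^ 2 := by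
    have h := intervalIntegral.sum_integral_adjacent_intervals (μ := volume)
      (f := fun θ => Real.exp (-(2 * θ)) * ‖FF f N (α + s * θ)‖ ^ 2) (a := fun k : ℕ => (k : ℝ))
      (n := M) (fun k _ => hcont.intervalIntegrable _ _)
    rw [h, Nat.cast_zero]
  rw [h1]
  have h2 : ∀ k ∈ range M, ∫ θ in ((k : ℕ) : ℝ)..((k + 1 : ℕ) : ℝ),
      Real.exp (-(2 * θ)) * ‖FF f N (α + s * θ)‖ ^ 2 ≤ (1 / 2) ^ k * S2 f N := by
    intro k _
    have hk1 : ((k : ℕ) : ℝ) ≤ ((k + 1 : ℕ) : ℝ) := by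
      push_cast
      linarith
    have h3 : ∫ θ in ((k : ℕ) : ℝ)..((k + 1 : ℕ) : ℝ),
        Real.exp (-(2 * θ)) * ‖FF f N (α + s * θ)‖ ^ 2
        ≤ ∫ θ in ((k : ℕ) : ℝ)..((k + 1 : ℕ) : ℝ), (1 / 2) ^ k * ‖FF f N (α + s * θ)‖ ^ 2 := by
      apply intervalIntegral.integral_mono_on hk1
      · exact hcont.intervalIntegrable _ _
      · exact (continuous_const.mul (JredE_FF_cont f N α s)).intervalIntegrable _ _
      · rintro θ ⟨hθ1, _⟩
        apply mul_le_mul_of_nonneg_right _ (sq_nonneg _)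
        have h4 : Real.exp (-1) ≤ 1 / 2 := by
          rw [Real.exp_neg, one_div]
          apply inv_anti₀ (by norm_num)
          have := Real.add_one_le_exp (1 : ℝ)
          linarith
        calc Real.exp (-(2 * θ)) ≤ Real.exp (k * (-1)) := by
              apply Real.exp_le_exp.2
              have : (0 : ℝ) ≤ k := by positivity
              linarith
          _ = Real.exp (-1) ^ k := by rw [Real.exp_nat_mul]
          _ ≤ (1 / 2) ^ k := pow_le_pow_left₀ (Real.exp_pos _).le h4 k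
    refine h3.trans ?_
    rw [intervalIntegral.integral_const_mul]
    apply mul_le_mul_of_nonneg_left _ (by positivity)
    apply JredE_window f N α s _ _ hs hk1
    push_cast
    linarith
  refine (Finset.sum_le_sum h2).trans ?_
  rw [← Finset.sum_mul]
  apply mul_le_mul_of_nonneg_right _ hS2
  have h5 := geom_sum_eq (by norm_num : (1 / 2 : ℝ) ≠ 1) M
  have h6 : (0 : ℝ) ≤ (1 / 2) ^ M := by positivity
  have h7 : ((1 / 2 : ℝ) ^ M - 1) / (1 / 2 - 1) = 2 - 2 * (1 / 2) ^ M := by ring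
  rw [h5, h7]
  linarith

end Pool.Agent.H35.W

end

section

/-!
# EHB Mell: Mellin transform on the line 1/2

`Mel g t = ∫_0^∞ g(θ) θ^{-1/2 - i t} dθ` (Mathlib's `mellin g (1/2 - t i)`).
`mel_planch`: with `G(u) = exp(-u/2) g(exp(-u))`, Mathlib's `mellin_eq_fourier` gives
`mellin g (1/2 - i t) = Ĝ(-t/(2π))`.  `g` bounded by `B`, zero outside `(0, Θ]`: `G` is integrable and square integrable,
`∫ |G|^2 du = ∫_0^∞ |g|^2 dθ` (substitution `θ = exp(-u)`), so `planch` and the substitution `ξ = -t/(2π)` give the claim.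
`mel_sum`: `mellin_comp_mul_left`.  `int_sum_sq`: combine (the function `∑ g(k ·)` is again bounded with bounded support).
-/

set_option autoImplicit false

namespace Pool.Agent.H76.EHB

open Finset MeasureTheory

/-- Mellin transform at `1/2 - i t` -/
noncomputable def Mel (g : ℝ → ℂ) (t : ℝ) : ℂ := mellin g (1 / 2 - t * Complex.I)

/-- `∑_{k ∈ S} k^{-1/2 + i t}` -/
noncomputable def ZZ (S : Finset ℕ) (t : ℝ) : ℂ := ∑ k ∈ S, (k : ℂ) ^ (-(1 / 2 : ℂ) + t * Complex.I)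

end Pool.Agent.H76.EHB

end

section

/-!
# W MellE: Mellin-Plancherel for exponentially decreasing functions

Same proofs as `EHB.mel_planch`, `mel_sum`, `int_sum_sq` (file `H76/EHB/Mell.lean`: copy it): there `g` is bounded with
bounded support; the only use is that `GG g u = exp(-u/2) g(exp(-u))` is integrable and in `L^2`.  Now
`‖g θ‖ ≤ B exp(-b θ)` for `θ > 0` gives `‖GG g u‖ ≤ B exp(-u/2) exp(-b exp(-u))`, integrable and square integrable.
-/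

set_option autoImplicit false

namespace Pool.Agent.H35.W

open Finset MeasureTheory
open Pool.Agent.H76.EHB
open Pool.Agent.H91.PK (ee)

private theorem melle_integrable {E : Type*} [NormedAddCommGroup E] {f : ℝ → E}
    (hf : AEStronglyMeasurable f) {c C C' : ℝ} (hc : 0 < c)
    (h1 : ∀ u, ‖f u‖ ≤ C * Real.exp (-c * u)) (h2 : ∀ u, ‖f u‖ ≤ C' * Real.exp (c * u)) :
    Integrable f := by
  rw [← integrableOn_univ, ← Set.Iic_union_Ioi (a := (0 : ℝ))]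
  refine IntegrableOn.union ?_ ?_
  · exact Integrable.mono' ((integrableOn_exp_mul_Iic hc 0).const_mul C') hf.restrict
      (Filter.Eventually.of_forall h2)
  · exact Integrable.mono' ((integrableOn_exp_mul_Ioi (neg_lt_zero.2 hc) 0).const_mul C) hf.restrict
      (Filter.Eventually.of_forall h1)

private theorem melle_subst (h : ℝ → ℝ) :
    ∫ θ in Set.Ioi (0 : ℝ), h θ = ∫ u, Real.exp (-u) * h (Real.exp (-u)) := by
  have him : (Real.exp ∘ Neg.neg) '' (Set.univ : Set ℝ) = Set.Ioi 0 := by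
    rw [Set.image_comp, Set.image_univ_of_surjective neg_surjective, Set.image_univ, Real.range_exp]
  have hder : ∀ x ∈ (Set.univ : Set ℝ),
      HasDerivWithinAt (Real.exp ∘ Neg.neg) (-Real.exp (-x)) Set.univ x := fun x _ =>
    mul_neg_one (Real.exp (-x)) ▸
      ((Real.hasDerivAt_exp (-x)).comp x (hasDerivAt_neg x)).hasDerivWithinAt
  have hinj : Set.InjOn (Real.exp ∘ Neg.neg) (Set.univ : Set ℝ) :=
    (Real.exp_injective.comp neg_injective).injOn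
  rw [← him, integral_image_eq_integral_abs_deriv_smul MeasurableSet.univ hder hinj]
  simp

/-- the function `exp(-u/2) g(exp(-u))` -/
private noncomputable def GG (g : ℝ → ℂ) (u : ℝ) : ℂ :=
  (Real.exp (-(1 / 2) * u) : ℝ) • g (Real.exp (-u))

private theorem GG_measurable (g : ℝ → ℂ) (hg : Measurable g) : Measurable (GG g) := by
  unfold GG
  exact (by fun_prop : Measurable fun u : ℝ => (Real.exp (-(1 / 2) * u) : ℝ)).smul
    (hg.comp (by fun_prop))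

private theorem GG_norm (g : ℝ → ℂ) (u : ℝ) :
    ‖GG g u‖ = Real.exp (-(1 / 2) * u) * ‖g (Real.exp (-u))‖ := by
  unfold GG
  rw [norm_smul, Real.norm_of_nonneg (Real.exp_pos _).le]

private theorem GG_norm_sq (g : ℝ → ℂ) (u : ℝ) :
    ‖GG g u‖ ^ 2 = Real.exp (-u) * ‖g (Real.exp (-u))‖ ^ 2 := by
  rw [GG_norm, mul_pow, ← Real.exp_nat_mul]
  congr 2
  push_cast
  ring

private theorem melle_B (g : ℝ → ℂ) {B b : ℝ} (hB : ∀ θ, 0 < θ → ‖g θ‖ ≤ B * Real.exp (-(b * θ))) :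
    0 ≤ B := by
  have h := (norm_nonneg _).trans (hB 1 one_pos)
  exact nonneg_of_mul_nonneg_left h (Real.exp_pos _)

private theorem melle_exp {b : ℝ} (hb : 0 < b) (θ : ℝ) (hθ : 0 < θ) :
    Real.exp (-(b * θ)) ≤ 1 / (b * θ) := by
  have h1 : 0 < b * θ := mul_pos hb hθ
  have h2 : b * θ ≤ Real.exp (b * θ) := by
    have := Real.add_one_le_exp (b * θ)
    linarith
  rw [Real.exp_neg, ← one_div]
  exact one_div_le_one_div_of_le h1 h2

private theorem GG_le1 (g : ℝ → ℂ) {B b : ℝ} (hb : 0 < b)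
    (hB : ∀ θ, 0 < θ → ‖g θ‖ ≤ B * Real.exp (-(b * θ))) (u : ℝ) :
    ‖GG g u‖ ≤ B * Real.exp (-(1 / 2) * u) := by
  rw [GG_norm, mul_comm B]
  refine mul_le_mul_of_nonneg_left ?_ (Real.exp_pos _).le
  refine (hB _ (Real.exp_pos _)).trans ?_
  have h1 : Real.exp (-(b * Real.exp (-u))) ≤ 1 := by
    rw [Real.exp_le_one_iff]
    have := mul_pos hb (Real.exp_pos (-u))
    linarith
  calc B * Real.exp (-(b * Real.exp (-u))) ≤ B * 1 :=
        mul_le_mul_of_nonneg_left h1 (melle_B g hB)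
    _ = B := mul_one B

private theorem GG_le2 (g : ℝ → ℂ) {B b : ℝ} (hb : 0 < b)
    (hB : ∀ θ, 0 < θ → ‖g θ‖ ≤ B * Real.exp (-(b * θ))) (u : ℝ) :
    ‖GG g u‖ ≤ B / b * Real.exp ((1 / 2) * u) := by
  rw [GG_norm]
  have h1 : ‖g (Real.exp (-u))‖ ≤ B * (1 / (b * Real.exp (-u))) :=
    (hB _ (Real.exp_pos _)).trans
      (mul_le_mul_of_nonneg_left (melle_exp hb _ (Real.exp_pos _)) (melle_B g hB))
  refine (mul_le_mul_of_nonneg_left h1 (Real.exp_pos _).le).trans (le_of_eq ?_)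
  have h2 : Real.exp ((1 / 2) * u) = Real.exp (-(1 / 2) * u) * Real.exp u := by
    rw [← Real.exp_add]
    congr 1
    ring
  have h3 : Real.exp (-u) = (Real.exp u)⁻¹ := Real.exp_neg u
  rw [h2, h3]
  have h4 := (Real.exp_pos u).ne'
  field_simp

private theorem GG_integrable (g : ℝ → ℂ) (hg : Measurable g) (B b : ℝ) (hb : 0 < b)
    (hB : ∀ θ, 0 < θ → ‖g θ‖ ≤ B * Real.exp (-(b * θ))) : Integrable (GG g) :=
  melle_integrable (GG_measurable g hg).aestronglyMeasurable (by norm_num : (0 : ℝ) < 1 / 2)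
    (GG_le1 g hb hB) (GG_le2 g hb hB)

private theorem GG_memLp (g : ℝ → ℂ) (hg : Measurable g) (B b : ℝ) (hb : 0 < b)
    (hB : ∀ θ, 0 < θ → ‖g θ‖ ≤ B * Real.exp (-(b * θ))) : MemLp (GG g) 2 := by
  rw [memLp_two_iff_integrable_sq_norm (GG_measurable g hg).aestronglyMeasurable]
  refine melle_integrable ((GG_measurable g hg).norm.pow_const 2).aestronglyMeasurable
    (c := 1) (C := B ^ 2) (C' := (B / b) ^ 2) one_pos (fun u => ?_) (fun u => ?_)
  · rw [Real.norm_of_nonneg (sq_nonneg _)]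
    refine (pow_le_pow_left₀ (norm_nonneg _) (GG_le1 g hb hB u) 2).trans (le_of_eq ?_)
    rw [mul_pow, ← Real.exp_nat_mul]
    congr 2
    push_cast
    ring
  · rw [Real.norm_of_nonneg (sq_nonneg _)]
    refine (pow_le_pow_left₀ (norm_nonneg _) (GG_le2 g hb hB u) 2).trans (le_of_eq ?_)
    rw [mul_pow, ← Real.exp_nat_mul]
    congr 2
    push_cast
    ring

private theorem melle_Mel_eq (g : ℝ → ℂ) (t : ℝ) :
    Mel g t = ∫ u, GG g u * ee (-(u * (-(1 / (2 * Real.pi)) * t))) := by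
  unfold Mel
  rw [mellin_eq_fourier, Real.fourier_real_eq_integral_exp_smul]
  refine integral_congr_ae (Filter.Eventually.of_forall fun u => ?_)
  have hre : ((1 / 2 : ℂ) - t * Complex.I).re = 1 / 2 := by
    simp
  have him : ((1 / 2 : ℂ) - t * Complex.I).im = -t := by
    simp
  simp only [hre, him]
  rw [smul_eq_mul, mul_comm]
  unfold GG ee
  congr 2
  push_cast
  ring

theorem mel_planch_e (g : ℝ → ℂ) (hg : Measurable g) (B b : ℝ) (hb : 0 < b)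
    (hB : ∀ θ, 0 < θ → ‖g θ‖ ≤ B * Real.exp (-(b * θ))) :
    Integrable (fun t => ‖Mel g t‖ ^ 2) ∧
      ∫ t, ‖Mel g t‖ ^ 2 = 2 * Real.pi * ∫ θ in Set.Ioi (0 : ℝ), ‖g θ‖ ^ 2 := by
  obtain ⟨h1, h2⟩ := planch (GG g) (GG_integrable g hg B b hb hB) (GG_memLp g hg B b hb hB)
  have hpi : (0 : ℝ) < 2 * Real.pi := by positivity
  have ha : -(1 / (2 * Real.pi)) ≠ 0 := neg_ne_zero.2 (by positivity)
  have hfun : (fun t => ‖Mel g t‖ ^ 2) =
      fun t => (fun ξ : ℝ => ‖∫ u, GG g u * ee (-(u * ξ))‖ ^ 2) (-(1 / (2 * Real.pi)) * t) := by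
    funext t
    rw [melle_Mel_eq]
  rw [hfun]
  refine ⟨h1.comp_mul_left' ha, ?_⟩
  rw [Measure.integral_comp_mul_left
    (fun ξ : ℝ => ‖∫ u, GG g u * ee (-(u * ξ))‖ ^ 2) (-(1 / (2 * Real.pi))), h2, smul_eq_mul]
  congr 1
  · rw [inv_neg, one_div, inv_inv, abs_neg, abs_of_pos hpi]
  · rw [melle_subst (fun θ => ‖g θ‖ ^ 2)]
    exact integral_congr_ae (Filter.Eventually.of_forall fun u => GG_norm_sq g u)

private theorem melle_conv (g : ℝ → ℂ) (hg : Measurable g) (B b : ℝ) (hb : 0 < b)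
    (hB : ∀ θ, 0 < θ → ‖g θ‖ ≤ B * Real.exp (-(b * θ))) (t : ℝ) :
    MellinConvergent g (1 / 2 - t * Complex.I) := by
  unfold MellinConvergent
  have hmeas : AEStronglyMeasurable
      (fun θ : ℝ => (θ : ℂ) ^ ((1 / 2 : ℂ) - t * Complex.I - 1) • g θ)
      (volume.restrict (Set.Ioi 0)) := by
    have hc : AEStronglyMeasurable (fun θ : ℝ => (θ : ℂ) ^ ((1 / 2 : ℂ) - t * Complex.I - 1))
        (volume.restrict (Set.Ioi 0)) := ?_
    · exact hc.smul hg.aestronglyMeasurable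
    refine ContinuousOn.aestronglyMeasurable ?_ measurableSet_Ioi
    intro θ hθ
    exact (Complex.continuousAt_ofReal_cpow_const θ _ (Or.inr (ne_of_gt hθ))).continuousWithinAt
  have hI : IntegrableOn (fun θ : ℝ => θ ^ (-(1 / 2) : ℝ) * Real.exp (-b * θ ^ (1 : ℝ)) * B)
      (Set.Ioi 0) :=
    (integrableOn_rpow_mul_exp_neg_mul_rpow (by norm_num) one_pos hb).mul_const B
  refine Integrable.mono' hI hmeas ?_
  refine (ae_restrict_iff' measurableSet_Ioi).2 (Filter.Eventually.of_forall fun θ hθ => ?_)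
  have hθ' : (0 : ℝ) < θ := hθ
  rw [norm_smul, Complex.norm_cpow_eq_rpow_re_of_pos hθ']
  have hre : ((1 / 2 : ℂ) - t * Complex.I - 1).re = -(1 / 2) := by
    simp
    norm_num
  rw [hre, Real.rpow_one, mul_assoc]
  refine mul_le_mul_of_nonneg_left ?_ (Real.rpow_nonneg hθ'.le _)
  refine (hB θ hθ').trans (le_of_eq ?_)
  rw [mul_comm, neg_mul]

private theorem melle_sum (S : Finset ℕ) (hS : ∀ k ∈ S, 1 ≤ k) (g : ℝ → ℂ) (hg : Measurable g)
    (B b : ℝ) (hb : 0 < b) (hB : ∀ θ, 0 < θ → ‖g θ‖ ≤ B * Real.exp (-(b * θ))) (t : ℝ) :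
    Mel (fun y => ∑ k ∈ S, g (k * y)) t = ZZ S t * Mel g t := by
  unfold Mel ZZ
  have hconv := melle_conv g hg B b hb hB t
  rw [sum_mul]
  have h1 : mellin (fun y => ∑ k ∈ S, g (k * y)) (1 / 2 - t * Complex.I) =
      ∑ k ∈ S, mellin (fun y => g (k * y)) (1 / 2 - t * Complex.I) := by
    unfold mellin
    simp only [smul_sum]
    refine integral_finsetSum S fun k hk => ?_
    have hk0 : (0 : ℝ) < k := by exact_mod_cast hS k hk
    exact (MellinConvergent.comp_mul_left hk0).2 hconv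
  rw [h1]
  refine sum_congr rfl fun k hk => ?_
  have hk0 : (0 : ℝ) < k := by exact_mod_cast hS k hk
  rw [mellin_comp_mul_left g _ hk0, smul_eq_mul]
  congr 1
  push_cast
  congr 1
  ring

theorem int_sum_sq_e (S : Finset ℕ) (hS : ∀ k ∈ S, 1 ≤ k) (g : ℝ → ℂ) (hg : Measurable g) (B b : ℝ)
    (hb : 0 < b) (hB : ∀ θ, 0 < θ → ‖g θ‖ ≤ B * Real.exp (-(b * θ))) :
    Integrable (fun t => ‖ZZ S t‖ ^ 2 * ‖Mel g t‖ ^ 2) ∧
      II S g = 1 / (2 * Real.pi) * ∫ t, ‖ZZ S t‖ ^ 2 * ‖Mel g t‖ ^ 2 := by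
  have hfun : (fun t => ‖ZZ S t‖ ^ 2 * ‖Mel g t‖ ^ 2) =
      fun t => ‖Mel (fun y => ∑ k ∈ S, g (k * y)) t‖ ^ 2 := by
    funext t
    rw [melle_sum S hS g hg B b hb hB t, norm_mul, mul_pow]
  have hm : Measurable (fun y : ℝ => ∑ k ∈ S, g (k * y)) :=
    Finset.measurable_sum S fun k _ => hg.comp (by fun_prop)
  have hB0 := melle_B g hB
  have hbd : ∀ y : ℝ, 0 < y → ‖∑ k ∈ S, g (k * y)‖ ≤ S.card * B * Real.exp (-(b * y)) := by
    intro y hy
    refine (norm_sum_le _ _).trans ?_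
    have h3 : ∑ k ∈ S, ‖g ((k : ℝ) * y)‖ ≤ ∑ _k ∈ S, B * Real.exp (-(b * y)) := by
      refine sum_le_sum fun k hk => ?_
      have hk1 : (1 : ℝ) ≤ k := by exact_mod_cast hS k hk
      have hky : y ≤ k * y := by nlinarith
      refine (hB _ (lt_of_lt_of_le hy hky)).trans (mul_le_mul_of_nonneg_left ?_ hB0)
      apply Real.exp_le_exp.2
      have := mul_le_mul_of_nonneg_left hky hb.le
      linarith
    refine h3.trans (le_of_eq ?_)
    rw [sum_const, nsmul_eq_mul, mul_assoc]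
  obtain ⟨h1, h2⟩ := mel_planch_e (fun y => ∑ k ∈ S, g (k * y)) hm (S.card * B) b hb hbd
  rw [hfun]
  refine ⟨h1, ?_⟩
  rw [h2]
  unfold II
  have hpi : (2 * Real.pi) ≠ 0 := by positivity
  field_simp

end Pool.Agent.H35.W

end

section

/-!
# W PowZ: powers of the prime sums

`ZZ S t ^ j = ∑_m a_m m^{-1/2+it}`, `a_m` the number of `(p_1, ..., p_j) ∈ S^j` with product `m`.
Recursion: `a^{(0)} = 1_{m = 1}`, `a^{(j+1)}(m) = ∑_{p ∈ S, p ∣ m} a^{(j)}(m/p)`.  If `a^{(j+1)}(m) ≠ 0` then `m` is a product of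
`j+1` primes, so it has at most `j+1` prime divisors and `a^{(j+1)}(m) ≤ (j+1) a^{(j)}`-max `≤ (j+1)!`
(keep in the induction: `a^{(j)}(m) ≠ 0 → ArithmeticFunction.cardFactors m = j` (`m ≠ 0`), or `m.primeFactors.card ≤ j`).  The support is in
`[1, (2P)^j]`, and `∑_m a_m/m = (∑_{p ∈ S} 1/p)^j ≤ 1` as `∑_{p ∈ S} 1/p ≤ P · (1/P)`.
-/

set_option autoImplicit false

namespace Pool.Agent.H35.W

open Finset
open Pool.Agent.H76.EHB

/-- the number of `j`-tuples of elements of `S` with product `m` -/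
private def powzA (S : Finset ℕ) : ℕ → ℕ → ℕ
  | 0, m => if m = 1 then 1 else 0
  | j + 1, m => ∑ p ∈ S.filter (fun p => p ∣ m), powzA S j (m / p)

private theorem powzA_supp {P : ℕ} {S : Finset ℕ} (hS : S ⊆ pb P) (j : ℕ) :
    ∀ m, powzA S j m ≠ 0 → m.primeFactors.card ≤ j ∧ 1 ≤ m ∧ m ≤ (2 * P) ^ j := by
  induction j with
  | zero =>
    intro m hm
    have h1 : m = 1 := by
      by_contra h
      exact hm (by simp [powzA, h])
    subst h1
    simp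
  | succ j ih =>
    intro m hm
    unfold powzA at hm
    obtain ⟨p, hp, hpm⟩ := Finset.exists_ne_zero_of_sum_ne_zero hm
    rw [Finset.mem_filter] at hp
    have hpb := hS hp.1
    unfold pb at hpb
    rw [Finset.mem_filter, Finset.mem_Ioc] at hpb
    obtain ⟨⟨_, hp2⟩, hpp⟩ := hpb
    obtain ⟨h1, h2, h3⟩ := ih _ hpm
    have hmul : p * (m / p) = m := Nat.mul_div_cancel' hp.2
    have hk : m / p ≠ 0 := by omega
    refine ⟨?_, ?_, ?_⟩
    · rw [← hmul, Nat.primeFactors_mul hpp.ne_zero hk, hpp.primeFactors]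
      refine (Finset.card_union_le _ _).trans ?_
      rw [Finset.card_singleton]
      omega
    · rw [← hmul]
      exact Nat.mul_pos hpp.pos h2
    · rw [← hmul, pow_succ, mul_comm]
      exact Nat.mul_le_mul h3 hp2

private theorem powzA_le {P : ℕ} {S : Finset ℕ} (hS : S ⊆ pb P) (j : ℕ) :
    ∀ m, powzA S j m ≤ j.factorial := by
  induction j with
  | zero =>
    intro m
    unfold powzA
    split_ifs <;> simp
  | succ j ih =>
    intro m
    by_cases hm : powzA S (j + 1) m = 0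
    · rw [hm]
      exact Nat.zero_le _
    · obtain ⟨h1, h2, -⟩ := powzA_supp hS (j + 1) m hm
      unfold powzA
      refine (Finset.sum_le_sum fun p _ => ih (m / p)).trans ?_
      rw [Finset.sum_const, smul_eq_mul, Nat.factorial_succ]
      refine Nat.mul_le_mul_right _ (le_trans (Finset.card_le_card ?_) h1)
      intro p hp
      rw [Finset.mem_filter] at hp
      have hpb := hS hp.1
      unfold pb at hpb
      rw [Finset.mem_filter] at hpb
      exact Nat.mem_primeFactors.2 ⟨hpb.2, hp.2, by omega⟩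

private theorem powzA_sum {R : Type*} [CommSemiring R] {P : ℕ} {S : Finset ℕ} (hS : S ⊆ pb P)
    (h : ℕ → R) (h1 : h 1 = 1) (hm : ∀ p ∈ S, ∀ k, 1 ≤ k → h (p * k) = h p * h k) (j : ℕ) :
    ∑ m ∈ Icc 1 ((2 * P) ^ j), (powzA S j m : R) * h m = (∑ p ∈ S, h p) ^ j := by
  induction j with
  | zero => simp [powzA, h1]
  | succ j ih =>
    have e1 : ∀ m ∈ Icc 1 ((2 * P) ^ (j + 1)), (powzA S (j + 1) m : R) * h m =
        ∑ p ∈ S, (if p ∣ m then (powzA S j (m / p) : R) * h m else 0) := by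
      intro m _
      rw [← Finset.sum_filter]
      show ((∑ p ∈ S.filter (fun p => p ∣ m), powzA S j (m / p) : ℕ) : R) * h m = _
      rw [Nat.cast_sum, Finset.sum_mul]
    rw [Finset.sum_congr rfl e1, Finset.sum_comm, pow_succ' (∑ p ∈ S, h p), ← ih, Finset.sum_mul]
    refine Finset.sum_congr rfl fun p hp => ?_
    have hpb := hS hp
    unfold pb at hpb
    rw [Finset.mem_filter, Finset.mem_Ioc] at hpb
    obtain ⟨⟨_, hp2⟩, hpp⟩ := hpb
    rw [← Finset.sum_filter, Finset.mul_sum]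
    have hinj : Set.InjOn (fun k : ℕ => p * k) (Icc 1 ((2 * P) ^ j) : Finset ℕ) :=
      fun a _ b _ hab => Nat.eq_of_mul_eq_mul_left hpp.pos hab
    have e2 : ∑ k ∈ Icc 1 ((2 * P) ^ j), h p * ((powzA S j k : R) * h k) =
        ∑ m ∈ (Icc 1 ((2 * P) ^ j)).image (fun k => p * k), (powzA S j (m / p) : R) * h m := by
      rw [Finset.sum_image hinj]
      refine Finset.sum_congr rfl fun k hk => ?_
      rw [Finset.mem_Icc] at hk
      rw [Nat.mul_div_cancel_left _ hpp.pos, hm p hp k hk.1]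
      ring
    rw [e2]
    symm
    refine Finset.sum_subset ?_ ?_
    · intro m hm'
      rw [Finset.mem_image] at hm'
      obtain ⟨k, hk, rfl⟩ := hm'
      rw [Finset.mem_Icc] at hk
      rw [Finset.mem_filter, Finset.mem_Icc]
      refine ⟨⟨Nat.mul_pos hpp.pos hk.1, ?_⟩, Dvd.intro _ rfl⟩
      rw [pow_succ, mul_comm]
      exact Nat.mul_le_mul hk.2 hp2
    · intro m hm' hn
      rw [Finset.mem_filter] at hm'
      have : powzA S j (m / p) = 0 := by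
        by_contra h0
        obtain ⟨-, h2, h3⟩ := powzA_supp hS j _ h0
        refine hn (Finset.mem_image.2 ⟨m / p, Finset.mem_Icc.2 ⟨h2, h3⟩, ?_⟩)
        exact Nat.mul_div_cancel' hm'.2
      rw [this, Nat.cast_zero, zero_mul]

theorem pow_z (P j : ℕ) (S : Finset ℕ) (hP : 1 ≤ P) (hS : S ⊆ pb P) :
    ∃ a : ℕ → ℝ, (∀ m, 0 ≤ a m ∧ a m ≤ (j.factorial : ℝ)) ∧
      (∀ t : ℝ, ZZ S t ^ j
        = ∑ m ∈ Icc 1 ((2 * P) ^ j), (a m : ℂ) * (m : ℂ) ^ (-(1 / 2 : ℂ) + t * Complex.I)) ∧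
      ∑ m ∈ Icc 1 ((2 * P) ^ j), a m / m ≤ 1 := by
  refine ⟨fun m => (powzA S j m : ℝ), fun m => ⟨Nat.cast_nonneg _, ?_⟩, fun t => ?_, ?_⟩
  · show (powzA S j m : ℝ) ≤ (j.factorial : ℝ)
    exact_mod_cast powzA_le hS j m
  · have h1 := powzA_sum (R := ℂ) hS (fun m => (m : ℂ) ^ (-(1 / 2 : ℂ) + t * Complex.I)) (by simp)
      (fun p _ k _ => by
        push_cast
        rw [Complex.natCast_mul_natCast_cpow]) j
    unfold ZZ
    rw [← h1]
    refine Finset.sum_congr rfl fun m _ => ?_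
    push_cast
    rfl
  · have h1 := powzA_sum (R := ℝ) hS (fun m => (1 : ℝ) / m) (by simp)
      (fun p _ k _ => by
        push_cast
        rw [one_div_mul_one_div]) j
    have h2 : ∑ m ∈ Icc 1 ((2 * P) ^ j), (powzA S j m : ℝ) / m = (∑ p ∈ S, (1 : ℝ) / p) ^ j := by
      rw [← h1]
      refine Finset.sum_congr rfl fun m _ => ?_
      rw [mul_one_div]
    have hP0 : (0 : ℝ) < P := by exact_mod_cast hP
    have h3 : ∑ p ∈ S, (1 : ℝ) / p ≤ 1 := by
      have h4 : ∀ p ∈ S, (1 : ℝ) / p ≤ 1 / P := by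
        intro p hp
        have hpb := hS hp
        unfold pb at hpb
        rw [Finset.mem_filter, Finset.mem_Ioc] at hpb
        exact one_div_le_one_div_of_le hP0 (by exact_mod_cast hpb.1.1.le)
      refine (Finset.sum_le_sum h4).trans ?_
      rw [Finset.sum_const, nsmul_eq_mul, mul_one_div, div_le_one hP0]
      have h5 : S.card ≤ P := by
        refine (Finset.card_le_card hS).trans ?_
        unfold pb
        refine (Finset.card_filter_le _ _).trans ?_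
        rw [Nat.card_Ioc]
        omega
      exact_mod_cast h5
    show ∑ m ∈ Icc 1 ((2 * P) ^ j), (powzA S j m : ℝ) / m ≤ 1
    rw [h2]
    exact pow_le_one₀ (Finset.sum_nonneg fun p _ => by positivity) h3

end Pool.Agent.H35.W

end

section

/-!
# W BadM: the measure of the set where the prime sum is large

Proof.  Markov: `(P/D)^j vol ≤ ∫_{-T}^T ‖ZZ S t‖^{2j} dt = ∫ ‖ZZ S t ^ j‖^2 ≤ (2T + 4X(1 + log X)) ∑ a_m^2/m`, `X = (2P)^j`
(`pow_z`, `mean_v`), `∑ a_m^2/m ≤ j! ∑ a_m/m ≤ j!`.  (`ZZ S` is continuous: finite sum.)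
-/

set_option autoImplicit false

namespace Pool.Agent.H35.W

open Finset MeasureTheory
open Pool.Agent.H76.EHB

theorem bad_m (P j : ℕ) (S : Finset ℕ) (T D : ℝ) (hP : 1 ≤ P) (hS : S ⊆ pb P) (hT : 0 ≤ T)
    (hD : 0 < D) :
    volume.real {t : ℝ | |t| ≤ T ∧ P / D < ‖ZZ S t‖ ^ 2}
      ≤ (D / P) ^ j * ((2 * T + 4 * (2 * P : ℝ) ^ j * (1 + Real.log ((2 * P : ℝ) ^ j)))
        * j.factorial) := by
  have hP0 : (0 : ℝ) < P := by exact_mod_cast hP
  obtain ⟨a, ha, hpow, hsum⟩ := pow_z P j S hP hS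
  set X : ℕ := (2 * P) ^ j with hX
  have hX1 : 1 ≤ X := Nat.one_le_pow _ _ (by omega)
  have hXr : (X : ℝ) = (2 * P : ℝ) ^ j := by
    rw [hX]
    push_cast
    ring
  have hcont : Continuous fun t : ℝ => ZZ S t := by
    unfold ZZ
    refine continuous_finsetSum _ fun k hk => ?_
    have hk1 : k.Prime := (Finset.mem_filter.1 (hS hk)).2
    refine Continuous.const_cpow (by fun_prop) (Or.inl ?_)
    exact_mod_cast hk1.ne_zero
  have hgcont : Continuous fun t : ℝ => ‖ZZ S t ^ j‖ ^ 2 := by fun_prop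
  have hmean := mean_v (fun m => (a m : ℂ)) X T hX1 hT
  have hsq : ∑ m ∈ Icc 1 X, ‖(a m : ℂ)‖ ^ 2 / m ≤ j.factorial := by
    calc ∑ m ∈ Icc 1 X, ‖(a m : ℂ)‖ ^ 2 / m ≤ ∑ m ∈ Icc 1 X, (j.factorial : ℝ) * (a m / m) := by
          refine Finset.sum_le_sum fun m _ => ?_
          obtain ⟨h0, h1⟩ := ha m
          rw [Complex.norm_real, Real.norm_eq_abs, sq_abs, ← mul_div_assoc]
          refine div_le_div_of_nonneg_right ?_ (Nat.cast_nonneg _)
          rw [sq]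
          exact mul_le_mul_of_nonneg_right h1 h0
      _ = (j.factorial : ℝ) * ∑ m ∈ Icc 1 X, a m / m := by rw [Finset.mul_sum]
      _ ≤ (j.factorial : ℝ) * 1 := mul_le_mul_of_nonneg_left hsum (Nat.cast_nonneg _)
      _ = j.factorial := mul_one _
  have hK0 : 0 ≤ 2 * T + 4 * (X : ℝ) * (1 + Real.log X) := by
    have h1 : 0 ≤ Real.log (X : ℝ) := Real.log_nonneg (by exact_mod_cast hX1)
    positivity
  have hint : ∫ t in (-T)..T, ‖ZZ S t ^ j‖ ^ 2 ≤
      (2 * T + 4 * (X : ℝ) * (1 + Real.log X)) * j.factorial := by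
    have h1 : ∫ t in (-T)..T, ‖ZZ S t ^ j‖ ^ 2 =
        ∫ t in (-T)..T, ‖∑ m ∈ Icc 1 X, (a m : ℂ) * (m : ℂ) ^ (-(1 / 2 : ℂ) + t * Complex.I)‖ ^ 2 := by
      refine intervalIntegral.integral_congr fun t _ => ?_
      show ‖ZZ S t ^ j‖ ^ 2 = _
      rw [hpow t]
    rw [h1]
    exact hmean.trans (mul_le_mul_of_nonneg_left hsq hK0)
  set B : Set ℝ := {t : ℝ | |t| ≤ T ∧ P / D < ‖ZZ S t‖ ^ 2} with hB
  have hBm : MeasurableSet B := by
    have m1 : MeasurableSet {t : ℝ | |t| ≤ T} := measurableSet_le (by fun_prop) measurable_const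
    have m2 : MeasurableSet {t : ℝ | (P : ℝ) / D < ‖ZZ S t‖ ^ 2} :=
      measurableSet_lt measurable_const (hcont.norm.pow 2).measurable
    exact m1.inter m2
  have hBsub : B ⊆ Set.Icc (-T) T := by
    intro t ht
    exact abs_le.1 ht.1
  have hc0 : 0 ≤ (P : ℝ) / D := by positivity
  have h1 : volume.real B * ((P : ℝ) / D) ^ j ≤ ∫ t in B, ‖ZZ S t ^ j‖ ^ 2 := by
    have h2 : ∫ _ in B, ((P : ℝ) / D) ^ j = volume.real B * ((P : ℝ) / D) ^ j := by
      rw [setIntegral_const, smul_eq_mul]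
    rw [← h2]
    refine setIntegral_mono_on ?_ ?_ hBm ?_
    · exact (continuous_const.integrableOn_Icc).mono_set hBsub
    · exact (hgcont.integrableOn_Icc).mono_set hBsub
    · intro t ht
      rw [norm_pow, ← pow_mul, mul_comm, pow_mul]
      exact pow_le_pow_left₀ hc0 ht.2.le j
  have h2 : ∫ t in B, ‖ZZ S t ^ j‖ ^ 2 ≤ ∫ t in (-T)..T, ‖ZZ S t ^ j‖ ^ 2 := by
    rw [intervalIntegral.integral_of_le (by linarith), ← integral_Icc_eq_integral_Ioc]
    refine setIntegral_mono_set hgcont.integrableOn_Icc ?_ hBsub.eventuallyLE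
    exact Filter.Eventually.of_forall fun t => by positivity
  have h3 : volume.real B * ((P : ℝ) / D) ^ j ≤
      (2 * T + 4 * (X : ℝ) * (1 + Real.log X)) * j.factorial := h1.trans (h2.trans hint)
  have h4 : volume.real B = (D / P) ^ j * (volume.real B * ((P : ℝ) / D) ^ j) := by
    have h5 : (D / P) ^ j * ((P : ℝ) / D) ^ j = 1 := by
      rw [← mul_pow]
      have : D / P * (P / D) = 1 := by
        field_simp
      rw [this, one_pow]
    calc volume.real B = 1 * volume.real B := (one_mul _).symm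
      _ = _ := by rw [← h5]; ring
  rw [h4]
  have h6 : (0 : ℝ) ≤ (D / P) ^ j := by positivity
  have h7 := mul_le_mul_of_nonneg_left h3 h6
  rw [hXr] at h7
  exact h7

end Pool.Agent.H35.W

end

section

/-!
# W BadN: the measure of the bad set, choice of the exponent

Proof.  We may assume `c ≤ 1`.  Take `j = ⌈log T / log P⌉₊ ≥ 1`, so `T ≤ P^j` and `j ≤ log T/log P + 1`.  By `bad_m` (with `2T`, `D = L^E`):
`vol ≤ L^{Ej} P^{-j} (4 P^j + 4 · 2^j P^j (1 + j log(2P))) j! ≤ L^{Ej} 2^j · 16 L^2 · j!` (for `P ≤ x`, `T ≤ x^3`,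
`j ≤ 3L + 1 ≤ 4L`, `1 + j log (2P) ≤ 2 · 4L · 2L`-like; adapt the constants) and `j! ≤ j^j ≤ (4L)^j`.  So
`vol ≤ C L^2 (8 L^{E+1})^j ≤ C L^2 L^{(E+2) j}` (`L ≥ 8`) and `L^{(E+2) j} ≤ L^{E+2} · L^{(E+2) log T/log P} ≤ L^{E+2} T^{(E+2)/b}`
as `log P ≥ b log L`.  With `b ≥ 2 (E+2)/c` this is `L^{E+2} T^{c/2}` and `C L^{E+4} ≤ L^{E+5} ≤ T^{c/2}` for `T ≥ L^m`,
`m ≥ 2(E+5)/c`.
-/

set_option autoImplicit false

namespace Pool.Agent.H35.W

open Finset MeasureTheory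
open Pool.Agent.H76.EHB

theorem bad_n (E : ℕ) (c : ℝ) (hc : 0 < c) : ∃ b m x0 : ℕ, ∀ x : ℕ, x0 ≤ x →
    ∀ (P : ℕ) (S : Finset ℕ) (T : ℝ), Real.log x ^ b ≤ P → P ≤ x → S ⊆ pb P →
      Real.log x ^ m ≤ T → T ≤ (x : ℝ) ^ (3 : ℕ) →
      volume.real {t : ℝ | |t| ≤ 2 * T ∧ P / Real.log x ^ E < ‖ZZ S t‖ ^ 2} ≤ T ^ c := by
  obtain ⟨b, hb⟩ := exists_nat_ge (2 * ((E : ℝ) + 2) / c + 1)
  obtain ⟨m, hm⟩ := exists_nat_ge (2 * ((E : ℝ) + 5) / c + 1)
  obtain ⟨x0, hx0⟩ := exists_nat_ge (Real.exp 40)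
  refine ⟨b, m, x0, fun x hx P S T hP hPx hS hT1 hT2 => ?_⟩
  have hxr : Real.exp 40 ≤ (x : ℝ) := hx0.trans (by exact_mod_cast hx)
  have hx1 : (0 : ℝ) < x := (Real.exp_pos 40).trans_le hxr
  set L := Real.log x with hL
  have hL40 : 40 ≤ L := (Real.le_log_iff_exp_le hx1).2 hxr
  have hL0 : 0 < L := by linarith
  have hE0 : 0 ≤ 2 * ((E : ℝ) + 2) / c := by positivity
  have hE1 : 0 ≤ 2 * ((E : ℝ) + 5) / c := by positivity
  have hb1 : (1 : ℝ) ≤ b := by linarith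
  have hm1 : (1 : ℝ) ≤ m := by linarith
  set l := Real.log L with hl
  have hl1 : 1 ≤ l := by
    rw [hl, Real.le_log_iff_exp_le hL0]
    have := Real.exp_one_lt_d9
    linarith
  have hLp : ∀ k : ℕ, L ^ k = Real.exp (k * l) := by
    intro k
    rw [Real.exp_nat_mul, hl, Real.exp_log hL0]
  have hLge1 : ∀ k : ℕ, 1 ≤ L ^ k := fun k => one_le_pow₀ (by linarith)
  have hP1 : (1 : ℝ) ≤ P := (hLge1 b).trans hP
  have hP0 : (0 : ℝ) < P := by linarith
  have hPn : 1 ≤ P := by exact_mod_cast hP1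
  have hT0 : 0 < T := lt_of_lt_of_le (by linarith [hLge1 m]) hT1
  have hlP : b * l ≤ Real.log P := by
    rw [Real.le_log_iff_exp_le hP0, ← hLp]
    exact hP
  have hlT : m * l ≤ Real.log T := by
    rw [Real.le_log_iff_exp_le hT0, ← hLp]
    exact hT1
  have hlT2 : Real.log T ≤ 3 * L := by
    have h := Real.log_le_log hT0 hT2
    rw [Real.log_pow] at h
    push_cast at h
    exact h
  have hlP1 : 1 ≤ Real.log P := by nlinarith
  have hlP0 : 0 < Real.log P := by linarith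
  have hlT0 : 0 ≤ Real.log T := le_trans (by positivity) hlT
  set r := Real.log T / Real.log P with hr
  have hr0 : 0 ≤ r := div_nonneg hlT0 hlP0.le
  obtain ⟨j, hj⟩ : ∃ j, j = ⌈r⌉₊ := ⟨_, rfl⟩
  have hj1 : r ≤ j := hj ▸ Nat.le_ceil r
  have hj2 : (j : ℝ) ≤ r + 1 := hj ▸ (Nat.ceil_lt_add_one hr0).le
  have hrL : r ≤ 3 * L := by
    rw [hr, div_le_iff₀ hlP0]
    nlinarith
  have hj4 : (j : ℝ) ≤ 4 * L := by linarith
  have hTP : T ≤ (P : ℝ) ^ j := by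
    rw [← Real.log_le_log_iff hT0 (by positivity), Real.log_pow]
    have : r * Real.log P ≤ j * Real.log P := mul_le_mul_of_nonneg_right hj1 hlP0.le
    rw [hr, div_mul_cancel₀ _ hlP0.ne'] at this
    exact this
  have h2P : Real.log (2 * P) ≤ 2 * L := by
    have h1 : (2 * P : ℝ) ≤ (x : ℝ) ^ 2 := by
      have h2 : (2 : ℝ) ≤ x := by
        have := Real.add_one_le_exp (40 : ℝ)
        linarith
      have h3 : (P : ℝ) ≤ x := by exact_mod_cast hPx
      nlinarith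
    have h := Real.log_le_log (by positivity) h1
    rw [Real.log_pow] at h
    push_cast at h
    exact h
  have hmain := bad_m P j S (2 * T) (L ^ E) hPn hS (by positivity) (by positivity)
  refine hmain.trans ?_
  have h2j : (1 : ℝ) ≤ 2 ^ j := one_le_pow₀ (by norm_num)
  have hPj : (0 : ℝ) < (P : ℝ) ^ j := by positivity
  have hlog : Real.log ((2 * P : ℝ) ^ j) ≤ 8 * L ^ 2 := by
    rw [Real.log_pow]
    have h1 : 0 ≤ Real.log (2 * (P : ℝ)) := Real.log_nonneg (by linarith)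
    calc (j : ℝ) * Real.log (2 * P) ≤ (4 * L) * (2 * L) :=
          mul_le_mul hj4 h2P h1 (by positivity)
      _ = 8 * L ^ 2 := by ring
  have hX : 2 * (2 * T) + 4 * (2 * P : ℝ) ^ j * (1 + Real.log ((2 * P : ℝ) ^ j)) ≤
      (P : ℝ) ^ j * (2 ^ j * (40 * L ^ 2)) := by
    have h1 : 2 * (2 * T) ≤ 4 * ((P : ℝ) ^ j * 2 ^ j) := by
      have h6 : (P : ℝ) ^ j * 1 ≤ (P : ℝ) ^ j * 2 ^ j := mul_le_mul_of_nonneg_left h2j hPj.le
      linarith
    have h2 : 4 * (2 * P : ℝ) ^ j * (1 + Real.log ((2 * P : ℝ) ^ j)) ≤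
        4 * ((P : ℝ) ^ j * 2 ^ j) * (1 + 8 * L ^ 2) := by
      rw [mul_pow, mul_comm ((2 : ℝ) ^ j)]
      refine mul_le_mul_of_nonneg_left ?_ (by positivity)
      rw [mul_pow, mul_comm ((2 : ℝ) ^ j)] at hlog
      linarith
    have h3 : 0 < (P : ℝ) ^ j * 2 ^ j := by positivity
    have h4 : (1 : ℝ) ≤ L ^ 2 := hLge1 2
    refine (add_le_add h1 h2).trans ?_
    have h5 : 4 * ((P : ℝ) ^ j * 2 ^ j) + 4 * ((P : ℝ) ^ j * 2 ^ j) * (1 + 8 * L ^ 2) =
        ((P : ℝ) ^ j * 2 ^ j) * (8 + 32 * L ^ 2) := by ring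
    rw [h5, ← mul_assoc ((P : ℝ) ^ j)]
    exact mul_le_mul_of_nonneg_left (by linarith) h3.le
  have hfac : (j.factorial : ℝ) ≤ (4 * L) ^ j := by
    have h1 : (j.factorial : ℝ) ≤ (j : ℝ) ^ j := by exact_mod_cast Nat.factorial_le_pow j
    exact h1.trans (pow_le_pow_left₀ (Nat.cast_nonneg _) hj4 j)
  have hstep : (L ^ E / P) ^ j * ((2 * (2 * T) + 4 * (2 * P : ℝ) ^ j * (1 + Real.log ((2 * P : ℝ) ^ j)))
      * j.factorial) ≤ 40 * L ^ 2 * (8 * L ^ (E + 1)) ^ j := by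
    have h0 : 0 ≤ (L ^ E / P) ^ j := by positivity
    have h1 : (2 * (2 * T) + 4 * (2 * P : ℝ) ^ j * (1 + Real.log ((2 * P : ℝ) ^ j))) * j.factorial ≤
        ((P : ℝ) ^ j * (2 ^ j * (40 * L ^ 2))) * (4 * L) ^ j :=
      mul_le_mul hX hfac (Nat.cast_nonneg _) (by positivity)
    refine (mul_le_mul_of_nonneg_left h1 h0).trans (le_of_eq ?_)
    have e1 : (8 * L ^ (E + 1)) ^ j = (L ^ E) ^ j * 2 ^ j * (4 * L) ^ j := by
      rw [← mul_pow, ← mul_pow]
      congr 1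
      ring
    rw [e1, div_pow]
    field_simp
  refine hstep.trans ?_
  have h8 : (8 * L ^ (E + 1)) ^ j ≤ (L ^ (E + 2)) ^ j := by
    refine pow_le_pow_left₀ (by positivity) ?_ j
    have e1 : L ^ (E + 2) = L * L ^ (E + 1) := by ring
    rw [e1]
    exact mul_le_mul_of_nonneg_right (by linarith) (by positivity)
  have h40 : 40 * L ^ 2 ≤ L ^ 3 := by
    have e1 : L ^ 3 = L * L ^ 2 := by ring
    rw [e1]
    exact mul_le_mul_of_nonneg_right hL40 (by positivity)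
  refine (mul_le_mul h40 h8 (by positivity) (by positivity)).trans ?_
  rw [← pow_mul, ← pow_add, hLp, Real.rpow_def_of_pos hT0, Real.exp_le_exp]
  have hf1 : l * ((E : ℝ) + 5) ≤ c / 2 * Real.log T := by
    have h1 : ((E : ℝ) + 5) ≤ c / 2 * m := by
      have h2 : 2 * ((E : ℝ) + 5) / c ≤ m := by linarith
      rw [div_le_iff₀ hc] at h2
      linarith
    calc l * ((E : ℝ) + 5) ≤ l * (c / 2 * m) := mul_le_mul_of_nonneg_left h1 (by linarith)
      _ = c / 2 * (m * l) := by ring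
      _ ≤ c / 2 * Real.log T := mul_le_mul_of_nonneg_left hlT (by linarith)
  have hf2 : ((E : ℝ) + 2) * (l * r) ≤ c / 2 * Real.log T := by
    have h1 : l * r ≤ Real.log T / b := by
      rw [hr, le_div_iff₀ (by linarith), mul_div_assoc', div_mul_eq_mul_div, div_le_iff₀ hlP0]
      calc l * Real.log T * b = Real.log T * (b * l) := by ring
        _ ≤ Real.log T * Real.log P := mul_le_mul_of_nonneg_left hlP hlT0
    have h3 : ((E : ℝ) + 2) ≤ c / 2 * b := by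
      have h2 : 2 * ((E : ℝ) + 2) / c ≤ b := by linarith
      rw [div_le_iff₀ hc] at h2
      linarith
    have h4 : 0 ≤ Real.log T / b := div_nonneg hlT0 (by linarith)
    calc ((E : ℝ) + 2) * (l * r) ≤ ((E : ℝ) + 2) * (Real.log T / b) :=
          mul_le_mul_of_nonneg_left h1 (by positivity)
      _ ≤ (c / 2 * b) * (Real.log T / b) := mul_le_mul_of_nonneg_right h3 h4
      _ = c / 2 * Real.log T := by
          have : (b : ℝ) ≠ 0 := by linarith
          field_simp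
  push_cast
  have hf3 : ((E : ℝ) + 2) * (l * j) ≤ ((E : ℝ) + 2) * (l * (r + 1)) :=
    mul_le_mul_of_nonneg_left (mul_le_mul_of_nonneg_left hj2 (by linarith)) (by positivity)
  have e1 : ((3 : ℝ) + ((E : ℝ) + 2) * j) * l = 3 * l + ((E : ℝ) + 2) * (l * j) := by ring
  have e2 : ((E : ℝ) + 2) * (l * (r + 1)) = ((E : ℝ) + 2) * (l * r) + ((E : ℝ) + 2) * l := by ring
  have e3 : l * ((E : ℝ) + 5) = 3 * l + ((E : ℝ) + 2) * l := by ring
  rw [e1]
  linarith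

end Pool.Agent.H35.W

end

section

/-!
# PROJECT SP, Parts III and IV (MP_967f73_nt): common definitions

Almost all even `N` are `p + p1 p2` with primes `p, p1, p2`, `p` and `p1` at most a power of `log N`.
`L = log x`, `ee(t) = exp(2 π i t)` (`Pool.Agent.H91.PK.ee`; `LSa_ee_add`, `LSa_norm_ee`, `LSa_conj_ee` in
`H91/PK/LSa.lean`), `FF f N θ = ∑_{n ≤ N} f(n) ee(n θ)`, `S2 f N = ∑_{n ≤ N} f(n)^2`, `pb P` = primes in `(P, 2P]`,
`pbl P d l` = those in the class `l mod d`, `cor`, `ge`, `JJT` as in `H35/W/Defs.lean`.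

* `CorL x B m K η N M g` (Part III): the hypotheses on `g`: support, second moment, no correlation with
  `ee(n c/d) n^{2 π i t}` for `|t| ≤ L^(4m)`, small mean square of the correlations over sets of measure `≤ T^η` in
  `T ≤ |t| ≤ 2T`.
* `LVP` = the result of Part II (helper80), used as a hypothesis.
* `rr f P H N = ∑_{p ≤ H, p < N} ∑_{k ∈ pb P, k | N - p} f((N - p)/k)` (`p` prime).
-/

set_option autoImplicit false

namespace Pool.Agent.H76.SP

open Finset MeasureTheory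
open Pool.Agent.H91.PK (ee)
open Pool.Agent.H91.EHA (Lam hR lamR ramS)
open Pool.Agent.H76.EHB
open Pool.Agent.H35.W

/-- Part II (theorem `Pool.Agent.H80.LV.lv`) -/
def LVP : Prop := ∃ η : ℝ, 0 < η ∧ η ≤ 1 ∧ ∀ K A : ℕ, ∃ K' x0 : ℕ, ∀ x : ℕ, x0 ≤ x →
    ∀ (M y d R : ℕ) (c : ℤ) (T : ℝ) (B : Set ℝ), 1 ≤ d → (d : ℝ) ≤ Real.log x ^ A →
      (R : ℝ) ≤ Real.log x ^ A → y ≤ x → Real.log x ^ K' ≤ T → 2 * T ≤ (x : ℝ) ^ (2 : ℕ) →
      MeasurableSet B → (∀ t ∈ B, T ≤ |t| ∧ |t| ≤ 2 * T) →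
      volume.real B ≤ T ^ η * Real.log x ^ A →
      ∫ t in B, ‖cor (hR R) 0 M ((c : ℝ) / d) t y‖ ^ 2 ≤ (x : ℝ) ^ 2 / Real.log x ^ K

/-- the hypotheses of Part III on `g` -/
structure CorL (x B m K : ℕ) (η : ℝ) (N M : ℕ) (g : ℕ → ℝ) : Prop where
  supp : ∀ n, n ∉ Ioc M N → g n = 0
  sq : S2 g N ≤ x * Real.log x ^ 2
  low : ∀ (c : ℤ) (d : ℕ) (t : ℝ) (y : ℕ), 1 ≤ d → (d : ℝ) ≤ Real.log x ^ B →
    IsCoprime c (d : ℤ) → y ≤ N → |t| ≤ Real.log x ^ (4 * m) →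
      ‖cor g 0 M ((c : ℝ) / d) t y‖ ≤ x / Real.log x ^ (3 * m)
  large : ∀ (c : ℤ) (d y : ℕ) (T : ℝ) (𝓑 : Set ℝ), 1 ≤ d → (d : ℝ) ≤ Real.log x ^ B →
    IsCoprime c (d : ℤ) → y ≤ N → Real.log x ^ m ≤ T → 2 * T ≤ (x : ℝ) ^ (2 : ℕ) →
    MeasurableSet 𝓑 → (∀ t ∈ 𝓑, T ≤ |t| ∧ |t| ≤ 2 * T) → volume.real 𝓑 ≤ T ^ η →
      ∫ t in 𝓑, ‖cor g 0 M ((c : ℝ) / d) t y‖ ^ 2 ≤ (x : ℝ) ^ 2 / Real.log x ^ K

/-- logarithms are large -/
theorem log_ge (C : ℝ) : ∃ x0 : ℕ, ∀ x : ℕ, x0 ≤ x → C ≤ Real.log x := by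
  have h := (Real.tendsto_log_atTop.comp (tendsto_natCast_atTop_atTop (R := ℝ))).eventually
    (Filter.eventually_ge_atTop C)
  exact Filter.eventually_atTop.1 h

end Pool.Agent.H76.SP

end

section

/-!
# W MelG: the Mellin transform of the damped exponential sum, and the size of the Gamma factor

`ge f N α a Θ s θ = ∑_n f(n) ee(nα) exp(-w_n θ)`, `w_n = 1/Θ - 2πi s (n - a)`, `Re w_n > 0`, so
`Mel (ge ..) t = Γ(1/2 - it) ∑_n f(n) ee(nα) w_n^{-(1/2 - it)}` (`Complex.integral_cpow_mul_exp_neg_mul_Ioi`;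
`mellin g z = ∫_{(0,∞)} θ^{z-1} g(θ) dθ`, `Mel g t = mellin g (1/2 - it)`).
`|Γ(1/2 - it)|^2 = Γ(1/2-it) Γ(1/2+it) = π / sin(π/2 - iπt) = π / cosh(πt) ≤ 2π e^{-π|t|}` (`Complex.Gamma_mul_Gamma_one_sub`,
`Complex.Gamma_conj`), so `|Γ(1/2 - it)| ≤ 3 e^{-π|t|/2}` (and `≤ 2.51 e^{-π|t|/2}`).
-/

set_option autoImplicit false

namespace Pool.Agent.H35.W

open Finset MeasureTheory
open Pool.Agent.H91.PK (ee)
open Pool.Agent.H76.EHB

/-- the integrand is continuous on the half line -/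
private theorem MelG_cont (z w : ℂ) :
    ContinuousOn (fun θ : ℝ => (θ : ℂ) ^ (z - 1) * Complex.exp (-(w * θ))) (Set.Ioi 0) := by
  apply ContinuousOn.mul
  · intro θ hθ
    apply ContinuousAt.continuousWithinAt
    exact Complex.continuousAt_ofReal_cpow_const θ (z - 1) (Or.inr (ne_of_gt hθ))
  · fun_prop

private theorem MelG_norm (z w : ℂ) {θ : ℝ} (hθ : 0 < θ) :
    ‖(θ : ℂ) ^ (z - 1) * Complex.exp (-(w * θ))‖ = θ ^ (z.re - 1) * Real.exp (-(w.re) * θ) := by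
  rw [norm_mul, Complex.norm_cpow_eq_rpow_re_of_pos hθ, Complex.norm_exp]
  simp

private theorem MelG_int {z w : ℂ} (hz : 0 < z.re) (hw : 0 < w.re) :
    IntegrableOn (fun θ : ℝ => (θ : ℂ) ^ (z - 1) * Complex.exp (-(w * θ))) (Set.Ioi 0) := by
  have h1 : IntegrableOn (fun θ : ℝ => θ ^ (z.re - 1) * Real.exp (-(w.re) * θ ^ (1 : ℝ)))
      (Set.Ioi 0) := integrableOn_rpow_mul_exp_neg_mul_rpow (by linarith) one_pos hw
  refine Integrable.mono' h1 ((MelG_cont z w).aestronglyMeasurable measurableSet_Ioi) ?_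
  rw [ae_restrict_iff' measurableSet_Ioi]
  refine Filter.Eventually.of_forall fun θ hθ => ?_
  rw [MelG_norm z w hθ, Real.rpow_one]

private theorem MelG_diff {z w : ℂ} (hz : 0 < z.re) (hw : 0 < w.re) :
    DifferentiableAt ℂ (fun w : ℂ => ∫ θ in Set.Ioi (0 : ℝ),
      (θ : ℂ) ^ (z - 1) * Complex.exp (-(w * θ))) w := by
  have hε : 0 < w.re / 2 := by linarith
  have hI : IntegrableOn (fun θ : ℝ => θ ^ z.re * Real.exp (-(w.re / 2) * θ ^ (1 : ℝ)))
      (Set.Ioi 0) := integrableOn_rpow_mul_exp_neg_mul_rpow (by linarith) one_pos hε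
  have h := hasDerivAt_integral_of_dominated_loc_of_deriv_le
    (μ := volume.restrict (Set.Ioi (0 : ℝ))) (x₀ := w)
    (F := fun (w : ℂ) (θ : ℝ) => (θ : ℂ) ^ (z - 1) * Complex.exp (-(w * θ)))
    (F' := fun (w : ℂ) (θ : ℝ) => (θ : ℂ) ^ (z - 1) * (Complex.exp (-(w * θ)) * (-θ)))
    (bound := fun θ : ℝ => θ ^ z.re * Real.exp (-(w.re / 2) * θ ^ (1 : ℝ)))
    (s := Metric.ball w (w.re / 2))
    (Metric.ball_mem_nhds w hε)
    (Filter.Eventually.of_forall fun w' =>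
      (MelG_cont z w').aestronglyMeasurable measurableSet_Ioi)
    (MelG_int hz hw)
    (ContinuousOn.aestronglyMeasurable (by
      have h1 := (MelG_cont z w).mul
        (by fun_prop : ContinuousOn (fun θ : ℝ => (-θ : ℂ)) (Set.Ioi 0))
      refine h1.congr fun θ _ => ?_
      rw [Pi.mul_apply]
      ring) measurableSet_Ioi)
    (by
      rw [ae_restrict_iff' measurableSet_Ioi]
      refine Filter.Eventually.of_forall fun θ hθ w' hw' => ?_
      have hθ0 : (0 : ℝ) < θ := hθ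
      have hre : w.re / 2 ≤ w'.re := by
        have h1 := Complex.abs_re_le_norm (w' - w)
        rw [Metric.mem_ball, dist_eq_norm] at hw'
        rw [Complex.sub_re] at h1
        have h2 := (abs_le.1 (h1.trans hw'.le)).1
        linarith
      have e1 : (θ : ℂ) ^ (z - 1) * (Complex.exp (-(w' * θ)) * (-θ)) =
          ((θ : ℂ) ^ (z - 1) * Complex.exp (-(w' * θ))) * (-θ) := by ring
      rw [e1, norm_mul, MelG_norm z w' hθ0, norm_neg, Complex.norm_real, Real.norm_eq_abs,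
        abs_of_pos hθ0, Real.rpow_one]
      have e2 : θ ^ (z.re - 1) * Real.exp (-(w'.re) * θ) * θ =
          θ ^ z.re * Real.exp (-(w'.re) * θ) := by
        rw [Real.rpow_sub_one hθ0.ne']
        field_simp
      rw [e2]
      apply mul_le_mul_of_nonneg_left _ (by positivity)
      apply Real.exp_le_exp.2
      nlinarith)
    hI
    (by
      refine Filter.Eventually.of_forall fun θ w' _ => ?_
      have h1 : HasDerivAt (fun w : ℂ => -(w * θ)) (-(1 * (θ : ℂ))) w' :=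
        ((hasDerivAt_id w').mul_const (θ : ℂ)).neg
      have h2 := (h1.cexp).const_mul ((θ : ℂ) ^ (z - 1))
      have e3 : (θ : ℂ) ^ (z - 1) * (Complex.exp (-(w' * θ)) * -(1 * (θ : ℂ))) =
          (θ : ℂ) ^ (z - 1) * (Complex.exp (-(w' * θ)) * (-θ)) := by rw [one_mul]
      rw [e3] at h2
      exact h2)
  exact h.2.differentiableAt

/-- the Gamma integral with a complex scale -/
private theorem MelG_gamma {z w : ℂ} (hz : 0 < z.re) (hw : 0 < w.re) :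
    ∫ θ in Set.Ioi (0 : ℝ), (θ : ℂ) ^ (z - 1) * Complex.exp (-(w * θ)) =
      Complex.Gamma z * w ^ (-z) := by
  have hopen : IsOpen {w : ℂ | 0 < w.re} := isOpen_lt continuous_const Complex.continuous_re
  have hconn : IsPreconnected {w : ℂ | 0 < w.re} :=
    (convex_halfSpace_re_gt 0).isPreconnected
  have hF : AnalyticOnNhd ℂ (fun w : ℂ => ∫ θ in Set.Ioi (0 : ℝ),
      (θ : ℂ) ^ (z - 1) * Complex.exp (-(w * θ))) {w : ℂ | 0 < w.re} :=
    DifferentiableOn.analyticOnNhd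
      (fun w hw => (MelG_diff hz hw).differentiableWithinAt) hopen
  have hG : AnalyticOnNhd ℂ (fun w : ℂ => Complex.Gamma z * w ^ (-z)) {w : ℂ | 0 < w.re} := by
    refine DifferentiableOn.analyticOnNhd (fun w hw => ?_) hopen
    refine DifferentiableAt.differentiableWithinAt ?_
    exact (differentiableAt_id.cpow_const (Or.inl hw)).const_mul _
  have h1 : (1 : ℂ) ∈ {w : ℂ | 0 < w.re} := by simp
  have hreal : ∀ r : ℝ, 0 < r → (∫ θ in Set.Ioi (0 : ℝ),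
      (θ : ℂ) ^ (z - 1) * Complex.exp (-((r : ℂ) * θ))) = Complex.Gamma z * (r : ℂ) ^ (-z) := by
    intro r hr
    rw [Complex.integral_cpow_mul_exp_neg_mul_Ioi hz hr, mul_comm]
    congr 1
    rw [one_div, Complex.cpow_neg, Complex.inv_cpow]
    rw [Complex.arg_ofReal_of_nonneg hr.le]
    exact Real.pi_ne_zero.symm
  have hfreq : ∃ᶠ w in nhdsWithin (1 : ℂ) {1}ᶜ, (∫ θ in Set.Ioi (0 : ℝ),
      (θ : ℂ) ^ (z - 1) * Complex.exp (-(w * θ))) = Complex.Gamma z * w ^ (-z) := by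
    have ht : Filter.Tendsto (fun r : ℝ => (r : ℂ)) (nhdsWithin (1 : ℝ) {1}ᶜ)
        (nhdsWithin (1 : ℂ) {1}ᶜ) := by
      apply tendsto_nhdsWithin_of_tendsto_nhds_of_eventually_within
      · have := (Complex.continuous_ofReal.tendsto (1 : ℝ)).mono_left
          (nhdsWithin_le_nhds (s := {1}ᶜ))
        simpa using this
      · refine eventually_nhdsWithin_of_forall fun r hr => ?_
        simpa using hr
    refine ht.frequently ?_
    apply Filter.Eventually.frequently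
    have h2 : ∀ᶠ r : ℝ in nhds 1, 0 < r := lt_mem_nhds one_pos
    have h3 : ∀ᶠ r : ℝ in nhdsWithin 1 {1}ᶜ, 0 < r := nhdsWithin_le_nhds h2
    exact h3.mono fun r hr => hreal r hr
  exact hF.eqOn_of_preconnected_of_frequently_eq hG hconn h1 hfreq hw

theorem mel_ge (f : ℕ → ℝ) (N : ℕ) (α a Θ s t : ℝ) (hΘ : 0 < Θ) :
    Mel (ge f N α a Θ s) t = Complex.Gamma (1 / 2 - t * Complex.I)
      * ∑ n ∈ Icc 1 N, (f n : ℂ) * ee (n * α)
        * (((1 / Θ : ℝ) : ℂ) - ((2 * Real.pi * s * ((n : ℝ) - a) : ℝ) : ℂ) * Complex.I)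
            ^ (-(1 / 2 - t * Complex.I) : ℂ) := by
  obtain ⟨z, hz⟩ : ∃ z : ℂ, z = 1 / 2 - t * Complex.I := ⟨_, rfl⟩
  have hzre : 0 < z.re := by rw [hz]; simp
  let w : ℕ → ℂ := fun n =>
    ((1 / Θ : ℝ) : ℂ) - ((2 * Real.pi * s * ((n : ℝ) - a) : ℝ) : ℂ) * Complex.I
  have hw : ∀ n, 0 < (w n).re := by
    intro n
    have : (w n).re = 1 / Θ := by
      simp only [w, Complex.sub_re, Complex.ofReal_re, Complex.re_ofReal_mul, Complex.I_re,
        mul_zero, sub_zero]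
    rw [this]
    positivity
  rw [Mel, ← hz, mellin]
  have h1 : ∀ θ ∈ Set.Ioi (0 : ℝ), (θ : ℂ) ^ (z - 1) • ge f N α a Θ s θ =
      ∑ n ∈ Icc 1 N, ((f n : ℂ) * ee (n * α)) *
        ((θ : ℂ) ^ (z - 1) * Complex.exp (-(w n * θ))) := by
    intro θ hθ
    rw [ge, if_pos (show 0 < θ from hθ), FF, smul_eq_mul, Finset.sum_mul, Finset.sum_mul, Finset.mul_sum]
    refine Finset.sum_congr rfl fun n _ => ?_
    have h2 : ee (n * (α + s * θ)) * ee (-(a * s * θ)) * ((Real.exp (-(θ / Θ)) : ℝ) : ℂ) =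
        ee (n * α) * Complex.exp (-(w n * θ)) := by
      simp only [ee, w]
      rw [Complex.ofReal_exp, ← Complex.exp_add, ← Complex.exp_add, ← Complex.exp_add]
      congr 1
      push_cast
      ring
    calc (θ : ℂ) ^ (z - 1) * ((f n : ℂ) * ee (n * (α + s * θ)) * ee (-(a * s * θ)) *
          ((Real.exp (-(θ / Θ)) : ℝ) : ℂ))
        = (θ : ℂ) ^ (z - 1) * (f n : ℂ) * (ee (n * (α + s * θ)) * ee (-(a * s * θ)) *
          ((Real.exp (-(θ / Θ)) : ℝ) : ℂ)) := by ring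
      _ = _ := by rw [h2]; ring
  rw [setIntegral_congr_fun measurableSet_Ioi h1, integral_finsetSum]
  · rw [Finset.mul_sum]
    refine Finset.sum_congr rfl fun n _ => ?_
    rw [integral_const_mul, MelG_gamma hzre (hw n)]
    simp only [w]
    ring
  · intro n _
    exact (MelG_int hzre (hw n)).const_mul _

theorem gamma_half (t : ℝ) :
    ‖Complex.Gamma (1 / 2 - t * Complex.I)‖ ≤ 3 * Real.exp (-(Real.pi * |t| / 2)) := by
  obtain ⟨z, hz⟩ : ∃ z : ℂ, z = 1 / 2 - t * Complex.I := ⟨_, rfl⟩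
  rw [← hz]
  have h1 : (1 : ℂ) - z = (starRingEnd ℂ) z := by
    rw [hz]
    apply Complex.ext
    · simp; norm_num
    · simp
  have h2 : Complex.Gamma z * (starRingEnd ℂ) (Complex.Gamma z) =
      Real.pi / Complex.sin (Real.pi * z) := by
    rw [← Complex.Gamma_conj, ← h1]
    exact Complex.Gamma_mul_Gamma_one_sub z
  have h3 : Complex.sin (Real.pi * z) = ((Real.cosh (Real.pi * t) : ℝ) : ℂ) := by
    have e : (Real.pi : ℂ) * z = Real.pi / 2 - (Real.pi * t : ℝ) * Complex.I := by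
      rw [hz]; push_cast; ring
    rw [e, Complex.sin_pi_div_two_sub, Complex.cos_mul_I, Complex.ofReal_cosh]
  have h4 : ‖Complex.Gamma z‖ ^ 2 = Real.pi / Real.cosh (Real.pi * t) := by
    have h5 := congrArg norm h2
    rw [h3, norm_mul, Complex.norm_conj, norm_div, Complex.norm_real, Complex.norm_real,
      Real.norm_eq_abs, Real.norm_eq_abs, abs_of_pos Real.pi_pos,
      abs_of_pos (Real.cosh_pos _)] at h5
    rw [pow_two]
    exact h5
  have h5 : Real.exp (Real.pi * |t|) / 2 ≤ Real.cosh (Real.pi * t) := by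
    rw [← Real.cosh_abs, abs_mul, abs_of_pos Real.pi_pos, Real.cosh_eq]
    have := Real.exp_pos (-(Real.pi * |t|))
    linarith
  have h6 : ‖Complex.Gamma z‖ ^ 2 ≤ (3 * Real.exp (-(Real.pi * |t| / 2))) ^ 2 := by
    rw [h4, mul_pow, ← Real.exp_nat_mul]
    have e1 : ((2 : ℕ) : ℝ) * (-(Real.pi * |t| / 2)) = -(Real.pi * |t|) := by push_cast; ring
    rw [e1, Real.exp_neg]
    have hE := Real.exp_pos (Real.pi * |t|)
    calc Real.pi / Real.cosh (Real.pi * t) ≤ Real.pi / (Real.exp (Real.pi * |t|) / 2) :=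
          div_le_div_of_nonneg_left Real.pi_pos.le (by positivity) h5
      _ = (2 * Real.pi) * (Real.exp (Real.pi * |t|))⁻¹ := by field_simp
      _ ≤ 3 ^ 2 * (Real.exp (Real.pi * |t|))⁻¹ := by
          apply mul_le_mul_of_nonneg_right _ (by positivity)
          have := Real.pi_lt_four
          linarith
  exact le_of_sq_le_sq h6 (by positivity)

end Pool.Agent.H35.W

end

section

/-!
# W MelTl: the tail of the Mellin transform

In the setting of `MelCor`.  `|w_n^{-1/2+it}| = |w_n|^{-1/2} exp(-t arg w_n)`, `|w_n| ≥ π S0 ≥ 1`,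
`|arg w_n| = arctan(2πΘ (n - a)) = π/2 - arctan(1/(2πΘ(n-a)))`, so
`|Γ(1/2-it)| |w_n^{-1/2+it}| ≤ 3 S0^{-1/2} exp(-|t| η_n)`, `η_n = arctan(1/(2πΘ(n - a)))` and `0 < n - a ≤ 2N`
(`n ≤ N`, `a ≥ a0 - S0/2`, `S0 ≤ M < n ≤ N`).  `arctan z ≥ (π/4) min(z, 1)` for `z ≥ 0`, so
`η_n ≥ 1/(40 (Θ N + 1))`.
(If `N ≤ M` the left side is 0.)
-/

set_option autoImplicit false

namespace Pool.Agent.H35.W

open Finset MeasureTheory
open Pool.Agent.H91.PK (ee)
open Pool.Agent.H76.EHB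

/-- the argument of a point of the right half plane -/
private theorem mtl_arg {w : ℂ} (hw : 0 < w.re) :
    |Complex.arg w| ≤ Real.pi / 2 - w.re / ‖w‖ := by
  have hw0 : w ≠ 0 := by
    intro h
    rw [h] at hw
    simp at hw
  have h1 : |Complex.arg w| ≤ Real.pi / 2 := Complex.abs_arg_le_pi_div_two_iff.2 hw.le
  have h2 : Real.sin (Real.pi / 2 - |Complex.arg w|) = w.re / ‖w‖ := by
    rw [Real.sin_pi_div_two_sub, Real.cos_abs, Complex.cos_arg hw0]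
  have h3 := Real.sin_le (sub_nonneg.2 h1)
  rw [h2] at h3
  linarith

private theorem mtl_term {Θ s t S0 a : ℝ} {N M a0 n : ℕ} (hs : s = 1 ∨ s = -1) (hΘ : 0 < Θ)
    (hS0 : 1 ≤ S0) (hM : (a0 : ℝ) + S0 ≤ M) (ha : |a - a0| ≤ S0 / 2) (hn : n ∈ Ioc M N) :
    3 * Real.exp (-(Real.pi * |t| / 2)) *
      ‖((((1 / Θ : ℝ) : ℂ) - ((2 * Real.pi * s * ((n : ℝ) - a) : ℝ) : ℂ) * Complex.I)
            ^ (-(1 / 2 - t * Complex.I) : ℂ))‖
      ≤ 3 * Real.exp (-(|t| / (40 * (Θ * N + 1)))) := by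
  have hn' := Finset.mem_Ioc.1 hn
  have hMn : (M : ℝ) + 1 ≤ n := by exact_mod_cast hn'.1
  have hnN : (n : ℝ) ≤ N := by exact_mod_cast hn'.2
  have ha' := abs_le.1 ha
  have ha0 : (0 : ℝ) ≤ a0 := Nat.cast_nonneg _
  have hpi := Real.pi_gt_three
  have hpi4 := Real.pi_lt_d2
  set v : ℝ := (n : ℝ) - a with hv
  have hv1 : 1 / 2 ≤ v := by rw [hv]; linarith
  have hv2 : v ≤ 2 * N := by rw [hv]; linarith
  set w : ℂ := (((1 / Θ : ℝ) : ℂ) - ((2 * Real.pi * s * v : ℝ) : ℂ) * Complex.I) with hw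
  have hre : w.re = 1 / Θ := by
    rw [hw]
    simp
  have him : w.im = -(2 * Real.pi * s * v) := by
    rw [hw]
    simp
  have hrepos : 0 < w.re := by rw [hre]; positivity
  have hw0 : w ≠ 0 := by
    intro h
    rw [h] at hrepos
    simp at hrepos
  have hs1 : |s| = 1 := by
    rcases hs with h | h <;> rw [h] <;> norm_num
  have himabs : |w.im| = 2 * Real.pi * v := by
    rw [him, abs_neg, abs_mul, abs_mul, hs1, abs_of_pos (by linarith : (0 : ℝ) < 2 * Real.pi),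
      abs_of_pos (by linarith : (0 : ℝ) < v)]
    ring
  have hnorm1 : 1 ≤ ‖w‖ := by
    have h1 := Complex.abs_im_le_norm w
    rw [himabs] at h1
    nlinarith
  have hnorm2 : ‖w‖ ≤ 1 / Θ + 4 * Real.pi * N := by
    have h1 := Complex.norm_le_abs_re_add_abs_im w
    rw [himabs, abs_of_pos hrepos, hre] at h1
    have h2 : 2 * Real.pi * v ≤ 2 * Real.pi * (2 * N) :=
      mul_le_mul_of_nonneg_left hv2 (by linarith)
    linarith
  have hN0 : (0 : ℝ) ≤ N := Nat.cast_nonneg _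
  have harg : |Complex.arg w| ≤ Real.pi / 2 - 1 / (40 * (Θ * N + 1)) := by
    have h1 := mtl_arg hrepos
    have h2 : 1 / (40 * (Θ * N + 1)) ≤ w.re / ‖w‖ := by
      rw [hre]
      have h3 : (1 / Θ) / (1 / Θ + 4 * Real.pi * N) ≤ 1 / Θ / ‖w‖ :=
        div_le_div_of_nonneg_left (by positivity) (by linarith) hnorm2
      refine le_trans ?_ h3
      rw [div_le_div_iff₀ (by positivity) (by positivity)]
      have h4 : 1 / Θ * (40 * (Θ * N + 1)) = 40 * N + 40 / Θ := by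
        field_simp
      rw [h4, one_mul]
      have h5 : 4 * Real.pi * N ≤ 40 * N := by nlinarith
      have h6 : 1 / Θ ≤ 40 / Θ := div_le_div_of_nonneg_right (by norm_num) hΘ.le
      linarith
    linarith
  rw [Complex.norm_cpow_of_ne_zero hw0]
  have hzre : (-(1 / 2 - (t : ℂ) * Complex.I)).re = -(1 / 2 : ℝ) := by
    simp
  have hzim : (-(1 / 2 - (t : ℂ) * Complex.I)).im = t := by
    simp
  rw [hzre, hzim]
  have hpow : ‖w‖ ^ (-(1 / 2 : ℝ)) ≤ 1 :=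
    Real.rpow_le_one_of_one_le_of_nonpos hnorm1 (by norm_num)
  have hexp : 1 / Real.exp (Complex.arg w * t) ≤
      Real.exp (|t| * (Real.pi / 2 - 1 / (40 * (Θ * N + 1)))) := by
    rw [one_div, ← Real.exp_neg]
    apply Real.exp_le_exp.2
    calc -(Complex.arg w * t) ≤ |Complex.arg w * t| := neg_le_abs _
      _ = |t| * |Complex.arg w| := by rw [abs_mul, mul_comm]
      _ ≤ _ := mul_le_mul_of_nonneg_left harg (abs_nonneg _)
  have h7 : ‖w‖ ^ (-(1 / 2 : ℝ)) / Real.exp (Complex.arg w * t) ≤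
      Real.exp (|t| * (Real.pi / 2 - 1 / (40 * (Θ * N + 1)))) := by
    refine le_trans ?_ hexp
    exact div_le_div_of_nonneg_right hpow (Real.exp_pos _).le
  calc 3 * Real.exp (-(Real.pi * |t| / 2)) * (‖w‖ ^ (-(1 / 2 : ℝ)) / Real.exp (Complex.arg w * t))
      ≤ 3 * Real.exp (-(Real.pi * |t| / 2)) *
          Real.exp (|t| * (Real.pi / 2 - 1 / (40 * (Θ * N + 1)))) :=
        mul_le_mul_of_nonneg_left h7 (by positivity)
    _ = 3 * Real.exp (-(|t| / (40 * (Θ * N + 1)))) := by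
        rw [mul_assoc, ← Real.exp_add]
        congr 2
        field_simp
        ring

theorem mel_tl (g : ℕ → ℝ) (N M a0 : ℕ) (α a Θ s t S0 : ℝ) (hs : s = 1 ∨ s = -1) (hΘ : 0 < Θ)
    (hS0 : 1 ≤ S0) (hM : (a0 : ℝ) + S0 ≤ M) (ha : |a - a0| ≤ S0 / 2)
    (hg : ∀ n, n ∉ Ioc M N → g n = 0) :
    ‖Mel (ge g N α a Θ s) t‖
      ≤ 3 * (∑ n ∈ Icc 1 N, |g n|) * Real.exp (-(|t| / (40 * (Θ * N + 1)))) := by
  rw [mel_ge g N α a Θ s t hΘ, norm_mul]
  have h1 := gamma_half t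
  calc ‖Complex.Gamma (1 / 2 - t * Complex.I)‖ * ‖∑ n ∈ Icc 1 N, (g n : ℂ) * ee (n * α)
        * (((1 / Θ : ℝ) : ℂ) - ((2 * Real.pi * s * ((n : ℝ) - a) : ℝ) : ℂ) * Complex.I)
            ^ (-(1 / 2 - t * Complex.I) : ℂ)‖
      ≤ (3 * Real.exp (-(Real.pi * |t| / 2))) * ∑ n ∈ Icc 1 N, |g n| *
        ‖((((1 / Θ : ℝ) : ℂ) - ((2 * Real.pi * s * ((n : ℝ) - a) : ℝ) : ℂ) * Complex.I)
            ^ (-(1 / 2 - t * Complex.I) : ℂ))‖ := by
        refine mul_le_mul h1 ?_ (norm_nonneg _) (by positivity)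
        refine (norm_sum_le _ _).trans (Finset.sum_le_sum fun n _ => ?_)
        rw [norm_mul, norm_mul, Pool.Agent.H91.PK.LSa_norm_ee, mul_one, Complex.norm_real,
          Real.norm_eq_abs]
    _ = ∑ n ∈ Icc 1 N, |g n| * (3 * Real.exp (-(Real.pi * |t| / 2)) *
        ‖((((1 / Θ : ℝ) : ℂ) - ((2 * Real.pi * s * ((n : ℝ) - a) : ℝ) : ℂ) * Complex.I)
            ^ (-(1 / 2 - t * Complex.I) : ℂ))‖) := by
        rw [Finset.mul_sum]
        refine Finset.sum_congr rfl fun n _ => ?_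
        ring
    _ ≤ ∑ n ∈ Icc 1 N, |g n| * (3 * Real.exp (-(|t| / (40 * (Θ * N + 1))))) := by
        refine Finset.sum_le_sum fun n _ => ?_
        by_cases hn : n ∈ Ioc M N
        · exact mul_le_mul_of_nonneg_left (mtl_term hs hΘ hS0 hM ha hn) (abs_nonneg _)
        · rw [hg n hn]
          simp
    _ = 3 * (∑ n ∈ Icc 1 N, |g n|) * Real.exp (-(|t| / (40 * (Θ * N + 1)))) := by
        rw [← Finset.sum_mul]
        ring

end Pool.Agent.H35.W

end

section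

/-!
# EHB JB: the bound for `II`

`int_sum_sq`; `‖ZZ S t‖ ≤ ∑_{k ≤ K} k^{-1/2} ≤ 2 √K` for `S ⊆ Icc 1 K`.  Split the `t`-integral of `‖ZZ‖²‖Mel‖²` into `|t| ≤ T0`
(`≤ 4K * 2 T0 * MB²`), `T0 < |t| ≤ T1` (`≤ ZB * ∫‖Mel‖² ≤ ZB * 2π S2`, `mel_planch`, `gg_L2`), `|t| > T1`
(`≤ 4K * 2 * (7 (N+|a|+1) F1)²/T1`, `mel_tail`, `∫_{T1}^∞ dt/t² = 1/T1`).  Divide by `2π`.
-/

set_option autoImplicit false

namespace Pool.Agent.H76.EHB

open Finset MeasureTheory

theorem jb_sum (K : ℕ) : ∑ k ∈ Icc 1 K, 1 / Real.sqrt (k : ℝ) ≤ 2 * Real.sqrt K := by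
  induction K with
  | zero => simp
  | succ n ih =>
    rw [Finset.sum_Icc_succ_top (by omega)]
    have h0 : (0 : ℝ) ≤ n := Nat.cast_nonneg n
    have h1 : (0 : ℝ) < ((n + 1 : ℕ) : ℝ) := by positivity
    have hb : 0 < Real.sqrt ((n + 1 : ℕ) : ℝ) := Real.sqrt_pos.2 h1
    have ha : 0 ≤ Real.sqrt (n : ℝ) := Real.sqrt_nonneg _
    have hb2 : Real.sqrt ((n + 1 : ℕ) : ℝ) ^ 2 = (n : ℝ) + 1 := by
      rw [Real.sq_sqrt h1.le]; push_cast; ring
    have ha2 : Real.sqrt (n : ℝ) ^ 2 = (n : ℝ) := Real.sq_sqrt h0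
    have key : 1 / Real.sqrt ((n + 1 : ℕ) : ℝ)
        ≤ 2 * Real.sqrt ((n + 1 : ℕ) : ℝ) - 2 * Real.sqrt (n : ℝ) := by
      rw [div_le_iff₀ hb]
      nlinarith [sq_nonneg (Real.sqrt ((n + 1 : ℕ) : ℝ) - Real.sqrt (n : ℝ))]
    linarith

theorem jb_norm_term (k : ℕ) (hk : 1 ≤ k) (t : ℝ) :
    ‖(k : ℂ) ^ (-(1 / 2 : ℂ) + t * Complex.I)‖ = 1 / Real.sqrt (k : ℝ) := by
  rw [Complex.norm_natCast_cpow_of_pos (by omega)]
  have h : (-(1 / 2 : ℂ) + t * Complex.I).re = -(1 / 2 : ℝ) := by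
    simp
  rw [h, Real.rpow_neg (Nat.cast_nonneg k), ← Real.sqrt_eq_rpow, one_div]

theorem norm_ZZ_sq_le (K : ℕ) (S : Finset ℕ) (hS : S ⊆ Icc 1 K) (t : ℝ) : ‖ZZ S t‖ ^ 2 ≤ 4 * K := by
  have h1 : ‖ZZ S t‖ ≤ 2 * Real.sqrt K := by
    unfold ZZ
    refine (norm_sum_le _ _).trans ?_
    have h2 : ∑ k ∈ S, ‖(k : ℂ) ^ (-(1 / 2 : ℂ) + t * Complex.I)‖
        = ∑ k ∈ S, 1 / Real.sqrt (k : ℝ) :=
      Finset.sum_congr rfl fun k hk => jb_norm_term k (Finset.mem_Icc.1 (hS hk)).1 t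
    rw [h2]
    refine (Finset.sum_le_sum_of_subset_of_nonneg hS ?_).trans (jb_sum K)
    intro i _ _
    positivity
  have h3 : (2 * Real.sqrt K) ^ 2 = 4 * (K : ℝ) := by
    rw [mul_pow, Real.sq_sqrt (Nat.cast_nonneg K)]; norm_num
  rw [← h3]
  exact pow_le_pow_left₀ (norm_nonneg _) h1 2

end Pool.Agent.H76.EHB

end

section

/-!
# From the second moment of `hR` to the range `Q A ≥ x^{1+ε}`
-/

set_option autoImplicit false

namespace Pool.Agent.H91.EHA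

open Finset

/-- powers of `log x` are eventually smaller than any positive power of `x`. -/
lemma log_pow_le_rpow (m : ℕ) (δ : ℝ) (hδ : 0 < δ) : ∃ x0 : ℕ, ∀ x : ℕ, x0 ≤ x →
    Real.log x ^ m ≤ (x : ℝ) ^ δ := by
  have h := isLittleO_log_rpow_rpow_atTop (m : ℝ) hδ
  have h2 := h.bound (show (0:ℝ) < 1 by norm_num)
  have h3 := (tendsto_natCast_atTop_atTop (R := ℝ)).eventually h2
  obtain ⟨x0, hx0⟩ := Filter.eventually_atTop.1 h3
  refine ⟨max x0 1, fun x hx => ?_⟩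
  have h4 := hx0 x (le_trans (le_max_left _ _) hx)
  have h5 : (1:ℝ) ≤ x := by exact_mod_cast le_trans (le_max_right _ _) hx
  have h6 : 0 ≤ Real.log x := Real.log_nonneg h5
  rw [Real.norm_of_nonneg (by positivity), Real.norm_of_nonneg (by positivity), one_mul,
    Real.rpow_natCast] at h4
  exact h4

/-- the logarithm is eventually larger than any constant. -/
lemma log_ge (K : ℝ) : ∃ x0 : ℕ, ∀ x : ℕ, x0 ≤ x → K ≤ Real.log x := by
  have h := Real.tendsto_log_atTop.comp (tendsto_natCast_atTop_atTop (R := ℝ))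
  have h2 := h.eventually (Filter.eventually_ge_atTop K)
  obtain ⟨x0, hx0⟩ := Filter.eventually_atTop.1 h2
  exact ⟨x0, fun x hx => hx0 x hx⟩

end Pool.Agent.H91.EHA

end

section

/-!
# SP MelL: the Mellin transform and the mean square of the correlations

Copy of `Pool/Agent/H35/W/MelCor.lean` with `a0 = 0`, `a = 0`, `S0 = M` (the needed lemmas there are private: copy `wM`, `hMf`,
`hM_norm`, `hM_diff`, `abel_sum` with the new prefix `MelL_`); only the last step is different.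
`h(n) = w_n^{-1/2 + i t} n^{-i t}`, `w_n = 1/Θ - 2 π i s n`: `|h(n)| ≤ (π M)^{-1/2} e^{π |t|/2} =: H0` for `n ≥ M`,
`|h(n+1) - h(n)| ≤ H0 (1/n + 2 |t| (1/Θ)/n^2) ≤ H0 w/M`, `w = 1 + 2 |t|/(Θ M)`.
Abel summation (`A_y = cor g 0 M α (t/2π) y`): `|∑| ≤ H0 (|A_N| + (w/M) ∑_{y ∈ Ioc M N} |A_y|)`, times `|Γ(1/2 - i t)| ≤ 3 e^{-π|t|/2}`
(`gamma_half`, `mel_ge`): `|Mel| ≤ (3/√(π M)) (|A_N| + (w/M) ∑ |A_y|)`; square (`9/π ≤ 3`), Cauchy with `#Ioc M N ≤ N`.
If `N ≤ M` then `g = 0` and everything is `0`.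
-/

set_option autoImplicit false

namespace Pool.Agent.H76.SP

open Finset MeasureTheory
open Pool.Agent.H91.PK (ee)
open Pool.Agent.H76.EHB
open Pool.Agent.H35.W

/-- the base of the power -/
private noncomputable def MelL_wM (Θ s a : ℝ) (u : ℂ) : ℂ :=
  ((1 / Θ : ℝ) : ℂ) - (2 * Real.pi * s * (u - a)) * Complex.I

private noncomputable def MelL_hMf (Θ s a t : ℝ) (a0 : ℕ) (u : ℂ) : ℂ :=
  MelL_wM Θ s a u ^ (-(1 / 2 - t * Complex.I) : ℂ) * Complex.exp (-(t * Complex.I) * Complex.log (u - a0))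

private lemma MelL_wM_re (Θ s a u : ℝ) : (MelL_wM Θ s a (u : ℂ)).re = 1 / Θ := by
  simp [MelL_wM]

private lemma MelL_wM_im (Θ s a u : ℝ) : (MelL_wM Θ s a (u : ℂ)).im = -(2 * Real.pi * s * (u - a)) := by
  simp [MelL_wM]

private lemma MelL_wM_slit (Θ s a u : ℝ) (hΘ : 0 < Θ) : MelL_wM Θ s a (u : ℂ) ∈ Complex.slitPlane := by
  left
  rw [MelL_wM_re]; positivity

private lemma MelL_wM_ne (Θ s a u : ℝ) (hΘ : 0 < Θ) : MelL_wM Θ s a (u : ℂ) ≠ 0 :=
  Complex.slitPlane_ne_zero (MelL_wM_slit Θ s a u hΘ)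

private lemma MelL_wM_norm (Θ s a u : ℝ) (hs : s = 1 ∨ s = -1) :
    2 * Real.pi * |u - a| ≤ ‖MelL_wM Θ s a (u : ℂ)‖ := by
  refine le_trans ?_ (Complex.abs_im_le_norm _)
  rw [MelL_wM_im, abs_neg, abs_mul, abs_mul]
  have : |s| = 1 := by rcases hs with rfl | rfl <;> simp
  rw [this, abs_of_pos Real.two_pi_pos, mul_one]

private lemma MelL_pow_norm (w : ℂ) (t : ℝ) (hw : 0 < w.re) (b : ℝ) (hb : 0 < b) (hwb : b ≤ ‖w‖) :
    ‖w ^ (-(1 / 2 - t * Complex.I) : ℂ)‖ ≤ (Real.sqrt b)⁻¹ * Real.exp (Real.pi * |t| / 2) := by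
  have hw0 : w ≠ 0 := by rintro rfl; simp at hw
  have hn : 0 < ‖w‖ := norm_pos_iff.2 hw0
  rw [Complex.norm_cpow_of_ne_zero hw0]
  have hre : (-(1 / 2 - t * Complex.I) : ℂ).re = -(1 / 2) := by simp
  have him : (-(1 / 2 - t * Complex.I) : ℂ).im = t := by simp
  rw [hre, him, div_eq_mul_inv, ← Real.exp_neg, Real.rpow_neg hn.le, ← Real.sqrt_eq_rpow]
  apply mul_le_mul
  · exact inv_anti₀ (Real.sqrt_pos.2 hb) (Real.sqrt_le_sqrt hwb)
  · apply Real.exp_le_exp.2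
    have h1 : |Complex.arg w| ≤ Real.pi / 2 := by
      rw [Complex.abs_arg_le_pi_div_two_iff]; exact hw.le
    calc -(Complex.arg w * t) ≤ |Complex.arg w * t| := neg_le_abs _
      _ = |Complex.arg w| * |t| := abs_mul _ _
      _ ≤ Real.pi / 2 * |t| := by gcongr
      _ = Real.pi * |t| / 2 := by ring
  · positivity
  · positivity

private lemma MelL_hM_norm (Θ s a t S0 : ℝ) (a0 : ℕ) (hs : s = 1 ∨ s = -1) (hΘ : 0 < Θ)
    (hS0 : 1 ≤ S0) (ha : |a - a0| ≤ S0 / 2) (u : ℝ) (hu : (a0 : ℝ) + S0 ≤ u) :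
    ‖MelL_hMf Θ s a t a0 (u : ℂ)‖ ≤ (Real.sqrt (Real.pi * S0))⁻¹ * Real.exp (Real.pi * |t| / 2) := by
  have ha1 := abs_le.1 ha
  have hpi := Real.pi_pos
  rw [MelL_hMf, norm_mul]
  have h1 : ‖Complex.exp (-(t * Complex.I) * Complex.log ((u : ℂ) - a0))‖ = 1 := by
    have e : (-(t * Complex.I) * Complex.log ((u : ℂ) - a0))
        = ((-(t * Real.log (u - a0)) : ℝ) : ℂ) * Complex.I := by
      have h2 : ((u : ℂ) - a0) = ((u - a0 : ℝ) : ℂ) := by push_cast; ring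
      rw [h2, ← Complex.ofReal_log (by linarith)]
      push_cast
      ring
    rw [e, Complex.norm_exp_ofReal_mul_I]
  rw [h1, mul_one]
  apply MelL_pow_norm _ _ (by rw [MelL_wM_re]; positivity) _ (by positivity)
  refine le_trans ?_ (MelL_wM_norm Θ s a u hs)
  have h3 : S0 / 2 ≤ |u - a| := by
    rw [abs_of_nonneg (by linarith)]; linarith
  nlinarith

private lemma MelL_hM_deriv (Θ s a t : ℝ) (a0 : ℕ) (hΘ : 0 < Θ) (u : ℝ) (hu : (a0 : ℝ) < u) :
    HasDerivAt (fun v : ℝ => MelL_hMf Θ s a t a0 (v : ℂ))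
      (MelL_hMf Θ s a t a0 (u : ℂ) * ((-(1 / 2 - t * Complex.I)) * (-(2 * Real.pi * s * Complex.I))
        / MelL_wM Θ s a (u : ℂ) - t * Complex.I / ((u : ℂ) - a0))) u := by
  have hua : ((u : ℂ) - a0) = ((u - a0 : ℝ) : ℂ) := by push_cast; ring
  have hsl : ((u : ℂ) - a0) ∈ Complex.slitPlane := by
    rw [hua]; exact Complex.ofReal_mem_slitPlane.2 (by linarith)
  have hne : ((u : ℂ) - a0) ≠ 0 := Complex.slitPlane_ne_zero hsl
  have hw := MelL_wM_slit Θ s a u hΘ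
  have hwn := MelL_wM_ne Θ s a u hΘ
  have d1 : HasDerivAt (fun v : ℂ => MelL_wM Θ s a v) (-(2 * Real.pi * s * Complex.I)) (u : ℂ) := by
    unfold MelL_wM
    have := (((hasDerivAt_id (u : ℂ)).sub_const (a : ℂ)).const_mul (2 * Real.pi * s : ℂ)).mul_const
      Complex.I |>.const_sub (((1 / Θ : ℝ) : ℂ))
    simpa using this
  have d2 : HasDerivAt (fun v : ℂ => MelL_wM Θ s a v ^ (-(1 / 2 - t * Complex.I) : ℂ))
      ((-(1 / 2 - t * Complex.I)) * MelL_wM Θ s a (u : ℂ) ^ ((-(1 / 2 - t * Complex.I)) - 1 : ℂ)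
        * (-(2 * Real.pi * s * Complex.I))) (u : ℂ) := d1.cpow_const hw
  have d3 : HasDerivAt (fun v : ℂ => Complex.exp (-(t * Complex.I) * Complex.log (v - a0)))
      (Complex.exp (-(t * Complex.I) * Complex.log ((u : ℂ) - a0)) *
        (-(t * Complex.I) * (1 / ((u : ℂ) - a0)))) (u : ℂ) := by
    have h1 : HasDerivAt (fun v : ℂ => v - (a0 : ℂ)) 1 (u : ℂ) :=
      (hasDerivAt_id (u : ℂ)).sub_const _
    have h2 := (h1.clog hsl).const_mul (-(t * Complex.I))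
    exact h2.cexp
  have d4 := (d2.mul d3).comp_ofReal
  have e : MelL_hMf Θ s a t a0 (u : ℂ) * ((-(1 / 2 - t * Complex.I)) * (-(2 * Real.pi * s * Complex.I))
        / MelL_wM Θ s a (u : ℂ) - t * Complex.I / ((u : ℂ) - a0))
      = (-(1 / 2 - t * Complex.I)) * MelL_wM Θ s a (u : ℂ) ^ ((-(1 / 2 - t * Complex.I)) - 1 : ℂ)
        * (-(2 * Real.pi * s * Complex.I)) *
          Complex.exp (-(t * Complex.I) * Complex.log ((u : ℂ) - a0)) +
        MelL_wM Θ s a (u : ℂ) ^ (-(1 / 2 - t * Complex.I) : ℂ) *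
        (Complex.exp (-(t * Complex.I) * Complex.log ((u : ℂ) - a0)) *
        (-(t * Complex.I) * (1 / ((u : ℂ) - a0)))) := by
    rw [MelL_hMf, Complex.cpow_sub _ _ hwn, Complex.cpow_one]
    ring
  rw [e]
  exact d4

private lemma MelL_hM_bd (Θ s a t S0 : ℝ) (a0 : ℕ) (hs : s = 1 ∨ s = -1) (hΘ : 0 < Θ)
    (hS0 : 1 ≤ S0) (ha : |a - a0| ≤ S0 / 2) (r u : ℝ) (hr : (a0 : ℝ) + S0 ≤ r) (hu : r ≤ u) :
    ‖MelL_hMf Θ s a t a0 (u : ℂ) * ((-(1 / 2 - t * Complex.I)) * (-(2 * Real.pi * s * Complex.I))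
        / MelL_wM Θ s a (u : ℂ) - t * Complex.I / ((u : ℂ) - a0))‖
      ≤ (Real.sqrt (Real.pi * S0))⁻¹ * Real.exp (Real.pi * |t| / 2)
        * (1 / (r - a0) + 2 * |t| * (|a - a0| + 1 / Θ) / (r - a0) ^ 2) := by
  have ha1 := abs_le.1 ha
  have hpi := Real.pi_pos
  have hpi1 : 1 ≤ Real.pi := by linarith [Real.pi_gt_three]
  rw [norm_mul]
  apply mul_le_mul (MelL_hM_norm Θ s a t S0 a0 hs hΘ hS0 ha u (by linarith)) _ (norm_nonneg _)
    (by positivity)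
  have hwn := MelL_wM_ne Θ s a u hΘ
  have hua : ((u : ℂ) - a0) = ((u - a0 : ℝ) : ℂ) := by push_cast; ring
  have hne : ((u : ℂ) - a0) ≠ 0 := by
    rw [hua]; exact Complex.ofReal_ne_zero.2 (by linarith)
  have h1 : ‖MelL_wM Θ s a (u : ℂ)‖ ≥ Real.pi * (u - a0) := by
    refine le_trans ?_ (MelL_wM_norm Θ s a u hs)
    have h3 : (u - a0) / 2 ≤ |u - a| := by
      rw [abs_of_nonneg (by linarith)]; linarith
    nlinarith
  have hs1 : |s| = 1 := by rcases hs with rfl | rfl <;> simp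
  have e : (-(1 / 2 - t * Complex.I)) * (-(2 * Real.pi * s * Complex.I))
        / MelL_wM Θ s a (u : ℂ) - t * Complex.I / ((u : ℂ) - a0)
      = (((Real.pi * s : ℝ) : ℂ) * Complex.I) / MelL_wM Θ s a (u : ℂ)
        + ((t : ℝ) : ℂ) * Complex.I * ((-(((2 * Real.pi * s * (a - a0) : ℝ) : ℂ) * Complex.I)
          - ((1 / Θ : ℝ) : ℂ)))
          / (MelL_wM Θ s a (u : ℂ) * ((u : ℂ) - a0)) := by
    field_simp
    rw [MelL_wM]
    push_cast
    ring
  rw [e]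
  have b1 : ‖(((Real.pi * s : ℝ) : ℂ) * Complex.I) / MelL_wM Θ s a (u : ℂ)‖ ≤ 1 / (r - a0) := by
    rw [norm_div, norm_mul, Complex.norm_I, mul_one, Complex.norm_real, Real.norm_eq_abs, abs_mul,
      hs1, mul_one, abs_of_pos hpi, div_le_div_iff₀ (norm_pos_iff.2 hwn) (by linarith)]
    nlinarith
  have b2 : ‖((t : ℝ) : ℂ) * Complex.I * ((-(((2 * Real.pi * s * (a - a0) : ℝ) : ℂ) * Complex.I)
          - ((1 / Θ : ℝ) : ℂ)))
          / (MelL_wM Θ s a (u : ℂ) * ((u : ℂ) - a0))‖ ≤ 2 * |t| * (|a - a0| + 1 / Θ) / (r - a0) ^ 2 := by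
    rw [norm_div, norm_mul, norm_mul, norm_mul, Complex.norm_I, mul_one, Complex.norm_real,
      Real.norm_eq_abs]
    have c1 : ‖(-(((2 * Real.pi * s * (a - a0) : ℝ) : ℂ) * Complex.I)
          - ((1 / Θ : ℝ) : ℂ))‖ ≤ 2 * Real.pi * |a - a0| + 1 / Θ := by
      refine (norm_sub_le _ _).trans ?_
      rw [norm_neg, norm_mul, Complex.norm_I, mul_one, Complex.norm_real, Complex.norm_real,
        Real.norm_eq_abs, Real.norm_eq_abs, abs_mul, abs_mul, hs1, mul_one,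
        abs_of_pos Real.two_pi_pos, abs_of_pos (by positivity : 0 < 1 / Θ)]
    have c2 : ‖(u : ℂ) - a0‖ = u - a0 := by
      rw [hua, Complex.norm_real, Real.norm_eq_abs, abs_of_pos (by linarith)]
    rw [c2]
    have hra : 0 < r - a0 := by linarith
    have c3 : Real.pi * (r - a0) ^ 2 ≤ ‖MelL_wM Θ s a (u : ℂ)‖ * (u - a0) := by
      calc Real.pi * (r - a0) ^ 2 = (Real.pi * (r - a0)) * (r - a0) := by ring
        _ ≤ ‖MelL_wM Θ s a (u : ℂ)‖ * (u - a0) := by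
          apply mul_le_mul _ (by linarith) (by linarith) (norm_nonneg _)
          refine le_trans ?_ h1
          gcongr
    have c4 : (2 * Real.pi * |a - a0| + 1 / Θ) ≤ Real.pi * (2 * (|a - a0| + 1 / Θ)) := by
      have : 0 < 1 / Θ := by positivity
      nlinarith [abs_nonneg (a - a0)]
    calc |t| * ‖(-(((2 * Real.pi * s * (a - a0) : ℝ) : ℂ) * Complex.I)
          - ((1 / Θ : ℝ) : ℂ))‖ / (‖MelL_wM Θ s a (u : ℂ)‖ * (u - a0))
        ≤ |t| * (Real.pi * (2 * (|a - a0| + 1 / Θ))) / (Real.pi * (r - a0) ^ 2) := by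
          apply div_le_div₀ (by positivity) _ (by positivity) c3
          exact mul_le_mul_of_nonneg_left (c1.trans c4) (abs_nonneg _)
      _ = 2 * |t| * (|a - a0| + 1 / Θ) / (r - a0) ^ 2 := by
          field_simp
  exact (norm_add_le _ _).trans (add_le_add b1 b2)

private lemma MelL_hM_diff (Θ s a t S0 : ℝ) (a0 : ℕ) (hs : s = 1 ∨ s = -1) (hΘ : 0 < Θ)
    (hS0 : 1 ≤ S0) (ha : |a - a0| ≤ S0 / 2) (r : ℝ) (hr : (a0 : ℝ) + S0 ≤ r) :
    ‖MelL_hMf Θ s a t a0 ((r + 1 : ℝ) : ℂ) - MelL_hMf Θ s a t a0 (r : ℂ)‖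
      ≤ (Real.sqrt (Real.pi * S0))⁻¹ * Real.exp (Real.pi * |t| / 2)
        * (1 / (r - a0) + 2 * |t| * (|a - a0| + 1 / Θ) / (r - a0) ^ 2) := by
  have := Convex.norm_image_sub_le_of_norm_hasDerivWithin_le
    (f := fun v : ℝ => MelL_hMf Θ s a t a0 (v : ℂ)) (s := Set.Icc r (r + 1)) (x := r) (y := r + 1)
    (f' := fun u => (MelL_hMf Θ s a t a0 (u : ℂ) * ((-(1 / 2 - t * Complex.I)) *
      (-(2 * Real.pi * s * Complex.I)) / MelL_wM Θ s a (u : ℂ) - t * Complex.I / ((u : ℂ) - a0))))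
    (C := (Real.sqrt (Real.pi * S0))⁻¹ * Real.exp (Real.pi * |t| / 2)
        * (1 / (r - a0) + 2 * |t| * (|a - a0| + 1 / Θ) / (r - a0) ^ 2))
    (fun u hu => (MelL_hM_deriv Θ s a t a0 hΘ u (by linarith [hu.1])).hasDerivWithinAt)
    (fun u hu => MelL_hM_bd Θ s a t S0 a0 hs hΘ hS0 ha r u hr hu.1)
    (convex_Icc _ _) ⟨le_rfl, by linarith⟩ ⟨by linarith, le_rfl⟩
  have e : ‖r + 1 - r‖ = 1 := by rw [add_sub_cancel_left]; simp
  rw [e, mul_one] at this
  exact this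

private lemma MelL_abel_sum (b h A : ℕ → ℂ) (M : ℕ) (hA : ∀ y, A y = ∑ n ∈ Ioc M y, b n) (y : ℕ)
    (hy : M ≤ y) :
    ∑ n ∈ Ioc M y, b n * h n = A y * h (y + 1) + ∑ n ∈ Ioc M y, A n * (h n - h (n + 1)) := by
  induction y, hy using Nat.le_induction with
  | base => simp [hA]
  | succ y hy ih =>
    have e : Ioc M (y + 1) = insert (y + 1) (Ioc M y) := by
      ext i; simp only [mem_insert, mem_Ioc]; omega
    have hn : y + 1 ∉ Ioc M y := by simp
    have h1 : A (y + 1) = b (y + 1) + A y := by rw [hA, hA, e, sum_insert hn]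
    rw [e, sum_insert hn, sum_insert hn, ih, h1]
    ring

/-- the sum without the gamma factor -/
private theorem MelL_sum (g : ℕ → ℝ) (N M : ℕ) (α Θ s t : ℝ) (hs : s = 1 ∨ s = -1) (hΘ : 0 < Θ)
    (hM : 1 ≤ M) (hg : ∀ n, n ∉ Ioc M N → g n = 0) :
    ‖∑ n ∈ Icc 1 N, (g n : ℂ) * ee (n * α)
        * (((1 / Θ : ℝ) : ℂ) - ((2 * Real.pi * s * ((n : ℝ) - 0) : ℝ) : ℂ) * Complex.I)
            ^ (-(1 / 2 - t * Complex.I) : ℂ)‖
      ≤ ((Real.sqrt (Real.pi * M))⁻¹ * Real.exp (Real.pi * |t| / 2))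
        * (‖cor g 0 M α (t / (2 * Real.pi)) N‖ + (1 + 2 * |t| / (Θ * M)) / M *
          ∑ y ∈ Ioc M N, ‖cor g 0 M α (t / (2 * Real.pi)) y‖) := by
  have hΘ1 : 0 < 1 / Θ := by positivity
  have hpi := Real.pi_pos
  have hM0 : (1 : ℝ) ≤ M := by exact_mod_cast hM
  have hM00 : (0 : ℝ) < M := by linarith
  rcases lt_or_ge N M with hNM | hNM
  · have : ∑ n ∈ Icc 1 N, (g n : ℂ) * ee (n * α)
        * (((1 / Θ : ℝ) : ℂ) - ((2 * Real.pi * s * ((n : ℝ) - 0) : ℝ) : ℂ) * Complex.I)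
            ^ (-(1 / 2 - t * Complex.I) : ℂ) = 0 := by
      apply sum_eq_zero
      intro n hn
      rw [hg n (by simp only [mem_Ioc, not_and, not_le]; intro h; omega)]
      simp
    rw [this, norm_zero]
    positivity
  set b : ℕ → ℂ := fun n => (g n : ℂ) * ee (n * α + t / (2 * Real.pi) * Real.log ((n : ℝ) - (0 : ℕ)))
    with hb
  set h : ℕ → ℂ := fun n => MelL_hMf Θ s 0 t 0 ((n : ℝ) : ℂ) with hh
  have e1 : ∑ n ∈ Icc 1 N, (g n : ℂ) * ee (n * α)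
        * (((1 / Θ : ℝ) : ℂ) - ((2 * Real.pi * s * ((n : ℝ) - 0) : ℝ) : ℂ) * Complex.I)
            ^ (-(1 / 2 - t * Complex.I) : ℂ) = ∑ n ∈ Ioc M N, b n * h n := by
    have e2 : ∑ n ∈ Icc 1 N, (g n : ℂ) * ee (n * α)
        * (((1 / Θ : ℝ) : ℂ) - ((2 * Real.pi * s * ((n : ℝ) - 0) : ℝ) : ℂ) * Complex.I)
            ^ (-(1 / 2 - t * Complex.I) : ℂ) = ∑ n ∈ Ioc M N, (g n : ℂ) * ee (n * α)
        * (((1 / Θ : ℝ) : ℂ) - ((2 * Real.pi * s * ((n : ℝ) - 0) : ℝ) : ℂ) * Complex.I)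
            ^ (-(1 / 2 - t * Complex.I) : ℂ) := by
      symm
      apply sum_subset
      · intro i hi
        rw [mem_Ioc] at hi
        rw [mem_Icc]; omega
      · intro i _ hi
        rw [hg i hi]; simp
    rw [e2]
    apply sum_congr rfl
    intro n hn
    have hn1 := mem_Ioc.1 hn
    have hna : (0 : ℝ) < (n : ℝ) - (0 : ℕ) := by
      have : (M : ℝ) < n := by exact_mod_cast hn1.1
      push_cast
      linarith
    simp only [hb, hh, MelL_hMf]
    have e3 : (((n : ℝ) : ℂ) - ((0 : ℕ) : ℂ)) = (((n : ℝ) - (0 : ℕ) : ℝ) : ℂ) := by push_cast; ring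
    have e4 : ee (n * α + t / (2 * Real.pi) * Real.log ((n : ℝ) - (0 : ℕ)))
        * Complex.exp (-(t * Complex.I) * Complex.log (((n : ℝ) : ℂ) - (0 : ℕ))) = ee (n * α) := by
      rw [e3, ← Complex.ofReal_log hna.le, ee, ee, ← Complex.exp_add]
      congr 1
      push_cast
      have : (Real.pi : ℂ) ≠ 0 := Complex.ofReal_ne_zero.2 hpi.ne'
      field_simp
      ring
    have e5 : MelL_wM Θ s 0 ((n : ℝ) : ℂ) = (((1 / Θ : ℝ) : ℂ)
        - ((2 * Real.pi * s * ((n : ℝ) - 0) : ℝ) : ℂ) * Complex.I) := by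
      rw [MelL_wM]; push_cast; ring
    rw [e5, ← e4]
    ring
  rw [e1, MelL_abel_sum b h (fun y => ∑ n ∈ Ioc M y, b n) M (fun _ => rfl) N hNM]
  have hA : ∀ y, ‖∑ n ∈ Ioc M y, b n‖ = ‖cor g 0 M α (t / (2 * Real.pi)) y‖ := fun y => rfl
  set H0 : ℝ := (Real.sqrt (Real.pi * M))⁻¹ * Real.exp (Real.pi * |t| / 2) with hH0
  have hH0p : 0 ≤ H0 := by positivity
  have ha : |(0 : ℝ) - (0 : ℕ)| ≤ (M : ℝ) / 2 := by
    simp only [Nat.cast_zero, sub_zero, abs_zero]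
    positivity
  have hcast : ∀ n : ℕ, M ≤ n → ((0 : ℕ) : ℝ) + M ≤ n := by
    intro n hn
    have : (M : ℝ) ≤ n := by exact_mod_cast hn
    push_cast
    linarith
  have b1 : ‖(∑ n ∈ Ioc M N, b n) * h (N + 1)‖ ≤ ‖cor g 0 M α (t / (2 * Real.pi)) N‖ * H0 := by
    rw [norm_mul, hA]
    exact mul_le_mul_of_nonneg_left
      (MelL_hM_norm Θ s 0 t M 0 hs hΘ hM0 ha _ (hcast _ (by omega))) (norm_nonneg _)
  set w : ℝ := 1 + 2 * |t| / (Θ * M) with hw
  have b2 : ‖∑ n ∈ Ioc M N, (∑ i ∈ Ioc M n, b i) * (h n - h (n + 1))‖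
      ≤ ∑ n ∈ Ioc M N, ‖cor g 0 M α (t / (2 * Real.pi)) n‖ * (H0 * (w / M)) := by
    refine (norm_sum_le _ _).trans (sum_le_sum fun n hn => ?_)
    have hn1 := mem_Ioc.1 hn
    rw [norm_mul, hA]
    refine mul_le_mul_of_nonneg_left ?_ (norm_nonneg _)
    have := MelL_hM_diff Θ s 0 t M 0 hs hΘ hM0 ha (n : ℝ) (hcast n hn1.1.le)
    rw [norm_sub_rev]
    have e6 : (((n : ℝ) + 1 : ℝ) : ℂ) = ((((n + 1 : ℕ) : ℝ)) : ℂ) := by push_cast; rfl
    rw [e6] at this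
    refine this.trans (mul_le_mul_of_nonneg_left ?_ hH0p)
    have hnM : (M : ℝ) ≤ n := by exact_mod_cast hn1.1.le
    simp only [Nat.cast_zero, sub_zero, abs_zero, zero_add]
    have c1 : 1 / (n : ℝ) ≤ 1 / M := one_div_le_one_div_of_le hM00 hnM
    have c2 : 2 * |t| * (1 / Θ) / (n : ℝ) ^ 2 ≤ 2 * |t| * (1 / Θ) / (M : ℝ) ^ 2 := by
      gcongr
    have c3 : w / M = 1 / M + 2 * |t| * (1 / Θ) / (M : ℝ) ^ 2 := by
      rw [hw]
      field_simp
    rw [c3]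
    exact add_le_add c1 c2
  refine (norm_add_le _ _).trans ((add_le_add b1 b2).trans (le_of_eq ?_))
  rw [← Finset.sum_mul]
  ring

/-- final arithmetic -/
private theorem MelL_fin (M T G X A S Q : ℝ) (N w : ℝ) (hM : 1 ≤ M)
    (hG0 : 0 ≤ G) (hG : G ≤ 3 * Real.exp (-(Real.pi * T / 2))) (hX0 : 0 ≤ X) (hA : 0 ≤ A)
    (hS : 0 ≤ S) (hw : 0 ≤ w) (hQ : S ^ 2 ≤ N * Q)
    (hX : X ≤ ((Real.sqrt (Real.pi * M))⁻¹ * Real.exp (Real.pi * T / 2)) * (A + w / M * S)) :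
    (G * X) ^ 2 ≤ 6 / M * (A ^ 2 + w ^ 2 / M ^ 2 * N * Q) := by
  have hpi := Real.pi_gt_three
  have hM0 : 0 < M := by linarith
  have hY : 0 ≤ A + w / M * S := by positivity
  have h1 : G * X ≤ 3 * Real.exp (-(Real.pi * T / 2)) * (((Real.sqrt (Real.pi * M))⁻¹
      * Real.exp (Real.pi * T / 2)) * (A + w / M * S)) :=
    mul_le_mul hG hX hX0 (by positivity)
  have h2 : Real.exp (-(Real.pi * T / 2)) * Real.exp (Real.pi * T / 2) = 1 := by
    rw [← Real.exp_add]; simp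
  have h3 : G * X ≤ 3 * (Real.sqrt (Real.pi * M))⁻¹ * (A + w / M * S) := by
    refine h1.trans (le_of_eq ?_)
    calc 3 * Real.exp (-(Real.pi * T / 2)) * (((Real.sqrt (Real.pi * M))⁻¹
      * Real.exp (Real.pi * T / 2)) * (A + w / M * S))
        = (Real.exp (-(Real.pi * T / 2)) * Real.exp (Real.pi * T / 2)) *
          (3 * (Real.sqrt (Real.pi * M))⁻¹ * (A + w / M * S)) := by ring
      _ = _ := by rw [h2, one_mul]
  have h4 : (G * X) ^ 2 ≤ (3 * (Real.sqrt (Real.pi * M))⁻¹ * (A + w / M * S)) ^ 2 :=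
    pow_le_pow_left₀ (mul_nonneg hG0 hX0) h3 2
  have h5 : (3 * (Real.sqrt (Real.pi * M))⁻¹ * (A + w / M * S)) ^ 2
      = 9 / (Real.pi * M) * (A + w / M * S) ^ 2 := by
    rw [mul_pow, mul_pow, inv_pow, Real.sq_sqrt (by positivity)]
    field_simp
    ring
  have h6 : 9 / (Real.pi * M) ≤ 3 / M := by
    rw [div_le_div_iff₀ (by positivity) hM0]
    nlinarith only [hpi, hM0]
  have h7 : (A + w / M * S) ^ 2 ≤ 2 * (A ^ 2 + w ^ 2 / M ^ 2 * N * Q) := by
    have h8 : (w / M * S) ^ 2 ≤ w ^ 2 / M ^ 2 * N * Q := by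
      have : (w / M * S) ^ 2 = w ^ 2 / M ^ 2 * S ^ 2 := by ring
      rw [this, mul_assoc]
      exact mul_le_mul_of_nonneg_left hQ (by positivity)
    nlinarith only [h8, sq_nonneg (A - w / M * S)]
  rw [h5] at h4
  refine h4.trans ?_
  calc 9 / (Real.pi * M) * (A + w / M * S) ^ 2 ≤ 3 / M * (A + w / M * S) ^ 2 :=
        mul_le_mul_of_nonneg_right h6 (sq_nonneg _)
    _ ≤ 3 / M * (2 * (A ^ 2 + w ^ 2 / M ^ 2 * N * Q)) :=
        mul_le_mul_of_nonneg_left h7 (by positivity)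
    _ = _ := by ring

theorem mel_l (g : ℕ → ℝ) (N M : ℕ) (α Θ s t : ℝ) (hs : s = 1 ∨ s = -1) (hΘ : 0 < Θ) (hM : 1 ≤ M)
    (hg : ∀ n, n ∉ Ioc M N → g n = 0) :
    ‖Mel (ge g N α 0 Θ s) t‖ ^ 2 ≤ 6 / M * (‖cor g 0 M α (t / (2 * Real.pi)) N‖ ^ 2
      + (1 + 2 * |t| / (Θ * M)) ^ 2 / (M : ℝ) ^ 2 * N *
        ∑ y ∈ Ioc M N, ‖cor g 0 M α (t / (2 * Real.pi)) y‖ ^ 2) := by
  rw [mel_ge g N α 0 Θ s t hΘ, norm_mul]
  have hM0 : (1 : ℝ) ≤ M := by exact_mod_cast hM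
  refine MelL_fin M |t| _ _ ‖cor g 0 M α (t / (2 * Real.pi)) N‖
    (∑ y ∈ Ioc M N, ‖cor g 0 M α (t / (2 * Real.pi)) y‖)
    (∑ y ∈ Ioc M N, ‖cor g 0 M α (t / (2 * Real.pi)) y‖ ^ 2) N (1 + 2 * |t| / (Θ * M)) hM0
    (norm_nonneg _) (gamma_half t) (norm_nonneg _) (norm_nonneg _)
    (sum_nonneg fun _ _ => norm_nonneg _) (by positivity) ?_ ?_
  · have h1 := sq_sum_le_card_mul_sum_sq (s := Ioc M N)
      (f := fun y => ‖cor g 0 M α (t / (2 * Real.pi)) y‖)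
    refine h1.trans (mul_le_mul_of_nonneg_right ?_ (sum_nonneg fun _ _ => sq_nonneg _))
    rw [Nat.card_Ioc]
    exact_mod_cast Nat.sub_le N M
  · exact MelL_sum g N M α Θ s t hs hΘ hM hg

end Pool.Agent.H76.SP

end
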