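import Pool.Agent.H43.PJ.H76.SP.IIL
import Pool.Agent.H43.PJ.M28
import Pool.Agent.H43.PJ.M32
import Pool.Agent.H43.PJ.M38

/-! The parts of this file: H76.SP.JJL, H53.MID.JJh, H53.MIX.Main. -/

section

/-!
# SP JJL: the small denominator integral

As `Pool/Agent/H35/W/JJE.lean`, case (1), with `a = 0`.  `ii_l B C0 (E + 2) η` gives `b, K, m0`.  `Θ = 1/L^6`.
`jred_e` with `K = 2P`, `S = pbl P d l ⊆ Icc 1 (2P)` (`2 P Y ≤ 2/L^{E+12} ≤ 1`):
`JJT ≤ 2 (II(+1) + II(-1)) + 4 |S| (2 P Y/Θ)^2 (∑_{k ∈ S} 1/k) S2 ≤ 4 P x/L^{E+2} + 4 P (2/L^{E+6})^2 · 1 · x L^2 ≤ P x/L^E`.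
-/

set_option autoImplicit false

namespace Pool.Agent.H76.SP

open Finset MeasureTheory
open Pool.Agent.H91.PK (ee)
open Pool.Agent.H76.EHB
open Pool.Agent.H35.W

private theorem JJL_card (P d : ℕ) (l : ℤ) : ((pbl P d l).card : ℝ) ≤ P := by
  have h1 : (pbl P d l).card ≤ (Ioc P (2 * P)).card :=
    Finset.card_le_card ((filter_subset _ _).trans (filter_subset _ _))
  rw [Nat.card_Ioc] at h1
  have h2 : (pbl P d l).card ≤ P := by omega
  exact_mod_cast h2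

private theorem JJL_inv (P d : ℕ) (l : ℤ) (hP : 1 ≤ P) : ∑ k ∈ pbl P d l, 1 / (k : ℝ) ≤ 1 := by
  have hP0 : (0 : ℝ) < P := by exact_mod_cast hP
  have h1 : ∑ k ∈ pbl P d l, 1 / (k : ℝ) ≤ (pbl P d l).card • (1 / (P : ℝ)) := by
    refine Finset.sum_le_card_nsmul _ _ _ fun k hk => ?_
    have h2 : k ∈ Ioc P (2 * P) := ((filter_subset _ _).trans (filter_subset _ _)) hk
    rw [mem_Ioc] at h2
    have h3 : (P : ℝ) ≤ k := by exact_mod_cast h2.1.le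
    exact one_div_le_one_div_of_le hP0 h3
  refine h1.trans ?_
  rw [nsmul_eq_mul, mul_one_div, div_le_one hP0]
  exact JJL_card P d l

theorem jj_l (B C0 E : ℕ) (η : ℝ) (hη : 0 < η) (hη1 : η ≤ 1) : ∃ b K m0 : ℕ, ∀ m : ℕ, m0 ≤ m →
    ∃ x0 : ℕ, ∀ x : ℕ, x0 ≤ x → ∀ (g : ℕ → ℝ) (N M P d : ℕ) (c l : ℤ) (Y : ℝ),
      CorL x B m K η N M g → N ≤ x → x / Real.log x ^ C0 ≤ M → Real.log x ^ b ≤ P →
      P ≤ x → 1 ≤ d → (d : ℝ) ≤ Real.log x ^ B → IsCoprime c (d : ℤ) → 0 ≤ Y →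
      P * Y ≤ 1 / Real.log x ^ (E + 12) →
      JJT g N (zs (pbl P d l)) ((c : ℝ) / d) 0 Y ≤ P * x / Real.log x ^ E := by
  obtain ⟨b, K, m0, H⟩ := ii_l B C0 (E + 2) η hη hη1
  refine ⟨b, K, m0, fun m hm => ?_⟩
  obtain ⟨x0, hx0⟩ := H m hm
  obtain ⟨x1, hx1⟩ := log_ge 4
  refine ⟨max x0 x1, fun x hx g N M P d c l Y hg hN hM hP hPx hd1 hd hcd hY hPY => ?_⟩
  have hL4 : (4 : ℝ) ≤ Real.log x := hx1 x (le_of_max_le_right hx)
  have hxx0 : x0 ≤ x := le_of_max_le_left hx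
  have hL1 : (1 : ℝ) ≤ Real.log x := by linarith
  have hL0 : (0 : ℝ) < Real.log x := by linarith
  have hp1 : (1 : ℝ) ≤ P := (one_le_pow₀ hL1).trans hP
  have hPn : 1 ≤ P := by exact_mod_cast hp1
  have hS0 : 0 ≤ S2 g N := Finset.sum_nonneg fun n _ => sq_nonneg _
  have hx0' : (0 : ℝ) ≤ x := Nat.cast_nonneg x
  have hLE : (4 : ℝ) ≤ Real.log x ^ (E + 12) := hL4.trans (le_self_pow₀ hL1 (by omega))
  have hY1 : P * Y ≤ 1 / 4 := by
    refine hPY.trans ?_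
    exact one_div_le_one_div_of_le (by norm_num) hLE
  have hsub : pbl P d l ⊆ Icc 1 (2 * P) := by
    intro k hk
    have h2 : k ∈ Ioc P (2 * P) := ((filter_subset _ _).trans (filter_subset _ _)) hk
    rw [mem_Ioc] at h2
    rw [mem_Icc]
    exact ⟨by omega, h2.2⟩
  have hΘ : 0 < 1 / Real.log x ^ 6 := by positivity
  have e0 : ∀ s : ℝ, (s = 1 ∨ s = -1) →
      II (pbl P d l) (ge g N ((c : ℝ) / d) 0 (1 / Real.log x ^ 6) s) ≤
        P * x / Real.log x ^ (E + 2) := fun s hs =>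
    hx0 x hxx0 g N M P d (pbl P d l) c s hg hN hM hP hPx (filter_subset _ _) hd1 hd hcd hs
  have e3 := jred_e g N (2 * P) (pbl P d l) hsub ((c : ℝ) / d) 0 Y
    (1 / Real.log x ^ 6) hY (by push_cast; nlinarith) hΘ
  refine e3.trans ?_
  have e4 := e0 1 (Or.inl rfl)
  have e5 := e0 (-1) (Or.inr rfl)
  have e6 : ((2 * P : ℕ) : ℝ) * Y / (1 / Real.log x ^ 6) ≤ 2 / Real.log x ^ (E + 6) := by
    rw [div_le_iff₀ hΘ]
    have h1 : 2 / Real.log x ^ (E + 6) * (1 / Real.log x ^ 6) =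
        2 * (1 / Real.log x ^ (E + 12)) := by
      have h2 : Real.log x ^ (E + 12) = Real.log x ^ (E + 6) * Real.log x ^ 6 := by
        rw [← pow_add]
      have h3 : Real.log x ^ (E + 6) ≠ 0 := by positivity
      rw [h2]
      field_simp
    rw [h1]
    push_cast
    linarith
  have e7 : (((2 * P : ℕ) : ℝ) * Y / (1 / Real.log x ^ 6)) ^ 2 ≤
      (2 / Real.log x ^ (E + 6)) ^ 2 := pow_le_pow_left₀ (by positivity) e6 2
  have e8 : 4 * ((pbl P d l).card : ℝ) * (((2 * P : ℕ) : ℝ) * Y /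
      (1 / Real.log x ^ 6)) ^ 2 * (∑ k ∈ pbl P d l, 1 / (k : ℝ)) * S2 g N ≤
      4 * P * (2 / Real.log x ^ (E + 6)) ^ 2 * 1 * (x * Real.log x ^ 2) := by
    have i1 : 4 * ((pbl P d l).card : ℝ) ≤ 4 * P := by linarith [JJL_card P d l]
    have i2 := mul_le_mul i1 e7 (sq_nonneg _) (by positivity)
    have i3 := mul_le_mul i2 (JJL_inv P d l hPn)
      (Finset.sum_nonneg fun k _ => by positivity) (by positivity)
    exact mul_le_mul i3 hg.sq hS0 (by positivity)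
  obtain ⟨D, hD⟩ : ∃ D : ℝ, D = P * x / Real.log x ^ E := ⟨_, rfl⟩
  have hD0 : 0 ≤ D := by rw [hD]; positivity
  have e9 : P * x / Real.log x ^ (E + 2) = D / Real.log x ^ 2 := by
    rw [hD, pow_add, div_div]
  have e10 : 4 * P * (2 / Real.log x ^ (E + 6)) ^ 2 * 1 * (x * Real.log x ^ 2) =
      D * (16 / Real.log x ^ (E + 10)) := by
    rw [hD]
    field_simp
    ring
  have e11 : D / Real.log x ^ 2 ≤ D / 16 := by
    refine div_le_div_of_nonneg_left hD0 (by norm_num) ?_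
    nlinarith
  have e12 : (16 : ℝ) / Real.log x ^ (E + 10) ≤ 1 / 4 := by
    rw [div_le_div_iff₀ (by positivity) (by norm_num)]
    have h1 : Real.log x ^ 3 ≤ Real.log x ^ (E + 10) := pow_le_pow_right₀ hL1 (by omega)
    have h2 : (4 : ℝ) ^ 3 ≤ Real.log x ^ 3 := pow_le_pow_left₀ (by norm_num) hL4 3
    norm_num at h2
    linarith
  have e13 : D * (16 / Real.log x ^ (E + 10)) ≤ D * (1 / 4) :=
    mul_le_mul_of_nonneg_left e12 hD0
  rw [e9] at e4 e5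
  rw [e10] at e8
  rw [← hD]
  linarith

end Pool.Agent.H76.SP

end

section

/-!
# MID JJh: the hypothesis `JJp` follows from `LVP` (SP Part II) and `SWp` (needs the compiled closure of `H76/SP/JJL`, `H76/SP/CorH`)

Proof.  `x = K2`: `K2 > K1 ≥ N/(32 P) ≥ N^(2/3)/32`, so `L/2 ≤ log x ≤ L` (`K2 ≤ 32 N/P ≤ N`), `d ≤ L^B ≤ (log x)^(B+1)` for large `N`; `R = ⌊L^(B+1)⌋ ≤ (log x)^(B+2)` and every natural `d ≤ (log x)^(B+1)` is `≤ R`.
`LVP` gives `η`; `jj_l (B+1) 1 (E+1) η` gives `b', K, m0`; `LVP` with `(K, A) = (K, B+2)` gives `K'`; `m = max m0 K'`.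
`CorL x (B+1) m K η K2 K1 g` for `g = cut K1 K2 (hR R)`: `supp` clear; `sq`: `S2 g x ≤ S2 (hR R) x ≤ 15 x log x` as in `hr_sq` (`H35/W/HRq.lean`; its proof works for every `R ≤ (log x)^(B+2)`) `≤ x (log x)^2`;
`low`: `cor g 0 K1 (c/d) t y = ∑_{n ∈ Ioc K1 y} hR R n ee(n c/d + t log n)` for `y ≤ K2`: empty if `y ≤ K1`, otherwise `SWp` (with `B+1`, `4m`, `3m+1`, `e0 = 1/3`; natural `b ≡ -c (mod d)`, `-t`; `y ≥ K1 ≥ N^(1/3)`, `|t| ≤ (log x)^(4m) ≤ L^(4m)`):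
`≤ y/L^(3m+1) ≤ x/(log x)^(3m)`; `large`: `LVP` as in `cor_h` (`H76/SP/CorH.lean`), `R ≤ (log x)^(B+2)`, `vol ≤ T^η ≤ T^η (log x)^A`.
Conditions of `jj_l`: `K2/log K2 ≤ K1` (`K2 ≤ 32 N/P ≤ 1024 K1`), `(log x)^b' ≤ L^b' ≤ P`, `P ≤ K2`, `P Y ≤ 1/L^(E+13) ≤ 1/(log x)^(E+1+12)`.
Conclusion `≤ P K2/(log x)^(E+1) ≤ 32 N 2^(E+1)/L^(E+1) ≤ N/L^E`.
-/

set_option autoImplicit false

namespace Pool.Agent.H53.MID

open Finset MeasureTheory
open Pool.Agent.H91.PK (ee)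
open Pool.Agent.H91.EHA (Lam hR lamR ramS)
open Pool.Agent.H35.W

private theorem JJh_ev (B : ℕ) : ∀ᶠ x : ℕ in Filter.atTop, 1 ≤ x ∧ 1 ≤ Real.log x ∧
    0 ≤ Real.log (Real.log x) ∧ Real.log x ^ (2 * B) ≤ x ∧
    (2 * B * Real.log (Real.log x) + 1) ^ 2 ≤ 3 / 10 * Real.log x := by
  have hl : Filter.Tendsto (fun x : ℕ => Real.log (x : ℝ)) Filter.atTop Filter.atTop :=
    Real.tendsto_log_atTop.comp tendsto_natCast_atTop_atTop
  set c : ℝ := 3 / 10 / (2 * B + 1) ^ 2 with hc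
  have hc0 : 0 < c := by positivity
  have h1 : ∀ᶠ y : ℝ in Filter.atTop, ‖Real.log y ^ 2‖ ≤ c * ‖y‖ :=
    (Real.isLittleO_pow_log_id_atTop (n := 2)).bound hc0
  have h2 : ∀ᶠ y : ℝ in Filter.atTop, ‖Real.log y ^ (2 * B)‖ ≤ 1 * ‖y‖ :=
    (Real.isLittleO_pow_log_id_atTop (n := 2 * B)).bound one_pos
  filter_upwards [Filter.eventually_ge_atTop 1, hl.eventually_ge_atTop (Real.exp 1),
    hl.eventually h1, tendsto_natCast_atTop_atTop.eventually h2] with x hx e1 e2 e3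
  have hx0 : (0 : ℝ) ≤ x := Nat.cast_nonneg x
  have hE : (1 : ℝ) ≤ Real.exp 1 := by
    have := Real.add_one_le_exp (1 : ℝ)
    linarith
  have hL : 1 ≤ Real.log x := hE.trans e1
  have hLL : 1 ≤ Real.log (Real.log x) := by
    rw [Real.le_log_iff_exp_le (by linarith)]
    exact e1
  refine ⟨hx, hL, by linarith, ?_, ?_⟩
  · rw [Real.norm_eq_abs, Real.norm_eq_abs, one_mul, abs_of_nonneg hx0] at e3
    exact (le_abs_self _).trans e3
  · rw [Real.norm_eq_abs, Real.norm_eq_abs, abs_of_nonneg (by linarith : 0 ≤ Real.log x)] at e2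
    have e4 := (le_abs_self _).trans e2
    have hB : (0 : ℝ) ≤ B := Nat.cast_nonneg B
    calc (2 * (B : ℝ) * Real.log (Real.log x) + 1) ^ 2
        ≤ ((2 * B + 1) * Real.log (Real.log x)) ^ 2 :=
          pow_le_pow_left₀ (by positivity) (by nlinarith) 2
      _ = (2 * B + 1) ^ 2 * Real.log (Real.log x) ^ 2 := by ring
      _ ≤ (2 * B + 1) ^ 2 * (c * Real.log x) :=
          mul_le_mul_of_nonneg_left e4 (by positivity)
      _ = 3 / 10 * Real.log x := by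
          rw [hc]
          field_simp

/-- second moment of `hR R` for every `R ≤ (log x)^B` -/
private theorem JJh_sq (B : ℕ) : ∃ x0 : ℕ, ∀ x : ℕ, x0 ≤ x → ∀ R : ℕ, 1 ≤ R →
    (R : ℝ) ≤ Real.log x ^ B → ∀ N : ℕ, N ≤ x →
    Pool.Agent.H76.EHB.S2 (hR R) N ≤ 15 * x * Real.log x := by
  obtain ⟨x0, h⟩ := Filter.eventually_atTop.1 (JJh_ev B)
  refine ⟨x0, fun x hx R hR1 hRle N hN => ?_⟩
  obtain ⟨hx1, hL, hLL, h2, h3⟩ := h x hx
  have hR0 : (0 : ℝ) < R := by exact_mod_cast hR1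
  have hRx : R ^ 2 ≤ x := by
    have : ((R : ℝ)) ^ 2 ≤ x := by
      calc (R : ℝ) ^ 2 ≤ (Real.log x ^ B) ^ 2 := pow_le_pow_left₀ hR0.le hRle 2
        _ = Real.log x ^ (2 * B) := by rw [← pow_mul]; ring_nf
        _ ≤ x := h2
    exact_mod_cast this
  have hx0 : (0 : ℝ) < x := by exact_mod_cast hx1
  have e1 := Pool.Agent.H76.EHB.lamR_sq R N x hx1 hRx hN
  have e2 := Pool.Agent.H76.EHB.HRm_Lam x N hx1 hN
  have e3 := Pool.Agent.H76.EHB.HRm_tot (R ^ 2) R hR1 le_rfl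
  have e4 : Real.log ((R ^ 2 : ℕ) : ℝ) ≤ 2 * B * Real.log (Real.log x) := by
    push_cast
    rw [Real.log_pow]
    have : Real.log R ≤ B * Real.log (Real.log x) := by
      rw [← Real.log_pow]
      exact Real.log_le_log hR0 hRle
    push_cast
    linarith
  have e5 : 0 ≤ Real.log ((R ^ 2 : ℕ) : ℝ) := Real.log_natCast_nonneg _
  have e6 : ∑ c ∈ Icc 1 R, 1 / (c.totient : ℝ) ≤ 3 / 10 * Real.log x := by
    refine e3.trans (le_trans ?_ h3)
    have e7 : (2 * (B : ℝ) * Real.log (Real.log x) + 1) ^ 2 =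
        (2 * B * Real.log (Real.log x) + 1) * (1 + 2 * B * Real.log (Real.log x)) := by ring
    rw [e7]
    exact mul_le_mul (by linarith) (by linarith) (by linarith) (by linarith)
  have h4 : Pool.Agent.H76.EHB.S2 (hR R) N ≤ 2 * ∑ n ∈ Icc 1 N, Pool.Agent.H91.EHA.Lam n ^ 2 +
      2 * ∑ n ∈ Icc 1 N, Pool.Agent.H91.EHA.lamR R n ^ 2 := by
    unfold Pool.Agent.H76.EHB.S2
    rw [mul_sum, mul_sum, ← sum_add_distrib]
    refine sum_le_sum fun n _ => ?_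
    show (Pool.Agent.H91.EHA.Lam n - Pool.Agent.H91.EHA.lamR R n) ^ 2 ≤ _
    nlinarith [sq_nonneg (Pool.Agent.H91.EHA.Lam n + Pool.Agent.H91.EHA.lamR R n)]
  have h5 : 5 * (x : ℝ) * ∑ c ∈ Icc 1 R, 1 / (c.totient : ℝ) ≤ 5 * x * (3 / 10 * Real.log x) :=
    mul_le_mul_of_nonneg_left e6 (by positivity)
  linarith

/-- the sizes of the parameters -/
private theorem JJh_size (x0 : ℕ) : ∃ N0 : ℕ, ∀ N : ℕ, N0 ≤ N → ∀ P K1 K2 : ℕ, 32 ≤ P →
    P ^ 3 ≤ N → N ≤ 32 * P * K1 → K1 < K2 → P * K2 ≤ 32 * N →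
    x0 ≤ K1 ∧ 1 ≤ K1 ∧ K2 ≤ N ∧ N ≤ K1 ^ 3 ∧ P ≤ K1 ∧ K2 ≤ 1024 * K1 ∧
      Real.log N ≤ 2 * Real.log K2 := by
  refine ⟨max (2 ^ 30) (32768 * x0 ^ 3 + 1), fun N hN P K1 K2 hP hP3 hNK hK hPK => ?_⟩
  have hN1 : 2 ^ 30 ≤ N := (le_max_left _ _).trans hN
  have hN2 : 32768 * x0 ^ 3 + 1 ≤ N := (le_max_right _ _).trans hN
  have hNpos : 0 < N := by omega
  have h1 : N * N ^ 2 ≤ N * (32768 * K1 ^ 3) := by
    calc N * N ^ 2 = N ^ 3 := by ring
      _ ≤ (32 * P * K1) ^ 3 := Nat.pow_le_pow_left hNK 3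
      _ = P ^ 3 * (32768 * K1 ^ 3) := by ring
      _ ≤ N * (32768 * K1 ^ 3) := Nat.mul_le_mul_right _ hP3
  have h2 : N ^ 2 ≤ 32768 * K1 ^ 3 := Nat.le_of_mul_le_mul_left h1 hNpos
  have hNN : N ≤ N ^ 2 := Nat.le_self_pow (by norm_num) N
  have h3 : x0 ≤ K1 := by
    by_contra hcon
    have h4 : K1 ^ 3 ≤ x0 ^ 3 := Nat.pow_le_pow_left (by omega) 3
    have h5 : 32768 * K1 ^ 3 ≤ 32768 * x0 ^ 3 := Nat.mul_le_mul_left _ h4
    omega
  have h4 : 1 ≤ K1 := by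
    rw [Nat.one_le_iff_ne_zero]
    rintro rfl
    rw [mul_zero] at hNK
    omega
  have h5 : K2 ≤ N := by
    have : 32 * K2 ≤ P * K2 := Nat.mul_le_mul_right _ hP
    omega
  have h6 : N ≤ K1 ^ 3 := by
    have h7 : 32768 * N ≤ 32768 * K1 ^ 3 := by
      calc 32768 * N ≤ N * N := Nat.mul_le_mul_right _ (by omega)
        _ = N ^ 2 := by ring
        _ ≤ _ := h2
    omega
  have h7 : P ≤ K1 := by
    by_contra hcon
    have h8 : K1 ^ 3 < P ^ 3 := Nat.pow_lt_pow_left (by omega) (by norm_num)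
    omega
  have h8 : K2 ≤ 1024 * K1 := by
    have h9 : P * K2 ≤ P * (1024 * K1) := by
      calc P * K2 ≤ 32 * N := hPK
        _ ≤ 32 * (32 * P * K1) := Nat.mul_le_mul_left _ hNK
        _ = P * (1024 * K1) := by ring
    exact Nat.le_of_mul_le_mul_left h9 (by omega)
  have h9 : N ≤ K1 ^ 2 := by
    have h10 : 2 ^ 30 * N ^ 3 ≤ 2 ^ 30 * (K1 ^ 2) ^ 3 := by
      calc 2 ^ 30 * N ^ 3 ≤ N * N ^ 3 := Nat.mul_le_mul_right _ hN1
        _ = (N ^ 2) ^ 2 := by ring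
        _ ≤ (32768 * K1 ^ 3) ^ 2 := Nat.pow_le_pow_left h2 2
        _ = 2 ^ 30 * (K1 ^ 2) ^ 3 := by ring
    have h11 : N ^ 3 ≤ (K1 ^ 2) ^ 3 := Nat.le_of_mul_le_mul_left h10 (by norm_num)
    by_contra hcon
    have h12 : (K1 ^ 2) ^ 3 < N ^ 3 := Nat.pow_lt_pow_left (by omega) (by norm_num)
    omega
  refine ⟨h3, h4, h5, h6, h7, h8, ?_⟩
  have h10 : (N : ℝ) ≤ (K1 : ℝ) ^ 2 := by exact_mod_cast h9
  have hN0 : (0 : ℝ) < N := by exact_mod_cast hNpos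
  have h11 : Real.log N ≤ Real.log ((K1 : ℝ) ^ 2) := Real.log_le_log hN0 h10
  rw [Real.log_pow] at h11
  have h12 : Real.log K1 ≤ Real.log K2 :=
    Real.log_le_log (by exact_mod_cast h4) (by exact_mod_cast hK.le)
  push_cast at h11
  linarith

private theorem JJh_cor (K1 K2 y : ℕ) (f : ℕ → ℝ) (α t : ℝ) (hy : y ≤ K2) :
    cor (cut K1 K2 f) 0 K1 α t y = cor f 0 K1 α t y := by
  unfold cor
  refine Finset.sum_congr rfl fun n hn => ?_
  rw [mem_Ioc] at hn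
  have h : n ∈ Ioc K1 K2 := mem_Ioc.2 ⟨hn.1, hn.2.trans hy⟩
  rw [cut, if_pos h]

private theorem JJh_S2 (K1 K2 N : ℕ) (f : ℕ → ℝ) :
    Pool.Agent.H76.EHB.S2 (cut K1 K2 f) N ≤ Pool.Agent.H76.EHB.S2 f N := by
  unfold Pool.Agent.H76.EHB.S2
  refine Finset.sum_le_sum fun n _ => ?_
  unfold cut
  split_ifs
  · exact le_refl _
  · rw [zero_pow two_ne_zero]
    exact sq_nonneg _

/-- a natural residue -/
private theorem JJh_res (c : ℤ) (d : ℕ) (hd : 1 ≤ d) (hc : IsCoprime c (d : ℤ)) :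
    ∃ b : ℕ, Nat.Coprime b d ∧ ∀ (n : ℕ) (t : ℝ),
      ee ((n : ℝ) * ((c : ℝ) / d) + t * Real.log ((n : ℝ) - (0 : ℕ))) =
        ee (-((n : ℝ) * b / d)) * ee (-(-t * Real.log n)) := by
  have hd0 : (d : ℤ) ≠ 0 := by omega
  have hdR : (d : ℝ) ≠ 0 := by positivity
  have hb : ((((-c) % (d : ℤ)).toNat : ℕ) : ℤ) = (-c) % (d : ℤ) :=
    Int.toNat_of_nonneg (Int.emod_nonneg _ hd0)
  have hb2 : (-c) % (d : ℤ) = -c + (d : ℤ) * (-((-c) / (d : ℤ))) := by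
    rw [Int.emod_def]
    ring
  refine ⟨((-c) % (d : ℤ)).toNat, ?_, fun n t => ?_⟩
  · rw [← Nat.isCoprime_iff_coprime, hb, hb2]
    exact (hc.neg_left).add_mul_left_left _
  · have hbR : ((((-c) % (d : ℤ)).toNat : ℕ) : ℝ) = -(c : ℝ) + d * (-(((-c) / (d : ℤ) : ℤ) : ℝ)) := by
      have h1 : (((((-c) % (d : ℤ)).toNat : ℕ) : ℤ) : ℝ) =
          ((-c + (d : ℤ) * (-((-c) / (d : ℤ))) : ℤ) : ℝ) := by rw [hb, hb2]
      rw [Int.cast_natCast] at h1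
      rw [h1]
      push_cast
      ring
    have e1 : (n : ℝ) * ((c : ℝ) / d) + t * Real.log ((n : ℝ) - (0 : ℕ)) =
        -((n : ℝ) * ((((-c) % (d : ℤ)).toNat : ℕ) : ℝ) / d) + -(-t * Real.log n) +
          (((-((n : ℤ) * ((-c) / (d : ℤ)))) : ℤ) : ℝ) := by
      rw [hbR, Nat.cast_zero, sub_zero]
      push_cast
      field_simp
      ring
    rw [e1, Pool.Agent.H91.PK.LSa_ee_add, Pool.Agent.H91.PK.LSa_ee_add,
      Pool.Agent.H76.EHB.ee_int, mul_one]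

theorem jj_holds (hLV : Pool.Agent.H76.SP.LVP) (hSW : SWp) : JJp := by
  obtain ⟨η, hη, hη1, H⟩ := hLV
  intro B E
  obtain ⟨b', K, m0, H1⟩ := Pool.Agent.H76.SP.jj_l (B + 1) 1 (E + 1) η hη hη1
  obtain ⟨K', x1, hx1⟩ := H K (B + 2)
  obtain ⟨m, hm⟩ : ∃ m : ℕ, m = max m0 K' := ⟨_, rfl⟩
  have hm0 : m0 ≤ m := by rw [hm]; exact le_max_left _ _
  have hmK : K' ≤ m := by rw [hm]; exact le_max_right _ _
  obtain ⟨x2, hx2⟩ := H1 m hm0
  obtain ⟨x3, hx3⟩ := JJh_sq (B + 2)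
  obtain ⟨x4, hx4⟩ := Pool.Agent.H76.SP.log_ge (1024 + 2 ^ (B + 1))
  obtain ⟨N1, hN1⟩ := hSW (B + 1) (4 * m) (3 * m) (1 / 3) (by norm_num)
  obtain ⟨N2, hN2⟩ := JJh_size (max (max x1 x2) (max x3 x4))
  obtain ⟨N3, hN3⟩ := Pool.Agent.H76.SP.log_ge (32 + 32 * 2 ^ (E + 1))
  refine ⟨b' + 1, max N1 (max N2 N3), fun N hN P d K1 K2 c l Y hP hP3 hd1 hd hcd hNK hK hPK hY
    hPY => ?_⟩
  have hNN1 : N1 ≤ N := (le_max_left _ _).trans hN
  have hNN2 : N2 ≤ N := (le_max_left _ _).trans ((le_max_right _ _).trans hN)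
  have hNN3 : N3 ≤ N := (le_max_right _ _).trans ((le_max_right _ _).trans hN)
  have hL' := hN3 N hNN3
  have hE0 : (0 : ℝ) < 32 * 2 ^ (E + 1) := by positivity
  have hL32 : (32 : ℝ) ≤ Real.log N := by linarith
  have hLE : 32 * 2 ^ (E + 1) ≤ Real.log N := by linarith
  have hL1 : (1 : ℝ) ≤ Real.log N := by linarith
  have hL0 : (0 : ℝ) < Real.log N := by linarith
  have hP32 : 32 ≤ P := by
    have h1 : (32 : ℝ) ≤ P := hL32.trans ((le_self_pow₀ hL1 (by omega)).trans hP)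
    exact_mod_cast h1
  obtain ⟨hxK, hK1, hK2N, hNK3, hPK1, hK1024, hlog⟩ := hN2 N hNN2 P K1 K2 hP32 hP3 hNK hK hPK
  have hxK2 : max (max x1 x2) (max x3 x4) ≤ K2 := hxK.trans hK.le
  have hKx1 : x1 ≤ K2 := (le_max_left _ _).trans ((le_max_left _ _).trans hxK2)
  have hKx2 : x2 ≤ K2 := (le_max_right _ _).trans ((le_max_left _ _).trans hxK2)
  have hKx3 : x3 ≤ K2 := (le_max_left _ _).trans ((le_max_right _ _).trans hxK2)
  have hKx4 : x4 ≤ K2 := (le_max_right _ _).trans ((le_max_right _ _).trans hxK2)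
  have hK20 : (0 : ℝ) < K2 := by
    have : 0 < K2 := by omega
    exact_mod_cast this
  have hlN : Real.log K2 ≤ Real.log N := Real.log_le_log hK20 (by exact_mod_cast hK2N)
  have hl' := hx4 K2 hKx4
  have hB0 : (1 : ℝ) ≤ 2 ^ (B + 1) := one_le_pow₀ (by norm_num)
  have hl1024 : (1024 : ℝ) ≤ Real.log K2 := by linarith
  have hlB : (2 : ℝ) ^ (B + 1) ≤ Real.log K2 := by linarith
  have hl1 : (1 : ℝ) ≤ Real.log K2 := by linarith
  have hl0 : (0 : ℝ) < Real.log K2 := by linarith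
  -- the parameters
  obtain ⟨R, hRdef⟩ : ∃ R : ℕ, R = ⌊Real.log N ^ (B + 1)⌋₊ := ⟨_, rfl⟩
  have hRL : (R : ℝ) ≤ Real.log N ^ (B + 1) := by
    rw [hRdef]
    exact Nat.floor_le (by positivity)
  have hR1 : 1 ≤ R := by
    rw [hRdef]
    exact Nat.le_floor (by simpa using one_le_pow₀ hL1)
  have hRl : (R : ℝ) ≤ Real.log K2 ^ (B + 2) := by
    calc (R : ℝ) ≤ Real.log N ^ (B + 1) := hRL
      _ ≤ (2 * Real.log K2) ^ (B + 1) := pow_le_pow_left₀ hL0.le hlog _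
      _ = 2 ^ (B + 1) * Real.log K2 ^ (B + 1) := mul_pow _ _ _
      _ ≤ Real.log K2 * Real.log K2 ^ (B + 1) := mul_le_mul_of_nonneg_right hlB (by positivity)
      _ = Real.log K2 ^ (B + 2) := by ring
  have hdl : (d : ℝ) ≤ Real.log K2 ^ (B + 1) := by
    have h2B : (2 : ℝ) ^ B ≤ Real.log K2 :=
      (pow_le_pow_right₀ (by norm_num) (by omega)).trans hlB
    calc (d : ℝ) ≤ Real.log N ^ B := hd
      _ ≤ (2 * Real.log K2) ^ B := pow_le_pow_left₀ hL0.le hlog _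
      _ = 2 ^ B * Real.log K2 ^ B := mul_pow _ _ _
      _ ≤ Real.log K2 * Real.log K2 ^ B := mul_le_mul_of_nonneg_right h2B (by positivity)
      _ = Real.log K2 ^ (B + 1) := by ring
  rw [← hRdef]
  -- the hypotheses
  have hCor : Pool.Agent.H76.SP.CorL K2 (B + 1) m K η K2 K1 (cut K1 K2 (hR R)) := by
    refine ⟨fun n hn => ?_, ?_, ?_, ?_⟩
    · rw [cut, if_neg hn]
    · refine (JJh_S2 K1 K2 K2 (hR R)).trans ((hx3 K2 hKx3 R hR1 hRl K2 le_rfl).trans ?_)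
      have h5 : (15 : ℝ) * K2 ≤ K2 * Real.log K2 := by nlinarith
      calc 15 * (K2 : ℝ) * Real.log K2 ≤ (K2 * Real.log K2) * Real.log K2 :=
            mul_le_mul_of_nonneg_right h5 (by linarith)
        _ = K2 * Real.log K2 ^ 2 := by ring
    · intro c' d' t y hd1' hd' hcd' hy ht
      rw [JJh_cor K1 K2 y _ _ t hy]
      by_cases hyK : y ≤ K1
      · have e : cor (hR R) 0 K1 ((c' : ℝ) / d') t y = 0 := by
          unfold cor
          rw [Ioc_eq_empty (by omega), Finset.sum_empty]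
        rw [e, norm_zero]
        positivity
      · push Not at hyK
        obtain ⟨b, hb, hee⟩ := JJh_res c' d' hd1' hcd'
        have e : cor (hR R) 0 K1 ((c' : ℝ) / d') t y =
            ∑ n ∈ Ioc K1 y, ((hR R n : ℝ) : ℂ) * ee (-((n : ℝ) * b / d')) *
              ee (-(-t * Real.log n)) := by
          unfold cor
          refine Finset.sum_congr rfl fun n _ => ?_
          rw [hee n t, mul_assoc]
        have hdR : d' ≤ R := by
          rw [hRdef]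
          exact Nat.le_floor (hd'.trans (pow_le_pow_left₀ hl0.le hlN _))
        have hNy : (N : ℝ) ^ ((1 : ℝ) / 3) ≤ y := by
          have h1 : (N : ℝ) ≤ (K1 : ℝ) ^ (3 : ℕ) := by exact_mod_cast hNK3
          have h2 : (N : ℝ) ^ ((1 : ℝ) / 3) ≤ ((K1 : ℝ) ^ (3 : ℕ)) ^ ((1 : ℝ) / 3) :=
            Real.rpow_le_rpow (Nat.cast_nonneg N) h1 (by norm_num)
          have h3 : ((K1 : ℝ) ^ (3 : ℕ)) ^ ((1 : ℝ) / 3) = K1 := by
            rw [← Real.rpow_natCast, ← Real.rpow_mul (Nat.cast_nonneg K1)]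
            norm_num
          have h4 : (K1 : ℝ) ≤ y := by exact_mod_cast hyK.le
          linarith
        have hSWy := hN1 N hNN1 R d' b K1 y (-t) hRL hd1' hdR hb hNy (hy.trans hK2N)
          (by
            rw [abs_neg]
            exact ht.trans (pow_le_pow_left₀ hl0.le hlN _))
        rw [e]
        refine hSWy.trans ?_
        have h1 : (y : ℝ) ≤ K2 := by exact_mod_cast hy
        exact div_le_div₀ hK20.le h1 (by positivity) (pow_le_pow_left₀ hl0.le hlN _)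
    · intro c' d' y T 𝓑 hd1' hd' _ hy hT hTx hm𝓑 h𝓑 hvol
      have hT0 : 0 ≤ T := (by positivity : (0 : ℝ) ≤ Real.log K2 ^ m).trans hT
      have e : ∀ t : ℝ, cor (cut K1 K2 (hR R)) 0 K1 ((c' : ℝ) / d') t y =
          cor (hR R) 0 K1 ((c' : ℝ) / d') t y := fun t => JJh_cor K1 K2 y _ _ t hy
      simp only [e]
      refine hx1 K2 hKx1 K1 y d' R c' T 𝓑 hd1'
        (hd'.trans (pow_le_pow_right₀ hl1 (by omega))) hRl hy
        ((pow_le_pow_right₀ hl1 hmK).trans hT) hTx hm𝓑 h𝓑 ?_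
      exact hvol.trans (le_mul_of_one_le_right (Real.rpow_nonneg hT0 _) (one_le_pow₀ hl1))
  have hfin := hx2 K2 hKx2 (cut K1 K2 (hR R)) K2 K1 P d c l Y hCor le_rfl
    (by
      rw [pow_one, div_le_iff₀ hl0]
      have h1 : (K2 : ℝ) ≤ 1024 * K1 := by exact_mod_cast hK1024
      have h2 : (0 : ℝ) ≤ K1 := Nat.cast_nonneg K1
      nlinarith)
    ((pow_le_pow_left₀ hl0.le hlN _).trans
      ((pow_le_pow_right₀ hL1 (by omega : b' ≤ b' + 1)).trans hP))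
    (hPK1.trans hK.le) hd1 hdl hcd hY
    (by
      refine hPY.trans ?_
      have h1 : E + 1 + 12 = E + 13 := by omega
      rw [h1]
      exact one_div_le_one_div_of_le (by positivity) (pow_le_pow_left₀ hl0.le hlN _))
  refine hfin.trans ?_
  have h1 : (P : ℝ) * K2 ≤ 32 * N := by exact_mod_cast hPK
  have h2 : Real.log N ^ (E + 1) ≤ 2 ^ (E + 1) * Real.log K2 ^ (E + 1) := by
    rw [← mul_pow]
    exact pow_le_pow_left₀ hL0.le hlog _
  rw [div_le_div_iff₀ (by positivity) (by positivity)]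
  have h3 : 0 ≤ (N : ℝ) := Nat.cast_nonneg N
  have h4 : 32 * Real.log N ^ E ≤ Real.log K2 ^ (E + 1) := by
    have h5 : (32 * 2 ^ (E + 1)) * Real.log N ^ E ≤ Real.log N * Real.log N ^ E :=
      mul_le_mul_of_nonneg_right hLE (by positivity)
    have h6 : Real.log N * Real.log N ^ E = Real.log N ^ (E + 1) := by ring
    have h7 : 2 ^ (E + 1) * (32 * Real.log N ^ E) ≤ 2 ^ (E + 1) * Real.log K2 ^ (E + 1) := by
      linarith
    exact le_of_mul_le_mul_left h7 (by positivity)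
  calc (P : ℝ) * K2 * Real.log N ^ E ≤ 32 * N * Real.log N ^ E :=
        mul_le_mul_of_nonneg_right h1 (by positivity)
    _ = N * (32 * Real.log N ^ E) := by ring
    _ ≤ N * Real.log K2 ^ (E + 1) := mul_le_mul_of_nonneg_left h4 h3

end Pool.Agent.H53.MID

end

section

/-!
# MIX Main: all hypotheses of `gold_y` hold
-/

set_option autoImplicit false

namespace Pool.Agent.H53.MIX

open Finset

open Classical in
theorem main_y (θ : ℝ) (h1 : 2 / 3 < θ) (h2 : θ < 1) (A : ℕ) :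
    ∃ C N0 : ℕ, 0 < C ∧ ∀ N : ℕ, N0 ≤ N → ∀ (P : ℕ) (Y : ℝ), Real.exp (Real.log N ^ θ) ≤ Y → Y ^ 4 ≤ N →
    Real.log N ^ C ≤ P → (P : ℝ) ^ C ≤ Y →
    (((Ioc N (2 * N)).filter (fun n : ℕ => ¬ (Y / (C * Real.log N ^ 2 * Real.log P) ≤
      (((Icc (-⌊Y⌋) ⌊Y⌋).filter (fun x : ℤ => ∃ p1 q1 p2 q2 : ℕ,
        p1.Prime ∧ q1.Prime ∧ p2.Prime ∧ q2.Prime ∧ Y ≤ (p1 : ℝ) ^ C ∧ p1 < q1 ∧ P < p2 ∧
        p2 ≤ 2 * P ∧ (n : ℤ) - x = p1 * q1 ∧ (n : ℤ) + x = p2 * q2)).card : ℝ)))).card : ℝ) ≤ N / Real.log N ^ A := by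
  have hSW := Pool.Agent.H53.MID.sw_holds
  have e1 : 2 / 3 < 2 / 3 + (θ - 2 / 3) / 4 := by linarith
  have e2 : 2 / 3 + (θ - 2 / 3) / 4 < 1 := by linarith
  have hVK : VKw (2 / 3 + (θ - 2 / 3) / 4) := fun K B => Pool.Agent.H76.VKT.vk_class_t _ e1 e2 K B
  have hVE : VKe (2 / 3 + (θ - 2 / 3) / 4) := fun A => Pool.Agent.H76.VKT.vk_exp_t _ e1 e2 A
  have hCX : CombX (2 / 3 + (θ - 2 / 3) / 2) (2 / 3) :=
    Pool.Agent.H53.MDB.comb_x_all (2 / 3 + (θ - 2 / 3) / 4) _ _ (by linarith) (by linarith) (by linarith)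
      (by linarith) (by linarith) hVE
  exact gold_y (2 / 3 + (θ - 2 / 3) / 2) (2 / 3 + (θ - 2 / 3) / 4) (2 / 3) θ (by linarith) (by linarith)
    (by linarith) h2 (by norm_num) (by linarith) hVK hSW hCX
    (Pool.Agent.H53.MID.jj_holds (Pool.Agent.H80.LV.lv Pool.Agent.H97.VK.vk_class) hSW)
    Pool.Agent.H76.GB.pb_card A

end Pool.Agent.H53.MIX

end
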