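import Pool.Agent.H43.PJ.M08
import Pool.Agent.H43.PJ.M35
import Pool.Agent.H43.PJ.M44
import Pool.Agent.H43.PJ.M45

/-! The parts of this file: H91.TQ.KapQ, H91.EHA.ChB, H9.TM.MeanF, H53.TPS.MscF, H53.TPS.MsF, H91.TQ.SwG. -/

section

/-!
# TQ KapQ: the density `kq` is bounded and slowly varying

* `w1_le`: `∑_{z < p ≤ z1} 1/p ≤ 1 + log z1` (harmonic sum).
* `kap_abs`: `0 ≤ kap ≤ 2` for `x ≥ 3` (`kap_nonneg`, `kap_le`); for `x < 3 ≤ y` the sum in `kap` is empty (`x/y = 0`), so `kap = 0`.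
* `kq_abs`: `|kq x| ≤ 2 + W1`.
* `kq_lip`: `kap_lip` at `x` and, for `p ∈ (z, z1]`, at `x/p ≤ x'/p` (natural division; `zz y J ≤ x/p` as `z z1 ≤ x`; `x'/p - x/p ≤ (x'-x)/p + 1`, `x/p ≥ x/(2p)` as `p ≤ x`):
  `|kap(x'/p) - kap(x/p)|/p ≤ 20 ((x'-x)/p + 1 + z)/x`.  The sum over `p` is `≤ 20 ((x'-x) W1 + z1 (z+1))/x`.
-/

set_option autoImplicit false

namespace Pool.Agent.H91.TQ

open Finset
open Pool.Agent.H35.W (pb)
open Pool.Agent.H76.TP

private theorem KapQ_log_nonneg (y J1 : ℕ) : 0 ≤ Real.log (zz y J1) := Real.log_natCast_nonneg _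

theorem w1_le (y J J1 : ℕ) (hy : 1 ≤ y) : 0 ≤ W1 y J J1 ∧ W1 y J J1 ≤ 1 + Real.log (zz y J1) := by
  have _ := hy
  unfold W1 PY
  refine ⟨Finset.sum_nonneg fun p _ => by positivity, ?_⟩
  have h := harmonic_le_one_add_log (zz y J1)
  rw [harmonic_eq_sum_Icc] at h
  push_cast at h
  refine le_trans ?_ h
  calc ∑ p ∈ (Ioc (zz y J) (zz y J1)).filter Nat.Prime, 1 / (p : ℝ)
      ≤ ∑ p ∈ Icc 1 (zz y J1), 1 / (p : ℝ) := by
        refine Finset.sum_le_sum_of_subset_of_nonneg ?_ fun p _ _ => by positivity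
        intro p hp
        obtain ⟨h1, _⟩ := Finset.mem_filter.mp hp
        rw [mem_Ioc] at h1
        rw [mem_Icc]
        omega
    _ = ∑ i ∈ Icc 1 (zz y J1), ((i : ℝ))⁻¹ := by
        refine Finset.sum_congr rfl fun k _ => ?_
        rw [one_div]

theorem kap_abs (y J x : ℕ) (hy : 3 ≤ y) : 0 ≤ kap y J x ∧ kap y J x ≤ 2 := by
  by_cases hx : 3 ≤ x
  · exact ⟨kap_nonneg y J x (by omega), kap_le y J x hx⟩
  · have h0 : x / y = 0 := Nat.div_eq_of_lt (by omega)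
    have h1 : kap y J x = 0 := by
      unfold kap
      rw [h0]
      simp only [Finset.Icc_eq_empty_of_lt (Nat.lt_succ_self 0), Finset.sum_empty, zero_div]
    rw [h1]
    norm_num

theorem kq_abs (y J J1 x : ℕ) (hy : 3 ≤ y) : |kq y J J1 x| ≤ 3 + Real.log (zz y J1) := by
  obtain ⟨k0, k2⟩ := kap_abs y J x hy
  obtain ⟨w0, w2⟩ := w1_le y J J1 (by omega)
  have s0 : 0 ≤ ∑ p ∈ PY (zz y J) (zz y J1), kap y J (x / p) / p :=
    Finset.sum_nonneg fun p _ => div_nonneg (kap_abs y J (x / p) hy).1 (Nat.cast_nonneg _)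
  have s2 : ∑ p ∈ PY (zz y J) (zz y J1), kap y J (x / p) / p ≤ 2 * W1 y J J1 := by
    unfold W1
    rw [Finset.mul_sum]
    refine Finset.sum_le_sum fun p _ => ?_
    rw [div_eq_mul_one_div]
    exact mul_le_mul_of_nonneg_right (kap_abs y J (x / p) hy).2 (by positivity)
  have hl := KapQ_log_nonneg y J1
  unfold kq
  rw [abs_le]
  constructor <;> linarith

private theorem KapQ_term (y J x x' p : ℕ) (hy : 1 ≤ y) (hp : 1 ≤ p) (h3 : 3 * p ≤ x) (hz : zz y J * p ≤ x)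
    (hxx : x ≤ x') :
    |kap y J (x' / p) / p - kap y J (x / p) / p| ≤
      20 * ((((x' : ℝ) - x) * (1 / (p : ℝ))) + (zz y J + 1)) / x := by
  have hp0 : (0 : ℝ) < p := by exact_mod_cast hp
  have hx0 : (0 : ℝ) < x := by
    have : 0 < x := by omega
    exact_mod_cast this
  have hxr : (x : ℝ) ≤ x' := by exact_mod_cast hxx
  have a1 : 3 ≤ x / p := (Nat.le_div_iff_mul_le (by omega)).mpr h3
  have a2 : zz y J ≤ x / p := (Nat.le_div_iff_mul_le (by omega)).mpr hz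
  have a3 : x / p ≤ x' / p := Nat.div_le_div_right hxx
  have hL := kap_lip y J (x / p) (x' / p) hy a1 a2 a3
  have h5 : ((x' / p : ℕ) : ℝ) ≤ (x' : ℝ) / p := Nat.cast_div_le
  have h6 : x < x / p * p + p := Nat.lt_div_mul_add (by omega)
  have h7 : (x : ℝ) ≤ ((x / p : ℕ) : ℝ) * p + p := by exact_mod_cast h6.le
  have h8 : (x : ℝ) / p ≤ ((x / p : ℕ) : ℝ) + 1 := by
    rw [div_le_iff₀ hp0]
    linarith
  have h9 : (1 : ℝ) ≤ ((x / p : ℕ) : ℝ) := by
    have : 1 ≤ x / p := by omega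
    exact_mod_cast this
  have q0 : (0 : ℝ) < ((x / p : ℕ) : ℝ) := by linarith
  -- `x/p ≥ x/(2p)`
  have h10 : (x : ℝ) / (2 * p) ≤ ((x / p : ℕ) : ℝ) := by
    have e : (x : ℝ) / (2 * p) = ((x : ℝ) / p) / 2 := by
      rw [div_div, mul_comm]
    rw [e]
    linarith
  have hzn : (0 : ℝ) ≤ zz y J := Nat.cast_nonneg _
  have hD : 0 ≤ ((x' : ℝ) - x) * (1 / (p : ℝ)) := mul_nonneg (by linarith) (by positivity)
  have hn : ((x' / p : ℕ) : ℝ) - ((x / p : ℕ) : ℝ) + zz y J ≤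
      ((x' : ℝ) - x) * (1 / (p : ℝ)) + (zz y J + 1) := by
    have e : ((x' : ℝ) - x) * (1 / (p : ℝ)) = (x' : ℝ) / p - (x : ℝ) / p := by ring
    rw [e]
    linarith
  rw [← sub_div, abs_div, abs_of_pos hp0]
  rw [div_le_iff₀ hp0]
  refine hL.trans ?_
  rw [div_le_iff₀ q0]
  have key : 20 * (((x' : ℝ) - x) * (1 / (p : ℝ)) + (zz y J + 1)) / x * p * ((x / p : ℕ) : ℝ) ≥
      20 * (((x' : ℝ) - x) * (1 / (p : ℝ)) + (zz y J + 1)) / x * p * ((x : ℝ) / (2 * p)) := by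
    refine mul_le_mul_of_nonneg_left h10 ?_
    have : 0 ≤ ((x' : ℝ) - x) * (1 / (p : ℝ)) + (zz y J + 1) := by linarith
    positivity
  have e2 : 20 * (((x' : ℝ) - x) * (1 / (p : ℝ)) + (zz y J + 1)) / x * p * ((x : ℝ) / (2 * p)) =
      10 * (((x' : ℝ) - x) * (1 / (p : ℝ)) + (zz y J + 1)) := by
    field_simp
    ring
  rw [e2] at key
  linarith

theorem kq_lip (y J J1 x x' : ℕ) (hy : 1 ≤ y) (hJ : J ≤ J1) (hx : 3 * zz y J1 ≤ x) (hz : zz y J * zz y J1 ≤ x)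
    (hxx : x ≤ x') :
    |kq y J J1 x' - kq y J J1 x| ≤
      30 * (1 + Real.log (zz y J1)) * (((x' : ℝ) - x) + zz y J1 * (zz y J + 1)) / x := by
  have _ := hJ
  have hz1 : 1 ≤ zz y J1 := by
    unfold zz
    exact Nat.mul_pos (by positivity) (by omega)
  have hx0 : (0 : ℝ) < x := by
    have : 0 < x := by omega
    exact_mod_cast this
  have hxr : (x : ℝ) ≤ x' := by exact_mod_cast hxx
  have hz1r : (1 : ℝ) ≤ zz y J1 := by exact_mod_cast hz1
  have hzn : (0 : ℝ) ≤ zz y J := Nat.cast_nonneg _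
  have hzx : zz y J ≤ x := le_trans (Nat.le_mul_of_pos_right _ (by omega)) hz
  have m1 := kap_lip y J x x' hy (by omega) hzx hxx
  obtain ⟨w0, w2⟩ := w1_le y J J1 hy
  have hl := KapQ_log_nonneg y J1
  set lg := Real.log (zz y J1) with hlg
  -- the sum over `p`
  have m2 : |(∑ p ∈ PY (zz y J) (zz y J1), kap y J (x' / p) / p) -
      ∑ p ∈ PY (zz y J) (zz y J1), kap y J (x / p) / p| ≤
      20 * (((x' : ℝ) - x) * W1 y J J1 + zz y J1 * (zz y J + 1)) / x := by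
    rw [← Finset.sum_sub_distrib]
    refine (Finset.abs_sum_le_sum_abs _ _).trans ?_
    have b1 : ∀ p ∈ PY (zz y J) (zz y J1), |kap y J (x' / p) / p - kap y J (x / p) / p| ≤
        20 * ((((x' : ℝ) - x) * (1 / (p : ℝ))) + (zz y J + 1)) / x := by
      intro p hp
      unfold PY at hp
      obtain ⟨h1, h2⟩ := Finset.mem_filter.mp hp
      rw [mem_Ioc] at h1
      refine KapQ_term y J x x' p hy h2.one_le (by omega) ?_ hxx
      exact le_trans (Nat.mul_le_mul_left _ h1.2) hz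
    refine (Finset.sum_le_sum b1).trans ?_
    rw [← Finset.sum_div]
    refine div_le_div_of_nonneg_right ?_ hx0.le
    rw [← Finset.mul_sum, Finset.sum_add_distrib, ← Finset.mul_sum, Finset.sum_const, nsmul_eq_mul]
    refine mul_le_mul_of_nonneg_left ?_ (by norm_num)
    have hc : ((PY (zz y J) (zz y J1)).card : ℝ) ≤ zz y J1 := by
      have : (PY (zz y J) (zz y J1)).card ≤ zz y J1 := by
        unfold PY
        refine (Finset.card_filter_le _ _).trans ?_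
        rw [Nat.card_Ioc]
        omega
      exact_mod_cast this
    have hc2 : ((PY (zz y J) (zz y J1)).card : ℝ) * ((zz y J : ℝ) + 1) ≤ zz y J1 * ((zz y J : ℝ) + 1) :=
      mul_le_mul_of_nonneg_right hc (by linarith)
    unfold W1
    linarith
  have e : kq y J J1 x' - kq y J J1 x = (kap y J x' - kap y J x) -
      ((∑ p ∈ PY (zz y J) (zz y J1), kap y J (x' / p) / p) -
      ∑ p ∈ PY (zz y J) (zz y J1), kap y J (x / p) / p) / 2 := by
    unfold kq
    ring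
  have t1 : |kq y J J1 x' - kq y J J1 x| ≤ 10 * (((x' : ℝ) - x) + zz y J) / x +
      20 * (((x' : ℝ) - x) * W1 y J J1 + zz y J1 * (zz y J + 1)) / x / 2 := by
    rw [e]
    refine (abs_sub _ _).trans ?_
    rw [abs_div, abs_two]
    have := div_le_div_of_nonneg_right m2 (by norm_num : (0 : ℝ) ≤ 2)
    linarith
  refine t1.trans ?_
  have e2 : 10 * (((x' : ℝ) - x) + zz y J) / x +
      20 * (((x' : ℝ) - x) * W1 y J J1 + zz y J1 * (zz y J + 1)) / x / 2 =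
      (10 * (((x' : ℝ) - x) + zz y J) + 10 * (((x' : ℝ) - x) * W1 y J J1 + zz y J1 * (zz y J + 1))) / x := by
    ring
  rw [e2]
  refine div_le_div_of_nonneg_right ?_ hx0.le
  have D0 : 0 ≤ (x' : ℝ) - x := by linarith
  have Z0 : (zz y J : ℝ) ≤ zz y J1 * ((zz y J : ℝ) + 1) := by nlinarith
  have Z1 : 0 ≤ (zz y J1 : ℝ) * ((zz y J : ℝ) + 1) := by positivity
  have q1 : ((x' : ℝ) - x) * W1 y J J1 ≤ ((x' : ℝ) - x) * (1 + lg) := mul_le_mul_of_nonneg_left w2 D0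
  have q2 : 0 ≤ lg * (((x' : ℝ) - x)) := mul_nonneg hl D0
  have q3 : 0 ≤ lg * ((zz y J1 : ℝ) * ((zz y J : ℝ) + 1)) := mul_nonneg hl Z1
  nlinarith

end Pool.Agent.H91.TQ

end

section

/-!
# Passing to primitive characters and summing over the moduli

For `χ` mod `q` induced by the primitive `χ* = χ.primitiveCharacter` mod `χ.conductor`, `TT N 0 χ` and `TT N 0 χ*`
differ by at most `∑_{n ≤ N, (n,q)>1} Λ(n) ≤ log N · log₂ q` (`DiA_TT_sub`, `DiA_psi_noncoprime`; a bound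
`C (1+log N)(1+log Q)` is enough).
`∑_{q ∈ (Q,2Q], c | q} 1/φ(q) ≤ (1/φ(c)) ∑_{m ≤ 2Q/c} 1/φ(m) ≤ (1/φ(c)) (1+log(2Q))²` since
`φ(cm) ≥ φ(c)φ(m)`, `1/φ(m) ≤ τ(m)/m`.  For fixed `q` the characters `χ ≠ 1` mod `q` correspond injectively to pairs
(conductor `c | q`, `c > 1`, primitive character mod `c`) (`DiB_level` in `PK/DiB.lean`).
The correction terms: `∑_q (1/φ(q)) φ(q) C(1+log N)(1+log Q)`.
-/

set_option autoImplicit false

namespace Pool.Agent.H91.EHA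

open Finset

theorem chB_harm (M : ℕ) : ∑ d ∈ Icc 1 M, 1 / (d : ℝ) ≤ 1 + Real.log M := by
  have h := harmonic_le_one_add_log M
  rw [harmonic_eq_sum_Icc] at h
  push_cast at h
  simpa only [one_div] using h

end Pool.Agent.H91.EHA

end

section

/-!
# TM MeanF: the mean of the type II sums over a long interval, abstract form

Compare the proof of `mass_q` in `H91/TQ/MassQ.lean` (private lemmas `MassQ_part`, `MassQ_swap`, `MassQ_len`, `MassQ_inv`: copy them; there only the upper bound is proved).  `y = yN e1 N`, `z = zz y J ≤ N^(1/4)`, `l_p = (x+l)/p - x/p` (natural division),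
`|l_p - l/p| ≤ 1`.  `∑_m ∑_j Fp f P_j m = ∑_{p ∈ PY y z} ∑_{k ∈ (x/p, (x+l)/p]} f k = ∑_p (l_p D(x/p) + O(l_p/L^3))`, `l_p D(x/p) = (l/p) D(x/p) + O(L²)`, `∑_p l_p ≤ l (1 + L) + z`, at most `z ≤ N^(1/4)` primes.
Total error `≤ (l (1 + L) + z)/L^3 + z L² ≤ 3 l/L²`.
-/

set_option autoImplicit false

namespace Pool.Agent.H9.TM

open Finset
open Pool.Agent.H35.W (pb)
open Pool.Agent.H53.MID (Fp)
open Pool.Agent.H76.TP

private theorem MeanF_le_zz (y J : ℕ) : y ≤ zz y J := by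
  unfold zz
  exact Nat.le_mul_of_pos_left _ (by positivity)

/-- the primes of `(y, z]` are partitioned -/
private theorem MeanF_part (g : ℕ → ℝ) (y J : ℕ) :
    ∑ j ∈ range J, ∑ p ∈ pb (2 ^ j * y), g p = ∑ p ∈ PY y (zz y J), g p := by
  induction J with
  | zero =>
    have h : PY y (zz y 0) = ∅ := by
      unfold PY zz
      rw [pow_zero, one_mul, Finset.Ioc_self, Finset.filter_empty]
    rw [h, Finset.range_zero, Finset.sum_empty, Finset.sum_empty]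
  | succ J ih =>
    rw [Finset.sum_range_succ, ih]
    have h2 : zz y (J + 1) = 2 * zz y J := by
      unfold zz
      ring
    have hle := MeanF_le_zz y J
    have h3 : PY y (zz y (J + 1)) = PY y (zz y J) ∪ pb (2 ^ J * y) := by
      ext p
      unfold PY pb
      simp only [Finset.mem_union, Finset.mem_filter, Finset.mem_Ioc]
      rw [h2]
      have h4 : zz y J = 2 ^ J * y := rfl
      rw [← h4]
      constructor
      · rintro ⟨⟨h5, h6⟩, h7⟩
        by_cases h8 : p ≤ zz y J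
        · exact Or.inl ⟨⟨h5, h8⟩, h7⟩
        · exact Or.inr ⟨⟨by omega, h6⟩, h7⟩
      · rintro (⟨⟨h5, h6⟩, h7⟩ | ⟨⟨h5, h6⟩, h7⟩)
        · exact ⟨⟨h5, by omega⟩, h7⟩
        · exact ⟨⟨by omega, h6⟩, h7⟩
    have h4 : Disjoint (PY y (zz y J)) (pb (2 ^ J * y)) := by
      rw [Finset.disjoint_left]
      intro p hp hq
      unfold PY at hp
      unfold pb at hq
      rw [Finset.mem_filter, Finset.mem_Ioc] at hp hq
      have h5 : zz y J = 2 ^ J * y := rfl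
      omega
    rw [h3, Finset.sum_union h4]

/-- the multiples of `d` in an interval -/
private theorem MeanF_div (f : ℕ → ℝ) (x l d : ℕ) (hd : 1 ≤ d) :
    ∑ m ∈ (Ioc x (x + l)).filter (fun m => d ∣ m), f (m / d) = ∑ k ∈ Ioc (x / d) ((x + l) / d), f k := by
  refine Finset.sum_nbij' (fun m => m / d) (fun k => k * d) ?_ ?_ ?_ ?_ ?_
  · intro m hm
    rw [mem_filter, mem_Ioc] at hm
    obtain ⟨⟨h1, h2⟩, k, rfl⟩ := hm
    rw [Nat.mul_div_cancel_left k (by omega), mem_Ioc]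
    constructor
    · rw [Nat.div_lt_iff_lt_mul (by omega)]
      calc x < d * k := h1
        _ = k * d := mul_comm _ _
    · rw [Nat.le_div_iff_mul_le (by omega)]
      calc k * d = d * k := mul_comm _ _
        _ ≤ x + l := h2
  · intro k hk
    rw [mem_Ioc] at hk
    rw [mem_filter, mem_Ioc]
    refine ⟨⟨?_, ?_⟩, dvd_mul_left d k⟩
    · exact (Nat.div_lt_iff_lt_mul (by omega)).1 hk.1
    · exact (Nat.le_div_iff_mul_le (by omega)).1 hk.2
  · intro m hm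
    rw [mem_filter] at hm
    exact Nat.div_mul_cancel hm.2
  · intro k _
    exact Nat.mul_div_cancel k (by omega)
  · intro m _
    rfl

private theorem MeanF_len (x l d : ℕ) (hd : 1 ≤ d) :
    (((x + l) / d - x / d : ℕ) : ℝ) ≤ (l : ℝ) / d + 1 ∧ (l : ℝ) / d - 1 ≤ (((x + l) / d - x / d : ℕ) : ℝ) := by
  have h0 : x / d ≤ (x + l) / d := Nat.div_le_div_right (by omega)
  have hd0 : (0 : ℝ) < d := by exact_mod_cast hd
  have e1 : (((x + l) / d : ℕ) : ℝ) ≤ ((x : ℝ) + l) / d := by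
    have : (((x + l) / d : ℕ) : ℝ) ≤ ((x + l : ℕ) : ℝ) / d := Nat.cast_div_le
    push_cast at this
    exact this
  have e2 : ((x : ℝ) + l) / d - 1 ≤ (((x + l) / d : ℕ) : ℝ) := by
    have := Nat.lt_floor_add_one (((x + l : ℕ) : ℝ) / (d : ℝ))
    rw [Nat.floor_div_eq_div] at this
    push_cast at this
    linarith
  have e3 : ((x / d : ℕ) : ℝ) ≤ (x : ℝ) / d := Nat.cast_div_le
  have e4 : (x : ℝ) / d - 1 ≤ ((x / d : ℕ) : ℝ) := by
    have := Nat.lt_floor_add_one ((x : ℝ) / (d : ℝ))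
    rw [Nat.floor_div_eq_div] at this
    linarith
  have e5 : ((x : ℝ) + l) / d = (x : ℝ) / d + (l : ℝ) / d := add_div _ _ _
  constructor
  · rw [Nat.cast_sub h0]
    linarith
  · rw [Nat.cast_sub h0]
    linarith

/-- the sum of the type II parts over an interval -/
private theorem MeanF_swap (f : ℕ → ℝ) (y J x l : ℕ) :
    ∑ m ∈ Ioc x (x + l), ∑ j ∈ range J, Fp f (2 ^ j * y) m =
      ∑ p ∈ PY y (zz y J), ∑ k ∈ Ioc (x / p) ((x + l) / p), f k := by
  have h1 : ∀ m, ∑ j ∈ range J, Fp f (2 ^ j * y) m =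
      ∑ p ∈ PY y (zz y J), if p ∣ m then f (m / p) else 0 := by
    intro m
    rw [← MeanF_part (fun p => if p ∣ m then f (m / p) else 0) y J]
    refine sum_congr rfl fun j _ => ?_
    unfold Fp
    rw [sum_filter]
  simp_rw [h1]
  rw [sum_comm]
  refine sum_congr rfl fun p hp => ?_
  unfold PY at hp
  rw [mem_filter] at hp
  rw [← sum_filter]
  exact MeanF_div f x l p hp.2.one_lt.le

private theorem MeanF_inv (y z : ℕ) (L : ℝ) (hzL : Real.log z ≤ L) :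
    ∑ p ∈ PY y z, 1 / (p : ℝ) ≤ 1 + L := by
  have h1 : ∑ p ∈ PY y z, 1 / (p : ℝ) ≤ ∑ p ∈ Icc 1 z, 1 / (p : ℝ) := by
    apply sum_le_sum_of_subset_of_nonneg
    · intro p hp
      unfold PY at hp
      rw [mem_filter, mem_Ioc] at hp
      rw [mem_Icc]
      exact ⟨hp.2.one_lt.le, hp.1.2⟩
    · intro p _ _
      positivity
  have h2 := Pool.Agent.H91.EHA.chB_harm z
  linarith

private theorem MeanF_card (y z : ℕ) : ((PY y z).card : ℝ) ≤ z := by
  have h : (PY y z).card ≤ z := by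
    unfold PY
    refine (card_filter_le _ _).trans ?_
    rw [Nat.card_Ioc]
    exact Nat.sub_le z y
  exact_mod_cast h

theorem mean_f (e1 : ℝ) (he1 : 0 < e1) (K : ℕ) : ∃ N0 : ℕ, ∀ N : ℕ, N0 ≤ N → ∀ (J x l : ℕ) (f D : ℕ → ℝ),
    (zz (yN e1 N) J : ℝ) ≤ (N : ℝ) ^ (1 / 4 : ℝ) → N ≤ 8 * x → x ≤ 8 * N → (x : ℝ) / Real.log N ^ K ≤ l → l ≤ x →
    (∀ p ∈ PY (yN e1 N) (zz (yN e1 N) J), |∑ k ∈ Ioc (x / p) ((x + l) / p), f k - (((x + l) / p - x / p : ℕ) : ℝ) * D (x / p)| ≤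
      (((x + l) / p - x / p : ℕ) : ℝ) / Real.log N ^ 3) →
    (∀ p ∈ PY (yN e1 N) (zz (yN e1 N) J), |D (x / p)| ≤ Real.log N ^ 2) →
      |∑ m ∈ Ioc x (x + l), ∑ j ∈ range J, Fp f (2 ^ j * yN e1 N) m
        - l * ∑ j ∈ range J, ∑ p ∈ pb (2 ^ j * yN e1 N), D (x / p) / p| ≤ 3 * l / Real.log N ^ 2 := by
  obtain ⟨x1, hx1⟩ := Pool.Agent.H76.GB.log_ge 10
  obtain ⟨x2, hx2⟩ := Pool.Agent.H76.GB.log_pow_le (3 / 4) 16 (by norm_num) (by norm_num) (K + 4)
  refine ⟨x1 + x2 + 100, fun N hN J x l f D hz hNx hxN hl hlx hf hD => ?_⟩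
  have g1 := hx1 N (by omega)
  have g2 := hx2 N (by omega)
  set L := Real.log N with hL
  set y := yN e1 N with hy
  set z := zz y J with hzd
  have hL0 : 0 < L := by linarith
  have hL1 : 1 ≤ L := by linarith
  have hNpos : (0 : ℝ) < N := by
    have : 0 < N := by omega
    exact_mod_cast this
  have hN1r : (1 : ℝ) ≤ N := by
    have : 1 ≤ N := by omega
    exact_mod_cast this
  have hy1 : 1 ≤ y := by
    rw [hy]
    unfold yN
    exact Nat.le_floor (by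
      rw [Nat.cast_one]
      exact Real.one_le_rpow hN1r he1.le)
  have hz1 : 1 ≤ z := hy1.trans (MeanF_le_zz y J)
  have hz0 : (0 : ℝ) < z := by exact_mod_cast hz1
  have hN14 : (N : ℝ) ^ (1 / 4 : ℝ) ≤ N := by
    calc (N : ℝ) ^ (1 / 4 : ℝ) ≤ (N : ℝ) ^ (1 : ℝ) :=
          Real.rpow_le_rpow_of_exponent_le hN1r (by norm_num)
      _ = N := Real.rpow_one _
  have hzL : Real.log z ≤ L := Real.log_le_log hz0 (hz.trans hN14)
  have hL2 : (0 : ℝ) < L ^ 2 := by positivity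
  have hL3 : (0 : ℝ) < L ^ 3 := by positivity
  have hLK : (0 : ℝ) < L ^ K := by positivity
  have hxr : (N : ℝ) ≤ 8 * x := by exact_mod_cast hNx
  -- `2 z L^4 ≤ l`
  have hzl : 2 * z * L ^ 4 ≤ l := by
    refine le_trans ?_ hl
    rw [le_div_iff₀ hLK]
    have h1 : 16 * L ^ (K + 4) * z ≤ N := by
      calc 16 * L ^ (K + 4) * z ≤ (N : ℝ) ^ (3 / 4 : ℝ) * (N : ℝ) ^ (1 / 4 : ℝ) :=
            mul_le_mul g2 hz hz0.le (by positivity)
        _ = (N : ℝ) := by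
            rw [← Real.rpow_add hNpos]
            have : (3 / 4 : ℝ) + 1 / 4 = 1 := by norm_num
            rw [this, Real.rpow_one]
    have h2 : 16 * L ^ (K + 4) * z = 8 * (2 * z * L ^ 4 * L ^ K) := by
      rw [pow_add]
      ring
    linarith
  -- the terms
  have hterm : ∀ p ∈ PY y z, |∑ k ∈ Ioc (x / p) ((x + l) / p), f k - l * (D (x / p) / p)| ≤
      l / L ^ 3 * (1 / p) + (1 / L ^ 3 + L ^ 2) := by
    intro p hp
    have hf1 := hf p hp
    have hD1 := hD p hp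
    unfold PY at hp
    rw [mem_filter, mem_Ioc] at hp
    have hp1 : 1 ≤ p := hp.2.one_lt.le
    have hp0 : (0 : ℝ) < p := by exact_mod_cast hp1
    obtain ⟨a2, a3⟩ := MeanF_len x l p hp1
    set lp : ℝ := (((x + l) / p - x / p : ℕ) : ℝ) with hlp
    have hd : |lp - l / p| ≤ 1 := by
      rw [abs_le]
      constructor
      · linarith
      · linarith
    have e1 : ∑ k ∈ Ioc (x / p) ((x + l) / p), f k - l * (D (x / p) / p) =
        (∑ k ∈ Ioc (x / p) ((x + l) / p), f k - lp * D (x / p)) + (lp - l / p) * D (x / p) := by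
      ring
    have e2 : |(lp - l / p) * D (x / p)| ≤ L ^ 2 := by
      rw [abs_mul]
      calc |lp - l / p| * |D (x / p)| ≤ 1 * L ^ 2 := mul_le_mul hd hD1 (abs_nonneg _) zero_le_one
        _ = L ^ 2 := one_mul _
    have e3 : lp / L ^ 3 ≤ l / L ^ 3 * (1 / p) + 1 / L ^ 3 := by
      calc lp / L ^ 3 ≤ (l / p + 1) / L ^ 3 := div_le_div_of_nonneg_right a2 hL3.le
        _ = l / L ^ 3 * (1 / p) + 1 / L ^ 3 := by
            field_simp
    rw [e1]
    calc |(∑ k ∈ Ioc (x / p) ((x + l) / p), f k - lp * D (x / p)) + (lp - l / p) * D (x / p)|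
        ≤ |∑ k ∈ Ioc (x / p) ((x + l) / p), f k - lp * D (x / p)| + |(lp - l / p) * D (x / p)| := abs_add_le _ _
      _ ≤ lp / L ^ 3 + L ^ 2 := add_le_add hf1 e2
      _ ≤ l / L ^ 3 * (1 / p) + (1 / L ^ 3 + L ^ 2) := by linarith
  rw [MeanF_swap, MeanF_part (fun p => D (x / p) / p) y J, mul_sum, ← sum_sub_distrib]
  have hinv := MeanF_inv y z L hzL
  have hcard := MeanF_card y z
  have hl0 : (0 : ℝ) ≤ l := Nat.cast_nonneg l
  calc |∑ p ∈ PY y z, (∑ k ∈ Ioc (x / p) ((x + l) / p), f k - l * (D (x / p) / p))|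
      ≤ ∑ p ∈ PY y z, |∑ k ∈ Ioc (x / p) ((x + l) / p), f k - l * (D (x / p) / p)| := abs_sum_le_sum_abs _ _
    _ ≤ ∑ p ∈ PY y z, (l / L ^ 3 * (1 / p) + (1 / L ^ 3 + L ^ 2)) := sum_le_sum hterm
    _ = l / L ^ 3 * ∑ p ∈ PY y z, 1 / (p : ℝ) + ((PY y z).card : ℝ) * (1 / L ^ 3 + L ^ 2) := by
        rw [sum_add_distrib, ← mul_sum, sum_const, nsmul_eq_mul]
    _ ≤ l / L ^ 3 * (1 + L) + z * (1 / L ^ 3 + L ^ 2) := by
        apply add_le_add
        · exact mul_le_mul_of_nonneg_left hinv (by positivity)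
        · exact mul_le_mul_of_nonneg_right hcard (by positivity)
    _ ≤ 3 * l / L ^ 2 := by
        have h1 : (l : ℝ) / L ^ 3 * (1 + L) ≤ 2 * l / L ^ 2 := by
          have h2 : (l : ℝ) / L ^ 3 * (1 + L) = (l / L ^ 2) * ((1 + L) / L) := by
            field_simp
          have h3 : (1 + L) / L ≤ 2 := by
            rw [div_le_iff₀ hL0]
            linarith
          calc (l : ℝ) / L ^ 3 * (1 + L) = (l / L ^ 2) * ((1 + L) / L) := h2
            _ ≤ (l / L ^ 2) * 2 := mul_le_mul_of_nonneg_left h3 (by positivity)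
            _ = 2 * l / L ^ 2 := by ring
        have h4 : z * (1 / L ^ 3 + L ^ 2) ≤ l / L ^ 2 := by
          rw [le_div_iff₀ hL2]
          have h5 : 1 / L ^ 3 ≤ L ^ 2 := by
            rw [div_le_iff₀ hL3]
            have h6 : (1 : ℝ) ≤ L ^ 2 := one_le_pow₀ hL1
            have h7 : (1 : ℝ) ≤ L ^ 3 := one_le_pow₀ hL1
            calc (1 : ℝ) = 1 * 1 := by norm_num
              _ ≤ L ^ 2 * L ^ 3 := mul_le_mul h6 h7 zero_le_one (by positivity)
          calc z * (1 / L ^ 3 + L ^ 2) * L ^ 2 ≤ z * (L ^ 2 + L ^ 2) * L ^ 2 := by gcongr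
            _ = 2 * z * L ^ 4 := by ring
            _ ≤ l := hzl
        have h8 : 3 * (l : ℝ) / L ^ 2 = 2 * l / L ^ 2 + l / L ^ 2 := by ring
        rw [h8]
        exact add_le_add h1 h4

end Pool.Agent.H9.TM

end

section

/-!
# TPS MscF: `Pool.Agent.H53.MID.msc` for a general `f`

Copy and adapt `msc` (file `H53/MID/Msc.lean`, complete) with `K1 = N/(16P)`, `K2 = 12N/P` (natural divisions), `f` general: in place of `hsq` use the hypothesis `SqB f w0 (N^4) L` on the interval `[0, K2 + 1)` (`w0 ≤ K2`), in place of `SWp` the hypothesis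
`SWf f N P C' m k` (all `b`, `c = d`; the case `gcd(l, d) > 1` needs no special treatment).
Proof.  `vk_pr` with `K = C' + A' + 6` gives `K'`; `m = K'`, `k = C' + K' + A' + 10`.  By `fac_sq`, `∫_{|t| ≤ U} ‖Cs‖^2 ≤ d ∑_{l<d} ∫ ‖Pl‖^2 ‖Kl‖^2`.
(1) `L^K' ≤ |T + t|`: `‖Pl‖ ≤ P/L^K` (`|T + t| ≤ N^2 + N ≤ N^3`), `∫_{|t| ≤ U} ‖Kl(T+t)‖^2 ≤ (2U + 2 K2 (1 + log K2)) ∑_{k ≤ K2} (cut f)^2` (`mvt`), `∑ ≤ (K2 + 1) L^4`, `U ≤ N/P`, `K2 ≤ 12 N/P`: `≤ (N/P)^2 L^7`.
(2) `|T + t| < L^K'`: `‖Pl‖ ≤ P`, `‖Kl f K1 K2 (l b/d) (T+t)‖ ≤ (N/P)/L^k` by `SWf` with `c = d`, `b := l b`; the set of these `t` has measure `≤ 2 L^K'`.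
Total `≤ d^2 (P^2 L^(-2K) (N/P)^2 L^7 + P^2 · 2 L^K' (N/P)^2 L^(-2k)) ≤ N^2/L^A'`.
-/

set_option autoImplicit false

namespace Pool.Agent.H53.TPS

open Finset MeasureTheory
open Pool.Agent.H91.PK (ee)
open Pool.Agent.H35.W (pb)
open Pool.Agent.H53.MID

private theorem MscF_int (p q : ℝ → ℝ) (hp : Continuous p) (hq : Continuous q)
    (hq0 : ∀ t, 0 ≤ q t) (U T M a b : ℝ) (hM : 0 ≤ M) (ha : 0 ≤ a) (hb : 0 ≤ b)
    (h1 : ∀ t ∈ Set.Icc (-U) U, M ≤ |T + t| → p t ≤ a)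
    (h2 : ∀ t ∈ Set.Icc (-U) U, |T + t| < M → p t * q t ≤ b) :
    ∫ t in Set.Icc (-U) U, p t * q t ≤ a * (∫ t in Set.Icc (-U) U, q t) + 2 * M * b := by
  set S : Set ℝ := Set.Ioo (-T - M) (-T + M) with hS
  have hint1 : IntegrableOn (fun t => p t * q t) (Set.Icc (-U) U) :=
    (hp.mul hq).continuousOn.integrableOn_Icc
  have hint2 : IntegrableOn q (Set.Icc (-U) U) := hq.continuousOn.integrableOn_Icc
  have hvol : volume S ≠ ⊤ := by
    rw [hS, Real.volume_Ioo]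
    exact ENNReal.ofReal_ne_top
  have hint3 : Integrable (S.indicator (fun _ : ℝ => b)) volume :=
    (integrable_indicator_iff measurableSet_Ioo).2 (integrableOn_const hvol)
  have hnn : ∀ t, 0 ≤ S.indicator (fun _ : ℝ => b) t :=
    fun t => Set.indicator_nonneg (fun _ _ => hb) t
  have e1 : ∫ t in Set.Icc (-U) U, p t * q t ≤
      ∫ t in Set.Icc (-U) U, (a * q t + S.indicator (fun _ : ℝ => b) t) := by
    refine setIntegral_mono_on hint1 ((hint2.const_mul a).add hint3.integrableOn)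
      measurableSet_Icc fun t ht => ?_
    rcases le_or_gt M |T + t| with h | h
    · have := mul_le_mul_of_nonneg_right (h1 t ht h) (hq0 t)
      have := hnn t
      linarith
    · have hmem : t ∈ S := by
        rw [hS, Set.mem_Ioo]
        rw [abs_lt] at h
        constructor <;> linarith [h.1, h.2]
      rw [Set.indicator_of_mem hmem]
      have := h2 t ht h
      have := mul_nonneg ha (hq0 t)
      linarith
  have e2 : ∫ t in Set.Icc (-U) U, (a * q t + S.indicator (fun _ : ℝ => b) t) =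
      a * (∫ t in Set.Icc (-U) U, q t) + ∫ t in Set.Icc (-U) U, S.indicator (fun _ : ℝ => b) t := by
    rw [integral_add (hint2.const_mul a) hint3.integrableOn, integral_const_mul]
  have e3 : ∫ t in Set.Icc (-U) U, S.indicator (fun _ : ℝ => b) t ≤ 2 * M * b := by
    refine (setIntegral_le_integral hint3 (Filter.Eventually.of_forall hnn)).trans ?_
    rw [integral_indicator_const _ measurableSet_Ioo, Real.volume_real_Ioo_of_le (by linarith),
      smul_eq_mul]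
    exact le_of_eq (by ring)
  linarith

private theorem MscF_ee_cont (y : ℝ) (T : ℝ) : Continuous fun t : ℝ => ee (-((T + t) * y)) := by
  unfold Pool.Agent.H91.PK.ee
  fun_prop

private theorem MscF_norm_ee (t : ℝ) : ‖ee t‖ = 1 := Pool.Agent.H91.PK.LSa_norm_ee t

private theorem MscF_Pl_cont (P d l : ℕ) (T : ℝ) : Continuous fun t : ℝ => Pl P d l (T + t) := by
  unfold Pl
  exact continuous_finsetSum _ fun p _ => MscF_ee_cont _ _

private theorem MscF_Kl_cont (f : ℕ → ℝ) (K1 K2 : ℕ) (a T : ℝ) :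
    Continuous fun t : ℝ => Kl f K1 K2 a (T + t) := by
  unfold Kl
  exact continuous_finsetSum _ fun p _ => continuous_const.mul (MscF_ee_cont _ _)

private theorem MscF_Pl_le (P d l : ℕ) (s : ℝ) : ‖Pl P d l s‖ ≤ P := by
  unfold Pl
  refine (norm_sum_le _ _).trans ?_
  simp only [MscF_norm_ee, sum_const, nsmul_eq_mul, mul_one]
  have h : ((pb P).filter (fun p => p % d = l % d)).card ≤ P := by
    refine (Finset.card_filter_le _ _).trans ?_
    unfold Pool.Agent.H35.W.pb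
    refine (Finset.card_filter_le _ _).trans ?_
    rw [Nat.card_Ioc]
    omega
  exact_mod_cast h

/-- `Kl` as a sum over `[1, K2]` -/
private theorem MscF_Kl_eq (f : ℕ → ℝ) (K1 K2 : ℕ) (a s : ℝ) :
    Kl f K1 K2 a s = ∑ m ∈ Icc 1 K2, ((cut K1 K2 f m : ℂ) * ee (-(m * a))) *
      ee (-(s * Real.log m)) := by
  unfold Kl
  have hsub : Ioc K1 K2 ⊆ Icc 1 K2 := by
    intro m hm
    rw [mem_Ioc] at hm
    rw [mem_Icc]
    omega
  rw [← sum_subset hsub (f := fun m => ((cut K1 K2 f m : ℂ) * ee (-(m * a))) *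
      ee (-(s * Real.log m)))]
  · refine Finset.sum_congr rfl fun m hm => ?_
    unfold cut
    rw [if_pos hm]
  · intro m _ hm
    unfold cut
    rw [if_neg hm]
    simp

/-- mean square of `Kl` -/
private theorem MscF_Kl_ms (f : ℕ → ℝ) (K1 K2 w0 Y : ℕ) (L a T U : ℝ) (hK : 1 ≤ K2) (hU : 0 ≤ U)
    (h : SqB (cut K1 K2 f) w0 Y L) (hw : w0 ≤ K2 + 1) (hY : K2 + 1 ≤ Y) :
    ∫ t in Set.Icc (-U) U, ‖Kl f K1 K2 a (T + t)‖ ^ 2 ≤
      (2 * U + 2 * K2 * (1 + Real.log K2)) * ((K2 + 1) * L ^ 4) := by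
  have h1 := mvt (fun m => (cut K1 K2 f m : ℂ) * ee (-(m * a))) K2 U T hK hU
  simp only [← MscF_Kl_eq] at h1
  refine h1.trans ?_
  have h2 : ∑ m ∈ Icc 1 K2, ‖(cut K1 K2 f m : ℂ) * ee (-(m * a))‖ ^ 2 ≤ (K2 + 1) * L ^ 4 := by
    have h3 := h 0 (K2 + 1) hw (by omega)
    rw [zero_add] at h3
    push_cast at h3
    refine le_trans ?_ h3
    have h4 : ∑ m ∈ Icc 1 K2, ‖(cut K1 K2 f m : ℂ) * ee (-(m * a))‖ ^ 2 =
        ∑ m ∈ Icc 1 K2, cut K1 K2 f m ^ 2 := by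
      refine Finset.sum_congr rfl fun m _ => ?_
      rw [norm_mul, MscF_norm_ee, mul_one, Complex.norm_real, Real.norm_eq_abs, sq_abs]
    rw [h4]
    refine Finset.sum_le_sum_of_subset_of_nonneg ?_ fun m _ _ => sq_nonneg _
    intro m hm
    rw [mem_Icc] at hm
    rw [mem_Ico]
    omega
  have h5 : 0 ≤ 2 * U + 2 * K2 * (1 + Real.log K2) := by
    have : 0 ≤ Real.log K2 := Real.log_natCast_nonneg K2
    positivity
  exact mul_le_mul_of_nonneg_left h2 h5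

/-- the elementary thresholds -/
private theorem MscF_big (B : ℕ) (e1 : ℝ) (he1 : 0 < e1) : ∃ N0 : ℕ, ∀ N : ℕ, N0 ≤ N →
    50 ≤ Real.log N ∧ Real.log N ^ (4 * B) + 1 ≤ (N : ℝ) ^ e1 ∧ 3 ≤ N := by
  have h1 := (isLittleO_log_rpow_atTop (r := e1 / (4 * B + 1)) (by positivity)).bound (c := 1)
    one_pos
  have h2 := (Real.tendsto_log_atTop.eventually (Filter.eventually_ge_atTop (50 : ℝ))).and
    (h1.and (Filter.eventually_ge_atTop (3 : ℝ)))
  have h3 := tendsto_natCast_atTop_atTop (R := ℝ) |>.eventually h2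
  obtain ⟨x1, hx1⟩ := Filter.eventually_atTop.1 h3
  refine ⟨x1, fun N hN => ?_⟩
  obtain ⟨g1, g2, g3⟩ := hx1 N hN
  refine ⟨g1, ?_, by exact_mod_cast g3⟩
  have hN0 : (0 : ℝ) < N := by linarith
  have hL0 : 0 ≤ Real.log N := by linarith
  rw [one_mul, Real.norm_eq_abs, Real.norm_eq_abs, abs_of_nonneg hL0,
    abs_of_nonneg (Real.rpow_nonneg hN0.le _)] at g2
  have h4 : Real.log N ^ (4 * B + 1) ≤ (N : ℝ) ^ e1 := by
    calc Real.log N ^ (4 * B + 1) ≤ ((N : ℝ) ^ (e1 / (4 * B + 1))) ^ (4 * B + 1) :=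
          pow_le_pow_left₀ hL0 g2 _
      _ = (N : ℝ) ^ e1 := by
          rw [← Real.rpow_natCast, ← Real.rpow_mul hN0.le]
          congr 1
          push_cast
          field_simp
  have h5 : 1 ≤ Real.log N ^ (4 * B) := one_le_pow₀ (by linarith)
  rw [pow_succ] at h4
  nlinarith

/-- final arithmetic -/
private theorem MscF_arith (N P K2 d U L : ℝ) (A' C' K' : ℕ) (hN : 0 < N) (hP : 0 < P)
    (hL : 50 ≤ L) (hd : d ≤ L ^ C') (hd0 : 0 ≤ d) (hU : 1 ≤ U) (hUP : U * P ≤ N)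
    (hK : 1 ≤ K2) (hKP : K2 * P ≤ 16 * N) (lk : ℝ) (hlk : lk ≤ L) (hlk0 : 0 ≤ lk) :
    d * (d * ((P / L ^ (C' + A' + 6)) ^ 2 * ((2 * U + 2 * K2 * (1 + lk)) * ((K2 + 1) * L ^ 4)) +
      2 * L ^ K' * (P * (K2 / L ^ (C' + K' + A' + 10))) ^ 2)) ≤ N ^ 2 / L ^ A' := by
  have hL0 : 0 < L := by linarith
  have hL1 : 1 ≤ L := by linarith
  have hdd : d * d ≤ (L ^ C') ^ 2 := by
    rw [sq]
    exact mul_le_mul hd hd hd0 (by positivity)
  have hPU : P * U ≤ N := by linarith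
  -- first term
  have a1 : P * (2 * U + 2 * K2 * (1 + lk)) ≤ N * (66 * L) := by
    have e1 : P * K2 * (1 + lk) ≤ 16 * N * (2 * L) := by
      have : P * K2 ≤ 16 * N := by linarith
      exact mul_le_mul this (by linarith) (by linarith) (by positivity)
    have e2 : N ≤ N * L := le_mul_of_one_le_right hN.le hL1
    nlinarith
  have a2 : P * (K2 + 1) ≤ 32 * N := by
    have : P * 1 ≤ P * K2 := mul_le_mul_of_nonneg_left hK hP.le
    linarith
  have a3 : P ^ 2 * ((2 * U + 2 * K2 * (1 + lk)) * ((K2 + 1) * L ^ 4)) ≤ N ^ 2 * L ^ 7 := by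
    have e1 : 0 ≤ 2 * U + 2 * K2 * (1 + lk) := by positivity
    calc P ^ 2 * ((2 * U + 2 * K2 * (1 + lk)) * ((K2 + 1) * L ^ 4))
        = (P * (2 * U + 2 * K2 * (1 + lk))) * (P * (K2 + 1)) * L ^ 4 := by ring
      _ ≤ (N * (66 * L)) * (32 * N) * L ^ 4 := by
          refine mul_le_mul_of_nonneg_right (mul_le_mul a1 a2 (by positivity) (by positivity)) (by positivity)
      _ = N ^ 2 * (2112 * L ^ 5) := by ring
      _ ≤ N ^ 2 * L ^ 7 := by
          refine mul_le_mul_of_nonneg_left ?_ (by positivity)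
          have : 2112 ≤ L ^ 2 := by nlinarith
          calc 2112 * L ^ 5 ≤ L ^ 2 * L ^ 5 := mul_le_mul_of_nonneg_right this (by positivity)
            _ = L ^ 7 := by ring
  have b1 : P ^ 2 * K2 ^ 2 ≤ 256 * N ^ 2 := by
    have : (P * K2) ^ 2 ≤ (16 * N) ^ 2 := pow_le_pow_left₀ (by positivity) (by linarith) 2
    nlinarith
  have c1 : (P / L ^ (C' + A' + 6)) ^ 2 * ((2 * U + 2 * K2 * (1 + lk)) * ((K2 + 1) * L ^ 4)) ≤
      N ^ 2 / ((L ^ C') ^ 2 * L ^ A') * (1 / 2) := by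
    rw [div_pow, div_mul_eq_mul_div, div_le_iff₀ (by positivity)]
    refine a3.trans ?_
    have e : N ^ 2 / ((L ^ C') ^ 2 * L ^ A') * (1 / 2) * (L ^ (C' + A' + 6)) ^ 2 =
        N ^ 2 * (L ^ 7 * (L ^ A' * L ^ 5 / 2)) := by
      rw [pow_add, pow_add]
      field_simp
    rw [e]
    refine mul_le_mul_of_nonneg_left ?_ (by positivity)
    have h1 : 1 ≤ L ^ A' := one_le_pow₀ hL1
    have h2 : 2 ≤ L ^ 5 := by
      calc (2 : ℝ) ≤ L := by linarith
        _ = L ^ 1 := (pow_one L).symm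
        _ ≤ L ^ 5 := pow_le_pow_right₀ hL1 (by norm_num)
    refine le_mul_of_one_le_right (by positivity) ?_
    nlinarith
  have c2 : 2 * L ^ K' * (P * (K2 / L ^ (C' + K' + A' + 10))) ^ 2 ≤
      N ^ 2 / ((L ^ C') ^ 2 * L ^ A') * (1 / 2) := by
    have e0 : 2 * L ^ K' * (P * (K2 / L ^ (C' + K' + A' + 10))) ^ 2 =
        2 * L ^ K' * (P ^ 2 * K2 ^ 2) / (L ^ (C' + K' + A' + 10)) ^ 2 := by
      field_simp
    rw [e0, div_le_iff₀ (by positivity)]
    have e : N ^ 2 / ((L ^ C') ^ 2 * L ^ A') * (1 / 2) * (L ^ (C' + K' + A' + 10)) ^ 2 =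
        N ^ 2 * L ^ K' * (L ^ K' * L ^ A' * L ^ 20 / 2) := by
      rw [pow_add, pow_add, pow_add]
      field_simp
    rw [e]
    have h1 : 1 ≤ L ^ A' := one_le_pow₀ hL1
    have h1' : 1 ≤ L ^ K' := one_le_pow₀ hL1
    have h3 : 1 ≤ L ^ K' * L ^ A' := one_le_mul_of_one_le_of_one_le h1' h1
    have h2 : 1024 ≤ L ^ 20 := by
      calc (1024 : ℝ) ≤ L ^ 2 := by nlinarith
        _ ≤ L ^ 20 := pow_le_pow_right₀ hL1 (by norm_num)
    have h4 : 512 ≤ L ^ K' * L ^ A' * L ^ 20 / 2 := by nlinarith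
    calc 2 * L ^ K' * (P ^ 2 * K2 ^ 2) ≤ 2 * L ^ K' * (256 * N ^ 2) :=
          mul_le_mul_of_nonneg_left b1 (by positivity)
      _ = N ^ 2 * L ^ K' * 512 := by ring
      _ ≤ _ := mul_le_mul_of_nonneg_left h4 (by positivity)
  have hX : 0 ≤ N ^ 2 / ((L ^ C') ^ 2 * L ^ A') := by positivity
  calc _ = d * d * ((P / L ^ (C' + A' + 6)) ^ 2 * ((2 * U + 2 * K2 * (1 + lk)) * ((K2 + 1) * L ^ 4)) +
      2 * L ^ K' * (P * (K2 / L ^ (C' + K' + A' + 10))) ^ 2) := by ring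
    _ ≤ d * d * (N ^ 2 / ((L ^ C') ^ 2 * L ^ A')) := by
        refine mul_le_mul_of_nonneg_left ?_ (by positivity)
        linarith
    _ ≤ (L ^ C') ^ 2 * (N ^ 2 / ((L ^ C') ^ 2 * L ^ A')) := mul_le_mul_of_nonneg_right hdd hX
    _ = N ^ 2 / L ^ A' := by
        field_simp

private theorem MscF_SqB (f : ℕ → ℝ) (K1 K2 w0 Y : ℕ) (L : ℝ) (h : SqB f w0 Y L) :
    SqB (cut K1 K2 f) w0 Y L := by
  intro u w h1 h2
  refine le_trans (Finset.sum_le_sum fun k _ => ?_) (h u w h1 h2)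
  unfold cut
  split_ifs
  · exact le_rfl
  · rw [zero_pow two_ne_zero]
    exact sq_nonneg _

theorem msc_f (hVK : VKp) (A' C' : ℕ) (e1 : ℝ) (he1 : 0 < e1) : ∃ m k N0 : ℕ, ∀ N : ℕ, N0 ≤ N →
    ∀ (P X d b w0 : ℕ) (f : ℕ → ℝ) (T U : ℝ), (N : ℝ) ^ e1 ≤ P → P ^ 2 ≤ N → 1 ≤ d → (d : ℝ) ≤ Real.log N ^ C' →
    |T| ≤ (N : ℝ) ^ 2 → 1 ≤ U → U * P ≤ N → 24 * N ≤ X → w0 ≤ 12 * N / P → SqB f w0 (N ^ 4) (Real.log N) →
    SWf f N P C' m k →
    ∫ t in Set.Icc (-U) U, ‖Cs (cc (cut (N / (16 * P)) (12 * N / P) f) P ((b : ℝ) / d) T) X t‖ ^ 2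
      ≤ (N : ℝ) ^ 2 / Real.log N ^ A' := by
  obtain ⟨K', N1, hN1⟩ := vk_pr hVK (C' + A' + 6) C' e1 he1
  obtain ⟨N4, hN4⟩ := MscF_big 1 e1 he1
  refine ⟨K', C' + K' + A' + 10, max N1 N4, fun N hN P X d b w0 f T U hP1 hP2 hd1 hd2 hT hU hUP hX hw0
    hsq hSW => ?_⟩
  have g1 := hN1 N (le_trans (le_max_left _ _) hN)
  obtain ⟨hL, hbig, hN3'⟩ := hN4 N (le_trans (le_max_right _ _) hN)
  unfold SWf at hSW
  set L := Real.log N with hLdef
  have hL1 : 1 ≤ L := by linarith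
  have hL0 : 0 < L := by linarith
  have hNR : (3 : ℝ) ≤ N := by exact_mod_cast hN3'
  have hP0 : (0 : ℝ) < P := lt_of_lt_of_le (Real.rpow_pos_of_pos (by linarith) _) hP1
  have hP0' : 0 < P := by exact_mod_cast hP0
  have hP12 : 12 ≤ P := by
    have h1 : (12 : ℝ) ≤ P := by
      have h2 : L ^ 1 ≤ L ^ (4 * 1) := pow_le_pow_right₀ hL1 (by norm_num)
      rw [pow_one] at h2
      linarith
    exact_mod_cast h1
  have hPN : P ≤ N := by nlinarith
  set K1 := N / (16 * P) with hK1def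
  set K2 := 12 * N / P with hK2def
  have hK2P : K2 * P ≤ 12 * N := Nat.div_mul_le_self _ _
  have hK2N : K2 ≤ N := by
    rw [hK2def]
    refine Nat.div_le_of_le_mul ?_
    exact Nat.mul_le_mul_right N hP12
  have hK2' : 1 ≤ K2 := by
    rw [hK2def, Nat.le_div_iff_mul_le hP0']
    omega
  have hK2R : (1 : ℝ) ≤ K2 := by exact_mod_cast hK2'
  have hK20 : (0 : ℝ) < K2 := by linarith
  have hNP : (N / P : ℝ) ≤ K2 := by
    rw [div_le_iff₀ hP0]
    have h1 : 12 * N < (K2 + 1) * P := by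
      have h2 := Nat.lt_div_mul_add (a := 12 * N) hP0'
      rw [← hK2def] at h2
      rw [add_mul, one_mul]
      exact h2
    have h3 : N ≤ K2 * P := by
      have h4 : (K2 + 1) * P = K2 * P + P := by ring
      rw [h4] at h1
      omega
    exact_mod_cast h3
  have hX' : 2 * P * K2 ≤ X := by
    have h1 : 2 * P * K2 = 2 * (K2 * P) := by ring
    omega
  have hUN : U ≤ N := by
    have hP1' : (1 : ℝ) ≤ P := by
      exact_mod_cast hP0'
    nlinarith
  -- pointwise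
  have hpt : ∀ t : ℝ, ‖Cs (cc (cut K1 K2 f) P ((b : ℝ) / d) T) X t‖ ^ 2 ≤
      d * ∑ l ∈ range d, ‖Pl P d l (T + t)‖ ^ 2 * ‖Kl f K1 K2 ((l : ℝ) * b / d) (T + t)‖ ^ 2 :=
    fun t => fac_sq f P K1 K2 X d b T t hd1 hX'
  have hcontP : ∀ l, Continuous fun t : ℝ => ‖Pl P d l (T + t)‖ ^ 2 :=
    fun l => (MscF_Pl_cont P d l T).norm.pow 2
  have hcontK : ∀ l : ℕ, Continuous fun t : ℝ => ‖Kl f K1 K2 ((l : ℝ) * b / d) (T + t)‖ ^ 2 :=
    fun l => (MscF_Kl_cont f K1 K2 _ T).norm.pow 2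
  have hcontC : Continuous fun t : ℝ => ‖Cs (cc (cut K1 K2 f) P ((b : ℝ) / d) T) X t‖ ^ 2 := by
    refine Continuous.pow (Continuous.norm ?_) 2
    unfold Cs
    refine continuous_finsetSum _ fun m _ => continuous_const.mul ?_
    have := MscF_ee_cont (Real.log m) 0
    simpa only [zero_add] using this
  have hI1 : ∫ t in Set.Icc (-U) U, ‖Cs (cc (cut K1 K2 f) P ((b : ℝ) / d) T) X t‖ ^ 2 ≤
      d * ∑ l ∈ range d, ∫ t in Set.Icc (-U) U,
        ‖Pl P d l (T + t)‖ ^ 2 * ‖Kl f K1 K2 ((l : ℝ) * b / d) (T + t)‖ ^ 2 := by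
    have hi : ∀ l ∈ range d, Integrable (fun t : ℝ => ‖Pl P d l (T + t)‖ ^ 2 *
        ‖Kl f K1 K2 ((l : ℝ) * b / d) (T + t)‖ ^ 2) (volume.restrict (Set.Icc (-U) U)) :=
      fun l _ => ((hcontP l).mul (hcontK l)).continuousOn.integrableOn_Icc
    rw [← integral_finsetSum _ hi, ← integral_const_mul]
    refine setIntegral_mono_on hcontC.continuousOn.integrableOn_Icc ?_ measurableSet_Icc
      fun t _ => hpt t
    refine Continuous.continuousOn ?_ |>.integrableOn_Icc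
    exact continuous_const.mul (continuous_finsetSum _ fun l _ => (hcontP l).mul (hcontK l))
  refine hI1.trans ?_
  -- each class
  have hcl : ∀ l ∈ range d, ∫ t in Set.Icc (-U) U,
        ‖Pl P d l (T + t)‖ ^ 2 * ‖Kl f K1 K2 ((l : ℝ) * b / d) (T + t)‖ ^ 2 ≤
      (P / L ^ (C' + A' + 6)) ^ 2 * ((2 * U + 2 * K2 * (1 + Real.log K2)) * ((K2 + 1) * L ^ 4)) +
      2 * L ^ K' * (P * (K2 / L ^ (C' + K' + A' + 10))) ^ 2 := by
    intro l _
    have k1 := MscF_int (fun t => ‖Pl P d l (T + t)‖ ^ 2)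
      (fun t => ‖Kl f K1 K2 ((l : ℝ) * b / d) (T + t)‖ ^ 2) (hcontP l) (hcontK l)
      (fun t => by positivity) U T (L ^ K') ((P / L ^ (C' + A' + 6)) ^ 2)
      ((P * (K2 / L ^ (C' + K' + A' + 10))) ^ 2) (by positivity) (by positivity) (by positivity)
      ?_ ?_
    · refine k1.trans ?_
      have k2 := MscF_Kl_ms f K1 K2 w0 (N ^ 4) L ((l : ℝ) * b / d) T U hK2' (by linarith)
        (MscF_SqB f K1 K2 w0 (N ^ 4) L hsq) ?_ ?_
      · have := mul_le_mul_of_nonneg_left k2 (by positivity : (0 : ℝ) ≤ (P / L ^ (C' + A' + 6)) ^ 2)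
        linarith
      · omega
      · have : N + 1 ≤ N ^ 4 := by
          calc N + 1 ≤ N * N := by nlinarith
            _ = N ^ 2 := (sq N).symm
            _ ≤ N ^ 4 := Nat.pow_le_pow_right (by omega) (by norm_num)
        omega
    · intro t ht hM
      rw [Set.mem_Icc] at ht
      have habs : |T + t| ≤ (N : ℝ) ^ 3 := by
        have h1 : |t| ≤ U := abs_le.2 ht
        have h2 : |T + t| ≤ |T| + |t| := abs_add_le _ _
        nlinarith [sq_nonneg (N : ℝ)]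
      have k2 := g1 P d l (T + t) hP1 hPN hd1 hd2 hM habs
      exact pow_le_pow_left₀ (norm_nonneg _) k2 2
    · intro t ht hM
      have k2 := hSW d (l * b) (T + t) hd1 hd2 hM.le
      have k3 : ‖Kl f K1 K2 ((l : ℝ) * b / d) (T + t)‖ ≤ K2 / L ^ (C' + K' + A' + 10) := by
        have k5 : (N / P : ℝ) / L ^ (C' + K' + A' + 10) ≤ K2 / L ^ (C' + K' + A' + 10) :=
          div_le_div_of_nonneg_right hNP (by positivity)
        refine le_trans (le_of_eq ?_) (k2.trans k5)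
        unfold Kl
        congr 1
        refine Finset.sum_congr rfl fun m _ => ?_
        rw [Nat.cast_mul]
      have k4 := MscF_Pl_le P d l (T + t)
      show ‖Pl P d l (T + t)‖ ^ 2 * ‖Kl f K1 K2 ((l : ℝ) * b / d) (T + t)‖ ^ 2 ≤ _
      rw [← mul_pow]
      exact pow_le_pow_left₀ (by positivity)
        (mul_le_mul k4 k3 (norm_nonneg _) (Nat.cast_nonneg P)) 2
  have hsum := Finset.sum_le_sum hcl
  rw [sum_const, card_range, nsmul_eq_mul] at hsum
  refine (mul_le_mul_of_nonneg_left hsum (Nat.cast_nonneg d)).trans ?_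
  refine MscF_arith N P K2 d U L A' C' K' (by linarith) hP0 hL hd2 (Nat.cast_nonneg d) hU
    hUP hK2R ?_ (Real.log K2) ?_ (Real.log_natCast_nonneg K2)
  · have h1 : K2 * P ≤ 16 * N := by omega
    exact_mod_cast h1
  · exact Real.log_le_log hK20 (by exact_mod_cast hK2N)

end Pool.Agent.H53.TPS

end

section

/-!
# TPS MsF: `Pool.Agent.H53.MID.ms` for a general `f`

Copy and adapt `ms` (file `H53/MID/Ms.lean`, complete) with `msc_f` in place of `msc`, `K1 = N/(16P)`, `K2 = 12N/P`, and `SqB f w0 (N^4) L` (on `[0, K2+1)`, `w0 ≤ K2`) in place of `hsq`.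
`C4 = A' + 12`, `U = L^C4/θ` (`U ≥ 1`, `U P ≤ N`), `msc_f` with `A' + 1`, `plw`.
-/

set_option autoImplicit false

namespace Pool.Agent.H53.TPS

open Finset MeasureTheory
open Pool.Agent.H91.PK (ee)
open Pool.Agent.H35.W (pb)
open Pool.Agent.H53.MID

private theorem MsF_asy (k : ℕ) (e1 : ℝ) (he1 : 0 < e1) :
    ∀ᶠ N : ℕ in Filter.atTop, Real.log N ^ k + 1 ≤ (N : ℝ) ^ e1 := by
  have h1 := (isLittleO_log_rpow_rpow_atTop (k : ℝ) he1).bound (show (0 : ℝ) < 1 / 2 by norm_num)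
  have h2 := (tendsto_rpow_atTop he1).eventually_ge_atTop 2
  have h3 := (tendsto_natCast_atTop_atTop (R := ℝ)).eventually (h1.and h2)
  filter_upwards [h3] with N hN
  obtain ⟨h4, h5⟩ := hN
  rw [Real.rpow_natCast, Real.norm_eq_abs, Real.norm_eq_abs] at h4
  have h6 : |(N : ℝ) ^ e1| = (N : ℝ) ^ e1 := abs_of_nonneg (by positivity)
  rw [h6] at h4
  have h7 := (le_abs_self _).trans h4
  linarith only [h5, h7]

private theorem MsF_cc (f : ℕ → ℝ) (P m : ℕ) (a T : ℝ) : ‖cc f P a T m‖ = |Fp f P m| := by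
  unfold cc
  rw [norm_mul, norm_mul, Pool.Agent.H91.PK.LSa_norm_ee, Pool.Agent.H91.PK.LSa_norm_ee, mul_one, mul_one,
    Complex.norm_real, Real.norm_eq_abs]

private theorem MsF_card (P m : ℕ) (hm : 1 ≤ m) : (((pb P).filter (fun p => p ∣ m)).card : ℝ) ≤ 2 * Real.log m := by
  have hsub : (pb P).filter (fun p => p ∣ m) ⊆ m.primeFactors := by
    intro p hp
    rw [Finset.mem_filter] at hp
    unfold pb at hp
    rw [Finset.mem_filter] at hp
    exact Nat.mem_primeFactors.2 ⟨hp.1.2, hp.2, by omega⟩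
  have h1 : 2 ^ m.primeFactors.card ≤ m := by
    calc 2 ^ m.primeFactors.card = ∏ _p ∈ m.primeFactors, 2 := by rw [Finset.prod_const]
      _ ≤ ∏ p ∈ m.primeFactors, p := Finset.prod_le_prod' fun p hp => (Nat.prime_of_mem_primeFactors hp).two_le
      _ ≤ m := Nat.le_of_dvd (by omega) (Nat.prod_primeFactors_dvd m)
  have h2 : 2 ^ ((pb P).filter (fun p => p ∣ m)).card ≤ m :=
    (Nat.pow_le_pow_right (by norm_num) (Finset.card_le_card hsub)).trans h1
  have h3 : (2 : ℝ) ^ ((pb P).filter (fun p => p ∣ m)).card ≤ m := by exact_mod_cast h2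
  have h4 := Real.log_le_log (by positivity) h3
  rw [Real.log_pow] at h4
  have h5 := Real.log_two_gt_d9
  have h6 : (0 : ℝ) ≤ (((pb P).filter (fun p => p ∣ m)).card : ℝ) := by positivity
  nlinarith only [h4, h5]

private theorem MsF_sum (f : ℕ → ℝ) (P K1 K2 X : ℕ) (M S : ℝ) (hM0 : 0 ≤ M)
    (hM : ∀ m ∈ Icc 1 X, (((pb P).filter (fun p => p ∣ m)).card : ℝ) ≤ M)
    (hS : ∑ k ∈ Ico 0 (0 + (K2 + 1)), cut K1 K2 f k ^ 2 ≤ S) :
    ∑ m ∈ Icc 1 X, |Fp (cut K1 K2 f) P m| ^ 2 ≤ M * (P * S) := by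
  have h1 : ∀ m ∈ Icc 1 X, |Fp (cut K1 K2 f) P m| ^ 2 ≤
      M * ∑ p ∈ (pb P).filter (fun p => p ∣ m), cut K1 K2 f (m / p) ^ 2 := by
    intro m hm
    rw [sq_abs]
    unfold Fp
    refine sq_sum_le_card_mul_sum_sq.trans ?_
    exact mul_le_mul_of_nonneg_right (hM m hm) (Finset.sum_nonneg fun _ _ => sq_nonneg _)
  refine (Finset.sum_le_sum h1).trans ?_
  rw [← Finset.mul_sum]
  refine mul_le_mul_of_nonneg_left ?_ hM0
  have hS0 : 0 ≤ S := (Finset.sum_nonneg fun _ _ => sq_nonneg _).trans hS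
  have h2 : ∑ m ∈ Icc 1 X, ∑ p ∈ (pb P).filter (fun p => p ∣ m), cut K1 K2 f (m / p) ^ 2 =
      ∑ p ∈ pb P, ∑ m ∈ (Icc 1 X).filter (fun m => p ∣ m), cut K1 K2 f (m / p) ^ 2 := by
    simp_rw [Finset.sum_filter]
    exact Finset.sum_comm
  rw [h2]
  have h3 : ∀ p ∈ pb P, ∑ m ∈ (Icc 1 X).filter (fun m => p ∣ m), cut K1 K2 f (m / p) ^ 2 ≤ S := by
    intro p _
    refine le_trans ?_ hS
    have hinj : Set.InjOn (fun m => m / p) (((Icc 1 X).filter (fun m => p ∣ m) : Finset ℕ) : Set ℕ) := by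
      intro a ha b hb hab
      rw [Finset.mem_coe, Finset.mem_filter] at ha hb
      have e : a / p = b / p := hab
      rw [← Nat.div_mul_cancel ha.2, ← Nat.div_mul_cancel hb.2, e]
    rw [← Finset.sum_image (f := fun k => cut K1 K2 f k ^ 2) (g := fun m => m / p) hinj]
    rw [← Finset.sum_filter_ne_zero]
    refine Finset.sum_le_sum_of_subset_of_nonneg ?_ fun _ _ _ => sq_nonneg _
    intro k hk
    rw [Finset.mem_filter] at hk
    rw [Finset.mem_Ico]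
    refine ⟨Nat.zero_le _, ?_⟩
    by_contra hcon
    apply hk.2
    have : cut K1 K2 f k = 0 := by
      unfold cut
      rw [if_neg]
      rw [Finset.mem_Ioc]
      omega
    simp [this]
  refine (Finset.sum_le_sum h3).trans ?_
  rw [Finset.sum_const, nsmul_eq_mul]
  refine mul_le_mul_of_nonneg_right ?_ hS0
  have h4 : (pb P).card ≤ P := by
    unfold pb
    refine (Finset.card_filter_le _ _).trans ?_
    rw [Nat.card_Ioc]
    omega
  exact_mod_cast h4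

theorem ms_f (hVK : VKp) (A' C' : ℕ) (e1 : ℝ) (he1 : 0 < e1) : ∃ C4 m k N0 : ℕ, ∀ N : ℕ, N0 ≤ N →
    ∀ (P X d b w0 : ℕ) (f : ℕ → ℝ) (T θ : ℝ), (N : ℝ) ^ e1 ≤ P → P ^ 2 ≤ N → 1 ≤ d → (d : ℝ) ≤ Real.log N ^ C' →
    |T| ≤ (N : ℝ) ^ 2 → 24 * N ≤ X → X ≤ 64 * N → 0 < θ → θ ≤ 1 → P * Real.log N ^ C4 ≤ θ * N →
    w0 ≤ 12 * N / P → SqB f w0 (N ^ 4) (Real.log N) → SWf f N P C' m k →
    Integrable (fun u => ‖Dw (cc (cut (N / (16 * P)) (12 * N / P) f) P ((b : ℝ) / d) T) X θ u‖ ^ 2) ∧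
    ∫ u, ‖Dw (cc (cut (N / (16 * P)) (12 * N / P) f) P ((b : ℝ) / d) T) X θ u‖ ^ 2
      ≤ θ ^ 2 * (N : ℝ) ^ 2 / Real.log N ^ A' := by
  obtain ⟨m, k, N1, hN1⟩ := msc_f hVK (A' + 1) C' e1 he1
  obtain ⟨N3, hN3⟩ := Filter.eventually_atTop.1 (MsF_asy 1 e1 he1)
  refine ⟨A' + 12, m, k, max N1 (max N3 64), fun N hN P X d b w0 f T θ hP1 hP2 hd1 hd2 hT hX0 hX1 hθ0 hθ1 hθ2 hw hSqB hSWf => ?_⟩
  have hNN1 : N1 ≤ N := (le_max_left _ _).trans hN
  have hNN3 : N3 ≤ N := (le_max_left _ _).trans ((le_max_right _ _).trans hN)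
  have hN64 : 64 ≤ N := (le_max_right _ _).trans ((le_max_right _ _).trans hN)
  have hN64' : (64 : ℝ) ≤ N := by exact_mod_cast hN64
  have hN0 : (0 : ℝ) < N := by linarith only [hN64']
  obtain ⟨L, hL⟩ : ∃ L, L = Real.log N := ⟨_, rfl⟩
  have hlog64 : Real.log 64 = 6 * Real.log 2 := by
    rw [show (64 : ℝ) = 2 ^ 6 by norm_num, Real.log_pow]
    norm_num
  have hlog2 := Real.log_two_gt_d9
  have hL4 : 4 ≤ L := by
    rw [hL]
    have h1 := Real.log_le_log (by norm_num) hN64'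
    linarith only [hlog64, hlog2, h1]
  have hL0 : 0 < L := by linarith only [hL4]
  have hX2 : 1 ≤ X := by omega
  have hlogX : Real.log X ≤ 2 * L := by
    have h1 : (X : ℝ) ≤ N * N := by
      have h2 : (X : ℝ) ≤ 64 * N := by exact_mod_cast hX1
      nlinarith only [h2, hN64']
    have h3 := Real.log_le_log (by exact_mod_cast hX2) h1
    rw [Real.log_mul hN0.ne' hN0.ne', ← hL] at h3
    linarith only [h3]
  rw [← hL] at hd2 hθ2 hSqB ⊢
  have hP0 : (1 : ℝ) ≤ P := by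
    have h1 := hN3 N hNN3
    have h2 : 0 ≤ Real.log N ^ 1 := by
      rw [← hL]
      positivity
    linarith only [hP1, hL, hL4, h1]
  have hP0' : 1 ≤ P := by exact_mod_cast hP0
  obtain ⟨K2, hK2⟩ : ∃ K2, K2 = 12 * N / P := ⟨_, rfl⟩
  have hPN : P ≤ N := by nlinarith only [hP2, hP0']
  have hKP : K2 * P ≤ 12 * N := by
    rw [hK2]
    exact Nat.div_mul_le_self _ _
  have hK12 : 12 ≤ K2 := by
    rw [hK2]
    exact (Nat.le_div_iff_mul_le (by omega)).2 (by omega)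
  have hSq : ∑ k ∈ Ico 0 (0 + (K2 + 1)), cut (N / (16 * P)) K2 f k ^ 2 ≤ ((K2 + 1 : ℕ) : ℝ) * L ^ 4 := by
    have h1 := hSqB 0 (K2 + 1) (by rw [hK2]; omega) ?_
    · refine le_trans (Finset.sum_le_sum fun k _ => ?_) h1
      unfold cut
      split_ifs
      · exact le_rfl
      · rw [zero_pow two_ne_zero]
        exact sq_nonneg _
    · have h2 : K2 + 1 ≤ 13 * N := by
        have h3 : K2 ≤ 12 * N := by nlinarith only [hP0', hKP]
        omega
      have h4 : N * 64 ^ 3 ≤ N ^ 4 := by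
        calc N * 64 ^ 3 ≤ N * N ^ 3 := Nat.mul_le_mul_left _ (Nat.pow_le_pow_left hN64 3)
          _ = N ^ 4 := by ring
      omega
  obtain ⟨U, hU⟩ : ∃ U, U = L ^ (A' + 12) / θ := ⟨_, rfl⟩
  have hLC1 : 1 ≤ L ^ (A' + 12) := one_le_pow₀ (by linarith only [hL4])
  have hU1 : 1 ≤ U := by
    rw [hU, le_div_iff₀ hθ0]
    linarith only [hθ1, hLC1]
  have hUP : U * P ≤ N := by
    rw [hU, div_mul_eq_mul_div, div_le_iff₀ hθ0]
    linarith only [hθ2]
  have hU0 : 0 < U := by linarith only [hU1]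
  have hθN : 1 ≤ θ * N := by
    refine le_trans ?_ hθ2
    nlinarith only [hP0, hLC1]
  have hmsc := hN1 N hNN1 P X d b w0 f T U hP1 hP2 hd1 (by rw [← hL]; exact hd2) hT hU1 hUP hX0 hw
    (by rw [← hL]; exact hSqB) hSWf
  rw [← hL, ← hK2] at hmsc
  rw [← hK2]
  obtain ⟨hI, hplw⟩ := plw (cc (cut (N / (16 * P)) K2 f) P ((b : ℝ) / d) T) X θ U hX2 hθ0 hU0
  refine ⟨hI, hplw.trans ?_⟩
  have hsum : ∑ m ∈ Icc 1 X, ‖cc (cut (N / (16 * P)) K2 f) P ((b : ℝ) / d) T m‖ ^ 2 ≤ 128 * N * L ^ 5 := by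
    simp_rw [MsF_cc]
    have h1 := MsF_sum f P (N / (16 * P)) K2 X (4 * L) (((K2 + 1 : ℕ) : ℝ) * L ^ 4) (by positivity) ?_ hSq
    · refine h1.trans ?_
      have h2 : (K2 : ℝ) * P ≤ 12 * N := by exact_mod_cast hKP
      have h5 : (P : ℝ) ≤ N := by exact_mod_cast hPN
      push_cast
      have h3 : (P : ℝ) * ((K2 : ℝ) + 1) ≤ 32 * N := by nlinarith only [hN64', h2, h5]
      calc 4 * L * ((P : ℝ) * (((K2 : ℝ) + 1) * L ^ 4)) = (P * (K2 + 1)) * (4 * L ^ 5) := by ring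
        _ ≤ (32 * N) * (4 * L ^ 5) := mul_le_mul_of_nonneg_right h3 (by positivity)
        _ = 128 * N * L ^ 5 := by ring
    · intro m hm
      rw [Finset.mem_Icc] at hm
      refine (MsF_card P m hm.1).trans ?_
      have h2 : Real.log m ≤ Real.log X :=
        Real.log_le_log (by exact_mod_cast hm.1) (by exact_mod_cast hm.2)
      linarith only [hlogX, h2]
  have hX0r : (X : ℝ) ≤ 64 * N := by exact_mod_cast hX1
  have hlogX0 : 0 ≤ Real.log X := Real.log_natCast_nonneg X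
  have hfac : 4 / U + 4 * X * (1 + Real.log X) / U ^ 2 ≤
      4 * θ / L ^ (A' + 12) + 768 * N * L * θ ^ 2 / (L ^ (A' + 12)) ^ 2 := by
    refine add_le_add (le_of_eq ?_) ?_
    · rw [hU]
      field_simp
    · rw [hU, div_pow, div_div_eq_mul_div]
      apply div_le_div_of_nonneg_right _ (by positivity)
      apply mul_le_mul_of_nonneg_right _ (by positivity)
      have h1 : 1 + Real.log X ≤ 3 * L := by linarith only [hL4, hlogX]
      calc 4 * (X : ℝ) * (1 + Real.log X) ≤ 4 * (64 * N) * (3 * L) := by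
            apply mul_le_mul (by linarith only [hX0r]) h1 (by linarith only [hlogX0]) (by positivity)
        _ = 768 * N * L := by ring
  have hfirst : θ ^ 2 * (∫ t in Set.Icc (-U) U, ‖Cs (cc (cut (N / (16 * P)) K2 f) P ((b : ℝ) / d) T) X t‖ ^ 2) ≤
      (1 / 4) * (θ ^ 2 * (N : ℝ) ^ 2 / L ^ A') := by
    refine (mul_le_mul_of_nonneg_left hmsc (by positivity)).trans ?_
    have e0 : θ ^ 2 * ((N : ℝ) ^ 2 / L ^ (A' + 1)) = (θ ^ 2 * (N : ℝ) ^ 2 / L ^ A') * (1 / L) := by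
      rw [pow_succ L A']
      field_simp
    rw [e0, mul_comm]
    have h1 : 0 ≤ θ ^ 2 * (N : ℝ) ^ 2 / L ^ A' := by positivity
    refine mul_le_mul_of_nonneg_right ?_ h1
    exact one_div_le_one_div_of_le (by norm_num) hL4
  have hsecond : (4 / U + 4 * X * (1 + Real.log X) / U ^ 2) *
      ∑ m ∈ Icc 1 X, ‖cc (cut (N / (16 * P)) K2 f) P ((b : ℝ) / d) T m‖ ^ 2 ≤
      (1 / 2) * (θ ^ 2 * (N : ℝ) ^ 2 / L ^ A') := by
    have h0 : 0 ≤ ∑ m ∈ Icc 1 X, ‖cc (cut (N / (16 * P)) K2 f) P ((b : ℝ) / d) T m‖ ^ 2 :=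
      Finset.sum_nonneg fun _ _ => by positivity
    refine (mul_le_mul hfac hsum h0 (by positivity)).trans ?_
    have e1 : (4 * θ / L ^ (A' + 12) + 768 * N * L * θ ^ 2 / (L ^ (A' + 12)) ^ 2) * (128 * N * L ^ 5) =
        (θ * N / L ^ A') * (512 / L ^ 7) + (θ ^ 2 * (N : ℝ) ^ 2 / L ^ A') * (98304 / L ^ (A' + 18)) := by
      rw [add_mul]
      congr 1
      · rw [div_mul_eq_mul_div, div_mul_div_comm, div_eq_div_iff (by positivity) (by positivity)]
        ring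
      · rw [div_mul_eq_mul_div, div_mul_div_comm, div_eq_div_iff (by positivity) (by positivity)]
        ring
    rw [e1]
    have h2 : θ * N / L ^ A' ≤ θ ^ 2 * (N : ℝ) ^ 2 / L ^ A' := by
      apply div_le_div_of_nonneg_right _ (by positivity)
      nlinarith only [hθN]
    have h3 : 512 / L ^ 7 ≤ 1 / 32 := by
      rw [div_le_div_iff₀ (by positivity) (by norm_num)]
      have h4 : (4 : ℝ) ^ 7 ≤ L ^ 7 := pow_le_pow_left₀ (by norm_num) hL4 7
      norm_num at h4 ⊢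
      linarith only [h4]
    have h5 : 98304 / L ^ (A' + 18) ≤ 1 / 32 := by
      rw [div_le_div_iff₀ (by positivity) (by norm_num)]
      have h4 : (4 : ℝ) ^ 18 ≤ L ^ 18 := pow_le_pow_left₀ (by norm_num) hL4 18
      have h6 : L ^ 18 ≤ L ^ (A' + 18) := pow_le_pow_right₀ (by linarith only [hL4]) (by omega)
      norm_num at h4 ⊢
      linarith only [h6, h4]
    have hq : 0 ≤ θ ^ 2 * (N : ℝ) ^ 2 / L ^ A' := by positivity
    have hq2 : 0 ≤ θ * N / L ^ A' := by positivity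
    have h7 : θ * N / L ^ A' * (512 / L ^ 7) ≤ (θ ^ 2 * (N : ℝ) ^ 2 / L ^ A') * (1 / 32) :=
      mul_le_mul h2 h3 (by positivity) hq
    have h8 : (θ ^ 2 * (N : ℝ) ^ 2 / L ^ A') * (98304 / L ^ (A' + 18)) ≤ (θ ^ 2 * (N : ℝ) ^ 2 / L ^ A') * (1 / 32) :=
      mul_le_mul_of_nonneg_left h5 hq
    linarith only [hq, h7, h8]
  have hq : 0 ≤ θ ^ 2 * (N : ℝ) ^ 2 / L ^ A' := by positivity
  linarith only [hfirst, hsecond, hq]

end Pool.Agent.H53.TPS

end

section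

/-!
# TQ SwG: Siegel-Walfisz with twists for `f - D lamR R`, abstract form (compare `H76/TP/SwB.lean`, the same proof)

`f` has the local density `D` in progressions (hypothesis `heq`).  Take `A = k + 2 m + 2 B + 12` or larger, `l = ⌊x/L^(A+6)⌋`, `K = A + 7`.  Cut `(K1, K2]` into cells `(x, x+l]` (from `x = K1` on, `l = l(x)`; the last cell is incomplete:
`≤ l · (L² + L² R) ≤ K2/L^(k+1)`; or cut at fixed length `l = ⌊K1'/L^..⌋` on dyadic ranges).  On a cell `t log n` varies by `≤ L^m l/x ≤ L^(m-A-6)`, `D` by `≤ L² (l + N^b0)/x`, `|lamR R n| ≤ R` (trivially `≤ ∑_{q ≤ R} 1·...`, e.g. `lamR_abs`).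
`∑_{n ∈ cell} f(n) ee(-n b/c) = ∑_{a mod c} ee(-a b/c) (l D(x)/φ(c) [(a,c) = 1] + O(l/L^A)) = l D(x) μ(c)/φ(c) + O(c l/L^A)` (`∑_{a mod c, (a,c)=1} ee(-ab/c) = μ(c)` for `(b,c) = 1`).
`∑_{n ∈ cell} lamR R n ee(-n b/c) = l μ(c)/φ(c) + O(R^4)`: `lamR R n = ∑_{q ≤ R} μ(q)/φ(q) ∑_{h mod q}^* ee(n h/q)` (`Pool.Agent.H76.EHB.lamR_eq`); the term `h/q = b/c` gives `l μ(c)/φ(c)` (`c ≤ R`), the others are
geometric sums `≤ 1/(2‖h/q - b/c‖) ≤ R^2`.  Compare `H53/MID/SwH.lean` (`sw_holds`).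
`swf_g`: for `SWf` (`H53/TPS/DefsF.lean`) reduce `b/c` to lowest terms (`c' ≤ c ≤ L^C' ≤ R`), `K1 = N/(16P) ≥ N^a`, `K2 = 12N/P`, `K2 ≤ 12 N/P`: use `sw_g` with `k + 4`.
-/

set_option autoImplicit false

namespace Pool.Agent.H91.TQ

open Finset
open Pool.Agent.H91.PK (ee)
open Pool.Agent.H91.EHA (Lam hR lamR ramS)
open Pool.Agent.H53.TPS (SWf)

/-- the abstract local density condition -/
def DenH (N : ℕ) (a b0 : ℝ) (A B K : ℕ) (f D : ℕ → ℝ) : Prop :=
  (∀ n : ℕ, 1 ≤ n → n ≤ 2 * N ^ 2 → |f n| ≤ Real.log N ^ 2) ∧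
  (∀ x : ℕ, (N : ℝ) ^ a ≤ x → x ≤ 2 * N ^ 2 → |D x| ≤ Real.log N ^ 2) ∧
  (∀ x x' : ℕ, (N : ℝ) ^ a ≤ x → x ≤ x' → x' ≤ 2 * N ^ 2 → |D x' - D x| ≤ Real.log N ^ 2 * (((x' : ℝ) - x) + (N : ℝ) ^ b0) / x) ∧
  (∀ x l c b : ℕ, (N : ℝ) ^ a ≤ x → x ≤ N ^ 2 → (x : ℝ) / Real.log N ^ K ≤ l → (l : ℝ) ≤ x / Real.log N ^ (A + 6) →
    1 ≤ c → (c : ℝ) ≤ Real.log N ^ B →
      |∑ k ∈ (Ioc x (x + l)).filter (fun k => k ≡ b [MOD c]), f k
        - (if Nat.Coprime b c then (l : ℝ) * D x / c.totient else 0)| ≤ l / Real.log N ^ A)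

/-! ### additive characters -/

private theorem SwG_ee_nat (n : ℕ) : ee (n : ℝ) = 1 := by
  unfold ee
  rw [Complex.exp_eq_one_iff]
  exact ⟨n, by push_cast; ring⟩

private theorem SwG_ee_le {n a b c : ℕ} (hc : 1 ≤ c) (han : a ≤ n) (h : n ≡ a [MOD c]) :
    ee ((n : ℝ) * b / c) = ee ((a : ℝ) * b / c) := by
  obtain ⟨t, ht⟩ := (Nat.modEq_iff_dvd' han).1 h.symm
  have hn : n = a + c * t := by omega
  have hc' : (c : ℝ) ≠ 0 := by
    have : (0 : ℝ) < c := by exact_mod_cast hc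
    exact this.ne'
  have e : (n : ℝ) * b / c = (a : ℝ) * b / c + ((t * b : ℕ) : ℝ) := by
    rw [hn]
    push_cast
    field_simp
  rw [e, Pool.Agent.H91.PK.LSa_ee_add, SwG_ee_nat, mul_one]

private theorem SwG_ee_congr {n a b c : ℕ} (hc : 1 ≤ c) (h : n ≡ a [MOD c]) :
    ee ((n : ℝ) * b / c) = ee ((a : ℝ) * b / c) := by
  rcases le_total a n with h1 | h1
  · exact SwG_ee_le hc h1 h
  · exact (SwG_ee_le hc h1 h.symm).symm

/-- the representative in `1..c` -/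
private def SwG_rep (c n : ℕ) : ℕ := if n % c = 0 then c else n % c

private theorem SwG_rep_mem {c : ℕ} (hc : 1 ≤ c) (n : ℕ) : SwG_rep c n ∈ Icc 1 c := by
  unfold SwG_rep
  rw [mem_Icc]
  have := Nat.mod_lt n (show 0 < c by omega)
  split_ifs with h
  · omega
  · omega

private theorem SwG_rep_modEq {c : ℕ} (n : ℕ) : n ≡ SwG_rep c n [MOD c] := by
  unfold SwG_rep Nat.ModEq
  split_ifs with h
  · rw [h, Nat.mod_self]
  · rw [Nat.mod_mod]

private theorem SwG_rep_iff {c n a : ℕ} (hc : 1 ≤ c) (ha : a ∈ Icc 1 c) :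
    SwG_rep c n = a ↔ n ≡ a [MOD c] := by
  constructor
  · rintro rfl
    exact SwG_rep_modEq n
  · intro h
    have h1 := SwG_rep_mem hc n
    rw [mem_Icc] at ha h1
    have h2 : SwG_rep c n ≡ a [MOD c] := (SwG_rep_modEq n).symm.trans h
    rcases Nat.lt_or_ge (SwG_rep c n) c with h3 | h3
    · rcases Nat.lt_or_ge a c with h4 | h4
      · exact Nat.ModEq.eq_of_lt_of_lt h2 h3 h4
      · have h5 : a = c := by omega
        subst h5
        unfold Nat.ModEq at h2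
        rw [Nat.mod_self, Nat.mod_eq_of_lt h3] at h2
        omega
    · have h5 : SwG_rep c n = c := by omega
      rw [h5] at h2 ⊢
      unfold Nat.ModEq at h2
      rw [Nat.mod_self] at h2
      rcases Nat.lt_or_ge a c with h4 | h4
      · rw [Nat.mod_eq_of_lt h4] at h2
        omega
      · omega

/-- splitting a sum according to the class of `n` modulo `c` -/
private theorem SwG_split {M : Type*} [AddCommMonoid M] (S : Finset ℕ) (c : ℕ) (hc : 1 ≤ c)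
    (f : ℕ → M) :
    ∑ n ∈ S, f n = ∑ a ∈ Icc 1 c, ∑ n ∈ S.filter (fun n => n ≡ a [MOD c]), f n := by
  rw [← Finset.sum_fiberwise_of_maps_to (s := S) (t := Icc 1 c) (g := SwG_rep c)]
  · refine Finset.sum_congr rfl fun a ha => ?_
    refine Finset.sum_congr ?_ fun _ _ => rfl
    ext n
    simp only [mem_filter]
    exact and_congr_right fun _ => SwG_rep_iff hc ha
  · intro n _
    exact SwG_rep_mem hc n

private theorem SwG_ram (c b : ℕ) (hb : Nat.Coprime b c) :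
    ramS c b = (ArithmeticFunction.moebius c : ℝ) := by
  unfold ramS
  have h : Nat.gcd c b = 1 := hb.symm
  rw [h, Nat.divisors_one, Finset.sum_singleton, Nat.div_one]
  simp

/-- from progressions to additive characters -/
private theorem SwG_char (S : Finset ℕ) (f : ℕ → ℝ) (c b : ℕ) (hc : 1 ≤ c) (hb : Nat.Coprime b c)
    (V E : ℝ)
    (hE : ∀ a : ℕ, |∑ n ∈ S.filter (fun n => n ≡ a [MOD c]), f n -
      (if Nat.Coprime a c then V / c.totient else 0)| ≤ E) :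
    ‖(∑ n ∈ S, ((f n : ℝ) : ℂ) * ee ((n : ℝ) * b / c))
      - (((ArithmeticFunction.moebius c : ℝ) / (c.totient : ℝ) * V : ℝ) : ℂ)‖ ≤ c * E := by
  have hr := Pool.Agent.H91.EHA.ramS_eq c b hc
  rw [SwG_ram c b hb] at hr
  have hmain : (((ArithmeticFunction.moebius c : ℝ) / (c.totient : ℝ) * V : ℝ) : ℂ) =
      ∑ a ∈ Icc 1 c, (((if Nat.Coprime a c then V / c.totient else 0 : ℝ)) : ℂ) *
        ee ((b : ℝ) * a / c) := by
    have h1 : ∀ a ∈ Icc 1 c, (((if Nat.Coprime a c then V / c.totient else 0 : ℝ)) : ℂ) *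
        ee ((b : ℝ) * a / c) = if Nat.Coprime a c then
          (((V / (c.totient : ℝ) : ℝ)) : ℂ) * ee ((b : ℝ) * a / c) else 0 := by
      intro a _
      split_ifs
      · rfl
      · simp
    rw [sum_congr rfl h1, ← sum_filter, ← Finset.mul_sum, ← hr]
    push_cast
    ring
  have hsum : ∑ n ∈ S, ((f n : ℝ) : ℂ) * ee ((n : ℝ) * b / c) =
      ∑ a ∈ Icc 1 c, ((∑ n ∈ S.filter (fun n => n ≡ a [MOD c]), f n : ℝ) : ℂ) *
        ee ((b : ℝ) * a / c) := by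
    rw [SwG_split S c hc]
    refine Finset.sum_congr rfl fun a _ => ?_
    rw [Complex.ofReal_sum, Finset.sum_mul]
    refine Finset.sum_congr rfl fun n hn => ?_
    rw [mem_filter] at hn
    rw [SwG_ee_congr hc hn.2, mul_comm (a : ℝ) (b : ℝ)]
  rw [hsum, hmain, ← Finset.sum_sub_distrib]
  refine (norm_sum_le _ _).trans ?_
  calc ∑ a ∈ Icc 1 c, ‖((∑ n ∈ S.filter (fun n => n ≡ a [MOD c]), f n : ℝ) : ℂ) *
        ee ((b : ℝ) * a / c) - (((if Nat.Coprime a c then V / c.totient else 0 : ℝ)) : ℂ) *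
        ee ((b : ℝ) * a / c)‖ ≤ ∑ a ∈ Icc 1 c, E := by
        refine Finset.sum_le_sum fun a _ => ?_
        rw [← sub_mul, norm_mul, Pool.Agent.H91.PK.LSa_norm_ee, mul_one, ← Complex.ofReal_sub,
          Complex.norm_real, Real.norm_eq_abs]
        exact hE a
    _ = c * E := by
        rw [Finset.sum_const, Nat.card_Icc, nsmul_eq_mul, Nat.add_sub_cancel]

/-! ### pointwise bounds -/

private theorem SwG_lamR_abs (R n : ℕ) (hn : 1 ≤ n) : |lamR R n| ≤ R := by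
  have h3 : |lamR R n| = ‖((lamR R n : ℝ) : ℂ)‖ := by
    rw [Complex.norm_real]; rfl
  rw [h3, Pool.Agent.H76.EHB.lamR_eq R n hn]
  calc ‖∑ c ∈ Icc 1 R, ((((ArithmeticFunction.moebius c : ℤ) : ℝ) / (c.totient : ℝ) : ℝ) : ℂ)
        * ∑ b ∈ Pool.Agent.H92.EH.red c, ee (n * ((b : ℝ) / c))‖
      ≤ ∑ c ∈ Icc 1 R, ‖((((ArithmeticFunction.moebius c : ℤ) : ℝ) / (c.totient : ℝ) : ℝ) : ℂ)
        * ∑ b ∈ Pool.Agent.H92.EH.red c, ee (n * ((b : ℝ) / c))‖ := norm_sum_le _ _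
    _ ≤ ∑ _c ∈ Icc 1 R, (1 : ℝ) := by
        refine sum_le_sum fun c hc => ?_
        rw [mem_Icc] at hc
        have hφ : (0 : ℝ) < c.totient := by
          exact_mod_cast Nat.totient_pos.mpr hc.1
        have h4 : ‖∑ b ∈ Pool.Agent.H92.EH.red c, ee (n * ((b : ℝ) / c))‖ ≤ c.totient := by
          refine (norm_sum_le _ _).trans ?_
          simp only [Pool.Agent.H91.PK.LSa_norm_ee, sum_const, nsmul_eq_mul, mul_one]
          rw [Pool.Agent.H92.EH.card_red]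
        have h5 : ‖((((ArithmeticFunction.moebius c : ℤ) : ℝ) / (c.totient : ℝ) : ℝ) : ℂ)‖
            ≤ 1 / c.totient := by
          rw [Complex.norm_real, norm_div, Real.norm_eq_abs, Real.norm_of_nonneg hφ.le]
          apply div_le_div_of_nonneg_right _ hφ.le
          exact_mod_cast ArithmeticFunction.abs_moebius_le_one
        rw [norm_mul]
        calc _ ≤ 1 / (c.totient : ℝ) * c.totient :=
              mul_le_mul h5 h4 (norm_nonneg _) (by positivity)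
          _ = 1 := by field_simp
    _ = R := by simp

/-! ### `lamR` on a cell -/

private theorem SwG_cell_eq {M : Type*} [AddCommGroup M] (f : ℕ → M) (x l : ℕ) :
    ∑ n ∈ Ioc x (x + l), f n = ∑ n ∈ Icc 1 (x + l), f n - ∑ n ∈ Icc 1 x, f n := by
  have h1 : Icc 1 (x + l) = Ioc 0 (x + l) := by
    ext n; simp only [mem_Icc, mem_Ioc]; omega
  have h2 : Icc 1 x = Ioc 0 x := by
    ext n; simp only [mem_Icc, mem_Ioc]; omega
  rw [h1, h2, eq_sub_iff_add_eq, add_comm]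
  exact Finset.sum_Ioc_consecutive f (Nat.zero_le x) (Nat.le_add_right x l)

private theorem SwG_lam_cell (R x l c b : ℕ) (hc : 1 ≤ c) (hcR : c ≤ R) (hb : Nat.Coprime b c) :
    ‖(∑ n ∈ Ioc x (x + l), ((lamR R n : ℝ) : ℂ) * ee ((n : ℝ) * b / c))
      - (((ArithmeticFunction.moebius c : ℝ) / (c.totient : ℝ) * l : ℝ) : ℂ)‖ ≤ 2 * (R : ℝ) ^ 4 := by
  have h1 := Pool.Agent.H91.EHA.lamR_exp R (x + l) c b hc hcR hb
  have h2 := Pool.Agent.H91.EHA.lamR_exp R x c b hc hcR hb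
  rw [SwG_cell_eq (fun n => ((lamR R n : ℝ) : ℂ) * ee ((n : ℝ) * b / c)) x l]
  have e : (∑ n ∈ Icc 1 (x + l), ((lamR R n : ℝ) : ℂ) * ee ((n : ℝ) * b / c) -
      ∑ n ∈ Icc 1 x, ((lamR R n : ℝ) : ℂ) * ee ((n : ℝ) * b / c)) -
      (((ArithmeticFunction.moebius c : ℝ) / (c.totient : ℝ) * l : ℝ) : ℂ) =
      ((∑ n ∈ Icc 1 (x + l), ((lamR R n : ℝ) : ℂ) * ee ((n : ℝ) * b / c)) -
        (((ArithmeticFunction.moebius c : ℝ) / (c.totient : ℝ) * (x + l : ℕ) : ℝ) : ℂ)) -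
      ((∑ n ∈ Icc 1 x, ((lamR R n : ℝ) : ℂ) * ee ((n : ℝ) * b / c)) -
        (((ArithmeticFunction.moebius c : ℝ) / (c.totient : ℝ) * x : ℝ) : ℂ)) := by
    push_cast
    ring
  rw [e]
  refine (norm_sub_le _ _).trans ?_
  linarith only [h1, h2]

/-! ### one cell -/

private theorem SwG_cell1 (f D : ℕ → ℝ) (R x l c b : ℕ) (hc : 1 ≤ c) (hcR : c ≤ R)
    (hb : Nat.Coprime b c) (Q δ E : ℝ) (hQ : 0 ≤ Q) (hD : |D x| ≤ Q)
    (hδ : ∀ n ∈ Ioc x (x + l), |D n - D x| ≤ δ)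
    (hE : ∀ a : ℕ, |∑ k ∈ (Ioc x (x + l)).filter (fun k => k ≡ a [MOD c]), f k
        - (if Nat.Coprime a c then (l : ℝ) * D x / c.totient else 0)| ≤ E) :
    ‖∑ n ∈ Ioc x (x + l), ((f n - D n * lamR R n : ℝ) : ℂ) * ee ((n : ℝ) * b / c)‖ ≤
      c * E + Q * (2 * (R : ℝ) ^ 4) + l * (δ * R) := by
  have hA := SwG_char (Ioc x (x + l)) f c b hc hb ((l : ℝ) * D x) E hE
  have hB := SwG_lam_cell R x l c b hc hcR hb
  have e : ∑ n ∈ Ioc x (x + l), ((f n - D n * lamR R n : ℝ) : ℂ) * ee ((n : ℝ) * b / c) =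
      ((∑ n ∈ Ioc x (x + l), ((f n : ℝ) : ℂ) * ee ((n : ℝ) * b / c))
        - (((ArithmeticFunction.moebius c : ℝ) / (c.totient : ℝ) * ((l : ℝ) * D x) : ℝ) : ℂ))
      - ((D x : ℝ) : ℂ) * ((∑ n ∈ Ioc x (x + l), ((lamR R n : ℝ) : ℂ) *
          ee ((n : ℝ) * b / c))
        - (((ArithmeticFunction.moebius c : ℝ) / (c.totient : ℝ) * l : ℝ) : ℂ))
      - ∑ n ∈ Ioc x (x + l), (((D n - D x) * lamR R n : ℝ) : ℂ) *
          ee ((n : ℝ) * b / c) := by
    have h1 : ∑ n ∈ Ioc x (x + l), ((f n - D n * lamR R n : ℝ) : ℂ) * ee ((n : ℝ) * b / c) =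
        (∑ n ∈ Ioc x (x + l), ((f n : ℝ) : ℂ) * ee ((n : ℝ) * b / c)) -
        ((D x : ℝ) : ℂ) * (∑ n ∈ Ioc x (x + l), ((lamR R n : ℝ) : ℂ) *
          ee ((n : ℝ) * b / c)) -
        ∑ n ∈ Ioc x (x + l), (((D n - D x) * lamR R n : ℝ) : ℂ) *
          ee ((n : ℝ) * b / c) := by
      rw [mul_sum, ← sum_sub_distrib, ← sum_sub_distrib]
      refine sum_congr rfl fun n _ => ?_
      push_cast
      ring
    rw [h1]
    push_cast
    ring
  rw [e]
  refine (norm_sub_le _ _).trans (add_le_add ((norm_sub_le _ _).trans (add_le_add hA ?_)) ?_)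
  · rw [norm_mul, Complex.norm_real, Real.norm_eq_abs]
    exact mul_le_mul hD hB (norm_nonneg _) hQ
  · refine (norm_sum_le _ _).trans ?_
    have h2 : ∀ n ∈ Ioc x (x + l), ‖(((D n - D x) * lamR R n : ℝ) : ℂ) *
        ee ((n : ℝ) * b / c)‖ ≤ δ * R := by
      intro n hn
      have hn' := hn
      rw [mem_Ioc] at hn'
      rw [norm_mul, Pool.Agent.H91.PK.LSa_norm_ee, mul_one, Complex.norm_real, Real.norm_eq_abs,
        abs_mul]
      exact mul_le_mul (hδ n hn) (SwG_lamR_abs R n (by omega)) (abs_nonneg _)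
        ((abs_nonneg _).trans (hδ n hn))
    refine (sum_le_sum h2).trans (le_of_eq ?_)
    rw [sum_const, Nat.card_Ioc, Nat.add_sub_cancel_left, nsmul_eq_mul]

private theorem SwG_cell2 (F : ℕ → ℝ) (x l c b : ℕ) (t Q : ℝ) (hx : 1 ≤ x) (hQ : 0 ≤ Q)
    (hF : ∀ n ∈ Ioc x (x + l), |F n| ≤ Q) (V : ℝ)
    (hV : ‖∑ n ∈ Ioc x (x + l), ((F n : ℝ) : ℂ) * ee ((n : ℝ) * b / c)‖ ≤ V) :
    ‖∑ n ∈ Ioc x (x + l), ((F n : ℝ) : ℂ) * ee ((n : ℝ) * b / c) *
      ee (t * Real.log n)‖ ≤ V + l * (Q * (7 * (|t| * ((l : ℝ) / x)))) := by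
  have hx0 : (0 : ℝ) < x := by exact_mod_cast (by omega : 0 < x)
  have e : ∑ n ∈ Ioc x (x + l), ((F n : ℝ) : ℂ) * ee ((n : ℝ) * b / c) *
      ee (t * Real.log n) =
      ee (t * Real.log x) * (∑ n ∈ Ioc x (x + l), ((F n : ℝ) : ℂ) *
        ee ((n : ℝ) * b / c)) +
      ∑ n ∈ Ioc x (x + l), ((F n : ℝ) : ℂ) * ee ((n : ℝ) * b / c) *
        (ee (t * Real.log n) - ee (t * Real.log x)) := by
    rw [mul_sum, ← sum_add_distrib]
    refine sum_congr rfl fun n _ => ?_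
    ring
  rw [e]
  refine (norm_add_le _ _).trans (add_le_add ?_ ?_)
  · rw [norm_mul, Pool.Agent.H91.PK.LSa_norm_ee, one_mul]
    exact hV
  · refine (norm_sum_le _ _).trans ?_
    have h2 : ∀ n ∈ Ioc x (x + l), ‖((F n : ℝ) : ℂ) * ee ((n : ℝ) * b / c) *
        (ee (t * Real.log n) - ee (t * Real.log x))‖ ≤
        Q * (7 * (|t| * ((l : ℝ) / x))) := by
      intro n hn
      have hn' := hF n hn
      rw [mem_Ioc] at hn
      rw [norm_mul, norm_mul, Pool.Agent.H91.PK.LSa_norm_ee, mul_one, Complex.norm_real,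
        Real.norm_eq_abs]
      have h4 := Pool.Agent.H76.EHB.melB_ee_sub (t * Real.log x) (t * (Real.log n - Real.log x))
      have h5 : t * Real.log x + t * (Real.log n - Real.log x) = t * Real.log n := by ring
      rw [h5] at h4
      have hn0 : (0 : ℝ) < n := by exact_mod_cast (by omega : 0 < n)
      have hnx : (x : ℝ) ≤ n := by exact_mod_cast hn.1.le
      have h6 : 0 ≤ Real.log n - Real.log x := sub_nonneg.2 (Real.log_le_log hx0 hnx)
      have h7 : Real.log n - Real.log x ≤ (l : ℝ) / x := by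
        rw [← Real.log_div hn0.ne' hx0.ne']
        refine (Real.log_le_sub_one_of_pos (by positivity)).trans ?_
        have h8 : (n : ℝ) / x - 1 = ((n : ℝ) - x) / x := by
          field_simp
        rw [h8]
        apply div_le_div_of_nonneg_right _ hx0.le
        have : (n : ℝ) ≤ x + l := by exact_mod_cast hn.2
        linarith only [this]
      refine mul_le_mul hn' (h4.trans ?_) (norm_nonneg _) hQ
      rw [abs_mul, abs_of_nonneg h6]
      exact mul_le_mul_of_nonneg_left (mul_le_mul_of_nonneg_left h7 (abs_nonneg _)) (by norm_num)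
    refine (sum_le_sum h2).trans (le_of_eq ?_)
    rw [sum_const, Nat.card_Ioc, Nat.add_sub_cancel_left, nsmul_eq_mul]

/-- the induction over the cells -/
private theorem SwG_ind (F : ℕ → ℂ) (l : ℕ → ℕ) (K0 K2 : ℕ) (ε W : ℝ) (hε : 0 ≤ ε)
    (h1 : ∀ x, K0 ≤ x → x ≤ K2 → 1 ≤ l x)
    (h2 : ∀ x, K0 ≤ x → x + l x ≤ K2 → ‖∑ n ∈ Ioc x (x + l x), F n‖ ≤ ε * l x)
    (h3 : ∀ x, K0 ≤ x → x ≤ K2 → K2 < x + l x → ‖∑ n ∈ Ioc x K2, F n‖ ≤ W) (d : ℕ) :
    ∀ x, K0 ≤ x → x ≤ K2 → K2 - x ≤ d →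
      ‖∑ n ∈ Ioc x K2, F n‖ ≤ ε * ((K2 : ℝ) - x) + W := by
  induction d with
  | zero =>
    intro x hx hx2 hd
    have h4 : K2 < x + l x := by
      have := h1 x hx hx2
      omega
    have h5 := h3 x hx hx2 h4
    have h6 : (x : ℝ) ≤ K2 := by exact_mod_cast hx2
    have h7 : 0 ≤ ε * ((K2 : ℝ) - x) := mul_nonneg hε (by linarith only [h6])
    linarith only [h5, h7]
  | succ d ih =>
    intro x hx hx2 hd
    rcases Nat.lt_or_ge K2 (x + l x) with h4 | h4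
    · have h5 := h3 x hx hx2 h4
      have h6 : (x : ℝ) ≤ K2 := by exact_mod_cast hx2
      have h7 : 0 ≤ ε * ((K2 : ℝ) - x) := mul_nonneg hε (by linarith only [h6])
      linarith only [h5, h7]
    · have h5 := h1 x hx hx2
      have h6 := ih (x + l x) (by omega) h4 (by omega)
      have h7 := h2 x hx h4
      rw [← Finset.sum_Ioc_consecutive F (Nat.le_add_right x (l x)) h4]
      refine (norm_add_le _ _).trans ?_
      push_cast at h6
      linarith only [h7, h6]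

private theorem SwG_pow_le (n : ℕ) {e0 : ℝ} (he : 0 < e0) : ∀ᶠ N : ℕ in Filter.atTop,
    Real.log N ^ n ≤ 1 / 4 * (N : ℝ) ^ e0 := by
  have h1 := (isLittleO_log_rpow_rpow_atTop (n : ℝ) he).bound (c := 1 / 4) (by norm_num)
  have h2 := tendsto_natCast_atTop_atTop (R := ℝ) |>.eventually h1
  filter_upwards [h2, Filter.eventually_ge_atTop 1] with N hN hN1
  have h3 := (le_abs_self _).trans hN
  rw [Real.rpow_natCast] at h3
  rw [Real.norm_eq_abs, abs_of_nonneg (Real.rpow_nonneg (Nat.cast_nonneg N) _)] at h3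
  exact h3

/-- the numerical estimate for one cell -/
private theorem SwG_num (L l x R c z t : ℝ) (B m k : ℕ) (hL : 8 ≤ L) (hl : 0 ≤ l) (hx : 0 < x)
    (hR0 : 0 ≤ R) (hR : R ≤ L ^ B) (hc : c ≤ L ^ B) (ht0 : 0 ≤ t) (ht : t ≤ L ^ m)
    (hlx : l ≤ x / L ^ (k + m + B + 11)) (hz : z ≤ x / L ^ (k + m + B + 11))
    (hR4 : 32 * (L ^ (4 * B + 2) * L ^ k) ≤ l) :
    c * (l / L ^ (k + m + B + 5)) + L ^ 2 * (2 * R ^ 4) + l * (L ^ 2 * (l + z) / x * R) +
      l * ((L ^ 2 + L ^ 2 * R) * (7 * (t * (l / x)))) ≤ 1 / (2 * L ^ k) * l := by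
  have hL0 : 0 < L := by linarith only [hL]
  have hL1 : 1 ≤ L := by linarith
  have hk : 0 < L ^ k := by positivity
  have hB : 1 ≤ L ^ B := one_le_pow₀ hL1
  have hm : 1 ≤ L ^ m := one_le_pow₀ hL1
  have h2 : 0 < L ^ 2 := by positivity
  have h9 : (168 : ℝ) ≤ L ^ 9 := by
    calc (168 : ℝ) ≤ 8 ^ 9 := by norm_num
      _ ≤ L ^ 9 := pow_le_pow_left₀ (by norm_num) hL 9
  have h5 : (8 : ℝ) ≤ L ^ 5 := by
    calc (8 : ℝ) ≤ 8 ^ 5 := by norm_num
      _ ≤ L ^ 5 := pow_le_pow_left₀ (by norm_num) hL 5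
  have hlk : 0 ≤ l / L ^ k := by positivity
  have t1 : c * (l / L ^ (k + m + B + 5)) ≤ l / L ^ k * (1 / 8) := by
    calc c * (l / L ^ (k + m + B + 5)) ≤ L ^ B * (l / L ^ (k + m + B + 5)) :=
          mul_le_mul_of_nonneg_right hc (by positivity)
      _ = l / L ^ k * (1 / (L ^ m * L ^ 5)) := by
          rw [show k + m + B + 5 = k + (m + (B + 5)) by ring, pow_add, pow_add, pow_add]
          field_simp
      _ ≤ l / L ^ k * (1 / 8) := by
          refine mul_le_mul_of_nonneg_left ?_ hlk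
          apply one_div_le_one_div_of_le (by norm_num)
          nlinarith only [hm, ht0, h5, ht]
  have t2 : L ^ 2 * (2 * R ^ 4) ≤ l / L ^ k * (1 / 8) := by
    have h1 : R ^ 4 ≤ L ^ (4 * B) := by
      calc R ^ 4 ≤ (L ^ B) ^ 4 := pow_le_pow_left₀ hR0 hR 4
        _ = L ^ (4 * B) := by rw [← pow_mul, mul_comm B 4]
    rw [div_mul_eq_mul_div, le_div_iff₀ hk]
    have h2' : L ^ 2 * (2 * R ^ 4) ≤ 2 * L ^ (4 * B + 2) := by
      rw [pow_add]
      have := mul_le_mul_of_nonneg_left h1 h2.le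
      linarith only [this]
    have h3 : L ^ 2 * (2 * R ^ 4) * L ^ k ≤ 2 * L ^ (4 * B + 2) * L ^ k :=
      mul_le_mul_of_nonneg_right h2' hk.le
    have h4 : 0 ≤ L ^ (4 * B + 2) * L ^ k := by positivity
    linarith only [hl, hR4, h3]
  have hlx' : l / x ≤ 1 / L ^ (k + m + B + 11) := by
    rw [div_le_iff₀ hx]
    calc l ≤ x / L ^ (k + m + B + 11) := hlx
      _ = 1 / L ^ (k + m + B + 11) * x := by ring
  have hlx0 : 0 ≤ l / x := by positivity
  have t3 : l * (L ^ 2 * (l + z) / x * R) ≤ l / L ^ k * (1 / 8) := by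
    have h1 : L ^ 2 * (l + z) / x ≤ L ^ 2 * (2 / L ^ (k + m + B + 11)) := by
      rw [div_le_iff₀ hx]
      calc L ^ 2 * (l + z) ≤ L ^ 2 * (x / L ^ (k + m + B + 11) + x / L ^ (k + m + B + 11)) :=
            mul_le_mul_of_nonneg_left (by linarith only [hlx, hz]) h2.le
        _ = L ^ 2 * (2 / L ^ (k + m + B + 11)) * x := by ring
    calc l * (L ^ 2 * (l + z) / x * R) ≤ l * (L ^ 2 * (2 / L ^ (k + m + B + 11)) * L ^ B) := by
          refine mul_le_mul_of_nonneg_left ?_ hl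
          exact mul_le_mul h1 hR hR0 (by positivity)
      _ = l / L ^ k * (2 / (L ^ m * L ^ 9)) := by
          rw [show k + m + B + 11 = k + (m + (B + (9 + 2))) by ring, pow_add, pow_add, pow_add,
            pow_add L 9 2]
          field_simp
      _ ≤ l / L ^ k * (1 / 8) := by
          refine mul_le_mul_of_nonneg_left ?_ hlk
          rw [div_le_div_iff₀ (by positivity) (by norm_num)]
          nlinarith only [hm, ht0, h9, ht]
  have t4 : l * ((L ^ 2 + L ^ 2 * R) * (7 * (t * (l / x)))) ≤ l / L ^ k * (1 / 8) := by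
    have h1 : L ^ 2 + L ^ 2 * R ≤ 2 * (L ^ 2 * L ^ B) := by
      have h3 : L ^ 2 * R ≤ L ^ 2 * L ^ B := mul_le_mul_of_nonneg_left hR h2.le
      have h4 : L ^ 2 * 1 ≤ L ^ 2 * L ^ B := mul_le_mul_of_nonneg_left hB h2.le
      linarith only [h3, h4]
    calc l * ((L ^ 2 + L ^ 2 * R) * (7 * (t * (l / x)))) ≤
          l * ((2 * (L ^ 2 * L ^ B)) * (7 * (L ^ m * (1 / L ^ (k + m + B + 11))))) := by
          refine mul_le_mul_of_nonneg_left ?_ hl
          refine mul_le_mul h1 ?_ (by positivity) (by positivity)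
          refine mul_le_mul_of_nonneg_left ?_ (by norm_num)
          exact mul_le_mul ht hlx' hlx0 (by positivity)
      _ = l / L ^ k * (14 / L ^ 9) := by
          rw [show k + m + B + 11 = k + (m + (B + (9 + 2))) by ring, pow_add, pow_add, pow_add,
            pow_add L 9 2]
          field_simp
          ring
      _ ≤ l / L ^ k * (1 / 8) := by
          refine mul_le_mul_of_nonneg_left ?_ hlk
          rw [div_le_div_iff₀ (by positivity) (by norm_num)]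
          linarith only [h9]
  have h9' : 1 / (2 * L ^ k) * l = l / L ^ k * (1 / 2) := by
    field_simp
  rw [h9']
  linarith only [t1, t2, t3, t4]

theorem sw_g (a b0 : ℝ) (ha : 0 < a) (hb : b0 < a) (B m k : ℕ) : ∃ A K N0 : ℕ, ∀ N : ℕ, N0 ≤ N →
    ∀ (f D : ℕ → ℝ) (R c b K1 K2 : ℕ) (t : ℝ), DenH N a b0 A B K f D → (R : ℝ) ≤ Real.log N ^ B → 1 ≤ c → c ≤ R →
      Nat.Coprime b c → (N : ℝ) ^ a ≤ K1 → K1 ≤ K2 → K2 ≤ N ^ 2 → |t| ≤ Real.log N ^ m →
      ‖∑ n ∈ Ioc K1 K2, ((f n - D n * lamR R n : ℝ) : ℂ) * ee (-((n : ℝ) * b / c)) *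
        ee (-(t * Real.log n))‖ ≤ K2 / Real.log N ^ k := by
  have hlog : ∀ K : ℝ, ∀ᶠ N : ℕ in Filter.atTop, K ≤ Real.log N := fun K =>
    (Real.tendsto_log_atTop.comp (tendsto_natCast_atTop_atTop (R := ℝ))).eventually_ge_atTop K
  obtain ⟨N0, hN0⟩ := Filter.eventually_atTop.1 ((Filter.eventually_ge_atTop 9).and ((hlog 8).and
      ((SwG_pow_le ((4 * B + 2 + k) + (k + m + B + 13)) ha).and
      (SwG_pow_le (k + m + B + 11) (show (0 : ℝ) < a - b0 by linarith)))))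
  refine ⟨k + m + B + 5, k + m + B + 12, N0,
    fun N hN f D R c b K1 K2 t hden hRB hc hcR hbc hK1 hK12 hK2 ht => ?_⟩
  obtain ⟨g2, g3, g4, g5⟩ := hN0 N hN
  obtain ⟨d1, d2, d3, hEq⟩ := hden
  obtain ⟨L, hLdef⟩ : ∃ L : ℝ, L = Real.log N := ⟨_, rfl⟩
  rw [← hLdef] at d1 d2 d3 hEq g3 g4 g5 hRB ht ⊢
  have hL0 : 0 < L := by linarith only [g3]
  have hL1 : 1 ≤ L := by linarith only [g3]
  have hNpos : (0 : ℝ) < N := by exact_mod_cast (by omega : 0 < N)
  have hN1' : (1 : ℝ) ≤ N := by exact_mod_cast (by omega : 1 ≤ N)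
  have hNa1 : 1 ≤ (N : ℝ) ^ a := Real.one_le_rpow hN1' ha.le
  have hM : 0 < L ^ (k + m + B + 11) := by positivity
  have hR0 : (0 : ℝ) ≤ R := Nat.cast_nonneg R
  have hb0 : 0 ≤ (N : ℝ) ^ b0 := Real.rpow_nonneg hNpos.le _
  -- the points of `[N^a, N^2]`
  have hx1 : ∀ x : ℕ, (N : ℝ) ^ a ≤ x → 1 ≤ x := by
    intro x hx
    exact_mod_cast hNa1.trans hx
  have hzx : ∀ x : ℕ, (N : ℝ) ^ a ≤ x → (N : ℝ) ^ b0 ≤ x / L ^ (k + m + B + 11) := by
    intro x hx
    rw [le_div_iff₀ hM]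
    calc (N : ℝ) ^ b0 * L ^ (k + m + B + 11) ≤ (N : ℝ) ^ b0 * (1 / 4 * (N : ℝ) ^ (a - b0)) :=
          mul_le_mul_of_nonneg_left g5 hb0
      _ = 1 / 4 * (N : ℝ) ^ a := by
          rw [mul_left_comm, ← Real.rpow_add hNpos]
          congr 2
          ring
      _ ≤ x := by linarith only [hNa1, hx]
  have hlb : ∀ x : ℕ, (N : ℝ) ^ a ≤ x →
      L ^ (4 * B + 2 + k) * (4 * L ^ 2) ≤ x / L ^ (k + m + B + 11) := by
    intro x hx
    rw [le_div_iff₀ hM]
    calc L ^ (4 * B + 2 + k) * (4 * L ^ 2) * L ^ (k + m + B + 11) =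
          4 * L ^ ((4 * B + 2 + k) + (k + m + B + 13)) := by
          rw [pow_add L (4 * B + 2 + k) (k + m + B + 13),
            show k + m + B + 13 = (k + m + B + 11) + 2 by ring, pow_add L (k + m + B + 11) 2]
          ring
      _ ≤ x := by linarith only [g4, hx]
  have hfl : ∀ x : ℕ, (N : ℝ) ^ a ≤ x →
      (x : ℝ) / L ^ (k + m + B + 12) ≤ (⌊(x : ℝ) / L ^ (k + m + B + 11)⌋₊ : ℕ) ∧
      L ^ (4 * B + 2 + k) * 32 ≤ (⌊(x : ℝ) / L ^ (k + m + B + 11)⌋₊ : ℕ) := by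
    intro x hx
    have h1 := hlb x hx
    have h2 := Nat.lt_floor_add_one ((x : ℝ) / L ^ (k + m + B + 11))
    have h3 : 1 ≤ L ^ (4 * B + 2 + k) := one_le_pow₀ hL1
    have h4 : (64 : ℝ) ≤ L ^ 2 := by nlinarith only [g3]
    have h5 : L ^ (4 * B + 2 + k) * 256 ≤ x / L ^ (k + m + B + 11) := by
      refine le_trans ?_ h1
      apply mul_le_mul_of_nonneg_left _ (by positivity)
      linarith only [h4]
    constructor
    · have h6 : (x : ℝ) / L ^ (k + m + B + 12) ≤ (x : ℝ) / L ^ (k + m + B + 11) * (1 / 8) := by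
        rw [show k + m + B + 12 = (k + m + B + 11) + 1 by ring, pow_succ, ← div_div,
          div_eq_mul_one_div ((x : ℝ) / L ^ (k + m + B + 11)) L]
        apply mul_le_mul_of_nonneg_left _ (by positivity)
        exact one_div_le_one_div_of_le (by norm_num) g3
      linarith only [h2, h3, h5, h6]
    · linarith only [h2, h3, h5]
  -- the pointwise bound
  have hF : ∀ n : ℕ, (N : ℝ) ^ a ≤ n → n ≤ N ^ 2 →
      |f n - D n * lamR R n| ≤ L ^ 2 + L ^ 2 * R := by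
    intro n hn1 hn2
    have h1 := d1 n (hx1 n hn1) (by omega)
    have h2 := d2 n hn1 (by omega)
    have h3 := SwG_lamR_abs R n (hx1 n hn1)
    have h4 : |D n * lamR R n| ≤ L ^ 2 * R := by
      rw [abs_mul]
      exact mul_le_mul h2 h3 (abs_nonneg _) (by positivity)
    exact (abs_sub _ _).trans (add_le_add h1 h4)
  -- the conjugate
  have hconj : ∑ n ∈ Ioc K1 K2, ((f n - D n * lamR R n : ℝ) : ℂ) * ee (-((n : ℝ) * b / c)) *
      ee (-(t * Real.log n)) =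
      (starRingEnd ℂ) (∑ n ∈ Ioc K1 K2, ((f n - D n * lamR R n : ℝ) : ℂ) *
        ee ((n : ℝ) * b / c) * ee (t * Real.log n)) := by
    rw [map_sum]
    refine Finset.sum_congr rfl fun n _ => ?_
    simp only [map_mul, Complex.conj_ofReal, Pool.Agent.H91.PK.LSa_conj_ee]
  rw [hconj, RCLike.norm_conj]
  have hRc : (c : ℝ) ≤ L ^ B := le_trans (by exact_mod_cast hcR) hRB
  have hcast : ∀ x : ℕ, K1 ≤ x → (N : ℝ) ^ a ≤ x := fun x hx =>
    hK1.trans (by exact_mod_cast hx)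
  have hind := SwG_ind (fun n => ((f n - D n * lamR R n : ℝ) : ℂ) * ee ((n : ℝ) * b / c) *
        ee (t * Real.log n)) (fun x => ⌊(x : ℝ) / L ^ (k + m + B + 11)⌋₊) K1 K2 (1 / (2 * L ^ k))
    (K2 / L ^ k * (1 / 2)) (by positivity) ?_ ?_ ?_ (K2 - K1) K1 le_rfl hK12 le_rfl
  · refine hind.trans ?_
    have h1 : 1 / (2 * L ^ k) * ((K2 : ℝ) - K1) ≤ 1 / (2 * L ^ k) * K2 := by
      apply mul_le_mul_of_nonneg_left _ (by positivity)
      have : (0 : ℝ) ≤ K1 := Nat.cast_nonneg K1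
      linarith only [hK1, hNa1]
    have h2 : 1 / (2 * L ^ k) * (K2 : ℝ) = K2 / L ^ k * (1 / 2) := by
      field_simp
    linarith only [h1, h2]
  · intro x hx _
    have h1 := (hfl x (hcast x hx)).2
    have h3 : 1 ≤ L ^ (4 * B + 2 + k) := one_le_pow₀ hL1
    have h4 : (1 : ℝ) ≤ (⌊(x : ℝ) / L ^ (k + m + B + 11)⌋₊ : ℕ) := by linarith only [h1, h3]
    exact_mod_cast h4
  · intro x hx hxl
    have hxN := hcast x hx
    have hx1' := hx1 x hxN
    have hx0 : (0 : ℝ) < x := by exact_mod_cast (by omega : 0 < x)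
    obtain ⟨f1, f2⟩ := hfl x hxN
    obtain ⟨l, hl⟩ : ∃ l : ℕ, l = ⌊(x : ℝ) / L ^ (k + m + B + 11)⌋₊ := ⟨_, rfl⟩
    show ‖∑ n ∈ Ioc x (x + ⌊(x : ℝ) / L ^ (k + m + B + 11)⌋₊), _‖ ≤
      1 / (2 * L ^ k) * (⌊(x : ℝ) / L ^ (k + m + B + 11)⌋₊ : ℕ)
    have hlx : (l : ℝ) ≤ x / L ^ (k + m + B + 11) := by
      rw [hl]
      exact Nat.floor_le (by positivity)
    have hxl' : x + ⌊(x : ℝ) / L ^ (k + m + B + 11)⌋₊ ≤ K2 := hxl
    rw [← hl] at f1 f2 hxl' ⊢
    have hz1 := hzx x hxN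
    have hxl2 : x + l ≤ N ^ 2 := hxl'.trans hK2
    have hE : ∀ a' : ℕ, |∑ k ∈ (Ioc x (x + l)).filter (fun k => k ≡ a' [MOD c]), f k
        - (if Nat.Coprime a' c then (l : ℝ) * D x / c.totient else 0)| ≤
        l / L ^ (k + m + B + 5) := fun a' =>
      hEq x l c a' hxN (by omega) f1 hlx hc hRc
    have hδ : ∀ n ∈ Ioc x (x + l), |D n - D x| ≤ L ^ 2 * ((l : ℝ) + (N : ℝ) ^ b0) / x := by
      intro n hn
      rw [mem_Ioc] at hn
      refine (d3 x n hxN hn.1.le (by omega)).trans ?_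
      apply div_le_div_of_nonneg_right _ hx0.le
      apply mul_le_mul_of_nonneg_left _ (by positivity)
      have : (n : ℝ) ≤ x + l := by exact_mod_cast hn.2
      linarith only [this]
    have hC1 := SwG_cell1 f D R x l c b hc hcR hbc (L ^ 2) _ _ (by positivity)
      (d2 x hxN (by omega)) hδ hE
    have hC2 := SwG_cell2 (fun n => f n - D n * lamR R n) x l c b t (L ^ 2 + L ^ 2 * R) hx1'
      (by positivity) (fun n hn => by
        rw [mem_Ioc] at hn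
        exact hF n (hxN.trans (by exact_mod_cast hn.1.le)) (hn.2.trans hxl2)) _ hC1
    refine hC2.trans ?_
    refine SwG_num L l x R c ((N : ℝ) ^ b0) |t| B m k g3 (Nat.cast_nonneg l) hx0 hR0 hRB
      hRc (abs_nonneg t) ht hlx hz1 ?_
    rw [← pow_add]
    linarith only [f2]
  · intro x hx hxK hKl
    have hxN := hcast x hx
    have hx1' := hx1 x hxN
    have hx0 : (0 : ℝ) < x := by exact_mod_cast (by omega : 0 < x)
    refine (norm_sum_le _ _).trans ?_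
    have h2 : ∀ n ∈ Ioc x K2, ‖((f n - D n * lamR R n : ℝ) : ℂ) * ee ((n : ℝ) * b / c) *
        ee (t * Real.log n)‖ ≤ L ^ 2 + L ^ 2 * R := by
      intro n hn
      rw [mem_Ioc] at hn
      rw [norm_mul, norm_mul, Pool.Agent.H91.PK.LSa_norm_ee, Pool.Agent.H91.PK.LSa_norm_ee,
        mul_one, mul_one, Complex.norm_real, Real.norm_eq_abs]
      exact hF n (hxN.trans (by exact_mod_cast hn.1.le)) (hn.2.trans hK2)
    refine (sum_le_sum h2).trans ?_
    rw [sum_const, Nat.card_Ioc, nsmul_eq_mul]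
    have h3 : ((K2 - x : ℕ) : ℝ) ≤ K2 / L ^ (k + m + B + 11) := by
      have h4 : K2 - x ≤ ⌊(x : ℝ) / L ^ (k + m + B + 11)⌋₊ := by
        have : K2 < x + ⌊(x : ℝ) / L ^ (k + m + B + 11)⌋₊ := hKl
        omega
      have h5 : ((K2 - x : ℕ) : ℝ) ≤ (⌊(x : ℝ) / L ^ (k + m + B + 11)⌋₊ : ℕ) := by
        exact_mod_cast h4
      refine h5.trans ((Nat.floor_le (by positivity)).trans ?_)
      apply div_le_div_of_nonneg_right _ hM.le
      exact_mod_cast hxK
    have hB1 : 1 ≤ L ^ B := one_le_pow₀ hL1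
    have hm1 : 1 ≤ L ^ m := one_le_pow₀ hL1
    have h2p : 0 < L ^ 2 := by positivity
    have h6 : L ^ 2 + L ^ 2 * R ≤ 2 * (L ^ 2 * L ^ B) := by
      have h7 : L ^ 2 * R ≤ L ^ 2 * L ^ B := mul_le_mul_of_nonneg_left hRB h2p.le
      have h8 : L ^ 2 * 1 ≤ L ^ 2 * L ^ B := mul_le_mul_of_nonneg_left hB1 h2p.le
      linarith only [h7, h8]
    calc ((K2 - x : ℕ) : ℝ) * (L ^ 2 + L ^ 2 * R) ≤
          K2 / L ^ (k + m + B + 11) * (2 * (L ^ 2 * L ^ B)) :=
          mul_le_mul h3 h6 (by positivity) (by positivity)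
      _ = K2 / L ^ k * (2 / (L ^ m * L ^ 9)) := by
          rw [show k + m + B + 11 = k + (m + (B + (9 + 2))) by ring, pow_add, pow_add, pow_add,
            pow_add L 9 2]
          field_simp
      _ ≤ K2 / L ^ k * (1 / 2) := by
          refine mul_le_mul_of_nonneg_left ?_ (by positivity)
          have h8 : (168 : ℝ) ≤ L ^ 9 := by
            calc (168 : ℝ) ≤ 8 ^ 9 := by norm_num
              _ ≤ L ^ 9 := pow_le_pow_left₀ (by norm_num) g3 9
          rw [div_le_div_iff₀ (by positivity) (by norm_num)]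
          nlinarith only [hm1, h8]

theorem swf_g (a b0 : ℝ) (ha : 0 < a) (hb : b0 < a) (B C' m k : ℕ) (hB : C' + 1 ≤ B) : ∃ A K N0 : ℕ, ∀ N : ℕ, N0 ≤ N →
    ∀ (f D : ℕ → ℝ) (P : ℕ), DenH N a b0 A B K f D → 1 ≤ P → (P : ℝ) * (N : ℝ) ^ a ≤ N / 32 →
      SWf (fun n => f n - D n * lamR ⌊Real.log N ^ B⌋₊ n) N P C' m k := by
  obtain ⟨A, K, N1, hN1⟩ := sw_g a b0 ha hb B m (k + 4)
  have hlog : ∀ K : ℝ, ∀ᶠ N : ℕ in Filter.atTop, K ≤ Real.log N := fun K =>
    (Real.tendsto_log_atTop.comp (tendsto_natCast_atTop_atTop (R := ℝ))).eventually_ge_atTop K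
  obtain ⟨N0, hN0⟩ := Filter.eventually_atTop.1 (((Filter.eventually_ge_atTop N1).and
    (Filter.eventually_ge_atTop 12)).and (hlog 8))
  refine ⟨A, K, N0, fun N hN f D P hden hP hPN c b t hc hcL ht => ?_⟩
  obtain ⟨⟨g1, g2⟩, g3⟩ := hN0 N hN
  set L := Real.log N with hL
  have hL1 : 1 ≤ L := by linarith only [g3]
  have hL0 : 0 < L := by linarith only [g3]
  have hNpos : (0 : ℝ) < N := by exact_mod_cast (by omega : 0 < N)
  have hN1' : (1 : ℝ) ≤ N := by exact_mod_cast (by omega : 1 ≤ N)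
  have hNa1 : 1 ≤ (N : ℝ) ^ a := Real.one_le_rpow hN1' ha.le
  have hPpos : (0 : ℝ) < P := by exact_mod_cast hP
  -- lowest terms
  obtain ⟨g, b', c', hg, hcop, hb', hc'⟩ := Nat.exists_coprime' (m := b) (n := c)
    (Nat.gcd_pos_of_pos_right b hc)
  have hgc : (g : ℝ) ≠ 0 := by exact_mod_cast hg.ne'
  have hc'1 : 1 ≤ c' := by
    rcases Nat.eq_zero_or_pos c' with h | h
    · rw [h, zero_mul] at hc'
      omega
    · exact h
  have hc'c : c' ≤ c := by
    rw [hc']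
    exact Nat.le_mul_of_pos_right c' hg
  have hc'0 : (c' : ℝ) ≠ 0 := by
    have : (0 : ℝ) < c' := by exact_mod_cast hc'1
    exact this.ne'
  have hfrac : (b : ℝ) / c = (b' : ℝ) / c' := by
    rw [hb', hc']
    push_cast
    field_simp
  have hLB : L ^ C' ≤ L ^ B := pow_le_pow_right₀ hL1 (by omega)
  have hc'R : c' ≤ ⌊L ^ B⌋₊ := by
    apply Nat.le_floor
    have : (c' : ℝ) ≤ c := by exact_mod_cast hc'c
    linarith only [hcL, hLB, this]
  have hRB : ((⌊L ^ B⌋₊ : ℕ) : ℝ) ≤ L ^ B := Nat.floor_le (by positivity)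
  -- the range
  have hK1 : (N : ℝ) ^ a ≤ ((N / (16 * P) : ℕ) : ℝ) := by
    have h1 := Nat.lt_floor_add_one ((N : ℝ) / ((16 * P : ℕ) : ℝ))
    rw [Nat.floor_div_eq_div] at h1
    have h2 : 2 * (N : ℝ) ^ a ≤ (N : ℝ) / ((16 * P : ℕ) : ℝ) := by
      push_cast
      rw [le_div_iff₀ (by positivity)]
      linarith only [hPN]
    linarith only [hNa1, h1, h2]
  have hK12 : N / (16 * P) ≤ 12 * N / P := by
    calc N / (16 * P) ≤ N / P := Nat.div_le_div_left (by omega) hP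
      _ ≤ 12 * N / P := Nat.div_le_div_right (by omega)
  have hK2 : 12 * N / P ≤ N ^ 2 := by
    calc 12 * N / P ≤ 12 * N := Nat.div_le_self _ _
      _ ≤ N * N := Nat.mul_le_mul_right N g2
      _ = N ^ 2 := by ring
  have hmain := hN1 N g1 f D ⌊L ^ B⌋₊ c' b' (N / (16 * P)) (12 * N / P) t hden hRB hc'1 hc'R
    hcop hK1 hK12 hK2 ht
  have heq : ∑ n ∈ Ioc (N / (16 * P)) (12 * N / P),
      (((fun n => f n - D n * lamR ⌊L ^ B⌋₊ n) n : ℝ) : ℂ) *
        ee (-((n : ℝ) * ((b : ℝ) / c))) * ee (-(t * Real.log n)) =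
      ∑ n ∈ Ioc (N / (16 * P)) (12 * N / P), ((f n - D n * lamR ⌊L ^ B⌋₊ n : ℝ) : ℂ) *
        ee (-((n : ℝ) * b' / c')) * ee (-(t * Real.log n)) := by
    refine sum_congr rfl fun n _ => ?_
    rw [hfrac, mul_div_assoc]
  rw [heq]
  refine hmain.trans ?_
  have h1 : ((12 * N / P : ℕ) : ℝ) ≤ 12 * (N / P : ℝ) := by
    refine Nat.cast_div_le.trans ?_
    push_cast
    rw [mul_div_assoc]
  have h2 : (0 : ℝ) ≤ N / P := by positivity
  have h3 : (12 : ℝ) ≤ L ^ 4 := by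
    calc (12 : ℝ) ≤ 8 ^ 4 := by norm_num
      _ ≤ L ^ 4 := pow_le_pow_left₀ (by norm_num) g3 4
  rw [pow_add, div_le_div_iff₀ (by positivity) (by positivity)]
  have hk : 0 < L ^ k := by positivity
  calc ((12 * N / P : ℕ) : ℝ) * L ^ k ≤ 12 * (N / P : ℝ) * L ^ k :=
        mul_le_mul_of_nonneg_right h1 hk.le
    _ ≤ L ^ 4 * (N / P : ℝ) * L ^ k := by gcongr
    _ = (N / P : ℝ) * (L ^ k * L ^ 4) := by ring

end Pool.Agent.H91.TQ

end
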