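import Pool.Agent.H43.PJ.H9.TM.MeanS
import Pool.Agent.H43.PJ.M46
import Pool.Agent.H43.PJ.M52
import Pool.Agent.H43.PJ.M53
import Pool.Agent.H43.PJ.M54
import Pool.Agent.H43.PJ.M55
import Pool.Agent.H43.PJ.M56

/-! The parts of this file: H9.TM.MeanQ, H9.TM.Dens, H9.TM.Mass7. -/

section

/-!
# TM MeanQ: the means of the type II sums with `bf` and `bq`

`mean_f` with `f = bf`, `D = kap` and with `f = bq`, `D = kq` (`WK`, `WQ` are `∑_{p ∈ pb P} D(x/p)/p` by definition).  Hypotheses: `eq_bg (1/2) e1 (2221/10000) 3 0 (K+1)` and `eq_q e1 (2221/10000) (1527/5000) (5/8) 3 0 (K+1)` with `c = 1`, `b = 0`, at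
`x/p ≥ N^(3/4)/16` (natural division), `l_p = (x+l)/p - x/p`: `(x/p)/L^(K+1) ≤ l_p ≤ (x/p)/L^9` (as in the proof of `mass_q`, `H91/TQ/MassQ.lean`, `b1 .. b4`, `hb`); `kap_abs`, `kq_abs`: `|kap| ≤ 2`, `|kq| ≤ 3 + log z1 ≤ L²`.
(`yN e1 N ≥ 3` for large `N`.)
-/

set_option autoImplicit false

namespace Pool.Agent.H9.TM

open Finset
open Pool.Agent.H35.W (pb)
open Pool.Agent.H53.MID (Fp)
open Pool.Agent.H76.TP
open Pool.Agent.H91.TQ (bq WQ)

private theorem MeanQ_ev (δ : ℝ) (hδ : 0 < δ) (M : ℕ) :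
    ∃ N0 : ℕ, ∀ N : ℕ, N0 ≤ N → 2 ≤ N ∧ 8 ≤ Real.log N ∧
      16 * Real.log N ^ M ≤ (N : ℝ) ^ δ := by
  have hcast := tendsto_natCast_atTop_atTop (R := ℝ)
  have hlog : Filter.Tendsto (fun N : ℕ => Real.log (N : ℝ)) Filter.atTop Filter.atTop :=
    Real.tendsto_log_atTop.comp hcast
  have h1 : ∀ᶠ N : ℕ in Filter.atTop, 2 ≤ N := Filter.eventually_ge_atTop 2
  have h2 : ∀ᶠ N : ℕ in Filter.atTop, 8 ≤ Real.log N := hlog.eventually_ge_atTop 8
  have h5 : ∀ᶠ N : ℕ in Filter.atTop, 16 * Real.log N ^ M ≤ (N : ℝ) ^ δ := by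
    have h6 := (isLittleO_log_rpow_rpow_atTop (M : ℝ) hδ).bound
      (show (0 : ℝ) < 1 / 16 by norm_num)
    have h7 := hcast.eventually h6
    filter_upwards [h7, h1, h2] with N h8 h9 h10
    rw [Real.norm_eq_abs, Real.norm_eq_abs, Real.rpow_natCast,
      abs_of_nonneg (by positivity), abs_of_nonneg (by positivity)] at h8
    linarith
  obtain ⟨N0, hN0⟩ := Filter.eventually_atTop.1 (h1.and (h2.and h5))
  exact ⟨N0, fun N hN => hN0 N hN⟩

private theorem MeanQ_real (X n lp l L : ℝ) (K : ℕ) (hL : 8 ≤ L) (hn1 : n ≤ X) (hn2 : X - 1 ≤ n)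
    (hX : 16 * L ^ (K + 9) ≤ X) (hlp1 : l - 1 ≤ lp) (hlp2 : lp ≤ l + 1)
    (hl1 : X / L ^ K ≤ l) (hl2 : l ≤ 4 * X / L ^ 10) :
    n / L ^ (K + 1) ≤ lp ∧ lp ≤ n / L ^ 9 := by
  have hL0 : 0 < L := by linarith
  have hL1 : 1 ≤ L := by linarith
  have hK : 1 ≤ L ^ K := one_le_pow₀ hL1
  have h9 : 1 ≤ L ^ 9 := one_le_pow₀ hL1
  have hX0 : 0 < X := lt_of_lt_of_le (by positivity) hX
  have hX1 : 16 * L ^ K ≤ X := by
    refine le_trans ?_ hX
    rw [pow_add]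
    nlinarith
  have hX2 : 16 * L ^ 9 ≤ X := by
    refine le_trans ?_ hX
    rw [pow_add]
    nlinarith
  constructor
  · have h1 : n / L ^ (K + 1) ≤ X / L ^ (K + 1) := by gcongr
    have h2 : X / L ^ (K + 1) ≤ X / L ^ K / 8 := by
      rw [pow_succ, ← div_div]
      exact div_le_div_of_nonneg_left (by positivity) (by norm_num) hL
    have h3 : 16 ≤ X / L ^ K := by
      rw [le_div_iff₀ (by positivity)]
      exact hX1
    linarith
  · have h1 : (X - 1) / L ^ 9 ≤ n / L ^ 9 := by gcongr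
    have h2 : 4 * X / L ^ 10 ≤ X / L ^ 9 / 2 := by
      rw [show (10 : ℕ) = 9 + 1 from rfl, pow_succ, ← div_div, div_le_iff₀ hL0]
      have h3 : 0 ≤ X / L ^ 9 := by positivity
      have h4 : 4 * X / L ^ 9 = 4 * (X / L ^ 9) := by ring
      rw [h4]
      nlinarith
    have h3 : 16 ≤ X / L ^ 9 := by
      rw [le_div_iff₀ (by positivity)]
      exact hX2
    have h4 : (X - 1) / L ^ 9 = X / L ^ 9 - 1 / L ^ 9 := by ring
    have h5 : 1 / L ^ 9 ≤ 1 := by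
      rw [div_le_one (by positivity)]
      exact h9
    linarith

private theorem MeanQ_len (x l p : ℕ) (hp : 0 < p) :
    (l : ℝ) / p - 1 ≤ (((x + l) / p - x / p : ℕ) : ℝ) ∧
      (((x + l) / p - x / p : ℕ) : ℝ) ≤ (l : ℝ) / p + 1 := by
  have hdiv : x / p ≤ (x + l) / p := Nat.div_le_div_right (Nat.le_add_right _ _)
  have hpR : (0 : ℝ) < p := by exact_mod_cast hp
  rw [Nat.cast_sub hdiv]
  have h1 : ((x / p : ℕ) : ℝ) ≤ (x : ℝ) / p := Nat.cast_div_le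
  have h2 : (((x + l) / p : ℕ) : ℝ) ≤ ((x + l : ℕ) : ℝ) / p := Nat.cast_div_le
  have h3 : (x : ℝ) / p < ((x / p : ℕ) : ℝ) + 1 := by
    rw [div_lt_iff₀ hpR]
    have := Nat.lt_div_mul_add (a := x) hp
    have h4 : x < (x / p + 1) * p := by
      rw [add_mul, one_mul]
      exact this
    exact_mod_cast h4
  have h5 : ((x + l : ℕ) : ℝ) / p < (((x + l) / p : ℕ) : ℝ) + 1 := by
    rw [div_lt_iff₀ hpR]
    have := Nat.lt_div_mul_add (a := x + l) hp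
    have h4 : x + l < ((x + l) / p + 1) * p := by
      rw [add_mul, one_mul]
      exact this
    exact_mod_cast h4
  have h6 : ((x + l : ℕ) : ℝ) / p = (x : ℝ) / p + (l : ℝ) / p := by
    push_cast
    ring
  rw [h6] at h2 h5
  constructor <;> linarith

private theorem MeanQ_all (e1 : ℝ) (he1 : 0 < e1) (K : ℕ) : ∃ N0 : ℕ, ∀ N : ℕ, N0 ≤ N → ∀ J x l : ℕ,
    (zz (yN e1 N) J : ℝ) ≤ (N : ℝ) ^ (2221 / 10000 : ℝ) → N ≤ 8 * x → x ≤ 8 * N → (x : ℝ) / Real.log N ^ K ≤ l →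
    (l : ℝ) ≤ 4 * x / Real.log N ^ 10 →
      2 ≤ N ∧ 8 ≤ Real.log N ∧ 3 ≤ yN e1 N ∧ l ≤ x ∧
      ∀ p ∈ PY (yN e1 N) (zz (yN e1 N) J),
        (N : ℝ) ^ (5 / 8 : ℝ) ≤ ((x / p : ℕ) : ℝ) ∧ x / p ≤ N ^ 2 ∧
        ((x / p : ℕ) : ℝ) / Real.log N ^ (K + 1) ≤ (((x + l) / p - x / p : ℕ) : ℝ) ∧
        (((x + l) / p - x / p : ℕ) : ℝ) ≤ ((x / p : ℕ) : ℝ) / Real.log N ^ 9 := by
  obtain ⟨N1, hN1⟩ := MeanQ_ev (5 / 8) (by norm_num) (K + 9)
  obtain ⟨N2, hN2⟩ := MeanQ_ev (1 / 10) (by norm_num) 0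
  obtain ⟨N3, hN3⟩ := MeanQ_ev e1 he1 0
  refine ⟨N1 + N2 + N3 + 8, fun N hN J x l hz hx1 hx2 hl1 hl2 => ?_⟩
  obtain ⟨hN2', hL8, hNM⟩ := hN1 N (by omega)
  obtain ⟨-, -, hNb⟩ := hN2 N (by omega)
  obtain ⟨-, -, hNe⟩ := hN3 N (by omega)
  rw [pow_zero, mul_one] at hNb hNe
  set L : ℝ := Real.log N with hLdef
  have hL1 : 1 ≤ L := by linarith
  have hL0 : 0 < L := by linarith
  have hNR : (1 : ℝ) ≤ N := by exact_mod_cast (by omega : 1 ≤ N)
  have hNpos : (0 : ℝ) < N := by linarith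
  have hxR : (N : ℝ) ≤ 8 * x := by exact_mod_cast hx1
  have hx0 : (0 : ℝ) < x := by linarith
  have hlx : (l : ℝ) ≤ x := by
    refine hl2.trans ?_
    rw [div_le_iff₀ (by positivity)]
    have h10 : (8 : ℝ) ≤ L ^ 10 := by
      calc (8 : ℝ) ≤ L := hL8
        _ = L ^ 1 := (pow_one L).symm
        _ ≤ L ^ 10 := pow_le_pow_right₀ hL1 (by norm_num)
    nlinarith
  refine ⟨hN2', hL8, ?_, by exact_mod_cast hlx, ?_⟩
  · unfold yN
    rw [Nat.le_floor_iff (by positivity)]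
    refine le_trans ?_ hNe
    norm_num
  intro p hp
  unfold PY at hp
  rw [mem_filter, mem_Ioc] at hp
  obtain ⟨⟨hp1, hp2⟩, hp3⟩ := hp
  have hp0 : 0 < p := hp3.pos
  have hpR : (0 : ℝ) < p := by exact_mod_cast hp0
  have hpz : (p : ℝ) ≤ (N : ℝ) ^ (2221 / 10000 : ℝ) := le_trans (by exact_mod_cast hp2) hz
  have hX : 2 * (N : ℝ) ^ (5 / 8 : ℝ) ≤ (x : ℝ) / p := by
    rw [le_div_iff₀ hpR]
    have h1 : (N : ℝ) ^ (5 / 8 : ℝ) * (N : ℝ) ^ (2221 / 10000 : ℝ) * (N : ℝ) ^ (1 / 10 : ℝ) ≤ N := by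
      rw [← Real.rpow_add hNpos, ← Real.rpow_add hNpos]
      calc (N : ℝ) ^ (5 / 8 + 2221 / 10000 + 1 / 10 : ℝ) ≤ (N : ℝ) ^ (1 : ℝ) :=
            Real.rpow_le_rpow_of_exponent_le hNR (by norm_num)
        _ = N := Real.rpow_one _
    have h2 : 0 < (N : ℝ) ^ (5 / 8 : ℝ) := by positivity
    have h3 : (N : ℝ) ^ (5 / 8 : ℝ) * p ≤ (N : ℝ) ^ (5 / 8 : ℝ) * (N : ℝ) ^ (2221 / 10000 : ℝ) := by
      gcongr
    have h4 : (N : ℝ) ^ (5 / 8 : ℝ) * (N : ℝ) ^ (2221 / 10000 : ℝ) * 16 ≤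
        (N : ℝ) ^ (5 / 8 : ℝ) * (N : ℝ) ^ (2221 / 10000 : ℝ) * (N : ℝ) ^ (1 / 10 : ℝ) := by
      gcongr
    linarith
  have h58 : (1 : ℝ) ≤ (N : ℝ) ^ (5 / 8 : ℝ) := Real.one_le_rpow hNR (by norm_num)
  have hn1 : ((x / p : ℕ) : ℝ) ≤ (x : ℝ) / p := Nat.cast_div_le
  have hn2 : (x : ℝ) / p - 1 ≤ ((x / p : ℕ) : ℝ) := by
    have h4 : x < (x / p + 1) * p := by
      rw [add_mul, one_mul]
      exact Nat.lt_div_mul_add hp0
    have h5 : (x : ℝ) < (((x / p : ℕ) : ℝ) + 1) * p := by exact_mod_cast h4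
    have h6 : (x : ℝ) / p < ((x / p : ℕ) : ℝ) + 1 := by
      rw [div_lt_iff₀ hpR]
      exact h5
    linarith
  obtain ⟨hlp1, hlp2⟩ := MeanQ_len x l p hp0
  refine ⟨by linarith, ?_, ?_⟩
  · calc x / p ≤ x := Nat.div_le_self _ _
      _ ≤ 8 * N := hx2
      _ ≤ N * N := Nat.mul_le_mul_right _ (by omega)
      _ = N ^ 2 := (sq N).symm
  · refine MeanQ_real ((x : ℝ) / p) _ _ ((l : ℝ) / p) L K hL8 hn1 hn2 ?_ hlp1 hlp2 ?_ ?_
    · linarith
    · rw [div_right_comm]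
      gcongr
    · calc (l : ℝ) / p ≤ 4 * x / L ^ 10 / p := by gcongr
        _ = 4 * ((x : ℝ) / p) / L ^ 10 := by ring

private theorem MeanQ_filter (s : Finset ℕ) (f : ℕ → ℝ) :
    ∑ k ∈ s.filter (fun k => k ≡ 0 [MOD 1]), f k = ∑ k ∈ s, f k := by
  rw [filter_true_of_mem]
  intro k _
  exact Nat.modEq_one

theorem mean_b (e1 : ℝ) (he1 : 0 < e1) (he2 : e1 ≤ 1 / 100) (K : ℕ) : ∃ N0 : ℕ, ∀ N : ℕ, N0 ≤ N → ∀ J x l : ℕ,
    (zz (yN e1 N) J : ℝ) ≤ (N : ℝ) ^ (2221 / 10000 : ℝ) → N ≤ 8 * x → x ≤ 8 * N → (x : ℝ) / Real.log N ^ K ≤ l →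
    (l : ℝ) ≤ 4 * x / Real.log N ^ 10 →
      |∑ m ∈ Ioc x (x + l), ∑ j ∈ range J, Fp (bf (yN e1 N) J) (2 ^ j * yN e1 N) m
        - l * ∑ j ∈ range J, WK (yN e1 N) J (2 ^ j * yN e1 N) x| ≤ 3 * l / Real.log N ^ 2 := by
  obtain ⟨N1, hN1⟩ := mean_f e1 he1 K
  obtain ⟨N2, hN2⟩ := MeanQ_all e1 he1 K
  obtain ⟨N3, hN3⟩ := eq_bg (1 / 2) e1 (2221 / 10000) he1 (by linarith) (by norm_num) 3 0 (K + 1)
  refine ⟨N1 + N2 + N3, fun N hN J x l hz hx1 hx2 hl1 hl2 => ?_⟩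
  obtain ⟨h2, hL, hy, hlx, hall⟩ := hN2 N (by omega) J x l hz hx1 hx2 hl1 hl2
  have hNR : (1 : ℝ) ≤ N := by exact_mod_cast (by omega : 1 ≤ N)
  have hL1 : 1 ≤ Real.log N := by linarith
  have key := hN1 N (by omega) J x l (bf (yN e1 N) J) (kap (yN e1 N) J)
    (hz.trans (Real.rpow_le_rpow_of_exponent_le hNR (by norm_num))) hx1 hx2 hl1 hlx ?_ ?_
  · simpa only [WK] using key
  · intro p hp
    obtain ⟨a1, a2, a3, a4⟩ := hall p hp
    have h := hN3 N (by omega) J (x / p) ((x + l) / p - x / p) 1 0 hz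
      ((Real.rpow_le_rpow_of_exponent_le hNR (by norm_num)).trans a1) a2 a3 ?_ le_rfl ?_
    · have hdiv : x / p ≤ (x + l) / p := Nat.div_le_div_right (Nat.le_add_right _ _)
      rw [MeanQ_filter, Nat.add_sub_cancel' hdiv, if_pos (Nat.coprime_one_right 0), Nat.totient_one,
        Nat.cast_one, div_one] at h
      exact h
    · refine a4.trans ?_
      exact div_le_div_of_nonneg_left (Nat.cast_nonneg _) (by positivity)
        (pow_le_pow_right₀ hL1 (by norm_num))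
    · rw [pow_zero, Nat.cast_one]
  · intro p hp
    obtain ⟨c1, c2⟩ := Pool.Agent.H91.TQ.kap_abs (yN e1 N) J (x / p) hy
    rw [abs_of_nonneg c1]
    refine c2.trans ?_
    nlinarith

theorem mean_q (e1 : ℝ) (he1 : 0 < e1) (he2 : e1 ≤ 1 / 100) (K : ℕ) : ∃ N0 : ℕ, ∀ N : ℕ, N0 ≤ N → ∀ J J1 x l : ℕ, J ≤ J1 →
    (zz (yN e1 N) J : ℝ) ≤ (N : ℝ) ^ (2221 / 10000 : ℝ) → (zz (yN e1 N) J1 : ℝ) ≤ (N : ℝ) ^ (1527 / 5000 : ℝ) →
    N ≤ 8 * x → x ≤ 8 * N → (x : ℝ) / Real.log N ^ K ≤ l → (l : ℝ) ≤ 4 * x / Real.log N ^ 10 →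
      |∑ m ∈ Ioc x (x + l), ∑ j ∈ range J, Fp (bq (yN e1 N) J J1) (2 ^ j * yN e1 N) m
        - l * ∑ j ∈ range J, WQ (yN e1 N) J J1 (2 ^ j * yN e1 N) x| ≤ 3 * l / Real.log N ^ 2 := by
  obtain ⟨N1, hN1⟩ := mean_f e1 he1 K
  obtain ⟨N2, hN2⟩ := MeanQ_all e1 he1 K
  obtain ⟨N3, hN3⟩ := Pool.Agent.H91.TQ.eq_q e1 (2221 / 10000) (1527 / 5000) (5 / 8) he1 (by linarith) (by norm_num)
    (by norm_num) (by norm_num) 3 0 (K + 1)
  refine ⟨N1 + N2 + N3, fun N hN J J1 x l hJ hz hz1 hx1 hx2 hl1 hl2 => ?_⟩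
  obtain ⟨h2, hL, hy, hlx, hall⟩ := hN2 N (by omega) J x l hz hx1 hx2 hl1 hl2
  have hNR : (1 : ℝ) ≤ N := by exact_mod_cast (by omega : 1 ≤ N)
  have hL1 : 1 ≤ Real.log N := by linarith
  have key := hN1 N (by omega) J x l (bq (yN e1 N) J J1) (Pool.Agent.H91.TQ.kq (yN e1 N) J J1)
    (hz.trans (Real.rpow_le_rpow_of_exponent_le hNR (by norm_num))) hx1 hx2 hl1 hlx ?_ ?_
  · simpa only [WQ] using key
  · intro p hp
    obtain ⟨a1, a2, a3, a4⟩ := hall p hp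
    have h := hN3 N (by omega) J J1 (x / p) ((x + l) / p - x / p) 1 0 hJ hz hz1
      a1 a2 a3 a4 le_rfl ?_
    · have hdiv : x / p ≤ (x + l) / p := Nat.div_le_div_right (Nat.le_add_right _ _)
      rw [MeanQ_filter, Nat.add_sub_cancel' hdiv, if_pos (Nat.coprime_one_right 0), Nat.totient_one,
        Nat.cast_one, div_one] at h
      exact h
    · rw [pow_zero, Nat.cast_one]
  · intro p hp
    refine (Pool.Agent.H91.TQ.kq_abs (yN e1 N) J J1 (x / p) hy).trans ?_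
    have h0 : (0 : ℝ) < (zz (yN e1 N) J1 : ℝ) := by
      unfold zz
      have : 0 < 2 ^ J1 * yN e1 N := by positivity
      exact_mod_cast this
    have h1 : Real.log (zz (yN e1 N) J1) ≤ Real.log N := by
      refine Real.log_le_log h0 (hz1.trans ?_)
      calc (N : ℝ) ^ (1527 / 5000 : ℝ) ≤ (N : ℝ) ^ (1 : ℝ) :=
            Real.rpow_le_rpow_of_exponent_le hNR (by norm_num)
        _ = N := Real.rpow_one _
    nlinarith

end Pool.Agent.H9.TM

end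

section

/-!
# TM Dens: the densities are the long averages of the exact functions
-/

set_option autoImplicit false

namespace Pool.Agent.H9.TM

open Finset
open Pool.Agent.H53.MID (Fp)
open Pool.Agent.H76.TP (yN zz rg PY bf AA WK kapA aa_nonneg aa_one aa_le)
open Pool.Agent.H91.TQ (om W1 bq WQ Fq kapF sqp fq_eq sqp_int)
open Pool.Agent.H46.TPQ (LevQ SvI k1)

/-- facts for large `N` -/
private theorem Dens_large (K : ℕ) : ∃ N0 : ℕ, ∀ N : ℕ, N0 ≤ N → (10 : ℝ) ^ 9 ≤ Real.log N ∧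
    (N : ℝ) ^ (1 / 2 : ℝ) * (8 * Real.log N ^ K) ≤ N := by
  obtain ⟨x1, hx1⟩ := Pool.Agent.H76.GB.log_ge (10 ^ 9)
  obtain ⟨x2, hx2⟩ := Pool.Agent.H76.GB.log_pow_le (1 / 2) 8 (by norm_num) (by norm_num) K
  refine ⟨x1 + x2 + 1, fun N hN => ?_⟩
  have g1 := hx1 N (by omega)
  have g2 := hx2 N (by omega)
  have hNpos : (0 : ℝ) < N := by exact_mod_cast (by omega : 0 < N)
  refine ⟨g1, ?_⟩
  have h6 : (N : ℝ) = (N : ℝ) ^ (1 / 2 : ℝ) * (N : ℝ) ^ (1 / 2 : ℝ) := by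
    rw [← Real.rpow_add hNpos]
    have : (1 / 2 : ℝ) + 1 / 2 = 1 := by norm_num
    rw [this, Real.rpow_one]
  calc (N : ℝ) ^ (1 / 2 : ℝ) * (8 * Real.log N ^ K) ≤ (N : ℝ) ^ (1 / 2 : ℝ) * (N : ℝ) ^ (1 / 2 : ℝ) :=
        mul_le_mul_of_nonneg_left g2 (by positivity)
    _ = N := h6.symm

theorem dens (e1 : ℝ) (he1 : 0 < e1) (he2 : e1 ≤ 1 / 100) (K : ℕ) : ∃ N0 : ℕ, ∀ N : ℕ, N0 ≤ N →
    ∀ (J J1 x l : ℕ) (S T : ℕ → ℝ) (kS kT : ℝ), LevQ N (yN e1 N) J J1 → SvI N (yN e1 N) (1 / 10 ^ 7) S T kS kT →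
    N ≤ 4 * x → x ≤ 4 * N → (x : ℝ) / Real.log N ^ K ≤ l → (l : ℝ) ≤ 4 * x / Real.log N ^ 10 →
      |l * kapA kS (yN e1 N) J x - ∑ m ∈ Ioc x (x + l), rg (zz (yN e1 N) J) m| ≤ (1 / 10 ^ 5) * l / Real.log N ∧
      |l * k1 kS kT (yN e1 N) J J1 x - ∑ m ∈ Ioc x (x + l), rg (zz (yN e1 N) J) m * (om (yN e1 N) J J1 m : ℝ)| ≤
        (1 / 10 ^ 5) * l / Real.log N := by
  obtain ⟨N1, hN1⟩ := mean_b e1 he1 he2 K
  obtain ⟨N2, hN2⟩ := mean_q e1 he1 he2 K
  obtain ⟨N3, hN3⟩ := mean_s K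
  obtain ⟨N4, hN4⟩ := sqp_int e1 he1 3
  obtain ⟨N5, hN5⟩ := om_le4
  obtain ⟨N6, hN6⟩ := Dens_large K
  refine ⟨N1 + N2 + N3 + N4 + N5 + N6 + 1, fun N hN J J1 x l S T kS kT hLev hSv hx1 hx2 hl1 hl2 => ?_⟩
  have hB := hN1 N (by omega) J x l (hLev.2.2.1) (by omega) (by omega) hl1 hl2
  have hQ := hN2 N (by omega) J J1 x l hLev.1 (hLev.2.2.1) (hLev.2.2.2.2) (by omega) (by omega) hl1 hl2
  have hS := hN3 N (by omega) (yN e1 N) J J1 x l S T kS kT hLev hSv (by omega) (by omega) hl1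
  obtain ⟨g1, g2⟩ := hN6 N (by omega)
  obtain ⟨hJ, h1, h2, h3, h4⟩ := hLev
  obtain ⟨-, -, -, -, hint⟩ := hSv
  set L := Real.log N with hL
  set y := yN e1 N with hy
  have hN1' : (1 : ℝ) ≤ N := by exact_mod_cast (by omega : 1 ≤ N)
  have hNpos : (0 : ℝ) < N := by linarith
  have hL0 : 0 < L := by linarith [show (0 : ℝ) < 10 ^ 9 by norm_num]
  have hL1 : 1 ≤ L := by linarith [show (1 : ℝ) ≤ 10 ^ 9 by norm_num]
  have hx1n : 1 ≤ x := by omega
  have hxR : (N : ℝ) ≤ 8 * x := by exact_mod_cast (by omega : N ≤ 8 * x)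
  have hl12 : (N : ℝ) ^ (1 / 2 : ℝ) ≤ l := by
    refine le_trans ?_ hl1
    rw [le_div_iff₀ (by positivity)]
    have e1 : (N : ℝ) ^ (1 / 2 : ℝ) * (8 * L ^ K) = 8 * ((N : ℝ) ^ (1 / 2 : ℝ) * L ^ K) := by ring
    rw [e1] at g2
    linarith
  have hl14 : (N : ℝ) ^ (1 / 4 : ℝ) ≤ l := le_trans (Real.rpow_le_rpow_of_exponent_le hN1' (by norm_num)) hl12
  have hSq := hN4 N (by omega) J x l (h2.trans (Real.rpow_le_rpow_of_exponent_le hN1' (by norm_num))) hl12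
  have hR := (hint x l hx1n (by omega) hl14).1
  have hlx : l ≤ x := by
    have e1 : (4 : ℝ) * x / L ^ 10 ≤ x := by
      rw [div_le_iff₀ (by positivity)]
      have e2 : (4 : ℝ) ≤ L ^ 10 := by
        have : L ^ 1 ≤ L ^ 10 := pow_le_pow_right₀ hL1 (by norm_num)
        rw [pow_one] at this
        linarith [show (4 : ℝ) ≤ 10 ^ 9 by norm_num]
      have e3 : (0 : ℝ) ≤ x := Nat.cast_nonneg x
      calc (4 : ℝ) * x = x * 4 := mul_comm _ _
        _ ≤ x * L ^ 10 := mul_le_mul_of_nonneg_left e2 e3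
    exact_mod_cast hl2.trans e1
  -- pointwise identities
  have hpB : ∀ m ∈ Ioc x (x + l), ∑ j ∈ range J, Fp (bf y J) (2 ^ j * y) m = rg y m - AA y J m := by
    intro m _
    unfold AA
    ring
  have hpQ : ∀ m ∈ Ioc x (x + l), ∑ j ∈ range J, Fp (bq y J J1) (2 ^ j * y) m =
      rg y m - (om y J J1 m : ℝ) * rg y m / 2 - (1 - (om y J J1 m : ℝ) / 2) * AA y J m := by
    intro m hm
    rw [mem_Ioc] at hm
    have h1 := fq_eq (rg y) (rg y) y J J1 m (by omega)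
    unfold Fq at h1
    linarith
  have hAA : ∀ m ∈ Ioc x (x + l), rg (zz y J) m ≤ AA y J m ∧ AA y J m ≤ rg (zz y J) m + sqp y J m := by
    intro m hm
    rw [mem_Ioc] at hm
    refine ⟨?_, aa_le y J m (by omega)⟩
    by_cases hr : ∀ p : ℕ, p.Prime → p ∣ m → zz y J < p
    · rw [aa_one y J m (by omega) hr]
      unfold rg
      rw [if_pos hr]
    · have : rg (zz y J) m = 0 := by
        unfold rg
        rw [if_neg hr]
      rw [this]
      exact aa_nonneg y J m (by omega)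
  have hom : ∀ m ∈ Ioc x (x + l), (om y J J1 m : ℝ) ≤ 4 := by
    intro m hm
    rw [mem_Ioc] at hm
    have e1 := hN5 N (by omega) (zz y J) (zz y J1) m h1 (by omega) (by omega)
    have e2 : om y J J1 m ≤ 4 := e1
    exact_mod_cast e2
  have hsA : |∑ m ∈ Ioc x (x + l), AA y J m - ∑ m ∈ Ioc x (x + l), rg (zz y J) m| ≤ l / L ^ 3 := by
    have e1 : ∑ m ∈ Ioc x (x + l), rg (zz y J) m ≤ ∑ m ∈ Ioc x (x + l), AA y J m := sum_le_sum fun m hm => (hAA m hm).1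
    have e2 : ∑ m ∈ Ioc x (x + l), AA y J m ≤ ∑ m ∈ Ioc x (x + l), rg (zz y J) m + ∑ m ∈ Ioc x (x + l), sqp y J m := by
      rw [← sum_add_distrib]
      exact sum_le_sum fun m hm => (hAA m hm).2
    rw [abs_le]
    have e3 : (0 : ℝ) ≤ l / L ^ 3 := by positivity
    constructor <;> linarith
  have hsO : |∑ m ∈ Ioc x (x + l), (om y J J1 m : ℝ) * AA y J m -
      ∑ m ∈ Ioc x (x + l), rg (zz y J) m * (om y J J1 m : ℝ)| ≤ 4 * (l / L ^ 3) := by
    have e1 : ∑ m ∈ Ioc x (x + l), rg (zz y J) m * (om y J J1 m : ℝ) ≤ ∑ m ∈ Ioc x (x + l), (om y J J1 m : ℝ) * AA y J m := by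
      refine sum_le_sum fun m hm => ?_
      rw [mul_comm]
      exact mul_le_mul_of_nonneg_left (hAA m hm).1 (Nat.cast_nonneg _)
    have e2 : ∑ m ∈ Ioc x (x + l), (om y J J1 m : ℝ) * AA y J m ≤
        ∑ m ∈ Ioc x (x + l), rg (zz y J) m * (om y J J1 m : ℝ) + 4 * ∑ m ∈ Ioc x (x + l), sqp y J m := by
      rw [mul_sum, ← sum_add_distrib]
      refine sum_le_sum fun m hm => ?_
      have a1 := mul_le_mul_of_nonneg_left (hAA m hm).2 (Nat.cast_nonneg (om y J J1 m) : (0 : ℝ) ≤ _)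
      have a2 : 0 ≤ sqp y J m := by
        unfold sqp
        positivity
      have a3 := mul_le_mul_of_nonneg_right (hom m hm) a2
      calc (om y J J1 m : ℝ) * AA y J m ≤ (om y J J1 m : ℝ) * (rg (zz y J) m + sqp y J m) := a1
        _ = rg (zz y J) m * (om y J J1 m : ℝ) + (om y J J1 m : ℝ) * sqp y J m := by ring
        _ ≤ _ := by linarith
    rw [abs_le]
    have e3 : (0 : ℝ) ≤ l / L ^ 3 := by positivity
    constructor <;> linarith
  rw [sum_congr rfl hpB, sum_sub_distrib] at hB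
  rw [sum_congr rfl hpQ, sum_sub_distrib, sum_sub_distrib] at hQ
  have hq2 : ∑ m ∈ Ioc x (x + l), (1 - (om y J J1 m : ℝ) / 2) * AA y J m =
      ∑ m ∈ Ioc x (x + l), AA y J m - (∑ m ∈ Ioc x (x + l), (om y J J1 m : ℝ) * AA y J m) / 2 := by
    rw [sum_div, ← sum_sub_distrib]
    exact sum_congr rfl fun m _ => by ring
  have hq3 : ∑ m ∈ Ioc x (x + l), (om y J J1 m : ℝ) * rg y m / 2 =
      (∑ m ∈ Ioc x (x + l), (om y J J1 m : ℝ) * rg y m) / 2 := by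
    rw [sum_div]
  rw [hq2, hq3] at hQ
  -- error terms
  have er1 : 3 * (l : ℝ) / L ^ 2 ≤ (1 / 10 ^ 8) * l / L := by
    have hl0 : (0 : ℝ) ≤ l := Nat.cast_nonneg l
    rw [div_le_div_iff₀ (by positivity) hL0]
    have e1 : (3 : ℝ) ≤ 1 / 10 ^ 8 * L := by linarith
    have e2 : (0 : ℝ) ≤ l * L := by positivity
    calc 3 * (l : ℝ) * L = l * L * 3 := by ring
      _ ≤ l * L * (1 / 10 ^ 8 * L) := mul_le_mul_of_nonneg_left e1 e2
      _ = 1 / 10 ^ 8 * l * L ^ 2 := by ring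
  have er2 : (l : ℝ) / L ^ 3 ≤ 3 * (l : ℝ) / L ^ 2 := by
    have hl0 : (0 : ℝ) ≤ l := Nat.cast_nonneg l
    rw [div_le_div_iff₀ (by positivity) (by positivity)]
    have e2 : (0 : ℝ) ≤ l * L ^ 2 := by positivity
    have e3 : (1 : ℝ) ≤ 3 * L := by linarith
    calc (l : ℝ) * L ^ 2 = l * L ^ 2 * 1 := (mul_one _).symm
      _ ≤ l * L ^ 2 * (3 * L) := mul_le_mul_of_nonneg_left e3 e2
      _ = 3 * l * L ^ 3 := by ring
  have er3 : (1 / 10 ^ 5) * (l : ℝ) / L = 1000 * ((1 / 10 ^ 8) * l / L) := by ring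
  have er4 : (1 / 10 ^ 6) * (l : ℝ) / L = 100 * ((1 / 10 ^ 8) * l / L) := by ring
  have er5 : (1 / 10 ^ 7) * (l : ℝ) / L = 10 * ((1 / 10 ^ 8) * l / L) := by ring
  rw [er5] at hR
  rw [er4] at hS
  rw [er3]
  set δ := (1 / 10 ^ 8) * (l : ℝ) / L with hδ
  have hδ0 : 0 ≤ δ := by positivity
  rw [abs_le] at hB hQ hS hR hsA hsO
  obtain ⟨B1, B2⟩ := hB
  obtain ⟨Q1, Q2⟩ := hQ
  obtain ⟨S1, S2⟩ := hS
  obtain ⟨R1', R2'⟩ := hR
  obtain ⟨A1, A2⟩ := hsA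
  obtain ⟨O1, O2⟩ := hsO
  constructor
  · unfold kapA
    have e1 : (l : ℝ) * (kS - ∑ j ∈ range J, WK y J (2 ^ j * y) x) = kS * l - l * ∑ j ∈ range J, WK y J (2 ^ j * y) x := by ring
    rw [e1, abs_le]
    constructor <;> linarith
  · unfold k1 kapA kapF
    have e1 : (l : ℝ) * (2 * (kS - ∑ j ∈ range J, WK y J (2 ^ j * y) x -
        (kS - kT * W1 y J J1 / 2 - ∑ j ∈ range J, WQ y J J1 (2 ^ j * y) x))) =
        kT * W1 y J J1 * l - 2 * (l * ∑ j ∈ range J, WK y J (2 ^ j * y) x) +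
          2 * (l * ∑ j ∈ range J, WQ y J J1 (2 ^ j * y) x) := by ring
    rw [e1, abs_le]
    constructor <;> linarith
  

end Pool.Agent.H9.TM

end

section

/-!
# TM Mass7: the mass condition
-/

set_option autoImplicit false

namespace Pool.Agent.H9.TM

open Finset
open Pool.Agent.H76.TP (yN zz rg kapA)
open Pool.Agent.H91.TQ (om)
open Pool.Agent.H31.EQ (gam)
open Pool.Agent.H46.TPQ

private theorem Mass7_rg (z m : ℕ) (h : rou z m) : rg z m = 1 := by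
  unfold rg
  exact if_pos h

private theorem Mass7_rg0 (z m : ℕ) (h : ¬ rou z m) : rg z m = 0 := by
  unfold rg
  exact if_neg h

open Classical in
/-- sums of functions of the number of small primes over the rough numbers -/
private theorem Mass7_sum (z z1 : ℕ) (T : Finset ℕ) (φ : ℕ → ℝ) (hz : z ≤ z1) (hT : ∀ m ∈ T, z1 < m)
    (h4 : ∀ m ∈ T, omz z z1 m ≤ 4) :
    ∑ m ∈ T, rg z m * φ (omz z z1 m) = ((T.filter Nat.Prime).card : ℝ) * φ 0 +
      ∑ k ∈ range 5, ((T.filter (fun m => ¬ m.Prime ∧ rou z m ∧ omz z z1 m = k)).card : ℝ) * φ k := by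
  rw [← sum_filter_add_sum_filter_not T Nat.Prime]
  congr 1
  · rw [← nsmul_eq_mul, ← sum_const]
    refine sum_congr rfl fun m hm => ?_
    rw [mem_filter] at hm
    have hr : rou z m := by
      intro p hp hpm
      rw [(Nat.prime_dvd_prime_iff_eq hp hm.2).1 hpm]
      exact lt_of_le_of_lt hz (hT m hm.1)
    have h0 : omz z z1 m = 0 := by
      unfold omz
      rw [Nat.Prime.primeFactors hm.2, card_eq_zero, filter_eq_empty_iff]
      intro p hp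
      rw [mem_singleton] at hp
      rw [hp]
      have := hT m hm.1
      omega
    rw [Mass7_rg z m hr, h0, one_mul]
  · have h1 : ∀ m ∈ T.filter (fun m => ¬ m.Prime), rg z m * φ (omz z z1 m) =
        ∑ k ∈ range 5, if rou z m ∧ omz z z1 m = k then φ k else 0 := by
      intro m hm
      rw [mem_filter] at hm
      by_cases hr : rou z m
      · have h2 : omz z z1 m ∈ range 5 := by
          rw [mem_range]
          have := h4 m hm.1
          omega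
        have h3 : ∀ k ∈ range 5, (if rou z m ∧ omz z z1 m = k then φ k else 0) =
            if omz z z1 m = k then φ k else 0 := by
          intro k _
          by_cases hk : omz z z1 m = k
          · rw [if_pos ⟨hr, hk⟩, if_pos hk]
          · rw [if_neg (fun h => hk h.2), if_neg hk]
        rw [sum_congr rfl h3, sum_ite_eq, if_pos h2, Mass7_rg z m hr, one_mul]
      · rw [Mass7_rg0 z m hr, zero_mul]
        symm
        refine sum_eq_zero fun k _ => ?_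
        rw [if_neg (fun h => hr h.1)]
    rw [sum_congr rfl h1, sum_comm]
    refine sum_congr rfl fun k _ => ?_
    rw [← sum_filter, sum_const, nsmul_eq_mul, filter_filter]

/-- facts for large `N` -/
private theorem Mass7_large (A1 : ℕ) : ∃ N0 : ℕ, ∀ N : ℕ, N0 ≤ N → (10 : ℝ) ^ 9 ≤ Real.log N ∧
    8 * Real.log N ^ A1 ≤ N ∧ 16 * (N : ℝ) ^ (1527 / 5000 : ℝ) ≤ N ∧ (N : ℝ) ^ (1 / 4 : ℝ) * (2 * Real.log N ^ A1) ≤ N := by
  obtain ⟨x1, hx1⟩ := Pool.Agent.H76.GB.log_ge (10 ^ 9)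
  obtain ⟨x2, hx2⟩ := Pool.Agent.H76.GB.log_pow_le 1 8 (by norm_num) (by norm_num) A1
  obtain ⟨x3, hx3⟩ := Pool.Agent.H76.GB.log_pow_le (3473 / 5000) 16 (by norm_num) (by norm_num) 0
  obtain ⟨x4, hx4⟩ := Pool.Agent.H76.GB.log_pow_le (3 / 4) 2 (by norm_num) (by norm_num) A1
  refine ⟨x1 + x2 + x3 + x4 + 1, fun N hN => ?_⟩
  have g1 := hx1 N (by omega)
  have g2 := hx2 N (by omega)
  have g3 := hx3 N (by omega)
  have g4 := hx4 N (by omega)
  have hNpos : (0 : ℝ) < N := by exact_mod_cast (by omega : 0 < N)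
  rw [Real.rpow_one] at g2
  rw [pow_zero, mul_one] at g3
  refine ⟨g1, g2, ?_, ?_⟩
  · have h6 : (N : ℝ) = (N : ℝ) ^ (3473 / 5000 : ℝ) * (N : ℝ) ^ (1527 / 5000 : ℝ) := by
      rw [← Real.rpow_add hNpos]
      have : (3473 / 5000 : ℝ) + 1527 / 5000 = 1 := by norm_num
      rw [this, Real.rpow_one]
    calc 16 * (N : ℝ) ^ (1527 / 5000 : ℝ) ≤ (N : ℝ) ^ (3473 / 5000 : ℝ) * (N : ℝ) ^ (1527 / 5000 : ℝ) :=
          mul_le_mul_of_nonneg_right g3 (by positivity)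
      _ = N := h6.symm
  · have h6 : (N : ℝ) = (N : ℝ) ^ (1 / 4 : ℝ) * (N : ℝ) ^ (3 / 4 : ℝ) := by
      rw [← Real.rpow_add hNpos]
      have : (1 / 4 : ℝ) + 3 / 4 = 1 := by norm_num
      rw [this, Real.rpow_one]
    calc (N : ℝ) ^ (1 / 4 : ℝ) * (2 * Real.log N ^ A1) ≤ (N : ℝ) ^ (1 / 4 : ℝ) * (N : ℝ) ^ (3 / 4 : ℝ) :=
          mul_le_mul_of_nonneg_left g4 (by positivity)
      _ = N := h6.symm

open Classical in
theorem mass7 : MASS7 := by
  intro e1 A1 he1 he2 hA1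
  obtain ⟨N1, hN1⟩ := dens e1 he1 he2 (A1 + 1)
  obtain ⟨N2, hN2⟩ := pr_int (A1 + 1) (1 / 10 ^ 5) (by norm_num)
  obtain ⟨N3, hN3⟩ := zero_le (A1 + 1)
  obtain ⟨N4, hN4⟩ := cnt_one (A1 + 1)
  obtain ⟨N5, hN5⟩ := cnt_two (A1 + 1)
  obtain ⟨N6, hN6⟩ := cnt_three (A1 + 1)
  obtain ⟨N7, hN7⟩ := om_le4
  obtain ⟨N8, hN8⟩ := Mass7_large A1
  refine ⟨N1 + N2 + N3 + N4 + N5 + N6 + N7 + N8 + 1, fun N hN J J1 S T kS kT hLev hSv x hx1 hx2 => ?_⟩
  obtain ⟨g1, g2, g3, g4⟩ := hN8 N (by omega)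
  have hdens := hN1 N (by omega) J J1 x ⌊(N : ℝ) / Real.log N ^ A1⌋₊ S T kS kT hLev hSv hx1 hx2
  have hpr := hN2 N (by omega) x ⌊(N : ℝ) / Real.log N ^ A1⌋₊ (by omega) (by omega)
  obtain ⟨hJ, h1, h2, h3, h4⟩ := hLev
  obtain ⟨-, -, -, hkST, hint⟩ := hSv
  set L := Real.log N with hL
  set y := yN e1 N with hy
  set l : ℕ := ⌊(N : ℝ) / L ^ A1⌋₊ with hl
  set z := zz y J with hz
  set z1 := zz y J1 with hz1
  have hN1' : (1 : ℝ) ≤ N := by exact_mod_cast (by omega : 1 ≤ N)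
  have hNpos : (0 : ℝ) < N := by linarith only [he1, he2, hN1']
  have h109 : (1000 : ℝ) ≤ 10 ^ 9 := by norm_num
  have hL0 : 0 < L := by linarith only [he1, he2, g1]
  have hL1 : 1 ≤ L := by linarith only [he1, he2, g1]
  have hLA : 0 < L ^ A1 := by positivity
  have hxR1 : (N : ℝ) ≤ 4 * x := by exact_mod_cast hx1
  have hxR2 : (x : ℝ) ≤ 4 * N := by exact_mod_cast hx2
  have hx0 : (0 : ℝ) < x := by linarith only [he1, he2, hN1', hxR1]
  -- the length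
  have hlu : (l : ℝ) ≤ N / L ^ A1 := Nat.floor_le (by positivity)
  have hll : (N : ℝ) / L ^ A1 / 2 ≤ l := by
    have e1 : (N : ℝ) / L ^ A1 < l + 1 := Nat.lt_floor_add_one _
    have e2 : (8 : ℝ) ≤ N / L ^ A1 := by
      rw [le_div_iff₀ hLA]
      exact g2
    linarith only [he1, he2, e1, e2]
  have hl1 : (x : ℝ) / L ^ (A1 + 1) ≤ l := by
    refine le_trans ?_ hll
    rw [pow_succ, div_div (N : ℝ), div_le_div_iff₀ (by positivity) (by positivity)]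
    have e1 : (x : ℝ) * 2 ≤ N * L := by
      have : (N : ℝ) * 8 ≤ N * L := mul_le_mul_of_nonneg_left (by linarith only [he1, he2, g1]) hNpos.le
      linarith only [hxR2, this]
    calc (x : ℝ) * (L ^ A1 * 2) = x * 2 * L ^ A1 := by ring
      _ ≤ N * L * L ^ A1 := mul_le_mul_of_nonneg_right e1 hLA.le
      _ = N * (L ^ A1 * L) := by ring
  have hl2 : (l : ℝ) ≤ 4 * x / L ^ 10 := by
    refine hlu.trans ?_
    have e1 : L ^ 10 ≤ L ^ A1 := pow_le_pow_right₀ hL1 hA1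
    calc (N : ℝ) / L ^ A1 ≤ 4 * x / L ^ A1 := by gcongr
      _ ≤ 4 * x / L ^ 10 := by gcongr
  have hlx : l ≤ x := by
    have e1 : (4 : ℝ) * x / L ^ 10 ≤ x := by
      rw [div_le_iff₀ (by positivity)]
      have e2 : (4 : ℝ) ≤ L ^ 10 := by
        have : L ^ 1 ≤ L ^ 10 := pow_le_pow_right₀ hL1 (by norm_num)
        rw [pow_one] at this
        linarith only [he1, he2, g1, this]
      calc (4 : ℝ) * x = x * 4 := mul_comm _ _
        _ ≤ x * L ^ 10 := mul_le_mul_of_nonneg_left e2 hx0.le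
    exact_mod_cast hl2.trans e1
  have hl0 : (0 : ℝ) < l := by
    have e2 : (0 : ℝ) < N / L ^ A1 := by positivity
    linarith only [hll, e2]
  obtain ⟨D1, D2⟩ := hdens hl1 hl2
  have hP := hpr hl1 hlx
  have hx8 : N ≤ 8 * x := by omega
  have hx88 : x ≤ 8 * N := by omega
  have hzz1 : z ≤ z1 := by
    rw [hz, hz1]
    unfold zz
    exact Nat.mul_le_mul_right _ (Nat.pow_le_pow_right (by norm_num) hJ)
  have c0 := hN3 N (by omega) z z1 x l h1 hzz1 h3 h4 hx8 hx88 hl1 hlx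
  have c1 := hN4 N (by omega) z z1 x l h1 h3 h4 hx8 hx88 hl1 hlx
  have c2 := hN5 N (by omega) z z1 x l h1 h3 h4 hx8 hx88 hl1 hlx
  have c3 := hN6 N (by omega) z z1 x l h1 h3 h4 hx8 hx88 hl1 hlx
  -- the members of the interval
  have hTz : ∀ m ∈ Ioc x (x + l), z1 < m := by
    intro m hm
    rw [mem_Ioc] at hm
    have e1 : (z1 : ℝ) < m := by
      have e2 : (x : ℝ) < m := by exact_mod_cast hm.1
      have e3 : (0 : ℝ) ≤ (N : ℝ) ^ (1527 / 5000 : ℝ) := by positivity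
      linarith only [he1, he2, g3, h4, hN1', hxR1, e2]
    exact_mod_cast e1
  have hT4 : ∀ m ∈ Ioc x (x + l), omz z z1 m ≤ 4 := by
    intro m hm
    rw [mem_Ioc] at hm
    exact hN7 N (by omega) z z1 m h1 (by omega) (by omega)
  have hsum := fun φ => Mass7_sum z z1 (Ioc x (x + l)) φ hzz1 hTz hT4
  obtain ⟨n, hn⟩ : ∃ n : ℕ → ℝ, ∀ k, n k = (((Ioc x (x + l)).filter (fun m => ¬ m.Prime ∧ rou z m ∧ omz z z1 m = k)).card : ℝ) :=
    ⟨fun k => (((Ioc x (x + l)).filter (fun m => ¬ m.Prime ∧ rou z m ∧ omz z z1 m = k)).card : ℝ), fun _ => rfl⟩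
  obtain ⟨P, hPdef⟩ : ∃ P : ℝ, P = (((Ioc x (x + l)).filter Nat.Prime).card : ℝ) := ⟨_, rfl⟩
  have hsum' : ∀ φ : ℕ → ℝ, ∑ m ∈ Ioc x (x + l), rg z m * φ (omz z z1 m) =
      P * φ 0 + (n 0 * φ 0 + n 1 * φ 1 + n 2 * φ 2 + n 3 * φ 3 + n 4 * φ 4) := by
    intro φ
    rw [hsum φ, hPdef]
    simp only [← hn, sum_range_succ, sum_range_zero, zero_add]
  have hn0 : ∀ k, 0 ≤ n k := by
    intro k
    rw [hn]
    exact Nat.cast_nonneg _
  have hom : ∀ m, om y J J1 m = omz z z1 m := fun m => rfl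
  -- the four sums
  have s1 : ∑ m ∈ Ioc x (x + l), rg z m = P + (n 0 + n 1 + n 2 + n 3 + n 4) := by
    have := hsum' (fun _ => 1)
    simp only [mul_one] at this
    exact this
  have s2 : ∑ m ∈ Ioc x (x + l), rg z m * (om y J J1 m : ℝ) = n 1 + 2 * n 2 + 3 * n 3 + 4 * n 4 := by
    have := hsum' (fun k => (k : ℝ))
    refine this.trans ?_
    push_cast
    ring
  have s3 : ∑ m ∈ Ioc x (x + l), ee0 y J J1 m = n 2 + 2 * n 3 + 3 * n 4 := by
    have := hsum' e0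
    refine this.trans ?_
    have k0 : e0 0 = 0 := by unfold e0; rw [if_pos rfl]
    have k1' : e0 1 = 0 := by unfold e0; rw [if_neg (by norm_num)]; norm_num
    have k2 : e0 2 = 1 := by unfold e0; rw [if_neg (by norm_num)]; norm_num
    have k3 : e0 3 = 2 := by unfold e0; rw [if_neg (by norm_num)]; norm_num
    have k4 : e0 4 = 3 := by unfold e0; rw [if_neg (by norm_num)]; norm_num
    rw [k0, k1', k2, k3, k4]
    ring
  have s4 : ∑ m ∈ Ioc x (x + l), gg0 y J J1 m = 3 / 4 * n 2 + 4 / 3 * n 3 + 15 / 8 * n 4 := by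
    have := hsum' g0
    refine this.trans ?_
    have k0 : g0 0 = 0 := by unfold g0; rw [if_pos rfl]
    have k1' : g0 1 = 0 := by unfold g0; rw [if_neg (by norm_num)]; norm_num
    have k2 : g0 2 = 3 / 4 := by unfold g0; rw [if_neg (by norm_num)]; norm_num
    have k3 : g0 3 = 4 / 3 := by unfold g0; rw [if_neg (by norm_num)]; norm_num
    have k4 : g0 4 = 15 / 8 := by unfold g0; rw [if_neg (by norm_num)]; norm_num
    rw [k0, k1', k2, k3, k4]
    ring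
  have c34 : n 3 + n 4 ≤ (41 / 10000) * l / L := by
    refine le_trans ?_ c3
    rw [hn, hn]
    have e1 : Disjoint ((Ioc x (x + l)).filter (fun m => ¬ m.Prime ∧ rou z m ∧ omz z z1 m = 3))
        ((Ioc x (x + l)).filter (fun m => ¬ m.Prime ∧ rou z m ∧ omz z z1 m = 4)) := by
      rw [disjoint_left]
      intro m hm1 hm2
      rw [mem_filter] at hm1 hm2
      have a1 := hm1.2.2.2
      have a2 := hm2.2.2.2
      omega
    have e2 : ((Ioc x (x + l)).filter (fun m => ¬ m.Prime ∧ rou z m ∧ omz z z1 m = 3)) ∪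
        ((Ioc x (x + l)).filter (fun m => ¬ m.Prime ∧ rou z m ∧ omz z z1 m = 4)) ⊆
        (Ioc x (x + l)).filter (fun m => ¬ m.Prime ∧ rou z m ∧ 3 ≤ omz z z1 m) := by
      intro m hm
      rw [mem_union, mem_filter, mem_filter] at hm
      rw [mem_filter]
      rcases hm with ⟨hm1, hm2, hm3, hm4⟩ | ⟨hm1, hm2, hm3, hm4⟩
      · exact ⟨hm1, hm2, hm3, by omega⟩
      · exact ⟨hm1, hm2, hm3, by omega⟩
    have e3 := card_le_card e2
    rw [card_union_of_disjoint e1] at e3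
    exact_mod_cast e3
  rw [← hn] at c0 c1 c2
  rw [← hPdef] at hP
  -- normalization
  obtain ⟨r, hr⟩ : ∃ r : ℝ, r = L / l := ⟨_, rfl⟩
  have hr0 : 0 < r := by rw [hr]; positivity
  have hrl : ∀ c : ℝ, c * l / L * r = c := by
    intro c
    rw [hr]
    field_simp
  have hrl2 : (l : ℝ) / L * r = 1 := by
    rw [hr]
    field_simp
  have hrl3 : (l : ℝ) * r = L := by
    rw [hr]
    field_simp
  have b0 : n 0 * r ≤ 8388 / 10000 := by
    have := mul_le_mul_of_nonneg_right c0 hr0.le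
    rwa [hrl] at this
  have b1 : n 1 * r ≤ 5885 / 10000 := by
    have := mul_le_mul_of_nonneg_right c1 hr0.le
    rwa [hrl] at this
  have b2 : n 2 * r ≤ 1103 / 10000 := by
    have := mul_le_mul_of_nonneg_right c2 hr0.le
    rwa [hrl] at this
  have b3 : n 3 * r + n 4 * r ≤ 41 / 10000 := by
    have := mul_le_mul_of_nonneg_right c34 hr0.le
    rw [hrl] at this
    linarith only [this]
  have bP : |P * r - 1| ≤ 1 / 10 ^ 5 := by
    have e1 : P * r - 1 = (P - l / L) * r := by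
      rw [sub_mul, hrl2]
    rw [e1, abs_mul, abs_of_pos hr0]
    have := mul_le_mul_of_nonneg_right hP hr0.le
    rwa [hrl] at this
  have bα : |L * kapA kS y J x - (1 + n 0 * r + n 1 * r + n 2 * r + n 3 * r + n 4 * r)| ≤ 2 / 10 ^ 5 := by
    rw [s1] at D1
    have e1 : |L * kapA kS y J x - (P * r + (n 0 * r + n 1 * r + n 2 * r + n 3 * r + n 4 * r))| ≤ 1 / 10 ^ 5 := by
      have e2 : L * kapA kS y J x - (P * r + (n 0 * r + n 1 * r + n 2 * r + n 3 * r + n 4 * r)) =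
          (l * kapA kS y J x - (P + (n 0 + n 1 + n 2 + n 3 + n 4))) * r := by
        rw [← hrl3]
        ring
      rw [e2, abs_mul, abs_of_pos hr0]
      have := mul_le_mul_of_nonneg_right D1 hr0.le
      rwa [hrl] at this
    rw [abs_le] at e1 bP ⊢
    constructor <;> linarith only [bP, e1, e1.1, e1.2, bP.1, bP.2]
  have bω : |L * k1 kS kT y J J1 x - (n 1 * r + 2 * (n 2 * r) + 3 * (n 3 * r) + 4 * (n 4 * r))| ≤ 2 / 10 ^ 5 := by
    rw [s2] at D2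
    have e1 : |L * k1 kS kT y J J1 x - (n 1 * r + 2 * (n 2 * r) + 3 * (n 3 * r) + 4 * (n 4 * r))| ≤ 1 / 10 ^ 5 := by
      have e2 : L * k1 kS kT y J J1 x - (n 1 * r + 2 * (n 2 * r) + 3 * (n 3 * r) + 4 * (n 4 * r)) =
          (l * k1 kS kT y J J1 x - (n 1 + 2 * n 2 + 3 * n 3 + 4 * n 4)) * r := by
        rw [← hrl3]
        ring
      rw [e2, abs_mul, abs_of_pos hr0]
      have := mul_le_mul_of_nonneg_right D2 hr0.le
      rwa [hrl] at this
    linarith only [he1, he2, e1, show (1 : ℝ) / 10 ^ 5 ≤ 2 / 10 ^ 5 by norm_num]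
  have hgE : L * gam (ee0 y J J1) l x = n 2 * r + 2 * (n 3 * r) + 3 * (n 4 * r) := by
    unfold gam
    rw [s3, hr]
    ring
  have hgG : L * gam (gg0 y J J1) l x = 3 / 4 * (n 2 * r) + 4 / 3 * (n 3 * r) + 15 / 8 * (n 4 * r) := by
    unfold gam
    rw [s4, hr]
    ring
  have hκ0 : 0 ≤ L * (kS - kT) := mul_nonneg hL0.le (by linarith only [hkST])
  have hl14 : (N : ℝ) ^ (1 / 4 : ℝ) ≤ l := by
    refine le_trans ?_ hll
    rw [div_div, le_div_iff₀ (by positivity), mul_comm (L ^ A1)]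
    exact g4
  have hκ : L * (kS - kT) ≤ 1 / 10 ^ 6 := by
    obtain ⟨t1, t2⟩ := hint x l (by omega) (by omega) hl14
    rw [abs_le] at t1 t2
    have e1 : (kS - kT) * l ≤ 2 / 10 ^ 7 * l / L := by
      have e2 : 2 / 10 ^ 7 * (l : ℝ) / L = 1 / 10 ^ 7 * l / L + 1 / 10 ^ 7 * l / L := by ring
      rw [e2]
      linarith only [t1, t2, t1.2, t2.1]
    have e3 := mul_le_mul_of_nonneg_right e1 hr0.le
    rw [hrl] at e3
    have e4 : (kS - kT) * l * r = L * (kS - kT) := by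
      rw [mul_assoc, hrl3]
      ring
    rw [e4] at e3
    refine e3.trans (by norm_num)
  have hgp : |L * (1 / Real.log x) - 1| ≤ 1 / 10 ^ 4 := by
    have hlog4 : Real.log 4 ≤ 3 := by
      have := Real.log_le_sub_one_of_pos (show (0 : ℝ) < 4 by norm_num)
      linarith only [this]
    have e1 : Real.log x ≤ L + 3 := by
      have : Real.log x ≤ Real.log (4 * N) := Real.log_le_log hx0 hxR2
      rw [Real.log_mul (by norm_num) hNpos.ne'] at this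
      linarith only [hlog4, this]
    have e2 : L - 3 ≤ Real.log x := by
      have : Real.log N ≤ Real.log (4 * x) := Real.log_le_log hNpos hxR1
      rw [Real.log_mul (by norm_num) hx0.ne'] at this
      linarith only [hlog4, this]
    have hlx0 : 0 < Real.log x := by linarith only [he1, he2, g1, e2]
    rw [mul_one_div, abs_le]
    constructor
    · rw [le_sub_iff_add_le, le_div_iff₀ hlx0]
      have : (-(1 / 10 ^ 4) + 1 : ℝ) * Real.log x ≤ (-(1 / 10 ^ 4) + 1) * (L + 3) :=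
        mul_le_mul_of_nonneg_left e1 (by norm_num)
      norm_num at this ⊢
      linarith only [he1, he2, g1, e1]
    · rw [sub_le_iff_le_add, div_le_iff₀ hlx0]
      have : (1 / 10 ^ 4 + 1 : ℝ) * (L - 3) ≤ (1 / 10 ^ 4 + 1) * Real.log x :=
        mul_le_mul_of_nonneg_left e2 (by norm_num)
      norm_num at this ⊢
      linarith only [he1, he2, g1, e2]
  have a0 := mul_nonneg (hn0 0) hr0.le
  have a1 := mul_nonneg (hn0 1) hr0.le
  have a2 := mul_nonneg (hn0 2) hr0.le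
  have a3 := mul_nonneg (hn0 3) hr0.le
  have a4 := mul_nonneg (hn0 4) hr0.le
  have hmain := poly_pert (n 0 * r) (n 1 * r) (n 2 * r) (n 3 * r) (n 4 * r) (L * (1 / Real.log x)) (L * kapA kS y J x)
    (L * k1 kS kT y J J1 x) (L * (kS - kT)) a0 a1 a2 a3 a4 b0 b1 b2 b3 hgp bα bω hκ0 hκ
  rw [← hgE, ← hgG] at hmain
  refine ⟨?_, ?_, ?_⟩
  · rw [abs_le] at bα
    have e1 : |L * kapA kS y J x| ≤ L * 1 := by
      rw [abs_le]
      constructor <;> linarith only [he1, he2, g1, bα, a0, a1, a2, a3, a4, b0, b1, b2, b3, bα.1, bα.2, show (2 : ℝ) / 10 ^ 5 ≤ 1 by norm_num]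
    rw [abs_mul, abs_of_pos hL0] at e1
    exact le_of_mul_le_mul_left e1 hL0
  · rw [abs_le] at bω
    have e1 : |L * k1 kS kT y J J1 x| ≤ L * 1 := by
      rw [abs_le]
      constructor <;> linarith only [he1, he2, g1, bω, a1, a2, a3, a4, b1, b2, b3, bω.1, bω.2, show (2 : ℝ) / 10 ^ 5 ≤ 1 by norm_num]
    rw [abs_mul, abs_of_pos hL0] at e1
    exact le_of_mul_le_mul_left e1 hL0
  · rw [div_le_iff₀ (by positivity)]
    refine hmain.trans (le_of_eq ?_)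
    unfold MM
    ring

end Pool.Agent.H9.TM

end
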