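import Pool.Agent.H43.PJ.M52
import Pool.Agent.H43.PJ.M65

/-! The parts of this file: H43.TS.Pr, H43.TS.Mp, H46.TPQ.CertFin. -/

section

/-!
# TS Pr: the main term of the indicator of the primes, density `1/log(iH)`

Outside the `n` with a proper prime power at distance `≤ 2H`: `pr m = Λ(m)/log m` in the windows, and `|log m - log(iH)| ≤ 2/(i-1)`.
-/

set_option autoImplicit false

namespace Pool.Agent.H43.TS

open Finset
open Pool.Agent.H91.PK (ee)
open Pool.Agent.H91.EHA (Lam lamR ramS)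
open Pool.Agent.H43.MP (blk Hn idx Rn badP HUX)
open Pool.Agent.H43.TP (rf Fh badF pr ppX badN)
open Pool.Agent.H76.GB (SR)

theorem lamR_abs (R n : ℕ) : |lamR R n| ≤ R := by
  have hcard : ∀ r : ℕ, 1 ≤ r → (((Icc 1 r).filter (fun b => Nat.Coprime b r)).card : ℝ) = r.totient := by
    intro r _
    have h := Nat.filter_coprime_Ico_eq_totient r 1
    rw [← h]
    congr 2
    ext b
    simp only [mem_filter, mem_Icc, mem_Ico]
    constructor
    · rintro ⟨⟨h1, h2⟩, h3⟩
      exact ⟨⟨h1, by omega⟩, h3.symm⟩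
    · rintro ⟨⟨h1, h2⟩, h3⟩
      exact ⟨⟨h1, by omega⟩, h3.symm⟩
  unfold lamR
  refine (abs_sum_le_sum_abs _ _).trans ?_
  calc ∑ c ∈ Icc 1 R, |(ArithmeticFunction.moebius c : ℝ) / (c.totient : ℝ) * ramS c n|
      ≤ ∑ _c ∈ Icc 1 R, (1 : ℝ) := by
        refine sum_le_sum fun c hc => ?_
        rw [mem_Icc] at hc
        have hφ : (0 : ℝ) < c.totient := by
          exact_mod_cast Nat.totient_pos.mpr hc.1
        have h1 := Pool.Agent.H91.EHA.ramS_eq c n hc.1
        have h2 : |ramS c n| ≤ c.totient := by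
          rw [← Real.norm_eq_abs, ← Complex.norm_real, h1]
          refine (norm_sum_le _ _).trans ?_
          simp only [Pool.Agent.H91.PK.LSa_norm_ee, sum_const, nsmul_eq_mul, mul_one]
          exact (hcard c hc.1).le
        rw [abs_mul, abs_div, abs_of_pos hφ]
        have h3 : |(ArithmeticFunction.moebius c : ℝ)| ≤ 1 := by
          exact_mod_cast ArithmeticFunction.abs_moebius_le_one
        calc |(ArithmeticFunction.moebius c : ℝ)| / c.totient * |ramS c n| ≤ 1 / c.totient * c.totient :=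
              mul_le_mul (div_le_div_of_nonneg_right h3 hφ.le) h2 (abs_nonneg _) (by positivity)
          _ = 1 := by field_simp
    _ = R := by simp

/-- `|log m - log(iH)| ≤ 2/(i-1)` near the block -/
private theorem Pr_log (H i m : ℕ) (hH : 1 ≤ H) (hi : 2 ≤ i) (h1 : (i - 1) * H ≤ m) (h2 : m ≤ (i + 2) * H) :
    |Real.log m - Real.log ((i * H : ℕ) : ℝ)| ≤ 2 / ((i - 1 : ℕ) : ℝ) := by
  obtain ⟨j, rfl⟩ : ∃ j, i = j + 1 := ⟨i - 1, by omega⟩
  rw [Nat.add_sub_cancel] at h1 ⊢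
  have hj : 1 ≤ j := by omega
  have hj0 : (0 : ℝ) < j := by exact_mod_cast hj
  have hH0 : (0 : ℝ) < H := by exact_mod_cast hH
  have hjH : (0 : ℝ) < j * H := by positivity
  have hm : (j : ℝ) * H ≤ m := by exact_mod_cast h1
  have hm2 : (m : ℝ) ≤ (j + 1 + 2) * H := by exact_mod_cast h2
  have hm0 : (0 : ℝ) < m := lt_of_lt_of_le hjH hm
  push_cast
  have hx0 : (0 : ℝ) < ((j : ℝ) + 1) * H := by positivity
  rw [abs_le]
  constructor
  · have e1 : Real.log (((j : ℝ) + 1) * H) - Real.log m = Real.log (((j + 1) * H) / m) := by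
      rw [Real.log_div hx0.ne' hm0.ne']
    have e2 := Real.log_le_sub_one_of_pos (show 0 < (((j : ℝ) + 1) * H) / m by positivity)
    have e3 : (((j : ℝ) + 1) * H) / m - 1 ≤ 2 / j := by
      rw [sub_le_iff_le_add, div_le_iff₀ hm0]
      have : (2 / (j : ℝ) + 1) * m ≥ (2 / (j : ℝ) + 1) * (j * H) :=
        mul_le_mul_of_nonneg_left hm (by positivity)
      have e4 : (2 / (j : ℝ) + 1) * (j * H) = 2 * H + j * H := by
        field_simp
      nlinarith only [hH0, this, e4]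
    linarith only [e1, e2, e3]
  · have e1 : Real.log m - Real.log (((j : ℝ) + 1) * H) = Real.log (m / ((j + 1) * H)) := by
      rw [Real.log_div hm0.ne' hx0.ne']
    have e2 := Real.log_le_sub_one_of_pos (show 0 < (m : ℝ) / ((j + 1) * H) by positivity)
    have e3 : (m : ℝ) / ((j + 1) * H) - 1 ≤ 2 / j := by
      rw [sub_le_iff_le_add, div_le_iff₀ hx0]
      have e4 : (2 / (j : ℝ) + 1) * ((j + 1) * H) = (j + 1) * H + 2 * H + 2 / j * H := by
        field_simp
        ring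
      have e5 : 0 ≤ 2 / (j : ℝ) * H := by positivity
      nlinarith only [hm2, e4, e5]
    linarith only [e1, e2, e3]

/-- `|1_P(m) - Λ(m)/ℓ| ≤ ε` -/
private theorem Pr_pt (m : ℕ) (ℓ ε : ℝ) (hℓ : 1 ≤ ℓ) (hε : 0 ≤ ε) (h : |Real.log m - ℓ| ≤ ε)
    (hm : ¬ (IsPrimePow m ∧ ¬ m.Prime)) : |pr m - Lam m / ℓ| ≤ ε := by
  have hℓ0 : 0 < ℓ := by linarith
  unfold pr Lam
  split_ifs with hp
  · rw [ArithmeticFunction.vonMangoldt_apply_prime hp]
    have e : (1 : ℝ) - Real.log m / ℓ = (ℓ - Real.log m) / ℓ := by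
      field_simp
    rw [e, abs_div, abs_of_pos hℓ0, abs_sub_comm, div_le_iff₀ hℓ0]
    nlinarith only [h, hℓ, hε]
  · rw [ArithmeticFunction.vonMangoldt_apply, if_neg]
    · simpa using hε
    · intro h1
      exact hm ⟨h1, hp⟩

theorem badM_pr (θ θ' : ℝ) (h0 : 0 < θ') (h01 : θ' < θ) (h1 : θ < 1 / 3) (hx : HUX θ') (A B D : ℕ) :
    ∃ N0 : ℕ, ∀ N : ℕ, N0 ≤ N →
      ((badM N (Hn θ N) (Rn B N) D pr (fun i => 1 / Real.log ((i * Hn θ N : ℕ) : ℝ))).card : ℝ) ≤
        (N : ℝ) / Real.log N ^ A := by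
  classical
  have h0θ : 0 < θ := h0.trans h01
  obtain ⟨N2, hP⟩ := Pool.Agent.H43.TP.badP_card3 θ θ' h0 h01 h1 hx (A + B + D + 2) B
  obtain ⟨N3, hBN⟩ := Pool.Agent.H43.TP.badN_card θ θ' h0 h01 h1 hx (A + B + D + 2) B
  obtain ⟨N4, hE⟩ := Pool.Agent.H43.TP.ev_large θ 1 h0θ h1 one_pos le_rfl B
  obtain ⟨N5, hpp⟩ := Pool.Agent.H43.TP.ppX_card θ h0θ h1.le (A + 1)
  obtain ⟨N6, hlp⟩ := Pool.Agent.H76.GB.log_pow_le (2 / 3) 16 (by norm_num) (by norm_num) (B + D + 1)
  refine ⟨max (max N2 N3) (max (max N4 N5) N6), fun N hN => ?_⟩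
  simp only [max_le_iff] at hN
  obtain ⟨⟨hn2, hn3⟩, ⟨hn4, hn5⟩, hn6⟩ := hN
  replace hP := hP N hn2
  replace hBN := hBN N hn3
  obtain ⟨f1, f2, f3, f4, f5, f6, f7, f8, -, -, -⟩ := hE N hn4
  replace hpp := hpp N hn5
  replace hlp := hlp N hn6
  rw [one_mul] at f1
  set L := Real.log N with hLdef
  set H := Hn θ N with hHdef
  set R := Rn B N with hRdef
  have hN0 : N ≠ 0 := by
    rintro rfl
    rw [hLdef] at f1
    norm_num at f1
  have hN1 : (1 : ℝ) ≤ N := by exact_mod_cast Nat.one_le_iff_ne_zero.2 hN0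
  have hNpos : (0 : ℝ) < N := by linarith only [h0, h01, h1, hN1]
  have hL0 : 0 < L := by linarith only [h0, h01, h1, f1]
  have hL1 : 1 ≤ L := by linarith only [h0, h01, h1, f1]
  have hH0 : (0 : ℝ) < H := by exact_mod_cast f3
  -- `16 H L^(B+D+1) ≤ N`
  have hsmall : 16 * (H : ℝ) * L ^ (B + D + 1) ≤ N := by
    have t0 : (H : ℝ) ≤ (N : ℝ) ^ θ := Nat.floor_le (by positivity)
    have t1 : (N : ℝ) ^ θ ≤ (N : ℝ) ^ (1 / 3 : ℝ) := Real.rpow_le_rpow_of_exponent_le hN1 h1.le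
    have t2 : (N : ℝ) = (N : ℝ) ^ (1 / 3 : ℝ) * (N : ℝ) ^ (2 / 3 : ℝ) := by
      rw [← Real.rpow_add hNpos]
      norm_num
    rw [t2]
    calc 16 * (H : ℝ) * L ^ (B + D + 1) = H * (16 * L ^ (B + D + 1)) := by ring
      _ ≤ (N : ℝ) ^ (1 / 3 : ℝ) * (N : ℝ) ^ (2 / 3 : ℝ) :=
          mul_le_mul (t0.trans t1) hlp (by positivity) (by positivity)
  set A1 := A + B + D + 2 with hA1
  have hRT : (R : ℝ) * ((H : ℝ) / L ^ A1) ≤ H / L ^ (D + 1) := by
    have t1 : (R : ℝ) * ((H : ℝ) / L ^ A1) ≤ L ^ B * ((H : ℝ) / L ^ A1) :=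
      mul_le_mul_of_nonneg_right f8 (by positivity)
    refine t1.trans ?_
    rw [mul_div_assoc', div_le_div_iff₀ (by positivity) (by positivity)]
    have t3 : L ^ B * L ^ (D + 1) ≤ L ^ A1 := by
      rw [← pow_add]
      exact pow_le_pow_right₀ hL1 (by omega)
    calc L ^ B * H * L ^ (D + 1) = H * (L ^ B * L ^ (D + 1)) := by ring
      _ ≤ H * L ^ A1 := mul_le_mul_of_nonneg_left t3 hH0.le
  set BP := badP N H A1 B with hBP
  set BN := badN N H A1 B with hBNd
  have hsub : badM N H R D pr (fun i => 1 / Real.log ((i * H : ℕ) : ℝ)) ⊆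
      ppX N H ∪ ((Ioc N (2 * N)).filter (fun n => n / H ∈ BP) ∪ BN) := by
    intro n hn
    unfold badM at hn
    rw [mem_filter] at hn
    obtain ⟨hn1, hn2⟩ := hn
    by_contra hcon
    simp only [mem_union, not_or] at hcon
    obtain ⟨c1, c2, c3⟩ := hcon
    have hn1' := mem_Ioc.1 hn1
    obtain ⟨j1, j2, j3, j4⟩ := idx_nb N H f3 f4 (n / H) (div_mem N H n hn1)
    have hnb := mem_blk_div H n f3
    have hc2 : n / H ∉ BP := fun h => c2 (by rw [mem_filter]; exact ⟨hn1, h⟩)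
    have a1 := (Pool.Agent.H43.TP.m1 N A1 B H (n / H) n (by omega) j3 hc2 hnb).trans hRT
    have a2 := (Pool.Agent.H43.TP.m2 N A1 B H n f3 (by omega) hn1 c3).trans hRT
    have hlo := idx_lo N H f3 f4 (n / H - 1) j2
    have hlo2 := idx_lo N H f3 f4 (n / H) j3
    set i := n / H with hi
    have hnb' := hnb
    unfold blk at hnb'
    rw [mem_Ico] at hnb'
    have ee1 : (i + 1) * H = i * H + H := by ring
    have ee2 : (i + 2) * H = i * H + 2 * H := by ring
    have ee3 : (i - 1) * H = i * H - H := by rw [Nat.sub_mul, one_mul]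
    have hiH : H ≤ i * H := Nat.le_mul_of_pos_left H (by omega)
    -- the density
    set ℓ : ℝ := Real.log ((i * H : ℕ) : ℝ) with hℓ
    have hℓ1 : 1 ≤ ℓ := by
      have t1 : (N : ℝ) / 4 ≤ ((i * H : ℕ) : ℝ) := by
        have : (N : ℝ) ≤ 4 * ((i * H : ℕ) : ℝ) := by exact_mod_cast hlo2
        linarith only [this]
      have t2 := Real.log_le_log (by positivity) t1
      rw [Real.log_div hNpos.ne' (by norm_num)] at t2
      have t3 : Real.log 4 ≤ 3 := by
        have := Real.log_le_sub_one_of_pos (by norm_num : (0 : ℝ) < 4)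
        linarith only [this]
      linarith only [h0, h01, h1, f1, t2, t3]
    have hℓ0 : 0 < ℓ := by linarith only [h0, h01, h1, hℓ1]
    have hj0 : (0 : ℝ) < ((i - 1 : ℕ) : ℝ) := by exact_mod_cast (by omega : 0 < i - 1)
    set ε : ℝ := 2 / ((i - 1 : ℕ) : ℝ) with hε
    have hε0 : 0 ≤ ε := by positivity
    have hεN : H * (R * ε) ≤ H / L ^ (D + 1) := by
      have t1 : (N : ℝ) ≤ 4 * (((i - 1 : ℕ) : ℝ) * H) := by exact_mod_cast hlo
      have t2 : ε ≤ 8 * H / N := by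
        rw [hε, div_le_div_iff₀ hj0 hNpos]
        nlinarith only [t1]
      have t3 : (R : ℝ) * ε ≤ L ^ B * (8 * H / N) := mul_le_mul f8 t2 hε0 (by positivity)
      have t4 : L ^ B * (8 * H / N) ≤ 1 / L ^ (D + 1) := by
        rw [mul_div_assoc', div_le_div_iff₀ hNpos (by positivity), one_mul]
        have : L ^ (B + D + 1) = L ^ B * L ^ (D + 1) := by rw [← pow_add]; congr 1
        rw [this] at hsmall
        have t5 : 0 ≤ (H : ℝ) * (L ^ B * L ^ (D + 1)) := by positivity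
        nlinarith only [h0, h01, h1, hN1, hsmall]
      calc (H : ℝ) * (R * ε) ≤ H * (1 / L ^ (D + 1)) :=
            mul_le_mul_of_nonneg_left (t3.trans t4) hH0.le
        _ = H / L ^ (D + 1) := by ring
    have w2 : ∀ m : ℕ, n ≤ m + 2 * H → m ≤ n + 2 * H → ¬ (IsPrimePow m ∧ ¬ m.Prime) := by
      intro m hm1 hm2 hm3
      apply c1
      unfold ppX
      simp only [mem_filter]
      exact ⟨hn1, m, hm1, hm2, hm3.1, hm3.2⟩
    have hpt : ∀ m : ℕ, (i - 1) * H ≤ m → m ≤ (i + 2) * H → n ≤ m + 2 * H → m ≤ n + 2 * H →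
        |pr m - Lam m / ℓ| ≤ ε := fun m b1 b2 b3 b4 =>
      Pr_pt m ℓ ε hℓ1 hε0 (Pr_log H i m f3 (by omega) b1 b2) (w2 m b3 b4)
    have hpu : ∀ u ∈ blk H i, |pr u - Lam u / ℓ| ≤ ε := by
      intro u hu
      unfold blk at hu
      rw [mem_Ico] at hu
      refine hpt u ?_ ?_ ?_ ?_ <;> omega
    have hpv : ∀ u ∈ blk H i, |pr (2 * n - u) - Lam (2 * n - u) / ℓ| ≤ ε := by
      intro u hu
      unfold blk at hu
      rw [mem_Ico] at hu
      refine hpt _ ?_ ?_ ?_ ?_ <;> omega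
    have hsum : ∀ f : ℕ → ℝ, (∀ u ∈ blk H i, |f u| ≤ R * ε) → |∑ u ∈ blk H i, f u| ≤ H / L ^ (D + 1) := by
      intro f hf
      refine (abs_sum_le_sum_abs _ _).trans ((sum_le_sum hf).trans ?_)
      rw [sum_const, Pool.Agent.H43.TP.blk_card, nsmul_eq_mul]
      exact hεN
    have e1 : rf H i (lamR R) pr n = (1 / ℓ) * rf H i (lamR R) Lam n +
        ∑ u ∈ blk H i, lamR R u * (pr (2 * n - u) - Lam (2 * n - u) / ℓ) := by
      unfold rf
      rw [mul_sum, ← sum_add_distrib]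
      refine sum_congr rfl fun u _ => ?_
      ring
    have e2 : rf H i pr (lamR R) n = (1 / ℓ) * rf H i Lam (lamR R) n +
        ∑ u ∈ blk H i, (pr u - Lam u / ℓ) * lamR R (2 * n - u) := by
      unfold rf
      rw [mul_sum, ← sum_add_distrib]
      refine sum_congr rfl fun u _ => ?_
      ring
    have g1 : |∑ u ∈ blk H i, lamR R u * (pr (2 * n - u) - Lam (2 * n - u) / ℓ)| ≤ H / L ^ (D + 1) := by
      refine hsum _ fun u hu => ?_
      rw [abs_mul]
      exact mul_le_mul (lamR_abs R u) (hpv u hu) (abs_nonneg _) (Nat.cast_nonneg _)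
    have g2 : |∑ u ∈ blk H i, (pr u - Lam u / ℓ) * lamR R (2 * n - u)| ≤ H / L ^ (D + 1) := by
      refine hsum _ fun u hu => ?_
      rw [abs_mul, mul_comm]
      exact mul_le_mul (lamR_abs R _) (hpu u hu) (abs_nonneg _) (Nat.cast_nonneg _)
    have hinv : |1 / ℓ| ≤ 1 := by
      rw [abs_of_pos (by positivity), div_le_one hℓ0]
      exact hℓ1
    have hfin : ∀ a b : ℝ, |a - H * SR R (2 * n)| ≤ H / L ^ (D + 1) → |b| ≤ H / L ^ (D + 1) →
        |(1 / ℓ) * a + b - (1 / ℓ) * (H * SR R (2 * n))| ≤ H / L ^ D := by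
      intro a b ha hb
      have e : (1 / ℓ) * a + b - (1 / ℓ) * (H * SR R (2 * n)) = (1 / ℓ) * (a - H * SR R (2 * n)) + b := by ring
      rw [e]
      refine (abs_add_le _ _).trans ?_
      rw [abs_mul]
      have t1 : |1 / ℓ| * |a - H * SR R (2 * n)| ≤ 1 * (H / L ^ (D + 1)) :=
        mul_le_mul hinv ha (abs_nonneg _) zero_le_one
      have t2 : (H : ℝ) / L ^ (D + 1) * 2 ≤ H / L ^ D := by
        rw [pow_succ, ← div_div]
        have : 0 ≤ (H : ℝ) / L ^ D := by positivity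
        rw [div_mul_eq_mul_div, div_le_iff₀ hL0]
        nlinarith only [this, h0, h01, h1, f1]
      linarith only [hb, t1, t2]
    rw [e1, e2] at hn2
    rcases hn2 with h | h
    · exact absurd (hfin _ _ a2 g1) (not_le.2 h)
    · exact absurd (hfin _ _ a1 g2) (not_le.2 h)
  have hcnt : ((badM N H R D pr (fun i => 1 / Real.log ((i * H : ℕ) : ℝ))).card : ℝ) ≤
      (ppX N H).card + (BP.card * H + BN.card) := by
    have t1 := (card_le_card hsub).trans (card_union_le _ _)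
    have t2 := card_union_le ((Ioc N (2 * N)).filter (fun n => n / H ∈ BP)) BN
    have t3 := cnt_blk N H f3 BP
    exact_mod_cast (by omega)
  refine hcnt.trans ?_
  have e1 : (BP.card : ℝ) * H ≤ N / L ^ A1 := by
    refine (mul_le_mul_of_nonneg_right hP hH0.le).trans (le_of_eq ?_)
    field_simp
  have e2 : (N : ℝ) / L ^ A1 ≤ N / L ^ (A + 1) :=
    div_le_div_of_nonneg_left hNpos.le (by positivity) (pow_le_pow_right₀ hL1 (by omega))
  have e3 : 3 * ((N : ℝ) / L ^ (A + 1)) ≤ N / L ^ A := by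
    rw [pow_succ, ← div_div, mul_div_assoc', div_le_iff₀ hL0]
    have : 0 ≤ (N : ℝ) / L ^ A := by positivity
    nlinarith only [this, h0, h01, h1, f1]
  linarith only [hpp, hBN, e1, e2, e3]

end Pool.Agent.H43.TS

end

section

/-!
# TS Mp: the main terms: `badM` from the local Fourier uniformity (`badM_lfu`) and from the equidistribution in blocks and
reflected blocks (`badM_wd`)

`lamR R k = ∑_{r ≤ R} μ(r)/φ(r) ∑_{b mod r, (b,r)=1} e(k b/r)` (`ramS_eq`), `k = 2n - u`: `e((2n-u) b/r) = e(2n b/r) e(-u b/r)`;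
if `∑_{u ∈ blk} G(u) e(-u b/r) = μ(r)/φ(r) H g + O(H/L^A)` for `r ≤ R` the main terms add up to `g H SR R (2n)`, the error is `R H/L^A`.
-/

set_option autoImplicit false

namespace Pool.Agent.H43.TS

open Finset
open Pool.Agent.H91.PK (ee)
open Pool.Agent.H91.EHA (Lam lamR ramS)
open Pool.Agent.H43.MP (blk Hn idx Rn)
open Pool.Agent.H43.TP (rf Fh badF pr blk_card)
open Pool.Agent.H76.GB (SR)

/-- the reduced residues -/
private def Mp_red (r : ℕ) : Finset ℕ := (Icc 1 r).filter (fun b => Nat.Coprime b r)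

private theorem Mp_card (r : ℕ) (_hr : 1 ≤ r) : (Mp_red r).card = r.totient := by
  have h := Nat.filter_coprime_Ico_eq_totient r 1
  rw [← h]
  unfold Mp_red
  congr 1
  ext b
  simp only [mem_filter, mem_Icc, mem_Ico]
  constructor
  · rintro ⟨⟨h1, h2⟩, h3⟩
    exact ⟨⟨h1, by omega⟩, h3.symm⟩
  · rintro ⟨⟨h1, h2⟩, h3⟩
    exact ⟨⟨h1, by omega⟩, h3.symm⟩

/-- the general statement: `∑ g(u) Λ_R(E - v(u))` -/
private theorem Mp_gen (R : ℕ) (S : Finset ℕ) (g : ℕ → ℝ) (v : ℕ → ℕ) (E : ℕ)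
    (hv : ∀ u ∈ S, v u ≤ E) (δ H : ℝ)
    (hgood : ∀ r ∈ Icc 1 R, ∀ b ∈ Mp_red r, ‖∑ u ∈ S, ((g u : ℝ) : ℂ) * ee (-((b : ℝ) * (v u : ℕ) / r))
      - (((ArithmeticFunction.moebius r : ℝ) / (r.totient : ℝ) * H : ℝ) : ℂ)‖ ≤ δ) :
    |∑ u ∈ S, g u * lamR R (E - v u) - H * SR R E| ≤ R * δ := by
  -- the exact formula
  have hexact : ((∑ u ∈ S, g u * lamR R (E - v u) : ℝ) : ℂ)
      = ∑ r ∈ Icc 1 R, (((ArithmeticFunction.moebius r : ℝ) / (r.totient : ℝ) : ℝ) : ℂ)
        * ∑ b ∈ Mp_red r, ee ((E : ℝ) * b / r) * ∑ u ∈ S, ((g u : ℝ) : ℂ) * ee (-((b : ℝ) * (v u : ℕ) / r)) := by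
    have h1 : ∀ u ∈ S, ((g u * lamR R (E - v u) : ℝ) : ℂ)
        = ∑ r ∈ Icc 1 R, (((ArithmeticFunction.moebius r : ℝ) / (r.totient : ℝ) : ℝ) : ℂ)
          * ∑ b ∈ Mp_red r, ee ((E : ℝ) * b / r) * (((g u : ℝ) : ℂ) * ee (-((b : ℝ) * (v u : ℕ) / r))) := by
      intro u hu
      have hle := hv u hu
      have h3 : ((lamR R (E - v u) : ℝ) : ℂ) = ∑ r ∈ Icc 1 R,
          (((ArithmeticFunction.moebius r : ℝ) / (r.totient : ℝ) : ℝ) : ℂ)
            * ∑ b ∈ Mp_red r, ee (((E - v u : ℕ) : ℝ) * b / r) := by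
        unfold lamR
        rw [Complex.ofReal_sum]
        refine sum_congr rfl fun r hr => ?_
        rw [mem_Icc] at hr
        rw [Complex.ofReal_mul, Pool.Agent.H91.EHA.ramS_eq r _ hr.1]
        rfl
      rw [Complex.ofReal_mul, h3, mul_sum]
      refine sum_congr rfl fun r hr => ?_
      rw [mul_left_comm]
      congr 1
      rw [mul_sum]
      refine sum_congr rfl fun b _ => ?_
      have h4 : ee (((E - v u : ℕ) : ℝ) * b / r)
          = ee ((E : ℝ) * b / r) * ee (-((b : ℝ) * (v u : ℕ) / r)) := by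
        rw [← Pool.Agent.H91.PK.LSa_ee_add]
        congr 1
        rw [Nat.cast_sub hle]
        ring
      rw [h4]
      ring
    rw [Complex.ofReal_sum, sum_congr rfl h1, sum_comm]
    refine sum_congr rfl fun r _ => ?_
    rw [← mul_sum, sum_comm]
    congr 1
    refine sum_congr rfl fun b _ => ?_
    rw [← mul_sum]
  -- the main term
  have hmain : ((H * SR R E : ℝ) : ℂ) = ∑ r ∈ Icc 1 R,
      (((ArithmeticFunction.moebius r : ℝ) / (r.totient : ℝ) : ℝ) : ℂ)
        * ∑ b ∈ Mp_red r, ee ((E : ℝ) * b / r) *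
          (((ArithmeticFunction.moebius r : ℝ) / (r.totient : ℝ) * H : ℝ) : ℂ) := by
    unfold SR
    rw [Complex.ofReal_mul, Complex.ofReal_sum, mul_sum]
    refine sum_congr rfl fun r hr => ?_
    rw [mem_Icc] at hr
    have h1 := Pool.Agent.H91.EHA.ramS_eq r E hr.1
    have h2 : ((ArithmeticFunction.moebius r : ℝ) ^ 2 * ramS r E / (r.totient : ℝ) ^ 2 : ℝ)
        = ((ArithmeticFunction.moebius r : ℝ) / (r.totient : ℝ)) ^ 2 * ramS r E := by
      rw [div_pow]; ring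
    rw [h2, Complex.ofReal_mul, h1, mul_sum, mul_sum, mul_sum]
    refine sum_congr rfl fun b _ => ?_
    push_cast
    ring
  have hkey : ‖((∑ u ∈ S, g u * lamR R (E - v u) : ℝ) : ℂ) - ((H * SR R E : ℝ) : ℂ)‖
      ≤ ∑ r ∈ Icc 1 R, ∑ _b ∈ Mp_red r, 1 / (r.totient : ℝ) * δ := by
    rw [hexact, hmain, ← sum_sub_distrib]
    refine norm_sum_le_of_le _ fun r hr => ?_
    rw [← mul_sub, ← sum_sub_distrib, mul_sum]
    refine norm_sum_le_of_le _ fun b hb => ?_
    have hr1 : 1 ≤ r := (mem_Icc.1 hr).1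
    have hphi : (0 : ℝ) < r.totient := by exact_mod_cast Nat.totient_pos.2 hr1
    rw [← mul_sub, norm_mul, norm_mul, Pool.Agent.H91.PK.LSa_norm_ee, one_mul,
      Complex.norm_real, Real.norm_eq_abs, abs_div, abs_of_pos hphi]
    have hmu : |(ArithmeticFunction.moebius r : ℝ)| ≤ 1 := by
      have := ArithmeticFunction.abs_moebius_le_one (n := r)
      exact_mod_cast this
    exact mul_le_mul (div_le_div_of_nonneg_right hmu hphi.le) (hgood r hr b hb) (norm_nonneg _) (by positivity)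
  rw [← Complex.ofReal_sub, Complex.norm_real, Real.norm_eq_abs] at hkey
  refine hkey.trans (le_of_eq ?_)
  have : ∀ r ∈ Icc 1 R, ∑ _b ∈ Mp_red r, 1 / (r.totient : ℝ) * δ = δ := by
    intro r hr
    rw [mem_Icc] at hr
    rw [sum_const, Mp_card r hr.1, nsmul_eq_mul]
    have : (0 : ℝ) < r.totient := by exact_mod_cast Nat.totient_pos.2 hr.1
    field_simp
  rw [sum_congr rfl this]
  simp only [sum_const, Nat.card_Icc, nsmul_eq_mul, add_tsub_cancel_right]

private theorem Mp_r_le (B N r : ℕ) (hr : r ≤ Rn B N) : (r : ℝ) ≤ Real.log N ^ B := by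
  have h1 : (r : ℝ) ≤ Rn B N := by exact_mod_cast hr
  refine h1.trans ?_
  unfold Rn
  refine Nat.floor_le ?_
  have : 0 ≤ Real.log N := Real.log_natCast_nonneg N
  positivity

theorem m1q (N A B H i n : ℕ) (G g : ℕ → ℝ) (hi1 : 1 ≤ i) (hi : i ∈ idx N H) (hg : i ∉ badQ N H A B G g)
    (hn : n ∈ blk H i) :
    |rf H i G (lamR (Rn B N)) n - g i * (H * SR (Rn B N) (2 * n))| ≤ Rn B N * ((H : ℝ) / Real.log N ^ A) := by
  have e : g i * (H * SR (Rn B N) (2 * n)) = (H * g i) * SR (Rn B N) (2 * n) := by ring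
  rw [e]
  unfold rf
  refine Mp_gen (Rn B N) (blk H i) G (fun u => u) (2 * n) ?_ ((H : ℝ) / Real.log N ^ A) (H * g i) ?_
  · intro u hu
    unfold blk at hn hu
    rw [mem_Ico] at hn hu
    have h1 : (i + 1) * H ≤ 2 * (i * H) := by nlinarith
    show u ≤ 2 * n
    omega
  · intro r hr b hb
    by_contra hcon
    push Not at hcon
    apply hg
    classical
    unfold badQ
    rw [mem_Icc] at hr
    unfold Mp_red at hb
    rw [mem_filter] at hb
    simp only [mem_filter]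
    exact ⟨hi, r, b, hr.1, Mp_r_le B N r hr.2, hb.2, hcon⟩

theorem m2q (N A B H n : ℕ) (G g : ℕ → ℝ) (hH : 1 ≤ H) (hHn : H ≤ n) (hn : n ∈ Ioc N (2 * N))
    (hg : n ∉ badQN N H A B G g) :
    |rf H (n / H) (lamR (Rn B N)) G n - g (n / H) * (H * SR (Rn B N) (2 * n))| ≤
      Rn B N * ((H : ℝ) / Real.log N ^ A) := by
  have hle : ∀ u ∈ blk H (n / H), u ≤ 2 * n := by
    intro u hu
    unfold blk at hu
    rw [mem_Ico] at hu
    have h1 : n / H * H ≤ n := Nat.div_mul_le_self n H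
    have h2 : (n / H + 1) * H = n / H * H + H := by ring
    omega
  have h0 : rf H (n / H) (lamR (Rn B N)) G n
      = ∑ u ∈ blk H (n / H), G (2 * n - u) * lamR (Rn B N) (2 * n - (2 * n - u)) := by
    unfold rf
    refine sum_congr rfl fun u hu => ?_
    rw [Nat.sub_sub_self (hle u hu), mul_comm]
  have e : g (n / H) * (H * SR (Rn B N) (2 * n)) = (H * g (n / H)) * SR (Rn B N) (2 * n) := by ring
  rw [h0, e]
  refine Mp_gen (Rn B N) (blk H (n / H)) (fun u => G (2 * n - u)) (fun u => 2 * n - u) (2 * n)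
    (fun u _ => Nat.sub_le _ _) ((H : ℝ) / Real.log N ^ A) (H * g (n / H)) ?_
  intro r hr b hb
  by_contra hcon
  push Not at hcon
  apply hg
  classical
  unfold badQN
  rw [mem_Icc] at hr
  unfold Mp_red at hb
  rw [mem_filter] at hb
  simp only [mem_filter]
  exact ⟨hn, r, b, hr.1, Mp_r_le B N r hr.2, hb.2, hcon⟩

/-- the main term from the equidistribution -/
theorem badM_wd {N H A B D A' : ℕ} {G g : ℕ → ℝ} (hL : 400 ≤ Real.log N) (hH : 1 ≤ H) (hHN : 8 * H ≤ N)
    (hR : (Rn B N : ℝ) ≤ Real.log N ^ B) (hA1 : A + 1 ≤ A') (hA2 : B + D ≤ A')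
    (h1 : ((badQ N H A' B G g).card : ℝ) ≤ (N : ℝ) / H / Real.log N ^ A')
    (h2 : ((badQN N H A' B G g).card : ℝ) ≤ (N : ℝ) / Real.log N ^ A') :
    ((badM N H (Rn B N) D G g).card : ℝ) ≤ (N : ℝ) / Real.log N ^ A := by
  classical
  set L := Real.log N with hLdef
  have hL0 : 0 < L := by linarith
  have hL1 : 1 ≤ L := by linarith
  have hN0 : N ≠ 0 := by
    rintro rfl
    omega
  have hNpos : (0 : ℝ) < N := by exact_mod_cast Nat.pos_of_ne_zero hN0
  have hH0 : (0 : ℝ) < H := by exact_mod_cast hH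
  have hRT : (Rn B N : ℝ) * ((H : ℝ) / L ^ A') ≤ H / L ^ D := by
    have t1 : (Rn B N : ℝ) * ((H : ℝ) / L ^ A') ≤ L ^ B * ((H : ℝ) / L ^ A') :=
      mul_le_mul_of_nonneg_right hR (by positivity)
    refine t1.trans ?_
    rw [mul_div_assoc', div_le_div_iff₀ (by positivity) (by positivity)]
    have t3 : L ^ B * L ^ D ≤ L ^ A' := by
      rw [← pow_add]
      exact pow_le_pow_right₀ hL1 hA2
    calc L ^ B * H * L ^ D = H * (L ^ B * L ^ D) := by ring
      _ ≤ H * L ^ A' := mul_le_mul_of_nonneg_left t3 hH0.le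
  have hsub : badM N H (Rn B N) D G g ⊆
      (Ioc N (2 * N)).filter (fun n => n / H ∈ badQ N H A' B G g) ∪ badQN N H A' B G g := by
    intro n hn
    unfold badM at hn
    rw [mem_filter] at hn
    obtain ⟨hn1, hn2⟩ := hn
    by_contra hcon
    rw [mem_union, not_or] at hcon
    obtain ⟨c1, c2⟩ := hcon
    have hn1' := mem_Ioc.1 hn1
    have hc1 : n / H ∉ badQ N H A' B G g := fun h => c1 (by rw [mem_filter]; exact ⟨hn1, h⟩)
    obtain ⟨j1, j2, j3, j4⟩ := idx_nb N H hH hHN (n / H) (div_mem N H n hn1)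
    have a1 := (m1q N A' B H (n / H) n G g (by omega) j3 hc1 (mem_blk_div H n hH)).trans hRT
    have a2 := (m2q N A' B H n G g hH (by omega) hn1 c2).trans hRT
    rcases hn2 with h | h
    · linarith
    · linarith
  have hc : ((badM N H (Rn B N) D G g).card : ℝ) ≤ (badQ N H A' B G g).card * H + (badQN N H A' B G g).card := by
    have t1 := (card_le_card hsub).trans (card_union_le _ _)
    have t2 := cnt_blk N H hH (badQ N H A' B G g)
    exact_mod_cast t1.trans (Nat.add_le_add_right t2 _)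
  refine hc.trans ?_
  have e1 : ((badQ N H A' B G g).card : ℝ) * H ≤ N / L ^ A' := by
    refine (mul_le_mul_of_nonneg_right h1 hH0.le).trans (le_of_eq ?_)
    field_simp
  have e2 : (N : ℝ) / L ^ A' ≤ N / L ^ (A + 1) :=
    div_le_div_of_nonneg_left hNpos.le (by positivity) (pow_le_pow_right₀ hL1 hA1)
  have e3 : 2 * ((N : ℝ) / L ^ (A + 1)) ≤ N / L ^ A := by
    rw [pow_succ, ← div_div, mul_div_assoc', div_le_iff₀ hL0]
    have : 0 ≤ (N : ℝ) / L ^ A := by positivity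
    nlinarith
  linarith

/-- the main term from the local Fourier uniformity -/
theorem badM_lfu {N H R A D A' : ℕ} {X k : ℕ → ℝ} (hL : 400 ≤ Real.log N) (hH : 1 ≤ H) (hHN : 8 * H ≤ N)
    (hA : A + 2 * D + 10 ≤ A')
    (hR : 2 * (R : ℝ) ^ 4 ≤ H / Real.log N ^ (D + 1)) (hk1 : ∀ i ∈ idx N H, |k i| ≤ 1)
    (hlam : ∀ i ∈ idx N H, ∑ m ∈ blk H i, lamR R m ^ 2 ≤ H * Real.log N ^ 2)
    (hk : ∀ i ∈ idx N H, i + 1 ∈ idx N H → |k i - k (i + 1)| ≤ 1 / Real.log N ^ A')
    (hb : ((badF N H R A' X k).card : ℝ) ≤ (N : ℝ) / H / Real.log N ^ A') :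
    ((badM N H R D X k).card : ℝ) ≤ (N : ℝ) / Real.log N ^ A := by
  classical
  set L := Real.log N with hLdef
  have hL0 : 0 < L := by linarith
  have hL1 : 1 ≤ L := by linarith
  have hNpos : (0 : ℝ) < N := by
    have : N ≠ 0 := by
      rintro rfl
      omega
    exact_mod_cast Nat.pos_of_ne_zero this
  have hH0 : (0 : ℝ) < H := by exact_mod_cast hH
  have hE := badE_card (C := 2) (D := D + 1) (A := A) (Y := lamR R) (X := X) (k := k) (R := R) hL hH hHN (by omega)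
    hlam hlam hk hb
  have hT : (H : ℝ) / L ^ (D + 1) * 2 ≤ H / L ^ D := by
    rw [pow_succ, ← div_div]
    have : 0 ≤ (H : ℝ) / L ^ D := by positivity
    rw [div_mul_eq_mul_div, div_le_iff₀ hL0]
    nlinarith
  have hsub : badM N H R D X k ⊆ badE N H R (D + 1) X k (lamR R) := by
    intro n hn
    unfold badM at hn
    rw [mem_filter] at hn
    obtain ⟨hn1, hn2⟩ := hn
    by_contra hcon
    have hcon2 : ¬ ((H : ℝ) / L ^ (D + 1) < |rf H (n / H) (lamR R) (Fh R (k (n / H)) X) n| ∨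
        (H : ℝ) / L ^ (D + 1) < |rf H (n / H) (Fh R (k (n / H)) X) (lamR R) n|) := by
      intro h
      apply hcon
      unfold badE
      rw [mem_filter]
      exact ⟨hn1, h⟩
    push Not at hcon2
    obtain ⟨c1, c2⟩ := hcon2
    have hn1' := mem_Ioc.1 hn1
    obtain ⟨j1, j2, j3, j4⟩ := idx_nb N H hH hHN (n / H) (div_mem N H n hn1)
    have a3 := Pool.Agent.H43.TP.m3 R H (n / H) n (by omega) (mem_blk_div H n hH)
    set i := n / H with hi
    have hki := hk1 i j3
    have e1 : rf H i (lamR R) X n = k i * rf H i (lamR R) (lamR R) n + rf H i (lamR R) (Fh R (k i) X) n := by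
      have := Pool.Agent.H43.TP.rf_add_right H i (lamR R) (lamR R) (Fh R (k i) X) (k i) n
      rw [← this]
      congr 1
      exact Pool.Agent.H43.TP.F_split R (k i) X
    have e2 : rf H i X (lamR R) n = k i * rf H i (lamR R) (lamR R) n + rf H i (Fh R (k i) X) (lamR R) n := by
      have := Pool.Agent.H43.TP.rf_add_left H i (lamR R) (lamR R) (Fh R (k i) X) (k i) n
      rw [← this]
      congr 1
      exact Pool.Agent.H43.TP.F_split R (k i) X
    have a4 : |k i * rf H i (lamR R) (lamR R) n - k i * (H * SR R (2 * n))| ≤ H / L ^ (D + 1) := by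
      rw [← mul_sub, abs_mul]
      calc |k i| * |rf H i (lamR R) (lamR R) n - H * SR R (2 * n)| ≤ 1 * (R : ℝ) ^ 4 :=
            mul_le_mul hki a3 (abs_nonneg _) zero_le_one
        _ ≤ H / L ^ (D + 1) := by
            have : (0 : ℝ) ≤ (R : ℝ) ^ 4 := by positivity
            linarith
    rw [e1, e2] at hn2
    rcases hn2 with h | h
    · have h5 : |k i * rf H i (lamR R) (lamR R) n + rf H i (lamR R) (Fh R (k i) X) n - k i * (H * SR R (2 * n))| ≤
          H / L ^ (D + 1) + H / L ^ (D + 1) := by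
        have : k i * rf H i (lamR R) (lamR R) n + rf H i (lamR R) (Fh R (k i) X) n - k i * (H * SR R (2 * n)) =
          (k i * rf H i (lamR R) (lamR R) n - k i * (H * SR R (2 * n))) + rf H i (lamR R) (Fh R (k i) X) n := by
          ring
        rw [this]
        exact (abs_add_le _ _).trans (add_le_add a4 c1)
      linarith
    · have h5 : |k i * rf H i (lamR R) (lamR R) n + rf H i (Fh R (k i) X) (lamR R) n - k i * (H * SR R (2 * n))| ≤
          H / L ^ (D + 1) + H / L ^ (D + 1) := by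
        have : k i * rf H i (lamR R) (lamR R) n + rf H i (Fh R (k i) X) (lamR R) n - k i * (H * SR R (2 * n)) =
          (k i * rf H i (lamR R) (lamR R) n - k i * (H * SR R (2 * n))) + rf H i (Fh R (k i) X) (lamR R) n := by
          ring
        rw [this]
        exact (abs_add_le _ _).trans (add_le_add a4 c2)
      linarith
  have h1 : ((badM N H R D X k).card : ℝ) ≤ (badE N H R (D + 1) X k (lamR R)).card := by
    exact_mod_cast card_le_card hsub
  refine h1.trans (hE.trans ?_)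
  exact div_le_div_of_nonneg_left hNpos.le (by positivity) (pow_le_pow_right₀ hL1 (by omega))

end Pool.Agent.H43.TS

end

section

/-!
# TPQ CertFin: `CERT θ (1/100) 3` from the black boxes `LIN` (LFU), `EGM` (e, g), `HUX` (primes), `MASS7` (masses)
-/

set_option autoImplicit false

namespace Pool.Agent.H46.TPQ

open Finset
open Pool.Agent.H91.PK (ee)
open Pool.Agent.H91.EHA (Lam lamR)
open Pool.Agent.H43.MP (blk Hn idx Rn HUX)
open Pool.Agent.H43.TP (rf badF pr)
open Pool.Agent.H43.TS (badM CERT badM_lfu badM_pr)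
open Pool.Agent.H31.EQ (gam)
open Pool.Agent.H76.TP (yN zz rg bf kap kapA Ap AA Z2 Z3 PY)
open Pool.Agent.H91.TQ (om bq kapF Fq sqp Lev)

/-- the WD black box for the exact `e`, `g` (helper43, from helper31's `eq2`) -/
def EGM (θ : ℝ) : Prop := ∀ e1 : ℝ, 0 < e1 → e1 ≤ 1 / 100 → ∀ A B : ℕ, ∃ A0 : ℕ, ∀ A1 : ℕ, A0 ≤ A1 → ∃ N0 : ℕ, ∀ N : ℕ, N0 ≤ N →
  ∀ J J1 : ℕ, LevQ N (yN e1 N) J J1 →
    ((badM N (Hn θ N) (Rn B N) 4 (ee0 (yN e1 N) J J1)
      (fun i => gam (ee0 (yN e1 N) J J1) ⌊(N : ℝ) / Real.log N ^ A1⌋₊ (i * Hn θ N))).card : ℝ) ≤ (N : ℝ) / Real.log N ^ A ∧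
    ((badM N (Hn θ N) (Rn B N) 4 (gg0 (yN e1 N) J J1)
      (fun i => gam (gg0 (yN e1 N) J J1) ⌊(N : ℝ) / Real.log N ^ A1⌋₊ (i * Hn θ N))).card : ℝ) ≤ (N : ℝ) / Real.log N ^ A

/-- the coefficients of `Y1, Y2, Y3` in `pr, R0, ee0, R1, DD, gg0` -/
noncomputable def cY : Fin 3 → Fin 6 → ℝ :=
  ![![1, -(1 / 2), -1, 1, -30, 0], ![-1, 0, 0, -(1 / 2), 0, 1], ![0, 0, 0, 0, -15, 0]]

private theorem CertFin_abs (j : Fin 3) : ∑ a, |cY j a| ≤ 34 := by
  fin_cases j <;> simp [cY, Fin.sum_univ_six] <;> norm_num [abs_of_nonneg, abs_of_neg]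

private theorem CertFin_sq (j : Fin 3) : ∑ a, cY j a ^ 2 ≤ 1000 := by
  fin_cases j <;> simp [cY, Fin.sum_univ_six] <;> norm_num

private theorem CertFin_sm (s : Finset ℕ) (G : Fin 6 → ℕ → ℝ) (j : Fin 3) (K : ℝ)
    (h : ∀ a, ∑ m ∈ s, G a m ^ 2 ≤ K) : ∑ m ∈ s, (∑ a, cY j a * G a m) ^ 2 ≤ 6000 * K := by
  calc ∑ m ∈ s, (∑ a, cY j a * G a m) ^ 2 ≤ ∑ m ∈ s, 1000 * ∑ a, G a m ^ 2 := by
        refine sum_le_sum fun m _ => ?_
        refine (Finset.sum_mul_sq_le_sq_mul_sq univ (cY j) (fun a => G a m)).trans ?_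
        exact mul_le_mul_of_nonneg_right (CertFin_sq j) (sum_nonneg fun a _ => sq_nonneg _)
    _ = 1000 * ∑ a, ∑ m ∈ s, G a m ^ 2 := by rw [← mul_sum, sum_comm]
    _ ≤ 1000 * ∑ _a : Fin 6, K := mul_le_mul_of_nonneg_left (sum_le_sum fun a _ => h a) (by norm_num)
    _ = 6000 * K := by
        rw [sum_const, card_univ, Fintype.card_fin, nsmul_eq_mul]
        push_cast
        ring

theorem cert_fin (θ θ' : ℝ) (h0 : 0 < θ') (h01 : θ' < θ) (h1 : θ < 1 / 3) (hx : HUX θ') (hL : LIN θ) (hE : EGM θ)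
    (hM : MASS7) : CERT θ (1 / 100) 3 := by
  classical
  have h0θ : 0 < θ := h0.trans h01
  obtain ⟨e1, he1, he1', C, hL⟩ := hL (1 / 10 ^ 7) (by norm_num)
  refine ⟨C + 2, fun A => ?_⟩
  obtain ⟨B, N1, hL⟩ := hL (A + 20)
  obtain ⟨A0, hE⟩ := hE e1 he1 he1' (A + 1) B
  obtain ⟨N2, hE⟩ := hE (max A0 10) (le_max_left _ _)
  obtain ⟨N3, hM⟩ := hM e1 (max A0 10) he1 he1' (le_max_right _ _)
  obtain ⟨N4, hP⟩ := badM_pr θ θ' h0 h01 h1 hx (A + 1) B 4
  obtain ⟨N5, hC⟩ := cert_pt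
  obtain ⟨N6, hev⟩ := Pool.Agent.H43.TP.ev_large θ 1 h0θ h1 one_pos le_rfl B
  obtain ⟨N7, hlam⟩ := Pool.Agent.H43.TP.lamR_blk B
  obtain ⟨N8, hlog⟩ := Pool.Agent.H76.GB.log_pow_le θ 4 h0θ (by norm_num) (4 * B + 5)
  obtain ⟨N9, hlarge⟩ := cert_large
  refine ⟨B, max (max (max N1 N2) (max N3 N4)) (max (max N5 N6) (max (max N7 N8) N9)), fun N hN => ?_⟩
  simp only [max_le_iff] at hN
  obtain ⟨⟨⟨hn1, hn2⟩, hn3, hn4⟩, ⟨hn5, hn6⟩, ⟨hn7, hn8⟩, hn9⟩ := hN
  obtain ⟨J, J1, S, T, kS, kT, hLev, hSv, hsq, hst, hb0, hb1, hbD⟩ := hL N hn1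
  obtain ⟨hE1, hE2⟩ := hE N hn2 J J1 hLev
  replace hM := hM N hn3 J J1 S T kS kT hLev hSv
  replace hP := hP N hn4
  replace hC := hC N hn5 (yN e1 N) J J1 S T hLev hSv.1
  obtain ⟨f1, f2, f3, f4, f5, f6, f7, f8, -, -, -⟩ := hev N hn6
  replace hlam := hlam N hn7
  replace hlog := hlog N hn8
  obtain ⟨l1, l2, l3⟩ := hlarge N hn9
  rw [one_mul] at f1
  set L := Real.log N with hLdef
  set H := Hn θ N with hHdef
  set R := Rn B N with hRdef
  set y := yN e1 N with hy
  set H1 := ⌊(N : ℝ) / L ^ (max A0 10)⌋₊ with hH1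
  have hL0 : 0 < L := by linarith only [he1, he1', f1]
  have hL1 : 1 ≤ L := by linarith only [he1, he1', f1]
  have hNpos : (0 : ℝ) < N := by exact_mod_cast l1
  have hH0 : (0 : ℝ) < H := by exact_mod_cast f3
  -- the range of the blocks
  have hq4 : 8 ≤ N / H := by
    rw [Nat.le_div_iff_mul_le (by omega)]
    omega
  have hup : ∀ i ∈ idx N H, (i + 1) * H ≤ 4 * N := by
    intro i hi
    unfold idx at hi
    rw [mem_Icc] at hi
    have t1 : (i + 1) * H ≤ (3 * N / H + 1) * H := Nat.mul_le_mul_right _ (by omega)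
    have t2 : 3 * N / H * H ≤ 3 * N := Nat.div_mul_le_self _ _
    nlinarith only [f3, f4, t1, t2]
  have hlo : ∀ i ∈ idx N H, N ≤ 4 * (i * H) := by
    intro i hi
    unfold idx at hi
    rw [mem_Icc] at hi
    have t1 : N / (2 * H) * H ≤ i * H := Nat.mul_le_mul_right _ hi.1
    have t2 := Nat.lt_mul_div_succ N (show 0 < 2 * H by omega)
    have t3 : 2 * H * (N / (2 * H) + 1) = 2 * (N / (2 * H) * H) + 2 * H := by ring
    omega
  have hup' : ∀ i ∈ idx N H, i * H ≤ 4 * N := fun i hi =>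
    (Nat.mul_le_mul_right _ (by omega)).trans (hup i hi)
  have hi1 : ∀ i ∈ idx N H, 1 ≤ i := by
    intro i hi
    have := hlo i hi
    rcases Nat.eq_zero_or_pos i with h | h
    · rw [h] at this
      omega
    · exact h
  -- the families
  set G : Fin 6 → ℕ → ℝ := ![pr, Ap S y J, ee0 y J J1, R1 S T y J J1, DD S T y J1, gg0 y J J1] with hG
  set g : Fin 6 → ℕ → ℝ := ![fun i => 1 / Real.log ((i * H : ℕ) : ℝ), fun i => kapA kS y J (i * H),
    fun i => gam (ee0 y J J1) H1 (i * H), fun i => k1 kS kT y J J1 (i * H), fun _ => kS - kT,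
    fun i => gam (gg0 y J J1) H1 (i * H)] with hg
  -- `kS - kT`
  have hkD : |kS - kT| ≤ 1 := by
    obtain ⟨-, -, -, s4, s5⟩ := hSv
    have s6 := s5 1 N le_rfl (by omega) (by
      calc (N : ℝ) ^ (1 / 4 : ℝ) ≤ (N : ℝ) ^ (1 : ℝ) :=
            Real.rpow_le_rpow_of_exponent_le (by exact_mod_cast l1) (by norm_num)
        _ = N := Real.rpow_one _)
    have s7 := (abs_le.1 s6.1).2
    have s8 := (abs_le.1 s6.2).1
    rw [abs_of_nonneg (by linarith only [s4])]
    have s9 : (kS - kT) * N ≤ 2 * (1 / 10 ^ 7 * N / L) := by linarith only [s7, s8]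
    have s10 : 2 * (1 / 10 ^ 7 * N / L) ≤ 1 * (N : ℝ) := by
      rw [show 2 * (1 / 10 ^ 7 * (N : ℝ) / L) = (2 / 10 ^ 7 / L) * N by ring]
      refine mul_le_mul_of_nonneg_right ?_ hNpos.le
      rw [div_le_iff₀ hL0]
      norm_num
      linarith only [he1, he1', f1]
    exact le_of_mul_le_mul_right (s9.trans s10) hNpos
  -- monotonicity of the bounds
  have hmono : (N : ℝ) / H / L ^ (A + 20) ≤ N / H / L ^ A :=
    div_le_div_of_nonneg_left (by positivity) (by positivity) (pow_le_pow_right₀ hL1 (by omega))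
  have hstm : 1 / L ^ (A + 20) ≤ 1 / L ^ A :=
    div_le_div_of_nonneg_left (by norm_num) (by positivity) (pow_le_pow_right₀ hL1 (by omega))
  have hR5 : 2 * (R : ℝ) ^ 4 ≤ H / L ^ (4 + 1) := by
    rw [le_div_iff₀ (by positivity)]
    have t1 : (R : ℝ) ^ 4 ≤ (L ^ B) ^ 4 := pow_le_pow_left₀ (Nat.cast_nonneg _) f8 4
    have t2 : (L ^ B) ^ 4 * L ^ (4 + 1) = L ^ (4 * B + 5) := by
      rw [← pow_mul, ← pow_add]
      congr 1
      ring
    calc 2 * (R : ℝ) ^ 4 * L ^ (4 + 1) ≤ 2 * ((L ^ B) ^ 4 * L ^ (4 + 1)) := by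
          have := mul_le_mul_of_nonneg_right t1 (show 0 ≤ L ^ (4 + 1) by positivity)
          linarith only [this]
      _ = 4 * L ^ (4 * B + 5) / 2 := by rw [t2]; ring
      _ ≤ (N : ℝ) ^ θ / 2 := by linarith only [hlog]
      _ ≤ H := f2
  -- the bad sets
  have hlam' : ∀ i ∈ idx N H, ∑ m ∈ blk H i, lamR R m ^ 2 ≤ H * L ^ 2 := fun i hi => hlam H i (hi1 i hi) f5
  have hk0 : ∀ i ∈ idx N H, |kapA kS y J (i * H)| ≤ 1 := fun i hi => (hM (i * H) (hlo i hi) (hup' i hi)).1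
  have hk1 : ∀ i ∈ idx N H, |k1 kS kT y J J1 (i * H)| ≤ 1 := fun i hi => (hM (i * H) (hlo i hi) (hup' i hi)).2.1
  have hbM : ∀ a : Fin 6, ((badM N H R 4 (G a) (g a)).card : ℝ) ≤ N / L ^ (A + 1) := by
    intro a
    fin_cases a
    · exact hP
    · exact badM_lfu (A' := A + 20) f1 f3 f4 (by omega) hR5 hk0 hlam' (fun i hi hi' => (hst i hi hi').1) hb0
    · exact hE1
    · exact badM_lfu (A' := A + 20) f1 f3 f4 (by omega) hR5 hk1 hlam' (fun i hi hi' => (hst i hi hi').2) hb1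
    · exact badM_lfu (A' := A + 20) f1 f3 f4 (by omega) hR5 (fun i _ => hkD) hlam'
        (fun i _ _ => by
          show |(kS - kT) - (kS - kT)| ≤ 1 / L ^ (A + 20)
          rw [sub_self, abs_zero]
          positivity) hbD
    · exact hE2
  refine ⟨![Ap S y J, R1 S T y J J1, DD S T y J1], fun j m => ∑ a, cY j a * G a m,
    ![fun i => kapA kS y J (i * H), fun i => k1 kS kT y J J1 (i * H), fun _ => kS - kT],
    fun j i => ∑ a, cY j a * g a i, ?_, ?_, ?_, ?_, ?_, ?_, ?_⟩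
  · intro u v hu1 hu2 hv1 hv2
    have := hC u v hu1 hu2 hv1 hv2
    simp only [Fin.sum_univ_three, Fin.sum_univ_six, cY, hG]
    simp only [Matrix.cons_val]
    linarith only [this]
  · intro j i hi
    fin_cases j
    · exact hk0 i hi
    · exact hk1 i hi
    · exact hkD
  · intro j i hi
    have hLC : 1 ≤ L ^ C := one_le_pow₀ hL1
    have hHC : (H : ℝ) ≤ H * L ^ C := le_mul_of_one_le_right hH0.le hLC
    have hr : ∀ m ∈ blk H i, 1 ≤ m ∧ m ≤ 16 * N := by
      intro m hm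
      unfold blk at hm
      rw [mem_Ico] at hm
      have := hlo i hi
      have := hup i hi
      constructor <;> omega
    -- the second moments of the six functions
    have hsm : ∀ a : Fin 6, ∑ m ∈ blk H i, G a m ^ 2 ≤ 9 * (H * L ^ C) := by
      intro a
      have bd : ∀ (f : ℕ → ℝ), (∀ m ∈ blk H i, |f m| ≤ 3) → ∑ m ∈ blk H i, f m ^ 2 ≤ 9 * (H * L ^ C) := by
        intro f hf
        have t1 : ∑ m ∈ blk H i, f m ^ 2 ≤ ∑ m ∈ blk H i, (9 : ℝ) := by
          refine sum_le_sum fun m hm => ?_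
          have t2 := abs_le.1 (hf m hm)
          nlinarith only [he1, he1', t2]
        rw [sum_const, Pool.Agent.H43.TP.blk_card, nsmul_eq_mul] at t1
        linarith only [hHC, t1]
      have hHC0 : 0 ≤ (H : ℝ) * L ^ C := by positivity
      fin_cases a
      · refine bd _ fun m _ => ?_
        show |pr m| ≤ 3
        unfold pr
        split_ifs <;> norm_num
      · exact (hsq i hi).1.trans (by linarith only [hH0, hHC])
      · refine bd _ fun m hm => ?_
        show |ee0 y J J1 m| ≤ 3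
        have t3 := om_le4 l1 l2 hLev (hr m hm).1 (hr m hm).2
        have t4 := e0_nonneg (om y J J1 m)
        have t5 := e0_le t3
        unfold ee0
        rcases rg_zero_or_one (zz y J) m with h | h <;> rw [h]
        · norm_num
        · rw [one_mul, abs_of_nonneg t4]
          exact t5
      · exact (hsq i hi).2.1.trans (by linarith only [hH0, hHC])
      · exact (hsq i hi).2.2.trans (by linarith only [hH0, hHC])
      · refine bd _ fun m hm => ?_
        show |gg0 y J J1 m| ≤ 3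
        have t3 := om_le4 l1 l2 hLev (hr m hm).1 (hr m hm).2
        have t4 := g0_nonneg (om y J J1 m)
        have t5 := g0_le t3
        unfold gg0
        rcases rg_zero_or_one (zz y J) m with h | h <;> rw [h]
        · norm_num
        · rw [one_mul, abs_of_nonneg t4]
          linarith only [he1, he1', t5]
    refine (CertFin_sm (blk H i) G j (9 * (H * L ^ C)) hsm).trans ?_
    rw [pow_add]
    have t1 : (54000 : ℝ) ≤ L ^ 2 := by nlinarith only [f1]
    have t2 : 0 ≤ (H : ℝ) * L ^ C := by positivity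
    nlinarith only [t1, he1, he1', hHC]
  · intro j i hi hi'
    fin_cases j
    · exact ((hst i hi hi').1).trans hstm
    · exact ((hst i hi hi').2).trans hstm
    · show |(kS - kT) - (kS - kT)| ≤ 1 / L ^ A
      rw [sub_self, abs_zero]
      positivity
  · intro j
    fin_cases j
    · exact (Nat.cast_le.2 (card_le_card (badF_mono hL1 (by omega)))).trans (hb0.trans hmono)
    · exact (Nat.cast_le.2 (card_le_card (badF_mono hL1 (by omega)))).trans (hb1.trans hmono)
    · exact (Nat.cast_le.2 (card_le_card (badF_mono hL1 (by omega)))).trans (hbD.trans hmono)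
  · intro j
    have t1 := badM_sum (univ : Finset (Fin 6)) N H R 3 (cY j) G g hL0 ((CertFin_abs j).trans (by linarith only [he1, he1', f1]))
    have t2 : ((badM N H R 3 (fun m => ∑ a, cY j a * G a m) (fun i => ∑ a, cY j a * g a i)).card : ℝ) ≤
        ∑ a : Fin 6, ((badM N H R 4 (G a) (g a)).card : ℝ) := by
      have := (card_le_card t1).trans card_biUnion_le
      exact_mod_cast this
    refine t2.trans ((sum_le_sum fun a _ => hbM a).trans ?_)
    rw [sum_const, card_univ, Fintype.card_fin, nsmul_eq_mul, pow_succ, ← div_div, mul_div_assoc', div_le_iff₀ hL0]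
    push_cast
    have : 0 ≤ (N : ℝ) / L ^ A := by positivity
    nlinarith only [this, he1, he1', f1]
  · intro i hi
    have := (hM (i * H) (hlo i hi) (hup' i hi)).2.2
    simp only [Fin.sum_univ_three, Fin.sum_univ_six, cY, hg]
    simp only [Matrix.cons_val]
    unfold MM at this
    linarith only [this]

end Pool.Agent.H46.TPQ

end
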