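import Pool.Agent.H43.PJ.M02

/-! The parts of this file: H87T.Defs, H87T.Kusmin, H87T.VdcTwo, H88.PSI.Ker. -/

section

/-!
Multiplicative functions between pretentious and strongly aperiodic: common definitions.
-/

namespace Pool.Agent.H87T

open Finset

/-- Iterated forward differences. -/
def dif : ℕ → (ℕ → ℝ) → ℕ → ℝ
  | 0, φ => φ
  | k + 1, φ => dif k (fun n => φ (n + 1) - φ n)

/-- `exp (i θ)` -/
noncomputable def ei (θ : ℝ) : ℂ := Complex.exp ((θ : ℂ) * Complex.I)

end Pool.Agent.H87T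

end

section

/-!
The inequality of Kusmin and Landau (discrete form).

PROOF PLAN.  `d n = φ (n+1) - φ n`, `w n = 1/(ei (d n) - 1)`: `|ei d - 1| = 2 |sin (d/2)| >= 2θ/π` because
`d/2` is at distance at least `θ/2` from the multiples of `π` and `|sin| >= (2/π) dist`.  For `n + 1 < I`:
`ei (φ n) = w n (ei (φ (n+1)) - ei (φ n))`; partial summation: the sum over `n + 1 < I` is
`w (I-2) ei (φ (I-1)) - w 0 ei (φ 0) - ∑_{1 <= n <= I-2} (w n - w (n-1)) ei (φ n)`.
`w n = -1/2 - (i/2) cot (d n/2)`, `d n/2 ∈ [π m + θ/2, π (m+1) - θ/2]` increasing, so `cot (d n/2)` is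
decreasing and `∑ |w n - w (n-1)| <= (1/2) (cot (θ/2) + cot (θ/2)) <= 2/θ`.  Total:
`π/θ + 2/θ + 1 <= 9/θ`.
-/

namespace Pool.Agent.H87T

open Finset

private theorem Kusmin_norm (x : ℝ) : ‖ei x‖ = 1 := by
  unfold ei
  exact Complex.norm_exp_ofReal_mul_I x

private theorem Kusmin_ei (y : ℝ) :
    ei y = ((Real.cos y : ℝ) : ℂ) + ((Real.sin y : ℝ) : ℂ) * Complex.I := by
  unfold ei
  rw [Complex.exp_mul_I, Complex.ofReal_cos, Complex.ofReal_sin]

private theorem Kusmin_add (x y : ℝ) : ei (x + y) = ei x * ei y := by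
  unfold ei
  rw [← Complex.exp_add]
  congr 1
  push_cast
  ring

private theorem Kusmin_two_pi (m : ℤ) : ei (2 * Real.pi * m) = 1 := by
  unfold ei
  rw [Complex.exp_eq_one_iff]
  refine ⟨m, ?_⟩
  push_cast
  ring

/-- the weight `1 / (ei (2 x) - 1)` -/
private noncomputable def Kusmin_W (x : ℝ) : ℂ :=
  -(1 / 2) - Complex.I / 2 * ((Real.cos x / Real.sin x : ℝ) : ℂ)

private theorem Kusmin_key {x : ℝ} (hx : Real.sin x ≠ 0) : Kusmin_W x * (ei (2 * x) - 1) = 1 := by
  have h1 : ei (2 * x) - 1 = -2 * ((Real.sin x : ℝ) : ℂ) ^ 2 +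
      2 * ((Real.sin x : ℝ) : ℂ) * ((Real.cos x : ℝ) : ℂ) * Complex.I := by
    rw [Kusmin_ei, Real.cos_two_mul, Real.sin_two_mul]
    have h2 : ((Real.cos x : ℝ) : ℂ) ^ 2 = 1 - ((Real.sin x : ℝ) : ℂ) ^ 2 := by
      rw [← Complex.ofReal_pow, Real.cos_sq']
      push_cast
      ring
    push_cast
    push_cast at h2
    linear_combination 2 * h2
  have hs : ((Real.sin x : ℝ) : ℂ) ≠ 0 := Complex.ofReal_ne_zero.2 hx
  have h3 : ((Real.sin x : ℝ) : ℂ) ^ 2 + ((Real.cos x : ℝ) : ℂ) ^ 2 = 1 := by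
    rw [← Complex.ofReal_pow, ← Complex.ofReal_pow, ← Complex.ofReal_add,
      Real.sin_sq_add_cos_sq, Complex.ofReal_one]
  rw [h1]
  unfold Kusmin_W
  rw [Complex.ofReal_div]
  generalize ((Real.sin x : ℝ) : ℂ) = s at hs h3
  generalize ((Real.cos x : ℝ) : ℂ) = c at h3
  have h4 : (-(1 / 2) - Complex.I / 2 * (c / s)) * (-2 * s ^ 2 + 2 * s * c * Complex.I) =
      s ^ 2 + c ^ 2 := by
    have h5 : (-(1 / 2) - Complex.I / 2 * (c / s)) * (-2 * s ^ 2 + 2 * s * c * Complex.I) =
        s ^ 2 - s * c * Complex.I + Complex.I * c * (s * (s / s)) -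
          Complex.I ^ 2 * c ^ 2 * (s / s) := by ring
    rw [h5, div_self hs, Complex.I_sq]
    ring
  rw [h4, h3]

private theorem Kusmin_sin {θ x : ℝ} (hθ : 0 < θ) (h1 : θ / 2 ≤ x) (h2 : x ≤ Real.pi - θ / 2) :
    θ / Real.pi ≤ Real.sin x := by
  have hpi := Real.pi_pos
  have key : ∀ y : ℝ, θ / 2 ≤ y → y ≤ Real.pi / 2 → θ / Real.pi ≤ Real.sin y := by
    intro y h3 h4
    have h5 := Real.mul_le_sin (by linarith : (0 : ℝ) ≤ y) h4
    have h6 : 2 / Real.pi * (θ / 2) ≤ 2 / Real.pi * y :=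
      mul_le_mul_of_nonneg_left h3 (by positivity)
    have h7 : 2 / Real.pi * (θ / 2) = θ / Real.pi := by ring
    linarith
  rcases le_or_gt x (Real.pi / 2) with h | h
  · exact key x h1 h
  · rw [← Real.sin_pi_sub]
    exact key _ (by linarith) (by linarith)

private theorem Kusmin_cot_anti {x y : ℝ} (hx : 0 < x) (hxy : x ≤ y) (hy : y < Real.pi) :
    Real.cos y / Real.sin y ≤ Real.cos x / Real.sin x := by
  have h1 : 0 < Real.sin x := Real.sin_pos_of_pos_of_lt_pi hx (by linarith)
  have h2 : 0 < Real.sin y := Real.sin_pos_of_pos_of_lt_pi (by linarith) hy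
  rw [div_le_div_iff₀ h2 h1]
  have h3 : 0 ≤ Real.sin (y - x) := Real.sin_nonneg_of_nonneg_of_le_pi (by linarith) (by linarith)
  rw [Real.sin_sub] at h3
  linarith

private theorem Kusmin_cot_half {θ : ℝ} (hθ : 0 < θ) (hθ1 : θ ≤ Real.pi) :
    Real.cos (θ / 2) / Real.sin (θ / 2) ≤ 2 / θ := by
  have hs : 0 < Real.sin (θ / 2) :=
    Real.sin_pos_of_pos_of_lt_pi (by linarith) (by linarith [Real.pi_pos])
  rcases eq_or_lt_of_le hθ1 with h | h
  · rw [h, Real.cos_pi_div_two, zero_div]
    positivity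
  · have h1 := Real.lt_tan (by linarith : 0 < θ / 2) (by linarith)
    have hc : 0 < Real.cos (θ / 2) :=
      Real.cos_pos_of_mem_Ioo ⟨by linarith [Real.pi_pos], by linarith⟩
    rw [Real.tan_eq_sin_div_cos, lt_div_iff₀ hc] at h1
    rw [div_le_div_iff₀ hs hθ]
    linarith

private theorem Kusmin_cot_abs {θ x : ℝ} (hθ : 0 < θ) (hθ1 : θ ≤ Real.pi) (h1 : θ / 2 ≤ x)
    (h2 : x ≤ Real.pi - θ / 2) : |Real.cos x / Real.sin x| ≤ 2 / θ := by
  have h3 := Kusmin_cot_half hθ hθ1
  rw [abs_le]
  constructor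
  · have h4 := Kusmin_cot_anti (by linarith : 0 < x) h2 (by linarith)
    rw [Real.cos_pi_sub, Real.sin_pi_sub, neg_div] at h4
    linarith
  · have h4 := Kusmin_cot_anti (by linarith : 0 < θ / 2) h1 (by linarith)
    linarith

private theorem Kusmin_W_norm {θ x : ℝ} (hθ : 0 < θ) (h1 : θ / 2 ≤ x)
    (h2 : x ≤ Real.pi - θ / 2) : ‖Kusmin_W x‖ ≤ Real.pi / (2 * θ) := by
  have hpi := Real.pi_pos
  have hs := Kusmin_sin hθ h1 h2
  have hs0 : 0 < Real.sin x := lt_of_lt_of_le (by positivity) hs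
  have h3 := Kusmin_key hs0.ne'
  have h4 : ‖Kusmin_W x‖ * ‖ei (2 * x) - 1‖ = 1 := by
    rw [← norm_mul, h3, norm_one]
  have h5 : ‖ei (2 * x) - 1‖ = 2 * Real.sin x := by
    have e1 : ei (2 * x) - 1 = ei x * (2 * ((Real.sin x : ℝ) : ℂ) * Complex.I) := by
      have e2 : ei (2 * x) = ei x * ei x := by rw [← Kusmin_add]; congr 1; ring
      have e3 : ei x * ei (-x) = 1 := by
        rw [← Kusmin_add, add_neg_cancel]
        unfold ei
        simp
      have e4 : ei x - ei (-x) = 2 * ((Real.sin x : ℝ) : ℂ) * Complex.I := by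
        rw [Kusmin_ei x, Kusmin_ei (-x), Real.cos_neg, Real.sin_neg]
        push_cast
        ring
      rw [← e4, mul_sub, e3, e2]
    rw [e1, norm_mul, Kusmin_norm, one_mul, norm_mul, norm_mul, Complex.norm_I,
      Complex.norm_real, Real.norm_of_nonneg hs0.le]
    simp
  rw [h5] at h4
  have h6 : ‖Kusmin_W x‖ = 1 / (2 * Real.sin x) := by
    rw [eq_div_iff (by positivity)]
    exact h4
  rw [h6, div_le_div_iff₀ (by positivity) (by positivity)]
  rw [div_le_iff₀ hpi] at hs
  linarith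

private theorem Kusmin_W_sub (x y : ℝ) : ‖Kusmin_W x - Kusmin_W y‖ =
    1 / 2 * |Real.cos y / Real.sin y - Real.cos x / Real.sin x| := by
  have h : Kusmin_W x - Kusmin_W y =
      Complex.I / 2 * ((Real.cos y / Real.sin y - Real.cos x / Real.sin x : ℝ) : ℂ) := by
    unfold Kusmin_W
    push_cast
    ring
  rw [h, norm_mul, norm_div, Complex.norm_I, Complex.norm_real, Real.norm_eq_abs]
  simp

theorem kusmin (φ : ℕ → ℝ) (I : ℕ) (m : ℤ) (θ : ℝ) (hθ : 0 < θ) (hθ1 : θ ≤ Real.pi)
    (h1 : ∀ n, n + 1 < I → 2 * Real.pi * m + θ ≤ φ (n + 1) - φ n ∧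
      φ (n + 1) - φ n ≤ 2 * Real.pi * (m + 1) - θ)
    (h2 : ∀ n, n + 2 < I → φ (n + 1) - φ n ≤ φ (n + 2) - φ (n + 1)) :
    ‖∑ n ∈ range I, ei (φ n)‖ ≤ 9 / θ := by
  have hpi3 := Real.pi_lt_d2
  have hpi := Real.pi_pos
  have hsmall : 1 ≤ Real.pi / θ := by
    rw [le_div_iff₀ hθ]
    linarith
  have hpθ : Real.pi / θ ≤ (3.15 : ℝ) / θ := div_le_div_of_nonneg_right (by linarith) hθ.le
  have hθi : 0 < 1 / θ := by positivity
  have e315 : (3.15 : ℝ) / θ = 3.15 * (1 / θ) := by ring
  have e9 : (9 : ℝ) / θ = 9 * (1 / θ) := by ring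
  have e2 : (2 : ℝ) / θ = 2 * (1 / θ) := by ring
  obtain ⟨x, hx⟩ : ∃ x : ℕ → ℝ, x = fun n => (φ (n + 1) - φ n) / 2 - Real.pi * m := ⟨_, rfl⟩
  have hxn : ∀ n, x n = (φ (n + 1) - φ n) / 2 - Real.pi * m := fun n => by rw [hx]
  have hx1 : ∀ n, n + 1 < I → θ / 2 ≤ x n ∧ x n ≤ Real.pi - θ / 2 := by
    intro n hn
    have h3 := h1 n hn
    rw [hxn]
    constructor <;> linarith [h3.1, h3.2]
  have hx2 : ∀ n, n + 2 < I → x n ≤ x (n + 1) := by
    intro n hn
    have h3 := h2 n hn
    rw [hxn, hxn]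
    linarith
  have hstep : ∀ n, n + 1 < I → ei (φ n) = Kusmin_W (x n) * (ei (φ (n + 1)) - ei (φ n)) := by
    intro n hn
    obtain ⟨h3, h4⟩ := hx1 n hn
    have hs : Real.sin (x n) ≠ 0 :=
      (Real.sin_pos_of_pos_of_lt_pi (by linarith) (by linarith)).ne'
    have e1 : ei (φ (n + 1)) = ei (φ n) * ei (2 * x n) := by
      have e3 : ei (2 * x n) = ei (φ (n + 1) - φ n) := by
        have e4 : φ (n + 1) - φ n = 2 * x n + 2 * Real.pi * m := by rw [hxn]; ring
        rw [e4, Kusmin_add, Kusmin_two_pi, mul_one]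
      rw [e3, ← Kusmin_add]
      congr 1
      ring
    have e5 := Kusmin_key hs
    rw [e1]
    linear_combination (-(ei (φ n))) * e5
  have hind : ∀ k, k + 1 < I → ∃ R : ℂ,
      ∑ n ∈ range (k + 1), ei (φ n) = Kusmin_W (x k) * ei (φ (k + 1)) + R ∧
      ‖R‖ ≤ ‖Kusmin_W (x 0)‖ + 1 / 2 * (Real.cos (x 0) / Real.sin (x 0) -
        Real.cos (x k) / Real.sin (x k)) := by
    intro k
    induction k with
    | zero =>
      intro hk
      refine ⟨-(Kusmin_W (x 0) * ei (φ 0)), ?_, ?_⟩
      · rw [zero_add, Finset.sum_range_one]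
        have e1 := hstep 0 hk
        rw [zero_add] at e1
        linear_combination e1
      · rw [norm_neg, norm_mul, Kusmin_norm, mul_one]
        linarith
    | succ k ih =>
      intro hk
      obtain ⟨R, hR1, hR2⟩ := ih (by omega)
      refine ⟨R + (Kusmin_W (x k) - Kusmin_W (x (k + 1))) * ei (φ (k + 1)), ?_, ?_⟩
      · rw [Finset.sum_range_succ, hR1]
        have e1 := hstep (k + 1) hk
        linear_combination e1
      · have e3 : ‖(Kusmin_W (x k) - Kusmin_W (x (k + 1))) * ei (φ (k + 1))‖ =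
            1 / 2 * (Real.cos (x k) / Real.sin (x k) -
              Real.cos (x (k + 1)) / Real.sin (x (k + 1))) := by
          rw [norm_mul, Kusmin_norm, mul_one, Kusmin_W_sub, abs_sub_comm, abs_of_nonneg]
          have h3 := hx1 k (by omega)
          have h4 := hx1 (k + 1) hk
          have h5 := Kusmin_cot_anti (by linarith [h3.1] : 0 < x k) (hx2 k (by omega))
            (by linarith [h4.2])
          linarith
        have e4 := norm_add_le R ((Kusmin_W (x k) - Kusmin_W (x (k + 1))) * ei (φ (k + 1)))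
        linarith
  rcases Nat.lt_or_ge I 2 with hI | hI
  · have e1 : ‖∑ n ∈ range I, ei (φ n)‖ ≤ 1 := by
      refine (norm_sum_le _ _).trans ?_
      rw [Finset.sum_congr rfl fun n _ => Kusmin_norm (φ n), Finset.sum_const, Finset.card_range,
        nsmul_eq_mul, mul_one]
      exact_mod_cast (by omega : I ≤ 1)
    linarith
  · obtain ⟨k, rfl⟩ : ∃ k, I = k + 2 := ⟨I - 2, by omega⟩
    obtain ⟨R, hR1, hR2⟩ := hind k (by omega)
    rw [Finset.sum_range_succ, hR1]
    have h3 := hx1 k (by omega)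
    have h4 := hx1 0 (by omega)
    have e1 := Kusmin_W_norm hθ h3.1 h3.2
    have e3 := Kusmin_W_norm hθ h4.1 h4.2
    have e4 := abs_le.1 (Kusmin_cot_abs hθ hθ1 h3.1 h3.2)
    have e5 := abs_le.1 (Kusmin_cot_abs hθ hθ1 h4.1 h4.2)
    have e6 : ‖Kusmin_W (x k) * ei (φ (k + 1)) + R + ei (φ (k + 1))‖ ≤
        ‖Kusmin_W (x k)‖ + ‖R‖ + 1 := by
      refine (norm_add_le _ _).trans ?_
      rw [Kusmin_norm]
      refine add_le_add ((norm_add_le _ _).trans ?_) le_rfl
      rw [norm_mul, Kusmin_norm, mul_one]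
    have e7 : Real.pi / (2 * θ) = 1 / 2 * (Real.pi / θ) := by
      field_simp
    rw [e7] at e1 e3
    linarith [e4.1, e4.2, e5.1, e5.2]

end Pool.Agent.H87T

end

section

/-!
The second difference test of van der Corput (discrete form).

PROOF PLAN.  `dif 2 φ n = (φ (n+2) - φ (n+1)) - (φ (n+1) - φ n)`, so `d n = φ (n+1) - φ n` is
increasing with increments in `[lam, α lam]`.  `θ = √lam <= 1 <= π`.  For an integer `m` let
`J_m = {n : n + 1 < I, 2πm - θ <= d n < 2π(m+1) - θ}`: consecutive integers (`d` monotone); nonempty for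
at most `α lam I/(2π) + 2` values `m`.  In `J_m` the `n` with `d n < 2πm + θ` are at most `2θ/lam + 1` many
consecutive ones (trivial bound), on the others `kusmin` (applied to `n ↦ φ (n + n0)`) gives `9/θ` (the sum in
`kusmin` has one more term; or apply it to the block itself).  Total at most
`(α lam I + 3) (2/√lam + 1 + 9/√lam + 1) + 1 <= 100 (α I √lam + 1/√lam)`.
-/

namespace Pool.Agent.H87T

open Finset

private theorem VdcTwo_norm (φ : ℕ → ℝ) (I : ℕ) : ‖∑ n ∈ range I, ei (φ n)‖ ≤ I := by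
  refine (norm_sum_le _ _).trans ?_
  have h1 : ∀ n ∈ range I, ‖ei (φ n)‖ = 1 := by
    intro n _
    unfold ei
    exact Complex.norm_exp_ofReal_mul_I _
  rw [sum_congr rfl h1]
  simp

private theorem VdcTwo_mono {lam : ℝ} {φ : ℕ → ℝ} {I : ℕ}
    (h : ∀ n, n + 2 < I → lam ≤ (φ (n + 2) - φ (n + 1)) - (φ (n + 1) - φ n)) {i j : ℕ}
    (hij : i ≤ j) (hj : j + 1 < I) :
    lam * ((j : ℝ) - i) ≤ (φ (j + 1) - φ j) - (φ (i + 1) - φ i) := by
  induction j, hij using Nat.le_induction with
  | base => simp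
  | succ j hij ih =>
    have h1 := ih (by omega)
    have h2 := h j (by omega)
    push_cast
    have h3 : j + 1 + 1 = j + 2 := rfl
    rw [h3]
    linarith

private theorem VdcTwo_ind {θ lam : ℝ} (hθ : 0 < θ) (hθ1 : θ ≤ Real.pi) (hlam : 0 < lam) :
    ∀ (k : ℕ) (φ : ℕ → ℝ) (I : ℕ) (m : ℤ),
      (∀ n, n + 2 < I → lam ≤ (φ (n + 2) - φ (n + 1)) - (φ (n + 1) - φ n)) →
      (∀ n, n + 1 < I → 2 * Real.pi * m - θ ≤ φ (n + 1) - φ n) →
      (∀ n, n + 1 < I → φ (n + 1) - φ n < 2 * Real.pi * (m + k) - θ) →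
      ‖∑ n ∈ range I, ei (φ n)‖ ≤ k * (2 * θ / lam + 1 + 9 / θ) + 1 := by
  intro k
  induction k with
  | zero =>
    intro φ I m _ h1 h2
    have hI : I ≤ 1 := by
      by_contra hcon
      have e1 := h1 0 (by omega)
      have e2 := h2 0 (by omega)
      push_cast at e2
      rw [add_zero] at e2
      linarith
    have e3 := VdcTwo_norm φ I
    have e4 : (I : ℝ) ≤ 1 := by exact_mod_cast hI
    push_cast
    linarith
  | succ k ih =>
    intro φ I m h h1 h2
    -- end of the first block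
    have hex : ∃ n, ¬ (n + 1 < I ∧ φ (n + 1) - φ n < 2 * Real.pi * (m + 1) - θ) :=
      ⟨I, fun hh => by omega⟩
    classical
    set b := Nat.find hex with hb
    have hb1 : ∀ n, n < b → n + 1 < I ∧ φ (n + 1) - φ n < 2 * Real.pi * (m + 1) - θ := by
      intro n hn
      exact not_not.mp (Nat.find_min hex hn)
    have hb2 : ¬ (b + 1 < I ∧ φ (b + 1) - φ b < 2 * Real.pi * (m + 1) - θ) := Nat.find_spec hex
    have hbI : b ≤ I := by
      by_contra hcon
      have := (hb1 I (by omega)).1
      omega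
    -- the bad part of the first block
    have hex2 : ∃ n, ¬ (n < b ∧ φ (n + 1) - φ n < 2 * Real.pi * m + θ) :=
      ⟨b, fun hh => by omega⟩
    set a := Nat.find hex2 with ha
    have ha1 : ∀ n, n < a → n < b ∧ φ (n + 1) - φ n < 2 * Real.pi * m + θ := by
      intro n hn
      exact not_not.mp (Nat.find_min hex2 hn)
    have ha2 : ¬ (a < b ∧ φ (a + 1) - φ a < 2 * Real.pi * m + θ) := Nat.find_spec hex2
    have hab : a ≤ b := by
      by_contra hcon
      have := (ha1 b (by omega)).1
      omega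
    have haB : (a : ℝ) ≤ 2 * θ / lam + 1 := by
      rcases Nat.eq_zero_or_pos a with h0 | h0
      · rw [h0]
        push_cast
        positivity
      · have e1 := ha1 (a - 1) (by omega)
        have e2 := (hb1 (a - 1) e1.1).1
        have e3 := h1 0 (by omega)
        have e4 := VdcTwo_mono h (Nat.zero_le (a - 1)) e2
        have e5 : ((a - 1 : ℕ) : ℝ) = (a : ℝ) - 1 := by
          rw [Nat.cast_sub h0]
          norm_num
        rw [e5] at e4
        push_cast at e4
        rw [sub_zero] at e4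
        have e6 : lam * ((a : ℝ) - 1) ≤ 2 * θ := by
          have := e1.2
          linarith
        have e7 : (a : ℝ) - 1 ≤ 2 * θ / lam := by
          rw [le_div_iff₀ hlam]
          linarith
        linarith
    have hsplit1 : ∑ n ∈ range I, ei (φ n) =
        ∑ n ∈ range b, ei (φ n) + ∑ n ∈ range (I - b), ei (φ (b + n)) := by
      rw [← sum_range_add (fun n => ei (φ n)) b (I - b)]
      congr 2
      omega
    have hsplit2 : ∑ n ∈ range b, ei (φ n) =
        ∑ n ∈ range a, ei (φ n) + ∑ n ∈ range (b - a), ei (φ (a + n)) := by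
      rw [← sum_range_add (fun n => ei (φ n)) a (b - a)]
      congr 2
      omega
    have hp1 := VdcTwo_norm φ a
    have hp2 : ‖∑ n ∈ range (b - a), ei (φ (a + n))‖ ≤ 9 / θ := by
      apply kusmin (fun n => φ (a + n)) (b - a) m θ hθ hθ1
      · intro n hn
        show 2 * Real.pi * m + θ ≤ φ (a + (n + 1)) - φ (a + n) ∧
          φ (a + (n + 1)) - φ (a + n) ≤ 2 * Real.pi * (m + 1) - θ
        rw [← add_assoc]
        have e1 := hb1 (a + n) (by omega)
        refine ⟨?_, e1.2.le⟩
        have e2 : 2 * Real.pi * m + θ ≤ φ (a + 1) - φ a := by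
          by_contra hcon
          exact ha2 ⟨by omega, not_le.mp hcon⟩
        have e3 := VdcTwo_mono h (Nat.le_add_right a n) e1.1
        have e4 : 0 ≤ lam * (((a + n : ℕ) : ℝ) - a) := by
          push_cast
          rw [add_sub_cancel_left]
          positivity
        linarith
      · intro n hn
        show φ (a + (n + 1)) - φ (a + n) ≤ φ (a + (n + 2)) - φ (a + (n + 1))
        have e1 := hb1 (a + n + 1) (by omega)
        have e2 := h (a + n) (by omega)
        have e3 : a + (n + 1) = a + n + 1 := by ring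
        have e4 : a + (n + 2) = a + n + 2 := by ring
        rw [e3, e4]
        linarith
    have hp3 : ‖∑ n ∈ range (I - b), ei (φ (b + n))‖ ≤
        k * (2 * θ / lam + 1 + 9 / θ) + 1 := by
      apply ih (fun n => φ (b + n)) (I - b) (m + 1)
      · intro n hn
        have e2 := h (b + n) (by omega)
        exact e2
      · intro n hn
        show 2 * Real.pi * ((m + 1 : ℤ) : ℝ) - θ ≤ φ (b + (n + 1)) - φ (b + n)
        rw [← add_assoc]
        have e1 : 2 * Real.pi * (m + 1) - θ ≤ φ (b + 1) - φ b := by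
          by_contra hcon
          exact hb2 ⟨by omega, not_le.mp hcon⟩
        have e3 := VdcTwo_mono h (Nat.le_add_right b n) (by omega)
        have e4 : 0 ≤ lam * (((b + n : ℕ) : ℝ) - b) := by
          push_cast
          rw [add_sub_cancel_left]
          positivity
        push_cast
        linarith
      · intro n hn
        show φ (b + (n + 1)) - φ (b + n) < 2 * Real.pi * (((m + 1 : ℤ) : ℝ) + k) - θ
        rw [← add_assoc]
        have e1 := h2 (b + n) (by omega)
        push_cast at e1 ⊢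
        have e2 : (m : ℝ) + 1 + k = m + (k + 1) := by ring
        rw [e2]
        exact e1
    rw [hsplit1, hsplit2]
    have hn1 := norm_add_le (∑ n ∈ range a, ei (φ n) + ∑ n ∈ range (b - a), ei (φ (a + n)))
      (∑ n ∈ range (I - b), ei (φ (b + n)))
    have hn2 := norm_add_le (∑ n ∈ range a, ei (φ n)) (∑ n ∈ range (b - a), ei (φ (a + n)))
    push_cast
    linarith

theorem vdc_two (φ : ℕ → ℝ) (I : ℕ) (lam α : ℝ) (hlam : 0 < lam) (hlam1 : lam ≤ 1) (hα : 1 ≤ α)
    (h : ∀ n, n + 2 < I → lam ≤ dif 2 φ n ∧ dif 2 φ n ≤ α * lam) :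
    ‖∑ n ∈ range I, ei (φ n)‖ ≤ 100 * (α * I * Real.sqrt lam + 1 / Real.sqrt lam) := by
  have hdif : ∀ n, dif 2 φ n = (φ (n + 2) - φ (n + 1)) - (φ (n + 1) - φ n) := fun n => rfl
  have hpi := Real.pi_gt_three
  set θ := Real.sqrt lam with hθd
  have hθ : 0 < θ := Real.sqrt_pos.mpr hlam
  have hθ1 : θ ≤ 1 := Real.sqrt_le_one.mpr hlam1
  have hθ2 : θ * θ = lam := Real.mul_self_sqrt hlam.le
  set d0 := φ 1 - φ 0 with hd0
  set m : ℤ := ⌊(d0 + θ) / (2 * Real.pi)⌋ with hm
  have h2pi : 0 < 2 * Real.pi := by positivity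
  have hm1 : 2 * Real.pi * m - θ ≤ d0 := by
    have e1 : (m : ℝ) ≤ (d0 + θ) / (2 * Real.pi) := Int.floor_le _
    rw [le_div_iff₀ h2pi] at e1
    linarith
  have hm2 : d0 < 2 * Real.pi * (m + 1) - θ := by
    have e1 : (d0 + θ) / (2 * Real.pi) < (m : ℝ) + 1 := Int.lt_floor_add_one _
    rw [div_lt_iff₀ h2pi] at e1
    linarith
  have hlo : ∀ n, n + 2 < I → lam ≤ (φ (n + 2) - φ (n + 1)) - (φ (n + 1) - φ n) := by
    intro n hn
    rw [← hdif]
    exact (h n hn).1
  have hup : ∀ n, n + 1 < I → φ (n + 1) - φ n ≤ d0 + α * lam * n := by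
    intro n
    induction n with
    | zero => intro _; simp [hd0]
    | succ n ih =>
      intro hn
      have e1 := ih (by omega)
      have e2 := (h n (by omega)).2
      rw [hdif] at e2
      push_cast
      have e3 : n + 1 + 1 = n + 2 := rfl
      rw [e3]
      linarith
  set x := α * lam * I / (2 * Real.pi) with hx
  have hαl : 0 < α * lam := by positivity
  have hx0 : 0 ≤ x := by positivity
  set k := 1 + ⌈x⌉₊ with hk
  have hk1 : (k : ℝ) ≤ 2 + x := by
    have := (Nat.ceil_lt_add_one hx0).le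
    rw [hk]
    push_cast
    linarith
  have hk2 : 1 + x ≤ (k : ℝ) := by
    have := Nat.le_ceil x
    rw [hk]
    push_cast
    linarith
  have key := VdcTwo_ind hθ (by linarith) hlam k φ I m hlo
    (by
      intro n hn
      have e1 := VdcTwo_mono hlo (Nat.zero_le n) hn
      have e2 : 0 ≤ lam * ((n : ℝ) - ((0 : ℕ) : ℝ)) := by
        push_cast
        rw [sub_zero]
        positivity
      have e3 : φ (0 + 1) - φ 0 = d0 := rfl
      rw [e3] at e1
      linarith)
    (by
      intro n hn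
      have e1 := hup n hn
      have e2 : α * lam * n ≤ α * lam * I := by
        apply mul_le_mul_of_nonneg_left _ hαl.le
        exact_mod_cast (by omega : n ≤ I)
      have e3 : 2 * Real.pi * x = α * lam * I := by
        rw [hx]
        field_simp
      have e4 : 2 * Real.pi * (m + (1 + x)) ≤ 2 * Real.pi * (m + k) :=
        mul_le_mul_of_nonneg_left (by linarith) h2pi.le
      have e5 : 2 * Real.pi * (m + (1 + x)) = 2 * Real.pi * (m + 1) + 2 * Real.pi * x := by ring
      linarith)
  have hθinv : 1 ≤ 1 / θ := by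
    rw [le_div_iff₀ hθ]
    linarith
  have hB : 2 * θ / lam + 1 + 9 / θ ≤ 12 * (1 / θ) := by
    have e1 : 2 * θ / lam = 2 * (1 / θ) := by
      rw [← hθ2]
      field_simp
    have e2 : 9 / θ = 9 * (1 / θ) := by ring
    rw [e1, e2]
    linarith
  have hxθ : x * (1 / θ) ≤ α * I * θ / 6 := by
    have e1 : x * (1 / θ) = α * I * θ / (2 * Real.pi) := by
      rw [hx, ← hθ2]
      field_simp
    rw [e1]
    apply div_le_div_of_nonneg_left (by positivity) (by norm_num)
    linarith
  have hB0 : 0 ≤ 2 * θ / lam + 1 + 9 / θ := by positivity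
  have e1 : (k : ℝ) * (2 * θ / lam + 1 + 9 / θ) ≤ (2 + x) * (12 * (1 / θ)) :=
    mul_le_mul hk1 hB hB0 (by linarith)
  have e2 : (2 + x) * (12 * (1 / θ)) = 24 * (1 / θ) + 12 * (x * (1 / θ)) := by ring
  have e3 : 0 ≤ α * I * θ := by positivity
  linarith

end Pool.Agent.H87T

end

section

/-!
# PSI Ker: the kernel `∑_{n ≤ M} n^{2 π i u}`

`|∑_{n ≤ M} ee(u log n)| ≤ C log X (M/(1+|u|) + √|u|)` for `M ≤ X`, `X ≥ 3`.
`|u| ≤ 1`: trivial.  `|u| ≥ 1` (conjugation: `u ≥ 1` or `u ≤ -1` as convenient): split `[1, M]` into `≤ 2 log X + 1` dyadic pieces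
`(N, min(2N, M)]`, `N = 2^i`.  If `|u| ≥ N/10`: second derivative test `Pool.Agent.H87T.vdc_two`
(`Pool/Agent/H87T/VdcTwo.lean`) for `φ(n) = -2π|u| log(N + 1 + n)` (second differences between `c |u|/N^2` and
`C |u|/N^2`; if `2π|u| ≥ N^2` the trivial bound `N ≤ √(2π|u|)` is enough): `≤ C √|u|`.  If `|u| < N/10`: Kuz'min-Landau
`Pool.Agent.H87T.kusmin` with `θ = c|u|/N`: `≤ C N/|u|`.
-/

set_option autoImplicit false

namespace Pool.Agent.H88.PSI

open Finset
open Pool.Agent.H91.PK (ee)

private theorem Ker_ee (t : ℝ) : ee t = Pool.Agent.H87T.ei (2 * Real.pi * t) := by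
  unfold Pool.Agent.H91.PK.ee Pool.Agent.H87T.ei
  congr 1
  push_cast
  ring

private theorem Ker_norm (t : ℝ) : ‖ee t‖ = 1 := by
  rw [Ker_ee]
  unfold Pool.Agent.H87T.ei
  exact Complex.norm_exp_ofReal_mul_I _

private theorem Ker_conj (t : ℝ) : (starRingEnd ℂ) (ee t) = ee (-t) := by
  unfold Pool.Agent.H91.PK.ee
  rw [← Complex.exp_conj]
  congr 1
  simp only [map_mul, Complex.conj_ofReal, Complex.conj_I, map_ofNat]
  push_cast
  ring

private theorem Ker_log1 {a : ℝ} (ha : 0 < a) :
    1 / (a + 1) ≤ Real.log (a + 1) - Real.log a ∧ Real.log (a + 1) - Real.log a ≤ 1 / a := by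
  rw [← Real.log_div (by linarith) ha.ne']
  have hx : 0 < (a + 1) / a := by positivity
  constructor
  · have h := Real.one_sub_inv_le_log_of_pos hx
    have e : 1 - ((a + 1) / a)⁻¹ = 1 / (a + 1) := by
      field_simp
      ring
    rwa [e] at h
  · have h := Real.log_le_sub_one_of_pos hx
    have e : (a + 1) / a - 1 = 1 / a := by
      field_simp
      ring
    rwa [e] at h

private theorem Ker_log2 {a : ℝ} (ha : 0 < a) :
    1 / (a + 1) ^ 2 ≤ 2 * Real.log (a + 1) - Real.log a - Real.log (a + 2) ∧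
      2 * Real.log (a + 1) - Real.log a - Real.log (a + 2) ≤ 1 / (a * (a + 2)) := by
  have e0 : 2 * Real.log (a + 1) - Real.log a - Real.log (a + 2) =
      Real.log ((a + 1) ^ 2 / (a * (a + 2))) := by
    rw [Real.log_div (by positivity) (by positivity), Real.log_pow,
      Real.log_mul ha.ne' (by positivity)]
    push_cast
    ring
  rw [e0]
  have hx : 0 < (a + 1) ^ 2 / (a * (a + 2)) := by positivity
  constructor
  · have h := Real.one_sub_inv_le_log_of_pos hx
    have e : 1 - ((a + 1) ^ 2 / (a * (a + 2)))⁻¹ = 1 / (a + 1) ^ 2 := by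
      field_simp
      ring
    rwa [e] at h
  · have h := Real.log_le_sub_one_of_pos hx
    have e : (a + 1) ^ 2 / (a * (a + 2)) - 1 = 1 / (a * (a + 2)) := by
      field_simp
      ring
    rwa [e] at h

/-- one block -/
private theorem Ker_block (N I : ℕ) (v : ℝ) (hN : 1 ≤ N) (hI : I ≤ 2 * N) (hv : 1 ≤ v) :
    ‖∑ j ∈ range I, ee (-(v * Real.log ((N + 1 + j : ℕ) : ℝ)))‖ ≤
      4000 * (N / (1 + v) + Real.sqrt v) := by
  have hpi := Real.pi_pos
  have hpi3 := Real.pi_gt_three
  have hpi4 := Real.pi_lt_four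
  have hv0 : 0 < v := by linarith
  have hNR : (1 : ℝ) ≤ N := by exact_mod_cast hN
  have hsv : 1 ≤ Real.sqrt v := Real.one_le_sqrt.mpr hv
  have hsvv : Real.sqrt v * Real.sqrt v = v := Real.mul_self_sqrt hv0.le
  set φ : ℕ → ℝ := fun j => 2 * Real.pi * (-(v * Real.log ((N + 1 + j : ℕ) : ℝ))) with hφ
  have hsum : ∑ j ∈ range I, ee (-(v * Real.log ((N + 1 + j : ℕ) : ℝ))) =
      ∑ j ∈ range I, Pool.Agent.H87T.ei (φ j) := Finset.sum_congr rfl fun j _ => Ker_ee _
  rw [hsum]
  have hcast : ∀ j : ℕ, ((N + 1 + j : ℕ) : ℝ) = (N : ℝ) + 1 + j := fun j => by push_cast; ring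
  -- first differences
  have hd1 : ∀ n : ℕ, φ (n + 1) - φ n =
      -(2 * Real.pi * v * (Real.log ((N : ℝ) + 1 + n + 1) - Real.log ((N : ℝ) + 1 + n))) := by
    intro n
    simp only [hφ, hcast]
    push_cast
    rw [show (N : ℝ) + 1 + ((n : ℝ) + 1) = (N : ℝ) + 1 + n + 1 by ring]
    ring
  have hd2 : ∀ n : ℕ, (φ (n + 2) - φ (n + 1)) - (φ (n + 1) - φ n) =
      2 * Real.pi * v * (2 * Real.log ((N : ℝ) + 1 + n + 1) - Real.log ((N : ℝ) + 1 + n) -
        Real.log ((N : ℝ) + 1 + n + 2)) := by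
    intro n
    have h1 := hd1 n
    have h2 := hd1 (n + 1)
    rw [show n + 1 + 1 = n + 2 from rfl] at h2
    rw [h1, h2]
    push_cast
    rw [show (N : ℝ) + 1 + ((n : ℝ) + 1) + 1 = (N : ℝ) + 1 + n + 2 by ring,
      show (N : ℝ) + 1 + ((n : ℝ) + 1) = (N : ℝ) + 1 + n + 1 by ring]
    ring
  have hapos : ∀ n : ℕ, (0 : ℝ) < (N : ℝ) + 1 + n := fun n => by positivity
  have hIR : (I : ℝ) ≤ 2 * N := by exact_mod_cast hI
  have htriv : ‖∑ j ∈ range I, Pool.Agent.H87T.ei (φ j)‖ ≤ 2 * N := by
    refine (norm_sum_le _ _).trans ?_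
    have : ∀ j ∈ range I, ‖Pool.Agent.H87T.ei (φ j)‖ = 1 := fun j _ => by
      unfold Pool.Agent.H87T.ei
      exact Complex.norm_exp_ofReal_mul_I _
    rw [Finset.sum_congr rfl this, Finset.sum_const, Finset.card_range, nsmul_eq_mul, mul_one]
    exact hIR
  have hq : 0 ≤ (N : ℝ) / (1 + v) := by positivity
  rcases lt_or_ge (10 * v) N with hcase | hcase
  · -- Kusmin - Landau
    have hk := Pool.Agent.H87T.kusmin φ I (-1) (2 * Real.pi * v / (3 * N)) (by positivity)
      (by
        rw [div_le_iff₀ (by positivity)]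
        nlinarith)
      (by
        intro n hn
        have hn' : (n : ℝ) + 1 + 1 ≤ I := by exact_mod_cast hn
        obtain ⟨g1, g2⟩ := Ker_log1 (hapos n)
        have hn0 : (0 : ℝ) ≤ n := Nat.cast_nonneg n
        rw [hd1]
        have u1 : Real.log ((N : ℝ) + 1 + n + 1) - Real.log ((N : ℝ) + 1 + n) ≤ 1 / N := by
          refine g2.trans ?_
          exact one_div_le_one_div_of_le (by linarith) (by linarith)
        have u2 : 1 / (3 * (N : ℝ)) ≤
            Real.log ((N : ℝ) + 1 + n + 1) - Real.log ((N : ℝ) + 1 + n) := by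
          refine le_trans ?_ g1
          exact one_div_le_one_div_of_le (by linarith) (by linarith)
        have hpv : 0 < 2 * Real.pi * v := by positivity
        have w1 := mul_le_mul_of_nonneg_left u1 hpv.le
        have w2 := mul_le_mul_of_nonneg_left u2 hpv.le
        have e1 : 2 * Real.pi * v * (1 / (3 * (N : ℝ))) = 2 * Real.pi * v / (3 * N) := by ring
        rw [e1] at w2
        constructor
        · push_cast
          have e2 : 2 * Real.pi * v * (1 / (N : ℝ)) + 2 * Real.pi * v / (3 * N) ≤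
              2 * Real.pi := by
            have e3 : 2 * Real.pi * v * (1 / (N : ℝ)) + 2 * Real.pi * v / (3 * N) =
                2 * Real.pi * ((4 / 3) * v / N) := by
              field_simp
              ring
            rw [e3]
            have e4 : (4 / 3) * v / N ≤ 1 := by
              rw [div_le_one (by linarith)]
              linarith
            nlinarith
          linarith
        · push_cast
          linarith)
      (by
        intro n hn
        have h1 := hd2 n
        have h2 := (Ker_log2 (hapos n)).1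
        have h3 : (0 : ℝ) ≤ 1 / ((N : ℝ) + 1 + n + 1) ^ 2 := by positivity
        have h4 : 0 ≤ 2 * Real.pi * v * (2 * Real.log ((N : ℝ) + 1 + n + 1) -
            Real.log ((N : ℝ) + 1 + n) - Real.log ((N : ℝ) + 1 + n + 2)) :=
          mul_nonneg (by positivity) (h3.trans h2)
        linarith)
    refine hk.trans ?_
    have e1 : 9 / (2 * Real.pi * v / (3 * (N : ℝ))) = (27 / (2 * Real.pi)) * (N / v) := by
      field_simp
      ring
    rw [e1]
    have e2 : (N : ℝ) / v ≤ 2 * (N / (1 + v)) := by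
      rw [div_le_iff₀ hv0, mul_comm 2, mul_assoc, div_mul_eq_mul_div, le_div_iff₀ (by linarith)]
      nlinarith
    have e3 : 27 / (2 * Real.pi) ≤ 9 := by
      rw [div_le_iff₀ (by positivity)]
      nlinarith
    have e4 : (0 : ℝ) ≤ N / v := by positivity
    have e5 : (27 / (2 * Real.pi)) * ((N : ℝ) / v) ≤ 9 * (2 * (N / (1 + v))) :=
      mul_le_mul e3 e2 e4 (by norm_num)
    have : 0 ≤ Real.sqrt v := by linarith
    nlinarith
  · rcases lt_or_ge (9 * (N : ℝ) ^ 2) (2 * Real.pi * v) with hc2 | hc2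
    · -- trivial bound
      have h1 : (N : ℝ) ≤ Real.sqrt v := by
        apply Real.le_sqrt_of_sq_le
        nlinarith
      nlinarith
    · -- second derivative test
      have hN2 : (0 : ℝ) < 9 * (N : ℝ) ^ 2 := by positivity
      set lam : ℝ := 2 * Real.pi * v / (9 * N ^ 2) with hlam
      have hlam0 : 0 < lam := by positivity
      have hv2 := Pool.Agent.H87T.vdc_two φ I lam 9 hlam0
        (by rw [hlam, div_le_one hN2]; exact hc2) (by norm_num)
        (by
          intro n hn
          have hn' : (n : ℝ) + 2 + 1 ≤ I := by exact_mod_cast hn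
          have hn0 : (0 : ℝ) ≤ n := Nat.cast_nonneg n
          have e0 : Pool.Agent.H87T.dif 2 φ n = (φ (n + 2) - φ (n + 1)) - (φ (n + 1) - φ n) := rfl
          rw [e0, hd2]
          obtain ⟨g1, g2⟩ := Ker_log2 (hapos n)
          have u1 : 1 / (9 * (N : ℝ) ^ 2) ≤ 2 * Real.log ((N : ℝ) + 1 + n + 1) -
              Real.log ((N : ℝ) + 1 + n) - Real.log ((N : ℝ) + 1 + n + 2) := by
            refine le_trans ?_ g1
            apply one_div_le_one_div_of_le (by positivity)
            have : (N : ℝ) + 1 + n + 1 ≤ 3 * N := by linarith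
            calc ((N : ℝ) + 1 + n + 1) ^ 2 ≤ (3 * N) ^ 2 :=
                  pow_le_pow_left₀ (by positivity) this 2
              _ = 9 * (N : ℝ) ^ 2 := by ring
          have u2 : 2 * Real.log ((N : ℝ) + 1 + n + 1) -
              Real.log ((N : ℝ) + 1 + n) - Real.log ((N : ℝ) + 1 + n + 2) ≤ 1 / (N : ℝ) ^ 2 := by
            refine g2.trans ?_
            apply one_div_le_one_div_of_le (by positivity)
            nlinarith
          have hpv : 0 < 2 * Real.pi * v := by positivity
          have w1 := mul_le_mul_of_nonneg_left u1 hpv.le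
          have w2 := mul_le_mul_of_nonneg_left u2 hpv.le
          constructor
          · rw [hlam]
            refine le_trans (le_of_eq ?_) w1
            ring
          · refine w2.trans (le_of_eq ?_)
            rw [hlam]
            field_simp)
      refine hv2.trans ?_
      -- `√lam = √(2 π v)/(3 N)`
      have hs : Real.sqrt lam = Real.sqrt (2 * Real.pi) * Real.sqrt v / (3 * N) := by
        rw [hlam, Real.sqrt_div (by positivity), Real.sqrt_mul (by positivity)]
        congr 1
        rw [show (9 : ℝ) * (N : ℝ) ^ 2 = (3 * N) ^ 2 by ring]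
        exact Real.sqrt_sq (by positivity)
      have hs2 : Real.sqrt (2 * Real.pi) ≤ 3 := by
        rw [Real.sqrt_le_left (by norm_num)]
        linarith
      have hs1 : 2 ≤ Real.sqrt (2 * Real.pi) := by
        apply Real.le_sqrt_of_sq_le
        linarith
      have hs0 : 0 < Real.sqrt (2 * Real.pi) := by linarith
      have hsv0 : 0 < Real.sqrt v := by linarith
      have k1 : 9 * (I : ℝ) * Real.sqrt lam ≤ 18 * Real.sqrt v := by
        rw [hs]
        calc 9 * (I : ℝ) * (Real.sqrt (2 * Real.pi) * Real.sqrt v / (3 * N)) ≤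
            9 * (2 * N) * (3 * Real.sqrt v / (3 * N)) := by
              apply mul_le_mul _ _ (by positivity) (by positivity)
              · linarith
              · apply div_le_div_of_nonneg_right _ (by positivity)
                exact mul_le_mul_of_nonneg_right hs2 hsv0.le
          _ = 18 * Real.sqrt v := by
              field_simp
              ring
      have k2 : 1 / Real.sqrt lam ≤ 15 * Real.sqrt v := by
        rw [hs, one_div_div, div_le_iff₀ (by positivity)]
        have : 3 * (N : ℝ) ≤ 30 * v := by linarith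
        calc 3 * (N : ℝ) ≤ 30 * v := this
          _ = 15 * Real.sqrt v * (2 * Real.sqrt v) := by
              rw [show 15 * Real.sqrt v * (2 * Real.sqrt v) =
                30 * (Real.sqrt v * Real.sqrt v) by ring, hsvv]
          _ ≤ 15 * Real.sqrt v * (Real.sqrt (2 * Real.pi) * Real.sqrt v) := by
              apply mul_le_mul_of_nonneg_left _ (by positivity)
              exact mul_le_mul_of_nonneg_right hs1 hsv0.le
      have k4 : (100 : ℝ) * (9 * I * Real.sqrt lam + 1 / Real.sqrt lam) ≤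
          100 * (18 * Real.sqrt v + 15 * Real.sqrt v) := by linarith
      linarith

/-- the dyadic induction -/
private theorem Ker_ind (v : ℝ) (hv : 1 ≤ v) (M : ℕ) (hM : 1 ≤ M) :
    ‖∑ n ∈ Icc 1 M, ee (-(v * Real.log n))‖ ≤
      4000 * M / (1 + v) + 4000 * (Nat.log 2 M) * Real.sqrt v + 1 := by
  induction M using Nat.strong_induction_on with
  | _ M ih =>
    have hsv : 1 ≤ Real.sqrt v := Real.one_le_sqrt.mpr hv
    rcases Nat.lt_or_ge M 2 with h | h
    · have h1 : M = 1 := by omega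
      subst h1
      rw [Finset.Icc_self, Finset.sum_singleton, Ker_norm]
      have : 0 ≤ 4000 * ((1 : ℕ) : ℝ) / (1 + v) := by positivity
      have h2 : 0 ≤ 4000 * ((Nat.log 2 1 : ℕ) : ℝ) * Real.sqrt v := by positivity
      linarith
    · obtain ⟨K, hK⟩ : ∃ K, K = M / 2 := ⟨_, rfl⟩
      have hK1 : 1 ≤ K := by omega
      have ih' := ih K (by omega) hK1
      have hb := Ker_block K (M - K) v hK1 (by omega) hv
      have hsplit : ∑ n ∈ Icc 1 M, ee (-(v * Real.log n)) =
          ∑ n ∈ Icc 1 K, ee (-(v * Real.log n)) +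
            ∑ j ∈ range (M - K), ee (-(v * Real.log ((K + 1 + j : ℕ) : ℝ))) := by
        have h1 : Icc 1 M = Ico 1 (M + 1) := by ext n; simp only [mem_Icc, mem_Ico]; omega
        have h2 : Icc 1 K = Ico 1 (K + 1) := by ext n; simp only [mem_Icc, mem_Ico]; omega
        rw [h1, h2, ← Finset.sum_Ico_consecutive _ (show 1 ≤ K + 1 by omega)
          (show K + 1 ≤ M + 1 by omega)]
        congr 1
        rw [Finset.sum_Ico_eq_sum_range]
        have h3 : M + 1 - (K + 1) = M - K := by omega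
        rw [h3]
      rw [hsplit]
      refine (norm_add_le _ _).trans ((add_le_add ih' hb).trans ?_)
      have hlog : Nat.log 2 M = Nat.log 2 K + 1 := by
        rw [hK, Nat.log_div_base]
        have : 1 ≤ Nat.log 2 M := Nat.log_pos (by norm_num) h
        omega
      have hKM : 2 * (K : ℝ) ≤ M := by
        have : 2 * K ≤ M := by omega
        exact_mod_cast this
      rw [hlog]
      push_cast
      have h5 : 4000 * (K : ℝ) / (1 + v) + 4000 * (K / (1 + v)) ≤ 4000 * M / (1 + v) := by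
        have : 4000 * (K : ℝ) / (1 + v) + 4000 * (K / (1 + v)) = 4000 * (2 * K) / (1 + v) := by
          ring
        rw [this]
        exact div_le_div_of_nonneg_right (by linarith) (by linarith)
      linarith

theorem ker : ∃ C : ℝ, 1 ≤ C ∧ ∀ (X M : ℕ) (u : ℝ), 3 ≤ X → M ≤ X →
    ‖∑ n ∈ Icc 1 M, ee (u * Real.log n)‖
      ≤ C * Real.log X * (M / (1 + |u|) + Real.sqrt |u|) := by
  refine ⟨10000, by norm_num, fun X M u hX hMX => ?_⟩
  have hXR : (3 : ℝ) ≤ X := by exact_mod_cast hX
  have hlogX : 1 ≤ Real.log X := by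
    rw [Real.le_log_iff_exp_le (by linarith)]
    exact (Real.exp_one_lt_d9.le.trans (by norm_num)).trans hXR
  have hM0 : (0 : ℝ) ≤ M := Nat.cast_nonneg M
  have hu0 := abs_nonneg u
  have hsu := Real.sqrt_nonneg |u|
  have hq : 0 ≤ (M : ℝ) / (1 + |u|) := by positivity
  rcases lt_or_ge |u| 1 with hu | hu
  · -- trivial
    have h1 : ‖∑ n ∈ Icc 1 M, ee (u * Real.log n)‖ ≤ M := by
      refine (norm_sum_le _ _).trans ?_
      rw [Finset.sum_congr rfl fun n _ => Ker_norm _, Finset.sum_const, Nat.card_Icc,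
        nsmul_eq_mul, mul_one]
      simp
    have h2 : (M : ℝ) ≤ 2 * (M / (1 + |u|)) := by
      rw [mul_div_assoc', le_div_iff₀ (by linarith)]
      nlinarith
    calc ‖∑ n ∈ Icc 1 M, ee (u * Real.log n)‖ ≤ M := h1
      _ ≤ 2 * (M / (1 + |u|)) := h2
      _ ≤ 10000 * Real.log X * (M / (1 + |u|)) := by
          apply mul_le_mul_of_nonneg_right _ hq
          linarith
      _ ≤ 10000 * Real.log X * (M / (1 + |u|) + Real.sqrt |u|) := by
          apply mul_le_mul_of_nonneg_left _ (by positivity)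
          linarith
  · rcases Nat.eq_zero_or_pos M with h0 | hM1
    · subst h0
      simp only [Finset.Icc_eq_empty_of_lt (show 0 < 1 by norm_num), Finset.sum_empty, norm_zero]
      positivity
    -- reduction to `-|u|`
    have hred : ‖∑ n ∈ Icc 1 M, ee (u * Real.log n)‖ =
        ‖∑ n ∈ Icc 1 M, ee (-(|u| * Real.log n))‖ := by
      rcases le_or_gt 0 u with hu1 | hu1
      · rw [abs_of_nonneg hu1, ← RCLike.norm_conj, map_sum]
        congr 1
        exact Finset.sum_congr rfl fun n _ => Ker_conj _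
      · rw [abs_of_neg hu1]
        congr 1
        refine Finset.sum_congr rfl fun n _ => ?_
        congr 1
        ring
    rw [hred]
    refine (Ker_ind |u| hu M hM1).trans ?_
    have hsv : 1 ≤ Real.sqrt |u| := Real.one_le_sqrt.mpr hu
    have hlogM : (Nat.log 2 M : ℝ) ≤ 2 * Real.log X := by
      have h1 : (2 : ℝ) ^ Nat.log 2 M ≤ X := by
        have h2 : 2 ^ Nat.log 2 M ≤ M := Nat.pow_log_le_self 2 (by omega)
        exact_mod_cast h2.trans hMX
      have h3 : (Nat.log 2 M : ℝ) * Real.log 2 ≤ Real.log X := by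
        rw [← Real.log_pow]
        exact Real.log_le_log (by positivity) h1
      have h4 : (1 / 2 : ℝ) ≤ Real.log 2 := by
        have := Real.log_two_gt_d9
        linarith
      have h5 : (0 : ℝ) ≤ Nat.log 2 M := Nat.cast_nonneg _
      nlinarith
    have k1 : 4000 * (M : ℝ) / (1 + |u|) ≤ 10000 * Real.log X * (M / (1 + |u|)) := by
      have : 4000 * (M : ℝ) / (1 + |u|) = 4000 * (M / (1 + |u|)) := by ring
      rw [this]
      apply mul_le_mul_of_nonneg_right _ hq
      linarith
    have k2 : 4000 * (Nat.log 2 M : ℝ) * Real.sqrt |u| ≤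
        8000 * Real.log X * Real.sqrt |u| := by
      apply mul_le_mul_of_nonneg_right _ hsu
      linarith
    have k3 : 1 ≤ 2000 * Real.log X * Real.sqrt |u| := by nlinarith
    have k4 : 10000 * Real.log X * (M / (1 + |u|) + Real.sqrt |u|) =
        10000 * Real.log X * (M / (1 + |u|)) + (8000 * Real.log X * Real.sqrt |u| +
          2000 * Real.log X * Real.sqrt |u|) := by ring
    rw [k4]
    linarith

end Pool.Agent.H88.PSI

end
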