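import Pool.Agent.H43.PJ.H91.EHA.SwK1
import Pool.Agent.H43.PJ.M45
import Pool.Agent.H43.PJ.M68

/-! The parts of this file: H31.EQ.PiAp, H31.EQ.LongC, H31.EQ.DSq, H31.EQ.ClsD, H31.EQ.Main, H31.EQ.Fin. -/

section

/-!
# EQ PiAp: Siegel-Walfisz for the primes in subintervals of `(P, 2P]`

`psi_ap` (`H91/EHA/SwK1.lean`, exponent `C + B + 3`, `x = 2P`, `log(2P) ≥ e1 log X`) for `r`, `c` and for `r = 1`: `|ψ(z; r, c) - z/φ(r)| ≤ 2P/(log 2P)^k` for `z ≤ 2P`, hence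
`|ψ(z; r, c) - ψ(z)/φ(r)|` is small for all `P ≤ z ≤ 2P`; Abel summation with the decreasing weight `1/log n` on `(u, v]` (`VkPr_abel` in `H53/MID/VkPr.lean`, private: copy);
the proper prime powers in `(P, 2P]`: at most `√(2P) log(2P)/log 2` numbers, weight `Λ/log ≤ 1` (see `VkPr.lean`).
-/

set_option autoImplicit false

namespace Pool.Agent.H31.EQ

open Finset

open Pool.Agent.H91.EHA (Lam psiA psi_ap) in
/-- Abel summation with a decreasing weight -/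
private theorem PiAp_abel (a : ℕ → ℝ) (w : ℕ → ℝ) (P Q : ℕ) (hPQ : P + 1 ≤ Q) {M : ℝ}
    (hw : ∀ n, P + 1 ≤ n → n < Q → w (n + 1) ≤ w n) (hw0 : 0 ≤ w Q)
    (hS : ∀ z, P ≤ z → z ≤ Q → |∑ n ∈ Icc 1 z, a n| ≤ M) :
    |∑ n ∈ Ioc P Q, w n * a n| ≤ 2 * M * w (P + 1) := by
  have hT : ∀ z, P ≤ z → z ≤ Q → |∑ n ∈ Ioc P z, a n| ≤ 2 * M := by
    intro z hz hz'
    have h1 : ∑ n ∈ Icc 1 z, a n = ∑ n ∈ Icc 1 P, a n + ∑ n ∈ Ioc P z, a n := by
      have e1 : ∀ k : ℕ, Icc 1 k = Ioc 0 k := fun k => by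
        ext x
        simp only [mem_Icc, mem_Ioc]
        omega
      rw [e1, e1, Finset.sum_Ioc_consecutive _ (Nat.zero_le _) hz]
    have h2 : ∑ n ∈ Ioc P z, a n = ∑ n ∈ Icc 1 z, a n - ∑ n ∈ Icc 1 P, a n := by
      rw [h1]
      ring
    rw [h2]
    have h3 := hS z hz hz'
    have h4 := hS P le_rfl (by omega)
    exact (abs_sub _ _).trans (by linarith)
  have hM : 0 ≤ 2 * M := (abs_nonneg _).trans (hT P le_rfl (by omega))
  have key : ∀ q, P + 1 ≤ q → q ≤ Q →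
      |∑ n ∈ Ioc P q, w n * a n - w q * ∑ n ∈ Ioc P q, a n| ≤
        2 * M * (w (P + 1) - w q) := by
    intro q hq
    induction q, hq using Nat.le_induction with
    | base =>
      intro _
      rw [Nat.Ioc_succ_singleton, Finset.sum_singleton, Finset.sum_singleton, sub_self, abs_zero,
        sub_self, mul_zero]
    | succ q hq ih =>
      intro hqQ
      have h1 := ih (by omega)
      have e1 : Ioc P (q + 1) = insert (q + 1) (Ioc P q) := by
        ext x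
        simp only [mem_Ioc, mem_insert]
        omega
      have e2 : q + 1 ∉ Ioc P q := by simp
      have h2 : ∑ n ∈ Ioc P (q + 1), w n * a n - w (q + 1) * ∑ n ∈ Ioc P (q + 1), a n =
          (∑ n ∈ Ioc P q, w n * a n - w q * ∑ n ∈ Ioc P q, a n) +
          (w q - w (q + 1)) * ∑ n ∈ Ioc P q, a n := by
        rw [e1, Finset.sum_insert e2, Finset.sum_insert e2]
        ring
      rw [h2]
      have h3 : 0 ≤ w q - w (q + 1) := sub_nonneg.mpr (hw q hq (by omega))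
      have h4 : |(w q - w (q + 1)) * ∑ n ∈ Ioc P q, a n| ≤
          (w q - w (q + 1)) * (2 * M) := by
        rw [abs_mul, abs_of_nonneg h3]
        exact mul_le_mul_of_nonneg_left (hT q (by omega) (by omega)) h3
      exact (abs_add_le _ _).trans (by linarith)
  have h1 := key Q hPQ le_rfl
  have h2 := hT Q (by omega) le_rfl
  have h3 : |w Q * ∑ n ∈ Ioc P Q, a n| ≤ w Q * (2 * M) := by
    rw [abs_mul, abs_of_nonneg hw0]
    exact mul_le_mul_of_nonneg_left h2 hw0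
  have h4 : |∑ n ∈ Ioc P Q, w n * a n| ≤
      |∑ n ∈ Ioc P Q, w n * a n - w Q * ∑ n ∈ Ioc P Q, a n| +
      |w Q * ∑ n ∈ Ioc P Q, a n| := by
    have h5 := abs_add_le (∑ n ∈ Ioc P Q, w n * a n - w Q * ∑ n ∈ Ioc P Q, a n)
      (w Q * ∑ n ∈ Ioc P Q, a n)
    rwa [sub_add_cancel] at h5
  linarith

open Pool.Agent.H91.EHA (Lam psiA psi_ap) in
/-- from von Mangoldt sums to prime counts -/
private theorem PiAp_primes (P u v r c : ℕ) (hu3 : 3 ≤ u) (huv : u < v) (hr : 1 ≤ r)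
    (hv : v ≤ 2 * P) (hP : 1 ≤ P) (M : ℝ)
    (hS : ∀ z, u ≤ z → z ≤ v → |psiA z r c - psiA z 1 0 / (r.totient : ℝ)| ≤ M) :
    |(((Ioc u v).filter (fun p => p.Prime ∧ p % r = c % r)).card : ℝ)
      - (((Ioc u v).filter (fun p => p.Prime)).card : ℝ) / (r.totient : ℝ)| ≤
      2 * M + 2 * Real.sqrt (2 * P) * Real.log (2 * P) := by
  classical
  have hφ : (1 : ℝ) ≤ r.totient := by
    exact_mod_cast Nat.totient_pos.mpr hr
  have hφ0 : (0 : ℝ) < r.totient := by linarith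
  have hinv0 : 0 ≤ 1 / (r.totient : ℝ) := by positivity
  have hinv1 : 1 / (r.totient : ℝ) ≤ 1 := by
    rw [div_le_one hφ0]
    exact hφ
  set g : ℕ → ℝ := fun n => (if n % r = c % r then (1 : ℝ) else 0) - 1 / (r.totient : ℝ) with hg
  have hg1 : ∀ n, |g n| ≤ 1 := by
    intro n
    simp only [hg]
    split_ifs
    · rw [abs_of_nonneg (by linarith)]
      linarith
    · rw [zero_sub, abs_neg, abs_of_nonneg hinv0]
      exact hinv1
  set w : ℕ → ℝ := fun n => 1 / Real.log n with hw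
  have hlog1 : ∀ n : ℕ, u + 1 ≤ n → 1 ≤ Real.log n := by
    intro n hn
    have h1 : Real.exp 1 ≤ (n : ℝ) := by
      have h2 : (3 : ℝ) ≤ n := by exact_mod_cast (by omega : 3 ≤ n)
      linarith [Real.exp_one_lt_d9]
    have h3 := Real.log_le_log (Real.exp_pos 1) h1
    rwa [Real.log_exp] at h3
  have hsum : ∀ z, ∑ n ∈ Icc 1 z, Lam n * g n = psiA z r c - psiA z 1 0 / (r.totient : ℝ) := by
    intro z
    unfold psiA
    rw [Finset.sum_filter, Finset.sum_filter, Finset.sum_div, ← Finset.sum_sub_distrib]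
    apply Finset.sum_congr rfl
    intro n _
    rw [if_pos (Nat.modEq_one)]
    simp only [hg]
    by_cases h : n % r = c % r
    · rw [if_pos h, if_pos (show n ≡ c [MOD r] from h)]
      ring
    · rw [if_neg h, if_neg (show ¬ n ≡ c [MOD r] from h)]
      ring
  have hM : 0 ≤ M := (abs_nonneg _).trans (hS u le_rfl huv.le)
  have hA := PiAp_abel (fun n => Lam n * g n) w u v (by omega) (M := M)
    (fun n hn _ => by
      simp only [hw]
      apply one_div_le_one_div_of_le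
      · linarith [hlog1 n hn]
      · apply Real.log_le_log
        · exact_mod_cast (by omega : 0 < n)
        · exact_mod_cast Nat.le_succ n)
    (by
      simp only [hw]
      have := hlog1 v (by omega)
      positivity)
    (fun z hz hz' => by
      rw [hsum]
      exact hS z hz hz')
  have hwP : w (u + 1) ≤ 1 := by
    simp only [hw]
    rw [div_le_one (by linarith [hlog1 (u + 1) le_rfl])]
    exact hlog1 (u + 1) le_rfl
  have hA2 : |∑ n ∈ Ioc u v, w n * (Lam n * g n)| ≤ 2 * M := by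
    refine hA.trans ?_
    have := mul_le_mul_of_nonneg_left hwP (show 0 ≤ 2 * M by linarith)
    linarith
  have hcard : (((Ioc u v).filter (fun p => p.Prime ∧ p % r = c % r)).card : ℝ)
      - (((Ioc u v).filter (fun p => p.Prime)).card : ℝ) / (r.totient : ℝ) =
      ∑ p ∈ (Ioc u v).filter (fun p => p.Prime), g p := by
    simp only [hg]
    rw [Finset.sum_sub_distrib, Finset.sum_const, nsmul_eq_mul, ← Finset.sum_filter,
      Finset.filter_filter, Finset.sum_const, nsmul_eq_mul, mul_one]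
    ring
  have hsplit : ∑ n ∈ Ioc u v, w n * (Lam n * g n) =
      ∑ p ∈ (Ioc u v).filter (fun p => p.Prime), g p +
      ∑ n ∈ (Ioc u v).filter (fun n => ¬ n.Prime), w n * (Lam n * g n) := by
    rw [← Finset.sum_filter_add_sum_filter_not (Ioc u v) Nat.Prime]
    congr 1
    apply Finset.sum_congr rfl
    intro p hp
    rw [Finset.mem_filter, mem_Ioc] at hp
    simp only [hw]
    have h2 : Lam p = Real.log p := by
      unfold Lam
      exact ArithmeticFunction.vonMangoldt_apply_prime hp.2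
    have h3 := hlog1 p (by omega)
    have h4 : Real.log p ≠ 0 := by linarith
    rw [h2, ← mul_assoc, one_div, inv_mul_cancel₀ h4, one_mul]
  have hnp : |∑ n ∈ (Ioc u v).filter (fun n => ¬ n.Prime), w n * (Lam n * g n)| ≤
      2 * Real.sqrt (2 * P) * Real.log (2 * P) := by
    have h0 : ∀ n : ℕ, 0 ≤ Lam n := fun n => by
      unfold Lam
      exact ArithmeticFunction.vonMangoldt_nonneg
    have h1 : |∑ n ∈ (Ioc u v).filter (fun n => ¬ n.Prime), w n * (Lam n * g n)| ≤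
        ∑ n ∈ (Ioc u v).filter (fun n => ¬ n.Prime), Lam n := by
      refine (Finset.abs_sum_le_sum_abs _ _).trans ?_
      apply Finset.sum_le_sum
      intro n hn
      rw [Finset.mem_filter, mem_Ioc] at hn
      have h2 := hlog1 n (by omega)
      simp only [hw]
      have h4 : 1 / Real.log n ≤ 1 := by
        rw [div_le_one (by linarith)]
        exact h2
      have h5 : 0 ≤ 1 / Real.log n := by positivity
      rw [abs_mul, abs_mul, abs_of_nonneg (h0 n), abs_of_nonneg h5]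
      calc 1 / Real.log n * (Lam n * |g n|) ≤ 1 * (Lam n * 1) := by
            apply mul_le_mul h4 _ (mul_nonneg (h0 n) (abs_nonneg _)) zero_le_one
            exact mul_le_mul_of_nonneg_left (hg1 n) (h0 n)
        _ = Lam n := by ring
    have h2 : ∑ n ∈ (Ioc u v).filter (fun n => ¬ n.Prime), Lam n ≤
        Chebyshev.psi ((2 * P : ℕ) : ℝ) - Chebyshev.theta ((2 * P : ℕ) : ℝ) := by
      rw [Chebyshev.psi_sub_theta_eq_sum_not_prime, Nat.floor_natCast]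
      apply Finset.sum_le_sum_of_subset_of_nonneg
      · apply Finset.filter_subset_filter
        intro x hx
        rw [mem_Ioc] at hx ⊢
        omega
      · intro n _ _
        exact h0 n
    have h3 := Chebyshev.psi_sub_theta_le (x := ((2 * P : ℕ) : ℝ)) (by exact_mod_cast (by omega : 1 ≤ 2 * P))
    push_cast at h2 h3
    linarith
  rw [hcard]
  have hfin : ∑ p ∈ (Ioc u v).filter (fun p => p.Prime), g p =
      ∑ n ∈ Ioc u v, w n * (Lam n * g n) -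
      ∑ n ∈ (Ioc u v).filter (fun n => ¬ n.Prime), w n * (Lam n * g n) := by
    rw [hsplit]
    ring
  rw [hfin]
  exact (abs_sub _ _).trans (by linarith)

theorem pi_ap (B C : ℕ) (e1 : ℝ) (he1 : 0 < e1) : ∃ X0 : ℕ, ∀ X : ℕ, X0 ≤ X → ∀ P r c u v : ℕ, (X : ℝ) ^ e1 ≤ P → P ≤ X → 1 ≤ r →
    (r : ℝ) ≤ Real.log X ^ B → Nat.Coprime c r → P ≤ u → v ≤ 2 * P →
    |(((Ioc u v).filter (fun p => p.Prime ∧ p % r = c % r)).card : ℝ)
      - (((Ioc u v).filter (fun p => p.Prime)).card : ℝ) / (r.totient : ℝ)| ≤ P / Real.log X ^ C := by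
  obtain ⟨x0, hV⟩ := Pool.Agent.H91.EHA.psi_ap (B + 1) (C + 1)
  have hlog : Filter.Tendsto (fun N : ℕ => Real.log N) Filter.atTop Filter.atTop :=
    Real.tendsto_log_atTop.comp tendsto_natCast_atTop_atTop
  have hsmall : ∀ᶠ N : ℕ in Filter.atTop, 12 * Real.log N ^ (C + 1) ≤ (N : ℝ) ^ (e1 / 2) := by
    have h1 := isLittleO_log_rpow_rpow_atTop (s := e1 / 2) ((C + 1 : ℕ) : ℝ) (by linarith)
    have h2 := (h1.comp_tendsto tendsto_natCast_atTop_atTop).def (c := 1 / 12) (by norm_num)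
    filter_upwards [h2, hlog.eventually_ge_atTop 1] with N hN hN1
    simp only [Function.comp_apply] at hN
    rw [Real.rpow_natCast, Real.norm_eq_abs, Real.norm_eq_abs, abs_of_nonneg (by positivity),
      abs_of_nonneg (by positivity)] at hN
    linarith
  have hbig : ∀ᶠ N : ℕ in Filter.atTop, max (3 : ℝ) (x0 : ℝ) ≤ (N : ℝ) ^ e1 :=
    ((tendsto_rpow_atTop he1).comp tendsto_natCast_atTop_atTop).eventually_ge_atTop _
  obtain ⟨N0, hN0⟩ := Filter.eventually_atTop.mp (hsmall.and (hbig.and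
    ((hlog.eventually_ge_atTop 4).and ((hlog.eventually_ge_atTop (16 / e1 ^ (C + 1))).and
    ((hlog.eventually_ge_atTop (1 / e1 ^ (B + 1))).and
    (Filter.eventually_ge_atTop 2))))))
  refine ⟨N0, ?_⟩
  intro X hX P r c u v hP1 hP2 hr1 hr2 hcr hu hv
  obtain ⟨h12, h3, hL4, hL16, hLB, hX2⟩ := hN0 X hX
  set L : ℝ := Real.log X with hL
  have hXr : (2 : ℝ) ≤ X := by exact_mod_cast hX2
  have hX0' : (0 : ℝ) < X := by linarith
  have hPr3 : (3 : ℝ) ≤ P := (le_max_left _ _).trans (h3.trans hP1)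
  have hPx0 : (x0 : ℝ) ≤ P := (le_max_right _ _).trans (h3.trans hP1)
  have hP3 : 3 ≤ P := by exact_mod_cast hPr3
  have hPx : x0 ≤ P := by exact_mod_cast hPx0
  have hPr0 : (0 : ℝ) < P := by linarith
  have hL0 : 0 < L := by linarith
  have hLK0 : 0 < L ^ C := by positivity
  rcases Nat.lt_or_ge u v with huv | huv
  swap
  · rw [Finset.Ioc_eq_empty_of_le huv]
    simp only [Finset.filter_empty, Finset.card_empty, Nat.cast_zero, zero_div, sub_zero, abs_zero]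
    positivity
  have hφ : (1 : ℝ) ≤ r.totient := by
    exact_mod_cast Nat.totient_pos.mpr hr1
  have hφ0 : (0 : ℝ) < r.totient := by linarith
  -- the logarithm of `2P`
  have hlogP : e1 * L ≤ Real.log ((2 * P : ℕ) : ℝ) := by
    have h1 : Real.log ((X : ℝ) ^ e1) ≤ Real.log ((2 * P : ℕ) : ℝ) := by
      apply Real.log_le_log (by positivity)
      push_cast
      linarith
    rwa [Real.log_rpow hX0'] at h1
  have he1L : 0 < e1 * L := by positivity
  have hlogP0 : 0 < Real.log ((2 * P : ℕ) : ℝ) := by linarith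
  have hrB : (r : ℝ) ≤ Real.log ((2 * P : ℕ) : ℝ) ^ (B + 1) := by
    refine hr2.trans ?_
    calc L ^ B = 1 * L ^ B := by ring
      _ ≤ (e1 ^ (B + 1) * L) * L ^ B := by
          apply mul_le_mul_of_nonneg_right _ (by positivity)
          rw [div_le_iff₀ (by positivity)] at hLB
          linarith
      _ = (e1 * L) ^ (B + 1) := by ring
      _ ≤ _ := pow_le_pow_left₀ he1L.le hlogP _
  have h1B : ((1 : ℕ) : ℝ) ≤ Real.log ((2 * P : ℕ) : ℝ) ^ (B + 1) := by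
    have : ((1 : ℕ) : ℝ) ≤ (r : ℝ) := by exact_mod_cast hr1
    linarith
  have hV2 := hV (2 * P) (by omega)
  have hS : ∀ z, u ≤ z → z ≤ v →
      |Pool.Agent.H91.EHA.psiA z r c - Pool.Agent.H91.EHA.psiA z 1 0 / (r.totient : ℝ)| ≤
        2 * (2 * P / Real.log ((2 * P : ℕ) : ℝ) ^ (C + 1)) := by
    intro z _ hz'
    have h1 := hV2 z (by omega) r hr1 hrB c hcr
    have h2 := hV2 z (by omega) 1 le_rfl h1B 0 (Nat.coprime_one_right 0)
    rw [Nat.totient_one, Nat.cast_one, div_one] at h2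
    have h4 : |Pool.Agent.H91.EHA.psiA z 1 0 / (r.totient : ℝ) - z / (r.totient : ℝ)| ≤
        ((2 * P : ℕ) : ℝ) / Real.log ((2 * P : ℕ) : ℝ) ^ (C + 1) := by
      rw [← sub_div, abs_div, abs_of_pos hφ0, div_le_iff₀ hφ0]
      refine h2.trans ?_
      have h5 : 0 ≤ ((2 * P : ℕ) : ℝ) / Real.log ((2 * P : ℕ) : ℝ) ^ (C + 1) := by positivity
      nlinarith
    have h5 : Pool.Agent.H91.EHA.psiA z r c - Pool.Agent.H91.EHA.psiA z 1 0 / (r.totient : ℝ) =
        (Pool.Agent.H91.EHA.psiA z r c - z / (r.totient : ℝ)) -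
        (Pool.Agent.H91.EHA.psiA z 1 0 / (r.totient : ℝ) - z / (r.totient : ℝ)) := by ring
    rw [h5]
    refine (abs_sub _ _).trans ?_
    have h6 : ((2 * P : ℕ) : ℝ) = 2 * P := by push_cast; ring
    rw [h6] at h1 h4 ⊢
    linarith
  have hmain := PiAp_primes P u v r c (by omega) huv hr1 hv (by omega) _ hS
  refine hmain.trans ?_
  have e1' : 2 * (2 * (2 * P / Real.log ((2 * P : ℕ) : ℝ) ^ (C + 1))) ≤ P / L ^ C / 2 := by
    have h2 : 16 * L ^ C ≤ Real.log ((2 * P : ℕ) : ℝ) ^ (C + 1) := by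
      calc 16 * L ^ C ≤ (e1 ^ (C + 1) * L) * L ^ C := by
            apply mul_le_mul_of_nonneg_right _ (by positivity)
            rw [div_le_iff₀ (by positivity)] at hL16
            linarith
        _ = (e1 * L) ^ (C + 1) := by ring
        _ ≤ _ := pow_le_pow_left₀ he1L.le hlogP _
    have h5 : 2 * (2 * (2 * P / Real.log ((2 * P : ℕ) : ℝ) ^ (C + 1))) ≤ 8 * P / (16 * L ^ C) := by
      rw [← mul_div_assoc, ← mul_div_assoc]
      have h6 : 2 * (2 * (2 * (P : ℝ))) = 8 * P := by ring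
      rw [h6]
      exact div_le_div_of_nonneg_left (by positivity) (by positivity) h2
    refine h5.trans (le_of_eq ?_)
    field_simp
    norm_num
  have e2' : 2 * Real.sqrt (2 * P) * Real.log (2 * P) ≤ P / L ^ C / 2 := by
    have hlog2P : Real.log (2 * P) ≤ 2 * L := by
      have h1 : (2 : ℝ) * P ≤ (X : ℝ) ^ 2 := by
        have : (P : ℝ) ≤ X := by exact_mod_cast hP2
        nlinarith
      have h2 := Real.log_le_log (by positivity) h1
      rw [Real.log_pow] at h2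
      push_cast at h2
      exact h2
    have hsq : Real.sqrt (2 * P) ≤ 3 / 2 * Real.sqrt P := by
      rw [Real.sqrt_le_left (by positivity), mul_pow, Real.sq_sqrt hPr0.le]
      linarith
    have hsP : (X : ℝ) ^ (e1 / 2) ≤ Real.sqrt P := by
      apply Real.le_sqrt_of_sq_le
      rw [← Real.rpow_natCast, ← Real.rpow_mul hX0'.le]
      have : e1 / 2 * ((2 : ℕ) : ℝ) = e1 := by push_cast; ring
      rw [this]
      exact hP1
    have hsP0 : 0 ≤ Real.sqrt P := Real.sqrt_nonneg _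
    have hlog0 : 0 ≤ Real.log (2 * P) := Real.log_nonneg (by linarith)
    have h1 : 2 * Real.sqrt (2 * P) * Real.log (2 * P) ≤ 2 * (3 / 2 * Real.sqrt P) * (2 * L) := by
      apply mul_le_mul (by linarith) hlog2P hlog0 (by positivity)
    have h2 : 12 * L ^ (C + 1) ≤ Real.sqrt P := h12.trans hsP
    rw [div_div, le_div_iff₀ (by positivity)]
    calc 2 * Real.sqrt (2 * P) * Real.log (2 * P) * (L ^ C * 2)
        ≤ 2 * (3 / 2 * Real.sqrt P) * (2 * L) * (L ^ C * 2) :=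
          mul_le_mul_of_nonneg_right h1 (by positivity)
      _ = (12 * L ^ (C + 1)) * Real.sqrt P := by ring
      _ ≤ Real.sqrt P * Real.sqrt P := mul_le_mul_of_nonneg_right h2 hsP0
      _ = P := Real.mul_self_sqrt hPr0.le
  linarith

end Pool.Agent.H31.EQ

end

section

/-!
# EQ LongC: long sums in residue classes

`∑_{x < n ≤ y, n ≡ c (d)} Fp b P n = ∑_{1 ≤ k ≤ 4X/P} b(k) #{p ∈ pb P : x < p k ≤ y, p k ≡ c (d)}` (`n = p k`; `p > P`, `n ≤ 4X`); for fixed `k` the `p ∈ pb P` with `x < p k ≤ y` are the primes of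
`Ioc (max P (x/k)) (min (2P) (y/k))`.  If `b k ≠ 0`, `(k, d) = 1`.  If `(c, d) = 1`: `p k ≡ c` iff `p ≡ c'` for a class `c'` coprime to `d` (`c' = c k⁻¹`): `pi_ap` (exponent `A + 3`):
`#{..} = #{p}/φ(d) + O(P/L^(A+3))`; if `(c, d) > 1` there is no such `p` (`p > P > d` is coprime to `d`, `k` too).  Sum over `k ≤ 4X/P`: error `≤ 4X/L^(A+3) ≤ X/L^A`.
-/

set_option autoImplicit false

namespace Pool.Agent.H31.EQ

open Finset
open Pool.Agent.H91.PK (ee)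
open Pool.Agent.H35.W (pb)
open Pool.Agent.H53.MID (Fp)

private lemma LongC_swp (b : ℕ → ℝ) (P K : ℕ) (S : Finset ℕ) (hS : ∀ n ∈ S, 1 ≤ n)
    (hK : ∀ n ∈ S, ∀ p ∈ pb P, n / p ≤ K) :
    ∑ n ∈ S, Fp b P n = ∑ k ∈ Icc 1 K, b k * (((pb P).filter (fun p => p * k ∈ S)).card : ℝ) := by
  unfold Fp
  simp_rw [Finset.sum_filter]
  rw [Finset.sum_comm]
  have key : ∀ p ∈ pb P, ∑ n ∈ S, (if p ∣ n then b (n / p) else 0)
      = ∑ k ∈ Icc 1 K, if p * k ∈ S then b k else 0 := by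
    intro p hp
    have pp : 0 < p := by
      have := (Finset.mem_filter.mp hp).2
      exact this.pos
    rw [← Finset.sum_filter, ← Finset.sum_filter]
    refine Finset.sum_nbij' (fun n => n / p) (fun k => p * k) ?_ ?_ ?_ ?_ ?_
    · intro n hn
      obtain ⟨h1, h2⟩ := Finset.mem_filter.mp hn
      refine Finset.mem_filter.mpr ⟨Finset.mem_Icc.mpr ⟨?_, hK n h1 p hp⟩, ?_⟩
      · exact Nat.div_pos (Nat.le_of_dvd (hS n h1) h2) pp
      · simpa [Nat.mul_div_cancel' h2] using h1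
    · intro k hk
      obtain ⟨h1, h2⟩ := Finset.mem_filter.mp hk
      exact Finset.mem_filter.mpr ⟨h2, Dvd.intro k rfl⟩
    · intro n hn
      obtain ⟨h1, h2⟩ := Finset.mem_filter.mp hn
      exact Nat.mul_div_cancel' h2
    · intro k hk
      exact Nat.mul_div_cancel_left k pp
    · intro n hn
      rfl
  rw [Finset.sum_congr rfl key, Finset.sum_comm]
  refine Finset.sum_congr rfl (fun k hk => ?_)
  rw [← Finset.sum_filter, Finset.sum_const, nsmul_eq_mul, mul_comm]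

private lemma LongC_inv (k d c : ℕ) (hd : 1 ≤ d) (hk : Nat.Coprime k d) (hc : Nat.Coprime c d) :
    ∃ c' : ℕ, Nat.Coprime c' d ∧ ∀ p : ℕ, (p * k) % d = c % d ↔ p % d = c' % d := by
  haveI : NeZero d := ⟨by omega⟩
  set u : (ZMod d)ˣ := ZMod.unitOfCoprime k hk with hu
  have hval : (u : ZMod d) = (k : ZMod d) := ZMod.coe_unitOfCoprime k hk
  set w : (ZMod d)ˣ := ZMod.unitOfCoprime c hc with hw
  have hwval : (w : ZMod d) = (c : ZMod d) := ZMod.coe_unitOfCoprime c hc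
  refine ⟨((w * u⁻¹ : (ZMod d)ˣ) : ZMod d).val, ZMod.val_coe_unit_coprime _, ?_⟩
  intro p
  have e1 : ((p * k) % d = c % d) ↔ ((p * k : ℕ) : ZMod d) = (c : ZMod d) :=
    (ZMod.natCast_eq_natCast_iff _ _ _).symm
  have e2 : (p % d = ((w * u⁻¹ : (ZMod d)ˣ) : ZMod d).val % d) ↔
      (p : ZMod d) = ((((w * u⁻¹ : (ZMod d)ˣ) : ZMod d).val : ℕ) : ZMod d) :=
    (ZMod.natCast_eq_natCast_iff _ _ _).symm
  rw [e1, e2, ZMod.natCast_zmod_val]
  push_cast
  rw [← hval, ← hwval]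
  constructor
  · intro h
    rw [← h]
    simp [mul_assoc]
  · intro h
    rw [h]
    simp [mul_assoc]

private lemma LongC_log (B : ℕ) (e1 : ℝ) (he1 : 0 < e1) :
    ∃ X0 : ℕ, ∀ X : ℕ, X0 ≤ X → Real.log X ^ B < (X : ℝ) ^ e1 := by
  have h := isLittleO_log_rpow_rpow_atTop (B : ℝ) he1
  have h2 := h.bound (show (0 : ℝ) < 1 / 2 by norm_num)
  have h3 := h2.and (Filter.eventually_ge_atTop (2 : ℝ))
  obtain ⟨x0, hx0⟩ := Filter.eventually_atTop.mp h3
  refine ⟨⌈x0⌉₊, fun X hX => ?_⟩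
  obtain ⟨h4, h5⟩ := hx0 X (le_trans (Nat.le_ceil x0) (by exact_mod_cast hX))
  have h6 : (0 : ℝ) ≤ Real.log X := Real.log_nonneg (by linarith)
  have h7 : (0 : ℝ) < (X : ℝ) ^ e1 := Real.rpow_pos_of_pos (by linarith) _
  rw [Real.rpow_natCast, Real.norm_of_nonneg (pow_nonneg h6 B), Real.norm_of_nonneg h7.le] at h4
  linarith

theorem long_c (A B : ℕ) (e1 : ℝ) (he1 : 0 < e1) : ∃ X0 : ℕ, ∀ X : ℕ, X0 ≤ X → ∀ (P d c x y : ℕ) (b : ℕ → ℝ), (X : ℝ) ^ e1 ≤ P → P ≤ X → 1 ≤ d →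
    (d : ℝ) ≤ Real.log X ^ B → y ≤ 4 * X → (∀ k, |b k| ≤ 1) → (∀ k, b k ≠ 0 → Nat.Coprime k d) →
    |(∑ n ∈ (Ioc x y).filter (fun n => n % d = c % d), Fp b P n)
      - (if Nat.Coprime c d then (∑ n ∈ Ioc x y, Fp b P n) / d.totient else 0)| ≤ X / Real.log X ^ A := by
  obtain ⟨X1, hX1⟩ := pi_ap B (A + 3) e1 he1
  obtain ⟨X2, hX2⟩ := LongC_log B e1 he1
  refine ⟨max (max X1 X2) 8, fun X hX P d c x y b hP1 hP2 hd hdL hy hb hbd => ?_⟩
  have hXa : X1 ≤ X := le_trans (le_trans (le_max_left _ _) (le_max_left _ _)) hX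
  have hXb : X2 ≤ X := le_trans (le_trans (le_max_right _ _) (le_max_left _ _)) hX
  have hXc : 8 ≤ X := le_trans (le_max_right _ _) hX
  have hXr : (8 : ℝ) ≤ X := by exact_mod_cast hXc
  have hL2 : (2 : ℝ) ≤ Real.log X := by
    have h1 : Real.log 8 ≤ Real.log X := Real.log_le_log (by norm_num) hXr
    have h2 : Real.log 8 = 3 * Real.log 2 := by
      rw [show (8 : ℝ) = 2 ^ 3 by norm_num, Real.log_pow]; norm_num
    have h3 := Real.log_two_gt_d9
    linarith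
  have hdP : (d : ℝ) < P := lt_of_le_of_lt hdL (lt_of_lt_of_le (hX2 X hXb) hP1)
  have hdPn : d < P := by exact_mod_cast hdP
  have hP0 : 0 < P := by omega
  have hPr : (0 : ℝ) < P := by exact_mod_cast hP0
  set K : ℕ := 4 * X / P with hK
  have hKP : (K : ℝ) * P ≤ 4 * X := by
    have : K * P ≤ 4 * X := Nat.div_mul_le_self _ _
    exact_mod_cast this
  have hsub1 : ∀ n ∈ Ioc x y, 1 ≤ n := fun n hn => by
    have := (Finset.mem_Ioc.mp hn).1
    omega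
  have hsubK : ∀ n ∈ Ioc x y, ∀ p ∈ pb P, n / p ≤ K := by
    intro n hn p hp
    have h1 := (Finset.mem_Ioc.mp hn).2
    have h2 := (Finset.mem_Ioc.mp (Finset.mem_filter.mp hp).1).1
    exact le_trans (Nat.div_le_div_right (le_trans h1 hy)) (Nat.div_le_div_left h2.le hP0)
  have hs1 := LongC_swp b P K (Ioc x y) hsub1 hsubK
  have hs2 := LongC_swp b P K ((Ioc x y).filter (fun n => n % d = c % d))
    (fun n hn => hsub1 n (Finset.mem_filter.mp hn).1)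
    (fun n hn p hp => hsubK n (Finset.mem_filter.mp hn).1 p hp)
  have hLp : (0 : ℝ) < Real.log X ^ (A + 3) := by positivity
  -- the error for a single `k`
  have herr : ∀ k ∈ Icc 1 K,
      |b k * (((pb P).filter (fun p => p * k ∈ (Ioc x y).filter (fun n => n % d = c % d))).card : ℝ)
        - (if Nat.Coprime c d then b k * (((pb P).filter (fun p => p * k ∈ Ioc x y)).card : ℝ) / d.totient else 0)|
      ≤ P / Real.log X ^ (A + 3) := by
    intro k hk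
    have hk1 : 1 ≤ k := (Finset.mem_Icc.mp hk).1
    have hpos : (0 : ℝ) ≤ P / Real.log X ^ (A + 3) := by positivity
    by_cases hbk : b k = 0
    · simp [hbk, hpos]
    have hkd := hbd k hbk
    by_cases hcd : Nat.Coprime c d
    · obtain ⟨c', hc', hiff⟩ := LongC_inv k d c hd hkd hcd
      rw [if_pos hcd]
      have hu := hX1 X hXa P d c' (max P (x / k)) (min (2 * P) (y / k)) hP1 hP2 hd hdL hc'
        (le_max_left _ _) (min_le_left _ _)
      have hmem : ∀ p : ℕ, (p ∈ Ioc (max P (x / k)) (min (2 * P) (y / k))) ↔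
          (p ∈ Ioc P (2 * P) ∧ p * k ∈ Ioc x y) := by
        intro p
        simp only [Finset.mem_Ioc, max_lt_iff, le_min_iff]
        rw [Nat.div_lt_iff_lt_mul hk1, Nat.le_div_iff_mul_le hk1]
        tauto
      have hA1 : (pb P).filter (fun p => p * k ∈ Ioc x y)
          = (Ioc (max P (x / k)) (min (2 * P) (y / k))).filter (fun p => p.Prime) := by
        ext p
        simp only [pb, Finset.mem_filter]
        rw [hmem p]
        tauto
      have hA2 : (pb P).filter (fun p => p * k ∈ (Ioc x y).filter (fun n => n % d = c % d))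
          = (Ioc (max P (x / k)) (min (2 * P) (y / k))).filter (fun p => p.Prime ∧ p % d = c' % d) := by
        ext p
        simp only [pb, Finset.mem_filter]
        rw [hmem p, hiff p]
        tauto
      rw [hA1, hA2, mul_div_assoc, ← mul_sub, abs_mul]
      calc |b k| * _ ≤ 1 * (P / Real.log X ^ (A + 3)) :=
            mul_le_mul (hb k) hu (abs_nonneg _) (by norm_num)
        _ = _ := one_mul _
    · rw [if_neg hcd]
      have hA3 : (pb P).filter (fun p => p * k ∈ (Ioc x y).filter (fun n => n % d = c % d)) = ∅ := by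
        rw [Finset.filter_eq_empty_iff]
        intro p hp hmem
        have h1 := (Finset.mem_filter.mp hmem).2
        have hpp := (Finset.mem_filter.mp hp).2
        have hpP := (Finset.mem_Ioc.mp (Finset.mem_filter.mp hp).1).1
        have hpd : Nat.Coprime p d := by
          rw [Nat.Prime.coprime_iff_not_dvd hpp]
          intro hdv
          have := Nat.le_of_dvd (by omega) hdv
          omega
        have hpk : Nat.Coprime (p * k) d := Nat.Coprime.mul_left hpd hkd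
        apply hcd
        have h2 : Nat.gcd (p * k) d = Nat.gcd c d := Nat.ModEq.gcd_eq h1
        unfold Nat.Coprime at hpk ⊢
        rw [← h2]; exact hpk
      rw [hA3]
      simpa using hpos
  have hcomb : (∑ n ∈ (Ioc x y).filter (fun n => n % d = c % d), Fp b P n)
      - (if Nat.Coprime c d then (∑ n ∈ Ioc x y, Fp b P n) / d.totient else 0)
      = ∑ k ∈ Icc 1 K, (b k * (((pb P).filter (fun p => p * k ∈ (Ioc x y).filter (fun n => n % d = c % d))).card : ℝ)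
        - (if Nat.Coprime c d then b k * (((pb P).filter (fun p => p * k ∈ Ioc x y)).card : ℝ) / d.totient else 0)) := by
    rw [Finset.sum_sub_distrib, hs2]
    congr 1
    by_cases hcd : Nat.Coprime c d
    · simp only [if_pos hcd]
      rw [hs1, Finset.sum_div]
    · simp [if_neg hcd]
  rw [hcomb]
  calc |∑ k ∈ Icc 1 K, _| ≤ ∑ k ∈ Icc 1 K, P / Real.log X ^ (A + 3) :=
        le_trans (Finset.abs_sum_le_sum_abs _ _) (Finset.sum_le_sum herr)
    _ = K * P / Real.log X ^ (A + 3) := by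
        rw [Finset.sum_const, nsmul_eq_mul, Nat.card_Icc]
        simp only [Nat.add_sub_cancel]
        ring
    _ ≤ 4 * X / Real.log X ^ (A + 3) := by gcongr
    _ ≤ X / Real.log X ^ A := by
        have hLA : (0 : ℝ) < Real.log X ^ A := by positivity
        have hL3 : (4 : ℝ) ≤ Real.log X ^ 3 := by
          calc (4 : ℝ) ≤ 2 ^ 3 := by norm_num
            _ ≤ Real.log X ^ 3 := by gcongr
        rw [div_le_div_iff₀ hLp hLA, pow_add]
        have h1 : (0 : ℝ) ≤ X * Real.log X ^ A := by positivity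
        nlinarith [mul_le_mul_of_nonneg_left hL3 h1]

end Pool.Agent.H31.EQ

end

section

/-!
# EQ DSq: short average minus long average, mean square

As `box_c` in `H88/PSI/BoxC.lean` (copy and adapt; the private lemmas `BoxC_log`, `BoxC_hd` there).  `f = tf (cut 0 K2 b) P (a/d)`, `K2 = 4X/P` (natural division), `N = 8X`
(`2 P K2 ≤ 8X`).  For `n ≤ 3X`: `tf b P (a/d) n = f n` (`p > P`, `n/p ≤ 3X/P ≤ K2`), so `D` is the same (`x < 2X`, `H ≤ H1 ≤ X`).  `|f n| ≤ #{p ∈ pb P : p ∣ n} ≤ 4` for `1 ≤ n ≤ 8X`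
(five primes `> P` have a product `> P^5 ≥ X^(1+5η) > 8X`), `SS f N ≤ 128 X`.
`K = ⌈L^(A+2)⌉` (`K ≤ H`): `100 SS/K² ≤ X/(4 L^A)`.  `dp_int` with `A' = 2A + 6`, `C4 = 2A + 10` gives `K'`; `T0 = L^K'`, `T = X L^C4/H` (`T ≥ T0`).  `A0 = A + 2K' + 10` (`2 A1 ≥ A + (A+2) + 3K' + 5` is enough).
`conv` and `pars` (`hs = log(1 + H/X_i)`, `hl = log(1 + H1/X_i)`, `X_i = X(1 + i/K)`), `8 X K` times
* `1000 T0³ H1² N/X⁴ SS ≤ 1000 L^(3K' - 2A1) 8 · 128`; * `1000/H² (1/T + N(1+log N)/T²) SS ≤ 1000 · 128 (1/(H L^C4) + 32 L/L^(2 C4))`;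
* `4/X² ∫ ≤ 4/L^A'`.   Each is `≤ 1/(32 L^A K)`.
-/

set_option autoImplicit false

namespace Pool.Agent.H31.EQ

open Finset MeasureTheory
open Pool.Agent.H91.PK (ee)
open Pool.Agent.H35.W (pb)
open Pool.Agent.H53.MID (Fp Pl Kl VKp cut)
open Pool.Agent.H88.PSI (DP D W SS Gw conv pars)

private theorem DSq_log (y : ℝ) (hy : 0 ≤ y) : y - y ^ 2 / 2 ≤ Real.log (1 + y) := by
  have h := Real.le_log_one_add_of_nonneg hy
  refine le_trans ?_ h
  rw [le_div_iff₀ (by linarith only [hy])]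
  nlinarith only [hy, mul_nonneg hy (sq_nonneg y), sq_nonneg y]

private theorem DSq_hd (X Xi H H1 : ℝ) (hX : 0 < X) (hXi : X ≤ Xi) (hH : 0 < H) (hH1 : H ≤ H1) :
    |Real.log (1 + H / Xi) / H - Real.log (1 + H1 / Xi) / H1| ≤ H1 / X ^ 2 := by
  have hXi0 : 0 < Xi := by linarith
  have hH10 : 0 < H1 := by linarith
  have key : ∀ h : ℝ, 0 < h → h ≤ H1 →
      1 / Xi - H1 / (2 * Xi ^ 2) ≤ Real.log (1 + h / Xi) / h ∧ Real.log (1 + h / Xi) / h ≤ 1 / Xi := by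
    intro h hh hh1
    have h0 : 0 ≤ h / Xi := by positivity
    constructor
    · rw [le_div_iff₀ hh]
      refine le_trans ?_ (DSq_log _ h0)
      have : (1 / Xi - H1 / (2 * Xi ^ 2)) * h ≤ (1 / Xi - h / (2 * Xi ^ 2)) * h := by
        apply mul_le_mul_of_nonneg_right _ hh.le
        have := div_le_div_of_nonneg_right hh1 (by positivity : (0:ℝ) ≤ 2 * Xi ^ 2)
        linarith only [this]
      refine this.trans (le_of_eq ?_)
      field_simp
    · rw [div_le_iff₀ hh]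
      have := Real.log_le_sub_one_of_pos (by positivity : 0 < 1 + h / Xi)
      have e1 : 1 / Xi * h = h / Xi := by ring
      rw [e1]; linarith only [this]
  obtain ⟨a1, a2⟩ := key H hH hH1
  obtain ⟨b1, b2⟩ := key H1 hH10 le_rfl
  have h3 : H1 / (2 * Xi ^ 2) ≤ H1 / X ^ 2 := by
    apply div_le_div_of_nonneg_left hH10.le (by positivity)
    have : X ^ 2 ≤ Xi ^ 2 := pow_le_pow_left₀ hX.le hXi 2
    nlinarith only [this, sq_nonneg Xi]
  rw [abs_le]
  constructor <;> linarith only [a1, b2, h3, a2, b1]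

private theorem DSq_cut (b : ℕ → ℝ) (P X n : ℕ) (hP : 1 ≤ P) (h1 : 1 ≤ n) (h2 : n ≤ 3 * X) :
    Fp (cut 0 (4 * X / P) b) P n = Fp b P n := by
  unfold Fp
  refine sum_congr rfl fun p hp => ?_
  rw [mem_filter, pb, mem_filter, mem_Ioc] at hp
  obtain ⟨⟨⟨hp1, _⟩, hp2⟩, hp3⟩ := hp
  unfold cut
  rw [if_pos]
  rw [mem_Ioc]
  constructor
  · exact Nat.div_pos (Nat.le_of_dvd (by omega) hp3) hp2.pos
  · calc n / p ≤ n / P := Nat.div_le_div_left hp1.le (by omega)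
      _ ≤ 4 * X / P := Nat.div_le_div_right (by omega)

private theorem DSq_Deq (b : ℕ → ℝ) (P X H H1 x : ℕ) (α : ℝ) (hP : 1 ≤ P) (hx : x ∈ Ico X (2 * X)) (hH : H ≤ X)
    (hH1 : H1 ≤ X) : D (tf b P α) H H1 x = D (tf (cut 0 (4 * X / P) b) P α) H H1 x := by
  rw [mem_Ico] at hx
  have h1 : ∀ H' : ℕ, H' ≤ X → Pool.Agent.H88.PSI.W (tf b P α) H' x =
      Pool.Agent.H88.PSI.W (tf (cut 0 (4 * X / P) b) P α) H' x := by
    intro H' hH'
    unfold Pool.Agent.H88.PSI.W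
    refine sum_congr rfl fun n hn => ?_
    rw [mem_Ioc] at hn
    unfold tf
    rw [DSq_cut b P X n hP (by omega) (by omega)]
  unfold D
  rw [h1 H hH, h1 H1 hH1]

private theorem DSq_card (P X n : ℕ) (hP : 8 * X < P ^ 5) (h1 : 1 ≤ n) (h2 : n ≤ 8 * X) :
    ((pb P).filter (fun p => p ∣ n)).card ≤ 4 := by
  by_contra hcon
  push Not at hcon
  obtain ⟨S, hS, hSc⟩ := exists_subset_card_eq (show 5 ≤ ((pb P).filter (fun p => p ∣ n)).card by omega)
  have hmem : ∀ p ∈ S, P < p ∧ p.Prime ∧ p ∣ n := by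
    intro p hp
    have := hS hp
    rw [mem_filter, pb, mem_filter, mem_Ioc] at this
    exact ⟨this.1.1.1, this.1.2, this.2⟩
  have h3 : ∏ p ∈ S, p ∣ n := by
    refine Finset.prod_primes_dvd n ?_ ?_
    · intro p hp
      exact (hmem p hp).2.1.prime
    · intro p hp
      exact (hmem p hp).2.2
  have h4 : P ^ 5 ≤ ∏ p ∈ S, p := by
    rw [← hSc]
    exact Finset.pow_card_le_prod S _ P fun p hp => (hmem p hp).1.le
  have h5 := Nat.le_of_dvd (by omega) h3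
  omega

private theorem DSq_ss (b : ℕ → ℝ) (P X : ℕ) (α : ℝ) (hP : 8 * X < P ^ 5) (hb : ∀ k, |b k| ≤ 1) :
    SS (tf (cut 0 (4 * X / P) b) P α) (8 * X) ≤ 128 * X := by
  have h1 : ∀ n ∈ Icc 1 (8 * X), ‖tf (cut 0 (4 * X / P) b) P α n‖ ^ 2 ≤ 16 := by
    intro n hn
    rw [mem_Icc] at hn
    have h2 : ‖tf (cut 0 (4 * X / P) b) P α n‖ ≤ 4 := by
      unfold tf
      rw [norm_mul, Pool.Agent.H91.PK.LSa_norm_ee, mul_one, Complex.norm_real, Real.norm_eq_abs]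
      unfold Fp
      refine (abs_sum_le_sum_abs _ _).trans ?_
      have h3 : ∀ p ∈ (pb P).filter (fun p => p ∣ n), |cut 0 (4 * X / P) b (n / p)| ≤ 1 := by
        intro p _
        unfold cut
        split_ifs
        · exact hb _
        · simp
      refine (sum_le_card_nsmul _ _ 1 h3).trans ?_
      rw [nsmul_eq_mul, mul_one]
      exact_mod_cast DSq_card P X n hP hn.1 hn.2
    have h3 := pow_le_pow_left₀ (norm_nonneg _) h2 2
    linarith only [h3]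
  unfold SS
  refine (sum_le_card_nsmul _ _ 16 h1).trans ?_
  rw [Nat.card_Icc, nsmul_eq_mul]
  have h4 : 8 * X + 1 - 1 = 8 * X := by omega
  rw [h4]
  push_cast
  linarith only

/-- the first error term -/
private theorem DSq_b (X K T0 H1 S L : ℝ) (A K' A1 : ℕ) (hX : 0 < X) (hL : 10 ^ 8 ≤ L)
    (_hK0 : 0 ≤ K) (hK : K ≤ 2 * L ^ (A + 2)) (hT0 : T0 = L ^ K') (hH10 : 0 ≤ H1) (hH1 : H1 ≤ X / L ^ A1)
    (hS0 : 0 ≤ S) (hS : S ≤ 128 * X) (hA : A + 2 + 3 * K' + A + 1 ≤ 2 * A1) :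
    8 * X * K * (1000 * (T0 ^ 3 * H1 ^ 2 * (8 * X) / X ^ 4) * S) ≤ X / (4 * L ^ A) := by
  have hL0 : 0 < L := by linarith only [hL]
  have hL1 : 1 ≤ L := by linarith only [hL]
  have h1 : H1 ^ 2 ≤ X ^ 2 / L ^ (2 * A1) := by
    have := pow_le_pow_left₀ hH10 hH1 2
    rw [div_pow, ← pow_mul, mul_comm A1 2] at this
    exact this
  have h2 : T0 ^ 3 = L ^ (3 * K') := by rw [hT0, ← pow_mul, mul_comm]
  have h3 : 8 * X * K * (1000 * (T0 ^ 3 * H1 ^ 2 * (8 * X) / X ^ 4) * S)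
      ≤ 8 * X * (2 * L ^ (A + 2)) * (1000 * (L ^ (3 * K') * (X ^ 2 / L ^ (2 * A1)) * (8 * X) / X ^ 4) *
        (128 * X)) := by
    rw [h2]
    gcongr
  refine h3.trans ?_
  have h4 : 8 * X * (2 * L ^ (A + 2)) * (1000 * (L ^ (3 * K') * (X ^ 2 / L ^ (2 * A1)) * (8 * X) / X ^ 4) *
        (128 * X)) = 16384000 * X * L ^ (A + 2 + 3 * K') / L ^ (2 * A1) := by
    rw [pow_add L (A + 2) (3 * K')]
    field_simp
    ring
  rw [h4]
  have h5 : L ^ (A + 2 + 3 * K' + A + 1) ≤ L ^ (2 * A1) := pow_le_pow_right₀ hL1 hA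
  rw [div_le_div_iff₀ (by positivity) (by positivity)]
  calc 16384000 * X * L ^ (A + 2 + 3 * K') * (4 * L ^ A)
      = 65536000 * (X * (L ^ (A + 2 + 3 * K') * L ^ A)) := by ring
    _ ≤ L * (X * (L ^ (A + 2 + 3 * K') * L ^ A)) :=
        mul_le_mul_of_nonneg_right (by linarith only [hL]) (by positivity)
    _ = X * L ^ (A + 2 + 3 * K' + A + 1) := by
        rw [pow_succ L (A + 2 + 3 * K' + A), pow_add L (A + 2 + 3 * K') A]; ring
    _ ≤ X * L ^ (2 * A1) := mul_le_mul_of_nonneg_left h5 hX.le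

/-- the second error term -/
private theorem DSq_c (X K H T N S L : ℝ) (A : ℕ) (hX : 1 ≤ X) (hL : 10 ^ 9 ≤ L)
    (_hK0 : 0 ≤ K) (hK : K ≤ 2 * L ^ (A + 2)) (hH : 1 ≤ H) (hHT : H * T = X * L ^ (2 * A + 10)) (hT : 0 < T)
    (hN0 : 0 ≤ N) (hN : N ≤ 24 * L * X) (hS0 : 0 ≤ S) (hS : S ≤ 128 * X) :
    8 * X * K * (1000 * (1 / H ^ 2 * (1 / T + N / T ^ 2)) * S) ≤ X / (4 * L ^ A) := by
  have hX0 : 0 < X := by linarith
  have hL0 : 0 < L := by linarith
  have hL1 : 1 ≤ L := by linarith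
  have hH0 : 0 < H := by linarith
  have e1 : 1 / H ^ 2 * (1 / T) ≤ 1 / (X * L ^ (2 * A + 10)) := by
    rw [one_div_mul_one_div]
    apply div_le_div_of_nonneg_left (by norm_num) (by positivity)
    rw [← hHT]
    have : 0 ≤ (H - 1) * (H * T) := mul_nonneg (by linarith) (by positivity)
    nlinarith only [this]
  have e2 : 1 / H ^ 2 * (N / T ^ 2) ≤ 24 * L / (X * L ^ (2 * A + 10)) := by
    rw [div_mul_div_comm, one_mul]
    have h1 : H ^ 2 * T ^ 2 = X ^ 2 * (L ^ (2 * A + 10) * L ^ (2 * A + 10)) := by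
      rw [← mul_pow, hHT]; ring
    rw [h1]
    have h2 : 1 ≤ L ^ (2 * A + 10) := one_le_pow₀ hL1
    calc N / (X ^ 2 * (L ^ (2 * A + 10) * L ^ (2 * A + 10))) ≤ 24 * L * X / (X ^ 2 * (L ^ (2 * A + 10) * 1)) := by
          apply div_le_div₀ (by positivity) hN (by positivity)
          gcongr
      _ = 24 * L / (X * L ^ (2 * A + 10)) := by field_simp
  have e3 : 1 / H ^ 2 * (1 / T + N / T ^ 2) ≤ 25 * L / (X * L ^ (2 * A + 10)) := by
    rw [mul_add]
    have : 1 / (X * L ^ (2 * A + 10)) ≤ L / (X * L ^ (2 * A + 10)) := by gcongr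
    have h2 : 25 * L / (X * L ^ (2 * A + 10)) = 24 * L / (X * L ^ (2 * A + 10)) + L / (X * L ^ (2 * A + 10)) := by
      ring
    linarith only [e1, e2, this, h2]
  have hW0 : 0 ≤ 1 / H ^ 2 * (1 / T + N / T ^ 2) := by positivity
  have h3 : 8 * X * K * (1000 * (1 / H ^ 2 * (1 / T + N / T ^ 2)) * S)
      ≤ 8 * X * (2 * L ^ (A + 2)) * (1000 * (25 * L / (X * L ^ (2 * A + 10))) * (128 * X)) := by
    gcongr
  refine h3.trans ?_
  have h4 : L ^ (2 * A + 10) = L ^ (A + 2) * L ^ A * L ^ 8 := by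
    rw [← pow_add, ← pow_add]
    congr 1
    omega
  have h5 : 8 * X * (2 * L ^ (A + 2)) * (1000 * (25 * L / (X * L ^ (2 * A + 10))) * (128 * X))
      = 51200000 * X / (L ^ A * L ^ 7) := by
    rw [h4]
    have h9 : L ^ (A + 2) ≠ 0 := by positivity
    generalize L ^ (A + 2) = q at h9
    field_simp
    ring
  rw [h5, div_le_div_iff₀ (by positivity) (by positivity)]
  have h6 : 204800000 ≤ L ^ 7 := by
    calc (204800000 : ℝ) ≤ L := by linarith only [hL]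
      _ = L ^ 1 := (pow_one L).symm
      _ ≤ L ^ 7 := pow_le_pow_right₀ hL1 (by norm_num)
  calc 51200000 * X * (4 * L ^ A) = 204800000 * (X * L ^ A) := by ring
    _ ≤ L ^ 7 * (X * L ^ A) := mul_le_mul_of_nonneg_right h6 (by positivity)
    _ = X * (L ^ A * L ^ 7) := by ring

private theorem DSq_a (X K S L : ℝ) (A : ℕ) (hX : 0 < X) (hL : 51200 ≤ L)
    (hK : L ^ (A + 2) ≤ K) (hS : S ≤ 128 * X) :
    100 * S / K ^ 2 ≤ X / (4 * L ^ A) := by
  have hL0 : 0 < L := by linarith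
  have hL1 : 1 ≤ L := by linarith
  have hK0 : 0 < K := lt_of_lt_of_le (by positivity) hK
  have h1 : (L ^ (A + 2)) ^ 2 ≤ K ^ 2 := pow_le_pow_left₀ (by positivity) hK 2
  calc 100 * S / K ^ 2 ≤ 100 * (128 * X) / (L ^ (A + 2)) ^ 2 := by
        apply div_le_div₀ (by positivity) (by linarith) (by positivity) h1
    _ ≤ X / (4 * L ^ A) := by
        rw [div_le_div_iff₀ (by positivity) (by positivity)]
        have h2 : (L ^ (A + 2)) ^ 2 = L ^ A * (L ^ A * L ^ 4) := by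
          rw [← pow_mul, ← pow_add, ← pow_add]
          congr 1
          omega
        have h4 : 1 ≤ L ^ A := one_le_pow₀ hL1
        have h6 : 51200 ≤ L ^ 4 := by
          calc (51200 : ℝ) ≤ L := hL
            _ = L ^ 1 := (pow_one L).symm
            _ ≤ L ^ 4 := pow_le_pow_right₀ hL1 (by norm_num)
        rw [h2]
        have h7 : 51200 ≤ L ^ A * L ^ 4 := by nlinarith only [h4, h6]
        calc 100 * (128 * X) * (4 * L ^ A) = 51200 * (X * L ^ A) := by ring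
          _ ≤ L ^ A * L ^ 4 * (X * L ^ A) := mul_le_mul_of_nonneg_right h7 (by positivity)
          _ = X * (L ^ A * (L ^ A * L ^ 4)) := by ring

private theorem DSq_d (X K I L : ℝ) (A : ℕ) (hX : 0 < X) (hL : 256 ≤ L) (_hK0 : 0 ≤ K)
    (hK : K ≤ 2 * L ^ (A + 2)) (hI0 : 0 ≤ I) (hI : I ≤ X ^ 2 / L ^ (2 * A + 6)) :
    8 * X * K * (4 / X ^ 2 * I) ≤ X / (4 * L ^ A) := by
  have hL0 : 0 < L := by linarith
  have hL1 : 1 ≤ L := by linarith
  calc 8 * X * K * (4 / X ^ 2 * I) ≤ 8 * X * (2 * L ^ (A + 2)) * (4 / X ^ 2 * (X ^ 2 / L ^ (2 * A + 6))) := by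
        gcongr
    _ = 64 * X / (L ^ A * L ^ 4) := by
        have h8 : L ^ (2 * A + 6) = L ^ (A + 2) * (L ^ A * L ^ 4) := by
          rw [← pow_add, ← pow_add]
          congr 1
          omega
        rw [h8]
        have h9 : L ^ (A + 2) ≠ 0 := by positivity
        generalize L ^ (A + 2) = q at h9
        field_simp
        ring
    _ ≤ X / (4 * L ^ A) := by
        rw [div_le_div_iff₀ (by positivity) (by positivity)]
        have h8 : 0 < X * L ^ A := by positivity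
        have h6 : 256 ≤ L ^ 4 := by
          calc (256 : ℝ) ≤ L := hL
            _ = L ^ 1 := (pow_one L).symm
            _ ≤ L ^ 4 := pow_le_pow_right₀ hL1 (by norm_num)
        calc 64 * X * (4 * L ^ A) = 256 * (X * L ^ A) := by ring
          _ ≤ L ^ 4 * (X * L ^ A) := mul_le_mul_of_nonneg_right h6 h8.le
          _ = X * (L ^ A * L ^ 4) := by ring

theorem d_sq (hVK : VKp) (η : ℝ) (hη : 0 < η) (A B : ℕ) : ∃ A0 : ℕ, ∀ A1 : ℕ, A0 ≤ A1 → ∃ X0 : ℕ, ∀ X : ℕ, X0 ≤ X →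
    ∀ (P d a H H1 : ℕ) (b : ℕ → ℝ), (X : ℝ) ^ (1 / 5 + η) ≤ P → (X : ℝ) ^ (1 / 5 + η) ≤ H →
    (P : ℝ) ^ 2 * H ≤ 16 * X → 1 ≤ d → (d : ℝ) ≤ Real.log X ^ B → (∀ k, |b k| ≤ 1) →
    H ≤ H1 → (H1 : ℝ) ≤ X / Real.log X ^ A1 →
    ∑ x ∈ Ico X (2 * X), ‖D (tf b P ((a : ℝ) / d)) H H1 x‖ ^ 2 ≤ X / Real.log X ^ A := by
  obtain ⟨K', X1, hI⟩ := dp_int hVK η hη (2 * A + 6) B (2 * A + 10)
  refine ⟨A + 2 * K' + 10, ?_⟩
  intro A1 hA1
  obtain ⟨X2, hX2⟩ := Pool.Agent.H80.LV.log_ge (10 ^ 9)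
  obtain ⟨X3, hX3⟩ := Pool.Agent.H80.LV.log_pow_le (1 / 5) 2 (by norm_num) (by norm_num) (A + 2)
  obtain ⟨X4, hX4⟩ := Pool.Agent.H80.LV.log_pow_le (2 / 5) 16 (by norm_num) (by norm_num) K'
  obtain ⟨X5, hX5⟩ := Pool.Agent.H80.LV.log_pow_le (5 * η) 9 (by positivity) (by norm_num) 0
  refine ⟨max (max X1 X2) (max (max X3 X4) (max X5 8)), ?_⟩
  intro X hX P d a H H1 b hP hH hPH hd hdB hb hHH1 hH1
  simp only [max_le_iff] at hX
  obtain ⟨⟨hXa, hXb⟩, ⟨hXc, hXd⟩, hXe, hXh⟩ := hX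
  have hX8 : (8 : ℝ) ≤ X := by exact_mod_cast hXh
  have hX0 : (0 : ℝ) < X := by linarith only [hX8]
  have hX1' : (1 : ℝ) ≤ X := by linarith only [hX8]
  have hL := hX2 X hXb
  have h3 := hX3 X hXc
  have h4 := hX4 X hXd
  have h5 := hX5 X hXe
  set L := Real.log X with hLdef
  have hL1 : 1 ≤ L := by linarith only [hL]
  have hL0 : 0 < L := by linarith only [hL]
  -- sizes
  have hX15 : (X : ℝ) ^ (1 / 5 : ℝ) ≤ (X : ℝ) ^ (1 / 5 + η) :=
    Real.rpow_le_rpow_of_exponent_le hX1' (by linarith only [hη])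
  have hX15' : (1 : ℝ) ≤ (X : ℝ) ^ (1 / 5 : ℝ) := Real.one_le_rpow hX1' (by norm_num)
  have hP1 : (1 : ℝ) ≤ P := hX15'.trans (hX15.trans hP)
  have hPn : 1 ≤ P := by exact_mod_cast hP1
  have hH1r : (1 : ℝ) ≤ H := hX15'.trans (hX15.trans hH)
  have hHpos : (0 : ℝ) < H := by linarith only [hH, hX15, hX15']
  have hLA1 : (0 : ℝ) < L ^ A1 := by positivity
  have hH1X : (H1 : ℝ) ≤ X := by
    refine hH1.trans ?_
    apply div_le_self hX0.le (one_le_pow₀ hL1)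
  have hH1Xn : H1 ≤ X := by exact_mod_cast hH1X
  have hHX : H ≤ X := hHH1.trans hH1Xn
  have hP5 : 8 * X < P ^ 5 := by
    have h6 : (8 : ℝ) * X < (P : ℝ) ^ 5 := by
      have h7 : (X : ℝ) ^ (1 + 5 * η) ≤ (P : ℝ) ^ 5 := by
        have h8 := pow_le_pow_left₀ (by positivity) hP 5
        refine le_trans (le_of_eq ?_) h8
        rw [← Real.rpow_natCast, ← Real.rpow_mul hX0.le]
        congr 1
        push_cast
        ring
      have h9 : (X : ℝ) ^ (1 + 5 * η) = X * (X : ℝ) ^ (5 * η) := by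
        rw [Real.rpow_add hX0, Real.rpow_one]
      rw [pow_zero, mul_one] at h5
      have h10 : (9 : ℝ) * X ≤ X * (X : ℝ) ^ (5 * η) := by nlinarith only [h5]
      linarith only [hX8, h7, h9, h10]
    exact_mod_cast h6
  -- the truncated function
  set K2 : ℕ := 4 * X / P with hK2def
  set f : ℕ → ℂ := tf (cut 0 K2 b) P ((a : ℝ) / d) with hf
  have hDf : ∑ x ∈ Ico X (2 * X), ‖D (tf b P ((a : ℝ) / d)) H H1 x‖ ^ 2 =
      ∑ x ∈ Ico X (2 * X), ‖D f H H1 x‖ ^ 2 := by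
    refine sum_congr rfl fun x hx => ?_
    rw [DSq_Deq b P X H H1 x _ hPn hx hHX hH1Xn]
  rw [hDf]
  -- parameters
  set K : ℕ := ⌈L ^ (A + 2)⌉₊ with hKdef
  have hK1 : L ^ (A + 2) ≤ K := Nat.le_ceil _
  have hLA2 : (1 : ℝ) ≤ L ^ (A + 2) := one_le_pow₀ hL1
  have hK2 : (K : ℝ) ≤ 2 * L ^ (A + 2) := by
    have := (Nat.ceil_lt_add_one (by positivity : 0 ≤ L ^ (A + 2))).le
    linarith only [hLA2, this]
  have hK3 : 1 ≤ K := by
    have : (1 : ℝ) ≤ K := hLA2.trans hK1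
    exact_mod_cast this
  have hKH : K ≤ H := by
    have h8 : (K : ℝ) ≤ H := (hK2.trans h3).trans (hX15.trans hH)
    exact_mod_cast h8
  have hS : SS f (8 * X) ≤ 128 * X := DSq_ss b P X _ hP5 hb
  set S := SS f (8 * X) with hSdef
  have hS0 : 0 ≤ S := sum_nonneg fun _ _ => sq_nonneg _
  set T0 : ℝ := L ^ K' with hT0def
  set T : ℝ := X * L ^ (2 * A + 10) / H with hTdef
  have hHT : H * T = X * L ^ (2 * A + 10) := by
    rw [hTdef]
    field_simp
  have hT01 : 1 ≤ T0 := one_le_pow₀ hL1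
  have hXH : (X : ℝ) ^ (2 / 5 : ℝ) * H ≤ 16 * X := by
    refine le_trans ?_ hPH
    apply mul_le_mul_of_nonneg_right _ hHpos.le
    have h8 := pow_le_pow_left₀ (by positivity) (hX15.trans hP) 2
    refine le_trans (le_of_eq ?_) h8
    rw [← Real.rpow_natCast, ← Real.rpow_mul hX0.le]
    norm_num
  have hT0T : T0 ≤ T := by
    rw [hTdef, le_div_iff₀ hHpos]
    have h8 : 16 * (T0 * H) ≤ 16 * X := by
      calc 16 * (T0 * H) = 16 * L ^ K' * H := by rw [hT0def]; ring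
        _ ≤ (X : ℝ) ^ (2 / 5 : ℝ) * H := mul_le_mul_of_nonneg_right h4 hHpos.le
        _ ≤ 16 * X := hXH
    have h9 : (X : ℝ) * 1 ≤ X * L ^ (2 * A + 10) := mul_le_mul_of_nonneg_left (one_le_pow₀ hL1) hX0.le
    linarith only [h8, h9]
  have hTpos : 0 < T := by linarith only [hT01, hT0T]
  have hI' := hI X hXa P K2 d a (8 * X) b H T hP hH hPH ?_ hd hdB hb (by linarith only [hT01, hT0T]) ?_ ?_
  rotate_left
  · have h8 : 4 * X / P * P ≤ 4 * X := Nat.div_mul_le_self _ _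
    rw [hK2def]
    omega
  · rw [mul_comm, hHT]
  · have h8 : P * (4 * X / P) ≤ 4 * X := Nat.mul_div_le _ _
    rw [hK2def]
    calc 2 * P * (4 * X / P) = 2 * (P * (4 * X / P)) := by ring
      _ ≤ 2 * (4 * X) := Nat.mul_le_mul_left 2 h8
      _ = 8 * X := by ring
  set I : ℝ := ∫ t in {t : ℝ | T0 ≤ |t| ∧ |t| ≤ T}, ‖DP f (8 * X) t‖ ^ 2 with hIdef
  have hconv := conv f (8 * X) X H H1 K (by omega) hK3 hKH hHH1 hH1Xn (by omega)
  -- the Plancherel bound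
  have hpars : ∀ i ∈ range K, ∫ u, ‖Gw f (8 * X) (Real.log (1 + H / (X * (1 + (i : ℝ) / K))))
          (Real.log (1 + H1 / (X * (1 + (i : ℝ) / K)))) H H1 u‖ ^ 2
      ≤ 1000 * (T0 ^ 3 * H1 ^ 2 * ((8 * X : ℕ) : ℝ) / X ^ 4
          + 1 / H ^ 2 * (1 / T + ((8 * X : ℕ) : ℝ) * (1 + Real.log ((8 * X : ℕ) : ℝ)) / T ^ 2)) * S
        + 4 / X ^ 2 * I := by
    intro i _
    have hKr : (0 : ℝ) < K := by exact_mod_cast hK3
    have hi0 : (0 : ℝ) ≤ (i : ℝ) / K := by positivity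
    set Xi : ℝ := X * (1 + (i : ℝ) / K) with hXi
    have hXiX : (X : ℝ) ≤ Xi := by rw [hXi]; nlinarith only [hi0]
    have hXi0 : 0 < Xi := by linarith only [hX8, hXiX]
    have hH1pos : (0 : ℝ) < H1 := by
      have : (H : ℝ) ≤ H1 := by exact_mod_cast hHH1
      linarith only [hH, h3, hX15, hLA2, this]
    have hup : ∀ h : ℝ, 0 ≤ h → Real.log (1 + h / Xi) ≤ h / X := by
      intro h hh
      have h8 := Real.log_le_sub_one_of_pos (by positivity : 0 < 1 + h / Xi)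
      have h9 : h / Xi ≤ h / X := div_le_div_of_nonneg_left hh hX0 hXiX
      linarith only [h8, h9]
    have hlo : ∀ h : ℝ, 0 ≤ h → 0 ≤ Real.log (1 + h / Xi) := by
      intro h hh
      apply Real.log_nonneg
      have : 0 ≤ h / Xi := by positivity
      linarith only [this]
    exact pars f (8 * X) X H H1 _ _ T0 T (by omega) hX1'
      (by exact_mod_cast (hK3.trans hKH)) (by exact_mod_cast hHH1) hH1X (hlo _ hHpos.le)
      (hup _ hHpos.le) (hlo _ hH1pos.le) (hup _ hH1pos.le)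
      (DSq_hd X Xi H H1 hX0 hXiX hHpos (by exact_mod_cast hHH1)) hT01 hT0T
  set E : ℝ := 1000 * (T0 ^ 3 * H1 ^ 2 * ((8 * X : ℕ) : ℝ) / X ^ 4
          + 1 / H ^ 2 * (1 / T + ((8 * X : ℕ) : ℝ) * (1 + Real.log ((8 * X : ℕ) : ℝ)) / T ^ 2)) * S
        + 4 / X ^ 2 * I with hE
  have hsumE : ∑ i ∈ range K, ∫ u, ‖Gw f (8 * X) (Real.log (1 + H / (X * (1 + (i : ℝ) / K))))
          (Real.log (1 + H1 / (X * (1 + (i : ℝ) / K)))) H H1 u‖ ^ 2 ≤ K * E := by
    refine (sum_le_sum hpars).trans (le_of_eq ?_)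
    simp [sum_const, card_range, nsmul_eq_mul]
  -- numerical bounds
  have hNr : ((8 * X : ℕ) : ℝ) = 8 * X := by push_cast; ring
  have hlogN : 1 + Real.log ((8 * X : ℕ) : ℝ) ≤ 3 * L := by
    rw [hNr, Real.log_mul (by norm_num) hX0.ne']
    have : Real.log 8 ≤ 8 - 1 := Real.log_le_sub_one_of_pos (by norm_num)
    linarith only [hL, this]
  have hlogN0 : 0 ≤ 1 + Real.log ((8 * X : ℕ) : ℝ) := by
    have : 0 ≤ Real.log ((8 * X : ℕ) : ℝ) := Real.log_natCast_nonneg _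
    linarith only [this]
  have ea := DSq_a X K S L A hX0 (by linarith only [hL]) hK1 hS
  have eb := DSq_b X K T0 H1 S L A K' A1 hX0 (by linarith only [hL]) (by positivity) hK2 rfl (by positivity) hH1 hS0 hS
    (by omega)
  have ec := DSq_c X K H T (((8 * X : ℕ) : ℝ) * (1 + Real.log ((8 * X : ℕ) : ℝ))) S L A
    hX1' hL (by positivity) hK2 hH1r hHT hTpos (by positivity)
    (by rw [hNr]; rw [hNr] at hlogN; nlinarith only [hlogN]) hS0 hS
  have hI0 : 0 ≤ I := setIntegral_nonneg_of_ae (Filter.Eventually.of_forall fun _ => sq_nonneg _)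
  have ed := DSq_d X K I L A hX0 (by linarith only [hL]) (by positivity) hK2 hI0 hI'
  have hfin : ∑ x ∈ Ico X (2 * X), ‖D f H H1 x‖ ^ 2
      ≤ 100 * S / (K : ℝ) ^ 2 + 8 * X * (K * E) :=
    hconv.trans (by
      have := mul_le_mul_of_nonneg_left hsumE (by positivity : (0 : ℝ) ≤ 8 * X)
      linarith only [this])
  have hE2 : 8 * X * (K * E) = 8 * X * K * (1000 * (T0 ^ 3 * H1 ^ 2 * (8 * X) / X ^ 4) * S)
      + 8 * X * K * (1000 * (1 / H ^ 2 * (1 / T + ((8 * X : ℕ) : ℝ) * (1 + Real.log ((8 * X : ℕ) : ℝ)) / T ^ 2)) * S)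
      + 8 * X * K * (4 / X ^ 2 * I) := by
    rw [hE]
    nth_rewrite 1 [hNr]
    ring
  rw [hE2] at hfin
  have h9 : X / (4 * L ^ A) + (X / (4 * L ^ A) + X / (4 * L ^ A) + X / (4 * L ^ A)) = X / L ^ A := by
    field_simp; ring
  linarith only [ea, eb, ec, ed, hfin, h9]

end Pool.Agent.H31.EQ

end

section

/-!
# EQ ClsD: from additive twists to residue classes

`cf b P d c n = (1/d) ∑_{a<d} ee(a c/d) tf b P (a/d) n` (`∑_{a<d} ee(a (c-n)/d) = d [n ≡ c (d)]`, orthogonality; e.g. `VkClass`/`HSq`/`Tls` use it too: geometric sum), `D` is linear (`d_sum`, `d_smul`),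
Cauchy-Schwarz: `‖D(cf)‖² ≤ (1/d) ∑_{a<d} ‖D(tf b P (a/d))‖²`; `d_sq` for every `a`.
-/

set_option autoImplicit false

namespace Pool.Agent.H31.EQ

open Finset MeasureTheory
open Pool.Agent.H91.PK (ee)
open Pool.Agent.H35.W (pb)
open Pool.Agent.H53.MID (Fp VKp)
open Pool.Agent.H88.PSI (D W)

private theorem ClsD_norm_ee (t : ℝ) : ‖ee t‖ = 1 := by
  unfold ee
  rw [show (2 * (Real.pi : ℂ) * (t : ℂ) * Complex.I) = ((2 * Real.pi * t : ℝ) : ℂ) * Complex.I by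
    push_cast; ring]
  exact Complex.norm_exp_ofReal_mul_I _

private theorem ClsD_pow (a c n d : ℕ) :
    ee ((a : ℝ) * c / d) * ee (-((n : ℝ) * ((a : ℝ) / d))) = ee (((c : ℝ) - n) / d) ^ a := by
  unfold ee
  rw [← Complex.exp_add, ← Complex.exp_nat_mul]
  congr 1
  push_cast
  ring

private theorem ClsD_one {c n d : ℕ} (hd : 1 ≤ d) :
    ee (((c : ℝ) - n) / d) = 1 ↔ n % d = c % d := by
  have hd' : (d : ℂ) ≠ 0 := by
    have : d ≠ 0 := by omega
    exact_mod_cast this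
  unfold ee
  rw [Complex.exp_eq_one_iff]
  have h2 : (2 * (Real.pi : ℂ) * Complex.I) ≠ 0 := Complex.two_pi_I_ne_zero
  constructor
  · rintro ⟨k, hk⟩
    have h3 : (2 * (Real.pi : ℂ) * Complex.I) * (((c : ℂ) - n) / d) = (2 * (Real.pi : ℂ) * Complex.I) * k := by
      have := hk
      push_cast at this
      linear_combination this
    have h4 := mul_left_cancel₀ h2 h3
    have h5 : ((c : ℂ) - n) = k * d := by
      rw [div_eq_iff hd'] at h4
      exact h4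
    have h6 : ((c : ℤ) - n) = k * d := by
      exact_mod_cast h5
    have h7 : n ≡ c [MOD d] := by
      rw [Nat.modEq_iff_dvd]
      exact ⟨k, by rw [h6]; ring⟩
    exact h7
  · intro h
    have h7 : n ≡ c [MOD d] := h
    rw [Nat.modEq_iff_dvd] at h7
    obtain ⟨k, hk⟩ := h7
    refine ⟨k, ?_⟩
    have h5 : ((c : ℂ) - n) = d * k := by exact_mod_cast hk
    push_cast
    rw [h5]
    field_simp

private theorem ClsD_end {c n d : ℕ} (hd : 1 ≤ d) : ee (((c : ℝ) - n) / d) ^ d = 1 := by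
  have hd' : (d : ℂ) ≠ 0 := by
    have : d ≠ 0 := by omega
    exact_mod_cast this
  unfold ee
  rw [← Complex.exp_nat_mul, Complex.exp_eq_one_iff]
  refine ⟨(c : ℤ) - n, ?_⟩
  push_cast
  field_simp

private theorem ClsD_orth (c n d : ℕ) (hd : 1 ≤ d) :
    ∑ a ∈ range d, ee ((a : ℝ) * c / d) * ee (-((n : ℝ) * ((a : ℝ) / d)))
      = if n % d = c % d then (d : ℂ) else 0 := by
  simp only [ClsD_pow]
  split_ifs with h
  · rw [(ClsD_one hd).2 h]
    simp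
  · have h1 : ee (((c : ℝ) - n) / d) ≠ 1 := fun h2 => h ((ClsD_one hd).1 h2)
    rw [geom_sum_eq h1, ClsD_end hd]
    simp

/-- the class is a mean of the twists -/
theorem cf_eq (b : ℕ → ℝ) (P d c n : ℕ) (hd : 1 ≤ d) :
    cf b P d c n = 1 / (d : ℂ) * ∑ a ∈ range d, ee ((a : ℝ) * c / d) * tf b P ((a : ℝ) / d) n := by
  have hd' : (d : ℂ) ≠ 0 := by
    have : d ≠ 0 := by omega
    exact_mod_cast this
  have h1 : ∑ a ∈ range d, ee ((a : ℝ) * c / d) * tf b P ((a : ℝ) / d) n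
      = ((Fp b P n : ℝ) : ℂ) * (if n % d = c % d then (d : ℂ) else 0) := by
    rw [← ClsD_orth c n d hd, Finset.mul_sum]
    refine Finset.sum_congr rfl fun a _ => ?_
    unfold tf
    ring
  rw [h1]
  unfold cf
  split_ifs
  · field_simp
  · simp

private theorem ClsD_norm (b : ℕ → ℝ) (P d c H H1 x : ℕ) (hd : 1 ≤ d) :
    ‖D (cf b P d c) H H1 x‖ ^ 2 ≤ 1 / (d : ℝ) * ∑ a ∈ range d, ‖D (tf b P ((a : ℝ) / d)) H H1 x‖ ^ 2 := by
  have hd' : (0 : ℝ) < d := by exact_mod_cast hd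
  have h1 : cf b P d c = fun n => ∑ a ∈ range d,
      (fun a : ℕ => fun n : ℕ => (1 / (d : ℂ) * ee ((a : ℝ) * c / d)) * tf b P ((a : ℝ) / d) n) a n := by
    funext n
    rw [cf_eq b P d c n hd, Finset.mul_sum]
    refine Finset.sum_congr rfl fun a _ => ?_
    ring
  have h2 : D (cf b P d c) H H1 x
      = ∑ a ∈ range d, (1 / (d : ℂ) * ee ((a : ℝ) * c / d)) * D (tf b P ((a : ℝ) / d)) H H1 x := by
    rw [h1, Pool.Agent.H88.PSI.d_sum]
    refine Finset.sum_congr rfl fun a _ => ?_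
    exact Pool.Agent.H88.PSI.d_smul _ _ H H1 x
  have h3 : ‖D (cf b P d c) H H1 x‖ ≤ 1 / (d : ℝ) * ∑ a ∈ range d, ‖D (tf b P ((a : ℝ) / d)) H H1 x‖ := by
    rw [h2, Finset.mul_sum]
    refine (norm_sum_le _ _).trans (Finset.sum_le_sum fun a _ => ?_)
    rw [norm_mul, norm_mul, ClsD_norm_ee, mul_one, norm_div, norm_one, Complex.norm_natCast]
  have h4 : (∑ a ∈ range d, ‖D (tf b P ((a : ℝ) / d)) H H1 x‖) ^ 2
      ≤ d * ∑ a ∈ range d, ‖D (tf b P ((a : ℝ) / d)) H H1 x‖ ^ 2 := by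
    have := sq_sum_le_card_mul_sum_sq (s := range d) (f := fun a : ℕ => ‖D (tf b P ((a : ℝ) / d)) H H1 x‖)
    rwa [Finset.card_range] at this
  calc ‖D (cf b P d c) H H1 x‖ ^ 2
      ≤ (1 / (d : ℝ) * ∑ a ∈ range d, ‖D (tf b P ((a : ℝ) / d)) H H1 x‖) ^ 2 :=
        pow_le_pow_left₀ (norm_nonneg _) h3 2
    _ = (1 / (d : ℝ)) ^ 2 * (∑ a ∈ range d, ‖D (tf b P ((a : ℝ) / d)) H H1 x‖) ^ 2 := by ring
    _ ≤ (1 / (d : ℝ)) ^ 2 * (d * ∑ a ∈ range d, ‖D (tf b P ((a : ℝ) / d)) H H1 x‖ ^ 2) :=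
        mul_le_mul_of_nonneg_left h4 (by positivity)
    _ = 1 / (d : ℝ) * ∑ a ∈ range d, ‖D (tf b P ((a : ℝ) / d)) H H1 x‖ ^ 2 := by
        field_simp

theorem cls_d (hVK : VKp) (η : ℝ) (hη : 0 < η) (A B : ℕ) : ∃ A0 : ℕ, ∀ A1 : ℕ, A0 ≤ A1 → ∃ X0 : ℕ, ∀ X : ℕ, X0 ≤ X →
    ∀ (P d c H H1 : ℕ) (b : ℕ → ℝ), (X : ℝ) ^ (1 / 5 + η) ≤ P → (X : ℝ) ^ (1 / 5 + η) ≤ H →
    (P : ℝ) ^ 2 * H ≤ 16 * X → 1 ≤ d → (d : ℝ) ≤ Real.log X ^ B → (∀ k, |b k| ≤ 1) →
    H ≤ H1 → (H1 : ℝ) ≤ X / Real.log X ^ A1 →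
    ∑ x ∈ Ico X (2 * X), ‖D (cf b P d c) H H1 x‖ ^ 2 ≤ X / Real.log X ^ A := by
  obtain ⟨A0, h0⟩ := d_sq hVK η hη A B
  refine ⟨A0, fun A1 hA1 => ?_⟩
  obtain ⟨X0, h1⟩ := h0 A1 hA1
  refine ⟨X0, fun X hX P d c H H1 b hP hH hPH hd hdB hb hH1 hH1X => ?_⟩
  have hd' : (0 : ℝ) < d := by exact_mod_cast hd
  calc ∑ x ∈ Ico X (2 * X), ‖D (cf b P d c) H H1 x‖ ^ 2
      ≤ ∑ x ∈ Ico X (2 * X), 1 / (d : ℝ) * ∑ a ∈ range d, ‖D (tf b P ((a : ℝ) / d)) H H1 x‖ ^ 2 :=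
        Finset.sum_le_sum fun x _ => ClsD_norm b P d c H H1 x hd
    _ = 1 / (d : ℝ) * ∑ a ∈ range d, ∑ x ∈ Ico X (2 * X), ‖D (tf b P ((a : ℝ) / d)) H H1 x‖ ^ 2 := by
        rw [← Finset.mul_sum, Finset.sum_comm]
    _ ≤ 1 / (d : ℝ) * ∑ _a ∈ range d, (X : ℝ) / Real.log X ^ A := by
        refine mul_le_mul_of_nonneg_left (Finset.sum_le_sum fun a _ => ?_) (by positivity)
        exact h1 X hX P d a H H1 b hP hH hPH hd hdB hb hH1 hH1X
    _ = X / Real.log X ^ A := by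
        rw [Finset.sum_const, Finset.card_range, nsmul_eq_mul]
        field_simp

end Pool.Agent.H31.EQ

end

section

/-!
# EQ Main: the windows, one box of primes, then a sum of boxes

`eq_x`: `ew (Fp b P) H H1 d c x = H · (D (cf b P d c) H H1 x + (W (cf ..) H1 x/H1 - [(c,d)=1] gam/φ(d)))` (real numbers as complex numbers); the second term is `≤ (X/L^C)/H1 ≤ L^(A2 - C)`
by `long_c` (`y = x + H1 ≤ 4X`, exponent `C = A + A2 + 2`); `|u + v|² ≤ 2|u|² + 2|v|²`; `cls_d` with `A + 2`.  `H ≤ H1` for large `X`: `H ≤ 16 X/P² ≤ 16 X^(3/5)`.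
`eq_s`: `ew` is linear in `G` (`gam` is linear), `|∑_j|² ≤ (J1 - J0) ∑_j |·|²`, `J1 - J0 ≤ 2 L` (`2^J1 y ≤ X`); `eq_x` with `A + 3`, `P = 2^j y`.
-/

set_option autoImplicit false

namespace Pool.Agent.H31.EQ

open Finset MeasureTheory
open Pool.Agent.H91.PK (ee)
open Pool.Agent.H35.W (pb)
open Pool.Agent.H53.MID (Fp VKp)
open Pool.Agent.H88.PSI (D W)

/-- the window sums of `cf` are real -/
private theorem Main_W (b : ℕ → ℝ) (P d c H x : ℕ) :
    W (cf b P d c) H x = ((∑ n ∈ (Ioc x (x + H)).filter (fun n => n % d = c % d), Fp b P n : ℝ) : ℂ) := by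
  unfold W cf
  rw [Finset.sum_filter]
  push_cast
  refine Finset.sum_congr rfl (fun n _ => ?_)
  split_ifs <;> simp

/-- the pointwise bound -/
private theorem Main_pt (b : ℕ → ℝ) (P d c H H1 x : ℕ) (E : ℝ) (hH : 0 < (H : ℝ)) (hH1 : 0 < (H1 : ℝ))
    (hE : |(∑ n ∈ (Ioc x (x + H1)).filter (fun n => n % d = c % d), Fp b P n)
      - (if Nat.Coprime c d then (∑ n ∈ Ioc x (x + H1), Fp b P n) / d.totient else 0)| ≤ E * H1) :
    ew (Fp b P) H H1 d c x ^ 2 ≤ 2 * (H : ℝ) ^ 2 * ‖D (cf b P d c) H H1 x‖ ^ 2 + 2 * (H : ℝ) ^ 2 * E ^ 2 := by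
  set S1 : ℝ := ∑ n ∈ (Ioc x (x + H)).filter (fun n => n % d = c % d), Fp b P n with hS1
  set S2 : ℝ := ∑ n ∈ (Ioc x (x + H1)).filter (fun n => n % d = c % d), Fp b P n with hS2
  set M : ℝ := (if Nat.Coprime c d then (∑ n ∈ Ioc x (x + H1), Fp b P n) / (d.totient : ℝ) else 0) with hM
  have hD : ‖D (cf b P d c) H H1 x‖ = |S1 / H - S2 / H1| := by
    unfold D
    rw [Main_W, Main_W, ← hS1, ← hS2]
    have : ((S1 : ℝ) : ℂ) / (H : ℂ) - ((S2 : ℝ) : ℂ) / (H1 : ℂ) = ((S1 / H - S2 / H1 : ℝ) : ℂ) := by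
      push_cast
      ring
    rw [this, Complex.norm_real, Real.norm_eq_abs]
  have hew : ew (Fp b P) H H1 d c x = H * (S1 / H - S2 / H1) + H * ((S2 - M) / H1) := by
    unfold ew gam
    rw [← hS1, hM]
    have h1 : (H : ℝ) * (S1 / H - S2 / H1) = S1 - H * S2 / H1 := by
      field_simp
    split_ifs with hc
    · rw [h1]
      have h0 : ((d.totient : ℕ) : ℝ) = d.totient := rfl
      ring
    · rw [h1]
      ring
  have h2 : |(S2 - M) / H1| ≤ E := by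
    rw [abs_div, abs_of_pos hH1, div_le_iff₀ hH1]
    exact hE
  have h3 : ((S2 - M) / H1) ^ 2 ≤ E ^ 2 := by
    rw [← sq_abs]
    exact pow_le_pow_left₀ (abs_nonneg _) h2 2
  rw [hew, hD, sq_abs]
  have h4 : (H * (S1 / H - S2 / H1) + H * ((S2 - M) / H1)) ^ 2
      ≤ 2 * (H : ℝ) ^ 2 * (S1 / H - S2 / H1) ^ 2 + 2 * (H : ℝ) ^ 2 * ((S2 - M) / H1) ^ 2 := by
    nlinarith [sq_nonneg (H * (S1 / H - S2 / H1) - H * ((S2 - M) / H1))]
  have h5 : 2 * (H : ℝ) ^ 2 * ((S2 - M) / H1) ^ 2 ≤ 2 * (H : ℝ) ^ 2 * E ^ 2 :=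
    mul_le_mul_of_nonneg_left h3 (by positivity)
  linarith

/-- large `X`: `log X` beats constants, and powers of `X` beat powers of `log X` -/
private theorem Main_big (A : ℕ) : ∃ X0 : ℕ, ∀ X : ℕ, X0 ≤ X → 4 ≤ Real.log X ∧
    16 * (X : ℝ) ^ (3 / 5 : ℝ) ≤ X / Real.log X ^ A ∧ (16 : ℝ) ≤ X := by
  have h1 : ∀ᶠ x : ℝ in Filter.atTop, 4 ≤ Real.log x :=
    Real.tendsto_log_atTop.eventually_ge_atTop 4
  have h2 : ∀ᶠ x : ℝ in Filter.atTop, (16 : ℝ) ≤ x := Filter.eventually_ge_atTop 16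
  have h3 := (isLittleO_log_rpow_rpow_atTop (A : ℝ) (show (0 : ℝ) < 2 / 5 by norm_num)).bound
    (show (0 : ℝ) < 1 / 16 by norm_num)
  have h4 := (h1.and (h2.and h3)).filter_mono le_rfl
  have h5 := tendsto_natCast_atTop_atTop (R := ℝ) |>.eventually h4
  rw [Filter.eventually_atTop] at h5
  obtain ⟨X0, hX0⟩ := h5
  refine ⟨X0, fun X hX => ?_⟩
  obtain ⟨a1, a2, a3⟩ := hX0 X hX
  refine ⟨a1, ?_, a2⟩
  have hX0' : (0 : ℝ) < X := by linarith
  have hl : (0 : ℝ) < Real.log X := by linarith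
  rw [le_div_iff₀ (by positivity)]
  rw [Real.norm_of_nonneg (by positivity), Real.norm_of_nonneg (by positivity), Real.rpow_natCast] at a3
  calc 16 * (X : ℝ) ^ (3 / 5 : ℝ) * Real.log X ^ A ≤ 16 * (X : ℝ) ^ (3 / 5 : ℝ) * (1 / 16 * (X : ℝ) ^ (2 / 5 : ℝ)) := by
        gcongr
    _ = (X : ℝ) ^ (3 / 5 : ℝ) * (X : ℝ) ^ (2 / 5 : ℝ) := by ring
    _ = X := by
        rw [← Real.rpow_add hX0']
        norm_num

/-- the size of `P` and `H` -/
private theorem Main_size (η : ℝ) (hη : 0 < η) (X P H : ℕ) (hX : (16 : ℝ) ≤ X) (hP : (X : ℝ) ^ (1 / 5 + η) ≤ P)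
    (hH : (X : ℝ) ^ (1 / 5 + η) ≤ H) (hPH : (P : ℝ) ^ 2 * H ≤ 16 * X) :
    0 < (H : ℝ) ∧ P ≤ X ∧ (H : ℝ) ≤ 16 * (X : ℝ) ^ (3 / 5 : ℝ) := by
  have hX0 : (0 : ℝ) < X := by linarith
  have hX1 : (1 : ℝ) ≤ X := by linarith
  have h1 : (1 : ℝ) ≤ (X : ℝ) ^ (1 / 5 + η) := Real.one_le_rpow hX1 (by linarith)
  have hH1 : (1 : ℝ) ≤ H := h1.trans hH
  have hP1 : (1 : ℝ) ≤ P := h1.trans hP
  refine ⟨by linarith, ?_, ?_⟩
  · have h2 : (P : ℝ) ^ 2 ≤ (X : ℝ) ^ 2 := by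
      calc (P : ℝ) ^ 2 ≤ (P : ℝ) ^ 2 * H := le_mul_of_one_le_right (by positivity) hH1
        _ ≤ 16 * X := hPH
        _ ≤ X ^ 2 := by nlinarith
    have h3 : (P : ℝ) ≤ X := by
      exact le_of_sq_le_sq h2 hX0.le
    exact_mod_cast h3
  · have h2 : (X : ℝ) ^ (1 / 5 : ℝ) ≤ P := by
      refine le_trans (Real.rpow_le_rpow_of_exponent_le hX1 (by linarith)) hP
    have h3 : (X : ℝ) ^ (2 / 5 : ℝ) ≤ (P : ℝ) ^ 2 := by
      calc (X : ℝ) ^ (2 / 5 : ℝ) = ((X : ℝ) ^ (1 / 5 : ℝ)) ^ 2 := by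
            rw [← Real.rpow_natCast, ← Real.rpow_mul hX0.le]
            norm_num
        _ ≤ (P : ℝ) ^ 2 := pow_le_pow_left₀ (by positivity) h2 2
    have h4 : (X : ℝ) ^ (2 / 5 : ℝ) * H ≤ 16 * X :=
      (mul_le_mul_of_nonneg_right h3 (by positivity)).trans hPH
    have h5 : (X : ℝ) = (X : ℝ) ^ (2 / 5 : ℝ) * (X : ℝ) ^ (3 / 5 : ℝ) := by
      rw [← Real.rpow_add hX0]
      norm_num
    have h6 : (0 : ℝ) < (X : ℝ) ^ (2 / 5 : ℝ) := by positivity
    have h7 : (X : ℝ) ^ (2 / 5 : ℝ) * H ≤ (X : ℝ) ^ (2 / 5 : ℝ) * (16 * (X : ℝ) ^ (3 / 5 : ℝ)) := by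
      calc (X : ℝ) ^ (2 / 5 : ℝ) * H ≤ 16 * X := h4
        _ = 16 * ((X : ℝ) ^ (2 / 5 : ℝ) * (X : ℝ) ^ (3 / 5 : ℝ)) := by rw [← h5]
        _ = _ := by ring
    exact le_of_mul_le_mul_left h7 h6

theorem eq_x (hVK : VKp) (η : ℝ) (hη : 0 < η) (A B : ℕ) : ∃ A0 : ℕ, ∀ A1 : ℕ, A0 ≤ A1 → ∀ A2 : ℕ, ∃ X0 : ℕ, ∀ X : ℕ, X0 ≤ X →
    ∀ (P d c H H1 : ℕ) (b : ℕ → ℝ), (X : ℝ) ^ (1 / 5 + η) ≤ P → (X : ℝ) ^ (1 / 5 + η) ≤ H →
    (P : ℝ) ^ 2 * H ≤ 16 * X → 1 ≤ d → (d : ℝ) ≤ Real.log X ^ B → (∀ k, |b k| ≤ 1) →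
    (∀ k, b k ≠ 0 → Nat.Coprime k d) → (H1 : ℝ) ≤ X / Real.log X ^ A1 → X / Real.log X ^ A2 ≤ H1 →
    ∑ x ∈ Ico X (2 * X), ew (Fp b P) H H1 d c x ^ 2 ≤ X * (H : ℝ) ^ 2 / Real.log X ^ A := by
  obtain ⟨A0, hA0⟩ := cls_d hVK η hη (A + 2) B
  refine ⟨A0, fun A1 hA1 A2 => ?_⟩
  obtain ⟨X1, hX1⟩ := hA0 A1 hA1
  obtain ⟨X2, hX2⟩ := long_c (A + A2 + 2) B (1 / 5 + η) (by linarith)
  obtain ⟨X3, hX3⟩ := Main_big A2
  refine ⟨max X1 (max X2 X3), fun X hX P d c H H1 b hP hH hPH hd hdL hb hbc hH1u hH1l => ?_⟩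
  have hXa : X1 ≤ X := le_trans (le_max_left _ _) hX
  have hXb : X2 ≤ X := le_trans (le_trans (le_max_left _ _) (le_max_right _ _)) hX
  have hXc : X3 ≤ X := le_trans (le_trans (le_max_right _ _) (le_max_right _ _)) hX
  obtain ⟨hL, hb2, h16⟩ := hX3 X hXc
  obtain ⟨hHp, hPX, hHX⟩ := Main_size η hη X P H h16 hP hH hPH
  have hX0 : (0 : ℝ) < X := by linarith
  have hl : (0 : ℝ) < Real.log X := by linarith
  have hHH1r : (H : ℝ) ≤ H1 := by linarith
  have hHH1 : H ≤ H1 := by exact_mod_cast hHH1r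
  have hH1p : (0 : ℝ) < H1 := lt_of_lt_of_le hHp hHH1r
  have hH1X : (H1 : ℝ) ≤ X := by
    refine hH1u.trans (div_le_self hX0.le (one_le_pow₀ (by linarith)))
  have hH1X' : H1 ≤ X := by exact_mod_cast hH1X
  have hpt : ∀ x ∈ Ico X (2 * X), ew (Fp b P) H H1 d c x ^ 2
      ≤ 2 * (H : ℝ) ^ 2 * ‖D (cf b P d c) H H1 x‖ ^ 2 + 2 * (H : ℝ) ^ 2 * (1 / Real.log X ^ (A + 2)) ^ 2 := by
    intro x hx
    rw [Finset.mem_Ico] at hx
    refine Main_pt b P d c H H1 x _ hHp hH1p ?_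
    refine (hX2 X hXb P d c x (x + H1) b hP hPX hd hdL (by omega) hb hbc).trans ?_
    have e1 : (X : ℝ) / Real.log X ^ (A + A2 + 2) = 1 / Real.log X ^ (A + 2) * (X / Real.log X ^ A2) := by
      rw [show A + A2 + 2 = (A + 2) + A2 by ring, pow_add]
      field_simp
    rw [e1]
    exact mul_le_mul_of_nonneg_left hH1l (by positivity)
  refine (Finset.sum_le_sum hpt).trans ?_
  rw [Finset.sum_add_distrib, ← Finset.mul_sum, Finset.sum_const, Nat.card_Ico, nsmul_eq_mul]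
  have hcl := hX1 X hXa P d c H H1 b hP hH hPH hd hdL hb hHH1 hH1u
  have hcard : ((2 * X - X : ℕ) : ℝ) = X := by
    have : 2 * X - X = X := by omega
    rw [this]
  rw [hcard]
  have hLA : (1 : ℝ) ≤ Real.log X ^ (A + 2) := one_le_pow₀ (by linarith)
  have hLA0 : (0 : ℝ) < Real.log X ^ (A + 2) := by linarith
  have h1 : (1 / Real.log X ^ (A + 2)) ^ 2 ≤ 1 / Real.log X ^ (A + 2) := by
    have h01 : 1 / Real.log X ^ (A + 2) ≤ 1 := by
      rw [div_le_one hLA0]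
      exact hLA
    have h00 : 0 ≤ 1 / Real.log X ^ (A + 2) := by positivity
    nlinarith
  calc 2 * (H : ℝ) ^ 2 * ∑ x ∈ Ico X (2 * X), ‖D (cf b P d c) H H1 x‖ ^ 2
        + X * (2 * (H : ℝ) ^ 2 * (1 / Real.log X ^ (A + 2)) ^ 2)
      ≤ 2 * (H : ℝ) ^ 2 * (X / Real.log X ^ (A + 2)) + X * (2 * (H : ℝ) ^ 2 * (1 / Real.log X ^ (A + 2))) := by
        gcongr
    _ = 4 * (X * (H : ℝ) ^ 2) / (Real.log X ^ A * Real.log X ^ 2) := by
        rw [pow_add]
        ring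
    _ ≤ X * (H : ℝ) ^ 2 / Real.log X ^ A := by
        rw [div_le_div_iff₀ (by positivity) (by positivity)]
        have h3 : (4 : ℝ) ≤ Real.log X ^ 2 := by nlinarith
        have h4 : (0 : ℝ) ≤ X * (H : ℝ) ^ 2 * Real.log X ^ A := by positivity
        nlinarith [mul_le_mul_of_nonneg_left h3 h4]

/-- `gam` is linear -/
private theorem Main_gam {ι : Type*} (s : Finset ι) (G : ι → ℕ → ℝ) (H1 x : ℕ) :
    gam (fun n => ∑ j ∈ s, G j n) H1 x = ∑ j ∈ s, gam (G j) H1 x := by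
  unfold gam
  rw [Finset.sum_comm, Finset.sum_div]

/-- `ew` is linear -/
private theorem Main_ew {ι : Type*} (s : Finset ι) (G : ι → ℕ → ℝ) (H H1 d c x : ℕ) :
    ew (fun n => ∑ j ∈ s, G j n) H H1 d c x = ∑ j ∈ s, ew (G j) H H1 d c x := by
  unfold ew
  rw [Main_gam, Finset.sum_sub_distrib, Finset.sum_comm]
  congr 1
  split_ifs with hc
  · rw [Finset.mul_sum, Finset.sum_div]
  · simp

/-- the number of boxes -/
private theorem Main_J (X y J1 H : ℕ) (hX : 4 ≤ Real.log X) (hX1 : (16 : ℝ) ≤ X) (hH : (1 : ℝ) ≤ H)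
    (hy : 1 ≤ y) (h : ((2 ^ J1 * y : ℕ) : ℝ) ^ 2 * H ≤ 16 * X) : (J1 : ℝ) ≤ 2 * Real.log X := by
  have hX0 : (0 : ℝ) < X := by linarith
  have h1 : ((2 : ℝ) ^ J1) ^ 2 ≤ (X : ℝ) ^ 2 := by
    have hy' : (1 : ℝ) ≤ y := by exact_mod_cast hy
    have h2 : (2 : ℝ) ^ J1 ≤ ((2 ^ J1 * y : ℕ) : ℝ) := by
      push_cast
      exact le_mul_of_one_le_right (by positivity) hy'
    calc ((2 : ℝ) ^ J1) ^ 2 ≤ ((2 ^ J1 * y : ℕ) : ℝ) ^ 2 := pow_le_pow_left₀ (by positivity) h2 2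
      _ ≤ ((2 ^ J1 * y : ℕ) : ℝ) ^ 2 * H := le_mul_of_one_le_right (by positivity) hH
      _ ≤ 16 * X := h
      _ ≤ X ^ 2 := by nlinarith
  have h2 : (2 : ℝ) ^ J1 ≤ X := le_of_sq_le_sq h1 hX0.le
  have h3 : (J1 : ℝ) * Real.log 2 ≤ Real.log X := by
    rw [← Real.log_pow]
    exact Real.log_le_log (by positivity) h2
  have h4 := Real.log_two_gt_d9
  have h5 : (0 : ℝ) ≤ J1 := by positivity
  nlinarith

theorem eq_s (hVK : VKp) (η : ℝ) (hη : 0 < η) (A B : ℕ) : ∃ A0 : ℕ, ∀ A1 : ℕ, A0 ≤ A1 → ∀ A2 : ℕ, ∃ X0 : ℕ, ∀ X : ℕ, X0 ≤ X →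
    ∀ (y J0 J1 d c H H1 : ℕ) (b : ℕ → ℕ → ℝ), (X : ℝ) ^ (1 / 5 + η) ≤ (2 ^ J0 * y : ℕ) → (X : ℝ) ^ (1 / 5 + η) ≤ H →
    ((2 ^ J1 * y : ℕ) : ℝ) ^ 2 * H ≤ 16 * X → 1 ≤ d → (d : ℝ) ≤ Real.log X ^ B → (∀ j k, |b j k| ≤ 1) →
    (∀ j k, b j k ≠ 0 → Nat.Coprime k d) → (H1 : ℝ) ≤ X / Real.log X ^ A1 → X / Real.log X ^ A2 ≤ H1 →
    ∑ x ∈ Ico X (2 * X), ew (Gs b y J0 J1) H H1 d c x ^ 2 ≤ X * (H : ℝ) ^ 2 / Real.log X ^ A := by
  obtain ⟨A0, hA0⟩ := eq_x hVK η hη (A + 3) B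
  refine ⟨A0, fun A1 hA1 A2 => ?_⟩
  obtain ⟨X1, hX1⟩ := hA0 A1 hA1 A2
  obtain ⟨X3, hX3⟩ := Main_big A2
  refine ⟨max X1 X3, fun X hX y J0 J1 d c H H1 b hP hH hPH hd hdL hb hbc hH1u hH1l => ?_⟩
  have hXa : X1 ≤ X := le_trans (le_max_left _ _) hX
  have hXc : X3 ≤ X := le_trans (le_max_right _ _) hX
  obtain ⟨hL, -, h16⟩ := hX3 X hXc
  have hX0 : (0 : ℝ) < X := by linarith
  have hX1' : (1 : ℝ) ≤ X := by linarith
  have hl : (0 : ℝ) < Real.log X := by linarith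
  have hone : (1 : ℝ) ≤ (X : ℝ) ^ (1 / 5 + η) := Real.one_le_rpow hX1' (by linarith)
  have hHone : (1 : ℝ) ≤ H := hone.trans hH
  have hy : 1 ≤ y := by
    rcases Nat.eq_zero_or_pos y with h0 | h0
    · exfalso
      rw [h0] at hP
      simp at hP
      linarith
    · exact h0
  have hJ1 : (J1 : ℝ) ≤ 2 * Real.log X := Main_J X y J1 H hL h16 hHone hy hPH
  have hbox : ∀ j ∈ Ico J0 J1, ∑ x ∈ Ico X (2 * X), ew (Fp (b j) (2 ^ j * y)) H H1 d c x ^ 2
      ≤ X * (H : ℝ) ^ 2 / Real.log X ^ (A + 3) := by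
    intro j hj
    rw [Finset.mem_Ico] at hj
    refine hX1 X hXa (2 ^ j * y) d c H H1 (b j) ?_ hH ?_ hd hdL (hb j) (hbc j) hH1u hH1l
    · refine hP.trans ?_
      have : 2 ^ J0 * y ≤ 2 ^ j * y := Nat.mul_le_mul_right _ (Nat.pow_le_pow_right (by norm_num) hj.1)
      exact_mod_cast this
    · refine le_trans ?_ hPH
      have h1 : 2 ^ j * y ≤ 2 ^ J1 * y := Nat.mul_le_mul_right _ (Nat.pow_le_pow_right (by norm_num) hj.2.le)
      have h2 : ((2 ^ j * y : ℕ) : ℝ) ≤ ((2 ^ J1 * y : ℕ) : ℝ) := by exact_mod_cast h1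
      gcongr
  have hpt : ∀ x ∈ Ico X (2 * X), ew (Gs b y J0 J1) H H1 d c x ^ 2
      ≤ ((Ico J0 J1).card : ℝ) * ∑ j ∈ Ico J0 J1, ew (Fp (b j) (2 ^ j * y)) H H1 d c x ^ 2 := by
    intro x _
    have h1 : ew (Gs b y J0 J1) H H1 d c x = ∑ j ∈ Ico J0 J1, ew (Fp (b j) (2 ^ j * y)) H H1 d c x := by
      have h2 : Gs b y J0 J1 = fun n => ∑ j ∈ Ico J0 J1, Fp (b j) (2 ^ j * y) n := by
        funext n
        rfl
      rw [h2]
      exact Main_ew _ _ _ _ _ _ _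
    rw [h1]
    exact sq_sum_le_card_mul_sum_sq
  refine (Finset.sum_le_sum hpt).trans ?_
  rw [← Finset.mul_sum, Finset.sum_comm]
  have hcard : ((Ico J0 J1).card : ℝ) ≤ 2 * Real.log X := by
    rw [Nat.card_Ico]
    refine le_trans ?_ hJ1
    exact_mod_cast Nat.sub_le _ _
  calc ((Ico J0 J1).card : ℝ) * ∑ j ∈ Ico J0 J1, ∑ x ∈ Ico X (2 * X), ew (Fp (b j) (2 ^ j * y)) H H1 d c x ^ 2
      ≤ ((Ico J0 J1).card : ℝ) * ∑ j ∈ Ico J0 J1, X * (H : ℝ) ^ 2 / Real.log X ^ (A + 3) := by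
        refine mul_le_mul_of_nonneg_left (Finset.sum_le_sum hbox) (by positivity)
    _ = ((Ico J0 J1).card : ℝ) ^ 2 * (X * (H : ℝ) ^ 2 / Real.log X ^ (A + 3)) := by
        rw [Finset.sum_const, nsmul_eq_mul]
        ring
    _ ≤ (2 * Real.log X) ^ 2 * (X * (H : ℝ) ^ 2 / Real.log X ^ (A + 3)) := by
        gcongr
    _ = 4 * (X * (H : ℝ) ^ 2) * Real.log X ^ 2 / (Real.log X ^ A * Real.log X ^ 3) := by
        rw [pow_add]
        ring
    _ ≤ X * (H : ℝ) ^ 2 / Real.log X ^ A := by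
        rw [div_le_div_iff₀ (by positivity) (by positivity)]
        have h3 : 4 * Real.log X ^ 2 ≤ Real.log X ^ 3 := by
          have : Real.log X ^ 3 = Real.log X * Real.log X ^ 2 := by ring
          rw [this]
          exact mul_le_mul_of_nonneg_right hL (by positivity)
        have h4 : (0 : ℝ) ≤ X * (H : ℝ) ^ 2 * Real.log X ^ A := by positivity
        nlinarith [mul_le_mul_of_nonneg_left h3 h4]

end Pool.Agent.H31.EQ

end

section

/-!
# EQ Fin: the theorem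

`eq2`: `eq_s` with `η = e/2`, `A + 1`, `B + 1` for `X = 2^i ⌊N/8⌋`, `i = 0, .., 6` (they cover `[N/8, 8N]`; `N/9 ≤ X ≤ 8N`, `log N/2 ≤ log X ≤ 2 log N`; `H ≥ N^(1/5+e) ≥ X^(1/5+e/2)`;
`(2^J1 y)² H ≤ N ≤ 16 X`; `H1 = ⌊N/L^A1⌋`: `X/(log X)^(A1+1) ≤ H1 ≤ X/(log X)^(A1-1)`; a prime factor of `k` is `> L^B ≥ d`, so `(k, d) = 1`).
`gs_le`: `|Gs| ≤ ∑_j #{p ∈ pb (2^j y) : p ∣ n} ≤ 4` for `n ≤ 16 N` (the boxes are disjoint; five primes `> N^(1/5+e)` have a product `> 16 N`).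
`gam_le`, `gam_lip`: trivial.
-/

set_option autoImplicit false

namespace Pool.Agent.H31.EQ

open Finset
open Pool.Agent.H91.PK (ee)
open Pool.Agent.H53.MID (Fp VKp)

/-- eventual facts used for `eq2` -/
private theorem Fin_ev (e : ℝ) (he : 0 < e) (C : ℝ) (A1 X0 : ℕ) : ∃ N0 : ℕ, ∀ N : ℕ, N0 ≤ N →
    8 ≤ N ∧ 8 * X0 + 8 ≤ N ∧ C ≤ Real.log N ∧ 8 ^ (1 / 5 + e / 2) ≤ (N : ℝ) ^ (e / 2) ∧
      16 * (N : ℝ) ≤ ((N : ℝ) ^ (1 / 5 + e)) ^ (5 : ℕ) ∧ 2 * Real.log N ^ A1 ≤ N := by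
  have h1 : ∀ᶠ N : ℕ in Filter.atTop, 8 ≤ N ∧ 8 * X0 + 8 ≤ N :=
    (Filter.eventually_ge_atTop 8).and (Filter.eventually_ge_atTop _)
  have h2 : ∀ᶠ N : ℕ in Filter.atTop, C ≤ Real.log N :=
    (Real.tendsto_log_atTop.comp tendsto_natCast_atTop_atTop).eventually_ge_atTop C
  have h3 : ∀ᶠ N : ℕ in Filter.atTop, (8 : ℝ) ^ (1 / 5 + e / 2) ≤ (N : ℝ) ^ (e / 2) :=
    ((tendsto_rpow_atTop (by linarith : 0 < e / 2)).comp tendsto_natCast_atTop_atTop).eventually_ge_atTop _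
  have h4 : ∀ᶠ N : ℕ in Filter.atTop, (16 : ℝ) ≤ (N : ℝ) ^ (5 * e) :=
    ((tendsto_rpow_atTop (by linarith : 0 < 5 * e)).comp tendsto_natCast_atTop_atTop).eventually_ge_atTop _
  have h5 : ∀ᶠ N : ℕ in Filter.atTop, 2 * Real.log N ^ A1 ≤ (N : ℝ) := by
    have h := (isLittleO_log_rpow_rpow_atTop (s := 1) (A1 : ℝ) zero_lt_one).bound (show (0 : ℝ) < 1 / 2 by norm_num)
    have h' := (tendsto_natCast_atTop_atTop (R := ℝ)).eventually h
    filter_upwards [h', Filter.eventually_ge_atTop 1] with N hN hN1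
    have hl : 0 ≤ Real.log N := Real.log_natCast_nonneg N
    rw [Real.rpow_natCast, Real.rpow_one, Real.norm_of_nonneg (pow_nonneg hl _), Real.norm_of_nonneg (Nat.cast_nonneg N)] at hN
    linarith
  obtain ⟨N0, hN0⟩ := Filter.eventually_atTop.1 (h1.and (h2.and (h3.and (h4.and h5))))
  refine ⟨N0, fun N hN => ?_⟩
  obtain ⟨⟨g1, g1'⟩, g2, g3, g4, g5⟩ := hN0 N hN
  refine ⟨g1, g1', g2, g3, ?_, g5⟩
  have hN : (0 : ℝ) < N := by exact_mod_cast (by omega : 0 < N)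
  rw [← Real.rpow_natCast, ← Real.rpow_mul hN.le]
  rw [show (1 / 5 + e) * ((5 : ℕ) : ℝ) = 5 * e + 1 by push_cast; ring, Real.rpow_add hN, Real.rpow_one]
  exact mul_le_mul_of_nonneg_right g4 hN.le

private theorem Fin_bU (s : Finset ℕ) (t : ℕ → Finset ℕ) (f : ℕ → ℝ) (hf : ∀ x, 0 ≤ f x) :
    ∑ x ∈ s.biUnion t, f x ≤ ∑ i ∈ s, ∑ x ∈ t i, f x := by
  induction s using Finset.induction_on with
  | empty => simp
  | insert a s ha ih =>
    rw [biUnion_insert, sum_insert ha]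
    have h1 := sum_union_inter (s₁ := t a) (s₂ := s.biUnion t) (f := f)
    have h2 : 0 ≤ ∑ x ∈ t a ∩ s.biUnion t, f x := sum_nonneg fun x _ => hf x
    linarith

theorem eq2 (hVK : VKp) (e : ℝ) (he : 0 < e) (A B : ℕ) : ∃ A0 : ℕ, ∀ A1 : ℕ, A0 ≤ A1 →
    ∃ N0 : ℕ, ∀ N : ℕ, N0 ≤ N → ∀ (H y J0 J1 : ℕ) (b : ℕ → ℕ → ℝ), (N : ℝ) ^ (1 / 5 + e) ≤ H → (N : ℝ) ^ (1 / 5 + e) ≤ (2 ^ J0 * y : ℕ) →
      ((2 ^ J1 * y : ℕ) : ℝ) ^ 2 * H ≤ N → (∀ j k, |b j k| ≤ 1) →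
      (∀ j k, b j k ≠ 0 → ∀ q : ℕ, q.Prime → q ∣ k → Real.log N ^ B < q) →
      WDx N H A B (Gs b y J0 J1) (gam (Gs b y J0 J1) ⌊(N : ℝ) / Real.log N ^ A1⌋₊) := by
  obtain ⟨A0, hA0⟩ := eq_s hVK (e / 2) (by linarith) (A + 1) (B + 1)
  refine ⟨A0 + 1, fun A1 hA1 => ?_⟩
  obtain ⟨X0, hX0⟩ := hA0 (A1 - 1) (by omega) (A1 + 1)
  obtain ⟨N0, hN0⟩ := Fin_ev e he (max (max (9 * 2 ^ A1) (16 * 2 ^ (A1 + 1))) (max (56 * 2 ^ (A + 1)) (max (2 ^ (B + 1)) 6))) A1 X0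
  refine ⟨N0, fun N hN H y J0 J1 b hH hy hyH hb hbq d c hd hdL => ?_⟩
  obtain ⟨hN8, hNX, hL, h8, -, h2L⟩ := hN0 N hN
  have hL1 : 9 * 2 ^ A1 ≤ Real.log N := (le_max_left _ _).trans ((le_max_left _ _).trans hL)
  have hL2 : 16 * 2 ^ (A1 + 1) ≤ Real.log N := (le_max_right _ _).trans ((le_max_left _ _).trans hL)
  have hL3 : 56 * 2 ^ (A + 1) ≤ Real.log N := (le_max_left _ _).trans ((le_max_right _ _).trans hL)
  have hL4 : 2 ^ (B + 1) ≤ Real.log N := (le_max_left _ _).trans ((le_max_right _ _).trans ((le_max_right _ _).trans hL))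
  have hL5 : 6 ≤ Real.log N := (le_max_right _ _).trans ((le_max_right _ _).trans ((le_max_right _ _).trans hL))
  have hNpos : (0 : ℝ) < N := by exact_mod_cast (by omega : 0 < N)
  have hLpos : 0 < Real.log N := by linarith
  set L : ℝ := Real.log N with hLdef
  set H1 : ℕ := ⌊(N : ℝ) / L ^ A1⌋₊ with hH1
  set M : ℕ := N / 8 with hM
  have hMX : X0 ≤ M := by omega
  have hM1 : 1 ≤ M := by omega
  have hM16 : N ≤ 16 * M := by omega
  have hM8 : 8 * M ≤ N := by omega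
  -- the bound for one dyadic range
  have key : ∀ i ∈ range 7, ∑ x ∈ Ico (2 ^ i * M) (2 * (2 ^ i * M)), ew (Gs b y J0 J1) H H1 d c x ^ 2
      ≤ 8 * N * (H : ℝ) ^ 2 * 2 ^ (A + 1) / L ^ (A + 1) := by
    intro i hi
    rw [mem_range] at hi
    obtain ⟨X, hX⟩ : ∃ X, X = 2 ^ i * M := ⟨_, rfl⟩
    rw [← hX]
    have hi2 : 2 ^ i ≤ 64 := by
      calc 2 ^ i ≤ 2 ^ 6 := Nat.pow_le_pow_right (by norm_num) (by omega)
        _ = 64 := by norm_num
    have hi1 : 1 ≤ 2 ^ i := Nat.one_le_two_pow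
    have hXM : M ≤ X := by rw [hX]; exact Nat.le_mul_of_pos_left M (by omega)
    have hX64 : X ≤ 64 * M := by rw [hX]; exact Nat.mul_le_mul_right M hi2
    have hXN : X ≤ 8 * N := by omega
    have hX16 : N ≤ 16 * X := by omega
    have hXpos : (0 : ℝ) < X := by exact_mod_cast (by omega : 0 < X)
    have hXN' : (X : ℝ) ≤ 8 * N := by exact_mod_cast hXN
    have hX16' : (N : ℝ) ≤ 16 * X := by exact_mod_cast hX16
    have hlog16 : Real.log 16 ≤ 3 := by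
      have h1 : Real.log 16 = 4 * Real.log 2 := by
        rw [show (16 : ℝ) = 2 ^ (4 : ℕ) by norm_num, Real.log_pow]
        norm_num
      have h2 := Real.log_two_lt_d9
      rw [h1]
      linarith
    have hlog8 : Real.log 8 ≤ 3 := by
      refine le_trans (Real.log_le_log (by norm_num) (by norm_num)) hlog16
    have hlX1 : Real.log X ≤ 2 * L := by
      have h1 : Real.log X ≤ Real.log (8 * N) := Real.log_le_log hXpos hXN'
      rw [Real.log_mul (by norm_num) hNpos.ne'] at h1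
      linarith
    have hlX2 : L / 2 ≤ Real.log X := by
      have h1 : Real.log N ≤ Real.log (16 * X) := Real.log_le_log hNpos hX16'
      rw [Real.log_mul (by norm_num) hXpos.ne', ← hLdef] at h1
      linarith
    have hlXpos : 0 < Real.log X := by linarith
    have hpow : (X : ℝ) ^ (1 / 5 + e / 2) ≤ (N : ℝ) ^ (1 / 5 + e) := by
      calc (X : ℝ) ^ (1 / 5 + e / 2) ≤ (8 * N : ℝ) ^ (1 / 5 + e / 2) :=
            Real.rpow_le_rpow hXpos.le hXN' (by linarith)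
        _ = 8 ^ (1 / 5 + e / 2) * (N : ℝ) ^ (1 / 5 + e / 2) := Real.mul_rpow (by norm_num) hNpos.le
        _ ≤ (N : ℝ) ^ (e / 2) * (N : ℝ) ^ (1 / 5 + e / 2) :=
            mul_le_mul_of_nonneg_right h8 (Real.rpow_nonneg hNpos.le _)
        _ = (N : ℝ) ^ (1 / 5 + e) := by rw [← Real.rpow_add hNpos]; congr 1; ring
    have hcop : ∀ j k, b j k ≠ 0 → Nat.Coprime k d := by
      intro j k hbk
      refine Nat.Coprime.symm (Nat.coprime_of_dvd' ?_)
      intro q hq hqd hqk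
      exfalso
      have h1 := hbq j k hbk q hq hqk
      have h2 : q ≤ d := Nat.le_of_dvd hd hqd
      have h3 : (q : ℝ) ≤ d := by exact_mod_cast h2
      linarith
    have hdX : (d : ℝ) ≤ Real.log X ^ (B + 1) := by
      refine hdL.trans ?_
      have h1 : (L / 2) ^ (B + 1) ≤ Real.log X ^ (B + 1) := pow_le_pow_left₀ (by linarith) hlX2 _
      refine le_trans ?_ h1
      rw [div_pow, le_div_iff₀ (by positivity), pow_succ L B]
      exact mul_le_mul_of_nonneg_left hL4 (by positivity)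
    have hH1a : (H1 : ℝ) ≤ X / Real.log X ^ (A1 - 1) := by
      have h1 : (H1 : ℝ) ≤ N / L ^ A1 := Nat.floor_le (by positivity)
      refine h1.trans ?_
      rw [div_le_div_iff₀ (by positivity) (by positivity)]
      have h2 : Real.log X ^ (A1 - 1) ≤ (2 * L) ^ (A1 - 1) := pow_le_pow_left₀ hlXpos.le hlX1 _
      have hA1' : A1 = (A1 - 1) + 1 := by omega
      have h3 : L ^ A1 = L ^ (A1 - 1) * L := by
        conv_lhs => rw [hA1']
        rw [pow_succ]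
      have h4 : (16 : ℝ) * 2 ^ (A1 - 1) ≤ L := by
        have h5 : (2 : ℝ) ^ A1 = 2 ^ (A1 - 1) * 2 := by
          conv_lhs => rw [hA1']
          rw [pow_succ]
        have h6 : (2 : ℝ) ^ (A1 + 1) = 2 ^ (A1 - 1) * 2 * 2 := by rw [pow_succ, h5]
        have h7 : (0 : ℝ) < 2 ^ (A1 - 1) := by positivity
        rw [h6] at hL2
        linarith
      have h5 : (N : ℝ) * Real.log X ^ (A1 - 1) ≤ (16 * X) * (2 * L) ^ (A1 - 1) :=
        mul_le_mul hX16' h2 (by positivity) (by positivity)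
      refine h5.trans ?_
      rw [h3, mul_pow]
      calc (16 : ℝ) * X * (2 ^ (A1 - 1) * L ^ (A1 - 1)) = (X * L ^ (A1 - 1)) * (16 * 2 ^ (A1 - 1)) := by ring
        _ ≤ (X * L ^ (A1 - 1)) * L := mul_le_mul_of_nonneg_left h4 (by positivity)
        _ = X * (L ^ (A1 - 1) * L) := by ring
    have hH1b : X / Real.log X ^ (A1 + 1) ≤ (H1 : ℝ) := by
      have h1 : (N : ℝ) / L ^ A1 - 1 ≤ H1 := by
        have := Nat.lt_floor_add_one ((N : ℝ) / L ^ A1)
        rw [← hH1] at this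
        linarith
      have h2 : (1 : ℝ) ≤ N / (2 * L ^ A1) := by
        rw [le_div_iff₀ (by positivity)]
        linarith
      have h3 : (N : ℝ) / (2 * L ^ A1) = (N / L ^ A1) / 2 := by
        rw [div_div, mul_comm]
      have h4 : (N : ℝ) / (2 * L ^ A1) ≤ H1 := by rw [h3] at h2 ⊢; linarith
      refine le_trans ?_ h4
      have h5 : (L / 2) ^ (A1 + 1) ≤ Real.log X ^ (A1 + 1) := pow_le_pow_left₀ (by linarith) hlX2 _
      calc (X : ℝ) / Real.log X ^ (A1 + 1) ≤ (8 * N) / (L / 2) ^ (A1 + 1) :=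
            div_le_div₀ (by positivity) hXN' (by positivity) h5
        _ = (N * (8 * 2 ^ (A1 + 1))) / (L ^ A1 * L) := by
            rw [div_pow, pow_succ L A1]
            field_simp
        _ ≤ N / (2 * L ^ A1) := by
            rw [div_le_div_iff₀ (by positivity) (by positivity)]
            calc (N : ℝ) * (8 * 2 ^ (A1 + 1)) * (2 * L ^ A1) = (N * L ^ A1) * (16 * 2 ^ (A1 + 1)) := by ring
              _ ≤ (N * L ^ A1) * L := mul_le_mul_of_nonneg_left hL2 (by positivity)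
              _ = N * (L ^ A1 * L) := by ring
    have h := hX0 X (hMX.trans hXM) y J0 J1 d c H H1 b (hpow.trans hy) (hpow.trans hH)
      (hyH.trans hX16') hd hdX hb hcop hH1a hH1b
    refine h.trans ?_
    have h5 : (L / 2) ^ (A + 1) ≤ Real.log X ^ (A + 1) := pow_le_pow_left₀ (by linarith) hlX2 _
    calc (X : ℝ) * (H : ℝ) ^ 2 / Real.log X ^ (A + 1) ≤ (8 * N) * (H : ℝ) ^ 2 / (L / 2) ^ (A + 1) :=
          div_le_div₀ (by positivity) (mul_le_mul_of_nonneg_right hXN' (by positivity)) (by positivity) h5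
      _ = 8 * N * (H : ℝ) ^ 2 * 2 ^ (A + 1) / L ^ (A + 1) := by
          rw [div_pow]
          field_simp
  -- the union of the dyadic ranges
  have hcov : ∀ x ∈ Icc M (8 * N), ∃ i ∈ range 7, x ∈ Ico (2 ^ i * M) (2 * (2 ^ i * M)) := by
    intro x hx
    rw [mem_Icc] at hx
    have hx2 : x < 128 * M := by omega
    by_cases h1 : x < 2 * M
    · exact ⟨0, by simp, by rw [mem_Ico]; omega⟩
    by_cases h2 : x < 4 * M
    · exact ⟨1, by simp, by rw [mem_Ico]; omega⟩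
    by_cases h3 : x < 8 * M
    · exact ⟨2, by simp, by rw [mem_Ico]; omega⟩
    by_cases h4 : x < 16 * M
    · exact ⟨3, by simp, by rw [mem_Ico]; omega⟩
    by_cases h5 : x < 32 * M
    · exact ⟨4, by simp, by rw [mem_Ico]; omega⟩
    by_cases h6 : x < 64 * M
    · exact ⟨5, by simp, by rw [mem_Ico]; omega⟩
    · exact ⟨6, by simp, by rw [mem_Ico]; omega⟩
  have hsub : Icc M (8 * N) ⊆ (range 7).biUnion (fun i => Ico (2 ^ i * M) (2 * (2 ^ i * M))) := by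
    intro x hx
    rw [mem_biUnion]
    exact hcov x hx
  calc ∑ x ∈ Icc (N / 8) (8 * N), ((∑ n ∈ (Ioc x (x + H)).filter (fun n => n % d = c % d), Gs b y J0 J1 n)
        - (if Nat.Coprime c d then (H : ℝ) * gam (Gs b y J0 J1) H1 x / d.totient else 0)) ^ 2
      = ∑ x ∈ Icc M (8 * N), ew (Gs b y J0 J1) H H1 d c x ^ 2 := rfl
    _ ≤ ∑ x ∈ (range 7).biUnion (fun i => Ico (2 ^ i * M) (2 * (2 ^ i * M))), ew (Gs b y J0 J1) H H1 d c x ^ 2 :=
        sum_le_sum_of_subset_of_nonneg hsub (fun _ _ _ => sq_nonneg _)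
    _ ≤ ∑ i ∈ range 7, ∑ x ∈ Ico (2 ^ i * M) (2 * (2 ^ i * M)), ew (Gs b y J0 J1) H H1 d c x ^ 2 := by
        exact Fin_bU _ _ _ (fun _ => sq_nonneg _)
    _ ≤ ∑ i ∈ range 7, 8 * N * (H : ℝ) ^ 2 * 2 ^ (A + 1) / L ^ (A + 1) := sum_le_sum key
    _ = (N * (H : ℝ) ^ 2) * (56 * 2 ^ (A + 1)) / (L ^ A * L) := by
        rw [sum_const, card_range, pow_succ L A, nsmul_eq_mul]
        push_cast
        ring
    _ ≤ N * (H : ℝ) ^ 2 / L ^ A := by
        rw [div_le_div_iff₀ (by positivity) (by positivity)]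
        calc (N * (H : ℝ) ^ 2) * (56 * 2 ^ (A + 1)) * L ^ A ≤ (N * (H : ℝ) ^ 2) * L * L ^ A :=
              mul_le_mul_of_nonneg_right (mul_le_mul_of_nonneg_left hL3 (by positivity)) (by positivity)
          _ = N * (H : ℝ) ^ 2 * (L ^ A * L) := by ring

theorem gs_le (e : ℝ) (he : 0 < e) : ∃ N0 : ℕ, ∀ N : ℕ, N0 ≤ N → ∀ (y J0 J1 : ℕ) (b : ℕ → ℕ → ℝ),
    (N : ℝ) ^ (1 / 5 + e) ≤ (2 ^ J0 * y : ℕ) → (∀ j k, |b j k| ≤ 1) → ∀ n, 1 ≤ n → n ≤ 16 * N → |Gs b y J0 J1 n| ≤ 4 := by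
  obtain ⟨N0, hN0⟩ := Fin_ev e he 1 0 0
  refine ⟨N0, fun N hN y J0 J1 b hy hb n hn1 hn2 => ?_⟩
  obtain ⟨hN8, -, hL, -, h16, -⟩ := hN0 N hN
  have hNpos : (0 : ℝ) < N := by exact_mod_cast (by omega : 0 < N)
  obtain ⟨S, hS⟩ : ∃ S, S = (Ico J0 J1).biUnion (fun j => (Pool.Agent.H35.W.pb (2 ^ j * y)).filter (fun p => p ∣ n)) := ⟨_, rfl⟩
  have hdisj : ((Ico J0 J1 : Finset ℕ) : Set ℕ).PairwiseDisjoint (fun j => (Pool.Agent.H35.W.pb (2 ^ j * y)).filter (fun p => p ∣ n)) := by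
    intro i _ j _ hij
    rw [Function.onFun, disjoint_left]
    intro p hp hp'
    rw [mem_filter, Pool.Agent.H35.W.pb, mem_filter, mem_Ioc] at hp hp'
    rcases lt_or_gt_of_ne hij with h | h
    · have h1 : 2 * (2 ^ i * y) ≤ 2 ^ j * y := by
        have : 2 ^ (i + 1) * y ≤ 2 ^ j * y := Nat.mul_le_mul_right y (Nat.pow_le_pow_right (by norm_num) h)
        rw [pow_succ] at this
        linarith [this, (by ring : 2 * (2 ^ i * y) = 2 ^ i * 2 * y)]
      omega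
    · have h1 : 2 * (2 ^ j * y) ≤ 2 ^ i * y := by
        have : 2 ^ (j + 1) * y ≤ 2 ^ i * y := Nat.mul_le_mul_right y (Nat.pow_le_pow_right (by norm_num) h)
        rw [pow_succ] at this
        linarith [this, (by ring : 2 * (2 ^ j * y) = 2 ^ j * 2 * y)]
      omega
  have hcard : |Gs b y J0 J1 n| ≤ (S.card : ℝ) := by
    rw [hS, card_biUnion hdisj]
    push_cast
    unfold Gs
    refine (abs_sum_le_sum_abs _ _).trans (sum_le_sum fun j _ => ?_)
    unfold Fp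
    refine (abs_sum_le_sum_abs _ _).trans ?_
    refine (sum_le_sum fun p _ => hb j (n / p)).trans ?_
    rw [sum_const, nsmul_eq_mul, mul_one]
  have hSp : ∀ p ∈ S, p.Prime ∧ p ∣ n ∧ (N : ℝ) ^ (1 / 5 + e) < p := by
    intro p hp
    rw [hS, mem_biUnion] at hp
    obtain ⟨j, hj, hp⟩ := hp
    rw [mem_filter, Pool.Agent.H35.W.pb, mem_filter, mem_Ioc] at hp
    refine ⟨hp.1.2, hp.2, lt_of_le_of_lt hy ?_⟩
    rw [mem_Ico] at hj
    have h1 : 2 ^ J0 * y ≤ 2 ^ j * y := Nat.mul_le_mul_right y (Nat.pow_le_pow_right (by norm_num) hj.1)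
    exact_mod_cast lt_of_le_of_lt h1 hp.1.1.1
  have hcard4 : S.card ≤ 4 := by
    by_contra hcon
    push Not at hcon
    obtain ⟨T, hTS, hT5⟩ := exists_subset_card_eq (show 5 ≤ S.card by omega)
    have hdvd : ∏ p ∈ T, p ∣ n :=
      Finset.prod_primes_dvd n (fun p hp => (hSp p (hTS hp)).1.prime) (fun p hp => (hSp p (hTS hp)).2.1)
    have hle : ∏ p ∈ T, p ≤ 16 * N := (Nat.le_of_dvd (by omega) hdvd).trans hn2
    have hle' : ∏ p ∈ T, (p : ℝ) ≤ 16 * N := by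
      have h0 : ((∏ p ∈ T, p : ℕ) : ℝ) ≤ ((16 * N : ℕ) : ℝ) := Nat.cast_le.2 hle
      rw [Nat.cast_prod, Nat.cast_mul] at h0
      simpa using h0
    have hbase : 0 < (N : ℝ) ^ (1 / 5 + e) := Real.rpow_pos_of_pos hNpos _
    have hlt : ∏ _p ∈ T, (N : ℝ) ^ (1 / 5 + e) < ∏ p ∈ T, (p : ℝ) := by
      refine prod_lt_prod_of_nonempty (fun _ _ => hbase) (fun p hp => (hSp p (hTS hp)).2.2) ?_
      rw [← card_pos]
      omega
    rw [prod_const, hT5] at hlt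
    linarith
  calc |Gs b y J0 J1 n| ≤ (S.card : ℝ) := hcard
    _ ≤ 4 := by exact_mod_cast hcard4

private theorem Fin_sum (G : ℕ → ℝ) (M : ℝ) (u v : ℕ) (huv : u ≤ v) (h : ∀ n, 1 ≤ n → n ≤ v → |G n| ≤ M) :
    |∑ n ∈ Ioc u v, G n| ≤ M * ((v : ℝ) - u) := by
  refine (abs_sum_le_sum_abs _ _).trans ?_
  refine (sum_le_sum fun n hn => h n ?_ ?_).trans ?_
  · rw [mem_Ioc] at hn
    omega
  · rw [mem_Ioc] at hn
    exact hn.2
  · rw [sum_const, Nat.card_Ioc, nsmul_eq_mul, Nat.cast_sub huv, mul_comm]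

private theorem Fin_lip (G : ℕ → ℝ) (M : ℝ) (H1 x x' : ℕ) (hH : 1 ≤ H1) (hx : x ≤ x')
    (h : ∀ n, 1 ≤ n → n ≤ x' + H1 → |G n| ≤ M) :
    |gam G H1 x - gam G H1 x'| ≤ 2 * M * ((x' : ℝ) - x) / H1 := by
  have h2 : (0 : ℝ) < H1 := by exact_mod_cast hH
  have e1 : ∑ n ∈ Ioc x (x' + H1), G n = ∑ n ∈ Ioc x (x + H1), G n + ∑ n ∈ Ioc (x + H1) (x' + H1), G n :=
    (sum_Ioc_consecutive G (by omega) (by omega)).symm
  have e2 : ∑ n ∈ Ioc x (x' + H1), G n = ∑ n ∈ Ioc x x', G n + ∑ n ∈ Ioc x' (x' + H1), G n :=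
    (sum_Ioc_consecutive G (by omega) (by omega)).symm
  have e3 : gam G H1 x - gam G H1 x' = (∑ n ∈ Ioc x x', G n - ∑ n ∈ Ioc (x + H1) (x' + H1), G n) / H1 := by
    unfold gam
    rw [← sub_div]
    congr 1
    linarith
  have h3 := Fin_sum G M x x' hx (fun n hn1 hn2 => h n hn1 (by omega))
  have h4 := Fin_sum G M (x + H1) (x' + H1) (by omega) h
  rw [e3, abs_div, abs_of_pos h2]
  refine div_le_div_of_nonneg_right ?_ h2.le
  refine (abs_sub _ _).trans ?_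
  push_cast at h4
  have h5 : M * ((x' : ℝ) + H1 - (x + H1)) = M * ((x' : ℝ) - x) := by ring
  linarith

theorem gam_lip (G : ℕ → ℝ) (M : ℝ) (H1 x x' : ℕ) (hH : 1 ≤ H1) (hM : 0 ≤ M) (h : ∀ n, 1 ≤ n → n ≤ max x x' + H1 → |G n| ≤ M) :
    |gam G H1 x - gam G H1 x'| ≤ 2 * M * |(x : ℝ) - x'| / H1 := by
  rcases le_total x x' with hx | hx
  · have h1 := Fin_lip G M H1 x x' hH hx (fun n hn1 hn2 => h n hn1 (by rw [max_eq_right hx]; exact hn2))
    have h2 : |(x : ℝ) - x'| = (x' : ℝ) - x := by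
      rw [abs_sub_comm, abs_of_nonneg]
      have : (x : ℝ) ≤ x' := by exact_mod_cast hx
      linarith
    rw [h2]
    exact h1
  · have h1 := Fin_lip G M H1 x' x hH hx (fun n hn1 hn2 => h n hn1 (by rw [max_eq_left hx]; exact hn2))
    have h2 : |(x : ℝ) - x'| = (x : ℝ) - x' := by
      rw [abs_of_nonneg]
      have : (x' : ℝ) ≤ x := by exact_mod_cast hx
      linarith
    rw [h2, abs_sub_comm]
    exact h1

end Pool.Agent.H31.EQ

end
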