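import Pool.Agent.H43.PJ.M66
import Pool.Agent.H43.PJ.M69

/-! The parts of this file: H43.TS.EqM, H46.TPQ.Egm. -/

section

/-!
# TS EqM: the main term of the functions `Gs` (project EQ, helper31)
-/

set_option autoImplicit false

namespace Pool.Agent.H43.TS

open Finset
open Pool.Agent.H43.MP (blk Hn idx Rn)
open Pool.Agent.H53.MID (VKp)
open Pool.Agent.H31.EQ (Gs gam WDx sqz)

/-- the main term from `WDx` with the long average as density -/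
theorem badM_wdx (θ : ℝ) (h0 : 0 < θ) (h2 : θ < 1 / 3) (A B D A1 : ℕ) : ∃ N0 : ℕ, ∀ N : ℕ, N0 ≤ N → ∀ Y : ℕ → ℝ,
    (∀ n, 1 ≤ n → n ≤ 16 * N → |Y n| ≤ 10) →
    WDx N (Hn θ N) (4 * A + 9 * B + 4 * D + 6) B Y (gam Y ⌊(N : ℝ) / Real.log N ^ A1⌋₊) →
      ((badM N (Hn θ N) (Rn B N) D Y (fun i => gam Y ⌊(N : ℝ) / Real.log N ^ A1⌋₊ (i * Hn θ N))).card : ℝ) ≤
        (N : ℝ) / Real.log N ^ A := by
  set A' := A + B + D + 1 with hA'
  obtain ⟨N3, hN3⟩ := Pool.Agent.H43.TP.ev_large θ 1 h0 h2 one_pos le_rfl B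
  obtain ⟨N4, hN4⟩ := Pool.Agent.H76.GB.log_pow_le (2 / 3) 640 (by norm_num) (by norm_num) (A1 + A' + B)
  obtain ⟨N6, hN6⟩ := Pool.Agent.H76.GB.log_pow_le (2 / 3) 32 (by norm_num) (by norm_num) 0
  refine ⟨N3 + N4 + N6 + 640, fun N hN G hgs hW => ?_⟩
  obtain ⟨f1, f2, f3, f4, f5, f6, f7, f8, -, -, -⟩ := hN3 N (by omega)
  have g4 := hN4 N (by omega)
  have g6 := hN6 N (by omega)
  rw [pow_zero, mul_one] at g6
  rw [one_mul] at f1
  set L := Real.log N with hLdef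
  set H := Hn θ N with hHdef
  have hN0 : N ≠ 0 := by omega
  have hN1' : (1 : ℝ) ≤ N := by exact_mod_cast Nat.one_le_iff_ne_zero.2 hN0
  have hNpos : (0 : ℝ) < N := by linarith
  have hL0 : 0 < L := by linarith
  have hL1 : 1 ≤ L := by linarith
  have hH0 : (0 : ℝ) < H := by exact_mod_cast f3
  have hadd : ∀ a b : ℝ, (N : ℝ) ^ (a + b) = (N : ℝ) ^ a * (N : ℝ) ^ b := fun a b => Real.rpow_add hNpos a b
  -- sizes
  have hH3 : (H : ℝ) ≤ (N : ℝ) ^ (1 / 3 : ℝ) := by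
    have t0 : (H : ℝ) ≤ (N : ℝ) ^ θ := Nat.floor_le (by positivity)
    exact t0.trans (Real.rpow_le_rpow_of_exponent_le hN1' h2.le)
  have hN3' : (N : ℝ) = (N : ℝ) ^ (1 / 3 : ℝ) * (N : ℝ) ^ (2 / 3 : ℝ) := by
    rw [← hadd]
    norm_num
  have hHN : 16 * (H + 20) ≤ N := by
    have t1 : (32 : ℝ) * H ≤ N := by
      calc (32 : ℝ) * H = H * 32 := by ring
        _ ≤ (N : ℝ) ^ (1 / 3 : ℝ) * (N : ℝ) ^ (2 / 3 : ℝ) := mul_le_mul hH3 g6 (by norm_num) (by positivity)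
        _ = N := hN3'.symm
    have t2 : 32 * H ≤ N := by exact_mod_cast t1
    omega
  have hbig : 640 * (H : ℝ) * L ^ (A1 + A' + B) ≤ N := by
    calc 640 * (H : ℝ) * L ^ (A1 + A' + B) = H * (640 * L ^ (A1 + A' + B)) := by ring
      _ ≤ (N : ℝ) ^ (1 / 3 : ℝ) * (N : ℝ) ^ (2 / 3 : ℝ) := mul_le_mul hH3 g4 (by positivity) (by positivity)
      _ = N := hN3'.symm
  set H1 := ⌊(N : ℝ) / L ^ A1⌋₊ with hH1
  have hLp : ∀ n : ℕ, 1 ≤ L ^ n := fun n => one_le_pow₀ hL1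
  have hq1 : 1 ≤ (N : ℝ) / L ^ A1 := by
    rw [le_div_iff₀ (by positivity), one_mul]
    have t1 : L ^ A1 ≤ L ^ (A1 + A' + B) := pow_le_pow_right₀ hL1 (by omega)
    have t2 : (1 : ℝ) ≤ H := by exact_mod_cast f3
    nlinarith [hLp A1]
  have hH1pos : 1 ≤ H1 := (Nat.one_le_floor_iff _).2 hq1
  have hH1le : (H1 : ℝ) ≤ N := (Nat.floor_le (by positivity)).trans (div_le_self hNpos.le (hLp A1))
  have hH1leN : H1 ≤ N := by exact_mod_cast hH1le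
  have hH1ge : (N : ℝ) / (2 * L ^ A1) ≤ H1 := by
    have t1 := Nat.lt_floor_add_one ((N : ℝ) / L ^ A1)
    have t2 : (1 : ℝ) ≤ (H1 : ℝ) := by exact_mod_cast hH1pos
    have t3 : (N : ℝ) / (2 * L ^ A1) = (N : ℝ) / L ^ A1 / 2 := by
      rw [mul_comm 2, ← div_div]
    rw [t3]
    have t4 : (N : ℝ) / L ^ A1 < H1 + 1 := t1
    linarith
  have hlip : ∀ x x' : ℕ, x ≤ x' + 2 * H → x' ≤ x + 2 * H → N ≤ 8 * x → x ≤ 8 * N → N ≤ 8 * x' → x' ≤ 8 * N →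
      |gam G H1 x - gam G H1 x'| ≤ 1 / (8 * L ^ (A' + B)) := by
    intro x x' a1 a2 a3 a4 a5 a6
    have t1 := Pool.Agent.H31.EQ.gam_lip G 10 H1 x x' hH1pos (by norm_num) (fun n hn1 hn2 => hgs n hn1 (by
      have : max x x' ≤ 8 * N := max_le a4 a6
      omega))
    refine t1.trans ?_
    have t2 : |(x : ℝ) - x'| ≤ 2 * H := by
      rw [abs_le]
      have b1 : (x : ℝ) ≤ x' + 2 * H := by exact_mod_cast a1
      have b2 : (x' : ℝ) ≤ x + 2 * H := by exact_mod_cast a2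
      constructor <;> linarith
    have hH1R : (0 : ℝ) < H1 := by exact_mod_cast hH1pos
    rw [div_le_div_iff₀ hH1R (by positivity), one_mul]
    have t3 : 2 * 10 * |(x : ℝ) - x'| * (8 * L ^ (A' + B)) ≤ 2 * 10 * (2 * H) * (8 * L ^ (A' + B)) :=
      mul_le_mul_of_nonneg_right (by linarith) (by positivity)
    refine t3.trans (le_trans ?_ hH1ge)
    rw [le_div_iff₀ (by positivity)]
    have hp : L ^ A1 * L ^ (A' + B) = L ^ (A1 + A' + B) := by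
      rw [← pow_add]
      congr 1
      omega
    calc 2 * 10 * (2 * (H : ℝ)) * (8 * L ^ (A' + B)) * (2 * L ^ A1) = 640 * H * (L ^ A1 * L ^ (A' + B)) := by ring
      _ = 640 * H * L ^ (A1 + A' + B) := by rw [hp]
      _ ≤ N := hbig
  have hY : ∀ n : ℕ, 1 ≤ n → n ≤ 16 * N → |G n| ≤ L ^ 1 := by
    intro n hn1 hn2
    rw [pow_one]
    exact (hgs n hn1 hn2).trans (by linarith)
  have q1 := badQ_wd (A := A') (B := B) (C := 1) (η := gam G H1) f1 f3 hHN hY hlip (by omega) hW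
  have q2 := badQN_wd (A := A') (B := B) (η := gam G H1) f1 f3 hHN hlip (by omega) hW
  exact badM_wd (A := A) (D := D) (A' := A') f1 f3 f4 f8 (by omega) (by omega) q1 q2

private theorem EqM_low (θ e : ℝ) (h1 : 1 / 5 + e < θ) : ∃ N0 : ℕ, ∀ N : ℕ, N0 ≤ N → 1 ≤ Hn θ N →
    (N : ℝ) ^ θ / 2 ≤ Hn θ N → (N : ℝ) ^ (1 / 5 + e) ≤ Hn θ N := by
  obtain ⟨N5, hN5⟩ := Pool.Agent.H76.GB.log_pow_le (θ - (1 / 5 + e)) 2 (by linarith) (by norm_num) 0
  refine ⟨N5 + 1, fun N hN _ f2 => ?_⟩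
  have g5 := hN5 N (by omega)
  rw [pow_zero, mul_one] at g5
  have hNpos : (0 : ℝ) < N := by exact_mod_cast (by omega : 0 < N)
  have t1 : (N : ℝ) ^ θ = (N : ℝ) ^ (θ - (1 / 5 + e)) * (N : ℝ) ^ (1 / 5 + e) := by
    rw [← Real.rpow_add hNpos]
    congr 1
    ring
  have t2 : 2 * (N : ℝ) ^ (1 / 5 + e) ≤ (N : ℝ) ^ θ := by
    rw [t1]
    exact mul_le_mul_of_nonneg_right g5 (by positivity)
  linarith

/-- the same for a function that agrees with `Gs` outside the multiples of large squares of primes -/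
theorem badM_ex (hVK : VKp) (θ e : ℝ) (he : 0 < e) (h1 : 1 / 5 + e < θ) (h2 : θ < 1 / 3) (A B D : ℕ) :
    ∃ A0 : ℕ, ∀ A1 : ℕ, A0 ≤ A1 → ∃ N0 : ℕ, ∀ N : ℕ, N0 ≤ N → ∀ (y J0 J1 : ℕ) (b : ℕ → ℕ → ℝ) (Y : ℕ → ℝ),
      (N : ℝ) ^ (1 / 5 + e) ≤ (2 ^ J0 * y : ℕ) → ((2 ^ J1 * y : ℕ) : ℝ) ^ 2 * Hn θ N ≤ N →
      (∀ j k, |b j k| ≤ 1) →
      (∀ j k, b j k ≠ 0 → ∀ q : ℕ, q.Prime → q ∣ k → Real.log N ^ B < q) →
      (∀ n, 1 ≤ n → n ≤ 16 * N → |Y n| ≤ 10) →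
      (∀ n, 1 ≤ n → n ≤ 16 * N → ¬ sqz (2 ^ J0 * y) n → Gs b y J0 J1 n = Y n) →
      ((badM N (Hn θ N) (Rn B N) D Y
        (fun i => gam Y ⌊(N : ℝ) / Real.log N ^ A1⌋₊ (i * Hn θ N))).card : ℝ) ≤
        (N : ℝ) / Real.log N ^ A := by
  obtain ⟨A0, hA0⟩ := Pool.Agent.H31.EQ.eq2 hVK e he (4 * A + 9 * B + 4 * D + 6 + 1) B
  refine ⟨A0, fun A1 hA1 => ?_⟩
  obtain ⟨N1, hN1⟩ := hA0 A1 hA1
  obtain ⟨N2, hN2⟩ := Pool.Agent.H31.EQ.gs_le e he
  obtain ⟨N3, hN3⟩ := Pool.Agent.H43.TP.ev_large θ 1 (by linarith) h2 one_pos le_rfl B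
  obtain ⟨N4, hN4⟩ := badM_wdx θ (by linarith) h2 A B D A1
  obtain ⟨N5, hN5⟩ := EqM_low θ e h1
  obtain ⟨N6, hN6⟩ := Pool.Agent.H31.EQ.wdx_sq (4 * A + 9 * B + 4 * D + 6) B
  obtain ⟨N7, hN7⟩ := Pool.Agent.H76.GB.log_pow_le (1 / 4) 2 (by norm_num) (by norm_num) A1
  refine ⟨N1 + N2 + N3 + N4 + N5 + N6 + N7, fun N hN y J0 J1 b Y hb1 hb2 hb3 hb4 hY hE => ?_⟩
  obtain ⟨f1, f2, f3, -⟩ := hN3 N (by omega)
  have hgs := hN2 N (by omega) y J0 J1 b hb1 hb3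
  have hlow := hN5 N (by omega) f3 f2
  have h7 := hN7 N (by omega)
  have hW := hN1 N (by omega) (Hn θ N) y J0 J1 b hlow hb1 hb2 hb3 hb4
  rw [one_mul] at f1
  have hN0 : N ≠ 0 := by
    rintro rfl
    norm_num at f1
  have hN1' : (1 : ℝ) ≤ N := by exact_mod_cast Nat.one_le_iff_ne_zero.2 hN0
  have hNpos : (0 : ℝ) < N := by linarith
  set L := Real.log N with hLdef
  have hL1 : 1 ≤ L := by linarith
  have hLp : ∀ n : ℕ, 1 ≤ L ^ n := fun n => one_le_pow₀ hL1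
  refine hN4 N (by omega) Y hY (hN6 N (by omega) (Hn θ N) _ (2 ^ J0 * y) (Gs b y J0 J1) Y ?_ ?_ ?_ ?_
    (fun n a1 a2 => (hgs n a1 a2).trans (by norm_num)) hY hE hW)
  · exact (Real.rpow_le_rpow_of_exponent_le hN1' (by linarith)).trans hb1
  · have t0 : (Hn θ N : ℝ) ≤ (N : ℝ) ^ θ := Nat.floor_le (by positivity)
    exact t0.trans (Real.rpow_le_rpow_of_exponent_le hN1' (by linarith))
  · have t1 := Nat.lt_floor_add_one ((N : ℝ) / L ^ A1)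
    have t2 : (N : ℝ) = (N : ℝ) ^ (3 / 4 : ℝ) * (N : ℝ) ^ (1 / 4 : ℝ) := by
      rw [← Real.rpow_add hNpos]
      norm_num
    have t3 : 2 * (N : ℝ) ^ (3 / 4 : ℝ) ≤ (N : ℝ) / L ^ A1 := by
      rw [le_div_iff₀ (by positivity)]
      calc 2 * (N : ℝ) ^ (3 / 4 : ℝ) * L ^ A1 = (N : ℝ) ^ (3 / 4 : ℝ) * (2 * L ^ A1) := by ring
        _ ≤ (N : ℝ) ^ (3 / 4 : ℝ) * (N : ℝ) ^ (1 / 4 : ℝ) := mul_le_mul_of_nonneg_left h7 (by positivity)
        _ = N := t2.symm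
    have t4 : 1 ≤ (N : ℝ) ^ (3 / 4 : ℝ) := Real.one_le_rpow hN1' (by norm_num)
    linarith
  · exact (Nat.floor_le (by positivity)).trans (div_le_self hNpos.le (hLp A1))

end Pool.Agent.H43.TS

end

section

/-!
# TPQ Egm: the functions `rg z · φ(om)`, `φ 0 = 0`, are well distributed (`badM`), from `badM_ex`
-/

set_option autoImplicit false

namespace Pool.Agent.H46.TPQ

open Finset
open Pool.Agent.H91.PK (ee)
open Pool.Agent.H91.EHA (Lam lamR)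
open Pool.Agent.H43.MP (blk Hn idx Rn HUX)
open Pool.Agent.H43.TP (rf badF pr)
open Pool.Agent.H43.TS (badM badM_ex)
open Pool.Agent.H31.EQ (gam Gs sqz)
open Pool.Agent.H35.W (pb)
open Pool.Agent.H53.MID (Fp VKp)
open Pool.Agent.H76.TP (yN zz rg PY)
open Pool.Agent.H91.TQ (om Lev)

/-- the cofactor weights of `rg z · φ(om)` -/
noncomputable def bphi (φ : ℕ → ℝ) (y J J1 k : ℕ) : ℝ :=
  rg (zz y J) k * (φ (1 + om y J J1 k) / (1 + (om y J J1 k : ℝ)))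

/-- the primes of `(z, z1]` are the union of the boxes -/
theorem part_sum (g : ℕ → ℝ) (y J J1 : ℕ) (h : J ≤ J1) :
    ∑ j ∈ Ico J J1, ∑ p ∈ pb (2 ^ j * y), g p = ∑ p ∈ PY (zz y J) (zz y J1), g p := by
  induction J1, h using Nat.le_induction with
  | base =>
    unfold PY
    simp
  | succ n hn ih =>
    rw [Finset.sum_Ico_succ_top (by omega), ih]
    have hle : zz y J ≤ zz y n := by
      unfold zz
      exact Nat.mul_le_mul_right _ (Nat.pow_le_pow_right (by norm_num) hn)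
    have e1 : zz y (n + 1) = 2 * (2 ^ n * y) := by
      unfold zz
      rw [pow_succ]
      ring
    have e2 : zz y n = 2 ^ n * y := rfl
    have hU : PY (zz y J) (zz y (n + 1)) = PY (zz y J) (zz y n) ∪ pb (2 ^ n * y) := by
      ext p
      unfold PY pb
      simp only [mem_union, mem_filter, mem_Ioc]
      rw [e1, ← e2]
      constructor
      · rintro ⟨⟨h1, h2⟩, h3⟩
        rcases Nat.lt_or_ge (zz y n) p with h4 | h4
        · right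
          exact ⟨⟨h4, h2⟩, h3⟩
        · left
          exact ⟨⟨h1, h4⟩, h3⟩
      · rintro (⟨⟨h1, h2⟩, h3⟩ | ⟨⟨h1, h2⟩, h3⟩)
        · exact ⟨⟨h1, by omega⟩, h3⟩
        · exact ⟨⟨by omega, h2⟩, h3⟩
    have hD : Disjoint (PY (zz y J) (zz y n)) (pb (2 ^ n * y)) := by
      rw [Finset.disjoint_left]
      intro p hp hp2
      unfold PY at hp
      unfold pb at hp2
      rw [mem_filter, mem_Ioc] at hp hp2
      rw [← e2] at hp2
      omega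
    rw [hU, Finset.sum_union hD]

theorem gs_eq_sum (b : ℕ → ℝ) (y J J1 m : ℕ) (h : J ≤ J1) :
    Gs (fun _ => b) y J J1 m = ∑ p ∈ (PY (zz y J) (zz y J1)).filter (fun p => p ∣ m), b (m / p) := by
  unfold Gs Fp
  rw [Finset.sum_filter, ← part_sum _ y J J1 h]
  refine sum_congr rfl fun j _ => ?_
  rw [Finset.sum_filter]

/-- roughness of the cofactor -/
theorem rg_div {z m p : ℕ} (hp : p.Prime) (hz : z < p) (hpm : p ∣ m) : rg z (m / p) = rg z m := by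
  have key : (∀ q : ℕ, q.Prime → q ∣ m / p → z < q) ↔ (∀ q : ℕ, q.Prime → q ∣ m → z < q) := by
    constructor
    · intro h q hq hqm
      obtain ⟨k, rfl⟩ := hpm
      rw [Nat.mul_div_cancel_left k hp.pos] at h
      rcases (Nat.Prime.dvd_mul hq).1 hqm with h1 | h1
      · rw [(Nat.prime_dvd_prime_iff_eq hq hp).1 h1]
        exact hz
      · exact h q hq h1
    · intro h q hq hqm
      exact h q hq (hqm.trans (Nat.div_dvd_of_dvd hpm))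
  unfold rg
  by_cases h : ∀ q : ℕ, q.Prime → q ∣ m → z < q
  · rw [if_pos h, if_pos (key.2 h)]
  · rw [if_neg h, if_neg (fun h2 => h (key.1 h2))]

/-- `om` of the cofactor, `p² ∤ m` -/
theorem om_cof {y J J1 m p : ℕ} (hm : 1 ≤ m) (hp : p.Prime) (hz : zz y J < p) (hz1 : p ≤ zz y J1) (hpm : p ∣ m)
    (hsq : ¬ p ^ 2 ∣ m) : 1 + om y J J1 (m / p) = om y J J1 m := by
  obtain ⟨k, rfl⟩ := hpm
  have hk : 1 ≤ k := by
    rcases Nat.eq_zero_or_pos k with h | h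
    · rw [h] at hm
      simp at hm
    · exact h
  rw [Nat.mul_div_cancel_left k hp.pos]
  have hpk : ¬ p ∣ k := by
    rintro ⟨j, rfl⟩
    exact hsq ⟨j, by ring⟩
  have e1 : (p * k).primeFactors = insert p k.primeFactors := by
    rw [Nat.primeFactors_mul hp.ne_zero (by omega), Nat.Prime.primeFactors hp, singleton_union]
  unfold om
  rw [e1, Finset.filter_insert, if_pos ⟨hz, hz1⟩, Finset.card_insert_of_notMem, add_comm]
  rw [mem_filter]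
  rintro ⟨h1, -⟩
  exact hpk (Nat.dvd_of_mem_primeFactors h1)

theorem om_card {y J J1 m : ℕ} (hm : 1 ≤ m) :
    ((PY (zz y J) (zz y J1)).filter (fun p => p ∣ m)).card = om y J J1 m := by
  unfold om
  congr 1
  ext p
  unfold PY
  simp only [mem_filter, mem_Ioc, Nat.mem_primeFactors]
  constructor
  · rintro ⟨⟨⟨h1, h2⟩, h3⟩, h4⟩
    exact ⟨⟨h3, h4, by omega⟩, h1, h2⟩
  · rintro ⟨⟨h3, h4, -⟩, h1, h2⟩
    exact ⟨⟨⟨h1, h2⟩, h3⟩, h4⟩

/-- the exact function and the type II sum agree off the squares -/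
theorem gs_phi (φ : ℕ → ℝ) (h0 : φ 0 = 0) (y J J1 m : ℕ) (hJ : J ≤ J1) (hm : 1 ≤ m) (hsq : ¬ sqz (2 ^ J * y) m) :
    Gs (fun _ => bphi φ y J J1) y J J1 m = rg (zz y J) m * φ (om y J J1 m) := by
  rw [gs_eq_sum _ y J J1 m hJ]
  have h1 : ∀ p ∈ (PY (zz y J) (zz y J1)).filter (fun p => p ∣ m),
      bphi φ y J J1 (m / p) = rg (zz y J) m * (φ (om y J J1 m) / (om y J J1 m : ℝ)) := by
    intro p hp
    unfold PY at hp
    rw [mem_filter, mem_filter, mem_Ioc] at hp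
    obtain ⟨⟨⟨h1, h2⟩, h3⟩, h4⟩ := hp
    have h5 : ¬ p ^ 2 ∣ m := fun h5 => hsq ⟨p, h3, h1, h5⟩
    have h6 := om_cof hm h3 h1 h2 h4 h5
    unfold bphi
    rw [rg_div h3 h1 h4, ← h6]
    push_cast
    rfl
  rw [sum_congr rfl h1, sum_const, om_card hm, nsmul_eq_mul]
  rcases Nat.eq_zero_or_pos (om y J J1 m) with h | h
  · rw [h, h0]
    simp
  · have : (om y J J1 m : ℝ) ≠ 0 := by positivity
    field_simp

theorem bphi_abs (φ : ℕ → ℝ) (h1 : ∀ k : ℕ, |φ (1 + k)| ≤ 1 + (k : ℝ)) (y J J1 k : ℕ) : |bphi φ y J J1 k| ≤ 1 := by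
  unfold bphi
  have h2 : |φ (1 + om y J J1 k) / (1 + (om y J J1 k : ℝ))| ≤ 1 := by
    rw [abs_div, abs_of_pos (show (0 : ℝ) < 1 + (om y J J1 k : ℝ) by positivity)]
    rw [div_le_one (by positivity)]
    exact h1 _
  rcases rg_zero_or_one (zz y J) k with h | h <;> rw [h]
  · norm_num
  · rw [one_mul]
    exact h2

theorem egm_phi (hVK : VKp) (θ e ζ κ : ℝ) (he : 0 < e) (h1 : 1 / 5 + e < θ) (h2 : θ < 1 / 3) (hζ : 1 / 5 + e ≤ ζ)
    (hκ : 2 * κ + θ ≤ 1) (φ : ℕ → ℝ) (h0 : φ 0 = 0) (hφ : ∀ k : ℕ, |φ (1 + k)| ≤ 1 + (k : ℝ))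
    (hφ2 : ∀ k : ℕ, k ≤ 4 → |φ k| ≤ 10) (A B D : ℕ) :
    ∃ A0 : ℕ, ∀ A1 : ℕ, A0 ≤ A1 → ∃ N0 : ℕ, ∀ N : ℕ, N0 ≤ N → ∀ y J J1 : ℕ, J ≤ J1 →
      (N : ℝ) ^ ζ ≤ zz y J → (zz y J1 : ℝ) ≤ (N : ℝ) ^ κ →
      ((badM N (Hn θ N) (Rn B N) D (fun m => rg (zz y J) m * φ (om y J J1 m))
        (fun i => gam (fun m => rg (zz y J) m * φ (om y J J1 m)) ⌊(N : ℝ) / Real.log N ^ A1⌋₊ (i * Hn θ N))).card : ℝ) ≤
        (N : ℝ) / Real.log N ^ A := by
  obtain ⟨A0, hA0⟩ := badM_ex hVK θ e he h1 h2 A B D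
  refine ⟨A0, fun A1 hA1 => ?_⟩
  obtain ⟨N1, hN1⟩ := hA0 A1 hA1
  have e1 : ∀ᶠ N : ℕ in Filter.atTop, (17 : ℝ) ≤ (N : ℝ) ^ (5 * ζ - 1) :=
    ((tendsto_rpow_atTop (by linarith)).comp (tendsto_natCast_atTop_atTop (R := ℝ))).eventually_ge_atTop _
  obtain ⟨N2, hN2⟩ := Filter.eventually_atTop.1 (e1.and (Filter.eventually_ge_atTop 2))
  obtain ⟨N3, hN3⟩ := Pool.Agent.H76.GB.log_pow_le (1 / 5) 2 (by norm_num) (by norm_num) B
  refine ⟨max N1 (max N2 N3), fun N hN y J J1 hJ hz hz1 => ?_⟩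
  simp only [max_le_iff] at hN
  obtain ⟨hn1, hn2, hn3⟩ := hN
  obtain ⟨g1, g2⟩ := hN2 N hn2
  replace hN3 := hN3 N hn3
  have hNpos : (0 : ℝ) < N := by exact_mod_cast (by omega : 0 < N)
  have hNone : (1 : ℝ) ≤ N := by exact_mod_cast (by omega : 1 ≤ N)
  have hp : (0 : ℝ) < (N : ℝ) ^ ζ := by positivity
  have hz0 : (0 : ℝ) < zz y J := lt_of_lt_of_le hp hz
  have hzp : 1 ≤ zz y J := by exact_mod_cast hz0
  have hom : ∀ m : ℕ, 1 ≤ m → m ≤ 16 * N → om y J J1 m ≤ 4 := by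
    intro m hm hm2
    by_contra hcon
    have t1 := om_pow y J J1 m hm
    have t2 : zz y J ^ 5 ≤ m := (Nat.pow_le_pow_right hzp (by omega)).trans t1
    have t3 : (zz y J : ℝ) ^ 5 ≤ m := by exact_mod_cast t2
    have t4 : ((N : ℝ) ^ ζ) ^ 5 ≤ (zz y J : ℝ) ^ 5 := pow_le_pow_left₀ hp.le hz 5
    have t5 : (m : ℝ) ≤ 16 * N := by exact_mod_cast hm2
    have t6 : ((N : ℝ) ^ ζ) ^ 5 = (N : ℝ) ^ (5 * ζ - 1) * N := by
      rw [← Real.rpow_natCast, ← Real.rpow_mul hNpos.le]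
      conv_rhs => rw [← Real.rpow_one (N : ℝ)]
      rw [← Real.rpow_mul hNpos.le, ← Real.rpow_add hNpos]
      congr 1
      push_cast
      ring
    have t7 : 17 * (N : ℝ) ≤ (N : ℝ) ^ (5 * ζ - 1) * N := mul_le_mul_of_nonneg_right g1 hNpos.le
    linarith
  refine hN1 N hn1 y J J1 (fun _ => bphi φ y J J1) _ ?_ ?_ (fun j k => bphi_abs φ hφ y J J1 k) ?_ ?_ ?_
  · calc (N : ℝ) ^ (1 / 5 + e) ≤ (N : ℝ) ^ ζ := Real.rpow_le_rpow_of_exponent_le hNone hζ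
      _ ≤ _ := hz
  · have t1 : (Hn θ N : ℝ) ≤ (N : ℝ) ^ θ := Nat.floor_le (by positivity)
    calc ((2 ^ J1 * y : ℕ) : ℝ) ^ 2 * Hn θ N ≤ ((N : ℝ) ^ κ) ^ 2 * (N : ℝ) ^ θ :=
          mul_le_mul (pow_le_pow_left₀ (Nat.cast_nonneg _) hz1 2) t1 (Nat.cast_nonneg _) (by positivity)
      _ = (N : ℝ) ^ (2 * κ + θ) := by
          rw [← Real.rpow_natCast, ← Real.rpow_mul hNpos.le, ← Real.rpow_add hNpos]
          congr 1
          push_cast
          ring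
      _ ≤ (N : ℝ) ^ (1 : ℝ) := Real.rpow_le_rpow_of_exponent_le hNone hκ
      _ = N := Real.rpow_one _
  · intro j k hb q hq hqk
    have t1 : rg (zz y J) k ≠ 0 := by
      intro h
      apply hb
      unfold bphi
      rw [h, zero_mul]
    have t2 : ∀ p : ℕ, p.Prime → p ∣ k → zz y J < p := by
      by_contra hcon
      apply t1
      unfold rg
      rw [if_neg hcon]
    have t3 : (zz y J : ℝ) < q := by exact_mod_cast t2 q hq hqk
    have t4 : (N : ℝ) ^ (1 / 5 : ℝ) ≤ (N : ℝ) ^ ζ := Real.rpow_le_rpow_of_exponent_le hNone (by linarith)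
    have t5 : 0 ≤ Real.log N ^ B := by
      have := Real.log_nonneg hNone
      positivity
    linarith
  · intro n hn hn2
    have t1 := hφ2 _ (hom n hn hn2)
    show |rg (zz y J) n * φ (om y J J1 n)| ≤ 10
    rcases rg_zero_or_one (zz y J) n with h | h <;> rw [h]
    · norm_num
    · rw [one_mul]
      exact t1
  · intro n hn hn2 hs
    exact gs_phi φ h0 y J J1 n hJ hn hs

theorem egm (hVK : VKp) (θ : ℝ) (h1 : 2 / 9 ≤ θ) (h2 : θ < 1 / 3) : EGM θ := by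
  intro e1 _ _ A B
  have he : ∀ k : ℕ, |e0 (1 + k)| ≤ 1 + (k : ℝ) := by
    intro k
    rw [abs_of_nonneg (e0_nonneg _), e0_pos (by omega)]
    push_cast
    linarith
  have hg : ∀ k : ℕ, |g0 (1 + k)| ≤ 1 + (k : ℝ) := by
    intro k
    have hk : (0 : ℝ) ≤ k := Nat.cast_nonneg k
    rw [abs_of_nonneg (g0_nonneg _), g0_pos (by omega)]
    push_cast
    rw [div_le_iff₀ (by positivity)]
    nlinarith
  obtain ⟨A0, hA0⟩ := egm_phi hVK θ (1 / 100) (111 / 500) (1527 / 5000) (by norm_num) (by linarith) h2 (by norm_num)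
    (by linarith) e0 e0_zero he (fun k hk => by rw [abs_of_nonneg (e0_nonneg _)]; linarith [e0_le hk]) A B 4
  obtain ⟨A0', hA0'⟩ := egm_phi hVK θ (1 / 100) (111 / 500) (1527 / 5000) (by norm_num) (by linarith) h2 (by norm_num)
    (by linarith) g0 g0_zero hg (fun k hk => by rw [abs_of_nonneg (g0_nonneg _)]; linarith [g0_le hk]) A B 4
  refine ⟨max A0 A0', fun A1 hA1 => ?_⟩
  obtain ⟨N1, hN1⟩ := hA0 A1 ((le_max_left _ _).trans hA1)
  obtain ⟨N2, hN2⟩ := hA0' A1 ((le_max_right _ _).trans hA1)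
  refine ⟨max N1 N2, fun N hN J J1 hL => ?_⟩
  obtain ⟨l1, l2, -, -, l5⟩ := hL
  exact ⟨hN1 N ((le_max_left _ _).trans hN) _ J J1 l1 l2 l5, hN2 N ((le_max_right _ _).trans hN) _ J J1 l1 l2 l5⟩

end Pool.Agent.H46.TPQ

end
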