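import Pool.Agent.H43.PJ.M22
import Pool.Agent.H43.PJ.M52
import Pool.Agent.H43.PJ.M55
import Pool.Agent.H43.PJ.M65

/-! The parts of this file: H88.PSI.PtB, H91.TL.LinSecG, H76.TP.KStep, H43.TP.Res, H43.TS.Fin. -/

section

/-!
# PSI PtB: pointwise bound for the factors of all kinds (maximum of the constants of `mu_b`, `sm_b`)
-/

set_option autoImplicit false

namespace Pool.Agent.H88.PSI

theorem pt_b (K B : ℕ) : ∃ K' X0 : ℕ, ∀ X : ℕ, X0 ≤ X →
    ∀ (d : ℕ) (χ : DirichletCharacter ℂ d) (k : Fin 3) (j : ℕ) (t : ℝ), 1 ≤ d →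
    (d : ℝ) ≤ Real.log X ^ B →
    (X : ℝ) ^ (1 / 7 : ℝ) ≤ (2 : ℝ) ^ j → (2 : ℝ) ^ j ≤ X → Real.log X ^ K' ≤ |t| → |t| ≤ X →
    ‖DP (tw χ (pc k j)) (2 * 2 ^ j) t‖ ≤ (2 : ℝ) ^ j / Real.log X ^ K := by
  obtain ⟨K1, X1, h1⟩ := mu_b_h Pool.Agent.H97.VK.vk_chi_w K B
  obtain ⟨K2, X2, h2⟩ := sm_b_h Pool.Agent.H97.VK.psum K B
  obtain ⟨X3, h3⟩ := Pool.Agent.H80.LV.log_ge 1
  refine ⟨max K1 K2, max (max X1 X2) X3, ?_⟩
  intro X hX d χ k j t hd hdB hj1 hj2 ht1 ht2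
  simp only [max_le_iff] at hX
  obtain ⟨⟨hX1, hX2⟩, hX3⟩ := hX
  have hL := h3 X hX3
  by_cases hk : k = 2
  · subst hk
    exact h1 X hX1 d χ j t hd hdB hj1 hj2 ((pow_le_pow_right₀ hL (le_max_left _ _)).trans ht1) ht2
  · exact h2 X hX2 d χ k j t hk hd hdB hj1 hj2 ((pow_le_pow_right₀ hL (le_max_right _ _)).trans ht1) ht2

end Pool.Agent.H88.PSI

end

section

/-!
# TL LinSecG: (`LinSec.lean` with a general lower bound of `z`) second moments of `R0 = Ap S`, `R1`, `DD` on the blocks (compare `H91/TQ/SecQ.lean`)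

`1 ≤ m ≤ 16N`, `z ≥ N^(51/250)`, `5 · 51/250 > 1`: `om m ≤ 4` (five primes `> z` have a product `> 16N`).
* `Ap S y J m = S m - (rg y m - AA y J m)`, `0 ≤ rg - AA ≤ 1` (`rg - AA = ∑_j Fp bf P_j m ≥ 0`; `aa_nonneg`, `rg ≤ 1`): `|Ap| ≤ |S| + 1`.
* `r1_eq`: `R1 = om (T - rg + AA)` for `m ≥ 1`: `fq_eq` gives `Fq = (S - rg) + (om/2)(rg - T) + (1 - om/2) AA + sqp` and `Ap = S - rg + AA`, so `Ap - Fq + sqp = (om/2)(T - rg + AA)`.  So `|R1| ≤ 4 (|T| + 1)`.
* `|DD| ≤ |S| + |T| + sqp`, `0 ≤ sqp ≤ ω(m) ≤ 2 log m ≤ 2L + 6`.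
`(a+b+c)² ≤ 3(a² + b² + c²)`: all three second moments are `≤ w L^(C+3)` for large `N`.
-/

set_option autoImplicit false

namespace Pool.Agent.H91.TL

open Finset
open Pool.Agent.H53.MID (Fp Bs)
open Pool.Agent.H76.TP
open Pool.Agent.H91.TQ
open Pool.Agent.H46.TPQ (R1 DD)

private theorem LinSecG_rg_le (y m : ℕ) : rg y m ≤ 1 := by
  unfold rg
  split_ifs <;> norm_num

private theorem LinSecG_sum_nonneg (y J m : ℕ) : 0 ≤ ∑ j ∈ range J, Fp (bf y J) (2 ^ j * y) m := by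
  refine Finset.sum_nonneg fun j _ => ?_
  unfold Pool.Agent.H53.MID.Fp
  exact Finset.sum_nonneg fun p _ => bf_nonneg y J (m / p)

private theorem LinSecG_Ap (S : ℕ → ℝ) (y J m : ℕ) : Ap S y J m = S m - (rg y m - AA y J m) := by
  unfold Ap AA
  ring

private theorem LinSecG_rgAA (y J m : ℕ) (hm : 1 ≤ m) : 0 ≤ rg y m - AA y J m ∧ rg y m - AA y J m ≤ 1 := by
  constructor
  · have h4 : rg y m - AA y J m = ∑ j ∈ range J, Fp (bf y J) (2 ^ j * y) m := by
      unfold AA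
      ring
    rw [h4]
    exact LinSecG_sum_nonneg y J m
  · have h6 := aa_nonneg y J m hm
    have h7 := LinSecG_rg_le y m
    linarith

theorem r1_eq_g (S T : ℕ → ℝ) (y J J1 m : ℕ) (hm : 1 ≤ m) :
    R1 S T y J J1 m = (om y J J1 m : ℝ) * (T m - rg y m + AA y J m) := by
  unfold R1
  rw [LinSecG_Ap S y J m, fq_eq S T y J J1 m hm]
  ring

theorem om_le4_g : ∃ N0 : ℕ, ∀ N : ℕ, N0 ≤ N → ∀ y J J1 m : ℕ, 1 ≤ m → m ≤ 16 * N → (N : ℝ) ^ (51 / 250 : ℝ) ≤ zz y J →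
    om y J J1 m ≤ 4 := by
  have e1 : ∀ᶠ N : ℕ in Filter.atTop, (17 : ℝ) ≤ (N : ℝ) ^ (5 * (51 / 250 : ℝ) - 1) :=
    ((tendsto_rpow_atTop (by norm_num)).comp
      (tendsto_natCast_atTop_atTop (R := ℝ))).eventually_ge_atTop _
  obtain ⟨N0, hN0⟩ := Filter.eventually_atTop.1 (e1.and (Filter.eventually_ge_atTop 1))
  refine ⟨N0, fun N hN y J J1 m hm1 hm2 hz => ?_⟩
  obtain ⟨g1, g3⟩ := hN0 N hN
  have hN : (0 : ℝ) < N := by exact_mod_cast g3
  have hp1 : 0 < (N : ℝ) ^ (51 / 250 : ℝ) := Real.rpow_pos_of_pos hN _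
  have hzpos : 1 ≤ zz y J := by
    have : (0 : ℝ) < zz y J := lt_of_lt_of_le hp1 hz
    exact_mod_cast this
  have hz5 : m < zz y J ^ 5 := by
    have h1 : ((N : ℝ) ^ (51 / 250 : ℝ)) ^ 5 ≤ (zz y J : ℝ) ^ 5 := pow_le_pow_left₀ hp1.le hz 5
    have h2 : ((N : ℝ) ^ (51 / 250 : ℝ)) ^ 5 = (N : ℝ) ^ (5 * (51 / 250 : ℝ) - 1) * N := by
      rw [← Real.rpow_natCast, ← Real.rpow_mul hN.le]
      conv_rhs => rw [← Real.rpow_one (N : ℝ)]
      rw [← Real.rpow_mul hN.le, ← Real.rpow_add hN]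
      congr 1
      push_cast
      ring
    have h3 : 17 * (N : ℝ) ≤ (N : ℝ) ^ (5 * (51 / 250 : ℝ) - 1) * N := mul_le_mul_of_nonneg_right g1 hN.le
    have h4 : (m : ℝ) ≤ 16 * N := by exact_mod_cast hm2
    have h5 : (m : ℝ) < (zz y J : ℝ) ^ 5 := by linarith
    exact_mod_cast h5
  by_contra hcon
  have h4 : 5 ≤ om y J J1 m := by omega
  have hsub : m.primeFactors.filter (fun p => zz y J < p ∧ p ≤ zz y J1) ⊆ m.primeFactors :=
    filter_subset _ _
  have h1 : zz y J ^ om y J J1 m ≤ ∏ p ∈ m.primeFactors.filter (fun p => zz y J < p ∧ p ≤ zz y J1), p := by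
    unfold om
    exact Finset.pow_card_le_prod _ (fun p => p) (zz y J) (fun p hp => by
      rw [mem_filter] at hp
      exact hp.2.1.le)
  have h2 : (∏ p ∈ m.primeFactors.filter (fun p => zz y J < p ∧ p ≤ zz y J1), p) ∣ m :=
    (Finset.prod_dvd_prod_of_subset _ m.primeFactors (fun p => p) hsub).trans (Nat.prod_primeFactors_dvd m)
  have h3 := Nat.le_of_dvd hm1 h2
  have h5 : zz y J ^ 5 ≤ zz y J ^ om y J J1 m := Nat.pow_le_pow_right hzpos h4
  omega

/-- `2 ^ card ≤ m` -/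
private theorem LinSecG_two_pow (m : ℕ) (hm : m ≠ 0) : 2 ^ m.primeFactors.card ≤ m := by
  have h1 : ∏ p ∈ m.primeFactors, p ≤ m := Nat.le_of_dvd (Nat.pos_of_ne_zero hm) (Nat.prod_primeFactors_dvd m)
  have h2 : ∏ _p ∈ m.primeFactors, 2 ≤ ∏ p ∈ m.primeFactors, p :=
    Finset.prod_le_prod' fun p hp => (Nat.prime_of_mem_primeFactors hp).two_le
  rw [Finset.prod_const] at h2
  exact h2.trans h1

private theorem LinSecG_sqp (y J m : ℕ) (hm : 1 ≤ m) : sqp y J m ≤ 2 * Real.log m := by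
  unfold sqp
  have hsub : ((PY y (zz y J)).filter (fun p => p ^ 2 ∣ m)) ⊆ m.primeFactors := by
    intro p hp
    rw [Finset.mem_filter] at hp
    have hpp : p.Prime := by
      have h := hp.1
      unfold PY at h
      exact (Finset.mem_filter.1 h).2
    rw [Nat.mem_primeFactors]
    exact ⟨hpp, (Dvd.intro_left (p ^ 1) (by ring)).trans hp.2, by omega⟩
  have h1 : (((PY y (zz y J)).filter (fun p => p ^ 2 ∣ m)).card : ℝ) ≤ m.primeFactors.card := by
    exact_mod_cast Finset.card_le_card hsub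
  have h2 : (m.primeFactors.card : ℝ) * Real.log 2 ≤ Real.log m := by
    rw [← Real.log_pow]
    apply Real.log_le_log (by positivity)
    exact_mod_cast LinSecG_two_pow m (by omega)
  have h3 : (1 / 2 : ℝ) ≤ Real.log 2 := by
    have := Real.log_two_gt_d9
    linarith
  have h4 : (0 : ℝ) ≤ (m.primeFactors.card : ℝ) := Nat.cast_nonneg _
  nlinarith [mul_le_mul_of_nonneg_left h3 h4]

theorem lin_sec_g (C : ℕ) : ∃ N0 : ℕ, ∀ N : ℕ, N0 ≤ N → ∀ (y J J1 : ℕ) (S T : ℕ → ℝ), 1 ≤ y → (N : ℝ) ^ (51 / 250 : ℝ) ≤ zz y J →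
    (∀ u w : ℕ, 1 ≤ u → (N : ℝ) ^ (1 / 8 : ℝ) ≤ w → ∑ m ∈ Ico u (u + w), S m ^ 2 ≤ w * Real.log N ^ C) →
    (∀ u w : ℕ, 1 ≤ u → (N : ℝ) ^ (1 / 8 : ℝ) ≤ w → ∑ m ∈ Ico u (u + w), T m ^ 2 ≤ w * Real.log N ^ C) →
    ∀ u w : ℕ, 1 ≤ u → (N : ℝ) ^ (1 / 8 : ℝ) ≤ w → u + w ≤ 16 * N →
      ∑ m ∈ Ico u (u + w), Ap S y J m ^ 2 ≤ w * Real.log N ^ (C + 3) ∧
      ∑ m ∈ Ico u (u + w), R1 S T y J J1 m ^ 2 ≤ w * Real.log N ^ (C + 3) ∧
      ∑ m ∈ Ico u (u + w), DD S T y J1 m ^ 2 ≤ w * Real.log N ^ (C + 3) := by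
  obtain ⟨N1, hN1⟩ := om_le4_g
  have hlog : ∃ N2 : ℕ, ∀ N : ℕ, N2 ≤ N → (60 : ℝ) ≤ Real.log N := by
    have h1 : Filter.Tendsto (fun n : ℕ => Real.log (n : ℝ)) Filter.atTop Filter.atTop :=
      Real.tendsto_log_atTop.comp tendsto_natCast_atTop_atTop
    exact Filter.eventually_atTop.1 (h1.eventually_ge_atTop 60)
  obtain ⟨N2, hN2⟩ := hlog
  refine ⟨max N1 (max N2 1), fun N hN y J J1 S T hy hL hS hT u w hu hw huw => ?_⟩
  have hNa : N1 ≤ N := le_trans (le_max_left _ _) hN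
  have hNb : N2 ≤ N := le_trans (le_trans (le_max_left _ _) (le_max_right _ _)) hN
  have hNc : 1 ≤ N := le_trans (le_trans (le_max_right _ _) (le_max_right _ _)) hN
  have hL60 := hN2 N hNb
  have hz : (N : ℝ) ^ (51 / 250 : ℝ) ≤ zz y J := hL
  have hS' := hS u w hu hw
  have hT' := hT u w hu hw
  clear hS hT
  have hlm : ∀ m ∈ Ico u (u + w), Real.log m ≤ Real.log N + 3 := by
    intro m hm
    rw [Finset.mem_Ico] at hm
    have hm1 : 1 ≤ m := by omega
    have hm16 : m ≤ 16 * N := by omega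
    have h1 : Real.log m ≤ Real.log (16 * N) := by
      apply Real.log_le_log
      · exact_mod_cast hm1
      · exact_mod_cast hm16
    have hN0 : (0 : ℝ) < N := by exact_mod_cast hNc
    rw [Real.log_mul (by norm_num) hN0.ne'] at h1
    have h2 : Real.log 16 ≤ 3 := by
      have h3 : (16 : ℝ) = 2 ^ 4 := by norm_num
      rw [h3, Real.log_pow]
      have := Real.log_two_lt_d9
      push_cast
      linarith
    linarith
  generalize hLdef : Real.log N = L at *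
  have hL1 : (1 : ℝ) ≤ L := by linarith
  have hw0 : (0 : ℝ) ≤ (w : ℝ) := Nat.cast_nonneg _
  have h1 : L ^ C ≤ L ^ (C + 2) := pow_le_pow_right₀ hL1 (by omega)
  have h2 : (1 : ℝ) ≤ L ^ (C + 2) := one_le_pow₀ hL1
  have h3 : L ^ 2 ≤ L ^ (C + 2) := pow_le_pow_right₀ hL1 (by omega)
  have h4 : L ^ (C + 3) = L * L ^ (C + 2) := by ring
  have hC0 : 0 ≤ L ^ C := by positivity
  have hfin : ∀ (f : ℕ → ℝ) (a b c : ℝ), 0 ≤ a → 0 ≤ b → 
      (∀ m ∈ Ico u (u + w), f m ^ 2 ≤ a * S m ^ 2 + b * T m ^ 2 + c) →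
      (a + b) * L ^ C + c ≤ L ^ (C + 3) →
      ∑ m ∈ Ico u (u + w), f m ^ 2 ≤ w * L ^ (C + 3) := by
    intro f a b c ha hb hpt hfin
    have hsum := Finset.sum_le_sum hpt
    rw [Finset.sum_add_distrib, Finset.sum_add_distrib, ← Finset.mul_sum, ← Finset.mul_sum,
      Finset.sum_const, Nat.card_Ico, Nat.add_sub_cancel_left, nsmul_eq_mul] at hsum
    refine hsum.trans ?_
    have i1 := mul_le_mul_of_nonneg_left hS' ha
    have i2 := mul_le_mul_of_nonneg_left hT' hb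
    calc a * ∑ m ∈ Ico u (u + w), S m ^ 2 + b * ∑ m ∈ Ico u (u + w), T m ^ 2 + (w : ℝ) * c
        ≤ a * (w * L ^ C) + b * (w * L ^ C) + w * c := by linarith
      _ = w * ((a + b) * L ^ C + c) := by ring
      _ ≤ w * L ^ (C + 3) := mul_le_mul_of_nonneg_left hfin hw0
  refine ⟨hfin _ 2 0 2 (by norm_num) (by norm_num) ?_ ?_, hfin _ 0 32 32 (by norm_num) (by norm_num) ?_ ?_,
    hfin _ 3 3 (27 * L ^ 2) (by norm_num) (by norm_num) ?_ ?_⟩
  · intro m hm
    rw [Finset.mem_Ico] at hm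
    have hm1 : 1 ≤ m := by omega
    obtain ⟨k1, k2⟩ := LinSecG_rgAA y J m hm1
    rw [LinSecG_Ap]
    generalize S m = a
    generalize rg y m - AA y J m = b at *
    nlinarith [sq_nonneg (a + b)]
  · rw [h4]
    nlinarith
  · intro m hm
    rw [Finset.mem_Ico] at hm
    have hm1 : 1 ≤ m := by omega
    have hm16 : m ≤ 16 * N := by omega
    obtain ⟨k1, k2⟩ := LinSecG_rgAA y J m hm1
    have ho := hN1 N hNa y J J1 m hm1 hm16 hz
    have ho3 : (om y J J1 m : ℝ) ≤ 4 := by exact_mod_cast ho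
    have ho0 : (0 : ℝ) ≤ (om y J J1 m : ℝ) := Nat.cast_nonneg _
    rw [r1_eq_g S T y J J1 m hm1]
    have e : T m - rg y m + AA y J m = T m - (rg y m - AA y J m) := by ring
    rw [e, mul_pow]
    generalize T m = a
    generalize rg y m - AA y J m = b at *
    generalize (om y J J1 m : ℝ) = c at *
    have i1 : c ^ 2 ≤ 16 := by nlinarith
    have i2 : (a - b) ^ 2 ≤ 2 * a ^ 2 + 2 := by nlinarith [sq_nonneg (a + b)]
    have i3 : c ^ 2 * (a - b) ^ 2 ≤ 16 * (2 * a ^ 2 + 2) :=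
      mul_le_mul i1 i2 (sq_nonneg _) (by norm_num)
    nlinarith
  · rw [h4]
    nlinarith
  · intro m hm
    have hlm' := hlm m hm
    rw [Finset.mem_Ico] at hm
    have hm1 : 1 ≤ m := by omega
    have hs := LinSecG_sqp y J1 m hm1
    have hs0 : 0 ≤ sqp y J1 m := by
      unfold sqp
      exact Nat.cast_nonneg _
    have hs3 : sqp y J1 m ≤ 3 * L := by linarith
    unfold DD
    generalize S m = a
    generalize T m = b
    generalize sqp y J1 m = d at *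
    have i1 : (a - b + d) ^ 2 ≤ 3 * (a ^ 2 + b ^ 2 + d ^ 2) := by
      nlinarith [sq_nonneg (a + b), sq_nonneg (a - d), sq_nonneg (b + d)]
    have i2 : d ^ 2 ≤ 9 * L ^ 2 := by
      have : d ^ 2 ≤ (3 * L) ^ 2 := pow_le_pow_left₀ hs0 hs3 2
      linarith
    linarith
  · rw [h4]
    nlinarith

end Pool.Agent.H91.TL

end

section

/-!
# TP KStep: the density of `Ap` is slowly varying

`kap_lip` with `x/p ≤ x'/p` (natural division, `x'/p - x/p ≤ (x'-x)/p + 1`, `x/p ≥ x/(2p)`, `p ≤ z ≤ N^ζ`): `|kapA(x') - kapA(x)| ≤ ∑_{y < p ≤ z} (1/p) · 10 ((x'-x)/p + 1 + z)/(x/(2p)) ≤ 20 z (N^(1/2)/y + 1 + z)/x`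
(at most `z` primes, `x ≥ N/8`, `z ≤ N^(1/3)`), `≤ 1/L^A`.
-/

set_option autoImplicit false

namespace Pool.Agent.H76.TP

open Finset

/-- the bound of one term -/
private theorem kStep_term (y J x x' p : ℕ) (D : ℝ) (hy : 1 ≤ y) (hp : 1 ≤ p) (h3 : 3 * p ≤ x)
    (hz : zz y J * p ≤ x) (hxx : x ≤ x') (hD : (x' : ℝ) ≤ x + D) :
    |kap y J (x' / p) / p - kap y J (x / p) / p| ≤ 20 * (D + 1 + zz y J) / x := by
  have hx0 : (0 : ℝ) < x := by
    have : 0 < x := by omega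
    exact_mod_cast this
  have hp0 : (0 : ℝ) < p := by exact_mod_cast hp
  have hp1 : (1 : ℝ) ≤ p := by exact_mod_cast hp
  have h3' : 3 ≤ x / p := by
    rw [Nat.le_div_iff_mul_le (by omega)]
    exact h3
  have hz' : zz y J ≤ x / p := by
    rw [Nat.le_div_iff_mul_le (by omega)]
    exact hz
  have hdd : x / p ≤ x' / p := Nat.div_le_div_right hxx
  have hl := kap_lip y J (x / p) (x' / p) hy h3' hz' hdd
  have hD0 : 0 ≤ D := by
    have : (x : ℝ) ≤ x' := by exact_mod_cast hxx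
    linarith
  -- natural division against real division
  have e1 : ((x' / p : ℕ) : ℝ) ≤ (x' : ℝ) / p := Nat.cast_div_le
  have e2 : (x : ℝ) / p ≤ ((x / p : ℕ) : ℝ) + 1 := by
    have := Nat.lt_floor_add_one ((x : ℝ) / (p : ℝ))
    rw [Nat.floor_div_eq_div] at this
    exact this.le
  have e3 : (x : ℝ) / (2 * p) ≤ ((x / p : ℕ) : ℝ) := by
    have h1 : (1 : ℝ) ≤ ((x / p : ℕ) : ℝ) := by
      have : 1 ≤ x / p := by omega
      exact_mod_cast this
    have h2 : (x : ℝ) / (2 * p) = ((x : ℝ) / p) / 2 := by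
      field_simp
    rw [h2]
    linarith
  have e4 : ((x' / p : ℕ) : ℝ) - ((x / p : ℕ) : ℝ) ≤ D + 1 := by
    have h1 : (x' : ℝ) / p ≤ (x : ℝ) / p + D := by
      rw [div_le_iff₀ hp0]
      have h2 : ((x : ℝ) / p + D) * p = x + D * p := by
        field_simp
      rw [h2]
      nlinarith
    linarith
  have e5 : (0 : ℝ) ≤ (zz y J : ℝ) := Nat.cast_nonneg _
  have e6 : 10 * ((((x' / p : ℕ) : ℝ) - ((x / p : ℕ) : ℝ)) + zz y J) / ((x / p : ℕ) : ℝ)
      ≤ 10 * (D + 1 + zz y J) / ((x : ℝ) / (2 * p)) := by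
    have hpos : (0 : ℝ) < (x : ℝ) / (2 * p) := by positivity
    gcongr
  have e7 : 10 * (D + 1 + zz y J) / ((x : ℝ) / (2 * p)) = 20 * (D + 1 + zz y J) / x * p := by
    field_simp
    ring
  have e8 : |kap y J (x' / p) - kap y J (x / p)| ≤ 20 * (D + 1 + zz y J) / x * p :=
    (hl.trans e6).trans e7.le
  rw [← sub_div, abs_div, abs_of_pos hp0, div_le_iff₀ hp0]
  exact e8

/-- the sum of the lengths of the blocks -/
private theorem kStep_geom (J y : ℕ) : ∑ j ∈ range J, 2 ^ j * y ≤ 2 ^ J * y := by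
  induction J with
  | zero => simp
  | succ n ih =>
      rw [sum_range_succ, pow_succ]
      have : 2 ^ n * 2 * y = 2 ^ n * y + 2 ^ n * y := by ring
      omega

private theorem kStep_bound (y J x x' : ℕ) (kS D : ℝ) (hy : 1 ≤ y) (h3 : 3 * zz y J ≤ x)
    (hz : zz y J * zz y J ≤ x) (hxx : x ≤ x') (hD : (x' : ℝ) ≤ x + D) :
    |kapA kS y J x' - kapA kS y J x| ≤ zz y J * (20 * (D + 1 + zz y J) / x) := by
  have hD0 : 0 ≤ D := by
    have : (x : ℝ) ≤ x' := by exact_mod_cast hxx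
    linarith
  have e0 : kapA kS y J x' - kapA kS y J x
      = -∑ j ∈ range J, ∑ p ∈ Pool.Agent.H35.W.pb (2 ^ j * y),
        (kap y J (x' / p) / p - kap y J (x / p) / p) := by
    unfold kapA WK
    simp only [sum_sub_distrib]
    ring
  rw [e0, abs_neg]
  set K : ℝ := 20 * (D + 1 + zz y J) / x with hK
  have hK0 : 0 ≤ K := by
    rw [hK]
    positivity
  have e1 : ∀ j ∈ range J, |∑ p ∈ Pool.Agent.H35.W.pb (2 ^ j * y),
        (kap y J (x' / p) / p - kap y J (x / p) / p)| ≤ ((2 ^ j * y : ℕ) : ℝ) * K := by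
    intro j hj
    rw [mem_range] at hj
    have hsub : Pool.Agent.H35.W.pb (2 ^ j * y) ⊆ Ioc (2 ^ j * y) (2 * (2 ^ j * y)) := by
      intro p hp
      unfold Pool.Agent.H35.W.pb at hp
      simp only [mem_filter, mem_Ioc] at hp ⊢
      exact hp.1
    have hcard : (Pool.Agent.H35.W.pb (2 ^ j * y)).card ≤ 2 ^ j * y := by
      refine (card_le_card hsub).trans ?_
      rw [Nat.card_Ioc]
      omega
    have hle : 2 * (2 ^ j * y) ≤ zz y J := by
      unfold zz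
      have h1 : 2 ^ (j + 1) ≤ 2 ^ J := Nat.pow_le_pow_right (by norm_num) hj
      calc 2 * (2 ^ j * y) = 2 ^ (j + 1) * y := by ring
        _ ≤ 2 ^ J * y := Nat.mul_le_mul_right _ h1
    refine (abs_sum_le_sum_abs _ _).trans ?_
    have hterm : ∀ p ∈ Pool.Agent.H35.W.pb (2 ^ j * y),
        |kap y J (x' / p) / p - kap y J (x / p) / p| ≤ K := by
      intro p hp
      have h1 := hsub hp
      rw [mem_Ioc] at h1
      have hpz : p ≤ zz y J := h1.2.trans hle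
      refine kStep_term y J x x' p D hy (by omega) ?_ ?_ hxx hD
      · exact (Nat.mul_le_mul_left 3 hpz).trans h3
      · exact (Nat.mul_le_mul_left _ hpz).trans hz
    refine (sum_le_card_nsmul _ _ _ hterm).trans ?_
    rw [nsmul_eq_mul]
    have : ((Pool.Agent.H35.W.pb (2 ^ j * y)).card : ℝ) ≤ ((2 ^ j * y : ℕ) : ℝ) := by
      exact_mod_cast hcard
    gcongr
  refine (abs_sum_le_sum_abs _ _).trans ?_
  refine (sum_le_sum e1).trans ?_
  rw [← sum_mul]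
  have h2 : (∑ j ∈ range J, ((2 ^ j * y : ℕ) : ℝ)) ≤ (zz y J : ℝ) := by
    unfold zz
    have := kStep_geom J y
    exact_mod_cast this
  gcongr

theorem kap_step (e1 ζ : ℝ) (he1 : 0 < e1) (he : e1 < ζ) (hζ2 : ζ < 1 / 3) (A : ℕ) :
    ∃ N0 : ℕ, ∀ N : ℕ, N0 ≤ N → ∀ (J x x' : ℕ) (kS : ℝ), (zz (yN e1 N) J : ℝ) ≤ (N : ℝ) ^ ζ →
      N ≤ 8 * x → x ≤ x' → (x' : ℝ) ≤ x + (N : ℝ) ^ (1 / 2 : ℝ) →
      |kapA kS (yN e1 N) J x' - kapA kS (yN e1 N) J x| ≤ 1 / Real.log N ^ A := by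
  -- the threshold
  have hlo : (fun t : ℝ => Real.log t ^ (A : ℝ)) =o[Filter.atTop] fun t => t ^ (1 / 6 : ℝ) :=
    isLittleO_log_rpow_rpow_atTop (A : ℝ) (by norm_num)
  have hev := (hlo.bound (show (0 : ℝ) < 1 / 480 by norm_num)).and
    (Filter.eventually_ge_atTop (1000 : ℝ))
  obtain ⟨T, hT⟩ := Filter.eventually_atTop.1 hev
  refine ⟨⌈T⌉₊ + 1000, ?_⟩
  intro N hN J x x' kS hz hx hxx hD
  have hNT : T ≤ (N : ℝ) := by
    refine (Nat.le_ceil T).trans ?_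
    exact_mod_cast (by omega : ⌈T⌉₊ ≤ N)
  obtain ⟨hlog, hN1000⟩ := hT N hNT
  have hN0 : (0 : ℝ) < N := by linarith
  have hN1 : (1 : ℝ) ≤ N := by linarith
  have hlogpos : 0 < Real.log N := Real.log_pos (by linarith)
  have hy : 1 ≤ yN e1 N := by
    unfold yN
    apply Nat.le_floor
    simp only [Nat.cast_one]
    exact Real.one_le_rpow hN1 he1.le
  set y := yN e1 N with hydef
  set z := zz y J with hzdef
  have hz3 : (z : ℝ) ≤ (N : ℝ) ^ (1 / 3 : ℝ) :=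
    hz.trans (Real.rpow_le_rpow_of_exponent_le hN1 hζ2.le)
  set c : ℝ := (N : ℝ) ^ (1 / 3 : ℝ) with hc
  have hc3 : c * c * c = N := by
    rw [hc, ← Real.rpow_add hN0, ← Real.rpow_add hN0]
    norm_num
  have hc0 : 0 < c := Real.rpow_pos_of_pos hN0 _
  have hc10 : 10 ≤ c := by
    by_contra hcon
    push Not at hcon
    have h1 : c * c < 10 * 10 := by nlinarith
    have h2 : c * c * c < 10 * 10 * 10 := by nlinarith
    rw [hc3] at h2
    linarith
  have hx8 : (N : ℝ) ≤ 8 * x := by exact_mod_cast hx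
  have hz0 : (0 : ℝ) ≤ z := Nat.cast_nonneg _
  have h3 : 3 * z ≤ x := by
    have h : (3 * z : ℝ) ≤ x := by
      nlinarith [mul_nonneg hc0.le hc0.le]
    exact_mod_cast h
  have hzz : z * z ≤ x := by
    have h : ((z : ℝ) * z) ≤ x := by
      nlinarith [mul_nonneg hc0.le hc0.le, mul_le_mul hz3 hz3 hz0 hc0.le]
    exact_mod_cast h
  have hb := kStep_bound y J x x' kS ((N : ℝ) ^ (1 / 2 : ℝ)) hy h3 hzz hxx hD
  refine hb.trans ?_
  -- the final numerical comparison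
  set s : ℝ := (N : ℝ) ^ (1 / 2 : ℝ) with hs
  have hs0 : 0 < s := Real.rpow_pos_of_pos hN0 _
  have hcs : c ≤ s := Real.rpow_le_rpow_of_exponent_le hN1 (by norm_num)
  have h1s : 1 ≤ s := Real.one_le_rpow hN1 (by norm_num)
  set w : ℝ := (N : ℝ) ^ (1 / 6 : ℝ) with hw
  have hw0 : 0 < w := Real.rpow_pos_of_pos hN0 _
  have hcsw : c * s * w = N := by
    rw [hc, hs, hw, ← Real.rpow_add hN0, ← Real.rpow_add hN0]
    norm_num
  have hx0 : (0 : ℝ) < x := by linarith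
  have hL : Real.log N ^ A ≤ 1 / 480 * w := by
    have h1 : Real.log N ^ (A : ℝ) = Real.log N ^ A := Real.rpow_natCast _ _
    rw [h1] at hlog
    rw [Real.norm_of_nonneg (by positivity), Real.norm_of_nonneg hw0.le] at hlog
    exact hlog
  have hLp : 0 < Real.log N ^ A := by positivity
  have step1 : (z : ℝ) * (20 * (s + 1 + z) / x) ≤ c * (20 * (3 * s) / (N / 8)) := by
    have ha : (N : ℝ) / 8 ≤ x := by linarith
    have hb' : s + 1 + (z : ℝ) ≤ 3 * s := by linarith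
    have hN8 : (0 : ℝ) < N / 8 := by linarith
    gcongr
  refine step1.trans ?_
  rw [show c * (20 * (3 * s) / ((N : ℝ) / 8)) = 480 * (c * s) / N by field_simp; ring]
  rw [div_le_div_iff₀ hN0 hLp]
  rw [← hcsw]
  have : 480 * (c * s) * Real.log (c * s * w) ^ A ≤ 480 * (c * s) * (1 / 480 * w) := by
    rw [hcsw]
    gcongr
  linarith

end Pool.Agent.H76.TP

end

section

/-!
# TP Res: the theorem in the form of the hand-in
-/

set_option autoImplicit false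

namespace Pool.Agent.H43.TP

open Finset
open Pool.Agent.H43.MP (blk Hn idx Rn badP)

/-- The integral solutions `x`, `|x| ≤ N^θ`, of the system `φ(n-x)+1 = n-x`, `φ(n+x)+1 = n+x`. -/
def solT (θ : ℝ) (N n : ℕ) : Set ℤ :=
  {x : ℤ | |(x : ℝ)| ≤ (N : ℝ) ^ θ ∧ 0 < (n : ℤ) - x ∧ 0 < (n : ℤ) + x ∧
    ((Nat.totient ((n : ℤ) - x).toNat : ℤ) + 1 = (n : ℤ) - x) ∧
    ((Nat.totient ((n : ℤ) + x).toNat : ℤ) + 1 = (n : ℤ) + x)}

theorem solT_finite (θ : ℝ) (N n : ℕ) : (solT θ N n).Finite := by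
  refine Set.Finite.subset (Set.finite_Icc (-⌈(N : ℝ) ^ θ⌉) ⌈(N : ℝ) ^ θ⌉) ?_
  rintro x ⟨hx, -⟩
  rw [abs_le] at hx
  have h1 := Int.le_ceil ((N : ℝ) ^ θ)
  rw [Set.mem_Icc]
  constructor
  · have : ((-⌈(N : ℝ) ^ θ⌉ : ℤ) : ℝ) ≤ (x : ℝ) := by
      push_cast
      linarith [hx.1]
    exact_mod_cast this
  · have : (x : ℝ) ≤ ((⌈(N : ℝ) ^ θ⌉ : ℤ) : ℝ) := by linarith [hx.2]
    exact_mod_cast this

private theorem Res_tot (p : ℕ) (hp : p.Prime) : ((Nat.totient p : ℤ)) + 1 = p := by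
  rw [Nat.totient_prime hp]
  have := hp.one_lt
  omega

theorem sol2_sub (θ : ℝ) (N n : ℕ) : sol2 (Hn θ N) n ⊆ solT θ N n := by
  rintro x ⟨h1, p, q, hp, hq, h2, h3⟩
  have hp0 := hp.pos
  have hq0 := hq.pos
  refine ⟨?_, ?_, ?_, ?_, ?_⟩
  · have h8 : (Hn θ N : ℝ) ≤ (N : ℝ) ^ θ := Nat.floor_le (by positivity)
    have h9 : ((|x| : ℤ) : ℝ) ≤ ((Hn θ N : ℤ) : ℝ) := by exact_mod_cast h1
    push_cast at h9
    exact h9.trans h8
  · rw [h2]; exact_mod_cast hp0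
  · rw [h3]; exact_mod_cast hq0
  · rw [h2, Int.toNat_natCast]; exact Res_tot p hp
  · rw [h3, Int.toNat_natCast]; exact Res_tot q hq

end Pool.Agent.H43.TP

end

section

/-!
# TS Fin: two primes with `|x| ≤ n^θ` from a certificate (`CERT`)
-/

set_option autoImplicit false

namespace Pool.Agent.H43.TS

open Finset
open Pool.Agent.H91.PK (ee)
open Pool.Agent.H91.EHA (Lam lamR ramS)
open Pool.Agent.H43.MP (blk Hn idx Rn)
open Pool.Agent.H43.TP (rf Fh badF pr cn sol2 solT)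
open Pool.Agent.H76.GB (SR)

private theorem Fin_SR (R E : ℕ) (hR : 1 ≤ R) (hE : 1 ≤ E) : 1 ≤ SR R (2 * E) := by
  rcases Nat.lt_or_ge 1 R with h | h
  · exact Pool.Agent.H76.GB.sr_ge R (2 * E) h (by omega) (dvd_mul_right 2 E)
  · have : R = 1 := by omega
    subst this
    unfold SR ramS
    simp

/-- one product -/
private theorem Fin_prod (H i R n : ℕ) (X Y : ℕ → ℝ) (k l T S : ℝ) (hk : |k| ≤ 1)
    (h1 : |rf H i (lamR R) Y n - l * (H * S)| ≤ T) (h2 : |rf H i Y (lamR R) n - l * (H * S)| ≤ T)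
    (h3 : |rf H i Y (Fh R k X) n| ≤ T) (h4 : |rf H i (Fh R k X) Y n| ≤ T) :
    2 * (k * l) * (H * S) - 4 * T ≤ rf H i X Y n + rf H i Y X n := by
  have e1 : rf H i X Y n = k * rf H i (lamR R) Y n + rf H i (Fh R k X) Y n := by
    have := Pool.Agent.H43.TP.rf_add_left H i Y (lamR R) (Fh R k X) k n
    rw [← this]
    congr 1
    exact Pool.Agent.H43.TP.F_split R k X
  have e2 : rf H i Y X n = k * rf H i Y (lamR R) n + rf H i Y (Fh R k X) n := by
    have := Pool.Agent.H43.TP.rf_add_right H i Y (lamR R) (Fh R k X) k n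
    rw [← this]
    congr 1
    exact Pool.Agent.H43.TP.F_split R k X
  have hT : 0 ≤ T := (abs_nonneg _).trans h1
  have a1 : |k * (rf H i (lamR R) Y n - l * (H * S))| ≤ T := by
    rw [abs_mul]
    calc |k| * |rf H i (lamR R) Y n - l * (H * S)| ≤ 1 * T := mul_le_mul hk h1 (abs_nonneg _) zero_le_one
      _ = T := one_mul _
  have a2 : |k * (rf H i Y (lamR R) n - l * (H * S))| ≤ T := by
    rw [abs_mul]
    calc |k| * |rf H i Y (lamR R) n - l * (H * S)| ≤ 1 * T := mul_le_mul hk h2 (abs_nonneg _) zero_le_one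
      _ = T := one_mul _
  rw [e1, e2]
  have b1 := (abs_le.1 a1).1
  have b2 := (abs_le.1 a2).1
  have b3 := (abs_le.1 h3).1
  have b4 := (abs_le.1 h4).1
  nlinarith

theorem cert_final (θ c : ℝ) (s : ℕ) (h0 : 0 < θ) (h1 : θ < 1 / 3) (hc : 0 < c) (hcert : CERT θ c s) (A : ℕ) :
    ∃ N0 : ℕ, ∀ N : ℕ, N0 ≤ N →
      (((Ioc N (2 * N)).filter (fun n =>
        ((sol2 (Hn θ N) n).ncard : ℝ) < c / 4 * (N : ℝ) ^ θ / Real.log N ^ 2)).card : ℝ)
      ≤ N / Real.log N ^ A := by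
  classical
  obtain ⟨C, hcert⟩ := hcert
  obtain ⟨B, N1, hF⟩ := hcert (A + C + 12)
  obtain ⟨N4, hE⟩ := Pool.Agent.H43.TP.ev_large θ 1 h0 h1 one_pos le_rfl B
  obtain ⟨N6, hlam⟩ := Pool.Agent.H43.TP.lamR_blk B
  obtain ⟨N7, hlog⟩ := Pool.Agent.H76.GB.log_ge (8 * s / c + 2 * s)
  refine ⟨max (max N1 N4) (max N6 N7), fun N hN => ?_⟩
  simp only [max_le_iff] at hN
  obtain ⟨⟨hn1, hn4⟩, hn6, hn7⟩ := hN
  obtain ⟨X, Y, k, l, p1, p2, p3, p4, p5, p6, p7⟩ := hF N hn1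
  obtain ⟨f1, f2, f3, f4, f5, f6, f7, f8, -, -, -⟩ := hE N hn4
  replace hlam := hlam N hn6
  replace hlog := hlog N hn7
  rw [one_mul] at f1
  set L := Real.log N with hLdef
  set H := Hn θ N with hHdef
  set R := Rn B N with hRdef
  have hN0 : N ≠ 0 := by
    rintro rfl
    rw [hLdef] at f1
    norm_num at f1
  have hNpos : (0 : ℝ) < N := by exact_mod_cast Nat.pos_of_ne_zero hN0
  have hL0 : 0 < L := by linarith
  have hL1 : 1 ≤ L := by linarith
  have hH0 : (0 : ℝ) < H := by exact_mod_cast f3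
  have hs0 : (0 : ℝ) ≤ s := Nat.cast_nonneg s
  have hsc : 0 ≤ 8 * (s : ℝ) / c := by positivity
  set T : ℝ := H / L ^ 3 with hTdef
  have hT0 : 0 < T := by positivity
  have hidx2 : ∀ i ∈ idx N H, 1 ≤ i := by
    intro i hi
    have := idx_lo N H f3 f4 i hi
    rcases Nat.eq_zero_or_pos i with h | h
    · rw [h] at this
      omega
    · exact h
  have hE : ∀ j : Fin s, ((badE N H R 3 (X j) (k j) (Y j)).card : ℝ) ≤ (N : ℝ) / L ^ (A + 1) := by
    intro j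
    exact badE_card (A := A) (C := C) (D := 3) (A' := A + C + 12) f1 f3 f4 (by omega)
      (fun i hi => hlam H i (hidx2 i hi) f5) (p3 j) (p4 j) (p5 j)
  -- the exceptional set
  set Z1 := (univ : Finset (Fin s)).biUnion (fun j => badE N H R 3 (X j) (k j) (Y j)) with hZ1
  set Z2 := (univ : Finset (Fin s)).biUnion (fun j => badM N H R 3 (Y j) (l j)) with hZ2
  have hsub : (Ioc N (2 * N)).filter (fun n =>
        ((sol2 H n).ncard : ℝ) < c / 4 * (N : ℝ) ^ θ / L ^ 2) ⊆ Z1 ∪ Z2 := by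
    intro n hn
    rw [mem_filter] at hn
    obtain ⟨hn1, hn2⟩ := hn
    by_contra hcon
    rw [mem_union, not_or] at hcon
    obtain ⟨c1, c2⟩ := hcon
    have hn1' := mem_Ioc.1 hn1
    obtain ⟨j1, j2, j3, j4⟩ := idx_nb N H f3 f4 (n / H) (div_mem N H n hn1)
    have hnb := mem_blk_div H n f3
    have hbE : ∀ j : Fin s, |rf H (n / H) (Y j) (Fh R (k j (n / H)) (X j)) n| ≤ T ∧
        |rf H (n / H) (Fh R (k j (n / H)) (X j)) (Y j) n| ≤ T := by
      intro j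
      by_contra h
      apply c1
      rw [hZ1, mem_biUnion]
      refine ⟨j, mem_univ j, ?_⟩
      unfold badE
      rw [mem_filter]
      refine ⟨hn1, ?_⟩
      by_contra h2
      push Not at h2
      exact h h2
    have hbM : ∀ j : Fin s, |rf H (n / H) (lamR R) (Y j) n - l j (n / H) * (H * SR R (2 * n))| ≤ T ∧
        |rf H (n / H) (Y j) (lamR R) n - l j (n / H) * (H * SR R (2 * n))| ≤ T := by
      intro j
      by_contra h
      apply c2
      rw [hZ2, mem_biUnion]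
      refine ⟨j, mem_univ j, ?_⟩
      unfold badM
      rw [mem_filter]
      refine ⟨hn1, ?_⟩
      by_contra h2
      push Not at h2
      exact h h2
    set i := n / H with hi
    have hnb' := hnb
    unfold blk at hnb'
    rw [mem_Ico] at hnb'
    have ee1 : (i + 1) * H = i * H + H := by ring
    -- the window
    have w1 : ∀ u ∈ blk H i, N ≤ 4 * u ∧ u ≤ 4 * N ∧ N ≤ 4 * (2 * n - u) ∧ 2 * n - u ≤ 4 * N := by
      intro u hu
      unfold blk at hu
      rw [mem_Ico] at hu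
      omega
    have key : ∑ j, (rf H i (X j) (Y j) n + rf H i (Y j) (X j) n) ≤ cn H i n := by
      unfold cn rf
      have e1 : ∑ j : Fin s, (∑ u ∈ blk H i, X j u * Y j (2 * n - u) + ∑ u ∈ blk H i, Y j u * X j (2 * n - u)) =
          ∑ u ∈ blk H i, ∑ j : Fin s, (X j u * Y j (2 * n - u) + Y j u * X j (2 * n - u)) := by
        rw [sum_comm]
        refine sum_congr rfl fun j _ => ?_
        rw [sum_add_distrib]
      rw [e1]
      refine sum_le_sum fun u hu => ?_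
      obtain ⟨a1, a2, a3, a4⟩ := w1 u hu
      exact p1 u (2 * n - u) a1 a2 a3 a4
    have hlow : ∀ j : Fin s, 2 * (k j i * l j i) * (H * SR R (2 * n)) - 4 * T ≤
        rf H i (X j) (Y j) n + rf H i (Y j) (X j) n := fun j =>
      Fin_prod H i R n (X j) (Y j) (k j i) (l j i) T (SR R (2 * n)) (p2 j i j3) (hbM j).1 (hbM j).2
        (hbE j).1 (hbE j).2
    have hsum := (sum_le_sum fun j (_ : j ∈ (univ : Finset (Fin s))) => hlow j).trans key
    have hSR : 1 ≤ SR R (2 * n) := Fin_SR R n f7 (by omega)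
    have e2 : ∑ j : Fin s, (2 * (k j i * l j i) * (H * SR R (2 * n)) - 4 * T) =
        (2 * ∑ j : Fin s, k j i * l j i) * (H * SR R (2 * n)) - s * (4 * T) := by
      rw [sum_sub_distrib, sum_const, card_univ, Fintype.card_fin, nsmul_eq_mul, ← sum_mul, mul_sum]
    rw [e2] at hsum
    have e3 : c / L ^ 2 * (H * 1) ≤ (2 * ∑ j : Fin s, k j i * l j i) * (H * SR R (2 * n)) := by
      refine mul_le_mul (p7 i j3) (mul_le_mul_of_nonneg_left hSR hH0.le) (by positivity) ?_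
      exact le_trans (by positivity) (p7 i j3)
    have e4 : (s : ℝ) * (4 * T) ≤ c / 2 * (H / L ^ 2) := by
      have t1 : T * L = H / L ^ 2 := by
        rw [hTdef]
        field_simp
      rw [← t1]
      have t2 : 8 * (s : ℝ) ≤ c * L := by
        have t3 : 8 * (s : ℝ) / c ≤ L := by linarith
        rw [div_le_iff₀ hc] at t3
        linarith
      nlinarith
    have h5 := hsum.trans (Pool.Agent.H43.TP.cn_le H i n (by omega) hnb)
    have h6 : c / 4 * (N : ℝ) ^ θ / L ^ 2 ≤ c / 2 * (H / L ^ 2) := by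
      have t1 : c / 4 * (N : ℝ) ^ θ / L ^ 2 = c / 2 * ((N : ℝ) ^ θ / 2 / L ^ 2) := by ring
      rw [t1]
      refine mul_le_mul_of_nonneg_left ?_ (by positivity)
      exact div_le_div_of_nonneg_right f2 (by positivity)
    have e5 : c / L ^ 2 * (H * 1) = c * (H / L ^ 2) := by ring
    linarith
  have hc1 : (Z1.card : ℝ) ≤ s * (N / L ^ (A + 1)) := by
    have t1 : (Z1.card : ℝ) ≤ ∑ j : Fin s, ((badE N H R 3 (X j) (k j) (Y j)).card : ℝ) := by
      exact_mod_cast card_biUnion_le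
    refine t1.trans ((sum_le_sum fun j _ => hE j).trans (le_of_eq ?_))
    rw [sum_const, card_univ, Fintype.card_fin, nsmul_eq_mul]
  have hc2 : (Z2.card : ℝ) ≤ s * (N / L ^ (A + 1)) := by
    have t1 : (Z2.card : ℝ) ≤ ∑ j : Fin s, ((badM N H R 3 (Y j) (l j)).card : ℝ) := by
      exact_mod_cast card_biUnion_le
    have t2 : ∀ j : Fin s, ((badM N H R 3 (Y j) (l j)).card : ℝ) ≤ N / L ^ (A + 1) := fun j =>
      (p6 j).trans (div_le_div_of_nonneg_left hNpos.le (by positivity) (pow_le_pow_right₀ hL1 (by omega)))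
    refine t1.trans ((sum_le_sum fun j _ => t2 j).trans (le_of_eq ?_))
    rw [sum_const, card_univ, Fintype.card_fin, nsmul_eq_mul]
  have hcard : (((Ioc N (2 * N)).filter (fun n =>
        ((sol2 H n).ncard : ℝ) < c / 4 * (N : ℝ) ^ θ / L ^ 2)).card : ℝ) ≤ Z1.card + Z2.card := by
    exact_mod_cast (card_le_card hsub).trans (card_union_le _ _)
  refine hcard.trans ((add_le_add hc1 hc2).trans ?_)
  have e : (s : ℝ) * (N / L ^ (A + 1)) + s * (N / L ^ (A + 1)) = (2 * s / L) * (N / L ^ A) := by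
    rw [pow_succ]
    field_simp
    ring
  rw [e]
  have h2s : 2 * (s : ℝ) / L ≤ 1 := by
    rw [div_le_one hL0]
    linarith
  calc (2 * s / L) * (N / L ^ A) ≤ 1 * (N / L ^ A) := mul_le_mul_of_nonneg_right h2s (by positivity)
    _ = N / L ^ A := one_mul _

/-- the theorem of the hand-in from a certificate -/
theorem cert_res (θ c : ℝ) (s : ℕ) (h0 : 0 < θ) (h1 : θ < 1 / 3) (hc : 0 < c) (hcert : CERT θ c s) (A : ℕ) :
    ∃ N0 : ℕ, ∀ N : ℕ, N0 ≤ N →
      ({n : ℕ | N < n ∧ n ≤ 2 * N ∧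
        ((solT θ N n).ncard : ℝ) < c / 4 * (N : ℝ) ^ θ / Real.log N ^ 2}.ncard : ℝ)
      ≤ N / Real.log N ^ A := by
  classical
  obtain ⟨N0, h⟩ := cert_final θ c s h0 h1 hc hcert A
  refine ⟨N0, fun N hN => ?_⟩
  refine le_trans ?_ (h N hN)
  have hsub : {n : ℕ | N < n ∧ n ≤ 2 * N ∧
        ((solT θ N n).ncard : ℝ) < c / 4 * (N : ℝ) ^ θ / Real.log N ^ 2} ⊆
      (((Ioc N (2 * N)).filter (fun n =>
        ((sol2 (Hn θ N) n).ncard : ℝ) < c / 4 * (N : ℝ) ^ θ / Real.log N ^ 2) : Finset ℕ) : Set ℕ) := by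
    rintro n ⟨ha, hb, hc⟩
    rw [Finset.mem_coe, mem_filter, mem_Ioc]
    refine ⟨⟨ha, hb⟩, lt_of_le_of_lt ?_ hc⟩
    exact_mod_cast Set.ncard_le_ncard (Pool.Agent.H43.TP.sol2_sub θ N n) (Pool.Agent.H43.TP.solT_finite θ N n)
  have := Set.ncard_le_ncard hsub (Finset.finite_toSet _)
  rw [Set.ncard_coe_finset] at this
  exact_mod_cast this

end Pool.Agent.H43.TS

end
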