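import Pool.Agent.H43.PJ.M41

/-! The parts of this file: H92.EH3.DivBound, H88.PSI.Pw, H88.PSI.Dks. -/

section

/-!
The divisor bound.
-/

set_option autoImplicit false

namespace Pool.Agent.H92.EH

open Finset

theorem div_bound (ε : ℝ) (hε : 0 < ε) : ∃ C : ℝ, 1 ≤ C ∧ ∀ n : ℕ, 1 ≤ n →
    (n.divisors.card : ℝ) ≤ C * (n : ℝ) ^ ε := by
  have hlog2 : 0 < Real.log 2 := Real.log_pos (by norm_num)
  set K : ℝ := 1 + 1 / (ε * Real.log 2) with hK
  have hK1 : 1 ≤ K := by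
    rw [hK]
    have : 0 < 1 / (ε * Real.log 2) := by positivity
    linarith
  set P0 : ℕ := ⌈(2 : ℝ) ^ (1 / ε)⌉₊ with hP0
  refine ⟨K ^ P0, one_le_pow₀ hK1, ?_⟩
  intro n hn
  have hn0 : n ≠ 0 := by omega
  have hfac : ∀ p ∈ n.primeFactors, ((n.factorization p + 1 : ℕ) : ℝ) ≤
      (if p < P0 then K else 1) * ((p : ℝ) ^ (n.factorization p)) ^ ε := by
    intro p hp
    have hpp := Nat.prime_of_mem_primeFactors hp
    have hp2 : (2 : ℝ) ≤ p := by exact_mod_cast hpp.two_le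
    set v := n.factorization p with hv
    have e1 : ((p : ℝ) ^ v) ^ ε = ((p : ℝ) ^ ε) ^ v := by
      rw [← Real.rpow_natCast, ← Real.rpow_mul (by linarith), mul_comm, Real.rpow_mul (by linarith),
        Real.rpow_natCast]
    rw [e1]
    split_ifs with h
    · have h1 : ((2 : ℝ) ^ ε) ^ v ≤ ((p : ℝ) ^ ε) ^ v :=
        pow_le_pow_left₀ (by positivity) (Real.rpow_le_rpow (by norm_num) hp2 hε.le) v
      have h2 : 1 + (v : ℝ) * (ε * Real.log 2) ≤ ((2 : ℝ) ^ ε) ^ v := by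
        have h3 : 1 + ε * Real.log 2 ≤ (2 : ℝ) ^ ε := by
          rw [Real.rpow_def_of_pos (by norm_num)]
          have := Real.add_one_le_exp (Real.log 2 * ε)
          linarith
        have h4 : 1 + (v : ℝ) * (ε * Real.log 2) ≤ (1 + ε * Real.log 2) ^ v :=
          one_add_mul_le_pow (by nlinarith [mul_pos hε hlog2]) v
        refine h4.trans ?_
        exact pow_le_pow_left₀ (by positivity) h3 v
      have h5 : ((v + 1 : ℕ) : ℝ) ≤ K * (1 + (v : ℝ) * (ε * Real.log 2)) := by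
        have h6 : K * (1 + (v : ℝ) * (ε * Real.log 2))
            = 1 + v + 1 / (ε * Real.log 2) + (v : ℝ) * (ε * Real.log 2) := by
          rw [hK]
          field_simp
          ring
        rw [h6]
        push_cast
        have h7 : 0 < 1 / (ε * Real.log 2) := by positivity
        have h8 : 0 ≤ (v : ℝ) * (ε * Real.log 2) := by positivity
        linarith
      calc ((v + 1 : ℕ) : ℝ) ≤ K * (1 + (v : ℝ) * (ε * Real.log 2)) := h5
        _ ≤ K * ((p : ℝ) ^ ε) ^ v := mul_le_mul_of_nonneg_left (h2.trans h1) (by linarith)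
    · push Not at h
      have h1 : (2 : ℝ) ^ (1 / ε) ≤ p := by
        refine (Nat.le_ceil _).trans ?_
        exact_mod_cast h
      have h2 : (2 : ℝ) ≤ (p : ℝ) ^ ε := by
        calc (2 : ℝ) = ((2 : ℝ) ^ (1 / ε)) ^ ε := by
              rw [← Real.rpow_mul (by norm_num), one_div, inv_mul_cancel₀ hε.ne', Real.rpow_one]
          _ ≤ (p : ℝ) ^ ε := Real.rpow_le_rpow (by positivity) h1 hε.le
      have h3 : ((v + 1 : ℕ) : ℝ) ≤ (2 : ℝ) ^ v := by
        have : v + 1 ≤ 2 ^ v := Nat.lt_two_pow_self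
        exact_mod_cast this
      rw [one_mul]
      exact h3.trans (pow_le_pow_left₀ (by norm_num) h2 v)
  have hcard : (n.divisors.card : ℝ) = ∏ p ∈ n.primeFactors, ((n.factorization p + 1 : ℕ) : ℝ) := by
    rw [Nat.card_divisors hn0]
    push_cast
    rfl
  have hprod : (n : ℝ) ^ ε = ∏ p ∈ n.primeFactors, ((p : ℝ) ^ (n.factorization p)) ^ ε := by
    have h1 : (n : ℝ) = ∏ p ∈ n.primeFactors, ((p : ℝ) ^ (n.factorization p)) := by
      have h2 := Nat.factorization_prod_pow_eq_self hn0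
      conv_lhs => rw [← h2]
      rw [Finsupp.prod, Nat.support_factorization]
      push_cast
      rfl
    conv_lhs => rw [h1]
    rw [Real.finset_prod_rpow _ _ (fun p _ => by positivity)]
  rw [hcard, hprod]
  calc ∏ p ∈ n.primeFactors, ((n.factorization p + 1 : ℕ) : ℝ)
      ≤ ∏ p ∈ n.primeFactors, (if p < P0 then K else 1) * ((p : ℝ) ^ (n.factorization p)) ^ ε :=
        prod_le_prod (fun p _ => by positivity) hfac
    _ = (∏ p ∈ n.primeFactors, (if p < P0 then K else 1))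
          * ∏ p ∈ n.primeFactors, ((p : ℝ) ^ (n.factorization p)) ^ ε := prod_mul_distrib
    _ ≤ K ^ P0 * ∏ p ∈ n.primeFactors, ((p : ℝ) ^ (n.factorization p)) ^ ε := by
        apply mul_le_mul_of_nonneg_right _ (prod_nonneg fun p _ => by positivity)
        rw [← prod_filter, prod_const]
        apply pow_le_pow_right₀ hK1
        calc (n.primeFactors.filter (fun p => p < P0)).card ≤ (range P0).card := by
              apply card_le_card
              intro p hp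
              exact mem_range.mpr (mem_filter.mp hp).2
          _ = P0 := card_range P0

end Pool.Agent.H92.EH

end

section

/-!
# PSI Pw: pointwise bounds, supports, divisor bounds

`|(f * g)(n)| ≤ ∑_{d ∣ n} |f(d)| |g(n/d)|` and `tau d ≤ tau n` for `d ∣ n`, `n ≠ 0`.
`tau_eps`: from `∑_{m ≤ n} tau(m)^j ≤ n (1 + log n)^(2^j)` (`Pool.Agent.H35.U.tau_pow` in
`Pool/Agent/H35/U/TauM.lean`) with `j ≥ 2/e`, or from any divisor bound of the pool (`H92/EH3/DivBound.lean`).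
-/

set_option autoImplicit false

namespace Pool.Agent.H88.PSI

open Finset

private theorem Pw_tau_nonneg (n : ℕ) : 0 ≤ tau n := by
  unfold tau
  positivity

private theorem Pw_tau_one_le {n : ℕ} (hn : n ≠ 0) : 1 ≤ tau n := by
  unfold tau
  have : 0 < n.divisors.card := by
    rw [Finset.card_pos]
    exact ⟨1, Nat.one_mem_divisors.2 hn⟩
  exact_mod_cast this

private theorem Pw_tau_dvd {d n : ℕ} (h : d ∣ n) (hn : n ≠ 0) : tau d ≤ tau n := by
  unfold tau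
  exact_mod_cast Finset.card_le_card (Nat.divisors_subset_of_dvd hn h)

private theorem Pw_card (n : ℕ) : (n.divisorsAntidiagonal.card : ℝ) = tau n := by
  unfold tau
  have h := Nat.sum_divisorsAntidiagonal (fun _ _ => (1:ℝ)) (n := n)
  simp only [Finset.sum_const, nsmul_eq_mul, mul_one] at h
  exact h

private theorem Pw_mul {R : Type*} [NormedCommRing R] (f g : ArithmeticFunction R) (A B : ℝ)
    (hA : 0 ≤ A) (hB : 0 ≤ B) (a b : ℕ) (hf : ∀ n, ‖f n‖ ≤ A * tau n ^ a)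
    (hg : ∀ n, ‖g n‖ ≤ B * tau n ^ b) (n : ℕ) : ‖(f * g) n‖ ≤ A * B * tau n ^ (a + b + 1) := by
  have ht := Pw_tau_nonneg n
  rcases Nat.eq_zero_or_pos n with h0 | h0
  · subst h0
    rw [ArithmeticFunction.map_zero, norm_zero]
    positivity
  · rw [ArithmeticFunction.mul_apply]
    refine (norm_sum_le _ _).trans ?_
    have h1 : ∀ x ∈ n.divisorsAntidiagonal, ‖f x.1 * g x.2‖ ≤ A * B * tau n ^ (a + b) := by
      intro x hx
      rw [Nat.mem_divisorsAntidiagonal] at hx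
      have hx1 : tau x.1 ≤ tau n := Pw_tau_dvd ⟨x.2, hx.1.symm⟩ hx.2
      have hx2 : tau x.2 ≤ tau n := Pw_tau_dvd ⟨x.1, by rw [mul_comm]; exact hx.1.symm⟩ hx.2
      have h2 : ‖f x.1‖ ≤ A * tau n ^ a := (hf x.1).trans
        (mul_le_mul_of_nonneg_left (pow_le_pow_left₀ (Pw_tau_nonneg _) hx1 a) hA)
      have h3 : ‖g x.2‖ ≤ B * tau n ^ b := (hg x.2).trans
        (mul_le_mul_of_nonneg_left (pow_le_pow_left₀ (Pw_tau_nonneg _) hx2 b) hB)
      calc ‖f x.1 * g x.2‖ ≤ ‖f x.1‖ * ‖g x.2‖ := norm_mul_le _ _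
        _ ≤ (A * tau n ^ a) * (B * tau n ^ b) :=
            mul_le_mul h2 h3 (norm_nonneg _) (by positivity)
        _ = A * B * tau n ^ (a + b) := by rw [pow_add]; ring
    refine (Finset.sum_le_sum h1).trans (le_of_eq ?_)
    rw [Finset.sum_const, nsmul_eq_mul, Pw_card, pow_succ]
    ring

/-- products of bounded functions -/
theorem prod_bd {r : ℕ} (f : Fin r → ArithmeticFunction ℂ) (L : ℝ) (hL : 1 ≤ L)
    (h : ∀ i n, ‖f i n‖ ≤ L) (n : ℕ) : ‖(∏ i, f i) n‖ ≤ L ^ r * tau n ^ r := by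
  have key : ∀ s : Finset (Fin r), ∀ n : ℕ, ‖(∏ i ∈ s, f i) n‖ ≤ L ^ s.card * tau n ^ s.card := by
    intro s
    induction s using Finset.induction_on with
    | empty =>
      intro n
      rw [Finset.prod_empty, Finset.card_empty, pow_zero, pow_zero, mul_one,
        ArithmeticFunction.one_apply]
      split_ifs
      · rw [norm_one]
      · rw [norm_zero]
        exact zero_le_one
    | insert i s hi ih =>
      intro n
      rw [Finset.prod_insert hi, Finset.card_insert_of_notMem hi]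
      have h1 := Pw_mul (f i) (∏ i ∈ s, f i) L (L ^ s.card) (by linarith) (by positivity) 0 s.card
        (fun m => by rw [pow_zero, mul_one]; exact h i m) ih n
      refine h1.trans (le_of_eq ?_)
      rw [zero_add, pow_succ L]
      ring
  have h2 := key univ n
  rw [Finset.card_univ, Fintype.card_fin] at h2
  exact h2

/-- products of functions supported on `[N i, 2 N i)` -/
theorem prod_supp {r : ℕ} (f : Fin r → ArithmeticFunction ℂ) (N : Fin r → ℕ)
    (h : ∀ i n, f i n ≠ 0 → N i ≤ n ∧ n < 2 * N i) (n : ℕ) (hn : (∏ i, f i) n ≠ 0) :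
    ∏ i, N i ≤ n ∧ n ≤ ∏ i, (2 * N i) := by
  have key : ∀ s : Finset (Fin r), ∀ n : ℕ, (∏ i ∈ s, f i) n ≠ 0 →
      ∏ i ∈ s, N i ≤ n ∧ n ≤ ∏ i ∈ s, (2 * N i) := by
    intro s
    induction s using Finset.induction_on with
    | empty =>
      intro n hn
      rw [Finset.prod_empty, ArithmeticFunction.one_apply] at hn
      rw [Finset.prod_empty, Finset.prod_empty]
      split_ifs at hn with h1
      · omega
      · exact absurd rfl hn
    | insert i s hi ih =>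
      intro n hn
      rw [Finset.prod_insert hi, ArithmeticFunction.mul_apply] at hn
      obtain ⟨x, hx, hne⟩ := Finset.exists_ne_zero_of_sum_ne_zero hn
      rw [Nat.mem_divisorsAntidiagonal] at hx
      have h1 := h i x.1 (left_ne_zero_of_mul hne)
      have h2 := ih x.2 (right_ne_zero_of_mul hne)
      rw [Finset.prod_insert hi, Finset.prod_insert hi, ← hx.1]
      exact ⟨Nat.mul_le_mul h1.1 h2.1, Nat.mul_le_mul h1.2.le h2.2⟩
  exact key univ n hn

private theorem Pw_sub (f g : ArithmeticFunction ℝ) (n : ℕ) : (f - g) n = f n - g n := by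
  rw [sub_eq_add_neg, ArithmeticFunction.add_apply, sub_eq_add_neg]
  rfl

private theorem Pw_seg2 (w : ℕ) (n : ℕ) : ‖seg 2 1 (2 ^ w) n‖ ≤ 1 * tau n ^ 0 := by
  rw [pow_zero, mul_one]
  show ‖if n ≠ 0 ∧ 1 ≤ n ∧ n < 2 ^ w then kf 2 n else 0‖ ≤ 1
  split_ifs
  · have h1 : kf 2 n = ((ArithmeticFunction.moebius n : ℤ) : ℝ) := by
      unfold kf
      rw [if_neg (by decide), if_neg (by decide)]
    rw [h1, Real.norm_eq_abs, ← Int.cast_abs]
    exact_mod_cast ArithmeticFunction.abs_moebius_le_one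
  · rw [norm_zero]
    exact zero_le_one

private theorem Pw_hi0 (n : ℕ) : ‖hi 0 1 n‖ ≤ 1 * tau n ^ 0 := by
  rw [pow_zero, mul_one]
  show ‖if n ≠ 0 ∧ 1 ≤ n then kf 0 n else 0‖ ≤ 1
  split_ifs
  · have h1 : kf 0 n = 1 := by
      unfold kf
      rw [if_pos rfl]
    rw [h1, norm_one]
  · rw [norm_zero]
    exact zero_le_one

private theorem Pw_seg0 (y : ℕ) (n : ℕ) : ‖seg 0 1 (2 ^ y) n‖ ≤ 1 := by
  show ‖if n ≠ 0 ∧ 1 ≤ n ∧ n < 2 ^ y then kf 0 n else 0‖ ≤ 1
  split_ifs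
  · have h1 : kf 0 n = 1 := by
      unfold kf
      rw [if_pos rfl]
    rw [h1, norm_one]
  · rw [norm_zero]
    exact zero_le_one

private theorem Pw_seg1 (y : ℕ) (n : ℕ) : ‖seg 1 1 (2 ^ y) n‖ ≤ (y : ℝ) * tau n ^ 0 := by
  rw [pow_zero, mul_one]
  show ‖if n ≠ 0 ∧ 1 ≤ n ∧ n < 2 ^ y then kf 1 n else 0‖ ≤ (y : ℝ)
  split_ifs with h
  · have h1 : kf 1 n = Real.log n := by
      unfold kf
      rw [if_neg (by decide), if_pos rfl]
    have hn1 : (1 : ℝ) ≤ n := by exact_mod_cast h.2.1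
    rw [h1, Real.norm_eq_abs, abs_of_nonneg (Real.log_nonneg hn1)]
    have h2 : (n : ℝ) ≤ 2 ^ y := by exact_mod_cast h.2.2.le
    have h3 : Real.log n ≤ Real.log ((2 : ℝ) ^ y) := Real.log_le_log (by linarith) h2
    rw [Real.log_pow] at h3
    have h4 : Real.log 2 ≤ 1 := by
      have := Real.log_two_lt_d9
      linarith
    have h5 : (0 : ℝ) ≤ y := Nat.cast_nonneg y
    nlinarith
  · rw [norm_zero]
    exact Nat.cast_nonneg y

private theorem Pw_hs (y : ℕ) (n : ℕ) : ‖(hi 0 1 + seg 0 1 (2 ^ y)) n‖ ≤ 2 * tau n ^ 0 := by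
  rw [ArithmeticFunction.add_apply]
  have h1 := Pw_hi0 n
  have h2 := Pw_seg0 y n
  rw [pow_zero, mul_one] at h1 ⊢
  refine (norm_add_le _ _).trans ?_
  linarith

private theorem Pw_sq (w : ℕ) (n : ℕ) : ‖(seg 2 1 (2 ^ w) ^ 2) n‖ ≤ 1 * tau n ^ 1 := by
  rw [pow_two]
  have h := Pw_mul (seg 2 1 (2 ^ w)) (seg 2 1 (2 ^ w)) 1 1 zero_le_one zero_le_one 0 0 (Pw_seg2 w)
    (Pw_seg2 w) n
  simpa using h

private theorem Pw_cube (w : ℕ) (n : ℕ) : ‖(seg 2 1 (2 ^ w) ^ 3) n‖ ≤ 1 * tau n ^ 2 := by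
  rw [pow_succ]
  have h := Pw_mul (seg 2 1 (2 ^ w) ^ 2) (seg 2 1 (2 ^ w)) 1 1 zero_le_one zero_le_one 1 0 (Pw_sq w)
    (Pw_seg2 w) n
  simpa using h

/-- the coefficients `cA` -/
theorem cA_bd (w n : ℕ) : |cA w n| ≤ 7 * tau n ^ 5 := by
  rcases Nat.eq_zero_or_pos n with h0 | h0
  · subst h0
    rw [ArithmeticFunction.map_zero, abs_zero]
    have := Pw_tau_nonneg 0
    positivity
  · have ht := Pw_tau_one_le (n := n) (by omega)
    have h1 := Pw_seg2 w n
    have h2 := Pw_mul (hi 0 1) (seg 2 1 (2 ^ w) ^ 2) 1 1 zero_le_one zero_le_one 0 1 Pw_hi0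
      (Pw_sq w) n
    have h3 : ∀ n, ‖(hi 0 1 ^ 2) n‖ ≤ 1 * tau n ^ 1 := by
      intro n
      rw [pow_two]
      have h := Pw_mul (hi 0 1) (hi 0 1) 1 1 zero_le_one zero_le_one 0 0 Pw_hi0 Pw_hi0 n
      simpa using h
    have h4 := Pw_mul (hi 0 1 ^ 2) (seg 2 1 (2 ^ w) ^ 3) 1 1 zero_le_one zero_le_one 1 2 h3
      (Pw_cube w) n
    rw [Real.norm_eq_abs] at h1 h2 h4
    have e : cA w n = 3 * seg 2 1 (2 ^ w) n - 3 * (hi 0 1 * seg 2 1 (2 ^ w) ^ 2) n +
        (hi 0 1 ^ 2 * seg 2 1 (2 ^ w) ^ 3) n := by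
      unfold cA
      rw [ArithmeticFunction.add_apply, Pw_sub]
      rfl
    rw [e]
    have p1 : tau n ^ 0 ≤ tau n ^ 5 := pow_le_pow_right₀ ht (by norm_num)
    have p2 : tau n ^ (0 + 1 + 1) ≤ tau n ^ 5 := pow_le_pow_right₀ ht (by norm_num)
    have p3 : tau n ^ (1 + 2 + 1) ≤ tau n ^ 5 := pow_le_pow_right₀ ht (by norm_num)
    have q1 := abs_le.1 h1
    have q2 := abs_le.1 h2
    have q4 := abs_le.1 h4
    rw [abs_le]
    constructor <;> linarith [q1.1, q1.2, q2.1, q2.2, q4.1, q4.2]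

/-- the coefficients `cB` -/
theorem cB_bd (y w n : ℕ) : |cB y w n| ≤ 5 * (y + 1) * tau n ^ 5 := by
  rcases Nat.eq_zero_or_pos n with h0 | h0
  · subst h0
    rw [ArithmeticFunction.map_zero, abs_zero]
    have := Pw_tau_nonneg 0
    positivity
  · have ht := Pw_tau_one_le (n := n) (by omega)
    have hy : (0 : ℝ) ≤ y := Nat.cast_nonneg y
    have h1 := Pw_mul (seg 1 1 (2 ^ y)) (hi 0 1 + seg 0 1 (2 ^ y)) y 2 hy (by norm_num) 0 0
      (Pw_seg1 y) (Pw_hs y)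
    have h2 := Pw_mul (seg 1 1 (2 ^ y) * (hi 0 1 + seg 0 1 (2 ^ y))) (seg 2 1 (2 ^ w) ^ 3) (y * 2) 1
      (by positivity) zero_le_one (0 + 0 + 1) 2 h1 (Pw_cube w) n
    have h3 := Pw_mul (seg 1 1 (2 ^ y)) (seg 2 1 (2 ^ w) ^ 2) y 1 hy zero_le_one 0 1 (Pw_seg1 y)
      (Pw_sq w) n
    rw [Real.norm_eq_abs] at h2 h3
    have e : cB y w n = (seg 1 1 (2 ^ y) * (hi 0 1 + seg 0 1 (2 ^ y)) * seg 2 1 (2 ^ w) ^ 3) n -
        3 * (seg 1 1 (2 ^ y) * seg 2 1 (2 ^ w) ^ 2) n := by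
      unfold cB
      rw [Pw_sub]
      rfl
    rw [e]
    have p2 : tau n ^ (0 + 1 + 1) ≤ tau n ^ 5 := pow_le_pow_right₀ ht (by norm_num)
    have p3 : tau n ^ (0 + 0 + 1 + 2 + 1) ≤ tau n ^ 5 := pow_le_pow_right₀ ht (by norm_num)
    have r2 : (y : ℝ) * 1 * tau n ^ (0 + 1 + 1) ≤ y * tau n ^ 5 := by
      rw [mul_one]
      exact mul_le_mul_of_nonneg_left p2 hy
    have r3 : (y : ℝ) * 2 * 1 * tau n ^ (0 + 0 + 1 + 2 + 1) ≤ 2 * (y * tau n ^ 5) := by
      have := mul_le_mul_of_nonneg_left p3 hy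
      linarith
    have r4 : 0 ≤ tau n ^ 5 := by positivity
    have q2 := abs_le.1 h2
    have q3 := abs_le.1 h3
    rw [abs_le]
    constructor <;> linarith [q2.1, q2.2, q3.1, q3.2]

/-- divisor bound -/
theorem tau_eps (e : ℝ) (he : 0 < e) : ∃ C : ℝ, 1 ≤ C ∧ ∀ n : ℕ, tau n ≤ C * (n : ℝ) ^ e + C := by
  obtain ⟨C, hC, h⟩ := Pool.Agent.H92.EH.div_bound e he
  refine ⟨C, hC, fun n => ?_⟩
  have hn : (0 : ℝ) ≤ (n : ℝ) ^ e := Real.rpow_nonneg (Nat.cast_nonneg n) e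
  rcases Nat.eq_zero_or_pos n with h0 | h0
  · subst h0
    unfold tau
    rw [Nat.divisors_zero, Finset.card_empty, Nat.cast_zero]
    have h2 : (0 : ℝ) ≤ (0 : ℝ) ^ e := Real.rpow_nonneg le_rfl e
    have h3 : 0 ≤ C * (0 : ℝ) ^ e := mul_nonneg (by linarith) h2
    linarith
  · have h1 := h n h0
    unfold tau
    linarith

open scoped Pointwise in
private theorem Pw_tau_mul_le (d e : ℕ) :
    (d * e).divisors.card ≤ d.divisors.card * e.divisors.card := by
  rw [Nat.divisors_mul]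
  exact card_mul_le

private noncomputable def Pw_S (k n : ℕ) : ℝ := ∑ m ∈ Icc 1 n, (m.divisors.card : ℝ) ^ k / m

private theorem Pw_S_nonneg (k n : ℕ) : 0 ≤ Pw_S k n :=
  sum_nonneg fun _ _ => by positivity

private theorem Pw_S_succ (k n : ℕ) : Pw_S (k + 1) n ≤ Pw_S k n ^ 2 := by
  obtain ⟨f, hf⟩ : ∃ f : ℕ × ℕ → ℝ, f = fun p => ((p.1.divisors.card : ℝ) ^ k / p.1) *
      ((p.2.divisors.card : ℝ) ^ k / p.2) := ⟨_, rfl⟩
  have hf0 : ∀ p, 0 ≤ f p := fun p => by rw [hf]; positivity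
  have h1 : Pw_S k n ^ 2 = ∑ p ∈ Icc 1 n ×ˢ Icc 1 n, f p := by
    unfold Pw_S
    rw [sq, sum_mul_sum, sum_product, hf]
  have h2 : ∀ m ∈ Icc 1 n, (m.divisors.card : ℝ) ^ (k + 1) / m ≤
      ∑ p ∈ ((Icc 1 n ×ˢ Icc 1 n).filter (fun p => p.1 * p.2 ∈ Icc 1 n)).filter
        (fun p => p.1 * p.2 = m), f p := by
    intro m hm
    have hm' := mem_Icc.1 hm
    have e1 : ((Icc 1 n ×ˢ Icc 1 n).filter (fun p => p.1 * p.2 ∈ Icc 1 n)).filter
        (fun p => p.1 * p.2 = m) = m.divisorsAntidiagonal := by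
      ext p
      rw [mem_filter, mem_filter, mem_product, mem_Icc, mem_Icc, Nat.mem_divisorsAntidiagonal]
      constructor
      · rintro ⟨_, h⟩
        exact ⟨h, by omega⟩
      · rintro ⟨h, _⟩
        have hp1 : 1 ≤ p.1 := Nat.one_le_iff_ne_zero.2 (by rintro h0; rw [h0, zero_mul] at h; omega)
        have hp2 : 1 ≤ p.2 := Nat.one_le_iff_ne_zero.2 (by rintro h0; rw [h0, mul_zero] at h; omega)
        have h3 : p.1 ≤ m := h ▸ Nat.le_mul_of_pos_right _ hp2
        have h4 : p.2 ≤ m := h ▸ Nat.le_mul_of_pos_left _ hp1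
        exact ⟨⟨⟨⟨hp1, by omega⟩, ⟨hp2, by omega⟩⟩, h ▸ hm⟩, h⟩
    rw [e1]
    have e2 : (m.divisors.card : ℝ) = ∑ _p ∈ m.divisorsAntidiagonal, (1:ℝ) := by
      rw [Nat.sum_divisorsAntidiagonal (fun _ _ => (1:ℝ))]
      simp
    have e3 : (m.divisors.card : ℝ) ^ (k + 1) / m =
        ∑ _p ∈ m.divisorsAntidiagonal, (m.divisors.card : ℝ) ^ k / m := by
      rw [← mul_one ((m.divisors.card : ℝ) ^ k / m), ← mul_sum, ← e2, pow_succ]
      ring
    rw [e3]
    refine sum_le_sum fun p hp => ?_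
    rw [Nat.mem_divisorsAntidiagonal] at hp
    rw [hf]
    have h5 := Pw_tau_mul_le p.1 p.2
    rw [hp.1] at h5
    have h6 : (m.divisors.card : ℝ) ≤ (p.1.divisors.card : ℝ) * (p.2.divisors.card : ℝ) := by
      exact_mod_cast h5
    have h7 : (m : ℝ) = (p.1 : ℝ) * p.2 := by rw [← hp.1]; push_cast; rfl
    show (m.divisors.card : ℝ) ^ k / m ≤ ((p.1.divisors.card : ℝ) ^ k / p.1) *
      ((p.2.divisors.card : ℝ) ^ k / p.2)
    rw [div_mul_div_comm, ← mul_pow, ← h7]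
    exact div_le_div_of_nonneg_right (pow_le_pow_left₀ (by positivity) h6 k) (by positivity)
  rw [h1]
  unfold Pw_S
  calc ∑ m ∈ Icc 1 n, (m.divisors.card : ℝ) ^ (k + 1) / m
      ≤ ∑ m ∈ Icc 1 n, ∑ p ∈ ((Icc 1 n ×ˢ Icc 1 n).filter (fun p => p.1 * p.2 ∈ Icc 1 n)).filter
        (fun p => p.1 * p.2 = m), f p := sum_le_sum h2
    _ = ∑ p ∈ (Icc 1 n ×ˢ Icc 1 n).filter (fun p => p.1 * p.2 ∈ Icc 1 n), f p :=
        sum_fiberwise_of_maps_to (fun p hp => (mem_filter.1 hp).2) f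
    _ ≤ ∑ p ∈ Icc 1 n ×ˢ Icc 1 n, f p :=
        sum_le_sum_of_subset_of_nonneg (filter_subset _ _) (fun p _ _ => hf0 p)

private theorem Pw_S_zero (n : ℕ) : Pw_S 0 n ≤ 1 + Real.log n := by
  have h := harmonic_le_one_add_log n
  refine le_trans (le_of_eq ?_) h
  unfold Pw_S
  rw [harmonic_eq_sum_Icc]
  push_cast
  refine sum_congr rfl fun m _ => ?_
  rw [pow_zero, one_div]

private theorem Pw_S_pow (n k : ℕ) : Pw_S k n ≤ (1 + Real.log n) ^ (2 ^ k) := by
  induction k with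
  | zero => simpa using Pw_S_zero n
  | succ k ih =>
    refine (Pw_S_succ k n).trans ?_
    rw [pow_succ 2 k, pow_mul]
    exact pow_le_pow_left₀ (Pw_S_nonneg k n) ih 2

/-- moments of the divisor function -/
theorem tau_mom (j n : ℕ) : ∑ m ∈ Icc 1 n, tau m ^ j ≤ n * (1 + Real.log n) ^ (2 ^ j) := by
  have h1 : ∑ m ∈ Icc 1 n, tau m ^ j ≤ n * Pw_S j n := by
    unfold Pw_S
    rw [mul_sum]
    refine sum_le_sum fun m hm => ?_
    have hm' := mem_Icc.1 hm
    have hm0 : (0:ℝ) < m := by exact_mod_cast hm'.1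
    have hmn : (m:ℝ) ≤ n := by exact_mod_cast hm'.2
    unfold tau
    rw [← mul_div_assoc, le_div_iff₀ hm0, mul_comm]
    exact mul_le_mul_of_nonneg_right hmn (by positivity)
  exact h1.trans (mul_le_mul_of_nonneg_left (Pw_S_pow n j) (by positivity))

/-- the same with weights `1/m` (see the private `tau_S_pow` in `Pool/Agent/H80/LV/Tau4.lean`) -/
theorem tau_momd (j n : ℕ) : ∑ m ∈ Icc 1 n, tau m ^ j / m ≤ (1 + Real.log n) ^ (2 ^ j) := by
  exact Pw_S_pow n j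

end Pool.Agent.H88.PSI

end

section

/-!
# PSI Dks: the kernel `dk H θ = ∑_{j ≤ H} ee(jθ)` at the points `c/q + b/d`

`|dk H θ| ≤ H` and `|dk H θ| ≤ 1/(2 ‖θ‖)` (`‖θ‖` = distance to the nearest integer, geometric sum).  The points `c/q + b/d` (`c` mod `q`) are spaced by
`1/q` modulo 1 and are `≥ 1/(qd)` away from the integers (`(q, d) = 1`, not `q = 1, b = 0`).  The two nearest: `≤ min(H, qd/2)^2 ≤ d^2 min(q^2, qH)`; the
others `≤ 2 ∑_{k ≥ 1} min(H, q/(2k))^2 ≤ 4 min(q^2, qH)`.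
-/

set_option autoImplicit false

namespace Pool.Agent.H88.PSI

open Finset
open Pool.Agent.H91.PK (ee)

private theorem Dks_ee_add (a b : ℝ) : ee (a + b) = ee a * ee b := by
  unfold ee
  rw [← Complex.exp_add]
  congr 1
  push_cast
  ring

private theorem Dks_norm_ee (a : ℝ) : ‖ee a‖ = 1 := by
  unfold ee
  have : (2 * Real.pi * a * Complex.I : ℂ) = ((2 * Real.pi * a : ℝ) : ℂ) * Complex.I := by
    push_cast; ring
  rw [this]
  exact Complex.norm_exp_ofReal_mul_I _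

private theorem Dks_ee_int (n : ℤ) : ee (n : ℝ) = 1 := by
  unfold ee
  rw [Complex.exp_eq_one_iff]
  exact ⟨n, by push_cast; ring⟩

private theorem Dks_sin (δ : ℝ) (h : |δ| ≤ 1 / 2) : 4 * |δ| ≤ ‖1 - ee δ‖ := by
  have h1 : ‖1 - ee δ‖ = 2 * |Real.sin (Real.pi * δ)| := by
    have e1 : ee δ = Complex.exp (((2 * Real.pi * δ : ℝ) : ℂ) * Complex.I) := by
      unfold ee; congr 1; push_cast; ring
    rw [e1, norm_sub_rev]
    have := Complex.norm_exp_I_mul_ofReal_sub_one (2 * Real.pi * δ)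
    rw [mul_comm (Complex.I)] at this
    rw [this, Real.norm_eq_abs, abs_mul, abs_two]
    congr 3
    ring
  rw [h1]
  have h2 := Real.mul_abs_le_abs_sin (x := Real.pi * δ) (by
    rw [abs_mul, abs_of_pos Real.pi_pos]
    nlinarith [Real.pi_pos])
  rw [abs_mul, abs_of_pos Real.pi_pos] at h2
  have h3 : 2 / Real.pi * (Real.pi * |δ|) = 2 * |δ| := by
    field_simp [Real.pi_pos.ne']
  rw [h3] at h2
  linarith

theorem dk_le (H : ℕ) (θ : ℝ) : ‖dk H θ‖ ≤ H := by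
  unfold dk
  refine (norm_sum_le _ _).trans ?_
  simp [Dks_norm_ee]

private theorem Dks_geom (H : ℕ) (θ : ℝ) :
    (1 - ee θ) * dk H θ = ee θ - ee ((H + 1 : ℝ) * θ) := by
  unfold dk
  induction H with
  | zero => simp
  | succ n ih =>
    rw [Finset.sum_Icc_succ_top (by omega), mul_add, ih]
    have : ee (((n + 1 : ℕ) : ℝ) * θ) * ee θ = ee (((n + 1 : ℕ) + 1 : ℝ) * θ) := by
      rw [← Dks_ee_add]; congr 1; ring
    rw [sub_mul, one_mul, mul_comm (ee θ), this]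
    push_cast
    ring

theorem dk_inv (H : ℕ) (θ : ℝ) (n : ℤ) (h : ∀ m : ℤ, θ ≠ m) (hn : |θ - n| ≤ 1 / 2) :
    ‖dk H θ‖ ≤ 1 / (2 * |θ - n|) := by
  have hpos : 0 < |θ - n| := abs_pos.2 (sub_ne_zero.2 (h n))
  have h1 : 4 * |θ - n| ≤ ‖1 - ee θ‖ := by
    have := Dks_sin (θ - n) hn
    have e : ee θ = ee (θ - n) := by
      have : θ = (θ - n) + n := by ring
      conv_lhs => rw [this]
      rw [Dks_ee_add, Dks_ee_int, mul_one]
    rw [e]; exact this
  have h2 : ‖1 - ee θ‖ * ‖dk H θ‖ ≤ 2 := by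
    rw [← norm_mul, Dks_geom]
    refine (norm_sub_le _ _).trans ?_
    rw [Dks_norm_ee, Dks_norm_ee]; norm_num
  rw [le_div_iff₀ (by positivity)]
  have h3 := norm_nonneg (dk H θ)
  nlinarith [mul_le_mul_of_nonneg_right h1 h3]

private theorem Dks_nonint (q d b c : ℕ) (hb : b < d)
    (hqd : Nat.Coprime q d) (h0 : ¬ (q = 1 ∧ b = 0)) (hc : Nat.Coprime c q) (m : ℤ) :
    ((c : ℤ) * d + b * q) ≠ m * (q * d) := by
  intro he
  have h1 : (q : ℤ) ∣ (c : ℤ) * d := by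
    have : (c : ℤ) * d = q * (m * d - b) := by linear_combination he
    exact ⟨_, this⟩
  have h2 : q ∣ c * d := by exact_mod_cast h1
  have h3 : q ∣ c := hqd.dvd_of_dvd_mul_right h2
  have h4 : q = 1 := by
    have : q ∣ Nat.gcd c q := Nat.dvd_gcd h3 dvd_rfl
    rw [hc] at this
    exact Nat.dvd_one.1 this
  have h5 : (d : ℤ) ∣ (b : ℤ) * q := by
    have : (b : ℤ) * q = d * (m * q - c) := by linear_combination he
    exact ⟨_, this⟩
  have h6 : d ∣ b * q := by exact_mod_cast h5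
  have h7 : d ∣ b := hqd.symm.dvd_of_dvd_mul_right h6
  exact h0 ⟨h4, Nat.eq_zero_of_dvd_of_lt h7 hb⟩

private theorem Dks_half (S : Finset ℕ) (r : ℕ → ℕ) (hinj : Set.InjOn r S) (M : ℕ)
    (hM : ∀ c ∈ S, 1 ≤ r c ∧ r c ≤ M) (g : ℕ → ℝ) (hg : ∀ k, 0 ≤ g k) :
    ∑ c ∈ S, g (r c) ≤ ∑ k ∈ Icc 1 M, g k := by
  rw [← Finset.sum_image (f := g) hinj]
  refine Finset.sum_le_sum_of_subset_of_nonneg ?_ fun k _ _ => hg k
  intro k hk
  rw [Finset.mem_image] at hk
  obtain ⟨c, hc, rfl⟩ := hk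
  exact Finset.mem_Icc.2 (hM c hc)

private theorem Dks_two (S : Finset ℕ) (r : ℕ → ℤ) (hinj : Set.InjOn r S)
    (hne : ∀ c ∈ S, r c ≠ 0) (M : ℕ) (hM : ∀ c ∈ S, (r c).natAbs ≤ M) (g : ℕ → ℝ)
    (hg : ∀ k, 0 ≤ g k) :
    ∑ c ∈ S, g (r c).natAbs ≤ 2 * ∑ k ∈ Icc 1 M, g k := by
  rw [← Finset.sum_filter_add_sum_filter_not S (fun c => 0 < r c), two_mul]
  refine add_le_add ?_ ?_
  · refine Dks_half _ (fun c => (r c).natAbs) ?_ M ?_ g hg
    · intro a ha b hb hab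
      rw [Finset.mem_coe, Finset.mem_filter] at ha hb
      refine hinj ha.1 hb.1 ?_
      have h1 := ha.2
      have h2 := hb.2
      simp only at hab
      omega
    · intro c hc
      rw [Finset.mem_filter] at hc
      refine ⟨?_, hM c hc.1⟩
      have := hne c hc.1
      omega
  · refine Dks_half _ (fun c => (r c).natAbs) ?_ M ?_ g hg
    · intro a ha b hb hab
      rw [Finset.mem_coe, Finset.mem_filter] at ha hb
      refine hinj ha.1 hb.1 ?_
      have h1 := ha.2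
      have h2 := hb.2
      simp only at hab
      omega
    · intro c hc
      rw [Finset.mem_filter] at hc
      refine ⟨?_, hM c hc.1⟩
      have := hne c hc.1
      omega

private theorem Dks_s1' (M : ℕ) : ∑ k ∈ Icc 1 (M + 1), 1 / (k : ℝ) ^ 2 ≤ 2 - 1 / ((M : ℝ) + 1) := by
  induction M with
  | zero => norm_num
  | succ n ih =>
    rw [Finset.sum_Icc_succ_top (by omega)]
    have h2 : (0 : ℝ) < (n : ℝ) + 1 := by positivity
    have h3 : (0 : ℝ) < (n : ℝ) + 2 := by positivity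
    have h5 : 1 / (((n : ℝ) + 2) ^ 2) ≤ 1 / ((n : ℝ) + 1) - 1 / ((n : ℝ) + 2) := by
      have e : 1 / ((n : ℝ) + 1) - 1 / ((n : ℝ) + 2) = 1 / (((n : ℝ) + 1) * ((n : ℝ) + 2)) := by
        field_simp
        ring
      rw [e]
      apply one_div_le_one_div_of_le (by positivity)
      nlinarith
    have h6 : (((n + 1 + 1 : ℕ)) : ℝ) = (n : ℝ) + 2 := by push_cast; ring
    have h7 : (((n + 1 : ℕ)) : ℝ) + 1 = (n : ℝ) + 2 := by push_cast; ring
    rw [h6, h7]
    linarith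

private theorem Dks_s1 (M : ℕ) : ∑ k ∈ Icc 1 M, 1 / (k : ℝ) ^ 2 ≤ 2 := by
  rcases M with _ | M
  · simp
  · refine (Dks_s1' M).trans ?_
    have : (0 : ℝ) ≤ 1 / ((M : ℝ) + 1) := by positivity
    linarith

private theorem Dks_s2 (A H : ℝ) (hA : 0 < A) (hH : 0 < H) (M : ℕ) :
    ∑ k ∈ Icc 1 M, A ^ 2 * H ^ 2 / (A + k * H) ^ 2 ≤ A * H - A ^ 2 * H / (A + M * H) := by
  induction M with
  | zero =>
    simp
    field_simp
    norm_num
  | succ n ih =>
    rw [Finset.sum_Icc_succ_top (by omega)]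
    have h1 : 0 < A + n * H := by positivity
    have h6 : (((n + 1 : ℕ)) : ℝ) = (n : ℝ) + 1 := by push_cast; ring
    rw [h6]
    have h2 : 0 < A + ((n : ℝ) + 1) * H := by positivity
    have h3 : A ^ 2 * H ^ 2 / (A + ((n : ℝ) + 1) * H) ^ 2 ≤
        A ^ 2 * H / (A + n * H) - A ^ 2 * H / (A + ((n : ℝ) + 1) * H) := by
      have e : A ^ 2 * H / (A + n * H) - A ^ 2 * H / (A + ((n : ℝ) + 1) * H)
          = A ^ 2 * H ^ 2 / ((A + n * H) * (A + ((n : ℝ) + 1) * H)) := by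
        field_simp
        ring
      rw [e]
      apply div_le_div_of_nonneg_left (by positivity) (by positivity)
      rw [sq]
      apply mul_le_mul_of_nonneg_right _ h2.le
      nlinarith
    linarith

private theorem Dks_pt (H : ℕ) (A x δ : ℝ) (hA : 0 < A) (hH : 1 ≤ H) (hx0 : 0 ≤ x) (hx : x ≤ H)
    (k : ℕ) (hk : 1 ≤ k) (hd : δ = k / A) (h : x ≤ 1 / (2 * δ)) :
    x ^ 2 ≤ A ^ 2 * (1 / (k : ℝ) ^ 2) ∧ x ^ 2 ≤ 4 * (A ^ 2 * (H : ℝ) ^ 2 / (A + k * H) ^ 2) := by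
  have hk' : (0 : ℝ) < k := by exact_mod_cast hk
  have hH' : (0 : ℝ) < H := by exact_mod_cast hH
  have h1 : x ≤ A / (2 * k) := by
    have : 1 / (2 * δ) = A / (2 * k) := by rw [hd]; field_simp
    rw [this] at h; exact h
  have h2 : x ^ 2 ≤ (A / (2 * k)) ^ 2 := pow_le_pow_left₀ hx0 h1 2
  have h3 : x ^ 2 ≤ (H : ℝ) ^ 2 := pow_le_pow_left₀ hx0 hx 2
  constructor
  · refine h2.trans ?_
    have : (A / (2 * k)) ^ 2 = A ^ 2 * (1 / (k : ℝ) ^ 2) / 4 := by field_simp; norm_num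
    rw [this]
    have : 0 ≤ A ^ 2 * (1 / (k : ℝ) ^ 2) := by positivity
    linarith
  · rcases le_total ((k : ℝ) * H) A with hc | hc
    · refine h3.trans ?_
      rw [← mul_div_assoc, le_div_iff₀ (by positivity)]
      have h4 : (A + k * H) ^ 2 ≤ (2 * A) ^ 2 := by
        apply pow_le_pow_left₀ (by positivity)
        linarith
      nlinarith [mul_le_mul_of_nonneg_left h4 (sq_nonneg (H : ℝ))]
    · refine h2.trans ?_
      rw [← mul_div_assoc, div_pow, div_le_div_iff₀ (by positivity) (by positivity)]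
      have h4 : (A + k * H) ^ 2 ≤ (2 * (k * H)) ^ 2 := by
        apply pow_le_pow_left₀ (by positivity)
        linarith
      have h5 := mul_le_mul_of_nonneg_left h4 (sq_nonneg A)
      have h6 : 0 ≤ A ^ 2 * (H : ℝ) ^ 2 * (k : ℝ) ^ 2 := by positivity
      nlinarith

theorem dk_sum (H q d b : ℕ) (hH : 1 ≤ H) (hq : 1 ≤ q) (hd : 1 ≤ d) (hb : b < d)
    (hqd : Nat.Coprime q d) (h0 : ¬ (q = 1 ∧ b = 0)) :
    ∑ c ∈ (Icc 1 q).filter (fun c => Nat.Coprime c q), ‖dk H ((c : ℝ) / q + (b : ℝ) / d)‖ ^ 2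
      ≤ 100 * (d : ℝ) ^ 2 * min ((q : ℝ) ^ 2) (q * H) := by
  have hq' : (0 : ℝ) < q := by exact_mod_cast hq
  have hd' : (0 : ℝ) < d := by exact_mod_cast hd
  have hd1 : (1 : ℝ) ≤ d := by exact_mod_cast hd
  have hH' : (0 : ℝ) < H := by exact_mod_cast hH
  set A : ℝ := q * d with hA
  have hA0 : 0 < A := by positivity
  let th : ℕ → ℝ := fun c => (c : ℝ) / q + (b : ℝ) / d
  let r : ℕ → ℤ := fun c => ((c : ℤ) * d + b * q) - round (th c) * (q * d)
  have hr : ∀ c, th c - (round (th c) : ℤ) = (r c : ℝ) / A := by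
    intro c
    simp only [r, th, hA]
    push_cast
    field_simp
  have hrne : ∀ c, Nat.Coprime c q → r c ≠ 0 := by
    intro c hc he
    exact Dks_nonint q d b c hb hqd h0 hc (round (th c)) (sub_eq_zero.1 he)
  have hrabs : ∀ c, |th c - (round (th c) : ℤ)| = ((r c).natAbs : ℝ) / A := by
    intro c
    rw [hr, abs_div, abs_of_pos hA0]
    congr 1
    rw [Nat.cast_natAbs, Int.cast_abs]
  have hrle : ∀ c, (r c).natAbs ≤ q * d := by
    intro c
    have h1 := abs_sub_round (th c)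
    rw [hrabs, div_le_iff₀ hA0] at h1
    have : ((r c).natAbs : ℝ) ≤ ((q * d : ℕ) : ℝ) := by
      push_cast
      rw [hA] at h1
      nlinarith [mul_pos hq' hd']
    exact_mod_cast this
  set S : Finset ℕ := (Icc 1 q).filter (fun c => Nat.Coprime c q) with hS
  have hinj : Set.InjOn r S := by
    intro c hc c' hc' he
    rw [Finset.mem_coe, hS, Finset.mem_filter, Finset.mem_Icc] at hc hc'
    simp only [r] at he
    have h1 : ((c : ℤ) - c') * d = ((round (th c) - round (th c')) * q) * d := by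
      linear_combination he
    have h2 : (c : ℤ) - c' = (round (th c) - round (th c')) * q := by
      refine mul_right_cancel₀ (b := (d : ℤ)) ?_ h1
      exact_mod_cast hd'.ne'
    have h3 : (q : ℤ) ∣ (c : ℤ) - c' := by rw [h2]; exact dvd_mul_left _ _
    have h4 : (c : ℤ) - c' = 0 := by
      apply Int.eq_zero_of_abs_lt_dvd h3
      rw [abs_lt]
      constructor <;> omega
    omega
  have hthne : ∀ c, Nat.Coprime c q → ∀ m : ℤ, th c ≠ m := by
    intro c hc m he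
    refine Dks_nonint q d b c hb hqd h0 hc m ?_
    have h1 : (c : ℝ) * d + b * q = m * (q * d) := by
      rw [← he]
      simp only [th]
      field_simp
    exact_mod_cast h1
  have key : ∀ c ∈ S, ‖dk H (th c)‖ ^ 2 ≤ A ^ 2 * (1 / (((r c).natAbs : ℕ) : ℝ) ^ 2) ∧
      ‖dk H (th c)‖ ^ 2 ≤ 4 * (A ^ 2 * (H : ℝ) ^ 2 / (A + ((r c).natAbs : ℕ) * H) ^ 2) := by
    intro c hc
    rw [hS, Finset.mem_filter, Finset.mem_Icc] at hc
    refine Dks_pt H A _ (|th c - (round (th c) : ℤ)|) hA0 hH (norm_nonneg _) (dk_le _ _) _ ?_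
      (hrabs c) ?_
    · have := hrne c hc.2
      omega
    · exact dk_inv H (th c) _ (hthne c hc.2) (abs_sub_round _)
  have b1 : ∑ c ∈ S, ‖dk H (th c)‖ ^ 2 ≤ 4 * A ^ 2 := by
    refine (Finset.sum_le_sum fun c hc => (key c hc).1).trans ?_
    refine (Dks_two S r hinj (fun c hc => ?_) (q * d) (fun c _ => hrle c)
      (fun k => A ^ 2 * (1 / (k : ℝ) ^ 2)) (fun k => by positivity)).trans ?_
    · rw [hS, Finset.mem_filter] at hc
      exact hrne c hc.2
    · rw [← Finset.mul_sum]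
      nlinarith [mul_le_mul_of_nonneg_left (Dks_s1 (q * d)) (sq_nonneg A)]
  have b2 : ∑ c ∈ S, ‖dk H (th c)‖ ^ 2 ≤ 8 * (A * H) := by
    refine (Finset.sum_le_sum fun c hc => (key c hc).2).trans ?_
    refine (Dks_two S r hinj (fun c hc => ?_) (q * d) (fun c _ => hrle c)
      (fun k => 4 * (A ^ 2 * (H : ℝ) ^ 2 / (A + k * H) ^ 2)) (fun k => by positivity)).trans ?_
    · rw [hS, Finset.mem_filter] at hc
      exact hrne c hc.2
    · rw [← Finset.mul_sum]
      have h1 := Dks_s2 A H hA0 hH' (q * d)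
      have h2 : 0 ≤ A ^ 2 * H / (A + ((q * d : ℕ) : ℝ) * H) := by positivity
      linarith
  have hdd : (d : ℝ) ≤ (d : ℝ) ^ 2 := by nlinarith
  have e : ∑ c ∈ S, ‖dk H ((c : ℝ) / q + (b : ℝ) / d)‖ ^ 2 = ∑ c ∈ S, ‖dk H (th c)‖ ^ 2 := rfl
  rw [e]
  rcases le_total ((q : ℝ) ^ 2) (q * H) with hc | hc
  · rw [min_eq_left hc]
    refine b1.trans ?_
    rw [hA]
    have : 0 ≤ (q : ℝ) ^ 2 * (d : ℝ) ^ 2 := by positivity
    nlinarith
  · rw [min_eq_right hc]
    refine b2.trans ?_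
    rw [hA]
    have h1 : (0 : ℝ) ≤ q * H := by positivity
    nlinarith [mul_le_mul_of_nonneg_left hdd h1, mul_nonneg h1 (sq_nonneg (d : ℝ))]

end Pool.Agent.H88.PSI

end
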