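import Pool.Agent.H43.PJ.M09
import Pool.Agent.H43.PJ.M60
import Pool.Agent.H43.PJ.M67
import Pool.Agent.H43.PJ.M72

/-! The parts of this file: H88.PSI.Ems, H88.PSI.Dls, H88.PSI.Tls, H88.PSI.Tmax, H88.PSI.Hux, H88.PSI.Lvk, H88.PSI.Lvs. -/

section

/-!
# PSI Ems: finite Fourier expansion of the error terms `em`, grouped by reduced fractions

`[m ∣ n] = (1/m) ∑_{a<m} ee(n a/m)`, `[n ≡ u (d)] = (1/d) ∑_{b<d} ee(b(n-u)/d)`; the term `a = b = 0` is `H/(m d)`;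
`∑_{x<n≤x+H} ee(nθ) = ee(xθ) dk H θ`.  Then `a/m = c/q` reduced (`q = m/(a,m)`, `c ∈ [1, q]`, `(c, q) = 1`; `a = 0` is `q = 1, c = 1`; all functions
have period 1).
-/

set_option autoImplicit false

namespace Pool.Agent.H88.PSI

open Finset
open Pool.Agent.H91.PK (ee)

private theorem ems_int (k : ℤ) : ee (k : ℝ) = 1 := by
  unfold ee
  rw [Complex.exp_eq_one_iff]
  exact ⟨k, by push_cast; ring⟩

private theorem ems_nat (k : ℕ) : ee (k : ℝ) = 1 := by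
  have := ems_int (k : ℤ)
  simpa using this

private theorem ems_eq_one {t : ℝ} (h : ee t = 1) : ∃ k : ℤ, t = k := by
  unfold ee at h
  rw [Complex.exp_eq_one_iff] at h
  obtain ⟨k, hk⟩ := h
  refine ⟨k, ?_⟩
  have h1 : ((2 * Real.pi * t : ℝ) : ℂ) * Complex.I = ((2 * Real.pi * k : ℝ) : ℂ) * Complex.I := by
    push_cast
    rw [hk]
    ring
  have h2 := mul_right_cancel₀ Complex.I_ne_zero h1
  have h3 : 2 * Real.pi * t = 2 * Real.pi * k := by exact_mod_cast h2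
  exact mul_left_cancel₀ (by positivity) h3

private theorem ems_pow (t : ℝ) (n : ℕ) : ee t ^ n = ee (n * t) := by
  unfold ee
  rw [← Complex.exp_nat_mul]
  congr 1
  push_cast
  ring

private theorem ems_ortho (d : ℕ) (hd : 1 ≤ d) (k : ℤ) :
    ∑ b ∈ range d, ee ((b : ℝ) * k / d) = if (d : ℤ) ∣ k then (d : ℂ) else 0 := by
  have hd0 : (d : ℝ) ≠ 0 := by
    have : d ≠ 0 := by omega
    exact_mod_cast this
  have h1 : ∀ b ∈ range d, ee ((b : ℝ) * k / d) = ee ((k : ℝ) / d) ^ b := by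
    intro b _
    rw [ems_pow]
    congr 1
    ring
  rw [sum_congr rfl h1]
  split_ifs with h
  · obtain ⟨j, rfl⟩ := h
    have h2 : ee (((d : ℤ) * j : ℤ) / (d : ℝ)) = 1 := by
      have h3 : (((d : ℤ) * j : ℤ) : ℝ) / (d : ℝ) = (j : ℝ) := by
        push_cast
        field_simp
      rw [h3, ems_int]
    rw [h2]
    simp
  · have h2 : ee ((k : ℝ) / d) ≠ 1 := by
      intro h3
      obtain ⟨j, hj⟩ := ems_eq_one h3
      apply h
      refine ⟨j, ?_⟩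
      rw [div_eq_iff hd0] at hj
      have h4 : (k : ℝ) = ((d : ℤ) * j : ℤ) := by
        push_cast
        rw [hj]
        ring
      exact_mod_cast h4
    have h3 : ee ((k : ℝ) / d) ^ d = 1 := by
      rw [ems_pow]
      have h4 : (d : ℝ) * ((k : ℝ) / d) = k := by field_simp
      rw [h4, ems_int]
    rw [geom_sum_eq h2, h3, sub_self, zero_div]

private theorem ems_Icc (m : ℕ) (hm : 1 ≤ m) (n : ℕ) :
    ∑ a ∈ Icc 1 m, ee ((n : ℝ) * ((a : ℝ) / m)) = if m ∣ n then (m : ℂ) else 0 := by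
  have hm0 : (m : ℝ) ≠ 0 := by
    have : m ≠ 0 := by omega
    exact_mod_cast this
  have h1 : ∑ a ∈ Icc 1 m, ee ((n : ℝ) * ((a : ℝ) / m)) =
      ∑ a ∈ range m, ee ((a : ℝ) * ((n : ℤ) : ℝ) / m) := by
    have h2 : ∑ a ∈ range (m + 1), ee ((n : ℝ) * ((a : ℝ) / m)) =
        ∑ a ∈ Icc 1 m, ee ((n : ℝ) * ((a : ℝ) / m)) + ee ((n : ℝ) * (((0 : ℕ) : ℝ) / m)) := by
      rw [sum_range_succ', Finset.range_eq_Ico, Finset.sum_Ico_add' (fun a : ℕ =>
        ee ((n : ℝ) * ((a : ℝ) / m))) 0 m 1]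
      congr 1
    rw [sum_range_succ] at h2
    have h3 : ee ((n : ℝ) * (((0 : ℕ) : ℝ) / m)) = 1 := by
      have : (n : ℝ) * (((0 : ℕ) : ℝ) / m) = ((0 : ℤ) : ℝ) := by simp
      rw [this, ems_int]
    have h4 : ee ((n : ℝ) * ((m : ℝ) / m)) = 1 := by
      rw [div_self hm0, mul_one, ems_nat]
    rw [h3, h4] at h2
    have h5 := add_right_cancel h2
    rw [← h5]
    refine sum_congr rfl fun a _ => ?_
    congr 1
    push_cast
    ring
  rw [h1, ems_ortho m hm]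
  simp only [Int.natCast_dvd_natCast]

private theorem ems_group (m : ℕ) (hm : 1 ≤ m) (G : ℕ → ℕ → ℂ) :
    ∑ a ∈ Icc 1 m, G (m / Nat.gcd a m) (a / Nat.gcd a m) =
      ∑ q ∈ m.divisors, ∑ c ∈ (Icc 1 q).filter (fun c => Nat.Coprime c q), G q c := by
  rw [sum_sigma']
  refine sum_nbij' (fun a => (⟨m / Nat.gcd a m, a / Nat.gcd a m⟩ : Σ _ : ℕ, ℕ))
    (fun p => p.2 * (m / p.1)) ?_ ?_ ?_ ?_ ?_
  · intro a ha
    rw [mem_Icc] at ha
    rw [mem_sigma, Nat.mem_divisors, mem_filter, mem_Icc]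
    have hg : 0 < Nat.gcd a m := Nat.gcd_pos_of_pos_left _ ha.1
    refine ⟨⟨Nat.div_dvd_of_dvd (Nat.gcd_dvd_right a m), by omega⟩, ⟨?_, ?_⟩, ?_⟩
    · exact Nat.div_pos (Nat.le_of_dvd ha.1 (Nat.gcd_dvd_left a m)) hg
    · exact Nat.div_le_div_right ha.2
    · exact Nat.coprime_div_gcd_div_gcd hg
  · rintro ⟨q, c⟩ h
    rw [mem_sigma, Nat.mem_divisors, mem_filter, mem_Icc] at h
    obtain ⟨⟨h1, -⟩, ⟨h2, h3⟩, -⟩ := h
    dsimp only at h1 h2 h3 ⊢
    rw [mem_Icc]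
    have hq : 0 < q := by omega
    have hmq : 0 < m / q := Nat.div_pos (Nat.le_of_dvd hm h1) hq
    refine ⟨Nat.mul_pos h2 hmq, ?_⟩
    calc c * (m / q) ≤ q * (m / q) := Nat.mul_le_mul_right _ h3
      _ = m := Nat.mul_div_cancel' h1
  · intro a ha
    rw [mem_Icc] at ha
    have hg : 0 < Nat.gcd a m := Nat.gcd_pos_of_pos_left _ ha.1
    dsimp only
    rw [Nat.div_div_self (Nat.gcd_dvd_right a m) (by omega)]
    exact Nat.div_mul_cancel (Nat.gcd_dvd_left a m)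
  · rintro ⟨q, c⟩ h
    rw [mem_sigma, Nat.mem_divisors, mem_filter, mem_Icc] at h
    obtain ⟨⟨h1, -⟩, ⟨h2, h3⟩, h4⟩ := h
    dsimp only at h1 h2 h3 h4 ⊢
    have hq : 0 < q := by omega
    have hmq : 0 < m / q := Nat.div_pos (Nat.le_of_dvd hm h1) hq
    have hgcd : Nat.gcd (c * (m / q)) m = m / q := by
      conv_lhs => rw [← Nat.mul_div_cancel' h1]
      rw [Nat.mul_div_cancel_left (m / q) hq, Nat.gcd_mul_right, h4, one_mul]
    rw [hgcd, Nat.div_div_self h1 (by omega), Nat.mul_div_cancel _ hmq]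
  · intro a _
    rfl

private theorem ems_dk (H x : ℕ) (θ : ℝ) :
    ∑ n ∈ Ioc x (x + H), ee ((n : ℝ) * θ) = ee ((x : ℝ) * θ) * dk H θ := by
  unfold dk
  rw [mul_sum]
  have h1 : Ioc x (x + H) = (Icc 1 H).image (fun j => x + j) := by
    ext n
    rw [mem_Ioc, mem_image]
    constructor
    · rintro ⟨h1, h2⟩
      exact ⟨n - x, mem_Icc.2 ⟨by omega, by omega⟩, by omega⟩
    · rintro ⟨j, hj, rfl⟩
      rw [mem_Icc] at hj
      omega
  rw [h1, sum_image (fun a _ b _ h => Nat.add_left_cancel h)]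
  refine sum_congr rfl fun j _ => ?_
  rw [← Pool.Agent.H91.PK.LSa_ee_add]
  congr 1
  push_cast
  ring

private theorem ems_cong (d : ℕ) (n u : ℕ) : ((d : ℤ) ∣ (n : ℤ) - u) ↔ n % d = u % d := by
  constructor
  · intro h
    have h1 : u ≡ n [MOD d] := (Nat.modEq_iff_dvd).2 h
    exact h1.symm
  · intro h
    exact (Nat.modEq_iff_dvd).1 (show u ≡ n [MOD d] from h.symm)

private theorem ems_one (d u H m x : ℕ) (hd : 1 ≤ d) (hm : 1 ≤ m) :
    ((em d u H m x : ℝ) : ℂ) * m = 1 / (d : ℂ) * ∑ b ∈ range d, ee (-((b : ℝ) * u / d)) *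
      (ee ((x : ℝ) * b / d) * ∑ q ∈ m.divisors, ∑ c ∈ (Icc 1 q).filter (fun c => Nat.Coprime c q),
        (if q = 1 ∧ b = 0 then 0 else dk H ((c : ℝ) / q + (b : ℝ) / d)) *
          ee ((x : ℝ) * c / q)) := by
  have hd0 : (d : ℂ) ≠ 0 := by
    have : d ≠ 0 := by omega
    exact_mod_cast this
  have hdr : (d : ℝ) ≠ 0 := by
    have : d ≠ 0 := by omega
    exact_mod_cast this
  have hm0 : (m : ℂ) ≠ 0 := by
    have : m ≠ 0 := by omega
    exact_mod_cast this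
  set E : ℝ → ℂ := fun θ => ∑ n ∈ Ioc x (x + H), ee ((n : ℝ) * θ) with hE
  -- the inner double sum
  have h1 : ∀ b ∈ range d, ee ((x : ℝ) * b / d) * ∑ q ∈ m.divisors,
      ∑ c ∈ (Icc 1 q).filter (fun c => Nat.Coprime c q),
        (if q = 1 ∧ b = 0 then 0 else dk H ((c : ℝ) / q + (b : ℝ) / d)) * ee ((x : ℝ) * c / q) =
      (∑ a ∈ Icc 1 m, E ((a : ℝ) / m + (b : ℝ) / d)) - if b = 0 then (H : ℂ) else 0 := by
    intro b _
    have h2 : ∑ a ∈ Icc 1 m, E ((a : ℝ) / m + (b : ℝ) / d) =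
        ∑ q ∈ m.divisors, ∑ c ∈ (Icc 1 q).filter (fun c => Nat.Coprime c q),
          E ((c : ℝ) / q + (b : ℝ) / d) := by
      rw [← ems_group m hm fun q c => E ((c : ℝ) / q + (b : ℝ) / d)]
      refine sum_congr rfl fun a ha => ?_
      rw [mem_Icc] at ha
      have hg : 0 < Nat.gcd a m := Nat.gcd_pos_of_pos_left _ ha.1
      have hg0 : ((Nat.gcd a m : ℕ) : ℝ) ≠ 0 := by exact_mod_cast hg.ne'
      have e1 : (a : ℝ) / m = ((a / Nat.gcd a m : ℕ) : ℝ) / ((m / Nat.gcd a m : ℕ) : ℝ) := by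
        rw [Nat.cast_div (Nat.gcd_dvd_left a m) hg0, Nat.cast_div (Nat.gcd_dvd_right a m) hg0]
        field_simp
      rw [e1]
    have h3 : ∀ q ∈ m.divisors, ∀ c ∈ (Icc 1 q).filter (fun c => Nat.Coprime c q),
        ee ((x : ℝ) * b / d) * ((if q = 1 ∧ b = 0 then 0 else
          dk H ((c : ℝ) / q + (b : ℝ) / d)) * ee ((x : ℝ) * c / q)) =
        E ((c : ℝ) / q + (b : ℝ) / d) - if q = 1 ∧ b = 0 then (H : ℂ) else 0 := by
      intro q _ c hc
      rw [mem_filter, mem_Icc] at hc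
      have h4 : E ((c : ℝ) / q + (b : ℝ) / d) = ee ((x : ℝ) * ((c : ℝ) / q + (b : ℝ) / d)) *
          dk H ((c : ℝ) / q + (b : ℝ) / d) := ems_dk H x _
      split_ifs with h5
      · obtain ⟨rfl, rfl⟩ := h5
        have hc1 : c = 1 := by omega
        subst hc1
        have h6 : E ((((1 : ℕ) : ℝ)) / ((1 : ℕ) : ℝ) + ((0 : ℕ) : ℝ) / d) = H := by
          simp only [hE]
          have h7 : ∀ n ∈ Ioc x (x + H), ee ((n : ℝ) *
              ((((1 : ℕ) : ℝ)) / ((1 : ℕ) : ℝ) + ((0 : ℕ) : ℝ) / d)) = 1 := by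
            intro n _
            have h8 : (n : ℝ) * ((((1 : ℕ) : ℝ)) / ((1 : ℕ) : ℝ) + ((0 : ℕ) : ℝ) / d) = n := by
              simp
            rw [h8, ems_nat]
          rw [sum_congr rfl h7]
          simp
        rw [h6, zero_mul, mul_zero, sub_self]
      · rw [h4, sub_zero]
        have h6 : ee ((x : ℝ) * ((c : ℝ) / q + (b : ℝ) / d)) =
            ee ((x : ℝ) * b / d) * ee ((x : ℝ) * c / q) := by
          rw [← Pool.Agent.H91.PK.LSa_ee_add]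
          congr 1
          ring
        rw [h6]
        ring
    rw [mul_sum, h2]
    have h4 : ∀ q ∈ m.divisors, ee ((x : ℝ) * b / d) *
        ∑ c ∈ (Icc 1 q).filter (fun c => Nat.Coprime c q),
        (if q = 1 ∧ b = 0 then 0 else dk H ((c : ℝ) / q + (b : ℝ) / d)) * ee ((x : ℝ) * c / q) =
        (∑ c ∈ (Icc 1 q).filter (fun c => Nat.Coprime c q), E ((c : ℝ) / q + (b : ℝ) / d)) -
          if q = 1 ∧ b = 0 then (H : ℂ) else 0 := by
      intro q hq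
      rw [mul_sum, sum_congr rfl (h3 q hq), sum_sub_distrib]
      congr 1
      by_cases h5 : q = 1 ∧ b = 0
      · obtain ⟨rfl, rfl⟩ := h5
        have h6 : (Icc 1 1).filter (fun c => Nat.Coprime c 1) = {1} := by decide
        rw [h6, sum_singleton]
      · simp [h5]
    rw [sum_congr rfl h4, sum_sub_distrib]
    congr 1
    by_cases hb : b = 0
    · rw [if_pos hb]
      have h5 : ∀ q ∈ m.divisors, (if q = 1 ∧ b = 0 then (H : ℂ) else 0) =
          if q = 1 then (H : ℂ) else 0 := fun q _ => by simp [hb]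
      rw [sum_congr rfl h5, sum_ite_eq' m.divisors 1 fun _ => (H : ℂ)]
      rw [if_pos (Nat.one_mem_divisors.2 (by omega))]
    · rw [if_neg hb]
      refine sum_eq_zero fun q _ => ?_
      rw [if_neg (fun h => hb h.2)]
  have h2 : ∑ b ∈ range d, ee (-((b : ℝ) * u / d)) *
      (ee ((x : ℝ) * b / d) * ∑ q ∈ m.divisors, ∑ c ∈ (Icc 1 q).filter (fun c => Nat.Coprime c q),
        (if q = 1 ∧ b = 0 then 0 else dk H ((c : ℝ) / q + (b : ℝ) / d)) *
          ee ((x : ℝ) * c / q)) =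
      (∑ b ∈ range d, ee (-((b : ℝ) * u / d)) * ∑ a ∈ Icc 1 m, E ((a : ℝ) / m + (b : ℝ) / d)) -
        H := by
    have h3 : ∀ b ∈ range d, ee (-((b : ℝ) * u / d)) *
      (ee ((x : ℝ) * b / d) * ∑ q ∈ m.divisors, ∑ c ∈ (Icc 1 q).filter (fun c => Nat.Coprime c q),
        (if q = 1 ∧ b = 0 then 0 else dk H ((c : ℝ) / q + (b : ℝ) / d)) *
          ee ((x : ℝ) * c / q)) =
        ee (-((b : ℝ) * u / d)) * ∑ a ∈ Icc 1 m, E ((a : ℝ) / m + (b : ℝ) / d) -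
          (if b = 0 then (H : ℂ) else 0) := by
      intro b hb
      rw [h1 b hb, mul_sub]
      congr 1
      split_ifs with h4
      · subst h4
        have h5 : ee (-(((0 : ℕ) : ℝ) * u / d)) = 1 := by
          have : (-(((0 : ℕ) : ℝ) * u / d)) = ((0 : ℤ) : ℝ) := by simp
          rw [this, ems_int]
        rw [h5, one_mul]
      · rw [mul_zero]
    rw [sum_congr rfl h3, sum_sub_distrib, sum_ite_eq' (range d) 0 fun _ => (H : ℂ),
      if_pos (mem_range.2 (by omega))]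
  have h3 : ∑ b ∈ range d, ee (-((b : ℝ) * u / d)) * ∑ a ∈ Icc 1 m, E ((a : ℝ) / m + (b : ℝ) / d) =
      ∑ n ∈ Ioc x (x + H), (if n % d = u % d then (d : ℂ) else 0) *
        (if m ∣ n then (m : ℂ) else 0) := by
    have h4 : ∀ b ∈ range d, ee (-((b : ℝ) * u / d)) *
        ∑ a ∈ Icc 1 m, E ((a : ℝ) / m + (b : ℝ) / d) =
        ∑ n ∈ Ioc x (x + H), ee ((b : ℝ) * (((n : ℤ) - u : ℤ) : ℝ) / d) *
          ∑ a ∈ Icc 1 m, ee ((n : ℝ) * ((a : ℝ) / m)) := by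
      intro b _
      simp only [hE]
      rw [sum_comm, mul_sum]
      refine sum_congr rfl fun n _ => ?_
      rw [mul_sum, mul_sum]
      refine sum_congr rfl fun a _ => ?_
      rw [← Pool.Agent.H91.PK.LSa_ee_add, ← Pool.Agent.H91.PK.LSa_ee_add]
      congr 1
      push_cast
      ring
    rw [sum_congr rfl h4, sum_comm]
    refine sum_congr rfl fun n _ => ?_
    rw [← sum_mul, ems_ortho d hd, ems_Icc m hm]
    congr 1
    exact if_congr (ems_cong d n u) rfl rfl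
  rw [h2, h3]
  have h4 : ∑ n ∈ Ioc x (x + H), (if n % d = u % d then (d : ℂ) else 0) *
        (if m ∣ n then (m : ℂ) else 0) = (d : ℂ) * m * cnt d u H m x := by
    unfold cnt
    rw [card_eq_sum_ones, sum_filter]
    push_cast
    rw [mul_sum]
    refine sum_congr rfl fun n _ => ?_
    by_cases a1 : m ∣ n
    · by_cases a2 : n % d = u % d
      · simp [a1, a2]
      · simp [a2]
    · simp [a1]
  rw [h4]
  unfold em
  push_cast
  field_simp

theorem em_sum (d u H M x : ℕ) (hd : 1 ≤ d) (S : Finset ℕ) (hS : S ⊆ Icc 1 M) (a : ℕ → ℝ) :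
    ((∑ m ∈ S, a m * em d u H m x : ℝ) : ℂ)
      = 1 / (d : ℂ) * ∑ b ∈ range d, ee (-((b : ℝ) * u / d)) * (ee ((x : ℝ) * b / d) *
        ∑ q ∈ Icc 1 M, ∑ c ∈ (Icc 1 q).filter (fun c => Nat.Coprime c q),
          (if q = 1 ∧ b = 0 then 0 else
            ((∑ m ∈ S.filter (fun m => q ∣ m), a m / m : ℝ) : ℂ) *
              dk H ((c : ℝ) / q + (b : ℝ) / d)) * ee ((x : ℝ) * c / q)) := by
  have hm : ∀ m ∈ S, 1 ≤ m := fun m hm => (mem_Icc.1 (hS hm)).1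
  have h1 : ∀ m ∈ S, ((a m * em d u H m x : ℝ) : ℂ) = 1 / (d : ℂ) * ∑ b ∈ range d,
      ee (-((b : ℝ) * u / d)) * (ee ((x : ℝ) * b / d) * ∑ q ∈ m.divisors, ((a m / m : ℝ) : ℂ) *
        ∑ c ∈ (Icc 1 q).filter (fun c => Nat.Coprime c q),
        (if q = 1 ∧ b = 0 then 0 else dk H ((c : ℝ) / q + (b : ℝ) / d)) *
          ee ((x : ℝ) * c / q)) := by
    intro m hmS
    have h2 := ems_one d u H m x hd (hm m hmS)
    have hm0 : (m : ℂ) ≠ 0 := by
      have : m ≠ 0 := by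
        have := hm m hmS
        omega
      exact_mod_cast this
    have h3 : ((a m * em d u H m x : ℝ) : ℂ) = ((a m / m : ℝ) : ℂ) *
        (((em d u H m x : ℝ) : ℂ) * m) := by
      push_cast
      field_simp
    rw [h3, h2, mul_left_comm]
    congr 1
    rw [mul_sum]
    refine sum_congr rfl fun b _ => ?_
    rw [← mul_sum]
    ring
  rw [Complex.ofReal_sum, sum_congr rfl h1, ← mul_sum, sum_comm]
  congr 1
  refine sum_congr rfl fun b _ => ?_
  rw [← mul_sum, ← mul_sum]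
  congr 2
  -- exchange of `m` and `q`
  set T : ℕ → ℂ := fun q => ∑ c ∈ (Icc 1 q).filter (fun c => Nat.Coprime c q),
        (if q = 1 ∧ b = 0 then 0 else dk H ((c : ℝ) / q + (b : ℝ) / d)) *
          ee ((x : ℝ) * c / q) with hT
  have h4 : ∀ m ∈ S, ∑ q ∈ m.divisors, ((a m / m : ℝ) : ℂ) * T q =
      ∑ q ∈ Icc 1 M, if q ∣ m then ((a m / m : ℝ) : ℂ) * T q else 0 := by
    intro m hmS
    rw [← sum_filter]
    refine sum_congr ?_ fun _ _ => rfl
    ext q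
    rw [Nat.mem_divisors, mem_filter, mem_Icc]
    have h5 := mem_Icc.1 (hS hmS)
    constructor
    · rintro ⟨h6, -⟩
      have h7 := Nat.le_of_dvd h5.1 h6
      exact ⟨⟨Nat.pos_of_dvd_of_pos h6 h5.1, by omega⟩, h6⟩
    · rintro ⟨-, h6⟩
      exact ⟨h6, by omega⟩
  rw [sum_congr rfl h4, sum_comm]
  refine sum_congr rfl fun q _ => ?_
  have h5 : ∑ m ∈ S, (if q ∣ m then ((a m / m : ℝ) : ℂ) * T q else 0) =
      ((∑ m ∈ S.filter (fun m => q ∣ m), a m / m : ℝ) : ℂ) * T q := by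
    rw [← sum_filter, Complex.ofReal_sum, sum_mul]
  rw [h5, hT, mul_sum]
  refine sum_congr rfl fun c _ => ?_
  split_ifs with h6
  · ring
  · ring

end Pool.Agent.H88.PSI

end

section

/-!
# PSI Dls: the dual form of the additive large sieve

Duality from `Pool.Agent.H91.PK.additive_ls` (`Pool/Agent/H91/PK/LSa.lean`): put `S x` = inner sum; `∑_x |S x|^2 = ∑_{q,b} c q b ∑_x conj(S x) ee(x b/q)`,
Cauchy-Schwarz, `additive_ls` with `a x = conj (S x)`.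
-/

set_option autoImplicit false

namespace Pool.Agent.H88.PSI

open Finset
open Pool.Agent.H91.PK (ee)

theorem dual_ls (M K0 K : ℕ) (c : ℕ → ℕ → ℂ) :
    ∑ x ∈ Ioc K0 (K0 + K), ‖∑ q ∈ Icc 1 M, ∑ b ∈ (Icc 1 q).filter (fun b => Nat.Coprime b q),
        c q b * ee ((x : ℝ) * b / q)‖ ^ 2
      ≤ ((M : ℝ) ^ 2 + Real.pi * K) *
        ∑ q ∈ Icc 1 M, ∑ b ∈ (Icc 1 q).filter (fun b => Nat.Coprime b q), ‖c q b‖ ^ 2 := by
  obtain ⟨J, hJ⟩ : ∃ J : Finset (Σ _ : ℕ, ℕ),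
      J = (Icc 1 M).sigma (fun q => (Icc 1 q).filter (fun b => Nat.Coprime b q)) := ⟨_, rfl⟩
  obtain ⟨S, hS⟩ : ∃ S : ℕ → ℂ, S = fun x : ℕ => ∑ q ∈ Icc 1 M,
      ∑ b ∈ (Icc 1 q).filter (fun b => Nat.Coprime b q), c q b * ee ((x : ℝ) * b / q) := ⟨_, rfl⟩
  have hSJ : ∀ x, S x = ∑ j ∈ J, c j.1 j.2 * ee ((x : ℝ) * j.2 / j.1) := by
    intro x
    rw [hS, hJ, Finset.sum_sigma]
  have hls := Pool.Agent.H91.PK.additive_ls M K0 K (fun x => (starRingEnd ℂ) (S x))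
  have hnc : ∀ x, ‖(starRingEnd ℂ) (S x)‖ = ‖S x‖ := fun x => RCLike.norm_conj (S x)
  simp only [hnc] at hls
  have hls' : ∑ j ∈ J, ‖∑ n ∈ Ioc K0 (K0 + K), (starRingEnd ℂ) (S n) * ee ((n : ℝ) * j.2 / j.1)‖ ^ 2 ≤
      ((M : ℝ) ^ 2 + Real.pi * K) * ∑ n ∈ Ioc K0 (K0 + K), ‖S n‖ ^ 2 := by
    rw [hJ, Finset.sum_sigma]
    exact hls
  have hgoal : ∑ q ∈ Icc 1 M, ∑ b ∈ (Icc 1 q).filter (fun b => Nat.Coprime b q), ‖c q b‖ ^ 2 =
      ∑ j ∈ J, ‖c j.1 j.2‖ ^ 2 := by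
    rw [hJ, Finset.sum_sigma]
  have hlhs : ∑ x ∈ Ioc K0 (K0 + K), ‖∑ q ∈ Icc 1 M, ∑ b ∈ (Icc 1 q).filter (fun b => Nat.Coprime b q),
        c q b * ee ((x : ℝ) * b / q)‖ ^ 2 = ∑ x ∈ Ioc K0 (K0 + K), ‖S x‖ ^ 2 := by
    rw [hS]
  rw [hgoal, hlhs]
  obtain ⟨T, hT⟩ : ∃ T : ℝ, T = ∑ x ∈ Ioc K0 (K0 + K), ‖S x‖ ^ 2 := ⟨_, rfl⟩
  rw [← hT] at hls' ⊢
  have hT0 : 0 ≤ T := by
    rw [hT]
    exact Finset.sum_nonneg fun _ _ => sq_nonneg _
  have hTc : (T : ℂ) = ∑ j ∈ J, c j.1 j.2 *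
      ∑ n ∈ Ioc K0 (K0 + K), (starRingEnd ℂ) (S n) * ee ((n : ℝ) * j.2 / j.1) := by
    have h1 : (T : ℂ) = ∑ n ∈ Ioc K0 (K0 + K), (starRingEnd ℂ) (S n) * S n := by
      rw [hT]
      push_cast
      refine Finset.sum_congr rfl fun n _ => ?_
      rw [Complex.conj_mul']
    rw [h1]
    simp only [Finset.mul_sum]
    rw [Finset.sum_comm]
    refine Finset.sum_congr rfl fun n _ => ?_
    conv_lhs => rw [hSJ n, Finset.mul_sum]
    refine Finset.sum_congr rfl fun j _ => ?_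
    rw [← hSJ n]
    ring
  have h2 : T ≤ ∑ j ∈ J, ‖c j.1 j.2‖ *
      ‖∑ n ∈ Ioc K0 (K0 + K), (starRingEnd ℂ) (S n) * ee ((n : ℝ) * j.2 / j.1)‖ := by
    have h3 : T = ‖(T : ℂ)‖ := by
      rw [Complex.norm_real, Real.norm_of_nonneg hT0]
    rw [h3, hTc]
    refine (norm_sum_le _ _).trans (Finset.sum_le_sum fun j _ => ?_)
    rw [norm_mul]
  have h3 : T ^ 2 ≤ (∑ j ∈ J, ‖c j.1 j.2‖ ^ 2) * (((M : ℝ) ^ 2 + Real.pi * K) * T) := by
    calc T ^ 2 ≤ (∑ j ∈ J, ‖c j.1 j.2‖ *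
        ‖∑ n ∈ Ioc K0 (K0 + K), (starRingEnd ℂ) (S n) * ee ((n : ℝ) * j.2 / j.1)‖) ^ 2 :=
          pow_le_pow_left₀ hT0 h2 2
      _ ≤ (∑ j ∈ J, ‖c j.1 j.2‖ ^ 2) * ∑ j ∈ J,
        ‖∑ n ∈ Ioc K0 (K0 + K), (starRingEnd ℂ) (S n) * ee ((n : ℝ) * j.2 / j.1)‖ ^ 2 :=
          Finset.sum_mul_sq_le_sq_mul_sq _ _ _
      _ ≤ _ := mul_le_mul_of_nonneg_left hls' (Finset.sum_nonneg fun _ _ => sq_nonneg _)
  rcases hT0.eq_or_lt with h4 | h4
  · rw [← h4]
    have hpi := Real.pi_pos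
    have h5 : 0 ≤ ∑ j ∈ J, ‖c j.1 j.2‖ ^ 2 := Finset.sum_nonneg fun _ _ => sq_nonneg _
    positivity
  · have h5 : T * T ≤ (((M : ℝ) ^ 2 + Real.pi * K) * ∑ j ∈ J, ‖c j.1 j.2‖ ^ 2) * T := by
      calc T * T = T ^ 2 := by ring
        _ ≤ _ := h3
        _ = _ := by ring
    exact le_of_mul_le_mul_right h5 h4

end Pool.Agent.H88.PSI

end

section

/-!
# PSI Tls: large sieve bound for sums of `em`

`em_sum`, `|(1/d) ∑_b ·|^2 ≤ (1/d) ∑_b |·|^2`, `dual_ls` for every `b` (`Ico X (2X) = Ioc (X-1) (X-1+X)`), `dk_sum` (if `(q, d) > 1` the inner sum over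
`m` is empty as `(m, d) = 1` on `S`).
-/

set_option autoImplicit false

namespace Pool.Agent.H88.PSI

open Finset

open Pool.Agent.H91.PK (ee)

private theorem Tls_norm_ee (t : ℝ) : ‖ee t‖ = 1 := by
  unfold Pool.Agent.H91.PK.ee
  have : (2 * (Real.pi : ℂ) * (t : ℂ) * Complex.I) = ((2 * Real.pi * t : ℝ) : ℂ) * Complex.I := by
    push_cast
    ring
  rw [this, Complex.norm_exp_ofReal_mul_I]

theorem ti_ls (d u H M X : ℕ) (hd : 1 ≤ d) (hH : 1 ≤ H) (hX : 1 ≤ X) (S : Finset ℕ)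
    (hS : S ⊆ Icc 1 M) (hSd : ∀ m ∈ S, Nat.Coprime m d) (a : ℕ → ℝ) :
    ∑ x ∈ Ico X (2 * X), (∑ m ∈ S, a m * em d u H m x) ^ 2
      ≤ 400 * (d : ℝ) ^ 2 * ((M : ℝ) ^ 2 + X) * ∑ q ∈ Icc 1 M,
        (∑ m ∈ S.filter (fun m => q ∣ m), |a m| / m) ^ 2 * min ((q : ℝ) ^ 2) (q * H) := by
  have hdr : (0 : ℝ) < d := by exact_mod_cast hd
  set C : ℕ → ℕ → ℕ → ℂ := fun b q c => if q = 1 ∧ b = 0 then 0 else
            ((∑ m ∈ S.filter (fun m => q ∣ m), a m / m : ℝ) : ℂ) *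
              dk H ((c : ℝ) / q + (b : ℝ) / d) with hC
  set I : ℕ → ℕ → ℂ := fun b x => ∑ q ∈ Icc 1 M, ∑ c ∈ (Icc 1 q).filter (fun c => Nat.Coprime c q),
    C b q c * ee ((x : ℝ) * c / q) with hI
  have h1 : ∀ x : ℕ, (∑ m ∈ S, a m * em d u H m x) ^ 2 ≤ 1 / (d : ℝ) * ∑ b ∈ range d, ‖I b x‖ ^ 2 := by
    intro x
    have e1 := em_sum d u H M x hd S hS a
    have e2 : (∑ m ∈ S, a m * em d u H m x) ^ 2 = ‖((∑ m ∈ S, a m * em d u H m x : ℝ) : ℂ)‖ ^ 2 := by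
      rw [Complex.norm_real, Real.norm_eq_abs, sq_abs]
    rw [e2, e1, norm_mul, mul_pow]
    have e3 : ‖(1 / (d : ℂ))‖ = 1 / (d : ℝ) := by
      rw [norm_div, norm_one, Complex.norm_natCast]
    rw [e3]
    have e4 : ‖∑ b ∈ range d, ee (-((b : ℝ) * u / d)) * (ee ((x : ℝ) * b / d) *
        ∑ q ∈ Icc 1 M, ∑ c ∈ (Icc 1 q).filter (fun c => Nat.Coprime c q),
          (if q = 1 ∧ b = 0 then 0 else
            ((∑ m ∈ S.filter (fun m => q ∣ m), a m / m : ℝ) : ℂ) *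
              dk H ((c : ℝ) / q + (b : ℝ) / d)) * ee ((x : ℝ) * c / q))‖ ≤ ∑ b ∈ range d, ‖I b x‖ := by
      refine (norm_sum_le _ _).trans (le_of_eq ?_)
      refine sum_congr rfl fun b _ => ?_
      rw [norm_mul, norm_mul, Tls_norm_ee, Tls_norm_ee, one_mul, one_mul]
    have e5 : (∑ b ∈ range d, ‖I b x‖) ^ 2 ≤ d * ∑ b ∈ range d, ‖I b x‖ ^ 2 := by
      have := sq_sum_le_card_mul_sum_sq (s := range d) (f := fun b => ‖I b x‖)
      rwa [card_range] at this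
    have e6 := pow_le_pow_left₀ (norm_nonneg _) e4 2
    calc (1 / (d : ℝ)) ^ 2 * _ ≤ (1 / (d : ℝ)) ^ 2 * (d * ∑ b ∈ range d, ‖I b x‖ ^ 2) :=
          mul_le_mul_of_nonneg_left (e6.trans e5) (by positivity)
      _ = 1 / (d : ℝ) * ∑ b ∈ range d, ‖I b x‖ ^ 2 := by
          field_simp
  have hIco : Ico X (2 * X) = Ioc (X - 1) (X - 1 + X) := by
    ext x
    rw [mem_Ico, mem_Ioc]
    omega
  set A : ℕ → ℝ := fun q => (∑ m ∈ S.filter (fun m => q ∣ m), |a m| / m) ^ 2 * min ((q : ℝ) ^ 2) (q * H) with hA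
  have hA0 : ∀ q, 0 ≤ A q := by
    intro q
    rw [hA]
    positivity
  have h2 : ∀ b ∈ range d, ∑ x ∈ Ico X (2 * X), ‖I b x‖ ^ 2 ≤
      ((M : ℝ) ^ 2 + Real.pi * X) * (100 * (d : ℝ) ^ 2 * ∑ q ∈ Icc 1 M, A q) := by
    intro b hb
    have hb' := mem_range.1 hb
    rw [hIco]
    refine (dual_ls M (X - 1) X (C b)).trans ?_
    refine mul_le_mul_of_nonneg_left ?_ (by positivity)
    rw [mul_sum]
    refine sum_le_sum fun q hq => ?_
    have hq' := mem_Icc.1 hq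
    by_cases h0 : q = 1 ∧ b = 0
    · have e1 : ∑ c ∈ (Icc 1 q).filter (fun c => Nat.Coprime c q), ‖C b q c‖ ^ 2 = 0 := by
        refine sum_eq_zero fun c _ => ?_
        rw [hC]
        simp only
        rw [if_pos h0, norm_zero]
        norm_num
      rw [e1]
      exact mul_nonneg (by positivity) (hA0 q)
    · have e1 : ∑ c ∈ (Icc 1 q).filter (fun c => Nat.Coprime c q), ‖C b q c‖ ^ 2 =
          (∑ m ∈ S.filter (fun m => q ∣ m), a m / m) ^ 2 *
            ∑ c ∈ (Icc 1 q).filter (fun c => Nat.Coprime c q), ‖dk H ((c : ℝ) / q + (b : ℝ) / d)‖ ^ 2 := by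
        rw [mul_sum]
        refine sum_congr rfl fun c _ => ?_
        rw [hC]
        simp only
        rw [if_neg h0, norm_mul, mul_pow, Complex.norm_real, Real.norm_eq_abs, sq_abs]
      rw [e1]
      by_cases hqd : Nat.Coprime q d
      · have e2 := dk_sum H q d b hH hq'.1 hd hb' hqd h0
        have e3 : (∑ m ∈ S.filter (fun m => q ∣ m), a m / m) ^ 2 ≤ (∑ m ∈ S.filter (fun m => q ∣ m), |a m| / m) ^ 2 := by
          rw [← sq_abs]
          refine pow_le_pow_left₀ (abs_nonneg _) ?_ 2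
          refine (abs_sum_le_sum_abs _ _).trans (le_of_eq ?_)
          refine sum_congr rfl fun m _ => ?_
          rw [abs_div, Nat.abs_cast]
        calc (∑ m ∈ S.filter (fun m => q ∣ m), a m / m) ^ 2 * _
            ≤ (∑ m ∈ S.filter (fun m => q ∣ m), |a m| / m) ^ 2 * (100 * (d : ℝ) ^ 2 * min ((q : ℝ) ^ 2) (q * H)) :=
              mul_le_mul e3 e2 (sum_nonneg fun _ _ => by positivity) (by positivity)
          _ = 100 * (d : ℝ) ^ 2 * A q := by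
              rw [hA]
              ring
      · have e2 : S.filter (fun m => q ∣ m) = ∅ := by
          rw [filter_eq_empty_iff]
          intro m hm hqm
          exact hqd (Nat.Coprime.coprime_dvd_left hqm (hSd m hm))
        rw [e2, sum_empty]
        have : 0 ≤ 100 * (d : ℝ) ^ 2 * A q := mul_nonneg (by positivity) (hA0 q)
        linarith
  have h3 : ∑ x ∈ Ico X (2 * X), (∑ m ∈ S, a m * em d u H m x) ^ 2 ≤
      1 / (d : ℝ) * ∑ b ∈ range d, ∑ x ∈ Ico X (2 * X), ‖I b x‖ ^ 2 := by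
    refine (sum_le_sum fun x _ => h1 x).trans (le_of_eq ?_)
    rw [← mul_sum, sum_comm]
  refine h3.trans ?_
  have h4 := sum_le_sum h2
  rw [sum_const, card_range, nsmul_eq_mul] at h4
  have hs0 : 0 ≤ ∑ q ∈ Icc 1 M, A q := sum_nonneg fun q _ => hA0 q
  calc 1 / (d : ℝ) * ∑ b ∈ range d, ∑ x ∈ Ico X (2 * X), ‖I b x‖ ^ 2
      ≤ 1 / (d : ℝ) * (d * (((M : ℝ) ^ 2 + Real.pi * X) * (100 * (d : ℝ) ^ 2 * ∑ q ∈ Icc 1 M, A q))) :=
        mul_le_mul_of_nonneg_left h4 (by positivity)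
    _ = ((M : ℝ) ^ 2 + Real.pi * X) * (100 * (d : ℝ) ^ 2 * ∑ q ∈ Icc 1 M, A q) := by
        field_simp
    _ ≤ (4 * ((M : ℝ) ^ 2 + X)) * (100 * (d : ℝ) ^ 2 * ∑ q ∈ Icc 1 M, A q) := by
        refine mul_le_mul_of_nonneg_right ?_ (by positivity)
        have hpi := Real.pi_le_four
        have hX0 : (0 : ℝ) ≤ X := Nat.cast_nonneg X
        nlinarith [sq_nonneg (M : ℝ)]
    _ = 400 * (d : ℝ) ^ 2 * ((M : ℝ) ^ 2 + X) * ∑ q ∈ Icc 1 M, A q := by ring

end Pool.Agent.H88.PSI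

end

section

/-!
# PSI Tmax: maximal version of `ti_ls`

`bin_dec` for `f m = a m em(m)` (`m ≤ M`, `(m, d) = 1`, else `0`) and `M' x + 1 < 2^r`; `ti_ls` for every block; for fixed `l` the blocks are disjoint, so
`∑_J (∑_{m ∈ J, q ∣ m} |a m|/m)^2 ≤ (∑_{m ≤ M, q ∣ m} |a m|/m)^2 ≤ (Q (1 + log M)/q)^2`; `∑_q min(q^2, qH)/q^2 ≤ H + H (1 + log M)`.
-/

set_option autoImplicit false

namespace Pool.Agent.H88.PSI

open Finset

private theorem Tmax_harm (n : ℕ) : ∑ k ∈ Icc 1 n, 1 / (k : ℝ) ≤ 1 + Real.log n := by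
  have h := harmonic_le_one_add_log n
  have e : ((harmonic n : ℚ) : ℝ) = ∑ k ∈ Icc 1 n, 1 / (k : ℝ) := by
    rw [harmonic_eq_sum_Icc]
    push_cast
    exact Finset.sum_congr rfl fun k _ => by rw [one_div]
  rw [← e]
  exact h

private theorem Tmax_mult (M q : ℕ) (hq : 1 ≤ q) :
    ∑ m ∈ (Icc 1 M).filter (fun m => q ∣ m), 1 / (m : ℝ) ≤ (1 + Real.log M) / q := by
  have h1 : (Icc 1 M).filter (fun m => q ∣ m) ⊆ (Icc 1 M).image (fun k => q * k) := by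
    intro m hm
    rw [mem_filter, mem_Icc] at hm
    obtain ⟨⟨hm1, hm2⟩, k, rfl⟩ := hm
    rw [mem_image]
    refine ⟨k, ?_, rfl⟩
    rw [mem_Icc]
    constructor
    · rcases Nat.eq_zero_or_pos k with h | h
      · subst h; simp at hm1
      · exact h
    · exact le_trans (Nat.le_mul_of_pos_left k hq) hm2
  calc ∑ m ∈ (Icc 1 M).filter (fun m => q ∣ m), 1 / (m : ℝ)
      ≤ ∑ m ∈ (Icc 1 M).image (fun k => q * k), 1 / (m : ℝ) :=
        Finset.sum_le_sum_of_subset_of_nonneg h1 fun _ _ _ => by positivity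
    _ = ∑ k ∈ Icc 1 M, 1 / ((q * k : ℕ) : ℝ) := by
        rw [Finset.sum_image]
        intro x _ y _ hxy
        exact Nat.eq_of_mul_eq_mul_left hq hxy
    _ = (∑ k ∈ Icc 1 M, 1 / (k : ℝ)) / q := by
        rw [Finset.sum_div]
        refine Finset.sum_congr rfl fun k _ => ?_
        rw [Nat.cast_mul, div_div, mul_comm]
    _ ≤ (1 + Real.log M) / q := by
        gcongr
        exact Tmax_harm M

private theorem Tmax_sq {ι : Type*} (s : Finset ι) (g : ι → ℝ) (hg : ∀ i ∈ s, 0 ≤ g i) :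
    ∑ i ∈ s, g i ^ 2 ≤ (∑ i ∈ s, g i) ^ 2 := by
  calc ∑ i ∈ s, g i ^ 2 ≤ ∑ i ∈ s, g i * ∑ j ∈ s, g j := by
        refine Finset.sum_le_sum fun i hi => ?_
        rw [sq]
        exact mul_le_mul_of_nonneg_left (Finset.single_le_sum hg hi) (hg i hi)
    _ = _ := by rw [← Finset.sum_mul, sq]

theorem ti_max (d u H M X r : ℕ) (hd : 1 ≤ d) (hH : 1 ≤ H) (hX : 1 ≤ X) (hM : 1 ≤ M)
    (hr : M + 1 < 2 ^ r) (a : ℕ → ℝ) (Q : ℝ) (ha : ∀ m ∈ Icc 1 M, |a m| ≤ Q) (M' : ℕ → ℕ)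
    (hM' : ∀ x, M' x ≤ M) :
    ∑ x ∈ Ico X (2 * X),
        (∑ m ∈ (Icc 1 (M' x)).filter (fun m => Nat.Coprime m d), a m * em d u H m x) ^ 2
      ≤ 1000 * (r : ℝ) ^ 2 * (d : ℝ) ^ 2 * ((M : ℝ) ^ 2 + X) * Q ^ 2 * (1 + Real.log M) ^ 3 * H := by
  classical
  have hQ0 : 0 ≤ Q := (abs_nonneg _).trans (ha 1 (mem_Icc.mpr ⟨le_rfl, hM⟩))
  have hMr : (1 : ℝ) ≤ M := by exact_mod_cast hM
  have hlog0 : 0 ≤ Real.log M := Real.log_nonneg hMr
  set Λ : ℝ := 1 + Real.log M with hΛ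
  have hΛ0 : 0 ≤ Λ := by linarith
  set T : Finset ℕ := (Icc 1 M).filter (fun m => Nat.Coprime m d) with hT
  set f : ℕ → ℕ → ℝ := fun x m => if m ∈ T then a m * em d u H m x else 0 with hf
  -- the blocks
  set SJ : ℕ → ℕ → Finset ℕ := fun l j => T.filter (fun m => m / 2 ^ l = j) with hSJ
  have hblock : ∀ x l j, ∑ m ∈ Ico (j * 2 ^ l) ((j + 1) * 2 ^ l), f x m =
      ∑ m ∈ SJ l j, a m * em d u H m x := by
    intro x l j
    rw [hf, hSJ]
    simp only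
    rw [← Finset.sum_filter]
    refine Finset.sum_congr ?_ fun _ _ => rfl
    ext m
    simp only [mem_filter, mem_Ico]
    rw [Nat.div_eq_iff (by positivity)]
    constructor
    · rintro ⟨⟨h1, h2⟩, h3⟩
      refine ⟨h3, ?_, ?_⟩
      · linarith
      · have : (j + 1) * 2 ^ l = j * 2 ^ l + 2 ^ l := by ring
        omega
    · rintro ⟨h3, h1, h2⟩
      refine ⟨⟨?_, ?_⟩, h3⟩
      · linarith
      · have h4 : (j + 1) * 2 ^ l = j * 2 ^ l + 2 ^ l := by ring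
        have h5 : 0 < 2 ^ l := by positivity
        omega
  have hinit : ∀ x, ∑ m ∈ (Icc 1 (M' x)).filter (fun m => Nat.Coprime m d), a m * em d u H m x =
      ∑ m ∈ range (M' x + 1), f x m := by
    intro x
    rw [hf]
    simp only
    rw [← Finset.sum_filter]
    refine Finset.sum_congr ?_ fun _ _ => rfl
    ext m
    simp only [hT, mem_filter, mem_range, mem_Icc]
    have := hM' x
    constructor
    · rintro ⟨⟨h1, h2⟩, h3⟩
      exact ⟨by omega, ⟨h1, by omega⟩, h3⟩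
    · rintro ⟨h1, ⟨h2, h4⟩, h3⟩
      exact ⟨⟨h2, by omega⟩, h3⟩
  have hstep : ∀ x, (∑ m ∈ (Icc 1 (M' x)).filter (fun m => Nat.Coprime m d),
      a m * em d u H m x) ^ 2 ≤ r * ∑ l ∈ range r, ∑ j ∈ range (2 ^ (r - l)),
      (∑ m ∈ SJ l j, a m * em d u H m x) ^ 2 := by
    intro x
    rw [hinit]
    have h1 := bin_dec r (f x) (M' x + 1) (by have := hM' x; omega)
    refine h1.trans (le_of_eq ?_)
    simp only [hblock]
  -- the sum over one level
  have hlev : ∀ l ∈ range r, ∑ j ∈ range (2 ^ (r - l)), ∑ x ∈ Ico X (2 * X),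
      (∑ m ∈ SJ l j, a m * em d u H m x) ^ 2 ≤
      400 * (d : ℝ) ^ 2 * ((M : ℝ) ^ 2 + X) * (Q ^ 2 * Λ ^ 3 * H) := by
    intro l hl
    rw [mem_range] at hl
    have h1 : ∀ j ∈ range (2 ^ (r - l)), ∑ x ∈ Ico X (2 * X),
        (∑ m ∈ SJ l j, a m * em d u H m x) ^ 2 ≤
        400 * (d : ℝ) ^ 2 * ((M : ℝ) ^ 2 + X) * ∑ q ∈ Icc 1 M,
          (∑ m ∈ (SJ l j).filter (fun m => q ∣ m), |a m| / m) ^ 2
            * min ((q : ℝ) ^ 2) (q * H) := by
      intro j _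
      refine ti_ls d u H M X hd hH hX (SJ l j) ?_ ?_ a
      · exact (Finset.filter_subset _ _).trans (Finset.filter_subset _ _)
      · intro m hm
        simp only [hSJ, hT, mem_filter] at hm
        exact hm.1.2
    refine (Finset.sum_le_sum h1).trans ?_
    rw [← Finset.mul_sum, Finset.sum_comm]
    refine mul_le_mul_of_nonneg_left ?_ (by positivity)
    have h2 : ∀ q ∈ Icc 1 M, ∑ j ∈ range (2 ^ (r - l)),
        (∑ m ∈ (SJ l j).filter (fun m => q ∣ m), |a m| / m) ^ 2 * min ((q : ℝ) ^ 2) (q * H) ≤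
        Q ^ 2 * Λ ^ 2 * H * (1 / (q : ℝ)) := by
      intro q hq
      rw [mem_Icc] at hq
      have hq0 : (0 : ℝ) < q := by exact_mod_cast hq.1
      rw [← Finset.sum_mul]
      have h3 : ∑ j ∈ range (2 ^ (r - l)),
          (∑ m ∈ (SJ l j).filter (fun m => q ∣ m), |a m| / m) ^ 2 ≤ (Q * (Λ / q)) ^ 2 := by
        refine (Tmax_sq _ _ fun j _ => Finset.sum_nonneg fun m _ => by positivity).trans ?_
        have h4 : ∑ j ∈ range (2 ^ (r - l)), ∑ m ∈ (SJ l j).filter (fun m => q ∣ m), |a m| / m =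
            ∑ m ∈ T.filter (fun m => q ∣ m), |a m| / (m : ℝ) := by
          have h5 : ∀ j, (SJ l j).filter (fun m => q ∣ m) =
              (T.filter (fun m => q ∣ m)).filter (fun m => m / 2 ^ l = j) := by
            intro j
            rw [hSJ]
            simp only
            rw [Finset.filter_comm]
          simp only [h5]
          refine Finset.sum_fiberwise_of_maps_to (fun m hm => ?_) _
          simp only [hT, mem_filter, mem_Icc] at hm
          rw [mem_range, Nat.div_lt_iff_lt_mul (by positivity), ← pow_add,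
            Nat.sub_add_cancel hl.le]
          omega
        rw [h4]
        have h6 : ∑ m ∈ T.filter (fun m => q ∣ m), |a m| / (m : ℝ) ≤ Q * (Λ / q) := by
          calc ∑ m ∈ T.filter (fun m => q ∣ m), |a m| / (m : ℝ)
              ≤ ∑ m ∈ T.filter (fun m => q ∣ m), Q * (1 / (m : ℝ)) := by
                refine Finset.sum_le_sum fun m hm => ?_
                simp only [hT, mem_filter] at hm
                rw [mul_one_div]
                gcongr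
                exact ha m hm.1.1
            _ ≤ ∑ m ∈ (Icc 1 M).filter (fun m => q ∣ m), Q * (1 / (m : ℝ)) := by
                refine Finset.sum_le_sum_of_subset_of_nonneg ?_ fun _ _ _ => by positivity
                exact Finset.filter_subset_filter _ (Finset.filter_subset _ _)
            _ = Q * ∑ m ∈ (Icc 1 M).filter (fun m => q ∣ m), 1 / (m : ℝ) := by
                rw [Finset.mul_sum]
            _ ≤ Q * (Λ / q) := mul_le_mul_of_nonneg_left (Tmax_mult M q hq.1) hQ0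
        have h7 : 0 ≤ ∑ m ∈ T.filter (fun m => q ∣ m), |a m| / (m : ℝ) :=
          Finset.sum_nonneg fun _ _ => by positivity
        exact pow_le_pow_left₀ h7 h6 2
      have h8 : min ((q : ℝ) ^ 2) (q * H) ≤ q * H := min_le_right _ _
      have h9 : (0 : ℝ) ≤ min ((q : ℝ) ^ 2) (q * H) := le_min (by positivity) (by positivity)
      calc _ ≤ (Q * (Λ / q)) ^ 2 * (q * H) := by gcongr
        _ = Q ^ 2 * Λ ^ 2 * H * (1 / (q : ℝ)) := by
            field_simp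
    refine (Finset.sum_le_sum h2).trans ?_
    rw [← Finset.mul_sum]
    calc Q ^ 2 * Λ ^ 2 * H * ∑ q ∈ Icc 1 M, 1 / (q : ℝ) ≤ Q ^ 2 * Λ ^ 2 * H * Λ := by
          gcongr
          exact Tmax_harm M
      _ = Q ^ 2 * Λ ^ 3 * H := by ring
  calc ∑ x ∈ Ico X (2 * X),
        (∑ m ∈ (Icc 1 (M' x)).filter (fun m => Nat.Coprime m d), a m * em d u H m x) ^ 2
      ≤ ∑ x ∈ Ico X (2 * X), (r * ∑ l ∈ range r, ∑ j ∈ range (2 ^ (r - l)),
          (∑ m ∈ SJ l j, a m * em d u H m x) ^ 2) := Finset.sum_le_sum fun x _ => hstep x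
    _ = r * ∑ l ∈ range r, ∑ j ∈ range (2 ^ (r - l)), ∑ x ∈ Ico X (2 * X),
          (∑ m ∈ SJ l j, a m * em d u H m x) ^ 2 := by
        rw [← Finset.mul_sum, Finset.sum_comm]
        congr 1
        refine Finset.sum_congr rfl fun l _ => ?_
        rw [Finset.sum_comm]
    _ ≤ r * ∑ l ∈ range r, (400 * (d : ℝ) ^ 2 * ((M : ℝ) ^ 2 + X) * (Q ^ 2 * Λ ^ 3 * H)) := by
        gcongr with l hl
        exact hlev l hl
    _ = 400 * (r : ℝ) ^ 2 * (d : ℝ) ^ 2 * ((M : ℝ) ^ 2 + X) * Q ^ 2 * Λ ^ 3 * H := by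
        rw [Finset.sum_const, Finset.card_range, nsmul_eq_mul]
        ring
    _ ≤ 1000 * (r : ℝ) ^ 2 * (d : ℝ) ^ 2 * ((M : ℝ) ^ 2 + X) * Q ^ 2 * Λ ^ 3 * H := by
        gcongr
        norm_num

end Pool.Agent.H88.PSI

end

section

/-!
# PSI Hux: Huxley's large value estimate, continuous version

`dual_ineq` (`Pool.Agent.H80.LV.dual_ineq`, `Pool/Agent/H80/LV/Dual.lean`; it has `Icc 1 K` and `ee (t log n)` as here) on
`B_I = B ∩ I`, `I` an interval of length `≤ T0`, with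
`G = C L (6 L M + vol(B_I) √T0)` (`ker`; `∫_I M/(1+|t-s|) ds ≤ 2 M log(1 + T0)`): for
`T0 = (V^2/(2 C L S))^2` (`T0 ≤ X^2` as `V^2 ≤ M S` if `B` is nonempty) this gives `V^2 vol(B_I) ≤ 6 C L^2 M S + V^2 vol(B_I)/2`, and
`[-T, T]` is covered by `≤ 2 T/T0 + 1` such `I`.
-/

set_option autoImplicit false

namespace Pool.Agent.H88.PSI

open Finset MeasureTheory
open Pool.Agent.H91.PK (ee)

private theorem Hux_log (t Y : ℝ) (hY : 0 ≤ Y) :
    ∫ s in (t - Y)..(t + Y), 1 / (1 + |t - s|) = 2 * Real.log (1 + Y) := by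
  have hcont : Continuous (fun s : ℝ => 1 / (1 + |t - s|)) := by
    refine continuous_const.div (by fun_prop) fun s => ?_
    positivity
  have h1 : ∫ s in (t - Y)..t, 1 / (1 + |t - s|) = Real.log (1 + Y) := by
    have e1 : ∫ s in (t - Y)..t, 1 / (1 + |t - s|) =
        ∫ s in (t - Y)..t, (fun u : ℝ => 1 / u) (1 + t - s) := by
      refine intervalIntegral.integral_congr fun s hs => ?_
      rw [Set.uIcc_of_le (by linarith), Set.mem_Icc] at hs
      simp only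
      rw [abs_of_nonneg (by linarith)]
      congr 1
      ring
    rw [e1, intervalIntegral.integral_comp_sub_left, integral_one_div_of_pos (by linarith)
      (by linarith)]
    congr 1
    rw [show (1 : ℝ) + t - t = 1 by ring, div_one]
    ring
  have h2 : ∫ s in t..(t + Y), 1 / (1 + |t - s|) = Real.log (1 + Y) := by
    have e1 : ∫ s in t..(t + Y), 1 / (1 + |t - s|) =
        ∫ s in t..(t + Y), (fun u : ℝ => 1 / u) (s - (t - 1)) := by
      refine intervalIntegral.integral_congr fun s hs => ?_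
      rw [Set.uIcc_of_le (by linarith), Set.mem_Icc] at hs
      simp only
      rw [abs_of_nonpos (by linarith)]
      congr 1
      ring
    rw [e1, intervalIntegral.integral_comp_sub_right, integral_one_div_of_pos (by linarith)
      (by linarith)]
    congr 1
    rw [show t - (t - 1) = 1 by ring, div_one]
    ring
  rw [← intervalIntegral.integral_add_adjacent_intervals (b := t)
    (hcont.intervalIntegrable _ _) (hcont.intervalIntegrable _ _), h1, h2]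
  ring

/-- Cauchy-Schwarz -/
private theorem Hux_cs (b : ℕ → ℂ) (M : ℕ) (t : ℝ) : ‖DP b M t‖ ^ 2 ≤ M * SS b M := by
  have h1 : ‖DP b M t‖ ≤ ∑ n ∈ Icc 1 M, ‖b n‖ := by
    unfold DP
    refine (norm_sum_le _ _).trans (le_of_eq (Finset.sum_congr rfl fun n _ => ?_))
    rw [norm_mul, Pool.Agent.H91.PK.LSa_norm_ee, mul_one]
  have h2 : (∑ n ∈ Icc 1 M, ‖b n‖) ^ 2 ≤ ((Icc 1 M).card : ℝ) * ∑ n ∈ Icc 1 M, ‖b n‖ ^ 2 :=
    sq_sum_le_card_mul_sum_sq
  rw [Nat.card_Icc, Nat.add_sub_cancel] at h2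
  calc ‖DP b M t‖ ^ 2 ≤ (∑ n ∈ Icc 1 M, ‖b n‖) ^ 2 := by
        gcongr
    _ ≤ _ := h2

/-- the estimate on one short interval -/
private theorem Hux_one {C0 : ℝ} (hC0 : 1 ≤ C0)
    (hker : ∀ (X M : ℕ) (u : ℝ), 3 ≤ X → M ≤ X →
      ‖∑ n ∈ Icc 1 M, ee (u * Real.log n)‖
        ≤ C0 * Real.log X * (M / (1 + |u|) + Real.sqrt |u|))
    (X M : ℕ) (b : ℕ → ℂ) (V T T0 c : ℝ) (B : Set ℝ) (hX : 3 ≤ X) (hMX : M ≤ X) (hV : 0 < V)
    (hB : MeasurableSet B) (hBs : B ⊆ Set.Icc (-T) T) (hBc : B ⊆ Set.Icc c (c + T0))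
    (hT0 : 0 < T0) (hT0X : T0 ≤ (X : ℝ) ^ 2)
    (hT0V : 2 * C0 * Real.log X * SS b M * Real.sqrt T0 ≤ V ^ 2)
    (hBV : ∀ t ∈ B, V ≤ ‖DP b M t‖) :
    V ^ 2 * volume.real B ≤ 12 * C0 * Real.log X ^ 2 * (M * SS b M) := by
  have hXr : (3 : ℝ) ≤ X := by exact_mod_cast hX
  have hX0 : (0 : ℝ) < X := by linarith
  have hL1 : 1 ≤ Real.log X := by
    rw [Real.le_log_iff_exp_le hX0]
    linarith [Real.exp_one_lt_d9]
  set L : ℝ := Real.log X with hL
  have hS0 : 0 ≤ SS b M := Finset.sum_nonneg fun n _ => by positivity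
  have hv0 : 0 ≤ volume.real B := measureReal_nonneg
  set G : ℝ := C0 * L * (6 * L * M + volume.real B * Real.sqrt T0) with hG
  have hG0 : 0 ≤ G := by positivity
  have hcee : ∀ t : ℝ, Continuous (fun s : ℝ => ‖∑ n ∈ Icc 1 M, ee ((t - s) * Real.log n)‖) := by
    intro t
    unfold ee
    fun_prop
  have hlog : 2 * Real.log (1 + T0) ≤ 6 * L := by
    have h1 : 1 + T0 ≤ (X : ℝ) ^ 3 := by nlinarith [sq_nonneg ((X : ℝ) - 1)]
    have h2 : Real.log (1 + T0) ≤ Real.log ((X : ℝ) ^ 3) := Real.log_le_log (by linarith) h1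
    rw [Real.log_pow] at h2
    push_cast at h2
    rw [← hL] at h2
    linarith
  have hGb : ∀ t ∈ B, ∫ s in B, ‖∑ n ∈ Icc 1 M, ee ((t - s) * Real.log n)‖ ≤ G := by
    intro t ht
    have hcg0 : Continuous (fun s : ℝ => 1 / (1 + |t - s|)) := by
      refine continuous_const.div (by fun_prop) fun s => ?_
      positivity
    have hcg : Continuous (fun s : ℝ => C0 * L * M * (1 / (1 + |t - s|))) :=
      continuous_const.mul hcg0
    have hi1 : IntegrableOn (fun s : ℝ => ‖∑ n ∈ Icc 1 M, ee ((t - s) * Real.log n)‖) B :=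
      ((hcee t).continuousOn.integrableOn_Icc).mono_set hBs
    have hi2 : IntegrableOn (fun s : ℝ => C0 * L * M * (1 / (1 + |t - s|))) B :=
      (hcg.continuousOn.integrableOn_Icc).mono_set hBs
    have hi3 : IntegrableOn (fun _ : ℝ => C0 * L * Real.sqrt T0) B :=
      (continuous_const.continuousOn.integrableOn_Icc).mono_set hBs
    have hpt : ∀ s ∈ B, ‖∑ n ∈ Icc 1 M, ee ((t - s) * Real.log n)‖ ≤
        C0 * L * M * (1 / (1 + |t - s|)) + C0 * L * Real.sqrt T0 := by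
      intro s hs
      have hs1 := hBc hs
      have ht1 := hBc ht
      rw [Set.mem_Icc] at hs1 ht1
      have habs : |t - s| ≤ T0 := by
        rw [abs_le]
        constructor <;> linarith [hs1.1, hs1.2, ht1.1, ht1.2]
      have h1 := hker X M (t - s) hX hMX
      have h2 : Real.sqrt |t - s| ≤ Real.sqrt T0 := Real.sqrt_le_sqrt habs
      calc _ ≤ C0 * L * (M / (1 + |t - s|) + Real.sqrt |t - s|) := h1
        _ ≤ C0 * L * (M / (1 + |t - s|) + Real.sqrt T0) := by gcongr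
        _ = _ := by ring
    refine (setIntegral_mono_on hi1 (hi2.add hi3) hB hpt).trans ?_
    have e1 : ∫ s in B, (C0 * L * M * (1 / (1 + |t - s|)) + C0 * L * Real.sqrt T0) =
        C0 * L * M * (∫ s in B, 1 / (1 + |t - s|)) + volume.real B * (C0 * L * Real.sqrt T0) := by
      rw [integral_add hi2 hi3, integral_const_mul, setIntegral_const, smul_eq_mul]
    have e2 : ∫ s in B, 1 / (1 + |t - s|) ≤ 2 * Real.log (1 + T0) := by
      rw [← Hux_log t T0 hT0.le, intervalIntegral.integral_of_le (by linarith),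
        ← integral_Icc_eq_integral_Ioc]
      refine setIntegral_mono_set (hcg0.continuousOn.integrableOn_Icc)
        (Filter.Eventually.of_forall fun s => ?_) (HasSubset.Subset.eventuallyLE ?_)
      · simp only [Pi.zero_apply]
        positivity
      · intro s hs
        have hs1 := hBc hs
        have ht1 := hBc ht
        rw [Set.mem_Icc] at hs1 ht1 ⊢
        constructor <;> linarith [hs1.1, hs1.2, ht1.1, ht1.2]
    have e3 : C0 * L * M * (∫ s in B, 1 / (1 + |t - s|)) ≤ C0 * L * M * (6 * L) :=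
      mul_le_mul_of_nonneg_left (e2.trans hlog) (by positivity)
    rw [Pi.add_def, e1, hG]
    nlinarith [e3]
  have hd := Pool.Agent.H80.LV.dual_ineq B T hB hBs M b G hG0 hGb
  have hFc : Continuous (fun t : ℝ => ‖∑ n ∈ Icc 1 M, b n * ee (t * Real.log n)‖ ^ 2) := by
    unfold ee
    fun_prop
  have hlow : V ^ 2 * volume.real B ≤
      ∫ t in B, ‖∑ n ∈ Icc 1 M, b n * ee (t * Real.log n)‖ ^ 2 := by
    have h1 : ∫ _ in B, V ^ 2 = volume.real B * V ^ 2 := by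
      rw [setIntegral_const, smul_eq_mul]
    rw [mul_comm, ← h1]
    refine setIntegral_mono_on
      ((continuous_const.continuousOn.integrableOn_Icc (μ := volume)).mono_set hBs)
      ((hFc.continuousOn.integrableOn_Icc).mono_set hBs) hB fun t ht => ?_
    have h2 := hBV t ht
    unfold DP at h2
    gcongr
  have hfin : V ^ 2 * volume.real B ≤ G * SS b M := hlow.trans hd
  have h5 : C0 * L * SS b M * Real.sqrt T0 * volume.real B ≤ V ^ 2 / 2 * volume.real B := by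
    refine mul_le_mul_of_nonneg_right ?_ hv0
    linarith
  rw [hG] at hfin
  nlinarith [hfin, h5]

theorem huxley : ∃ C : ℝ, 1 ≤ C ∧ ∀ (X M : ℕ) (b : ℕ → ℂ) (V T : ℝ) (B : Set ℝ), 3 ≤ X → 1 ≤ M →
    M ≤ X → 0 < V → 1 ≤ T → T ≤ X → MeasurableSet B → B ⊆ Set.Icc (-T) T →
    (∀ t ∈ B, V ≤ ‖DP b M t‖) →
    volume.real B ≤ C * Real.log X ^ 6 * (M * SS b M / V ^ 2 + T * M * SS b M ^ 3 / V ^ 6) := by
  obtain ⟨C0, hC0, hker⟩ := ker
  refine ⟨96 * C0 ^ 3, ?_, fun X M b V T B hX hM hMX hV hT hTX hB hBs hBV => ?_⟩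
  · have : 1 ≤ C0 ^ 3 := one_le_pow₀ hC0
    linarith
  have hXr : (3 : ℝ) ≤ X := by exact_mod_cast hX
  have hX0 : (0 : ℝ) < X := by linarith
  have hL1 : 1 ≤ Real.log X := by
    rw [Real.le_log_iff_exp_le hX0]
    linarith [Real.exp_one_lt_d9]
  set L : ℝ := Real.log X with hL
  have hS0 : 0 ≤ SS b M := Finset.sum_nonneg fun n _ => by positivity
  have hT0 : 0 < T := by linarith
  rcases B.eq_empty_or_nonempty with hBe | ⟨t0, ht0⟩
  · rw [hBe]
    simp only [measureReal_empty]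
    positivity
  have hVMS : V ^ 2 ≤ M * SS b M := by
    refine le_trans ?_ (Hux_cs b M t0)
    have := hBV t0 ht0
    gcongr
  have hM0 : (0 : ℝ) < M := by exact_mod_cast hM
  have hS : 0 < SS b M := by
    rcases hS0.lt_or_eq with h | h
    · exact h
    · rw [← h, mul_zero] at hVMS
      exact absurd hVMS (not_le.mpr (by positivity))
  set S : ℝ := SS b M with hSdef
  -- the length of the short intervals
  set R : ℝ := V ^ 2 / (2 * C0 * L * S) with hR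
  have hR0 : 0 < R := by positivity
  set U : ℝ := R ^ 2 with hU
  have hU0 : 0 < U := by positivity
  have hsq : Real.sqrt U = R := by rw [hU, Real.sqrt_sq hR0.le]
  have hRX : R ≤ X := by
    rw [hR, div_le_iff₀ (by positivity)]
    have h1 : (M : ℝ) ≤ X := by exact_mod_cast hMX
    have h2 : M * S ≤ X * S := by gcongr
    have h3 : (1 : ℝ) ≤ 2 * C0 * L := by nlinarith
    have h4 : (X : ℝ) * S ≤ X * (2 * C0 * L * S) := by
      have : X * S * 1 ≤ X * S * (2 * C0 * L) := by gcongr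
      linarith
    linarith
  have hUX : U ≤ (X : ℝ) ^ 2 := by rw [hU]; gcongr
  have hUV : 2 * C0 * L * S * Real.sqrt U ≤ V ^ 2 := by
    rw [hsq, hR]
    apply le_of_eq
    field_simp
  -- covering
  set N : ℕ := ⌊2 * T / U⌋₊ + 1 with hN
  have hcover : B ⊆ ⋃ j ∈ Finset.range N, B ∩ Set.Icc (-T + j * U) (-T + j * U + U) := by
    intro t ht
    have h1 := hBs ht
    rw [Set.mem_Icc] at h1
    simp only [Set.mem_iUnion, Finset.mem_range, exists_prop]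
    have h2 : 0 ≤ (t + T) / U := div_nonneg (by linarith [h1.1]) hU0.le
    refine ⟨⌊(t + T) / U⌋₊, ?_, ht, ?_⟩
    · rw [hN, Nat.lt_succ_iff]
      apply Nat.floor_le_floor
      gcongr
      linarith [h1.2]
    · have h3 := Nat.floor_le h2
      have h4 := Nat.lt_floor_add_one ((t + T) / U)
      rw [le_div_iff₀ hU0] at h3
      rw [div_lt_iff₀ hU0] at h4
      rw [Set.mem_Icc]
      constructor <;> linarith
  have hone : ∀ j ∈ Finset.range N, volume.real (B ∩ Set.Icc (-T + j * U) (-T + j * U + U)) ≤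
      12 * C0 * L ^ 2 * (M * S) / V ^ 2 := by
    intro j _
    rw [le_div_iff₀ (by positivity), mul_comm]
    exact Hux_one hC0 hker X M b V T U (-T + j * U) _ hX hMX hV (hB.inter measurableSet_Icc)
      (Set.inter_subset_left.trans hBs) Set.inter_subset_right hU0 hUX hUV
      (fun t ht => hBV t ht.1)
  have hfinB : volume (⋃ j ∈ Finset.range N, B ∩ Set.Icc (-T + j * U) (-T + j * U + U)) ≠ ⊤ := by
    refine ne_of_lt (lt_of_le_of_lt (measure_mono ?_)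
      (lt_of_le_of_lt (measure_mono hBs) (by
        rw [Real.volume_Icc]; exact ENNReal.ofReal_lt_top)))
    exact Set.iUnion₂_subset fun j _ => Set.inter_subset_left
  have hvol : volume.real B ≤ N * (12 * C0 * L ^ 2 * (M * S) / V ^ 2) := by
    calc volume.real B ≤ volume.real (⋃ j ∈ Finset.range N,
          B ∩ Set.Icc (-T + j * U) (-T + j * U + U)) := measureReal_mono hcover hfinB
      _ ≤ ∑ j ∈ Finset.range N, volume.real (B ∩ Set.Icc (-T + j * U) (-T + j * U + U)) :=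
          measureReal_biUnion_finset_le _ _
      _ ≤ ∑ j ∈ Finset.range N, (12 * C0 * L ^ 2 * (M * S) / V ^ 2) := Finset.sum_le_sum hone
      _ = _ := by rw [Finset.sum_const, Finset.card_range, nsmul_eq_mul]
  have hNle : (N : ℝ) ≤ 2 * T / U + 1 := by
    rw [hN]
    push_cast
    linarith [Nat.floor_le (show 0 ≤ 2 * T / U by positivity)]
  have hUe : 2 * T / U = 8 * C0 ^ 2 * L ^ 2 * (T * S ^ 2 / V ^ 4) := by
    rw [hU, hR]
    field_simp
    ring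
  have hL4 : L ^ 4 ≤ L ^ 6 := pow_le_pow_right₀ hL1 (by norm_num)
  have hL2 : L ^ 2 ≤ L ^ 6 := pow_le_pow_right₀ hL1 (by norm_num)
  have hC3 : C0 ≤ C0 ^ 3 := by
    calc C0 = C0 ^ 1 := (pow_one _).symm
      _ ≤ C0 ^ 3 := pow_le_pow_right₀ hC0 (by norm_num)
  calc volume.real B ≤ N * (12 * C0 * L ^ 2 * (M * S) / V ^ 2) := hvol
    _ ≤ (8 * C0 ^ 2 * L ^ 2 * (T * S ^ 2 / V ^ 4) + 1) * (12 * C0 * L ^ 2 * (M * S) / V ^ 2) := by
        rw [← hUe]
        gcongr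
    _ = 96 * C0 ^ 3 * L ^ 4 * (T * M * S ^ 3 / V ^ 6) + 12 * C0 * L ^ 2 * (M * S / V ^ 2) := by
        field_simp
        ring
    _ ≤ 96 * C0 ^ 3 * L ^ 6 * (T * M * S ^ 3 / V ^ 6)
          + 96 * C0 ^ 3 * L ^ 6 * (M * S / V ^ 2) := by
        gcongr
        norm_num
    _ = _ := by ring

end Pool.Agent.H88.PSI

end

section

/-!
# PSI Lvk: large values of powers

`b = g^k` (`dp_pow` with the bound `2 N`; `M = (2 N)^k ≤ X`), `|b(n)| ≤ (2 L)^k tau(n)^k` (`prod_bd` with the constant family, `∏ i : Fin k, g = g^k`), so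
`SS b M ≤ M X^(e1/8)` (`tau_eps`).  `mvt`: `V^(2k) |B| ≤ (2 T + 4 M (1 + log M)) SS`; `huxley` with `V^k`.  Constants `2^(4k)`, `L^6` are
absorbed in `X^e1`.
-/

set_option autoImplicit false

namespace Pool.Agent.H88.PSI

open Finset MeasureTheory

private theorem Lvk_log (n : ℕ) (A δ : ℝ) (hδ : 0 < δ) :
    ∃ X0 : ℕ, ∀ X : ℕ, X0 ≤ X → A * Real.log X ^ n ≤ (X : ℝ) ^ δ := by
  have h1 := (isLittleO_log_rpow_rpow_atTop (n : ℝ) hδ).comp_tendsto tendsto_natCast_atTop_atTop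
  have hc : 0 < 1 / (|A| + 1) := by positivity
  have h2 := h1.def hc
  rw [Filter.eventually_atTop] at h2
  obtain ⟨X0, hX0⟩ := h2
  refine ⟨X0, fun X hX => ?_⟩
  have h3 := hX0 X hX
  simp only [Function.comp_apply, Real.rpow_natCast] at h3
  have h4 : (0 : ℝ) ≤ (X : ℝ) ^ δ := by positivity
  rw [Real.norm_of_nonneg h4, Real.norm_eq_abs] at h3
  have h5 : A * Real.log X ^ n ≤ |A| * |Real.log X ^ n| := by
    rw [← abs_mul]
    exact le_abs_self _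
  have h6 : |A| * |Real.log X ^ n| ≤ |A| * (1 / (|A| + 1) * (X : ℝ) ^ δ) :=
    mul_le_mul_of_nonneg_left h3 (abs_nonneg _)
  have h7 : |A| * (1 / (|A| + 1) * (X : ℝ) ^ δ) = |A| / (|A| + 1) * (X : ℝ) ^ δ := by ring
  have h8 : |A| / (|A| + 1) ≤ 1 := by
    rw [div_le_one (by positivity)]
    linarith
  have h9 : |A| / (|A| + 1) * (X : ℝ) ^ δ ≤ 1 * (X : ℝ) ^ δ := mul_le_mul_of_nonneg_right h8 h4
  linarith

/-- the second moment of the coefficients -/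
private theorem Lvk_SS (k : ℕ) (e1 : ℝ) (hk : 1 ≤ k) (he1 : 0 < e1) : ∃ X0 : ℕ, ∀ X : ℕ, X0 ≤ X →
    ∀ (M : ℕ) (g : ArithmeticFunction ℂ), M ≤ X → (∀ n, ‖g n‖ ≤ 2 * Real.log X) →
      SS (⇑(g ^ k)) M ≤ M * (X : ℝ) ^ (e1 / 16) := by
  have hk0 : (0 : ℝ) < k := by exact_mod_cast hk
  have he : 0 < e1 / (64 * k) := by positivity
  obtain ⟨C1, hC1, htau⟩ := tau_eps (e1 / (64 * k)) he
  obtain ⟨X1, hX1⟩ := Lvk_log (2 * k) ((4 * C1) ^ (2 * k) * 2 ^ (2 * k)) (e1 / 32) (by positivity)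
  refine ⟨max 3 X1, fun X hX M g hM hg => ?_⟩
  have hX3 : 3 ≤ X := (le_max_left _ _).trans hX
  have hX3' : (3 : ℝ) ≤ X := by exact_mod_cast hX3
  have hXpos : (0 : ℝ) < X := by linarith
  have hL : 1 ≤ Real.log X := by
    rw [Real.le_log_iff_exp_le hXpos]
    have := Real.exp_one_lt_d9
    linarith
  have h1 := hX1 X ((le_max_right _ _).trans hX)
  have hprod : ∀ n, ‖(g ^ k) n‖ ≤ (2 * Real.log X) ^ k * tau n ^ k := by
    intro n
    have h2 := prod_bd (fun _ : Fin k => g) (2 * Real.log X) (by linarith) (fun _ n => hg n) n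
    rwa [prod_const, card_univ, Fintype.card_fin] at h2
  have hterm : ∀ n ∈ Icc 1 M, ‖(g ^ k) n‖ ^ 2 ≤ (X : ℝ) ^ (e1 / 16) := by
    intro n hn
    rw [mem_Icc] at hn
    have hn1 : (1 : ℝ) ≤ n := by exact_mod_cast hn.1
    have hnX : (n : ℝ) ≤ X := by exact_mod_cast hn.2.trans hM
    set e := e1 / (64 * k) with hedef
    have hXe : 1 ≤ (X : ℝ) ^ e := Real.one_le_rpow (by linarith) he.le
    have hne : (n : ℝ) ^ e ≤ (X : ℝ) ^ e := Real.rpow_le_rpow (by linarith) hnX he.le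
    have htn : tau n ≤ 2 * C1 * (X : ℝ) ^ e := by
      have h3 := htau n
      nlinarith
    have htn0 : 0 ≤ tau n := by
      unfold tau
      positivity
    have h4 : tau n ^ k ≤ (2 * C1 * (X : ℝ) ^ e) ^ k := pow_le_pow_left₀ htn0 htn k
    have h5 : ‖(g ^ k) n‖ ≤ (2 * Real.log X) ^ k * (2 * C1 * (X : ℝ) ^ e) ^ k :=
      (hprod n).trans (mul_le_mul_of_nonneg_left h4 (by positivity))
    have h6 : ‖(g ^ k) n‖ ^ 2 ≤ ((2 * Real.log X) ^ k * (2 * C1 * (X : ℝ) ^ e) ^ k) ^ 2 :=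
      pow_le_pow_left₀ (norm_nonneg _) h5 2
    have h7 : ((2 * Real.log X) ^ k * (2 * C1 * (X : ℝ) ^ e) ^ k) ^ 2 =
        ((4 * C1) ^ (2 * k) * Real.log X ^ (2 * k)) * ((X : ℝ) ^ e) ^ (2 * k) := by
      rw [← mul_pow, ← mul_pow, ← mul_pow, ← pow_mul, mul_comm k 2]
      congr 1
      ring
    have h8 : ((X : ℝ) ^ e) ^ (2 * k) = (X : ℝ) ^ (e1 / 32) := by
      rw [← Real.rpow_natCast, ← Real.rpow_mul hXpos.le]
      congr 1
      rw [hedef]
      push_cast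
      field_simp
      ring
    have h9 : (4 * C1) ^ (2 * k) * Real.log X ^ (2 * k) ≤ (X : ℝ) ^ (e1 / 32) := by
      refine le_trans ?_ h1
      have h10 : (1 : ℝ) ≤ 2 ^ (2 * k) := one_le_pow₀ (by norm_num)
      have h11 : 0 ≤ (4 * C1) ^ (2 * k) := by positivity
      have h12 : (4 * C1) ^ (2 * k) ≤ (4 * C1) ^ (2 * k) * 2 ^ (2 * k) := by nlinarith
      exact mul_le_mul_of_nonneg_right h12 (by positivity)
    have h13 : (X : ℝ) ^ (e1 / 32) * (X : ℝ) ^ (e1 / 32) = (X : ℝ) ^ (e1 / 16) := by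
      rw [← Real.rpow_add hXpos]
      congr 1
      ring
    calc ‖(g ^ k) n‖ ^ 2 ≤ ((4 * C1) ^ (2 * k) * Real.log X ^ (2 * k)) * ((X : ℝ) ^ e) ^ (2 * k) := by
          rw [← h7]
          exact h6
      _ ≤ (X : ℝ) ^ (e1 / 32) * (X : ℝ) ^ (e1 / 32) := by
          rw [h8]
          exact mul_le_mul_of_nonneg_right h9 (by positivity)
      _ = _ := h13
  unfold SS
  refine (sum_le_sum hterm).trans (le_of_eq ?_)
  rw [sum_const, Nat.card_Icc, nsmul_eq_mul]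
  congr 2

theorem lvk (k : ℕ) (e1 : ℝ) (hk : 1 ≤ k) (he1 : 0 < e1) : ∃ X0 : ℕ, ∀ X : ℕ, X0 ≤ X →
    ∀ (N : ℕ) (g : ArithmeticFunction ℂ) (V T : ℝ) (B : Set ℝ), 1 ≤ N → (2 * N) ^ k ≤ X →
    (∀ n, g n ≠ 0 → n ≤ 2 * N) → (∀ n, ‖g n‖ ≤ 2 * Real.log X) → 0 < V → 1 ≤ T → T ≤ X →
    MeasurableSet B → B ⊆ Set.Icc (-T) T → (∀ t ∈ B, V ≤ ‖DP g (2 * N) t‖) →
    volume.real B ≤ (X : ℝ) ^ e1 * ((N : ℝ) ^ (2 * k) / V ^ (2 * k) +
      min (T * (N : ℝ) ^ k / V ^ (2 * k)) (T * (N : ℝ) ^ (4 * k) / V ^ (6 * k))) := by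
  obtain ⟨C0, hC0, hux⟩ := huxley
  obtain ⟨X1, hX1⟩ := Lvk_SS k e1 hk he1
  obtain ⟨X2, hX2⟩ := Lvk_log 1 (8 * 4 ^ k) (e1 / 16) (by positivity)
  obtain ⟨X3, hX3⟩ := Lvk_log 6 (C0 * 16 ^ k) (e1 / 16) (by positivity)
  refine ⟨max (max 3 X1) (max X2 X3), fun X hX N g V T B hN hNX hsupp hg hV hT hTX hBm hB hBV => ?_⟩
  have hX3a : 3 ≤ X := (le_max_left _ _).trans ((le_max_left _ _).trans hX)
  have hX1a : X1 ≤ X := (le_max_right _ _).trans ((le_max_left _ _).trans hX)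
  have hX2a : X2 ≤ X := (le_max_left _ _).trans ((le_max_right _ _).trans hX)
  have hX3b : X3 ≤ X := (le_max_right _ _).trans ((le_max_right _ _).trans hX)
  have hX3' : (3 : ℝ) ≤ X := by exact_mod_cast hX3a
  have hXpos : (0 : ℝ) < X := by linarith
  have hL : 1 ≤ Real.log X := by
    rw [Real.le_log_iff_exp_le hXpos]
    have := Real.exp_one_lt_d9
    linarith
  have h2 := hX2 X hX2a
  have h3 := hX3 X hX3b
  rw [pow_one] at h2
  set Y : ℝ := (X : ℝ) ^ (e1 / 16) with hY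
  have hY1 : 1 ≤ Y := Real.one_le_rpow (by linarith) (by positivity)
  have hY0 : 0 < Y := by linarith
  have hY16 : Y ^ 16 = (X : ℝ) ^ e1 := by
    rw [hY, ← Real.rpow_natCast, ← Real.rpow_mul hXpos.le]
    congr 1
    push_cast
    ring
  set M : ℕ := (2 * N) ^ k with hM
  have hM1 : 1 ≤ M := Nat.one_le_pow _ _ (by omega)
  have hMR : (M : ℝ) = 2 ^ k * (N : ℝ) ^ k := by
    rw [hM]
    push_cast
    rw [mul_pow]
  have hS := hX1 X hX1a M g hNX hg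
  set S := SS (⇑(g ^ k)) M with hSdef
  have hS0 : 0 ≤ S := by
    rw [hSdef]
    unfold SS
    exact sum_nonneg fun n _ => by positivity
  have hDP : ∀ t, DP (⇑(g ^ k)) M t = DP g (2 * N) t ^ k := fun t => dp_pow g (2 * N) k hsupp t
  have hVt : ∀ t ∈ B, V ^ k ≤ ‖DP (⇑(g ^ k)) M t‖ := by
    intro t ht
    rw [hDP, norm_pow]
    exact pow_le_pow_left₀ hV.le (hBV t ht) k
  have hNR : (1 : ℝ) ≤ N := by exact_mod_cast hN
  have hlogM : Real.log M ≤ Real.log X :=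
    Real.log_le_log (by exact_mod_cast hM1) (by exact_mod_cast hNX)
  -- the mean value theorem
  have b1 : volume.real B ≤ (X : ℝ) ^ e1 * ((N : ℝ) ^ (2 * k) / V ^ (2 * k) +
      T * (N : ℝ) ^ k / V ^ (2 * k)) := by
    have hm := mvt (⇑(g ^ k)) M T hM1 (by linarith)
    have hcont : Continuous fun t => ‖DP (⇑(g ^ k)) M t‖ ^ 2 := (dp_cont _ M).norm.pow 2
    have hint : IntegrableOn (fun t => ‖DP (⇑(g ^ k)) M t‖ ^ 2) (Set.Icc (-T) T) :=
      hcont.continuousOn.integrableOn_Icc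
    have hfin : volume B ≠ ⊤ :=
      ne_top_of_le_ne_top (by rw [Real.volume_Icc]; exact ENNReal.ofReal_ne_top) (measure_mono hB)
    have e1' : volume.real B * V ^ (2 * k) ≤ ∫ t in B, ‖DP (⇑(g ^ k)) M t‖ ^ 2 := by
      have h4 : ∫ t in B, (V ^ (2 * k) : ℝ) = volume.real B * V ^ (2 * k) := by
        rw [setIntegral_const, smul_eq_mul]
      rw [← h4]
      refine setIntegral_mono_on (integrableOn_const hfin) (hint.mono_set hB) hBm fun t ht => ?_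
      have h5 := pow_le_pow_left₀ (by positivity) (hVt t ht) 2
      rwa [← pow_mul, mul_comm k 2] at h5
    have e2 : ∫ t in B, ‖DP (⇑(g ^ k)) M t‖ ^ 2 ≤
        ∫ t in Set.Icc (-T) T, ‖DP (⇑(g ^ k)) M t‖ ^ 2 :=
      setIntegral_mono_set hint (Filter.Eventually.of_forall fun t => by positivity)
        hB.eventuallyLE
    have e3 : volume.real B * V ^ (2 * k) ≤ (2 * T + 4 * M * (1 + Real.log M)) * S :=
      e1'.trans (e2.trans hm)
    have e4 : (2 * T + 4 * M * (1 + Real.log M)) * S ≤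
        (2 * T + 4 * M * (2 * Real.log X)) * (M * Y) := by
      refine mul_le_mul ?_ hS hS0 (by positivity)
      have h6 : (M : ℝ) * (1 + Real.log M) ≤ M * (2 * Real.log X) :=
        mul_le_mul_of_nonneg_left (by linarith) (by positivity)
      linarith
    have e5 : (2 * T + 4 * M * (2 * Real.log X)) * (M * Y) ≤
        Y ^ 16 * ((N : ℝ) ^ (2 * k) + T * (N : ℝ) ^ k) := by
      rw [hMR]
      have a1 : (2 : ℝ) * 2 ^ k ≤ 8 * 4 ^ k * Real.log X := by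
        have a2 : (2 : ℝ) ^ k ≤ 4 ^ k := pow_le_pow_left₀ (by norm_num) (by norm_num) k
        have a3 : (0 : ℝ) < 4 ^ k := by positivity
        nlinarith
      have a4 : (2 : ℝ) * 2 ^ k ≤ Y := a1.trans h2
      have a5 : Y * Y ≤ Y ^ 16 := by
        rw [← pow_two]
        exact pow_le_pow_right₀ hY1 (by norm_num)
      have a6 : (4 : ℝ) ^ k = 2 ^ k * 2 ^ k := by
        rw [← mul_pow]
        norm_num
      have a7 : (N : ℝ) ^ (2 * k) = (N : ℝ) ^ k * (N : ℝ) ^ k := by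
        rw [two_mul, pow_add]
      have a8 : 8 * (2 ^ k * 2 ^ k) * Real.log X ≤ Y := by
        rw [← a6]
        exact h2
      have p1 : 0 ≤ T * (N : ℝ) ^ k * Y := by positivity
      have p2 : 0 ≤ (N : ℝ) ^ k * (N : ℝ) ^ k * Y := by positivity
      calc (2 * T + 4 * (2 ^ k * (N : ℝ) ^ k) * (2 * Real.log X)) * (2 ^ k * (N : ℝ) ^ k * Y) =
          (2 * 2 ^ k) * (T * (N : ℝ) ^ k * Y) +
            (8 * (2 ^ k * 2 ^ k) * Real.log X) * ((N : ℝ) ^ k * (N : ℝ) ^ k * Y) := by ring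
        _ ≤ Y * (T * (N : ℝ) ^ k * Y) + Y * ((N : ℝ) ^ k * (N : ℝ) ^ k * Y) :=
            add_le_add (mul_le_mul_of_nonneg_right a4 p1) (mul_le_mul_of_nonneg_right a8 p2)
        _ = (Y * Y) * ((N : ℝ) ^ (2 * k) + T * (N : ℝ) ^ k) := by
            rw [a7]
            ring
        _ ≤ Y ^ 16 * ((N : ℝ) ^ (2 * k) + T * (N : ℝ) ^ k) :=
            mul_le_mul_of_nonneg_right a5 (by positivity)
    rw [← hY16, ← add_div, mul_div_assoc', le_div_iff₀ (by positivity)]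
    exact e3.trans (e4.trans e5)
  -- Huxley
  have b2 : volume.real B ≤ (X : ℝ) ^ e1 * ((N : ℝ) ^ (2 * k) / V ^ (2 * k) +
      T * (N : ℝ) ^ (4 * k) / V ^ (6 * k)) := by
    have hh := hux X M (⇑(g ^ k)) (V ^ k) T B hX3a hM1 hNX (by positivity) hT hTX hBm hB hVt
    rw [← hSdef, ← pow_mul, ← pow_mul, mul_comm k 2, mul_comm k 6] at hh
    refine hh.trans ?_
    have a1 : M * S ≤ 16 ^ k * Y ^ 3 * (N : ℝ) ^ (2 * k) := by
      have c1 : M * S ≤ M * (M * Y) := mul_le_mul_of_nonneg_left hS (by positivity)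
      have c2 : (M : ℝ) * (M * Y) = 4 ^ k * Y * (N : ℝ) ^ (2 * k) := by
        have c3 : (4 : ℝ) ^ k = 2 ^ k * 2 ^ k := by
          rw [← mul_pow]
          norm_num
        rw [hMR, c3, two_mul, pow_add]
        ring
      have c4 : (4 : ℝ) ^ k ≤ 16 ^ k := pow_le_pow_left₀ (by norm_num) (by norm_num) k
      have c5 : Y ≤ Y ^ 3 := le_self_pow₀ hY1 (by norm_num)
      have c6 : (4 : ℝ) ^ k * Y ≤ 16 ^ k * Y ^ 3 := mul_le_mul c4 c5 hY0.le (by positivity)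
      have c7 : 4 ^ k * Y * (N : ℝ) ^ (2 * k) ≤ 16 ^ k * Y ^ 3 * (N : ℝ) ^ (2 * k) :=
        mul_le_mul_of_nonneg_right c6 (by positivity)
      linarith
    have a2 : M * S ^ 3 ≤ 16 ^ k * Y ^ 3 * (N : ℝ) ^ (4 * k) := by
      have c1 : S ^ 3 ≤ (M * Y) ^ 3 := pow_le_pow_left₀ hS0 hS 3
      have c2 : (M : ℝ) * S ^ 3 ≤ M * (M * Y) ^ 3 := mul_le_mul_of_nonneg_left c1 (by positivity)
      have c3 : (M : ℝ) * (M * Y) ^ 3 = 16 ^ k * Y ^ 3 * (N : ℝ) ^ (4 * k) := by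
        have c4 : (16 : ℝ) ^ k = (2 ^ k) ^ 4 := by
          rw [← pow_mul, mul_comm, pow_mul]
          norm_num
        have c5 : (N : ℝ) ^ (4 * k) = ((N : ℝ) ^ k) ^ 4 := by
          rw [← pow_mul, mul_comm]
        rw [hMR, c4, c5]
        ring
      linarith
    have p1 : 0 < V ^ (2 * k) := by positivity
    have p2 : 0 < V ^ (6 * k) := by positivity
    have a3 : M * S / V ^ (2 * k) ≤ 16 ^ k * Y ^ 3 * ((N : ℝ) ^ (2 * k) / V ^ (2 * k)) := by
      rw [mul_div_assoc']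
      exact div_le_div_of_nonneg_right a1 p1.le
    have a4 : T * M * S ^ 3 / V ^ (6 * k) ≤
        16 ^ k * Y ^ 3 * (T * (N : ℝ) ^ (4 * k) / V ^ (6 * k)) := by
      rw [mul_div_assoc']
      refine div_le_div_of_nonneg_right ?_ p2.le
      have := mul_le_mul_of_nonneg_left a2 (by linarith : (0 : ℝ) ≤ T)
      linarith
    have p3 : 0 ≤ (N : ℝ) ^ (2 * k) / V ^ (2 * k) + T * (N : ℝ) ^ (4 * k) / V ^ (6 * k) := by
      positivity
    calc C0 * Real.log X ^ 6 * (M * S / V ^ (2 * k) + T * M * S ^ 3 / V ^ (6 * k)) ≤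
        C0 * Real.log X ^ 6 * (16 ^ k * Y ^ 3 * ((N : ℝ) ^ (2 * k) / V ^ (2 * k)) +
          16 ^ k * Y ^ 3 * (T * (N : ℝ) ^ (4 * k) / V ^ (6 * k))) :=
          mul_le_mul_of_nonneg_left (add_le_add a3 a4) (by positivity)
      _ = (C0 * 16 ^ k * Real.log X ^ 6) * Y ^ 3 * ((N : ℝ) ^ (2 * k) / V ^ (2 * k) +
          T * (N : ℝ) ^ (4 * k) / V ^ (6 * k)) := by ring
      _ ≤ Y * Y ^ 3 * ((N : ℝ) ^ (2 * k) / V ^ (2 * k) +
          T * (N : ℝ) ^ (4 * k) / V ^ (6 * k)) :=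
          mul_le_mul_of_nonneg_right (mul_le_mul_of_nonneg_right h3 (by positivity)) p3
      _ ≤ Y ^ 16 * ((N : ℝ) ^ (2 * k) / V ^ (2 * k) +
          T * (N : ℝ) ^ (4 * k) / V ^ (6 * k)) := by
          refine mul_le_mul_of_nonneg_right ?_ p3
          rw [← pow_succ']
          exact pow_le_pow_right₀ hY1 (by norm_num)
      _ = _ := by rw [hY16]
  rcases min_choice (T * (N : ℝ) ^ k / V ^ (2 * k)) (T * (N : ℝ) ^ (4 * k) / V ^ (6 * k)) with
    h | h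
  · rw [h]
    exact b1
  · rw [h]
    exact b2

end Pool.Agent.H88.PSI

end

section

/-!
# PSI Lvs: large values of one factor, exponents

Choose `k` with `N^k ∈ [X^(2/3-e), X^(1-e)]`: `k = 2` if `N > X^(1/3)` (then `X^(2/3) < N^2 ≤ X^(11/12) ≤ X^(1-e)`), otherwise the least `k`
with `N^k ≥ X^(2/3-e)` (then `N^k < X^(2/3-e) N ≤ X^(1-e)`); `k ≤ 1/κ + 1`, so `X0` = the maximum of the `X0` of `lvk k (e δ/8)` (`lvk k (δ/2)`
for `lvl`) over these `k`, and `2^k X^(1-e) ≤ X`.  Write `N^k = X^u`, `u ∈ [2/3-e, 1-e]`, `V = N^σ`.  Exponents in `lvk`: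
* first term: `2u(1-σ)`;
* second: `5/6 - e + u(1-2σ)`, `5/6 - e + u(4-6σ)`.

`lvs`: `σ = s - eδ/4`.  First: `2u(1-σ) ≤ 2(1-e)(1-s+eδ/4) ≤ 2-2s - (3/2) e δ`.  Second: the smaller one is `≤ 2-2σ-e/2`:
for `σ ≤ 1/2`: `5/6-e+(1-2σ)`; for `1/2 ≤ σ ≤ 3/4`: `2-2σ-(5/6-e)-u(1-2σ) ≥ 1/2+2e-σ(2/3+2e) ≥ e/2`; for `3/4 ≤ σ ≤ 1`:
`2-2σ-(5/6-e)-u(4-6σ) ≥ -3/2+5e+σ(2-6e) ≥ e/2`.  And `2-2σ-e/2 = 2-2s+eδ/2-e/2 ≤ 2-2s-(9/8)eδ - e/16`-ish (`δ ≤ 1/4`).  Total
`X^(eδ/8) (X^(2-2s-3eδ/2) + X^(2-2s-9eδ/8-..)) ≤ X^(2-2s-eδ)`.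

`lvl`: `σ = 1-δ`: first `≤ 2δ`; second (Huxley) `5/6-e-2u+6uδ ≤ 5/6-4/3+2e+6δ < 0`.  Total `≤ X^(3δ)`.
-/

set_option autoImplicit false

namespace Pool.Agent.H88.PSI

open Finset MeasureTheory

private theorem lvs_k {x n e κ : ℝ} {K : ℕ} (hx : 3 ≤ x) (hn : 1 ≤ n) (he : 0 < e)
    (he' : e ≤ 1 / 100) (hK : 1 ≤ κ * K) (h1 : x ^ κ ≤ n)
    (h2 : n ≤ x ^ (11 / 24 : ℝ)) : ∃ j : ℕ, j < K + 2 ∧ x ^ (2 / 3 - e) ≤ n ^ (j + 1) ∧
      n ^ (j + 1) ≤ x ^ (1 - e) := by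
  have hx0 : 0 < x := by linarith only [hx, he, he']
  have hx1 : 1 < x := by linarith only [hx, he, he']
  have hn0 : 0 < n := by linarith
  by_cases h3 : x ^ (1 / 3 : ℝ) < n
  · refine ⟨1, by omega, ?_, ?_⟩
    · calc x ^ (2 / 3 - e) ≤ x ^ (1 / 3 + 1 / 3 : ℝ) :=
            Real.rpow_le_rpow_of_exponent_le hx1.le (by linarith only [he])
        _ = x ^ (1 / 3 : ℝ) * x ^ (1 / 3 : ℝ) := Real.rpow_add hx0 _ _
        _ ≤ n * n := mul_le_mul h3.le h3.le (Real.rpow_nonneg hx0.le _) hn0.le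
        _ = n ^ (1 + 1) := by ring
    · calc n ^ (1 + 1) = n * n := by ring
        _ ≤ x ^ (11 / 24 : ℝ) * x ^ (11 / 24 : ℝ) :=
            mul_le_mul h2 h2 hn0.le (Real.rpow_nonneg hx0.le _)
        _ = x ^ (11 / 24 + 11 / 24 : ℝ) := (Real.rpow_add hx0 _ _).symm
        _ ≤ x ^ (1 - e) := Real.rpow_le_rpow_of_exponent_le hx1.le (by linarith only [he, he'])
  · push Not at h3
    have hex : ∃ k : ℕ, x ^ (2 / 3 - e) ≤ n ^ k := by
      refine ⟨K, ?_⟩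
      calc x ^ (2 / 3 - e) ≤ x ^ (κ * K) :=
            Real.rpow_le_rpow_of_exponent_le hx1.le (by linarith only [he, he', hK])
        _ = (x ^ κ) ^ K := by rw [Real.rpow_mul hx0.le, Real.rpow_natCast]
        _ ≤ n ^ K := pow_le_pow_left₀ (Real.rpow_nonneg hx0.le _) h1 K
    classical
    have hle : Nat.find hex ≤ K := by
      refine Nat.find_min' hex ?_
      calc x ^ (2 / 3 - e) ≤ x ^ (κ * K) :=
            Real.rpow_le_rpow_of_exponent_le hx1.le (by linarith only [he, he', hK])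
        _ = (x ^ κ) ^ K := by rw [Real.rpow_mul hx0.le, Real.rpow_natCast]
        _ ≤ n ^ K := pow_le_pow_left₀ (Real.rpow_nonneg hx0.le _) h1 K
    have hne : Nat.find hex ≠ 0 := by
      intro h0
      have h4 := Nat.find_spec hex
      rw [h0, pow_zero] at h4
      have h5 : 1 < x ^ (2 / 3 - e) := Real.one_lt_rpow hx1 (by linarith only [he, he'])
      linarith only [h4, h5]
    obtain ⟨j, hj⟩ := Nat.exists_eq_succ_of_ne_zero hne
    refine ⟨j, by omega, ?_, ?_⟩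
    · have h4 := Nat.find_spec hex
      rw [hj] at h4
      exact h4
    · have h5 : ¬ x ^ (2 / 3 - e) ≤ n ^ j := Nat.find_min hex (by omega)
      push Not at h5
      calc n ^ (j + 1) = n ^ j * n := pow_succ _ _
        _ ≤ x ^ (2 / 3 - e) * x ^ (1 / 3 : ℝ) :=
            mul_le_mul h5.le h3 hn0.le (Real.rpow_nonneg hx0.le _)
        _ = x ^ (2 / 3 - e + 1 / 3) := (Real.rpow_add hx0 _ _).symm
        _ = x ^ (1 - e) := by congr 1; ring

private theorem lvs_core (e e1 κ : ℝ) (he : 0 < e) (he' : e ≤ 1 / 100) (he1 : 0 < e1)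
    (hκ : 0 < κ) : ∃ X0 : ℕ, ∀ X : ℕ, X0 ≤ X → 3 ≤ X ∧
    ∀ (N : ℕ) (g : ArithmeticFunction ℂ) (σ T : ℝ) (B : Set ℝ),
    (X : ℝ) ^ κ ≤ N → (N : ℝ) ≤ (X : ℝ) ^ (11 / 24 : ℝ) →
    (∀ n, g n ≠ 0 → n ≤ 2 * N) → (∀ n, ‖g n‖ ≤ 2 * Real.log X) →
    1 ≤ T → T ≤ (X : ℝ) ^ (5 / 6 - e) → MeasurableSet B → B ⊆ Set.Icc (-T) T →
    (∀ t ∈ B, (N : ℝ) ^ σ ≤ ‖DP g (2 * N) t‖) →
    ∃ u : ℝ, 2 / 3 - e ≤ u ∧ u ≤ 1 - e ∧ volume.real B ≤ (X : ℝ) ^ e1 *
      ((X : ℝ) ^ (2 * u * (1 - σ)) + min ((X : ℝ) ^ (5 / 6 - e + u * (1 - 2 * σ)))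
        ((X : ℝ) ^ (5 / 6 - e + u * (4 - 6 * σ)))) := by
  choose f hf using fun j : ℕ => lvk (j + 1) e1 (by omega) he1
  set K : ℕ := ⌈1 / κ⌉₊ with hK
  have hK1 : 1 ≤ κ * K := by
    have h1 : 1 / κ ≤ K := Nat.le_ceil _
    rw [div_le_iff₀ hκ] at h1
    linarith only [h1]
  refine ⟨max (∑ j ∈ range (K + 2), f j) (max 3 ⌈((2 : ℝ) ^ (K + 2)) ^ (1 / e)⌉₊),
    fun X hX => ?_⟩
  have hX1 : ∑ j ∈ range (K + 2), f j ≤ X := (le_max_left _ _).trans hX
  have hX3 : 3 ≤ X := (le_max_left _ _).trans ((le_max_right _ _).trans hX)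
  have hX2 : ⌈((2 : ℝ) ^ (K + 2)) ^ (1 / e)⌉₊ ≤ X :=
    (le_max_right _ _).trans ((le_max_right _ _).trans hX)
  refine ⟨hX3, fun N g σ T B h1 h2 hg hg' hT hT' hB hBT hV => ?_⟩
  set x : ℝ := (X : ℝ) with hx
  have hx3 : 3 ≤ x := by
    rw [hx]
    exact_mod_cast hX3
  have hx0 : 0 < x := by linarith only [he, he', hx3]
  have hx1 : 1 < x := by linarith only [he, he', hx3]
  have hN1 : (1 : ℝ) ≤ N := (Real.one_le_rpow hx1.le hκ.le).trans h1
  have hN0 : (0 : ℝ) < N := by linarith only [he, he', hN1]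
  have hN : 1 ≤ N := by exact_mod_cast hN1
  obtain ⟨j, hj, k1, k2⟩ := lvs_k hx3 hN1 he he' hK1 h1 h2
  have hfX : f j ≤ X := (single_le_sum (fun i _ => Nat.zero_le (f i)) (mem_range.2 hj)).trans hX1
  have h2e : (2 : ℝ) ^ (K + 2) ≤ x ^ e := by
    have h3 : ((2 : ℝ) ^ (K + 2)) ^ (1 / e) ≤ x := (Nat.le_ceil _).trans (by rw [hx]; exact_mod_cast hX2)
    have h4 : (((2 : ℝ) ^ (K + 2)) ^ (1 / e)) ^ e ≤ x ^ e :=
      Real.rpow_le_rpow (by positivity) h3 he.le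
    rwa [← Real.rpow_mul (by positivity), one_div_mul_cancel he.ne', Real.rpow_one] at h4
  have hpow : (2 * N) ^ (j + 1) ≤ X := by
    have h3 : ((2 * N : ℕ) : ℝ) ^ (j + 1) ≤ x := by
      push_cast
      rw [mul_pow]
      calc (2 : ℝ) ^ (j + 1) * (N : ℝ) ^ (j + 1) ≤ 2 ^ (K + 2) * x ^ (1 - e) :=
            mul_le_mul (pow_le_pow_right₀ (by norm_num) (by omega)) k2 (by positivity)
              (by positivity)
        _ ≤ x ^ e * x ^ (1 - e) := mul_le_mul_of_nonneg_right h2e (Real.rpow_nonneg hx0.le _)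
        _ = x := by rw [← Real.rpow_add hx0]; simp
    rw [hx] at h3
    exact_mod_cast h3
  have hTX : T ≤ x := by
    refine hT'.trans ?_
    calc x ^ (5 / 6 - e) ≤ x ^ (1 : ℝ) := Real.rpow_le_rpow_of_exponent_le hx1.le (by linarith only [he, he'])
      _ = x := Real.rpow_one x
  have hV0 : 0 < (N : ℝ) ^ σ := Real.rpow_pos_of_pos hN0 _
  have main := hf j X hfX N g ((N : ℝ) ^ σ) T B hN hpow hg hg' hV0 hT hTX hB hBT hV
  obtain ⟨u, hu⟩ : ∃ u : ℝ, x ^ u = (N : ℝ) ^ (j + 1) :=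
    ⟨Real.logb x ((N : ℝ) ^ (j + 1)), Real.rpow_logb hx0 hx1.ne' (by positivity)⟩
  have u1 : 2 / 3 - e ≤ u := by
    rw [← hu] at k1
    exact (Real.rpow_le_rpow_left_iff hx1).1 k1
  have u2 : u ≤ 1 - e := by
    rw [← hu] at k2
    exact (Real.rpow_le_rpow_left_iff hx1).1 k2
  -- the powers of `N` and `V`
  have pN : ∀ m : ℕ, (N : ℝ) ^ (m * (j + 1)) = x ^ (m * u) := by
    intro m
    rw [mul_comm m, pow_mul, ← hu, ← Real.rpow_natCast, ← Real.rpow_mul hx0.le, mul_comm u]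
  have pV : ∀ m : ℕ, ((N : ℝ) ^ σ) ^ (m * (j + 1)) = x ^ (m * u * σ) := by
    intro m
    rw [← Real.rpow_natCast, ← Real.rpow_mul hN0.le, mul_comm σ, Real.rpow_mul hN0.le,
      Real.rpow_natCast, pN, ← Real.rpow_mul hx0.le]
  have p1 : (N : ℝ) ^ (j + 1) = x ^ (1 * u) := by rw [one_mul, hu]
  refine ⟨u, u1, u2, main.trans ?_⟩
  refine mul_le_mul_of_nonneg_left (add_le_add ?_ (min_le_min ?_ ?_)) (Real.rpow_nonneg hx0.le _)
  · rw [pN, pV, ← Real.rpow_sub hx0]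
    refine le_of_eq ?_
    congr 1
    push_cast
    ring
  · rw [p1, pV]
    calc T * x ^ (1 * u) / x ^ (((2 : ℕ) : ℝ) * u * σ)
        ≤ x ^ (5 / 6 - e) * x ^ (1 * u) / x ^ (((2 : ℕ) : ℝ) * u * σ) := by gcongr
      _ = x ^ (5 / 6 - e + u * (1 - 2 * σ)) := by
        rw [← Real.rpow_add hx0, ← Real.rpow_sub hx0]
        congr 1
        push_cast
        ring
  · rw [pN, pV]
    calc T * x ^ (((4 : ℕ) : ℝ) * u) / x ^ (((6 : ℕ) : ℝ) * u * σ)
        ≤ x ^ (5 / 6 - e) * x ^ (((4 : ℕ) : ℝ) * u) / x ^ (((6 : ℕ) : ℝ) * u * σ) := by gcongr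
      _ = x ^ (5 / 6 - e + u * (4 - 6 * σ)) := by
        rw [← Real.rpow_add hx0, ← Real.rpow_sub hx0]
        congr 1
        push_cast
        ring

private theorem lvs_two {c : ℝ} (hc : 0 < c) : ∃ X0 : ℕ, ∀ X : ℕ, X0 ≤ X → 2 ≤ (X : ℝ) ^ c := by
  refine ⟨⌈(2 : ℝ) ^ (1 / c)⌉₊, fun X hX => ?_⟩
  have h3 : (2 : ℝ) ^ (1 / c) ≤ X := (Nat.le_ceil _).trans (by exact_mod_cast hX)
  have h4 : ((2 : ℝ) ^ (1 / c)) ^ c ≤ (X : ℝ) ^ c := Real.rpow_le_rpow (by positivity) h3 hc.le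
  rwa [← Real.rpow_mul (by norm_num), one_div_mul_cancel hc.ne', Real.rpow_one] at h4

theorem lvs (e δ κ : ℝ) (he : 0 < e) (he' : e ≤ 1 / 100) (hδ : 0 < δ) (hδ' : δ ≤ 1 / 4) (hκ : 0 < κ) :
    ∃ X0 : ℕ, ∀ X : ℕ, X0 ≤ X → ∀ (N : ℕ) (g : ArithmeticFunction ℂ) (s T : ℝ) (B : Set ℝ),
    (X : ℝ) ^ κ ≤ N → (N : ℝ) ≤ (X : ℝ) ^ (11 / 24 : ℝ) →
    (∀ n, g n ≠ 0 → n ≤ 2 * N) → (∀ n, ‖g n‖ ≤ 2 * Real.log X) → 1 / 2 ≤ s → s ≤ 1 - δ →
    1 ≤ T → T ≤ (X : ℝ) ^ (5 / 6 - e) → MeasurableSet B → B ⊆ Set.Icc (-T) T →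
    (∀ t ∈ B, (N : ℝ) ^ (s - e * δ / 4) ≤ ‖DP g (2 * N) t‖) →
    volume.real B ≤ (X : ℝ) ^ (2 - 2 * s - e * δ) := by
  obtain ⟨X1, h1⟩ := lvs_core e (e * δ / 8) κ he he' (by positivity) hκ
  obtain ⟨X2, h2⟩ := lvs_two (c := 3 / 8 * (e * δ)) (by positivity)
  refine ⟨max X1 X2, fun X hX N g s T B hN hN' hg hg' hs hs' hT hT' hB hBT hV => ?_⟩
  obtain ⟨hX3, h3⟩ := h1 X ((le_max_left _ _).trans hX)
  have h4 := h2 X ((le_max_right _ _).trans hX)
  obtain ⟨u, u1, u2, hb⟩ := h3 N g (s - e * δ / 4) T B hN hN' hg hg' hT hT' hB hBT hV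
  set x : ℝ := (X : ℝ) with hx
  have hx3 : 3 ≤ x := by
    rw [hx]
    exact_mod_cast hX3
  have hx0 : 0 < x := by linarith only [he, he', hx3]
  have hx1 : 1 ≤ x := by linarith only [he, he', hx3]
  have hed : 0 < e * δ := by positivity
  have hed1 : e * δ ≤ e / 4 := by nlinarith only [he, hδ']
  have hed2 : e * δ ≤ 1 / 400 := by linarith only [he', hed1]
  set σ : ℝ := s - e * δ / 4 with hσ
  have b1 : x ^ (2 * u * (1 - σ)) ≤ x ^ (2 - 2 * s - 3 / 2 * (e * δ)) := by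
    refine Real.rpow_le_rpow_of_exponent_le hx1 ?_
    have : 0 ≤ 1 - σ := by rw [hσ]; linarith only [hδ, hs', hed]
    have a1 : u * (1 - σ) ≤ (1 - e) * (1 - σ) := mul_le_mul_of_nonneg_right u2 this
    have a2 : (1 - e) * (1 - σ) = 1 - s + e * δ / 4 - e * (1 - s) - e * (e * δ) / 4 := by
      rw [hσ]; ring
    have a3 : e * δ ≤ e * (1 - s) := mul_le_mul_of_nonneg_left (by linarith only [hs']) he.le
    have a4 : 0 ≤ e * (e * δ) := by positivity
    linarith only [a1, a2, a3, a4]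
  have b2 : min (x ^ (5 / 6 - e + u * (1 - 2 * σ))) (x ^ (5 / 6 - e + u * (4 - 6 * σ))) ≤
      x ^ (2 - 2 * s - 3 / 2 * (e * δ)) := by
    have hgoal : 2 - 2 * σ - e / 2 ≤ 2 - 2 * s - 3 / 2 * (e * δ) := by
      rw [hσ]
      linarith only [hed1]
    rcases le_total σ (1 / 2) with c1 | c1
    · refine (min_le_left _ _).trans (Real.rpow_le_rpow_of_exponent_le hx1 (le_trans ?_ hgoal))
      have a1 : u * (1 - 2 * σ) ≤ 1 * (1 - 2 * σ) :=
        mul_le_mul_of_nonneg_right (by linarith only [u2, hed, hed1]) (by linarith only [c1])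
      linarith only [he', hed, hed1, a1]
    rcases le_total σ (3 / 4) with c2 | c2
    · refine (min_le_left _ _).trans (Real.rpow_le_rpow_of_exponent_le hx1 (le_trans ?_ hgoal))
      have a1 : (2 / 3 - e) * (2 * σ - 1) ≤ u * (2 * σ - 1) :=
        mul_le_mul_of_nonneg_right u1 (by linarith only [c1])
      have a2 : (2 / 3 + 2 * e) * σ ≤ (2 / 3 + 2 * e) * (3 / 4) :=
        mul_le_mul_of_nonneg_left c2 (by linarith only [he', hed, hed1])
      nlinarith only [a1, a2]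
    · refine (min_le_right _ _).trans (Real.rpow_le_rpow_of_exponent_le hx1 (le_trans ?_ hgoal))
      have a1 : (2 / 3 - e) * (6 * σ - 4) ≤ u * (6 * σ - 4) :=
        mul_le_mul_of_nonneg_right u1 (by linarith only [he', hed, hed1, c2])
      have a2 : (2 - 6 * e) * (3 / 4) ≤ (2 - 6 * e) * σ :=
        mul_le_mul_of_nonneg_left c2 (by linarith only [he', hed, hed1])
      nlinarith only [a1, a2]
  calc volume.real B ≤ x ^ (e * δ / 8) * (x ^ (2 - 2 * s - 3 / 2 * (e * δ)) +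
        x ^ (2 - 2 * s - 3 / 2 * (e * δ))) := by
        refine hb.trans (mul_le_mul_of_nonneg_left (add_le_add b1 b2) (Real.rpow_nonneg hx0.le _))
    _ = 2 * x ^ (2 - 2 * s - e * δ - 3 / 8 * (e * δ)) := by
        rw [← two_mul, mul_left_comm, ← Real.rpow_add hx0]
        congr 2
        ring
    _ ≤ x ^ (3 / 8 * (e * δ)) * x ^ (2 - 2 * s - e * δ - 3 / 8 * (e * δ)) :=
        mul_le_mul_of_nonneg_right h4 (Real.rpow_nonneg hx0.le _)
    _ = x ^ (2 - 2 * s - e * δ) := by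
        rw [← Real.rpow_add hx0]
        congr 1
        ring

theorem lvl (e δ κ : ℝ) (he : 0 < e) (he' : e ≤ 1 / 100) (hδ : 0 < δ) (hδ' : δ ≤ 1 / 50) (hκ : 0 < κ) :
    ∃ X0 : ℕ, ∀ X : ℕ, X0 ≤ X → ∀ (N : ℕ) (g : ArithmeticFunction ℂ) (T : ℝ) (B : Set ℝ),
    (X : ℝ) ^ κ ≤ N → (N : ℝ) ≤ (X : ℝ) ^ (11 / 24 : ℝ) →
    (∀ n, g n ≠ 0 → n ≤ 2 * N) → (∀ n, ‖g n‖ ≤ 2 * Real.log X) →
    1 ≤ T → T ≤ (X : ℝ) ^ (5 / 6 - e) → MeasurableSet B → B ⊆ Set.Icc (-T) T →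
    (∀ t ∈ B, (N : ℝ) ^ (1 - δ) ≤ ‖DP g (2 * N) t‖) →
    volume.real B ≤ (X : ℝ) ^ (3 * δ) := by
  obtain ⟨X1, h1⟩ := lvs_core e (δ / 2) κ he he' (by positivity) hκ
  obtain ⟨X2, h2⟩ := lvs_two (c := δ / 2) (by positivity)
  refine ⟨max X1 X2, fun X hX N g T B hN hN' hg hg' hT hT' hB hBT hV => ?_⟩
  obtain ⟨hX3, h3⟩ := h1 X ((le_max_left _ _).trans hX)
  have h4 := h2 X ((le_max_right _ _).trans hX)
  obtain ⟨u, u1, u2, hb⟩ := h3 N g (1 - δ) T B hN hN' hg hg' hT hT' hB hBT hV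
  set x : ℝ := (X : ℝ) with hx
  have hx3 : 3 ≤ x := by
    rw [hx]
    exact_mod_cast hX3
  have hx0 : 0 < x := by linarith only [he, he', hx3]
  have hx1 : 1 ≤ x := by linarith only [he, he', hx3]
  have b1 : x ^ (2 * u * (1 - (1 - δ))) ≤ x ^ (2 * δ) := by
    refine Real.rpow_le_rpow_of_exponent_le hx1 ?_
    nlinarith only [he, hδ, he', u2]
  have b2 : min (x ^ (5 / 6 - e + u * (1 - 2 * (1 - δ))))
      (x ^ (5 / 6 - e + u * (4 - 6 * (1 - δ)))) ≤ x ^ (2 * δ) := by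
    refine (min_le_right _ _).trans (Real.rpow_le_rpow_of_exponent_le hx1 ?_)
    nlinarith only [he', hδ', u1, he, hδ, u2]
  calc volume.real B ≤ x ^ (δ / 2) * (x ^ (2 * δ) + x ^ (2 * δ)) :=
        hb.trans (mul_le_mul_of_nonneg_left (add_le_add b1 b2) (Real.rpow_nonneg hx0.le _))
    _ = 2 * x ^ (δ / 2 + 2 * δ) := by
        rw [← two_mul, mul_left_comm, ← Real.rpow_add hx0]
    _ ≤ x ^ (δ / 2) * x ^ (δ / 2 + 2 * δ) :=
        mul_le_mul_of_nonneg_right h4 (Real.rpow_nonneg hx0.le _)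
    _ = x ^ (3 * δ) := by
        rw [← Real.rpow_add hx0]
        congr 1
        ring

end Pool.Agent.H88.PSI

end
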