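import Pool.Agent.H43.PJ.M44
import Pool.Agent.H43.PJ.M73

/-! The parts of this file: H88.PSI.Lon, H88.PSI.Sho, H88.PSI.Ti. -/

section

/-!
# PSI Lon: long windows, type I

`em_abs`: `∑_{m ≤ x/k} |a m|/H1 ≤ 4 X^(13/24) Q/H1`; edge: `∑_zone |a m|/H1 ≤ Q (H1/k + 1)/H1`; and
`(∑_zone |a m|/m)^2 ≤ (1 + log 3X) ∑_zone |a m|^2/m`, `zone_sum`, `tau_momd`: `≤ 2 L H1 (20 L)^2 (1+log 3X)^(2^10) ≤ X L^(C - A1)`.
-/

set_option autoImplicit false

namespace Pool.Agent.H88.PSI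

open Finset

private theorem Lon_ev (c : ℝ) (n : ℕ) (e : ℝ) (he : 0 < e) :
    ∀ᶠ X : ℕ in Filter.atTop, c * Real.log X ^ n ≤ (X : ℝ) ^ e := by
  have h1 := isLittleO_log_rpow_rpow_atTop (s := e) (n : ℝ) he
  have hc : (0 : ℝ) < 1 / (|c| + 1) := by positivity
  have h2 := (tendsto_natCast_atTop_atTop (R := ℝ)).eventually (h1.bound hc)
  filter_upwards [h2, Filter.eventually_ge_atTop 1] with X hX hX1
  have hx1 : (1 : ℝ) ≤ X := by exact_mod_cast hX1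
  have hl : 0 ≤ Real.log X := Real.log_nonneg hx1
  rw [Real.norm_of_nonneg (show (0 : ℝ) ≤ Real.log X ^ (n : ℝ) from Real.rpow_nonneg hl _),
    Real.norm_of_nonneg (show (0 : ℝ) ≤ (X : ℝ) ^ e by positivity), Real.rpow_natCast] at hX
  have h3 : (|c| + 1) * Real.log X ^ n ≤ (X : ℝ) ^ e := by
    have := mul_le_mul_of_nonneg_left hX (show 0 ≤ |c| + 1 by positivity)
    calc (|c| + 1) * Real.log X ^ n ≤ (|c| + 1) * (1 / (|c| + 1) * (X : ℝ) ^ e) := this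
      _ = (X : ℝ) ^ e := by field_simp
  refine le_trans (mul_le_mul_of_nonneg_right ?_ (by positivity)) h3
  linarith only [le_abs_self c]

/-- the divisor bound used -/
private theorem Lon_Q : ∀ᶠ X : ℕ in Filter.atTop, ∀ m : ℕ, m ≤ 3 * X →
    20 * Real.log X * tau m ^ 5 ≤ (X : ℝ) ^ (1 / 1000 : ℝ) := by
  obtain ⟨C, hC, hτ⟩ := tau_eps (1 / 10000) (by norm_num)
  filter_upwards [Lon_ev (1920 * C ^ 5) 1 (1 / 2000) (by norm_num),
    Filter.eventually_ge_atTop 1] with X hX hX1 m hm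
  have hx1 : (1 : ℝ) ≤ X := by exact_mod_cast hX1
  have hx0 : (0 : ℝ) < X := by linarith only [hx1]
  have hl : 0 ≤ Real.log X := Real.log_nonneg hx1
  have hmr : (m : ℝ) ≤ 3 * X := by exact_mod_cast hm
  have h1 : (m : ℝ) ^ (1 / 10000 : ℝ) ≤ (3 * (X : ℝ)) ^ (1 / 10000 : ℝ) :=
    Real.rpow_le_rpow (Nat.cast_nonneg _) hmr (by norm_num)
  have h2 : (1 : ℝ) ≤ (3 * (X : ℝ)) ^ (1 / 10000 : ℝ) :=
    Real.one_le_rpow (by linarith only [hx1]) (by norm_num)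
  have h3 : tau m ≤ 2 * C * (3 * (X : ℝ)) ^ (1 / 10000 : ℝ) := by
    have h4 := hτ m
    have h5 := mul_le_mul_of_nonneg_left h1 (show (0 : ℝ) ≤ C by linarith only [hC])
    have h6 := mul_le_mul_of_nonneg_left h2 (show (0 : ℝ) ≤ C by linarith only [hC])
    linarith only [h4, h5, h6]
  have ht0 : 0 ≤ tau m := by unfold tau; positivity
  have h4 : tau m ^ 5 ≤ 96 * C ^ 5 * (X : ℝ) ^ (1 / 2000 : ℝ) := by
    calc tau m ^ 5 ≤ (2 * C * (3 * (X : ℝ)) ^ (1 / 10000 : ℝ)) ^ 5 :=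
          pow_le_pow_left₀ ht0 h3 5
      _ = 32 * C ^ 5 * ((3 : ℝ) ^ (1 / 2000 : ℝ) * (X : ℝ) ^ (1 / 2000 : ℝ)) := by
          rw [mul_pow, ← Real.mul_rpow (by norm_num) hx0.le, ← Real.rpow_natCast
            ((3 * (X : ℝ)) ^ (1 / 10000 : ℝ)), ← Real.rpow_mul (by positivity), mul_pow]
          norm_num
      _ ≤ 32 * C ^ 5 * (3 * (X : ℝ) ^ (1 / 2000 : ℝ)) := by
          refine mul_le_mul_of_nonneg_left (mul_le_mul_of_nonneg_right ?_ (by positivity))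
            (by positivity)
          calc (3 : ℝ) ^ (1 / 2000 : ℝ) ≤ (3 : ℝ) ^ (1 : ℝ) :=
                Real.rpow_le_rpow_of_exponent_le (by norm_num) (by norm_num)
            _ = 3 := Real.rpow_one _
      _ = 96 * C ^ 5 * (X : ℝ) ^ (1 / 2000 : ℝ) := by ring
  rw [pow_one] at hX
  calc 20 * Real.log X * tau m ^ 5 ≤ 20 * Real.log X * (96 * C ^ 5 * (X : ℝ) ^ (1 / 2000 : ℝ)) :=
        mul_le_mul_of_nonneg_left h4 (by positivity)
    _ = (1920 * C ^ 5 * Real.log X) * (X : ℝ) ^ (1 / 2000 : ℝ) := by ring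
    _ ≤ (X : ℝ) ^ (1 / 2000 : ℝ) * (X : ℝ) ^ (1 / 2000 : ℝ) :=
        mul_le_mul_of_nonneg_right hX (by positivity)
    _ = (X : ℝ) ^ (1 / 1000 : ℝ) := by
        rw [← Real.rpow_add hx0]
        norm_num

/-- pointwise bound of the difference -/
private theorem Lon_pt (d u H1 k X x : ℕ) (a : ArithmeticFunction ℝ) (Q : ℝ) (hd : 1 ≤ d)
    (hu : Nat.Coprime u d) (hk : 1 ≤ k) (hH1 : 1 ≤ H1) (hHX : H1 ≤ X) (hx : x ∈ Ico X (2 * X))
    (hQ : ∀ m ≤ 3 * X, |a m| ≤ Q) :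
    ‖W (cl d u (hi 0 k * a)) H1 x / H1 - ((Bk a d k x : ℝ) : ℂ)‖ ≤
      ∑ m ∈ Ioc (x / k) ((x + H1) / k), |a m| / m +
        (Q / k + Q / H1 + 2 * X / k * Q / H1) := by
  rw [mem_Ico] at hx
  have hH0 : (0 : ℝ) < H1 := by exact_mod_cast hH1
  have hk0 : (0 : ℝ) < k := by exact_mod_cast hk
  have hQ0 : 0 ≤ Q := (abs_nonneg _).trans (hQ 0 (Nat.zero_le _))
  have hxX : x ≤ 2 * X := hx.2.le
  set S : ℝ := ∑ m ∈ (Icc 1 (x / k)).filter (fun m => Nat.Coprime m d), a m * cnt d u H1 m x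
    with hS
  set S' : ℝ := ∑ m ∈ (Icc 1 (x / k)).filter (fun m => Nat.Coprime m d), a m * em d u H1 m x
    with hS'
  have e1 := ti_edge a d u H1 k x hd hk hu
  have e2 := bk_eq a d u H1 k x hH1
  rw [← hS, ← hS'] at e2
  rw [← hS] at e1
  have e3 : W (cl d u (hi 0 k * a)) H1 x / H1 - ((Bk a d k x : ℝ) : ℂ) =
      (W (cl d u (hi 0 k * a)) H1 x - ((S : ℝ) : ℂ)) / H1 + ((S' / H1 : ℝ) : ℂ) := by
    rw [← e2]
    push_cast
    ring
  rw [e3]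
  refine (norm_add_le _ _).trans ?_
  have n1 : ‖(W (cl d u (hi 0 k * a)) H1 x - ((S : ℝ) : ℂ)) / H1‖ ≤
      ∑ m ∈ Ioc (x / k) ((x + H1) / k), |a m| / m + (Q / k + Q / H1) := by
    rw [norm_div, Complex.norm_natCast, div_le_iff₀ hH0]
    refine e1.trans ?_
    have z1 : ∑ m ∈ Ioc (x / k) ((x + H1) / k), |a m| * ((H1 : ℝ) / m + 1) =
        (∑ m ∈ Ioc (x / k) ((x + H1) / k), |a m| / m) * H1 +
          ∑ m ∈ Ioc (x / k) ((x + H1) / k), |a m| := by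
      rw [sum_mul, ← sum_add_distrib]
      exact sum_congr rfl fun m _ => by ring
    have z2 : ∑ m ∈ Ioc (x / k) ((x + H1) / k), |a m| ≤ ((H1 : ℝ) / k + 1) * Q := by
      have c1 : ∑ m ∈ Ioc (x / k) ((x + H1) / k), |a m| ≤
          ∑ m ∈ Ioc (x / k) ((x + H1) / k), Q := by
        refine sum_le_sum fun m hm => hQ m ?_
        rw [mem_Ioc] at hm
        have := hm.2.trans (Nat.div_le_self _ _)
        omega
      rw [sum_const, nsmul_eq_mul, Nat.card_Ioc] at c1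
      refine c1.trans (mul_le_mul_of_nonneg_right ?_ hQ0)
      have c2 : (x + H1) / k - x / k ≤ H1 / k + 1 := by
        have := Nat.add_div (a := x) (b := H1) (c := k) (by omega)
        rw [this]
        generalize x / k = q1
        generalize H1 / k = q2
        split_ifs <;> omega
      have c3 : (((x + H1) / k - x / k : ℕ) : ℝ) ≤ ((H1 / k + 1 : ℕ) : ℝ) := by exact_mod_cast c2
      refine c3.trans ?_
      push_cast
      have := Nat.cast_div_le (α := ℝ) (m := H1) (n := k)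
      linarith only [this]
    rw [z1]
    have z3 : ((∑ m ∈ Ioc (x / k) ((x + H1) / k), |a m| / m) + (Q / k + Q / H1)) * H1 =
        (∑ m ∈ Ioc (x / k) ((x + H1) / k), |a m| / m) * H1 + ((H1 : ℝ) / k + 1) * Q := by
      field_simp
    rw [z3]
    linarith only [z2]
  have n2 : ‖((S' / H1 : ℝ) : ℂ)‖ ≤ 2 * X / k * Q / H1 := by
    rw [Complex.norm_real, norm_div, Real.norm_eq_abs, Real.norm_of_nonneg hH0.le]
    refine div_le_div_of_nonneg_right ?_ hH0.le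
    rw [hS']
    refine (abs_sum_le_sum_abs _ _).trans ?_
    have c1 : ∑ m ∈ (Icc 1 (x / k)).filter (fun m => Nat.Coprime m d), |a m * em d u H1 m x| ≤
        ∑ m ∈ (Icc 1 (x / k)).filter (fun m => Nat.Coprime m d), Q := by
      refine sum_le_sum fun m hm => ?_
      rw [mem_filter, mem_Icc] at hm
      rw [abs_mul]
      have hmX : m ≤ 3 * X := by
        have := hm.1.2.trans (Nat.div_le_self _ _)
        omega
      calc |a m| * |em d u H1 m x| ≤ Q * 1 :=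
            mul_le_mul (hQ m hmX) (em_abs d u H1 m x hd hm.1.1 hm.2) (abs_nonneg _) hQ0
        _ = Q := mul_one _
    refine c1.trans ?_
    rw [sum_const, nsmul_eq_mul]
    refine mul_le_mul_of_nonneg_right ?_ hQ0
    have c2 : ((Icc 1 (x / k)).filter (fun m => Nat.Coprime m d)).card ≤ x / k := by
      refine (card_filter_le _ _).trans ?_
      rw [Nat.card_Icc]
      exact (Nat.add_sub_cancel (x / k) 1).le
    have c3 : (((Icc 1 (x / k)).filter (fun m => Nat.Coprime m d)).card : ℝ) ≤ ((x / k : ℕ) : ℝ) := by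
      exact_mod_cast c2
    refine c3.trans (Nat.cast_div_le.trans ?_)
    refine div_le_div_of_nonneg_right ?_ hk0.le
    exact_mod_cast hxX
  linarith only [n1, n2]

theorem ti_long (A B : ℕ) : ∃ A0 : ℕ, ∀ A1 : ℕ, A0 ≤ A1 → ∃ X0 : ℕ, ∀ X : ℕ, X0 ≤ X →
    ∀ (d u H1 k : ℕ) (a : ArithmeticFunction ℝ), 1 ≤ d → (d : ℝ) ≤ Real.log X ^ B → Nat.Coprime u d →
    H1 = ⌊X / Real.log X ^ A1⌋₊ →
    (X : ℝ) ^ (11 / 24 : ℝ) / 2 ≤ k → (∀ m, |a m| ≤ 20 * Real.log X * tau m ^ 5) →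
    ∑ x ∈ Ico X (2 * X), ‖W (cl d u (hi 0 k * a)) H1 x / H1 - ((Bk a d k x : ℝ) : ℂ)‖ ^ 2
      ≤ X / Real.log X ^ A := by
  refine ⟨A + (2 ^ 10 + 4), fun A1 hA1 => ?_⟩
  rw [← Filter.eventually_atTop]
  have htm : ∀ n : ℕ, ∑ m ∈ Icc 1 n, tau m ^ 10 / m ≤ (1 + Real.log n) ^ (2 ^ 10) :=
    fun n => tau_momd 10 n
  generalize (2 ^ 10 : ℕ) = N at htm hA1
  obtain ⟨K3, hK3, hK30⟩ : ∃ K3 : ℝ, (∀ t : ℝ, (3 * t) ^ (N + 1) = K3 * t ^ (N + 1)) ∧ 0 < K3 :=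
    ⟨3 ^ (N + 1), fun t => mul_pow 3 t (N + 1), by positivity⟩
  have hL : ∀ c : ℝ, ∀ᶠ X : ℕ in Filter.atTop, c ≤ Real.log X := fun c =>
    (Real.tendsto_log_atTop.comp (tendsto_natCast_atTop_atTop (R := ℝ))).eventually_ge_atTop c
  filter_upwards [Lon_Q, hL (1600 * K3 + 2), Lon_ev 2 A1 1 one_pos,
    Lon_ev 12 A1 (1 / 10) (by norm_num), Lon_ev 4 A (1 / 2) (by norm_num),
    Filter.eventually_ge_atTop 1] with X hQ hL1 hX1 hX2 hX3 hXge d u H1 k a hd hdB hu hH1 hk ha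
  have hx1 : (1 : ℝ) ≤ X := by exact_mod_cast hXge
  have hx0 : (0 : ℝ) < X := by linarith only [hx1]
  set L : ℝ := Real.log X with hLdef
  have hL2 : 2 ≤ L := by linarith only [hK30, hL1]
  have hL0 : 0 < L := by linarith only [hK30, hL1]
  set Q : ℝ := (X : ℝ) ^ (1 / 1000 : ℝ) with hQdef
  have hQ0 : 0 < Q := by positivity
  have haQ : ∀ m ≤ 3 * X, |a m| ≤ Q := fun m hm => (ha m).trans (hQ m hm)
  -- `H1`
  have hLA : 1 ≤ L ^ A1 := one_le_pow₀ (by linarith only [hK30, hL1])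
  rw [Real.rpow_one] at hX1
  have hq2 : 2 ≤ X / L ^ A1 := by
    rw [le_div_iff₀ (by positivity)]
    exact hX1
  have hH1le : (H1 : ℝ) ≤ X / L ^ A1 := by
    rw [hH1]
    exact Nat.floor_le (by positivity)
  have hH1ge : X / (2 * L ^ A1) ≤ (H1 : ℝ) := by
    have h1 : X / L ^ A1 < (H1 : ℝ) + 1 := by
      rw [hH1]
      exact Nat.lt_floor_add_one _
    have h2 : X / (2 * L ^ A1) = (X / L ^ A1) / 2 := by ring
    rw [h2]
    linarith only [hq2, h1]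
  have hH1pos : (0 : ℝ) < H1 := lt_of_lt_of_le (by positivity) hH1ge
  have hH1one : 1 ≤ H1 := by
    have : 0 < H1 := by exact_mod_cast hH1pos
    omega
  have hHX : H1 ≤ X := by
    have : (H1 : ℝ) ≤ X := hH1le.trans (div_le_self hx0.le hLA)
    exact_mod_cast this
  have hkpos : (0 : ℝ) < k := lt_of_lt_of_le (by positivity) hk
  have hkone : 1 ≤ k := by
    have : 0 < k := by exact_mod_cast hkpos
    omega
  -- the constant part
  set R : ℝ := Q / k + Q / H1 + 2 * X / k * Q / H1 with hR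
  have hR0 : 0 ≤ R := by positivity
  have hRle : R ≤ (X : ℝ) ^ (-(1 / 4) : ℝ) := by
    have k1 : 1 / (k : ℝ) ≤ 2 * (X : ℝ) ^ (-(11 / 24) : ℝ) := by
      rw [div_le_iff₀ hkpos, Real.rpow_neg hx0.le]
      have hp : (0 : ℝ) < (X : ℝ) ^ (11 / 24 : ℝ) := by positivity
      calc (1 : ℝ) = 2 * ((X : ℝ) ^ (11 / 24 : ℝ))⁻¹ * ((X : ℝ) ^ (11 / 24 : ℝ) / 2) := by
            field_simp
        _ ≤ _ := mul_le_mul_of_nonneg_left hk (by positivity)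
    have k2 : 1 / (H1 : ℝ) ≤ 2 * L ^ A1 / X := by
      rw [div_le_div_iff₀ hH1pos hx0]
      rw [div_le_iff₀ (by positivity)] at hH1ge
      linarith only [hH1ge]
    have s1 : Q / k ≤ 2 * ((X : ℝ) ^ (-(11 / 24) : ℝ) * Q) := by
      have := mul_le_mul_of_nonneg_left k1 hQ0.le
      calc Q / k = Q * (1 / k) := by ring
        _ ≤ _ := this
        _ = _ := by ring
    have s2 : Q / H1 ≤ 2 * L ^ A1 * ((X : ℝ) ^ (-1 : ℝ) * Q) := by
      have := mul_le_mul_of_nonneg_left k2 hQ0.le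
      calc Q / H1 = Q * (1 / H1) := by ring
        _ ≤ _ := this
        _ = _ := by rw [Real.rpow_neg_one]; ring
    have s3 : 2 * X / k * Q / H1 ≤ 8 * L ^ A1 * ((X : ℝ) ^ (-(11 / 24) : ℝ) * Q) := by
      calc 2 * X / k * Q / H1 = 2 * X * Q * ((1 / k) * (1 / H1)) := by ring
        _ ≤ 2 * X * Q * ((2 * (X : ℝ) ^ (-(11 / 24) : ℝ)) * (2 * L ^ A1 / X)) :=
            mul_le_mul_of_nonneg_left (mul_le_mul k1 k2 (by positivity) (by positivity))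
              (by positivity)
        _ = _ := by field_simp; ring
    have t1 : (X : ℝ) ^ (-1 : ℝ) * Q ≤ (X : ℝ) ^ (-(11 / 24) : ℝ) * Q :=
      mul_le_mul_of_nonneg_right (Real.rpow_le_rpow_of_exponent_le hx1 (by norm_num)) hQ0.le
    have t2 : (X : ℝ) ^ (-(11 / 24) : ℝ) * Q ≤ (X : ℝ) ^ (-(7 / 20) : ℝ) := by
      rw [hQdef, ← Real.rpow_add hx0]
      exact Real.rpow_le_rpow_of_exponent_le hx1 (by norm_num)
    have t3 : R ≤ 12 * L ^ A1 * (X : ℝ) ^ (-(7 / 20) : ℝ) := by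
      have u0 : 0 ≤ (X : ℝ) ^ (-(11 / 24) : ℝ) * Q := by positivity
      have u1 : 2 * ((X : ℝ) ^ (-(11 / 24) : ℝ) * Q) ≤
          2 * L ^ A1 * ((X : ℝ) ^ (-(11 / 24) : ℝ) * Q) := by
        nlinarith only [hLA, u0, mul_le_mul_of_nonneg_right hLA u0]
      have u2 : 2 * L ^ A1 * ((X : ℝ) ^ (-1 : ℝ) * Q) ≤
          2 * L ^ A1 * ((X : ℝ) ^ (-(11 / 24) : ℝ) * Q) :=
        mul_le_mul_of_nonneg_left t1 (by positivity)
      have u3 : 12 * L ^ A1 * ((X : ℝ) ^ (-(11 / 24) : ℝ) * Q) ≤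
          12 * L ^ A1 * (X : ℝ) ^ (-(7 / 20) : ℝ) :=
        mul_le_mul_of_nonneg_left t2 (by positivity)
      rw [hR]
      linarith only [s1, s2, s3, u1, u2, u3]
    refine t3.trans ?_
    calc 12 * L ^ A1 * (X : ℝ) ^ (-(7 / 20) : ℝ) ≤
        (X : ℝ) ^ (1 / 10 : ℝ) * (X : ℝ) ^ (-(7 / 20) : ℝ) :=
          mul_le_mul_of_nonneg_right hX2 (by positivity)
      _ = (X : ℝ) ^ (-(1 / 4) : ℝ) := by
          rw [← Real.rpow_add hx0]
          norm_num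
  -- the zone part
  set T : ℕ → ℝ := fun x => ∑ m ∈ Ioc (x / k) ((x + H1) / k), |a m| / m with hT
  have hT0 : ∀ x, 0 ≤ T x := fun x => sum_nonneg fun m _ => by positivity
  set ℓ : ℝ := 1 + Real.log ((3 * X : ℕ) : ℝ) with hℓ
  have hℓ1 : ℓ ≤ 3 * L := by
    rw [hℓ]
    push_cast
    rw [Real.log_mul (by norm_num) hx0.ne']
    have : Real.log 3 ≤ 2 := by
      have := Real.log_le_sub_one_of_pos (show (0 : ℝ) < 3 by norm_num)
      linarith only [this]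
    linarith only [hK30, hL1, this]
  have hℓ0 : 0 ≤ ℓ := by
    have : 0 ≤ Real.log ((3 * X : ℕ) : ℝ) := Real.log_natCast_nonneg _
    linarith only [this]
  have hTsq : ∀ x ∈ Ico X (2 * X), T x ^ 2 ≤
      ℓ * ∑ m ∈ Ioc (x / k) ((x + H1) / k), |a m| ^ 2 / m := by
    intro x hx
    rw [mem_Ico] at hx
    have c1 : T x ^ 2 ≤ (∑ m ∈ Ioc (x / k) ((x + H1) / k), 1 / (m : ℝ)) *
        ∑ m ∈ Ioc (x / k) ((x + H1) / k), |a m| ^ 2 / m := by
      refine sum_sq_le_sum_mul_sum_of_sq_le_mul _ (fun m _ => by positivity)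
        (fun m _ => by positivity) (fun m _ => ?_)
      rw [div_pow, div_mul_div_comm, one_mul, ← pow_two]
    refine c1.trans (mul_le_mul_of_nonneg_right ?_ (sum_nonneg fun m _ => by positivity))
    have c2 := tau_momd 0 (3 * X)
    simp only [pow_zero, pow_one] at c2
    refine le_trans (sum_le_sum_of_subset_of_nonneg ?_ fun m _ _ => by positivity) c2
    intro m hm
    rw [mem_Ioc] at hm
    rw [mem_Icc]
    have := hm.2.trans (Nat.div_le_self _ _)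
    exact ⟨lt_of_le_of_lt (Nat.zero_le _) hm.1, by omega⟩
  have hTsum : ∑ x ∈ Ico X (2 * X), T x ^ 2 ≤ ℓ * (H1 * (400 * L ^ 2 * ℓ ^ N)) := by
    refine (sum_le_sum hTsq).trans ?_
    rw [← mul_sum]
    refine mul_le_mul_of_nonneg_left ?_ hℓ0
    refine (zone_sum X H1 k hkone hXge hHX (fun m => |a m| ^ 2 / m)
      (fun m => by positivity)).trans ?_
    refine mul_le_mul_of_nonneg_left ?_ (Nat.cast_nonneg _)
    calc ∑ m ∈ Icc 1 (3 * X), |a m| ^ 2 / (m : ℝ) ≤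
        ∑ m ∈ Icc 1 (3 * X), 400 * L ^ 2 * (tau m ^ 10 / m) := by
          refine sum_le_sum fun m _ => ?_
          rw [mul_div_assoc']
          refine div_le_div_of_nonneg_right ?_ (Nat.cast_nonneg _)
          calc |a m| ^ 2 ≤ (20 * L * tau m ^ 5) ^ 2 :=
                pow_le_pow_left₀ (abs_nonneg _) (ha m) 2
            _ = 400 * L ^ 2 * tau m ^ 10 := by ring
      _ = 400 * L ^ 2 * ∑ m ∈ Icc 1 (3 * X), tau m ^ 10 / m := by rw [mul_sum]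
      _ ≤ 400 * L ^ 2 * ℓ ^ N := by
          refine mul_le_mul_of_nonneg_left ?_ (by positivity)
          exact htm (3 * X)
  have hTfin : 2 * ∑ x ∈ Ico X (2 * X), T x ^ 2 ≤ X / L ^ A / 2 := by
    have c1 : ℓ * (H1 * (400 * L ^ 2 * ℓ ^ N)) ≤ X / L ^ A1 * (400 * K3 * L ^ (N + 3)) := by
      calc ℓ * (H1 * (400 * L ^ 2 * ℓ ^ N)) = H1 * (400 * L ^ 2 * ℓ ^ (N + 1)) := by ring
        _ ≤ X / L ^ A1 * (400 * L ^ 2 * (3 * L) ^ (N + 1)) := by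
            refine mul_le_mul hH1le ?_ (by positivity) (by positivity)
            exact mul_le_mul_of_nonneg_left (pow_le_pow_left₀ hℓ0 hℓ1 _) (by positivity)
        _ = X / L ^ A1 * (400 * K3 * L ^ (N + 3)) := by
            rw [hK3]
            ring
    have c2 : L ^ (A + (N + 4)) ≤ L ^ A1 := pow_le_pow_right₀ (by linarith only [hK30, hL1]) hA1
    have c3 : X / L ^ A1 * (400 * K3 * L ^ (N + 3)) ≤ X / L ^ A / 4 := by
      calc X / L ^ A1 * (400 * K3 * L ^ (N + 3)) ≤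
          X / L ^ (A + (N + 4)) * (400 * K3 * L ^ (N + 3)) :=
            mul_le_mul_of_nonneg_right
              (div_le_div_of_nonneg_left hx0.le (by positivity) c2) (by positivity)
        _ = X / L ^ A * ((400 * K3) / L) := by
            rw [pow_add, show N + 4 = (N + 3) + 1 from rfl, pow_succ L (N + 3)]
            field_simp
        _ ≤ X / L ^ A * (1 / 4) := by
            refine mul_le_mul_of_nonneg_left ?_ (by positivity)
            rw [div_le_div_iff₀ hL0 (by norm_num)]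
            linarith only [hL1]
        _ = X / L ^ A / 4 := by ring
    have := hTsum.trans (c1.trans c3)
    linarith only [hTsum, c1, c3]
  have hRfin : 2 * (X * R ^ 2) ≤ X / L ^ A / 2 := by
    have c1 : R ^ 2 ≤ (X : ℝ) ^ (-(1 / 2) : ℝ) := by
      calc R ^ 2 ≤ ((X : ℝ) ^ (-(1 / 4) : ℝ)) ^ 2 := pow_le_pow_left₀ hR0 hRle 2
        _ = (X : ℝ) ^ (-(1 / 2) : ℝ) := by
            rw [← Real.rpow_natCast, ← Real.rpow_mul hx0.le]
            norm_num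
    have c2 : (X : ℝ) ^ (-(1 / 2) : ℝ) ≤ 1 / (4 * L ^ A) := by
      rw [Real.rpow_neg hx0.le, inv_eq_one_div]
      exact one_div_le_one_div_of_le (by positivity) hX3
    calc 2 * (X * R ^ 2) ≤ 2 * (X * (1 / (4 * L ^ A))) := by
          have := mul_le_mul_of_nonneg_left (c1.trans c2) hx0.le
          linarith only [this]
      _ = X / L ^ A / 2 := by field_simp; ring
  -- assembly
  calc ∑ x ∈ Ico X (2 * X), ‖W (cl d u (hi 0 k * a)) H1 x / H1 - ((Bk a d k x : ℝ) : ℂ)‖ ^ 2 ≤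
      ∑ x ∈ Ico X (2 * X), (2 * T x ^ 2 + 2 * R ^ 2) := by
        refine sum_le_sum fun x hx => ?_
        have h1 := Lon_pt d u H1 k X x a Q hd hu hkone hH1one hHX hx haQ
        have h2 : ‖W (cl d u (hi 0 k * a)) H1 x / H1 - ((Bk a d k x : ℝ) : ℂ)‖ ^ 2 ≤
            (T x + R) ^ 2 := pow_le_pow_left₀ (norm_nonneg _) h1 2
        nlinarith only [h2, sq_nonneg (T x - R)]
    _ = 2 * ∑ x ∈ Ico X (2 * X), T x ^ 2 + 2 * (X * R ^ 2) := by
        rw [sum_add_distrib, ← mul_sum, sum_const, nsmul_eq_mul, Nat.card_Ico]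
        have : 2 * X - X = X := by omega
        rw [this]
        ring
    _ ≤ X / L ^ A := by linarith only [hTfin, hRfin]

end Pool.Agent.H88.PSI

end

section

/-!
# PSI Sho: short windows, type I

`Q = X^(1/1000)` bounds `20 L tau(m)^5` for `m ≤ 3X` (`tau_eps`).  `M = 2X/k ≤ 4 X^(13/24)`, `ti_max` with `M' x = x/k` (for `x < 2X`; `min (x/k) M`), `r = 2 ⌈L⌉`-ish:
`≤ L^C d^2 (16 X^(13/12) + X) Q^2 H`, divided by `H^2`: `≤ X^(11/12 + 1/100)`.  Edge (`ti_edge`): the zone has at most `H/k + 1 ≤ 2` elements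
(`H ≤ X^(1/3) ≤ k`): `(∑_zone |a m| (1/m + 1/H))^2 ≤ 4 ∑_zone Q^2/m^2 + 8 Q^2/H^2`, `zone_sum` with `b m = 1/m^2`: total `≤ 8 Q^2 H + 8 X Q^2/H^2`.
-/

set_option autoImplicit false

namespace Pool.Agent.H88.PSI

open Finset

/-- powers of logarithms are small -/
private theorem Sho_log (s C : ℝ) (hs : 0 < s) (hC : 0 < C) (c : ℕ) :
    ∀ᶠ x : ℕ in Filter.atTop, C * Real.log x ^ c ≤ (x : ℝ) ^ s := by
  have h1 := (isLittleO_log_rpow_rpow_atTop (c : ℝ) hs).bound (c := 1 / C) (by positivity)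
  have h2 := h1.and (Filter.eventually_ge_atTop (1 : ℝ))
  filter_upwards [(tendsto_natCast_atTop_atTop (R := ℝ)).eventually h2] with x hx
  obtain ⟨h4, h5⟩ := hx
  have hl : 0 ≤ Real.log x := Real.log_nonneg h5
  rw [Real.rpow_natCast, Real.norm_of_nonneg (by positivity),
    Real.norm_of_nonneg (by positivity)] at h4
  calc C * Real.log x ^ c ≤ C * (1 / C * (x : ℝ) ^ s) := mul_le_mul_of_nonneg_left h4 hC.le
    _ = (x : ℝ) ^ s := by field_simp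

private theorem Sho_inv_sq (N : ℕ) : ∑ m ∈ Icc 1 N, 1 / (m : ℝ) ^ 2 ≤ 2 := by
  have h := sum_Ioo_inv_sq_le (α := ℝ) 0 (N + 1)
  have e : Ioo 0 (N + 1) = Icc 1 N := by
    ext m
    simp only [mem_Ioo, mem_Icc]
    omega
  rw [e] at h
  have e2 : ∑ m ∈ Icc 1 N, 1 / (m : ℝ) ^ 2 = ∑ m ∈ Icc 1 N, ((m : ℝ) ^ 2)⁻¹ :=
    sum_congr rfl fun m _ => one_div _
  rw [e2]
  refine h.trans ?_
  norm_num

/-- the edge term at one point -/
private theorem Sho_pt {a : ArithmeticFunction ℝ} {d u H k x N : ℕ} {Q : ℝ} (hd : 1 ≤ d)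
    (hk : 1 ≤ k) (hu : Nat.Coprime u d) (hH : 1 ≤ H) (hHk : H ≤ k)
    (hxN : x + H ≤ N) (hQ : ∀ m ≤ N, |a m| ≤ Q) :
    ‖W (cl d u (hi 0 k * a)) H x / H - ((Bk a d k x : ℝ) : ℂ)‖ ^ 2 ≤
      4 * Q ^ 2 * ∑ m ∈ Ioc (x / k) ((x + H) / k), 1 / (m : ℝ) ^ 2 + 4 * Q ^ 2 / (H : ℝ) ^ 2 +
        2 / (H : ℝ) ^ 2 *
          (∑ m ∈ (Icc 1 (x / k)).filter (fun m => Nat.Coprime m d), a m * em d u H m x) ^ 2 := by
  have hH0 : (0 : ℝ) < H := by exact_mod_cast hH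
  obtain ⟨S, hS⟩ : ∃ S : ℝ, S = ∑ m ∈ (Icc 1 (x / k)).filter (fun m => Nat.Coprime m d),
    a m * cnt d u H m x := ⟨_, rfl⟩
  obtain ⟨R, hR⟩ : ∃ R : ℝ, R = ∑ m ∈ (Icc 1 (x / k)).filter (fun m => Nat.Coprime m d),
    a m * em d u H m x := ⟨_, rfl⟩
  obtain ⟨G, hG⟩ : ∃ G : ℂ, G = W (cl d u (hi 0 k * a)) H x := ⟨_, rfl⟩
  have h1 := ti_edge a d u H k x hd hk hu
  have h2 := bk_eq a d u H k x hH
  rw [← hS, ← hG] at h1
  rw [← hS, ← hR] at h2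
  rw [← hG, ← hR]
  have e1 : G / H - ((Bk a d k x : ℝ) : ℂ) = (G - (S : ℂ)) / H + ((R / H : ℝ) : ℂ) := by
    rw [← h2]
    push_cast
    ring
  obtain ⟨E, hE⟩ : ∃ E : ℝ, E = ‖G - (S : ℂ)‖ := ⟨_, rfl⟩
  rw [← hE] at h1
  have hE0 : 0 ≤ E := by
    rw [hE]
    exact norm_nonneg _
  have h3 : ‖G / H - ((Bk a d k x : ℝ) : ℂ)‖ ≤ E / H + |R| / H := by
    rw [e1]
    refine (norm_add_le _ _).trans ?_
    rw [norm_div, Complex.norm_natCast, ← hE, Complex.norm_real, Real.norm_eq_abs, abs_div,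
      abs_of_pos hH0]
  have hcard : (Ioc (x / k) ((x + H) / k)).card ≤ 1 := by
    rw [Nat.card_Ioc]
    have h4 : (x + H) / k ≤ (x + k) / k := Nat.div_le_div_right (by omega)
    rw [Nat.add_div_right x (by omega)] at h4
    omega
  have hcard' : ((Ioc (x / k) ((x + H) / k)).card : ℝ) ≤ 1 := by exact_mod_cast hcard
  have h5 : (E / H) ^ 2 ≤ Q ^ 2 * (2 * ∑ m ∈ Ioc (x / k) ((x + H) / k), 1 / (m : ℝ) ^ 2 +
      2 / (H : ℝ) ^ 2) := by
    have h6 : E / H ≤ ∑ m ∈ Ioc (x / k) ((x + H) / k), |a m| * (1 / m + 1 / H) := by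
      rw [div_le_iff₀ hH0, sum_mul]
      refine h1.trans (le_of_eq (sum_congr rfl fun m _ => ?_))
      field_simp
    have h7 := pow_le_pow_left₀ (by positivity) h6 2
    refine h7.trans (sq_sum_le_card_mul_sum_sq.trans ?_)
    have h8 : ∀ m ∈ Ioc (x / k) ((x + H) / k), (|a m| * (1 / (m : ℝ) + 1 / H)) ^ 2 ≤
        Q ^ 2 * (2 * (1 / (m : ℝ) ^ 2) + 2 / (H : ℝ) ^ 2) := by
      intro m hm
      have hm' := mem_Ioc.1 hm
      have hmN : m ≤ N := by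
        have := Nat.div_le_self (x + H) k
        omega
      rw [mul_pow]
      refine mul_le_mul (pow_le_pow_left₀ (abs_nonneg _) (hQ m hmN) 2) ?_ (sq_nonneg _)
        (sq_nonneg _)
      have h9 : (1 / (m : ℝ) + 1 / H) ^ 2 ≤ 2 * (1 / (m : ℝ)) ^ 2 + 2 * (1 / (H : ℝ)) ^ 2 := by
        nlinarith only [sq_nonneg (1 / (m : ℝ) - 1 / H)]
      refine h9.trans (le_of_eq ?_)
      rw [one_div_pow, one_div_pow]
      ring
    have h10 : 0 ≤ ∑ m ∈ Ioc (x / k) ((x + H) / k), (|a m| * (1 / (m : ℝ) + 1 / H)) ^ 2 :=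
      sum_nonneg fun _ _ => sq_nonneg _
    refine (mul_le_of_le_one_left h10 hcard').trans ((sum_le_sum h8).trans ?_)
    rw [← mul_sum, sum_add_distrib, ← mul_sum, sum_const, nsmul_eq_mul]
    refine mul_le_mul_of_nonneg_left ?_ (sq_nonneg Q)
    have h11 := mul_le_mul_of_nonneg_right hcard' (by positivity : 0 ≤ 2 / (H : ℝ) ^ 2)
    linarith only [h11]
  have h6 := pow_le_pow_left₀ (norm_nonneg _) h3 2
  refine h6.trans ?_
  have h7 : (E / H + |R| / H) ^ 2 ≤ 2 * (E / H) ^ 2 + 2 * (|R| / H) ^ 2 := by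
    nlinarith only [sq_nonneg (E / H - |R| / H)]
  refine h7.trans ?_
  have h8 : 2 * (|R| / H) ^ 2 = 2 / (H : ℝ) ^ 2 * R ^ 2 := by
    rw [div_pow, sq_abs]
    ring
  rw [h8]
  have h9 : Q ^ 2 * (2 * ∑ m ∈ Ioc (x / k) ((x + H) / k), 1 / (m : ℝ) ^ 2 +
      2 / (H : ℝ) ^ 2) * 2 = 4 * Q ^ 2 * ∑ m ∈ Ioc (x / k) ((x + H) / k), 1 / (m : ℝ) ^ 2 +
      4 * Q ^ 2 / (H : ℝ) ^ 2 := by ring
  linarith only [h5, h9]

theorem ti_short (B : ℕ) : ∃ X0 : ℕ, ∀ X : ℕ, X0 ≤ X →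
    ∀ (d u H k : ℕ) (a : ArithmeticFunction ℝ), 1 ≤ d → (d : ℝ) ≤ Real.log X ^ B → Nat.Coprime u d →
    (X : ℝ) ^ (1 / 6 : ℝ) ≤ H → (H : ℝ) ≤ (X : ℝ) ^ (1 / 3 : ℝ) →
    (X : ℝ) ^ (11 / 24 : ℝ) / 2 ≤ k → (∀ m, |a m| ≤ 20 * Real.log X * tau m ^ 5) →
    ∑ x ∈ Ico X (2 * X), ‖W (cl d u (hi 0 k * a)) H x / H - ((Bk a d k x : ℝ) : ℂ)‖ ^ 2
      ≤ (X : ℝ) ^ (49 / 50 : ℝ) := by
  obtain ⟨C, hC, htau⟩ := tau_eps (1 / 10000) (by norm_num)
  have ev1 := Sho_log (1 / 2000) (20 * (4 * C) ^ 5) (by norm_num) (by positivity) 1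
  have ev2 := Sho_log (1 / 100) 7488000 (by norm_num) (by norm_num) (2 * B + 5)
  have ev3 := Sho_log (1 / 100) 24 (by norm_num) (by norm_num) 0
  have ev4 : ∀ᶠ x : ℕ in Filter.atTop, 1 ≤ Real.log x :=
    (Real.tendsto_log_atTop.comp tendsto_natCast_atTop_atTop).eventually_ge_atTop 1
  obtain ⟨X0, hX0⟩ := Filter.eventually_atTop.1
    (((ev1.and ev2).and (ev3.and ev4)).and (Filter.eventually_ge_atTop 3))
  refine ⟨X0, fun X hX d u H k a hd hdB hu hH6 hH3 hk ha => ?_⟩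
  obtain ⟨⟨⟨f1, f2⟩, f3, f4⟩, f5⟩ := hX0 X hX
  rw [pow_one] at f1
  rw [pow_zero, mul_one] at f3
  obtain ⟨L, hL⟩ : ∃ L : ℝ, L = Real.log X := ⟨_, rfl⟩
  rw [← hL] at f1 f2 f4 hdB ha
  have hX3 : (3 : ℝ) ≤ X := by exact_mod_cast f5
  have hX1 : (1 : ℝ) ≤ X := by linarith only [hX3]
  have hXpos : (0 : ℝ) < X := by linarith only [hX3]
  have hL0 : 0 < L := by linarith only [f4]
  have hadd : ∀ s t : ℝ, (X : ℝ) ^ s * (X : ℝ) ^ t = (X : ℝ) ^ (s + t) := fun s t =>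
    (Real.rpow_add hXpos s t).symm
  have hmono : ∀ s t : ℝ, s ≤ t → (X : ℝ) ^ s ≤ (X : ℝ) ^ t := fun s t h =>
    Real.rpow_le_rpow_of_exponent_le hX1 h
  have hpos : ∀ s : ℝ, 0 < (X : ℝ) ^ s := fun s => Real.rpow_pos_of_pos hXpos s
  have hone : ∀ s : ℝ, 0 ≤ s → 1 ≤ (X : ℝ) ^ s := fun s h => Real.one_le_rpow hX1 h
  -- H and k
  have hH1 : (1 : ℝ) ≤ H := (hone (1 / 6) (by norm_num)).trans hH6
  have hH0 : (0 : ℝ) < H := by linarith only [hH1]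
  have hH1' : 1 ≤ H := by exact_mod_cast hH1
  have hHkR : (H : ℝ) ≤ k := by
    refine hH3.trans (le_trans ?_ hk)
    rw [le_div_iff₀ (by norm_num)]
    have h1 : (X : ℝ) ^ (1 / 3 : ℝ) * (X : ℝ) ^ (1 / 8 : ℝ) = (X : ℝ) ^ (11 / 24 : ℝ) := by
      rw [hadd]
      norm_num
    rw [← h1]
    refine mul_le_mul_of_nonneg_left ?_ (hpos _).le
    have := hmono (1 / 100) (1 / 8) (by norm_num)
    linarith only [f3, this]
  have hHk : H ≤ k := by exact_mod_cast hHkR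
  have hk1 : 1 ≤ k := hH1'.trans hHk
  have hHXR : (H : ℝ) ≤ X := by
    refine hH3.trans ?_
    have := hmono (1 / 3) 1 (by norm_num)
    rwa [Real.rpow_one] at this
  have hHX : H ≤ X := by exact_mod_cast hHXR
  -- Q
  obtain ⟨Q, hQ⟩ : ∃ Q : ℝ, Q = (X : ℝ) ^ (1 / 1000 : ℝ) := ⟨_, rfl⟩
  have hQ0 : 0 < Q := by
    rw [hQ]
    exact hpos _
  have hQ2 : Q ^ 2 = (X : ℝ) ^ (1 / 500 : ℝ) := by
    rw [hQ, sq, hadd]
    norm_num
  have haQ : ∀ m ≤ 3 * X, |a m| ≤ Q := by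
    intro m hm
    refine (ha m).trans ?_
    have hmX : (m : ℝ) ≤ 3 * X := by exact_mod_cast hm
    have ht0 : 0 ≤ tau m := by
      unfold tau
      positivity
    have h1 : tau m ≤ 4 * C * (X : ℝ) ^ (1 / 10000 : ℝ) := by
      refine (htau m).trans ?_
      have h2 : (m : ℝ) ^ (1 / 10000 : ℝ) ≤ 3 * (X : ℝ) ^ (1 / 10000 : ℝ) := by
        calc (m : ℝ) ^ (1 / 10000 : ℝ) ≤ (3 * (X : ℝ)) ^ (1 / 10000 : ℝ) :=
              Real.rpow_le_rpow (Nat.cast_nonneg m) hmX (by norm_num)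
          _ = (3 : ℝ) ^ (1 / 10000 : ℝ) * (X : ℝ) ^ (1 / 10000 : ℝ) :=
              Real.mul_rpow (by norm_num) hXpos.le
          _ ≤ 3 * (X : ℝ) ^ (1 / 10000 : ℝ) := by
              refine mul_le_mul_of_nonneg_right ?_ (hpos _).le
              have := Real.rpow_le_rpow_of_exponent_le (by norm_num : (1 : ℝ) ≤ 3)
                (by norm_num : (1 / 10000 : ℝ) ≤ 1)
              rwa [Real.rpow_one] at this
      have h3 := hone (1 / 10000) (by norm_num)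
      have h4 := mul_le_mul_of_nonneg_left h2 (by linarith only [hC] : 0 ≤ C)
      have h5 := mul_le_mul_of_nonneg_left h3 (by linarith only [hC] : 0 ≤ C)
      linarith only [h4, h5]
    have h2 := pow_le_pow_left₀ ht0 h1 5
    have h3 : (4 * C * (X : ℝ) ^ (1 / 10000 : ℝ)) ^ 5 = (4 * C) ^ 5 * (X : ℝ) ^ (1 / 2000 : ℝ) := by
      rw [mul_pow, ← Real.rpow_natCast ((X : ℝ) ^ (1 / 10000 : ℝ)) 5, ← Real.rpow_mul hXpos.le]
      norm_num
    rw [h3] at h2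
    calc 20 * L * tau m ^ 5 ≤ 20 * L * ((4 * C) ^ 5 * (X : ℝ) ^ (1 / 2000 : ℝ)) :=
          mul_le_mul_of_nonneg_left h2 (by positivity)
      _ = (20 * (4 * C) ^ 5 * L) * (X : ℝ) ^ (1 / 2000 : ℝ) := by ring
      _ ≤ (X : ℝ) ^ (1 / 2000 : ℝ) * (X : ℝ) ^ (1 / 2000 : ℝ) :=
          mul_le_mul_of_nonneg_right f1 (hpos _).le
      _ = Q := by
          rw [hadd, hQ]
          norm_num
  -- M and r
  obtain ⟨M, hM⟩ : ∃ M : ℕ, M = 2 * X / k + 1 := ⟨_, rfl⟩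
  have hM1 : 1 ≤ M := by
    rw [hM]
    exact Nat.le_add_left 1 _
  have hk0 : (0 : ℝ) < k := by exact_mod_cast hk1
  have hMR : (M : ℝ) ≤ 5 * (X : ℝ) ^ (13 / 24 : ℝ) := by
    have h1 : ((2 * X / k : ℕ) : ℝ) ≤ 2 * X / k := by
      have := Nat.cast_div_le (α := ℝ) (m := 2 * X) (n := k)
      push_cast at this
      exact this
    have h2 : 2 * (X : ℝ) / k ≤ 4 * (X : ℝ) ^ (13 / 24 : ℝ) := by
      rw [div_le_iff₀ hk0]
      have h3 : (X : ℝ) ^ (13 / 24 : ℝ) * (X : ℝ) ^ (11 / 24 : ℝ) = X := by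
        rw [hadd]
        norm_num
      have h4 := mul_le_mul_of_nonneg_left hk (by positivity : 0 ≤ 4 * (X : ℝ) ^ (13 / 24 : ℝ))
      have h5 : 4 * (X : ℝ) ^ (13 / 24 : ℝ) * ((X : ℝ) ^ (11 / 24 : ℝ) / 2) =
          2 * ((X : ℝ) ^ (13 / 24 : ℝ) * (X : ℝ) ^ (11 / 24 : ℝ)) := by ring
      rw [h5, h3] at h4
      exact h4
    have h3 := hone (13 / 24) (by norm_num)
    rw [hM]
    push_cast
    linarith only [h1, h2, h3]
  have hM1X : (M : ℝ) + 1 ≤ X := by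
    have h3 := hone (13 / 24) (by norm_num)
    have h4 : (X : ℝ) ^ (13 / 24 : ℝ) * (X : ℝ) ^ (11 / 24 : ℝ) = X := by
      rw [hadd]
      norm_num
    have h5 : 24 ≤ (X : ℝ) ^ (11 / 24 : ℝ) := f3.trans (hmono _ _ (by norm_num))
    have h6 := mul_le_mul_of_nonneg_left h5 (hpos (13 / 24)).le
    rw [h4] at h6
    linarith only [hMR, h3, h6]
  have hMX : M ≤ X := by
    have : (M : ℝ) ≤ X := by linarith only [hM1X]
    exact_mod_cast this
  obtain ⟨r, hr⟩ : ∃ r : ℕ, r = Nat.log 2 (M + 1) + 1 := ⟨_, rfl⟩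
  have hr1 : M + 1 < 2 ^ r := by
    rw [hr]
    exact Nat.lt_pow_succ_log_self (by norm_num) _
  have hr2 : (r : ℝ) ≤ 3 * L := by
    have h1 : (2 : ℕ) ^ Nat.log 2 (M + 1) ≤ M + 1 := Nat.pow_log_le_self 2 (by omega)
    have h2 : (2 : ℝ) ^ Nat.log 2 (M + 1) ≤ X := by
      have h3 : ((2 ^ Nat.log 2 (M + 1) : ℕ) : ℝ) ≤ ((M + 1 : ℕ) : ℝ) := by exact_mod_cast h1
      push_cast at h3
      linarith only [hM1X, h3]
    have h3 := Real.log_le_log (by positivity) h2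
    rw [Real.log_pow, ← hL] at h3
    have h4 : (1 / 2 : ℝ) ≤ Real.log 2 := by
      have := Real.log_two_gt_d9
      linarith only [this]
    have h5 : (Nat.log 2 (M + 1) : ℝ) * (1 / 2) ≤ L :=
      (mul_le_mul_of_nonneg_left h4 (Nat.cast_nonneg _)).trans h3
    rw [hr]
    push_cast
    linarith only [f4, h5]
  have hlogM : 0 ≤ Real.log M ∧ 1 + Real.log M ≤ 2 * L := by
    have h1 : Real.log M ≤ L := by
      rw [hL]
      exact Real.log_le_log (by exact_mod_cast hM1) (by exact_mod_cast hMX)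
    exact ⟨Real.log_natCast_nonneg M, by linarith only [f4, h1]⟩
  -- the error terms
  have hmax := ti_max d u H M X r hd hH1' (by omega) hM1 hr1 a Q
    (fun m hm => haQ m (by have := (mem_Icc.1 hm).2; omega)) (fun x => min (x / k) M)
    (fun x => min_le_right _ _)
  have hmax' : ∑ x ∈ Ico X (2 * X),
      (∑ m ∈ (Icc 1 (x / k)).filter (fun m => Nat.Coprime m d), a m * em d u H m x) ^ 2 ≤
      1000 * (r : ℝ) ^ 2 * (d : ℝ) ^ 2 * ((M : ℝ) ^ 2 + X) * Q ^ 2 * (1 + Real.log M) ^ 3 * H := by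
    refine le_trans (le_of_eq (sum_congr rfl fun x hx => ?_)) hmax
    have hx' := (mem_Ico.1 hx).2
    have h1 : x / k ≤ 2 * X / k := Nat.div_le_div_right (by omega)
    have h2 : min (x / k) M = x / k := by
      refine min_eq_left ?_
      rw [hM]
      exact h1.trans (Nat.le_succ _)
    rw [h2]
  -- the sum
  have hsum : ∑ x ∈ Ico X (2 * X),
      ‖W (cl d u (hi 0 k * a)) H x / H - ((Bk a d k x : ℝ) : ℂ)‖ ^ 2 ≤
      4 * Q ^ 2 * (H * 2) + 4 * Q ^ 2 / (H : ℝ) ^ 2 * X + 2 / (H : ℝ) ^ 2 *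
        (1000 * (r : ℝ) ^ 2 * (d : ℝ) ^ 2 * ((M : ℝ) ^ 2 + X) * Q ^ 2 *
          (1 + Real.log M) ^ 3 * H) := by
    refine (sum_le_sum fun x hx => Sho_pt (N := 3 * X) (Q := Q) hd hk1 hu hH1' hHk
      (by have := (mem_Ico.1 hx).2; omega) haQ).trans ?_
    rw [sum_add_distrib, sum_add_distrib, ← mul_sum, ← mul_sum, sum_const, Nat.card_Ico,
      nsmul_eq_mul]
    have e1 : 2 * X - X = X := by omega
    rw [e1]
    have h1 := zone_sum X H k hk1 (by omega) hHX (fun m => 1 / (m : ℝ) ^ 2)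
      (fun m => by positivity)
    have h2 := mul_le_mul_of_nonneg_left (Sho_inv_sq (3 * X)) hH0.le
    have h3 := mul_le_mul_of_nonneg_left (h1.trans h2) (by positivity : 0 ≤ 4 * Q ^ 2)
    have h4 := mul_le_mul_of_nonneg_left hmax' (by positivity : 0 ≤ 2 / (H : ℝ) ^ 2)
    have h5 : (X : ℝ) * (4 * Q ^ 2 / (H : ℝ) ^ 2) = 4 * Q ^ 2 / (H : ℝ) ^ 2 * X := by ring
    rw [h5]
    exact add_le_add (add_le_add h3 le_rfl) h4
  refine hsum.trans ?_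
  -- sizes
  have g1 : 4 * Q ^ 2 * (H * 2) + 4 * Q ^ 2 / (H : ℝ) ^ 2 * X ≤
      1 / 2 * (X : ℝ) ^ (49 / 50 : ℝ) := by
    have h1 : (H : ℝ) ≤ (X : ℝ) ^ (2 / 3 : ℝ) := hH3.trans (hmono _ _ (by norm_num))
    have h2 : (X : ℝ) / (H : ℝ) ^ 2 ≤ (X : ℝ) ^ (2 / 3 : ℝ) := by
      rw [div_le_iff₀ (by positivity)]
      have h3 := pow_le_pow_left₀ (hpos _).le hH6 2
      have h4 : (X : ℝ) ^ (2 / 3 : ℝ) * ((X : ℝ) ^ (1 / 6 : ℝ)) ^ 2 = X := by
        rw [sq, hadd, hadd]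
        norm_num
      calc (X : ℝ) = (X : ℝ) ^ (2 / 3 : ℝ) * ((X : ℝ) ^ (1 / 6 : ℝ)) ^ 2 := h4.symm
        _ ≤ _ := mul_le_mul_of_nonneg_left h3 (hpos _).le
    have h5 : 4 * Q ^ 2 * (H * 2) + 4 * Q ^ 2 / (H : ℝ) ^ 2 * X ≤
        12 * (Q ^ 2 * (X : ℝ) ^ (2 / 3 : ℝ)) := by
      have h6 := mul_le_mul_of_nonneg_left h1 (by positivity : 0 ≤ 8 * Q ^ 2)
      have h7 := mul_le_mul_of_nonneg_left h2 (by positivity : 0 ≤ 4 * Q ^ 2)
      have h8 : 4 * Q ^ 2 / (H : ℝ) ^ 2 * X = 4 * Q ^ 2 * (X / (H : ℝ) ^ 2) := by ring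
      rw [h8]
      linarith only [h6, h7]
    refine h5.trans ?_
    rw [hQ2, hadd]
    have h9 := mul_le_mul_of_nonneg_right f3 (hpos (1 / 500 + 2 / 3)).le
    rw [hadd] at h9
    have h10 := hmono (1 / 100 + (1 / 500 + 2 / 3)) (49 / 50) (by norm_num)
    linarith only [h9, h10]
  have g2 : 2 / (H : ℝ) ^ 2 * (1000 * (r : ℝ) ^ 2 * (d : ℝ) ^ 2 * ((M : ℝ) ^ 2 + X) * Q ^ 2 *
      (1 + Real.log M) ^ 3 * H) ≤ 1 / 2 * (X : ℝ) ^ (49 / 50 : ℝ) := by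
    have e1 : 2 / (H : ℝ) ^ 2 * (1000 * (r : ℝ) ^ 2 * (d : ℝ) ^ 2 * ((M : ℝ) ^ 2 + X) * Q ^ 2 *
        (1 + Real.log M) ^ 3 * H) = 2000 * ((r : ℝ) ^ 2 * (d : ℝ) ^ 2 * (1 + Real.log M) ^ 3) *
        (((M : ℝ) ^ 2 + X) / H) * Q ^ 2 := by
      field_simp
      ring
    have h1 : (r : ℝ) ^ 2 ≤ (3 * L) ^ 2 := pow_le_pow_left₀ (Nat.cast_nonneg r) hr2 2
    have h2 : (d : ℝ) ^ 2 ≤ (L ^ B) ^ 2 := pow_le_pow_left₀ (Nat.cast_nonneg d) hdB 2
    have h3 : (1 + Real.log M) ^ 3 ≤ (2 * L) ^ 3 :=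
      pow_le_pow_left₀ (by linarith only [hlogM, hlogM.1]) hlogM.2 3
    have h4 : (r : ℝ) ^ 2 * (d : ℝ) ^ 2 * (1 + Real.log M) ^ 3 ≤
        (3 * L) ^ 2 * (L ^ B) ^ 2 * (2 * L) ^ 3 :=
      mul_le_mul (mul_le_mul h1 h2 (by positivity) (by positivity)) h3
        (pow_nonneg (by linarith only [hlogM, hlogM.1]) 3) (by positivity)
    have h5 : (3 * L) ^ 2 * (L ^ B) ^ 2 * (2 * L) ^ 3 = 72 * L ^ (2 * B + 5) := by
      rw [pow_add, pow_mul']
      ring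
    rw [h5] at h4
    have h6 : ((M : ℝ) ^ 2 + X) / H ≤ 26 * (X : ℝ) ^ (11 / 12 : ℝ) := by
      rw [div_le_iff₀ hH0]
      have h7 := pow_le_pow_left₀ (Nat.cast_nonneg M) hMR 2
      have h8 : (5 * (X : ℝ) ^ (13 / 24 : ℝ)) ^ 2 = 25 * (X : ℝ) ^ (13 / 12 : ℝ) := by
        rw [mul_pow, sq ((X : ℝ) ^ (13 / 24 : ℝ)), hadd]
        norm_num
      rw [h8] at h7
      have h9 : (X : ℝ) ≤ (X : ℝ) ^ (13 / 12 : ℝ) := by
        have := hmono 1 (13 / 12) (by norm_num)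
        rwa [Real.rpow_one] at this
      have h10 : (X : ℝ) ^ (11 / 12 : ℝ) * (X : ℝ) ^ (1 / 6 : ℝ) = (X : ℝ) ^ (13 / 12 : ℝ) := by
        rw [hadd]
        norm_num
      have h11 := mul_le_mul_of_nonneg_left hH6 (by positivity : 0 ≤ 26 * (X : ℝ) ^ (11 / 12 : ℝ))
      have h12 : 26 * (X : ℝ) ^ (11 / 12 : ℝ) * (X : ℝ) ^ (1 / 6 : ℝ) =
          26 * ((X : ℝ) ^ (11 / 12 : ℝ) * (X : ℝ) ^ (1 / 6 : ℝ)) := by ring
      rw [h12, h10] at h11
      linarith only [h7, h9, h11]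
    have h13 : 2000 * ((r : ℝ) ^ 2 * (d : ℝ) ^ 2 * (1 + Real.log M) ^ 3) *
        (((M : ℝ) ^ 2 + X) / H) ≤ 2000 * (72 * L ^ (2 * B + 5)) *
          (26 * (X : ℝ) ^ (11 / 12 : ℝ)) :=
      mul_le_mul (mul_le_mul_of_nonneg_left h4 (by norm_num)) h6 (by positivity) (by positivity)
    rw [e1]
    refine (mul_le_mul_of_nonneg_right h13 (sq_nonneg Q)).trans ?_
    rw [hQ2]
    have h14 : 2000 * (72 * L ^ (2 * B + 5)) * (26 * (X : ℝ) ^ (11 / 12 : ℝ)) *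
        (X : ℝ) ^ (1 / 500 : ℝ) = 1 / 2 * (7488000 * L ^ (2 * B + 5)) *
          ((X : ℝ) ^ (11 / 12 : ℝ) * (X : ℝ) ^ (1 / 500 : ℝ)) := by ring
    rw [h14, hadd]
    have h15 := mul_le_mul_of_nonneg_right f2 (hpos (11 / 12 + 1 / 500)).le
    rw [hadd] at h15
    have h16 := hmono (1 / 100 + (11 / 12 + 1 / 500)) (49 / 50) (by norm_num)
    linarith only [h15, h16]
  linarith only [g1, g2]

end Pool.Agent.H88.PSI

end

section

/-!
# PSI Ti: the terms of type I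

`k = 0`: `D = (W_H/H - Bk) - (W_{H1}/H1 - Bk)`.  `k = 1`: for `n ≤ 3X`, `hi 1 Y n = ∑_{Y ≤ k' ≤ 3X} w_{k'} hi 0 k' n`, `w_Y = log Y`,
`w_{k'} = log k' - log(k'-1)`; so `D(cl d u (hi 1 Y * a)) = ∑ w_{k'} D(cl d u (hi 0 k' * a))` on windows in `(X, 3X]`;
`|·|^2 ≤ (∑ w) ∑ w |·|^2`, `∑ w = log(3X) ≤ 2L`; the case `k = 0` with `A + 3` for every `k' ≥ Y`.
-/

set_option autoImplicit false

namespace Pool.Agent.H88.PSI

open Finset

private theorem Ti_congr (f g : ℕ → ℂ) (H H1 x N : ℕ) (hH : x + H ≤ N) (hH1 : x + H1 ≤ N)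
    (h : ∀ n, n ≤ N → f n = g n) : D f H H1 x = D g H H1 x := by
  unfold D W
  have e1 : ∑ n ∈ Ioc x (x + H), f n = ∑ n ∈ Ioc x (x + H), g n :=
    Finset.sum_congr rfl fun n hn => h n ((Finset.mem_Ioc.mp hn).2.trans hH)
  have e2 : ∑ n ∈ Ioc x (x + H1), f n = ∑ n ∈ Ioc x (x + H1), g n :=
    Finset.sum_congr rfl fun n hn => h n ((Finset.mem_Ioc.mp hn).2.trans hH1)
  rw [e1, e2]

/-- the weights -/
private noncomputable def Ti_w (Y k : ℕ) : ℝ :=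
  if k = Y then Real.log Y else Real.log k - Real.log ((k - 1 : ℕ) : ℝ)

private theorem Ti_w_nonneg (Y k : ℕ) (hY : 1 ≤ Y) (hk : Y ≤ k) : 0 ≤ Ti_w Y k := by
  unfold Ti_w
  split_ifs with h
  · exact Real.log_nonneg (by exact_mod_cast hY)
  · have h1 : Y < k := lt_of_le_of_ne hk (Ne.symm h)
    have h2 : 1 ≤ k - 1 := by omega
    have h3 : ((k - 1 : ℕ) : ℝ) ≤ k := by exact_mod_cast Nat.sub_le k 1
    have h4 : Real.log ((k - 1 : ℕ) : ℝ) ≤ Real.log k :=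
      Real.log_le_log (by exact_mod_cast h2) h3
    linarith only [h4]

private theorem Ti_w_sum (Y b : ℕ) (hb : Y ≤ b) : ∑ k ∈ Icc Y b, Ti_w Y k = Real.log b := by
  induction b, hb using Nat.le_induction with
  | base => simp [Ti_w]
  | succ b hb ih =>
    rw [← Finset.insert_Icc_right_eq_Icc_add_one (by omega), Finset.sum_insert (by simp), ih]
    have : b + 1 ≠ Y := by omega
    simp [Ti_w, this]

private theorem Ti_hi (Y b N : ℕ) (hb : b ≤ N) :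
    hi 1 Y b = ∑ k ∈ Icc Y N, Ti_w Y k * hi 0 k b := by
  have h0 : ∀ k, hi 0 k b = if b ≠ 0 ∧ k ≤ b then 1 else 0 := by
    intro k
    show (if b ≠ 0 ∧ k ≤ b then kf 0 b else 0) = _
    simp [kf]
  have h1 : hi 1 Y b = if b ≠ 0 ∧ Y ≤ b then Real.log b else 0 := by
    show (if b ≠ 0 ∧ Y ≤ b then kf 1 b else 0) = _
    simp [kf]
  rw [h1]
  simp only [h0]
  by_cases hb0 : b = 0
  · simp [hb0]
  by_cases hY : Y ≤ b
  · rw [if_pos ⟨hb0, hY⟩, ← Ti_w_sum Y b hY]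
    have : Icc Y b = (Icc Y N).filter (fun k => k ≤ b) := by
      ext k; simp only [Finset.mem_Icc, Finset.mem_filter]; omega
    rw [this, Finset.sum_filter]
    refine Finset.sum_congr rfl fun k _ => ?_
    by_cases hk : k ≤ b <;> simp [hk, hb0]
  · rw [if_neg (fun h => hY h.2)]
    symm
    refine Finset.sum_eq_zero fun k hk => ?_
    have : ¬ (b ≠ 0 ∧ k ≤ b) := fun h => hY ((Finset.mem_Icc.mp hk).1.trans h.2)
    rw [if_neg this, mul_zero]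

private theorem Ti_mul (Y N n : ℕ) (a : ArithmeticFunction ℝ) (hn : n ≤ N) :
    (hi 1 Y * a) n = ∑ k ∈ Icc Y N, Ti_w Y k * (hi 0 k * a) n := by
  simp only [ArithmeticFunction.mul_apply, Finset.mul_sum]
  rw [Finset.sum_comm]
  refine Finset.sum_congr rfl fun p hp => ?_
  have hp1 : p.1 ≤ N := (Nat.divisor_le (Nat.fst_mem_divisors_of_mem_antidiagonal hp)).trans hn
  rw [Ti_hi Y p.1 N hp1, Finset.sum_mul]
  exact Finset.sum_congr rfl fun k _ => mul_assoc _ _ _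

private theorem Ti_cl (d u Y N n : ℕ) (a : ArithmeticFunction ℝ) (hn : n ≤ N) :
    cl d u (hi 1 Y * a) n = ∑ k ∈ Icc Y N, ((Ti_w Y k : ℝ) : ℂ) * cl d u (hi 0 k * a) n := by
  unfold cl
  by_cases h : n % d = u % d
  · simp only [if_pos h]
    rw [Ti_mul Y N n a hn]
    push_cast
    rfl
  · simp only [if_neg h, mul_zero, Finset.sum_const_zero]

private theorem Ti_D (d u Y N H H1 x : ℕ) (a : ArithmeticFunction ℝ) (hH : x + H ≤ N)
    (hH1 : x + H1 ≤ N) :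
    D (cl d u (hi 1 Y * a)) H H1 x =
      ∑ k ∈ Icc Y N, ((Ti_w Y k : ℝ) : ℂ) * D (cl d u (hi 0 k * a)) H H1 x := by
  rw [Ti_congr _ (fun n => ∑ k ∈ Icc Y N, ((Ti_w Y k : ℝ) : ℂ) * cl d u (hi 0 k * a) n) H H1 x N
    hH hH1 (fun n hn => Ti_cl d u Y N n a hn), d_sum]
  exact Finset.sum_congr rfl fun k _ => d_smul _ _ _ _ _

private theorem Ti_cs (s : Finset ℕ) (w : ℕ → ℝ) (z : ℕ → ℂ) (hw : ∀ i ∈ s, 0 ≤ w i) :
    ‖∑ i ∈ s, ((w i : ℝ) : ℂ) * z i‖ ^ 2 ≤ (∑ i ∈ s, w i) * ∑ i ∈ s, w i * ‖z i‖ ^ 2 := by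
  have h1 : ‖∑ i ∈ s, ((w i : ℝ) : ℂ) * z i‖ ≤ ∑ i ∈ s, w i * ‖z i‖ := by
    refine (norm_sum_le _ _).trans (Finset.sum_le_sum fun i hi => ?_)
    rw [norm_mul, Complex.norm_real, Real.norm_of_nonneg (hw i hi)]
  have h2 : (∑ i ∈ s, w i * ‖z i‖) ^ 2 ≤ (∑ i ∈ s, w i) * ∑ i ∈ s, w i * ‖z i‖ ^ 2 := by
    refine Finset.sum_sq_le_sum_mul_sum_of_sq_le_mul s hw
      (fun i hi => mul_nonneg (hw i hi) (sq_nonneg _)) (fun i _ => le_of_eq (by ring))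
  exact (pow_le_pow_left₀ (norm_nonneg _) h1 2).trans h2

theorem ti (A B : ℕ) : ∃ A0 : ℕ, ∀ A1 : ℕ, A0 ≤ A1 → ∃ X0 : ℕ, ∀ X : ℕ, X0 ≤ X →
    ∀ (d u H H1 Y : ℕ) (k : Fin 3) (a : ArithmeticFunction ℝ), k ≠ 2 → 1 ≤ d →
    (d : ℝ) ≤ Real.log X ^ B → Nat.Coprime u d →
    (X : ℝ) ^ (1 / 6 : ℝ) ≤ H → (H : ℝ) ≤ (X : ℝ) ^ (1 / 3 : ℝ) →
    H1 = ⌊X / Real.log X ^ A1⌋₊ →
    (X : ℝ) ^ (11 / 24 : ℝ) / 2 ≤ Y → (∀ m, |a m| ≤ 20 * Real.log X * tau m ^ 5) →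
    ∑ x ∈ Ico X (2 * X), ‖D (cl d u (hi k Y * a)) H H1 x‖ ^ 2 ≤ X / Real.log X ^ A := by
  obtain ⟨Xs, hs⟩ := ti_short B
  obtain ⟨A0, hl0⟩ := ti_long (A + 3) B
  refine ⟨A0, fun A1 hA1 => ?_⟩
  obtain ⟨Xl, hl⟩ := hl0 A1 hA1
  obtain ⟨X1, h1⟩ := Pool.Agent.H80.LV.log_pow_le (1 / 50) 1 (by norm_num) one_pos (A + 3)
  obtain ⟨X2, h2⟩ := Pool.Agent.H80.LV.log_ge 100
  refine ⟨max (max Xs Xl) (max X1 (max X2 1)), fun X hX => ?_⟩
  have hXs : Xs ≤ X := (le_max_left _ _).trans ((le_max_left _ _).trans hX)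
  have hXl : Xl ≤ X := (le_max_right _ _).trans ((le_max_left _ _).trans hX)
  have hX1 : X1 ≤ X := (le_max_left _ _).trans ((le_max_right _ _).trans hX)
  have hX2 : X2 ≤ X := (le_max_left _ _).trans ((le_max_right _ _).trans
    ((le_max_right _ _).trans hX))
  have hX3 : 1 ≤ X := (le_max_right _ _).trans ((le_max_right _ _).trans
    ((le_max_right _ _).trans hX))
  intro d u H H1 Y k a hk2 hd hdL hu hH hH' hH1 hY ha
  set L : ℝ := Real.log X with hL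
  have hL100 : 100 ≤ L := h2 X hX2
  have hXr : (1 : ℝ) ≤ X := by exact_mod_cast hX3
  have hX0 : (0 : ℝ) < X := by linarith only [hXr]
  have hpow := h1 X hX1
  rw [one_mul] at hpow
  have hLp : 0 < L ^ (A + 3) := by positivity
  -- the basic bound
  have hshort : (X : ℝ) ^ (49 / 50 : ℝ) ≤ X / L ^ (A + 3) := by
    rw [le_div_iff₀ hLp]
    calc (X : ℝ) ^ (49 / 50 : ℝ) * L ^ (A + 3) ≤ (X : ℝ) ^ (49 / 50 : ℝ) * (X : ℝ) ^ (1 / 50 : ℝ) :=
          mul_le_mul_of_nonneg_left hpow (by positivity)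
      _ = X := by
          rw [← Real.rpow_add hX0]
          norm_num
  have hY0 : 1 ≤ Y := by
    rw [Nat.one_le_iff_ne_zero]
    rintro rfl
    have : 0 < (X : ℝ) ^ (11 / 24 : ℝ) / 2 := by positivity
    rw [Nat.cast_zero] at hY
    linarith only [hY, this]
  have hbase : ∀ k' : ℕ, Y ≤ k' →
      ∑ x ∈ Ico X (2 * X), ‖D (cl d u (hi 0 k' * a)) H H1 x‖ ^ 2 ≤ 4 * (X / L ^ (A + 3)) := by
    intro k' hk'
    have hk'' : (X : ℝ) ^ (11 / 24 : ℝ) / 2 ≤ k' := hY.trans (by exact_mod_cast hk')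
    have e1 := hs X hXs d u H k' a hd hdL hu hH hH' hk'' ha
    have e2 := hl X hXl d u H1 k' a hd hdL hu hH1 hk'' ha
    have e3 : ∀ x ∈ Ico X (2 * X), ‖D (cl d u (hi 0 k' * a)) H H1 x‖ ^ 2 ≤
        2 * ‖W (cl d u (hi 0 k' * a)) H x / H - ((Bk a d k' x : ℝ) : ℂ)‖ ^ 2 +
        2 * ‖W (cl d u (hi 0 k' * a)) H1 x / H1 - ((Bk a d k' x : ℝ) : ℂ)‖ ^ 2 := by
      intro x _
      have e4 : D (cl d u (hi 0 k' * a)) H H1 x =
          (W (cl d u (hi 0 k' * a)) H x / H - ((Bk a d k' x : ℝ) : ℂ)) -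
          (W (cl d u (hi 0 k' * a)) H1 x / H1 - ((Bk a d k' x : ℝ) : ℂ)) := by
        unfold D; ring
      rw [e4]
      have e5 := norm_sub_le (W (cl d u (hi 0 k' * a)) H x / H - ((Bk a d k' x : ℝ) : ℂ))
        (W (cl d u (hi 0 k' * a)) H1 x / H1 - ((Bk a d k' x : ℝ) : ℂ))
      have e6 := pow_le_pow_left₀ (norm_nonneg _) e5 2
      nlinarith only [e6, sq_nonneg (‖W (cl d u (hi 0 k' * a)) H x / H - ((Bk a d k' x : ℝ) : ℂ)‖ -
        ‖W (cl d u (hi 0 k' * a)) H1 x / H1 - ((Bk a d k' x : ℝ) : ℂ)‖)]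
    have e7 := Finset.sum_le_sum e3
    rw [Finset.sum_add_distrib, ← Finset.mul_sum, ← Finset.mul_sum] at e7
    have e1' := e1.trans hshort
    linarith only [hshort, e1, e2, e7]
  have hE : 0 ≤ (X : ℝ) / L ^ (A + 3) := by positivity
  have hsplit : (X : ℝ) / L ^ A = X / L ^ (A + 3) * L ^ 3 := by
    rw [pow_add]
    field_simp
  have hk : k = 0 ∨ k = 1 := by
    fin_cases k <;> simp_all
  rcases hk with rfl | rfl
  · refine (hbase Y le_rfl).trans ?_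
    rw [hsplit, mul_comm (4 : ℝ)]
    refine mul_le_mul_of_nonneg_left ?_ hE
    nlinarith only [hL100, pow_le_pow_left₀ (by norm_num : (0 : ℝ) ≤ 100) hL100 3]
  · -- windows
    have hHX : H ≤ X := by
      have : (H : ℝ) ≤ X := hH'.trans (by
        calc (X : ℝ) ^ (1 / 3 : ℝ) ≤ (X : ℝ) ^ (1 : ℝ) :=
              Real.rpow_le_rpow_of_exponent_le hXr (by norm_num)
          _ = X := Real.rpow_one _)
      exact_mod_cast this
    have hH1X : H1 ≤ X := by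
      rw [hH1]
      refine Nat.floor_le_of_le ?_
      exact div_le_self hX0.le (one_le_pow₀ (by linarith only [hL100]))
    have hD : ∀ x ∈ Ico X (2 * X), ‖D (cl d u (hi 1 Y * a)) H H1 x‖ ^ 2 ≤
        (∑ k ∈ Icc Y (3 * X), Ti_w Y k) *
          ∑ k ∈ Icc Y (3 * X), Ti_w Y k * ‖D (cl d u (hi 0 k * a)) H H1 x‖ ^ 2 := by
      intro x hx
      have hx' := (Finset.mem_Ico.mp hx).2
      rw [Ti_D d u Y (3 * X) H H1 x a (by omega) (by omega)]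
      exact Ti_cs _ _ _ fun i hi => Ti_w_nonneg Y i hY0 (Finset.mem_Icc.mp hi).1
    have hwsum : ∑ k ∈ Icc Y (3 * X), Ti_w Y k ≤ 2 * L := by
      by_cases hY3 : Y ≤ 3 * X
      · rw [Ti_w_sum Y (3 * X) hY3]
        push_cast
        rw [Real.log_mul (by norm_num) hX0.ne']
        have : Real.log 3 ≤ 3 - 1 := Real.log_le_sub_one_of_pos (by norm_num)
        linarith only [hL100, this]
      · rw [Finset.Icc_eq_empty (by omega), Finset.sum_empty]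
        linarith only [hL100]
    have hw0 : 0 ≤ ∑ k ∈ Icc Y (3 * X), Ti_w Y k :=
      Finset.sum_nonneg fun i hi => Ti_w_nonneg Y i hY0 (Finset.mem_Icc.mp hi).1
    calc ∑ x ∈ Ico X (2 * X), ‖D (cl d u (hi 1 Y * a)) H H1 x‖ ^ 2
        ≤ ∑ x ∈ Ico X (2 * X), (∑ k ∈ Icc Y (3 * X), Ti_w Y k) *
          ∑ k ∈ Icc Y (3 * X), Ti_w Y k * ‖D (cl d u (hi 0 k * a)) H H1 x‖ ^ 2 :=
          Finset.sum_le_sum hD
      _ = (∑ k ∈ Icc Y (3 * X), Ti_w Y k) * ∑ k ∈ Icc Y (3 * X), Ti_w Y k *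
          ∑ x ∈ Ico X (2 * X), ‖D (cl d u (hi 0 k * a)) H H1 x‖ ^ 2 := by
          rw [← Finset.mul_sum, Finset.sum_comm]
          congr 1
          exact Finset.sum_congr rfl fun k _ => (Finset.mul_sum _ _ _).symm
      _ ≤ (∑ k ∈ Icc Y (3 * X), Ti_w Y k) * ∑ k ∈ Icc Y (3 * X), Ti_w Y k *
          (4 * (X / L ^ (A + 3))) := by
          refine mul_le_mul_of_nonneg_left (Finset.sum_le_sum fun k hk => ?_) hw0
          have hk' := (Finset.mem_Icc.mp hk).1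
          exact mul_le_mul_of_nonneg_left (hbase k hk') (Ti_w_nonneg Y k hY0 hk')
      _ = (∑ k ∈ Icc Y (3 * X), Ti_w Y k) ^ 2 * (4 * (X / L ^ (A + 3))) := by
          rw [← Finset.sum_mul]; ring
      _ ≤ (2 * L) ^ 2 * (4 * (X / L ^ (A + 3))) := by
          refine mul_le_mul_of_nonneg_right (pow_le_pow_left₀ hw0 hwsum 2) (by positivity)
      _ = X / L ^ (A + 3) * (16 * L ^ 2) := by ring
      _ ≤ X / L ^ (A + 3) * L ^ 3 := by
          refine mul_le_mul_of_nonneg_left ?_ hE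
          nlinarith only [hL100, sq_nonneg L]
      _ = X / L ^ A := hsplit.symm

end Pool.Agent.H88.PSI

end
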