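import Pool.Agent.H43.PJ.M59
import Pool.Agent.H43.PJ.M77

/-! The parts of this file: H56.TI.Off, H56.TI.Bad, H56.TI.BlkTri, H56.TI.Blk. -/

section

/-!
# TI Off: the off-diagonal part of `T4`

`q1 ≠ q3`, `q2 ≠ q4`: `Tj ≤ K² ∑_j fej(x1) fej(x3) ≤ 2 J K² Wk K (nz(x1 - x3))` (`fej_le` for `x2, x4`, `fej_grid2`), and `fej X (x1+x2-x3-x4) ≤ Wk X (nz((x1-x3) - (x4-x2)))` (`fej_le_W`).
`wk_dyad` for both: `Wk K (nz γ) ≤ ∑_{s' ≤ log K} 4K 4^(-s') 1[nz γ ≤ 2^s'/K]`, `Wk X (nz(γ-γ')) ≤ ∑_{s ≤ log X} 4X 4^(-s) 1[nz(γ-γ') ≤ 2^s/X]`; `cnt` with `G = 2^s'/K ≤ 1`, `ρ = 2^s/X ≤ 1`: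
`∑ ≤ 2 J K² · 16 K X · C P⁴ ∑_{s,s'} 4^(-s-s') (2^s'/K + 2^s/X)(1 + 2^s P⁴/X)`.
`∑_{s,s'} 4^(-s-s') (2^s'/K)(1 + 2^s P⁴/X) ≤ (2/K)(4/3 + 2P⁴/X)`; `∑_{s,s'} 4^(-s-s') (2^s/X)(1 + 2^s P⁴/X) ≤ (4/3)(1/X)(2 + (log₂ X + 1) P⁴/X)`, and `(log₂X + 1) K/X ≤ 10` for `K² ≤ X`.
Total `≤ C' J K² P⁴ (X + P⁴)`.
-/

set_option autoImplicit false

namespace Pool.Agent.H56.TI

open Finset
open Pool.Agent.H91.PK (ee)
open Pool.Agent.H35.W (pb)
open Pool.Agent.H53.MID (nz)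

private theorem off_log (n : ℕ) : (n + 1) ^ 2 ≤ 3 * 2 ^ n := by
  induction n with
  | zero => norm_num
  | succ k ih =>
    rcases Nat.lt_or_ge k 2 with h | h
    · interval_cases k <;> norm_num
    · rw [pow_succ 2 k]
      nlinarith

private theorem off_geo2 (n : ℕ) : ∑ s ∈ range n, (1 / (2 : ℝ) ^ s) ≤ 2 := by
  have h : ∑ s ∈ range n, (1 / (2 : ℝ) ^ s) = 2 - 2 / 2 ^ n := by
    induction n with
    | zero => norm_num
    | succ k ih =>
      rw [sum_range_succ, ih, pow_succ]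
      have : (0 : ℝ) < 2 ^ k := by positivity
      field_simp
      ring
  rw [h]
  have : (0 : ℝ) < 2 / 2 ^ n := by positivity
  linarith

private theorem off_geo4 (n : ℕ) : ∑ s ∈ range n, (1 / (4 : ℝ) ^ s) ≤ 2 := by
  refine le_trans (sum_le_sum ?_) (off_geo2 n)
  intro s _
  apply one_div_le_one_div_of_le (by positivity)
  exact pow_le_pow_left₀ (by norm_num) (by norm_num) s

/-- the numerical double sum -/
private theorem off_num (K X : ℕ) (hK : 1 ≤ K) (hX : K ^ 2 ≤ X) (Q : ℝ) (hQ : 0 ≤ Q) :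
    ∑ s' ∈ range (Nat.log 2 K + 1), ∑ s ∈ range (Nat.log 2 X + 1),
      (16 * (K : ℝ) * X / 4 ^ (s' + s)) * (((2 : ℝ) ^ s' / K + 2 ^ s / X) * (1 + 2 ^ s / X * Q)) ≤
    16 * (8 * (X + Q)) := by
  have hK0 : (0 : ℝ) < K := by exact_mod_cast hK
  have hX1 : 1 ≤ X := le_trans (Nat.one_le_pow _ _ hK) hX
  have hX0 : (0 : ℝ) < X := by exact_mod_cast hX1
  have hKX : (K : ℝ) ^ 2 ≤ X := by exact_mod_cast hX
  have hKX1 : (K : ℝ) ≤ X := by
    have h1 : (1 : ℝ) ≤ K := by exact_mod_cast hK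
    nlinarith
  set L : ℕ := Nat.log 2 X + 1 with hL
  have hL2 : ((L : ℝ)) ^ 2 ≤ 3 * X := by
    have h1 := off_log (Nat.log 2 X)
    have h2 : 2 ^ Nat.log 2 X ≤ X := Nat.pow_log_le_self 2 (by omega)
    have h3 : L ^ 2 ≤ 3 * X := by
      rw [hL]
      omega
    exact_mod_cast h3
  have hKL : (K : ℝ) * L ≤ 2 * X := by
    have h1 : ((K : ℝ) * L) ^ 2 ≤ (2 * X) ^ 2 := by
      have h2 : ((K : ℝ) * L) ^ 2 = K ^ 2 * L ^ 2 := by ring
      rw [h2]
      have h3 : (K : ℝ) ^ 2 * L ^ 2 ≤ X * (3 * X) := by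
        apply mul_le_mul hKX hL2 (by positivity) (by positivity)
      nlinarith
    exact le_of_sq_le_sq h1 (by positivity)
  -- each term
  have hterm : ∀ s' s : ℕ, (16 * (K : ℝ) * X / 4 ^ (s' + s)) * (((2 : ℝ) ^ s' / K + 2 ^ s / X) * (1 + 2 ^ s / X * Q)) =
      16 * ((1 / 2 ^ s') * (X * (1 / 4 ^ s) + Q * (1 / 2 ^ s)) + (1 / 4 ^ s') * (K * (1 / 2 ^ s) + K * Q / X)) := by
    intro s' s
    have h4 : ∀ n : ℕ, (4 : ℝ) ^ n = 2 ^ n * 2 ^ n := by
      intro n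
      rw [← mul_pow]
      norm_num
    rw [pow_add, h4 s', h4 s]
    have ha : (0 : ℝ) < 2 ^ s' := by positivity
    have hb : (0 : ℝ) < 2 ^ s := by positivity
    field_simp
  simp_rw [hterm]
  have hsum : ∀ s' : ℕ, ∑ s ∈ range L, 16 * ((1 / (2 : ℝ) ^ s') * (X * (1 / 4 ^ s) + Q * (1 / 2 ^ s)) + (1 / 4 ^ s') * (K * (1 / 2 ^ s) + K * Q / X)) ≤
      16 * ((1 / (2 : ℝ) ^ s') * (2 * X + 2 * Q) + (1 / 4 ^ s') * (2 * X + 2 * Q)) := by
    intro s'
    rw [← mul_sum]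
    apply mul_le_mul_of_nonneg_left _ (by norm_num)
    rw [sum_add_distrib, ← mul_sum, ← mul_sum, sum_add_distrib, sum_add_distrib, ← mul_sum, ← mul_sum, ← mul_sum, sum_const, card_range, nsmul_eq_mul]
    have g2 := off_geo2 L
    have g4 := off_geo4 L
    have e1 : (X : ℝ) * ∑ s ∈ range L, (1 / (4 : ℝ) ^ s) ≤ X * 2 := mul_le_mul_of_nonneg_left g4 hX0.le
    have e2 : Q * ∑ s ∈ range L, (1 / (2 : ℝ) ^ s) ≤ Q * 2 := mul_le_mul_of_nonneg_left g2 hQ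
    have e3 : (K : ℝ) * ∑ s ∈ range L, (1 / (2 : ℝ) ^ s) ≤ K * 2 := mul_le_mul_of_nonneg_left g2 hK0.le
    have e4 : (L : ℝ) * (K * Q / X) ≤ 2 * Q := by
      have : (L : ℝ) * (K * Q / X) = (K * L) / X * Q := by ring
      rw [this]
      apply mul_le_mul_of_nonneg_right _ hQ
      rw [div_le_iff₀ hX0]
      exact hKL
    apply add_le_add
    · apply mul_le_mul_of_nonneg_left _ (by positivity)
      linarith
    · apply mul_le_mul_of_nonneg_left _ (by positivity)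
      linarith
  refine (sum_le_sum fun s' _ => hsum s').trans ?_
  rw [← mul_sum]
  apply mul_le_mul_of_nonneg_left _ (by norm_num)
  rw [sum_add_distrib, ← sum_mul, ← sum_mul]
  have g2 := off_geo2 (Nat.log 2 K + 1)
  have g4 := off_geo4 (Nat.log 2 K + 1)
  have hpos : (0 : ℝ) ≤ 2 * X + 2 * Q := by positivity
  nlinarith [mul_le_mul_of_nonneg_right g2 hpos, mul_le_mul_of_nonneg_right g4 hpos]

private theorem off_Tj (K J : ℕ) (hK : 1 ≤ K) (hJ : K ≤ J) (q1 q2 q3 q4 : ℕ × ℕ) :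
    Tj K J q1 q2 q3 q4 ≤ 2 * J * K ^ 2 * Wk K (nz (xf q1 - xf q3)) := by
  unfold Tj
  have h1 : ∑ j ∈ range J, fej K (xf q1 - j / J) * fej K (xf q2 - j / J) * fej K (xf q3 - j / J) * fej K (xf q4 - j / J) ≤
      ∑ j ∈ range J, (K : ℝ) ^ 2 * (fej K (xf q1 - j / J) * fej K (xf q3 - j / J)) := by
    apply sum_le_sum
    intro j _
    have a1 := fej_nonneg K (xf q1 - j / J)
    have a2 := fej_nonneg K (xf q2 - j / J)
    have a3 := fej_nonneg K (xf q3 - j / J)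
    have a4 := fej_nonneg K (xf q4 - j / J)
    have b2 := fej_le K (xf q2 - j / J)
    have b4 := fej_le K (xf q4 - j / J)
    have e1 : fej K (xf q1 - j / J) * fej K (xf q2 - j / J) * fej K (xf q3 - j / J) * fej K (xf q4 - j / J) =
        (fej K (xf q2 - j / J) * fej K (xf q4 - j / J)) * (fej K (xf q1 - j / J) * fej K (xf q3 - j / J)) := by ring
    rw [e1]
    apply mul_le_mul_of_nonneg_right _ (mul_nonneg a1 a3)
    calc fej K (xf q2 - j / J) * fej K (xf q4 - j / J) ≤ K * K := mul_le_mul b2 b4 a4 (Nat.cast_nonneg K)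
      _ = (K : ℝ) ^ 2 := by ring
  refine h1.trans ?_
  rw [← mul_sum]
  have h2 := fej_grid2 K J hK hJ (xf q1) (xf q3)
  have h3 := mul_le_mul_of_nonneg_left h2 (by positivity : (0 : ℝ) ≤ (K : ℝ) ^ 2)
  refine h3.trans (le_of_eq ?_)
  ring

open Classical in
private theorem off_pt (K J X : ℕ) (hK : 1 ≤ K) (hJ : K ≤ J) (hX : K ^ 2 ≤ X) (q1 q2 q3 q4 : ℕ × ℕ) :
    (if q1 = q3 ∨ q2 = q4 then 0 else Tj K J q1 q2 q3 q4 * fej X (xf q1 + xf q2 - xf q3 - xf q4)) ≤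
    2 * J * K ^ 2 * ∑ s' ∈ range (Nat.log 2 K + 1), ∑ s ∈ range (Nat.log 2 X + 1),
      if (q1 ≠ q3 ∧ q4 ≠ q2 ∧ nz (xf q1 - xf q3) ≤ 2 ^ s' / K ∧ nz ((xf q1 - xf q3) - (xf q4 - xf q2)) ≤ 2 ^ s / X)
        then 16 * (K : ℝ) * X / 4 ^ (s' + s) else 0 := by
  have hX1 : 1 ≤ X := le_trans (Nat.one_le_pow _ _ hK) hX
  by_cases h : q1 = q3 ∨ q2 = q4
  · rw [if_pos h]
    apply mul_nonneg (by positivity)
    apply sum_nonneg
    intro s' _
    apply sum_nonneg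
    intro s _
    split_ifs
    · positivity
    · exact le_refl _
  · rw [if_neg h]
    rw [not_or] at h
    obtain ⟨h13, h24⟩ := h
    have hT := off_Tj K J hK hJ q1 q2 q3 q4
    have hF := fej_le_W X hX1 (xf q1 + xf q2 - xf q3 - xf q4)
    have e : xf q1 + xf q2 - xf q3 - xf q4 = (xf q1 - xf q3) - (xf q4 - xf q2) := by ring
    rw [e] at hF ⊢
    have hF0 := fej_nonneg X ((xf q1 - xf q3) - (xf q4 - xf q2))
    have hW1 := wk_dyad K hK (nz (xf q1 - xf q3)) (Pool.Agent.H53.MID.nz_nonneg _) (Pool.Agent.H53.MID.nz_le_half _)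
    have hW2 := wk_dyad X hX1 (nz ((xf q1 - xf q3) - (xf q4 - xf q2))) (Pool.Agent.H53.MID.nz_nonneg _) (Pool.Agent.H53.MID.nz_le_half _)
    have hW10 := wk_nonneg K (nz (xf q1 - xf q3))
    have hW20 := wk_nonneg X (nz ((xf q1 - xf q3) - (xf q4 - xf q2)))
    calc Tj K J q1 q2 q3 q4 * fej X ((xf q1 - xf q3) - (xf q4 - xf q2))
        ≤ (2 * J * K ^ 2 * Wk K (nz (xf q1 - xf q3))) * Wk X (nz ((xf q1 - xf q3) - (xf q4 - xf q2))) := by
          apply mul_le_mul hT hF hF0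
          apply mul_nonneg (by positivity) hW10
      _ = 2 * J * K ^ 2 * (Wk K (nz (xf q1 - xf q3)) * Wk X (nz ((xf q1 - xf q3) - (xf q4 - xf q2)))) := by ring
      _ ≤ _ := by
          apply mul_le_mul_of_nonneg_left _ (by positivity)
          refine (mul_le_mul hW1 hW2 hW20 (hW10.trans hW1)).trans (le_of_eq ?_)
          rw [sum_mul_sum]
          apply sum_congr rfl
          intro s' _
          apply sum_congr rfl
          intro s _
          have h42 : q4 ≠ q2 := fun h => h24 h.symm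
          by_cases c1 : nz (xf q1 - xf q3) ≤ 2 ^ s' / K
          · by_cases c2 : nz ((xf q1 - xf q3) - (xf q4 - xf q2)) ≤ 2 ^ s / X
            · rw [if_pos c1, if_pos c2, if_pos ⟨h13, h42, c1, c2⟩, pow_add]
              have ha : (0 : ℝ) < 4 ^ s' := by positivity
              have hb : (0 : ℝ) < 4 ^ s := by positivity
              field_simp
              ring
            · rw [if_neg c2, mul_zero, if_neg (fun hh => c2 hh.2.2.2)]
          · rw [if_neg c1, zero_mul, if_neg (fun hh => c1 hh.2.2.1)]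

theorem off_le : ∃ C : ℝ, 0 < C ∧ ∀ (P K J X : ℕ), 20 ≤ P → 1 ≤ K → K ≤ J → K ^ 2 ≤ X →
    ∑ q1 ∈ FR P, ∑ q2 ∈ FR P, ∑ q3 ∈ FR P, ∑ q4 ∈ FR P,
      (if q1 = q3 ∨ q2 = q4 then 0 else Tj K J q1 q2 q3 q4 * fej X (xf q1 + xf q2 - xf q3 - xf q4)) ≤
    C * (K : ℝ) ^ 2 * J * P ^ 4 * (X + (P : ℝ) ^ 4) := by
  classical
  obtain ⟨C, hC, hcnt⟩ := cnt
  refine ⟨256 * C, by positivity, ?_⟩
  intro P K J X hP hK hJ hX
  have hX1 : 1 ≤ X := le_trans (Nat.one_le_pow _ _ hK) hX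
  have hK0 : (0 : ℝ) < K := by exact_mod_cast hK
  have hX0 : (0 : ℝ) < X := by exact_mod_cast hX1
  -- pointwise
  have h1 : ∑ q1 ∈ FR P, ∑ q2 ∈ FR P, ∑ q3 ∈ FR P, ∑ q4 ∈ FR P,
      (if q1 = q3 ∨ q2 = q4 then 0 else Tj K J q1 q2 q3 q4 * fej X (xf q1 + xf q2 - xf q3 - xf q4)) ≤
      ∑ q1 ∈ FR P, ∑ q2 ∈ FR P, ∑ q3 ∈ FR P, ∑ q4 ∈ FR P,
      2 * J * K ^ 2 * ∑ s' ∈ range (Nat.log 2 K + 1), ∑ s ∈ range (Nat.log 2 X + 1),
      (if (q1 ≠ q3 ∧ q4 ≠ q2 ∧ nz (xf q1 - xf q3) ≤ 2 ^ s' / K ∧ nz ((xf q1 - xf q3) - (xf q4 - xf q2)) ≤ 2 ^ s / X)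
        then 16 * (K : ℝ) * X / 4 ^ (s' + s) else 0) := by
    apply sum_le_sum; intro q1 _
    apply sum_le_sum; intro q2 _
    apply sum_le_sum; intro q3 _
    apply sum_le_sum; intro q4 _
    exact off_pt K J X hK hJ hX q1 q2 q3 q4
  refine h1.trans ?_
  -- rearrange
  have h2 : ∑ q1 ∈ FR P, ∑ q2 ∈ FR P, ∑ q3 ∈ FR P, ∑ q4 ∈ FR P,
      2 * J * K ^ 2 * ∑ s' ∈ range (Nat.log 2 K + 1), ∑ s ∈ range (Nat.log 2 X + 1),
      (if (q1 ≠ q3 ∧ q4 ≠ q2 ∧ nz (xf q1 - xf q3) ≤ 2 ^ s' / K ∧ nz ((xf q1 - xf q3) - (xf q4 - xf q2)) ≤ 2 ^ s / X)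
        then 16 * (K : ℝ) * X / 4 ^ (s' + s) else 0) =
      ∑ t ∈ (FR P ×ˢ FR P) ×ˢ (FR P ×ˢ FR P),
      2 * J * K ^ 2 * ∑ s' ∈ range (Nat.log 2 K + 1), ∑ s ∈ range (Nat.log 2 X + 1),
      (if (t.1.1 ≠ t.1.2 ∧ t.2.1 ≠ t.2.2 ∧ nz (xf t.1.1 - xf t.1.2) ≤ 2 ^ s' / K ∧
          nz ((xf t.1.1 - xf t.1.2) - (xf t.2.1 - xf t.2.2)) ≤ 2 ^ s / X)
        then 16 * (K : ℝ) * X / 4 ^ (s' + s) else 0) := by
    rw [sum_product, sum_product]
    apply sum_congr rfl; intro q1 _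
    rw [sum_comm]
    apply sum_congr rfl; intro q3 _
    rw [sum_product, sum_comm]
  rw [h2, ← mul_sum]
  have h3 : ∑ t ∈ (FR P ×ˢ FR P) ×ˢ (FR P ×ˢ FR P),
      ∑ s' ∈ range (Nat.log 2 K + 1), ∑ s ∈ range (Nat.log 2 X + 1),
      (if (t.1.1 ≠ t.1.2 ∧ t.2.1 ≠ t.2.2 ∧ nz (xf t.1.1 - xf t.1.2) ≤ 2 ^ s' / K ∧
          nz ((xf t.1.1 - xf t.1.2) - (xf t.2.1 - xf t.2.2)) ≤ 2 ^ s / X)
        then 16 * (K : ℝ) * X / 4 ^ (s' + s) else 0) ≤ C * P ^ 4 * (16 * (8 * (X + (P : ℝ) ^ 4))) := by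
    rw [sum_comm]
    have h4 : ∀ s' ∈ range (Nat.log 2 K + 1), ∑ t ∈ (FR P ×ˢ FR P) ×ˢ (FR P ×ˢ FR P), ∑ s ∈ range (Nat.log 2 X + 1),
      (if (t.1.1 ≠ t.1.2 ∧ t.2.1 ≠ t.2.2 ∧ nz (xf t.1.1 - xf t.1.2) ≤ 2 ^ s' / K ∧
          nz ((xf t.1.1 - xf t.1.2) - (xf t.2.1 - xf t.2.2)) ≤ 2 ^ s / X)
        then 16 * (K : ℝ) * X / 4 ^ (s' + s) else 0) ≤
      ∑ s ∈ range (Nat.log 2 X + 1), C * P ^ 4 * ((16 * (K : ℝ) * X / 4 ^ (s' + s)) *
        (((2 : ℝ) ^ s' / K + 2 ^ s / X) * (1 + 2 ^ s / X * (P : ℝ) ^ 4))) := by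
      intro s' hs'
      rw [sum_comm]
      apply sum_le_sum
      intro s hs
      rw [← sum_filter, sum_const, nsmul_eq_mul]
      have hG1 : (2 : ℝ) ^ s' / K ≤ 1 := by
        rw [div_le_one hK0]
        have h5 : 2 ^ s' ≤ K := by
          have h6 : s' ≤ Nat.log 2 K := by
            have := mem_range.mp hs'
            omega
          exact (Nat.pow_le_pow_right (by norm_num) h6).trans (Nat.pow_log_le_self 2 (by omega))
        exact_mod_cast h5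
      have hR1 : (2 : ℝ) ^ s / X ≤ 1 := by
        rw [div_le_one hX0]
        have h5 : 2 ^ s ≤ X := by
          have h6 : s ≤ Nat.log 2 X := by
            have := mem_range.mp hs
            omega
          exact (Nat.pow_le_pow_right (by norm_num) h6).trans (Nat.pow_log_le_self 2 (by omega))
        exact_mod_cast h5
      have hc := hcnt P ((2 : ℝ) ^ s' / K) ((2 : ℝ) ^ s / X) hP (by positivity) hG1 (by positivity) hR1
      have hc2 := mul_le_mul_of_nonneg_right hc (by positivity : (0 : ℝ) ≤ 16 * (K : ℝ) * X / 4 ^ (s' + s))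
      refine hc2.trans (le_of_eq ?_)
      ring
    refine (sum_le_sum h4).trans ?_
    simp_rw [← mul_sum]
    apply mul_le_mul_of_nonneg_left _ (by positivity)
    exact off_num K X hK hX ((P : ℝ) ^ 4) (by positivity)
  refine (mul_le_mul_of_nonneg_left h3 (by positivity)).trans (le_of_eq ?_)
  ring

end Pool.Agent.H56.TI

end

section

/-!
# TI Bad: few bad centres `x`

`T4 = diag + off ≤ C K² J P⁴ (X + P⁴)` (`diag_le`, `off_le`), so `m4_le` (with `2X` for `X`) gives `∑_{|x| < 2X} (1 - |x|/(2X)) ∑_j ‖SF(j/J, x)‖^4 ≤ C K² J (2X + P⁴)`.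
Let `K ≤ x < X`, `‖SF P K w α x‖ > η`.  `SF` is periodic in `α` with period 1 (`fej_int`), so let `0 ≤ α < 1`, `j = ⌊αJ⌋`, `|α - j/J| ≤ 1/J`.  By `sf_tri` and `|ee s - ee t| ≤ 2π|s - t|`, `|Phi| ≤ b` on `(x-K, x+K)`:
`‖SF α x - SF (j/J) x‖ ≤ 2K · b · 2π K/J ≤ η/2` as `8π K² b ≤ η J` (hypothesis `26 K² b ≤ η J`).  So `‖SF (j/J) x‖ ≥ η/2` and `x` contributes `≥ (1/2)(η/2)^4` to the left hand side.
-/

set_option autoImplicit false

namespace Pool.Agent.H56.TI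

open Finset
open Pool.Agent.H91.PK (ee)
open Pool.Agent.H35.W (pb)
open Pool.Agent.H53.MID (nz)

open Classical in
/-- the bad centres -/
noncomputable def badx (P K : ℕ) (w : ℕ → ℝ) (η : ℝ) (X : ℕ) : Finset ℕ :=
  (range X).filter (fun x => K ≤ x ∧ ∃ α : ℝ, η < ‖SF P K w α x‖)

/-- `T4` is at most the sum of the two parts -/
private theorem Bad_T4 {C : ℝ} {P K J X : ℕ}
    (h1 : ∑ q1 ∈ FR P, ∑ q2 ∈ FR P, ∑ q3 ∈ FR P, ∑ q4 ∈ FR P,
      (if q1 = q3 ∨ q2 = q4 then Tj K J q1 q2 q3 q4 * fej (2 * X) (xf q1 + xf q2 - xf q3 - xf q4)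
        else 0) ≤ 100000 * (K : ℝ) ^ 2 * J * P ^ 4 * (2 * X : ℕ))
    (h2 : ∑ q1 ∈ FR P, ∑ q2 ∈ FR P, ∑ q3 ∈ FR P, ∑ q4 ∈ FR P,
      (if q1 = q3 ∨ q2 = q4 then 0 else
        Tj K J q1 q2 q3 q4 * fej (2 * X) (xf q1 + xf q2 - xf q3 - xf q4)) ≤
      C * (K : ℝ) ^ 2 * J * P ^ 4 * ((2 * X : ℕ) + (P : ℝ) ^ 4)) (hC : 0 < C) :
    T4 P K J (2 * X) ≤ (200000 + 2 * C) * (K : ℝ) ^ 2 * J * P ^ 4 * (X + (P : ℝ) ^ 4) := by
  have h3 : T4 P K J (2 * X) =
      ∑ q1 ∈ FR P, ∑ q2 ∈ FR P, ∑ q3 ∈ FR P, ∑ q4 ∈ FR P,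
      (if q1 = q3 ∨ q2 = q4 then Tj K J q1 q2 q3 q4 * fej (2 * X) (xf q1 + xf q2 - xf q3 - xf q4)
        else 0) +
      ∑ q1 ∈ FR P, ∑ q2 ∈ FR P, ∑ q3 ∈ FR P, ∑ q4 ∈ FR P,
      (if q1 = q3 ∨ q2 = q4 then 0 else
        Tj K J q1 q2 q3 q4 * fej (2 * X) (xf q1 + xf q2 - xf q3 - xf q4)) := by
    unfold T4
    rw [← sum_add_distrib]
    refine sum_congr rfl fun q1 _ => ?_
    rw [← sum_add_distrib]
    refine sum_congr rfl fun q2 _ => ?_
    rw [← sum_add_distrib]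
    refine sum_congr rfl fun q3 _ => ?_
    rw [← sum_add_distrib]
    refine sum_congr rfl fun q4 _ => ?_
    by_cases h : q1 = q3 ∨ q2 = q4
    · rw [if_pos h, if_pos h, add_zero]
    · rw [if_neg h, if_neg h, zero_add]
  rw [h3]
  push_cast at h1 h2
  have h4 : (0 : ℝ) ≤ (K : ℝ) ^ 2 * J * P ^ 4 := by positivity
  have h5 : (0 : ℝ) ≤ (P : ℝ) ^ 4 := by positivity
  have h6 : (0 : ℝ) ≤ (K : ℝ) ^ 2 * J * P ^ 4 * (P : ℝ) ^ 4 := mul_nonneg h4 h5
  have h7 : (0 : ℝ) ≤ C * ((K : ℝ) ^ 2 * J * P ^ 4 * (P : ℝ) ^ 4) := mul_nonneg hC.le h6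
  calc _ ≤ _ := add_le_add h1 h2
    _ = (200000 + 2 * C) * (K : ℝ) ^ 2 * J * P ^ 4 * (X + (P : ℝ) ^ 4) -
        (200000 * ((K : ℝ) ^ 2 * J * P ^ 4 * (P : ℝ) ^ 4) +
          C * ((K : ℝ) ^ 2 * J * P ^ 4 * (P : ℝ) ^ 4)) := by ring
    _ ≤ _ := by linarith

private theorem Bad_ee_sub (s t : ℝ) : ‖ee s - ee t‖ ≤ 2 * Real.pi * |s - t| := by
  have h1 : ee s - ee t = ee t * (Complex.exp (Complex.I * ((2 * Real.pi * (s - t) : ℝ) : ℂ)) - 1) := by
    unfold Pool.Agent.H91.PK.ee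
    rw [mul_sub, ← Complex.exp_add, mul_one]
    congr 2
    push_cast
    ring
  have h2 : ‖ee t‖ = 1 := by
    unfold Pool.Agent.H91.PK.ee
    rw [show (2 * (Real.pi : ℂ) * (t : ℂ) * Complex.I) = ((2 * Real.pi * t : ℝ) : ℂ) * Complex.I by
      push_cast; ring]
    exact Complex.norm_exp_ofReal_mul_I _
  rw [h1, norm_mul, h2, one_mul]
  refine (Real.norm_exp_I_mul_ofReal_sub_one_le).trans ?_
  rw [Real.norm_eq_abs, abs_mul, abs_of_pos Real.two_pi_pos]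

/-- periodicity -/
private theorem Bad_fract (P K : ℕ) (w : ℕ → ℝ) (α : ℝ) (x : ℤ) :
    SF P K w (Int.fract α) x = SF P K w α x := by
  unfold SF
  refine sum_congr rfl fun q _ => ?_
  have h1 : xf q - Int.fract α = (xf q - α) + (⌊α⌋ : ℤ) := by
    unfold Int.fract
    ring
  rw [h1, fej_int]

/-- `SF` changes little with `α` -/
private theorem Bad_lip {P K X : ℕ} {w : ℕ → ℝ} {b : ℝ} (hK : 1 ≤ K) (hb : 0 ≤ b)
    (hm : ∀ m, 1 ≤ m → m ≤ 2 * X → |Phi P w m| ≤ b) {x : ℕ} (hKx : K ≤ x) (hxX : x < X)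
    (α β : ℝ) :
    ‖SF P K w α x - SF P K w β x‖ ≤ 4 * Real.pi * K ^ 2 * b * |α - β| := by
  rw [sf_tri P K w α x hK hKx, sf_tri P K w β x hK hKx, ← sum_sub_distrib]
  have hK0 : (0 : ℝ) < K := by exact_mod_cast hK
  have h1 : ∀ m ∈ Ioo (x - K) (x + K),
      ‖(((1 - |(m : ℝ) - x| / K) * Phi P w m : ℝ) : ℂ) * ee (-(((m : ℝ) - x) * α)) -
        (((1 - |(m : ℝ) - x| / K) * Phi P w m : ℝ) : ℂ) * ee (-(((m : ℝ) - x) * β))‖ ≤
        b * (2 * Real.pi * (K * |α - β|)) := by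
    intro m hmm
    have hm1 := (mem_Ioo.1 hmm).1
    have hm2 := (mem_Ioo.1 hmm).2
    have h2 : |(m : ℝ) - x| ≤ K := by
      rw [abs_le]
      have h3 : (m : ℝ) < x + K := by exact_mod_cast hm2
      have h4 : (x : ℝ) < m + K := by
        have : x < m + K := by omega
        exact_mod_cast this
      constructor <;> linarith
    have h3 : |1 - |(m : ℝ) - x| / K| ≤ 1 := by
      have h4 : |(m : ℝ) - x| / K ≤ 1 := (div_le_one hK0).2 h2
      have h5 : 0 ≤ |(m : ℝ) - x| / K := by positivity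
      rw [abs_le]
      constructor <;> linarith
    rw [← mul_sub, norm_mul, Complex.norm_real, Real.norm_eq_abs, abs_mul]
    refine mul_le_mul ?_ ?_ (norm_nonneg _) hb
    · calc |1 - |(m : ℝ) - x| / K| * |Phi P w m| ≤ 1 * b :=
            mul_le_mul h3 (hm m (by omega) (by omega)) (abs_nonneg _) zero_le_one
        _ = b := one_mul b
    · refine (Bad_ee_sub _ _).trans ?_
      refine mul_le_mul_of_nonneg_left ?_ Real.two_pi_pos.le
      have h4 : -(((m : ℝ) - x) * α) - -(((m : ℝ) - x) * β) = -(((m : ℝ) - x) * (α - β)) := by ring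
      rw [h4, abs_neg, abs_mul]
      exact mul_le_mul_of_nonneg_right h2 (abs_nonneg _)
  refine (norm_sum_le _ _).trans ((sum_le_card_nsmul _ _ _ h1).trans ?_)
  rw [nsmul_eq_mul, Nat.card_Ioo]
  have h5 : ((x + K - (x - K) - 1 : ℕ) : ℝ) ≤ 2 * K := by
    have : x + K - (x - K) - 1 ≤ 2 * K := by omega
    exact_mod_cast this
  have h6 : 0 ≤ b * (2 * Real.pi * (K * |α - β|)) := by positivity
  calc _ ≤ 2 * (K : ℝ) * (b * (2 * Real.pi * (K * |α - β|))) := mul_le_mul_of_nonneg_right h5 h6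
    _ = 4 * Real.pi * K ^ 2 * b * |α - β| := by ring

/-- a bad centre contributes -/
private theorem Bad_one {P K J X : ℕ} {w : ℕ → ℝ} {η b : ℝ} (hK : 1 ≤ K) (hJ : K ≤ J) (hη : 0 < η)
    (hb : 0 ≤ b) (hm : ∀ m, 1 ≤ m → m ≤ 2 * X → |Phi P w m| ≤ b)
    (hbJ : 26 * (K : ℝ) ^ 2 * b ≤ η * J) {x : ℕ} (hx : x ∈ badx P K w η X) :
    (η / 2) ^ 4 ≤ ∑ j ∈ range J, ‖SF P K w (j / J) (x : ℤ)‖ ^ 4 := by
  classical
  obtain ⟨hx1, hx2, α, hα⟩ := mem_filter.1 hx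
  have hxX := mem_range.1 hx1
  have hJ0 : (0 : ℝ) < J := by exact_mod_cast (show 0 < J by omega)
  rw [← Bad_fract] at hα
  have hf0 := Int.fract_nonneg α
  have hf1 := Int.fract_lt_one α
  generalize Int.fract α = β at hα hf0 hf1
  have hj : ⌊β * J⌋₊ < J := by
    rw [Nat.floor_lt (by positivity)]
    calc β * J < 1 * J := mul_lt_mul_of_pos_right hf1 hJ0
      _ = J := one_mul _
  have hd : |β - (⌊β * J⌋₊ : ℝ) / J| ≤ 1 / J := by
    have h1 := Nat.floor_le (show 0 ≤ β * J by positivity)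
    have h2 := Nat.lt_floor_add_one (β * J)
    have h3 : β - (⌊β * J⌋₊ : ℝ) / J = (β * J - ⌊β * J⌋₊) / J := by
      field_simp
    rw [h3, abs_div, abs_of_pos hJ0]
    refine div_le_div_of_nonneg_right ?_ hJ0.le
    rw [abs_le]
    constructor <;> linarith
  have h1 := Bad_lip (P := P) (w := w) hK hb hm hx2 hxX β ((⌊β * J⌋₊ : ℝ) / J)
  have h2 : 4 * Real.pi * K ^ 2 * b * |β - (⌊β * J⌋₊ : ℝ) / J| ≤ η / 2 := by
    have h3 : 0 ≤ (K : ℝ) ^ 2 * b := by positivity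
    calc 4 * Real.pi * K ^ 2 * b * |β - (⌊β * J⌋₊ : ℝ) / J|
        ≤ 4 * Real.pi * K ^ 2 * b * (1 / J) :=
          mul_le_mul_of_nonneg_left hd (by positivity)
      _ = (8 * Real.pi) * (K ^ 2 * b) / J / 2 := by ring
      _ ≤ 26 * (K ^ 2 * b) / J / 2 := by
          have h4 : 8 * Real.pi ≤ 26 := by
            have := Real.pi_lt_d2
            linarith
          gcongr
      _ ≤ η / 2 := by
          refine div_le_div_of_nonneg_right ?_ (by norm_num)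
          rw [div_le_iff₀ hJ0]
          linarith
  have h3 : η / 2 ≤ ‖SF P K w ((⌊β * J⌋₊ : ℝ) / J) (x : ℤ)‖ := by
    have h4 := norm_sub_norm_le (SF P K w β (x : ℤ)) (SF P K w ((⌊β * J⌋₊ : ℝ) / J) (x : ℤ))
    linarith
  calc (η / 2) ^ 4 ≤ ‖SF P K w ((⌊β * J⌋₊ : ℝ) / J) (x : ℤ)‖ ^ 4 :=
        pow_le_pow_left₀ (by positivity) h3 4
    _ ≤ _ := single_le_sum (f := fun j : ℕ => ‖SF P K w ((j : ℝ) / J) (x : ℤ)‖ ^ 4)
        (fun _ _ => by positivity) (mem_range.2 hj)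

theorem bad_le : ∃ C : ℝ, 0 < C ∧ ∀ (P K J X : ℕ) (w : ℕ → ℝ) (η b : ℝ), 20 ≤ P → 1 ≤ K → K ≤ J → K ≤ P ^ 2 →
    P ^ 2 ≤ X → K ^ 2 ≤ X → (∀ p, |w p| ≤ 1) → 0 < η → 0 ≤ b → (∀ m, 1 ≤ m → m ≤ 2 * X → |Phi P w m| ≤ b) →
    26 * (K : ℝ) ^ 2 * b ≤ η * J →
      ((badx P K w η X).card : ℝ) * η ^ 4 ≤ C * K ^ 2 * J * (X + (P : ℝ) ^ 4) := by
  classical
  obtain ⟨C, hC, hoff⟩ := off_le
  refine ⟨32 * (200000 + 2 * C), by positivity, ?_⟩
  intro P K J X w η b hP hK hJ hKP hPX hKX hw hη hb hm hbJ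
  have hX1 : 1 ≤ X := (Nat.one_le_pow _ _ (by omega)).trans hPX
  have hX0 : (0 : ℝ) < X := by exact_mod_cast hX1
  have hP0 : (0 : ℝ) < P := by exact_mod_cast (show 0 < P by omega)
  have h1 := diag_le P K J (2 * X) (by omega) hK hJ hKP (by omega)
  have h2 := hoff P K J (2 * X) hP hK hJ (by omega)
  have h3 := Bad_T4 h1 h2 hC
  have h4 := m4_le P K J (2 * X) w hw (by omega) (by omega)
  have h5 : T4 P K J (2 * X) / (P : ℝ) ^ 4 ≤
      (200000 + 2 * C) * (K : ℝ) ^ 2 * J * (X + (P : ℝ) ^ 4) := by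
    rw [div_le_iff₀ (by positivity)]
    refine h3.trans (le_of_eq ?_)
    ring
  have h6 : ((badx P K w η X).card : ℝ) * ((1 / 2) * (η / 2) ^ 4) ≤
      ∑ x ∈ Ioo (-((2 * X : ℕ) : ℤ)) (2 * X : ℕ), (1 - |(x : ℝ)| / (2 * X : ℕ)) *
        ∑ j ∈ range J, ‖SF P K w (j / J) x‖ ^ 4 := by
    rw [← nsmul_eq_mul, ← sum_const]
    have hinj : Set.InjOn (fun x : ℕ => (x : ℤ)) (badx P K w η X : Set ℕ) :=
      fun a _ b _ h => Int.ofNat_injective h
    have h7 : ∑ x ∈ badx P K w η X, ((1 : ℝ) / 2 * (η / 2) ^ 4) ≤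
        ∑ x ∈ (badx P K w η X).image (fun x : ℕ => (x : ℤ)), (1 - |(x : ℝ)| / (2 * X : ℕ)) *
        ∑ j ∈ range J, ‖SF P K w (j / J) x‖ ^ 4 := by
      rw [sum_image hinj]
      refine sum_le_sum fun x hx => ?_
      refine mul_le_mul ?_ (Bad_one hK hJ hη hb hm hbJ hx) (by positivity) ?_
      · have hx1 : (x : ℝ) < X := by exact_mod_cast mem_range.1 (mem_filter.1 hx).1
        have hx2 : |(((x : ℤ)) : ℝ)| / (2 * X : ℕ) ≤ 1 / 2 := by
          rw [div_le_iff₀ (by push_cast; positivity)]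
          push_cast
          rw [Nat.abs_cast]
          linarith
        linarith
      · have hx1 : (x : ℝ) < X := by exact_mod_cast mem_range.1 (mem_filter.1 hx).1
        have hx2 : |(((x : ℤ)) : ℝ)| / (2 * X : ℕ) ≤ 1 / 2 := by
          rw [div_le_iff₀ (by push_cast; positivity)]
          push_cast
          rw [Nat.abs_cast]
          linarith
        linarith
    refine h7.trans (sum_le_sum_of_subset_of_nonneg ?_ ?_)
    · intro y hy
      obtain ⟨x, hx, rfl⟩ := mem_image.1 hy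
      have hx1 := mem_range.1 (mem_filter.1 hx).1
      rw [mem_Ioo]
      constructor
      · have : (0 : ℤ) ≤ (x : ℤ) := Int.natCast_nonneg x
        push_cast
        omega
      · push_cast
        omega
    · intro y hy _
      have hy1 := mem_Ioo.1 hy
      refine mul_nonneg ?_ (sum_nonneg fun _ _ => by positivity)
      have h8 : |(y : ℝ)| ≤ (2 * X : ℕ) := by
        rw [abs_le]
        constructor
        · have := hy1.1.le
          exact_mod_cast this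
        · have := hy1.2.le
          exact_mod_cast this
      have h9 : |(y : ℝ)| / (2 * X : ℕ) ≤ 1 := (div_le_one (by push_cast; positivity)).2 h8
      linarith
  have h8 := h6.trans (h4.trans h5)
  calc ((badx P K w η X).card : ℝ) * η ^ 4
      = 32 * (((badx P K w η X).card : ℝ) * ((1 / 2) * (η / 2) ^ 4)) := by ring
    _ ≤ 32 * ((200000 + 2 * C) * (K : ℝ) ^ 2 * J * (X + (P : ℝ) ^ 4)) :=
        mul_le_mul_of_nonneg_left h8 (by norm_num)
    _ = 32 * (200000 + 2 * C) * K ^ 2 * J * (X + (P : ℝ) ^ 4) := by ring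

end Pool.Agent.H56.TI

end

section

/-!
# TI BlkTri: block sums are averages of triangular sums

For the block `I = [iH, (i+1)H)`, `i ≥ 1`, `K ≤ H`: with `tri(x) = ∑_{m ∈ Ioo (x-K) (x+K)} (1 - |m-x|/K) Phi(m) ee(-mα)` (`‖tri(x)‖ = ‖SF P K w α x‖` by `sf_tri`):
`(1/K) ∑_{x ∈ I} tri(x) = ∑_m Phi(m) ee(-mα) ω(m)`, `ω(m) = (1/K) ∑_{x ∈ I} max(0, 1 - |m-x|/K)`, `= 1` for `iH + K ≤ m < (i+1)H - K` (`∑_{|t|<K}(1 - |t|/K) = K`), in `[0,1]` always, `0` for `m ≤ iH - K` or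
`m ≥ (i+1)H + K`.  So `‖Bs Phi H i α‖ ≤ (1/K) ∑_{x ∈ I} ‖SF P K w α x‖ + 4 K b` (`|Phi| ≤ b`), and `‖SF‖ ≤ K b` always, `≤ η` for `x ∉ badx`:
`‖Bs Phi H i α‖ ≤ H η/K + b #(badx ∩ I) + 4 K b`.
-/

set_option autoImplicit false

namespace Pool.Agent.H56.TI

open Finset
open Pool.Agent.H91.PK (ee)
open Pool.Agent.H35.W (pb)
open Pool.Agent.H53.MID (Bs nz)

private noncomputable def blkTri_F (K : ℕ) (t : ℤ) : ℝ := max 0 (1 - |(t : ℝ)| / K)

private lemma blkTri_sumZ (K : ℕ) : ∑ t ∈ Ioo (-(K : ℤ)) K, ((K : ℝ) - |(t : ℝ)|) = (K : ℝ) ^ 2 := by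
  induction K with
  | zero => simp
  | succ K ih =>
    rcases Nat.eq_zero_or_pos K with rfl | hK
    · have h : Ioo (-((0 + 1 : ℕ) : ℤ)) ((0 + 1 : ℕ) : ℤ) = {0} := by
        ext t
        simp only [mem_Ioo, mem_singleton]
        push_cast
        omega
      rw [h, sum_singleton]
      norm_num
    · have h : Ioo (-((K + 1 : ℕ) : ℤ)) ((K + 1 : ℕ) : ℤ)
          = insert (-(K : ℤ)) (insert (K : ℤ) (Ioo (-(K : ℤ)) K)) := by
        ext t
        simp only [mem_insert, mem_Ioo]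
        push_cast
        omega
      rw [h, sum_insert, sum_insert]
      · have h2 : ∑ t ∈ Ioo (-(K : ℤ)) K, (((K + 1 : ℕ) : ℝ) - |(t : ℝ)|)
            = ∑ t ∈ Ioo (-(K : ℤ)) K, ((K : ℝ) - |(t : ℝ)|) + (2 * K - 1) := by
          have h3 : ∀ t ∈ Ioo (-(K : ℤ)) K, (((K + 1 : ℕ) : ℝ) - |(t : ℝ)|) = ((K : ℝ) - |(t : ℝ)|) + 1 := by
            intro t _
            push_cast
            ring
          rw [sum_congr rfl h3, sum_add_distrib, sum_const, Int.card_Ioo, nsmul_eq_mul, mul_one]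
          congr 1
          have h4 : ((K : ℤ) - -(K : ℤ) - 1).toNat = 2 * K - 1 := by omega
          rw [h4, Nat.cast_sub (by omega)]
          push_cast
          ring
        rw [h2, ih]
        have h5 : |(((-(K : ℤ)) : ℤ) : ℝ)| = K := by
          push_cast
          rw [abs_neg, abs_of_nonneg (Nat.cast_nonneg K)]
        have h6 : |(((K : ℤ)) : ℝ)| = K := by
          push_cast
          rw [abs_of_nonneg (Nat.cast_nonneg K)]
        rw [h5, h6]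
        push_cast
        ring
      · simp
      · simp only [mem_insert, mem_Ioo]
        omega

private lemma blkTri_F_zero {K : ℕ} (hK : 1 ≤ K) {t : ℤ} (ht : t ∉ Ioo (-(K : ℤ)) K) : blkTri_F K t = 0 := by
  have hK0 : (0 : ℝ) < K := by exact_mod_cast hK
  have h1 : (K : ℤ) ≤ |t| := by
    rw [mem_Ioo, not_and_or, not_lt, not_lt] at ht
    rcases ht with h | h
    · exact le_trans (by omega) (neg_le_abs t)
    · exact h.trans (le_abs_self t)
  have h2 : (K : ℝ) ≤ |(t : ℝ)| := by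
    have h3 : ((K : ℤ) : ℝ) ≤ ((|t| : ℤ) : ℝ) := by exact_mod_cast h1
    rw [Int.cast_abs] at h3
    exact_mod_cast h3
  rw [blkTri_F, max_eq_left]
  rw [sub_nonpos, le_div_iff₀ hK0, one_mul]
  exact h2

private lemma blkTri_F_of_mem {K : ℕ} (hK : 1 ≤ K) {t : ℤ} (ht : t ∈ Ioo (-(K : ℤ)) K) :
    blkTri_F K t = 1 - |(t : ℝ)| / K := by
  have hK0 : (0 : ℝ) < K := by exact_mod_cast hK
  rw [mem_Ioo] at ht
  have h1 : |t| < (K : ℤ) := abs_lt.2 ht
  have h2 : |(t : ℝ)| < (K : ℝ) := by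
    have h3 : ((|t| : ℤ) : ℝ) < ((K : ℤ) : ℝ) := by exact_mod_cast h1
    rw [Int.cast_abs] at h3
    exact_mod_cast h3
  rw [blkTri_F, max_eq_right]
  rw [sub_nonneg, div_le_one hK0]
  exact h2.le

private lemma blkTri_F_sum {K : ℕ} (hK : 1 ≤ K) : ∑ t ∈ Ioo (-(K : ℤ)) K, blkTri_F K t = K := by
  have hK0 : (0 : ℝ) < K := by exact_mod_cast hK
  have h1 : ∀ t ∈ Ioo (-(K : ℤ)) K, blkTri_F K t = (1 / (K : ℝ)) * ((K : ℝ) - |(t : ℝ)|) := by
    intro t ht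
    rw [blkTri_F_of_mem hK ht]
    field_simp
  rw [sum_congr rfl h1, ← mul_sum, blkTri_sumZ]
  field_simp

private lemma blkTri_F_nonneg (K : ℕ) (t : ℤ) : 0 ≤ blkTri_F K t := le_max_left _ _

private lemma blkTri_F_neg (K : ℕ) (t : ℤ) : blkTri_F K (-t) = blkTri_F K t := by
  rw [blkTri_F, blkTri_F]
  push_cast
  rw [abs_neg]

private lemma blkTri_sum_le {K : ℕ} (hK : 1 ≤ K) (s : Finset ℕ) (y : ℕ) :
    ∑ x ∈ s, blkTri_F K ((x : ℤ) - y) ≤ K := by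
  classical
  have hinj : ∀ a ∈ s, ∀ b ∈ s, ((a : ℤ) - y) = ((b : ℤ) - y) → a = b := by
    intro a _ b _ h
    omega
  have h1 : ∑ x ∈ s, blkTri_F K ((x : ℤ) - y) = ∑ t ∈ s.image (fun x : ℕ => (x : ℤ) - y), blkTri_F K t :=
    (sum_image hinj).symm
  rw [h1]
  calc ∑ t ∈ s.image (fun x : ℕ => (x : ℤ) - y), blkTri_F K t
      ≤ ∑ t ∈ s.image (fun x : ℕ => (x : ℤ) - y) ∪ Ioo (-(K : ℤ)) K, blkTri_F K t :=
        sum_le_sum_of_subset_of_nonneg subset_union_left fun t _ _ => blkTri_F_nonneg K t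
    _ = ∑ t ∈ Ioo (-(K : ℤ)) K, blkTri_F K t := by
        symm
        apply sum_subset subset_union_right
        intro t _ ht
        exact blkTri_F_zero hK ht
    _ = K := blkTri_F_sum hK

private lemma blkTri_sum_eq {K : ℕ} (hK : 1 ≤ K) (a c y : ℕ) (h1 : a + K ≤ y) (h2 : y + K ≤ c) :
    ∑ x ∈ Ico a c, blkTri_F K ((x : ℤ) - y) = K := by
  classical
  have hinj : ∀ u ∈ Ico a c, ∀ b ∈ Ico a c, ((u : ℤ) - y) = ((b : ℤ) - y) → u = b := by
    intro a _ b _ h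
    omega
  have h3 : ∑ x ∈ Ico a c, blkTri_F K ((x : ℤ) - y)
      = ∑ t ∈ (Ico a c).image (fun x : ℕ => (x : ℤ) - y), blkTri_F K t := (sum_image hinj).symm
  rw [h3, ← blkTri_F_sum hK]
  symm
  apply sum_subset
  · intro t ht
    rw [mem_Ioo] at ht
    rw [mem_image]
    refine ⟨(t + y).toNat, ?_, ?_⟩
    · rw [mem_Ico]
      omega
    · omega
  · intro t _ ht
    exact blkTri_F_zero hK ht

private lemma blkTri_norm_ee (t : ℝ) : ‖ee t‖ = 1 := by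
  rw [ee]
  have h : 2 * (Real.pi : ℂ) * t * Complex.I = ((2 * Real.pi * t : ℝ) : ℂ) * Complex.I := by
    push_cast
    ring
  rw [h, Complex.norm_exp_ofReal_mul_I]

private lemma blkTri_ee_add (s t : ℝ) : ee (s + t) = ee s * ee t := by
  rw [ee, ee, ee, ← Complex.exp_add]
  congr 1
  push_cast
  ring

private lemma blkTri_sf (P K : ℕ) (w : ℕ → ℝ) (α : ℝ) (x M : ℕ) (hK : 1 ≤ K) (hx : K ≤ x) (hM : x + K ≤ M) :
    ee (-(x * α)) * SF P K w α x
      = ∑ m ∈ range M, (blkTri_F K ((m : ℤ) - x) : ℂ) * ((Phi P w m : ℂ) * ee (-(m * α))) := by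
  rw [sf_tri P K w α x hK hx, mul_sum]
  have hsub : Ioo (x - K) (x + K) ⊆ range M := by
    intro m hm
    rw [mem_Ioo] at hm
    rw [mem_range]
    omega
  rw [← sum_subset hsub]
  · refine sum_congr rfl fun m hm => ?_
    rw [mem_Ioo] at hm
    have h1 : ((m : ℤ) - x) ∈ Ioo (-(K : ℤ)) K := by
      rw [mem_Ioo]
      omega
    rw [blkTri_F_of_mem hK h1]
    have h2 : ee (-(m * α)) = ee (-(x * α)) * ee (-(((m : ℝ) - x) * α)) := by
      rw [← blkTri_ee_add]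
      congr 1
      ring
    rw [h2]
    push_cast
    ring
  · intro m _ hm
    have h1 : ((m : ℤ) - x) ∉ Ioo (-(K : ℤ)) K := by
      rw [mem_Ioo] at hm ⊢
      omega
    rw [blkTri_F_zero hK h1]
    simp

open Classical in
theorem blk_tri (P K H i X : ℕ) (w : ℕ → ℝ) (α η b : ℝ) (hK : 1 ≤ K) (hKH : K ≤ H) (hi : 1 ≤ i)
    (hX : (i + 1) * H + K ≤ X) (hη : 0 ≤ η) (hb : 0 ≤ b) (hphi : ∀ m, 1 ≤ m → m ≤ X → |Phi P w m| ≤ b) :
    ‖Bs (Phi P w) H i α‖ ≤ H * η / K + b * ((badx P K w η X).filter (fun x => i * H ≤ x ∧ x < (i + 1) * H)).card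
      + 4 * K * b := by
  have hK0 : (0 : ℝ) < K := by exact_mod_cast hK
  have hiH : H ≤ i * H := Nat.le_mul_of_pos_left H hi
  have hiH2 : (i + 1) * H = i * H + H := by ring
  set A : ℕ := i * H with hA
  set B : ℕ := (i + 1) * H with hB
  set M : ℕ := B + K with hM
  set g : ℕ → ℂ := fun m => (Phi P w m : ℂ) * ee (-(m * α)) with hg
  have hgn : ∀ m, ‖g m‖ = |Phi P w m| := by
    intro m
    rw [hg]
    simp only
    rw [norm_mul, blkTri_norm_ee, mul_one, Complex.norm_real, Real.norm_eq_abs]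
  have hS : ∀ x ∈ Ico A B, ee (-(x * α)) * SF P K w α x
      = ∑ m ∈ range M, (blkTri_F K ((m : ℤ) - x) : ℂ) * g m := by
    intro x hx
    rw [mem_Ico] at hx
    exact blkTri_sf P K w α x M hK (by omega) (by omega)
  -- bound of SF
  have hSF : ∀ x ∈ Ico A B, ‖SF P K w α x‖ ≤ K * b := by
    intro x hx
    have h1 : ‖SF P K w α x‖ = ‖ee (-(x * α)) * SF P K w α x‖ := by
      rw [norm_mul, blkTri_norm_ee, one_mul]
    rw [h1, hS x hx]
    rw [mem_Ico] at hx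
    calc ‖∑ m ∈ range M, (blkTri_F K ((m : ℤ) - x) : ℂ) * g m‖
        ≤ ∑ m ∈ range M, ‖(blkTri_F K ((m : ℤ) - x) : ℂ) * g m‖ := norm_sum_le _ _
      _ ≤ ∑ m ∈ range M, blkTri_F K ((m : ℤ) - x) * b := by
          refine sum_le_sum fun m hm => ?_
          rw [mem_range] at hm
          rw [norm_mul, Complex.norm_real, Real.norm_eq_abs, abs_of_nonneg (blkTri_F_nonneg K _), hgn]
          rcases Nat.eq_zero_or_pos m with rfl | hm0
          · have h0 : (((0 : ℕ) : ℤ) - x) ∉ Ioo (-(K : ℤ)) K := by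
              rw [mem_Ioo]
              omega
            rw [blkTri_F_zero hK h0, zero_mul, zero_mul]
          · exact mul_le_mul_of_nonneg_left (hphi m hm0 (by omega)) (blkTri_F_nonneg K _)
      _ = (∑ m ∈ range M, blkTri_F K ((m : ℤ) - x)) * b := by rw [sum_mul]
      _ ≤ K * b := mul_le_mul_of_nonneg_right (blkTri_sum_le hK _ _) hb
  -- sum of SF
  have hsum : ∑ x ∈ Ico A B, ‖SF P K w α x‖
      ≤ H * η + K * b * ((badx P K w η X).filter (fun x => A ≤ x ∧ x < B)).card := by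
    have h1 : ∀ x ∈ Ico A B, ‖SF P K w α x‖ ≤ η + (if x ∈ badx P K w η X then K * b else 0) := by
      intro x hx
      by_cases hbad : x ∈ badx P K w η X
      · rw [if_pos hbad]
        have := hSF x hx
        linarith
      · rw [if_neg hbad, add_zero]
        rw [mem_Ico] at hx
        by_contra hcon
        push Not at hcon
        apply hbad
        rw [badx, mem_filter, mem_range]
        exact ⟨by omega, by omega, α, hcon⟩
    refine (sum_le_sum h1).trans ?_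
    rw [sum_add_distrib, sum_const, Nat.card_Ico, nsmul_eq_mul]
    have h2 : ((B - A : ℕ) : ℝ) = H := by
      have : B - A = H := by omega
      rw [this]
    rw [h2, ← sum_filter, sum_const, nsmul_eq_mul]
    have h3 : (Ico A B).filter (fun x => x ∈ badx P K w η X) = (badx P K w η X).filter (fun x => A ≤ x ∧ x < B) := by
      ext x
      simp only [mem_filter, mem_Ico]
      tauto
    rw [h3]
    apply le_of_eq
    ring
  -- the difference
  have hBs : Bs (Phi P w) H i α = ∑ m ∈ range M, (if m ∈ Ico A B then (1 : ℂ) else 0) * g m := by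
    rw [Bs]
    have hsub : Ico A B ⊆ range M := by
      intro m hm
      rw [mem_Ico] at hm
      rw [mem_range]
      omega
    rw [← sum_subset hsub (f := fun m => (if m ∈ Ico A B then (1 : ℂ) else 0) * g m)]
    · refine sum_congr rfl fun m hm => ?_
      rw [if_pos hm, one_mul]
    · intro m _ hm
      rw [if_neg hm, zero_mul]
  set W : ℕ → ℝ := fun m => ∑ x ∈ Ico A B, blkTri_F K ((x : ℤ) - m) with hW
  have hW0 : ∀ m, 0 ≤ W m := fun m => sum_nonneg fun x _ => blkTri_F_nonneg K _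
  have hW1 : ∀ m, W m ≤ K := fun m => blkTri_sum_le hK _ m
  have hX1 : ∑ x ∈ Ico A B, ee (-(x * α)) * SF P K w α x = ∑ m ∈ range M, (W m : ℂ) * g m := by
    rw [sum_congr rfl hS, sum_comm]
    refine sum_congr rfl fun m _ => ?_
    rw [hW]
    simp only
    rw [Complex.ofReal_sum, sum_mul]
    refine sum_congr rfl fun x _ => ?_
    rw [← blkTri_F_neg K ((x : ℤ) - m), neg_sub]
  set E : Finset ℕ := Ioo (A - K) (A + K) ∪ Ioo (B - K) (B + K) with hE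
  have hEc : (E.card : ℝ) ≤ 4 * K := by
    have h1 : E.card ≤ 4 * K := by
      refine (card_union_le _ _).trans ?_
      rw [Nat.card_Ioo, Nat.card_Ioo]
      omega
    exact_mod_cast h1
  have hdiff : ‖(K : ℂ) * Bs (Phi P w) H i α - ∑ x ∈ Ico A B, ee (-(x * α)) * SF P K w α x‖ ≤ 4 * K * (K * b) := by
    rw [hBs, hX1, mul_sum, ← sum_sub_distrib]
    have hEsub : E ⊆ range M := by
      intro m hm
      rw [hE, mem_union, mem_Ioo, mem_Ioo] at hm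
      rw [mem_range]
      omega
    rw [← sum_subset hEsub]
    · calc ‖∑ m ∈ E, ((K : ℂ) * ((if m ∈ Ico A B then (1 : ℂ) else 0) * g m) - (W m : ℂ) * g m)‖
          ≤ ∑ m ∈ E, ‖((K : ℂ) * ((if m ∈ Ico A B then (1 : ℂ) else 0) * g m) - (W m : ℂ) * g m)‖ := norm_sum_le _ _
        _ ≤ ∑ m ∈ E, K * b := by
            refine sum_le_sum fun m hm => ?_
            rw [hE, mem_union, mem_Ioo, mem_Ioo] at hm
            have h1 : ((K : ℂ) * ((if m ∈ Ico A B then (1 : ℂ) else 0) * g m) - (W m : ℂ) * g m)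
                = (((K : ℝ) * (if m ∈ Ico A B then (1 : ℝ) else 0) - W m : ℝ) : ℂ) * g m := by
              split_ifs <;> push_cast <;> ring
            rw [h1, norm_mul, hgn, Complex.norm_real, Real.norm_eq_abs]
            have h2 : |(K : ℝ) * (if m ∈ Ico A B then (1 : ℝ) else 0) - W m| ≤ K := by
              have h3 := hW0 m
              have h4 := hW1 m
              rw [abs_le]
              split_ifs <;> constructor <;> linarith
            exact mul_le_mul h2 (hphi m (by omega) (by omega)) (abs_nonneg _) hK0.le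
        _ = E.card * (K * b) := by rw [sum_const, nsmul_eq_mul]
        _ ≤ 4 * K * (K * b) := mul_le_mul_of_nonneg_right hEc (by positivity)
    · intro m hm hmE
      rw [hE, mem_union, mem_Ioo, mem_Ioo] at hmE
      rw [mem_range] at hm
      by_cases hmI : m ∈ Ico A B
      · rw [if_pos hmI]
        rw [mem_Ico] at hmI
        have h1 : W m = K := blkTri_sum_eq hK A B m (by omega) (by omega)
        rw [h1]
        push_cast
        ring
      · rw [if_neg hmI]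
        rw [mem_Ico] at hmI
        have h1 : W m = 0 := by
          apply sum_eq_zero
          intro x hx
          rw [mem_Ico] at hx
          apply blkTri_F_zero hK
          rw [mem_Ioo]
          omega
        rw [h1]
        push_cast
        ring
  -- conclusion
  have hfin : (K : ℝ) * ‖Bs (Phi P w) H i α‖
      ≤ H * η + K * b * ((badx P K w η X).filter (fun x => A ≤ x ∧ x < B)).card + 4 * K * (K * b) := by
    have h1 : (K : ℝ) * ‖Bs (Phi P w) H i α‖ = ‖(K : ℂ) * Bs (Phi P w) H i α‖ := by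
      rw [norm_mul, Complex.norm_natCast]
    rw [h1]
    have h2 : ‖(K : ℂ) * Bs (Phi P w) H i α‖
        ≤ ‖(K : ℂ) * Bs (Phi P w) H i α - ∑ x ∈ Ico A B, ee (-(x * α)) * SF P K w α x‖
          + ‖∑ x ∈ Ico A B, ee (-(x * α)) * SF P K w α x‖ := by
      have := norm_add_le ((K : ℂ) * Bs (Phi P w) H i α - ∑ x ∈ Ico A B, ee (-(x * α)) * SF P K w α x)
        (∑ x ∈ Ico A B, ee (-(x * α)) * SF P K w α x)
      rwa [sub_add_cancel] at this
    have h3 : ‖∑ x ∈ Ico A B, ee (-(x * α)) * SF P K w α x‖ ≤ ∑ x ∈ Ico A B, ‖SF P K w α x‖ := by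
      refine (norm_sum_le _ _).trans (le_of_eq ?_)
      refine sum_congr rfl fun x _ => ?_
      rw [norm_mul, blkTri_norm_ee, one_mul]
    linarith
  have h9 : ‖Bs (Phi P w) H i α‖
      ≤ (H * η + K * b * ((badx P K w η X).filter (fun x => A ≤ x ∧ x < B)).card + 4 * K * (K * b)) / K := by
    rw [le_div_iff₀ hK0]
    linarith
  refine h9.trans (le_of_eq ?_)
  field_simp

end Pool.Agent.H56.TI

end

section

/-!
# TI Blk: the theorem for blocks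

Let `δ1 = min(e0, e, 1)/40`, `δ = δ1/2`.  `K = ⌊H N^(-2δ1)⌋`, `J = ⌈K N^(2δ1)⌉`, `η = K N^(-δ1)`, `X = 20N`, `b = k + 1` (`phi_abs`, `P ≥ N^(e0/2)`, `40N < P^(k+1)`, `k = ⌈4/e0⌉`): `26 K² b ≤ η J` for large `N`.
`bad_le`: `#badx ≤ C K² J (20N + P⁴)/(K⁴ N^(-4δ1)) ≤ 4 C N^(8δ1) (20N + P⁴)/H ≤ N^(1-8δ1)` (`P⁴ ≤ N^(1-e) H`, `H ≥ N^e0`; `P² ≤ N`).  The blocks with `#(badx ∩ I) > H N^(-4δ1)`: at most `N^(1-4δ1)/H` (the blocks are disjoint).
On the others `blk_tri` (`(i+1)H + K ≤ 20N`): `‖Bs‖ ≤ H N^(-δ1) + b H N^(-4δ1) + 4 b H N^(-2δ1) ≤ H N^(-δ)`.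
-/

set_option autoImplicit false

namespace Pool.Agent.H56.TI

open Finset
open Pool.Agent.H91.PK (ee)
open Pool.Agent.H35.W (pb)
open Pool.Agent.H53.MID (Bs nz)

open Classical in
/-- the bad blocks of `Phi` -/
noncomputable def badT (P : ℕ) (w : ℕ → ℝ) (N H : ℕ) (δ : ℝ) : Finset ℕ :=
  (Icc 1 (16 * N / H)).filter (fun i => ∃ α : ℝ, (H : ℝ) * (N : ℝ) ^ (-δ) < ‖Bs (Phi P w) H i α‖)

/-- the sum over disjoint blocks -/
private theorem Blk_disj (B G : Finset ℕ) (H : ℕ) (T : ℝ)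
    (hG : ∀ i ∈ G, T ≤ ((B.filter (fun x => i * H ≤ x ∧ x < (i + 1) * H)).card : ℝ)) :
    (G.card : ℝ) * T ≤ B.card := by
  have h1 : (G.card : ℝ) * T ≤
      ∑ i ∈ G, ((B.filter (fun x => i * H ≤ x ∧ x < (i + 1) * H)).card : ℝ) := by
    rw [← nsmul_eq_mul]
    exact card_nsmul_le_sum _ _ _ hG
  refine h1.trans ?_
  rw [← Nat.cast_sum, ← card_biUnion]
  · exact_mod_cast card_le_card (biUnion_subset.2 fun i _ => filter_subset _ _)
  · intro i _ j _ hij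
    rw [Function.onFun, Finset.disjoint_left]
    intro x hx hx'
    rw [mem_filter] at hx hx'
    rcases lt_or_gt_of_ne hij with h | h
    · have h2 : (i + 1) * H ≤ j * H := Nat.mul_le_mul_right _ h
      omega
    · have h2 : (j + 1) * H ≤ i * H := Nat.mul_le_mul_right _ h
      omega

/-- the arithmetic of the number of the bad centres -/
private theorem Blk_num1 {Bx K J S H C y η : ℝ} (hK : 1 ≤ K) (hS : 0 ≤ S) (hC : 0 < C)
    (hy : 1 ≤ y) (hBx : 0 ≤ Bx) (hη : η = K / y ^ 2) (hJ : J ≤ 2 * K * y ^ 4)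
    (hH : H ≤ 2 * y ^ 4 * K) (h : Bx * η ^ 4 ≤ C * K ^ 2 * J * S) :
    Bx * H ≤ 4 * C * S * y ^ 16 := by
  have hK0 : 0 < K := by linarith
  have hy0 : 0 < y := by linarith
  have h1 : Bx * K ^ 4 ≤ C * K ^ 2 * J * S * y ^ 8 := by
    have e : Bx * K ^ 4 = Bx * η ^ 4 * y ^ 8 := by
      rw [hη]
      field_simp
    rw [e]
    exact mul_le_mul_of_nonneg_right h (by positivity)
  have h2 : C * K ^ 2 * J * S * y ^ 8 ≤ C * K ^ 2 * (2 * K * y ^ 4) * S * y ^ 8 := by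
    gcongr
  have h3 : Bx * K * K ^ 3 ≤ 2 * C * S * y ^ 12 * K ^ 3 := by
    calc Bx * K * K ^ 3 = Bx * K ^ 4 := by ring
      _ ≤ C * K ^ 2 * (2 * K * y ^ 4) * S * y ^ 8 := h1.trans h2
      _ = 2 * C * S * y ^ 12 * K ^ 3 := by ring
  have h4 : Bx * K ≤ 2 * C * S * y ^ 12 := le_of_mul_le_mul_right h3 (by positivity)
  calc Bx * H ≤ Bx * (2 * y ^ 4 * K) := mul_le_mul_of_nonneg_left hH hBx
    _ = 2 * y ^ 4 * (Bx * K) := by ring
    _ ≤ 2 * y ^ 4 * (2 * C * S * y ^ 12) := mul_le_mul_of_nonneg_left h4 (by positivity)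
    _ = 4 * C * S * y ^ 16 := by ring

/-- the arithmetic of the number of the bad blocks -/
private theorem Blk_num2 {Bt Bx n P4 ne H C y : ℝ} (hC : 0 < C) (hyC : 84 * C ≤ y) (hy : 1 ≤ y)
    (hn : 0 ≤ n) (hBt : 0 ≤ Bt) (hH : y ^ 80 ≤ H) (hne : y ^ 80 ≤ ne) (hP0 : 0 ≤ P4)
    (hP : P4 * ne ≤ n * H) (h1 : Bx * H ≤ 4 * C * (20 * n + P4) * y ^ 16)
    (h2 : Bt * (H / y ^ 8) ≤ Bx) : Bt ≤ n / y / H := by
  have hy0 : 0 < y := by linarith
  have hH0 : 0 < H := lt_of_lt_of_le (by positivity) hH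
  have h3 : (20 * n + P4) * y ^ 80 ≤ 21 * n * H := by
    have h4 : P4 * y ^ 80 ≤ n * H := (mul_le_mul_of_nonneg_left hne hP0).trans hP
    have h5 : n * y ^ 80 ≤ n * H := mul_le_mul_of_nonneg_left hH hn
    linarith [h4, h5]
  have h6 : Bt * H * H ≤ Bx * H * y ^ 8 := by
    have h7 : Bt * (H / y ^ 8) * (H * y ^ 8) ≤ Bx * (H * y ^ 8) :=
      mul_le_mul_of_nonneg_right h2 (by positivity)
    have e : Bt * (H / y ^ 8) * (H * y ^ 8) = Bt * H * H := by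
      field_simp
    rw [e] at h7
    linarith [h7]
  have h8 : Bt * H * H ≤ 4 * C * (20 * n + P4) * y ^ 24 := by
    calc Bt * H * H ≤ Bx * H * y ^ 8 := h6
      _ ≤ 4 * C * (20 * n + P4) * y ^ 16 * y ^ 8 := mul_le_mul_of_nonneg_right h1 (by positivity)
      _ = 4 * C * (20 * n + P4) * y ^ 24 := by ring
  have h9 : Bt * H * y ^ 56 * (H * y ^ 24) ≤ 84 * C * n * (H * y ^ 24) := by
    calc Bt * H * y ^ 56 * (H * y ^ 24) = Bt * H * H * y ^ 80 := by ring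
      _ ≤ 4 * C * (20 * n + P4) * y ^ 24 * y ^ 80 := mul_le_mul_of_nonneg_right h8 (by positivity)
      _ = 4 * C * y ^ 24 * ((20 * n + P4) * y ^ 80) := by ring
      _ ≤ 4 * C * y ^ 24 * (21 * n * H) := mul_le_mul_of_nonneg_left h3 (by positivity)
      _ = 84 * C * n * (H * y ^ 24) := by ring
  have h10 : Bt * H * y ^ 56 ≤ 84 * C * n := le_of_mul_le_mul_right h9 (by positivity)
  have h11 : 84 * C ≤ y ^ 55 := hyC.trans (le_self_pow₀ hy (by norm_num))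
  have h12 : 84 * C * (Bt * H * y) ≤ 84 * C * n := by
    calc 84 * C * (Bt * H * y) ≤ y ^ 55 * (Bt * H * y) :=
          mul_le_mul_of_nonneg_right h11 (by positivity)
      _ = Bt * H * y ^ 56 := by ring
      _ ≤ 84 * C * n := h10
  have h13 : Bt * H * y ≤ n := le_of_mul_le_mul_left h12 (by positivity)
  rw [le_div_iff₀ hH0, le_div_iff₀ hy0]
  exact h13

/-- the arithmetic of a good block -/
private theorem Blk_num3 {H y b cnt K η : ℝ} (hy : 1 ≤ y) (hyb : 1 + 5 * b ≤ y) (hb : 0 ≤ b)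
    (hH : 0 ≤ H) (hK0 : 0 < K) (hη : η = K / y ^ 2) (hcnt : cnt ≤ H / y ^ 8)
    (hK : K ≤ H / y ^ 4) : H * η / K + b * cnt + 4 * K * b ≤ H * y⁻¹ := by
  have hy0 : 0 < y := by linarith
  have e1 : H * η / K = H / y ^ 2 := by
    rw [hη]
    field_simp
  have h1 : H / y ^ 8 ≤ H / y ^ 2 :=
    div_le_div_of_nonneg_left hH (by positivity) (pow_le_pow_right₀ hy (by norm_num))
  have h2 : H / y ^ 4 ≤ H / y ^ 2 :=
    div_le_div_of_nonneg_left hH (by positivity) (pow_le_pow_right₀ hy (by norm_num))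
  have h3 : b * cnt ≤ b * (H / y ^ 2) := mul_le_mul_of_nonneg_left (hcnt.trans h1) hb
  have h4 : 4 * K * b ≤ 4 * b * (H / y ^ 2) := by
    have : K * b ≤ H / y ^ 2 * b := mul_le_mul_of_nonneg_right (hK.trans h2) hb
    linarith
  rw [e1]
  calc H / y ^ 2 + b * cnt + 4 * K * b ≤ H / y ^ 2 + b * (H / y ^ 2) + 4 * b * (H / y ^ 2) := by
        linarith
    _ = (1 + 5 * b) * (H / y ^ 2) := by ring
    _ ≤ y * (H / y ^ 2) := mul_le_mul_of_nonneg_right hyb (by positivity)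
    _ = H * y⁻¹ := by
        field_simp

/-- MAIN THEOREM: local Fourier uniformity of type I sums beyond `H` -/
theorem ti_lfu (e0 e : ℝ) (he0 : 0 < e0) (he : 0 < e) : ∃ δ : ℝ, 0 < δ ∧ ∃ N0 : ℕ, ∀ N : ℕ, N0 ≤ N →
    ∀ (H P : ℕ) (w : ℕ → ℝ), (N : ℝ) ^ e0 ≤ H → H ^ 2 ≤ N → H ≤ P ^ 2 → (P : ℝ) ^ 4 * (N : ℝ) ^ e ≤ N * H →
      (∀ p, |w p| ≤ 1) → ((badT P w N H δ).card : ℝ) ≤ (N : ℝ) ^ (1 - δ) / H := by
  classical
  obtain ⟨C, hC, hbad⟩ := bad_le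
  obtain ⟨k, hk⟩ : ∃ k : ℕ, k = ⌈4 / e0⌉₊ := ⟨_, rfl⟩
  have hk4 : 4 ≤ e0 * ((k : ℝ) + 1) := by
    have h1 : 4 / e0 ≤ k := by
      rw [hk]
      exact Nat.le_ceil _
    rw [div_le_iff₀ he0] at h1
    rw [mul_add, mul_one, mul_comm e0]
    linarith
  obtain ⟨b, hb⟩ : ∃ b : ℝ, b = (k : ℝ) + 1 := ⟨_, rfl⟩
  have hb0 : 0 ≤ b := by
    rw [hb]
    positivity
  obtain ⟨δ, hδ⟩ : ∃ δ : ℝ, δ = min (min e0 e) 1 / 80 := ⟨_, rfl⟩
  have hm0 : 0 < min (min e0 e) 1 := lt_min (lt_min he0 he) one_pos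
  have hδ0 : 0 < δ := by
    rw [hδ]
    positivity
  have hδe0 : δ * 80 ≤ e0 := by
    have h1 : min (min e0 e) 1 ≤ e0 := (min_le_left _ _).trans (min_le_left _ _)
    rw [hδ]
    linarith
  have hδe : δ * 80 ≤ e := by
    have h1 : min (min e0 e) 1 ≤ e := (min_le_left _ _).trans (min_le_right _ _)
    rw [hδ]
    linarith
  obtain ⟨N0, hN0⟩ : ∃ N0 : ℕ, ∀ N : ℕ, N0 ≤ N → 31 * b + 84 * C + 50 ≤ (N : ℝ) ^ δ := by
    have h1 := (tendsto_rpow_atTop hδ0).comp (tendsto_natCast_atTop_atTop (R := ℝ))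
    obtain ⟨N0, h2⟩ := Filter.eventually_atTop.1
      (h1.eventually_ge_atTop (31 * b + 84 * C + 50))
    exact ⟨N0, fun N hN => h2 N hN⟩
  refine ⟨δ, hδ0, max N0 50, fun N hN H P w hH hH2 hHP hP4 hw => ?_⟩
  have hNN0 : N0 ≤ N := (le_max_left _ _).trans hN
  have hN50 : 50 ≤ N := (le_max_right _ _).trans hN
  have hn50 : (50 : ℝ) ≤ N := by exact_mod_cast hN50
  have hn1 : (1 : ℝ) ≤ N := by linarith
  have hn0 : (0 : ℝ) < N := by linarith
  obtain ⟨y, hy⟩ : ∃ y : ℝ, y = (N : ℝ) ^ δ := ⟨_, rfl⟩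
  have hyA : 31 * b + 84 * C + 50 ≤ y := by
    rw [hy]
    exact hN0 N hNN0
  have hy50 : 50 ≤ y := by linarith
  have hy1 : 1 ≤ y := by linarith
  have hy0 : 0 < y := by linarith
  have hy80 : y ^ 80 = (N : ℝ) ^ (δ * 80) := by
    rw [hy, Real.rpow_mul hn0.le]
    exact_mod_cast (Real.rpow_natCast ((N : ℝ) ^ δ) 80).symm
  have hyH : y ^ 80 ≤ H := by
    rw [hy80]
    exact (Real.rpow_le_rpow_of_exponent_le hn1 hδe0).trans hH
  have hye : y ^ 80 ≤ (N : ℝ) ^ e := by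
    rw [hy80]
    exact Real.rpow_le_rpow_of_exponent_le hn1 hδe
  have hyneg : (N : ℝ) ^ (-δ) = y⁻¹ := by
    rw [hy]
    exact Real.rpow_neg hn0.le δ
  have hy1d : (N : ℝ) ^ (1 - δ) = N / y := by
    rw [hy, Real.rpow_sub hn0, Real.rpow_one]
  have hH50 : (50 : ℝ) ≤ y ^ 80 := hy50.trans (le_self_pow₀ hy1 (by norm_num))
  have hH400 : (400 : ℝ) ≤ H := by
    have h1 : y ^ 2 ≤ y ^ 80 := pow_le_pow_right₀ hy1 (by norm_num)
    have h2 : (50 : ℝ) ^ 2 ≤ y ^ 2 := pow_le_pow_left₀ (by norm_num) hy50 2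
    have h3 : (400 : ℝ) ≤ 50 ^ 2 := by norm_num
    exact h3.trans (h2.trans (h1.trans hyH))
  have hH400' : 400 ≤ H := by exact_mod_cast hH400
  have hH0 : (0 : ℝ) < H := by linarith
  have hHN : H ≤ N := (Nat.le_self_pow two_ne_zero H).trans hH2
  have hHn : (H : ℝ) ≤ N := by exact_mod_cast hHN
  -- the primes
  have hP20 : 20 ≤ P := by
    by_contra h1
    push Not at h1
    have h2 : P ^ 2 ≤ 19 ^ 2 := Nat.pow_le_pow_left (by omega) 2
    omega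
  have hPN : P ^ 2 ≤ N := by
    have h1 : (P : ℝ) ^ 4 ≤ N * H := by
      have h2 : (P : ℝ) ^ 4 * 1 ≤ (P : ℝ) ^ 4 * (N : ℝ) ^ e :=
        mul_le_mul_of_nonneg_left (Real.one_le_rpow hn1 he.le) (by positivity)
      linarith
    have h2 : (P : ℝ) ^ 4 ≤ (N : ℝ) ^ 2 := by
      rw [pow_two]
      exact h1.trans (mul_le_mul_of_nonneg_left hHn hn0.le)
    have h3 : (P ^ 2) ^ 2 ≤ N ^ 2 := by
      have h4 : ((P : ℝ) ^ 2) ^ 2 ≤ (N : ℝ) ^ 2 := by
        rw [← pow_mul]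
        exact h2
      exact_mod_cast h4
    exact (Nat.pow_le_pow_iff_left (by norm_num)).1 h3
  have hPk : 40 * N < P ^ (k + 1) := by
    have h1 : (N : ℝ) ^ 4 ≤ ((P : ℝ) ^ (k + 1)) ^ 2 := by
      have h2 : (N : ℝ) ^ e0 ≤ (P : ℝ) ^ 2 := hH.trans (by exact_mod_cast hHP)
      have h3 : ((N : ℝ) ^ e0) ^ (k + 1) ≤ ((P : ℝ) ^ 2) ^ (k + 1) :=
        pow_le_pow_left₀ (by positivity) h2 _
      have h4 : ((N : ℝ) ^ e0) ^ (k + 1) = (N : ℝ) ^ (e0 * ((k : ℝ) + 1)) := by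
        rw [Real.rpow_mul hn0.le]
        exact_mod_cast (Real.rpow_natCast ((N : ℝ) ^ e0) (k + 1)).symm
      have h5 : (N : ℝ) ^ (4 : ℝ) ≤ (N : ℝ) ^ (e0 * ((k : ℝ) + 1)) :=
        Real.rpow_le_rpow_of_exponent_le hn1 hk4
      have h6 : (N : ℝ) ^ (4 : ℝ) = (N : ℝ) ^ 4 := by
        exact_mod_cast Real.rpow_natCast (N : ℝ) 4
      rw [← h6]
      refine h5.trans ?_
      rw [← h4]
      refine h3.trans (le_of_eq ?_)
      rw [← pow_mul, ← pow_mul, mul_comm]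
    have h2 : (N ^ 2) ^ 2 ≤ (P ^ (k + 1)) ^ 2 := by
      have h3 : ((N : ℝ) ^ 2) ^ 2 ≤ ((P : ℝ) ^ (k + 1)) ^ 2 := by
        rw [← pow_mul]
        exact h1
      exact_mod_cast h3
    have h3 : N ^ 2 ≤ P ^ (k + 1) := (Nat.pow_le_pow_iff_left (by norm_num)).1 h2
    refine lt_of_lt_of_le ?_ h3
    rw [pow_two]
    exact Nat.mul_lt_mul_of_pos_right (by omega) (by omega)
  have hphi : ∀ m, 1 ≤ m → m ≤ 2 * (20 * N) → |Phi P w m| ≤ b := by
    intro m hm hm'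
    rw [hb]
    exact phi_abs P k m w hw (by omega) hm (by omega)
  -- the parameters
  obtain ⟨K, hKd⟩ : ∃ K : ℕ, K = ⌊(H : ℝ) / y ^ 4⌋₊ := ⟨_, rfl⟩
  have hy4 : 0 < y ^ 4 := by positivity
  have hy41 : 1 ≤ y ^ 4 := one_le_pow₀ hy1
  have hHy : 1 ≤ (H : ℝ) / y ^ 4 := by
    rw [le_div_iff₀ hy4, one_mul]
    exact (pow_le_pow_right₀ hy1 (by norm_num)).trans hyH
  have hKle : (K : ℝ) ≤ H / y ^ 4 := by
    rw [hKd]
    exact Nat.floor_le (by positivity)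
  have hK1 : 1 ≤ K := by
    rw [hKd]
    exact Nat.le_floor (by exact_mod_cast hHy)
  have hK1' : (1 : ℝ) ≤ K := by exact_mod_cast hK1
  have hK0 : (0 : ℝ) < K := by linarith
  have hKge : (H : ℝ) ≤ 2 * y ^ 4 * K := by
    have h1 : (H : ℝ) / y ^ 4 < K + 1 := by
      rw [hKd]
      exact Nat.lt_floor_add_one _
    rw [div_lt_iff₀ hy4] at h1
    have h2 : ((K : ℝ) + 1) * y ^ 4 ≤ (2 * K) * y ^ 4 :=
      mul_le_mul_of_nonneg_right (by linarith) hy4.le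
    linarith
  have hKH' : (K : ℝ) ≤ H := hKle.trans (div_le_self hH0.le hy41)
  have hKH : K ≤ H := by exact_mod_cast hKH'
  obtain ⟨J, hJd⟩ : ∃ J : ℕ, J = ⌈(K : ℝ) * y ^ 4⌉₊ := ⟨_, rfl⟩
  have hJge : (K : ℝ) * y ^ 4 ≤ J := by
    rw [hJd]
    exact Nat.le_ceil _
  have hJle : (J : ℝ) ≤ 2 * K * y ^ 4 := by
    have h1 : (J : ℝ) < K * y ^ 4 + 1 := by
      rw [hJd]
      exact Nat.ceil_lt_add_one (by positivity)
    have h2 : 1 ≤ (K : ℝ) * y ^ 4 := one_le_mul_of_one_le_of_one_le hK1' hy41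
    linarith
  have hKJ : K ≤ J := by
    have h1 : (K : ℝ) ≤ K * y ^ 4 := le_mul_of_one_le_right hK0.le hy41
    exact_mod_cast h1.trans hJge
  obtain ⟨η, hη⟩ : ∃ η : ℝ, η = K / y ^ 2 := ⟨_, rfl⟩
  have hη0 : 0 < η := by
    rw [hη]
    positivity
  have h26 : 26 * (K : ℝ) ^ 2 * b ≤ η * J := by
    have h1 : η * (K * y ^ 4) ≤ η * J := mul_le_mul_of_nonneg_left hJge hη0.le
    have h2 : η * (K * y ^ 4) = (K : ℝ) ^ 2 * y ^ 2 := by
      rw [hη]
      field_simp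
    have h3 : 26 * b ≤ y ^ 2 := by
      have h4 : 26 * b ≤ y := by linarith
      exact h4.trans (le_self_pow₀ hy1 two_ne_zero)
    calc 26 * (K : ℝ) ^ 2 * b = (K : ℝ) ^ 2 * (26 * b) := by ring
      _ ≤ (K : ℝ) ^ 2 * y ^ 2 := mul_le_mul_of_nonneg_left h3 (by positivity)
      _ = η * (K * y ^ 4) := h2.symm
      _ ≤ η * J := h1
  -- the bad centres
  have hbx := hbad P K J (20 * N) w η b hP20 hK1 hKJ (hKH.trans hHP) (by omega)
    ((Nat.pow_le_pow_left hKH 2).trans (by omega)) hw hη0 hb0 hphi h26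
  push_cast at hbx
  have hnum1 : ((badx P K w η (20 * N)).card : ℝ) * H ≤
      4 * C * (20 * N + (P : ℝ) ^ 4) * y ^ 16 :=
    Blk_num1 hK1' (by positivity) hC hy1 (Nat.cast_nonneg _) hη hJle hKge hbx
  -- the bad blocks
  have hcount : ((badT P w N H δ).card : ℝ) * (H / y ^ 8) ≤
      ((badx P K w η (20 * N)).card : ℝ) := by
    refine Blk_disj _ _ H _ fun i hi => ?_
    unfold badT at hi
    rw [mem_filter, mem_Icc] at hi
    obtain ⟨⟨hi1, hi2⟩, α, hα⟩ := hi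
    by_contra hcon
    push Not at hcon
    have hiH : i * H ≤ 16 * N := (Nat.mul_le_mul_right _ hi2).trans (Nat.div_mul_le_self _ _)
    have h1 := blk_tri P K H i (20 * N) w α η b hK1 hKH hi1 (by rw [add_mul]; omega) hη0.le hb0
      (fun m hm hm' => hphi m hm (by omega))
    have h2 := Blk_num3 (b := b) hy1 (by linarith) hb0 hH0.le hK0 hη hcon.le hKle
    rw [hyneg] at hα
    linarith
  rw [hy1d]
  exact Blk_num2 hC (by linarith) hy1 hn0.le (Nat.cast_nonneg _) hyH hye (by positivity) hP4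
    hnum1 hcount

end Pool.Agent.H56.TI

end
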