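import Pool.Agent.H43.PJ.M58
import Pool.Agent.H43.PJ.M78

/-! The parts of this file: H56.TI2.Cnt, H56.TI2.Off, H56.TI2.Bad. -/

section

/-!
# TI2 Cnt: the number of dual points, summed over the quadruples of primes

`A = max(1, ⌊1/(8ρ)⌋) ≥ 1/(16ρ)`, `B = max(1, ⌊1/(8G)⌋) ≥ 1/(16G)`; `2B ≤ P`, `A < P⁴`, `A + 2B ≤ P^(k+1)`, `1/(AB²) ≤ 4096 ρG²`, `#Du ≤ 1024 P⁴/(AB²) #Lam`.
Coincident primes: `≤ 1024 P⁴/(AB²) (6P³ + 24 k⁴ AB) ≤ C P⁴ s² + C k⁴ P⁴ G`.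
Distinct primes, `s ≥ 2^(-14)`: `≤ 1024 P⁴/(AB²) (P⁴ + 8k⁴AB²) ≤ C k⁴ P⁴ (s² + s)`.
`s < 2^(-14)`: `8Aρ ≤ 1`, `8BG ≤ 1`, `m = ⌊1/(4096 s)⌋ ≥ 4`; if `Du` is not empty, `#Lam ≥ AB²/(1024P⁴) ≥ 1/(2^22 s²) ≥ 4m²`, so `#Du ≤ 1024P⁴/(AB²) · 2m² #LamS`: `≤ 1024P⁴/(AB²) 2m² 1728 k⁴ AB²/m³ ≤ C k⁴ P⁴/m ≤ C k⁴ P⁴ s`.
-/

set_option autoImplicit false

namespace Pool.Agent.H56.TI2

open Finset
open Pool.Agent.H56.TI
open Pool.Agent.H35.W (pb)
open Pool.Agent.H53.MID (nz)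

private theorem Cnt_fl (t : ℝ) (ht : 0 < t) : ∃ A : ℕ, 1 ≤ A ∧ 1 ≤ 16 * (A : ℝ) * t ∧
    (A = 1 ∨ 8 * (A : ℝ) * t ≤ 1) ∧ (8 * t ≤ 1 → 8 * (A : ℝ) * t ≤ 1) := by
  by_cases h : 8 * t ≤ 1
  · have hx : 1 ≤ 1 / (8 * t) := by
      rw [le_div_iff₀ (by positivity)]
      linarith
    have h1 : 1 ≤ ⌊1 / (8 * t)⌋₊ := Nat.le_floor (by exact_mod_cast hx)
    have h2 : (⌊1 / (8 * t)⌋₊ : ℝ) ≤ 1 / (8 * t) := Nat.floor_le (by positivity)
    have h3 : 1 / (8 * t) < ⌊1 / (8 * t)⌋₊ + 1 := Nat.lt_floor_add_one _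
    have h1' : (1 : ℝ) ≤ ⌊1 / (8 * t)⌋₊ := by exact_mod_cast h1
    have h4 : 8 * (⌊1 / (8 * t)⌋₊ : ℝ) * t ≤ 1 := by
      rw [le_div_iff₀ (by positivity)] at h2
      linarith only [h2]
    refine ⟨⌊1 / (8 * t)⌋₊, h1, ?_, Or.inr h4, fun _ => h4⟩
    have h5 : 1 / (8 * t) ≤ 2 * ⌊1 / (8 * t)⌋₊ := by linarith only [h3, h1']
    rw [div_le_iff₀ (by positivity)] at h5
    linarith only [h5]
  · push Not at h
    refine ⟨1, le_refl _, ?_, Or.inl rfl, fun h' => by linarith⟩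
    push_cast
    linarith

private theorem Cnt_pb4 (P : ℕ) (p : (ℕ × ℕ) × (ℕ × ℕ)) (hp : p ∈ QP P) :
    (1 ≤ p.1.1 ∧ 1 ≤ p.1.2 ∧ 1 ≤ p.2.1 ∧ 1 ≤ p.2.2) ∧
      ((p.1.1 : ℝ) * p.1.2 * p.2.1 * p.2.2) ≤ 16 * P ^ 4 := by
  simp only [QP, pb, mem_product, mem_filter, mem_Ioc] at hp
  obtain ⟨⟨⟨⟨a1, a2⟩, a3⟩, ⟨b1, b2⟩, b3⟩, ⟨⟨c1, c2⟩, c3⟩, ⟨d1, d2⟩, d3⟩ := hp
  refine ⟨⟨by omega, by omega, by omega, by omega⟩, ?_⟩
  have a2' : (p.1.1 : ℝ) ≤ 2 * P := by exact_mod_cast a2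
  have b2' : (p.1.2 : ℝ) ≤ 2 * P := by exact_mod_cast b2
  have c2' : (p.2.1 : ℝ) ≤ 2 * P := by exact_mod_cast c2
  have d2' : (p.2.2 : ℝ) ≤ 2 * P := by exact_mod_cast d2
  calc (p.1.1 : ℝ) * p.1.2 * p.2.1 * p.2.2 ≤ (2 * P) * (2 * P) * (2 * P) * (2 * P) := by
        gcongr
    _ = 16 * P ^ 4 := by ring

theorem cnt2 : ∃ C : ℝ, 0 < C ∧ ∀ (P k : ℕ) (G ρ s : ℝ), 20 ≤ P → 1 ≤ k → 0 < ρ → ρ ≤ 1 → 0 < G → G ≤ 1 →
    1 ≤ 4 * P * G → 1 ≤ ρ * P ^ 4 → 1 ≤ ρ * P ^ (k + 1) → 0 ≤ s → P ^ 4 * ρ * G ^ 2 ≤ s ^ 2 →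
    ∑ p ∈ QP P, ((Du G ρ p).card : ℝ) ≤ C * k ^ 4 * P ^ 4 * (s + s ^ 2 + G) := by
  classical
  refine ⟨2 ^ 40, by positivity, ?_⟩
  intro P k G ρ s hP hk hρ hρ1 hG hG1 hPG hρP hρk hs hsq
  obtain ⟨A, hA1, hA2, hA3, hA4⟩ := Cnt_fl ρ hρ
  obtain ⟨B, hB1, hB2, hB3, hB4⟩ := Cnt_fl G hG
  have hP' : (20 : ℝ) ≤ P := by exact_mod_cast hP
  have hk' : (1 : ℝ) ≤ k := by exact_mod_cast hk
  have hk4 : (1 : ℝ) ≤ (k : ℝ) ^ 4 := one_le_pow₀ hk'
  have hA1' : (1 : ℝ) ≤ A := by exact_mod_cast hA1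
  have hB1' : (1 : ℝ) ≤ B := by exact_mod_cast hB1
  have hPk : (20 : ℝ) * P ≤ P ^ (k + 1) := by
    have h1 : (P : ℝ) ^ 2 ≤ P ^ (k + 1) := pow_le_pow_right₀ (by linarith only [hP']) (by omega)
    nlinarith only [h1, hP']
  have h2B' : 2 * (B : ℝ) ≤ P := by
    rcases hB3 with h | h
    · rw [h]
      push_cast
      linarith
    · have h1 : 8 * (B : ℝ) * G ≤ 4 * P * G := h.trans hPG
      have h2 : 8 * (B : ℝ) ≤ 4 * P := le_of_mul_le_mul_right h1 hG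
      linarith
  have h2B : 2 * B ≤ P := by exact_mod_cast h2B'
  have hAk' : (A : ℝ) + 2 * B ≤ P ^ (k + 1) := by
    rcases hA3 with h | h
    · rw [h]
      push_cast
      linarith
    · have h1 : 8 * (A : ℝ) * ρ ≤ P ^ (k + 1) * ρ := by linarith
      have h2 : 8 * (A : ℝ) ≤ P ^ (k + 1) := le_of_mul_le_mul_right h1 hρ
      linarith
  have hAk : A + 2 * B ≤ P ^ (k + 1) := by exact_mod_cast hAk'
  have hAP' : (A : ℝ) ≤ P ^ 4 := by
    rcases hA3 with h | h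
    · rw [h]
      push_cast
      exact one_le_pow₀ (by linarith)
    · have h1 : 8 * (A : ℝ) * ρ ≤ P ^ 4 * ρ := by linarith
      have h2 : 8 * (A : ℝ) ≤ P ^ 4 := le_of_mul_le_mul_right h1 hρ
      linarith
  have hAP : A ≤ P ^ 4 := by exact_mod_cast hAP'
  obtain ⟨W, hW⟩ : ∃ W : ℝ, W = (A : ℝ) * B ^ 2 := ⟨_, rfl⟩
  have hW0 : 0 < W := by
    rw [hW]
    positivity
  obtain ⟨V, hV⟩ : ∃ V : ℝ, V = 1024 * (P : ℝ) ^ 4 / W := ⟨_, rfl⟩
  have hV0 : 0 < V := by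
    rw [hV]
    positivity
  have hVW : V * W = 1024 * (P : ℝ) ^ 4 := by
    rw [hV]
    field_simp
  -- V ≤ 2^22 s^2
  have hW1 : 1 ≤ 4096 * W * (ρ * G ^ 2) := by
    have h1 : 1 ≤ (16 * (B : ℝ) * G) ^ 2 := one_le_pow₀ hB2
    have h2 : 1 * 1 ≤ (16 * (A : ℝ) * ρ) * (16 * (B : ℝ) * G) ^ 2 :=
      mul_le_mul hA2 h1 zero_le_one (by linarith only [hA2])
    rw [hW]
    linarith only [h2]
  have hVs : V ≤ 2 ^ 22 * s ^ 2 := by
    have h1 : V ≤ V * (4096 * W * (ρ * G ^ 2)) := le_mul_of_one_le_right hV0.le hW1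
    have h2 : V * (4096 * W * (ρ * G ^ 2)) = 2 ^ 22 * (P ^ 4 * ρ * G ^ 2) := by
      calc V * (4096 * W * (ρ * G ^ 2)) = 4096 * (V * W) * (ρ * G ^ 2) := by ring
        _ = 2 ^ 22 * (P ^ 4 * ρ * G ^ 2) := by
          rw [hVW]
          ring
    linarith only [hsq, h1, h2]
  -- pointwise
  have hpt : ∀ p ∈ QP P, ((Du G ρ p).card : ℝ) ≤ V * (Lam A B p).card := by
    intro p hp
    obtain ⟨⟨p1, p2, p3, p4⟩, hpr⟩ := Cnt_pb4 P p hp
    have h1 := du_le_lam A B G ρ p hA1 hB1 hA3 hB3 p1 p2 p3 p4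
    have h2 : 64 * ((p.1.1 : ℝ) * p.1.2 * p.2.1 * p.2.2) * (Lam A B p).card ≤
        V * W * (Lam A B p).card := by
      apply mul_le_mul_of_nonneg_right _ (Nat.cast_nonneg _)
      rw [hVW]
      linarith only [hpr]
    rw [← hW] at h1
    have h3 : ((Du G ρ p).card : ℝ) * W ≤ (V * (Lam A B p).card) * W := by
      calc ((Du G ρ p).card : ℝ) * W ≤ _ := h1.trans h2
        _ = _ := by ring
    exact le_of_mul_le_mul_right h3 hW0
  have hP34 : (P : ℝ) ^ 3 ≤ P ^ 4 := pow_le_pow_right₀ (by linarith only [hP']) (by norm_num)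
  have hP40 : (0 : ℝ) < (P : ℝ) ^ 4 := by positivity
  have hQ0 : (0 : ℝ) ≤ (k : ℝ) ^ 4 * P ^ 4 := by positivity
  have hQP : (P : ℝ) ^ 4 ≤ (k : ℝ) ^ 4 * P ^ 4 := le_mul_of_one_le_left hP40.le hk4
  -- coincidences
  have hcoin : ∑ p ∈ (QP P).filter (fun p => ¬ Dis p), ((Du G ρ p).card : ℝ) ≤
      2 ^ 25 * ((k : ℝ) ^ 4 * P ^ 4) * (s ^ 2 + G) := by
    have h1 : ∑ p ∈ (QP P).filter (fun p => ¬ Dis p), ((Du G ρ p).card : ℝ) ≤
        V * ∑ p ∈ (QP P).filter (fun p => ¬ Dis p), ((Lam A B p).card : ℝ) := by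
      rw [mul_sum]
      exact sum_le_sum fun p hp => hpt p (mem_filter.1 hp).1
    have h2 := lam_coin P A B k (by omega) h2B hAk
    have h3 := mul_le_mul_of_nonneg_left h2 hV0.le
    have h4 : V * (A * B) ≤ 16384 * P ^ 4 * G := by
      have h5 : V * (A * B) * 1 ≤ V * (A * B) * (16 * B * G) :=
        mul_le_mul_of_nonneg_left hB2 (by positivity)
      have h6 : V * (A * B) * (16 * B * G) = 16 * (V * W) * G := by
        rw [hW]
        ring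
      rw [h6, hVW] at h5
      linarith only [h5]
    have h5 : V * (P : ℝ) ^ 3 ≤ 2 ^ 22 * s ^ 2 * P ^ 4 := mul_le_mul hVs hP34 (by positivity) (by positivity)
    have h6 : (k : ℝ) ^ 4 * (V * (A * B)) ≤ (k : ℝ) ^ 4 * (16384 * P ^ 4 * G) :=
      mul_le_mul_of_nonneg_left h4 (by positivity)
    have h7 : s ^ 2 * (P : ℝ) ^ 4 ≤ s ^ 2 * ((k : ℝ) ^ 4 * P ^ 4) := mul_le_mul_of_nonneg_left hQP (sq_nonneg _)
    have h8 : 0 ≤ (k : ℝ) ^ 4 * P ^ 4 * G := by positivity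
    calc _ ≤ V * (6 * P ^ 3 + 24 * k ^ 4 * A * B) := h1.trans h3
      _ = 6 * (V * (P : ℝ) ^ 3) + 24 * ((k : ℝ) ^ 4 * (V * (A * B))) := by ring
      _ ≤ 6 * (2 ^ 22 * s ^ 2 * P ^ 4) + 24 * ((k : ℝ) ^ 4 * (16384 * P ^ 4 * G)) := by linarith only [h5, h6]
      _ = 6 * 2 ^ 22 * (s ^ 2 * (P : ℝ) ^ 4) + 24 * 16384 * ((k : ℝ) ^ 4 * P ^ 4 * G) := by ring
      _ ≤ 6 * 2 ^ 22 * (s ^ 2 * ((k : ℝ) ^ 4 * P ^ 4)) + 24 * 16384 * ((k : ℝ) ^ 4 * P ^ 4 * G) := by linarith only [h7]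
      _ ≤ 2 ^ 25 * ((k : ℝ) ^ 4 * P ^ 4) * (s ^ 2 + G) := by
        have h9 : 0 ≤ s ^ 2 * ((k : ℝ) ^ 4 * P ^ 4) := by positivity
        linarith only [h8, h9]
  -- distinct
  have hdis : ∑ p ∈ (QP P).filter (fun p => Dis p), ((Du G ρ p).card : ℝ) ≤
      2 ^ 39 * ((k : ℝ) ^ 4 * P ^ 4) * (s + s ^ 2) := by
    have hb0 : 0 ≤ s ^ 2 * ((k : ℝ) ^ 4 * P ^ 4) := by positivity
    have hb1 : 0 ≤ s * ((k : ℝ) ^ 4 * P ^ 4) := by positivity
    by_cases hs2 : 1 / 2 ^ 14 ≤ s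
    · have h1 : ∑ p ∈ (QP P).filter (fun p => Dis p), ((Du G ρ p).card : ℝ) ≤
          V * ∑ p ∈ QP P, ((Lam A B p).card : ℝ) := by
        rw [mul_sum]
        refine (sum_le_sum fun p hp => hpt p (mem_filter.1 hp).1).trans ?_
        refine sum_le_sum_of_subset_of_nonneg (filter_subset _ _) fun p _ _ => ?_
        exact mul_nonneg hV0.le (Nat.cast_nonneg _)
      have h2 := mul_le_mul_of_nonneg_left (lam_all P A B k (by omega) h2B hAk) hV0.le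
      have h3 : V * (P ^ 4 + 8 * k ^ 4 * A * B ^ 2) = V * P ^ 4 + 8 * k ^ 4 * (V * W) := by
        rw [hW]
        ring
      rw [h3, hVW] at h2
      have h4 : V * (P : ℝ) ^ 4 ≤ 2 ^ 22 * s ^ 2 * ((k : ℝ) ^ 4 * P ^ 4) :=
        mul_le_mul hVs hQP hP40.le (by positivity)
      have h5 : (k : ℝ) ^ 4 * P ^ 4 ≤ 2 ^ 14 * s * ((k : ℝ) ^ 4 * P ^ 4) := by
        apply le_mul_of_one_le_left hQ0
        rw [div_le_iff₀ (by positivity)] at hs2
        linarith only [hs2]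
      calc _ ≤ V * (P : ℝ) ^ 4 + 8 * k ^ 4 * (1024 * P ^ 4) := h1.trans h2
        _ = V * (P : ℝ) ^ 4 + 8192 * ((k : ℝ) ^ 4 * P ^ 4) := by ring
        _ ≤ 2 ^ 22 * s ^ 2 * ((k : ℝ) ^ 4 * P ^ 4) + 8192 * (2 ^ 14 * s * ((k : ℝ) ^ 4 * P ^ 4)) := by linarith only [h4, h5]
        _ ≤ 2 ^ 39 * ((k : ℝ) ^ 4 * P ^ 4) * (s + s ^ 2) := by linarith only [hA1', hAP', hQP, hb0, h5]
    · push Not at hs2
      have hs0 : 0 < s := by
        rcases hs.lt_or_eq with h | h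
        · exact h
        · exfalso
          rw [← h] at hsq
          have : (0 : ℝ) < P ^ 4 * ρ * G ^ 2 := by positivity
          norm_num at hsq
          linarith only [this, hsq]
      have hs3 : s ^ 2 < 1 / 2 ^ 28 := by
        have h1 : s ^ 2 < (1 / 2 ^ 14) ^ 2 := pow_lt_pow_left₀ hs2 hs (by norm_num)
        refine h1.trans_le (le_of_eq (by norm_num))
      have h8ρ : 8 * ρ ≤ 1 := by
        by_contra hc
        push Not at hc
        have h1 : (1 : ℝ) ≤ (4 * P * G) ^ 2 := one_le_pow₀ hPG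
        have h2 : (P : ℝ) ^ 2 * 1 ≤ P ^ 2 * (4 * P * G) ^ 2 := mul_le_mul_of_nonneg_left h1 (by positivity)
        have h3 : (P : ℝ) ^ 2 * (4 * P * G) ^ 2 = 16 * (P ^ 4 * G ^ 2) := by ring
        have h4 : (400 : ℝ) ≤ (P : ℝ) ^ 2 := by nlinarith only [hsq, hs2, hs0, hs3, h1, hρP]
        have h5 : (25 : ℝ) ≤ P ^ 4 * G ^ 2 := by linarith only [h2, h4]
        have h6 : (P : ℝ) ^ 4 * ρ * G ^ 2 = ρ * (P ^ 4 * G ^ 2) := by ring
        have h7 : (1 / 8 : ℝ) * 25 ≤ ρ * (P ^ 4 * G ^ 2) := mul_le_mul (by linarith only [hc]) h5 (by norm_num) hρ.le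
        rw [h6] at hsq
        norm_num at hs3
        linarith only [hsq, hs2, hs0, h7, hs3]
      have h8G : 8 * G ≤ 1 := by
        by_contra hc
        push Not at hc
        have h1 : (1 / 64 : ℝ) ≤ G ^ 2 := by nlinarith only [hsq, hρP, hc, hG, hs3]
        have h2 : (1 : ℝ) * (1 / 64) ≤ (ρ * P ^ 4) * G ^ 2 := mul_le_mul hρP h1 (by norm_num) (by linarith only [hρP, hs2, hs0])
        have h3 : (ρ * (P : ℝ) ^ 4) * G ^ 2 = P ^ 4 * ρ * G ^ 2 := by ring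
        rw [h3] at h2
        norm_num at hs3
        linarith only [hsq, hs2, hs0, h2, hs3]
      obtain ⟨m, hm⟩ : ∃ m : ℕ, m = ⌊1 / (4096 * s)⌋₊ := ⟨_, rfl⟩
      have hx4 : (4 : ℝ) ≤ 1 / (4096 * s) := by
        rw [le_div_iff₀ (by positivity)]
        rw [lt_div_iff₀ (by positivity)] at hs2
        linarith only [hs2]
      have hm4 : 4 ≤ m := by
        rw [hm]
        exact Nat.le_floor (by exact_mod_cast hx4)
      have hm4' : (4 : ℝ) ≤ m := by exact_mod_cast hm4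
      have hm0 : (0 : ℝ) < m := by linarith only [hs2, hs0, hm4']
      have hmle : (m : ℝ) ≤ 1 / (4096 * s) := by
        rw [hm]
        exact Nat.floor_le (by positivity)
      have hmge : 1 / (4096 * s) ≤ 2 * m := by
        have h1 : 1 / (4096 * s) < m + 1 := by
          rw [hm]
          exact Nat.lt_floor_add_one _
        linarith only [hs2, hs0, hm4', h1]
      have hms : (m : ℝ) * (4096 * s) ≤ 1 := by
        rwa [le_div_iff₀ (by positivity)] at hmle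
      have hms2 : (m : ℝ) ^ 2 * (2 ^ 24 * s ^ 2) ≤ 1 := by
        have h1 : ((m : ℝ) * (4096 * s)) ^ 2 ≤ 1 := pow_le_one₀ (by positivity) hms
        linarith only [h1]
      have hpt2 : ∀ p ∈ (QP P).filter (fun p => Dis p), ((Du G ρ p).card : ℝ) ≤
          V * (2 * m ^ 2 * (LamS A B m p).card) := by
        intro p hp
        rw [mem_filter] at hp
        rcases Finset.eq_empty_or_nonempty (Du G ρ p) with he | hne
        · rw [he, card_empty, Nat.cast_zero]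
          positivity
        · have h1 := hpt p hp.1
          have h2 : (1 : ℝ) ≤ (Du G ρ p).card := by
            exact_mod_cast Finset.card_pos.2 hne
          have h3 : 1 ≤ V * (Lam A B p).card := h2.trans h1
          have h4 : V * (Lam A B p).card ≤ 2 ^ 22 * s ^ 2 * (Lam A B p).card :=
            mul_le_mul_of_nonneg_right hVs (Nat.cast_nonneg _)
          have h5 : (m : ℝ) ^ 2 * (2 ^ 24 * s ^ 2) ≤ 2 ^ 22 * s ^ 2 * (Lam A B p).card := by linarith only [hms2, h1, h2, h4]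
          have h6 : (4 * (m : ℝ) ^ 2) * (2 ^ 22 * s ^ 2) ≤ (Lam A B p).card * (2 ^ 22 * s ^ 2) := by linarith only [hms2, h1, h2, h4]
          have h7 : 4 * (m : ℝ) ^ 2 ≤ (Lam A B p).card := le_of_mul_le_mul_right h6 (by positivity)
          have h8 : 4 * m ^ 2 ≤ (Lam A B p).card := by exact_mod_cast h7
          have h9 := plane P A B m G ρ p hp.1 hp.2 hA1 hB1 (hA4 h8ρ) (hB4 h8G) hm4 hne (by omega)
          have h10 : ((Lam A B p).card : ℝ) ≤ 2 * m ^ 2 * (LamS A B m p).card := by exact_mod_cast h9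
          exact h1.trans (mul_le_mul_of_nonneg_left h10 hV0.le)
      have h1 := sum_le_sum hpt2
      rw [← mul_sum, ← mul_sum] at h1
      have h2 := lam_small P A B k m (by omega) h2B hAk hAP (by omega)
      have h3 : V * (2 * (m : ℝ) ^ 2 * ∑ p ∈ (QP P).filter (fun p => Dis p), ((LamS A B m p).card : ℝ)) ≤
          V * (2 * m ^ 2 * (1728 * k ^ 4 * A * B ^ 2 / m ^ 3)) := by
        apply mul_le_mul_of_nonneg_left _ hV0.le
        exact mul_le_mul_of_nonneg_left h2 (by positivity)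
      have h4 : V * (2 * (m : ℝ) ^ 2 * (1728 * k ^ 4 * A * B ^ 2 / m ^ 3)) = 3538944 * (k ^ 4 * P ^ 4) * (1 / m) := by
        have h5 : V * (2 * (m : ℝ) ^ 2 * (1728 * k ^ 4 * A * B ^ 2 / m ^ 3)) = 3456 * k ^ 4 * (V * (A * B ^ 2)) * (1 / m) := by
          have e : (m : ℝ) ^ 2 * (1 / m ^ 3) = 1 / m := by
            field_simp
          rw [← e]
          ring
        rw [h5, ← hW, hVW]
        ring
      have h5 : 1 / (m : ℝ) ≤ 8192 * s := by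
        rw [div_le_iff₀ hm0]
        rw [div_le_iff₀ (by positivity)] at hmge
        linarith only [hmge]
      have h6 : 3538944 * ((k : ℝ) ^ 4 * P ^ 4) * (1 / m) ≤ 3538944 * ((k : ℝ) ^ 4 * P ^ 4) * (8192 * s) :=
        mul_le_mul_of_nonneg_left h5 (by positivity)
      rw [h4] at h3
      refine (h1.trans (h3.trans h6)).trans ?_
      linarith only [hb0, hb1]
  have hsplit := sum_filter_add_sum_filter_not (QP P) (fun p => Dis p) (fun p => ((Du G ρ p).card : ℝ))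
  rw [← hsplit]
  have hb0 : 0 ≤ s ^ 2 * ((k : ℝ) ^ 4 * P ^ 4) := by positivity
  have hb1 : 0 ≤ s * ((k : ℝ) ^ 4 * P ^ 4) := by positivity
  have hb2 : 0 ≤ G * ((k : ℝ) ^ 4 * P ^ 4) := by positivity
  linarith only [hcoin, hdis, hb0, hb1, hb2]

end Pool.Agent.H56.TI2

end

section

/-!
# TI2 Off: the bound for `T4`

`Tj ≤ 2JK² Wk K (nz(x2-x3))` and `≤ 2JK² Wk K (nz(x2-x4))` (as `off_Tj` of `TI/Off.lean`), so `Tj ≤ 2JK² Wk K D`, `D = max(nz(x2-x3), nz(x2-x4))`; `fej X (x1+x2-x3-x4) ≤ Wk X (nz ..)`; `wk_dyad` for both: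
`T4 ≤ 2JK² ∑_{s' ≤ log K, s ≤ log X} 16KX 4^(-s'-s) #{q : nz(x2-x3), nz(x2-x4) ≤ 2^s'/K, nz(x1+x2-x3-x4) ≤ 2^s/X}` and the count is `∑_{p ∈ QP P} #Du (2^s'/K) (2^s/X) p ≤ C k⁴ P⁴ (q 2^(s'+s) + q² 4^(s'+s) + 2^s'/K)` (`cnt2`).
-/

set_option autoImplicit false

namespace Pool.Agent.H56.TI2

open Finset
open Pool.Agent.H56.TI
open Pool.Agent.H35.W (pb)
open Pool.Agent.H53.MID (nz)

private theorem Off_Tj (K J : ℕ) (hK : 1 ≤ K) (hJ : K ≤ J) (q1 q2 q3 q4 : ℕ × ℕ) :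
    Tj K J q1 q2 q3 q4 ≤ 2 * J * K ^ 2 * Wk K (nz (xf q2 - xf q3)) := by
  unfold Tj
  have h1 : ∑ j ∈ range J, fej K (xf q1 - j / J) * fej K (xf q2 - j / J) * fej K (xf q3 - j / J) * fej K (xf q4 - j / J) ≤
      ∑ j ∈ range J, (K : ℝ) ^ 2 * (fej K (xf q2 - j / J) * fej K (xf q3 - j / J)) := by
    apply sum_le_sum
    intro j _
    have a1 := fej_nonneg K (xf q1 - j / J)
    have a2 := fej_nonneg K (xf q2 - j / J)
    have a3 := fej_nonneg K (xf q3 - j / J)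
    have a4 := fej_nonneg K (xf q4 - j / J)
    have b1 := fej_le K (xf q1 - j / J)
    have b4 := fej_le K (xf q4 - j / J)
    have e1 : fej K (xf q1 - j / J) * fej K (xf q2 - j / J) * fej K (xf q3 - j / J) * fej K (xf q4 - j / J) =
        (fej K (xf q1 - j / J) * fej K (xf q4 - j / J)) * (fej K (xf q2 - j / J) * fej K (xf q3 - j / J)) := by ring
    rw [e1]
    apply mul_le_mul_of_nonneg_right _ (mul_nonneg a2 a3)
    calc fej K (xf q1 - j / J) * fej K (xf q4 - j / J) ≤ K * K := mul_le_mul b1 b4 a4 (Nat.cast_nonneg K)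
      _ = (K : ℝ) ^ 2 := by ring
  refine h1.trans ?_
  rw [← mul_sum]
  have h2 := fej_grid2 K J hK hJ (xf q2) (xf q3)
  have h3 := mul_le_mul_of_nonneg_left h2 (by positivity : (0 : ℝ) ≤ (K : ℝ) ^ 2)
  refine h3.trans (le_of_eq ?_)
  ring

private theorem Off_Tj_symm (K J : ℕ) (q1 q2 q3 q4 : ℕ × ℕ) :
    Tj K J q1 q2 q3 q4 = Tj K J q1 q2 q4 q3 := by
  unfold Tj
  exact sum_congr rfl fun j _ => by ring

private theorem Off_Tj2 (K J : ℕ) (hK : 1 ≤ K) (hJ : K ≤ J) (q1 q2 q3 q4 : ℕ × ℕ) :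
    Tj K J q1 q2 q3 q4 ≤ 2 * J * K ^ 2 * Wk K (max (nz (xf q2 - xf q3)) (nz (xf q2 - xf q4))) := by
  rcases le_total (nz (xf q2 - xf q3)) (nz (xf q2 - xf q4)) with h | h
  · rw [max_eq_right h, Off_Tj_symm]
    exact Off_Tj K J hK hJ q1 q2 q4 q3
  · rw [max_eq_left h]
    exact Off_Tj K J hK hJ q1 q2 q3 q4

open Classical in
private theorem Off_pt (K J X : ℕ) (hK : 1 ≤ K) (hJ : K ≤ J) (hX : K ^ 2 ≤ X) (q1 q2 q3 q4 : ℕ × ℕ) :
    Tj K J q1 q2 q3 q4 * fej X (xf q1 + xf q2 - xf q3 - xf q4) ≤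
    2 * J * K ^ 2 * ∑ s' ∈ range (Nat.log 2 K + 1), ∑ s ∈ range (Nat.log 2 X + 1),
      if (nz (xf q1 + xf q2 - xf q3 - xf q4) ≤ 2 ^ s / X ∧ nz (xf q2 - xf q3) ≤ 2 ^ s' / K ∧ nz (xf q2 - xf q4) ≤ 2 ^ s' / K)
        then 16 * (K : ℝ) * X / 4 ^ (s' + s) else 0 := by
  have hX1 : 1 ≤ X := le_trans (Nat.one_le_pow _ _ hK) hX
  have hT := Off_Tj2 K J hK hJ q1 q2 q3 q4
  have hF := fej_le_W X hX1 (xf q1 + xf q2 - xf q3 - xf q4)
  have hF0 := fej_nonneg X (xf q1 + xf q2 - xf q3 - xf q4)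
  have n1 := Pool.Agent.H53.MID.nz_nonneg (xf q2 - xf q3)
  have n2 := Pool.Agent.H53.MID.nz_le_half (xf q2 - xf q3)
  have n3 := Pool.Agent.H53.MID.nz_nonneg (xf q2 - xf q4)
  have n4 := Pool.Agent.H53.MID.nz_le_half (xf q2 - xf q4)
  have hW1 := wk_dyad K hK (max (nz (xf q2 - xf q3)) (nz (xf q2 - xf q4))) (le_max_of_le_left n1) (max_le n2 n4)
  have hW2 := wk_dyad X hX1 (nz (xf q1 + xf q2 - xf q3 - xf q4)) (Pool.Agent.H53.MID.nz_nonneg _) (Pool.Agent.H53.MID.nz_le_half _)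
  have hW10 := wk_nonneg K (max (nz (xf q2 - xf q3)) (nz (xf q2 - xf q4)))
  have hW20 := wk_nonneg X (nz (xf q1 + xf q2 - xf q3 - xf q4))
  calc Tj K J q1 q2 q3 q4 * fej X (xf q1 + xf q2 - xf q3 - xf q4)
      ≤ (2 * J * K ^ 2 * Wk K (max (nz (xf q2 - xf q3)) (nz (xf q2 - xf q4)))) *
          Wk X (nz (xf q1 + xf q2 - xf q3 - xf q4)) := by
        apply mul_le_mul hT hF hF0
        apply mul_nonneg (by positivity) hW10
    _ = 2 * J * K ^ 2 * (Wk K (max (nz (xf q2 - xf q3)) (nz (xf q2 - xf q4))) *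
          Wk X (nz (xf q1 + xf q2 - xf q3 - xf q4))) := by ring
    _ ≤ _ := by
        apply mul_le_mul_of_nonneg_left _ (by positivity)
        refine (mul_le_mul hW1 hW2 hW20 (hW10.trans hW1)).trans (le_of_eq ?_)
        rw [sum_mul_sum]
        apply sum_congr rfl
        intro s' _
        apply sum_congr rfl
        intro s _
        by_cases c1 : max (nz (xf q2 - xf q3)) (nz (xf q2 - xf q4)) ≤ 2 ^ s' / K
        · by_cases c2 : nz (xf q1 + xf q2 - xf q3 - xf q4) ≤ 2 ^ s / X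
          · rw [if_pos c1, if_pos c2, if_pos ⟨c2, (le_max_left _ _).trans c1, (le_max_right _ _).trans c1⟩, pow_add]
            have ha : (0 : ℝ) < 4 ^ s' := by positivity
            have hb : (0 : ℝ) < 4 ^ s := by positivity
            field_simp
            ring
          · rw [if_neg c2, mul_zero, if_neg (fun hh => c2 hh.1)]
        · rw [if_neg c1, zero_mul, if_neg (fun hh => c1 (max_le hh.2.1 hh.2.2))]

private theorem Off_mem (P : ℕ) (q : ℕ × ℕ) (hq : q ∈ FR P) : q.1 ∈ pb P ∧ 1 ≤ q.2 ∧ q.2 < q.1 := by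
  simp only [FR, mem_filter, mem_product, mem_Icc] at hq
  exact ⟨hq.1.1, hq.1.2.1, hq.2⟩

open Classical in
private theorem Off_cnt (P : ℕ) (G ρ : ℝ) :
    ((((FR P ×ˢ FR P) ×ˢ (FR P ×ˢ FR P)).filter (fun t =>
      nz (xf t.1.1 + xf t.1.2 - xf t.2.1 - xf t.2.2) ≤ ρ ∧ nz (xf t.1.2 - xf t.2.1) ≤ G ∧
        nz (xf t.1.2 - xf t.2.2) ≤ G)).card : ℝ) ≤ ∑ p ∈ QP P, ((Du G ρ p).card : ℝ) := by
  rw [← Nat.cast_sum]
  norm_cast
  have hmaps : ∀ t ∈ ((FR P ×ˢ FR P) ×ˢ (FR P ×ˢ FR P)).filter (fun t =>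
      nz (xf t.1.1 + xf t.1.2 - xf t.2.1 - xf t.2.2) ≤ ρ ∧ nz (xf t.1.2 - xf t.2.1) ≤ G ∧
        nz (xf t.1.2 - xf t.2.2) ≤ G), (((t.1.1.1, t.1.2.1), (t.2.1.1, t.2.2.1)) : (ℕ × ℕ) × (ℕ × ℕ)) ∈ QP P := by
    intro t ht
    rw [mem_filter, mem_product, mem_product, mem_product] at ht
    obtain ⟨⟨⟨m1, m2⟩, m3, m4⟩, _⟩ := ht
    simp only [QP, mem_product]
    exact ⟨⟨(Off_mem P _ m1).1, (Off_mem P _ m2).1⟩, (Off_mem P _ m3).1, (Off_mem P _ m4).1⟩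
  rw [card_eq_sum_card_fiberwise hmaps]
  refine sum_le_sum fun p _ => ?_
  refine card_le_card_of_injOn (fun t => ((t.1.1.2, t.1.2.2), (t.2.1.2, t.2.2.2))) ?_ ?_
  · intro t ht
    rw [mem_coe, mem_filter, mem_filter, mem_product, mem_product, mem_product] at ht
    obtain ⟨⟨⟨⟨m1, m2⟩, m3, m4⟩, c1, c2, c3⟩, rfl⟩ := ht
    rw [mem_coe]
    simp only [Du, mem_filter, mem_product, mem_Ico]
    exact ⟨⟨⟨(Off_mem P _ m1).2, (Off_mem P _ m2).2⟩, (Off_mem P _ m3).2, (Off_mem P _ m4).2⟩, c1, c2, c3⟩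
  · intro t ht t' ht' h
    rw [mem_coe, mem_filter] at ht ht'
    have e := ht.2.trans ht'.2.symm
    simp only [Prod.mk.injEq] at e h
    obtain ⟨⟨e1, e2⟩, e3, e4⟩ := e
    obtain ⟨⟨h1, h2⟩, h3, h4⟩ := h
    exact Prod.ext (Prod.ext (Prod.ext e1 h1) (Prod.ext e2 h2)) (Prod.ext (Prod.ext e3 h3) (Prod.ext e4 h4))

theorem t4_le : ∃ C : ℝ, 0 < C ∧ ∀ (P K J X k : ℕ) (q : ℝ), 20 ≤ P → 1 ≤ k → 1 ≤ K → K ≤ J → K ^ 2 ≤ X → K ≤ 4 * P →
    X ≤ P ^ 4 → X ≤ P ^ (k + 1) → 0 ≤ q → (P : ℝ) ^ 4 ≤ q ^ 2 * (K ^ 2 * X) →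
    T4 P K J X ≤ C * k ^ 4 * P ^ 4 * J * K ^ 3 * X * ((q + q ^ 2 + 1 / K) * (Nat.log 2 X + 1) ^ 2) := by
  classical
  obtain ⟨C, hC, hcnt⟩ := cnt2
  refine ⟨32 * C, by positivity, ?_⟩
  intro P K J X k q hP hk hK hJ hX hKP hXP hXk hq hqq
  have hX1 : 1 ≤ X := le_trans (Nat.one_le_pow _ _ hK) hX
  have hK0 : (0 : ℝ) < K := by exact_mod_cast hK
  have hX0 : (0 : ℝ) < X := by exact_mod_cast hX1
  -- pointwise
  have h1 : T4 P K J X ≤
      ∑ q1 ∈ FR P, ∑ q2 ∈ FR P, ∑ q3 ∈ FR P, ∑ q4 ∈ FR P,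
      2 * J * K ^ 2 * ∑ s' ∈ range (Nat.log 2 K + 1), ∑ s ∈ range (Nat.log 2 X + 1),
      (if (nz (xf q1 + xf q2 - xf q3 - xf q4) ≤ 2 ^ s / X ∧ nz (xf q2 - xf q3) ≤ 2 ^ s' / K ∧
          nz (xf q2 - xf q4) ≤ 2 ^ s' / K)
        then 16 * (K : ℝ) * X / 4 ^ (s' + s) else 0) := by
    unfold T4
    apply sum_le_sum; intro q1 _
    apply sum_le_sum; intro q2 _
    apply sum_le_sum; intro q3 _
    apply sum_le_sum; intro q4 _
    exact Off_pt K J X hK hJ hX q1 q2 q3 q4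
  refine h1.trans ?_
  -- rearrange
  have h2 : ∑ q1 ∈ FR P, ∑ q2 ∈ FR P, ∑ q3 ∈ FR P, ∑ q4 ∈ FR P,
      2 * J * K ^ 2 * ∑ s' ∈ range (Nat.log 2 K + 1), ∑ s ∈ range (Nat.log 2 X + 1),
      (if (nz (xf q1 + xf q2 - xf q3 - xf q4) ≤ 2 ^ s / X ∧ nz (xf q2 - xf q3) ≤ 2 ^ s' / K ∧
          nz (xf q2 - xf q4) ≤ 2 ^ s' / K)
        then 16 * (K : ℝ) * X / 4 ^ (s' + s) else 0) =
      ∑ t ∈ (FR P ×ˢ FR P) ×ˢ (FR P ×ˢ FR P),
      2 * J * K ^ 2 * ∑ s' ∈ range (Nat.log 2 K + 1), ∑ s ∈ range (Nat.log 2 X + 1),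
      (if (nz (xf t.1.1 + xf t.1.2 - xf t.2.1 - xf t.2.2) ≤ 2 ^ s / X ∧ nz (xf t.1.2 - xf t.2.1) ≤ 2 ^ s' / K ∧
          nz (xf t.1.2 - xf t.2.2) ≤ 2 ^ s' / K)
        then 16 * (K : ℝ) * X / 4 ^ (s' + s) else 0) := by
    rw [sum_product, sum_product]
    apply sum_congr rfl; intro q1 _
    apply sum_congr rfl; intro q2 _
    rw [sum_product]
  rw [h2, ← mul_sum]
  have hlog : Nat.log 2 K + 1 ≤ Nat.log 2 X + 1 :=
    Nat.succ_le_succ (Nat.log_mono_right ((Nat.le_self_pow two_ne_zero K).trans hX))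
  obtain ⟨T, hT⟩ : ∃ T : ℝ, T = 16 * K * X * (C * k ^ 4 * P ^ 4 * (q + q ^ 2 + 1 / K)) := ⟨_, rfl⟩
  have hT0 : 0 ≤ T := by
    rw [hT]
    positivity
  have h3 : ∑ t ∈ (FR P ×ˢ FR P) ×ˢ (FR P ×ˢ FR P),
      ∑ s' ∈ range (Nat.log 2 K + 1), ∑ s ∈ range (Nat.log 2 X + 1),
      (if (nz (xf t.1.1 + xf t.1.2 - xf t.2.1 - xf t.2.2) ≤ 2 ^ s / X ∧ nz (xf t.1.2 - xf t.2.1) ≤ 2 ^ s' / K ∧
          nz (xf t.1.2 - xf t.2.2) ≤ 2 ^ s' / K)
        then 16 * (K : ℝ) * X / 4 ^ (s' + s) else 0) ≤ ((Nat.log 2 X + 1 : ℕ) : ℝ) ^ 2 * T := by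
    rw [sum_comm]
    have h4 : ∀ s' ∈ range (Nat.log 2 K + 1), ∑ t ∈ (FR P ×ˢ FR P) ×ˢ (FR P ×ˢ FR P), ∑ s ∈ range (Nat.log 2 X + 1),
      (if (nz (xf t.1.1 + xf t.1.2 - xf t.2.1 - xf t.2.2) ≤ 2 ^ s / X ∧ nz (xf t.1.2 - xf t.2.1) ≤ 2 ^ s' / K ∧
          nz (xf t.1.2 - xf t.2.2) ≤ 2 ^ s' / K)
        then 16 * (K : ℝ) * X / 4 ^ (s' + s) else 0) ≤ ((Nat.log 2 X + 1 : ℕ) : ℝ) * T := by
      intro s' hs'
      rw [sum_comm, ← nsmul_eq_mul]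
      nth_rewrite 2 [← card_range (Nat.log 2 X + 1)]
      apply sum_le_card_nsmul
      intro s hs
      rw [← sum_filter, sum_const, nsmul_eq_mul]
      have g1 : (1 : ℝ) ≤ 2 ^ s' := one_le_pow₀ (by norm_num)
      have g2 : (1 : ℝ) ≤ 2 ^ s := one_le_pow₀ (by norm_num)
      have hG1 : (2 : ℝ) ^ s' / K ≤ 1 := by
        rw [div_le_one hK0]
        have h5 : 2 ^ s' ≤ K := by
          have h6 : s' ≤ Nat.log 2 K := by
            have := mem_range.mp hs'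
            omega
          exact (Nat.pow_le_pow_right (by norm_num) h6).trans (Nat.pow_log_le_self 2 (by omega))
        exact_mod_cast h5
      have hR1 : (2 : ℝ) ^ s / X ≤ 1 := by
        rw [div_le_one hX0]
        have h5 : 2 ^ s ≤ X := by
          have h6 : s ≤ Nat.log 2 X := by
            have := mem_range.mp hs
            omega
          exact (Nat.pow_le_pow_right (by norm_num) h6).trans (Nat.pow_log_le_self 2 (by omega))
        exact_mod_cast h5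
      have hKP' : (K : ℝ) ≤ 4 * P := by exact_mod_cast hKP
      have hXP' : (X : ℝ) ≤ P ^ 4 := by exact_mod_cast hXP
      have hXk' : (X : ℝ) ≤ P ^ (k + 1) := by exact_mod_cast hXk
      have c1 : 1 ≤ 4 * (P : ℝ) * (2 ^ s' / K) := by
        rw [← mul_div_assoc, le_div_iff₀ hK0, one_mul]
        exact hKP'.trans (le_mul_of_one_le_right (by positivity) g1)
      have c2 : 1 ≤ (2 : ℝ) ^ s / X * P ^ 4 := by
        rw [div_mul_eq_mul_div, le_div_iff₀ hX0, one_mul]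
        exact hXP'.trans (le_mul_of_one_le_left (by positivity) g2)
      have c3 : 1 ≤ (2 : ℝ) ^ s / X * P ^ (k + 1) := by
        rw [div_mul_eq_mul_div, le_div_iff₀ hX0, one_mul]
        exact hXk'.trans (le_mul_of_one_le_left (by positivity) g2)
      have c4 : (P : ℝ) ^ 4 * (2 ^ s / X) * (2 ^ s' / K) ^ 2 ≤ (q * 2 ^ s' * 2 ^ s) ^ 2 := by
        have d1 : (P : ℝ) ^ 4 * (2 ^ s / X) * (2 ^ s' / K) ^ 2 = P ^ 4 * (2 ^ s * (2 ^ s') ^ 2) / (K ^ 2 * X) := by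
          field_simp
        rw [d1, div_le_iff₀ (by positivity)]
        calc (P : ℝ) ^ 4 * (2 ^ s * (2 ^ s') ^ 2) ≤ (q ^ 2 * (K ^ 2 * X)) * (2 ^ s * (2 ^ s') ^ 2) :=
              mul_le_mul_of_nonneg_right hqq (by positivity)
          _ ≤ (q ^ 2 * (K ^ 2 * X)) * ((2 ^ s * 2 ^ s) * (2 ^ s') ^ 2) := by
              apply mul_le_mul_of_nonneg_left _ (by positivity)
              apply mul_le_mul_of_nonneg_right _ (by positivity)
              exact le_mul_of_one_le_left (by positivity) g2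
          _ = (q * 2 ^ s' * 2 ^ s) ^ 2 * (K ^ 2 * X) := by ring
      have hc := (Off_cnt P (2 ^ s' / K) (2 ^ s / X)).trans
        (hcnt P k ((2 : ℝ) ^ s' / K) ((2 : ℝ) ^ s / X) (q * 2 ^ s' * 2 ^ s) hP hk (by positivity) hR1 (by positivity)
          hG1 c1 c2 c3 (by positivity) c4)
      have hc2 := mul_le_mul_of_nonneg_right hc (by positivity : (0 : ℝ) ≤ 16 * (K : ℝ) * X / 4 ^ (s' + s))
      refine hc2.trans ?_
      rw [hT]
      have e1 : (4 : ℝ) ^ (s' + s) = (2 ^ s' * 2 ^ s) ^ 2 := by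
        rw [← pow_add, ← pow_mul, mul_comm (s' + s) 2, pow_mul]
        norm_num
      have a1 : (1 : ℝ) ≤ 2 ^ s' * 2 ^ s := one_le_mul_of_one_le_of_one_le g1 g2
      have a0 : (0 : ℝ) < 2 ^ s' * 2 ^ s := by linarith
      have a2 : (q * 2 ^ s' * 2 ^ s + (q * 2 ^ s' * 2 ^ s) ^ 2 + 2 ^ s' / K) ≤
          (q + q ^ 2 + 1 / K) * 4 ^ (s' + s) := by
        rw [e1]
        have b1 : (2 : ℝ) ^ s' * 2 ^ s ≤ (2 ^ s' * 2 ^ s) ^ 2 := le_self_pow₀ a1 two_ne_zero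
        have b2 : (2 : ℝ) ^ s' ≤ (2 ^ s' * 2 ^ s) ^ 2 :=
          (le_mul_of_one_le_right (by positivity) g2).trans b1
        have b3 : q * (2 ^ s' * 2 ^ s) ≤ q * (2 ^ s' * 2 ^ s) ^ 2 := mul_le_mul_of_nonneg_left b1 hq
        have b4 : (2 : ℝ) ^ s' / K ≤ (2 ^ s' * 2 ^ s) ^ 2 / K := div_le_div_of_nonneg_right b2 hK0.le
        have b5 : (1 / (K : ℝ)) * (2 ^ s' * 2 ^ s) ^ 2 = (2 ^ s' * 2 ^ s) ^ 2 / K := by ring
        calc _ = q * (2 ^ s' * 2 ^ s) + q ^ 2 * (2 ^ s' * 2 ^ s) ^ 2 + 2 ^ s' / K := by ring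
          _ ≤ q * (2 ^ s' * 2 ^ s) ^ 2 + q ^ 2 * (2 ^ s' * 2 ^ s) ^ 2 + (2 ^ s' * 2 ^ s) ^ 2 / K := by linarith
          _ = _ := by rw [← b5]; ring
      calc C * k ^ 4 * P ^ 4 * (q * 2 ^ s' * 2 ^ s + (q * 2 ^ s' * 2 ^ s) ^ 2 + 2 ^ s' / K) * (16 * K * X / 4 ^ (s' + s))
          ≤ C * k ^ 4 * P ^ 4 * ((q + q ^ 2 + 1 / K) * 4 ^ (s' + s)) * (16 * K * X / 4 ^ (s' + s)) := by
            apply mul_le_mul_of_nonneg_right _ (by positivity)
            exact mul_le_mul_of_nonneg_left a2 (by positivity)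
        _ = 16 * K * X * (C * k ^ 4 * P ^ 4 * (q + q ^ 2 + 1 / K)) := by
            have : (0 : ℝ) < 4 ^ (s' + s) := by positivity
            field_simp
    refine (sum_le_card_nsmul _ _ _ h4).trans ?_
    rw [card_range, nsmul_eq_mul, pow_two, mul_assoc]
    apply mul_le_mul_of_nonneg_right _ (by positivity)
    exact_mod_cast hlog
  refine (mul_le_mul_of_nonneg_left h3 (by positivity)).trans (le_of_eq ?_)
  rw [hT]
  push_cast
  ring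

end Pool.Agent.H56.TI2

end

section

/-!
# TI2 Bad: few bad centres (as `TI/Bad.lean`, with `t4_le`)
-/

set_option autoImplicit false

namespace Pool.Agent.H56.TI2

open Finset
open Pool.Agent.H56.TI
open Pool.Agent.H91.PK (ee)
open Pool.Agent.H35.W (pb)
open Pool.Agent.H53.MID (nz)

private theorem Bad_ee_sub (s t : ℝ) : ‖ee s - ee t‖ ≤ 2 * Real.pi * |s - t| := by
  have h1 : ee s - ee t = ee t * (Complex.exp (Complex.I * ((2 * Real.pi * (s - t) : ℝ) : ℂ)) - 1) := by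
    unfold Pool.Agent.H91.PK.ee
    rw [mul_sub, ← Complex.exp_add, mul_one]
    congr 2
    push_cast
    ring
  have h2 : ‖ee t‖ = 1 := by
    unfold Pool.Agent.H91.PK.ee
    rw [show (2 * (Real.pi : ℂ) * (t : ℂ) * Complex.I) = ((2 * Real.pi * t : ℝ) : ℂ) * Complex.I by
      push_cast; ring]
    exact Complex.norm_exp_ofReal_mul_I _
  rw [h1, norm_mul, h2, one_mul]
  refine (Real.norm_exp_I_mul_ofReal_sub_one_le).trans ?_
  rw [Real.norm_eq_abs, abs_mul, abs_of_pos Real.two_pi_pos]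

/-- periodicity -/
private theorem Bad_fract (P K : ℕ) (w : ℕ → ℝ) (α : ℝ) (x : ℤ) :
    SF P K w (Int.fract α) x = SF P K w α x := by
  unfold SF
  refine sum_congr rfl fun q _ => ?_
  have h1 : xf q - Int.fract α = (xf q - α) + (⌊α⌋ : ℤ) := by
    unfold Int.fract
    ring
  rw [h1, fej_int]

/-- `SF` changes little with `α` -/
private theorem Bad_lip {P K X : ℕ} {w : ℕ → ℝ} {b : ℝ} (hK : 1 ≤ K) (hb : 0 ≤ b)
    (hm : ∀ m, 1 ≤ m → m ≤ 2 * X → |Phi P w m| ≤ b) {x : ℕ} (hKx : K ≤ x) (hxX : x < X)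
    (α β : ℝ) :
    ‖SF P K w α x - SF P K w β x‖ ≤ 4 * Real.pi * K ^ 2 * b * |α - β| := by
  rw [sf_tri P K w α x hK hKx, sf_tri P K w β x hK hKx, ← sum_sub_distrib]
  have hK0 : (0 : ℝ) < K := by exact_mod_cast hK
  have h1 : ∀ m ∈ Ioo (x - K) (x + K),
      ‖(((1 - |(m : ℝ) - x| / K) * Phi P w m : ℝ) : ℂ) * ee (-(((m : ℝ) - x) * α)) -
        (((1 - |(m : ℝ) - x| / K) * Phi P w m : ℝ) : ℂ) * ee (-(((m : ℝ) - x) * β))‖ ≤
        b * (2 * Real.pi * (K * |α - β|)) := by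
    intro m hmm
    have hm1 := (mem_Ioo.1 hmm).1
    have hm2 := (mem_Ioo.1 hmm).2
    have h2 : |(m : ℝ) - x| ≤ K := by
      rw [abs_le]
      have h3 : (m : ℝ) < x + K := by exact_mod_cast hm2
      have h4 : (x : ℝ) < m + K := by
        have : x < m + K := by omega
        exact_mod_cast this
      constructor <;> linarith
    have h3 : |1 - |(m : ℝ) - x| / K| ≤ 1 := by
      have h4 : |(m : ℝ) - x| / K ≤ 1 := (div_le_one hK0).2 h2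
      have h5 : 0 ≤ |(m : ℝ) - x| / K := by positivity
      rw [abs_le]
      constructor <;> linarith
    rw [← mul_sub, norm_mul, Complex.norm_real, Real.norm_eq_abs, abs_mul]
    refine mul_le_mul ?_ ?_ (norm_nonneg _) hb
    · calc |1 - |(m : ℝ) - x| / K| * |Phi P w m| ≤ 1 * b :=
            mul_le_mul h3 (hm m (by omega) (by omega)) (abs_nonneg _) zero_le_one
        _ = b := one_mul b
    · refine (Bad_ee_sub _ _).trans ?_
      refine mul_le_mul_of_nonneg_left ?_ Real.two_pi_pos.le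
      have h4 : -(((m : ℝ) - x) * α) - -(((m : ℝ) - x) * β) = -(((m : ℝ) - x) * (α - β)) := by ring
      rw [h4, abs_neg, abs_mul]
      exact mul_le_mul_of_nonneg_right h2 (abs_nonneg _)
  refine (norm_sum_le _ _).trans ((sum_le_card_nsmul _ _ _ h1).trans ?_)
  rw [nsmul_eq_mul, Nat.card_Ioo]
  have h5 : ((x + K - (x - K) - 1 : ℕ) : ℝ) ≤ 2 * K := by
    have : x + K - (x - K) - 1 ≤ 2 * K := by omega
    exact_mod_cast this
  have h6 : 0 ≤ b * (2 * Real.pi * (K * |α - β|)) := by positivity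
  calc _ ≤ 2 * (K : ℝ) * (b * (2 * Real.pi * (K * |α - β|))) := mul_le_mul_of_nonneg_right h5 h6
    _ = 4 * Real.pi * K ^ 2 * b * |α - β| := by ring

/-- a bad centre contributes -/
private theorem Bad_one {P K J X : ℕ} {w : ℕ → ℝ} {η b : ℝ} (hK : 1 ≤ K) (hJ : K ≤ J) (hη : 0 < η)
    (hb : 0 ≤ b) (hm : ∀ m, 1 ≤ m → m ≤ 2 * X → |Phi P w m| ≤ b)
    (hbJ : 26 * (K : ℝ) ^ 2 * b ≤ η * J) {x : ℕ} (hx : x ∈ badx P K w η X) :
    (η / 2) ^ 4 ≤ ∑ j ∈ range J, ‖SF P K w (j / J) (x : ℤ)‖ ^ 4 := by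
  classical
  obtain ⟨hx1, hx2, α, hα⟩ := mem_filter.1 hx
  have hxX := mem_range.1 hx1
  have hJ0 : (0 : ℝ) < J := by exact_mod_cast (show 0 < J by omega)
  rw [← Bad_fract] at hα
  have hf0 := Int.fract_nonneg α
  have hf1 := Int.fract_lt_one α
  generalize Int.fract α = β at hα hf0 hf1
  have hj : ⌊β * J⌋₊ < J := by
    rw [Nat.floor_lt (by positivity)]
    calc β * J < 1 * J := mul_lt_mul_of_pos_right hf1 hJ0
      _ = J := one_mul _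
  have hd : |β - (⌊β * J⌋₊ : ℝ) / J| ≤ 1 / J := by
    have h1 := Nat.floor_le (show 0 ≤ β * J by positivity)
    have h2 := Nat.lt_floor_add_one (β * J)
    have h3 : β - (⌊β * J⌋₊ : ℝ) / J = (β * J - ⌊β * J⌋₊) / J := by
      field_simp
    rw [h3, abs_div, abs_of_pos hJ0]
    refine div_le_div_of_nonneg_right ?_ hJ0.le
    rw [abs_le]
    constructor <;> linarith
  have h1 := Bad_lip (P := P) (w := w) hK hb hm hx2 hxX β ((⌊β * J⌋₊ : ℝ) / J)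
  have h2 : 4 * Real.pi * K ^ 2 * b * |β - (⌊β * J⌋₊ : ℝ) / J| ≤ η / 2 := by
    have h3 : 0 ≤ (K : ℝ) ^ 2 * b := by positivity
    calc 4 * Real.pi * K ^ 2 * b * |β - (⌊β * J⌋₊ : ℝ) / J|
        ≤ 4 * Real.pi * K ^ 2 * b * (1 / J) :=
          mul_le_mul_of_nonneg_left hd (by positivity)
      _ = (8 * Real.pi) * (K ^ 2 * b) / J / 2 := by ring
      _ ≤ 26 * (K ^ 2 * b) / J / 2 := by
          have h4 : 8 * Real.pi ≤ 26 := by
            have := Real.pi_lt_d2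
            linarith
          gcongr
      _ ≤ η / 2 := by
          refine div_le_div_of_nonneg_right ?_ (by norm_num)
          rw [div_le_iff₀ hJ0]
          linarith
  have h3 : η / 2 ≤ ‖SF P K w ((⌊β * J⌋₊ : ℝ) / J) (x : ℤ)‖ := by
    have h4 := norm_sub_norm_le (SF P K w β (x : ℤ)) (SF P K w ((⌊β * J⌋₊ : ℝ) / J) (x : ℤ))
    linarith
  calc (η / 2) ^ 4 ≤ ‖SF P K w ((⌊β * J⌋₊ : ℝ) / J) (x : ℤ)‖ ^ 4 :=
        pow_le_pow_left₀ (by positivity) h3 4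
    _ ≤ _ := single_le_sum (f := fun j : ℕ => ‖SF P K w ((j : ℝ) / J) (x : ℤ)‖ ^ 4)
        (fun _ _ => by positivity) (mem_range.2 hj)

theorem bad2_le : ∃ C : ℝ, 0 < C ∧ ∀ (P K J X k : ℕ) (w : ℕ → ℝ) (η b q : ℝ), 20 ≤ P → 1 ≤ k → 1 ≤ K → K ≤ J → K ^ 2 ≤ X →
    K ≤ 4 * P → 2 * X ≤ P ^ 4 → 2 * X ≤ P ^ (k + 1) → 0 ≤ q → (P : ℝ) ^ 4 ≤ q ^ 2 * (K ^ 2 * X) →
    (∀ p, |w p| ≤ 1) → 0 < η → 0 ≤ b → (∀ m, 1 ≤ m → m ≤ 2 * X → |Phi P w m| ≤ b) →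
    26 * (K : ℝ) ^ 2 * b ≤ η * J →
      ((badx P K w η X).card : ℝ) * η ^ 4 ≤
        C * k ^ 4 * J * K ^ 3 * X * ((q + q ^ 2 + 1 / K) * (Nat.log 2 (2 * X) + 1) ^ 2) := by
  classical
  obtain ⟨C, hC, hoff⟩ := t4_le
  refine ⟨64 * C, by positivity, ?_⟩
  intro P K J X k w η b q hP hk hK hJ hKX hKP hX4 hXk hq hqq hw hη hb hm hbJ
  have hX1 : 1 ≤ X := (Nat.one_le_pow _ _ hK).trans hKX
  have hX0 : (0 : ℝ) < X := by exact_mod_cast hX1
  have hP0 : (0 : ℝ) < P := by exact_mod_cast (show 0 < P by omega)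
  have hK0 : (0 : ℝ) < K := by exact_mod_cast hK
  have h3 := hoff P K J (2 * X) k q hP hk hK hJ (by omega) hKP hX4 hXk hq (by
    refine hqq.trans ?_
    apply mul_le_mul_of_nonneg_left _ (sq_nonneg q)
    apply mul_le_mul_of_nonneg_left _ (by positivity)
    push_cast
    linarith)
  have h4 := m4_le P K J (2 * X) w hw (by omega) (by omega)
  have h5 : T4 P K J (2 * X) / (P : ℝ) ^ 4 ≤
      2 * C * k ^ 4 * J * K ^ 3 * X * ((q + q ^ 2 + 1 / K) * (Nat.log 2 (2 * X) + 1) ^ 2) := by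
    rw [div_le_iff₀ (by positivity)]
    refine h3.trans (le_of_eq ?_)
    push_cast
    ring
  have h6 : ((badx P K w η X).card : ℝ) * ((1 / 2) * (η / 2) ^ 4) ≤
      ∑ x ∈ Ioo (-((2 * X : ℕ) : ℤ)) (2 * X : ℕ), (1 - |(x : ℝ)| / (2 * X : ℕ)) *
        ∑ j ∈ range J, ‖SF P K w (j / J) x‖ ^ 4 := by
    rw [← nsmul_eq_mul, ← sum_const]
    have hinj : Set.InjOn (fun x : ℕ => (x : ℤ)) (badx P K w η X : Set ℕ) :=
      fun a _ b _ h => Int.ofNat_injective h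
    have h7 : ∑ x ∈ badx P K w η X, ((1 : ℝ) / 2 * (η / 2) ^ 4) ≤
        ∑ x ∈ (badx P K w η X).image (fun x : ℕ => (x : ℤ)), (1 - |(x : ℝ)| / (2 * X : ℕ)) *
        ∑ j ∈ range J, ‖SF P K w (j / J) x‖ ^ 4 := by
      rw [sum_image hinj]
      refine sum_le_sum fun x hx => ?_
      refine mul_le_mul ?_ (Bad_one hK hJ hη hb hm hbJ hx) (by positivity) ?_
      · have hx1 : (x : ℝ) < X := by exact_mod_cast mem_range.1 (mem_filter.1 hx).1
        have hx2 : |(((x : ℤ)) : ℝ)| / (2 * X : ℕ) ≤ 1 / 2 := by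
          rw [div_le_iff₀ (by push_cast; positivity)]
          push_cast
          rw [Nat.abs_cast]
          linarith
        linarith
      · have hx1 : (x : ℝ) < X := by exact_mod_cast mem_range.1 (mem_filter.1 hx).1
        have hx2 : |(((x : ℤ)) : ℝ)| / (2 * X : ℕ) ≤ 1 / 2 := by
          rw [div_le_iff₀ (by push_cast; positivity)]
          push_cast
          rw [Nat.abs_cast]
          linarith
        linarith
    refine h7.trans (sum_le_sum_of_subset_of_nonneg ?_ ?_)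
    · intro y hy
      obtain ⟨x, hx, rfl⟩ := mem_image.1 hy
      have hx1 := mem_range.1 (mem_filter.1 hx).1
      rw [mem_Ioo]
      constructor
      · have : (0 : ℤ) ≤ (x : ℤ) := Int.natCast_nonneg x
        push_cast
        omega
      · push_cast
        omega
    · intro y hy _
      have hy1 := mem_Ioo.1 hy
      refine mul_nonneg ?_ (sum_nonneg fun _ _ => by positivity)
      have h8 : |(y : ℝ)| ≤ (2 * X : ℕ) := by
        rw [abs_le]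
        constructor
        · have := hy1.1.le
          exact_mod_cast this
        · have := hy1.2.le
          exact_mod_cast this
      have h9 : |(y : ℝ)| / (2 * X : ℕ) ≤ 1 := (div_le_one (by push_cast; positivity)).2 h8
      linarith
  have h8 := h6.trans (h4.trans h5)
  calc ((badx P K w η X).card : ℝ) * η ^ 4
      = 32 * (((badx P K w η X).card : ℝ) * ((1 / 2) * (η / 2) ^ 4)) := by ring
    _ ≤ 32 * (2 * C * k ^ 4 * J * K ^ 3 * X * ((q + q ^ 2 + 1 / K) * (Nat.log 2 (2 * X) + 1) ^ 2)) :=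
        mul_le_mul_of_nonneg_left h8 (by norm_num)
    _ = 64 * C * k ^ 4 * J * K ^ 3 * X * ((q + q ^ 2 + 1 / K) * (Nat.log 2 (2 * X) + 1) ^ 2) := by ring

end Pool.Agent.H56.TI2

end
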