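import Pool.Agent.H43.PJ.H91.TQ.SwQ
import Pool.Agent.H43.PJ.M70
import Pool.Agent.H43.PJ.M83

/-! The parts of this file: H46.TPQ.CertFin2, H91.TQ.KStepQ. -/

section

/-!
# TPQ CertFin2: `CERT θ (1/100) 3` from the black boxes `LINg` (LFU), `EGM2` (y, z), `HUX` (primes), `MASS8` (masses), version 2
-/

set_option autoImplicit false

namespace Pool.Agent.H46.TPQ

open Finset
open Pool.Agent.H91.PK (ee)
open Pool.Agent.H91.EHA (Lam lamR)
open Pool.Agent.H43.MP (blk Hn idx Rn HUX)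
open Pool.Agent.H43.TP (rf badF pr)
open Pool.Agent.H43.TS (badM CERT badM_lfu badM_pr)
open Pool.Agent.H31.EQ (gam)
open Pool.Agent.H53.MID (VKp)
open Pool.Agent.H76.TP (yN zz rg bf kap kapA Ap AA Z2 Z3 PY)
open Pool.Agent.H91.TQ (om bq kapF Fq sqp Lev)

/-- the WD black box for the `yy0`, `zz0` (from helper31's `eq2`) -/
def EGM2 (θ : ℝ) : Prop := ∀ e1 : ℝ, 0 < e1 → e1 ≤ 1 / 100 → ∀ A B : ℕ, ∃ A0 : ℕ, ∀ A1 : ℕ, A0 ≤ A1 → ∃ N0 : ℕ, ∀ N : ℕ, N0 ≤ N →
  ∀ J J1 : ℕ, LevR N (yN e1 N) J J1 →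
    ((badM N (Hn θ N) (Rn B N) 4 (yy0 (yN e1 N) J J1)
      (fun i => gam (yy0 (yN e1 N) J J1) ⌊(N : ℝ) / Real.log N ^ A1⌋₊ (i * Hn θ N))).card : ℝ) ≤ (N : ℝ) / Real.log N ^ A ∧
    ((badM N (Hn θ N) (Rn B N) 4 (zz0 (yN e1 N) J J1)
      (fun i => gam (zz0 (yN e1 N) J J1) ⌊(N : ℝ) / Real.log N ^ A1⌋₊ (i * Hn θ N))).card : ℝ) ≤ (N : ℝ) / Real.log N ^ A

theorem fY_le (k : ℕ) : |fY k| ≤ 2 := by
  unfold fY
  split_ifs <;> norm_num [abs_of_nonneg, abs_of_neg]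

theorem fZ_le (k : ℕ) : |fZ k| ≤ 1 := by
  unfold fZ
  split_ifs <;> norm_num [abs_of_nonneg, abs_of_neg]

/-- the coefficients of `Y1, Y2, Y3` in `pr, R0, yy0, R1, DD, zz0` -/
noncomputable def cZ : Fin 3 → Fin 6 → ℝ :=
  ![![1, -(1 / 2), 1 / 2, 0, -4, 0], ![-(2 / 3), 1 / 6, 0, 0, 0, 1 / 2], ![0, 0, 0, 0, -1, 0]]

private theorem CertFin2_abs (j : Fin 3) : ∑ a, |cZ j a| ≤ 34 := by
  fin_cases j <;> simp [cZ, Fin.sum_univ_six] <;> norm_num [abs_of_nonneg, abs_of_neg]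

private theorem CertFin2_sq (j : Fin 3) : ∑ a, cZ j a ^ 2 ≤ 1000 := by
  fin_cases j <;> simp [cZ, Fin.sum_univ_six] <;> norm_num

private theorem CertFin2_sm (s : Finset ℕ) (G : Fin 6 → ℕ → ℝ) (j : Fin 3) (K : ℝ)
    (h : ∀ a, ∑ m ∈ s, G a m ^ 2 ≤ K) : ∑ m ∈ s, (∑ a, cZ j a * G a m) ^ 2 ≤ 6000 * K := by
  calc ∑ m ∈ s, (∑ a, cZ j a * G a m) ^ 2 ≤ ∑ m ∈ s, 1000 * ∑ a, G a m ^ 2 := by
        refine sum_le_sum fun m _ => ?_
        refine (Finset.sum_mul_sq_le_sq_mul_sq univ (cZ j) (fun a => G a m)).trans ?_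
        exact mul_le_mul_of_nonneg_right (CertFin2_sq j) (sum_nonneg fun a _ => sq_nonneg _)
    _ = 1000 * ∑ a, ∑ m ∈ s, G a m ^ 2 := by rw [← mul_sum, sum_comm]
    _ ≤ 1000 * ∑ _a : Fin 6, K := mul_le_mul_of_nonneg_left (sum_le_sum fun a _ => h a) (by norm_num)
    _ = 6000 * K := by
        rw [sum_const, card_univ, Fintype.card_fin, nsmul_eq_mul]
        push_cast
        ring

theorem cert_fin2 (θ θ' : ℝ) (h0 : 0 < θ') (h01 : θ' < θ) (h1 : θ < 1 / 3) (hx : HUX θ') (hL : LINg θ (2082 / 10000) (2083 / 10000) (3540 / 10000) (3541 / 10000)) (hE : EGM2 θ)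
    (hM : MASS8) : CERT θ (1 / 100) 3 := by
  classical
  have h0θ : 0 < θ := h0.trans h01
  obtain ⟨e1, he1, he1', C, hL⟩ := hL (1 / 10 ^ 7) (by norm_num)
  refine ⟨C + 2, fun A => ?_⟩
  obtain ⟨B, N1, hL⟩ := hL (A + 20)
  obtain ⟨A0, hE⟩ := hE e1 he1 he1' (A + 1) B
  obtain ⟨N2, hE⟩ := hE (max A0 10) (le_max_left _ _)
  obtain ⟨N3, hM⟩ := hM e1 (max A0 10) he1 he1' (le_max_right _ _)
  obtain ⟨N4, hP⟩ := badM_pr θ θ' h0 h01 h1 hx (A + 1) B 4
  obtain ⟨N5, hC⟩ := cert_pt2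
  obtain ⟨N6, hev⟩ := Pool.Agent.H43.TP.ev_large θ 1 h0θ h1 one_pos le_rfl B
  obtain ⟨N7, hlam⟩ := Pool.Agent.H43.TP.lamR_blk B
  obtain ⟨N8, hlog⟩ := Pool.Agent.H76.GB.log_pow_le θ 4 h0θ (by norm_num) (4 * B + 5)
  obtain ⟨N9, hlarge⟩ := cert_large2
  refine ⟨B, max (max (max N1 N2) (max N3 N4)) (max (max N5 N6) (max (max N7 N8) N9)), fun N hN => ?_⟩
  simp only [max_le_iff] at hN
  obtain ⟨⟨⟨hn1, hn2⟩, hn3, hn4⟩, ⟨hn5, hn6⟩, ⟨hn7, hn8⟩, hn9⟩ := hN
  obtain ⟨J, J1, S, T, kS, kT, hLev, hSv, hsq, hst, hb0, hb1, hbD⟩ := hL N hn1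
  obtain ⟨hE1, hE2⟩ := hE N hn2 J J1 hLev
  replace hM := hM N hn3 J J1 S T kS kT hLev hSv
  replace hP := hP N hn4
  replace hC := hC N hn5 (yN e1 N) J J1 S T hLev hSv.1
  obtain ⟨f1, f2, f3, f4, f5, f6, f7, f8, -, -, -⟩ := hev N hn6
  replace hlam := hlam N hn7
  replace hlog := hlog N hn8
  obtain ⟨l1, l2, l3⟩ := hlarge N hn9
  rw [one_mul] at f1
  set L := Real.log N with hLdef
  set H := Hn θ N with hHdef
  set R := Rn B N with hRdef
  set y := yN e1 N with hy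
  set H1 := ⌊(N : ℝ) / L ^ (max A0 10)⌋₊ with hH1
  have hL0 : 0 < L := by linarith only [he1, he1', f1]
  have hL1 : 1 ≤ L := by linarith only [he1, he1', f1]
  have hNpos : (0 : ℝ) < N := by exact_mod_cast l1
  have hH0 : (0 : ℝ) < H := by exact_mod_cast f3
  -- the range of the blocks
  have hq4 : 8 ≤ N / H := by
    rw [Nat.le_div_iff_mul_le (by omega)]
    omega
  have hup : ∀ i ∈ idx N H, (i + 1) * H ≤ 4 * N := by
    intro i hi
    unfold idx at hi
    rw [mem_Icc] at hi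
    have t1 : (i + 1) * H ≤ (3 * N / H + 1) * H := Nat.mul_le_mul_right _ (by omega)
    have t2 : 3 * N / H * H ≤ 3 * N := Nat.div_mul_le_self _ _
    nlinarith only [f3, f4, t1, t2]
  have hlo : ∀ i ∈ idx N H, N ≤ 4 * (i * H) := by
    intro i hi
    unfold idx at hi
    rw [mem_Icc] at hi
    have t1 : N / (2 * H) * H ≤ i * H := Nat.mul_le_mul_right _ hi.1
    have t2 := Nat.lt_mul_div_succ N (show 0 < 2 * H by omega)
    have t3 : 2 * H * (N / (2 * H) + 1) = 2 * (N / (2 * H) * H) + 2 * H := by ring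
    omega
  have hup' : ∀ i ∈ idx N H, i * H ≤ 4 * N := fun i hi =>
    (Nat.mul_le_mul_right _ (by omega)).trans (hup i hi)
  have hi1 : ∀ i ∈ idx N H, 1 ≤ i := by
    intro i hi
    have := hlo i hi
    rcases Nat.eq_zero_or_pos i with h | h
    · rw [h] at this
      omega
    · exact h
  -- the families
  set G : Fin 6 → ℕ → ℝ := ![pr, Ap S y J, yy0 y J J1, R1 S T y J J1, DD S T y J1, zz0 y J J1] with hG
  set g : Fin 6 → ℕ → ℝ := ![fun i => 1 / Real.log ((i * H : ℕ) : ℝ), fun i => kapA kS y J (i * H),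
    fun i => gam (yy0 y J J1) H1 (i * H), fun i => k1 kS kT y J J1 (i * H), fun _ => kS - kT,
    fun i => gam (zz0 y J J1) H1 (i * H)] with hg
  -- `kS - kT`
  have hkD : |kS - kT| ≤ 1 := by
    obtain ⟨-, -, -, s4, s5⟩ := hSv
    have s6 := s5 1 N le_rfl (by omega) (by
      calc (N : ℝ) ^ (1 / 4 : ℝ) ≤ (N : ℝ) ^ (1 : ℝ) :=
            Real.rpow_le_rpow_of_exponent_le (by exact_mod_cast l1) (by norm_num)
        _ = N := Real.rpow_one _)
    have s7 := (abs_le.1 s6.1).2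
    have s8 := (abs_le.1 s6.2).1
    rw [abs_of_nonneg (by linarith only [s4])]
    have s9 : (kS - kT) * N ≤ 2 * (1 / 10 ^ 7 * N / L) := by linarith only [s7, s8]
    have s10 : 2 * (1 / 10 ^ 7 * N / L) ≤ 1 * (N : ℝ) := by
      rw [show 2 * (1 / 10 ^ 7 * (N : ℝ) / L) = (2 / 10 ^ 7 / L) * N by ring]
      refine mul_le_mul_of_nonneg_right ?_ hNpos.le
      rw [div_le_iff₀ hL0]
      norm_num
      linarith only [he1, he1', f1]
    exact le_of_mul_le_mul_right (s9.trans s10) hNpos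
  -- monotonicity of the bounds
  have hmono : (N : ℝ) / H / L ^ (A + 20) ≤ N / H / L ^ A :=
    div_le_div_of_nonneg_left (by positivity) (by positivity) (pow_le_pow_right₀ hL1 (by omega))
  have hstm : 1 / L ^ (A + 20) ≤ 1 / L ^ A :=
    div_le_div_of_nonneg_left (by norm_num) (by positivity) (pow_le_pow_right₀ hL1 (by omega))
  have hR5 : 2 * (R : ℝ) ^ 4 ≤ H / L ^ (4 + 1) := by
    rw [le_div_iff₀ (by positivity)]
    have t1 : (R : ℝ) ^ 4 ≤ (L ^ B) ^ 4 := pow_le_pow_left₀ (Nat.cast_nonneg _) f8 4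
    have t2 : (L ^ B) ^ 4 * L ^ (4 + 1) = L ^ (4 * B + 5) := by
      rw [← pow_mul, ← pow_add]
      congr 1
      ring
    calc 2 * (R : ℝ) ^ 4 * L ^ (4 + 1) ≤ 2 * ((L ^ B) ^ 4 * L ^ (4 + 1)) := by
          have := mul_le_mul_of_nonneg_right t1 (show 0 ≤ L ^ (4 + 1) by positivity)
          linarith only [this]
      _ = 4 * L ^ (4 * B + 5) / 2 := by rw [t2]; ring
      _ ≤ (N : ℝ) ^ θ / 2 := by linarith only [hlog]
      _ ≤ H := f2
  -- the bad sets
  have hlam' : ∀ i ∈ idx N H, ∑ m ∈ blk H i, lamR R m ^ 2 ≤ H * L ^ 2 := fun i hi => hlam H i (hi1 i hi) f5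
  have hk0 : ∀ i ∈ idx N H, |kapA kS y J (i * H)| ≤ 1 := fun i hi => (hM (i * H) (hlo i hi) (hup' i hi)).1
  have hk1 : ∀ i ∈ idx N H, |k1 kS kT y J J1 (i * H)| ≤ 1 := fun i hi => (hM (i * H) (hlo i hi) (hup' i hi)).2.1
  have hbM : ∀ a : Fin 6, ((badM N H R 4 (G a) (g a)).card : ℝ) ≤ N / L ^ (A + 1) := by
    intro a
    fin_cases a
    · exact hP
    · exact badM_lfu (A' := A + 20) f1 f3 f4 (by omega) hR5 hk0 hlam' (fun i hi hi' => (hst i hi hi').1) hb0
    · exact hE1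
    · exact badM_lfu (A' := A + 20) f1 f3 f4 (by omega) hR5 hk1 hlam' (fun i hi hi' => (hst i hi hi').2) hb1
    · exact badM_lfu (A' := A + 20) f1 f3 f4 (by omega) hR5 (fun i _ => hkD) hlam'
        (fun i _ _ => by
          show |(kS - kT) - (kS - kT)| ≤ 1 / L ^ (A + 20)
          rw [sub_self, abs_zero]
          positivity) hbD
    · exact hE2
  refine ⟨![Ap S y J, R1 S T y J J1, DD S T y J1], fun j m => ∑ a, cZ j a * G a m,
    ![fun i => kapA kS y J (i * H), fun i => k1 kS kT y J J1 (i * H), fun _ => kS - kT],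
    fun j i => ∑ a, cZ j a * g a i, ?_, ?_, ?_, ?_, ?_, ?_, ?_⟩
  · intro u v hu1 hu2 hv1 hv2
    have := hC u v hu1 hu2 hv1 hv2
    simp only [Fin.sum_univ_three, Fin.sum_univ_six, cZ, hG]
    simp only [Matrix.cons_val]
    linarith only [this]
  · intro j i hi
    fin_cases j
    · exact hk0 i hi
    · exact hk1 i hi
    · exact hkD
  · intro j i hi
    have hLC : 1 ≤ L ^ C := one_le_pow₀ hL1
    have hHC : (H : ℝ) ≤ H * L ^ C := le_mul_of_one_le_right hH0.le hLC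
    have hr : ∀ m ∈ blk H i, 1 ≤ m ∧ m ≤ 16 * N := by
      intro m hm
      unfold blk at hm
      rw [mem_Ico] at hm
      have := hlo i hi
      have := hup i hi
      constructor <;> omega
    -- the second moments of the six functions
    have hsm : ∀ a : Fin 6, ∑ m ∈ blk H i, G a m ^ 2 ≤ 9 * (H * L ^ C) := by
      intro a
      have bd : ∀ (f : ℕ → ℝ), (∀ m ∈ blk H i, |f m| ≤ 3) → ∑ m ∈ blk H i, f m ^ 2 ≤ 9 * (H * L ^ C) := by
        intro f hf
        have t1 : ∑ m ∈ blk H i, f m ^ 2 ≤ ∑ m ∈ blk H i, (9 : ℝ) := by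
          refine sum_le_sum fun m hm => ?_
          have t2 := abs_le.1 (hf m hm)
          nlinarith only [he1, he1', t2]
        rw [sum_const, Pool.Agent.H43.TP.blk_card, nsmul_eq_mul] at t1
        linarith only [hHC, t1]
      have hHC0 : 0 ≤ (H : ℝ) * L ^ C := by positivity
      fin_cases a
      · refine bd _ fun m _ => ?_
        show |pr m| ≤ 3
        unfold pr
        split_ifs <;> norm_num
      · exact (hsq i hi).1.trans (by linarith only [hH0, hHC])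
      · refine bd _ fun m hm => ?_
        show |yy0 y J J1 m| ≤ 3
        have t5 := fY_le (om y J J1 m)
        unfold yy0
        rcases rg_zero_or_one (zz y J) m with h | h <;> rw [h]
        · norm_num
        · rw [one_mul]
          linarith only [he1, he1', t5]
      · exact (hsq i hi).2.1.trans (by linarith only [hH0, hHC])
      · exact (hsq i hi).2.2.trans (by linarith only [hH0, hHC])
      · refine bd _ fun m hm => ?_
        show |zz0 y J J1 m| ≤ 3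
        have t5 := fZ_le (om y J J1 m)
        unfold zz0
        rcases rg_zero_or_one (zz y J) m with h | h <;> rw [h]
        · norm_num
        · rw [one_mul]
          linarith only [he1, he1', t5]
    refine (CertFin2_sm (blk H i) G j (9 * (H * L ^ C)) hsm).trans ?_
    rw [pow_add]
    have t1 : (54000 : ℝ) ≤ L ^ 2 := by nlinarith only [f1]
    have t2 : 0 ≤ (H : ℝ) * L ^ C := by positivity
    nlinarith only [t1, he1, he1', hHC]
  · intro j i hi hi'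
    fin_cases j
    · exact ((hst i hi hi').1).trans hstm
    · exact ((hst i hi hi').2).trans hstm
    · show |(kS - kT) - (kS - kT)| ≤ 1 / L ^ A
      rw [sub_self, abs_zero]
      positivity
  · intro j
    fin_cases j
    · exact (Nat.cast_le.2 (card_le_card (badF_mono hL1 (by omega)))).trans (hb0.trans hmono)
    · exact (Nat.cast_le.2 (card_le_card (badF_mono hL1 (by omega)))).trans (hb1.trans hmono)
    · exact (Nat.cast_le.2 (card_le_card (badF_mono hL1 (by omega)))).trans (hbD.trans hmono)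
  · intro j
    have t1 := badM_sum (univ : Finset (Fin 6)) N H R 3 (cZ j) G g hL0 ((CertFin2_abs j).trans (by linarith only [he1, he1', f1]))
    have t2 : ((badM N H R 3 (fun m => ∑ a, cZ j a * G a m) (fun i => ∑ a, cZ j a * g a i)).card : ℝ) ≤
        ∑ a : Fin 6, ((badM N H R 4 (G a) (g a)).card : ℝ) := by
      have := (card_le_card t1).trans card_biUnion_le
      exact_mod_cast this
    refine t2.trans ((sum_le_sum fun a _ => hbM a).trans ?_)
    rw [sum_const, card_univ, Fintype.card_fin, nsmul_eq_mul, pow_succ, ← div_div, mul_div_assoc', div_le_iff₀ hL0]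
    push_cast
    have : 0 ≤ (N : ℝ) / L ^ A := by positivity
    nlinarith only [this, he1, he1', f1]
  · intro i hi
    have := (hM (i * H) (hlo i hi) (hup' i hi)).2.2
    simp only [Fin.sum_univ_three, Fin.sum_univ_six, cZ, hg]
    simp only [Matrix.cons_val]
    unfold MM2 at this
    linarith only [this]

theorem egm2 (hVK : VKp) (θ : ℝ) (h1 : 5 / 24 ≤ θ) (h2 : θ ≤ 7 / 24) : EGM2 θ := by
  intro e1 _ _ A B
  have he : ∀ k : ℕ, |fY (1 + k)| ≤ 1 + (k : ℝ) := by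
    intro k
    have hk : (0 : ℝ) ≤ k := Nat.cast_nonneg k
    rcases Nat.eq_zero_or_pos k with h | h
    · subst h
      norm_num [fY]
    · have h3 : (1 : ℝ) ≤ k := by exact_mod_cast h
      linarith only [h3, fY_le (1 + k)]
  have hg : ∀ k : ℕ, |fZ (1 + k)| ≤ 1 + (k : ℝ) := by
    intro k
    have hk : (0 : ℝ) ≤ k := Nat.cast_nonneg k
    linarith only [fZ_le (1 + k)]
  obtain ⟨A0, hA0⟩ := egm_phi hVK θ (8 / 1000) (2082 / 10000) (3541 / 10000) (by norm_num) (by linarith) (by linarith)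
    (by norm_num) (by linarith) fY (by norm_num [fY]) he (fun k _ => by linarith [fY_le k]) A B 4
  obtain ⟨A0', hA0'⟩ := egm_phi hVK θ (8 / 1000) (2082 / 10000) (3541 / 10000) (by norm_num) (by linarith) (by linarith)
    (by norm_num) (by linarith) fZ (by norm_num [fZ]) hg (fun k _ => by linarith [fZ_le k]) A B 4
  refine ⟨max A0 A0', fun A1 hA1 => ?_⟩
  obtain ⟨N1, hN1⟩ := hA0 A1 ((le_max_left _ _).trans hA1)
  obtain ⟨N2, hN2⟩ := hA0' A1 ((le_max_right _ _).trans hA1)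
  refine ⟨max N1 N2, fun N hN J J1 hL => ?_⟩
  obtain ⟨l1, l2, -, -, l5⟩ := hL
  exact ⟨hN1 N ((le_max_left _ _).trans hN) _ J J1 l1 l2 l5, hN2 N ((le_max_right _ _).trans hN) _ J J1 l1 l2 l5⟩

end Pool.Agent.H46.TPQ

end

section

/-!
# TQ KStepQ: the density `kapF` changes slowly (compare `H76/TP/KStep.lean`)

`kapF x' - kapF x = -∑_{j<J} ∑_{p ∈ pb P_j} (kq(x'/p) - kq(x/p))/p`, the `p` are distinct, `p ≤ z ≤ N^(27/100)`; `x/p ≥ 1`, `x'/p - x/p ≤ (x'-x)/p + 1` (natural division), `x/p ≥ x/(2p)`: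
`lip_q`: `|kq(x'/p) - kq(x/p)|/p ≤ L² ((x'-x)/p + 1 + N^(3/5)) 2/x ≤ 16 L² (N^(1/2) + 1 + N^(3/5))/N`; the sum over `p ≤ z` is `≤ 16 L² N^(27/100) 3 N^(3/5)/N ≤ 1/L^A`.
-/

set_option autoImplicit false

namespace Pool.Agent.H91.TQ

open Finset
open Pool.Agent.H35.W (pb)
open Pool.Agent.H76.TP

/-- the bound of one term -/
private theorem kStepQ_term (f : ℕ → ℝ) (x x' p : ℕ) (D C S : ℝ) (hp : 1 ≤ p) (hpx : p ≤ x)
    (hxx : x ≤ x') (hD : (x' : ℝ) ≤ x + D) (hC : 0 ≤ C) (hS : 0 ≤ S)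
    (hf : ∀ u u' : ℕ, 1 ≤ u → u ≤ u' → |f u' - f u| ≤ C * (((u' : ℝ) - u) + S) / u) :
    |f (x' / p) / p - f (x / p) / p| ≤ C * (2 * (D + 1 + S)) / x := by
  have hx0 : (0 : ℝ) < x := by
    have : 0 < x := by omega
    exact_mod_cast this
  have hp0 : (0 : ℝ) < p := by exact_mod_cast hp
  have hp1 : (1 : ℝ) ≤ p := by exact_mod_cast hp
  have h1' : 1 ≤ x / p := by
    rw [Nat.le_div_iff_mul_le (by omega)]
    omega
  have hdd : x / p ≤ x' / p := Nat.div_le_div_right hxx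
  have hl := hf (x / p) (x' / p) h1' hdd
  have hD0 : 0 ≤ D := by
    have : (x : ℝ) ≤ x' := by exact_mod_cast hxx
    linarith
  -- natural division against real division
  have e1 : ((x' / p : ℕ) : ℝ) ≤ (x' : ℝ) / p := Nat.cast_div_le
  have e2 : (x : ℝ) / p ≤ ((x / p : ℕ) : ℝ) + 1 := by
    have := Nat.lt_floor_add_one ((x : ℝ) / (p : ℝ))
    rw [Nat.floor_div_eq_div] at this
    exact this.le
  have e3 : (x : ℝ) / (2 * p) ≤ ((x / p : ℕ) : ℝ) := by
    have h1 : (1 : ℝ) ≤ ((x / p : ℕ) : ℝ) := by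
      exact_mod_cast h1'
    have h2 : (x : ℝ) / (2 * p) = ((x : ℝ) / p) / 2 := by
      field_simp
    rw [h2]
    linarith
  have e4 : ((x' / p : ℕ) : ℝ) - ((x / p : ℕ) : ℝ) ≤ D + 1 := by
    have h1 : (x' : ℝ) / p ≤ (x : ℝ) / p + D := by
      rw [div_le_iff₀ hp0]
      have h2 : ((x : ℝ) / p + D) * p = x + D * p := by
        field_simp
      rw [h2]
      nlinarith
    linarith
  have e6 : C * ((((x' / p : ℕ) : ℝ) - ((x / p : ℕ) : ℝ)) + S) / ((x / p : ℕ) : ℝ)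
      ≤ C * (D + 1 + S) / ((x : ℝ) / (2 * p)) := by
    have hpos : (0 : ℝ) < (x : ℝ) / (2 * p) := by positivity
    gcongr
  have e7 : C * (D + 1 + S) / ((x : ℝ) / (2 * p)) = C * (2 * (D + 1 + S)) / x * p := by
    field_simp
  have e8 : |f (x' / p) - f (x / p)| ≤ C * (2 * (D + 1 + S)) / x * p :=
    (hl.trans e6).trans e7.le
  rw [← sub_div, abs_div, abs_of_pos hp0, div_le_iff₀ hp0]
  exact e8

/-- the sum of the lengths of the blocks -/
private theorem kStepQ_geom (J y : ℕ) : ∑ j ∈ range J, 2 ^ j * y ≤ 2 ^ J * y := by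
  induction J with
  | zero => simp
  | succ n ih =>
      rw [sum_range_succ, pow_succ]
      have : 2 ^ n * 2 * y = 2 ^ n * y + 2 ^ n * y := by ring
      omega

private theorem kStepQ_bound (y J J1 x x' : ℕ) (kS kT D C S : ℝ) (hzx : zz y J ≤ x)
    (hxx : x ≤ x') (hD : (x' : ℝ) ≤ x + D) (hC : 0 ≤ C) (hS : 0 ≤ S)
    (hf : ∀ u u' : ℕ, 1 ≤ u → u ≤ u' → |kq y J J1 u' - kq y J J1 u| ≤ C * (((u' : ℝ) - u) + S) / u) :
    |kapF kS kT y J J1 x' - kapF kS kT y J J1 x| ≤ zz y J * (C * (2 * (D + 1 + S)) / x) := by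
  have hD0 : 0 ≤ D := by
    have : (x : ℝ) ≤ x' := by exact_mod_cast hxx
    linarith
  have e0 : kapF kS kT y J J1 x' - kapF kS kT y J J1 x
      = -∑ j ∈ range J, ∑ p ∈ pb (2 ^ j * y),
        (kq y J J1 (x' / p) / p - kq y J J1 (x / p) / p) := by
    unfold kapF WQ
    simp only [sum_sub_distrib]
    ring
  rw [e0, abs_neg]
  set K : ℝ := C * (2 * (D + 1 + S)) / x with hK
  have hK0 : 0 ≤ K := by
    rw [hK]
    positivity
  have e1 : ∀ j ∈ range J, |∑ p ∈ pb (2 ^ j * y),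
        (kq y J J1 (x' / p) / p - kq y J J1 (x / p) / p)| ≤ ((2 ^ j * y : ℕ) : ℝ) * K := by
    intro j hj
    rw [mem_range] at hj
    have hsub : pb (2 ^ j * y) ⊆ Ioc (2 ^ j * y) (2 * (2 ^ j * y)) := by
      intro p hp
      unfold pb at hp
      simp only [mem_filter, mem_Ioc] at hp ⊢
      exact hp.1
    have hcard : (pb (2 ^ j * y)).card ≤ 2 ^ j * y := by
      refine (card_le_card hsub).trans ?_
      rw [Nat.card_Ioc]
      omega
    have hle : 2 * (2 ^ j * y) ≤ zz y J := by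
      unfold zz
      have h1 : 2 ^ (j + 1) ≤ 2 ^ J := Nat.pow_le_pow_right (by norm_num) hj
      calc 2 * (2 ^ j * y) = 2 ^ (j + 1) * y := by ring
        _ ≤ 2 ^ J * y := Nat.mul_le_mul_right _ h1
    refine (abs_sum_le_sum_abs _ _).trans ?_
    have hterm : ∀ p ∈ pb (2 ^ j * y),
        |kq y J J1 (x' / p) / p - kq y J J1 (x / p) / p| ≤ K := by
      intro p hp
      have h1 := hsub hp
      rw [mem_Ioc] at h1
      have hpz : p ≤ zz y J := h1.2.trans hle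
      exact kStepQ_term (kq y J J1) x x' p D C S (by omega) (hpz.trans hzx) hxx hD hC hS hf
    refine (sum_le_card_nsmul _ _ _ hterm).trans ?_
    rw [nsmul_eq_mul]
    have : ((pb (2 ^ j * y)).card : ℝ) ≤ ((2 ^ j * y : ℕ) : ℝ) := by
      exact_mod_cast hcard
    gcongr
  refine (abs_sum_le_sum_abs _ _).trans ?_
  refine (sum_le_sum e1).trans ?_
  rw [← sum_mul]
  have h2 : (∑ j ∈ range J, ((2 ^ j * y : ℕ) : ℝ)) ≤ (zz y J : ℝ) := by
    unfold zz
    have := kStepQ_geom J y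
    exact_mod_cast this
  gcongr

theorem kstep_q (e1 ζ' ζ κ' κ : ℝ) (hP : Par e1 ζ' ζ κ' κ) (A : ℕ) : ∃ N0 : ℕ, ∀ N : ℕ, N0 ≤ N →
    ∀ (J J1 x x' : ℕ) (kS kT : ℝ), Lev ζ' ζ κ' κ N (yN e1 N) J J1 →
      N ≤ 8 * x → x ≤ x' → (x' : ℝ) ≤ x + (N : ℝ) ^ (1 / 2 : ℝ) →
      |kapF kS kT (yN e1 N) J J1 x' - kapF kS kT (yN e1 N) J J1 x| ≤ 1 / Real.log N ^ A := by
  obtain ⟨N1, hN1'⟩ := lip_q e1 ζ' ζ κ' κ hP
  obtain ⟨-, -, -, -, hζ27, -, -, -⟩ := hP
  -- the threshold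
  have hlo : (fun t : ℝ => Real.log t ^ ((A + 2 : ℕ) : ℝ)) =o[Filter.atTop] fun t => t ^ (13 / 100 : ℝ) :=
    isLittleO_log_rpow_rpow_atTop _ (by norm_num)
  have hlo2 : Filter.Tendsto (fun t : ℝ => t ^ (73 / 100 : ℝ)) Filter.atTop Filter.atTop :=
    tendsto_rpow_atTop (by norm_num)
  have hev := ((hlo.bound (show (0 : ℝ) < 1 / 48 by norm_num)).and
    (Filter.eventually_ge_atTop (1000 : ℝ))).and (hlo2.eventually_ge_atTop (8 : ℝ))
  obtain ⟨T, hT⟩ := Filter.eventually_atTop.1 hev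
  refine ⟨⌈T⌉₊ + 1000 + N1, ?_⟩
  intro N hN J J1 x x' kS kT hLev hx hxx hD
  have hNT : T ≤ (N : ℝ) := by
    refine (Nat.le_ceil T).trans ?_
    exact_mod_cast (by omega : ⌈T⌉₊ ≤ N)
  obtain ⟨⟨hlog, hN1000⟩, hN73⟩ := hT N hNT
  obtain ⟨-, hlip⟩ := hN1' N (by omega) J J1 hLev
  have hz : (zz (yN e1 N) J : ℝ) ≤ (N : ℝ) ^ ζ := hLev.2.2.1
  have hN0 : (0 : ℝ) < N := by linarith
  have hN1 : (1 : ℝ) ≤ N := by linarith
  have hlogpos : 0 < Real.log N := Real.log_pos (by linarith)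
  set y := yN e1 N with hydef
  set z := zz y J with hzdef
  set c : ℝ := (N : ℝ) ^ (27 / 100 : ℝ) with hc
  have hz3 : (z : ℝ) ≤ c :=
    hz.trans (Real.rpow_le_rpow_of_exponent_le hN1 hζ27.le)
  have hc0 : 0 < c := Real.rpow_pos_of_pos hN0 _
  have hx8 : (N : ℝ) ≤ 8 * x := by exact_mod_cast hx
  have hz0 : (0 : ℝ) ≤ z := Nat.cast_nonneg _
  have hc73 : c * (N : ℝ) ^ (73 / 100 : ℝ) = N := by
    rw [hc, ← Real.rpow_add hN0]
    norm_num
  have hzx : z ≤ x := by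
    have h : (z : ℝ) ≤ x := by
      have h8 : c * 8 ≤ N := by
        rw [← hc73]
        gcongr
      linarith
    exact_mod_cast h
  set s : ℝ := (N : ℝ) ^ (1 / 2 : ℝ) with hs
  set S : ℝ := (N : ℝ) ^ (3 / 5 : ℝ) with hSdef
  have hs0 : 0 < s := Real.rpow_pos_of_pos hN0 _
  have hS0 : 0 < S := Real.rpow_pos_of_pos hN0 _
  have hb := kStepQ_bound y J J1 x x' kS kT s (Real.log N ^ 2) S hzx hxx hD (by positivity) hS0.le
    (fun u u' hu huu => hlip u u' hu huu)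
  refine hb.trans ?_
  -- the final numerical comparison
  have hsS : s ≤ S := Real.rpow_le_rpow_of_exponent_le hN1 (by norm_num)
  have h1S : 1 ≤ S := Real.one_le_rpow hN1 (by norm_num)
  set w : ℝ := (N : ℝ) ^ (13 / 100 : ℝ) with hw
  have hw0 : 0 < w := Real.rpow_pos_of_pos hN0 _
  have hcSw : c * S * w = N := by
    rw [hc, hSdef, hw, ← Real.rpow_add hN0, ← Real.rpow_add hN0]
    norm_num
  have hx0 : (0 : ℝ) < x := by linarith
  have hL : Real.log N ^ (A + 2) ≤ 1 / 48 * w := by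
    have h1 : Real.log N ^ ((A + 2 : ℕ) : ℝ) = Real.log N ^ (A + 2) := Real.rpow_natCast _ _
    rw [h1] at hlog
    rw [Real.norm_of_nonneg (by positivity), Real.norm_of_nonneg hw0.le] at hlog
    exact hlog
  have hLp : 0 < Real.log N ^ A := by positivity
  have step1 : (z : ℝ) * (Real.log N ^ 2 * (2 * (s + 1 + S)) / x) ≤
      c * (Real.log N ^ 2 * (2 * (3 * S)) / (N / 8)) := by
    have ha : (N : ℝ) / 8 ≤ x := by linarith
    have hb' : s + 1 + S ≤ 3 * S := by linarith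
    have hN8 : (0 : ℝ) < N / 8 := by linarith
    gcongr
  refine step1.trans ?_
  rw [show c * (Real.log N ^ 2 * (2 * (3 * S)) / ((N : ℝ) / 8)) = 48 * (c * S) * Real.log N ^ 2 / N by
    field_simp; ring]
  rw [div_le_div_iff₀ hN0 hLp]
  have h5 : 48 * (c * S) * Real.log N ^ 2 * Real.log N ^ A ≤ 48 * (c * S) * (1 / 48 * w) := by
    rw [mul_assoc (48 * (c * S)), ← pow_add, add_comm 2 A]
    gcongr
  have h6 : 48 * (c * S) * (1 / 48 * w) = N := by
    rw [← hcSw]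
    ring
  linarith

end Pool.Agent.H91.TQ

end
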