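import Pool.Agent.H43.PJ.M47
import Pool.Agent.H43.PJ.M65

/-! The parts of this file: H43.PX.NN, H43.PX.TBad, H76.BW.Sp. -/

section

/-!
# PX NN: equidistribution in blocks from windows, for nonnegative functions with a constant density

If the class sum over the block `[iH, (i+1)H)` is too large, then so are the class sums over all windows of length `H + h` containing the block;
if it is too small, then so are the class sums over all windows of length `H - h` contained in the block (`h = H/(16 L^(A+B))`).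
-/

set_option autoImplicit false

namespace Pool.Agent.H43.PX

open Finset
open Pool.Agent.H91.PK (ee)
open Pool.Agent.H91.EHA (Lam lamR ramS)
open Pool.Agent.H43.MP (blk Hn idx Rn)
open Pool.Agent.H43.TS (badQ)
open Pool.Agent.H31.EQ (WDx)

/-- the representative of `m` in `[1, r]` -/
private def NN_kap (r m : ℕ) : ℕ := if m % r = 0 then r else m % r

private theorem NN_kap_mem {r : ℕ} (hr : 1 ≤ r) (m : ℕ) : NN_kap r m ∈ Icc 1 r := by
  unfold NN_kap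
  have := Nat.mod_lt m (by omega : 0 < r)
  rw [mem_Icc]
  split_ifs <;> omega

private theorem NN_kap_eq {r : ℕ} {m c : ℕ} (hc : c ∈ Icc 1 r) :
    NN_kap r m = c ↔ m % r = c % r := by
  rw [mem_Icc] at hc
  unfold NN_kap
  rcases Nat.lt_or_ge c r with h | h
  · rw [Nat.mod_eq_of_lt h]
    split_ifs with h1
    · omega
    · rfl
  · have h2 : c = r := by omega
    rw [h2, Nat.mod_self]
    have := Nat.mod_lt m (by omega : 0 < r)
    split_ifs with h1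
    · simp [h1]
    · constructor
      · intro h3
        omega
      · intro h3
        exact absurd h3 h1

private theorem NN_ee_int (t : ℝ) (k : ℤ) : ee (t + k) = ee t := by
  unfold Pool.Agent.H91.PK.ee
  have e : 2 * Real.pi * ((t + k : ℝ) : ℂ) * Complex.I =
      2 * Real.pi * (t : ℂ) * Complex.I + k * (2 * Real.pi * Complex.I) := by
    push_cast
    ring
  rw [e, Complex.exp_add, Complex.exp_int_mul_two_pi_mul_I, mul_one]

private theorem NN_ee_norm (t : ℝ) : ‖ee t‖ = 1 := by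
  unfold Pool.Agent.H91.PK.ee
  have e : 2 * Real.pi * (t : ℂ) * Complex.I = ((2 * Real.pi * t : ℝ) : ℂ) * Complex.I := by
    push_cast
    ring
  rw [e, Complex.norm_exp_ofReal_mul_I]

private theorem NN_ee_neg (t : ℝ) : ee (-t) = (starRingEnd ℂ) (ee t) := by
  unfold Pool.Agent.H91.PK.ee
  rw [← Complex.exp_conj]
  congr 1
  simp only [map_mul, Complex.conj_ofReal, Complex.conj_I, map_ofNat]
  push_cast
  ring

private theorem NN_ee_mod {r m c : ℕ} (a : ℕ) (hr : 1 ≤ r) (h : m % r = c % r) :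
    ee (-((a : ℝ) * m / r)) = ee (-((a : ℝ) * c / r)) := by
  have hr0 : (r : ℝ) ≠ 0 := by exact_mod_cast (by omega : r ≠ 0)
  have h1 : (r : ℤ) ∣ (m : ℤ) - c := by
    have : c ≡ m [MOD r] := h.symm
    exact (Nat.modEq_iff_dvd.mp this)
  obtain ⟨k, hk⟩ := h1
  have h2 : (m : ℝ) = c + r * k := by
    have : ((m : ℤ) : ℝ) = ((c + r * k : ℤ) : ℝ) := by
      congr 1
      linarith only [hk]
    push_cast at this
    exact this
  have h3 : -((a : ℝ) * m / r) = -((a : ℝ) * c / r) + ((-(a * k) : ℤ) : ℝ) := by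
    rw [h2]
    push_cast
    field_simp
    ring
  rw [h3, NN_ee_int]

/-- the Ramanujan sum -/
private theorem NN_ram {a r : ℕ} (hr : 1 ≤ r) (har : Nat.Coprime a r) :
    ∑ c ∈ (Icc 1 r).filter (fun c => Nat.Coprime c r), ee (-((a : ℝ) * c / r)) =
      ((ArithmeticFunction.moebius r : ℝ) : ℂ) := by
  have h1 := Pool.Agent.H91.EHA.ramS_eq r a hr
  have h2 : ramS r a = (ArithmeticFunction.moebius r : ℝ) := by
    unfold Pool.Agent.H91.EHA.ramS
    rw [Nat.Coprime.gcd_eq_one har.symm]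
    simp
  rw [h2] at h1
  have h3 := congrArg (starRingEnd ℂ) h1
  rw [Complex.conj_ofReal, map_sum] at h3
  rw [h3]
  refine Finset.sum_congr rfl fun c _ => ?_
  rw [NN_ee_neg]

/-- the twist of a finite set, from the classes -/
private theorem NN_twist {S : Finset ℕ} {Y : ℕ → ℝ} {h : ℝ} {a r : ℕ} {ε : ℝ} (hr : 1 ≤ r) (har : Nat.Coprime a r)
    (hh : ∀ c ∈ Icc 1 r, |(∑ n ∈ S.filter (fun n => n % r = c % r), Y n)
          - (if Nat.Coprime c r then h / r.totient else 0)| ≤ ε) :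
    ‖∑ m ∈ S, ((Y m : ℝ) : ℂ) * ee (-((a : ℝ) * m / r))
      - (((ArithmeticFunction.moebius r : ℝ) / (r.totient : ℝ) * h : ℝ) : ℂ)‖ ≤ r * ε := by
  have h1 : ∑ m ∈ S, ((Y m : ℝ) : ℂ) * ee (-((a : ℝ) * m / r)) =
      ∑ c ∈ Icc 1 r, ee (-((a : ℝ) * c / r)) *
        ((∑ n ∈ S.filter (fun n => n % r = c % r), Y n : ℝ) : ℂ) := by
    rw [← Finset.sum_fiberwise_of_maps_to (s := S) (t := Icc 1 r) (g := NN_kap r)
      (fun m _ => NN_kap_mem hr m)]
    refine Finset.sum_congr rfl fun c hc => ?_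
    have e1 : S.filter (fun m => NN_kap r m = c) =
        S.filter (fun n => n % r = c % r) := by
      ext m
      simp only [Finset.mem_filter, NN_kap_eq hc]
    rw [e1]
    push_cast
    rw [Finset.mul_sum]
    refine Finset.sum_congr rfl fun m hm => ?_
    rw [NN_ee_mod a hr (Finset.mem_filter.mp hm).2]
    ring
  have h2 : (((ArithmeticFunction.moebius r : ℝ) / (r.totient : ℝ) * h : ℝ) : ℂ) =
      ∑ c ∈ Icc 1 r, ee (-((a : ℝ) * c / r)) *
        ((if Nat.Coprime c r then h / r.totient else 0 : ℝ) : ℂ) := by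
    have e1 : ∑ c ∈ Icc 1 r, ee (-((a : ℝ) * c / r)) *
        ((if Nat.Coprime c r then h / r.totient else 0 : ℝ) : ℂ) =
        ∑ c ∈ (Icc 1 r).filter (fun c => Nat.Coprime c r), ee (-((a : ℝ) * c / r)) *
          ((h / r.totient : ℝ) : ℂ) := by
      rw [Finset.sum_filter]
      refine Finset.sum_congr rfl fun c _ => ?_
      split_ifs <;> simp
    rw [e1, ← Finset.sum_mul, NN_ram hr har]
    push_cast
    ring
  rw [h1, h2, ← Finset.sum_sub_distrib]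
  calc ‖∑ c ∈ Icc 1 r, (ee (-((a : ℝ) * c / r)) *
        ((∑ n ∈ S.filter (fun n => n % r = c % r), Y n : ℝ) : ℂ) -
        ee (-((a : ℝ) * c / r)) *
        ((if Nat.Coprime c r then h / r.totient else 0 : ℝ) : ℂ))‖
      ≤ ∑ _c ∈ Icc 1 r, ε := by
        refine norm_sum_le_of_le _ fun c hc => ?_
        rw [← mul_sub, norm_mul, NN_ee_norm, one_mul, ← Complex.ofReal_sub, Complex.norm_real,
          Real.norm_eq_abs]
        exact hh c hc
    _ = r * ε := by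
        rw [Finset.sum_const, Nat.card_Icc, nsmul_eq_mul]
        congr 2

private theorem NN_union {B : ℕ} {L X : ℝ} (hL0 : 0 < L) (s : Finset ℕ)
    (bad : ℕ → ℕ → Finset ℕ) (A : ℕ) (hX : 0 ≤ X)
    (hsub : s ⊆ (Icc 1 ⌊L ^ B⌋₊ ×ˢ Icc 1 ⌊L ^ B⌋₊).biUnion (fun t => bad t.1 t.2))
    (hc1 : ∀ t ∈ Icc 1 ⌊L ^ B⌋₊ ×ˢ Icc 1 ⌊L ^ B⌋₊, ((bad t.1 t.2).card : ℝ) ≤ X / L ^ (A + 2 * B)) :
    (s.card : ℝ) ≤ X / L ^ A := by
  set R : ℕ := ⌊L ^ B⌋₊ with hR
  have hRle : (R : ℝ) ≤ L ^ B := Nat.floor_le (by positivity)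
  calc (s.card : ℝ) ≤
      (((Icc 1 R ×ˢ Icc 1 R).biUnion (fun t => bad t.1 t.2)).card : ℝ) := by
        exact_mod_cast Finset.card_le_card hsub
    _ ≤ ∑ t ∈ Icc 1 R ×ˢ Icc 1 R, ((bad t.1 t.2).card : ℝ) := by
        exact_mod_cast Finset.card_biUnion_le
    _ ≤ ∑ _t ∈ Icc 1 R ×ˢ Icc 1 R, X / L ^ (A + 2 * B) :=
        Finset.sum_le_sum hc1
    _ = (R : ℝ) * R * (X / L ^ (A + 2 * B)) := by
        rw [Finset.sum_const, Finset.card_product, Nat.card_Icc, nsmul_eq_mul]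
        push_cast
        simp
    _ ≤ L ^ B * L ^ B * (X / L ^ (A + 2 * B)) := by
        refine mul_le_mul_of_nonneg_right ?_ (by positivity)
        exact mul_le_mul hRle hRle (Nat.cast_nonneg _) (by positivity)
    _ = X / L ^ A := by
        rw [pow_add, two_mul, pow_add]
        field_simp

/-- the number of bad blocks from the mean square over the windows -/
private theorem NN_count (G : ℕ → ℝ) (hG : ∀ x, 0 ≤ G x) (bad : Finset ℕ) (H δ o K1 K2 : ℕ) {g : ℝ}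
    (hδ : δ < H) (hi : ∀ i ∈ bad, o ≤ i * H ∧ K1 ≤ i * H - o ∧ i * H - o + δ ≤ K2)
    (hb : ∀ i ∈ bad, ∀ j ≤ δ, g ≤ G (i * H - o + j)) :
    bad.card * ((δ + 1 : ℕ) * g) ≤ ∑ x ∈ Icc K1 K2, G x := by
  classical
  have hinj : Set.InjOn (fun t : ℕ × ℕ => t.1 * H - o + t.2)
      ((bad ×ˢ range (δ + 1) : Finset (ℕ × ℕ)) : Set (ℕ × ℕ)) := by
    intro s hs t ht hst
    rw [Finset.mem_coe, Finset.mem_product, Finset.mem_range] at hs ht
    have hst' : s.1 * H - o + s.2 = t.1 * H - o + t.2 := hst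
    have h1 := (hi s.1 hs.1).1
    have h2 := (hi t.1 ht.1).1
    have h3 : s.1 * H + s.2 = t.1 * H + t.2 := by omega
    have h4 : s.2 < H := by omega
    have h5 : t.2 < H := by omega
    have h6 : s.1 = t.1 := by
      have e1 : (s.1 * H + s.2) / H = s.1 := by
        rw [mul_comm, Nat.mul_add_div (by omega), Nat.div_eq_of_lt h4, add_zero]
      have e2 : (t.1 * H + t.2) / H = t.1 := by
        rw [mul_comm, Nat.mul_add_div (by omega), Nat.div_eq_of_lt h5, add_zero]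
      rw [← e1, h3, e2]
    have h7 : s.2 = t.2 := by
      rw [h6] at h3
      omega
    exact Prod.ext h6 h7
  have hsub : (bad ×ˢ range (δ + 1)).image (fun t : ℕ × ℕ => t.1 * H - o + t.2) ⊆
      Icc K1 K2 := by
    intro x hx
    rw [Finset.mem_image] at hx
    obtain ⟨t, ht, rfl⟩ := hx
    rw [Finset.mem_product, Finset.mem_range] at ht
    obtain ⟨_, h2, h3⟩ := hi t.1 ht.1
    rw [mem_Icc]
    omega
  calc (bad.card : ℝ) * ((δ + 1 : ℕ) * g) = ∑ _t ∈ bad ×ˢ range (δ + 1), g := by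
        rw [Finset.sum_const, Finset.card_product, Finset.card_range, nsmul_eq_mul]
        push_cast
        ring
    _ ≤ ∑ t ∈ bad ×ˢ range (δ + 1), G (t.1 * H - o + t.2) := by
        refine Finset.sum_le_sum fun t ht => ?_
        rw [Finset.mem_product, Finset.mem_range] at ht
        exact hb t.1 ht.1 t.2 (by omega)
    _ = ∑ x ∈ (bad ×ˢ range (δ + 1)).image (fun t : ℕ × ℕ => t.1 * H - o + t.2), G x := by
        rw [Finset.sum_image hinj]
    _ ≤ ∑ x ∈ Icc K1 K2, G x :=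
        Finset.sum_le_sum_of_subset_of_nonneg hsub fun x _ _ => hG x

/-- arithmetic -/
private theorem NN_arith {N H A A' A1 h : ℕ} {E L : ℝ} (hE0 : 0 ≤ E) (hL1 : 1 ≤ L) (hH : 1 ≤ H)
    (hh : (H : ℝ) / (16 * L ^ A') ≤ ((h + 1 : ℕ) : ℝ)) (hA1 : A + 3 * A' + 1 ≤ A1)
    (h1 : E * (((h + 1 : ℕ) : ℝ) * ((H : ℝ) / (2 * L ^ A')) ^ 2) ≤ N * (2 * (H : ℝ)) ^ 2 / L ^ A1) :
    E * H ≤ N / L ^ A * (256 / L) := by
  have hL0 : 0 < L := by linarith only [hL1]
  have hHR : (0 : ℝ) < H := by exact_mod_cast hH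
  have h2 : E * ((H : ℝ) / (16 * L ^ A') * ((H : ℝ) / (2 * L ^ A')) ^ 2) ≤ N * (2 * (H : ℝ)) ^ 2 / L ^ A1 := by
    refine le_trans (mul_le_mul_of_nonneg_left ?_ hE0) h1
    exact mul_le_mul_of_nonneg_right hh (by positivity)
  have h3 : (N : ℝ) * (2 * (H : ℝ)) ^ 2 / L ^ A1 ≤ N * (2 * (H : ℝ)) ^ 2 / L ^ (A + 3 * A' + 1) :=
    div_le_div_of_nonneg_left (by positivity) (by positivity) (pow_le_pow_right₀ hL1 hA1)
  have e1 : E * ((H : ℝ) / (16 * L ^ A') * ((H : ℝ) / (2 * L ^ A')) ^ 2) =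
      (E * H) * (H ^ 2 / (64 * L ^ (3 * A'))) := by
    have : L ^ (3 * A') = L ^ A' * (L ^ A') ^ 2 := by ring
    rw [this]
    field_simp
    ring
  have e2 : (N : ℝ) * (2 * (H : ℝ)) ^ 2 / L ^ (A + 3 * A' + 1) =
      (N / L ^ A * (256 / L)) * (H ^ 2 / (64 * L ^ (3 * A'))) := by
    have : L ^ (A + 3 * A' + 1) = L ^ A * L * L ^ (3 * A') := by ring
    rw [this]
    field_simp
    ring
  rw [e1] at h2
  rw [e2] at h3
  exact le_of_mul_le_mul_right (h2.trans h3) (by positivity)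

/-- the blocks with a bad class -/
private theorem NN_cls {N H A A' A1 h d c : ℕ} {Y : ℕ → ℝ} {κ : ℝ} (hL : 600 ≤ Real.log N) (hH : 1 ≤ H)
    (hHN : 16 * (H + 20) ≤ N) (hY : ∀ n : ℕ, 1 ≤ n → 0 ≤ Y n) (hκ : |κ| ≤ 2)
    (hh1 : (h : ℝ) ≤ (H : ℝ) / (16 * Real.log N ^ A')) (hh2 : (H : ℝ) / (16 * Real.log N ^ A') ≤ ((h + 1 : ℕ) : ℝ))
    (hA1 : A + 3 * A' + 1 ≤ A1) (hd1 : 1 ≤ d)
    (hWp : ∑ x ∈ Icc (N / 8) (8 * N), ((∑ n ∈ (Ioc x (x + (H + h))).filter (fun n => n % d = c % d), Y n)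
        - (if Nat.Coprime c d then ((H + h : ℕ) : ℝ) * κ / d.totient else 0)) ^ 2 ≤ N * ((H + h : ℕ) : ℝ) ^ 2 / Real.log N ^ A1)
    (hWm : ∑ x ∈ Icc (N / 8) (8 * N), ((∑ n ∈ (Ioc x (x + (H - h))).filter (fun n => n % d = c % d), Y n)
        - (if Nat.Coprime c d then ((H - h : ℕ) : ℝ) * κ / d.totient else 0)) ^ 2 ≤ N * ((H - h : ℕ) : ℝ) ^ 2 / Real.log N ^ A1) :
    (((idx N H).filter (fun i => (H : ℝ) / Real.log N ^ A' <
        |(∑ n ∈ (blk H i).filter (fun n => n % d = c % d), Y n)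
          - (if Nat.Coprime c d then H * κ / d.totient else 0)|)).card : ℝ)
      ≤ (N : ℝ) / H / Real.log N ^ A := by
  classical
  set L := Real.log N with hLdef
  have hL0 : 0 < L := by linarith only [hL]
  have hL1 : 1 ≤ L := by linarith only [hL]
  have hNpos : 0 < N := by omega
  have hNR : (0 : ℝ) < N := by exact_mod_cast hNpos
  have hHR : (0 : ℝ) < H := by exact_mod_cast hH
  have hphi : (1 : ℝ) ≤ d.totient := by exact_mod_cast Nat.totient_pos.2 hd1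
  have hLA : 1 ≤ L ^ A' := one_le_pow₀ hL1
  have hhH : h < H := by
    have h3 : (H : ℝ) / (16 * L ^ A') < H := by
      rw [div_lt_iff₀ (by positivity)]
      nlinarith only [hHR, hLA]
    have h4 : (h : ℝ) < H := lt_of_le_of_lt hh1 h3
    exact_mod_cast h4
  have hδ8 : 2 * (h : ℝ) ≤ (H : ℝ) / L ^ A' / 8 := by
    have e : (H : ℝ) / (16 * L ^ A') = (H : ℝ) / L ^ A' / 16 := by
      rw [mul_comm 16, ← div_div]
    rw [e] at hh1
    linarith only [hh1]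
  have hHL : 0 < (H : ℝ) / L ^ A' := by positivity
  have hhalf : (H : ℝ) / (2 * L ^ A') = (H : ℝ) / L ^ A' / 2 := by
    rw [mul_comm 2, ← div_div]
  -- the main terms
  obtain ⟨μ, hμdef⟩ : ∃ μ : ℝ, μ = if Nat.Coprime c d then κ / d.totient else 0 := ⟨_, rfl⟩
  have hμ : |μ| ≤ 2 := by
    rw [hμdef]
    split_ifs
    · rw [abs_div, abs_of_pos (by linarith only [hphi] : (0 : ℝ) < d.totient)]
      exact (div_le_self (abs_nonneg _) hphi).trans hκ
    · simp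
  have hm : ∀ t : ℝ, (if Nat.Coprime c d then t * κ / d.totient else 0) = t * μ := by
    intro t
    rw [hμdef]
    split_ifs
    · ring
    · ring
  simp only [hm] at hWp hWm ⊢
  have hshift : (h : ℝ) * |μ| ≤ (H : ℝ) / L ^ A' / 8 := by
    refine le_trans ?_ hδ8
    nlinarith only [hμ, mul_le_mul_of_nonneg_left hμ (Nat.cast_nonneg (α := ℝ) h)]
  have hrange : ∀ i ∈ idx N H, 1 ≤ i * H ∧ N / 8 ≤ i * H - 1 - h ∧ i * H - 1 + h ≤ 8 * N ∧ h + 1 ≤ i * H := by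
    intro i hi
    unfold Pool.Agent.H43.MP.idx at hi
    rw [mem_Icc] at hi
    have h3 : i * H ≤ 3 * N := by
      have := Nat.mul_le_mul_right H hi.2
      exact this.trans (Nat.div_mul_le_self _ _)
    have h4 : N < 2 * (i * H) + 2 * H := by
      have h5 : N / (2 * H) * (2 * H) ≤ i * (2 * H) := Nat.mul_le_mul_right _ hi.1
      have h6 : N < N / (2 * H) * (2 * H) + 2 * H := by
        have := Nat.lt_div_mul_add (a := N) (b := 2 * H) (by omega)
        exact this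
      have h7 : i * (2 * H) = 2 * (i * H) := by ring
      omega
    refine ⟨?_, ?_, ?_, ?_⟩ <;> omega
  have hblk : ∀ i, blk H i = Ico (i * H) (i * H + H) := by
    intro i
    unfold Pool.Agent.H43.MP.blk
    congr 1
    ring
  set bp : Finset ℕ := (idx N H).filter (fun i => (H : ℝ) / L ^ A' <
        (∑ n ∈ (blk H i).filter (fun n => n % d = c % d), Y n) - H * μ) with hbp
  set bm : Finset ℕ := (idx N H).filter (fun i => (H : ℝ) / L ^ A' <
        -((∑ n ∈ (blk H i).filter (fun n => n % d = c % d), Y n) - H * μ)) with hbm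
  -- windows containing the block
  have hcp := NN_count (fun x => ((∑ n ∈ (Ioc x (x + (H + h))).filter (fun n => n % d = c % d), Y n)
        - ((H + h : ℕ) : ℝ) * μ) ^ 2) (fun x => sq_nonneg _) bp H h (h + 1) (N / 8) (8 * N)
    (g := ((H : ℝ) / (2 * L ^ A')) ^ 2) hhH
    (fun i hi => by
      have := hrange i (Finset.mem_filter.mp hi).1
      refine ⟨this.2.2.2, ?_, ?_⟩ <;> omega)
    (fun i hi j hj => by
      obtain ⟨hi1, hi2⟩ := Finset.mem_filter.mp hi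
      obtain ⟨r1, r2, r3, r4⟩ := hrange i hi1
      rw [hblk] at hi2
      have hle : ∑ n ∈ (Ico (i * H) (i * H + H)).filter (fun n => n % d = c % d), Y n ≤
          ∑ n ∈ (Ioc (i * H - (h + 1) + j) (i * H - (h + 1) + j + (H + h))).filter (fun n => n % d = c % d), Y n := by
        refine Finset.sum_le_sum_of_subset_of_nonneg ?_ ?_
        · intro n hn
          rw [Finset.mem_filter, mem_Ico] at hn
          rw [Finset.mem_filter, mem_Ioc]
          refine ⟨?_, hn.2⟩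
          omega
        · intro n hn _
          rw [Finset.mem_filter, mem_Ioc] at hn
          exact hY n (by omega)
      set T := ∑ n ∈ (Ioc (i * H - (h + 1) + j) (i * H - (h + 1) + j + (H + h))).filter (fun n => n % d = c % d), Y n with hT
      set S := ∑ n ∈ (Ico (i * H) (i * H + H)).filter (fun n => n % d = c % d), Y n with hS
      have h5 : (H : ℝ) / (2 * L ^ A') ≤ T - ((H + h : ℕ) : ℝ) * μ := by
        rw [hhalf]
        push_cast
        have h6 := le_abs_self μ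
        have h7 := mul_le_mul_of_nonneg_left h6 (Nat.cast_nonneg (α := ℝ) h)
        nlinarith only [hHL, hshift, hi2, hle, h7]
      exact pow_le_pow_left₀ (by positivity) h5 2)
  -- windows contained in the block
  have hcm := NN_count (fun x => ((∑ n ∈ (Ioc x (x + (H - h))).filter (fun n => n % d = c % d), Y n)
        - ((H - h : ℕ) : ℝ) * μ) ^ 2) (fun x => sq_nonneg _) bm H h 1 (N / 8) (8 * N)
    (g := ((H : ℝ) / (2 * L ^ A')) ^ 2) hhH
    (fun i hi => by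
      have := hrange i (Finset.mem_filter.mp hi).1
      refine ⟨this.1, ?_, ?_⟩ <;> omega)
    (fun i hi j hj => by
      obtain ⟨hi1, hi2⟩ := Finset.mem_filter.mp hi
      obtain ⟨r1, r2, r3, r4⟩ := hrange i hi1
      rw [hblk] at hi2
      have hle : ∑ n ∈ (Ioc (i * H - 1 + j) (i * H - 1 + j + (H - h))).filter (fun n => n % d = c % d), Y n ≤
          ∑ n ∈ (Ico (i * H) (i * H + H)).filter (fun n => n % d = c % d), Y n := by
        refine Finset.sum_le_sum_of_subset_of_nonneg ?_ ?_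
        · intro n hn
          rw [Finset.mem_filter, mem_Ioc] at hn
          rw [Finset.mem_filter, mem_Ico]
          refine ⟨?_, hn.2⟩
          omega
        · intro n hn _
          rw [Finset.mem_filter, mem_Ico] at hn
          exact hY n (by omega)
      set T := ∑ n ∈ (Ioc (i * H - 1 + j) (i * H - 1 + j + (H - h))).filter (fun n => n % d = c % d), Y n with hT
      set S := ∑ n ∈ (Ico (i * H) (i * H + H)).filter (fun n => n % d = c % d), Y n with hS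
      have h5 : (H : ℝ) / (2 * L ^ A') ≤ -(T - ((H - h : ℕ) : ℝ) * μ) := by
        rw [hhalf, Nat.cast_sub hhH.le]
        have h6 := le_abs_self μ
        have h7 := mul_le_mul_of_nonneg_left h6 (Nat.cast_nonneg (α := ℝ) h)
        nlinarith only [hHL, hshift, hi2, hle, h7]
      have h6 := pow_le_pow_left₀ (by positivity) h5 2
      rw [neg_sq] at h6
      exact h6)
  have hp1 : (bp.card : ℝ) * (((h + 1 : ℕ) : ℝ) * ((H : ℝ) / (2 * L ^ A')) ^ 2) ≤ N * (2 * (H : ℝ)) ^ 2 / L ^ A1 := by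
    refine hcp.trans (hWp.trans ?_)
    refine div_le_div_of_nonneg_right (mul_le_mul_of_nonneg_left ?_ hNR.le) (by positivity)
    have : ((H + h : ℕ) : ℝ) ≤ 2 * H := by
      have : H + h ≤ 2 * H := by omega
      exact_mod_cast this
    exact pow_le_pow_left₀ (Nat.cast_nonneg _) this 2
  have hm1 : (bm.card : ℝ) * (((h + 1 : ℕ) : ℝ) * ((H : ℝ) / (2 * L ^ A')) ^ 2) ≤ N * (2 * (H : ℝ)) ^ 2 / L ^ A1 := by
    refine hcm.trans (hWm.trans ?_)
    refine div_le_div_of_nonneg_right (mul_le_mul_of_nonneg_left ?_ hNR.le) (by positivity)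
    have : ((H - h : ℕ) : ℝ) ≤ 2 * H := by
      have : H - h ≤ 2 * H := by omega
      exact_mod_cast this
    exact pow_le_pow_left₀ (Nat.cast_nonneg _) this 2
  have ap := NN_arith (A := A) (Nat.cast_nonneg _) hL1 hH hh2 hA1 hp1
  have am := NN_arith (A := A) (Nat.cast_nonneg _) hL1 hH hh2 hA1 hm1
  have hsub : (idx N H).filter (fun i => (H : ℝ) / L ^ A' <
        |(∑ n ∈ (blk H i).filter (fun n => n % d = c % d), Y n) - H * μ|) ⊆ bp ∪ bm := by
    intro i hi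
    rw [Finset.mem_filter] at hi
    rw [Finset.mem_union, hbp, hbm, Finset.mem_filter, Finset.mem_filter]
    rcases lt_abs.mp hi.2 with h3 | h3
    · exact Or.inl ⟨hi.1, h3⟩
    · exact Or.inr ⟨hi.1, h3⟩
  have hcard := (Finset.card_le_card hsub).trans (Finset.card_union_le bp bm)
  have hcardR : (((idx N H).filter (fun i => (H : ℝ) / L ^ A' <
        |(∑ n ∈ (blk H i).filter (fun n => n % d = c % d), Y n) - H * μ|)).card : ℝ) ≤ (bp.card : ℝ) + bm.card := by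
    exact_mod_cast hcard
  have h4 : 512 / L ≤ 1 := by
    rw [div_le_one hL0]
    linarith only [hL]
  refine hcardR.trans ?_
  rw [div_div, mul_comm (H : ℝ), ← div_div, le_div_iff₀ hHR]
  calc ((bp.card : ℝ) + bm.card) * H ≤ N / L ^ A * (256 / L) + N / L ^ A * (256 / L) := by linarith only [ap, am]
    _ = N / L ^ A * (512 / L) := by ring
    _ ≤ N / L ^ A := mul_le_of_le_one_right (by positivity) h4

/-- blocks -/
private theorem NN_badQ {N H A B A1 h : ℕ} {Y : ℕ → ℝ} {κ : ℝ} (hL : 600 ≤ Real.log N) (hH : 1 ≤ H)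
    (hHN : 16 * (H + 20) ≤ N) (hY : ∀ n : ℕ, 1 ≤ n → 0 ≤ Y n) (hκ : |κ| ≤ 2)
    (hh1 : (h : ℝ) ≤ (H : ℝ) / (16 * Real.log N ^ (A + B)))
    (hh2 : (H : ℝ) / (16 * Real.log N ^ (A + B)) ≤ ((h + 1 : ℕ) : ℝ))
    (hA1 : 4 * A + 5 * B + 1 ≤ A1)
    (hWp : WDx N (H + h) A1 B Y (fun _ => κ)) (hWm : WDx N (H - h) A1 B Y (fun _ => κ)) :
    ((badQ N H A B Y (fun _ => κ)).card : ℝ) ≤ (N : ℝ) / H / Real.log N ^ A := by
  classical
  have hL0 : 0 < Real.log N := by linarith only [hL]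
  have hHR : (0 : ℝ) < H := by exact_mod_cast hH
  refine NN_union (B := B) hL0 _ (fun d c => (idx N H).filter (fun i =>
    (H : ℝ) / Real.log N ^ (A + B) <
        |(∑ n ∈ (blk H i).filter (fun n => n % d = c % d), Y n)
          - (if Nat.Coprime c d then H * κ / d.totient else 0)|)) A (by positivity) ?_ ?_
  · intro i hi
    unfold badQ at hi
    rw [Finset.mem_filter] at hi
    obtain ⟨hi1, r, a, hr1, hrB, har, hlt⟩ := hi
    have hrR : r ≤ ⌊Real.log N ^ B⌋₊ := Nat.le_floor hrB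
    by_contra hcon
    apply absurd hlt
    rw [not_lt]
    have h3 := NN_twist (S := blk H i) (Y := Y) (h := H * κ) (ε := (H : ℝ) / Real.log N ^ (A + B)) hr1 har
      (fun c hc => by
        by_contra hc2
        rw [not_le] at hc2
        apply hcon
        rw [Finset.mem_biUnion]
        rw [mem_Icc] at hc
        refine ⟨(r, c), ?_, ?_⟩
        · rw [Finset.mem_product, mem_Icc, mem_Icc]
          exact ⟨⟨hr1, hrR⟩, hc.1, hc.2.trans hrR⟩
        · exact Finset.mem_filter.mpr ⟨hi1, hc2⟩)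
    refine h3.trans ?_
    calc (r : ℝ) * ((H : ℝ) / Real.log N ^ (A + B)) ≤
        Real.log N ^ B * ((H : ℝ) / Real.log N ^ (A + B)) :=
          mul_le_mul_of_nonneg_right hrB (by positivity)
      _ = (H : ℝ) / Real.log N ^ A := by
          rw [pow_add]
          field_simp
  · intro t ht
    rw [Finset.mem_product, mem_Icc, mem_Icc] at ht
    have hRle : ((⌊Real.log N ^ B⌋₊ : ℕ) : ℝ) ≤ Real.log N ^ B := Nat.floor_le (by positivity)
    have h3 : (t.1 : ℝ) ≤ Real.log N ^ B := le_trans (by exact_mod_cast ht.1.2) hRle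
    have h4 := NN_cls (A := A + 2 * B) (A' := A + B) (A1 := A1) (c := t.2) hL hH hHN hY hκ hh1 hh2 (by omega) ht.1.1
      (hWp t.1 t.2 ht.1.1 h3) (hWm t.1 t.2 ht.1.1 h3)
    refine le_trans (le_of_eq ?_) h4
    congr 2

theorem badQ_nn (θ : ℝ) (h1 : 1 / 10 ≤ θ) (h2 : θ ≤ 1 / 4) (A B : ℕ) : ∃ A1 N0 : ℕ, ∀ N : ℕ, N0 ≤ N → ∀ (Y : ℕ → ℝ) (κ : ℝ),
    (∀ m, 1 ≤ m → 0 ≤ Y m) → |κ| ≤ 2 →
    (∀ H : ℕ, (N : ℝ) ^ (1 / 20 : ℝ) ≤ H → (H : ℝ) ≤ (N : ℝ) ^ (1 / 2 : ℝ) → WDx N H A1 B Y (fun _ => κ)) →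
      ((badQ N (Hn θ N) A B Y (fun _ => κ)).card : ℝ) ≤ (N : ℝ) / (Hn θ N) / Real.log N ^ A := by
  refine ⟨4 * A + 5 * B + 1, ⌈Real.exp 600⌉₊, ?_⟩
  intro N hN Y κ hY hκ hW
  have hNe : Real.exp 600 ≤ N := (Nat.le_ceil _).trans (by exact_mod_cast hN)
  have hNpos : (0 : ℝ) < N := lt_of_lt_of_le (Real.exp_pos _) hNe
  have hL : 600 ≤ Real.log N := by
    rw [← Real.log_exp 600]
    exact Real.log_le_log (Real.exp_pos _) hNe
  have hL0 : 0 < Real.log N := by linarith only [hL]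
  have hN1 : (1 : ℝ) ≤ N := by
    refine le_trans ?_ hNe
    exact Real.one_le_exp (by norm_num)
  -- N ^ (1/20) ≥ exp 30
  have hpow : ∀ s : ℝ, 0 ≤ s → Real.exp (600 * s) ≤ (N : ℝ) ^ s := by
    intro s hs
    rw [Real.exp_mul]
    exact Real.rpow_le_rpow (Real.exp_pos _).le hNe hs
  have hexp : ∀ s : ℝ, s + 1 ≤ Real.exp s := fun s => Real.add_one_le_exp s
  have hq1 : (N : ℝ) ^ (1 / 10 : ℝ) ≤ (N : ℝ) ^ θ := Real.rpow_le_rpow_of_exponent_le hN1 h1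
  have hq2 : (N : ℝ) ^ θ ≤ (N : ℝ) ^ (1 / 4 : ℝ) := Real.rpow_le_rpow_of_exponent_le hN1 h2
  have hq3 : (N : ℝ) ^ (1 / 10 : ℝ) = (N : ℝ) ^ (1 / 20 : ℝ) * (N : ℝ) ^ (1 / 20 : ℝ) := by
    rw [← Real.rpow_add hNpos]
    norm_num
  have hq4 : (N : ℝ) ^ (1 / 2 : ℝ) = (N : ℝ) ^ (1 / 4 : ℝ) * (N : ℝ) ^ (1 / 4 : ℝ) := by
    rw [← Real.rpow_add hNpos]
    norm_num
  have hq5 : (N : ℝ) = (N : ℝ) ^ (1 / 2 : ℝ) * (N : ℝ) ^ (1 / 2 : ℝ) := by
    rw [← Real.rpow_add hNpos]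
    norm_num
  have hp20 : 31 ≤ (N : ℝ) ^ (1 / 20 : ℝ) := by
    have := hpow (1 / 20) (by norm_num)
    have h4 := hexp (600 * (1 / 20))
    linarith only [this, h4]
  have hp4 : 151 ≤ (N : ℝ) ^ (1 / 4 : ℝ) := by
    have := hpow (1 / 4) (by norm_num)
    have h4 := hexp (600 * (1 / 4))
    linarith only [this, h4]
  -- the length of the blocks
  have hHdef : Hn θ N = ⌊(N : ℝ) ^ θ⌋₊ := rfl
  have hHle : (Hn θ N : ℝ) ≤ (N : ℝ) ^ (1 / 4 : ℝ) := by
    rw [hHdef]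
    exact (Nat.floor_le (by positivity)).trans hq2
  have hHge : (N : ℝ) ^ (1 / 20 : ℝ) * 30 ≤ Hn θ N := by
    have h3 : (N : ℝ) ^ θ < (Hn θ N : ℝ) + 1 := by
      rw [hHdef]
      exact Nat.lt_floor_add_one _
    nlinarith only [hq1, hq3, hp20, h3]
  have hH1 : 1 ≤ Hn θ N := by
    have : (1 : ℝ) ≤ Hn θ N := by nlinarith only [hp20, hHge]
    exact_mod_cast this
  obtain ⟨H, hHeq⟩ : ∃ H : ℕ, H = Hn θ N := ⟨_, rfl⟩
  rw [← hHeq] at hHle hHge hH1 ⊢
  have hHR : (0 : ℝ) < H := by exact_mod_cast hH1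
  obtain ⟨h, hhdef⟩ : ∃ h : ℕ, h = ⌊(H : ℝ) / (16 * Real.log N ^ (A + B))⌋₊ := ⟨_, rfl⟩
  have hh1 : (h : ℝ) ≤ (H : ℝ) / (16 * Real.log N ^ (A + B)) := by
    rw [hhdef]
    exact Nat.floor_le (by positivity)
  have hh2 : (H : ℝ) / (16 * Real.log N ^ (A + B)) ≤ ((h + 1 : ℕ) : ℝ) := by
    rw [hhdef]
    push_cast
    exact (Nat.lt_floor_add_one _).le
  have hLA : 1 ≤ Real.log N ^ (A + B) := one_le_pow₀ (by linarith only [hL])
  have hh3 : (h : ℝ) ≤ H / 16 := by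
    refine hh1.trans ?_
    apply div_le_div_of_nonneg_left hHR.le (by norm_num)
    linarith only [hLA]
  have hh4 : h ≤ H := by
    have : (h : ℝ) ≤ H := by linarith only [hp20, hHge, hh3]
    exact_mod_cast this
  refine NN_badQ hL hH1 ?_ hY hκ hh1 hh2 le_rfl (hW _ ?_ ?_) (hW _ ?_ ?_)
  · have h3 : (16 * ((H : ℝ) + 20)) ≤ N := by
      have h4 : (N : ℝ) = (N : ℝ) ^ (1 / 4 : ℝ) * (N : ℝ) ^ (1 / 4 : ℝ) * ((N : ℝ) ^ (1 / 4 : ℝ) * (N : ℝ) ^ (1 / 4 : ℝ)) := by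
        rw [← hq4]
        exact hq5
      rw [h4]
      have h5 : 151 * 151 ≤ (N : ℝ) ^ (1 / 4 : ℝ) * (N : ℝ) ^ (1 / 4 : ℝ) := by nlinarith only [hq3, hp20, hHge, hHle, hq1, hp4, hq2]
      nlinarith only [hq3, hHle, h5, hp20, hHge, hq1, hp4, hq2]
    exact_mod_cast h3
  · push_cast
    nlinarith only [hp20, hHge]
  · push_cast
    rw [hq4]
    nlinarith only [hq3, hp20, hHge, hHle, hh3, hq1, hp4, hq2]
  · rw [Nat.cast_sub hh4]
    nlinarith only [hp20, hHge, hh3]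
  · rw [Nat.cast_sub hh4, hq4]
    nlinarith only [hq3, hHle, hp20, hHge, hq1, hp4, hq2]

end Pool.Agent.H43.PX

end

section

/-!
# PX TBad: the sieve part `T` is well distributed in every block (`t_badQ`); `badQ` of a combination of three functions (`badQ_sub3`)

`∑_{m ∈ blk} Λ_R(m) e(-am/r) = μ(r)/φ(r) H + O(R^4)` for `r ≤ R` (`lamR_exp` of H91/EHA).
-/

set_option autoImplicit false

namespace Pool.Agent.H43.PX

open Finset
open Pool.Agent.H91.PK (ee)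
open Pool.Agent.H91.EHA (Lam lamR)
open Pool.Agent.H43.MP (blk Hn idx Rn)
open Pool.Agent.H43.TS (badQ)
open Pool.Agent.H53.MID (Bs)

private theorem tb_conj (x : ℝ) : ee (-x) = (starRingEnd ℂ) (ee x) := by
  unfold ee
  rw [← Complex.exp_conj]
  congr 1
  simp only [map_mul, Complex.conj_ofReal, Complex.conj_I]
  push_cast
  have : (starRingEnd ℂ) (2 : ℂ) = 2 := Complex.conj_ofReal 2
  rw [this]
  ring

/-- the exponential sum of `Λ_R` over a block -/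
private theorem tb_lam (R H i r a : ℕ) (hi : 1 ≤ i * H) (hr : 1 ≤ r) (hrR : r ≤ R) (ha : Nat.Coprime a r) :
    ‖∑ m ∈ blk H i, ((lamR R m : ℝ) : ℂ) * ee (-((a : ℝ) * m / r))
      - (((ArithmeticFunction.moebius r : ℝ) / (r.totient : ℝ) * H : ℝ) : ℂ)‖ ≤ 2 * (R : ℝ) ^ 4 := by
  have e1 := Pool.Agent.H91.EHA.lamR_exp R ((i + 1) * H - 1) r a hr hrR ha
  have e2 := Pool.Agent.H91.EHA.lamR_exp R (i * H - 1) r a hr hrR ha
  have h1 : ∑ m ∈ Icc 1 ((i + 1) * H - 1), ((lamR R m : ℝ) : ℂ) * ee ((m : ℝ) * a / r)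
      = ∑ m ∈ Icc 1 (i * H - 1), ((lamR R m : ℝ) : ℂ) * ee ((m : ℝ) * a / r)
        + ∑ m ∈ blk H i, ((lamR R m : ℝ) : ℂ) * ee ((m : ℝ) * a / r) := by
    have s1 : Icc 1 ((i + 1) * H - 1) = Ico 1 ((i + 1) * H) := by
      ext m
      simp only [mem_Icc, mem_Ico]
      have : 1 ≤ (i + 1) * H := by nlinarith only [hi]
      omega
    have s2 : Icc 1 (i * H - 1) = Ico 1 (i * H) := by
      ext m
      simp only [mem_Icc, mem_Ico]
      omega
    rw [s1, s2]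
    unfold blk
    exact (Finset.sum_Ico_consecutive _ hi (by nlinarith only)).symm
  have h2 : ∑ m ∈ blk H i, ((lamR R m : ℝ) : ℂ) * ee (-((a : ℝ) * m / r))
      = (starRingEnd ℂ) (∑ m ∈ blk H i, ((lamR R m : ℝ) : ℂ) * ee ((m : ℝ) * a / r)) := by
    rw [map_sum]
    refine sum_congr rfl fun m _ => ?_
    rw [map_mul, Complex.conj_ofReal, ← tb_conj]
    congr 2
    ring
  set c : ℝ := (ArithmeticFunction.moebius r : ℝ) / (r.totient : ℝ) with hc
  have h3 : (((i + 1) * H - 1 : ℕ) : ℝ) - ((i * H - 1 : ℕ) : ℝ) = H := by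
    have g1 : 1 ≤ (i + 1) * H := by nlinarith only [hi]
    rw [Nat.cast_sub g1, Nat.cast_sub hi]
    push_cast
    ring
  have h4 : ∑ m ∈ blk H i, ((lamR R m : ℝ) : ℂ) * ee ((m : ℝ) * a / r) - ((c * H : ℝ) : ℂ)
      = ((∑ m ∈ Icc 1 ((i + 1) * H - 1), ((lamR R m : ℝ) : ℂ) * ee ((m : ℝ) * a / r))
          - ((c * (((i + 1) * H - 1 : ℕ) : ℝ) : ℝ) : ℂ))
        - ((∑ m ∈ Icc 1 (i * H - 1), ((lamR R m : ℝ) : ℂ) * ee ((m : ℝ) * a / r))
          - ((c * ((i * H - 1 : ℕ) : ℝ) : ℝ) : ℂ)) := by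
    rw [h1, ← h3]
    push_cast
    ring
  have h5 : ∑ m ∈ blk H i, ((lamR R m : ℝ) : ℂ) * ee (-((a : ℝ) * m / r)) - ((c * H : ℝ) : ℂ)
      = (starRingEnd ℂ) (∑ m ∈ blk H i, ((lamR R m : ℝ) : ℂ) * ee ((m : ℝ) * a / r) - ((c * H : ℝ) : ℂ)) := by
    rw [h2, map_sub, Complex.conj_ofReal]
  rw [h5, RCLike.norm_conj, h4]
  refine (norm_sub_le _ _).trans ?_
  linarith only [e1, e2]

/-- `T` is well distributed in every block -/
theorem t_badQ (θ : ℝ) (h1 : 1 / 10 ≤ θ) (h2 : θ ≤ 1 / 4) (A B B' : ℕ) (hB : B ≤ B') : ∃ N0 : ℕ, ∀ N : ℕ, N0 ≤ N →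
    ∀ (T : ℕ → ℝ) (kT : ℝ), |kT| ≤ 1 →
    (∀ (H i : ℕ) (α : ℝ), (N : ℝ) ^ (1 / 50 : ℝ) ≤ H → 1 ≤ i →
      ‖Bs (fun m => T m - kT * lamR ⌊Real.log N ^ B'⌋₊ m) H i α‖ ≤ H / Real.log N ^ (A + 1)) →
    badQ N (Hn θ N) A B T (fun _ => kT) = ∅ := by
  have hx : Filter.Tendsto (fun x : ℝ => Real.log x) Filter.atTop Filter.atTop := Real.tendsto_log_atTop
  have ho : (fun x : ℝ => Real.log x ^ (4 * B' + A + 2)) =o[Filter.atTop] fun x : ℝ => x ^ (1 / 50 : ℝ) :=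
    (isLittleO_log_rpow_rpow_atTop ((4 * B' + A + 2 : ℕ) : ℝ) (by norm_num : (0 : ℝ) < 1 / 50)).congr_left fun x =>
      Real.rpow_natCast _ _
  have hb1 := ho.bound (by norm_num : (0 : ℝ) < 1 / 4)
  have hcast := tendsto_natCast_atTop_atTop (R := ℝ)
  have hlog := (hx.comp hcast).eventually_ge_atTop 4
  obtain ⟨N1, hN1⟩ := Filter.eventually_atTop.1 ((hcast.eventually hb1).and (hlog.and (Filter.eventually_ge_atTop 16)))
  refine ⟨N1, fun N hN T kT hkT hT => ?_⟩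
  obtain ⟨g1, g2, g3⟩ := hN1 N hN
  set L : ℝ := Real.log N with hL
  have hL4 : 4 ≤ L := g2
  have hN1' : (1 : ℝ) ≤ N := by
    have : 1 ≤ N := by omega
    exact_mod_cast this
  have hNpos : (0 : ℝ) < N := by linarith only [hN1']
  have g1' : L ^ (4 * B' + A + 2) ≤ 1 / 4 * (N : ℝ) ^ (1 / 50 : ℝ) := by
    have := g1
    rw [Real.norm_of_nonneg (by positivity), Real.norm_of_nonneg (by positivity)] at this
    exact this
  -- the size of `H`
  have hNb : (4 : ℝ) ≤ (N : ℝ) ^ (1 / 50 : ℝ) := by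
    have : (1 : ℝ) ≤ L ^ (4 * B' + A + 2) := one_le_pow₀ (by linarith only [hL4])
    linarith only [g1', this]
  have hHlow : (N : ℝ) ^ (1 / 50 : ℝ) ≤ Hn θ N := by
    have e1 : (N : ℝ) ^ (1 / 50 : ℝ) * (N : ℝ) ^ (1 / 50 : ℝ) ≤ (N : ℝ) ^ θ := by
      rw [← Real.rpow_add hNpos]
      exact Real.rpow_le_rpow_of_exponent_le hN1' (by linarith only [h1])
    have e2 : (N : ℝ) ^ θ < Hn θ N + 1 := by
      unfold Hn
      exact Nat.lt_floor_add_one _
    nlinarith only [hNb, e1, e2]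
  have hHup : (Hn θ N : ℝ) ^ 2 ≤ N := by
    have e1 : (Hn θ N : ℝ) ≤ (N : ℝ) ^ (1 / 4 : ℝ) := by
      unfold Hn
      refine (Nat.floor_le (by positivity)).trans ?_
      exact Real.rpow_le_rpow_of_exponent_le hN1' h2
    have e2 : ((N : ℝ) ^ (1 / 4 : ℝ)) ^ 2 ≤ N := by
      rw [← Real.rpow_natCast, ← Real.rpow_mul hNpos.le]
      calc (N : ℝ) ^ (1 / 4 * ((2 : ℕ) : ℝ)) ≤ (N : ℝ) ^ (1 : ℝ) :=
            Real.rpow_le_rpow_of_exponent_le hN1' (by norm_num)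
        _ = N := Real.rpow_one _
    exact (pow_le_pow_left₀ (by positivity) e1 2).trans e2
  set H := Hn θ N with hH
  have hHpos : (0 : ℝ) < H := by linarith only [hNb, hHlow]
  have hH1 : 1 ≤ H := by exact_mod_cast hHpos
  rw [Finset.eq_empty_iff_forall_notMem]
  classical
  intro i hi
  unfold badQ at hi
  rw [mem_filter] at hi
  obtain ⟨hiI, r, a, hr1, hrB, har, hbad⟩ := hi
  have hi1 : 1 ≤ i := by
    unfold idx at hiI
    rw [mem_Icc] at hiI
    have h4 : H * 4 ≤ N := by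
      have e1 : (H : ℝ) * 4 ≤ (H : ℝ) ^ 2 := by nlinarith only [hNb, hHlow]
      have e2 : (H : ℝ) * 4 ≤ N := e1.trans hHup
      exact_mod_cast e2
    have : 1 ≤ N / (2 * H) := by
      rw [Nat.le_div_iff_mul_le (by omega)]
      omega
    omega
  have hiH : 1 ≤ i * H := Nat.mul_pos hi1 hH1
  set R : ℕ := ⌊L ^ B'⌋₊ with hR
  have hrR : r ≤ R := by
    rw [hR]
    refine Nat.le_floor (hrB.trans ?_)
    exact pow_le_pow_right₀ (by linarith only [hL4]) hB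
  have hRle : (R : ℝ) ≤ L ^ B' := Nat.floor_le (by positivity)
  have hsum := tb_lam R H i r a hiH hr1 hrR har
  set c : ℝ := (ArithmeticFunction.moebius r : ℝ) / (r.totient : ℝ) with hc
  have hTi := hT H i ((a : ℝ) / r) hHlow hi1
  unfold Bs at hTi
  have hsplit : ∑ m ∈ blk H i, ((T m : ℝ) : ℂ) * ee (-((a : ℝ) * m / r)) - ((c * (H * kT) : ℝ) : ℂ)
      = (∑ m ∈ Ico (i * H) ((i + 1) * H), ((T m - kT * lamR R m : ℝ) : ℂ) * ee (-(m * ((a : ℝ) / r))))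
        + (kT : ℂ) * (∑ m ∈ blk H i, ((lamR R m : ℝ) : ℂ) * ee (-((a : ℝ) * m / r)) - ((c * H : ℝ) : ℂ)) := by
    have e1 : ∑ m ∈ blk H i, ((T m : ℝ) : ℂ) * ee (-((a : ℝ) * m / r))
        = (∑ m ∈ Ico (i * H) ((i + 1) * H), ((T m - kT * lamR R m : ℝ) : ℂ) * ee (-(m * ((a : ℝ) / r))))
        + (kT : ℂ) * ∑ m ∈ blk H i, ((lamR R m : ℝ) : ℂ) * ee (-((a : ℝ) * m / r)) := by
      unfold blk
      rw [mul_sum, ← sum_add_distrib]
      refine sum_congr rfl fun m _ => ?_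
      have e2 : (m : ℝ) * ((a : ℝ) / r) = (a : ℝ) * m / r := by ring
      rw [e2]
      push_cast
      ring
    rw [e1, mul_sub]
    push_cast
    ring
  have hfin : ‖∑ m ∈ blk H i, ((T m : ℝ) : ℂ) * ee (-((a : ℝ) * m / r)) - ((c * (H * kT) : ℝ) : ℂ)‖
      ≤ H / L ^ (A + 1) + 2 * L ^ (4 * B') := by
    rw [hsplit]
    refine (norm_add_le _ _).trans (add_le_add hTi ?_)
    rw [norm_mul, Complex.norm_real, Real.norm_eq_abs]
    calc |kT| * ‖∑ m ∈ blk H i, ((lamR R m : ℝ) : ℂ) * ee (-((a : ℝ) * m / r)) - ((c * H : ℝ) : ℂ)‖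
        ≤ 1 * (2 * (R : ℝ) ^ 4) := mul_le_mul hkT hsum (norm_nonneg _) zero_le_one
      _ ≤ 2 * L ^ (4 * B') := by
          rw [one_mul, mul_comm 4 B', pow_mul]
          have := pow_le_pow_left₀ (Nat.cast_nonneg R) hRle 4
          linarith only [this]
  have hlast : (H : ℝ) / L ^ (A + 1) + 2 * L ^ (4 * B') ≤ H / L ^ A := by
    have hLA : (0 : ℝ) < L ^ A := by positivity
    have e1 : (H : ℝ) / L ^ (A + 1) ≤ 1 / 4 * (H / L ^ A) := by
      rw [pow_succ, ← div_div]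
      rw [div_le_iff₀ (by linarith only [hL4])]
      have : 0 ≤ (H : ℝ) / L ^ A := by positivity
      nlinarith only [hL4, this]
    have e2 : 2 * L ^ (4 * B') ≤ 1 / 2 * (H / L ^ A) := by
      have e3 : L ^ (4 * B') * L ^ A ≤ L ^ (4 * B' + A + 2) := by
        rw [← pow_add]
        exact pow_le_pow_right₀ (by linarith only [hL4]) (by omega)
      have e4 : L ^ (4 * B') ≤ 1 / 4 * (H / L ^ A) := by
        rw [← mul_div_assoc, le_div_iff₀ hLA]
        linarith only [g1', hHlow, e3]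
      linarith only [e4]
    have : 0 ≤ (H : ℝ) / L ^ A := by positivity
    linarith only [hbad, hfin, e1, e2, this]
  exact absurd (lt_of_lt_of_le hbad (hfin.trans hlast)) (lt_irrefl _)

/-- `badQ` of `Y1 - Y2 - Y3` -/
theorem badQ_sub3 {N H A B : ℕ} {Y1 Y2 Y3 g1 g2 g3 : ℕ → ℝ} (hL : 400 ≤ Real.log N) :
    badQ N H A B (fun m => Y1 m - Y2 m - Y3 m) (fun i => g1 i - g2 i - g3 i) ⊆
      badQ N H (A + 2) B Y1 g1 ∪ (badQ N H (A + 2) B Y2 g2 ∪ badQ N H (A + 2) B Y3 g3) := by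
  classical
  intro i hi
  by_contra hcon
  rw [mem_union, mem_union, not_or, not_or] at hcon
  obtain ⟨c1, c2, c3⟩ := hcon
  unfold badQ at hi c1 c2 c3
  rw [mem_filter] at hi c1 c2 c3
  obtain ⟨hiI, r, a, hr1, hrB, har, hbad⟩ := hi
  have key : ∀ (Y g : ℕ → ℝ), ¬ (i ∈ idx N H ∧ ∃ r a : ℕ, 1 ≤ r ∧ (r : ℝ) ≤ Real.log N ^ B ∧ Nat.Coprime a r ∧
      (H : ℝ) / Real.log N ^ (A + 2) < ‖∑ m ∈ blk H i, ((Y m : ℝ) : ℂ) * ee (-((a : ℝ) * m / r))
      - (((ArithmeticFunction.moebius r : ℝ) / (r.totient : ℝ) * (H * g i) : ℝ) : ℂ)‖) →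
      ‖∑ m ∈ blk H i, ((Y m : ℝ) : ℂ) * ee (-((a : ℝ) * m / r))
      - (((ArithmeticFunction.moebius r : ℝ) / (r.totient : ℝ) * (H * g i) : ℝ) : ℂ)‖ ≤ (H : ℝ) / Real.log N ^ (A + 2) := by
    intro Y g h
    by_contra h'
    push Not at h'
    exact h ⟨hiI, r, a, hr1, hrB, har, h'⟩
  have k1 := key Y1 g1 c1
  have k2 := key Y2 g2 c2
  have k3 := key Y3 g3 c3
  set c : ℝ := (ArithmeticFunction.moebius r : ℝ) / (r.totient : ℝ) with hc
  have hsplit : ∑ m ∈ blk H i, ((Y1 m - Y2 m - Y3 m : ℝ) : ℂ) * ee (-((a : ℝ) * m / r))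
      - ((c * (H * (g1 i - g2 i - g3 i)) : ℝ) : ℂ)
      = (∑ m ∈ blk H i, ((Y1 m : ℝ) : ℂ) * ee (-((a : ℝ) * m / r)) - ((c * (H * g1 i) : ℝ) : ℂ))
        - (∑ m ∈ blk H i, ((Y2 m : ℝ) : ℂ) * ee (-((a : ℝ) * m / r)) - ((c * (H * g2 i) : ℝ) : ℂ))
        - (∑ m ∈ blk H i, ((Y3 m : ℝ) : ℂ) * ee (-((a : ℝ) * m / r)) - ((c * (H * g3 i) : ℝ) : ℂ)) := by
    have e1 : ∑ m ∈ blk H i, ((Y1 m - Y2 m - Y3 m : ℝ) : ℂ) * ee (-((a : ℝ) * m / r))
        = ∑ m ∈ blk H i, ((Y1 m : ℝ) : ℂ) * ee (-((a : ℝ) * m / r))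
          - ∑ m ∈ blk H i, ((Y2 m : ℝ) : ℂ) * ee (-((a : ℝ) * m / r))
          - ∑ m ∈ blk H i, ((Y3 m : ℝ) : ℂ) * ee (-((a : ℝ) * m / r)) := by
      rw [← sum_sub_distrib, ← sum_sub_distrib]
      refine sum_congr rfl fun m _ => ?_
      push_cast
      ring
    rw [e1]
    push_cast
    ring
  rw [hsplit] at hbad
  have h3 : ‖(∑ m ∈ blk H i, ((Y1 m : ℝ) : ℂ) * ee (-((a : ℝ) * m / r)) - ((c * (H * g1 i) : ℝ) : ℂ))
        - (∑ m ∈ blk H i, ((Y2 m : ℝ) : ℂ) * ee (-((a : ℝ) * m / r)) - ((c * (H * g2 i) : ℝ) : ℂ))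
        - (∑ m ∈ blk H i, ((Y3 m : ℝ) : ℂ) * ee (-((a : ℝ) * m / r)) - ((c * (H * g3 i) : ℝ) : ℂ))‖
      ≤ 3 * ((H : ℝ) / Real.log N ^ (A + 2)) := by
    refine (norm_sub_le _ _).trans ?_
    have := norm_sub_le (∑ m ∈ blk H i, ((Y1 m : ℝ) : ℂ) * ee (-((a : ℝ) * m / r)) - ((c * (H * g1 i) : ℝ) : ℂ))
      (∑ m ∈ blk H i, ((Y2 m : ℝ) : ℂ) * ee (-((a : ℝ) * m / r)) - ((c * (H * g2 i) : ℝ) : ℂ))
    linarith only [k1, k2, k3, this]
  have hLpos : (0 : ℝ) < Real.log N := by linarith only [hL]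
  have h4 : 3 * ((H : ℝ) / Real.log N ^ (A + 2)) ≤ (H : ℝ) / Real.log N ^ A := by
    rw [pow_add, ← div_div, ← mul_div_assoc, div_le_iff₀ (by positivity), mul_comm 3]
    have e0 : 0 ≤ (H : ℝ) / Real.log N ^ A := by positivity
    refine mul_le_mul_of_nonneg_left ?_ e0
    nlinarith only [hL]
  linarith only [hbad, h3, h4]

end Pool.Agent.H43.PX

end

section

/-!
# BW Sp: changing a function on the multiples of squares of primes `> N^δ` (as `H31/EQ/Sparse.lean`)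

`s(x, H) = #{n ∈ (x, x+H] : p² ∣ n for a prime p > z}`.  `|∑ Y - ∑ Y'| ≤ 20 s(x, H)`, `|gam Y - gam Y'| ≤ 20 s(x, H1)/H1`.
`∑_{x ≤ 8N} s(x, H) ≤ H #{n ≤ 16N : ..} ≤ H · 16 N ∑_{p > z} 1/p² ≤ 32 H N/z`, `s ≤ H`, so `∑ s(x,H)² ≤ 32 H² N/z`; `s(x, H1) ≤ ∑_{z < p ≤ 4√N} (H1/p² + 1) ≤ 2 H1/z + 4 √N`.
-/

set_option autoImplicit false

namespace Pool.Agent.H76.BW

open Finset
open Pool.Agent.H31.EQ (WDx gam sqz)

open Classical in
/-- the number of the multiples of large squares in a window -/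
private noncomputable def Sp_s (z x h : ℕ) : ℕ := ((Ioc x (x + h)).filter (fun n => sqz z n)).card

private theorem Sp_mult (m x h : ℕ) (hm : 0 < m) :
    (((Ioc x (x + h)).filter (fun n => m ∣ n)).card : ℝ) ≤ (h : ℝ) / m + 1 := by
  have h1 : (Ioc x (x + h)).filter (fun n => m ∣ n) ⊆ (Ioc (x / m) ((x + h) / m)).image (fun t => m * t) := by
    intro n hn
    rw [mem_filter, mem_Ioc] at hn
    obtain ⟨⟨h2, h3⟩, t, rfl⟩ := hn
    rw [mem_image]
    refine ⟨t, ?_, rfl⟩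
    rw [mem_Ioc]
    constructor
    · rw [Nat.div_lt_iff_lt_mul hm]
      linarith only [h2, mul_comm m t]
    · rw [Nat.le_div_iff_mul_le hm]
      linarith only [h3, mul_comm m t]
  have h2 : ((Ioc x (x + h)).filter (fun n => m ∣ n)).card ≤ (x + h) / m - x / m := by
    refine (card_le_card h1).trans (card_image_le.trans ?_)
    rw [Nat.card_Ioc]
  have h3 : (x + h) / m < x / m + h / m + 2 := by
    rw [Nat.div_lt_iff_lt_mul hm]
    have a1 := Nat.lt_mul_div_succ x hm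
    have a2 := Nat.lt_mul_div_succ h hm
    calc x + h < m * (x / m + 1) + m * (h / m + 1) := by
          have b1 : x < m * (x / m + 1) := a1
          have b2 : h < m * (h / m + 1) := a2
          omega
      _ = (x / m + h / m + 2) * m := by ring
  have h4 : ((Ioc x (x + h)).filter (fun n => m ∣ n)).card ≤ h / m + 1 := by
    generalize (x + h) / m = u1 at h2 h3
    generalize x / m = u2 at h2 h3
    generalize h / m = u3 at h2 h3 ⊢
    omega
  have h5 : (((Ioc x (x + h)).filter (fun n => m ∣ n)).card : ℝ) ≤ ((h / m + 1 : ℕ) : ℝ) := by exact_mod_cast h4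
  refine h5.trans ?_
  push_cast
  have := @Nat.cast_div_le ℝ _ _ _ h m
  linarith only [this]

private theorem Sp_inv (z M : ℕ) (hz : 0 < z) : ∑ q ∈ Ioc z M, 1 / (q : ℝ) ^ 2 ≤ 1 / (z : ℝ) := by
  rcases le_or_gt z M with h | h
  · have h1 := sum_Ioc_inv_sq_le_sub (α := ℝ) hz.ne' h
    have h2 : (0 : ℝ) ≤ (M : ℝ)⁻¹ := by positivity
    simp only [one_div]
    linarith only [h1, h2]
  · rw [Ioc_eq_empty (by omega), sum_empty]
    positivity

/-- the windows -/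
private theorem Sp_win (z x h Q : ℕ) (hz : 0 < z) (hQ : x + h < (Q + 1) ^ 2) :
    (Sp_s z x h : ℝ) ≤ (h : ℝ) / z + Q := by
  classical
  have h1 : (Ioc x (x + h)).filter (fun n => sqz z n) ⊆
      (Ioc z Q).biUnion (fun q => (Ioc x (x + h)).filter (fun n => q ^ 2 ∣ n)) := by
    intro n hn
    simp only [mem_filter, mem_Ioc] at hn
    obtain ⟨⟨h2, h3⟩, p, hp, hzp, hpn⟩ := hn
    simp only [mem_biUnion, mem_filter, mem_Ioc]
    refine ⟨p, ⟨hzp, ?_⟩, ⟨h2, h3⟩, hpn⟩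
    have h4 : p ^ 2 ≤ n := Nat.le_of_dvd (by omega) hpn
    have h5 : p ^ 2 < (Q + 1) ^ 2 := by omega
    have h6 := lt_of_pow_lt_pow_left₀ 2 (by omega) h5
    omega
  have h2 : (Sp_s z x h : ℝ) ≤ ∑ q ∈ Ioc z Q, ((((Ioc x (x + h)).filter (fun n => q ^ 2 ∣ n)).card : ℕ) : ℝ) := by
    unfold Sp_s
    have h3 := (card_le_card h1).trans card_biUnion_le
    exact_mod_cast h3
  refine h2.trans ?_
  have h3 : ∀ q ∈ Ioc z Q, ((((Ioc x (x + h)).filter (fun n => q ^ 2 ∣ n)).card : ℕ) : ℝ) ≤ h * (1 / (q : ℝ) ^ 2) + 1 := by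
    intro q hq
    rw [mem_Ioc] at hq
    have hq0 : 0 < q ^ 2 := pow_pos (by omega) 2
    refine (Sp_mult (q ^ 2) x h hq0).trans (le_of_eq ?_)
    push_cast
    ring
  refine (sum_le_sum h3).trans ?_
  rw [sum_add_distrib, ← mul_sum, sum_const, Nat.card_Ioc, nsmul_eq_mul, mul_one]
  have h4 := mul_le_mul_of_nonneg_left (Sp_inv z Q hz) (Nat.cast_nonneg (α := ℝ) h)
  have h5 : ((Q - z : ℕ) : ℝ) ≤ Q := by exact_mod_cast Nat.sub_le _ _
  have h6 : (h : ℝ) * (1 / z) = h / z := by ring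
  linarith only [h4, h5, h6]

/-- the total number -/
private theorem Sp_tot (z M : ℕ) (hz : 0 < z) : (Sp_s z 0 M : ℝ) ≤ (M : ℝ) / z := by
  classical
  have h1 : (Ioc 0 (0 + M)).filter (fun n => sqz z n) ⊆
      (Ioc z M).biUnion (fun q => (Ioc 0 M).filter (fun n => q ^ 2 ∣ n)) := by
    intro n hn
    simp only [mem_filter, mem_Ioc] at hn
    obtain ⟨⟨h2, h3⟩, p, hp, hzp, hpn⟩ := hn
    simp only [mem_biUnion, mem_filter, mem_Ioc]
    refine ⟨p, ⟨hzp, ?_⟩, ⟨h2, by omega⟩, hpn⟩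
    have h4 : p ^ 2 ≤ n := Nat.le_of_dvd (by omega) hpn
    nlinarith only [hz, h3, h4, hzp, hp.two_le]
  have h2 : (Sp_s z 0 M : ℝ) ≤ ∑ q ∈ Ioc z M, ((((Ioc 0 M).filter (fun n => q ^ 2 ∣ n)).card : ℕ) : ℝ) := by
    unfold Sp_s
    have h3 := (card_le_card h1).trans card_biUnion_le
    exact_mod_cast h3
  refine h2.trans ?_
  have h3 : ∀ q ∈ Ioc z M, ((((Ioc 0 M).filter (fun n => q ^ 2 ∣ n)).card : ℕ) : ℝ) ≤ M * (1 / (q : ℝ) ^ 2) := by
    intro q _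
    rw [Nat.Ioc_filter_dvd_card_eq_div]
    refine (@Nat.cast_div_le ℝ _ _ _ M (q ^ 2)).trans (le_of_eq ?_)
    push_cast
    ring
  refine (sum_le_sum h3).trans ?_
  rw [← mul_sum]
  have h4 := mul_le_mul_of_nonneg_left (Sp_inv z M hz) (Nat.cast_nonneg (α := ℝ) M)
  have h6 : (M : ℝ) * (1 / z) = M / z := by ring
  linarith only [h4, h6]

private theorem Sp_sle (z x h : ℕ) : Sp_s z x h ≤ h := by
  classical
  unfold Sp_s
  refine (card_filter_le _ _).trans ?_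
  rw [Nat.card_Ioc]
  omega

/-- the second moment of the number of multiples of large squares -/
private theorem Sp_sum (z H M : ℕ) (S : Finset ℕ) (hz : 0 < z) (hS : ∀ x ∈ S, x + H ≤ M) :
    ∑ x ∈ S, (Sp_s z x H : ℝ) ^ 2 ≤ (H : ℝ) ^ 2 * (M / z) := by
  classical
  have h1 : ∑ x ∈ S, Sp_s z x H ≤ H * Sp_s z 0 M := by
    have e1 : ∀ x ∈ S, Sp_s z x H = ∑ n ∈ (Ioc 0 M).filter (fun n => sqz z n), if x < n ∧ n ≤ x + H then 1 else 0 := by
      intro x hx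
      unfold Sp_s
      rw [← card_filter]
      congr 1
      ext n
      simp only [mem_filter, mem_Ioc]
      have := hS x hx
      constructor
      · rintro ⟨⟨h2, h3⟩, h4⟩
        exact ⟨⟨⟨by omega, by omega⟩, h4⟩, h2, h3⟩
      · rintro ⟨⟨_, h4⟩, h2, h3⟩
        exact ⟨⟨h2, h3⟩, h4⟩
    rw [sum_congr rfl e1, sum_comm]
    have e2 : ∀ n ∈ (Ioc 0 M).filter (fun n => sqz z n), ∑ x ∈ S, (if x < n ∧ n ≤ x + H then 1 else 0) ≤ H := by
      intro n _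
      rw [← card_filter]
      have e3 : S.filter (fun x => x < n ∧ n ≤ x + H) ⊆ Ico (n - H) n := by
        intro x hx
        rw [mem_filter] at hx
        rw [mem_Ico]
        omega
      refine (card_le_card e3).trans ?_
      rw [Nat.card_Ico]
      omega
    refine (sum_le_sum e2).trans (le_of_eq ?_)
    rw [sum_const, smul_eq_mul, mul_comm]
    unfold Sp_s
    rw [Nat.zero_add]
  have h2 : ∀ x ∈ S, (Sp_s z x H : ℝ) ^ 2 ≤ H * Sp_s z x H := by
    intro x _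
    have : (Sp_s z x H : ℝ) ≤ H := by exact_mod_cast Sp_sle z x H
    rw [sq]
    exact mul_le_mul_of_nonneg_right this (Nat.cast_nonneg _)
  refine (sum_le_sum h2).trans ?_
  rw [← mul_sum]
  have h3 : (∑ x ∈ S, (Sp_s z x H : ℝ)) ≤ H * Sp_s z 0 M := by exact_mod_cast h1
  have h4 := Sp_tot z M hz
  calc (H : ℝ) * ∑ x ∈ S, (Sp_s z x H : ℝ) ≤ H * (H * Sp_s z 0 M) :=
        mul_le_mul_of_nonneg_left h3 (Nat.cast_nonneg _)
    _ = H ^ 2 * Sp_s z 0 M := by ring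
    _ ≤ (H : ℝ) ^ 2 * (M / z) := mul_le_mul_of_nonneg_left h4 (by positivity)

/-- the difference of the sums over a window -/
private theorem Sp_dif (N z x h : ℕ) (Y Y' : ℕ → ℝ) (M : ℝ) (hM : 0 ≤ M) (p : ℕ → Prop) [DecidablePred p] (hx : x + h ≤ 16 * N)
    (hY : ∀ n, 1 ≤ n → n ≤ 16 * N → |Y n| ≤ M) (hY' : ∀ n, 1 ≤ n → n ≤ 16 * N → |Y' n| ≤ M)
    (hE : ∀ n, 1 ≤ n → n ≤ 16 * N → ¬ sqz z n → Y n = Y' n) :
    |∑ n ∈ (Ioc x (x + h)).filter p, Y n - ∑ n ∈ (Ioc x (x + h)).filter p, Y' n| ≤ 2 * M * Sp_s z x h := by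
  classical
  rw [← sum_sub_distrib]
  have h1 : |∑ n ∈ (Ioc x (x + h)).filter p, (Y n - Y' n)| ≤ ∑ n ∈ (Ioc x (x + h)).filter p, (if sqz z n then (2 * M : ℝ) else 0) := by
    refine (abs_sum_le_sum_abs _ _).trans (sum_le_sum fun n hn => ?_)
    rw [mem_filter, mem_Ioc] at hn
    have a1 := hY n (by omega) (by omega)
    have a2 := hY' n (by omega) (by omega)
    have a3 := hE n (by omega) (by omega)
    split_ifs with hs
    · have := abs_sub (Y n) (Y' n)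
      linarith only [a1, a2, this]
    · rw [a3 hs, sub_self, abs_zero]
  refine h1.trans ?_
  have h2 : ∑ n ∈ (Ioc x (x + h)).filter p, (if sqz z n then (2 * M : ℝ) else 0) ≤
      ∑ n ∈ Ioc x (x + h), (if sqz z n then (2 * M : ℝ) else 0) := by
    apply sum_le_sum_of_subset_of_nonneg (filter_subset _ _)
    intro n _ _
    split_ifs
    · positivity
    · exact le_rfl
  refine h2.trans (le_of_eq ?_)
  rw [← sum_filter, sum_const, nsmul_eq_mul, mul_comm]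
  unfold Sp_s
  rfl

private theorem Sp_gam (N z x h : ℕ) (Y Y' : ℕ → ℝ) (M : ℝ) (hM : 0 ≤ M) (hx : x + h ≤ 16 * N)
    (hY : ∀ n, 1 ≤ n → n ≤ 16 * N → |Y n| ≤ M) (hY' : ∀ n, 1 ≤ n → n ≤ 16 * N → |Y' n| ≤ M)
    (hE : ∀ n, 1 ≤ n → n ≤ 16 * N → ¬ sqz z n → Y n = Y' n) :
    |gam Y h x - gam Y' h x| ≤ 2 * M * Sp_s z x h / h := by
  have h1 := Sp_dif N z x h Y Y' M hM (fun _ => True) hx hY hY' hE
  simp only [filter_true] at h1
  unfold gam
  rw [← sub_div, abs_div, abs_of_nonneg (Nat.cast_nonneg (α := ℝ) h)]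
  exact div_le_div_of_nonneg_right h1 (Nat.cast_nonneg _)

/-- changing a function on the multiples of the squares of primes `> z`, `z ≥ N^δ`, any `δ > 0` -/
theorem wdx_sqE (δ : ℝ) (hδ : 0 < δ) (hδ5 : δ ≤ 1 / 5) (A B : ℕ) : ∃ N0 : ℕ, ∀ N : ℕ, N0 ≤ N → ∀ (H H1 z : ℕ) (Y Y' : ℕ → ℝ),
    (N : ℝ) ^ δ ≤ z → (H : ℝ) ≤ (N : ℝ) ^ (1 / 2 : ℝ) →
    (N : ℝ) ^ (3 / 4 : ℝ) ≤ H1 → (H1 : ℝ) ≤ N → (∀ n, 1 ≤ n → n ≤ 16 * N → |Y n| ≤ Real.log N) →
    (∀ n, 1 ≤ n → n ≤ 16 * N → |Y' n| ≤ Real.log N) →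
    (∀ n, 1 ≤ n → n ≤ 16 * N → ¬ sqz z n → Y n = Y' n) → WDx N H (A + 1) B Y (gam Y H1) → WDx N H A B Y' (gam Y' H1) := by
  obtain ⟨N1, hN1⟩ := Pool.Agent.H80.LV.log_pow_le δ 7488 hδ (by norm_num) (A + 2)
  obtain ⟨N2, hN2⟩ := Pool.Agent.H80.LV.log_ge 4
  obtain ⟨N3, hN3⟩ := Pool.Agent.H80.LV.log_pow_le (1 / 20) 2 (by norm_num) (by norm_num) 0
  refine ⟨max (max (max N1 N2) 16) N3, ?_⟩
  intro N hN H H1 z Y Y' hz hH hH1 hH1N hY hY' hE hWD d c hd hdB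
  simp only [max_le_iff] at hN
  obtain ⟨⟨⟨g1, g2⟩, g3⟩, g4⟩ := hN
  have hL1 := hN1 N g1
  have hL4 := hN2 N g2
  have h10' := hN3 N g4
  rw [pow_zero, mul_one] at h10'
  have hNr : (16 : ℝ) ≤ N := by exact_mod_cast g3
  have hN0 : (0 : ℝ) < N := by linarith only [hδ, hδ5, hNr]
  have hN1r : (1 : ℝ) ≤ N := by linarith only [hδ, hδ5, hNr]
  set L := Real.log N with hL_def
  have hL0 : 0 < L := by linarith only [hδ, hδ5, hL4]
  have hz1 : (1 : ℝ) ≤ z := (Real.one_le_rpow hN1r hδ.le).trans hz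
  have hz0 : 0 < z := by
    have : (0 : ℝ) < z := by linarith only [hδ, hδ5, hz1]
    exact_mod_cast this
  have hHN : H ≤ N := by
    have h1 : (N : ℝ) ^ (1 / 2 : ℝ) ≤ (N : ℝ) ^ (1 : ℝ) := Real.rpow_le_rpow_of_exponent_le hN1r (by norm_num)
    rw [Real.rpow_one] at h1
    exact_mod_cast hH.trans h1
  have hH1N' : H1 ≤ N := by exact_mod_cast hH1N
  have hH10 : (0 : ℝ) < H1 := lt_of_lt_of_le (Real.rpow_pos_of_pos hN0 _) hH1
  -- the window count for the long windows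
  have hQ : ∀ x, x ≤ 8 * N → (Sp_s z x H1 : ℝ) / H1 ≤ 5 * (N : ℝ) ^ (-δ) := by
    intro x hx
    have h1 := Sp_win z x H1 (4 * (Nat.sqrt N + 1)) hz0 (by
      have h2 := Nat.lt_succ_sqrt N
      have h3 : x + H1 < 16 * (Nat.sqrt N + 1) * (Nat.sqrt N + 1) := by
        have h4 : N < (Nat.sqrt N + 1) * (Nat.sqrt N + 1) := h2
        nlinarith only [g3, hH1N', hx, h2]
      nlinarith only [g3, hH1N', hx, h2])
    have h2 : (Nat.sqrt N : ℝ) ≤ (N : ℝ) ^ (1 / 2 : ℝ) := by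
      rw [← Real.sqrt_eq_rpow]
      exact Real.nat_sqrt_le_real_sqrt
    have h3 : (1 : ℝ) ≤ (N : ℝ) ^ (1 / 2 : ℝ) := Real.one_le_rpow hN1r (by norm_num)
    have h4 : (((4 * (Nat.sqrt N + 1) : ℕ)) : ℝ) ≤ 8 * (N : ℝ) ^ (1 / 2 : ℝ) := by
      push_cast
      linarith only [h2, h3]
    have h5 : (Sp_s z x H1 : ℝ) / H1 ≤ 1 / z + 8 * (N : ℝ) ^ (1 / 2 : ℝ) / H1 := by
      rw [div_le_iff₀ hH10]
      have h6 : (1 / (z : ℝ) + 8 * (N : ℝ) ^ (1 / 2 : ℝ) / H1) * H1 = H1 / z + 8 * (N : ℝ) ^ (1 / 2 : ℝ) := by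
        field_simp
      rw [h6]
      linarith only [h1, h4]
    have h7 : 1 / (z : ℝ) ≤ (N : ℝ) ^ (-δ) := by
      rw [Real.rpow_neg hN0.le, ← one_div]
      exact one_div_le_one_div_of_le (Real.rpow_pos_of_pos hN0 _) hz
    have h8 : 8 * (N : ℝ) ^ (1 / 2 : ℝ) / H1 ≤ 4 * (N : ℝ) ^ (-δ) := by
      rw [div_le_iff₀ hH10]
      have h9 : (N : ℝ) ^ (-δ) * (N : ℝ) ^ (3 / 4 : ℝ) = (N : ℝ) ^ (1 / 4 - δ) * (N : ℝ) ^ (1 / 2 : ℝ) := by
        rw [← Real.rpow_add hN0, ← Real.rpow_add hN0]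
        congr 1
        ring
      have h10 : (2 : ℝ) ≤ (N : ℝ) ^ (1 / 4 - δ) :=
        h10'.trans (Real.rpow_le_rpow_of_exponent_le hN1r (by linarith only [hδ5]))
      have h15 : 0 < (N : ℝ) ^ (-δ) := Real.rpow_pos_of_pos hN0 _
      have h16 : (N : ℝ) ^ (-δ) * (N : ℝ) ^ (3 / 4 : ℝ) ≤ (N : ℝ) ^ (-δ) * H1 :=
        mul_le_mul_of_nonneg_left hH1 h15.le
      nlinarith only [h9, h16, h10, hδ, hδ5, hH]
    linarith only [h5, h7, h8]
  have hNN : 0 < (N : ℝ) ^ (-δ) := Real.rpow_pos_of_pos hN0 _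
  have hNN1 : (N : ℝ) ^ (-δ) ≤ 1 := Real.rpow_le_one_of_one_le_of_nonpos hN1r (by linarith only [hδ])
  -- pointwise
  have hpt : ∀ x ∈ Icc (N / 8) (8 * N), ((∑ n ∈ (Ioc x (x + H)).filter (fun n => n % d = c % d), Y' n)
      - (if Nat.Coprime c d then (H : ℝ) * gam Y' H1 x / d.totient else 0)) ^ 2 ≤
      2 * ((∑ n ∈ (Ioc x (x + H)).filter (fun n => n % d = c % d), Y n)
      - (if Nat.Coprime c d then (H : ℝ) * gam Y H1 x / d.totient else 0)) ^ 2
      + 16 * L ^ 2 * (Sp_s z x H : ℝ) ^ 2 + 16 * L ^ 2 * (H : ℝ) ^ 2 * (5 * (N : ℝ) ^ (-δ)) ^ 2 := by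
    intro x hx
    rw [mem_Icc] at hx
    have a1 := Sp_dif N z x H Y Y' L hL0.le (fun n => n % d = c % d) (by omega) hY hY' hE
    have a2 := Sp_gam N z x H1 Y Y' L hL0.le (by omega) hY hY' hE
    have a3 := hQ x hx.2
    have hφ : (1 : ℝ) ≤ d.totient := by exact_mod_cast Nat.totient_pos.2 (by omega)
    have a4 : |(if Nat.Coprime c d then (H : ℝ) * gam Y H1 x / d.totient else 0) -
        (if Nat.Coprime c d then (H : ℝ) * gam Y' H1 x / d.totient else 0)| ≤ 2 * L * (H : ℝ) * (5 * (N : ℝ) ^ (-δ)) := by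
      split_ifs with hc
      · have e1 : (H : ℝ) * gam Y H1 x / d.totient - H * gam Y' H1 x / d.totient = H * (gam Y H1 x - gam Y' H1 x) / d.totient := by
          ring
        rw [e1, abs_div, abs_mul, abs_of_nonneg (Nat.cast_nonneg (α := ℝ) H), abs_of_nonneg (Nat.cast_nonneg (α := ℝ) d.totient)]
        have e2 : (H : ℝ) * |gam Y H1 x - gam Y' H1 x| / d.totient ≤ H * |gam Y H1 x - gam Y' H1 x| := by
          apply div_le_self (by positivity) hφ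
        refine e2.trans ?_
        have e3 : |gam Y H1 x - gam Y' H1 x| ≤ 2 * L * (5 * (N : ℝ) ^ (-δ)) := by
          refine a2.trans ?_
          rw [mul_div_assoc]
          exact mul_le_mul_of_nonneg_left a3 (by positivity)
        have e4 := mul_le_mul_of_nonneg_left e3 (Nat.cast_nonneg (α := ℝ) H)
        linarith only [e4]
      · rw [sub_self, abs_zero]
        positivity
    set E := (∑ n ∈ (Ioc x (x + H)).filter (fun n => n % d = c % d), Y n)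
      - (if Nat.Coprime c d then (H : ℝ) * gam Y H1 x / d.totient else 0) with hEdef
    set u := ∑ n ∈ (Ioc x (x + H)).filter (fun n => n % d = c % d), Y n - ∑ n ∈ (Ioc x (x + H)).filter (fun n => n % d = c % d), Y' n with hu
    set v := (if Nat.Coprime c d then (H : ℝ) * gam Y H1 x / d.totient else 0) -
        (if Nat.Coprime c d then (H : ℝ) * gam Y' H1 x / d.totient else 0) with hv
    have e5 : (∑ n ∈ (Ioc x (x + H)).filter (fun n => n % d = c % d), Y' n)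
      - (if Nat.Coprime c d then (H : ℝ) * gam Y' H1 x / d.totient else 0) = E - u + v := by
      rw [hEdef, hu, hv]
      ring
    rw [e5]
    have e6 : u ^ 2 ≤ (2 * L * (Sp_s z x H : ℝ)) ^ 2 := by
      rw [← sq_abs u]
      exact pow_le_pow_left₀ (abs_nonneg _) a1 2
    have e7 : v ^ 2 ≤ (2 * L * (H : ℝ) * (5 * (N : ℝ) ^ (-δ))) ^ 2 := by
      rw [← sq_abs v]
      exact pow_le_pow_left₀ (abs_nonneg _) a4 2
    have e8 : (E - u + v) ^ 2 ≤ 2 * E ^ 2 + 4 * u ^ 2 + 4 * v ^ 2 := by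
      nlinarith only [sq_nonneg (E + u - v), sq_nonneg (u + v)]
    calc (E - u + v) ^ 2 ≤ 2 * E ^ 2 + 4 * u ^ 2 + 4 * v ^ 2 := e8
      _ ≤ 2 * E ^ 2 + 4 * (2 * L * (Sp_s z x H : ℝ)) ^ 2 + 4 * (2 * L * (H : ℝ) * (5 * (N : ℝ) ^ (-δ))) ^ 2 := by linarith only [e6, e7]
      _ = _ := by ring
  refine (sum_le_sum hpt).trans ?_
  rw [sum_add_distrib, sum_add_distrib, ← mul_sum, ← mul_sum, sum_const, nsmul_eq_mul]
  have b1 := hWD d c hd hdB
  have b2 := Sp_sum z H (9 * N) (Icc (N / 8) (8 * N)) hz0 (fun x hx => by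
    rw [mem_Icc] at hx
    omega)
  have b3 : (((Icc (N / 8) (8 * N)).card : ℕ) : ℝ) ≤ 9 * N := by
    have : (Icc (N / 8) (8 * N)).card ≤ 9 * N := by
      rw [Nat.card_Icc]
      omega
    exact_mod_cast this
  have b4 : (H : ℝ) ^ 2 * (((9 * N : ℕ) : ℝ) / z) ≤ 9 * (N * (H : ℝ) ^ 2) * (N : ℝ) ^ (-δ) := by
    have h7 : 1 / (z : ℝ) ≤ (N : ℝ) ^ (-δ) := by
      rw [Real.rpow_neg hN0.le, ← one_div]
      exact one_div_le_one_div_of_le (Real.rpow_pos_of_pos hN0 _) hz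
    have h8 : (H : ℝ) ^ 2 * (((9 * N : ℕ) : ℝ) / z) = 9 * (N * (H : ℝ) ^ 2) * (1 / z) := by
      push_cast
      ring
    rw [h8]
    exact mul_le_mul_of_nonneg_left h7 (by positivity)
  have b5 : (((Icc (N / 8) (8 * N)).card : ℕ) : ℝ) * (16 * L ^ 2 * (H : ℝ) ^ 2 * (5 * (N : ℝ) ^ (-δ)) ^ 2) ≤
      3600 * L ^ 2 * (N * (H : ℝ) ^ 2) * (N : ℝ) ^ (-δ) := by
    have h1 : (((Icc (N / 8) (8 * N)).card : ℕ) : ℝ) * (16 * L ^ 2 * (H : ℝ) ^ 2 * (5 * (N : ℝ) ^ (-δ)) ^ 2) ≤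
        9 * N * (16 * L ^ 2 * (H : ℝ) ^ 2 * (5 * (N : ℝ) ^ (-δ)) ^ 2) :=
      mul_le_mul_of_nonneg_right b3 (by positivity)
    refine h1.trans ?_
    have h2 : 9 * (N : ℝ) * (16 * L ^ 2 * (H : ℝ) ^ 2 * (5 * (N : ℝ) ^ (-δ)) ^ 2) =
        3600 * L ^ 2 * (N * (H : ℝ) ^ 2) * (N : ℝ) ^ (-δ) * (N : ℝ) ^ (-δ) := by ring
    rw [h2]
    exact mul_le_of_le_one_right (by positivity) hNN1
  have b6 : 16 * L ^ 2 * ∑ x ∈ Icc (N / 8) (8 * N), (Sp_s z x H : ℝ) ^ 2 ≤ 144 * L ^ 2 * (N * (H : ℝ) ^ 2) * (N : ℝ) ^ (-δ) := by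
    have := mul_le_mul_of_nonneg_left (b2.trans b4) (show 0 ≤ 16 * L ^ 2 by positivity)
    linarith only [this]
  have b7 : (N : ℝ) ^ (-δ) ≤ 1 / (7488 * L ^ (A + 2)) := by
    rw [Real.rpow_neg hN0.le, ← one_div]
    exact one_div_le_one_div_of_le (by positivity) hL1
  have b8 : 3744 * L ^ 2 * (N * (H : ℝ) ^ 2) * (N : ℝ) ^ (-δ) ≤ N * (H : ℝ) ^ 2 / (2 * L ^ A) := by
    refine (mul_le_mul_of_nonneg_left b7 (by positivity)).trans (le_of_eq ?_)
    rw [pow_add]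
    field_simp
    ring
  have b9 : 2 * (N * (H : ℝ) ^ 2 / L ^ (A + 1)) ≤ N * (H : ℝ) ^ 2 / (2 * L ^ A) := by
    rw [pow_succ L A, mul_div_assoc', div_le_div_iff₀ (by positivity) (by positivity)]
    have h1 : 0 ≤ N * (H : ℝ) ^ 2 * L ^ A := by positivity
    have h2 := mul_le_mul_of_nonneg_left hL4 h1
    calc 2 * (N * (H : ℝ) ^ 2) * (2 * L ^ A) = N * (H : ℝ) ^ 2 * L ^ A * 4 := by ring
      _ ≤ N * (H : ℝ) ^ 2 * L ^ A * L := h2
      _ = N * (H : ℝ) ^ 2 * (L ^ A * L) := by ring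
  have b10 : N * (H : ℝ) ^ 2 / L ^ A = N * (H : ℝ) ^ 2 / (2 * L ^ A) + N * (H : ℝ) ^ 2 / (2 * L ^ A) := by
    field_simp
    norm_num
  have b11 : 0 ≤ (N * (H : ℝ) ^ 2) * (N : ℝ) ^ (-δ) := by positivity
  rw [b10]
  have b12 : 144 * L ^ 2 * (N * (H : ℝ) ^ 2) * (N : ℝ) ^ (-δ) + 3600 * L ^ 2 * (N * (H : ℝ) ^ 2) * (N : ℝ) ^ (-δ) =
      3744 * L ^ 2 * (N * (H : ℝ) ^ 2) * (N : ℝ) ^ (-δ) := by ring
  linarith only [b1, b5, b6, b8, b9]

/-- scaling -/
theorem wdx_smul (a : ℝ) {N H H1 A B : ℕ} {Y : ℕ → ℝ} (ha : a ^ 2 ≤ Real.log N) (hL : 0 < Real.log N)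
    (hW : WDx N H (A + 1) B Y (gam Y H1)) : WDx N H A B (fun n => a * Y n) (gam (fun n => a * Y n) H1) := by
  intro d c hd hdB
  have h1 := hW d c hd hdB
  have hg : ∀ x, gam (fun n => a * Y n) H1 x = a * gam Y H1 x := by
    intro x
    unfold gam
    rw [← mul_sum, mul_div_assoc]
  have h2 : ∑ x ∈ Icc (N / 8) (8 * N), ((∑ n ∈ (Ioc x (x + H)).filter (fun n => n % d = c % d), a * Y n)
      - (if Nat.Coprime c d then (H : ℝ) * gam (fun n => a * Y n) H1 x / d.totient else 0)) ^ 2 =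
      a ^ 2 * ∑ x ∈ Icc (N / 8) (8 * N), ((∑ n ∈ (Ioc x (x + H)).filter (fun n => n % d = c % d), Y n)
      - (if Nat.Coprime c d then (H : ℝ) * gam Y H1 x / d.totient else 0)) ^ 2 := by
    rw [mul_sum]
    refine sum_congr rfl fun x _ => ?_
    rw [hg, ← mul_sum]
    split_ifs <;> ring
  show ∑ x ∈ Icc (N / 8) (8 * N), _ ≤ _
  rw [h2]
  refine (mul_le_mul_of_nonneg_left h1 (sq_nonneg a)).trans ?_
  rw [pow_succ (Real.log N) A, ← div_div, ← mul_div_assoc, div_le_iff₀ hL, mul_comm]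
  exact mul_le_mul_of_nonneg_left ha (by positivity)

end Pool.Agent.H76.BW

end
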