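import Pool.Agent.H43.PJ.H43.PX.Defs
import Pool.Agent.H43.PJ.M18

/-! The parts of this file: H92.EH.TestFun, H43.MP.ClsVar, H43.MP.MainVar, H43.MP.Split, H43.PX.Main, H43.MP.WPb, H43.MP.PPw, H43.PX.PpG, H43.MP.Cnt, H43.PX.Fin2. -/

section

/-!
The test function inequality for a single modulus.
-/

set_option autoImplicit false

namespace Pool.Agent.H92.EH

open Finset

/-- Parseval for a sum of distinct additive characters. -/
theorem parseval_le {ι : Type*} [DecidableEq ι] (q : ℕ) (hq : 0 < q) (P : Finset ι) (c : ι → ℂ)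
    (κ : ι → ℤ) (hκ : ∀ i ∈ P, ∀ j ∈ P, i ≠ j → ¬ (q : ℤ) ∣ κ i - κ j) :
    ∑ a ∈ range q, ‖∑ i ∈ P, c i * e (κ i * ((a : ℝ) / q))‖ ^ 2 = q * ∑ i ∈ P, ‖c i‖ ^ 2 := by
  have h1 : ((∑ a ∈ range q, ‖∑ i ∈ P, c i * e (κ i * ((a : ℝ) / q))‖ ^ 2 : ℝ) : ℂ)
      = ∑ i ∈ P, ∑ j ∈ P, c i * (starRingEnd ℂ) (c j) *
          ∑ a ∈ range q, e ((κ i - κ j : ℤ) * ((a : ℝ) / q)) := by
    rw [Complex.ofReal_sum]
    have h2 : ∀ a : ℕ, ((‖∑ i ∈ P, c i * e (κ i * ((a : ℝ) / q))‖ ^ 2 : ℝ) : ℂ)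
        = ∑ i ∈ P, ∑ j ∈ P, c i * (starRingEnd ℂ) (c j) *
          e ((κ i - κ j : ℤ) * ((a : ℝ) / q)) := by
      intro a
      push_cast
      rw [← Complex.mul_conj', map_sum, sum_mul_sum]
      refine sum_congr rfl fun i _ => sum_congr rfl fun j _ => ?_
      rw [map_mul]
      have : e (κ i * ((a : ℝ) / q)) * (starRingEnd ℂ) (e (κ j * ((a : ℝ) / q)))
          = e (((κ i : ℝ) - κ j) * ((a : ℝ) / q)) := by
        rw [e_mul_conj]
        congr 1
        ring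
      rw [← this]
      ring
    simp_rw [h2]
    rw [sum_comm]
    refine sum_congr rfl fun i _ => ?_
    rw [sum_comm]
    refine sum_congr rfl fun j _ => ?_
    rw [mul_sum]
  have h3 : ∑ i ∈ P, ∑ j ∈ P, c i * (starRingEnd ℂ) (c j) *
          ∑ a ∈ range q, e ((κ i - κ j : ℤ) * ((a : ℝ) / q))
      = ∑ i ∈ P, (q : ℂ) * (‖c i‖ : ℂ) ^ 2 := by
    refine sum_congr rfl fun i hi => ?_
    rw [sum_eq_single_of_mem i hi]
    · rw [sum_complete q hq, sub_self, if_pos (dvd_zero _), Complex.mul_conj', mul_comm]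
    · intro j hj hne
      rw [sum_complete q hq, if_neg (hκ i hi j hj (Ne.symm hne)), mul_zero]
  have h4 : ((∑ a ∈ range q, ‖∑ i ∈ P, c i * e (κ i * ((a : ℝ) / q))‖ ^ 2 : ℝ) : ℂ)
      = ((q * ∑ i ∈ P, ‖c i‖ ^ 2 : ℝ) : ℂ) := by
    rw [h1, h3]
    push_cast
    rw [mul_sum]
  exact_mod_cast h4

theorem e_mod (q p : ℕ) (hq : 0 < q) (m : ℤ) :
    e (m * (((p % q : ℕ) : ℝ) / q)) = e (m * ((p : ℝ) / q)) := by
  have hq' : (q : ℝ) ≠ 0 := by exact_mod_cast hq.ne'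
  obtain ⟨t, ht⟩ : ∃ t : ℕ, p = p % q + q * t := ⟨p / q, (Nat.mod_add_div p q).symm⟩
  have h1 : (m : ℝ) * ((p : ℝ) / q) = m * (((p % q : ℕ) : ℝ) / q) + ((m * t : ℤ) : ℝ) := by
    have h2 : (p : ℝ) = ((p % q : ℕ) : ℝ) + q * (t : ℝ) := by
      exact_mod_cast ht
    rw [h2]
    push_cast
    field_simp
  rw [h1, e_add_int]

end Pool.Agent.H92.EH

end

section

/-!
# MIDP ClsVar: variance of a sequence in the classes modulo the primes of `(P, 2P]`

`Z(p,b) - Z/p = (1/p) ∑_{l=1}^{p-1} S(l/p) ee(-b l/p)`, `S(α) = ∑_{m ∈ blk} a_m ee(m α)` (orthogonality of the additive characters mod `p`,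
`Pool.Agent.H92.EH.sum_complete`), so `∑_{b mod p} |Z(p,b) - Z/p|^2 = (1/p) ∑_{l=1}^{p-1} |S(l/p)|^2` (Parseval on `ℤ/p`; the inequality `≤` is enough).
The large sieve `Pool.Agent.H91.PK.additive_ls` with `2P` for `R` (restricted to the prime moduli `r = p ∈ pb P`, all `b` with `1 ≤ b < p` are coprime to `p`;
`blk H i = Ico (iH) ((i+1)H)` is the interval `Ioc K0 (K0 + H)` with `K0 = i H - 1` if `i H ≥ 1`; for `i H = 0` shift: the element `0` can be treated by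
a translation `m ↦ m + 1` of the sequence, which changes `S` by a unimodular factor) gives the bound `((2P)^2 + π H) ∑ |a|^2`.
-/

set_option autoImplicit false

namespace Pool.Agent.H43.MP

open Finset
open Pool.Agent.H91.PK (ee)
open Pool.Agent.H91.EHA (Lam hR lamR ramS)
open Pool.Agent.H35.W (pb)

private theorem ClsVar_ee (t : ℝ) : ee t = Pool.Agent.H92.EH.e t := by
  unfold Pool.Agent.H91.PK.ee Pool.Agent.H92.EH.e
  congr 1
  push_cast
  ring

private theorem ClsVar_mod {p b m : ℕ} (hb : b < p) : m ≡ b [MOD p] ↔ m % p = b := by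
  unfold Nat.ModEq
  rw [Nat.mod_eq_of_lt hb]

/-- sums over the classes -/
private theorem ClsVar_fiber (p : ℕ) (hp : 0 < p) (s : Finset ℕ) (a : ℕ → ℂ) (f : ℕ → ℂ)
    (hf : ∀ m, f (m % p) = f m) :
    ∑ b ∈ range p, (∑ m ∈ s.filter (fun m => m ≡ b [MOD p]), a m) * f b = ∑ m ∈ s, a m * f m := by
  have h1 : ∀ b ∈ range p, (∑ m ∈ s.filter (fun m => m ≡ b [MOD p]), a m) * f b =
      ∑ m ∈ s, if m % p = b then a m * f m else 0 := by
    intro b hb
    rw [sum_mul, sum_filter]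
    refine sum_congr rfl fun m _ => ?_
    have hb' := mem_range.1 hb
    by_cases h : m % p = b
    · rw [if_pos ((ClsVar_mod hb').2 h), if_pos h, ← h, hf]
    · rw [if_neg (fun h' => h ((ClsVar_mod hb').1 h')), if_neg h]
  rw [sum_congr rfl h1, sum_comm]
  refine sum_congr rfl fun m _ => ?_
  rw [sum_ite_eq, if_pos (mem_range.2 (Nat.mod_lt _ hp))]

/-- the variance in the classes modulo a prime -/
private theorem ClsVar_prime (p H i : ℕ) (hp : 0 < p) (a : ℕ → ℂ) :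
    (p : ℝ) * ∑ b ∈ range p, ‖Zc a H i p b - (1 / (p : ℂ)) * ∑ m ∈ blk H i, a m‖ ^ 2 =
      ∑ l ∈ (range p).erase 0, ‖∑ m ∈ blk H i, a m * ee ((m : ℝ) * l / p)‖ ^ 2 := by
  have hp0 : (p : ℂ) ≠ 0 := by exact_mod_cast hp.ne'
  have h1 := Pool.Agent.H92.EH.parseval_le p hp (range p)
    (fun b => Zc a H i p b - (1 / (p : ℂ)) * ∑ m ∈ blk H i, a m) (fun b => (b : ℤ)) (by
      intro x hx y hy hne hd
      have hx' := mem_range.1 hx
      have hy' := mem_range.1 hy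
      obtain ⟨k, hk⟩ := hd
      have hk0 : k = 0 := by
        by_contra hk0
        rcases lt_or_gt_of_ne hk0 with h | h
        · have : (p : ℤ) * k ≤ -p := by nlinarith
          omega
        · have : (p : ℤ) ≤ p * k := by nlinarith
          omega
      rw [hk0, mul_zero] at hk
      omega)
  rw [← h1]
  have h2 : ∀ l : ℕ, ∑ b ∈ range p, (Zc a H i p b - (1 / (p : ℂ)) * ∑ m ∈ blk H i, a m) *
      Pool.Agent.H92.EH.e (((b : ℤ) : ℝ) * ((l : ℝ) / p)) =
      (∑ m ∈ blk H i, a m * ee ((m : ℝ) * l / p)) -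
        (1 / (p : ℂ)) * (∑ m ∈ blk H i, a m) * ∑ b ∈ range p, Pool.Agent.H92.EH.e (((l : ℤ) : ℝ) * ((b : ℝ) / p)) := by
    intro l
    simp_rw [sub_mul]
    rw [sum_sub_distrib]
    congr 1
    · have h3 := ClsVar_fiber p hp (blk H i) a (fun m => Pool.Agent.H92.EH.e (((m : ℤ) : ℝ) * ((l : ℝ) / p))) (by
        intro m
        have h4 := Pool.Agent.H92.EH.e_mod p m hp (l : ℤ)
        have e1 : (((m % p : ℕ) : ℤ) : ℝ) * ((l : ℝ) / p) = ((l : ℤ) : ℝ) * (((m % p : ℕ) : ℝ) / p) := by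
          rw [Int.cast_natCast, Int.cast_natCast]
          ring
        have e2 : ((m : ℤ) : ℝ) * ((l : ℝ) / p) = ((l : ℤ) : ℝ) * ((m : ℝ) / p) := by
          push_cast
          ring
        beta_reduce
        rw [e1, e2]
        exact h4)
      unfold Zc
      rw [h3]
      refine sum_congr rfl fun m _ => ?_
      rw [ClsVar_ee]
      congr 2
      push_cast
      ring
    · rw [Finset.mul_sum (range p)]
      refine sum_congr rfl fun b _ => ?_
      congr 2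
      push_cast
      ring
  simp_rw [h2]
  have h0 : (0 : ℕ) ∈ range p := mem_range.2 hp
  rw [← add_sum_erase (range p) _ h0]
  have h5 : ‖(∑ m ∈ blk H i, a m * ee ((m : ℝ) * ((0 : ℕ) : ℝ) / p)) -
        (1 / (p : ℂ)) * (∑ m ∈ blk H i, a m) * ∑ b ∈ range p, Pool.Agent.H92.EH.e ((((0 : ℕ) : ℤ) : ℝ) * ((b : ℝ) / p))‖ ^ 2 = 0 := by
    have e1 : ∀ m : ℕ, ee ((m : ℝ) * ((0 : ℕ) : ℝ) / p) = 1 := by
      intro m
      rw [ClsVar_ee]
      simp [Pool.Agent.H92.EH.e_zero]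
    have e2 : ∀ b : ℕ, Pool.Agent.H92.EH.e ((((0 : ℕ) : ℤ) : ℝ) * ((b : ℝ) / p)) = 1 := by
      intro b
      simp [Pool.Agent.H92.EH.e_zero]
    simp_rw [e1, e2]
    rw [sum_const, card_range]
    simp only [mul_one, nsmul_eq_mul]
    have e3 : (1 / (p : ℂ)) * (∑ m ∈ blk H i, a m) * p = ∑ m ∈ blk H i, a m := by
      field_simp
    rw [e3, sub_self, norm_zero]
    norm_num
  rw [h5, zero_add]
  refine sum_congr rfl fun l hl => ?_
  have hl1 := mem_erase.1 hl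
  have hl2 := mem_range.1 hl1.2
  rw [Pool.Agent.H92.EH.sum_complete p hp, if_neg, mul_zero, sub_zero]
  intro hd
  have h6 : p ∣ l := by exact_mod_cast hd
  have h7 := Nat.le_of_dvd (Nat.pos_of_ne_zero hl1.1) h6
  omega

theorem cls_var (P H i : ℕ) (a : ℕ → ℂ) (hP : 1 ≤ P) (hi : 1 ≤ i) (hH : 1 ≤ H) :
    ∑ p ∈ pb P, (p : ℝ) * ∑ b ∈ range p,
        ‖Zc a H i p b - (1 / (p : ℂ)) * ∑ m ∈ blk H i, a m‖ ^ 2
      ≤ (4 * (P : ℝ) ^ 2 + Real.pi * H) * ∑ m ∈ blk H i, ‖a m‖ ^ 2 := by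
  have hiH : 1 ≤ i * H := Nat.one_le_iff_ne_zero.2 (Nat.mul_ne_zero (by omega) (by omega))
  have hblk : blk H i = Ioc (i * H - 1) (i * H - 1 + H) := by
    unfold blk
    ext m
    rw [mem_Ico, mem_Ioc]
    have e1 : (i + 1) * H = i * H + H := by ring
    rw [e1]
    omega
  have h1 := Pool.Agent.H91.PK.additive_ls (2 * P) (i * H - 1) H a
  rw [← hblk] at h1
  have e2 : (((2 * P : ℕ) : ℝ)) ^ 2 = 4 * (P : ℝ) ^ 2 := by
    push_cast
    ring
  rw [e2] at h1
  refine le_trans ?_ h1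
  have hsub : pb P ⊆ Icc 1 (2 * P) := by
    intro p hp
    have hp' := mem_filter.1 hp
    have hp2 := mem_Ioc.1 hp'.1
    exact mem_Icc.2 ⟨hp'.2.one_lt.le, hp2.2⟩
  refine le_trans ?_ (sum_le_sum_of_subset_of_nonneg hsub fun r _ _ => sum_nonneg fun b _ => by positivity)
  refine sum_le_sum fun p hp => ?_
  have hp' := mem_filter.1 hp
  rw [ClsVar_prime p H i hp'.2.pos a]
  refine sum_le_sum_of_subset_of_nonneg ?_ fun _ _ _ => by positivity
  intro l hl
  have hl1 := mem_erase.1 hl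
  have hl2 := mem_range.1 hl1.2
  refine mem_filter.2 ⟨mem_Icc.2 ⟨Nat.pos_of_ne_zero hl1.1, hl2.le⟩, ?_⟩
  exact (Nat.coprime_of_lt_prime (Nat.pos_of_ne_zero hl1.1).ne' hl2 hp'.2).symm

end Pool.Agent.H43.MP

end

section

/-!
# MIDP MainVar: the variance over the block

Cauchy: `(∑_p x_p)^2 ≤ |pb P| ∑_p x_p^2`, `|pb P| ≤ P`.  For a prime `p` of `(P, 2P]` (odd, as `P ≥ 2`) the map `n ↦ 2n mod p` takes every value
`b mod p` for at most `H/p + 1 ≤ 2H/p` integers `n` of the block (`p ≤ 2P ≤ 4P^2 ≤ H`), and `Zc a H i p (2n) = Zc a H i p (2n % p)`.  So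
`∑_n ‖Z(p,2n) - Z/p‖^2 ≤ (2H/p) ∑_{b < p} ‖Z(p,b) - Z/p‖^2` and, as `p > P`,
`∑_p (2H/p) ∑_b = ∑_p (2H/p^2) p ∑_b ≤ (2H/P^2) (4P^2 + π H) ∑|a|^2 ≤ (2H/P^2)(5H) ∑ |a|^2` (`cls_var`, `4P^2 ≤ H`, `1 + π ≤ 5`).
-/

set_option autoImplicit false

namespace Pool.Agent.H43.MP

open Finset
open Pool.Agent.H91.PK (ee)
open Pool.Agent.H91.EHA (Lam hR lamR ramS)
open Pool.Agent.H35.W (pb)

/-- the number of `n` in the block with `2 n` in a class -/
private theorem MainVar_card (H i p b : ℕ) (hp : p.Prime) (h2 : 2 < p) :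
    ((blk H i).filter (fun n => 2 * n % p = b)).card ≤ H / p + 1 := by
  have h : ((blk H i).filter (fun n => 2 * n % p = b)).card ≤ (range (H / p + 1)).card := by
    refine card_le_card_of_injOn (fun n => (n - i * H) / p) ?_ ?_
    · intro n hn
      have hn1 := mem_filter.1 hn
      have hn2 := mem_Ico.1 hn1.1
      have e1 : (i + 1) * H = i * H + H := by ring
      have e2 : n - i * H ≤ H := by omega
      exact mem_coe.2 (mem_range.2 (Nat.lt_succ_of_le (Nat.div_le_div_right e2)))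
    · intro n hn n' hn' he
      have hn1 := mem_filter.1 hn
      have hn2 := mem_Ico.1 hn1.1
      have hn1' := mem_filter.1 hn'
      have hn2' := mem_Ico.1 hn1'.1
      have he' : (n - i * H) / p = (n' - i * H) / p := he
      have hmod : 2 * n ≡ 2 * n' [MOD p] := by
        unfold Nat.ModEq
        rw [hn1.2, hn1'.2]
      have hcop : Nat.gcd p 2 = 1 := by
        rw [Nat.gcd_comm]
        exact (Nat.coprime_primes Nat.prime_two hp).2 (by omega)
      have hmod2 : n ≡ n' [MOD p] := Nat.ModEq.cancel_left_of_coprime hcop hmod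
      have hmod3 : n - i * H ≡ n' - i * H [MOD p] := by
        have e1 : i * H + (n - i * H) ≡ i * H + (n' - i * H) [MOD p] := by
          rw [Nat.add_sub_cancel' hn2.1, Nat.add_sub_cancel' hn2'.1]
          exact hmod2
        exact Nat.ModEq.add_left_cancel' _ e1
      have h3 : n - i * H = n' - i * H := by
        rw [← Nat.div_add_mod (n - i * H) p, ← Nat.div_add_mod (n' - i * H) p, he', hmod3]
      omega
  rwa [card_range] at h

private theorem MainVar_mod (a : ℕ → ℂ) (H i p n : ℕ) : Zc a H i p n = Zc a H i p (n % p) := by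
  unfold Zc
  congr 1
  refine filter_congr fun m _ => ?_
  unfold Nat.ModEq
  rw [Nat.mod_mod]

private theorem MainVar_prime (H i p : ℕ) (hp : p.Prime) (h2 : 2 < p) (hpH : p ≤ H) (g : ℕ → ℝ) (hg : ∀ b, 0 ≤ g b) :
    ∑ n ∈ blk H i, g (2 * n % p) ≤ (2 * (H : ℝ) / p) * ∑ b ∈ range p, g b := by
  rw [← sum_fiberwise_of_maps_to (s := blk H i) (t := range p) (g := fun n => 2 * n % p)
    (fun n _ => mem_range.2 (Nat.mod_lt _ hp.pos)), mul_sum]
  refine sum_le_sum fun b _ => ?_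
  have h1 : ∑ n ∈ (blk H i).filter (fun n => 2 * n % p = b), g (2 * n % p) =
      (((blk H i).filter (fun n => 2 * n % p = b)).card : ℝ) * g b := by
    rw [← nsmul_eq_mul, ← sum_const]
    refine sum_congr rfl fun n hn => ?_
    rw [(mem_filter.1 hn).2]
  rw [h1]
  refine mul_le_mul_of_nonneg_right ?_ (hg b)
  have hp0 : (0 : ℝ) < p := by exact_mod_cast hp.pos
  have h3 : (((blk H i).filter (fun n => 2 * n % p = b)).card : ℝ) ≤ ((H / p : ℕ) : ℝ) + 1 := by
    exact_mod_cast MainVar_card H i p b hp h2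
  have h4 : ((H / p : ℕ) : ℝ) ≤ (H : ℝ) / p := Nat.cast_div_le
  have h5 : (1 : ℝ) ≤ (H : ℝ) / p := by
    rw [le_div_iff₀ hp0, one_mul]
    exact_mod_cast hpH
  have h6 : 2 * (H : ℝ) / p = (H : ℝ) / p + (H : ℝ) / p := by ring
  rw [h6]
  linarith

theorem main_var (P H i : ℕ) (a : ℕ → ℂ) (hP : 2 ≤ P) (hi : 1 ≤ i) (hPH : 4 * P ^ 2 ≤ H) :
    ∑ n ∈ blk H i, (∑ p ∈ pb P,
        ‖Zc a H i p (2 * n) - (1 / (p : ℂ)) * ∑ m ∈ blk H i, a m‖) ^ 2
      ≤ 10 * (H : ℝ) ^ 2 / P * ∑ m ∈ blk H i, ‖a m‖ ^ 2 := by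
  have hH1 : 1 ≤ H := by nlinarith
  have hPr : (2 : ℝ) ≤ P := by exact_mod_cast hP
  have hHr : 4 * (P : ℝ) ^ 2 ≤ H := by exact_mod_cast hPH
  have hcard : ((pb P).card : ℝ) ≤ P := by
    have h1 : (pb P).card ≤ (Ioc P (2 * P)).card := card_filter_le _ _
    rw [Nat.card_Ioc] at h1
    have h2 : (pb P).card ≤ P := by omega
    exact_mod_cast h2
  set S : ℝ := ∑ m ∈ blk H i, ‖a m‖ ^ 2 with hS
  have hS0 : 0 ≤ S := sum_nonneg fun _ _ => by positivity
  have hcv := cls_var P H i a (by omega) hi hH1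
  rw [← hS] at hcv
  set X : ℕ → ℕ → ℝ := fun p b => ‖Zc a H i p b - (1 / (p : ℂ)) * ∑ m ∈ blk H i, a m‖ ^ 2 with hX
  have h1 : ∀ n ∈ blk H i, (∑ p ∈ pb P,
        ‖Zc a H i p (2 * n) - (1 / (p : ℂ)) * ∑ m ∈ blk H i, a m‖) ^ 2 ≤ P * ∑ p ∈ pb P, X p (2 * n % p) := by
    intro n _
    have h2 := sq_sum_le_card_mul_sum_sq (s := pb P)
      (f := fun p => ‖Zc a H i p (2 * n) - (1 / (p : ℂ)) * ∑ m ∈ blk H i, a m‖)
    have h3 : ∑ p ∈ pb P, ‖Zc a H i p (2 * n) - (1 / (p : ℂ)) * ∑ m ∈ blk H i, a m‖ ^ 2 = ∑ p ∈ pb P, X p (2 * n % p) := by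
      refine sum_congr rfl fun p _ => ?_
      rw [hX, MainVar_mod]
    rw [h3] at h2
    refine h2.trans ?_
    exact mul_le_mul_of_nonneg_right hcard (sum_nonneg fun _ _ => by rw [hX]; positivity)
  refine (sum_le_sum h1).trans ?_
  rw [← mul_sum, sum_comm]
  have h4 : ∀ p ∈ pb P, ∑ n ∈ blk H i, X p (2 * n % p) ≤ (2 * (H : ℝ) / P ^ 2) * (p * ∑ b ∈ range p, X p b) := by
    intro p hp
    have hp1 := mem_filter.1 hp
    have hp2 := mem_Ioc.1 hp1.1
    have hpH : p ≤ H := by nlinarith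
    have hpr : (P : ℝ) ≤ p := by exact_mod_cast hp2.1.le
    have hp0 : (0 : ℝ) < p := by linarith
    have h5 := MainVar_prime H i p hp1.2 (by omega) hpH (X p) (fun b => by rw [hX]; positivity)
    refine h5.trans ?_
    have h6 : 0 ≤ ∑ b ∈ range p, X p b := sum_nonneg fun _ _ => by rw [hX]; positivity
    rw [← mul_assoc]
    refine mul_le_mul_of_nonneg_right ?_ h6
    have hP0 : (0 : ℝ) < P := by linarith
    rw [div_mul_eq_mul_div, div_le_div_iff₀ hp0 (by positivity)]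
    have h7 : (P : ℝ) ^ 2 ≤ p * p := by nlinarith
    have h8 : (0 : ℝ) ≤ 2 * H := by positivity
    calc 2 * (H : ℝ) * P ^ 2 ≤ 2 * H * (p * p) := mul_le_mul_of_nonneg_left h7 h8
      _ = 2 * H * p * p := by ring
  have h9 := sum_le_sum h4
  rw [← mul_sum] at h9
  have hP0 : (0 : ℝ) < P := by linarith
  have h10 : (P : ℝ) * ∑ p ∈ pb P, ∑ n ∈ blk H i, X p (2 * n % p) ≤
      P * ((2 * (H : ℝ) / P ^ 2) * ((4 * (P : ℝ) ^ 2 + Real.pi * H) * S)) := by
    refine mul_le_mul_of_nonneg_left (h9.trans ?_) hP0.le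
    exact mul_le_mul_of_nonneg_left hcv (by positivity)
  refine h10.trans ?_
  have hpi : Real.pi ≤ 4 := Real.pi_le_four
  have hH0 : (0 : ℝ) ≤ H := Nat.cast_nonneg H
  have h11 : (4 * (P : ℝ) ^ 2 + Real.pi * H) ≤ 5 * H := by nlinarith
  have h12 : (4 * (P : ℝ) ^ 2 + Real.pi * H) * S ≤ 5 * H * S := mul_le_mul_of_nonneg_right h11 hS0
  calc (P : ℝ) * ((2 * (H : ℝ) / P ^ 2) * ((4 * (P : ℝ) ^ 2 + Real.pi * H) * S))
      ≤ P * ((2 * (H : ℝ) / P ^ 2) * (5 * H * S)) := by gcongr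
    _ = 10 * (H : ℝ) ^ 2 / P * S := by
        field_simp
        ring

end Pool.Agent.H43.MP

end

section

/-!
# MIDP Split: `FF = Fs + Λ_R · omP`

`Λ_R(m/p) = Λ_R(m)` because all `r ≤ R ≤ P < p` are prime to `p` (`lamR_mul`).
-/

set_option autoImplicit false

namespace Pool.Agent.H43.MP

open Finset
open Pool.Agent.H91.PK (ee)
open Pool.Agent.H91.EHA (Lam hR lamR ramS)
open Pool.Agent.H35.W (pb)

theorem FF_split (P R m : ℕ) (hRP : R ≤ P) :
    FF P m = Fs P R m + lamR R m * omP P m := by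
  unfold FF Fs omP
  rw [card_eq_sum_ones, Nat.cast_sum, mul_sum, ← sum_add_distrib]
  refine sum_congr rfl fun p hp => ?_
  obtain ⟨h1, h2⟩ := mem_filter.1 hp
  have h3 : p.Prime ∧ P < p := by
    unfold pb at h1
    rw [mem_filter, mem_Ioc] at h1
    exact ⟨h1.2, h1.1.1⟩
  have h4 := Pool.Agent.H76.SP.lamR_mul R p (m / p) h3.1 (by omega)
  rw [Nat.mul_div_cancel' h2] at h4
  rw [h4]
  unfold hR
  push_cast
  ring

end Pool.Agent.H43.MP

end

section

/-!
# PX Main: the correlation `∑_{m ∈ blk} Y(m) FF(2n - m)` for a well distributed function `Y` (model: H43/MP/MainTerm, Conv, Split)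
-/

set_option autoImplicit false

namespace Pool.Agent.H43.PX

open Finset
open Pool.Agent.H91.PK (ee)
open Pool.Agent.H91.EHA (Lam hR lamR ramS)
open Pool.Agent.H35.W (pb)
open Pool.Agent.H76.GB (SR)
open Pool.Agent.H43.MP
open Pool.Agent.H43.TS (badQ)

/-- `∑_{m ∈ blk} Y(m) FF(2n - m)` -/
noncomputable def rrY (Y : ℕ → ℝ) (P H i n : ℕ) : ℝ := ∑ m ∈ blk H i, Y m * FF P (2 * n - m)

/-- the error term -/
noncomputable def rsY (Y : ℕ → ℝ) (P R H i n : ℕ) : ℝ := ∑ m ∈ blk H i, Y m * Fs P R (2 * n - m)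

/-- the main term -/
noncomputable def rmY (Y : ℕ → ℝ) (P R H i n : ℕ) : ℝ :=
  ∑ m ∈ blk H i, Y m * (lamR R (2 * n - m) * omP P (2 * n - m))

theorem rrY_split (Y : ℕ → ℝ) (P R H i n : ℕ) (hRP : R ≤ P) :
    rrY Y P H i n = rsY Y P R H i n + rmY Y P R H i n := by
  unfold rrY rsY rmY
  rw [← sum_add_distrib]
  refine sum_congr rfl fun m _ => ?_
  rw [FF_split P R _ hRP]
  ring

/-- the reduced residues -/
private def mt_red (r : ℕ) : Finset ℕ := (Icc 1 r).filter (fun b => Nat.Coprime b r)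

private theorem mt_card (r : ℕ) (_hr : 1 ≤ r) : (mt_red r).card = r.totient := by
  have h := Nat.filter_coprime_Ico_eq_totient r 1
  rw [← h]
  unfold mt_red
  congr 1
  ext b
  simp only [mem_filter, mem_Icc, mem_Ico]
  constructor
  · rintro ⟨⟨h1, h2⟩, h3⟩
    exact ⟨⟨h1, by omega⟩, h3.symm⟩
  · rintro ⟨⟨h1, h2⟩, h3⟩
    exact ⟨⟨h1, by omega⟩, h3.symm⟩

/-- the twisted von Mangoldt function -/
private noncomputable def mt_a (Y : ℕ → ℝ) (r b m : ℕ) : ℂ := ((Y m : ℝ) : ℂ) * ee (-((b : ℝ) * m / r))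

private theorem mt_norm (Y : ℕ → ℝ) (r b m : ℕ) : ‖mt_a Y r b m‖ = |Y m| := by
  unfold mt_a
  rw [norm_mul, Pool.Agent.H91.PK.LSa_norm_ee, mul_one, Complex.norm_real, Real.norm_eq_abs]

private theorem mt_le (H i n m : ℕ) (hi : 1 ≤ i) (hn : n ∈ blk H i) (hm : m ∈ blk H i) :
    m < 2 * n := by
  unfold blk at hn hm
  rw [mem_Ico] at hn hm
  have h1 : (i + 1) * H ≤ 2 * (i * H) := by nlinarith
  omega

/-- the exact formula for `rm` -/
private theorem mt_exact (Y : ℕ → ℝ) (P R H i n : ℕ) (hi : 1 ≤ i) (hn : n ∈ blk H i) :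
    ((rmY Y P R H i n : ℝ) : ℂ) = ∑ r ∈ Icc 1 R, (((ArithmeticFunction.moebius r : ℝ) / (r.totient : ℝ) : ℝ) : ℂ)
      * ∑ b ∈ mt_red r, ee (((2 * n : ℕ) : ℝ) * b / r) * ∑ p ∈ pb P, Zc (mt_a Y r b) H i p (2 * n) := by
  have h1 : ∀ m ∈ blk H i, ((Y m * (lamR R (2 * n - m) * omP P (2 * n - m)) : ℝ) : ℂ)
      = ∑ r ∈ Icc 1 R, (((ArithmeticFunction.moebius r : ℝ) / (r.totient : ℝ) : ℝ) : ℂ)
        * ∑ b ∈ mt_red r, ee (((2 * n : ℕ) : ℝ) * b / r) *
          ∑ p ∈ pb P, (if m ≡ 2 * n [MOD p] then mt_a Y r b m else 0) := by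
    intro m hm
    have hmn := mt_le H i n m hi hn hm
    have h2 : ((omP P (2 * n - m) : ℕ) : ℂ) = ∑ p ∈ pb P, (if m ≡ 2 * n [MOD p] then (1 : ℂ) else 0) := by
      unfold omP
      rw [card_filter]
      push_cast
      refine sum_congr rfl fun p _ => ?_
      have h3 : p ∣ 2 * n - m ↔ m ≡ 2 * n [MOD p] := (Nat.modEq_iff_dvd' hmn.le).symm
      by_cases h4 : p ∣ 2 * n - m
      · rw [if_pos h4, if_pos (h3.1 h4)]
      · rw [if_neg h4, if_neg fun h => h4 (h3.2 h)]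
    have h3 : ((lamR R (2 * n - m) : ℝ) : ℂ) = ∑ r ∈ Icc 1 R,
        (((ArithmeticFunction.moebius r : ℝ) / (r.totient : ℝ) : ℝ) : ℂ)
          * ∑ b ∈ mt_red r, ee (((2 * n - m : ℕ) : ℝ) * b / r) := by
      unfold lamR
      rw [Complex.ofReal_sum]
      refine sum_congr rfl fun r hr => ?_
      rw [mem_Icc] at hr
      rw [Complex.ofReal_mul, Pool.Agent.H91.EHA.ramS_eq r _ hr.1]
      rfl
    rw [Complex.ofReal_mul, Complex.ofReal_mul, Complex.ofReal_natCast, h2, h3, sum_mul, mul_sum]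
    refine sum_congr rfl fun r hr => ?_
    rw [mul_assoc, mul_left_comm]
    congr 1
    rw [sum_mul, mul_sum]
    refine sum_congr rfl fun b _ => ?_
    rw [mul_sum, mul_sum, mul_sum]
    refine sum_congr rfl fun p _ => ?_
    split_ifs
    · unfold mt_a
      have h4 : ee (((2 * n - m : ℕ) : ℝ) * b / r)
          = ee (((2 * n : ℕ) : ℝ) * b / r) * ee (-((b : ℝ) * m / r)) := by
        rw [← Pool.Agent.H91.PK.LSa_ee_add]
        congr 1
        rw [Nat.cast_sub hmn.le]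
        ring
      rw [h4]
      ring
    · ring
  unfold rmY
  rw [Complex.ofReal_sum, sum_congr rfl h1, sum_comm]
  refine sum_congr rfl fun r _ => ?_
  rw [← mul_sum, sum_comm]
  congr 1
  refine sum_congr rfl fun b _ => ?_
  rw [← mul_sum, sum_comm]
  congr 1
  refine sum_congr rfl fun p _ => ?_
  unfold Zc
  rw [sum_filter]

/-- the error function -/
private noncomputable def mt_E (Y : ℕ → ℝ) (P R H i n : ℕ) : ℝ :=
  ∑ t ∈ (Icc 1 R).sigma mt_red, 1 / (t.1.totient : ℝ) *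
    ∑ p ∈ pb P, ‖Zc (mt_a Y t.1 t.2) H i p (2 * n) - (1 / (p : ℂ)) * ∑ m ∈ blk H i, mt_a Y t.1 t.2 m‖

private theorem mt_E_sq (Y : ℕ → ℝ) (P R H i : ℕ) (hP : 2 ≤ P) (hi1 : 1 ≤ i) (hPH : 4 * P ^ 2 ≤ H) :
    ∑ n ∈ blk H i, mt_E Y P R H i n ^ 2
      ≤ 10 * (R : ℝ) ^ 2 * (H : ℝ) ^ 2 / P * ∑ m ∈ blk H i, Y m ^ 2 := by
  set T := (Icc 1 R).sigma mt_red with hT
  have hw : ∑ t ∈ T, 1 / (t.1.totient : ℝ) = R := by
    rw [hT, sum_sigma]
    have : ∀ r ∈ Icc 1 R, ∑ b ∈ mt_red r, 1 / (((⟨r, b⟩ : Σ _ : ℕ, ℕ).1.totient : ℕ) : ℝ) = 1 := by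
      intro r hr
      rw [mem_Icc] at hr
      show ∑ _b ∈ mt_red r, 1 / (r.totient : ℝ) = 1
      rw [sum_const, mt_card r hr.1, nsmul_eq_mul]
      have : (0 : ℝ) < r.totient := by exact_mod_cast Nat.totient_pos.2 hr.1
      field_simp
    rw [sum_congr rfl this]
    simp
  have hx : ∀ n, mt_E Y P R H i n ^ 2 ≤ R * ∑ t ∈ T, 1 / (t.1.totient : ℝ) *
      (∑ p ∈ pb P, ‖Zc (mt_a Y t.1 t.2) H i p (2 * n)
        - (1 / (p : ℂ)) * ∑ m ∈ blk H i, mt_a Y t.1 t.2 m‖) ^ 2 := by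
    intro n
    rw [← hw]
    unfold mt_E
    refine sum_sq_le_sum_mul_sum_of_sq_le_mul T (fun t _ => by positivity) (fun t _ => by positivity)
      fun t _ => le_of_eq (by ring)
  calc ∑ n ∈ blk H i, mt_E Y P R H i n ^ 2
      ≤ ∑ n ∈ blk H i, (R : ℝ) * ∑ t ∈ T, 1 / (t.1.totient : ℝ) *
        (∑ p ∈ pb P, ‖Zc (mt_a Y t.1 t.2) H i p (2 * n)
          - (1 / (p : ℂ)) * ∑ m ∈ blk H i, mt_a Y t.1 t.2 m‖) ^ 2 := sum_le_sum fun n _ => hx n
    _ = (R : ℝ) * ∑ t ∈ T, 1 / (t.1.totient : ℝ) * ∑ n ∈ blk H i,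
        (∑ p ∈ pb P, ‖Zc (mt_a Y t.1 t.2) H i p (2 * n)
          - (1 / (p : ℂ)) * ∑ m ∈ blk H i, mt_a Y t.1 t.2 m‖) ^ 2 := by
        rw [← mul_sum, sum_comm]
        congr 1
        refine sum_congr rfl fun t _ => ?_
        rw [mul_sum]
    _ ≤ (R : ℝ) * ∑ t ∈ T, 1 / (t.1.totient : ℝ) * (10 * (H : ℝ) ^ 2 / P * ∑ m ∈ blk H i, Y m ^ 2) := by
        refine mul_le_mul_of_nonneg_left (sum_le_sum fun t _ => ?_) (Nat.cast_nonneg R)
        refine mul_le_mul_of_nonneg_left ?_ (by positivity)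
        refine (main_var P H i (mt_a Y t.1 t.2) hP hi1 hPH).trans (le_of_eq ?_)
        congr 1
        refine sum_congr rfl fun m _ => ?_
        rw [mt_norm, sq_abs]
    _ = _ := by
        rw [← sum_mul, hw]
        ring

theorem rmY_near (Y g : ℕ → ℝ) (N A B P H i : ℕ) (hP : 2 ≤ P) (hi1 : 1 ≤ i) (hPH : 4 * P ^ 2 ≤ H)
    (hi : i ∈ idx N H) (hg : i ∉ badQ N H A B Y g) :
    ∃ E : ℕ → ℝ, (∀ n ∈ blk H i, |rmY Y P (Rn B N) H i n - WP P * (H * g i) * SR (Rn B N) (2 * n)|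
        ≤ WP P * (Rn B N) * ((H : ℝ) / Real.log N ^ A) + E n) ∧
      ∑ n ∈ blk H i, E n ^ 2 ≤ 10 * (Rn B N : ℝ) ^ 2 * (H : ℝ) ^ 2 / P * ∑ m ∈ blk H i, Y m ^ 2 := by
  set R := Rn B N with hR
  refine ⟨mt_E Y P R H i, fun n hn => ?_, mt_E_sq Y P R H i hP hi1 hPH⟩
  have hW0 : 0 ≤ WP P := sum_nonneg fun p _ => by positivity
  have hgood : ∀ r ∈ Icc 1 R, ∀ b ∈ mt_red r, ‖∑ m ∈ blk H i, mt_a Y r b m
      - (((ArithmeticFunction.moebius r : ℝ) / (r.totient : ℝ) * (H * g i) : ℝ) : ℂ)‖ ≤ (H : ℝ) / Real.log N ^ A := by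
    intro r hr b hb
    by_contra hcon
    push Not at hcon
    apply hg
    classical
    unfold badQ
    rw [mem_Icc] at hr
    unfold mt_red at hb
    rw [mem_filter] at hb
    simp only [mem_filter]
    refine ⟨hi, r, b, hr.1, ?_, hb.2, hcon⟩
    have h1 : (r : ℝ) ≤ R := by exact_mod_cast hr.2
    refine h1.trans ?_
    rw [hR]
    unfold Rn
    refine Nat.floor_le ?_
    have : 0 ≤ Real.log N := Real.log_natCast_nonneg N
    positivity
  -- the main term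
  have hmain : ((WP P * (H * g i) * SR R (2 * n) : ℝ) : ℂ) = ∑ r ∈ Icc 1 R,
      (((ArithmeticFunction.moebius r : ℝ) / (r.totient : ℝ) : ℝ) : ℂ)
        * ∑ b ∈ mt_red r, ee (((2 * n : ℕ) : ℝ) * b / r) * ((WP P : ℝ) : ℂ) *
          (((ArithmeticFunction.moebius r : ℝ) / (r.totient : ℝ) * (H * g i) : ℝ) : ℂ) := by
    unfold SR
    rw [Complex.ofReal_mul, Complex.ofReal_sum, mul_sum]
    refine sum_congr rfl fun r hr => ?_
    rw [mem_Icc] at hr
    have h1 := Pool.Agent.H91.EHA.ramS_eq r (2 * n) hr.1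
    have h2 : ((ArithmeticFunction.moebius r : ℝ) ^ 2 * ramS r (2 * n) / (r.totient : ℝ) ^ 2 : ℝ)
        = ((ArithmeticFunction.moebius r : ℝ) / (r.totient : ℝ)) ^ 2 * ramS r (2 * n) := by
      rw [div_pow]; ring
    rw [h2, Complex.ofReal_mul, Complex.ofReal_mul, Complex.ofReal_mul, h1, mul_sum, mul_sum, mul_sum]
    refine sum_congr rfl fun b _ => ?_
    push_cast
    ring
  have hkey : ‖((rmY Y P R H i n : ℝ) : ℂ) - ((WP P * (H * g i) * SR R (2 * n) : ℝ) : ℂ)‖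
      ≤ ∑ r ∈ Icc 1 R, ∑ b ∈ mt_red r, (1 / (r.totient : ℝ) *
        (∑ p ∈ pb P, ‖Zc (mt_a Y r b) H i p (2 * n) - (1 / (p : ℂ)) * ∑ m ∈ blk H i, mt_a Y r b m‖)
        + 1 / (r.totient : ℝ) * (WP P * ((H : ℝ) / Real.log N ^ A))) := by
    rw [mt_exact Y P R H i n hi1 hn, hmain, ← sum_sub_distrib]
    refine norm_sum_le_of_le _ fun r hr => ?_
    rw [← mul_sub, ← sum_sub_distrib, mul_sum]
    refine norm_sum_le_of_le _ fun b hb => ?_
    have hr1 : 1 ≤ r := (mem_Icc.1 hr).1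
    have hphi : (0 : ℝ) < r.totient := by exact_mod_cast Nat.totient_pos.2 hr1
    rw [mul_assoc (ee _), ← mul_sub, norm_mul, norm_mul, Pool.Agent.H91.PK.LSa_norm_ee, one_mul,
      Complex.norm_real, Real.norm_eq_abs, abs_div, abs_of_pos hphi, ← mul_add]
    have hmu : |(ArithmeticFunction.moebius r : ℝ)| ≤ 1 := by
      have := ArithmeticFunction.abs_moebius_le_one (n := r)
      exact_mod_cast this
    refine mul_le_mul (div_le_div_of_nonneg_right hmu hphi.le) ?_ (norm_nonneg _) (by positivity)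
    have hWc : ((WP P : ℝ) : ℂ) = ∑ p ∈ pb P, 1 / (p : ℂ) := by
      unfold WP
      push_cast
      rfl
    have hsplit : ∑ p ∈ pb P, Zc (mt_a Y r b) H i p (2 * n) - ((WP P : ℝ) : ℂ) *
          (((ArithmeticFunction.moebius r : ℝ) / (r.totient : ℝ) * (H * g i) : ℝ) : ℂ)
        = ∑ p ∈ pb P, (Zc (mt_a Y r b) H i p (2 * n) - (1 / (p : ℂ)) * ∑ m ∈ blk H i, mt_a Y r b m)
          + ((WP P : ℝ) : ℂ) * (∑ m ∈ blk H i, mt_a Y r b m
            - (((ArithmeticFunction.moebius r : ℝ) / (r.totient : ℝ) * (H * g i) : ℝ) : ℂ)) := by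
      rw [sum_sub_distrib, ← sum_mul, ← hWc]
      ring
    rw [hsplit]
    refine (norm_add_le _ _).trans (add_le_add (norm_sum_le _ _) ?_)
    rw [norm_mul, Complex.norm_real, Real.norm_eq_abs, abs_of_nonneg hW0]
    exact mul_le_mul_of_nonneg_left (hgood r hr b hb) hW0
  rw [← Complex.ofReal_sub, Complex.norm_real, Real.norm_eq_abs] at hkey
  refine hkey.trans (le_of_eq ?_)
  rw [sum_congr rfl fun r _ => sum_add_distrib, sum_add_distrib]
  have h1 : ∑ r ∈ Icc 1 R, ∑ _b ∈ mt_red r, 1 / (r.totient : ℝ) * (WP P * ((H : ℝ) / Real.log N ^ A))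
      = WP P * R * ((H : ℝ) / Real.log N ^ A) := by
    have : ∀ r ∈ Icc 1 R, ∑ _b ∈ mt_red r, 1 / (r.totient : ℝ) * (WP P * ((H : ℝ) / Real.log N ^ A))
        = WP P * ((H : ℝ) / Real.log N ^ A) := by
      intro r hr
      rw [mem_Icc] at hr
      rw [sum_const, mt_card r hr.1, nsmul_eq_mul]
      have : (0 : ℝ) < r.totient := by exact_mod_cast Nat.totient_pos.2 hr.1
      field_simp
    rw [sum_congr rfl this]
    simp only [sum_const, Nat.card_Icc, nsmul_eq_mul, add_tsub_cancel_right]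
    ring
  rw [h1, add_comm]
  congr 1
  unfold mt_E
  rw [sum_sigma]

theorem rsY_l2 (Y0 : ℕ → ℝ) (P R H i : ℕ) (hi : 1 ≤ i) (S : ℝ)
    (h0 : ∀ α : ℝ, ‖∑ m ∈ blk H (i - 1), ((Fs P R m : ℝ) : ℂ) * ee (-(α * m))‖ ≤ S)
    (h1 : ∀ α : ℝ, ‖∑ m ∈ blk H i, ((Fs P R m : ℝ) : ℂ) * ee (-(α * m))‖ ≤ S)
    (h2 : ∀ α : ℝ, ‖∑ m ∈ blk H (i + 1), ((Fs P R m : ℝ) : ℂ) * ee (-(α * m))‖ ≤ S) :
    ∑ n ∈ blk H i, rsY Y0 P R H i n ^ 2 ≤ 9 * S ^ 2 * ∑ m ∈ blk H i, Y0 m ^ 2 := by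
  obtain ⟨j, rfl⟩ : ∃ j, i = j + 1 := ⟨i - 1, by omega⟩
  rw [Nat.add_sub_cancel] at h0
  set Y : Finset ℕ := Ico (j * H) ((j + 3) * H) with hY
  have e1 : (j + 1) * H = j * H + H := by ring
  have e2 : (j + 1 + 1) * H = j * H + 2 * H := by ring
  have e3 : (j + 3) * H = j * H + 3 * H := by ring
  have e4 : (j + 1 + 1 + 1) * H = j * H + 3 * H := by ring
  have hYs : ∀ α : ℝ, ‖∑ m ∈ Y, ((Fs P R m : ℝ) : ℂ) * ee (-(α * m))‖ ≤ 3 * S := by
    intro α
    have h3 : ∑ m ∈ Y, ((Fs P R m : ℝ) : ℂ) * ee (-(α * m)) =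
        ∑ m ∈ blk H j, ((Fs P R m : ℝ) : ℂ) * ee (-(α * m)) +
        ∑ m ∈ blk H (j + 1), ((Fs P R m : ℝ) : ℂ) * ee (-(α * m)) +
        ∑ m ∈ blk H (j + 1 + 1), ((Fs P R m : ℝ) : ℂ) * ee (-(α * m)) := by
      unfold blk
      rw [Finset.sum_Ico_consecutive _ (by rw [e1]; omega) (by rw [e1, e2]; omega),
        Finset.sum_Ico_consecutive _ (by rw [e2]; omega) (by rw [e2, e4]; omega)]
    rw [h3]
    calc _ ≤ S + S + S := (norm_add_le _ _).trans (add_le_add ((norm_add_le _ _).trans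
            (add_le_add (h0 α) (h1 α))) (h2 α))
      _ = 3 * S := by ring
  have key := conv_l2 Y0 (Fs P R) (blk H (j + 1)) Y ((blk H (j + 1)).image (fun n => 2 * n))
    (3 * S) hYs
  rw [Finset.sum_image (fun a _ b _ hab => by omega)] at key
  have h4 : ∑ n ∈ blk H (j + 1), rsY Y0 P R H (j + 1) n ^ 2 =
      ∑ n ∈ blk H (j + 1), (∑ m ∈ (blk H (j + 1)).filter (fun m => m ≤ 2 * n ∧ 2 * n - m ∈ Y),
        Y0 m * Fs P R (2 * n - m)) ^ 2 := by
    refine Finset.sum_congr rfl fun n hn => ?_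
    unfold rsY
    congr 1
    rw [Finset.filter_true_of_mem]
    intro m hm
    unfold blk at hm hn
    rw [Finset.mem_Ico, e1, e2] at hm hn
    rw [hY, Finset.mem_Ico, e3]
    omega
  rw [h4]
  refine key.trans (le_of_eq ?_)
  ring

end Pool.Agent.H43.PX

end

section

/-!
# MIDP WPb: `W = ∑_{p ∈ pb P} 1/p` and `∑ Λ²` on a block

`WP P ≤ 1` (`|pb P| ≤ P`, every term `≤ 1/P`), `WP P ≥ |pb P|/(2P) ≥ 1/(16 log P)` (`pb_card`);
`∑_{m ∈ blk H i} Λ(m)^2 ≤ H (2 L)^2` if the block is contained in `[1, N^2]`.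
-/

set_option autoImplicit false

namespace Pool.Agent.H43.MP

open Finset
open Pool.Agent.H91.PK (ee)
open Pool.Agent.H91.EHA (Lam hR lamR ramS)
open Pool.Agent.H35.W (pb)

private theorem wPb_card (P : ℕ) : (pb P).card ≤ P := by
  unfold Pool.Agent.H35.W.pb
  refine (Finset.card_filter_le _ _).trans ?_
  rw [Nat.card_Ioc]
  omega

private theorem wPb_mem {P p : ℕ} (h : p ∈ pb P) : P < p ∧ p ≤ 2 * P := by
  unfold Pool.Agent.H35.W.pb at h
  rw [mem_filter, mem_Ioc] at h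
  exact h.1

theorem WP_le (P : ℕ) (hP : 1 ≤ P) : WP P ≤ 1 := by
  have hP0 : (0 : ℝ) < P := by exact_mod_cast hP
  have h1 : WP P ≤ ∑ _p ∈ pb P, 1 / (P : ℝ) := by
    unfold WP
    refine Finset.sum_le_sum fun p hp => ?_
    have h := (wPb_mem hp).1
    exact one_div_le_one_div_of_le hP0 (by exact_mod_cast h.le)
  rw [sum_const, nsmul_eq_mul] at h1
  have h2 : ((pb P).card : ℝ) ≤ P := by exact_mod_cast wPb_card P
  calc WP P ≤ ((pb P).card : ℝ) * (1 / P) := h1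
    _ ≤ P * (1 / P) := mul_le_mul_of_nonneg_right h2 (by positivity)
    _ = 1 := by field_simp

theorem WP_ge : ∃ P0 : ℕ, ∀ P : ℕ, P0 ≤ P → 1 / (16 * Real.log P) ≤ WP P := by
  obtain ⟨P0, h0⟩ := Pool.Agent.H76.GB.pb_card
  refine ⟨max P0 2, fun P hP => ?_⟩
  have h1 := h0 P (le_trans (le_max_left _ _) hP)
  have hP2 : 2 ≤ P := le_trans (le_max_right _ _) hP
  have hP0 : (0 : ℝ) < P := by exact_mod_cast (by omega : 0 < P)
  have hl : 0 < Real.log P := Real.log_pos (by exact_mod_cast (by omega : 1 < P))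
  have h2 : ∑ _p ∈ pb P, 1 / (2 * (P : ℝ)) ≤ WP P := by
    unfold WP
    refine Finset.sum_le_sum fun p hp => ?_
    have h := (wPb_mem hp).2
    have hp0 : (0 : ℝ) < p := by exact_mod_cast (by have := (wPb_mem hp).1; omega : 0 < p)
    exact one_div_le_one_div_of_le hp0 (by exact_mod_cast h)
  rw [sum_const, nsmul_eq_mul] at h2
  calc 1 / (16 * Real.log P) = (P : ℝ) / (8 * Real.log P) * (1 / (2 * P)) := by
        field_simp
        ring
    _ ≤ ((pb P).card : ℝ) * (1 / (2 * P)) := mul_le_mul_of_nonneg_right h1 (by positivity)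
    _ ≤ WP P := h2

end Pool.Agent.H43.MP

end

section

/-!
# MIDP PPw: the integers `n` which meet proper prime powers

`ppE N P H` = the `n ∈ (N, 2N]` such that some `m ∈ blk H (n/H)` is a proper prime power or `2n - m = p l` with `p ∈ pb P`, `l` a proper prime power.
First kind: `m < 3N` (`m < n + H ≤ 3N`), `n` is in the block of `m`: `≤ H` integers `n` for every `m`.  Second kind: `p l = 2n - m`, `|p l - n| ≤ H`, so for every pair
`(p, l)` at most `2H + 1` integers `n`; `l ≤ 3N/P`.  Number of proper prime powers `≤ y`: `∑_{n ≤ y, not prime} Λ(n) ≤ 2 √y log y`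
(`Chebyshev.psi_sub_theta_le`, `Chebyshev.psi_sub_theta_eq_sum_not_prime`, compare `ppow_sum2` in `H76/GB/PPow.lean`) and `Λ ≥ log 2` where `Λ ≠ 0`:
at most `4 √y log y` (`2/log 2 ≤ 4`).  Total `≤ H · 4 √(3N) log (3N) + P (2H+1) 4 √(3N/P) log(3N) ≤ C H √(N P) L ≤ N^{1/4 + 1/2 + 1/160 + 0.01} ≤ N/L^A`
for `H ≤ N^{1/4}`, `P ≤ N^{1/80}`.
-/

set_option autoImplicit false

namespace Pool.Agent.H43.MP

open Finset
open Pool.Agent.H91.PK (ee)
open Pool.Agent.H91.EHA (Lam hR lamR ramS)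
open Pool.Agent.H35.W (pb)

open Classical in
/-- the integers `n` whose block contains a proper prime power, or such that some `2n - m`, `m` in the block, is `p` times a proper prime power -/
noncomputable def ppE (N P H : ℕ) : Finset ℕ :=
  (Ioc N (2 * N)).filter (fun n => ∃ m ∈ blk H (n / H),
    (Lam m ≠ 0 ∧ ¬ m.Prime) ∨
      ∃ p ∈ pb P, p ∣ 2 * n - m ∧ Lam ((2 * n - m) / p) ≠ 0 ∧ ¬ ((2 * n - m) / p).Prime)

end Pool.Agent.H43.MP

end

section

/-!
# PX PpG: the integers `n` which meet proper prime powers, for every `P ≤ N^(1/80)` (copy of `H43/MP/PPw`)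
-/

set_option autoImplicit false

namespace Pool.Agent.H43.PX

open Finset
open Pool.Agent.H91.PK (ee)
open Pool.Agent.H91.EHA (Lam hR lamR ramS)
open Pool.Agent.H35.W (pb)
open Pool.Agent.H43.MP

/-- the von Mangoldt function on the non-primes -/
private noncomputable def PpG_L2 (n : ℕ) : ℝ := if n.Prime then 0 else Lam n

private theorem PpG_L2_nn (n : ℕ) : 0 ≤ PpG_L2 n := by
  unfold PpG_L2
  split_ifs
  · exact le_rfl
  · exact ArithmeticFunction.vonMangoldt_nonneg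

private theorem PpG_sum2 (x : ℕ) (hx : 1 ≤ x) :
    ∑ n ∈ Ioc 0 x, PpG_L2 n ≤ 2 * Real.sqrt x * Real.log x := by
  have h1 := Chebyshev.psi_sub_theta_le (x := (x : ℝ)) (by exact_mod_cast hx)
  rw [Chebyshev.psi_sub_theta_eq_sum_not_prime, Nat.floor_natCast] at h1
  refine le_trans (le_of_eq ?_) h1
  rw [sum_filter]
  refine sum_congr rfl fun n _ => ?_
  unfold PpG_L2
  by_cases hn : n.Prime
  · rw [if_pos hn, if_neg (not_not.2 hn)]
  · rw [if_neg hn, if_pos hn]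
    rfl

open Classical in
/-- the proper prime powers up to `y` -/
private noncomputable def PpG_S (y : ℕ) : Finset ℕ :=
  (Ioc 0 y).filter (fun m => Lam m ≠ 0 ∧ ¬ m.Prime)

private theorem PpG_Lam_ge (m : ℕ) (h : Lam m ≠ 0) : Real.log 2 ≤ Lam m := by
  unfold Lam at h ⊢
  rw [ArithmeticFunction.vonMangoldt_ne_zero_iff] at h
  rw [ArithmeticFunction.vonMangoldt_apply, if_pos h]
  have h2 : 2 ≤ m.minFac := (Nat.minFac_prime h.ne_one).two_le
  exact Real.log_le_log (by norm_num) (by exact_mod_cast h2)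

private theorem PpG_card_S (y : ℕ) :
    ((PpG_S y).card : ℝ) ≤ 4 * Real.sqrt y * Real.log y := by
  rcases Nat.eq_zero_or_pos y with hy | hy
  · subst hy
    simp [PpG_S]
  have h1 : ((PpG_S y).card : ℝ) * Real.log 2 ≤ ∑ n ∈ Ioc 0 y, PpG_L2 n := by
    calc ((PpG_S y).card : ℝ) * Real.log 2 = ∑ _n ∈ PpG_S y, Real.log 2 := by
          rw [sum_const, nsmul_eq_mul]
      _ ≤ ∑ n ∈ PpG_S y, PpG_L2 n := by
          refine sum_le_sum fun n hn => ?_
          unfold PpG_S at hn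
          rw [mem_filter] at hn
          unfold PpG_L2
          rw [if_neg hn.2.2]
          exact PpG_Lam_ge n hn.2.1
      _ ≤ ∑ n ∈ Ioc 0 y, PpG_L2 n :=
          sum_le_sum_of_subset_of_nonneg (filter_subset _ _) fun m _ _ => PpG_L2_nn m
  have h2 := PpG_sum2 y hy
  have h3 : (1 / 2 : ℝ) ≤ Real.log 2 := by
    have := Real.log_two_gt_d9
    linarith
  have h4 : ((PpG_S y).card : ℝ) * (1 / 2) ≤ ((PpG_S y).card : ℝ) * Real.log 2 :=
    mul_le_mul_of_nonneg_left h3 (Nat.cast_nonneg _)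
  linarith

private theorem PpG_near {H n m : ℕ} (hH : 1 ≤ H) (hm : m ∈ blk H (n / H)) :
    m < n + H ∧ n < m + H := by
  unfold blk at hm
  rw [mem_Ico] at hm
  have h1 := Nat.div_mul_le_self n H
  have h2 := Nat.lt_div_mul_add (a := n) hH
  have h3 : (n / H + 1) * H = n / H * H + H := by ring
  rw [h3] at hm
  omega

private theorem PpG_sub {N P H : ℕ} (hH : 1 ≤ H) (hHN : H ≤ N) (hP : 1 ≤ P) :
    ppE N P H ⊆ (PpG_S (3 * N)).biUnion (fun m => Icc (m - H) (m + H)) ∪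
      (pb P ×ˢ PpG_S (3 * N / P)).biUnion (fun q => Icc (q.1 * q.2 - H) (q.1 * q.2 + H)) := by
  intro n hn
  unfold ppE at hn
  rw [mem_filter, mem_Ioc] at hn
  obtain ⟨⟨hn1, hn2⟩, m, hm, hh⟩ := hn
  obtain ⟨e1, e2⟩ := PpG_near hH hm
  rw [mem_union, mem_biUnion, mem_biUnion]
  rcases hh with ⟨h1, h2⟩ | ⟨p, hp, hpd, h1, h2⟩
  · left
    refine ⟨m, ?_, ?_⟩
    · unfold PpG_S
      rw [mem_filter, mem_Ioc]
      exact ⟨by omega, h1, h2⟩
    · rw [mem_Icc]
      omega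
  · right
    refine ⟨(p, (2 * n - m) / p), ?_, ?_⟩
    · rw [mem_product]
      refine ⟨hp, ?_⟩
      unfold PpG_S
      rw [mem_filter, mem_Ioc]
      refine ⟨⟨?_, ?_⟩, h1, h2⟩
      · rcases Nat.eq_zero_or_pos ((2 * n - m) / p) with h0 | h0
        · exfalso
          apply h1
          rw [h0]
          unfold Lam
          simp
        · exact h0
      · unfold pb at hp
        rw [mem_filter, mem_Ioc] at hp
        exact Nat.div_le_div (by omega) hp.1.1.le (by omega)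
    · have e3 : p * ((2 * n - m) / p) = 2 * n - m := Nat.mul_div_cancel' hpd
      show n ∈ Icc (p * ((2 * n - m) / p) - H) (p * ((2 * n - m) / p) + H)
      rw [e3, mem_Icc]
      omega

private theorem PpG_card {N P H : ℕ} (hH : 1 ≤ H) (hHN : H ≤ N) (hP : 1 ≤ P) :
    ((ppE N P H).card : ℝ) ≤
      ((PpG_S (3 * N)).card + P * (PpG_S (3 * N / P)).card) * (2 * H + 1) := by
  have h1 := card_le_card (PpG_sub hH hHN hP)
  have h2 : ((PpG_S (3 * N)).biUnion (fun m => Icc (m - H) (m + H))).card ≤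
      (PpG_S (3 * N)).card * (2 * H + 1) := by
    refine card_biUnion_le_card_mul _ _ _ fun m _ => ?_
    rw [Nat.card_Icc]
    omega
  have h3 : ((pb P ×ˢ PpG_S (3 * N / P)).biUnion
      (fun q => Icc (q.1 * q.2 - H) (q.1 * q.2 + H))).card ≤
      (pb P ×ˢ PpG_S (3 * N / P)).card * (2 * H + 1) := by
    refine card_biUnion_le_card_mul _ _ _ fun m _ => ?_
    rw [Nat.card_Icc]
    omega
  have h4 : (pb P ×ˢ PpG_S (3 * N / P)).card ≤ P * (PpG_S (3 * N / P)).card := by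
    rw [card_product]
    refine Nat.mul_le_mul_right _ ?_
    have h5 : (pb P).card ≤ (Ioc P (2 * P)).card := card_filter_le _ _
    rw [Nat.card_Ioc] at h5
    omega
  have h6 : (ppE N P H).card ≤
      ((PpG_S (3 * N)).card + P * (PpG_S (3 * N / P)).card) * (2 * H + 1) := by
    refine h1.trans ((card_union_le _ _).trans ?_)
    have h7 : (pb P ×ˢ PpG_S (3 * N / P)).card * (2 * H + 1) ≤
        P * (PpG_S (3 * N / P)).card * (2 * H + 1) := Nat.mul_le_mul_right _ h4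
    nlinarith
  exact_mod_cast h6

theorem pp_card_g (θ : ℝ) (h0 : 0 < θ) (h1 : θ ≤ 1 / 4) (A : ℕ) : ∃ N0 : ℕ, ∀ N : ℕ, N0 ≤ N →
    ∀ P : ℕ, 1 ≤ P → (P : ℝ) ≤ (N : ℝ) ^ (1 / 80 : ℝ) →
    ((ppE N P (Hn θ N)).card : ℝ) ≤ N / Real.log N ^ A := by
  have hlo := (isLittleO_log_rpow_rpow_atTop ((A : ℝ) + 1) (show (0 : ℝ) < 3 / 16 by norm_num)).bound
    (show (0 : ℝ) < 1 / 200 by norm_num)
  have hev := tendsto_natCast_atTop_atTop.eventually hlo
  obtain ⟨N1, hN1⟩ := Filter.eventually_atTop.1 hev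
  refine ⟨max N1 3, fun N hN P hP1 hPle => ?_⟩
  have hN3 : 3 ≤ N := (le_max_right _ _).trans hN
  have hb := hN1 N ((le_max_left _ _).trans hN)
  have hNr : (3 : ℝ) ≤ N := by exact_mod_cast hN3
  have hN0 : (0 : ℝ) < N := by linarith
  have hN1r : (1 : ℝ) ≤ N := by linarith
  obtain ⟨L, hL⟩ : ∃ L, L = Real.log N := ⟨_, rfl⟩
  have hL1 : 1 ≤ L := by
    rw [hL, Real.le_log_iff_exp_le hN0]
    have := Real.exp_one_lt_d9
    linarith
  rw [← hL]
  have hL0 : 0 < L := by linarith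
  have hb2 : L ^ (A + 1) ≤ 1 / 200 * (N : ℝ) ^ (3 / 16 : ℝ) := by
    rw [← hL, Real.norm_of_nonneg (Real.rpow_nonneg hL0.le _),
      Real.norm_of_nonneg (Real.rpow_nonneg hN0.le _)] at hb
    have e : L ^ ((A : ℝ) + 1) = L ^ (A + 1) := by
      rw [← Real.rpow_natCast]
      push_cast
      rfl
    rw [e] at hb
    exact hb
  -- the parameters
  obtain ⟨H, hH⟩ : ∃ H, H = Hn θ N := ⟨_, rfl⟩
  rw [← hH]
  have hH1 : 1 ≤ H := by
    rw [hH]
    unfold Hn
    rw [Nat.one_le_floor_iff]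
    exact Real.one_le_rpow hN1r h0.le
  have hHle : (H : ℝ) ≤ (N : ℝ) ^ (1 / 4 : ℝ) := by
    rw [hH]
    unfold Hn
    exact (Nat.floor_le (Real.rpow_nonneg hN0.le _)).trans
      (Real.rpow_le_rpow_of_exponent_le hN1r h1)
  have hHN : H ≤ N := by
    have : (H : ℝ) ≤ N := hHle.trans (by
      calc (N : ℝ) ^ (1 / 4 : ℝ) ≤ (N : ℝ) ^ (1 : ℝ) :=
            Real.rpow_le_rpow_of_exponent_le hN1r (by norm_num)
        _ = N := Real.rpow_one _)
    exact_mod_cast this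
  have hP0 : (0 : ℝ) < P := by exact_mod_cast hP1
  have hPr : (1 : ℝ) ≤ P := by exact_mod_cast hP1
  have hc := PpG_card hH1 hHN hP1
  -- the logarithm
  have hlog : Real.log (3 * N) ≤ 2 * L := by
    rw [Real.log_mul (by norm_num) hN0.ne', ← hL]
    have : Real.log 3 ≤ L := by
      rw [hL]
      exact Real.log_le_log (by norm_num) hNr
    linarith
  have hlog0 : 0 ≤ Real.log (3 * N) := Real.log_nonneg (by linarith)
  -- the square root
  obtain ⟨S, hS⟩ : ∃ S, S = Real.sqrt (3 * N * P) := ⟨_, rfl⟩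
  have hS0 : 0 ≤ S := by rw [hS]; exact Real.sqrt_nonneg _
  have hSle : S ≤ 2 * (N : ℝ) ^ (81 / 160 : ℝ) := by
    rw [hS]
    refine Real.sqrt_le_iff.2 ⟨by positivity, ?_⟩
    have e1 : (2 * (N : ℝ) ^ (81 / 160 : ℝ)) ^ 2 = 4 * (N * (N : ℝ) ^ (1 / 80 : ℝ)) := by
      rw [mul_pow, ← Real.rpow_natCast, ← Real.rpow_natCast, ← Real.rpow_mul hN0.le]
      have e2 : (N : ℝ) * (N : ℝ) ^ (1 / 80 : ℝ) = (N : ℝ) ^ (1 + 1 / 80 : ℝ) := by
        rw [Real.rpow_add hN0, Real.rpow_one]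
      rw [e2]
      norm_num
    rw [e1]
    have e3 : (N : ℝ) * P ≤ N * (N : ℝ) ^ (1 / 80 : ℝ) := mul_le_mul_of_nonneg_left hPle hN0.le
    nlinarith [mul_pos hN0 hP0]
  have hc1 : ((PpG_S (3 * N)).card : ℝ) ≤ 4 * S * (2 * L) := by
    have h2 := PpG_card_S (3 * N)
    push_cast at h2
    refine h2.trans ?_
    have h3 : Real.sqrt (3 * N) ≤ S := by
      rw [hS]
      refine Real.sqrt_le_sqrt ?_
      nlinarith
    gcongr
  have hc2 : (P : ℝ) * ((PpG_S (3 * N / P)).card : ℝ) ≤ 4 * S * (2 * L) := by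
    have h2 := PpG_card_S (3 * N / P)
    have h3 : ((3 * N / P : ℕ) : ℝ) ≤ 3 * N / P := by
      have := @Nat.cast_div_le ℝ _ _ _ (3 * N) P
      push_cast at this
      exact this
    have h4 : Real.log ((3 * N / P : ℕ) : ℝ) ≤ 2 * L := by
      rcases Nat.eq_zero_or_pos (3 * N / P) with h5 | h5
      · rw [h5]
        simp only [Nat.cast_zero, Real.log_zero]
        linarith
      · refine le_trans (Real.log_le_log (by exact_mod_cast h5) ?_) hlog
        refine h3.trans ?_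
        rw [div_le_iff₀ hP0]
        nlinarith
    have h6 : (P : ℝ) * Real.sqrt ((3 * N / P : ℕ) : ℝ) ≤ S := by
      have h7 : Real.sqrt ((3 * N / P : ℕ) : ℝ) ≤ Real.sqrt (3 * N / P) := Real.sqrt_le_sqrt h3
      have h8 : (P : ℝ) * Real.sqrt (3 * N / P) = S := by
        rw [hS]
        have e1 : (P : ℝ) = Real.sqrt (P ^ 2) := (Real.sqrt_sq hP0.le).symm
        calc (P : ℝ) * Real.sqrt (3 * N / P) = Real.sqrt (P ^ 2) * Real.sqrt (3 * N / P) := by
              rw [← e1]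
          _ = Real.sqrt (P ^ 2 * (3 * N / P)) := (Real.sqrt_mul (by positivity) _).symm
          _ = Real.sqrt (3 * N * P) := by
              congr 1
              field_simp
      rw [← h8]
      exact mul_le_mul_of_nonneg_left h7 hP0.le
    calc (P : ℝ) * ((PpG_S (3 * N / P)).card : ℝ)
        ≤ P * (4 * Real.sqrt ((3 * N / P : ℕ) : ℝ) * Real.log ((3 * N / P : ℕ) : ℝ)) :=
          mul_le_mul_of_nonneg_left h2 hP0.le
      _ = 4 * (P * Real.sqrt ((3 * N / P : ℕ) : ℝ)) * Real.log ((3 * N / P : ℕ) : ℝ) := by ring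
      _ ≤ 4 * (P * Real.sqrt ((3 * N / P : ℕ) : ℝ)) * (2 * L) :=
          mul_le_mul_of_nonneg_left h4 (by positivity)
      _ ≤ 4 * S * (2 * L) := by
          refine mul_le_mul_of_nonneg_right ?_ (by positivity)
          linarith
  have hH1r : (1 : ℝ) ≤ (N : ℝ) ^ (1 / 4 : ℝ) := Real.one_le_rpow hN1r (by norm_num)
  have hH2 : 2 * (H : ℝ) + 1 ≤ 3 * (N : ℝ) ^ (1 / 4 : ℝ) := by linarith
  rw [le_div_iff₀ (by positivity)]
  have hLA : 0 < L ^ A := by positivity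
  have hsum : ((PpG_S (3 * N)).card : ℝ) + P * ((PpG_S (3 * N / P)).card : ℝ) ≤ 16 * S * L := by
    linarith
  have hNN : (N : ℝ) ^ (81 / 160 : ℝ) * (N : ℝ) ^ (1 / 4 : ℝ) * (N : ℝ) ^ (3 / 16 : ℝ) ≤ N := by
    rw [← Real.rpow_add hN0, ← Real.rpow_add hN0]
    calc (N : ℝ) ^ (81 / 160 + 1 / 4 + 3 / 16 : ℝ) ≤ (N : ℝ) ^ (1 : ℝ) :=
          Real.rpow_le_rpow_of_exponent_le hN1r (by norm_num)
      _ = N := Real.rpow_one _
  calc ((ppE N P H).card : ℝ) * L ^ A
      ≤ (((PpG_S (3 * N)).card : ℝ) + P * ((PpG_S (3 * N / P)).card : ℝ)) * (2 * H + 1) * L ^ A :=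
        mul_le_mul_of_nonneg_right hc hLA.le
    _ ≤ (16 * S * L) * (3 * (N : ℝ) ^ (1 / 4 : ℝ)) * L ^ A := by
        refine mul_le_mul_of_nonneg_right ?_ hLA.le
        exact mul_le_mul hsum hH2 (by positivity) (by positivity)
    _ = 48 * S * (N : ℝ) ^ (1 / 4 : ℝ) * L ^ (A + 1) := by ring
    _ ≤ 48 * (2 * (N : ℝ) ^ (81 / 160 : ℝ)) * (N : ℝ) ^ (1 / 4 : ℝ) *
          (1 / 200 * (N : ℝ) ^ (3 / 16 : ℝ)) := by
        gcongr
    _ = 96 / 200 * ((N : ℝ) ^ (81 / 160 : ℝ) * (N : ℝ) ^ (1 / 4 : ℝ) * (N : ℝ) ^ (3 / 16 : ℝ)) := by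
        ring
    _ ≤ 1 * N := by
        refine mul_le_mul (by norm_num) hNN (by positivity) (by norm_num)
    _ = N := one_mul _

end Pool.Agent.H43.PX

end

section

/-!
# MIDP Cnt: from the weighted sum to the number of solutions

`n ∈ (N, 2N]`, `n ∉ ppE N P H`, `i = n/H`, `1 ≤ H ≤ N/2`.  In `rr P H i n = ∑_{m ∈ blk} Λ(m) ∑_{p ∈ pb P, p | 2n-m} Λ((2n-m)/p)` all non zero terms have `m` prime and `q = (2n-m)/p`
prime.  `x = n - m` (an integer) satisfies `|x| ≤ H` (both in the same block), `n - x = m` is prime (`φ(m) + 1 = m`, `Nat.totient_prime`), `n + x = 2n - m = p q`: `x ∈ sols P H n`.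
`m ↦ x` is injective; for fixed `m` there are at most 2 primes `p` with `p | 2n - m` and `(2n-m)/p` prime (`2n - m` is a product of two primes);
`Λ(m) ≤ log(3N) ≤ 2 log N`, `Λ(q) ≤ log (4N) ≤ 2 log N`.  So `rr ≤ 8 (log N)^2 (sols P H n).ncard` (`sols` is finite: `|x| ≤ H`).
-/

set_option autoImplicit false

namespace Pool.Agent.H43.MP

open Finset
open Pool.Agent.H91.PK (ee)
open Pool.Agent.H91.EHA (Lam hR lamR ramS)
open Pool.Agent.H35.W (pb)

private theorem cnt_lam0 (m : ℕ) : 0 ≤ Lam m := by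
  unfold Pool.Agent.H91.EHA.Lam
  exact ArithmeticFunction.vonMangoldt_nonneg

private theorem cnt_lam {N m : ℕ} (hN : 1 ≤ N) (h : m ≤ N ^ 2) : Lam m ≤ 2 * Real.log N := by
  have hN1 : (1 : ℝ) ≤ N := by exact_mod_cast hN
  have hl : 0 ≤ Real.log N := Real.log_nonneg hN1
  rcases Nat.eq_zero_or_pos m with hm | hm
  · subst hm
    unfold Pool.Agent.H91.EHA.Lam
    simp only [ArithmeticFunction.map_zero]
    positivity
  · have h2 : Lam m ≤ Real.log m := by
      unfold Pool.Agent.H91.EHA.Lam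
      exact ArithmeticFunction.vonMangoldt_le_log
    have h3 : Real.log m ≤ Real.log ((N : ℝ) ^ 2) :=
      Real.log_le_log (by exact_mod_cast hm) (by exact_mod_cast h)
    rw [Real.log_pow] at h3
    push_cast at h3
    linarith

/-- at most two primes `p` divide `M` with a prime quotient -/
private theorem cnt_two (S : Finset ℕ) (M : ℕ) (hS : ∀ p ∈ S, p.Prime ∧ p ∣ M ∧ (M / p).Prime) :
    S.card ≤ 2 := by
  rcases S.eq_empty_or_nonempty with h | ⟨p0, hp0⟩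
  · rw [h]
    simp
  · obtain ⟨h1, h2, h3⟩ := hS p0 hp0
    have hM : p0 * (M / p0) = M := Nat.mul_div_cancel' h2
    have hsub : S ⊆ {p0, M / p0} := by
      intro p hp
      obtain ⟨g1, g2, -⟩ := hS p hp
      rw [← hM] at g2
      rw [mem_insert, mem_singleton]
      rcases (Nat.Prime.dvd_mul g1).1 g2 with h | h
      · exact Or.inl ((Nat.prime_dvd_prime_iff_eq g1 h1).1 h)
      · exact Or.inr ((Nat.prime_dvd_prime_iff_eq g1 h3).1 h)
    exact (Finset.card_le_card hsub).trans Finset.card_le_two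

theorem rr_le (N P H n : ℕ) (hN : 4 ≤ N) (hH : 1 ≤ H) (hHN : 2 * H ≤ N) (hn : n ∈ Ioc N (2 * N))
    (hpp : n ∉ ppE N P H) :
    rr P H (n / H) n ≤ 8 * Real.log N ^ 2 * ((sols P H n).ncard : ℝ) := by
  classical
  rw [mem_Ioc] at hn
  have hpp' : ∀ m ∈ blk H (n / H), (Lam m ≠ 0 → m.Prime) ∧
      ∀ p ∈ pb P, p ∣ 2 * n - m → Lam ((2 * n - m) / p) ≠ 0 → ((2 * n - m) / p).Prime := by
    intro m hm
    unfold ppE at hpp
    rw [mem_filter, mem_Ioc] at hpp
    push Not at hpp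
    have h := hpp hn m hm
    refine ⟨fun h1 => ?_, fun p hp hd h1 => ?_⟩
    · exact h.1 h1
    · exact h.2 p hp hd h1
  have hblk : ∀ m ∈ blk H (n / H), n < m + H ∧ m < n + H := by
    intro m hm
    unfold blk at hm
    rw [mem_Ico] at hm
    have e1 : n / H * H ≤ n := Nat.div_mul_le_self n H
    have e2 : n < (n / H + 1) * H := by
      have := Nat.lt_div_mul_add (a := n) (b := H) (by omega)
      rw [Nat.add_mul, Nat.one_mul]
      exact this
    rw [Nat.add_mul, Nat.one_mul] at e2 hm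
    omega
  have hL0 : 0 ≤ Real.log N := Real.log_nonneg (by exact_mod_cast (by omega : 1 ≤ N))
  have hNN : 4 * N ≤ N ^ 2 := by nlinarith
  -- the good `m`
  set G : Finset ℕ := (blk H (n / H)).filter (fun m => m.Prime ∧
    ∃ p ∈ pb P, p ∣ 2 * n - m ∧ ((2 * n - m) / p).Prime) with hG
  -- bound of `FF`
  have hFF : ∀ m ∈ blk H (n / H), FF P (2 * n - m) ≤ 4 * Real.log N := by
    intro m hm
    unfold FF
    set S := ((pb P).filter (fun p => p ∣ 2 * n - m)).filter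
      (fun p => ((2 * n - m) / p).Prime) with hS
    have h1 : ∑ p ∈ (pb P).filter (fun p => p ∣ 2 * n - m), Lam ((2 * n - m) / p) =
        ∑ p ∈ S, Lam ((2 * n - m) / p) := by
      rw [hS]
      refine (Finset.sum_filter_of_ne fun p hp h2 => ?_).symm
      rw [mem_filter] at hp
      exact (hpp' m hm).2 p hp.1 hp.2 h2
    rw [h1]
    have h2 : S.card ≤ 2 := by
      refine cnt_two S (2 * n - m) fun p hp => ?_
      rw [hS, mem_filter, mem_filter] at hp
      have hpP : p.Prime := by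
        have := hp.1.1
        unfold Pool.Agent.H35.W.pb at this
        exact (mem_filter.1 this).2
      exact ⟨hpP, hp.1.2, hp.2⟩
    have h3 : ∑ p ∈ S, Lam ((2 * n - m) / p) ≤ ∑ _p ∈ S, 2 * Real.log N := by
      refine Finset.sum_le_sum fun p _ => cnt_lam (by omega) ?_
      have := Nat.div_le_self (2 * n - m) p
      omega
    rw [sum_const, nsmul_eq_mul] at h3
    have h4 : (S.card : ℝ) ≤ 2 := by exact_mod_cast h2
    nlinarith
  have hFF0 : ∀ m, 0 ≤ FF P m := by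
    intro m
    unfold FF
    exact Finset.sum_nonneg fun p _ => cnt_lam0 _
  have hsum : rr P H (n / H) n ≤ 8 * Real.log N ^ 2 * (G.card : ℝ) := by
    unfold rr
    have h1 : ∑ m ∈ blk H (n / H), Lam m * FF P (2 * n - m) =
        ∑ m ∈ G, Lam m * FF P (2 * n - m) := by
      rw [hG, sum_filter]
      refine Finset.sum_congr rfl fun m hm => ?_
      split_ifs with h
      · rfl
      · by_contra h2
        have h3 : Lam m ≠ 0 := left_ne_zero_of_mul h2
        have h4 : FF P (2 * n - m) ≠ 0 := right_ne_zero_of_mul h2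
        refine h ⟨(hpp' m hm).1 h3, ?_⟩
        unfold FF at h4
        obtain ⟨p, hp, hp0⟩ := Finset.exists_ne_zero_of_sum_ne_zero h4
        rw [mem_filter] at hp
        exact ⟨p, hp.1, hp.2, (hpp' m hm).2 p hp.1 hp.2 hp0⟩
    rw [h1]
    have h2 : ∑ m ∈ G, Lam m * FF P (2 * n - m) ≤ ∑ _m ∈ G, 8 * Real.log N ^ 2 := by
      refine Finset.sum_le_sum fun m hm => ?_
      have hm' : m ∈ blk H (n / H) := (mem_filter.1 (hG ▸ hm)).1
      have hb := hblk m hm'
      have e1 : Lam m ≤ 2 * Real.log N := cnt_lam (by omega) (by omega)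
      have e2 := hFF m hm'
      have e3 := cnt_lam0 m
      have e4 := hFF0 (2 * n - m)
      calc Lam m * FF P (2 * n - m) ≤ (2 * Real.log N) * (4 * Real.log N) :=
            mul_le_mul e1 e2 e4 (by positivity)
        _ = 8 * Real.log N ^ 2 := by ring
    rw [sum_const, nsmul_eq_mul] at h2
    linarith
  -- the good `m` give solutions
  have hfin : (sols P H n).Finite := by
    refine (Set.finite_Icc (-(H : ℤ)) (H : ℤ)).subset fun x hx => ?_
    exact abs_le.1 hx.1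
  have hcard : G.card ≤ (sols P H n).ncard := by
    have h1 : (G.image (fun m : ℕ => (n : ℤ) - (m : ℤ))).card = G.card := by
      refine Finset.card_image_of_injective _ fun a b hab => ?_
      have : (n : ℤ) - (a : ℤ) = (n : ℤ) - (b : ℤ) := hab
      omega
    rw [← h1, ← Set.ncard_coe_finset]
    refine Set.ncard_le_ncard ?_ hfin
    intro x hx
    rw [Finset.mem_coe, mem_image] at hx
    obtain ⟨m, hm, rfl⟩ := hx
    rw [hG, mem_filter] at hm
    obtain ⟨hm1, hm2, p, hp, hpd, hq⟩ := hm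
    have hb := hblk m hm1
    have hpp2 : P < p ∧ p ≤ 2 * P ∧ p.Prime := by
      unfold Pool.Agent.H35.W.pb at hp
      rw [mem_filter, mem_Ioc] at hp
      exact ⟨hp.1.1, hp.1.2, hp.2⟩
    have e1 : (n : ℤ) - ((n : ℤ) - (m : ℤ)) = (m : ℤ) := by ring
    have e2 : (n : ℤ) + ((n : ℤ) - (m : ℤ)) = ((2 * n - m : ℕ) : ℤ) := by
      rw [Nat.cast_sub (by omega)]
      push_cast
      ring
    refine ⟨?_, ?_, ?_, ?_, ?_⟩
    · rw [abs_le]
      constructor <;> omega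
    · rw [e1]
      exact_mod_cast hm2.pos
    · rw [e2]
      exact_mod_cast (by omega : 0 < 2 * n - m)
    · rw [e1, Int.toNat_natCast, Nat.totient_prime hm2, Nat.cast_sub hm2.one_le]
      push_cast
      ring
    · refine ⟨p, (2 * n - m) / p, hpp2.2.2, hq, hpp2.1, hpp2.2.1, ?_⟩
      rw [e2, ← Nat.cast_mul, Nat.mul_div_cancel' hpd]
  have hcR : (G.card : ℝ) ≤ ((sols P H n).ncard : ℝ) := by exact_mod_cast hcard
  exact hsum.trans (mul_le_mul_of_nonneg_left hcR (by positivity))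

end Pool.Agent.H43.MP

end

section

/-!
# PX Fin2: prime + `E_2` with a small prime factor in `(P, 2P]`, for all `exp(L^t) ≤ P ≤ N^(θ/20)` (model: `Fin`)
-/

set_option autoImplicit false

namespace Pool.Agent.H43.PX

open Finset
open Pool.Agent.H91.PK (ee)
open Pool.Agent.H91.EHA (Lam hR lamR ramS)
open Pool.Agent.H35.W (pb)
open Pool.Agent.H76.GB (SR)
open Pool.Agent.H43.MP
open Pool.Agent.H43.TP (pr)
open Pool.Agent.H43.TS (badQ)

private theorem fin_blk_card (H i : ℕ) : (blk H i).card = H := by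
  unfold blk
  rw [Nat.card_Ico]
  have : (i + 1) * H = i * H + H := by ring
  omega

private theorem fin_mem_blk (H n : ℕ) (hH : 1 ≤ H) : n ∈ blk H (n / H) := by
  unfold blk
  rw [mem_Ico]
  refine ⟨Nat.div_mul_le_self n H, ?_⟩
  have := Nat.lt_mul_div_succ n (show 0 < H by omega)
  rw [mul_comm]
  exact this

/-- `exp (L^t)` beats every power of `L` -/
theorem exp_pow_ge (t : ℝ) (ht : 0 < t) (K : ℕ) (c : ℝ) (hc : 0 < c) : ∃ N0 : ℕ, ∀ N : ℕ, N0 ≤ N →
    c * Real.log N ^ K ≤ Real.exp (Real.log N ^ t) := by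
  obtain ⟨n, hn⟩ := exists_nat_ge ((K : ℝ) / t)
  have h1 := (Real.isLittleO_pow_exp_atTop (n := n)).bound (show (0 : ℝ) < 1 / c by positivity)
  have hlog : Filter.Tendsto (fun N : ℕ => Real.log N) Filter.atTop Filter.atTop :=
    Real.tendsto_log_atTop.comp tendsto_natCast_atTop_atTop
  have h2 : Filter.Tendsto (fun N : ℕ => Real.log N ^ t) Filter.atTop Filter.atTop :=
    (tendsto_rpow_atTop ht).comp hlog
  obtain ⟨N1, hN1⟩ := Filter.eventually_atTop.1 ((h2.eventually h1).and (hlog.eventually_ge_atTop 1))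
  refine ⟨N1, fun N hN => ?_⟩
  obtain ⟨a1, a2⟩ := hN1 N hN
  have a0 : (0 : ℝ) < Real.log N := by linarith only [a2]
  have b1 : (1 : ℝ) ≤ Real.log N ^ t := Real.one_le_rpow a2 ht.le
  rw [Real.norm_of_nonneg (by positivity), Real.norm_of_nonneg (Real.exp_pos _).le, one_div_mul_eq_div,
    le_div_iff₀ hc] at a1
  have b2 : Real.log N ^ K ≤ (Real.log N ^ t) ^ n := by
    rw [← Real.rpow_natCast, ← Real.rpow_natCast, ← Real.rpow_mul a0.le]
    refine Real.rpow_le_rpow_of_exponent_le a2 ?_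
    rw [div_le_iff₀ ht] at hn
    linarith only [hn]
  nlinarith only [a1, hc, b2]

/-- facts for large `N` -/
private theorem fin_large (θ t : ℝ) (ht : 0 < t) (h0 : 0 < θ) (h1 : θ ≤ 1 / 4) (A B P0 : ℕ) :
    ∃ N0 : ℕ, ∀ N : ℕ, N0 ≤ N → 1000 ≤ Real.log N ∧ (N : ℝ) ^ θ / 2 ≤ Hn θ N ∧ 4 * Hn θ N ≤ N ∧
      (Rn B N : ℝ) ≤ Real.log N ^ B ∧ 1 ≤ Rn B N ∧
      ∀ P : ℕ, Real.exp (Real.log N ^ t) ≤ P → P ≤ Pn θ N → P0 ≤ P ∧
      2 ≤ P ∧ 4 * P ^ 2 ≤ Hn θ N ∧ Real.log P ≤ Real.log N / 80 ∧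
      40 * Real.log N ^ (2 * B + A + 6) ≤ P ∧ Rn B N ≤ P ∧ (P : ℝ) ≤ (N : ℝ) ^ (1 / 80 : ℝ) := by
  obtain ⟨x1, hx1⟩ := Pool.Agent.H76.GB.log_ge 1000
  obtain ⟨x2, hx2⟩ := exp_pow_ge t ht (2 * B + A + 6) (80 + 2 * P0 : ℝ) (by positivity)
  obtain ⟨x3, hx3⟩ := Pool.Agent.H76.GB.log_pow_le (9 * θ / 10) 8 (by positivity) (by norm_num) 0
  obtain ⟨x4, hx4⟩ := Pool.Agent.H76.GB.log_pow_le (3 / 4) 4 (by norm_num) (by norm_num) 0
  refine ⟨max (max x1 x2) (max x3 x4), fun N hN => ?_⟩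
  have g1 := hx1 N (((le_max_left _ _).trans (le_max_left _ _)).trans hN)
  have g2 := hx2 N (((le_max_right _ _).trans (le_max_left _ _)).trans hN)
  have g3 := hx3 N (((le_max_left _ _).trans (le_max_right _ _)).trans hN)
  have g4 := hx4 N (((le_max_right _ _).trans (le_max_right _ _)).trans hN)
  rw [pow_zero, mul_one] at g3 g4
  set L := Real.log N with hL
  have hN0 : N ≠ 0 := by
    rintro rfl
    rw [hL] at g1
    norm_num at g1
  have hN1 : (1 : ℝ) ≤ N := by exact_mod_cast Nat.one_le_iff_ne_zero.2 hN0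
  have hNpos : (0 : ℝ) < N := by linarith only [h0, h1, hN1]
  have hL1 : 1 ≤ L := by linarith only [h0, h1, g1]
  have hLp : 1 ≤ L ^ (2 * B + A + 6) := one_le_pow₀ hL1
  have hLB : 1 ≤ L ^ B := one_le_pow₀ hL1
  have hP0 : (0 : ℝ) ≤ P0 := Nat.cast_nonneg _
  have hNθ1 : (1 : ℝ) ≤ (N : ℝ) ^ θ := Real.one_le_rpow hN1 h0.le
  -- H
  have q1 : (N : ℝ) ^ θ < Hn θ N + 1 := Nat.lt_floor_add_one _
  have q2 : (Hn θ N : ℝ) ≤ (N : ℝ) ^ θ := Nat.floor_le (by positivity)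
  have q3 : 1 ≤ Hn θ N := by
    have : 0 < Hn θ N := Nat.floor_pos.2 hNθ1
    exact this
  have q4 : (1 : ℝ) ≤ Hn θ N := by exact_mod_cast q3
  have q5 : (N : ℝ) ^ θ / 2 ≤ Hn θ N := by linarith only [q1, q4]
  -- 4 H ≤ N
  have e3 : 4 * Hn θ N ≤ N := by
    have t1 : (N : ℝ) ^ θ ≤ (N : ℝ) ^ (1 / 4 : ℝ) := Real.rpow_le_rpow_of_exponent_le hN1 h1
    have t2 : (N : ℝ) = (N : ℝ) ^ (1 / 4 : ℝ) * (N : ℝ) ^ (3 / 4 : ℝ) := by
      rw [← Real.rpow_add hNpos]
      norm_num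
    have t3 : (0 : ℝ) ≤ (N : ℝ) ^ (1 / 4 : ℝ) := by positivity
    have t4 : (4 : ℝ) * Hn θ N ≤ N := by
      rw [t2]
      nlinarith only [g4, q2, t1, hNθ1]
    exact_mod_cast t4
  have e5 : (Rn B N : ℝ) ≤ L ^ B := Nat.floor_le (by positivity)
  have e6 : 1 ≤ Rn B N := Nat.floor_pos.2 hLB
  refine ⟨g1, q5, e3, e5, e6, fun P hPt hPn => ?_⟩
  have p2 : (P : ℝ) ≤ (N : ℝ) ^ (θ / 20) := by
    have t1 : (Pn θ N : ℝ) ≤ (N : ℝ) ^ (θ / 20) := Nat.floor_le (by positivity)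
    exact le_trans (by exact_mod_cast hPn) t1
  have p3 : 80 + 2 * (P0 : ℝ) ≤ P := by
    refine le_trans ?_ (g2.trans hPt)
    nlinarith only [hLp]
  have p4 : 40 * L ^ (2 * B + A + 6) ≤ P := by
    have : (80 + 2 * (P0 : ℝ)) * L ^ (2 * B + A + 6) ≥ 80 * L ^ (2 * B + A + 6) := by nlinarith only [hLp]
    linarith only [h0, h1, g2, hPt, p3, this, g2.trans hPt]
  have p5 : P0 ≤ P := by
    have : (P0 : ℝ) ≤ P := by linarith only [h0, h1, p3]
    exact_mod_cast this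
  have p6 : 2 ≤ P := by
    have : (2 : ℝ) ≤ P := by linarith only [h0, h1, p3]
    exact_mod_cast this
  -- 4 P² ≤ H
  have e1 : 4 * P ^ 2 ≤ Hn θ N := by
    have t1 : ((N : ℝ) ^ (θ / 20)) ^ 2 = (N : ℝ) ^ (θ / 10) := by
      rw [← Real.rpow_natCast, ← Real.rpow_mul hNpos.le]
      congr 1
      push_cast
      ring
    have t2 : (N : ℝ) ^ θ = (N : ℝ) ^ (θ / 10) * (N : ℝ) ^ (9 * θ / 10) := by
      rw [← Real.rpow_add hNpos]
      congr 1
      ring
    have t3 : (0 : ℝ) ≤ (N : ℝ) ^ (θ / 10) := by positivity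
    have t4 : ((P : ℝ)) ^ 2 ≤ (N : ℝ) ^ (θ / 10) := by
      rw [← t1]
      exact pow_le_pow_left₀ (Nat.cast_nonneg _) p2 2
    have t5 : 4 * (P : ℝ) ^ 2 ≤ Hn θ N := by
      nlinarith only [h1, p3, t2, t4, g3, h0, q1, t1]
    exact_mod_cast t5
  -- log P
  have e2 : Real.log P ≤ L / 80 := by
    have hPpos : (0 : ℝ) < P := by
      have : (2 : ℝ) ≤ P := by exact_mod_cast p6
      linarith only [h0, h1, p3]
    have t1 := Real.log_le_log hPpos p2
    rw [Real.log_rpow hNpos] at t1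
    nlinarith only [h1, t1, g1]
  have e4 : Rn B N ≤ P := by
    have t1 : L ^ B ≤ L ^ (2 * B + A + 6) := pow_le_pow_right₀ hL1 (by omega)
    have : (Rn B N : ℝ) ≤ P := by nlinarith only [h0, h1, e5, p3, p4, t1]
    exact_mod_cast this
  have e7 : (P : ℝ) ≤ (N : ℝ) ^ (1 / 80 : ℝ) :=
    p2.trans (Real.rpow_le_rpow_of_exponent_le hN1 (by linarith only [h1]))
  exact ⟨p5, p6, e1, e2, p4, e4, e7⟩

private theorem fin_SR (R E : ℕ) (hR : 1 ≤ R) (hE : 1 ≤ E) : 1 ≤ SR R (2 * E) := by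
  rcases Nat.lt_or_ge 1 R with h | h
  · exact Pool.Agent.H76.GB.sr_ge R (2 * E) h (by omega) (dvd_mul_right 2 E)
  · have : R = 1 := by omega
    subst this
    unfold SR ramS
    simp

/-- the number of `n` in given blocks -/
private theorem fin_cnt (N H : ℕ) (hH : 1 ≤ H) (S : Finset ℕ) :
    ((Ioc N (2 * N)).filter (fun n => n / H ∈ S)).card ≤ S.card * H := by
  have h1 : (Ioc N (2 * N)).filter (fun n => n / H ∈ S) ⊆ S.biUnion (blk H) := by
    intro n hn
    rw [mem_filter] at hn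
    rw [mem_biUnion]
    exact ⟨n / H, hn.2, fin_mem_blk H n hH⟩
  refine (card_le_card h1).trans (card_biUnion_le.trans ?_)
  rw [sum_congr rfl fun i _ => fin_blk_card H i, sum_const, smul_eq_mul]

/-- Chebyshev's inequality -/
private theorem fin_cheb (S : Finset ℕ) (f : ℕ → ℝ) (T X : ℝ) (hT : 0 < T)
    (h : ∑ n ∈ S, f n ^ 2 ≤ X) : ((S.filter (fun n => T < |f n|)).card : ℝ) ≤ X / T ^ 2 := by
  rw [le_div_iff₀ (by positivity)]
  refine le_trans ?_ h
  calc ((S.filter (fun n => T < |f n|)).card : ℝ) * T ^ 2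
      = ∑ n ∈ S.filter (fun n => T < |f n|), T ^ 2 := by rw [sum_const, nsmul_eq_mul]
    _ ≤ ∑ n ∈ S.filter (fun n => T < |f n|), f n ^ 2 := by
        refine sum_le_sum fun n hn => ?_
        rw [mem_filter] at hn
        rw [← sq_abs (f n)]
        exact pow_le_pow_left₀ hT.le hn.2.le 2
    _ ≤ ∑ n ∈ S, f n ^ 2 := sum_le_sum_of_subset_of_nonneg (filter_subset _ _)
        fun n _ _ => sq_nonneg _

private theorem fin_lam (m : ℕ) : 0 ≤ Lam m := ArithmeticFunction.vonMangoldt_nonneg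

private theorem fin_c1 (N H L a : ℝ) (C : ℕ) (hH : 0 < H) (hL : 0 < L) (ha : 0 < a) :
    2 * (N / H) * (9 * (H / a) ^ 2 * (H * L ^ C) / (H / L ^ 3) ^ 2) = 18 * N * L ^ (C + 6) / a ^ 2 := by
  field_simp
  ring

private theorem fin_c2 (N H L R P : ℝ) (C : ℕ) (hH : 0 < H) (hL : 0 < L) (hP : 0 < P) :
    2 * (N / H) * (10 * R ^ 2 * H ^ 2 / P * (H * L ^ C) / (H / L ^ 3) ^ 2)
      = 20 * N * R ^ 2 * L ^ (C + 6) / P := by
  field_simp
  ring

private theorem fin_d4 (N H L : ℝ) (A C : ℕ) (hN : 0 < N) (hH : 0 < H) (hL : 1000 ≤ L) :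
    2 * (N / H) * (9 * (H / L ^ (C + A + 8)) ^ 2 * (H * L ^ C) / (H / L ^ 3) ^ 2)
      ≤ N / L ^ A / 10 := by
  have hL0 : 0 < L := by linarith only [hL]
  have hL1 : 1 ≤ L := by linarith
  have t2 : (L ^ (C + A + 8)) ^ 2 = L ^ (C + 6) * (L ^ A * (L ^ (C + A) * L ^ 10)) := by ring
  rw [fin_c1 N H L (L ^ (C + A + 8)) C hH hL0 (by positivity), t2, div_div,
    div_le_div_iff₀ (by positivity) (by positivity)]
  have t3 : 1 ≤ L ^ (C + A) := one_le_pow₀ hL1
  have t4 : (180 : ℝ) ≤ L ^ 10 := by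
    calc (180 : ℝ) ≤ 1000 ^ 10 := by norm_num
      _ ≤ L ^ 10 := pow_le_pow_left₀ (by norm_num) hL 10
  have t5 : (180 : ℝ) ≤ L ^ (C + A) * L ^ 10 := by nlinarith only [t3, t4]
  have t6 : 0 < N * L ^ (C + 6) * L ^ A := by positivity
  nlinarith only [t5, t6]

private theorem fin_d5 (N H L R P : ℝ) (A B C : ℕ) (hN : 0 < N) (hH : 0 < H) (hL : 1000 ≤ L)
    (hP : 0 < P) (hR : 0 ≤ R) (hRL : R ≤ L ^ B) (hPL : 40 * L ^ (2 * B + (A + C + 2) + 6) ≤ P) :
    2 * (N / H) * (10 * R ^ 2 * H ^ 2 / P * (H * L ^ C) / (H / L ^ 3) ^ 2)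
      ≤ N / L ^ A / 10 := by
  have hL0 : 0 < L := by linarith only [hL]
  rw [fin_c2 N H L R P C hH hL0 hP, div_div, div_le_div_iff₀ hP (by positivity)]
  have t2 : R ^ 2 ≤ L ^ B * L ^ B := by
    have := mul_le_mul hRL hRL hR (by positivity)
    nlinarith only [this]
  have t3 : L ^ (2 * B + (A + C + 2) + 6) = (L ^ B * L ^ B) * L ^ A * (L ^ (C + 6) * L ^ 2) := by ring
  rw [t3] at hPL
  have t4 : (5 : ℝ) ≤ L ^ 2 := by nlinarith only [hL]
  have t5 : 0 < L ^ (C + 6) := by positivity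
  have t6 : 0 < L ^ A := by positivity
  have t7 : 0 ≤ L ^ B * L ^ B := by positivity
  have t8 : 200 * (R ^ 2 * L ^ A * L ^ (C + 6)) ≤ P := by
    refine le_trans ?_ hPL
    have a1 : R ^ 2 * L ^ A * L ^ (C + 6) ≤ (L ^ B * L ^ B) * L ^ A * L ^ (C + 6) := by gcongr
    have a2 : (L ^ B * L ^ B) * L ^ A * L ^ (C + 6) * 5 ≤ (L ^ B * L ^ B) * L ^ A * L ^ (C + 6) * L ^ 2 :=
      mul_le_mul_of_nonneg_left t4 (by positivity)
    nlinarith only [a1, a2]
  calc 20 * N * R ^ 2 * L ^ (C + 6) * (L ^ A * 10) = N * (200 * (R ^ 2 * L ^ A * L ^ (C + 6))) := by ring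
    _ ≤ N * P := mul_le_mul_of_nonneg_left t8 hN.le

private theorem fin_FF (P m : ℕ) : 0 ≤ FF P m := by
  unfold FF
  exact sum_nonneg fun p _ => fin_lam (m / p)

/-- from `Y` to `Λ` -/
private theorem fin_rrY (Y : ℕ → ℝ) (N P H n : ℕ) (hL : 4 ≤ Real.log N) (hH : 1 ≤ H) (h4H : 4 * H ≤ N)
    (hn : n ∈ Ioc N (2 * N)) (hY : ∀ m : ℕ, N ≤ 4 * m → m ≤ 4 * N → Y m ≤ pr m) :
    rrY Y P H (n / H) n ≤ 2 / Real.log N * rr P H (n / H) n := by
  unfold rrY rr
  rw [mul_sum]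
  refine sum_le_sum fun m hm => ?_
  rw [mem_Ioc] at hn
  have hN0 : N ≠ 0 := by omega
  have hNpos : (0 : ℝ) < N := by exact_mod_cast Nat.pos_of_ne_zero hN0
  have hb : n < m + H ∧ m < n + H := by
    unfold blk at hm
    rw [mem_Ico] at hm
    have h1 := Nat.div_mul_le_self n H
    have h2 := Nat.lt_mul_div_succ n (show 0 < H by omega)
    have h3 : (n / H + 1) * H = n / H * H + H := by ring
    have h4 : H * (n / H + 1) = n / H * H + H := by ring
    omega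
  have hm1 : N ≤ 4 * m := by omega
  have hm2 : m ≤ 4 * N := by omega
  have hm3 : N ≤ 2 * m := by omega
  rw [← mul_assoc]
  refine mul_le_mul_of_nonneg_right ((hY m hm1 hm2).trans ?_) (fin_FF P _)
  have hlam := fin_lam m
  unfold pr
  split_ifs with hp
  · have h5 : Lam m = Real.log m := by
      unfold Pool.Agent.H91.EHA.Lam
      exact ArithmeticFunction.vonMangoldt_apply_prime hp
    rw [h5, div_mul_eq_mul_div, le_div_iff₀ (by linarith only [hL]), one_mul]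
    have h6 : Real.log N ≤ Real.log (2 * m) := Real.log_le_log hNpos (by exact_mod_cast hm3)
    have hmpos : (0 : ℝ) < m := by exact_mod_cast hp.pos
    rw [Real.log_mul (by norm_num) hmpos.ne'] at h6
    have h7 := Real.log_two_lt_d9
    linarith only [hL, h6, h7]
  · exact mul_nonneg (by positivity) hlam

/-- the theorem, from the interface `YIN` -/
theorem fin_px2 (θ t : ℝ) (ht : 0 < t) (h0 : 0 < θ) (h1 : θ ≤ 1 / 4)
    (hlfu : ∀ A : ℕ, ∃ B N0 : ℕ, ∀ N : ℕ, N0 ≤ N → ∀ P : ℕ, Real.exp (Real.log N ^ t) ≤ P → P ≤ Pn θ N →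
      ((badL N (Hn θ N) P (Rn B N) A).card : ℝ) ≤ (N : ℝ) / (Hn θ N) / Real.log N ^ A)
    (hy : YIN θ (1 / 25)) (A : ℕ) :
    ∃ N0 : ℕ, ∀ N : ℕ, N0 ≤ N → ∀ P : ℕ, Real.exp (Real.log N ^ t) ≤ P → P ≤ Pn θ N →
      (((Ioc N (2 * N)).filter (fun n =>
        ((sols P (Hn θ N) n).ncard : ℝ) < (N : ℝ) ^ θ / (30000 * Real.log N ^ 2 * Real.log P))).card : ℝ)
      ≤ N / Real.log N ^ A := by
  classical
  obtain ⟨C0, hy⟩ := hy
  obtain ⟨C, hC⟩ : ∃ C, C = C0 + (A + 2) := ⟨_, rfl⟩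
  obtain ⟨B, N1, hL⟩ := hlfu (C + A + 8)
  obtain ⟨N2, hY⟩ := hy (A + 2) (A + B + 4) B
  obtain ⟨P0, hW⟩ := WP_ge
  obtain ⟨N3, hF⟩ := fin_large θ t ht h0 h1 (A + C + 2) B P0
  obtain ⟨N4, hpp⟩ := pp_card_g θ h0 h1 (A + 1)
  refine ⟨max (max N1 N2) (max N3 N4), fun N hN P hPt hPn => ?_⟩
  replace hL := hL N (((le_max_left _ _).trans (le_max_left _ _)).trans hN) P hPt hPn
  obtain ⟨Y, g, y1, y2, y3, y4⟩ := hY N (((le_max_right _ _).trans (le_max_left _ _)).trans hN)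
  rw [← hC] at y3
  obtain ⟨f1, f2, f8, f10, f11, fP⟩ :=
    hF N (((le_max_left _ _).trans (le_max_right _ _)).trans hN)
  obtain ⟨f3, f4, f5, f6, f7, f9, f12⟩ := fP P hPt hPn
  replace hpp := hpp N (((le_max_right _ _).trans (le_max_right _ _)).trans hN) P (by omega) f12
  replace hW := hW P f3
  set L := Real.log N with hLdef
  set H := Hn θ N with hHdef
  set R := Rn B N with hRdef
  have hN0 : N ≠ 0 := by
    rintro rfl
    rw [hLdef] at f1
    norm_num at f1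
  have hN1 : (1 : ℝ) ≤ N := by exact_mod_cast Nat.one_le_iff_ne_zero.2 hN0
  have hNpos : (0 : ℝ) < N := by linarith only [h0, h1, hN1]
  have hL0 : 0 < L := by linarith only [h0, h1, f1]
  have hL1 : 1 ≤ L := by linarith only [h0, h1, f1]
  have hP2 : (2 : ℝ) ≤ P := by exact_mod_cast f4
  have hH1 : 1 ≤ H := by nlinarith only [f4, f5]
  have hH0 : (0 : ℝ) < H := by exact_mod_cast hH1
  have h4H : 4 * (H : ℝ) ≤ N := by exact_mod_cast f8
  have hN4 : 4 ≤ N := by omega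
  -- W
  have hlogP : 0 < Real.log P := Real.log_pos (by linarith only [h0, h1, hP2])
  have hWlow : 1 / (16 * Real.log P) ≤ WP P := hW
  have hW0 : 0 ≤ WP P := le_trans (by positivity) hWlow
  have hWup : WP P ≤ 1 := WP_le P (by omega)
  set T : ℝ := H / L ^ 3 with hTdef
  have hT0 : 0 < T := by positivity
  -- the sets
  set idx1 := Icc (N / H) (2 * N / H) with hidx1
  have hq4 : 4 ≤ N / H := by
    rw [Nat.le_div_iff_mul_le (by omega)]
    omega
  have hidxs : ∀ i ∈ idx1, 1 ≤ i ∧ i - 1 ∈ idx N H ∧ i ∈ idx N H ∧ i + 1 ∈ idx N H := by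
    intro i hi
    rw [hidx1, mem_Icc] at hi
    unfold idx
    simp only [mem_Icc]
    have t1 : N / (2 * H) = N / H / 2 := by rw [mul_comm, Nat.div_div_eq_div_mul]
    have t2 : 2 * N / H + 1 ≤ 3 * N / H := by
      rw [← Nat.add_div_right _ (by omega)]
      exact Nat.div_le_div_right (by omega)
    omega
  set BL := badL N H P R (C + A + 8) with hBL
  set BQ := badQ N H (A + B + 4) B Y g with hBQ
  set BS := (idx N H).filter (fun i => (H : ℝ) * L ^ C < ∑ m ∈ blk H i, Y m ^ 2) with hBS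
  set BI := idx1.filter (fun i => i - 1 ∈ BL ∨ i ∈ BL ∨ i + 1 ∈ BL ∨ i ∈ BQ ∨ i ∈ BS) with hBI
  set GI := idx1.filter (fun i => ¬ (i - 1 ∈ BL ∨ i ∈ BL ∨ i + 1 ∈ BL ∨ i ∈ BQ ∨ i ∈ BS)) with hGI
  have hBIc : (BI.card : ℝ) ≤ 3 * (N / H / L ^ (C + A + 8)) + N / H / L ^ (A + B + 4) + N / H / L ^ (A + 2) := by
    have t1 : BI ⊆ (((BL.image (fun i => i + 1) ∪ BL) ∪ BL.image (fun i => i - 1)) ∪ BQ) ∪ BS := by
      intro i hi
      rw [hBI, mem_filter] at hi
      have := hidxs i hi.1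
      simp only [mem_union, mem_image]
      rcases hi.2 with h | h | h | h | h
      · left; left; left; left; exact ⟨i - 1, h, by omega⟩
      · left; left; left; right; exact h
      · left; left; right; exact ⟨i + 1, h, by omega⟩
      · left; right; exact h
      · right; exact h
    have t2 : BI.card ≤ 3 * BL.card + BQ.card + BS.card := by
      refine (card_le_card t1).trans ((card_union_le _ _).trans ?_)
      have a0 := card_union_le ((BL.image (fun i => i + 1) ∪ BL) ∪ BL.image (fun i => i - 1)) BQ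
      have a05 := card_union_le (BL.image (fun i => i + 1) ∪ BL) (BL.image (fun i => i - 1))
      have a2 := card_union_le (BL.image (fun i => i + 1)) BL
      have a3 : (BL.image (fun i => i + 1)).card ≤ BL.card := card_image_le
      have a4 : (BL.image (fun i => i - 1)).card ≤ BL.card := card_image_le
      omega
    have t3 : (BI.card : ℝ) ≤ 3 * BL.card + BQ.card + BS.card := by exact_mod_cast t2
    linarith only [hL, y4, y3, t3]
  have hGIc : (GI.card : ℝ) ≤ 2 * (N / H) := by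
    have t1 : GI.card ≤ 2 * N / H - N / H + 1 := by
      refine (card_le_card (filter_subset _ _)).trans ?_
      rw [hidx1, Nat.card_Icc]
      have : N / H ≤ 2 * N / H := Nat.div_le_div_right (by omega)
      omega
    have t2 : ((2 * N / H : ℕ) : ℝ) ≤ 2 * (N / H) := by
      refine (Nat.cast_div_le).trans (le_of_eq ?_)
      push_cast
      ring
    have t3 : (1 : ℝ) ≤ ((N / H : ℕ) : ℝ) := by exact_mod_cast (by omega : 1 ≤ N / H)
    have t4 : (GI.card : ℝ) + ((N / H : ℕ) : ℝ) ≤ ((2 * N / H : ℕ) : ℝ) + 1 := by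
      have : N / H ≤ 2 * N / H := Nat.div_le_div_right (by omega)
      exact_mod_cast (by omega : GI.card + N / H ≤ 2 * N / H + 1)
    linarith only [t2, t3, t4]
  -- good blocks
  have hgood : ∀ i ∈ GI, ∃ E : ℕ → ℝ, (∀ n ∈ blk H i,
        |rmY Y P R H i n - WP P * (H * g i) * SR R (2 * n)| ≤ WP P * R * ((H : ℝ) / L ^ (A + B + 4)) + E n) ∧
      ∑ n ∈ blk H i, E n ^ 2 ≤ 10 * (R : ℝ) ^ 2 * (H : ℝ) ^ 2 / P * (H * L ^ C) ∧
      ∑ n ∈ blk H i, rsY Y P R H i n ^ 2 ≤ 9 * (H / L ^ (C + A + 8)) ^ 2 * (H * L ^ C) := by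
    intro i hi
    rw [hGI, mem_filter] at hi
    obtain ⟨hi1, hi2⟩ := hi
    push Not at hi2
    obtain ⟨k1, k2, k3, k4, k5⟩ := hi2
    obtain ⟨j1, j2, j3, j4⟩ := hidxs i hi1
    have hYs : ∑ m ∈ blk H i, Y m ^ 2 ≤ H * L ^ C := by
      by_contra hcon
      push Not at hcon
      apply k5
      rw [hBS, mem_filter]
      exact ⟨j3, hcon⟩
    obtain ⟨E, hE1, hE2⟩ := rmY_near Y g N (A + B + 4) B P H i f4 j1 f5 j3 k4
    refine ⟨E, hE1, hE2.trans ?_, ?_⟩
    · exact mul_le_mul_of_nonneg_left hYs (by positivity)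
    · have hlf : ∀ j ∈ idx N H, j ∉ BL → ∀ α : ℝ,
          ‖∑ m ∈ blk H j, ((Fs P R m : ℝ) : ℂ) * ee (-(α * m))‖ ≤ H / L ^ (C + A + 8) := by
        intro j hj hj2 α
        by_contra hcon
        push Not at hcon
        apply hj2
        rw [hBL]
        unfold badL
        simp only [mem_filter]
        exact ⟨hj, α, hcon⟩
      refine (rsY_l2 Y P R H i j1 _ (hlf _ j2 k1) (hlf _ j3 k2) (hlf _ j4 k3)).trans ?_
      exact mul_le_mul_of_nonneg_left hYs (by positivity)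
  choose! E hE1 hE2 hE3 using hgood
  -- the exceptional set
  set X1 := ppE N P H with hX1
  set X2 := (Ioc N (2 * N)).filter (fun n => n / H ∈ BI) with hX2
  set X3 := GI.biUnion (fun i => (blk H i).filter (fun n => T < |rsY Y P R H i n|)) with hX3
  set X4 := GI.biUnion (fun i => (blk H i).filter (fun n => T < |E i n|)) with hX4
  have hsub : (Ioc N (2 * N)).filter (fun n =>
        ((sols P H n).ncard : ℝ) < (N : ℝ) ^ θ / (30000 * L ^ 2 * Real.log P)) ⊆ X1 ∪ (X2 ∪ (X3 ∪ X4)) := by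
    intro n hn
    rw [mem_filter] at hn
    obtain ⟨hn1, hn2⟩ := hn
    by_contra hcon
    simp only [mem_union, not_or] at hcon
    obtain ⟨c1, c2, c3, c4⟩ := hcon
    have hn1' := mem_Ioc.1 hn1
    have hidx : n / H ∈ idx1 := by
      rw [hidx1, mem_Icc]
      exact ⟨Nat.div_le_div_right (by omega), Nat.div_le_div_right (by omega)⟩
    have hGn : n / H ∈ GI := by
      rw [hGI, mem_filter]
      refine ⟨hidx, fun h => c2 ?_⟩
      rw [hX2, mem_filter]
      refine ⟨hn1, ?_⟩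
      rw [hBI, mem_filter]
      exact ⟨hidx, h⟩
    have hnb := fin_mem_blk H n hH1
    have d3 : |rsY Y P R H (n / H) n| ≤ T := by
      by_contra h
      push Not at h
      apply c3
      rw [hX3, mem_biUnion]
      exact ⟨n / H, hGn, mem_filter.2 ⟨hnb, h⟩⟩
    have d4 : |E (n / H) n| ≤ T := by
      by_contra h
      push Not at h
      apply c4
      rw [hX4, mem_biUnion]
      exact ⟨n / H, hGn, mem_filter.2 ⟨hnb, h⟩⟩
    have d5 := hE1 (n / H) hGn n hnb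
    have d6 := rrY_split Y P R H (n / H) n f9
    have d7 := rr_le N P H n hN4 hH1 (by omega) hn1 c1
    have d7' := fin_rrY Y N P H n (by linarith only [h0, h1, f1]) hH1 f8 hn1 y1
    rw [← hLdef] at d7 d7'
    have d8 : 1 ≤ SR R (2 * n) := fin_SR R n f11 (by omega)
    have dg := (y2 (n / H) (hidxs _ hidx).2.2.1).1
    -- the error
    have d9 : WP P * R * ((H : ℝ) / L ^ (A + B + 4)) ≤ H / L ^ 3 := by
      have t1 : WP P * R ≤ 1 * L ^ B := mul_le_mul hWup f10 (Nat.cast_nonneg _) zero_le_one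
      have t2 : WP P * R * ((H : ℝ) / L ^ (A + B + 4)) ≤ L ^ B * ((H : ℝ) / L ^ (A + B + 4)) := by
        refine mul_le_mul_of_nonneg_right ?_ (by positivity)
        linarith only [t1]
      refine t2.trans ?_
      rw [mul_div_assoc', div_le_div_iff₀ (by positivity) (by positivity)]
      have t3 : L ^ B * L ^ 3 ≤ L ^ (A + B + 4) := by
        rw [← pow_add]
        exact pow_le_pow_right₀ hL1 (by omega)
      nlinarith only [t3]
    have d10 : H / (400 * L * Real.log P) ≤ WP P * (H * g (n / H)) * SR R (2 * n) := by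
      have t0 : H * (1 / 25 / L) ≤ H * g (n / H) := mul_le_mul_of_nonneg_left dg hH0.le
      have t00 : 0 ≤ H * (1 / 25 / L) := by positivity
      have t1 : 1 / (16 * Real.log P) * (H * (1 / 25 / L)) ≤ WP P * (H * g (n / H)) :=
        mul_le_mul hWlow t0 t00 hW0
      have t2 : WP P * (H * g (n / H)) * 1 ≤ WP P * (H * g (n / H)) * SR R (2 * n) :=
        mul_le_mul_of_nonneg_left d8 (mul_nonneg hW0 (t00.trans t0))
      have t3 : H / (400 * L * Real.log P) = 1 / (16 * Real.log P) * (H * (1 / 25 / L)) := by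
        field_simp
        norm_num
      linarith only [t1, t2, t3]
    have d105 : 3 * (H / L ^ 3) ≤ H / (800 * L * Real.log P) := by
      rw [← mul_div_assoc, div_le_div_iff₀ (by positivity) (by positivity)]
      have t1 : 2400 * Real.log P ≤ L ^ 2 := by nlinarith only [h1, f1, f6, h0]
      have t2 : 3 * (H : ℝ) * (800 * L * Real.log P) = (H * L) * (2400 * Real.log P) := by ring
      have t3 : (H : ℝ) * L ^ 3 = (H * L) * L ^ 2 := by ring
      rw [t2, t3]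
      exact mul_le_mul_of_nonneg_left t1 (by positivity)
    have d106 : H / (400 * L * Real.log P) = 2 * (H / (800 * L * Real.log P)) := by
      field_simp
      norm_num
    have d11 : H / (800 * L * Real.log P) ≤ rrY Y P H (n / H) n := by
      rw [d6]
      have t1 := (abs_le.1 d3).1
      have t2 := (abs_le.1 d4).2
      have t3 := (abs_le.1 d5).1
      rw [hTdef] at t1 t2
      linarith only [d9, d10, d105, d106, t1, t2, t3]
    -- conclusion
    have d12 : H / (12800 * L ^ 2 * Real.log P) ≤ ((sols P H n).ncard : ℝ) := by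
      have t1 : 2 / L * rr P H (n / H) n ≤ 2 / L * (8 * L ^ 2 * ((sols P H n).ncard : ℝ)) :=
        mul_le_mul_of_nonneg_left d7 (by positivity)
      have t2 : 2 / L * (8 * L ^ 2 * ((sols P H n).ncard : ℝ)) = 16 * L * ((sols P H n).ncard : ℝ) := by
        field_simp
        ring
      have t3 : H / (800 * L * Real.log P) ≤ 16 * L * ((sols P H n).ncard : ℝ) := by linarith only [d7', d11, t1, t2]
      have t4 : H / (12800 * L ^ 2 * Real.log P) = H / (800 * L * Real.log P) / (16 * L) := by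
        field_simp
        norm_num
      rw [t4, div_le_iff₀ (by positivity)]
      linarith only [d7', d11, t1, t2]
    have d13 : (N : ℝ) ^ θ / (30000 * L ^ 2 * Real.log P) ≤ H / (12800 * L ^ 2 * Real.log P) := by
      have t0 : (0 : ℝ) < (N : ℝ) ^ θ := by positivity
      rw [div_le_div_iff₀ (by positivity) (by positivity)]
      have t1 : 0 < L ^ 2 * Real.log P := by positivity
      have t2 := mul_le_mul_of_nonneg_right f2 t1.le
      have t3 : 0 < (H : ℝ) * (L ^ 2 * Real.log P) := by positivity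
      have t4 : (N : ℝ) ^ θ * (12800 * L ^ 2 * Real.log P) = 25600 * ((N : ℝ) ^ θ / 2 * (L ^ 2 * Real.log P)) := by ring
      have t5 : (H : ℝ) * (30000 * L ^ 2 * Real.log P) = 30000 * (H * (L ^ 2 * Real.log P)) := by ring
      rw [t4, t5]
      linarith only [t2, t3]
    linarith only [hn2, d12, d13]
  -- the cardinalities
  have hX2c : (X2.card : ℝ) ≤ 3 * (N / L ^ (C + A + 8)) + N / L ^ (A + B + 4) + N / L ^ (A + 2) := by
    have t1 : (X2.card : ℝ) ≤ BI.card * H := by exact_mod_cast fin_cnt N H hH1 BI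
    refine t1.trans ((mul_le_mul_of_nonneg_right hBIc hH0.le).trans (le_of_eq ?_))
    field_simp
  have hX3c : (X3.card : ℝ) ≤ 2 * (N / H) * (9 * (H / L ^ (C + A + 8)) ^ 2 * (H * L ^ C) / T ^ 2) := by
    have t1 : (X3.card : ℝ) ≤ ∑ i ∈ GI, (9 * (H / L ^ (C + A + 8)) ^ 2 * (H * L ^ C) / T ^ 2) := by
      have t2 : (X3.card : ℝ) ≤ ∑ i ∈ GI, (((blk H i).filter (fun n => T < |rsY Y P R H i n|)).card : ℝ) := by
        exact_mod_cast card_biUnion_le
      refine t2.trans (sum_le_sum fun i hi => ?_)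
      exact fin_cheb (blk H i) (fun n => rsY Y P R H i n) T _ hT0 (hE3 i hi)
    refine t1.trans ?_
    rw [sum_const, nsmul_eq_mul]
    exact mul_le_mul_of_nonneg_right hGIc (by positivity)
  have hX4c : (X4.card : ℝ) ≤ 2 * (N / H) * (10 * (R : ℝ) ^ 2 * (H : ℝ) ^ 2 / P * (H * L ^ C) / T ^ 2) := by
    have t1 : (X4.card : ℝ) ≤ ∑ i ∈ GI, (10 * (R : ℝ) ^ 2 * (H : ℝ) ^ 2 / P * (H * L ^ C) / T ^ 2) := by
      have t2 : (X4.card : ℝ) ≤ ∑ i ∈ GI, (((blk H i).filter (fun n => T < |E i n|)).card : ℝ) := by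
        exact_mod_cast card_biUnion_le
      refine t2.trans (sum_le_sum fun i hi => ?_)
      exact fin_cheb (blk H i) (fun n => E i n) T _ hT0 (hE2 i hi)
    refine t1.trans ?_
    rw [sum_const, nsmul_eq_mul]
    exact mul_le_mul_of_nonneg_right hGIc (by positivity)
  have hcard : (((Ioc N (2 * N)).filter (fun n =>
        ((sols P H n).ncard : ℝ) < (N : ℝ) ^ θ / (30000 * L ^ 2 * Real.log P))).card : ℝ)
      ≤ X1.card + (X2.card + (X3.card + X4.card)) := by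
    have t1 := (card_le_card hsub).trans (card_union_le _ _)
    have t2 := card_union_le X2 (X3 ∪ X4)
    have t3 := card_union_le X3 X4
    exact_mod_cast (by omega)
  refine hcard.trans ?_
  -- numerical estimates
  have hLA : 0 < L ^ A := by positivity
  set M : ℝ := N / L ^ A with hM
  have hM0 : 0 < M := by positivity
  have m1 : (N : ℝ) / L ^ (A + 1) = M / L := by
    rw [hM, pow_succ, div_div]
  have hLs : (100 : ℝ) ≤ L ^ 2 := by nlinarith only [h1, f1, h0]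
  have m2 : (N : ℝ) / L ^ (C + A + 8) ≤ M / 100 := by
    rw [hM, div_div]
    refine div_le_div_of_nonneg_left hNpos.le (by positivity) ?_
    have : L ^ (C + A + 8) = L ^ A * (L ^ C * L ^ 6 * L ^ 2) := by ring
    rw [this]
    refine mul_le_mul_of_nonneg_left ?_ hLA.le
    have t1 : 1 ≤ L ^ C := one_le_pow₀ hL1
    have t2 : 1 ≤ L ^ 6 := one_le_pow₀ hL1
    have t3 : 1 ≤ L ^ C * L ^ 6 := one_le_mul_of_one_le_of_one_le t1 t2
    nlinarith only [hLs, t3]
  have m3 : (N : ℝ) / L ^ (A + B + 4) ≤ M / 100 := by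
    rw [hM, div_div]
    refine div_le_div_of_nonneg_left hNpos.le (by positivity) ?_
    have : L ^ (A + B + 4) = L ^ A * (L ^ B * L ^ 2 * L ^ 2) := by ring
    rw [this]
    refine mul_le_mul_of_nonneg_left ?_ hLA.le
    have t1 : 1 ≤ L ^ B := one_le_pow₀ hL1
    have t2 : 1 ≤ L ^ 2 := one_le_pow₀ hL1
    have t3 : 1 ≤ L ^ B * L ^ 2 := one_le_mul_of_one_le_of_one_le t1 t2
    nlinarith only [hLs, t3]
  have m35 : (N : ℝ) / L ^ (A + 2) ≤ M / 100 := by
    rw [hM, div_div]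
    refine div_le_div_of_nonneg_left hNpos.le (by positivity) ?_
    rw [pow_add]
    exact mul_le_mul_of_nonneg_left hLs hLA.le
  have m4 : 2 * ((N : ℝ) / H) * (9 * (H / L ^ (C + A + 8)) ^ 2 * (H * L ^ C) / T ^ 2) ≤ M / 10 := by
    rw [hTdef, hM]
    exact fin_d4 N H L A C hNpos hH0 f1
  have m5 : 2 * ((N : ℝ) / H) * (10 * (R : ℝ) ^ 2 * (H : ℝ) ^ 2 / P * (H * L ^ C) / T ^ 2)
      ≤ M / 10 := by
    rw [hTdef, hM]
    exact fin_d5 N H L R P A B C hNpos hH0 f1 (by linarith only [h0, h1, hP2]) (Nat.cast_nonneg R) f10 f7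
  have m6 : M / L ≤ M / 10 := div_le_div_of_nonneg_left hM0.le (by norm_num) (by linarith only [h0, h1, f1])
  rw [m1] at hpp
  linarith only [hX2c, hX3c, hX4c, hpp, hM0, m2, m3, m35, m4, m5, m6]

end Pool.Agent.H43.PX

end
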