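import Pool.Agent.H43.PJ.M45
import Pool.Agent.H43.PJ.M68

/-! The parts of this file: H31.EK.Lev, H31.EK.Vol, H31.EK.PInt, H31.EK.DpInt, H31.EK.DSq, H31.EK.ClsD. -/

section

/-!
# EK Lev: decomposition into level sets, with the moment `2(m+1)`

`V_j = V0/2^j`, `B_j = {t ∈ R : V_(j+1) < p t ≤ V_j}` (`j < J`), rest `{p t ≤ V_J}`:
`∫_{B_j} p² q ≤ V_j² (Q1 + W Q0/V_(j+1)^(2m+2)) = V_j² Q1 + 4^(m+1) W Q0/V_j^(2m)`;
`∑_j V_j² ≤ 2 V0²`, `∑_{j<J} (4^m)^j ≤ (4^J)^m` (`m ≥ 1`).  Induction on `J` from the top level.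
-/

set_option autoImplicit false

namespace Pool.Agent.H31.EK

open MeasureTheory

private theorem Lev_int {f : ℝ → ℝ} (hf : Continuous f) {T : ℝ} {R : Set ℝ} (hRT : R ⊆ Set.Icc (-T) T) :
    IntegrableOn f R :=
  (hf.continuousOn.integrableOn_compact isCompact_Icc).mono_set hRT

/-- the bound by the maximum -/
private theorem Lev_max (p q : ℝ → ℝ) (hp : Continuous p) (hq : Continuous q) (hp0 : ∀ t, 0 ≤ p t)
    (hq0 : ∀ t, 0 ≤ q t) (T V : ℝ) (B : Set ℝ) (hB : MeasurableSet B) (hBT : B ⊆ Set.Icc (-T) T)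
    (hpV : ∀ t ∈ B, p t ≤ V) : ∫ t in B, p t ^ 2 * q t ≤ V ^ 2 * ∫ t in B, q t := by
  rw [← integral_const_mul]
  refine setIntegral_mono_on (Lev_int ((hp.pow 2).mul hq) hBT) (Lev_int (hq.const_mul _) hBT) hB fun t ht => ?_
  exact mul_le_mul_of_nonneg_right (pow_le_pow_left₀ (hp0 t) (hpV t ht) 2) (hq0 t)

/-- without level sets -/
theorem lev0 (p q : ℝ → ℝ) (hp : Continuous p) (hq : Continuous q) (hp0 : ∀ t, 0 ≤ p t)
    (hq0 : ∀ t, 0 ≤ q t) (T V S : ℝ) (R : Set ℝ) (hR : MeasurableSet R) (hRT : R ⊆ Set.Icc (-T) T)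
    (hpV : ∀ t ∈ R, p t ≤ V) (htot : ∫ t in R, q t ≤ S) : ∫ t in R, p t ^ 2 * q t ≤ V ^ 2 * S :=
  (Lev_max p q hp hq hp0 hq0 T V R hR hRT hpV).trans (mul_le_mul_of_nonneg_left htot (by positivity))

/-- the sharp form, by induction on `J` -/
private theorem Lev_ind (p q : ℝ → ℝ) (hp : Continuous p) (hq : Continuous q) (hp0 : ∀ t, 0 ≤ p t)
    (hq0 : ∀ t, 0 ≤ q t) (m : ℕ) (hm : 1 ≤ m) (T Q0 Q1 W S : ℝ) (hQ0 : 0 ≤ Q0) (hQ1 : 0 ≤ Q1) (hW : 0 ≤ W) :
    ∀ (J : ℕ) (V0 : ℝ) (R : Set ℝ), MeasurableSet R → R ⊆ Set.Icc (-T) T → 0 < V0 → (∀ t ∈ R, p t ≤ V0) →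
    (∀ (B : Set ℝ) (V : ℝ), MeasurableSet B → B ⊆ R → 0 < V → (∀ t ∈ B, V ≤ p t) → volume.real B ≤ Q0 / V ^ (2 * (m + 1))) →
    (∀ B : Set ℝ, MeasurableSet B → B ⊆ R → ∫ t in B, q t ≤ Q1 + W * volume.real B) →
    (∫ t in R, q t ≤ S) →
    ∫ t in R, p t ^ 2 * q t ≤
      2 * V0 ^ 2 * Q1 + 4 ^ (m + 1) * (W * Q0) * ((4 ^ m) ^ J - 1) / V0 ^ (2 * m) + V0 ^ 2 / 4 ^ J * S := by
  intro J
  induction J with
  | zero =>
    intro V0 R hR hRT hV0 hV hvol hdual htot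
    have h1 := lev0 p q hp hq hp0 hq0 T V0 S R hR hRT hV htot
    have h3 : 0 ≤ 2 * V0 ^ 2 * Q1 := by positivity
    rw [pow_zero, sub_self, mul_zero, zero_div, pow_zero, div_one]
    linarith
  | succ J ih =>
    intro V0 R hR hRT hV0 hV hvol hdual htot
    obtain ⟨R', hR'⟩ : ∃ R' : Set ℝ, R' = R ∩ {t | p t ≤ V0 / 2} := ⟨_, rfl⟩
    obtain ⟨B, hBd⟩ : ∃ B : Set ℝ, B = R ∩ {t | V0 / 2 < p t} := ⟨_, rfl⟩
    have hR'm : MeasurableSet R' := by
      rw [hR']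
      exact hR.inter (measurableSet_le hp.measurable measurable_const)
    have hBm : MeasurableSet B := by
      rw [hBd]
      exact hR.inter (measurableSet_lt measurable_const hp.measurable)
    have hR's : R' ⊆ R := by
      rw [hR']
      exact Set.inter_subset_left
    have hBs : B ⊆ R := by
      rw [hBd]
      exact Set.inter_subset_left
    have hdis : Disjoint R' B := by
      rw [Set.disjoint_left]
      intro t h1 h2
      rw [hR'] at h1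
      rw [hBd] at h2
      have h3 : p t ≤ V0 / 2 := h1.2
      have h4 : V0 / 2 < p t := h2.2
      linarith
    have hun : R' ∪ B = R := by
      rw [hR', hBd, ← Set.inter_union_distrib_left]
      have : {t | p t ≤ V0 / 2} ∪ {t | V0 / 2 < p t} = Set.univ := by
        ext t
        simp only [Set.mem_union, Set.mem_ofPred_eq, Set.mem_univ, iff_true]
        exact le_or_gt _ _
      rw [this, Set.inter_univ]
    have hsplit : ∫ t in R, p t ^ 2 * q t = (∫ t in R', p t ^ 2 * q t) + ∫ t in B, p t ^ 2 * q t := by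
      rw [← hun]
      exact setIntegral_union hdis hBm (Lev_int ((hp.pow 2).mul hq) (hR's.trans hRT))
        (Lev_int ((hp.pow 2).mul hq) (hBs.trans hRT))
    have h1 := ih (V0 / 2) R' hR'm (hR's.trans hRT) (by positivity)
      (fun t ht => by rw [hR'] at ht; exact ht.2)
      (fun C V hC hCs hVp hVC => hvol C V hC (hCs.trans hR's) hVp hVC)
      (fun C hC hCs => hdual C hC (hCs.trans hR's))
      (le_trans (setIntegral_mono_set (Lev_int hq hRT) (Filter.Eventually.of_forall hq0)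
        (Filter.Eventually.of_forall hR's)) htot)
    have h2 : volume.real B ≤ Q0 / (V0 / 2) ^ (2 * (m + 1)) :=
      hvol B (V0 / 2) hBm hBs (by positivity) fun t ht => by
        rw [hBd] at ht
        exact (show V0 / 2 < p t from ht.2).le
    have h3 := hdual B hBm hBs
    have h4 := Lev_max p q hp hq hp0 hq0 T V0 B hBm (hBs.trans hRT) fun t ht => hV t (hBs ht)
    have h5 : W * volume.real B ≤ W * (Q0 / (V0 / 2) ^ (2 * (m + 1))) := mul_le_mul_of_nonneg_left h2 hW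
    have h6 : ∫ t in B, p t ^ 2 * q t ≤ V0 ^ 2 * (Q1 + W * (Q0 / (V0 / 2) ^ (2 * (m + 1)))) :=
      h4.trans (mul_le_mul_of_nonneg_left (by linarith) (by positivity))
    have e0 : (V0 / 2) ^ (2 * (m + 1)) = V0 ^ 2 * V0 ^ (2 * m) / 4 ^ (m + 1) := by
      rw [div_pow, show (2 : ℝ) ^ (2 * (m + 1)) = 4 ^ (m + 1) by rw [pow_mul]; norm_num,
        show 2 * (m + 1) = 2 + 2 * m by ring, pow_add]
    have e1 : V0 ^ 2 * (Q1 + W * (Q0 / (V0 / 2) ^ (2 * (m + 1)))) =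
        V0 ^ 2 * Q1 + 4 ^ (m + 1) * (W * Q0) / V0 ^ (2 * m) := by
      rw [e0]
      field_simp
    have e2a : (V0 / 2) ^ (2 * m) = V0 ^ (2 * m) / 4 ^ m := by
      rw [div_pow, show (2 : ℝ) ^ (2 * m) = 4 ^ m by rw [pow_mul]; norm_num]
    have e2 : 2 * (V0 / 2) ^ 2 * Q1 + 4 ^ (m + 1) * (W * Q0) * ((4 ^ m) ^ J - 1) / (V0 / 2) ^ (2 * m) +
        (V0 / 2) ^ 2 / 4 ^ J * S = V0 ^ 2 * Q1 / 2 +
        4 ^ (m + 1) * (W * Q0) * ((4 ^ m) ^ (J + 1) - 4 ^ m) / V0 ^ (2 * m) +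
        V0 ^ 2 / 4 ^ (J + 1) * S := by
      rw [e2a, pow_succ (4 : ℝ) J, pow_succ ((4 : ℝ) ^ m) J]
      have hx : (4 : ℝ) ^ m ≠ 0 := by positivity
      have hy : V0 ^ (2 * m) ≠ 0 := by positivity
      generalize (4 : ℝ) ^ (m + 1) = c0
      generalize (4 : ℝ) ^ m = c at hx
      generalize V0 ^ (2 * m) = v at hy
      field_simp
      ring
    rw [hsplit]
    rw [e1] at h6
    rw [e2] at h1
    have hx1 : (4 : ℝ) ≤ 4 ^ m := by
      calc (4 : ℝ) = 4 ^ 1 := (pow_one _).symm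
        _ ≤ 4 ^ m := pow_le_pow_right₀ (by norm_num) hm
    have hWQ : 0 ≤ W * Q0 := mul_nonneg hW hQ0
    have e3 : 4 ^ (m + 1) * (W * Q0) * ((4 ^ m) ^ (J + 1) - 4 ^ m) / V0 ^ (2 * m) + 4 ^ (m + 1) * (W * Q0) / V0 ^ (2 * m)
        ≤ 4 ^ (m + 1) * (W * Q0) * ((4 ^ m) ^ (J + 1) - 1) / V0 ^ (2 * m) := by
      rw [← add_div]
      apply div_le_div_of_nonneg_right _ (by positivity)
      have h7 : 0 ≤ (4 : ℝ) ^ (m + 1) * (W * Q0) := by positivity
      nlinarith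
    have h7 : 0 ≤ V0 ^ 2 * Q1 := by positivity
    linarith

theorem lev (p q : ℝ → ℝ) (hp : Continuous p) (hq : Continuous q) (hp0 : ∀ t, 0 ≤ p t) (hq0 : ∀ t, 0 ≤ q t)
    (m : ℕ) (hm : 1 ≤ m) (T V0 Q0 Q1 W S : ℝ) (J : ℕ) (R : Set ℝ) (hR : MeasurableSet R)
    (hRT : R ⊆ Set.Icc (-T) T) (hV0 : 0 < V0)
    (hQ0 : 0 ≤ Q0) (hQ1 : 0 ≤ Q1) (hW : 0 ≤ W) (hV : ∀ t ∈ R, p t ≤ V0)
    (hvol : ∀ (B : Set ℝ) (V : ℝ), MeasurableSet B → B ⊆ R → 0 < V → (∀ t ∈ B, V ≤ p t) →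
      volume.real B ≤ Q0 / V ^ (2 * (m + 1)))
    (hdual : ∀ B : Set ℝ, MeasurableSet B → B ⊆ R → ∫ t in B, q t ≤ Q1 + W * volume.real B)
    (htot : ∫ t in R, q t ≤ S) :
    ∫ t in R, p t ^ 2 * q t ≤
      2 * V0 ^ 2 * Q1 + 4 ^ (m + 1) * (W * Q0) * (4 ^ J) ^ m / V0 ^ (2 * m) + V0 ^ 2 / 4 ^ J * S := by
  have h := Lev_ind p q hp hq hp0 hq0 m hm T Q0 Q1 W S hQ0 hQ1 hW J V0 R hR hRT hV0 hV hvol hdual htot
  have h1 : 4 ^ (m + 1) * (W * Q0) * ((4 ^ m) ^ J - 1) / V0 ^ (2 * m) ≤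
      4 ^ (m + 1) * (W * Q0) * (4 ^ J) ^ m / V0 ^ (2 * m) := by
    refine div_le_div_of_nonneg_right ?_ (by positivity)
    have h2 : 0 ≤ 4 ^ (m + 1) * (W * Q0) := mul_nonneg (by positivity) (mul_nonneg hW hQ0)
    refine mul_le_mul_of_nonneg_left ?_ h2
    have h3 : ((4 : ℝ) ^ m) ^ J = (4 ^ J) ^ m := by rw [← pow_mul, ← pow_mul, mul_comm]
    rw [h3]
    linarith
  linarith

end Pool.Agent.H31.EK

end

section

/-!
# EK Vol: the large values of the prime polynomial, by the mean value theorem for its `k`-th power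

`Pl P d l t = ∑_{p ∈ pb P, p ≡ l (d)} ee(-t log p)`; `Pl^k = ∑_{m ≤ (2P)^k} c_k(m) ee(-t log m)`, `c_k(m) = #{(p_1, .., p_k) : p_1 .. p_k = m} ≤ k!`
(`c_(k+1)(m) = ∑_{p ∣ m} c_k(m/p)`, and `m` has at most `k + 1` prime factors if this is not `0`), `∑ c_k(m)² ≤ k! ∑ c_k(m) ≤ k! P^k`.
`Pool.Agent.H53.MID.mvt` (`τ = 0`, `X = (2P)^k`), Chebyshev: `V^(2k) vol(B) ≤ ∫_B |Pl|^(2k)`.
-/

set_option autoImplicit false

namespace Pool.Agent.H31.EK

open Finset MeasureTheory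
open Pool.Agent.H91.PK (ee)
open Pool.Agent.H35.W (pb)
open Pool.Agent.H53.MID (Fp Pl Kl)

private theorem Vol_ee_add (a b : ℝ) : ee (a + b) = ee a * ee b := by
  unfold ee
  rw [← Complex.exp_add]
  congr 1
  push_cast
  ring

private theorem Vol_ee_cont : Continuous ee := by
  unfold ee
  fun_prop

/-- the primes of the box in the class -/
noncomputable def VS (P d l : ℕ) : Finset ℕ := (pb P).filter (fun p => p % d = l % d)

/-- the number of `k`-tuples with product `m` -/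
noncomputable def ck (P d l : ℕ) : ℕ → ℕ → ℕ
  | 0, m => if m = 1 then 1 else 0
  | k + 1, m => ∑ p ∈ (VS P d l).filter (fun p => p ∣ m), ck P d l k (m / p)

private theorem Vol_mem (P d l p : ℕ) (hp : p ∈ VS P d l) : p.Prime ∧ P < p ∧ p ≤ 2 * P := by
  simp only [VS, pb, mem_filter, mem_Ioc] at hp
  exact ⟨hp.1.2, hp.1.1.1, hp.1.1.2⟩

private theorem Vol_card (P d l : ℕ) : (VS P d l).card ≤ P := by
  have h4 : VS P d l ⊆ Ioc P (2 * P) := by
    intro p hp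
    have h5 := Vol_mem P d l p hp
    rw [mem_Ioc]
    exact h5.2
  refine (Finset.card_le_card h4).trans ?_
  rw [Nat.card_Ioc]
  omega

private theorem Vol_supp (P d l : ℕ) : ∀ k m : ℕ, ck P d l k m ≠ 0 → 1 ≤ m ∧ m ≤ (2 * P) ^ k ∧
    ArithmeticFunction.cardFactors m = k := by
  intro k
  induction k with
  | zero =>
    intro m hm
    simp only [ck, ne_eq, ite_eq_right_iff, one_ne_zero, imp_false, not_not] at hm
    subst hm
    simp
  | succ k ih =>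
    intro m hm
    rw [ck] at hm
    obtain ⟨p, hp, hp0⟩ := Finset.exists_ne_zero_of_sum_ne_zero hm
    rw [mem_filter] at hp
    obtain ⟨h1, h2, h3⟩ := ih (m / p) hp0
    obtain ⟨q1, _, q3⟩ := Vol_mem P d l p hp.1
    have hmp : m = p * (m / p) := (Nat.mul_div_cancel' hp.2).symm
    have hm0 : 1 ≤ m := by
      rw [hmp]
      exact Nat.mul_pos q1.pos h1
    refine ⟨hm0, ?_, ?_⟩
    · calc m = p * (m / p) := hmp
        _ ≤ (2 * P) * (2 * P) ^ k := Nat.mul_le_mul q3 h2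
        _ = (2 * P) ^ (k + 1) := by ring
    · rw [hmp, ArithmeticFunction.cardFactors_mul q1.ne_zero (by omega), h3,
        ArithmeticFunction.cardFactors_apply_prime q1]
      ring

private theorem Vol_le (P d l : ℕ) : ∀ k m : ℕ, ck P d l k m ≤ k.factorial := by
  intro k
  induction k with
  | zero =>
    intro m
    simp only [ck, Nat.factorial_zero]
    split_ifs <;> omega
  | succ k ih =>
    intro m
    by_cases h0 : ck P d l (k + 1) m = 0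
    · rw [h0]
      exact Nat.zero_le _
    · obtain ⟨h1, _, h3⟩ := Vol_supp P d l (k + 1) m h0
      have hcard : ((VS P d l).filter (fun p => p ∣ m)).card ≤ k + 1 := by
        have hsub : (VS P d l).filter (fun p => p ∣ m) ⊆ m.primeFactorsList.toFinset := by
          intro p hp
          rw [mem_filter] at hp
          rw [List.mem_toFinset, Nat.mem_primeFactorsList (by omega)]
          exact ⟨(Vol_mem P d l p hp.1).1, hp.2⟩
        refine (Finset.card_le_card hsub).trans ?_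
        refine (List.toFinset_card_le _).trans ?_
        rw [← h3, ArithmeticFunction.cardFactors_apply]
      rw [ck, Nat.factorial_succ]
      refine (Finset.sum_le_card_nsmul _ _ k.factorial fun p _ => ih (m / p)).trans ?_
      rw [smul_eq_mul]
      exact Nat.mul_le_mul_right _ hcard

/-- the recursion for sums -/
private theorem Vol_sum (P d l k : ℕ) (F : ℕ → ℂ) :
    ∑ m ∈ Icc 1 ((2 * P) ^ (k + 1)), (ck P d l (k + 1) m : ℂ) * F m =
      ∑ p ∈ VS P d l, ∑ n ∈ Icc 1 ((2 * P) ^ k), (ck P d l k n : ℂ) * F (p * n) := by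
  have h1 : ∀ m ∈ Icc 1 ((2 * P) ^ (k + 1)), (ck P d l (k + 1) m : ℂ) * F m =
      ∑ p ∈ VS P d l, if p ∣ m then (ck P d l k (m / p) : ℂ) * F m else 0 := by
    intro m _
    rw [ck, ← Finset.sum_filter]
    push_cast
    rw [Finset.sum_mul]
  rw [Finset.sum_congr rfl h1, Finset.sum_comm]
  refine Finset.sum_congr rfl fun p hp => ?_
  obtain ⟨q1, _, q3⟩ := Vol_mem P d l p hp
  rw [← Finset.sum_filter]
  symm
  refine Finset.sum_of_injOn (fun n => p * n) ?_ ?_ ?_ ?_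
  · intro a _ b _ hab
    exact Nat.eq_of_mul_eq_mul_left q1.pos hab
  · intro n hn
    rw [Finset.mem_coe, mem_Icc] at hn
    rw [Finset.mem_coe, mem_filter, mem_Icc]
    refine ⟨⟨Nat.mul_pos q1.pos hn.1, ?_⟩, Dvd.intro _ rfl⟩
    calc p * n ≤ (2 * P) * (2 * P) ^ k := Nat.mul_le_mul q3 hn.2
      _ = (2 * P) ^ (k + 1) := by ring
  · intro m hm hm'
    rw [mem_filter, mem_Icc] at hm
    have h2 : ck P d l k (m / p) = 0 := by
      by_contra h0
      obtain ⟨h3, h4, _⟩ := Vol_supp P d l k (m / p) h0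
      apply hm'
      refine ⟨m / p, ?_, Nat.mul_div_cancel' hm.2⟩
      rw [Finset.mem_coe, mem_Icc]
      exact ⟨h3, h4⟩
    rw [h2, Nat.cast_zero, zero_mul]
  · intro n _
    show (ck P d l k n : ℂ) * F (p * n) = (ck P d l k (p * n / p) : ℂ) * F (p * n)
    rw [Nat.mul_div_cancel_left n q1.pos]

private theorem Vol_pow (P d l : ℕ) (t : ℝ) : ∀ k : ℕ,
    Pl P d l t ^ k = ∑ m ∈ Icc 1 ((2 * P) ^ k), (ck P d l k m : ℂ) * ee (-((0 + t) * Real.log m)) := by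
  intro k
  induction k with
  | zero =>
    rw [pow_zero, pow_zero, Icc_self, sum_singleton]
    simp [ck, ee]
  | succ k ih =>
    rw [Vol_sum P d l k, pow_succ, ih, mul_comm]
    unfold Pl
    rw [Finset.sum_mul]
    refine Finset.sum_congr rfl fun p hp => ?_
    obtain ⟨q1, _, _⟩ := Vol_mem P d l p hp
    rw [Finset.mul_sum]
    refine Finset.sum_congr rfl fun n hn => ?_
    rw [mem_Icc] at hn
    have h1 : ee (-((0 + t) * Real.log ((p * n : ℕ) : ℝ))) = ee (-(t * Real.log p)) * ee (-((0 + t) * Real.log n)) := by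
      rw [← Vol_ee_add, Nat.cast_mul, Real.log_mul (by exact_mod_cast q1.ne_zero)
        (by exact_mod_cast (by omega : n ≠ 0))]
      congr 1
      ring
    rw [h1]
    ring

private theorem Vol_cnt (P d l : ℕ) : ∀ k : ℕ,
    ∑ m ∈ Icc 1 ((2 * P) ^ k), (ck P d l k m : ℂ) = ((VS P d l).card : ℂ) ^ k := by
  intro k
  induction k with
  | zero =>
    rw [pow_zero, pow_zero, Icc_self, sum_singleton]
    simp [ck]
  | succ k ih =>
    have h := Vol_sum P d l k (fun _ => 1)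
    simp only [mul_one] at h
    rw [h, ih, Finset.sum_const, nsmul_eq_mul, pow_succ, mul_comm]

private theorem Vol_csum (P d l k : ℕ) : ∑ m ∈ Icc 1 ((2 * P) ^ k), ‖(ck P d l k m : ℂ)‖ ^ 2 ≤
    k.factorial * (P : ℝ) ^ k := by
  have h1 : ∀ m ∈ Icc 1 ((2 * P) ^ k), ‖(ck P d l k m : ℂ)‖ ^ 2 ≤ (k.factorial : ℝ) * (ck P d l k m : ℝ) := by
    intro m _
    rw [Complex.norm_natCast, sq]
    have h2 : (ck P d l k m : ℝ) ≤ k.factorial := by exact_mod_cast Vol_le P d l k m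
    exact mul_le_mul_of_nonneg_right h2 (Nat.cast_nonneg _)
  refine (Finset.sum_le_sum h1).trans ?_
  rw [← Finset.mul_sum]
  have h2 : ∑ m ∈ Icc 1 ((2 * P) ^ k), (ck P d l k m : ℝ) = ((VS P d l).card : ℝ) ^ k := by
    have h3 := Vol_cnt P d l k
    exact_mod_cast h3
  rw [h2]
  refine mul_le_mul_of_nonneg_left ?_ (Nat.cast_nonneg _)
  exact pow_le_pow_left₀ (Nat.cast_nonneg _) (by exact_mod_cast Vol_card P d l) k

private theorem Vol_cont (P d l k : ℕ) : Continuous (fun t => ‖Pl P d l t‖ ^ (2 * k)) := by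
  have h1 : Continuous (fun t => Pl P d l t) := by
    unfold Pl
    refine continuous_finsetSum _ (fun p _ => ?_)
    exact Vol_ee_cont.comp (by fun_prop)
  exact h1.norm.pow (2 * k)

theorem vol_le (P d l k : ℕ) (V T : ℝ) (hP : 1 ≤ P) (hV : 0 < V) (hT : 0 ≤ T) (B : Set ℝ) (hB : MeasurableSet B)
    (hBT : B ⊆ Set.Icc (-T) T) (hBV : ∀ t ∈ B, V ≤ ‖Pl P d l t‖) :
    volume.real B ≤ (2 * T + 2 * (2 * (P : ℝ)) ^ k * (1 + Real.log ((2 * (P : ℝ)) ^ k))) * (k.factorial * (P : ℝ) ^ k) / V ^ (2 * k) := by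
  have hX : 1 ≤ (2 * P) ^ k := Nat.one_le_pow _ _ (by omega)
  have hmv := Pool.Agent.H53.MID.mvt (fun m => (ck P d l k m : ℂ)) ((2 * P) ^ k) T 0 hX hT
  have hI : ∫ t in Set.Icc (-T) T, ‖Pl P d l t‖ ^ (2 * k) =
      ∫ t in Set.Icc (-T) T, ‖∑ m ∈ Icc 1 ((2 * P) ^ k), (ck P d l k m : ℂ) * ee (-((0 + t) * Real.log m))‖ ^ 2 := by
    refine integral_congr_ae (Filter.Eventually.of_forall (fun t => ?_))
    show ‖Pl P d l t‖ ^ (2 * k) = ‖∑ m ∈ Icc 1 ((2 * P) ^ k), (ck P d l k m : ℂ) * ee (-((0 + t) * Real.log m))‖ ^ 2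
    rw [← Vol_pow P d l t, norm_pow, ← pow_mul, mul_comm]
  have hint : IntegrableOn (fun t => ‖Pl P d l t‖ ^ (2 * k)) (Set.Icc (-T) T) :=
    (Vol_cont P d l k).integrableOn_Icc
  have hBfin : volume B ≠ ⊤ := by
    refine ne_top_of_le_ne_top ?_ (measure_mono hBT)
    exact (isCompact_Icc.measure_lt_top).ne
  have h1 : volume.real B * V ^ (2 * k) ≤ ∫ t in B, ‖Pl P d l t‖ ^ (2 * k) := by
    have h2 : ∫ _t in B, V ^ (2 * k) = volume.real B * V ^ (2 * k) := by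
      rw [setIntegral_const, smul_eq_mul]
    rw [← h2]
    refine setIntegral_mono_on ?_ (hint.mono_set hBT) hB (fun t ht => ?_)
    · exact integrableOn_const hBfin
    · exact pow_le_pow_left₀ hV.le (hBV t ht) (2 * k)
  have h3 : ∫ t in B, ‖Pl P d l t‖ ^ (2 * k) ≤ ∫ t in Set.Icc (-T) T, ‖Pl P d l t‖ ^ (2 * k) := by
    refine setIntegral_mono_set hint ?_ (Filter.Eventually.of_forall hBT)
    exact Filter.Eventually.of_forall (fun t => by positivity)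
  have hP1 : (1 : ℝ) ≤ P := by exact_mod_cast hP
  have hlog : 0 ≤ Real.log ((2 * (P : ℝ)) ^ k) := by
    apply Real.log_nonneg
    exact one_le_pow₀ (by linarith)
  have h4 : (2 * T + 2 * (((2 * P) ^ k : ℕ) : ℝ) * (1 + Real.log (((2 * P) ^ k : ℕ) : ℝ))) *
      ∑ m ∈ Icc 1 ((2 * P) ^ k), ‖(ck P d l k m : ℂ)‖ ^ 2 ≤
      (2 * T + 2 * (2 * (P : ℝ)) ^ k * (1 + Real.log ((2 * (P : ℝ)) ^ k))) * (k.factorial * (P : ℝ) ^ k) := by
    have h5 : (((2 * P) ^ k : ℕ) : ℝ) = (2 * (P : ℝ)) ^ k := by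
      push_cast
      ring
    rw [h5]
    exact mul_le_mul_of_nonneg_left (Vol_csum P d l k) (by positivity)
  rw [le_div_iff₀ (by positivity)]
  rw [← hI] at hmv
  linarith

end Pool.Agent.H31.EK

end

section

/-!
# EK PInt: the mean square of the product of the two polynomials, with the moment `2(m+1)` of the prime polynomial

`L = log X`, `R = {L^K' ≤ |t| ≤ T}`, `p t = ‖Pl P d l t‖`, `q t = ‖Kl b K1 K2 a t‖^2`, `V0 = P/L^K`, `K = A + 2`, from `vk_pr`.  `E = X^(η/(8m))`, `F = X^(η/2)`.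
* `P E ≤ H`: `∫ ≤ V0² S`, `S = (2T + 2 K2 (1+log K2)) K2`: `≤ L^(-2K) (32 X² + 1024 X² L)` (`T P ≤ T H/E ≤ X`).
* `H < P E`: level sets (`lev`), `V1² := P²/(E (1 + P/H))`, `J` least with `V0²/4^J ≤ V1²`.
  The terms `2 V0² Q1` and `V1² S` as in `EQ/PInt.lean`; the middle term is
  `≤ 4^(2m+1) W Q0/V1^(2m) ≤ C_m L² √T (K2 P) (2T + 2 (2P)^(m+1) lg) E^(2m)/H^m`, and with `X = x²`, `H = s²`: `√T ≤ (x/s) L^C4`, `x F ≤ s^(2m+3)`, `P^(m+1) ≤ x s^(2m+1)/F`.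
-/

set_option autoImplicit false

namespace Pool.Agent.H31.EK

open Finset MeasureTheory
open Pool.Agent.H91.PK (ee)
open Pool.Agent.H35.W (pb)
open Pool.Agent.H53.MID (Fp Pl Kl VKp)
open Pool.Agent.H31.EQ (dual_k mv_k)

/-- the sizes of the parameters -/
structure Siz (m : ℕ) (η : ℝ) (X P : ℕ) (H : ℝ) : Prop where
  hPl : (X : ℝ) ^ η ≤ P
  hPu : P ≤ X
  hH : (X : ℝ) * (X : ℝ) ^ η ≤ H ^ (2 * m + 3)
  hP : (P : ℝ) ^ (2 * m + 2) * (X : ℝ) ^ η ≤ X * H ^ (2 * m + 1)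
  hH0 : 0 ≤ H

private theorem PInt_contP (P d l : ℕ) : Continuous fun t : ℝ => ‖Pl P d l t‖ := by
  unfold Pl
  refine continuous_norm.comp (continuous_finsetSum _ fun p _ => ?_)
  unfold ee
  fun_prop

private theorem PInt_contK (b : ℕ → ℝ) (K1 K2 : ℕ) (a : ℝ) : Continuous fun t : ℝ => ‖Kl b K1 K2 a t‖ ^ 2 := by
  unfold Kl
  refine (continuous_norm.comp (continuous_finsetSum _ fun p _ => ?_)).pow 2
  unfold ee
  fun_prop

private theorem PInt_J (r : ℝ) (hr : 1 ≤ r) : ∃ J : ℕ, r ≤ 4 ^ J ∧ (4 : ℝ) ^ J ≤ 4 * r := by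
  obtain ⟨n, h1, h2⟩ := exists_nat_pow_near hr (show (1 : ℝ) < 4 by norm_num)
  refine ⟨n + 1, h2.le, ?_⟩
  rw [pow_succ]
  linarith

private theorem PInt_t1 (C L X P K2 : ℝ) (A : ℕ) (hC : 1 ≤ C) (hL : 1536 * C ≤ L) (hX : 0 < X)
    (hP : 0 ≤ P) (hK : 0 ≤ K2) (hPK : K2 * P ≤ 16 * X) :
    2 * (P / L ^ (A + 2)) ^ 2 * (C * L ^ 2 * K2 ^ 2) ≤ X ^ 2 / (3 * L ^ A) := by
  have hL1 : 1 ≤ L := by linarith
  have hL0 : 0 < L := by linarith
  have h1 : (K2 * P) ^ 2 ≤ (16 * X) ^ 2 := pow_le_pow_left₀ (mul_nonneg hK hP) hPK 2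
  have h2 : 2 * (P / L ^ (A + 2)) ^ 2 * (C * L ^ 2 * K2 ^ 2) = 2 * C * (K2 * P) ^ 2 * L ^ 2 / (L ^ (A + 2)) ^ 2 := by
    rw [div_pow]
    ring
  rw [h2]
  have h3 : 2 * C * (K2 * P) ^ 2 * L ^ 2 / (L ^ (A + 2)) ^ 2 ≤ 2 * C * (16 * X) ^ 2 * L ^ 2 / (L ^ (A + 2)) ^ 2 := by
    apply div_le_div_of_nonneg_right _ (by positivity)
    apply mul_le_mul_of_nonneg_right _ (by positivity)
    exact mul_le_mul_of_nonneg_left h1 (by linarith only [hC])
  refine h3.trans ?_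
  rw [div_le_div_iff₀ (by positivity) (by positivity)]
  have h4 : (L ^ (A + 2)) ^ 2 = L ^ A * L ^ 2 * L ^ (A + 2) := by ring
  rw [h4]
  have h5 : L ≤ L ^ (A + 2) := le_self_pow₀ hL1 (by omega)
  have h6 : 1536 * C ≤ L ^ (A + 2) := hL.trans h5
  have h7 : 0 ≤ X ^ 2 * (L ^ A * L ^ 2) := by positivity
  calc 2 * C * (16 * X) ^ 2 * L ^ 2 * (3 * L ^ A) = X ^ 2 * (L ^ A * L ^ 2) * (1536 * C) := by ring
    _ ≤ X ^ 2 * (L ^ A * L ^ 2) * L ^ (A + 2) := mul_le_mul_of_nonneg_left h6 h7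
    _ = X ^ 2 * (L ^ A * L ^ 2 * L ^ (A + 2)) := by ring

/-- the case of small `P` -/
private theorem PInt_t0 (L X P K2 H T E : ℝ) (A C4 : ℕ) (hL : 3168 ≤ L) (hX : 0 < X) (hP : 0 < P) (hK : 0 ≤ K2)
    (hT : 0 ≤ T) (hE : 0 < E) (hPK : K2 * P ≤ 16 * X) (hTH : T * H ≤ X * L ^ C4)
    (hPE : P * E ≤ H) (hEL : L ^ C4 ≤ E) :
    (P / L ^ (A + 2)) ^ 2 * ((2 * T + 4 * K2 * L) * K2) ≤ X ^ 2 / L ^ A := by
  have hL0 : 0 < L := by linarith
  have hL1 : 1 ≤ L := by linarith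
  have hTP : T * P ≤ X := by
    have h1 : T * P * E ≤ X * E := by
      calc T * P * E = T * (P * E) := by ring
        _ ≤ T * H := mul_le_mul_of_nonneg_left hPE hT
        _ ≤ X * L ^ C4 := hTH
        _ ≤ X * E := mul_le_mul_of_nonneg_left hEL hX.le
    exact le_of_mul_le_mul_right h1 hE
  have e1 : (P / L ^ (A + 2)) ^ 2 * ((2 * T + 4 * K2 * L) * K2) =
      (2 * (K2 * P) * (T * P) + 4 * L * (K2 * P) * (K2 * P)) / (L ^ (A + 2)) ^ 2 := by
    rw [div_pow]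
    ring
  rw [e1]
  have hKP0 : 0 ≤ K2 * P := by positivity
  have h2 : 2 * (K2 * P) * (T * P) ≤ 2 * (16 * X) * X :=
    mul_le_mul (by linarith only [hPK]) hTP (by positivity) (by positivity)
  have h3 : 4 * L * (K2 * P) * (K2 * P) ≤ 4 * L * (16 * X) * (16 * X) := by
    apply mul_le_mul _ hPK hKP0 (by positivity)
    exact mul_le_mul_of_nonneg_left hPK (by positivity)
  have h4 : 2 * (K2 * P) * (T * P) + 4 * L * (K2 * P) * (K2 * P) ≤ 1056 * (X ^ 2 * L) := by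
    have h5 : X ^ 2 * 1 ≤ X ^ 2 * L := mul_le_mul_of_nonneg_left hL1 (by positivity)
    nlinarith only [h2, h3, h5]
  refine (div_le_div_of_nonneg_right h4 (by positivity)).trans ?_
  rw [div_le_div_iff₀ (by positivity) (by positivity)]
  have h6 : (L ^ (A + 2)) ^ 2 = L ^ A * L * (L * L ^ (A + 2)) := by ring
  rw [h6]
  have h7 : 1 ≤ L ^ (A + 2) := one_le_pow₀ hL1
  have h8 : 1056 ≤ L * L ^ (A + 2) := by nlinarith only [hL, h7]
  calc 1056 * (X ^ 2 * L) * L ^ A = X ^ 2 * (L ^ A * L) * 1056 := by ring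
    _ ≤ X ^ 2 * (L ^ A * L) * (L * L ^ (A + 2)) := mul_le_mul_of_nonneg_left h8 (by positivity)
    _ = X ^ 2 * (L ^ A * L * (L * L ^ (A + 2))) := by ring

private theorem PInt_t3 (L X P K2 H T E : ℝ) (A C4 : ℕ) (hL : 1 ≤ L) (hX : 0 < X) (hP : 0 < P) (hK : 0 ≤ K2)
    (hH : 0 < H) (hT : 0 ≤ T) (hE : 0 < E) (hPK : K2 * P ≤ 16 * X) (hTH : T * H ≤ X * L ^ C4)
    (hEL : 3168 * L ^ (C4 + 1 + A) ≤ E) :
    P ^ 2 / (E * (1 + P / H)) * ((2 * T + 4 * K2 * L) * K2) ≤ X ^ 2 / (3 * L ^ A) := by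
  have hL0 : 0 < L := by linarith
  have hq : 0 < 1 + P / H := by positivity
  have hPH : P / (1 + P / H) ≤ H := by
    rw [div_le_iff₀ hq]
    have : H * (1 + P / H) = H + P := by field_simp
    rw [this]
    linarith
  have hP1 : P / (1 + P / H) ≤ P := by
    rw [div_le_iff₀ hq]
    have : 0 ≤ P * (P / H) := by positivity
    nlinarith only [this]
  have h0 : 0 ≤ P / (1 + P / H) := by positivity
  have h1 : P ^ 2 / (E * (1 + P / H)) * ((2 * T + 4 * K2 * L) * K2) =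
      (2 * (K2 * P) * (T * (P / (1 + P / H))) + 4 * L * (K2 * P) * (K2 * (P / (1 + P / H)))) / E := by
    field_simp
  rw [h1]
  have h2 : 2 * (K2 * P) * (T * (P / (1 + P / H))) ≤ 2 * (16 * X) * (X * L ^ C4) := by
    apply mul_le_mul (by linarith only [hPK]) _ (by positivity) (by positivity)
    exact (mul_le_mul_of_nonneg_left hPH hT).trans hTH
  have h3 : 4 * L * (K2 * P) * (K2 * (P / (1 + P / H))) ≤ 4 * L * (16 * X) * (16 * X) := by
    apply mul_le_mul _ _ (by positivity) (by positivity)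
    · exact mul_le_mul_of_nonneg_left hPK (by positivity)
    · exact (mul_le_mul_of_nonneg_left hP1 hK).trans hPK
  have h4 : L ^ C4 ≤ L ^ (C4 + 1) := pow_le_pow_right₀ hL (by omega)
  have h5 : L ≤ L ^ (C4 + 1) := le_self_pow₀ hL (by omega)
  have h6 : 2 * (K2 * P) * (T * (P / (1 + P / H))) + 4 * L * (K2 * P) * (K2 * (P / (1 + P / H))) ≤
      1056 * X ^ 2 * L ^ (C4 + 1) := by
    have a1 : 2 * (16 * X) * (X * L ^ C4) ≤ 32 * X ^ 2 * L ^ (C4 + 1) := by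
      calc 2 * (16 * X) * (X * L ^ C4) = 32 * X ^ 2 * L ^ C4 := by ring
        _ ≤ 32 * X ^ 2 * L ^ (C4 + 1) := mul_le_mul_of_nonneg_left h4 (by positivity)
    have a2 : 4 * L * (16 * X) * (16 * X) ≤ 1024 * X ^ 2 * L ^ (C4 + 1) := by
      calc 4 * L * (16 * X) * (16 * X) = 1024 * X ^ 2 * L := by ring
        _ ≤ 1024 * X ^ 2 * L ^ (C4 + 1) := mul_le_mul_of_nonneg_left h5 (by positivity)
    linarith only [h2, h3, a1, a2]
  refine (div_le_div_of_nonneg_right h6 hE.le).trans ?_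
  rw [div_le_div_iff₀ hE (by positivity)]
  calc 1056 * X ^ 2 * L ^ (C4 + 1) * (3 * L ^ A) = X ^ 2 * (3168 * L ^ (C4 + 1 + A)) := by
        rw [pow_add L (C4 + 1) A]
        ring
    _ ≤ X ^ 2 * E := mul_le_mul_of_nonneg_left hEL (by positivity)

/-- the constant of the middle term -/
private noncomputable def cM (m : ℕ) : ℝ := 48 * 4 ^ (2 * m + 1) * 2 ^ m * (m + 1).factorial * (2 + 2 ^ (m + 2) * (2 * m + 3))

private theorem cM_pos (m : ℕ) : 0 < cM m := by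
  unfold cM
  have : 0 < (m + 1).factorial := Nat.factorial_pos _
  positivity

/-- the middle term -/
private theorem PInt_t2 (C L X P K2 H T E F x s lg : ℝ) (A C4 m : ℕ) (hC : 1 ≤ C) (hL : 1 ≤ L) (hP : 0 < P)
    (hT : 0 ≤ T) (hE : 1 ≤ E) (hF : 0 < F) (hx : 0 < x) (hs : 0 < s) (hXx : X = x ^ 2) (hHs : H = s ^ 2)
    (hPK : K2 * P ≤ 16 * X) (hTH : T * H ≤ X * L ^ C4) (hEP : H ≤ P * E) (hPF : P ^ (m + 1) * F ≤ x * s ^ (2 * m + 1))
    (hxF : x * F ≤ s ^ (2 * m + 3)) (hlg0 : 0 ≤ lg) (hlg : lg ≤ (2 * m + 3) * L)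
    (hEL : cM m * C * L ^ (2 * C4 + 3 + A) * E ^ (2 * m) ≤ F) :
    4 ^ (2 * m + 1) * (C * L ^ 2 * Real.sqrt T * K2) * ((2 * T + 2 * (2 * P) ^ (m + 1) * lg) * ((m + 1).factorial * P ^ (m + 1))) /
      (P ^ 2 / (E * (1 + P / H))) ^ m ≤ X ^ 2 / (3 * L ^ A) := by
  have hL0 : 0 < L := by linarith only [hL]
  have hC0 : 0 < C := by linarith
  have hE0 : 0 < E := by linarith
  have hX : 0 < X := by rw [hXx]; positivity
  have hH : 0 < H := by rw [hHs]; positivity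
  have hq : 0 < 1 + P / H := by positivity
  -- the square root of `T`
  have hT1 : T ≤ (x / s) ^ 2 * L ^ C4 := by
    rw [div_pow, div_mul_eq_mul_div, le_div_iff₀ (by positivity), ← hXx, ← hHs]
    exact hTH
  have hL1C : L ^ C4 ≤ (L ^ C4) ^ 2 := le_self_pow₀ (one_le_pow₀ hL) (by norm_num)
  have hsT : Real.sqrt T ≤ x / s * L ^ C4 := by
    rw [Real.sqrt_le_left (by positivity), mul_pow]
    exact hT1.trans (mul_le_mul_of_nonneg_left hL1C (by positivity))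
  have hsT0 := Real.sqrt_nonneg T
  -- the quotient
  have hquo : (E * (1 + P / H)) ^ m ≤ 2 ^ m * E ^ (2 * m) * P ^ m / H ^ m := by
    have h1 : E * (1 + P / H) ≤ 2 * E ^ 2 * P / H := by
      rw [le_div_iff₀ hH]
      have h2 : E * (1 + P / H) * H = E * (H + P) := by field_simp
      rw [h2]
      have h3 : E * H ≤ E * (P * E) := mul_le_mul_of_nonneg_left hEP hE0.le
      have h4 : E * P * 1 ≤ E * P * E := mul_le_mul_of_nonneg_left hE (by positivity)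
      nlinarith only [h3, h4]
    calc (E * (1 + P / H)) ^ m ≤ (2 * E ^ 2 * P / H) ^ m := pow_le_pow_left₀ (by positivity) h1 m
      _ = 2 ^ m * E ^ (2 * m) * P ^ m / H ^ m := by
        rw [div_pow, mul_pow, mul_pow, ← pow_mul]
  -- the sum
  set c0 : ℝ := 2 + 2 ^ (m + 2) * (2 * m + 3) with hc0
  have hc00 : 0 < c0 := by rw [hc0]; positivity
  set Z : ℝ := Real.sqrt T * (2 * T + 2 * (2 * P) ^ (m + 1) * lg) with hZ
  have hZ0 : 0 ≤ Z := by rw [hZ]; positivity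
  have hZF : Z * F ≤ c0 * X * L ^ (2 * C4 + 1) * H ^ m := by
    have hHm : H ^ m = s ^ (2 * m) := by rw [hHs, ← pow_mul]
    have b1 : Real.sqrt T * (2 * T) * F ≤ 2 * X * L ^ (2 * C4 + 1) * H ^ m := by
      have a1 : Real.sqrt T * (2 * T) ≤ (x / s * L ^ C4) * (2 * ((x / s) ^ 2 * L ^ C4)) :=
        mul_le_mul hsT (by linarith only [hT1]) (by positivity) (by positivity)
      have a2 : (x / s * L ^ C4) * (2 * ((x / s) ^ 2 * L ^ C4)) * F = 2 * x ^ 2 * L ^ (2 * C4) * (x * F) / s ^ 3 := by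
        rw [show 2 * C4 = C4 + C4 by ring, pow_add]
        field_simp
      have a3 : 2 * x ^ 2 * L ^ (2 * C4) * (x * F) / s ^ 3 ≤ 2 * x ^ 2 * L ^ (2 * C4) * s ^ (2 * m + 3) / s ^ 3 := by
        apply div_le_div_of_nonneg_right _ (by positivity)
        exact mul_le_mul_of_nonneg_left hxF (by positivity)
      have a4 : 2 * x ^ 2 * L ^ (2 * C4) * s ^ (2 * m + 3) / s ^ 3 = 2 * X * L ^ (2 * C4) * H ^ m := by
        rw [hHm, hXx, pow_add s (2 * m) 3]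
        field_simp
      have a5 : 2 * X * L ^ (2 * C4) * H ^ m ≤ 2 * X * L ^ (2 * C4 + 1) * H ^ m := by
        apply mul_le_mul_of_nonneg_right _ (by positivity)
        exact mul_le_mul_of_nonneg_left (pow_le_pow_right₀ hL (by omega)) (by positivity)
      calc Real.sqrt T * (2 * T) * F ≤ (x / s * L ^ C4) * (2 * ((x / s) ^ 2 * L ^ C4)) * F :=
            mul_le_mul_of_nonneg_right a1 hF.le
        _ = 2 * x ^ 2 * L ^ (2 * C4) * (x * F) / s ^ 3 := a2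
        _ ≤ 2 * x ^ 2 * L ^ (2 * C4) * s ^ (2 * m + 3) / s ^ 3 := a3
        _ = 2 * X * L ^ (2 * C4) * H ^ m := a4
        _ ≤ 2 * X * L ^ (2 * C4 + 1) * H ^ m := a5
    have b2 : Real.sqrt T * (2 * (2 * P) ^ (m + 1) * lg) * F ≤ 2 ^ (m + 2) * (2 * m + 3) * X * L ^ (2 * C4 + 1) * H ^ m := by
      have a1 : Real.sqrt T * (2 * (2 * P) ^ (m + 1) * lg) * F = 2 ^ (m + 2) * (Real.sqrt T * (lg * (P ^ (m + 1) * F))) := by
        rw [mul_pow, pow_succ (2 : ℝ) (m + 1)]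
        ring
      have a2 : lg * (P ^ (m + 1) * F) ≤ ((2 * m + 3) * L) * (x * s ^ (2 * m + 1)) :=
        mul_le_mul hlg hPF (by positivity) (by positivity)
      have a3 : Real.sqrt T * (lg * (P ^ (m + 1) * F)) ≤ (x / s * L ^ C4) * (((2 * m + 3) * L) * (x * s ^ (2 * m + 1))) :=
        mul_le_mul hsT a2 (by positivity) (by positivity)
      have a4 : (x / s * L ^ C4) * (((2 * m + 3) * L) * (x * s ^ (2 * m + 1))) = (2 * m + 3) * X * L ^ (C4 + 1) * H ^ m := by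
        rw [hHm, hXx, pow_succ s (2 * m), pow_succ L C4]
        field_simp
      have a5 : L ^ (C4 + 1) ≤ L ^ (2 * C4 + 1) := pow_le_pow_right₀ hL (by omega)
      rw [a1]
      calc 2 ^ (m + 2) * (Real.sqrt T * (lg * (P ^ (m + 1) * F)))
          ≤ 2 ^ (m + 2) * ((2 * m + 3) * X * L ^ (C4 + 1) * H ^ m) := by
            rw [← a4]
            exact mul_le_mul_of_nonneg_left a3 (by positivity)
        _ ≤ 2 ^ (m + 2) * ((2 * m + 3) * X * L ^ (2 * C4 + 1) * H ^ m) := by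
            apply mul_le_mul_of_nonneg_left _ (by positivity)
            apply mul_le_mul_of_nonneg_right _ (by positivity)
            exact mul_le_mul_of_nonneg_left a5 (by positivity)
        _ = 2 ^ (m + 2) * (2 * m + 3) * X * L ^ (2 * C4 + 1) * H ^ m := by ring
    have b3 : Z * F = Real.sqrt T * (2 * T) * F + Real.sqrt T * (2 * (2 * P) ^ (m + 1) * lg) * F := by
      rw [hZ]
      ring
    rw [b3, hc0]
    have b4 : (2 + 2 ^ (m + 2) * (2 * (m : ℝ) + 3)) * X * L ^ (2 * C4 + 1) * H ^ m =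
        2 * X * L ^ (2 * C4 + 1) * H ^ m + 2 ^ (m + 2) * (2 * m + 3) * X * L ^ (2 * C4 + 1) * H ^ m := by ring
    rw [b4]
    exact add_le_add b1 b2
  -- assembly
  set f0 : ℝ := ((m + 1).factorial : ℝ) with hf0
  have hf00 : 0 < f0 := by
    rw [hf0]
    exact_mod_cast Nat.factorial_pos (m + 1)
  have e1 : 4 ^ (2 * m + 1) * (C * L ^ 2 * Real.sqrt T * K2) * ((2 * T + 2 * (2 * P) ^ (m + 1) * lg) * (f0 * P ^ (m + 1))) /
      (P ^ 2 / (E * (1 + P / H))) ^ m =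
      (4 ^ (2 * m + 1) * f0 * C * L ^ 2 * (K2 * P) * Z) * ((E * (1 + P / H)) ^ m / P ^ m) := by
    rw [hZ, div_pow, pow_succ P m, ← pow_mul, show P ^ (2 * m) = P ^ m * P ^ m by rw [← pow_add]; congr 1; ring]
    have h1 : (E * (1 + P / H)) ^ m ≠ 0 := by positivity
    generalize (E * (1 + P / H)) ^ m = e at h1
    have h2 : P ^ m ≠ 0 := by positivity
    generalize P ^ m = pm at h2
    field_simp
  rw [e1]
  have h5 : (E * (1 + P / H)) ^ m / P ^ m ≤ 2 ^ m * E ^ (2 * m) / H ^ m := by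
    rw [div_le_iff₀ (by positivity)]
    refine hquo.trans (le_of_eq ?_)
    ring
  have h6 : (4 ^ (2 * m + 1) * f0 * C * L ^ 2 * (K2 * P) * Z) * ((E * (1 + P / H)) ^ m / P ^ m) ≤
      (4 ^ (2 * m + 1) * f0 * C * L ^ 2 * (16 * X) * Z) * (2 ^ m * E ^ (2 * m) / H ^ m) := by
    apply mul_le_mul _ h5 (by positivity) (by positivity)
    apply mul_le_mul_of_nonneg_right _ hZ0
    exact mul_le_mul_of_nonneg_left hPK (by positivity)
  refine h6.trans ?_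
  rw [mul_div_assoc', div_le_div_iff₀ (by positivity) (by positivity)]
  -- multiply by `F`
  refine le_of_mul_le_mul_right ?_ hF
  calc 4 ^ (2 * m + 1) * f0 * C * L ^ 2 * (16 * X) * Z * (2 ^ m * E ^ (2 * m)) * (3 * L ^ A) * F
      = (48 * 4 ^ (2 * m + 1) * 2 ^ m * f0 * C * L ^ 2 * L ^ A * E ^ (2 * m) * X) * (Z * F) := by ring
    _ ≤ (48 * 4 ^ (2 * m + 1) * 2 ^ m * f0 * C * L ^ 2 * L ^ A * E ^ (2 * m) * X) * (c0 * X * L ^ (2 * C4 + 1) * H ^ m) :=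
        mul_le_mul_of_nonneg_left hZF (by positivity)
    _ = (cM m * C * L ^ (2 * C4 + 3 + A) * E ^ (2 * m)) * (X ^ 2 * H ^ m) := by
        have h7 : L ^ (2 * C4 + 3 + A) = L ^ 2 * L ^ A * L ^ (2 * C4 + 1) := by
          rw [← pow_add, ← pow_add]
          congr 1
          omega
        rw [h7, cM, hc0, hf0]
        ring
    _ ≤ F * (X ^ 2 * H ^ m) := mul_le_mul_of_nonneg_right hEL (by positivity)
    _ = X ^ 2 * H ^ m * F := by ring

theorem p_int (hVK : VKp) (m : ℕ) (hm : 1 ≤ m) (η : ℝ) (hη : 0 < η) (A B C4 : ℕ) : ∃ K' X0 : ℕ, ∀ X : ℕ, X0 ≤ X →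
    ∀ (P K1 K2 d l : ℕ) (b : ℕ → ℝ) (H a T : ℝ), Siz m η X P H → K2 * P ≤ 16 * X → 1 ≤ d → (d : ℝ) ≤ Real.log X ^ B →
    (∀ k, |b k| ≤ 1) → 1 ≤ T → T * H ≤ X * Real.log X ^ C4 →
    ∫ t in {t : ℝ | Real.log X ^ K' ≤ |t| ∧ |t| ≤ T}, ‖Pl P d l t‖ ^ 2 * ‖Kl b K1 K2 a t‖ ^ 2
      ≤ (X : ℝ) ^ 2 / Real.log X ^ A := by
  have hmr : (1 : ℝ) ≤ m := by exact_mod_cast hm
  have hηm : 0 < η / (8 * m) := by positivity
  obtain ⟨C, hC1, hdual⟩ := dual_k
  obtain ⟨K', X1, hvk⟩ := Pool.Agent.H53.MID.vk_pr hVK (A + 2) B η hη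
  obtain ⟨X2, hX2⟩ := Pool.Agent.H80.LV.log_ge (max (1536 * C) 3168)
  obtain ⟨X3, hX3⟩ := Pool.Agent.H80.LV.log_pow_le (η / 4) (cM m * C) (by positivity) (mul_pos (cM_pos m) (by linarith only [hC1])) (2 * C4 + 3 + A)
  obtain ⟨X4, hX4⟩ := Pool.Agent.H80.LV.log_pow_le (η / (8 * m)) 1 hηm one_pos (2 * (A + 2))
  obtain ⟨X5, hX5⟩ := Pool.Agent.H80.LV.log_pow_le 1 1 one_pos one_pos (C4 * (2 * m + 3))
  obtain ⟨X6, hX6⟩ := Pool.Agent.H80.LV.pow_ge η 16 hη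
  obtain ⟨X7, hX7⟩ := Pool.Agent.H80.LV.log_pow_le (η / (8 * m)) 3168 hηm (by norm_num) (C4 + 1 + A)
  refine ⟨K', max (max (max X1 X2) (max X3 X4)) (max (max X5 X6) (max X7 3)), ?_⟩
  intro X hX P K1 K2 d l b H a T hS hK hd hdB hb hT hTH
  simp only [max_le_iff] at hX
  obtain ⟨⟨⟨g1, g2⟩, ⟨g3, g4⟩⟩, ⟨g5, g6⟩, ⟨g7, g8⟩⟩ := hX
  have hvk' := hvk X g1
  have hL := hX2 X g2
  have hE1 := hX3 X g3
  have hE2 := hX4 X g4
  have hL5 := hX5 X g5
  have h16 := hX6 X g6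
  have hE3 := hX7 X g7
  have hL4 : 3168 ≤ Real.log X := (le_max_right _ _).trans hL
  have hLC : 1536 * C ≤ Real.log X := (le_max_left _ _).trans hL
  obtain ⟨hPl, hPX, hSH, hSP, hH00⟩ := hS
  set L := Real.log X with hL_def
  have hL1 : 1 ≤ L := by linarith only [hL4]
  have hL0 : 0 < L := by linarith only [hL4]
  have hXr : (3 : ℝ) ≤ X := by exact_mod_cast g8
  have hX0 : (0 : ℝ) < X := by linarith only [hXr]
  have hX1r : (1 : ℝ) ≤ X := by linarith only [hXr]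
  have hP16 : (16 : ℝ) ≤ P := h16.trans hPl
  have hP0 : (0 : ℝ) < P := by linarith only [h16, hPl]
  have hKr : (K2 : ℝ) * P ≤ 16 * X := by exact_mod_cast hK
  have hK0 : (0 : ℝ) ≤ K2 := Nat.cast_nonneg _
  have hK2X : K2 ≤ X := by
    have : (K2 : ℝ) ≤ X := by nlinarith only [hKr, h16, hPl]
    exact_mod_cast this
  have hT0 : 0 < T := by linarith only [hT]
  have hXη : (1 : ℝ) ≤ (X : ℝ) ^ η := Real.one_le_rpow hX1r hη.le
  have hHL : L ^ C4 ≤ H := by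
    have h1 : (L ^ C4) ^ (2 * m + 3) ≤ H ^ (2 * m + 3) := by
      rw [← pow_mul]
      rw [one_mul, Real.rpow_one] at hL5
      refine hL5.trans (le_trans ?_ hSH)
      nlinarith only [hXr, h16]
    exact le_of_pow_le_pow_left₀ (by omega) hH00 h1
  have hH1 : 1 ≤ H := (one_le_pow₀ hL1).trans hHL
  have hH0 : 0 < H := by linarith only [hH1]
  have hTX : T ≤ X := by
    have h2 : T * H ≤ X * H := hTH.trans (mul_le_mul_of_nonneg_left hHL hX0.le)
    exact le_of_mul_le_mul_right h2 hH0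
  -- the region
  set R : Set ℝ := {t : ℝ | L ^ K' ≤ |t| ∧ |t| ≤ T} with hR_def
  have hRm : MeasurableSet R :=
    (measurableSet_le measurable_const continuous_abs.measurable).inter
      (measurableSet_le continuous_abs.measurable measurable_const)
  have hRT : R ⊆ Set.Icc (-T) T := fun t ht => abs_le.1 ht.2
  have hVR : ∀ t ∈ R, ‖Pl P d l t‖ ≤ P / L ^ (A + 2) := by
    intro t ht
    refine hvk' P d l t hPl hPX hd hdB ht.1 (ht.2.trans (hTX.trans ?_))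
    exact le_self_pow₀ hX1r (by norm_num)
  have htot : ∫ t in R, ‖Kl b K1 K2 a t‖ ^ 2 ≤ (2 * T + 4 * K2 * L) * K2 := by
    have h1 : ∫ t in R, ‖Kl b K1 K2 a t‖ ^ 2 ≤ (2 * T + 2 * K2 * (1 + Real.log K2)) * K2 := by
      refine le_trans ?_ (mv_k K1 K2 b a T hT0.le hb)
      exact setIntegral_mono_set ((PInt_contK b K1 K2 a).continuousOn.integrableOn_Icc)
        (Filter.Eventually.of_forall fun t => by positivity) (Filter.Eventually.of_forall hRT)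
    refine h1.trans ?_
    have h2 : Real.log K2 ≤ L := by
      rcases Nat.eq_zero_or_pos K2 with h | h
      · rw [h, Nat.cast_zero, Real.log_zero]
        exact hL0.le
      · exact Real.log_le_log (by exact_mod_cast h) (by exact_mod_cast hK2X)
    apply mul_le_mul_of_nonneg_right _ hK0
    nlinarith only [hL4, h2]
  -- the parameters
  set E : ℝ := (X : ℝ) ^ (η / (8 * m)) with hE_def
  have hE1' : 1 ≤ E := Real.one_le_rpow hX1r hηm.le
  have hE0 : 0 < E := by linarith only [hE1']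
  have hLE : L ^ C4 ≤ E := by
    have h1 : L ^ C4 ≤ L ^ (C4 + 1 + A) := pow_le_pow_right₀ hL1 (by omega)
    have h2 : 0 < L ^ (C4 + 1 + A) := by positivity
    linarith only [hE3, h1, h2]
  rcases le_or_gt (P * E) H with hcase | hcase
  · -- small `P`
    have h0 := lev0 (fun t => ‖Pl P d l t‖) (fun t => ‖Kl b K1 K2 a t‖ ^ 2) (PInt_contP P d l) (PInt_contK b K1 K2 a)
      (fun t => norm_nonneg _) (fun t => by positivity) T (P / L ^ (A + 2)) ((2 * T + 4 * K2 * L) * K2) R hRm hRT hVR htot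
    exact h0.trans (PInt_t0 L X P K2 H T E A C4 hL4 hX0 hP0 hK0 hT0.le hE0 hKr hTH hcase hLE)
  set F : ℝ := (X : ℝ) ^ (η / 2) with hF_def
  have hF0 : 0 < F := Real.rpow_pos_of_pos hX0 _
  have hF2 : F ^ 2 = (X : ℝ) ^ η := by
    rw [hF_def, ← Real.rpow_natCast, ← Real.rpow_mul hX0.le]
    congr 1
    push_cast
    ring
  have hE2m : E ^ (2 * m) = (X : ℝ) ^ (η / 4) := by
    rw [hE_def, ← Real.rpow_natCast, ← Real.rpow_mul hX0.le]
    congr 1
    push_cast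
    field_simp
    norm_num
  have hEF : cM m * C * L ^ (2 * C4 + 3 + A) * E ^ (2 * m) ≤ F := by
    rw [hE2m]
    have h1 : F = (X : ℝ) ^ (η / 4) * (X : ℝ) ^ (η / 4) := by
      rw [hF_def, ← Real.rpow_add hX0]
      congr 1
      ring
    rw [h1]
    exact mul_le_mul_of_nonneg_right hE1 (Real.rpow_nonneg hX0.le _)
  have hx0 : 0 < Real.sqrt X := Real.sqrt_pos.2 hX0
  have hs0 : 0 < Real.sqrt H := Real.sqrt_pos.2 hH0
  have hxX : (X : ℝ) = Real.sqrt X ^ 2 := (Real.sq_sqrt hX0.le).symm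
  have hsH : H = Real.sqrt H ^ 2 := (Real.sq_sqrt hH0.le).symm
  have hPF : (P : ℝ) ^ (m + 1) * F ≤ Real.sqrt X * Real.sqrt H ^ (2 * m + 1) := by
    have h1 : ((P : ℝ) ^ (m + 1) * F) ^ 2 ≤ (Real.sqrt X * Real.sqrt H ^ (2 * m + 1)) ^ 2 := by
      have e1 : ((P : ℝ) ^ (m + 1) * F) ^ 2 = (P : ℝ) ^ (2 * m + 2) * (X : ℝ) ^ η := by
        rw [mul_pow, hF2, ← pow_mul]
        congr 2
        ring
      have e2 : (Real.sqrt X * Real.sqrt H ^ (2 * m + 1)) ^ 2 = X * H ^ (2 * m + 1) := by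
        rw [mul_pow, ← hxX, ← pow_mul, mul_comm (2 * m + 1) 2, pow_mul, ← hsH]
      rw [e1, e2]
      exact hSP
    exact le_of_sq_le_sq h1 (by positivity)
  have hxF : Real.sqrt X * F ≤ Real.sqrt H ^ (2 * m + 3) := by
    have h1 : (Real.sqrt X * F) ^ 2 ≤ (Real.sqrt H ^ (2 * m + 3)) ^ 2 := by
      have e2 : (Real.sqrt H ^ (2 * m + 3)) ^ 2 = H ^ (2 * m + 3) := by
        rw [← pow_mul, mul_comm (2 * m + 3) 2, pow_mul, ← hsH]
      rw [e2, mul_pow, ← hxX, hF2]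
      exact hSH
    exact le_of_sq_le_sq h1 (by positivity)
  set lg : ℝ := 1 + Real.log ((2 * (P : ℝ)) ^ (m + 1)) with hlg_def
  have hlog0 : 0 ≤ Real.log ((2 * (P : ℝ)) ^ (m + 1)) := by
    apply Real.log_nonneg
    exact one_le_pow₀ (by linarith only [h16, hPl])
  have hlg0 : 0 ≤ lg := by
    rw [hlg_def]
    linarith only [hlog0]
  have hlg : lg ≤ (2 * m + 3) * L := by
    have h1 : Real.log (2 * (P : ℝ)) ≤ 2 * L := by
      have h2 : Real.log (2 * (P : ℝ)) ≤ Real.log (X * X) := by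
        apply Real.log_le_log (by positivity)
        have h3 : (P : ℝ) ≤ X := by exact_mod_cast hPX
        nlinarith only [h16, hPl, h3, hXr]
      rw [Real.log_mul hX0.ne' hX0.ne'] at h2
      linarith only [h2]
    rw [hlg_def, Real.log_pow]
    push_cast
    have h3 : ((m : ℝ) + 1) * Real.log (2 * (P : ℝ)) ≤ (m + 1) * (2 * L) := mul_le_mul_of_nonneg_left h1 (by positivity)
    nlinarith only [hL4, h3]
  have hr1 : 1 ≤ (P / L ^ (A + 2)) ^ 2 / ((P : ℝ) ^ 2 / (E * (1 + P / H))) := by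
    have e1 : (P / L ^ (A + 2)) ^ 2 / ((P : ℝ) ^ 2 / (E * (1 + P / H))) = E * (1 + P / H) / L ^ (2 * (A + 2)) := by
      rw [div_pow, ← pow_mul, mul_comm (A + 2) 2]
      field_simp
    rw [e1, le_div_iff₀ (by positivity), one_mul]
    rw [one_mul] at hE2
    have h3 : 0 ≤ (P : ℝ) / H := by positivity
    nlinarith only [hE2, h3, hE1']
  obtain ⟨J, hJ1, hJ2⟩ := PInt_J _ hr1
  set V0 : ℝ := P / L ^ (A + 2) with hV0_def
  have hV00 : 0 < V0 := by positivity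
  set V1 : ℝ := (P : ℝ) ^ 2 / (E * (1 + P / H)) with hV1_def
  have hV10 : 0 < V1 := by positivity
  -- level sets
  have hlev := lev (fun t => ‖Pl P d l t‖) (fun t => ‖Kl b K1 K2 a t‖ ^ 2) (PInt_contP P d l) (PInt_contK b K1 K2 a)
    (fun t => norm_nonneg _) (fun t => by positivity) m hm T V0
    ((2 * T + 2 * (2 * (P : ℝ)) ^ (m + 1) * lg) * ((m + 1).factorial * (P : ℝ) ^ (m + 1)))
    (C * L ^ 2 * (K2 : ℝ) ^ 2) (C * L ^ 2 * Real.sqrt T * K2) ((2 * T + 4 * K2 * L) * K2) J R hRm hRT hV00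
    (by positivity) (by positivity) (by positivity) hVR
    (fun B' V hB hBR hV hBV => vol_le P d l (m + 1) V T (by
      have : (1 : ℝ) ≤ P := by linarith only [h16, hPl]
      exact_mod_cast this) hV hT0.le B' hB (hBR.trans hRT) hBV)
    (fun B' hB hBR => by
      refine (hdual X K1 K2 b a T B' g8 hK2X hT hTX hB (hBR.trans hRT) hb).trans (le_of_eq ?_)
      ring)
    htot
  refine hlev.trans ?_
  -- the three terms
  have ht1 := PInt_t1 C L X P K2 A hC1 hLC hX0 hP0.le hK0 hKr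
  have ht3 := PInt_t3 L X P K2 H T E A C4 hL1 hX0 hP0 hK0 hH0 hT0.le hE0 hKr hTH hE3
  have ht2 := PInt_t2 C L X P K2 H T E F (Real.sqrt X) (Real.sqrt H) lg A C4 m hC1 hL1 hP0 hT0.le hE1' hF0 hx0 hs0
    hxX hsH hKr hTH hcase.le hPF hxF hlg0 hlg hEF
  have s1 : 4 ^ (m + 1) * (C * L ^ 2 * Real.sqrt T * K2 * ((2 * T + 2 * (2 * (P : ℝ)) ^ (m + 1) * lg) * ((m + 1).factorial * (P : ℝ) ^ (m + 1))))
        * (4 ^ J) ^ m / V0 ^ (2 * m)
      ≤ 4 ^ (2 * m + 1) * (C * L ^ 2 * Real.sqrt T * K2) * ((2 * T + 2 * (2 * (P : ℝ)) ^ (m + 1) * lg) * ((m + 1).factorial * (P : ℝ) ^ (m + 1)))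
        / V1 ^ m := by
    have h2 : ((4 : ℝ) ^ J) ^ m / V0 ^ (2 * m) ≤ 4 ^ m / V1 ^ m := by
      rw [div_le_div_iff₀ (by positivity) (by positivity)]
      have h3 : (4 : ℝ) ^ J * V1 ≤ 4 * V0 ^ 2 := by
        calc (4 : ℝ) ^ J * V1 ≤ 4 * (V0 ^ 2 / V1) * V1 := mul_le_mul_of_nonneg_right hJ2 hV10.le
          _ = 4 * V0 ^ 2 := by field_simp
      calc ((4 : ℝ) ^ J) ^ m * V1 ^ m = ((4 : ℝ) ^ J * V1) ^ m := (mul_pow _ _ _).symm
        _ ≤ (4 * V0 ^ 2) ^ m := pow_le_pow_left₀ (by positivity) h3 m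
        _ = 4 ^ m * V0 ^ (2 * m) := by rw [mul_pow, ← pow_mul]
    have hA0 : 0 ≤ 4 ^ (m + 1) * (C * L ^ 2 * Real.sqrt T * K2 * ((2 * T + 2 * (2 * (P : ℝ)) ^ (m + 1) * lg) * ((m + 1).factorial * (P : ℝ) ^ (m + 1)))) := by
      positivity
    calc 4 ^ (m + 1) * (C * L ^ 2 * Real.sqrt T * K2 * ((2 * T + 2 * (2 * (P : ℝ)) ^ (m + 1) * lg) * ((m + 1).factorial * (P : ℝ) ^ (m + 1))))
        * (4 ^ J) ^ m / V0 ^ (2 * m)
        = 4 ^ (m + 1) * (C * L ^ 2 * Real.sqrt T * K2 * ((2 * T + 2 * (2 * (P : ℝ)) ^ (m + 1) * lg) * ((m + 1).factorial * (P : ℝ) ^ (m + 1))))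
        * ((4 ^ J) ^ m / V0 ^ (2 * m)) := by ring
      _ ≤ 4 ^ (m + 1) * (C * L ^ 2 * Real.sqrt T * K2 * ((2 * T + 2 * (2 * (P : ℝ)) ^ (m + 1) * lg) * ((m + 1).factorial * (P : ℝ) ^ (m + 1))))
        * (4 ^ m / V1 ^ m) := mul_le_mul_of_nonneg_left h2 hA0
      _ = _ := by
        rw [show 2 * m + 1 = (m + 1) + m by ring, pow_add]
        ring
  have s3 : V0 ^ 2 / 4 ^ J * ((2 * T + 4 * K2 * L) * K2) ≤ V1 * ((2 * T + 4 * K2 * L) * K2) := by
    have h1 : V0 ^ 2 / 4 ^ J ≤ V1 := by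
      rw [div_le_iff₀ (by positivity)]
      have h2 := mul_le_mul_of_nonneg_right hJ1 hV10.le
      rw [div_mul_cancel₀ _ hV10.ne'] at h2
      linarith only [h2]
    exact mul_le_mul_of_nonneg_right h1 (by positivity)
  have hsum : X ^ 2 / (3 * L ^ A) + X ^ 2 / (3 * L ^ A) + X ^ 2 / (3 * L ^ A) = (X : ℝ) ^ 2 / L ^ A := by
    field_simp
    norm_num
  rw [← hsum]
  exact add_le_add (add_le_add ht1 (s1.trans ht2)) (s3.trans ht3)

end Pool.Agent.H31.EK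

end

section

/-!
# EK DpInt: the mean square of the twisted Dirichlet polynomial (as `EQ/DpInt.lean`)

`cut 0 K2 b` vanishes outside `(0, K2]`; `DP (tf (cut 0 K2 b) P (a/d)) N t = Cs (cc (cut 0 K2 b) P (a/d) 0) N (-t)`.  `fac_sq` (`K1 = 0`, `X := N`, `T = 0`):
`‖·‖² ≤ d ∑_{l<d} ‖Pl P d l (0 + -t)‖² ‖Kl b 0 K2 (l a/d) (0 + -t)‖²`; the region is symmetric (substitution `t ↦ -t`), `p_int` with `A + 2B` for every `l`.
-/

set_option autoImplicit false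

namespace Pool.Agent.H31.EK

open Finset MeasureTheory
open Pool.Agent.H91.PK (ee)
open Pool.Agent.H35.W (pb)
open Pool.Agent.H53.MID (Fp Pl Kl VKp cut)
open Pool.Agent.H88.PSI (DP)
open Pool.Agent.H31.EQ (tf)

private theorem DpInt_ee_cont (c : ℝ) : Continuous fun t : ℝ => ee (-(t * c)) := by
  unfold ee
  fun_prop

private theorem DpInt_ee_zero (c : ℝ) : ee (-(0 * c)) = 1 := by
  unfold ee
  simp

private theorem DpInt_Pl_cont (P d l : ℕ) : Continuous fun t : ℝ => ‖Pl P d l t‖ ^ 2 := by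
  refine Continuous.pow (Continuous.norm ?_) 2
  unfold Pl
  exact continuous_finsetSum _ fun p _ => DpInt_ee_cont _

private theorem DpInt_Kl_cont (b : ℕ → ℝ) (K1 K2 : ℕ) (a : ℝ) : Continuous fun t : ℝ => ‖Kl b K1 K2 a t‖ ^ 2 := by
  refine Continuous.pow (Continuous.norm ?_) 2
  unfold Kl
  exact continuous_finsetSum _ fun k _ => continuous_const.mul (DpInt_ee_cont _)

private theorem DpInt_DP (f : ℕ → ℝ) (P N : ℕ) (α t : ℝ) :
    DP (tf f P α) N t = Pool.Agent.H53.MID.Cs (Pool.Agent.H53.MID.cc f P α 0) N (-t) := by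
  unfold DP Pool.Agent.H53.MID.Cs
  refine Finset.sum_congr rfl fun m _ => ?_
  unfold tf Pool.Agent.H53.MID.cc
  rw [DpInt_ee_zero, mul_one]
  congr 2
  ring

private theorem DpInt_DP_cont (f : ℕ → ℂ) (N : ℕ) : Continuous fun t : ℝ => ‖DP f N t‖ ^ 2 := by
  refine Continuous.pow (Continuous.norm ?_) 2
  unfold DP
  refine continuous_finsetSum _ fun m _ => continuous_const.mul ?_
  unfold ee
  fun_prop

private theorem DpInt_neg (F : ℝ → ℝ) (R : Set ℝ) (hR : ∀ t, -t ∈ R ↔ t ∈ R) (hRm : MeasurableSet R) :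
    ∫ t in R, F (-t) = ∫ t in R, F t := by
  rw [← integral_indicator hRm, ← integral_indicator hRm,
    ← integral_neg_eq_self (R.indicator F)]
  refine integral_congr_ae (Filter.Eventually.of_forall fun t => ?_)
  by_cases h : t ∈ R
  · have h' : -t ∈ R := (hR t).2 h
    simp only [Set.indicator_of_mem h, Set.indicator_of_mem h']
  · have h' : -t ∉ R := fun h1 => h ((hR t).1 h1)
    simp only [Set.indicator_of_notMem h, Set.indicator_of_notMem h']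

theorem dp_int (hVK : VKp) (m : ℕ) (hm : 1 ≤ m) (η : ℝ) (hη : 0 < η) (A B C4 : ℕ) : ∃ K' X0 : ℕ, ∀ X : ℕ, X0 ≤ X →
    ∀ (P K2 d a N : ℕ) (b : ℕ → ℝ) (H T : ℝ), Siz m η X P H → K2 * P ≤ 16 * X → 1 ≤ d → (d : ℝ) ≤ Real.log X ^ B → (∀ k, |b k| ≤ 1) →
    1 ≤ T → T * H ≤ X * Real.log X ^ C4 → 2 * P * K2 ≤ N →
    ∫ t in {t : ℝ | Real.log X ^ K' ≤ |t| ∧ |t| ≤ T}, ‖DP (tf (cut 0 K2 b) P ((a : ℝ) / d)) N t‖ ^ 2
      ≤ (X : ℝ) ^ 2 / Real.log X ^ A := by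
  obtain ⟨K', X0, hX0⟩ := p_int hVK m hm η hη (A + 2 * B) B C4
  refine ⟨K', max X0 3, ?_⟩
  intro X hX P K2 d a N b H T h1 h4 h5 h6 h7 h8 h9 h10
  have hX1 : X0 ≤ X := (le_max_left _ _).trans hX
  have hX3 : 3 ≤ X := (le_max_right _ _).trans hX
  have hL : 0 < Real.log X := Real.log_pos (by exact_mod_cast (by omega : 1 < X))
  set R : Set ℝ := {t : ℝ | Real.log X ^ K' ≤ |t| ∧ |t| ≤ T} with hRdef
  have hRsym : ∀ t, -t ∈ R ↔ t ∈ R := by
    intro t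
    simp only [hRdef, Set.mem_ofPred_eq, abs_neg]
  have hRm : MeasurableSet R := by
    have hc : Continuous fun t : ℝ => |t| := continuous_abs
    exact ((isClosed_Ici.preimage hc).measurableSet).inter ((isClosed_Iic.preimage hc).measurableSet)
  have hRs : R ⊆ Set.Icc (-T) T := fun t ht => Set.mem_Icc.2 (abs_le.1 ht.2)
  have hint : ∀ F : ℝ → ℝ, Continuous F → IntegrableOn F R := fun F hF =>
    (hF.continuousOn.integrableOn_Icc (μ := volume)).mono_set hRs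
  have hcont : ∀ l : ℕ, Continuous fun t : ℝ => ‖Pl P d l t‖ ^ 2 * ‖Kl b 0 K2 ((l : ℝ) * a / d) t‖ ^ 2 :=
    fun l => (DpInt_Pl_cont P d l).mul (DpInt_Kl_cont b 0 K2 _)
  have hI1 : ∫ t in R, ‖DP (tf (cut 0 K2 b) P ((a : ℝ) / d)) N t‖ ^ 2 ≤
      ∫ t in R, d * ∑ l ∈ range d, ‖Pl P d l (-t)‖ ^ 2 * ‖Kl b 0 K2 ((l : ℝ) * a / d) (-t)‖ ^ 2 := by
    refine setIntegral_mono_on (hint _ (DpInt_DP_cont _ N)) (hint _ ?_) hRm fun t _ => ?_
    · exact continuous_const.mul (continuous_finsetSum _ fun l _ => (hcont l).comp continuous_neg)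
    · have h := Pool.Agent.H53.MID.fac_sq b P 0 K2 N d a 0 (-t) h5 h10
      rw [zero_add] at h
      rw [DpInt_DP]
      exact h
  have hI2 : ∫ t in R, d * ∑ l ∈ range d, ‖Pl P d l (-t)‖ ^ 2 * ‖Kl b 0 K2 ((l : ℝ) * a / d) (-t)‖ ^ 2 =
      d * ∑ l ∈ range d, ∫ t in R, ‖Pl P d l t‖ ^ 2 * ‖Kl b 0 K2 ((l : ℝ) * a / d) t‖ ^ 2 := by
    have hs : ∫ t in R, ∑ l ∈ range d, ‖Pl P d l (-t)‖ ^ 2 * ‖Kl b 0 K2 ((l : ℝ) * a / d) (-t)‖ ^ 2 =
        ∑ l ∈ range d, ∫ t in R, ‖Pl P d l (-t)‖ ^ 2 * ‖Kl b 0 K2 ((l : ℝ) * a / d) (-t)‖ ^ 2 :=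
      integral_finsetSum (range d) fun l _ =>
        hint (fun t => ‖Pl P d l (-t)‖ ^ 2 * ‖Kl b 0 K2 ((l : ℝ) * a / d) (-t)‖ ^ 2)
          ((hcont l).comp continuous_neg)
    rw [integral_const_mul, hs]
    congr 1
    refine Finset.sum_congr rfl fun l _ => ?_
    exact DpInt_neg (fun t => ‖Pl P d l t‖ ^ 2 * ‖Kl b 0 K2 ((l : ℝ) * a / d) t‖ ^ 2) R hRsym hRm
  have hI3 : ∀ l ∈ range d, ∫ t in R, ‖Pl P d l t‖ ^ 2 * ‖Kl b 0 K2 ((l : ℝ) * a / d) t‖ ^ 2 ≤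
      (X : ℝ) ^ 2 / Real.log X ^ (A + 2 * B) := fun l _ =>
    hX0 X hX1 P 0 K2 d l b H ((l : ℝ) * a / d) T h1 h4 h5 h6 h7 h8 h9
  have hI4 := Finset.sum_le_sum hI3
  rw [sum_const, card_range, nsmul_eq_mul] at hI4
  calc ∫ t in R, ‖DP (tf (cut 0 K2 b) P ((a : ℝ) / d)) N t‖ ^ 2
      ≤ d * (d * ((X : ℝ) ^ 2 / Real.log X ^ (A + 2 * B))) :=
        (hI1.trans (le_of_eq hI2)).trans (mul_le_mul_of_nonneg_left hI4 (Nat.cast_nonneg d))
    _ ≤ Real.log X ^ B * (Real.log X ^ B * ((X : ℝ) ^ 2 / Real.log X ^ (A + 2 * B))) := by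
        have hpos : 0 ≤ (X : ℝ) ^ 2 / Real.log X ^ (A + 2 * B) := by positivity
        have hLB : 0 ≤ Real.log X ^ B := by positivity
        exact mul_le_mul h6 (mul_le_mul_of_nonneg_right h6 hpos) (mul_nonneg (Nat.cast_nonneg d) hpos) hLB
    _ = (X : ℝ) ^ 2 / Real.log X ^ A := by
        rw [show A + 2 * B = A + (B + B) by ring, pow_add, pow_add]
        field_simp

end Pool.Agent.H31.EK

end

section

/-!
# EK DSq: short average minus long average, mean square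

As `EQ/DSq.lean`.  `f = tf (cut 0 K2 b) P (a/d)`, `K2 = 4X/P`, `N = 8X`.  `|f n| ≤ #{p ∈ pb P : p ∣ n} ≤ k = ⌈2/η⌉` for `1 ≤ n ≤ 8X`
(`k + 1` primes `> P ≥ X^η` have a product `≥ X² > 8X`), `SS f N ≤ 8 k² X ≤ X L`.
`K = ⌈L^(A+2)⌉ ≤ H`: `100 SS/K² ≤ X/(4 L^A)`.  `dp_int` with `A' = 2A + 6`, `C4 = 2A + 10` gives `K'`; `T0 = L^K'`, `T = X L^C4/H` (`T ≥ T0`: `H ≤ X/L^A1`).
`A0 = A + 2K' + 10`.  `conv` and `pars`, each term is `≤ X/(4 L^A)`.
-/

set_option autoImplicit false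

namespace Pool.Agent.H31.EK

open Finset MeasureTheory
open Pool.Agent.H91.PK (ee)
open Pool.Agent.H35.W (pb)
open Pool.Agent.H53.MID (Fp Pl Kl VKp cut)
open Pool.Agent.H88.PSI (DP D W SS Gw conv pars)
open Pool.Agent.H31.EQ (tf)

private theorem DSq_log (y : ℝ) (hy : 0 ≤ y) : y - y ^ 2 / 2 ≤ Real.log (1 + y) := by
  have h := Real.le_log_one_add_of_nonneg hy
  refine le_trans ?_ h
  rw [le_div_iff₀ (by linarith only [hy])]
  nlinarith only [hy, mul_nonneg hy (sq_nonneg y), sq_nonneg y]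

private theorem DSq_hd (X Xi H H1 : ℝ) (hX : 0 < X) (hXi : X ≤ Xi) (hH : 0 < H) (hH1 : H ≤ H1) :
    |Real.log (1 + H / Xi) / H - Real.log (1 + H1 / Xi) / H1| ≤ H1 / X ^ 2 := by
  have hXi0 : 0 < Xi := by linarith
  have hH10 : 0 < H1 := by linarith
  have key : ∀ h : ℝ, 0 < h → h ≤ H1 →
      1 / Xi - H1 / (2 * Xi ^ 2) ≤ Real.log (1 + h / Xi) / h ∧ Real.log (1 + h / Xi) / h ≤ 1 / Xi := by
    intro h hh hh1
    have h0 : 0 ≤ h / Xi := by positivity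
    constructor
    · rw [le_div_iff₀ hh]
      refine le_trans ?_ (DSq_log _ h0)
      have : (1 / Xi - H1 / (2 * Xi ^ 2)) * h ≤ (1 / Xi - h / (2 * Xi ^ 2)) * h := by
        apply mul_le_mul_of_nonneg_right _ hh.le
        have := div_le_div_of_nonneg_right hh1 (by positivity : (0:ℝ) ≤ 2 * Xi ^ 2)
        linarith only [this]
      refine this.trans (le_of_eq ?_)
      field_simp
    · rw [div_le_iff₀ hh]
      have := Real.log_le_sub_one_of_pos (by positivity : 0 < 1 + h / Xi)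
      have e1 : 1 / Xi * h = h / Xi := by ring
      rw [e1]; linarith only [this]
  obtain ⟨a1, a2⟩ := key H hH hH1
  obtain ⟨b1, b2⟩ := key H1 hH10 le_rfl
  have h3 : H1 / (2 * Xi ^ 2) ≤ H1 / X ^ 2 := by
    apply div_le_div_of_nonneg_left hH10.le (by positivity)
    have : X ^ 2 ≤ Xi ^ 2 := pow_le_pow_left₀ hX.le hXi 2
    nlinarith only [this, sq_nonneg Xi]
  rw [abs_le]
  constructor <;> linarith only [a1, b2, h3, a2, b1]

private theorem DSq_cut (b : ℕ → ℝ) (P X n : ℕ) (hP : 1 ≤ P) (h1 : 1 ≤ n) (h2 : n ≤ 3 * X) :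
    Fp (cut 0 (4 * X / P) b) P n = Fp b P n := by
  unfold Fp
  refine sum_congr rfl fun p hp => ?_
  rw [mem_filter, pb, mem_filter, mem_Ioc] at hp
  obtain ⟨⟨⟨hp1, _⟩, hp2⟩, hp3⟩ := hp
  unfold cut
  rw [if_pos]
  rw [mem_Ioc]
  constructor
  · exact Nat.div_pos (Nat.le_of_dvd (by omega) hp3) hp2.pos
  · calc n / p ≤ n / P := Nat.div_le_div_left hp1.le (by omega)
      _ ≤ 4 * X / P := Nat.div_le_div_right (by omega)

private theorem DSq_Deq (b : ℕ → ℝ) (P X H H1 x : ℕ) (α : ℝ) (hP : 1 ≤ P) (hx : x ∈ Ico X (2 * X)) (hH : H ≤ X)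
    (hH1 : H1 ≤ X) : D (tf b P α) H H1 x = D (tf (cut 0 (4 * X / P) b) P α) H H1 x := by
  rw [mem_Ico] at hx
  have h1 : ∀ H' : ℕ, H' ≤ X → Pool.Agent.H88.PSI.W (tf b P α) H' x =
      Pool.Agent.H88.PSI.W (tf (cut 0 (4 * X / P) b) P α) H' x := by
    intro H' hH'
    unfold Pool.Agent.H88.PSI.W
    refine sum_congr rfl fun n hn => ?_
    rw [mem_Ioc] at hn
    unfold tf
    rw [DSq_cut b P X n hP (by omega) (by omega)]
  unfold D
  rw [h1 H hH, h1 H1 hH1]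

private theorem DSq_card (P X n k : ℕ) (hP : 8 * X < P ^ (k + 1)) (h1 : 1 ≤ n) (h2 : n ≤ 8 * X) :
    ((pb P).filter (fun p => p ∣ n)).card ≤ k := by
  by_contra hcon
  push Not at hcon
  obtain ⟨S, hS, hSc⟩ := exists_subset_card_eq (show k + 1 ≤ ((pb P).filter (fun p => p ∣ n)).card by omega)
  have hmem : ∀ p ∈ S, P < p ∧ p.Prime ∧ p ∣ n := by
    intro p hp
    have := hS hp
    rw [mem_filter, pb, mem_filter, mem_Ioc] at this
    exact ⟨this.1.1.1, this.1.2, this.2⟩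
  have h3 : ∏ p ∈ S, p ∣ n := by
    refine Finset.prod_primes_dvd n ?_ ?_
    · intro p hp
      exact (hmem p hp).2.1.prime
    · intro p hp
      exact (hmem p hp).2.2
  have h4 : P ^ (k + 1) ≤ ∏ p ∈ S, p := by
    rw [← hSc]
    exact Finset.pow_card_le_prod S _ P fun p hp => (hmem p hp).1.le
  have h5 := Nat.le_of_dvd (by omega) h3
  omega

private theorem DSq_ss (b : ℕ → ℝ) (P X k : ℕ) (α : ℝ) (hP : 8 * X < P ^ (k + 1)) (hb : ∀ k, |b k| ≤ 1) :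
    SS (tf (cut 0 (4 * X / P) b) P α) (8 * X) ≤ X * (8 * (k : ℝ) ^ 2) := by
  have h1 : ∀ n ∈ Icc 1 (8 * X), ‖tf (cut 0 (4 * X / P) b) P α n‖ ^ 2 ≤ (k : ℝ) ^ 2 := by
    intro n hn
    rw [mem_Icc] at hn
    have h2 : ‖tf (cut 0 (4 * X / P) b) P α n‖ ≤ k := by
      unfold tf
      rw [norm_mul, Pool.Agent.H91.PK.LSa_norm_ee, mul_one, Complex.norm_real, Real.norm_eq_abs]
      unfold Fp
      refine (abs_sum_le_sum_abs _ _).trans ?_
      have h3 : ∀ p ∈ (pb P).filter (fun p => p ∣ n), |cut 0 (4 * X / P) b (n / p)| ≤ 1 := by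
        intro p _
        unfold cut
        split_ifs
        · exact hb _
        · simp
      refine (sum_le_card_nsmul _ _ 1 h3).trans ?_
      rw [nsmul_eq_mul, mul_one]
      exact_mod_cast DSq_card P X n k hP hn.1 hn.2
    exact pow_le_pow_left₀ (norm_nonneg _) h2 2
  unfold SS
  refine (sum_le_card_nsmul _ _ ((k : ℝ) ^ 2) h1).trans ?_
  rw [Nat.card_Icc, nsmul_eq_mul]
  have h4 : 8 * X + 1 - 1 = 8 * X := by omega
  rw [h4]
  push_cast
  linarith only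

/-- the first error term -/
private theorem DSq_b (X K T0 H1 S L : ℝ) (A K' A1 : ℕ) (hX : 0 < X) (hL : 10 ^ 8 ≤ L)
    (_hK0 : 0 ≤ K) (hK : K ≤ 2 * L ^ (A + 2)) (hT0 : T0 = L ^ K') (hH10 : 0 ≤ H1) (hH1 : H1 ≤ X / L ^ A1)
    (hS0 : 0 ≤ S) (hS : S ≤ X * L) (hA : A + 2 + 3 * K' + A + 2 ≤ 2 * A1) :
    8 * X * K * (1000 * (T0 ^ 3 * H1 ^ 2 * (8 * X) / X ^ 4) * S) ≤ X / (4 * L ^ A) := by
  have hL0 : 0 < L := by linarith only [hL]
  have hL1 : 1 ≤ L := by linarith only [hL]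
  have h1 : H1 ^ 2 ≤ X ^ 2 / L ^ (2 * A1) := by
    have := pow_le_pow_left₀ hH10 hH1 2
    rw [div_pow, ← pow_mul, mul_comm A1 2] at this
    exact this
  have h2 : T0 ^ 3 = L ^ (3 * K') := by rw [hT0, ← pow_mul, mul_comm]
  have h3 : 8 * X * K * (1000 * (T0 ^ 3 * H1 ^ 2 * (8 * X) / X ^ 4) * S)
      ≤ 8 * X * (2 * L ^ (A + 2)) * (1000 * (L ^ (3 * K') * (X ^ 2 / L ^ (2 * A1)) * (8 * X) / X ^ 4) *
        (X * L)) := by
    rw [h2]
    gcongr
  refine h3.trans ?_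
  have h4 : 8 * X * (2 * L ^ (A + 2)) * (1000 * (L ^ (3 * K') * (X ^ 2 / L ^ (2 * A1)) * (8 * X) / X ^ 4) *
        (X * L)) = 128000 * X * (L ^ (A + 2 + 3 * K') * L) / L ^ (2 * A1) := by
    rw [pow_add L (A + 2) (3 * K')]
    field_simp
    ring
  rw [h4]
  have h5 : L ^ (A + 2 + 3 * K' + A + 2) ≤ L ^ (2 * A1) := pow_le_pow_right₀ hL1 hA
  rw [div_le_div_iff₀ (by positivity) (by positivity)]
  calc 128000 * X * (L ^ (A + 2 + 3 * K') * L) * (4 * L ^ A)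
      = 512000 * (X * (L ^ (A + 2 + 3 * K') * L ^ A * L)) := by ring
    _ ≤ L * (X * (L ^ (A + 2 + 3 * K') * L ^ A * L)) :=
        mul_le_mul_of_nonneg_right (by linarith only [hL]) (by positivity)
    _ = X * L ^ (A + 2 + 3 * K' + A + 2) := by
        rw [pow_add L (A + 2 + 3 * K' + A) 2, pow_add L (A + 2 + 3 * K') A]; ring
    _ ≤ X * L ^ (2 * A1) := mul_le_mul_of_nonneg_left h5 hX.le

/-- the second error term -/
private theorem DSq_c (X K H T N S L : ℝ) (A : ℕ) (hX : 1 ≤ X) (hL : 10 ^ 9 ≤ L)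
    (_hK0 : 0 ≤ K) (hK : K ≤ 2 * L ^ (A + 2)) (hH : 1 ≤ H) (hHT : H * T = X * L ^ (2 * A + 10)) (hT : 0 < T)
    (hN0 : 0 ≤ N) (hN : N ≤ 24 * L * X) (hS0 : 0 ≤ S) (hS : S ≤ X * L) :
    8 * X * K * (1000 * (1 / H ^ 2 * (1 / T + N / T ^ 2)) * S) ≤ X / (4 * L ^ A) := by
  have hX0 : 0 < X := by linarith
  have hL0 : 0 < L := by linarith only [hL]
  have hL1 : 1 ≤ L := by linarith
  have hH0 : 0 < H := by linarith
  have e1 : 1 / H ^ 2 * (1 / T) ≤ 1 / (X * L ^ (2 * A + 10)) := by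
    rw [one_div_mul_one_div]
    apply div_le_div_of_nonneg_left (by norm_num) (by positivity)
    rw [← hHT]
    have : 0 ≤ (H - 1) * (H * T) := mul_nonneg (by linarith) (by positivity)
    nlinarith only [this]
  have e2 : 1 / H ^ 2 * (N / T ^ 2) ≤ 24 * L / (X * L ^ (2 * A + 10)) := by
    rw [div_mul_div_comm, one_mul]
    have h1 : H ^ 2 * T ^ 2 = X ^ 2 * (L ^ (2 * A + 10) * L ^ (2 * A + 10)) := by
      rw [← mul_pow, hHT]; ring
    rw [h1]
    have h2 : 1 ≤ L ^ (2 * A + 10) := one_le_pow₀ hL1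
    calc N / (X ^ 2 * (L ^ (2 * A + 10) * L ^ (2 * A + 10))) ≤ 24 * L * X / (X ^ 2 * (L ^ (2 * A + 10) * 1)) := by
          apply div_le_div₀ (by positivity) hN (by positivity)
          gcongr
      _ = 24 * L / (X * L ^ (2 * A + 10)) := by field_simp
  have e3 : 1 / H ^ 2 * (1 / T + N / T ^ 2) ≤ 25 * L / (X * L ^ (2 * A + 10)) := by
    rw [mul_add]
    have : 1 / (X * L ^ (2 * A + 10)) ≤ L / (X * L ^ (2 * A + 10)) := by gcongr
    have h2 : 25 * L / (X * L ^ (2 * A + 10)) = 24 * L / (X * L ^ (2 * A + 10)) + L / (X * L ^ (2 * A + 10)) := by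
      ring
    linarith only [e1, e2, this, h2]
  have hW0 : 0 ≤ 1 / H ^ 2 * (1 / T + N / T ^ 2) := by positivity
  have h3 : 8 * X * K * (1000 * (1 / H ^ 2 * (1 / T + N / T ^ 2)) * S)
      ≤ 8 * X * (2 * L ^ (A + 2)) * (1000 * (25 * L / (X * L ^ (2 * A + 10))) * (X * L)) := by
    gcongr
  refine h3.trans ?_
  have h4 : L ^ (2 * A + 10) = L ^ (A + 2) * L ^ A * L ^ 8 := by
    rw [← pow_add, ← pow_add]
    congr 1
    omega
  have h5 : 8 * X * (2 * L ^ (A + 2)) * (1000 * (25 * L / (X * L ^ (2 * A + 10))) * (X * L))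
      = 400000 * X / (L ^ A * L ^ 6) := by
    rw [h4]
    have h9 : L ^ (A + 2) ≠ 0 := by positivity
    generalize L ^ (A + 2) = q at h9
    field_simp
    ring
  rw [h5, div_le_div_iff₀ (by positivity) (by positivity)]
  have h6 : 1600000 ≤ L ^ 6 := by
    calc (1600000 : ℝ) ≤ L := by linarith only [hL]
      _ = L ^ 1 := (pow_one L).symm
      _ ≤ L ^ 6 := pow_le_pow_right₀ hL1 (by norm_num)
  calc 400000 * X * (4 * L ^ A) = 1600000 * (X * L ^ A) := by ring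
    _ ≤ L ^ 6 * (X * L ^ A) := mul_le_mul_of_nonneg_right h6 (by positivity)
    _ = X * (L ^ A * L ^ 6) := by ring

private theorem DSq_a (X K S L : ℝ) (A : ℕ) (hX : 0 < X) (hL : 51200 ≤ L)
    (hK : L ^ (A + 2) ≤ K) (hS : S ≤ X * L) :
    100 * S / K ^ 2 ≤ X / (4 * L ^ A) := by
  have hL0 : 0 < L := by linarith
  have hL1 : 1 ≤ L := by linarith
  have hK0 : 0 < K := lt_of_lt_of_le (by positivity) hK
  have h1 : (L ^ (A + 2)) ^ 2 ≤ K ^ 2 := pow_le_pow_left₀ (by positivity) hK 2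
  calc 100 * S / K ^ 2 ≤ 100 * (X * L) / (L ^ (A + 2)) ^ 2 := by
        apply div_le_div₀ (by positivity) (by linarith) (by positivity) h1
    _ ≤ X / (4 * L ^ A) := by
        rw [div_le_div_iff₀ (by positivity) (by positivity)]
        have h2 : (L ^ (A + 2)) ^ 2 = L ^ A * L * (L ^ A * L ^ 3) := by
          rw [← pow_mul]
          have e1 : L ^ A * L * (L ^ A * L ^ 3) = L ^ (A + 1 + (A + 3)) := by
            rw [pow_add L (A + 1) (A + 3), pow_add L A 1, pow_add L A 3, pow_one]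
          rw [e1]
          congr 1
          omega
        have h4 : 1 ≤ L ^ A := one_le_pow₀ hL1
        have h6 : 51200 ≤ L ^ 3 := by
          calc (51200 : ℝ) ≤ L := hL
            _ = L ^ 1 := (pow_one L).symm
            _ ≤ L ^ 3 := pow_le_pow_right₀ hL1 (by norm_num)
        rw [h2]
        have h7 : 400 ≤ L ^ A * L ^ 3 := by nlinarith only [h4, h6]
        calc 100 * (X * L) * (4 * L ^ A) = 400 * (X * (L ^ A * L)) := by ring
          _ ≤ L ^ A * L ^ 3 * (X * (L ^ A * L)) := mul_le_mul_of_nonneg_right h7 (by positivity)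
          _ = X * (L ^ A * L * (L ^ A * L ^ 3)) := by ring

private theorem DSq_d (X K I L : ℝ) (A : ℕ) (hX : 0 < X) (hL : 256 ≤ L) (_hK0 : 0 ≤ K)
    (hK : K ≤ 2 * L ^ (A + 2)) (hI0 : 0 ≤ I) (hI : I ≤ X ^ 2 / L ^ (2 * A + 6)) :
    8 * X * K * (4 / X ^ 2 * I) ≤ X / (4 * L ^ A) := by
  have hL0 : 0 < L := by linarith
  have hL1 : 1 ≤ L := by linarith
  calc 8 * X * K * (4 / X ^ 2 * I) ≤ 8 * X * (2 * L ^ (A + 2)) * (4 / X ^ 2 * (X ^ 2 / L ^ (2 * A + 6))) := by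
        gcongr
    _ = 64 * X / (L ^ A * L ^ 4) := by
        have h8 : L ^ (2 * A + 6) = L ^ (A + 2) * (L ^ A * L ^ 4) := by
          rw [← pow_add, ← pow_add]
          congr 1
          omega
        rw [h8]
        have h9 : L ^ (A + 2) ≠ 0 := by positivity
        generalize L ^ (A + 2) = q at h9
        field_simp
        ring
    _ ≤ X / (4 * L ^ A) := by
        rw [div_le_div_iff₀ (by positivity) (by positivity)]
        have h8 : 0 < X * L ^ A := by positivity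
        have h6 : 256 ≤ L ^ 4 := by
          calc (256 : ℝ) ≤ L := hL
            _ = L ^ 1 := (pow_one L).symm
            _ ≤ L ^ 4 := pow_le_pow_right₀ hL1 (by norm_num)
        calc 64 * X * (4 * L ^ A) = 256 * (X * L ^ A) := by ring
          _ ≤ L ^ 4 * (X * L ^ A) := mul_le_mul_of_nonneg_right h6 h8.le
          _ = X * (L ^ A * L ^ 4) := by ring

theorem d_sq (hVK : VKp) (m : ℕ) (hm : 1 ≤ m) (η : ℝ) (hη : 0 < η) (A B : ℕ) : ∃ A0 : ℕ, ∀ A1 : ℕ, A0 ≤ A1 → ∃ X0 : ℕ, ∀ X : ℕ, X0 ≤ X →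
    ∀ (P d a H H1 : ℕ) (b : ℕ → ℝ), Siz m η X P H → 1 ≤ d → (d : ℝ) ≤ Real.log X ^ B → (∀ k, |b k| ≤ 1) →
    H ≤ H1 → (H1 : ℝ) ≤ X / Real.log X ^ A1 →
    ∑ x ∈ Ico X (2 * X), ‖D (tf b P ((a : ℝ) / d)) H H1 x‖ ^ 2 ≤ X / Real.log X ^ A := by
  obtain ⟨K', X1, hI⟩ := dp_int hVK m hm η hη (2 * A + 6) B (2 * A + 10)
  refine ⟨A + 2 * K' + 10, ?_⟩
  intro A1 hA1
  obtain ⟨k, hk⟩ : ∃ k : ℕ, k = ⌈2 / η⌉₊ := ⟨_, rfl⟩
  obtain ⟨X2, hX2⟩ := Pool.Agent.H80.LV.log_ge (max (10 ^ 9) (8 * (k : ℝ) ^ 2))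
  obtain ⟨X3, hX3⟩ := Pool.Agent.H80.LV.log_pow_le 1 (2 ^ (2 * m + 3)) one_pos (by positivity) ((A + 2) * (2 * m + 3))
  refine ⟨max (max X1 X2) (max X3 16), ?_⟩
  intro X hX P d a H H1 b hSz hd hdB hb hHH1 hH1
  simp only [max_le_iff] at hX
  obtain ⟨⟨hXa, hXb⟩, hXc, hXh⟩ := hX
  have hX8 : (16 : ℝ) ≤ X := by exact_mod_cast hXh
  have hX0 : (0 : ℝ) < X := by linarith only [hX8]
  have hX1' : (1 : ℝ) ≤ X := by linarith only [hX8]
  have hLm := hX2 X hXb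
  have h3 := hX3 X hXc
  have hL : 10 ^ 9 ≤ Real.log X := (le_max_left _ _).trans hLm
  have hLk : 8 * (k : ℝ) ^ 2 ≤ Real.log X := (le_max_right _ _).trans hLm
  set L := Real.log X with hLdef
  have hL1 : 1 ≤ L := by linarith only [hL]
  have hL0 : 0 < L := by linarith only [hL]
  -- sizes
  have hXη : (1 : ℝ) ≤ (X : ℝ) ^ η := Real.one_le_rpow hX1' hη.le
  have hP1 : (1 : ℝ) ≤ P := hXη.trans hSz.hPl
  have hPn : 1 ≤ P := by exact_mod_cast hP1
  have hHL : 2 * L ^ (A + 2) ≤ (H : ℝ) := by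
    have h4 : (2 * L ^ (A + 2)) ^ (2 * m + 3) ≤ (H : ℝ) ^ (2 * m + 3) := by
      rw [mul_pow, ← pow_mul]
      rw [Real.rpow_one] at h3
      refine h3.trans (le_trans ?_ hSz.hH)
      nlinarith only [hXη]
    exact le_of_pow_le_pow_left₀ (by omega) hSz.hH0 h4
  have hLA2' : (1 : ℝ) ≤ L ^ (A + 2) := one_le_pow₀ hL1
  have hH1r : (1 : ℝ) ≤ H := by linarith only [hHL, hLA2']
  have hHpos : (0 : ℝ) < H := by linarith only [hHL, hLA2']
  have hLA1 : (0 : ℝ) < L ^ A1 := by positivity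
  have hH1X : (H1 : ℝ) ≤ X := by
    refine hH1.trans ?_
    apply div_le_self hX0.le (one_le_pow₀ hL1)
  have hH1Xn : H1 ≤ X := by exact_mod_cast hH1X
  have hHX : H ≤ X := hHH1.trans hH1Xn
  have hP5 : 8 * X < P ^ (k + 1) := by
    have h6 : (8 : ℝ) * X < (P : ℝ) ^ (k + 1) := by
      have h7 : (X : ℝ) ^ (2 : ℝ) ≤ (P : ℝ) ^ (k + 1) := by
        have h8 := pow_le_pow_left₀ (by positivity) hSz.hPl (k + 1)
        refine le_trans ?_ h8
        rw [← Real.rpow_natCast, ← Real.rpow_mul hX0.le]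
        apply Real.rpow_le_rpow_of_exponent_le hX1'
        have h9 : 2 / η ≤ k := by
          rw [hk]
          exact Nat.le_ceil _
        rw [div_le_iff₀ hη] at h9
        push_cast
        nlinarith only [hη, h9]
      have h9 : (X : ℝ) ^ (2 : ℝ) = X * X := by
        rw [Real.rpow_two]
        ring
      rw [h9] at h7
      nlinarith only [hX8, h7]
    exact_mod_cast h6
  -- the truncated function
  set K2 : ℕ := 4 * X / P with hK2def
  set f : ℕ → ℂ := tf (cut 0 K2 b) P ((a : ℝ) / d) with hf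
  have hDf : ∑ x ∈ Ico X (2 * X), ‖D (tf b P ((a : ℝ) / d)) H H1 x‖ ^ 2 =
      ∑ x ∈ Ico X (2 * X), ‖D f H H1 x‖ ^ 2 := by
    refine sum_congr rfl fun x hx => ?_
    rw [DSq_Deq b P X H H1 x _ hPn hx hHX hH1Xn]
  rw [hDf]
  -- parameters
  set K : ℕ := ⌈L ^ (A + 2)⌉₊ with hKdef
  have hK1 : L ^ (A + 2) ≤ K := Nat.le_ceil _
  have hLA2 : (1 : ℝ) ≤ L ^ (A + 2) := one_le_pow₀ hL1
  have hK2 : (K : ℝ) ≤ 2 * L ^ (A + 2) := by
    have := (Nat.ceil_lt_add_one (by positivity : 0 ≤ L ^ (A + 2))).le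
    linarith only [hLA2', this]
  have hK3 : 1 ≤ K := by
    have : (1 : ℝ) ≤ K := hLA2.trans hK1
    exact_mod_cast this
  have hKH : K ≤ H := by
    have h8 : (K : ℝ) ≤ H := hK2.trans hHL
    exact_mod_cast h8
  have hS : SS f (8 * X) ≤ X * L :=
    (DSq_ss b P X k _ hP5 hb).trans (mul_le_mul_of_nonneg_left hLk hX0.le)
  set S := SS f (8 * X) with hSdef
  have hS0 : 0 ≤ S := sum_nonneg fun _ _ => sq_nonneg _
  set T0 : ℝ := L ^ K' with hT0def
  set T : ℝ := X * L ^ (2 * A + 10) / H with hTdef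
  have hHT : H * T = X * L ^ (2 * A + 10) := by
    rw [hTdef]
    field_simp
  have hT01 : 1 ≤ T0 := one_le_pow₀ hL1
  have hT0T : T0 ≤ T := by
    rw [hTdef, le_div_iff₀ hHpos]
    have h8 : T0 * H ≤ X := by
      have h9 : (H : ℝ) ≤ X / L ^ A1 := by
        have : (H : ℝ) ≤ H1 := by exact_mod_cast hHH1
        exact this.trans hH1
      rw [le_div_iff₀ hLA1] at h9
      have h10 : T0 ≤ L ^ A1 := by
        rw [hT0def]
        exact pow_le_pow_right₀ hL1 (by omega)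
      calc T0 * H ≤ L ^ A1 * H := mul_le_mul_of_nonneg_right h10 hHpos.le
        _ = H * L ^ A1 := mul_comm _ _
        _ ≤ X := h9
    have h9 : (X : ℝ) * 1 ≤ X * L ^ (2 * A + 10) := mul_le_mul_of_nonneg_left (one_le_pow₀ hL1) hX0.le
    linarith only [h8, h9]
  have hTpos : 0 < T := by linarith only [hT01, hT0T]
  have hI' := hI X hXa P K2 d a (8 * X) b H T hSz ?_ hd hdB hb (by linarith only [hT01, hT0T]) ?_ ?_
  rotate_left
  · have h8 : 4 * X / P * P ≤ 4 * X := Nat.div_mul_le_self _ _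
    rw [hK2def]
    omega
  · rw [mul_comm, hHT]
  · have h8 : P * (4 * X / P) ≤ 4 * X := Nat.mul_div_le _ _
    rw [hK2def]
    calc 2 * P * (4 * X / P) = 2 * (P * (4 * X / P)) := by ring
      _ ≤ 2 * (4 * X) := Nat.mul_le_mul_left 2 h8
      _ = 8 * X := by ring
  set I : ℝ := ∫ t in {t : ℝ | T0 ≤ |t| ∧ |t| ≤ T}, ‖DP f (8 * X) t‖ ^ 2 with hIdef
  have hconv := conv f (8 * X) X H H1 K (by omega) hK3 hKH hHH1 hH1Xn (by omega)
  -- the Plancherel bound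
  have hpars : ∀ i ∈ range K, ∫ u, ‖Gw f (8 * X) (Real.log (1 + H / (X * (1 + (i : ℝ) / K))))
          (Real.log (1 + H1 / (X * (1 + (i : ℝ) / K)))) H H1 u‖ ^ 2
      ≤ 1000 * (T0 ^ 3 * H1 ^ 2 * ((8 * X : ℕ) : ℝ) / X ^ 4
          + 1 / H ^ 2 * (1 / T + ((8 * X : ℕ) : ℝ) * (1 + Real.log ((8 * X : ℕ) : ℝ)) / T ^ 2)) * S
        + 4 / X ^ 2 * I := by
    intro i _
    have hKr : (0 : ℝ) < K := by exact_mod_cast hK3
    have hi0 : (0 : ℝ) ≤ (i : ℝ) / K := by positivity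
    set Xi : ℝ := X * (1 + (i : ℝ) / K) with hXi
    have hXiX : (X : ℝ) ≤ Xi := by rw [hXi]; nlinarith only [hi0]
    have hXi0 : 0 < Xi := by linarith only [hX8, hXiX]
    have hH1pos : (0 : ℝ) < H1 := by
      have : (H : ℝ) ≤ H1 := by exact_mod_cast hHH1
      linarith only [hHL, hLA2', this]
    have hup : ∀ h : ℝ, 0 ≤ h → Real.log (1 + h / Xi) ≤ h / X := by
      intro h hh
      have h8 := Real.log_le_sub_one_of_pos (by positivity : 0 < 1 + h / Xi)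
      have h9 : h / Xi ≤ h / X := div_le_div_of_nonneg_left hh hX0 hXiX
      linarith only [h8, h9]
    have hlo : ∀ h : ℝ, 0 ≤ h → 0 ≤ Real.log (1 + h / Xi) := by
      intro h hh
      apply Real.log_nonneg
      have : 0 ≤ h / Xi := by positivity
      linarith only [this]
    exact pars f (8 * X) X H H1 _ _ T0 T (by omega) hX1'
      (by exact_mod_cast (hK3.trans hKH)) (by exact_mod_cast hHH1) hH1X (hlo _ hHpos.le)
      (hup _ hHpos.le) (hlo _ hH1pos.le) (hup _ hH1pos.le)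
      (DSq_hd X Xi H H1 hX0 hXiX hHpos (by exact_mod_cast hHH1)) hT01 hT0T
  set E : ℝ := 1000 * (T0 ^ 3 * H1 ^ 2 * ((8 * X : ℕ) : ℝ) / X ^ 4
          + 1 / H ^ 2 * (1 / T + ((8 * X : ℕ) : ℝ) * (1 + Real.log ((8 * X : ℕ) : ℝ)) / T ^ 2)) * S
        + 4 / X ^ 2 * I with hE
  have hsumE : ∑ i ∈ range K, ∫ u, ‖Gw f (8 * X) (Real.log (1 + H / (X * (1 + (i : ℝ) / K))))
          (Real.log (1 + H1 / (X * (1 + (i : ℝ) / K)))) H H1 u‖ ^ 2 ≤ K * E := by
    refine (sum_le_sum hpars).trans (le_of_eq ?_)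
    simp [sum_const, card_range, nsmul_eq_mul]
  -- numerical bounds
  have hNr : ((8 * X : ℕ) : ℝ) = 8 * X := by push_cast; ring
  have hlogN : 1 + Real.log ((8 * X : ℕ) : ℝ) ≤ 3 * L := by
    rw [hNr, Real.log_mul (by norm_num) hX0.ne']
    have : Real.log 8 ≤ 8 - 1 := Real.log_le_sub_one_of_pos (by norm_num)
    linarith only [hL, this]
  have hlogN0 : 0 ≤ 1 + Real.log ((8 * X : ℕ) : ℝ) := by
    have : 0 ≤ Real.log ((8 * X : ℕ) : ℝ) := Real.log_natCast_nonneg _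
    linarith only [this]
  have ea := DSq_a X K S L A hX0 (by linarith only [hL]) hK1 hS
  have eb := DSq_b X K T0 H1 S L A K' A1 hX0 (by linarith only [hL]) (by positivity) hK2 rfl (by positivity) hH1 hS0 hS
    (by omega)
  have ec := DSq_c X K H T (((8 * X : ℕ) : ℝ) * (1 + Real.log ((8 * X : ℕ) : ℝ))) S L A
    hX1' hL (by positivity) hK2 hH1r hHT hTpos (by positivity)
    (by rw [hNr]; rw [hNr] at hlogN; nlinarith only [hlogN]) hS0 hS
  have hI0 : 0 ≤ I := setIntegral_nonneg_of_ae (Filter.Eventually.of_forall fun _ => sq_nonneg _)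
  have ed := DSq_d X K I L A hX0 (by linarith only [hL]) (by positivity) hK2 hI0 hI'
  have hfin : ∑ x ∈ Ico X (2 * X), ‖D f H H1 x‖ ^ 2
      ≤ 100 * S / (K : ℝ) ^ 2 + 8 * X * (K * E) :=
    hconv.trans (by
      have := mul_le_mul_of_nonneg_left hsumE (by positivity : (0 : ℝ) ≤ 8 * X)
      linarith only [this])
  have hE2 : 8 * X * (K * E) = 8 * X * K * (1000 * (T0 ^ 3 * H1 ^ 2 * (8 * X) / X ^ 4) * S)
      + 8 * X * K * (1000 * (1 / H ^ 2 * (1 / T + ((8 * X : ℕ) : ℝ) * (1 + Real.log ((8 * X : ℕ) : ℝ)) / T ^ 2)) * S)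
      + 8 * X * K * (4 / X ^ 2 * I) := by
    rw [hE]
    nth_rewrite 1 [hNr]
    ring
  rw [hE2] at hfin
  have h9 : X / (4 * L ^ A) + (X / (4 * L ^ A) + X / (4 * L ^ A) + X / (4 * L ^ A)) = X / L ^ A := by
    field_simp; ring
  linarith only [ea, eb, ec, ed, hfin, h9]

end Pool.Agent.H31.EK

end

section

/-!
# EK ClsD: from additive twists to residue classes (as `EQ/ClsD.lean`)

`cf b P d c n = (1/d) ∑_{a<d} ee(a c/d) tf b P (a/d) n` (`∑_{a<d} ee(a (c-n)/d) = d [n ≡ c (d)]`, orthogonality; e.g. `VkClass`/`HSq`/`Tls` use it too: geometric sum), `D` is linear (`d_sum`, `d_smul`),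
Cauchy-Schwarz: `‖D(cf)‖² ≤ (1/d) ∑_{a<d} ‖D(tf b P (a/d))‖²`; `d_sq` for every `a`.
-/

set_option autoImplicit false

namespace Pool.Agent.H31.EK

open Finset MeasureTheory
open Pool.Agent.H91.PK (ee)
open Pool.Agent.H35.W (pb)
open Pool.Agent.H53.MID (Fp VKp)
open Pool.Agent.H88.PSI (D W)
open Pool.Agent.H31.EQ (tf cf)

private theorem ClsD_norm_ee (t : ℝ) : ‖ee t‖ = 1 := by
  unfold ee
  rw [show (2 * (Real.pi : ℂ) * (t : ℂ) * Complex.I) = ((2 * Real.pi * t : ℝ) : ℂ) * Complex.I by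
    push_cast; ring]
  exact Complex.norm_exp_ofReal_mul_I _

private theorem ClsD_pow (a c n d : ℕ) :
    ee ((a : ℝ) * c / d) * ee (-((n : ℝ) * ((a : ℝ) / d))) = ee (((c : ℝ) - n) / d) ^ a := by
  unfold ee
  rw [← Complex.exp_add, ← Complex.exp_nat_mul]
  congr 1
  push_cast
  ring

private theorem ClsD_one {c n d : ℕ} (hd : 1 ≤ d) :
    ee (((c : ℝ) - n) / d) = 1 ↔ n % d = c % d := by
  have hd' : (d : ℂ) ≠ 0 := by
    have : d ≠ 0 := by omega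
    exact_mod_cast this
  unfold ee
  rw [Complex.exp_eq_one_iff]
  have h2 : (2 * (Real.pi : ℂ) * Complex.I) ≠ 0 := Complex.two_pi_I_ne_zero
  constructor
  · rintro ⟨k, hk⟩
    have h3 : (2 * (Real.pi : ℂ) * Complex.I) * (((c : ℂ) - n) / d) = (2 * (Real.pi : ℂ) * Complex.I) * k := by
      have := hk
      push_cast at this
      linear_combination this
    have h4 := mul_left_cancel₀ h2 h3
    have h5 : ((c : ℂ) - n) = k * d := by
      rw [div_eq_iff hd'] at h4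
      exact h4
    have h6 : ((c : ℤ) - n) = k * d := by
      exact_mod_cast h5
    have h7 : n ≡ c [MOD d] := by
      rw [Nat.modEq_iff_dvd]
      exact ⟨k, by rw [h6]; ring⟩
    exact h7
  · intro h
    have h7 : n ≡ c [MOD d] := h
    rw [Nat.modEq_iff_dvd] at h7
    obtain ⟨k, hk⟩ := h7
    refine ⟨k, ?_⟩
    have h5 : ((c : ℂ) - n) = d * k := by exact_mod_cast hk
    push_cast
    rw [h5]
    field_simp

private theorem ClsD_end {c n d : ℕ} (hd : 1 ≤ d) : ee (((c : ℝ) - n) / d) ^ d = 1 := by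
  have hd' : (d : ℂ) ≠ 0 := by
    have : d ≠ 0 := by omega
    exact_mod_cast this
  unfold ee
  rw [← Complex.exp_nat_mul, Complex.exp_eq_one_iff]
  refine ⟨(c : ℤ) - n, ?_⟩
  push_cast
  field_simp

private theorem ClsD_orth (c n d : ℕ) (hd : 1 ≤ d) :
    ∑ a ∈ range d, ee ((a : ℝ) * c / d) * ee (-((n : ℝ) * ((a : ℝ) / d)))
      = if n % d = c % d then (d : ℂ) else 0 := by
  simp only [ClsD_pow]
  split_ifs with h
  · rw [(ClsD_one hd).2 h]
    simp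
  · have h1 : ee (((c : ℝ) - n) / d) ≠ 1 := fun h2 => h ((ClsD_one hd).1 h2)
    rw [geom_sum_eq h1, ClsD_end hd]
    simp

/-- the class is a mean of the twists -/
private theorem cf_eq (b : ℕ → ℝ) (P d c n : ℕ) (hd : 1 ≤ d) :
    cf b P d c n = 1 / (d : ℂ) * ∑ a ∈ range d, ee ((a : ℝ) * c / d) * tf b P ((a : ℝ) / d) n := by
  have hd' : (d : ℂ) ≠ 0 := by
    have : d ≠ 0 := by omega
    exact_mod_cast this
  have h1 : ∑ a ∈ range d, ee ((a : ℝ) * c / d) * tf b P ((a : ℝ) / d) n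
      = ((Fp b P n : ℝ) : ℂ) * (if n % d = c % d then (d : ℂ) else 0) := by
    rw [← ClsD_orth c n d hd, Finset.mul_sum]
    refine Finset.sum_congr rfl fun a _ => ?_
    unfold tf
    ring
  rw [h1]
  unfold cf
  split_ifs
  · field_simp
  · simp

private theorem ClsD_norm (b : ℕ → ℝ) (P d c H H1 x : ℕ) (hd : 1 ≤ d) :
    ‖D (cf b P d c) H H1 x‖ ^ 2 ≤ 1 / (d : ℝ) * ∑ a ∈ range d, ‖D (tf b P ((a : ℝ) / d)) H H1 x‖ ^ 2 := by
  have hd' : (0 : ℝ) < d := by exact_mod_cast hd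
  have h1 : cf b P d c = fun n => ∑ a ∈ range d,
      (fun a : ℕ => fun n : ℕ => (1 / (d : ℂ) * ee ((a : ℝ) * c / d)) * tf b P ((a : ℝ) / d) n) a n := by
    funext n
    rw [cf_eq b P d c n hd, Finset.mul_sum]
    refine Finset.sum_congr rfl fun a _ => ?_
    ring
  have h2 : D (cf b P d c) H H1 x
      = ∑ a ∈ range d, (1 / (d : ℂ) * ee ((a : ℝ) * c / d)) * D (tf b P ((a : ℝ) / d)) H H1 x := by
    rw [h1, Pool.Agent.H88.PSI.d_sum]
    refine Finset.sum_congr rfl fun a _ => ?_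
    exact Pool.Agent.H88.PSI.d_smul _ _ H H1 x
  have h3 : ‖D (cf b P d c) H H1 x‖ ≤ 1 / (d : ℝ) * ∑ a ∈ range d, ‖D (tf b P ((a : ℝ) / d)) H H1 x‖ := by
    rw [h2, Finset.mul_sum]
    refine (norm_sum_le _ _).trans (Finset.sum_le_sum fun a _ => ?_)
    rw [norm_mul, norm_mul, ClsD_norm_ee, mul_one, norm_div, norm_one, Complex.norm_natCast]
  have h4 : (∑ a ∈ range d, ‖D (tf b P ((a : ℝ) / d)) H H1 x‖) ^ 2
      ≤ d * ∑ a ∈ range d, ‖D (tf b P ((a : ℝ) / d)) H H1 x‖ ^ 2 := by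
    have := sq_sum_le_card_mul_sum_sq (s := range d) (f := fun a : ℕ => ‖D (tf b P ((a : ℝ) / d)) H H1 x‖)
    rwa [Finset.card_range] at this
  calc ‖D (cf b P d c) H H1 x‖ ^ 2
      ≤ (1 / (d : ℝ) * ∑ a ∈ range d, ‖D (tf b P ((a : ℝ) / d)) H H1 x‖) ^ 2 :=
        pow_le_pow_left₀ (norm_nonneg _) h3 2
    _ = (1 / (d : ℝ)) ^ 2 * (∑ a ∈ range d, ‖D (tf b P ((a : ℝ) / d)) H H1 x‖) ^ 2 := by ring
    _ ≤ (1 / (d : ℝ)) ^ 2 * (d * ∑ a ∈ range d, ‖D (tf b P ((a : ℝ) / d)) H H1 x‖ ^ 2) :=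
        mul_le_mul_of_nonneg_left h4 (by positivity)
    _ = 1 / (d : ℝ) * ∑ a ∈ range d, ‖D (tf b P ((a : ℝ) / d)) H H1 x‖ ^ 2 := by
        field_simp

theorem cls_d (hVK : VKp) (m : ℕ) (hm : 1 ≤ m) (η : ℝ) (hη : 0 < η) (A B : ℕ) : ∃ A0 : ℕ, ∀ A1 : ℕ, A0 ≤ A1 → ∃ X0 : ℕ, ∀ X : ℕ, X0 ≤ X →
    ∀ (P d c H H1 : ℕ) (b : ℕ → ℝ), Siz m η X P H → 1 ≤ d → (d : ℝ) ≤ Real.log X ^ B → (∀ k, |b k| ≤ 1) →
    H ≤ H1 → (H1 : ℝ) ≤ X / Real.log X ^ A1 →
    ∑ x ∈ Ico X (2 * X), ‖D (cf b P d c) H H1 x‖ ^ 2 ≤ X / Real.log X ^ A := by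
  obtain ⟨A0, h0⟩ := d_sq hVK m hm η hη A B
  refine ⟨A0, fun A1 hA1 => ?_⟩
  obtain ⟨X0, h1⟩ := h0 A1 hA1
  refine ⟨X0, fun X hX P d c H H1 b hSz hd hdB hb hH1 hH1X => ?_⟩
  have hd' : (0 : ℝ) < d := by exact_mod_cast hd
  calc ∑ x ∈ Ico X (2 * X), ‖D (cf b P d c) H H1 x‖ ^ 2
      ≤ ∑ x ∈ Ico X (2 * X), 1 / (d : ℝ) * ∑ a ∈ range d, ‖D (tf b P ((a : ℝ) / d)) H H1 x‖ ^ 2 :=
        Finset.sum_le_sum fun x _ => ClsD_norm b P d c H H1 x hd
    _ = 1 / (d : ℝ) * ∑ a ∈ range d, ∑ x ∈ Ico X (2 * X), ‖D (tf b P ((a : ℝ) / d)) H H1 x‖ ^ 2 := by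
        rw [← Finset.mul_sum, Finset.sum_comm]
    _ ≤ 1 / (d : ℝ) * ∑ _a ∈ range d, (X : ℝ) / Real.log X ^ A := by
        refine mul_le_mul_of_nonneg_left (Finset.sum_le_sum fun a _ => ?_) (by positivity)
        exact h1 X hX P d a H H1 b hSz hd hdB hb hH1 hH1X
    _ = X / Real.log X ^ A := by
        rw [Finset.sum_const, Finset.card_range, nsmul_eq_mul]
        field_simp

end Pool.Agent.H31.EK

end
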