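import Pool.Agent.H43.PJ.M69
import Pool.Agent.H43.PJ.M90

/-! The parts of this file: H31.EK.Main, H31.EK.Fin. -/

section

/-!
# EK Main: the windows, one box of primes, then a sum of boxes

As `EQ/Main.lean`.  `eq_x`: `ew (Fp b P) H H1 d c x = H · (D (cf b P d c) H H1 x + (W (cf ..) H1 x/H1 - [(c,d)=1] gam/φ(d)))`; the second term is `≤ (X/L^C)/H1 ≤ L^(A2 - C)`
by `long_c` (`C = A + A2 + 2`); `cls_d` with `A + 2`.  `H ≤ H1`: `H² ≤ 16 X`.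
`eq_s`: `ew` is linear in `G`, `|∑_j|² ≤ (J1 - J0) ∑_j |·|²`, `J1 - J0 ≤ 2 L` (`2^J1 y ≤ X`); `eq_x` with `A + 3`, `P = 2^j y`.
-/

set_option autoImplicit false

namespace Pool.Agent.H31.EK

open Finset MeasureTheory
open Pool.Agent.H91.PK (ee)
open Pool.Agent.H35.W (pb)
open Pool.Agent.H53.MID (Fp VKp)
open Pool.Agent.H88.PSI (D W)
open Pool.Agent.H31.EQ (cf Gs gam ew long_c)

/-- the window sums of `cf` are real -/
private theorem Main_W (b : ℕ → ℝ) (P d c H x : ℕ) :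
    W (cf b P d c) H x = ((∑ n ∈ (Ioc x (x + H)).filter (fun n => n % d = c % d), Fp b P n : ℝ) : ℂ) := by
  unfold W cf
  rw [Finset.sum_filter]
  push_cast
  refine Finset.sum_congr rfl (fun n _ => ?_)
  split_ifs <;> simp

/-- the pointwise bound -/
private theorem Main_pt (b : ℕ → ℝ) (P d c H H1 x : ℕ) (E : ℝ) (hH : 0 < (H : ℝ)) (hH1 : 0 < (H1 : ℝ))
    (hE : |(∑ n ∈ (Ioc x (x + H1)).filter (fun n => n % d = c % d), Fp b P n)
      - (if Nat.Coprime c d then (∑ n ∈ Ioc x (x + H1), Fp b P n) / d.totient else 0)| ≤ E * H1) :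
    ew (Fp b P) H H1 d c x ^ 2 ≤ 2 * (H : ℝ) ^ 2 * ‖D (cf b P d c) H H1 x‖ ^ 2 + 2 * (H : ℝ) ^ 2 * E ^ 2 := by
  set S1 : ℝ := ∑ n ∈ (Ioc x (x + H)).filter (fun n => n % d = c % d), Fp b P n with hS1
  set S2 : ℝ := ∑ n ∈ (Ioc x (x + H1)).filter (fun n => n % d = c % d), Fp b P n with hS2
  set M : ℝ := (if Nat.Coprime c d then (∑ n ∈ Ioc x (x + H1), Fp b P n) / (d.totient : ℝ) else 0) with hM
  have hD : ‖D (cf b P d c) H H1 x‖ = |S1 / H - S2 / H1| := by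
    unfold D
    rw [Main_W, Main_W, ← hS1, ← hS2]
    have : ((S1 : ℝ) : ℂ) / (H : ℂ) - ((S2 : ℝ) : ℂ) / (H1 : ℂ) = ((S1 / H - S2 / H1 : ℝ) : ℂ) := by
      push_cast
      ring
    rw [this, Complex.norm_real, Real.norm_eq_abs]
  have hew : ew (Fp b P) H H1 d c x = H * (S1 / H - S2 / H1) + H * ((S2 - M) / H1) := by
    unfold ew gam
    rw [← hS1, hM]
    have h1 : (H : ℝ) * (S1 / H - S2 / H1) = S1 - H * S2 / H1 := by
      field_simp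
    split_ifs with hc
    · rw [h1]
      have h0 : ((d.totient : ℕ) : ℝ) = d.totient := rfl
      ring
    · rw [h1]
      ring
  have h2 : |(S2 - M) / H1| ≤ E := by
    rw [abs_div, abs_of_pos hH1, div_le_iff₀ hH1]
    exact hE
  have h3 : ((S2 - M) / H1) ^ 2 ≤ E ^ 2 := by
    rw [← sq_abs]
    exact pow_le_pow_left₀ (abs_nonneg _) h2 2
  rw [hew, hD, sq_abs]
  have h4 : (H * (S1 / H - S2 / H1) + H * ((S2 - M) / H1)) ^ 2
      ≤ 2 * (H : ℝ) ^ 2 * (S1 / H - S2 / H1) ^ 2 + 2 * (H : ℝ) ^ 2 * ((S2 - M) / H1) ^ 2 := by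
    nlinarith [sq_nonneg (H * (S1 / H - S2 / H1) - H * ((S2 - M) / H1))]
  have h5 : 2 * (H : ℝ) ^ 2 * ((S2 - M) / H1) ^ 2 ≤ 2 * (H : ℝ) ^ 2 * E ^ 2 :=
    mul_le_mul_of_nonneg_left h3 (by positivity)
  linarith

/-- large `X`: `log X` beats constants, and powers of `X` beat powers of `log X` -/
private theorem Main_big (A : ℕ) : ∃ X0 : ℕ, ∀ X : ℕ, X0 ≤ X → 4 ≤ Real.log X ∧
    4 * (X : ℝ) ^ (1 / 2 : ℝ) ≤ X / Real.log X ^ A ∧ (16 : ℝ) ≤ X := by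
  obtain ⟨X1, h1⟩ := Pool.Agent.H80.LV.log_ge 4
  obtain ⟨X2, h2⟩ := Pool.Agent.H80.LV.log_pow_le (1 / 2) 4 (by norm_num) (by norm_num) A
  refine ⟨max (max X1 X2) 16, fun X hX => ?_⟩
  simp only [max_le_iff] at hX
  obtain ⟨⟨hXa, hXb⟩, hXc⟩ := hX
  have a1 := h1 X hXa
  have a2 := h2 X hXb
  have a3 : (16 : ℝ) ≤ X := by exact_mod_cast hXc
  refine ⟨a1, ?_, a3⟩
  have hX0' : (0 : ℝ) < X := by linarith
  have hl : (0 : ℝ) < Real.log X := by linarith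
  rw [le_div_iff₀ (by positivity)]
  calc 4 * (X : ℝ) ^ (1 / 2 : ℝ) * Real.log X ^ A = (X : ℝ) ^ (1 / 2 : ℝ) * (4 * Real.log X ^ A) := by ring
    _ ≤ (X : ℝ) ^ (1 / 2 : ℝ) * (X : ℝ) ^ (1 / 2 : ℝ) := mul_le_mul_of_nonneg_left a2 (by positivity)
    _ = X := by
        rw [← Real.rpow_add hX0']
        norm_num

/-- the size of `H` -/
private theorem Main_size (m : ℕ) (η : ℝ) (hη : 0 < η) (X P H : ℕ) (hX : (16 : ℝ) ≤ X) (hS : Siz m η X P H)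
    (hH2 : (H : ℝ) ^ 2 ≤ 16 * X) : 0 < (H : ℝ) ∧ (H : ℝ) ≤ 4 * (X : ℝ) ^ (1 / 2 : ℝ) := by
  have hX0 : (0 : ℝ) < X := by linarith
  have hXη : (1 : ℝ) ≤ (X : ℝ) ^ η := Real.one_le_rpow (by linarith) hη.le
  constructor
  · rcases hS.hH0.lt_or_eq with h | h
    · exact h
    · exfalso
      have h1 := hS.hH
      rw [← h, zero_pow (by omega)] at h1
      nlinarith
  · have h1 : (H : ℝ) ^ 2 ≤ (4 * (X : ℝ) ^ (1 / 2 : ℝ)) ^ 2 := by
      have e1 : (4 * (X : ℝ) ^ (1 / 2 : ℝ)) ^ 2 = 16 * X := by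
        rw [mul_pow, ← Real.rpow_natCast ((X : ℝ) ^ (1 / 2 : ℝ)) 2, ← Real.rpow_mul hX0.le]
        norm_num
      rw [e1]
      exact hH2
    exact le_of_sq_le_sq h1 (by positivity)

theorem eq_x (hVK : VKp) (m : ℕ) (hm : 1 ≤ m) (η : ℝ) (hη : 0 < η) (A B : ℕ) : ∃ A0 : ℕ, ∀ A1 : ℕ, A0 ≤ A1 → ∀ A2 : ℕ, ∃ X0 : ℕ, ∀ X : ℕ, X0 ≤ X →
    ∀ (P d c H H1 : ℕ) (b : ℕ → ℝ), Siz m η X P H → (H : ℝ) ^ 2 ≤ 16 * X → 1 ≤ d → (d : ℝ) ≤ Real.log X ^ B → (∀ k, |b k| ≤ 1) →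
    (∀ k, b k ≠ 0 → Nat.Coprime k d) → (H1 : ℝ) ≤ X / Real.log X ^ A1 → X / Real.log X ^ A2 ≤ H1 →
    ∑ x ∈ Ico X (2 * X), ew (Fp b P) H H1 d c x ^ 2 ≤ X * (H : ℝ) ^ 2 / Real.log X ^ A := by
  obtain ⟨A0, hA0⟩ := cls_d hVK m hm η hη (A + 2) B
  refine ⟨A0, fun A1 hA1 A2 => ?_⟩
  obtain ⟨X1, hX1⟩ := hA0 A1 hA1
  obtain ⟨X2, hX2⟩ := long_c (A + A2 + 2) B η hη
  obtain ⟨X3, hX3⟩ := Main_big A2
  refine ⟨max X1 (max X2 X3), fun X hX P d c H H1 b hSz hH2 hd hdL hb hbc hH1u hH1l => ?_⟩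
  have hXa : X1 ≤ X := le_trans (le_max_left _ _) hX
  have hXb : X2 ≤ X := le_trans (le_trans (le_max_left _ _) (le_max_right _ _)) hX
  have hXc : X3 ≤ X := le_trans (le_trans (le_max_right _ _) (le_max_right _ _)) hX
  obtain ⟨hL, hb2, h16⟩ := hX3 X hXc
  obtain ⟨hHp, hHX⟩ := Main_size m η hη X P H h16 hSz hH2
  have hP := hSz.hPl
  have hPX := hSz.hPu
  have hX0 : (0 : ℝ) < X := by linarith
  have hl : (0 : ℝ) < Real.log X := by linarith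
  have hHH1r : (H : ℝ) ≤ H1 := by linarith
  have hHH1 : H ≤ H1 := by exact_mod_cast hHH1r
  have hH1p : (0 : ℝ) < H1 := lt_of_lt_of_le hHp hHH1r
  have hH1X : (H1 : ℝ) ≤ X := by
    refine hH1u.trans (div_le_self hX0.le (one_le_pow₀ (by linarith)))
  have hH1X' : H1 ≤ X := by exact_mod_cast hH1X
  have hpt : ∀ x ∈ Ico X (2 * X), ew (Fp b P) H H1 d c x ^ 2
      ≤ 2 * (H : ℝ) ^ 2 * ‖D (cf b P d c) H H1 x‖ ^ 2 + 2 * (H : ℝ) ^ 2 * (1 / Real.log X ^ (A + 2)) ^ 2 := by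
    intro x hx
    rw [Finset.mem_Ico] at hx
    refine Main_pt b P d c H H1 x _ hHp hH1p ?_
    refine (hX2 X hXb P d c x (x + H1) b hP hPX hd hdL (by omega) hb hbc).trans ?_
    have e1 : (X : ℝ) / Real.log X ^ (A + A2 + 2) = 1 / Real.log X ^ (A + 2) * (X / Real.log X ^ A2) := by
      rw [show A + A2 + 2 = (A + 2) + A2 by ring, pow_add]
      field_simp
    rw [e1]
    exact mul_le_mul_of_nonneg_left hH1l (by positivity)
  refine (Finset.sum_le_sum hpt).trans ?_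
  rw [Finset.sum_add_distrib, ← Finset.mul_sum, Finset.sum_const, Nat.card_Ico, nsmul_eq_mul]
  have hcl := hX1 X hXa P d c H H1 b hSz hd hdL hb hHH1 hH1u
  have hcard : ((2 * X - X : ℕ) : ℝ) = X := by
    have : 2 * X - X = X := by omega
    rw [this]
  rw [hcard]
  have hLA : (1 : ℝ) ≤ Real.log X ^ (A + 2) := one_le_pow₀ (by linarith)
  have hLA0 : (0 : ℝ) < Real.log X ^ (A + 2) := by linarith
  have h1 : (1 / Real.log X ^ (A + 2)) ^ 2 ≤ 1 / Real.log X ^ (A + 2) := by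
    have h01 : 1 / Real.log X ^ (A + 2) ≤ 1 := by
      rw [div_le_one hLA0]
      exact hLA
    have h00 : 0 ≤ 1 / Real.log X ^ (A + 2) := by positivity
    nlinarith
  calc 2 * (H : ℝ) ^ 2 * ∑ x ∈ Ico X (2 * X), ‖D (cf b P d c) H H1 x‖ ^ 2
        + X * (2 * (H : ℝ) ^ 2 * (1 / Real.log X ^ (A + 2)) ^ 2)
      ≤ 2 * (H : ℝ) ^ 2 * (X / Real.log X ^ (A + 2)) + X * (2 * (H : ℝ) ^ 2 * (1 / Real.log X ^ (A + 2))) := by
        gcongr
    _ = 4 * (X * (H : ℝ) ^ 2) / (Real.log X ^ A * Real.log X ^ 2) := by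
        rw [pow_add]
        ring
    _ ≤ X * (H : ℝ) ^ 2 / Real.log X ^ A := by
        rw [div_le_div_iff₀ (by positivity) (by positivity)]
        have h3 : (4 : ℝ) ≤ Real.log X ^ 2 := by nlinarith
        have h4 : (0 : ℝ) ≤ X * (H : ℝ) ^ 2 * Real.log X ^ A := by positivity
        nlinarith [mul_le_mul_of_nonneg_left h3 h4]

/-- `gam` is linear -/
private theorem Main_gam {ι : Type*} (s : Finset ι) (G : ι → ℕ → ℝ) (H1 x : ℕ) :
    gam (fun n => ∑ j ∈ s, G j n) H1 x = ∑ j ∈ s, gam (G j) H1 x := by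
  unfold gam
  rw [Finset.sum_comm, Finset.sum_div]

/-- `ew` is linear -/
private theorem Main_ew {ι : Type*} (s : Finset ι) (G : ι → ℕ → ℝ) (H H1 d c x : ℕ) :
    ew (fun n => ∑ j ∈ s, G j n) H H1 d c x = ∑ j ∈ s, ew (G j) H H1 d c x := by
  unfold ew
  rw [Main_gam, Finset.sum_sub_distrib, Finset.sum_comm]
  congr 1
  split_ifs with hc
  · rw [Finset.mul_sum, Finset.sum_div]
  · simp

/-- the number of boxes -/
private theorem Main_J (X y J1 : ℕ) (hX : 4 ≤ Real.log X)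
    (hy : 1 ≤ y) (h : 2 ^ J1 * y ≤ X) : (J1 : ℝ) ≤ 2 * Real.log X := by
  have h2 : (2 : ℝ) ^ J1 ≤ X := by
    have h1 : 2 ^ J1 ≤ X := (Nat.le_mul_of_pos_right _ hy).trans h
    exact_mod_cast h1
  have h3 : (J1 : ℝ) * Real.log 2 ≤ Real.log X := by
    rw [← Real.log_pow]
    exact Real.log_le_log (by positivity) h2
  have h4 := Real.log_two_gt_d9
  have h5 : (0 : ℝ) ≤ J1 := by positivity
  nlinarith

theorem eq_s (hVK : VKp) (m : ℕ) (hm : 1 ≤ m) (η : ℝ) (hη : 0 < η) (A B : ℕ) : ∃ A0 : ℕ, ∀ A1 : ℕ, A0 ≤ A1 → ∀ A2 : ℕ, ∃ X0 : ℕ, ∀ X : ℕ, X0 ≤ X →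
    ∀ (y J0 J1 d c H H1 : ℕ) (b : ℕ → ℕ → ℝ), (X : ℝ) ^ η ≤ (2 ^ J0 * y : ℕ) → 2 ^ J1 * y ≤ X → (X : ℝ) * (X : ℝ) ^ η ≤ (H : ℝ) ^ (2 * m + 3) →
    ((2 ^ J1 * y : ℕ) : ℝ) ^ (2 * m + 2) * (X : ℝ) ^ η ≤ X * (H : ℝ) ^ (2 * m + 1) → (H : ℝ) ^ 2 ≤ 16 * X → 1 ≤ d → (d : ℝ) ≤ Real.log X ^ B → (∀ j k, |b j k| ≤ 1) →
    (∀ j k, b j k ≠ 0 → Nat.Coprime k d) → (H1 : ℝ) ≤ X / Real.log X ^ A1 → X / Real.log X ^ A2 ≤ H1 →
    ∑ x ∈ Ico X (2 * X), ew (Gs b y J0 J1) H H1 d c x ^ 2 ≤ X * (H : ℝ) ^ 2 / Real.log X ^ A := by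
  obtain ⟨A0, hA0⟩ := eq_x hVK m hm η hη (A + 3) B
  refine ⟨A0, fun A1 hA1 A2 => ?_⟩
  obtain ⟨X1, hX1⟩ := hA0 A1 hA1 A2
  obtain ⟨X3, hX3⟩ := Main_big A2
  refine ⟨max X1 X3, fun X hX y J0 J1 d c H H1 b hP hJ1X hH hPH hH2 hd hdL hb hbc hH1u hH1l => ?_⟩
  have hXa : X1 ≤ X := le_trans (le_max_left _ _) hX
  have hXc : X3 ≤ X := le_trans (le_max_right _ _) hX
  obtain ⟨hL, -, h16⟩ := hX3 X hXc
  have hX0 : (0 : ℝ) < X := by linarith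
  have hX1' : (1 : ℝ) ≤ X := by linarith
  have hl : (0 : ℝ) < Real.log X := by linarith
  have hone : (1 : ℝ) ≤ (X : ℝ) ^ η := Real.one_le_rpow hX1' hη.le
  have hy : 1 ≤ y := by
    rcases Nat.eq_zero_or_pos y with h0 | h0
    · exfalso
      rw [h0] at hP
      simp at hP
      linarith
    · exact h0
  have hJ1 : (J1 : ℝ) ≤ 2 * Real.log X := Main_J X y J1 hL hy hJ1X
  have hbox : ∀ j ∈ Ico J0 J1, ∑ x ∈ Ico X (2 * X), ew (Fp (b j) (2 ^ j * y)) H H1 d c x ^ 2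
      ≤ X * (H : ℝ) ^ 2 / Real.log X ^ (A + 3) := by
    intro j hj
    rw [Finset.mem_Ico] at hj
    have h1 : 2 ^ j * y ≤ 2 ^ J1 * y := Nat.mul_le_mul_right _ (Nat.pow_le_pow_right (by norm_num) hj.2.le)
    refine hX1 X hXa (2 ^ j * y) d c H H1 (b j) ⟨?_, h1.trans hJ1X, hH, ?_, Nat.cast_nonneg _⟩ hH2 hd hdL (hb j) (hbc j) hH1u hH1l
    · refine hP.trans ?_
      have : 2 ^ J0 * y ≤ 2 ^ j * y := Nat.mul_le_mul_right _ (Nat.pow_le_pow_right (by norm_num) hj.1)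
      exact_mod_cast this
    · refine le_trans ?_ hPH
      have h2 : ((2 ^ j * y : ℕ) : ℝ) ≤ ((2 ^ J1 * y : ℕ) : ℝ) := by exact_mod_cast h1
      gcongr
  have hpt : ∀ x ∈ Ico X (2 * X), ew (Gs b y J0 J1) H H1 d c x ^ 2
      ≤ ((Ico J0 J1).card : ℝ) * ∑ j ∈ Ico J0 J1, ew (Fp (b j) (2 ^ j * y)) H H1 d c x ^ 2 := by
    intro x _
    have h1 : ew (Gs b y J0 J1) H H1 d c x = ∑ j ∈ Ico J0 J1, ew (Fp (b j) (2 ^ j * y)) H H1 d c x := by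
      have h2 : Gs b y J0 J1 = fun n => ∑ j ∈ Ico J0 J1, Fp (b j) (2 ^ j * y) n := by
        funext n
        rfl
      rw [h2]
      exact Main_ew _ _ _ _ _ _ _
    rw [h1]
    exact sq_sum_le_card_mul_sum_sq
  refine (Finset.sum_le_sum hpt).trans ?_
  rw [← Finset.mul_sum, Finset.sum_comm]
  have hcard : ((Ico J0 J1).card : ℝ) ≤ 2 * Real.log X := by
    rw [Nat.card_Ico]
    refine le_trans ?_ hJ1
    exact_mod_cast Nat.sub_le _ _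
  calc ((Ico J0 J1).card : ℝ) * ∑ j ∈ Ico J0 J1, ∑ x ∈ Ico X (2 * X), ew (Fp (b j) (2 ^ j * y)) H H1 d c x ^ 2
      ≤ ((Ico J0 J1).card : ℝ) * ∑ j ∈ Ico J0 J1, X * (H : ℝ) ^ 2 / Real.log X ^ (A + 3) := by
        refine mul_le_mul_of_nonneg_left (Finset.sum_le_sum hbox) (by positivity)
    _ = ((Ico J0 J1).card : ℝ) ^ 2 * (X * (H : ℝ) ^ 2 / Real.log X ^ (A + 3)) := by
        rw [Finset.sum_const, nsmul_eq_mul]
        ring
    _ ≤ (2 * Real.log X) ^ 2 * (X * (H : ℝ) ^ 2 / Real.log X ^ (A + 3)) := by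
        gcongr
    _ = 4 * (X * (H : ℝ) ^ 2) * Real.log X ^ 2 / (Real.log X ^ A * Real.log X ^ 3) := by
        rw [pow_add]
        ring
    _ ≤ X * (H : ℝ) ^ 2 / Real.log X ^ A := by
        rw [div_le_div_iff₀ (by positivity) (by positivity)]
        have h3 : 4 * Real.log X ^ 2 ≤ Real.log X ^ 3 := by
          have : Real.log X ^ 3 = Real.log X * Real.log X ^ 2 := by ring
          rw [this]
          exact mul_le_mul_of_nonneg_right hL (by positivity)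
        have h4 : (0 : ℝ) ≤ X * (H : ℝ) ^ 2 * Real.log X ^ A := by positivity
        nlinarith [mul_le_mul_of_nonneg_left h3 h4]

end Pool.Agent.H31.EK

end

section

/-!
# EK Fin: the theorem

`eq5`: `eq_s` with `m = 4` (the tenth power of the prime polynomial), `η = min (e1/2) (e/2) 1`, `A + 1`, `B + 1` for `X = 2^i ⌊N/8⌋`, `i = 0, .., 6` (they cover `[N/8, 8N]`;
`N/16 ≤ X ≤ 8N`, `log N/2 ≤ log X ≤ 2 log N`; `X^η ≤ 8 N^η`; `H^11 ≥ N^(1+11e)`; `(2^J1 y)^10 ≤ N^4`; `H1 = ⌊N/L^A1⌋`: `X/(log X)^(A1+1) ≤ H1 ≤ X/(log X)^(A1-1)`;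
a prime factor of `k` is `> L^B ≥ d`, so `(k, d) = 1`).
-/

set_option autoImplicit false

namespace Pool.Agent.H31.EK

open Finset
open Pool.Agent.H91.PK (ee)
open Pool.Agent.H53.MID (Fp VKp)
open Pool.Agent.H31.EQ (Gs gam ew WDx)

private theorem Fin_bU (s : Finset ℕ) (t : ℕ → Finset ℕ) (f : ℕ → ℝ) (hf : ∀ x, 0 ≤ f x) :
    ∑ x ∈ s.biUnion t, f x ≤ ∑ i ∈ s, ∑ x ∈ t i, f x := by
  induction s using Finset.induction_on with
  | empty => simp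
  | insert a s ha ih =>
    rw [biUnion_insert, sum_insert ha]
    have h1 := sum_union_inter (s₁ := t a) (s₂ := s.biUnion t) (f := f)
    have h2 : 0 ≤ ∑ x ∈ t a ∩ s.biUnion t, f x := sum_nonneg fun x _ => hf x
    linarith

/-- the sizes for one dyadic range -/
private theorem Fin_siz (e1 e η : ℝ) (he : 0 < e) (hη : 0 < η) (h1 : η ≤ e1 / 2) (h2 : η ≤ e / 2) (h3 : η ≤ 1)
    (N X H P0 P1 : ℕ) (hN : 128 ≤ N) (hNe : (128 : ℝ) ≤ (N : ℝ) ^ (e / 2)) (hNe1 : (8 : ℝ) ≤ (N : ℝ) ^ (e1 / 2))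
    (hXN : X ≤ 8 * N) (hX16 : N ≤ 16 * X) (hH : (N : ℝ) ^ (1 / 11 + e) ≤ H) (hHu : (H : ℝ) ≤ (N : ℝ) ^ (1 / 3 : ℝ))
    (hP0 : (N : ℝ) ^ e1 ≤ P0) (hP1 : (P1 : ℝ) ^ 10 * (N : ℝ) ^ e ≤ N * (H : ℝ) ^ 9) :
    (X : ℝ) ^ η ≤ P0 ∧ P1 ≤ X ∧ (X : ℝ) * (X : ℝ) ^ η ≤ (H : ℝ) ^ (2 * 4 + 3) ∧
      (P1 : ℝ) ^ (2 * 4 + 2) * (X : ℝ) ^ η ≤ X * (H : ℝ) ^ (2 * 4 + 1) ∧ (H : ℝ) ^ 2 ≤ 16 * X := by
  have hNr : (128 : ℝ) ≤ N := by exact_mod_cast hN
  have hN0 : (0 : ℝ) < N := by linarith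
  have hN1 : (1 : ℝ) ≤ N := by linarith
  have hXN' : (X : ℝ) ≤ 8 * N := by exact_mod_cast hXN
  have hX16' : (N : ℝ) ≤ 16 * X := by exact_mod_cast hX16
  have hX0 : (0 : ℝ) < X := by linarith
  have hXη : (X : ℝ) ^ η ≤ 8 * (N : ℝ) ^ η := by
    calc (X : ℝ) ^ η ≤ (8 * N : ℝ) ^ η := Real.rpow_le_rpow hX0.le hXN' hη.le
      _ = 8 ^ η * (N : ℝ) ^ η := Real.mul_rpow (by norm_num) hN0.le
      _ ≤ 8 * (N : ℝ) ^ η := by
        apply mul_le_mul_of_nonneg_right _ (Real.rpow_nonneg hN0.le _)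
        calc (8 : ℝ) ^ η ≤ 8 ^ (1 : ℝ) := Real.rpow_le_rpow_of_exponent_le (by norm_num) h3
          _ = 8 := Real.rpow_one 8
  have hNη : (N : ℝ) ^ η ≤ (N : ℝ) ^ (e / 2) := Real.rpow_le_rpow_of_exponent_le hN1 h2
  have hNη1 : (N : ℝ) ^ η ≤ (N : ℝ) ^ (e1 / 2) := Real.rpow_le_rpow_of_exponent_le hN1 h1
  have hNη0 : 0 < (N : ℝ) ^ η := Real.rpow_pos_of_pos hN0 _
  have hee : (N : ℝ) ^ e = (N : ℝ) ^ (e / 2) * (N : ℝ) ^ (e / 2) := by
    rw [← Real.rpow_add hN0]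
    congr 1
    ring
  have hee1 : (N : ℝ) ^ e1 = (N : ℝ) ^ (e1 / 2) * (N : ℝ) ^ (e1 / 2) := by
    rw [← Real.rpow_add hN0]
    congr 1
    ring
  have h128 : 128 * (N : ℝ) ^ η ≤ (N : ℝ) ^ e := by
    rw [hee]
    exact mul_le_mul hNe hNη hNη0.le (by positivity)
  have hH0 : (0 : ℝ) ≤ H := Nat.cast_nonneg _
  refine ⟨?_, ?_, ?_, ?_, ?_⟩
  · refine hXη.trans (le_trans ?_ hP0)
    rw [hee1]
    exact mul_le_mul hNe1 hNη1 hNη0.le (by positivity)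
  · have e1' : (P1 : ℝ) ^ 10 ≤ (X : ℝ) ^ 10 := by
      have a1 : (1 : ℝ) ≤ (N : ℝ) ^ e := Real.one_le_rpow hN1 he.le
      have a2 : (P1 : ℝ) ^ 10 ≤ (P1 : ℝ) ^ 10 * (N : ℝ) ^ e := le_mul_of_one_le_right (by positivity) a1
      have a3 : (H : ℝ) ^ 9 ≤ (N : ℝ) ^ 3 := by
        calc (H : ℝ) ^ 9 ≤ ((N : ℝ) ^ (1 / 3 : ℝ)) ^ 9 := pow_le_pow_left₀ hH0 hHu 9
          _ = (N : ℝ) ^ 3 := by
            rw [← Real.rpow_natCast, ← Real.rpow_mul hN0.le, ← Real.rpow_natCast]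
            norm_num
      have a4 : (P1 : ℝ) ^ 10 ≤ (N : ℝ) ^ 4 := by
        calc (P1 : ℝ) ^ 10 ≤ N * (H : ℝ) ^ 9 := a2.trans hP1
          _ ≤ N * (N : ℝ) ^ 3 := mul_le_mul_of_nonneg_left a3 hN0.le
          _ = (N : ℝ) ^ 4 := by ring
      have a5 : (N : ℝ) ^ 4 ≤ (N / 16 : ℝ) ^ 10 := by
        have a6 : (16 : ℝ) ^ 10 ≤ (N : ℝ) ^ 6 := by
          calc (16 : ℝ) ^ 10 ≤ 128 ^ 6 := by norm_num
            _ ≤ (N : ℝ) ^ 6 := pow_le_pow_left₀ (by norm_num) hNr 6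
        rw [div_pow, le_div_iff₀ (by positivity)]
        calc (N : ℝ) ^ 4 * 16 ^ 10 ≤ (N : ℝ) ^ 4 * (N : ℝ) ^ 6 := mul_le_mul_of_nonneg_left a6 (by positivity)
          _ = (N : ℝ) ^ 10 := by ring
      have a7 : (N / 16 : ℝ) ^ 10 ≤ (X : ℝ) ^ 10 := pow_le_pow_left₀ (by positivity) (by linarith) 10
      linarith
    have e2 : (P1 : ℝ) ≤ X := le_of_pow_le_pow_left₀ (by norm_num) hX0.le e1'
    exact_mod_cast e2
  · have a1 : (N : ℝ) * (N : ℝ) ^ e ≤ (H : ℝ) ^ (2 * 4 + 3) := by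
      calc (N : ℝ) * (N : ℝ) ^ e ≤ (N : ℝ) * (N : ℝ) ^ (11 * e) := by
            apply mul_le_mul_of_nonneg_left _ hN0.le
            exact Real.rpow_le_rpow_of_exponent_le hN1 (by linarith)
        _ = ((N : ℝ) ^ (1 / 11 + e)) ^ (2 * 4 + 3) := by
            rw [← Real.rpow_natCast, ← Real.rpow_mul hN0.le]
            have : (1 / 11 + e) * ((2 * 4 + 3 : ℕ) : ℝ) = 1 + 11 * e := by
              push_cast
              ring
            rw [this, Real.rpow_add hN0, Real.rpow_one]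
        _ ≤ (H : ℝ) ^ (2 * 4 + 3) := pow_le_pow_left₀ (by positivity) hH _
    refine le_trans ?_ a1
    calc (X : ℝ) * (X : ℝ) ^ η ≤ (8 * N) * (8 * (N : ℝ) ^ η) := mul_le_mul hXN' hXη (by positivity) (by positivity)
      _ = N * (64 * (N : ℝ) ^ η) := by ring
      _ ≤ N * (N : ℝ) ^ e := by
        apply mul_le_mul_of_nonneg_left _ hN0.le
        linarith
  · have a0 : (0 : ℝ) ≤ (P1 : ℝ) ^ 10 := by positivity
    have a1 : 16 * ((P1 : ℝ) ^ 10 * (X : ℝ) ^ η) ≤ (P1 : ℝ) ^ 10 * (N : ℝ) ^ e := by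
      calc 16 * ((P1 : ℝ) ^ 10 * (X : ℝ) ^ η) ≤ 16 * ((P1 : ℝ) ^ 10 * (8 * (N : ℝ) ^ η)) := by gcongr
        _ = (P1 : ℝ) ^ 10 * (128 * (N : ℝ) ^ η) := by ring
        _ ≤ (P1 : ℝ) ^ 10 * (N : ℝ) ^ e := mul_le_mul_of_nonneg_left h128 a0
    have a2 : (N : ℝ) * (H : ℝ) ^ 9 ≤ 16 * (X * (H : ℝ) ^ 9) := by
      have : (N : ℝ) * (H : ℝ) ^ 9 ≤ (16 * X) * (H : ℝ) ^ 9 := mul_le_mul_of_nonneg_right hX16' (by positivity)
      linarith
    show (P1 : ℝ) ^ 10 * (X : ℝ) ^ η ≤ X * (H : ℝ) ^ 9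
    linarith
  · calc (H : ℝ) ^ 2 ≤ ((N : ℝ) ^ (1 / 3 : ℝ)) ^ 2 := pow_le_pow_left₀ hH0 hHu 2
      _ = (N : ℝ) ^ (2 / 3 : ℝ) := by
        rw [← Real.rpow_natCast, ← Real.rpow_mul hN0.le]
        norm_num
      _ ≤ (N : ℝ) ^ (1 : ℝ) := Real.rpow_le_rpow_of_exponent_le hN1 (by norm_num)
      _ = N := Real.rpow_one _
      _ ≤ 16 * X := hX16'

theorem eq5 (hVK : VKp) (e1 e : ℝ) (he1 : 0 < e1) (he : 0 < e) (A B : ℕ) : ∃ A0 : ℕ, ∀ A1 : ℕ, A0 ≤ A1 →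
    ∃ N0 : ℕ, ∀ N : ℕ, N0 ≤ N → ∀ (H y J0 J1 : ℕ) (b : ℕ → ℕ → ℝ), (N : ℝ) ^ (1 / 11 + e) ≤ H → (H : ℝ) ≤ (N : ℝ) ^ (1 / 3 : ℝ) →
      (N : ℝ) ^ e1 ≤ (2 ^ J0 * y : ℕ) → ((2 ^ J1 * y : ℕ) : ℝ) ^ 10 * (N : ℝ) ^ e ≤ N * (H : ℝ) ^ 9 → (∀ j k, |b j k| ≤ 1) →
      (∀ j k, b j k ≠ 0 → ∀ q : ℕ, q.Prime → q ∣ k → Real.log N ^ B < q) →
      WDx N H A B (Gs b y J0 J1) (gam (Gs b y J0 J1) ⌊(N : ℝ) / Real.log N ^ A1⌋₊) := by
  obtain ⟨η, hηd⟩ : ∃ η : ℝ, η = min (min (e1 / 2) (e / 2)) 1 := ⟨_, rfl⟩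
  have hη : 0 < η := by
    rw [hηd]
    exact lt_min (lt_min (by linarith) (by linarith)) one_pos
  have hη1 : η ≤ e1 / 2 := by
    rw [hηd]
    exact (min_le_left _ _).trans (min_le_left _ _)
  have hη2 : η ≤ e / 2 := by
    rw [hηd]
    exact (min_le_left _ _).trans (min_le_right _ _)
  have hη3 : η ≤ 1 := by
    rw [hηd]
    exact min_le_right _ _
  obtain ⟨A0, hA0⟩ := eq_s hVK 4 (by norm_num) η hη (A + 1) (B + 1)
  refine ⟨A0 + 1, fun A1 hA1 => ?_⟩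
  obtain ⟨X0, hX0⟩ := hA0 (A1 - 1) (by omega) (A1 + 1)
  obtain ⟨N1, hN1⟩ := Pool.Agent.H80.LV.log_ge
    (max (max (9 * 2 ^ A1) (16 * 2 ^ (A1 + 1))) (max (56 * 2 ^ (A + 1)) (max (2 ^ (B + 1)) 6)))
  obtain ⟨N2, hN2⟩ := Pool.Agent.H80.LV.pow_ge (e / 2) 128 (by linarith)
  obtain ⟨N3, hN3⟩ := Pool.Agent.H80.LV.pow_ge (e1 / 2) 8 (by linarith)
  obtain ⟨N4, hN4⟩ := Pool.Agent.H80.LV.log_pow_le 1 2 one_pos (by norm_num) A1
  refine ⟨max (max (max N1 N2) (max N3 N4)) (max 128 (8 * X0 + 8)), fun N hN H y J0 J1 b hH hHu hy hyH hb hbq d c hd hdL => ?_⟩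
  simp only [max_le_iff] at hN
  obtain ⟨⟨⟨g1, g2⟩, ⟨g3, g4⟩⟩, ⟨hN128, hNX⟩⟩ := hN
  have hL := hN1 N g1
  have hNe := hN2 N g2
  have hNe1 := hN3 N g3
  have h2L := hN4 N g4
  rw [Real.rpow_one] at h2L
  have hN8 : 8 ≤ N := by omega
  have hL1 : 9 * 2 ^ A1 ≤ Real.log N := (le_max_left _ _).trans ((le_max_left _ _).trans hL)
  have hL2 : 16 * 2 ^ (A1 + 1) ≤ Real.log N := (le_max_right _ _).trans ((le_max_left _ _).trans hL)
  have hL3 : 56 * 2 ^ (A + 1) ≤ Real.log N := (le_max_left _ _).trans ((le_max_right _ _).trans hL)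
  have hL4 : 2 ^ (B + 1) ≤ Real.log N := (le_max_left _ _).trans ((le_max_right _ _).trans ((le_max_right _ _).trans hL))
  have hL5 : 6 ≤ Real.log N := (le_max_right _ _).trans ((le_max_right _ _).trans ((le_max_right _ _).trans hL))
  have hNpos : (0 : ℝ) < N := by exact_mod_cast (by omega : 0 < N)
  have hLpos : 0 < Real.log N := by linarith
  set L : ℝ := Real.log N with hLdef
  set H1 : ℕ := ⌊(N : ℝ) / L ^ A1⌋₊ with hH1
  set M : ℕ := N / 8 with hM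
  have hMX : X0 ≤ M := by omega
  have hM1 : 1 ≤ M := by omega
  have hM16 : N ≤ 16 * M := by omega
  have hM8 : 8 * M ≤ N := by omega
  -- the bound for one dyadic range
  have key : ∀ i ∈ range 7, ∑ x ∈ Ico (2 ^ i * M) (2 * (2 ^ i * M)), ew (Gs b y J0 J1) H H1 d c x ^ 2
      ≤ 8 * N * (H : ℝ) ^ 2 * 2 ^ (A + 1) / L ^ (A + 1) := by
    intro i hi
    rw [mem_range] at hi
    obtain ⟨X, hX⟩ : ∃ X, X = 2 ^ i * M := ⟨_, rfl⟩
    rw [← hX]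
    have hi2 : 2 ^ i ≤ 64 := by
      calc 2 ^ i ≤ 2 ^ 6 := Nat.pow_le_pow_right (by norm_num) (by omega)
        _ = 64 := by norm_num
    have hi1 : 1 ≤ 2 ^ i := Nat.one_le_two_pow
    have hXM : M ≤ X := by rw [hX]; exact Nat.le_mul_of_pos_left M (by omega)
    have hX64 : X ≤ 64 * M := by rw [hX]; exact Nat.mul_le_mul_right M hi2
    have hXN : X ≤ 8 * N := by omega
    have hX16 : N ≤ 16 * X := by omega
    have hXpos : (0 : ℝ) < X := by exact_mod_cast (by omega : 0 < X)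
    have hXN' : (X : ℝ) ≤ 8 * N := by exact_mod_cast hXN
    have hX16' : (N : ℝ) ≤ 16 * X := by exact_mod_cast hX16
    have hlog16 : Real.log 16 ≤ 3 := by
      have h1 : Real.log 16 = 4 * Real.log 2 := by
        rw [show (16 : ℝ) = 2 ^ (4 : ℕ) by norm_num, Real.log_pow]
        norm_num
      have h2 := Real.log_two_lt_d9
      rw [h1]
      linarith
    have hlog8 : Real.log 8 ≤ 3 := by
      refine le_trans (Real.log_le_log (by norm_num) (by norm_num)) hlog16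
    have hlX1 : Real.log X ≤ 2 * L := by
      have h1 : Real.log X ≤ Real.log (8 * N) := Real.log_le_log hXpos hXN'
      rw [Real.log_mul (by norm_num) hNpos.ne'] at h1
      linarith
    have hlX2 : L / 2 ≤ Real.log X := by
      have h1 : Real.log N ≤ Real.log (16 * X) := Real.log_le_log hNpos hX16'
      rw [Real.log_mul (by norm_num) hXpos.ne', ← hLdef] at h1
      linarith
    have hlXpos : 0 < Real.log X := by linarith
    obtain ⟨q1, q2, q3, q4, q5⟩ := Fin_siz e1 e η he hη hη1 hη2 hη3 N X H (2 ^ J0 * y) (2 ^ J1 * y) hN128 hNe hNe1 hXN hX16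
      hH hHu hy hyH
    have hcop : ∀ j k, b j k ≠ 0 → Nat.Coprime k d := by
      intro j k hbk
      refine Nat.Coprime.symm (Nat.coprime_of_dvd' ?_)
      intro q hq hqd hqk
      exfalso
      have h1 := hbq j k hbk q hq hqk
      have h2 : q ≤ d := Nat.le_of_dvd hd hqd
      have h3 : (q : ℝ) ≤ d := by exact_mod_cast h2
      linarith
    have hdX : (d : ℝ) ≤ Real.log X ^ (B + 1) := by
      refine hdL.trans ?_
      have h1 : (L / 2) ^ (B + 1) ≤ Real.log X ^ (B + 1) := pow_le_pow_left₀ (by linarith) hlX2 _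
      refine le_trans ?_ h1
      rw [div_pow, le_div_iff₀ (by positivity), pow_succ L B]
      exact mul_le_mul_of_nonneg_left hL4 (by positivity)
    have hH1a : (H1 : ℝ) ≤ X / Real.log X ^ (A1 - 1) := by
      have h1 : (H1 : ℝ) ≤ N / L ^ A1 := Nat.floor_le (by positivity)
      refine h1.trans ?_
      rw [div_le_div_iff₀ (by positivity) (by positivity)]
      have h2 : Real.log X ^ (A1 - 1) ≤ (2 * L) ^ (A1 - 1) := pow_le_pow_left₀ hlXpos.le hlX1 _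
      have hA1' : A1 = (A1 - 1) + 1 := by omega
      have h3 : L ^ A1 = L ^ (A1 - 1) * L := by
        conv_lhs => rw [hA1']
        rw [pow_succ]
      have h4 : (16 : ℝ) * 2 ^ (A1 - 1) ≤ L := by
        have h5 : (2 : ℝ) ^ A1 = 2 ^ (A1 - 1) * 2 := by
          conv_lhs => rw [hA1']
          rw [pow_succ]
        have h6 : (2 : ℝ) ^ (A1 + 1) = 2 ^ (A1 - 1) * 2 * 2 := by rw [pow_succ, h5]
        have h7 : (0 : ℝ) < 2 ^ (A1 - 1) := by positivity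
        rw [h6] at hL2
        linarith
      have h5 : (N : ℝ) * Real.log X ^ (A1 - 1) ≤ (16 * X) * (2 * L) ^ (A1 - 1) :=
        mul_le_mul hX16' h2 (by positivity) (by positivity)
      refine h5.trans ?_
      rw [h3, mul_pow]
      calc (16 : ℝ) * X * (2 ^ (A1 - 1) * L ^ (A1 - 1)) = (X * L ^ (A1 - 1)) * (16 * 2 ^ (A1 - 1)) := by ring
        _ ≤ (X * L ^ (A1 - 1)) * L := mul_le_mul_of_nonneg_left h4 (by positivity)
        _ = X * (L ^ (A1 - 1) * L) := by ring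
    have hH1b : X / Real.log X ^ (A1 + 1) ≤ (H1 : ℝ) := by
      have h1 : (N : ℝ) / L ^ A1 - 1 ≤ H1 := by
        have := Nat.lt_floor_add_one ((N : ℝ) / L ^ A1)
        rw [← hH1] at this
        linarith
      have h2 : (1 : ℝ) ≤ N / (2 * L ^ A1) := by
        rw [le_div_iff₀ (by positivity)]
        linarith
      have h3 : (N : ℝ) / (2 * L ^ A1) = (N / L ^ A1) / 2 := by
        rw [div_div, mul_comm]
      have h4 : (N : ℝ) / (2 * L ^ A1) ≤ H1 := by rw [h3] at h2 ⊢; linarith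
      refine le_trans ?_ h4
      have h5 : (L / 2) ^ (A1 + 1) ≤ Real.log X ^ (A1 + 1) := pow_le_pow_left₀ (by linarith) hlX2 _
      calc (X : ℝ) / Real.log X ^ (A1 + 1) ≤ (8 * N) / (L / 2) ^ (A1 + 1) :=
            div_le_div₀ (by positivity) hXN' (by positivity) h5
        _ = (N * (8 * 2 ^ (A1 + 1))) / (L ^ A1 * L) := by
            rw [div_pow, pow_succ L A1]
            field_simp
        _ ≤ N / (2 * L ^ A1) := by
            rw [div_le_div_iff₀ (by positivity) (by positivity)]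
            calc (N : ℝ) * (8 * 2 ^ (A1 + 1)) * (2 * L ^ A1) = (N * L ^ A1) * (16 * 2 ^ (A1 + 1)) := by ring
              _ ≤ (N * L ^ A1) * L := mul_le_mul_of_nonneg_left hL2 (by positivity)
              _ = N * (L ^ A1 * L) := by ring
    have h := hX0 X (hMX.trans hXM) y J0 J1 d c H H1 b q1 q2 q3 q4 q5 hd hdX hb hcop hH1a hH1b
    refine h.trans ?_
    have h5 : (L / 2) ^ (A + 1) ≤ Real.log X ^ (A + 1) := pow_le_pow_left₀ (by linarith) hlX2 _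
    calc (X : ℝ) * (H : ℝ) ^ 2 / Real.log X ^ (A + 1) ≤ (8 * N) * (H : ℝ) ^ 2 / (L / 2) ^ (A + 1) :=
          div_le_div₀ (by positivity) (mul_le_mul_of_nonneg_right hXN' (by positivity)) (by positivity) h5
      _ = 8 * N * (H : ℝ) ^ 2 * 2 ^ (A + 1) / L ^ (A + 1) := by
          rw [div_pow]
          field_simp
  -- the union of the dyadic ranges
  have hcov : ∀ x ∈ Icc M (8 * N), ∃ i ∈ range 7, x ∈ Ico (2 ^ i * M) (2 * (2 ^ i * M)) := by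
    intro x hx
    rw [mem_Icc] at hx
    have hx2 : x < 128 * M := by omega
    by_cases h1 : x < 2 * M
    · exact ⟨0, by simp, by rw [mem_Ico]; omega⟩
    by_cases h2 : x < 4 * M
    · exact ⟨1, by simp, by rw [mem_Ico]; omega⟩
    by_cases h3 : x < 8 * M
    · exact ⟨2, by simp, by rw [mem_Ico]; omega⟩
    by_cases h4 : x < 16 * M
    · exact ⟨3, by simp, by rw [mem_Ico]; omega⟩
    by_cases h5 : x < 32 * M
    · exact ⟨4, by simp, by rw [mem_Ico]; omega⟩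
    by_cases h6 : x < 64 * M
    · exact ⟨5, by simp, by rw [mem_Ico]; omega⟩
    · exact ⟨6, by simp, by rw [mem_Ico]; omega⟩
  have hsub : Icc M (8 * N) ⊆ (range 7).biUnion (fun i => Ico (2 ^ i * M) (2 * (2 ^ i * M))) := by
    intro x hx
    rw [mem_biUnion]
    exact hcov x hx
  calc ∑ x ∈ Icc (N / 8) (8 * N), ((∑ n ∈ (Ioc x (x + H)).filter (fun n => n % d = c % d), Gs b y J0 J1 n)
        - (if Nat.Coprime c d then (H : ℝ) * gam (Gs b y J0 J1) H1 x / d.totient else 0)) ^ 2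
      = ∑ x ∈ Icc M (8 * N), ew (Gs b y J0 J1) H H1 d c x ^ 2 := rfl
    _ ≤ ∑ x ∈ (range 7).biUnion (fun i => Ico (2 ^ i * M) (2 * (2 ^ i * M))), ew (Gs b y J0 J1) H H1 d c x ^ 2 :=
        sum_le_sum_of_subset_of_nonneg hsub (fun _ _ _ => sq_nonneg _)
    _ ≤ ∑ i ∈ range 7, ∑ x ∈ Ico (2 ^ i * M) (2 * (2 ^ i * M)), ew (Gs b y J0 J1) H H1 d c x ^ 2 := by
        exact Fin_bU _ _ _ (fun _ => sq_nonneg _)
    _ ≤ ∑ i ∈ range 7, 8 * N * (H : ℝ) ^ 2 * 2 ^ (A + 1) / L ^ (A + 1) := sum_le_sum key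
    _ = (N * (H : ℝ) ^ 2) * (56 * 2 ^ (A + 1)) / (L ^ A * L) := by
        rw [sum_const, card_range, pow_succ L A, nsmul_eq_mul]
        push_cast
        ring
    _ ≤ N * (H : ℝ) ^ 2 / L ^ A := by
        rw [div_le_div_iff₀ (by positivity) (by positivity)]
        calc (N * (H : ℝ) ^ 2) * (56 * 2 ^ (A + 1)) * L ^ A ≤ (N * (H : ℝ) ^ 2) * L * L ^ A :=
              mul_le_mul_of_nonneg_right (mul_le_mul_of_nonneg_left hL3 (by positivity)) (by positivity)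
          _ = N * (H : ℝ) ^ 2 * (L ^ A * L) := by ring

end Pool.Agent.H31.EK

end
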