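import Pool.Agent.H43.PJ.H43.PX.Defs
import Pool.Agent.H43.PJ.M10
import Pool.Agent.H43.PJ.M51

/-! The parts of this file: H43.PX.Den, H43.PX.Crt, H43.PX.DensY, H43.PX.S2S, H43.PX.Lev, H43.PX.Cub, H43.PX.LsVar, H43.PX.S2W. -/

section

/-!
# PX Den: class densities from the exponential sums on long blocks

For a multiple `M` of all relevant moduli the sum of `f = S - k lamR R` over the class `a` modulo `d` in `[M, 2M)` is exactly
`M (den Q g d a - k [gcd(a,d) = 1] / φ(d))`; by orthogonality it is an average of the sums `Bs f M 1 (j/d)` with unimodular weights.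
-/

set_option autoImplicit false

namespace Pool.Agent.H43.PX

open Finset
open Pool.Agent.H91.PK (ee)
open Pool.Agent.H91.EHA (Lam lamR ramS)
open Pool.Agent.H53.MID (VKp Bs Fp)
open Pool.Agent.H76.TP (yN zz rg nu PY Adm)

/-- the number of elements of a class which are divisible by `r` -/
private theorem den_cnt (r d a M : ℕ) (hr : 1 ≤ r) (hd : 1 ≤ d) (hM : Nat.lcm r d ∣ M) :
    (((Ico M (2 * M)).filter (fun m => m % d = a % d ∧ r ∣ m)).card : ℝ) =
      if Nat.gcd r d ∣ a then (M : ℝ) / (Nat.lcm r d : ℝ) else 0 := by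
  have hl : 0 < Nat.lcm r d := Nat.lcm_pos hr hd
  split_ifs with h
  · have h0 : 0 ≡ a [MOD Nat.gcd r d] := ((Nat.modEq_zero_iff_dvd).mpr h).symm
    obtain ⟨m0, h1, h2⟩ := Nat.chineseRemainder' h0
    have hP : ∀ m : ℕ, (m % d = a % d ∧ r ∣ m) ↔ m ≡ m0 [MOD Nat.lcm r d] := by
      intro m
      constructor
      · rintro ⟨h3, h4⟩
        have h5 : m ≡ m0 [MOD r] := ((Nat.modEq_zero_iff_dvd).mpr h4).trans h1.symm
        have h6 : m ≡ m0 [MOD d] := Nat.ModEq.trans h3 h2.symm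
        rw [Nat.modEq_iff_dvd] at h5 h6 ⊢
        exact Int.natCast_dvd.mpr (Nat.lcm_dvd (Int.natCast_dvd.mp h5) (Int.natCast_dvd.mp h6))
      · intro h3
        refine ⟨?_, ?_⟩
        · exact (Nat.ModEq.of_dvd (Nat.dvd_lcm_right r d) h3).trans h2
        · exact (Nat.modEq_zero_iff_dvd).mp ((Nat.ModEq.of_dvd (Nat.dvd_lcm_left r d) h3).trans h1)
    have hf : (Ico M (2 * M)).filter (fun m => m % d = a % d ∧ r ∣ m) =
        (Ico M (M + M)).filter (fun m => m ≡ m0 [MOD Nat.lcm r d]) := by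
      rw [two_mul]
      exact filter_congr fun m _ => hP m
    have hper : Function.Periodic (fun m => m ≡ m0 [MOD Nat.lcm r d]) M := by
      intro m
      obtain ⟨t, ht⟩ := hM
      simp only [eq_iff_iff]
      have h3 : m + M ≡ m [MOD Nat.lcm r d] := by
        unfold Nat.ModEq
        rw [ht, Nat.add_mul_mod_self_left]
      exact ⟨fun h4 => h3.symm.trans h4, fun h4 => h3.trans h4⟩
    rw [hf, Nat.filter_Ico_card_eq_of_periodic _ _ _ hper, Nat.count_modEq_card _ hl, Nat.mod_eq_zero_of_dvd hM]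
    simp only [not_lt_zero, if_false, add_zero]
    rw [Nat.cast_div hM (by exact_mod_cast hl.ne')]
  · rw [Nat.cast_eq_zero, card_eq_zero, filter_eq_empty_iff]
    rintro m _ ⟨h1, h2⟩
    apply h
    have h3 : m ≡ a [MOD Nat.gcd r d] := Nat.ModEq.of_dvd (Nat.gcd_dvd_right r d) h1
    have h4 : m ≡ 0 [MOD Nat.gcd r d] := (Nat.modEq_zero_iff_dvd).mpr ((Nat.gcd_dvd_left r d).trans h2)
    exact (Nat.modEq_zero_iff_dvd).mp (h3.symm.trans h4)

/-- `gcd(e,d) [gcd(e,d) ∣ a]` -/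
private noncomputable def denH (d a : ℕ) : ArithmeticFunction ℝ :=
  ⟨fun e => if e = 0 then 0 else if Nat.gcd e d ∣ a then (Nat.gcd e d : ℝ) else 0, by simp⟩

private theorem denH_apply (d a e : ℕ) (he : e ≠ 0) :
    denH d a e = if Nat.gcd e d ∣ a then (Nat.gcd e d : ℝ) else 0 := by
  show (if e = 0 then (0 : ℝ) else if Nat.gcd e d ∣ a then (Nat.gcd e d : ℝ) else 0) = _
  rw [if_neg he]

private theorem denH_mult (d a : ℕ) : (denH d a).IsMultiplicative := by
  refine ⟨by rw [denH_apply _ _ _ one_ne_zero]; simp, fun {m n} h => ?_⟩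
  rcases Nat.eq_zero_or_pos m with hm | hm
  · subst hm; simp
  rcases Nat.eq_zero_or_pos n with hn | hn
  · subst hn; simp
  rw [denH_apply _ _ _ (Nat.mul_ne_zero hm.ne' hn.ne'), denH_apply _ _ _ hm.ne', denH_apply _ _ _ hn.ne']
  have h1 : Nat.gcd (m * n) d = Nat.gcd m d * Nat.gcd n d := by
    rw [Nat.gcd_comm (m * n) d, Nat.Coprime.gcd_mul d h, Nat.gcd_comm d m, Nat.gcd_comm d n]
  have h2 : Nat.Coprime (Nat.gcd m d) (Nat.gcd n d) :=
    Nat.Coprime.coprime_dvd_left (Nat.gcd_dvd_left m d) (Nat.Coprime.coprime_dvd_right (Nat.gcd_dvd_left n d) h)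
  rw [h1]
  by_cases h3 : Nat.gcd m d ∣ a
  · by_cases h4 : Nat.gcd n d ∣ a
    · rw [if_pos (Nat.Coprime.mul_dvd_of_dvd_of_dvd h2 h3 h4), if_pos h3, if_pos h4]
      push_cast
      ring
    · rw [if_neg (fun h5 => h4 ((Dvd.intro_left _ rfl).trans h5)), if_neg h4, mul_zero]
  · rw [if_neg (fun h5 => h3 ((Dvd.intro _ rfl).trans h5)), if_neg h3, zero_mul]

private noncomputable def denG (d a : ℕ) : ArithmeticFunction ℝ :=
  denH d a * ((ArithmeticFunction.moebius : ArithmeticFunction ℤ) : ArithmeticFunction ℝ)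

private theorem denG_mult (d a : ℕ) : (denG d a).IsMultiplicative :=
  (denH_mult d a).mul ArithmeticFunction.isMultiplicative_moebius.intCast

private theorem denG_apply (d a c : ℕ) :
    denG d a c = ∑ e ∈ c.divisors, denH d a e * (ArithmeticFunction.moebius (c / e) : ℝ) := by
  unfold denG
  rw [ArithmeticFunction.mul_apply,
    Nat.sum_divisorsAntidiagonal (f := fun x y => denH d a x *
      (((ArithmeticFunction.moebius : ArithmeticFunction ℤ) : ArithmeticFunction ℝ) y))]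
  rfl

private noncomputable def denF (d a : ℕ) : ArithmeticFunction ℝ :=
  ⟨fun c => (ArithmeticFunction.moebius c : ℝ) / (c.totient : ℝ) * denG d a c, by simp⟩

private theorem denF_apply (d a c : ℕ) :
    denF d a c = (ArithmeticFunction.moebius c : ℝ) / (c.totient : ℝ) * denG d a c := rfl

private theorem denF_mult (d a : ℕ) : (denF d a).IsMultiplicative := by
  refine ⟨by simp [denF_apply, (denG_mult d a).map_one], fun {m n} h => ?_⟩
  rw [denF_apply, denF_apply, denF_apply, Nat.totient_mul h,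
    ArithmeticFunction.isMultiplicative_moebius.map_mul_of_coprime h, (denG_mult d a).map_mul_of_coprime h]
  push_cast
  rw [mul_div_mul_comm]
  ring

private theorem denF_prime (d a p : ℕ) (hp : p.Prime) :
    denF d a p = -(1 / ((p : ℝ) - 1)) * (denH d a p - 1) := by
  have h1 : denG d a p = denH d a p - 1 := by
    rw [denG_apply, hp.sum_divisors, Nat.div_self hp.pos, Nat.div_one,
      ArithmeticFunction.moebius_apply_one, ArithmeticFunction.moebius_apply_prime hp, (denH_mult d a).map_one]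
    push_cast
    ring
  rw [denF_apply, h1, ArithmeticFunction.moebius_apply_prime hp, Nat.totient_prime hp, Nat.cast_sub hp.one_lt.le]
  push_cast
  ring

/-- `F c = 0` unless `c ∣ d` -/
private theorem denF_zero (d a c : ℕ) (hc : 1 ≤ c) (h : ¬ c ∣ d) : denF d a c = 0 := by
  by_cases hs : Squarefree c
  · have h1 : ∃ p : ℕ, p.Prime ∧ p ∣ c ∧ ¬ p ∣ d := by
      by_contra hcon
      push Not at hcon
      apply h
      rw [← Nat.prod_primeFactors_of_squarefree hs]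
      exact Finset.prod_primes_dvd d (fun p hp => (Nat.prime_of_mem_primeFactors hp).prime)
        (fun p hp => hcon p (Nat.prime_of_mem_primeFactors hp) (Nat.dvd_of_mem_primeFactors hp))
    obtain ⟨p, hp, hpc, hpd⟩ := h1
    obtain ⟨c', rfl⟩ := hpc
    have hcop : Nat.Coprime p c' := (Nat.squarefree_mul_iff.mp hs).1
    rw [(denF_mult d a).map_mul_of_coprime hcop, denF_prime d a p hp, denH_apply _ _ _ hp.ne_zero]
    have hg : Nat.gcd p d = 1 := (Nat.Prime.coprime_iff_not_dvd hp).mpr hpd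
    rw [hg, if_pos (one_dvd a)]
    simp
  · rw [denF_apply, ArithmeticFunction.moebius_eq_zero_of_not_squarefree hs]
    simp

/-- `∑_{c ∣ d} F c = [gcd(a,d) = 1] d / φ(d)` -/
private theorem denF_sum (d a : ℕ) (hd : 1 ≤ d) :
    ∑ c ∈ d.divisors, denF d a c = if Nat.Coprime a d then (d : ℝ) / (d.totient : ℝ) else 0 := by
  have hT : ((denF d a) * (ArithmeticFunction.zeta : ArithmeticFunction ℝ)).IsMultiplicative :=
    (denF_mult d a).mul ArithmeticFunction.isMultiplicative_zeta.natCast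
  have hT0 : ∑ c ∈ d.divisors, denF d a c = ((denF d a) * (ArithmeticFunction.zeta : ArithmeticFunction ℝ)) d := by
    rw [ArithmeticFunction.coe_mul_zeta_apply]
  have hpp : ∀ p k : ℕ, p.Prime → p ∣ d → 1 ≤ k → ((denF d a) * (ArithmeticFunction.zeta : ArithmeticFunction ℝ)) (p ^ k) =
      if p ∣ a then 0 else (p : ℝ) / ((p : ℝ) - 1) := by
    intro p k hp hpd hk
    obtain ⟨k, rfl⟩ : ∃ k', k = k' + 1 := ⟨k - 1, by omega⟩
    rw [ArithmeticFunction.coe_mul_zeta_apply, Nat.sum_divisors_prime_pow hp, sum_range_succ', sum_range_succ', sum_eq_zero]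
    · rw [zero_add, zero_add, pow_one, pow_zero, (denF_mult d a).map_one, denF_prime d a p hp, denH_apply _ _ _ hp.ne_zero]
      have hg : Nat.gcd p d = p := Nat.gcd_eq_left hpd
      have hp1 : (1 : ℝ) < p := by exact_mod_cast hp.one_lt
      have hp1ne : (p : ℝ) - 1 ≠ 0 := by linarith
      rw [hg]
      split_ifs with h
      · field_simp
        ring
      · field_simp
        ring
    · intro j _
      rw [denF_apply, ArithmeticFunction.moebius_apply_prime_pow hp (by omega), if_neg (by omega)]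
      simp
  rw [hT0, hT.multiplicative_factorization _ (by omega)]
  rw [Finsupp.prod, Nat.support_factorization]
  have h1 : ∀ p ∈ d.primeFactors, ((denF d a) * (ArithmeticFunction.zeta : ArithmeticFunction ℝ)) (p ^ (d.factorization p)) =
      if p ∣ a then 0 else (p : ℝ) / ((p : ℝ) - 1) := by
    intro p hp
    have hpp' := Nat.prime_of_mem_primeFactors hp
    have hpd := Nat.dvd_of_mem_primeFactors hp
    exact hpp p _ hpp' hpd ((hpp'.dvd_iff_one_le_factorization (by omega)).mp hpd)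
  rw [prod_congr rfl h1]
  split_ifs with h
  · have h2 : ∀ p ∈ d.primeFactors, (if p ∣ a then 0 else (p : ℝ) / ((p : ℝ) - 1)) = (p : ℝ) / ((p : ℝ) - 1) := by
      intro p hp
      rw [if_neg]
      intro hpa
      have h3 := Nat.dvd_gcd hpa (Nat.dvd_of_mem_primeFactors hp)
      rw [h] at h3
      exact (Nat.prime_of_mem_primeFactors hp).one_lt.ne' (Nat.dvd_one.mp h3)
    rw [prod_congr rfl h2, prod_div_distrib]
    have h3 := Nat.totient_mul_prod_primeFactors d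
    have h4 : ((d.totient : ℝ)) * ∏ p ∈ d.primeFactors, (p : ℝ) = d * ∏ p ∈ d.primeFactors, ((p : ℝ) - 1) := by
      have h5 : ((d.totient * ∏ p ∈ d.primeFactors, p : ℕ) : ℝ) = ((d * ∏ p ∈ d.primeFactors, (p - 1) : ℕ) : ℝ) := by
        rw [h3]
      push_cast at h5
      rw [h5]
      congr 1
      refine prod_congr rfl fun p hp => ?_
      rw [Nat.cast_sub (Nat.prime_of_mem_primeFactors hp).one_lt.le, Nat.cast_one]
    have h5 : (0 : ℝ) < ∏ p ∈ d.primeFactors, ((p : ℝ) - 1) := by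
      refine prod_pos fun p hp => ?_
      have : (1 : ℝ) < p := by exact_mod_cast (Nat.prime_of_mem_primeFactors hp).one_lt
      linarith
    have h6 : (0 : ℝ) < d.totient := by exact_mod_cast Nat.totient_pos.mpr hd
    rw [div_eq_div_iff h5.ne' h6.ne']
    linarith
  · obtain ⟨p, hp, hpa, hpd⟩ := Nat.Prime.not_coprime_iff_dvd.mp h
    exact prod_eq_zero (Nat.mem_primeFactors.mpr ⟨hp, hpd, by omega⟩) (if_pos hpa)

/-- the sum of `lamR` over a class -/
private theorem den_lam (R d a M : ℕ) (hd : 1 ≤ d) (hdR : d ≤ R) (hM : ∀ r, 1 ≤ r → r ≤ R → Nat.lcm r d ∣ M) :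
    ∑ m ∈ (Ico M (2 * M)).filter (fun m => m % d = a % d), lamR R m =
      M * (if Nat.Coprime a d then 1 / (d.totient : ℝ) else 0) := by
  have hd0 : (d : ℝ) ≠ 0 := by exact_mod_cast (by omega : d ≠ 0)
  have h1 : ∀ c ∈ Icc 1 R, ∑ m ∈ (Ico M (2 * M)).filter (fun m => m % d = a % d), ramS c m = (M : ℝ) / d * denG d a c := by
    intro c hc
    rw [mem_Icc] at hc
    have h2 : ∀ m ∈ (Ico M (2 * M)).filter (fun m => m % d = a % d), ramS c m =
        ∑ e ∈ c.divisors, if e ∣ m then (e : ℝ) * (ArithmeticFunction.moebius (c / e) : ℝ) else 0 := by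
      intro m hm
      rw [mem_filter, mem_Ico] at hm
      unfold ramS
      rw [← sum_filter]
      refine sum_congr ?_ fun _ _ => rfl
      ext e
      simp only [Nat.mem_divisors, mem_filter, Nat.dvd_gcd_iff]
      constructor
      · rintro ⟨⟨h3, h4⟩, _⟩
        exact ⟨⟨h3, by omega⟩, h4⟩
      · rintro ⟨⟨h3, _⟩, h4⟩
        refine ⟨⟨h3, h4⟩, ?_⟩
        have := Nat.gcd_pos_of_pos_left m (by omega : 0 < c)
        omega
    rw [sum_congr rfl h2, sum_comm, denG_apply, mul_sum]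
    refine sum_congr rfl fun e he => ?_
    have he1 : 1 ≤ e := Nat.pos_of_mem_divisors he
    have heR : e ≤ R := (Nat.divisor_le he).trans hc.2
    rw [← sum_filter, sum_const, nsmul_eq_mul, filter_filter, den_cnt e d a M he1 hd (hM e he1 heR),
      denH_apply _ _ _ (by omega)]
    split_ifs with h3
    · have h4 : ((Nat.gcd e d : ℕ) : ℝ) * (Nat.lcm e d : ℕ) = (e : ℝ) * d := by
        exact_mod_cast Nat.gcd_mul_lcm e d
      have h5 : ((Nat.lcm e d : ℕ) : ℝ) ≠ 0 := by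
        exact_mod_cast (Nat.lcm_pos he1 hd).ne'
      have h6 : (e : ℝ) / (Nat.lcm e d : ℕ) = (Nat.gcd e d : ℕ) / (d : ℝ) := by
        rw [div_eq_div_iff h5 hd0]
        linarith
      calc (M : ℝ) / (Nat.lcm e d : ℕ) * ((e : ℝ) * (ArithmeticFunction.moebius (c / e) : ℝ))
          = (M : ℝ) * ((e : ℝ) / (Nat.lcm e d : ℕ)) * (ArithmeticFunction.moebius (c / e) : ℝ) := by ring
        _ = _ := by rw [h6]; ring
    · ring
  unfold lamR
  rw [sum_comm]
  have h2 : ∑ c ∈ Icc 1 R, ∑ m ∈ (Ico M (2 * M)).filter (fun m => m % d = a % d),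
      (ArithmeticFunction.moebius c : ℝ) / (c.totient : ℝ) * ramS c m = (M : ℝ) / d * ∑ c ∈ Icc 1 R, denF d a c := by
    rw [mul_sum]
    refine sum_congr rfl fun c hc => ?_
    rw [← mul_sum, h1 c hc, denF_apply]
    ring
  rw [h2]
  have h3 : ∑ c ∈ Icc 1 R, denF d a c = ∑ c ∈ d.divisors, denF d a c := by
    symm
    apply sum_subset
    · intro c hc
      rw [mem_Icc]
      exact ⟨Nat.pos_of_mem_divisors hc, (Nat.divisor_le hc).trans hdR⟩
    · intro c hc hc2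
      rw [mem_Icc] at hc
      apply denF_zero d a c hc.1
      intro h4
      exact hc2 (Nat.mem_divisors.mpr ⟨h4, by omega⟩)
  rw [h3, denF_sum d a hd]
  split_ifs with h
  · have h6 : (d.totient : ℝ) ≠ 0 := by exact_mod_cast (Nat.totient_pos.mpr hd).ne'
    field_simp
  · ring

/-- the sum of `S` over a class -/
private theorem den_S (Q : ℕ) (g S : ℕ → ℝ) (hg : Adm Q g S) (d a M : ℕ) (hd : 1 ≤ d) (hM1 : 1 ≤ M)
    (hM : ∀ r, 1 ≤ r → r ≤ Q → Nat.lcm r d ∣ M) :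
    ∑ m ∈ (Ico M (2 * M)).filter (fun m => m % d = a % d), S m = M * den Q g d a := by
  have h2 : ∀ m ∈ (Ico M (2 * M)).filter (fun m => m % d = a % d), S m =
      ∑ n ∈ Icc 1 Q, if n ∣ m then g n else 0 := by
    intro m hm
    rw [mem_filter, mem_Ico] at hm
    rw [hg.2.2 m (by omega), sum_filter]
  rw [sum_congr rfl h2, sum_comm]
  unfold den
  rw [mul_sum, sum_filter]
  refine sum_congr rfl fun n hn => ?_
  rw [mem_Icc] at hn
  rw [← sum_filter, sum_const, nsmul_eq_mul, filter_filter, den_cnt n d a M hn.1 hd (hM n hn.1 hn.2)]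
  split_ifs with h
  · ring
  · ring

/-- orthogonality -/
private theorem den_orth (f : ℕ → ℝ) (d a M : ℕ) (hd : 1 ≤ d) :
    ((∑ m ∈ (Ico M (2 * M)).filter (fun m => m % d = a % d), f m : ℝ) : ℂ) =
      1 / (d : ℂ) * ∑ j ∈ range d, ee ((a : ℝ) * ((j : ℝ) / d)) * Bs f M 1 ((j : ℝ) / d) := by
  have hd0 : (d : ℂ) ≠ 0 := by exact_mod_cast (by omega : d ≠ 0)
  have hee : ∀ t : ℝ, ee t = Pool.Agent.H92.EH.e t := by
    intro t
    unfold ee Pool.Agent.H92.EH.e
    congr 1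
    push_cast
    ring
  have h1 : ∀ m : ℕ, ∑ j ∈ range d, ee ((a : ℝ) * ((j : ℝ) / d)) * ee (-((m : ℝ) * ((j : ℝ) / d))) =
      if m % d = a % d then (d : ℂ) else 0 := by
    intro m
    have h2 := Pool.Agent.H92.EH.sum_complete d (by omega) ((a : ℤ) - (m : ℤ))
    have h3 : ((d : ℤ) ∣ (a : ℤ) - (m : ℤ)) ↔ m % d = a % d := (Nat.modEq_iff_dvd).symm
    rw [if_congr h3 rfl rfl] at h2
    rw [← h2]
    refine sum_congr rfl fun j _ => ?_
    rw [hee, hee, ← Pool.Agent.H92.EH.e_add]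
    congr 1
    push_cast
    ring
  have h2 : ∑ j ∈ range d, ee ((a : ℝ) * ((j : ℝ) / d)) * Bs f M 1 ((j : ℝ) / d) =
      ∑ m ∈ Ico M (2 * M), (f m : ℂ) * (if m % d = a % d then (d : ℂ) else 0) := by
    have h3 : ∀ j ∈ range d, ee ((a : ℝ) * ((j : ℝ) / d)) * Bs f M 1 ((j : ℝ) / d) =
        ∑ m ∈ Ico M (2 * M), (f m : ℂ) * (ee ((a : ℝ) * ((j : ℝ) / d)) * ee (-((m : ℝ) * ((j : ℝ) / d)))) := by
      intro j _
      unfold Bs
      rw [one_mul, mul_sum]
      refine sum_congr (by norm_num) fun m _ => ?_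
      ring
    rw [sum_congr rfl h3, sum_comm]
    refine sum_congr rfl fun m _ => ?_
    rw [← mul_sum, h1]
  rw [h2, mul_sum, sum_filter]
  push_cast
  refine sum_congr rfl fun m _ => ?_
  split_ifs with h
  · field_simp
  · simp

theorem den_bs (Q : ℕ) (g S : ℕ → ℝ) (k E : ℝ) (R H0 : ℕ) (hg : Adm Q g S) (hE : 0 ≤ E)
    (hb : ∀ (H : ℕ) (α : ℝ), H0 ≤ H → ‖Bs (fun m => S m - k * lamR R m) H 1 α‖ ≤ H * E) (d a : ℕ) (hd : 1 ≤ d) (hdR : d ≤ R) :
    |den Q g d a - (if Nat.Coprime a d then k / d.totient else 0)| ≤ E := by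
  obtain ⟨M, hMdef⟩ : ∃ M : ℕ, M = (H0 + 1) * (d * (Q + R).factorial) := ⟨_, rfl⟩
  have hP : 0 < d * (Q + R).factorial := Nat.mul_pos (by omega) (Nat.factorial_pos _)
  have hM0 : H0 ≤ M := by rw [hMdef]; nlinarith
  have hM1 : 1 ≤ M := by rw [hMdef]; exact Nat.mul_pos (by omega) hP
  have hM : ∀ r, 1 ≤ r → r ≤ Q + R → Nat.lcm r d ∣ M := by
    intro r hr1 hr2
    rw [hMdef]
    refine Dvd.dvd.mul_left ?_ _
    apply Nat.lcm_dvd
    · exact Dvd.dvd.mul_left (Nat.dvd_factorial (by omega) hr2) _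
    · exact Dvd.intro _ rfl
  have h1 := den_S Q g S hg d a M hd hM1 (fun r h1 h2 => hM r h1 (by omega))
  have h2 := den_lam R d a M hd hdR (fun r h1 h2 => hM r h1 (by omega))
  have h3 := den_orth (fun m => S m - k * lamR R m) d a M hd
  have h4 : ∑ m ∈ (Ico M (2 * M)).filter (fun m => m % d = a % d), (S m - k * lamR R m) =
      M * (den Q g d a - (if Nat.Coprime a d then k / d.totient else 0)) := by
    rw [sum_sub_distrib, ← mul_sum, h1, h2]
    split_ifs with h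
    · ring
    · ring
  rw [h4] at h3
  have hdpos : (0 : ℝ) < d := by exact_mod_cast hd
  have hMpos : (0 : ℝ) < M := by exact_mod_cast hM1
  have hnorm : ∀ t : ℝ, ‖ee t‖ = 1 := by
    intro t
    unfold ee
    rw [show (2 * (Real.pi : ℂ) * (t : ℂ) * Complex.I) = ((2 * Real.pi * t : ℝ) : ℂ) * Complex.I by push_cast; ring]
    exact Complex.norm_exp_ofReal_mul_I _
  have h5 : ‖((M * (den Q g d a - (if Nat.Coprime a d then k / d.totient else 0)) : ℝ) : ℂ)‖ ≤ M * E := by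
    rw [h3, norm_mul]
    have h6 : ‖(1 / (d : ℂ))‖ = 1 / (d : ℝ) := by simp
    rw [h6]
    have h7 : ‖∑ j ∈ range d, ee ((a : ℝ) * ((j : ℝ) / d)) * Bs (fun m => S m - k * lamR R m) M 1 ((j : ℝ) / d)‖ ≤
        ∑ j ∈ range d, (M : ℝ) * E := by
      refine norm_sum_le_of_le _ fun j _ => ?_
      rw [norm_mul, hnorm, one_mul]
      exact hb M _ hM0
    rw [sum_const, card_range, nsmul_eq_mul] at h7
    calc 1 / (d : ℝ) * _ ≤ 1 / (d : ℝ) * ((d : ℝ) * (M * E)) := mul_le_mul_of_nonneg_left h7 (by positivity)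
      _ = M * E := by field_simp
  rw [Complex.norm_real, Real.norm_eq_abs, abs_mul, abs_of_pos hMpos] at h5
  exact le_of_mul_le_mul_left h5 hMpos

end Pool.Agent.H43.PX

end

section

/-!
# PROJECT PX (MP_967f73_nt), ROW CRT: the minorant `Yx S T ≤ 1_P` on `[N/4, 4N]`

For a sieve pair `T ≤ rg y ≤ S`: `om m * rg y m ≤ S2 S m`, since `rg y m ≤ rg y (m/p) ≤ S (m/p)` for `p ∣ m`.
If `nu m = 0` and `rg y m = 1`, then all prime factors of `m` are `> z`, so that a composite `m ≤ 4N ≤ w²` has `om m ≥ 1`.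
If `nu m ≥ 1`, then `Yx ≤ rg y m (1 - om) - Bx = 0`.
-/

set_option autoImplicit false

namespace Pool.Agent.H43.PX

open Finset
open Pool.Agent.H43.TP (pr)
open Pool.Agent.H76.TP (yN zz rg nu PY Adm)
open Pool.Agent.H91.TQ (om)

private theorem crt_rg_nonneg (y m : ℕ) : 0 ≤ rg y m := by
  unfold rg
  split_ifs <;> norm_num

private theorem crt_rg_le (y m k : ℕ) (h : k ∣ m) : rg y m ≤ rg y k := by
  classical
  unfold rg
  by_cases h1 : ∀ p : ℕ, p.Prime → p ∣ m → y < p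
  · have h2 : ∀ p : ℕ, p.Prime → p ∣ k → y < p := fun p hp hk => h1 p hp (hk.trans h)
    rw [if_pos h1, if_pos h2]
  · rw [if_neg h1]
    split_ifs <;> norm_num

private theorem crt_pr_nonneg (m : ℕ) : 0 ≤ pr m := by
  unfold pr
  split_ifs <;> norm_num

/-- `om m * rg y m ≤ S2 S m` -/
private theorem crt_s2 (y J J1 m : ℕ) (S : ℕ → ℝ) (hm : 1 ≤ m) (hS : ∀ k, 1 ≤ k → rg y k ≤ S k) :
    (om y J J1 m : ℝ) * rg y m ≤ S2 S y J J1 m := by
  classical
  have hset : (PY (zz y J) (zz y J1)).filter (fun p => p ∣ m) =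
      m.primeFactors.filter (fun p => zz y J < p ∧ p ≤ zz y J1) := by
    ext p
    simp only [PY, mem_filter, mem_Ioc, Nat.mem_primeFactors]
    constructor
    · rintro ⟨⟨⟨h1, h2⟩, h3⟩, h4⟩
      exact ⟨⟨h3, h4, by omega⟩, h1, h2⟩
    · rintro ⟨⟨h3, h4, _⟩, h1, h2⟩
      exact ⟨⟨⟨h1, h2⟩, h3⟩, h4⟩
  unfold S2
  rw [hset]
  have h1 : (om y J J1 m : ℝ) * rg y m =
      ∑ p ∈ m.primeFactors.filter (fun p => zz y J < p ∧ p ≤ zz y J1), rg y m := by
    rw [sum_const, nsmul_eq_mul]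
    rfl
  rw [h1]
  apply sum_le_sum
  intro p hp
  rw [mem_filter, Nat.mem_primeFactors] at hp
  obtain ⟨⟨hp, hpm, _⟩, _⟩ := hp
  have hd : m / p ∣ m := Nat.div_dvd_of_dvd hpm
  have h1 : 1 ≤ m / p := Nat.div_pos (Nat.le_of_dvd (by omega) hpm) hp.pos
  exact (crt_rg_le y m _ hd).trans (hS _ h1)

/-- a composite number without prime factors `≤ z` has a prime factor in `(z, w]` -/
private theorem crt_om (N y J J1 m : ℕ) (hw : 4 * N ≤ zz y J1 ^ 2) (hm : m ≤ 4 * N) (h2 : 2 ≤ m) (hnp : ¬ m.Prime)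
    (hz : ∀ p : ℕ, p.Prime → p ∣ m → zz y J < p) : 1 ≤ om y J J1 m := by
  classical
  have hp : m.minFac.Prime := Nat.minFac_prime (by omega)
  have hd : m.minFac ∣ m := Nat.minFac_dvd m
  have hsq : m.minFac ^ 2 ≤ m := Nat.minFac_sq_le_self (by omega) hnp
  have hle : m.minFac ≤ zz y J1 := by
    by_contra hcon
    push Not at hcon
    have h3 : zz y J1 ^ 2 < m.minFac ^ 2 := Nat.pow_lt_pow_left hcon (by norm_num)
    omega
  unfold om
  apply Nat.one_le_iff_ne_zero.mpr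
  apply card_ne_zero_of_mem (a := m.minFac)
  rw [mem_filter, Nat.mem_primeFactors]
  exact ⟨⟨hp, hd, by omega⟩, hz _ hp hd, hle⟩

/-- **ROW CRT**: `Yx ≤ 1_P` on `[N/4, 4N]` -/
theorem yx_le (e1 : ℝ) (he1 : 0 < e1) (he2 : e1 ≤ 1 / 1000) : ∃ N0 : ℕ, ∀ N : ℕ, N0 ≤ N → ∀ (J J1 : ℕ) (S T : ℕ → ℝ),
    LevX N (yN e1 N) J J1 → (∀ m, 1 ≤ m → T m ≤ rg (yN e1 N) m ∧ rg (yN e1 N) m ≤ S m) →
    ∀ m : ℕ, N ≤ 4 * m → m ≤ 4 * N → Yx S T (yN e1 N) J J1 m ≤ pr m := by
  classical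
  refine ⟨5, fun N hN J J1 S T hL hST m hm1 hm2 => ?_⟩
  generalize yN e1 N = y at hL hST ⊢
  obtain ⟨_, _, _, hw, _⟩ := hL
  have hm : 1 ≤ m := by omega
  have hm' : 2 ≤ m := by omega
  have hT := (hST m hm).1
  have hS2 := crt_s2 y J J1 m S hm (fun k hk => (hST k hk).2)
  have hr0 := crt_rg_nonneg y m
  have hp0 := crt_pr_nonneg m
  unfold Yx Bx
  by_cases hnu : nu y J m = 0
  · rw [if_pos hnu]
    by_cases hrg : ∀ p : ℕ, p.Prime → p ∣ m → y < p
    · have hr1 : rg y m = 1 := by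
        unfold rg
        rw [if_pos hrg]
      rw [hr1] at hT hS2
      by_cases hmp : m.Prime
      · have h1 : pr m = 1 := by
          unfold pr
          rw [if_pos hmp]
        have h2 : (0 : ℝ) ≤ (om y J J1 m : ℝ) := Nat.cast_nonneg _
        linarith
      · have hz : ∀ p : ℕ, p.Prime → p ∣ m → zz y J < p := by
          intro p hp hpm
          by_contra hcon
          push Not at hcon
          unfold nu at hnu
          rw [card_eq_zero] at hnu
          have h3 : p ∈ m.primeFactors.filter (fun p => y < p ∧ p ≤ zz y J) := by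
            rw [mem_filter, Nat.mem_primeFactors]
            exact ⟨⟨hp, hpm, by omega⟩, hrg p hp hpm, hcon⟩
          rw [hnu] at h3
          simp at h3
        have h4 := crt_om N y J J1 m hw hm2 hm' hmp hz
        have h5 : (1 : ℝ) ≤ (om y J J1 m : ℝ) := by exact_mod_cast h4
        linarith
    · have hr1 : rg y m = 0 := by
        unfold rg
        rw [if_neg hrg]
      rw [hr1] at hT hS2
      linarith
  · rw [if_neg hnu]
    nlinarith

end Pool.Agent.H43.PX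

end

section

/-!
# PX DensY: the density of `Yx`

Pointwise (`m ≥ 1`) `gX = rg y - om rg y - Bx`.  `∑_{m ∈ (x,x+H1]} om m rg y m = ∑_{p ∈ PY z w} ∑_{k ∈ (x/p, (x+H1)/p]} rg y k`, every inner sum is
`≥ kS l_p - ε l_p/L`, so `kS W12 ≤ gam (om rg) + small`.  `W12 ≤ 2` by `mertens_wz`.  `-Bx ≤ 4 rg y` (`om ≤ 5`), and the density of `rg y` is at most
`φ(30030)/30030 + small < 1/5`.
-/

set_option autoImplicit false

namespace Pool.Agent.H43.PX

open Finset
open Pool.Agent.H91.PK (ee)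
open Pool.Agent.H91.EHA (Lam lamR)
open Pool.Agent.H43.MP (blk Hn idx Rn)
open Pool.Agent.H43.TP (pr)
open Pool.Agent.H43.TS (badQ)
open Pool.Agent.H76.TP (yN zz rg nu PY Adm)
open Pool.Agent.H91.TQ (om)
open Pool.Agent.H31.EQ (Gs gam WDx)
open Pool.Agent.H46.TPQ (SvI)

private theorem DensY_rg_nonneg (y k : ℕ) : 0 ≤ rg y k := by
  unfold rg
  split_ifs <;> norm_num

private theorem DensY_rg_le (y k : ℕ) : rg y k ≤ 1 := by
  unfold rg
  split_ifs <;> norm_num

private theorem DensY_zz (y J : ℕ) : y ≤ zz y J := by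
  unfold zz
  exact Nat.le_mul_of_pos_left _ (by positivity)

private theorem DensY_gX (y J J1 : ℕ) {m : ℕ} (hm : 1 ≤ m) :
    gX y J J1 m = rg y m - om y J J1 m * rg y m - Bx y J J1 m := by
  have hyz := DensY_zz y J
  by_cases h : nu y J m = 0
  · have h1 : rg (zz y J) m = rg y m := by
      unfold rg
      by_cases h2 : ∀ p : ℕ, p.Prime → p ∣ m → y < p
      · have h3 : ∀ p : ℕ, p.Prime → p ∣ m → zz y J < p := by
          intro p hp hpm
          by_contra hlt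
          rw [not_lt] at hlt
          unfold nu at h
          rw [card_eq_zero, filter_eq_empty_iff] at h
          exact h (Nat.mem_primeFactors.mpr ⟨hp, hpm, by omega⟩) ⟨h2 p hp hpm, hlt⟩
        rw [if_pos h2, if_pos h3]
      · have h3 : ¬ ∀ p : ℕ, p.Prime → p ∣ m → zz y J < p := fun h3 => h2 fun p hp hpm => lt_of_le_of_lt hyz (h3 p hp hpm)
        rw [if_neg h2, if_neg h3]
    unfold gX Bx
    rw [if_pos h, h1]
    ring
  · have h1 : rg (zz y J) m = 0 := by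
      unfold rg
      rw [if_neg]
      intro h3
      apply h
      unfold nu
      rw [card_eq_zero, filter_eq_empty_iff]
      rintro p hp ⟨-, h5⟩
      have h6 := h3 p (Nat.prime_of_mem_primeFactors hp) (Nat.dvd_of_mem_primeFactors hp)
      omega
    unfold gX Bx
    rw [if_neg h, h1]
    ring

private theorem DensY_om (y J J1 : ℕ) {m : ℕ} (hm : 1 ≤ m) :
    (om y J J1 m : ℝ) = ∑ p ∈ PY (zz y J) (zz y J1), if p ∣ m then 1 else 0 := by
  rw [← sum_filter, sum_const, nsmul_eq_mul, mul_one]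
  congr 1
  unfold om PY
  congr 1
  ext p
  rw [mem_filter, mem_filter, mem_filter, mem_Ioc, Nat.mem_primeFactors]
  constructor
  · rintro ⟨⟨h1, h2, -⟩, h3⟩
    exact ⟨⟨h3, h1⟩, h2⟩
  · rintro ⟨⟨h3, h1⟩, h2⟩
    exact ⟨⟨h1, h2, by omega⟩, h3⟩

private theorem DensY_rg_mul {y p k : ℕ} (hp : p.Prime) (hyp : y < p) : rg y (p * k) = rg y k := by
  unfold rg
  by_cases h : ∀ q : ℕ, q.Prime → q ∣ k → y < q
  · rw [if_pos h, if_pos]
    intro q hq hqk
    rcases (Nat.Prime.dvd_mul hq).mp hqk with h1 | h1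
    · rw [(Nat.prime_dvd_prime_iff_eq hq hp).mp h1]
      exact hyp
    · exact h q hq h1
  · rw [if_neg h, if_neg]
    intro h1
    exact h fun q hq hqk => h1 q hq (hqk.mul_left p)

private theorem DensY_fib (y x H : ℕ) {p : ℕ} (hp : p.Prime) (hyp : y < p) :
    ∑ m ∈ (Ioc x (x + H)).filter (fun m => p ∣ m), rg y m = ∑ k ∈ Ioc (x / p) ((x + H) / p), rg y k := by
  symm
  refine sum_nbij (fun k => p * k) ?_ ?_ ?_ ?_
  · intro k hk
    rw [mem_Ioc] at hk
    rw [mem_filter, mem_Ioc]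
    refine ⟨⟨?_, ?_⟩, dvd_mul_right p k⟩
    · have h1 := (Nat.div_lt_iff_lt_mul hp.pos).mp hk.1
      rw [mul_comm]
      exact h1
    · have h1 := (Nat.le_div_iff_mul_le hp.pos).mp hk.2
      rw [mul_comm]
      exact h1
  · intro a _ b _ hab
    exact Nat.eq_of_mul_eq_mul_left hp.pos hab
  · rintro m hm
    rw [mem_coe, mem_filter, mem_Ioc] at hm
    obtain ⟨⟨h1, h2⟩, k, rfl⟩ := hm
    refine ⟨k, ?_, rfl⟩
    rw [mem_coe, mem_Ioc]
    constructor
    · exact (Nat.div_lt_iff_lt_mul hp.pos).mpr (by rw [mul_comm]; exact h1)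
    · exact (Nat.le_div_iff_mul_le hp.pos).mpr (by rw [mul_comm]; exact h2)
  · intro k _
    exact (DensY_rg_mul hp hyp).symm

private theorem DensY_count (y J J1 x H : ℕ) : ∑ m ∈ Ioc x (x + H), (om y J J1 m : ℝ) * rg y m =
    ∑ p ∈ PY (zz y J) (zz y J1), ∑ k ∈ Ioc (x / p) ((x + H) / p), rg y k := by
  have h1 : ∀ m ∈ Ioc x (x + H), (om y J J1 m : ℝ) * rg y m = ∑ p ∈ PY (zz y J) (zz y J1), if p ∣ m then rg y m else 0 := by
    intro m hm
    rw [mem_Ioc] at hm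
    rw [DensY_om y J J1 (by omega), sum_mul]
    refine sum_congr rfl fun p _ => ?_
    split_ifs <;> simp
  rw [sum_congr rfl h1, sum_comm]
  refine sum_congr rfl fun p hp => ?_
  unfold PY at hp
  rw [mem_filter, mem_Ioc] at hp
  rw [← sum_filter]
  exact DensY_fib y x H hp.2 (lt_of_le_of_lt (DensY_zz y J) hp.1.1)

private theorem DensY_tot : Nat.totient 30030 = 5760 := by
  have e : 30030 = 2 * (3 * (5 * (7 * (11 * 13)))) := by norm_num
  rw [e, Nat.totient_mul (by norm_num), Nat.totient_mul (by norm_num), Nat.totient_mul (by norm_num), Nat.totient_mul (by norm_num),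
    Nat.totient_mul (by norm_num), Nat.totient_prime (by norm_num), Nat.totient_prime (by norm_num), Nat.totient_prime (by norm_num),
    Nat.totient_prime (by norm_num), Nat.totient_prime (by norm_num), Nat.totient_prime (by norm_num)]

private theorem DensY_rough {y : ℕ} (hy : 13 ≤ y) (x H : ℕ) :
    ∑ m ∈ Ioc x (x + H), rg y m ≤ 5760 * ((H : ℝ) / 30030 + 1) := by
  have h1 : ∀ m ∈ Ioc x (x + H), rg y m ≤ if Nat.Coprime 30030 m then 1 else 0 := by
    intro m _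
    by_cases h : ∀ q : ℕ, q.Prime → q ∣ m → y < q
    · rw [if_pos]
      · exact DensY_rg_le y m
      · have e : 30030 = 2 * (3 * (5 * (7 * (11 * 13)))) := by norm_num
        have key : ∀ q : ℕ, q.Prime → q ≤ 13 → Nat.Coprime q m := by
          intro q hq hq13
          rw [Nat.Prime.coprime_iff_not_dvd hq]
          intro hqm
          have := h q hq hqm
          omega
        rw [e]
        refine Nat.Coprime.mul_left (key 2 (by norm_num) (by norm_num)) (Nat.Coprime.mul_left (key 3 (by norm_num) (by norm_num))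
          (Nat.Coprime.mul_left (key 5 (by norm_num) (by norm_num)) (Nat.Coprime.mul_left (key 7 (by norm_num) (by norm_num))
          (Nat.Coprime.mul_left (key 11 (by norm_num) (by norm_num)) (key 13 (by norm_num) (by norm_num))))))
    · have : rg y m = 0 := by
        unfold rg
        rw [if_neg h]
      rw [this]
      split_ifs <;> norm_num
  refine (sum_le_sum h1).trans ?_
  rw [← sum_filter, sum_const, nsmul_eq_mul, mul_one]
  have h2 : (Ioc x (x + H)).filter (fun m => Nat.Coprime 30030 m) = (Ico (x + 1) (x + 1 + H)).filter (fun m => Nat.Coprime 30030 m) := by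
    congr 1
    ext m
    rw [mem_Ioc, mem_Ico]
    omega
  rw [h2]
  have h3 := Nat.Ico_filter_coprime_le (a := 30030) (x + 1) H (by norm_num)
  rw [DensY_tot] at h3
  have h4 : (((Ico (x + 1) (x + 1 + H)).filter (fun m => Nat.Coprime 30030 m)).card : ℝ) ≤ ((5760 * (H / 30030 + 1) : ℕ) : ℝ) := by
    exact_mod_cast h3
  refine h4.trans ?_
  push_cast
  have h5 : ((H / 30030 : ℕ) : ℝ) ≤ (H : ℝ) / 30030 := by
    have := Nat.cast_div_le (α := ℝ) (m := H) (n := 30030)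
    exact_mod_cast this
  linarith only [h5]

private theorem DensY_om_le {y J J1 m : ℕ} (hm : 1 ≤ m) (hz : m < zz y J ^ 6) : om y J J1 m ≤ 5 := by
  by_contra hcon
  have h6 : 6 ≤ om y J J1 m := by omega
  unfold om at h6
  obtain ⟨s, hs⟩ : ∃ s, s = m.primeFactors.filter (fun p => zz y J < p ∧ p ≤ zz y J1) := ⟨_, rfl⟩
  rw [← hs] at h6
  have h1 : ∏ p ∈ s, p ∣ m := by
    have h2 : ∏ p ∈ s, p ∣ ∏ p ∈ m.primeFactors, p := prod_dvd_prod_of_subset _ _ _ (by rw [hs]; exact filter_subset _ _)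
    exact h2.trans (Nat.prod_primeFactors_dvd m)
  have h2 : ∏ p ∈ s, p ≤ m := Nat.le_of_dvd (by omega) h1
  have h3 : zz y J ^ s.card ≤ ∏ p ∈ s, p := by
    rw [← prod_const]
    refine prod_le_prod (fun _ _ => Nat.zero_le _) fun p hp => ?_
    rw [hs, mem_filter] at hp
    exact hp.2.1.le
  have hz1 : 1 ≤ zz y J := by
    rcases Nat.eq_zero_or_pos (zz y J) with h0 | h0
    · rw [h0] at hz
      norm_num at hz
    · exact h0
  have h4 : zz y J ^ 6 ≤ zz y J ^ s.card := Nat.pow_le_pow_right hz1 h6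
  omega

private theorem DensY_Bx {y J J1 m : ℕ} (hm : 1 ≤ m) (hz : m < zz y J ^ 6) : -(4 * rg y m) ≤ Bx y J J1 m := by
  have h1 := DensY_rg_nonneg y m
  have h2 : (om y J J1 m : ℝ) ≤ 5 := by exact_mod_cast DensY_om_le hm hz
  unfold Bx
  split_ifs
  · linarith only [h1]
  · nlinarith only [h1, h2]

/-- the lengths of the fibres -/
private theorem DensY_len (x H : ℕ) {p : ℕ} (hp : 0 < p) : ∃ l : ℕ, (x + H) / p = x / p + l ∧ (H : ℝ) / p - 1 ≤ l ∧ (l : ℝ) ≤ H / p + 1 := by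
  have h0 : x / p ≤ (x + H) / p := Nat.div_le_div_right (by omega)
  refine ⟨(x + H) / p - x / p, by omega, ?_, ?_⟩
  all_goals
    rw [Nat.cast_sub h0]
    have hp' : (0 : ℝ) < p := by exact_mod_cast hp
    have a1 : (((x + H) / p : ℕ) : ℝ) ≤ ((x : ℝ) + H) / p := by
      have := Nat.cast_div_le (α := ℝ) (m := x + H) (n := p)
      push_cast at this
      exact this
    have a2 : ((x / p : ℕ) : ℝ) ≤ (x : ℝ) / p := Nat.cast_div_le
    have a3 : ((x : ℝ) + H) / p - 1 ≤ (((x + H) / p : ℕ) : ℝ) := by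
      have h1 : x + H < ((x + H) / p + 1) * p := by
        rw [mul_comm]
        exact Nat.lt_mul_div_succ _ hp
      have h2 : ((x : ℝ) + H) < ((((x + H) / p : ℕ) : ℝ) + 1) * p := by exact_mod_cast h1
      rw [sub_le_iff_le_add, div_le_iff₀ hp']
      exact h2.le
    have a4 : (x : ℝ) / p - 1 ≤ ((x / p : ℕ) : ℝ) := by
      have h1 : x < (x / p + 1) * p := by
        rw [mul_comm]
        exact Nat.lt_mul_div_succ _ hp
      have h2 : (x : ℝ) < (((x / p : ℕ) : ℝ) + 1) * p := by exact_mod_cast h1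
      rw [sub_le_iff_le_add, div_le_iff₀ hp']
      exact h2.le
    rw [add_div] at a1 a3
    linarith only [a2, a3, a1, a4]

/-- the size conditions -/
private theorem DensY_ev (e1 : ℝ) (A1 : ℕ) (he1 : 0 < e1) : ∃ N0 : ℕ, ∀ N : ℕ, N0 ≤ N →
    1 ≤ N ∧ Real.log N ^ A1 ≤ (N : ℝ) ^ (1 / 100 : ℝ) ∧ Real.log N ≤ (N : ℝ) ^ (1 / 100 : ℝ) ∧ 10 ≤ (N : ℝ) ^ (1 / 100 : ℝ) ∧
      13 ≤ yN e1 N := by
  have hE : ∀ k : ℕ, ∀ᶠ N : ℕ in Filter.atTop, Real.log N ^ k ≤ (N : ℝ) ^ (1 / 100 : ℝ) := by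
    intro k
    have h := (isLittleO_log_rpow_rpow_atTop (k : ℝ) (by norm_num : (0 : ℝ) < 1 / 100)).bound one_pos
    have h2 := tendsto_natCast_atTop_atTop.eventually h
    filter_upwards [h2, Filter.eventually_ge_atTop 1] with N h3 h4
    have h5 : (1 : ℝ) ≤ N := by exact_mod_cast h4
    have h6 : 0 ≤ Real.log N := Real.log_nonneg h5
    rw [Real.rpow_natCast, Real.norm_of_nonneg (pow_nonneg h6 _), Real.norm_of_nonneg (Real.rpow_nonneg (by linarith only [h5]) _), one_mul] at h3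
    exact h3
  have h1 := hE 1
  have hT : ∀ e : ℝ, 0 < e → ∀ K : ℝ, ∀ᶠ N : ℕ in Filter.atTop, K ≤ (N : ℝ) ^ e := by
    intro e he K
    exact ((tendsto_rpow_atTop he).comp tendsto_natCast_atTop_atTop).eventually_ge_atTop K
  obtain ⟨N0, hN0⟩ := Filter.eventually_atTop.mp
    ((Filter.eventually_ge_atTop 1).and ((hE A1).and (h1.and ((hT (1 / 100) (by norm_num) 10).and (hT e1 he1 13)))))
  refine ⟨N0, fun N hN => ?_⟩
  obtain ⟨a1, a2, a3, a4, a5⟩ := hN0 N hN
  rw [pow_one] at a3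
  refine ⟨a1, a2, a3, a4, ?_⟩
  unfold yN
  exact Nat.le_floor (by exact_mod_cast a5)

private theorem DensY_pow {N : ℕ} {t : ℝ} (ht : t = (N : ℝ) ^ (1 / 100 : ℝ)) (a : ℝ) (k : ℕ) (h : a = k / 100) : (N : ℝ) ^ a = t ^ k := by
  rw [ht, ← Real.rpow_natCast, ← Real.rpow_mul (Nat.cast_nonneg N), h]
  congr 1
  ring

/-- `W12 ≤ 2` -/
private theorem DensY_W {N y J J1 : ℕ} (hL : LevX N y J J1) {t : ℝ} (ht : t = (N : ℝ) ^ (1 / 100 : ℝ)) (ht10 : 10 ≤ t) (hN : 1 ≤ N) :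
    W12 y J J1 ≤ 2 := by
  obtain ⟨hJ, h1, h2, h3, h4⟩ := hL
  obtain ⟨z, hz⟩ : ∃ z, z = zz y J := ⟨_, rfl⟩
  obtain ⟨w, hw⟩ : ∃ w, w = zz y J1 := ⟨_, rfl⟩
  rw [← hz] at h1 h2
  rw [← hw] at h3 h4
  have hN1 : (1 : ℝ) ≤ N := by exact_mod_cast hN
  have hN0 : (0 : ℝ) < N := by linarith only [hN1]
  have hlogt : Real.log t = Real.log N / 100 := by
    rw [ht, Real.log_rpow hN0]
    ring
  have hlog10 : 2 ≤ Real.log t := by
    have h5 : Real.log 10 ≤ Real.log t := Real.log_le_log (by norm_num) ht10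
    have h6 : 2 ≤ Real.log 10 := by
      rw [Real.le_log_iff_exp_le (by norm_num)]
      have h7 := Real.exp_one_lt_d9
      have h8 : Real.exp 2 = Real.exp 1 * Real.exp 1 := by
        rw [← Real.exp_add]
        norm_num
      rw [h8]
      have h9 := Real.exp_pos 1
      nlinarith only [h7, h9]
    linarith only [h5, h6]
  have hLN : 200 ≤ Real.log N := by
    rw [hlogt] at hlog10
    linarith only [hlog10]
  have hz18 : t ^ 18 ≤ z := by
    rw [← DensY_pow ht (18 / 100) 18 (by norm_num)]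
    exact (Real.rpow_le_rpow_of_exponent_le hN1 (by norm_num)).trans h1
  have hz65536 : 65536 ≤ z := by
    have h5 : (10 : ℝ) ^ 5 ≤ t ^ 5 := pow_le_pow_left₀ (by norm_num) ht10 5
    have h5' : t ^ 5 ≤ t ^ 18 := pow_le_pow_right₀ (by linarith only [ht10]) (by norm_num)
    have h6 : (65536 : ℝ) ≤ z := by
      refine le_trans ?_ (h5.trans (h5'.trans hz18))
      norm_num
    exact_mod_cast h6
  have hz0 : (0 : ℝ) < z := by
    have : 0 < z := by omega
    exact_mod_cast this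
  have hlogz : 1898 / 10000 * Real.log N ≤ Real.log z := by
    have h5 := Real.log_le_log (Real.rpow_pos_of_pos hN0 _) h1
    rw [Real.log_rpow hN0] at h5
    exact h5
  have hzw : z ≤ w := by
    rw [hz, hw]
    unfold zz
    exact Nat.mul_le_mul_right _ (Nat.pow_le_pow_right (by norm_num) hJ)
  have hw0 : (0 : ℝ) < w := by
    have : 0 < w := by omega
    exact_mod_cast this
  have hlogw : Real.log w ≤ 51 / 100 * Real.log N := by
    have h5 : ((w : ℝ)) ^ 2 ≤ 16 * N := by exact_mod_cast h4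
    have h6 := Real.log_le_log (by positivity) h5
    rw [Real.log_pow, Real.log_mul (by norm_num) hN0.ne'] at h6
    have h7 : Real.log 16 ≤ 4 := by
      have h8 : (16 : ℝ) = 2 ^ 4 := by norm_num
      rw [h8, Real.log_pow]
      have := Real.log_two_lt_d9
      push_cast
      linarith only [this]
    push_cast at h6
    linarith only [hlogt, hlog10, h6, h7]
  have hM := Pool.Agent.H91.Gold.mertens_wz hz65536 hzw
  have e1 : W12 y J J1 = ∑ p ∈ Pool.Agent.H91.Gold.Pr z w, (1 : ℝ) / p := by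
    unfold W12 PY Pool.Agent.H91.Gold.Pr
    rw [hz, hw]
  rw [e1]
  refine hM.trans ?_
  have hlz0 : 0 < Real.log z := by
    have : 0 < 1898 / 10000 * Real.log N := by linarith only [hlogt, hlog10]
    linarith only [hlogt, hlog10, hlogz]
  have hr : Real.log w / Real.log z ≤ 27 / 10 := by
    rw [div_le_iff₀ hlz0]
    linarith only [hlogt, hlog10, hlogz, hlogw]
  have hr0 : 0 < Real.log w / Real.log z := by
    refine div_pos (lt_of_lt_of_le hlz0 (Real.log_le_log hz0 (by exact_mod_cast hzw))) hlz0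
  have h5 := Real.log_le_sub_one_of_pos hr0
  have h6 : 0.2295 / Real.log z ≤ 1 / 100 := by
    rw [div_le_div_iff₀ hlz0 (by norm_num)]
    linarith only [hlogt, hlog10, hlogz]
  linarith only [hr, h5, h6]

private theorem DensY_W0 (y J J1 : ℕ) : 0 ≤ W12 y J J1 := by
  unfold W12
  exact sum_nonneg fun p _ => by positivity

/-- the main estimate with explicit size conditions -/
private theorem DensY_core {N y J J1 A1 x : ℕ} {S T : ℕ → ℝ} {kS kT t : ℝ} (hL : LevX N y J J1) (ht : t = (N : ℝ) ^ (1 / 100 : ℝ))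
    (ht10 : 10 ≤ t) (hN : 1 ≤ N) (hA : Real.log N ^ A1 ≤ t) (hlog : Real.log N ≤ t) (hy : 13 ≤ y)
    (hS : SvI N y (1 / 1000) S T kS kT) (hx1 : N ≤ 8 * x) (hx2 : x ≤ 8 * N) :
      gam (gX y J J1) ⌊(N : ℝ) / Real.log N ^ A1⌋₊ x - 1 / 100 / Real.log N ≤
        kT - kS * W12 y J J1 - gam (Bx y J J1) ⌊(N : ℝ) / Real.log N ^ A1⌋₊ x ∧
      kT - kS * W12 y J J1 - gam (Bx y J J1) ⌊(N : ℝ) / Real.log N ^ A1⌋₊ x ≤ 1 ∧ |kS * W12 y J J1| ≤ 2 := by
  have hW := DensY_W hL ht ht10 hN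
  have hW0 := DensY_W0 y J J1
  obtain ⟨hST, hkS, hkT, hTS, hsv⟩ := hS
  obtain ⟨hJ, hl1, hl2, hl3, hl4⟩ := hL
  have hN1 : (1 : ℝ) ≤ N := by exact_mod_cast hN
  have hN0 : (0 : ℝ) < N := by linarith only [hN1]
  have ht0 : 0 < t := by linarith only [ht10]
  have ht1 : 1 ≤ t := by linarith only [ht10]
  have hNt : (N : ℝ) = t ^ 100 := by
    rw [← DensY_pow ht 1 100 (by norm_num), Real.rpow_one]
  have hlogt : Real.log t = Real.log N / 100 := by
    rw [ht, Real.log_rpow hN0]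
    ring
  have hlog1 : 1 ≤ Real.log N := by
    have h5 : Real.log 10 ≤ Real.log t := Real.log_le_log (by norm_num) ht10
    have h6 : Real.exp 1 ≤ 10 := by
      have := Real.exp_one_lt_d9
      linarith only [this]
    have h7 : 1 ≤ Real.log 10 := by
      rw [Real.le_log_iff_exp_le (by norm_num)]
      exact h6
    rw [hlogt] at h5
    linarith only [h5, h7]
  have hlog0 : 0 < Real.log N := by linarith only [hlog1]
  obtain ⟨H, hH⟩ : ∃ H : ℕ, H = ⌊(N : ℝ) / Real.log N ^ A1⌋₊ := ⟨_, rfl⟩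
  rw [← hH]
  have hA0 : 1 ≤ Real.log N ^ A1 := one_le_pow₀ hlog1
  -- bounds for H
  have hHle : (H : ℝ) ≤ N := by
    rw [hH]
    refine (Nat.floor_le (by positivity)).trans ?_
    exact div_le_self hN0.le hA0
  have hHge : t ^ 98 ≤ H := by
    have h1 : (N : ℝ) / Real.log N ^ A1 < H + 1 := by
      rw [hH]
      exact Nat.lt_floor_add_one _
    have h2 : (N : ℝ) / t ≤ (N : ℝ) / Real.log N ^ A1 := div_le_div_of_nonneg_left hN0.le (by linarith only [hA0]) hA
    have h3 : (N : ℝ) / t = t ^ 99 := by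
      rw [hNt, pow_succ t 99, mul_div_assoc, div_self ht0.ne', mul_one]
    have h4 : t ^ 99 = t ^ 98 * t := pow_succ t 98
    have h5 : 1 ≤ t ^ 98 := one_le_pow₀ ht1
    rw [h3] at h2
    nlinarith only [ht10, h1, h2, h5]
  have hHpos : (0 : ℝ) < H := lt_of_lt_of_le (by positivity) hHge
  have hHle' : H ≤ N := by exact_mod_cast hHle
  -- x
  have hx0 : 1 ≤ x := by omega
  -- w
  obtain ⟨w, hw⟩ : ∃ w, w = zz y J1 := ⟨_, rfl⟩
  rw [← hw] at hl3 hl4
  have hwt : (w : ℝ) ≤ 4 * t ^ 50 := by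
    have h1 : ((w : ℝ)) ^ 2 ≤ 16 * N := by exact_mod_cast hl4
    have h2 : ((w : ℝ)) ^ 2 ≤ (4 * t ^ 50) ^ 2 := by
      rw [mul_pow, ← pow_mul]
      norm_num
      rw [← hNt]
      exact h1
    exact (pow_le_pow_iff_left₀ (by positivity) (by positivity) two_ne_zero).mp h2
  have hε0 : 0 ≤ 1 / 1000 / Real.log N := by positivity
  -- the sieve at (x, x + H]
  have hq : (N : ℝ) ^ (1 / 4 : ℝ) = t ^ 25 := DensY_pow ht (1 / 4) 25 (by norm_num)
  have hHq : (N : ℝ) ^ (1 / 4 : ℝ) ≤ H := by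
    rw [hq]
    exact (pow_le_pow_right₀ ht1 (by norm_num)).trans hHge
  have hs0 := hsv x H hx0 (by omega) hHq
  obtain ⟨R, hR⟩ : ∃ R : ℝ, R = ∑ m ∈ Ioc x (x + H), rg y m := ⟨_, rfl⟩
  rw [← hR] at hs0
  obtain ⟨hs1, hs2⟩ := hs0
  rw [abs_le] at hs1 hs2
  have hR0 : 0 ≤ R := by
    rw [hR]
    exact sum_nonneg fun m _ => DensY_rg_nonneg y m
  obtain ⟨ε, hε⟩ : ∃ ε : ℝ, ε = 1 / 1000 / Real.log N := ⟨_, rfl⟩
  have hεH : 1 / 1000 * (H : ℝ) / Real.log N = ε * H := by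
    rw [hε]
    ring
  rw [hεH] at hs1 hs2
  rw [← hε] at hε0
  have hkS0 : -ε ≤ kS := by
    have h1 : -ε * H ≤ kS * H := by linarith only [hR0, hs1, hs1.1]
    exact le_of_mul_le_mul_right h1 hHpos
  -- the fibres
  obtain ⟨P, hP⟩ : ∃ P : Finset ℕ, P = PY (zz y J) w := ⟨_, rfl⟩
  have hPw : ∀ p ∈ P, p ≤ w ∧ p.Prime := by
    intro p hp
    rw [hP] at hp
    unfold PY at hp
    rw [mem_filter, mem_Ioc] at hp
    exact ⟨hp.1.2, hp.2⟩
  have hcard : (P.card : ℝ) ≤ w := by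
    have h1 : P.card ≤ w := by
      rw [hP]
      unfold PY
      refine (card_filter_le _ _).trans ?_
      rw [Nat.card_Ioc]
      omega
    exact_mod_cast h1
  have hWP : W12 y J J1 = ∑ p ∈ P, 1 / (p : ℝ) := by
    unfold W12
    rw [hP, hw]
  have hfib : ∀ p ∈ P, kS * ((H : ℝ) / p) - 1 - ε * ((H : ℝ) / p + 1) ≤ ∑ k ∈ Ioc (x / p) ((x + H) / p), rg y k := by
    intro p hp
    obtain ⟨hpw, hpp⟩ := hPw p hp
    have hp0 : (0 : ℝ) < p := by exact_mod_cast hpp.pos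
    have hpw' : (p : ℝ) ≤ 4 * t ^ 50 := le_trans (by exact_mod_cast hpw) hwt
    obtain ⟨l, hl, hla, hlb⟩ := DensY_len x H hpp.pos
    have hHp : 2 * t ^ 25 ≤ (H : ℝ) / p := by
      rw [le_div_iff₀ hp0]
      have h1 : t ^ 98 = t ^ 23 * (t ^ 25 * t ^ 50) := by
        rw [← pow_add, ← pow_add]
      have h2 : (8 : ℝ) ≤ t ^ 23 := by
        have : t ^ 1 ≤ t ^ 23 := pow_le_pow_right₀ ht1 (by norm_num)
        rw [pow_one] at this
        linarith only [ht10, this]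
      have h3 : 2 * t ^ 25 * p ≤ 2 * t ^ 25 * (4 * t ^ 50) := mul_le_mul_of_nonneg_left hpw' (by positivity)
      have h4 : 8 * (t ^ 25 * t ^ 50) ≤ t ^ 23 * (t ^ 25 * t ^ 50) := mul_le_mul_of_nonneg_right h2 (by positivity)
      linarith only [hHge, h3, h4]
    have ht25 : 1 ≤ t ^ 25 := one_le_pow₀ ht1
    have hlq : (N : ℝ) ^ (1 / 4 : ℝ) ≤ l := by
      rw [hq]
      linarith only [hla, hHp, ht25]
    have hxp : 1 ≤ x / p := by
      rw [Nat.one_le_div_iff hpp.pos]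
      have h1 : (p : ℝ) ≤ x := by
        have h2 : (N : ℝ) ≤ 8 * x := by exact_mod_cast hx1
        have h3 : t ^ 100 = t ^ 50 * t ^ 50 := by rw [← pow_add]
        have h4 : (32 : ℝ) ≤ t ^ 50 := by
          have : t ^ 2 ≤ t ^ 50 := pow_le_pow_right₀ ht1 (by norm_num)
          nlinarith only [ht10, this]
        have h5 : 32 * t ^ 50 ≤ t ^ 50 * t ^ 50 := mul_le_mul_of_nonneg_right h4 (by positivity)
        rw [hNt, h3] at h2
        linarith only [hpw', h2, h5]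
      exact_mod_cast h1
    have hxp2 : x / p ≤ 16 * N := (Nat.div_le_self _ _).trans (by omega)
    have h1 := (hsv (x / p) l hxp hxp2 hlq).1
    rw [← hl, abs_le] at h1
    have h2 : 1 / 1000 * (l : ℝ) / Real.log N = ε * l := by
      rw [hε]
      ring
    rw [h2] at h1
    have h3 : |kS * ((l : ℝ) - H / p)| ≤ 1 := by
      rw [abs_mul]
      have h4 : |(l : ℝ) - H / p| ≤ 1 := by
        rw [abs_le]
        constructor <;> linarith only [hla, hlb]
      calc |kS| * |(l : ℝ) - H / p| ≤ 1 * 1 := mul_le_mul hkS h4 (abs_nonneg _) zero_le_one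
        _ = 1 := one_mul 1
    have h5 := (abs_le.mp h3).1
    have h6 : ε * l ≤ ε * ((H : ℝ) / p + 1) := mul_le_mul_of_nonneg_left hlb hε0
    have h7 : kS * ((l : ℝ) - H / p) = kS * l - kS * (H / p) := by ring
    rw [h7] at h5
    linarith only [h1, h5, h6, h1.2]
  have hsum : kS * (H * W12 y J J1) - P.card - ε * (H * W12 y J J1 + P.card) ≤ ∑ m ∈ Ioc x (x + H), (om y J J1 m : ℝ) * rg y m := by
    rw [DensY_count, ← hw, ← hP]
    refine le_trans (le_of_eq ?_) (sum_le_sum hfib)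
    rw [sum_sub_distrib, sum_sub_distrib, ← mul_sum, ← mul_sum, sum_add_distrib, hWP, mul_sum]
    have e1 : ∑ p ∈ P, (H : ℝ) * (1 / (p : ℝ)) = ∑ p ∈ P, (H : ℝ) / p := sum_congr rfl fun p _ => by ring
    rw [e1]
    simp
  obtain ⟨O, hO⟩ : ∃ O : ℝ, O = ∑ m ∈ Ioc x (x + H), (om y J J1 m : ℝ) * rg y m := ⟨_, rfl⟩
  rw [← hO] at hsum
  obtain ⟨Bs, hBs⟩ : ∃ Bs : ℝ, Bs = ∑ m ∈ Ioc x (x + H), Bx y J J1 m := ⟨_, rfl⟩
  have hgX : gam (gX y J J1) H x = (R - O - Bs) / H := by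
    unfold gam
    congr 1
    rw [hR, hO, hBs, ← sum_sub_distrib, ← sum_sub_distrib]
    refine sum_congr rfl fun m hm => ?_
    rw [mem_Ioc] at hm
    exact DensY_gX y J J1 (by omega)
  have hgB : gam (Bx y J J1) H x = Bs / H := by
    unfold gam
    rw [hBs]
  rw [hgX, hgB]
  -- the error terms
  have hwH : (P.card : ℝ) ≤ ε * H := by
    have h1 : (w : ℝ) * (1000 * Real.log N) ≤ 4 * t ^ 50 * (1000 * t) :=
      mul_le_mul hwt (mul_le_mul_of_nonneg_left hlog (by norm_num)) (by positivity) (by positivity)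
    have h2 : 4 * t ^ 50 * (1000 * t) ≤ t ^ 98 := by
      have h3 : t ^ 98 = t ^ 47 * (t ^ 50 * t) := by
        rw [← pow_succ, ← pow_add]
      have h4 : (4000 : ℝ) ≤ t ^ 47 := by
        have h5 : (10 : ℝ) ^ 4 ≤ t ^ 4 := pow_le_pow_left₀ (by norm_num) ht10 4
        have h6 : t ^ 4 ≤ t ^ 47 := pow_le_pow_right₀ ht1 (by norm_num)
        have h7 : (4000 : ℝ) ≤ 10 ^ 4 := by norm_num
        exact h7.trans (h5.trans h6)
      have h5 : 4000 * (t ^ 50 * t) ≤ t ^ 47 * (t ^ 50 * t) := mul_le_mul_of_nonneg_right h4 (by positivity)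
      linarith only [h5]
    have h3 : (w : ℝ) * (1000 * Real.log N) ≤ H := by linarith only [hHge, h1, h2]
    have h4 : ε * H = H / (1000 * Real.log N) := by
      rw [hε]
      field_simp
    rw [h4, le_div_iff₀ (by positivity)]
    exact le_trans (mul_le_mul_of_nonneg_right hcard (by positivity)) h3
  have hε1 : ε ≤ 1 / 1000 := by
    rw [hε]
    exact div_le_self (by norm_num) hlog1
  have hc0 : (0 : ℝ) ≤ P.card := Nat.cast_nonneg _
  have hcH : (P.card : ℝ) ≤ H := by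
    refine hwH.trans ?_
    exact mul_le_of_le_one_left hHpos.le (hε1.trans (by norm_num))
  have hHW : (H : ℝ) * W12 y J J1 ≤ H * 2 := mul_le_mul_of_nonneg_left hW hHpos.le
  have hHW0 : 0 ≤ (H : ℝ) * W12 y J J1 := by positivity
  have herr : ε * (H * W12 y J J1 + P.card) ≤ ε * (3 * H) := mul_le_mul_of_nonneg_left (by linarith only [hcH, hHW]) hε0
  refine ⟨?_, ?_, ?_⟩
  · have h1 : 1 / 100 / Real.log N = 10 * ε := by
      rw [hε]
      ring
    rw [h1, ← sub_nonneg]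
    have h2 : kT - kS * W12 y J J1 - Bs / H - ((R - O - Bs) / H - 10 * ε) =
        (kT * H - kS * (H * W12 y J J1) - R + O + 10 * ε * H) / H := by
      field_simp
      ring
    rw [h2]
    refine div_nonneg ?_ hHpos.le
    have h3 : 0 ≤ ε * H := by positivity
    linarith only [hs2, hsum, hwH, herr, hs2.1]
  · have hBl : -(4 * R) ≤ Bs := by
      rw [hR, hBs, mul_sum, ← sum_neg_distrib]
      refine sum_le_sum fun m hm => ?_
      rw [mem_Ioc] at hm
      refine DensY_Bx (by omega) ?_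
      have h1 : (m : ℝ) ≤ 9 * N := by
        have h2 : m ≤ 9 * N := by omega
        exact_mod_cast h2
      have h3 : t ^ 18 ≤ zz y J := by
        rw [← DensY_pow ht (18 / 100) 18 (by norm_num)]
        exact (Real.rpow_le_rpow_of_exponent_le hN1 (by norm_num)).trans hl1
      have h4 : (t ^ 18) ^ 6 ≤ ((zz y J : ℕ) : ℝ) ^ 6 := pow_le_pow_left₀ (by positivity) h3 6
      have h5 : (t ^ 18) ^ 6 = t ^ 8 * t ^ 100 := by
        rw [← pow_mul, ← pow_add]
      have h6 : (10 : ℝ) ≤ t ^ 8 := by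
        have : t ^ 1 ≤ t ^ 8 := pow_le_pow_right₀ ht1 (by norm_num)
        rw [pow_one] at this
        linarith only [ht10, this]
      have h7 : 10 * t ^ 100 ≤ t ^ 8 * t ^ 100 := mul_le_mul_of_nonneg_right h6 (by positivity)
      have h8 : (m : ℝ) < ((zz y J : ℕ) : ℝ) ^ 6 := by
        rw [← h5, ← hNt] at h7
        linarith only [hN1, h1, h4, h7]
      exact_mod_cast h8
    have hRu : R ≤ 5760 * ((H : ℝ) / 30030 + 1) := by
      rw [hR]
      exact DensY_rough hy x H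
    have hHbig : (10000000 : ℝ) ≤ H := by
      have h1 : (10 : ℝ) ^ 7 ≤ t ^ 7 := pow_le_pow_left₀ (by norm_num) ht10 7
      have h2 : t ^ 7 ≤ t ^ 98 := pow_le_pow_right₀ ht1 (by norm_num)
      have h3 : (10 : ℝ) ^ 7 = 10000000 := by norm_num
      rw [h3] at h1
      exact h1.trans (h2.trans hHge)
    have hkW : -(2 * ε) ≤ kS * W12 y J J1 := by
      have h1 : -ε * W12 y J J1 ≤ kS * W12 y J J1 := mul_le_mul_of_nonneg_right hkS0 hW0
      have h2 : ε * W12 y J J1 ≤ ε * 2 := mul_le_mul_of_nonneg_left hW hε0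
      linarith only [h1, h2]
    have hkTu : kT ≤ R / H + ε := by
      rw [← sub_le_iff_le_add, le_div_iff₀ hHpos]
      linarith only [hs2, hs2.2]
    have hBd : -(4 * (R / H)) ≤ Bs / H := by
      have h1 : -(4 * R) / H ≤ Bs / H := div_le_div_of_nonneg_right hBl hHpos.le
      have h2 : -(4 * R) / H = -(4 * (R / H)) := by ring
      rw [h2] at h1
      exact h1
    have hRd : R / H ≤ 199 / 1000 := by
      rw [div_le_iff₀ hHpos]
      linarith only [hRu, hHbig]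
    linarith only [hε1, hkW, hkTu, hBd, hRd]
  · rw [abs_mul, abs_of_nonneg hW0]
    calc |kS| * W12 y J J1 ≤ 1 * 2 := mul_le_mul hkS hW hW0 zero_le_one
      _ = 2 := one_mul 2

theorem dens_y (e1 : ℝ) (A1 : ℕ) (he1 : 0 < e1) (he2 : e1 ≤ 1 / 1000) : ∃ N0 : ℕ, ∀ N : ℕ, N0 ≤ N → ∀ (J J1 : ℕ) (S T : ℕ → ℝ) (kS kT : ℝ),
    LevX N (yN e1 N) J J1 → SvI N (yN e1 N) (1 / 1000) S T kS kT → ∀ x : ℕ, N ≤ 8 * x → x ≤ 8 * N →
      gam (gX (yN e1 N) J J1) ⌊(N : ℝ) / Real.log N ^ A1⌋₊ x - 1 / 100 / Real.log N ≤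
        kT - kS * W12 (yN e1 N) J J1 - gam (Bx (yN e1 N) J J1) ⌊(N : ℝ) / Real.log N ^ A1⌋₊ x ∧
      kT - kS * W12 (yN e1 N) J J1 - gam (Bx (yN e1 N) J J1) ⌊(N : ℝ) / Real.log N ^ A1⌋₊ x ≤ 1 ∧ |kS * W12 (yN e1 N) J J1| ≤ 2 := by
  obtain ⟨N0, hN0⟩ := DensY_ev e1 A1 he1
  refine ⟨N0, fun N hN J J1 S T kS kT hL hS x hx1 hx2 => ?_⟩
  obtain ⟨a1, a2, a3, a4, a5⟩ := hN0 N hN
  exact DensY_core hL rfl a4 a1 a2 a3 a5 hS hx1 hx2

end Pool.Agent.H43.PX

end

section

/-!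
# PROJECT PX: second moment of `S2` on almost all blocks (`s2_sq`)

For `m ≤ 4N` at most five primes of `(z, w]` divide `m`, hence `S2(m)^2 ≤ 5 ∑_{p | m} S(m/p)^2`; summing over `m ≤ 4N` gives
`≤ 5 ∑_p (4N/p) L^C ≤ N L^(C+2)`, and the blocks are disjoint: Markov's inequality.
-/

set_option autoImplicit false

namespace Pool.Agent.H43.PX

open Finset
open Pool.Agent.H91.PK (ee)
open Pool.Agent.H91.EHA (Lam lamR)
open Pool.Agent.H43.MP (blk Hn idx Rn)
open Pool.Agent.H43.TP (pr)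
open Pool.Agent.H43.TS (badQ)
open Pool.Agent.H76.TP (yN zz rg nu PY Adm)
open Pool.Agent.H91.TQ (om)

/-- few large primes divide a number -/
private theorem s2s_card {z w m K : ℕ} (hm : 1 ≤ m) (hmK : m ≤ K) (hz : K < (z + 1) ^ 6) :
    ((PY z w).filter (fun p => p ∣ m)).card ≤ 5 := by
  by_contra hcon
  have hc : 6 ≤ ((PY z w).filter (fun p => p ∣ m)).card := by omega
  have hdvd : ∏ p ∈ (PY z w).filter (fun p => p ∣ m), p ∣ m := by
    apply Finset.prod_primes_dvd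
    · intro p hp
      rw [Finset.mem_filter] at hp
      have : p ∈ (Ioc z w).filter Nat.Prime := hp.1
      exact (Finset.mem_filter.mp this).2.prime
    · intro p hp
      exact (Finset.mem_filter.mp hp).2
  have hle : ∏ p ∈ (PY z w).filter (fun p => p ∣ m), p ≤ m := Nat.le_of_dvd hm hdvd
  have hge : (z + 1) ^ ((PY z w).filter (fun p => p ∣ m)).card ≤
      ∏ p ∈ (PY z w).filter (fun p => p ∣ m), p := by
    apply Finset.pow_card_le_prod
    intro p hp
    rw [Finset.mem_filter] at hp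
    have h1 : p ∈ (Ioc z w).filter Nat.Prime := hp.1
    have h2 := (Finset.mem_filter.mp h1).1
    rw [Finset.mem_Ioc] at h2
    omega
  have h6 : (z + 1) ^ 6 ≤ (z + 1) ^ ((PY z w).filter (fun p => p ∣ m)).card :=
    Nat.pow_le_pow_right (by omega) hc
  omega

/-- Cauchy -/
private theorem s2s_cauchy {S : ℕ → ℝ} {y J J1 m K : ℕ} (hm : 1 ≤ m) (hmK : m ≤ K) (hz : K < (zz y J + 1) ^ 6) :
    S2 S y J J1 m ^ 2 ≤ 5 * ∑ p ∈ (PY (zz y J) (zz y J1)).filter (fun p => p ∣ m), S (m / p) ^ 2 := by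
  unfold S2
  have h1 := sq_sum_le_card_mul_sum_sq (s := (PY (zz y J) (zz y J1)).filter (fun p => p ∣ m))
    (f := fun p => S (m / p))
  have h2 : (((PY (zz y J) (zz y J1)).filter (fun p => p ∣ m)).card : ℝ) ≤ 5 := by
    exact_mod_cast s2s_card (w := zz y J1) hm hmK hz
  have h3 : 0 ≤ ∑ p ∈ (PY (zz y J) (zz y J1)).filter (fun p => p ∣ m), S (m / p) ^ 2 :=
    Finset.sum_nonneg fun _ _ => sq_nonneg _
  calc (∑ p ∈ (PY (zz y J) (zz y J1)).filter (fun p => p ∣ m), S (m / p)) ^ 2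
      ≤ (((PY (zz y J) (zz y J1)).filter (fun p => p ∣ m)).card : ℝ) *
        ∑ p ∈ (PY (zz y J) (zz y J1)).filter (fun p => p ∣ m), S (m / p) ^ 2 := h1
    _ ≤ _ := mul_le_mul_of_nonneg_right h2 h3

/-- exchange of the summations -/
private theorem s2s_swap (f : ℕ → ℝ) (P : Finset ℕ) (hP : ∀ p ∈ P, 1 ≤ p) (K : ℕ) :
    ∑ m ∈ Icc 1 K, ∑ p ∈ P.filter (fun p => p ∣ m), f (m / p) = ∑ p ∈ P, ∑ k ∈ Icc 1 (K / p), f k := by
  have h1 : ∀ m ∈ Icc 1 K, ∑ p ∈ P.filter (fun p => p ∣ m), f (m / p) =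
      ∑ p ∈ P, if p ∣ m then f (m / p) else 0 := fun m _ => Finset.sum_filter _ _
  rw [Finset.sum_congr rfl h1, Finset.sum_comm]
  apply Finset.sum_congr rfl
  intro p hp
  have hp1 := hP p hp
  rw [← Finset.sum_filter]
  symm
  apply Finset.sum_nbij' (i := fun k => p * k) (j := fun m => m / p)
  · intro k hk
    rw [Finset.mem_Icc] at hk
    rw [Finset.mem_filter, Finset.mem_Icc]
    refine ⟨⟨?_, ?_⟩, Dvd.intro k rfl⟩
    · exact Nat.mul_pos hp1 hk.1
    · calc p * k ≤ p * (K / p) := Nat.mul_le_mul_left p hk.2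
        _ ≤ K := Nat.mul_div_le K p
  · intro m hm
    rw [Finset.mem_filter, Finset.mem_Icc] at hm
    rw [Finset.mem_Icc]
    refine ⟨?_, Nat.div_le_div_right hm.1.2⟩
    exact Nat.div_pos (Nat.le_of_dvd hm.1.1 hm.2) hp1
  · intro k _
    exact Nat.mul_div_cancel_left k hp1
  · intro m hm
    rw [Finset.mem_filter] at hm
    exact Nat.mul_div_cancel' hm.2
  · intro k _
    show f k = f (p * k / p)
    rw [Nat.mul_div_cancel_left k hp1]

/-- harmonic sums -/
private theorem s2s_harm (z w : ℕ) : ∑ p ∈ PY z w, 1 / (p : ℝ) ≤ 1 + Real.log w := by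
  have h1 : ∑ p ∈ PY z w, 1 / (p : ℝ) ≤ ∑ n ∈ Icc 1 w, 1 / (n : ℝ) := by
    apply Finset.sum_le_sum_of_subset_of_nonneg
    · intro p hp
      have h1 : p ∈ (Ioc z w).filter Nat.Prime := hp
      have h2 := Finset.mem_filter.mp h1
      rw [Finset.mem_Ioc] at h2
      rw [Finset.mem_Icc]
      exact ⟨h2.2.one_le, h2.1.2⟩
    · intro i _ _
      positivity
  have h2 : ∑ n ∈ Icc 1 w, 1 / (n : ℝ) = ((harmonic w : ℚ) : ℝ) := by
    rw [harmonic_eq_sum_Icc]
    push_cast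
    apply Finset.sum_congr rfl
    intro n _
    rw [one_div]
  rw [h2] at h1
  exact h1.trans (harmonic_le_one_add_log w)

/-- the sum over the blocks -/
private theorem s2s_blocks (F : ℕ → ℝ) (hF : ∀ m, 0 ≤ F m) (N H : ℕ) (hH : 1 ≤ H) (hHN : 2 * H ≤ N)
    (T : Finset ℕ) (hT : T ⊆ idx N H) : ∑ i ∈ T, ∑ m ∈ blk H i, F m ≤ ∑ m ∈ Icc 1 (4 * N), F m := by
  rw [← Finset.sum_biUnion]
  · apply Finset.sum_le_sum_of_subset_of_nonneg
    · intro m hm
      rw [Finset.mem_biUnion] at hm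
      obtain ⟨i, hi, hm⟩ := hm
      have hi := hT hi
      unfold idx at hi
      unfold blk at hm
      rw [Finset.mem_Icc] at hi
      rw [Finset.mem_Ico] at hm
      rw [Finset.mem_Icc]
      constructor
      · have h1 : 1 ≤ N / (2 * H) := Nat.div_pos hHN (by omega)
        have h2 : 1 * 1 ≤ i * H := Nat.mul_le_mul (h1.trans hi.1) hH
        omega
      · have h1 : i * H ≤ 3 * N := by
          calc i * H ≤ (3 * N / H) * H := Nat.mul_le_mul_right H hi.2
            _ ≤ 3 * N := Nat.div_mul_le_self _ _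
        have h2 : (i + 1) * H = i * H + H := by ring
        omega
    · intro i _ _
      exact hF i
  · intro i _ j _ hij
    show Disjoint (blk H i) (blk H j)
    rw [Finset.disjoint_left]
    intro m hi hj
    unfold blk at hi hj
    rw [Finset.mem_Ico] at hi hj
    apply hij
    rcases Nat.lt_trichotomy i j with h | h | h
    · exfalso
      have : (i + 1) * H ≤ j * H := Nat.mul_le_mul_right H h
      omega
    · exact h
    · exfalso
      have : (j + 1) * H ≤ i * H := Nat.mul_le_mul_right H h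
      omega

/-- the total second moment -/
private theorem s2s_total {C N y J J1 : ℕ} {S : ℕ → ℝ} (hN : 1 ≤ N) (hlog : 1 ≤ Real.log N)
    (hlog2 : 20 * (1 + Real.log (4 * N)) ≤ Real.log N ^ 2)
    (hsq : (N : ℝ) ^ (1 / 50 : ℝ) + 1 ≤ Real.sqrt N) (h6 : 4 * N < (zz y J + 1) ^ 6)
    (hw : zz y J1 ^ 2 ≤ 16 * N) (hw4 : 4 * N ≤ zz y J1 ^ 2)
    (hS : ∀ u v : ℕ, 1 ≤ u → (N : ℝ) ^ (1 / 50 : ℝ) ≤ v → ∑ m ∈ Ico u (u + v), S m ^ 2 ≤ v * Real.log N ^ C) :
    ∑ m ∈ Icc 1 (4 * N), S2 S y J J1 m ^ 2 ≤ N * Real.log N ^ (C + 2) := by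
  have hPpos : ∀ p ∈ PY (zz y J) (zz y J1), 1 ≤ p := by
    intro p hp
    have h1 : p ∈ (Ioc (zz y J) (zz y J1)).filter Nat.Prime := hp
    exact (Finset.mem_filter.mp h1).2.one_le
  have hstep1 : ∑ m ∈ Icc 1 (4 * N), S2 S y J J1 m ^ 2 ≤
      5 * ∑ p ∈ PY (zz y J) (zz y J1), ∑ k ∈ Icc 1 (4 * N / p), S k ^ 2 := by
    rw [← s2s_swap (fun k => S k ^ 2) _ hPpos (4 * N), Finset.mul_sum]
    apply Finset.sum_le_sum
    intro m hm
    rw [Finset.mem_Icc] at hm
    exact s2s_cauchy hm.1 hm.2 h6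
  have hNr : (0 : ℝ) ≤ N := Nat.cast_nonneg N
  have hstep2 : ∀ p ∈ PY (zz y J) (zz y J1), ∑ k ∈ Icc 1 (4 * N / p), S k ^ 2 ≤
      4 * N * Real.log N ^ C * (1 / (p : ℝ)) := by
    intro p hp
    have hp1 := hPpos p hp
    have h1 : p ∈ (Ioc (zz y J) (zz y J1)).filter Nat.Prime := hp
    have hpw : p ≤ zz y J1 := (Finset.mem_Ioc.mp (Finset.mem_filter.mp h1).1).2
    have hp2 : p ^ 2 ≤ 16 * N := (Nat.pow_le_pow_left hpw 2).trans hw
    have hppos : (0 : ℝ) < p := by exact_mod_cast hp1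
    have hp3 : (p : ℝ) ≤ 4 * Real.sqrt N := by
      have h2 : ((p : ℝ)) ^ 2 ≤ (4 * Real.sqrt N) ^ 2 := by
        rw [mul_pow, Real.sq_sqrt hNr]
        have : ((p ^ 2 : ℕ) : ℝ) ≤ ((16 * N : ℕ) : ℝ) := by exact_mod_cast hp2
        push_cast at this
        linarith
      exact le_of_sq_le_sq h2 (by positivity)
    have hfl : Real.sqrt N - 1 ≤ ((4 * N / p : ℕ) : ℝ) := by
      have h3 : Real.sqrt N ≤ 4 * N / p := by
        rw [le_div_iff₀ hppos]
        calc Real.sqrt N * p ≤ Real.sqrt N * (4 * Real.sqrt N) :=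
              mul_le_mul_of_nonneg_left hp3 (Real.sqrt_nonneg _)
          _ = 4 * (Real.sqrt N * Real.sqrt N) := by ring
          _ = 4 * N := by rw [Real.mul_self_sqrt hNr]
      have h4 : (4 * N / p : ℝ) < ((4 * N / p : ℕ) : ℝ) + 1 := by
        have h5 := Nat.lt_div_mul_add (a := 4 * N) (b := p) hp1
        have h6 : ((4 * N : ℕ) : ℝ) < ((4 * N / p * p + p : ℕ) : ℝ) := by exact_mod_cast h5
        rw [div_lt_iff₀ hppos]
        push_cast at h6 ⊢
        linarith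
      linarith
    have h7 := hS 1 (4 * N / p) le_rfl (by linarith)
    have h8 : Ico 1 (1 + 4 * N / p) = Icc 1 (4 * N / p) := by
      ext x
      simp only [Finset.mem_Ico, Finset.mem_Icc]
      omega
    rw [h8] at h7
    have h9 : ((4 * N / p : ℕ) : ℝ) ≤ 4 * N / p := by
      have := Nat.cast_div_le (α := ℝ) (m := 4 * N) (n := p)
      push_cast at this
      exact this
    have hL : 0 ≤ Real.log N ^ C := by positivity
    calc ∑ k ∈ Icc 1 (4 * N / p), S k ^ 2 ≤ ((4 * N / p : ℕ) : ℝ) * Real.log N ^ C := h7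
      _ ≤ (4 * N / p) * Real.log N ^ C := mul_le_mul_of_nonneg_right h9 hL
      _ = 4 * N * Real.log N ^ C * (1 / (p : ℝ)) := by ring
  have hz1 : 1 ≤ zz y J1 := by
    rcases Nat.eq_zero_or_pos (zz y J1) with h | h
    · rw [h] at hw4
      omega
    · exact h
  have hwN : (zz y J1 : ℝ) ≤ 4 * N := by
    have h1 : zz y J1 ^ 2 ≤ (4 * N) ^ 2 := by
      calc zz y J1 ^ 2 ≤ 16 * N := hw
        _ ≤ 16 * (N * N) := by
          have := Nat.mul_le_mul_left N hN
          omega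
        _ = (4 * N) ^ 2 := by ring
    have h2 : zz y J1 ≤ 4 * N := (Nat.pow_le_pow_iff_left (by norm_num)).mp h1
    exact_mod_cast h2
  have hstep3 : ∑ p ∈ PY (zz y J) (zz y J1), 1 / (p : ℝ) ≤ 1 + Real.log (4 * N) := by
    refine (s2s_harm _ _).trans ?_
    have : Real.log (zz y J1) ≤ Real.log (4 * N) := Real.log_le_log (by exact_mod_cast hz1) hwN
    linarith
  have hLC : 0 ≤ Real.log N ^ C := by positivity
  calc ∑ m ∈ Icc 1 (4 * N), S2 S y J J1 m ^ 2
      ≤ 5 * ∑ p ∈ PY (zz y J) (zz y J1), ∑ k ∈ Icc 1 (4 * N / p), S k ^ 2 := hstep1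
    _ ≤ 5 * ∑ p ∈ PY (zz y J) (zz y J1), 4 * N * Real.log N ^ C * (1 / (p : ℝ)) :=
        mul_le_mul_of_nonneg_left (Finset.sum_le_sum hstep2) (by norm_num)
    _ = N * Real.log N ^ C * (20 * ∑ p ∈ PY (zz y J) (zz y J1), 1 / (p : ℝ)) := by
        rw [← Finset.mul_sum]
        ring
    _ ≤ N * Real.log N ^ C * (20 * (1 + Real.log (4 * N))) := by
        apply mul_le_mul_of_nonneg_left _ (by positivity)
        linarith
    _ ≤ N * Real.log N ^ C * (Real.log N ^ 2) := mul_le_mul_of_nonneg_left hlog2 (by positivity)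
    _ = N * Real.log N ^ (C + 2) := by rw [pow_add]; ring

/-- large `N` -/
private theorem s2s_ev (θ : ℝ) (h1 : 1 / 10 ≤ θ) (h2 : θ ≤ 1 / 4) : ∃ N0 : ℕ, ∀ N : ℕ, N0 ≤ N →
    1 ≤ N ∧ 1 ≤ Real.log N ∧ 20 * (1 + Real.log (4 * N)) ≤ Real.log N ^ 2 ∧
    (N : ℝ) ^ (1 / 50 : ℝ) + 1 ≤ Real.sqrt N ∧ 4 * (N : ℝ) < ((N : ℝ) ^ (1898 / 10000 : ℝ)) ^ 6 ∧
    1 ≤ Hn θ N ∧ 2 * Hn θ N ≤ N := by
  have e1 : ∀ᶠ N : ℕ in Filter.atTop, (40 : ℝ) ≤ Real.log N :=
    (Real.tendsto_log_atTop.comp tendsto_natCast_atTop_atTop).eventually_ge_atTop 40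
  obtain ⟨N0, h0⟩ := Filter.eventually_atTop.mp e1
  refine ⟨max N0 1, fun N hN => ?_⟩
  have hN1 : 1 ≤ N := (le_max_right _ _).trans hN
  have hlog : (40 : ℝ) ≤ Real.log N := h0 N ((le_max_left _ _).trans hN)
  have hNr : (1 : ℝ) ≤ N := by exact_mod_cast hN1
  have hN0 : (0 : ℝ) < N := by linarith
  have hpow : ∀ t : ℝ, (N : ℝ) ^ t = Real.exp (Real.log N * t) := fun t => Real.rpow_def_of_pos hN0 t
  have h4log : Real.log 4 ≤ 4 - 1 := Real.log_le_sub_one_of_pos (by norm_num)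
  have hexp1 : (2 : ℝ) ≤ Real.exp 1 := by
    have := Real.add_one_le_exp (1 : ℝ)
    linarith
  have hexp2 : (4 : ℝ) ≤ Real.exp 3 := by
    have := Real.add_one_le_exp (3 : ℝ)
    linarith
  have hself : (N : ℝ) = Real.exp (Real.log N) := (Real.exp_log hN0).symm
  refine ⟨hN1, by linarith, ?_, ?_, ?_, ?_, ?_⟩
  · rw [Real.log_mul (by norm_num) (by positivity)]
    nlinarith
  · rw [Real.sqrt_eq_rpow, hpow, hpow]
    have h3 : Real.exp (Real.log N * (1 / 50)) + 1 ≤ 2 * Real.exp (Real.log N * (1 / 50)) := by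
      have : 1 ≤ Real.exp (Real.log N * (1 / 50)) := Real.one_le_exp (by positivity)
      linarith
    have h4 : 2 * Real.exp (Real.log N * (1 / 50)) ≤ Real.exp 1 * Real.exp (Real.log N * (1 / 50)) :=
      mul_le_mul_of_nonneg_right hexp1 (Real.exp_pos _).le
    have h5 : Real.exp 1 * Real.exp (Real.log N * (1 / 50)) ≤ Real.exp (Real.log N * (1 / 2)) := by
      rw [← Real.exp_add]
      apply Real.exp_le_exp.mpr
      linarith
    linarith
  · rw [hpow, ← Real.exp_nat_mul]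
    calc 4 * (N : ℝ) ≤ Real.exp 3 * Real.exp (Real.log N) := by
          rw [← hself]
          exact mul_le_mul_of_nonneg_right hexp2 hN0.le
      _ = Real.exp (3 + Real.log N) := by rw [Real.exp_add]
      _ < Real.exp (((6 : ℕ) : ℝ) * (Real.log N * (1898 / 10000))) := by
          apply Real.exp_lt_exp.mpr
          push_cast
          linarith
  · unfold Hn
    rw [Nat.one_le_floor_iff]
    exact Real.one_le_rpow hNr (by linarith)
  · have h3 : ((Hn θ N : ℕ) : ℝ) ≤ (N : ℝ) ^ θ := Nat.floor_le (by positivity)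
    have h4 : (N : ℝ) ^ θ ≤ (N : ℝ) ^ (1 / 4 : ℝ) := Real.rpow_le_rpow_of_exponent_le hNr h2
    have h5 : 2 * (N : ℝ) ^ (1 / 4 : ℝ) ≤ N := by
      rw [hpow]
      calc 2 * Real.exp (Real.log N * (1 / 4)) ≤ Real.exp 1 * Real.exp (Real.log N * (1 / 4)) :=
            mul_le_mul_of_nonneg_right hexp1 (Real.exp_pos _).le
        _ = Real.exp (1 + Real.log N * (1 / 4)) := by rw [Real.exp_add]
        _ ≤ Real.exp (Real.log N) := Real.exp_le_exp.mpr (by linarith)
        _ = N := Real.exp_log hN0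
    have h6 : 2 * ((Hn θ N : ℕ) : ℝ) ≤ N := by linarith
    exact_mod_cast h6

/-! ROW S2S: second moment of `S2` on almost all blocks -/
theorem s2_sq (θ : ℝ) (h1 : 1 / 10 ≤ θ) (h2 : θ ≤ 1 / 4) (C : ℕ) : ∃ N0 : ℕ, ∀ N : ℕ, N0 ≤ N → ∀ (e1 : ℝ) (J J1 : ℕ) (S : ℕ → ℝ),
    LevX N (yN e1 N) J J1 →
    (∀ u v : ℕ, 1 ≤ u → (N : ℝ) ^ (1 / 50 : ℝ) ≤ v → ∑ m ∈ Ico u (u + v), S m ^ 2 ≤ v * Real.log N ^ C) → ∀ A0 : ℕ,
      (((idx N (Hn θ N)).filter (fun i => (Hn θ N : ℝ) * Real.log N ^ (C + 2 + A0) <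
        ∑ m ∈ blk (Hn θ N) i, S2 S (yN e1 N) J J1 m ^ 2)).card : ℝ) ≤ (N : ℝ) / (Hn θ N) / Real.log N ^ A0 := by
  obtain ⟨N0, hN0⟩ := s2s_ev θ h1 h2
  refine ⟨N0, fun N hN e1 J J1 S hlev hS A0 => ?_⟩
  obtain ⟨hN1, hlog, hlog2, hsq, h6, hH1, hHN⟩ := hN0 N hN
  obtain ⟨_, hz1, _, hw4, hw16⟩ := hlev
  have hz6 : 4 * N < (zz (yN e1 N) J + 1) ^ 6 := by
    have h3 : ((N : ℝ) ^ (1898 / 10000 : ℝ)) ^ 6 ≤ ((zz (yN e1 N) J : ℝ) + 1) ^ 6 := by
      apply pow_le_pow_left₀ (by positivity)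
      linarith
    have h4 : 4 * (N : ℝ) < ((zz (yN e1 N) J : ℝ) + 1) ^ 6 := lt_of_lt_of_le h6 h3
    exact_mod_cast h4
  have htot := s2s_total hN1 hlog hlog2 hsq hz6 hw16 hw4 hS
  set bad := (idx N (Hn θ N)).filter (fun i => (Hn θ N : ℝ) * Real.log N ^ (C + 2 + A0) <
        ∑ m ∈ blk (Hn θ N) i, S2 S (yN e1 N) J J1 m ^ 2) with hbad
  have hsum := s2s_blocks (fun m => S2 S (yN e1 N) J J1 m ^ 2) (fun m => sq_nonneg _) N (Hn θ N) hH1 hHN bad
    (Finset.filter_subset _ _)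
  have hlow : (bad.card : ℝ) * ((Hn θ N : ℝ) * Real.log N ^ (C + 2 + A0)) ≤
      ∑ i ∈ bad, ∑ m ∈ blk (Hn θ N) i, S2 S (yN e1 N) J J1 m ^ 2 := by
    rw [← nsmul_eq_mul]
    apply Finset.card_nsmul_le_sum
    intro i hi
    rw [hbad, Finset.mem_filter] at hi
    exact hi.2.le
  have hL : (0 : ℝ) < Real.log N := by linarith
  have hHr : (0 : ℝ) < (Hn θ N : ℝ) := by exact_mod_cast hH1
  have hall : (bad.card : ℝ) * ((Hn θ N : ℝ) * Real.log N ^ (C + 2 + A0)) ≤ N * Real.log N ^ (C + 2) :=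
    hlow.trans (hsum.trans htot)
  rw [div_div, le_div_iff₀ (by positivity)]
  have hLC : (0 : ℝ) < Real.log N ^ (C + 2) := by positivity
  have h7 : (bad.card : ℝ) * ((Hn θ N : ℝ) * Real.log N ^ A0) * Real.log N ^ (C + 2) ≤ N * Real.log N ^ (C + 2) := by
    calc (bad.card : ℝ) * ((Hn θ N : ℝ) * Real.log N ^ A0) * Real.log N ^ (C + 2)
        = (bad.card : ℝ) * ((Hn θ N : ℝ) * Real.log N ^ (C + 2 + A0)) := by
          rw [pow_add (Real.log N) (C + 2) A0]
          ring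
      _ ≤ _ := hall
  exact le_of_mul_le_mul_right h7 hLC

end Pool.Agent.H43.PX

end

section

/-!
# PX Lev: existence of the levels

`J` is the largest exponent with `2^J y ≤ N^0.1899`, `J1` the least one with `(2^J1 y)² ≥ 4 N`.
-/

set_option autoImplicit false

namespace Pool.Agent.H43.PX

open Finset
open Pool.Agent.H91.PK (ee)
open Pool.Agent.H91.EHA (Lam lamR)
open Pool.Agent.H43.MP (blk Hn idx Rn)
open Pool.Agent.H43.TP (pr)
open Pool.Agent.H43.TS (badQ)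
open Pool.Agent.H76.TP (yN zz rg nu PY Adm)
open Pool.Agent.H91.TQ (om)

private theorem Lev_ex {y : ℕ} (hy : 1 ≤ y) (b : ℝ) : ∃ J : ℕ, b < ((2 ^ (J + 1) * y : ℕ) : ℝ) := by
  obtain ⟨n, hn⟩ := exists_nat_gt b
  refine ⟨n, lt_of_lt_of_le hn ?_⟩
  have h1 : n < 2 ^ n := Nat.lt_two_pow_self
  have h2 : 2 ^ n ≤ 2 ^ (n + 1) * y := by
    calc 2 ^ n = 2 ^ n * 1 := (mul_one _).symm
      _ ≤ 2 ^ (n + 1) * y := Nat.mul_le_mul (Nat.pow_le_pow_right (by norm_num) (by omega)) hy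
  exact_mod_cast (h1.le.trans h2)

private theorem Lev_ex2 {y : ℕ} (hy : 1 ≤ y) (N : ℕ) : ∃ J : ℕ, 4 * N ≤ (2 ^ J * y) ^ 2 := by
  refine ⟨4 * N, ?_⟩
  have h1 : 4 * N < 2 ^ (4 * N) := Nat.lt_two_pow_self
  have h2 : 2 ^ (4 * N) ≤ 2 ^ (4 * N) * y := Nat.le_mul_of_pos_right _ hy
  have h3 : 1 ≤ 2 ^ (4 * N) * y := by
    have : 0 < 2 ^ (4 * N) := by positivity
    omega
  calc 4 * N ≤ 2 ^ (4 * N) * y := h1.le.trans h2
    _ = (2 ^ (4 * N) * y) * 1 := (mul_one _).symm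
    _ ≤ (2 ^ (4 * N) * y) * (2 ^ (4 * N) * y) := Nat.mul_le_mul_left _ h3
    _ = (2 ^ (4 * N) * y) ^ 2 := (sq _).symm

theorem lev_x (e1 : ℝ) (he1 : 0 < e1) (he2 : e1 ≤ 1 / 1000) : ∃ N0 : ℕ, ∀ N : ℕ, N0 ≤ N → ∃ J J1 : ℕ, LevX N (yN e1 N) J J1 := by
  have ht : Filter.Tendsto (fun N : ℕ => (N : ℝ) ^ (1 / 10000 : ℝ)) Filter.atTop Filter.atTop :=
    (tendsto_rpow_atTop (by norm_num : (0 : ℝ) < 1 / 10000)).comp tendsto_natCast_atTop_atTop
  obtain ⟨N0, hN0⟩ := Filter.eventually_atTop.mp (ht.eventually_ge_atTop 2)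
  refine ⟨N0 + 1, fun N hN => ?_⟩
  have hN1 : 1 ≤ N := by omega
  have hNR : (1 : ℝ) ≤ N := by exact_mod_cast hN1
  have hNp : (0 : ℝ) < N := by linarith
  have h2 : (2 : ℝ) ≤ (N : ℝ) ^ (1 / 10000 : ℝ) := hN0 N (by omega)
  set y : ℕ := yN e1 N with hyd
  have hy1 : 1 ≤ y := by
    rw [hyd]
    unfold yN
    rw [Nat.one_le_floor_iff]
    exact Real.one_le_rpow hNR he1.le
  have hyle : (y : ℝ) ≤ (N : ℝ) ^ e1 := by
    rw [hyd]
    unfold yN
    exact Nat.floor_le (Real.rpow_nonneg hNp.le _)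
  set b : ℝ := (N : ℝ) ^ (1899 / 10000 : ℝ) with hb
  have hyb : (y : ℝ) ≤ b := hyle.trans (Real.rpow_le_rpow_of_exponent_le hNR (by linarith))
  have hab : 2 * (N : ℝ) ^ (1898 / 10000 : ℝ) ≤ b := by
    have h3 : b = (N : ℝ) ^ (1 / 10000 : ℝ) * (N : ℝ) ^ (1898 / 10000 : ℝ) := by
      rw [hb, ← Real.rpow_add hNp]
      norm_num
    rw [h3]
    exact mul_le_mul_of_nonneg_right h2 (Real.rpow_nonneg hNp.le _)
  have hb2 : b ^ 2 ≤ N := by
    have h3 : b ^ 2 = (N : ℝ) ^ (1899 / 5000 : ℝ) := by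
      rw [hb, ← Real.rpow_natCast, ← Real.rpow_mul hNp.le]
      norm_num
    rw [h3]
    calc (N : ℝ) ^ (1899 / 5000 : ℝ) ≤ (N : ℝ) ^ (1 : ℝ) := Real.rpow_le_rpow_of_exponent_le hNR (by norm_num)
      _ = N := Real.rpow_one _
  have hbn : 0 ≤ b := Real.rpow_nonneg hNp.le _
  classical
  have hex := Lev_ex hy1 b
  have hex2 := Lev_ex2 hy1 N
  have hJs : b < ((2 ^ (Nat.find hex + 1) * y : ℕ) : ℝ) := Nat.find_spec hex
  have hJ1s : 4 * N ≤ (2 ^ (Nat.find hex2) * y) ^ 2 := Nat.find_spec hex2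
  have hJle : ((2 ^ (Nat.find hex) * y : ℕ) : ℝ) ≤ b := by
    rcases Nat.eq_zero_or_pos (Nat.find hex) with h0 | h0
    · rw [h0, pow_zero, one_mul]
      exact hyb
    · have h3 := Nat.find_min hex (m := Nat.find hex - 1) (by omega)
      rw [not_lt, Nat.sub_add_cancel h0] at h3
      exact h3
  refine ⟨Nat.find hex, Nat.find hex2, ?_, ?_, ?_, ?_, ?_⟩
  · by_contra hlt
    rw [not_le] at hlt
    have h3 : 2 ^ (Nat.find hex2) * y ≤ 2 ^ (Nat.find hex) * y :=
      Nat.mul_le_mul_right _ (Nat.pow_le_pow_right (by norm_num) hlt.le)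
    have h4 : ((2 ^ (Nat.find hex2) * y : ℕ) : ℝ) ≤ b := le_trans (by exact_mod_cast h3) hJle
    have h5 : ((2 ^ (Nat.find hex2) * y : ℕ) : ℝ) ^ 2 ≤ N := le_trans (pow_le_pow_left₀ (by positivity) h4 2) hb2
    have h6 : (2 ^ (Nat.find hex2) * y) ^ 2 ≤ N := by exact_mod_cast h5
    omega
  · unfold zz
    have h3 : ((2 ^ (Nat.find hex + 1) * y : ℕ) : ℝ) = 2 * ((2 ^ (Nat.find hex) * y : ℕ) : ℝ) := by
      push_cast
      ring
    rw [h3] at hJs
    linarith
  · unfold zz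
    exact hJle
  · unfold zz
    exact hJ1s
  · unfold zz
    rcases Nat.eq_zero_or_pos (Nat.find hex2) with h0 | h0
    · rw [h0, pow_zero, one_mul]
      have h3 : (y : ℝ) ^ 2 ≤ N := le_trans (pow_le_pow_left₀ (by positivity) hyb 2) hb2
      have h4 : y ^ 2 ≤ N := by exact_mod_cast h3
      omega
    · have h3 := Nat.find_min hex2 (m := Nat.find hex2 - 1) (by omega)
      rw [not_le] at h3
      have h4 : 2 ^ (Nat.find hex2) = 2 * 2 ^ (Nat.find hex2 - 1) := by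
        rw [← pow_succ', Nat.sub_add_cancel h0]
      have h5 : (2 ^ (Nat.find hex2) * y) ^ 2 = 4 * (2 ^ (Nat.find hex2 - 1) * y) ^ 2 := by
        rw [h4]
        ring
      rw [h5]
      omega

end Pool.Agent.H43.PX

end

section

/-!
# PX Cub: a divisor-type sum

`∑_{t ≤ D squarefree} k^ω(t) / t ≤ (1 + log D)^k` by induction on `k` (`(k+1)^ω(n) = ∑_{d ∣ n} k^ω(d)` for squarefree `n`), so the inner
sum is at most `3^ω(s) / s * (1 + log D)^3`, and the outer sum is at most `(1 + log D)^6 ∑_s 9^ω(s) / s ≤ (1 + log D)^15`.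
-/

set_option autoImplicit false

namespace Pool.Agent.H43.PX

open Finset

/-- the squarefree integers up to `D` -/
private def cubE (D : ℕ) : Finset ℕ := (Icc 1 D).filter Squarefree

private theorem cub_img (D s : ℕ) (hs : 1 ≤ s) (G : ℕ → ℝ) (hG : ∀ e ∈ cubE D, 0 ≤ G (s * e)) :
    ∑ r ∈ (Icc 1 D).filter (fun r => s ∣ r ∧ Squarefree r), G r ≤ ∑ e ∈ cubE D, G (s * e) := by
  have hinj : Set.InjOn (fun e => s * e) (cubE D : Set ℕ) := by
    intro a _ b _ hab
    exact Nat.eq_of_mul_eq_mul_left (by omega) hab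
  rw [← Finset.sum_image (f := G) hinj]
  refine Finset.sum_le_sum_of_subset_of_nonneg ?_ ?_
  · intro r hr
    rw [mem_filter, mem_Icc] at hr
    obtain ⟨⟨h1, h2⟩, ⟨e, rfl⟩, h3⟩ := hr
    rw [mem_image]
    refine ⟨e, ?_, rfl⟩
    unfold cubE
    rw [mem_filter, mem_Icc]
    have h4 : e ≠ 0 := by
      rintro rfl
      omega
    refine ⟨⟨by omega, ?_⟩, h3.squarefree_of_dvd (dvd_mul_left _ _)⟩
    calc e = 1 * e := (one_mul e).symm
      _ ≤ s * e := Nat.mul_le_mul_right _ hs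
      _ ≤ D := h2
  · intro r hr _
    rw [mem_image] at hr
    obtain ⟨e, he, rfl⟩ := hr
    exact hG e he

/-- `k ^ ω(n)` as an arithmetic function -/
private noncomputable def cubF (k : ℝ) : ArithmeticFunction ℝ where
  toFun n := if n = 0 then 0 else k ^ n.primeFactors.card
  map_zero' := if_pos rfl

private theorem cubF_apply (k : ℝ) {n : ℕ} (hn : n ≠ 0) : cubF k n = k ^ n.primeFactors.card :=
  if_neg hn

private theorem cubF_mult (k : ℝ) : (cubF k).IsMultiplicative := by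
  refine ArithmeticFunction.IsMultiplicative.iff_ne_zero.mpr ⟨?_, fun {m n} hm hn h => ?_⟩
  · rw [cubF_apply k one_ne_zero]
    simp
  · rw [cubF_apply k hm, cubF_apply k hn, cubF_apply k (mul_ne_zero hm hn), h.primeFactors_mul,
      Finset.card_union_of_disjoint h.disjoint_primeFactors, pow_add]

private theorem cub_pow (k : ℝ) {n : ℕ} (hn : Squarefree n) :
    (1 + k) ^ n.primeFactors.card = ∑ d ∈ n.divisors, k ^ d.primeFactors.card := by
  have h1 := (cubF_mult k).prodPrimeFactors_one_add_of_squarefree hn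
  have h2 : ∏ p ∈ n.primeFactors, (1 + cubF k p) = (1 + k) ^ n.primeFactors.card := by
    rw [Finset.prod_congr rfl (g := fun _ => 1 + k), Finset.prod_const]
    intro p hp
    have hp' := Nat.prime_of_mem_primeFactors hp
    rw [cubF_apply k hp'.ne_zero, hp'.primeFactors, Finset.card_singleton, pow_one]
  rw [← h2, h1]
  refine Finset.sum_congr rfl fun d hd => cubF_apply k ?_
  exact (Nat.pos_of_mem_divisors hd).ne'

private theorem cub_harm (D : ℕ) : ∑ e ∈ Icc 1 D, 1 / (e : ℝ) ≤ 1 + Real.log D := by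
  have h := harmonic_le_one_add_log D
  rw [harmonic_eq_sum_Icc] at h
  push_cast at h
  simpa [one_div] using h

private theorem cub_A (D : ℕ) (hD : 1 ≤ D) (k : ℕ) :
    ∑ t ∈ cubE D, (k : ℝ) ^ t.primeFactors.card / t ≤ (1 + Real.log D) ^ k := by
  have hl : 0 ≤ Real.log D := Real.log_nonneg (by exact_mod_cast hD)
  induction k with
  | zero =>
    rw [pow_zero]
    calc ∑ t ∈ cubE D, ((0 : ℕ) : ℝ) ^ t.primeFactors.card / t
        ≤ ∑ t ∈ ({1} : Finset ℕ), ((0 : ℕ) : ℝ) ^ t.primeFactors.card / t := by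
          refine le_of_eq (Finset.sum_subset_zero_on_sdiff ?_ ?_ ?_).symm
          · intro t ht
            rw [mem_singleton] at ht
            subst ht
            unfold cubE
            rw [mem_filter, mem_Icc]
            exact ⟨⟨le_rfl, hD⟩, squarefree_one⟩
          · intro t ht
            rw [mem_sdiff, mem_singleton] at ht
            obtain ⟨h1, h2⟩ := ht
            unfold cubE at h1
            rw [mem_filter, mem_Icc] at h1
            have h3 : t.primeFactors.card ≠ 0 := by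
              rw [Ne, Finset.card_eq_zero, Nat.primeFactors_eq_empty]
              omega
            rw [Nat.cast_zero, zero_pow h3, zero_div]
          · intro t _
            rfl
      _ = 1 := by simp
  | succ k ih =>
    have e1 : ∀ n ∈ cubE D, ((k + 1 : ℕ) : ℝ) ^ n.primeFactors.card / n =
        ∑ d ∈ cubE D, if d ∣ n then (k : ℝ) ^ d.primeFactors.card / n else 0 := by
      intro n hn
      unfold cubE at hn
      rw [mem_filter, mem_Icc] at hn
      obtain ⟨⟨h1, h2⟩, h3⟩ := hn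
      have h4 := cub_pow (k : ℝ) h3
      push_cast
      rw [add_comm (k : ℝ) 1, h4, Finset.sum_div, ← Finset.sum_filter]
      refine Finset.sum_congr ?_ fun _ _ => rfl
      ext d
      unfold cubE
      rw [Nat.mem_divisors, mem_filter, mem_filter, mem_Icc]
      constructor
      · rintro ⟨h5, h6⟩
        exact ⟨⟨⟨Nat.pos_of_dvd_of_pos h5 h1, (Nat.le_of_dvd h1 h5).trans h2⟩,
          h3.squarefree_of_dvd h5⟩, h5⟩
      · rintro ⟨_, h5⟩
        exact ⟨h5, by omega⟩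
    rw [Finset.sum_congr rfl e1, Finset.sum_comm]
    have e2 : ∀ d ∈ cubE D, (∑ n ∈ cubE D, if d ∣ n then (k : ℝ) ^ d.primeFactors.card / n else 0) ≤
        (k : ℝ) ^ d.primeFactors.card / d * (1 + Real.log D) := by
      intro d hd
      unfold cubE at hd
      rw [mem_filter, mem_Icc] at hd
      have hd0 : (0 : ℝ) < d := by exact_mod_cast hd.1.1
      rw [← Finset.sum_filter]
      have h5 : (cubE D).filter (fun n => d ∣ n) =
          (Icc 1 D).filter (fun r => d ∣ r ∧ Squarefree r) := by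
        ext n
        unfold cubE
        rw [mem_filter, mem_filter, mem_filter]
        tauto
      rw [h5]
      refine (cub_img D d hd.1.1 (fun r => (k : ℝ) ^ d.primeFactors.card / r) (fun e _ => by
        positivity)).trans ?_
      calc ∑ e ∈ cubE D, (k : ℝ) ^ d.primeFactors.card / ((d * e : ℕ) : ℝ)
          ≤ ∑ e ∈ Icc 1 D, (k : ℝ) ^ d.primeFactors.card / ((d * e : ℕ) : ℝ) := by
            refine Finset.sum_le_sum_of_subset_of_nonneg (Finset.filter_subset _ _) fun e _ _ => ?_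
            positivity
        _ = (k : ℝ) ^ d.primeFactors.card / d * ∑ e ∈ Icc 1 D, 1 / (e : ℝ) := by
            rw [Finset.mul_sum]
            refine Finset.sum_congr rfl fun e _ => ?_
            push_cast
            rw [div_mul_div_comm, mul_one]
        _ ≤ _ := mul_le_mul_of_nonneg_left (cub_harm D) (by positivity)
    refine (Finset.sum_le_sum e2).trans ?_
    rw [← Finset.sum_mul, pow_succ]
    exact mul_le_mul_of_nonneg_right ih (by linarith)

theorem cub_sum (D : ℕ) (hD : 1 ≤ D) (c : ℕ → ℝ) (h0 : ∀ n, ¬ Squarefree n → c n = 0) (h1 : ∀ n, |c n| ≤ 3 ^ n.primeFactors.card) :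
    ∑ s ∈ Icc 1 D, (s : ℝ) * (∑ r ∈ (Icc 1 D).filter (fun r => s ∣ r), |c r| / r) ^ 2 ≤ (2 + Real.log D) ^ 15 := by
  have hl : 0 ≤ Real.log D := Real.log_nonneg (by exact_mod_cast hD)
  -- the inner sum
  have e0 : ∀ s : ℕ, ∑ r ∈ (Icc 1 D).filter (fun r => s ∣ r), |c r| / (r : ℝ) =
      ∑ r ∈ (Icc 1 D).filter (fun r => s ∣ r ∧ Squarefree r), |c r| / (r : ℝ) := by
    intro s
    refine (Finset.sum_subset_zero_on_sdiff ?_ ?_ fun _ _ => rfl).symm
    · intro r hr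
      rw [mem_filter] at hr ⊢
      exact ⟨hr.1, hr.2.1⟩
    · intro r hr
      rw [mem_sdiff, mem_filter, mem_filter] at hr
      have h2 : ¬ Squarefree r := fun h3 => hr.2 ⟨hr.1.1, hr.1.2, h3⟩
      rw [h0 r h2, abs_zero, zero_div]
  have e1 : ∀ s ∈ cubE D, ∑ r ∈ (Icc 1 D).filter (fun r => s ∣ r), |c r| / (r : ℝ) ≤
      3 ^ s.primeFactors.card / s * (1 + Real.log D) ^ 3 := by
    intro s hs
    unfold cubE at hs
    rw [mem_filter, mem_Icc] at hs
    have hs0 : (0 : ℝ) < s := by exact_mod_cast hs.1.1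
    rw [e0]
    have h2 : ∀ r ∈ (Icc 1 D).filter (fun r => s ∣ r ∧ Squarefree r), |c r| / (r : ℝ) ≤
        3 ^ s.primeFactors.card * 3 ^ (r / s).primeFactors.card / (r : ℝ) := by
      intro r hr
      rw [mem_filter, mem_Icc] at hr
      obtain ⟨_, ⟨e, rfl⟩, h3⟩ := hr
      refine div_le_div_of_nonneg_right ((h1 _).trans (le_of_eq ?_)) (Nat.cast_nonneg _)
      rw [Nat.mul_div_cancel_left e (by omega)]
      have h4 : Nat.Coprime s e := Nat.coprime_of_squarefree_mul h3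
      rw [h4.primeFactors_mul, Finset.card_union_of_disjoint h4.disjoint_primeFactors, pow_add]
    refine (Finset.sum_le_sum h2).trans ?_
    refine (cub_img D s hs.1.1 (fun r => (3 : ℝ) ^ s.primeFactors.card *
      3 ^ (r / s).primeFactors.card / (r : ℝ)) (fun e _ => by positivity)).trans ?_
    calc ∑ e ∈ cubE D, (3 : ℝ) ^ s.primeFactors.card *
          3 ^ (s * e / s).primeFactors.card / ((s * e : ℕ) : ℝ)
        = 3 ^ s.primeFactors.card / s * ∑ e ∈ cubE D, ((3 : ℕ) : ℝ) ^ e.primeFactors.card / e := by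
          rw [Finset.mul_sum]
          refine Finset.sum_congr rfl fun e _ => ?_
          rw [Nat.mul_div_cancel_left e (by omega)]
          push_cast
          rw [div_mul_div_comm]
      _ ≤ _ := mul_le_mul_of_nonneg_left (cub_A D hD 3) (by positivity)
  -- the outer sum
  have e2 : ∑ s ∈ Icc 1 D, (s : ℝ) * (∑ r ∈ (Icc 1 D).filter (fun r => s ∣ r), |c r| / r) ^ 2 =
      ∑ s ∈ cubE D, (s : ℝ) * (∑ r ∈ (Icc 1 D).filter (fun r => s ∣ r), |c r| / r) ^ 2 := by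
    refine (Finset.sum_subset_zero_on_sdiff (Finset.filter_subset _ _) ?_ fun _ _ => rfl).symm
    intro s hs
    rw [mem_sdiff] at hs
    have h2 : ¬ Squarefree s := fun h3 => hs.2 (mem_filter.mpr ⟨hs.1, h3⟩)
    have h3 : ∑ r ∈ (Icc 1 D).filter (fun r => s ∣ r), |c r| / (r : ℝ) = 0 := by
      refine Finset.sum_eq_zero fun r hr => ?_
      rw [mem_filter] at hr
      rw [h0 r (fun h4 => h2 (h4.squarefree_of_dvd hr.2)), abs_zero, zero_div]
    rw [h3]
    ring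
  rw [e2]
  have e3 : ∀ s ∈ cubE D, (s : ℝ) * (∑ r ∈ (Icc 1 D).filter (fun r => s ∣ r), |c r| / r) ^ 2 ≤
      ((9 : ℕ) : ℝ) ^ s.primeFactors.card / s * (1 + Real.log D) ^ 6 := by
    intro s hs
    have h2 := e1 s hs
    unfold cubE at hs
    rw [mem_filter, mem_Icc] at hs
    have hs0 : (0 : ℝ) < s := by exact_mod_cast hs.1.1
    have h3 : 0 ≤ ∑ r ∈ (Icc 1 D).filter (fun r => s ∣ r), |c r| / (r : ℝ) :=
      Finset.sum_nonneg fun r _ => by positivity
    calc (s : ℝ) * (∑ r ∈ (Icc 1 D).filter (fun r => s ∣ r), |c r| / r) ^ 2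
        ≤ (s : ℝ) * (3 ^ s.primeFactors.card / s * (1 + Real.log D) ^ 3) ^ 2 :=
          mul_le_mul_of_nonneg_left (pow_le_pow_left₀ h3 h2 2) hs0.le
      _ = _ := by
          have h4 : ((9 : ℕ) : ℝ) ^ s.primeFactors.card = (3 ^ s.primeFactors.card) ^ 2 := by
            rw [← pow_mul, mul_comm, pow_mul]
            norm_num
          rw [h4]
          field_simp
  refine (Finset.sum_le_sum e3).trans ?_
  rw [← Finset.sum_mul]
  calc (∑ s ∈ cubE D, ((9 : ℕ) : ℝ) ^ s.primeFactors.card / s) * (1 + Real.log D) ^ 6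
      ≤ (1 + Real.log D) ^ 9 * (1 + Real.log D) ^ 6 :=
        mul_le_mul_of_nonneg_right (cub_A D hD 9) (by positivity)
    _ = (1 + Real.log D) ^ 15 := by ring
    _ ≤ (2 + Real.log D) ^ 15 := pow_le_pow_left₀ (by linarith) (by linarith) 15

end Pool.Agent.H43.PX

end

section

/-!
# PROJECT PX, row LsVar: type I sums in almost all windows

For `r ≤ D` with `gcd(r, d) ∣ a` the conditions `r ∣ n`, `n ≡ a (mod d)` are together `lcm(r, d) ∣ n + A r`;
this is expanded in additive characters. The error term of a window is then a sum over reduced fractions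
`b/s`, `2 ≤ s ≤ dD`, and its mean square is bounded by the dual of the additive large sieve.
-/

set_option autoImplicit false

namespace Pool.Agent.H43.PX

open Finset
open Pool.Agent.H91.PK (ee additive_ls)
open Pool.Agent.H91.EHA (ramS ramS_eq)

/-! ### exponentials -/

private theorem ls_ee (t : ℝ) : ee t = Pool.Agent.H92.EH.e t := by
  unfold ee Pool.Agent.H92.EH.e
  congr 1
  push_cast
  ring

private theorem ls_add (s t : ℝ) : ee (s + t) = ee s * ee t := by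
  unfold ee
  rw [← Complex.exp_add]
  congr 1
  push_cast
  ring

private theorem ls_norm (t : ℝ) : ‖ee t‖ = 1 := by
  rw [ls_ee, Pool.Agent.H92.EH.norm_e]

/-- the exponential sum over `1 ≤ n ≤ H` -/
private noncomputable def lsK (H : ℕ) (t : ℝ) : ℂ := ∑ n ∈ Icc 1 H, ee (n * t)

private theorem ls_shift (H x : ℕ) (t : ℝ) :
    ∑ n ∈ Ioc x (x + H), ee (n * t) = ee (x * t) * lsK H t := by
  have h1 : Ioc x (x + H) = Ico (1 + x) (H + 1 + x) := by
    ext n
    rw [mem_Ioc, mem_Ico]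
    omega
  have h2 : Icc 1 H = Ico 1 (H + 1) := by
    ext n
    rw [mem_Icc, mem_Ico]
    omega
  unfold lsK
  rw [h1, h2, ← sum_Ico_add' (fun n : ℕ => ee (n * t)) 1 (H + 1) x, mul_sum]
  refine sum_congr rfl fun n _ => ?_
  rw [← ls_add]
  congr 1
  push_cast
  ring

private theorem ls_triv (H : ℕ) (t : ℝ) : ‖lsK H t‖ ≤ H := by
  unfold lsK
  refine (norm_sum_le _ _).trans ?_
  rw [sum_congr rfl fun n _ => ls_norm _, sum_const, Nat.card_Icc]
  simp

private theorem ls_geom (H : ℕ) (t δ : ℝ) (hδ : 0 < δ) (h : ∀ m : ℤ, δ ≤ |t - m|) :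
    ‖lsK H t‖ ≤ 1 / (2 * δ) := by
  have h3 := Pool.Agent.H92.EH.le_norm_e_sub_one h
  have h1 : lsK H t = Pool.Agent.H92.EH.e t *
        ∑ n ∈ range H, Pool.Agent.H92.EH.e t ^ n := by
    have h2 : Icc 1 H = Ico 1 (H + 1) := by
      ext n
      rw [mem_Icc, mem_Ico]
      omega
    unfold lsK
    rw [h2, sum_Ico_eq_sum_range, mul_sum]
    refine sum_congr (by simp) fun n _ => ?_
    rw [ls_ee, ← Pool.Agent.H92.EH.e_nat_mul, ← Pool.Agent.H92.EH.e_add]
    congr 1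
    push_cast
    ring
  have h2 : (∑ n ∈ range H, Pool.Agent.H92.EH.e t ^ n) *
      (Pool.Agent.H92.EH.e t - 1) = Pool.Agent.H92.EH.e t ^ H - 1 :=
    geom_sum_mul _ _
  have h4 : ‖(∑ n ∈ range H, Pool.Agent.H92.EH.e t ^ n)‖ *
      ‖Pool.Agent.H92.EH.e t - 1‖ ≤ 2 := by
    rw [← norm_mul, h2]
    refine (norm_sub_le _ _).trans ?_
    rw [norm_pow, Pool.Agent.H92.EH.norm_e, one_pow, norm_one]
    norm_num
  rw [h1, norm_mul, Pool.Agent.H92.EH.norm_e, one_mul, le_div_iff₀ (by positivity)]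
  have h5 : ‖(∑ n ∈ range H, Pool.Agent.H92.EH.e t ^ n)‖ * (4 * δ) ≤ 2 :=
    (mul_le_mul_of_nonneg_left h3 (norm_nonneg _)).trans h4
  linarith

/-- `‖K(t)‖ ≤ s/(k + s/(2H))` if `t` has distance at least `k/s` from the integers -/
private theorem ls_K1 (H s k : ℕ) (t : ℝ) (hH : 1 ≤ H) (hs : 1 ≤ s) (hk : 1 ≤ k)
    (h : ∀ m : ℤ, (k : ℝ) / s ≤ |t - m|) :
    ‖lsK H t‖ ≤ s / (k + s / (2 * H)) := by
  have hH0 : (0 : ℝ) < H := by exact_mod_cast hH
  have hs0 : (0 : ℝ) < s := by exact_mod_cast hs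
  have hk0 : (0 : ℝ) < k := by exact_mod_cast hk
  rcases le_total ((s : ℝ) / (2 * H)) k with h1 | h1
  · have h2 := ls_geom H t (k / s) (by positivity) h
    refine h2.trans ?_
    have h3 : 1 / (2 * ((k : ℝ) / s)) = s / (2 * k) := by
      field_simp
    rw [h3]
    apply div_le_div_of_nonneg_left hs0.le (by positivity)
    linarith
  · refine (ls_triv H t).trans ?_
    rw [le_div_iff₀ (by positivity)]
    have h2 : (H : ℝ) * (k + s / (2 * H)) = H * k + s / 2 := by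
      field_simp
    rw [h2]
    rw [le_div_iff₀ (by positivity)] at h1
    linarith

/-- the majorant -/
private noncomputable def lsg (H s k : ℕ) : ℝ :=
  (s : ℝ) ^ 2 / ((k + s / (2 * H)) * (k + 1 + s / (2 * H)))

private theorem ls_g_nonneg (H s k : ℕ) : 0 ≤ lsg H s k := by
  unfold lsg
  positivity

private theorem ls_tel (lam : ℝ) (hl : 0 < lam) (n : ℕ) :
    ∑ i ∈ range n, 1 / (((i : ℝ) + lam) * (i + 1 + lam)) = 1 / lam - 1 / (n + lam) := by
  induction n with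
  | zero => simp
  | succ n ih =>
    rw [sum_range_succ, ih]
    have h1 : (0 : ℝ) < n + lam := by positivity
    have h2 : (0 : ℝ) < n + 1 + lam := by positivity
    push_cast
    field_simp
    ring

private theorem ls_gsum (H s : ℕ) (hH : 1 ≤ H) (hs : 1 ≤ s) (n : ℕ) :
    ∑ i ∈ range n, lsg H s i ≤ 2 * H * s := by
  have hH0 : (0 : ℝ) < H := by exact_mod_cast hH
  have hs0 : (0 : ℝ) < s := by exact_mod_cast hs
  have hl : (0 : ℝ) < s / (2 * H) := by positivity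
  have h1 : ∑ i ∈ range n, lsg H s i = (s : ℝ) ^ 2 *
      ∑ i ∈ range n, 1 / (((i : ℝ) + s / (2 * H)) * (i + 1 + s / (2 * H))) := by
    rw [mul_sum]
    refine sum_congr rfl fun i _ => ?_
    unfold lsg
    rw [mul_one_div]
  rw [h1, ls_tel _ hl]
  have h2 : 0 ≤ 1 / ((n : ℝ) + s / (2 * H)) := by positivity
  calc (s : ℝ) ^ 2 * (1 / (s / (2 * H)) - 1 / (n + s / (2 * H)))
      ≤ (s : ℝ) ^ 2 * (1 / (s / (2 * H))) := by
        apply mul_le_mul_of_nonneg_left _ (by positivity)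
        linarith
    _ = (2 : ℝ) * H * s := by
        field_simp

private theorem ls_K2 (H s b : ℕ) (hH : 1 ≤ H) (hb : 1 ≤ b) (hbs : b < s) :
    ‖lsK H ((b : ℝ) / s)‖ ^ 2 ≤ lsg H s (b - 1) + lsg H s (s - b - 1) := by
  have hs : 1 ≤ s := by omega
  have hH0 : (0 : ℝ) < H := by exact_mod_cast hH
  have hs0 : (0 : ℝ) < s := by exact_mod_cast hs
  have key : ∀ k : ℕ, 1 ≤ k → k ≤ b → k ≤ s - b →
      ‖lsK H ((b : ℝ) / s)‖ ^ 2 ≤ lsg H s (k - 1) := by
    intro k hk h1 h2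
    have hk0 : (0 : ℝ) < k := by exact_mod_cast hk
    have h3 : ∀ m : ℤ, (k : ℝ) / s ≤ |(b : ℝ) / s - m| := by
      intro m
      rcases le_or_gt m 0 with hm | hm
      · have hm' : (m : ℝ) ≤ 0 := by exact_mod_cast hm
        have h4 : (k : ℝ) / s ≤ b / s := by
          apply div_le_div_of_nonneg_right _ hs0.le
          exact_mod_cast h1
        refine le_trans ?_ (le_abs_self _)
        linarith
      · have hm' : (1 : ℝ) ≤ m := by exact_mod_cast hm
        have h5 : (k : ℝ) ≤ s - b := by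
          have : k + b ≤ s := by omega
          have h6 : ((k + b : ℕ) : ℝ) ≤ s := by exact_mod_cast this
          push_cast at h6
          linarith
        have h4 : (k : ℝ) / s ≤ 1 - b / s := by
          rw [div_le_iff₀ hs0, sub_mul, div_mul_cancel₀ _ hs0.ne']
          linarith
        refine le_trans ?_ (neg_le_abs _)
        linarith
    have h4 := ls_K1 H s k _ hH hs hk h3
    have h5 : ‖lsK H ((b : ℝ) / s)‖ ^ 2 ≤ (s / (k + s / (2 * H))) ^ 2 := by
      gcongr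
    refine h5.trans ?_
    unfold lsg
    rw [div_pow]
    have h6 : ((k - 1 : ℕ) : ℝ) = k - 1 := by
      push_cast [Nat.cast_sub hk]
      ring
    have hl : (0 : ℝ) < s / (2 * H) := by positivity
    have hk1 : (1 : ℝ) ≤ k := by exact_mod_cast hk
    apply div_le_div_of_nonneg_left (by positivity)
    · rw [h6]
      have : 0 < (k : ℝ) - 1 + s / (2 * H) := by linarith
      have : 0 < (k : ℝ) - 1 + 1 + s / (2 * H) := by linarith
      positivity
    · rw [h6, sq]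
      apply mul_le_mul _ (by linarith) (by linarith) (by linarith)
      linarith
  rcases le_total b (s - b) with h | h
  · have := key b hb le_rfl h
    have h2 := ls_g_nonneg H s (s - b - 1)
    linarith
  · have := key (s - b) (by omega) h le_rfl
    have h2 := ls_g_nonneg H s (b - 1)
    linarith

private theorem ls_K3 (H s : ℕ) (hH : 1 ≤ H) (hs : 2 ≤ s) :
    ∑ b ∈ (Icc 1 s).filter (fun b => Nat.Coprime b s), ‖lsK H ((b : ℝ) / s)‖ ^ 2 ≤ 4 * H * s := by
  have h1 : ∑ b ∈ (Icc 1 s).filter (fun b => Nat.Coprime b s), ‖lsK H ((b : ℝ) / s)‖ ^ 2 ≤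
      ∑ b ∈ Ico 1 s, (lsg H s (b - 1) + lsg H s (s - b - 1)) := by
    refine (sum_le_sum_of_subset_of_nonneg (t := Ico 1 s) ?_ fun b _ _ => by positivity).trans
      (sum_le_sum fun b hb => ?_)
    · intro b hb
      rw [mem_filter, mem_Icc] at hb
      rw [mem_Ico]
      refine ⟨hb.1.1, lt_of_le_of_ne hb.1.2 ?_⟩
      rintro rfl
      have := hb.2
      rw [Nat.coprime_self] at this
      omega
    · rw [mem_Ico] at hb
      exact ls_K2 H s b hH hb.1 hb.2
  refine h1.trans ?_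
  rw [sum_add_distrib, sum_Ico_eq_sum_range, sum_Ico_eq_sum_range]
  have h2 : ∑ i ∈ range (s - 1), lsg H s (1 + i - 1) = ∑ i ∈ range (s - 1), lsg H s i := by
    refine sum_congr rfl fun i _ => ?_
    congr 1
    omega
  have h3 : ∑ i ∈ range (s - 1), lsg H s (s - (1 + i) - 1) = ∑ i ∈ range (s - 1), lsg H s i := by
    rw [← sum_range_reflect (fun i => lsg H s i) (s - 1)]
    refine sum_congr rfl fun i _ => ?_
    congr 1
    omega
  rw [h2, h3]
  have h4 := ls_gsum H s hH (by omega) (s - 1)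
  linarith

/-! ### duality -/

private theorem ls_dual (R M : ℕ) (z : ℕ → ℕ → ℂ) (E : ℕ → ℝ)
    (hE : ∀ x ∈ Ioc 0 (0 + M), (E x : ℂ) = ∑ s ∈ Icc 1 R,
      ∑ b ∈ (Icc 1 s).filter (fun b => Nat.Coprime b s), z s b * ee ((x : ℝ) * b / s)) :
    ∑ x ∈ Ioc 0 (0 + M), E x ^ 2 ≤ ((R : ℝ) ^ 2 + Real.pi * M) *
      ∑ s ∈ Icc 1 R, ∑ b ∈ (Icc 1 s).filter (fun b => Nat.Coprime b s), ‖z s b‖ ^ 2 := by
  set S : ℝ := ∑ x ∈ Ioc 0 (0 + M), E x ^ 2 with hS
  have hS0 : 0 ≤ S := sum_nonneg fun _ _ => sq_nonneg _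
  set T : ℕ → ℕ → ℂ := fun s b => ∑ x ∈ Ioc 0 (0 + M), (E x : ℂ) * ee ((x : ℝ) * b / s) with hT
  have h1 : (S : ℂ) = ∑ s ∈ Icc 1 R,
      ∑ b ∈ (Icc 1 s).filter (fun b => Nat.Coprime b s), z s b * T s b := by
    have h2 : (S : ℂ) = ∑ x ∈ Ioc 0 (0 + M), (E x : ℂ) * ∑ s ∈ Icc 1 R,
        ∑ b ∈ (Icc 1 s).filter (fun b => Nat.Coprime b s), z s b * ee ((x : ℝ) * b / s) := by
      rw [hS]
      push_cast
      refine sum_congr rfl fun x hx => ?_
      rw [← hE x hx, sq]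
    rw [h2]
    simp only [mul_sum, hT]
    rw [sum_comm]
    refine sum_congr rfl fun s _ => ?_
    rw [sum_comm]
    refine sum_congr rfl fun b _ => sum_congr rfl fun x _ => ?_
    ring
  have h3 : S ≤ ∑ s ∈ Icc 1 R,
      ∑ b ∈ (Icc 1 s).filter (fun b => Nat.Coprime b s), ‖z s b‖ * ‖T s b‖ := by
    have h4 : ‖(S : ℂ)‖ = S := by
      rw [Complex.norm_real, Real.norm_eq_abs, abs_of_nonneg hS0]
    rw [← h4, h1]
    refine (norm_sum_le _ _).trans (sum_le_sum fun s _ => (norm_sum_le _ _).trans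
      (sum_le_sum fun b _ => ?_))
    rw [norm_mul]
  have h5 : S ^ 2 ≤ (∑ s ∈ Icc 1 R, ∑ b ∈ (Icc 1 s).filter (fun b => Nat.Coprime b s), ‖z s b‖ ^ 2) *
      (∑ s ∈ Icc 1 R, ∑ b ∈ (Icc 1 s).filter (fun b => Nat.Coprime b s), ‖T s b‖ ^ 2) := by
    refine (pow_le_pow_left₀ hS0 h3 2).trans ?_
    rw [sum_sigma', sum_sigma', sum_sigma']
    exact sum_mul_sq_le_sq_mul_sq _ _ _
  have h6 : ∑ s ∈ Icc 1 R, ∑ b ∈ (Icc 1 s).filter (fun b => Nat.Coprime b s), ‖T s b‖ ^ 2 ≤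
      ((R : ℝ) ^ 2 + Real.pi * M) * S := by
    refine (additive_ls R 0 M (fun x => (E x : ℂ))).trans (le_of_eq ?_)
    congr 1
    rw [hS]
    refine sum_congr rfl fun x _ => ?_
    rw [Complex.norm_real, Real.norm_eq_abs, sq_abs]
  set Z : ℝ := ∑ s ∈ Icc 1 R, ∑ b ∈ (Icc 1 s).filter (fun b => Nat.Coprime b s), ‖z s b‖ ^ 2 with hZ
  have hZ0 : 0 ≤ Z := sum_nonneg fun _ _ => sum_nonneg fun _ _ => by positivity
  have hp := Real.pi_pos
  rcases hS0.eq_or_lt with h7 | h7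
  · rw [← h7]
    positivity
  · have h8 : S * S ≤ (((R : ℝ) ^ 2 + Real.pi * M) * Z) * S := by
      calc S * S = S ^ 2 := (sq S).symm
        _ ≤ Z * (((R : ℝ) ^ 2 + Real.pi * M) * S) := h5.trans (mul_le_mul_of_nonneg_left h6 hZ0)
        _ = _ := by ring
    exact le_of_mul_le_mul_right h8 h7

/-! ### the congruences -/

private theorem ls_crt (r d a : ℕ) (hd : 1 ≤ d) (h : Nat.gcd r d ∣ a) :
    ∃ A : ℕ, ∀ n : ℕ, (r ∣ n ∧ n % d = a % d) ↔ Nat.lcm r d ∣ n + A := by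
  have h0 : 0 ≡ a * (d - 1) [MOD Nat.gcd r d] := by
    refine (Nat.modEq_zero_iff_dvd.2 ?_).symm
    exact h.mul_right _
  obtain ⟨A, h1, h2⟩ := Nat.chineseRemainder' h0
  refine ⟨A, fun n => ?_⟩
  have h3 : r ∣ A := (Nat.modEq_zero_iff_dvd.1 h1)
  have h4 : a + A ≡ 0 [MOD d] := by
    have h5 : a + A ≡ a + a * (d - 1) [MOD d] := Nat.ModEq.add_left a h2
    refine h5.trans ?_
    refine Nat.modEq_zero_iff_dvd.2 ⟨a, ?_⟩
    obtain ⟨e, rfl⟩ : ∃ e, d = e + 1 := ⟨d - 1, by omega⟩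
    rw [Nat.add_sub_cancel]
    ring
  have h5 : n % d = a % d ↔ d ∣ n + A := by
    rw [← Nat.modEq_zero_iff_dvd]
    constructor
    · intro h6
      have h7 : n ≡ a [MOD d] := h6
      exact (Nat.ModEq.add_right A h7).trans h4
    · intro h6
      have h7 : n + A ≡ a + A [MOD d] := h6.trans h4.symm
      exact Nat.ModEq.add_right_cancel' A h7
  have h8 : r ∣ n ↔ r ∣ n + A := (Nat.dvd_add_left h3).symm
  rw [h5, h8]
  exact ⟨fun h6 => Nat.lcm_dvd h6.1 h6.2, fun h6 => ⟨(Nat.dvd_lcm_left r d).trans h6,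
    (Nat.dvd_lcm_right r d).trans h6⟩⟩

private theorem ls_none (r d a n : ℕ) (h : ¬ Nat.gcd r d ∣ a) : ¬ (r ∣ n ∧ n % d = a % d) := by
  rintro ⟨h1, h2⟩
  apply h
  have h3 : Nat.gcd r d ∣ n := (Nat.gcd_dvd_left r d).trans h1
  have h4 : n ≡ a [MOD Nat.gcd r d] := Nat.ModEq.of_dvd (Nat.gcd_dvd_right r d) h2
  exact Nat.modEq_zero_iff_dvd.1 (h4.symm.trans (Nat.modEq_zero_iff_dvd.2 h3))

private theorem ls_div (m : ℕ) (n : ℕ) (hn : 0 < n) :
    ∑ q ∈ n.divisors, ramS q m = if n ∣ m then (n : ℝ) else 0 := by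
  refine (ArithmeticFunction.sum_eq_iff_sum_mul_moebius_eq (f := fun q => ramS q m)
    (g := fun n => if n ∣ m then (n : ℝ) else 0)).2 ?_ n hn
  intro c hc
  unfold ramS
  have h1 : (Nat.gcd c m).divisors = c.divisors.filter (fun d => d ∣ m) := by
    ext d
    rw [Nat.mem_divisors, mem_filter, Nat.mem_divisors]
    constructor
    · rintro ⟨h1, h2⟩
      exact ⟨⟨h1.trans (Nat.gcd_dvd_left c m), by omega⟩, h1.trans (Nat.gcd_dvd_right c m)⟩
    · rintro ⟨⟨h1, h2⟩, h3⟩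
      refine ⟨Nat.dvd_gcd h1 h3, ?_⟩
      intro h4
      rw [Nat.gcd_eq_zero_iff] at h4
      omega
  rw [h1, sum_filter, Nat.sum_divisorsAntidiagonal' (f := fun a b : ℕ =>
    ((ArithmeticFunction.moebius a : ℤ) : ℝ) * (if b ∣ m then (b : ℝ) else 0))]
  apply sum_congr rfl
  intro d _
  by_cases h2 : d ∣ m
  · rw [if_pos h2, if_pos h2]
    ring
  · rw [if_neg h2, if_neg h2, mul_zero]

private theorem ls_one (n : ℕ) : ramS 1 n = 1 := by
  unfold ramS
  simp

/-- the sum over a window, in terms of Ramanujan sums -/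
private theorem ls_window (D d a H x : ℕ) (c : ℕ → ℝ) (A : ℕ → ℕ) (hd : 1 ≤ d)
    (hA : ∀ r, Nat.gcd r d ∣ a → ∀ n : ℕ, (r ∣ n ∧ n % d = a % d) ↔ Nat.lcm r d ∣ n + A r) :
    ∑ n ∈ (Ioc x (x + H)).filter (fun n => n % d = a % d), ∑ r ∈ (Icc 1 D).filter (fun r => r ∣ n), c r =
      ∑ s ∈ Icc 1 (d * D), ∑ r ∈ ((Icc 1 D).filter (fun r => Nat.gcd r d ∣ a)).filter (fun r => s ∣ Nat.lcm r d),
        c r / (Nat.lcm r d : ℝ) * ∑ n ∈ Ioc x (x + H), ramS s (n + A r) := by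
  have h1 : ∀ n, (if n % d = a % d then ∑ r ∈ (Icc 1 D).filter (fun r => r ∣ n), c r else 0) =
      ∑ r ∈ (Icc 1 D).filter (fun r => Nat.gcd r d ∣ a), (if Nat.lcm r d ∣ n + A r then c r else 0) := by
    intro n
    rw [sum_filter, sum_filter]
    have h2 : (if n % d = a % d then ∑ r ∈ Icc 1 D, (if r ∣ n then c r else 0) else 0) =
        ∑ r ∈ Icc 1 D, (if n % d = a % d then (if r ∣ n then c r else 0) else 0) := by
      split_ifs with h
      · rfl
      · rw [sum_const_zero]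
    rw [h2]
    refine sum_congr rfl fun r _ => ?_
    by_cases hg : Nat.gcd r d ∣ a
    · rw [if_pos hg]
      have h3 := hA r hg n
      by_cases h4 : n % d = a % d
      · by_cases h5 : r ∣ n
        · rw [if_pos h4, if_pos h5, if_pos (h3.1 ⟨h5, h4⟩)]
        · rw [if_pos h4, if_neg h5, if_neg fun h6 => h5 (h3.2 h6).1]
      · rw [if_neg h4, if_neg fun h6 => h4 (h3.2 h6).2]
    · rw [if_neg hg]
      have h3 := ls_none r d a n hg
      by_cases h4 : n % d = a % d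
      · by_cases h5 : r ∣ n
        · exact absurd ⟨h5, h4⟩ h3
        · rw [if_pos h4, if_neg h5]
      · rw [if_neg h4]
  rw [sum_filter, sum_congr rfl fun n _ => h1 n, sum_comm]
  have h2 : ∀ r ∈ (Icc 1 D).filter (fun r => Nat.gcd r d ∣ a),
      ∑ n ∈ Ioc x (x + H), (if Nat.lcm r d ∣ n + A r then c r else 0) =
      ∑ s ∈ Icc 1 (d * D), (if s ∣ Nat.lcm r d then
        c r / (Nat.lcm r d : ℝ) * ∑ n ∈ Ioc x (x + H), ramS s (n + A r) else 0) := by
    intro r hr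
    rw [mem_filter, mem_Icc] at hr
    have hm : 0 < Nat.lcm r d := Nat.lcm_pos (by omega) (by omega)
    have hm' : (0 : ℝ) < (Nat.lcm r d : ℝ) := by exact_mod_cast hm
    have hle : Nat.lcm r d ≤ d * D := by
      have h3 : Nat.lcm r d ∣ r * d := Nat.lcm_dvd_mul r d
      have h4 := Nat.le_of_dvd (Nat.mul_pos (by omega) (by omega)) h3
      calc Nat.lcm r d ≤ r * d := h4
        _ ≤ D * d := Nat.mul_le_mul_right _ hr.1.2
        _ = d * D := Nat.mul_comm _ _
    have h3 : (Nat.lcm r d).divisors = (Icc 1 (d * D)).filter (fun s => s ∣ Nat.lcm r d) := by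
      ext s
      rw [Nat.mem_divisors, mem_filter, mem_Icc]
      constructor
      · rintro ⟨h4, _⟩
        exact ⟨⟨Nat.pos_of_dvd_of_pos h4 hm, (Nat.le_of_dvd hm h4).trans hle⟩, h4⟩
      · rintro ⟨_, h4⟩
        exact ⟨h4, hm.ne'⟩
    have h5 : ∑ s ∈ Icc 1 (d * D), (if s ∣ Nat.lcm r d then
        c r / (Nat.lcm r d : ℝ) * ∑ n ∈ Ioc x (x + H), ramS s (n + A r) else 0) =
        ∑ s ∈ (Nat.lcm r d).divisors, c r / (Nat.lcm r d : ℝ) * ∑ n ∈ Ioc x (x + H), ramS s (n + A r) := by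
      rw [h3, sum_filter]
    rw [h5, ← mul_sum, sum_comm]
    have h4 : ∀ n ∈ Ioc x (x + H), ∑ s ∈ (Nat.lcm r d).divisors, ramS s (n + A r) =
        if Nat.lcm r d ∣ n + A r then (Nat.lcm r d : ℝ) else 0 := fun n _ => ls_div _ _ hm
    rw [sum_congr rfl h4, mul_sum]
    refine sum_congr rfl fun n _ => ?_
    split_ifs
    · rw [div_mul_cancel₀ _ hm'.ne']
    · rw [mul_zero]
  rw [sum_congr rfl h2, sum_comm]
  refine sum_congr rfl fun s _ => ?_
  rw [sum_filter (fun r => s ∣ Nat.lcm r d)]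

/-- the error term of a window as an exponential sum -/
private theorem ls_err (D d a H x : ℕ) (c : ℕ → ℝ) (A : ℕ → ℕ) (hD : 1 ≤ D) (hd : 1 ≤ d)
    (hA : ∀ r, Nat.gcd r d ∣ a → ∀ n : ℕ, (r ∣ n ∧ n % d = a % d) ↔ Nat.lcm r d ∣ n + A r) :
    (((∑ n ∈ (Ioc x (x + H)).filter (fun n => n % d = a % d), ∑ r ∈ (Icc 1 D).filter (fun r => r ∣ n), c r) -
      H * den D c d a : ℝ) : ℂ) =
      ∑ s ∈ Icc 1 (d * D), ∑ b ∈ (Icc 1 s).filter (fun b => Nat.Coprime b s),
        (if s = 1 then 0 else (∑ r ∈ ((Icc 1 D).filter (fun r => Nat.gcd r d ∣ a)).filter (fun r => s ∣ Nat.lcm r d),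
          ((c r / (Nat.lcm r d : ℝ) : ℝ) : ℂ) * ee ((A r : ℝ) * b / s)) * lsK H ((b : ℝ) / s)) * ee ((x : ℝ) * b / s) := by
  set V : ℕ → ℝ := fun s => ∑ r ∈ ((Icc 1 D).filter (fun r => Nat.gcd r d ∣ a)).filter (fun r => s ∣ Nat.lcm r d),
        c r / (Nat.lcm r d : ℝ) * ∑ n ∈ Ioc x (x + H), ramS s (n + A r) with hV
  have h1 : V 1 = H * den D c d a := by
    rw [hV]
    unfold den
    simp only [one_dvd, filter_true, ls_one, sum_const, nsmul_eq_mul, mul_one]
    rw [Nat.card_Ioc, mul_sum]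
    refine sum_congr rfl fun r _ => ?_
    have : x + H - x = H := by omega
    rw [this]
    ring
  have h2 : (∑ n ∈ (Ioc x (x + H)).filter (fun n => n % d = a % d), ∑ r ∈ (Icc 1 D).filter (fun r => r ∣ n), c r) -
      H * den D c d a = ∑ s ∈ Icc 1 (d * D), (if s = 1 then 0 else V s) := by
    rw [ls_window D d a H x c A hd hA, ← h1]
    have h3 : ∑ s ∈ Icc 1 (d * D), V s = V 1 + ∑ s ∈ Icc 1 (d * D), (if s = 1 then 0 else V s) := by
      have h4 : ∀ s, V s = (if s = 1 then V s else 0) + (if s = 1 then 0 else V s) := by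
        intro s
        split_ifs
        · rw [add_zero]
        · rw [zero_add]
      rw [sum_congr rfl fun s _ => h4 s, sum_add_distrib, sum_ite_eq' (Icc 1 (d * D)) 1 V,
        if_pos (mem_Icc.2 ⟨le_rfl, Nat.mul_pos (by omega) (by omega)⟩)]
    rw [h3]
    ring
  rw [h2]
  push_cast
  refine sum_congr rfl fun s hs => ?_
  rw [mem_Icc] at hs
  by_cases h3 : s = 1
  · rw [if_pos h3]
    simp only [h3, if_true, zero_mul, sum_const_zero, Complex.ofReal_zero]
  · rw [if_neg h3]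
    simp only [h3, if_false]
    have h4 : ∀ r, ((∑ n ∈ Ioc x (x + H), ramS s (n + A r) : ℝ) : ℂ) =
        ∑ b ∈ (Icc 1 s).filter (fun b => Nat.Coprime b s),
          ee ((A r : ℝ) * b / s) * (ee ((x : ℝ) * b / s) * lsK H ((b : ℝ) / s)) := by
      intro r
      push_cast
      rw [sum_congr rfl fun n _ => ramS_eq s (n + A r) hs.1, sum_comm]
      refine sum_congr rfl fun b _ => ?_
      have h5 : (x : ℝ) * b / s = x * ((b : ℝ) / s) := by ring
      rw [h5, ← ls_shift, mul_sum]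
      refine sum_congr rfl fun n _ => ?_
      rw [← ls_add]
      congr 1
      push_cast
      ring
    rw [hV]
    push_cast
    have h6 : ∀ r, ((c r : ℂ) / ((Nat.lcm r d : ℕ) : ℂ)) * ∑ n ∈ Ioc x (x + H), ((ramS s (n + A r) : ℝ) : ℂ) =
        ∑ b ∈ (Icc 1 s).filter (fun b => Nat.Coprime b s),
          ((c r : ℂ) / ((Nat.lcm r d : ℕ) : ℂ)) * (ee ((A r : ℝ) * b / s) * (ee ((x : ℝ) * b / s) * lsK H ((b : ℝ) / s))) := by
      intro r
      have := h4 r
      push_cast at this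
      rw [this, mul_sum]
    rw [sum_congr rfl fun r _ => h6 r, sum_comm]
    refine sum_congr rfl fun b _ => ?_
    rw [sum_mul, sum_mul]
    refine sum_congr rfl fun r _ => ?_
    ring

/-! ### the coefficients -/

private noncomputable def lskap (D : ℕ) (c : ℕ → ℝ) (s : ℕ) : ℝ := ∑ r ∈ (Icc 1 D).filter (fun r => s ∣ r), |c r| / r

private theorem ls_kap_zero (D : ℕ) (c : ℕ → ℝ) (s : ℕ) (h : D < s) : lskap D c s = 0 := by
  unfold lskap
  rw [filter_eq_empty_iff.2, sum_empty]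
  intro r hr h2
  rw [mem_Icc] at hr
  have := Nat.le_of_dvd (by omega) h2
  omega

private theorem ls_dvd (r s d : ℕ) (hd : 1 ≤ d) (h : s ∣ Nat.lcm r d) : s / Nat.gcd s d ∣ r := by
  have h1 : s ∣ r * d := h.trans (Nat.lcm_dvd_mul r d)
  have hg : 0 < Nat.gcd s d := Nat.gcd_pos_of_pos_right _ (by omega)
  have h2 : Nat.Coprime (s / Nat.gcd s d) (d / Nat.gcd s d) := Nat.coprime_div_gcd_div_gcd hg
  have h3 : s / Nat.gcd s d ∣ r * (d / Nat.gcd s d) := by
    obtain ⟨u, hu⟩ := Nat.gcd_dvd_left s d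
    obtain ⟨v, hv⟩ := Nat.gcd_dvd_right s d
    have hu' : s / Nat.gcd s d = u := Nat.div_eq_of_eq_mul_right hg hu
    have hv' : d / Nat.gcd s d = v := Nat.div_eq_of_eq_mul_right hg hv
    rw [hu', hv']
    have h4 : Nat.gcd s d * u ∣ Nat.gcd s d * (r * v) := by
      have h5 : Nat.gcd s d * (r * v) = r * d := by
        calc Nat.gcd s d * (r * v) = r * (Nat.gcd s d * v) := by ring
          _ = r * d := by rw [← hv]
      rw [h5, ← hu]
      exact h1
    exact Nat.dvd_of_mul_dvd_mul_left hg h4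
  exact h2.dvd_of_dvd_mul_right h3

private theorem ls_beta (D d a : ℕ) (c : ℕ → ℝ) (hd : 1 ≤ d) (s : ℕ) (w : ℕ → ℂ) (hw : ∀ r, ‖w r‖ = 1) :
    ‖∑ r ∈ ((Icc 1 D).filter (fun r => Nat.gcd r d ∣ a)).filter (fun r => s ∣ Nat.lcm r d),
          ((c r / (Nat.lcm r d : ℝ) : ℝ) : ℂ) * w r‖ ≤ lskap D c (s / Nat.gcd s d) := by
  refine (norm_sum_le _ _).trans ?_
  unfold lskap
  have h1 : ((Icc 1 D).filter (fun r => Nat.gcd r d ∣ a)).filter (fun r => s ∣ Nat.lcm r d) ⊆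
      (Icc 1 D).filter (fun r => s / Nat.gcd s d ∣ r) := by
    intro r hr
    rw [mem_filter, mem_filter] at hr
    rw [mem_filter]
    exact ⟨hr.1.1, ls_dvd r s d hd hr.2⟩
  refine le_trans (sum_le_sum fun r hr => ?_) (sum_le_sum_of_subset_of_nonneg h1 fun r _ _ => by positivity)
  have hr1 : 1 ≤ r := (mem_Icc.1 (mem_filter.1 (mem_filter.1 hr).1).1).1
  rw [norm_mul, hw, mul_one, Complex.norm_real, Real.norm_eq_abs, abs_div, Nat.abs_cast]
  apply div_le_div_of_nonneg_left (abs_nonneg _)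
  · exact_mod_cast hr1
  · have h2 : r ≤ Nat.lcm r d := Nat.le_of_dvd (Nat.lcm_pos (by omega) (by omega)) (Nat.dvd_lcm_left r d)
    exact_mod_cast h2

private theorem ls_group (D d : ℕ) (c : ℕ → ℝ) (_hD : 1 ≤ D) (hd : 1 ≤ d) :
    ∑ s ∈ Icc 1 (d * D), (s : ℝ) * lskap D c (s / Nat.gcd s d) ^ 2 ≤
      (d : ℝ) ^ 2 * ∑ s ∈ Icc 1 D, (s : ℝ) * lskap D c s ^ 2 := by
  set F : ℕ × ℕ → ℝ := fun p => (p.1 : ℝ) * ((p.2 : ℝ) * lskap D c p.2 ^ 2) with hF
  have hF0 : ∀ p, 0 ≤ F p := fun p => by rw [hF]; positivity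
  have h1 : ∑ s ∈ Icc 1 (d * D), (s : ℝ) * lskap D c (s / Nat.gcd s d) ^ 2 =
      ∑ s ∈ Icc 1 (d * D), F (Nat.gcd s d, s / Nat.gcd s d) := by
    refine sum_congr rfl fun s hs => ?_
    rw [hF]
    show _ = ((Nat.gcd s d : ℕ) : ℝ) * (((s / Nat.gcd s d : ℕ) : ℝ) * _)
    rw [← mul_assoc]
    congr 1
    have h2 : Nat.gcd s d * (s / Nat.gcd s d) = s := Nat.mul_div_cancel' (Nat.gcd_dvd_left s d)
    exact_mod_cast h2.symm
  have hinj : Set.InjOn (fun s => (Nat.gcd s d, s / Nat.gcd s d)) (Icc 1 (d * D) : Finset ℕ) := by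
    intro s _ t _ hst
    have h2 : Nat.gcd s d * (s / Nat.gcd s d) = s := Nat.mul_div_cancel' (Nat.gcd_dvd_left s d)
    have h3 : Nat.gcd t d * (t / Nat.gcd t d) = t := Nat.mul_div_cancel' (Nat.gcd_dvd_left t d)
    have h4 := Prod.ext_iff.1 hst
    simp only at h4
    exact h2.symm.trans ((congrArg₂ (fun u v : ℕ => u * v) h4.1 h4.2).trans h3)
  have h5 : ∑ s ∈ Icc 1 (d * D), F (Nat.gcd s d, s / Nat.gcd s d) =
      ∑ p ∈ (Icc 1 (d * D)).image (fun s => (Nat.gcd s d, s / Nat.gcd s d)), F p := by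
    rw [sum_image hinj]
  have h6 : (Icc 1 (d * D)).image (fun s => (Nat.gcd s d, s / Nat.gcd s d)) ⊆ Icc 1 d ×ˢ Icc 1 (d * D) := by
    intro p hp
    rw [mem_image] at hp
    obtain ⟨s, hs, rfl⟩ := hp
    rw [mem_Icc] at hs
    have hg : 0 < Nat.gcd s d := Nat.gcd_pos_of_pos_right _ (by omega)
    rw [mem_product, mem_Icc, mem_Icc]
    refine ⟨⟨hg, Nat.le_of_dvd (by omega) (Nat.gcd_dvd_right s d)⟩, ?_, ?_⟩
    · exact Nat.div_pos (Nat.le_of_dvd (by omega) (Nat.gcd_dvd_left s d)) hg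
    · exact (Nat.div_le_self _ _).trans hs.2
  rw [h1, h5]
  refine (sum_le_sum_of_subset_of_nonneg h6 fun p _ _ => hF0 p).trans ?_
  rw [sum_product]
  have h7 : ∀ g : ℕ, ∑ t ∈ Icc 1 (d * D), F (g, t) = (g : ℝ) * ∑ s ∈ Icc 1 D, (s : ℝ) * lskap D c s ^ 2 := by
    intro g
    rw [hF, mul_sum]
    symm
    refine sum_subset (Icc_subset_Icc le_rfl (Nat.le_mul_of_pos_left D (by omega))) ?_
    intro t _ ht
    rw [mem_Icc] at ht
    have h8 : lskap D c t = 0 ∨ t = 0 := by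
      by_cases h9 : t = 0
      · exact Or.inr h9
      · left
        exact ls_kap_zero D c t (by omega)
    rcases h8 with h8 | h8
    · rw [h8]
      ring
    · rw [h8]
      push_cast
      ring
  rw [sum_congr rfl fun g _ => h7 g, ← sum_mul]
  have hS : 0 ≤ ∑ s ∈ Icc 1 D, (s : ℝ) * lskap D c s ^ 2 := sum_nonneg fun _ _ => by positivity
  refine mul_le_mul_of_nonneg_right ?_ hS
  calc ∑ g ∈ Icc 1 d, (g : ℝ) ≤ ∑ g ∈ Icc 1 d, (d : ℝ) := by
        refine sum_le_sum fun g hg => ?_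
        exact_mod_cast (mem_Icc.1 hg).2
    _ = (d : ℝ) ^ 2 := by
        rw [sum_const, Nat.card_Icc, nsmul_eq_mul, sq]
        simp

/-- **Type I sums in almost all windows.** -/
theorem ls_var : ∃ C : ℝ, 1 ≤ C ∧ ∀ (M D d a H : ℕ) (c : ℕ → ℝ), 1 ≤ M → 1 ≤ D → 1 ≤ d → 1 ≤ H →
    ∑ x ∈ Icc 1 M, ((∑ n ∈ (Ioc x (x + H)).filter (fun n => n % d = a % d), ∑ r ∈ (Icc 1 D).filter (fun r => r ∣ n), c r)
      - H * den D c d a) ^ 2 ≤
      C * (M + ((d : ℝ) * D) ^ 2) * H * (d : ℝ) ^ 2 *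
        ∑ s ∈ Icc 1 D, (s : ℝ) * (∑ r ∈ (Icc 1 D).filter (fun r => s ∣ r), |c r| / r) ^ 2 := by
  refine ⟨16, by norm_num, ?_⟩
  intro M D d a H c hM hD hd hH
  have hex : ∀ r, ∃ A : ℕ, Nat.gcd r d ∣ a → ∀ n : ℕ, (r ∣ n ∧ n % d = a % d) ↔ Nat.lcm r d ∣ n + A := by
    intro r
    by_cases h : Nat.gcd r d ∣ a
    · obtain ⟨A, hA⟩ := ls_crt r d a hd h
      exact ⟨A, fun _ => hA⟩
    · exact ⟨0, fun h' => absurd h' h⟩
  choose A hA using hex
  set z : ℕ → ℕ → ℂ := fun s b =>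
    (if s = 1 then 0 else (∑ r ∈ ((Icc 1 D).filter (fun r => Nat.gcd r d ∣ a)).filter (fun r => s ∣ Nat.lcm r d),
          ((c r / (Nat.lcm r d : ℝ) : ℝ) : ℂ) * ee ((A r : ℝ) * b / s)) * lsK H ((b : ℝ) / s)) with hz
  set E : ℕ → ℝ := fun x => (∑ n ∈ (Ioc x (x + H)).filter (fun n => n % d = a % d),
    ∑ r ∈ (Icc 1 D).filter (fun r => r ∣ n), c r) - H * den D c d a with hE
  have h1 := ls_dual (d * D) M z E (fun x _ => ls_err D d a H x c A hD hd hA)
  have h2 : Icc 1 M = Ioc 0 (0 + M) := by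
    ext n
    rw [mem_Icc, mem_Ioc]
    omega
  rw [h2]
  refine h1.trans ?_
  have hH0 : (0 : ℝ) < H := by exact_mod_cast hH
  have h3 : ∀ s ∈ Icc 1 (d * D), ∑ b ∈ (Icc 1 s).filter (fun b => Nat.Coprime b s), ‖z s b‖ ^ 2 ≤
      4 * H * ((s : ℝ) * lskap D c (s / Nat.gcd s d) ^ 2) := by
    intro s hs
    rw [mem_Icc] at hs
    by_cases h4 : s = 1
    · have h5 : ∀ b, ‖z s b‖ ^ 2 = 0 := by
        intro b
        rw [hz]
        simp [h4]
      rw [sum_congr rfl fun b _ => h5 b, sum_const_zero]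
      positivity
    · have h5 : ∀ b, ‖z s b‖ ^ 2 ≤ lskap D c (s / Nat.gcd s d) ^ 2 * ‖lsK H ((b : ℝ) / s)‖ ^ 2 := by
        intro b
        rw [hz]
        simp only [h4, if_false]
        rw [norm_mul, mul_pow]
        have h6 := ls_beta D d a c hd s (fun r => ee ((A r : ℝ) * b / s)) fun r => ls_norm _
        gcongr
      calc ∑ b ∈ (Icc 1 s).filter (fun b => Nat.Coprime b s), ‖z s b‖ ^ 2
          ≤ ∑ b ∈ (Icc 1 s).filter (fun b => Nat.Coprime b s),
              lskap D c (s / Nat.gcd s d) ^ 2 * ‖lsK H ((b : ℝ) / s)‖ ^ 2 := sum_le_sum fun b _ => h5 b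
        _ = lskap D c (s / Nat.gcd s d) ^ 2 *
              ∑ b ∈ (Icc 1 s).filter (fun b => Nat.Coprime b s), ‖lsK H ((b : ℝ) / s)‖ ^ 2 := by
            rw [mul_sum]
        _ ≤ lskap D c (s / Nat.gcd s d) ^ 2 * (4 * H * s) :=
            mul_le_mul_of_nonneg_left (ls_K3 H s hH (by omega)) (by positivity)
        _ = _ := by ring
  have h4 : ∑ s ∈ Icc 1 (d * D), ∑ b ∈ (Icc 1 s).filter (fun b => Nat.Coprime b s), ‖z s b‖ ^ 2 ≤
      4 * H * ((d : ℝ) ^ 2 * ∑ s ∈ Icc 1 D, (s : ℝ) * lskap D c s ^ 2) := by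
    refine (sum_le_sum h3).trans ?_
    rw [← mul_sum]
    exact mul_le_mul_of_nonneg_left (ls_group D d c hD hd) (by positivity)
  have hS : 0 ≤ ∑ s ∈ Icc 1 D, (s : ℝ) * lskap D c s ^ 2 := sum_nonneg fun _ _ => by positivity
  have hp : Real.pi ≤ 4 := Real.pi_le_four
  have hp0 := Real.pi_pos
  have hM0 : (0 : ℝ) < M := by exact_mod_cast hM
  have h5 : (((d * D : ℕ) : ℝ) ^ 2 + Real.pi * M) ≤ 4 * (M + ((d : ℝ) * D) ^ 2) := by
    push_cast
    nlinarith [sq_nonneg ((d : ℝ) * D)]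
  calc (((d * D : ℕ) : ℝ) ^ 2 + Real.pi * M) *
        ∑ s ∈ Icc 1 (d * D), ∑ b ∈ (Icc 1 s).filter (fun b => Nat.Coprime b s), ‖z s b‖ ^ 2
      ≤ (4 * (M + ((d : ℝ) * D) ^ 2)) * (4 * H * ((d : ℝ) ^ 2 * ∑ s ∈ Icc 1 D, (s : ℝ) * lskap D c s ^ 2)) := by
        refine mul_le_mul h5 h4 (sum_nonneg fun _ _ => sum_nonneg fun _ _ => by positivity) (by positivity)
    _ = 16 * (M + ((d : ℝ) * D) ^ 2) * H * (d : ℝ) ^ 2 * ∑ s ∈ Icc 1 D, (s : ℝ) * lskap D c s ^ 2 := by ring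

end Pool.Agent.H43.PX

end

section

/-!
# The sums `S2` are well distributed in almost all windows (project PX, note 2550)

`S2 S m = ∑_{r ≤ wQ, r ∣ m} c r` with `c r = ∑_{z < p ≤ w, p ∣ r, r / p ≤ Q} g (r / p)` (at most one term, as `Q ≤ z`), so that `|c r| ≤ 3 ^ ω(r)` and
`c = 0` off the squarefree numbers; its density in the class `a` modulo `d` is `W12` times the density of `g`. The variance is bounded by `ls_var` and
`cub_sum`.
-/

set_option autoImplicit false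

namespace Pool.Agent.H43.PX

open Finset
open Pool.Agent.H76.TP (yN zz rg nu PY Adm)
open Pool.Agent.H31.EQ (WDx)

/-- the coefficients of `S2` -/
private noncomputable def s2w_c (z w Q : ℕ) (g : ℕ → ℝ) (r : ℕ) : ℝ :=
  ∑ p ∈ (PY z w).filter (fun p => p ∣ r ∧ r / p ≤ Q), g (r / p)

private theorem s2w_PY {z w p : ℕ} (hp : p ∈ PY z w) : z < p ∧ p ≤ w ∧ p.Prime := by
  unfold PY at hp
  simp only [mem_filter, mem_Ioc] at hp
  exact ⟨hp.1.1, hp.1.2, hp.2⟩

private theorem s2w_sum (z w Q : ℕ) (g F : ℕ → ℝ) :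
    ∑ r ∈ Icc 1 (w * Q), s2w_c z w Q g r * F r = ∑ p ∈ PY z w, ∑ n ∈ Icc 1 Q, g n * F (p * n) := by
  unfold s2w_c
  simp_rw [Finset.sum_mul, Finset.sum_filter]
  rw [Finset.sum_comm]
  refine Finset.sum_congr rfl fun p hp => ?_
  obtain ⟨-, hpw, hpp⟩ := s2w_PY hp
  have hp0 : 0 < p := hpp.pos
  rw [← Finset.sum_filter]
  symm
  refine Finset.sum_nbij' (fun n => p * n) (fun r => r / p) ?_ ?_ ?_ ?_ ?_
  · intro n hn
    simp only [mem_Icc] at hn
    simp only [mem_filter, mem_Icc]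
    refine ⟨⟨?_, ?_⟩, dvd_mul_right _ _, ?_⟩
    · exact Nat.mul_pos hp0 hn.1
    · exact Nat.mul_le_mul hpw hn.2
    · rw [Nat.mul_div_cancel_left _ hp0]; exact hn.2
  · intro r hr
    simp only [mem_filter, mem_Icc] at hr
    simp only [mem_Icc]
    exact ⟨Nat.div_pos (Nat.le_of_dvd hr.1.1 hr.2.1) hp0, hr.2.2⟩
  · intro n hn
    exact Nat.mul_div_cancel_left _ hp0
  · intro r hr
    simp only [mem_filter, mem_Icc] at hr
    exact Nat.mul_div_cancel' hr.2.1
  · intro n hn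
    rw [Nat.mul_div_cancel_left _ hp0]

/-- `S2` is a sum over divisors -/
private theorem s2w_S2 (Q : ℕ) (g S : ℕ → ℝ) (y J J1 : ℕ) (hg : Adm Q g S) (m : ℕ) (hm : 1 ≤ m) :
    S2 S y J J1 m = ∑ r ∈ (Icc 1 (zz y J1 * Q)).filter (fun r => r ∣ m), s2w_c (zz y J) (zz y J1) Q g r := by
  have h1 := s2w_sum (zz y J) (zz y J1) Q g (fun r => if r ∣ m then 1 else 0)
  simp only [mul_ite, mul_one, mul_zero] at h1
  rw [← Finset.sum_filter] at h1
  rw [h1]
  unfold S2
  rw [Finset.sum_filter]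
  refine Finset.sum_congr rfl fun p hp => ?_
  obtain ⟨-, -, hpp⟩ := s2w_PY hp
  split_ifs with hd
  · rw [hg.2.2 _ (Nat.div_pos (Nat.le_of_dvd hm hd) hpp.pos), Finset.sum_filter]
    refine Finset.sum_congr rfl fun n _ => ?_
    simp only [Nat.dvd_div_iff_mul_dvd hd]
  · symm
    refine Finset.sum_eq_zero fun n _ => ?_
    rw [if_neg]
    exact fun h => hd ((dvd_mul_right p n).trans h)

private theorem s2w_den (Q : ℕ) (g : ℕ → ℝ) (y J J1 d a : ℕ) (hd : 1 ≤ d) (hdz : d ≤ zz y J) :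
    den (zz y J1 * Q) (s2w_c (zz y J) (zz y J1) Q g) d a = W12 y J J1 * den Q g d a := by
  have h1 := s2w_sum (zz y J) (zz y J1) Q g (fun r => if Nat.gcd r d ∣ a then 1 / (Nat.lcm r d : ℝ) else 0)
  simp only [mul_ite, mul_one_div, mul_zero] at h1
  unfold den
  rw [Finset.sum_filter, h1]
  unfold W12
  rw [Finset.sum_mul]
  refine Finset.sum_congr rfl fun p hp => ?_
  obtain ⟨hzp, -, hpp⟩ := s2w_PY hp
  have hcop : Nat.Coprime p d := by
    rw [Nat.Prime.coprime_iff_not_dvd hpp]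
    intro h
    have := Nat.le_of_dvd hd h
    omega
  rw [Finset.sum_filter, Finset.mul_sum]
  refine Finset.sum_congr rfl fun n _ => ?_
  have hg : Nat.gcd (p * n) d = Nat.gcd n d := Nat.Coprime.gcd_mul_left_cancel n hcop
  have hl : Nat.lcm (p * n) d = p * Nat.lcm n d := by
    have e1 := Nat.gcd_mul_lcm (p * n) d
    have e2 := Nat.gcd_mul_lcm n d
    rw [hg] at e1
    have hpos : 0 < Nat.gcd n d := Nat.gcd_pos_of_pos_right _ hd
    apply Nat.eq_of_mul_eq_mul_left hpos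
    rw [e1, mul_assoc, ← e2]
    ring
  rw [hg, hl]
  split_ifs
  · push_cast
    have hp0 : (p : ℝ) ≠ 0 := by exact_mod_cast hpp.pos.ne'
    rw [div_mul_div_comm, one_mul]
  · rw [mul_zero]

private theorem s2w_single (z w Q : ℕ) (g : ℕ → ℝ) (hQ : Q ≤ z) (r : ℕ) (hr : r ≠ 0) :
    s2w_c z w Q g r = 0 ∨ ∃ p, p.Prime ∧ z < p ∧ p ∣ r ∧ r / p ≤ Q ∧ s2w_c z w Q g r = g (r / p) := by
  by_cases h : ((PY z w).filter (fun p => p ∣ r ∧ r / p ≤ Q)) = ∅
  · left
    unfold s2w_c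
    rw [h, Finset.sum_empty]
  · right
    obtain ⟨p, hp⟩ := Finset.nonempty_iff_ne_empty.2 h
    rw [mem_filter] at hp
    obtain ⟨hzp, -, hpp⟩ := s2w_PY hp.1
    refine ⟨p, hpp, hzp, hp.2.1, hp.2.2, ?_⟩
    unfold s2w_c
    have hs : ((PY z w).filter (fun p => p ∣ r ∧ r / p ≤ Q)) = {p} := by
      refine Finset.eq_singleton_iff_unique_mem.2 ⟨mem_filter.2 hp, fun q hq => ?_⟩
      rw [mem_filter] at hq
      obtain ⟨hzq, -, hqp⟩ := s2w_PY hq.1
      by_contra hne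
      have h1 : q ∣ r / p := by
        rw [Nat.dvd_div_iff_mul_dvd hp.2.1]
        exact Nat.Coprime.mul_dvd_of_dvd_of_dvd ((Nat.coprime_primes hpp hqp).2 (Ne.symm hne)) hp.2.1 hq.2.1
      have h2 : 0 < r / p := Nat.div_pos (Nat.le_of_dvd (Nat.pos_of_ne_zero hr) hp.2.1) hpp.pos
      have h3 := Nat.le_of_dvd h2 h1
      have h4 := hp.2.2
      omega
    rw [hs, Finset.sum_singleton]

private theorem s2w_zero (z w Q : ℕ) (g S : ℕ → ℝ) (hg : Adm Q g S) : s2w_c z w Q g 0 = 0 := by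
  unfold s2w_c
  refine Finset.sum_eq_zero fun p _ => ?_
  rw [Nat.zero_div]
  exact hg.1 0 not_squarefree_zero

private theorem s2w_sqf (z w Q : ℕ) (g S : ℕ → ℝ) (hg : Adm Q g S) (hQ : Q ≤ z) (r : ℕ) (hr : ¬ Squarefree r) : s2w_c z w Q g r = 0 := by
  by_cases h0 : r = 0
  · rw [h0]; exact s2w_zero z w Q g S hg
  · rcases s2w_single z w Q g hQ r h0 with h | ⟨p, hpp, hzp, hpr, hrQ, h⟩
    · exact h
    · rw [h]
      apply hg.1
      intro hsq
      apply hr
      have h2 : 0 < r / p := Nat.div_pos (Nat.le_of_dvd (Nat.pos_of_ne_zero h0) hpr) hpp.pos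
      have hcop : Nat.Coprime p (r / p) := by
        rw [Nat.Prime.coprime_iff_not_dvd hpp]
        intro h3
        have := Nat.le_of_dvd h2 h3
        omega
      rw [← Nat.mul_div_cancel' hpr]
      exact (Nat.squarefree_mul hcop).2 ⟨hpp.prime.squarefree, hsq⟩

private theorem s2w_bd (z w Q : ℕ) (g S : ℕ → ℝ) (hg : Adm Q g S) (hQ : Q ≤ z) (r : ℕ) : |s2w_c z w Q g r| ≤ 3 ^ r.primeFactors.card := by
  have hpos : ∀ n : ℕ, (0 : ℝ) ≤ 3 ^ n := fun n => by positivity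
  by_cases h0 : r = 0
  · rw [h0, s2w_zero z w Q g S hg, abs_zero]; exact hpos _
  · rcases s2w_single z w Q g hQ r h0 with h | ⟨p, hpp, hzp, hpr, hrQ, h⟩
    · rw [h, abs_zero]; exact hpos _
    · rw [h]
      refine (hg.2.1 _).trans (pow_le_pow_right₀ (by norm_num) (card_le_card ?_))
      exact Nat.primeFactors_mono (Nat.div_dvd_of_dvd hpr) h0

/-- `∑_{z < p ≤ w} 1/p ≤ log w - log z` -/
private theorem s2w_rec (z : ℕ) (hz : 1 ≤ z) (w : ℕ) (hw : z ≤ w) :
    ∑ n ∈ Ioc z w, 1 / (n : ℝ) ≤ Real.log w - Real.log z := by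
  induction w, hw using Nat.le_induction with
  | base => simp
  | succ w hw ih =>
    rw [Finset.sum_Ioc_succ_top hw]
    have hw0 : (0 : ℝ) < w := by exact_mod_cast (by omega : 0 < w)
    have h1 : 1 / ((w + 1 : ℕ) : ℝ) ≤ Real.log ((w + 1 : ℕ) : ℝ) - Real.log w := by
      have h2 := Real.log_le_sub_one_of_pos (show (0 : ℝ) < w / ((w + 1 : ℕ) : ℝ) by positivity)
      rw [Real.log_div hw0.ne' (by positivity)] at h2
      have h3 : (w : ℝ) / ((w + 1 : ℕ) : ℝ) - 1 = - (1 / ((w + 1 : ℕ) : ℝ)) := by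
        push_cast
        field_simp
        ring
      rw [h3] at h2
      linarith only [h2]
    linarith

private theorem s2w_W12 (y J J1 : ℕ) (hz : 1 ≤ zz y J) (hw : zz y J ≤ zz y J1) :
    0 ≤ W12 y J J1 ∧ W12 y J J1 ≤ Real.log (zz y J1) - Real.log (zz y J) := by
  unfold W12 PY
  refine ⟨Finset.sum_nonneg fun _ _ => by positivity, ?_⟩
  refine le_trans ?_ (s2w_rec _ hz _ hw)
  exact Finset.sum_le_sum_of_subset_of_nonneg (filter_subset _ _) fun _ _ _ => by positivity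

private theorem s2w_ev (k : ℕ) (K s : ℝ) (hs : 0 < s) : ∀ᶠ N : ℕ in Filter.atTop, K * Real.log N ^ k ≤ (N : ℝ) ^ s := by
  have h1 := isLittleO_log_rpow_rpow_atTop (k : ℝ) hs
  have h2 : ∀ᶠ x : ℝ in Filter.atTop, K * Real.log x ^ k ≤ x ^ s := by
    filter_upwards [h1.bound (show (0 : ℝ) < 1 / (|K| + 1) by positivity), Filter.eventually_ge_atTop (1 : ℝ)] with x hx hx1
    have hl : 0 ≤ Real.log x := Real.log_nonneg hx1
    rw [Real.rpow_natCast, Real.norm_of_nonneg (by positivity), Real.norm_of_nonneg (by positivity)] at hx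
    have h3 : (|K| + 1) * Real.log x ^ k ≤ x ^ s := by
      rw [div_mul_eq_mul_div, one_mul, le_div_iff₀ (by positivity)] at hx
      linarith
    have h4 : K * Real.log x ^ k ≤ (|K| + 1) * Real.log x ^ k := by
      apply mul_le_mul_of_nonneg_right _ (by positivity)
      linarith [le_abs_self K]
    exact h4.trans h3
  exact tendsto_natCast_atTop_atTop.eventually h2

theorem s2_wdx (A B : ℕ) : ∃ N0 : ℕ, ∀ N : ℕ, N0 ≤ N → ∀ (e1 : ℝ) (J J1 Q : ℕ) (S g : ℕ → ℝ) (kS : ℝ), LevX N (yN e1 N) J J1 →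
    Adm Q g S → 1 ≤ Q → (Q : ℝ) ≤ (N : ℝ) ^ (1 / 1000 : ℝ) → |kS| ≤ 1 →
    (∀ d a : ℕ, 1 ≤ d → (d : ℝ) ≤ Real.log N ^ B → |den Q g d a - (if Nat.Coprime a d then kS / d.totient else 0)| ≤ 1 / Real.log N ^ (A + 1)) →
    ∀ H : ℕ, (N : ℝ) ^ (1 / 20 : ℝ) ≤ H → (H : ℝ) ≤ (N : ℝ) ^ (1 / 2 : ℝ) →
      WDx N H A B (S2 S (yN e1 N) J J1) (fun _ => kS * W12 (yN e1 N) J J1) := by
  obtain ⟨C, hC1, hC⟩ := ls_var
  have hev : ∀ᶠ N : ℕ in Filter.atTop, 16 ≤ N ∧ 10000 * Real.log N ^ 0 ≤ Real.log N ∧ 1 * Real.log N ^ B ≤ (N : ℝ) ^ (1898 / 10000 : ℝ) ∧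
      (110 * 24 * 2 ^ 15 * C) * Real.log N ^ (4 * B + 15 + A) ≤ (N : ℝ) ^ (48 / 1000 : ℝ) ∧
      4 * Real.log N ^ 0 ≤ (N : ℝ) ^ (499 / 1000 : ℝ) := by
    refine (Filter.eventually_ge_atTop 16).and (Filter.Eventually.and ?_ ((s2w_ev B 1 _ (by norm_num)).and ((s2w_ev _ _ _ (by norm_num)).and
      (s2w_ev 0 4 _ (by norm_num)))))
    have h : ∀ᶠ x : ℝ in Filter.atTop, 10000 ≤ Real.log x := Real.tendsto_log_atTop.eventually_ge_atTop 10000
    filter_upwards [tendsto_natCast_atTop_atTop.eventually h] with N hN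
    simpa using hN
  obtain ⟨N0, hN0⟩ := Filter.eventually_atTop.1 hev
  refine ⟨N0, fun N hN e1 J J1 Q S g kS hlev hg hQ1 hQ hkS hden H hH1 hH2 d c hd hdB => ?_⟩
  obtain ⟨hN16, hL, hLB, hbig, h4⟩ := hN0 N hN
  simp only [pow_zero, mul_one, one_mul] at hL hLB h4
  set L := Real.log N with hLdef
  set y := yN e1 N with hy
  obtain ⟨hJ, hz1, hz2, hw1, hw2⟩ := hlev
  have hNr : (16 : ℝ) ≤ N := by exact_mod_cast hN16
  have hN0' : (0 : ℝ) < N := by linarith only [hNr]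
  have hN1 : (1 : ℝ) < N := by linarith only [hNr]
  have hL0 : 0 < L := by linarith only [hL]
  have hzpos : 1 ≤ zz y J := by
    have h : (0 : ℝ) < zz y J := lt_of_lt_of_le (by positivity) hz1
    exact_mod_cast h
  have hzw : zz y J ≤ zz y J1 := by
    unfold zz
    exact Nat.mul_le_mul_right _ (Nat.pow_le_pow_right (by norm_num) hJ)
  have hQz : Q ≤ zz y J := by
    have h : (Q : ℝ) ≤ zz y J := by
      refine hQ.trans (le_trans ?_ hz1)
      exact Real.rpow_le_rpow_of_exponent_le hN1.le (by norm_num)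
    exact_mod_cast h
  have hdz : d ≤ zz y J := by
    have h : (d : ℝ) ≤ zz y J := hdB.trans (hLB.trans hz1)
    exact_mod_cast h
  have hwpos : 1 ≤ zz y J1 := hzpos.trans hzw
  -- the bound for `W12`
  obtain ⟨hW0, hW1⟩ := s2w_W12 y J J1 hzpos hzw
  have hW2 : W12 y J J1 ≤ 3110 / 10000 * L := by
    have h1 : Real.log (zz y J) ≥ 1898 / 10000 * L := by
      rw [hLdef, ← Real.log_rpow hN0']
      exact Real.log_le_log (by positivity) hz1
    have h2 : 2 * Real.log (zz y J1) ≤ Real.log 16 + L := by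
      rw [hLdef, ← Real.log_mul (by norm_num) hN0'.ne', ← Nat.cast_ofNat (R := ℝ) (n := 2), ← Real.log_pow]
      refine Real.log_le_log (by positivity) ?_
      exact_mod_cast hw2
    have h3 : Real.log 16 ≤ 4 := by
      have : Real.log 16 = 4 * Real.log 2 := by
        rw [show (16 : ℝ) = 2 ^ 4 by norm_num, Real.log_pow]; norm_num
      rw [this]
      have := Real.log_two_lt_d9
      linarith only [this]
    linarith only [hL, hW1, h1, h2, h3]
  -- the coefficients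
  set D := zz y J1 * Q with hD
  have hD1 : 1 ≤ D := Nat.mul_pos hwpos hQ1
  set c2 := s2w_c (zz y J) (zz y J1) Q g with hc2
  have hcub := cub_sum D hD1 c2 (s2w_sqf _ _ _ _ S hg hQz) (s2w_bd _ _ _ _ S hg hQz)
  have hHpos : 1 ≤ H := by
    have h : (0 : ℝ) < H := lt_of_lt_of_le (by positivity) hH1
    exact_mod_cast h
  have hls := hC (8 * N) D d c H c2 (by omega) hD1 hd hHpos
  set E : ℕ → ℝ := fun x => (∑ n ∈ (Ioc x (x + H)).filter (fun n => n % d = c % d), ∑ r ∈ (Icc 1 D).filter (fun r => r ∣ n), c2 r)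
      - H * den D c2 d c with hE
  set M : ℝ := H * den D c2 d c - (if Nat.Coprime c d then (H : ℝ) * (kS * W12 y J J1) / d.totient else 0) with hM
  have hden2 : den D c2 d c = W12 y J J1 * den Q g d c := s2w_den Q g y J J1 d c hd hdz
  have hMb : |M| ≤ H * W12 y J J1 / L ^ (A + 1) := by
    have h1 : M = H * W12 y J J1 * (den Q g d c - (if Nat.Coprime c d then kS / d.totient else 0)) := by
      rw [hM, hden2]
      split_ifs
      · ring
      · ring
    rw [h1, abs_mul, abs_of_nonneg (by positivity)]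
    have h2 := hden d c hd hdB
    calc (H : ℝ) * W12 y J J1 * |den Q g d c - (if Nat.Coprime c d then kS / d.totient else 0)|
        ≤ H * W12 y J J1 * (1 / L ^ (A + 1)) := by
          apply mul_le_mul_of_nonneg_left h2 (by positivity)
      _ = H * W12 y J J1 / L ^ (A + 1) := by ring
  have hM2 : M ^ 2 ≤ (3110 / 10000) ^ 2 * H ^ 2 / L ^ A := by
    have h1 : M ^ 2 ≤ (H * W12 y J J1 / L ^ (A + 1)) ^ 2 := by
      rw [← sq_abs M]
      exact pow_le_pow_left₀ (abs_nonneg _) hMb 2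
    have h2 : (H * W12 y J J1 / L ^ (A + 1)) ≤ 3110 / 10000 * H / L ^ A := by
      rw [div_le_div_iff₀ (by positivity) (by positivity)]
      have h3 : (H : ℝ) * W12 y J J1 ≤ H * (3110 / 10000 * L) := mul_le_mul_of_nonneg_left hW2 (by positivity)
      calc (H : ℝ) * W12 y J J1 * L ^ A ≤ H * (3110 / 10000 * L) * L ^ A := mul_le_mul_of_nonneg_right h3 (by positivity)
        _ = 3110 / 10000 * H * L ^ (A + 1) := by ring
    have h3 : (H * W12 y J J1 / L ^ (A + 1)) ^ 2 ≤ (3110 / 10000 * H / L ^ A) ^ 2 := by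
      exact pow_le_pow_left₀ (by positivity) h2 2
    have h4 : (3110 / 10000 * H / L ^ A) ^ 2 ≤ (3110 / 10000) ^ 2 * H ^ 2 / L ^ A := by
      rw [div_pow, mul_pow]
      have h5 : (1 : ℝ) ≤ L ^ A := one_le_pow₀ (by linarith only [hL])
      have h6 : L ^ A ≤ (L ^ A) ^ 2 := by nlinarith only [h5]
      exact div_le_div_of_nonneg_left (by positivity) (by positivity) h6
    exact h1.trans (h3.trans h4)
  -- the inner quantity
  have hin : ∀ x ∈ Icc (N / 8) (8 * N), ((∑ n ∈ (Ioc x (x + H)).filter (fun n => n % d = c % d), S2 S y J J1 n)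
      - (if Nat.Coprime c d then (H : ℝ) * (kS * W12 y J J1) / d.totient else 0)) ^ 2 ≤ 11 * E x ^ 2 + 11 / 10 * M ^ 2 := by
    intro x _
    have h1 : (∑ n ∈ (Ioc x (x + H)).filter (fun n => n % d = c % d), S2 S y J J1 n) =
        ∑ n ∈ (Ioc x (x + H)).filter (fun n => n % d = c % d), ∑ r ∈ (Icc 1 D).filter (fun r => r ∣ n), c2 r := by
      refine Finset.sum_congr rfl fun n hn => ?_
      rw [mem_filter, mem_Ioc] at hn
      exact s2w_S2 Q g S y J J1 hg n (by omega)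
    have h2 : (∑ n ∈ (Ioc x (x + H)).filter (fun n => n % d = c % d), S2 S y J J1 n)
      - (if Nat.Coprime c d then (H : ℝ) * (kS * W12 y J J1) / d.totient else 0) = E x + M := by
      rw [h1, hE, hM]
      ring
    rw [h2]
    nlinarith only [sq_nonneg (10 * E x - M)]
  have hsum1 : ∑ x ∈ Icc (N / 8) (8 * N), ((∑ n ∈ (Ioc x (x + H)).filter (fun n => n % d = c % d), S2 S y J J1 n)
      - (if Nat.Coprime c d then (H : ℝ) * (kS * W12 y J J1) / d.totient else 0)) ^ 2 ≤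
      11 * ∑ x ∈ Icc 1 (8 * N), E x ^ 2 + 8 * N * (11 / 10 * M ^ 2) := by
    refine (Finset.sum_le_sum hin).trans ?_
    rw [Finset.sum_add_distrib, ← Finset.mul_sum, Finset.sum_const, nsmul_eq_mul, Nat.card_Icc]
    have h1 : ∑ x ∈ Icc (N / 8) (8 * N), E x ^ 2 ≤ ∑ x ∈ Icc 1 (8 * N), E x ^ 2 := by
      refine Finset.sum_le_sum_of_subset_of_nonneg ?_ fun _ _ _ => sq_nonneg _
      exact Finset.Icc_subset_Icc (by omega) le_rfl
    have h2 : ((8 * N + 1 - N / 8 : ℕ) : ℝ) ≤ 8 * N := by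
      have : 8 * N + 1 - N / 8 ≤ 8 * N := by omega
      exact_mod_cast this
    have h3 : ((8 * N + 1 - N / 8 : ℕ) : ℝ) * (11 / 10 * M ^ 2) ≤ 8 * N * (11 / 10 * M ^ 2) :=
      mul_le_mul_of_nonneg_right h2 (by positivity)
    linarith only [h1, h3]
  refine hsum1.trans ?_
  -- the variance
  have hvar : 11 * ∑ x ∈ Icc 1 (8 * N), E x ^ 2 ≤ 1 / 10 * (N * (H : ℝ) ^ 2 / L ^ A) := by
    have hV : ∑ x ∈ Icc 1 (8 * N), E x ^ 2 ≤ C * ((8 * N : ℕ) + ((d : ℝ) * D) ^ 2) * H * (d : ℝ) ^ 2 * (2 + Real.log D) ^ 15 := by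
      refine hls.trans ?_
      exact mul_le_mul_of_nonneg_left hcub (by positivity)
    -- the size of `D`
    have hDsq : (D : ℝ) ^ 2 ≤ 16 * (N * (N : ℝ) ^ (2 / 1000 : ℝ)) := by
      have h1 : ((zz y J1 : ℕ) : ℝ) ^ 2 ≤ 16 * N := by exact_mod_cast hw2
      have h2 : (Q : ℝ) ^ 2 ≤ (N : ℝ) ^ (2 / 1000 : ℝ) := by
        have h3 : (Q : ℝ) ^ 2 ≤ ((N : ℝ) ^ (1 / 1000 : ℝ)) ^ 2 := pow_le_pow_left₀ (by positivity) hQ 2
        rw [← Real.rpow_natCast ((N : ℝ) ^ (1 / 1000 : ℝ)) 2, ← Real.rpow_mul hN0'.le] at h3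
        norm_num at h3 ⊢
        exact h3
      rw [hD]
      push_cast
      rw [mul_pow]
      calc ((zz y J1 : ℕ) : ℝ) ^ 2 * (Q : ℝ) ^ 2 ≤ (16 * N) * (N : ℝ) ^ (2 / 1000 : ℝ) := by
            apply mul_le_mul h1 h2 (by positivity) (by positivity)
        _ = 16 * (N * (N : ℝ) ^ (2 / 1000 : ℝ)) := by ring
    have hDN : (D : ℝ) ≤ N := by
      have h1 : (D : ℝ) ^ 2 ≤ (N : ℝ) ^ 2 := by
        refine hDsq.trans ?_
        have h2 : (16 : ℝ) ≤ (N : ℝ) ^ (998 / 1000 : ℝ) := by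
          have h3 : (N : ℝ) ^ (998 / 1000 : ℝ) = (N : ℝ) ^ (499 / 1000 : ℝ) * (N : ℝ) ^ (499 / 1000 : ℝ) := by
            rw [← Real.rpow_add hN0']; norm_num
          rw [h3]
          nlinarith only [h4]
        have h4 : (N : ℝ) ^ 2 = N * ((N : ℝ) ^ (998 / 1000 : ℝ) * (N : ℝ) ^ (2 / 1000 : ℝ)) := by
          rw [← Real.rpow_add hN0']
          norm_num
          ring
        rw [h4]
        have h5 : (0 : ℝ) ≤ (N : ℝ) ^ (2 / 1000 : ℝ) := by positivity
        nlinarith only [h2, hDsq, mul_nonneg hN0'.le h5]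
      exact (pow_le_pow_iff_left₀ (by positivity) (by positivity) (by norm_num)).1 h1
    have hlogD : 2 + Real.log D ≤ 2 * L := by
      have h1 : Real.log D ≤ L := Real.log_le_log (by exact_mod_cast hD1) hDN
      linarith only [hL, h1]
    have hlogD0 : 0 ≤ Real.log D := Real.log_nonneg (by exact_mod_cast hD1)
    have h15 : (2 + Real.log D) ^ 15 ≤ (2 * L) ^ 15 := pow_le_pow_left₀ (by linarith only [hlogD0]) hlogD 15
    have hLB1 : (1 : ℝ) ≤ L ^ B := one_le_pow₀ (by linarith only [hL])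
    have hd2 : (d : ℝ) ^ 2 ≤ (L ^ B) ^ 2 := pow_le_pow_left₀ (by positivity) hdB 2
    have hNn : (1 : ℝ) ≤ (N : ℝ) ^ (2 / 1000 : ℝ) := Real.one_le_rpow hN1.le (by norm_num)
    have hb1 : ((8 * N : ℕ) : ℝ) + ((d : ℝ) * D) ^ 2 ≤ 24 * (L ^ B) ^ 2 * (N * (N : ℝ) ^ (2 / 1000 : ℝ)) := by
      rw [mul_pow]
      push_cast
      have h1 : (d : ℝ) ^ 2 * (D : ℝ) ^ 2 ≤ (L ^ B) ^ 2 * (16 * (N * (N : ℝ) ^ (2 / 1000 : ℝ))) :=
        mul_le_mul hd2 hDsq (by positivity) (by positivity)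
      have h2 : (8 : ℝ) * N ≤ (L ^ B) ^ 2 * (8 * (N * (N : ℝ) ^ (2 / 1000 : ℝ))) := by
        have h3 : (1 : ℝ) ≤ (L ^ B) ^ 2 := one_le_pow₀ hLB1
        have h4 : (N : ℝ) ≤ N * (N : ℝ) ^ (2 / 1000 : ℝ) := le_mul_of_one_le_right hN0'.le hNn
        have h5 : 8 * (N : ℝ) ≤ 8 * (N * (N : ℝ) ^ (2 / 1000 : ℝ)) := by linarith only [h4]
        exact h5.trans (le_mul_of_one_le_left (by positivity) h3)
      linarith only [h1, h2]
    have hC0 : 0 < C := by linarith only [hC1]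
    have hb2 : C * ((8 * N : ℕ) + ((d : ℝ) * D) ^ 2) * H * (d : ℝ) ^ 2 * (2 + Real.log D) ^ 15 ≤
        C * (24 * (L ^ B) ^ 2 * (N * (N : ℝ) ^ (2 / 1000 : ℝ))) * H * (L ^ B) ^ 2 * (2 * L) ^ 15 := by
      have hA : C * ((8 * N : ℕ) + ((d : ℝ) * D) ^ 2) ≤ C * (24 * (L ^ B) ^ 2 * (N * (N : ℝ) ^ (2 / 1000 : ℝ))) :=
        mul_le_mul_of_nonneg_left hb1 hC0.le
      have hB : C * ((8 * N : ℕ) + ((d : ℝ) * D) ^ 2) * H ≤ C * (24 * (L ^ B) ^ 2 * (N * (N : ℝ) ^ (2 / 1000 : ℝ))) * H :=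
        mul_le_mul_of_nonneg_right hA (by positivity)
      have hC' : C * ((8 * N : ℕ) + ((d : ℝ) * D) ^ 2) * H * (d : ℝ) ^ 2 ≤
          C * (24 * (L ^ B) ^ 2 * (N * (N : ℝ) ^ (2 / 1000 : ℝ))) * H * (L ^ B) ^ 2 :=
        mul_le_mul hB hd2 (by positivity) (by positivity)
      exact mul_le_mul hC' h15 (by positivity) (by positivity)
    have hHN : (110 * 24 * 2 ^ 15 * C) * L ^ (4 * B + 15 + A) * (N : ℝ) ^ (2 / 1000 : ℝ) ≤ H := by
      refine le_trans ?_ hH1
      have h1 : (N : ℝ) ^ (1 / 20 : ℝ) = (N : ℝ) ^ (48 / 1000 : ℝ) * (N : ℝ) ^ (2 / 1000 : ℝ) := by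
        rw [← Real.rpow_add hN0']; norm_num
      rw [h1]
      exact mul_le_mul_of_nonneg_right hbig (by positivity)
    have hfin : 11 * (C * (24 * (L ^ B) ^ 2 * (N * (N : ℝ) ^ (2 / 1000 : ℝ))) * H * (L ^ B) ^ 2 * (2 * L) ^ 15) ≤
        1 / 10 * (N * (H : ℝ) ^ 2 / L ^ A) := by
      rw [← mul_div_assoc, le_div_iff₀ (by positivity)]
      have h1 : 11 * (C * (24 * (L ^ B) ^ 2 * (N * (N : ℝ) ^ (2 / 1000 : ℝ))) * H * (L ^ B) ^ 2 * (2 * L) ^ 15) * L ^ A =
          1 / 10 * (N * H) * ((110 * 24 * 2 ^ 15 * C) * L ^ (4 * B + 15 + A) * (N : ℝ) ^ (2 / 1000 : ℝ)) := by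
        rw [pow_add, pow_add, mul_comm 4 B, pow_mul]
        ring
      rw [h1]
      have h2 : 1 / 10 * (N * (H : ℝ)) * ((110 * 24 * 2 ^ 15 * C) * L ^ (4 * B + 15 + A) * (N : ℝ) ^ (2 / 1000 : ℝ)) ≤
          1 / 10 * (N * (H : ℝ)) * H := mul_le_mul_of_nonneg_left hHN (by positivity)
      refine h2.trans (le_of_eq ?_)
      ring
    have h11 : 11 * ∑ x ∈ Icc 1 (8 * N), E x ^ 2 ≤
        11 * (C * (24 * (L ^ B) ^ 2 * (N * (N : ℝ) ^ (2 / 1000 : ℝ))) * H * (L ^ B) ^ 2 * (2 * L) ^ 15) := by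
      have := hV.trans hb2
      linarith only [hV, hb2]
    exact h11.trans hfin
  have hmain : 8 * N * (11 / 10 * M ^ 2) ≤ 9 / 10 * (N * (H : ℝ) ^ 2 / L ^ A) := by
    have h1 : 8 * (N : ℝ) * (11 / 10 * M ^ 2) ≤ 8 * N * (11 / 10 * ((3110 / 10000) ^ 2 * H ^ 2 / L ^ A)) := by
      apply mul_le_mul_of_nonneg_left _ (by positivity)
      linarith only [hM2]
    refine h1.trans ?_
    have h2 : 8 * (N : ℝ) * (11 / 10 * ((3110 / 10000) ^ 2 * H ^ 2 / L ^ A)) = (8 * 11 / 10 * (3110 / 10000) ^ 2) * (N * (H : ℝ) ^ 2 / L ^ A) := by ring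
    rw [h2]
    exact mul_le_mul_of_nonneg_right (by norm_num) (by positivity)
  linarith only [hvar, hmain]

end Pool.Agent.H43.PX

end
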