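import Pool.Agent.H43.PJ.H43.PX.Defs
import Pool.Agent.H43.PJ.M28
import Pool.Agent.H43.PJ.M37
import Pool.Agent.H43.PJ.M70
import Pool.Agent.H43.PJ.M88

/-! The parts of this file: H76.BW.Id, H76.BW.Bw, H43.PX.LfuG. -/

section

/-!
# BW Id: Ramaré's identity for `Bx` and the bounds (MP_967f73_nt, project PX)
-/

set_option autoImplicit false

namespace Pool.Agent.H76.BW

open Finset
open Pool.Agent.H43.MP (blk Hn idx Rn)
open Pool.Agent.H53.MID (Fp)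
open Pool.Agent.H76.TP (yN zz rg nu PY)
open Pool.Agent.H91.TQ (om)
open Pool.Agent.H31.EQ (Gs gam WDx sqz)
open Pool.Agent.H46.TPQ (om_pow rg_zero_or_one gs_eq_sum rg_div om_cof om_card)
open Pool.Agent.H43.PX (Bx LevX)

/-- the cofactor weights of `Bx/4` -/
noncomputable def bB (y J J1 k : ℕ) : ℝ :=
  rg y k * ((1 - ((min (om y J J1 k) 5 : ℕ) : ℝ)) / (4 * (1 + (nu y J k : ℝ))))

theorem zz_zero (y : ℕ) : zz y 0 = y := by
  unfold zz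
  rw [pow_zero, one_mul]

theorem nu_eq_om (y J k : ℕ) : nu y J k = om y 0 J k := by
  unfold nu om
  rw [zz_zero]

theorem bB_abs (y J J1 k : ℕ) : |bB y J J1 k| ≤ 1 := by
  unfold bB
  have h1 : |(1 : ℝ) - ((min (om y J J1 k) 5 : ℕ) : ℝ)| ≤ 4 := by
    have h2 : ((min (om y J J1 k) 5 : ℕ) : ℝ) ≤ 5 := by exact_mod_cast min_le_right _ _
    have h3 : (0 : ℝ) ≤ ((min (om y J J1 k) 5 : ℕ) : ℝ) := Nat.cast_nonneg _
    rw [abs_le]
    constructor <;> linarith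
  have hn : (0 : ℝ) ≤ nu y J k := Nat.cast_nonneg _
  have h4 : |(1 - ((min (om y J J1 k) 5 : ℕ) : ℝ)) / (4 * (1 + (nu y J k : ℝ)))| ≤ 1 := by
    rw [abs_div, abs_of_pos (show (0 : ℝ) < 4 * (1 + (nu y J k : ℝ)) by positivity), div_le_one (by positivity)]
    linarith
  rcases rg_zero_or_one y k with h | h <;> rw [h]
  · norm_num
  · rw [one_mul]
    exact h4

/-- `om` does not see the primes `≤ z` -/
theorem om_small {y J J1 m p : ℕ} (hm : 1 ≤ m) (hp : p.Prime) (hz : p ≤ zz y J) (hpm : p ∣ m) :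
    om y J J1 (m / p) = om y J J1 m := by
  obtain ⟨k, rfl⟩ := hpm
  have hk : 1 ≤ k := by
    rcases Nat.eq_zero_or_pos k with h | h
    · rw [h] at hm
      simp at hm
    · exact h
  rw [Nat.mul_div_cancel_left k hp.pos]
  have e1 : (p * k).primeFactors = insert p k.primeFactors := by
    rw [Nat.primeFactors_mul hp.ne_zero (by omega), Nat.Prime.primeFactors hp, singleton_union]
  unfold om
  rw [e1, Finset.filter_insert, if_neg (by omega)]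

theorem gs_bx (y J J1 m : ℕ) (hm : 1 ≤ m) (hom : om y J J1 m ≤ 5) (hsq : ¬ sqz (2 ^ 0 * y) m) :
    4 * Gs (fun _ => bB y J J1) y 0 J m = Bx y J J1 m := by
  rw [gs_eq_sum _ y 0 J m (Nat.zero_le _)]
  have h1 : ∀ p ∈ (PY (zz y 0) (zz y J)).filter (fun p => p ∣ m),
      bB y J J1 (m / p) = rg y m * ((1 - (om y J J1 m : ℝ)) / (4 * (nu y J m : ℝ))) := by
    intro p hp
    unfold PY at hp
    rw [mem_filter, mem_filter, mem_Ioc] at hp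
    obtain ⟨⟨⟨h1, h2⟩, h3⟩, h4⟩ := hp
    have hyp : y < p := by
      rw [zz_zero] at h1
      exact h1
    have h5 : ¬ p ^ 2 ∣ m := fun h5 => hsq ⟨p, h3, by rw [pow_zero, one_mul]; exact hyp, h5⟩
    have h6 := om_cof hm h3 h1 h2 h4 h5
    rw [← nu_eq_om, ← nu_eq_om] at h6
    have h7 := om_small (J1 := J1) hm h3 h2 h4
    unfold bB
    rw [rg_div h3 hyp h4, ← h6, h7, min_eq_left hom]
    push_cast
    rfl
  rw [sum_congr rfl h1, sum_const, om_card hm, nsmul_eq_mul, ← nu_eq_om]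
  unfold Bx
  split_ifs with h
  · rw [h]
    simp
  · have : (nu y J m : ℝ) ≠ 0 := by
      exact_mod_cast h
    field_simp

theorem gs_bound (y J J1 m : ℕ) (hm : 1 ≤ m) : |Gs (fun _ => bB y J J1) y 0 J m| ≤ nu y J m := by
  rw [gs_eq_sum _ y 0 J m (Nat.zero_le _), nu_eq_om, ← om_card hm]
  refine (abs_sum_le_sum_abs _ _).trans ?_
  refine (sum_le_sum fun p _ => bB_abs y J J1 (m / p)).trans ?_
  rw [sum_const, nsmul_eq_mul, mul_one]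

theorem bx_bound (y J J1 m : ℕ) (hom : om y J J1 m ≤ 5) : |Bx y J J1 m| ≤ 4 := by
  unfold Bx
  split_ifs with h
  · norm_num
  · have h2 : (om y J J1 m : ℝ) ≤ 5 := by exact_mod_cast hom
    have h3 : (0 : ℝ) ≤ om y J J1 m := Nat.cast_nonneg _
    rcases rg_zero_or_one y m with h | h <;> rw [h]
    · norm_num
    · rw [one_mul, abs_le]
      constructor <;> linarith

/-- sizes -/
theorem bw_sizes (e1 : ℝ) (he1 : 0 < e1) (he2 : e1 ≤ 1 / 1000) (B : ℕ) : ∃ N0 : ℕ, ∀ N : ℕ, N0 ≤ N →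
    (N : ℝ) ^ (e1 / 2) ≤ yN e1 N ∧ Real.log N ^ B < yN e1 N ∧ 16 ≤ Real.log N ∧
    ∀ J J1 : ℕ, LevX N (yN e1 N) J J1 → ∀ m : ℕ, 1 ≤ m → m ≤ 16 * N →
      om (yN e1 N) J J1 m ≤ 5 ∧ 4 * (nu (yN e1 N) J m : ℝ) ≤ Real.log N := by
  obtain ⟨N1, hN1⟩ := Pool.Agent.H76.GB.log_pow_le (e1 / 2) 2 (by linarith) (by norm_num) B
  obtain ⟨N2, hN2⟩ := Pool.Agent.H80.LV.log_ge (max 16 (16 / e1))
  obtain ⟨N3, hN3⟩ := Pool.Agent.H76.GB.log_pow_le (1 / 10) 17 (by norm_num) (by norm_num) 0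
  refine ⟨max (max N1 N2) (max N3 16), fun N hN => ?_⟩
  simp only [max_le_iff] at hN
  obtain ⟨⟨g1, g2⟩, g3, g4⟩ := hN
  have k1 := hN1 N g1
  have k2 := hN2 N g2
  have k3 := hN3 N g3
  rw [pow_zero, mul_one] at k3
  have hNpos : (0 : ℝ) < N := by exact_mod_cast (by omega : 0 < N)
  have hNone : (1 : ℝ) ≤ N := by exact_mod_cast (by omega : 1 ≤ N)
  have hN16 : (16 : ℝ) ≤ N := by exact_mod_cast g4
  have hL16 : 16 ≤ Real.log N := (le_max_left _ _).trans k2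
  have hLe : 16 / e1 ≤ Real.log N := (le_max_right _ _).trans k2
  have hLB : 1 ≤ Real.log N ^ B := one_le_pow₀ (by linarith)
  have hx1 : (1 : ℝ) ≤ (N : ℝ) ^ (e1 / 2) := Real.one_le_rpow hNone (by linarith)
  have hx2 : (N : ℝ) ^ e1 = (N : ℝ) ^ (e1 / 2) * (N : ℝ) ^ (e1 / 2) := by
    rw [← Real.rpow_add hNpos]
    congr 1
    ring
  have hfl : (N : ℝ) ^ e1 < yN e1 N + 1 := Nat.lt_floor_add_one _
  have hx3 : 2 ≤ (N : ℝ) ^ (e1 / 2) := by nlinarith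
  have hy1 : (N : ℝ) ^ (e1 / 2) ≤ yN e1 N := by nlinarith
  have hy2 : Real.log N ^ B < yN e1 N := by nlinarith
  refine ⟨hy1, hy2, hL16, fun J J1 hL m hm hm2 => ⟨?_, ?_⟩⟩
  · by_contra hcon
    obtain ⟨-, l2, -, -, -⟩ := hL
    have hz0 : (0 : ℝ) < zz (yN e1 N) J := lt_of_lt_of_le (by positivity) l2
    have hzp : 1 ≤ zz (yN e1 N) J := by exact_mod_cast hz0
    have t1 := om_pow (yN e1 N) J J1 m hm
    have t2 : zz (yN e1 N) J ^ 6 ≤ m := (Nat.pow_le_pow_right hzp (by omega)).trans t1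
    have t3 : (zz (yN e1 N) J : ℝ) ^ 6 ≤ m := by exact_mod_cast t2
    have t4 : ((N : ℝ) ^ (1898 / 10000 : ℝ)) ^ 6 ≤ (zz (yN e1 N) J : ℝ) ^ 6 := pow_le_pow_left₀ (by positivity) l2 6
    have t5 : (m : ℝ) ≤ 16 * N := by exact_mod_cast hm2
    have t6 : (N : ℝ) ^ (1 / 10 : ℝ) * N ≤ ((N : ℝ) ^ (1898 / 10000 : ℝ)) ^ 6 := by
      rw [← Real.rpow_natCast, ← Real.rpow_mul hNpos.le]
      conv_lhs => rw [← Real.rpow_one (N : ℝ)]
      rw [← Real.rpow_mul hNpos.le, ← Real.rpow_add hNpos]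
      exact Real.rpow_le_rpow_of_exponent_le hNone (by norm_num)
    have t7 : 17 * (N : ℝ) ≤ (N : ℝ) ^ (1 / 10 : ℝ) * N := mul_le_mul_of_nonneg_right k3 hNpos.le
    linarith
  · have t1 := om_pow (yN e1 N) 0 J m hm
    rw [zz_zero, ← nu_eq_om] at t1
    set t := nu (yN e1 N) J m with ht
    have t2 : (yN e1 N : ℝ) ^ t ≤ 16 * N := by
      have : ((yN e1 N ^ t : ℕ) : ℝ) ≤ ((16 * N : ℕ) : ℝ) := by exact_mod_cast t1.trans hm2
      push_cast at this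
      exact this
    have t3 : ((N : ℝ) ^ (e1 / 2)) ^ t ≤ (N : ℝ) ^ (2 : ℝ) := by
      calc ((N : ℝ) ^ (e1 / 2)) ^ t ≤ (yN e1 N : ℝ) ^ t := pow_le_pow_left₀ (by positivity) hy1 t
        _ ≤ 16 * N := t2
        _ ≤ N * N := mul_le_mul_of_nonneg_right hN16 hNpos.le
        _ = (N : ℝ) ^ (2 : ℝ) := by
          rw [show (2 : ℝ) = ((2 : ℕ) : ℝ) by norm_num, Real.rpow_natCast]
          ring
    rw [← Real.rpow_natCast, ← Real.rpow_mul hNpos.le, Real.rpow_le_rpow_left_iff (by linarith)] at t3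
    have t4 : (t : ℝ) * e1 ≤ 4 := by linarith
    have t5 : (t : ℝ) ≤ 4 / e1 := by rwa [le_div_iff₀ he1]
    calc 4 * (t : ℝ) ≤ 4 * (4 / e1) := by linarith
      _ = 16 / e1 := by ring
      _ ≤ Real.log N := hLe

end Pool.Agent.H76.BW

end

section

/-!
# BW: `Bx` is well distributed in almost all blocks (MP_967f73_nt, project PX), from `eq5` (fifth moment) as a hypothesis `EQ5`
-/

set_option autoImplicit false

namespace Pool.Agent.H76.BW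

open Finset
open Pool.Agent.H43.MP (blk Hn idx Rn)
open Pool.Agent.H43.TS (badQ badQ_wd)
open Pool.Agent.H53.MID (VKp)
open Pool.Agent.H76.TP (yN zz rg nu PY)
open Pool.Agent.H91.TQ (om)
open Pool.Agent.H31.EQ (Gs gam WDx sqz)
open Pool.Agent.H43.PX (Bx LevX)

/-- the statement of `eq5` -/
def EQ5 : Prop := ∀ (e1 e : ℝ), 0 < e1 → 0 < e → ∀ (A B : ℕ), ∃ A0 : ℕ, ∀ A1 : ℕ, A0 ≤ A1 →
    ∃ N0 : ℕ, ∀ N : ℕ, N0 ≤ N → ∀ (H y J0 J1 : ℕ) (b : ℕ → ℕ → ℝ), (N : ℝ) ^ (1 / 11 + e) ≤ H → (H : ℝ) ≤ (N : ℝ) ^ (1 / 3 : ℝ) →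
      (N : ℝ) ^ e1 ≤ (2 ^ J0 * y : ℕ) → ((2 ^ J1 * y : ℕ) : ℝ) ^ 10 * (N : ℝ) ^ e ≤ N * (H : ℝ) ^ 9 → (∀ j k, |b j k| ≤ 1) →
      (∀ j k, b j k ≠ 0 → ∀ q : ℕ, q.Prime → q ∣ k → Real.log N ^ B < q) →
      WDx N H A B (Gs b y J0 J1) (gam (Gs b y J0 J1) ⌊(N : ℝ) / Real.log N ^ A1⌋₊)

/-- the long average: sizes -/
private theorem Bw_H1 (A1 : ℕ) : ∃ N0 : ℕ, ∀ N : ℕ, N0 ≤ N →
    (N : ℝ) ^ (3 / 4 : ℝ) ≤ (⌊(N : ℝ) / Real.log N ^ A1⌋₊ : ℕ) ∧ ((⌊(N : ℝ) / Real.log N ^ A1⌋₊ : ℕ) : ℝ) ≤ N := by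
  obtain ⟨N1, hN1⟩ := Pool.Agent.H76.GB.log_pow_le (1 / 4) 2 (by norm_num) (by norm_num) A1
  obtain ⟨N2, hN2⟩ := Pool.Agent.H80.LV.log_ge 1
  refine ⟨max N1 (max N2 1), fun N hN => ?_⟩
  simp only [max_le_iff] at hN
  obtain ⟨g1, g2, g3⟩ := hN
  have h7 := hN1 N g1
  have hL1 := hN2 N g2
  have hNpos : (0 : ℝ) < N := by exact_mod_cast (by omega : 0 < N)
  have hN1' : (1 : ℝ) ≤ N := by exact_mod_cast g3
  set L := Real.log N with hLdef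
  have hLp : 1 ≤ L ^ A1 := one_le_pow₀ hL1
  constructor
  · have t1 := Nat.lt_floor_add_one ((N : ℝ) / L ^ A1)
    have t2 : (N : ℝ) = (N : ℝ) ^ (3 / 4 : ℝ) * (N : ℝ) ^ (1 / 4 : ℝ) := by
      rw [← Real.rpow_add hNpos]
      norm_num
    have t3 : 2 * (N : ℝ) ^ (3 / 4 : ℝ) ≤ (N : ℝ) / L ^ A1 := by
      rw [le_div_iff₀ (by positivity)]
      calc 2 * (N : ℝ) ^ (3 / 4 : ℝ) * L ^ A1 = (N : ℝ) ^ (3 / 4 : ℝ) * (2 * L ^ A1) := by ring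
        _ ≤ (N : ℝ) ^ (3 / 4 : ℝ) * (N : ℝ) ^ (1 / 4 : ℝ) := mul_le_mul_of_nonneg_left h7 (by positivity)
        _ = N := t2.symm
    have t4 : 1 ≤ (N : ℝ) ^ (3 / 4 : ℝ) := Real.one_le_rpow hN1' (by norm_num)
    linarith
  · exact (Nat.floor_le (by positivity)).trans (div_le_self hNpos.le hLp)

/-- `Bx` in almost all windows -/
theorem bx_wdx (h5 : EQ5) (θ : ℝ) (h1 : 1 / 10 ≤ θ) (h2 : θ ≤ 1 / 4) (e1 : ℝ) (he1 : 0 < e1) (he2 : e1 ≤ 1 / 1000) (A B : ℕ) :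
    ∃ A0 : ℕ, ∀ A1 : ℕ, A0 ≤ A1 → ∃ N0 : ℕ, ∀ N : ℕ, N0 ≤ N → ∀ J J1 : ℕ, LevX N (yN e1 N) J J1 →
      WDx N (Hn θ N) A B (Bx (yN e1 N) J J1) (gam (Bx (yN e1 N) J J1) ⌊(N : ℝ) / Real.log N ^ A1⌋₊) := by
  obtain ⟨A0, hA0⟩ := h5 (e1 / 2) (1 / 2000) (by linarith) (by norm_num) (A + 2) B
  refine ⟨A0, fun A1 hA1 => ?_⟩
  obtain ⟨N1, hN1⟩ := hA0 A1 hA1
  obtain ⟨N2, hN2⟩ := bw_sizes e1 he1 he2 B
  obtain ⟨N3, hN3⟩ := wdx_sqE (e1 / 2) (by linarith) (by linarith) A B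
  obtain ⟨N4, hN4⟩ := Bw_H1 A1
  obtain ⟨N5, hN5⟩ := Pool.Agent.H76.GB.log_pow_le (1 / 2000) 512 (by norm_num) (by norm_num) 0
  obtain ⟨N6, hN6⟩ := Pool.Agent.H43.TP.ev_large θ 1 (by linarith) (by linarith) one_pos le_rfl B
  refine ⟨max (max (max N1 N2) (max N3 N4)) (max (max N5 N6) 1), fun N hN J J1 hL => ?_⟩
  simp only [max_le_iff] at hN
  obtain ⟨⟨⟨g1, g2⟩, g3, g4⟩, ⟨g5, g6⟩, g7⟩ := hN
  obtain ⟨hy1, hyB, hL16, hsz⟩ := hN2 N g2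
  obtain ⟨b1, b2⟩ := hN4 N g4
  have c1 := hN5 N g5
  rw [pow_zero, mul_one] at c1
  obtain ⟨-, f2, f3, -⟩ := hN6 N g6
  have hNpos : (0 : ℝ) < N := by exact_mod_cast (by omega : 0 < N)
  have hNone : (1 : ℝ) ≤ N := by exact_mod_cast g7
  have hHle : (Hn θ N : ℝ) ≤ (N : ℝ) ^ θ := Nat.floor_le (by positivity)
  have hHge : (N : ℝ) ^ (1 / 10 : ℝ) / 2 ≤ Hn θ N := by
    have t1 : (N : ℝ) ^ (1 / 10 : ℝ) ≤ (N : ℝ) ^ θ := Real.rpow_le_rpow_of_exponent_le hNone h1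
    linarith
  have hz1 : ((2 ^ J * yN e1 N : ℕ) : ℝ) ≤ (N : ℝ) ^ (1899 / 10000 : ℝ) := hL.2.2.1
  set y := yN e1 N with hy
  set b : ℕ → ℕ → ℝ := fun _ => bB y J J1 with hb
  have hLpos : 0 < Real.log N := by linarith
  have hW : WDx N (Hn θ N) (A + 2) B (Gs b y 0 J) (gam (Gs b y 0 J) ⌊(N : ℝ) / Real.log N ^ A1⌋₊) := by
    refine hN1 N g1 (Hn θ N) y 0 J b ?_ ?_ ?_ ?_ (fun j k => bB_abs y J J1 k) ?_
    · have t1 : (N : ℝ) ^ (1 / 10 : ℝ) = (N : ℝ) ^ (1 / 11 + 1 / 2000 : ℝ) * (N : ℝ) ^ (1 / 10 - 1 / 11 - 1 / 2000 : ℝ) := by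
        rw [← Real.rpow_add hNpos]
        norm_num
      have t2 : (512 : ℝ) ≤ (N : ℝ) ^ (1 / 10 - 1 / 11 - 1 / 2000 : ℝ) :=
        c1.trans (Real.rpow_le_rpow_of_exponent_le hNone (by norm_num))
      have t3 : 0 < (N : ℝ) ^ (1 / 11 + 1 / 2000 : ℝ) := Real.rpow_pos_of_pos hNpos _
      have t4 : (N : ℝ) ^ (1 / 11 + 1 / 2000 : ℝ) * 512 ≤ (N : ℝ) ^ (1 / 10 : ℝ) := by
        rw [t1]
        exact mul_le_mul_of_nonneg_left t2 t3.le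
      linarith
    · exact hHle.trans (Real.rpow_le_rpow_of_exponent_le hNone (by linarith))
    · rw [pow_zero, one_mul]
      exact hy1
    · have t1 : ((2 ^ J * y : ℕ) : ℝ) ^ 10 ≤ (N : ℝ) ^ (1899 / 1000 : ℝ) := by
        calc ((2 ^ J * y : ℕ) : ℝ) ^ 10 ≤ ((N : ℝ) ^ (1899 / 10000 : ℝ)) ^ 10 := pow_le_pow_left₀ (Nat.cast_nonneg _) hz1 10
          _ = (N : ℝ) ^ (1899 / 1000 : ℝ) := by
            rw [← Real.rpow_natCast, ← Real.rpow_mul hNpos.le]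
            norm_num
      have t2 : (N : ℝ) ^ (9 / 10 : ℝ) / 512 ≤ (Hn θ N : ℝ) ^ 9 := by
        calc (N : ℝ) ^ (9 / 10 : ℝ) / 512 = ((N : ℝ) ^ (1 / 10 : ℝ) / 2) ^ 9 := by
              rw [div_pow, ← Real.rpow_natCast, ← Real.rpow_mul hNpos.le]
              norm_num
          _ ≤ (Hn θ N : ℝ) ^ 9 := pow_le_pow_left₀ (by positivity) hHge 9
      calc ((2 ^ J * y : ℕ) : ℝ) ^ 10 * (N : ℝ) ^ (1 / 2000 : ℝ)
          ≤ (N : ℝ) ^ (1899 / 1000 : ℝ) * (N : ℝ) ^ (1 / 2000 : ℝ) := mul_le_mul_of_nonneg_right t1 (by positivity)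
        _ = (N : ℝ) * (N : ℝ) ^ (9 / 10 : ℝ) * (N : ℝ) ^ (-(1 / 2000) : ℝ) := by
            conv_rhs => rw [← Real.rpow_one (N : ℝ)]
            rw [← Real.rpow_mul hNpos.le, ← Real.rpow_mul hNpos.le, ← Real.rpow_add hNpos, ← Real.rpow_add hNpos, ← Real.rpow_add hNpos]
            norm_num
        _ ≤ (N : ℝ) * (N : ℝ) ^ (9 / 10 : ℝ) * (1 / 512) := by
            refine mul_le_mul_of_nonneg_left ?_ (by positivity)
            rw [Real.rpow_neg hNpos.le, ← one_div]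
            exact one_div_le_one_div_of_le (by norm_num) c1
        _ = N * ((N : ℝ) ^ (9 / 10 : ℝ) / 512) := by ring
        _ ≤ N * (Hn θ N : ℝ) ^ 9 := mul_le_mul_of_nonneg_left t2 hNpos.le
    · intro j k hbk q hq hqk
      have t1 : rg y k ≠ 0 := by
        intro h
        apply hbk
        show bB y J J1 k = 0
        unfold bB
        rw [h, zero_mul]
      have t2 : ∀ p : ℕ, p.Prime → p ∣ k → y < p := by
        by_contra hcon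
        apply t1
        unfold rg
        rw [if_neg hcon]
      have t3 : (y : ℝ) < q := by exact_mod_cast t2 q hq hqk
      linarith
  have hW4 := wdx_smul 4 (A := A + 1) (by linarith) hLpos hW
  refine hN3 N g3 (Hn θ N) _ (2 ^ 0 * y) (fun n => 4 * Gs b y 0 J n) (Bx y J J1) ?_ ?_ b1 b2 ?_ ?_ ?_ hW4
  · rw [pow_zero, one_mul]
    exact hy1
  · exact hHle.trans (Real.rpow_le_rpow_of_exponent_le hNone (by linarith))
  · intro n hn hn2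
    obtain ⟨s1, s2⟩ := hsz J J1 hL n hn hn2
    have t1 := gs_bound y J J1 n hn
    show |4 * Gs b y 0 J n| ≤ Real.log N
    rw [abs_mul, abs_of_pos (by norm_num : (0 : ℝ) < 4)]
    linarith
  · intro n hn hn2
    obtain ⟨s1, s2⟩ := hsz J J1 hL n hn hn2
    exact (bx_bound y J J1 n s1).trans (by linarith)
  · intro n hn hn2 hs
    exact gs_bx y J J1 n hn (hsz J J1 hL n hn hn2).1 hs

theorem bx_badQ_of (h5 : EQ5) (θ : ℝ) (h1 : 1 / 10 ≤ θ) (h2 : θ ≤ 1 / 4) (e1 : ℝ) (he1 : 0 < e1) (he2 : e1 ≤ 1 / 1000) (A B : ℕ) :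
    ∃ A0 : ℕ, ∀ A1 : ℕ, A0 ≤ A1 → ∃ N0 : ℕ, ∀ N : ℕ, N0 ≤ N → ∀ J J1 : ℕ, LevX N (yN e1 N) J J1 →
      ((badQ N (Hn θ N) A B (Bx (yN e1 N) J J1)
        (fun i => gam (Bx (yN e1 N) J J1) ⌊(N : ℝ) / Real.log N ^ A1⌋₊ (i * Hn θ N))).card : ℝ) ≤
        (N : ℝ) / (Hn θ N) / Real.log N ^ A := by
  obtain ⟨A0, hA0⟩ := bx_wdx h5 θ h1 h2 e1 he1 he2 (4 * A + 5 * B + 2) B
  refine ⟨A0, fun A1 hA1 => ?_⟩
  obtain ⟨N1, hN1⟩ := hA0 A1 hA1
  obtain ⟨N2, hN2⟩ := bw_sizes e1 he1 he2 B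
  obtain ⟨N3, hN3⟩ := Pool.Agent.H43.TP.ev_large θ 1 (by linarith) (by linarith) one_pos le_rfl B
  obtain ⟨N4, hN4⟩ := Bw_H1 A1
  obtain ⟨N5, hN5⟩ := Pool.Agent.H76.GB.log_pow_le (2 / 3) 256 (by norm_num) (by norm_num) (A1 + A + B)
  obtain ⟨N6, hN6⟩ := Pool.Agent.H76.GB.log_pow_le (2 / 3) 32 (by norm_num) (by norm_num) 0
  refine ⟨max (max (max N1 N2) (max N3 N4)) (max (max N5 N6) 640), fun N hN J J1 hL => ?_⟩
  simp only [max_le_iff] at hN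
  obtain ⟨⟨⟨g1, g2⟩, g3, g4⟩, ⟨g5, g6⟩, g7⟩ := hN
  obtain ⟨hy1, hyB, hL16, hsz⟩ := hN2 N g2
  obtain ⟨f1, f2, f3, -⟩ := hN3 N g3
  obtain ⟨b1, b2⟩ := hN4 N g4
  have k5 := hN5 N g5
  have k6 := hN6 N g6
  rw [pow_zero, mul_one] at k6
  rw [one_mul] at f1
  have hNpos : (0 : ℝ) < N := by exact_mod_cast (by omega : 0 < N)
  have hNone : (1 : ℝ) ≤ N := by exact_mod_cast (by omega : 1 ≤ N)
  have hW := hN1 N g1 J J1 hL
  set y := yN e1 N with hy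
  set L := Real.log N with hLdef
  set H := Hn θ N with hHdef
  set G := Bx y J J1 with hG
  have hL0 : 0 < L := by linarith
  have hL1 : 1 ≤ L := by linarith
  have hLp : ∀ n : ℕ, 1 ≤ L ^ n := fun n => one_le_pow₀ hL1
  have hgs : ∀ n : ℕ, 1 ≤ n → n ≤ 16 * N → |G n| ≤ 4 := fun n hn hn2 => bx_bound y J J1 n (hsz J J1 hL n hn hn2).1
  have hadd : ∀ a b : ℝ, (N : ℝ) ^ (a + b) = (N : ℝ) ^ a * (N : ℝ) ^ b := fun a b => Real.rpow_add hNpos a b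
  have hH3 : (H : ℝ) ≤ (N : ℝ) ^ (1 / 3 : ℝ) := by
    have t0 : (H : ℝ) ≤ (N : ℝ) ^ θ := Nat.floor_le (by positivity)
    exact t0.trans (Real.rpow_le_rpow_of_exponent_le hNone (by linarith))
  have hN3' : (N : ℝ) = (N : ℝ) ^ (1 / 3 : ℝ) * (N : ℝ) ^ (2 / 3 : ℝ) := by
    rw [← hadd]
    norm_num
  have hHN : 16 * (H + 20) ≤ N := by
    have t1 : (32 : ℝ) * H ≤ N := by
      calc (32 : ℝ) * H = H * 32 := by ring
        _ ≤ (N : ℝ) ^ (1 / 3 : ℝ) * (N : ℝ) ^ (2 / 3 : ℝ) := mul_le_mul hH3 k6 (by norm_num) (by positivity)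
        _ = N := hN3'.symm
    have t2 : 32 * H ≤ N := by exact_mod_cast t1
    omega
  have hbig : 256 * (H : ℝ) * L ^ (A1 + A + B) ≤ N := by
    calc 256 * (H : ℝ) * L ^ (A1 + A + B) = H * (256 * L ^ (A1 + A + B)) := by ring
      _ ≤ (N : ℝ) ^ (1 / 3 : ℝ) * (N : ℝ) ^ (2 / 3 : ℝ) := mul_le_mul hH3 k5 (by positivity) (by positivity)
      _ = N := hN3'.symm
  set H1 := ⌊(N : ℝ) / L ^ A1⌋₊ with hH1
  have hH1R : (0 : ℝ) < H1 := lt_of_lt_of_le (by positivity) b1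
  have hH1pos : 1 ≤ H1 := by exact_mod_cast hH1R
  have hH1leN : H1 ≤ N := by exact_mod_cast b2
  have hH1ge : (N : ℝ) / (2 * L ^ A1) ≤ H1 := by
    have t1 := Nat.lt_floor_add_one ((N : ℝ) / L ^ A1)
    have t2 : (1 : ℝ) ≤ (H1 : ℝ) := by exact_mod_cast hH1pos
    have t3 : (N : ℝ) / (2 * L ^ A1) = (N : ℝ) / L ^ A1 / 2 := by
      rw [mul_comm 2, ← div_div]
    rw [t3]
    have t4 : (N : ℝ) / L ^ A1 < H1 + 1 := t1
    linarith
  have hlip : ∀ x x' : ℕ, x ≤ x' + 2 * H → x' ≤ x + 2 * H → N ≤ 8 * x → x ≤ 8 * N → N ≤ 8 * x' → x' ≤ 8 * N →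
      |gam G H1 x - gam G H1 x'| ≤ 1 / (8 * L ^ (A + B)) := by
    intro x x' a1 a2 a3 a4 a5 a6
    have t1 := Pool.Agent.H31.EQ.gam_lip G 4 H1 x x' hH1pos (by norm_num) (fun n hn1 hn2 => hgs n hn1 (by
      have : max x x' ≤ 8 * N := max_le a4 a6
      omega))
    refine t1.trans ?_
    have t2 : |(x : ℝ) - x'| ≤ 2 * H := by
      rw [abs_le]
      have b1 : (x : ℝ) ≤ x' + 2 * H := by exact_mod_cast a1
      have b2 : (x' : ℝ) ≤ x + 2 * H := by exact_mod_cast a2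
      constructor <;> linarith
    rw [div_le_div_iff₀ hH1R (by positivity), one_mul]
    have t3 : 2 * 4 * |(x : ℝ) - x'| * (8 * L ^ (A + B)) ≤ 2 * 4 * (2 * H) * (8 * L ^ (A + B)) :=
      mul_le_mul_of_nonneg_right (by linarith) (by positivity)
    refine t3.trans (le_trans ?_ hH1ge)
    rw [le_div_iff₀ (by positivity)]
    have hp : L ^ A1 * L ^ (A + B) = L ^ (A1 + A + B) := by
      rw [← pow_add]
      congr 1
      omega
    calc 2 * 4 * (2 * (H : ℝ)) * (8 * L ^ (A + B)) * (2 * L ^ A1) = 256 * H * (L ^ A1 * L ^ (A + B)) := by ring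
      _ = 256 * H * L ^ (A1 + A + B) := by rw [hp]
      _ ≤ N := hbig
  have hY : ∀ n : ℕ, 1 ≤ n → n ≤ 16 * N → |G n| ≤ L ^ 1 := by
    intro n hn1 hn2
    rw [pow_one]
    exact (hgs n hn1 hn2).trans (by linarith)
  exact badQ_wd (A := A) (B := B) (C := 1) (η := gam G H1) f1 f3 hHN hY hlip (by omega) hW

end Pool.Agent.H76.BW

end

section

/-!
# PX LfuG: the local Fourier uniformity for all `exp(L^t) ≤ P ≤ N^(θ/20)`, `t > 2/3` (projects MIX, MDB, MDX, VKT)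
-/

set_option autoImplicit false

namespace Pool.Agent.H43.PX

open Finset
open Pool.Agent.H91.PK (ee)
open Pool.Agent.H91.EHA (Lam hR lamR ramS)
open Pool.Agent.H35.W (pb)
open Pool.Agent.H43.MP
open Pool.Agent.H53.MIX

/-- the local Fourier uniformity with the parameters of this project -/
theorem badL_g (θ t : ℝ) (h0 : 0 < θ) (h1 : θ ≤ 1 / 4) (ht : 2 / 3 < t) (ht1 : t < 1) (A : ℕ) :
    ∃ B N0 : ℕ, ∀ N : ℕ, N0 ≤ N → ∀ P : ℕ, Real.exp (Real.log N ^ t) ≤ P → P ≤ Pn θ N →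
      ((badL N (Hn θ N) P (Rn B N) A).card : ℝ) ≤ (N : ℝ) / (Hn θ N) / Real.log N ^ A := by
  classical
  have e1 : 2 / 3 < 2 / 3 + (t - 2 / 3) / 4 := by linarith
  have e2 : 2 / 3 + (t - 2 / 3) / 4 < 1 := by linarith
  have hVK : VKw (2 / 3 + (t - 2 / 3) / 4) := fun K B => Pool.Agent.H76.VKT.vk_class_t _ e1 e2 K B
  have hVE : VKe (2 / 3 + (t - 2 / 3) / 4) := fun A => Pool.Agent.H76.VKT.vk_exp_t _ e1 e2 A
  have hCX : CombX t (2 / 3) :=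
    Pool.Agent.H53.MDB.comb_x_all (2 / 3 + (t - 2 / 3) / 4) _ _ (by linarith) (by linarith) (by linarith)
      (by linarith) (by linarith) hVE
  obtain ⟨B, hB⟩ := lfu_x t (2 / 3 + (t - 2 / 3) / 4) (2 / 3) (by linarith) (by linarith) ht1 (by norm_num) ht hVK
    Pool.Agent.H53.MID.sw_holds hCX A
  obtain ⟨N1, hN1⟩ := hB B le_rfl
  obtain ⟨x2, hx2⟩ := Pool.Agent.H76.GB.log_pow_le (3 * θ / 4) 2 (by positivity) (by norm_num) 0
  refine ⟨B, max N1 (max x2 1), fun N hN P hPt hPn => ?_⟩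
  simp only [max_le_iff] at hN
  obtain ⟨g1, g3, g4⟩ := hN
  have g3 := hx2 N g3
  rw [pow_zero, mul_one] at g3
  have hNr : (1 : ℝ) ≤ N := by exact_mod_cast g4
  have hN0 : (0 : ℝ) < N := by linarith
  have p2 : (P : ℝ) ≤ (N : ℝ) ^ (θ / 20) := by
    have t1 : (Pn θ N : ℝ) ≤ (N : ℝ) ^ (θ / 20) := Nat.floor_le (by positivity)
    exact le_trans (by exact_mod_cast hPn) t1
  have q1 : (N : ℝ) ^ θ < Hn θ N + 1 := Nat.lt_floor_add_one _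
  have q2 : (Hn θ N : ℝ) ≤ (N : ℝ) ^ θ := Nat.floor_le (by positivity)
  have h3 : P ^ 5 ≤ Hn θ N := by
    have t2 : ((P : ℕ) : ℝ) ^ 5 ≤ (N : ℝ) ^ (θ / 4) := by
      refine (pow_le_pow_left₀ (Nat.cast_nonneg _) p2 5).trans (le_of_eq ?_)
      rw [← Real.rpow_natCast, ← Real.rpow_mul hN0.le]
      congr 1
      push_cast
      ring
    have t3 : (N : ℝ) ^ θ = (N : ℝ) ^ (θ / 4) * (N : ℝ) ^ (3 * θ / 4) := by
      rw [← Real.rpow_add hN0]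
      congr 1
      ring
    have t4 : (1 : ℝ) ≤ (N : ℝ) ^ (θ / 4) := Real.one_le_rpow hNr (by positivity)
    have t5 : ((P : ℕ) : ℝ) ^ 5 ≤ Hn θ N := by nlinarith
    exact_mod_cast t5
  have h4 : Hn θ N ^ 2 ≤ N := by
    have t2 : ((Hn θ N : ℕ) : ℝ) ^ 2 ≤ N := by
      refine (pow_le_pow_left₀ (Nat.cast_nonneg _) q2 2).trans ?_
      rw [← Real.rpow_natCast, ← Real.rpow_mul hN0.le]
      refine (Real.rpow_le_rpow_of_exponent_le hNr (?_ : θ * ((2 : ℕ) : ℝ) ≤ 1)).trans (le_of_eq ?_)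
      · push_cast
        linarith
      · rw [Real.rpow_one]
    exact_mod_cast t2
  have h5 := hN1 N g1 (Hn θ N) P hPt h3 h4
  refine le_trans ?_ h5
  norm_cast
  refine card_le_card ?_
  intro i hi
  unfold badL at hi
  unfold Pool.Agent.H53.MID.badB Pool.Agent.H53.MID.Bs
  simp only [mem_filter] at hi ⊢
  obtain ⟨hi1, α, hα⟩ := hi
  refine ⟨?_, α, ?_⟩
  · unfold idx at hi1
    rw [mem_Icc] at hi1 ⊢
    exact ⟨hi1.1, hi1.2.trans (Nat.div_le_div_right (by omega))⟩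
  · refine lt_of_lt_of_le hα (le_of_eq ?_)
    unfold blk Rn
    congr 1
    refine sum_congr rfl fun m _ => ?_
    rw [mul_comm α (m : ℝ)]
    rfl

end Pool.Agent.H43.PX

end
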