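import Pool.Agent.H43.PJ.H43.PX.MassX
import Pool.Agent.H43.PJ.H43.PX.SvX
import Pool.Agent.H43.PJ.M89
import Pool.Agent.H43.PJ.M91
import Pool.Agent.H43.PJ.M92
import Pool.Agent.H43.PJ.M93

/-! The parts of this file: H43.PX.Yin, H43.PX.Res2. -/

section

/-!
# PX Yin: the interface `YIN θ (1/25)`, `1/10 ≤ θ ≤ 1/4` (assembly)

`ε = 1/1000`, `e1` from `sv_pairX`; exponents: `A' = A + 2` for each of the three parts `T, S2 S, Bx` of `Yx`; `A1 = max A0b 10` for the long averages;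
the sieve with the exponent `max (A' + 1) (A1s + 1)`, where `A1s` is the exponent needed by `badQ_nn`.
-/

set_option autoImplicit false

namespace Pool.Agent.H43.PX

open Finset
open Pool.Agent.H91.PK (ee)
open Pool.Agent.H91.EHA (Lam lamR)
open Pool.Agent.H43.MP (blk Hn idx Rn)
open Pool.Agent.H43.TP (pr)
open Pool.Agent.H43.TS (badQ)
open Pool.Agent.H53.MID (VKp Bs Fp)
open Pool.Agent.H76.TP (yN zz rg nu PY Adm)
open Pool.Agent.H91.TQ (om)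
open Pool.Agent.H31.EQ (Gs gam WDx)
open Pool.Agent.H46.TPQ (SvI)

/-- sizes -/
private theorem Yin_ev (θ : ℝ) (h1 : 1 / 10 ≤ θ) (h2 : θ ≤ 1 / 4) : ∃ N0 : ℕ, ∀ N : ℕ, N0 ≤ N →
    400 ≤ Real.log N ∧ 1 ≤ Hn θ N ∧ 8 * Hn θ N ≤ N ∧ (N : ℝ) ^ (1 / 50 : ℝ) ≤ Hn θ N := by
  obtain ⟨x1, hx1⟩ := Pool.Agent.H76.GB.log_ge 400
  obtain ⟨x3, hx3⟩ := Pool.Agent.H76.GB.log_pow_le (1 / 20) 2 (by norm_num) (by norm_num) 0
  obtain ⟨x4, hx4⟩ := Pool.Agent.H76.GB.log_pow_le (3 / 4) 8 (by norm_num) (by norm_num) 0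
  refine ⟨max x1 (max x3 x4), fun N hN => ?_⟩
  simp only [max_le_iff] at hN
  have g1 := hx1 N hN.1
  have g3 := hx3 N hN.2.1
  have g4 := hx4 N hN.2.2
  rw [pow_zero, mul_one] at g3 g4
  have hN0 : N ≠ 0 := by
    rintro rfl
    norm_num at g1
  have hN1 : (1 : ℝ) ≤ N := by exact_mod_cast Nat.one_le_iff_ne_zero.2 hN0
  have hNpos : (0 : ℝ) < N := by linarith
  have q0 : (1 : ℝ) ≤ (N : ℝ) ^ θ := Real.one_le_rpow hN1 (by linarith)
  have q1 : (N : ℝ) ^ θ < Hn θ N + 1 := Nat.lt_floor_add_one _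
  have q2 : (Hn θ N : ℝ) ≤ (N : ℝ) ^ θ := Nat.floor_le (by positivity)
  have q3 : 1 ≤ Hn θ N := Nat.floor_pos.2 q0
  have q4 : (1 : ℝ) ≤ Hn θ N := by exact_mod_cast q3
  refine ⟨g1, q3, ?_, ?_⟩
  · have t1 : (N : ℝ) ^ θ ≤ (N : ℝ) ^ (1 / 4 : ℝ) := Real.rpow_le_rpow_of_exponent_le hN1 h2
    have t2 : (N : ℝ) = (N : ℝ) ^ (1 / 4 : ℝ) * (N : ℝ) ^ (3 / 4 : ℝ) := by
      rw [← Real.rpow_add hNpos]
      norm_num
    have t4 : (8 : ℝ) * Hn θ N ≤ N := by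
      calc (8 : ℝ) * Hn θ N = Hn θ N * 8 := by ring
        _ ≤ (N : ℝ) ^ (1 / 4 : ℝ) * (N : ℝ) ^ (3 / 4 : ℝ) := mul_le_mul (q2.trans t1) g4 (by norm_num) (by positivity)
        _ = N := t2.symm
    exact_mod_cast t4
  · have t1 : (N : ℝ) ^ (1 / 10 : ℝ) ≤ (N : ℝ) ^ θ := Real.rpow_le_rpow_of_exponent_le hN1 h1
    have t2 : (N : ℝ) ^ (1 / 10 : ℝ) = (N : ℝ) ^ (1 / 20 : ℝ) * (N : ℝ) ^ (1 / 20 : ℝ) := by
      rw [← Real.rpow_add hNpos]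
      norm_num
    have t3 : (N : ℝ) ^ (1 / 50 : ℝ) ≤ (N : ℝ) ^ (1 / 20 : ℝ) :=
      Real.rpow_le_rpow_of_exponent_le hN1 (by norm_num)
    have t5 : (0 : ℝ) < (N : ℝ) ^ (1 / 20 : ℝ) := by positivity
    have t4 : 2 * (N : ℝ) ^ (1 / 50 : ℝ) ≤ (N : ℝ) ^ θ := by
      refine le_trans ?_ t1
      rw [t2]
      nlinarith
    linarith

private theorem Yin_idx (N H i : ℕ) (hH : 1 ≤ H) (hHN : 8 * H ≤ N) (hi : i ∈ idx N H) :
    1 ≤ i ∧ N ≤ 4 * (i * H) ∧ i * H ≤ 4 * N ∧ (i + 1) * H ≤ 4 * N := by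
  unfold idx at hi
  rw [mem_Icc] at hi
  obtain ⟨h1, h2⟩ := hi
  have a1 : i * H ≤ 3 * N := le_trans (Nat.mul_le_mul_right _ h2) (Nat.div_mul_le_self _ _)
  have a2 : N < (N / (2 * H) + 1) * (2 * H) := by
    have := Nat.lt_mul_div_succ N (show 0 < 2 * H by omega)
    rw [mul_comm]
    exact this
  have a3 : (N / (2 * H) + 1) * (2 * H) ≤ (i + 1) * (2 * H) := Nat.mul_le_mul_right _ (by omega)
  have a4 : (i + 1) * (2 * H) = 2 * (i * H) + 2 * H := by ring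
  have a5 : (i + 1) * H = i * H + H := by ring
  refine ⟨?_, by omega, by omega, by omega⟩
  rcases Nat.eq_zero_or_pos i with h | h
  · subst h
    omega
  · exact h

private theorem Yin_bxle {y J J1 m : ℕ} (h : om y J J1 m ≤ 5) : Bx y J J1 m ^ 2 ≤ 16 := by
  have h' : (om y J J1 m : ℝ) ≤ 5 := by exact_mod_cast h
  have h0 : (0 : ℝ) ≤ om y J J1 m := Nat.cast_nonneg _
  unfold Bx
  split_ifs with hn
  · norm_num
  · unfold rg
    split_ifs with hr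
    · nlinarith
    · norm_num

/-- the second moment of the difference on a block -/
private theorem Yin_sq {N H i C A0 : ℕ} {S T : ℕ → ℝ} {y J J1 : ℕ} (hL : 400 ≤ Real.log N)
    (hT : ∑ m ∈ blk H i, T m ^ 2 ≤ H * Real.log N ^ C)
    (hS : ∑ m ∈ blk H i, S2 S y J J1 m ^ 2 ≤ H * Real.log N ^ (C + 2 + A0))
    (hB : ∀ m ∈ blk H i, om y J J1 m ≤ 5) :
    ∑ m ∈ blk H i, Yx S T y J J1 m ^ 2 ≤ H * Real.log N ^ (C + 3 + A0) := by
  have hL1 : 1 ≤ Real.log N := by linarith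
  have hcard : (blk H i).card = H := by
    unfold blk
    rw [Nat.card_Ico]
    have : (i + 1) * H = i * H + H := by ring
    omega
  have hBx : ∑ m ∈ blk H i, Bx y J J1 m ^ 2 ≤ H * 16 := by
    calc ∑ m ∈ blk H i, Bx y J J1 m ^ 2 ≤ ∑ m ∈ blk H i, (16 : ℝ) := sum_le_sum fun m hm => Yin_bxle (hB m hm)
      _ = H * 16 := by rw [sum_const, hcard, nsmul_eq_mul]
  have h3 : ∑ m ∈ blk H i, Yx S T y J J1 m ^ 2 ≤
      3 * (∑ m ∈ blk H i, T m ^ 2 + ∑ m ∈ blk H i, S2 S y J J1 m ^ 2 + ∑ m ∈ blk H i, Bx y J J1 m ^ 2) := by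
    rw [← sum_add_distrib, ← sum_add_distrib, mul_sum]
    refine sum_le_sum fun m _ => ?_
    unfold Yx
    nlinarith [sq_nonneg (T m + S2 S y J J1 m), sq_nonneg (T m + Bx y J J1 m), sq_nonneg (S2 S y J J1 m - Bx y J J1 m)]
  have p1 : Real.log N ^ C ≤ Real.log N ^ (C + 2 + A0) := pow_le_pow_right₀ hL1 (by omega)
  have p2 : (16 : ℝ) ≤ Real.log N ^ (C + 2 + A0) := by
    calc (16 : ℝ) ≤ Real.log N ^ 1 := by rw [pow_one]; linarith
      _ ≤ _ := pow_le_pow_right₀ hL1 (by omega)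
  have p3 : Real.log N ^ (C + 3 + A0) = Real.log N ^ (C + 2 + A0) * Real.log N := by
    rw [← pow_succ]
    congr 1
    omega
  have hH0 : (0 : ℝ) ≤ H := Nat.cast_nonneg _
  have p4 : 9 * Real.log N ^ (C + 2 + A0) ≤ Real.log N ^ (C + 3 + A0) := by
    rw [p3]
    have : 0 ≤ Real.log N ^ (C + 2 + A0) := by positivity
    nlinarith
  have q1 : (H : ℝ) * Real.log N ^ C ≤ H * Real.log N ^ (C + 2 + A0) := mul_le_mul_of_nonneg_left p1 hH0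
  have q2 : (H : ℝ) * 16 ≤ H * Real.log N ^ (C + 2 + A0) := mul_le_mul_of_nonneg_left p2 hH0
  have q3 : (H : ℝ) * (9 * Real.log N ^ (C + 2 + A0)) ≤ H * Real.log N ^ (C + 3 + A0) := mul_le_mul_of_nonneg_left p4 hH0
  linarith

private theorem Yin_div {L : ℝ} (hL : 1 ≤ L) {a b : ℕ} (h : a ≤ b) {H : ℝ} (hH : 0 ≤ H) : H / L ^ b ≤ H / L ^ a :=
  div_le_div_of_nonneg_left hH (by positivity) (pow_le_pow_right₀ hL h)

theorem yin (hVK : VKp) (θ : ℝ) (h1 : 1 / 10 ≤ θ) (h2 : θ ≤ 1 / 4) : YIN θ (1 / 25) := by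
  classical
  obtain ⟨e1, he1, he1', hsv⟩ := sv_pairX (1 / 1000) (by norm_num) (by norm_num)
  obtain ⟨C, hsv⟩ := hsv e1 he1 le_rfl
  refine ⟨C + 3, fun A0 A B => ?_⟩
  obtain ⟨A0b, hbx⟩ := Pool.Agent.H76.BW.bx_badQ_of (Pool.Agent.H31.EK.eq5 hVK) θ h1 h2 e1 he1 he1' (A + 2) B
  obtain ⟨Nb, hbx⟩ := hbx (max A0b 10) (le_max_left _ _)
  obtain ⟨A1s, Nn, hnn⟩ := badQ_nn θ h1 h2 (A + 2) B
  obtain ⟨Ns, hs2⟩ := s2_wdx A1s B
  obtain ⟨B0, hsv⟩ := hsv (max (A + 3) (A1s + 1))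
  obtain ⟨Nv, hsv⟩ := hsv (max B0 B) (le_max_left _ _)
  obtain ⟨Nt, ht⟩ := t_badQ θ h1 h2 (A + 2) B (max B0 B) (le_max_right _ _)
  obtain ⟨Nq, hsq⟩ := s2_sq θ h1 h2 C
  obtain ⟨Nm, hm⟩ := massx e1 (max A0b 10) he1 he1' (le_max_right _ _)
  obtain ⟨Nl, hl⟩ := lev_x e1 he1 he1'
  obtain ⟨Nc, hc⟩ := yx_le e1 he1 he1'
  obtain ⟨Nd, hd⟩ := dens_y e1 (max A0b 10) he1 he1'
  obtain ⟨Ne, he⟩ := Yin_ev θ h1 h2
  obtain ⟨Nw, hw⟩ := Pool.Agent.H76.BW.bw_sizes e1 he1 he1' B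
  refine ⟨Nb + Nn + Ns + Nv + Nt + Nq + Nm + Nl + Nc + Nd + Ne + Nw, fun N hN => ?_⟩
  obtain ⟨f1, f2, f3, f4⟩ := he N (by omega)
  obtain ⟨S, T, g, g', kS, kT, Q, v1, v2, v3, v4, v5, v6, v7, v8, v9⟩ := hsv N (by omega)
  obtain ⟨J, J1, hlev⟩ := hl N (by omega)
  obtain ⟨-, -, -, hw⟩ := hw N (by omega)
  have hL1 : 1 ≤ Real.log N := by linarith
  have hH0 : (0 : ℝ) ≤ Hn θ N := Nat.cast_nonneg _
  have hN0 : (0 : ℝ) ≤ N := Nat.cast_nonneg _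
  have hkW : |kS * W12 (yN e1 N) J J1| ≤ 2 := by
    have h1N : 1 ≤ N := by
      by_contra h
      have h0 : N = 0 := by omega
      rw [h0] at f1
      norm_num at f1
    exact (hd N (by omega) J J1 S T kS kT hlev v1 N (by omega) (by omega)).2.2
  refine ⟨Yx S T (yN e1 N) J J1, fun i => kT - kS * W12 (yN e1 N) J J1 -
    gam (Bx (yN e1 N) J J1) ⌊(N : ℝ) / Real.log N ^ (max A0b 10)⌋₊ (i * Hn θ N), ?_, ?_, ?_, ?_⟩
  · intro m hm1 hm2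
    exact hc N (by omega) J J1 S T hlev v1.1 m hm1 hm2
  · intro i hi
    obtain ⟨i1, i2, i3, -⟩ := Yin_idx N (Hn θ N) i f2 f3 hi
    obtain ⟨d1, d2, -⟩ := hd N (by omega) J J1 S T kS kT hlev v1 (i * Hn θ N) (by omega) (by omega)
    have m1 := hm N (by omega) J J1 hlev (i * Hn θ N) i2 i3
    refine ⟨?_, d2⟩
    refine le_trans ?_ d1
    have e0 : (1 : ℝ) / 25 / Real.log N = 1 / 20 / Real.log N - 1 / 100 / Real.log N := by ring
    rw [e0]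
    linarith
  · refine le_trans (Nat.cast_le.2 (card_le_card fun i hi => ?_)) (hsq N (by omega) e1 J J1 S hlev v8 A0)
    rw [mem_filter] at hi ⊢
    refine ⟨hi.1, ?_⟩
    by_contra hcon
    rw [not_lt] at hcon
    obtain ⟨i1, i2, i3, i4⟩ := Yin_idx N (Hn θ N) i f2 f3 hi.1
    have e2 : (i + 1) * Hn θ N = i * Hn θ N + Hn θ N := by ring
    have hiH : 1 ≤ i * Hn θ N := Nat.mul_pos i1 f2
    have hT := v9 (i * Hn θ N) (Hn θ N) hiH f4
    have hY := Yin_sq (N := N) (C := C) (A0 := A0) (S := S) (T := T) (y := yN e1 N) (J := J) (J1 := J1) (H := Hn θ N) (i := i) f1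
      (by unfold blk; rw [e2]; exact hT) hcon
      (fun m hm => by
        unfold blk at hm
        rw [mem_Ico] at hm
        exact (hw J J1 hlev m (by omega) (by omega)).1)
    exact absurd hi.2 (not_lt.2 hY)
  · -- equidistribution
    have hTe : badQ N (Hn θ N) (A + 2) B T (fun _ => kT) = ∅ :=
      ht N (by omega) T kT v1.2.2.1 fun H i α hH hi =>
        ((v7 H i α hH hi).2).trans (Yin_div hL1 (le_max_left _ _) (Nat.cast_nonneg _))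
    have hden : ∀ d a : ℕ, 1 ≤ d → (d : ℝ) ≤ Real.log N ^ B →
        |den Q g d a - (if Nat.Coprime a d then kS / d.totient else 0)| ≤ 1 / Real.log N ^ (A1s + 1) := by
      intro d a hd1 hdB
      refine (den_bs Q g S kS (1 / Real.log N ^ (max (A + 3) (A1s + 1))) ⌊Real.log N ^ (max B0 B)⌋₊ ⌈(N : ℝ) ^ (1 / 50 : ℝ)⌉₊ v3
        (by positivity) (fun H α hH => ?_) d a hd1 ?_).trans (Yin_div hL1 (le_max_right _ _) zero_le_one)
      · have := (v7 H 1 α (Nat.ceil_le.1 hH) le_rfl).1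
        rwa [mul_one_div]
      · exact Nat.le_floor (hdB.trans (pow_le_pow_right₀ hL1 (le_max_right _ _)))
    have hS2 : ((badQ N (Hn θ N) (A + 2) B (S2 S (yN e1 N) J J1) (fun _ => kS * W12 (yN e1 N) J J1)).card : ℝ) ≤
        (N : ℝ) / (Hn θ N) / Real.log N ^ (A + 2) := by
      refine hnn N (by omega) _ _ (fun m hm => ?_) hkW fun H hH1 hH2 =>
        hs2 N (by omega) e1 J J1 Q S g kS hlev v3 v5 v6 v1.2.1 hden H hH1 hH2
      unfold S2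
      refine sum_nonneg fun p hp => v2 _ ?_
      rw [mem_filter] at hp
      have hp0 : 0 < p := Nat.pos_of_dvd_of_pos hp.2 hm
      exact Nat.div_pos (Nat.le_of_dvd hm hp.2) hp0
    have hB2 := hbx N (by omega) J J1 hlev
    have hsub := badQ_sub3 (N := N) (H := Hn θ N) (A := A) (B := B) (Y1 := T) (Y2 := S2 S (yN e1 N) J J1) (Y3 := Bx (yN e1 N) J J1)
      (g1 := fun _ => kT) (g2 := fun _ => kS * W12 (yN e1 N) J J1)
      (g3 := fun i => gam (Bx (yN e1 N) J J1) ⌊(N : ℝ) / Real.log N ^ (max A0b 10)⌋₊ (i * Hn θ N)) f1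
    have hc1 : ((badQ N (Hn θ N) A B (fun m => T m - S2 S (yN e1 N) J J1 m - Bx (yN e1 N) J J1 m)
        (fun i => (fun _ => kT) i - (fun _ => kS * W12 (yN e1 N) J J1) i -
          (fun i => gam (Bx (yN e1 N) J J1) ⌊(N : ℝ) / Real.log N ^ (max A0b 10)⌋₊ (i * Hn θ N)) i)).card : ℝ) ≤
        (N : ℝ) / (Hn θ N) / Real.log N ^ (A + 2) + (N : ℝ) / (Hn θ N) / Real.log N ^ (A + 2) := by
      refine (Nat.cast_le.2 (card_le_card hsub)).trans ?_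
      rw [hTe, empty_union]
      refine (Nat.cast_le.2 (card_union_le _ _)).trans ?_
      push_cast
      exact add_le_add hS2 hB2
    refine hc1.trans ?_
    have hq : (0 : ℝ) ≤ (N : ℝ) / Hn θ N := by positivity
    have e3 : Real.log N ^ (A + 2) = Real.log N ^ A * Real.log N ^ 2 := pow_add _ _ _
    have hA : 0 < Real.log N ^ A := by positivity
    rw [← add_div, div_le_div_iff₀ (by positivity) hA, e3]
    have e4 : (2 : ℝ) ≤ Real.log N ^ 2 := by nlinarith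
    have e5 : 0 ≤ (N : ℝ) / Hn θ N * Real.log N ^ A := by positivity
    nlinarith

end Pool.Agent.H43.PX

end

section

/-!
# PX Res2: the theorem in the form of the hand-in (small prime factor in `(P, 2P]`, all `exp(L^t) ≤ P ≤ N^(θ/20)`)
-/

set_option autoImplicit false

namespace Pool.Agent.H43.PX

open Finset
open Pool.Agent.H43.MP (sols Pn Hn)

/-- The integers `x` with `|x| ≤ N^θ` such that `φ(n-x)+1 = n-x` (`n-x` is prime) and `n+x = p q` with primes `p, q`, `P < p ≤ 2P`. -/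
def solG (θ : ℝ) (N P n : ℕ) : Set ℤ :=
  {x : ℤ | |(x : ℝ)| ≤ (N : ℝ) ^ θ ∧ 0 < (n : ℤ) - x ∧ 0 < (n : ℤ) + x ∧
    ((Nat.totient ((n : ℤ) - x).toNat : ℤ) + 1 = (n : ℤ) - x) ∧
    ∃ p q : ℕ, p.Prime ∧ q.Prime ∧ P < p ∧ p ≤ 2 * P ∧ (n : ℤ) + x = p * q}

private theorem solG_finite (θ : ℝ) (N P n : ℕ) : (solG θ N P n).Finite := by
  refine Set.Finite.subset (Set.finite_Icc (-⌈(N : ℝ) ^ θ⌉) ⌈(N : ℝ) ^ θ⌉) ?_
  rintro x ⟨hx, -⟩
  rw [abs_le] at hx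
  have h1 := Int.le_ceil ((N : ℝ) ^ θ)
  rw [Set.mem_Icc]
  constructor
  · have : ((-⌈(N : ℝ) ^ θ⌉ : ℤ) : ℝ) ≤ (x : ℝ) := by
      push_cast
      linarith [hx.1]
    exact_mod_cast this
  · have : (x : ℝ) ≤ ((⌈(N : ℝ) ^ θ⌉ : ℤ) : ℝ) := by linarith [hx.2]
    exact_mod_cast this

private theorem solsG_sub (θ : ℝ) (N P n : ℕ) : sols P (Hn θ N) n ⊆ solG θ N P n := by
  rintro x ⟨h1, h2, h3, h4, p, q, hp, hq, h5, h6, h7⟩
  refine ⟨?_, h2, h3, h4, p, q, hp, hq, h5, h6, h7⟩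
  have h8 : (Hn θ N : ℝ) ≤ (N : ℝ) ^ θ := Nat.floor_le (by positivity)
  have h9 : ((|x| : ℤ) : ℝ) ≤ ((Hn θ N : ℤ) : ℝ) := by exact_mod_cast h1
  push_cast at h9
  exact h9.trans h8

/-- the theorem of the hand-in -/
theorem px_res2 (θ : ℝ) (h1 : 1 / 10 ≤ θ) (h2 : θ ≤ 1 / 4) (t : ℝ) (ht : 2 / 3 < t) (ht1 : t < 1) (A : ℕ) :
    ∃ N0 : ℕ, ∀ N : ℕ, N0 ≤ N → ∀ P : ℕ, Real.exp (Real.log N ^ t) ≤ P → (P : ℝ) ≤ (N : ℝ) ^ (θ / 20) →
      ({n : ℕ | N < n ∧ n ≤ 2 * N ∧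
        ((solG θ N P n).ncard : ℝ) < (N : ℝ) ^ θ / (30000 * Real.log N ^ 2 * Real.log P)}.ncard : ℝ)
      ≤ N / Real.log N ^ A := by
  classical
  obtain ⟨N0, h⟩ := fin_px2 θ t (by linarith) (by linarith) h2 (badL_g θ t (by linarith) h2 ht ht1)
    (yin Pool.Agent.H97.VK.vk_class θ h1 h2) A
  refine ⟨N0, fun N hN P hPt hPn => ?_⟩
  refine le_trans ?_ (h N hN P hPt (Nat.le_floor hPn))
  have hsub : {n : ℕ | N < n ∧ n ≤ 2 * N ∧
        ((solG θ N P n).ncard : ℝ) < (N : ℝ) ^ θ / (30000 * Real.log N ^ 2 * Real.log P)} ⊆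
      (((Ioc N (2 * N)).filter (fun n =>
        ((sols P (Hn θ N) n).ncard : ℝ) < (N : ℝ) ^ θ / (30000 * Real.log N ^ 2 * Real.log P)) : Finset ℕ) : Set ℕ) := by
    rintro n ⟨ha, hb, hc⟩
    rw [Finset.mem_coe, mem_filter, mem_Ioc]
    refine ⟨⟨ha, hb⟩, lt_of_le_of_lt ?_ hc⟩
    exact_mod_cast Set.ncard_le_ncard (solsG_sub θ N P n) (solG_finite θ N P n)
  have := Set.ncard_le_ncard hsub (Finset.finite_toSet _)
  rw [Set.ncard_coe_finset] at this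
  exact_mod_cast this

end Pool.Agent.H43.PX

end
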